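import Pool.Agent.Lib.TW.B2
import Pool.Agent.Lib.TWM.D0

/-!
# TANK W: bounded distortion of purely inseparable extensions, upwards

`bd_up`: `BD p v E`, `E ≤ E₁`, `E₁ ^ p ≤ E` imply `BD p v E₁`; `bd_adj_root`: `E₁ = E(al)`.
-/

set_option autoImplicit false

namespace Pool.Agent.TWC

open Pool.Agent.H15JM (RVal)
open Pool.Agent.LU1 (adj)
open Pool.Agent.D2P (rootF mem_adj_self)
open Pool.Agent.TWM
open Pool.Agent.TW (BD BDq Bas Orthq Ind Qp mem_Qp Qp_le' Qp_mono mem_frob pow_sum)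

universe u

section Frob

variable {Ω : Type u} [Field Ω] {v : RVal Ω} {Q E : Subfield Ω} {p : ℕ} [hp : Fact p.Prime]
  [CharP Ω p]

/-- Bounded distortion and the Frobenius map, backwards. -/
theorem bdq_of_frob (h : BDq v (Q.map (frobenius Ω p)) (E.map (frobenius Ω p))) :
    BDq v Q E := by
  obtain ⟨n, b, hb, C, hC⟩ := h
  have hp0 : (0 : ℝ) < p := by exact_mod_cast hp.out.pos
  choose a ha hab using fun i => mem_frob.1 (hb.mem i)
  have hinj : ∀ x y : Ω, x ^ p = y ^ p → x = y := fun x y h => frobenius_inj Ω p h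
  have hsum : ∀ q : Fin n → Ω, (∑ j, q j * a j) ^ p = ∑ j, q j ^ p * b j := fun q => by
    rw [pow_sum]
    exact Finset.sum_congr rfl fun j _ => by rw [mul_pow, hab]
  have hmem : ∀ q : Fin n → Ω, (∀ j, q j ∈ Q) → ∀ j, q j ^ p ∈ Q.map (frobenius Ω p) :=
    fun q hq j => mem_frob.2 ⟨q j, hq j, rfl⟩
  have hbas : Bas Q E a := by
    refine ⟨ha, fun u hu => ?_, fun q hq h0 j => ?_⟩
    · obtain ⟨c, hc, h1⟩ := hb.span (u ^ p) (mem_frob.2 ⟨u, hu, rfl⟩)
      choose q hq hqc using fun j => mem_frob.1 (hc j)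
      refine ⟨q, hq, hinj _ _ ?_⟩
      rw [hsum, h1]
      exact Finset.sum_congr rfl fun j _ => by rw [hqc]
    · have h1 := hb.ind (fun j => q j ^ p) (hmem q hq) (by
        rw [← hsum, h0, zero_pow hp.out.ne_zero]) j
      exact (pow_eq_zero_iff hp.out.ne_zero).1 h1
  refine ⟨n, a, hbas, C / p, fun q hq h0 j h1 => ?_⟩
  have h2 := hC (fun j => q j ^ p) (hmem q hq) (by
    rw [← hsum]
    exact pow_ne_zero p h0) j (by
    rw [← hab, ← mul_pow]
    exact pow_ne_zero p h1)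
  rw [← hsum, ← hab, ← mul_pow, v.map_pow h0, v.map_pow h1] at h2
  have h3 : (p : ℝ) * (v (∑ j, q j * a j) - C / p) ≤ p * v (q j * a j) := by
    rw [mul_sub, mul_div_cancel₀ _ hp0.ne']
    exact h2
  exact le_of_mul_le_mul_left h3 hp0

end Frob

variable {k Ω : Type u} [Field k] [Field Ω] [Algebra k Ω] [IsAlgClosed Ω] {v : RVal Ω}
  {p : ℕ} [hp : Fact p.Prime] [CharP Ω p] {E E₁ : IntermediateField k Ω}

/-- **Bounded distortion, upwards.** -/
theorem bd_up (h : BD p v E) (hle : E ≤ E₁) (hpow : ∀ a ∈ E₁, a ^ p ∈ E) : BD p v E₁ := by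
  have hF : Qp p (rootF p 1 E) = E.toSubfield := by
    ext x
    rw [mem_Qp]
    constructor
    · rintro ⟨c, hc, rfl⟩
      exact (mem_rootF1 p).1 hc
    · intro hx
      obtain ⟨c, hc⟩ := IsAlgClosed.exists_pow_nat_eq x hp.out.pos
      exact ⟨c, (mem_rootF1 p).2 (by rw [hc]; exact hx), hc⟩
  have h1 : BDq v E.toSubfield (rootF p 1 E).toSubfield := by
    refine bdq_of_frob (p := p) ?_
    have h2 : (rootF p 1 E).toSubfield.map (frobenius Ω p) = E.toSubfield := hF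
    rw [h2]
    exact h.bdq
  have h2 : E₁.toSubfield ≤ (rootF p 1 E).toSubfield := fun a ha => (mem_rootF1 p).2 (hpow a ha)
  have h3 : BDq v (Qp p E) (rootF p 1 E).toSubfield :=
    h1.trans h.bdq Qp_le' (fun a ha => h2 (hle ha))
  have h4 : BDq v (Qp p E₁) (rootF p 1 E).toSubfield :=
    (h3.mid (Qp_mono hle) (Qp_le'.trans h2)).1
  exact BD.of_bdq (h4.mid Qp_le' h2).2

/-- Bounded distortion of `E(al)`, `al ^ p ∈ E`. -/
theorem bd_adj_root (h : BD p v E) {al : Ω} (hal : al ^ p ∈ E) : BD p v (adj E al) := by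
  refine bd_up h (mem_adj_self E al).2 fun a ha => ?_
  have h1 : adj E al ≤ rootF p 1 E := D2P.adj_le (fun x hx => (mem_rootF1 p).2 (pow_mem hx p))
    ((mem_rootF1 p).2 hal)
  exact (mem_rootF1 p).1 (h1 ha)

end Pool.Agent.TWC
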