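import Pool.Agent.Lib.TWC.Theta

/-!
# TANK W, class C: the choice of `x` (BASE LEMMA of helper74)

* `Dst v B w c`: the distance of `w` to `B` is `c`; `Dst.exists`: it exists for `B` closed, `w ∉ B`;
* `Dst.root_le`: `p e' ≤ e` for the distances `e`, `e'` of `x` and of `x ^ (1 / p)`: the numbers
  `E_j = p ^ j dist(x ^ (1 / p ^ j), B)` decrease;
* `SND.of_dst`: if the `E_j` are constant, `j ≥ 1`, then `x` has no drops (`SND`), with
  `ρ n = r / p ^ n`;
* `exists_base`: if the `E_j` are constant for large `j`, then there is a `g` in `B`, near to one of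
  the roots of `x`, without drops.
-/

set_option autoImplicit false

open Polynomial

namespace Pool.Agent.TWC

open Pool.Agent.H15JM (RVal)
open Pool.Agent.LU1 (VPos adj)
open Pool.Agent.D2 (Ctx0)
open Pool.Agent.D2P (clI mem_clI rootF mem_rootF)
open Pool.Agent.TWM

universe u

variable {k Ω : Type u} [Field k] [Field Ω] [Algebra k Ω] {v : RVal Ω}
  {B B' : IntermediateField k Ω}

/-- The distance of `w` to `B` is `c`. -/
structure Dst (v : RVal Ω) (B : IntermediateField k Ω) (w : Ω) (c : ℝ) : Prop where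
  far : ¬ Nr' v B c w
  near : Lim v B c w

theorem Dst.le {w : Ω} {c : ℝ} (h : Dst v B w c) {a : Ω} (ha : a ∈ B) :
    w - a ≠ 0 ∧ v (w - a) ≤ c := by
  by_contra hno
  refine h.far ⟨a, ha, fun h0 => ?_⟩
  by_contra h1
  exact hno ⟨h0, not_lt.1 h1⟩

theorem Dst.le_of_ge {w : Ω} {c b : ℝ} (h : Dst v B w c) {a : Ω} (ha : a ∈ B)
    (hb : v.Ge b (w - a)) : b ≤ c := (hb (h.le ha).1).trans (h.le ha).2

theorem Dst.uniq {w : Ω} {c c' : ℝ} (h : Dst v B w c) (h' : Dst v B w c') : c = c' := by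
  refine le_antisymm ?_ ?_
  · refine le_of_forall_pos_le_add fun ε hε => ?_
    obtain ⟨a, ha, h1⟩ := h.near ε hε
    have := h'.le_of_ge ha h1
    linarith
  · refine le_of_forall_pos_le_add fun ε hε => ?_
    obtain ⟨a, ha, h1⟩ := h'.near ε hε
    have := h.le_of_ge ha h1
    linarith

theorem Dst.exists (hB : Cld v B) {w : Ω} (hw : w ∉ B) : ∃ c, Dst v B w c := by
  classical
  set S : Set ℝ := {r | ∃ a ∈ B, r = v (w - a)} with hS
  have hne : ∀ a ∈ B, w - a ≠ 0 := fun a ha h => hw (by rwa [sub_eq_zero.1 h])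
  have hb : ∃ b : ℝ, ∀ a ∈ B, v (w - a) ≤ b := by
    by_contra hno
    push Not at hno
    refine hw (hB (mem_clI.2 fun b => ?_))
    obtain ⟨a, ha, h1⟩ := hno b
    exact ⟨a, ha, fun _ => h1.le⟩
  obtain ⟨b, hb⟩ := hb
  have hbd : BddAbove S := ⟨b, by rintro _ ⟨a, ha, rfl⟩; exact hb a ha⟩
  have hSn : S.Nonempty := ⟨_, 0, B.zero_mem, rfl⟩
  refine ⟨sSup S, ⟨?_, ?_⟩⟩
  · rintro ⟨a, ha, h1⟩
    have h2 := h1 (hne a ha)
    have h3 : v (w - a) ≤ sSup S := le_csSup hbd ⟨a, ha, rfl⟩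
    linarith
  · intro ε hε
    obtain ⟨_, ⟨a, ha, rfl⟩, h1⟩ := exists_lt_of_lt_csSup hSn (sub_lt_self (sSup S) hε)
    exact ⟨a, ha, fun _ => h1.le⟩

/-- The distance depends on the class modulo elements of larger value. -/
theorem Dst.congr {w w' : Ω} {c : ℝ} (h : Dst v B w c) (hw : Gt v c (w - w')) : Dst v B w' c := by
  refine ⟨?_, fun ε hε => ?_⟩
  · rintro ⟨a, ha, h1⟩
    refine h.far ⟨a, ha, ?_⟩
    have e : w - a = (w - w') + (w' - a) := by ring
    rw [e]
    exact hw.add h1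
  · obtain ⟨a, ha, h1⟩ := h.near ε hε
    refine ⟨a, ha, ?_⟩
    have e : w' - a = (w - a) - (w - w') := by ring
    rw [e]
    exact h1.sub (hw.ge.mono (by linarith))

section P

variable {p : ℕ} [hp : Fact p.Prime] [CharP Ω p] {x : ℕ → Ω}

theorem Dst.root_le {w w' : Ω} {c c' : ℝ} (h : Dst v B w c) (h' : Dst v B w' c')
    (hw : w' ^ p = w) : p * c' ≤ c := by
  have hp0 : (0 : ℝ) < p := by exact_mod_cast hp.out.pos
  refine le_of_forall_pos_le_add fun ε hε => ?_
  obtain ⟨g, hg, h1⟩ := h'.near (ε / p) (by positivity)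
  have h2 := h.le_of_ge (pow_mem hg p) (b := p * (c' - ε / p)) (by
    rw [← hw, ← sub_pow_char]
    exact ge_pow h1 p)
  rw [mul_sub, mul_div_cancel₀ _ hp0.ne'] at h2
  linarith

omit [CharP Ω p] hp in
theorem root_pow_add (hr : ∀ n, x (n + 1) ^ p = x n) (n j : ℕ) : x (n + j) ^ p ^ j = x n := by
  induction j with
  | zero => simp
  | succ j ih => rw [← add_assoc, pow_succ', pow_mul, hr, ih]

omit hp in
/-- `B(x n)^(p^n) ≤ B` -/
theorem pow_mem_of_adj [Fact p.Prime] (hr : ∀ n, x (n + 1) ^ p = x n) (h0 : x 0 ∈ B) (n : ℕ) {g : Ω}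
    (hg : g ∈ adj B (x n)) : g ^ p ^ n ∈ B := by
  have h1 : adj B (x n) ≤ rootF p n B := by
    refine D2P.adj_le (fun a ha => mem_rootF.2 (pow_mem ha _)) (mem_rootF.2 ?_)
    have := root_pow_add hr 0 n
    rw [zero_add] at this
    rw [this]
    exact h0
  exact mem_rootF.1 (h1 hg)

/-- **No drops.** If the numbers `p ^ n dist(x n, B)`, `n ≥ 1`, are all equal to `r`. -/
theorem SND.of_dst (hB : Cld v B) (h0 : x 0 ∈ B) (hr : ∀ n, x (n + 1) ^ p = x n) {r : ℝ}
    (hd : ∀ n, Dst v B (x (n + 1)) (r / p ^ (n + 1))) : SND p v B x fun n => r / p ^ n where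
  cld := hB
  mem := h0
  root := hr
  far := fun n => by
    rintro ⟨g, hg, h1⟩
    have hp0 : (0 : ℝ) < p := by exact_mod_cast hp.out.pos
    refine (hd 0).far ⟨g ^ p ^ n, pow_mem_of_adj hr h0 n hg, fun h2 => ?_⟩
    have e : x (0 + 1) = x (n + 1) ^ p ^ n := by
      have := root_pow_add hr 1 n
      rw [add_comm 1 n] at this
      rw [this]
    rw [e, ← sub_pow_char_pow] at h2 ⊢
    have h3 : x (n + 1) - g ≠ 0 := fun h => h2 (by rw [h, zero_pow (pow_pos hp.out.pos n).ne'])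
    rw [v.map_pow h3]
    have h4 := h1 h3
    have h5 : (p : ℝ) ^ n * (r / p ^ (n + 1)) < p ^ n * v (x (n + 1) - g) :=
      mul_lt_mul_of_pos_left h4 (pow_pos hp0 n)
    push_cast
    refine lt_of_eq_of_lt ?_ h5
    field_simp
    ring
  near := fun n => (hd n).near

/-- **The choice of `x`.** If the numbers `p ^ n dist(x n, B)` are equal to `r` for `n ≥ j₀`, then
there are an `m` and a `g` in `B` near to `x m` without drops; `m = 0` and `g = x 0` if `r` is
attained from `j₀ = 1` on. -/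
theorem exists_base [IsAlgClosed Ω] (hB : Cld v B) (h0 : x 0 ∈ B)
    (hr : ∀ n, x (n + 1) ^ p = x n) {r : ℝ} (j₀ : ℕ)
    (hd : ∀ n, j₀ ≤ n → Dst v B (x (n + 1)) (r / p ^ (n + 1))) :
    ∃ (m : ℕ) (g : ℕ → Ω), m ≤ j₀ ∧ g 0 ∈ B ∧ (∀ n, g (n + 1) ^ p = g n) ∧
      (∀ i, Gt v (r / p ^ (m + i)) (g i - x (m + i))) ∧
      SND p v B g (fun n => r / p ^ m / p ^ n) := by
  classical
  have hp0 : (0 : ℝ) < p := by exact_mod_cast hp.out.pos
  -- the first index
  have hex : ∃ j, ∀ n, j ≤ n → Dst v B (x (n + 1)) (r / p ^ (n + 1)) := ⟨j₀, hd⟩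
  set m := Nat.find hex with hm
  have hm1 : ∀ n, m ≤ n → Dst v B (x (n + 1)) (r / p ^ (n + 1)) := Nat.find_spec hex
  have hmj : m ≤ j₀ := Nat.find_min' hex hd
  -- the element `g`
  have hg : ∃ g ∈ B, Gt v (r / p ^ m) (g - x m) := by
    rcases Nat.eq_zero_or_pos m with h1 | h1
    · rw [h1]
      exact ⟨x 0, h0, fun h2 => absurd (sub_self _) h2⟩
    · obtain ⟨m', hm'⟩ : ∃ m', m = m' + 1 := ⟨m - 1, by omega⟩
      by_contra hno
      have h2 : ¬ Nr' v B (r / p ^ m) (x m) := by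
        rintro ⟨g, hg, h3⟩
        refine hno ⟨g, hg, ?_⟩
        have e : g - x m = -(x m - g) := by ring
        rw [e]
        exact h3.neg
      have h3 : Dst v B (x m) (r / p ^ m) := by
        refine ⟨h2, fun ε hε => ?_⟩
        obtain ⟨a, ha, h4⟩ := (hm1 m le_rfl).near (ε / p) (by positivity)
        refine ⟨a ^ p, pow_mem ha p, ?_⟩
        rw [← hr m, ← sub_pow_char]
        refine (ge_pow h4 p).mono (le_of_eq ?_)
        rw [pow_succ]
        field_simp
      refine Nat.find_min hex (m := m') (by rw [← hm]; omega) fun n hn => ?_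
      rcases Nat.eq_or_lt_of_le hn with h4 | h4
      · rw [← h4, ← hm']
        exact h3
      · exact hm1 n (by omega)
  obtain ⟨g, hgB, hg1⟩ := hg
  -- its roots
  have hrt : ∀ a : Ω, ∃ b : Ω, b ^ p = a := fun a => IsAlgClosed.exists_pow_nat_eq a hp.out.pos
  choose R hR using hrt
  set G : ℕ → Ω := fun n => Nat.rec g (fun _ y => R y) n with hG
  have hG0 : G 0 = g := rfl
  have hG1 : ∀ n, G (n + 1) ^ p = G n := fun n => hR (G n)
  have hnear : ∀ i, Gt v (r / p ^ (m + i)) (G i - x (m + i)) := by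
    intro i hne
    have e : (G i - x (m + i)) ^ p ^ i = g - x m := by
      rw [sub_pow_char_pow, root_pow_add hr m i]
      have := root_pow_add hG1 0 i
      rw [zero_add, hG0] at this
      rw [this]
    have h2 : g - x m ≠ 0 := by
      rw [← e]
      exact pow_ne_zero _ hne
    have h3 := hg1 h2
    rw [← e, v.map_pow hne] at h3
    push_cast at h3
    rw [pow_add, ← div_div, div_lt_iff₀ (pow_pos hp0 i), mul_comm]
    exact h3
  refine ⟨m, G, hmj, hgB, hG1, hnear, SND.of_dst hB hgB hG1 fun n => ?_⟩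
  have h2 : Dst v B (x (m + (n + 1))) (r / p ^ (m + (n + 1))) := hm1 (m + n) (by omega)
  have h3 : r / (p : ℝ) ^ m / p ^ (n + 1) = r / p ^ (m + (n + 1)) := by
    rw [div_div, ← pow_add]
  rw [h3]
  refine h2.congr ?_
  have e : x (m + (n + 1)) - G (n + 1) = -(G (n + 1) - x (m + (n + 1))) := by ring
  rw [e]
  exact (hnear (n + 1)).neg

end P

end Pool.Agent.TWC
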