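import Pool.Agent.Lib.TWC.TowDefs

/-!
# TANK W, class C: the closure of `P(w, w ^ (1 / p), ..)` (row T5)
-/

set_option autoImplicit false

open Polynomial TensorProduct

namespace Pool.Agent.TWC

open Pool.Agent.H15JM (RVal)
open Pool.Agent.LU1 (VPos adj)
open Pool.Agent.D2 (Ctx0)
open Pool.Agent.D2P (hen clI mem_clI)
open Pool.Agent.TWM

universe u

variable {k Ω : Type u} [Field k] [Field Ω] [Algebra k Ω] {v : RVal Ω}
  {A B C E L LE P N : IntermediateField k Ω} {z : Ω}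

/-! ### Closures -/

theorem self_le_clI (v : RVal Ω) (E : IntermediateField k Ω) : E ≤ clI v E := fun _ ha =>
  LUC.Cl.subset ha

theorem clI_mono' (h : A ≤ B) : clI v A ≤ clI v B := fun _ hx =>
  D2P.cl_mono (fun _ hy => h hy) hx

theorem clI_le' (h : A ≤ B) (hB : Cld v B) : clI v A ≤ B := (clI_mono' h).trans hB

/-- The elements whose `p`-th power is in `K`. -/
theorem pow_char_mem (p : ℕ) [Fact p.Prime] [CharP Ω p] {K S T : IntermediateField k Ω}
    (hS : ∀ x ∈ S, x ^ p ∈ K) (hT : ∀ x ∈ T, x ^ p ∈ K) : ∀ x ∈ S ⊔ T, x ^ p ∈ K := by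
  have hk : ∀ x : k, algebraMap k Ω x ∈ K.toSubfield.comap (frobenius Ω p) := fun x => by
    change frobenius Ω p (algebraMap k Ω x) ∈ K
    rw [frobenius_def, ← map_pow]
    exact K.algebraMap_mem _
  set K' : IntermediateField k Ω := Subfield.toIntermediateField
    (K.toSubfield.comap (frobenius Ω p)) hk with hK'
  have h1 : ∀ x, x ∈ K' ↔ x ^ p ∈ K := fun x => by
    change frobenius Ω p x ∈ K ↔ x ^ p ∈ K
    rw [frobenius_def]
  have h2 : S ⊔ T ≤ K' := sup_le (fun x hx => (h1 x).2 (hS x hx)) fun x hx => (h1 x).2 (hT x hx)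
  exact fun x hx => (h1 x).1 (h2 hx)

/-- `T'^p ≤ L'` for the closures. -/
theorem pow_mem_clI (p : ℕ) [Fact p.Prime] [CharP Ω p] {S K : IntermediateField k Ω}
    (h : ∀ x ∈ S, x ^ p ∈ K) : ∀ x ∈ clI v S, x ^ p ∈ clI v K := by
  intro x hx
  rw [mem_clI] at hx ⊢
  intro b
  have hp : (0 : ℝ) < p := by exact_mod_cast (Fact.out : p.Prime).pos
  obtain ⟨y, hy, h1⟩ := hx (b / p)
  refine ⟨y ^ p, h y hy, ?_⟩
  rw [← sub_pow_char]
  refine (ge_pow h1 p).mono (le_of_eq ?_)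
  field_simp

/-- The closure of a perfect field is perfect. -/
theorem perf_clI [IsAlgClosed Ω] (p : ℕ) [Fact p.Prime] [CharP Ω p] {K : IntermediateField k Ω}
    (hK : ∀ a ∈ K, ∃ b ∈ K, b ^ p = a) : ∀ a ∈ clI v K, ∃ b ∈ clI v K, b ^ p = a := by
  intro a ha
  have hp : (0 : ℝ) < p := by exact_mod_cast (Fact.out : p.Prime).pos
  obtain ⟨b, hb⟩ := IsAlgClosed.exists_pow_nat_eq a (Fact.out : p.Prime).pos
  refine ⟨b, ?_, hb⟩
  rw [mem_clI] at ha ⊢
  intro r
  obtain ⟨a₀, ha₀, h1⟩ := ha (p * r)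
  obtain ⟨b₀, hb₀, h2⟩ := hK a₀ ha₀
  refine ⟨b₀, hb₀, fun h0 => ?_⟩
  rw [← hb, ← h2, ← sub_pow_char] at h1
  have h3 := h1 (pow_ne_zero p h0)
  rw [v.map_pow h0] at h3
  exact le_of_mul_le_mul_left h3 hp

/-- A field generated by `p`-th powers of its elements is perfect. -/
theorem perf_sup (p : ℕ) [Fact p.Prime] [CharP Ω p] {P : IntermediateField k Ω}
    (hP : ∀ a ∈ P, ∃ b ∈ P, b ^ p = a) {S : Set Ω}
    (hS : ∀ s ∈ S, ∃ b ∈ P ⊔ IntermediateField.adjoin k S, b ^ p = s) :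
    ∀ a ∈ P ⊔ IntermediateField.adjoin k S, ∃ b ∈ P ⊔ IntermediateField.adjoin k S,
      b ^ p = a := by
  set K := P ⊔ IntermediateField.adjoin k S with hK
  have hPK : P ≤ K := le_sup_left
  have hk : ∀ x : k, algebraMap k Ω x ∈ K.toSubfield.map (frobenius Ω p) := fun x => by
    obtain ⟨b, hb, h1⟩ := hP _ (P.algebraMap_mem x)
    exact ⟨b, hPK hb, h1⟩
  set K' : IntermediateField k Ω := Subfield.toIntermediateField
    (K.toSubfield.map (frobenius Ω p)) hk with hK'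
  have h1 : ∀ x, x ∈ K' ↔ ∃ b ∈ K, b ^ p = x := fun x => by
    change (∃ b ∈ K, frobenius Ω p b = x) ↔ ∃ b ∈ K, b ^ p = x
    exact Iff.rfl
  have h2 : K ≤ K' := by
    rw [hK]
    refine sup_le (fun x hx => (h1 x).2 ?_) (IntermediateField.adjoin_le_iff.2 fun x hx =>
      (h1 x).2 (hS x hx))
    obtain ⟨b, hb, h3⟩ := hP x hx
    exact ⟨b, hPK hb, h3⟩
  exact fun a ha => (h1 a).1 (h2 ha)

variable (p : ℕ) [Fact p.Prime] [CharP k p] [CharP Ω p] [PerfectRing k p] [IsAlgClosed Ω]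

/-! ### The field `EW` -/

section T5

variable {w : Ω} {u : ℕ → Ω}

omit [IsAlgClosed Ω] in
theorem EW.cld : Cld v (EW v P u) := cld_clI v _

omit [IsAlgClosed Ω] in
theorem EW.le : P ≤ EW v P u := le_sup_left.trans (self_le_clI v _)

omit [IsAlgClosed Ω] in
theorem EW.mem (n : ℕ) : u n ∈ EW v P u :=
  (le_sup_right.trans (self_le_clI v _) :
    IntermediateField.adjoin k (Set.range u) ≤ EW v P u)
    (IntermediateField.subset_adjoin k _ ⟨n, rfl⟩)

omit [IsAlgClosed Ω] in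
theorem EW.cadj_le (n : ℕ) : cadj v P (u n) ≤ EW v P u :=
  TWM.cadj_le EW.cld EW.le (EW.mem n)

omit [CharP k p] [PerfectRing k p] in
/-- `EW` is perfect. -/
theorem EW.perf (_hc : CompleteV v) (_hP : Cld v P) (hP' : ∀ a ∈ P, ∃ b ∈ P, b ^ p = a)
    (hu : ∀ n, u (n + 1) ^ p = u n) : ∀ a ∈ EW v P u, ∃ b ∈ EW v P u, b ^ p = a := by
  refine perf_clI p (perf_sup p hP' ?_)
  rintro _ ⟨n, rfl⟩
  exact ⟨u (n + 1), (le_sup_right : IntermediateField.adjoin k (Set.range u) ≤ _)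
    (IntermediateField.subset_adjoin k _ ⟨n + 1, rfl⟩), hu n⟩

omit [Fact p.Prime] [CharP k p] [CharP Ω p] [PerfectRing k p] [IsAlgClosed Ω] in
theorem EW.pow_pow (hu : ∀ n, u (n + 1) ^ p = u n) (n m : ℕ) : u (n + m) ^ p ^ m = u n := by
  induction m with
  | zero => rw [pow_zero, pow_one, add_zero]
  | succ m ih => rw [pow_succ', pow_mul, ← add_assoc, hu, ih]

omit [CharP k p] [CharP Ω p] [PerfectRing k p] [IsAlgClosed Ω] in
/-- `EW` is in the closure of the algebraic closure of `P(w)`. -/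
theorem EW.alg (_hu0 : u 0 = w) (hu : ∀ n, u (n + 1) ^ p = u n) (n : ℕ) :
    EW v P u ≤ clI v (algc (cadj v P (u n))) := by
  have hp : p.Prime := Fact.out
  refine clI_mono' (sup_le ((le_cadj v P _).trans (le_algc _))
    (IntermediateField.adjoin_le_iff.2 ?_))
  rintro _ ⟨m, rfl⟩
  rcases le_total m n with h | h
  · obtain ⟨d, rfl⟩ := Nat.exists_eq_add_of_le h
    rw [← EW.pow_pow p hu m d]
    exact le_algc _ (pow_mem (self_mem_cadj v P _) _)
  · obtain ⟨d, rfl⟩ := Nat.exists_eq_add_of_le h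
    refine mem_algc.2 (IsAlgebraic.of_pow (pow_pos hp.pos d) (n := p ^ d) ?_)
    rw [EW.pow_pow p hu n d]
    exact isAlgebraic_algebraMap (⟨u n, self_mem_cadj v P _⟩ : cadj v P (u n))

omit [Fact p.Prime] [CharP k p] [CharP Ω p] [PerfectRing k p] [IsAlgClosed Ω] in
/-- The shift of the roots. -/
theorem EW.shift (hu : ∀ n, u (n + 1) ^ p = u n) : EW v P (fun n => u (n + 1)) = EW v P u := by
  have h : IntermediateField.adjoin k (Set.range fun n => u (n + 1)) =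
      IntermediateField.adjoin k (Set.range u) := by
    refine le_antisymm (IntermediateField.adjoin_le_iff.2 ?_)
      (IntermediateField.adjoin_le_iff.2 ?_)
    · rintro _ ⟨n, rfl⟩
      exact IntermediateField.subset_adjoin k _ ⟨n + 1, rfl⟩
    · rintro _ ⟨n, rfl⟩
      rw [← hu n]
      have h1 : u (n + 1) ∈ IntermediateField.adjoin k (Set.range fun n => u (n + 1)) :=
        IntermediateField.subset_adjoin k _ ⟨n, rfl⟩
      exact pow_mem h1 p
  rw [EW, EW, h]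

omit [CharP k p] [PerfectRing k p] [IsAlgClosed Ω] in
/-- `T'^p ≤ L'` -/
theorem pow_mem_sup {T : IntermediateField k Ω} (_hE : ∀ a ∈ E, ∃ b ∈ E, b ^ p = a)
    (hT : ∀ t ∈ T, t ^ p ∈ L) : ∀ t ∈ clI v (T ⊔ E), t ^ p ∈ clI v (L ⊔ E) :=
  pow_mem_clI p (pow_char_mem p (fun x hx => (le_sup_left : L ≤ L ⊔ E) (hT x hx))
    fun _ hx => (le_sup_right : E ≤ L ⊔ E) (pow_mem hx p))

end T5

end Pool.Agent.TWC
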