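import Pool.Agent.Lib.TWC.BaseX

/-!
# TANK W, class C: the `B`-linear operators of the roots of `x`, with weights

`x (n + 1) ^ p = x n`.
* `AX B x`: the elements `P (x n)`, `P` over `B`; `AX.field`: a field if `x 0 ∈ B`;
* `NBX p v B x w`: the jet of order `F < p ^ n` at `x n` of the polynomials over `B` has norm
  `≤ w n F`; `SND.nbx`;
* `ThX p v B E x w D`: `D n F` is the operator of order `F / p ^ n` of `E`, of norm `≤ w n F`;
  `exists_thX`: existence on every closed field `E` in which `AX B x` is dense;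
* `ThX.zero`, `ThX.lin`, `ThX.base`, `ThX.lift`, `ThX.leib`, `ThX.comp`, `ThX.comp_zero`, `ThX.frob`,
  `ThX.ext`: the identities.
-/

set_option autoImplicit false

open Polynomial

namespace Pool.Agent.TWC

open Pool.Agent.H15JM (RVal)
open Pool.Agent.LU1 (VPos adj)
open Pool.Agent.D2 (Ctx0)
open Pool.Agent.D2P (clI mem_clI rootF mem_rootF)
open Pool.Agent.TWM

universe u

variable {k Ω : Type u} [Field k] [Field Ω] [Algebra k Ω] {v : RVal Ω}
  {B B' E E' : IntermediateField k Ω} {x : ℕ → Ω}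

/-! ### Extension of a bounded map -/

/-- Extension of a map of norm `≤ w` from a dense subspace. -/
theorem exists_extW [hc : Fact (Ctx0 k v)] (hE : Cld v E) (hΩ : CompleteV v) (A : Submodule k Ω)
    (hd : DnsS v (A : Set Ω) E) (f : A →ₗ[k] Ω) (hf : ∀ a, f a ∈ E) (w : ℝ)
    (hn : ∀ (a : A) (b : ℝ), v.Ge b (a : Ω) → v.Ge (b - w) (f a)) :
    ∃ φ : Module.End k E, (∀ (y : E) (b : ℝ), v.Ge b (y : Ω) → v.Ge (b - w) ((φ y : E) : Ω)) ∧
      ∀ (a : Ω) (ha : a ∈ A) (ha' : a ∈ E), ((φ ⟨a, ha'⟩ : E) : Ω) = f ⟨a, ha⟩ := by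
  have hdif : ∀ (a a' : A) (b : ℝ), v.Ge b ((a : Ω) - a') → v.Ge (b - w) (f a - f a') := by
    intro a a' b h
    rw [← map_sub]
    exact hn _ _ h
  -- the value of the extension at `x`
  have h1 : ∀ x : E, ∃ y : E, ∀ (a : A) (b : ℝ), v.Ge b ((x : Ω) - a) →
      v.Ge (b - w) ((y : Ω) - f a) := by
    intro x
    choose a ha _ hxa using fun n : ℕ => hd x x.2 (n : ℝ)
    obtain ⟨y, hy⟩ := hΩ (fun n => f ⟨a n, ha n⟩) fun c => by
      obtain ⟨N, hN⟩ := exists_nat_ge (c + w)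
      refine ⟨N, fun m n hm hn' => ?_⟩
      have e : ((⟨a m, ha m⟩ : A) : Ω) - (⟨a n, ha n⟩ : A) = ((x : Ω) - a n) - (x - a m) := by
        change a m - a n = _
        ring
      refine (hdif _ _ (c + w) ?_).mono (by linarith)
      rw [e]
      refine RVal.Ge.sub ?_ ?_
      · exact (hxa n).mono (hN.trans (by exact_mod_cast hn'))
      · exact (hxa m).mono (hN.trans (by exact_mod_cast hm))
    have hyE : y ∈ E := by
      refine hE (D2P.mem_clI.2 fun b => ?_)
      obtain ⟨N, hN⟩ := hy b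
      exact ⟨_, hf _, hN N le_rfl⟩
    refine ⟨⟨y, hyE⟩, fun a' b hb => ?_⟩
    obtain ⟨N, hN⟩ := hy (b - w)
    obtain ⟨N', hN'⟩ := exists_nat_ge b
    set n := max N N' with hn'
    have e : (y : Ω) - f a' = (y - f ⟨a n, ha n⟩) + (f ⟨a n, ha n⟩ - f a') := by ring
    change v.Ge (b - w) (y - f a')
    rw [e]
    refine (hN n (le_max_left _ _)).add (hdif _ _ _ ?_)
    have e2 : ((⟨a n, ha n⟩ : A) : Ω) - a' = ((x : Ω) - a') - (x - a n) := by
      change a n - (a' : Ω) = _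
      ring
    rw [e2]
    refine hb.sub ((hxa n).mono (hN'.trans ?_))
    exact_mod_cast le_max_right N N'
  choose g hg using h1
  have huniq : ∀ (x : E) (y : Ω), (∀ (b : ℝ), ∃ a : A, v.Ge b ((x : Ω) - a) ∧ v.Ge b (y - f a)) →
      (g x : Ω) = y := by
    intro x y h
    refine eq_of_ge (v := v) fun b => ?_
    obtain ⟨a, h2, h3⟩ := h (max b (b + w))
    have e : (g x : Ω) - y = (g x - f a) - (y - f a) := by ring
    rw [e]
    refine RVal.Ge.sub ?_ (h3.mono (le_max_left _ _))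
    refine (hg x a _ h2).mono ?_
    have := le_max_right b (b + w)
    linarith
  have hdA : ∀ (x : E) (b : ℝ), ∃ a : A, v.Ge b ((x : Ω) - a) := by
    intro x b
    obtain ⟨a, ha, -, h2⟩ := hd x x.2 b
    exact ⟨⟨a, ha⟩, h2⟩
  have hdA' : ∀ (x : E) (b : ℝ), ∃ a : A, v.Ge b ((x : Ω) - a) ∧ v.Ge b ((g x : Ω) - f a) := by
    intro x b
    obtain ⟨a, ha⟩ := hdA x (max b (b + w))
    refine ⟨a, ha.mono (le_max_left _ _), (hg x a _ ha).mono ?_⟩
    have := le_max_right b (b + w)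
    linarith
  let φ₀ : E →ₗ[k] E :=
    { toFun := g
      map_add' := fun x y => by
        refine Subtype.ext (huniq _ _ fun b => ?_)
        obtain ⟨a, ha, h3⟩ := hdA' x b
        obtain ⟨a', ha', h4⟩ := hdA' y b
        refine ⟨a + a', ?_, ?_⟩
        · have e : ((x + y : E) : Ω) - (a + a' : A) = ((x : Ω) - a) + (y - a') := by
            push_cast
            ring
          rw [e]
          exact ha.add ha'
        · have e : ((g x + g y : E) : Ω) - f (a + a') = ((g x : Ω) - f a) + (g y - f a') := by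
            rw [map_add]
            push_cast
            ring
          rw [e]
          exact h3.add h4
      map_smul' := fun c x => by
        refine Subtype.ext (huniq _ _ fun b => ?_)
        obtain ⟨a, ha, h3⟩ := hdA' x b
        have hs : ∀ t : Ω, v.Ge b t → v.Ge b (c • t) := fun t ht => by
          rw [Algebra.smul_def]
          have := (hc.out.ge c).mul ht
          rwa [zero_add] at this
        refine ⟨c • a, ?_, ?_⟩
        · have e : ((c • x : E) : Ω) - (c • a : A) = c • ((x : Ω) - a) := by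
            rw [smul_sub]
            rfl
          rw [e]
          exact hs _ ha
        · have e : ((c • g x : E) : Ω) - f (c • a) = c • ((g x : Ω) - f a) := by
            rw [smul_sub, map_smul]
            rfl
          rw [RingHom.id_apply, e]
          exact hs _ h3 }
  refine ⟨φ₀, ?_, ?_⟩
  · intro x b hb
    obtain ⟨a, ha⟩ := hdA x b
    have e : (g x : Ω) = (g x - f a) + f a := by ring
    change v.Ge (b - w) (g x : Ω)
    rw [e]
    refine (hg x a b ha).add (hn a b ?_)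
    have e2 : (a : Ω) = (x : Ω) - (x - a) := by ring
    rw [e2]
    exact hb.sub ha
  · intro a ha ha'
    change (g ⟨a, ha'⟩ : Ω) = _
    exact huniq _ _ fun b => ⟨⟨a, ha⟩, by rw [sub_self]; exact RVal.Ge.zero, by
      rw [sub_self]; exact RVal.Ge.zero⟩

/-! ### Polynomials in the roots -/

/-- The elements `P (x n)`, `P` over `B`. -/
def AX (B : IntermediateField k Ω) (x : ℕ → Ω) : Set Ω :=
  {y | ∃ n : ℕ, ∃ P ∈ PI B, y = P.eval (x n)}

theorem expand_mem_PI {p : ℕ} (hp : 0 < p) {P : Polynomial Ω} (hP : P ∈ PI B) :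
    expand Ω p P ∈ PI B := by
  intro i
  rw [coeff_expand hp]
  split_ifs
  exacts [hP _, B.zero_mem]

section Lev

variable {p : ℕ}

/-- change of the level -/
theorem ax_lift (hr : ∀ n, x (n + 1) ^ p = x n) (n j : ℕ) (P : Polynomial Ω) :
    (expand Ω (p ^ j) P).eval (x (n + j)) = P.eval (x n) := by
  rw [expand_eval, root_pow_add hr]

/-- a common level -/
theorem ax_common (hp : 0 < p) (hr : ∀ n, x (n + 1) ^ p = x n) {y z : Ω} (hy : y ∈ AX B x)
    (hz : z ∈ AX B x) (n : ℕ) : ∃ j, ∃ P ∈ PI B, ∃ Q ∈ PI B, y = P.eval (x (n + j)) ∧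
      z = Q.eval (x (n + j)) := by
  obtain ⟨a, P, hP, rfl⟩ := hy
  obtain ⟨b, Q, hQ, rfl⟩ := hz
  refine ⟨a + b, expand Ω (p ^ (n + b)) P, expand_mem_PI (pow_pos hp _) hP,
    expand Ω (p ^ (n + a)) Q, expand_mem_PI (pow_pos hp _) hQ, ?_, ?_⟩
  · rw [show n + (a + b) = a + (n + b) by omega, ax_lift hr]
  · rw [show n + (a + b) = b + (n + a) by omega, ax_lift hr]

/-- The subspace `AX B x`. -/
def AXs (B : IntermediateField k Ω) (hp : 0 < p) (hr : ∀ n, x (n + 1) ^ p = x n) :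
    Submodule k Ω where
  carrier := AX B x
  add_mem' := by
    intro y z hy hz
    obtain ⟨j, P, hP, Q, hQ, rfl, rfl⟩ := ax_common hp hr hy hz 0
    exact ⟨_, P + Q, add_mem hP hQ, by rw [eval_add]⟩
  zero_mem' := ⟨0, 0, zero_mem _, by rw [eval_zero]⟩
  smul_mem' := by
    rintro a _ ⟨n, P, hP, rfl⟩
    refine ⟨n, C (algebraMap k Ω a) * P, mul_mem (C_mem_PI (B.algebraMap_mem a)) hP, ?_⟩
    rw [eval_mul, eval_C, Algebra.smul_def]

theorem AX.mul (hp : 0 < p) (hr : ∀ n, x (n + 1) ^ p = x n) {y z : Ω} (hy : y ∈ AX B x)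
    (hz : z ∈ AX B x) : y * z ∈ AX B x := by
  obtain ⟨j, P, hP, Q, hQ, rfl, rfl⟩ := ax_common hp hr hy hz 0
  exact ⟨_, P * Q, mul_mem hP hQ, by rw [eval_mul]⟩

theorem AX.base (x : ℕ → Ω) {y : Ω} (hy : y ∈ B) : y ∈ AX B x :=
  ⟨0, C y, C_mem_PI hy, by rw [eval_C]⟩

theorem AX.gen (B : IntermediateField k Ω) (x : ℕ → Ω) (n : ℕ) : x n ∈ AX B x :=
  ⟨n, X, X_mem_PI, by rw [eval_X]⟩

theorem AX.mem (hBE : B ≤ E) (hx : ∀ n, x n ∈ E) {y : Ω} (hy : y ∈ AX B x) : y ∈ E := by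
  obtain ⟨n, P, hP, rfl⟩ := hy
  exact eval_mem (PI_mono hBE hP) (hx n)

theorem AX.mono (h : B ≤ B') : AX B x ⊆ AX B' x := by
  rintro _ ⟨n, P, hP, rfl⟩
  exact ⟨n, P, PI_mono h hP, rfl⟩

/-- If `x 0` is in `B`, then `AX B x` is a field. -/
theorem AX.field (hr : ∀ n, x (n + 1) ^ p = x n) (hp : 0 < p) (h0 : x 0 ∈ B) {y : Ω}
    (hy : y ∈ B ⊔ IntermediateField.adjoin k (Set.range x)) : y ∈ AX B x := by
  have h1 : ∀ y ∈ Set.range x, IsAlgebraic B y := by
    rintro _ ⟨n, rfl⟩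
    have h2 : x n ^ p ^ n = x 0 := by
      have := root_pow_add hr 0 n
      rwa [zero_add] at this
    have h3 : IsAlgebraic B (x n ^ p ^ n) := by
      rw [h2]
      exact isAlgebraic_algebraMap (R := B) (⟨_, h0⟩ : B)
    exact IsAlgebraic.of_pow (pow_pos hp n) h3
  have h2 : B ⊔ IntermediateField.adjoin k (Set.range x) ≤
      (IntermediateField.adjoin B (Set.range x)).restrictScalars k := by
    refine sup_le (fun y hy => ?_) ?_
    · exact (IntermediateField.adjoin B _).algebraMap_mem (⟨y, hy⟩ : B)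
    · rw [IntermediateField.adjoin_le_iff]
      exact fun y hy => IntermediateField.subset_adjoin B _ hy
  have h3 : y ∈ IntermediateField.adjoin B (Set.range x) := h2 hy
  have h4 : y ∈ Algebra.adjoin B (Set.range x) := by
    rw [← IntermediateField.adjoin_toSubalgebra_of_isAlgebraic h1]
    exact h3
  clear hy h3
  induction h4 using Algebra.adjoin_induction with
  | mem y hy =>
    obtain ⟨n, rfl⟩ := hy
    exact AX.gen B x n
  | algebraMap c => exact AX.base x (SetLike.coe_mem c)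
  | add y z _ _ hy hz => exact (AXs B hp hr).add_mem hy hz
  | mul y z _ _ hy hz => exact AX.mul hp hr hy hz

/-- If `x 0 ∈ B`, then `AX B x` is dense in the closure of `B(x n, n)`. -/
theorem AX.dense (hr : ∀ n, x (n + 1) ^ p = x n) (hp : 0 < p) (h0 : x 0 ∈ B) :
    DnsS v (AX B x) (clI v (B ⊔ IntermediateField.adjoin k (Set.range x))) := by
  intro y hy b
  obtain ⟨z, hz, h1⟩ := mem_clI.1 hy b
  exact ⟨z, AX.field hr hp h0 hz, LUC.Cl.subset hz, h1⟩

end Lev

/-! ### The jets -/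

/-- The jets of the polynomials over `B` at the roots have norm `≤ w n F`. -/
structure NBX (p : ℕ) (v : RVal Ω) (B : IntermediateField k Ω) (x : ℕ → Ω) (w : ℕ → ℕ → ℝ) :
    Prop where
  root : ∀ n, x (n + 1) ^ p = x n
  lift : ∀ n F, w (n + 1) (p * F) = w n F
  nb : ∀ n, ∀ P : Polynomial Ω, P ∈ PI B → ∀ F < p ^ n, ∀ b : ℝ, v.Ge b (P.eval (x n)) →
    v.Ge (b - w n F) ((taylor (x n) P).coeff F)

theorem NBX.le {p : ℕ} {w : ℕ → ℕ → ℝ} (h : NBX p v B' x w) (hB : B ≤ B') : NBX p v B x w where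
  root := h.root
  lift := h.lift
  nb := fun n P hP => h.nb n P (PI_mono hB hP)

/-- Weights may be increased. -/
theorem NBX.mono {p : ℕ} {w w' : ℕ → ℕ → ℝ} (h : NBX p v B x w)
    (hl : ∀ n F, w' (n + 1) (p * F) = w' n F) (hw : ∀ n, ∀ F < p ^ n, w n F ≤ w' n F) :
    NBX p v B x w' where
  root := h.root
  lift := hl
  nb := fun n P hP F hF b hb => (h.nb n P hP F hF b hb).mono (by linarith [hw n F hF])

theorem SND.nbx (p : ℕ) [hp : Fact p.Prime] [CharP k p] [CharP Ω p] [IsAlgClosed Ω] (h0 : Ctx0 k v)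
    (hc : CompleteV v) {ρ : ℕ → ℝ} (h : SND p v B x ρ) : NBX p v B x (wt p ρ) where
  root := h.root
  lift := wt_mul p hp.out.pos ρ
  nb := h.norm h0 hc

/-- The weight `F r / p ^ n`. -/
theorem SND.nbx' (p : ℕ) [hp : Fact p.Prime] [CharP k p] [CharP Ω p] [IsAlgClosed Ω]
    (h0 : Ctx0 k v) (hc : CompleteV v) {ρ : ℕ → ℝ} (h : SND p v B x ρ) {r : ℝ}
    (hr : p * ρ 1 ≤ r) : NBX p v B x fun n F => F * r / p ^ n := by
  have hp0 : (0 : ℝ) < p := by exact_mod_cast hp.out.pos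
  refine (h.nbx p h0 hc).mono (fun n F => ?_) fun n F hF => ?_
  · push_cast
    rw [pow_succ]
    field_simp
  · refine (h.wt_le n F hF).trans ?_
    refine (div_le_div_iff_of_pos_right (pow_pos hp0 n)).2 ?_
    exact mul_le_mul_of_nonneg_left hr (Nat.cast_nonneg _)

section Jets

variable {p : ℕ} [hp : Fact p.Prime] [CharP Ω p] {w : ℕ → ℕ → ℝ}

theorem taylor_expand_pow (j : ℕ) : ∀ (u : Ω) (Q : Polynomial Ω),
    taylor u (expand Ω (p ^ j) Q) = expand Ω (p ^ j) (taylor (u ^ p ^ j) Q) := by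
  induction j with
  | zero =>
    intro u Q
    rw [pow_zero, expand_one, expand_one, pow_one]
  | succ j ih =>
    intro u Q
    rw [pow_succ', ← expand_expand, taylor_expand, ih, ← pow_mul, expand_expand]

/-- The jets at a finer level. -/
theorem coeff_lift (hr : ∀ n, x (n + 1) ^ p = x n) (n j F : ℕ) (P : Polynomial Ω) :
    (taylor (x (n + j)) (expand Ω (p ^ j) P)).coeff (p ^ j * F) = (taylor (x n) P).coeff F := by
  rw [taylor_expand_pow, root_pow_add hr, coeff_expand (pow_pos hp.out.pos j),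
    if_pos (dvd_mul_right _ _), Nat.mul_div_cancel_left _ (pow_pos hp.out.pos j)]

/-- The other jets vanish. -/
theorem coeff_lift_zero (hr : ∀ n, x (n + 1) ^ p = x n) (n j : ℕ) {F : ℕ} (hF : ¬ p ^ j ∣ F)
    (P : Polynomial Ω) : (taylor (x (n + j)) (expand Ω (p ^ j) P)).coeff F = 0 := by
  rw [taylor_expand_pow, root_pow_add hr, coeff_expand (pow_pos hp.out.pos j), if_neg hF]

theorem lt_lev {n j F : ℕ} (hF : F < p ^ n) : p ^ j * F < p ^ (n + j) := by
  rw [pow_add, mul_comm]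
  exact Nat.mul_lt_mul_of_pos_right hF (pow_pos hp.out.pos j)

omit [CharP Ω p] hp in
theorem NBX.lift_pow (h : NBX p v B x w) (n j F : ℕ) : w (n + j) (p ^ j * F) = w n F := by
  induction j with
  | zero => rw [pow_zero, one_mul, add_zero]
  | succ j ih => rw [pow_succ', mul_assoc, ← add_assoc, h.lift, ih]

/-- The jets are well defined. -/
theorem NBX.congr (h : NBX p v B x w) {n F : ℕ} (hF : F < p ^ n) {j j' : ℕ} {P Q : Polynomial Ω}
    (hP : P ∈ PI B) (hQ : Q ∈ PI B) (he : P.eval (x (n + j)) = Q.eval (x (n + j'))) :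
    (taylor (x (n + j)) P).coeff (p ^ j * F) = (taylor (x (n + j')) Q).coeff (p ^ j' * F) := by
  have h1 := coeff_lift h.root (n + j) j' (p ^ j * F) P
  have h2 := coeff_lift h.root (n + j') j (p ^ j' * F) Q
  have e1 : n + j' + j = n + j + j' := by omega
  have e2 : p ^ j' * (p ^ j * F) = p ^ j * (p ^ j' * F) := by ring
  rw [e1] at h2
  rw [← h1, ← h2, e2, ← sub_eq_zero, ← coeff_sub, ← map_sub]
  refine eq_zero_of_ge (v := v) fun b => ?_
  have h3 := h.nb (n + j + j') (expand Ω (p ^ j') P - expand Ω (p ^ j) Q)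
    (sub_mem (expand_mem_PI (pow_pos hp.out.pos _) hP) (expand_mem_PI (pow_pos hp.out.pos _) hQ))
    (p ^ j * (p ^ j' * F)) (by rw [← e1]; exact lt_lev (lt_lev hF))
    (b + w (n + j + j') (p ^ j * (p ^ j' * F))) (by
      rw [eval_sub, ax_lift h.root]
      have h4 := ax_lift h.root (n + j') j Q
      rw [e1] at h4
      rw [h4, he, sub_self]
      exact RVal.Ge.zero)
  exact h3.mono (by linarith)

end Jets

/-! ### The operators -/

/-- `D n F` is the operator of order `F / p ^ n` of `E`, of norm `≤ w n F`. -/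
structure ThX (p : ℕ) (v : RVal Ω) (B E : IntermediateField k Ω) (x : ℕ → Ω) (w : ℕ → ℕ → ℝ)
    (D : ℕ → ℕ → Module.End k E) : Prop where
  nbx : NBX p v B x w
  le : B ≤ E
  mem : ∀ n, x n ∈ E
  dense : DnsS v (AX B x) E
  ge : ∀ n, ∀ F < p ^ n, ∀ (y : E) (b : ℝ), v.Ge b (y : Ω) →
    v.Ge (b - w n F) ((D n F y : E) : Ω)
  ev : ∀ n, ∀ F < p ^ n, ∀ j, ∀ P ∈ PI B, ∀ y : E, (y : Ω) = P.eval (x (n + j)) →
    ((D n F y : E) : Ω) = (taylor (x (n + j)) P).coeff (p ^ j * F)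

theorem coeff_taylor_mem {P : Polynomial Ω} (hP : P ∈ PI E) {y : Ω} (hy : y ∈ E) (F : ℕ) :
    (taylor y P).coeff F ∈ E := by
  rw [taylor_coeff, hasseDeriv_apply, Polynomial.sum, eval_finsetSum]
  refine sum_mem fun i _ => ?_
  rw [eval_monomial]
  exact mul_mem (mul_mem (natCast_mem _ _) (hP i)) (pow_mem hy _)

/-- **Existence of the operators.** -/
theorem exists_thX (p : ℕ) [hp : Fact p.Prime] [CharP Ω p] [hcx : Fact (Ctx0 k v)]
    (hc : CompleteV v) {w : ℕ → ℕ → ℝ} (h : NBX p v B x w) (hE : Cld v E) (hBE : B ≤ E)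
    (hx : ∀ n, x n ∈ E) (hd : DnsS v (AX B x) E) :
    ∃ D : ℕ → ℕ → Module.End k E, ThX p v B E x w D := by
  classical
  have hr := h.root
  have key : ∀ n F, ∃ φ : Module.End k E, F < p ^ n → (∀ (y : E) (b : ℝ), v.Ge b (y : Ω) →
      v.Ge (b - w n F) ((φ y : E) : Ω)) ∧ ∀ j, ∀ P ∈ PI B, ∀ y : E, (y : Ω) = P.eval (x (n + j)) →
      ((φ y : E) : Ω) = (taylor (x (n + j)) P).coeff (p ^ j * F) := by
    intro n F
    by_cases hF : F < p ^ n
    swap
    · exact ⟨0, fun h => absurd h hF⟩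
    have hrep : ∀ y : AXs B hp.out.pos hr, ∃ (j : ℕ) (P : Polynomial Ω), P ∈ PI B ∧
        (y : Ω) = P.eval (x (n + j)) := by
      intro y
      obtain ⟨j, P, hP, -, -, h1, -⟩ := ax_common hp.out.pos hr y.2 y.2 n
      exact ⟨j, P, hP, h1⟩
    choose J R hRB hR using hrep
    have hval : ∀ (y : AXs B hp.out.pos hr) (j : ℕ) (P : Polynomial Ω), P ∈ PI B →
        (y : Ω) = P.eval (x (n + j)) →
        (taylor (x (n + J y)) (R y)).coeff (p ^ J y * F) =
          (taylor (x (n + j)) P).coeff (p ^ j * F) := fun y j P hP h1 =>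
      h.congr hF (hRB y) hP ((hR y).symm.trans h1)
    let f : AXs B hp.out.pos hr →ₗ[k] Ω :=
      { toFun := fun y => (taylor (x (n + J y)) (R y)).coeff (p ^ J y * F)
        map_add' := by
          intro y z
          obtain ⟨j, P, hP, Q, hQ, h1, h2⟩ := ax_common hp.out.pos hr y.2 z.2 n
          rw [hval y j P hP h1, hval z j Q hQ h2, hval (y + z) j (P + Q) (add_mem hP hQ) (by
            rw [eval_add, ← h1, ← h2]; rfl), map_add, coeff_add]
        map_smul' := by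
          intro a y
          rw [hval (a • y) (J y) (C (algebraMap k Ω a) * R y)
            (mul_mem (C_mem_PI (B.algebraMap_mem a)) (hRB y)) (by
              rw [eval_mul, eval_C, ← hR, ← Algebra.smul_def]; rfl), taylor_mul, taylor_C,
            coeff_C_mul, RingHom.id_apply, Algebra.smul_def] }
    obtain ⟨φ, h1, h2⟩ := exists_extW hE hc (AXs B hp.out.pos hr) hd f
      (fun a => coeff_taylor_mem (PI_mono hBE (hRB a)) (hx _) _) (w n F) (fun a b hb => by
        have h3 := h.nb (n + J a) (R a) (hRB a) (p ^ J a * F) (lt_lev hF) b (by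
          rw [← hR]
          exact hb)
        rwa [h.lift_pow] at h3)
    refine ⟨φ, fun _ => ⟨h1, fun j P hP y hy => ?_⟩⟩
    have hmem : (y : Ω) ∈ AXs B hp.out.pos hr := ⟨n + j, P, hP, hy⟩
    have h3 := h2 y hmem y.2
    rw [Subtype.coe_eta] at h3
    rw [h3]
    exact hval ⟨_, hmem⟩ j P hP hy
  choose D hD using key
  exact ⟨D, h, hBE, hx, hd, fun n F hF => (hD n F hF).1, fun n F hF => (hD n F hF).2⟩

/-! ### Uniform continuity -/

/-- uniform continuity -/
def UCt (v : RVal Ω) {E : IntermediateField k Ω} (φ : E → Ω) : Prop :=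
  ∀ b : ℝ, ∃ b' : ℝ, ∀ y a : E, v.Ge b' ((y : Ω) - a) → v.Ge b (φ y - φ a)

theorem UCt.eq {S : Set Ω} (hS : DnsS v S E) {φ ψ : E → Ω} (h₁ : UCt v φ) (h₂ : UCt v ψ)
    (h : ∀ a : E, (a : Ω) ∈ S → φ a = ψ a) : ∀ y, φ y = ψ y := by
  intro y
  refine eq_of_ge (v := v) fun b => ?_
  obtain ⟨b₁, hb₁⟩ := h₁ b
  obtain ⟨b₂, hb₂⟩ := h₂ b
  obtain ⟨a, ha, haE, h1⟩ := hS y y.2 (max b₁ b₂)
  have e : φ y - ψ y = (φ y - φ ⟨a, haE⟩) - (ψ y - ψ ⟨a, haE⟩) := by
    rw [h ⟨a, haE⟩ ha]; ring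
  rw [e]
  exact (hb₁ y ⟨a, haE⟩ (h1.mono (le_max_left _ _))).sub
    (hb₂ y ⟨a, haE⟩ (h1.mono (le_max_right _ _)))

theorem UCt.coe : UCt v (fun y : E => (y : Ω)) := fun b => ⟨b, fun _ _ h => h⟩

theorem UCt.zero : UCt v (fun _ : E => (0 : Ω)) := fun b => ⟨b, fun _ _ _ => by
  rw [sub_self]
  exact RVal.Ge.zero⟩

theorem UCt.add {φ ψ : E → Ω} (h₁ : UCt v φ) (h₂ : UCt v ψ) : UCt v (fun y => φ y + ψ y) := by
  intro b
  obtain ⟨b₁, hb₁⟩ := h₁ b
  obtain ⟨b₂, hb₂⟩ := h₂ b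
  refine ⟨max b₁ b₂, fun y a h => ?_⟩
  have e : φ y + ψ y - (φ a + ψ a) = (φ y - φ a) + (ψ y - ψ a) := by ring
  rw [e]
  exact (hb₁ y a (h.mono (le_max_left _ _))).add (hb₂ y a (h.mono (le_max_right _ _)))

theorem UCt.sum {ι : Type*} (s : Finset ι) {φ : ι → E → Ω} (h : ∀ i ∈ s, UCt v (φ i)) :
    UCt v (fun y => ∑ i ∈ s, φ i y) := by
  classical
  induction s using Finset.induction_on with
  | empty => simpa using UCt.zero (v := v) (E := E)
  | insert i s hi ih =>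
    simp only [Finset.sum_insert hi]
    exact (h i (Finset.mem_insert_self i s)).add
      (ih fun j hj => h j (Finset.mem_insert_of_mem hj))

theorem UCt.const_mul {φ : E → Ω} (h : UCt v φ) (c : Ω) : UCt v (fun y => c * φ y) := by
  intro b
  obtain ⟨B, hB⟩ := exists_mul_ge v c b
  obtain ⟨b', hb'⟩ := h B
  refine ⟨b', fun y a h1 => ?_⟩
  rw [← mul_sub]
  exact hB _ (hb' y a h1)

theorem UCt.comp {φ : E → Ω} (h : UCt v φ) {g : E → E} (hg : UCt v (fun y => (g y : Ω))) :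
    UCt v (fun y => φ (g y)) := by
  intro b
  obtain ⟨b', hb'⟩ := h b
  obtain ⟨b'', hb''⟩ := hg b'
  exact ⟨b'', fun y a h1 => hb' _ _ (hb'' y a h1)⟩

theorem UCt.pow (p : ℕ) [hp : Fact p.Prime] [CharP Ω p] {φ : E → Ω} (h : UCt v φ) :
    UCt v (fun y => φ y ^ p) := by
  intro b
  have hp0 : (0 : ℝ) < p := by exact_mod_cast hp.out.pos
  obtain ⟨b', hb'⟩ := h (b / p)
  refine ⟨b', fun y a h1 => ?_⟩
  rw [← sub_pow_char]
  have h2 := ge_pow (hb' y a h1) p
  rwa [mul_div_cancel₀ _ hp0.ne'] at h2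

/-! ### Binomial coefficients -/

section Bin

variable (p : ℕ) [hp : Fact p.Prime] [CharP Ω p]

theorem choose_pow_mul (l N K : ℕ) :
    (((p ^ l * N).choose (p ^ l * K) : ℕ) : Ω) = ((N.choose K : ℕ) : Ω) := by
  induction l with
  | zero => rw [pow_zero, one_mul, one_mul]
  | succ l ih =>
    rw [← ih, CharP.natCast_eq_natCast Ω p]
    have h1 := Choose.choose_modEq_choose_mod_mul_choose_div_nat (p := p) (n := p ^ (l + 1) * N)
      (k := p ^ (l + 1) * K)
    rw [pow_succ', mul_assoc, mul_assoc, Nat.mul_mod_right, Nat.mul_mod_right, Nat.choose_self,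
      one_mul, Nat.mul_div_cancel_left _ hp.out.pos, Nat.mul_div_cancel_left _ hp.out.pos] at h1
    rw [pow_succ', mul_assoc, mul_assoc]
    exact h1

theorem choose_eq_zero (n : ℕ) : ∀ {i j : ℕ}, i < p ^ n → j < p ^ n → p ^ n ≤ i + j →
    (((i + j).choose i : ℕ) : Ω) = 0 := by
  induction n with
  | zero =>
    intro i j hi hj hij
    rw [pow_zero] at *
    omega
  | succ n ih =>
    intro i j hi hj hij
    have h1 : (((i + j).choose i : ℕ) : Ω) =
        ((((i + j) % p).choose (i % p) * ((i + j) / p).choose (i / p) : ℕ) : Ω) := by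
      rw [CharP.natCast_eq_natCast Ω p]
      exact Choose.choose_modEq_choose_mod_mul_choose_div_nat
    rw [h1, Nat.cast_mul]
    rcases lt_or_ge (i % p + j % p) p with h2 | h2
    · have h3 : (i + j) / p = i / p + j / p := by
        rw [Nat.add_div hp.out.pos, if_neg (not_le.2 h2), add_zero]
      rw [h3, ih, mul_zero]
      · rw [Nat.div_lt_iff_lt_mul hp.out.pos, ← pow_succ]
        exact hi
      · rw [Nat.div_lt_iff_lt_mul hp.out.pos, ← pow_succ]
        exact hj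
      · rw [← h3, Nat.le_div_iff_mul_le hp.out.pos, ← pow_succ]
        exact hij
    · have h3 : (i + j) % p < i % p := by
        have h4 := Nat.mod_lt i hp.out.pos
        have h5 := Nat.mod_lt j hp.out.pos
        have h6 : (i + j) % p = i % p + j % p - p := by
          rw [Nat.add_mod, Nat.mod_eq_sub_mod h2, Nat.mod_eq_of_lt (by omega)]
        omega
      rw [Nat.choose_eq_zero_of_lt h3, Nat.cast_zero, zero_mul]

end Bin

theorem hasseDeriv_mem_PI {P : Polynomial Ω} (hP : P ∈ PI B) {i : ℕ} : hasseDeriv i P ∈ PI B := by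
  intro n
  rw [hasseDeriv_coeff]
  exact mul_mem (natCast_mem _ _) (hP _)

/-- The elements of `B(x n)` are polynomials in `x n`. -/
theorem exists_poly_adj {p : ℕ} [hp : Fact p.Prime] (hr : ∀ n, x (n + 1) ^ p = x n)
    (h0 : x 0 ∈ B) (n : ℕ) {y : Ω} (hy : y ∈ adj B (x n)) : ∃ P ∈ PI B, y = P.eval (x n) := by
  have h1 : IsAlgebraic B (x n) := by
    have h2 : x n ^ p ^ n = x 0 := by
      have := root_pow_add hr 0 n
      rwa [zero_add] at this
    have h3 : IsAlgebraic B (x n ^ p ^ n) := by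
      rw [h2]
      exact isAlgebraic_algebraMap (R := B) (⟨_, h0⟩ : B)
    exact IsAlgebraic.of_pow (pow_pos hp.out.pos n) h3
  have h2 : adj B (x n) ≤ (IntermediateField.adjoin B {x n}).restrictScalars k := by
    refine D2P.adj_le (fun b hb => ?_) (IntermediateField.subset_adjoin B _ rfl)
    exact (IntermediateField.adjoin B _).algebraMap_mem (⟨b, hb⟩ : B)
  have h3 : y ∈ IntermediateField.adjoin B {x n} := h2 hy
  have h4 : y ∈ Algebra.adjoin B {x n} := by
    rw [← IntermediateField.adjoin_toSubalgebra_of_isAlgebraic (by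
      rintro _ rfl
      exact h1)]
    exact h3
  obtain ⟨f, hf⟩ := Algebra.adjoin_singleton_eq_range_aeval B (x n) ▸ h4
  refine ⟨f.map (algebraMap B Ω), fun i => ?_, ?_⟩
  · rw [coeff_map]
    exact SetLike.coe_mem _
  · rw [eval_map_algebraMap]
    exact hf.symm

/-! ### The identities -/

namespace ThX

variable {p : ℕ} [hp : Fact p.Prime] [CharP Ω p] {w w' : ℕ → ℕ → ℝ}
  {D : ℕ → ℕ → Module.End k E} {D' : ℕ → ℕ → Module.End k E'}

omit [CharP Ω p] hp in
theorem near (h : ThX p v B E x w D) {n F : ℕ} (hF : F < p ^ n) {y a : E} {b : ℝ}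
    (hb : v.Ge b ((y : Ω) - a)) : v.Ge (b - w n F) (((D n F y : E) : Ω) - D n F a) := by
  have h1 := h.ge n F hF (y - a) b hb
  rw [map_sub] at h1
  exact h1

omit [CharP Ω p] hp in
theorem uct (h : ThX p v B E x w D) {n F : ℕ} (hF : F < p ^ n) :
    UCt v (fun y : E => ((D n F y : E) : Ω)) := fun b =>
  ⟨b + w n F, fun y a h1 => (h.near hF h1).mono (by linarith)⟩

omit [CharP Ω p] hp in
/-- the value at an element of `AX B x` -/
theorem ev0 (h : ThX p v B E x w D) {n F : ℕ} (hF : F < p ^ n) {P : Polynomial Ω}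
    (hP : P ∈ PI B) {y : E} (hy : (y : Ω) = P.eval (x n)) :
    ((D n F y : E) : Ω) = (taylor (x n) P).coeff F := by
  have h1 := h.ev n F hF 0 P hP y (by rw [add_zero]; exact hy)
  rwa [pow_zero, one_mul, add_zero] at h1

omit [CharP Ω p] in
/-- `D n F` at an element of `B[x m]`, any level -/
theorem rep (h : ThX p v B E x w D) (n : ℕ) {y : E} (hy : (y : Ω) ∈ AX B x) :
    ∃ j, ∃ P ∈ PI B, (y : Ω) = P.eval (x (n + j)) ∧ ∀ F < p ^ n,
      ((D n F y : E) : Ω) = (taylor (x (n + j)) P).coeff (p ^ j * F) := by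
  obtain ⟨j, P, hP, -, -, h1, -⟩ := ax_common hp.out.pos h.nbx.root hy hy n
  exact ⟨j, P, hP, h1, fun F hF => h.ev n F hF j P hP y h1⟩

omit [CharP Ω p] in
/-- `D n 0` is the identity. -/
theorem zero (h : ThX p v B E x w D) (n : ℕ) (y : E) : D n 0 y = y := by
  refine Subtype.ext (UCt.eq h.dense (h.uct (pow_pos hp.out.pos n)) UCt.coe (fun a ha => ?_) y)
  obtain ⟨j, P, hP, h1, h2⟩ := h.rep n ha
  rw [h2 0 (pow_pos hp.out.pos n), mul_zero, taylor_coeff_zero, ← h1]

omit [CharP Ω p] in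
/-- `B`-linearity -/
theorem lin (h : ThX p v B E x w D) {n F : ℕ} (hF : F < p ^ n) {c : E} (hc : (c : Ω) ∈ B) (y : E) :
    D n F (c * y) = c * D n F y := by
  refine Subtype.ext ?_
  have h1 : UCt v (fun y : E => ((D n F (c * y) : E) : Ω)) :=
    (h.uct hF).comp (g := fun y : E => c * y) (UCt.coe.const_mul (c : Ω))
  have h2 : UCt v (fun y : E => (c : Ω) * ((D n F y : E) : Ω)) := (h.uct hF).const_mul _
  refine UCt.eq h.dense h1 h2 (fun a ha => ?_) y
  obtain ⟨j, P, hP, h3, h4⟩ := h.rep n ha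
  rw [h4 F hF, h.ev n F hF j (C (c : Ω) * P) (mul_mem (C_mem_PI hc) hP) (c * a) (by
    rw [eval_mul, eval_C, ← h3]; rfl), taylor_mul, taylor_C, coeff_C_mul]

/-- The operators vanish on the elements of a lower level. -/
theorem van (h : ThX p v B E x w D) {n m F : ℕ} (hF : F < p ^ (n + m)) (hm : ¬ p ^ m ∣ F) {y : E}
    {P : Polynomial Ω} (hP : P ∈ PI B) (hy : (y : Ω) = P.eval (x n)) : D (n + m) F y = 0 := by
  refine Subtype.ext ?_
  rw [h.ev0 hF (expand_mem_PI (pow_pos hp.out.pos m) hP) (by rw [ax_lift h.nbx.root]; exact hy),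
    coeff_lift_zero h.nbx.root n m hm]
  rfl

/-- The operators vanish on `B`. -/
theorem base (h : ThX p v B E x w D) {n F : ℕ} (hF : F < p ^ n) (h0 : F ≠ 0) {c : E}
    (hc : (c : Ω) ∈ B) : D n F c = 0 := by
  have h1 := h.van (n := 0) (m := n) (F := F) (by rwa [zero_add]) (fun h1 => ?_) (C_mem_PI hc)
    (y := c) (by rw [eval_C])
  · rwa [zero_add] at h1
  · exact absurd (Nat.le_of_dvd (Nat.pos_of_ne_zero h0) h1) (not_le.2 hF)

/-- Elements near to `B`. -/
theorem near_base (h : ThX p v B E x w D) {n F : ℕ} (hF : F < p ^ n) (h0 : F ≠ 0) {y : E} {c : Ω}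
    (hc : c ∈ B) {b : ℝ} (hb : v.Ge b ((y : Ω) - c)) : v.Ge (b - w n F) ((D n F y : E) : Ω) := by
  have h1 := h.near hF (a := ⟨c, h.le hc⟩) hb
  rw [h.base hF h0 (c := ⟨c, h.le hc⟩) hc] at h1
  simpa using h1

omit [CharP Ω p] in
/-- compatibility -/
theorem lift (h : ThX p v B E x w D) {n F : ℕ} (hF : F < p ^ n) (j : ℕ) :
    D (n + j) (p ^ j * F) = D n F := by
  refine LinearMap.ext fun y => Subtype.ext ?_
  refine UCt.eq h.dense (h.uct (lt_lev hF)) (h.uct hF) (fun a ha => ?_) y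
  obtain ⟨i, P, hP, h1, h2⟩ := h.rep (n + j) ha
  rw [h2 _ (lt_lev hF), h.ev n F hF (j + i) P hP a (by rw [← add_assoc]; exact h1), ← mul_assoc,
    ← pow_add, add_comm i j, ← add_assoc]

omit [CharP Ω p] in
/-- The operators of two bases agree. -/
theorem ext (h : ThX p v B E x w D) (h' : ThX p v B' E' x w' D') (hB : B ≤ B') (hE : E ≤ E')
    {n F : ℕ} (hF : F < p ^ n) (y : E) :
    ((D' n F ⟨y, hE y.2⟩ : E') : Ω) = ((D n F y : E) : Ω) := by
  have h1 : UCt v (fun y : E => ((D' n F ⟨y, hE y.2⟩ : E') : Ω)) := by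
    intro b
    obtain ⟨b', hb'⟩ := h'.uct hF b
    exact ⟨b', fun y a hya => hb' ⟨y, hE y.2⟩ ⟨a, hE a.2⟩ hya⟩
  refine UCt.eq h.dense h1 (h.uct hF) (fun a ha => ?_) y
  obtain ⟨j, P, hP, h2, h3⟩ := h.rep n ha
  rw [h3 F hF, h'.ev n F hF j P (PI_mono hB hP) ⟨a, hE a.2⟩ h2]

/-- Leibniz, if one of the factors is of level `n`. -/
theorem leib (h : ThX p v B E x w D) {n F : ℕ} (hF : F < p ^ n) {P : Polynomial Ω}
    (hP : P ∈ PI B) {y : E} (hy : (y : Ω) = P.eval (x n)) (z : E) :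
    D n F (y * z) = ∑ ij ∈ Finset.HasAntidiagonal.antidiagonal F, D n ij.1 y * D n ij.2 z := by
  classical
  have hle : ∀ ij ∈ Finset.HasAntidiagonal.antidiagonal F, ij.1 < p ^ n ∧ ij.2 < p ^ n := by
    intro ij hij
    rw [Finset.HasAntidiagonal.mem_antidiagonal] at hij
    omega
  have h1 : UCt v (fun z : E => ((D n F (y * z) : E) : Ω)) :=
    (h.uct hF).comp (g := fun z : E => y * z) (UCt.coe.const_mul (y : Ω))
  have h2 : UCt v (fun z : E => ∑ ij ∈ Finset.HasAntidiagonal.antidiagonal F,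
      ((D n ij.1 y : E) : Ω) * ((D n ij.2 z : E) : Ω)) :=
    UCt.sum _ fun ij hij => (h.uct (hle ij hij).2).const_mul _
  refine Subtype.ext ?_
  push_cast
  refine UCt.eq h.dense h1 h2 (fun a ha => ?_) z
  obtain ⟨j, Q, hQ, h3, h4⟩ := h.rep n ha
  have hPl : expand Ω (p ^ j) P ∈ PI B := expand_mem_PI (pow_pos hp.out.pos j) hP
  rw [h.ev n F hF j (expand Ω (p ^ j) P * Q) (mul_mem hPl hQ) (y * a) (by
    rw [eval_mul, ax_lift h.nbx.root, ← h3, ← hy]; rfl), taylor_mul, coeff_mul]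
  have h5 : ∀ ij ∈ Finset.HasAntidiagonal.antidiagonal F, ((D n ij.1 y : E) : Ω) * ((D n ij.2 a : E) : Ω) =
      (taylor (x (n + j)) (expand Ω (p ^ j) P)).coeff (p ^ j * ij.1) *
        (taylor (x (n + j)) Q).coeff (p ^ j * ij.2) := by
    intro ij hij
    rw [h4 _ (hle ij hij).2, h.ev0 (hle ij hij).1 hP hy, coeff_lift h.nbx.root]
  rw [Finset.sum_congr rfl h5]
  symm
  have hpj : 0 < p ^ j := pow_pos hp.out.pos j
  rw [← Finset.sum_image (s := Finset.HasAntidiagonal.antidiagonal F)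
    (g := fun ij : ℕ × ℕ => (p ^ j * ij.1, p ^ j * ij.2))
    (f := fun ij => (taylor (x (n + j)) (expand Ω (p ^ j) P)).coeff ij.1 *
      (taylor (x (n + j)) Q).coeff ij.2) (by
      rintro ⟨a, b⟩ _ ⟨a', b'⟩ _ hab
      simp only [Prod.mk.injEq] at hab
      exact Prod.ext (Nat.eq_of_mul_eq_mul_left hpj hab.1) (Nat.eq_of_mul_eq_mul_left hpj hab.2))]
  refine Finset.sum_subset ?_ ?_
  · rintro ij hij
    obtain ⟨⟨a, b⟩, hab, rfl⟩ := Finset.mem_image.1 hij
    rw [Finset.HasAntidiagonal.mem_antidiagonal] at hab ⊢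
    simp only at hab ⊢
    rw [← mul_add, hab]
  · rintro ⟨a, b⟩ hab hno
    rw [Finset.HasAntidiagonal.mem_antidiagonal] at hab
    simp only at hab
    rw [coeff_lift_zero h.nbx.root, zero_mul]
    rintro ⟨a', rfl⟩
    refine hno (Finset.mem_image.2 ⟨(a', F - a'), ?_, ?_⟩)
    · rw [Finset.HasAntidiagonal.mem_antidiagonal]
      simp only
      have h6 : a' ≤ F := by
        by_contra h7
        have h8 : p ^ j * F < p ^ j * a' := Nat.mul_lt_mul_of_pos_left (not_le.1 h7) hpj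
        omega
      omega
    · refine Prod.ext rfl ?_
      simp only
      rw [Nat.mul_sub]
      omega

/-- Leibniz, if one of the factors is in `B(x n)`. -/
theorem leib' (h : ThX p v B E x w D) (h0 : x 0 ∈ B) {n F : ℕ} (hF : F < p ^ n) {y : E}
    (hy : (y : Ω) ∈ adj B (x n)) (z : E) :
    D n F (y * z) = ∑ ij ∈ Finset.HasAntidiagonal.antidiagonal F, D n ij.1 y * D n ij.2 z := by
  obtain ⟨P, hP, h1⟩ := exists_poly_adj h.nbx.root h0 n hy
  exact h.leib hF hP h1 z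

/-- composition -/
theorem comp (h : ThX p v B E x w D) {n i j : ℕ} (hi : i < p ^ n) (hj : j < p ^ n)
    (hij : i + j < p ^ n) (y : E) : D n i (D n j y) = (((i + j).choose i : ℕ) : k) • D n (i + j) y := by
  have h1 : UCt v (fun y : E => ((D n i (D n j y) : E) : Ω)) :=
    (h.uct hi).comp (g := fun y : E => D n j y) (h.uct hj)
  have h2 : UCt v (fun y : E => (((i + j).choose i : ℕ) : Ω) * ((D n (i + j) y : E) : Ω)) :=
    (h.uct hij).const_mul _
  refine Subtype.ext ?_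
  have e : (((((i + j).choose i : ℕ) : k) • D n (i + j) y : E) : Ω) =
      (((i + j).choose i : ℕ) : Ω) * ((D n (i + j) y : E) : Ω) := by
    rw [IntermediateField.coe_smul, Algebra.smul_def, map_natCast]
  rw [e]
  refine UCt.eq h.dense h1 h2 (fun a ha => ?_) y
  obtain ⟨l, P, hP, h3, h4⟩ := h.rep n ha
  rw [h4 _ hij, h.ev n i hi l (hasseDeriv (p ^ l * j) P) (hasseDeriv_mem_PI hP) (D n j a) (by
    rw [h4 _ hj, taylor_coeff]), taylor_coeff, taylor_coeff, ← LinearMap.comp_apply,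
    hasseDeriv_comp, LinearMap.smul_apply, eval_smul, nsmul_eq_mul, ← mul_add,
    choose_pow_mul p l]

/-- composition, order at least one -/
theorem comp_zero (h : ThX p v B E x w D) {n i j : ℕ} (hi : i < p ^ n) (hj : j < p ^ n)
    (hij : p ^ n ≤ i + j) (y : E) : D n i (D n j y) = 0 := by
  have h1 : UCt v (fun y : E => ((D n i (D n j y) : E) : Ω)) :=
    (h.uct hi).comp (g := fun y : E => D n j y) (h.uct hj)
  refine Subtype.ext ?_
  refine UCt.eq h.dense h1 UCt.zero (fun a ha => ?_) y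
  obtain ⟨l, P, hP, h3, h4⟩ := h.rep n ha
  rw [h.ev n i hi l (hasseDeriv (p ^ l * j) P) (hasseDeriv_mem_PI hP) (D n j a) (by
    rw [h4 _ hj, taylor_coeff]), taylor_coeff, ← LinearMap.comp_apply,
    hasseDeriv_comp, LinearMap.smul_apply, eval_smul, nsmul_eq_mul, ← mul_add,
    choose_pow_mul p l, choose_eq_zero p n hi hj hij, zero_mul]

/-- The operators preserve the closures over the subfields of `B`. -/
theorem stab [Fact (Ctx0 k v)] (h : ThX p v B E x w D) (hc : CompleteV v)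
    {B₀ E₀ : IntermediateField k Ω} (hE₀ : Cld v E₀) (hB : B₀ ≤ B) (hBE : B₀ ≤ E₀) (hE : E₀ ≤ E)
    (hx : ∀ n, x n ∈ E₀) (hd : DnsS v (AX B₀ x) E₀) {n F : ℕ} (hF : F < p ^ n) {y : E}
    (hy : (y : Ω) ∈ E₀) : ((D n F y : E) : Ω) ∈ E₀ := by
  obtain ⟨D₀, h₀⟩ := exists_thX p hc (h.nbx.le hB) hE₀ hBE hx hd
  have h1 := h₀.ext h hB hE hF ⟨y, hy⟩
  have e : (⟨((⟨y, hy⟩ : E₀) : Ω), hE hy⟩ : E) = y := rfl
  rw [e] at h1
  rw [h1]
  exact (D₀ n F ⟨y, hy⟩).2

/-- The norm on a subfield. -/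
theorem ge_sub [Fact (Ctx0 k v)] (h : ThX p v B E x w D) (hc : CompleteV v)
    {B₀ E₀ : IntermediateField k Ω} {w₀ : ℕ → ℕ → ℝ} (h₀ : NBX p v B₀ x w₀) (hE₀ : Cld v E₀)
    (hB : B₀ ≤ B) (hBE : B₀ ≤ E₀) (hE : E₀ ≤ E) (hx : ∀ n, x n ∈ E₀) (hd : DnsS v (AX B₀ x) E₀)
    {n F : ℕ} (hF : F < p ^ n) {y : E} (hy : (y : Ω) ∈ E₀) {b : ℝ} (hb : v.Ge b (y : Ω)) :
    v.Ge (b - w₀ n F) ((D n F y : E) : Ω) := by
  obtain ⟨D₀, h₀⟩ := exists_thX p hc h₀ hE₀ hBE hx hd
  have h1 := h₀.ext h hB hE hF ⟨y, hy⟩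
  have e : (⟨((⟨y, hy⟩ : E₀) : Ω), hE hy⟩ : E) = y := rfl
  rw [e] at h1
  rw [h1]
  exact h₀.ge n F hF ⟨y, hy⟩ b hb

/-- Frobenius -/
theorem frob (h : ThX p v B E x w D) {n F : ℕ} (hF : F < p ^ n) (y : E) :
    D n F (y ^ p) = (D (n + 1) F y) ^ p := by
  have hF' : F < p ^ (n + 1) := hF.trans_le (Nat.pow_le_pow_right hp.out.pos (Nat.le_succ n))
  have h0 : UCt v (fun y : E => ((y ^ p : E) : Ω)) := by
    have := (UCt.coe (v := v) (E := E)).pow p
    simpa using this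
  have h1 : UCt v (fun y : E => ((D n F (y ^ p) : E) : Ω)) :=
    (h.uct hF).comp (g := fun y : E => y ^ p) h0
  have h2 : UCt v (fun y : E => ((D (n + 1) F y : E) : Ω) ^ p) := (h.uct hF').pow p
  refine Subtype.ext ?_
  push_cast
  refine UCt.eq h.dense h1 h2 (fun a ha => ?_) y
  obtain ⟨j, P, hP, h3, h4⟩ := h.rep (n + 1) ha
  have e1 : n + 1 + j = n + j + 1 := by omega
  have h5 : P.map (frobenius Ω p) ∈ PI B := fun i => by
    rw [coeff_map, frobenius_def]
    exact pow_mem (hP i) p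
  have h6 : x (n + j) = frobenius Ω p (x (n + 1 + j)) := by
    rw [frobenius_def, e1, h.nbx.root]
  rw [h4 F hF', h.ev n F hF j (P.map (frobenius Ω p)) h5 (a ^ p) (by
    rw [h6, eval_map_apply, ← h3, frobenius_def]; rfl), h6, ← map_taylor, coeff_map,
    frobenius_def]

end ThX

end Pool.Agent.TWC
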