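import Pool.Agent.Lib.TWC.JD
import Pool.Agent.Lib.TWC.BaseX
import Pool.Agent.Lib.TWC.EW
import Pool.Agent.Lib.TWC.ThetaX
import Pool.Agent.Lib.TWM.C2
import Pool.Agent.Lib.TWM.D1

/-!
# TANK W: strict in all orders, or no drops

`z` is at distance `≤ s` of the elements which are algebraic over `F`; `F(z ^ p)` is at distance
`≤ s` of `z`, too (`pstep_far`).

* `sd_or_exact`: the jet of order one at `z` is strict on `F[z]`, or `z` is a limit of `F(z ^ p)` up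
  to `s` (`Exact`);
* `near_exact`, `Dst.exact`: in the second case every element which is algebraic over `F` has the same
  distance to `F(z)` and to `F(z ^ p)`;
* `Dst.next`: so for `F' = F ^ (1 / p)`, `b' ^ p = b`: `dist(b', F'(z)) = dist(b, F(z)) / p`;
* `jd_or_const`: for `F (i + 1) = (F i) ^ (1 / p)`, approaching `z` up to `s`: either all the jets
  are strict on all the `F i [z]`, or `p ^ j dist(b j, F (j - 1)(z))` is constant for large `j`.
-/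

set_option autoImplicit false

open Polynomial

namespace Pool.Agent.TWC

open Pool.Agent.H15JM (RVal)
open Pool.Agent.LU1 (VPos adj)
open Pool.Agent.D2 (Ctx0)
open Pool.Agent.D2P (hen clI mem_clI rootF mem_rootF)
open Pool.Agent.TWM Pool.Agent.TWM.C

universe u

variable {k Ω : Type u} [Field k] [Field Ω] [Algebra k Ω] {v : RVal Ω}
  {F M N R : IntermediateField k Ω} {z b : Ω} {s c : ℝ}

section

variable (p : ℕ) [hp : Fact p.Prime]

/-- `z` is a limit of `F(z ^ p)` up to `s`. -/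
def Exact (v : RVal Ω) (F : IntermediateField k Ω) (z : Ω) (s : ℝ) : Prop :=
  Lim v (cadj v F (z ^ p)) s z

theorem Exact.mono (h : Exact p v F z s) (hF : F ≤ N) : Exact p v N z s := fun ε hε => by
  obtain ⟨a, ha, h1⟩ := h ε hε
  exact ⟨a, cadj_mono hF _ ha, h1⟩

variable [CharP k p] [CharP Ω p]

omit [CharP k p] in
/-- `F(z)` is closed over the closed field `F(z ^ p)`. -/
theorem cadj_eq_adj (hc : CompleteV v) (F : IntermediateField k Ω) (z : Ω) :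
    cadj v F z = adj (cadj v F (z ^ p)) z := by
  refine le_antisymm (cadj_le (cld_adj hc (cld_cadj _ _ _)
    (isAlgebraic_of_pow_mem p (self_mem_cadj _ _ _))) ((le_cadj _ _ _).trans
      (D2P.mem_adj_self _ _).2) (D2P.mem_adj_self _ _).1) (D2P.adj_le ?_ (self_mem_cadj _ _ _))
  exact cadj_le (cld_cadj _ _ _) (le_cadj _ _ _) (pow_mem (self_mem_cadj _ _ _) p)

variable [IsAlgClosed Ω]

/-- If `z` is a limit of `M` up to `s`, and at distance `≤ s` of `R`, then `M` is as near to the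
elements of `R` as `M(z)`. -/
theorem near_exact (h0 : Ctx0 k v) (hs : PStep p v R z s) (hMR : M ≤ R) (hz : z ^ p ∈ M)
    (hl : Lim v M s z) (hb : b ∈ R) {g : Ω} (hg : g ∈ adj M z) {r : ℝ} (hr : v.Ge r (b - g))
    {ε : ℝ} (hε : 0 < ε) : ∃ g' ∈ M, v.Ge (r - ε) (b - g') := by
  have hp0 : (0 : ℝ) < p := by exact_mod_cast hp.out.pos
  obtain ⟨h, hh, h1⟩ := hl (ε / p) (by positivity)
  obtain ⟨P, hP, hdeg, rfl⟩ := exists_rep p hz hg
  refine ⟨P.eval h, eval_mem hP hh, ?_⟩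
  have hgR : P.eval z ∈ adj R z := eval_mem_adj (PI_mono hMR hP)
  have hbR : b ∈ adj R z := (D2P.mem_adj_self R z).2 hb
  have h2 := prj_ge p h0 hs (t := ε / p) (by positivity) h1 (sub_mem hbR hgR) hr
  rw [prj_sub p h0 hs h hbR hgR, prj_M p h0 hs h hb, prj_poly p h0 hs h (PI_mono hMR hP) hdeg] at h2
  rwa [mul_div_cancel₀ _ hp0.ne'] at h2

theorem Lim.exact (h0 : Ctx0 k v) (hs : PStep p v R z s) (hMR : M ≤ R) (hz : z ^ p ∈ M)
    (hl : Lim v M s z) (hb : b ∈ R) (h : Lim v (adj M z) c b) : Lim v M c b := by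
  intro ε hε
  obtain ⟨g, hg, h1⟩ := h (ε / 2) (by positivity)
  obtain ⟨g', hg', h2⟩ := near_exact p h0 hs hMR hz hl hb hg h1 (ε := ε / 2) (by positivity)
  exact ⟨g', hg', h2.mono (by linarith)⟩

omit [CharP k p] in
/-- `z` is at distance `≤ s` of the closure of `F(z ^ p)`. -/
theorem pstep_far (hfar : ∀ θ : Ω, IsAlgebraic F θ → z ≠ θ ∧ v (z - θ) ≤ s) :
    PStep p v (cadj v F (z ^ p)) z s where
  cld := cld_cadj _ _ _
  pw := self_mem_cadj _ _ _
  far := by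
    rintro ⟨a, ha, h1⟩
    rw [cadj, mem_clI] at ha
    obtain ⟨a', ha', h2⟩ := ha (s + 1)
    obtain ⟨h3, h4⟩ := dist_le_adj p hfar ha'
    have h5 : Gt v s (z - a') := by
      rw [show z - a' = (z - a) + (a - a') by ring]
      exact h1.add (Gt.of_ge h2 (by linarith))
    have h6 := h5 (sub_ne_zero.2 h3)
    linarith

/-- The jet of order one is strict, or `z` is a limit of `F(z ^ p)` up to `s`. -/
theorem sd_or_exact (h0 : Ctx0 k v) (hfar : ∀ θ : Ω, IsAlgebraic F θ → z ≠ θ ∧ v (z - θ) ≤ s) :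
    Sd v F z 1 s ∨ Exact p v F z s := by
  have hs := pstep_far p hfar
  obtain ⟨s', hs'⟩ := Dst.exists hs.cld hs.not_mem
  have h1 : s' ≤ s := by
    by_contra h
    push Not at h
    obtain ⟨a, ha, h2⟩ := hs'.near ((s' - s) / 2) (by linarith)
    exact hs.far ⟨a, ha, Gt.of_ge h2 (by linarith)⟩
  rcases h1.lt_or_eq with h2 | h2
  · left
    have hs2 : PStep p v (cadj v F (z ^ p)) z s' := ⟨hs.cld, hs.pw, hs'.far⟩
    refine ⟨s - s', by linarith, fun f hf r hr => ?_⟩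
    have hf' : f ∈ PI (cadj v F (z ^ p)) := PI_mono (le_cadj _ _ _) hf
    have h3 := der_ge p h0 hs2 (eval_mem_adj hf') hr
    rw [der_poly p h0 hs2 hf'] at h3
    rw [taylor_coeff_one]
    exact h3.mono (by linarith)
  · right
    rw [← h2]
    exact hs'.near

/-- The algebraic elements have the same distance to `F(z)` and to `F(z ^ p)`. -/
theorem Dst.exact (h0 : Ctx0 k v) (hc : CompleteV v)
    (hfar : ∀ θ : Ω, IsAlgebraic F θ → z ≠ θ ∧ v (z - θ) ≤ s) (hl : Exact p v F z s)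
    (hb : IsAlgebraic F b) (h : Dst v (cadj v F z) b c) : Dst v (cadj v F (z ^ p)) b c where
  far := by
    rintro ⟨a, ha, h1⟩
    refine h.far ⟨a, ?_, h1⟩
    rw [cadj_eq_adj p hc F z]
    exact (D2P.mem_adj_self _ _).2 ha
  near := by
    have hs : PStep p v (cadj v (TWM.algc F) (z ^ p)) z s :=
      pstep_far p fun θ hθ => hfar θ (isAlgebraic_of_algc hθ)
    refine Lim.exact p h0 hs (cadj_mono (le_algc F) _) (self_mem_cadj _ _ _) hl
      (le_cadj _ _ _ (mem_algc.2 hb)) ?_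
    rw [← cadj_eq_adj p hc F z]
    exact h.near

omit [CharP k p] in
/-- Roots. -/
theorem Dst.rootF {b' : Ω} (hb : b' ^ p = b) (h : Dst v M b c) :
    Dst v (D2P.rootF p 1 M) b' (c / p) where
  far := by
    rintro ⟨a, ha, h1⟩
    have hp0 : (0 : ℝ) < p := by exact_mod_cast hp.out.pos
    refine h.far ⟨a ^ p, (mem_rootF1 p).1 ha, ?_⟩
    have h2 := gt_pow (p := p) h1
    rw [mul_div_cancel₀ _ hp0.ne', sub_pow_p, hb] at h2
    exact h2
  near := by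
    intro ε hε
    have hp0 : (0 : ℝ) < p := by exact_mod_cast hp.out.pos
    obtain ⟨a, ha, h1⟩ := h.near (p * ε) (by positivity)
    obtain ⟨a', rfl⟩ := IsAlgClosed.exists_pow_nat_eq a hp.out.pos
    refine ⟨a', (mem_rootF1 p).2 ha, ge_of_pow (p := p) ?_⟩
    rw [sub_pow_p, hb]
    refine h1.mono ?_
    rw [mul_sub, mul_div_cancel₀ _ hp0.ne']

omit [CharP k p] [IsAlgClosed Ω] in
theorem eq_rootF1 (hR : ∀ a ∈ F, ∃ b ∈ N, b ^ p = a) (hP : ∀ a ∈ N, a ^ p ∈ F) :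
    N = D2P.rootF p 1 F := by
  ext a
  rw [mem_rootF1 p]
  refine ⟨hP a, fun ha => ?_⟩
  obtain ⟨b, hb, h1⟩ := hR _ ha
  have h2 : b = a := frobenius_inj Ω p (by simpa [frobenius_def] using h1)
  rwa [← h2]

/-- `dist(b ^ (1 / p), F ^ (1 / p)(z)) = dist(b, F(z)) / p` -/
theorem Dst.next (h0 : Ctx0 k v) (hc : CompleteV v)
    (hfar : ∀ θ : Ω, IsAlgebraic F θ → z ≠ θ ∧ v (z - θ) ≤ s) (hl : Exact p v F z s)
    (hR : ∀ a ∈ F, ∃ b ∈ N, b ^ p = a) (hP : ∀ a ∈ N, a ^ p ∈ F) {b' : Ω} (hb' : b' ^ p = b)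
    (hb : IsAlgebraic F b) (h : Dst v (cadj v F z) b c) : Dst v (cadj v N z) b' (c / p) := by
  rw [eq_rootF1 p hR hP, ← rootF_cadj]
  exact (Dst.exact p h0 hc hfar hl hb h).rootF p hb'

/-- **Strict in all orders, or no drops.** -/
theorem jd_or_exact (h0 : Ctx0 k v) {N : ℕ → IntermediateField k Ω}
    (hR : ∀ i, ∀ a ∈ N i, ∃ b ∈ N (i + 1), b ^ p = a)
    (hfar : ∀ i, ∀ θ : Ω, IsAlgebraic (N i) θ → z ≠ θ ∧ v (z - θ) ≤ s)
    (hlim : ∀ ε : ℝ, 0 < ε → ∃ i, ∃ a ∈ N i, v.Ge (s - ε) (z - a)) :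
    (∀ i l, 1 ≤ l → Sd v (N i) z l (l * s)) ∨ ∃ i, Exact p v (N i) z s := by
  by_cases h : ∀ i, Sd v (N i) z 1 s
  · exact Or.inl fun i l hl => jd_root p h0 hR hfar hlim h i hl
  · push Not at h
    obtain ⟨i, hi⟩ := h
    exact Or.inr ⟨i, (sd_or_exact p h0 (hfar i)).resolve_left hi⟩

/-- **No drops after an exact level.** -/
theorem Exact.const (h0 : Ctx0 k v) (hc : CompleteV v) {N : ℕ → IntermediateField k Ω}
    (hR : ∀ i, ∀ a ∈ N i, ∃ b ∈ N (i + 1), b ^ p = a) (hP : ∀ i, ∀ a ∈ N (i + 1), a ^ p ∈ N i)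
    (hfar : ∀ i, ∀ θ : Ω, IsAlgebraic (N i) θ → z ≠ θ ∧ v (z - θ) ≤ s) {i : ℕ}
    (hl : Exact p v (N i) z s) {x : ℕ → Ω} (hx : ∀ n, x (n + 1) ^ p = x n)
    (hx0 : ∀ n, IsAlgebraic (N n) (x (n + 1))) {r : ℝ}
    (h : Dst v (cadj v (N i) z) (x (i + 1)) (r / p ^ (i + 1))) {j : ℕ} (hj : i ≤ j) :
    Dst v (cadj v (N j) z) (x (j + 1)) (r / p ^ (j + 1)) := by
  have hmono : Monotone N := monotone_nat_of_le_succ fun i a ha => by
    obtain ⟨b, hb, rfl⟩ := hR i a ha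
    exact pow_mem hb p
  induction j, hj using Nat.le_induction with
  | base => exact h
  | succ j hj ih =>
    have h1 := Dst.next p h0 hc (hfar j) (hl.mono p (hmono hj)) (hR j) (hP j) (hx (j + 1)) (hx0 j) ih
    rwa [div_div, ← pow_succ] at h1

/-- **Strict in all orders, or no drops.** -/
theorem jd_or_const (h0 : Ctx0 k v) (hc : CompleteV v) {N : ℕ → IntermediateField k Ω}
    (hR : ∀ i, ∀ a ∈ N i, ∃ b ∈ N (i + 1), b ^ p = a) (hP : ∀ i, ∀ a ∈ N (i + 1), a ^ p ∈ N i)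
    (hfar : ∀ i, ∀ θ : Ω, IsAlgebraic (N i) θ → z ≠ θ ∧ v (z - θ) ≤ s)
    (hlim : ∀ ε : ℝ, 0 < ε → ∃ i, ∃ a ∈ N i, v.Ge (s - ε) (z - a)) {x : ℕ → Ω}
    (hx : ∀ n, x (n + 1) ^ p = x n) (hx0 : ∀ n, x n ∈ N n)
    (hx1 : ∀ n, x (n + 1) ∉ cadj v (N n) z) :
    (∀ i l, 1 ≤ l → Sd v (N i) z l (l * s)) ∨ ∃ i r, Exact p v (N i) z s ∧
      ∀ j, i ≤ j → Dst v (cadj v (N j) z) (x (j + 1)) (r / p ^ (j + 1)) := by
  refine (jd_or_exact p h0 hR hfar hlim).imp_right ?_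
  rintro ⟨i, hi⟩
  have hp0 : (0 : ℝ) < (p : ℝ) ^ (i + 1) := pow_pos (by exact_mod_cast hp.out.pos) _
  obtain ⟨c, hc1⟩ := Dst.exists (cld_cadj _ _ _) (hx1 i)
  refine ⟨i, p ^ (i + 1) * c, hi, fun j hj => ?_⟩
  refine Exact.const p h0 hc hR hP hfar hi hx (fun n => ?_) ?_ hj
  · exact isAlgebraic_of_pow_mem p (by rw [hx]; exact hx0 n)
  · rwa [mul_div_cancel_left₀ _ hp0.ne']

/-! ### The fields `P<x i>` -/

omit [CharP k p] [IsAlgClosed Ω] in
/-- The elements of `EW v P x` are limits of the `P(x n)`. -/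
theorem EW.near_adj {P : IntermediateField k Ω} {x : ℕ → Ω} (hx : ∀ n, x (n + 1) ^ p = x n)
    {a : Ω} (ha : a ∈ EW v P x) (r : ℝ) : ∃ n, ∃ g ∈ adj P (x n), v.Ge r (a - g) := by
  obtain ⟨g, hg, h1⟩ := mem_clI.1 ha r
  have h2 : P ⊔ IntermediateField.adjoin k (Set.range x) ≤
      adj P (x 0) ⊔ IntermediateField.adjoin k (Set.range x) :=
    sup_le_sup_right (D2P.mem_adj_self P (x 0)).2 _
  obtain ⟨n, Q, hQ, rfl⟩ := AX.field hx hp.out.pos (D2P.mem_adj_self P (x 0)).1 (h2 hg)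
  refine ⟨n, Q.eval (x n), ?_, h1⟩
  have h3 : adj P (x 0) ≤ adj P (x n) := by
    refine D2P.adj_le (D2P.mem_adj_self _ _).2 ?_
    have h4 := root_pow_add hx 0 n
    rw [zero_add] at h4
    rw [← h4]
    exact pow_mem (D2P.mem_adj_self _ _).1 _
  exact eval_mem (PI_mono h3 hQ) (D2P.mem_adj_self _ _).1

/-- `P<x i> ^ (1 / p) = P<x (i + 1)>` for a perfect field `P`. -/
theorem rootF_cadj_perf {P : IntermediateField k Ω} (hP : ∀ a ∈ P, ∃ b ∈ P, b ^ p = a) {x : ℕ → Ω}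
    (hx : ∀ n, x (n + 1) ^ p = x n) (i : ℕ) :
    D2P.rootF p 1 (cadj v P (x i)) = cadj v P (x (i + 1)) := by
  have h1 : P = D2P.rootF p 1 P := eq_rootF1 p hP fun a ha => pow_mem ha p
  rw [← hx i, rootF_cadj, ← h1]

/-- **Strict in all orders, or no drops**, for the fields `P<x i>`, `P` perfect. -/
theorem jd_or_const_ew (h0 : Ctx0 k v) (hc : CompleteV v) {P : IntermediateField k Ω}
    (hP : ∀ a ∈ P, ∃ b ∈ P, b ^ p = a) {x : ℕ → Ω} (hx : ∀ n, x (n + 1) ^ p = x n)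
    (hz : TL v (EW v P x) z s) (hx1 : ∀ n, x (n + 1) ∉ cadj v (cadj v P (x n)) z) :
    (∀ i l, 1 ≤ l → Sd v (cadj v P (x i)) z l (l * s)) ∨
      ∃ i r, Exact p v (cadj v P (x i)) z s ∧
        ∀ j, i ≤ j → Dst v (cadj v (cadj v P (x j)) z) (x (j + 1)) (r / p ^ (j + 1)) := by
  have hr := rootF_cadj_perf (v := v) p hP hx
  have hle : ∀ i, cadj v P (x i) ≤ EW v P x := fun i => EW.cadj_le i
  refine jd_or_const p h0 hc (N := fun i => cadj v P (x i)) (fun i a ha => ?_) (fun i a ha => ?_)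
    (fun i θ hθ => ?_) (fun ε hε => ?_) hx (fun n => self_mem_cadj _ _ _) hx1
  · obtain ⟨b, rfl⟩ := IsAlgClosed.exists_pow_nat_eq a hp.out.pos
    refine ⟨b, ?_, rfl⟩
    rw [← hr i, mem_rootF1 p]
    exact ha
  · rw [← hr i] at ha
    exact (mem_rootF1 p).1 ha
  · obtain ⟨h1, h2⟩ := hz.far θ (D2P.isAlgebraic_mono (hle i) hθ)
    exact ⟨h1, h2.le⟩
  · obtain ⟨a, ha, h1⟩ := hz.lim ε hε
    obtain ⟨n, g, hg, h2⟩ := EW.near_adj p hx ha (s - ε)
    refine ⟨n, g, LUC.Cl.subset hg, ?_⟩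
    rw [show z - g = (z - a) + (a - g) by ring]
    exact h1.add h2

end

end Pool.Agent.TWC
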