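import Pool.Agent.Lib.TWM.C1
import Pool.Agent.Lib.TWC.BaseX

/-!
# TANK W, class C: linear dominance over a purely inseparable step

`M` closed, `y ^ p ∈ M`, the distance `ρ` of `y` to `M` is not attained. Then every `b` of `M(y)`,
`b ∉ M`, is `g + c y + (> v c + ρ)` with `g`, `c` in `M`, `c ≠ 0` (`lin_dom`), and its distance to
`M` is `v c + ρ`, not attained (`lin_dst`).
-/

set_option autoImplicit false
set_option linter.unusedSectionVars false

open Polynomial

namespace Pool.Agent.TWC

open Pool.Agent.H15JM (RVal)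
open Pool.Agent.LU1 (VPos adj)
open Pool.Agent.D2 (Ctx0)
open Pool.Agent.D2P (hen clI mem_clI)
open Pool.Agent.TWM
open Pool.Agent.TWM.C (PStep hen_eq nat_val not_sep exists_rep)

universe u

variable {k Ω : Type u} [Field k] [Field Ω] [Algebra k Ω] {v : RVal Ω}
  {M : IntermediateField k Ω} {y : Ω} {ρ : ℝ}

/-- Finitely many strict inequalities have a common gap. -/
theorem exists_gap_fin (S : Finset ℕ) (a : ℕ → ℝ) (w : ℕ → Ω) (h : ∀ i ∈ S, Gt v (a i) (w i)) :
    ∃ δ : ℝ, 0 < δ ∧ ∀ i ∈ S, v.Ge (a i + δ) (w i) := by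
  classical
  induction S using Finset.induction_on with
  | empty => exact ⟨1, one_pos, fun i hi => absurd hi (Finset.notMem_empty i)⟩
  | insert j S hj ih =>
    obtain ⟨δ, hδ, h1⟩ := ih fun i hi => h i (Finset.mem_insert_of_mem hi)
    have hjg := h j (Finset.mem_insert_self j S)
    by_cases hw : w j = 0
    · refine ⟨δ, hδ, fun i hi => ?_⟩
      rcases Finset.mem_insert.1 hi with rfl | hi
      · rw [hw]
        exact RVal.Ge.zero
      · exact h1 i hi
    · have h2 := hjg hw
      refine ⟨min δ (v (w j) - a j), lt_min hδ (by linarith), fun i hi => ?_⟩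
      rcases Finset.mem_insert.1 hi with rfl | hi
      · intro _
        have := min_le_right δ (v (w i) - a i)
        linarith
      · refine (h1 i hi).mono ?_
        have := min_le_left δ (v (w j) - a j)
        linarith

section

variable (p : ℕ) [hp : Fact p.Prime] [CharP k p] [CharP Ω p] [IsAlgClosed Ω]

/-- The elements of degree `< p` over `M` are at distance `< ρ` from `y`, if the distance `ρ` of
`y` to `M` is not attained. -/
theorem dist_lt (h0 : Ctx0 k v) (hs : PStep p v M y ρ) (hna : ¬ Nr v M ρ y) {θ : Ω}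
    (hint : IsIntegral M θ) (hdeg : (minpoly M θ).natDegree < p) : y ≠ θ ∧ v (y - θ) < ρ := by
  classical
  have hM := hen_eq hs.cld
  set g := minpoly M θ with hg
  have hgm : g.Monic := minpoly.monic hint
  have hgi : Irreducible g := minpoly.irreducible hint
  have hd0 : 0 < g.natDegree := minpoly.natDegree_pos hint
  have hchM : CharP M p := charP_of_injective_algebraMap (algebraMap k M).injective p
  have hdk : ((g.natDegree : ℕ) : k) ≠ 0 := by
    rw [Ne, CharP.cast_eq_zero_iff k p]
    exact fun h => absurd (Nat.le_of_dvd hd0 h) (not_le.2 hdeg)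
  have hdM : ((g.natDegree : ℕ) : M) ≠ 0 := by
    rw [Ne, CharP.cast_eq_zero_iff M p]
    exact fun h => absurd (Nat.le_of_dvd hd0 h) (not_le.2 hdeg)
  -- separability
  have hsep : IsSeparable M θ := by
    show g.Separable
    rw [separable_iff_derivative_ne_zero hgi]
    intro h1
    have h2 := congrArg (fun q : M[X] => q.coeff (g.natDegree - 1)) h1
    simp only [coeff_derivative, coeff_zero] at h2
    rw [Nat.sub_add_cancel hd0, hgm.coeff_natDegree, one_mul] at h2
    have h3 : ((g.natDegree - 1 : ℕ) : M) + 1 = ((g.natDegree : ℕ) : M) := by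
      rw [← Nat.cast_succ, Nat.succ_eq_add_one, Nat.sub_add_cancel hd0]
    rw [h3] at h2
    exact hdM h2
  refine ⟨not_sep p hs hsep, ?_⟩
  by_contra hcon
  push Not at hcon
  -- the conjugates are at the same distance
  have hconj : ∀ θ', aeval θ' g = 0 → y ≠ θ' ∧ v (y - θ') = v (y - θ) := by
    intro θ' hθ'
    have hg' : minpoly M θ' = g :=
      (minpoly.eq_of_irreducible_of_monic hgi hθ' hgm).symm
    have hsep' : IsSeparable M θ' := by
      show (minpoly M θ').Separable
      rw [hg']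
      exact hsep
    have hne' := not_sep p hs hsep'
    have hne := not_sep p hs hsep
    refine ⟨hne', ?_⟩
    have hup : IsSeparable M (y ^ p) := isSeparable_algebraMap (F := M) (⟨y ^ p, hs.pw⟩ : M)
    have hasep : IsSeparable M (θ ^ p - y ^ p) := by
      have h1 : θ ^ p ∈ separableClosure M Ω :=
        pow_mem (mem_separableClosure_iff.2 hsep) p
      exact mem_separableClosure_iff.1 (sub_mem h1 (mem_separableClosure_iff.2 hup))
    have haroot : aeval (θ' ^ p - y ^ p) (minpoly M (θ ^ p - y ^ p)) = 0 := by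
      set H : M[X] := (minpoly M (θ ^ p - y ^ p)).comp (X ^ p - C (⟨y ^ p, hs.pw⟩ : M)) with hH
      have h1 : ∀ t : Ω, aeval t H = aeval (t ^ p - y ^ p) (minpoly M (θ ^ p - y ^ p)) := by
        intro t
        rw [hH, aeval_comp, map_sub, map_pow, aeval_X, aeval_C]
        rfl
      have h2 : aeval θ H = 0 := by rw [h1, minpoly.aeval]
      have h3 : g ∣ H := minpoly.dvd M θ h2
      obtain ⟨q, hq⟩ := h3
      rw [← h1, hq, map_mul, hθ', zero_mul]
    have h4 := D2P.val_root_sep h0 hM hasep haroot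
    rw [← sub_pow_char, ← sub_pow_char, v.map_pow (sub_ne_zero.2 hne'.symm),
      v.map_pow (sub_ne_zero.2 hne.symm)] at h4
    have hp0 : (0 : ℝ) < p := by exact_mod_cast hp.out.pos
    have h5 := mul_left_cancel₀ hp0.ne' h4
    rw [← neg_sub θ' y, ← neg_sub θ y, v.map_neg _ (sub_ne_zero.2 hne'.symm),
      v.map_neg _ (sub_ne_zero.2 hne.symm), h5]
  -- the trace
  set G : Polynomial Ω := g.map (algebraMap M Ω) with hG
  have hGm : G.Monic := hgm.map _
  have hGs : G.Splits := IsAlgClosed.splits G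
  have hGd : G.natDegree = g.natDegree := hgm.natDegree_map _
  have hcard : G.roots.card = g.natDegree := by
    rw [← hGd]
    exact hGs.natDegree_eq_card_roots.symm
  have hroot : ∀ θ' ∈ G.roots, y ≠ θ' ∧ v (y - θ') = v (y - θ) := by
    intro θ' hθ'
    refine hconj θ' ?_
    have h1 := (mem_roots hGm.ne_zero).1 hθ'
    rwa [IsRoot.def, hG, eval_map_algebraMap] at h1
  have hsum : ∀ S : Multiset Ω, (∀ θ' ∈ S, y ≠ θ' ∧ v (y - θ') = v (y - θ)) →
      v.Ge ρ ((S.card : Ω) * y - S.sum) := by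
    intro S hS
    induction S using Multiset.induction_on with
    | empty =>
      rw [Multiset.card_zero, Nat.cast_zero, zero_mul, Multiset.sum_zero, sub_zero]
      exact RVal.Ge.zero
    | cons a S ih =>
      have h1 := hS a (Multiset.mem_cons_self a S)
      have h2 := ih fun θ' h => hS θ' (Multiset.mem_cons_of_mem h)
      rw [Multiset.card_cons, Multiset.sum_cons]
      have h3 : ((S.card + 1 : ℕ) : Ω) * y - (a + S.sum) = (y - a) + ((S.card : Ω) * y - S.sum) := by
        push_cast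
        ring
      rw [h3]
      refine RVal.Ge.add (fun _ => ?_) h2
      rw [h1.2]
      exact hcon
  have h1 := hsum G.roots hroot
  rw [hcard] at h1
  have h2 : G.roots.sum ∈ M := by
    have h3 := hGs.nextCoeff_eq_neg_sum_roots_of_monic hGm
    have h4 : G.roots.sum = -G.nextCoeff := by rw [h3, neg_neg]
    rw [h4]
    refine neg_mem ?_
    unfold nextCoeff
    split_ifs
    · exact zero_mem _
    · rw [hG, coeff_map]
      exact (g.coeff _).2
  obtain ⟨hdΩ, hvd⟩ := nat_val h0 hdk
  refine hna ⟨((g.natDegree : ℕ) : Ω)⁻¹ * G.roots.sum,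
    mul_mem (inv_mem (natCast_mem M _)) h2, ?_⟩
  have h5 : y - ((g.natDegree : ℕ) : Ω)⁻¹ * G.roots.sum =
      (((g.natDegree : ℕ) : Ω) * y - G.roots.sum) * ((g.natDegree : ℕ) : Ω)⁻¹ := by
    field_simp
  rw [h5]
  have h6 : v.Ge 0 ((g.natDegree : ℕ) : Ω)⁻¹ := fun _ => by
    rw [v.map_inv hdΩ, hvd, neg_zero]
  have h7 := h1.mul h6
  rwa [add_zero] at h7

/-- The roots of the polynomials of degree `< p` are at distance `< ρ` from `y`. -/
theorem root_lt (h0 : Ctx0 k v) (hs : PStep p v M y ρ) (hna : ¬ Nr v M ρ y) {P : Polynomial Ω}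
    (hP : P ∈ PI M) (hP0 : P ≠ 0) (hdeg : P.natDegree < p) {θ : Ω} (hθ : P.IsRoot θ) :
    y ≠ θ ∧ v (y - θ) < ρ := by
  have hl : P ∈ Polynomial.lifts (algebraMap M Ω) := by
    rw [Polynomial.lifts_iff_coeff_lifts]
    exact fun i => ⟨⟨P.coeff i, hP i⟩, rfl⟩
  obtain ⟨g, hg⟩ := hl
  have hg' : g.map (algebraMap M Ω) = P := hg
  have hg0 : g ≠ 0 := by
    rintro rfl
    rw [Polynomial.map_zero] at hg'
    exact hP0 hg'.symm
  have hgθ : aeval θ g = 0 := by
    rw [aeval_def, eval₂_eq_eval_map, hg']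
    exact hθ
  have halg : IsAlgebraic M θ := ⟨g, hg0, hgθ⟩
  refine dist_lt p h0 hs hna halg.isIntegral ?_
  refine lt_of_le_of_lt (natDegree_le_of_dvd (minpoly.dvd M θ hgθ) hg0) ?_
  rw [← hg', natDegree_map] at hdeg
  exact hdeg

/-- LINEAR DOMINANCE. -/
theorem lin_dom (h0 : Ctx0 k v) (hs : PStep p v M y ρ) (hlim : Lim v M ρ y)
    (hna : ¬ Nr v M ρ y) {b : Ω} (hb : b ∈ adj M y) :
    b ∈ M ∨ ∃ g ∈ M, ∃ c ∈ M, c ≠ 0 ∧ Gt v (v c + ρ) (b - g - c * y) := by
  classical
  obtain ⟨P, hP, hdeg, rfl⟩ := exists_rep p hs.pw hb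
  by_cases hD : derivative P = 0
  · left
    have h1 : P = C (P.coeff 0) := by
      ext i
      rw [coeff_C]
      split_ifs with hi
      · rw [hi]
      · by_contra hne
        have hi1 : 1 ≤ i := Nat.one_le_iff_ne_zero.2 hi
        have h2 := congrArg (fun q : Polynomial Ω => q.coeff (i - 1)) hD
        simp only [coeff_derivative, coeff_zero] at h2
        rw [Nat.sub_add_cancel hi1] at h2
        have h3 : ((i - 1 : ℕ) : Ω) + 1 = ((i : ℕ) : Ω) := by
          rw [← Nat.cast_succ, Nat.succ_eq_add_one, Nat.sub_add_cancel hi1]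
        rw [h3] at h2
        rcases mul_eq_zero.1 h2 with h4 | h4
        · exact hne h4
        · rw [CharP.cast_eq_zero_iff Ω p] at h4
          have h5 : i ≤ P.natDegree := le_natDegree_of_ne_zero hne
          exact absurd (Nat.le_of_dvd hi1 h4) (by omega)
    rw [h1, eval_C]
    exact hP 0
  right
  have hDP : derivative P ∈ PI M := C.derivative_mem hP
  have hDdeg : (derivative P).natDegree < p := lt_of_le_of_lt (natDegree_derivative_le P) (by omega)
  have hroots : ∀ θ, (derivative P).IsRoot θ → y ≠ θ ∧ v (y - θ) < ρ := fun θ hθ =>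
    root_lt p h0 hs hna hDP hD hDdeg hθ
  set N := (derivative P).eval y with hN
  have hN0 : N ≠ 0 := fun h => (hroots y h).1 rfl
  -- the gap
  obtain ⟨δ, hδ, hgap⟩ := exists_gap_fin (v := v) (Finset.Ico 1 p) (fun l => v N - l * ρ)
    (fun l => (taylor y (derivative P)).coeff l)
    (fun l hl => Roots.taylor_gt hD hroots (Finset.mem_Ico.1 hl).1)
  have hp0 : (0 : ℝ) < p := by exact_mod_cast hp.out.pos
  set ε : ℝ := δ / (2 * (p + 1)) with hε
  have hε0 : 0 < ε := by positivity
  have hεp : (p + 1 : ℝ) * ε < δ := by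
    rw [hε]
    rw [mul_div_assoc', div_lt_iff₀ (by positivity)]
    nlinarith
  obtain ⟨η, hη, hyη⟩ := hlim ε hε0
  set t := η - y with ht
  have htge : v.Ge (ρ - ε) t := by
    have h1 := hyη.neg
    rwa [neg_sub] at h1
  -- the Taylor coefficients of `P`
  have hF : ∀ l, (taylor y (derivative P)).coeff l =
      ((l + 1 : ℕ) : Ω) * (taylor y P).coeff (l + 1) := by
    intro l
    have h1 : taylor y (derivative P) = derivative (taylor y P) := by
      rw [taylor_apply, taylor_apply, derivative_comp, derivative_add, derivative_X, derivative_C,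
        add_zero, one_mul]
    rw [h1, coeff_derivative]
    push_cast
    ring
  have hFge : ∀ l ∈ Finset.Ico 1 p, v.Ge (v N - l * ρ + δ) ((taylor y P).coeff (l + 1)) := by
    intro l hl
    obtain ⟨hl1, hlp⟩ := Finset.mem_Ico.1 hl
    by_cases hlp1 : l + 1 = p
    · have h1 : (taylor y P).coeff (l + 1) = 0 := by
        refine coeff_eq_zero_of_natDegree_lt ?_
        rw [natDegree_taylor]
        omega
      rw [h1]
      exact RVal.Ge.zero
    · have hdk : ((l + 1 : ℕ) : k) ≠ 0 := by
        rw [Ne, CharP.cast_eq_zero_iff k p]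
        exact fun h => absurd (Nat.le_of_dvd (Nat.succ_pos l) h) (by omega)
      obtain ⟨hdΩ, hvd⟩ := nat_val h0 hdk
      have h1 : (taylor y P).coeff (l + 1) =
          (taylor y (derivative P)).coeff l * ((l + 1 : ℕ) : Ω)⁻¹ := by
        rw [hF]
        field_simp
      have h6 : v.Ge 0 ((l + 1 : ℕ) : Ω)⁻¹ := fun _ => by
        rw [v.map_inv hdΩ, hvd, neg_zero]
      rw [h1]
      have h7 := (hgap l hl).mul h6
      rwa [add_zero] at h7
  have hev : ∀ (Q : Polynomial Ω) (n : ℕ), Q.natDegree < n →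
      Q.eval η = ∑ l ∈ Finset.range n, (taylor y Q).coeff l * t ^ l := by
    intro Q n hQ
    have h1 : Q.eval η = (taylor y Q).eval t := by
      rw [taylor_eval, ht, sub_add_cancel]
    rw [h1, eval_eq_sum_range' (n := n)]
    rwa [natDegree_taylor]
  have hlε : ∀ l ∈ Finset.Ico 1 p, ((l : ℝ) + 1) * ε < δ := by
    intro l hl
    have h1 : (l : ℝ) + 1 ≤ p + 1 := by
      have : l ≤ p := (Finset.mem_Ico.1 hl).2.le
      have : (l : ℝ) ≤ p := by exact_mod_cast this
      linarith
    have h2 := mul_le_mul_of_nonneg_right h1 hε0.le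
    linarith
  -- `c`
  set c := (derivative P).eval η with hc
  have hcM : c ∈ M := eval_mem hDP hη
  have hcN : Gt v (v N) (N - c) := by
    have h1 : N - c = -∑ l ∈ Finset.Ico 1 p, (taylor y (derivative P)).coeff l * t ^ l := by
      rw [hc, hev _ p hDdeg, Finset.range_eq_Ico, Finset.sum_eq_sum_Ico_succ_bot hp.out.pos,
        taylor_coeff_zero, pow_zero, mul_one, ← hN]
      ring
    rw [h1]
    refine Gt.neg (Gt.sum _ _ fun l hl => ?_)
    refine Gt.of_ge ((hgap l hl).mul (ge_pow htge l)) ?_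
    have h2 := hlε l hl
    have h3 : (v N - l * ρ + δ) + l * (ρ - ε) = v N + (δ - l * ε) := by ring
    rw [h3]
    nlinarith
  obtain ⟨hc0, hvc⟩ := hcN.val_eq hN0
  refine ⟨P.eval η - c * η, sub_mem (eval_mem hP hη) (mul_mem hcM hη), c, hcM, hc0, ?_⟩
  have hsum : P.eval y - (P.eval η - c * η) - c * y =
      ∑ l ∈ Finset.Ico 1 p, (l : Ω) * (taylor y P).coeff (l + 1) * t ^ (l + 1) := by
    have h1 : P.eval η = ∑ l ∈ Finset.range p, (taylor y P).coeff (l + 1) * t ^ (l + 1) +
        P.eval y := by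
      rw [hev P (p + 1) (by omega), Finset.sum_range_succ', taylor_coeff_zero, pow_zero, mul_one]
    have h2 : c * t = ∑ l ∈ Finset.range p,
        ((l + 1 : ℕ) : Ω) * (taylor y P).coeff (l + 1) * t ^ (l + 1) := by
      rw [hc, hev _ p hDdeg, Finset.sum_mul]
      refine Finset.sum_congr rfl fun l _ => ?_
      rw [hF, pow_succ]
      ring
    have h3 : P.eval y - (P.eval η - c * η) - c * y = c * t - (P.eval η - P.eval y) := by
      rw [ht]
      ring
    rw [h3, h2, h1, add_sub_cancel_right, ← Finset.sum_sub_distrib, Finset.range_eq_Ico,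
      Finset.sum_eq_sum_Ico_succ_bot hp.out.pos]
    have h4 : ((0 + 1 : ℕ) : Ω) * (taylor y P).coeff (0 + 1) * t ^ (0 + 1) -
        (taylor y P).coeff (0 + 1) * t ^ (0 + 1) = 0 := by
      push_cast
      ring
    rw [h4, zero_add]
    refine Finset.sum_congr rfl fun l _ => ?_
    push_cast
    ring
  rw [hsum, hvc]
  refine Gt.sum _ _ fun l hl => ?_
  refine Gt.of_ge (((ge_natCast v l).mul (hFge l hl)).mul (ge_pow htge (l + 1))) ?_
  have h2 := hlε l hl
  have h3 : (0 + (v N - l * ρ + δ)) + ((l + 1 : ℕ) : ℝ) * (ρ - ε) =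
      v N + ρ + (δ - ((l : ℝ) + 1) * ε) := by
    push_cast
    ring
  rw [h3]
  linarith

end

/-- The distance of `b` with linear part `c y`. -/
theorem lin_dst (p : ℕ) (_hs : PStep p v M y ρ) (hlim : Lim v M ρ y) (hna : ¬ Nr v M ρ y)
    {b g c : Ω} (hg : g ∈ M) (hc : c ∈ M) (hc0 : c ≠ 0)
    (h : Gt v (v c + ρ) (b - g - c * y)) :
    Dst v M b (v c + ρ) ∧ ¬ Nr v M (v c + ρ) b := by
  have hcge : v.Ge (v c) c := RVal.ge_self _
  have hinv : v.Ge (-v c) c⁻¹ := fun _ => by rw [v.map_inv hc0]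
  have hn : ¬ Nr v M (v c + ρ) b := by
    rintro ⟨a, ha, h1⟩
    refine hna ⟨(a - g) * c⁻¹, mul_mem (sub_mem ha hg) (inv_mem hc), ?_⟩
    have h2 : y - (a - g) * c⁻¹ = ((b - a) - (b - g - c * y)) * c⁻¹ := by
      field_simp
      ring
    rw [h2]
    have h3 := (h1.sub h.ge).mul hinv
    refine h3.mono ?_
    linarith
  refine ⟨⟨fun hfar => hn ?_, fun ε hε => ?_⟩, hn⟩
  · obtain ⟨a, ha, h1⟩ := hfar
    exact ⟨a, ha, h1.ge⟩
  · obtain ⟨η, hη, h1⟩ := hlim ε hε
    refine ⟨g + c * η, add_mem hg (mul_mem hc hη), ?_⟩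
    have h2 : b - (g + c * η) = (b - g - c * y) + c * (y - η) := by ring
    rw [h2]
    refine (h.ge.mono ?_).add ((hcge.mul h1).mono ?_)
    · linarith
    · linarith

end Pool.Agent.TWC
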