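import Pool.Agent.Lib.TWC.SND
import Pool.Agent.Lib.TWC.EW
import Pool.Agent.Lib.TWJ.NoHit0

/-!
# TANK W, dimension 4: the step `K → K(a^(1/p))` for a tight element of level `0`

* `adj_eq_of_mem`: a field of degree `p` is generated by every new element;
* **`tgt_step`**: `clI K₀ = clI F(y)`, `x 0 ∈ clI F` tight of level `0` in `clI K₀`; then either
  `K₀(al)` is henselian rational or `x` is tight of level `0` in its closure.
-/

set_option autoImplicit false

open Polynomial

namespace Pool.Agent.TWJ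

open Pool.Agent.H15JM (RVal)
open Pool.Agent.LU1 (VPos adj)
open Pool.Agent.D2 (Ctx0)
open Pool.Agent.D2P (hen clI mem_clI mem_adj_self adj_le)
open Pool.Agent.TW
open Pool.Agent.TWM (CompleteV cadj clI_mono cld_clI Cld TL Gt)
open Pool.Agent.TWC (Tgt)

universe u

variable {k Ω : Type u} [Field k] [Field Ω] [Algebra k Ω] {v : RVal Ω} {r D : ℕ}

section Deg

variable (p : ℕ) [hp : Fact p.Prime] [CharP Ω p]

/-- The degree of a root. -/
theorem finrank_root {K : IntermediateField k Ω} {a : Ω} (ha : a ^ p ∈ K) (hn : a ∉ K) :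
    IsIntegral K a ∧ Module.finrank K (IntermediateField.adjoin K {a}) = p := by
  have hirr : Irreducible (X ^ p - C (⟨a ^ p, ha⟩ : K)) := by
    rw [X_pow_sub_C_irreducible_iff_of_prime hp.out]
    intro b hb
    have h1 : (b : Ω) ^ p = a ^ p := congrArg Subtype.val hb
    have h2 : (b : Ω) = a := by
      have h3 : ((b : Ω) - a) ^ p = 0 := by rw [sub_pow_char, h1, sub_self]
      exact sub_eq_zero.1 (eq_zero_of_pow_eq_zero h3)
    exact hn (h2 ▸ b.2)
  have hmon : (X ^ p - C (⟨a ^ p, ha⟩ : K)).Monic := monic_X_pow_sub_C _ hp.out.ne_zero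
  have hroot : aeval a (X ^ p - C (⟨a ^ p, ha⟩ : K)) = 0 := by
    rw [map_sub, map_pow, aeval_X, aeval_C]
    exact sub_self _
  have hmin : minpoly K a = X ^ p - C (⟨a ^ p, ha⟩ : K) :=
    (minpoly.eq_of_irreducible_of_monic hirr hroot hmon).symm
  have hint : IsIntegral K a := ⟨_, hmon, hroot⟩
  refine ⟨hint, ?_⟩
  rw [IntermediateField.adjoin.finrank hint, hmin, natDegree_X_pow_sub_C]

theorem pow_mem_of_adj1 {K : IntermediateField k Ω} {a : Ω} (ha : a ^ p ∈ K) :
    ∀ u ∈ adj K a, u ^ p ∈ K := by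
  intro u hu
  have h1 : adj K a ≤ D2P.rootF p 1 K :=
    adj_le (fun b hb => D2P.mem_rootF.2 (pow_mem hb _))
      (D2P.mem_rootF.2 (by rw [pow_one]; exact ha))
  have h2 := D2P.mem_rootF.1 (h1 hu)
  rwa [pow_one] at h2

/-- A field of degree `p` is generated by every new element. -/
theorem adj_eq_of_mem {K : IntermediateField k Ω} {a u : Ω} (ha : a ^ p ∈ K) (hu : u ∈ adj K a)
    (hn : u ∉ K) : adj K u = adj K a := by
  have haK : a ∉ K := fun h => hn ((adj_le (le_refl K) h : adj K a ≤ K) hu)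
  obtain ⟨hia, hfa⟩ := finrank_root p ha haK
  obtain ⟨hiu, hfu⟩ := finrank_root p (pow_mem_of_adj1 p ha u hu) hn
  rw [TW.adj_eq K a] at hu ⊢
  rw [TW.adj_eq K u]
  have hle : IntermediateField.adjoin K {u} ≤ IntermediateField.adjoin K {a} := by
    rw [IntermediateField.adjoin_simple_le_iff]
    exact hu
  have : FiniteDimensional K (IntermediateField.adjoin K {a}) :=
    IntermediateField.adjoin.finiteDimensional hia
  rw [IntermediateField.eq_of_le_of_finrank_eq hle (by rw [hfa, hfu])]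

end Deg

/-- **The step `K → K(al)`** for a tight element of level `0` in the lower field. -/
theorem tgt_step [IsAlgClosed k] [IsAlgClosed Ω] (p : ℕ) [hp : Fact p.Prime] [CharP k p]
    [CharP Ω p] (h : Ctx k v r) (hcv : CompleteV v)
    (hLU : ∀ E : IntermediateField k Ω, E.FG → Full v E → Algebra.trdeg k E = (r + D : ℕ) →
      BD p v E → LU p v r E)
    {K₀ : IntermediateField k Ω} (hK : K₀.FG) (hKf : Full v K₀)
    (htr : Algebra.trdeg k K₀ = (r + D + 1 : ℕ)) (hBDK : BD p v K₀) {al : Ω}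
    (hal : al ^ p ∈ K₀) (hBD : BD p v (adj K₀ al)) {F : IntermediateField k Ω} (hF : F.FG)
    (hFf : Full v F) (hFt : Algebra.trdeg k F = (r + D : ℕ)) {y : Ω} {s : ℝ}
    (hy : TL v (clI v F) y s) (hcl : clI v K₀ = cadj v (clI v F) y)
    {x : ℕ → Ω} (hx : Tgt p v (clI v K₀) x 0) (hxF : x 0 ∈ clI v F) :
    HRone v (adj K₀ al) ∨ Tgt p v (clI v (adj K₀ al)) x 0 := by
  have hp0 : (0 : ℝ) < p := by exact_mod_cast hp.out.pos
  rcases hx.up (cld_clI v _) (clI_mono (le_sup_left : K₀ ≤ adj K₀ al))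
    (TWC.pow_mem_clI p (pow_mem_of_adj1 p hal)) with ⟨u, hu, -, hux⟩ | h1
  swap
  · exact Or.inr h1
  left
  rw [zero_div] at hux
  -- an element of `K₀(al)` near `x 1`
  obtain ⟨w, hw, h1⟩ := mem_clI.1 hu.mem 1
  have hwx : Gt v 0 (w - x 1) := by
    have h2 := (TWM.Gt.of_ge h1 one_pos).neg.add hux
    rwa [neg_sub, sub_add_sub_cancel] at h2
  have hwp : Gt v 0 (w ^ p - x 0) := by
    have h2 : x (0 + 1) ^ p = x 0 := hx.root 0
    rw [zero_add] at h2
    rw [← h2, ← sub_pow_char]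
    have := (TWC.gt_pow_iff (v := v) (y := w - x 1) (b := 0) (N := p) hp.out.pos).2 hwx
    rwa [mul_zero] at this
  have hfar : ∀ g ∈ clI v K₀, ¬ Gt v 0 (w ^ p - g ^ p) := by
    intro g hg h2
    refine hx.far_pow hg ?_
    have h3 := hwp.neg.add h2
    rwa [neg_sub, sub_add_sub_cancel] at h3
  have hwK : w ∉ K₀ := fun h2 => hfar w (LUC.Cl.subset h2) (by rw [sub_self]; exact Gt.zero)
  rw [← adj_eq_of_mem p hal hw hwK]
  refine exit_base p h hcv hLU hK hKf htr hBDK (pow_mem_of_adj1 p hal w hw)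
    (by rw [adj_eq_of_mem p hal hw hwK]; exact hBD) hF hFf hFt hy hcl (ν := 0) (g := 0)
    (zero_mem _) hxF ?_ hfar
  rw [zero_pow hp.out.ne_zero, sub_zero]
  exact hwp

end Pool.Agent.TWJ
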