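import Pool.Agent.Lib.TWC.Ext

/-!
# TANK W, class C: isometric Hasse-Schmidt derivations with integral exponents (row NAT-1')

* `HSI v K h`: `h : K → Ω⟦T⟧` a homomorphism over `k`, constant term the inclusion, coefficients of
  norm `≤ 0`;
* `pcl p K`: the perfect closure of `K`;
* `HSX`: the operators `A n j`, of index `j / p ^ n`, on the closure of `pcl p K`, with values
  in `Ω`; `exists_hsx`: existence.
-/

set_option autoImplicit false

open Polynomial

namespace Pool.Agent.TWC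

open Pool.Agent.H15JM (RVal)
open Pool.Agent.D2 (Ctx0)
open Pool.Agent.D2P (clI mem_clI)
open Pool.Agent.TWM

universe u

variable {k Ω : Type u} [Field k] [Field Ω] [Algebra k Ω] {v : RVal Ω}
  {K E : IntermediateField k Ω}

/-! ### Extension by continuity, values in `Ω` -/

/-- Extension of a function of norm `≤ 0` from a dense subspace, with values in `Ω`. -/
theorem exists_extΩ [hc : Fact (Ctx0 k v)] (hΩ : CompleteV v) (A : Submodule k Ω)
    (hd : DnsS v (A : Set Ω) E) (f : A →ₗ[k] Ω)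
    (hn : ∀ (a : A) (b : ℝ), v.Ge b (a : Ω) → v.Ge b (f a)) :
    ∃ φ : E →ₗ[k] Ω, (∀ (x : E) (b : ℝ), v.Ge b (x : Ω) → v.Ge b (φ x)) ∧
      ∀ (a : Ω) (ha : a ∈ A) (hE : a ∈ E), φ ⟨a, hE⟩ = f ⟨a, ha⟩ := by
  have hdif : ∀ (a a' : A) (b : ℝ), v.Ge b ((a : Ω) - a') → v.Ge b (f a - f a') := by
    intro a a' b h
    rw [← map_sub]
    exact hn _ _ h
  have h1 : ∀ x : E, ∃ y : Ω, ∀ (a : A) (b : ℝ), v.Ge b ((x : Ω) - a) → v.Ge b (y - f a) := by
    intro x
    choose a ha _ hxa using fun n : ℕ => hd x x.2 (n : ℝ)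
    obtain ⟨y, hy⟩ := hΩ (fun n => f ⟨a n, ha n⟩) fun c => by
      obtain ⟨N, hN⟩ := exists_nat_ge c
      refine ⟨N, fun m n hm hn' => hdif _ _ _ ?_⟩
      have e : ((⟨a m, ha m⟩ : A) : Ω) - (⟨a n, ha n⟩ : A) = ((x : Ω) - a n) - (x - a m) := by
        change a m - a n = _
        ring
      rw [e]
      refine RVal.Ge.sub ?_ ?_
      · exact (hxa n).mono (hN.trans (by exact_mod_cast hn'))
      · exact (hxa m).mono (hN.trans (by exact_mod_cast hm))
    refine ⟨y, fun a' b hb => ?_⟩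
    obtain ⟨N, hN⟩ := hy b
    obtain ⟨N', hN'⟩ := exists_nat_ge b
    set n := max N N' with hn'
    have e : y - f a' = (y - f ⟨a n, ha n⟩) + (f ⟨a n, ha n⟩ - f a') := by ring
    rw [e]
    refine (hN n (le_max_left _ _)).add (hdif _ _ _ ?_)
    have e2 : ((⟨a n, ha n⟩ : A) : Ω) - a' = ((x : Ω) - a') - (x - a n) := by
      change a n - (a' : Ω) = _
      ring
    rw [e2]
    refine hb.sub ((hxa n).mono (hN'.trans ?_))
    exact_mod_cast le_max_right N N'
  choose g hg using h1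
  have huniq : ∀ (x : E) (y : Ω), (∀ (b : ℝ), ∃ a : A, v.Ge b ((x : Ω) - a) ∧ v.Ge b (y - f a)) →
      g x = y := by
    intro x y h
    refine eq_of_ge (v := v) fun b => ?_
    obtain ⟨a, h2, h3⟩ := h b
    have e : g x - y = (g x - f a) - (y - f a) := by ring
    rw [e]
    exact (hg x a b h2).sub h3
  have hdA : ∀ (x : E) (b : ℝ), ∃ a : A, v.Ge b ((x : Ω) - a) := by
    intro x b
    obtain ⟨a, ha, -, h2⟩ := hd x x.2 b
    exact ⟨⟨a, ha⟩, h2⟩
  let φ₀ : E →ₗ[k] Ω :=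
    { toFun := g
      map_add' := fun x y => by
        refine huniq _ _ fun b => ?_
        obtain ⟨a, ha⟩ := hdA x b
        obtain ⟨a', ha'⟩ := hdA y b
        refine ⟨a + a', ?_, ?_⟩
        · have e : ((x + y : E) : Ω) - (a + a' : A) = ((x : Ω) - a) + (y - a') := by
            push_cast
            ring
          rw [e]
          exact ha.add ha'
        · have e : g x + g y - f (a + a') = (g x - f a) + (g y - f a') := by
            rw [map_add]
            ring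
          rw [e]
          exact (hg x a b ha).add (hg y a' b ha')
      map_smul' := fun c x => by
        refine huniq _ _ fun b => ?_
        obtain ⟨a, ha⟩ := hdA x b
        have hs : ∀ t : Ω, v.Ge b t → v.Ge b (c • t) := fun t ht => by
          rw [Algebra.smul_def]
          have := (hc.out.ge c).mul ht
          rwa [zero_add] at this
        refine ⟨c • a, ?_, ?_⟩
        · have e : ((c • x : E) : Ω) - (c • a : A) = c • ((x : Ω) - a) := by
            rw [smul_sub]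
            rfl
          rw [e]
          exact hs _ ha
        · have e : c • g x - f (c • a) = c • (g x - f a) := by
            rw [smul_sub, map_smul]
          rw [RingHom.id_apply, e]
          exact hs _ (hg x a b ha) }
  refine ⟨φ₀, fun x b hb => ?_, fun a ha hE => ?_⟩
  · obtain ⟨a, ha⟩ := hdA x b
    have e : g x = (g x - f a) + f a := by ring
    change v.Ge b (g x)
    rw [e]
    refine (hg x a b ha).add (hn a b ?_)
    have e2 : (a : Ω) = (x : Ω) - (x - a) := by ring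
    rw [e2]
    exact hb.sub ha
  · exact huniq _ _ fun b => ⟨⟨a, ha⟩, by
      change v.Ge b (a - a)
      rw [sub_self]
      exact RVal.Ge.zero, by rw [sub_self]; exact RVal.Ge.zero⟩

/-! ### Power series -/

section Ser

variable (p : ℕ) [hp : Fact p.Prime] [CharP Ω p]

/-- The coefficients of a `p`-th power of a power series. -/
theorem coeff_ps_pow (f : PowerSeries Ω) (n : ℕ) :
    PowerSeries.coeff n (f ^ p) = if p ∣ n then (PowerSeries.coeff (n / p) f) ^ p else 0 := by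
  have h1 : PowerSeries.coeff n (f ^ p) = (PowerSeries.trunc (n + 1) (f ^ p)).coeff n := by
    rw [PowerSeries.coeff_trunc, if_pos (Nat.lt_succ_self n)]
  have h2 : ∀ g : Polynomial Ω,
      (g ^ p).coeff n = if p ∣ n then (g.coeff (n / p)) ^ p else 0 := by
    intro g
    rw [← map_frobenius_expand, coeff_map, coeff_expand hp.out.pos]
    split_ifs
    · rfl
    · rw [map_zero]
  rw [h1, ← PowerSeries.trunc_trunc_pow, PowerSeries.coeff_trunc, if_pos (Nat.lt_succ_self n),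
    ← Polynomial.coe_pow, Polynomial.coeff_coe, h2, PowerSeries.coeff_trunc,
    if_pos (Nat.lt_succ_of_le (Nat.div_le_self n p))]

/-- The coefficients of a `p ^ m`-th power of a power series. -/
theorem coeff_ps_pow_pow (f : PowerSeries Ω) (m j : ℕ) :
    PowerSeries.coeff (p ^ m * j) (f ^ p ^ m) = (PowerSeries.coeff j f) ^ p ^ m := by
  induction m with
  | zero => simp
  | succ m ih =>
    rw [pow_succ p m, pow_mul, coeff_ps_pow, if_pos, pow_mul]
    · have e : p ^ m * p * j / p = p ^ m * j := by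
        rw [mul_comm (p ^ m) p, mul_assoc, Nat.mul_div_cancel_left _ hp.out.pos]
      rw [e, ih]
    · exact ⟨p ^ m * j, by ring⟩

theorem coeff_ps_pow_zero (f : PowerSeries Ω) (m j : ℕ) (hj : ¬ p ^ m ∣ j) :
    PowerSeries.coeff j (f ^ p ^ m) = 0 := by
  induction m generalizing j with
  | zero => exact absurd (by rw [pow_zero]; exact one_dvd j) hj
  | succ m ih =>
    rw [pow_succ p m, pow_mul, coeff_ps_pow]
    split_ifs with h1
    · obtain ⟨c, rfl⟩ := h1
      rw [Nat.mul_div_cancel_left _ hp.out.pos, ih c, zero_pow hp.out.ne_zero]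
      intro h2
      apply hj
      rw [pow_succ']
      exact Nat.mul_dvd_mul_left p h2
    · rfl

end Ser

/-! ### Roots -/

section Rt

variable (p : ℕ) [hp : Fact p.Prime] [CharP Ω p] [IsAlgClosed Ω]

/-- The `p ^ n`-th root. -/
noncomputable def rt (n : ℕ) (x : Ω) : Ω := (iterateFrobeniusEquiv Ω p n).symm x

theorem rt_pow (n : ℕ) (x : Ω) : rt p n x ^ p ^ n = x :=
  (iterateFrobeniusEquiv Ω p n).apply_symm_apply x

theorem rt_eq {n : ℕ} {x y : Ω} (h : y ^ p ^ n = x) : rt p n x = y := by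
  rw [← h]
  exact (iterateFrobeniusEquiv Ω p n).symm_apply_apply y

theorem rt_add (n : ℕ) (x y : Ω) : rt p n (x + y) = rt p n x + rt p n y := map_add _ _ _

theorem rt_mul (n : ℕ) (x y : Ω) : rt p n (x * y) = rt p n x * rt p n y := map_mul _ _ _

theorem rt_ge {n : ℕ} {x : Ω} {b : ℝ} (h : v.Ge (p ^ n * b) x) : v.Ge b (rt p n x) := by
  intro h0
  have hp0 : (0 : ℝ) < (p : ℝ) ^ n := by
    have : (0 : ℝ) < p := by exact_mod_cast hp.out.pos
    positivity
  have h1 : x ≠ 0 := by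
    rintro rfl
    exact h0 (map_zero _)
  have h2 := h h1
  have h3 : v x = p ^ n * v (rt p n x) := by
    conv_lhs => rw [← rt_pow p n x]
    rw [v.map_pow h0]
    push_cast
    rfl
  rw [h3] at h2
  exact le_of_mul_le_mul_left h2 hp0

omit [IsAlgClosed Ω] in
/-- The perfect closure of `K` in `Ω`. -/
def pcl (K : IntermediateField k Ω) : IntermediateField k Ω where
  carrier := {y | ∃ m : ℕ, y ^ p ^ m ∈ K}
  mul_mem' := by
    rintro x y ⟨m, hx⟩ ⟨n, hy⟩
    refine ⟨m + n, ?_⟩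
    rw [mul_pow, pow_add, pow_mul x, mul_comm (p ^ m), pow_mul y]
    exact mul_mem (pow_mem hx _) (pow_mem hy _)
  add_mem' := by
    rintro x y ⟨m, hx⟩ ⟨n, hy⟩
    refine ⟨m + n, ?_⟩
    rw [add_pow_char_pow, pow_add, pow_mul x, mul_comm (p ^ m), pow_mul y]
    exact add_mem (pow_mem hx _) (pow_mem hy _)
  algebraMap_mem' a := ⟨0, by rw [pow_zero, pow_one]; exact K.algebraMap_mem a⟩
  inv_mem' := by
    rintro x ⟨m, hx⟩
    refine ⟨m, ?_⟩
    rw [inv_pow]
    exact inv_mem hx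

end Rt

/-- `h : K → Ω⟦T⟧` isometric, integral exponents. -/
structure HSI (v : RVal Ω) (K : IntermediateField k Ω) (h : K →ₐ[k] PowerSeries Ω) : Prop where
  zero : ∀ x : K, PowerSeries.coeff 0 (h x) = (x : Ω)
  norm : ∀ (n : ℕ) (x : K) (b : ℝ), v.Ge b (x : Ω) → v.Ge b (PowerSeries.coeff n (h x))

/-- The operators `A n j` of index `j / p ^ n` on the field `L`. -/
structure HSX (p : ℕ) (v : RVal Ω) (K L : IntermediateField k Ω) (h : K →ₐ[k] PowerSeries Ω)
    (A : ℕ → ℕ → L →ₗ[k] Ω) : Prop where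
  norm : ∀ (n j : ℕ) (x : L) (b : ℝ), v.Ge b (x : Ω) → v.Ge b (A n j x)
  zero : ∀ (n : ℕ) (x : L), A n 0 x = x
  up : ∀ (n j : ℕ) (x : L), A (n + 1) (p * j) x = A n j x
  frob : ∀ (n j : ℕ) (x : L), A n j (x ^ p) = (A (n + 1) j x) ^ p
  base : ∀ (n j : ℕ) (c : L) (hc : (c : Ω) ^ p ^ n ∈ K),
    (A n j c) ^ p ^ n = PowerSeries.coeff j (h ⟨_, hc⟩)
  van : ∀ (n m j : ℕ) (c : L), (c : Ω) ^ p ^ n ∈ K → ¬ p ^ m ∣ j → A (n + m) j c = 0
  mul : ∀ (n j : ℕ) (c x : L), (c : Ω) ^ p ^ n ∈ K →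
    A n j (c * x) = ∑ i ∈ Finset.HasAntidiagonal.antidiagonal j, A n i.1 c * A n i.2 x

/-- The value of the operator of index `j / p ^ n` at `y`, `y ^ p ^ (n + m) ∈ K`. -/
noncomputable def vaf (p : ℕ) [Fact p.Prime] [CharP Ω p] [IsAlgClosed Ω]
    (h : K →ₐ[k] PowerSeries Ω) (n j : ℕ) (y : Ω) (m : ℕ)
    (hm : y ^ p ^ (n + m) ∈ K) : Ω :=
  rt p (n + m) (PowerSeries.coeff (p ^ m * j) (h ⟨_, hm⟩))

theorem pow_up {p : ℕ} {y : Ω} {m : ℕ} (hm : y ^ p ^ m ∈ K) (i : ℕ) : y ^ p ^ (m + i) ∈ K := by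
  rw [pow_add, pow_mul]
  exact pow_mem hm _

/-- Products with a sparse series. -/
theorem coeff_mul_sparse {F G : PowerSeries Ω} {q : ℕ} (hq : 0 < q)
    (hF : ∀ a, ¬ q ∣ a → PowerSeries.coeff a F = 0) (j : ℕ) :
    PowerSeries.coeff (q * j) (F * G) =
      ∑ i ∈ Finset.HasAntidiagonal.antidiagonal j,
        PowerSeries.coeff (q * i.1) F * PowerSeries.coeff (q * i.2) G := by
  classical
  rw [PowerSeries.coeff_mul]
  have hinj : Set.InjOn (fun i : ℕ × ℕ => (q * i.1, q * i.2))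
      (Finset.HasAntidiagonal.antidiagonal j : Finset (ℕ × ℕ)) := by
    rintro ⟨a, b⟩ _ ⟨a', b'⟩ _ h
    simp only [Prod.mk.injEq] at h
    rw [Nat.eq_of_mul_eq_mul_left hq h.1, Nat.eq_of_mul_eq_mul_left hq h.2]
  rw [← Finset.sum_image (g := fun i : ℕ × ℕ => (q * i.1, q * i.2))
    (f := fun x : ℕ × ℕ => PowerSeries.coeff x.1 F * PowerSeries.coeff x.2 G) hinj]
  symm
  refine Finset.sum_subset ?_ ?_
  · intro x hx
    obtain ⟨i, hi, rfl⟩ := Finset.mem_image.1 hx
    rw [Finset.HasAntidiagonal.mem_antidiagonal] at hi ⊢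
    simp only
    rw [← mul_add, hi]
  · rintro ⟨a, b⟩ hx hno
    rw [Finset.HasAntidiagonal.mem_antidiagonal] at hx
    simp only at hx ⊢
    by_cases ha : q ∣ a
    · exfalso
      obtain ⟨a', rfl⟩ := ha
      have hb : q ∣ b := by
        rw [← Nat.dvd_add_right (dvd_mul_right q a'), hx]
        exact dvd_mul_right q j
      obtain ⟨b', rfl⟩ := hb
      apply hno
      rw [Finset.mem_image]
      refine ⟨(a', b'), ?_, rfl⟩
      rw [Finset.HasAntidiagonal.mem_antidiagonal]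
      rw [← mul_add] at hx
      exact Nat.eq_of_mul_eq_mul_left hq hx
    · rw [hF a ha, zero_mul]

/-- Two bounded maps which agree on a dense subset. -/
theorem eq_of_dnsL {L : IntermediateField k Ω} {S : Set Ω} (hd : DnsS v S L) (φ ψ : L →ₗ[k] Ω)
    (c : ℝ) (hφ : ∀ (x : L) (b : ℝ), v.Ge b (x : Ω) → v.Ge (b + c) (φ x))
    (hψ : ∀ (x : L) (b : ℝ), v.Ge b (x : Ω) → v.Ge (b + c) (ψ x))
    (h : ∀ (y : Ω) (_ : y ∈ S) (hL : y ∈ L), φ ⟨y, hL⟩ = ψ ⟨y, hL⟩) (x : L) : φ x = ψ x := by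
  refine eq_of_ge (v := v) fun b => ?_
  obtain ⟨y, hy, hyL, h1⟩ := hd x x.2 (b - c)
  have e : φ x - ψ x = φ (x - ⟨y, hyL⟩) - ψ (x - ⟨y, hyL⟩) := by
    rw [map_sub, map_sub, h y hy hyL]
    ring
  rw [e]
  have h2 := hφ (x - ⟨y, hyL⟩) (b - c) h1
  have h3 := hψ (x - ⟨y, hyL⟩) (b - c) h1
  rw [sub_add_cancel] at h2 h3
  exact h2.sub h3

section Ex

variable {p : ℕ} [hp : Fact p.Prime] [CharP Ω p] [IsAlgClosed Ω]

theorem vaf_pow (h : K →ₐ[k] PowerSeries Ω) (n j : ℕ) (y : Ω) (m : ℕ)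
    (hm : y ^ p ^ (n + m) ∈ K) :
    vaf p h n j y m hm ^ p ^ (n + m) = PowerSeries.coeff (p ^ m * j) (h ⟨_, hm⟩) := rt_pow p _ _

theorem vaf_add (h : K →ₐ[k] PowerSeries Ω) (n j : ℕ) (y : Ω) (m i : ℕ)
    (hm : y ^ p ^ (n + m) ∈ K) (hi : y ^ p ^ (n + (m + i)) ∈ K) :
    vaf p h n j y (m + i) hi = vaf p h n j y m hm := by
  refine rt_eq p ?_
  have e : (⟨y ^ p ^ (n + (m + i)), hi⟩ : K) = (⟨y ^ p ^ (n + m), hm⟩ : K) ^ p ^ i := by
    refine Subtype.ext ?_
    change y ^ p ^ (n + (m + i)) = (y ^ p ^ (n + m)) ^ p ^ i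
    rw [← pow_mul, ← pow_add, add_assoc]
  rw [e, map_pow, ← add_assoc, pow_add p (n + m), pow_mul, vaf_pow]
  have e2 : p ^ (m + i) * j = p ^ i * (p ^ m * j) := by
    rw [pow_add]
    ring
  rw [e2, coeff_ps_pow_pow]

theorem vaf_congr (h : K →ₐ[k] PowerSeries Ω) (n j : ℕ) (y : Ω) (m m' : ℕ)
    (hm : y ^ p ^ (n + m) ∈ K) (hm' : y ^ p ^ (n + m') ∈ K) :
    vaf p h n j y m hm = vaf p h n j y m' hm' := by
  have h1 : y ^ p ^ (n + (m + m')) ∈ K := by
    rw [← add_assoc]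
    exact pow_up hm m'
  have h2 : y ^ p ^ (n + (m' + m)) ∈ K := by
    rw [← add_assoc]
    exact pow_up hm' m
  rw [← vaf_add h n j y m m' hm h1, ← vaf_add h n j y m' m hm' h2]
  congr 1
  exact add_comm _ _

theorem pcl_level (n : ℕ) {y : Ω} (hy : y ∈ pcl p K) : ∃ m, y ^ p ^ (n + m) ∈ K := by
  obtain ⟨m, hm⟩ := hy
  exact ⟨m, by rw [add_comm]; exact pow_up hm n⟩

theorem mem_pcl {y : Ω} (m : ℕ) (hy : y ^ p ^ m ∈ K) : y ∈ pcl p K := ⟨m, hy⟩

/-- The operator on the perfect closure. -/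
noncomputable def At0 (p : ℕ) [Fact p.Prime] [CharP Ω p] (h : K →ₐ[k] PowerSeries Ω)
    (n j : ℕ) : (pcl p K).toSubalgebra.toSubmodule →ₗ[k] Ω where
  toFun y := vaf p h n j y (pcl_level n y.2).choose (pcl_level n y.2).choose_spec
  map_add' := by
    intro x y
    obtain ⟨m, hm⟩ := pcl_level n x.2
    obtain ⟨m', hm'⟩ := pcl_level n y.2
    have h1 : (x : Ω) ^ p ^ (n + (m + m')) ∈ K := by
      rw [← add_assoc]
      exact pow_up hm m'
    have h2 : (y : Ω) ^ p ^ (n + (m + m')) ∈ K := by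
      rw [add_comm m m', ← add_assoc]
      exact pow_up hm' m
    have h3 : ((x + y : (pcl p K).toSubalgebra.toSubmodule) : Ω) ^ p ^ (n + (m + m')) ∈ K := by
      change ((x : Ω) + (y : Ω)) ^ p ^ (n + (m + m')) ∈ K
      rw [add_pow_char_pow]
      exact add_mem h1 h2
    rw [vaf_congr h n j _ _ (m + m') _ h3, vaf_congr h n j _ _ (m + m') _ h1,
      vaf_congr h n j _ _ (m + m') _ h2, vaf, vaf, vaf, ← rt_add, ← map_add, ← map_add]
    congr 4
    change ((x : Ω) + (y : Ω)) ^ p ^ (n + (m + m')) =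
      (x : Ω) ^ p ^ (n + (m + m')) + (y : Ω) ^ p ^ (n + (m + m'))
    rw [add_pow_char_pow]
  map_smul' := by
    intro a y
    obtain ⟨m, hm⟩ := pcl_level n y.2
    have h3 : ((a • y : (pcl p K).toSubalgebra.toSubmodule) : Ω) ^ p ^ (n + m) ∈ K := by
      change (a • (y : Ω)) ^ p ^ (n + m) ∈ K
      rw [_root_.smul_pow]
      exact K.smul_mem hm
    rw [vaf_congr h n j _ _ m _ h3, vaf_congr h n j _ _ m _ hm]
    refine rt_eq p ?_
    rw [RingHom.id_apply, _root_.smul_pow, vaf_pow]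
    have e : (⟨((a • y : (pcl p K).toSubalgebra.toSubmodule) : Ω) ^ p ^ (n + m), h3⟩ : K) =
        a ^ p ^ (n + m) • (⟨(y : Ω) ^ p ^ (n + m), hm⟩ : K) := by
      refine Subtype.ext ?_
      change (a • (y : Ω)) ^ p ^ (n + m) = a ^ p ^ (n + m) • (y : Ω) ^ p ^ (n + m)
      rw [_root_.smul_pow]
    rw [e, map_smul]
    rfl

theorem At0_eq (h : K →ₐ[k] PowerSeries Ω) (n j : ℕ) (y : Ω)
    (hy : y ∈ (pcl p K).toSubalgebra.toSubmodule) (m : ℕ) (hm : y ^ p ^ (n + m) ∈ K) :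
    At0 p h n j ⟨y, hy⟩ = vaf p h n j y m hm := vaf_congr h n j y _ _ _ _

theorem At0_norm {h : K →ₐ[k] PowerSeries Ω} (hh : HSI v K h) (n j : ℕ)
    (y : (pcl p K).toSubalgebra.toSubmodule) (b : ℝ) (hb : v.Ge b (y : Ω)) :
    v.Ge b (At0 p h n j y) := by
  obtain ⟨m, hm⟩ := pcl_level n y.2
  rw [At0_eq h n j y y.2 m hm, vaf]
  refine rt_ge p (hh.norm _ _ _ ?_)
  change v.Ge _ ((y : Ω) ^ p ^ (n + m))
  have h1 := ge_pow hb (p ^ (n + m))
  push_cast at h1
  exact h1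

variable [hcx : Fact (Ctx0 k v)]

/-- **Existence of the operators on the closure of the perfect closure.** -/
theorem exists_hsx (hΩ : CompleteV v) {h : K →ₐ[k] PowerSeries Ω} (hh : HSI v K h) :
    ∃ A : ℕ → ℕ → clI v (pcl p K) →ₗ[k] Ω, HSX p v K (clI v (pcl p K)) h A := by
  set L := clI v (pcl p K) with hL
  have hPL : pcl p K ≤ L := fun x hx => mem_clI.2 fun b => ⟨x, hx, by
    rw [sub_self]
    exact RVal.Ge.zero⟩
  have hd : DnsS v ((pcl p K).toSubalgebra.toSubmodule : Set Ω) L := by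
    intro x hx b
    obtain ⟨y, hy, h1⟩ := mem_clI.1 hx b
    exact ⟨y, hy, hPL hy, h1⟩
  choose A hA1 hA2 using fun n j => exists_extΩ (E := L) hΩ (pcl p K).toSubalgebra.toSubmodule hd
    (At0 p h n j) (At0_norm hh n j)
  have hval : ∀ (n j : ℕ) (y : Ω) (hyL : y ∈ L) (m : ℕ) (hm : y ^ p ^ (n + m) ∈ K),
      A n j ⟨y, hyL⟩ = vaf p h n j y m hm := by
    intro n j y hyL m hm
    rw [hA2 n j y (mem_pcl (n + m) hm) hyL, At0_eq h n j y _ m hm]
  refine ⟨A, hA1, fun n => ?_, fun n j => ?_, fun n j x => ?_, fun n j c hc => ?_,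
    fun n m j c hc hj => ?_, fun n j c x hc => ?_⟩
  · refine eq_of_dnsL hd (A n 0) L.val.toLinearMap 0 (fun x b hb => by
      rw [add_zero]; exact hA1 n 0 x b hb) (fun x b hb => by rw [add_zero]; exact hb) ?_
    intro y hy hyL
    obtain ⟨m, hm⟩ := pcl_level n hy
    rw [hval n 0 y hyL m hm, vaf, mul_zero, hh.zero]
    exact rt_eq p rfl
  · refine eq_of_dnsL hd (A (n + 1) (p * j)) (A n j) 0 (fun x b hb => by
      rw [add_zero]; exact hA1 _ _ x b hb) (fun x b hb => by rw [add_zero]; exact hA1 _ _ x b hb) ?_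
    intro y hy hyL
    obtain ⟨m, hm⟩ := pcl_level (n + 1) hy
    have hm' : y ^ p ^ (n + (m + 1)) ∈ K := by
      rw [show n + (m + 1) = n + 1 + m by ring]
      exact hm
    rw [hval (n + 1) (p * j) y hyL m hm, hval n j y hyL (m + 1) hm']
    refine rt_eq p ?_
    have e1 : (⟨y ^ p ^ (n + 1 + m), hm⟩ : K) = ⟨y ^ p ^ (n + (m + 1)), hm'⟩ := by
      refine Subtype.ext ?_
      change y ^ p ^ (n + 1 + m) = y ^ p ^ (n + (m + 1))
      rw [show n + (m + 1) = n + 1 + m by ring]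
    have e2 : p ^ m * (p * j) = p ^ (m + 1) * j := by rw [pow_succ]; ring
    rw [e1, e2, ← vaf_pow h n j y (m + 1) hm', show n + (m + 1) = n + 1 + m by ring]
  · -- Frobenius
    refine eq_of_ge (v := v) fun b => ?_
    have hp0 : (0 : ℝ) < p := by exact_mod_cast hp.out.pos
    obtain ⟨y, hy, hyL, h1⟩ := hd x x.2 (b / p)
    have h2 : A n j ((⟨y, hyL⟩ : L) ^ p) = (A (n + 1) j ⟨y, hyL⟩) ^ p := by
      obtain ⟨m, hm⟩ := pcl_level (n + 1) hy
      have hm' : (y ^ p) ^ p ^ (n + m) ∈ K := by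
        rw [← pow_mul, ← pow_succ', show n + m + 1 = n + 1 + m by ring]
        exact hm
      have e0 : ((⟨y, hyL⟩ : L) ^ p) = ⟨y ^ p, pow_mem hyL p⟩ := rfl
      rw [e0, hval n j (y ^ p) _ m hm', hval (n + 1) j y hyL m hm]
      refine rt_eq p ?_
      rw [← pow_mul, ← pow_succ', show n + m + 1 = n + 1 + m by ring, vaf_pow]
      congr 2
      refine Subtype.ext ?_
      change y ^ p ^ (n + 1 + m) = (y ^ p) ^ p ^ (n + m)
      rw [← pow_mul, ← pow_succ', show n + m + 1 = n + 1 + m by ring]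
    have e : A n j (x ^ p) - (A (n + 1) j x) ^ p =
        A n j ((x - ⟨y, hyL⟩) ^ p) - (A (n + 1) j (x - ⟨y, hyL⟩)) ^ p := by
      have _ : CharP L p := (RingHom.charP_iff (algebraMap L Ω) (algebraMap L Ω).injective p).2
        inferInstance
      rw [sub_pow_char, map_sub, map_sub, sub_pow_char, h2]
      ring
    rw [e]
    have h3 : v.Ge b (((x - ⟨y, hyL⟩ : L) ^ p : L) : Ω) := by
      have h4 := ge_pow h1 p
      rw [mul_div_cancel₀ _ hp0.ne'] at h4
      exact h4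
    refine (hA1 n j _ b h3).sub ?_
    have h4 := ge_pow (hA1 (n + 1) j (x - ⟨y, hyL⟩) (b / p) h1) p
    rwa [mul_div_cancel₀ _ hp0.ne'] at h4
  · have h1 := hval n j (c : Ω) c.2 0 (by rw [add_zero]; exact hc)
    rw [show (⟨(c : Ω), c.2⟩ : L) = c from rfl] at h1
    rw [h1]
    have h2 := vaf_pow h n j (c : Ω) 0 (by rw [add_zero]; exact hc)
    rw [pow_zero, one_mul] at h2
    exact h2
  · have hm : (c : Ω) ^ p ^ (n + m + 0) ∈ K := pow_up hc m
    have h1 := hval (n + m) j (c : Ω) c.2 0 hm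
    rw [show (⟨(c : Ω), c.2⟩ : L) = c from rfl] at h1
    rw [h1]
    refine rt_eq p ?_
    rw [zero_pow (pow_pos hp.out.pos _).ne', pow_zero, one_mul]
    have e : (⟨(c : Ω) ^ p ^ (n + m + 0), hm⟩ : K) = (⟨(c : Ω) ^ p ^ n, hc⟩ : K) ^ p ^ m := by
      refine Subtype.ext ?_
      change (c : Ω) ^ p ^ (n + m + 0) = ((c : Ω) ^ p ^ n) ^ p ^ m
      rw [← pow_mul, ← pow_add, add_zero]
    rw [e, map_pow, coeff_ps_pow_zero p _ m j hj]
  · -- Leibniz
    let ψ : L →ₗ[k] Ω := ∑ i ∈ Finset.HasAntidiagonal.antidiagonal j, (A n i.1 c) • (A n i.2)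
    have hψ : ∀ x : L, ψ x =
        ∑ i ∈ Finset.HasAntidiagonal.antidiagonal j, A n i.1 c * A n i.2 x := by
      intro x
      simp only [ψ, LinearMap.sum_apply, LinearMap.smul_apply, smul_eq_mul]
    rw [← hψ x]
    by_cases hc0 : (c : Ω) = 0
    · have e : c = 0 := Subtype.ext hc0
      rw [hψ, e, zero_mul, map_zero]
      simp
    refine eq_of_dnsL hd ((A n j).comp (LinearMap.mulLeft k c)) ψ (v (c : Ω)) ?_ ?_ ?_ x
    · intro x b hb
      refine hA1 n j _ _ ?_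
      rw [add_comm]
      exact (RVal.ge_self (c : Ω)).mul hb
    · intro x b hb
      rw [hψ]
      refine RVal.Ge.sum _ _ fun i _ => ?_
      rw [add_comm]
      exact (hA1 n i.1 c _ (RVal.ge_self (c : Ω))).mul (hA1 n i.2 x b hb)
    · intro y hy hyL
      rw [hψ]
      change A n j (c * ⟨y, hyL⟩) = _
      obtain ⟨m, hm⟩ := pcl_level n hy
      have hcm : (c : Ω) ^ p ^ (n + m) ∈ K := pow_up hc m
      have hcy : ((c : Ω) * y) ^ p ^ (n + m) ∈ K := by
        rw [mul_pow]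
        exact mul_mem hcm hm
      have e1 : A n j (c * ⟨y, hyL⟩) = vaf p h n j ((c : Ω) * y) m hcy :=
        hval n j ((c : Ω) * y) (mul_mem c.2 hyL) m hcy
      rw [e1]
      have e2 : ∀ i : ℕ × ℕ, A n i.1 c * A n i.2 ⟨y, hyL⟩ =
          vaf p h n i.1 (c : Ω) m hcm * vaf p h n i.2 y m hm := fun i => by
        rw [← hval n i.1 (c : Ω) c.2 m hcm, ← hval n i.2 y hyL m hm]
      rw [Finset.sum_congr rfl fun i _ => e2 i]
      simp only [vaf]
      rw [Finset.sum_congr rfl fun i _ => (rt_mul p (n + m) _ _).symm]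
      have e3 : ∀ (S : Finset (ℕ × ℕ)) (g : ℕ × ℕ → Ω),
          ∑ i ∈ S, rt p (n + m) (g i) = rt p (n + m) (∑ i ∈ S, g i) := fun S g =>
        (map_sum (iterateFrobeniusEquiv Ω p (n + m)).symm g S).symm
      rw [e3]
      congr 1
      have e4 : (⟨((c : Ω) * y) ^ p ^ (n + m), hcy⟩ : K) =
          (⟨(c : Ω) ^ p ^ (n + m), hcm⟩ : K) * ⟨y ^ p ^ (n + m), hm⟩ := by
        refine Subtype.ext ?_
        change ((c : Ω) * y) ^ p ^ (n + m) = (c : Ω) ^ p ^ (n + m) * y ^ p ^ (n + m)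
        rw [mul_pow]
      rw [e4, map_mul]
      refine coeff_mul_sparse (pow_pos hp.out.pos m) (fun a ha => ?_) j
      have e5 : (⟨(c : Ω) ^ p ^ (n + m), hcm⟩ : K) = (⟨(c : Ω) ^ p ^ n, hc⟩ : K) ^ p ^ m := by
        refine Subtype.ext ?_
        change (c : Ω) ^ p ^ (n + m) = ((c : Ω) ^ p ^ n) ^ p ^ m
        rw [← pow_mul, ← pow_add]
      rw [e5, map_pow, coeff_ps_pow_zero p _ m a ha]

/-! ### Consequences -/

variable {L : IntermediateField k Ω} {h : K →ₐ[k] PowerSeries Ω} {A : ℕ → ℕ → L →ₗ[k] Ω}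

omit [IsAlgClosed Ω] hcx in
/-- The operators of order `< 1` are linear over `K`. -/
theorem HSX.lin (hA : HSX p v K L h A) {n j : ℕ} (hj : j < p ^ n) (c x : L) (hc : (c : Ω) ∈ K) :
    A n j (c * x) = c * A n j x := by
  classical
  have hcn : (c : Ω) ^ p ^ n ∈ K := pow_mem hc _
  rw [hA.mul n j c x hcn, Finset.sum_eq_single (0, j)]
  · rw [hA.zero]
  · rintro ⟨a, b⟩ hab hne
    rw [Finset.HasAntidiagonal.mem_antidiagonal] at hab
    simp only at hab ⊢
    have ha : a ≠ 0 := by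
      rintro rfl
      exact hne (by rw [← hab, zero_add])
    have h1 := hA.van 0 n a c (by rw [pow_zero, pow_one]; exact hc) (fun h2 => by
      have := Nat.le_of_dvd (Nat.pos_of_ne_zero ha) h2
      omega)
    rw [zero_add] at h1
    rw [h1, zero_mul]
  · intro hno
    exfalso
    apply hno
    rw [Finset.HasAntidiagonal.mem_antidiagonal]
    exact zero_add j

omit [IsAlgClosed Ω] hcx in
/-- The operators extend the coefficients of `h`. -/
theorem HSX.ext (hA : HSX p v K L h A) (j : ℕ) (c : L) (hc : (c : Ω) ∈ K) :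
    A 0 j c = PowerSeries.coeff j (h ⟨c, hc⟩) := by
  have h2 : (c : Ω) ^ p ^ 0 ∈ K := by rw [pow_zero, pow_one]; exact hc
  have h1 := hA.base 0 j c h2
  have e : (⟨(c : Ω) ^ p ^ 0, h2⟩ : K) = ⟨c, hc⟩ := Subtype.ext (by
    change (c : Ω) ^ p ^ 0 = c
    rw [pow_zero, pow_one])
  rw [e] at h1
  rwa [pow_zero, pow_one] at h1

omit [IsAlgClosed Ω] hcx in
theorem HSX.up_pow (hA : HSX p v K L h A) (n m j : ℕ) (x : L) :
    A (n + m) (p ^ m * j) x = A n j x := by
  induction m with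
  | zero => rw [pow_zero, one_mul, add_zero]
  | succ m ih => rw [pow_succ', mul_assoc, ← add_assoc, hA.up, ih]

end Ex

end Pool.Agent.TWC
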