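import Pool.Agent.Lib.TWC.TowDefs
import Pool.Agent.Lib.TWM.I1

/-!
# TANK W, class C: towers, first properties (row T1)
-/

set_option autoImplicit false

open Polynomial

namespace Pool.Agent.TWC

open Pool.Agent.H15JM (RVal)
open Pool.Agent.D2 (Ctx0)
open Pool.Agent.D2P (hen clI mem_clI)
open Pool.Agent.TWM

universe u

variable {k Ω : Type u} [Field k] [Field Ω] [Algebra k Ω] {v : RVal Ω}
  {A B C : IntermediateField k Ω}

theorem Tow.le {n : ℕ} (h : Tow v n A B) (hA : Cld v A) : A ≤ B := by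
  induction h with
  | zero _ => exact le_refl _
  | succ _ _ ih => exact (le_cadj v _ _).trans (ih (cld_cadj v _ _))

theorem Tow.cld {n : ℕ} (h : Tow v n A B) : Cld v B := by
  induction h with
  | zero hA => exact hA
  | succ _ _ ih => exact ih

theorem Tow.imm [IsAlgClosed Ω] {n : ℕ} (h : Tow v n A B) : Imm v A B := by
  induction h with
  | zero _ => exact Imm.refl _
  | succ hz _ ih => exact hz.imm.trans ih

theorem Tow.trans {n m : ℕ} (h : Tow v n A B) (h' : Tow v m B C) : Tow v (n + m) A C := by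
  induction h with
  | zero _ => simpa using h'
  | @succ n A B z hz _ ih =>
    have h1 : n + 1 + m = (n + m) + 1 := by omega
    rw [h1]
    exact Tow.succ hz (ih h')

theorem tow_zero : Tow v 0 A B ↔ Cld v A ∧ A = B := by
  constructor
  · intro h
    cases h with
    | zero hA => exact ⟨hA, rfl⟩
  · rintro ⟨hA, rfl⟩
    exact Tow.zero hA

theorem tow_succ {n : ℕ} : Tow v (n + 1) A B ↔ ∃ z, TL v A z 0 ∧ Tow v n (cadj v A z) B := by
  constructor
  · intro h
    cases h with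
    | succ hz h' => exact ⟨_, hz, h'⟩
  · rintro ⟨z, hz, h'⟩
    exact Tow.succ hz h'

theorem tow_one : Tow v 1 A B ↔ ∃ y, TL v A y 0 ∧ B = cadj v A y := by
  rw [tow_succ]
  constructor
  · rintro ⟨z, hz, h'⟩
    exact ⟨z, hz, (tow_zero.1 h').2.symm⟩
  · rintro ⟨z, hz, h'⟩
    exact ⟨z, hz, tow_zero.2 ⟨cld_cadj v _ _, h'.symm⟩⟩

theorem tow_two : Tow v 2 A B ↔ ∃ y z, Fib v A B y z 0 0 := by
  rw [tow_succ]
  constructor
  · rintro ⟨y, hy, h'⟩
    obtain ⟨z, hz, hB⟩ := tow_one.1 h'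
    exact ⟨y, z, hy, hz, hB⟩
  · rintro ⟨y, z, hF⟩
    exact ⟨y, hF.ty, tow_one.2 ⟨z, hF.tz, hF.eq⟩⟩

/-- the last step -/
theorem Tow.last {n : ℕ} (h : Tow v (n + 1) A B) (hA : Cld v A) :
    ∃ N y, Tow v n A N ∧ TL v N y 0 ∧ B = cadj v N y := by
  induction n generalizing A with
  | zero =>
    obtain ⟨y, hy, hB⟩ := tow_one.1 h
    exact ⟨A, y, Tow.zero hA, hy, hB⟩
  | succ n ih =>
    obtain ⟨z, hz, h'⟩ := tow_succ.1 h
    obtain ⟨N, y, h1, h2, h3⟩ := ih h' (cld_cadj v _ _)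
    exact ⟨N, y, Tow.succ hz h1, h2, h3⟩

end Pool.Agent.TWC
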