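import Pool.Agent.Lib.TWC.TPd
import Pool.Agent.Lib.TWC.LinDom
import Pool.Agent.Lib.TWC.Lv0S
import Pool.Agent.Lib.TWS.MonB

/-!
# TANK W, class C: tight pairs of any level, the step `K → K(a ^ (1 / p))`

* `Tgt.isoL1`; `Tgt.red`: an element `l`, `l ^ p ∈ L`, near to `L(x ^ (1 / p ^ ∞))` is near to
  `L(x 1)`;
* `imm_EW`: the roots of `x` do not change the values; `na_of_far`: the distances are not attained;
* `tp_alt`: `L₁ = L₀(al)`, `(x, w)` a tight pair of `L₀`, `x 0, w 0 ∈ F`, `L₀ / F` immediate; then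
  `(x, w)` is a tight pair of `L₁`, or `x 1` is near to `L₁`, or `al ^ p` is near to the sum of a `p`-th
  power of `L₀` and of an element of `F`;
* **`tp_step`**: `HRone` or `(x, w)` is a tight pair of the closure of `K₀(al)`.
-/

set_option autoImplicit false
set_option linter.unusedSectionVars false

open Polynomial

namespace Pool.Agent.TWC

open Pool.Agent.H15JM (RVal)
open Pool.Agent.LU1 (VPos adj)
open Pool.Agent.D2 (Ctx0)
open Pool.Agent.D2P (clI mem_clI mem_rootF)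
open Pool.Agent.TWM
open Pool.Agent.TWM.C (PStep)
open Pool.Agent.TWS (VG)

universe u

variable {k Ω : Type u} [Field k] [Field Ω] [Algebra k Ω] {v : RVal Ω}
  {L L₀ L₁ F M : IntermediateField k Ω} {x w : ℕ → Ω} {r s : ℝ} {p : ℕ}
  [hp : Fact p.Prime] [CharP k p] [CharP Ω p] [IsAlgClosed Ω]

/-! ### Preliminaries -/

theorem exists_ge_of_gt {b : ℝ} {y : Ω} (h : Gt v b y) : ∃ c, b < c ∧ v.Ge c y := by
  by_cases h0 : y = 0
  · exact ⟨b + 1, by linarith, by rw [h0]; exact RVal.Ge.zero⟩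
  · exact ⟨v y, h h0, RVal.ge_self _⟩

theorem Tgt.isoL1 (h : Tgt p v L x r) : IsoL p v L (fun n (_ : Fin 1) => x n) fun _ => r where
  cld := h.cld
  mem _ := h.mem
  root n _ := h.root n
  far l := by
    have h1 : (l : ℕ) = 0 := by
      have := l.2
      omega
    rw [h1, Lx_zero h.cld]
    have h2 := (h.dst 0).far
    rwa [zero_add, pow_one] at h2
  lim n l ε hε := by
    cases n with
    | zero => exact ⟨x 0, h.mem, by rw [sub_self]; exact RVal.Ge.zero⟩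
    | succ n => exact (h.dst n).near ε hε

/-- **Reduction to the first root.** -/
theorem Tgt.red (h0 : Ctx0 k v) (hc : CompleteV v) (hx : Tgt p v L x r) {l ξ : Ω}
    (hl : l ^ p ∈ L) (hξ : ξ ∈ EW v L x) {b : ℝ} (hb : Gt v b (l - ξ)) :
    ∃ a ∈ adj L (x 1), Gt v b (l - a) := by
  obtain ⟨c, hbc, hc'⟩ := exists_ge_of_gt hb
  have h1 := (Tgt.rootF hx).isoL1
  have hx1 : x 1 ^ p = x 0 := hx.root 0
  have hLN : L ≤ adj L (x 1) := fun a ha => (D2P.mem_adj_self L (x 1)).2 ha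
  have hNL : adj L (x 1) ≤ D2P.rootF p 1 L := by
    refine D2P.adj_le (D2P.le_rootF L 1) ?_
    rw [mem_rootF1, hx1]
    exact hx.mem
  obtain ⟨a, ha, h2⟩ := h1.dist (P := adj L (x 1)) (N := adj L (x 1)) h0 hc le_rfl hNL
    (fun _ => (D2P.mem_adj_self L (x 1)).1) (fun n _ ε hε => by
      obtain ⟨g, hg, h2⟩ := (hx.dst n).near ε hε
      refine ⟨g, hLN hg, ?_⟩
      rw [div_div, ← pow_succ']
      exact h2) (a := ξ) (l := l) (by rw [mem_rootF1]; exact hl) (by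
      refine clI_mono' (sup_le (hLN.trans le_sup_left) (IntermediateField.adjoin_le_iff.2 ?_)) hξ
      rintro _ ⟨n, rfl⟩
      cases n with
      | zero => exact (le_sup_left : adj L (x 1) ≤ _) (hLN hx.mem)
      | succ n =>
        exact (le_sup_right : _ ≤ adj L (x 1) ⊔ _)
          (IntermediateField.subset_adjoin _ _ ⟨n, 0, rfl⟩)) hc' (ε := (c - b) / 2) (by linarith)
  exact ⟨a, ha, Gt.of_ge h2 (by linarith)⟩

theorem EW.le_pcl (hr : ∀ n, x (n + 1) ^ p = x n) (h0 : x 0 ∈ L) :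
    EW v L x ≤ clI v (TWC.pcl p L) := by
  refine clI_mono' (sup_le (fun a ha => ⟨0, by rw [pow_zero, pow_one]; exact ha⟩)
    (IntermediateField.adjoin_le_iff.2 ?_))
  rintro _ ⟨n, rfl⟩
  refine ⟨n, ?_⟩
  have := root_pow_add hr 0 n
  rw [zero_add] at this
  rw [this]
  exact h0

/-- The roots of `x` do not change the values. -/
theorem imm_EW (h0 : Ctx0 k v) (hV : ∀ g ∈ VG v L, g / p ∈ VG v L)
    (hr : ∀ n, x (n + 1) ^ p = x n) (hx : x 0 ∈ L) : Imm v L (EW v L x) where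
  le := EW.le
  imm b hb hb0 := (TWS.imm_pcl p h0 hV).imm b (EW.le_pcl hr hx hb) hb0

/-- The distances are not attained. -/
theorem na_of_far (h0 : Ctx0 k v) (hV : ∀ g ∈ VG v M, g / p ∈ VG v M) {y : Ω} {ρ : ℝ}
    (hy : y ^ p ∈ M) (hfar : ¬ Nr' v M ρ y) : ¬ Nr v M ρ y := by
  rintro ⟨a, ha, h1⟩
  have hp0 : (0 : ℝ) < p := by exact_mod_cast hp.out.pos
  have h2 : y - a ≠ 0 := fun h => hfar ⟨a, ha, by rw [h]; exact Gt.zero⟩
  have h3 : v (y - a) = ρ := by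
    refine le_antisymm ?_ (h1 h2)
    by_contra h4
    exact hfar ⟨a, ha, fun _ => not_le.1 h4⟩
  have h4 : (y - a) ^ p ∈ M := by
    rw [sub_pow_char]
    exact sub_mem hy (pow_mem ha p)
  have h5 := hV _ (VG.self (v := v) h4 (pow_ne_zero p h2))
  rw [v.map_pow h2, mul_div_cancel_left₀ _ hp0.ne'] at h5
  obtain ⟨b, hb, hb0, hvb⟩ := h5
  obtain ⟨c, -, h6⟩ := h0.res ((y - a) / b) (div_ne_zero h2 hb0) (by
    rw [v.map_div h2 hb0, hvb, sub_self])
  have h7 : Gt v 0 ((y - a) / b - algebraMap k Ω c) := h6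
  refine hfar ⟨a + b * algebraMap k Ω c, add_mem ha (mul_mem hb (M.algebraMap_mem c)), ?_⟩
  have e : y - (a + b * algebraMap k Ω c) = ((y - a) / b - algebraMap k Ω c) * b := by
    field_simp
    ring
  rw [e]
  have h8 := h7.mul_ge (RVal.ge_self (v := v) b)
  rwa [zero_add, hvb, h3] at h8

theorem gt_mul_left (c : Ω) {b : ℝ} {y : Ω} (h : Gt v b y) : Gt v (v c + b) (c * y) := by
  have h1 := h.mul_ge (RVal.ge_self (v := v) c)
  rwa [mul_comm, add_comm] at h1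

/-- Immediate extensions: a near element, of the same value. -/
theorem imm_near {A B : IntermediateField k Ω} (h : Imm v A B) {b : Ω} (hb : b ∈ B)
    (hb0 : b ≠ 0) : ∃ a ∈ A, a ≠ 0 ∧ v a = v b ∧ Gt v (v b) (b - a) := by
  obtain ⟨a, ha, h1⟩ := h.imm b hb hb0
  obtain ⟨h2, h3⟩ := Gt.val_eq hb0 h1
  exact ⟨a, ha, h2, h3, h1⟩

/-- `c ≈ c₁`, `y` at distance `ρ` of `L`: `(c - c₁) y` is near to `L`. -/
theorem near_mul {L : IntermediateField k Ω} {c c₁ y : Ω} {ρ : ℝ} (hlim : Lim v L ρ y)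
    (hc : Gt v (v c) (c - c₁)) : ∃ h ∈ L, Gt v (v c + ρ) ((c - c₁) * (y - h)) := by
  obtain ⟨b, hb, hb'⟩ := exists_ge_of_gt hc
  obtain ⟨h, hh, h1⟩ := hlim ((b - v c) / 2) (by linarith)
  exact ⟨h, hh, Gt.of_ge (hb'.mul h1) (by linarith)⟩

/-! ### The alternative -/

/-- `A` closed, `a ^ p ∈ A`: `A(a)` is closed. -/
theorem cld_adj_pow (hc : CompleteV v) {A : IntermediateField k Ω} (hA : Cld v A) {a : Ω}
    (ha : a ^ p ∈ A) : Cld v (adj A a) :=
  cld_adj hc hA (IsAlgebraic.of_pow hp.out.pos (isAlgebraic_algebraMap (⟨_, ha⟩ : A)))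

theorem EW.mono {A B : IntermediateField k Ω} (h : A ≤ B) (x : ℕ → Ω) : EW v A x ≤ EW v B x :=
  clI_mono' (sup_le_sup h le_rfl)

theorem EW.pow_mem {A B : IntermediateField k Ω} (h : ∀ a ∈ B, a ^ p ∈ A)
    (hr : ∀ n, x (n + 1) ^ p = x n) (hx : x 0 ∈ A) : ∀ a ∈ EW v B x, a ^ p ∈ EW v A x := by
  refine pow_mem_clI p (pow_char_mem p (fun y hy => (le_sup_left : A ≤ _) (h y hy))
    fun y hy => ?_)
  have h1 : IntermediateField.adjoin k (Set.range x) ≤
      D2P.rootF p 1 (A ⊔ IntermediateField.adjoin k (Set.range x)) := by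
    rw [IntermediateField.adjoin_le_iff]
    rintro _ ⟨n, rfl⟩
    change x n ∈ D2P.rootF p 1 (A ⊔ IntermediateField.adjoin k (Set.range x))
    rw [mem_rootF1]
    cases n with
    | zero => exact (le_sup_left : A ≤ _) (_root_.pow_mem hx p)
    | succ n =>
      rw [hr]
      exact (le_sup_right : _ ≤ A ⊔ _) (IntermediateField.subset_adjoin k _ ⟨n, rfl⟩)
  exact (mem_rootF1 p).1 (h1 hy)

/-- **The alternative.** -/
theorem tp_alt (h0 : Ctx0 k v) (hc : CompleteV v) {al : Ω} (hal : al ^ p ∈ L₀)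
    (himm : Imm v F L₀) (hV : ∀ g ∈ VG v L₀, g / p ∈ VG v L₀) (hx : TP p v L₀ x w r s)
    (hxF : x 0 ∈ F) (hwF : w 0 ∈ F) :
    TP p v (adj L₀ al) x w r s ∨ (∃ u ∈ adj L₀ al, Gt v (r / p) (u - x 1)) ∨
      ∃ g ∈ L₀, ∃ e ∈ F, ∃ ν : ℝ, Gt v ν (al ^ p - g ^ p - e) ∧
        ∀ g ∈ L₀, ¬ Gt v ν (al ^ p - g ^ p) := by
  have hp0 : (0 : ℝ) < p := by exact_mod_cast hp.out.pos
  have hFL := himm.le
  have hL₀ : Cld v L₀ := hx.tgt.cld
  have hL₁ : Cld v (adj L₀ al) := cld_adj_pow hc hL₀ hal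
  have h01 : L₀ ≤ adj L₀ al := fun a ha => (D2P.mem_adj_self L₀ al).2 ha
  have hpow : ∀ a ∈ adj L₀ al, a ^ p ∈ L₀ := TWJ.pow_mem_of_adj1 p hal
  have hx1 : x 1 ^ p = x 0 := hx.tgt.root 0
  have hw1 : w 1 ^ p = w 0 := hx.root 0
  rcases hx.tgt.up hL₁ h01 hpow with ⟨u, hu, -, hux⟩ | hT
  · exact Or.inr (Or.inl ⟨u 0, hu.mem, hux⟩)
  set M := EW v L₀ x with hM
  set M' := EW v (adj L₀ al) x with hM'
  have hMc : Cld v M := EW.cld
  have hLM : L₀ ≤ M := EW.le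
  have hMM' : M ≤ M' := EW.mono h01 x
  have hMpow : ∀ a ∈ M', a ^ p ∈ M := EW.pow_mem hpow hx.tgt.root hx.tgt.mem
  have hiM : Imm v L₀ M := imm_EW h0 hV hx.tgt.root hx.tgt.mem
  have hVM : ∀ g ∈ VG v M, g / p ∈ VG v M := by
    rw [TWS.VG.imm hiM]
    exact hV
  rcases hx.tgt_w.up (L := M') EW.cld hMM' hMpow with ⟨u, hu, -, hux⟩ | hW
  swap
  · left
    refine ⟨hT, h01 hx.mem, hx.root, ?_, fun n => (hx.lim n).mono h01⟩
    have h1 := (hW.dst 0).far
    rwa [zero_add, pow_one] at h1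
  -- `w 1` is near to `y ∈ M'`
  set y := u 0 with hy
  have hyM' : y ∈ M' := hu.mem
  have hyp : y ^ p ∈ M := hMpow y hyM'
  have hyfar : ¬ Nr' v M (s / p) y := by
    rintro ⟨a, ha, h1⟩
    refine hx.far ⟨a, ha, ?_⟩
    have h2 := h1.sub hux
    have e : y - a - (y - w 1) = w 1 - a := by ring
    rwa [e] at h2
  have hyM : y ∉ M := fun h => hyfar ⟨y, h, by rw [sub_self]; exact Gt.zero⟩
  have hps : PStep p v M y (s / p) := ⟨hMc, hyp, hyfar⟩
  have hwlim : Lim v L₀ (s / p) (w 1) := by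
    have := hx.lim 1
    rwa [pow_one] at this
  have hylim : Lim v M (s / p) y := by
    intro ε hε
    obtain ⟨a, ha, h1⟩ := hwlim ε hε
    refine ⟨a, hLM ha, ?_⟩
    have h2 := h1.add (hux.ge.mono (show s / p - ε ≤ s / p by linarith))
    have e : w 1 - a + (y - w 1) = y - a := by ring
    rwa [e] at h2
  have hyna := na_of_far h0 hVM hyp hyfar
  have halM : al ^ p ∈ M := hLM hal
  have hMal : M' ≤ adj M al := by
    refine clI_le' (sup_le (D2P.adj_mono hLM al) (IntermediateField.adjoin_le_iff.2 ?_))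
      (cld_adj_pow hc hMc halM)
    rintro _ ⟨n, rfl⟩
    exact (D2P.mem_adj_self M al).2 (EW.mem n)
  have halN : al ∉ M := by
    intro h1
    exact hyM ((D2P.adj_le le_rfl h1 : adj M al ≤ M) (hMal hyM'))
  have hady : adj M y = adj M al := TWJ.adj_eq_of_mem p halM (hMal hyM') hyM
  have halb : al ∈ adj M y := by
    rw [hady]
    exact (D2P.mem_adj_self M al).1
  rcases lin_dom p h0 hps hylim hyna halb with h1 | ⟨g, hg, c, hcM, hc0, hgt⟩
  · exact absurd h1 halN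
  have hdst := lin_dst p hps hylim hyna hg hcM hc0 hgt
  set ρa : ℝ := v c + s / p with hρa
  have hafar : ∀ g ∈ L₀, ¬ Gt v (p * ρa) (al ^ p - g ^ p) := by
    intro g hg h1
    refine hdst.1.far ⟨g, hLM hg, ?_⟩
    rw [← sub_pow_char] at h1
    exact (gt_pow_iff (v := v) (N := p) hp.out.pos).1 h1
  -- the coefficient in `F`
  obtain ⟨c', hc', hc'0, hvc', hcc'⟩ := imm_near hiM hcM hc0
  obtain ⟨c₁, hc₁, hc₁0, hvc₁, hcc₁⟩ := imm_near himm hc' hc'0
  rw [hvc'] at hcc₁ hvc₁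
  have hcc : Gt v (v c) (c - c₁) := by
    have := hcc'.add hcc₁
    rwa [sub_add_sub_cancel] at this
  obtain ⟨h, hh, h2⟩ := near_mul hwlim hcc
  set ξ := g + (c - c₁) * h with hξ
  have hξM : ξ ∈ M := add_mem hg (mul_mem (sub_mem hcM (hLM (hFL hc₁))) (hLM hh))
  set l := al - c₁ * w 1 with hl
  have hlp : l ^ p ∈ L₀ := by
    rw [hl, sub_pow_char, mul_pow, hw1]
    exact sub_mem hal (mul_mem (pow_mem (hFL hc₁) p) hx.mem)
  have hlξ : Gt v ρa (l - ξ) := by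
    have h3 : Gt v ρa (c * (y - w 1)) := gt_mul_left c hux
    have h4 := (hgt.add h3).add h2
    have e : al - g - c * y + c * (y - w 1) + (c - c₁) * (w 1 - h) = l - ξ := by
      rw [hl, hξ]
      ring
    rwa [e] at h4
  -- reduction to `L₀(x 1)`
  obtain ⟨a, ha, h3⟩ := hx.tgt.red h0 hc hlp hξM hlξ
  have hxfar : ¬ Nr' v L₀ (r / p) (x 1) := by
    have := (hx.tgt.dst 0).far
    rwa [zero_add, pow_one] at this
  have hxlim : Lim v L₀ (r / p) (x 1) := by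
    have := (hx.tgt.dst 0).near
    rwa [zero_add, pow_one] at this
  have hx1L : x 1 ^ p ∈ L₀ := by
    rw [hx1]
    exact hx.tgt.mem
  rcases lin_dom p h0 ⟨hL₀, hx1L, hxfar⟩ hxlim (na_of_far h0 hV hx1L hxfar) ha with
    h4 | ⟨g₂, hg₂, c₂, hc₂, hc₂0, h4⟩
  · -- no `x 1`
    refine Or.inr (Or.inr ⟨a, h4, c₁ ^ p * w 0, mul_mem (pow_mem hc₁ p) hwF, p * ρa, ?_, hafar⟩)
    have h5 := (gt_pow_iff (v := v) (N := p) hp.out.pos).2 h3
    have e : (l - a) ^ p = al ^ p - a ^ p - c₁ ^ p * w 0 := by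
      rw [hl, sub_pow_char, sub_pow_char, mul_pow, hw1]
      ring
    rwa [e] at h5
  · by_cases hcmp : v c₂ + r / p < ρa
    · -- `x 1` is near to `L₁`
      right
      left
      obtain ⟨h₁, hh₁, h5⟩ := hwlim ((ρa - (v c₂ + r / p)) / 2) (by linarith)
      have h6 : Gt v (v c₂ + r / p) (c₁ * (w 1 - h₁)) := by
        refine Gt.of_ge ((RVal.ge_self (v := v) c₁).mul h5) ?_
        rw [hvc₁]
        linarith
      have h7 : Gt v (v c₂ + r / p) (al - c₁ * h₁ - g₂ - c₂ * x 1) := by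
        have h8 := ((h3.mono hcmp.le).add h6).add h4
        have e : l - a + c₁ * (w 1 - h₁) + (a - g₂ - c₂ * x 1) =
            al - c₁ * h₁ - g₂ - c₂ * x 1 := by
          rw [hl]
          ring
        rwa [e] at h8
      refine ⟨c₂⁻¹ * (al - c₁ * h₁ - g₂), mul_mem (h01 (inv_mem hc₂)) (sub_mem (sub_mem
        (D2P.mem_adj_self L₀ al).1 (h01 (mul_mem (hFL hc₁) hh₁))) (h01 hg₂)), ?_⟩
      have h8 := gt_mul_left c₂⁻¹ h7
      have e : c₂⁻¹ * (al - c₁ * h₁ - g₂ - c₂ * x 1) = c₂⁻¹ * (al - c₁ * h₁ - g₂) - x 1 := by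
        field_simp
      rw [e, v.map_inv hc₂0] at h8
      refine h8.mono (le_of_eq ?_)
      ring
    · push Not at hcmp
      obtain ⟨c₃, hc₃, hc₃0, hvc₃, hcc₃⟩ := imm_near himm hc₂ hc₂0
      obtain ⟨h₂, hh₂, h5⟩ := near_mul hxlim hcc₃
      refine Or.inr (Or.inr ⟨g₂ + (c₂ - c₃) * h₂, add_mem hg₂ (mul_mem (sub_mem hc₂ (hFL hc₃)) hh₂),
        c₁ ^ p * w 0 + c₃ ^ p * x 0, add_mem (mul_mem (pow_mem hc₁ p) hwF)
          (mul_mem (pow_mem hc₃ p) hxF), p * ρa, ?_, hafar⟩)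
      have h6 : Gt v ρa (al - (g₂ + (c₂ - c₃) * h₂) - (c₁ * w 1 + c₃ * x 1)) := by
        have h7 := (h3.add (h4.mono hcmp)).add (h5.mono hcmp)
        have e : l - a + (a - g₂ - c₂ * x 1) + (c₂ - c₃) * (x 1 - h₂) =
            al - (g₂ + (c₂ - c₃) * h₂) - (c₁ * w 1 + c₃ * x 1) := by
          rw [hl]
          ring
        rwa [e] at h7
      have h7 := (gt_pow_iff (v := v) (N := p) hp.out.pos).2 h6
      have e : (al - (g₂ + (c₂ - c₃) * h₂) - (c₁ * w 1 + c₃ * x 1)) ^ p =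
          al ^ p - (g₂ + (c₂ - c₃) * h₂) ^ p - (c₁ ^ p * w 0 + c₃ ^ p * x 0) := by
        rw [sub_pow_char, sub_pow_char, add_pow_char (c₁ * w 1), mul_pow, mul_pow, hw1, hx1]
      rwa [e] at h7

/-! ### The step -/

/-- Some element of `K₀(al)` is near to `x 1`: the exit. -/
theorem exit_near [IsAlgClosed k] {q D : ℕ} (h : TW.Ctx k v q) (hcv : CompleteV v)
    (hLU : ∀ E : IntermediateField k Ω, E.FG → TW.Full v E → Algebra.trdeg k E = (q + D : ℕ) →
      TW.BD p v E → TW.LU p v q E)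
    {K₀ : IntermediateField k Ω} (hK : K₀.FG) (hKf : TW.Full v K₀)
    (htr : Algebra.trdeg k K₀ = (q + D + 1 : ℕ)) (hBDK : TW.BD p v K₀) {al : Ω}
    (hal : al ^ p ∈ K₀) (hBD : TW.BD p v (adj K₀ al)) {F : IntermediateField k Ω} (hF : F.FG)
    (hFf : TW.Full v F) (hFt : Algebra.trdeg k F = (q + D : ℕ)) {y : Ω} {t : ℝ}
    (hy : TL v (clI v F) y t) (hcl : clI v K₀ = cadj v (clI v F) y)
    (hx : Tgt p v (clI v K₀) x r) (hxF : x 0 ∈ clI v F) {u : Ω}
    (hu : u ∈ clI v (adj K₀ al)) (hux : Gt v (r / p) (u - x 1)) : TW.HRone v (adj K₀ al) := by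
  have hp0 : (0 : ℝ) < p := by exact_mod_cast hp.out.pos
  obtain ⟨a, ha, h1⟩ := mem_clI.1 hu (r / p + 1)
  have hax : Gt v (r / p) (a - x 1) := by
    have h2 := (Gt.of_ge h1 (show r / p < r / p + 1 by linarith)).neg.add hux
    rwa [neg_sub, sub_add_sub_cancel] at h2
  have hap : Gt v r (a ^ p - x 0) := by
    have h2 : x (0 + 1) ^ p = x 0 := hx.root 0
    rw [zero_add] at h2
    rw [← h2, ← sub_pow_char]
    have := (gt_pow_iff (v := v) (y := a - x 1) (b := r / p) (N := p) hp.out.pos).2 hax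
    rwa [mul_div_cancel₀ _ hp0.ne'] at this
  have hfar : ∀ g ∈ clI v K₀, ¬ Gt v r (a ^ p - g ^ p) := by
    intro g hg h2
    refine hx.far_pow hg ?_
    have h3 := hap.neg.add h2
    rwa [neg_sub, sub_add_sub_cancel] at h3
  have haK : a ∉ K₀ := fun h2 => hfar a (self_le_clI v K₀ h2) (by rw [sub_self]; exact Gt.zero)
  rw [← TWJ.adj_eq_of_mem p hal ha haK]
  refine TWJ.exit_base p h hcv hLU hK hKf htr hBDK (TWJ.pow_mem_of_adj1 p hal a ha)
    (by rw [TWJ.adj_eq_of_mem p hal ha haK]; exact hBD) hF hFf hFt hy hcl (ν := r) (g := 0)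
    (zero_mem _) hxF ?_ hfar
  rw [zero_pow hp.out.ne_zero, sub_zero]
  exact hap

/-- **The step `K₀ → K₀(al)` for a tight pair of any levels.** -/
theorem tp_step [IsAlgClosed k] {q D : ℕ} (h : TW.Ctx k v q) (hcv : CompleteV v)
    (hLU : ∀ E : IntermediateField k Ω, E.FG → TW.Full v E → Algebra.trdeg k E = (q + D : ℕ) →
      TW.BD p v E → TW.LU p v q E)
    {K₀ : IntermediateField k Ω} (hK : K₀.FG) (hKf : TW.Full v K₀)
    (htr : Algebra.trdeg k K₀ = (q + D + 1 : ℕ)) (hBDK : TW.BD p v K₀) {al : Ω}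
    (hal : al ^ p ∈ K₀) (hBD : TW.BD p v (adj K₀ al)) {F : IntermediateField k Ω} (hF : F.FG)
    (hFf : TW.Full v F) (hFt : Algebra.trdeg k F = (q + D : ℕ)) {y : Ω} {t : ℝ}
    (hy : TL v (clI v F) y t) (hcl : clI v K₀ = cadj v (clI v F) y)
    (hV : ∀ g ∈ VG v (clI v K₀), g / p ∈ VG v (clI v K₀))
    (hx : TP p v (clI v K₀) x w r s) (hxF : x 0 ∈ clI v F) (hwF : w 0 ∈ clI v F) :
    TW.HRone v (adj K₀ al) ∨ TP p v (clI v (adj K₀ al)) x w r s := by
  have hk : Ctx0 k v := h.toCtx0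
  have e : clI v (adj K₀ al) = adj (clI v K₀) al := by
    refine le_antisymm ?_ ?_
    · exact clI_le' (D2P.adj_mono (self_le_clI v K₀) al)
        (cld_adj_pow hcv (cld_clI v K₀) (self_le_clI v K₀ hal))
    · exact D2P.adj_le (clI_mono' fun a ha => (D2P.mem_adj_self K₀ al).2 ha)
        (self_le_clI v _ (D2P.mem_adj_self K₀ al).1)
  have himm : Imm v (clI v F) (clI v K₀) := by
    rw [hcl]
    exact hy.imm
  rcases tp_alt hk hcv (self_le_clI v K₀ hal) himm hV hx hxF hwF with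
    h1 | ⟨u, hu, hux⟩ | ⟨g, hg, e₁, he₁, ν, h1, h2⟩
  · right
    rwa [e]
  · left
    refine exit_near h hcv hLU hK hKf htr hBDK hal hBD hF hFf hFt hy hcl hx.tgt hxF
      (u := u) ?_ hux
    rwa [e]
  · left
    exact TWJ.exit_base p h hcv hLU hK hKf htr hBDK hal hBD hF hFf hFt hy hcl hg he₁ h1 h2

end Pool.Agent.TWC
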