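import Pool.Agent.Lib.TWC.Pair1
import Pool.Agent.Lib.TWC.LinDom
import Pool.Agent.Lib.TWC.TPb
import Pool.Agent.Lib.TWC.JDC

/-!
# TANK W, class C: the generator descends (rows PairRat, PairIrr)

`C` closed, `x` a tight element of `C` of level `r > v x > 0`, `C E_x = E_x⟨t⟩` one floor of level
`s` over `E_x = EW v ⊥ x`. Then the generator can be chosen in `C` (`GenX.exists_mem`), if the
resonances `s - r / p ^ j ∈ v C` are those of the monomials `x_j ^ A`, `p ∤ A`, only; so `C` has a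
tight pair `(x, w)`, of levels `r, s`, which generates `C E_x` (`exists_tp_gen`).
-/

set_option autoImplicit false

open Polynomial

namespace Pool.Agent.TWC

open Pool.Agent.H15JM (RVal)
open Pool.Agent.LU1 (VPos adj)
open Pool.Agent.D2 (Ctx0)
open Pool.Agent.D2P (clI mem_clI)
open Pool.Agent.TWM Pool.Agent.TWM.C
open Pool.Agent.TWS (VG)

universe u

variable {k Ω : Type u} [Field k] [Field Ω] [Algebra k Ω] {v : RVal Ω}
  {C C' : IntermediateField k Ω}

/-! ### Second order expansions of monomials -/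

theorem ge_natCast (h0 : Ctx0 k v) (n : ℕ) : v.Ge 0 (n : Ω) := by
  have := h0.ge (n : k)
  rwa [map_natCast] at this

theorem ge_one_add_pow (h0 : Ctx0 k v) {u : Ω} {e : ℝ} (he : 0 ≤ e) (hu : v.Ge e u) (n : ℕ) :
    v.Ge (2 * e) ((1 + u) ^ n - 1 - n * u) := by
  induction n with
  | zero => simpa using (RVal.Ge.zero : v.Ge (2 * e) (0 : Ω))
  | succ n ih =>
    have e1 : (1 + u) ^ (n + 1) - 1 - ((n + 1 : ℕ) : Ω) * u =
        (1 + u) * ((1 + u) ^ n - 1 - n * u) + n * (u * u) := by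
      push_cast
      ring
    rw [e1]
    have h1 : v.Ge 0 (1 + u) := by
      refine RVal.Ge.add ?_ (hu.mono he)
      have := ge_natCast (v := v) h0 1
      rwa [Nat.cast_one] at this
    refine ((h1.mul ih).mono (by linarith)).add
      (((ge_natCast (v := v) h0 n).mul (hu.mul hu)).mono (by linarith))

theorem val_one_add {u : Ω} (hu : Gt v 0 u) : (1 + u : Ω) ≠ 0 ∧ v (1 + u) = 0 := by
  have h1 : Gt v (v (1 : Ω)) ((1 : Ω) - (1 + u)) := by
    rw [v.map_one, show (1 : Ω) - (1 + u) = -u by ring]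
    exact hu.neg
  obtain ⟨h2, h3⟩ := Gt.val_eq one_ne_zero h1
  exact ⟨h2, by rw [h3, v.map_one]⟩

theorem ge_one_add_zpow (h0 : Ctx0 k v) {u : Ω} {e : ℝ} (he : 0 < e) (hu : v.Ge e u) (A : ℤ) :
    v.Ge (2 * e) ((1 + u) ^ A - 1 - A * u) := by
  obtain ⟨n, rfl | rfl⟩ := A.eq_nat_or_neg
  · rw [zpow_natCast, Int.cast_natCast]
    exact ge_one_add_pow h0 he.le hu n
  · obtain ⟨h1, h2⟩ := val_one_add (Gt.of_ge hu he)
    have h3 := ge_one_add_pow h0 he.le hu n
    have h4 : v.Ge 0 (((1 + u) ^ n)⁻¹) := fun _ => by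
      rw [v.map_inv (pow_ne_zero n h1), v.map_pow h1, h2, mul_zero, neg_zero]
    have e1 : (1 + u) ^ (-(n : ℤ)) - 1 - ((-(n : ℤ) : ℤ) : Ω) * u =
        ((1 + u) ^ n)⁻¹ * ((n : Ω) * (n * (u * u)) - (1 - n * u) *
          ((1 + u) ^ n - 1 - n * u)) := by
      rw [zpow_neg, zpow_natCast, Int.cast_neg, Int.cast_natCast]
      have h5 := pow_ne_zero n h1
      field_simp
      ring
    rw [e1]
    have h6 := ge_natCast (v := v) h0 n
    have h7 : v.Ge 0 (1 - (n : Ω) * u) := by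
      refine RVal.Ge.sub ?_ ((h6.mul hu).mono (by linarith))
      have := ge_natCast (v := v) h0 1
      rwa [Nat.cast_one] at this
    refine (h4.mul (RVal.Ge.sub ((h6.mul (h6.mul (hu.mul hu))).mono ?_) ((h7.mul h3).mono ?_))).mono
      (le_of_eq (zero_add _).symm)
    · linarith
    · linarith

/-- Monomials at `X` and at `η`: the expansion of order two. -/
theorem ge_zpow_lin (h0 : Ctx0 k v) {X η : Ω} (hη : η ≠ 0) {d : ℝ} (hd : v η < d)
    (h : v.Ge d (X - η)) (A : ℤ) :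
    v.Ge ((A - 2) * v η + 2 * d) (X ^ A - η ^ A - A * η ^ (A - 1) * (X - η)) := by
  have h1 : v.Ge (d - v η) ((X - η) / η) := by
    have := h.mul (fun _ => by rw [v.map_inv hη] : v.Ge (-v η) η⁻¹)
    rw [div_eq_mul_inv]
    exact this.mono (by linarith)
  have h2 := ge_one_add_zpow (v := v) h0 (by linarith : 0 < d - v η) h1 A
  have e1 : 1 + (X - η) / η = X / η := by
    field_simp
    ring
  rw [e1] at h2
  have h3 : v.Ge (A * v η) (η ^ A) := fun _ => by rw [v.map_zpow hη]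
  have e2 : X ^ A - η ^ A - A * η ^ (A - 1) * (X - η) =
      η ^ A * ((X / η) ^ A - 1 - A * ((X - η) / η)) := by
    rw [div_zpow, zpow_sub_one₀ hη]
    have h4 := zpow_ne_zero A hη
    field_simp
  rw [e2]
  exact (h3.mul h2).mono (by linarith)

section P

variable {p : ℕ} [hp : Fact p.Prime] [CharP k p] [CharP Ω p]

omit hp [CharP Ω p] in
/-- **The resonance is harmless**: `c X` with `v c = v (X ^ (A - 1))`, `p ∤ A`, is the sum of a
multiple of `X ^ A`, an element of `C'` and a small element. -/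
theorem res_lin [IsAlgClosed Ω] (h0 : Ctx0 k v) {X c : Ω} {ρ s : ℝ} {A : ℤ} (hX : X ≠ 0) (hc0 : c ≠ 0)
    (hρ : v X < ρ) (hlim : Lim v C' ρ X) (hcs : v c + ρ = s) (hcA : v c = (A - 1) * v X)
    (hA : ¬ (p : ℤ) ∣ A) (hc : c ∈ C') :
    ∃ γ : k, ∃ h ∈ C', Gt v s (c * X - algebraMap k Ω γ * X ^ A - h) := by
  have hA0 : (A : k) ≠ 0 := by
    rw [Ne, CharP.intCast_eq_zero_iff k p]
    exact hA
  obtain ⟨κ, -, hκ⟩ := h0.res (c / X ^ (A - 1)) (div_ne_zero hc0 (zpow_ne_zero _ hX)) (by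
    rw [v.map_div hc0 (zpow_ne_zero _ hX), v.map_zpow hX, hcA]
    push_cast
    ring)
  have hκ' : Gt v 0 (c / X ^ (A - 1) - algebraMap k Ω κ) := hκ
  obtain ⟨g, hg0, hg⟩ := exists_ge_of_gt hκ'
  obtain ⟨ε, hε, hε1, hε2⟩ : ∃ ε : ℝ, 0 < ε ∧ ε < g ∧ 2 * ε < ρ - v X := by
    refine ⟨min (g / 2) ((ρ - v X) / 4), lt_min (by linarith) (by linarith), ?_, ?_⟩
    · linarith [min_le_left (g / 2) ((ρ - v X) / 4)]
    · linarith [min_le_right (g / 2) ((ρ - v X) / 4)]
  obtain ⟨η, hη, h1⟩ := hlim ε hε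
  have h2 : Gt v (v X) (X - η) := Gt.of_ge h1 (by linarith)
  obtain ⟨hη0, hvη⟩ := Gt.val_eq hX h2
  have h3 := ge_zpow_lin (v := v) h0 hη0 (by rw [hvη]; linarith) h1 A
  rw [hvη] at h3
  -- the coefficient
  have h4 : v.Ge (v c + g) (c - algebraMap k Ω κ * X ^ (A - 1)) := by
    have e : c - algebraMap k Ω κ * X ^ (A - 1) =
        (c / X ^ (A - 1) - algebraMap k Ω κ) * X ^ (A - 1) := by
      have := zpow_ne_zero (A - 1) hX
      field_simp
    rw [e]
    have h5 : v.Ge (v c) (X ^ (A - 1)) := fun _ => by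
      rw [v.map_zpow hX, hcA]
      push_cast
      exact le_rfl
    exact (hg.mul h5).mono (by linarith)
  have h5 : v.Ge (v c + (ρ - ε - v X)) (X ^ (A - 1) - η ^ (A - 1)) := by
    have := ge_zpow_sub (v := v) hη0 hX hvη.symm h1 (A - 1)
    refine this.mono ?_
    rw [hvη, hcA]
    push_cast
    linarith
  have h6 : Gt v (v c + ε) (c - algebraMap k Ω κ * η ^ (A - 1)) := by
    have e : c - algebraMap k Ω κ * η ^ (A - 1) = (c - algebraMap k Ω κ * X ^ (A - 1)) +
        algebraMap k Ω κ * (X ^ (A - 1) - η ^ (A - 1)) := by ring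
    rw [e]
    exact (Gt.of_ge h4 (by linarith)).add (Gt.of_ge ((h0.ge κ).mul h5) (by linarith))
  refine ⟨κ / A, c * η - algebraMap k Ω (κ / A) * η ^ A, sub_mem (mul_mem hc hη)
    (mul_mem (C'.algebraMap_mem _) (zpow_mem hη A)), ?_⟩
  have e : c * X - algebraMap k Ω (κ / A) * X ^ A - (c * η - algebraMap k Ω (κ / A) * η ^ A) =
      (c - algebraMap k Ω κ * η ^ (A - 1)) * (X - η) -
        algebraMap k Ω (κ / A) * (X ^ A - η ^ A - A * η ^ (A - 1) * (X - η)) := by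
    have h7 : algebraMap k Ω (κ / A) * (A : Ω) = algebraMap k Ω κ := by
      rw [← map_intCast (algebraMap k Ω) A, ← map_mul, div_mul_cancel₀ _ hA0]
    rw [← h7]
    ring
  rw [e]
  have h7 : Gt v s ((c - algebraMap k Ω κ * η ^ (A - 1)) * (X - η)) := by
    refine (h6.mul_ge h1).mono ?_
    linarith
  have h8 : Gt v s (algebraMap k Ω (κ / A) *
      (X ^ A - η ^ A - A * η ^ (A - 1) * (X - η))) := by
    refine Gt.of_ge ((h0.ge (κ / A)).mul h3) ?_
    rw [← hcs, hcA]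
    linarith
  exact h7.sub h8

/-! ### The descent of the generator -/

/-- `C E_x = E_x⟨t⟩`, one floor of level `s`. -/
structure GenX (v : RVal Ω) (C : IntermediateField k Ω) (x : ℕ → Ω) (t : Ω) (s : ℝ) : Prop where
  tl : TL v (EW v (⊥ : IntermediateField k Ω) x) t s
  eq : EW v C x = cadj v (EW v (⊥ : IntermediateField k Ω) x) t

variable {x : ℕ → Ω} {t u : Ω} {r s : ℝ}

omit [CharP k p] [CharP Ω p] hp in
theorem GenX.near [IsAlgClosed Ω] (h : GenX v C x t s) (hu : u ∈ EW v C x) (hut : Gt v s (u - t)) :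
    GenX v C x u s where
  tl := h.tl.congr hut
  eq := by
    rw [h.eq] at hu ⊢
    exact (h.tl.cadj_congr hu hut).symm

theorem GenX.sub (h : GenX v C x t s) {e : Ω} (he : e ∈ EW v (⊥ : IntermediateField k Ω) x) :
    GenX v C x (t - e) s where
  tl := h.tl.sub_mem he
  eq := by rw [h.eq, cadj_sub_mem he]

omit hp [CharP k p] [CharP Ω p] in
theorem Tgt.lim_all (h : Tgt p v C x r) (n : ℕ) : Lim v C (r / p ^ n) (x n) := by
  cases n with
  | zero => exact fun ε hε => ⟨x 0, h.mem, by rw [sub_self]; exact RVal.Ge.zero⟩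
  | succ n => exact (h.dst n).near

omit [CharP k p] [CharP Ω p] in
theorem alg_root (hr : ∀ n, x (n + 1) ^ p = x n) (h0 : x 0 ∈ C) (n : ℕ) :
    IsAlgebraic C (x n) := by
  have h1 := root_pow_add hr 0 n
  rw [zero_add] at h1
  refine IsAlgebraic.of_pow (pow_pos hp.out.pos n) ?_
  rw [h1]
  exact isAlgebraic_algebraMap (⟨_, h0⟩ : C)

omit [CharP k p] [CharP Ω p] hp in
theorem root_shift (hr : ∀ n, x (n + 1) ^ p = x n) (j n : ℕ) :
    (fun n => x (n + j)) (n + 1) ^ p = (fun n => x (n + j)) n := by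
  have := hr (n + j)
  rwa [show n + j + 1 = n + 1 + j by ring] at this

omit [CharP k p] in
/-- `x_j, x_(j+1), ..` is tight in `C(x_j)`. -/
theorem Tgt.shift [IsAlgClosed Ω] (hc : CompleteV v) (h : Tgt p v C x r) (j : ℕ) :
    Tgt p v (adj C (x j)) (fun n => x (n + j)) (r / p ^ j) where
  cld := cld_adj hc h.cld (alg_root h.root h.mem j)
  mem := by
    show x (0 + j) ∈ _
    rw [zero_add]
    exact (D2P.mem_adj_self _ _).1
  root := root_shift h.root j
  dst := by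
    refine dst_of_one (x := fun n => x (n + j)) (root_shift h.root j) ?_ fun n => ?_
    · have := h.snd.far j
      rwa [pow_succ, ← div_div, add_comm j 1] at this
    · have := (h.lim_all (n + j)).mono (D2P.mem_adj_self C (x j)).2
      rwa [pow_add, mul_comm, ← div_div] at this

omit hp [CharP k p] [CharP Ω p] in
theorem EW_shift [IsAlgClosed Ω] (hr : ∀ n, x (n + 1) ^ p = x n) (B : IntermediateField k Ω)
    (j : ℕ) : EW v B (fun n => x (n + j)) = EW v B x := by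
  induction j with
  | zero => rfl
  | succ j ih =>
    rw [← ih]
    have := EW.shift (v := v) (P := B) p (u := fun n => x (n + j)) (root_shift hr j)
    rw [← this]
    congr 1
    funext n
    congr 1
    ring

omit hp [CharP k p] [CharP Ω p] in
theorem EW_adj [IsAlgClosed Ω] (hr : ∀ n, x (n + 1) ^ p = x n) (B : IntermediateField k Ω)
    (j : ℕ) : EW v (adj B (x j)) (fun n => x (n + j)) = EW v B x := by
  rw [EW_shift hr]
  refine le_antisymm (clI_le' (sup_le (D2P.adj_le EW.le (EW.mem j))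
    (IntermediateField.adjoin_le_iff.2 ?_)) EW.cld) (EW.mono (D2P.mem_adj_self B (x j)).2 x)
  rintro _ ⟨n, rfl⟩
  exact EW.mem n

omit hp [CharP k p] [CharP Ω p] in
theorem vg_div_pow (hV : ∀ g ∈ VG v C, g / p ∈ VG v C) (n : ℕ) {g : ℝ} (hg : g ∈ VG v C) :
    g / p ^ n ∈ VG v C := by
  induction n with
  | zero => rwa [pow_zero, div_one]
  | succ n ih =>
    have := hV _ ih
    rwa [div_div, ← pow_succ] at this

omit [CharP k p] [CharP Ω p] in
theorem vg_of_pow (hV : ∀ g ∈ VG v C, g / p ∈ VG v C) {n : ℕ} {a : Ω} (ha0 : a ≠ 0)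
    (ha : a ^ p ^ n ∈ C) : v a ∈ VG v C := by
  have hp0 : (0 : ℝ) < (p : ℝ) ^ n := pow_pos (by exact_mod_cast hp.out.pos) n
  have h1 := vg_div_pow hV n (VG.self (v := v) ha (pow_ne_zero _ ha0))
  rw [v.map_pow ha0] at h1
  push_cast at h1
  rwa [mul_div_cancel_left₀ _ hp0.ne'] at h1

/-- One step of the descent. -/
theorem GenX.desc1 [IsAlgClosed Ω] [PerfectRing k p] (h0 : Ctx0 k v) (hc : CompleteV v)
    (hT : Tgt p v C x r) (hx0 : x 0 ≠ 0) (hv : 0 < v (x 0)) (hvr : v (x 0) < r)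
    (hV : ∀ g ∈ VG v C, g / p ∈ VG v C) {j : ℕ}
    (hres : s - r / p ^ (j + 1) ∈ VG v C →
      ∃ A : ℤ, ¬ (p : ℤ) ∣ A ∧ s - r / p ^ (j + 1) = (A - 1) * (v (x 0) / p ^ (j + 1)))
    (h : GenX v C x t s) (ht : t ∈ adj C (x (j + 1))) :
    ∃ t' ∈ adj C (x j), GenX v C x t' s := by
  have hp0 : (0 : ℝ) < p := by exact_mod_cast hp.out.pos
  set X := x (j + 1) with hX
  set C' := adj C (x j) with hC'
  set M := adj C X with hM
  have hXp : X ^ p = x j := hT.root j
  have hxj : x j ∈ C' := (D2P.mem_adj_self _ _).1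
  have hCC' : C ≤ C' := (D2P.mem_adj_self C (x j)).2
  have hCM : C ≤ M := (D2P.mem_adj_self C X).2
  have hMC' : M ≤ adj C' X := D2P.adj_le (hCC'.trans (D2P.mem_adj_self C' X).2)
    (D2P.mem_adj_self C' X).1
  have hC'c : Cld v C' := cld_adj hc hT.cld (alg_root hT.root hT.mem j)
  have hXn : X ≠ 0 := root_ne_zero hT.root hx0 (j + 1)
  have hvX : v X = v (x 0) / p ^ (j + 1) := val_rt hT.root hx0 (j + 1)
  have hpj : (0 : ℝ) < (p : ℝ) ^ (j + 1) := pow_pos hp0 _
  -- the pair over `M`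
  have hTM := hT.shift hc (j + 1)
  have hx0' : (fun n => x (n + (j + 1))) 0 ≠ 0 := by
    show x (0 + (j + 1)) ≠ 0
    rw [zero_add]
    exact hXn
  have hv' : 0 < v ((fun n => x (n + (j + 1))) 0) := by
    show 0 < v (x (0 + (j + 1)))
    rw [zero_add, ← hX, hvX]
    exact div_pos hv hpj
  have hEM : EW v (adj C (x (j + 1))) (fun n => x (n + (j + 1))) = EW v C x :=
    EW_adj hT.root C (j + 1)
  have hEb : EW v (⊥ : IntermediateField k Ω) (fun n => x (n + (j + 1))) = EW v ⊥ x :=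
    EW_shift hT.root ⊥ (j + 1)
  obtain ⟨w, hwM, hw, hw0, hw1, hw2, hw3, hw4⟩ := exists_pairT h0 hc hTM hx0' hv' (w := t)
    (s := s) ht (by rw [hEb]; exact h.tl) (by rw [hEM, hEb]; exact h.eq)
  rw [hEb] at hw1 hw2
  rw [hEM] at hw2
  have hG : GenX v C x (w 0) s := ⟨hw1, hw2⟩
  have hpow : ∀ g ∈ adj C' X, g ^ p ∈ C' := TWJ.pow_mem_of_adj1 p (by rw [hXp]; exact hxj)
  -- `w 0` is near to `C'`
  have hlim : Lim v C' s (w 0) := by
    intro ε hε
    obtain ⟨g, hg, h1⟩ := hw3 1 (ε / p) (by positivity)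
    refine ⟨g ^ p, hpow g (hMC' hg), ?_⟩
    have e : w 0 - g ^ p = (w 1 - g) ^ p := by
      rw [sub_pow_char, ← hw 0]
    rw [e]
    refine (ge_pow h1 p).mono (le_of_eq ?_)
    rw [pow_one]
    field_simp
  -- the linear part
  set ρ := r / p ^ (j + 1) with hρ
  have hfar : ¬ Nr' v C' ρ X := hT.snd.far j
  have hXlim : Lim v C ρ X := hT.lim_all (j + 1)
  have hpC : ∀ g ∈ C', g ^ p ^ j ∈ C := fun g hg => pow_mem_of_adj hT.root hT.mem j hg
  have hVC' : VG v C' ≤ VG v C := by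
    rintro _ ⟨a, ha, ha0, rfl⟩
    exact vg_of_pow hV ha0 (hpC a ha)
  have hVC : ∀ g ∈ VG v C', g / p ∈ VG v C' := fun g hg => VG.mono hCC' (hV g (hVC' hg))
  have hC'E : C' ≤ EW v C x := D2P.adj_le EW.le (EW.mem j)
  have hs : PStep p v C' X ρ := ⟨hC'c, by rw [hXp]; exact hxj, hfar⟩
  have hna : ¬ Nr v C' ρ X := na_of_far h0 hVC (by rw [hXp]; exact hxj) hfar
  rcases lin_dom p h0 hs (hXlim.mono hCC') hna (hMC' hwM) with h1 | ⟨g, hg, c, hcm, hc0, h1⟩
  · exact ⟨w 0, h1, hG⟩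
  rcases lt_trichotomy (v c + ρ) s with h2 | h2 | h2
  · -- too far
    exfalso
    obtain ⟨h3, -⟩ := lin_dst p hs (hXlim.mono hCC') hna hg hcm hc0 h1
    obtain ⟨a, ha, h4⟩ := hlim ((s - (v c + ρ)) / 2) (by linarith)
    exact h3.far ⟨a, ha, Gt.of_ge h4 (by linarith)⟩
  · -- the resonance
    have h3 : s - ρ = v c := by linarith
    obtain ⟨A, hA, hA'⟩ := hres (by
      rw [h3]
      exact hVC' (VG.self hcm hc0))
    rw [h3, ← hvX] at hA'
    have h4 : v X < ρ := by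
      rw [hvX, hρ]
      exact div_lt_div_of_pos_right hvr hpj
    obtain ⟨γ, h', hh', h5⟩ := res_lin h0 hXn hc0 h4 (hXlim.mono hCC') h2 hA' hA hcm
    have h6 : algebraMap k Ω γ * X ^ A ∈ EW v (⊥ : IntermediateField k Ω) x :=
      mul_mem (IntermediateField.algebraMap_mem _ _) (zpow_mem (EW.mem (j + 1)) A)
    refine ⟨g + h', add_mem hg hh', (hG.sub h6).near (hC'E (add_mem hg hh')) ?_⟩
    have e : g + h' - (w 0 - algebraMap k Ω γ * X ^ A) =
        -(w 0 - g - c * X) - (c * X - algebraMap k Ω γ * X ^ A - h') := by ring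
    rw [e]
    exact ((h1.mono h2.ge).neg).sub h5
  · -- near
    obtain ⟨η, hη, h3⟩ := hXlim ((v c + ρ - s) / 2) (by linarith)
    refine ⟨g + c * η, add_mem hg (mul_mem hcm (hCC' hη)), hG.near
      (hC'E (add_mem hg (mul_mem hcm (hCC' hη)))) ?_⟩
    · have e : g + c * η - w 0 = -(w 0 - g - c * X) - c * (X - η) := by ring
      rw [e]
      exact ((h1.mono h2.le).neg).sub (Gt.of_ge ((RVal.ge_self (v := v) c).mul h3) (by linarith))

/-- The resonances: `s - r / p ^ j` is the value of an element of `C` only if it is that of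
`x_j ^ (A - 1)`, `p ∤ A`. -/
def Res (p : ℕ) (v : RVal Ω) (C : IntermediateField k Ω) (V r s : ℝ) : Prop :=
  ∀ j : ℕ, s - r / p ^ (j + 1) ∈ VG v C →
    ∃ A : ℤ, ¬ (p : ℤ) ∣ A ∧ s - r / p ^ (j + 1) = (A - 1) * (V / p ^ (j + 1))

/-- **The generator descends into `C`.** -/
theorem GenX.exists_mem [IsAlgClosed Ω] [PerfectRing k p] (h0 : Ctx0 k v) (hc : CompleteV v)
    (hT : Tgt p v C x r) (hx0 : x 0 ≠ 0) (hv : 0 < v (x 0)) (hvr : v (x 0) < r)
    (hV : ∀ g ∈ VG v C, g / p ∈ VG v C) (hres : Res p v C (v (x 0)) r s) (h : GenX v C x t s) :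
    ∃ t' ∈ C, GenX v C x t' s := by
  have key : ∀ j t, t ∈ adj C (x j) → GenX v C x t s → ∃ t' ∈ C, GenX v C x t' s := by
    intro j
    induction j with
    | zero =>
      intro t ht h
      exact ⟨t, D2P.adj_le le_rfl hT.mem ht, h⟩
    | succ j ih =>
      intro t ht h
      obtain ⟨t', ht', h'⟩ := h.desc1 h0 hc hT hx0 hv hvr hV (hres j) ht
      exact ih t' ht' h'
  have h1 : t ∈ EW v C x := by
    rw [h.eq]
    exact self_mem_cadj v _ t
  obtain ⟨n, g, hg, h2⟩ := EW.near_adj p hT.root h1 (s + 1)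
  refine key n g hg (h.near (D2P.adj_le EW.le (EW.mem n) hg) ?_)
  have e : g - t = -(t - g) := by ring
  rw [e]
  exact (Gt.of_ge h2 (by linarith)).neg

/-- **The tight pair** `(x, w)`, `C E_x = E_x⟨w⟩`. -/
theorem GenX.exists_tp [IsAlgClosed Ω] [PerfectRing k p] (h0 : Ctx0 k v) (hc : CompleteV v)
    (hT : Tgt p v C x r) (hx0 : x 0 ≠ 0) (hv : 0 < v (x 0)) (hvr : v (x 0) < r)
    (hV : ∀ g ∈ VG v C, g / p ∈ VG v C) (hres : Res p v C (v (x 0)) r s) (h : GenX v C x t s) :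
    ∃ w : ℕ → Ω, TP p v C x w r s ∧ GenX v C x (w 0) s := by
  obtain ⟨t', ht', h'⟩ := h.exists_mem h0 hc hT hx0 hv hvr hV hres
  obtain ⟨w, hw0, hw, -, hw1, hw2, hw3, hw4⟩ := exists_pairT h0 hc hT hx0 hv ht' h'.tl h'.eq
  exact ⟨w, ⟨hT, hw0, hw, hw4, hw3⟩, hw1, hw2⟩

omit hp [CharP k p] [CharP Ω p] in
/-- No resonance for irrational levels. -/
theorem Res.of_not {V : ℝ} (h : ∀ j : ℕ, s - r / p ^ (j + 1) ∉ VG v C) : Res p v C V r s :=
  fun j hj => absurd hj (h j)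

omit [CharP k p] [CharP Ω p] in
/-- **The resonances for rational levels**: `s = (m / n) V`, `r = ((n + a) / n) V`, `n` and `a`
prime to `p`, the values of `C` in `ℤ[1/p] V`. -/
theorem Res.of_rat {V : ℝ} (hV0 : 0 < V) (hVC : ∀ g ∈ VG v C, ∃ (i : ℕ) (b : ℤ), p ^ i * g = b * V)
    {n : ℕ} {a m : ℤ} (hn : n ≠ 0) (hpn : ¬ p ∣ n) (ha : ¬ (p : ℤ) ∣ a)
    (hs : n * s = m * V) (hr : n * r = (n + a) * V) : Res p v C V r s := by
  intro j hj
  have hp0 : (0 : ℝ) < p := by exact_mod_cast hp.out.pos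
  have hpj : (0 : ℝ) < (p : ℝ) ^ (j + 1) := pow_pos hp0 _
  have hn0 : (0 : ℝ) < n := by exact_mod_cast Nat.pos_of_ne_zero hn
  obtain ⟨i, b, h1⟩ := hVC _ hj
  have hpi : (0 : ℝ) < (p : ℝ) ^ i := pow_pos hp0 _
  -- `n b p ^ (j + 1) = p ^ i (m p ^ (j + 1) - (n + a))`
  have h2 : (n : ℝ) * b * p ^ (j + 1) = p ^ i * (m * p ^ (j + 1) - (n + a)) := by
    have h3 : (n : ℝ) * (p ^ i * (s - r / p ^ (j + 1))) * p ^ (j + 1) =
        p ^ i * (n * s * p ^ (j + 1) - n * r) := by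
      field_simp
    rw [h1, hs, hr] at h3
    have h4 : ((n : ℝ) * b * p ^ (j + 1) - p ^ i * (m * p ^ (j + 1) - (n + a))) * V = 0 := by
      linear_combination h3
    rcases mul_eq_zero.1 h4 with h5 | h5
    · linarith
    · exact absurd h5 hV0.ne'
  have h3 : (n : ℤ) * b * p ^ (j + 1) = p ^ i * (m * p ^ (j + 1) - (n + a)) := by
    exact_mod_cast h2
  have hcop : IsCoprime ((n : ℤ)) ((p : ℤ) ^ i) := by
    have h4 : Nat.Coprime n p := (Nat.Coprime.symm ((Nat.Prime.coprime_iff_not_dvd hp.out).2 hpn))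
    exact (Nat.isCoprime_iff_coprime.2 h4).pow_right
  have h4 : (n : ℤ) ∣ m * p ^ (j + 1) - (n + a) := by
    refine hcop.dvd_of_dvd_mul_left ?_
    rw [← h3, mul_assoc]
    exact dvd_mul_right _ _
  obtain ⟨A', hA'⟩ := h4
  refine ⟨A' + 1, ?_, ?_⟩
  · intro h5
    have h6 : (n : ℤ) * (A' + 1) = m * p ^ (j + 1) - a := by linear_combination -hA'
    have h7 : (p : ℤ) ∣ a := by
      have h8 : (p : ℤ) ∣ n * (A' + 1) := Dvd.dvd.mul_left h5 _
      rw [h6] at h8
      have h9 : (p : ℤ) ∣ m * p ^ (j + 1) := Dvd.dvd.mul_left (dvd_pow_self _ (Nat.succ_ne_zero j)) _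
      have := (dvd_sub h9 h8)
      rwa [sub_sub_cancel] at this
    exact ha h7
  · have h5 : (m : ℝ) * p ^ (j + 1) - (n + a) = n * A' := by exact_mod_cast hA'
    have h6 : n * (s - r / p ^ (j + 1)) = n * (A' * (V / p ^ (j + 1))) := by
      have h7 : n * (s - r / p ^ (j + 1)) = (n * s * p ^ (j + 1) - n * r) / p ^ (j + 1) := by
        field_simp
      rw [h7, hs, hr]
      have h8 : (m : ℝ) * V * p ^ (j + 1) - (n + a) * V = (m * p ^ (j + 1) - (n + a)) * V := by ring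
      rw [h8, h5]
      ring
    have h7 := mul_left_cancel₀ hn0.ne' h6
    rw [h7]
    push_cast
    ring

end P

end Pool.Agent.TWC
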