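import Pool.Agent.Lib.TWC.TPa

/-!
# TANK W, class C: tight pairs of any level, powers of the letter

`t n` the roots of `t 0 ∈ L`, `m` an integer prime to `p`. The relative distances of `t n` and of
`t n ^ m` to `L` are the same.

* `rel_ge`: `z ^ m` and `c ^ m`, `c` near to `z`;
* `lim_rel`, `nr'_rel`: relative distances of `z` and `c₀ z ^ m`;
* `Tgt.of_zpow`, `Tgt.zpow`: `t ^ m` is tight of level `r` if and only if `t` is tight of level
  `r - m v(t 0) + v(t 0)`;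
* `TP.of_zpow`, `TP.zpow`: the same for pairs.
-/

set_option autoImplicit false
set_option linter.unusedSectionVars false

open Polynomial

namespace Pool.Agent.TWC

open Pool.Agent.H15JM (RVal)
open Pool.Agent.LU1 (VPos adj)
open Pool.Agent.D2 (Ctx0)
open Pool.Agent.D2P (clI mem_clI)
open Pool.Agent.TWM

universe u

variable {k Ω : Type u} [Field k] [Field Ω] [Algebra k Ω] {v : RVal Ω}
  {B L : IntermediateField k Ω}

/-! ### Units near to `1` -/

/-- `u` is near to `1`. -/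
def U1 (v : RVal Ω) (δ : ℝ) (u : Ω) : Prop := v.Ge δ (u - 1)

theorem U1.val {δ : ℝ} (hδ : 0 < δ) {u : Ω} (h : U1 v δ u) : u ≠ 0 ∧ v u = 0 := by
  have h1 : Gt v (v (1 : Ω)) (1 - u) := by
    rw [v.map_one, ← neg_sub]
    exact (Gt.of_ge h hδ).neg
  obtain ⟨h2, h3⟩ := Gt.val_eq (one_ne_zero) h1
  exact ⟨h2, by rw [h3, v.map_one]⟩

theorem U1.one (δ : ℝ) : U1 v δ (1 : Ω) := by
  rw [U1, sub_self]
  exact RVal.Ge.zero

theorem U1.mul {δ : ℝ} (hδ : 0 < δ) {u u' : Ω} (h : U1 v δ u) (h' : U1 v δ u') :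
    U1 v δ (u * u') := by
  obtain ⟨h1, h2⟩ := h.val hδ
  have h3 : v.Ge 0 u := fun _ => by rw [h2]
  have h4 := (h3.mul h').add (h.mono (show (0 : ℝ) + δ ≤ δ by linarith))
  have e : u * (u' - 1) + (u - 1) = u * u' - 1 := by ring
  rw [e, zero_add] at h4
  exact h4

theorem U1.inv {δ : ℝ} (hδ : 0 < δ) {u : Ω} (h : U1 v δ u) : U1 v δ u⁻¹ := by
  obtain ⟨h1, h2⟩ := h.val hδ
  have h3 : v.Ge 0 u⁻¹ := fun _ => by rw [v.map_inv h1, h2, neg_zero]
  have h4 := (h3.mul h).neg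
  have e : -(u⁻¹ * (u - 1)) = u⁻¹ - 1 := by
    field_simp
    ring
  rw [e, zero_add] at h4
  exact h4

theorem U1.zpow {δ : ℝ} (hδ : 0 < δ) {u : Ω} (h : U1 v δ u) (m : ℤ) : U1 v δ (u ^ m) := by
  have h1 : ∀ n : ℕ, U1 v δ (u ^ n) := by
    intro n
    induction n with
    | zero => rw [pow_zero]; exact U1.one δ
    | succ n ih => rw [pow_succ]; exact ih.mul hδ h
  obtain ⟨n, rfl | rfl⟩ := m.eq_nat_or_neg
  · rw [zpow_natCast]
    exact h1 n
  · rw [zpow_neg, zpow_natCast]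
    exact (h1 n).inv hδ

/-- `z ^ m` and `c ^ m`, `c` near to `z`. -/
theorem rel_ge {z c : Ω} (m : ℤ) {δ : ℝ} (hz : z ≠ 0) (hδ : 0 < δ)
    (h : v.Ge (v z + δ) (z - c)) : v.Ge (v (z ^ m) + δ) (z ^ m - c ^ m) := by
  have h1 : U1 v δ (c / z) := by
    have h2 := (h.mul (RVal.ge_self (v := v) z⁻¹)).neg
    rw [v.map_inv hz] at h2
    have e : -((z - c) * z⁻¹) = c / z - 1 := by
      field_simp
      ring
    rw [e] at h2
    exact h2.mono (by linarith)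
  have h2 := (h1.zpow hδ m)
  rw [U1, div_zpow] at h2
  have hzm : z ^ m ≠ 0 := zpow_ne_zero m hz
  have h3 := ((RVal.ge_self (v := v) (z ^ m)).mul h2).neg
  have e : -(z ^ m * (c ^ m / z ^ m - 1)) = z ^ m - c ^ m := by
    field_simp
    ring
  rwa [e] at h3

/-- Relative distances. -/
theorem lim_rel {z z' c₀ : Ω} {m : ℤ} {δ : ℝ} (hz : z ≠ 0) (hc₀ : c₀ ∈ B) (hc0 : c₀ ≠ 0)
    (hz' : z' = c₀ * z ^ m) (hδ : 0 < δ) (h : Lim v B (v z + δ) z) : Lim v B (v z' + δ) z' := by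
  intro ε hε
  obtain ⟨a, ha, h1⟩ := h (min ε (δ / 2)) (by positivity)
  refine ⟨c₀ * a ^ m, mul_mem hc₀ (zpow_mem ha m), ?_⟩
  have h2 : 0 < δ - min ε (δ / 2) := by
    have := min_le_right ε (δ / 2)
    linarith
  have h3 := rel_ge m hz h2 (h1.mono (by linarith))
  have h4 := (RVal.ge_self (v := v) c₀).mul h3
  rw [hz', v.map_mul hc0 (zpow_ne_zero m hz), ← mul_sub]
  refine h4.mono ?_
  have := min_le_left ε (δ / 2)
  linarith

/-- Relative distances. -/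
theorem nr'_rel {z z' c₀ : Ω} {m : ℤ} {δ : ℝ} (hz : z ≠ 0) (hc₀ : c₀ ∈ B) (hc0 : c₀ ≠ 0)
    (hz' : z' = c₀ * z ^ m) (hδ : 0 < δ) (h : Nr' v B (v z + δ) z) : Nr' v B (v z' + δ) z' := by
  obtain ⟨a, ha, h1⟩ := h
  refine ⟨c₀ * a ^ m, mul_mem hc₀ (zpow_mem ha m), ?_⟩
  obtain ⟨δ', hδ', h2⟩ : ∃ δ', δ < δ' ∧ v.Ge (v z + δ') (z - a) := by
    by_cases h3 : z - a = 0
    · exact ⟨δ + 1, by linarith, by rw [h3]; exact RVal.Ge.zero⟩
    · refine ⟨v (z - a) - v z, by linarith [h1 h3], ?_⟩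
      rw [add_sub_cancel]
      exact RVal.ge_self _
  have h3 := rel_ge m hz (hδ.trans hδ') h2
  have h4 := (RVal.ge_self (v := v) c₀).mul h3
  rw [hz', v.map_mul hc0 (zpow_ne_zero m hz), ← mul_sub]
  exact Gt.of_ge h4 (by linarith)

section Pow

variable {p : ℕ} [hp : Fact p.Prime] {t w : ℕ → Ω} {r s : ℝ} {m : ℤ}

theorem val_root_t (ht : ∀ n, t (n + 1) ^ p = t n) (h0 : t 0 ≠ 0) (n : ℕ) :
    t n ≠ 0 ∧ v (t n) = v (t 0) / p ^ n := by
  have hp0 : (0 : ℝ) < p := by exact_mod_cast hp.out.pos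
  have hroot : t n ^ p ^ n = t 0 := by
    have := root_pow_add ht 0 n
    rwa [zero_add] at this
  have htn : t n ≠ 0 := fun h1 => h0 (by
    rw [← hroot, h1, zero_pow (pow_pos hp.out.pos n).ne'])
  refine ⟨htn, ?_⟩
  have h1 : v (t 0) = (p ^ n : ℕ) * v (t n) := by
    rw [← hroot, v.map_pow htn]
  rw [h1]
  push_cast
  rw [mul_div_cancel_left₀ _ (pow_pos hp0 n).ne']

theorem map_zpow' {z : Ω} (hz : z ≠ 0) (m : ℤ) : v (z ^ m) = m * v z := by
  obtain ⟨n, rfl | rfl⟩ := m.eq_nat_or_neg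
  · rw [zpow_natCast, v.map_pow hz]
    push_cast
    rfl
  · rw [zpow_neg, zpow_natCast, v.map_inv (pow_ne_zero n hz), v.map_pow hz]
    push_cast
    ring

/-- `t n` in terms of `t n ^ m`. -/
theorem root_of_zpow (ht : ∀ n, t (n + 1) ^ p = t n) (h0 : t 0 ≠ 0) (hm : ¬ (p : ℤ) ∣ m)
    (n : ℕ) : ∃ a b : ℤ, t n = t 0 ^ b * (t n ^ m) ^ a := by
  have hroot : t n ^ p ^ n = t 0 := by
    have := root_pow_add ht 0 n
    rwa [zero_add] at this
  have htn : t n ≠ 0 := fun h1 => h0 (by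
    rw [← hroot, h1, zero_pow (pow_pos hp.out.pos n).ne'])
  have hcop : IsCoprime m ((p : ℤ) ^ n) := by
    refine IsCoprime.pow_right ?_
    rw [isCoprime_comm]
    exact ((Nat.prime_iff_prime_int.1 hp.out).coprime_iff_not_dvd).2 hm
  obtain ⟨a, b, hab⟩ := hcop
  refine ⟨a, b, ?_⟩
  have h1 : t 0 ^ b = t n ^ ((p : ℤ) ^ n * b) := by
    rw [← hroot, ← zpow_natCast (t n), ← zpow_mul]
    push_cast
    rfl
  rw [h1, ← zpow_mul, ← zpow_add₀ htn, show (p : ℤ) ^ n * b + m * a = 1 by rw [← hab]; ring,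
    zpow_one]

theorem zpow_root (ht : ∀ n, t (n + 1) ^ p = t n) (m : ℤ) (n : ℕ) :
    (t (n + 1) ^ m) ^ p = t n ^ m := by
  rw [← ht n, ← zpow_natCast, ← zpow_natCast, ← zpow_mul, ← zpow_mul, mul_comm]

/-- **`t ^ m` tight ⇒ `t` tight.** -/
theorem Tgt.of_zpow (ht : ∀ n, t (n + 1) ^ p = t n) (htL : t 0 ∈ L) (h0 : t 0 ≠ 0)
    (hm : ¬ (p : ℤ) ∣ m) (h : Tgt p v L (fun n => t n ^ m) r) (hr : v (t 0 ^ m) < r) :
    Tgt p v L t (r - m * v (t 0) + v (t 0)) where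
  cld := h.cld
  mem := htL
  root := ht
  dst n := by
    have hp0 : (0 : ℝ) < (p : ℝ) ^ (n + 1) := pow_pos (by exact_mod_cast hp.out.pos) _
    obtain ⟨h1, h2⟩ := val_root_t (v := v) ht h0 (n + 1)
    obtain ⟨a, b, hab⟩ := root_of_zpow ht h0 hm (n + 1)
    rw [map_zpow' h0] at hr
    set δ := (r - m * v (t 0)) / p ^ (n + 1) with hδ
    have hδ0 : 0 < δ := div_pos (by linarith) hp0
    have e1 : (r - m * v (t 0) + v (t 0)) / p ^ (n + 1) = v (t (n + 1)) + δ := by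
      rw [h2, hδ, ← add_div]
      ring_nf
    have e2 : r / p ^ (n + 1) = v (t (n + 1) ^ m) + δ := by
      rw [map_zpow' h1, h2, hδ]
      field_simp
      ring
    have h3 := h.dst n
    rw [e1]
    rw [e2] at h3
    refine ⟨fun h4 => h3.far ?_, ?_⟩
    · exact nr'_rel h1 (one_mem L) one_ne_zero (by rw [one_mul]) hδ0 h4
    · exact lim_rel (zpow_ne_zero m h1) (zpow_mem htL b) (zpow_ne_zero b h0) hab hδ0 h3.near

/-- **`t` tight ⇒ `t ^ m` tight.** -/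
theorem Tgt.zpow (h0 : t 0 ≠ 0) (hm : ¬ (p : ℤ) ∣ m) (h : Tgt p v L t r) (hr : v (t 0) < r) :
    Tgt p v L (fun n => t n ^ m) (r - v (t 0) + m * v (t 0)) where
  cld := h.cld
  mem := zpow_mem h.mem m
  root := zpow_root h.root m
  dst n := by
    have hp0 : (0 : ℝ) < (p : ℝ) ^ (n + 1) := pow_pos (by exact_mod_cast hp.out.pos) _
    obtain ⟨h1, h2⟩ := val_root_t (v := v) h.root h0 (n + 1)
    obtain ⟨a, b, hab⟩ := root_of_zpow h.root h0 hm (n + 1)
    set δ := (r - v (t 0)) / p ^ (n + 1) with hδ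
    have hδ0 : 0 < δ := div_pos (by linarith) hp0
    have e1 : (r - v (t 0) + m * v (t 0)) / p ^ (n + 1) = v (t (n + 1) ^ m) + δ := by
      rw [map_zpow' h1, h2, hδ]
      field_simp
      ring
    have e2 : r / p ^ (n + 1) = v (t (n + 1)) + δ := by
      rw [h2, hδ, ← add_div]
      ring_nf
    have h3 := h.dst n
    rw [e1]
    rw [e2] at h3
    refine ⟨fun h4 => h3.far ?_, ?_⟩
    · exact nr'_rel (zpow_ne_zero m h1) (zpow_mem h.mem b) (zpow_ne_zero b h0) hab hδ0 h4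
    · exact lim_rel h1 (one_mem L) one_ne_zero (by rw [one_mul]) hδ0 h3.near

/-- The roots of `t ^ m` and of `t` generate the same field. -/
theorem EW.zpow (ht : ∀ n, t (n + 1) ^ p = t n) (htL : t 0 ∈ L) (h0 : t 0 ≠ 0)
    (hm : ¬ (p : ℤ) ∣ m) : EW v L (fun n => t n ^ m) = EW v L t := by
  refine le_antisymm ?_ ?_
  · refine clI_le' (sup_le EW.le (IntermediateField.adjoin_le_iff.2 ?_)) EW.cld
    rintro _ ⟨n, rfl⟩
    exact zpow_mem (EW.mem n) m
  · refine clI_le' (sup_le EW.le (IntermediateField.adjoin_le_iff.2 ?_)) EW.cld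
    rintro _ ⟨n, rfl⟩
    obtain ⟨a, b, hab⟩ := root_of_zpow ht h0 hm n
    rw [hab]
    exact mul_mem (zpow_mem (EW.le htL) b) (zpow_mem (EW.mem (u := fun n => t n ^ m) n) a)

/-- **A tight pair `(t ^ m, w)` gives a tight pair `(t, w)`.** -/
theorem TP.of_zpow (ht : ∀ n, t (n + 1) ^ p = t n) (htL : t 0 ∈ L) (h0 : t 0 ≠ 0)
    (hm : ¬ (p : ℤ) ∣ m) (h : TP p v L (fun n => t n ^ m) w r s) (hr : v (t 0 ^ m) < r) :
    TP p v L t w (r - m * v (t 0) + v (t 0)) s where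
  tgt := Tgt.of_zpow ht htL h0 hm h.tgt hr
  mem := h.mem
  root := h.root
  far := by
    rw [← EW.zpow ht htL h0 hm]
    exact h.far
  lim := h.lim

/-- **A tight pair `(t, w)` gives a tight pair `(t ^ m, w)`.** -/
theorem TP.zpow (h0 : t 0 ≠ 0) (hm : ¬ (p : ℤ) ∣ m) (h : TP p v L t w r s) (hr : v (t 0) < r) :
    TP p v L (fun n => t n ^ m) w (r - v (t 0) + m * v (t 0)) s where
  tgt := h.tgt.zpow h0 hm hr
  mem := h.mem
  root := h.root
  far := by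
    rw [EW.zpow h.tgt.root h.tgt.mem h0 hm]
    exact h.far
  lim := h.lim

end Pow

end Pool.Agent.TWC
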