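import Pool.Agent.Lib.TWC.Irr5
import Pool.Agent.Lib.TWC.PairR
import Pool.Agent.Lib.TWC.TPow
import Pool.Agent.Lib.TWX.PtE

/-!
# TANK W, leaf (B1d): irrational first radius, the tight pair

* `EW_inv`: the field generated by the inverses of the roots;
* `gen_base`: `C_i = cl k(X i, y)` is generated by `y` over the roots of `X`;
* `vg_ew`: the values of `E = cl k(X 0, X 1, ..)` are `e v(X m)`, `e ∈ ℤ`;
* `exists_pt`: `X i` tight in `C_i`, `y ∈ C_i` a generator of radius `s`: a pair of levels `(r, s)`;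
* **`T2.hasTPn`**: irrational first radius, `HasTPn` or `StrF`.
-/

set_option autoImplicit false
set_option linter.unusedSectionVars false

open Polynomial

namespace Pool.Agent.TWC

open Pool.Agent.H15JM (RVal)
open Pool.Agent.LU1 (VPos adj)
open Pool.Agent.D2 (Ctx0)
open Pool.Agent.D2P (clI mem_clI)
open Pool.Agent.TWM
open Pool.Agent.TWS (TowR VG RatV SphC towR_iff_zero)

universe u

variable {k Ω : Type u} [Field k] [Field Ω] [Algebra k Ω] {v : RVal Ω}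
  {B : IntermediateField k Ω} {X : ℕ → Ω} {y : Ω} {r s : ℝ}

theorem EW_inv (B : IntermediateField k Ω) (X : ℕ → Ω) :
    EW v B (fun n => X n ^ (-1 : ℤ)) = EW v B X := by
  refine le_antisymm ?_ ?_
  · refine clI_le' (sup_le EW.le (IntermediateField.adjoin_le_iff.2 ?_)) EW.cld
    rintro _ ⟨n, rfl⟩
    exact zpow_mem (EW.mem n) _
  · refine clI_le' (sup_le EW.le (IntermediateField.adjoin_le_iff.2 ?_)) EW.cld
    rintro _ ⟨n, rfl⟩
    have h1 : X n = (X n ^ (-1 : ℤ)) ^ (-1 : ℤ) := by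
      rw [← zpow_mul]
      simp
    rw [SetLike.mem_coe, h1]
    exact zpow_mem (EW.mem (u := fun n => X n ^ (-1 : ℤ)) n) _

theorem cadj_bot_inv (a : Ω) : cadj v (⊥ : IntermediateField k Ω) (a ^ (-1 : ℤ)) =
    cadj v (⊥ : IntermediateField k Ω) a := by
  refine le_antisymm (cadj_le (cld_cadj _ _ _) bot_le (zpow_mem (self_mem_cadj _ _ _) _))
    (cadj_le (cld_cadj _ _ _) bot_le ?_)
  have h1 := zpow_mem (self_mem_cadj v (⊥ : IntermediateField k Ω) (a ^ (-1 : ℤ))) (-1 : ℤ)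
  rwa [← zpow_mul, show (-1 : ℤ) * -1 = 1 from rfl, zpow_one] at h1

theorem ratR_of {γ s : ℝ} {D M : ℤ} (hD : D ≠ 0) (h : (D : ℝ) * s = M * γ) : RatR γ s := by
  refine ⟨D.natAbs, Int.natAbs_ne_zero.2 hD, D.sign * M, ?_⟩
  have h1 : ((D.natAbs : ℕ) : ℝ) = ((D.sign * D : ℤ) : ℝ) := by
    rw [Int.sign_mul_self_eq_natAbs]
    simp
  rw [h1]
  push_cast
  rw [mul_assoc, h, mul_assoc]

section

variable {p : ℕ} [hp : Fact p.Prime] [CharP k p] [CharP Ω p] [IsAlgClosed Ω]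

theorem gen_base (hr : ∀ n, X (n + 1) ^ p = X n)
    (hy : TL v (EW v (⊥ : IntermediateField k Ω) X) y s) (i : ℕ) :
    GenX v (CP (k := k) v (X i) y) (fun n => X (i + n) ^ (-1 : ℤ)) y s := by
  have h1 : ∀ B : IntermediateField k Ω, EW v B (fun n => X (i + n) ^ (-1 : ℤ)) = EW v B X := by
    intro B
    rw [EW_inv B (fun n => X (i + n)), ← EW_shift hr B i]
    congr 1
    funext n
    rw [add_comm]
  refine ⟨by rw [h1]; exact hy, ?_⟩
  rw [h1, h1, CP, EW.cadj]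
  congr 1
  refine le_antisymm ?_ (EW.mono bot_le _)
  refine clI_le' (sup_le ?_ ?_) EW.cld
  · exact EW.cadj_le i
  · rw [IntermediateField.adjoin_le_iff]
    rintro _ ⟨n, rfl⟩
    exact EW.mem n

/-- The inverses of the roots of a tight element of negative value. -/
theorem tgt_inv {C : IntermediateField k Ω} {x : ℕ → Ω} {r : ℝ} (h : Tgt p v C x r)
    (h0 : x 0 ≠ 0) (hr : v (x 0) < r) :
    Tgt p v C (fun n => x n ^ (-1 : ℤ)) (r - 2 * v (x 0)) := by
  have h1 : ¬ (p : ℤ) ∣ -1 := by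
    intro h2
    have h3 := Int.le_of_dvd one_pos ((dvd_neg.1 h2))
    have h4 := hp.out.two_le
    omega
  have h2 := h.zpow h0 h1 hr
  convert h2 using 1
  push_cast
  ring

/-- The values of `E`. -/
theorem vg_ew (hk : Ctx0 k v) (hr : ∀ n, X (n + 1) ^ p = X n) (h0 : X 0 ≠ 0) (hv : v (X 0) < 0)
    {g : ℝ} (hg : g ∈ VG v (EW v (⊥ : IntermediateField k Ω) X)) :
    ∃ (m : ℕ) (e : ℤ), g = e * v (X m) := by
  obtain ⟨a, ha, ha0, rfl⟩ := hg
  obtain ⟨n, b, hb, h1⟩ := EW.near_adj p hr ha (v a + 1)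
  obtain ⟨h2, h3⟩ := Gt.val_eq ha0 (Gt.of_ge h1 (by linarith))
  have hneg : v (X n) < 0 := by
    rw [val_root hr h0 n]
    exact div_neg_of_neg_of_pos hv (pow_pos (by exact_mod_cast hp.out.pos) n)
  obtain ⟨e, h4⟩ := val_bot hk (root_ne hr h0 n) hneg (LUC.Cl.subset hb) h2
  exact ⟨n, e, by rw [← h3, h4]⟩

/-- `X i` tight in `C_i = cl k(X i, y)`, `y` a generator of radius `s`: a tight pair. -/
theorem exists_pt [IsAlgClosed k] (hk : Ctx0 k v) (hc : CompleteV v)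
    (hr : ∀ n, X (n + 1) ^ p = X n) (h0 : X 0 ≠ 0) (hv : v (X 0) < 0)
    (hy : TL v (EW v (⊥ : IntermediateField k Ω) X) y s) {i : ℕ} {ρ : ℝ}
    (hT : Tgt p v (CP (k := k) v (X i) y) (fun n => X (i + n)) ρ) (hρ : v (X i) < ρ)
    (hdiv : ∀ g ∈ VG v (CP (k := k) v (X i) y), g / p ∈ VG v (CP (k := k) v (X i) y)) :
    ∃ u : ℕ → Ω, PT p v 0 (CP (k := k) v (X i) y) (fun n => X (i + n) ^ (-1 : ℤ)) u
      (ρ - 2 * v (X i)) s := by
  have hpi : (0 : ℝ) < (p : ℝ) ^ i := pow_pos (by exact_mod_cast hp.out.pos) i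
  have hne := root_ne hr h0 i
  have hvi : v (X i) = v (X 0) / p ^ i := val_root hr h0 i
  have hvin : v (X i) < 0 := by
    rw [hvi]
    exact div_neg_of_neg_of_pos hv hpi
  have h3 := tgt_inv hT hne hρ
  have hvx : v (X (i + 0) ^ (-1 : ℤ)) = -v (X i) := by
    rw [add_zero, zpow_neg, zpow_one, v.map_inv hne]
  have hvpos : 0 < v (X (i + 0) ^ (-1 : ℤ)) := by
    rw [hvx]
    linarith
  have hg := gen_base hr hy i
  obtain ⟨u, hu0, hur, hyu, h4, h5, h6, h7⟩ := exists_pairT hk hc h3 (zpow_ne_zero _ hne) hvpos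
    (w := y) (self_mem_cadj _ _ _) hg.tl hg.eq
  have hbot : cadj v (⊥ : IntermediateField k Ω) (X (i + 0) ^ (-1 : ℤ)) =
      cadj v (⊥ : IntermediateField k Ω) (X i) := by
    rw [cadj_bot_inv, add_zero]
  have hCP : CP (k := k) v (X (i + 0) ^ (-1 : ℤ)) (u 0) = CP (k := k) v (X i) y := by
    have h8 := gen_pairT (v := v) (x := fun n => X (i + n) ^ (-1 : ℤ)) (w := y) hyu
    rw [sub_sub_cancel] at h8
    rw [CP, CP]
    rw [hbot] at h8 ⊢
    exact h8
  have hTP : TP p v (CP (k := k) v (X i) y) (fun n => X (i + n) ^ (-1 : ℤ)) u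
      (ρ - 2 * v (X i)) s := ⟨h3, hu0, hur, h7, h6⟩
  refine ⟨u, ⟨hvpos.ne', ?_, ?_, ?_, ?_, ?_⟩⟩
  · change v (X (i + 0) ^ (-1 : ℤ)) < _
    rw [hvx]
    linarith
  · change TP p v (CP (k := k) v (X (i + 0) ^ (-1 : ℤ)) (u 0)) _ _ _ _
    rw [hCP]
    exact hTP
  · change TowR v 0 (CP (k := k) v (X (i + 0) ^ (-1 : ℤ)) (u 0)) _
    rw [hCP]
    exact TowR.zero (cld_cadj _ _ _)
  · change RatV v (CP (k := k) v (X (i + 0) ^ (-1 : ℤ)) (u 0)) (v (X (i + 0) ^ (-1 : ℤ)))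
    rw [hCP, hvx]
    intro g hg'
    have h9 : g ∈ VG v (EW v (⊥ : IntermediateField k Ω) X) := by
      rw [← VG.imm hy.imm]
      refine VG.mono (cadj_mono (EW.cadj_le i) y) hg'
    obtain ⟨m, e, rfl⟩ := vg_ew hk hr h0 hv h9
    refine ⟨p ^ m, (pow_pos hp.out.pos m).ne', -(e * p ^ i), ?_⟩
    have hpm : ((p : ℝ) ^ m) ≠ 0 := (pow_pos (by exact_mod_cast hp.out.pos) m).ne'
    rw [hvi, val_root hr h0 m]
    push_cast
    field_simp
  · change ∀ g ∈ VG v (CP (k := k) v (X (i + 0) ^ (-1 : ℤ)) (u 0)),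
      g / p ∈ VG v (CP (k := k) v (X (i + 0) ^ (-1 : ℤ)) (u 0))
    rw [hCP]
    exact hdiv

/-- The powers of the elements of `cl k(X i, y)`. -/
theorem pow_mem_base [IsAlgClosed k] (hr : ∀ n, X (n + 1) ^ p = X n) (y : Ω) (i : ℕ) {a : Ω}
    (ha : a ∈ CP (k := k) v (X i) y) : a ^ p ^ i ∈ CP (k := k) v (X 0) y := by
  have hP : ∀ a ∈ (⊥ : IntermediateField k Ω), ∃ b ∈ (⊥ : IntermediateField k Ω), b ^ p = a := by
    intro a ha
    obtain ⟨c, rfl⟩ := IntermediateField.mem_bot.1 ha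
    obtain ⟨d, rfl⟩ := IsAlgClosed.exists_pow_nat_eq c hp.out.pos
    exact ⟨algebraMap k Ω d, IntermediateField.algebraMap_mem _ d, by rw [map_pow]⟩
  induction i generalizing a with
  | zero => rwa [pow_zero, pow_one]
  | succ i ih =>
    rw [pow_succ', pow_mul]
    exact ih (pow_mem_prev p hP hr i ha)

/-- **Irrational first radius.** -/
theorem T2.hasTPn [IsAlgClosed k] (hk : Ctx0 k v) (hc : CompleteV v) (h : T2 p k v X y s)
    (hirr : ¬ RatR (v (X 0)) s) : HasTPn p v (CP (k := k) v (X 0) y) ∨ StrF k v X y s := by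
  rcases h.strF_or_tgt hk hc hirr with h1 | ⟨r, h1, -, i₀, h2⟩
  · exact Or.inr h1
  left
  have hp0 : (0 : ℝ) < p := by exact_mod_cast hp.out.pos
  have hps : ∀ n : ℕ, (0 : ℝ) < (p : ℝ) ^ n := fun n => pow_pos hp0 n
  have hvi : ∀ i, v (X i) = v (X 0) / p ^ i := val_root h.root h.ne
  have hXm : ∀ i m, m ≤ i → X m ∈ cadj v (⊥ : IntermediateField k Ω) (X i) := by
    intro i m hm
    obtain ⟨j, rfl⟩ : ∃ j, i = m + j := ⟨i - m, by omega⟩
    rw [← root_pow_add h.root m j]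
    exact pow_mem (self_mem_cadj _ _ _) _
  have hle : ∀ i, CP (k := k) v (X 0) y ≤ CP (k := k) v (X i) y := fun i =>
    cadj_mono (cadj_le (cld_cadj _ _ _) bot_le (hXm i 0 (Nat.zero_le _))) y
  have hvg : ∀ i, ∀ g ∈ VG v (CP (k := k) v (X i) y), ∃ (m : ℕ) (e : ℤ), g = e * v (X m) := by
    intro i g hg
    refine vg_ew hk h.root h.ne h.neg ?_
    rw [← VG.imm h.tl.imm]
    exact VG.mono (cadj_mono (EW.cadj_le i) y) hg
  have hdiv : ∀ i, ∀ g ∈ VG v (CP (k := k) v (X i) y), g / p ∈ VG v (CP (k := k) v (X i) y) := by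
    intro i g hg
    obtain ⟨m, e, rfl⟩ := hvg i g hg
    have h3 : e * v (X m) / p = e * v (X (m + 1)) := by
      rw [hvi m, hvi (m + 1), pow_succ]
      field_simp
    rw [h3]
    have h4 := (VG v (CP (k := k) v (X i) y)).zsmul_mem (VG.mono (hle i) (h.val_mem (m + 1))) e
    rwa [zsmul_eq_mul] at h4
  -- the descent
  have hdown : ∀ i (u : ℕ → Ω) (y' : Ω) (r' s' : ℝ),
      CP (k := k) v (X i) y' = CP (k := k) v (X i) y →
      PT p v 0 (CP (k := k) v (X i) y') (fun n => X (i + n) ^ (-1 : ℤ)) u r' s' →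
      (∀ N, NFb p (VG v (CP (k := k) v (X i) y)) (v (X (i + 0) ^ (-1 : ℤ))) r' s' N) →
      HasTPn p v (CP (k := k) v (X 0) y) := by
    intro i u y' r' s' he hPT hNF N
    rw [he] at hPT
    have h3 : PTn p v 0 (CP (k := k) v (X i) y) (N + i) := ⟨_, u, r', s', hPT, hNF _⟩
    obtain ⟨x, w, R, S', h4, h5⟩ := h3.downC hk hc (by omega) (cld_cadj _ _ _) (cld_cadj _ _ _)
      (hle i) (fun a ha => pow_mem_base h.root y i ha)
    have h6 : CP (k := k) v (x 0) (w 0) = CP (k := k) v (X 0) y := (towR_iff_zero.1 h4.tow).2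
    exact ⟨x, w, R, S', h4.ne, h4.lt, by rw [← h6]; exact h4.tp, h6.symm, h5⟩
  have hlt : ∀ i, v (X i) < r / p ^ i := by
    intro i
    rw [hvi]
    exact (div_lt_div_iff_of_pos_right (hps i)).2 h1
  have hR : ∀ i, r / p ^ i - 2 * v (X i) = (r - 2 * v (X 0)) / p ^ i := by
    intro i
    rw [hvi, sub_div]
    ring
  have hvx : ∀ i, v (X (i + 0) ^ (-1 : ℤ)) = -v (X i) := by
    intro i
    rw [add_zero, zpow_neg, zpow_one, v.map_inv (root_ne h.root h.ne i)]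
  by_cases hB : ∃ (J : ℤ) (m : ℕ) (e : ℤ), r - 2 * v (X 0) = (p : ℝ) ^ J * (s + e * v (X m))
  · obtain ⟨J, m, e, hJ⟩ := hB
    obtain ⟨i, hi⟩ : ∃ i : ℕ, i = max i₀ (max m J.toNat) := ⟨_, rfl⟩
    have hi0 : i₀ ≤ i := by omega
    have him : m ≤ i := by omega
    obtain ⟨c, hcJ⟩ : ∃ c : ℕ, (i : ℤ) = J + c := ⟨(i - J).toNat, by omega⟩
    have hcm := hXm i m him
    have hc0 : X m ^ e ≠ 0 := zpow_ne_zero _ (root_ne h.root h.ne m)
    have hcad : CP (k := k) v (X i) (X m ^ e * y) = CP (k := k) v (X i) y := by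
      have h3 := cadj_affine (v := v) (z := y) (zpow_mem hcm e) hc0 (zero_mem _)
      rwa [add_zero] at h3
    have hTL : TL v (EW v (⊥ : IntermediateField k Ω) X) (X m ^ e * y) (s + e * v (X m)) := by
      have h3 := h.tl.affine (zpow_mem (EW.mem m) e) hc0 (zero_mem _)
      rw [add_zero, map_zpow' (root_ne h.root h.ne m), add_comm] at h3
      exact h3
    have hT := h2 i hi0
    rw [← hcad] at hT
    obtain ⟨u, hu⟩ := exists_pt hk hc h.root h.ne h.neg hTL hT (hlt i) (by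
      rw [hcad]
      exact hdiv i)
    refine hdown i u _ _ _ hcad hu fun N i' j' _ _ hG => ?_
    rw [hR] at hG ⊢
    obtain ⟨ρ, hρ⟩ : ∃ ρ : ℝ, ρ = (r - 2 * v (X 0)) / p ^ i := ⟨_, rfl⟩
    have hs' : s + e * v (X m) = (p : ℝ) ^ c * ρ := by
      have h3 : (p : ℝ) ^ i = (p : ℝ) ^ J * (p : ℝ) ^ c := by
        rw [← zpow_natCast, hcJ, zpow_add₀ hp0.ne', zpow_natCast]
      have h4 : (p : ℝ) ^ J ≠ 0 := zpow_ne_zero _ hp0.ne'
      rw [hρ, hJ, h3]
      have := (hps c).ne'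
      field_simp
    rw [← hρ] at hG ⊢
    rw [hs'] at hG ⊢
    by_cases hD : ((p : ℤ) ^ (j' + c) - (p : ℤ) ^ i') = 0
    · refine ⟨1, fun h3 => ?_, ?_⟩
      · have h4 := Int.le_of_dvd one_pos h3
        have h5 := hp.out.two_le
        omega
      · have h3 : (p : ℝ) ^ (j' + c) - (p : ℝ) ^ i' = 0 := by exact_mod_cast hD
        have h4 : (p : ℝ) ^ j' * ((p : ℝ) ^ c * ρ) - (p : ℝ) ^ i' * ρ =
            ((p : ℝ) ^ (j' + c) - (p : ℝ) ^ i') * ρ := by
          rw [pow_add]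
          ring
        rw [h4, h3]
        push_cast
        ring
    · exfalso
      obtain ⟨m', e', h3⟩ := hvg _ _ hG
      refine hirr (ratR_of (D := ((p : ℤ) ^ (j' + c) - (p : ℤ) ^ i') * (p : ℤ) ^ (m + m'))
        (M := (p : ℤ) ^ c * e' * (p : ℤ) ^ m -
          ((p : ℤ) ^ (j' + c) - (p : ℤ) ^ i') * e * (p : ℤ) ^ m')
        (mul_ne_zero hD (pow_ne_zero _ (by exact_mod_cast hp.out.ne_zero))) ?_)
      push_cast
      have h4 : s = (p : ℝ) ^ c * ρ - e * v (X m) := by linarith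
      rw [hvi m'] at h3
      rw [h4, hvi m]
      have h5 := (hps m).ne'
      have h6 := (hps m').ne'
      have h7 : ((p : ℝ) ^ (j' + c) - (p : ℝ) ^ i') * ρ * (p : ℝ) ^ m' = e' * v (X 0) := by
        have h8 : ((p : ℝ) ^ (j' + c) - (p : ℝ) ^ i') * ρ = e' * (v (X 0) / p ^ m') := by
          rw [← h3, pow_add]
          ring
        rw [h8]
        field_simp
      rw [pow_add (p : ℝ) m m']
      field_simp
      linear_combination ((p : ℝ) ^ c * (p : ℝ) ^ m) * h7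
  · push Not at hB
    have h3 := h2 i₀ le_rfl
    obtain ⟨u, hu⟩ := exists_pt hk hc h.root h.ne h.neg h.tl h3 (hlt i₀) (hdiv i₀)
    refine hdown i₀ u y _ _ rfl hu fun N => NFb.of_none fun i' j' hG => ?_
    obtain ⟨m, e, h4⟩ := hvg _ _ hG
    refine hB (j' + i₀ - i') (m + j') (-e) ?_
    rw [hR] at h4
    have h5 : (p : ℝ) ^ ((j' : ℤ) + i₀ - i') = (p : ℝ) ^ j' * (p : ℝ) ^ i₀ / (p : ℝ) ^ i' := by
      rw [zpow_sub₀ hp0.ne', zpow_add₀ hp0.ne', zpow_natCast, zpow_natCast, zpow_natCast]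
    rw [h5, hvi (m + j'), pow_add]
    rw [hvi m] at h4
    push_cast
    have h6 := (hps m).ne'
    have h7 := (hps i').ne'
    have h8 := (hps i₀).ne'
    have h9 := (hps j').ne'
    field_simp at h4 ⊢
    linear_combination -h4

end

end Pool.Agent.TWC
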