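import Pool.Agent.Lib.TWC.BaseX

/-!
# TANK W, class C: tight elements (`SND`) and purely inseparable extensions

(helper70's note 3173 (2); helper99's word: tight)

* `Tgt p v B x r`: `x 0 ∈ B`, `x (n + 1)` is a `p`-th root of `x n`, and all the numbers
  `p ^ n dist(x n, B)`, `n ≥ 1`, are equal to `r`; in other words the distances of `x 0` to
  `B ^ (p ^ n)` are all equal to `r` (`Tgt.near_pow`, `Tgt.far_pow`, `Tgt.of_pow`);
* `Tgt.snd`: then `SND p v B x`, with `ρ n = r / p ^ n`;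
* `Tgt.congr`: every `u 0 ∈ B` with `v (u 0 - x 0) > r` is tight, too;
* `Tgt.down`: `M ^ p ≤ L ≤ M`, `x` tight in `M`: some `u` in `L` near to `x` is tight in `L`, or
  `x ^ p` is tight in `L`;
* `Tgt.up`: `K ≤ L`, `L ^ p ≤ K`, `x` tight in `K`: `x` is tight in `L`, or some `u` in `L` near to
  `x ^ (1 / p)` is tight in `L`;
* `Tgt.both`: `K ≤ L`, `L ^ p ≤ K`: if `L` has a tight element, then it has one which is in `K` and
  tight in `K`, or the `p`-th power of which is tight in `K`;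
* `exists_tgt_iff`: tight elements exist in `L` if and only if they exist in `K`,
  `K ≤ L`, `L ^ (p ^ e) ≤ K`.
-/

set_option autoImplicit false

open Polynomial

namespace Pool.Agent.TWC

open Pool.Agent.H15JM (RVal)
open Pool.Agent.LU1 (VPos adj)
open Pool.Agent.D2 (Ctx0)
open Pool.Agent.D2P (clI mem_clI rootF mem_rootF)
open Pool.Agent.TWM

universe u

variable {k Ω : Type u} [Field k] [Field Ω] [Algebra k Ω] {v : RVal Ω}
  {B K L M P E : IntermediateField k Ω}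

/-! ## Values of powers -/

theorem ge_pow_iff {y : Ω} {b : ℝ} {N : ℕ} (hN : 0 < N) :
    v.Ge ((N : ℝ) * b) (y ^ N) ↔ v.Ge b y := by
  have hN0 : (0 : ℝ) < N := by exact_mod_cast hN
  constructor
  · intro h hy
    have h1 := h (pow_ne_zero N hy)
    rw [v.map_pow hy] at h1
    exact le_of_mul_le_mul_left h1 hN0
  · intro h hy
    have hy' : y ≠ 0 := fun h0 => hy (by rw [h0, zero_pow hN.ne'])
    rw [v.map_pow hy']
    exact mul_le_mul_of_nonneg_left (h hy') hN0.le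

theorem gt_pow_iff {y : Ω} {b : ℝ} {N : ℕ} (hN : 0 < N) :
    Gt v ((N : ℝ) * b) (y ^ N) ↔ Gt v b y := by
  have hN0 : (0 : ℝ) < N := by exact_mod_cast hN
  constructor
  · intro h hy
    have h1 := h (pow_ne_zero N hy)
    rw [v.map_pow hy] at h1
    exact lt_of_mul_lt_mul_left h1 hN0.le
  · intro h hy
    have hy' : y ≠ 0 := fun h0 => hy (by rw [h0, zero_pow hN.ne'])
    rw [v.map_pow hy']
    exact mul_lt_mul_of_pos_left (h hy') hN0

omit [Algebra k Ω] [Field k] in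
/-- compatible `p^n`-th roots -/
theorem exists_rts (p : ℕ) [hp : Fact p.Prime] [IsAlgClosed Ω] (w : Ω) :
    ∃ r : ℕ → Ω, r 0 = w ∧ ∀ n, r (n + 1) ^ p = r n := by
  choose g hg using fun x : Ω => IsAlgClosed.exists_pow_nat_eq x hp.out.pos
  refine ⟨fun n => g^[n] w, rfl, fun n => ?_⟩
  simp only [Function.iterate_succ_apply']
  exact hg _

theorem cld_inf_tgt {A B : IntermediateField k Ω} (hA : Cld v A) (hB : Cld v B) :
    Cld v (A ⊓ B) := fun _ hx =>
  ⟨hA (clI_mono inf_le_left hx), hB (clI_mono inf_le_right hx)⟩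

/-! ## Tight elements -/

/-- `x` is tight in `B`: the numbers `p ^ n dist(x ^ (1 / p ^ n), B)`, `n ≥ 1`, are equal to `r`. -/
structure Tgt (p : ℕ) (v : RVal Ω) (B : IntermediateField k Ω) (x : ℕ → Ω) (r : ℝ) : Prop where
  cld : Cld v B
  mem : x 0 ∈ B
  root : ∀ n, x (n + 1) ^ p = x n
  dst : ∀ n, Dst v B (x (n + 1)) (r / p ^ (n + 1))

/-- `x ^ p, x, x ^ (1 / p), ..` -/
def dwn (p : ℕ) (x : ℕ → Ω) : ℕ → Ω
  | 0 => x 0 ^ p
  | n + 1 => x n

section P

variable {p : ℕ} [hp : Fact p.Prime] [CharP Ω p] {x u : ℕ → Ω} {r : ℝ}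

omit [Algebra k Ω] [Field k] hp [CharP Ω p] in
theorem dwn_root (hr : ∀ n, x (n + 1) ^ p = x n) : ∀ n, dwn p x (n + 1) ^ p = dwn p x n
  | 0 => rfl
  | n + 1 => hr n

theorem Tgt.snd (h : Tgt p v B x r) : SND p v B x fun n => r / p ^ n :=
  SND.of_dst h.cld h.mem h.root h.dst

omit hp [CharP Ω p] in
theorem Tgt.root_pow (h : Tgt p v B x r) (n j : ℕ) : x (n + j) ^ p ^ j = x n :=
  root_pow_add h.root n j

theorem sub_pow_root (hr : ∀ n, x (n + 1) ^ p = x n) (hu : ∀ n, u (n + 1) ^ p = u n) (n : ℕ) :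
    (u n - x n) ^ p ^ n = u 0 - x 0 := by
  have h1 := root_pow_add hr 0 n
  have h2 := root_pow_add hu 0 n
  rw [zero_add] at h1 h2
  rw [sub_pow_char_pow, h1, h2]

theorem gt_root (hr : ∀ n, x (n + 1) ^ p = x n) (hu : ∀ n, u (n + 1) ^ p = u n)
    (h : Gt v r (u 0 - x 0)) (n : ℕ) : Gt v (r / p ^ n) (u n - x n) := by
  have hp0 : (0 : ℝ) < (p : ℝ) ^ n := pow_pos (by exact_mod_cast hp.out.pos) n
  rw [← gt_pow_iff (N := p ^ n) (pow_pos hp.out.pos n), sub_pow_root hr hu n]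
  push_cast
  rwa [mul_div_cancel₀ _ hp0.ne']

/-- An element near to a tight element. -/
theorem Tgt.congr (h : Tgt p v B x r) (hu : ∀ n, u (n + 1) ^ p = u n) (hu0 : u 0 ∈ B)
    (hux : Gt v r (u 0 - x 0)) : Tgt p v B u r where
  cld := h.cld
  mem := hu0
  root := hu
  dst := fun n => by
    refine (h.dst n).congr ?_
    have e : x (n + 1) - u (n + 1) = -(u (n + 1) - x (n + 1)) := by ring
    rw [e]
    exact (gt_root h.root hu hux (n + 1)).neg

/-- Tightness in terms of the fields `B ^ (p ^ n)`. -/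
theorem Tgt.near_pow (h : Tgt p v B x r) (m : ℕ) {ε : ℝ} (hε : 0 < ε) :
    ∃ g ∈ B, v.Ge (r - ε) (x 0 - g ^ p ^ m) := by
  have hp0 : (0 : ℝ) < (p : ℝ) ^ (m + 1) := pow_pos (by exact_mod_cast hp.out.pos) _
  obtain ⟨a, ha, h1⟩ := (h.dst m).near (ε / p ^ (m + 1)) (by positivity)
  refine ⟨a ^ p, pow_mem ha p, ?_⟩
  have e : x 0 - (a ^ p) ^ p ^ m = (x (m + 1) - a) ^ p ^ (m + 1) := by
    have h2 := h.root_pow 0 (m + 1)
    rw [zero_add] at h2
    rw [sub_pow_char_pow, h2, ← pow_mul, ← pow_succ']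
  rw [e]
  have h3 := (ge_pow_iff (v := v) (N := p ^ (m + 1)) (pow_pos hp.out.pos _)).2 h1
  push_cast at h3
  rwa [mul_sub, mul_div_cancel₀ _ hp0.ne', mul_div_cancel₀ _ hp0.ne'] at h3

theorem Tgt.far_pow (h : Tgt p v B x r) {g : Ω} (hg : g ∈ B) : ¬ Gt v r (x 0 - g ^ p) := by
  have hp0 : (0 : ℝ) < p := by exact_mod_cast hp.out.pos
  intro h1
  refine (h.dst 0).far ⟨g, hg, ?_⟩
  rw [← gt_pow_iff (N := p) hp.out.pos, sub_pow_char, zero_add, pow_one, mul_div_cancel₀ _ hp0.ne']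
  have h2 : x (0 + 1) ^ p = x 0 := h.root 0
  rw [zero_add] at h2
  rwa [h2]

theorem Tgt.of_pow (hB : Cld v B) (h0 : x 0 ∈ B) (hr : ∀ n, x (n + 1) ^ p = x n)
    (hnear : ∀ (m : ℕ) (ε : ℝ), 0 < ε → ∃ g ∈ B, v.Ge (r - ε) (x 0 - g ^ p ^ m))
    (hfar : ∀ g ∈ B, ¬ Gt v r (x 0 - g ^ p)) : Tgt p v B x r where
  cld := hB
  mem := h0
  root := hr
  dst := fun n => by
    have hp0 : (0 : ℝ) < (p : ℝ) ^ (n + 1) := pow_pos (by exact_mod_cast hp.out.pos) _
    have h2 := root_pow_add hr 0 (n + 1)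
    rw [zero_add] at h2
    refine ⟨?_, fun ε hε => ?_⟩
    · rintro ⟨a, ha, h1⟩
      refine hfar (a ^ p ^ n) (pow_mem ha _) ?_
      have e : x 0 - (a ^ p ^ n) ^ p = (x (n + 1) - a) ^ p ^ (n + 1) := by
        rw [sub_pow_char_pow, h2, ← pow_mul, ← pow_succ]
      rw [e]
      have h3 := (gt_pow_iff (v := v) (N := p ^ (n + 1)) (pow_pos hp.out.pos _)).2 h1
      push_cast at h3
      rwa [mul_div_cancel₀ _ hp0.ne'] at h3
    · obtain ⟨g, hg, h1⟩ := hnear (n + 1) (p ^ (n + 1) * ε) (by positivity)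
      refine ⟨g, hg, ?_⟩
      rw [← ge_pow_iff (N := p ^ (n + 1)) (pow_pos hp.out.pos _), sub_pow_char_pow, h2]
      push_cast
      rwa [mul_sub, mul_div_cancel₀ _ hp0.ne']

/-- The distances of the roots of `x` to a field between `M ^ p` and `M`. -/
theorem Tgt.dst_of (h : Tgt p v M x r) (hLM : L ≤ M) (hML : ∀ a ∈ M, a ^ p ∈ L) (n : ℕ) :
    Dst v L (x (n + 1)) (r / p ^ (n + 1)) := by
  have hp0 : (0 : ℝ) < p := by exact_mod_cast hp.out.pos
  refine ⟨?_, fun ε hε => ?_⟩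
  · rintro ⟨a, ha, h1⟩
    exact (h.dst n).far ⟨a, hLM ha, h1⟩
  · obtain ⟨a, ha, h1⟩ := (h.dst (n + 1)).near (ε / p) (by positivity)
    refine ⟨a ^ p, hML a ha, ?_⟩
    rw [← h.root (n + 1), ← sub_pow_char]
    refine (ge_pow h1 p).mono (le_of_eq ?_)
    rw [pow_succ _ (n + 1)]
    field_simp

theorem Tgt.near_of (h : Tgt p v M x r) (hML : ∀ a ∈ M, a ^ p ∈ L) : Lim v L r (x 0) := by
  intro ε hε
  obtain ⟨g, hg, h1⟩ := h.near_pow 1 hε
  rw [pow_one] at h1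
  exact ⟨g ^ p, hML g hg, h1⟩

/-- **Tight elements, downwards.** `M ^ p ≤ L ≤ M`. -/
theorem Tgt.down [IsAlgClosed Ω] (h : Tgt p v M x r) (hL : Cld v L) (hLM : L ≤ M)
    (hML : ∀ a ∈ M, a ^ p ∈ L) :
    (∃ u : ℕ → Ω, Tgt p v L u r ∧ Tgt p v M u r ∧ Gt v r (u 0 - x 0)) ∨
      Tgt p v L (dwn p x) (p * r) := by
  have hp0 : (0 : ℝ) < p := by exact_mod_cast hp.out.pos
  by_cases hn : Nr' v L r (x 0)
  · left
    obtain ⟨a, ha, h1⟩ := hn
    obtain ⟨u, hu0, hu⟩ := exists_rts p a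
    have h2 : Gt v r (u 0 - x 0) := by
      have e : u 0 - x 0 = -(x 0 - a) := by rw [hu0]; ring
      rw [e]
      exact h1.neg
    refine ⟨u, ⟨hL, by rwa [hu0], hu, fun n => (h.dst_of hLM hML n).congr ?_⟩,
      h.congr hu (by rw [hu0]; exact hLM ha) h2, h2⟩
    have e : x (n + 1) - u (n + 1) = -(u (n + 1) - x (n + 1)) := by ring
    rw [e]
    exact (gt_root h.root hu h2 (n + 1)).neg
  · right
    refine ⟨hL, hML _ h.mem, dwn_root h.root, fun n => ?_⟩
    cases n with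
    | zero =>
      rw [zero_add, pow_one, mul_div_cancel_left₀ _ hp0.ne']
      exact ⟨hn, h.near_of hML⟩
    | succ n =>
      have h1 := h.dst_of hLM hML n
      have e : (p : ℝ) * r / p ^ (n + 1 + 1) = r / p ^ (n + 1) := by
        rw [pow_succ _ (n + 1)]
        field_simp
      rw [e]
      exact h1

/-- The `p`-th root of a tight element. -/
theorem Tgt.rootF (h : Tgt p v K x r) :
    Tgt p v (D2P.rootF p 1 K) (fun n => x (n + 1)) (r / p) where
  cld := cld_rootF p h.cld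
  mem := by
    rw [mem_rootF1, h.root]
    exact h.mem
  root := fun n => h.root (n + 1)
  dst := fun n => by
    have hp0 : (0 : ℝ) < p := by exact_mod_cast hp.out.pos
    have e : r / (p : ℝ) / p ^ (n + 1) = r / p ^ (n + 1) / p := by
      rw [div_div, div_div, mul_comm]
    rw [e]
    refine ⟨?_, fun ε hε => ?_⟩
    · rintro ⟨a, ha, h1⟩
      refine (h.dst n).far ⟨a ^ p, (mem_rootF1 p).1 ha, ?_⟩
      rw [← h.root (n + 1), ← sub_pow_char]
      have h2 := (gt_pow_iff (v := v) (N := p) hp.out.pos).2 h1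
      rwa [mul_div_cancel₀ _ hp0.ne'] at h2
    · obtain ⟨a, ha, h1⟩ := (h.dst (n + 1)).near ε hε
      refine ⟨a, (mem_rootF1 p).2 (pow_mem ha p), ?_⟩
      refine h1.mono (le_of_eq ?_)
      rw [pow_succ _ (n + 1), div_div]

/-- **Tight elements, upwards.** `K ≤ L`, `L ^ p ≤ K`. -/
theorem Tgt.up [IsAlgClosed Ω] (h : Tgt p v K x r) (hL : Cld v L) (hKL : K ≤ L)
    (hLK : ∀ a ∈ L, a ^ p ∈ K) :
    (∃ u : ℕ → Ω, Tgt p v L u (r / p) ∧ Tgt p v (D2P.rootF p 1 K) u (r / p) ∧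
      Gt v (r / p) (u 0 - x 1)) ∨ Tgt p v L x r := by
  have hp0 : (0 : ℝ) < p := by exact_mod_cast hp.out.pos
  rcases (Tgt.rootF h).down hL (fun a ha => (mem_rootF1 p).2 (hLK a ha))
    (fun a ha => hKL ((mem_rootF1 p).1 ha)) with h1 | h1
  · exact Or.inl h1
  · right
    have e : dwn p (fun n => x (n + 1)) = x := by
      funext n
      cases n with
      | zero => exact h.root 0
      | succ n => rfl
    rwa [e, mul_div_cancel₀ _ hp0.ne'] at h1

/-- **A common tight element.** `K ≤ L`, `L ^ p ≤ K`. -/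
theorem Tgt.both [IsAlgClosed Ω] (h : Tgt p v L x r) (hK : Cld v K) (hKL : K ≤ L)
    (hLK : ∀ a ∈ L, a ^ p ∈ K) :
    ∃ u : ℕ → Ω, Tgt p v L u r ∧ (Tgt p v K u r ∨ Tgt p v K (dwn p u) (p * r)) := by
  rcases h.down hK hKL hLK with ⟨u, h1, h2, _⟩ | h1
  · exact ⟨u, h2, Or.inl h1⟩
  · exact ⟨x, h, Or.inr h1⟩

omit hp [CharP Ω p] in
/-- The element is not a `p`-th power of the field. -/
theorem Tgt.root_notMem (h : Tgt p v B x r) : x 1 ∉ B := fun h1 => by
  refine (h.dst 0).far ⟨x 1, h1, fun h2 => absurd ?_ h2⟩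
  rw [zero_add, sub_self]

/-- Tight elements exist in `L` if and only if they exist in `K`: one step. -/
theorem exists_tgt_iff1 [IsAlgClosed Ω] (hK : Cld v K) (hL : Cld v L) (hKL : K ≤ L)
    (hLK : ∀ a ∈ L, a ^ p ∈ K) :
    (∃ (x : ℕ → Ω) (r : ℝ), Tgt p v K x r) ↔ ∃ (x : ℕ → Ω) (r : ℝ), Tgt p v L x r := by
  constructor
  · rintro ⟨x, r, h⟩
    rcases h.up hL hKL hLK with ⟨u, h1, _⟩ | h1
    · exact ⟨u, _, h1⟩
    · exact ⟨x, _, h1⟩
  · rintro ⟨x, r, h⟩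
    rcases h.down hK hKL hLK with ⟨u, h1, _⟩ | h1
    · exact ⟨u, _, h1⟩
    · exact ⟨_, _, h1⟩

/-- Tight elements exist in `L` if and only if they exist in `K`. -/
theorem exists_tgt_iff [IsAlgClosed Ω] (e : ℕ) : ∀ {K : IntermediateField k Ω}, Cld v K →
    Cld v L → K ≤ L → (∀ a ∈ L, a ^ p ^ e ∈ K) →
    ((∃ (x : ℕ → Ω) (r : ℝ), Tgt p v K x r) ↔ ∃ (x : ℕ → Ω) (r : ℝ), Tgt p v L x r) := by
  induction e with
  | zero =>
    intro K hK hL hKL hLK
    have h1 : L = K := le_antisymm (fun a ha => by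
      have h2 := hLK a ha
      rwa [pow_zero, pow_one] at h2) hKL
    rw [h1]
  | succ e ih =>
    intro K hK hL hKL hLK
    have h1 : Cld v (L ⊓ D2P.rootF p 1 K) := cld_inf_tgt hL (cld_rootF p hK)
    rw [exists_tgt_iff1 hK h1 (le_inf hKL (le_rootF p K)) fun x hx => (mem_rootF1 p).1 hx.2]
    refine ih h1 hL inf_le_left fun a ha => ⟨pow_mem ha _, (mem_rootF1 p).2 ?_⟩
    rw [← pow_mul, ← pow_succ]
    exact hLK a ha

end P

end Pool.Agent.TWC
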