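import Pool.Agent.Lib.TWC.DescDefs

/-!
# TANK W, class C: towers

* `Tow v n A B`: `B` is the closure of `A(z_1, .., z_n)`, every `z_i` of transcendental type and of
  radius `0` over the closure of `A(z_1, .., z_(i-1))`;
* `EW v P u`: the closure of `P(u 0, u 1, ..)`.
-/

set_option autoImplicit false

open Polynomial

namespace Pool.Agent.TWC

open Pool.Agent.H15JM (RVal)
open Pool.Agent.D2 (Ctx0)
open Pool.Agent.D2P (hen clI mem_clI)
open Pool.Agent.TWM

universe u

variable {k Ω : Type u} [Field k] [Field Ω] [Algebra k Ω]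

/-- A tower of length `n`, all the radii are `0`. -/
inductive Tow (v : RVal Ω) : ℕ → IntermediateField k Ω → IntermediateField k Ω → Prop
  | zero {A : IntermediateField k Ω} : Cld v A → Tow v 0 A A
  | succ {n : ℕ} {A B : IntermediateField k Ω} {z : Ω} :
      TL v A z 0 → Tow v n (cadj v A z) B → Tow v (n + 1) A B

/-- The closure of `P(u 0, u 1, ..)`. -/
noncomputable def EW (v : RVal Ω) (P : IntermediateField k Ω) (u : ℕ → Ω) :
    IntermediateField k Ω :=
  clI v (P ⊔ IntermediateField.adjoin k (Set.range u))

end Pool.Agent.TWC
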