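import Pool.Agent.Lib.TWS.MonF
import Pool.Agent.Lib.TWS.Emb
import Pool.Agent.Lib.TWS.Tr
import Pool.Agent.Lib.TWC.SND
import Pool.Agent.Lib.TWJ.ALL

/-!
# TANK W, class I: a tight element of level `0`, the exit

* `TT p v m L x y`: the element `x 0` of `L`, `v x < 0`, is tight of level `0`, and the closure
  of `L E`, `E` the closure of `k(x ^ (1 / p ^ ∞))`, is a tower of length `m + 1` over `E`, whose first
  radius is `0` (the other ones are arbitrary);
* `Gen v m L`: `L` is a tower of length `m` over the closure of `k(x, b)`;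
* `MainLv1 p k m`: if `TT`, then `Gen` for the purely inseparable extensions of degree `p`;
* `hrone_of_tt`: `HRone` for the dense subfields of finite type.
-/

set_option autoImplicit false

open Polynomial

namespace Pool.Agent.TWC

open Pool.Agent.H15JM (RVal)
open Pool.Agent.LU1 (VPos adj)
open Pool.Agent.D2 (Ctx0)
open Pool.Agent.D2P (hen clI mem_clI mem_adj_self)
open Pool.Agent.TWM
open Pool.Agent.TWS (TowR SphC IsoE HF hv)
open Pool.Agent.TW (Ctx Full BD HRone LU)

universe u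

section Defs

variable {k Ω : Type u} [Field k] [Field Ω] [Algebra k Ω]

/-- A tower over the perfect closure of `k(x)`, `x` tight of level `0`. -/
structure TT (p : ℕ) (v : RVal Ω) (m : ℕ) (L : IntermediateField k Ω) (x : ℕ → Ω) (y : Ω) :
    Prop where
  tgt : Tgt p v L x 0
  neg : v (x 0) < 0
  first : TL v (EW v (⊥ : IntermediateField k Ω) x) y 0
  tow : TowR v m (cadj v (EW v ⊥ x) y) (clI v (L ⊔ EW v ⊥ x))

/-- A tower of length `m` over the closure of `k(x, b)`. -/
def Gen (v : RVal Ω) (m : ℕ) (L : IntermediateField k Ω) : Prop :=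
  ∃ x ∈ L, ∃ b ∈ L, x ≠ 0 ∧ v x ≠ 0 ∧ Transcendental (adj (⊥ : IntermediateField k Ω) x) b ∧
    TowR v m (cadj v (cadj v ⊥ x) b) L

end Defs

/-- **Main row.** -/
def MainLv1 (p : ℕ) (k : Type u) [Field k] (m : ℕ) : Prop :=
  ∀ (H : Type u) [Field H] [Algebra k H] [IsAlgClosed H] [CharP H p] (v : RVal H),
    Ctx0 k v → CompleteV v → SphC v → (∀ ρ : ℝ, ∃ c : H, c ≠ 0 ∧ v c = ρ) →
    ∀ (L : IntermediateField k H) (x : ℕ → H) (y : H), TT p v m L x y →
      ∀ g : H, g ^ p ∈ L → Gen v m (clI v (adj L g))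

/-! ### Transfer -/

section Transfer

variable {k Ω Ω' : Type u} [Field k] [Field Ω] [Algebra k Ω] [Field Ω'] [Algebra k Ω']
  {v : RVal Ω} {w : RVal Ω'} {ι : Ω →ₐ[k] Ω'} {A B : IntermediateField k Ω}

theorem towR_le {n : ℕ} {A B : IntermediateField k Ω} (hT : TowR v n A B) : A ≤ B := by
  induction hT with
  | zero _ => exact le_rfl
  | succ _ _ ih => exact fun x hx => ih (LUC.Cl.subset ((D2P.mem_adj_self _ _).2 hx))

theorem towR_map [IsAlgClosed Ω] (h : IsoE v w ι) (hc : CompleteV v) {n : ℕ}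
    (hT : TowR v n A B) : TowR w n (A.map ι) (B.map ι) := by
  induction hT with
  | zero h1 => exact TowR.zero ((h.cld_iff hc).2 h1)
  | succ h1 _ ih =>
    rw [← h.cadj_map hc] at ih
    exact TowR.succ (h.tl_iff.2 h1) ih

theorem towR_of_map [IsAlgClosed Ω] (h : IsoE v w ι) (hc : CompleteV v) {n : ℕ}
    (hT : TowR w n (A.map ι) (B.map ι)) : TowR v n A B := by
  obtain ⟨A', hA'⟩ : ∃ A' : IntermediateField k Ω', A' = A.map ι := ⟨_, rfl⟩
  obtain ⟨B', hB'⟩ : ∃ B' : IntermediateField k Ω', B' = B.map ι := ⟨_, rfl⟩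
  rw [← hA', ← hB'] at hT
  induction hT generalizing A with
  | zero h1 =>
    subst hA'
    have h2 := TWM.Dense.map_inj hB'
    subst h2
    exact TowR.zero ((h.cld_iff hc).1 h1)
  | @succ n A₁ B₁ z s hz hT ih =>
    have h2 : z ∈ B.map ι := by
      rw [← hB']
      exact towR_le hT (self_mem_cadj w A₁ z)
    obtain ⟨z₀, -, rfl⟩ := h2
    subst hA'
    exact TowR.succ (h.tl_iff.1 hz) (ih (h.cadj_map hc A z₀) hB')

theorem dst_map (h : IsoE v w ι) {a : Ω} {c : ℝ} (hd : Dst v A a c) : Dst w (A.map ι) (ι a) c :=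
  ⟨fun h1 => hd.far (h.nr'_iff.1 h1), h.lim_iff.2 hd.near⟩

theorem tgt_map (h : IsoE v w ι) (hc : CompleteV v) {p : ℕ} {x : ℕ → Ω} {r : ℝ}
    (hx : Tgt p v A x r) : Tgt p w (A.map ι) (fun n => ι (x n)) r where
  cld := (h.cld_iff hc).2 hx.cld
  mem := ⟨_, hx.mem, rfl⟩
  root n := by rw [← map_pow, hx.root]
  dst n := dst_map h (hx.dst n)

theorem tt_map [IsAlgClosed Ω] (h : IsoE v w ι) (hc : CompleteV v) {p m : ℕ}
    {L : IntermediateField k Ω} {x : ℕ → Ω} {y : Ω} (ht : TT p v m L x y) (h0 : x 0 ≠ 0) :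
    TT p w m (L.map ι) (fun n => ι (x n)) (ι y) := by
  have e1 : EW w (⊥ : IntermediateField k Ω') (fun n => ι (x n)) = (EW v ⊥ x).map ι := by
    rw [← IntermediateField.map_bot ι, h.ew_map hc]
  refine ⟨tgt_map h hc ht.tgt, ?_, ?_, ?_⟩
  · rw [h.val _ h0]
    exact ht.neg
  · rw [e1]
    exact h.tl_iff.2 ht.first
  · rw [e1, h.cadj_map hc, ← IntermediateField.map_sup, h.clI_map hc]
    exact towR_map h hc ht.tow

theorem transcendental_of_map {F : IntermediateField k Ω} {z : Ω}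
    (hz : Transcendental (F.map ι) (ι z)) : Transcendental F z := fun h0 =>
  hz (TWM.Dense.isAlgebraic_iff.2 h0)

theorem gen_of_map [IsAlgClosed Ω] (h : IsoE v w ι) (hc : CompleteV v) {m : ℕ}
    {L : IntermediateField k Ω} (hg : Gen w m (L.map ι)) : Gen v m L := by
  obtain ⟨_, ⟨x, hx, rfl⟩, _, ⟨b, hb, rfl⟩, hx0, hvx, htr, hT⟩ := hg
  have hx0' : x ≠ 0 := fun h0 => hx0 (by rw [h0, map_zero])
  change Transcendental (adj (⊥ : IntermediateField k Ω') (ι x)) (ι b) at htr
  change TowR w m (cadj w (cadj w (⊥ : IntermediateField k Ω') (ι x)) (ι b)) _ at hT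
  change w (ι x) ≠ 0 at hvx
  rw [← IntermediateField.map_bot ι, ← TWM.Dense.adj_map] at htr
  rw [← IntermediateField.map_bot ι, h.cadj_map hc, h.cadj_map hc] at hT
  refine ⟨x, hx, b, hb, hx0', by rwa [h.val x hx0'] at hvx, transcendental_of_map htr,
    towR_of_map h hc hT⟩

end Transfer

/-! ### The exit -/

section Exit

variable {k Ω : Type u} [Field k] [Field Ω] [Algebra k Ω] {v : RVal Ω}

/-- An element of value `≠ 0` is transcendental over `k`. -/
theorem transcendental_of_val [IsAlgClosed k] (h0 : Ctx0 k v) {x : Ω} (hx0 : x ≠ 0)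
    (hx : v x ≠ 0) : Transcendental (⊥ : IntermediateField k Ω) x := by
  intro halg
  have h2 : Algebra.IsAlgebraic k (⊥ : IntermediateField k Ω) := by
    refine ⟨fun a => ?_⟩
    obtain ⟨c, hc⟩ := IntermediateField.mem_bot.1 a.2
    have h3 : a = algebraMap k (⊥ : IntermediateField k Ω) c := Subtype.ext hc.symm
    rw [h3]
    exact isAlgebraic_algebraMap c
  have h1 : IsAlgebraic k x := halg.restrictScalars k
  have h3 : Algebra.IsAlgebraic k (IntermediateField.adjoin k {x}) :=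
    IntermediateField.isAlgebraic_adjoin_simple h1.isIntegral
  have h4 : x ∈ (⊥ : IntermediateField k Ω) := by
    rw [← IntermediateField.eq_bot_of_isAlgClosed_of_isAlgebraic (IntermediateField.adjoin k {x})]
    exact IntermediateField.mem_adjoin_simple_self k x
  obtain ⟨c, rfl⟩ := IntermediateField.mem_bot.1 h4
  exact hx (h0.triv c fun hc => hx0 (by rw [hc, map_zero]))

theorem TL.transcendental {A F : IntermediateField k Ω} {z : Ω} {s : ℝ} (hz : TL v A z s)
    (hF : F ≤ A) : Transcendental F z := by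
  intro halg
  refine (hz.far z ?_).1 rfl
  obtain ⟨f, hf0, hf⟩ := halg
  refine ⟨f.map (IntermediateField.inclusion hF : F →+* A), ?_, ?_⟩
  · exact (Polynomial.map_ne_zero_iff (IntermediateField.inclusion hF : F →+* A).injective).2 hf0
  · rw [aeval_def, eval₂_map]
    exact hf

/-- Generators of a tower. -/
theorem tower_exit {m : ℕ} : ∀ {F₀ L : IntermediateField k Ω} {b : Ω} {d : ℕ}, F₀.FG →
    Algebra.trdeg k F₀ = d → Transcendental F₀ b → TowR v m (clI v (adj F₀ b)) L →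
    ∃ (F₂ : IntermediateField k Ω) (X₂ : Ω), F₂.FG ∧ F₀ ≤ F₂ ∧ Algebra.trdeg k F₂ = (d + m : ℕ) ∧
      L = clI v (adj F₂ X₂) := by
  induction m with
  | zero =>
    intro F₀ L b d hfg htr hb hT
    refine ⟨F₀, b, hfg, le_rfl, by rw [htr, Nat.add_zero], ?_⟩
    generalize hA : clI v (adj F₀ b) = A at hT
    cases hT
    rfl
  | succ m ih =>
    intro F₀ L b d hfg htr hb hT
    generalize hA : clI v (adj F₀ b) = A at hT
    cases hT with
    | @succ n A B z s hz hT =>
      subst hA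
      rw [clI_adj_clI] at hT
      obtain ⟨F₂, X₂, h1, h2, h3, h4⟩ := ih (F₀ := adj F₀ b) (b := z) (d := d + 1)
        (D2P.fg_adj hfg b) (by
          rw [TW.HRLU.trdeg_adj hb, htr]
          push_cast
          rfl)
        (TL.transcendental hz (TWM.le_clI _)) hT
      refine ⟨F₂, X₂, h1, ?_, ?_, h4⟩
      · exact fun a ha => h2 ((mem_adj_self F₀ b).2 ha)
      · rw [h3]
        congr 1
        omega

/-- An element of value `≠ 0` gives the full rational rank, in rank one. -/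
theorem full_of_mem (h : Ctx k v 1) {F : IntermediateField k Ω} {x : Ω} (hxF : x ∈ F)
    (hx0 : x ≠ 0) (hx : v x ≠ 0) : Full v F :=
  full_of_ind h (x := fun _ : Fin 1 => x) (fun _ => hx0)
    (LinearIndependent.of_subsingleton (R := ℚ) (v := fun _ : Fin 1 => v x) 0 hx) fun _ => hxF

theorem trdeg_adj_bot [IsAlgClosed k] (h0 : Ctx0 k v) {x : Ω} (hx0 : x ≠ 0) (hx : v x ≠ 0) :
    Algebra.trdeg k (adj (⊥ : IntermediateField k Ω) x) = (1 : ℕ) := by
  rw [TW.HRLU.trdeg_adj (transcendental_of_val h0 hx0 hx)]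
  have h1 : Algebra.trdeg k (⊥ : IntermediateField k Ω) = 0 := by
    have : Algebra.IsAlgebraic k (⊥ : IntermediateField k Ω) := by
      refine ⟨fun a => ?_⟩
      obtain ⟨c, hc⟩ := IntermediateField.mem_bot.1 a.2
      have h2 : a = algebraMap k (⊥ : IntermediateField k Ω) c := Subtype.ext hc.symm
      rw [h2]
      exact isAlgebraic_algebraMap c
    exact trdeg_eq_zero
  rw [h1, zero_add, Nat.cast_one]

/-- **The exit**, `Ω` complete. -/
theorem hrone_of_gen [IsAlgClosed k] [IsAlgClosed Ω] (p : ℕ) [Fact p.Prime] [CharP k p]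
    [CharP Ω p] (h : Ctx k v 1) (hcv : CompleteV v) {m : ℕ} (hm : m ≤ 2)
    {E : IntermediateField k Ω} (hE : E.FG) (hfull : Full v E)
    (htr : Algebra.trdeg k E = (m + 2 : ℕ)) (hBD : BD p v E) (hG : Gen v m (clI v E)) :
    HRone v E := by
  obtain ⟨x, -, b, -, hx0, hx, hb, hT⟩ := hG
  have h0 : Ctx0 k v := h.toCtx0
  have e1 : cadj v (cadj v (⊥ : IntermediateField k Ω) x) b = clI v (adj (adj ⊥ x) b) :=
    clI_adj_clI
  rw [e1] at hT
  have hfgx : (adj (⊥ : IntermediateField k Ω) x).FG := D2P.fg_adj IntermediateField.fg_bot x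
  obtain ⟨F₂, X₂, h1, h2, h3, h4⟩ := tower_exit hfgx (trdeg_adj_bot h0 hx0 hx) hb hT
  have hF : Full v F₂ := full_of_mem h (h2 (mem_adj_self _ x).1) hx0 hx
  refine TWJ.exitg p h hcv (D := m) ?_ hE hfull (by rw [htr]; congr 1; omega) hBD h1 hF h3 h4
  intro K hK hKf htK hBDK
  exact TWJ.lu_bd_two p h (TWJ.stepAll p k 1) (by omega) hK hKf htK hBDK

/-- `Gen` from the main row, `Ω` complete. -/
theorem gen_of_tt [IsAlgClosed k] [IsAlgClosed Ω] (p : ℕ) [Fact p.Prime] [CharP k p]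
    [CharP Ω p] (h0 : Ctx0 k v) (hcv : CompleteV v) {m : ℕ} (hMain : MainLv1 p k m)
    {L : IntermediateField k Ω} {x : ℕ → Ω} {y : Ω} (ht : TT p v m L x y) {g : Ω}
    (hg : g ^ p ∈ L) : Gen v m (clI v (adj L g)) := by
  have hx0 : x 0 ≠ 0 := by
    intro h1
    have h2 : ∀ n, x n = 0 := by
      intro n
      induction n with
      | zero => exact h1
      | succ n ih =>
        refine eq_zero_of_pow_eq_zero (n := p) ?_
        rw [ht.tgt.root, ih]
    refine (ht.tgt.dst 0).far ⟨0, zero_mem _, ?_⟩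
    rw [h2, sub_zero]
    exact fun h3 => absurd rfl h3
  obtain ⟨φ, hφ⟩ := TWS.exists_emb h0
  have hI : IsoE v (hv k) φ := ⟨hφ⟩
  have : CharP (HF k) p := charP_of_injective_algebraMap (algebraMap k (HF k)).injective p
  have h1 := hMain (HF k) (hv k) (TWS.ctx0_hv k) (TWS.completeV_hv k)
    (TWS.sphC_hv k) (TWS.exists_val k) _ _ _ (tt_map hI hcv ht hx0) (φ g) ⟨_, hg, map_pow φ g p⟩
  rw [← TWM.Dense.adj_map, hI.clI_map hcv] at h1
  exact gen_of_map hI hcv h1

/-- The completion of `(Ω, v)` contains a tower as in `TT`, for the closure of `E`. -/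
def TTc (p : ℕ) (v : RVal Ω) (m : ℕ) (E : IntermediateField k Ω) : Prop :=
  ∃ (Ω' : Type u) (_ : Field Ω') (_ : Algebra k Ω') (ι : Ω →ₐ[k] Ω') (w : RVal Ω') (_ : IsAlgClosed Ω'),
    CompleteV w ∧ Dense v w ι ∧ ∃ x y, TT p w m (clI w (E.map ι)) x y

/-- **`HRone` from a tight element.** -/
theorem hrone_of_tt [IsAlgClosed k] [IsAlgClosed Ω] (p : ℕ) [Fact p.Prime] [CharP k p]
    [CharP Ω p] (h : Ctx k v 1) {m : ℕ} (hm : m ≤ 2) (hMain : MainLv1 p k m)
    {K₀ : IntermediateField k Ω} (hK : K₀.FG) (hfull : Full v K₀)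
    (htr : Algebra.trdeg k K₀ = (m + 2 : ℕ)) {g : Ω} (hg : g ^ p ∈ K₀) (hBD : BD p v (adj K₀ g))
    (ht : TTc p v m K₀) : HRone v (adj K₀ g) := by
  have hp : 0 < p := (Fact.out : p.Prime).pos
  obtain ⟨Ω', iF, iA, ι, w, iC, h2, h3, x, y, h4⟩ := ht
  have : CharP Ω' p := Dense.charP ι p
  have htg : Algebra.trdeg k (adj K₀ g) = (m + 2 : ℕ) := by
    refine (TW.trdeg_eq_of_alg (mem_adj_self K₀ g).2 (D2P.isAlgebraic_sup {g} ?_)).trans htr
    rintro s rfl
    exact D2P.isAlgebraic_of_pow hp (D2P.isAlgebraic_of_mem hg)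
  have hc' : Ctx k w 1 := Dense.ctx h3 h
  rw [← Dense.hrone_iff h3]
  refine hrone_of_gen p hc' h2 hm (Dense.fg_map (D2P.fg_adj hK g))
    ((Dense.full_iff h3).2 (hfull.mono (mem_adj_self K₀ g).2))
    (by rw [Dense.trdeg_map]; exact htg) ((Dense.bd_iff h3).2 hBD) ?_
  have h5 := gen_of_tt p hc'.toCtx0 h2 hMain h4 (g := ι g)
    (by rw [← map_pow]; exact TWM.le_clI _ ⟨_, hg, rfl⟩)
  have e1 : clI w (adj (clI w (K₀.map ι)) (ι g)) = clI w ((adj K₀ g).map ι) := by
    rw [TWM.Dense.adj_map]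
    exact clI_adj_clI
  rwa [e1] at h5

end Exit

end Pool.Agent.TWC
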