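import Pool.Agent.Lib.TWC.TPb
import Pool.Agent.Lib.TWC.TTx

/-!
# TANK W, class I: tight pairs of any level, the exit

* `pdiv_of_lim`: the values of a closed field with a tight element are divisible by `p` (rank one);
* `MainP p k m`: the one open row: the tower over `C = cl k(x, w)` for the purely inseparable
  extensions of exponent one, `(x, w)` a tight pair of `C` and of the extension;
* `hrone_of_tp`: `HRone` for `K₀(al)`, `K₀` a tower over the closure of `k(x, w)`;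
* `hrone_of_tpc`: the same, the tower in the completion.
-/

set_option autoImplicit false
set_option linter.unusedSectionVars false

open Polynomial

namespace Pool.Agent.TWC

open Pool.Agent.H15JM (RVal)
open Pool.Agent.LU1 (VPos adj)
open Pool.Agent.D2 (Ctx0)
open Pool.Agent.D2P (clI mem_clI mem_rootF mem_adj_self)
open Pool.Agent.TWM
open Pool.Agent.TWS (VG TowR SphC IsoE HF hv)
open Pool.Agent.TW (Ctx Full BD HRone LU)

universe u

variable {k Ω : Type u} [Field k] [Field Ω] [Algebra k Ω] {v : RVal Ω}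

/-! ### The values -/

/-- In rank one the values are rational multiples of one of them. -/
theorem rat_mul_of_ctx (h : Ctx k v 1) {x a : Ω} (hx0 : x ≠ 0) (hv : v x ≠ 0) (ha0 : a ≠ 0) :
    ∃ q : ℚ, v a = q * v x := by
  obtain ⟨X, -, -, hX⟩ := h.rank
  have hsp : ∀ g : Ω, g ≠ 0 → ∃ q : ℚ, v g = q * v (X 0) := by
    intro g hg
    have h1 := hX g hg
    have h2 : Set.range (fun i => v (X i)) = {v (X 0)} := by
      ext y
      constructor
      · rintro ⟨i, rfl⟩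
        have : i = 0 := Subsingleton.elim _ _
        rw [this]
        rfl
      · rintro rfl
        exact ⟨0, rfl⟩
    rw [h2, Submodule.mem_span_singleton] at h1
    obtain ⟨q, hq⟩ := h1
    exact ⟨q, by rw [← hq, Rat.smul_def]⟩
  obtain ⟨q₁, hq₁⟩ := hsp a ha0
  obtain ⟨q₂, hq₂⟩ := hsp x hx0
  have hq₂0 : (q₂ : ℝ) ≠ 0 := fun h1 => hv (by rw [hq₂, h1, zero_mul])
  have hX0 : v (X 0) ≠ 0 := fun h1 => hv (by rw [hq₂, h1, mul_zero])
  refine ⟨q₁ / q₂, ?_⟩
  rw [hq₁, hq₂]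
  push_cast
  field_simp

theorem ratv_of_ctx (h : Ctx k v 1) {x : Ω} (hx0 : x ≠ 0) (hv : v x ≠ 0)
    (A : IntermediateField k Ω) : TWS.RatV v A (v x) := by
  rintro _ ⟨a, -, ha0, rfl⟩
  obtain ⟨q, hq⟩ := rat_mul_of_ctx h hx0 hv ha0
  refine ⟨q.den, q.den_nz, q.num, ?_⟩
  rw [hq, ← mul_assoc]
  congr 1
  have h1 : (q : ℝ) = q.num / q.den := by
    have := Rat.num_div_den q
    exact_mod_cast this.symm
  have h2 : (q.den : ℝ) ≠ 0 := by exact_mod_cast q.den_nz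
  rw [h1]
  field_simp

/-- The values of `L` are divisible by `p`, in rank one, if the roots of `x` are near to `L`. -/
theorem pdiv_of_lim {p : ℕ} [hp : Fact p.Prime] (h : Ctx k v 1) {L : IntermediateField k Ω}
    {x : ℕ → Ω} {r : ℝ} (hr : ∀ n, x (n + 1) ^ p = x n) (hx0 : x 0 ≠ 0) (hv : v (x 0) ≠ 0)
    (hvr : v (x 0) < r) (hlim : ∀ n, Lim v L (r / p ^ n) (x n)) :
    ∀ g ∈ VG v L, g / p ∈ VG v L := by
  have hp0 : (0 : ℝ) < p := by exact_mod_cast hp.out.pos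
  -- the values of the roots
  have hroot : ∀ n, x n ^ p ^ n = x 0 := fun n => by
    have := root_pow_add hr 0 n
    rwa [zero_add] at this
  have hxn : ∀ n, x n ≠ 0 := fun n h1 => hx0 (by
    rw [← hroot n, h1, zero_pow (pow_pos hp.out.pos n).ne'])
  have hval : ∀ n, v (x n) = v (x 0) / p ^ n := by
    intro n
    have h1 : v (x 0) = (p ^ n : ℕ) * v (x n) := by
      rw [← hroot n, v.map_pow (hxn n)]
    rw [h1]
    push_cast
    rw [mul_div_cancel_left₀ _ (pow_pos hp0 n).ne']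
  have hV : ∀ n, v (x 0) / p ^ n ∈ VG v L := by
    intro n
    have hpn : (0 : ℝ) < (p : ℝ) ^ n := pow_pos hp0 n
    have h1 : v (x 0) / p ^ n < r / p ^ n := div_lt_div_of_pos_right hvr hpn
    obtain ⟨a, ha, h2⟩ := hlim n ((r / p ^ n - v (x 0) / p ^ n) / 2) (by linarith)
    have h3 : Gt v (v (x n)) (x n - a) := by
      rw [hval n]
      exact Gt.of_ge h2 (by linarith)
    obtain ⟨h4, h5⟩ := Gt.val_eq (hxn n) h3
    exact ⟨a, ha, h4, by rw [h5, hval n]⟩
  -- rational multiples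
  rintro _ ⟨a, ha, ha0, rfl⟩
  obtain ⟨q, hq⟩ := rat_mul_of_ctx h hx0 hv ha0
  -- the denominator
  obtain ⟨j, B, hpB, hB⟩ : ∃ (j B : ℕ), ¬ p ∣ B ∧ q.den = p ^ j * B := by
    obtain ⟨j, B, h1, h2⟩ := Nat.exists_eq_pow_mul_and_not_dvd q.den_nz p hp.out.ne_one
    exact ⟨j, B, h1, h2⟩
  have hcop : IsCoprime ((p : ℤ) ^ (j + 1)) (B : ℤ) := by
    have h1 : Nat.Coprime (p ^ (j + 1)) B :=
      Nat.Coprime.pow_left _ ((Nat.Prime.coprime_iff_not_dvd hp.out).2 hpB)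
    have h2 := Nat.isCoprime_iff_coprime.2 h1
    push_cast at h2
    exact h2
  obtain ⟨α, β, hαβ⟩ := hcop
  have hB0 : (B : ℝ) ≠ 0 := by
    intro h1
    have h2 : B = 0 := by exact_mod_cast h1
    exact hpB (by rw [h2]; exact dvd_zero p)
  have hαβ' : (α : ℝ) * p ^ (j + 1) + β * B = 1 := by exact_mod_cast hαβ
  have hqd : v a = q.num / (p ^ j * B) * v (x 0) := by
    rw [hq]
    congr 1
    have h1 : (q : ℝ) = q.num / q.den := by
      have := Rat.num_div_den q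
      exact_mod_cast this.symm
    rw [h1, hB]
    push_cast
    rfl
  have key : v a / p = (α * p ^ j : ℤ) • v a + (β * q.num : ℤ) • (v (x 0) / p ^ (j + 1)) := by
    rw [zsmul_eq_mul, zsmul_eq_mul]
    push_cast
    rw [hqd]
    have h2 : (p : ℝ) ^ j ≠ 0 := (pow_pos hp0 j).ne'
    have h3 : (q.num : ℝ) / (p ^ j * B) * v (x 0) / p =
        (α * p ^ (j + 1) + β * B) * ((q.num : ℝ) / (p ^ j * B) * v (x 0) / p) := by
      rw [hαβ', one_mul]
    rw [h3, pow_succ]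
    field_simp
  rw [key]
  exact add_mem ((VG v L).zsmul_mem (VG.self ha ha0) _) ((VG v L).zsmul_mem (hV _) _)

/-! ### The open row -/

/-- The base field of a pair. -/
noncomputable def CP (v : RVal Ω) (a b : Ω) : IntermediateField k Ω :=
  cadj v (cadj v (⊥ : IntermediateField k Ω) a) b

/-- **Main row.** -/
def MainP (p : ℕ) (k : Type u) [Field k] (m : ℕ) : Prop :=
  ∀ (H : Type u) [Field H] [Algebra k H] [IsAlgClosed H] [CharP H p] (v : RVal H),
    Ctx0 k v → CompleteV v → SphC v → (∀ ρ : ℝ, ∃ c : H, c ≠ 0 ∧ v c = ρ) →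
    ∀ (L₀ L : IntermediateField k H) (x w : ℕ → H) (r s : ℝ),
      v (x 0) ≠ 0 → v (x 0) < r → v (w 0) < s →
      TWS.RatV v (CP (k := k) v (x 0) (w 0)) (v (x 0)) →
      (∀ g ∈ VG v (CP (k := k) v (x 0) (w 0)), g / p ∈ VG v (CP (k := k) v (x 0) (w 0))) →
      TP p v (CP (k := k) v (x 0) (w 0)) x w r s → TowR v m (CP (k := k) v (x 0) (w 0)) L₀ →
      TP p v L x w r s → L₀ ≤ L → (∀ a ∈ L, a ^ p ∈ L₀) →
      TowR v m (CP (k := k) v (x 0) (w 0)) L

/-! ### Transfer -/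

section Transfer

variable {Ω' : Type u} [Field Ω'] [Algebra k Ω'] {v' : RVal Ω'} {ι : Ω →ₐ[k] Ω'}
  {A B : IntermediateField k Ω}

theorem cp_map (h : IsoE v v' ι) (hc : CompleteV v) (a b : Ω) :
    (CP (k := k) v a b).map ι = CP (k := k) v' (ι a) (ι b) := by
  rw [CP, CP, ← IntermediateField.map_bot ι, h.cadj_map hc, h.cadj_map hc]

theorem tp_map (h : IsoE v v' ι) (hc : CompleteV v) {p : ℕ} {x w : ℕ → Ω} {r s : ℝ}
    (hx : TP p v A x w r s) :
    TP p v' (A.map ι) (fun n => ι (x n)) (fun n => ι (w n)) r s where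
  tgt := tgt_map h hc hx.tgt
  mem := ⟨_, hx.mem, rfl⟩
  root n := by rw [← map_pow, hx.root]
  far := by
    rw [h.ew_map hc]
    exact fun h1 => hx.far (h.nr'_iff.1 h1)
  lim n := h.lim_iff.2 (hx.lim n)

theorem vg_map (h : IsoE v v' ι) : VG v' (A.map ι) = VG v A := by
  ext g
  constructor
  · rintro ⟨_, ⟨a, ha, rfl⟩, h0, rfl⟩
    have h1 : a ≠ 0 := fun h1 => h0 (by rw [h1]; exact map_zero _)
    exact ⟨a, ha, h1, (h.val a h1).symm⟩
  · rintro ⟨a, ha, h0, rfl⟩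
    exact ⟨ι a, ⟨a, ha, rfl⟩, IsoE.ne_zero h0, h.val a h0⟩

theorem ratv_map (h : IsoE v v' ι) {γ : ℝ} (hR : TWS.RatV v A γ) : TWS.RatV v' (A.map ι) γ := by
  intro g hg
  rw [vg_map h] at hg
  exact hR g hg

end Transfer

section Exit

variable {p : ℕ} [hp : Fact p.Prime] [CharP k p] [CharP Ω p] [IsAlgClosed Ω]

theorem ne_zero_of_far {w : ℕ → Ω} (hr : ∀ n, w (n + 1) ^ p = w n)
    {B : IntermediateField k Ω} {s : ℝ} (hfar : ¬ Nr' v B s (w 1)) : w 0 ≠ 0 := by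
  intro h1
  have h2 : w 1 ^ p = w 0 := hr 0
  rw [h1] at h2
  have h3 := eq_zero_of_pow_eq_zero h2
  refine hfar ⟨0, zero_mem _, ?_⟩
  rw [h3, sub_zero]
  exact Gt.zero

/-- The value of a tight element is less than its level. -/
theorem val_lt_lev (h0 : Ctx0 k v) {B : IntermediateField k Ω}
    (hV : ∀ g ∈ VG v B, g / p ∈ VG v B) {w : ℕ → Ω} {s : ℝ} (hw : Tgt p v B w s) :
    v (w 0) < s := by
  have hp0 : (0 : ℝ) < p := by exact_mod_cast hp.out.pos
  have h1 : w 1 ^ p = w 0 := hw.root 0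
  have hfar : ¬ Nr' v B (s / p) (w 1) := by
    have := (hw.dst 0).far
    rwa [zero_add, pow_one] at this
  have hw1 : w 1 ≠ 0 := fun h2 => hfar ⟨0, zero_mem _, by rw [h2, sub_zero]; exact Gt.zero⟩
  have h2 := na_of_far h0 hV (ρ := s / p) (y := w 1) (by rw [h1]; exact hw.mem) hfar
  have h3 : v (w 1) < s / p := by
    by_contra h3
    exact h2 ⟨0, zero_mem _, by rw [sub_zero]; exact fun _ => not_lt.1 h3⟩
  rw [← h1, v.map_pow hw1]
  rw [lt_div_iff₀ hp0] at h3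
  linarith

/-- The tower over the base of the pair, in `Ω`. -/
theorem towR_of_mainP [IsAlgClosed k] (h0 : Ctx0 k v) (hcv : CompleteV v) {m : ℕ}
    (hMain : MainP p k m) {L₀ L : IntermediateField k Ω} {x w : ℕ → Ω} {r s : ℝ}
    (hv : v (x 0) ≠ 0) (hvr : v (x 0) < r)
    (hR : TWS.RatV v (CP (k := k) v (x 0) (w 0)) (v (x 0)))
    (hV : ∀ g ∈ VG v (CP (k := k) v (x 0) (w 0)), g / p ∈ VG v (CP (k := k) v (x 0) (w 0)))
    (hC : TP p v (CP (k := k) v (x 0) (w 0)) x w r s)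
    (hT : TowR v m (CP (k := k) v (x 0) (w 0)) L₀) (hL : TP p v L x w r s) (hle : L₀ ≤ L)
    (hpow : ∀ a ∈ L, a ^ p ∈ L₀) : TowR v m (CP (k := k) v (x 0) (w 0)) L := by
  obtain ⟨φ, hφ⟩ := TWS.exists_emb h0
  have hI : IsoE v (TWS.hv k) φ := ⟨hφ⟩
  have : CharP (HF k) p := charP_of_injective_algebraMap (algebraMap k (HF k)).injective p
  have hx0 : x 0 ≠ 0 := by
    have h1 := (hC.tgt.dst 0).far
    exact ne_zero_of_far hC.tgt.root h1
  have hw0 : w 0 ≠ 0 := ne_zero_of_far hC.root hC.far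
  have hws : v (w 0) < s := val_lt_lev h0 hV hC.tgt'
  have h1 := hMain (HF k) (TWS.hv k) (TWS.ctx0_hv k) (TWS.completeV_hv k) (TWS.sphC_hv k)
    (TWS.exists_val k) (L₀.map φ) (L.map φ) (fun n => φ (x n)) (fun n => φ (w n)) r s
    (by rwa [hφ _ hx0]) (by rwa [hφ _ hx0]) (by rwa [hφ _ hw0])
    (by rw [← cp_map hI hcv, hφ _ hx0]; exact ratv_map hI hR)
    (by rw [← cp_map hI hcv, vg_map hI]; exact hV)
    (by rw [← cp_map hI hcv]; exact tp_map hI hcv hC)
    (by rw [← cp_map hI hcv]; exact towR_map hI hcv hT) (tp_map hI hcv hL)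
    (IntermediateField.map_mono φ hle) (by
      rintro _ ⟨a, ha, rfl⟩
      exact ⟨a ^ p, hpow a ha, map_pow φ a p⟩)
  rw [← cp_map hI hcv] at h1
  exact towR_of_map hI hcv h1

/-- The field `C` of a pair is the closure of a finitely generated field. -/
theorem tower_fg {m : ℕ} : ∀ {A : IntermediateField k Ω} {L : IntermediateField k Ω} {d : ℕ},
    A.FG → Algebra.trdeg k A = d → TowR v m (clI v A) L →
    ∃ F : IntermediateField k Ω, F.FG ∧ A ≤ F ∧ Algebra.trdeg k F = (d + m : ℕ) ∧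
      L = clI v F := by
  induction m with
  | zero =>
    intro A L d hfg htr hT
    obtain ⟨-, h1⟩ := TWS.towR_iff_zero.1 hT
    exact ⟨A, hfg, le_rfl, by rw [htr, Nat.add_zero], h1.symm⟩
  | succ m ih =>
    intro A L d hfg htr hT
    obtain ⟨z, s, hz, hT⟩ := TWS.towR_iff_succ.1 hT
    rw [clI_adj_clI] at hT
    obtain ⟨F, h1, h2, h3, h4⟩ := ih (A := adj A z) (d := d + 1) (D2P.fg_adj hfg z) (by
      rw [TW.HRLU.trdeg_adj (TL.transcendental hz (TWM.le_clI _)), htr]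
      push_cast
      rfl) hT
    refine ⟨F, h1, fun a ha => h2 ((mem_adj_self A z).2 ha), ?_, h4⟩
    rw [h3]
    congr 1
    omega

/-- **`HRone` from a tight pair of the base**, `Ω` complete. -/
theorem hrone_of_tp [IsAlgClosed k] (h : Ctx k v 1) (hcv : CompleteV v) {m : ℕ} (hm1 : 1 ≤ m)
    (hm : m ≤ 2) (hMain : MainP p k m) {K₀ : IntermediateField k Ω} (hK : K₀.FG)
    (hfull : Full v K₀) (htr : Algebra.trdeg k K₀ = (m + 2 : ℕ)) (hBDK : BD p v K₀) {al : Ω}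
    (hal : al ^ p ∈ K₀) (hBD : BD p v (adj K₀ al)) {x w : ℕ → Ω} {r s : ℝ} (hv : v (x 0) ≠ 0)
    (hvr : v (x 0) < r) (hC : TP p v (CP (k := k) v (x 0) (w 0)) x w r s)
    (hT : TowR v m (CP (k := k) v (x 0) (w 0)) (clI v K₀))
    (htrC : Transcendental (adj (⊥ : IntermediateField k Ω) (x 0)) (w 0)) :
    HRone v (adj K₀ al) := by
  have hp0 : 0 < p := hp.out.pos
  have h0 : Ctx0 k v := h.toCtx0
  have hx0 : x 0 ≠ 0 := by
    have h1 := (hC.tgt.dst 0).far
    exact ne_zero_of_far hC.tgt.root h1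
  obtain ⟨n, rfl⟩ : ∃ n, m = n + 1 := ⟨m - 1, by omega⟩
  have hVC := pdiv_of_lim h hC.tgt.root hx0 hv hvr hC.lim_x
  have hx := hC.towR hT
  have hVK := pdiv_of_lim h hx.tgt.root hx0 hv hvr hx.lim_x
  -- the last floor
  obtain ⟨N, y, t, hTN, hy, hcl⟩ := hT.last (cld_cadj v _ _)
  have e1 : CP (k := k) v (x 0) (w 0) = clI v (adj (adj ⊥ (x 0)) (w 0)) := clI_adj_clI
  have hfgx : (adj (⊥ : IntermediateField k Ω) (x 0)).FG :=
    D2P.fg_adj IntermediateField.fg_bot (x 0)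
  have htr2 : Algebra.trdeg k (adj (adj (⊥ : IntermediateField k Ω) (x 0)) (w 0)) =
      (2 : ℕ) := by
    rw [TW.HRLU.trdeg_adj htrC, trdeg_adj_bot h0 hx0 hv]
    norm_num
  rw [e1] at hTN
  obtain ⟨F, hF, hAF, hFt, rfl⟩ := tower_fg (D2P.fg_adj hfgx (w 0)) htr2 hTN
  have hxA : x 0 ∈ adj (adj (⊥ : IntermediateField k Ω) (x 0)) (w 0) :=
    (mem_adj_self _ (w 0)).2 (mem_adj_self _ (x 0)).1
  have hwA : w 0 ∈ adj (adj (⊥ : IntermediateField k Ω) (x 0)) (w 0) := (mem_adj_self _ (w 0)).1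
  have hFf : Full v F := full_of_mem h (hAF hxA) hx0 hv
  have hLU : ∀ E : IntermediateField k Ω, E.FG → Full v E →
      Algebra.trdeg k E = (1 + (n + 1) : ℕ) → BD p v E → LU p v 1 E := by
    intro K hK hKf htK hBDK
    exact TWJ.lu_bd_two p h (TWJ.stepAll p k 1) (by omega) hK hKf htK hBDK
  rcases tp_step h hcv hLU hK hfull (by rw [htr]; congr 1; omega) hBDK hal hBD hF hFf
    (by rw [hFt]; congr 1; omega) hy hcl hVK hx (self_le_clI v F (hAF hxA))
    (self_le_clI v F (hAF hwA)) with h1 | h1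
  · exact h1
  · have hle : clI v K₀ ≤ clI v (adj K₀ al) := clI_mono' fun a ha => (mem_adj_self K₀ al).2 ha
    have h2 := towR_of_mainP h0 hcv hMain hv hvr (ratv_of_ctx h hx0 hv _) hVC hC hT h1 hle
      (pow_mem_clI p (TWJ.pow_mem_of_adj1 p hal))
    have htg : Algebra.trdeg k (adj K₀ al) = (n + 1 + 2 : ℕ) := by
      refine (TW.trdeg_eq_of_alg (mem_adj_self K₀ al).2 (D2P.isAlgebraic_sup {al} ?_)).trans htr
      rintro s rfl
      exact D2P.isAlgebraic_of_pow hp0 (D2P.isAlgebraic_of_mem hal)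
    refine hrone_of_gen p h hcv hm (D2P.fg_adj hK al) (hfull.mono (mem_adj_self K₀ al).2) htg
      hBD ⟨x 0, h1.tgt.mem, w 0, h1.mem, hx0, hv, htrC, h2⟩

/-- The completion of `(Ω, v)` contains a tower over the closure of `k(x, w)`, `(x, w)` a tight pair
of any levels, for the closure of `E`. -/
def TPc (p : ℕ) (v : RVal Ω) (m : ℕ) (E : IntermediateField k Ω) : Prop :=
  ∃ (Ω' : Type u) (_ : Field Ω') (_ : Algebra k Ω') (ι : Ω →ₐ[k] Ω') (v' : RVal Ω')
    (_ : IsAlgClosed Ω'), CompleteV v' ∧ Dense v v' ι ∧ ∃ (x w : ℕ → Ω') (r s : ℝ),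
      v' (x 0) ≠ 0 ∧ v' (x 0) < r ∧ Transcendental (adj (⊥ : IntermediateField k Ω') (x 0)) (w 0) ∧
      TP p v' (CP (k := k) v' (x 0) (w 0)) x w r s ∧
      TowR v' m (CP (k := k) v' (x 0) (w 0)) (clI v' (E.map ι))

/-- **`HRone` from a tight pair of the base.** -/
theorem hrone_of_tpc [IsAlgClosed k] (h : Ctx k v 1) {m : ℕ} (hm1 : 1 ≤ m)
    (hm : m ≤ 2) (hMain : MainP p k m) {K₀ : IntermediateField k Ω} (hK : K₀.FG)
    (hfull : Full v K₀) (htr : Algebra.trdeg k K₀ = (m + 2 : ℕ)) (hBDK : BD p v K₀) {al : Ω}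
    (hal : al ^ p ∈ K₀) (hBD : BD p v (adj K₀ al)) (ht : TPc p v m K₀) :
    HRone v (adj K₀ al) := by
  obtain ⟨Ω', iF, iA, ι, v', iC, h2, h3, x, w, r, s, hv, hvr, htrC, hC, hT⟩ := ht
  have : CharP Ω' p := Dense.charP ι p
  have hc' : Ctx k v' 1 := Dense.ctx h3 h
  rw [← Dense.hrone_iff h3, TWM.Dense.adj_map]
  refine hrone_of_tp hc' h2 hm1 hm hMain (Dense.fg_map hK) ((Dense.full_iff h3).2 hfull)
    (by rw [Dense.trdeg_map]; exact htr) ((Dense.bd_iff h3).2 hBDK) (al := ι al)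
    (by rw [← map_pow]; exact ⟨_, hal, rfl⟩) ?_ hv hvr hC hT htrC
  rw [← TWM.Dense.adj_map]
  exact (Dense.bd_iff h3).2 hBD

end Exit

end Pool.Agent.TWC
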