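import Pool.Agent.Lib.TWC.PairR
import Pool.Agent.Lib.TWC.TPow
import Pool.Agent.Lib.TWC.TPx
import Pool.Agent.Lib.TWM.LogC
import Pool.Agent.Lib.TWX.PtE

/-!
# TANK W, class C: radii which are not in the value group (tame descent)

`P` closed, `Z ^ N ∈ P`, the values of `Z ^ j`, `N ∤ j`, are not those of `P` (`GD`): then
`P(Z) = ⊕ P Z ^ j`, an orthogonal sum. For `C` closed, `C = cl k(Z, y)`, `y Z ^ c ∈ P`:
`C = D(Z)`, `D = C ⊓ P` (`GD.adj_inf`); if `Z` is tight in `C` then `Z ^ N` is tight in `D`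
(`GD.tgt`), and `C E_Z = E_Z⟨y⟩` gives `D E = E⟨y Z ^ c⟩`, `E = E_(Z ^ N)` (`GD.gen`).
-/

set_option autoImplicit false

open Polynomial

namespace Pool.Agent.TWC

open Pool.Agent.H15JM (RVal)
open Pool.Agent.LU1 (VPos adj)
open Pool.Agent.D2 (Ctx0)
open Pool.Agent.D2P (clI mem_clI)
open Pool.Agent.TWM Pool.Agent.TWM.C
open Pool.Agent.TWS (VG)

universe u

variable {k Ω : Type u} [Field k] [Field Ω] [Algebra k Ω] {v : RVal Ω}
  {P C D : IntermediateField k Ω} {Z a b : Ω} {N : ℕ} {c : ℝ}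

/-- `P` is closed, `Z ^ N ∈ P`, the values of `Z ^ j` are not those of `P` if `N ∤ j`. -/
structure GD (v : RVal Ω) (P : IntermediateField k Ω) (Z : Ω) (N : ℕ) : Prop where
  cld : Cld v P
  pos : 0 < N
  ne : Z ≠ 0
  pw : Z ^ N ∈ P
  val : ∀ j : ℤ, (j : ℝ) * v Z ∈ VG v P → (N : ℤ) ∣ j

/-- The sum is orthogonal. -/
theorem GD.orth (hG : GD v P Z N) {f : ℕ → Ω} (hf : ∀ j, f j ∈ P)
    (h : v.Ge c (∑ j ∈ Finset.range N, f j * Z ^ j)) {j : ℕ} (hj : j < N) :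
    v.Ge c (f j * Z ^ j) := by
  classical
  by_cases hj0 : f j = 0
  · rw [hj0, zero_mul]
    exact RVal.Ge.zero
  set S := (Finset.range N).filter fun i => f i ≠ 0 with hS
  have hsum : ∑ i ∈ S, f i * Z ^ i = ∑ i ∈ Finset.range N, f i * Z ^ i := by
    refine Finset.sum_subset (Finset.filter_subset _ _) fun i hi hiS => ?_
    have : f i = 0 := by
      by_contra h1
      exact hiS (Finset.mem_filter.2 ⟨hi, h1⟩)
    rw [this, zero_mul]
  have hjS : j ∈ S := Finset.mem_filter.2 ⟨Finset.mem_range.2 hj, hj0⟩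
  obtain ⟨i, hi, h1, h2, h3⟩ := val_sum_distinct (v := v) S (fun i => f i * Z ^ i)
    (fun i hi => mul_ne_zero (Finset.mem_filter.1 hi).2 (pow_ne_zero _ hG.ne))
    (fun i hi j hj hij => by
      have hi0 := (Finset.mem_filter.1 hi).2
      have hj0 := (Finset.mem_filter.1 hj).2
      have hiN := Finset.mem_range.1 (Finset.mem_filter.1 hi).1
      have hjN := Finset.mem_range.1 (Finset.mem_filter.1 hj).1
      simp only [v.map_mul hi0 (pow_ne_zero _ hG.ne), v.map_mul hj0 (pow_ne_zero _ hG.ne),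
        v.map_pow hG.ne] at hij
      have h4 : (((i : ℤ) - j : ℤ) : ℝ) * v Z ∈ VG v P := by
        have h5 : (((i : ℤ) - j : ℤ) : ℝ) * v Z = v (f j) - v (f i) := by
          push_cast
          linarith
        rw [h5]
        exact sub_mem (VG.self (hf j) hj0) (VG.self (hf i) hi0)
      obtain ⟨e, he⟩ := hG.val _ h4
      have h5 : e = 0 := by
        by_contra h6
        have h7 : 1 ≤ |e| := Int.one_le_abs h6
        have h8 : |(i : ℤ) - j| < N := by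
          rw [abs_lt]
          omega
        rw [he, abs_mul] at h8
        have h9 : |(N : ℤ)| = N := abs_of_nonneg (by positivity)
        rw [h9] at h8
        nlinarith
      rw [h5, mul_zero] at he
      omega) ⟨j, hjS⟩
  rw [← hsum] at h
  have h4 := h h1
  rw [h2] at h4
  exact fun _ => h4.trans (h3 j hjS)

/-- The elements of `D(Z)`. -/
theorem exists_sum (hN : 0 < N) (hZ : Z ^ N ∈ D) (ha : a ∈ adj D Z) :
    ∃ f : ℕ → Ω, (∀ j, f j ∈ D) ∧ a = ∑ j ∈ Finset.range N, f j * Z ^ j := by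
  have hmon := monic_X_pow_sub_C (⟨Z ^ N, hZ⟩ : D) hN.ne'
  have hint : IsIntegral D Z := by
    refine ⟨X ^ N - Polynomial.C (⟨Z ^ N, hZ⟩ : D), hmon, ?_⟩
    rw [eval₂_sub, eval₂_X_pow, eval₂_C]
    exact sub_self _
  rw [D2P.mem_adj_iff] at ha
  have h4 : a ∈ Algebra.adjoin D {Z} := by
    rw [← IntermediateField.adjoin_simple_toSubalgebra_of_isAlgebraic hint.isAlgebraic]
    exact ha
  rw [Algebra.adjoin_singleton_eq_range_aeval] at h4
  obtain ⟨R, hR⟩ := h4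
  have hR' : aeval Z R = a := hR
  set G := X ^ N - Polynomial.C (⟨Z ^ N, hZ⟩ : D) with hG
  have hGd : G.natDegree = N := natDegree_X_pow_sub_C
  have hG1 : G ≠ 1 := by
    intro h
    rw [h, natDegree_one] at hGd
    exact hN.ne hGd
  have h5 : (R %ₘ G).natDegree < N := by
    have := natDegree_modByMonic_lt R hmon hG1
    rwa [hGd] at this
  have h6 : aeval Z G = 0 := by
    rw [hG, map_sub, map_pow, aeval_X, aeval_C]
    exact sub_self _
  have h7 : aeval Z (R %ₘ G) = a := by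
    have h8 := congrArg (aeval Z) (modByMonic_add_div R G)
    rw [map_add, map_mul, h6, zero_mul, add_zero, hR'] at h8
    exact h8
  refine ⟨fun j => ((R %ₘ G).coeff j : Ω), fun j => SetLike.coe_mem _, ?_⟩
  rw [← h7, aeval_eq_sum_range' h5]
  refine Finset.sum_congr rfl fun j _ => ?_
  rw [Algebra.smul_def]
  rfl

/-- The component of degree `0` is nearer. -/
theorem GD.near (hG : GD v P Z N) (hD : D ≤ P) (hZ : Z ^ N ∈ D) (ha : a ∈ adj D Z) (hb : b ∈ P)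
    (h : v.Ge c (b - a)) : ∃ a₀ ∈ D, v.Ge c (b - a₀) := by
  obtain ⟨f, hf, rfl⟩ := exists_sum hG.pos hZ ha
  refine ⟨f 0, hf 0, ?_⟩
  have hN := hG.pos
  obtain ⟨M, rfl⟩ := Nat.exists_eq_succ_of_ne_zero hN.ne'
  have h1 : b - ∑ j ∈ Finset.range (M + 1), f j * Z ^ j =
      ∑ j ∈ Finset.range (M + 1), (if j = 0 then b - f 0 else - f j) * Z ^ j := by
    rw [Finset.sum_range_succ', Finset.sum_range_succ']
    simp only [Nat.succ_ne_zero, if_false, if_true, pow_zero, mul_one, neg_mul,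
      Finset.sum_neg_distrib]
    ring
  rw [Nat.succ_eq_add_one, h1] at h
  have h2 := hG.orth (f := fun j => if j = 0 then b - f 0 else - f j) (fun j => by
    split_ifs
    · exact sub_mem hb (hD (hf 0))
    · exact neg_mem (hD (hf j))) h (j := 0) hN
  simpa using h2

/-- `D(Z) ⊓ P = D`. -/
theorem GD.inf (hG : GD v P Z N) (hD : D ≤ P) (hZ : Z ^ N ∈ D) (ha : a ∈ adj D Z) (haP : a ∈ P) :
    a ∈ D := by
  obtain ⟨f, hf, h1⟩ := exists_sum hG.pos hZ ha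
  have h2 : ∀ c : ℝ, v.Ge c (a - f 0) := by
    intro c
    have hN := hG.pos
    obtain ⟨M, rfl⟩ := Nat.exists_eq_succ_of_ne_zero hN.ne'
    have h3 : (0 : Ω) =
        ∑ j ∈ Finset.range (M + 1), (if j = 0 then a - f 0 else - f j) * Z ^ j := by
      have h4 : (0 : Ω) = a - ∑ j ∈ Finset.range (M + 1), f j * Z ^ j := by
        rw [Nat.succ_eq_add_one] at h1
        rw [← h1, sub_self]
      rw [h4, Finset.sum_range_succ', Finset.sum_range_succ']
      simp only [Nat.succ_ne_zero, if_false, if_true, pow_zero, mul_one, neg_mul,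
        Finset.sum_neg_distrib]
      ring
    have h5 : v.Ge c (0 : Ω) := RVal.Ge.zero
    rw [h3] at h5
    have h2 := hG.orth (f := fun j => if j = 0 then a - f 0 else - f j) (fun j => by
      split_ifs
      · exact sub_mem haP (hD (hf 0))
      · exact neg_mem (hD (hf j))) h5 (j := 0) hN
    simpa using h2
  have h3 : a = f 0 := by
    by_contra hne
    have := h2 (v (a - f 0) + 1) (sub_ne_zero.2 hne)
    linarith
  rw [h3]
  exact hf 0

/-! ### Fields generated by homogeneous elements -/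

theorem alg_of_pw (hN : 0 < N) (hZ : Z ^ N ∈ D) : IsAlgebraic D Z := by
  refine IsAlgebraic.of_pow hN ?_
  exact isAlgebraic_algebraMap (⟨_, hZ⟩ : D)

/-- `C = D(Z)`, `D = C ⊓ P`. -/
theorem GD.adj_inf (hc : CompleteV v) (hG : GD v P Z N) {y : Ω} {c : ℤ} (hy : y * Z ^ c ∈ P)
    (hC : C = CP v Z y) : adj (C ⊓ P) Z = C := by
  have hCc : Cld v C := by
    rw [hC]
    exact cld_cadj v _ _
  have hZC : Z ∈ C := by
    rw [hC]
    exact le_cadj v _ _ (self_mem_cadj v _ _)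
  have hyC : y ∈ C := by
    rw [hC]
    exact self_mem_cadj v _ _
  refine le_antisymm (D2P.adj_le inf_le_left hZC) ?_
  have hpw : Z ^ N ∈ C ⊓ P := ⟨pow_mem hZC N, hG.pw⟩
  have h1 : Cld v (adj (C ⊓ P) Z) := cld_adj hc (cld_inf_tgt hCc hG.cld) (alg_of_pw hG.pos hpw)
  have hZa : Z ∈ adj (C ⊓ P) Z := (D2P.mem_adj_self _ _).1
  have h2 : y * Z ^ c ∈ adj (C ⊓ P) Z :=
    (D2P.mem_adj_self _ _).2 ⟨mul_mem hyC (zpow_mem hZC c), hy⟩
  have h3 : y ∈ adj (C ⊓ P) Z := by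
    have e : y = y * Z ^ c * Z ^ (-c) := by
      rw [mul_assoc, ← zpow_add₀ hG.ne, add_neg_cancel, zpow_zero, mul_one]
    rw [e]
    exact mul_mem h2 (zpow_mem hZa _)
  conv_lhs => rw [hC]
  exact TWM.cadj_le h1 (TWM.cadj_le h1 bot_le hZa) h3

section P

variable {p : ℕ} [hp : Fact p.Prime] [CharP k p] [CharP Ω p] {X : ℕ → Ω} {r s : ℝ} {y : Ω}

omit [CharP k p] in
/-- The roots are homogeneous. -/
theorem pw_root (hP : ∀ a ∈ P, ∃ b ∈ P, b ^ p = a) (hr : ∀ n, X (n + 1) ^ p = X n)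
    (h : X 0 ^ N ∈ P) (n : ℕ) : X n ^ N ∈ P := by
  induction n with
  | zero => exact h
  | succ n ih =>
    obtain ⟨b, hb, h1⟩ := hP _ ih
    have h2 : (X (n + 1) ^ N) ^ p = b ^ p := by
      rw [h1, ← pow_mul, mul_comm, pow_mul, hr]
    have h3 : X (n + 1) ^ N = b := frobenius_inj Ω p (by simpa [frobenius_def] using h2)
    rw [h3]
    exact hb

omit [CharP k p] in
theorem zpw_root (hP : ∀ a ∈ P, ∃ b ∈ P, b ^ p = a) (hr : ∀ n, X (n + 1) ^ p = X n)
    (h : X 0 ^ N ∈ P) (n : ℕ) : X n ^ (-(N : ℤ)) ∈ P := by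
  rw [zpow_neg, zpow_natCast]
  exact inv_mem (pw_root hP hr h n)

omit [CharP k p] in
/-- **`X ^ (-N)` is tight in `D = C ⊓ P`.** -/
theorem GD.tgt [IsAlgClosed Ω] (hG : GD v P (X 0) N) (hP : ∀ a ∈ P, ∃ b ∈ P, b ^ p = a)
    (hN : ¬ p ∣ N) (hT : Tgt p v C X r) (hr : v (X 0) < r) (hC : adj (C ⊓ P) (X 0) = C) :
    Tgt p v (C ⊓ P) (fun n => X n ^ (-(N : ℤ))) (r - v (X 0) + (-(N : ℤ) : ℤ) * v (X 0)) := by
  have hm : ¬ (p : ℤ) ∣ -(N : ℤ) := by
    rw [dvd_neg]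
    exact_mod_cast hN
  have h1 := hT.zpow hG.ne hm hr
  refine ⟨cld_inf_tgt hT.cld hG.cld, ⟨h1.mem, zpw_root hP hT.root hG.pw 0⟩, h1.root, fun n => ?_⟩
  refine ⟨?_, fun ε hε => ?_⟩
  · rintro ⟨a, ha, h2⟩
    exact (h1.dst n).far ⟨a, ha.1, h2⟩
  · obtain ⟨a, ha, h2⟩ := (h1.dst n).near ε hε
    have h3 : a ∈ adj (C ⊓ P) (X 0) := by
      rw [hC]
      exact ha
    exact hG.near inf_le_right ⟨pow_mem hT.mem N, hG.pw⟩ h3 (zpw_root hP hT.root hG.pw (n + 1)) h2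

omit [CharP k p] [CharP Ω p] in
/-- `E_X = E(X 0)`, `E = E_(X ^ (-N))`. -/
theorem EW_adj_pw [IsAlgClosed Ω] (hc : CompleteV v) (hr : ∀ n, X (n + 1) ^ p = X n)
    (hX : X 0 ≠ 0) (hN0 : 0 < N) (hN : ¬ p ∣ N) (B : IntermediateField k Ω) :
    EW v B X = adj (EW v B fun n => X n ^ (-(N : ℤ))) (X 0) := by
  have hm : ¬ (p : ℤ) ∣ -(N : ℤ) := by
    rw [dvd_neg]
    exact_mod_cast hN
  set E := EW v B fun n => X n ^ (-(N : ℤ)) with hE
  have hpw : X 0 ^ N ∈ E := by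
    have h1 : X 0 ^ (-(N : ℤ)) ∈ E := EW.mem (u := fun n => X n ^ (-(N : ℤ))) 0
    have h2 := inv_mem h1
    rwa [zpow_neg, inv_inv, zpow_natCast] at h2
  have hcl : Cld v (adj E (X 0)) := cld_adj hc EW.cld (alg_of_pw hN0 hpw)
  refine le_antisymm (clI_le' (sup_le (EW.le.trans (D2P.mem_adj_self E _).2)
    (IntermediateField.adjoin_le_iff.2 ?_)) hcl) (D2P.adj_le (clI_le' (sup_le EW.le
      (IntermediateField.adjoin_le_iff.2 ?_)) EW.cld) (EW.mem 0))
  · rintro _ ⟨n, rfl⟩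
    obtain ⟨a, b, hab⟩ := root_of_zpow hr hX hm n
    rw [hab]
    exact mul_mem (zpow_mem (D2P.mem_adj_self E _).1 b) (zpow_mem ((D2P.mem_adj_self E _).2
      (EW.mem (u := fun n => X n ^ (-(N : ℤ))) n)) a)
  · rintro _ ⟨n, rfl⟩
    exact zpow_mem (EW.mem n) _

omit [CharP k p] in
/-- **The generator of the fixed field.** -/
theorem GD.gen [IsAlgClosed Ω] (hc : CompleteV v) (hG : GD v P (X 0) N)
    (hP : ∀ a ∈ P, ∃ b ∈ P, b ^ p = a) (hN : ¬ p ∣ N) (hr : ∀ n, X (n + 1) ^ p = X n)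
    (hXC : X 0 ∈ C) (hyC : y ∈ C) {c : ℤ} (hy : y * X 0 ^ c ∈ P) (h : GenX v C X y s) :
    GenX v (C ⊓ P) (fun n => X n ^ (-(N : ℤ))) (y * X 0 ^ c) (s + c * v (X 0)) := by
  have hEX := EW_adj_pw (v := v) hc hr hG.ne hG.pos hN (⊥ : IntermediateField k Ω)
  set E := EW v (⊥ : IntermediateField k Ω) fun n => X n ^ (-(N : ℤ)) with hE
  have hEP : E ≤ P := clI_le' (sup_le bot_le (IntermediateField.adjoin_le_iff.2 (by
    rintro _ ⟨n, rfl⟩
    exact zpw_root hP hr hG.pw n))) hG.cld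
  have hpw : X 0 ^ N ∈ E := by
    have h1 : X 0 ^ (-(N : ℤ)) ∈ E := EW.mem (u := fun n => X n ^ (-(N : ℤ))) 0
    have h2 := inv_mem h1
    rwa [zpow_neg, inv_inv, zpow_natCast] at h2
  have hc0 : X 0 ^ c ≠ 0 := zpow_ne_zero c hG.ne
  have hcm : X 0 ^ c ∈ EW v (⊥ : IntermediateField k Ω) X := zpow_mem (EW.mem 0) c
  have hTL : TL v (EW v (⊥ : IntermediateField k Ω) X) (y * X 0 ^ c) (s + c * v (X 0)) := by
    have h1 := h.tl.affine hcm hc0 (zero_mem _)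
    rw [add_zero, mul_comm, v.map_zpow hG.ne, add_comm] at h1
    exact h1
  refine ⟨⟨fun ε hε => ?_, fun θ hθ => hTL.far θ ?_⟩, ?_⟩
  · obtain ⟨a, ha, h1⟩ := hTL.lim ε hε
    rw [hEX] at ha
    exact hG.near hEP hpw ha hy h1
  · exact D2P.isAlgebraic_mono (by rw [hEX]; exact (D2P.mem_adj_self E _).2) hθ
  · have hDC : C ⊓ P ≤ C := inf_le_left
    refine le_antisymm ?_ ?_
    · intro a ha
      have haP : a ∈ P := by
        refine clI_le' (sup_le inf_le_right (IntermediateField.adjoin_le_iff.2 ?_)) hG.cld ha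
        rintro _ ⟨n, rfl⟩
        exact zpw_root hP hr hG.pw n
      have haC : a ∈ EW v C X := by
        refine clI_le' (sup_le (hDC.trans EW.le) (IntermediateField.adjoin_le_iff.2 ?_)) EW.cld ha
        rintro _ ⟨n, rfl⟩
        exact zpow_mem (EW.mem n) _
      set F := cadj v E (y * X 0 ^ c) with hF
      have hEF : E ≤ F := le_cadj v _ _
      have hFP : F ≤ P := TWM.cadj_le hG.cld hEP hy
      have hFc : Cld v (adj F (X 0)) := cld_adj hc (cld_cadj v _ _)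
        (alg_of_pw hG.pos (hEF hpw))
      have hXF : X 0 ∈ adj F (X 0) := (D2P.mem_adj_self _ _).1
      have h2 : EW v C X ≤ adj F (X 0) := by
        rw [h.eq, hEX]
        refine TWM.cadj_le hFc (D2P.adj_le (hEF.trans (D2P.mem_adj_self _ _).2) hXF) ?_
        have e : y = y * X 0 ^ c * X 0 ^ (-c) := by
          rw [mul_assoc, ← zpow_add₀ hG.ne, add_neg_cancel, zpow_zero, mul_one]
        rw [e]
        exact mul_mem ((D2P.mem_adj_self _ _).2 (self_mem_cadj v _ _)) (zpow_mem hXF _)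
      exact hG.inf hFP (hEF hpw) (h2 haC) haP
    · refine TWM.cadj_le EW.cld (EW.mono bot_le _) (EW.le ⟨mul_mem hyC (zpow_mem hXC c), hy⟩)

omit [CharP k p] in
/-- `D = cl k(X 0 ^ (-N), y X 0 ^ c)`. -/
theorem GD.eq_CP (hc : CompleteV v) (hG : GD v P (X 0) N) {c : ℤ} (hy : y * X 0 ^ c ∈ P)
    (hC : C = CP v (X 0) y) : C ⊓ P = CP v (X 0 ^ (-(N : ℤ))) (y * X 0 ^ c) := by
  have hCc : Cld v C := by
    rw [hC]
    exact cld_cadj v _ _
  have hXC : X 0 ∈ C := by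
    rw [hC]
    exact le_cadj v _ _ (self_mem_cadj v _ _)
  have hyC : y ∈ C := by
    rw [hC]
    exact self_mem_cadj v _ _
  set D := CP (k := k) v (X 0 ^ (-(N : ℤ))) (y * X 0 ^ c) with hD
  have hXP : X 0 ^ (-(N : ℤ)) ∈ P := by
    rw [zpow_neg, zpow_natCast]
    exact inv_mem hG.pw
  have hDP : D ≤ P := TWM.cadj_le hG.cld (TWM.cadj_le hG.cld bot_le hXP) hy
  have hXD : X 0 ^ (-(N : ℤ)) ∈ D := le_cadj v _ _ (self_mem_cadj v _ _)
  have hyD : y * X 0 ^ c ∈ D := self_mem_cadj v _ _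
  have hpw : X 0 ^ N ∈ D := by
    have h2 := inv_mem hXD
    rwa [zpow_neg, inv_inv, zpow_natCast] at h2
  refine le_antisymm (fun a ha => ?_) (le_inf (TWM.cadj_le hCc (TWM.cadj_le hCc bot_le
    (zpow_mem hXC _)) (mul_mem hyC (zpow_mem hXC c))) hDP)
  have hcl : Cld v (adj D (X 0)) := cld_adj hc (cld_cadj v _ _) (alg_of_pw hG.pos hpw)
  have hXa : X 0 ∈ adj D (X 0) := (D2P.mem_adj_self _ _).1
  have h3 : y ∈ adj D (X 0) := by
    have e : y = y * X 0 ^ c * X 0 ^ (-c) := by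
      rw [mul_assoc, ← zpow_add₀ hG.ne, add_neg_cancel, zpow_zero, mul_one]
    rw [e]
    exact mul_mem ((D2P.mem_adj_self _ _).2 hyD) (zpow_mem hXa _)
  refine hG.inf hDP hpw ?_ ha.2
  have h4 : C ≤ adj D (X 0) := by
    rw [hC]
    exact TWM.cadj_le hcl (TWM.cadj_le hcl bot_le hXa) h3
  exact h4 ha.1

omit [Fact p.Prime] [CharP k p] [CharP Ω p] in
/-- `C E_X = E_X⟨y⟩`. -/
theorem EW_CP [IsAlgClosed Ω] (X : ℕ → Ω) (y : Ω) :
    EW v (CP (k := k) v (X 0) y) X = cadj v (EW v (⊥ : IntermediateField k Ω) X) y := by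
  refine le_antisymm (clI_le' (sup_le (TWM.cadj_le (cld_cadj v _ _) (TWM.cadj_le (cld_cadj v _ _)
    bot_le (le_cadj v _ _ (EW.mem 0))) (self_mem_cadj v _ _))
    (IntermediateField.adjoin_le_iff.2 ?_)) (cld_cadj v _ _))
    (TWM.cadj_le EW.cld (EW.mono bot_le X) (EW.le (self_mem_cadj v _ _)))
  rintro _ ⟨n, rfl⟩
  exact le_cadj v _ _ (EW.mem n)

/-- **The tight pairs of the fixed field** `D = C ⊓ P`. -/
theorem GD.hasTPn [IsAlgClosed Ω] [PerfectRing k p] (h0 : Ctx0 k v) (hc : CompleteV v)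
    (hG : GD v P (X 0) N) (hP : ∀ a ∈ P, ∃ b ∈ P, b ^ p = a) (hN : ¬ p ∣ N)
    (hv : v (X 0) < 0) (hC : C = CP v (X 0) y) {b : ℤ} (hb : ¬ (p : ℤ) ∣ b + 1) (hb0 : 0 ≤ b)
    (hT : Tgt p v C X (-(b * v (X 0)))) (hTL : TL v (EW v (⊥ : IntermediateField k Ω) X) y 0)
    {c : ℤ} (hy : y * X 0 ^ c ∈ P) : HasTPn p v (C ⊓ P) := by
  intro M
  have hp0 : (0 : ℝ) < p := by exact_mod_cast hp.out.pos
  have hXC : X 0 ∈ C := hT.mem
  have hyC : y ∈ C := by
    rw [hC]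
    exact self_mem_cadj v _ _
  have hNp : IsCoprime (N : ℤ) (p : ℤ) :=
    Nat.isCoprime_iff_coprime.2 ((Nat.Prime.coprime_iff_not_dvd hp.out).2 hN).symm
  -- the exponent
  obtain ⟨d, hd1, hd2⟩ : ∃ d : ℤ, (N : ℤ) ∣ d - c ∧ (p : ℤ) ^ M ∣ d := by
    obtain ⟨A, B, hAB⟩ := hNp.pow_right (n := M)
    refine ⟨c * (B * (p : ℤ) ^ M), ⟨-(c * A), ?_⟩, ⟨c * B, by ring⟩⟩
    linear_combination c * hAB
  have hyd : y * X 0 ^ d ∈ P := by
    obtain ⟨e, he⟩ := hd1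
    have e1 : y * X 0 ^ d = y * X 0 ^ c * (X 0 ^ N) ^ e := by
      rw [← zpow_natCast, ← zpow_mul, mul_assoc, ← zpow_add₀ hG.ne, ← he]
      congr 2
      ring
    rw [e1]
    exact mul_mem hy (zpow_mem hG.pw e)
  have hvr : v (X 0) < -(b * v (X 0)) := by
    have h1 : (0 : ℝ) ≤ b := by exact_mod_cast hb0
    nlinarith
  -- the data
  have hgen : GenX v C X y 0 := ⟨hTL, by rw [hC]; exact EW_CP X y⟩
  have hadj := hG.adj_inf hc hy hC
  have h1 := hG.tgt hP hN hT hvr hadj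
  have h2 := hG.gen hc hP hN hT.root hXC hyC hyd hgen
  set x : ℕ → Ω := fun n => X n ^ (-(N : ℤ)) with hx
  have hx0 : x 0 ≠ 0 := zpow_ne_zero _ hG.ne
  have hvx : v (x 0) = N * (-v (X 0)) := by
    show v (X 0 ^ (-(N : ℤ))) = _
    rw [v.map_zpow hG.ne]
    push_cast
    ring
  have hN0 : (0 : ℝ) < N := by exact_mod_cast hG.pos
  have hvx0 : 0 < v (x 0) := by
    rw [hvx]
    exact mul_pos hN0 (by linarith)
  obtain ⟨w, hw0, hw, hw1, hw2, hw3, hw4, hw5⟩ := exists_pairT h0 hc h1 hx0 hvx0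
    ⟨mul_mem hyC (zpow_mem hXC d), hyd⟩ h2.tl h2.eq
  refine ⟨x, w, _, _, hvx0.ne', ?_, ⟨h1, hw0, hw, hw5, hw4⟩, ?_, ?_⟩
  · rw [hvx]
    push_cast
    have h3 : (0 : ℝ) ≤ b := by exact_mod_cast hb0
    nlinarith
  · rw [hG.eq_CP hc hyd hC]
    have h3 := gen_pairT (v := v) (x := x) (w := y * X 0 ^ d) (n := y * X 0 ^ d - w 0) hw1
    rw [sub_sub_cancel] at h3
    exact h3.symm
  · refine NFb.of_quot (n := N) (b := -(b + 1)) (c := -d) (τ := -v (X 0)) hNp ?_ ?_ ?_ ?_ ?_ ?_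
    · rintro q hq
      have h3 : ((-q : ℤ) : ℝ) * v (X 0) ∈ VG v P := by
        have h4 := VG.mono (v := v) (inf_le_right : C ⊓ P ≤ P) hq
        have h5 : ((-q : ℤ) : ℝ) * v (X 0) = q * -v (X 0) := by
          push_cast
          ring
        rw [h5]
        exact h4
      have := hG.val _ h3
      rwa [dvd_neg] at this
    · rwa [dvd_neg]
    · rwa [dvd_neg]
    · exact hvx
    · push_cast
      ring
    · push_cast
      ring

end P

end Pool.Agent.TWC
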