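import Pool.Agent.Lib.TWC.PFf
import Pool.Agent.Lib.TWC.Tame

/-!
# TANK W, class C: the pair of a field of rational radius (row PF), homogeneous data

`P` closed and perfect, `GD v P (X 0) N`, `p ∤ N`. An element `m` is homogeneous of class `c` if
`m * X 0 ^ c ∈ P`. The coordinates `(X, y)` are homogeneous (`HD`); the steps of `main` preserve
this if the letters are chosen homogeneous.
* `Off`: the elements without a component of degree `0`; `GD.off`: orthogonality;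
* `GD.lm`: the homogeneous component of a limit;
* `splitH`, `first_topH`: the letters;
* `stepH`: the change of coordinates;
* `mainH`: some field of the isogeny class of `C` has homogeneous coordinates, the first one tight.
-/

set_option autoImplicit false
set_option linter.unusedSectionVars false

open Polynomial

namespace Pool.Agent.TWC.PF

open Pool.Agent.H15JM (RVal)
open Pool.Agent.LU1 (adj)
open Pool.Agent.D2 (Ctx0)
open Pool.Agent.D2P (clI mem_clI rootF mem_rootF)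
open Pool.Agent.TWM
open Pool.Agent.TWS (VG)

universe u

variable {k Ω : Type u} [Field k] [Field Ω] [Algebra k Ω] {v : RVal Ω}
  {P C C' : IntermediateField k Ω} {Z f g s : Ω} {N : ℕ}

/-! ### Components -/

/-- The elements of `P(Z)` without a component of degree `0`. -/
def Off (P : IntermediateField k Ω) (Z : Ω) (N : ℕ) : Submodule k Ω where
  carrier := {s | ∃ f : ℕ → Ω, (∀ j, f j ∈ P) ∧ f 0 = 0 ∧ s = ∑ j ∈ Finset.range N, f j * Z ^ j}
  zero_mem' := ⟨0, fun _ => zero_mem _, rfl, by simp⟩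
  add_mem' := by
    rintro _ _ ⟨f, hf, hf0, rfl⟩ ⟨g, hg, hg0, rfl⟩
    refine ⟨f + g, fun j => add_mem (hf j) (hg j), by rw [Pi.add_apply, hf0, hg0, add_zero], ?_⟩
    rw [← Finset.sum_add_distrib]
    exact Finset.sum_congr rfl fun j _ => by rw [Pi.add_apply, add_mul]
  smul_mem' := by
    rintro a _ ⟨f, hf, hf0, rfl⟩
    refine ⟨fun j => algebraMap k Ω a * f j, fun j => mul_mem (P.algebraMap_mem a) (hf j), by
      simp only [hf0, mul_zero], ?_⟩
    rw [Algebra.smul_def, Finset.mul_sum]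
    exact Finset.sum_congr rfl fun j _ => by rw [mul_assoc]

theorem _root_.Pool.Agent.TWC.GD.off (hG : GD v P Z N) {a : Ω} {c : ℝ} (ha : a ∈ P)
    (hs : s ∈ Off P Z N) (h : v.Ge c (a + s)) : v.Ge c a := by
  obtain ⟨f, hf, hf0, rfl⟩ := hs
  have hN := hG.pos
  have e : a + ∑ j ∈ Finset.range N, f j * Z ^ j =
      ∑ j ∈ Finset.range N, (if j = 0 then a else f j) * Z ^ j := by
    obtain ⟨M, rfl⟩ := Nat.exists_eq_succ_of_ne_zero hN.ne'
    rw [Nat.succ_eq_add_one, Finset.sum_range_succ', Finset.sum_range_succ']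
    simp only [Nat.succ_ne_zero, if_false, if_true, pow_zero, mul_one, hf0, add_zero]
    rw [add_comm]
  rw [e] at h
  have h2 := hG.orth (f := fun j => if j = 0 then a else f j) (fun j => by
    split_ifs
    · exact ha
    · exact hf j) h (j := 0) hN
  simpa using h2

theorem _root_.Pool.Agent.TWC.GD.mem_off (hG : GD v P Z N) {m : Ω} {d : ℤ} (hm : m * Z ^ d ∈ P)
    (hmP : m ∉ P) : m ∈ Off P Z N := by
  have hN := hG.pos
  set j := ((-d) % (N : ℤ)).toNat with hj
  set e := (-d) / (N : ℤ) with he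
  have hN0 : (N : ℤ) ≠ 0 := by exact_mod_cast hN.ne'
  have hj0 : ((-d) % (N : ℤ)) = j := by
    rw [hj, Int.toNat_of_nonneg (Int.emod_nonneg _ hN0)]
  have hjN : j < N := by
    have := Int.emod_lt_of_pos (-d) (by exact_mod_cast hN : (0 : ℤ) < N)
    rw [hj0] at this
    exact_mod_cast this
  have hd : -d = j + N * e := by
    rw [← hj0, he]
    exact (Int.emod_add_mul_ediv _ _).symm
  have hme : m = (m * Z ^ d * (Z ^ N) ^ e) * Z ^ j := by
    have h1 : (Z ^ N) ^ e * Z ^ j = Z ^ (-d) := by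
      rw [hd, zpow_add₀ hG.ne, zpow_mul, zpow_natCast, zpow_natCast, mul_comm]
    rw [mul_assoc, h1, mul_assoc, ← zpow_add₀ hG.ne, add_neg_cancel, zpow_zero, mul_one]
  have hP : m * Z ^ d * (Z ^ N) ^ e ∈ P := mul_mem hm (zpow_mem hG.pw e)
  have hj1 : j ≠ 0 := by
    intro h
    rw [h, pow_zero, mul_one] at hme
    exact hmP (hme ▸ hP)
  refine ⟨fun i => if i = j then m * Z ^ d * (Z ^ N) ^ e else 0, fun i => ?_, ?_, ?_⟩
  · dsimp only
    split_ifs
    · exact hP
    · exact zero_mem _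
  · dsimp only
    rw [if_neg (Ne.symm hj1)]
  · simp only [ite_mul, zero_mul]
    rw [Finset.sum_ite_eq' (Finset.range N) j, if_pos (Finset.mem_range.2 hjN)]
    exact hme

/-- The homogeneous component of an element of a span. -/
theorem _root_.Pool.Agent.TWC.GD.split (hG : GD v P Z N) {M : Set Ω}
    (hM : ∀ m ∈ M, ∃ d : ℤ, m * Z ^ d ∈ P) (c : ℤ) (hs : s ∈ Submodule.span k M) :
    ∃ s₀ ∈ Submodule.span k M, s₀ * Z ^ c ∈ P ∧ (s - s₀) * Z ^ c ∈ Off P Z N := by
  induction hs using Submodule.span_induction with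
  | mem m hm =>
    by_cases hmP : m * Z ^ c ∈ P
    · exact ⟨m, Submodule.subset_span hm, hmP, by rw [sub_self, zero_mul]; exact zero_mem _⟩
    · refine ⟨0, zero_mem _, by rw [zero_mul]; exact zero_mem _, ?_⟩
      obtain ⟨d, hd⟩ := hM m hm
      rw [sub_zero]
      refine hG.mem_off (d := d - c) ?_ hmP
      rw [mul_assoc, ← zpow_add₀ hG.ne, add_sub_cancel]
      exact hd
  | zero =>
    exact ⟨0, zero_mem _, by rw [zero_mul]; exact zero_mem _, by
      rw [sub_zero, zero_mul]; exact zero_mem _⟩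
  | add x y _ _ hx hy =>
    obtain ⟨x₀, h1, h2, h3⟩ := hx
    obtain ⟨y₀, h4, h5, h6⟩ := hy
    refine ⟨x₀ + y₀, add_mem h1 h4, by rw [add_mul]; exact add_mem h2 h5, ?_⟩
    have e : (x + y - (x₀ + y₀)) * Z ^ c = (x - x₀) * Z ^ c + (y - y₀) * Z ^ c := by ring
    rw [e]
    exact add_mem h3 h6
  | smul a x _ hx =>
    obtain ⟨x₀, h1, h2, h3⟩ := hx
    refine ⟨a • x₀, Submodule.smul_mem _ _ h1, ?_, ?_⟩
    · rw [Algebra.smul_def, mul_assoc]
      exact mul_mem (P.algebraMap_mem a) h2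
    · rw [← smul_sub, smul_mul_assoc]
      exact Submodule.smul_mem _ _ h3

/-- **The homogeneous component of a limit.** -/
theorem _root_.Pool.Agent.TWC.GD.lm (hG : GD v P Z N) {M : Set Ω}
    (hM : ∀ m ∈ M, ∃ d : ℤ, m * Z ^ d ∈ P) {c : ℤ} (hf : f * Z ^ c ∈ P)
    (hg : g * Z ^ c ∈ Off P Z N) (h : Lm v (Submodule.span k M) (f + g)) :
    Lm v (Submodule.span k M) f := by
  intro ε hε
  obtain ⟨s, hs, h1⟩ := h ε hε
  obtain ⟨s₀, hs₀, h2, h3⟩ := hG.split hM c hs
  refine ⟨s₀, hs₀, ?_⟩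
  have hZ : Z ^ c ≠ 0 := zpow_ne_zero c hG.ne
  have h4 : v.Ge (-ε + v (Z ^ c)) ((f - s₀) * Z ^ c + (g * Z ^ c - (s - s₀) * Z ^ c)) := by
    have e : (f - s₀) * Z ^ c + (g * Z ^ c - (s - s₀) * Z ^ c) = (f + g - s) * Z ^ c := by ring
    rw [e]
    exact h1.mul (v.ge_self _)
  have h5 := hG.off (by rw [sub_mul]; exact sub_mem hf h2) (sub_mem hg h3) h4
  intro h6
  have h7 := h5 (mul_ne_zero h6 hZ)
  rw [v.map_mul h6 hZ] at h7
  linarith

/-- The homogeneous part of a polynomial. -/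
theorem _root_.Pool.Agent.TWC.GD.poly (hG : GD v P Z N) {x : Ω} {d : ℤ} (hx : x * Z ^ d ∈ P)
    (c : ℤ) (q : k[X]) : ∃ q₀ : k[X], q₀.natDegree ≤ q.natDegree ∧
      (∀ i, q₀.coeff i ≠ 0 → x ^ i * Z ^ c ∈ P) ∧
      (aeval x q - aeval x q₀) * Z ^ c ∈ Off P Z N := by
  classical
  set q₀ : k[X] := ∑ i ∈ Finset.range (q.natDegree + 1),
    if x ^ i * Z ^ c ∈ P then monomial i (q.coeff i) else 0 with hq₀
  have hco : ∀ i, q₀.coeff i = if x ^ i * Z ^ c ∈ P then q.coeff i else 0 := by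
    intro i
    rw [hq₀, finsetSum_coeff]
    have h1 : ∀ j ∈ Finset.range (q.natDegree + 1),
        (if x ^ j * Z ^ c ∈ P then monomial j (q.coeff j) else 0 : k[X]).coeff i =
        if j = i then (if x ^ i * Z ^ c ∈ P then q.coeff i else 0) else 0 := by
      intro j _
      by_cases hij : j = i
      · subst hij
        rw [if_pos rfl]
        split_ifs
        · rw [coeff_monomial, if_pos rfl]
        · rw [coeff_zero]
      · rw [if_neg hij]
        split_ifs
        · rw [coeff_monomial, if_neg hij]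
        · rw [coeff_zero]
    rw [Finset.sum_congr rfl h1, Finset.sum_ite_eq']
    by_cases hi : i ∈ Finset.range (q.natDegree + 1)
    · rw [if_pos hi]
    · rw [if_neg hi]
      have h2 : q.coeff i = 0 := coeff_eq_zero_of_natDegree_lt (by
        rw [Finset.mem_range] at hi
        omega)
      rw [h2]
      split_ifs <;> rfl
  have hdeg : q₀.natDegree ≤ q.natDegree := by
    rw [natDegree_le_iff_coeff_eq_zero]
    intro i hi
    rw [hco, coeff_eq_zero_of_natDegree_lt hi]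
    split_ifs <;> rfl
  refine ⟨q₀, hdeg, fun i hi => ?_, ?_⟩
  · rw [hco] at hi
    by_contra h
    rw [if_neg h] at hi
    exact hi rfl
  · have e : aeval x q - aeval x q₀ = ∑ i ∈ Finset.range (q.natDegree + 1),
        (q - q₀).coeff i • x ^ i := by
      rw [← map_sub]
      exact aeval_eq_sum_range' (Nat.lt_succ_of_le ((natDegree_sub_le_of_le le_rfl hdeg).trans
        (max_self _).le)) x
    rw [e, Finset.sum_mul]
    refine sum_mem fun i _ => ?_
    rw [coeff_sub, hco, smul_mul_assoc]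
    split_ifs with h
    · rw [sub_self, zero_smul]
      exact zero_mem _
    · rw [sub_zero]
      refine Submodule.smul_mem _ _ (hG.mem_off (d := d * i - c) ?_ h)
      rw [mul_assoc, ← zpow_add₀ hG.ne, add_sub_cancel, zpow_mul, zpow_natCast, ← mul_pow]
      exact pow_mem hx i

/-! ### Homogeneous data -/

variable {p : ℕ} [hp : Fact p.Prime] [CharP k p] [CharP Ω p] [PerfectRing k p] [IsAlgClosed Ω]
  {X T : ℕ → Ω} {y z t : Ω} {b j n m : ℕ}

/-- The coordinates `(X, y)` are homogeneous. -/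
structure HD (v : RVal Ω) (P : IntermediateField k Ω) (N : ℕ) (X : ℕ → Ω) (y : Ω) : Prop where
  gd : GD v P (X 0) N
  cls : ∃ c : ℤ, y * X 0 ^ c ∈ P

/-- `P` is perfect, `p ∤ N`. -/
structure PN (p : ℕ) (P : IntermediateField k Ω) (N : ℕ) : Prop where
  perf : ∀ a ∈ P, ∃ b ∈ P, b ^ p = a
  nd : ¬ p ∣ N

/-- The roots are homogeneous. -/
theorem hom_root (hP : PN p P N) (hG : GD v P (X 0) N) (hr : ∀ n, X (n + 1) ^ p = X n) (n : ℕ) :
    ∃ d : ℤ, X n * X 0 ^ d ∈ P := by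
  have hcop : IsCoprime ((p ^ n : ℕ) : ℤ) (N : ℤ) := by
    refine Nat.isCoprime_iff_coprime.2 (Nat.Coprime.pow_left n ?_)
    exact (Nat.Prime.coprime_iff_not_dvd hp.out).2 hP.nd
  obtain ⟨a, b, hab⟩ := hcop
  have h1 := pw_root hP.perf hr hG.pw n
  have h0 : X n ^ p ^ n = X 0 := by
    have := root_pow_add hr 0 n
    rwa [zero_add] at this
  have hX : X n ≠ 0 := by
    intro h
    rw [h, zero_pow (pow_ne_zero _ hp.out.ne_zero)] at h0
    exact hG.ne h0.symm
  refine ⟨-a, ?_⟩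
  have e : X n * X 0 ^ (-a) = (X n ^ N) ^ b := by
    rw [← h0, ← zpow_natCast, ← zpow_mul, ← zpow_natCast (X n) N, ← zpow_mul, ← zpow_one_add₀ hX]
    congr 1
    linear_combination -hab
  rw [e]
  exact zpow_mem h1 b

theorem hom_SW (hP : PN p P N) (hG : GD v P (X 0) N) (hr : ∀ n, X (n + 1) ^ p = X n) :
    ∀ m ∈ {m | ∃ n i : ℕ, j ≤ n ∧ i ≤ b ∧ m = X n ^ i}, ∃ d : ℤ, m * X 0 ^ d ∈ P := by
  rintro _ ⟨n, i, -, -, rfl⟩
  obtain ⟨d, hd⟩ := hom_root hP hG hr n
  refine ⟨d * i, ?_⟩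
  rw [zpow_mul, zpow_natCast, ← mul_pow]
  exact pow_mem hd i

/-- **The homogeneous letters at the position `j`.** -/
theorem splitH (h0 : Ctx0 k v) (hP : PN p P N) (hG : GD v P (X 0) N)
    (hr : ∀ n, X (n + 1) ^ p = X n) (hv : v (X 0) < 0) {c : ℤ} (hf : f * X 0 ^ c ∈ P)
    (h : Lm v (SW k X b j) f) :
    ∃ q : k[X], q.natDegree ≤ b ∧ (∀ i, q.coeff i ≠ 0 → X j ^ i * X 0 ^ c ∈ P) ∧
      Lm v (SW k X b (j + 1)) (f - aeval (X j) q) := by
  obtain ⟨q, hq, h1⟩ := Lm_SW_split h0 hr hG.ne hv h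
  obtain ⟨d, hd⟩ := hom_root hP hG hr j
  obtain ⟨q₀, hq₀, h2, h3⟩ := hG.poly hd c q
  refine ⟨q₀, hq₀.trans hq, h2, ?_⟩
  have h4 : (f - aeval (X j) q₀) * X 0 ^ c ∈ P := by
    rw [sub_mul]
    refine sub_mem hf ?_
    rw [aeval_eq_sum_range, Finset.sum_mul]
    refine sum_mem fun i _ => ?_
    by_cases hi : q₀.coeff i = 0
    · rw [hi, zero_smul, zero_mul]
      exact zero_mem _
    · rw [Algebra.smul_def, mul_assoc]
      exact mul_mem (P.algebraMap_mem _) (h2 i hi)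
  refine hG.lm (hom_SW hP hG hr) h4 (g := -(aeval (X j) q - aeval (X j) q₀)) ?_ ?_
  · rw [neg_mul]
    exact neg_mem h3
  · have e : f - aeval (X j) q₀ + -(aeval (X j) q - aeval (X j) q₀) = f - aeval (X j) q := by ring
    rw [e]
    exact h1

theorem hom_aeval {q : k[X]} {x : Ω} {c : ℤ} (h : ∀ i, q.coeff i ≠ 0 → x ^ i * Z ^ c ∈ P) :
    aeval x q * Z ^ c ∈ P := by
  rw [aeval_eq_sum_range, Finset.sum_mul]
  refine sum_mem fun i _ => ?_
  by_cases hi : q.coeff i = 0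
  · rw [hi, zero_smul, zero_mul]
    exact zero_mem _
  · rw [Algebra.smul_def, mul_assoc]
    exact mul_mem (P.algebraMap_mem _) (h i hi)

/-- **The first top letter.** -/
theorem first_topH (h0 : Ctx0 k v) (hP : PN p P N) (hG : GD v P (X 0) N)
    (hr : ∀ n, X (n + 1) ^ p = X n) (hv : v (X 0) < 0) {c : ℤ} (hf : y * X 0 ^ c ∈ P)
    (h : Lm v (SW k X (b + 1) 1) y) : Lm v (SW k X b 1) y ∨
      ∃ (e : ℕ) (g : Ω) (q : k[X]), g ∈ cadj v (⊥ : IntermediateField k Ω) (X e) ∧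
        g * X 0 ^ c ∈ P ∧ q.natDegree = b + 1 ∧
        (∀ i, q.coeff i ≠ 0 → X (e + 1) ^ i * X 0 ^ c ∈ P) ∧
        Lm v (SW k X (b + 1) (e + 2)) (y - g - aeval (X (e + 1)) q) := by
  by_cases hstop : ∃ (e : ℕ) (g : Ω) (q : k[X]), g ∈ cadj v (⊥ : IntermediateField k Ω) (X e) ∧
        g * X 0 ^ c ∈ P ∧ q.natDegree = b + 1 ∧
        (∀ i, q.coeff i ≠ 0 → X (e + 1) ^ i * X 0 ^ c ∈ P) ∧
        Lm v (SW k X (b + 1) (e + 2)) (y - g - aeval (X (e + 1)) q)
  · exact Or.inr hstop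
  left
  have key : ∀ e : ℕ, ∃ g : Ω, g ∈ cadj v (⊥ : IntermediateField k Ω) (X e) ∧ g ∈ SW k X b 1 ∧
      g * X 0 ^ c ∈ P ∧ Lm v (SW k X (b + 1) (e + 1)) (y - g) := by
    intro e
    induction e with
    | zero =>
      exact ⟨0, zero_mem _, zero_mem _, by rw [zero_mul]; exact zero_mem _, by
        rwa [sub_zero, zero_add]⟩
    | succ e ih =>
      obtain ⟨g, hg, hg', hgP, h1⟩ := ih
      have hyg : (y - g) * X 0 ^ c ∈ P := by
        rw [sub_mul]
        exact sub_mem hf hgP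
      obtain ⟨q, hq, hqP, h2⟩ := splitH h0 hP hG hr hv hyg h1
      have hq' : q.natDegree ≤ b := by
        by_contra h3
        exact hstop ⟨e, g, q, hg, hgP, by omega, hqP, h2⟩
      refine ⟨g + aeval (X (e + 1)) q, add_mem ?_ (aeval_mem_field (self_mem_cadj _ _ _)),
        add_mem hg' (aeval_mem_SW hq' (by omega)), ?_, ?_⟩
      · have h3 : cadj v (⊥ : IntermediateField k Ω) (X e) ≤ cadj v ⊥ (X (e + 1)) :=
          cadj_le (cld_cadj v _ _) bot_le (by
            rw [← hr e]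
            exact pow_mem (self_mem_cadj v _ _) p)
        exact h3 hg
      · rw [add_mul]
        exact add_mem hgP (hom_aeval hqP)
      · rw [← sub_sub]
        exact h2
  intro ε hε
  obtain ⟨e, he⟩ : ∃ e : ℕ, -ε ≤ ((b + 1 : ℕ) : ℝ) * v (X (e + 1)) := by
    have hp1 : (1 : ℝ) < p := by exact_mod_cast hp.out.one_lt
    obtain ⟨n, hn⟩ := pow_unbounded_of_one_lt (((b + 1 : ℕ) : ℝ) * -v (X 0) / ε) hp1
    refine ⟨n, ?_⟩
    rw [rt_val hr hG.ne]
    have h3 : (0 : ℝ) < (p : ℝ) ^ n := pow_pos (by linarith) _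
    have h4 : (0 : ℝ) < (p : ℝ) ^ (n + 1) := pow_pos (by linarith) _
    rw [div_lt_iff₀ hε] at hn
    have h5 : (p : ℝ) ^ n ≤ (p : ℝ) ^ (n + 1) := pow_le_pow_right₀ hp1.le (by omega)
    rw [mul_div_assoc', le_div_iff₀ h4]
    nlinarith
  obtain ⟨g, -, hg, -, h1⟩ := key e
  exact ⟨g, hg, (Lm_SW_ge h0 hr hG.ne hv h1).mono he⟩

/-! ### The root is homogeneous -/

/-- A root of a homogeneous equation is homogeneous. -/
theorem tau_mem (h0 : Ctx0 k v) (hPc : Cld v P) {q : k[X]} (hq : ¬ p ∣ q.natDegree) {x t y : Ω}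
    {c : ℤ} (hx0 : x ≠ 0) (hx : v x < 0) (hZ : Z ≠ 0)
    (hq' : ∀ i, q.coeff i ≠ 0 → x ^ i * Z ^ c ∈ P) (hy : y * Z ^ c ∈ P) (ht : aeval t q = y)
    (htx : Gt v (v x) (t - x)) : t / x ∈ P := by
  by_cases htx0 : t = x
  · rw [htx0, div_self hx0]
    exact one_mem _
  obtain ⟨ht0, htv⟩ := Gt.val_eq (y := t) hx0 (by
    rw [← neg_sub]
    exact htx.neg)
  have hZc : Z ^ c ≠ 0 := zpow_ne_zero c hZ
  set H : Polynomial Ω := (q.map (algebraMap k Ω)).comp (C x * X) * C (Z ^ c) - C (y * Z ^ c)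
    with hH
  have hHl : H ∈ lifts (algebraMap P Ω) := by
    rw [lifts_iff_coeff_lifts]
    intro n
    rw [hH, coeff_sub, coeff_mul_C, comp_C_mul_X_coeff, coeff_map, coeff_C]
    have h1 : algebraMap k Ω (q.coeff n) * x ^ n * Z ^ c ∈ P := by
      by_cases hn : q.coeff n = 0
      · rw [hn, map_zero, zero_mul, zero_mul]
        exact zero_mem _
      · rw [mul_assoc]
        exact mul_mem (P.algebraMap_mem _) (hq' n hn)
    have h2 : (if n = 0 then y * Z ^ c else 0) ∈ P := by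
      split_ifs
      · exact hy
      · exact zero_mem _
    exact ⟨⟨_, sub_mem h1 h2⟩, rfl⟩
  obtain ⟨G, hG⟩ := hHl
  have hG' : G.map (algebraMap P Ω) = H := hG
  have hGe : ∀ w : Ω, aeval w G = (aeval (x * w) q - y) * Z ^ c := by
    intro w
    rw [← eval_map_algebraMap, hG', hH, eval_sub, eval_mul, eval_C, eval_C, eval_comp, eval_mul,
      eval_C, eval_X, eval_map_algebraMap]
    ring
  have hxt : x * (t / x) = t := mul_div_cancel₀ t hx0
  have hτ1 : t / x ≠ 1 := fun h => htx0 (by rwa [div_eq_one_iff_eq hx0] at h)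
  refine D2P.mem_of_alone h0 (TWM.C.hen_eq hPc) G (c := 1) (one_mem _) ?_ ?_ fun b hb hb1 hv => ?_
  · rw [hGe, hxt, ht, sub_self, zero_mul]
  · have h1 : aeval (t / x) (derivative G) = aeval t (derivative q) * x * Z ^ c := by
      rw [← eval_map_algebraMap, ← derivative_map, hG', hH, derivative_sub, derivative_C, sub_zero,
        derivative_mul, derivative_C, mul_zero, add_zero, derivative_comp, derivative_C_mul,
        derivative_X, mul_one, eval_mul, eval_mul, eval_C, eval_C, eval_comp, eval_mul, eval_C,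
        eval_X, hxt, derivative_map, eval_map_algebraMap]
      ring
    rw [h1]
    have h2 := (val_aeval_neg h0 ht0 (by rw [htv]; exact hx) (derivative_ne_zero_of hq)).1
    exact mul_ne_zero (mul_ne_zero h2 hx0) hZc
  · rw [hGe, mul_eq_zero, or_iff_left hZc, sub_eq_zero, ← ht] at hb
    have h1 : x * b = t := by
      refine root_unique h0 hq ht0 (by rw [htv]; exact hx) ?_ hb
      have h2 : Gt v (v x) (x * b - x) := by
        intro h3
        have h4 : b - 1 ≠ 0 := sub_ne_zero.2 hb1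
        have h5 : x * b - x = x * (b - 1) := by ring
        have h6 : t - x = x * (t / x - 1) := by
          rw [mul_sub, hxt, mul_one]
        have h7 := htx (sub_ne_zero.2 htx0)
        rw [h6, v.map_mul hx0 (sub_ne_zero.2 hτ1), ← hv, ← v.map_mul hx0 h4, ← h5] at h7
        exact h7
      rw [htv]
      have e : x * b - t = (x * b - x) - (t - x) := by ring
      rw [e]
      exact h2.sub htx
    rw [← h1, mul_div_cancel_left₀ _ hx0]

/-- The Frobenius of a value. -/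
theorem pow_aeval (q : k[X]) (x : Ω) :
    (aeval x q) ^ p = aeval (x ^ p) (q.map (frobenius k p)) := by
  rw [aeval_def, aeval_def, ← frobenius_def, hom_eval₂, eval₂_map, frobenius_def]
  congr 1
  exact RingHom.ext fun a => by
    rw [RingHom.comp_apply, RingHom.comp_apply, frobenius_def, frobenius_def, map_pow]

/-! ### The steps -/

theorem _root_.Pool.Agent.TWC.GD.root (hP : PN p P N) (hG : GD v P (X 0) N)
    (hr : ∀ n, X (n + 1) ^ p = X n) (e : ℕ) : GD v P (X e) N where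
  cld := hG.cld
  pos := hG.pos
  ne := rt_ne hr hG.ne e
  pw := pw_root hP.perf hr hG.pw e
  val i hi := by
    refine hG.val i ?_
    have h1 : X e ^ p ^ e = X 0 := by
      have := root_pow_add hr 0 e
      rwa [zero_add] at this
    have h2 : (i : ℝ) * v (X 0) = (p ^ e : ℕ) • ((i : ℝ) * v (X e)) := by
      rw [← h1, v.map_pow (rt_ne hr hG.ne e), nsmul_eq_mul]
      ring
    rw [h2]
    exact nsmul_mem hi _

/-- Passing to `C(X e)`. -/
theorem HD.iso (hP : PN p P N) (hr : ∀ n, X (n + 1) ^ p = X n) (h : HD v P N X y) {c : ℤ}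
    (hy : y * X 0 ^ c ∈ P) (hg : g * X 0 ^ c ∈ P) (e : ℕ) :
    HD v P N (fun n => X (e + n)) (y - g) where
  gd := h.gd.root hP hr e
  cls := by
    refine ⟨(p ^ e : ℕ) * c, ?_⟩
    have h1 : X e ^ p ^ e = X 0 := by
      have := root_pow_add hr 0 e
      rwa [zero_add] at this
    show (y - g) * X (e + 0) ^ (((p ^ e : ℕ) : ℤ) * c) ∈ P
    rw [add_zero, zpow_mul, zpow_natCast, h1, sub_mul]
    exact sub_mem hy hg

/-- **The homogeneous change of coordinates.** -/
theorem stepH (h0 : Ctx0 k v) (hc : CompleteV v) (hPN : PN p P N) (hP : PR p v C X y (b + 1))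
    (hD : HD v P N X y) (hb : ¬ p ∣ b + 1) {q : k[X]} (hq : q.natDegree = b + 1) {c : ℤ}
    (hyc : y * X 0 ^ c ∈ P) (hqc : ∀ i, q.coeff i ≠ 0 → X 1 ^ i * X 0 ^ c ∈ P)
    (hy : Lm v (SW k X (b + 1) 2) (y - aeval (X 1) q)) :
    ∃ (T : ℕ → Ω) (z : Ω), PR p v C T z (b + 1) ∧ HD v P N T z ∧
      ∀ n, InS p v C T b n → InS p v C X b (n + 1) := by
  have hr := hP.root
  obtain ⟨T, q₀, hT, hTC, ht, ht1, hq0, hl, hPR, hInS⟩ := step_tz h0 hc hP hb hq hy
  set z₀ : Ω := y ^ p - aeval (X 0) (q.map (frobenius k p)) with hz₀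
  -- values
  have hp1 : (1 : ℝ) < p := by exact_mod_cast hp.out.one_lt
  have hX1 := rt_ne hr hP.ne 1
  have hX2 := rt_ne hr hP.ne 2
  have hn1 := rt_neg hr hP.ne hP.neg 1
  have hn2 := rt_neg hr hP.ne hP.neg 2
  have hv2 : v (X 1) = p * v (X 2) := by rw [← hr 1, v.map_pow hX2]
  have hlt : v (X 1) < (b + 1 : ℕ) * v (X 2) - b * v (X 1) := by
    rw [hv2]
    push_cast
    nlinarith [mul_pos (sub_pos.2 hp1) (neg_pos.2 hn2), mul_nonneg (Nat.cast_nonneg (α := ℝ) b)
      (mul_pos (sub_pos.2 hp1) (neg_pos.2 hn2)).le]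
  have hgt : Gt v (v (X 1)) (T 0 - X 1) := Gt.of_ge ht1 hlt
  obtain ⟨hT0, hTv⟩ := Gt.val_eq (y := T 0) hX1 (by
    rw [← neg_sub]
    exact hgt.neg)
  have hTneg : v (T 0) < 0 := by rw [hTv]; exact hn1
  -- `T 0 = X 1 * τ`
  have hτ : T 0 / X 1 ∈ P := tau_mem h0 hD.gd.cld (by rwa [hq]) hX1 hn1 hP.ne hqc hyc ht hgt
  have hτT : X 1 * (T 0 / X 1) = T 0 := mul_div_cancel₀ _ hX1
  have hG1 := hD.gd.root hPN hr 1
  have hGT : GD v P (T 0) N := by
    refine ⟨hG1.cld, hG1.pos, hT0, ?_, fun i hi => ?_⟩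
    · rw [← hτT, mul_pow]
      exact mul_mem hG1.pw (pow_mem hτ N)
    · rw [hTv] at hi
      exact hG1.val i hi
  -- the class of `z₀`
  have hz1 : z₀ * X 0 ^ ((p : ℤ) * c) ∈ P := by
    have h1 : aeval (X 0) (q.map (frobenius k p)) = (aeval (X 1) q) ^ p := by
      rw [← hr 0]
      exact (pow_aeval q (X 1)).symm
    have h2 : X 0 ^ ((p : ℤ) * c) = (X 0 ^ c) ^ p := by
      rw [mul_comm, zpow_mul, zpow_natCast]
    rw [hz₀, h1, h2, sub_mul, ← mul_pow, ← mul_pow]
    exact sub_mem (pow_mem hyc p) (pow_mem (hom_aeval hqc) p)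
  have hz2 : z₀ * T 0 ^ ((p : ℤ) * (p * c)) ∈ P := by
    have h1 : T 0 ^ ((p : ℤ) * (p * c)) = X 0 ^ ((p : ℤ) * c) *
        (T 0 / X 1) ^ ((p : ℤ) * (p * c)) := by
      conv_lhs => rw [← hτT]
      rw [mul_zpow, zpow_mul (X 1), zpow_natCast, hr 0]
    rw [h1, ← mul_assoc]
    exact mul_mem hz1 (zpow_mem hτ _)
  -- the homogeneous letter
  have hz3 : Lm v (SW k T (b + 1) 0) z₀ := by
    have e : z₀ = z₀ - aeval (T 0) q₀ + aeval (T 0) q₀ := by ring
    rw [e]
    exact (hl.mono (SW_mono le_rfl (Nat.zero_le _))).add (Lm.of_mem (aeval_mem_SW hq0 le_rfl))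
  obtain ⟨q₁, hq1, hq1c, hl1⟩ := splitH h0 hPN hGT hT hTneg hz2 hz3
  refine ⟨T, z₀ - aeval (T 0) q₁, ?_, ⟨hGT, (p : ℤ) * (p * c), ?_⟩, hInS⟩
  · have h1 := hPR.sub (b' := b + 1) (a := aeval (T 0) q₁ - aeval (T 0) q₀)
      (sub_mem (aeval_mem_field (self_mem_cadj _ _ _)) (aeval_mem_field (self_mem_cadj _ _ _)))
      (by
        have e : z₀ - aeval (T 0) q₀ - (aeval (T 0) q₁ - aeval (T 0) q₀) =
          z₀ - aeval (T 0) q₁ := by ring
        rw [e]
        exact hl1)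
    have e : z₀ - aeval (T 0) q₀ - (aeval (T 0) q₁ - aeval (T 0) q₀) =
      z₀ - aeval (T 0) q₁ := by ring
    rwa [e] at h1
  · rw [sub_mul]
    exact sub_mem hz2 (hom_aeval hq1c)

/-! ### Main -/

/-- The output, with homogeneous coordinates. -/
def OutH (p : ℕ) (v : RVal Ω) (P : IntermediateField k Ω) (N : ℕ) (C : IntermediateField k Ω) :
    Prop :=
  ∃ (C' : IntermediateField k Ω) (e : ℕ) (X' : ℕ → Ω) (y' : Ω) (b' : ℕ), C ≤ C' ∧
    (∀ f ∈ C', f ^ p ^ e ∈ C) ∧ PR p v C' X' y' (b' + 1) ∧ HD v P N X' y' ∧ ¬ p ∣ b' + 1 ∧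
    Tgt p v C' X' (-(b' * v (X' 0)))

omit hp [CharP k p] [CharP Ω p] [PerfectRing k p] [IsAlgClosed Ω] in
theorem OutH.up {e : ℕ} (h1 : C ≤ C') (h2 : ∀ f ∈ C', f ^ p ^ e ∈ C) (h : OutH p v P N C') :
    OutH p v P N C := by
  obtain ⟨C'', e', X', y', b', h3, h4, h5⟩ := h
  refine ⟨C'', e' + e, X', y', b', h1.trans h3, fun f hf => ?_, h5⟩
  rw [pow_add, pow_mul]
  exact h2 _ (h4 f hf)

/-- **The induction on the number of positions.** -/
theorem mainH_aux (h0 : Ctx0 k v) (hc : CompleteV v) (hPN : PN p P N) (hb : ¬ p ∣ b + 1)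
    (ih : ∀ (C : IntermediateField k Ω) (X : ℕ → Ω) (y : Ω), PR p v C X y b → HD v P N X y →
      OutH p v P N C) (M : ℕ) :
    ∀ (C : IntermediateField k Ω) (X : ℕ → Ω) (y : Ω), PR p v C X y (b + 1) → HD v P N X y →
      ¬ InS p v C X b (M + 1) → OutH p v P N C := by
  induction M with
  | zero =>
    intro C X y hP hD hN
    obtain ⟨c, hyc⟩ := hD.cls
    rcases first_topH h0 hPN hD.gd hP.root hP.neg hyc hP.ltr with
      h1 | ⟨e, g, q, hg, -, hq, -, hy⟩
    · exact ih C X y (hP.congr h1) hD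
    · obtain ⟨-, h3, h4, h5⟩ := step_iso hP hg hq.le hy rfl
      exact absurd (InS_isog h0 hP.root h3 (InS_one h0 h4.memY hq h5)) hN
  | succ M ihM =>
    intro C X y hP hD hN
    obtain ⟨c, hyc⟩ := hD.cls
    rcases first_topH h0 hPN hD.gd hP.root hP.neg hyc hP.ltr with
      h1 | ⟨e, g, q, hg, hgc, hq, hqc, hy⟩
    · exact ih C X y (hP.congr h1) hD
    · obtain ⟨h2, h3, h4, h5⟩ := step_iso hP hg hq.le hy rfl
      have hD' := hD.iso hPN hP.root hyc hgc e
      have hX0 : X e ^ p ^ e = X 0 := by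
        have := root_pow_add hP.root 0 e
        rwa [zero_add] at this
      have hXc : (fun n => X (e + n)) 0 ^ (((p ^ e : ℕ) : ℤ) * c) = X 0 ^ c := by
        show X (e + 0) ^ (((p ^ e : ℕ) : ℤ) * c) = X 0 ^ c
        rw [add_zero, zpow_mul, zpow_natCast, hX0]
      obtain ⟨T, z, h6, h7, h8⟩ := stepH (c := ((p ^ e : ℕ) : ℤ) * c) h0 hc hPN h4 hD' hb hq
        (by rw [hXc, sub_mul]; exact sub_mem hyc hgc)
        (fun i hi => by rw [hXc]; exact hqc i hi) h5
      exact (ihM _ _ _ h6 h7 fun h9 => hN (InS_isog h0 hP.root h3 (h8 _ h9))).up h2 h3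

/-- **Main, homogeneous.** -/
theorem mainH (h0 : Ctx0 k v) (hc : CompleteV v) (hPN : PN p P N) (b : ℕ) :
    ∀ (C : IntermediateField k Ω) (X : ℕ → Ω) (y : Ω), PR p v C X y b → HD v P N X y →
      OutH p v P N C := by
  induction b with
  | zero => exact fun C X y hP _ => (not_PR_zero h0 hP).elim
  | succ b ih =>
    intro C X y hP hD
    by_cases hb : p ∣ b + 1
    · obtain ⟨c, hyc⟩ := hD.cls
      obtain ⟨q, -, hqc, hl⟩ := splitH h0 hPN hD.gd hP.root hP.neg hyc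
        (top_dvd h0 hP.root hP.ne hP.neg hb hP.ltr)
      refine ih C X _ (hP.sub (aeval_mem_field (self_mem_cadj _ _ _)) hl) ⟨hD.gd, c, ?_⟩
      rw [sub_mul]
      exact sub_mem hyc (hom_aeval hqc)
    by_cases hall : ∀ n, 1 ≤ n → InS p v C X b n
    · exact ⟨C, 0, X, y, b, le_rfl, fun f hf => by rwa [pow_zero, pow_one], hP, hD, hb,
        tgt_of_all h0 hP hb hall⟩
    · push Not at hall
      obtain ⟨n, hn, h1⟩ := hall
      obtain ⟨M, rfl⟩ := Nat.exists_eq_add_of_le' hn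
      exact mainH_aux h0 hc hPN hb ih M C X y hP hD h1

end Pool.Agent.TWC.PF
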