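import Pool.Agent.Lib.TWC.HandE
import Pool.Agent.Lib.TWC.Irr6

/-!
# TANK W, class I: the irrational row is closed

* `T2.hasTPn` (`Irr6`) closes the irrational row;
* `PairRatC p k`: the rational row, in any complete `Ω` with `Ctx k v 1`; `PairRatN.toC`;
* `tpn_or_strc1`, `hrone_or_strc1`, `crit4_t31`, `lus_of_t31`: the theorems of `TopN`, `TopD`,
  `HandE` without the irrational row.
-/

set_option autoImplicit false

namespace Pool.Agent.TWC

open Pool.Agent.H15JM (RVal)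
open Pool.Agent.LU1 (VPos adj)
open Pool.Agent.TWM
open Pool.Agent.TWS (TowR IsoE HF hv)
open Pool.Agent.TW (Ctx Full BD HRone)

universe u

/-- **The open row, rational first radius**, in complete fields of rational rank one. -/
def PairRatC (p : ℕ) (k : Type u) [Field k] : Prop :=
  ∀ (Ω : Type u) [Field Ω] [Algebra k Ω] [IsAlgClosed Ω] [CharP Ω p] (v : RVal Ω),
    Ctx k v 1 → CompleteV v → ∀ (X : ℕ → Ω) (y : Ω) (s : ℝ), T2 p k v X y s →
      RatR (v (X 0)) s → HasTPn p v (CP (k := k) v (X 0) y)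

theorem PairRatN.toC {p : ℕ} [Fact p.Prime] {k : Type u} [Field k] [IsAlgClosed k] [CharP k p]
    (h : PairRatN p k) : PairRatC p k := by
  intro Ω _ _ _ _ v hx hc X y s hT hr
  obtain ⟨φ, hφ⟩ := TWS.exists_emb (k := k) hx.toCtx0
  have hI : IsoE v (hv k) φ := ⟨hφ⟩
  have : CharP (HF k) p := charP_of_injective_algebraMap (algebraMap k (HF k)).injective p
  have hT' := hT.map hI hc
  have h1 := h (HF k) (hv k) (TWS.ctx0_hv k) (TWS.completeV_hv k) (TWS.sphC_hv k)
    (TWS.exists_val k) (fun n => φ (X n)) (φ y) s hT' (by rwa [hφ _ hT.ne])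
  simp only [← cp_map hI hc] at h1
  exact h1.of_map hI hc

variable {k Ω : Type u} [Field k] [Field Ω] [Algebra k Ω] {v : RVal Ω} {p : ℕ} [Fact p.Prime]
  [IsAlgClosed k] [CharP k p]

/-- **The alternative for the base.** -/
theorem pair_or_str1 [IsAlgClosed Ω] [CharP Ω p] (h : Ctx k v 1) (hc : CompleteV v)
    (hPF : PairRatC p k) {X : ℕ → Ω} {y : Ω} {s : ℝ} (hT : T2 p k v X y s) :
    HasTPn p v (CP (k := k) v (X 0) y) ∨ StrF k v X y s := by
  by_cases hr : RatR (v (X 0)) s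
  · exact Or.inl (hPF Ω v h hc X y s hT hr)
  · exact hT.hasTPn h.toCtx0 hc hr

/-- **`TPn`, or the base is strict.** -/
theorem tpn_or_strc1 (h : Ctx k v 1) (hPF : PairRatC p k)
    {E : IntermediateField k Ω} (ht : T3c p v E fun _ _ _ _ _ _ _ => True) :
    TPn p v 2 E ∨ T3c p v E fun _ _ _ v' X y s => StrF k v' X y s := by
  obtain ⟨Ω', iF, iA, ι, v', iC, h2, h3, X, y, s, h4, -⟩ := ht
  have : CharP Ω' p := charP_of_injective_algebraMap (algebraMap k Ω').injective p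
  rcases pair_or_str1 (h3.ctx h) h2 hPF h4.base with h5 | h5
  · exact Or.inl ⟨Ω', iF, iA, ι, v', iC, h2, h3, fun N => h5.ptn (h3.ctx h) h4.tow N⟩
  · exact Or.inr ⟨Ω', iF, iA, ι, v', iC, h2, h3, X, y, s, h4, h5⟩

/-- **`HRone`, or the base is strict.** -/
theorem hrone_or_strc1 [IsAlgClosed Ω] [CharP Ω p] (h : Ctx k v 1) (hPF : PairRatC p k)
    {K₀ : IntermediateField k Ω} (hK : K₀.FG) (hfull : Full v K₀)
    (htr : Algebra.trdeg k K₀ = (4 : ℕ)) (hBDK : BD p v K₀) {al : Ω} (hal : al ^ p ∈ K₀)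
    (hBD : BD p v (adj K₀ al)) (ht : T3c p v K₀ fun _ _ _ _ _ _ _ => True) :
    HRone v (adj K₀ al) ∨ T3c p v K₀ fun _ _ _ v' X y s => StrF k v' X y s :=
  (tpn_or_strc1 h hPF ht).imp
    (fun h1 => hrone_of_tpc0 p h one_le_two le_rfl hK hfull htr hBDK hal hBD h1.tpc) id

end Pool.Agent.TWC

namespace Pool.Agent.TW

open Pool.Agent.H15JM (RVal)
open Pool.Agent.TWC (PairRatC tpn_or_strc1)

universe u

/-- **The critical step for the isogeny class of the towers over `cl k(x, y)`.** -/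
theorem crit4_t31 (p : ℕ) [Fact p.Prime] (k : Type u) [Field k] [IsAlgClosed k] [CharP k p]
    (hPF : PairRatC p k) (hS : StrLeaf p k) : Crit4 p k (QIso p (QT3 p k)) := by
  intro Ω _ _ _ _ v hc K₀ hK hf htr hBDK hH hQ g hg hBD
  obtain ⟨K₁, h1, h2, h3⟩ := hQ
  rcases tpn_or_strc1 hc hPF h3 with h4 | h4
  · exact crit4_pn p k Ω v hc K₀ hK hf htr hBDK hH (tpn_isg hc h2 h4) g hg hBD
  · exact hS Ω v hc K₀ hK hf htr hBDK hH ⟨K₁, h1, h2, h4⟩ g hg hBD

/-- **Log uniformization of the fields isogenous to a tower over `cl k(x, y)`.** -/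
theorem lus_of_t31 (p : ℕ) [Fact p.Prime] {k Ω : Type u} [Field k] [IsAlgClosed k] [CharP k p]
    [Field Ω] [Algebra k Ω] [IsAlgClosed Ω] {v : RVal Ω} (hPF : PairRatC p k)
    (hS : StrLeaf p k) (h : Ctx k v 1) {E : IntermediateField k Ω}
    (hE : E.FG) (hΩ : ∀ g : Ω, IsAlgebraic E g) (htr : Algebra.trdeg k E = (4 : ℕ))
    (hBD : BD p v E) (hQ : QIso p (QT3 p k) Ω v E) :
    LUC.LUs v (algebraMap k Ω).range E.toSubfield := by
  have : CharP Ω p := charP_of_injective_algebraMap (algebraMap k Ω).injective p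
  exact lus_of_her p (crit4_t31 p k hPF hS) h hE hΩ htr hBD (her_iso hQ)

end Pool.Agent.TW
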