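import Pool.Agent.Lib.TWC.PFg
import Pool.Agent.Lib.TWC.PFh
import Pool.Agent.Lib.TWC.Irr6
import Pool.Agent.Lib.TWC.TopI

/-!
# TANK W, class C: the pair of a field of rational radius (row PF), the end

`T2 p k v X y s`, `n s = m v (X 0)`, `n = p ^ i N`, `p ∤ N`. With `Z n ^ N = X (i + n)`,
`y' = y Z 0 ^ (-m)`: `T2 p k v Z y' 0`, homogeneous coordinates for the perfect closed field
`P = cl (E⟨y⟩)^perf` (`TamD`). The entry (`Entry`): up to an element of `cl k(Z j)`, `y'` is a limit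
of letters of bounded exponents; the element may be chosen homogeneous. `mainH` gives a tight first
coordinate in a field `C₃` isogenous to `cl k(Z j, y')`, `GD.hasTPn` the tight pairs of `C₃ ⊓ P`,
which is isogenous to `cl k(X 0, y)`.
-/

set_option autoImplicit false
set_option linter.unusedSectionVars false

open Polynomial

namespace Pool.Agent.TWC.PF

open Pool.Agent.H15JM (RVal)
open Pool.Agent.LU1 (adj)
open Pool.Agent.D2 (Ctx0)
open Pool.Agent.D2P (clI mem_clI rootF mem_rootF)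
open Pool.Agent.TWM
open Pool.Agent.TWS (VG RatV SphC)

universe u

variable {k Ω : Type u} [Field k] [Field Ω] [Algebra k Ω] {v : RVal Ω}
  {P C C' D : IntermediateField k Ω} {X Z : ℕ → Ω} {f g y : Ω} {r s : ℝ} {i j N : ℕ} {m : ℤ}

/-- The homogeneous component of an element of `D(Z)`. -/
theorem _root_.Pool.Agent.TWC.GD.comp {Z : Ω} (hG : GD v P Z N) (hD : D ≤ P) (hZ : Z ^ N ∈ D)
    {a : Ω} (ha : a ∈ adj D Z) (c : ℤ) :
    ∃ a₀ ∈ adj D Z, a₀ * Z ^ c ∈ P ∧ (a - a₀) * Z ^ c ∈ Off P Z N := by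
  classical
  obtain ⟨f, hf, h1⟩ := exists_sum hG.pos hZ ha
  have hDa : D ≤ adj D Z := (D2P.mem_adj_self _ _).2
  have hZa : Z ∈ adj D Z := (D2P.mem_adj_self _ _).1
  refine ⟨∑ j ∈ Finset.range N, if Z ^ j * Z ^ c ∈ P then f j * Z ^ j else 0,
    sum_mem fun j _ => ?_, ?_, ?_⟩
  · split_ifs
    · exact mul_mem (hDa (hf j)) (pow_mem hZa j)
    · exact zero_mem _
  · rw [Finset.sum_mul]
    refine sum_mem fun j _ => ?_
    split_ifs with h2
    · rw [mul_assoc]
      exact mul_mem (hD (hf j)) h2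
    · rw [zero_mul]
      exact zero_mem _
  · rw [h1, ← Finset.sum_sub_distrib, Finset.sum_mul]
    refine sum_mem fun j _ => ?_
    split_ifs with h2
    · rw [sub_self, zero_mul]
      exact zero_mem _
    · rw [sub_zero]
      by_cases hf0 : f j = 0
      · rw [hf0, zero_mul, zero_mul]
        exact zero_mem _
      refine hG.mem_off (d := -(j + c)) ?_ fun h3 => h2 ?_
      · have e : f j * Z ^ j * Z ^ c * Z ^ (-((j : ℤ) + c)) = f j := by
          have h4 : Z ^ ((j : ℤ) + c) ≠ 0 := zpow_ne_zero _ hG.ne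
          rw [mul_assoc (f j), ← zpow_natCast, ← zpow_add₀ hG.ne, zpow_neg, mul_assoc,
            mul_inv_cancel₀ h4, mul_one]
        rw [e]
        exact hD (hf j)
      · have h4 := mul_mem (inv_mem (hD (hf j))) h3
        rwa [mul_assoc (f j), ← mul_assoc, inv_mul_cancel₀ hf0, one_mul] at h4

variable {p : ℕ} [hp : Fact p.Prime] [CharP k p] [CharP Ω p] [IsAlgClosed Ω]

/-- The tame coordinates. -/
structure TamD (p : ℕ) (v : RVal Ω) (P : IntermediateField k Ω) (X : ℕ → Ω) (y : Ω) (i N : ℕ)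
    (Z : ℕ → Ω) (m : ℤ) : Prop where
  pn : PN p P N
  gd : GD v P (Z 0) N
  ewP : cadj v (EW v (⊥ : IntermediateField k Ω) X) y ≤ P
  vgP : ∀ g ∈ VG v P, ∃ (l n : ℕ) (e : ℤ), (p : ℝ) ^ l * g = e * v (X n)
  pw : ∀ n, Z n ^ N = X (i + n)
  le : CP (k := k) v (Z 0) (y * Z 0 ^ (-m)) ≤ adj (CP (k := k) v (X i) y) (Z 0)
  t2 : T2 p k v Z (y * Z 0 ^ (-m)) 0

theorem exists_tam [IsAlgClosed k] (hk : Ctx0 k v) (hc : CompleteV v) (h : T2 p k v X y s)
    (hr : RatR (v (X 0)) s) :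
    ∃ (P : IntermediateField k Ω) (i N : ℕ) (Z : ℕ → Ω) (m : ℤ), TamD p v P X y i N Z m := by
  obtain ⟨n, hn, m, hnm⟩ := hr
  obtain ⟨i, N, hN, rfl⟩ := Nat.exists_eq_pow_mul_and_not_dvd hn p hp.out.ne_one
  have hN0 : N ≠ 0 := by
    rintro rfl
    exact hN (dvd_zero p)
  have hNpos : 0 < N := Nat.pos_of_ne_zero hN0
  have hNR : (0 : ℝ) < N := by exact_mod_cast hNpos
  have hp0 : (0 : ℝ) < p := by exact_mod_cast hp.out.pos
  have hps : ∀ n : ℕ, (0 : ℝ) < (p : ℝ) ^ n := fun n => pow_pos hp0 n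
  have hvi : ∀ i, v (X i) = v (X 0) / p ^ i := val_root h.root h.ne
  -- the roots
  obtain ⟨z, hz⟩ := IsAlgClosed.exists_pow_nat_eq (X i) hNpos
  obtain ⟨Z, hZ0, hZ⟩ := exists_rts p z
  have hpw : ∀ n, Z n ^ N = X (i + n) := by
    intro n
    have h1 := root_pow_add hZ 0 n
    rw [zero_add] at h1
    have h2 : (Z n ^ N) ^ p ^ n = X (i + n) ^ p ^ n := by
      rw [← pow_mul, mul_comm, pow_mul, h1, hZ0, hz, root_pow_add h.root i n]
    exact iterateFrobenius_inj Ω p n (by simpa [iterateFrobenius_def] using h2)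
  have hpw0 : Z 0 ^ N = X i := by
    have := hpw 0
    rwa [add_zero] at this
  have hXi := root_ne h.root h.ne i
  have hZne : Z 0 ≠ 0 := by
    intro h1
    rw [h1, zero_pow hN0] at hpw0
    exact hXi hpw0.symm
  have hNv : (N : ℝ) * v (Z 0) = v (X i) := by rw [← hpw0, v.map_pow hZne]
  have hNeg : v (X i) < 0 := by
    rw [hvi]
    exact div_neg_of_neg_of_pos h.neg (hps i)
  have hZneg : v (Z 0) < 0 := by
    by_contra h1
    rw [← hNv] at hNeg
    exact absurd hNeg (not_lt.2 (mul_nonneg hNR.le (not_lt.1 h1)))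
  have hs : s = m * v (Z 0) := by
    have h1 : (N : ℝ) * s = m * v (X i) := by
      have h2 := hnm
      push_cast at h2
      rw [hvi, mul_div_assoc', eq_div_iff (hps i).ne']
      linarith
    rw [← hNv] at h1
    have h2 : (N : ℝ) * s = N * (m * v (Z 0)) := by rw [h1]; ring
    exact mul_left_cancel₀ hNR.ne' h2
  -- the perfect field
  set E := EW v (⊥ : IntermediateField k Ω) X with hE
  set P := clI v (pcl p (cadj v E y)) with hP
  have hEP : cadj v E y ≤ P := by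
    have h1 : cadj v E y ≤ pcl p (cadj v E y) := fun a ha => ⟨0, by rwa [pow_zero, pow_one]⟩
    exact h1.trans (TWC.self_le_clI v _)
  have hvgP : ∀ g ∈ VG v P, ∃ (l n : ℕ) (e : ℤ), (p : ℝ) ^ l * g = e * v (X n) := by
    intro g hg
    rw [hP, TWS.VG.clI] at hg
    obtain ⟨l, hl⟩ := TWS.VG.pcl p _ hg
    rw [TWS.VG.imm h.tl.imm] at hl
    obtain ⟨n, e, h1⟩ := vg_ew hk h.root h.ne h.neg hl
    exact ⟨l, n, e, h1⟩
  have hXE : ∀ n, X n ∈ E := fun n => EW.mem n
  have hGD : GD v P (Z 0) N := by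
    refine ⟨cld_clI v _, hNpos, hZne, ?_, fun j hj => ?_⟩
    · rw [hpw0]
      exact hEP (le_cadj _ _ _ (hXE i))
    · obtain ⟨l, n, e, h1⟩ := hvgP _ hj
      have h2 : v (X n) = v (Z 0) * N * p ^ i / p ^ n := by
        rw [mul_comm (v (Z 0)), hNv, hvi n, hvi i]
        have := (hps i).ne'
        field_simp
      rw [h2] at h1
      have h3 : ((p : ℝ) ^ (l + n) * j) * v (Z 0) = (e * N * p ^ i) * v (Z 0) := by
        have := (hps n).ne'
        rw [pow_add]
        field_simp at h1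
        linear_combination h1
      have h4 := mul_right_cancel₀ hZneg.ne h3
      have h5 : ((p : ℤ) ^ (l + n) * j) = (N : ℤ) * (e * p ^ i) := by
        have : (((p : ℤ) ^ (l + n) * j : ℤ) : ℝ) = (((N : ℤ) * (e * p ^ i) : ℤ) : ℝ) := by
          push_cast
          linear_combination h4
        exact_mod_cast this
      have h6 : IsCoprime (N : ℤ) ((p : ℤ) ^ (l + n)) := by
        refine IsCoprime.pow_right ?_
        exact Nat.isCoprime_iff_coprime.2 ((Nat.Prime.coprime_iff_not_dvd hp.out).2 hN).symm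
      exact h6.dvd_of_dvd_mul_left ⟨_, h5⟩
  have hperf : ∀ a ∈ P, ∃ b ∈ P, b ^ p = a := perf_clI p (TWS.pcl_perf p _)
  -- the field
  set y' : Ω := y * Z 0 ^ (-m) with hy'
  have hXC : X i ∈ CP (k := k) v (X i) y := le_cadj _ _ _ (self_mem_cadj _ _ _)
  have hyC : y ∈ CP (k := k) v (X i) y := self_mem_cadj _ _ _
  have hpwC : Z 0 ^ N ∈ CP (k := k) v (X i) y := by
    rw [hpw0]
    exact hXC
  have hle : CP (k := k) v (Z 0) y' ≤ adj (CP (k := k) v (X i) y) (Z 0) := by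
    have hcl : Cld v (adj (CP (k := k) v (X i) y) (Z 0)) :=
      cld_adj hc (cld_cadj _ _ _) (alg_of_pw hNpos hpwC)
    have hZa := (D2P.mem_adj_self (CP (k := k) v (X i) y) (Z 0)).1
    exact cadj_le hcl (cadj_le hcl bot_le hZa)
      (mul_mem ((D2P.mem_adj_self _ _).2 hyC) (zpow_mem hZa _))
  have hCiP : CP (k := k) v (X i) y ≤ P := (cadj_mono (EW.cadj_le i) y).trans hEP
  have hZC : Z 0 ∈ CP (k := k) v (Z 0) y' := le_cadj _ _ _ (self_mem_cadj _ _ _)
  have hyC' : y ∈ CP (k := k) v (Z 0) y' := by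
    have e : y = y' * Z 0 ^ m := by
      rw [hy', mul_assoc, ← zpow_add₀ hZne, neg_add_cancel, zpow_zero, mul_one]
    rw [e]
    exact mul_mem (self_mem_cadj _ _ _) (zpow_mem hZC m)
  have hC0 : CP (k := k) v (X 0) y ≤ CP (k := k) v (Z 0) y' := by
    refine cadj_le (cld_cadj _ _ _) (cadj_le (cld_cadj _ _ _) bot_le ?_) hyC'
    have h1 := root_pow_add h.root 0 i
    rw [zero_add] at h1
    rw [← h1, ← hpw0]
    exact pow_mem (pow_mem hZC _) _
  have hTL : TL v (EW v (⊥ : IntermediateField k Ω) Z) y' 0 := by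
    have hA : E ≤ EW v (⊥ : IntermediateField k Ω) Z := by
      refine clI_le' (sup_le bot_le (IntermediateField.adjoin_le_iff.2 ?_)) EW.cld
      rintro _ ⟨n, rfl⟩
      rw [SetLike.mem_coe, ← root_pow_add h.root n i, add_comm, ← hpw n]
      exact pow_mem (pow_mem (EW.mem n) _) _
    have hB : EW v (⊥ : IntermediateField k Ω) Z ≤ clI v (algc E) := by
      refine clI_mono' (sup_le bot_le (IntermediateField.adjoin_le_iff.2 ?_))
      rintro _ ⟨n, rfl⟩
      refine mem_algc.2 (IsAlgebraic.of_pow hNpos ?_)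
      rw [hpw]
      exact isAlgebraic_algebraMap (⟨_, hXE (i + n)⟩ : E)
    have h1 := (TL.base h.tl hA hB).affine (zpow_mem (EW.mem 0) (-m)) (zpow_ne_zero (-m) hZne)
      (zero_mem _)
    rw [add_zero, mul_comm, v.map_zpow hZne, hs] at h1
    have e : ((-m : ℤ) : ℝ) * v (Z 0) + m * v (Z 0) = 0 := by
      push_cast
      ring
    rwa [e] at h1
  refine ⟨P, i, N, Z, m, ⟨⟨hperf, hN⟩, hGD, hEP, hvgP, hpw, hle, ⟨hZ, hZne, hZneg, hTL, ?_, ?_⟩⟩⟩
  · intro h1
    have h2 : X (i + 1) ∈ adj (CP (k := k) v (X i) y) (Z 0) := by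
      rw [← hpw 1]
      exact hle (pow_mem h1 N)
    have h3 : X (i + 1) ∈ CP (k := k) v (X i) y :=
      hGD.inf hCiP hpwC h2 (hEP (le_cadj _ _ _ (hXE _)))
    have h4 := pow_mem_base h.root y i h3
    rw [add_comm, root_pow_add h.root 1 i] at h4
    exact h.nr h4
  · intro g hg
    have h1 : g ∈ VG v (EW v (⊥ : IntermediateField k Ω) Z) := by
      rw [← TWS.VG.imm hTL.imm]
      exact TWS.VG.mono (cadj_mono (EW.cadj_le 0) y') hg
    obtain ⟨n, e, rfl⟩ := vg_ew hk hZ hZne hZneg h1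
    have h2 : e * v (Z n) / p = e * v (Z (n + 1)) := by
      rw [val_root hZ hZne n, val_root hZ hZne (n + 1), pow_succ]
      field_simp
    rw [h2]
    -- `v (Z (n + 1))` is a value of the field
    have h3 : (N : ℝ) * v (Z (n + 1)) ∈ VG v (CP (k := k) v (Z 0) y') := by
      rw [← v.map_pow (root_ne hZ hZne (n + 1)), hpw]
      exact TWS.VG.mono hC0 (h.val_mem _)
    have h4 : (p : ℝ) ^ (n + 1) * v (Z (n + 1)) ∈ VG v (CP (k := k) v (Z 0) y') := by
      have e1 : (p : ℝ) ^ (n + 1) * v (Z (n + 1)) = v (Z 0) := by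
        rw [val_root hZ hZne (n + 1)]
        have := (hps (n + 1)).ne'
        field_simp
      rw [e1]
      exact TWS.VG.self hZC hZne
    have h5 : IsCoprime (N : ℤ) ((p : ℤ) ^ (n + 1)) := by
      refine IsCoprime.pow_right ?_
      exact Nat.isCoprime_iff_coprime.2 ((Nat.Prime.coprime_iff_not_dvd hp.out).2 hN).symm
    obtain ⟨a, b, hab⟩ := h5
    have h6 : (e : ℝ) * v (Z (n + 1)) = (e * a) • ((N : ℝ) * v (Z (n + 1))) +
        (e * b) • ((p : ℝ) ^ (n + 1) * v (Z (n + 1))) := by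
      have h7 : ((a : ℝ) * N + b * p ^ (n + 1)) = 1 := by exact_mod_cast hab
      rw [zsmul_eq_mul, zsmul_eq_mul]
      push_cast
      linear_combination (-(e * v (Z (n + 1)))) * h7
    rw [h6]
    exact add_mem (zsmul_mem h3 _) (zsmul_mem h4 _)

/-- The closed field `cl k(t)`. -/
theorem cp_one (t : Ω) : CP (k := k) v t 1 = cadj v (⊥ : IntermediateField k Ω) t :=
  le_antisymm (cadj_le (cld_cadj _ _ _) le_rfl (one_mem _)) (le_cadj _ _ _)

/-- **The pairs, rational first radius.** -/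
theorem pair_rat [IsAlgClosed k] (hk : Ctx0 k v) (hc : CompleteV v) (hs : SphC v)
    (hρ : ∀ ρ : ℝ, ∃ c : Ω, c ≠ 0 ∧ v c = ρ) (h : T2 p k v X y s) (hr : RatR (v (X 0)) s) :
    HasTPn p v (CP (k := k) v (X 0) y) := by
  obtain ⟨P, i, N, Z, m, hT⟩ := exists_tam hk hc h hr
  have hZ := hT.t2.root
  have hZne := hT.t2.ne
  have hp0 : (0 : ℝ) < p := by exact_mod_cast hp.out.pos
  set y' : Ω := y * Z 0 ^ (-m) with hy'
  have hyZ : y' * Z 0 ^ m = y := by
    rw [hy', mul_assoc, ← zpow_add₀ hZne, neg_add_cancel, zpow_zero, mul_one]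
  have hyP : y ∈ P := hT.ewP (self_mem_cadj _ _ _)
  have hXP : ∀ n, X n ∈ P := fun n => hT.ewP (le_cadj _ _ _ (EW.mem n))
  -- the entry
  obtain ⟨j, b, a, ha, hl⟩ := entry hk hc hs hρ hT.t2
  have hGj := hT.gd.root hT.pn hZ j
  have hroot : Z j ^ p ^ j = Z 0 := by
    have := root_pow_add hZ 0 j
    rwa [zero_add] at this
  set c : ℤ := ((p ^ j : ℕ) : ℤ) * m with hcdef
  have hZc : Z j ^ c = Z 0 ^ m := by
    rw [hcdef, zpow_mul, zpow_natCast, hroot]
  have hyc : y' * Z j ^ c ∈ P := by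
    rw [hZc, hyZ]
    exact hyP
  -- the homogeneous component of `a`
  set B := cadj v (⊥ : IntermediateField k Ω) (Z j) with hB
  have hadj : adj (B ⊓ P) (Z j) = B :=
    hGj.adj_inf hc (y := 1) (c := 0) (by rw [zpow_zero, mul_one]; exact one_mem _) (cp_one _).symm
  have hZB : Z j ∈ B := self_mem_cadj _ _ _
  obtain ⟨a₀, ha₀, h1, h2⟩ := hGj.comp (D := B ⊓ P) inf_le_right ⟨pow_mem hZB N, hGj.pw⟩
    (a := a) (by rw [hadj]; exact ha) c
  rw [hadj] at ha₀
  have hhomy : (y' - a₀) * Z j ^ c ∈ P := by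
    rw [sub_mul]
    exact sub_mem hyc h1
  set W : ℕ → Ω := fun n => Z (j + n) with hW
  have hWr : ∀ n, W (n + 1) ^ p = W n := fun n => hZ (j + n)
  have hGW : GD v P (W 0) N := hGj
  have hl' : Lm v (SW k W b 1) (y' - a₀) := by
    refine hGW.lm (c := c) (hom_SW hT.pn hGW hWr) hhomy (g := -(a - a₀)) ?_ ?_
    · rw [neg_mul]
      exact neg_mem h2
    · have e : y' - a₀ + -(a - a₀) = y' - a := by ring
      rw [e]
      exact hl
  -- the data
  have hEW : EW v (⊥ : IntermediateField k Ω) W = EW v (⊥ : IntermediateField k Ω) Z := by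
    rw [← EW_shift hZ (⊥ : IntermediateField k Ω) j, hW]
    congr 1
    funext n
    rw [add_comm]
  have hPR : PR p v (CP (k := k) v (Z j) (y' - a₀)) W (y' - a₀) b := by
    refine ⟨hWr, hGj.ne, ?_, ?_, rfl, hl'⟩
    · exact rt_neg hZ hZne hT.t2.neg j
    · rw [hEW]
      exact hT.t2.tl.sub_mem (EW.cadj_le j ha₀)
  have hHD : HD v P N W (y' - a₀) := ⟨hGW, c, hhomy⟩
  have hCeq : CP (k := k) v (Z j) (y' - a₀) = CP (k := k) v (Z j) y' := cadj_sub_mem ha₀
  -- main
  obtain ⟨C₃, e, X₃, y₃, b₃, h3, h4, h5, h6, h7, h8⟩ := mainH hk hc hT.pn b _ W _ hPR hHD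
  obtain ⟨c₃, h9⟩ := h6.cls
  rw [hCeq] at h3 h4
  have hkp : PerfectRing k p := PerfectField.toPerfectRing p
  have h10 : HasTPn p v (C₃ ⊓ P) := h6.gd.hasTPn hk hc hT.pn.perf hT.pn.nd h5.neg h5.eq
    (b := b₃) (by exact_mod_cast h7) (by positivity) (by exact_mod_cast h8) h5.tl h9
  -- down to `cl k(X 0, y)`
  have hC3 : Cld v C₃ := h5.cld
  have hZ0C : Z 0 ∈ CP (k := k) v (Z j) y' := by
    rw [← hroot]
    exact pow_mem (le_cadj _ _ _ hZB) _
  have hyCj : y ∈ CP (k := k) v (Z j) y' := by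
    rw [← hyZ]
    exact mul_mem (self_mem_cadj _ _ _) (zpow_mem hZ0C m)
  have hXi : Z 0 ^ N = X i := by
    have := hT.pw 0
    rwa [add_zero] at this
  have hX0 : X i ^ p ^ i = X 0 := by
    have := root_pow_add h.root 0 i
    rwa [zero_add] at this
  have hX0C : X 0 ∈ CP (k := k) v (Z j) y' := by
    rw [← hX0, ← hXi]
    exact pow_mem (pow_mem hZ0C _) _
  have hMD : CP (k := k) v (X 0) y ≤ C₃ ⊓ P := le_inf
    ((cadj_le (cld_cadj _ _ _) (cadj_le (cld_cadj _ _ _) bot_le hX0C) hyCj).trans h3)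
    (cadj_le hT.gd.cld (cadj_le hT.gd.cld bot_le (hXP 0)) hyP)
  have hCiP : CP (k := k) v (X i) y ≤ P :=
    cadj_le hT.gd.cld (cadj_le hT.gd.cld bot_le (hXP i)) hyP
  have hDM : ∀ f ∈ C₃ ⊓ P, f ^ p ^ (e + j + i) ∈ CP (k := k) v (X 0) y := by
    intro f hf
    have h11 : f ^ p ^ e ∈ CP (k := k) v (Z j) y' := h4 f hf.1
    have h12 : (f ^ p ^ e) ^ p ^ j ∈ CP (k := k) v (Z 0) y' := pow_mem_base hZ y' j h11
    have h13 : (f ^ p ^ e) ^ p ^ j ∈ CP (k := k) v (X i) y := by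
      refine hT.gd.inf hCiP ?_ (hT.le h12) (pow_mem (pow_mem hf.2 _) _)
      rw [hXi]
      exact le_cadj _ _ _ (self_mem_cadj _ _ _)
    have h14 := pow_mem_base h.root y i h13
    rwa [← pow_mul, ← pow_mul, ← pow_add, ← pow_add, ← add_assoc] at h14
  refine h10.down hk hc (γ := v (X 0)) ?_ ?_ (cld_inf_tgt hC3 hT.gd.cld) (cld_cadj _ _ _) hMD hDM
  · intro g hg
    obtain ⟨l, n, e', h11⟩ := hT.vgP g (TWS.VG.mono inf_le_right hg)
    refine ⟨p ^ (l + n), (pow_pos hp.out.pos _).ne', e', ?_⟩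
    rw [val_root h.root h.ne n] at h11
    have := (pow_pos hp0 n).ne'
    rw [pow_add]
    push_cast
    field_simp at h11
    linear_combination h11
  · intro g hg
    obtain ⟨f, hf, hf0, rfl⟩ := hg
    have h11 := TWS.VG.self (v := v) (hDM f hf) (pow_ne_zero _ hf0)
    rw [v.map_pow hf0] at h11
    have h12 := vg_div_pow h.div (e + j + i + 1) h11
    refine TWS.VG.mono hMD ?_
    convert h12 using 1
    have := (pow_pos hp0 (e + j + i)).ne'
    push_cast
    rw [pow_succ]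
    field_simp

/-- **Row PF**, the rational first radius. -/
theorem pairRatN (p : ℕ) [Fact p.Prime] (k : Type u) [Field k] [IsAlgClosed k] [CharP k p] :
    PairRatN p k := fun _ _ _ _ _ _ hk hc hs hρ _ _ _ h hr => pair_rat hk hc hs hρ h hr

theorem pairRatC (p : ℕ) [Fact p.Prime] (k : Type u) [Field k] [IsAlgClosed k] [CharP k p] :
    PairRatC p k := (pairRatN p k).toC

end Pool.Agent.TWC.PF
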