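import Pool.Agent.Lib.TWC.Tow
import Pool.Agent.Lib.TWM.C1
import Pool.Agent.Lib.TW.Defs

/-!
# TANK W, class C: over a perfect closed field there are no jumps

* `ax_perfect`: Ax's lemma for a perfect henselian field, the constant is `0`;
* `lim_of_alg`: if `y ∈ K`, `K` henselian and regular over the perfect field `E`, an algebraic
  element at distance `c` of `y` gives elements of `E` at distance `c - ε`;
* `tl_of_perfect`: every `y ∈ K`, `y ∉ E`, is of transcendental type over `E`.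
-/

set_option autoImplicit false

open Polynomial

namespace Pool.Agent.TWC

open Pool.Agent.H15JM (RVal)
open Pool.Agent.LU1 (VPos adj)
open Pool.Agent.LUC (Cl clF)
open Pool.Agent.D2 (Ctx0)
open Pool.Agent.D2P (hen clI mem_clI)
open Pool.Agent.TW (Full)
open Pool.Agent.TWM

universe u

variable {k Ω : Type u} [Field k] [Field Ω] [Algebra k Ω] {v : RVal Ω}
  {E K : IntermediateField k Ω}

/-- A field with `p`-th roots is perfect. -/
theorem perfectRing_of (p : ℕ) [Fact p.Prime] [CharP Ω p]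
    (hp : ∀ a ∈ E, ∃ b ∈ E, b ^ p = a) : ∃ _ : ExpChar E p, PerfectRing E p := by
  have hch : CharP E p := RingHom.charP (algebraMap E Ω) (algebraMap E Ω).injective p
  refine ⟨ExpChar.prime Fact.out, PerfectRing.ofSurjective E p ?_⟩
  intro a
  obtain ⟨b, hb, h1⟩ := hp a a.2
  refine ⟨⟨b, hb⟩, Subtype.ext ?_⟩
  rw [frobenius_def]
  exact h1

/-- **Ax's lemma** for a perfect henselian field. -/
theorem ax_perfect (p : ℕ) [hpp : Fact p.Prime] [CharP Ω p] [IsAlgClosed Ω] (h : Ctx0 k v)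
    (hE : hen v E = E) (hp : ∀ a ∈ E, ∃ b ∈ E, b ^ p = a) {θ : Ω} (hθ : IsAlgebraic E θ) {c : ℝ}
    (hc : ∀ θ' : Ω, aeval θ' (minpoly E θ) = 0 → v.Ge c (θ' - θ)) {ε : ℝ} (hε : 0 < ε) :
    ∃ a ∈ E, v.Ge (c - ε) (θ - a) := by
  classical
  obtain ⟨hexp, hperf⟩ := perfectRing_of p hp
  have hPF : PerfectField E := PerfectRing.toPerfectField E p
  have hint : IsIntegral E θ := hθ.isIntegral
  have hsep : (minpoly E θ).Separable :=
    PerfectField.separable_of_irreducible (minpoly.irreducible hint)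
  have hsp : ((minpoly E θ).map (algebraMap E Ω)).Splits := IsAlgClosed.splits _
  let N : IntermediateField E Ω := IntermediateField.adjoin E ((minpoly E θ).rootSet Ω)
  have hSF : IsSplittingField E N (minpoly E θ) :=
    IntermediateField.adjoin_rootSet_isSplittingField hsp
  have : FiniteDimensional E N := IsSplittingField.finiteDimensional N (minpoly E θ)
  have : IsGalois E N := IsGalois.of_separable_splitting_field hsep
  have hθN : θ ∈ N := IntermediateField.subset_adjoin _ _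
    ((mem_rootSet).2 ⟨minpoly.ne_zero hint, minpoly.aeval E θ⟩)
  have hNch : CharP N p := RingHom.charP (algebraMap N Ω) (algebraMap N Ω).injective p
  have hNexp : ExpChar N p := ExpChar.prime hpp.out
  have hNPF : PerfectField N := Algebra.IsAlgebraic.perfectField E
  have hNp : PerfectRing N p := inferInstance
  -- an element of trace one
  obtain ⟨u, hu⟩ := Algebra.trace_surjective E N (1 : E)
  have hu0 : u ≠ 0 := by
    rintro rfl
    rw [map_zero] at hu
    exact zero_ne_one hu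
  have huΩ : (u : Ω) ≠ 0 := fun h0 => hu0 (Subtype.ext h0)
  -- its root of high order
  have hp1 : (1 : ℝ) < p := by exact_mod_cast hpp.out.one_lt
  obtain ⟨n, hn⟩ := pow_unbounded_of_one_lt (|v (u : Ω)| / ε) hp1
  obtain ⟨w, hw⟩ := (iterateFrobeniusEquiv N p n).surjective u
  have hw' : w ^ p ^ n = u := by
    rw [← hw, iterateFrobeniusEquiv_apply, iterateFrobenius_def]
  have hwΩ : (w : Ω) ^ p ^ n = u := by
    have := congrArg (fun x : N => (x : Ω)) hw'
    simpa using this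
  have hw0 : (w : Ω) ≠ 0 := by
    intro h0
    rw [h0, zero_pow (pow_ne_zero n hpp.out.ne_zero)] at hwΩ
    exact huΩ hwΩ.symm
  have hvw : v.Ge (-ε) (w : Ω) := by
    intro _
    have h1 : ((p ^ n : ℕ) : ℝ) * v (w : Ω) = v (u : Ω) := by
      rw [← hwΩ, v.map_pow hw0]
    have h2 : (0 : ℝ) < (p : ℝ) ^ n := by positivity
    rw [div_lt_iff₀ hε] at hn
    by_contra hlt
    push Not at hlt
    have h3 : (p : ℝ) ^ n * v (w : Ω) < (p : ℝ) ^ n * (-ε) := mul_lt_mul_of_pos_left hlt h2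
    have h4 : -|v (u : Ω)| ≤ v (u : Ω) := neg_abs_le _
    push_cast at h1
    nlinarith
  have htr : ∑ σ : N ≃ₐ[E] N, σ w = 1 := by
    have h1 : (∑ σ : N ≃ₐ[E] N, σ w) ^ p ^ n = 1 := by
      have h2 : iterateFrobenius N p n (∑ σ : N ≃ₐ[E] N, σ w) =
          ∑ σ : N ≃ₐ[E] N, σ (w ^ p ^ n) := by
        rw [map_sum]
        refine Finset.sum_congr rfl fun σ _ => ?_
        rw [iterateFrobenius_def, map_pow]
      rw [iterateFrobenius_def] at h2
      rw [h2, hw', ← trace_eq_sum_automorphisms, hu, map_one]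
    have h2 : iterateFrobenius N p n (∑ σ : N ≃ₐ[E] N, σ w) = iterateFrobenius N p n 1 := by
      rw [iterateFrobenius_def, h1, map_one]
    exact (iterateFrobenius N p n).injective h2
  refine ⟨(algebraMap E Ω) (Algebra.trace E N (w * ⟨θ, hθN⟩)), (Algebra.trace E N _).2, ?_⟩
  have h1 : algebraMap E Ω (Algebra.trace E N (w * ⟨θ, hθN⟩)) =
      ∑ σ : N ≃ₐ[E] N, ((σ w : N) : Ω) * ((σ ⟨θ, hθN⟩ : N) : Ω) := by
    have h2 := trace_eq_sum_automorphisms (K := E) (L := N) (w * ⟨θ, hθN⟩)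
    have h3 := congrArg (fun x : N => (x : Ω)) h2
    simp only [map_mul] at h3
    rw [show (((algebraMap E N) (Algebra.trace E N (w * ⟨θ, hθN⟩)) : N) : Ω) =
      algebraMap E Ω (Algebra.trace E N (w * ⟨θ, hθN⟩)) from rfl] at h3
    rw [h3]
    simp
  have h2 : θ = ∑ σ : N ≃ₐ[E] N, ((σ w : N) : Ω) * θ := by
    rw [← Finset.sum_mul]
    have h3 := congrArg (fun x : N => (x : Ω)) htr
    have h4 : ∑ σ : N ≃ₐ[E] N, ((σ w : N) : Ω) = 1 := by
      simpa using h3
    rw [h4, one_mul]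
  rw [h1]
  nth_rw 1 [h2]
  rw [← Finset.sum_sub_distrib]
  refine RVal.Ge.sum _ _ fun σ _ => ?_
  rw [← mul_sub]
  have h3 : v ((σ w : N) : Ω) = v (w : Ω) := by
    have h4 : σ ∈ LU1.decG v E N := by
      rw [D2P.decG_eq_top h hE N]
      exact Subgroup.mem_top _
    exact h4 w
  have h4 : v.Ge (-ε) ((σ w : N) : Ω) := fun _ => by
    rw [h3]
    exact hvw hw0
  have h5 : v.Ge c (θ - ((σ ⟨θ, hθN⟩ : N) : Ω)) := by
    have h6 : aeval ((σ ⟨θ, hθN⟩ : N) : Ω) (minpoly E θ) = 0 := by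
      have h7 : aeval (σ ⟨θ, hθN⟩) (minpoly E θ) = 0 := by
        have h8 : aeval (⟨θ, hθN⟩ : N) (minpoly E θ) = 0 := by
          apply Subtype.ext
          have h9 := aeval_algebraMap_apply Ω (⟨θ, hθN⟩ : N) (minpoly E θ)
          rw [show algebraMap N Ω ⟨θ, hθN⟩ = θ from rfl, minpoly.aeval] at h9
          exact h9.symm
        have h9 := Polynomial.aeval_algHom_apply (σ : N →ₐ[E] N) (⟨θ, hθN⟩ : N) (minpoly E θ)
        rw [h8, map_zero] at h9
        exact h9
      have h8 := aeval_algebraMap_apply Ω (σ ⟨θ, hθN⟩) (minpoly E θ)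
      rw [h7, map_zero] at h8
      exact h8
    have h7 := (hc _ h6).neg
    rwa [neg_sub] at h7
  have h6 := h4.mul h5
  rwa [show -ε + c = c - ε by ring] at h6

/-- An algebraic element at distance `c` of `y ∈ K`, `K` regular over the perfect field `E`, gives
elements of `E` at distance `c - ε`. -/
theorem lim_of_alg (p : ℕ) [Fact p.Prime] [CharP Ω p] [IsAlgClosed Ω] (h : Ctx0 k v)
    (hE : hen v E = E) (hp : ∀ a ∈ E, ∃ b ∈ E, b ^ p = a) (hK : hen v K = K) (hEK : E ≤ K)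
    (hreg : ∀ a ∈ K, IsAlgebraic E a → a ∈ E) {y : Ω} (hy : y ∈ K) {θ : Ω}
    (hθ : IsAlgebraic E θ) {c : ℝ} (hc : v.Ge c (y - θ)) {ε : ℝ} (hε : 0 < ε) :
    ∃ a ∈ E, v.Ge (c - ε) (y - a) := by
  classical
  by_cases hθE : θ ∈ E
  · exact ⟨θ, hθE, hc.mono (by linarith)⟩
  have hint : IsIntegral E θ := hθ.isIntegral
  -- the minimal polynomial over `K`
  have hθK : IsAlgebraic K θ := by
    letI : Algebra E K := (IntermediateField.inclusion hEK).toRingHom.toAlgebra
    haveI : IsScalarTower E K Ω := IsScalarTower.of_algebraMap_eq fun _ => rfl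
    exact hθ.tower_top K
  have hintK : IsIntegral K θ := hθK.isIntegral
  have hroot : ∀ θ' : Ω, aeval θ' (minpoly E θ) = 0 → aeval θ' (minpoly K θ) = 0 := by
    letI : Algebra E K := (IntermediateField.inclusion hEK).toRingHom.toAlgebra
    haveI : IsScalarTower E K Ω := IsScalarTower.of_algebraMap_eq fun _ => rfl
    have hdvd : minpoly K θ ∣ (minpoly E θ).map (algebraMap E K) :=
      minpoly.dvd_map_of_isScalarTower E K θ
    have hcoef : ∀ i, ((minpoly K θ).coeff i : Ω) ∈ E := by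
      intro i
      refine hreg _ ((minpoly K θ).coeff i).2 ?_
      have h1 := Polynomial.isIntegral_coeff_of_dvd (minpoly E θ) (minpoly K θ)
        (minpoly.monic hint) (minpoly.monic hintK) hdvd i
      have h2 : IsIntegral E (algebraMap K Ω ((minpoly K θ).coeff i)) := h1.algebraMap
      exact h2.isAlgebraic
    -- the polynomial over `E`
    have hl : (minpoly K θ).map (algebraMap K Ω) ∈ Polynomial.lifts (algebraMap E Ω) := by
      rw [Polynomial.lifts_iff_coeff_lifts]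
      intro i
      rw [coeff_map]
      exact ⟨⟨_, hcoef i⟩, rfl⟩
    obtain ⟨g, hg⟩ := (Polynomial.mem_lifts _).1 hl
    have hev : ∀ t : Ω, aeval t g = aeval t (minpoly K θ) := by
      intro t
      rw [aeval_def, aeval_def, eval₂_eq_eval_map, eval₂_eq_eval_map, hg]
    intro θ' hθ'
    have h1 : aeval θ g = 0 := by rw [hev, minpoly.aeval]
    obtain ⟨q, hq⟩ := minpoly.dvd E θ h1
    rw [← hev, hq, map_mul, hθ', zero_mul]
  have hdist : ∀ θ' : Ω, aeval θ' (minpoly E θ) = 0 → v.Ge c (θ' - y) := by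
    intro θ' hθ' _
    rw [D2P.val_sub_root h hK hy hθK (hroot θ' hθ')]
    have h1 : y - θ ≠ 0 := by
      intro h0
      rw [sub_eq_zero] at h0
      exact hθE (hreg _ (h0 ▸ hy) hθ)
    have h2 := hc.neg
    rw [neg_sub] at h2
    exact h2 fun h0 => h1 (by rw [← neg_sub, h0, neg_zero])
  obtain ⟨a, ha, h1⟩ := ax_perfect p h hE hp hθ (c := c) (fun θ' hθ' => by
    have h2 := (hdist θ' hθ').add hc
    rwa [sub_add_sub_cancel] at h2) hε
  refine ⟨a, ha, ?_⟩
  have h2 := (hc.mono (show c - ε ≤ c by linarith)).add h1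
  rwa [sub_add_sub_cancel] at h2

/-- An element outside of a closed field has a finite distance to it. -/
private theorem exists_dist_ax {F : IntermediateField k Ω} {z : Ω} (hz : z ∉ clI v F) :
    ∃ ρ : ℝ, (∀ θ ∈ F, v (z - θ) ≤ ρ) ∧ ∀ ε : ℝ, 0 < ε → ∃ θ ∈ F, ρ - ε < v (z - θ) := by
  have h1 : ∃ b : ℝ, ∀ θ ∈ F, ¬ v.Ge b (z - θ) := by
    by_contra hno
    push Not at hno
    exact hz (mem_clI.2 hno)
  obtain ⟨b, hb⟩ := h1
  have hne : {x : ℝ | ∃ θ ∈ F, x = v (z - θ)}.Nonempty := ⟨_, 0, zero_mem F, rfl⟩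
  have hbd : BddAbove {x : ℝ | ∃ θ ∈ F, x = v (z - θ)} := by
    refine ⟨b, ?_⟩
    rintro _ ⟨θ, hθ, rfl⟩
    by_contra hlt
    push Not at hlt
    exact hb θ hθ (RVal.Ge.of_le hlt.le)
  refine ⟨sSup {x : ℝ | ∃ θ ∈ F, x = v (z - θ)}, fun θ hθ => le_csSup hbd ⟨θ, hθ, rfl⟩,
    fun ε hε => ?_⟩
  obtain ⟨_, ⟨θ, hθ, rfl⟩, h⟩ := exists_lt_of_lt_csSup hne
    (show sSup {x : ℝ | ∃ θ ∈ F, x = v (z - θ)} - ε < sSup {x : ℝ | ∃ θ ∈ F, x = v (z - θ)} by
      linarith)
  exact ⟨θ, hθ, h⟩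

/-- **Over a perfect field there are no jumps**: every element of `K` outside of `E` is of
transcendental type over `E`. -/
theorem tl_of_perfect (p : ℕ) [Fact p.Prime] [CharP Ω p] [IsAlgClosed Ω] (h : Ctx0 k v)
    (hE : Cld v E) (hp : ∀ a ∈ E, ∃ b ∈ E, b ^ p = a) (hfull : Full v E) (hK : Cld v K)
    (hEK : E ≤ K) (hreg : ∀ a ∈ K, IsAlgebraic E a → a ∈ E) {y : Ω} (hyK : y ∈ K) (hyE : y ∉ E) :
    ∃ s : ℝ, TL v E y s := by
  classical
  have hEh : hen v E = E := TWM.C.hen_eq hE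
  have hKh : hen v K = K := TWM.C.hen_eq hK
  obtain ⟨s, hs, hs'⟩ := exists_dist_ax (v := v) (F := E) (z := y) fun h0 => hyE (hE h0)
  have hne : ∀ θ : Ω, IsAlgebraic E θ → y ≠ θ := by
    rintro θ hθ rfl
    exact hyE (hreg _ hyK hθ)
  have hle : ∀ θ : Ω, IsAlgebraic E θ → v (y - θ) ≤ s := by
    intro θ hθ
    by_contra hlt
    push Not at hlt
    obtain ⟨a, ha, h1⟩ := lim_of_alg p h hEh hp hKh hEK hreg hyK hθ (RVal.ge_self (y - θ))
      (ε := (v (y - θ) - s) / 2) (by linarith)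
    have h2 := h1 (sub_ne_zero.2 fun h0 => hyE (h0 ▸ ha))
    have h3 := hs a ha
    linarith
  refine ⟨s, ⟨fun ε hε => ?_, fun θ hθ => ⟨hne θ hθ, lt_of_le_of_ne (hle θ hθ) fun heq => ?_⟩⟩⟩
  · obtain ⟨a, ha, h1⟩ := hs' ε hε
    exact ⟨a, ha, RVal.Ge.of_le h1.le⟩
  · -- a better algebraic element
    have h0 : y - θ ≠ 0 := sub_ne_zero.2 (hne θ hθ)
    obtain ⟨m, hm, e, he, he0, hve⟩ := hfull (y - θ) h0
    obtain ⟨η, hη⟩ := IsAlgClosed.exists_pow_nat_eq e hm
    have hη0 : η ≠ 0 := by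
      rintro rfl
      rw [zero_pow hm.ne'] at hη
      exact he0 hη.symm
    have hvη : v η = v (y - θ) := by
      have h1 : (m : ℝ) * v η = m * v (y - θ) := by
        rw [← hve, ← hη, v.map_pow hη0]
      exact mul_left_cancel₀ (by exact_mod_cast hm.ne') h1
    have hηE : IsAlgebraic E η :=
      IsAlgebraic.of_pow hm (hη ▸ isAlgebraic_algebraMap (⟨e, he⟩ : E))
    have h1 : (y - θ) / η ≠ 0 := div_ne_zero h0 hη0
    have h2 : v ((y - θ) / η) = 0 := by rw [v.map_div h0 hη0, hvη, sub_self]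
    obtain ⟨c, hc0, hc⟩ := h.res _ h1 h2
    have hcE : IsAlgebraic E (algebraMap k Ω c) :=
      isAlgebraic_algebraMap (⟨_, E.algebraMap_mem c⟩ : E)
    have hθ' : IsAlgebraic E (θ + algebraMap k Ω c * η) := hθ.add (hcE.mul hηE)
    have h3 := hle _ hθ'
    have h4 : y - (θ + algebraMap k Ω c * η) = ((y - θ) / η - algebraMap k Ω c) * η := by
      rw [sub_mul, div_mul_cancel₀ _ hη0]
      ring
    have h5 : (y - θ) / η - algebraMap k Ω c ≠ 0 := by
      intro h6
      rw [h6, zero_mul] at h4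
      exact hne _ hθ' (sub_eq_zero.1 h4)
    rw [h4, v.map_mul h5 hη0, hvη, heq] at h3
    have h6 := hc h5
    linarith

end Pool.Agent.TWC
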