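import Pool.Agent.Lib.TWC.Bdd

/-!
# TANK W, class C: B2 (1), the relations hold for sequences of bounded degree
-/

set_option autoImplicit false

open Polynomial TensorProduct

namespace Pool.Agent.TWC

open Pool.Agent.H15JM (RVal)
open Pool.Agent.LU1 (VPos adj)
open Pool.Agent.D2 (Ctx0)
open Pool.Agent.TWM

universe u

variable {k Ω : Type u} [Field k] [Field Ω] [Algebra k Ω] {v : RVal Ω} [Fact (Ctx0 k v)]
  {C E : IntermediateField k Ω} {z : Ω} (p : ℕ) [Fact p.Prime] [CharP k p] [CharP Ω p]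
  [PerfectRing k p] [IsAlgClosed Ω] {T : Submodule k (Opr v E)}

/-- The operators preserve the null sequences. -/
theorem Nul.cf_eval (h : Oper p v C E T) (hz : TL v E z 0) (hzC : Lim v C 0 z) {φ : Opr v E}
    (hφ : φ ∈ T) {f : ℕ → Polynomial Ω} (hf : ∀ i, f i ∈ PI E)
    (hn : Nul v fun i => (f i).eval z) : Nul v fun i => (cf φ (f i)).eval z := by
  intro ε hε
  obtain ⟨N, hN⟩ := hn ε hε
  exact ⟨N, fun i hi => cf_ge p h hz hzC hφ (hf i) (hN i hi)⟩

omit [Fact (Ctx0 k v)] [CharP k p] [PerfectRing k p] [IsAlgClosed Ω] [Fact p.Prime] [CharP Ω p] in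
theorem PC.of_nul {x y : ℕ → Polynomial Ω} (hx : PC v E z x) (hy : ∀ i, y i ∈ PI E)
    (h : Nul v fun i => (x i - y i).eval z) : PC v E z y where
  mem := hy
  cau := by
    intro ε hε
    obtain ⟨N, h1⟩ := hx.cau ε hε
    obtain ⟨M, h2⟩ := h ε hε
    refine ⟨max N M, fun m n hm hn => ?_⟩
    have h3 := h1 m n ((le_max_left _ _).trans hm) ((le_max_left _ _).trans hn)
    have h4 := h2 m ((le_max_right _ _).trans hm)
    have h5 := h2 n ((le_max_right _ _).trans hn)
    have h6 := (h3.sub h4).add h5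
    simp only [eval_sub] at h6 ⊢
    rwa [show (x m).eval z - (x n).eval z - ((x m).eval z - (y m).eval z) +
      ((x n).eval z - (y n).eval z) = (y m).eval z - (y n).eval z by ring] at h6

/-- The relations depend only on the limits. -/
theorem Rel.congr_nul (h : Oper p v C E T) (hz : TL v E z 0) (hzC : Lim v C 0 z) {ι : Type}
    [Fintype ι] {x y : ι → ℕ → Polynomial Ω} {n : ℕ} {lam : ℕ → ι → ι → k}
    {ψ : ℕ → ι → ι → Opr v E} {kap : ι → Polynomial Ω} (R : Rel p T z x n lam ψ kap)
    (hy : ∀ j i, y j i ∈ PI E) (hxy : ∀ j, Nul v fun i => (x j i - y j i).eval z) :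
    Rel p T z y n lam ψ kap where
  pc j := (R.pc j).of_nul (hy j) (hxy j)
  one := R.one
  opr := R.opr
  mem := R.mem
  rel j := by
    have h1 := R.rel j
    have h2 : Nul v fun i => ((x j i - y j i).eval z) ^ p ^ n := (hxy j).pow _
    have h3 : Nul v fun i => ∑ a ∈ Finset.range n, ∑ l,
        (lam a j l • (x l i - y l i).eval z + (cf (ψ a j l) (x l i - y l i)).eval z) ^ p ^ a := by
      refine Nul.sum _ (fun a i => ∑ l, (lam a j l • (x l i - y l i).eval z +
        (cf (ψ a j l) (x l i - y l i)).eval z) ^ p ^ a) fun a _ => ?_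
      refine Nul.sum _ (fun l i => (lam a j l • (x l i - y l i).eval z +
        (cf (ψ a j l) (x l i - y l i)).eval z) ^ p ^ a) fun l _ => ?_
      refine Nul.pow (x := fun i => lam a j l • (x l i - y l i).eval z +
        (cf (ψ a j l) (x l i - y l i)).eval z) (Nul.add ?_ ?_) _
      · refine ((hxy l).mul_ge (c := fun _ => algebraMap k Ω (lam a j l)) fun _ =>
          (Fact.out : Ctx0 k v).ge _).congr fun i => ?_
        exact (Algebra.smul_def _ _).symm
      · exact Nul.cf_eval p h hz hzC (R.opr a j l) (fun i => sub_mem ((R.pc l).mem i) (hy l i))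
          (hxy l)
    refine ((h1.sub h2).add h3).congr fun i => ?_
    rw [eval_sub, sub_pow_char_pow]
    have h4 : ∀ a ∈ Finset.range n, ∑ l, (lam a j l • (x l i - y l i).eval z +
        (cf (ψ a j l) (x l i - y l i)).eval z) ^ p ^ a =
        ∑ l, (lam a j l • (x l i).eval z + (cf (ψ a j l) (x l i)).eval z) ^ p ^ a -
        ∑ l, (lam a j l • (y l i).eval z + (cf (ψ a j l) (y l i)).eval z) ^ p ^ a := by
      intro a _
      rw [← Finset.sum_sub_distrib]
      refine Finset.sum_congr rfl fun l _ => ?_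
      rw [← sub_pow_char_pow, bdd_cf_sub _ ((R.pc l).mem i) (hy l i), eval_sub, eval_sub,
        Algebra.smul_def, Algebra.smul_def, Algebra.smul_def]
      congr 1
      ring
    rw [Finset.sum_congr rfl h4, Finset.sum_sub_distrib]
    ring

/-- The relations hold for sequences of bounded degree. -/
theorem Rel.bdd' (h : Oper p v C E T) (hz : TL v E z 0) (hzC : Lim v C 0 z) {ι : Type} [Fintype ι]
    {x : ι → ℕ → Polynomial Ω} {n : ℕ} {lam : ℕ → ι → ι → k} {ψ : ℕ → ι → ι → Opr v E}
    {kap : ι → Polynomial Ω} (R : Rel p T z x n lam ψ kap) :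
    ∃ (D : ℕ) (y : ι → ℕ → Polynomial Ω), Rel p T z y n lam ψ kap ∧
      (∀ j i, (y j i).natDegree ≤ D) ∧ ∀ j, Nul v fun i => (x j i - y j i).eval z := by
  obtain ⟨D, hD⟩ := Rel.bdd p h hz hzC R
  choose f hfE hfD N hN using fun (j : ι) (i : ℕ) => hD j (1 / ((i : ℝ) + 1)) (by positivity)
  have hnul : ∀ j, Nul v fun i => (x j i - f j i).eval z := by
    intro j ε hε
    obtain ⟨m, hm⟩ := exists_nat_gt (1 / ε)
    obtain ⟨M, hM⟩ := (R.pc j).cau ε hε
    refine ⟨max M m, fun i hi => ?_⟩
    have h1 := hM i (max i (N j i)) ((le_max_left _ _).trans hi)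
      (((le_max_left _ _).trans hi).trans (le_max_left _ _))
    have h2 := hN j i (max i (N j i)) (le_max_right _ _)
    have h3 : v.Ge (-ε) ((x j (max i (N j i)) - f j i).eval z) := by
      refine h2.mono ?_
      have h4 : (m : ℝ) ≤ i := by exact_mod_cast (le_max_right _ _).trans hi
      have h5 : 1 / ((i : ℝ) + 1) ≤ ε := by
        rw [div_le_iff₀ (by positivity)]
        rw [div_lt_iff₀ hε] at hm
        nlinarith
      linarith
    have h6 := h1.add h3
    rw [← eval_add, sub_add_sub_cancel] at h6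
    exact h6
  exact ⟨D, f, Rel.congr_nul p h hz hzC R hfE hnul, hfD, hnul⟩

end Pool.Agent.TWC
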