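import Pool.Agent.Lib.TWC.ClOp

/-!
# TANK W, class C, row R11a: B2 (4)

`Phi`: the relation of Theorem B2 as an additive map on polynomials; the Hasse derivatives of
order `p ^ (c + n)` act on it. `Rel.beta`: `D_c ^ (p - 1) b_c` is positive, by downward induction.
-/

set_option autoImplicit false
set_option linter.unusedSectionVars false

open Polynomial TensorProduct

namespace Pool.Agent.TWC

open Pool.Agent.H15JM (RVal)
open Pool.Agent.LU1 (VPos adj)
open Pool.Agent.D2 (Ctx0)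
open Pool.Agent.TWM

universe u

variable {k Ω : Type u} [Field k] [Field Ω] [Algebra k Ω] {v : RVal Ω} [Fact (Ctx0 k v)]
  {C E : IntermediateField k Ω} {z : Ω} (p : ℕ) [Fact p.Prime] [CharP k p] [CharP Ω p]
  [PerfectRing k p] [IsAlgClosed Ω] {T : Submodule k (Opr v E)}

/-! ## Hasse derivatives of `p ^ n`-th powers -/

theorem hasse_add_pow (c n : ℕ) (f : Polynomial Ω) :
    hasseDeriv (p ^ (c + n)) (f ^ p ^ n) = hasseDeriv (p ^ c) f ^ p ^ n := by
  induction n with
  | zero => simp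
  | succ n ih =>
    rw [pow_succ, pow_mul, ← add_assoc, hasse_succ_pow p, ih, ← pow_mul]

theorem iter_hasse_pow (c n i : ℕ) (f : Polynomial Ω) :
    (⇑(hasseDeriv (R := Ω) (p ^ (c + n))))^[i] (f ^ p ^ n) =
      ((⇑(hasseDeriv (R := Ω) (p ^ c)))^[i] f) ^ p ^ n := by
  induction i with
  | zero => rfl
  | succ i ih =>
    rw [Function.iterate_succ_apply', ih, hasse_add_pow, Function.iterate_succ_apply']

/-- `D_c ^ p = 0` -/
theorem iter_hasse_p (c : ℕ) (f : Polynomial Ω) :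
    (⇑(hasseDeriv (R := Ω) (p ^ c)))^[p] f = 0 := by
  have hp : p.Prime := Fact.out
  ext l
  have h1 := coeff_taylor_iter (0 : Ω) (p ^ c) p l f
  rw [taylor_zero] at h1
  rw [h1, coeff_zero]
  have hpos := pow_pos hp.pos c
  -- one of the `p` consecutive digits vanishes
  obtain ⟨j, hj, h2⟩ : ∃ j, j < p ∧ p ∣ l / p ^ c + (j + 1) := by
    refine ⟨(p - 1 - (l / p ^ c) % p), ?_, ?_⟩
    · have := hp.pos
      omega
    · have h3 := Nat.mod_lt (l / p ^ c) hp.pos
      have h4 := Nat.div_add_mod (l / p ^ c) p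
      refine ⟨l / p ^ c / p + 1, ?_⟩
      rw [mul_add, mul_one]
      omega
  have h3 : ((l + (j + 1) * p ^ c).choose (p ^ c) : Ω) = 0 := by
    rw [CharP.cast_eq_zero_iff Ω p, dvd_choose_pow_iff, Nat.add_mul_div_right _ _ hpos]
    exact h2
  rw [Finset.prod_eq_zero (Finset.mem_range.2 hj) h3, zero_mul]

theorem iter_map_sub (L : Polynomial Ω →ₗ[Ω] Polynomial Ω) (i : ℕ) (f g : Polynomial Ω) :
    (⇑L)^[i] (f - g) = (⇑L)^[i] f - (⇑L)^[i] g := by
  rw [← Module.End.pow_apply, ← Module.End.pow_apply, ← Module.End.pow_apply, map_sub]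

/-! ## The relation as an additive map -/

section Phi

variable {ι : Type} [Fintype ι]

/-- The relation. -/
noncomputable def Phi (n : ℕ) (lam : ℕ → ι → k) (ψ : ℕ → ι → Opr v E) (w₀ : Polynomial Ω)
    (w : ℕ → ι → Polynomial Ω) (κ : Polynomial Ω) : Polynomial Ω :=
  w₀ ^ p ^ n - ∑ a ∈ Finset.range n, ∑ l,
    (algebraMap k Ω (lam a l) • w a l + cf (ψ a l) (w a l)) ^ p ^ a - κ

variable {n : ℕ} {lam : ℕ → ι → k} {ψ : ℕ → ι → Opr v E} {w₀ w₀' κ κ' : Polynomial Ω}
  {w w' : ℕ → ι → Polynomial Ω}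

theorem Phi_mem (h0 : w₀ ∈ PI E) (h : ∀ a l, w a l ∈ PI E) (hκ : κ ∈ PI E) :
    Phi p n lam ψ w₀ w κ ∈ PI E :=
  sub_mem (sub_mem (pow_mem h0 _) (sum_mem fun a _ => sum_mem fun l _ =>
    pow_mem (add_mem (smul_mem_PI _ (h a l)) (cf_mem _ _)) _)) hκ

theorem Phi_sub (h : ∀ a l, w a l ∈ PI E) (h' : ∀ a l, w' a l ∈ PI E) :
    Phi p n lam ψ (w₀ - w₀') (fun a l => w a l - w' a l) (κ - κ') =
      Phi p n lam ψ w₀ w κ - Phi p n lam ψ w₀' w' κ' := by
  simp only [Phi]
  have h1 : ∀ a l, (algebraMap k Ω (lam a l) • (w a l - w' a l) +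
      cf (ψ a l) (w a l - w' a l)) ^ p ^ a =
      (algebraMap k Ω (lam a l) • w a l + cf (ψ a l) (w a l)) ^ p ^ a -
      (algebraMap k Ω (lam a l) • w' a l + cf (ψ a l) (w' a l)) ^ p ^ a := fun a l => by
    rw [smul_sub, cf_sub' _ (h a l) (h' a l), sub_add_sub_comm, sub_pow_char_pow]
  simp only [h1, Finset.sum_sub_distrib, sub_pow_char_pow]
  ring

theorem Phi_hasse (h : ∀ a l, w a l ∈ PI E) (c : ℕ) :
    hasseDeriv (p ^ (c + n)) (Phi p n lam ψ w₀ w κ) =
      Phi p n lam ψ (hasseDeriv (p ^ c) w₀) (fun a l => hasseDeriv (p ^ (c + (n - a))) (w a l))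
        (hasseDeriv (p ^ (c + n)) κ) := by
  simp only [Phi, map_sub, map_sum]
  congr 2
  · exact hasse_add_pow p c n w₀
  · refine Finset.sum_congr rfl fun a ha => Finset.sum_congr rfl fun l _ => ?_
    have h1 : c + n = c + (n - a) + a := by have := Finset.mem_range.1 ha; omega
    rw [h1, hasse_add_pow, map_add, map_smul, cf_hasse _ _ (h a l)]

theorem Phi_iter (h : ∀ a l, w a l ∈ PI E) (c i : ℕ) :
    (⇑(hasseDeriv (R := Ω) (p ^ (c + n))))^[i] (Phi p n lam ψ w₀ w κ) =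
      Phi p n lam ψ ((⇑(hasseDeriv (R := Ω) (p ^ c)))^[i] w₀)
        (fun a l => (⇑(hasseDeriv (R := Ω) (p ^ (c + (n - a)))))^[i] (w a l))
        ((⇑(hasseDeriv (R := Ω) (p ^ (c + n))))^[i] κ) := by
  induction i with
  | zero => rfl
  | succ i ih =>
    rw [Function.iterate_succ_apply', ih, Phi_hasse p (fun a l => iter_mem_PI (h a l) _ _)]
    simp only [← Function.iterate_succ_apply']

theorem Phi_eval : (Phi p n lam ψ w₀ w κ).eval z = w₀.eval z ^ p ^ n -
    ∑ a ∈ Finset.range n, ∑ l, (lam a l • (w a l).eval z + (cf (ψ a l) (w a l)).eval z) ^ p ^ a -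
    κ.eval z := by
  have h1 : ∀ a l, lam a l • (w a l).eval z = algebraMap k Ω (lam a l) * (w a l).eval z :=
    fun a l => Algebra.smul_def _ _
  simp only [Phi, eval_sub, eval_pow, eval_finsetSum, eval_add, eval_smul, smul_eq_mul, h1]

/-- The sum in `Phi`, bound. -/
theorem Phi_sum_ge (h : Oper p v C E T) (hz : TL v E z 0) (hzC : Lim v C 0 z)
    (hψ : ∀ a l, ψ a l ∈ T) (hw : ∀ a l, w a l ∈ PI E) {ε : ℝ} (hε : 0 < ε)
    (hb : ∀ a < n, ∀ l, v.Ge (-ε) ((w a l).eval z)) :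
    v.Ge (-((p ^ n : ℕ) * ε)) (∑ a ∈ Finset.range n, ∑ l,
      (lam a l • (w a l).eval z + (cf (ψ a l) (w a l)).eval z) ^ p ^ a) := by
  have hp : p.Prime := Fact.out
  refine RVal.Ge.sum _ _ fun a ha => RVal.Ge.sum _ _ fun l _ => ?_
  have ha' := Finset.mem_range.1 ha
  have h1 : v.Ge (-ε) (lam a l • (w a l).eval z) := by
    rw [Algebra.smul_def]
    have := ((Fact.out : Ctx0 k v).ge (lam a l)).mul (hb a ha' l)
    rwa [zero_add] at this
  have h2 := cf_ge p h hz hzC (hψ a l) (hw a l) (hb a ha' l)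
  refine (ge_pow (h1.add h2) (p ^ a)).mono ?_
  have h3 : ((p ^ a : ℕ) : ℝ) ≤ (p ^ n : ℕ) := by
    exact_mod_cast Nat.pow_le_pow_right hp.pos ha'.le
  nlinarith

theorem Phi_sum_gt (h : Oper p v C E T) (hz : TL v E z 0) (hzC : Lim v C 0 z)
    (hψ : ∀ a l, ψ a l ∈ T) (hw : ∀ a l, w a l ∈ PI E)
    (hb : ∀ a < n, ∀ l, Gt v 0 ((w a l).eval z)) :
    Gt v 0 (∑ a ∈ Finset.range n, ∑ l,
      (lam a l • (w a l).eval z + (cf (ψ a l) (w a l)).eval z) ^ p ^ a) := by
  have hp : p.Prime := Fact.out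
  refine Gt.sum _ _ fun a ha => Gt.sum _ _ fun l _ => ?_
  have ha' := Finset.mem_range.1 ha
  have h1 : Gt v 0 (lam a l • (w a l).eval z) := by
    rw [Algebra.smul_def, mul_comm]
    have := (hb a ha' l).mul_ge ((Fact.out : Ctx0 k v).ge (lam a l))
    rwa [zero_add] at this
  have h2 := cf_gt p h hz hzC (hψ a l) (hw a l) (hb a ha' l)
  intro h0
  have h3 := ne_zero_pow (pow_pos hp.pos a).ne' h0
  rw [v.map_pow h3]
  exact mul_pos (by exact_mod_cast pow_pos hp.pos a) ((h1.add h2) h3)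

theorem Nul.phi (h : Oper p v C E T) (hz : TL v E z 0) (hzC : Lim v C 0 z)
    (hψ : ∀ a l, ψ a l ∈ T) {y₀ : ℕ → Polynomial Ω} {y : ℕ → ℕ → ι → Polynomial Ω}
    (hy : ∀ i a l, y i a l ∈ PI E)
    (h0 : Nul v fun i => (y₀ i).eval z)
    (h1 : ∀ a < n, ∀ l, Nul v fun i => (y i a l).eval z) :
    Nul v fun i => (Phi p n lam ψ (y₀ i) (y i) 0).eval z := by
  have hp : p.Prime := Fact.out
  intro ε hε
  have hpn : (0 : ℝ) < (p ^ n : ℕ) := by exact_mod_cast pow_pos hp.pos n
  have hε' : 0 < ε / (p ^ n : ℕ) := by positivity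
  obtain ⟨N₀, hN₀⟩ := h0 _ hε'
  have h2 : ∃ N, ∀ i, N ≤ i → ∀ a < n, ∀ l, v.Ge (-(ε / (p ^ n : ℕ))) ((y i a l).eval z) := by
    have h3 : ∀ a : ℕ, ∀ l : ι, ∃ N, a < n → ∀ i, N ≤ i →
        v.Ge (-(ε / (p ^ n : ℕ))) ((y i a l).eval z) := fun a l => by
      by_cases ha : a < n
      · obtain ⟨N, hN⟩ := h1 a ha l _ hε'
        exact ⟨N, fun _ => hN⟩
      · exact ⟨0, fun h4 => absurd h4 ha⟩
    choose M hM using h3
    refine ⟨(Finset.range n).sup fun a => Finset.univ.sup (M a), fun i hi a ha l => ?_⟩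
    exact hM a l ha i (((Finset.le_sup (f := M a) (Finset.mem_univ l)).trans
      (Finset.le_sup (f := fun a => Finset.univ.sup (M a)) (Finset.mem_range.2 ha))).trans hi)
  obtain ⟨N₁, hN₁⟩ := h2
  refine ⟨max N₀ N₁, fun i hi => ?_⟩
  have h4 := hN₀ i ((le_max_left _ _).trans hi)
  have h5 := hN₁ i ((le_max_right _ _).trans hi)
  show v.Ge (-ε) ((Phi p n lam ψ (y₀ i) (y i) 0).eval z)
  rw [Phi_eval, eval_zero, sub_zero]
  have h6 : (p ^ n : ℕ) * (ε / (p ^ n : ℕ)) = ε := by field_simp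
  refine RVal.Ge.sub ((ge_pow h4 (p ^ n)).mono (by rw [mul_neg, h6])) ?_
  refine (Phi_sum_ge p h hz hzC hψ (hy i) hε' h5).mono ?_
  rw [h6]

end Phi

/-! ## B2 (4) -/

theorem Rel.beta (h : Oper p v C E T) (hz : TL v E z 0) (hzC : Lim v C 0 z)
    {ι : Type} [Fintype ι]
    {x : ι → ℕ → Polynomial Ω} {n : ℕ} {lam : ℕ → ι → ι → k} {ψ : ℕ → ι → ι → Opr v E}
    {kap : ι → Polynomial Ω} (R : Rel p T z x n lam ψ kap) {N : ℕ} {b : ι → ℕ → Polynomial Ω}
    (hb : ∀ j, Exa p v E z (x j) N (b j)) (j : ι) (c : ℕ) :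
    Gt v 0 (((⇑(hasseDeriv (R := Ω) (p ^ c)))^[p - 1] (b j c)).eval z) := by
  have hp : p.Prime := Fact.out
  suffices H : ∀ d c, N ≤ c + d → ∀ j,
      Gt v 0 (((⇑(hasseDeriv (R := Ω) (p ^ c)))^[p - 1] (b j c)).eval z) from
    H N c (Nat.le_add_left _ _) j
  intro d
  induction d with
  | zero =>
    intro c hc j
    rw [add_zero] at hc
    rw [(hb j).zero c hc, ← Module.End.pow_apply, map_zero, eval_zero]
    exact Gt.zero
  | succ d ih =>
    intro c hc j
    -- the exact relation for the `b`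
    have h1 : v.Ge 0 ((Phi p n (fun a l => lam a j l) (fun a l => ψ a j l) (b j c)
        (fun a l => b l (c + (n - a))) (hasseDeriv (p ^ (c + n)) (kap j))).eval z) := by
      refine Nul.const (v := v) ?_
      have h2 : Nul v fun i => (Phi p n (fun a l => lam a j l) (fun a l => ψ a j l)
          (hasseDeriv (p ^ c) (x j i)) (fun a l => hasseDeriv (p ^ (c + (n - a))) (x l i))
          (hasseDeriv (p ^ (c + n)) (kap j))).eval z := by
        have h3 : Nul v fun i => (Phi p n (fun a l => lam a j l) (fun a l => ψ a j l)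
            (x j i) (fun _ l => x l i) (kap j)).eval z :=
          (R.rel j).congr fun i => (Phi_eval p).symm
        intro ε hε
        obtain ⟨M, hM⟩ := h3 ε hε
        refine ⟨M, fun i hi => ?_⟩
        have h4 := hasse_ge hz (Phi_mem p ((R.pc j).mem i) (fun _ l => (R.pc l).mem i) (R.mem j))
          (hM i hi) (p ^ (c + n))
        rw [Phi_hasse p fun _ l => (R.pc l).mem i] at h4
        exact h4
      have h3 : Nul v fun i => (Phi p n (fun a l => lam a j l) (fun a l => ψ a j l)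
          (hasseDeriv (p ^ c) (x j i) - b j c)
          (fun a l => hasseDeriv (p ^ (c + (n - a))) (x l i) - b l (c + (n - a))) 0).eval z :=
        Nul.phi p h hz hzC (fun a l => R.opr a j l)
          (fun i a l => sub_mem (hasse_mem_PI ((R.pc l).mem i) _) ((hb l).mem _))
          ((hb j).nul c) (fun a _ l => (hb l).nul _)
      refine (h2.sub h3).congr fun i => ?_
      have h4 := Phi_sub p (n := n) (lam := fun a l => lam a j l) (ψ := fun a l => ψ a j l)
        (w₀ := hasseDeriv (p ^ c) (x j i)) (w₀' := b j c)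
        (w := fun a l => hasseDeriv (p ^ (c + (n - a))) (x l i))
        (w' := fun a l => b l (c + (n - a))) (κ := hasseDeriv (p ^ (c + n)) (kap j))
        (κ' := hasseDeriv (p ^ (c + n)) (kap j))
        (fun a l => hasse_mem_PI ((R.pc l).mem i) _) (fun a l => (hb l).mem _)
      rw [sub_self] at h4
      rw [h4, eval_sub, sub_sub_cancel]
    -- the derivatives of order `p - 1`
    obtain ⟨m, hm⟩ : ∃ m, p - 1 = m + 1 := ⟨p - 2, by have := hp.two_le; omega⟩
    have hmem : Phi p n (fun a l => lam a j l) (fun a l => ψ a j l) (b j c)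
        (fun a l => b l (c + (n - a))) (hasseDeriv (p ^ (c + n)) (kap j)) ∈ PI E :=
      Phi_mem p ((hb j).mem c) (fun a l => (hb l).mem _) (hasse_mem_PI (R.mem j) _)
    have h2 : Gt v 0 (((⇑(hasseDeriv (R := Ω) (p ^ (c + n))))^[p - 1]
        (Phi p n (fun a l => lam a j l) (fun a l => ψ a j l) (b j c)
        (fun a l => b l (c + (n - a))) (hasseDeriv (p ^ (c + n)) (kap j)))).eval z) := by
      rw [hm, Function.iterate_succ_apply']
      have h3 : ∀ i, v.Ge 0 (((⇑(hasseDeriv (R := Ω) (p ^ (c + n))))^[i]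
          (Phi p n (fun a l => lam a j l) (fun a l => ψ a j l) (b j c)
          (fun a l => b l (c + (n - a))) (hasseDeriv (p ^ (c + n)) (kap j)))).eval z) := by
        intro i
        induction i with
        | zero => exact h1
        | succ i ihi =>
          rw [Function.iterate_succ_apply']
          exact hasse_ge hz (iter_mem_PI hmem _ _) ihi _
      exact hasse_gt_of_ge hz (iter_mem_PI hmem _ _) (h3 m) (Nat.one_le_pow _ _ hp.pos)
    rw [Phi_iter p fun a l => (hb l).mem _, ← Function.iterate_succ_apply,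
      show (p - 1).succ = p by have := hp.pos; omega, iter_hasse_p, Phi_eval, eval_zero,
      sub_zero] at h2
    have h3 := Phi_sum_gt p (n := n) (lam := fun a l => lam a j l) (ψ := fun a l => ψ a j l)
      (w := fun a l => (⇑(hasseDeriv (R := Ω) (p ^ (c + (n - a)))))^[p - 1] (b l (c + (n - a))))
      h hz hzC (fun a l => R.opr a j l) (fun a l => iter_mem_PI ((hb l).mem _) _ _)
      (fun a ha l => ih (c + (n - a)) (by omega) l)
    have h4 := h2.add h3
    rw [sub_add_cancel] at h4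
    intro h0
    have h5 := h4 (pow_ne_zero _ h0)
    rw [v.map_pow h0] at h5
    exact (mul_pos_iff_of_pos_left (by exact_mod_cast pow_pos hp.pos n)).1 h5

end Pool.Agent.TWC
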