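import Pool.Agent.Lib.TWC.LS

/-!
# TANK W, class C, row R10d (algebra): a class in `S ⊗ V` is exact

`ζ c` independent modulo `S`.  If
`∑ (ζ_c ⊗ μ_c - μ_c ⊗ ζ_c) - ∑_{c' < c} r c' c (ζ_c' ⊗ ζ_c - ζ_c ⊗ ζ_c') ∈ S ⊗ V` then
`μ_c = ∑ Λ c i ζ_i` and `r c' c = Λ c' c - Λ c c'`.
-/

set_option autoImplicit false

namespace Pool.Agent.TWC

open Module Submodule TensorProduct

universe u w

variable {k : Type u} {G : Type w} [Field k] [AddCommGroup G] [Module k G]

/-- Slicing the left factor by a functional. -/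
noncomputable def sliceL (ξ : G →ₗ[k] k) : G ⊗[k] G →ₗ[k] G :=
  (TensorProduct.lid k G).toLinearMap ∘ₗ TensorProduct.map ξ LinearMap.id

@[simp] theorem sliceL_tmul (ξ : G →ₗ[k] k) (x y : G) : sliceL ξ (x ⊗ₜ[k] y) = ξ x • y := by
  simp [sliceL]

theorem sliceL_eq_zero {S : Submodule k G} {ξ : G →ₗ[k] k} (hξ : ∀ x ∈ S, ξ x = 0)
    {t : G ⊗[k] G} (h : t ∈ tp S) : sliceL ξ t = 0 := by
  have h1 : tp S ≤ LinearMap.ker (sliceL ξ) := by
    rw [tp_le]
    intro x hx y
    rw [LinearMap.mem_ker, sliceL_tmul, hξ x hx, zero_smul]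
  exact LinearMap.mem_ker.1 (h1 h)

/-- The dual functionals of a family which is independent modulo `S`. -/
theorem exists_dual {S : Submodule k G} {ζ : ℕ → G}
    (hfree : ∀ (s : Finset ℕ) (a : ℕ → k), ∑ c ∈ s, a c • ζ c ∈ S → ∀ c ∈ s, a c = 0) (j : ℕ) :
    ∃ ξ : G →ₗ[k] k, (∀ x ∈ S, ξ x = 0) ∧ ∀ i, ξ (ζ i) = if i = j then 1 else 0 := by
  classical
  have hli : LinearIndependent k (fun c => S.mkQ (ζ c)) := by
    rw [linearIndependent_iff']
    intro s a h c hc
    refine hfree s a ?_ c hc
    rw [← Submodule.ker_mkQ S, LinearMap.mem_ker, map_sum]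
    simpa only [map_smul] using h
  obtain ⟨g, hg⟩ := LinearMap.exists_extend
    ((Basis.span hli).constr k (fun i => if i = j then (1 : k) else 0))
  refine ⟨g ∘ₗ S.mkQ, fun x hx => ?_, fun i => ?_⟩
  · rw [LinearMap.comp_apply]
    have : S.mkQ x = 0 := (Submodule.Quotient.mk_eq_zero S).2 hx
    rw [this, map_zero]
  · have h1 : S.mkQ (ζ i) = (Submodule.subtype _) (Basis.span hli i) :=
      (congrArg Subtype.val (Basis.span_apply hli i)).symm
    rw [LinearMap.comp_apply, h1, ← LinearMap.comp_apply, hg, Basis.constr_basis]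

/-- **The algebra of B2 (3).** -/
theorem exact_algebra {S : Submodule k G} {ζ μ : ℕ → G} {r : ℕ → ℕ → k} {N : ℕ}
    (hfree : ∀ (s : Finset ℕ) (a : ℕ → k), ∑ c ∈ s, a c • ζ c ∈ S → ∀ c ∈ s, a c = 0)
    (ht : ∑ c ∈ Finset.range N, (ζ c ⊗ₜ[k] μ c - μ c ⊗ₜ[k] ζ c) -
      ∑ c ∈ Finset.range N, ∑ c' ∈ Finset.range c,
        r c' c • (ζ c' ⊗ₜ[k] ζ c - ζ c ⊗ₜ[k] ζ c') ∈ tp S) :
    ∃ Λ : ℕ → ℕ → k, (∀ c, c < N → μ c = ∑ i ∈ Finset.range N, Λ c i • ζ i) ∧
      ∀ c c', c' < c → c < N → r c' c = Λ c' c - Λ c c' := by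
  classical
  choose ξ hξS hξ using exists_dual (S := S) hfree
  -- the slice by `ξ j`
  have h1 : ∀ j, j < N → μ j = ∑ c ∈ Finset.range N, ξ j (μ c) • ζ c +
      ∑ c ∈ Finset.range N, ((if j < c then r j c else 0) - (if c < j then r c j else 0)) • ζ c := by
    intro j hj
    have h2 := sliceL_eq_zero (hξS j) ht
    rw [map_sub, map_sum, map_sum] at h2
    simp only [map_sum, map_sub, map_smul, sliceL_tmul, hξ] at h2
    have h3 : ∑ x ∈ Finset.range N, ((if x = j then (1 : k) else 0) • μ x - ξ j (μ x) • ζ x) =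
        μ j - ∑ c ∈ Finset.range N, ξ j (μ c) • ζ c := by
      rw [Finset.sum_sub_distrib, Finset.sum_eq_single j]
      · rw [if_pos rfl, one_smul]
      · intro c _ hc
        rw [if_neg hc, zero_smul]
      · intro h
        exact absurd (Finset.mem_range.2 hj) h
    have h4 : ∑ x ∈ Finset.range N, ∑ x_1 ∈ Finset.range x,
          r x_1 x • ((if x_1 = j then (1 : k) else 0) • ζ x - (if x = j then (1 : k) else 0) • ζ x_1) =
        ∑ c ∈ Finset.range N,
          ((if j < c then r j c else 0) - (if c < j then r c j else 0)) • ζ c := by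
      have h5 : ∀ x, ∑ x_1 ∈ Finset.range x,
          r x_1 x • ((if x_1 = j then (1 : k) else 0) • ζ x - (if x = j then (1 : k) else 0) • ζ x_1) =
          (if j < x then r j x else 0) • ζ x -
            (if x = j then ∑ c ∈ Finset.range j, r c j • ζ c else 0) := by
        intro x
        simp only [smul_sub, Finset.sum_sub_distrib]
        congr 1
        · by_cases hx : j < x
          · rw [Finset.sum_eq_single j]
            · rw [if_pos rfl, one_smul, if_pos hx]
            · intro c _ hc
              rw [if_neg hc, zero_smul, smul_zero]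
            · intro h
              exact absurd (Finset.mem_range.2 hx) h
          · rw [if_neg hx, zero_smul]
            refine Finset.sum_eq_zero fun c hc => ?_
            have h6 := Finset.mem_range.1 hc
            rw [if_neg (by omega), zero_smul, smul_zero]
        · split_ifs with hx
          · subst hx
            simp
          · simp
      rw [Finset.sum_congr rfl fun x _ => h5 x, Finset.sum_sub_distrib]
      simp only [sub_smul, Finset.sum_sub_distrib]
      congr 1
      rw [Finset.sum_ite_eq' (Finset.range N) j, if_pos (Finset.mem_range.2 hj)]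
      have h6 : ∑ c ∈ Finset.range j, r c j • ζ c =
          ∑ c ∈ Finset.range j, (if c < j then r c j else 0) • ζ c :=
        Finset.sum_congr rfl fun c hc => by rw [if_pos (Finset.mem_range.1 hc)]
      rw [h6]
      refine Finset.sum_subset (Finset.range_subset_range.2 hj.le) fun c _ hc => ?_
      rw [if_neg fun h => hc (Finset.mem_range.2 h), zero_smul]
    rw [h3, h4] at h2
    rw [sub_sub, sub_eq_zero] at h2
    exact h2
  refine ⟨fun j c => ξ j (μ c) + ((if j < c then r j c else 0) - (if c < j then r c j else 0)),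
    fun j hj => ?_, fun c c' hcc hc => ?_⟩
  · simp only [add_smul, Finset.sum_add_distrib]
    exact h1 j hj
  · -- the coefficient of `ζ c'` in `μ c` computed in two ways
    have h2 : ∀ i j, i < N → j < N → ξ j (μ i) = ξ i (μ j) +
        ((if i < j then r i j else 0) - (if j < i then r j i else 0)) := by
      intro i j hi hj
      have h3 := congrArg (ξ j) (h1 i hi)
      rw [map_add, map_sum, map_sum] at h3
      simp only [map_smul, hξ, smul_eq_mul, mul_ite, mul_one, mul_zero] at h3
      rw [Finset.sum_ite_eq' (Finset.range N) j, Finset.sum_ite_eq' (Finset.range N) j,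
        if_pos (Finset.mem_range.2 hj), if_pos (Finset.mem_range.2 hj)] at h3
      exact h3
    have h3 := h2 c' c (hcc.trans hc) hc
    rw [if_pos hcc, if_neg (by omega : ¬ c < c'), sub_zero] at h3
    simp only [if_pos hcc, if_neg (by omega : ¬ c < c')]
    rw [h3]
    ring

end Pool.Agent.TWC
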