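import Pool.Agent.Lib.TWC.Cl
import Pool.Agent.Lib.TWC.LS2

/-!
# TANK W, class C, row R10d: a torsion class is exact

If the class of `x` lies in `Tor ⊗ M` then `D_c x = b_c` with polynomials `b_c`, and
`D_c' b_c - D_c b_c'` is in `O(>0)`.
-/

set_option autoImplicit false

open Polynomial TensorProduct

namespace Pool.Agent.TWC

open Pool.Agent.H15JM (RVal)
open Pool.Agent.LU1 (VPos adj)
open Pool.Agent.D2 (Ctx0)
open Pool.Agent.TWM

universe u

variable {k Ω : Type u} [Field k] [Field Ω] [Algebra k Ω] {v : RVal Ω} [hc : Fact (Ctx0 k v)]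
  {C E : IntermediateField k Ω} {z : Ω} (p : ℕ) [Fact p.Prime] [CharP k p] [CharP Ω p]
  [PerfectRing k p] [IsAlgClosed Ω] {T : Submodule k (Opr v E)}

theorem IsCl.exact (hE : Cld v E) (hz : TL v E z 0) {x : ℕ → Polynomial Ω}
    {t : MM v E ⊗[k] MM v E} (ht : t ∈ tp (Sat (MM.fr p v E) ⊥)) (hx : IsCl p hz x t) :
    ∃ N b, Exa p v E z x N b := by
  classical
  have hp : p.Prime := Fact.out
  obtain ⟨N, b, m, r, h, rfl⟩ := hx
  obtain ⟨Λ, hΛ, hr⟩ := exact_algebra (S := Sat (MM.fr p v E) ⊥) (ζ := zc p hz)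
    (μ := fun c => MM.mk v E (m c)) (r := r) (N := N)
    (fun s a => zc_free p hE hz) ht
  -- the polynomials `q c = e c + ∑ Λ c i X ^ p ^ i`
  have h1 : ∀ c, ∃ e ∈ E, c < N → Nul v fun n => (m c : ℕ → Ω) n -
      (e + ∑ i ∈ Finset.range N, algebraMap k Ω (Λ c i) * z ^ p ^ i) := by
    intro c
    by_cases hc : c < N
    · have h2 := hΛ c hc
      rw [sum_zc_mk, ← sub_eq_zero, ← map_sub, MM.mk_eq_zero] at h2
      obtain ⟨e, he, h3⟩ := h2
      refine ⟨e, he, fun _ => (h3.sub (sum_zc_nul p hz (Finset.range N) (Λ c))).congr fun n => ?_⟩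
      change (m c : ℕ → Ω) n -
        ((∑ i ∈ Finset.range N, Λ c i • (MM.frS p v E)^[i] (zs hz) : CauS v E) : ℕ → Ω) n - e -
        _ = _
      ring
    · exact ⟨0, zero_mem _, fun h => absurd h hc⟩
  choose e he hm using h1
  obtain ⟨q, hq⟩ : ∃ q : ℕ → Polynomial Ω, ∀ c, q c = Polynomial.C (e c) +
    ∑ i ∈ Finset.range N, Polynomial.C (algebraMap k Ω (Λ c i)) * X ^ p ^ i := ⟨_, fun _ => rfl⟩
  have hqE : ∀ c, q c ∈ PI E := by
    intro c
    rw [hq]
    refine add_mem (C_mem_PI (he c)) (sum_mem fun i _ => ?_)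
    exact mul_mem (C_mem_PI (E.algebraMap_mem _)) (pow_mem X_mem_PI _)
  have hqD : ∀ c c', c' < N → (hasseDeriv (p ^ c') (q c)).eval z = algebraMap k Ω (Λ c c') := by
    intro c c' hc'
    rw [hq, hasse_sum_X_pow p (Finset.range N) (fun i => algebraMap k Ω (Λ c i)) (e c) z c',
      if_pos (Finset.mem_range.2 hc')]
  have hqd : ∀ c, (q c).natDegree < p ^ N := by
    intro c
    rw [hq]
    refine lt_of_le_of_lt (natDegree_add_le _ _) (max_lt ?_ ?_)
    · rw [natDegree_C]
      exact pow_pos hp.pos N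
    · refine lt_of_le_of_lt (natDegree_sum_le _ _) ?_
      rw [Finset.fold_max_lt]
      refine ⟨pow_pos hp.pos N, fun i hi => ?_⟩
      refine lt_of_le_of_lt (natDegree_C_mul_le _ _) ?_
      rw [natDegree_X_pow]
      exact Nat.pow_lt_pow_right hp.one_lt (Finset.mem_range.1 hi)
  set b' : ℕ → Polynomial Ω := fun c => if c < N then b c + q c else 0 with hb'
  have hb1 : ∀ c, c < N → b' c = b c + q c := fun c hc => if_pos hc
  have hb0 : ∀ c, N ≤ c → b' c = 0 := fun c hc => if_neg (not_lt.2 hc)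
  have hbd : ∀ c, (b' c).natDegree < p ^ N := by
    intro c
    by_cases hc : c < N
    · rw [hb1 c hc]
      exact lt_of_le_of_lt (natDegree_add_le _ _) (max_lt (h.deg c) (hqd c))
    · rw [hb0 c (not_lt.1 hc), natDegree_zero]
      exact pow_pos hp.pos N
  have key : ∀ c c', c' < c →
      Gt v 0 ((hasseDeriv (p ^ c') (b' c) - hasseDeriv (p ^ c) (b' c')).eval z) := by
    intro c c' hcc
    by_cases hc : c < N
    · have h2 : Gt v 0 ((hasseDeriv (p ^ c') (b c) - hasseDeriv (p ^ c) (b c')).eval z -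
        algebraMap k Ω (r c' c)) := h.res c c'
      have h3 : (hasseDeriv (p ^ c') (b' c) - hasseDeriv (p ^ c) (b' c')).eval z =
          (hasseDeriv (p ^ c') (b c) - hasseDeriv (p ^ c) (b c')).eval z -
            algebraMap k Ω (r c' c) := by
        rw [hb1 c hc, hb1 c' (hcc.trans hc), hr c c' hcc hc, map_add, map_add, eval_sub, eval_add,
          eval_add, hqD c c' (hcc.trans hc), hqD c' c hc, map_sub, eval_sub]
        ring
      rwa [h3]
    · rw [hb0 c (not_lt.1 hc), map_zero, zero_sub, hasseDeriv_eq_zero_of_lt_natDegree _ _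
        ((hbd c').trans_le (Nat.pow_le_pow_right hp.pos (not_lt.1 hc))), neg_zero, eval_zero]
      exact Gt.zero
  refine ⟨N, b', ⟨fun c => ?_, hb0, fun c => ?_, fun c c' => ?_⟩⟩
  · by_cases hc : c < N
    · rw [hb1 c hc]
      exact add_mem (h.spl c).mem (hqE c)
    · rw [hb0 c (not_lt.1 hc)]
      exact zero_mem _
  · by_cases hc : c < N
    · refine ((h.spl c).nul.add (hm c hc)).congr fun n => ?_
      rw [hb1 c hc]
      simp only [hq, eval_sub, eval_add, eval_finsetSum, eval_mul, eval_C, eval_pow, eval_X]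
      ring
    · have h2 := (h.spl c).nul
      obtain ⟨h3, h4⟩ := h.zero c (not_lt.1 hc)
      refine h2.congr fun n => ?_
      rw [hb0 c (not_lt.1 hc), h3, h4]
      change _ - (0 : Ω) = _
      rw [eval_sub, sub_zero]
  · rcases lt_trichotomy c c' with h2 | h2 | h2
    · have h3 := Gt.neg (key c' c h2)
      rwa [← eval_neg, neg_sub] at h3
    · rw [h2, sub_self, eval_zero]
      exact Gt.zero
    · exact key c c' h2

end Pool.Agent.TWC
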