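import Pool.Agent.Lib.TWC.ClZero
import Pool.Agent.Lib.TWC.ClEx
import Pool.Agent.Lib.TWC.Bdd2
import Pool.Agent.Lib.TWC.Beta

/-!
# TANK W, class C: THEOREM B2

`x_j` formal limits of `B = E⟨z⟩` with strictly dominated relations over the operators of the base:
every `x_j` is in `B + L(E)`.
-/

set_option autoImplicit false

open Polynomial TensorProduct

namespace Pool.Agent.TWC

open Pool.Agent.H15JM (RVal)
open Pool.Agent.LU1 (VPos adj)
open Pool.Agent.D2 (Ctx0)
open Pool.Agent.TWM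

universe u

variable {k Ω : Type u} [Field k] [Field Ω] [Algebra k Ω] {v : RVal Ω} [Fact (Ctx0 k v)]
  {C E : IntermediateField k Ω} {z : Ω} (p : ℕ) [Fact p.Prime] [CharP k p] [CharP Ω p]
  [PerfectRing k p] [IsAlgClosed Ω] {T : Submodule k (Opr v E)}

omit [Fact (Ctx0 k v)] [CharP k p] [PerfectRing k p] in
/-- Exact data for a sequence of bounded degree give a splitting. -/
theorem Exa.spl (hz : TL v E z 0) {x : ℕ → Polynomial Ω} (hx : PC v E z x) {D : ℕ}
    (hD : ∀ i, (x i).natDegree ≤ D) {N : ℕ} {b : ℕ → Polynomial Ω} (hb : Exa p v E z x N b)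
    (hβ : ∀ c, Gt v 0 (((⇑(hasseDeriv (R := Ω) (p ^ c)))^[p - 1] (b c)).eval z)) :
    ∃ b m, Spl v E z x b m := by
  obtain ⟨F, hF, hFb⟩ := int_lemma hz p hb.mem hb.zero hb.sym hβ
  have h1 : PC v E z fun i => x i - F := by
    refine ⟨fun i => sub_mem (hx.mem i) hF, fun ε hε => ?_⟩
    obtain ⟨M, hM⟩ := hx.cau ε hε
    refine ⟨M, fun i j hi hj => ?_⟩
    rw [sub_sub_sub_cancel_right]
    exact hM i j hi hj
  have hcau : Cau v (cadj v E z) fun i => (x i - F).eval z := by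
    refine ⟨fun i => eval_mem (PI_mono (le_cadj v E z) (h1.mem i)) (self_mem_cadj v E z),
      fun ε hε => ?_⟩
    obtain ⟨M, hM⟩ := h1.cau ε hε
    refine ⟨M, fun i j hi hj => ?_⟩
    rw [← eval_sub]
    exact hM i j hi hj
  obtain ⟨m, hm, hmn⟩ := const_lemma hz p (f := fun i => x i - F) h1.mem
    (d := max D F.natDegree)
    (fun i => (natDegree_sub_le _ _).trans (max_le_max (hD i) le_rfl)) hcau (fun c => by
      refine ((hb.nul c).sub (Nul.of_ge (v := v)
        (x := fun _ => (hasseDeriv (p ^ c) F - b c).eval z) fun _ => (hFb c).ge)).congr fun i => ?_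
      rw [map_sub, eval_sub, eval_sub, eval_sub]
      ring)
  exact ⟨F, m, hF, hm, hmn.congr fun i => by rw [eval_sub]⟩

/-- **THEOREM B2.** -/
theorem B2 (h : Oper p v C E T) (hV : NSD p h) (hz : TL v E z 0) (hzC : Lim v C 0 z)
    {ι : Type} [Fintype ι]
    {x : ι → ℕ → Polynomial Ω} {n : ℕ} {lam : ℕ → ι → ι → k} {ψ : ℕ → ι → ι → Opr v E}
    {kap : ι → Polynomial Ω} (R : Rel p T z x n lam ψ kap) (j : ι) :
    ∃ b m, Spl v E z (x j) b m := by
  classical
  obtain ⟨D, y, R', hD, hxy⟩ := Rel.bdd' p h hz hzC R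
  have h1 : ∀ j, ∃ N b, Exa p v E z (y j) N b := fun j => by
    obtain ⟨t, ht, hcl⟩ := Rel.cl_tor p h hV hz hzC R' hD j
    exact IsCl.exact p h.cld hz ht hcl
  choose N b hb using h1
  have hb' : ∀ j, Exa p v E z (y j) (Finset.univ.sup N) (b j) := fun j =>
    ⟨(hb j).mem, fun c hc => (hb j).zero c ((Finset.le_sup (Finset.mem_univ j)).trans hc),
      (hb j).nul, (hb j).sym⟩
  obtain ⟨F, m, hs⟩ := Exa.spl p hz (R'.pc j) (hD j) (hb' j) (Rel.beta p h hz hzC R' hb' j)
  refine ⟨F, m, hs.mem, hs.cau, ((hs.nul.add (hxy j)).congr fun i => ?_)⟩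
  rw [eval_sub]
  ring

end Pool.Agent.TWC
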