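import Pool.Agent.Lib.TWC.POp2
import Pool.Agent.Lib.TWC.B2

/-!
# TANK W, dimension 4: THEOREM B3

Theorem B2 for operators on the polynomials which are not coefficientwise: they commute with the
Hasse derivatives, have norm `≤ 0` at `z`, and kill the classes of the `z ^ p ^ c`.

* `B3`: `x_j` formal limits of `B = E⟨z⟩` with strictly dominated relations: every `x_j` is in
  `B + L(E)`;
* `B3_one`: the case of one `x`.
-/

set_option autoImplicit false
set_option linter.unusedSectionVars false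

open Polynomial TensorProduct

namespace Pool.Agent.TWC

open Pool.Agent.H15JM (RVal)
open Pool.Agent.LU1 (VPos adj)
open Pool.Agent.D2 (Ctx0)
open Pool.Agent.TWM

universe u

variable {k Ω : Type u} [Field k] [Field Ω] [Algebra k Ω] {v : RVal Ω} [Fact (Ctx0 k v)]
  {E : IntermediateField k Ω} {z : Ω} (p : ℕ) [Fact p.Prime] [CharP k p] [CharP Ω p]
  [PerfectRing k p] [IsAlgClosed Ω] {T : Submodule k (Opr v E)}

/-! ## The relation as an additive map -/

section Phi

variable {ι : Type} [Fintype ι]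

/-- The relation. -/
noncomputable def PhiP (n : ℕ) (lam : ℕ → ι → k) (ψ : ℕ → ι → POp p v E z) (w₀ : Polynomial Ω)
    (w : ℕ → ι → Polynomial Ω) (κ : Polynomial Ω) : Polynomial Ω :=
  w₀ ^ p ^ n - ∑ a ∈ Finset.range n, ∑ l,
    (algebraMap k Ω (lam a l) • w a l + (ψ a l).f (w a l)) ^ p ^ a - κ

variable {n : ℕ} {lam : ℕ → ι → k} {ψ : ℕ → ι → POp p v E z} {w₀ w₀' κ κ' : Polynomial Ω}
  {w w' : ℕ → ι → Polynomial Ω}

theorem PhiP_mem (h0 : w₀ ∈ PI E) (h : ∀ a l, w a l ∈ PI E) (hκ : κ ∈ PI E) :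
    PhiP p n lam ψ w₀ w κ ∈ PI E :=
  sub_mem (sub_mem (pow_mem h0 _) (sum_mem fun a _ => sum_mem fun l _ =>
    pow_mem (add_mem (smul_mem_PI _ (h a l)) ((ψ a l).mem _ (h a l))) _)) hκ

theorem PhiP_sub (h : ∀ a l, w a l ∈ PI E) (h' : ∀ a l, w' a l ∈ PI E) :
    PhiP p n lam ψ (w₀ - w₀') (fun a l => w a l - w' a l) (κ - κ') =
      PhiP p n lam ψ w₀ w κ - PhiP p n lam ψ w₀' w' κ' := by
  simp only [PhiP]
  have h1 : ∀ a l, (algebraMap k Ω (lam a l) • (w a l - w' a l) +
      (ψ a l).f (w a l - w' a l)) ^ p ^ a =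
      (algebraMap k Ω (lam a l) • w a l + (ψ a l).f (w a l)) ^ p ^ a -
      (algebraMap k Ω (lam a l) • w' a l + (ψ a l).f (w' a l)) ^ p ^ a := fun a l => by
    rw [smul_sub, (ψ a l).sub (h a l) (h' a l), sub_add_sub_comm, sub_pow_char_pow]
  simp only [h1, Finset.sum_sub_distrib, sub_pow_char_pow]
  ring

theorem PhiP_hasse (h : ∀ a l, w a l ∈ PI E) (c : ℕ) :
    hasseDeriv (p ^ (c + n)) (PhiP p n lam ψ w₀ w κ) =
      PhiP p n lam ψ (hasseDeriv (p ^ c) w₀) (fun a l => hasseDeriv (p ^ (c + (n - a))) (w a l))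
        (hasseDeriv (p ^ (c + n)) κ) := by
  simp only [PhiP, map_sub, map_sum]
  congr 2
  · exact hasse_add_pow p c n w₀
  · refine Finset.sum_congr rfl fun a ha => Finset.sum_congr rfl fun l _ => ?_
    have h1 : c + n = c + (n - a) + a := by have := Finset.mem_range.1 ha; omega
    rw [h1, hasse_add_pow, map_add, map_smul, (ψ a l).hasse _ (h a l)]

theorem PhiP_iter (h : ∀ a l, w a l ∈ PI E) (c i : ℕ) :
    (⇑(hasseDeriv (R := Ω) (p ^ (c + n))))^[i] (PhiP p n lam ψ w₀ w κ) =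
      PhiP p n lam ψ ((⇑(hasseDeriv (R := Ω) (p ^ c)))^[i] w₀)
        (fun a l => (⇑(hasseDeriv (R := Ω) (p ^ (c + (n - a)))))^[i] (w a l))
        ((⇑(hasseDeriv (R := Ω) (p ^ (c + n))))^[i] κ) := by
  induction i with
  | zero => rfl
  | succ i ih =>
    rw [Function.iterate_succ_apply', ih, PhiP_hasse p (fun a l => iter_mem_PI (h a l) _ _)]
    simp only [← Function.iterate_succ_apply']

theorem PhiP_eval : (PhiP p n lam ψ w₀ w κ).eval z = w₀.eval z ^ p ^ n -
    ∑ a ∈ Finset.range n, ∑ l,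
      (lam a l • (w a l).eval z + ((ψ a l).f (w a l)).eval z) ^ p ^ a - κ.eval z := by
  have h1 : ∀ a l, lam a l • (w a l).eval z = algebraMap k Ω (lam a l) * (w a l).eval z :=
    fun a l => Algebra.smul_def _ _
  simp only [PhiP, eval_sub, eval_pow, eval_finsetSum, eval_add, eval_smul, smul_eq_mul, h1]

/-- The sum in `PhiP`, bound. -/
theorem PhiP_sum_ge (hw : ∀ a l, w a l ∈ PI E) {ε : ℝ} (hε : 0 < ε)
    (hb : ∀ a < n, ∀ l, v.Ge (-ε) ((w a l).eval z)) :
    v.Ge (-((p ^ n : ℕ) * ε)) (∑ a ∈ Finset.range n, ∑ l,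
      (lam a l • (w a l).eval z + ((ψ a l).f (w a l)).eval z) ^ p ^ a) := by
  have hp : p.Prime := Fact.out
  refine RVal.Ge.sum _ _ fun a ha => RVal.Ge.sum _ _ fun l _ => ?_
  have ha' := Finset.mem_range.1 ha
  have h1 : v.Ge (-ε) (lam a l • (w a l).eval z) := by
    rw [Algebra.smul_def]
    have := ((Fact.out : Ctx0 k v).ge (lam a l)).mul (hb a ha' l)
    rwa [zero_add] at this
  have h2 := (ψ a l).ge _ (hw a l) _ (hb a ha' l)
  refine (ge_pow (h1.add h2) (p ^ a)).mono ?_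
  have h3 : ((p ^ a : ℕ) : ℝ) ≤ (p ^ n : ℕ) := by
    exact_mod_cast Nat.pow_le_pow_right hp.pos ha'.le
  nlinarith

theorem PhiP_sum_gt (hw : ∀ a l, w a l ∈ PI E)
    (hb : ∀ a < n, ∀ l, Gt v 0 ((w a l).eval z)) :
    Gt v 0 (∑ a ∈ Finset.range n, ∑ l,
      (lam a l • (w a l).eval z + ((ψ a l).f (w a l)).eval z) ^ p ^ a) := by
  have hp : p.Prime := Fact.out
  refine Gt.sum _ _ fun a ha => Gt.sum _ _ fun l _ => ?_
  have ha' := Finset.mem_range.1 ha
  have h1 : Gt v 0 (lam a l • (w a l).eval z) := by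
    rw [Algebra.smul_def, mul_comm]
    have := (hb a ha' l).mul_ge ((Fact.out : Ctx0 k v).ge (lam a l))
    rwa [zero_add] at this
  have h2 := (ψ a l).gt (hw a l) (hb a ha' l)
  intro h0
  have h3 := ne_zero_pow (pow_pos hp.pos a).ne' h0
  rw [v.map_pow h3]
  exact mul_pos (by exact_mod_cast pow_pos hp.pos a) ((h1.add h2) h3)

theorem Nul.phiP {y₀ : ℕ → Polynomial Ω} {y : ℕ → ℕ → ι → Polynomial Ω}
    (hy : ∀ i a l, y i a l ∈ PI E)
    (h0 : Nul v fun i => (y₀ i).eval z)
    (h1 : ∀ a < n, ∀ l, Nul v fun i => (y i a l).eval z) :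
    Nul v fun i => (PhiP p n lam ψ (y₀ i) (y i) 0).eval z := by
  have hp : p.Prime := Fact.out
  intro ε hε
  have hpn : (0 : ℝ) < (p ^ n : ℕ) := by exact_mod_cast pow_pos hp.pos n
  have hε' : 0 < ε / (p ^ n : ℕ) := by positivity
  obtain ⟨N₀, hN₀⟩ := h0 _ hε'
  have h2 : ∃ N, ∀ i, N ≤ i → ∀ a < n, ∀ l, v.Ge (-(ε / (p ^ n : ℕ))) ((y i a l).eval z) := by
    have h3 : ∀ a : ℕ, ∀ l : ι, ∃ N, a < n → ∀ i, N ≤ i →
        v.Ge (-(ε / (p ^ n : ℕ))) ((y i a l).eval z) := fun a l => by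
      by_cases ha : a < n
      · obtain ⟨N, hN⟩ := h1 a ha l _ hε'
        exact ⟨N, fun _ => hN⟩
      · exact ⟨0, fun h4 => absurd h4 ha⟩
    choose M hM using h3
    refine ⟨(Finset.range n).sup fun a => Finset.univ.sup (M a), fun i hi a ha l => ?_⟩
    exact hM a l ha i (((Finset.le_sup (f := M a) (Finset.mem_univ l)).trans
      (Finset.le_sup (f := fun a => Finset.univ.sup (M a)) (Finset.mem_range.2 ha))).trans hi)
  obtain ⟨N₁, hN₁⟩ := h2
  refine ⟨max N₀ N₁, fun i hi => ?_⟩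
  have h4 := hN₀ i ((le_max_left _ _).trans hi)
  have h5 := hN₁ i ((le_max_right _ _).trans hi)
  show v.Ge (-ε) ((PhiP p n lam ψ (y₀ i) (y i) 0).eval z)
  rw [PhiP_eval, eval_zero, sub_zero]
  have h6 : (p ^ n : ℕ) * (ε / (p ^ n : ℕ)) = ε := by field_simp
  refine RVal.Ge.sub ((ge_pow h4 (p ^ n)).mono (by rw [mul_neg, h6])) ?_
  refine (PhiP_sum_ge p (hy i) hε' h5).mono ?_
  rw [h6]

end Phi

/-! ## B2 (4) -/

theorem RelP.beta (hz : TL v E z 0)
    {ι : Type} [Fintype ι]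
    {x : ι → ℕ → Polynomial Ω} {n : ℕ} {lam : ℕ → ι → ι → k} {ψ : ℕ → ι → ι → POp p v E z}
    {kap : ι → Polynomial Ω} (R : RelP p T z x n lam ψ kap) {N : ℕ} {b : ι → ℕ → Polynomial Ω}
    (hb : ∀ j, Exa p v E z (x j) N (b j)) (j : ι) (c : ℕ) :
    Gt v 0 (((⇑(hasseDeriv (R := Ω) (p ^ c)))^[p - 1] (b j c)).eval z) := by
  have hp : p.Prime := Fact.out
  suffices H : ∀ d c, N ≤ c + d → ∀ j,
      Gt v 0 (((⇑(hasseDeriv (R := Ω) (p ^ c)))^[p - 1] (b j c)).eval z) from
    H N c (Nat.le_add_left _ _) j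
  intro d
  induction d with
  | zero =>
    intro c hc j
    rw [add_zero] at hc
    rw [(hb j).zero c hc, ← Module.End.pow_apply, map_zero, eval_zero]
    exact Gt.zero
  | succ d ih =>
    intro c hc j
    -- the exact relation for the `b`
    have h1 : v.Ge 0 ((PhiP p n (fun a l => lam a j l) (fun a l => ψ a j l) (b j c)
        (fun a l => b l (c + (n - a))) (hasseDeriv (p ^ (c + n)) (kap j))).eval z) := by
      refine Nul.const (v := v) ?_
      have h2 : Nul v fun i => (PhiP p n (fun a l => lam a j l) (fun a l => ψ a j l)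
          (hasseDeriv (p ^ c) (x j i)) (fun a l => hasseDeriv (p ^ (c + (n - a))) (x l i))
          (hasseDeriv (p ^ (c + n)) (kap j))).eval z := by
        have h3 : Nul v fun i => (PhiP p n (fun a l => lam a j l) (fun a l => ψ a j l)
            (x j i) (fun _ l => x l i) (kap j)).eval z :=
          (R.rel j).congr fun i => (PhiP_eval p).symm
        intro ε hε
        obtain ⟨M, hM⟩ := h3 ε hε
        refine ⟨M, fun i hi => ?_⟩
        have h4 := hasse_ge hz (PhiP_mem p ((R.pc j).mem i) (fun _ l => (R.pc l).mem i) (R.mem j))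
          (hM i hi) (p ^ (c + n))
        rw [PhiP_hasse p fun _ l => (R.pc l).mem i] at h4
        exact h4
      have h3 : Nul v fun i => (PhiP p n (fun a l => lam a j l) (fun a l => ψ a j l)
          (hasseDeriv (p ^ c) (x j i) - b j c)
          (fun a l => hasseDeriv (p ^ (c + (n - a))) (x l i) - b l (c + (n - a))) 0).eval z :=
        Nul.phiP p
          (fun i a l => sub_mem (hasse_mem_PI ((R.pc l).mem i) _) ((hb l).mem _))
          ((hb j).nul c) (fun a _ l => (hb l).nul _)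
      refine (h2.sub h3).congr fun i => ?_
      have h4 := PhiP_sub p (n := n) (lam := fun a l => lam a j l) (ψ := fun a l => ψ a j l)
        (w₀ := hasseDeriv (p ^ c) (x j i)) (w₀' := b j c)
        (w := fun a l => hasseDeriv (p ^ (c + (n - a))) (x l i))
        (w' := fun a l => b l (c + (n - a))) (κ := hasseDeriv (p ^ (c + n)) (kap j))
        (κ' := hasseDeriv (p ^ (c + n)) (kap j))
        (fun a l => hasse_mem_PI ((R.pc l).mem i) _) (fun a l => (hb l).mem _)
      rw [sub_self] at h4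
      rw [h4, eval_sub, sub_sub_cancel]
    -- the derivatives of order `p - 1`
    obtain ⟨m, hm⟩ : ∃ m, p - 1 = m + 1 := ⟨p - 2, by have := hp.two_le; omega⟩
    have hmem : PhiP p n (fun a l => lam a j l) (fun a l => ψ a j l) (b j c)
        (fun a l => b l (c + (n - a))) (hasseDeriv (p ^ (c + n)) (kap j)) ∈ PI E :=
      PhiP_mem p ((hb j).mem c) (fun a l => (hb l).mem _) (hasse_mem_PI (R.mem j) _)
    have h2 : Gt v 0 (((⇑(hasseDeriv (R := Ω) (p ^ (c + n))))^[p - 1]
        (PhiP p n (fun a l => lam a j l) (fun a l => ψ a j l) (b j c)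
        (fun a l => b l (c + (n - a))) (hasseDeriv (p ^ (c + n)) (kap j)))).eval z) := by
      rw [hm, Function.iterate_succ_apply']
      have h3 : ∀ i, v.Ge 0 (((⇑(hasseDeriv (R := Ω) (p ^ (c + n))))^[i]
          (PhiP p n (fun a l => lam a j l) (fun a l => ψ a j l) (b j c)
          (fun a l => b l (c + (n - a))) (hasseDeriv (p ^ (c + n)) (kap j)))).eval z) := by
        intro i
        induction i with
        | zero => exact h1
        | succ i ihi =>
          rw [Function.iterate_succ_apply']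
          exact hasse_ge hz (iter_mem_PI hmem _ _) ihi _
      exact hasse_gt_of_ge hz (iter_mem_PI hmem _ _) (h3 m) (Nat.one_le_pow _ _ hp.pos)
    rw [PhiP_iter p fun a l => (hb l).mem _, ← Function.iterate_succ_apply,
      show (p - 1).succ = p by have := hp.pos; omega, iter_hasse_p, PhiP_eval, eval_zero,
      sub_zero] at h2
    have h3 := PhiP_sum_gt p (n := n) (lam := fun a l => lam a j l) (ψ := fun a l => ψ a j l)
      (w := fun a l => (⇑(hasseDeriv (R := Ω) (p ^ (c + (n - a)))))^[p - 1] (b l (c + (n - a))))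
      (fun a l => iter_mem_PI ((hb l).mem _) _ _)
      (fun a ha l => ih (c + (n - a)) (by omega) l)
    have h4 := h2.add h3
    rw [sub_add_cancel] at h4
    intro h0
    have h5 := h4 (pow_ne_zero _ h0)
    rw [v.map_pow h0] at h5
    exact (mul_pos_iff_of_pos_left (by exact_mod_cast pow_pos hp.pos n)).1 h5

/-! ## The theorem -/

/-- **THEOREM B3.** -/
theorem B3 (h : OpM p v E T) (hV : NSDM p h) (hz : TL v E z 0) (hK : Kil p hz T)
    {ι : Type} [Fintype ι]
    {x : ι → ℕ → Polynomial Ω} {n : ℕ} {lam : ℕ → ι → ι → k} {ψ : ℕ → ι → ι → POp p v E z}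
    {kap : ι → Polynomial Ω} (R : RelP p T z x n lam ψ kap) (j : ι) :
    ∃ b m, Spl v E z (x j) b m := by
  classical
  obtain ⟨D, y, R', hD, hxy⟩ := RelP.bdd' p h hz R
  have h1 : ∀ j, ∃ N b, Exa p v E z (y j) N b := fun j => by
    obtain ⟨t, ht, hcl⟩ := RelP.cl_tor p h hV hz hK R' hD j
    exact IsCl.exact p h.cld hz ht hcl
  choose N b hb using h1
  have hb' : ∀ j, Exa p v E z (y j) (Finset.univ.sup N) (b j) := fun j =>
    ⟨(hb j).mem, fun c hc => (hb j).zero c ((Finset.le_sup (Finset.mem_univ j)).trans hc),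
      (hb j).nul, (hb j).sym⟩
  obtain ⟨F, m, hs⟩ := Exa.spl p hz (R'.pc j) (hD j) (hb' j) (RelP.beta p hz R' hb' j)
  refine ⟨F, m, hs.mem, hs.cau, ((hs.nul.add (hxy j)).congr fun i => ?_)⟩
  rw [eval_sub]
  ring

omit [CharP Ω p] [IsAlgClosed Ω] in
theorem exists_root_k (a : ℕ) (y : k) : ∃ r : k, r ^ p ^ a = y := by
  induction a generalizing y with
  | zero => exact ⟨y, by rw [pow_zero, pow_one]⟩
  | succ a ih =>
    obtain ⟨r, hr⟩ := ih y
    obtain ⟨t, ht⟩ := (PerfectRing.bijective_frobenius (R := k) (p := p)).2 r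
    refine ⟨t, ?_⟩
    have ht' : t ^ p = r := ht
    rw [pow_succ', pow_mul, ht', hr]

omit [Fact p.Prime] [CharP k p] [CharP Ω p] [PerfectRing k p] [IsAlgClosed Ω] in
theorem fn_smul_op (a : k) (φ : Opr v E) (x : Ω) : fn (a • φ) x = a • fn φ x := by
  by_cases hx : x ∈ E
  · rw [fn_of_mem _ hx, fn_of_mem _ hx]
    rfl
  · rw [fn, fn, dif_neg hx, dif_neg hx, smul_zero]

/-- `a Φ`, `a ∈ k`. -/
noncomputable def POp.smul (a : k) (Φ : POp p v E z) : POp p v E z where
  op := a • Φ.op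
  f g := algebraMap k Ω a • Φ.f g
  mem g hg := smul_mem_PI a (Φ.mem g hg)
  add g hg h hh := by rw [Φ.add g hg h hh, smul_add]
  deg g hg := (natDegree_smul_le _ _).trans (Φ.deg g hg)
  con b hb := by
    rw [Φ.con b hb, fn_smul_op, smul_C, smul_eq_mul, ← Algebra.smul_def]
  hasse g hg c := by rw [Φ.hasse g hg c, map_smul]
  ge g hg b hb := by
    rw [eval_smul, smul_eq_mul]
    have := ((Fact.out : Ctx0 k v).ge a).mul (Φ.ge g hg b hb)
    rwa [zero_add] at this

/-- The tie `a x = ∑_{1 ≤ j ≤ s} P_j x ^ p ^ j + β`, `P_s ≠ 0`, for a limit `x` of the polynomials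
at `z`: `x` is in `B + L(E)`. -/
theorem B3_one (h : OpM p v E T) (hV : NSDM p h) (hz : TL v E z 0) (hK : Kil p hz T)
    {Φ : POp p v E z} (hΦ : Φ.op ∈ T) {x : ℕ → Polynomial Ω} (hx : PC v E z x)
    {s : ℕ} {P : ℕ → k} (hs : 1 ≤ s) (hP : P s ≠ 0) {β : Polynomial Ω} (hβ : β ∈ PI E)
    (ht : Nul v fun i => (Φ.f (x i)).eval z -
      ∑ j ∈ Finset.Icc 1 s, P j • (x i).eval z ^ p ^ j - β.eval z) :
    ∃ b m, Spl v E z x b m := by
  classical
  choose r hr using fun a => exists_root_k p a (-(P a / P s))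
  let lam : ℕ → Unit → Unit → k := fun a _ _ => if a = 0 then 0 else r a
  let ψ : ℕ → Unit → Unit → POp p v E z := fun a _ _ =>
    POp.smul p (if a = 0 then (P s)⁻¹ else 0) Φ
  have R : RelP p T z (fun _ : Unit => x) s lam ψ
      (fun _ => algebraMap k Ω (-(P s)⁻¹) • β) := by
    refine ⟨fun _ => hx, hs, fun a _ _ => T.smul_mem _ hΦ, fun _ => smul_mem_PI _ hβ, fun _ => ?_⟩
    have h1 : Nul v fun i => algebraMap k Ω (-(P s)⁻¹) * ((Φ.f (x i)).eval z -
        ∑ j ∈ Finset.Icc 1 s, P j • (x i).eval z ^ p ^ j - β.eval z) :=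
      ht.mul_ge (c := fun _ => algebraMap k Ω (-(P s)⁻¹)) fun _ => (Fact.out : Ctx0 k v).ge _
    refine h1.congr fun i => ?_
    have h2 : ∀ a ∈ Finset.range s, ∑ l : Unit, (lam a () l • (x i).eval z +
        ((ψ a () l).f (x i)).eval z) ^ p ^ a =
        (if a = 0 then algebraMap k Ω (P s)⁻¹ * (Φ.f (x i)).eval z else
          algebraMap k Ω (-(P a / P s)) * (x i).eval z ^ p ^ a) := by
      intro a _
      rw [Fintype.sum_unique]
      simp only [lam, ψ, POp.smul]
      split_ifs with h0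
      · subst h0
        rw [zero_smul, zero_add, pow_zero, pow_one, eval_smul, smul_eq_mul]
      · rw [map_zero, zero_smul, eval_zero, add_zero, Algebra.smul_def, mul_pow, ← map_pow, hr]
    rw [Finset.sum_congr rfl h2]
    obtain ⟨s, rfl⟩ := Nat.exists_eq_add_of_le' hs
    rw [Finset.sum_range_succ', if_pos rfl]
    have h3 : ∑ j ∈ Finset.Icc 1 (s + 1), P j • (x i).eval z ^ p ^ j =
        ∑ j ∈ Finset.range s, P (j + 1) • (x i).eval z ^ p ^ (j + 1) +
          P (s + 1) • (x i).eval z ^ p ^ (s + 1) := by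
      rw [← Finset.sum_range_succ (fun j => P (j + 1) • (x i).eval z ^ p ^ (j + 1)),
        Finset.range_eq_Ico, Finset.sum_Ico_add' (fun j => P j • (x i).eval z ^ p ^ j) 0 (s + 1) 1,
        zero_add]
      rfl
    have h4 : ∑ j ∈ Finset.range s, (if j + 1 = 0 then
        algebraMap k Ω (P (s + 1))⁻¹ * (Φ.f (x i)).eval z else
          algebraMap k Ω (-(P (j + 1) / P (s + 1))) * (x i).eval z ^ p ^ (j + 1)) =
        algebraMap k Ω (-(P (s + 1))⁻¹) *
          ∑ j ∈ Finset.range s, P (j + 1) • (x i).eval z ^ p ^ (j + 1) := by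
      rw [Finset.mul_sum]
      refine Finset.sum_congr rfl fun j _ => ?_
      rw [if_neg (Nat.succ_ne_zero j), Algebra.smul_def, ← mul_assoc, ← map_mul]
      congr 2
      rw [div_eq_mul_inv]
      ring
    have h5 : algebraMap k Ω (-(P (s + 1))⁻¹) * (P (s + 1) • (x i).eval z ^ p ^ (s + 1)) =
        -(x i).eval z ^ p ^ (s + 1) := by
      rw [Algebra.smul_def, ← mul_assoc, ← map_mul, neg_mul, inv_mul_cancel₀ hP, map_neg, map_one]
      ring
    rw [h3, h4, eval_smul, smul_eq_mul, mul_sub, mul_sub, mul_add, h5, map_neg]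
    ring
  exact B3 p h hV hz hK R ()

end Pool.Agent.TWC
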