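import Pool.Agent.Lib.TWC.SD

/-!
# TANK W, class C, row R10 (algebra): left supports of tensors

`G` a `k{F}`-module with a space of operators `A` (`Ops F`).  `F` acts on `G ⊗ G` by `F ⊗ F`,
an operator `φ` by `φ ⊗ 1 + 1 ⊗ φ`.  If tensors `t` satisfy
`(F ⊗ F)^n t ∈ ∑_{a < n} (F ⊗ F)^a (T + A T)`, then the sum `S` of their left supports satisfies
`F^n S ⊆ ∑_{a < n} F^a (S + A S)`.
-/

set_option autoImplicit false

namespace Pool.Agent.TWC

open Module Submodule TensorProduct

universe u w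

variable {k : Type u} {G : Type w} [Field k] [AddCommGroup G] [Module k G]
variable {σ : k →+* k} [RingHomSurjective σ] {F : G →ₛₗ[σ] G}

/-! ## `S ⊗ G` inside `G ⊗ G` -/

/-- The image of `S ⊗ G` in `G ⊗ G`. -/
def tp (S : Submodule k G) : Submodule k (G ⊗[k] G) :=
  Submodule.span k {t | ∃ x ∈ S, ∃ y : G, x ⊗ₜ[k] y = t}

variable {S T P : Submodule k G}

theorem tmul_mem_tp {x : G} (hx : x ∈ S) (y : G) : x ⊗ₜ[k] y ∈ tp S :=
  Submodule.subset_span ⟨x, hx, y, rfl⟩

theorem tp_le {W : Submodule k (G ⊗[k] G)} : tp S ≤ W ↔ ∀ x ∈ S, ∀ y : G, x ⊗ₜ[k] y ∈ W := by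
  rw [tp, Submodule.span_le]
  constructor
  · exact fun h x hx y => h ⟨x, hx, y, rfl⟩
  · rintro h _ ⟨x, hx, y, rfl⟩
    exact h x hx y

theorem tp_mono (h : S ≤ T) : tp S ≤ tp T := tp_le.2 fun _ hx y => tmul_mem_tp (h hx) y

theorem tp_sup_le : tp S ⊔ tp T ≤ tp (S ⊔ T) := sup_le (tp_mono le_sup_left) (tp_mono le_sup_right)

variable (F) in
/-- `F ⊗ F`. -/
noncomputable def FF : G ⊗[k] G →ₛₗ[σ] G ⊗[k] G := TensorProduct.map F F

omit [RingHomSurjective σ] in
@[simp] theorem FF_tmul (x y : G) : FF F (x ⊗ₜ[k] y) = F x ⊗ₜ[k] F y := TensorProduct.map_tmul _ _ _ _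

theorem FF_it_tmul (n : ℕ) (x y : G) :
    (FF F)^[n] (x ⊗ₜ[k] y) = F^[n] x ⊗ₜ[k] F^[n] y := by
  induction n with
  | zero => rfl
  | succ n ih => rw [Function.iterate_succ_apply', ih, FF_tmul, Function.iterate_succ_apply',
      Function.iterate_succ_apply']

theorem map_tp_le : (tp S).map (FF F) ≤ tp (S.map F) := by
  rw [Submodule.map_le_iff_le_comap, tp_le]
  intro x hx y
  rw [Submodule.mem_comap, FF_tmul]
  exact tmul_mem_tp (Submodule.mem_map_of_mem hx) _

theorem V_tp_le {W : Submodule k (G ⊗[k] G)} (h : W ≤ tp S) (n : ℕ) :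
    V (FF F) W n ≤ tp (V F S n) := by
  induction n with
  | zero => exact bot_le
  | succ n ih =>
    rw [V_succ, V_succ]
    exact (sup_le_sup h ((Submodule.map_mono ih).trans map_tp_le)).trans tp_sup_le

/-! ## The coproduct action of the operators -/

/-- `φ ⊗ 1 + 1 ⊗ φ`. -/
noncomputable def cop (φ : G →ₗ[k] G) : G ⊗[k] G →ₗ[k] G ⊗[k] G :=
  TensorProduct.map φ LinearMap.id + TensorProduct.map LinearMap.id φ

@[simp] theorem cop_tmul (φ : G →ₗ[k] G) (x y : G) :
    cop φ (x ⊗ₜ[k] y) = φ x ⊗ₜ[k] y + x ⊗ₜ[k] φ y := by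
  simp [cop]

variable {O : Ops F}

/-- The span of the `(φ ⊗ 1 + 1 ⊗ φ) t`, `φ ∈ A`, `t ∈ W`. -/
def actC (O : Ops F) (W : Submodule k (G ⊗[k] G)) : Submodule k (G ⊗[k] G) :=
  Submodule.span k {z | ∃ φ ∈ O.A, ∃ t ∈ W, cop φ t = z}

omit [RingHomSurjective σ] in
theorem mem_actC {W : Submodule k (G ⊗[k] G)} {φ : G →ₗ[k] G} (hφ : φ ∈ O.A) {t : G ⊗[k] G}
    (ht : t ∈ W) : cop φ t ∈ actC O W := Submodule.subset_span ⟨φ, hφ, t, ht, rfl⟩

theorem actC_le_tp {W : Submodule k (G ⊗[k] G)} (h : W ≤ tp S) :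
    W ⊔ actC O W ≤ tp (S ⊔ act O S) := by
  refine sup_le (h.trans (tp_mono le_sup_left)) ?_
  rw [actC, Submodule.span_le]
  rintro _ ⟨φ, hφ, t, ht, rfl⟩
  have h1 : tp S ≤ (tp (S ⊔ act O S)).comap (cop φ) := by
    rw [tp_le]
    intro x hx y
    rw [Submodule.mem_comap, cop_tmul]
    exact add_mem (tmul_mem_tp (Submodule.mem_sup_right (mem_act hφ hx)) _)
      (tmul_mem_tp (Submodule.mem_sup_left hx) _)
  exact h1 (h ht)

/-! ## Left supports -/

open Classical in
/-- Coordinates of a tensor with respect to a basis of the right factor. -/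
noncomputable def co (t : G ⊗[k] G) : (Basis.ofVectorSpaceIndex k G) →₀ G :=
  TensorProduct.equivFinsuppOfBasisRight (Basis.ofVectorSpace k G) t

theorem sum_co (t : G ⊗[k] G) :
    ((co t).sum fun i m => m ⊗ₜ[k] (Basis.ofVectorSpace k G i)) = t := by
  classical
  have h := (TensorProduct.equivFinsuppOfBasisRight (M := G) (Basis.ofVectorSpace k G)).symm_apply_apply t
  rw [TensorProduct.equivFinsuppOfBasisRight_symm_apply] at h
  exact h

/-- The left support of a tensor. -/
noncomputable def LS (t : G ⊗[k] G) : Submodule k G :=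
  Submodule.span k (Set.range (co t))

theorem LS_fg (t : G ⊗[k] G) : (LS t).FG := by
  classical
  refine ⟨insert 0 ((co t).support.image (co t)), ?_⟩
  apply le_antisymm
  · rw [Submodule.span_le]
    intro x hx
    simp only [Finset.coe_insert, Finset.coe_image, Set.mem_insert_iff, Set.mem_image] at hx
    rcases hx with rfl | ⟨i, -, rfl⟩
    · exact zero_mem _
    · exact Submodule.subset_span ⟨i, rfl⟩
  · rw [LS, Submodule.span_le]
    rintro _ ⟨i, rfl⟩
    by_cases hi : i ∈ (co t).support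
    · exact Submodule.subset_span (by
        simp only [Finset.coe_insert, Finset.coe_image, Set.mem_insert_iff, Set.mem_image]
        exact Or.inr ⟨i, hi, rfl⟩)
    · rw [Finsupp.notMem_support_iff.1 hi]; exact zero_mem _

theorem mem_tp_LS (t : G ⊗[k] G) : t ∈ tp (LS t) := by
  have h : ((co t).sum fun i m => m ⊗ₜ[k] (Basis.ofVectorSpace k G i)) ∈ tp (LS t) := by
    rw [Finsupp.sum]
    exact sum_mem fun i _ => tmul_mem_tp (Submodule.subset_span (Set.mem_range_self i)) _
  rwa [sum_co t] at h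

theorem eq_zero_of_LS {t : G ⊗[k] G} (h : LS t = ⊥) : t = 0 := by
  have h1 := mem_tp_LS t
  rw [h] at h1
  have h2 : tp (⊥ : Submodule k G) ≤ ⊥ := by
    rw [tp_le]
    rintro x hx y
    rw [(Submodule.mem_bot k).1 hx, TensorProduct.zero_tmul]
    exact zero_mem _
  exact (Submodule.mem_bot k).1 (h2 h1)

/-- Slicing by a functional. -/
noncomputable def slice (ξ : G →ₗ[k] k) : G ⊗[k] G →ₗ[k] G :=
  (TensorProduct.rid k G).toLinearMap ∘ₗ TensorProduct.map LinearMap.id ξ

@[simp] theorem slice_tmul (ξ : G →ₗ[k] k) (x y : G) : slice ξ (x ⊗ₜ[k] y) = ξ y • x := by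
  simp [slice]

theorem slice_mem (ξ : G →ₗ[k] k) {t : G ⊗[k] G} (h : t ∈ tp S) : slice ξ t ∈ S := by
  have h1 : tp S ≤ S.comap (slice ξ) := by
    rw [tp_le]
    intro x hx y
    rw [Submodule.mem_comap, slice_tmul]
    exact S.smul_mem _ hx
  exact h1 h

theorem LS_le {t : G ⊗[k] G} (h : t ∈ tp S) : LS t ≤ S := by
  rw [LS, Submodule.span_le]
  rintro _ ⟨i, rfl⟩
  have h1 := slice_mem ((Basis.ofVectorSpace k G).coord i) h
  rw [← sum_co t] at h1
  rw [Finsupp.sum, map_sum] at h1
  simp only [slice_tmul, Basis.coord_apply, Basis.repr_self] at h1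
  have h2 : (∑ x ∈ (co t).support, (Finsupp.single x (1 : k)) i • (co t) x) = co t i := by
    rw [Finset.sum_eq_single i]
    · simp
    · intro b _ hb
      rw [Finsupp.single_eq_of_ne (Ne.symm hb), zero_smul]
    · intro hi
      rw [Finsupp.notMem_support_iff.1 hi, smul_zero]
  rw [h2] at h1
  exact h1

/-- iterates of an injective semilinear map preserve linear independence. -/
theorem linInd_it (hF : Function.Injective F) {ι : Type*} {v : ι → G} (hv : LinearIndependent k v)
    (n : ℕ) : LinearIndependent k (fun i => F^[n] (v i)) := by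
  induction n with
  | zero => exact hv
  | succ n ih =>
    simp only [Function.iterate_succ_apply']
    rw [linearIndependent_iff'] at ih ⊢
    intro s g hg i hi
    choose g' hg' using fun i => RingHomSurjective.is_surjective (σ := σ) (g i)
    have h1 : F (∑ i ∈ s, g' i • F^[n] (v i)) = 0 := by
      rw [map_sum, ← hg]
      refine Finset.sum_congr rfl fun j _ => ?_
      rw [LinearMap.map_smulₛₗ, hg']
    have h2 := ih s g' (hF (by rw [h1, map_zero])) i hi
    rw [← hg' i, h2, map_zero]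

/-- If `(F ⊗ F)^n t ∈ W ⊗ G` then `F^n` maps the left support of `t` into `W`. -/
theorem it_LS (hF : Function.Injective F) {n : ℕ} {t : G ⊗[k] G} {W : Submodule k G}
    (h : (FF F)^[n] t ∈ tp W) {y : G} (hy : y ∈ LS t) : F^[n] y ∈ W := by
  classical
  set b := Basis.ofVectorSpace k G with hb
  have hli := linInd_it hF b.linearIndependent n
  have key : ∀ i, F^[n] (co t i) ∈ W := by
    intro i
    -- a functional dual to `F^n b_i`
    obtain ⟨ξ, hξ⟩ : ∃ ξ : G →ₗ[k] k, ∀ j, ξ (F^[n] (b j)) = if j = i then 1 else 0 := by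
      let b' := Basis.extend hli.linearIndepOn_id
      obtain ⟨g, hg⟩ := LinearMap.exists_extend
        ((Basis.span hli).constr k (fun j => if j = i then (1 : k) else 0))
      refine ⟨g, fun j => ?_⟩
      have h1 : (F^[n] (b j)) = (Submodule.subtype _) (Basis.span hli j) := by
        simp [Basis.span_apply]
      rw [h1, ← LinearMap.comp_apply, hg, Basis.constr_basis]
    have h1 := slice_mem ξ h
    have h2 : (FF F)^[n] t = (co t).sum fun j m => F^[n] m ⊗ₜ[k] F^[n] (b j) := by
      conv_lhs => rw [← sum_co t]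
      rw [Finsupp.sum, it_sum, Finsupp.sum]
      exact Finset.sum_congr rfl fun j _ => FF_it_tmul n _ _
    rw [h2, Finsupp.sum, map_sum] at h1
    simp only [slice_tmul, hξ] at h1
    have h3 : (∑ x ∈ (co t).support, (if x = i then (1 : k) else 0) • F^[n] ((co t) x)) =
        F^[n] (co t i) := by
      rw [Finset.sum_eq_single i]
      · simp
      · intro j _ hj
        rw [if_neg hj, zero_smul]
      · intro hi
        rw [Finsupp.notMem_support_iff.1 hi, it_zero, smul_zero]
    rwa [h3] at h1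
  rw [LS] at hy
  induction hy using Submodule.span_induction with
  | mem y hy => obtain ⟨i, rfl⟩ := hy; exact key i
  | zero => rw [it_zero]; exact zero_mem _
  | add x y _ _ hx hy => rw [it_add]; exact add_mem hx hy
  | smul a x _ hx => rw [it_smul]; exact Submodule.smul_mem _ _ hx

/-- **Row R10, algebra.** Tensors which are strictly dominated have strictly dominated left
support. -/
theorem sd_of_tensor (hF : Function.Injective F) {ι : Type*} (t : ι → G ⊗[k] G) {n : ℕ}
    (h : ∀ j, (FF F)^[n] (t j) ∈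
      V (FF F) (Submodule.span k (Set.range t) ⊔ actC O (Submodule.span k (Set.range t))) n) :
    ∀ y ∈ ⨆ j, LS (t j), F^[n] y ∈ V F ((⨆ j, LS (t j)) ⊔ act O (⨆ j, LS (t j))) n := by
  set S := ⨆ j, LS (t j) with hS
  have h1 : Submodule.span k (Set.range t) ≤ tp S := by
    rw [Submodule.span_le]
    rintro _ ⟨j, rfl⟩
    exact tp_mono (le_iSup (fun j => LS (t j)) j) (mem_tp_LS (t j))
  have h2 := V_tp_le (F := F) (actC_le_tp (O := O) h1) n
  have h3 : S ≤ Submodule.comap (0 : G →ₗ[k] G) ⊤ := fun _ _ => trivial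
  -- the set of `y` with `F^n y ∈ W` is a submodule
  set W := V F (S ⊔ act O S) n with hW
  let Q : Submodule k G :=
    { carrier := {y | F^[n] y ∈ W}
      add_mem' := fun {x y} hx hy => by
        change F^[n] (x + y) ∈ W
        rw [it_add]; exact add_mem hx hy
      zero_mem' := by change F^[n] (0 : G) ∈ W; rw [it_zero]; exact zero_mem _
      smul_mem' := fun a x hx => by
        change F^[n] (a • x) ∈ W
        rw [it_smul]; exact Submodule.smul_mem _ _ hx }
  have h4 : S ≤ Q := iSup_le fun j y hy => it_LS hF (h2 (h j)) hy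
  exact fun y hy => h4 hy

/-- If there is no strictly dominated subspace inside `X` then strictly dominated tensors in
`X ⊗ G` vanish. -/
theorem tensor_eq_zero (hF : Function.Injective F) {X : Submodule k G} {n : ℕ}
    (hno : ∀ Y : Submodule k G, Y ≤ X → Y.FG →
      (∀ y ∈ Y, F^[n] y ∈ V F (Y ⊔ act O Y) n) → Y = ⊥)
    {ι : Type*} [Finite ι] (t : ι → G ⊗[k] G) (hX : ∀ j, t j ∈ tp X)
    (h : ∀ j, (FF F)^[n] (t j) ∈
      V (FF F) (Submodule.span k (Set.range t) ⊔ actC O (Submodule.span k (Set.range t))) n)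
    (j : ι) : t j = 0 := by
  have h1 : (⨆ j, LS (t j)) = ⊥ :=
    hno _ (iSup_le fun j => LS_le (hX j)) (Submodule.fg_iSup _ fun j => LS_fg (t j))
      (sd_of_tensor hF t h)
  exact eq_zero_of_LS (le_bot_iff.1 (h1 ▸ le_iSup (fun j => LS (t j)) j))

end Pool.Agent.TWC
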