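import Pool.Agent.Lib.TWC.Lim
import Pool.Agent.Lib.TWC.LS

/-!
# TANK W, class C: the operators of a base, polynomials at `z`

* `fn φ`, `cf φ f`: the operator as a function on `Ω`; its action on the coefficients of `f`;
* `Oper p v C E T`: `T` is a space of `C`-linear operators of `E`; `Oper.ops`: the operators acting
  on `MM v E`;
* `NSD`: the strictly dominated subspaces of `MM v E` are torsion over `k{Fr}`;
* `PC v E z x`: sequences of polynomials over `E`, Cauchy at `z`; `Spl`: `x = b + m`, `b` a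
  polynomial, `m` a formal limit of `E`;
* `Rel`: the system of relations of Theorem B.
-/

set_option autoImplicit false

open Polynomial TensorProduct

namespace Pool.Agent.TWC

open Pool.Agent.H15JM (RVal)
open Pool.Agent.LU1 (VPos)
open Pool.Agent.D2 (Ctx0)
open Pool.Agent.TWM

universe u

variable {k Ω : Type u} [Field k] [Field Ω] [Algebra k Ω] {v : RVal Ω} [Fact (Ctx0 k v)]
  {C E : IntermediateField k Ω}

/-! ## Operators -/

open Classical in
/-- The operator as a function on `Ω` (`0` outside `E`). -/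
noncomputable def fn (φ : Opr v E) (x : Ω) : Ω :=
  if h : x ∈ E then (((φ : Module.End k E) ⟨x, h⟩ : E) : Ω) else 0

theorem fn_of_mem (φ : Opr v E) {x : Ω} (h : x ∈ E) :
    fn φ x = (((φ : Module.End k E) ⟨x, h⟩ : E) : Ω) := dif_pos h

theorem fn_mem (φ : Opr v E) (x : Ω) : fn φ x ∈ E := by
  by_cases h : x ∈ E
  · rw [fn_of_mem φ h]
    exact SetLike.coe_mem _
  · rw [fn, dif_neg h]
    exact zero_mem E

theorem fn_zero (φ : Opr v E) : fn φ 0 = 0 := by
  rw [fn_of_mem φ (zero_mem E)]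
  have : (⟨0, zero_mem E⟩ : E) = 0 := rfl
  rw [this, map_zero]
  rfl

theorem fn_add (φ : Opr v E) {x y : Ω} (hx : x ∈ E) (hy : y ∈ E) :
    fn φ (x + y) = fn φ x + fn φ y := by
  rw [fn_of_mem φ (add_mem hx hy), fn_of_mem φ hx, fn_of_mem φ hy]
  exact congrArg Subtype.val ((φ : Module.End k E).map_add ⟨x, hx⟩ ⟨y, hy⟩)

theorem fn_ge (φ : Opr v E) {x : Ω} (hx : x ∈ E) {b : ℝ} (h : v.Ge b x) : v.Ge b (fn φ x) := by
  rw [fn_of_mem φ hx]
  exact φ.2 ⟨x, hx⟩ b h

/-- The action of an operator on the coefficients of a polynomial over `E`. -/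
noncomputable def cf (φ : Opr v E) (f : Polynomial Ω) : Polynomial Ω :=
  ∑ i ∈ f.support, monomial i (fn φ (f.coeff i))

theorem coeff_cf (φ : Opr v E) (f : Polynomial Ω) (i : ℕ) :
    (cf φ f).coeff i = fn φ (f.coeff i) := by
  rw [cf, finsetSum_coeff]
  simp only [coeff_monomial]
  rw [Finset.sum_ite_eq' f.support i]
  split_ifs with h
  · rfl
  · rw [notMem_support_iff.1 h, fn_zero]

theorem cf_mem (φ : Opr v E) (f : Polynomial Ω) : cf φ f ∈ PI E := fun i => by
  rw [coeff_cf]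
  exact fn_mem φ _

theorem cf_add (φ : Opr v E) {f g : Polynomial Ω} (hf : f ∈ PI E) (hg : g ∈ PI E) :
    cf φ (f + g) = cf φ f + cf φ g := by
  ext i
  rw [coeff_cf, coeff_add, coeff_add, coeff_cf, coeff_cf, fn_add φ (hf i) (hg i)]

/-- The operators of a base: `T` is a `k`-space of `C`-linear operators of norm `≤ 0` of the
perfect closed field `E`, closed under composition and with `φ Fr = Fr φ'`. -/
structure Oper (p : ℕ) (v : RVal Ω) [Fact (Ctx0 k v)] (C E : IntermediateField k Ω)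
    (T : Submodule k (Opr v E)) : Prop where
  le : C ≤ E
  cldC : Cld v C
  cld : Cld v E
  perf : ∀ a ∈ E, ∃ b ∈ E, b ^ p = a
  mul : ∀ φ ∈ T, ∀ ψ ∈ T, φ * ψ ∈ T
  tw : ∀ φ ∈ T, ∃ φ' ∈ T, ∀ x : E,
    (φ : Module.End k E) (x ^ p) = ((φ' : Module.End k E) x) ^ p
  lin : ∀ φ ∈ T, ∀ c : E, (c : Ω) ∈ C → ∀ x : E,
    (φ : Module.End k E) (c * x) = c * (φ : Module.End k E) x
  one : ∀ φ ∈ T, (φ : Module.End k E) 1 = 0

section Mod

variable (p : ℕ) [Fact p.Prime] [CharP k p] [CharP Ω p] {T : Submodule k (Opr v E)}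

variable [PerfectRing k p]

instance : RingHomSurjective (frobenius k p) := ⟨(PerfectRing.bijective_frobenius (R := k)).2⟩

/-- The operators, acting on `MM v E`. -/
noncomputable def Oper.ops (h : Oper p v C E T) : Ops (MM.fr p v E) where
  A := T.map (MM.actHom v E).toLinearMap
  comp_mem := by
    rintro _ ⟨φ, hφ, rfl⟩ _ ⟨ψ, hψ, rfl⟩
    exact ⟨φ * ψ, h.mul φ hφ ψ hψ, (MM.actHom v E).map_mul φ ψ⟩
  tw := by
    rintro _ ⟨φ, hφ, rfl⟩
    obtain ⟨φ', hφ', h1⟩ := h.tw φ hφ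
    exact ⟨_, ⟨φ', hφ', rfl⟩, fun x => MM.act_fr p h1 x⟩

omit [Fact p.Prime] [CharP k p] [CharP Ω p] [PerfectRing k p] in
theorem fn_smul (φ : Opr v E) (a : k) {x : Ω} (hx : x ∈ E) : fn φ (a • x) = a • fn φ x := by
  rw [fn_of_mem φ (E.smul_mem hx), fn_of_mem φ hx]
  exact congrArg Subtype.val ((φ : Module.End k E).map_smul a ⟨x, hx⟩)

/-- `V'(C)`: the strictly dominated subspaces of `MM v E` are torsion over `k{Fr}`. -/
def NSD (h : Oper p v C E T) : Prop :=
  ∀ Y : Submodule k (MM v E), Y.FG → ∀ b : ℕ, 1 ≤ b →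
    (∀ y ∈ Y, (MM.fr p v E)^[b] y ∈ V (MM.fr p v E) (Y ⊔ act (h.ops p) Y) b) →
    Y ≤ Sat (MM.fr p v E) ⊥

end Mod

/-! ## Polynomials at `z` -/

/-- A sequence of polynomials over `E`, Cauchy up to `0` at `z`. -/
structure PC (v : RVal Ω) (E : IntermediateField k Ω) (z : Ω) (x : ℕ → Polynomial Ω) : Prop where
  mem : ∀ i, x i ∈ PI E
  cau : ∀ ε : ℝ, 0 < ε → ∃ N : ℕ, ∀ m n, N ≤ m → N ≤ n → v.Ge (-ε) ((x m - x n).eval z)

/-- `x = b + m`: `b` a polynomial over `E`, `m` a formal limit of `E`. -/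
structure Spl (v : RVal Ω) (E : IntermediateField k Ω) (z : Ω) (x : ℕ → Polynomial Ω)
    (b : Polynomial Ω) (m : ℕ → Ω) : Prop where
  mem : b ∈ PI E
  cau : Cau v E m
  nul : Nul v (fun i => (x i).eval z - b.eval z - m i)

/-- The relations of Theorem B. -/
structure Rel (p : ℕ) (T : Submodule k (Opr v E)) (z : Ω) {ι : Type} [Fintype ι]
    (x : ι → ℕ → Polynomial Ω) (n : ℕ) (lam : ℕ → ι → ι → k) (ψ : ℕ → ι → ι → Opr v E)
    (kap : ι → Polynomial Ω) : Prop where
  pc : ∀ j, PC v E z (x j)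
  one : 1 ≤ n
  opr : ∀ a j l, ψ a j l ∈ T
  mem : ∀ j, kap j ∈ PI E
  rel : ∀ j, Nul v (fun i => (x j i).eval z ^ p ^ n -
    ∑ a ∈ Finset.range n, ∑ l, (lam a j l • (x l i).eval z + (cf (ψ a j l) (x l i)).eval z) ^ p ^ a -
    (kap j).eval z)

end Pool.Agent.TWC
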