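import Pool.Agent.Lib.TWC.TowDefs
import Pool.Agent.Lib.TWM.StabA
import Pool.Agent.Lib.TWM.D1
import Pool.Agent.Lib.TWM.Ent1

/-!
# TANK W, class C, row T3: base change of a tower by the closure of an algebraic extension
-/

set_option autoImplicit false

open Polynomial

namespace Pool.Agent.TWC

open Pool.Agent.H15JM (RVal)
open Pool.Agent.LU1 (VPos adj)
open Pool.Agent.D2 (Ctx0)
open Pool.Agent.D2P (hen clI mem_clI)
open Pool.Agent.TWM

universe u

variable {k Ω : Type u} [Field k] [Field Ω] [Algebra k Ω] {v : RVal Ω}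
  {A B C : IntermediateField k Ω} {z : Ω}

/-- `TL` is invariant under algebraic extensions and closures. -/
theorem TL.base [IsAlgClosed Ω] {s : ℝ} (h : TL v A z s) (hA : A ≤ B)
    (hB : B ≤ clI v (algc A)) : TL v B z s where
  lim := h.lim.mono hA
  far := fun θ hθ => by
    obtain ⟨θ', h1, h2⟩ := exists_near_alg (v := v) (K := algc A)
      (D2P.isAlgebraic_mono hB hθ) s
    obtain ⟨h3, h4⟩ := h.algc.far θ' h1
    have h5 : ¬ v.Ge s (z - θ') := fun h6 => absurd (h6 (sub_ne_zero.2 h3)) (not_le.2 h4)
    by_contra h6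
    refine h5 ?_
    have h7 : v.Ge s (z - θ) := by
      intro h0
      by_contra h8
      exact h6 ⟨sub_ne_zero.1 h0, not_le.1 h8⟩
    have h8 := h7.add h2
    rwa [sub_add_sub_cancel] at h8

theorem Tow.le_top {n : ℕ} (h : Tow v n A B) : A ≤ B := by
  induction h with
  | zero _ => exact le_rfl
  | succ _ _ ih => exact (le_cadj v _ _).trans ih

theorem Tow.cld_top {n : ℕ} (h : Tow v n A B) : Cld v B := by
  induction h with
  | zero h => exact h
  | succ _ _ ih => exact ih

theorem Tow.base [IsAlgClosed Ω] {n : ℕ} (h : Tow v n A B) (hA : A ≤ C) (hc : Cld v C)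
    (hC : C ≤ clI v (algc A)) : Tow v n C (clI v (B ⊔ C)) := by
  induction h generalizing C with
  | @zero A hA' =>
    have h1 : clI v (A ⊔ C) = C := by
      rw [sup_eq_right.2 hA]
      exact le_antisymm hc (le_clI _)
    rw [h1]
    exact Tow.zero hc
  | @succ n A B z hz hT ih =>
    have hzB' : z ∈ B := hT.le_top (self_mem_cadj v A z)
    have h2 : cadj v A z ≤ cadj v C z := TWM.cadj_mono hA z
    have h3 : cadj v C z ≤ clI v (algc (cadj v A z)) := by
      refine cadj_le (cld_clI v _) (hC.trans (clI_mono ?_)) ?_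
      · intro a ha
        exact mem_algc.2 (D2P.isAlgebraic_mono (le_cadj v A z) (mem_algc.1 ha))
      · exact le_clI _ (le_algc _ (self_mem_cadj v A z))
    have h4 := ih h2 (cld_cadj v C z) h3
    have h5 : clI v (B ⊔ cadj v C z) = clI v (B ⊔ C) := by
      apply le_antisymm
      · refine (clI_mono (sup_le (le_sup_left.trans (le_clI _)) ?_)).trans (cld_clI v _)
        exact cadj_le (cld_clI v _) (le_sup_right.trans (le_clI _))
          (le_clI _ ((le_sup_left : B ≤ B ⊔ C) hzB'))
      · exact clI_mono (sup_le_sup_left (le_cadj v C z) B)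
    rw [h5] at h4
    exact Tow.succ (TL.base hz hA hC) h4

end Pool.Agent.TWC
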