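import Pool.Agent.Lib.TWC.Tow

/-!
# TANK W, class C, row T4: `w` is not near to a `p`-th power of a tower over `A<w>`
-/

set_option autoImplicit false

open Polynomial

namespace Pool.Agent.TWC

open Pool.Agent.H15JM (RVal)
open Pool.Agent.LU1 (VPos adj)
open Pool.Agent.D2 (Ctx0)
open Pool.Agent.D2P (hen clI mem_clI)
open Pool.Agent.TWM

universe u

variable {k Ω : Type u} [Field k] [Field Ω] [Algebra k Ω] {v : RVal Ω}
  {A B N : IntermediateField k Ω}

/-- Finitely many strict inequalities have a gap. -/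
theorem NotRoot.exists_gap {f : ℕ → ℝ} {P : ℕ → Prop} {κ : ℕ → ℝ} :
    ∀ n : ℕ, (∀ i < n, P i → κ i < f i) → ∃ d : ℝ, 0 < d ∧ ∀ i < n, P i → κ i + d ≤ f i := by
  intro n
  induction n with
  | zero => exact fun _ => ⟨1, one_pos, fun i hi => absurd hi (Nat.not_lt_zero i)⟩
  | succ n ih =>
    intro h
    obtain ⟨d, hd, h1⟩ := ih fun i hi => h i (hi.trans (Nat.lt_succ_self n))
    by_cases hP : P n
    · have h2 := h n (Nat.lt_succ_self n) hP
      refine ⟨min d (f n - κ n), lt_min hd (by linarith), fun i hi hPi => ?_⟩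
      rcases Nat.lt_succ_iff_lt_or_eq.1 hi with h3 | rfl
      · have := h1 i h3 hPi
        have := min_le_left d (f n - κ n)
        linarith
      · have := min_le_right d (f i - κ i)
        linarith
    · refine ⟨d, hd, fun i hi hPi => ?_⟩
      rcases Nat.lt_succ_iff_lt_or_eq.1 hi with h3 | rfl
      · exact h1 i h3 hPi
      · exact absurd hPi hP

variable [IsAlgClosed Ω]

/-- The value of a polynomial at an element of transcendental type is a value at a near element. -/
theorem NotRoot.eval_near {y : Ω} {s c : ℝ} (hT : TL v N y s) {F : Polynomial Ω} (hF : F ∈ PI N)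
    (hc : v.Ge c (F.eval y)) : ∃ a ∈ N, v.Ge c (F.eval a) := by
  by_cases hF0 : F = 0
  · exact ⟨0, N.zero_mem, by rw [hF0, eval_zero]; exact RVal.Ge.zero⟩
  have hFy : F.eval y ≠ 0 := hT.eval_ne (PI_mono (le_algc N) hF) hF0
  obtain ⟨d, hd, h1⟩ := NotRoot.exists_gap (f := fun l => v ((taylor y F).coeff l))
    (P := fun l => 1 ≤ l ∧ (taylor y F).coeff l ≠ 0) (κ := fun l => v (F.eval y) - l * s)
    (F.natDegree + 1) (fun l _ hl => by
      have := hT.strict (PI_mono (le_algc N) hF) hF0 hl.1 hl.2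
      linarith)
  have hD : (0 : ℝ) < F.natDegree + 1 := by positivity
  obtain ⟨a, ha, h2⟩ := hT.lim (d / (F.natDegree + 1)) (div_pos hd hD)
  refine ⟨a, ha, ?_⟩
  have h3 : F.eval a = ∑ l ∈ Finset.range (F.natDegree + 1), (taylor y F).coeff l * (a - y) ^ l := by
    rw [eval_taylor F y a]
  rw [h3]
  refine RVal.Ge.sum _ _ fun l hl => ?_
  rcases Nat.eq_zero_or_pos l with rfl | hl0
  · rw [taylor_coeff_zero, pow_zero, mul_one]
    exact hc
  · have h4 : v.Ge (v (F.eval y) - l * s + d) ((taylor y F).coeff l) := fun h0 =>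
      h1 l (Finset.mem_range.1 hl) ⟨hl0, h0⟩
    have h5 : v.Ge (s - d / (F.natDegree + 1)) (a - y) := by
      have h6 : a - y = -(y - a) := by ring
      rw [h6]
      exact h2.neg
    refine (h4.mul (ge_pow h5 l)).mono ?_
    have h6 : (l : ℝ) ≤ F.natDegree := by
      exact_mod_cast Nat.lt_succ_iff.1 (Finset.mem_range.1 hl)
    have h7 : (l : ℝ) * (d / (F.natDegree + 1)) ≤ d := by
      rw [mul_div_assoc', div_le_iff₀ hD]
      nlinarith
    have h8 := hc hFy
    nlinarith

variable (p : ℕ) [Fact p.Prime] [CharP k p] [CharP Ω p]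

omit [CharP k p] in
/-- One step down. -/
theorem NotRoot.down {y w u : Ω} (hT : TL v N y 0) (hw : w ∈ N) (hu : u ∈ cadj v N y)
    (h : v.Ge 0 (u ^ p - w)) : ∃ u' ∈ N, v.Ge 0 (u' ^ p - w) := by
  obtain ⟨f, hf, h1⟩ := hT.dense hu 0
  have h2 : v.Ge 0 ((f ^ p - C w).eval y) := by
    rw [eval_sub, eval_pow, eval_C]
    have h3 : f.eval y ^ p - w = (u ^ p - w) - (u - f.eval y) ^ p := by
      rw [sub_pow_char]
      ring
    rw [h3]
    refine h.sub ?_
    have := ge_pow h1 p
    rwa [mul_zero] at this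
  obtain ⟨a, ha, h3⟩ := NotRoot.eval_near hT
    (_root_.sub_mem (pow_mem hf p) (C_mem_PI hw) : f ^ p - C w ∈ PI N) h2
  refine ⟨f.eval a, eval_mem hf ha, ?_⟩
  rwa [eval_sub, eval_pow, eval_C] at h3

omit [CharP k p] in
/-- The bottom. -/
theorem NotRoot.base {w u : Ω} (hT : TL v A w 0) (hu : u ∈ cadj v A w) : ¬ v.Ge 0 (u ^ p - w) := by
  intro h
  obtain ⟨f, hf, h1⟩ := hT.dense hu 0
  have hF : f ^ p - X ∈ PI A := _root_.sub_mem (pow_mem hf p) X_mem_PI
  have hd : derivative (f ^ p - X : Polynomial Ω) = -1 := by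
    rw [derivative_sub, derivative_pow, derivative_X, CharP.cast_eq_zero Ω p, C_0, zero_mul,
      zero_mul, zero_sub]
  have hF0 : f ^ p - X ≠ 0 := by
    intro h0
    rw [h0, derivative_zero] at hd
    exact one_ne_zero (neg_eq_zero.1 hd.symm)
  have h2 : v.Ge 0 ((f ^ p - X).eval w) := by
    rw [eval_sub, eval_pow, eval_X]
    have h3 : f.eval w ^ p - w = (u ^ p - w) - (u - f.eval w) ^ p := by
      rw [sub_pow_char]
      ring
    rw [h3]
    refine h.sub ?_
    have := ge_pow h1 p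
    rwa [mul_zero] at this
  have hne := hT.eval_ne (PI_mono (le_algc A) hF) hF0
  have h4 : (taylor w (f ^ p - X)).coeff 1 = -1 := by
    rw [taylor_coeff_one, hd, eval_neg, eval_one]
  have h5 := hT.strict (PI_mono (le_algc A) hF) hF0 (l := 1) le_rfl
    (by rw [h4]; exact neg_ne_zero.2 one_ne_zero)
  rw [h4, v.map_neg _ one_ne_zero, v.map_one] at h5
  have h6 := h2 hne
  push_cast at h5
  linarith

omit [CharP k p] in
/-- `w` is not near to a `p`-th power. -/
theorem Tow.not_root {n : ℕ} {w u : Ω} (_h0 : Ctx0 k v) (_hA : Cld v A)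
    (_hA' : ∀ a ∈ A, ∃ b ∈ A, b ^ p = a) (hw : TL v A w 0) (hT : Tow v n (cadj v A w) B)
    (hu : u ∈ B) : ¬ v.Ge 0 (u ^ p - w) := by
  induction n generalizing B u with
  | zero =>
    obtain ⟨-, h1⟩ := tow_zero.1 hT
    rw [← h1] at hu
    exact NotRoot.base p hw hu
  | succ n ih =>
    obtain ⟨N, y, h1, h2, h3⟩ := hT.last (cld_cadj v A w)
    rw [h3] at hu
    intro h
    obtain ⟨u', hu', h4⟩ := NotRoot.down p h2 (h1.le (cld_cadj v A w) (self_mem_cadj v A w)) hu h
    exact ih h1 hu' h4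

end Pool.Agent.TWC
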