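import Pool.Agent.Lib.TWC.Base

/-!
# TANK W, class C: strictly dominated subspaces are torsion (property `V'`)

* `torsion_of_filtration`: `G` a `k{F}`-module with operators `O` and a filtration `M D` (`D > 0`)
  with `F⁻¹ (M (p D)) ≤ M D`, `O (M D) ≤ M D`, every operator kills some `M δ`.  A strictly
  dominated subspace `Y ≤ M K` is killed by the operators and torsion.
* `DegF v E p A`: `A D` is a filtration of the perfect field `E` by `k`-subspaces (the elements of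
  degree `≤ D`), compatible with the Frobenius and with dense union.
* `vprime`: the strictly dominated finite dimensional subspaces of `MM v E` (the formal limits of
  `E` up to `0` modulo `E`) are killed by the operators and torsion.
-/

set_option autoImplicit false

open Module Submodule

namespace Pool.Agent.TWC

open Pool.Agent.H15JM (RVal)
open Pool.Agent.D2 (Ctx0)
open Pool.Agent.TWM

universe u w

/-! ## The abstract lemma -/

section Abstract

variable {k : Type u} {G : Type w} [Field k] [AddCommGroup G] [Module k G]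
variable {σ : k →+* k} [RingHomSurjective σ] {F : G →ₛₗ[σ] G}

theorem V_filt {M : ℝ → Submodule k G} {q : ℝ} (hq : 1 ≤ q)
    (hmono : ∀ D D', 0 < D → D ≤ D' → M D ≤ M D')
    (hF : ∀ D, 0 < D → ∀ x ∈ M D, F x ∈ M (q * D)) {W : Submodule k G} {D : ℝ} (hD : 0 < D)
    (hW : W ≤ M D) (b : ℕ) : V F W (b + 1) ≤ M (q ^ b * D) := by
  induction b with
  | zero =>
    rw [V_succ, V_zero, Submodule.map_bot, sup_bot_eq, pow_zero, one_mul]
    exact hW
  | succ b ih =>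
    rw [V_succ]
    have hqb : 0 < q ^ b * D := by positivity
    refine sup_le (hW.trans (hmono _ _ hD ?_)) ?_
    · have : (1 : ℝ) ≤ q ^ (b + 1) := one_le_pow₀ hq
      nlinarith
    · rintro _ ⟨x, hx, rfl⟩
      have h1 := hF _ hqb x (ih hx)
      rwa [show q ^ (b + 1) * D = q * (q ^ b * D) by ring]

omit [RingHomSurjective σ] in
theorem it_root {M : ℝ → Submodule k G} {q : ℝ} (hq : 1 ≤ q)
    (hroot : ∀ D, 0 < D → ∀ x, F x ∈ M (q * D) → x ∈ M D) (b : ℕ) : ∀ {D : ℝ}, 0 < D → ∀ {x : G},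
    F^[b] x ∈ M (q ^ b * D) → x ∈ M D := by
  induction b with
  | zero =>
    intro D hD x hx
    rwa [pow_zero, one_mul] at hx
  | succ b ih =>
    intro D hD x hx
    rw [Function.iterate_succ_apply] at hx
    have hqD : 0 < q * D := by positivity
    rw [show q ^ (b + 1) * D = q ^ b * (q * D) by ring] at hx
    exact hroot D hD x (ih hqD hx)

/-- A finite dimensional subspace `Y` with `F^b Y ⊆ ∑_{a < b} F^a Y` is torsion. -/
theorem le_Sat_bot {Y : Submodule k G} (hY : Y.FG) {b : ℕ} (h : ∀ y ∈ Y, F^[b] y ∈ V F Y b) :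
    Y ≤ Sat F ⊥ := by
  intro y hy
  refine ⟨V F Y b ⊔ Y, (V_fg hY b).sup hY, fun c => ?_⟩
  rw [bot_sup_eq]
  have h1 : ∀ c, V F Y (b + c) ≤ V F Y b := by
    intro c
    induction c with
    | zero => exact le_rfl
    | succ c ih =>
      have h2 : V F Y (b + (c + 1)) = Y ⊔ (V F Y (b + c)).map F := V_succ (F := F) (S := Y) (b + c)
      rw [h2]
      cases b with
      | zero =>
        have h3 : Y ≤ ⊥ := fun z hz => by
          have := h z hz
          rwa [Function.iterate_zero_apply, V_zero] at this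
        rw [le_bot_iff] at h3
        rw [h3] at ih ⊢
        rw [bot_sup_eq]
        refine (Submodule.map_mono (f := F) ih).trans ?_
        rw [V_zero, Submodule.map_bot]
      | succ b =>
        refine sup_le (le_V b) ((Submodule.map_mono (f := F) ih).trans ?_)
        -- `F V_{b+1} ≤ V_{b+2} = V_{b+1} + F^{b+1} Y`
        clear ih h2
        have key : ∀ n, V F Y (n + 1) ≤ V F Y n ⊔ Submodule.span k {z | ∃ y ∈ Y, F^[n] y = z} := by
          intro n
          induction n with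
          | zero =>
            rw [V_succ, V_zero, Submodule.map_bot, sup_bot_eq, bot_sup_eq]
            exact fun z hz => Submodule.subset_span ⟨z, hz, rfl⟩
          | succ n ihn =>
            rw [V_succ]
            refine sup_le (le_sup_of_le_left (le_V n)) ((Submodule.map_mono ihn).trans ?_)
            rw [Submodule.map_sup]
            refine sup_le (le_sup_of_le_left (map_V_le n)) (le_sup_of_le_right ?_)
            rw [Submodule.map_span, Submodule.span_le]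
            rintro _ ⟨_, ⟨y, hy, rfl⟩, rfl⟩
            exact Submodule.subset_span ⟨y, hy, Function.iterate_succ_apply' _ _ _⟩
        refine (map_V_le (F := F) (S := Y) (b + 1)).trans ((key (b + 1)).trans (sup_le le_rfl ?_))
        rw [Submodule.span_le]
        rintro _ ⟨y, hy, rfl⟩
        exact h y hy
  rcases Nat.lt_or_ge c b with hc | hc
  · refine Submodule.mem_sup_left ?_
    have h2 : F^[c] y ∈ V F Y (c + 1) := by
      have := it_mem_V (F := F) (le_V (F := F) 0 hy) c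
      rwa [Nat.add_comm] at this
    exact V_mono (by omega) h2
  · refine Submodule.mem_sup_left ?_
    obtain ⟨n, rfl⟩ := Nat.exists_eq_add_of_le hc
    have h2 := it_mem_V (F := F) (h y hy) n
    rw [← Function.iterate_add_apply, Nat.add_comm n] at h2
    exact h1 n h2

/-- **Abstract `V'`.** -/
theorem torsion_of_filtration {O : Ops F} {M : ℝ → Submodule k G} {q : ℝ} (hq : 1 < q)
    (hmono : ∀ D D', 0 < D → D ≤ D' → M D ≤ M D')
    (hF : ∀ D, 0 < D → ∀ x ∈ M D, F x ∈ M (q * D))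
    (hroot : ∀ D, 0 < D → ∀ x, F x ∈ M (q * D) → x ∈ M D)
    (hop : ∀ φ ∈ O.A, ∀ D, 0 < D → ∀ x ∈ M D, φ x ∈ M D)
    (hsm : ∀ φ ∈ O.A, ∃ δ, 0 < δ ∧ ∀ x ∈ M δ, φ x = 0)
    {Y : Submodule k G} {K : ℝ} (hK : 0 < K) (hYK : Y ≤ M K) {b : ℕ} (hb : 1 ≤ b)
    (h : ∀ y ∈ Y, F^[b] y ∈ V F (Y ⊔ act O Y) b) :
    (∀ D, 0 < D → Y ≤ M D) ∧ act O Y = ⊥ := by
  obtain ⟨b, rfl⟩ := Nat.exists_eq_add_of_le' hb
  have h1 : ∀ D, 0 < D → Y ≤ M D → Y ≤ M (D / q) := by
    intro D hD hY y hy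
    have h2 : Y ⊔ act O Y ≤ M D :=
      sup_le hY (act_le.2 fun φ hφ x hx => hop φ hφ D hD x (hY hx))
    have h3 := V_filt hq.le hmono hF hD h2 b (h y hy)
    have h4 : q ^ b * D = q ^ (b + 1) * (D / q) := by
      have : q ≠ 0 := by positivity
      rw [pow_succ]
      field_simp
    rw [h4] at h3
    exact it_root hq.le hroot (b + 1) (by positivity) h3
  have h2 : ∀ i : ℕ, Y ≤ M (K / q ^ i) := by
    intro i
    induction i with
    | zero => simpa using hYK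
    | succ i ih =>
      have h3 := h1 _ (by positivity) ih
      rwa [div_div, ← pow_succ] at h3
  have h3 : ∀ D, 0 < D → Y ≤ M D := by
    intro D hD
    obtain ⟨i, hi⟩ := pow_unbounded_of_one_lt (K / D) hq
    refine (h2 i).trans (hmono _ _ (by positivity) ?_)
    rw [div_le_iff₀ (by positivity)]
    rw [div_lt_iff₀ hD] at hi
    nlinarith
  refine ⟨h3, ?_⟩
  rw [eq_bot_iff, act_le]
  intro φ hφ x hx
  obtain ⟨δ, hδ, h4⟩ := hsm φ hφ
  rw [h4 x (h3 δ hδ hx)]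
  exact zero_mem _

end Abstract

/-! ## The filtration by the degree -/

section Deg

variable {k Ω : Type u} [Field k] [Field Ω] [Algebra k Ω]

/-- `A D` is a filtration of `E` by `k`-subspaces, compatible with the Frobenius, with dense
union. -/
structure DegF (v : RVal Ω) (E : IntermediateField k Ω) (p : ℕ) (A : ℝ → Submodule k E) :
    Prop where
  mono : ∀ D D', 0 < D → D ≤ D' → A D ≤ A D'
  dense : ∀ e : E, ∃ D, 0 < D ∧ ∃ f ∈ A D, v.Ge 0 ((e : Ω) - f)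
  pow : ∀ D, 0 < D → ∀ f ∈ A D, f ^ p ∈ A (p * D)
  root : ∀ D, 0 < D → ∀ f ∈ A (p * D), ∃ g ∈ A D, g ^ p = f

variable {v : RVal Ω} [hc : Fact (Ctx0 k v)] {E : IntermediateField k Ω} {A : ℝ → Submodule k E}

/-- The sequences which are near up to `-ε` to an element of degree `≤ D`. -/
def Qs (v : RVal Ω) [hc : Fact (Ctx0 k v)] {E : IntermediateField k Ω} (A : ℝ → Submodule k E)
    (D ε : ℝ) : Submodule k (CauS v E) where
  carrier := {x | ∃ f ∈ A D, ∃ N : ℕ, ∀ n, N ≤ n → v.Ge (-ε) ((x : ℕ → Ω) n - (f : Ω))}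
  add_mem' := by
    rintro x y ⟨f, hf, N, hN⟩ ⟨g, hg, M, hM⟩
    refine ⟨f + g, add_mem hf hg, max N M, fun n hn => ?_⟩
    have h1 := (hN n ((le_max_left _ _).trans hn)).add (hM n ((le_max_right _ _).trans hn))
    have h2 : ((x + y : CauS v E) : ℕ → Ω) n - ((f + g : E) : Ω) =
        (x : ℕ → Ω) n - f + ((y : ℕ → Ω) n - g) := by
      change (x : ℕ → Ω) n + (y : ℕ → Ω) n - ((f : Ω) + g) = _
      ring
    rwa [h2]
  zero_mem' := by
    refine ⟨0, zero_mem _, 0, fun n _ => ?_⟩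
    have h2 : ((0 : CauS v E) : ℕ → Ω) n - ((0 : E) : Ω) = 0 := by
      change (0 : Ω) - 0 = 0
      ring
    rw [h2]
    exact RVal.Ge.zero
  smul_mem' := by
    rintro a x ⟨f, hf, N, hN⟩
    refine ⟨a • f, Submodule.smul_mem _ _ hf, N, fun n hn => ?_⟩
    have h2 : ((a • x : CauS v E) : ℕ → Ω) n - ((a • f : E) : Ω) =
        algebraMap k Ω a * ((x : ℕ → Ω) n - f) := by
      change a • (x : ℕ → Ω) n - a • (f : Ω) = _
      rw [← smul_sub, Algebra.smul_def]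
    rw [h2]
    have := (hc.out.ge a).mul (hN n hn)
    rwa [zero_add] at this

theorem mem_Qs {D ε : ℝ} {x : CauS v E} : x ∈ Qs v A D ε ↔
    ∃ f ∈ A D, ∃ N : ℕ, ∀ n, N ≤ n → v.Ge (-ε) ((x : ℕ → Ω) n - (f : Ω)) := Iff.rfl

variable {p : ℕ}

theorem Qs_mono (h : DegF v E p A) {D D' ε ε' : ℝ} (hD : 0 < D) (hDD : D ≤ D') (hε : ε ≤ ε') :
    Qs v A D ε ≤ Qs v A D' ε' := by
  rintro x ⟨f, hf, N, hN⟩
  exact ⟨f, h.mono D D' hD hDD hf, N, fun n hn => (hN n hn).mono (by linarith)⟩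

/-- A Cauchy sequence is bounded. -/
theorem exists_Qs (D : ℝ) (x : CauS v E) : ∃ ε, 0 < ε ∧ x ∈ Qs v A D ε := by
  obtain ⟨N, hN⟩ := x.2.cau 1 one_pos
  refine ⟨max 1 (-v ((x : ℕ → Ω) N)), lt_of_lt_of_le one_pos (le_max_left _ _), 0, zero_mem _, N,
    fun n hn => ?_⟩
  have h1 : v.Ge (-max 1 (-v ((x : ℕ → Ω) N))) ((x : ℕ → Ω) n - (x : ℕ → Ω) N) :=
    (hN n N hn le_rfl).mono (neg_le_neg (le_max_left _ _))
  have h2 : v.Ge (-max 1 (-v ((x : ℕ → Ω) N))) ((x : ℕ → Ω) N) := fun _ => by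
    have := le_max_right (1 : ℝ) (-v ((x : ℕ → Ω) N))
    linarith
  have h3 := h1.add h2
  rw [sub_add_cancel] at h3
  have h4 : (x : ℕ → Ω) n - ((0 : E) : Ω) = (x : ℕ → Ω) n := by
    change (x : ℕ → Ω) n - 0 = _
    rw [sub_zero]
  rwa [h4]

variable [Fact p.Prime] [CharP k p] [CharP Ω p]

theorem frS_Qs (h : DegF v E p A) {D ε : ℝ} (hD : 0 < D) {x : CauS v E} (hx : x ∈ Qs v A D ε) :
    MM.frS p v E x ∈ Qs v A (p * D) (p * ε) := by
  obtain ⟨f, hf, N, hN⟩ := hx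
  refine ⟨f ^ p, h.pow D hD f hf, N, fun n hn => ?_⟩
  have h2 : ((MM.frS p v E x : CauS v E) : ℕ → Ω) n - ((f ^ p : E) : Ω) =
      ((x : ℕ → Ω) n - f) ^ p := by
    change (x : ℕ → Ω) n ^ p - (f : Ω) ^ p = _
    rw [sub_pow_char]
  rw [h2]
  refine (ge_pow (hN n hn) p).mono (le_of_eq ?_)
  ring

omit [CharP Ω p] in
theorem ge_of_pow {ε : ℝ} {y : Ω} (h : v.Ge (-(p * ε)) (y ^ p)) : v.Ge (-ε) y := by
  intro h0
  have hp : (0 : ℝ) < p := by exact_mod_cast (Fact.out : p.Prime).pos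
  have h2 := h (pow_ne_zero p h0)
  rw [v.map_pow h0] at h2
  have h3 : (p : ℝ) * (-ε) ≤ p * v y := by linarith
  exact le_of_mul_le_mul_left h3 hp

theorem root_Qs (h : DegF v E p A) {D ε : ℝ} (hD : 0 < D) {x : CauS v E}
    (hx : MM.frS p v E x ∈ Qs v A (p * D) (p * ε)) : x ∈ Qs v A D ε := by
  obtain ⟨f, hf, N, hN⟩ := hx
  obtain ⟨g, hg, rfl⟩ := h.root D hD f hf
  refine ⟨g, hg, N, fun n hn => ge_of_pow (p := p) ?_⟩
  have h2 : ((MM.frS p v E x : CauS v E) : ℕ → Ω) n - ((g ^ p : E) : Ω) =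
      ((x : ℕ → Ω) n - g) ^ p := by
    change (x : ℕ → Ω) n ^ p - (g : Ω) ^ p = _
    rw [sub_pow_char]
  rw [← h2]
  exact hN n hn

theorem act_Qs {φ : Opr v E} {D ε : ℝ} (hφ : ∀ f ∈ A D, (φ : Module.End k E) f ∈ A D)
    {x : CauS v E} (hx : x ∈ Qs v A D ε) : MM.actS φ x ∈ Qs v A D ε := by
  obtain ⟨f, hf, N, hN⟩ := hx
  refine ⟨(φ : Module.End k E) f, hφ f hf, N, fun n hn => ?_⟩
  have h1 := φ.2 (⟨(x : ℕ → Ω) n, x.2.mem n⟩ - f) (-ε) (hN n hn)
  rw [map_sub] at h1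
  exact h1

/-- The classes of the formal limits of the elements of degree `≤ D`. -/
noncomputable def MD (v : RVal Ω) [hc : Fact (Ctx0 k v)] {E : IntermediateField k Ω}
    (A : ℝ → Submodule k E) (D : ℝ) : Submodule k (MM v E) :=
  (⨅ ε : {ε : ℝ // 0 < ε}, Qs v A D ε).map (MM.mk v E)

omit [Fact p.Prime] [CharP k p] [CharP Ω p] in
theorem MD_mono (h : DegF v E p A) {D D' : ℝ} (hD : 0 < D) (hDD : D ≤ D') :
    MD v A D ≤ MD v A D' :=
  Submodule.map_mono (iInf_mono fun _ => Qs_mono h hD hDD le_rfl)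

theorem fr_MD (h : DegF v E p A) {D : ℝ} (hD : 0 < D) {m : MM v E} (hm : m ∈ MD v A D) :
    MM.fr p v E m ∈ MD v A (p * D) := by
  obtain ⟨x, hx, rfl⟩ := hm
  refine ⟨MM.frS p v E x, ?_, rfl⟩
  have hx' : ∀ ε : {ε : ℝ // 0 < ε}, x ∈ Qs v A D ε := by
    simpa [Submodule.mem_iInf] using hx
  rw [SetLike.mem_coe, Submodule.mem_iInf]
  rintro ⟨ε, hε⟩
  have hp : (0 : ℝ) < p := by exact_mod_cast (Fact.out : p.Prime).pos
  have h1 := frS_Qs h hD (hx' ⟨ε / p, by positivity⟩)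
  have h2 : (p : ℝ) * (ε / p) = ε := by field_simp
  simp only at h1
  rwa [h2] at h1

theorem root_MD (h : DegF v E p A) (hE : ∀ a ∈ E, ∃ b ∈ E, b ^ p = a) {D : ℝ} (hD : 0 < D)
    {m : MM v E} (hm : MM.fr p v E m ∈ MD v A (p * D)) : m ∈ MD v A D := by
  have hp : (0 : ℝ) < p := by exact_mod_cast (Fact.out : p.Prime).pos
  obtain ⟨x, rfl⟩ := MM.ind m
  obtain ⟨y, hy, hxy⟩ := hm
  have hy' : ∀ ε : {ε : ℝ // 0 < ε}, y ∈ Qs v A (p * D) ε := by
    simpa [Submodule.mem_iInf] using hy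
  rw [MM.fr_mk, ← sub_eq_zero, ← map_sub, MM.mk_eq_zero] at hxy
  obtain ⟨e, he, h1⟩ := hxy
  obtain ⟨g, hg, rfl⟩ := hE e he
  -- `x + g` is a limit of elements of degree `≤ D`
  let c : CauS v E := ⟨fun _ => g, Cau.const hg⟩
  have hc0 : MM.mk v E c = 0 := by
    rw [MM.mk_eq_zero]
    refine ⟨g, hg, Nul.zero.congr fun n => ?_⟩
    change (0 : Ω) = g - g
    rw [sub_self]
  refine ⟨x + c, ?_, by rw [map_add, hc0, add_zero]⟩
  rw [SetLike.mem_coe, Submodule.mem_iInf]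
  rintro ⟨ε, hε⟩
  refine root_Qs h hD ?_
  obtain ⟨f, hf, N, hN⟩ := hy' ⟨p * ε, by positivity⟩
  obtain ⟨M, hM⟩ := h1 (p * ε) (by positivity)
  refine ⟨f, hf, max N M, fun n hn => ?_⟩
  have h2 := (hN n ((le_max_left _ _).trans hn)).sub (hM n ((le_max_right _ _).trans hn))
  have h3 : ((MM.frS p v E (x + c) : CauS v E) : ℕ → Ω) n - (f : Ω) =
      (y : ℕ → Ω) n - f - (((y - MM.frS p v E x : CauS v E) : ℕ → Ω) n - g ^ p) := by
    change ((x : ℕ → Ω) n + g) ^ p - (f : Ω) =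
      (y : ℕ → Ω) n - f - ((y : ℕ → Ω) n - (x : ℕ → Ω) n ^ p - g ^ p)
    rw [add_pow_char]
    ring
  rw [h3]
  exact h2

theorem act_MD {φ : Opr v E} {D : ℝ} (hφ : ∀ f ∈ A D, (φ : Module.End k E) f ∈ A D) {m : MM v E}
    (hm : m ∈ MD v A D) : MM.act φ m ∈ MD v A D := by
  obtain ⟨x, hx, rfl⟩ := hm
  refine ⟨MM.actS φ x, ?_, rfl⟩
  rw [SetLike.mem_coe, Submodule.mem_iInf] at hx ⊢
  exact fun ε => act_Qs hφ (hx ε)

theorem act_MD_zero {φ : Opr v E} {D : ℝ}
    (hφ : ∀ f ∈ A D, v.Ge 0 (((φ : Module.End k E) f : E) : Ω)) {m : MM v E}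
    (hm : m ∈ MD v A D) : MM.act φ m = 0 := by
  obtain ⟨x, hx, rfl⟩ := hm
  rw [SetLike.mem_coe, Submodule.mem_iInf] at hx
  rw [MM.act_mk, MM.mk_eq_zero]
  refine ⟨0, zero_mem _, fun ε hε => ?_⟩
  obtain ⟨f, hf, N, hN⟩ := hx ⟨ε, hε⟩
  refine ⟨N, fun n hn => ?_⟩
  have h1 := φ.2 (⟨(x : ℕ → Ω) n, x.2.mem n⟩ - f) (-ε) (hN n hn)
  have h2 : v.Ge (-ε) (((φ : Module.End k E) f : E) : Ω) := (hφ f hf).mono (by linarith)
  have h3 := RVal.Ge.add h1 h2
  change v.Ge (-ε) (((MM.actS φ x : CauS v E) : ℕ → Ω) n - 0)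
  rw [sub_zero]
  have h4 : (((φ : Module.End k E) (⟨(x : ℕ → Ω) n, x.2.mem n⟩ - f) : E) : Ω) +
      (((φ : Module.End k E) f : E) : Ω) = ((MM.actS φ x : CauS v E) : ℕ → Ω) n := by
    rw [map_sub]
    change (((φ : Module.End k E) ⟨(x : ℕ → Ω) n, x.2.mem n⟩ : E) : Ω) -
      (((φ : Module.End k E) f : E) : Ω) + _ = _
    rw [sub_add_cancel]
    rfl
  rwa [h4] at h3

variable [RingHomSurjective (frobenius k p)]

theorem V_map_le {W : Submodule k (CauS v E)} (b : ℕ) :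
    V (MM.fr p v E) (W.map (MM.mk v E)) b ≤ (V (MM.frS p v E) W b).map (MM.mk v E) := by
  induction b with
  | zero => exact bot_le
  | succ b ih =>
    rw [V_succ, V_succ, Submodule.map_sup]
    refine sup_le_sup_left ((Submodule.map_mono ih).trans ?_) _
    rintro _ ⟨_, ⟨x, hx, rfl⟩, rfl⟩
    exact ⟨MM.frS p v E x, Submodule.mem_map_of_mem hx, rfl⟩

omit [RingHomSurjective (frobenius k p)] in
theorem it_mk (b : ℕ) (x : CauS v E) :
    (MM.fr p v E)^[b] (MM.mk v E x) = MM.mk v E ((MM.frS p v E)^[b] x) := by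
  induction b with
  | zero => rfl
  | succ b ih => rw [Function.iterate_succ_apply', ih, Function.iterate_succ_apply', MM.fr_mk]

/-- (a): bounded degree. -/
theorem exists_MD (h : DegF v E p A) {O : Ops (MM.fr p v E)}
    (hO : ∀ ψ ∈ O.A, ∃ φ : Opr v E, (∀ m, ψ m = MM.act φ m) ∧
      ∀ D, 0 < D → ∀ f ∈ A D, (φ : Module.End k E) f ∈ A D)
    {Y : Submodule k (MM v E)} (hY : Y.FG) {b : ℕ} (hb : 1 ≤ b)
    (hsd : ∀ y ∈ Y, (MM.fr p v E)^[b] y ∈ V (MM.fr p v E) (Y ⊔ act O Y) b) :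
    ∃ K, 0 < K ∧ Y ≤ MD v A K := by
  classical
  have hp1 : (1 : ℝ) < p := by exact_mod_cast (Fact.out : p.Prime).one_lt
  have hp0 : (0 : ℝ) < p := by positivity
  obtain ⟨s, hs⟩ := hY
  choose l hl using fun m : MM v E => MM.ind m
  set Y' : Submodule k (CauS v E) := Submodule.span k (s.image l : Finset _) with hY'
  have hmap : Y'.map (MM.mk v E) = Y := by
    rw [hY', Submodule.map_span, Finset.coe_image, ← Set.image_comp]
    have : (⇑(MM.mk v E) ∘ l) = id := funext hl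
    rw [this, Set.image_id, hs]
  set W' : Submodule k (CauS v E) := Submodule.span k {z | ∃ φ : Opr v E,
    (∀ D, 0 < D → ∀ f ∈ A D, (φ : Module.End k E) f ∈ A D) ∧ ∃ x ∈ Y', MM.actS φ x = z} with hW'
  have hYW : Y ⊔ act O Y ≤ (Y' ⊔ W').map (MM.mk v E) := by
    rw [Submodule.map_sup, hmap]
    refine sup_le_sup_left ?_ _
    rw [act_le]
    intro ψ hψ y hy
    obtain ⟨φ, hφ, hφA⟩ := hO ψ hψ
    rw [← hmap] at hy
    obtain ⟨x, hx, rfl⟩ := hy
    rw [hφ]
    exact ⟨MM.actS φ x, Submodule.subset_span ⟨φ, hφA, x, hx, rfl⟩, rfl⟩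
  -- the constants
  have h1 : ∀ m ∈ s, ∃ K, 0 < K ∧ ∃ u ∈ V (MM.frS p v E) (Y' ⊔ W') b, ∀ ε, 0 < ε →
      (MM.frS p v E)^[b] (l m) - u ∈ Qs v A K ε := by
    intro m hm
    have hmY : m ∈ Y := hs ▸ Submodule.subset_span hm
    have h2 := (V_mono_left hYW b).trans (V_map_le (p := p) b) (hsd m hmY)
    obtain ⟨u, hu, h3⟩ := h2
    rw [← hl m, it_mk, ← sub_eq_zero, ← map_sub, MM.mk_eq_zero] at h3
    obtain ⟨e, he, h4⟩ := h3
    obtain ⟨K, hK, f, hf, h5⟩ := h.dense ⟨-e, neg_mem he⟩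
    rw [← hl m] at hm ⊢
    refine ⟨K, hK, u, hu, fun ε hε => ⟨f, hf, ?_⟩⟩
    obtain ⟨N, hN⟩ := h4 ε hε
    refine ⟨N, fun n hn => ?_⟩
    have h6 := (h5.mono (by linarith : -ε ≤ 0)).sub (hN n hn)
    have h7 : (((MM.frS p v E)^[b] (l (MM.mk v E (l m))) - u : CauS v E) : ℕ → Ω) n - (f : Ω) =
        -e - f - (((u - (MM.frS p v E)^[b] (l m) : CauS v E) : ℕ → Ω) n - e) := by
      rw [hl]
      change ((MM.frS p v E)^[b] (l m) : ℕ → Ω) n - (u : ℕ → Ω) n - (f : Ω) =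
        -e - f - ((u : ℕ → Ω) n - ((MM.frS p v E)^[b] (l m) : ℕ → Ω) n - e)
      ring
    rw [h7]
    exact h6
  choose! Kf hK0 uf hu hQ using h1
  set K := 1 + ∑ m ∈ s, |Kf m| with hKdef
  have hK : 0 < K := by positivity
  have hKf : ∀ m ∈ s, Kf m ≤ K := by
    intro m hm
    have h2 : |Kf m| ≤ ∑ m ∈ s, |Kf m| :=
      Finset.single_le_sum (f := fun m => |Kf m|) (fun _ _ => abs_nonneg _) hm
    have h3 := le_abs_self (Kf m)
    linarith
  refine ⟨K, hK, ?_⟩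
  obtain ⟨b, rfl⟩ := Nat.exists_eq_add_of_le' hb
  -- the step
  have step : ∀ ε, 0 < ε → Y' ≤ Qs v A K (p * ε) → Y' ≤ Qs v A K ε := by
    intro ε hε hle
    have hW : Y' ⊔ W' ≤ Qs v A K (p * ε) := by
      refine sup_le hle ?_
      rw [hW', Submodule.span_le]
      rintro _ ⟨φ, hφ, x, hx, rfl⟩
      exact act_Qs (hφ K hK) (hle hx)
    have h2 := V_filt (F := MM.frS p v E) (M := fun t => Qs v A (t * K) (t * (p * ε))) hp1.le
      (fun t t' ht htt => Qs_mono h (by positivity)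
        (by nlinarith) (by
          have : 0 < p * ε := by positivity
          nlinarith))
      (fun t ht x hx => by
        have h3 := frS_Qs h (by positivity) hx
        rwa [show (p : ℝ) * (t * K) = p * t * K by ring,
          show (p : ℝ) * (t * (p * ε)) = p * t * (p * ε) by ring] at h3)
      one_pos (W := Y' ⊔ W') (by simpa using hW) b
    rw [hY', Submodule.span_le]
    intro x hx
    rw [Finset.mem_coe, Finset.mem_image] at hx
    obtain ⟨m, hm, rfl⟩ := hx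
    have h3 := h2 (hu m hm)
    have hpb : (1 : ℝ) ≤ (p : ℝ) ^ b := one_le_pow₀ hp1.le
    have hpb' : (1 : ℝ) ≤ (p : ℝ) ^ (b + 1) := one_le_pow₀ hp1.le
    have h4 : (MM.frS p v E)^[b + 1] (l m) ∈
        Qs v A ((p : ℝ) ^ (b + 1) * K) ((p : ℝ) ^ (b + 1) * ε) := by
      have h5 : (MM.frS p v E)^[b + 1] (l m) =
          uf m + ((MM.frS p v E)^[b + 1] (l m) - uf m) := by abel
      rw [h5]
      refine add_mem (Qs_mono h (by positivity) ?_ ?_ h3)
        (Qs_mono h (hK0 m hm) ?_ le_rfl (hQ m hm _ (by positivity)))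
      · rw [mul_one, pow_succ]
        nlinarith [mul_pos (lt_of_lt_of_le one_pos hpb) hK]
      · rw [mul_one, pow_succ]
        exact le_of_eq (by ring)
      · have := hKf m hm
        nlinarith
    have h6 := it_root (F := MM.frS p v E) (M := fun t => Qs v A (t * K) (t * ε)) hp1.le
      (fun t ht x hx => root_Qs h (by positivity) (by
        rwa [show (p : ℝ) * (t * K) = p * t * K by ring,
          show (p : ℝ) * (t * ε) = p * t * ε by ring])) (b + 1) one_pos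
      (x := l m) (by simpa using h4)
    simpa using h6
  -- the start
  obtain ⟨ε₀, hε₀, h0⟩ : ∃ ε, 0 < ε ∧ Y' ≤ Qs v A K ε := by
    choose ef he0 he using fun x : CauS v E => exists_Qs (A := A) K x
    refine ⟨1 + ∑ m ∈ s, ef (l m), by
      have : 0 ≤ ∑ m ∈ s, ef (l m) := Finset.sum_nonneg fun m _ => (he0 _).le
      linarith, ?_⟩
    rw [hY', Submodule.span_le]
    intro x hx
    rw [Finset.mem_coe, Finset.mem_image] at hx
    obtain ⟨m, hm, rfl⟩ := hx
    refine Qs_mono h hK le_rfl ?_ (he (l m))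
    have h2 := Finset.single_le_sum (f := fun m => ef (l m)) (fun m _ => (he0 (l m)).le) hm
    linarith
  have hall : ∀ i : ℕ, Y' ≤ Qs v A K (ε₀ / p ^ i) := by
    intro i
    induction i with
    | zero => simpa using h0
    | succ i ih =>
      refine step _ (by positivity) ?_
      rwa [show (p : ℝ) * (ε₀ / p ^ (i + 1)) = ε₀ / p ^ i by rw [pow_succ]; field_simp]
  have hfin : Y' ≤ ⨅ ε : {ε : ℝ // 0 < ε}, Qs v A K ε := by
    refine le_iInf ?_
    rintro ⟨ε, hε⟩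
    obtain ⟨i, hi⟩ := pow_unbounded_of_one_lt (ε₀ / ε) hp1
    refine (hall i).trans (Qs_mono h hK le_rfl ?_)
    rw [div_le_iff₀ (by positivity)]
    rw [div_lt_iff₀ hε] at hi
    nlinarith
  rw [← hmap]
  exact Submodule.map_mono hfin

/-- **`V'`.** The strictly dominated finite dimensional subspaces of the formal limits of `E` modulo
`E` are killed by the operators and torsion. -/
theorem vprime (h : DegF v E p A) (hE : ∀ a ∈ E, ∃ b ∈ E, b ^ p = a) {O : Ops (MM.fr p v E)}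
    (hO : ∀ ψ ∈ O.A, ∃ φ : Opr v E, (∀ m, ψ m = MM.act φ m) ∧
      (∀ D, 0 < D → ∀ f ∈ A D, (φ : Module.End k E) f ∈ A D) ∧
      ∃ δ, 0 < δ ∧ ∀ f ∈ A δ, v.Ge 0 (((φ : Module.End k E) f : E) : Ω))
    {Y : Submodule k (MM v E)} (hY : Y.FG) {b : ℕ} (hb : 1 ≤ b)
    (hsd : ∀ y ∈ Y, (MM.fr p v E)^[b] y ∈ V (MM.fr p v E) (Y ⊔ act O Y) b) :
    act O Y = ⊥ ∧ Y ≤ Sat (MM.fr p v E) ⊥ := by
  have hp1 : (1 : ℝ) < p := by exact_mod_cast (Fact.out : p.Prime).one_lt
  obtain ⟨K, hK, hYK⟩ := exists_MD h (fun ψ hψ => by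
    obtain ⟨φ, h1, h2, -⟩ := hO ψ hψ
    exact ⟨φ, h1, h2⟩) hY hb hsd
  have h1 := torsion_of_filtration (F := MM.fr p v E) (O := O) (M := MD v A) hp1
    (fun D D' hD hDD => MD_mono h hD hDD)
    (fun D hD x hx => fr_MD h hD hx)
    (fun D hD x hx => root_MD h hE hD hx)
    (fun ψ hψ D hD x hx => by
      obtain ⟨φ, h1, h2, -⟩ := hO ψ hψ
      rw [h1]
      exact act_MD (h2 D hD) hx)
    (fun ψ hψ => by
      obtain ⟨φ, h1, -, δ, hδ, h2⟩ := hO ψ hψ
      refine ⟨δ, hδ, fun x hx => ?_⟩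
      rw [h1]
      exact act_MD_zero h2 hx)
    hK hYK hb hsd
  refine ⟨h1.2, le_Sat_bot hY (b := b) ?_⟩
  intro y hy
  have h2 := hsd y hy
  rwa [h1.2, sup_bot_eq] at h2

end Deg

section NSD

variable {k Ω : Type u} [Field k] [Field Ω] [Algebra k Ω] {v : RVal Ω} [Fact (Ctx0 k v)]
  {C E : IntermediateField k Ω} (p : ℕ) [Fact p.Prime] [CharP k p] [CharP Ω p]
  [PerfectRing k p] {T : Submodule k (Opr v E)}

/-- **`V'(C)`** from a filtration of `E`; the operators are small on the elements of small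
degree. -/
theorem nsd_of_deg' (h : Oper p v C E T) {A : ℝ → Submodule k E} (hA : DegF v E p A)
    (hT : ∀ φ ∈ T, (∀ D, 0 < D → ∀ f ∈ A D, (φ : Module.End k E) f ∈ A D) ∧
      ∃ δ, 0 < δ ∧ ∀ f ∈ A δ, v.Ge 0 (((φ : Module.End k E) f : E) : Ω)) : NSD p h := by
  intro Y hY b hb hsd
  refine (vprime hA h.perf (O := h.ops p) ?_ hY hb hsd).2
  rintro _ ⟨φ, hφ, rfl⟩
  obtain ⟨h1, h2⟩ := hT φ hφ
  exact ⟨φ, fun m => rfl, h1, h2⟩

/-- **`V'(C)`** from a filtration of `E` by the degree. -/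
theorem nsd_of_deg (h : Oper p v C E T) {A : ℝ → Submodule k E} (hA : DegF v E p A)
    (hT : ∀ φ ∈ T, (∀ D, 0 < D → ∀ f ∈ A D, (φ : Module.End k E) f ∈ A D) ∧
      ∃ δ, 0 < δ ∧ ∀ f ∈ A δ, (φ : Module.End k E) f = 0) : NSD p h := by
  refine nsd_of_deg' p h hA fun φ hφ => ?_
  obtain ⟨h1, δ, hδ, h2⟩ := hT φ hφ
  refine ⟨h1, δ, hδ, fun f hf => ?_⟩
  rw [h2 f hf]
  exact RVal.Ge.zero

end NSD

end Pool.Agent.TWC
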