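import Pool.Agent.Lib.TWC.IsoD
import Pool.Agent.Lib.TWC.Vp

/-!
# TANK W, class C: the filtration by the degree, and the property `V'`, for the closure of
# `P[w^(1/p^∞)]`

* `dgA hr D`: the elements `ev (u n) f`, `f` of degree `≤ D p^n` over `P`;
* `degF_dgA`: it is a filtration of `E`, for `P` perfect;
* `opT_deg`: the operators of `opT` preserve the degree, and kill the elements of small degree;
* `nsd_opT`: the property `V'`.
-/

set_option autoImplicit false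

open Polynomial

namespace Pool.Agent.TWC

open Pool.Agent.H15JM (RVal)
open Pool.Agent.LU1 (VPos adj)
open Pool.Agent.D2 (Ctx0)
open Pool.Agent.D2P (clI mem_clI)
open Pool.Agent.TWM
open Pool.Agent.TWC.Key (hd ev lf dg)

universe u

variable {k Ω : Type u} [Field k] [Field Ω] [Algebra k Ω] {v : RVal Ω}
  {P C E : IntermediateField k Ω} {m : ℕ} {u : ℕ → Fin m → Ω} {p : ℕ}

/-! ## Polynomials of bounded degree -/

section Dg

variable {Q : Type*} [Field Q] {ι : Type*} [Fintype ι]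

theorem dg_mono {D D' : ℝ} (h : D ≤ D') : dg Q ι D ≤ dg Q ι D' := fun _ hf =>
  Key.mem_dg.2 fun I hI => (Key.mem_dg.1 hf I hI).trans h

theorem single_mem_dg {D : ℝ} {I : ι → ℕ} (h : ∑ l, (I l : ℝ) ≤ D) (c : Q) :
    Finsupp.single I c ∈ dg Q ι D := by
  rw [Key.mem_dg]
  intro J hJ
  have h1 : J = I := Finset.mem_singleton.1 (Finsupp.support_single_subset hJ)
  rw [h1]
  exact h

theorem hd_mem_dg {D : ℝ} {f : (ι → ℕ) →₀ Q} (hf : f ∈ dg Q ι D) (F : ι → ℕ) :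
    hd F f ∈ dg Q ι D := by
  rw [hd, Finsupp.linearCombination_apply]
  refine sum_mem fun I hI => Submodule.smul_mem _ _ (single_mem_dg ?_ _)
  refine le_trans (Finset.sum_le_sum fun l _ => ?_) (Key.mem_dg.1 hf I hI)
  exact_mod_cast Nat.sub_le _ _

theorem exists_dg (f : (ι → ℕ) →₀ Q) : ∃ D : ℝ, 0 < D ∧ f ∈ dg Q ι D := by
  refine ⟨1 + ∑ I ∈ f.support, ∑ l, (I l : ℝ), by positivity, Key.mem_dg.2 fun I hI => ?_⟩
  have h1 := Finset.single_le_sum (f := fun I : ι → ℕ => ∑ l, (I l : ℝ))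
    (fun I _ => Finset.sum_nonneg fun l _ => Nat.cast_nonneg _) hI
  exact h1.trans (by linarith)

variable [Algebra Q Ω]

theorem ev_eq_sum (a : ι → Ω) (f : (ι → ℕ) →₀ Q) :
    ev a f = ∑ I ∈ f.support, algebraMap Q Ω (f I) * ∏ l, a l ^ I l := by
  rw [ev, Finsupp.linearCombination_apply, Finsupp.sum]
  exact Finset.sum_congr rfl fun I _ => Algebra.smul_def _ _

/-- The `p`-th power. -/
theorem ev_pow (p : ℕ) [Fact p.Prime] [CharP Ω p] (a : ι → Ω) {D : ℝ} {f : (ι → ℕ) →₀ Q}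
    (hf : f ∈ dg Q ι D) : ∃ g ∈ dg Q ι (p * D), ev a g = ev a f ^ p := by
  refine ⟨∑ I ∈ f.support, Finsupp.single (fun l => p * I l) (f I ^ p), sum_mem fun I hI =>
    single_mem_dg ?_ _, ?_⟩
  · push_cast
    rw [← Finset.mul_sum]
    exact mul_le_mul_of_nonneg_left (Key.mem_dg.1 hf I hI) (Nat.cast_nonneg _)
  · rw [map_sum, ev_eq_sum, sum_pow_char]
    refine Finset.sum_congr rfl fun I _ => ?_
    rw [Key.ev_single, mul_pow, map_pow, ← Finset.prod_pow]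
    congr 1
    refine Finset.prod_congr rfl fun l _ => ?_
    rw [← pow_mul, mul_comm]

/-- The `p`-th root. -/
theorem ev_root (p : ℕ) [Fact p.Prime] [CharP Ω p] (hQ : ∀ x : Q, ∃ y, y ^ p = x) {a b : ι → Ω}
    (hab : ∀ l, b l ^ p = a l) {D : ℝ} {f : (ι → ℕ) →₀ Q} (hf : f ∈ dg Q ι D) :
    ∃ g ∈ dg Q ι D, ev b g ^ p = ev a f := by
  choose r hr using hQ
  refine ⟨∑ I ∈ f.support, Finsupp.single I (r (f I)), sum_mem fun I hI =>
    single_mem_dg (Key.mem_dg.1 hf I hI) _, ?_⟩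
  rw [map_sum, ev_eq_sum, sum_pow_char]
  refine Finset.sum_congr rfl fun I _ => ?_
  rw [Key.ev_single, mul_pow, ← map_pow, hr, ← Finset.prod_pow]
  congr 1
  refine Finset.prod_congr rfl fun l _ => ?_
  rw [← pow_mul, mul_comm, pow_mul, hab]

end Dg

/-! ## The filtration -/

section Filt

/-- The elements `ev (u n) f`, `f` of degree `≤ D p^n` over `P`. -/
def dgA (P E : IntermediateField k Ω) (hr : ∀ n l, u (n + 1) l ^ p = u n l) (D : ℝ) :
    Submodule k E where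
  carrier := {e | ∃ n, ∃ f ∈ dg P (Fin m) (D * p ^ n), (e : Ω) = ev (u n) f}
  add_mem' := by
    rintro x y ⟨n, f, hf, hx⟩ ⟨n', f', hf', hy⟩
    refine ⟨n + n', lf (p ^ n') f + lf (p ^ n) f', add_mem ?_ ?_, ?_⟩
    · have h1 := Key.lf_mem_dg hf (p ^ n')
      rwa [show ((p ^ n' : ℕ) : ℝ) * (D * p ^ n) = D * p ^ (n + n') by push_cast; ring] at h1
    · have h1 := Key.lf_mem_dg hf' (p ^ n)
      rwa [show ((p ^ n : ℕ) : ℝ) * (D * p ^ n') = D * p ^ (n + n') by push_cast; ring] at h1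
    · rw [map_add, ev_lift hr, add_comm n n', ev_lift hr, ← hx, ← hy]
      rfl
  zero_mem' := ⟨0, 0, zero_mem _, by rw [map_zero]; rfl⟩
  smul_mem' := by
    rintro a x ⟨n, f, hf, hx⟩
    refine ⟨n, (⟨algebraMap k Ω a, P.algebraMap_mem a⟩ : P) • f, Submodule.smul_mem _ _ hf, ?_⟩
    rw [map_smul, ← hx]
    change a • (x : Ω) = _
    rw [Algebra.smul_def, Algebra.smul_def]
    rfl

variable {hr : ∀ n l, u (n + 1) l ^ p = u n l}

theorem mem_dgA {D : ℝ} {e : E} :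
    e ∈ dgA P E hr D ↔ ∃ n, ∃ f ∈ dg P (Fin m) (D * p ^ n), (e : Ω) = ev (u n) f := Iff.rfl

/-- The representation at a fine level. -/
theorem dgA_level {D : ℝ} {e : E} (he : e ∈ dgA P E hr D) (n : ℕ) :
    ∃ j, ∃ f ∈ dg P (Fin m) (D * p ^ (n + j)), (e : Ω) = ev (u (n + j)) f := by
  obtain ⟨j, f, hf, h1⟩ := he
  refine ⟨j, lf (p ^ n) f, ?_, ?_⟩
  · have h2 := Key.lf_mem_dg hf (p ^ n)
    rwa [show ((p ^ n : ℕ) : ℝ) * (D * p ^ j) = D * p ^ (n + j) by push_cast; ring] at h2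
  · rw [h1, add_comm n j, ev_lift hr]

theorem dgA_mono {D D' : ℝ} (h : D ≤ D') : dgA P E hr D ≤ dgA P E hr D' := by
  rintro e ⟨n, f, hf, h1⟩
  exact ⟨n, f, dg_mono (mul_le_mul_of_nonneg_right h (by positivity)) hf, h1⟩

variable [hp : Fact p.Prime] [CharP Ω p]

/-- **The filtration by the degree.** -/
theorem degF_dgA (hP : ∀ a ∈ P, ∃ b ∈ P, b ^ p = a) (hPE : P ≤ E) (hu : ∀ n l, u n l ∈ E)
    (hd' : DnsS v (AU P u) E) : DegF v E p (dgA P E hr) := by
  have hP' : ∀ x : P, ∃ y : P, y ^ p = x := by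
    rintro ⟨a, ha⟩
    obtain ⟨b, hb, h1⟩ := hP a ha
    exact ⟨⟨b, hb⟩, Subtype.ext h1⟩
  refine ⟨fun D D' _ h => dgA_mono h, fun e => ?_, fun D hD f hf => ?_, fun D hD f hf => ?_⟩
  · obtain ⟨_, ⟨n, f, rfl⟩, hfE, h1⟩ := hd' e e.2 0
    obtain ⟨D, hD, hf⟩ := exists_dg f
    refine ⟨D, hD, ⟨_, hfE⟩, ⟨n, f, dg_mono ?_ hf, rfl⟩, h1⟩
    exact le_mul_of_one_le_right hD.le (one_le_pow₀ (by exact_mod_cast hp.out.one_lt.le))
  · obtain ⟨n, g, hg, h1⟩ := hf
    obtain ⟨g', hg', h2⟩ := ev_pow p (u n) hg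
    refine ⟨n, g', ?_, ?_⟩
    · rwa [mul_assoc]
    · rw [h2, ← h1]
      rfl
  · obtain ⟨n, g, hg, h1⟩ := hf
    obtain ⟨g', hg', h2⟩ := ev_root p hP' (hr n) hg
    refine ⟨⟨ev (u (n + 1)) g', ev_mem hPE (hu _) _⟩, ⟨n + 1, g', ?_, rfl⟩, Subtype.ext ?_⟩
    · rwa [show D * (p : ℝ) ^ (n + 1) = p * D * p ^ n by rw [pow_succ]; ring]
    · change ev (u (n + 1)) g' ^ p = (f : Ω)
      rw [h2, h1]

end Filt

/-! ## The operators -/

section Op

variable [Fact (Ctx0 k v)] {hr : ∀ n l, u (n + 1) l ^ p = u n l} [hp : Fact p.Prime]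

/-- The operators preserve the degree and kill the elements of small degree. -/
theorem opT_deg {φ : Opr v E} (hφ : φ ∈ opT p v P E u) :
    (∀ D, 0 < D → ∀ f ∈ dgA P E hr D, (φ : Module.End k E) f ∈ dgA P E hr D) ∧
      ∃ δ, 0 < δ ∧ ∀ f ∈ dgA P E hr δ, (φ : Module.End k E) f = 0 := by
  induction hφ using Submodule.span_induction with
  | mem φ h =>
    obtain ⟨n, F, ⟨l, hl⟩, -, hφ⟩ := h
    have hp0 : (0 : ℝ) < p := by exact_mod_cast hp.out.pos
    refine ⟨fun D hD f hf => ?_, 1 / (2 * p ^ n), by positivity, fun f hf => ?_⟩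
    · obtain ⟨j, g, hg, h1⟩ := dgA_level hf n
      refine ⟨n + j, hd (fun l => p ^ j * F l) g, hd_mem_dg hg _, ?_⟩
      rw [← hφ j g, ← h1, fn_of_mem φ f.2]
    · obtain ⟨j, g, hg, h1⟩ := dgA_level hf n
      have h2 : hd (fun l => p ^ j * F l) g = 0 := by
        refine Key.hd_dg_eq_zero hg ?_
        have h3 : ((p ^ j * F l : ℕ) : ℝ) ≤ ∑ l, ((p ^ j * F l : ℕ) : ℝ) :=
          Finset.single_le_sum (f := fun l => ((p ^ j * F l : ℕ) : ℝ))
            (fun _ _ => Nat.cast_nonneg _) (Finset.mem_univ l)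
        refine lt_of_lt_of_le ?_ h3
        have h4 : (1 : ℝ) ≤ F l := by exact_mod_cast Nat.one_le_iff_ne_zero.2 hl
        have h5 : (1 : ℝ) / (2 * p ^ n) * p ^ (n + j) = p ^ j / 2 := by
          rw [pow_add]
          field_simp
        rw [h5]
        push_cast
        have h6 : (0 : ℝ) < p ^ j := by positivity
        nlinarith
      have h3 := hφ j g
      rw [h2, map_zero, ← h1, fn_of_mem φ f.2] at h3
      exact Subtype.ext h3
  | zero =>
    refine ⟨fun D hD f hf => ?_, 1, one_pos, fun f hf => rfl⟩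
    exact zero_mem _
  | add φ ψ _ _ h1 h2 =>
    obtain ⟨h1, δ, hδ, h3⟩ := h1
    obtain ⟨h2, δ', hδ', h4⟩ := h2
    refine ⟨fun D hD f hf => add_mem (h1 D hD f hf) (h2 D hD f hf), min δ δ', lt_min hδ hδ',
      fun f hf => ?_⟩
    change (φ : Module.End k E) f + (ψ : Module.End k E) f = 0
    rw [h3 f (dgA_mono (min_le_left _ _) hf), h4 f (dgA_mono (min_le_right _ _) hf), add_zero]
  | smul a φ _ h1 =>
    obtain ⟨h1, δ, hδ, h3⟩ := h1
    refine ⟨fun D hD f hf => Submodule.smul_mem _ a (h1 D hD f hf), δ, hδ, fun f hf => ?_⟩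
    change a • (φ : Module.End k E) f = 0
    rw [h3 f hf, smul_zero]

variable [CharP k p] [CharP Ω p] [PerfectRing k p]

/-- **`V'` for the operators of the closure of `P[w^(1/p^∞)]`.** -/
theorem nsd_opT (h : Oper p v C E (opT p v P E u)) (hr : ∀ n l, u (n + 1) l ^ p = u n l)
    (hP : ∀ a ∈ P, ∃ b ∈ P, b ^ p = a) (hPE : P ≤ E) (hu : ∀ n l, u n l ∈ E)
    (hd' : DnsS v (AU P u) E) : NSD p h :=
  nsd_of_deg p h (degF_dgA (hr := hr) hP hPE hu hd') fun _ hφ => opT_deg hφ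

end Op

end Pool.Agent.TWC
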