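import Pool.Agent.Lib.TWC.IsoD

/-!
# TANK W, class C: the generators of the operators of `B[w^(1/p^∞)]`

`D` = the operators `IsD p B u φ n F`, `F < p^n`, `F ≠ 0`: they commute, `φ ^ p = 0`, and almost all
of them are small at a given element (`op_gen`: `OpGen v (opT p v B E u) D`).
-/

set_option autoImplicit false

open Polynomial

namespace Pool.Agent.TWC

open Pool.Agent.H15JM (RVal)
open Pool.Agent.LU1 (VPos adj)
open Pool.Agent.D2 (Ctx0)
open Pool.Agent.D2P (clI mem_clI)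
open Pool.Agent.TWM
open Pool.Agent.TWC.Key (hd ev sp lf)

universe u

variable {k Ω : Type u} [Field k] [Field Ω] [Algebra k Ω] {v : RVal Ω}
  {B E : IntermediateField k Ω} {m : ℕ} {u : ℕ → Fin m → Ω} {p : ℕ}

/-- `p ∣ C(p G, G)`. -/
theorem choose_mul_self (p : ℕ) [hp : Fact p.Prime] {G : ℕ} (hG : G ≠ 0) :
    (p * G).choose G ≡ 0 [ZMOD p] := by
  obtain ⟨e, G', hG', rfl⟩ := Nat.exists_eq_pow_mul_and_not_dvd hG p hp.out.ne_one
  have h1 := Key.choose_not_dvd p (e + 1) G' (p ^ e * G') (fun hd => by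
    rw [pow_succ] at hd
    exact hG' ((Nat.mul_dvd_mul_iff_left (pow_pos hp.out.pos e)).1 hd))
  have h2 : p * (p ^ e * G') = p ^ (e + 1) * G' := by ring
  rw [h2]
  exact h1

section Ops

variable [hp : Fact p.Prime] [CharP Ω p] [hcx : Fact (Ctx0 k v)]

omit hp [CharP Ω p] in
theorem fn_opMul (φ ψ : Opr v E) {x : Ω} (hx : x ∈ E) : fn (φ * ψ) x = fn φ (fn ψ x) := by
  rw [fn_of_mem (φ * ψ) hx, fn_of_mem ψ hx, fn_of_mem φ (SetLike.coe_mem _)]
  rfl

omit hp [CharP Ω p] in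
/-- The operator at an element of any level. -/
theorem IsD.apply (hr : ∀ n l, u (n + 1) l ^ p = u n l) {φ : Opr v E} {n : ℕ} {F : Fin m → ℕ}
    (h : IsD p B u φ n F) (N : ℕ) (f : (Fin m → ℕ) →₀ B) :
    fn φ (ev (u N) f) = ev (u (n + N)) (hd (fun l => p ^ N * F l) (lf (p ^ n) f)) := by
  rw [← h N, add_comm n N, ev_lift hr]

omit hp [CharP Ω p] in
theorem IsD.unique (hr : ∀ n l, u (n + 1) l ^ p = u n l) (hdE : DnsS v (AU B u) E)
    {φ ψ : Opr v E} {n : ℕ} {F : Fin m → ℕ} (h : IsD p B u φ n F) (h' : IsD p B u ψ n F) :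
    φ = ψ := by
  refine Opr.ext_dense hdE ?_
  rintro _ ⟨N, f, rfl⟩ -
  rw [h.apply hr, h'.apply hr]

omit hp [CharP Ω p] in
/-- Finer level. -/
theorem IsD.finer {φ : Opr v E} {n : ℕ} {F : Fin m → ℕ} (h : IsD p B u φ n F) (i : ℕ) :
    IsD p B u φ (n + i) (fun l => p ^ i * F l) := by
  intro j f
  have h1 := h (i + j) f
  rw [← add_assoc] at h1
  rw [h1]
  congr 3
  funext l
  rw [← mul_assoc, ← pow_add, add_comm j i]

/-- Coarser level. -/
theorem IsD.coarser (hr : ∀ n l, u (n + 1) l ^ p = u n l) {φ : Opr v E} {n N : ℕ}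
    {F G : Fin m → ℕ} (h : IsD p B u φ n F) (hG : ∀ l, p ^ N * F l = p ^ n * G l) :
    IsD p B u φ N G := by
  have _ := charP_sub (Ω := Ω) p B
  intro j f
  rw [h.apply hr]
  have h2 : (fun l => p ^ (N + j) * F l) = fun l => p ^ n * (p ^ j * G l) := by
    funext l
    rw [pow_add, mul_comm (p ^ N), mul_assoc, hG, mul_left_comm]
  rw [h2, Key.hd_lf p n, add_comm n (N + j), ev_lift hr]

omit hp [CharP Ω p] in
/-- The operators commute. -/
theorem IsD.comm (hr : ∀ n l, u (n + 1) l ^ p = u n l) (hdE : DnsS v (AU B u) E) {φ ψ : Opr v E} {n n' : ℕ} {F G : Fin m → ℕ}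
    (h : IsD p B u φ n F) (h' : IsD p B u ψ n' G) : φ * ψ = ψ * φ := by
  refine mul_of_dense hdE ?_
  rintro _ ⟨N, f, rfl⟩ ha
  rw [fn_opMul φ ψ ha]
  have e1 : ev (u N) f = ev (u (n + (n' + N))) (lf (p ^ (n + n')) f) := by
    rw [← add_assoc, add_comm (n + n') N, ev_lift hr]
  have e2 : n + (n' + N) = n' + (n + N) := by ring
  rw [e1, h (n' + N)]
  rw [e2, h' (n + N), h' (n + N), ← e2, h (n' + N), Key.hd_comm]

/-- `φ ^ p = 0`. -/
theorem IsD.pow_eq_zero (hr : ∀ n l, u (n + 1) l ^ p = u n l) (hBE : B ≤ E)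
    (hu : ∀ n l, u n l ∈ E) (hdE : DnsS v (AU B u) E) {φ : Opr v E} {n : ℕ} {F : Fin m → ℕ}
    (h : IsD p B u φ n F) (hF : ∃ l, F l ≠ 0) : φ ^ p = 0 := by
  have _ := charP_sub (Ω := Ω) p B
  have key : ∀ (j N : ℕ) (f : (Fin m → ℕ) →₀ B), ∃ c : B,
      fn (φ ^ j) (ev (u (n + N)) f) = c • ev (u (n + N)) (hd (fun l => j * (p ^ N * F l)) f) := by
    intro j
    induction j with
    | zero =>
      intro N f
      refine ⟨1, ?_⟩
      have h1 : ev (u (n + N)) f ∈ E := ev_mem hBE (hu _) f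
      have h2 : (fun l => 0 * (p ^ N * F l)) = fun _ : Fin m => 0 := funext fun l => zero_mul _
      rw [pow_zero, one_smul, h2, Key.hd_zero, fn_of_mem _ h1]
      rfl
    | succ j ih =>
      intro N f
      obtain ⟨c, hc⟩ := ih N (hd (fun l => p ^ N * F l) f)
      refine ⟨c * ∏ l, (((p ^ N * F l + j * (p ^ N * F l)).choose (p ^ N * F l) : ℕ) : B), ?_⟩
      rw [pow_succ, fn_opMul _ _ (ev_mem hBE (hu _) f), h N, hc, Key.hd_hd, map_smul, mul_smul]
      congr 5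
      funext l
      ring
  refine Opr.ext_dense hdE ?_
  rintro _ ⟨N, f, rfl⟩ -
  rw [fn_opZero]
  have e1 : ev (u N) f = ev (u (n + N)) (lf (p ^ n) f) := by
    rw [add_comm n N, ev_lift hr]
  obtain ⟨q, hq⟩ := Nat.exists_eq_succ_of_ne_zero hp.out.ne_zero
  rw [e1]
  generalize lf (p ^ n) f = g
  obtain ⟨c, hc⟩ := key q N (hd (fun l => p ^ N * F l) g)
  have h3 : fn (φ ^ p) (ev (u (n + N)) g) = fn (φ ^ q) (fn φ (ev (u (n + N)) g)) := by
    rw [← fn_opMul _ _ (ev_mem hBE (hu _) g), ← pow_succ]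
    congr 2
  rw [h3, h N, hc, Key.hd_hd]
  obtain ⟨l, hl⟩ := hF
  have h4 : (∏ l, (((p ^ N * F l + q * (p ^ N * F l)).choose (p ^ N * F l) : ℕ) : B)) = 0 := by
    refine Finset.prod_eq_zero (Finset.mem_univ l) ?_
    have h5 : p ^ N * F l + q * (p ^ N * F l) = p * (p ^ N * F l) := by
      generalize p ^ N * F l = y
      rw [hq, Nat.succ_mul, add_comm]
    rw [h5]
    have h6 := Key.cast_of_modEq (P := B) (p := p) (a := (p * (p ^ N * F l)).choose (p ^ N * F l))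
      (b := 0) (by
        have := choose_mul_self p (G := p ^ N * F l)
          (mul_ne_zero (pow_ne_zero _ hp.out.ne_zero) hl)
        simpa using this)
    rw [h6, Nat.cast_zero]
  rw [h4, zero_smul, map_zero, smul_zero]

/-- Almost all the operators are small at a given element. -/
theorem op_fin (hr : ∀ n l, u (n + 1) l ^ p = u n l) (hdE : DnsS v (AU B u) E) (e : E) (b : ℝ) :
    {φ : Opr v E | (∃ (n : ℕ) (F : Fin m → ℕ), (∃ l, F l ≠ 0) ∧ (∀ l, F l < p ^ n) ∧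
      IsD p B u φ n F) ∧ ¬ v.Ge b (((φ : Module.End k E) e : E) : Ω)}.Finite := by
  classical
  have _ := charP_sub (Ω := Ω) p B
  obtain ⟨_, ⟨N, f, rfl⟩, hfE, h1⟩ := hdE e e.2 b
  have h2 : (⋃ G ∈ (Fintype.piFinset fun _ : Fin m => Finset.range (p ^ N) :
      Finset (Fin m → ℕ)), {φ : Opr v E | IsD p B u φ N G}).Finite :=
    Set.Finite.biUnion (Finset.finite_toSet _) fun G _ =>
      Set.Subsingleton.finite fun φ hφ ψ hψ => IsD.unique hr hdE hφ hψ
  refine h2.subset ?_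
  rintro φ ⟨⟨n, F, -, hF, hφ⟩, h3⟩
  have h4 : fn φ (ev (u N) f) ≠ 0 := by
    intro h0
    apply h3
    have h5 := fn_near φ e.2 hfE h1
    rw [h0, sub_zero, fn_of_mem φ e.2] at h5
    exact h5
  have h5 : ∀ l, p ^ n ∣ p ^ N * F l := by
    by_contra hno
    push Not at hno
    apply h4
    rw [hφ.apply hr, Key.hd_lf_eq_zero p n _ hno, map_zero]
  choose G hG using h5
  rw [Set.mem_iUnion₂]
  refine ⟨G, ?_, hφ.coarser hr hG⟩
  rw [Fintype.mem_piFinset]
  intro l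
  rw [Finset.mem_range]
  have h6 : p ^ n * G l < p ^ n * p ^ N := by
    rw [← hG l, mul_comm (p ^ n)]
    exact Nat.mul_lt_mul_of_pos_left (hF l) (pow_pos hp.out.pos N)
  exact lt_of_mul_lt_mul_left h6 (Nat.zero_le _)

/-- **The generators of `opT`.** -/
theorem op_gen (hr : ∀ n l, u (n + 1) l ^ p = u n l) (hBE : B ≤ E) (hu : ∀ n l, u n l ∈ E)
    (hdE : DnsS v (AU B u) E) :
    OpGen v (opT p v B E u) {φ : Opr v E | ∃ (n : ℕ) (F : Fin m → ℕ), (∃ l, F l ≠ 0) ∧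
      (∀ l, F l < p ^ n) ∧ IsD p B u φ n F} where
  span := rfl
  comm := by
    rintro φ ⟨n, F, -, -, h⟩ ψ ⟨n', G, -, -, h'⟩
    exact h.comm hr hdE h'
  nil := by
    rintro φ ⟨n, F, hF, -, h⟩
    exact ⟨p, h.pow_eq_zero hr hBE hu hdE hF⟩
  fin := op_fin hr hdE

end Ops

end Pool.Agent.TWC
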