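import Pool.Agent.Lib.TWC.OpGenW

/-!
# TANK W, class C: the axioms of `Oper` for the operators of `P[w^(1/p^∞)]`

* `opT_mul`, `opT_tw`, `opT_one`, `opT_lin`: `opT p v P E u` is closed under composition and the
  Frobenius twist, kills `1`, and is linear over the closure of `P(u 0)`;
* `opT_oper`: `Oper p v C E (opT p v P E u)`.
-/

set_option autoImplicit false

open Polynomial

namespace Pool.Agent.TWC

open Pool.Agent.H15JM (RVal)
open Pool.Agent.LU1 (VPos adj)
open Pool.Agent.D2 (Ctx0)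
open Pool.Agent.D2P (clI mem_clI)
open Pool.Agent.TWM
open Pool.Agent.TWC.Key (hd ev sp lf)

universe u

variable {k Ω : Type u} [Field k] [Field Ω] [Algebra k Ω] {v : RVal Ω}
  {P C E : IntermediateField k Ω} {m : ℕ} {u : ℕ → Fin m → Ω} {p : ℕ}

/-! ## Binomial coefficients -/

/-- A carry. -/
theorem choose_carry2 (p : ℕ) [Fact p.Prime] {N a b : ℕ} (ha : a < p ^ N) (hb : b < p ^ N)
    (hab : p ^ N ≤ a + b) : (a + b).choose a ≡ 0 [ZMOD p] := by
  have h1 := Key.choose_add_lt p N 1 (a + b - p ^ N) a (by omega) ha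
  rw [show p ^ N * 1 + (a + b - p ^ N) = a + b by omega,
    Nat.choose_eq_zero_of_lt (show a + b - p ^ N < a by omega)] at h1
  exact h1

/-- The binomial coefficients at a finer level. -/
theorem choose_level (p : ℕ) [Fact p.Prime] (j a b : ℕ) :
    (p ^ j * a).choose (p ^ j * b) ≡ a.choose b [ZMOD p] := by
  have h1 := Key.choose_pow_mul p j a 0 b (pow_pos (Fact.out : p.Prime).pos j)
  rwa [Nat.add_zero] at h1

/-! ## The Frobenius on the coefficients -/

section Fr

variable {Q : Type*} [Field Q] {ι : Type*} [Fintype ι] (p : ℕ) [Fact p.Prime] [CharP Q p]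

/-- The Frobenius on the coefficients. -/
noncomputable def frF : ((ι → ℕ) →₀ Q) →+ ((ι → ℕ) →₀ Q) :=
  Finsupp.mapRange.addMonoidHom (frobenius Q p : Q →+ Q)

omit [Fintype ι] in
theorem frF_single (I : ι → ℕ) (c : Q) :
    frF p (Finsupp.single I c) = Finsupp.single I (c ^ p) := by
  change Finsupp.mapRange (frobenius Q p) (map_zero _) (Finsupp.single I c) = _
  rw [Finsupp.mapRange_single, frobenius_def]

theorem hd_frF (F : ι → ℕ) (f : (ι → ℕ) →₀ Q) : hd F (frF p f) = frF p (hd F f) := by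
  induction f using Finsupp.induction_linear with
  | zero => simp only [map_zero]
  | add f g hf hg => simp only [map_add, hf, hg]
  | single I c =>
    rw [frF_single, Key.hd_single, Key.hd_single, frF_single, mul_pow]
    congr 2
    rw [← Finset.prod_pow]
    refine Finset.prod_congr rfl fun l _ => ?_
    have h1 := map_natCast (frobenius Q p) ((I l).choose (F l))
    rw [frobenius_def] at h1
    exact h1.symm

theorem ev_frF {Ω : Type*} [Field Ω] [Algebra Q Ω] [CharP Ω p] {a b : ι → Ω}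
    (h : ∀ l, b l ^ p = a l) (f : (ι → ℕ) →₀ Q) : ev a (frF p f) = ev b f ^ p := by
  induction f using Finsupp.induction_linear with
  | zero =>
    rw [map_zero, map_zero, map_zero, zero_pow (Fact.out : p.Prime).ne_zero]
  | add f g hf hg => rw [map_add, map_add, hf, hg, map_add, add_pow_char]
  | single I c =>
    rw [frF_single, Key.ev_single, Key.ev_single, mul_pow, map_pow, ← Finset.prod_pow]
    congr 1
    refine Finset.prod_congr rfl fun l _ => ?_
    rw [← h, ← pow_mul, ← pow_mul, mul_comm]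

end Fr

section Ops

variable [hp : Fact p.Prime] [CharP k p] [CharP Ω p] [hcx : Fact (Ctx0 k v)]

/-! ## The axioms -/

omit [CharP k p] hp [CharP Ω p] in
/-- The operators kill `1`. -/
theorem opT_one {φ : Opr v E} (hφ : φ ∈ opT p v P E u) : (φ : Module.End k E) 1 = 0 := by
  induction hφ using Submodule.span_induction with
  | mem φ h =>
    obtain ⟨n, F, ⟨l, hl⟩, -, hφ⟩ := h
    have h1 := hφ 0 (Finsupp.single (fun _ => 0) 1)
    have h2 : hd (fun l => p ^ 0 * F l) (Finsupp.single (fun _ : Fin m => 0) (1 : P)) = 0 := by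
      refine Key.hd_eq_zero fun I hI => ⟨l, ?_⟩
      have h3 : I = fun _ => 0 := Finset.mem_singleton.1 (Finsupp.support_single_subset hI)
      rw [h3, pow_zero, one_mul]
      exact Nat.pos_of_ne_zero hl
    rw [h2, map_zero, Key.ev_single, map_one, one_mul] at h1
    have h4 : (∏ l, u (n + 0) l ^ 0) = (1 : Ω) := by simp
    rw [h4, fn_of_mem φ (one_mem E)] at h1
    exact Subtype.ext h1
  | zero => rfl
  | add φ ψ _ _ h1 h2 =>
    change (φ : Module.End k E) 1 + (ψ : Module.End k E) 1 = 0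
    rw [h1, h2, add_zero]
  | smul a φ _ h1 =>
    change a • (φ : Module.End k E) 1 = 0
    rw [h1, smul_zero]

/-- The product of two generators. -/
theorem IsD.comp_mem (hr : ∀ n l, u (n + 1) l ^ p = u n l) (hPE : P ≤ E) (hu : ∀ n l, u n l ∈ E)
    (hdE : DnsS v (AU P u) E) {φ ψ : Opr v E} {N : ℕ} {F G : Fin m → ℕ} (hF0 : ∃ l, F l ≠ 0)
    (hF : ∀ l, F l < p ^ N) (hG : ∀ l, G l < p ^ N) (hφ : IsD p P u φ N F)
    (hψ : IsD p P u ψ N G) : φ * ψ ∈ opT p v P E u := by
  have _ := charP_sub (Ω := Ω) p P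
  set c : ℕ := ∏ l, (G l + F l).choose (G l) with hc
  -- the product at a fine level
  have key : ∀ (j : ℕ) (f : (Fin m → ℕ) →₀ P), fn (φ * ψ) (ev (u (N + j)) f) =
      (c : Ω) * ev (u (N + j)) (hd (fun l => p ^ j * (G l + F l)) f) := by
    intro j f
    have h2 : (fun l => p ^ j * (G l + F l)) = fun l => p ^ j * G l + p ^ j * F l :=
      funext fun l => mul_add _ _ _
    rw [fn_opMul _ _ (ev_mem hPE (hu _) f), hψ j f, hφ j, Key.hd_hd, map_smul, Algebra.smul_def,
      h2]
    congr 1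
    rw [map_prod, hc, Nat.cast_prod]
    refine Finset.prod_congr rfl fun l _ => ?_
    rw [map_natCast, ← mul_add]
    exact Key.cast_of_modEq (p := p) (choose_level p j (G l + F l) (G l))
  by_cases hcp : p ∣ c
  · have h1 : φ * ψ = 0 := by
      refine Opr.ext_dense hdE ?_
      rintro _ ⟨M, f, rfl⟩ -
      have e1 : ev (u M) f = ev (u (N + M)) (lf (p ^ N) f) := by
        rw [add_comm N M, ev_lift hr]
      rw [fn_opZero, e1, key, (CharP.cast_eq_zero_iff Ω p c).2 hcp, zero_mul]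
    rw [h1]
    exact zero_mem _
  · have hck : (c : k) ≠ 0 := fun h => hcp ((CharP.cast_eq_zero_iff k p c).1 h)
    have h1 : φ * ψ = (c : k) • ((c : k)⁻¹ • (φ * ψ)) := by
      rw [smul_smul, mul_inv_cancel₀ hck, one_smul]
    rw [h1]
    refine Submodule.smul_mem _ _ (Submodule.subset_span ⟨N, fun l => G l + F l, ?_, ?_, ?_⟩)
    · obtain ⟨l, hl⟩ := hF0
      refine ⟨l, ?_⟩
      change G l + F l ≠ 0
      omega
    · intro l
      by_contra hno
      apply hcp
      have h2 := choose_carry2 p (hG l) (hF l) (not_lt.1 hno)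
      have h3 : p ∣ (G l + F l).choose (G l) := by
        exact_mod_cast (Int.modEq_zero_iff_dvd.1 h2)
      exact h3.trans (Finset.dvd_prod_of_mem _ (Finset.mem_univ l))
    · intro j f
      rw [fn_opSmul, key, Algebra.smul_def, map_inv₀, map_natCast, ← mul_assoc,
        inv_mul_cancel₀, one_mul]
      intro h
      exact hcp ((CharP.cast_eq_zero_iff Ω p c).1 h)

/-- Closed under composition. -/
theorem opT_mul (hr : ∀ n l, u (n + 1) l ^ p = u n l) (hPE : P ≤ E) (hu : ∀ n l, u n l ∈ E)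
    (hdE : DnsS v (AU P u) E) {φ ψ : Opr v E} (hφ : φ ∈ opT p v P E u)
    (hψ : ψ ∈ opT p v P E u) : φ * ψ ∈ opT p v P E u := by
  induction hφ using Submodule.span_induction with
  | zero => rw [zero_mul]; exact zero_mem _
  | add φ φ' _ _ h1 h2 => rw [add_mul]; exact add_mem h1 h2
  | smul a φ _ h1 => rw [smul_mul_assoc]; exact Submodule.smul_mem _ a h1
  | mem φ h =>
    induction hψ using Submodule.span_induction with
    | zero => rw [mul_zero]; exact zero_mem _
    | add ψ ψ' _ _ h1 h2 => rw [mul_add]; exact add_mem h1 h2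
    | smul a ψ _ h1 => rw [mul_smul_comm]; exact Submodule.smul_mem _ a h1
    | mem ψ h' =>
      obtain ⟨n, F, ⟨l, hl⟩, hF, hφ⟩ := h
      obtain ⟨n', G, -, hG, hψ⟩ := h'
      have hφ' := hφ.finer n'
      have hψ' := hψ.finer n
      rw [add_comm n' n] at hψ'
      refine IsD.comp_mem hr hPE hu hdE ⟨l, ?_⟩ (fun l => lt_level hF l) (fun l => ?_) hφ' hψ'
      · exact mul_ne_zero (pow_ne_zero _ hp.out.ne_zero) hl
      · rw [add_comm n n']
        exact lt_level hG l

omit [CharP k p] in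
/-- The Frobenius twist of a generator. -/
theorem IsD.tw2 (hr : ∀ n l, u (n + 1) l ^ p = u n l) (hdE : DnsS v (AU P u) E) {φ φ' : Opr v E}
    {n : ℕ} {F : Fin m → ℕ} (hφ : IsD p P u φ n F) (hφ' : IsD p P u φ' (n + 1) F) :
    ∀ x : E, (φ : Module.End k E) (x ^ p) = ((φ' : Module.End k E) x) ^ p := by
  have _ := charP_sub (Ω := Ω) p P
  refine pow_of_dense p hdE ?_
  rintro _ ⟨M, f, rfl⟩ -
  have e1 : ev (u M) f = ev (u (n + 1 + M)) (lf (p ^ (n + 1)) f) := by
    rw [add_comm (n + 1) M, ev_lift hr]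
  rw [e1, hφ' M]
  generalize lf (p ^ (n + 1)) f = g
  have h1 : ∀ g : (Fin m → ℕ) →₀ P, ev (u (n + M)) (frF p g) = ev (u (n + 1 + M)) g ^ p :=
    fun g => ev_frF p (fun l => by rw [show n + 1 + M = n + M + 1 by ring]; exact hr _ l) g
  rw [← h1, hφ M, ← h1, hd_frF]

/-- Closed under the Frobenius twist. -/
theorem opT_tw [PerfectRing k p] (hc : CompleteV v) (hr : ∀ n l, u (n + 1) l ^ p = u n l)
    (hn : NBd p v P u) (hE : Cld v E) (hPE : P ≤ E) (hu : ∀ n l, u n l ∈ E)
    (hdE : DnsS v (AU P u) E) {φ : Opr v E} (hφ : φ ∈ opT p v P E u) :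
    ∃ φ' ∈ opT p v P E u, ∀ x : E,
      (φ : Module.End k E) (x ^ p) = ((φ' : Module.End k E) x) ^ p := by
  have _ : CharP E p := charP_sub (Ω := Ω) p E
  induction hφ using Submodule.span_induction with
  | mem φ h =>
    obtain ⟨n, F, hl, hF, hφ⟩ := h
    have hF' : ∀ l, F l < p ^ (n + 1) := fun l =>
      (hF l).trans_le (Nat.pow_le_pow_right hp.out.pos (Nat.le_succ n))
    obtain ⟨φ', hφ'⟩ := exists_D hc hr hn hE hPE hu hdE (n + 1) F hF'
    exact ⟨φ', Submodule.subset_span ⟨n + 1, F, hl, hF', hφ'⟩, hφ.tw2 hr hdE hφ'⟩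
  | zero =>
    refine ⟨0, zero_mem _, fun x => ?_⟩
    change (0 : E) = 0 ^ p
    rw [zero_pow hp.out.ne_zero]
  | add φ ψ _ _ h1 h2 =>
    obtain ⟨φ', hφ', h1⟩ := h1
    obtain ⟨ψ', hψ', h2⟩ := h2
    refine ⟨φ' + ψ', add_mem hφ' hψ', fun x => ?_⟩
    change (φ : Module.End k E) (x ^ p) + (ψ : Module.End k E) (x ^ p) =
      ((φ' : Module.End k E) x + (ψ' : Module.End k E) x) ^ p
    rw [h1, h2, add_pow_char]
  | smul a φ _ h1 =>
    obtain ⟨φ', hφ', h1⟩ := h1
    obtain ⟨b, hb⟩ := (PerfectRing.bijective_frobenius (R := k) (p := p)).2 a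
    refine ⟨b • φ', Submodule.smul_mem _ _ hφ', fun x => ?_⟩
    change a • (φ : Module.End k E) (x ^ p) = (b • (φ' : Module.End k E) x) ^ p
    rw [h1, _root_.smul_pow, ← hb]

/-! ## Linearity -/

/-- The elements of `E` which commute with `φ`. -/
def linF (φ : Opr v E) : IntermediateField k Ω where
  carrier := {c | c ∈ E ∧ ∀ x ∈ E, fn φ (c * x) = c * fn φ x}
  mul_mem' := by
    rintro a b ⟨ha, ha'⟩ ⟨hb, hb'⟩
    refine ⟨mul_mem ha hb, fun x hx => ?_⟩
    rw [mul_assoc, ha' _ (mul_mem hb hx), hb' x hx, mul_assoc]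
  add_mem' := by
    rintro a b ⟨ha, ha'⟩ ⟨hb, hb'⟩
    refine ⟨add_mem ha hb, fun x hx => ?_⟩
    rw [add_mul, fn_add φ (mul_mem ha hx) (mul_mem hb hx), ha' x hx, hb' x hx, add_mul]
  algebraMap_mem' := by
    intro a
    refine ⟨E.algebraMap_mem a, fun x hx => ?_⟩
    rw [← Algebra.smul_def, fn_smul φ a hx, Algebra.smul_def]
  inv_mem' := by
    rintro a ⟨ha, ha'⟩
    refine ⟨inv_mem ha, fun x hx => ?_⟩
    by_cases h0 : a = 0
    · rw [h0, inv_zero, zero_mul, zero_mul, fn_zero]
    · have h1 := ha' (a⁻¹ * x) (mul_mem (inv_mem ha) hx)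
      rw [mul_inv_cancel_left₀ h0] at h1
      rw [h1, inv_mul_cancel_left₀ h0]

theorem mem_linF {φ : Opr v E} {c : Ω} :
    c ∈ linF φ ↔ c ∈ E ∧ ∀ x ∈ E, fn φ (c * x) = c * fn φ x := Iff.rfl

omit hp [CharP k p] [CharP Ω p] in
theorem clI_le_linF (hE : Cld v E) {φ : Opr v E} {A : IntermediateField k Ω} (h : A ≤ linF φ) :
    clI v A ≤ linF φ := by
  have hAE : clI v A ≤ E := fun x hx => hE (D2P.cl_mono (fun y hy => (h hy).1) hx)
  intro c hc
  refine ⟨hAE hc, fun x hx => ?_⟩
  refine lin_of_dense (S := (E : Set Ω)) (S' := (A : Set Ω)) hAE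
    (fun x hx b => ⟨x, hx, hx, by rw [sub_self]; exact RVal.Ge.zero⟩) (fun x hx b => ?_)
    (fun c hc _ a ha _ => (h hc).2 a ha) c hc x hx
  obtain ⟨a, ha, h1⟩ := mem_clI.1 hx b
  exact ⟨a, ha, LUC.Cl.subset ha, h1⟩

omit [CharP k p] in
/-- A generator is linear over `u 0 l`. -/
theorem IsD.gen_mem (hr : ∀ n l, u (n + 1) l ^ p = u n l) (hu : ∀ n l, u n l ∈ E)
    (hdE : DnsS v (AU P u) E) {φ : Opr v E} {n : ℕ} {F : Fin m → ℕ} (hF : ∀ l, F l < p ^ n)
    (hφ : IsD p P u φ n F) (i : Fin m) : u 0 i ∈ linF φ := by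
  classical
  have _ := charP_sub (Ω := Ω) p P
  refine ⟨hu 0 i, fun x hx => ?_⟩
  -- reduction to the dense subset
  refine eq_of_ge (v := v) fun b => ?_
  obtain ⟨B, hB⟩ := exists_mul_ge v (u 0 i) b
  obtain ⟨_, ⟨M, f, rfl⟩, haE, h1⟩ := hdE x hx (max B b)
  have key : fn φ (u 0 i * ev (u M) f) = u 0 i * fn φ (ev (u M) f) := by
    have e1 : ev (u M) f = ev (u (n + M)) (lf (p ^ n) f) := by
      rw [add_comm n M, ev_lift hr]
    rw [e1]
    generalize lf (p ^ n) f = g
    set q := p ^ (n + M) with hq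
    have hw : u 0 i = u (n + M) i ^ q := by
      have : ∀ N, u N i ^ p ^ N = u 0 i := by
        intro N
        induction N with
        | zero => simp
        | succ N ih => rw [pow_succ', pow_mul, hr, ih]
      rw [hq, this]
    set e : Fin m → ℕ := Pi.single i 1 with he
    -- the shift
    have hprod : ∏ l, u (n + M) l ^ (q * e l) = u 0 i := by
      rw [Finset.prod_eq_single i]
      · rw [he, Pi.single_eq_same, mul_one, hw]
      · intro l _ hl
        rw [he, Pi.single_eq_of_ne hl, mul_zero, pow_zero]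
      · exact fun h => absurd (Finset.mem_univ i) h
    have hsh : ∀ g : (Fin m → ℕ) →₀ P, ∃ g' : (Fin m → ℕ) →₀ P,
        ev (u (n + M)) g' = u 0 i * ev (u (n + M)) g ∧
        ev (u (n + M)) (hd (fun l => p ^ M * F l) g') =
          u 0 i * ev (u (n + M)) (hd (fun l => p ^ M * F l) g) := by
      intro g
      induction g using Finsupp.induction_linear with
      | zero => exact ⟨0, by simp, by simp⟩
      | add g₁ g₂ h₁ h₂ =>
        obtain ⟨g₁', h₁, h₁'⟩ := h₁
        obtain ⟨g₂', h₂, h₂'⟩ := h₂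
        refine ⟨g₁' + g₂', ?_, ?_⟩
        · rw [map_add, map_add, h₁, h₂, mul_add]
        · rw [map_add, map_add, map_add, map_add, h₁', h₂', mul_add]
      | single I c =>
        refine ⟨Finsupp.single (fun l => I l + q * e l) c, ?_, ?_⟩
        · rw [Key.ev_single, Key.ev_single, ← hprod, mul_left_comm, ← Finset.prod_mul_distrib]
          congr 1
          refine Finset.prod_congr rfl fun l _ => ?_
          rw [pow_add, mul_comm]
        · rw [Key.ev_hd_single, Key.ev_hd_single, ← hprod, mul_left_comm,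
            ← Finset.prod_mul_distrib]
          congr 1
          refine Finset.prod_congr rfl fun l _ => ?_
          have hG : p ^ M * F l < p ^ (n + M) := lt_level hF l
          have hpos : 0 < p ^ (n + M) := pow_pos hp.out.pos _
          have h3 : ∀ t : ℕ, (((t.choose (p ^ M * F l) : ℕ)) : Ω) =
              (((t % p ^ (n + M)).choose (p ^ M * F l) : ℕ) : Ω) := by
            intro t
            have h4 := Key.choose_add_lt p (n + M) (t / p ^ (n + M)) (t % p ^ (n + M))
              (p ^ M * F l) (Nat.mod_lt _ hpos) hG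
            rw [Nat.div_add_mod] at h4
            exact Key.cast_of_modEq (p := p) h4
          have h4 : (((I l + q * e l).choose (p ^ M * F l) : ℕ) : Ω) =
              (((I l).choose (p ^ M * F l) : ℕ) : Ω) := by
            rw [h3, h3 (I l), hq, Nat.add_mul_mod_self_left]
          rw [h4]
          by_cases hle : p ^ M * F l ≤ I l
          · rw [show I l + q * e l - p ^ M * F l = q * e l + (I l - p ^ M * F l) by omega, pow_add]
            ring
          · rw [Nat.choose_eq_zero_of_lt (not_le.1 hle)]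
            simp
    obtain ⟨g', h2, h3⟩ := hsh g
    rw [← h2, hφ M, h3, hφ M]
  have e : fn φ (u 0 i * x) - u 0 i * fn φ x =
      (fn φ (u 0 i * x) - fn φ (u 0 i * ev (u M) f)) -
        u 0 i * (fn φ x - fn φ (ev (u M) f)) := by
    rw [key]; ring
  rw [e]
  refine RVal.Ge.sub (fn_near φ (mul_mem (hu 0 i) hx) (mul_mem (hu 0 i) haE) ?_)
    (hB _ (fn_near φ hx haE (h1.mono (le_max_left _ _))))
  rw [← mul_sub]
  exact hB _ (h1.mono (le_max_left _ _))

omit [CharP k p] in
/-- The operators are linear over the closure of `P(u 0)`. -/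
theorem opT_lin (hr : ∀ n l, u (n + 1) l ^ p = u n l) (hE : Cld v E) (hPE : P ≤ E)
    (hu : ∀ n l, u n l ∈ E) (hdE : DnsS v (AU P u) E)
    (hC : C ≤ clI v (P ⊔ IntermediateField.adjoin k (Set.range (u 0)))) {φ : Opr v E}
    (hφ : φ ∈ opT p v P E u) : C ≤ linF φ := by
  refine hC.trans ?_
  induction hφ using Submodule.span_induction with
  | mem φ h =>
    obtain ⟨n, F, hl, hF, hφ⟩ := h
    refine clI_le_linF hE (sup_le (fun c hc => ⟨hPE hc, hφ.lin hr hPE hdE c hc⟩) ?_)
    rw [IntermediateField.adjoin_le_iff]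
    rintro _ ⟨l, rfl⟩
    exact hφ.gen_mem hr hu hdE hF l
  | zero =>
    refine clI_le_linF hE (sup_le (fun c hc => ⟨hPE hc, fun x hx => ?_⟩) ?_)
    · rw [fn_opZero, fn_opZero, mul_zero]
    · rw [IntermediateField.adjoin_le_iff]
      rintro _ ⟨l, rfl⟩
      exact ⟨hu 0 l, fun x hx => by rw [fn_opZero, fn_opZero, mul_zero]⟩
  | add φ ψ _ _ h1 h2 =>
    intro c hc
    exact ⟨(h1 hc).1, fun x hx => by
      rw [fn_opAdd, fn_opAdd, (h1 hc).2 x hx, (h2 hc).2 x hx, mul_add]⟩
  | smul a φ _ h1 =>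
    intro c hc
    exact ⟨(h1 hc).1, fun x hx => by
      rw [fn_opSmul, fn_opSmul, (h1 hc).2 x hx, mul_smul_comm]⟩

/-- **The axioms of `Oper`.** -/
theorem opT_oper [PerfectRing k p] (hc : CompleteV v) (hr : ∀ n l, u (n + 1) l ^ p = u n l)
    (hn : NBd p v P u) (hE : Cld v E) (hE' : ∀ a ∈ E, ∃ b ∈ E, b ^ p = a) (hPE : P ≤ E)
    (hu : ∀ n l, u n l ∈ E) (hdE : DnsS v (AU P u) E) (hC' : Cld v C)
    (hC : C ≤ clI v (P ⊔ IntermediateField.adjoin k (Set.range (u 0)))) :
    Oper p v C E (opT p v P E u) where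
  le := by
    refine hC.trans fun x hx => hE (D2P.cl_mono (fun y hy => ?_) hx)
    refine (sup_le hPE ?_ : P ⊔ IntermediateField.adjoin k (Set.range (u 0)) ≤ E) hy
    rw [IntermediateField.adjoin_le_iff]
    rintro _ ⟨l, rfl⟩
    exact hu 0 l
  cldC := hC'
  cld := hE
  perf := hE'
  mul := fun _ hφ _ hψ => opT_mul hr hPE hu hdE hφ hψ
  tw := fun _ hφ => opT_tw hc hr hn hE hPE hu hdE hφ
  lin := fun φ hφ c hcC x => by
    have h1 := (opT_lin hr hE hPE hu hdE hC hφ hcC).2 x x.2
    rw [fn_of_mem φ (mul_mem c.2 x.2), fn_of_mem φ x.2] at h1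
    exact Subtype.ext h1
  one := fun _ hφ => opT_one hφ

end Ops

end Pool.Agent.TWC
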