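import Pool.Agent.Lib.TWC.EW
import Pool.Agent.Lib.TWC.NotRoot
import Pool.Agent.Lib.TWC.OpW2
import Pool.Agent.Lib.TWC.OpDeg
import Pool.Agent.Lib.TWC.OpGenW

/-!
# TANK W, class C, row T6: the base `P<w>`

`P` perfect, `w` of transcendental type and of radius `0` over `P`, `u n` compatible roots of `w`,
`E` the closure of `P(w^(1/p^∞))`: the operators of `E` over `P<w>`, the property `V'` and the
descent data for every closed field `L` over `P<w>` such that `w^(1/p)` is far from `L`.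
-/

set_option autoImplicit false

open Polynomial

namespace Pool.Agent.TWC

open Pool.Agent.H15JM (RVal)
open Pool.Agent.LU1 (VPos adj)
open Pool.Agent.D2 (Ctx0)
open Pool.Agent.D2P (hen clI mem_clI)
open Pool.Agent.TWM
open Pool.Agent.TWC.Key (hd ev)

universe u

variable {k Ω : Type u} [Field k] [Field Ω] [Algebra k Ω] {v : RVal Ω}
  {P L : IntermediateField k Ω}

section

variable (p : ℕ) [hp : Fact p.Prime] [CharP k p] [CharP Ω p] [IsAlgClosed Ω]

omit [CharP k p] [IsAlgClosed Ω] in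
/-- The roots of `w` are limits of `P`. -/
theorem root_lim (hP' : ∀ a ∈ P, ∃ b ∈ P, b ^ p = a) {w : Ω} (hw : TL v P w 0) {u : ℕ → Ω}
    (hu0 : u 0 = w) (hu : ∀ n, u (n + 1) ^ p = u n) (n : ℕ) :
    ∀ ε : ℝ, 0 < ε → ∃ h ∈ P, v.Ge (-ε) (u n - h) := by
  have hp0 : (0 : ℝ) < p := by exact_mod_cast hp.out.pos
  induction n with
  | zero =>
    intro ε hε
    obtain ⟨a, ha, h1⟩ := hw.lim ε hε
    rw [zero_sub] at h1
    exact ⟨a, ha, by rw [hu0]; exact h1⟩
  | succ n ih =>
    intro ε hε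
    obtain ⟨a, ha, h1⟩ := ih (p * ε) (mul_pos hp0 hε)
    obtain ⟨b, hb, rfl⟩ := hP' a ha
    refine ⟨b, hb, TWM.ge_of_pow (p := p) ?_⟩
    rw [sub_pow_p, hu n]
    exact h1.mono (by rw [mul_neg])

omit [CharP k p] [CharP Ω p] [IsAlgClosed Ω] hp in
/-- The isometric data, one variable. -/
theorem iso_one {u : ℕ → Ω} (hu : ∀ n, u (n + 1) ^ p = u n) (hL : Cld v L)
    (hwL : u 0 ∈ L) (hlim : ∀ n (ε : ℝ), 0 < ε → ∃ h ∈ L, v.Ge (-ε) (u n - h))
    (hfar : ¬ Nr' v L 0 (u 1)) : Iso p v L (fun n (_ : Fin 1) => u n) where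
  cld := hL
  mem := fun _ => hwL
  root := fun n _ => hu n
  far := fun l h => by
    refine hfar ?_
    obtain ⟨a, ha, h1⟩ := h
    refine ⟨a, ?_, h1⟩
    have h2 : Lx v L (fun n (_ : Fin 1) => u n) l ≤ L := by
      refine (clI_mono' (sup_le le_rfl ?_)).trans hL
      rw [IntermediateField.adjoin_le_iff]
      rintro _ ⟨n, j, hj, -⟩
      have := l.2
      omega
    exact h2 ha
  lim := fun n _ ε hε => hlim n ε hε

omit [CharP k p] [CharP Ω p] in
/-- The polynomials in the roots of `w` are dense in `E`. -/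
theorem dns_EW {w : Ω} (hw : TL v P w 0) {u : ℕ → Ω}
    (hu0 : u 0 = w) (hu : ∀ n, u (n + 1) ^ p = u n) :
    DnsS v (AU P (fun n (_ : Fin 1) => u n)) (EW v P u) := by
  classical
  set U : ℕ → Fin 1 → Ω := fun n _ => u n with hU
  have hr : ∀ n l, U (n + 1) l ^ p = U n l := fun n _ => hu n
  have hUE : ∀ n l, U n l ∈ EW v P u := fun n _ => EW.mem n
  intro x hx b
  obtain ⟨y, hy, h1⟩ := mem_clI.1 hx b
  have hyC : y ∈ cadj v P w ⊔ IntermediateField.adjoin k {x | ∃ n l, x = U n l} := by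
    refine (sup_le_sup (le_cadj v P w) ?_ : _ ≤ _) hy
    rw [IntermediateField.adjoin_le_iff]
    rintro _ ⟨n, rfl⟩
    exact IntermediateField.subset_adjoin _ _ ⟨n, 0, rfl⟩
  obtain ⟨n, f, hf⟩ := AU.field hr hp.out.pos
    (fun _ => by rw [hU]; simp only [hu0]; exact self_mem_cadj v P w) hyC
  have hev : y = ∑ I ∈ f.support, ((f I : cadj v P w) : Ω) * ∏ l, U n l ^ I l := by
    rw [hf, Key.ev, Finsupp.linearCombination_apply, Finsupp.sum]
    rfl
  choose g hg hgc using fun I : Fin 1 → ℕ =>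
    hw.dense (f I).2 (b - v (∏ l, U n l ^ I l))
  have hgA : ∀ q ∈ PI P, q.eval w ∈ AU P U := by
    intro q hq
    have h3 : q.eval w ∈ AUs P hr := by
      rw [eval_eq_sum_range]
      refine Submodule.sum_mem _ fun i _ => ?_
      have h4 : ∀ i : ℕ, w ^ i ∈ AU P U := by
        intro i
        induction i with
        | zero =>
          rw [pow_zero]
          exact AU.base P U (one_mem P)
        | succ i ih =>
          rw [pow_succ]
          refine AU.mul hr ih ?_
          rw [← hu0]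
          exact AU.gen P U 0 0
      exact AU.mul hr (AU.base P U (hq i)) (h4 i)
    exact h3
  have hmon : ∀ I : Fin 1 → ℕ, ∏ l, U n l ^ I l ∈ AU P U := by
    intro I
    rw [Fin.prod_univ_one]
    generalize I 0 = i
    induction i with
    | zero =>
      rw [pow_zero]
      exact AU.base P U (one_mem P)
    | succ i ih =>
      rw [pow_succ]
      exact AU.mul hr ih (AU.gen P U n 0)
  have hz : ∑ I ∈ f.support, (g I).eval w * ∏ l, U n l ^ I l ∈ AU P U := by
    have h3 : ∑ I ∈ f.support, (g I).eval w * ∏ l, U n l ^ I l ∈ AUs P hr :=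
      Submodule.sum_mem _ fun I _ => AU.mul hr (hgA _ (hg I)) (hmon I)
    exact h3
  refine ⟨_, hz, AU.mem EW.le hUE hz, ?_⟩
  rw [← sub_add_sub_cancel x y]
  refine h1.add ?_
  rw [hev, ← Finset.sum_sub_distrib]
  refine RVal.Ge.sum _ _ fun I _ => ?_
  rw [← sub_mul]
  have h5 := (hgc I).mul (RVal.ge_self (v := v) (∏ l, U n l ^ I l))
  rwa [sub_add_cancel] at h5

end

variable (p : ℕ) [Fact p.Prime] [CharP k p] [CharP Ω p] [PerfectRing k p] [IsAlgClosed Ω]
  [hcx : Fact (Ctx0 k v)]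

theorem base_w (hc : CompleteV v) (hP : Cld v P) (hP' : ∀ a ∈ P, ∃ b ∈ P, b ^ p = a) {w : Ω}
    (hw : TL v P w 0) {u : ℕ → Ω} (hu0 : u 0 = w) (hu : ∀ n, u (n + 1) ^ p = u n) :
    ∃ (T : Submodule k (Opr v (EW v P u))) (D : Set (Opr v (EW v P u)))
      (h : Oper p v (cadj v P w) (EW v P u) T), OpGen v T D ∧ NSD p h ∧
      ∀ L : IntermediateField k Ω, Cld v L → P ≤ L → w ∈ L → ¬ Nr' v L 0 (u 1) →
        Desc v (cadj v P w) (EW v P u) T L (clI v (L ⊔ EW v P u)) := by
  have hr : ∀ n (l : Fin 1), (fun n (_ : Fin 1) => u n) (n + 1) l ^ p =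
      (fun n (_ : Fin 1) => u n) n l := fun n _ => hu n
  have hUE : ∀ n (l : Fin 1), (fun n (_ : Fin 1) => u n) n l ∈ EW v P u := fun n _ => EW.mem n
  have hlim := root_lim p hP' hw hu0 hu
  have hdE := dns_EW p hw hu0 hu
  have hE : Cld v (EW v P u) := EW.cld
  have hE' : ∀ a ∈ EW v P u, ∃ b ∈ EW v P u, b ^ p = a := EW.perf p hc hP hP' hu
  have hPC : P ≤ cadj v P w := le_cadj v P w
  have hwC : w ∈ cadj v P w := self_mem_cadj v P w
  have hisoC : Iso p v (cadj v P w) (fun n (_ : Fin 1) => u n) := by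
    refine iso_one p hu (cld_cadj v P w) (by rw [hu0]; exact hwC)
      (fun n ε hε => ?_) ?_
    · obtain ⟨h, hh, h1⟩ := hlim n ε hε
      exact ⟨h, hPC hh, h1⟩
    · rintro ⟨l, hl, h3⟩
      refine Tow.not_root p hcx.out hP hP' hw (Tow.zero (cld_cadj v P w)) hl ?_
      have h4 : l ^ p - w = -((u 1 - l) ^ p) := by
        rw [sub_pow_p, show (1 : ℕ) = 0 + 1 from rfl, hu 0, hu0]
        ring
      rw [h4]
      have h5 := ge_pow h3.ge p
      rw [mul_zero] at h5
      exact h5.neg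
  have hn : NBd p v P (fun n (_ : Fin 1) => u n) := (hisoC.nbd hcx.out hc).of_le hPC
  have hC : cadj v P w ≤ clI v (P ⊔ IntermediateField.adjoin k
      (Set.range ((fun n (_ : Fin 1) => u n) 0))) := by
    refine clI_mono' (sup_le_sup_left ?_ P)
    rw [IntermediateField.adjoin_le_iff]
    rintro _ rfl
    exact IntermediateField.subset_adjoin _ _ ⟨0, hu0⟩
  have hop : Oper p v (cadj v P w) (EW v P u) (opT p v P (EW v P u) fun n (_ : Fin 1) => u n) :=
    opT_oper hc hr hn hE hE' EW.le hUE hdE (cld_cadj v P w) hC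
  refine ⟨_, _, hop, op_gen hr EW.le hUE hdE, nsd_opT hop hr hP' EW.le hUE hdE, ?_⟩
  intro L hL hPL hwL hfar
  have hisoL : Iso p v L (fun n (_ : Fin 1) => u n) :=
    iso_one p hu hL (by rw [hu0]; exact hwL) (fun n ε hε => by
      obtain ⟨h, hh, h1⟩ := hlim n ε hε
      exact ⟨h, hPL hh, h1⟩) hfar
  exact hisoL.desc hc hE EW.le hUE hdE hPC (fun _ => by simp only [hu0]; exact hwC)
    (cadj_le hL hPL hwL) (fun n _ ε hε => hlim n ε hε)

end Pool.Agent.TWC
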