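import Pool.Agent.Lib.TWC.HandG

/-!
# TANK W, dimension 4: classes of closed fields

* `ClC p v E Q`: the closure of `E` in the completion is isogenous to a closed field with the
  property `Q`; `ClC.isog`, `ClC.mono`, `her_clc`;
* `T3m`, `STm`: the towers over `cl k(x, y)`, the strict towers;
* `tpn_or_stm`: `ClC T3m` gives `TPn` or `ClC STm`;
* `StrLeafC p k`: `MobQ0` for `ClC STm`, the open leaf (II); `critM_t3m`, `lus_of_t3m`.
-/

set_option autoImplicit false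

namespace Pool.Agent.TW

open Pool.Agent.H15JM (RVal)
open Pool.Agent.LU1 (adj)
open Pool.Agent.LUC (LUs)
open Pool.Agent.D2P (clI rootF mem_rootF)
open Pool.Agent.TWM
open Pool.Agent.TWS (TowR)
open Pool.Agent.TWC (T2 T3 T3c RatR StrF HasTPn PTn TPn PairRatC)
open Pool.Agent.TWS7 (STc STow PDiv)

universe u

/-- A property of the closed subfields of a complete algebraically closed field. -/
abbrev CProp (k : Type u) [Field k] : Type (u + 1) :=
  ∀ (Ω : Type u) [Field Ω] [Algebra k Ω], RVal Ω → IntermediateField k Ω → Prop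

/-- The closure of `E` in the completion is isogenous to a closed field with the property `Q`. -/
def ClC (p : ℕ) {k : Type u} [Field k] (Q : CProp k) {Ω : Type u} [Field Ω] [Algebra k Ω]
    (v : RVal Ω) (E : IntermediateField k Ω) : Prop :=
  ∃ (Ω' : Type u) (_ : Field Ω') (_ : Algebra k Ω') (ι : Ω →ₐ[k] Ω') (v' : RVal Ω')
    (_ : IsAlgClosed Ω'), CompleteV v' ∧ Dense v v' ι ∧ ∃ M : IntermediateField k Ω',
      Cld v' M ∧ Isg p (clI v' (E.map ι)) M ∧ Q Ω' v' M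

section

variable {p : ℕ} {k Ω : Type u} [Field k] [Field Ω] [Algebra k Ω] {v : RVal Ω}
  {E K : IntermediateField k Ω} {Q Q' : CProp k}

/-- The closures of isogenous fields are isogenous. -/
theorem Isg.clI [Fact p.Prime] [CharP Ω p] (h : Isg p E K) : Isg p (clI v E) (clI v K) := by
  obtain ⟨e, h1, h2⟩ := h
  refine ⟨e, fun a ha => ?_, fun a ha => ?_⟩
  · have h3 : D2P.clI v E ≤ rootF p e (D2P.clI v K) :=
      TWC.clI_le' (fun a ha => mem_rootF.2 (TWM.le_clI _ (h1 a ha)))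
        (TWC.cld_rootFn p e (TWM.cld_clI v K))
    exact mem_rootF.1 (h3 ha)
  · have h3 : D2P.clI v K ≤ rootF p e (D2P.clI v E) :=
      TWC.clI_le' (fun a ha => mem_rootF.2 (TWM.le_clI _ (h2 a ha)))
        (TWC.cld_rootFn p e (TWM.cld_clI v E))
    exact mem_rootF.1 (h3 ha)

theorem Isg.map {Ω' : Type u} [Field Ω'] [Algebra k Ω'] (ι : Ω →ₐ[k] Ω') (h : Isg p E K) :
    Isg p (E.map ι) (K.map ι) := by
  obtain ⟨e, h1, h2⟩ := h
  refine ⟨e, ?_, ?_⟩
  · rintro _ ⟨a, ha, rfl⟩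
    exact ⟨a ^ p ^ e, h1 a ha, map_pow ι a _⟩
  · rintro _ ⟨a, ha, rfl⟩
    exact ⟨a ^ p ^ e, h2 a ha, map_pow ι a _⟩

/-- `ClC` for isogenous fields. -/
theorem ClC.isg [Fact p.Prime] [CharP k p] (h : ClC p Q v E) (hi : Isg p K E) :
    ClC p Q v K := by
  obtain ⟨Ω', iF, iA, ι, v', iC, h2, h3, M, h4, h5, h6⟩ := h
  have : CharP Ω' p := charP_of_injective_algebraMap (algebraMap k Ω').injective p
  exact ⟨Ω', iF, iA, ι, v', iC, h2, h3, M, h4, (hi.map ι).clI.trans h5, h6⟩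

theorem ClC.mono (h : ClC p Q v E)
    (hQ : ∀ (Ω' : Type u) [Field Ω'] [Algebra k Ω'] (v' : RVal Ω') (M : IntermediateField k Ω'),
      Q Ω' v' M → Q' Ω' v' M) : ClC p Q' v E := by
  obtain ⟨Ω', iF, iA, ι, v', iC, h2, h3, M, h4, h5, h6⟩ := h
  exact ⟨Ω', iF, iA, ι, v', iC, h2, h3, M, h4, h5, hQ Ω' v' M h6⟩

theorem her_clc [IsAlgClosed Ω] [Fact p.Prime] [CharP k p] (h : ClC p Q v E) :
    Her p v (fun _ _ _ _ v E => ClC p Q v E) E := by
  intro K₀ hKE _ ⟨e, he⟩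
  exact h.isg (Isg.of_le hKE he).symm

end

/-- `M` is a tower with two floors over `cl k(x, y)`. -/
def T3m (p : ℕ) (k : Type u) [Field k] : CProp k := fun Ω _ _ v M =>
  ∃ (X : ℕ → Ω) (y : Ω) (s : ℝ), T2 p k v X y s ∧ TowR v 2 (TWC.CP (k := k) v (X 0) y) M

/-- `M` is a strict tower. -/
def STm (p : ℕ) (k : Type u) [Field k] : CProp k := fun Ω _ _ v M =>
  ∃ (x y : Ω) (σ : ℝ) (D : ℕ → Ω → Ω) (u : Ω) (ρ : ℝ) (z : Ω) (s : ℝ), x ≠ 0 ∧ v x ≠ 0 ∧
    STow p v (cadj v (⊥ : IntermediateField k Ω) x) y σ D u ρ z s M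

section

variable {p : ℕ} {k Ω : Type u} [Field k] [Field Ω] [Algebra k Ω] {v : RVal Ω}
  {E K M : IntermediateField k Ω}

/-- `PTn` for isogenous closed fields. -/
theorem ptn_isg [Fact p.Prime] [IsAlgClosed k] [CharP k p] [IsAlgClosed Ω] (h : Ctx k v 1)
    (hc : CompleteV v) (hK : Cld v K) (hM : Cld v M) (hi : Isg p K M)
    (hP : ∀ N, PTn p v 2 M N) (N : ℕ) : PTn p v 2 K N := by
  have : CharP Ω p := charP_of_injective_algebraMap (algebraMap k Ω).injective p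
  obtain ⟨e, h1, h2⟩ := hi
  have hL : Cld v (rootF p e M) := TWC.cld_rootFn p e hM
  have hP' : ∀ N, PTn p v 2 (rootF p e M) N :=
    (TWC.PTn.isog h.toCtx0 hc le_rfl hL hM (fun a ha => mem_rootF.2 (pow_mem ha _)) e
      (fun a ha => mem_rootF.1 ha)).1 hP
  refine (TWC.PTn.isog h.toCtx0 hc le_rfl hL hK (fun a ha => mem_rootF.2 (h1 a ha)) (e + e)
    (fun a ha => ?_)).2 hP' N
  rw [pow_add, pow_mul]
  exact h2 _ (mem_rootF.1 ha)

/-- **`TPn`, or a strict tower.** -/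
theorem tpn_or_stm [Fact p.Prime] [IsAlgClosed k] [CharP k p] (h : Ctx k v 1)
    (hPF : PairRatC p k) (ht : ClC p (T3m p k) v E) : TPn p v 2 E ∨ ClC p (STm p k) v E := by
  obtain ⟨Ω', iF, iA, ι, v', iC, h2, h3, M, h4, h5, X, y, s, h6, h7⟩ := ht
  have : CharP Ω' p := charP_of_injective_algebraMap (algebraMap k Ω').injective p
  have hx' : Ctx k v' 1 := h3.ctx h
  have key : HasTPn p v' (TWC.CP (k := k) v' (X 0) y) → TPn p v 2 E := fun h8 =>
    ⟨Ω', iF, iA, ι, v', iC, h2, h3,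
      fun N => ptn_isg hx' h2 (cld_clI _ _) h4 h5 (fun N => h8.ptn hx' h7 N) N⟩
  by_cases hr : RatR (v' (X 0)) s
  · exact Or.inl (key (hPF Ω' v' hx' h2 X y s h6 hr))
  · rcases h6.hasTPn hx'.toCtx0 h2 hr with h8 | h8
    · exact Or.inl (key h8)
    · have hM : clI v' M = M := le_antisymm h4 (TWM.le_clI _)
      have hT : T3 p v' M X y s := ⟨h6, by rw [hM]; exact h7⟩
      obtain ⟨D, u, ρ, w, t, h9⟩ := TWS7.T3.stow p hx' h2 hT h8 hr
      rw [hM] at h9
      exact Or.inr ⟨Ω', iF, iA, ι, v', iC, h2, h3, M, h4, h5, _, _, _, _, _, _, _, _, h6.ne,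
        h6.neg.ne, h9⟩

theorem pdiv_clI_map {Ω' : Type u} [Field Ω'] [Algebra k Ω'] {v' : RVal Ω'} {ι : Ω →ₐ[k] Ω'}
    [hp : Fact p.Prime] (hD : Dense v v' ι) (hM : PDiv p v' (clI v' (E.map ι))) :
    PDiv p v E := by
  have hI : TWS.IsoE v v' ι := ⟨hD.val⟩
  rw [pdiv_iff_vg, TWS.VG.clI, TWC.vg_map hI] at hM
  exact pdiv_iff_vg.2 hM

theorem pdiv_t3m [hp : Fact p.Prime] (ht : ClC p (T3m p k) v E) : PDiv p v E := by
  obtain ⟨Ω', iF, iA, ι, v', iC, h2, h3, M, h4, h5, X, y, s, h6, h7⟩ := ht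
  refine pdiv_clI_map h3 (pdiv_isg h5 ?_)
  rw [pdiv_iff_vg, TWS.VG.imm h7.imm]
  exact h6.div

end

/-- **The strict leaf**: `MobQ0` for the fields whose closure is isogenous to a strict tower. -/
def StrLeafC (p : ℕ) (k : Type u) [Field k] : Prop :=
  CritM p k fun _ _ _ _ v E => PDiv p v E ∧ ClC p (STm p k) v E

/-- **`MobQ0` for the fields whose closure is isogenous to a tower over `cl k(x, y)`.** -/
theorem critM_t3m (p : ℕ) [Fact p.Prime] (k : Type u) [Field k] [IsAlgClosed k] [CharP k p]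
    (hPF : PairRatC p k) (hS : StrLeafC p k) :
    CritM p k fun _ _ _ _ v E => ClC p (T3m p k) v E := by
  intro Ω _ _ _ _ v hc K₀ hK hΩ htr hBDK hH hL hlow hQ g hgK hg hBD
  rcases tpn_or_stm hc hPF hQ with h4 | h4
  · exact (crit4_pn p k).toM Ω v hc K₀ hK hΩ htr hBDK hH hL hlow h4 g hgK hg hBD
  · exact hS Ω v hc K₀ hK hΩ htr hBDK hH hL hlow ⟨pdiv_t3m hQ, h4⟩ g hgK hg hBD

/-- **Log uniformization of the fields whose closure is isogenous to a tower over
`cl k(x, y)`.** -/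
theorem lus_of_t3m (p : ℕ) [Fact p.Prime] {k Ω : Type u} [Field k] [IsAlgClosed k] [CharP k p]
    [Field Ω] [Algebra k Ω] [IsAlgClosed Ω] {v : RVal Ω} (hPF : PairRatC p k)
    (hS : StrLeafC p k) (h : Ctx k v 1) {E : IntermediateField k Ω}
    (hE : E.FG) (hΩ : ∀ g : Ω, IsAlgebraic E g) (htr : Algebra.trdeg k E = (4 : ℕ))
    (hBD : BD p v E) (hQ : ClC p (T3m p k) v E) :
    LUs v (algebraMap k Ω).range E.toSubfield := by
  have : CharP Ω p := charP_of_injective_algebraMap (algebraMap k Ω).injective p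
  exact lus_of_herM p (critM_t3m p k hPF hS) h hE hΩ htr hBD (her_clc hQ)

end Pool.Agent.TW
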