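import Pool.Agent.Lib.TWC.BdIsg
import Pool.Agent.Lib.TWC.HandH

/-!
# TANK W, class C: bounded distortion of the classes of closed fields

* `bd_of_clc`: `ClC p Q v E`, the fields with `Q` of `p`-rank at least `trdeg E`;
* `bd_of_t3m`, `bd_of_stm`: the classes `ClC T3m`, `ClC STm`, transcendence degree four;
* `prk_of_bd`: the `p`-rank of the closure of a field with bounded distortion.
-/

set_option autoImplicit false

namespace Pool.Agent.TWC

open Pool.Agent.H15JM (RVal)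
open Pool.Agent.LU1 (adj)
open Pool.Agent.D2P (clI)
open Pool.Agent.TWM
open Pool.Agent.TWS (TowR)
open Pool.Agent.TWS7 (STow)
open Pool.Agent.TW (BD PBasis CProp ClC Isg T3m STm)

universe u

variable {k Ω : Type u} [Field k] [Field Ω] [Algebra k Ω] {v : RVal Ω}
  {p : ℕ} [hp : Fact p.Prime] {E C M : IntermediateField k Ω} {d : ℕ}

/-- The `p`-rank of the closure of a field with bounded distortion. -/
theorem prk_of_bd [CharP Ω p] [CharP k p] [IsAlgClosed k] [IsAlgClosed Ω] (hc : CompleteV v)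
    (hE : E.FG) (htr : Algebra.trdeg k E = d) (hBD : BD p v E) : PRk p d (clI v E) := by
  obtain ⟨n, s, hs, C, hC⟩ := hBD
  have hos : OI p v (clI v E) s C := (OI.of_orth_pb hC hs).cl
  have hpb : PBasis p (clI v E) s := pbasis_clI hc hs hos
  have h1 := (hs.trdeg p hE).1
  rw [htr, Nat.cast_inj] at h1
  rw [h1]
  exact PRk.of_pbasis hpb

/-- The strict towers. -/
theorem prk_stow [CharP Ω p] [IsAlgClosed Ω] (hc : CompleteV v) {N L : IntermediateField k Ω}
    {y : Ω} {σ : ℝ} {D : ℕ → Ω → Ω} {u : Ω} {ρ : ℝ} {w : Ω} {s : ℝ}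
    (h : STow p v N y σ D u ρ w s L) : PRk p 4 L := by
  have hT : TowR v 2 (cadj v N y) L := by
    rw [h.eq]
    exact TowR.succ h.tu (TowR.succ h.tw (TowR.zero (cld_cadj v _ _)))
  exact (prk_sfl h.sfl).tow hc (cld_cadj v _ _) hT

variable [CharP k p] [IsAlgClosed k]

/-- **The classes of closed fields, up to isogeny.** -/
theorem bd_of_clc [CharP Ω p] {Q : CProp k} (hE : E.FG) (htr : Algebra.trdeg k E = d)
    (hQ : ∀ (Ω' : Type u) [Field Ω'] [Algebra k Ω'] [IsAlgClosed Ω'] [CharP Ω' p] (v' : RVal Ω')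
      (M : IntermediateField k Ω'), CompleteV v' → Cld v' M → Q Ω' v' M → PRk p d M)
    (h : ClC p Q v E) : BD p v E := by
  obtain ⟨Ω', iF, iA, ι, v', iC, h2, h3, M, h4, ⟨e, h5, h6⟩, h7⟩ := h
  have : CharP Ω' p := Dense.charP ι p
  exact (Dense.bd_iff h3).1 (bd_of_prk_isg h2 (Dense.fg_map hE)
    (by rw [Dense.trdeg_map]; exact htr) h5 h6 (hQ Ω' v' M h2 h4 h7))

/-- **The towers over `cl k(x, y)`.** -/
theorem bd_of_t3m [CharP Ω p] (hE : E.FG) (htr : Algebra.trdeg k E = (4 : ℕ))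
    (h : ClC p (T3m p k) v E) : BD p v E :=
  bd_of_clc hE htr (fun _ _ _ _ _ v' _ hc _ ⟨_, _, _, h1, h2⟩ =>
    (prk_t2 hc h1).tow hc (cld_cadj v' _ _) h2) h

/-- **The strict towers.** -/
theorem bd_of_stm [CharP Ω p] (hE : E.FG) (htr : Algebra.trdeg k E = (4 : ℕ))
    (h : ClC p (STm p k) v E) : BD p v E :=
  bd_of_clc hE htr (fun _ _ _ _ _ _ _ hc _ ⟨_, _, _, _, _, _, _, _, _, _, h1⟩ =>
    prk_stow hc h1) h

end Pool.Agent.TWC
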