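import Pool.Agent.Lib.TWC.BdTow
import Pool.Agent.Lib.TWEX.Cocyc

/-!
# TANK W, class C: the `p`-rank of closed fields

* `PRk p d A`: `A` has `p ^ d` elements which are independent over its `p`-th powers (`p`-rank at
  least `d`);
* `PRk.tow`: towers; `bd_of_prk`: `BD p v L`, if the closure of `L` has `PRk`, `d = trdeg L`;
* `rank_isg`, `PRk.isg`: isogenous fields (`L ^ (p ^ e) ≤ M`, `M ^ (p ^ e) ≤ L`), one of them with a
  `p`-basis;
* `prk_t2`, `prk_tp`, `prk_sfl`: the bases with two letters.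
-/

set_option autoImplicit false

open Polynomial

namespace Pool.Agent.TWC

open Pool.Agent.H15JM (RVal)
open Pool.Agent.LU1 (adj)
open Pool.Agent.D2P (clI mem_clI)
open Pool.Agent.TWM
open Pool.Agent.TWS (TowR)
open Pool.Agent.TWEX (SFl)
open Pool.Agent.TW (Ctx BD PBasis Ind Bas Qp Pw mem_Pw mem_Qp Qp_le' Qp_mono mem_frob frob_le Pw_le
  bas_pow sm finite_of_spn bas_of_finite exists_bas pow_sum)

universe u

section Rank

variable {Ω : Type u} [Field Ω] {Q K M : Subfield Ω} {ι κ : Type} [Fintype ι] [Fintype κ]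
  {b : ι → Ω} {g : κ → Ω} {p : ℕ} [hp : Fact p.Prime] [CharP Ω p]

theorem ind_frob (h : Ind Q b) : Ind (Q.map (frobenius Ω p)) (fun i => b i ^ p) := by
  intro c hc h0 j
  choose a ha hac using fun j => mem_frob.1 (hc j)
  have h1 : (∑ j, a j * b j) ^ p = 0 := by
    rw [pow_sum, ← h0]
    exact Finset.sum_congr rfl fun j _ => by rw [mul_pow, hac]
  rw [← hac j, h a ha (pow_eq_zero_iff hp.out.ne_zero |>.1 h1) j, zero_pow hp.out.ne_zero]

theorem ind_Pw (h : Ind (K.map (frobenius Ω p)) b) (j : ℕ) :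
    Ind (Pw p K (j + 1)) (fun i => b i ^ p ^ j) := by
  induction j with
  | zero =>
    simp only [pow_zero, pow_one]
    exact h
  | succ j ih =>
    have h1 := ind_frob (p := p) ih
    have h2 : (fun i => (b i ^ p ^ j) ^ p) = fun i => b i ^ p ^ (j + 1) := by
      funext i
      rw [← pow_mul, ← pow_succ]
    rwa [h2] at h1

theorem bas_Pw (h : Bas (K.map (frobenius Ω p)) K b) (j : ℕ) :
    Bas (Pw p K (j + 1)) (Pw p K j) (fun i => b i ^ p ^ j) := by
  induction j with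
  | zero =>
    simp only [pow_zero, pow_one]
    exact h
  | succ j ih =>
    have h1 := ih.frob (p := p)
    have h2 : (fun i => (b i ^ p ^ j) ^ p) = fun i => b i ^ p ^ (j + 1) := by
      funext i
      rw [← pow_mul, ← pow_succ]
    rwa [h2] at h1

theorem exists_bas_Pw (h : Bas (K.map (frobenius Ω p)) K b) (j : ℕ) :
    ∃ (m : ℕ) (e : Fin m → Ω), Bas (Pw p K j) K e := by
  induction j with
  | zero =>
    exact ⟨1, fun _ => 1, fun _ => one_mem _, fun u hu => ⟨fun _ => u, fun _ => hu, by simp⟩,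
      fun c hc h0 j => by
        simp only [Finset.univ_unique, mul_one, Finset.sum_singleton] at h0
        rw [Subsingleton.elim j default]
        exact h0⟩
  | succ j ih =>
    obtain ⟨m, e, he⟩ := ih
    have h1 := he.prod (bas_Pw h j) frob_le (Pw_le j)
    exact exists_bas (frob_le.trans (Pw_le j)) h1.span

/-- **The `p`-rank of a field between `K` and `K ^ (p ^ f)`.** -/
theorem rank_mid (h : Bas (K.map (frobenius Ω p)) K b) {f : ℕ} (h1 : Pw p K f ≤ M) (h2 : M ≤ K)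
    (hg : ∀ i, g i ∈ M) (hi : Ind (M.map (frobenius Ω p)) g) :
    Fintype.card κ ≤ Fintype.card ι := by
  obtain ⟨m, e, he⟩ := exists_bas_Pw h f
  -- `M` over `K ^ (p ^ f)`
  have hfinK := finite_of_spn (Pw_le f) he.span
  have hfin : Module.Finite (Pw p K f) (sm (Pw p K f) M h1) :=
    Submodule.finiteDimensional_of_le (S₂ := sm (Pw p K f) K (Pw_le f)) fun x hx => h2 hx
  have hu := bas_of_finite h1 hfin
  set a := Module.finrank (Pw p K f) (sm (Pw p K f) M h1) with ha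
  have ha0 : 0 < a := by
    by_contra h3
    have h4 : a = 0 := by omega
    obtain ⟨c, -, h5⟩ := hu.span 1 (one_mem _)
    rw [Finset.sum_eq_zero] at h5
    · exact one_ne_zero h5
    · intro j
      exact absurd j.2 (by omega)
  have h3 : (Pw p K f).map (frobenius Ω p) ≤ M.map (frobenius Ω p) := by
    intro x hx
    obtain ⟨c, hc, rfl⟩ := mem_frob.1 hx
    exact mem_frob.2 ⟨c, h1 hc, rfl⟩
  have h4 : (Pw p K f).map (frobenius Ω p) ≤ Pw p K f := frob_le
  -- `M` over `K ^ (p ^ (f + 1))`, through `K ^ (p ^ f)`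
  have hA := hu.prod (bas_Pw h f) h4 h1
  -- through `M ^ p`
  obtain ⟨r, w, hw⟩ := exists_bas (frob_le (p := p) (Q := M)) fun u hu => (hA.span u hu).mono h3
  have hB := hw.prod (hu.frob (p := p)) h3 frob_le
  have h5 := hA.card (h4.trans h1)
  have h6 := hB.card (h4.trans h1)
  rw [← h6, Fintype.card_prod, Fintype.card_prod, Fintype.card_fin, Fintype.card_fin] at h5
  have h7 : Fintype.card ι = r := by
    rw [mul_comm] at h5
    exact Nat.eq_of_mul_eq_mul_left ha0 h5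
  rw [h7]
  have h8 := card_le_of_ind hi fun i => hw.span _ (hg i)
  rwa [Fintype.card_fin] at h8

/-- **The `p`-rank of isogenous fields.** -/
theorem rank_isg₀ (h : Bas (K.map (frobenius Ω p)) K b) {e : ℕ} (h1 : ∀ a ∈ K, a ^ p ^ e ∈ M)
    (h2 : ∀ a ∈ M, a ^ p ^ e ∈ K) (hg : ∀ i, g i ∈ M)
    (hi : Ind (M.map (frobenius Ω p)) g) : Fintype.card κ ≤ Fintype.card ι := by
  refine rank_mid h (M := Pw p M e) (f := e + e) (g := fun i => g i ^ p ^ e) ?_ ?_ ?_
    (ind_Pw hi e)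
  · intro x hx
    obtain ⟨c, hc, rfl⟩ := mem_Pw.1 hx
    exact mem_Pw.2 ⟨c ^ p ^ e, h1 c hc, by rw [← pow_mul, ← pow_add]⟩
  · intro x hx
    obtain ⟨c, hc, rfl⟩ := mem_Pw.1 hx
    exact h2 c hc
  · exact fun i => mem_Pw.2 ⟨g i, hg i, rfl⟩

end Rank

section PRk

variable {k Ω : Type u} [Field k] [Field Ω] [Algebra k Ω] {v : RVal Ω}
  {p : ℕ} [hp : Fact p.Prime] [CharP Ω p] {A B C K L M N : IntermediateField k Ω} {d m : ℕ}

/-- `p`-rank at least `d`. -/
def PRk (p : ℕ) [Fact p.Prime] [CharP Ω p] (d : ℕ) (A : IntermediateField k Ω) : Prop :=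
  ∃ g : Fin (p ^ d) → Ω, (∀ i, g i ∈ A) ∧ Ind (Qp p A) g

theorem PRk.of_ind {κ : Type} [Fintype κ] {g : κ → Ω} (hc : Fintype.card κ = p ^ d)
    (hg : ∀ i, g i ∈ A) (hi : Ind (Qp p A) g) : PRk p d A := by
  obtain ⟨e⟩ : Nonempty (Fin (p ^ d) ≃ κ) := ⟨Fintype.equivOfCardEq (by rw [hc, Fintype.card_fin])⟩
  exact ⟨fun i => g (e i), fun i => hg _, hi.reindex e⟩

theorem PRk.le (h : PRk p d A) {n : ℕ} {t : Fin n → Ω} (ht : PBasis p A t) : d ≤ n := by
  obtain ⟨g, hg, hi⟩ := h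
  have h1 := card_le_of_ind hi fun i => ht.bas.span _ (hg i)
  rw [Fintype.card_fin, Fintype.card_fun, Fintype.card_fin, Fintype.card_fin] at h1
  exact (Nat.pow_le_pow_iff_right hp.out.one_lt).1 h1

theorem PRk.of_pbasis {n : ℕ} {t : Fin n → Ω} (ht : PBasis p A t) : PRk p n A :=
  PRk.of_ind (by rw [Fintype.card_fun, Fintype.card_fin, Fintype.card_fin]) ht.bas.mem ht.bas.ind

/-- Isogenous fields. -/
theorem PRk.le_isg (h : PRk p d M) {e : ℕ} (h1 : ∀ a ∈ K, a ^ p ^ e ∈ M)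
    (h2 : ∀ a ∈ M, a ^ p ^ e ∈ K) {n : ℕ} {t : Fin n → Ω} (ht : PBasis p K t) : d ≤ n := by
  obtain ⟨g, hg, hi⟩ := h
  have h3 := rank_isg₀ (p := p) (K := K.toSubfield) (M := M.toSubfield) ht.bas h1 h2 hg hi
  rw [Fintype.card_fin, Fintype.card_fun, Fintype.card_fin, Fintype.card_fin] at h3
  exact (Nat.pow_le_pow_iff_right hp.out.one_lt).1 h3

section Compl

variable [IsAlgClosed Ω]

/-- Towers. -/
theorem PRk.tow (h : PRk p d A) (hc : CompleteV v) (hA : Cld v A) (hT : TowR v m A B) :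
    PRk p (d + m) B := by
  obtain ⟨g, hg, hi⟩ := h
  obtain ⟨N, e, hN, he, hie⟩ := ind_tow hc hT hA hg hi
  exact PRk.of_ind (by rw [Fintype.card_fin, hN, pow_add]) he hie

/-- **Bounded distortion from the `p`-rank of the closure.** -/
theorem bd_of_prk [CharP k p] [IsAlgClosed k] (hc : CompleteV v) (hL : L.FG)
    (htr : Algebra.trdeg k L = d) (h : PRk p d (clI v L)) : BD p v L :=
  bd_of_le hc hL htr fun _ _ ht => h.le ht

/-- **Bounded distortion from the `p`-rank of a field isogenous to the closure.** -/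
theorem bd_of_prk_isg [CharP k p] [IsAlgClosed k] (hc : CompleteV v) (hL : L.FG)
    (htr : Algebra.trdeg k L = d) {e : ℕ} (h1 : ∀ a ∈ clI v L, a ^ p ^ e ∈ M)
    (h2 : ∀ a ∈ M, a ^ p ^ e ∈ clI v L) (h : PRk p d M) : BD p v L :=
  bd_of_le hc hL htr fun _ _ ht => h.le_isg h1 h2 ht

/-- The base of `T2`. -/
theorem prk_t2 (hc : CompleteV v) {X : ℕ → Ω} {y : Ω} {s : ℝ} (h : T2 p k v X y s) :
    PRk p 2 (CP (k := k) v (X 0) y) := by
  refine PRk.of_ind (by rw [Fintype.card_prod, Fintype.card_fin]; ring)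
    (fun i => mul_mem (pow_mem ?_ _) (pow_mem ?_ _)) (ind_of_t2 hc h)
  · exact le_cadj v _ y (self_mem_cadj v _ _)
  · exact self_mem_cadj v _ _

end Compl

/-- The base of a tight pair. -/
theorem prk_tp {x w : ℕ → Ω} {r s : ℝ} (h : TP p v C x w r s) : PRk p 2 C :=
  PRk.of_ind (by rw [Fintype.card_prod, Fintype.card_fin]; ring)
    (fun _ => mul_mem (pow_mem h.tgt.mem _) (pow_mem h.mem _)) (ind_of_tp h)

/-- **The base of a strict floor.** -/
theorem prk_sfl [IsAlgClosed Ω] {y : Ω} {σ : ℝ} {D : ℕ → Ω → Ω} (h : SFl p v N y σ D) :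
    PRk p 2 (cadj v N y) := by
  set C := cadj v N y with hC
  have hyC : y ∈ C := self_mem_cadj v N y
  have hD := h.hsd
  have hD1 : ∀ f ∈ C, ∀ g ∈ C, D 1 (f * g) = f * D 1 g + D 1 f * g := by
    intro f hf g hg
    have h1 := hD.mul 1 f hf g hg
    have h2 : Finset.HasAntidiagonal.antidiagonal (1 : ℕ) = {((0 : ℕ), (1 : ℕ)), (1, 0)} := rfl
    rw [h2, Finset.sum_insert (by simp), Finset.sum_singleton] at h1
    simp only [hD.c0 f hf, hD.c0 g hg] at h1
    exact h1
  have hpw : ∀ c ∈ C, D 1 (c ^ p) = 0 := by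
    intro c hc
    have h1 := hD.pow_zero (p := p) hc 1 1 (by
      rw [pow_one]
      intro h2
      exact hp.out.one_lt.ne' (Nat.dvd_one.1 h2))
    rwa [pow_one] at h1
  -- the field of constants of the first derivative
  let K : Subfield Ω :=
    { carrier := {c | c ∈ C ∧ D 1 c = 0}
      mul_mem' := fun {a b} ha hb => ⟨mul_mem ha.1 hb.1, by
        rw [hD1 a ha.1 b hb.1, ha.2, hb.2, mul_zero, zero_mul, add_zero]⟩
      one_mem' := ⟨one_mem C, hD.one 1 one_ne_zero⟩
      add_mem' := fun {a b} ha hb => ⟨add_mem ha.1 hb.1, by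
        rw [hD.add 1 a ha.1 b hb.1, ha.2, hb.2, add_zero]⟩
      zero_mem' := ⟨zero_mem C, hD.zero 1⟩
      neg_mem' := fun {a} ha => ⟨neg_mem ha.1, by rw [hD.neg 1 ha.1, ha.2, neg_zero]⟩
      inv_mem' := fun a ha => ⟨inv_mem ha.1, by
        by_cases h0 : a = 0
        · rw [h0, inv_zero]
          exact hD.zero 1
        · have h1 := hD1 a ha.1 a⁻¹ (inv_mem ha.1)
          rw [mul_inv_cancel₀ h0, hD.one 1 one_ne_zero, ha.2, zero_mul, add_zero] at h1
          exact (mul_eq_zero.1 h1.symm).resolve_left h0⟩ }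
  -- some constant is not a `p`-th power
  have key : ∃ a ∈ C, D 1 a = 0 ∧ a ∉ Qp p C := by
    by_contra hcon
    have hcon' : ∀ a ∈ C, D 1 a = 0 → ∃ c ∈ C, c ^ p = a := by
      intro a ha h1
      by_contra h2
      exact hcon ⟨a, ha, h1, fun h3 => h2 (mem_Qp.1 h3)⟩
    -- the constants of all the derivatives
    have hroot : ∀ (j : ℕ) (a : Ω), a ∈ C → (∀ l, l ≠ 0 → D l a = 0) →
        ∃ c ∈ C, (∀ l, l ≠ 0 → D l c = 0) ∧ c ^ p ^ j = a := by
      intro j
      induction j with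
      | zero => exact fun a ha h1 => ⟨a, ha, h1, by rw [pow_zero, pow_one]⟩
      | succ j ih =>
        intro a ha h1
        obtain ⟨c, hc, h2, h3⟩ := ih a ha h1
        obtain ⟨b, hb, h4⟩ := hcon' c hc (h2 1 one_ne_zero)
        refine ⟨b, hb, fun l hl => ?_, ?_⟩
        · have h5 := hD.pow_mul (p := p) hb 1 l
          rw [pow_one, h4, h2 (p * l) (mul_ne_zero hp.out.ne_zero hl)] at h5
          exact eq_zero_of_pow_eq_zero h5.symm
        · rw [pow_succ', pow_mul, h4, h3]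
    obtain ⟨η, hη, h1⟩ := h.str 1 one_ne_zero
    obtain ⟨j, n, hn, h2⟩ := h.lim (η / 2) (by linarith)
    obtain ⟨c, hc, h3, h4⟩ := hroot j n (le_cadj v N y hn) fun l hl => h.const hn hl
    have h5 : v.Ge (σ - η / 2) (y - c) := by
      have h6 : v.Ge (((p ^ j : ℕ) : ℝ) * (σ - η / 2)) ((y - c) ^ p ^ j) := by
        rw [sub_pow_char_pow, h4]
        push_cast
        exact h2
      exact ge_of_pow_a (pow_pos hp.out.pos j) h6
    have h6 := h1 (y - c) (sub_mem hyC hc) _ h5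
    rw [hD.sub 1 hyC hc, h.coord_one, h3 1 one_ne_zero, sub_zero] at h6
    have h7 := h6 one_ne_zero
    rw [v.map_one, Nat.cast_one, one_mul] at h7
    linarith
  obtain ⟨a, haC, ha0, ha⟩ := key
  have hQK : Qp p C ≤ K := by
    intro x hx
    obtain ⟨c, hc, rfl⟩ := mem_Qp.1 hx
    exact ⟨pow_mem hc p, hpw c hc⟩
  have hyK : y ∉ K := fun h1 => by
    have h2 := h1.2
    rw [h.coord_one] at h2
    exact one_ne_zero h2
  have hypK : y ^ p ∈ K := ⟨pow_mem hyC p, hpw y hyC⟩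
  exact PRk.of_ind (by rw [Fintype.card_prod, Fintype.card_fin]; ring)
    (fun _ => mul_mem (pow_mem haC _) (pow_mem hyC _))
    (ind_pair (K := K) ha (mem_Qp.2 ⟨a, haC, rfl⟩) hQK ⟨haC, ha0⟩ (bas_pow hyK hypK).ind)

end PRk

end Pool.Agent.TWC
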