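import Pool.Agent.Lib.TWC.Theta
import Pool.Agent.Lib.D2P.TTP

/-!
# TANK W: strict or finite

`z` is an element at distance `≤ s` of the elements of `Ω` which are algebraic over the field `F`; the
jet of order `l` at `z` of the polynomial `f` over `F` has value `≥ v(f(z)) - l s`.

* `Sd v F z l b`: the jet of order `l` has norm `< b` on `F[z]`;
* `jd_core`: if the jets of order `< q` are strict, and the jet of order `q` is strict on the
  `f(z ^ p)`, then the jet of order `q` is proportional to the jet of order one, up to an operator of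
  norm `< q s`;
* `jd`: for an increasing family of fields `F i`, approaching `z` up to `s`: if the jet of order one
  is strict on all the `F i [z]`, then all the jets are strict.
-/

set_option autoImplicit false

open Polynomial

namespace Pool.Agent.TWC

open Pool.Agent.H15JM (RVal)
open Pool.Agent.LU1 (VPos adj)
open Pool.Agent.D2 (Ctx0)
open Pool.Agent.D2P (hen clI mem_clI)
open Pool.Agent.TWM Pool.Agent.TWM.C

universe u

variable {k Ω : Type u} [Field k] [Field Ω] [Algebra k Ω] {v : RVal Ω}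
  {F R : IntermediateField k Ω} {z : Ω} {s : ℝ}

/-- The jet of order `l` has norm `< b` on `F[z]`. -/
def Sd (v : RVal Ω) (F : IntermediateField k Ω) (z : Ω) (l : ℕ) (b : ℝ) : Prop :=
  ∃ η : ℝ, 0 < η ∧ ∀ f ∈ PI F, ∀ r : ℝ, v.Ge r (f.eval z) → v.Ge (r - b + η) ((taylor z f).coeff l)

theorem Sd.mono {l : ℕ} {b : ℝ} (h : Sd v R z l b) (hF : F ≤ R) : Sd v F z l b := by
  obtain ⟨η, hη, h1⟩ := h
  exact ⟨η, hη, fun f hf => h1 f (PI_mono hF hf)⟩

/-- A common margin. -/
theorem Sd.unif {q : ℕ} (h : ∀ l, 1 ≤ l → l < q → Sd v F z l (l * s)) :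
    ∃ η : ℝ, 0 < η ∧ ∀ l, 1 ≤ l → l < q → ∀ f ∈ PI F, ∀ r : ℝ, v.Ge r (f.eval z) →
      v.Ge (r - l * s + η) ((taylor z f).coeff l) := by
  induction q with
  | zero => exact ⟨1, one_pos, fun l _ hl => absurd hl (Nat.not_lt_zero l)⟩
  | succ q ih =>
    obtain ⟨η, hη, h1⟩ := ih fun l hl hl' => h l hl (hl'.trans (Nat.lt_succ_self q))
    rcases Nat.eq_zero_or_pos q with hq | hq
    · subst hq
      exact ⟨1, one_pos, fun l h1 hl => absurd hl (by omega)⟩
    obtain ⟨η', hη', h2⟩ := h q hq (Nat.lt_succ_self q)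
    refine ⟨min η η', lt_min hη hη', fun l hl hl' f hf r hr => ?_⟩
    rcases Nat.lt_succ_iff_lt_or_eq.1 hl' with h3 | h3
    · exact (h1 l hl h3 f hf r hr).mono (by linarith [min_le_left η η'])
    · subst h3
      exact (h2 f hf r hr).mono (by linarith [min_le_right η η'])

section

variable [IsAlgClosed Ω]

/-- The trivial bound of the jets. -/
theorem jet_ge (hfar : ∀ θ : Ω, IsAlgebraic F θ → z ≠ θ ∧ v (z - θ) ≤ s) {f : Polynomial Ω}
    (hf : f ∈ PI F) {r : ℝ} (hr : v.Ge r (f.eval z)) (l : ℕ) :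
    v.Ge (r - l * s) ((taylor z f).coeff l) := by
  by_cases h0 : f = 0
  · rw [h0, map_zero, coeff_zero]
    exact RVal.Ge.zero
  have h1 := Roots.taylor_ge h0 (fun θ hθ => hfar θ (isAlgebraic_root hf h0 hθ)) l
  refine h1.mono ?_
  have h2 : f.eval z ≠ 0 := fun h => (hfar z (isAlgebraic_root hf h0 h)).1 rfl
  linarith [hr h2]

/-- `z` is transcendental. -/
theorem jet_ne (hfar : ∀ θ : Ω, IsAlgebraic F θ → z ≠ θ ∧ v (z - θ) ≤ s) {f : Polynomial Ω}
    (hf : f ∈ PI F) (h0 : f ≠ 0) : f.eval z ≠ 0 :=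
  fun h => (hfar z (isAlgebraic_root hf h0 h)).1 rfl

end

/-- The product rule. -/
theorem jet_mul (f g : Polynomial Ω) (l : ℕ) : (taylor z (f * g)).coeff l =
    ∑ x ∈ Finset.HasAntidiagonal.antidiagonal l, (taylor z f).coeff x.1 * (taylor z g).coeff x.2 := by
  rw [taylor_mul, coeff_mul]

/-- The product rule, up to the intermediate jets. -/
theorem jet_mul_err {η : ℝ} {q : ℕ} (hq : 1 ≤ q) (hη : 0 < η)
    (hu : ∀ l, 1 ≤ l → l < q → ∀ f ∈ PI F, ∀ r : ℝ, v.Ge r (f.eval z) →
      v.Ge (r - l * s + η) ((taylor z f).coeff l)) {f g : Polynomial Ω} (hf : f ∈ PI F)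
    (hg : g ∈ PI F) {a b : ℝ} (ha : v.Ge a (f.eval z)) (hb : v.Ge b (g.eval z)) :
    v.Ge (a + b - q * s + η) ((taylor z (f * g)).coeff q -
      (f.eval z * (taylor z g).coeff q + (taylor z f).coeff q * g.eval z)) := by
  classical
  rw [jet_mul, Finset.Nat.sum_antidiagonal_eq_sum_range_succ
    (fun i j => (taylor z f).coeff i * (taylor z g).coeff j), Finset.sum_range_succ,
    ← Finset.add_sum_erase (Finset.range q) _ (Finset.mem_range.2 hq)]
  simp only [Nat.sub_zero, Nat.sub_self, taylor_coeff_zero]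
  have e : ∀ A B S : Ω, A + S + B - (A + B) = S := fun A B S => by ring
  rw [e]
  refine RVal.Ge.sum _ _ fun i hi => ?_
  rw [Finset.mem_erase, Finset.mem_range] at hi
  have h1 := hu i (by omega) hi.2 f hf a ha
  have h2 := hu (q - i) (by omega) (by omega) g hg b hb
  refine (h1.mul h2).mono ?_
  have h3 : ((q - i : ℕ) : ℝ) = q - i := by
    rw [Nat.cast_sub hi.2.le]
  rw [h3]
  linarith

section

variable (p : ℕ) [hp : Fact p.Prime]

/-- The elements of `F(t)`. -/
theorem exists_frac {t a : Ω} (ha : a ∈ adj F t) :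
    ∃ G ∈ PI F, ∃ H ∈ PI F, H.eval t ≠ 0 ∧ a * H.eval t = G.eval t := by
  obtain ⟨P, Q, hPQ⟩ := D2P.mem_adj_frac ha
  have hm : ∀ P : Polynomial F, P.map (algebraMap F Ω) ∈ PI F := fun P i => by
    rw [coeff_map]
    exact SetLike.coe_mem _
  by_cases h : aeval t Q = 0
  · refine ⟨0, zero_mem _, 1, one_mem _, by rw [eval_one]; exact one_ne_zero, ?_⟩
    rw [hPQ, h, div_zero, zero_mul, eval_zero]
  · refine ⟨_, hm P, _, hm Q, ?_, ?_⟩
    · rwa [eval_map_algebraMap]
    · rw [eval_map_algebraMap, eval_map_algebraMap, hPQ, div_mul_cancel₀ _ h]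

/-- The expansion along `X H(X ^ p) - G(X ^ p)`. -/
theorem exists_digits_frac {f G H : Polynomial Ω} (hf : f ∈ PI F) (hG : G ∈ PI F) (hH : H ∈ PI F) :
    ∃ b : ℕ → Polynomial Ω, (∀ j, b j ∈ PI F) ∧ f * expand Ω p (H ^ (p - 1)) =
      ∑ j ∈ Finset.range p, expand Ω p (b j) * (X * expand Ω p H - expand Ω p G) ^ j := by
  classical
  obtain ⟨Q, hQ, h1⟩ := exists_digits p hf (zero_mem F)
  refine ⟨fun j => ∑ a ∈ Finset.range p, Q a * ((a.choose j : ℕ) : Polynomial Ω) * G ^ (a - j) *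
    H ^ (p - 1 - a), fun j => sum_mem fun a _ => mul_mem (mul_mem (mul_mem (hQ a)
      (natCast_mem _ _)) (pow_mem hG _)) (pow_mem hH _), ?_⟩
  have h2 : ∀ a ∈ Finset.range p, X ^ a * expand Ω p (H ^ (p - 1)) =
      ∑ j ∈ Finset.range p, expand Ω p (((a.choose j : ℕ) : Polynomial Ω) * G ^ (a - j) *
        H ^ (p - 1 - a)) * (X * expand Ω p H - expand Ω p G) ^ j := by
    intro a ha
    rw [Finset.mem_range] at ha
    have h3 : X ^ a * expand Ω p (H ^ (p - 1)) = expand Ω p (H ^ (p - 1 - a)) *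
        ((X * expand Ω p H - expand Ω p G) + expand Ω p G) ^ a := by
      rw [sub_add_cancel, mul_pow, ← map_pow, mul_comm (X ^ a) (expand Ω p (H ^ a)), ← mul_assoc,
        ← map_mul, ← pow_add, show p - 1 - a + a = p - 1 by omega, mul_comm]
    rw [h3, add_pow, Finset.mul_sum]
    have h4 : Finset.range (a + 1) ⊆ Finset.range p := Finset.range_subset_range.2 (by omega)
    rw [← Finset.sum_subset h4 fun j _ hj => ?_]
    · refine Finset.sum_congr rfl fun j _ => ?_
      rw [map_mul, map_mul, map_natCast, ← map_pow]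
      ring
    · rw [Finset.mem_range, not_lt] at hj
      rw [Nat.choose_eq_zero_of_lt (by omega), Nat.cast_zero, zero_mul, zero_mul, map_zero,
        zero_mul]
  conv_lhs => rw [h1]
  rw [Finset.sum_mul]
  simp only [map_sum, Finset.sum_mul]
  rw [Finset.sum_comm]
  refine Finset.sum_congr rfl fun a ha => ?_
  rw [C_0, sub_zero, mul_assoc, h2 a ha, Finset.mul_sum]
  refine Finset.sum_congr rfl fun j _ => ?_
  simp only [map_mul]
  ring

end

/-! ### The core -/

section Core

variable (p : ℕ) [hp : Fact p.Prime] [CharP k p] [CharP Ω p] [IsAlgClosed Ω]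

omit [CharP k p] [IsAlgClosed Ω] in
/-- The jets of `f(X ^ p)`. -/
theorem jet_expand (f : Polynomial Ω) (l : ℕ) : (taylor z (expand Ω p f)).coeff l =
    if p ∣ l then (taylor (z ^ p) f).coeff (l / p) else 0 := by
  rw [taylor_expand p, coeff_expand hp.out.pos]

omit [CharP k p] [IsAlgClosed Ω] in
theorem jet_expand_one (f : Polynomial Ω) : (taylor z (expand Ω p f)).coeff 1 = 0 := by
  rw [jet_expand p, if_neg]
  intro h
  exact hp.out.one_lt.ne' (Nat.dvd_one.1 h)

omit [CharP k p] [IsAlgClosed Ω] in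
/-- The jet of order one of `X H(X ^ p) - G(X ^ p)`. -/
theorem jet_W_one (G H : Polynomial Ω) :
    (taylor z (X * expand Ω p H - expand Ω p G)).coeff 1 = H.eval (z ^ p) := by
  rw [map_sub, coeff_sub, jet_expand_one p, sub_zero, taylor_mul, taylor_X, add_mul, coeff_add,
    coeff_X_mul, coeff_C_mul, jet_expand_one p, mul_zero, add_zero, taylor_coeff_zero, expand_eval]

omit [CharP k p] in
/-- `z` is at distance `≤ s` of `F(z ^ p)`. -/
theorem dist_le_adj (hfar : ∀ θ : Ω, IsAlgebraic F θ → z ≠ θ ∧ v (z - θ) ≤ s) {a : Ω}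
    (ha : a ∈ adj F (z ^ p)) : z ≠ a ∧ v (z - a) ≤ s := by
  obtain ⟨G, hG, H, hH, h1, h2⟩ := exists_frac ha
  have hE : ∀ f ∈ PI F, expand Ω p f ∈ PI F := fun f hf i => by
    rw [coeff_expand hp.out.pos]
    split_ifs
    exacts [hf _, zero_mem F]
  set W : Polynomial Ω := X * expand Ω p H - expand Ω p G with hW
  have hWF : W ∈ PI F := sub_mem (mul_mem X_mem_PI (hE H hH)) (hE G hG)
  have hWe : W.eval z = (z - a) * H.eval (z ^ p) := by
    rw [hW, eval_sub, eval_mul, eval_X, expand_eval, expand_eval, sub_mul, h2]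
  have hW0 : W ≠ 0 := by
    intro h
    have := jet_W_one (z := z) p G H
    rw [← hW, h, map_zero, coeff_zero] at this
    exact h1 this.symm
  have hWz := jet_ne hfar hWF hW0
  have hza : z - a ≠ 0 := fun h => hWz (by rw [hWe, h, zero_mul])
  have h3 := jet_ge hfar hWF (RVal.ge_self (v := v) (W.eval z)) 1
  rw [hW, jet_W_one p, ← hW] at h3
  have h4 := h3 h1
  rw [hWe, v.map_mul hza h1, Nat.cast_one, one_mul] at h4
  exact ⟨sub_ne_zero.1 hza, by linarith⟩

/-- The jet of order `q` is proportional to the jet of order one, up to an operator of norm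
`< q s`. -/
theorem jd_core (h0 : Ctx0 k v) (hfar : ∀ θ : Ω, IsAlgebraic F θ → z ≠ θ ∧ v (z - θ) ≤ s)
    {q : ℕ} (hq : 2 ≤ q) (hlow : ∀ l, 1 ≤ l → l < q → Sd v F z l (l * s))
    (hB : ∃ η : ℝ, 0 < η ∧ ∀ b ∈ PI F, ∀ r : ℝ, v.Ge r (b.eval (z ^ p)) →
      v.Ge (r - q * s + η) ((taylor z (expand Ω p b)).coeff q)) :
    ∃ μ : Ω, ∃ η : ℝ, 0 < η ∧ ∀ f ∈ PI F, ∀ r : ℝ, v.Ge r (f.eval z) →
      v.Ge (r - q * s + η) ((taylor z f).coeff q - μ * (taylor z f).coeff 1) := by
  classical
  have hE : ∀ f ∈ PI F, expand Ω p f ∈ PI F := fun f hf i => by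
    rw [coeff_expand hp.out.pos]
    split_ifs
    exacts [hf _, zero_mem F]
  obtain ⟨η₀, hη₀, hu⟩ := Sd.unif hlow
  obtain ⟨η₁, hη₁, hB⟩ := hB
  set η := min η₀ η₁ with hη
  have hη' : 0 < η := lt_min hη₀ hη₁
  have hp0 : (0 : ℝ) < p := by exact_mod_cast hp.out.pos
  -- the distance
  set S : Set ℝ := {r | ∃ a ∈ adj F (z ^ p), r = v (z - a)} with hS
  have hSb : BddAbove S := ⟨s, by
    rintro r ⟨a, ha, rfl⟩
    exact (dist_le_adj p hfar ha).2⟩
  have hSn : S.Nonempty := ⟨_, 0, zero_mem _, rfl⟩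
  set d := sSup S with hd
  have hle : ∀ a ∈ adj F (z ^ p), v (z - a) ≤ d := fun a ha => le_csSup hSb ⟨a, ha, rfl⟩
  have hst : PStep p v (cadj v F (z ^ p)) z d := by
    refine ⟨cld_cadj _ _ _, self_mem_cadj _ _ _, ?_⟩
    rintro ⟨a, ha, h1⟩
    rcases eq_or_ne z a with h2 | h2
    · obtain ⟨x, hx, h3⟩ := ha (d + 1)
      rw [← h2] at h3
      have h4 := h3 (sub_ne_zero.2 (dist_le_adj p hfar hx).1)
      linarith [hle x hx]
    · obtain ⟨x, hx, h3⟩ := ha (v (z - a))
      have h4 : v.Ge (v (z - a)) (z - x) := by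
        rw [show z - x = (z - a) + (a - x) by ring]
        exact (RVal.ge_self _).add h3
      have h5 := h4 (sub_ne_zero.2 (dist_le_adj p hfar hx).1)
      have h6 := h1 (sub_ne_zero.2 h2)
      linarith [hle x hx]
  -- the centre
  set γ := η / (2 * p) with hγ
  have hγ0 : 0 < γ := by positivity
  obtain ⟨r, ⟨a, ha, rfl⟩, har⟩ := exists_lt_of_lt_csSup hSn (show d - γ < sSup S by
    rw [← hd]; linarith)
  obtain ⟨G, hG, H, hH, hH0, hGH⟩ := exists_frac ha
  have hao := AO.stepW p h0 hst (LUC.Cl.subset ha) hγ0.le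
    (RVal.Ge.of_le (v := v) (x := z - a) har.le)
  set W : Polynomial Ω := X * expand Ω p H - expand Ω p G with hW
  have hWF : W ∈ PI F := sub_mem (mul_mem X_mem_PI (hE H hH)) (hE G hG)
  have hWe : W.eval z = (z - a) * H.eval (z ^ p) := by
    rw [hW, eval_sub, eval_mul, eval_X, expand_eval, expand_eval, sub_mul, hGH]
  have hza : z - a ≠ 0 := sub_ne_zero.2 (dist_le_adj p hfar ha).1
  have hWz : W.eval z ≠ 0 := by rw [hWe]; exact mul_ne_zero hza hH0
  have hW1 : (taylor z W).coeff 1 = H.eval (z ^ p) := jet_W_one p G H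
  set μ : Ω := (taylor z W).coeff q / H.eval (z ^ p) with hμ
  -- the multiplicative property
  have hQm : ∀ U ∈ PI F, ∀ U' ∈ PI F, ∀ a a' : ℝ, v.Ge a (U.eval z) → v.Ge a' (U'.eval z) →
      v.Ge (a - q * s + η) ((taylor z U).coeff q - μ * (taylor z U).coeff 1) →
      v.Ge (a' - q * s + η) ((taylor z U').coeff q - μ * (taylor z U').coeff 1) →
      v.Ge (a + a' - q * s + η) ((taylor z (U * U')).coeff q -
        μ * (taylor z (U * U')).coeff 1) := by
    intro U hU U' hU' a a' h1 h2 h3 h4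
    have h5 := jet_mul_err (by omega : 1 ≤ q) hη₀ hu hU hU' h1 h2
    have h6 : (taylor z (U * U')).coeff 1 = U.eval z * (taylor z U').coeff 1 +
        (taylor z U).coeff 1 * U'.eval z := by
      rw [jet_mul, Finset.Nat.sum_antidiagonal_eq_sum_range_succ
        (fun i j => (taylor z U).coeff i * (taylor z U').coeff j), Finset.sum_range_succ,
        Finset.sum_range_one]
      simp only [Nat.sub_zero, Nat.sub_self, taylor_coeff_zero]
    rw [h6, show (taylor z (U * U')).coeff q - μ * (U.eval z * (taylor z U').coeff 1 +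
        (taylor z U).coeff 1 * U'.eval z) =
      ((taylor z (U * U')).coeff q - (U.eval z * (taylor z U').coeff q + (taylor z U).coeff q *
        U'.eval z)) + (U.eval z * ((taylor z U').coeff q - μ * (taylor z U').coeff 1) +
        ((taylor z U).coeff q - μ * (taylor z U).coeff 1) * U'.eval z) by ring]
    refine RVal.Ge.add (h5.mono ?_) (RVal.Ge.add ((h1.mul h4).mono ?_) ((h3.mul h2).mono ?_))
    · linarith [min_le_left η₀ η₁]
    · linarith
    · linarith
  have hQexp : ∀ b ∈ PI F, ∀ r : ℝ, v.Ge r (b.eval (z ^ p)) →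
      v.Ge (r - q * s + η) ((taylor z (expand Ω p b)).coeff q -
        μ * (taylor z (expand Ω p b)).coeff 1) := by
    intro b hb r hr
    rw [jet_expand_one p, mul_zero, sub_zero]
    exact (hB b hb r hr).mono (by linarith [min_le_right η₀ η₁])
  have hQW : ∀ j : ℕ, v.Ge (j * v (W.eval z) - q * s + η) ((taylor z (W ^ j)).coeff q -
      μ * (taylor z (W ^ j)).coeff 1) := by
    intro j
    induction j with
    | zero =>
      rw [pow_zero, taylor_one, C_1, coeff_one, coeff_one, if_neg (by omega), if_neg (by omega),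
        mul_zero, sub_zero]
      exact RVal.Ge.zero
    | succ j ih =>
      rw [pow_succ]
      have h1 := hQm (W ^ j) (pow_mem hWF j) W hWF (j * v (W.eval z)) (v (W.eval z))
        (by rw [eval_pow]; exact ge_pow (RVal.ge_self _) j) (RVal.ge_self _) ih (by
          rw [hW1, hμ, div_mul_cancel₀ _ hH0, sub_self]
          exact RVal.Ge.zero)
      refine h1.mono ?_
      push_cast
      linarith
  refine ⟨μ, η / 2, half_pos hη', fun f hf r hr => ?_⟩
  obtain ⟨b, hb, hfb⟩ := exists_digits_frac p hf hG hH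
  rw [← hW] at hfb
  set P : Polynomial Ω := expand Ω p (H ^ (p - 1)) with hP
  have hPF : P ∈ PI F := hE _ (pow_mem hH _)
  have hPe : P.eval z = H.eval (z ^ p) ^ (p - 1) := by rw [hP, expand_eval, eval_pow]
  have hPz : P.eval z ≠ 0 := by rw [hPe]; exact pow_ne_zero _ hH0
  set r' := r + v (P.eval z) with hr'
  have hfP : v.Ge r' ((f * P).eval z) := by
    rw [eval_mul]
    exact hr.mul (RVal.ge_self _)
  -- the terms
  have hterm : ∀ j : Fin p, v.Ge (r' - p * γ) ((b j).eval (z ^ p) * W.eval z ^ (j : ℕ)) := by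
    intro j
    have h1 := hao (fun i => (b i).eval (z ^ p) * H.eval (z ^ p) ^ (i : ℕ)) (fun i => by
      have hm : ∀ g ∈ PI F, g.eval (z ^ p) ∈ cadj v F (z ^ p) := fun g hg =>
        eval_mem (PI_mono (le_cadj v F _) hg) (self_mem_cadj v F _)
      exact mul_mem (hm _ (hb i)) (pow_mem (hm _ hH) _)) r' (by
      have h2 : ∑ i : Fin p, (b i).eval (z ^ p) * H.eval (z ^ p) ^ (i : ℕ) * (z - a) ^ (i : ℕ) =
          (f * P).eval z := by
        rw [hfb, eval_finsetSum, Finset.sum_range]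
        refine Finset.sum_congr rfl fun i _ => ?_
        rw [eval_mul, expand_eval, eval_pow, hWe, mul_pow]
        ring
      rw [h2]
      exact hfP) j
    change v.Ge _ ((b j).eval (z ^ p) * H.eval (z ^ p) ^ (j : ℕ) * (z - a) ^ (j : ℕ)) at h1
    rw [hWe, mul_pow, show (b j).eval (z ^ p) * ((z - a) ^ (j : ℕ) * H.eval (z ^ p) ^ (j : ℕ)) =
      (b j).eval (z ^ p) * H.eval (z ^ p) ^ (j : ℕ) * (z - a) ^ (j : ℕ) by ring]
    exact h1
  have hsum : v.Ge (r' - p * γ - q * s + η) ((taylor z (f * P)).coeff q -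
      μ * (taylor z (f * P)).coeff 1) := by
    rw [hfb, map_sum, finsetSum_coeff, finsetSum_coeff, Finset.mul_sum, ← Finset.sum_sub_distrib]
    refine RVal.Ge.sum _ _ fun j hj => ?_
    rw [Finset.mem_range] at hj
    by_cases hbj : (b j).eval (z ^ p) = 0
    · have hbj0 : b j = 0 := by
        by_contra h1
        have h2 := jet_ne hfar (hE _ (hb j)) (fun h => h1 ((expand_eq_zero hp.out.pos).1 h))
        rw [expand_eval] at h2
        exact h2 hbj
      rw [hbj0, map_zero, zero_mul, map_zero, coeff_zero, coeff_zero, mul_zero, sub_zero]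
      exact RVal.Ge.zero
    · have h1 := hQm _ (hE _ (hb j)) _ (pow_mem hWF j) (v ((b j).eval (z ^ p)))
        (j * v (W.eval z)) (by rw [expand_eval]; exact RVal.ge_self _)
        (by rw [eval_pow]; exact ge_pow (RVal.ge_self _) j) (hQexp _ (hb j) _ (RVal.ge_self _))
        (hQW j)
      have h2 := hterm ⟨j, hj⟩ (mul_ne_zero hbj (pow_ne_zero _ hWz))
      change _ ≤ v ((b j).eval (z ^ p) * W.eval z ^ j) at h2
      rw [v.map_mul hbj (pow_ne_zero _ hWz), v.map_pow hWz] at h2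
      exact h1.mono (by linarith)
  -- division by `P`
  have h6 : (taylor z (f * P)).coeff 1 = f.eval z * (taylor z P).coeff 1 +
      (taylor z f).coeff 1 * P.eval z := by
    rw [jet_mul, Finset.Nat.sum_antidiagonal_eq_sum_range_succ
      (fun i j => (taylor z f).coeff i * (taylor z P).coeff j), Finset.sum_range_succ,
      Finset.sum_range_one]
    simp only [Nat.sub_zero, Nat.sub_self, taylor_coeff_zero]
  have hPQ := hQexp _ (pow_mem hH (p - 1)) (v (P.eval z)) (by
    rw [hPe, eval_pow]; exact RVal.ge_self _)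
  rw [← hP] at hPQ
  have h7 := jet_mul_err (by omega : 1 ≤ q) hη₀ hu hf hPF hr (RVal.ge_self (v := v) (P.eval z))
  have h8 : v.Ge (r' - p * γ - q * s + η) (((taylor z f).coeff q - μ * (taylor z f).coeff 1) *
      P.eval z) := by
    rw [show ((taylor z f).coeff q - μ * (taylor z f).coeff 1) * P.eval z =
      ((taylor z (f * P)).coeff q - μ * (f.eval z * (taylor z P).coeff 1 +
      (taylor z f).coeff 1 * P.eval z)) - ((taylor z (f * P)).coeff q -
      (f.eval z * (taylor z P).coeff q + (taylor z f).coeff q * P.eval z)) -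
      f.eval z * ((taylor z P).coeff q - μ * (taylor z P).coeff 1) by ring]
    have hpγ : 0 ≤ p * γ := by positivity
    refine RVal.Ge.sub (RVal.Ge.sub ?_ (h7.mono ?_)) ((hr.mul hPQ).mono ?_)
    · rw [← h6]
      exact hsum
    · linarith [min_le_left η₀ η₁]
    · linarith
  intro h9
  have h10 := h8 (mul_ne_zero h9 hPz)
  rw [v.map_mul h9 hPz] at h10
  have h11 : p * γ = η / 2 := by
    rw [hγ]
    field_simp
  rw [h11] at h10
  linarith

end Core

/-! ### Strict or finite -/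

section JD

variable (p : ℕ) [hp : Fact p.Prime] [CharP Ω p]

/-- The jets of the `p`-th powers of the polynomials over `R`. -/
theorem exists_sqrt_poly (hR : ∀ a ∈ F, ∃ b ∈ R, b ^ p = a) {f : Polynomial Ω} (hf : f ∈ PI F) :
    ∃ g ∈ PI R, g ^ p = expand Ω p f := by
  classical
  choose! b hb hbp using hR
  refine ⟨∑ i ∈ f.support, C (b (f.coeff i)) * X ^ i, sum_mem fun i _ => mul_mem
    (C_mem_PI (hb _ (hf i))) (pow_mem X_mem_PI _), ?_⟩
  rw [sum_pow_char]
  conv_rhs => rw [f.as_sum_support_C_mul_X_pow]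
  rw [map_sum]
  refine Finset.sum_congr rfl fun i _ => ?_
  rw [mul_pow, ← C_pow, hbp _ (hf i), map_mul, expand_C, map_pow, expand_X, ← pow_mul, ← pow_mul,
    mul_comm i p]

theorem jet_pow_char (g : Polynomial Ω) (l : ℕ) : (taylor z (g ^ p)).coeff l =
    if p ∣ l then (taylor z g).coeff (l / p) ^ p else 0 := by
  rw [taylor_pow, ← map_frobenius_expand, coeff_map, coeff_expand hp.out.pos]
  split_ifs
  · rfl
  · exact map_zero _

/-- The jet of order `q` on the `f(X ^ p)`, in terms of the jet of order `q / p` over `F ^ (1/p)`. -/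
theorem Sd.expand (hR : ∀ a ∈ F, ∃ b ∈ R, b ^ p = a) {q : ℕ} (hq : 1 ≤ q)
    (h : p ∣ q → Sd v R z (q / p) ((q / p : ℕ) * s)) :
    ∃ η : ℝ, 0 < η ∧ ∀ b ∈ PI F, ∀ r : ℝ, v.Ge r (b.eval (z ^ p)) →
      v.Ge (r - q * s + η) ((taylor z (Polynomial.expand Ω p b)).coeff q) := by
  have hp0 : (0 : ℝ) < p := by exact_mod_cast hp.out.pos
  by_cases hd : p ∣ q
  · obtain ⟨η, hη, h1⟩ := h hd
    refine ⟨p * η, by positivity, fun b hb r hr => ?_⟩
    obtain ⟨g, hg, hgb⟩ := exists_sqrt_poly p hR hb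
    rw [← hgb, jet_pow_char p, if_pos hd]
    have h2 : v.Ge (r / p) (g.eval z) := by
      intro h3
      have h4 := hr (by rw [← expand_eval, ← hgb, eval_pow]; exact pow_ne_zero _ h3)
      rw [← expand_eval, ← hgb, eval_pow, v.map_pow h3] at h4
      rw [div_le_iff₀ hp0]
      linarith
    refine (ge_pow (h1 g hg _ h2) p).mono ?_
    have h5 : (((q / p : ℕ) : ℝ)) * p = q := by
      exact_mod_cast Nat.div_mul_cancel hd
    have h6 : (p : ℝ) * (r / p) = r := by field_simp
    have h7 : (p : ℝ) * (r / p - (q / p : ℕ) * s + η) = r - q * s + p * η := by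
      rw [mul_add, mul_sub, h6, ← mul_assoc, mul_comm (p : ℝ) ((q / p : ℕ) : ℝ), h5]
    exact h7.ge
  · refine ⟨1, one_pos, fun b _ r _ => ?_⟩
    rw [jet_expand p, if_neg hd]
    exact RVal.Ge.zero

variable [CharP k p] [IsAlgClosed Ω]

/-- Strict or finite: if the jet of order one is strict on all the `F i [z]`, then all the jets are
strict. -/
theorem jd (h0 : Ctx0 k v) {F R : ℕ → IntermediateField k Ω} (hF : ∀ i, F i ≤ F (i + 1))
    (hR : ∀ i, ∀ a ∈ F i, ∃ b ∈ R i, b ^ p = a)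
    (hfar : ∀ i, ∀ θ : Ω, IsAlgebraic (F i) θ → z ≠ θ ∧ v (z - θ) ≤ s)
    (hC : ∀ i l, 1 ≤ l → Sd v (F (i + 1)) z l (l * s) → Sd v (R i) z l (l * s))
    (hlim : ∀ ε : ℝ, 0 < ε → ∃ i, ∃ a ∈ F i, v.Ge (s - ε) (z - a))
    (h1 : ∀ i, Sd v (F i) z 1 s) (i : ℕ) {l : ℕ} (hl : 1 ≤ l) : Sd v (F i) z l (l * s) := by
  classical
  by_contra hno
  have hmono : Monotone F := monotone_nat_of_le_succ hF
  -- the minimal exact order
  have hex : ∃ q, ∃ j, i ≤ j ∧ 1 ≤ q ∧ ¬ Sd v (F j) z q (q * s) := ⟨l, i, le_rfl, hl, hno⟩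
  set q := Nat.find hex with hq
  obtain ⟨j₀, hj₀, hq1, hqj⟩ := Nat.find_spec hex
  rw [← hq] at hq1 hqj
  have hqn : ∀ j, j₀ ≤ j → ¬ Sd v (F j) z q (q * s) := fun j hj h => hqj (h.mono (hmono hj))
  have hlow : ∀ j, j₀ ≤ j → ∀ l, 1 ≤ l → l < q → Sd v (F j) z l (l * s) := by
    intro j hj l hl hlq
    by_contra h
    exact Nat.find_min hex hlq ⟨j, hj₀.trans hj, hl, h⟩
  have hq2 : 2 ≤ q := by
    by_contra h
    have h2 : q = 1 := by omega
    apply hqj
    rw [h2, Nat.cast_one, one_mul]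
    exact h1 j₀
  -- the core, on all the `F j`
  have hcore : ∀ j, j₀ ≤ j → ∃ μ : Ω, ∃ η : ℝ, 0 < η ∧ ∀ f ∈ PI (F j), ∀ r : ℝ,
      v.Ge r (f.eval z) → v.Ge (r - q * s + η) ((taylor z f).coeff q -
        μ * (taylor z f).coeff 1) := by
    intro j hj
    refine jd_core p h0 (hfar j) hq2 (hlow j hj) (Sd.expand p (hR j) hq1 fun hd => ?_)
    have h2 : 1 ≤ q / p := Nat.div_pos (Nat.le_of_dvd (by omega) hd) hp.out.pos
    exact hC j _ h2 (hlow (j + 1) (hj.trans (Nat.le_succ j)) _ h2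
      (Nat.div_lt_self (by omega) hp.out.one_lt))
  -- the norm of the jet of order one does not grow
  have hstep : ∀ j, j₀ ≤ j → ∀ b b' : ℝ, b' < b →
      (∀ f ∈ PI (F j), ∀ r : ℝ, v.Ge r (f.eval z) → v.Ge (r - b') ((taylor z f).coeff 1)) →
      ∀ f ∈ PI (F (j + 1)), ∀ r : ℝ, v.Ge r (f.eval z) → v.Ge (r - b) ((taylor z f).coeff 1) := by
    intro j hj b b' hb hj1 f hf r hr
    by_contra hcon
    obtain ⟨μ, η, hη, hμ⟩ := hcore (j + 1) (hj.trans (Nat.le_succ j))
    have hf1 : (taylor z f).coeff 1 ≠ 0 := fun h => hcon (by rw [h]; exact RVal.Ge.zero)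
    have hf2 : v ((taylor z f).coeff 1) < r - b := by
      by_contra h
      exact hcon (RVal.Ge.of_le (not_lt.1 h))
    -- the value of `μ`
    have hμv : v.Ge (b - q * s) μ := by
      intro hμ0
      have h2 := hμ f hf r hr
      have h3 := jet_ge (hfar (j + 1)) hf hr q
      have h4 : v.Ge (r - q * s) (μ * (taylor z f).coeff 1) := by
        rw [show μ * (taylor z f).coeff 1 = (taylor z f).coeff q - ((taylor z f).coeff q -
          μ * (taylor z f).coeff 1) by ring]
        exact h3.sub (h2.mono (by linarith))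
      have h5 := h4 (mul_ne_zero hμ0 hf1)
      rw [v.map_mul hμ0 hf1] at h5
      linarith
    apply hqn j hj
    refine ⟨min (b - b') η, lt_min (by linarith) hη, fun g hg r hr => ?_⟩
    have h2 := hμ g (PI_mono (hF j) hg) r hr
    have h3 := hμv.mul (hj1 g hg r hr)
    rw [show (taylor z g).coeff q = ((taylor z g).coeff q - μ * (taylor z g).coeff 1) +
      μ * (taylor z g).coeff 1 by ring]
    refine (h2.mono ?_).add (h3.mono ?_)
    · linarith [min_le_right (b - b') η]
    · linarith [min_le_left (b - b') η]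
  -- all the norms are `≤ s - η / 2`
  obtain ⟨η, hη, h2⟩ := h1 j₀
  have hall : ∀ n : ℕ, ∀ f ∈ PI (F (j₀ + n)), ∀ r : ℝ, v.Ge r (f.eval z) →
      v.Ge (r - (s - η / 2 - η / 2 / (n + 1))) ((taylor z f).coeff 1) := by
    intro n
    induction n with
    | zero =>
      intro f hf r hr
      refine (h2 f hf r hr).mono ?_
      rw [Nat.cast_zero]
      linarith
    | succ n ih =>
      refine hstep (j₀ + n) (Nat.le_add_right _ _) _ _ ?_ ih
      push_cast
      have h3 : η / 2 / ((n : ℝ) + 1 + 1) < η / 2 / (n + 1) := by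
        apply div_lt_div_of_pos_left (by positivity) (by positivity)
        linarith
      linarith
  obtain ⟨j, a, ha, h3⟩ := hlim (η / 4) (by positivity)
  have h4 := hall j (X - C a) (sub_mem X_mem_PI (C_mem_PI (hmono (by omega) ha))) (s - η / 4) (by
    rw [eval_sub, eval_X, eval_C]
    exact h3)
  have h5 : (taylor z (X - C a)).coeff 1 = 1 := by
    rw [taylor_coeff_one, derivative_sub, derivative_X, derivative_C, sub_zero, eval_one]
  rw [h5] at h4
  have h6 := h4 one_ne_zero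
  rw [v.map_one] at h6
  have h7 : 0 < η / 2 / ((j : ℝ) + 1) := by positivity
  linarith

/-- Application: the fields `F i = F ^ (1 / p ^ i)`. -/
theorem jd_root (h0 : Ctx0 k v) {F : ℕ → IntermediateField k Ω}
    (hR : ∀ i, ∀ a ∈ F i, ∃ b ∈ F (i + 1), b ^ p = a)
    (hfar : ∀ i, ∀ θ : Ω, IsAlgebraic (F i) θ → z ≠ θ ∧ v (z - θ) ≤ s)
    (hlim : ∀ ε : ℝ, 0 < ε → ∃ i, ∃ a ∈ F i, v.Ge (s - ε) (z - a))
    (h1 : ∀ i, Sd v (F i) z 1 s) (i : ℕ) {l : ℕ} (hl : 1 ≤ l) : Sd v (F i) z l (l * s) :=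
  jd p h0 (fun i a ha => by
    obtain ⟨b, hb, rfl⟩ := hR i a ha
    exact pow_mem hb p) (R := fun i => F (i + 1)) hR hfar (fun _ _ _ h => h) hlim h1 i hl

end JD

end Pool.Agent.TWC
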