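import Pool.Agent.Lib.TWC.MainPx
import Pool.Agent.Lib.TWC.JD

/-!
# TANK W, leaf (B1d): the top file

`E` the closure of `k(x_0, x_1, ..)`, `x_n` the roots of `x_0`, `y` of transcendental type over `E`, of
radius `s`, `C` the closure of `k(x_0, y)`, `x_1` not in `C`, the closure of `K₀` a tower of length two
over `C`, the values of `K₀` divisible by `p`.

* `HasTP p v C`: `C` is the closure of `k(x, w)`, `(x, w)` a tight pair of `C`;
* `PairRat p k` (rational radius) and `PairIrr p k` (irrational radius): the two open rows;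
* `StrF v X y s`: `y` is strict over all the fields `cl k(x_i)`;
* `TP.transcendental`: the second element of a tight pair of `C = cl k(x, w)` is transcendental;
* `hrone_or_str`: `HRone`, or `y` is strict.
-/

set_option autoImplicit false

open Polynomial

namespace Pool.Agent.TWC

open Pool.Agent.H15JM (RVal)
open Pool.Agent.LU1 (VPos adj)
open Pool.Agent.D2 (Ctx0)
open Pool.Agent.D2P (clI mem_clI mem_rootF mem_adj_self)
open Pool.Agent.TWM
open Pool.Agent.TWS (VG TowR SphC IsoE HF hv)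
open Pool.Agent.TW (Ctx Full BD HRone LU)

universe u

variable {k Ω : Type u} [Field k] [Field Ω] [Algebra k Ω] {v : RVal Ω}

/-! ### Definitions -/

/-- `C` is the closure of `k(x, w)`, `(x, w)` a tight pair of `C`. -/
def HasTP (p : ℕ) (v : RVal Ω) (C : IntermediateField k Ω) : Prop :=
  ∃ (x w : ℕ → Ω) (r s : ℝ), v (x 0) ≠ 0 ∧ v (x 0) < r ∧ TP p v C x w r s ∧
    C = CP v (x 0) (w 0)

/-- `y` is strict over all the fields `cl k(x_i)`. -/
def StrF (k : Type u) [Field k] [Algebra k Ω] (v : RVal Ω) (X : ℕ → Ω) (y : Ω) (s : ℝ) : Prop :=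
  ∀ i l, 1 ≤ l → Sd v (cadj v (⊥ : IntermediateField k Ω) (X i)) y l (l * s)

/-- The radius `s` is rational with respect to `γ`. -/
def RatR (γ s : ℝ) : Prop := ∃ n : ℕ, n ≠ 0 ∧ ∃ m : ℤ, (n : ℝ) * s = m * γ

/-- The base `cl k(x_0, y)`, `y` of transcendental type over the closure of `k(x_0, x_1, ..)`. -/
structure T2 (p : ℕ) (k : Type u) [Field k] [Algebra k Ω] (v : RVal Ω) (X : ℕ → Ω) (y : Ω)
    (s : ℝ) : Prop where
  root : ∀ n, X (n + 1) ^ p = X n
  ne : X 0 ≠ 0
  neg : v (X 0) < 0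
  tl : TL v (EW v (⊥ : IntermediateField k Ω) X) y s
  nr : X 1 ∉ CP (k := k) v (X 0) y
  div : ∀ g ∈ VG v (CP (k := k) v (X 0) y), g / p ∈ VG v (CP (k := k) v (X 0) y)

/-- **The open row, rational first radius.** -/
def PairRat (p : ℕ) (k : Type u) [Field k] : Prop :=
  ∀ (H : Type u) [Field H] [Algebra k H] [IsAlgClosed H] [CharP H p] (v : RVal H),
    Ctx0 k v → CompleteV v → SphC v → (∀ ρ : ℝ, ∃ c : H, c ≠ 0 ∧ v c = ρ) →
    ∀ (X : ℕ → H) (y : H) (s : ℝ), T2 p k v X y s → RatR (v (X 0)) s →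
      HasTP p v (CP (k := k) v (X 0) y)

/-- **The open row, irrational first radius.** -/
def PairIrr (p : ℕ) (k : Type u) [Field k] : Prop :=
  ∀ (H : Type u) [Field H] [Algebra k H] [IsAlgClosed H] [CharP H p] (v : RVal H),
    Ctx0 k v → CompleteV v → SphC v → (∀ ρ : ℝ, ∃ c : H, c ≠ 0 ∧ v c = ρ) →
    ∀ (X : ℕ → H) (y : H) (s : ℝ), T2 p k v X y s → ¬ RatR (v (X 0)) s →
      HasTP p v (CP (k := k) v (X 0) y) ∨ StrF k v X y s

/-- The base and the tower. -/
structure T3 (p : ℕ) (v : RVal Ω) (E : IntermediateField k Ω) (X : ℕ → Ω) (y : Ω) (s : ℝ) :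
    Prop where
  base : T2 p k v X y s
  tow : TowR v 2 (CP v (X 0) y) (clI v E)

/-- The completion of `(Ω, v)` contains the base and a tower of length two over it, for the closure
of `E`; `Q` is satisfied. -/
def T3c (p : ℕ) (v : RVal Ω) (E : IntermediateField k Ω)
    (Q : ∀ (Ω' : Type u) [Field Ω'] [Algebra k Ω'], RVal Ω' → (ℕ → Ω') → Ω' → ℝ → Prop) : Prop :=
  ∃ (Ω' : Type u) (_ : Field Ω') (_ : Algebra k Ω') (ι : Ω →ₐ[k] Ω') (v' : RVal Ω')
    (_ : IsAlgClosed Ω'), CompleteV v' ∧ Dense v v' ι ∧ ∃ (X : ℕ → Ω') (y : Ω') (s : ℝ),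
      T3 p v' (E.map ι) X y s ∧ Q Ω' v' X y s

/-! ### Transfer of a tight pair -/

section Unmap

variable {Ω' : Type u} [Field Ω'] [Algebra k Ω'] {v' : RVal Ω'} {ι : Ω →ₐ[k] Ω'}
  {A B : IntermediateField k Ω} {p : ℕ} {x w : ℕ → Ω} {r s : ℝ}

theorem mem_of_map {a : Ω} (h : ι a ∈ A.map ι) : a ∈ A := by
  obtain ⟨b, hb, h1⟩ := h
  rwa [← ι.toRingHom.injective h1]

theorem tgt_unmap (h : IsoE v v' ι) (hc : CompleteV v)
    (hx : Tgt p v' (A.map ι) (fun n => ι (x n)) r) : Tgt p v A x r where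
  cld := (h.cld_iff hc).1 hx.cld
  mem := mem_of_map hx.mem
  root n := ι.toRingHom.injective (by
    have := hx.root n
    rw [← map_pow] at this
    exact this)
  dst n := ⟨fun h1 => (hx.dst n).far (h.nr'_iff.2 h1), h.lim_iff.1 (hx.dst n).near⟩

theorem tp_unmap (h : IsoE v v' ι) (hc : CompleteV v)
    (hx : TP p v' (A.map ι) (fun n => ι (x n)) (fun n => ι (w n)) r s) : TP p v A x w r s where
  tgt := tgt_unmap h hc hx.tgt
  mem := mem_of_map hx.mem
  root n := ι.toRingHom.injective (by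
    have := hx.root n
    rw [← map_pow] at this
    exact this)
  far := by
    have h1 := hx.far
    rw [h.ew_map hc] at h1
    exact fun h2 => h1 (h.nr'_iff.2 h2)
  lim n := h.lim_iff.1 (hx.lim n)

/-- Compatible roots come from `Ω`. -/
theorem exists_unroot [hp : Fact p.Prime] [IsAlgClosed Ω] [CharP Ω' p] {X : ℕ → Ω'}
    (hX : ∀ n, X (n + 1) ^ p = X n) {a : Ω} (ha : ι a = X 0) :
    ∃ x : ℕ → Ω, x 0 = a ∧ X = fun n => ι (x n) := by
  have h1 : ∀ b : Ω, ∃ c : Ω, c ^ p = b := fun b => IsAlgClosed.exists_pow_nat_eq b hp.out.pos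
  choose f hf using h1
  let x : ℕ → Ω := fun n => Nat.rec a (fun _ b => f b) n
  refine ⟨x, rfl, funext fun n => ?_⟩
  induction n with
  | zero => exact ha.symm
  | succ n ih =>
    have h2 : ι (x (n + 1)) ^ p = X n := by
      rw [← map_pow, ih]
      exact congrArg ι (hf (x n))
    exact frobenius_inj Ω' p (by rw [frobenius_def, frobenius_def, hX, h2])

theorem HasTP.of_map [hp : Fact p.Prime] [IsAlgClosed Ω] [IsAlgClosed Ω'] [CharP k p]
    [CharP Ω' p] (h : IsoE v v' ι)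
    (hc : CompleteV v) (hA : HasTP p v' (A.map ι)) : HasTP p v A := by
  obtain ⟨X, W, r, s, h1, h2, h3, h4⟩ := hA
  obtain ⟨a, ha, ha'⟩ := h3.tgt.mem
  obtain ⟨b, hb, hb'⟩ := h3.mem
  obtain ⟨x, hx0, rfl⟩ := exists_unroot (ι := ι) h3.tgt.root ha'
  obtain ⟨w, hw0, rfl⟩ := exists_unroot (ι := ι) h3.root hb'
  have hx0' : x 0 ≠ 0 := by
    intro h5
    have h6 := (h3.tgt.dst 0).far
    refine ne_zero_of_far (w := fun n => ι (x n)) h3.tgt.root h6 ?_
    simp only [h5, map_zero]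
  simp only [h.val _ hx0'] at h1 h2
  refine ⟨x, w, r, s, h1, h2, tp_unmap h hc h3, ?_⟩
  simp only [← cp_map h hc] at h4
  exact IntermediateField.map_injective ι h4

end Unmap

/-! ### The second element of a tight pair -/

section Trans

variable {p : ℕ} [hp : Fact p.Prime] [CharP k p] [CharP Ω p] {x w : ℕ → Ω} {r s : ℝ}

/-- `w` is transcendental over `k(x)`. -/
theorem transc_of_far [IsAlgClosed k] {C : IntermediateField k Ω}
    (hx : ∀ n, x (n + 1) ^ p = x n) (hw0 : w 0 ∈ C) (hw : ∀ n, w (n + 1) ^ p = w n)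
    (hfar : ¬ Nr' v (EW v C x) s (w 1)) :
    Transcendental (adj (⊥ : IntermediateField k Ω) (x 0)) (w 0) := by
  intro halg
  have hkp : PerfectRing k p := PerfectField.toPerfectRing p
  -- the perfect field
  set P : IntermediateField k Ω := ⊥ ⊔ IntermediateField.adjoin k (Set.range x) with hP
  have hxP : ∀ n, x n ∈ P := fun n => (le_sup_right : IntermediateField.adjoin k (Set.range x) ≤ P)
    (IntermediateField.subset_adjoin k _ ⟨n, rfl⟩)
  have hPr : ∀ a ∈ P, ∃ b ∈ P, b ^ p = a := by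
    refine perf_sup p (P := (⊥ : IntermediateField k Ω)) (fun a ha => ?_) ?_
    · obtain ⟨c, rfl⟩ := IntermediateField.mem_bot.1 ha
      obtain ⟨d, rfl⟩ := (PerfectRing.bijective_frobenius (R := k) (p := p)).2 c
      exact ⟨algebraMap k Ω d, IntermediateField.algebraMap_mem _ _, (map_pow _ d p).symm⟩
    · rintro _ ⟨n, rfl⟩
      exact ⟨x (n + 1), hxP (n + 1), hx n⟩
  have hcP : CharP P p := charP_sub (Ω := Ω) p P
  have hPP : PerfectRing P p := PerfectRing.ofSurjective P p fun a => by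
    obtain ⟨b, hb, h1⟩ := hPr a a.2
    exact ⟨⟨b, hb⟩, Subtype.ext (by rw [frobenius_def]; exact h1)⟩
  have hPF : PerfectField P := PerfectRing.toPerfectField P p
  have halgP : IsAlgebraic P (w 0) := by
    have h1 : adj (⊥ : IntermediateField k Ω) (x 0) ≤ P := D2P.adj_le bot_le (hxP 0)
    exact IsAlgebraic.tower_top_of_subalgebra_le
      (A := (adj (⊥ : IntermediateField k Ω) (x 0)).toSubalgebra) (B := P.toSubalgebra) h1 halg
  set A : IntermediateField P Ω := IntermediateField.adjoin P {w 0} with hA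
  have hAalg : Algebra.IsAlgebraic P A := IntermediateField.isAlgebraic_adjoin (by
    rintro y hy
    rw [Set.mem_singleton_iff.1 hy]
    exact halgP.isIntegral)
  have hAF : PerfectField A := Algebra.IsAlgebraic.perfectField (K := P)
  have hcA : CharP A p := (RingHom.charP_iff (algebraMap A Ω) (algebraMap A Ω).injective p).2
    inferInstance
  have hAP : PerfectRing A p := PerfectField.toPerfectRing p
  obtain ⟨b, hb⟩ := (PerfectRing.bijective_frobenius (R := A) (p := p)).2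
    ⟨w 0, IntermediateField.subset_adjoin P _ rfl⟩
  have hb1 : (b : Ω) = w 1 := by
    refine frobenius_inj Ω p ?_
    rw [frobenius_def, frobenius_def, show w 1 ^ p = w 0 from hw 0]
    have h2 := congrArg (algebraMap A Ω) hb
    exact (map_pow (algebraMap A Ω) b p).symm.trans h2
  have hPE : P ≤ EW v C x := by
    refine sup_le bot_le ?_
    rw [IntermediateField.adjoin_le_iff]
    rintro _ ⟨n, rfl⟩
    exact EW.mem n
  have hAE : ∀ y ∈ A, y ∈ EW v C x := by
    let B : IntermediateField P Ω :=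
      Subfield.toIntermediateField (EW v C x).toSubfield fun y => hPE y.2
    have h1 : A ≤ B := by
      rw [hA, IntermediateField.adjoin_le_iff]
      rintro y hy
      rw [Set.mem_singleton_iff.1 hy]
      exact (EW.le : C ≤ EW v C x) hw0
    exact fun y hy => h1 hy
  refine hfar ⟨w 1, hAE _ (by rw [← hb1]; exact b.2), ?_⟩
  rw [sub_self]
  exact Gt.zero

end Trans

/-! ### The alternative -/

section Alt

variable {Ω' : Type u} [Field Ω'] [Algebra k Ω'] {v' : RVal Ω'} {ι : Ω →ₐ[k] Ω'} {p : ℕ}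

theorem Sd.of_map (h : IsoE v v' ι) {F : IntermediateField k Ω} {z : Ω} {l : ℕ} {b : ℝ}
    (hS : Sd v' (F.map ι) (ι z) l b) : Sd v F z l b := by
  obtain ⟨η, hη, h1⟩ := hS
  refine ⟨η, hη, fun f hf r hr => ?_⟩
  have h2 : f.map ι.toRingHom ∈ PI (F.map ι) := fun i => by
    rw [coeff_map]
    exact ⟨_, hf i, rfl⟩
  have h3 := h1 _ h2 r (by
    have e : (f.map ι.toRingHom).eval (ι z) = ι (f.eval z) := by
      rw [eval_map]
      exact (hom_eval₂ f (RingHom.id Ω) ι.toRingHom z).symm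
    rw [e]
    exact h.ge_iff.2 hr)
  have e : (taylor (ι z) (f.map ι.toRingHom)).coeff l = ι ((taylor z f).coeff l) := by
    rw [show ι z = ι.toRingHom z from rfl, ← map_taylor, coeff_map]
    rfl
  rw [e] at h3
  exact h.ge_iff.1 h3

theorem StrF.of_map (h : IsoE v v' ι) (hc : CompleteV v) {X : ℕ → Ω} {y : Ω} {s : ℝ}
    (hS : StrF k v' (fun n => ι (X n)) (ι y) s) : StrF k v X y s := by
  intro i l hl
  have h1 := hS i l hl
  rw [← IntermediateField.map_bot ι, h.cadj_map hc] at h1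
  exact Sd.of_map h h1

theorem T2.map [Fact p.Prime] [IsAlgClosed Ω] [IsAlgClosed Ω'] [CharP k p] [CharP Ω p]
    (h : IsoE v v' ι) (hc : CompleteV v) {X : ℕ → Ω} {y : Ω} {s : ℝ} (hT : T2 p k v X y s) :
    T2 p k v' (fun n => ι (X n)) (ι y) s where
  root n := by simp only [← map_pow, hT.root]
  ne := IsoE.ne_zero hT.ne
  neg := by
    simp only [h.val _ hT.ne]
    exact hT.neg
  tl := by
    rw [← IntermediateField.map_bot ι, h.ew_map hc]
    exact h.tl_iff.2 hT.tl
  nr := by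
    simp only [← cp_map h hc]
    exact fun h1 => hT.nr (mem_of_map h1)
  div := by
    simp only [← cp_map h hc, vg_map h]
    exact hT.div

/-- **The alternative for the base.** -/
theorem pair_or_str [Fact p.Prime] [IsAlgClosed k] [IsAlgClosed Ω] [CharP k p] [CharP Ω p]
    (h0 : Ctx0 k v) (hc : CompleteV v) (hPF : PairRat p k) (hPI : PairIrr p k) {X : ℕ → Ω}
    {y : Ω} {s : ℝ} (hT : T2 p k v X y s) :
    HasTP p v (CP (k := k) v (X 0) y) ∨ StrF k v X y s := by
  obtain ⟨φ, hφ⟩ := TWS.exists_emb (k := k) h0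
  have hI : IsoE v (hv k) φ := ⟨hφ⟩
  have : CharP (HF k) p := charP_of_injective_algebraMap (algebraMap k (HF k)).injective p
  have hT' := hT.map hI hc
  by_cases hr : RatR (v (X 0)) s
  · left
    have h1 := hPF (HF k) (hv k) (TWS.ctx0_hv k) (TWS.completeV_hv k) (TWS.sphC_hv k)
      (TWS.exists_val k) (fun n => φ (X n)) (φ y) s hT' (by rwa [hφ _ hT.ne])
    simp only [← cp_map hI hc] at h1
    exact h1.of_map hI hc
  · have h1 := hPI (HF k) (hv k) (TWS.ctx0_hv k) (TWS.completeV_hv k) (TWS.sphC_hv k)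
      (TWS.exists_val k) (fun n => φ (X n)) (φ y) s hT' (by rwa [hφ _ hT.ne])
    rcases h1 with h1 | h1
    · left
      simp only [← cp_map hI hc] at h1
      exact h1.of_map hI hc
    · exact Or.inr (h1.of_map hI hc)

/-! ### The theorem -/

/-- **`HRone`, or the base is strict**, `Ω` complete. -/
theorem hrone_or_str [Fact p.Prime] [IsAlgClosed k] [IsAlgClosed Ω] [CharP k p] [CharP Ω p]
    (h : Ctx k v 1) (hcv : CompleteV v) (hPF : PairRat p k)
    (hPI : PairIrr p k) {K₀ : IntermediateField k Ω} (hK : K₀.FG) (hfull : Full v K₀)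
    (htr : Algebra.trdeg k K₀ = (4 : ℕ)) (hBDK : BD p v K₀) {al : Ω} (hal : al ^ p ∈ K₀)
    (hBD : BD p v (adj K₀ al)) {X : ℕ → Ω} {y : Ω} {s : ℝ}
    (ht : T3 p v K₀ X y s) : HRone v (adj K₀ al) ∨ StrF k v X y s := by
  rcases pair_or_str h.toCtx0 hcv hPF hPI ht.base with h1 | h1
  · left
    obtain ⟨x, w, r, t, h2, h3, h4, h5⟩ := h1
    refine hrone_of_tp0 p h hcv (by norm_num) le_rfl hK hfull htr hBDK hal hBD h2 h3
      (by rw [← h5]; exact h4) (by rw [← h5]; exact ht.tow)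
      (transc_of_far h4.tgt.root h4.mem h4.root h4.far)
  · exact Or.inr h1

/-- **`HRone`, or the base is strict.** -/
theorem hrone_or_strc [Fact p.Prime] [IsAlgClosed k] [IsAlgClosed Ω] [CharP k p] [CharP Ω p]
    (h : Ctx k v 1) (hPF : PairRat p k) (hPI : PairIrr p k) {K₀ : IntermediateField k Ω}
    (hK : K₀.FG) (hfull : Full v K₀) (htr : Algebra.trdeg k K₀ = (4 : ℕ)) (hBDK : BD p v K₀)
    {al : Ω} (hal : al ^ p ∈ K₀) (hBD : BD p v (adj K₀ al))
    (ht : T3c p v K₀ fun _ _ _ _ _ _ _ => True) :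
    HRone v (adj K₀ al) ∨ T3c p v K₀ fun _ _ _ v' X y s => StrF k v' X y s := by
  obtain ⟨Ω', iF, iA, ι, v', iC, h2, h3, X, y, s, h4, -⟩ := ht
  have : CharP Ω' p := Dense.charP ι p
  have hc' : Ctx k v' 1 := Dense.ctx h3 h
  have hI : IsoE v v' ι := ⟨h3.val⟩
  rcases hrone_or_str hc' h2 hPF hPI (K₀ := K₀.map ι) (Dense.fg_map hK)
    ((Dense.full_iff h3).2 hfull) (by rw [Dense.trdeg_map]; exact htr)
    ((Dense.bd_iff h3).2 hBDK) (al := ι al) (by rw [← map_pow]; exact ⟨_, hal, rfl⟩)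
    (by rw [← TWM.Dense.adj_map]; exact (Dense.bd_iff h3).2 hBD) h4 with h5 | h5
  · left
    rw [← TWM.Dense.adj_map] at h5
    exact (Dense.hrone_iff h3).1 h5
  · exact Or.inr ⟨Ω', iF, iA, ι, v', iC, h2, h3, X, y, s, h4, h5⟩

end Alt

end Pool.Agent.TWC
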