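import Pool.Agent.Lib.TWC.BdTowB
import Pool.Agent.Lib.TWC.TopD

/-!
# TANK W, class C: bounded distortion without hypothesis

The fields of the classes `T3c`, `TPc` and `TTc` have bounded distortion:

* `bd_of_t3`: the base `cl k(x_0, y)`, and a tower of length two, in the completion;
* `bd_of_tp`: a tower over the closure of `k(x, w)`, `(x, w)` a tight pair, in the completion;
* `bd_of_tt`: a tower over the perfect closure of `k(x)`, `x` tight of level `0`, in the completion.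
-/

set_option autoImplicit false

open Polynomial

namespace Pool.Agent.TWC

open Pool.Agent.H15JM (RVal)
open Pool.Agent.LU1 (adj)
open Pool.Agent.D2P (clI mem_clI)
open Pool.Agent.TWM
open Pool.Agent.TWS (TowR)
open Pool.Agent.TW (Ctx BD PBasis Ind Qp mem_Qp Qp_mono bas_pow)

universe u

section Bases

variable {k Ω : Type u} [Field k] [Field Ω] [Algebra k Ω] {v : RVal Ω}
  {p : ℕ} [hp : Fact p.Prime] [CharP Ω p] {C A : IntermediateField k Ω}

/-- The pair of a tight pair is independent over the `p`-th powers. -/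
theorem ind_of_tp {x w : ℕ → Ω} {r s : ℝ} (h : TP p v C x w r s) :
    Ind (Qp p C) (fun i : Fin p × Fin p => x 0 ^ (i.1 : ℕ) * w 0 ^ (i.2 : ℕ)) := by
  have hx1 : x 1 ∉ C := h.tgt.root_notMem
  have hxr : x 1 ^ p = x 0 := h.tgt.root 0
  have hwr : w 1 ^ p = w 0 := h.root 0
  have hCE : C ≤ EW v C x := EW.le
  have hw1 : w 1 ∉ EW v C x := fun h1 => h.far ⟨w 1, h1, by rw [sub_self]; exact Gt.zero⟩
  refine ind_pair (K := Qp p (EW v C x)) ?_ ?_ (Qp_mono hCE) ?_ ?_
  · rw [← hxr]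
    exact notMem_Qp hx1
  · exact mem_Qp.2 ⟨x 0, h.tgt.mem, rfl⟩
  · exact mem_Qp.2 ⟨x 1, EW.mem 1, hxr⟩
  · have h2 := (bas_pow (notMem_Qp (p := p) hw1)
      (by rw [hwr]; exact mem_Qp.2 ⟨w 0, hCE h.mem, rfl⟩)).ind
    rwa [hwr] at h2

omit hp in
theorem ind_one [Fact p.Prime] : Ind (Qp p A) (fun _ : Fin 1 => (1 : Ω)) := by
  intro c _ h0 j
  simp only [Finset.univ_unique, mul_one, Finset.sum_singleton] at h0
  rw [Subsingleton.elim j default]
  exact h0

variable [IsAlgClosed Ω]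

/-- The powers of an element of transcendental type. -/
theorem ind_powers (hc : CompleteV v) (hA : Cld v A) {z : Ω} {s : ℝ} (hz : TL v A z s) :
    Ind (Qp p (cadj v A z)) (fun j : Fin p => z ^ (j : ℕ)) := by
  have h2 := ind_step hc hA hz (b := fun _ : Fin 1 => (1 : Ω)) (fun _ => one_mem _) ind_one
  have h4 := h2.reindex (Equiv.uniqueProd (Fin p) (Fin 1)).symm
  simpa using h4

/-- The base `cl k(x_0, y)`. -/
theorem ind_of_t2 (hc : CompleteV v) {X : ℕ → Ω} {y : Ω} {s : ℝ} (h : T2 p k v X y s) :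
    Ind (Qp p (CP (k := k) v (X 0) y))
      (fun i : Fin p × Fin p => X 0 ^ (i.1 : ℕ) * y ^ (i.2 : ℕ)) := by
  have hXE : ∀ n, X n ∈ EW v (⊥ : IntermediateField k Ω) X := fun n => EW.mem n
  have hCN : CP (k := k) v (X 0) y ≤ cadj v (EW v (⊥ : IntermediateField k Ω) X) y :=
    cadj_le (cld_cadj v _ y) (cadj_le (cld_cadj v _ y) bot_le (le_cadj v _ y (hXE 0)))
      (self_mem_cadj v _ y)
  have hXr : X 1 ^ p = X 0 := h.root 0
  refine ind_pair (K := Qp p (cadj v (EW v (⊥ : IntermediateField k Ω) X) y)) ?_ ?_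
    (Qp_mono hCN) ?_ (ind_powers hc EW.cld h.tl)
  · have h1 := notMem_Qp (p := p) h.nr
    rwa [hXr] at h1
  · exact mem_Qp.2 ⟨X 0, le_cadj v _ y (self_mem_cadj v _ _), rfl⟩
  · exact mem_Qp.2 ⟨X 1, le_cadj v _ y (hXE 1), hXr⟩

variable [CharP k p] [IsAlgClosed k] {m : ℕ} {K : IntermediateField k Ω}

/-- Bounded distortion from the tower over the base `cl k(x_0, y)`, `Ω` complete. -/
theorem bd_of_t30 (hc : CompleteV v) (hK : K.FG) (htr : Algebra.trdeg k K = (4 : ℕ))
    {X : ℕ → Ω} {y : Ω} {s : ℝ} (h : T3 p v K X y s) : BD p v K := by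
  refine bd_of_base hc (m := 2) hK htr h.tow (cld_cadj v _ _) (fun i => mul_mem (pow_mem ?_ _)
    (pow_mem ?_ _)) (ind_of_t2 hc h.base)
  · exact le_cadj v _ y (self_mem_cadj v _ _)
  · exact self_mem_cadj v _ _

/-- Bounded distortion from the tower over a tight pair, `Ω` complete. -/
theorem bd_of_tp0 (hc : CompleteV v) (hK : K.FG) (htr : Algebra.trdeg k K = (m + 2 : ℕ))
    {x w : ℕ → Ω} {r s : ℝ} (h : TP p v (CP (k := k) v (x 0) (w 0)) x w r s)
    (hT : TowR v m (CP (k := k) v (x 0) (w 0)) (clI v K)) : BD p v K := by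
  refine bd_of_base hc (m := m) hK htr hT (cld_cadj v _ _) (fun i => mul_mem (pow_mem ?_ _)
    (pow_mem ?_ _)) (ind_of_tp h)
  · exact h.tgt.mem
  · exact h.mem

/-- Bounded distortion from the tower over the perfect closure of `k(x)`, `Ω` complete. -/
theorem bd_of_tt0 (hc : CompleteV v) (hK : K.FG) (htr : Algebra.trdeg k K = (m + 2 : ℕ))
    {x : ℕ → Ω} {y : Ω} (ht : TT p v m (clI v K) x y) : BD p v K := by
  have hkp : PerfectRing k p := PerfectField.toPerfectRing p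
  have hP := perf_EW0 (p := p) (k := k) (v := v) ht.tgt.root
  obtain ⟨N, e, hN, he, hi⟩ := ind_tow hc (TowR.succ ht.first ht.tow) (n := 1)
    (b := fun _ => (1 : Ω)) EW.cld (fun _ => one_mem _) (ind_one (p := p))
  refine bd_of_le hc hK htr fun n t hpb => ?_
  have hxr : x 1 ^ p = x 0 := ht.tgt.root 0
  have h1 := rank_tow hc hP (x := x 1) (EW.mem 1) ht.tgt.root_notMem
    (by rw [hxr]; exact ht.tgt.mem) he hi hpb
  rw [hN, one_mul, ← pow_succ] at h1
  exact (Nat.pow_le_pow_iff_right hp.out.one_lt).1 h1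

end Bases

/-! ### The completion -/

section Main

variable {k Ω : Type u} [Field k] [Field Ω] [Algebra k Ω] {v : RVal Ω}
  {p : ℕ} [hp : Fact p.Prime] [CharP k p] [CharP Ω p] [IsAlgClosed k]
  {L : IntermediateField k Ω}

/-- **The class `T3c`.** -/
theorem bd_of_t3 (hL : L.FG) (htr : Algebra.trdeg k L = (4 : ℕ))
    {Q : ∀ (Ω' : Type u) [Field Ω'] [Algebra k Ω'], RVal Ω' → (ℕ → Ω') → Ω' → ℝ → Prop}
    (ht : T3c p v L Q) : BD p v L := by
  obtain ⟨Ω', iF, iA, ι, v', iC, h2, h3, X, y, s, h4, -⟩ := ht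
  have : CharP Ω' p := Dense.charP ι p
  exact (Dense.bd_iff h3).1 (bd_of_t30 h2 (Dense.fg_map hL)
    (by rw [Dense.trdeg_map]; exact htr) h4)

/-- **The class `TPc`.** -/
theorem bd_of_tp {m : ℕ} (hL : L.FG) (htr : Algebra.trdeg k L = (m + 2 : ℕ))
    (ht : TPc p v m L) : BD p v L := by
  obtain ⟨Ω', iF, iA, ι, v', iC, h2, h3, x, w, r, s, -, -, -, hC, hT⟩ := ht
  have : CharP Ω' p := Dense.charP ι p
  exact (Dense.bd_iff h3).1 (bd_of_tp0 h2 (Dense.fg_map hL)
    (by rw [Dense.trdeg_map]; exact htr) hC hT)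

/-- **The class `TTc`.** -/
theorem bd_of_tt {m : ℕ} (hL : L.FG) (htr : Algebra.trdeg k L = (m + 2 : ℕ))
    (ht : TTc p v m L) : BD p v L := by
  obtain ⟨Ω', iF, iA, ι, v', iC, h2, h3, x, y, h4⟩ := ht
  have : CharP Ω' p := Dense.charP ι p
  exact (Dense.bd_iff h3).1 (bd_of_tt0 h2 (Dense.fg_map hL)
    (by rw [Dense.trdeg_map]; exact htr) h4)

end Main

end Pool.Agent.TWC
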