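import Pool.Agent.Lib.TW.B2
import Pool.Agent.Lib.TWM.S8a
import Pool.Agent.Lib.TWJ.EXG
import Pool.Agent.Lib.TWC.EW

/-!
# TANK W, class C: bounded distortion without hypothesis, part A

`Ω` is complete.

* `spn_of_lim`: the span of a finite family over a closed field is closed;
* `orthq_of_ind`: finite independent families over a closed field have bounded distortion;
* `bd_clI`: the closure of a finitely generated field has bounded distortion;
* `bd_of_ind`: if `p ^ trdeg L` elements of the closure of `L` are independent over its `p`-th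
  powers, then `BD p v L`.
-/

set_option autoImplicit false

open Polynomial

namespace Pool.Agent.TWC

open Pool.Agent.H15JM (RVal)
open Pool.Agent.LUC (Cl clF)
open Pool.Agent.D2P (clI mem_clI)
open Pool.Agent.TWM
open Pool.Agent.TW (BD PBasis Orthq Ind Bas Qp mem_Qp Qp_le' Qp_mono mon sm exists_bas
  exists_PBasis)

universe u

section Top

variable {Ω : Type u} [Field Ω] {v : RVal Ω} {Q : Subfield Ω} {ι κ : Type} [Fintype ι]
  [Fintype κ] {b : ι → Ω} {e : κ → Ω} {C : ℝ} {u : Ω}

/-- The span of a family of bounded distortion over a closed field is closed. -/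
theorem spn_of_lim₀ (hc : CompleteV v) (hQ : clF v Q ≤ Q) (ho : Orthq v Q b C) (hi : Ind Q b)
    (hu : ∀ c : ℝ, ∃ s, TW.Spn Q b s ∧ v.Ge c (u - s)) : TW.Spn Q b u := by
  classical
  choose s hs hus using hu
  choose q hq hsq using hs
  have key : ∀ c c' : ℝ, c ≤ c' → ∀ j, v.Ge (c - C - v (b j)) (q c j - q c' j) := by
    intro c c' hcc j h0
    have h1 : v.Ge c (s c - s c') := by
      have h2 := (hus c).neg.add ((hus c').mono hcc)
      have e : -(u - s c) + (u - s c') = s c - s c' := by ring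
      rwa [e] at h2
    have h3 : s c - s c' = ∑ j, (q c j - q c' j) * b j := by
      rw [hsq c, hsq c', ← Finset.sum_sub_distrib]
      exact Finset.sum_congr rfl fun j _ => by ring
    have h4 : ∑ j, (q c j - q c' j) * b j ≠ 0 := fun h4 =>
      h0 (hi (fun j => q c j - q c' j) (fun j => sub_mem (hq _ _) (hq _ _)) h4 j)
    have h5 := ho (fun j => q c j - q c' j) (fun j => sub_mem (hq c j) (hq c' j)) h4 j
      (mul_ne_zero h0 (hi.ne_zero j))
    rw [v.map_mul h0 (hi.ne_zero j)] at h5
    rw [h3] at h1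
    have h6 := h1 h4
    linarith
  have hlim : ∀ j, ∃ a, ∀ c : ℝ, ∃ N : ℕ, ∀ n, N ≤ n → v.Ge c (a - q (n : ℝ) j) := by
    intro j
    refine hc (fun n : ℕ => q (n : ℝ) j) fun c => ?_
    obtain ⟨N, hN⟩ := exists_nat_ge (c + C + v (b j))
    refine ⟨N, fun m n hm hn => ?_⟩
    have hm' : (N : ℝ) ≤ m := by exact_mod_cast hm
    have hn' : (N : ℝ) ≤ n := by exact_mod_cast hn
    rcases le_total m n with h | h
    · exact (key m n (by exact_mod_cast h) j).mono (by linarith)
    · exact (ge_sub_comm (key n m (by exact_mod_cast h) j)).mono (by linarith)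
  choose a ha using hlim
  have haQ : ∀ j, a j ∈ Q := fun j => hQ (show a j ∈ Cl v Q from fun c => by
    obtain ⟨N, hN⟩ := ha j c
    exact ⟨q N j, hq _ _, hN N le_rfl⟩)
  refine ⟨a, haQ, ?_⟩
  rw [← sub_eq_zero]
  refine eq_zero_of_ge_all (v := v) fun c => ?_
  choose N hN using fun j => ha j (c - v (b j))
  obtain ⟨N₀, hN₀⟩ := exists_nat_ge c
  set n : ℕ := N₀ + ∑ j, N j with hn
  have hnj : ∀ j, N j ≤ n := fun j => by
    have := Finset.single_le_sum (f := N) (fun i _ => Nat.zero_le _) (Finset.mem_univ j)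
    omega
  have hn₀ : (N₀ : ℝ) ≤ n := by
    have : N₀ ≤ n := by omega
    exact_mod_cast this
  have e : u - ∑ j, a j * b j = (u - s n) + -∑ j, (a j - q n j) * b j := by
    rw [hsq n]
    simp only [sub_mul, Finset.sum_sub_distrib]
    ring
  rw [e]
  refine ((hus n).mono (by linarith)).add (RVal.Ge.neg (RVal.Ge.sum _ _ fun j _ => ?_))
  exact ((hN j n (hnj j)).mul (RVal.ge_self (v := v) (b j))).mono (by linarith)

/-- Finite independent families over a closed field have bounded distortion. -/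
theorem orthq_of_ind₀ (hc : CompleteV v) (hQ : clF v Q ≤ Q) : ∀ {n : ℕ} {d : Fin n → Ω},
    Ind Q d → ∃ C : ℝ, Orthq v Q d C := by
  intro n
  induction n with
  | zero => exact fun _ => ⟨0, fun c _ h0 => absurd (by simp) h0⟩
  | succ n ih =>
    intro d hd
    have hi' : Ind Q (fun i : Fin n => d i.succ) := by
      intro c hcQ h0 j
      have := hd (Fin.cons 0 c : Fin (n + 1) → Ω) (fun i => by
        refine Fin.cases ?_ (fun i => ?_) i
        · exact zero_mem _
        · exact hcQ i) (by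
        rw [Fin.sum_univ_succ]
        simpa using h0) j.succ
      simpa using this
    obtain ⟨C', hC'⟩ := ih hi'
    have hnot : ¬ TW.Spn Q (fun i : Fin n => d i.succ) (d 0) := by
      rintro ⟨c, hcQ, h1⟩
      have := hd (Fin.cons (-1) c : Fin (n + 1) → Ω) (fun i => by
        refine Fin.cases ?_ (fun i => ?_) i
        · exact neg_mem (one_mem _)
        · exact hcQ i) (by
        rw [Fin.sum_univ_succ]
        simp only [Fin.cons_zero, Fin.cons_succ]
        rw [← h1]
        ring) 0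
      simp at this
    have hfar : ∃ c : ℝ, ∀ s, TW.Spn Q (fun i : Fin n => d i.succ) s → ¬ v.Ge c (d 0 - s) := by
      by_contra hcon
      simp only [not_exists, not_forall, not_not] at hcon
      exact hnot (spn_of_lim₀ hc hQ hC' hi' fun c => by
        obtain ⟨s, h1, h2⟩ := hcon c
        exact ⟨s, h1, h2⟩)
    obtain ⟨c₀, hc₀⟩ := hfar
    refine ⟨max (c₀ - v (d 0)) 0 + max C' 0, fun q hq h0 j => ?_⟩
    set w : Ω := ∑ j, q j * d j with hw
    set s : Ω := ∑ i : Fin n, q i.succ * d i.succ with hs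
    have hws : w = q 0 * d 0 + s := by rw [hw, Fin.sum_univ_succ]
    have hd0 : d 0 ≠ 0 := hd.ne_zero 0
    have hA : v.Ge (v w - max (c₀ - v (d 0)) 0) (q 0 * d 0) := by
      intro h1
      have hq0 : q 0 ≠ 0 := left_ne_zero_of_mul h1
      have h2 : TW.Spn Q (fun i : Fin n => d i.succ) (-(q 0)⁻¹ * s) := by
        refine ⟨fun i => -(q 0)⁻¹ * q i.succ, fun i => mul_mem (neg_mem (inv_mem (hq 0))) (hq _),
          ?_⟩
        rw [hs, Finset.mul_sum]
        exact Finset.sum_congr rfl fun i _ => by ring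
      have h3 := hc₀ _ h2
      have h4 : d 0 - -(q 0)⁻¹ * s ≠ 0 ∧ v (d 0 - -(q 0)⁻¹ * s) < c₀ := by
        constructor
        · intro h5
          exact h3 (by rw [h5]; exact RVal.Ge.zero)
        · by_contra h5
          exact h3 fun _ => not_lt.1 h5
      have h5 : w = q 0 * (d 0 - -(q 0)⁻¹ * s) := by
        rw [hws]
        field_simp
        ring
      have h6 : v w = v (q 0) + v (d 0 - -(q 0)⁻¹ * s) := by
        conv_lhs => rw [h5]
        exact v.map_mul hq0 h4.1
      rw [v.map_mul hq0 hd0, h6]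
      have h7 := le_max_left (c₀ - v (d 0)) 0
      linarith [h4.2]
    have hB : v.Ge (v w - max (c₀ - v (d 0)) 0) s := by
      have h1 : s = w + -(q 0 * d 0) := by rw [hws]; ring
      rw [h1]
      refine ((RVal.ge_self (v := v) w).mono ?_).add hA.neg
      linarith [le_max_right (c₀ - v (d 0)) 0]
    refine Fin.cases ?_ (fun i => ?_) j
    · exact hA.mono (by linarith [le_max_right C' 0])
    · by_cases hs0 : s = 0
      · have h1 := hi' (fun i => q i.succ) (fun i => hq _) hs0 i
        change v.Ge _ (q i.succ * d i.succ)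
        rw [show q i.succ = 0 from h1, zero_mul]
        exact RVal.Ge.zero
      · have h1 := hC' (fun i => q i.succ) (fun i => hq _) hs0 i
        change v.Ge (v s - C') (q i.succ * d i.succ) at h1
        refine h1.mono ?_
        have h2 := hB hs0
        linarith [le_max_left C' 0]

/-- **Finite independent families over a closed field have bounded distortion.** -/
theorem orthq_of_ind (hc : CompleteV v) (hQ : clF v Q ≤ Q) (hb : Ind Q b) :
    ∃ C : ℝ, Orthq v Q b C := by
  classical
  have e := Fintype.equivFin ι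
  obtain ⟨C, hC⟩ := orthq_of_ind₀ hc hQ (hb.reindex e.symm)
  refine ⟨C, fun c hcQ h0 i => ?_⟩
  have h1 : ∑ j, c (e.symm j) * b (e.symm j) = ∑ i, c i * b i :=
    Equiv.sum_comp e.symm fun i => c i * b i
  have h2 := hC (fun j => c (e.symm j)) (fun j => hcQ _) (by rw [h1]; exact h0) (e i)
  rw [h1] at h2
  simpa using h2

omit [Fintype κ] in
theorem spn_iff : TW.Spn Q b u ↔ u ∈ Submodule.span Q (Set.range b) := by
  rw [Submodule.mem_span_range_iff_exists_fun]
  constructor
  · rintro ⟨c, hc, rfl⟩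
    exact ⟨fun i => ⟨c i, hc i⟩, rfl⟩
  · rintro ⟨c, rfl⟩
    exact ⟨fun i => (c i : Ω), fun i => (c i).2, rfl⟩

/-- **The span of a finite family over a closed field is closed.** -/
theorem spn_of_lim (hc : CompleteV v) (hQ : clF v Q ≤ Q)
    (hu : ∀ c : ℝ, ∃ s, TW.Spn Q b s ∧ v.Ge c (u - s)) : TW.Spn Q b u := by
  set S : Submodule Q Ω := Submodule.span Q (Set.range b) with hS
  have hfin : Module.Finite Q S := FiniteDimensional.span_of_finite Q (Set.finite_range b)
  set B := Module.finBasis Q S with hB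
  have hi : Ind Q (fun i => (B i : Ω)) := by
    intro c hcQ h0 i
    have h1 : ∑ i, (⟨c i, hcQ i⟩ : Q) • B i = 0 := by
      apply Subtype.ext
      rw [AddSubmonoidClass.coe_finsetSum]
      exact h0
    have h2 := Fintype.linearIndependent_iff.1 B.linearIndependent (fun i => ⟨c i, hcQ i⟩) h1 i
    exact congrArg Subtype.val h2
  have h1 : ∀ s, TW.Spn Q b s → TW.Spn Q (fun i => (B i : Ω)) s := by
    intro s hs
    have hs' := spn_iff.1 hs
    refine ⟨fun i => (B.repr ⟨s, hs'⟩ i : Ω), fun i => (B.repr ⟨s, hs'⟩ i).2, ?_⟩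
    have h2 := congrArg (Subtype.val) (B.sum_repr ⟨s, hs'⟩)
    rw [AddSubmonoidClass.coe_finsetSum] at h2
    exact h2.symm
  obtain ⟨C, hC⟩ := orthq_of_ind hc hQ hi
  obtain ⟨c, hcQ, h2⟩ := spn_of_lim₀ hc hQ hC hi fun c => by
    obtain ⟨s, hs, h3⟩ := hu c
    exact ⟨s, h1 s hs, h3⟩
  rw [spn_iff, h2]
  exact Submodule.sum_mem _ fun i _ => Submodule.smul_mem _ (⟨c i, hcQ i⟩ : Q) (B i).2

theorem card_le_of_ind (he : Ind Q e) (hs : ∀ l, TW.Spn Q b (e l)) :
    Fintype.card κ ≤ Fintype.card ι := by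
  have h1 : LinearIndependent Q e := by
    rw [Fintype.linearIndependent_iff]
    intro g hg j
    exact Subtype.ext (he (fun j => (g j : Ω)) (fun j => (g j).2) hg j)
  have h2 : Submodule.span Q (Set.range e) ≤ Submodule.span Q (Set.range b) := by
    rw [Submodule.span_le]
    rintro _ ⟨l, rfl⟩
    exact spn_iff.1 (hs l)
  have h3 : Module.Finite Q (Submodule.span Q (Set.range b)) :=
    FiniteDimensional.span_of_finite Q (Set.finite_range b)
  calc Fintype.card κ = Module.finrank Q (Submodule.span Q (Set.range e)) :=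
        (finrank_span_eq_card h1).symm
    _ ≤ Module.finrank Q (Submodule.span Q (Set.range b)) := Submodule.finrank_mono h2
    _ ≤ Fintype.card ι := finrank_range_le_card b

end Top

section Dist

variable {k Ω : Type u} [Field k] [Field Ω] [Algebra k Ω] {v : RVal Ω}
  {p : ℕ} [hp : Fact p.Prime] [CharP Ω p] {L M : IntermediateField k Ω}

/-- The field of the `p`-th powers of a closed field is closed. -/
theorem cl_Qp [IsAlgClosed Ω] (hM : Cld v M) : clF v (Qp p M) ≤ Qp p M := by
  intro x hx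
  obtain ⟨y, hy⟩ := IsAlgClosed.exists_pow_nat_eq x hp.out.pos
  refine mem_Qp.2 ⟨y, hM ?_, hy⟩
  rw [mem_clI]
  intro r
  obtain ⟨a, ha, h1⟩ := (show x ∈ Cl v (Qp p M) from hx) (p * r)
  obtain ⟨c, hc, rfl⟩ := mem_Qp.1 ha
  refine ⟨c, hc, ?_⟩
  rw [← hy, ← sub_pow_char] at h1
  exact ge_of_pow_a hp.out.pos h1

/-- The `p`-th powers of the closure. -/
theorem Qp_clI_le : Qp p (clI v M) ≤ clF v (Qp p M) := by
  intro x hx
  obtain ⟨c, hc, rfl⟩ := mem_Qp.1 hx
  rw [mem_clI] at hc
  intro r
  have hp0 : (0 : ℝ) < p := by exact_mod_cast hp.out.pos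
  obtain ⟨a, ha, h1⟩ := hc (r / p)
  refine ⟨a ^ p, mem_Qp.2 ⟨a, ha, rfl⟩, ?_⟩
  rw [← sub_pow_char]
  refine (ge_pow h1 p).mono (le_of_eq ?_)
  field_simp

theorem spn_clI [IsAlgClosed Ω] (hc : CompleteV v) {n : ℕ} {τ : Fin n → Ω} (hτ : PBasis p L τ)
    {u : Ω} (hu : u ∈ clI v L) : TW.Spn (Qp p (clI v L)) (mon (p := p) τ) u := by
  refine spn_of_lim hc (cl_Qp (cld_clI v L)) fun c => ?_
  obtain ⟨a, ha, h1⟩ := mem_clI.1 hu c
  exact ⟨a, (hτ.bas.span a ha).mono (Qp_mono (self_le_clI v L)), h1⟩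

/-- **The closure of a finitely generated field has bounded distortion.** -/
theorem bd_clI [IsAlgClosed k] [IsAlgClosed Ω] (hc : CompleteV v) (hL : L.FG) :
    BD p v (clI v L) := by
  obtain ⟨n, τ, hτ⟩ := exists_PBasis (p := p) hL
  obtain ⟨m, e, he⟩ := exists_bas (Qp_le' (p := p) (E := clI v L)) fun u hu => spn_clI hc hτ hu
  obtain ⟨C, hC⟩ := orthq_of_ind hc (cl_Qp (cld_clI v L)) he.ind
  exact TW.BD.of_bdq ⟨m, e, he, C, hC⟩

/-- The `p`-bases of the closure. -/
theorem bd_of_le [CharP k p] [IsAlgClosed k] [IsAlgClosed Ω] (hc : CompleteV v) (hL : L.FG)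
    {d : ℕ} (htr : Algebra.trdeg k L = d)
    (hd : ∀ (n : ℕ) (t : Fin n → Ω), PBasis p (clI v L) t → d ≤ n) : BD p v L := by
  have hBD := bd_clI (p := p) hc hL
  obtain ⟨n, t, ht, C, hC⟩ := bd_clI (p := p) hc hL
  obtain ⟨h2, h3⟩ := TWJ.BD_dense hBD ht hL rfl
  rw [htr, Nat.cast_le] at h2
  refine h3 ?_
  rw [htr, le_antisymm h2 (hd n t ht)]

/-- **Bounded distortion from an independent family.** -/
theorem bd_of_ind [CharP k p] [IsAlgClosed k] [IsAlgClosed Ω] (hc : CompleteV v) (hL : L.FG)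
    {d : ℕ} (htr : Algebra.trdeg k L = d) {N : ℕ} (hN : N = p ^ d) {e : Fin N → Ω}
    (heL : ∀ i, e i ∈ clI v L) (he : Ind (Qp p (clI v L)) e) : BD p v L := by
  refine bd_of_le hc hL htr fun n t ht => ?_
  have h1 := card_le_of_ind he fun i => ht.bas.span _ (heL i)
  rw [Fintype.card_fin, Fintype.card_fun, Fintype.card_fin, Fintype.card_fin, hN] at h1
  exact (Nat.pow_le_pow_iff_right hp.out.one_lt).1 h1

end Dist

end Pool.Agent.TWC
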