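import Pool.Agent.Lib.TWC.IsoC

/-!
# TANK W, class C: the operators of the roots of `x`, with weights (row NAT-1)

`B` closed, `x 0 ∈ B`, `x (n + 1) ^ p = x n`, `ρ (n + 1)` the distance of `x (n + 1)` to `B(x n)`.
* `SND`: the distance of `x (n + 1)` to `B` is the same;
* `SND.norm`: the jets of order `F < p ^ n` of `B[x n]` have norm `≤ wt p ρ n F`, the sum of the
  digits of `F` times `ρ`; `SND.wt_le`: `≤ (F / p ^ n) r`, `r = p ρ 1`;
* `NBdW`: bounds with weights; `exists_De`: the operators on the closure, with weights.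
-/

set_option autoImplicit false

open Polynomial

namespace Pool.Agent.TWC

open Pool.Agent.H15JM (RVal)
open Pool.Agent.LU1 (VPos adj)
open Pool.Agent.D2 (Ctx0)
open Pool.Agent.D2P (clI mem_clI)
open Pool.Agent.TWM Pool.Agent.TWM.C
open Pool.Agent.TWC.Key (hd ev sp lf)

universe u

variable {k Ω : Type u} [Field k] [Field Ω] [Algebra k Ω] {v : RVal Ω}
  {B M : IntermediateField k Ω}

theorem ge_of_eps {x : Ω} {b : ℝ} (h : ∀ ε : ℝ, 0 < ε → v.Ge (b - ε) x) : v.Ge b x := fun h0 =>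
  le_of_forall_pos_le_add fun ε hε => by
    have := h ε hε h0
    linarith

section Step

variable (p : ℕ) [hp : Fact p.Prime] [CharP k p] [CharP Ω p] [IsAlgClosed Ω]

/-- One step, of distance `ρ`. -/
theorem AO.stepW (h0 : Ctx0 k v) {u h : Ω} {ρ : ℝ} (hs : PStep p v M u ρ) (hh : h ∈ M) {γ : ℝ}
    (hγ : 0 ≤ γ) (hu : v.Ge (ρ - γ) (u - h)) :
    AO v M (fun a : Fin p => (u - h) ^ (a : ℕ)) (p * γ) := by
  classical
  intro c hc r hr i
  set P : Polynomial Ω := ∑ a : Fin p, C (c a) * (X - C h) ^ (a : ℕ) with hP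
  have hPM : P ∈ PI M :=
    sum_mem fun a _ => mul_mem (C_mem_PI (hc a)) (pow_mem (sub_mem X_mem_PI (C_mem_PI hh)) _)
  have hPu : P.eval u = ∑ a : Fin p, c a * (u - h) ^ (a : ℕ) := by
    rw [hP, eval_finsetSum]
    refine Finset.sum_congr rfl fun a _ => ?_
    rw [eval_mul, eval_C, eval_pow, eval_sub, eval_X, eval_C]
  have hPh : ∀ a : Fin p, (taylor h P).coeff a = c a := by
    intro a
    have h1 : taylor h P = ∑ a : Fin p, C (c a) * X ^ (a : ℕ) := by
      rw [hP, map_sum]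
      refine Finset.sum_congr rfl fun a _ => ?_
      rw [taylor_mul, taylor_C, taylor_pow, map_sub, taylor_X, taylor_C, add_sub_cancel_right]
    rw [h1, finsetSum_coeff, Finset.sum_eq_single a]
    · rw [coeff_C_mul, coeff_X_pow, if_pos rfl, mul_one]
    · intro b _ hb
      rw [coeff_C_mul, coeff_X_pow, if_neg (fun h => hb (Fin.ext h.symm)), mul_zero]
    · exact fun h => absurd (Finset.mem_univ a) h
  have hdeg : P.natDegree < p := by
    refine lt_of_le_of_lt (natDegree_sum_le_of_forall_le (n := p - 1) _ _ fun a _ => ?_)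
      (Nat.sub_lt hp.out.pos one_pos)
    refine (natDegree_C_mul_le _ _).trans ((natDegree_pow_le).trans ?_)
    rw [natDegree_X_sub_C, mul_one]
    have := a.2
    omega
  by_cases hP0 : P = 0
  · have h1 := hPh i
    rw [hP0, map_zero, coeff_zero] at h1
    change v.Ge _ (c i * _)
    rw [← h1, zero_mul]
    exact RVal.Ge.zero
  · have h4 := fun l => Roots.taylor_ge hP0 (fun θ hθ => hs.root p h0 hPM hP0 hdeg hθ) l
    have hPr : r ≤ v (P.eval u) := by
      have : P.eval u ≠ 0 := fun h => hP0 (hs.eq_zero p h0 hPM hdeg h)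
      rw [hPu] at this ⊢
      exact hr this
    have h5 : v.Ge (r - i * ρ - (p - i : ℝ) * γ) (c i) := by
      rw [← hPh i]
      have h6 : taylor h P = taylor (h - u) (taylor u P) := by
        rw [taylor_taylor, sub_add_cancel]
      rw [h6, taylor_coeff, hasseDeriv_apply, Polynomial.sum, eval_finsetSum]
      refine RVal.Ge.sum _ _ fun n hn => ?_
      rw [eval_monomial]
      rcases lt_or_ge n i with h7 | h7
      · rw [Nat.choose_eq_zero_of_lt h7, Nat.cast_zero, zero_mul, zero_mul]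
        exact RVal.Ge.zero
      · have h8 : n < p := by
          have h9 := le_natDegree_of_mem_supp n hn
          rw [natDegree_taylor] at h9
          omega
        rw [mul_assoc]
        have h9 := (ge_natCast v (n.choose i)).mul ((h4 n).mul
          (ge_pow (ge_sub_comm hu) (n - i)))
        refine h9.mono ?_
        rw [Nat.cast_sub h7]
        have h10 : (n : ℝ) ≤ p := by exact_mod_cast h8.le
        nlinarith
    have h6 := h5.mul (ge_pow hu i)
    change v.Ge _ (c i * _)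
    refine h6.mono ?_
    nlinarith

end Step

/-! ### Polynomials, base `p` -/

section Pol

variable (p : ℕ) [hp : Fact p.Prime]

/-- `P = ∑ Q_a(X ^ p) (X - h) ^ a`. -/
theorem exists_digits {P : Polynomial Ω} (hP : P ∈ PI B) {h : Ω} (hh : h ∈ B) :
    ∃ Q : ℕ → Polynomial Ω, (∀ a, Q a ∈ PI B) ∧
      P = ∑ a ∈ Finset.range p, expand Ω p (Q a) * (X - C h) ^ a := by
  classical
  refine ⟨fun a => ∑ i ∈ P.support, C (P.coeff i * (((i % p).choose a : ℕ) : Ω) *
    h ^ (i % p - a)) * X ^ (i / p), fun a => sum_mem fun i _ => mul_mem (C_mem_PI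
      (mul_mem (mul_mem (hP i) (natCast_mem _ _)) (pow_mem hh _))) (pow_mem X_mem_PI _), ?_⟩
  have h1 : ∀ i, X ^ i = X ^ (p * (i / p)) * ∑ a ∈ Finset.range p,
      C ((((i % p).choose a : ℕ) : Ω) * h ^ (i % p - a)) * (X - C h) ^ a := by
    intro i
    have h2 : (X : Polynomial Ω) ^ (i % p) = ∑ a ∈ Finset.range p,
        C ((((i % p).choose a : ℕ) : Ω) * h ^ (i % p - a)) * (X - C h) ^ a := by
      have h3 : (X : Polynomial Ω) ^ (i % p) = ((X - C h) + C h) ^ (i % p) := by
        rw [sub_add_cancel]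
      rw [h3, add_pow]
      have h4 : Finset.range (i % p + 1) ⊆ Finset.range p :=
        Finset.range_subset_range.2 (Nat.mod_lt i hp.out.pos)
      rw [← Finset.sum_subset h4 fun a _ ha => ?_]
      · refine Finset.sum_congr rfl fun a _ => ?_
        rw [C_mul, C_pow, C_eq_natCast]
        ring
      · rw [Finset.mem_range, not_lt] at ha
        rw [Nat.choose_eq_zero_of_lt (by omega), Nat.cast_zero, zero_mul, C_0, zero_mul]
    rw [← h2, ← pow_add, Nat.div_add_mod]
  have h2 : P = ∑ i ∈ P.support, C (P.coeff i) * X ^ i := by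
    conv_lhs => rw [P.as_sum_support_C_mul_X_pow]
  conv_lhs => rw [h2]
  simp only [map_sum, Finset.sum_mul]
  rw [Finset.sum_comm]
  refine Finset.sum_congr rfl fun i _ => ?_
  rw [h1 i, Finset.mul_sum, Finset.mul_sum]
  refine Finset.sum_congr rfl fun a _ => ?_
  have e : expand Ω p (C (P.coeff i * (((i % p).choose a : ℕ) : Ω) * h ^ (i % p - a)) *
      X ^ (i / p)) = C (P.coeff i * (((i % p).choose a : ℕ) : Ω) * h ^ (i % p - a)) *
        X ^ (p * (i / p)) := by
    rw [map_mul, expand_C, map_pow, expand_X, ← pow_mul]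
  rw [e]
  simp only [C_mul]
  ring

/-- The coefficients of `R(X ^ p) G`, `deg G < p`. -/
theorem coeff_expand_mul_lt (R G : Polynomial Ω) (hG : G.natDegree < p) (F : ℕ) :
    (expand Ω p R * G).coeff F = R.coeff (F / p) * G.coeff (F % p) := by
  classical
  rw [coeff_mul, Finset.sum_eq_single (p * (F / p), F % p)]
  · rw [coeff_expand hp.out.pos, if_pos (dvd_mul_right _ _), Nat.mul_div_cancel_left _ hp.out.pos]
  · rintro ⟨i, j⟩ hij hne
    rw [Finset.HasAntidiagonal.mem_antidiagonal] at hij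
    simp only at hij ⊢
    rw [coeff_expand hp.out.pos]
    split_ifs with hi
    · by_cases hj : j < p
      · exfalso
        apply hne
        obtain ⟨c, rfl⟩ := hi
        have h1 : F / p = c := by
          rw [← hij, Nat.mul_add_div hp.out.pos, Nat.div_eq_of_lt hj, add_zero]
        have h2 : F % p = j := by
          rw [← hij, Nat.mul_add_mod, Nat.mod_eq_of_lt hj]
        rw [h1, h2]
      · rw [coeff_eq_zero_of_natDegree_lt (by omega : G.natDegree < j), mul_zero]
    · rw [zero_mul]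
  · intro hno
    exfalso
    apply hno
    rw [Finset.HasAntidiagonal.mem_antidiagonal]
    exact Nat.div_add_mod F p

variable [CharP Ω p]

theorem taylor_expand (u : Ω) (Q : Polynomial Ω) :
    taylor u (expand Ω p Q) = expand Ω p (taylor (u ^ p) Q) := by
  have h1 : ∀ Q : Polynomial Ω, taylor u (expand Ω p Q) = Q.comp ((X + C u) ^ p) := by
    intro Q
    rw [taylor_apply, expand_eq_comp_X_pow, comp_assoc, X_pow_comp]
  rw [h1, taylor_apply, expand_eq_comp_X_pow, comp_assoc, add_comp, X_comp, C_comp, C_pow,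
    add_pow_char]

/-- The jets in terms of the digits. -/
theorem coeff_digits {P : Polynomial Ω} {h : Ω} {Q : ℕ → Polynomial Ω}
    (hP : P = ∑ a ∈ Finset.range p, expand Ω p (Q a) * (X - C h) ^ a) (u : Ω) (F : ℕ) :
    (taylor u P).coeff F = ∑ a ∈ Finset.range p, (taylor (u ^ p) (Q a)).coeff (F / p) *
      ((u - h) ^ (a - F % p) * ((a.choose (F % p) : ℕ) : Ω)) := by
  rw [hP, map_sum, finsetSum_coeff]
  refine Finset.sum_congr rfl fun a ha => ?_
  rw [Finset.mem_range] at ha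
  have e : taylor u ((X - C h) ^ a) = (X + C (u - h)) ^ a := by
    rw [taylor_pow, map_sub, taylor_X, taylor_C, add_sub_assoc, ← C_sub]
  rw [taylor_mul, taylor_expand p, e, coeff_expand_mul_lt p _ _ (by
    refine lt_of_le_of_lt natDegree_pow_le ?_
    rw [natDegree_X_add_C, mul_one]
    exact ha), coeff_X_add_C_pow]

omit [CharP Ω p] in
theorem eval_digits {P : Polynomial Ω} {h : Ω} {Q : ℕ → Polynomial Ω}
    (hP : P = ∑ a ∈ Finset.range p, expand Ω p (Q a) * (X - C h) ^ a) (u : Ω) :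
    P.eval u = ∑ a : Fin p, (Q a).eval (u ^ p) * (u - h) ^ (a : ℕ) := by
  rw [hP, eval_finsetSum, Finset.sum_range]
  refine Finset.sum_congr rfl fun a _ => ?_
  rw [eval_mul, expand_eval, eval_pow, eval_sub, eval_X, eval_C]

end Pol

/-! ### The norm -/

/-- The weight: the digits of `F` times `ρ`. -/
def wt (p : ℕ) (ρ : ℕ → ℝ) : ℕ → ℕ → ℝ
  | 0, _ => 0
  | n + 1, F => (F % p : ℕ) * ρ (n + 1) + wt p ρ n (F / p)

theorem wt_mul (p : ℕ) (hp : 0 < p) (ρ : ℕ → ℝ) (n F : ℕ) :
    wt p ρ (n + 1) (p * F) = wt p ρ n F := by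
  rw [wt, Nat.mul_mod_right, Nat.cast_zero, zero_mul, zero_add, Nat.mul_div_cancel_left _ hp]

theorem wt_pow_mul (p : ℕ) (hp : 0 < p) (ρ : ℕ → ℝ) (n F j : ℕ) :
    wt p ρ (n + j) (p ^ j * F) = wt p ρ n F := by
  induction j with
  | zero => rw [pow_zero, one_mul, add_zero]
  | succ j ih => rw [pow_succ', mul_assoc, ← add_assoc, wt_mul p hp, ih]

theorem wt_zero (p : ℕ) (ρ : ℕ → ℝ) (n : ℕ) : wt p ρ n 0 = 0 := by
  induction n with
  | zero => rfl
  | succ n ih => rw [wt, Nat.zero_mod, Nat.zero_div, ih, Nat.cast_zero, zero_mul, zero_add]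

/-- The distance of `x (n + 1)` to `B(x n)` is `ρ (n + 1)`, the same as its distance to `B`. -/
structure SND (p : ℕ) (v : RVal Ω) (B : IntermediateField k Ω) (x : ℕ → Ω) (ρ : ℕ → ℝ) :
    Prop where
  cld : Cld v B
  mem : x 0 ∈ B
  root : ∀ n, x (n + 1) ^ p = x n
  far : ∀ n, ¬ Nr' v (adj B (x n)) (ρ (n + 1)) (x (n + 1))
  near : ∀ n (ε : ℝ), 0 < ε → ∃ h ∈ B, v.Ge (ρ (n + 1) - ε) (x (n + 1) - h)

section Norm

variable {p : ℕ} [hp : Fact p.Prime] {x : ℕ → Ω} {ρ : ℕ → ℝ}

theorem SND.root_pow (h : SND p v B x ρ) (n j : ℕ) : x (n + j) ^ p ^ j = x n := by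
  induction j with
  | zero => simp
  | succ j ih => rw [← add_assoc, pow_succ', pow_mul, h.root, ih]

theorem SND.isAlg (h : SND p v B x ρ) (n : ℕ) : IsAlgebraic B (x n) := by
  have h1 : x n ^ p ^ n = x 0 := by
    have := h.root_pow 0 n
    rwa [zero_add] at this
  refine IsAlgebraic.of_pow (pow_pos hp.out.pos n) ?_
  rw [h1]
  exact isAlgebraic_algebraMap (R := B) (⟨_, h.mem⟩ : B)

theorem SND.pstep (hc : CompleteV v) (h : SND p v B x ρ) (n : ℕ) :
    PStep p v (adj B (x n)) (x (n + 1)) (ρ (n + 1)) :=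
  ⟨cld_adj hc h.cld (h.isAlg n), by rw [h.root]; exact (D2P.mem_adj_self B _).1, h.far n⟩

theorem SND.dist_le (h : SND p v B x ρ) {n : ℕ} {g : Ω} (hg : g ∈ adj B (x n)) :
    x (n + 1) - g ≠ 0 ∧ v (x (n + 1) - g) ≤ ρ (n + 1) := by
  by_contra hno
  refine h.far n ⟨g, hg, fun h0 => ?_⟩
  by_contra h1
  exact hno ⟨h0, not_lt.1 h1⟩

variable [CharP Ω p]

/-- `p ρ (n + 2) ≤ ρ (n + 1)` -/
theorem SND.rho_le (h : SND p v B x ρ) (n : ℕ) : p * ρ (n + 2) ≤ ρ (n + 1) := by
  have hp0 : (0 : ℝ) < p := by exact_mod_cast hp.out.pos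
  refine le_of_forall_pos_le_add fun ε hε => ?_
  obtain ⟨g, hg, h1⟩ := h.near (n + 1) (ε / p) (by positivity)
  obtain ⟨h2, h3⟩ := h.dist_le (n := n + 1) ((D2P.mem_adj_self B _).2 hg)
  obtain ⟨h4, h5⟩ := h.dist_le (n := n) ((D2P.mem_adj_self B _).2 (pow_mem hg p))
  have e : x (n + 1) - g ^ p = (x (n + 1 + 1) - g) ^ p := by
    rw [sub_pow_char, h.root (n + 1)]
  rw [e, v.map_pow h2] at h5
  have h6 := h1 h2
  have h7 : (p : ℝ) * (ρ (n + 1 + 1) - ε / p) ≤ p * v (x (n + 1 + 1) - g) :=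
    mul_le_mul_of_nonneg_left h6 hp0.le
  rw [mul_sub, mul_div_cancel₀ _ hp0.ne'] at h7
  have e2 : ρ (n + 1 + 1) = ρ (n + 2) := rfl
  rw [e2] at h7
  linarith

theorem SND.rho_le_pow (h : SND p v B x ρ) (n : ℕ) : ρ (n + 1) ≤ p * ρ 1 / p ^ (n + 1) := by
  have hp0 : (0 : ℝ) < p := by exact_mod_cast hp.out.pos
  induction n with
  | zero => rw [zero_add, pow_one, mul_div_cancel_left₀ _ hp0.ne']
  | succ n ih =>
    have h1 := h.rho_le n
    have h2 : ρ (n + 2) ≤ ρ (n + 1) / p := by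
      rw [le_div_iff₀ hp0]
      linarith
    refine h2.trans ?_
    rw [pow_succ _ (n + 1), ← div_div]
    exact (div_le_div_iff_of_pos_right hp0).2 ih

theorem SND.wt_le (h : SND p v B x ρ) (n : ℕ) :
    ∀ F < p ^ n, wt p ρ n F ≤ F * (p * ρ 1) / p ^ n := by
  have hp0 : (0 : ℝ) < p := by exact_mod_cast hp.out.pos
  induction n with
  | zero =>
    intro F hF
    rw [pow_zero, Nat.lt_one_iff] at hF
    subst hF
    rw [wt, Nat.cast_zero, zero_mul, zero_div]
  | succ n ih =>
    intro F hF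
    have hF' : F / p < p ^ n := by
      rw [Nat.div_lt_iff_lt_mul hp.out.pos, ← pow_succ]
      exact hF
    have h1 := h.rho_le_pow n
    have h2 : ((F % p : ℕ) : ℝ) * ρ (n + 1) ≤ (F % p : ℕ) * (p * ρ 1 / p ^ (n + 1)) :=
      mul_le_mul_of_nonneg_left h1 (Nat.cast_nonneg _)
    have h3 := ih (F / p) hF'
    have h4 : (F : ℝ) = (F % p : ℕ) + p * (F / p : ℕ) := by
      exact_mod_cast (Nat.mod_add_div F p).symm
    rw [wt]
    refine (add_le_add h2 h3).trans (le_of_eq ?_)
    rw [h4, pow_succ]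
    field_simp

variable [CharP k p] [IsAlgClosed Ω]

/-- **The norm of the jets.** -/
theorem SND.norm (h0 : Ctx0 k v) (hc : CompleteV v) (h : SND p v B x ρ) (n : ℕ) :
    ∀ P : Polynomial Ω, P ∈ PI B → ∀ F < p ^ n, ∀ b : ℝ, v.Ge b (P.eval (x n)) →
      v.Ge (b - wt p ρ n F) ((taylor (x n) P).coeff F) := by
  have hp0 : (0 : ℝ) < p := by exact_mod_cast hp.out.pos
  induction n with
  | zero =>
    intro P _ F hF b hb
    rw [pow_zero, Nat.lt_one_iff] at hF
    subst hF
    rw [taylor_coeff_zero, wt, sub_zero]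
    exact hb
  | succ n ih =>
    intro P hP F hF b hb
    refine ge_of_eps fun ε hε => ?_
    obtain ⟨g, hg, h1⟩ := h.near n (ε / (2 * p)) (by positivity)
    obtain ⟨h2, h3⟩ := h.dist_le (n := n) ((D2P.mem_adj_self B _).2 hg)
    obtain ⟨Q, hQ, hPQ⟩ := exists_digits p hP hg
    have hao := AO.stepW p h0 (h.pstep hc n) ((D2P.mem_adj_self B (x n)).2 hg)
      (γ := ε / (2 * p)) (by positivity) h1
    have hQm : ∀ a, (Q a).eval (x n) ∈ adj B (x n) := fun a =>
      eval_mem (PI_mono (D2P.mem_adj_self B (x n)).2 (hQ a)) (D2P.mem_adj_self B (x n)).1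
    rw [eval_digits p hPQ, h.root] at hb
    have h4 := hao (fun a => (Q a).eval (x n)) (fun a => hQm a) b hb
    rw [coeff_digits p hPQ, h.root]
    refine RVal.Ge.sum _ _ fun a ha => ?_
    rw [Finset.mem_range] at ha
    rcases lt_or_ge a (F % p) with hlt | hge
    · rw [Nat.choose_eq_zero_of_lt hlt, Nat.cast_zero, mul_zero, mul_zero]
      exact RVal.Ge.zero
    have h5 : v.Ge (b - p * (ε / (2 * p)) - a * ρ (n + 1)) ((Q a).eval (x n)) := by
      intro h6
      have h7 := h4 ⟨a, ha⟩ (mul_ne_zero h6 (pow_ne_zero _ h2))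
      rw [v.map_mul h6 (pow_ne_zero _ h2), v.map_pow h2] at h7
      have h8 : (a : ℝ) * v (x (n + 1) - g) ≤ a * ρ (n + 1) :=
        mul_le_mul_of_nonneg_left h3 (Nat.cast_nonneg _)
      simp only at h7
      linarith
    have hF' : F / p < p ^ n := by
      rw [Nat.div_lt_iff_lt_mul hp.out.pos, ← pow_succ]
      exact hF
    have h6 := ih (Q a) (hQ a) (F / p) hF' _ h5
    have h7 := h6.mul ((ge_pow h1 (a - F % p)).mul (ge_natCast v (a.choose (F % p))))
    refine h7.mono ?_
    rw [wt, Nat.cast_sub hge]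
    have h8 : (a : ℝ) ≤ p := by exact_mod_cast ha.le
    have h9 : (p : ℝ) * (ε / (2 * p)) = ε / 2 := by field_simp
    have h10 : ((a : ℝ) - (F % p : ℕ)) * (ε / (2 * p)) ≤ ε / 2 := by
      rw [← h9]
      refine mul_le_mul_of_nonneg_right ?_ (by positivity)
      have : (0 : ℝ) ≤ (F % p : ℕ) := Nat.cast_nonneg _
      linarith
    rw [h9, mul_sub]
    linarith

end Norm

end Pool.Agent.TWC
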