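import Pool.Agent.Lib.TWC.BdTowA
import Pool.Agent.Lib.TWC.JD
import Pool.Agent.Lib.TWS.MonF

/-!
# TANK W, class C: bounded distortion without hypothesis, part B

`Ω` is complete and algebraically closed.

* `ind_step`: `z` of transcendental type over the closed field `A`, `b` in `A` independent over
  `A ^ p`: the family `b_i z ^ j`, `j < p`, is independent over the `p`-th powers of the closure
  of `A(z)`;
* `ind_tow`: towers;
* `ind_pair`: two letters;
* `ind_comp`: if `L` is spanned by `e` over `Q` and `P` is perfect, then the closure of `L P` is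
  spanned by `e` over its `p`-th powers;
* `rank_tow`: the number of the elements of a `p`-basis of `L`, if the closure of `L P` is a tower
  over `P`, and `x ^ (1 / p)` is in `P` and not in `L`.
-/

set_option autoImplicit false

open Polynomial

namespace Pool.Agent.TWC

open Pool.Agent.H15JM (RVal)
open Pool.Agent.LU1 (adj)
open Pool.Agent.LUC (Cl clF)
open Pool.Agent.D2P (clI mem_clI rootF mem_rootF mem_adj_self)
open Pool.Agent.TWM
open Pool.Agent.TWS (TowR)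
open Pool.Agent.TW (BD PBasis Orthq Ind Bas Qp mem_Qp Qp_le' Qp_mono mon sm exists_bas
  exists_PBasis bas_pow pow_sum)

universe u

section Step

variable {k Ω : Type u} [Field k] [Field Ω] [Algebra k Ω] [IsAlgClosed Ω] {v : RVal Ω}
  {A B C : IntermediateField k Ω} {z : Ω} {s : ℝ} {ι κ : Type} [Fintype ι] [Fintype κ]
  {b : ι → Ω} {c : ℝ}

/-- Finitely many polynomials near `z`. -/
theorem near_fin (h : TL v A z s) {g : ι → Polynomial Ω} (hg : ∀ i, g i ∈ PI A) :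
    ∃ a ∈ A, ∀ i, g i ≠ 0 → (g i).eval a ≠ 0 ∧ v ((g i).eval a) = v ((g i).eval z) := by
  classical
  have h1 : ∀ i, ∃ δ : ℝ, 0 < δ ∧ ∀ ψ, v.Ge (s - δ) (z - ψ) → g i ≠ 0 →
      (g i).eval ψ ≠ 0 ∧ v ((g i).eval ψ) = v ((g i).eval z) := by
    intro i
    by_cases h0 : g i = 0
    · exact ⟨1, one_pos, fun _ _ h => absurd h0 h⟩
    · obtain ⟨δ, hδ, h2⟩ := h.near_val (PI_mono (le_algc A) (hg i)) h0
      exact ⟨δ, hδ, fun ψ hψ _ => h2 ψ hψ⟩
  choose δ hδ hd using h1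
  have hS : 0 ≤ ∑ i, (δ i)⁻¹ := Finset.sum_nonneg fun i _ => (inv_pos.2 (hδ i)).le
  obtain ⟨a, ha, h2⟩ := h.lim (1 + ∑ i, (δ i)⁻¹)⁻¹ (inv_pos.2 (by linarith))
  refine ⟨a, ha, fun i => hd i a (h2.mono ?_)⟩
  have h3 : (δ i)⁻¹ ≤ 1 + ∑ i, (δ i)⁻¹ := by
    have := Finset.single_le_sum (f := fun i => (δ i)⁻¹) (fun i _ => (inv_pos.2 (hδ i)).le)
      (Finset.mem_univ i)
    linarith
  have h4 : (1 + ∑ i, (δ i)⁻¹)⁻¹ ≤ δ i := by
    rw [inv_le_comm₀ (by linarith) (hδ i)]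
    exact h3
  linarith

variable {p : ℕ} [hp : Fact p.Prime] [CharP k p] [CharP Ω p]

omit [CharP k p] in
theorem orth_poly (hz : TL v A z s) (hb : ∀ i, b i ∈ A) (hi : Ind (Qp p A) b)
    (ho : Orthq v (Qp p A) b c) {f : ι → Polynomial Ω} (hf : ∀ i, f i ∈ PI A)
    (hne : ∃ i, f i ≠ 0) : ∑ i, (f i).eval z ^ p * b i ≠ 0 ∧
      ∀ j, v.Ge (v (∑ i, (f i).eval z ^ p * b i) - c) ((f j).eval z ^ p * b j) := by
  set F : Polynomial Ω := ∑ i, f i ^ p * Polynomial.C (b i) with hF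
  have hFA : F ∈ PI A := sum_mem fun i _ => mul_mem (pow_mem (hf i) p) (C_mem_PI (hb i))
  have hev : ∀ a, F.eval a = ∑ i, (f i).eval a ^ p * b i := fun a => by
    rw [hF, eval_finsetSum]
    simp only [eval_mul, eval_pow, eval_C]
  obtain ⟨a, ha, h1⟩ := near_fin hz (g := fun o : Option ι => o.elim F f) (fun o => by
    cases o
    exacts [hFA, hf _])
  have hfa : ∀ i, f i ≠ 0 → (f i).eval a ≠ 0 ∧ v ((f i).eval a) = v ((f i).eval z) :=
    fun i h => h1 (some i) h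
  have hmem : ∀ i, (f i).eval a ^ p ∈ Qp p A := fun i => mem_Qp.2 ⟨_, eval_mem (hf i) ha, rfl⟩
  have hFa : F.eval a ≠ 0 := by
    obtain ⟨i, hi0⟩ := hne
    intro h2
    rw [hev] at h2
    exact pow_ne_zero p (hfa i hi0).1 (hi (fun i => (f i).eval a ^ p) hmem h2 i)
  have hF0 : F ≠ 0 := fun h2 => hFa (by rw [h2, eval_zero])
  have h2 : v (F.eval a) = v (F.eval z) := (h1 none hF0).2
  have hFz : F.eval z ≠ 0 := hz.eval_ne (PI_mono (le_algc A) hFA) hF0
  refine ⟨by rw [← hev]; exact hFz, fun j => ?_⟩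
  rw [← hev]
  intro h3
  have h4 : f j ≠ 0 := by
    intro h4
    rw [h4, eval_zero, zero_pow hp.out.ne_zero, zero_mul] at h3
    exact h3 rfl
  obtain ⟨h5, h6⟩ := hfa j h4
  have hb0 := right_ne_zero_of_mul h3
  have h7 := ho (fun i => (f i).eval a ^ p) hmem (by rw [← hev]; exact hFa) j
    (mul_ne_zero (pow_ne_zero p h5) hb0)
  rw [← hev, v.map_mul (pow_ne_zero p h5) hb0, v.map_pow h5, h6, h2] at h7
  have h8 : (f j).eval z ≠ 0 := hz.eval_ne (PI_mono (le_algc A) (hf j)) h4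
  rw [v.map_mul (pow_ne_zero p h8) hb0, v.map_pow h8]
  exact h7

omit [IsAlgClosed Ω] [CharP k p] [CharP Ω p] hp in
/-- A common denominator. -/
theorem common_frac {h : ι → Ω} (hh : ∀ i, h i ∈ adj A z) :
    ∃ D ∈ PI A, D.eval z ≠ 0 ∧ ∃ f : ι → Polynomial Ω, (∀ i, f i ∈ PI A) ∧
      ∀ i, h i * D.eval z = (f i).eval z := by
  classical
  choose G hG H hH h1 h2 using fun i => exists_frac (hh i)
  refine ⟨∏ i, H i, prod_mem fun i _ => hH i, ?_,
    fun i => G i * ∏ j ∈ Finset.univ.erase i, H j,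
    fun i => mul_mem (hG i) (prod_mem fun j _ => hH j), fun i => ?_⟩
  · rw [eval_prod]
    exact Finset.prod_ne_zero_iff.2 fun i _ => h1 i
  · rw [eval_mul, ← h2 i, ← Finset.mul_prod_erase Finset.univ H (Finset.mem_univ i), eval_mul]
    ring

omit [CharP k p] in
theorem orthq_adj (hz : TL v A z s) (hb : ∀ i, b i ∈ A) (hi : Ind (Qp p A) b)
    (ho : Orthq v (Qp p A) b c) :
    Ind (Qp p (adj A z)) b ∧ Orthq v (Qp p (adj A z)) b c := by
  have key : ∀ q : ι → Ω, (∀ j, q j ∈ Qp p (adj A z)) → (∃ i, q i ≠ 0) →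
      ∑ j, q j * b j ≠ 0 ∧ ∀ j, v.Ge (v (∑ j, q j * b j) - c) (q j * b j) := by
    intro q hq hne
    choose h hh hhq using fun j => mem_Qp.1 (hq j)
    obtain ⟨D, hD, hDz, f, hf, hfz⟩ := common_frac hh
    have hDp : D.eval z ^ p ≠ 0 := pow_ne_zero p hDz
    have h1 : ∀ i, (f i).eval z ^ p * b i = q i * b i * D.eval z ^ p := fun i => by
      rw [← hfz, mul_pow, hhq]
      ring
    have h2 : ∑ i, (f i).eval z ^ p * b i = (∑ i, q i * b i) * D.eval z ^ p := by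
      rw [Finset.sum_mul]
      exact Finset.sum_congr rfl fun i _ => h1 i
    have h3 : ∃ i, f i ≠ 0 := by
      obtain ⟨i, h0⟩ := hne
      refine ⟨i, fun h4 => h0 ?_⟩
      have h5 := hfz i
      rw [h4, eval_zero] at h5
      have h6 : h i = 0 := (mul_eq_zero.1 h5).resolve_right hDz
      rw [← hhq, h6, zero_pow hp.out.ne_zero]
    obtain ⟨h4, h5⟩ := orth_poly hz hb hi ho hf h3
    rw [h2] at h4 h5
    have h6 := left_ne_zero_of_mul h4
    refine ⟨h6, fun j h7 => ?_⟩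
    have h8 := h5 j
    rw [h1 j] at h8
    have h9 := h8 (mul_ne_zero h7 hDp)
    rw [v.map_mul h7 hDp, v.map_mul h6 hDp] at h9
    linarith
  refine ⟨fun q hq h0 j => ?_, fun q hq h0 j => ?_⟩
  · by_contra hj
    exact (key q hq ⟨j, hj⟩).1 h0
  · refine (key q hq ?_).2 j
    by_contra hcon
    simp only [not_exists, not_not] at hcon
    exact h0 (Finset.sum_eq_zero fun i _ => by rw [hcon i, zero_mul])

omit [CharP k p] in
theorem ind_cadj_base (hc : CompleteV v) (hA : Cld v A) (hz : TL v A z s)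
    (hb : ∀ i, b i ∈ A) (hi : Ind (Qp p A) b) : Ind (Qp p (cadj v A z)) b := by
  obtain ⟨c, hC⟩ := orthq_of_ind hc (cl_Qp hA) hi
  obtain ⟨h1, h2⟩ := orthq_adj hz hb hi hC
  exact (h2.ind_cl h1).mono_base Qp_clI_le

omit [CharP k p] in
theorem notMem_cadj_pow (hz : TL v A z s) : z ∉ cadj v A (z ^ p) := by
  intro h
  obtain ⟨a, ha, h1⟩ := (mem_cadj.1 h) (s + 1)
  obtain ⟨h2, h3⟩ := dist_le_adj p (fun θ hθ => ⟨(hz.far θ hθ).1, (hz.far θ hθ).2.le⟩) ha
  have := h1 (sub_ne_zero.2 h2)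
  linarith

omit [CharP k p] in
/-- **One floor.** -/
theorem ind_step (hc : CompleteV v) (hA : Cld v A) (hz : TL v A z s) (hb : ∀ i, b i ∈ A)
    (hi : Ind (Qp p A) b) :
    Ind (Qp p (cadj v A z)) (fun x : ι × Fin p => b x.1 * z ^ (x.2 : ℕ)) := by
  have h1 := ind_cadj_base hc hA hz hb hi
  have h2 : Ind (cadj v A (z ^ p)).toSubfield (fun i : Fin p => z ^ (i : ℕ)) :=
    (bas_pow (notMem_cadj_pow hz) (self_mem_cadj v A (z ^ p))).ind
  refine h2.prod h1 (fun l => le_cadj v A _ (hb l)) ?_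
  intro x hx
  obtain ⟨c, hc, rfl⟩ := mem_Qp.1 hx
  have h3 : cadj v A z ≤ rootF p 1 (cadj v A (z ^ p)) :=
    cadj_le (cld_rootF p (cld_cadj v A _))
      (fun a ha => (mem_rootF1 p).2 (le_cadj v A _ (pow_mem ha p)))
      ((mem_rootF1 p).2 (self_mem_cadj v A _))
  exact (mem_rootF1 p).1 (h3 hc)

omit [CharP k p] in
/-- **Towers.** -/
theorem ind_tow (hc : CompleteV v) {m : ℕ} (hT : TowR v m A B) : ∀ {n : ℕ} {b : Fin n → Ω},
    Cld v A → (∀ i, b i ∈ A) → Ind (Qp p A) b →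
    ∃ (N : ℕ) (e : Fin N → Ω), N = n * p ^ m ∧ (∀ i, e i ∈ B) ∧ Ind (Qp p B) e := by
  induction hT with
  | zero _ => exact fun {n b} _ hb hi => ⟨n, b, by rw [pow_zero, mul_one], hb, hi⟩
  | @succ m A B z s hz hT ih =>
    intro n b hA hb hi
    have h1 := ind_step hc hA hz hb hi
    have h2 := h1.reindex (finProdFinEquiv (m := n) (n := p)).symm
    obtain ⟨N, e, hN, he, hie⟩ := ih (cld_cadj v A z)
      (fun i => mul_mem (le_cadj v A z (hb _)) (pow_mem (self_mem_cadj v A z) _)) h2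
    refine ⟨N, e, ?_, he, hie⟩
    rw [hN, pow_succ]
    ring

omit [IsAlgClosed Ω] [CharP k p] in
theorem notMem_Qp {a : Ω} (ha : a ∉ A) : a ^ p ∉ Qp p A := by
  intro h
  obtain ⟨c, hc, h1⟩ := mem_Qp.1 h
  have h2 : c = a := frobenius_inj Ω p h1
  exact ha (h2 ▸ hc)

omit [IsAlgClosed Ω] [CharP k p] [Algebra k Ω] [Field k] in
/-- Two letters. -/
theorem ind_pair {Q K : Subfield Ω} {a y : Ω} (ha : a ∉ Q) (hap : a ^ p ∈ Q) (hQK : Q ≤ K)
    (haK : a ∈ K) (hy : Ind K (fun j : Fin p => y ^ (j : ℕ))) :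
    Ind Q (fun x : Fin p × Fin p => a ^ (x.1 : ℕ) * y ^ (x.2 : ℕ)) := by
  have h1 := bas_pow ha hap
  refine (hy.mono_base ?_).prod h1.ind h1.mem ?_
  · intro u hu
    obtain ⟨c, hc, rfl⟩ := h1.span u hu
    exact sum_mem fun i _ => mul_mem (hQK (hc i)) (pow_mem haK _)
  · exact fun q hq => (IntermediateField.adjoin Q {a}).algebraMap_mem (⟨q, hq⟩ : Q)

/-- **A tower over a base with two letters.** -/
theorem bd_of_base [IsAlgClosed k] (hc : CompleteV v) {m : ℕ} {K : IntermediateField k Ω} (hK : K.FG)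
    (htr : Algebra.trdeg k K = (m + 2 : ℕ)) (hT : TowR v m C (clI v K)) (hC : Cld v C)
    {f : Fin p × Fin p → Ω} (hf : ∀ i, f i ∈ C) (hi : Ind (Qp p C) f) : BD p v K := by
  obtain ⟨N, e, hN, he, hie⟩ := ind_tow hc hT hC (fun i => hf _)
    (hi.reindex (finProdFinEquiv (m := p) (n := p)).symm)
  refine bd_of_ind hc hK htr (N := N) ?_ he hie
  rw [hN]
  ring

end Step

/-! ### The compositum with a perfect field -/

section Comp

variable {k Ω : Type u} [Field k] [Field Ω] [Algebra k Ω] {v : RVal Ω}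
  {L P : IntermediateField k Ω} {ι κ : Type} [Fintype ι] [Fintype κ] {e : ι → Ω}
  {p : ℕ} [hp : Fact p.Prime] [CharP Ω p]

omit [Algebra k Ω] [Field k] in
/-- The span of a family is a field. -/
theorem spn_field {F : Subfield Ω} (he : ∀ i j, TW.Spn F e (e i * e j)) (h1 : TW.Spn F e 1)
    (hep : ∀ i, e i ^ p ∈ F) : ∃ T : Subfield Ω, ∀ u, u ∈ T ↔ TW.Spn F e u := by
  have hmul : ∀ a b : Ω, TW.Spn F e a → TW.Spn F e b → TW.Spn F e (a * b) := by
    rintro _ _ ⟨c, hc, rfl⟩ ⟨d, hd, rfl⟩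
    rw [Finset.sum_mul_sum, spn_iff]
    refine Submodule.sum_mem _ fun i _ => Submodule.sum_mem _ fun j _ => ?_
    have h2 : c i * e i * (d j * e j) = (c i * d j) * (e i * e j) := by ring
    rw [h2]
    exact Submodule.smul_mem _ (⟨c i * d j, mul_mem (hc i) (hd j)⟩ : F) (spn_iff.1 (he i j))
  have hsm : ∀ (q : Ω), q ∈ F → ∀ a, TW.Spn F e a → TW.Spn F e (q * a) := by
    rintro q hq _ ⟨c, hc, rfl⟩
    refine ⟨fun i => q * c i, fun i => mul_mem hq (hc i), ?_⟩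
    rw [Finset.mul_sum]
    exact Finset.sum_congr rfl fun i _ => by ring
  have hpow : ∀ a, TW.Spn F e a → a ^ p ∈ F := by
    rintro _ ⟨c, hc, rfl⟩
    rw [pow_sum]
    exact sum_mem fun i _ => by rw [mul_pow]; exact mul_mem (pow_mem (hc i) p) (hep i)
  have hpw : ∀ (n : ℕ) (a : Ω), TW.Spn F e a → TW.Spn F e (a ^ n) := by
    intro n a ha
    induction n with
    | zero => rwa [pow_zero]
    | succ n ih => rw [pow_succ]; exact hmul _ _ ih ha
  refine ⟨{ carrier := {a | TW.Spn F e a}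
            mul_mem' := fun ha hb => hmul _ _ ha hb
            one_mem' := h1
            add_mem' := ?_
            zero_mem' := ⟨fun _ => 0, fun _ => zero_mem _, by simp⟩
            neg_mem' := ?_
            inv_mem' := ?_ }, fun u => Iff.rfl⟩
  · rintro _ _ ⟨c, hc, rfl⟩ ⟨d, hd, rfl⟩
    refine ⟨fun i => c i + d i, fun i => add_mem (hc i) (hd i), ?_⟩
    rw [← Finset.sum_add_distrib]
    exact Finset.sum_congr rfl fun i _ => by ring
  · intro a ha
    have h2 := hsm (-1) (neg_mem (one_mem F)) a ha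
    rw [neg_one_mul] at h2
    exact h2
  · intro a ha
    by_cases h0 : a = 0
    · rw [h0, inv_zero]
      exact ⟨fun _ => 0, fun _ => zero_mem _, by simp⟩
    · have h2 : a⁻¹ = (a ^ p)⁻¹ * a ^ (p - 1) := by
        have h3 : a ^ p = a ^ (p - 1) * a := by
          rw [← pow_succ, Nat.sub_add_cancel hp.out.one_le]
        rw [h3]
        have h4 : a ^ (p - 1) ≠ 0 := pow_ne_zero _ h0
        field_simp
      rw [h2]
      exact hsm _ (inv_mem (hpow a ha)) _ (hpw _ a ha)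

/-- The compositum with a perfect field: if `L` is spanned by `e` over `Q`, then the closure of `L P`
is spanned by `e` over its `p`-th powers. -/
theorem ind_comp [IsAlgClosed Ω] (hc : CompleteV v) {Q : Subfield Ω} (he : ∀ i, e i ∈ L)
    (hs : ∀ u ∈ L, TW.Spn Q e u) (hQ : Q ≤ Qp p (clI v (L ⊔ P)))
    (hP : ∀ a ∈ P, ∃ b ∈ P, b ^ p = a) {u : Ω} (hu : u ∈ clI v (L ⊔ P)) :
    TW.Spn (Qp p (clI v (L ⊔ P))) e u := by
  set N : IntermediateField k Ω := clI v (L ⊔ P) with hN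
  have hLN : L ≤ N := le_sup_left.trans (self_le_clI v _)
  have hPN : P ≤ N := le_sup_right.trans (self_le_clI v _)
  obtain ⟨T, hT⟩ := spn_field (F := Qp p N) (e := e) (p := p)
    (fun i j => (hs _ (mul_mem (he i) (he j))).mono hQ) ((hs 1 (one_mem L)).mono hQ)
    (fun i => mem_Qp.2 ⟨e i, hLN (he i), rfl⟩)
  have hLT : ∀ a ∈ L, a ∈ T := fun a ha => (hT a).2 ((hs a ha).mono hQ)
  have hPT : ∀ a ∈ P, a ∈ T := by
    intro a ha
    obtain ⟨b, hb, rfl⟩ := hP a ha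
    rw [hT]
    obtain ⟨c, hc, h1⟩ := (hs 1 (one_mem L)).mono hQ
    refine ⟨fun i => b ^ p * c i, fun i => mul_mem (mem_Qp.2 ⟨b, hPN hb, rfl⟩) (hc i), ?_⟩
    calc b ^ p = b ^ p * 1 := (mul_one _).symm
      _ = b ^ p * ∑ i, c i * e i := by rw [← h1]
      _ = ∑ i, b ^ p * c i * e i := by
          rw [Finset.mul_sum]
          exact Finset.sum_congr rfl fun i _ => by ring
  have hLP : ∀ a ∈ L ⊔ P, a ∈ T := by
    let T' : IntermediateField k Ω := T.toIntermediateField fun x => hLT _ (L.algebraMap_mem x)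
    have h1 : L ⊔ P ≤ T' := sup_le (fun a ha => hLT a ha) fun a ha => hPT a ha
    exact fun a ha => h1 ha
  refine spn_of_lim hc (cl_Qp (cld_clI v _)) fun r => ?_
  obtain ⟨a, ha, h1⟩ := mem_clI.1 hu r
  exact ⟨a, (hT a).1 (hLP a ha), h1⟩

/-- **The rank of `L` over its `p`-th powers**, from the tower over `P`. -/
theorem rank_tow [IsAlgClosed Ω] (hc : CompleteV v) (hP : ∀ a ∈ P, ∃ b ∈ P, b ^ p = a)
    {x : Ω} (hxP : x ∈ P) (hxL : x ∉ L) (hxp : x ^ p ∈ L) {N : ℕ} {g : Fin N → Ω}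
    (hg : ∀ i, g i ∈ clI v (L ⊔ P)) (hi : Ind (Qp p (clI v (L ⊔ P))) g) {n : ℕ}
    {t : Fin n → Ω} (ht : PBasis p L t) : N * p ≤ p ^ n := by
  have hLN : L ≤ clI v (L ⊔ P) := le_sup_left.trans (self_le_clI v _)
  have hPN : P ≤ clI v (L ⊔ P) := le_sup_right.trans (self_le_clI v _)
  have h1 := bas_pow (notMem_Qp (p := p) hxL) (mem_Qp.2 ⟨x ^ p, hxp, rfl⟩)
  set Q' : Subfield Ω := (IntermediateField.adjoin (Qp p L) {x ^ p}).toSubfield with hQ'
  have hQQ' : Qp p L ≤ Q' := fun q hq =>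
    (IntermediateField.adjoin (Qp p L) {x ^ p}).algebraMap_mem (⟨q, hq⟩ : Qp p L)
  have hQ'L : Q' ≤ L.toSubfield := by
    intro u hu
    obtain ⟨c, hc, rfl⟩ := h1.span u hu
    exact sum_mem fun i _ => mul_mem (Qp_le' (hc i)) (pow_mem hxp _)
  have hQ'N : Q' ≤ Qp p (clI v (L ⊔ P)) := by
    intro u hu
    obtain ⟨c, hc, rfl⟩ := h1.span u hu
    exact sum_mem fun i _ => mul_mem (Qp_mono hLN (hc i))
      (pow_mem (mem_Qp.2 ⟨x, hPN hxP, rfl⟩) _)
  have hs : ∀ u ∈ L.toSubfield, TW.Spn Q' (mon (p := p) t) u := fun u hu =>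
    (ht.bas.span u hu).mono hQQ'
  obtain ⟨r, e, he⟩ := exists_bas hQ'L hs
  have h2 := (he.prod h1 hQQ' hQ'L).card (Qp_le' (p := p) (E := L))
  have h3 := ht.bas.card (Qp_le' (p := p) (E := L))
  rw [← h3, Fintype.card_prod, Fintype.card_fin, Fintype.card_fin, Fintype.card_fun,
    Fintype.card_fin, Fintype.card_fin] at h2
  have h4 := card_le_of_ind hi fun i =>
    ind_comp hc (P := P) (L := L) (e := e) he.mem he.span hQ'N hP (hg i)
  rw [Fintype.card_fin, Fintype.card_fin] at h4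
  rw [← h2, mul_comm]
  exact Nat.mul_le_mul_left p h4

end Comp

end Pool.Agent.TWC
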