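import Pool.Agent.Lib.TWC.Cf

/-!
# TANK W, class C: B2 (1), bounded degree

* `deg_root`: if `g ^ q` is near to a polynomial `F` at `z`, then `g` is near to a polynomial of
  degree `≤ deg F / q` (`E` perfect, `q` a power of `p`);
* `Rel.bdd`: the solutions of the relations of Theorem B have approximants of bounded degree.
-/

set_option autoImplicit false

open Polynomial TensorProduct

namespace Pool.Agent.TWC

open Pool.Agent.H15JM (RVal)
open Pool.Agent.LU1 (VPos adj)
open Pool.Agent.D2 (Ctx0)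
open Pool.Agent.TWM

universe u

section Root

variable {k Ω : Type u} [Field k] [Field Ω] [Algebra k Ω] {v : RVal Ω}
  {A E : IntermediateField k Ω} {z : Ω} [IsAlgClosed Ω]

/-- Finitely many polynomials of value `≥ r` at `z`, at the points near `z`. -/
theorem ge_near_fin (h : TL v A z 0) (T : Finset (Polynomial Ω)) {r : ℝ}
    (hT : ∀ g ∈ T, g ∈ PI A ∧ v.Ge r (g.eval z)) :
    ∃ δ : ℝ, 0 < δ ∧ ∀ ψ, v.Ge (-δ) (z - ψ) → ∀ g ∈ T, v.Ge r (g.eval ψ) := by
  classical
  induction T using Finset.induction_on with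
  | empty => exact ⟨1, one_pos, by simp⟩
  | insert g T hg ih =>
    obtain ⟨δ, hδ, h1⟩ := ih fun g' h' => hT g' (Finset.mem_insert_of_mem h')
    obtain ⟨h2, h3⟩ := hT g (Finset.mem_insert_self g T)
    by_cases h0 : g = 0
    · refine ⟨δ, hδ, fun ψ hψ g' h' => ?_⟩
      rcases Finset.mem_insert.1 h' with rfl | h'
      · rw [h0, eval_zero]; exact RVal.Ge.zero
      · exact h1 ψ hψ g' h'
    have h4 := h3 (h.eval_ne (PI_mono (le_algc A) h2) h0)
    obtain ⟨δ', hδ', h5⟩ := h.near_val (PI_mono (le_algc A) h2) h0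
    refine ⟨min δ δ', lt_min hδ hδ', fun ψ hψ g' h' => ?_⟩
    rcases Finset.mem_insert.1 h' with rfl | h'
    · obtain ⟨-, h6⟩ := h5 ψ (hψ.mono (by have := min_le_right δ δ'; linarith))
      exact RVal.Ge.of_le (by rw [h6]; exact h4)
    · exact h1 ψ (hψ.mono (by have := min_le_left δ δ'; linarith)) g' h'

/-- The degree of a root: if `g ^ q` is near to a polynomial `F` at `z`, then `g` is near to a
polynomial of degree `≤ deg F / q`. -/
theorem deg_root (h : TL v E z 0) (p : ℕ) [Fact p.Prime] [CharP Ω p]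
    (hE : ∀ a ∈ E, ∃ b ∈ E, b ^ p = a) (q : ℕ) {F g : Polynomial Ω} (hF : F ∈ PI E)
    (hg : g ∈ PI E) {r : ℝ} (hr : v.Ge ((p ^ q : ℕ) * r) (g.eval z ^ p ^ q - F.eval z))
    {ε : ℝ} (hε : 0 < ε) :
    ∃ g' ∈ PI E, p ^ q * g'.natDegree ≤ F.natDegree ∧ v.Ge (r - ε) (g.eval z - g'.eval z) := by
  classical
  have hp : p.Prime := Fact.out
  have hpq : 0 < p ^ q := pow_pos hp.pos q
  have hpq' : (0 : ℝ) < (p ^ q : ℕ) := by exact_mod_cast hpq
  -- the Hasse derivatives of orders not divisible by `q`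
  have h1 : ∀ l, ¬ p ^ q ∣ l → v.Ge ((p ^ q : ℕ) * r) ((hasseDeriv l F).eval z) := by
    intro l hl
    have h2 : v.Ge ((p ^ q : ℕ) * r) ((g ^ p ^ q - F).eval z) := by
      rw [eval_sub, eval_pow]
      exact hr
    have h3 := hasse_ge h (sub_mem (pow_mem hg _) hF) h2 l
    rw [map_sub, eval_sub, hasse_pow_char p q g hl, zero_sub] at h3
    have h4 := h3.neg
    rwa [neg_neg] at h4
  set D := F.natDegree with hD
  obtain ⟨δ, hδ, hmar⟩ := ge_near_fin h
    (((Finset.range (D + 1)).filter fun l => ¬ p ^ q ∣ l).image fun l => hasseDeriv l F)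
    (r := (p ^ q : ℕ) * r) (by
      intro f hf
      obtain ⟨l, hl, rfl⟩ := Finset.mem_image.1 hf
      obtain ⟨-, hl2⟩ := Finset.mem_filter.1 hl
      exact ⟨hasse_mem_PI hF l, h1 l hl2⟩)
  obtain ⟨ψ, hψE, hψ⟩ := h.lim (min δ ((p ^ q : ℕ) * ε / (D + 1))) (lt_min hδ (by positivity))
  rw [zero_sub] at hψ
  have hmar' := hmar ψ (hψ.mono (neg_le_neg (min_le_left _ _)))
  have hψ' : v.Ge (-((p ^ q : ℕ) * ε / (D + 1))) (z - ψ) :=
    hψ.mono (neg_le_neg (min_le_right _ _))
  set T := taylor ψ F with hT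
  have hTE : T ∈ PI E := taylor_mem_PI hF hψE
  have hTD : T.natDegree = D := by rw [hT, natDegree_taylor]
  have hTc : ∀ l, ¬ p ^ q ∣ l → v.Ge ((p ^ q : ℕ) * r) (T.coeff l) := by
    intro l hlq
    by_cases hlD : l < D + 1
    · rw [hT, taylor_coeff]
      exact hmar' _ (Finset.mem_image.2 ⟨l, Finset.mem_filter.2 ⟨Finset.mem_range.2 hlD, hlq⟩,
        rfl⟩)
    · rw [coeff_eq_zero_of_natDegree_lt (by rw [hTD]; omega)]
      exact RVal.Ge.zero
  -- the root
  choose ρ hρE hρ using fun j => exists_root hE q (T.coeff (p ^ q * j)) (hTE _)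
  set g₁ : Polynomial Ω := ∑ j ∈ Finset.range (D / p ^ q + 1), monomial j (ρ j) with hg₁
  have hg₁E : g₁ ∈ PI E := sum_mem fun j _ => by
    intro i
    rw [coeff_monomial]
    split_ifs
    exacts [hρE _, zero_mem _]
  have hg₁D : g₁.natDegree ≤ D / p ^ q := by
    refine natDegree_sum_le_of_forall_le _ _ fun j hj => ?_
    have := Finset.mem_range.1 hj
    exact (natDegree_monomial_le _).trans (by omega)
  set g' : Polynomial Ω := taylor (-ψ) g₁ with hg'
  have hg'E : g' ∈ PI E := taylor_mem_PI hg₁E (neg_mem hψE)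
  refine ⟨g', hg'E, ?_, ?_⟩
  · rw [hg', natDegree_taylor]
    calc p ^ q * g₁.natDegree ≤ p ^ q * (D / p ^ q) := Nat.mul_le_mul_left _ hg₁D
      _ ≤ D := Nat.mul_div_le _ _
  -- the value
  have h5 : g'.eval z = g₁.eval (z - ψ) := by
    rw [hg', taylor_eval, ← sub_eq_add_neg]
  have h6 : F.eval z = T.eval (z - ψ) := by
    rw [hT, taylor_eval, sub_add_cancel]
  have h7 : g'.eval z ^ p ^ q =
      ∑ j ∈ Finset.range (D / p ^ q + 1), T.coeff (p ^ q * j) * (z - ψ) ^ (p ^ q * j) := by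
    rw [h5, hg₁, eval_finsetSum, sum_pow_char_pow]
    refine Finset.sum_congr rfl fun j _ => ?_
    rw [eval_monomial, mul_pow, hρ, ← pow_mul, mul_comm j]
  have h8 : F.eval z - g'.eval z ^ p ^ q =
      ∑ l ∈ (Finset.range (D + 1)).filter fun l => ¬ p ^ q ∣ l, T.coeff l * (z - ψ) ^ l := by
    have h9 : F.eval z = ∑ l ∈ Finset.range (D + 1), T.coeff l * (z - ψ) ^ l := by
      rw [h6, eval_eq_sum_range' (n := D + 1) (by rw [hTD]; omega)]
    rw [h9, ← Finset.sum_filter_add_sum_filter_not (Finset.range (D + 1)) (fun l => p ^ q ∣ l), h7]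
    have h10 : ∑ l ∈ (Finset.range (D + 1)).filter fun l => p ^ q ∣ l, T.coeff l * (z - ψ) ^ l =
        ∑ j ∈ Finset.range (D / p ^ q + 1), T.coeff (p ^ q * j) * (z - ψ) ^ (p ^ q * j) := by
      symm
      refine Finset.sum_nbij (fun j => p ^ q * j) ?_ ?_ ?_ ?_
      · intro j hj
        have hj' := Finset.mem_range.1 hj
        refine Finset.mem_filter.2 ⟨Finset.mem_range.2 ?_, dvd_mul_right _ _⟩
        have : p ^ q * j ≤ p ^ q * (D / p ^ q) := Nat.mul_le_mul_left _ (by omega)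
        have := Nat.mul_div_le D (p ^ q)
        omega
      · intro a _ b _ hab
        exact Nat.eq_of_mul_eq_mul_left hpq hab
      · intro l hl
        obtain ⟨hl1, c, hc⟩ := Finset.mem_filter.1 hl
        have hl1' := Finset.mem_range.1 hl1
        refine ⟨c, ?_, hc.symm⟩
        refine Finset.mem_coe.2 (Finset.mem_range.2 ?_)
        have : c ≤ D / p ^ q := by
          rw [Nat.le_div_iff_mul_le hpq, mul_comm, ← hc]
          omega
        omega
      · intro j _
        rfl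
    rw [h10, add_sub_cancel_left]
  have h11 : v.Ge ((p ^ q : ℕ) * (r - ε)) (F.eval z - g'.eval z ^ p ^ q) := by
    rw [h8]
    refine RVal.Ge.sum _ _ fun l hl => ?_
    obtain ⟨hl1, hl2⟩ := Finset.mem_filter.1 hl
    have hl1' := Finset.mem_range.1 hl1
    refine ((hTc l hl2).mul (ge_pow hψ' l)).mono ?_
    have h12 : (l : ℝ) ≤ D := by exact_mod_cast (by omega : l ≤ D)
    have h13 : (l : ℝ) * ((p ^ q : ℕ) * ε / (D + 1)) ≤ (p ^ q : ℕ) * ε := by
      rw [mul_div_assoc', div_le_iff₀ (by positivity)]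
      have h14 : (l : ℝ) ≤ D + 1 := by linarith
      have h15 : (0 : ℝ) < (p ^ q : ℕ) * ε := by positivity
      nlinarith
    linarith
  have h16 : v.Ge ((p ^ q : ℕ) * (r - ε)) (g.eval z ^ p ^ q - g'.eval z ^ p ^ q) := by
    have h17 : v.Ge ((p ^ q : ℕ) * (r - ε)) (g.eval z ^ p ^ q - F.eval z) := by
      refine hr.mono ?_
      have : (0 : ℝ) < (p ^ q : ℕ) * ε := by positivity
      linarith
    have := h17.add h11
    rwa [sub_add_sub_cancel] at this
  rw [← sub_pow_char_pow] at h16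
  intro h0
  have h18 := h16 (pow_ne_zero _ h0)
  rw [RVal.map_pow _ h0] at h18
  exact le_of_mul_le_mul_left h18 hpq'

end Root

section Main

variable {k Ω : Type u} [Field k] [Field Ω] [Algebra k Ω] {v : RVal Ω} [Fact (Ctx0 k v)]
  {C E : IntermediateField k Ω} {z : Ω} (p : ℕ) [Fact p.Prime] [CharP k p] [CharP Ω p]
  [PerfectRing k p] [IsAlgClosed Ω] {T : Submodule k (Opr v E)}

omit [Fact p.Prime] [CharP k p] [CharP Ω p] [PerfectRing k p] [IsAlgClosed Ω] in
theorem bdd_cf_sub (φ : Opr v E) {f g : Polynomial Ω} (hf : f ∈ PI E) (hg : g ∈ PI E) :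
    cf φ (f - g) = cf φ f - cf φ g := by
  have h := cf_add φ (sub_mem hf hg) hg
  rw [sub_add_cancel] at h
  rw [h, add_sub_cancel_right]

omit [Fact p.Prime] [CharP k p] [CharP Ω p] [PerfectRing k p] [IsAlgClosed Ω] in
theorem bdd_natDegree_cf (φ : Opr v E) (f : Polynomial Ω) : (cf φ f).natDegree ≤ f.natDegree := by
  refine natDegree_le_iff_coeff_eq_zero.2 fun i hi => ?_
  rw [coeff_cf, coeff_eq_zero_of_natDegree_lt hi, fn_zero]

/-- `D` bounds the degrees of the approximants up to `-ε`. -/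
def DB (v : RVal Ω) [Fact (Ctx0 k v)] (E : IntermediateField k Ω) (z : Ω) {ι : Type}
    (x : ι → ℕ → Polynomial Ω) (ε : ℝ) (D : ℕ) : Prop :=
  ∀ j, ∃ f ∈ PI E, f.natDegree ≤ D ∧ ∃ N : ℕ, ∀ i, N ≤ i → v.Ge (-ε) ((x j i - f).eval z)

theorem Rel.db_step (h : Oper p v C E T) (hz : TL v E z 0) (hzC : Lim v C 0 z) {ι : Type}
    [Fintype ι] {x : ι → ℕ → Polynomial Ω} {n : ℕ} {lam : ℕ → ι → ι → k}
    {ψ : ℕ → ι → ι → Opr v E} {kap : ι → Polynomial Ω} (R : Rel p T z x n lam ψ kap) {D : ℕ}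
    (hK : ∀ j, (kap j).natDegree ≤ D) {ε δ : ℝ} (hε : 0 < ε) (hδ : 0 < δ)
    (hD : DB v E z x (p * ε) D) : DB v E z x (ε + δ) D := by
  classical
  have hp : p.Prime := Fact.out
  have hp1 : (1 : ℝ) ≤ p := by exact_mod_cast hp.one_lt.le
  intro j
  choose f hfE hfD Nf hf using hD
  set F : Polynomial Ω := ∑ a ∈ Finset.range n, ∑ l,
    (Polynomial.C (algebraMap k Ω (lam a j l)) * f l + cf (ψ a j l) (f l)) ^ p ^ a + kap j with hF
  have hFE : F ∈ PI E := add_mem (sum_mem fun a _ => sum_mem fun l _ => pow_mem (add_mem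
    (mul_mem (C_mem_PI (E.algebraMap_mem _)) (hfE l)) (cf_mem _ _)) _) (R.mem j)
  have hFD : F.natDegree ≤ p ^ (n - 1) * D := by
    refine natDegree_add_le_of_degree_le ?_ ?_
    · refine natDegree_sum_le_of_forall_le _ _ fun a ha => ?_
      refine natDegree_sum_le_of_forall_le _ _ fun l _ => ?_
      refine natDegree_pow_le.trans ?_
      have ha' := Finset.mem_range.1 ha
      refine Nat.mul_le_mul (Nat.pow_le_pow_right hp.pos (by omega)) ?_
      refine natDegree_add_le_of_degree_le ?_ ((bdd_natDegree_cf _ _).trans (hfD l))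
      exact (natDegree_C_mul_le _ _).trans (hfD l)
    · refine (hK j).trans (Nat.le_mul_of_pos_left _ (pow_pos hp.pos _))
  -- a large index
  obtain ⟨N1, hN1⟩ := R.rel j ((p ^ n : ℕ) * ε) (by have := pow_pos hp.pos n; positivity)
  obtain ⟨N2, hN2⟩ := (R.pc j).cau ε hε
  set N := max (max N1 N2) (Finset.univ.sup Nf) with hN
  have hNf : ∀ l, Nf l ≤ N := fun l => (Finset.le_sup (Finset.mem_univ l)).trans (le_max_right _ _)
  have h1 : v.Ge ((p ^ n : ℕ) * (-ε)) ((x j N).eval z ^ p ^ n - F.eval z) := by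
    have h2 := hN1 N ((le_max_left _ _).trans (le_max_left _ _))
    have h3 : (x j N).eval z ^ p ^ n - F.eval z =
        ((x j N).eval z ^ p ^ n - ∑ a ∈ Finset.range n, ∑ l,
          (lam a j l • (x l N).eval z + (cf (ψ a j l) (x l N)).eval z) ^ p ^ a -
            (kap j).eval z) +
        ∑ a ∈ Finset.range n, ∑ l,
          (lam a j l • (x l N - f l).eval z + (cf (ψ a j l) (x l N - f l)).eval z) ^ p ^ a := by
      rw [hF, eval_add, eval_finsetSum]
      have h4 : ∀ a ∈ Finset.range n, ((∑ l, (Polynomial.C (algebraMap k Ω (lam a j l)) * f l +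
          cf (ψ a j l) (f l)) ^ p ^ a : Polynomial Ω)).eval z =
          ∑ l, (lam a j l • (x l N).eval z + (cf (ψ a j l) (x l N)).eval z) ^ p ^ a -
          ∑ l, (lam a j l • (x l N - f l).eval z + (cf (ψ a j l) (x l N - f l)).eval z) ^ p ^ a := by
        intro a _
        rw [eval_finsetSum, ← Finset.sum_sub_distrib]
        refine Finset.sum_congr rfl fun l _ => ?_
        rw [← sub_pow_char_pow, eval_pow, eval_add, eval_mul, eval_C,
          bdd_cf_sub _ ((R.pc l).mem N) (hfE l), eval_sub, eval_sub, Algebra.smul_def,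
          Algebra.smul_def]
        congr 1
        ring
      rw [Finset.sum_congr rfl h4, Finset.sum_sub_distrib]
      ring
    rw [h3]
    refine (h2.mono (by linarith)).add (RVal.Ge.sum _ _ fun a ha => RVal.Ge.sum _ _ fun l _ => ?_)
    have h5 : v.Ge (-(p * ε)) ((x l N - f l).eval z) := hf l N (hNf l)
    have h6 : v.Ge (-(p * ε)) (lam a j l • (x l N - f l).eval z +
        (cf (ψ a j l) (x l N - f l)).eval z) := by
      refine RVal.Ge.add ?_ (cf_ge p h hz hzC (R.opr a j l) (sub_mem ((R.pc l).mem N) (hfE l)) h5)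
      rw [Algebra.smul_def]
      have := ((Fact.out : Ctx0 k v).ge (lam a j l)).mul h5
      rwa [zero_add] at this
    refine (ge_pow h6 (p ^ a)).mono ?_
    have ha' := Finset.mem_range.1 ha
    have h7 : (p : ℝ) ^ (a + 1) ≤ (p : ℝ) ^ n := pow_le_pow_right₀ hp1 (by omega)
    have h8 : (p : ℝ) ^ (a + 1) * ε ≤ (p : ℝ) ^ n * ε := mul_le_mul_of_nonneg_right h7 hε.le
    push_cast
    rw [pow_succ] at h8
    linarith
  obtain ⟨g', hg'E, hg'D, hg'⟩ := deg_root hz p h.perf n hFE ((R.pc j).mem N) h1 hδ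
  refine ⟨g', hg'E, ?_, N, fun i hi => ?_⟩
  · have h9 : p ^ n * g'.natDegree ≤ p ^ n * D := by
      refine hg'D.trans (hFD.trans (Nat.mul_le_mul_right _ (Nat.pow_le_pow_right hp.pos ?_)))
      omega
    exact Nat.le_of_mul_le_mul_left h9 (pow_pos hp.pos n)
  · have h10 := hN2 i N (((le_max_right _ _).trans (le_max_left _ _)).trans hi)
      ((le_max_right _ _).trans (le_max_left _ _))
    have h11 : (x j i - g').eval z = (x j i - x j N).eval z + ((x j N).eval z - g'.eval z) := by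
      rw [eval_sub, eval_sub]
      ring
    rw [h11]
    exact (h10.mono (by linarith)).add (hg'.mono (by linarith))

/-- B2 (1) -/
theorem Rel.bdd (h : Oper p v C E T) (hz : TL v E z 0) (hzC : Lim v C 0 z) {ι : Type} [Fintype ι]
    {x : ι → ℕ → Polynomial Ω} {n : ℕ} {lam : ℕ → ι → ι → k} {ψ : ℕ → ι → ι → Opr v E}
    {kap : ι → Polynomial Ω} (R : Rel p T z x n lam ψ kap) :
    ∃ D : ℕ, ∀ j, ∀ ε : ℝ, 0 < ε → ∃ f ∈ PI E, f.natDegree ≤ D ∧
      ∃ N : ℕ, ∀ i, N ≤ i → v.Ge (-ε) ((x j i - f).eval z) := by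
  classical
  have hp : p.Prime := Fact.out
  have hp2 : (2 : ℝ) ≤ p := by exact_mod_cast hp.two_le
  -- the start
  choose M hM using fun j => (R.pc j).cau 1 one_pos
  set D : ℕ := Finset.univ.sup (fun j => (x j (M j)).natDegree) ⊔
    Finset.univ.sup (fun j => (kap j).natDegree) with hD
  have hK : ∀ j, (kap j).natDegree ≤ D := fun j =>
    (Finset.le_sup (f := fun j => (kap j).natDegree) (Finset.mem_univ j)).trans le_sup_right
  have h0 : DB v E z x 1 D := fun j => ⟨x j (M j), (R.pc j).mem _,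
    (Finset.le_sup (f := fun j => (x j (M j)).natDegree) (Finset.mem_univ j)).trans le_sup_left,
    M j, fun i hi => hM j i (M j) hi le_rfl⟩
  -- all precisions
  have h1 : ∀ m : ℕ, DB v E z x ((3 / 4 : ℝ) ^ m) D := by
    intro m
    induction m with
    | zero => simpa using h0
    | succ m ih =>
      have h2 : (0 : ℝ) < (3 / 4 : ℝ) ^ m := by positivity
      have h3 : DB v E z x (p * ((3 / 4 : ℝ) ^ m / p)) D := by
        rwa [mul_div_cancel₀ _ (by positivity : (p : ℝ) ≠ 0)]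
      have h4 := Rel.db_step p h hz hzC R hK (ε := (3 / 4 : ℝ) ^ m / p)
        (δ := (3 / 4 : ℝ) ^ m / 4) (by positivity) (by positivity) h3
      intro j
      obtain ⟨f, hfE, hfD, N, hN⟩ := h4 j
      refine ⟨f, hfE, hfD, N, fun i hi => (hN i hi).mono ?_⟩
      have h5 : (3 / 4 : ℝ) ^ m / p ≤ (3 / 4 : ℝ) ^ m / 2 :=
        div_le_div_of_nonneg_left h2.le (by norm_num) hp2
      rw [pow_succ]
      linarith
  refine ⟨D, fun j ε hε => ?_⟩
  obtain ⟨m, hm⟩ := exists_pow_lt_of_lt_one hε (by norm_num : (3 / 4 : ℝ) < 1)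
  obtain ⟨f, hfE, hfD, N, hN⟩ := h1 m j
  exact ⟨f, hfE, hfD, N, fun i hi => (hN i hi).mono (by linarith)⟩

end Main

end Pool.Agent.TWC
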