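import Pool.Agent.Lib.TWC.TowDefs
import Pool.Agent.Lib.TWM.B1

/-!
# TANK W, class C, row T2: exchange of the first generator of a tower

`Gn v e A A'`: every element of `A` is near an element of `A'`, with gain `e`. If `A, A'` are near
in both directions, `z` of transcendental type over `A`, the element `z' = z - χ + χ'` with
`χ ∈ A` near `z` and `χ' ∈ A'` near `χ` is of transcendental type over `A'` and the closures of
`A(z)`, `A'(z')` are near. Hence a tower over `A` is a tower over `A'`.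
-/

set_option autoImplicit false

open Polynomial

namespace Pool.Agent.TWC

open Pool.Agent.H15JM (RVal)
open Pool.Agent.LU1 (VPos adj)
open Pool.Agent.D2 (Ctx0)
open Pool.Agent.D2P (hen clI mem_clI)
open Pool.Agent.TWM

universe u

section Nea

variable {Ω : Type u} [Field Ω] {v : RVal Ω}

/-- `b` is near `a` with gain `e`. -/
def Nea (v : RVal Ω) (e : ℝ) (a b : Ω) : Prop :=
  (a = 0 ↔ b = 0) ∧ v b = v a ∧ v.Ge (v a + e) (b - a)

theorem Nea.symm {e : ℝ} {a b : Ω} (h : Nea v e a b) : Nea v e b a :=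
  ⟨h.1.symm, h.2.1.symm, by rw [h.2.1]; exact ge_sub_comm h.2.2⟩

theorem Nea.zero (v : RVal Ω) (e : ℝ) : Nea v e 0 0 :=
  ⟨Iff.rfl, rfl, by rw [sub_self]; exact RVal.Ge.zero⟩

theorem Nea.of_ge {e : ℝ} (he : 0 < e) {a b : Ω} (ha : a ≠ 0) (h : v.Ge (v a + e) (b - a)) :
    Nea v e a b := by
  obtain ⟨h1, h2⟩ := Gt.val_eq ha (Gt.of_ge (ge_sub_comm h) (by linarith))
  exact ⟨⟨fun h0 => absurd h0 ha, fun h0 => absurd h0 h1⟩, h2, h⟩

theorem Nea.trans {e : ℝ} {a b c : Ω} (h : Nea v e a b) (h' : Nea v e b c) : Nea v e a c := by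
  refine ⟨h.1.trans h'.1, h'.2.1.trans h.2.1, ?_⟩
  rw [← sub_add_sub_cancel c b a]
  exact (by rw [← h.2.1]; exact h'.2.2 : v.Ge (v a + e) (c - b)).add h.2.2

theorem Nea.mono {e e' : ℝ} (h' : e' ≤ e) {a b : Ω} (h : Nea v e a b) : Nea v e' a b :=
  ⟨h.1, h.2.1, h.2.2.mono (by linarith)⟩

theorem ge_pow_sub {x x' : Ω} {r t : ℝ} (hx : v.Ge r x) (hx' : v.Ge r x')
    (h : v.Ge t (x' - x)) (i : ℕ) : v.Ge (t - r + i * r) (x' ^ i - x ^ i) := by
  induction i with
  | zero =>
    rw [pow_zero, pow_zero, sub_self]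
    exact RVal.Ge.zero
  | succ i ih =>
    rw [show x' ^ (i + 1) - x ^ (i + 1) = x' ^ i * (x' - x) + (x' ^ i - x ^ i) * x by ring]
    refine RVal.Ge.add ?_ ?_
    · exact ((ge_pow hx' i).mul h).mono (by push_cast; linarith)
    · exact (ih.mul hx).mono (by push_cast; linarith)

end Nea

variable {k Ω : Type u} [Field k] [Field Ω] [Algebra k Ω] {v : RVal Ω}
  {A A' B : IntermediateField k Ω} {z z' : Ω} {s e : ℝ}

/-- Every element of `A` is near an element of `A'`, with gain `e`. -/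
def Gn (v : RVal Ω) (e : ℝ) (A A' : IntermediateField k Ω) : Prop := ∀ a ∈ A, ∃ b ∈ A', Nea v e a b

/-- The points `c ∈ A`, `c' ∈ A'` near `z`, `z'`. -/
def Pts (v : RVal Ω) (s e : ℝ) (A A' : IntermediateField k Ω) (z z' : Ω) : Prop :=
  ∀ γ : ℝ, 0 < γ → ∃ c ∈ A, ∃ c' ∈ A', v.Ge (s - γ) (z - c) ∧ v.Ge (s - γ) (z' - c') ∧
    v.Ge (s + e) ((z' - c') - (z - c))

theorem Pts.symm (h : Pts v s e A A' z z') : Pts v s e A' A z' z := fun γ hγ => by
  obtain ⟨c, hc, c', hc', h1, h2, h3⟩ := h γ hγ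
  exact ⟨c', hc', c, hc, h2, h1, ge_sub_comm h3⟩

theorem exists_pts (hG : Gn v e A A') (he : 0 < e) (hz : Lim v A s z) {χ χ' : Ω} (hχ : χ ∈ A)
    (hχ' : χ' ∈ A') (h : v.Ge (s - e / 2) (z - χ)) :
    Pts v s (e / 2) A A' z (z - χ + χ') := by
  intro γ hγ
  obtain ⟨c, hc, h1⟩ := hz (min γ (e / 2)) (lt_min hγ (by linarith))
  have h1' : v.Ge (s - γ) (z - c) := h1.mono (by have := min_le_left γ (e / 2); linarith)
  have h2 : v.Ge (s - e / 2) (c - χ) := by
    rw [← sub_sub_sub_cancel_left _ _ z]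
    exact h.sub (h1.mono (by have := min_le_right γ (e / 2); linarith))
  obtain ⟨d, hd, h3⟩ := hG (c - χ) (A.sub_mem hc hχ)
  have h4 : v.Ge (s + e / 2) (d - (c - χ)) := by
    by_cases h0 : c - χ = 0
    · rw [h0, h3.1.1 h0, sub_zero]
      exact RVal.Ge.zero
    · exact h3.2.2.mono (by have := h2 h0; linarith)
  have h5 : (z - χ + χ' - (χ' + d)) - (z - c) = -(d - (c - χ)) := by ring
  have h6 : v.Ge (s + e / 2) ((z - χ + χ' - (χ' + d)) - (z - c)) := by
    rw [h5]
    exact h4.neg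
  refine ⟨c, hc, χ' + d, A'.add_mem hχ' hd, h1', ?_, h6⟩
  rw [← sub_add_cancel (z - χ + χ' - (χ' + d)) (z - c)]
  exact (h6.mono (by linarith)).add h1'

/-- The polynomial with the coefficients `b i`, `i ≤ D`. -/
noncomputable def mkP (D : ℕ) (b : ℕ → Ω) : Polynomial Ω :=
  ∑ i ∈ Finset.range (D + 1), Polynomial.C (b i) * X ^ i

omit [Algebra k Ω] [Field k] in
theorem mkP_coeff (D : ℕ) (b : ℕ → Ω) (i : ℕ) :
    (mkP D b).coeff i = if i < D + 1 then b i else 0 := by
  simp only [mkP, finsetSum_coeff, coeff_C_mul_X_pow]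
  rw [Finset.sum_ite_eq]
  simp only [Finset.mem_range]

omit [Algebra k Ω] [Field k] in
theorem mkP_natDegree (D : ℕ) (b : ℕ → Ω) : (mkP D b).natDegree ≤ D := by
  rw [natDegree_le_iff_coeff_eq_zero]
  intro i hi
  rw [mkP_coeff, if_neg (by omega)]

theorem mkP_mem {D : ℕ} {b : ℕ → Ω} (hb : ∀ i, b i ∈ A) : mkP D b ∈ PI A := fun i => by
  rw [mkP_coeff]
  split_ifs
  exacts [hb i, zero_mem _]

omit [Algebra k Ω] [Field k] in
theorem mkP_nea {D : ℕ} {F : Polynomial Ω} (hD : F.natDegree ≤ D) {b : ℕ → Ω}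
    (hb : ∀ i, Nea v e (F.coeff i) (b i)) (i : ℕ) : Nea v e (F.coeff i) ((mkP D b).coeff i) := by
  rw [mkP_coeff]
  split_ifs with hi
  · exact hb i
  · rw [coeff_eq_zero_of_natDegree_lt (by omega)]
    exact Nea.zero v e

variable [IsAlgClosed Ω]

/-- The key comparison. `F` over `A` with centre `c`, `F'` with near coefficients and centre `c'`. -/
theorem tl_cmp (h : TL v A z s) (he : 0 < e) {D : ℕ} {γ : ℝ} (hγ0 : 0 ≤ γ) (hγ : 2 * D * γ ≤ e / 4)
    {f F' : Polynomial Ω} (hf : f ∈ PI A) (hD : f.natDegree ≤ D) (hD' : F'.natDegree ≤ D) {c c' : Ω}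
    (h1 : v.Ge (s - γ) (z - c)) (h2 : v.Ge (s - γ) (z' - c'))
    (h3 : v.Ge (s + e / 2) ((z' - c') - (z - c)))
    (hF : ∀ i, Nea v e ((taylor c f).coeff i) (F'.coeff i)) (l : ℕ) :
    v.Ge (v (f.eval z) - l * s + e / 4) ((taylor (z' - c') F').coeff l - (taylor z f).coeff l) := by
  set ζ := z - c with hζ
  set ζ' := z' - c' with hζ'
  set F := taylor c f with hFd
  have hFD : F.natDegree ≤ D := by rw [hFd, natDegree_taylor]; exact hD
  have h4 : taylor z f = taylor ζ F := by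
    rw [hFd, taylor_taylor, hζ, sub_add_cancel]
  have hsum : ∀ (G : Polynomial Ω) (w : Ω), G.natDegree ≤ D → (taylor w G).coeff l =
      ∑ i ∈ Finset.range (D + 1), ((i + l).choose l : Ω) * G.coeff (i + l) * w ^ i := by
    intro G w hG
    rw [taylor_coeff, eval_eq_sum_range' (n := D + 1)
      (Nat.lt_succ_of_le ((natDegree_hasseDeriv_le G l).trans ((Nat.sub_le _ _).trans hG)))]
    exact Finset.sum_congr rfl fun i _ => by rw [hasseDeriv_coeff]
  rw [h4, hsum _ _ hD', hsum _ _ hFD, ← Finset.sum_sub_distrib]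
  refine RVal.Ge.sum _ _ fun i hi => ?_
  set V := v (f.eval z) with hV
  have hc0 : v.Ge 0 (((i + l).choose l : ℕ) : Ω) := ge_natCast v _
  have hb : v.Ge (V - (i + l : ℕ) * s - D * γ) (F.coeff (i + l)) :=
    h.near_coeff hγ0 (ge_sub_comm h1) hf hD (i + l)
  by_cases hF0 : F.coeff (i + l) = 0
  · rw [(hF (i + l)).1.1 hF0, hF0, mul_zero, zero_mul, zero_mul, sub_self]
    exact RVal.Ge.zero
  have hil : i + l ≤ D := (le_natDegree_of_ne_zero hF0).trans hFD
  have hiD : (i : ℝ) ≤ D := by exact_mod_cast (Nat.le_of_add_right_le hil)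
  have hiγ : (i : ℝ) * γ ≤ D * γ := mul_le_mul_of_nonneg_right hiD hγ0
  have hb1 := hb hF0
  have hb' : v.Ge (V - (i + l : ℕ) * s - D * γ + e) (F'.coeff (i + l) - F.coeff (i + l)) :=
    (hF (i + l)).2.2.mono (by linarith)
  have hp := ge_pow_sub h1 h2 h3 i
  rw [show ((i + l).choose l : Ω) * F'.coeff (i + l) * ζ' ^ i -
      ((i + l).choose l : Ω) * F.coeff (i + l) * ζ ^ i = ((i + l).choose l : Ω) *
        ((F'.coeff (i + l) - F.coeff (i + l)) * ζ' ^ i + F.coeff (i + l) * (ζ' ^ i - ζ ^ i)) by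
    ring]
  have k1 : v.Ge (V - l * s + e / 4) ((F'.coeff (i + l) - F.coeff (i + l)) * ζ' ^ i) := by
    refine (hb'.mul (ge_pow h2 i)).mono ?_
    push_cast
    nlinarith
  have k2 : v.Ge (V - l * s + e / 4) (F.coeff (i + l) * (ζ' ^ i - ζ ^ i)) := by
    refine (hb.mul hp).mono ?_
    push_cast
    nlinarith
  exact (hc0.mul (k1.add k2)).mono (by linarith)

theorem tl_exch_far (h : TL v A z s) (he : 0 < e) (hG' : Gn v e A' A)
    (hP : Pts v s (e / 2) A A' z z') : TL v A' z' s where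
  lim := by
    intro ε hε
    obtain ⟨c, hc, c', hc', -, h2, -⟩ := hP ε hε
    exact ⟨c', hc', h2⟩
  far := by
    intro θ hθ
    have hint : IsIntegral A' θ := hθ.isIntegral
    set g := (minpoly A' θ).map (algebraMap A' Ω) with hg
    have hg0 : g ≠ 0 := by
      rw [hg, Ne, Polynomial.map_eq_zero]
      exact minpoly.ne_zero hint
    have hgθ : g.eval θ = 0 := by
      rw [hg, eval_map_algebraMap, minpoly.aeval]
    have hgE : g ∈ PI A' := by
      intro i
      rw [hg, coeff_map]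
      exact ((minpoly A' θ).coeff i).2
    refine StrE.far ?_ hgθ
    set D := g.natDegree with hD
    set γ : ℝ := e / 4 / (2 * D + 1) with hγ
    have hD0 : (0 : ℝ) < 2 * D + 1 := by positivity
    have hγ0 : 0 < γ := by positivity
    have hγ1 : 2 * D * γ ≤ e / 4 := by
      rw [hγ, mul_div_assoc', div_le_iff₀ hD0]
      nlinarith
    obtain ⟨c, hc, c', hc', h1, h2, h3⟩ := hP γ hγ0
    choose b hb hb' using fun i => hG' _ (taylor_mem_PI hgE hc' i)
    -- `f` over `A`
    set F := mkP D b with hF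
    set f := taylor (-c) F with hf
    have hfA : f ∈ PI A := taylor_mem_PI (mkP_mem hb) (A.neg_mem hc)
    have hfD : f.natDegree ≤ D := by rw [hf, natDegree_taylor]; exact mkP_natDegree D b
    have hfF : taylor c f = F := by rw [hf, taylor_taylor, add_neg_cancel, taylor_zero]
    have hcoef : ∀ i, Nea v e ((taylor c f).coeff i) ((taylor c' g).coeff i) := by
      intro i
      rw [hfF]
      exact (mkP_nea (F := taylor c' g) (by rw [natDegree_taylor]) hb' i).symm
    have hf0 : f ≠ 0 := by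
      intro h0
      rw [h0, _root_.map_zero] at hfF
      have h4 := (hcoef D)
      rw [h0, _root_.map_zero, coeff_zero] at h4
      have h5 := h4.1.1 rfl
      rw [hD, coeff_taylor_natDegree] at h5
      exact hg0 (leadingCoeff_eq_zero.1 h5)
    have key := fun l => tl_cmp h he hγ0.le hγ1 hfA hfD (F' := taylor c' g)
      (by rw [natDegree_taylor]) h1 h2 h3 hcoef l
    have hgz : taylor (z' - c') (taylor c' g) = taylor z' g := by
      rw [taylor_taylor, sub_add_cancel]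
    rw [hgz] at key
    have hfz : f.eval z ≠ 0 := h.eval_ne (PI_mono (le_algc A) hfA) hf0
    have h0 := key 0
    rw [taylor_coeff_zero, taylor_coeff_zero, Nat.cast_zero, zero_mul, sub_zero] at h0
    obtain ⟨h6, h7⟩ := Gt.val_eq hfz (Gt.of_ge (ge_sub_comm h0) (by linarith))
    refine ⟨h6, fun l hl hl0 => ?_⟩
    rw [h7]
    have h8 := h.strict (PI_mono (le_algc A) hfA) hf0 hl
    have h9 : Gt v (v (f.eval z) - l * s) ((taylor z' g).coeff l) := by
      rw [← sub_add_cancel ((taylor z' g).coeff l) ((taylor z f).coeff l)]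
      exact (Gt.of_ge (key l) (by linarith)).add h8
    have := h9 hl0
    linarith

theorem tl_exch_gn (h : TL v A z s) (he : 0 < e) (hG : Gn v e A A')
    (hP : Pts v s (e / 2) A A' z z') : Gn v (e / 4) (cadj v A z) (cadj v A' z') := by
  intro w hw
  by_cases hw0 : w = 0
  · rw [hw0]
    exact ⟨0, zero_mem _, Nea.zero v _⟩
  obtain ⟨f, hf, hwf⟩ := h.dense hw (v w + e)
  have hN : Nea v e w (f.eval z) := Nea.of_ge he hw0 (ge_sub_comm hwf)
  set D := f.natDegree with hD
  set γ : ℝ := e / 4 / (2 * D + 1) with hγ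
  have hD0 : (0 : ℝ) < 2 * D + 1 := by positivity
  have hγ0 : 0 < γ := by positivity
  have hγ1 : 2 * D * γ ≤ e / 4 := by
    rw [hγ, mul_div_assoc', div_le_iff₀ hD0]
    nlinarith
  obtain ⟨c, hc, c', hc', h1, h2, h3⟩ := hP γ hγ0
  choose b hb hb' using fun i => hG _ (taylor_mem_PI hf hc i)
  have key := tl_cmp h he hγ0.le hγ1 hf le_rfl (mkP_natDegree D b) h1 h2 h3
    (mkP_nea (by rw [natDegree_taylor]) hb') 0
  rw [taylor_coeff_zero, taylor_coeff_zero, Nat.cast_zero, zero_mul, sub_zero] at key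
  refine ⟨(mkP D b).eval (z' - c'), ?_, ?_⟩
  · exact eval_mem (fun i => le_cadj v A' z' (mkP_mem hb i))
      (sub_mem (self_mem_cadj v A' z') (le_cadj v A' z' hc'))
  · have hfz : f.eval z ≠ 0 := fun h0 => hw0 (hN.1.2 h0)
    exact (hN.mono (by linarith)).trans (Nea.of_ge (by linarith) hfz key)

omit [IsAlgClosed Ω] in
private theorem tow_le {n : ℕ} (hT : Tow v n A B) : A ≤ B := by
  induction hT with
  | zero _ => exact le_rfl
  | succ _ _ ih => exact (le_cadj v _ _).trans ih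

omit [IsAlgClosed Ω] in
private theorem tow_cld {n : ℕ} (hT : Tow v n A B) : Cld v B := by
  induction hT with
  | zero h => exact h
  | succ _ _ ih => exact ih

/-- **Exchange.** A tower over `A` is a tower over `A'` if `A` and `A'` are near. -/
theorem Tow.near {n : ℕ} (hT : Tow v n A B) : ∀ {A' : IntermediateField k Ω} {e : ℝ},
    Cld v A' → A' ≤ B → 0 < e → Gn v e A A' → Gn v e A' A → Tow v n A' B := by
  induction hT with
  | @zero B hB =>
    intro A' e hA' hle he hG hG'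
    have h1 : B = A' := by
      refine engineF hle hA' (R₀ := (B : Set Ω)) (fun b hb M => ⟨b, hb, by
        rw [sub_self]; exact RVal.Ge.zero⟩) he fun b hb _ => ?_
      obtain ⟨d, hd, h1⟩ := hG b hb
      exact ⟨d, hd, ge_sub_comm h1.2.2⟩
    rw [h1]
    exact Tow.zero hA'
  | @succ n A B z hz hT ih =>
    intro A' e hA' hle he hG hG'
    have hB : Cld v B := tow_cld hT
    have hzB : cadj v A z ≤ B := tow_le hT
    obtain ⟨χ, hχ, h1⟩ := hz.lim (e / 2) (by linarith)
    obtain ⟨χ', hχ', -⟩ := hG χ hχ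
    have hP := exists_pts hG he hz.lim hχ hχ' h1
    have hz' := tl_exch_far hz he hG' hP
    have h2 : z - χ + χ' ∈ B := add_mem (sub_mem (hzB (self_mem_cadj v A z))
      (hzB (le_cadj v A z hχ))) (hle hχ')
    exact Tow.succ hz' (ih (cld_cadj v A' _) (cadj_le hB hle h2) (by linarith)
      (tl_exch_gn hz he hG hP) (tl_exch_gn hz' he hG' hP.symm))

theorem tl_gn_of_ge {y u : Ω} (hy : TL v A y s) (he : 0 < e) (hg : v.Ge (s + e) (u - y)) :
    Gn v e (cadj v A y) (cadj v A u) := by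
  intro w hw
  by_cases hw0 : w = 0
  · rw [hw0]
    exact ⟨0, zero_mem _, Nea.zero v _⟩
  obtain ⟨f, hf, hwf⟩ := hy.dense hw (v w + e)
  have hN : Nea v e w (f.eval y) := Nea.of_ge he hw0 (ge_sub_comm hwf)
  have hfy : f.eval y ≠ 0 := fun h0 => hw0 (hN.1.2 h0)
  exact ⟨f.eval u, eval_mem (PI_mono (le_cadj v A u) hf) (self_mem_cadj v A u),
    hN.trans (Nea.of_ge he hfy (hy.diff he.le hg hf))⟩

/-- **T2, exchange.** -/
theorem Tow.exch {n : ℕ} {y u : Ω} (_hA : Cld v A) (hy : TL v A y 0)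
    (hT : Tow v n (cadj v A y) B) (hu : u ∈ B) (hg : Gt v 0 (u - y)) : Tow v n (cadj v A u) B := by
  have hB : Cld v B := tow_cld hT
  have hyB : cadj v A y ≤ B := tow_le hT
  have huT : TL v A u 0 := hy.congr hg
  obtain ⟨e, he, hge⟩ : ∃ e : ℝ, 0 < e ∧ v.Ge (0 + e) (u - y) := by
    by_cases h0 : u - y = 0
    · exact ⟨1, one_pos, by rw [h0]; exact RVal.Ge.zero⟩
    · exact ⟨v (u - y), hg h0, fun _ => by rw [zero_add]⟩
  exact hT.near (cld_cadj v A u) (cadj_le hB ((le_cadj v A y).trans hyB) hu) he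
    (tl_gn_of_ge hy he hge) (tl_gn_of_ge huT he (ge_sub_comm hge))

end Pool.Agent.TWC
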