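import Pool.Agent.Lib.TWC.SND
import Pool.Agent.Lib.TWC.ThetaX
import Pool.Agent.Lib.TWC.Exch
import Pool.Agent.Lib.TWC.EW
import Pool.Agent.Lib.TWC.BaseCh

/-!
# TANK W, class C: descent of a coordinate at level 0 (`C4` for the base)

`L` closed, `x` tight of level `0` in `L`, `v (x 0) < 0`, `E` the closure of `k(x n, n)`. If `y` is in
the closure of `L(x n, n)` and a limit of `E` up to `0`, then `y = w + e` up to an element of value
`> 0`, with `w ∈ L`, `e ∈ E` (`c4_base`, `c4_tl`).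

* every `e ∈ E` is `f (x n)` up to an element of value `> 0`, `f ∈ k[X]` (`ew_bot`);
* `y = Q (x J)`, `Q ∈ L[X]`; an approximation `f (x (J + m))` of `y` up to `- ε` is
  `f₀ (x J) + ∑ ρ l x (J + 1 + l)` up to `- 2 ε` (`letters`), and `f₀` does not depend on `ε`;
* hence the jets of `Q - f₀` at `x J` are integral; their residues live at the powers of `p` and are
  killed by multiples of the `x j`, `j ≤ J`; then `w` is the value of the polynomial at some `h ∈ L`
  near to `x J`.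
-/

set_option autoImplicit false

open Polynomial

namespace Pool.Agent.TWC

open Pool.Agent.H15JM (RVal)
open Pool.Agent.LU1 (VPos adj)
open Pool.Agent.D2 (Ctx0)
open Pool.Agent.D2P (clI mem_clI)
open Pool.Agent.TWM

universe u

variable {k Ω : Type u} [Field k] [Field Ω] [Algebra k Ω] {v : RVal Ω}
  {L E : IntermediateField k Ω}

/-! ### Polynomials over `k` at an element of negative value -/

section Kp

variable {y : Ω}

theorem kpp_mono_ge (hk : Ctx0 k v) (c : k) (i : ℕ) :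
    v.Ge (i * v y) (algebraMap k Ω c * y ^ i) := by
  have h1 := (hk.ge c).mul (ge_pow (v.ge_self y) i)
  rwa [zero_add] at h1

theorem kpp_ge (hk : Ctx0 k v) {f : k[X]} {b : ℝ}
    (h : ∀ i, f.coeff i ≠ 0 → b ≤ i * v y) : v.Ge b (aeval y f) := by
  rw [aeval_eq_sum_range]
  refine RVal.Ge.sum _ _ fun i _ => ?_
  rw [Algebra.smul_def]
  by_cases hi : f.coeff i = 0
  · rw [hi, map_zero, zero_mul]
    exact RVal.Ge.zero
  · exact (kpp_mono_ge hk _ i).mono (h i hi)

theorem kpp_gt (hk : Ctx0 k v) {f : k[X]} {b : ℝ}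
    (h : ∀ i, f.coeff i ≠ 0 → b < i * v y) : Gt v b (aeval y f) := by
  rw [aeval_eq_sum_range]
  refine Gt.sum _ _ fun i _ => ?_
  rw [Algebra.smul_def]
  by_cases hi : f.coeff i = 0
  · rw [hi, map_zero, zero_mul]
    exact Gt.zero
  · exact Gt.of_ge (kpp_mono_ge hk _ i) (h i hi)

theorem kpp_val (hk : Ctx0 k v) (hy0 : y ≠ 0) (hy : v y < 0) {f : k[X]} (hf : f ≠ 0) :
    aeval y f ≠ 0 ∧ v (aeval y f) = f.natDegree * v y := by
  have hl : f.leadingCoeff ≠ 0 := leadingCoeff_ne_zero.2 hf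
  have hl' : algebraMap k Ω f.leadingCoeff ≠ 0 := (_root_.map_ne_zero _).2 hl
  set t : Ω := algebraMap k Ω f.leadingCoeff * y ^ f.natDegree with ht
  have ht0 : t ≠ 0 := mul_ne_zero hl' (pow_ne_zero _ hy0)
  have htv : v t = f.natDegree * v y := by
    rw [ht, v.map_mul hl' (pow_ne_zero _ hy0), v.map_pow hy0, hk.triv _ hl, zero_add]
  have h1 : Gt v (f.natDegree * v y) (aeval y f.eraseLead) := by
    refine kpp_gt hk fun i hi => ?_
    have h2 : i < f.natDegree := lt_natDegree_of_mem_eraseLead_support (mem_support_iff.2 hi)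
    have h3 : (i : ℝ) < f.natDegree := by exact_mod_cast h2
    nlinarith
  have h4 : aeval y f = aeval y f.eraseLead + t := by
    conv_lhs => rw [← eraseLead_add_C_mul_X_pow f]
    rw [map_add, map_mul, aeval_C, map_pow, aeval_X]
  have h5 : Gt v (v t) (t - aeval y f) := by
    rw [htv, h4, show t - (aeval y f.eraseLead + t) = -aeval y f.eraseLead by ring]
    exact h1.neg
  rw [← htv]
  exact h5.val_eq ht0

theorem kpp_le (hk : Ctx0 k v) (hy0 : y ≠ 0) (hy : v y < 0) {f : k[X]} {b : ℝ}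
    (h : v.Ge b (aeval y f)) {i : ℕ} (hi : f.coeff i ≠ 0) : b ≤ i * v y := by
  have hf : f ≠ 0 := fun h0 => hi (by rw [h0, coeff_zero])
  obtain ⟨h1, h2⟩ := kpp_val hk hy0 hy hf
  have h3 := h h1
  rw [h2] at h3
  have h4 : (i : ℝ) ≤ f.natDegree := by exact_mod_cast le_natDegree_of_ne_zero hi
  nlinarith

end Kp

/-! ### The base -/

section Base

variable {p : ℕ} [hp : Fact p.Prime] {x : ℕ → Ω}

omit [Algebra k Ω] [Field k] in
theorem rt_ne (hr : ∀ n, x (n + 1) ^ p = x n) (h0 : x 0 ≠ 0) : ∀ n, x n ≠ 0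
  | 0 => h0
  | n + 1 => fun h1 => rt_ne hr h0 n (by rw [← hr n, h1, zero_pow hp.out.ne_zero])

omit [Algebra k Ω] [Field k] in
theorem rt_val (hr : ∀ n, x (n + 1) ^ p = x n) (h0 : x 0 ≠ 0) (n : ℕ) :
    v (x n) = v (x 0) / p ^ n := by
  have hp0 : (0 : ℝ) < (p : ℝ) ^ n := pow_pos (by exact_mod_cast hp.out.pos) n
  have h1 := root_pow_add hr 0 n
  rw [zero_add] at h1
  rw [← h1, v.map_pow (rt_ne hr h0 n)]
  push_cast
  field_simp

omit [Algebra k Ω] [Field k] in
theorem rt_neg (hr : ∀ n, x (n + 1) ^ p = x n) (h0 : x 0 ≠ 0) (hx : v (x 0) < 0) (n : ℕ) :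
    v (x n) < 0 := by
  rw [rt_val hr h0]
  exact div_neg_of_neg_of_pos hx (pow_pos (by exact_mod_cast hp.out.pos) n)

/-- Every element of the closure of `k(x n, n)` is a polynomial in some `x n` over `k` up to an
element of positive value. -/
theorem ew_bot (hk : Ctx0 k v) (hr : ∀ n, x (n + 1) ^ p = x n) (h0 : x 0 ≠ 0) (hx : v (x 0) < 0)
    {e : Ω} (he : e ∈ EW v (⊥ : IntermediateField k Ω) x) :
    ∃ (n : ℕ) (f : k[X]), Gt v 0 (e - aeval (x n) f) := by
  obtain ⟨e', he', h1⟩ := mem_clI.1 he 1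
  have h2 : e' ∈ IntermediateField.adjoin k (Set.range x) := by
    rwa [bot_sup_eq] at he'
  obtain ⟨T, hT, h3⟩ := IntermediateField.exists_finset_of_mem_adjoin h2
  obtain ⟨N, hN⟩ : ∃ N : ℕ, ∀ t ∈ T, ∃ n ≤ N, x n = t := by
    classical
    have h4 : ∀ t ∈ T, ∃ n, x n = t := fun t ht => hT ht
    choose! g hg using h4
    exact ⟨T.sup g, fun t ht => ⟨g t, Finset.le_sup ht, hg t ht⟩⟩
  have h5 : e' ∈ IntermediateField.adjoin k {x N} := by
    refine (IntermediateField.adjoin_le_iff.2 ?_ :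
      IntermediateField.adjoin k (T : Set Ω) ≤ IntermediateField.adjoin k {x N}) h3
    intro t ht
    obtain ⟨n, hn, rfl⟩ := hN t ht
    obtain ⟨d, rfl⟩ := Nat.exists_eq_add_of_le hn
    rw [← root_pow_add hr n d]
    exact pow_mem (IntermediateField.mem_adjoin_simple_self k _) _
  obtain ⟨r, s, h6⟩ := (IntermediateField.mem_adjoin_simple_iff k e').1 h5
  have hx0 := rt_ne hr h0 N
  have hxN := rt_neg hr h0 hx N
  by_cases hs : s = 0
  · refine ⟨N, 0, ?_⟩
    rw [hs, map_zero, div_zero] at h6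
    rw [map_zero, ← h6]
    exact Gt.of_ge h1 one_pos
  refine ⟨N, r / s, ?_⟩
  have hs0 := (kpp_val hk hx0 hxN hs).1
  have h7 : e' - aeval (x N) (r / s) = aeval (x N) (r % s) / aeval (x N) s := by
    have h8 : aeval (x N) r = aeval (x N) s * aeval (x N) (r / s) + aeval (x N) (r % s) := by
      rw [← map_mul, ← map_add, EuclideanDomain.div_add_mod]
    rw [h6, h8]
    field_simp
    ring
  have h9 : Gt v 0 (e' - aeval (x N) (r / s)) := by
    rw [h7]
    by_cases hrs : r % s = 0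
    · rw [hrs, map_zero, zero_div]
      exact Gt.zero
    · obtain ⟨h10, h11⟩ := kpp_val hk hx0 hxN hrs
      intro _
      rw [v.map_div h10 hs0, h11, (kpp_val hk hx0 hxN hs).2]
      have h12 : (r % s).natDegree < s.natDegree :=
        natDegree_lt_natDegree hrs (EuclideanDomain.mod_lt r hs)
      have h13 : ((r % s).natDegree : ℝ) < s.natDegree := by exact_mod_cast h12
      nlinarith
  have h14 := (Gt.of_ge h1 one_pos).add h9
  rwa [show e - e' + (e' - aeval (x N) (r / s)) = e - aeval (x N) (r / s) by ring] at h14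

/-! ### Jets at level 0 -/

section Jets

variable [CharP k p] [CharP Ω p]

/-- The jets of order `< p ^ n` of the polynomials over `L` at `x n` have norm `≤ 0`. -/
theorem Tgt.nb0 [IsAlgClosed Ω] (hk : Ctx0 k v) (hc : CompleteV v) (hT : Tgt p v L x 0) (n : ℕ)
    {P : Polynomial Ω} (hP : P ∈ PI L) {F : ℕ} (hF : F < p ^ n) {b : ℝ}
    (hb : v.Ge b (P.eval (x n))) : v.Ge b ((taylor (x n) P).coeff F) := by
  have h1 := (hT.snd.nbx' p hk hc (r := 0) (by simp)).nb n P hP F hF b hb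
  rwa [mul_zero, zero_div, sub_zero] at h1

theorem Tgt.nb0_gt [IsAlgClosed Ω] (hk : Ctx0 k v) (hc : CompleteV v) (hT : Tgt p v L x 0) (n : ℕ)
    {P : Polynomial Ω} (hP : P ∈ PI L) {F : ℕ} (hF : F < p ^ n) {b : ℝ}
    (hb : Gt v b (P.eval (x n))) : Gt v b ((taylor (x n) P).coeff F) := by
  by_cases h0 : P.eval (x n) = 0
  · refine Gt.of_ge (hT.nb0 hk hc n hP hF (b := b + 1) ?_) (by linarith)
    rw [h0]
    exact RVal.Ge.zero
  · exact Gt.of_ge (hT.nb0 hk hc n hP hF (v.ge_self _)) (hb h0)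

theorem map_mem_PI' (L : IntermediateField k Ω) (f : k[X]) : f.map (algebraMap k Ω) ∈ PI L :=
  fun i => by
    rw [coeff_map]
    exact L.algebraMap_mem _

theorem kpp_choose {s t : ℕ} (ht : ¬ p ∣ t) : (((p ^ s * t).choose (p ^ s) : ℕ) : k) ≠ 0 := by
  have h1 := choose_pow_mul (Ω := k) p s t 1
  rw [mul_one, Nat.choose_one_right] at h1
  rw [h1]
  exact fun h2 => ht ((CharP.cast_eq_zero_iff k p t).1 h2)

/-- An approximation of `Q (x J)` by `f (x (J + m))`: a monomial of `f` which is not of level `J` is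
a letter `x (J + l)`, `l > 0`, or small. -/
theorem c4_digit [IsAlgClosed Ω] (hk : Ctx0 k v) (hc : CompleteV v) (hT : Tgt p v L x 0)
    (h0 : x 0 ≠ 0) (hx : v (x 0) < 0) {Q : Polynomial Ω} (hQ : Q ∈ PI L) {f : k[X]} {J m : ℕ}
    {ε : ℝ} (h : v.Ge (-ε) (Q.eval (x J) - aeval (x (J + m)) f)) {i : ℕ} (hi : f.coeff i ≠ 0)
    (hpi : ¬ p ^ m ∣ i) : (∃ s < m, i = p ^ s) ∨ -(2 * ε) ≤ i * v (x (J + m)) := by
  have hi0 : i ≠ 0 := by
    rintro rfl
    exact hpi (dvd_zero _)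
  obtain ⟨s, t, ht, hst⟩ := Nat.exists_eq_pow_mul_and_not_dvd hi0 p hp.out.ne_one
  have hsm : s < m := by
    by_contra h1
    push Not at h1
    exact hpi (hst ▸ Dvd.dvd.mul_right (pow_dvd_pow p h1) t)
  by_cases ht1 : t = 1
  · exact Or.inl ⟨s, hsm, by rw [hst, ht1, mul_one]⟩
  right
  have ht2 : 2 ≤ t := by
    rcases t with _ | _ | t
    · exact absurd (dvd_zero p) ht
    · exact absurd rfl ht1
    · omega
  set G : Polynomial Ω := expand Ω (p ^ m) Q - f.map (algebraMap k Ω) with hG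
  have hGP : G ∈ PI L := sub_mem (expand_mem_PI (pow_pos hp.out.pos m) hQ) (map_mem_PI' L f)
  have hGe : G.eval (x (J + m)) = Q.eval (x J) - aeval (x (J + m)) f := by
    rw [hG, eval_sub, ax_lift hT.root, eval_map_algebraMap]
  have hF : p ^ s < p ^ (J + m) := Nat.pow_lt_pow_right hp.out.one_lt (by omega)
  have h1 := hT.nb0 hk hc (J + m) hGP hF (b := -ε) (by rw [hGe]; exact h)
  have h2 : ¬ p ^ m ∣ p ^ s := fun h3 =>
    absurd (Nat.le_of_dvd (pow_pos hp.out.pos s) h3)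
      (not_le.2 (Nat.pow_lt_pow_right hp.out.one_lt hsm))
  have h3 : (taylor (x (J + m)) G).coeff (p ^ s) = -aeval (x (J + m)) (hasseDeriv (p ^ s) f) := by
    rw [hG, map_sub, coeff_sub, coeff_lift_zero hT.root J m h2, zero_sub, taylor_coeff]
    congr 1
    rw [← eval_map_algebraMap]
    congr 1
    ext a
    simp [hasseDeriv_coeff]
  rw [h3] at h1
  have h4 : v.Ge (-ε) (aeval (x (J + m)) (hasseDeriv (p ^ s) f)) := by
    have h5 := h1.neg
    rwa [neg_neg] at h5
  have h6 : p ^ s ≤ i - p ^ s := by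
    have h7 : p ^ s * 2 ≤ p ^ s * t := Nat.mul_le_mul_left _ ht2
    rw [hst]
    omega
  have h8 : i - p ^ s + p ^ s = i := by
    have h9 : 0 < p ^ s := pow_pos hp.out.pos s
    omega
  have h9 : (hasseDeriv (p ^ s) f).coeff (i - p ^ s) ≠ 0 := by
    rw [hasseDeriv_coeff, h8]
    refine mul_ne_zero ?_ hi
    have := kpp_choose (k := k) (p := p) (s := s) ht
    rwa [← hst] at this
  have h10 := kpp_le hk (rt_ne hT.root h0 _) (rt_neg hT.root h0 hx _) h4 h9
  have h11 := rt_neg (v := v) hT.root h0 hx (J + m)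
  have h12 : (p ^ s : ℕ) ≤ ((i - p ^ s : ℕ) : ℝ) := by exact_mod_cast h6
  have h13 : (i : ℝ) = ((i - p ^ s : ℕ) : ℝ) + (p ^ s : ℕ) := by exact_mod_cast h8.symm
  rw [h13, add_mul]
  nlinarith

/-- **Letters.** An approximation of `Q (x J)` up to `- ε` by an element of the base is
`f₀ (x J) + ∑ ρ l x (J + 1 + l)` up to `- 2 ε`. -/
theorem c4_letters [IsAlgClosed Ω] (hk : Ctx0 k v) (hc : CompleteV v) (hT : Tgt p v L x 0)
    (h0 : x 0 ≠ 0) (hx : v (x 0) < 0) {Q : Polynomial Ω} (hQ : Q ∈ PI L) {f : k[X]} {J m : ℕ}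
    {ε : ℝ} (hε : 0 < ε) (h : v.Ge (-ε) (Q.eval (x J) - aeval (x (J + m)) f)) :
    ∃ (f₀ : k[X]) (ρ : ℕ → k), v.Ge (-(2 * ε)) (Q.eval (x J) - aeval (x J) f₀ -
      ∑ l ∈ Finset.range m, algebraMap k Ω (ρ l) * x (J + 1 + l)) := by
  have hpm : 0 < p ^ m := pow_pos hp.out.pos m
  set f₀ : k[X] := contract (p ^ m) f with hf₀
  set ρ : ℕ → k := fun l => f.coeff (p ^ (m - 1 - l)) with hρ
  set M : k[X] := ∑ l ∈ Finset.range m, monomial (p ^ (m - 1 - l)) (ρ l) with hM
  have hMc : ∀ i, M.coeff i = if ∃ s < m, i = p ^ s then f.coeff i else 0 := by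
    intro i
    rw [hM, finsetSum_coeff]
    split_ifs with h1
    · obtain ⟨s, hs, rfl⟩ := h1
      rw [Finset.sum_eq_single (m - 1 - s)]
      · rw [coeff_monomial, if_pos (by congr 1; omega), hρ]
        simp only
        congr 2
        omega
      · intro l hl hne
        rw [coeff_monomial, if_neg]
        intro h2
        have h3 := Nat.pow_right_injective hp.out.two_le h2
        have := Finset.mem_range.1 hl
        omega
      · intro h2
        exact absurd (Finset.mem_range.2 (by omega)) h2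
    · refine Finset.sum_eq_zero fun l hl => ?_
      rw [coeff_monomial, if_neg]
      intro h2
      have := Finset.mem_range.1 hl
      exact h1 ⟨m - 1 - l, by omega, h2.symm⟩
  have hMe : aeval (x (J + m)) M = ∑ l ∈ Finset.range m, algebraMap k Ω (ρ l) * x (J + 1 + l) := by
    rw [hM, map_sum]
    refine Finset.sum_congr rfl fun l hl => ?_
    have hl := Finset.mem_range.1 hl
    have h1 := root_pow_add hT.root (J + 1 + l) (m - 1 - l)
    rw [show J + 1 + l + (m - 1 - l) = J + m by omega] at h1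
    rw [aeval_monomial, h1]
  have hfe : aeval (x J) f₀ = aeval (x (J + m)) (expand k (p ^ m) f₀) := by
    rw [expand_aeval, root_pow_add hT.root]
  set g : k[X] := f - expand k (p ^ m) f₀ - M with hg
  have hgc : ∀ i, g.coeff i ≠ 0 → -(2 * ε) ≤ i * v (x (J + m)) := by
    intro i hi
    rw [hg, coeff_sub, coeff_sub, coeff_expand hpm, hMc] at hi
    by_cases h1 : p ^ m ∣ i
    · exfalso
      apply hi
      have h2 : ¬ ∃ s < m, i = p ^ s := by
        rintro ⟨s, hs, rfl⟩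
        exact absurd (Nat.le_of_dvd (pow_pos hp.out.pos s) h1)
          (not_le.2 (Nat.pow_lt_pow_right hp.out.one_lt hs))
      rw [if_pos h1, if_neg h2, hf₀, coeff_contract hpm.ne', Nat.div_mul_cancel h1, sub_self,
        sub_zero]
    · rw [if_neg h1, sub_zero] at hi
      by_cases h2 : ∃ s < m, i = p ^ s
      · rw [if_pos h2, sub_self] at hi
        exact absurd rfl hi
      · rw [if_neg h2, sub_zero] at hi
        rcases c4_digit hk hc hT h0 hx hQ h hi h1 with h3 | h3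
        exacts [absurd h3 h2, h3]
  have h2 := kpp_ge hk hgc
  refine ⟨f₀, ρ, ?_⟩
  have h3 : Q.eval (x J) - aeval (x J) f₀ -
      ∑ l ∈ Finset.range m, algebraMap k Ω (ρ l) * x (J + 1 + l) =
      (Q.eval (x J) - aeval (x (J + m)) f) + aeval (x (J + m)) g := by
    rw [hg, map_sub, map_sub, hMe, hfe]
    ring
  rw [h3]
  exact (h.mono (by linarith)).add h2

/-- The letters have small values. -/
theorem ge_letters (hk : Ctx0 k v) (hr : ∀ n, x (n + 1) ^ p = x n) (h0 : x 0 ≠ 0)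
    (hx : v (x 0) < 0) (J m : ℕ) (ρ : ℕ → k) : v.Ge (v (x (J + 1)))
      (∑ l ∈ Finset.range m, algebraMap k Ω (ρ l) * x (J + 1 + l)) := by
  refine RVal.Ge.sum _ _ fun l _ => ?_
  have h1 := (hk.ge (ρ l)).mul (v.ge_self (x (J + 1 + l)))
  rw [zero_add] at h1
  refine h1.mono ?_
  rw [rt_val (v := v) hr h0 (J + 1), rt_val (v := v) hr h0 (J + 1 + l)]
  have hp1 : (1 : ℝ) ≤ p := by exact_mod_cast hp.out.one_lt.le
  have h2 : (p : ℝ) ^ (J + 1) ≤ (p : ℝ) ^ (J + 1 + l) := pow_le_pow_right₀ hp1 (by omega)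
  have h3 : (0 : ℝ) < (p : ℝ) ^ (J + 1) := pow_pos (by linarith) _
  rw [div_le_div_iff₀ h3 (h3.trans_le h2)]
  nlinarith

/-- The part `f₀` of the approximations does not depend on the approximation. -/
theorem exists_letters [IsAlgClosed Ω] (hk : Ctx0 k v) (hc : CompleteV v) (hT : Tgt p v L x 0)
    (h0 : x 0 ≠ 0) (hx : v (x 0) < 0) {Q : Polynomial Ω} (hQ : Q ∈ PI L) {J : ℕ}
    (hl : Lim v (EW v (⊥ : IntermediateField k Ω) x) 0 (Q.eval (x J))) :
    ∃ f₀ : k[X], ∀ ε : ℝ, 0 < ε → ∃ (m : ℕ) (ρ : ℕ → k),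
      v.Ge (-ε) (Q.eval (x J) - aeval (x J) f₀ -
        ∑ l ∈ Finset.range m, algebraMap k Ω (ρ l) * x (J + 1 + l)) := by
  have key : ∀ ε : ℝ, 0 < ε → ∃ (f₀ : k[X]) (m : ℕ) (ρ : ℕ → k),
      v.Ge (-ε) (Q.eval (x J) - aeval (x J) f₀ -
        ∑ l ∈ Finset.range m, algebraMap k Ω (ρ l) * x (J + 1 + l)) := by
    intro ε hε
    obtain ⟨b, hb, h1⟩ := hl (ε / 2) (by linarith)
    obtain ⟨n, f, h2⟩ := ew_bot hk hT.root h0 hx hb
    have h3 : v.Ge (-(ε / 2)) (Q.eval (x J) - aeval (x n) f) := by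
      have h4 := (h1.mono (show -(ε / 2) ≤ 0 - ε / 2 by linarith)).add
        (h2.ge.mono (show -(ε / 2) ≤ 0 by linarith))
      rwa [sub_add_sub_cancel] at h4
    obtain ⟨m, f', h5⟩ : ∃ (m : ℕ) (f' : k[X]), aeval (x (J + m)) f' = aeval (x n) f := by
      refine ⟨n, expand k (p ^ J) f, ?_⟩
      rw [expand_aeval, add_comm, root_pow_add hT.root]
    rw [← h5] at h3
    obtain ⟨f₀, ρ, h6⟩ := c4_letters hk hc hT h0 hx hQ (by linarith) h3
    exact ⟨f₀, m, ρ, h6.mono (by linarith)⟩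
  have hκ := rt_neg (v := v) hT.root h0 hx (J + 1)
  set κ : ℝ := v (x (J + 1)) with hκd
  have hJ : v (x J) = p * κ := by
    rw [hκd, ← hT.root J, v.map_pow (rt_ne hT.root h0 _)]
  have hp2 : (2 : ℝ) ≤ p := by exact_mod_cast hp.out.two_le
  obtain ⟨f₀, m₀, ρ₀, h1⟩ := key (-κ) (by linarith)
  rw [neg_neg] at h1
  refine ⟨f₀, fun ε hε => ?_⟩
  obtain ⟨f₁, m, ρ, h2⟩ := key (min ε (-κ)) (lt_min hε (by linarith))
  have h3 : v.Ge κ (aeval (x J) (f₁ - f₀)) := by
    have h4 := ((h1.sub (h2.mono (show κ ≤ -min ε (-κ) by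
      have := min_le_right ε (-κ)
      linarith))).add (ge_letters hk hT.root h0 hx J m₀ ρ₀)).sub
      (ge_letters hk hT.root h0 hx J m ρ)
    have h5 : Q.eval (x J) - aeval (x J) f₀ -
        ∑ l ∈ Finset.range m₀, algebraMap k Ω (ρ₀ l) * x (J + 1 + l) -
        (Q.eval (x J) - aeval (x J) f₁ -
        ∑ l ∈ Finset.range m, algebraMap k Ω (ρ l) * x (J + 1 + l)) +
        ∑ l ∈ Finset.range m₀, algebraMap k Ω (ρ₀ l) * x (J + 1 + l) -
        ∑ l ∈ Finset.range m, algebraMap k Ω (ρ l) * x (J + 1 + l) =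
        aeval (x J) (f₁ - f₀) := by
      rw [map_sub]
      ring
    rwa [h5] at h4
  have h4 : ∀ i, (f₁ - f₀).coeff i ≠ 0 → i = 0 := by
    intro i hi
    by_contra hi0
    have h5 := kpp_le hk (rt_ne hT.root h0 J) (rt_neg hT.root h0 hx J) h3 hi
    rw [hJ] at h5
    have h6 : (1 : ℝ) ≤ i := by exact_mod_cast Nat.one_le_iff_ne_zero.2 hi0
    have h7 : (i : ℝ) * (p * κ) ≤ 1 * (p * κ) := by
      have : p * κ < 0 := by nlinarith
      nlinarith
    nlinarith
  have h5 : v.Ge 0 (aeval (x J) (f₁ - f₀)) := kpp_ge hk fun i hi => by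
    rw [h4 i hi, Nat.cast_zero, zero_mul]
  refine ⟨m, ρ, ?_⟩
  have h6 := (h2.mono (show -ε ≤ -min ε (-κ) by
    have := min_le_left ε (-κ)
    linarith)).add (h5.mono (show -ε ≤ 0 by linarith))
  have h7 : Q.eval (x J) - aeval (x J) f₁ -
      ∑ l ∈ Finset.range m, algebraMap k Ω (ρ l) * x (J + 1 + l) + aeval (x J) (f₁ - f₀) =
      Q.eval (x J) - aeval (x J) f₀ -
      ∑ l ∈ Finset.range m, algebraMap k Ω (ρ l) * x (J + 1 + l) := by
    rw [map_sub]
    ring
  rwa [h7] at h6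

/-- Reduction of the degree. -/
theorem c4_red (h0L : x 0 ∈ L) (hr : ∀ n, x (n + 1) ^ p = x n) {Q : Polynomial Ω}
    (hQ : Q ∈ PI L) (J : ℕ) : ∃ R ∈ PI L, R.natDegree < p ^ J ∧ R.eval (x J) = Q.eval (x J) := by
  have hq : 0 < p ^ J := pow_pos hp.out.pos J
  refine ⟨∑ i ∈ Finset.range (Q.natDegree + 1),
    C (Q.coeff i * x 0 ^ (i / p ^ J)) * X ^ (i % p ^ J), ?_, ?_, ?_⟩
  · exact sum_mem fun i _ => mul_mem (C_mem_PI (mul_mem (hQ i) (pow_mem h0L _)))
      (pow_mem X_mem_PI _)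
  · refine lt_of_le_of_lt (natDegree_sum_le_of_forall_le (n := p ^ J - 1) _ _ fun i _ => ?_)
      (by omega)
    refine (natDegree_C_mul_X_pow_le _ _).trans ?_
    have := Nat.mod_lt i hq
    omega
  · rw [eval_finsetSum, eval_eq_sum_range]
    refine Finset.sum_congr rfl fun i _ => ?_
    have h1 := root_pow_add hr 0 J
    rw [zero_add] at h1
    rw [eval_mul, eval_C, eval_pow, eval_X, ← h1, ← pow_mul, mul_assoc, ← pow_add,
      Nat.div_add_mod]

/-- The jets of `Q - f₀` are integral. -/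
theorem c4_jets [IsAlgClosed Ω] (hk : Ctx0 k v) (hc : CompleteV v) (hT : Tgt p v L x 0)
    {R : Polynomial Ω} (hR : R ∈ PI L) {J : ℕ} (h : ∀ ε : ℝ, 0 < ε → ∃ (m : ℕ) (ρ : ℕ → k),
      v.Ge (-ε) (R.eval (x J) - ∑ l ∈ Finset.range m, algebraMap k Ω (ρ l) * x (J + 1 + l)))
    {F : ℕ} (hF1 : 1 ≤ F) (hF : F < p ^ J) : v.Ge 0 ((taylor (x J) R).coeff F) := by
  refine ge_of_eps fun ε hε => ?_
  rw [zero_sub]
  obtain ⟨m, ρ, h1⟩ := h ε hε
  have hpm : 0 < p ^ m := pow_pos hp.out.pos m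
  set M : k[X] := ∑ l ∈ Finset.range m, monomial (p ^ (m - 1 - l)) (ρ l) with hM
  have hMe : aeval (x (J + m)) M = ∑ l ∈ Finset.range m, algebraMap k Ω (ρ l) * x (J + 1 + l) := by
    rw [hM, map_sum]
    refine Finset.sum_congr rfl fun l hl => ?_
    have hl := Finset.mem_range.1 hl
    have h1 := root_pow_add hT.root (J + 1 + l) (m - 1 - l)
    rw [show J + 1 + l + (m - 1 - l) = J + m by omega] at h1
    rw [aeval_monomial, h1]
  have hMd : M.natDegree < p ^ m := by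
    refine lt_of_le_of_lt (natDegree_sum_le_of_forall_le (n := p ^ m - 1) _ _ fun l hl => ?_)
      (by omega)
    refine (natDegree_monomial_le _).trans ?_
    have hl := Finset.mem_range.1 hl
    have := Nat.pow_lt_pow_right hp.out.one_lt (show m - 1 - l < m by omega)
    omega
  set G : Polynomial Ω := expand Ω (p ^ m) R - M.map (algebraMap k Ω) with hG
  have hGP : G ∈ PI L := sub_mem (expand_mem_PI hpm hR) (map_mem_PI' L M)
  have hGe : G.eval (x (J + m)) =
      R.eval (x J) - ∑ l ∈ Finset.range m, algebraMap k Ω (ρ l) * x (J + 1 + l) := by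
    rw [hG, eval_sub, ax_lift hT.root, eval_map_algebraMap, hMe]
  have h2 := hT.nb0 hk hc (J + m) hGP (lt_lev hF) (b := -ε) (by rw [hGe]; exact h1)
  have h3 : (taylor (x (J + m)) (M.map (algebraMap k Ω))).coeff (p ^ m * F) = 0 := by
    refine coeff_eq_zero_of_natDegree_lt ?_
    rw [natDegree_taylor]
    refine lt_of_le_of_lt natDegree_map_le (hMd.trans_le ?_)
    exact Nat.le_mul_of_pos_right _ hF1
  rwa [hG, map_sub, coeff_sub, h3, sub_zero, coeff_lift hT.root] at h2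

theorem taylor_pow_char (y : Ω) (s : ℕ) {F : ℕ} (hF : 1 ≤ F) :
    (taylor y (X ^ p ^ s : Polynomial Ω)).coeff F = if F = p ^ s then 1 else 0 := by
  rw [taylor_X_pow, add_pow_char_pow, coeff_add, coeff_X_pow, ← C_pow, coeff_C,
    if_neg (show F ≠ 0 by omega), add_zero]

/-- The residues of the jets live at the powers of `p`; they are removed by the `x j`. -/
theorem c4_res [IsAlgClosed Ω] (hk : Ctx0 k v) (hc : CompleteV v) (hT : Tgt p v L x 0)
    {R : Polynomial Ω} (hR : R ∈ PI L) {J : ℕ}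
    (h : ∀ F, 1 ≤ F → F < p ^ J → v.Ge 0 ((taylor (x J) R).coeff F)) :
    ∃ σ : ℕ → k, ∀ F, 1 ≤ F → F < p ^ J → Gt v 0 ((taylor (x J) (R - ∑ s ∈ Finset.range J,
      C (algebraMap k Ω (σ s)) * X ^ p ^ s)).coeff F) := by
  have h1 : ∀ F, 1 ≤ F → F < p ^ J → ∃ c : k, Gt v 0 ((taylor (x J) R).coeff F -
      algebraMap k Ω c) := fun F hF hF' => hk.residue (h F hF hF')
  have h2 : ∀ s, ∃ c : k, s < J → Gt v 0 ((taylor (x J) R).coeff (p ^ s) - algebraMap k Ω c) := by
    intro s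
    by_cases hs : s < J
    · obtain ⟨c, hc⟩ := h1 (p ^ s) (Nat.one_le_pow _ _ hp.out.pos)
        (Nat.pow_lt_pow_right hp.out.one_lt hs)
      exact ⟨c, fun _ => hc⟩
    · exact ⟨0, fun h3 => absurd h3 hs⟩
  choose σ hσ using h2
  refine ⟨σ, fun F hF hF' => ?_⟩
  have h3 : (taylor (x J) (∑ s ∈ Finset.range J, C (algebraMap k Ω (σ s)) * X ^ p ^ s)).coeff F =
      ∑ s ∈ Finset.range J, algebraMap k Ω (σ s) * if F = p ^ s then 1 else 0 := by
    rw [map_sum, finsetSum_coeff]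
    refine Finset.sum_congr rfl fun s _ => ?_
    rw [taylor_mul, taylor_C, coeff_C_mul, taylor_pow_char (p := p) _ _ hF]
  rw [map_sub, coeff_sub, h3]
  by_cases hFs : ∃ s, F = p ^ s
  · obtain ⟨s, rfl⟩ := hFs
    have hs : s < J := (Nat.pow_lt_pow_iff_right hp.out.one_lt).1 hF'
    rw [Finset.sum_eq_single s]
    · rw [if_pos rfl, mul_one]
      exact hσ s hs
    · intro l _ hl
      rw [if_neg, mul_zero]
      exact fun h4 => hl (Nat.pow_right_injective hp.out.two_le h4).symm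
    · exact fun h4 => absurd (Finset.mem_range.2 hs) h4
  · have h4 : ∑ s ∈ Finset.range J, algebraMap k Ω (σ s) * (if F = p ^ s then 1 else 0) =
        (0 : Ω) := Finset.sum_eq_zero fun s _ => by
      rw [if_neg fun h5 => hFs ⟨s, h5⟩, mul_zero]
    rw [h4, sub_zero]
    obtain ⟨s, t, ht, hst⟩ := Nat.exists_eq_pow_mul_and_not_dvd (show F ≠ 0 by omega) p
      hp.out.ne_one
    have ht1 : t ≠ 1 := by
      rintro rfl
      exact hFs ⟨s, by rw [hst, mul_one]⟩
    have ht2 : 2 ≤ t := by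
      rcases t with _ | _ | t
      · exact absurd (dvd_zero p) ht
      · exact absurd rfl ht1
      · omega
    have hps : 0 < p ^ s := pow_pos hp.out.pos s
    have h6 : p ^ s * 2 ≤ F := by
      rw [hst]
      exact Nat.mul_le_mul_left _ ht2
    obtain ⟨c, hc1⟩ := h1 (p ^ s) hps (by omega)
    set G : Polynomial Ω := hasseDeriv (p ^ s) R - C (algebraMap k Ω c) with hG
    have hGP : G ∈ PI L := sub_mem (hasseDeriv_mem_PI hR) (C_mem_PI (L.algebraMap_mem c))
    have h7 := hT.nb0_gt hk hc J hGP (F := F - p ^ s) (by omega) (b := 0) (by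
      rw [hG, eval_sub, eval_C, ← taylor_coeff]
      exact hc1)
    have h8 : (taylor (x J) G).coeff (F - p ^ s) =
        ((F.choose (p ^ s) : ℕ) : Ω) * (taylor (x J) R).coeff F := by
      rw [hG, map_sub, coeff_sub, taylor_C, coeff_C, if_neg (show F - p ^ s ≠ 0 by omega), sub_zero,
        taylor_coeff, taylor_coeff]
      have h9 := LinearMap.congr_fun (hasseDeriv_comp (R := Ω) (F - p ^ s) (p ^ s)) R
      rw [LinearMap.comp_apply] at h9
      rw [h9, LinearMap.smul_apply, eval_smul, nsmul_eq_mul,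
        show F - p ^ s + p ^ s = F by omega]
      congr 2
      exact Nat.choose_symm (by omega)
    rw [h8] at h7
    have h10 : (F.choose (p ^ s) : k) ≠ 0 := by
      rw [hst]
      exact kpp_choose ht
    have h11 : ((F.choose (p ^ s) : ℕ) : Ω) = algebraMap k Ω (F.choose (p ^ s) : k) := by
      rw [map_natCast]
    intro h12
    have h13 : algebraMap k Ω (F.choose (p ^ s) : k) ≠ 0 := (_root_.map_ne_zero _).2 h10
    rw [h11] at h7
    have h14 := h7 (mul_ne_zero h13 h12)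
    rwa [v.map_mul h13 h12, hk.triv _ h10, zero_add] at h14

omit [Algebra k Ω] [Field k] hp [CharP k p] [CharP Ω p] in
/-- Jets of positive value give terms of positive value near the centre. -/
theorem c4_near (b : ℕ → Ω) (N : ℕ) (hb : ∀ l, 1 ≤ l → l < N → Gt v 0 (b l)) : ∃ δ : ℝ, 0 < δ ∧
    ∀ t, v.Ge (-δ) t → ∀ l, 1 ≤ l → l < N → Gt v 0 (b l * t ^ l) := by
  induction N with
  | zero => exact ⟨1, one_pos, fun t _ l _ hl => absurd hl (Nat.not_lt_zero _)⟩
  | succ N ih =>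
    obtain ⟨δ, hδ, h1⟩ := ih fun l hl hl' => hb l hl (hl'.trans (Nat.lt_succ_self _))
    by_cases hbN : b N = 0 ∨ N = 0
    · refine ⟨δ, hδ, fun t ht l hl hl' => ?_⟩
      rcases Nat.lt_succ_iff_lt_or_eq.1 hl' with h2 | h2
      · exact h1 t ht l hl h2
      · rcases hbN with h3 | h3
        · rw [h2, h3, zero_mul]
          exact Gt.zero
        · omega
    · push Not at hbN
      have h2 := hb N (Nat.one_le_iff_ne_zero.2 hbN.2) (Nat.lt_succ_self _) hbN.1
      have hN : (0 : ℝ) < N := by exact_mod_cast Nat.pos_of_ne_zero hbN.2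
      refine ⟨min δ (v (b N) / (2 * N)), lt_min hδ (by positivity), fun t ht l hl hl' => ?_⟩
      rcases Nat.lt_succ_iff_lt_or_eq.1 hl' with h3 | h3
      · exact h1 t (ht.mono (neg_le_neg (min_le_left _ _))) l hl h3
      · rw [h3]
        refine Gt.of_ge ((v.ge_self (b N)).mul (ge_pow (ht.mono (neg_le_neg
          (min_le_right _ _))) N)) ?_
        have h4 : (N : ℝ) * -(v (b N) / (2 * N)) = -(v (b N) / 2) := by
          field_simp
        rw [h4]
        linarith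

/-- **C4 FOR THE BASE AT LEVEL 0.** -/
theorem c4_base [IsAlgClosed Ω] (hk : Ctx0 k v) (hc : CompleteV v) (hT : Tgt p v L x 0)
    (h0 : x 0 ≠ 0) (hx : v (x 0) < 0) {y : Ω} (hy : y ∈ EW v L x)
    (hl : Lim v (EW v (⊥ : IntermediateField k Ω) x) 0 y) :
    ∃ w ∈ L, ∃ e ∈ EW v (⊥ : IntermediateField k Ω) x, Gt v 0 (y - w - e) := by
  obtain ⟨y', ⟨J, Q, hQ, rfl⟩, -, h1⟩ := AX.dense hT.root hp.out.pos hT.mem y hy 1
  have h1' : Gt v 0 (y - Q.eval (x J)) := Gt.of_ge h1 one_pos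
  have hl' : Lim v (EW v (⊥ : IntermediateField k Ω) x) 0 (Q.eval (x J)) := by
    intro ε hε
    obtain ⟨a, ha, h2⟩ := hl ε hε
    refine ⟨a, ha, ?_⟩
    have h3 := h2.sub (h1'.ge.mono (show 0 - ε ≤ 0 by linarith))
    rwa [show y - a - (y - Q.eval (x J)) = Q.eval (x J) - a by ring] at h3
  obtain ⟨f₀, hf₀⟩ := exists_letters hk hc hT h0 hx hQ hl'
  obtain ⟨R, hR, hRd, hRe⟩ := c4_red (p := p) hT.mem hT.root
    (sub_mem hQ (map_mem_PI' L f₀)) J
  rw [eval_sub, eval_map_algebraMap] at hRe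
  have h2 : ∀ F, 1 ≤ F → F < p ^ J → v.Ge 0 ((taylor (x J) R).coeff F) := fun F hF hF' => by
    refine c4_jets hk hc hT hR (fun ε hε => ?_) hF hF'
    obtain ⟨m, ρ, h3⟩ := hf₀ ε hε
    exact ⟨m, ρ, by rw [hRe]; exact h3⟩
  obtain ⟨σ, hσ⟩ := c4_res hk hc hT hR h2
  set M : Polynomial Ω := ∑ s ∈ Finset.range J, C (algebraMap k Ω (σ s)) * X ^ p ^ s with hM
  have hMP : M ∈ PI L := sum_mem fun s _ => mul_mem (C_mem_PI (L.algebraMap_mem _))
    (pow_mem X_mem_PI _)
  have hMd : M.natDegree < p ^ J := by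
    have hq : 0 < p ^ J := pow_pos hp.out.pos J
    refine lt_of_le_of_lt (natDegree_sum_le_of_forall_le (n := p ^ J - 1) _ _ fun s hs => ?_)
      (by omega)
    refine (natDegree_C_mul_X_pow_le _ _).trans ?_
    have := Nat.pow_lt_pow_right hp.out.one_lt (Finset.mem_range.1 hs)
    omega
  set R₂ : Polynomial Ω := R - M with hR₂
  have hR₂P : R₂ ∈ PI L := sub_mem hR hMP
  have hR₂d : R₂.natDegree < p ^ J :=
    lt_of_le_of_lt (natDegree_sub_le _ _) (max_lt hRd hMd)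
  obtain ⟨δ, hδ, hnear⟩ := c4_near (fun F => (taylor (x J) R₂).coeff F) (p ^ J)
    fun F hF hF' => hσ F hF hF'
  obtain ⟨g, hgL, hg⟩ : ∃ g ∈ L, v.Ge (-δ) (g - x J) := by
    rcases J with _ | J
    · exact ⟨x 0, hT.mem, by rw [sub_self]; exact RVal.Ge.zero⟩
    · obtain ⟨g, hgL, hg⟩ := (hT.dst J).near δ hδ
      exact ⟨g, hgL, ge_sub_comm (hg.mono (by rw [zero_div, zero_sub]))⟩
  have h3 : R₂.eval g - R₂.eval (x J) =
      ∑ F ∈ Finset.Ico 1 (p ^ J), (taylor (x J) R₂).coeff F * (g - x J) ^ F := by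
    have h4 : R₂.eval g = (taylor (x J) R₂).eval (g - x J) := by
      rw [taylor_eval, sub_add_cancel]
    have hq : 0 < p ^ J := pow_pos hp.out.pos J
    rw [h4, eval_eq_sum_range' (n := p ^ J) (by rw [natDegree_taylor]; exact hR₂d),
      Finset.range_eq_Ico, Finset.sum_eq_sum_Ico_succ_bot hq, taylor_coeff_zero, pow_zero, mul_one,
      add_sub_cancel_left]
  have h4 : Gt v 0 (R₂.eval g - R₂.eval (x J)) := by
    rw [h3]
    exact Gt.sum _ _ fun F hF => hnear _ hg F (Finset.mem_Ico.1 hF).1 (Finset.mem_Ico.1 hF).2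
  have hxE : ∀ n, x n ∈ EW v (⊥ : IntermediateField k Ω) x := fun n => EW.mem n
  refine ⟨R₂.eval g, eval_mem hR₂P hgL, aeval (x J) f₀ + M.eval (x J), ?_, ?_⟩
  · refine add_mem ?_ (eval_mem (sum_mem fun s _ => mul_mem (C_mem_PI
      ((EW v (⊥ : IntermediateField k Ω) x).algebraMap_mem _)) (pow_mem X_mem_PI _)) (hxE J))
    rw [← eval_map_algebraMap]
    exact eval_mem (map_mem_PI' _ f₀) (hxE J)
  · have h5 := h1'.sub h4
    have h6 : y - Q.eval (x J) - (R₂.eval g - R₂.eval (x J)) =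
        y - R₂.eval g - (aeval (x J) f₀ + M.eval (x J)) := by
      have h7 : R₂.eval (x J) = R.eval (x J) - M.eval (x J) := by rw [hR₂, eval_sub]
      rw [h7, hRe]
      ring
    rwa [h6] at h5

/-- **C4 FOR THE BASE AT LEVEL 0**: a coordinate of transcendental type over `E` may be chosen in
`L`. -/
theorem c4_tl [IsAlgClosed Ω] (hk : Ctx0 k v) (hc : CompleteV v) (hT : Tgt p v L x 0)
    (h0 : x 0 ≠ 0) (hx : v (x 0) < 0) {y : Ω} (hy : y ∈ EW v L x)
    (hl : TL v (EW v (⊥ : IntermediateField k Ω) x) y 0) :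
    ∃ w ∈ L, ∃ e ∈ EW v (⊥ : IntermediateField k Ω) x, Gt v 0 (y - w - e) ∧
      TL v (EW v (⊥ : IntermediateField k Ω) x) w 0 := by
  obtain ⟨w, hw, e, he, h1⟩ := c4_base hk hc hT h0 hx hy hl.lim
  refine ⟨w, hw, e, he, h1, (hl.sub_mem he).congr ?_⟩
  have h2 := h1.neg
  rwa [show -(y - w - e) = w - (y - e) by ring] at h2

/-- **C4 FOR THE BASE AT LEVEL 0**, tower version: the first coordinate may be chosen in `L`. -/
theorem c4_tow [IsAlgClosed Ω] (hk : Ctx0 k v) (hc : CompleteV v) (hT : Tgt p v L x 0)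
    (h0 : x 0 ≠ 0) (hx : v (x 0) < 0) {n : ℕ}
    (ht : Tow v (n + 1) (EW v (⊥ : IntermediateField k Ω) x) (EW v L x)) :
    ∃ w ∈ L, TL v (EW v (⊥ : IntermediateField k Ω) x) w 0 ∧
      Tow v n (cadj v (EW v (⊥ : IntermediateField k Ω) x) w) (EW v L x) := by
  obtain ⟨y, hy, ht'⟩ : ∃ y, TL v (EW v (⊥ : IntermediateField k Ω) x) y 0 ∧
      Tow v n (cadj v (EW v (⊥ : IntermediateField k Ω) x) y) (EW v L x) := by
    cases ht with
    | succ h1 h2 => exact ⟨_, h1, h2⟩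
  obtain ⟨w, hw, e, he, h1, h2⟩ := c4_tl hk hc hT h0 hx
    (ht'.le_top (self_mem_cadj v _ y)) hy
  refine ⟨w, hw, h2, ?_⟩
  refine Tow.exch (cld_clI v _) (hy.sub_mem he) ?_ (EW.le hw) ?_
  · rwa [cadj_sub_mem he]
  · have h3 := h1.neg
    rwa [show -(y - w - e) = w - (y - e) by ring] at h3

end Jets

end Base

end Pool.Agent.TWC
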