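import Pool.Agent.Lib.TWC.Base

/-!
# TANK W, class C, row R6a: operators of norm `≤ 0` defined on a dense subspace

`E` is closed in the complete field `Ω`.
* `DnsS v S E`: `S` is dense in `E`;
* `exists_ext`: a `k`-linear map with values in `E`, of norm `≤ 0`, defined on a dense `k`-subspace
  of `E`, extends to an operator of `E` of norm `≤ 0`;
* `Opr.ext_dense`: uniqueness;
* `lin_of_dense`, `mul_of_dense`, `pow_of_dense`: linearity over `C`, composition and Frobenius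
  relations need to be checked on dense subsets only.
-/

set_option autoImplicit false

open Polynomial

namespace Pool.Agent.TWC

open Pool.Agent.H15JM (RVal)
open Pool.Agent.D2 (Ctx0)
open Pool.Agent.TWM

universe u

variable {k Ω : Type u} [Field k] [Field Ω] [Algebra k Ω] {v : RVal Ω}
  {C E : IntermediateField k Ω}

/-- The subset `S` of `E` is dense in `E`. -/
def DnsS (v : RVal Ω) (S : Set Ω) (E : IntermediateField k Ω) : Prop :=
  ∀ x ∈ E, ∀ b : ℝ, ∃ a ∈ S, a ∈ E ∧ v.Ge b (x - a)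

theorem eq_zero_of_ge {x : Ω} (h : ∀ b : ℝ, v.Ge b x) : x = 0 := by
  by_contra h0
  have := h (v x + 1) h0
  linarith

theorem eq_of_ge {x y : Ω} (h : ∀ b : ℝ, v.Ge b (x - y)) : x = y :=
  sub_eq_zero.1 (eq_zero_of_ge h)

/-- Multiplication by a fixed element is continuous. -/
theorem exists_mul_ge (v : RVal Ω) (y : Ω) (b : ℝ) : ∃ B : ℝ, ∀ t, v.Ge B t → v.Ge b (y * t) := by
  by_cases hy : y = 0
  · exact ⟨0, fun t _ => by rw [hy, zero_mul]; exact RVal.Ge.zero⟩
  · refine ⟨b - v y, fun t ht => ?_⟩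
    exact ((RVal.ge_self y).mul ht).mono (by linarith)

theorem DnsS.mono {S S' : Set Ω} (h : DnsS v S E) (hS : S ⊆ S') : DnsS v S' E := fun x hx b => by
  obtain ⟨a, ha, h1⟩ := h x hx b
  exact ⟨a, hS ha, h1⟩

/-- Extension of a function of norm `≤ 0` from a dense subspace. -/
theorem exists_ext [hc : Fact (Ctx0 k v)] (hE : Cld v E) (hΩ : CompleteV v) (A : Submodule k Ω)
    (hA : ∀ a ∈ A, a ∈ E) (hd : DnsS v (A : Set Ω) E) (f : A →ₗ[k] Ω) (hf : ∀ a, f a ∈ E)
    (hn : ∀ (a : A) (b : ℝ), v.Ge b (a : Ω) → v.Ge b (f a)) :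
    ∃ φ : Opr v E, ∀ (a : Ω) (ha : a ∈ A), fn φ a = f ⟨a, ha⟩ := by
  have hdif : ∀ (a a' : A) (b : ℝ), v.Ge b ((a : Ω) - a') → v.Ge b (f a - f a') := by
    intro a a' b h
    rw [← map_sub]
    exact hn _ _ h
  -- the value of the extension at `x`
  have h1 : ∀ x : E, ∃ y : E, ∀ (a : A) (b : ℝ), v.Ge b ((x : Ω) - a) → v.Ge b ((y : Ω) - f a) := by
    intro x
    choose a ha _ hxa using fun n : ℕ => hd x x.2 (n : ℝ)
    obtain ⟨y, hy⟩ := hΩ (fun n => f ⟨a n, ha n⟩) fun c => by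
      obtain ⟨N, hN⟩ := exists_nat_ge c
      refine ⟨N, fun m n hm hn' => hdif _ _ _ ?_⟩
      have e : ((⟨a m, ha m⟩ : A) : Ω) - (⟨a n, ha n⟩ : A) = ((x : Ω) - a n) - (x - a m) := by
        change a m - a n = _
        ring
      rw [e]
      refine RVal.Ge.sub ?_ ?_
      · exact (hxa n).mono (hN.trans (by exact_mod_cast hn'))
      · exact (hxa m).mono (hN.trans (by exact_mod_cast hm))
    have hyE : y ∈ E := by
      refine hE (D2P.mem_clI.2 fun b => ?_)
      obtain ⟨N, hN⟩ := hy b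
      exact ⟨_, hf _, hN N le_rfl⟩
    refine ⟨⟨y, hyE⟩, fun a' b hb => ?_⟩
    obtain ⟨N, hN⟩ := hy b
    obtain ⟨N', hN'⟩ := exists_nat_ge b
    set n := max N N' with hn'
    have e : (y : Ω) - f a' = (y - f ⟨a n, ha n⟩) + (f ⟨a n, ha n⟩ - f a') := by ring
    change v.Ge b (y - f a')
    rw [e]
    refine (hN n (le_max_left _ _)).add (hdif _ _ _ ?_)
    have e2 : ((⟨a n, ha n⟩ : A) : Ω) - a' = ((x : Ω) - a') - (x - a n) := by
      change a n - (a' : Ω) = _
      ring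
    rw [e2]
    refine hb.sub ((hxa n).mono (hN'.trans ?_))
    exact_mod_cast le_max_right N N'
  choose g hg using h1
  have huniq : ∀ (x : E) (y : Ω), (∀ (b : ℝ), ∃ a : A, v.Ge b ((x : Ω) - a) ∧ v.Ge b (y - f a)) →
      (g x : Ω) = y := by
    intro x y h
    refine eq_of_ge (v := v) fun b => ?_
    obtain ⟨a, h2, h3⟩ := h b
    have e : (g x : Ω) - y = (g x - f a) - (y - f a) := by ring
    rw [e]
    exact (hg x a b h2).sub h3
  have hdA : ∀ (x : E) (b : ℝ), ∃ a : A, v.Ge b ((x : Ω) - a) := by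
    intro x b
    obtain ⟨a, ha, -, h2⟩ := hd x x.2 b
    exact ⟨⟨a, ha⟩, h2⟩
  let φ₀ : E →ₗ[k] E :=
    { toFun := g
      map_add' := fun x y => by
        refine Subtype.ext (huniq _ _ fun b => ?_)
        obtain ⟨a, ha⟩ := hdA x b
        obtain ⟨a', ha'⟩ := hdA y b
        refine ⟨a + a', ?_, ?_⟩
        · have e : ((x + y : E) : Ω) - (a + a' : A) = ((x : Ω) - a) + (y - a') := by
            push_cast
            ring
          rw [e]
          exact ha.add ha'
        · have e : ((g x + g y : E) : Ω) - f (a + a') = ((g x : Ω) - f a) + (g y - f a') := by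
            rw [map_add]
            push_cast
            ring
          rw [e]
          exact (hg x a b ha).add (hg y a' b ha')
      map_smul' := fun c x => by
        refine Subtype.ext (huniq _ _ fun b => ?_)
        obtain ⟨a, ha⟩ := hdA x b
        have hs : ∀ t : Ω, v.Ge b t → v.Ge b (c • t) := fun t ht => by
          rw [Algebra.smul_def]
          have := (hc.out.ge c).mul ht
          rwa [zero_add] at this
        refine ⟨c • a, ?_, ?_⟩
        · have e : ((c • x : E) : Ω) - (c • a : A) = c • ((x : Ω) - a) := by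
            rw [smul_sub]
            rfl
          rw [e]
          exact hs _ ha
        · have e : ((c • g x : E) : Ω) - f (c • a) = c • ((g x : Ω) - f a) := by
            rw [smul_sub, map_smul]
            rfl
          rw [RingHom.id_apply, e]
          exact hs _ (hg x a b ha) }
  have hφ : Nrm0 v φ₀ := by
    intro x b hb
    obtain ⟨a, ha⟩ := hdA x b
    have e : (g x : Ω) = (g x - f a) + f a := by ring
    change v.Ge b (g x : Ω)
    rw [e]
    refine (hg x a b ha).add (hn a b ?_)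
    have e2 : (a : Ω) = (x : Ω) - (x - a) := by ring
    rw [e2]
    exact hb.sub ha
  refine ⟨⟨φ₀, hφ⟩, fun a ha => ?_⟩
  rw [fn_of_mem _ (hA a ha)]
  change (g ⟨a, hA a ha⟩ : Ω) = _
  exact huniq _ _ fun b => ⟨⟨a, ha⟩, by rw [sub_self]; exact RVal.Ge.zero, by
    rw [sub_self]; exact RVal.Ge.zero⟩

section Rel

variable [Fact (Ctx0 k v)] {S S' : Set Ω}

theorem fn_sub (φ : Opr v E) {x y : Ω} (hx : x ∈ E) (hy : y ∈ E) :
    fn φ (x - y) = fn φ x - fn φ y := by
  rw [fn_of_mem φ (sub_mem hx hy), fn_of_mem φ hx, fn_of_mem φ hy]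
  exact congrArg Subtype.val ((φ : Module.End k E).map_sub ⟨x, hx⟩ ⟨y, hy⟩)

/-- Two operators which agree on a dense subset are equal. -/
theorem Opr.ext_fn {φ ψ : Opr v E} (h : ∀ x ∈ E, fn φ x = fn ψ x) : φ = ψ := by
  refine Subtype.ext (LinearMap.ext fun x => Subtype.ext ?_)
  have := h x x.2
  rwa [fn_of_mem φ x.2, fn_of_mem ψ x.2] at this

theorem fn_near (φ : Opr v E) {x a : Ω} (hx : x ∈ E) (ha : a ∈ E) {b : ℝ} (h : v.Ge b (x - a)) :
    v.Ge b (fn φ x - fn φ a) := by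
  rw [← fn_sub φ hx ha]
  exact fn_ge φ (sub_mem hx ha) h

theorem fn_eq_of_dense {φ ψ : Opr v E} (hS : DnsS v S E) (h : ∀ a ∈ S, a ∈ E → fn φ a = fn ψ a) :
    ∀ x ∈ E, fn φ x = fn ψ x := by
  intro x hx
  refine eq_of_ge (v := v) fun b => ?_
  obtain ⟨a, ha, haE, h1⟩ := hS x hx b
  have e : fn φ x - fn ψ x = (fn φ x - fn φ a) - (fn ψ x - fn ψ a) := by
    rw [h a ha haE]; ring
  rw [e]
  exact (fn_near φ hx haE h1).sub (fn_near ψ hx haE h1)

theorem Opr.ext_dense {φ ψ : Opr v E} (hS : DnsS v S E) (h : ∀ a ∈ S, a ∈ E → fn φ a = fn ψ a) :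
    φ = ψ := Opr.ext_fn (fn_eq_of_dense hS h)

/-- Linearity over `C`. -/
theorem lin_of_dense (hCE : C ≤ E) {φ : Opr v E} (hS : DnsS v S E) (hS' : DnsS v S' C)
    (h : ∀ c ∈ S', c ∈ C → ∀ a ∈ S, a ∈ E → fn φ (c * a) = c * fn φ a) :
    ∀ c ∈ C, ∀ x ∈ E, fn φ (c * x) = c * fn φ x := by
  intro c hc x hx
  refine eq_of_ge (v := v) fun b => ?_
  obtain ⟨B, hB⟩ := exists_mul_ge v c b
  obtain ⟨a, ha, haE, h1⟩ := hS x hx B
  obtain ⟨B₁, hB₁⟩ := exists_mul_ge v a b
  obtain ⟨B₂, hB₂⟩ := exists_mul_ge v (fn φ a) b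
  obtain ⟨c', hc', hcC, h2⟩ := hS' c hc (max B₁ B₂)
  have e : fn φ (c * x) - c * fn φ x =
      (fn φ (c * x) - fn φ (c' * a)) - (c * (fn φ x - fn φ a) + fn φ a * (c - c')) := by
    rw [h c' hc' hcC a ha haE]; ring
  rw [e]
  refine RVal.Ge.sub (fn_near φ (mul_mem (hCE hc) hx) (mul_mem (hCE hcC) haE) ?_)
    ((hB _ (fn_near φ hx haE h1)).add (hB₂ _ (h2.mono (le_max_right _ _))))
  have e2 : c * x - c' * a = c * (x - a) + a * (c - c') := by ring
  rw [e2]
  exact (hB _ h1).add (hB₁ _ (h2.mono (le_max_left _ _)))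

/-- Composition. -/
theorem mul_of_dense {φ ψ χ : Opr v E} (hS : DnsS v S E)
    (h : ∀ a ∈ S, a ∈ E → fn χ a = fn φ (fn ψ a)) : χ = φ * ψ := by
  refine Opr.ext_dense hS fun a ha haE => ?_
  rw [h a ha haE, fn_of_mem (φ * ψ) haE, fn_of_mem ψ haE, fn_of_mem φ (SetLike.coe_mem _)]
  rfl

/-- The Frobenius. -/
theorem pow_of_dense (p : ℕ) [Fact p.Prime] [CharP Ω p] {φ φ' : Opr v E} (hS : DnsS v S E)
    (h : ∀ a ∈ S, a ∈ E → fn φ (a ^ p) = fn φ' a ^ p) :
    ∀ x : E, (φ : Module.End k E) (x ^ p) = ((φ' : Module.End k E) x) ^ p := by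
  intro x
  have hp : (1 : ℝ) ≤ p := by exact_mod_cast (Fact.out : p.Prime).one_lt.le
  have key : fn φ ((x : Ω) ^ p) = fn φ' (x : Ω) ^ p := by
    refine eq_of_ge (v := v) fun b => ?_
    obtain ⟨a, ha, haE, h1⟩ := hS x x.2 |b|
    have hpw : ∀ t : Ω, v.Ge |b| t → v.Ge b (t ^ p) := fun t ht => by
      refine (ge_pow ht p).mono ?_
      have h2 := abs_nonneg b
      have h3 := le_abs_self b
      nlinarith
    have e : fn φ ((x : Ω) ^ p) - fn φ' (x : Ω) ^ p =
        (fn φ ((x : Ω) ^ p) - fn φ (a ^ p)) - (fn φ' (x : Ω) - fn φ' a) ^ p := by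
      rw [h a ha haE, sub_pow_char]; ring
    rw [e]
    refine RVal.Ge.sub (fn_near φ (pow_mem x.2 p) (pow_mem haE p) ?_)
      (hpw _ (fn_near φ' x.2 haE h1))
    rw [← sub_pow_char]
    exact hpw _ h1
  refine Subtype.ext ?_
  rw [fn_of_mem φ (pow_mem x.2 p), fn_of_mem φ' x.2] at key
  exact key

/-- A value of an operator, computed on a dense subset. -/
theorem fn_mem_of_dense {D : IntermediateField k Ω} (hD : Cld v D) {φ : Opr v E}
    {B : IntermediateField k Ω} (hB : B ≤ E) (hSB : DnsS v (S ∩ B) B)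
    (h : ∀ a ∈ S, a ∈ B → fn φ a ∈ D) : ∀ x ∈ B, fn φ x ∈ D := by
  intro x hx
  refine hD (D2P.mem_clI.2 fun b => ?_)
  obtain ⟨a, ha, haB, h1⟩ := hSB x hx b
  exact ⟨_, h a ha.1 haB, fn_near φ (hB hx) (hB haB) h1⟩

end Rel

end Pool.Agent.TWC
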