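import Pool.Agent.Lib.TWC.DescDefs
import Pool.Agent.Lib.TWC.Ext

/-!
# TANK W, class C, row B3g: nilpotency of the operators

If `T` is spanned by commuting nilpotent operators, almost all of which are small at a given element
of `E`, then the operators are nilpotent on `LE`, with images of finite dimension, modulo `O(0)`.
-/

set_option autoImplicit false

open Polynomial

namespace Pool.Agent.TWC

open Pool.Agent.H15JM (RVal)
open Pool.Agent.D2 (Ctx0)
open Pool.Agent.D2P (hen clI mem_clI)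
open Pool.Agent.TWM

universe u

variable {k Ω : Type u} [Field k] [Field Ω] [Algebra k Ω] {v : RVal Ω} [Fact (Ctx0 k v)]
  {C E L LE : IntermediateField k Ω}

/-! ### The function of an operator -/

theorem fn_opr_add (φ ψ : Opr v E) {x : Ω} (hx : x ∈ E) : fn (φ + ψ) x = fn φ x + fn ψ x := by
  rw [fn_of_mem (φ + ψ) hx, fn_of_mem φ hx, fn_of_mem ψ hx]
  rfl

theorem fn_opr_zero (x : Ω) : fn (0 : Opr v E) x = 0 := by
  by_cases hx : x ∈ E
  · rw [fn_of_mem _ hx]
    rfl
  · rw [fn, dif_neg hx]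

theorem fn_opr_smul (a : k) (φ : Opr v E) {x : Ω} (hx : x ∈ E) : fn (a • φ) x = a • fn φ x := by
  rw [fn_of_mem (a • φ) hx, fn_of_mem φ hx]
  rfl

theorem fn_opr_mul (φ ψ : Opr v E) {x : Ω} (hx : x ∈ E) : fn (φ * ψ) x = fn φ (fn ψ x) := by
  rw [fn_of_mem (φ * ψ) hx, fn_of_mem ψ hx, fn_of_mem φ (SetLike.coe_mem _)]
  rfl

theorem fn_opr_one {x : Ω} (hx : x ∈ E) : fn (1 : Opr v E) x = x := by
  rw [fn_of_mem _ hx]
  rfl

/-! ### `KilN` -/

section KilN

variable {T : Submodule k (Opr v E)}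

theorem KilN.of_ge {x : Ω} (hx : x ∈ LE) (h : v.Ge 0 x) (m : ℕ) : KilN T L LE m x := by
  induction m generalizing x with
  | zero => exact h
  | succ m ih => exact fun φ _ Φ _ => ih (fn_mem Φ x) (fn_ge Φ hx h)

theorem KilN.add {x y : Ω} (hx : x ∈ LE) (hy : y ∈ LE) {m : ℕ} (h : KilN T L LE m x)
    (h' : KilN T L LE m y) : KilN T L LE m (x + y) := by
  induction m generalizing x y with
  | zero => exact RVal.Ge.add h h'
  | succ m ih =>
    intro φ hφ Φ hΦ
    rw [fn_add Φ hx hy]
    exact ih (fn_mem Φ x) (fn_mem Φ y) (h φ hφ Φ hΦ) (h' φ hφ Φ hΦ)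

theorem KilN.smul (a : k) {x : Ω} (hx : x ∈ LE) {m : ℕ}
    (h : KilN T L LE m x) : KilN T L LE m (a • x) := by
  induction m generalizing x with
  | zero =>
    have := ((Fact.out : Ctx0 k v).ge a).mul (show v.Ge 0 x from h)
    rw [zero_add] at this
    change v.Ge 0 (a • x)
    rwa [Algebra.smul_def]
  | succ m ih =>
    intro φ hφ Φ hΦ
    rw [fn_smul Φ a hx]
    exact ih (fn_mem Φ x) (h φ hφ Φ hΦ)

/-- `KilN` modulo `O(0)`. -/
theorem KilN.congr {x y : Ω} (hx : x ∈ LE) (hy : y ∈ LE) (hxy : v.Ge 0 (x - y)) {m : ℕ}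
    (h : KilN T L LE m y) : KilN T L LE m x := by
  have h1 := KilN.add (T := T) (L := L) (sub_mem hx hy) hy (KilN.of_ge (sub_mem hx hy) hxy m) h
  rwa [sub_add_cancel] at h1

end KilN

/-! ### Words in commuting nilpotent operators -/

section Words

variable {R : Type*} [Ring R]

theorem prod_filter {D : Set R} (hcomm : ∀ φ ∈ D, ∀ ψ ∈ D, φ * ψ = ψ * φ) [DecidableEq R] {φ : R}
    (hφ : φ ∈ D) : ∀ w : List R, (∀ ψ ∈ w, ψ ∈ D) →
      w.prod = φ ^ (w.filter (· = φ)).length * (w.filter (· ≠ φ)).prod ∧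
      (w.filter (· = φ)).length + (w.filter (· ≠ φ)).length = w.length
  | [], _ => by simp
  | ψ :: w, hw => by
    obtain ⟨h1, h2⟩ := prod_filter hcomm hφ w fun χ hχ => hw χ (List.mem_cons_of_mem _ hχ)
    by_cases h : ψ = φ
    · subst h
      refine ⟨?_, ?_⟩
      · rw [List.prod_cons, h1, List.filter_cons_of_pos (by simp),
          List.filter_cons_of_neg (by simp), List.length_cons, pow_succ', mul_assoc]
      · rw [List.filter_cons_of_pos (by simp), List.filter_cons_of_neg (by simp),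
          List.length_cons, List.length_cons, ← h2]
        omega
    · refine ⟨?_, ?_⟩
      · have hψ : ψ ∈ D := hw ψ (List.mem_cons_self ..)
        have hc : Commute ψ (φ ^ (w.filter (· = φ)).length) :=
          Commute.pow_right (hcomm ψ hψ φ hφ) _
        rw [List.prod_cons, h1, List.filter_cons_of_neg (by simpa using h),
          List.filter_cons_of_pos (by simpa using h), List.prod_cons, ← mul_assoc, hc.eq,
          mul_assoc]
      · rw [List.filter_cons_of_neg (by simpa using h),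
          List.filter_cons_of_pos (by simpa using h), List.length_cons, List.length_cons, ← h2]
        omega

/-- Long words in finitely many commuting nilpotent elements vanish. -/
theorem exists_len {D : Set R} (hcomm : ∀ φ ∈ D, ∀ ψ ∈ D, φ * ψ = ψ * φ)
    (hnil : ∀ φ ∈ D, ∃ n : ℕ, φ ^ n = 0) (F : Finset R) (hF : ∀ φ ∈ F, φ ∈ D) :
    ∃ m : ℕ, ∀ w : List R, (∀ φ ∈ w, φ ∈ F) → m ≤ w.length → w.prod = 0 := by
  classical
  induction F using Finset.induction_on with
  | empty =>
    refine ⟨1, fun w hw hm => ?_⟩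
    rcases w with - | ⟨ψ, w⟩
    · simp at hm
    · exact absurd (hw ψ (List.mem_cons_self ..)) (by simp)
  | insert φ F hφF ih =>
    obtain ⟨m, hm⟩ := ih fun ψ hψ => hF ψ (Finset.mem_insert_of_mem hψ)
    have hφ := hF φ (Finset.mem_insert_self φ F)
    obtain ⟨n, hn⟩ := hnil φ hφ
    refine ⟨m + n, fun w hw hl => ?_⟩
    obtain ⟨h1, h2⟩ := prod_filter hcomm hφ w fun ψ hψ => hF ψ (hw ψ hψ)
    rw [h1]
    by_cases h : n ≤ (w.filter (· = φ)).length
    · rw [pow_eq_zero_of_le h hn, zero_mul]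
    · rw [hm (w.filter (· ≠ φ)) (fun ψ hψ => ?_) (by omega), mul_zero]
      have h3 := List.mem_filter.1 hψ
      exact (Finset.mem_insert.1 (hw ψ h3.1)).resolve_left (by simpa using h3.2)

end Words

/-! ### The theorem -/

section Main

variable {T : Submodule k (Opr v E)} {D : Set (Opr v E)}

/-- A word with a letter outside the finite set is small. -/
theorem word_ge (hG : OpGen v T D) {e : Ω} (he : e ∈ E) {B : ℝ} {F : Finset (Opr v E)}
    (hF : ∀ φ ∈ D, φ ∉ F → v.Ge B (fn φ e)) : ∀ w : List (Opr v E), (∀ φ ∈ w, φ ∈ D) →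
      (∃ φ ∈ w, φ ∉ F) → v.Ge B (fn w.prod e)
  | [], _, h => by simp at h
  | ψ :: w, hw, h => by
    have hw' : ∀ φ ∈ w, φ ∈ D := fun φ hφ => hw φ (List.mem_cons_of_mem _ hφ)
    have hψ : ψ ∈ D := hw ψ (List.mem_cons_self ..)
    rw [List.prod_cons]
    by_cases h1 : ψ ∈ F
    · have h2 : ∃ φ ∈ w, φ ∉ F := by
        obtain ⟨φ, hφ, hφF⟩ := h
        rcases List.mem_cons.1 hφ with rfl | h3
        · exact absurd h1 hφF
        · exact ⟨φ, h3, hφF⟩
      rw [fn_opr_mul _ _ he]
      exact fn_ge ψ (fn_mem _ _) (word_ge hG he hF w hw' h2)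
    · have hc : Commute ψ w.prod := Commute.list_prod_right w ψ fun χ hχ =>
        hG.comm ψ hψ χ (hw' χ hχ)
      rw [hc.eq, fn_opr_mul _ _ he]
      exact fn_ge _ (fn_mem _ _) (hF ψ hψ h1)

/-- The operators are nilpotent, with images of finite dimension, modulo `O(0)`. -/
theorem nilp_of_gen' (hG : OpGen v T D) (hD : Desc v C E T L LE) : Nilp v T L LE := by
  classical
  have hLLE : ∀ x ∈ L, x ∈ LE := fun x hx => by
    rw [hD.eq]
    exact LUC.Cl.subset (show x ∈ (L ⊔ E).toSubfield from (le_sup_left : L ≤ L ⊔ E) hx)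
  have hELE : ∀ x ∈ E, x ∈ LE := fun x hx => by
    rw [hD.eq]
    exact LUC.Cl.subset (show x ∈ (L ⊔ E).toSubfield from (le_sup_right : E ≤ L ⊔ E) hx)
  -- approximation by a sum of products, and the finite set of the visible generators
  have key : ∀ x ∈ LE, ∃ (n : ℕ) (l e : Fin n → Ω) (B : ℝ) (F : Finset (Opr v E)),
      (∀ i, l i ∈ L) ∧ (∀ i, e i ∈ E) ∧ v.Ge 0 (x - ∑ i, l i * e i) ∧
      (∀ i t, v.Ge B t → v.Ge 0 (l i * t)) ∧ (∀ φ ∈ F, φ ∈ D) ∧
      ∀ φ ∈ D, φ ∉ F → ∀ i, v.Ge B (fn φ (e i)) := by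
    intro x hx
    obtain ⟨n, l, e, hl, he, h1⟩ := hD.dense x hx 0
    choose B hB using fun i => exists_mul_ge v (l i) 0
    obtain ⟨B₀, hB₀⟩ : ∃ B₀ : ℝ, ∀ i, B i ≤ B₀ := by
      obtain ⟨B₀, h⟩ := (Set.finite_range B).bddAbove
      exact ⟨B₀, fun i => h ⟨i, rfl⟩⟩
    have hfin := fun i => hG.fin ⟨e i, he i⟩ B₀
    refine ⟨n, l, e, B₀, Finset.univ.biUnion fun i => (hfin i).toFinset, hl, he, h1,
      fun i t ht => hB i t (ht.mono (hB₀ i)), fun φ hφ => ?_, fun φ hφ hφF i => ?_⟩
    · obtain ⟨i, -, hi⟩ := Finset.mem_biUnion.1 hφ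
      exact ((hfin i).mem_toFinset.1 hi).1
    · by_contra h2
      refine hφF (Finset.mem_biUnion.2 ⟨i, Finset.mem_univ i, (hfin i).mem_toFinset.2 ⟨hφ, ?_⟩⟩)
      rwa [fn_of_mem φ (he i)] at h2
  -- the action of an extension on a sum of products
  have hact : ∀ {n : ℕ} {l y : Fin n → Ω}, (∀ i, l i ∈ L) → (∀ i, y i ∈ E) →
      ∀ {φ : Opr v E} {Φ : Opr v LE}, IsExt L φ Φ →
      fn Φ (∑ i, l i * y i) = ∑ i, l i * fn φ (y i) := by
    intro n l y hl hy φ Φ hΦ
    have h1 : fn Φ (∑ i, l i * y i) = ∑ i, fn Φ (l i * y i) := by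
      have : ∀ S : Finset (Fin n), fn Φ (∑ i ∈ S, l i * y i) = ∑ i ∈ S, fn Φ (l i * y i) := by
        intro S
        induction S using Finset.induction_on with
        | empty => rw [Finset.sum_empty, Finset.sum_empty, fn_zero]
        | insert a S ha ih =>
          rw [Finset.sum_insert ha, Finset.sum_insert ha, fn_add Φ
            (mul_mem (hLLE _ (hl a)) (hELE _ (hy a)))
            (sum_mem fun i _ => mul_mem (hLLE _ (hl i)) (hELE _ (hy i))), ih]
      exact this _
    rw [h1]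
    refine Finset.sum_congr rfl fun i _ => ?_
    rw [hΦ.lin _ (hl i) _ (hELE _ (hy i)), hΦ.eq _ (hy i)]
  have hmem : ∀ {n : ℕ} {l y : Fin n → Ω}, (∀ i, l i ∈ L) → (∀ i, y i ∈ E) →
      ∑ i, l i * y i ∈ LE := fun hl hy =>
    sum_mem fun i _ => mul_mem (hLLE _ (hl i)) (hELE _ (hy i))
  refine ⟨fun x hx => ?_, fun x hx => ?_⟩
  · -- nilpotency
    obtain ⟨n, l, e, B, F, hl, he, hxy, hB, hFD, hF⟩ := key x hx
    obtain ⟨m, hm⟩ := exists_len hG.comm hG.nil F hFD
    refine ⟨m, KilN.congr hx (hmem hl he) hxy ?_⟩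
    have main : ∀ (j : ℕ) (w : List (Opr v E)), (∀ φ ∈ w, φ ∈ D) → m ≤ w.length + j →
        KilN T L LE j (∑ i, l i * fn w.prod (e i)) := by
      intro j
      induction j with
      | zero =>
        intro w hw hwm
        refine RVal.Ge.sum _ _ fun i _ => hB i _ ?_
        by_cases h1 : ∀ φ ∈ w, φ ∈ F
        · rw [hm w h1 (by omega), fn_opr_zero]
          exact RVal.Ge.zero
        · push Not at h1
          exact word_ge hG (he i) (fun φ hφ hφF => hF φ hφ hφF i) w hw h1
      | succ j ih =>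
        intro w hw hwm φ hφ Φ hΦ
        rw [hact hl (fun i => fn_mem _ _) hΦ]
        rw [hG.span] at hφ
        clear hΦ
        induction hφ using Submodule.span_induction with
        | mem ψ hψ =>
          have h1 := ih (ψ :: w) (by
            intro χ hχ
            rcases List.mem_cons.1 hχ with rfl | h2
            · exact hψ
            · exact hw χ h2) (by rw [List.length_cons]; omega)
          rw [List.prod_cons] at h1
          simpa only [fn_opr_mul _ _ (he _)] using h1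
        | zero =>
          simp only [fn_opr_zero, mul_zero, Finset.sum_const_zero]
          exact KilN.of_ge (zero_mem LE) RVal.Ge.zero _
        | add ψ χ _ _ h1 h2 =>
          simp only [fn_opr_add _ _ (fn_mem _ _), mul_add, Finset.sum_add_distrib]
          exact KilN.add (hmem hl fun i => fn_mem _ _) (hmem hl fun i => fn_mem _ _) h1 h2
        | smul a ψ _ h1 =>
          simp only [fn_opr_smul _ _ (fn_mem _ _), mul_smul_comm, ← Finset.smul_sum]
          exact KilN.smul a (hmem hl fun i => fn_mem _ _) h1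
    have h1 := main m [] (by simp) (by simp)
    simpa only [List.prod_nil, fn_opr_one (he _)] using h1
  · -- finite dimension
    obtain ⟨n, l, e, B, F, hl, he, hxy, hB, hFD, hF⟩ := key x hx
    let ι := F.equivFin
    refine ⟨F.card, fun j => ∑ i, l i * fn ((ι.symm j : F) : Opr v E) (e i),
      fun φ hφ Φ hΦ => ?_⟩
    have h0 : v.Ge 0 (fn Φ x - ∑ i, l i * fn φ (e i)) := by
      rw [← hact hl he hΦ]
      exact fn_near Φ hx (hmem hl he) hxy
    suffices H : ∃ c : F → k, v.Ge 0 (∑ i, l i * fn φ (e i) -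
        ∑ ψ : F, algebraMap k Ω (c ψ) * ∑ i, l i * fn (ψ : Opr v E) (e i)) by
      obtain ⟨c, hc⟩ := H
      refine ⟨fun j => c (ι.symm j), ?_⟩
      have h1 : (∑ j, algebraMap k Ω (c (ι.symm j)) *
          ∑ i, l i * fn ((ι.symm j : F) : Opr v E) (e i)) =
          ∑ ψ : F, algebraMap k Ω (c ψ) * ∑ i, l i * fn (ψ : Opr v E) (e i) :=
        Equiv.sum_comp ι.symm fun ψ : F =>
          algebraMap k Ω (c ψ) * ∑ i, l i * fn (ψ : Opr v E) (e i)
      rw [h1]
      have h2 := h0.add hc
      rwa [sub_add_sub_cancel] at h2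
    clear h0 hΦ
    rw [hG.span] at hφ
    have hcge : ∀ (a : k) (t : Ω), v.Ge 0 t → v.Ge 0 (algebraMap k Ω a * t) := fun a t ht => by
      have := ((Fact.out : Ctx0 k v).ge a).mul ht
      rwa [zero_add] at this
    induction hφ using Submodule.span_induction with
    | mem ψ hψ =>
      by_cases hψF : ψ ∈ F
      · refine ⟨fun χ => if χ = ⟨ψ, hψF⟩ then 1 else 0, ?_⟩
        rw [Finset.sum_eq_single (⟨ψ, hψF⟩ : F)]
        · simp only [if_true, map_one, one_mul, sub_self]
          exact RVal.Ge.zero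
        · intro χ _ hχ
          simp only [if_neg hχ, map_zero, zero_mul]
        · intro h
          exact absurd (Finset.mem_univ _) h
      · refine ⟨fun _ => 0, ?_⟩
        simp only [map_zero, zero_mul, Finset.sum_const_zero, sub_zero]
        exact RVal.Ge.sum _ _ fun i _ => hB i _ (hF ψ hψ hψF i)
    | zero =>
      refine ⟨fun _ => 0, ?_⟩
      simp only [fn_opr_zero, mul_zero, map_zero, zero_mul, Finset.sum_const_zero, sub_zero]
      exact RVal.Ge.zero
    | add ψ χ _ _ h1 h2 =>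
      obtain ⟨c, hc⟩ := h1
      obtain ⟨c', hc'⟩ := h2
      refine ⟨fun ψ => c ψ + c' ψ, ?_⟩
      have h3 := hc.add hc'
      simp only [fn_opr_add _ _ (he _), mul_add, Finset.sum_add_distrib, map_add, add_mul]
      refine (congrArg (v.Ge 0) ?_).mp h3
      ring
    | smul a ψ _ h1 =>
      obtain ⟨c, hc⟩ := h1
      refine ⟨fun ψ => a * c ψ, ?_⟩
      have h3 := hcge a _ hc
      simp only [fn_opr_smul _ _ (he _), mul_smul_comm, ← Finset.smul_sum, map_mul, mul_assoc,
        ← Finset.mul_sum]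
      rw [Algebra.smul_def, ← mul_sub]
      exact h3

variable (p : ℕ) [Fact p.Prime] [CharP k p] [CharP Ω p] [PerfectRing k p] [IsAlgClosed Ω]

/-- `nilp_of_gen'` with the arguments of the skeleton. -/
theorem nilp_of_gen (_h : Oper p v C E T) (hG : OpGen v T D) (hD : Desc v C E T L LE) :
    Nilp v T L LE :=
  nilp_of_gen' hG hD

end Main

end Pool.Agent.TWC
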