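import Pool.Agent.Lib.TWC.DescDefs

/-!
# TANK W, class C, row B3c: the limits of `E` in a tower of length two

* `spn_of_mem`: the limits of `E` in `E<y>` are in the span of `y`;
* `spn_two`: if `z` is a limit of `E`, the limits of `E` in `E<y><z>` are in the span of `y` and `z`.
-/

set_option autoImplicit false

open Polynomial TensorProduct

namespace Pool.Agent.TWC

open Pool.Agent.H15JM (RVal)
open Pool.Agent.LU1 (VPos adj)
open Pool.Agent.D2 (Ctx0)
open Pool.Agent.D2P (hen clI mem_clI)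
open Pool.Agent.TWM

universe u

variable {k Ω : Type u} [Field k] [Field Ω] [Algebra k Ω] {v : RVal Ω} [Fact (Ctx0 k v)]
  {C E L LE : IntermediateField k Ω} {z : Ω} (p : ℕ) [Fact p.Prime] [CharP k p] [CharP Ω p]
  [PerfectRing k p] [IsAlgClosed Ω] {T : Submodule k (Opr v E)} {D : Set (Opr v E)}

/-! ### Limits -/

omit [IsAlgClosed Ω] in
theorem cf_zero_opr (f : Polynomial Ω) : cf (0 : Opr v E) f = 0 := by
  ext i
  rw [coeff_cf, coeff_zero, fn]
  split_ifs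
  · rfl
  · rfl

omit [Fact (Ctx0 k v)] [IsAlgClosed Ω] in
theorem Lim.of_gt' {r : ℝ} {x y : Ω} (hx : Lim v E r x) (h : v.Ge r (x - y)) : Lim v E r y := by
  intro ε hε
  obtain ⟨a, ha, h1⟩ := hx ε hε
  refine ⟨a, ha, ?_⟩
  rw [show y - a = (x - a) - (x - y) by ring]
  exact h1.sub (h.mono (by linarith))

omit [Fact (Ctx0 k v)] [IsAlgClosed Ω] in
theorem Lim.sub' {r : ℝ} {x y : Ω} (hx : Lim v E r x) (hy : Lim v E r y) : Lim v E r (x - y) := by
  intro ε hε
  obtain ⟨a, ha, h1⟩ := hx ε hε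
  obtain ⟨b, hb, h2⟩ := hy ε hε
  refine ⟨a - b, sub_mem ha hb, ?_⟩
  rw [show x - y - (a - b) = (x - a) - (y - b) by ring]
  exact h1.sub h2

omit [CharP k p] [PerfectRing k p] [IsAlgClosed Ω] in
theorem Lim.span' {x : Ω} (hx : Lim v E 0 x) (n : ℕ) (c : ℕ → k) :
    Lim v E 0 (∑ i ∈ Finset.range n, algebraMap k Ω (c i) * x ^ p ^ i) := by
  have hk : Ctx0 k v := Fact.out
  obtain ⟨m, hm, h⟩ := Lim.exists_cau hx
  refine Lim.of_nul (m := fun j => ∑ i ∈ Finset.range n, algebraMap k Ω (c i) * m j ^ p ^ i)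
    (fun j => sum_mem fun i _ => mul_mem (E.algebraMap_mem _) (pow_mem (hm.mem j) _)) ?_
  refine (Nul.sum_aux p n hk c h).congr fun j => ?_
  rw [← Finset.sum_sub_distrib]
  refine Finset.sum_congr rfl fun i _ => ?_
  rw [sub_pow_char_pow, mul_sub]

omit [Fact (Ctx0 k v)] [Fact (Nat.Prime p)] [CharP k p] [CharP Ω p] [PerfectRing k p]
  [IsAlgClosed Ω] in
theorem Spn.congr {A : IntermediateField k Ω} {y x x' : Ω} (h : Spn p v A y x)
    (hx : v.Ge 0 (x' - x)) : Spn p v A y x' := by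
  obtain ⟨n, c, a, ha, h1⟩ := h
  refine ⟨n, c, a, ha, ?_⟩
  rw [show x' - ∑ i ∈ Finset.range n, algebraMap k Ω (c i) * y ^ p ^ i - a =
    (x' - x) + (x - ∑ i ∈ Finset.range n, algebraMap k Ω (c i) * y ^ p ^ i - a) by ring]
  exact hx.add h1

omit [CharP k p] [PerfectRing k p] in
/-- The limits of `E` in `E<y>`. -/
theorem spn_of_mem {y x : Ω} (hy : TL v E y 0) (hx : x ∈ cadj v E y) (hl : Lim v E 0 x) :
    Spn p v E y x := by
  obtain ⟨e, he, N, c, h⟩ := germ_res Fact.out hy p hx hl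
  refine ⟨N, c, e, he, ?_⟩
  rw [show x - ∑ i ∈ Finset.range N, algebraMap k Ω (c i) * y ^ p ^ i - e =
    x - (e + ∑ i ∈ Finset.range N, algebraMap k Ω (c i) * y ^ p ^ i) by ring]
  exact h.ge

omit [CharP k p] [PerfectRing k p] in
/-- If `z` is a limit of `E`, the limits of `E` in `E<y><z>` are in the span of `y` and `z`. -/
theorem spn_two (_hE : Cld v E) {y : Ω} (hF : Fib v E LE y z 0 0) (hz : Lim v E 0 z) {x : Ω}
    (hx : x ∈ LE) (hl : Lim v E 0 x) : ∃ (n : ℕ) (c : ℕ → k),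
      Spn p v E y (x - ∑ i ∈ Finset.range n, algebraMap k Ω (c i) * z ^ p ^ i) := by
  have hk : Ctx0 k v := Fact.out
  have hA : E ≤ cadj v E y := le_cadj v E y
  have hlA : Lim v (cadj v E y) 0 x := fun ε hε => by
    obtain ⟨a, ha, h1⟩ := hl ε hε
    exact ⟨a, hA ha, h1⟩
  rw [hF.eq] at hx
  obtain ⟨e, he, N, c, hres⟩ := germ_res hk hF.tz p hx hlA
  refine ⟨N, c, ?_⟩
  have h1 : Lim v E 0 (x - ∑ i ∈ Finset.range N, algebraMap k Ω (c i) * z ^ p ^ i) :=
    Lim.sub' hl (Lim.span' p hz N c)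
  have h2 : v.Ge 0 (x - ∑ i ∈ Finset.range N, algebraMap k Ω (c i) * z ^ p ^ i - e) := by
    rw [show x - ∑ i ∈ Finset.range N, algebraMap k Ω (c i) * z ^ p ^ i - e =
      x - (e + ∑ i ∈ Finset.range N, algebraMap k Ω (c i) * z ^ p ^ i) by ring]
    exact hres.ge
  exact Spn.congr p (spn_of_mem p hF.ty he (Lim.of_gt' h1 h2)) h2

end Pool.Agent.TWC
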