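import Pool.Agent.Lib.TWC.Base

/-!
# TANK W, CLASS C, row B3b: without operators nothing is strictly dominated
-/

set_option autoImplicit false

open Polynomial TensorProduct

namespace Pool.Agent.TWC

open Pool.Agent.H15JM (RVal)
open Pool.Agent.LU1 (VPos adj)
open Pool.Agent.D2 (Ctx0)
open Pool.Agent.TWM

universe u

section Alg

open Submodule

universe w

variable {k : Type u} {G : Type w} [Field k] [AddCommGroup G] [Module k G]
variable {σ : k →+* k} [RingHomSurjective σ] {F : G →ₛₗ[σ] G} {Y : Submodule k G}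

/-- If `F^b Y ⊆ ∑_(a < b) F^a Y` this space is stable. -/
theorem map_V_le_of_nb {b : ℕ} (h : ∀ y ∈ Y, F^[b] y ∈ V F Y b) : (V F Y b).map F ≤ V F Y b := by
  have key : ∀ a c : ℕ, a + c ≤ b + 1 → ∀ x ∈ V F Y a, F^[c] x ∈ V F Y b := by
    intro a
    induction a with
    | zero =>
      intro c _ x hx
      rw [V_zero, Submodule.mem_bot] at hx
      rw [hx, it_zero]
      exact zero_mem _
    | succ a ih =>
      intro c hc x hx
      rw [V_succ] at hx
      obtain ⟨y, hy, z, hz, rfl⟩ := Submodule.mem_sup.1 hx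
      obtain ⟨x', hx', rfl⟩ := Submodule.mem_map.1 hz
      rw [it_add]
      refine add_mem ?_ ?_
      · rcases Nat.lt_or_ge c b with hcb | hcb
        · exact V_mono (by omega) (it_mem_V (le_V 0 hy) c)
        · obtain rfl : c = b := by omega
          exact h y hy
      · rw [← Function.iterate_succ_apply]
        exact ih (c + 1) (by omega) x' hx'
  refine (map_V_le b).trans fun x hx => ?_
  exact key (b + 1) 0 (by omega) x hx

theorem le_Sat_bot_nb (hY : Y.FG) {b : ℕ} (hb : 1 ≤ b) (h : ∀ y ∈ Y, F^[b] y ∈ V F Y b) :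
    Y ≤ Sat F ⊥ := by
  intro y hy
  obtain ⟨c, rfl⟩ : ∃ c, b = c + 1 := ⟨b - 1, by omega⟩
  exact ⟨V F Y (c + 1), V_fg hY _, fun d => by
    rw [bot_sup_eq]
    exact it_mem (map_V_le_of_nb h) (le_V c hy) d⟩

end Alg

variable {k Ω : Type u} [Field k] [Field Ω] [Algebra k Ω] {v : RVal Ω} [Fact (Ctx0 k v)]
  {E : IntermediateField k Ω} (p : ℕ)

theorem oper_bot [Fact p.Prime] (hE : Cld v E) (hE' : ∀ a ∈ E, ∃ b ∈ E, b ^ p = a) :
    Oper p v E E (⊥ : Submodule k (Opr v E)) where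
  le := le_rfl
  cldC := hE
  cld := hE
  perf := hE'
  mul φ hφ ψ hψ := by
    rw [Submodule.mem_bot] at hφ hψ ⊢
    rw [hφ, zero_mul]
  tw φ hφ := by
    refine ⟨0, zero_mem _, fun x => ?_⟩
    rw [(Submodule.mem_bot k).1 hφ]
    change (0 : E) = (0 : E) ^ p
    rw [zero_pow (Fact.out : p.Prime).ne_zero]
  lin φ hφ c _ x := by
    rw [(Submodule.mem_bot k).1 hφ]
    change (0 : E) = c * (0 : E)
    rw [mul_zero]
  one φ hφ := by
    rw [(Submodule.mem_bot k).1 hφ]
    rfl

theorem nsd_bot [Fact p.Prime] [CharP k p] [CharP Ω p] [PerfectRing k p] (hE : Cld v E)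
    (hE' : ∀ a ∈ E, ∃ b ∈ E, b ^ p = a) : NSD p (oper_bot p hE hE') := by
  intro Y hY b hb h
  have hact : act ((oper_bot p hE hE').ops p) Y ≤ ⊥ := by
    rw [act_le]
    rintro _ ⟨φ, hφ, rfl⟩ x _
    have h1 : φ = 0 := (Submodule.mem_bot k).1 hφ
    subst h1
    rw [Submodule.mem_bot]
    change (MM.actHom v E) 0 x = 0
    rw [map_zero]
    rfl
  have h1 : Y ⊔ act ((oper_bot p hE hE').ops p) Y = Y := by
    rw [le_bot_iff.1 hact, sup_bot_eq]
  rw [h1] at h
  exact le_Sat_bot_nb hY hb h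

end Pool.Agent.TWC
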