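import Pool.Agent.Lib.TWC.Lim

/-!
# TANK W, CLASS C, row B3a: scalar equations have solutions in the formal limits
-/

set_option autoImplicit false

open Polynomial

namespace Pool.Agent.TWC

open Pool.Agent.H15JM (RVal)
open Pool.Agent.D2 (Ctx0)
open Pool.Agent.TWM

universe u

namespace Surj

variable {k Ω : Type u} [Field k] [Field Ω] [Algebra k Ω] {v : RVal Ω}

/-- The iterates. -/
noncomputable def wit (p : ℕ) (rt : Ω → Ω) (n : ℕ) (lam : ℕ → k) : ℕ → Ω → Ω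
  | 0, _ => 0
  | j + 1, e => rt (e + ∑ a ∈ Finset.range n, (lam a • wit p rt n lam j e) ^ p ^ a)

variable {E : IntermediateField k Ω} {p : ℕ} [hp : Fact p.Prime] {n : ℕ} {lam : ℕ → k}

theorem smul_ge (h : Ctx0 k v) (a : k) {c : ℝ} {x : Ω} (hx : v.Ge c x) : v.Ge c (a • x) := by
  rw [Algebra.smul_def]
  have := (h.ge a).mul hx
  rwa [zero_add] at this

omit hp in
theorem ge_pow' {c : ℝ} {x : Ω} (hx : v.Ge c x) (a : ℕ) : v.Ge ((p : ℝ) ^ a * c) (x ^ p ^ a) := by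
  have := ge_pow hx (p ^ a)
  push_cast at this
  exact this

theorem ge_of_pow' {c : ℝ} {x : Ω} {a : ℕ} (hx : v.Ge ((p : ℝ) ^ a * c) (x ^ p ^ a)) :
    v.Ge c x := by
  intro h0
  have h1 := hx (pow_ne_zero _ h0)
  rw [v.map_pow h0] at h1
  push_cast at h1
  have h2 : (0 : ℝ) < (p : ℝ) ^ a := pow_pos (by exact_mod_cast hp.out.pos) a
  exact le_of_mul_le_mul_left h1 h2

/-- the sum -/
theorem sum_ge (h : Ctx0 k v) {c : ℝ} (hc : c ≤ 0) {d : Ω} (hd : v.Ge c d) :
    v.Ge ((p : ℝ) ^ n * (c / p)) (∑ a ∈ Finset.range n, (lam a • d) ^ p ^ a) := by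
  refine RVal.Ge.sum _ _ fun a ha => ?_
  have hp0 : (0 : ℝ) < p := by exact_mod_cast hp.out.pos
  have hp1 : (1 : ℝ) ≤ p := by exact_mod_cast hp.out.one_le
  refine (ge_pow' (p := p) (smul_ge h (lam a) hd) a).mono ?_
  have h1 : (p : ℝ) ^ (a + 1) ≤ (p : ℝ) ^ n := pow_le_pow_right₀ hp1 (Finset.mem_range.1 ha)
  have h2 : (p : ℝ) ^ n * (c / p) ≤ (p : ℝ) ^ (a + 1) * (c / p) :=
    mul_le_mul_of_nonpos_right h1 (div_nonpos_of_nonpos_of_nonneg hc hp0.le)
  refine h2.trans (le_of_eq ?_)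
  rw [pow_succ]
  field_simp

section

variable [CharP Ω p]

theorem sum_sub (d d' : Ω) : ∑ a ∈ Finset.range n, (lam a • d) ^ p ^ a -
    ∑ a ∈ Finset.range n, (lam a • d') ^ p ^ a =
    ∑ a ∈ Finset.range n, (lam a • (d - d')) ^ p ^ a := by
  rw [← Finset.sum_sub_distrib]
  refine Finset.sum_congr rfl fun a _ => ?_
  rw [← sub_pow_char_pow, smul_sub]

variable {rt : Ω → Ω}

omit hp [CharP Ω p] in
theorem wit_mem (hrt : ∀ a ∈ E, rt a ∈ E) {e : Ω} (he : e ∈ E) (j : ℕ) :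
    wit p rt n lam j e ∈ E := by
  induction j with
  | zero => exact zero_mem E
  | succ j ih =>
    refine hrt _ (add_mem he (sum_mem fun a _ => pow_mem (E.smul_mem ih) _))

omit hp [CharP Ω p] in
theorem wit_pow (hrt : ∀ a ∈ E, rt a ∈ E) (hrt' : ∀ a ∈ E, rt a ^ p ^ n = a) {e : Ω} (he : e ∈ E)
    (j : ℕ) : wit p rt n lam (j + 1) e ^ p ^ n =
      e + ∑ a ∈ Finset.range n, (lam a • wit p rt n lam j e) ^ p ^ a :=
  hrt' _ (add_mem he (sum_mem fun a _ => pow_mem (E.smul_mem (wit_mem hrt he j)) _))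

/-- the difference of two iterates, the same number of steps -/
theorem wit_diff (h : Ctx0 k v) (hrt : ∀ a ∈ E, rt a ∈ E) (hrt' : ∀ a ∈ E, rt a ^ p ^ n = a)
    {e e' : Ω} (he : e ∈ E) (he' : e' ∈ E) {ε : ℝ} (hε : 0 ≤ ε) (hd : v.Ge (-ε) (e - e')) (j : ℕ) :
    v.Ge (-ε) (wit p rt n lam j e - wit p rt n lam j e') := by
  have hp1 : (1 : ℝ) ≤ p := by exact_mod_cast hp.out.one_le
  have hp0 : (0 : ℝ) < p := by linarith
  have hpn : (1 : ℝ) ≤ (p : ℝ) ^ n := one_le_pow₀ hp1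
  induction j with
  | zero =>
    change v.Ge (-ε) ((0 : Ω) - 0)
    rw [sub_zero]
    exact RVal.Ge.zero
  | succ j ih =>
    refine ge_of_pow' (p := p) (a := n) ?_
    rw [sub_pow_char_pow, wit_pow hrt hrt' he, wit_pow hrt hrt' he', add_sub_add_comm, sum_sub]
    refine (hd.mono ?_).add ((sum_ge h (by linarith) ih).mono ?_)
    · nlinarith
    · refine mul_le_mul_of_nonneg_left ?_ (by positivity)
      rw [neg_div, neg_le_neg_iff]
      exact div_le_self hε hp1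

/-- one step more -/
theorem wit_step (h : Ctx0 k v) (hrt : ∀ a ∈ E, rt a ∈ E) (hrt' : ∀ a ∈ E, rt a ^ p ^ n = a)
    {e : Ω} (he : e ∈ E) {B : ℝ} (hB : 0 ≤ B) (hd : v.Ge (-B) e) (j : ℕ) :
    v.Ge (-(B / (p : ℝ) ^ j)) (wit p rt n lam (j + 1) e - wit p rt n lam j e) := by
  have hp1 : (1 : ℝ) ≤ p := by exact_mod_cast hp.out.one_le
  have hp0 : (0 : ℝ) < p := by linarith
  have hpn : (1 : ℝ) ≤ (p : ℝ) ^ n := one_le_pow₀ hp1
  induction j with
  | zero =>
    rw [pow_zero, div_one]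
    change v.Ge (-B) (wit p rt n lam (0 + 1) e - 0)
    rw [sub_zero]
    refine ge_of_pow' (p := p) (a := n) ?_
    rw [wit_pow hrt hrt' he]
    have h1 : ∑ a ∈ Finset.range n, (lam a • wit p rt n lam 0 e) ^ p ^ a = 0 := by
      refine Finset.sum_eq_zero fun a _ => ?_
      change (lam a • (0 : Ω)) ^ p ^ a = 0
      rw [smul_zero, zero_pow (pow_ne_zero _ hp.out.ne_zero)]
    rw [h1, add_zero]
    exact hd.mono (by nlinarith)
  | succ j ih =>
    refine ge_of_pow' (p := p) (a := n) ?_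
    rw [sub_pow_char_pow, wit_pow hrt hrt' he, wit_pow hrt hrt' he, add_sub_add_left_eq_sub,
      sum_sub]
    refine (sum_ge h (neg_nonpos.2 (by positivity)) ih).mono (le_of_eq ?_)
    rw [pow_succ]
    field_simp

/-- many steps more -/
theorem wit_steps (h : Ctx0 k v) (hrt : ∀ a ∈ E, rt a ∈ E) (hrt' : ∀ a ∈ E, rt a ^ p ^ n = a)
    {e : Ω} (he : e ∈ E) {B : ℝ} (hB : 0 ≤ B) (hd : v.Ge (-B) e) (j i : ℕ) :
    v.Ge (-(B / (p : ℝ) ^ j)) (wit p rt n lam (j + i) e - wit p rt n lam j e) := by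
  have hp1 : (1 : ℝ) ≤ p := by exact_mod_cast hp.out.one_le
  have hp0 : (0 : ℝ) < p := by linarith
  induction i with
  | zero =>
    rw [add_zero, sub_self]
    exact RVal.Ge.zero
  | succ i ih =>
    have h1 : v.Ge (-(B / (p : ℝ) ^ j)) (wit p rt n lam (j + i + 1) e - wit p rt n lam (j + i) e) := by
      refine (wit_step (lam := lam) h hrt hrt' he hB hd (j + i)).mono ?_
      rw [neg_le_neg_iff]
      refine div_le_div_of_nonneg_left hB (by positivity) ?_
      exact pow_le_pow_right₀ hp1 (by omega)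
    have h2 := h1.add ih
    rwa [sub_add_sub_cancel] at h2

end

end Surj

open Surj

variable {k Ω : Type u} [Field k] [Field Ω] [Algebra k Ω] {v : RVal Ω} [hc : Fact (Ctx0 k v)]
  {E : IntermediateField k Ω} (p : ℕ) [hp : Fact p.Prime] [CharP k p] [CharP Ω p]

omit [CharP k p] in
/-- **Row B3a.** Scalar equations have solutions in `L(E)`. -/
theorem surj (hE : ∀ a ∈ E, ∃ b ∈ E, b ^ p = a) (n : ℕ) (lam : ℕ → k) {m : ℕ → Ω}
    (hm : Cau v E m) : ∃ m', Cau v E m' ∧ Nul v (fun i => m' i ^ p ^ n -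
      ∑ a ∈ Finset.range n, (lam a • m' i) ^ p ^ a - m i) := by
  classical
  have h := hc.out
  have hp1 : (1 : ℝ) < p := by exact_mod_cast hp.out.one_lt
  have hp0 : (0 : ℝ) < p := by linarith
  have hroot : ∀ a ∈ E, ∃ b ∈ E, b ^ p ^ n = a := by
    induction n with
    | zero => exact fun a ha => ⟨a, ha, by rw [pow_zero, pow_one]⟩
    | succ n ih =>
      intro a ha
      obtain ⟨b, hb, h1⟩ := ih a ha
      obtain ⟨b', hb', h2⟩ := hE b hb
      exact ⟨b', hb', by rw [pow_succ', pow_mul, h2, h1]⟩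
  choose! rt hrt hrt' using hroot
  -- a bound for the sequence
  obtain ⟨N₀, hN₀⟩ := hm.cau 1 one_pos
  obtain ⟨B, hB1, hB⟩ : ∃ B : ℝ, 1 ≤ B ∧ ∀ i, N₀ ≤ i → v.Ge (-B) (m i) := by
    refine ⟨max 1 (|v (m N₀)|), le_max_left _ _, fun i hi => ?_⟩
    have h1 := hN₀ i N₀ hi le_rfl
    have h2 : v.Ge (-(max 1 (|v (m N₀)|))) (m N₀) := by
      intro _
      have := neg_abs_le (v (m N₀))
      have := le_max_right 1 (|v (m N₀)|)
      linarith
    have h1' : v.Ge (-(max 1 (|v (m N₀)|))) (m i - m N₀) := by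
      refine h1.mono ?_
      have := le_max_left 1 (|v (m N₀)|)
      linarith
    have h3 := h1'.add h2
    rwa [sub_add_cancel] at h3
  have hB0 : 0 ≤ B := by linarith
  have hsmall : ∀ ε : ℝ, 0 < ε → ∃ J : ℕ, ∀ j, J ≤ j → B / (p : ℝ) ^ j ≤ ε := by
    intro ε hε
    obtain ⟨J, hJ⟩ := exists_nat_gt (B / ε)
    refine ⟨J, fun j hj => ?_⟩
    have h1 : (j : ℝ) ≤ (p : ℝ) ^ j := by
      have h2 : j < p ^ j := Nat.lt_pow_self hp.out.one_lt
      exact_mod_cast h2.le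
    have h3 : (J : ℝ) ≤ j := by exact_mod_cast hj
    rw [div_le_iff₀ (by positivity)]
    rw [div_lt_iff₀ hε] at hJ
    nlinarith
  refine ⟨fun i => wit p rt n lam i (m i), ⟨fun i => wit_mem hrt (hm.mem i) i, fun ε hε => ?_⟩,
    fun ε hε => ?_⟩
  · obtain ⟨J, hJ⟩ := hsmall ε hε
    obtain ⟨N₁, hN₁⟩ := hm.cau ε hε
    have key : ∀ i j, max (max N₀ N₁) J ≤ j → j ≤ i →
        v.Ge (-ε) (wit p rt n lam i (m i) - wit p rt n lam j (m j)) := by
      intro i j hj hij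
      obtain ⟨l, rfl⟩ := Nat.exists_eq_add_of_le hij
      have hN₀j : N₀ ≤ j := ((le_max_left _ _).trans (le_max_left _ _)).trans hj
      have hN₁j : N₁ ≤ j := ((le_max_right _ _).trans (le_max_left _ _)).trans hj
      have hJj : J ≤ j := (le_max_right _ _).trans hj
      have h1 : v.Ge (-ε) (wit p rt n lam (j + l) (m (j + l)) - wit p rt n lam j (m (j + l))) := by
        refine (wit_steps (lam := lam) h hrt hrt' (hm.mem (j + l)) hB0 (hB _ (by omega)) j l).mono ?_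
        rw [neg_le_neg_iff]
        exact hJ j hJj
      have h2 := wit_diff (lam := lam) h hrt hrt' (hm.mem (j + l)) (hm.mem j) hε.le
        (hN₁ _ _ (by omega) hN₁j) j
      have h3 := h1.add h2
      rwa [sub_add_sub_cancel] at h3
    refine ⟨max (max N₀ N₁) J, fun i j hi hj => ?_⟩
    rcases le_total j i with hij | hij
    · exact key i j hj hij
    · exact ge_sub_comm (key j i hi hij)
  · have hpn : (0 : ℝ) < (p : ℝ) ^ n := by positivity
    obtain ⟨J, hJ⟩ := hsmall (ε / (p : ℝ) ^ n) (by positivity)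
    refine ⟨max N₀ J, fun i hi => ?_⟩
    have hN₀i : N₀ ≤ i := (le_max_left _ _).trans hi
    have h1 := wit_pow (lam := lam) hrt hrt' (hm.mem i) i
    have h2 : wit p rt n lam i (m i) ^ p ^ n -
        ∑ a ∈ Finset.range n, (lam a • wit p rt n lam i (m i)) ^ p ^ a - m i =
        -((wit p rt n lam (i + 1) (m i) - wit p rt n lam i (m i)) ^ p ^ n) := by
      have h3 : (wit p rt n lam (i + 1) (m i) - wit p rt n lam i (m i)) ^ p ^ n =
          wit p rt n lam (i + 1) (m i) ^ p ^ n - wit p rt n lam i (m i) ^ p ^ n :=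
        sub_pow_char_pow _ _ _
      rw [h3, h1]
      ring
    change v.Ge (-ε) (wit p rt n lam i (m i) ^ p ^ n -
        ∑ a ∈ Finset.range n, (lam a • wit p rt n lam i (m i)) ^ p ^ a - m i)
    rw [h2]
    refine RVal.Ge.neg ((ge_pow' (p := p) (wit_step (lam := lam) h hrt hrt' (hm.mem i) hB0
      (hB i hN₀i) i) n).mono ?_)
    have h3 := hJ i ((le_max_right _ _).trans hi)
    rw [le_div_iff₀ hpn] at h3
    nlinarith

end Pool.Agent.TWC
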