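import Pool.Agent.Lib.TWC.B2
import Pool.Agent.Lib.TWC.Surj
import Pool.Agent.Lib.TWC.NsdBot
import Pool.Agent.Lib.TWC.DichA

/-!
# TANK W, class C, row B3c: the limits of `E` in a tower of length two

* `dich`: if `E<y><z>` contains a limit of `E` which is not in the span of `y`, `z` may be taken to
  be a limit of `E`.
-/

set_option autoImplicit false

open Polynomial TensorProduct

namespace Pool.Agent.TWC

open Pool.Agent.H15JM (RVal)
open Pool.Agent.LU1 (VPos adj)
open Pool.Agent.D2 (Ctx0)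
open Pool.Agent.D2P (hen clI mem_clI)
open Pool.Agent.TWM

universe u

variable {k Ω : Type u} [Field k] [Field Ω] [Algebra k Ω] {v : RVal Ω} [Fact (Ctx0 k v)]
  {C E L LE : IntermediateField k Ω} {z : Ω} (p : ℕ) [Fact p.Prime] [CharP k p] [CharP Ω p]
  [PerfectRing k p] [IsAlgClosed Ω] {T : Submodule k (Opr v E)} {D : Set (Opr v E)}

/-- If `E<y><z>` contains a limit of `E` which is not in the span of `y`, then `z` may be taken to
be a limit of `E`. -/
theorem dich (hE : Cld v E) (hE' : ∀ a ∈ E, ∃ b ∈ E, b ^ p = a) {y : Ω}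
    (hF : Fib v E LE y z 0 0) {x : Ω} (hx : x ∈ LE) (hl : Lim v E 0 x) (hn : ¬ Spn p v E y x) :
    ∃ b ∈ cadj v E y, Lim v E 0 (z - b) := by
  classical
  have hk : Ctx0 k v := Fact.out
  have hA : E ≤ cadj v E y := le_cadj v E y
  have hlA : Lim v (cadj v E y) 0 x := fun ε hε => by
    obtain ⟨a, ha, h1⟩ := hl ε hε
    exact ⟨a, hA ha, h1⟩
  rw [hF.eq] at hx
  obtain ⟨e, he, N, c, hres⟩ := germ_res hk hF.tz p hx hlA
  -- the degree of `q`
  obtain ⟨n, hnN, hcn, hmax⟩ : ∃ n, n < N ∧ c n ≠ 0 ∧ ∀ i, n < i → i < N → c i = 0 := by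
    set S := (Finset.range N).filter fun i => c i ≠ 0 with hS
    have hne : S.Nonempty := by
      by_contra h0
      rw [Finset.not_nonempty_iff_eq_empty] at h0
      have h1 : ∀ i ∈ Finset.range N, c i = 0 := by
        intro i hi
        by_contra h2
        have : i ∈ S := Finset.mem_filter.2 ⟨hi, h2⟩
        rw [h0] at this
        exact absurd this (Finset.notMem_empty i)
      have h2 : ∑ i ∈ Finset.range N, algebraMap k Ω (c i) * z ^ p ^ i = 0 :=
        Finset.sum_eq_zero fun i hi => by rw [h1 i hi, map_zero, zero_mul]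
      rw [h2, add_zero] at hres
      exact hn (Spn.congr p (spn_of_mem p hF.ty he (Lim.of_gt' hl hres.ge)) hres.ge)
    refine ⟨S.max' hne, ?_, ?_, ?_⟩
    · exact Finset.mem_range.1 (Finset.mem_filter.1 (S.max'_mem hne)).1
    · exact (Finset.mem_filter.1 (S.max'_mem hne)).2
    · intro i hi hiN
      by_contra h1
      exact absurd (S.le_max' i (Finset.mem_filter.2 ⟨Finset.mem_range.2 hiN, h1⟩)) (not_le.2 hi)
  have hsum : ∑ i ∈ Finset.range N, algebraMap k Ω (c i) * z ^ p ^ i =
      ∑ i ∈ Finset.range n, algebraMap k Ω (c i) * z ^ p ^ i +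
        algebraMap k Ω (c n) * z ^ p ^ n := by
    rw [← Finset.sum_range_succ]
    symm
    refine Finset.sum_subset (Finset.range_subset_range.2 hnN) fun i hi hi' => ?_
    rw [Finset.mem_range] at hi hi'
    rw [hmax i (by omega) hi, map_zero, zero_mul]
  rw [hsum] at hres
  have hcn' : algebraMap k Ω (c n) ≠ 0 := (_root_.map_ne_zero _).2 hcn
  set d : k := (c n)⁻¹ with hd
  have hdc : algebraMap k Ω d * algebraMap k Ω (c n) = 1 := by
    rw [← map_mul, hd, inv_mul_cancel₀ hcn, map_one]
  have hdge : ∀ {b : ℝ} {u : Ω}, v.Ge b u → v.Ge b (algebraMap k Ω d * u) := fun hu => by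
    have := (hk.ge d).mul hu
    rwa [zero_add] at this
  rcases Nat.eq_zero_or_pos n with hn0 | hn1
  · -- degree `0`
    subst hn0
    rw [Finset.range_zero, Finset.sum_empty, zero_add, pow_zero, pow_one] at hres
    refine ⟨- (algebraMap k Ω d * e), neg_mem (mul_mem (IntermediateField.algebraMap_mem _ _) he),
      ?_⟩
    have h1 : Lim v E 0 (algebraMap k Ω d * x) := by
      intro ε hε
      obtain ⟨a, ha, h1⟩ := hl ε hε
      refine ⟨algebraMap k Ω d * a, mul_mem (E.algebraMap_mem _) ha, ?_⟩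
      rw [← mul_sub]
      exact hdge h1
    refine Lim.of_gt' h1 ?_
    have h2 : algebraMap k Ω d * x - (z - -(algebraMap k Ω d * e)) =
        algebraMap k Ω d * (x - (e + algebraMap k Ω (c 0) * z)) := by
      linear_combination z * hdc
    rw [h2]
    exact hdge hres.ge
  -- the approximations
  obtain ⟨ζ, hζ, hζn⟩ := Lim.exists_cau hF.tz.lim
  choose f hf hfζ using fun i => hF.ty.dense (hζ.mem i) 0
  have hfz : Nul v (fun i => z - (f i).eval y) := by
    refine (hζn.add (Nul.of_ge hfζ)).congr fun i => ?_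
    ring
  obtain ⟨m, hm, hmn⟩ := Lim.exists_cau hl
  obtain ⟨g, hg, hge⟩ := hF.ty.dense he 0
  -- the scalars
  have hlam : ∀ a : ℕ, ∃ l : k, l ^ p ^ a = - (d * c a) := by
    intro a
    obtain ⟨l, hl⟩ := (bijective_iterateFrobenius k p a).2 (- (d * c a))
    exact ⟨l, by rw [← hl, iterateFrobenius_def]⟩
  choose lam hlam using hlam
  -- the solution in `L(E)`
  have hdm : Cau v E (fun i => algebraMap k Ω d * m i) := by
    refine ⟨fun i => mul_mem (E.algebraMap_mem _) (hm.mem i), fun ε hε => ?_⟩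
    obtain ⟨M, hM⟩ := hm.cau ε hε
    refine ⟨M, fun i j hi hj => ?_⟩
    rw [← mul_sub]
    exact hdge (hM i j hi hj)
  obtain ⟨m', hm', hm'n⟩ := surj p hE' n lam hdm
  set X : Unit → ℕ → Polynomial Ω := fun _ i => f i - Polynomial.C (m' i) with hX
  have hXE : ∀ i, X () i ∈ PI E := fun i => sub_mem (hf i) (C_mem_PI (hm'.mem i))
  have hXe : ∀ i, (X () i).eval y = (f i).eval y - m' i := fun i => by
    rw [hX]
    simp
  have hR : Rel p (⊥ : Submodule k (Opr v E)) y X n (fun a _ _ => lam a) (fun _ _ _ => 0)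
      (fun _ => - (Polynomial.C (algebraMap k Ω d) * g)) := by
    refine ⟨fun _ => ⟨hXE, fun ε hε => ?_⟩, hn1, fun _ _ _ => zero_mem _,
      fun _ => neg_mem (mul_mem (C_mem_PI (E.algebraMap_mem _)) hg), fun _ => ?_⟩
    · obtain ⟨M, hM⟩ := hfz ε hε
      obtain ⟨M', hM'⟩ := hm'.cau ε hε
      refine ⟨max M M', fun i j hi hj => ?_⟩
      have h1 := hM i ((le_max_left _ _).trans hi)
      have h2 := hM j ((le_max_left _ _).trans hj)
      have h3 := hM' i j ((le_max_right _ _).trans hi) ((le_max_right _ _).trans hj)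
      rw [eval_sub, hXe, hXe, show (f i).eval y - m' i - ((f j).eval y - m' j) =
        ((z - (f j).eval y) - (z - (f i).eval y)) - (m' i - m' j) by ring]
      exact (h2.sub h1).sub h3
    · have hQn : ∀ u : ℕ → Ω, Nul v u → Nul v (fun i => u i ^ p ^ n -
          ∑ a ∈ Finset.range n, (lam a • u i) ^ p ^ a) := by
        intro u hu
        refine (hu.pow _).sub (Nul.sum _ _ fun a _ => ?_)
        refine ((hu.mul_ge (c := fun _ => algebraMap k Ω (lam a)) fun _ => hk.ge _).pow
          (p ^ a)).congr fun i => ?_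
        rw [Algebra.smul_def]
      refine (((((hQn _ hfz).neg.sub hm'n).add (hmn.mul_ge (c := fun _ => algebraMap k Ω d)
        fun _ => hk.ge d)).sub ((Nul.of_ge (v := v) (x := fun _ => algebraMap k Ω d *
          (e - g.eval y)) fun _ => hdge hge))).sub (Nul.of_ge (v := v) (x := fun _ =>
          algebraMap k Ω d * (x - (e + (∑ i ∈ Finset.range n, algebraMap k Ω (c i) * z ^ p ^ i +
            algebraMap k Ω (c n) * z ^ p ^ n)))) fun _ => hdge hres.ge)).congr fun i => ?_
      have hcf : (cf (0 : Opr v E) (X () i)).eval y = 0 := by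
        rw [cf_zero_opr, eval_zero]
      have h1 : ∀ w : Ω, ∑ a ∈ Finset.range n, (lam a • w) ^ p ^ a =
          - (algebraMap k Ω d * ∑ a ∈ Finset.range n, algebraMap k Ω (c a) * w ^ p ^ a) := by
        intro w
        rw [Finset.mul_sum, ← Finset.sum_neg_distrib]
        refine Finset.sum_congr rfl fun a _ => ?_
        rw [Algebra.smul_def, mul_pow, ← map_pow, hlam, map_neg, map_mul]
        ring
      have h2 : ∀ w w' : Ω, ∑ a ∈ Finset.range n, algebraMap k Ω (c a) * (w - w') ^ p ^ a =
          ∑ a ∈ Finset.range n, algebraMap k Ω (c a) * w ^ p ^ a -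
            ∑ a ∈ Finset.range n, algebraMap k Ω (c a) * w' ^ p ^ a := by
        intro w w'
        rw [← Finset.sum_sub_distrib]
        refine Finset.sum_congr rfl fun a _ => ?_
        rw [sub_pow_char_pow, mul_sub]
      simp only [Finset.univ_unique, Finset.sum_singleton, hcf, add_zero, eval_neg, eval_mul,
        eval_C, PUnit.default_eq_unit, hXe, h1, h2]
      rw [sub_pow_char_pow, sub_pow_char_pow]
      linear_combination z ^ p ^ n * hdc
  obtain ⟨b, m₀, hs⟩ := B2 p (oper_bot p hE hE') (nsd_bot p hE hE') hF.ty hF.ty.lim hR ()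
  refine ⟨b.eval y, eval_mem (PI_mono hA hs.mem) (self_mem_cadj v E y), ?_⟩
  refine Lim.of_nul (m := fun i => m' i + m₀ i) (fun i => add_mem (hm'.mem i) (hs.cau.mem i)) ?_
  refine (hfz.add hs.nul).congr fun i => ?_
  rw [hXe]
  ring

end Pool.Agent.TWC
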