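import Pool.Agent.Lib.TWC.SD

/-!
# TANK W, class C: a basis adapted to the operators, rank two

`flag_basis`: `G` is generated over `k{F}` by two elements, and the iterates of `nxt O` on `G` end with
`0`. Then there are generators `g₁, g₂`, obtained from the given ones by elementary operations, with
`A G ⊆ k{F} g₁` and `A g₁ = 0`.
-/

set_option autoImplicit false

namespace Pool.Agent.TWC

open Module Submodule

universe u w

variable {k : Type u} {G : Type w} [Field k] [AddCommGroup G] [Module k G]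
variable {σ : k →+* k} [RingHomSurjective σ] {F : G →ₛₗ[σ] G}

/-- The last term of a sum `∑ a_i F^i g`. -/
theorem V_last {g x : G} {n : ℕ} (hx : x ∈ V F (span k {g}) (n + 1)) :
    ∃ a : k, ∃ u ∈ V F (span k {g}) n, x = u + a • F^[n] g := by
  induction n generalizing x with
  | zero =>
    rw [V_succ, V_zero, Submodule.map_bot, sup_bot_eq, Submodule.mem_span_singleton] at hx
    obtain ⟨a, rfl⟩ := hx
    exact ⟨a, 0, zero_mem _, by rw [zero_add]; rfl⟩
  | succ n ih =>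
    rw [V_succ] at hx
    obtain ⟨s, hs, _, ⟨w, hw, rfl⟩, rfl⟩ := Submodule.mem_sup.1 hx
    obtain ⟨a, u, hu, rfl⟩ := ih hw
    refine ⟨σ a, s + F u, add_mem (le_V n hs) (map_V_le n (Submodule.mem_map_of_mem hu)), ?_⟩
    rw [map_add, LinearMap.map_smulₛₗ, Function.iterate_succ_apply', add_assoc]

/-- A nonzero element of `S` in `k{F} g` forces `g ∈ S`, `S` saturated. -/
theorem mem_of_rel {S : Submodule k G} (hsat : Sat F S = S) {g : G} (n : ℕ)
    {x : G} (hx : x ∈ V F (span k {g}) n) (hxS : x ∈ S) (h0 : x ≠ 0) : g ∈ S := by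
  induction n generalizing x with
  | zero => exact absurd ((Submodule.mem_bot k).1 hx) h0
  | succ n ih =>
    obtain ⟨a, u, hu, rfl⟩ := V_last hx
    by_cases ha : a = 0
    · rw [ha, zero_smul, add_zero] at hxS h0
      exact ih hu hxS h0
    have h1 : F^[n] g ∈ V F (span k {g}) n ⊔ S := by
      have h2 : F^[n] g = a⁻¹ • (u + a • F^[n] g) - a⁻¹ • u := by
        rw [smul_add, smul_smul, inv_mul_cancel₀ ha, one_smul, add_sub_cancel_left]
      rw [h2]
      exact sub_mem (Submodule.mem_sup_right (S.smul_mem _ hxS))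
        (Submodule.mem_sup_left (Submodule.smul_mem _ _ hu))
    rcases Nat.eq_zero_or_pos n with rfl | hn
    · rw [V_zero, bot_sup_eq] at h1
      exact h1
    obtain ⟨m, rfl⟩ := Nat.exists_eq_add_of_le' hn
    have h3 : (V F (span k {g}) (m + 1)).map F ≤ V F (span k {g}) (m + 1) ⊔ Sat F S := by
      rintro y hy
      obtain ⟨b, w, hw, rfl⟩ := V_last (map_V_le _ hy)
      rw [hsat]
      exact add_mem (Submodule.mem_sup_left hw) (Submodule.smul_mem _ _ h1)
    have h4 := le_Sat_of_map_le (V_fg (Submodule.fg_span_singleton g) (m + 1)) h3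
    rw [hsat] at h4
    exact h4 (le_V m (Submodule.mem_span_singleton_self g))

theorem span_pair (g₁ g₂ : G) : span k ({g₁, g₂} : Set G) = span k {g₁} ⊔ span k {g₂} :=
  Submodule.span_insert _ _

/-- A representation of the elements. -/
theorem exists_rep {g₁ g₂ x : G} (hx : x ∈ RS F (span k {g₁, g₂})) :
    ∃ b, x ∈ V F (span k {g₁}) b ⊔ V F (span k {g₂}) b := by
  obtain ⟨b, hb⟩ := mem_RS.1 hx
  exact ⟨b, by rwa [span_pair, V_sup] at hb⟩

section Euclid

variable {Bas : G → G → Prop} (hswap : ∀ g₁ g₂, Bas g₁ g₂ → Bas g₂ g₁)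
  (helem : ∀ g₁ g₂, Bas g₁ g₂ → ∀ (a : k) (d : ℕ), Bas g₁ (g₂ + a • F^[d] g₁))

include helem

theorem euclid_step {g₁ g₂ x : G} (hB : Bas g₁ g₂) {β d : ℕ}
    (hx : x ∈ V F (span k {g₁}) (β + d + 1) ⊔ V F (span k {g₂}) (β + 1)) :
    ∃ g₂', Bas g₁ g₂' ∧
      (x ∈ V F (span k {g₁}) (β + d) ⊔ V F (span k {g₂'}) (β + 1) ∨
        x ∈ V F (span k {g₁}) (β + d + 1) ⊔ V F (span k {g₂'}) β) := by
  obtain ⟨x₁, hx₁, x₂, hx₂, rfl⟩ := Submodule.mem_sup.1 hx
  obtain ⟨a, u, hu, rfl⟩ := V_last hx₁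
  obtain ⟨b, w, hw, rfl⟩ := V_last hx₂
  by_cases hb : b = 0
  · refine ⟨g₂, hB, Or.inr ?_⟩
    rw [hb, zero_smul, add_zero]
    exact add_mem (Submodule.mem_sup_left hx₁) (Submodule.mem_sup_right hw)
  obtain ⟨c, hc⟩ : ∃ c : k, σ^[β] c = b⁻¹ * a :=
    (RingHomSurjective.is_surjective (σ := σ)).iterate β _
  refine ⟨g₂ + c • F^[d] g₁, helem _ _ hB c d, Or.inl ?_⟩
  have h1 : F^[β] (g₂ + c • F^[d] g₁) = F^[β] g₂ + (b⁻¹ * a) • F^[β + d] g₁ := by
    rw [it_add, it_smul, hc, ← Function.iterate_add_apply]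
  have h2 : u + a • F^[β + d] g₁ + (w + b • F^[β] g₂) =
      u + w + b • F^[β] (g₂ + c • F^[d] g₁) := by
    rw [h1, smul_add, smul_smul, mul_inv_cancel_left₀ hb]
    abel
  rw [h2]
  have h3 : V F (span k {g₂}) β ≤ V F (span k {g₁}) (β + d) ⊔
      V F (span k {g₂ + c • F^[d] g₁}) (β + 1) := by
    rcases β with _ | β
    · exact bot_le
    have h4 : span k {g₂} ≤ V F (span k {g₁}) (d + 1) ⊔ span k {g₂ + c • F^[d] g₁} := by
      rw [Submodule.span_singleton_le_iff_mem]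
      have h6 := it_mem_V (F := F) (le_V (F := F) (S := span k {g₁}) 0
        (Submodule.mem_span_singleton_self g₁)) d
      rw [Nat.zero_add, Nat.add_comm] at h6
      have h7 : -(c • F^[d] g₁) ∈ V F (span k {g₁}) (d + 1) :=
        neg_mem (Submodule.smul_mem _ _ h6)
      have h5 := add_mem (Submodule.mem_sup_left h7 :
          _ ∈ V F (span k {g₁}) (d + 1) ⊔ span k {g₂ + c • F^[d] g₁})
        (Submodule.mem_sup_right (Submodule.mem_span_singleton_self (g₂ + c • F^[d] g₁)))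
      rwa [neg_add_eq_sub, add_sub_cancel_right] at h5
    refine (V_mono_left h4 _).trans ?_
    rw [V_sup]
    refine sup_le_sup ?_ (V_mono (by omega))
    refine (V_V (d + 1) β).trans (V_mono (by omega))
  exact add_mem (add_mem (Submodule.mem_sup_left hu) (h3 hw))
    (Submodule.mem_sup_right (Submodule.smul_mem _ _ (by
      have h6 := it_mem_V (F := F)
        (le_V (F := F) (S := span k {g₂ + c • F^[d] g₁}) 0
          (Submodule.mem_span_singleton_self _)) β
      rwa [Nat.zero_add, Nat.add_comm] at h6)))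

include hswap

/-- Euclid's algorithm. -/
theorem euclid (N : ℕ) : ∀ {g₁ g₂ : G} {α β : ℕ} {x : G}, α + β ≤ N → Bas g₁ g₂ →
    x ∈ V F (span k {g₁}) α ⊔ V F (span k {g₂}) β →
    ∃ g₁' g₂' α', Bas g₁' g₂' ∧ x ∈ V F (span k {g₁'}) α' := by
  induction N with
  | zero =>
    intro g₁ g₂ α β x hN hB hx
    obtain rfl : α = 0 := by omega
    obtain rfl : β = 0 := by omega
    rw [V_zero, V_zero, sup_bot_eq] at hx
    exact ⟨g₁, g₂, 0, hB, hx⟩
  | succ N ih =>
    have key : ∀ {g₁ g₂ : G} {α β : ℕ} {x : G}, β ≤ α → α + β ≤ N + 1 → Bas g₁ g₂ →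
        x ∈ V F (span k {g₁}) α ⊔ V F (span k {g₂}) β →
        ∃ g₁' g₂' α', Bas g₁' g₂' ∧ x ∈ V F (span k {g₁'}) α' := by
      intro g₁ g₂ α β x hle hN hB hx
      rcases β with _ | β
      · rw [V_zero, sup_bot_eq] at hx
        exact ⟨g₁, g₂, α, hB, hx⟩
      obtain ⟨d, rfl⟩ : ∃ d, α = β + d + 1 := ⟨α - (β + 1), by omega⟩
      obtain ⟨g₂', hB', h1 | h1⟩ := euclid_step helem hB hx
      · exact ih (by omega) hB' h1
      · exact ih (by omega) hB' h1
    intro g₁ g₂ α β x hN hB hx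
    rcases le_total β α with h | h
    · exact key h hN hB hx
    · exact key h (by omega) (hswap _ _ hB) (by rwa [sup_comm])

end Euclid

variable {O : Ops F}

/-- **Adapted basis, rank two.** -/
theorem flag_basis {Bas : G → G → Prop} (hswap : ∀ g₁ g₂, Bas g₁ g₂ → Bas g₂ g₁)
    (helem : ∀ g₁ g₂, Bas g₁ g₂ → ∀ (a : k) (d : ℕ), Bas g₁ (g₂ + a • F^[d] g₁))
    (hgen : ∀ g₁ g₂, Bas g₁ g₂ → RS F (span k {g₁, g₂}) = ⊤) {e₁ e₂ : G} (h0 : Bas e₁ e₂) {n : ℕ}
    (hflag : (nxt O)^[n] ⊤ = ⊥) :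
    ∃ g₁ g₂, Bas g₁ g₂ ∧ act O ⊤ ≤ RS F (span k {g₁}) ∧ act O (span k {g₁}) = ⊥ := by
  set X₁ := nxt O (⊤ : Submodule k G) with hX₁
  have hX₁F : X₁.map F ≤ X₁ := map_nxt_le
  have hX₁s : Sat F X₁ = X₁ := Sat_nxt
  have hact : act O ⊤ ≤ X₁ := act_le_nxt
  by_cases hb : X₁ = ⊥
  · rw [hb] at hact
    exact ⟨e₁, e₂, h0, hact.trans bot_le, le_bot_iff.1 ((act_mono le_top).trans hact)⟩
  obtain ⟨g, hg, hg0⟩ := (Submodule.ne_bot_iff X₁).1 hb
  obtain ⟨b, hgb⟩ := exists_rep (F := F) (show g ∈ RS F (span k {e₁, e₂}) by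
    rw [hgen _ _ h0]; exact Submodule.mem_top)
  obtain ⟨g₁, g₂, α, hB, hgα⟩ := euclid hswap helem (b + b) le_rfl h0 hgb
  have hg₁ : g₁ ∈ X₁ := mem_of_rel hX₁s α hgα hg hg0
  -- an element of a saturated submodule which contains `g₁`
  have key : ∀ S : Submodule k G, S.map F ≤ S → Sat F S = S → g₁ ∈ S → S ≠ ⊤ →
      S ≤ RS F (span k {g₁}) := by
    intro S hSF hSs hgS hne w hw
    obtain ⟨b, hb⟩ := exists_rep (F := F) (show w ∈ RS F (span k {g₁, g₂}) by
      rw [hgen _ _ hB]; exact Submodule.mem_top)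
    obtain ⟨w₁, hw₁, w₂, hw₂, rfl⟩ := Submodule.mem_sup.1 hb
    have h1 : RS F (span k {g₁}) ≤ S :=
      RS_le ((Submodule.span_singleton_le_iff_mem _ _).2 hgS) hSF
    have h2 : w₁ ∈ S := h1 (V_le_RS b hw₁)
    have h3 : w₂ ∈ S := by
      have := sub_mem hw h2
      rwa [add_sub_cancel_left] at this
    by_cases h4 : w₂ = 0
    · rw [h4, add_zero]
      exact V_le_RS b hw₁
    · exfalso
      apply hne
      have h5 : g₂ ∈ S := mem_of_rel hSs b hw₂ h3 h4
      rw [← top_le_iff, ← hgen _ _ hB]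
      refine RS_le (Submodule.span_le.2 ?_) hSF
      rintro x (rfl | rfl)
      · exact hgS
      · exact h5
  have hst : act O X₁ ≤ X₁ := (act_mono le_top).trans hact
  have hX₁t : X₁ ≠ ⊤ := by
    intro h
    have h1 : ∀ m, (nxt O)^[m] (⊤ : Submodule k G) = ⊤ := by
      intro m
      induction m with
      | zero => rfl
      | succ m ih => rw [Function.iterate_succ_apply', ih]; exact h
    rw [h1 n] at hflag
    rw [h] at hb
    exact hb hflag
  have h1 := key X₁ hX₁F hX₁s hg₁ hX₁t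
  have hX₂ : nxt O X₁ = ⊥ := by
    by_contra hne
    obtain ⟨w, hw, hw0⟩ := (Submodule.ne_bot_iff _).1 hne
    have h2 : nxt O X₁ ≤ X₁ := nxt_le hX₁F hX₁s hst
    obtain ⟨m, hm⟩ := mem_RS.1 (h1 (h2 hw))
    have h3 : g₁ ∈ nxt O X₁ := mem_of_rel Sat_nxt m hm hw hw0
    have h4 : X₁ ≤ nxt O X₁ :=
      h1.trans (RS_le ((Submodule.span_singleton_le_iff_mem _ _).2 h3) map_nxt_le)
    have h5 : nxt O X₁ = X₁ := le_antisymm h2 h4
    have h6 : ∀ m, (nxt O)^[m + 1] (⊤ : Submodule k G) = X₁ := by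
      intro m
      induction m with
      | zero => rfl
      | succ m ih => rw [Function.iterate_succ_apply', ih, h5]
    rcases n with _ | n
    · rw [Function.iterate_zero, id] at hflag
      exact hb (le_bot_iff.1 (hflag ▸ le_top))
    · rw [h6 n] at hflag
      exact hb hflag
  refine ⟨g₁, g₂, hB, hact.trans h1, ?_⟩
  have h2 : act O X₁ ≤ nxt O X₁ := act_le_nxt
  rw [hX₂] at h2
  exact le_bot_iff.1 ((act_mono ((Submodule.span_singleton_le_iff_mem _ _).2 hg₁)).trans h2)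

end Pool.Agent.TWC
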