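import Pool.Agent.Lib.TWC.GCls
import Pool.Agent.Lib.TWC.FlagA
import Pool.Agent.Lib.TWC.NilpGen
import Pool.Agent.Lib.TWC.DichA
import Pool.Agent.Lib.TWM.G3
import Pool.Agent.Lib.TWM.B1

/-!
# TANK W, class C: rank two

* `alg_nr`: an element of `A<z>` near to an element algebraic over `A` is near to `A`;
* `Fib.tf`: an element of `E<y><z>` which is a root of an additive polynomial modulo `E + O(0)` is in
  `E + O(0)`;
* `flag_two`: a basis `g₁, g₂` of the limits of `E` in `LE` adapted to the operators.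
-/

set_option autoImplicit false

open Polynomial

namespace Pool.Agent.TWC

open Pool.Agent.H15JM (RVal)
open Pool.Agent.LU1 (VPos adj)
open Pool.Agent.D2 (Ctx0)
open Pool.Agent.D2P (hen clI mem_clI)
open Pool.Agent.TWM

universe u

variable {k Ω : Type u} [Field k] [Field Ω] [Algebra k Ω] {v : RVal Ω}
  {A C E L LE : IntermediateField k Ω} {y z : Ω}

section TF

variable [IsAlgClosed Ω]

/-- An element of `A<z>` near to an element algebraic over `A`. -/
theorem alg_nr (hz : TL v A z 0) {w θ : Ω} (hw : w ∈ cadj v A z) (hθ : IsAlgebraic A θ)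
    (h : v.Ge 0 (w - θ)) : Nr' v A 0 w := by
  obtain ⟨f, hf, h1⟩ := hz.dense hw 1
  have hg : v.Ge 0 ((f - C θ).eval z) := by
    rw [eval_sub, eval_C]
    have h2 := h.sub (h1.mono zero_le_one)
    rwa [show w - θ - (w - f.eval z) = f.eval z - θ by ring] at h2
  have hgA : f - C θ ∈ PI (algc A) :=
    sub_mem (PI_mono (le_algc A) hf) (C_mem_PI (mem_algc.2 hθ))
  obtain ⟨δ, hδ, h2⟩ := var_bound' (v := v) f z 0 0 (fun l hl => by
    have h3 : (taylor z f).coeff l = (taylor z (f - C θ)).coeff l := by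
      rw [map_sub, taylor_C, coeff_sub, coeff_C, if_neg (by omega), sub_zero]
    rw [h3, mul_zero, sub_zero]
    by_cases h0 : f - C θ = 0
    · rw [h0, map_zero, coeff_zero]
      exact Gt.zero
    have h4 := hz.strict hgA h0 hl
    rw [mul_zero, sub_zero] at h4
    exact h4.mono (hg (hz.eval_ne hgA h0)))
  obtain ⟨ψ, hψ, h3⟩ := hz.lim δ hδ
  refine ⟨f.eval ψ, eval_mem hf hψ, ?_⟩
  have h4 := (Gt.of_ge h1 zero_lt_one).add (h2 ψ h3)
  rwa [show w - f.eval z + (f.eval z - f.eval ψ) = w - f.eval ψ by ring] at h4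

/-- An additive polynomial over `k` is large at the elements of negative value. -/
theorem ge_of_add (h0 : Ctx0 k v) (p : ℕ) [Fact p.Prime] {t : Ω} {c : ℕ → k} (n : ℕ)
    (hc : ∃ i < n, c i ≠ 0)
    (h : v.Ge 0 (∑ i ∈ Finset.range n, algebraMap k Ω (c i) * t ^ p ^ i)) : v.Ge 0 t := by
  have hp : p.Prime := Fact.out
  induction n with
  | zero =>
    obtain ⟨i, hi, -⟩ := hc
    omega
  | succ n ih =>
    rw [Finset.sum_range_succ] at h
    by_cases hn : c n = 0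
    · rw [hn, map_zero, zero_mul, add_zero] at h
      refine ih ?_ h
      obtain ⟨i, hi, hi'⟩ := hc
      refine ⟨i, lt_of_le_of_ne (Nat.lt_succ_iff.1 hi) ?_, hi'⟩
      rintro rfl
      exact hi' hn
    intro ht0
    by_contra hneg
    push Not at hneg
    have hpn : (0 : ℝ) < (p : ℝ) ^ n := pow_pos (by exact_mod_cast hp.pos) n
    have hS : Gt v ((p ^ n : ℕ) * v t) (∑ i ∈ Finset.range n, algebraMap k Ω (c i) * t ^ p ^ i) := by
      refine Gt.sum _ _ fun i hi => ?_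
      have h1 : v.Ge ((p ^ i : ℕ) * v t) (t ^ p ^ i) := ge_pow (fun _ => le_rfl) _
      have h2 := (h0.ge (c i)).mul h1
      refine Gt.of_ge h2 ?_
      have h3 : ((p ^ i : ℕ) : ℝ) < (p ^ n : ℕ) := by
        exact_mod_cast Nat.pow_lt_pow_right hp.one_lt (Finset.mem_range.1 hi)
      nlinarith
    have htop : Gt v ((p ^ n : ℕ) * v t) (algebraMap k Ω (c n) * t ^ p ^ n) := by
      have h1 := (Gt.of_ge h (by push_cast; nlinarith : ((p ^ n : ℕ) : ℝ) * v t < 0)).sub hS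
      rwa [add_sub_cancel_left] at h1
    have hcn : algebraMap k Ω (c n) ≠ 0 := (_root_.map_ne_zero _).2 hn
    have h1 := htop (mul_ne_zero hcn (pow_ne_zero _ ht0))
    rw [v.map_mul hcn (pow_ne_zero _ ht0), v.map_pow ht0, h0.triv _ hn, zero_add] at h1
    exact lt_irrefl _ h1

theorem Fib.tf (h0 : Ctx0 k v) (p : ℕ) [Fact p.Prime] [CharP Ω p] (hF : Fib v E LE y z 0 0)
    {x : Ω} (hx : x ∈ LE) {n : ℕ} {c : ℕ → k} (hc : ∃ i < n, c i ≠ 0)
    (h : Nr v E 0 (∑ i ∈ Finset.range n, algebraMap k Ω (c i) * x ^ p ^ i)) : Nr v E 0 x := by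
  have hp : p.Prime := Fact.out
  obtain ⟨e, he, h1⟩ := h
  -- a root of the polynomial
  obtain ⟨q, hq⟩ : ∃ q : Polynomial Ω,
      q = ∑ i ∈ Finset.range n, C (algebraMap k Ω (c i)) * X ^ p ^ i - C e := ⟨_, rfl⟩
  have hqev : ∀ t : Ω, q.eval t = ∑ i ∈ Finset.range n, algebraMap k Ω (c i) * t ^ p ^ i - e := by
    intro t
    rw [hq, eval_sub, eval_C, eval_finsetSum]
    simp
  have hqE : q ∈ PI E := by
    rw [hq]
    refine sub_mem (sum_mem fun i _ => mul_mem (C_mem_PI (E.algebraMap_mem _))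
      (pow_mem X_mem_PI _)) (C_mem_PI he)
  obtain ⟨i₀, hi₀, hci₀⟩ := hc
  have hcoeff : q.coeff (p ^ i₀) = algebraMap k Ω (c i₀) := by
    rw [hq, coeff_sub, coeff_C, if_neg (pow_ne_zero _ hp.ne_zero), sub_zero, finsetSum_coeff]
    rw [Finset.sum_eq_single i₀]
    · rw [coeff_C_mul, coeff_X_pow, if_pos rfl, mul_one]
    · intro j _ hj
      rw [coeff_C_mul, coeff_X_pow, if_neg, mul_zero]
      intro h2
      exact hj (Nat.pow_right_injective hp.two_le h2).symm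
    · intro h2
      exact absurd (Finset.mem_range.2 hi₀) h2
  have hq0 : q ≠ 0 := by
    rintro h2
    rw [h2, coeff_zero] at hcoeff
    exact (map_ne_zero (algebraMap k Ω)).2 hci₀ hcoeff.symm
  have hdeg : q.degree ≠ 0 := by
    intro h2
    have h3 : q.coeff (p ^ i₀) = 0 := coeff_eq_zero_of_degree_lt (by
      rw [h2]
      exact_mod_cast pow_pos hp.pos i₀)
    rw [hcoeff] at h3
    exact (map_ne_zero (algebraMap k Ω)).2 hci₀ h3
  obtain ⟨θ, hθ⟩ := IsAlgClosed.exists_root q hdeg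
  have hθE : IsAlgebraic E θ := isAlgebraic_root hqE hq0 hθ
  have h2 : v.Ge 0 (x - θ) := by
    refine ge_of_add h0 p n ⟨i₀, hi₀, hci₀⟩ ?_
    have h3 : ∑ i ∈ Finset.range n, algebraMap k Ω (c i) * (x - θ) ^ p ^ i =
        q.eval x - q.eval θ := by
      rw [hqev, hqev, sub_sub_sub_cancel_right, ← Finset.sum_sub_distrib]
      refine Finset.sum_congr rfl fun i _ => ?_
      rw [sub_pow_char_pow, mul_sub]
    rw [h3, show q.eval θ = 0 from hθ, sub_zero, hqev]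
    exact h1
  -- down the tower
  rw [hF.eq] at hx
  have hθA : IsAlgebraic (cadj v E y) θ :=
    isAlgebraic_root (PI_mono (le_cadj v E y) hqE) hq0 hθ
  obtain ⟨a, ha, h3⟩ := alg_nr hF.tz hx hθA h2
  have h4 : v.Ge 0 (a - θ) := by
    have := h2.sub h3.ge
    rwa [show x - θ - (x - a) = a - θ by ring] at this
  obtain ⟨b, hb, h5⟩ := alg_nr hF.ty ha hθE h4
  refine ⟨b, hb, ?_⟩
  have := h3.ge.add h5.ge
  rwa [sub_add_sub_cancel] at this

end TF

/-! ## Modules -/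

section Alg

open Submodule

variable {K : Type u} {G : Type u} [Field K] [AddCommGroup G] [Module K G]
variable {σ : K →+* K} [RingHomSurjective σ] {F : G →ₛₗ[σ] G}

theorem V_coef {g x : G} (n : ℕ) (hx : x ∈ V F (span K {g}) n) :
    ∃ c : ℕ → K, x = ∑ i ∈ Finset.range n, c i • F^[i] g := by
  induction n generalizing x with
  | zero => exact ⟨0, by rw [Finset.sum_range_zero]; exact (Submodule.mem_bot K).1 hx⟩
  | succ n ih =>
    obtain ⟨a, u, hu, rfl⟩ := V_last hx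
    obtain ⟨c, rfl⟩ := ih hu
    refine ⟨fun i => if i = n then a else c i, ?_⟩
    rw [Finset.sum_range_succ]
    simp only [if_true]
    congr 1
    refine Finset.sum_congr rfl fun i hi => ?_
    rw [if_neg (Finset.mem_range.1 hi).ne]

theorem sum_mem_V {S : Submodule K G} {g : G} (hg : g ∈ S) (n : ℕ) (c : ℕ → K) :
    ∑ i ∈ Finset.range n, c i • F^[i] g ∈ V F S n := by
  refine sum_mem fun i hi => Submodule.smul_mem _ _ ?_
  have h1 := it_mem_V (F := F) (le_V (F := F) 0 hg) i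
  refine V_mono ?_ h1
  have := Finset.mem_range.1 hi
  omega

/-- The elements which are killed by all the products of `m` operators. -/
def Zk (O : Ops F) : ℕ → Submodule K G
  | 0 => ⊥
  | m + 1 =>
    { carrier := {g | ∀ ψ ∈ O.A, ψ g ∈ Zk O m}
      add_mem' := fun ha hb ψ hψ => by rw [map_add]; exact add_mem (ha ψ hψ) (hb ψ hψ)
      zero_mem' := fun ψ _ => by rw [map_zero]; exact zero_mem _
      smul_mem' := fun a x hx ψ hψ => by rw [map_smul]; exact Submodule.smul_mem _ _ (hx ψ hψ) }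

theorem Zk_le_succ (O : Ops F) (m : ℕ) : Zk O m ≤ Zk O (m + 1) := by
  induction m with
  | zero => exact bot_le
  | succ m ih => exact fun g hg ψ hψ => ih (hg ψ hψ)

theorem Zk_mono (O : Ops F) {m n : ℕ} (h : m ≤ n) : Zk O m ≤ Zk O n :=
  monotone_nat_of_le_succ (Zk_le_succ O) h

theorem act_Zk_le (O : Ops F) (m : ℕ) : act O (Zk O (m + 1)) ≤ Zk O m :=
  act_le.2 fun φ hφ _ hx => hx φ hφ

theorem act_it_Zk (O : Ops F) (m : ℕ) : (act O)^[m] (Zk O m) = ⊥ := by
  induction m with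
  | zero => rfl
  | succ m ih =>
    rw [Function.iterate_succ_apply]
    exact le_bot_iff.1 ((act_it_mono m (act_Zk_le O m)).trans ih.le)

end Alg

section Mod

variable [Fact (Ctx0 k v)] (p : ℕ) [Fact p.Prime] [CharP k p] [CharP Ω p]

/-- The classes of the elements of `LE` which are limits of `E`. -/
def Xl (v : RVal Ω) [Fact (Ctx0 k v)] (E LE : IntermediateField k Ω) : Submodule k (MM v E) where
  carrier := {g | ∃ x ∈ LE, Lim v E 0 x ∧ cls v E x = g}
  add_mem' := by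
    rintro _ _ ⟨x, hx, hl, rfl⟩ ⟨y, hy, hl', rfl⟩
    exact ⟨x + y, add_mem hx hy, Lim.add hl hl', cls_add hl hl'⟩
  zero_mem' := ⟨0, zero_mem LE, Lim.of_mem (zero_mem E),
    cls_of_nr ⟨0, zero_mem E, by rw [sub_self]; exact RVal.Ge.zero⟩⟩
  smul_mem' := by
    rintro a _ ⟨x, hx, hl, rfl⟩
    exact ⟨algebraMap k Ω a * x, mul_mem (LE.algebraMap_mem a) hx, Lim.smul hl a, cls_smul hl a⟩

/-- The Frobenius of `Xl`. -/
noncomputable def frG (v : RVal Ω) [Fact (Ctx0 k v)] (E LE : IntermediateField k Ω) :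
    Xl v E LE →ₛₗ[frobenius k p] Xl v E LE where
  toFun g := ⟨MM.fr p v E g, by
    obtain ⟨x, hx, hl, h⟩ := g.2
    exact ⟨x ^ p, pow_mem hx p, Lim.pow p hl, by rw [cls_pow p hl, h]⟩⟩
  map_add' g g' := Subtype.ext (map_add (MM.fr p v E) _ _)
  map_smul' a g := Subtype.ext ((MM.fr p v E).map_smulₛₗ a _)

theorem frG_it (n : ℕ) (g : Xl v E LE) :
    (((frG p v E LE)^[n] g : Xl v E LE) : MM v E) = (MM.fr p v E)^[n] (g : MM v E) := by
  induction n with
  | zero => rfl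
  | succ n ih =>
    rw [Function.iterate_succ_apply', Function.iterate_succ_apply', ← ih]
    rfl

variable [PerfectRing k p] {T : Submodule k (Opr v E)}

theorem V_coe {S : Submodule k (Xl v E LE)} (b : ℕ) {g : Xl v E LE}
    (hg : g ∈ V (frG p v E LE) S b) :
    (g : MM v E) ∈ V (MM.fr p v E) (S.map (Xl v E LE).subtype) b := by
  induction b generalizing g with
  | zero =>
    rw [V_zero, Submodule.mem_bot] at hg
    rw [hg]
    exact zero_mem _
  | succ b ih =>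
    rw [V_succ] at hg ⊢
    obtain ⟨s, hs, _, ⟨w, hw, rfl⟩, rfl⟩ := Submodule.mem_sup.1 hg
    exact add_mem (Submodule.mem_sup_left (Submodule.mem_map_of_mem hs))
      (Submodule.mem_sup_right (Submodule.mem_map_of_mem (f := MM.fr p v E) (ih hw)))

/-- The operators on `Xl`. -/
noncomputable def opsG (h : Oper p v C E T)
    (hex : ∀ φ ∈ T, ∀ g ∈ Xl v E LE, MM.act φ g ∈ Xl v E LE) : Ops (frG p v E LE) where
  A :=
    { carrier := {ψ | ∃ φ ∈ T, ∀ g : Xl v E LE, ((ψ g : Xl v E LE) : MM v E) = MM.act φ g}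
      add_mem' := by
        rintro ψ ψ' ⟨φ, hφ, h1⟩ ⟨φ', hφ', h2⟩
        refine ⟨φ + φ', add_mem hφ hφ', fun g => ?_⟩
        rw [MM.act_add, ← h1, ← h2]
        rfl
      zero_mem' := ⟨0, zero_mem T, fun g => by
        have := MM.act_smul (0 : k) (0 : Opr v E) (g : MM v E)
        rw [zero_smul, zero_smul] at this
        rw [this]
        rfl⟩
      smul_mem' := by
        rintro a ψ ⟨φ, hφ, h1⟩
        refine ⟨a • φ, T.smul_mem a hφ, fun g => ?_⟩
        rw [MM.act_smul, ← h1]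
        rfl }
  comp_mem := by
    rintro ψ ⟨φ, hφ, h1⟩ ψ' ⟨φ', hφ', h2⟩
    refine ⟨φ * φ', h.mul φ hφ φ' hφ', fun g => ?_⟩
    rw [MM.act_mul, ← h2, ← h1]
    rfl
  tw := by
    rintro ψ ⟨φ, hφ, h1⟩
    obtain ⟨φ', hφ', h2⟩ := h.tw φ hφ
    refine ⟨(MM.act φ').restrict (hex φ' hφ'), ⟨φ', hφ', fun g => rfl⟩,
      fun g => Subtype.ext ?_⟩
    rw [h1]
    exact MM.act_fr p h2 (g : MM v E)

theorem act_coe (h : Oper p v C E T)
    (hex : ∀ φ ∈ T, ∀ g ∈ Xl v E LE, MM.act φ g ∈ Xl v E LE) {S : Submodule k (Xl v E LE)} :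
    (act (opsG p h hex) S).map (Xl v E LE).subtype ≤
      act (h.ops p) (S.map (Xl v E LE).subtype) := by
  rw [Submodule.map_le_iff_le_comap, act_le]
  rintro ψ ⟨φ, hφ, h1⟩ g hg
  rw [Submodule.mem_comap, Submodule.subtype_apply, h1]
  exact mem_act (O := h.ops p) ⟨φ, hφ, rfl⟩ (Submodule.mem_map_of_mem hg)

/-- `V'` for the submodules of `Xl`. -/
theorem nsd_coe (h : Oper p v C E T) (hV : NSD p h)
    (hex : ∀ φ ∈ T, ∀ g ∈ Xl v E LE, MM.act φ g ∈ Xl v E LE)
    (hTF : Sat (frG p v E LE) ⊥ = ⊥) {Y : Submodule k (Xl v E LE)} (hY : Y.FG) {b : ℕ}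
    (hb : 1 ≤ b)
    (hsd : ∀ y ∈ Y, (frG p v E LE)^[b] y ∈ V (frG p v E LE) (Y ⊔ act (opsG p h hex) Y) b) :
    Y = ⊥ := by
  have h1 : Y.map (Xl v E LE).subtype ≤ Sat (MM.fr p v E) ⊥ := by
    refine hV _ (hY.map _) b hb ?_
    rintro _ ⟨y, hy, rfl⟩
    have h2 := V_coe p b (hsd y hy)
    rw [frG_it] at h2
    refine V_mono_left ?_ b h2
    rw [Submodule.map_sup]
    exact sup_le_sup_left (act_coe p h hex) _
  rw [← le_bot_iff, ← hTF]
  intro y hy
  obtain ⟨W, hW, h2⟩ := h1 (Submodule.mem_map_of_mem hy)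
  have hWf : FiniteDimensional k W := Module.Finite.iff_fg.2 hW
  refine ⟨W.comap (Xl v E LE).subtype, ?_, fun c => ?_⟩
  · have h3 : (W.comap (Xl v E LE).subtype).map (Xl v E LE).subtype ≤ W :=
      Submodule.map_comap_le _ _
    have h4 : FiniteDimensional k ((W.comap (Xl v E LE).subtype).map (Xl v E LE).subtype) :=
      Submodule.finiteDimensional_of_le h3
    exact Submodule.fg_of_fg_map_injective _ (Submodule.subtype_injective _)
      (Module.Finite.iff_fg.1 h4)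
  · have h3 := h2 c
    rw [bot_sup_eq] at h3 ⊢
    rw [Submodule.mem_comap, Submodule.subtype_apply, frG_it]
    exact h3

theorem mem_Xl {x : Ω} (hx : x ∈ LE) (hl : Lim v E 0 x) : cls v E x ∈ Xl v E LE :=
  ⟨x, hx, hl, rfl⟩

variable [IsAlgClosed Ω]

/-- There is no torsion. -/
theorem sat_frG (hF : Fib v E LE y z 0 0) : Sat (frG p v E LE) ⊥ = ⊥ := by
  rw [← le_bot_iff]
  rintro g ⟨W, hW, hg⟩
  have hWf : FiniteDimensional k W := Module.Finite.iff_fg.2 hW
  have hg' : ∀ c, (frG p v E LE)^[c] g ∈ W := fun c => by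
    have := hg c
    rwa [bot_sup_eq] at this
  obtain ⟨x, hx, hl, hxg⟩ := g.2
  obtain ⟨d, hd⟩ : ∃ d, d = Module.finrank k W + 1 := ⟨_, rfl⟩
  have h1 : ¬ LinearIndependent k
      (fun i : Fin d => (⟨(frG p v E LE)^[i] g, hg' i⟩ : W)) := by
    intro h
    have := h.fintype_card_le_finrank
    rw [Fintype.card_fin] at this
    omega
  obtain ⟨a, ha, i₀, hi₀⟩ := Fintype.not_linearIndependent_iff.1 h1
  obtain ⟨c, hc⟩ : ∃ c : ℕ → k, ∀ i : Fin d, c i = a i :=
    ⟨fun i => if h : i < d then a ⟨i, h⟩ else 0, fun i => by simp⟩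
  have h2 : ∑ i ∈ Finset.range d, c i • (frG p v E LE)^[i] g = 0 := by
    rw [Finset.sum_range]
    have h3 := congrArg (Submodule.subtype W) ha
    rw [map_sum, map_zero] at h3
    rw [← h3]
    refine Finset.sum_congr rfl fun i _ => ?_
    rw [hc i, map_smul]
    rfl
  have h3 : ∑ i ∈ Finset.range d, c i • (MM.fr p v E)^[i] (cls v E x) = 0 := by
    have h4 := congrArg (Submodule.subtype (Xl v E LE)) h2
    rw [map_sum, map_zero] at h4
    rw [← h4]
    refine Finset.sum_congr rfl fun i _ => ?_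
    rw [map_smul, Submodule.subtype_apply, frG_it, hxg]
  obtain ⟨h4, h5⟩ := cls_poly p hl d c
  rw [← h5, cls_eq_zero h4] at h3
  have h6 := Fib.tf (Fact.out : Ctx0 k v) p hF hx ⟨i₀, i₀.2, by rw [hc i₀]; exact hi₀⟩ h3
  rw [Submodule.mem_bot]
  refine Subtype.ext ?_
  rw [← hxg]
  exact cls_of_nr h6

omit [IsAlgClosed Ω] in
theorem act_mem_Xl (hD : Desc v C E T L LE) (φ : Opr v E) (hφ : φ ∈ T) (g : MM v E)
    (hg : g ∈ Xl v E LE) : MM.act φ g ∈ Xl v E LE := by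
  obtain ⟨x, hx, hl, rfl⟩ := hg
  obtain ⟨Φ, hΦ⟩ := hD.ext φ hφ
  have hEL : E ≤ LE := by
    rw [hD.eq]
    exact le_sup_right.trans (TWM.le_clI _)
  obtain ⟨h1, h2⟩ := cls_opr hEL hΦ.eq hx hl
  rw [← h2]
  exact mem_Xl (fn_mem Φ x) h1

omit [IsAlgClosed Ω] in
theorem fg_of_le_fg {X : Type*} [AddCommGroup X] [Module k X] {A B : Submodule k X} (h : A ≤ B)
    (hB : B.FG) : A.FG := by
  have : FiniteDimensional k B := Module.Finite.iff_fg.2 hB
  have := Submodule.finiteDimensional_of_le h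
  exact Module.Finite.iff_fg.1 this

omit [IsAlgClosed Ω] in
/-- The operators send the class of an element in a space of finite dimension. -/
theorem act_fg (h : Oper p v C E T) (hN : Nilp v T L LE) (hD : Desc v C E T L LE)
    {x : Ω} (hx : x ∈ LE) (hl : Lim v E 0 x) :
    (act (opsG p h (act_mem_Xl hD)) (Submodule.span k {⟨cls v E x, mem_Xl hx hl⟩})).FG := by
  classical
  have hEL : E ≤ LE := by
    rw [hD.eq]
    exact le_sup_right.trans (TWM.le_clI _)
  obtain ⟨n, s, hs⟩ := hN.fd x hx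
  -- the elements of value `≥ 0`
  let O₀ : Submodule k Ω :=
    { carrier := {w | v.Ge 0 w}
      add_mem' := fun ha hb => RVal.Ge.add ha hb
      zero_mem' := RVal.Ge.zero
      smul_mem' := fun a w hw => by
        rw [Algebra.smul_def]
        have := ((Fact.out : Ctx0 k v).ge a).mul (show v.Ge 0 w from hw)
        rwa [zero_add] at this }
  let W : Submodule k Ω :=
    { carrier := {w | ∃ φ ∈ T, ∃ Φ : Opr v LE, IsExt L φ Φ ∧ fn Φ x = w}
      add_mem' := by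
        rintro _ _ ⟨φ, hφ, Φ, hΦ, rfl⟩ ⟨φ', hφ', Φ', hΦ', rfl⟩
        refine ⟨φ + φ', add_mem hφ hφ', Φ + Φ', ⟨fun e he => ?_, fun l hl' t ht => ?_⟩,
          fn_opr_add _ _ hx⟩
        · rw [fn_opr_add _ _ (hEL he), fn_opr_add _ _ he, hΦ.eq e he, hΦ'.eq e he]
        · have hlt : l * t ∈ LE := mul_mem (hD.eq ▸ TWM.le_clI _ (le_sup_left (a := L) hl')) ht
          rw [fn_opr_add _ _ hlt, fn_opr_add _ _ ht, hΦ.lin l hl' t ht, hΦ'.lin l hl' t ht]
          ring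
      zero_mem' := by
        refine ⟨0, zero_mem T, 0, ⟨fun e _ => ?_, fun l _ t _ => ?_⟩, fn_opr_zero x⟩
        · rw [fn_opr_zero, fn_opr_zero]
        · rw [fn_opr_zero, fn_opr_zero, mul_zero]
      smul_mem' := by
        rintro a _ ⟨φ, hφ, Φ, hΦ, rfl⟩
        refine ⟨a • φ, T.smul_mem a hφ, a • Φ, ⟨fun e he => ?_, fun l hl' t ht => ?_⟩,
          fn_opr_smul _ _ hx⟩
        · rw [fn_opr_smul _ _ (hEL he), fn_opr_smul _ _ he, hΦ.eq e he]
        · have hlt : l * t ∈ LE := mul_mem (hD.eq ▸ TWM.le_clI _ (le_sup_left (a := L) hl')) ht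
          rw [fn_opr_smul _ _ hlt, fn_opr_smul _ _ ht, hΦ.lin l hl' t ht, mul_smul_comm] }
  have hfin : (W.map O₀.mkQ).FG := by
    have h1 : W.map O₀.mkQ ≤ (Submodule.span k (Set.range s)).map O₀.mkQ := by
      rintro _ ⟨_, ⟨φ, hφ, Φ, hΦ, rfl⟩, rfl⟩
      obtain ⟨c, hc⟩ := hs φ hφ Φ hΦ
      refine ⟨∑ i, algebraMap k Ω (c i) * s i, sum_mem fun i _ => ?_, ?_⟩
      · rw [← Algebra.smul_def]
        exact Submodule.smul_mem _ _ (Submodule.subset_span ⟨i, rfl⟩)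
      · rw [← sub_eq_zero, ← map_sub, Submodule.mkQ_apply, Submodule.Quotient.mk_eq_zero]
        have := hc.neg
        rwa [neg_sub] at this
    have h2 : ((Submodule.span k (Set.range s)).map O₀.mkQ).FG :=
      (Submodule.fg_span (Set.finite_range s)).map _
    have h3 : FiniteDimensional k ((Submodule.span k (Set.range s)).map O₀.mkQ) :=
      Module.Finite.iff_fg.2 h2
    have h4 : FiniteDimensional k (W.map O₀.mkQ) := Submodule.finiteDimensional_of_le h1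
    exact Module.Finite.iff_fg.1 h4
  obtain ⟨t, ht⟩ := hfin
  have hlift : ∀ q ∈ t, ∃ w ∈ W, O₀.mkQ w = q := fun q hq => by
    have h1 : q ∈ W.map O₀.mkQ := ht ▸ Submodule.subset_span hq
    exact h1
  choose! lf hlf hlf' using hlift
  -- the classes of the lifts
  have hcl : ∀ w ∈ W, w ∈ LE ∧ Lim v E 0 w := by
    rintro _ ⟨φ, hφ, Φ, hΦ, rfl⟩
    exact ⟨fn_mem Φ x, (cls_opr hEL hΦ.eq hx hl).1⟩
  let gg : Ω → Xl v E LE := fun w =>
    if hw : w ∈ LE ∧ Lim v E 0 w then ⟨cls v E w, mem_Xl hw.1 hw.2⟩ else 0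
  have hgg : ∀ w, w ∈ LE → Lim v E 0 w → ((gg w : Xl v E LE) : MM v E) = cls v E w := by
    intro w h1 h2
    change (((if hw : w ∈ LE ∧ Lim v E 0 w then _ else _) : Xl v E LE) : MM v E) = _
    rw [dif_pos ⟨h1, h2⟩]
  have h1 : act (opsG p h (act_mem_Xl hD)) (Submodule.span k {⟨cls v E x, mem_Xl hx hl⟩}) ≤
      Submodule.span k (t.image fun q => gg (lf q) : Finset (Xl v E LE)) := by
    rw [act_le]
    rintro ψ ⟨φ, hφ, hψ⟩ g hg
    obtain ⟨a, rfl⟩ := Submodule.mem_span_singleton.1 hg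
    rw [map_smul]
    refine Submodule.smul_mem _ _ ?_
    obtain ⟨Φ, hΦ⟩ := hD.ext φ hφ
    obtain ⟨h2, h3⟩ := cls_opr hEL hΦ.eq hx hl
    -- `Φ x` is in the span of the lifts modulo `O(0)`
    have h4 : O₀.mkQ (fn Φ x) ∈ Submodule.span k (t : Set (Ω ⧸ O₀)) := by
      rw [ht]
      exact Submodule.mem_map_of_mem ⟨φ, hφ, Φ, hΦ, rfl⟩
    have h5 : ∃ w ∈ W, O₀.mkQ w = O₀.mkQ (fn Φ x) ∧
        (gg w) ∈ Submodule.span k (t.image fun q => gg (lf q) : Finset (Xl v E LE)) := by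
      generalize O₀.mkQ (fn Φ x) = q at h4
      induction h4 using Submodule.span_induction with
      | mem q hq =>
        exact ⟨lf q, hlf q hq, hlf' q hq,
          Submodule.subset_span (Finset.mem_coe.2 (Finset.mem_image_of_mem _ hq))⟩
      | zero =>
        refine ⟨0, zero_mem W, map_zero _, ?_⟩
        have h6 : gg 0 = 0 := Subtype.ext (by
          rw [hgg 0 (zero_mem LE) (Lim.of_mem (zero_mem E))]
          exact cls_of_nr ⟨0, zero_mem E, by rw [sub_self]; exact RVal.Ge.zero⟩)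
        rw [h6]
        exact zero_mem _
      | add q q' _ _ ih ih' =>
        obtain ⟨w, hw, h6, h7⟩ := ih
        obtain ⟨w', hw', h6', h7'⟩ := ih'
        refine ⟨w + w', add_mem hw hw', by rw [map_add, h6, h6'], ?_⟩
        have h8 : gg (w + w') = gg w + gg w' := Subtype.ext (by
          rw [hgg _ (add_mem (hcl w hw).1 (hcl w' hw').1) (Lim.add (hcl w hw).2 (hcl w' hw').2),
            cls_add (hcl w hw).2 (hcl w' hw').2]
          rw [Submodule.coe_add, hgg w (hcl w hw).1 (hcl w hw).2, hgg w' (hcl w' hw').1 (hcl w' hw').2])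
        rw [h8]
        exact add_mem h7 h7'
      | smul a q _ ih =>
        obtain ⟨w, hw, h6, h7⟩ := ih
        refine ⟨a • w, W.smul_mem a hw, by rw [map_smul, h6], ?_⟩
        have h8 : gg (a • w) = a • gg w := Subtype.ext (by
          rw [Submodule.coe_smul, hgg w (hcl w hw).1 (hcl w hw).2, ← cls_smul (hcl w hw).2,
            Algebra.smul_def]
          exact hgg _ (mul_mem (LE.algebraMap_mem a) (hcl w hw).1) (Lim.smul (hcl w hw).2 a))
        rw [h8]
        exact Submodule.smul_mem _ _ h7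
    obtain ⟨w, hw, h6, h7⟩ := h5
    have h8 : ψ ⟨cls v E x, mem_Xl hx hl⟩ = gg w := Subtype.ext (by
      rw [hψ, hgg w (hcl w hw).1 (hcl w hw).2]
      change MM.act φ (cls v E x) = _
      rw [← h3]
      refine cls_congr h2 (hcl w hw).2 ⟨0, zero_mem E, ?_⟩
      rw [← sub_eq_zero, ← map_sub, Submodule.mkQ_apply, Submodule.Quotient.mk_eq_zero] at h6
      have h9 : v.Ge 0 (w - fn Φ x) := h6
      have := h9.neg
      rwa [neg_sub, ← sub_zero (fn Φ x - w)] at this)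
    rw [h8]
    exact h7
  exact fg_of_le_fg h1 (Submodule.fg_span (Finset.finite_toSet _))

omit [IsAlgClosed Ω] in
theorem kil_Zk (h : Oper p v C E T) (hD : Desc v C E T L LE) (m : ℕ) {x : Ω} (hx : x ∈ LE)
    (hl : Lim v E 0 x) (hK : KilN T L LE m x) :
    (⟨cls v E x, mem_Xl hx hl⟩ : Xl v E LE) ∈ Zk (opsG p h (act_mem_Xl hD)) m := by
  have hEL : E ≤ LE := by
    rw [hD.eq]
    exact le_sup_right.trans (TWM.le_clI _)
  induction m generalizing x with
  | zero =>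
    refine (Submodule.mem_bot k).2 (Subtype.ext (cls_of_nr ⟨0, zero_mem E, ?_⟩))
    rw [sub_zero]
    exact hK
  | succ m ih =>
    rintro ψ ⟨φ, hφ, hψ⟩
    obtain ⟨Φ, hΦ⟩ := hD.ext φ hφ
    obtain ⟨h1, h2⟩ := cls_opr hEL hΦ.eq hx hl
    have h3 := ih (fn_mem Φ x) h1 (hK φ hφ Φ hΦ)
    have h4 : ψ ⟨cls v E x, mem_Xl hx hl⟩ = ⟨cls v E (fn Φ x), mem_Xl (fn_mem Φ x) h1⟩ :=
      Subtype.ext (by rw [hψ]; exact h2.symm)
    rw [h4]
    exact h3

omit [IsAlgClosed Ω] in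
theorem coe_sum_frG (n : ℕ) (c : ℕ → k) (g : Xl v E LE) :
    ((∑ i ∈ Finset.range n, c i • (frG p v E LE)^[i] g : Xl v E LE) : MM v E) =
      ∑ i ∈ Finset.range n, c i • (MM.fr p v E)^[i] (g : MM v E) := by
  have h4 := map_sum (Submodule.subtype (Xl v E LE)) (fun i => c i • (frG p v E LE)^[i] g)
    (Finset.range n)
  rw [Submodule.subtype_apply] at h4
  rw [h4]
  refine Finset.sum_congr rfl fun i _ => ?_
  rw [map_smul, Submodule.subtype_apply, frG_it]

/-- The module of the limits is generated by the classes of `y` and `z`. -/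
theorem gen_top (hE : Cld v E) (hF : Fib v E LE y z 0 0) (hz : Lim v E 0 z)
    {g₁ g₂ : Xl v E LE} (h1 : cls v E y = (g₁ : MM v E)) (h2 : cls v E z = (g₂ : MM v E)) :
    RS (frG p v E LE) (Submodule.span k {g₁, g₂}) = ⊤ := by
  rw [← top_le_iff]
  rintro g -
  obtain ⟨x, hx, hl, hxg⟩ := g.2
  obtain ⟨n, c, m, d, hs⟩ := spn_two p hE hF hz hx hl
  obtain ⟨h3, h4⟩ := cls_poly p hz n c
  obtain ⟨h5, h6⟩ := cls_poly p hF.ty.lim m d
  have h7 : g = ∑ i ∈ Finset.range n, c i • (frG p v E LE)^[i] g₂ +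
      ∑ i ∈ Finset.range m, d i • (frG p v E LE)^[i] g₁ := by
    refine Subtype.ext ?_
    rw [Submodule.coe_add, coe_sum_frG, coe_sum_frG, ← h1, ← h2, ← h4, ← h6, ← cls_add h3 h5, ← hxg]
    refine cls_congr hl (Lim.add h3 h5) ?_
    rwa [sub_sub] at hs
  rw [h7]
  exact add_mem (V_le_RS n (sum_mem_V (Submodule.subset_span (by simp)) n c))
    (V_le_RS m (sum_mem_V (Submodule.subset_span (by simp)) m d))

/-- **Adapted basis of the limits, rank two.** -/
theorem flag_two (h : Oper p v C E T) (hN : Nilp v T L LE) (hV : NSD p h) (hD : Desc v C E T L LE)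
    {y : Ω} (hF : Fib v E LE y z 0 0) (hz : Lim v E 0 z) :
    ∃ g₁ g₂, Fib v E LE g₁ g₂ 0 0 ∧ Lim v E 0 g₂ ∧
      (∀ φ ∈ T, ∀ Φ : Opr v LE, IsExt L φ Φ → Nr v E 0 (fn Φ g₁)) ∧
      ∀ φ ∈ T, ∀ Φ : Opr v LE, IsExt L φ Φ → Spn p v E g₁ (fn Φ g₂) := by
  have hEL : E ≤ LE := by
    rw [hD.eq]
    exact le_sup_right.trans (TWM.le_clI _)
  have hmem : ∀ {y z : Ω}, Fib v E LE y z 0 0 → y ∈ LE ∧ z ∈ LE := fun {y z} hF => by
    rw [hF.eq]
    exact ⟨le_cadj v _ z (self_mem_cadj v E y), self_mem_cadj v _ z⟩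
  obtain ⟨hyL, hzL⟩ := hmem hF
  have hy : Lim v E 0 y := hF.ty.lim
  have hk : Ctx0 k v := Fact.out
  obtain ⟨O, hO⟩ : ∃ O, O = opsG p h (act_mem_Xl hD) := ⟨_, rfl⟩
  obtain ⟨e₁, he₁⟩ : ∃ e₁ : Xl v E LE, e₁ = ⟨cls v E y, mem_Xl hyL hy⟩ := ⟨_, rfl⟩
  obtain ⟨e₂, he₂⟩ : ∃ e₂ : Xl v E LE, e₂ = ⟨cls v E z, mem_Xl hzL hz⟩ := ⟨_, rfl⟩
  obtain ⟨U, hU⟩ : ∃ U, U = Submodule.span k {e₁, e₂} := ⟨_, rfl⟩
  have hact : (act O U).FG := by
    rw [hU, span_pair]
    refine fg_of_le_fg act_sup_le ?_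
    rw [hO, he₁, he₂]
    exact (act_fg p h hN hD hyL hy).sup (act_fg p h hN hD hzL hz)
  have hU₀ : (U ⊔ act O U).FG := by
    refine Submodule.FG.sup ?_ hact
    rw [hU]
    exact Submodule.fg_span (Set.toFinite _)
  have hst : act O (U ⊔ act O U) ≤ U ⊔ act O U :=
    act_sup_le.trans (sup_le le_sup_right (act_act_le.trans le_sup_right))
  obtain ⟨m₁, hm₁⟩ := hN.nil y hyL
  obtain ⟨m₂, hm₂⟩ := hN.nil z hzL
  have hUZ : U ≤ Zk O (max m₁ m₂) := by
    rw [hU, Submodule.span_le]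
    rintro x (rfl | rfl)
    · rw [he₁, hO]
      exact Zk_mono _ (le_max_left _ _) (kil_Zk p h hD m₁ hyL hy hm₁)
    · rw [he₂, hO]
      exact Zk_mono _ (le_max_right _ _) (kil_Zk p h hD m₂ hzL hz hm₂)
  have hU₀Z : U ⊔ act O U ≤ Zk O (max m₁ m₂ + 1) :=
    sup_le (hUZ.trans (Zk_le_succ O _)) ((act_mono (hUZ.trans (Zk_le_succ O _))).trans
      ((act_Zk_le O _).trans (Zk_le_succ O _)))
  have hr : (act O)^[max m₁ m₂ + 1] (U ⊔ act O U) = ⊥ :=
    le_bot_iff.1 ((act_it_mono _ hU₀Z).trans (act_it_Zk O _).le)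
  have htop : RS (frG p v E LE) (U ⊔ act O U) = ⊤ := by
    rw [← top_le_iff, ← gen_top p h.cld hF hz (g₁ := e₁) (g₂ := e₂) (by rw [he₁]) (by rw [he₂]), ← hU]
    exact RS_mono le_sup_left
  have hsat : Sat (frG p v E LE) (RS (frG p v E LE) (U ⊔ act O U)) =
      RS (frG p v E LE) (U ⊔ act O U) := by
    rw [htop]
    exact top_le_iff.1 (le_Sat le_top)
  have hTF := sat_frG p hF
  have hflag := flag (O := O) hTF hU₀ hst hr hsat (fun Y _ hY b hb hs => by
    rw [hO] at hs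
    exact nsd_coe p h hV _ hTF hY hb hs)
  rw [htop] at hflag
  obtain ⟨g₁, g₂, ⟨y', z', hF', hz', h1, h2⟩, h3, h4⟩ := flag_basis (O := O) (e₁ := e₁) (e₂ := e₂)
    (Bas := fun g₁ g₂ => ∃ y z, Fib v E LE y z 0 0 ∧ Lim v E 0 z ∧ cls v E y = (g₁ : MM v E) ∧
      cls v E z = (g₂ : MM v E))
    (by
      rintro g₁ g₂ ⟨y, z, hF, hz, h1, h2⟩
      exact ⟨z, y, hF.swap hz, hF.ty.lim, h2, h1⟩)
    (by
      rintro g₁ g₂ ⟨y, z, hF, hz, h1, h2⟩ a d
      have hyA : y ∈ cadj v E y := self_mem_cadj v E y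
      have hfA : algebraMap k Ω a * y ^ p ^ d ∈ cadj v E y :=
        mul_mem ((cadj v E y).algebraMap_mem a) (pow_mem hyA _)
      have hl1 := Lim.pow_pow p hF.ty.lim d
      refine ⟨y, z + algebraMap k Ω a * y ^ p ^ d, hF.gen₂ (one_mem _) one_ne_zero hfA
        (add_mem (hmem hF).2 ?_) (by rw [v.map_one, zero_add]) ?_, Lim.add hz (Lim.smul hl1 a), h1, ?_⟩
      · exact mul_mem (LE.algebraMap_mem a) (pow_mem (hmem hF).1 _)
      · rw [one_mul, sub_self]
        exact Gt.zero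
      · rw [cls_add hz (Lim.smul hl1 a), cls_smul hl1, cls_pow_pow p hF.ty.lim, Submodule.coe_add,
          Submodule.coe_smul, frG_it, h1, h2])
    (by
      rintro g₁ g₂ ⟨y, z, hF, hz, h1, h2⟩
      exact gen_top p h.cld hF hz h1 h2)
    ⟨y, z, hF, hz, by rw [he₁], by rw [he₂]⟩ hflag
  obtain ⟨hy'L, hz'L⟩ := hmem hF'
  have hy' := hF'.ty.lim
  have hop : ∀ φ ∈ T, ∃ ψ ∈ O.A, ∀ g : Xl v E LE, ((ψ g : Xl v E LE) : MM v E) = MM.act φ g := by
    intro φ hφ
    rw [hO]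
    exact ⟨(MM.act φ).restrict (act_mem_Xl hD φ hφ), ⟨φ, hφ, fun g => rfl⟩, fun g => rfl⟩
  refine ⟨y', z', hF', hz', fun φ hφ Φ hΦ => ?_, fun φ hφ Φ hΦ => ?_⟩
  · obtain ⟨ψ, hψ, h5⟩ := hop φ hφ
    obtain ⟨h6, h7⟩ := cls_opr hEL hΦ.eq hy'L hy'
    have h8 : ψ g₁ = 0 := (Submodule.mem_bot k).1
      (h4 ▸ mem_act hψ (Submodule.mem_span_singleton_self g₁))
    refine (cls_eq_zero h6).1 ?_
    rw [h7, h1, ← h5, h8]
    rfl
  · obtain ⟨ψ, hψ, h5⟩ := hop φ hφ
    obtain ⟨h6, h7⟩ := cls_opr hEL hΦ.eq hz'L hz'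
    obtain ⟨n, h8⟩ := mem_RS.1 (h3 (mem_act hψ (Submodule.mem_top (x := g₂))))
    obtain ⟨c, h9⟩ := V_coef n h8
    obtain ⟨h10, h11⟩ := cls_poly p hy' n c
    refine ⟨n, c, nr_of_cls_eq h6 h10 ?_⟩
    rw [h7, h2, ← h5, h9, coe_sum_frG, h11, h1]

end Mod

end Pool.Agent.TWC
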