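import Pool.Agent.Lib.TWC.TowerOne
import Pool.Agent.Lib.TWC.Dich
import Pool.Agent.Lib.TWC.Flag2
import Pool.Agent.Lib.TWC.Tow

/-!
# TANK W, class C, row B3f: descent of the towers of length at most two
-/

set_option autoImplicit false

open Polynomial

namespace Pool.Agent.TWC

open Pool.Agent.H15JM (RVal)
open Pool.Agent.LU1 (VPos adj)
open Pool.Agent.D2 (Ctx0)
open Pool.Agent.D2P (hen clI mem_clI)
open Pool.Agent.TWM

universe u

variable {k Ω : Type u} [Field k] [Field Ω] [Algebra k Ω] {v : RVal Ω} [Fact (Ctx0 k v)]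
  {C E L LE : IntermediateField k Ω} {z : Ω} (p : ℕ) [Fact p.Prime] [CharP k p] [CharP Ω p]
  [PerfectRing k p] [IsAlgClosed Ω] {T : Submodule k (Opr v E)}

/-- **length two** -/
theorem tower_two (h : Oper p v C E T) (hN : Nilp v T L LE) (hV : NSD p h) (hD : Desc v C E T L LE)
    {y : Ω} (hF : Fib v E LE y z 0 0) : ∃ u₁ ∈ L, ∃ u₂ ∈ L, Fib v C L u₁ u₂ 0 0 := by
  classical
  have hL : L ≤ LE := hD.le_LE
  by_cases hX : ∀ x ∈ LE, Lim v E 0 x → Spn p v E y x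
  · -- rank one
    have hyLE : y ∈ LE := by
      rw [hF.eq]
      exact le_cadj _ _ _ (self_mem_cadj v E y)
    refine tower_two_of hD h.cldC h.cld h.le hF
      (fun φ hφ Φ hΦ => triv_one p h hN hV hD hF.ty hyLE hX hφ hΦ) fun u hu hn hu' => ?_
    obtain ⟨z', hF'⟩ := fib_move hF (hL hu) hn
    exact ⟨z', hF', fun φ hφ Φ hΦ => triv_two p h hN hV hD hu hu'.lim hF'
      (fun x hx hl => (hX x hx hl).move hn) hφ hΦ⟩
  · -- rank two
    push Not at hX
    obtain ⟨x, hx, hl, hn⟩ := hX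
    obtain ⟨b, hb, hb'⟩ := dich p h.cld h.perf hF hx hl hn
    have hF₁ : Fib v E LE y (z - b) 0 0 := by
      refine ⟨hF.ty, hF.tz.sub_mem hb, ?_⟩
      rw [cadj_sub_mem hb]
      exact hF.eq
    obtain ⟨g₁, g₂, hF₂, hg, h1, h2⟩ := flag_two p h hN hV hD hF₁ hb'
    refine tower_two_of hD h.cldC h.cld h.le hF₂ h1 fun u hu hn _ => ?_
    exact ⟨g₂, fib_move_lim hF₂ hg (hL hu) hn, fun φ hφ Φ hΦ => ((h2 φ hφ Φ hΦ).move hn).nr⟩

/-- **B3.** -/
theorem descend_tow (h : Oper p v C E T) (hN : Nilp v T L LE) (hV : NSD p h)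
    (hD : Desc v C E T L LE) {n : ℕ} (hn : n ≤ 2) (hT : Tow v n E LE) : Tow v n C L := by
  interval_cases n
  · rw [tow_zero] at hT ⊢
    refine ⟨h.cldC, le_antisymm hD.le fun l hl => ?_⟩
    refine hD.inf h.cldC le_rfl hD.le hl ?_
    rw [clI_sup_base h.le h.cld, hT.2]
    exact hD.le_LE hl
  · rw [tow_one] at hT ⊢
    obtain ⟨y, hy, hLE⟩ := hT
    obtain ⟨u, -, hu, h1⟩ := tower_one p h hN hV hD hy hLE
    exact ⟨u, hu, h1⟩
  · rw [tow_two] at hT ⊢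
    obtain ⟨y, z, hF⟩ := hT
    obtain ⟨u₁, -, u₂, -, h1⟩ := tower_two p h hN hV hD hF
    exact ⟨u₁, u₂, h1⟩

end Pool.Agent.TWC
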