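import Pool.Agent.Lib.TWC.BaseCh
import Pool.Agent.Lib.TWC.Tow
import Pool.Agent.Lib.TWC.Exch
import Pool.Agent.Lib.TWC.NotRoot
import Pool.Agent.Lib.TWC.EW
import Pool.Agent.Lib.TWC.BaseW
import Pool.Agent.Lib.TWC.NilpGen
import Pool.Agent.Lib.TWC.Tower

/-!
# TANK W, class C, row T7: THEOREM C* (helper43 v2.1)

`P` perfect, `T` a tower of length `s ≤ 3` over `P`, `T^p ≤ L ≤ T`: `L` is a tower of length `s`
over `P`.

Induction on `s`, over all the perfect fields `P`.  Let `y` be the first generator of `T`.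
* (i) some `u ∈ L` is at distance `≥ 0` of `y + P`: then at distance `> 0` of `y` after a
  translation, and `w := u` is a first generator of `T` (`Tow.exch`);
* (ii) otherwise `w := y^p`, in `T^p ≤ L`.
In both cases `w ∈ L` and `w^(1/p)` is at distance `≤ 0` of `L`.  The field `E`, closure of
`P(w^(1/p^∞))`, is perfect, the closure `T'` of `T E` is a tower of length `s - 1` over `E`, so the
closure `L'` of `L E` is a tower of length `s - 1 ≤ 2` over `E`, and this descends to `L` over
`P<w>` (`descend_tow`).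
-/

set_option autoImplicit false

open Polynomial

namespace Pool.Agent.TWC

open Pool.Agent.H15JM (RVal)
open Pool.Agent.LU1 (VPos adj)
open Pool.Agent.D2 (Ctx0)
open Pool.Agent.D2P (hen clI mem_clI)
open Pool.Agent.TWM

universe u

variable {k Ω : Type u} [Field k] [Field Ω] [Algebra k Ω] {v : RVal Ω}
  (p : ℕ) [Fact p.Prime] [CharP k p] [CharP Ω p] [PerfectRing k p] [IsAlgClosed Ω]

omit [PerfectRing k p] [CharP k p] [CharP Ω p] [Algebra k Ω] [Field k] in
/-- compatible `p^n`-th roots -/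
theorem exists_roots (w : Ω) : ∃ r : ℕ → Ω, r 0 = w ∧ ∀ n, r (n + 1) ^ p = r n := by
  choose g hg using fun x : Ω => IsAlgClosed.exists_pow_nat_eq x (Fact.out : p.Prime).pos
  refine ⟨fun n => g^[n] w, rfl, fun n => ?_⟩
  simp only [Function.iterate_succ_apply']
  exact hg _

/-- The two cases together: `T` is a tower over `P<u i>`, `u 0 ∈ L`, `u 1` far from `L`. -/
theorem cstar_step [Fact (Ctx0 k v)] (hc : CompleteV v) {n : ℕ} (hn : n ≤ 2)
    (ih : ∀ P T L : IntermediateField k Ω, Cld v P → (∀ a ∈ P, ∃ b ∈ P, b ^ p = a) →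
      Tow v n P T → Cld v L → L ≤ T → (∀ t ∈ T, t ^ p ∈ L) → Tow v n P L)
    {P T L : IntermediateField k Ω} (hP : Cld v P) (hP' : ∀ a ∈ P, ∃ b ∈ P, b ^ p = a)
    (hL : Cld v L) (hLT : L ≤ T) (hTL : ∀ t ∈ T, t ^ p ∈ L) (hPL : P ≤ L)
    {u : ℕ → Ω} (hu : ∀ n, u (n + 1) ^ p = u n) (i : ℕ) (hT : Tow v n (cadj v P (u i)) T)
    (hw : TL v P (u 0) 0) (hwL : u 0 ∈ L) (hfar : ¬ Nr' v L 0 (u 1)) : Tow v (n + 1) P L := by
  have hE : Cld v (EW v P u) := EW.cld
  have hE' : ∀ a ∈ EW v P u, ∃ b ∈ EW v P u, b ^ p = a := EW.perf p hc hP hP' hu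
  have h1 : Tow v n (EW v P u) (clI v (T ⊔ EW v P u)) :=
    Tow.base hT (EW.cadj_le i) hE (EW.alg p rfl hu i)
  have h2 : Tow v n (EW v P u) (clI v (L ⊔ EW v P u)) :=
    ih _ _ _ hE hE' h1 (cld_clI v _) (clI_mono (sup_le_sup_right hLT _)) (pow_mem_sup p hE' hTL)
  obtain ⟨O, D, h, hG, hV, hdesc⟩ := base_w p hc hP hP' hw rfl hu
  have hD := hdesc L hL hPL hwL hfar
  exact Tow.succ hw (descend_tow p h (nilp_of_gen p h hG hD) hV hD hn h2)

/-- **THEOREM C*.** -/
theorem cstar [Fact (Ctx0 k v)] (hc : CompleteV v) (s : ℕ) (hs : s ≤ 3) :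
    ∀ P T L : IntermediateField k Ω,
    Cld v P → (∀ a ∈ P, ∃ b ∈ P, b ^ p = a) → Tow v s P T → Cld v L → L ≤ T →
    (∀ t ∈ T, t ^ p ∈ L) → Tow v s P L := by
  induction s with
  | zero =>
    intro P T L hP hP' hT hL hLT hTL
    cases hT with
    | zero _ =>
      have h1 : L = P := le_antisymm hLT fun a ha => by
        obtain ⟨b, hb, rfl⟩ := hP' a ha
        exact hTL b hb
      rw [h1]
      exact Tow.zero hP
  | succ n ih =>
    intro P T L hP hP' hT hL hLT hTL
    have hn : n ≤ 2 := by omega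
    have ih' := ih (by omega)
    have hPT : P ≤ T := Tow.le hT hP
    have hPL : P ≤ L := fun a ha => by
      obtain ⟨b, hb, rfl⟩ := hP' a ha
      exact hTL b (hPT hb)
    cases hT with
    | @succ _ _ _ y hy hT =>
      have hyT : y ∈ T := (Tow.le hT (cld_cadj v P y)) (self_mem_cadj v P y)
      by_cases hcase : ∃ u ∈ L, Nr v P 0 (u - y)
      · obtain ⟨u, huL, a, ha, h1⟩ := hcase
        obtain ⟨c, h2⟩ := (Fact.out : Ctx0 k v).residue h1
        obtain ⟨w, hw⟩ : ∃ w, w = u - a - algebraMap k Ω c := ⟨_, rfl⟩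
        have hwL : w ∈ L := by
          rw [hw]
          exact sub_mem (sub_mem huL (hPL ha)) (L.algebraMap_mem c)
        have hg : Gt v 0 (w - y) := by
          have h3 : w - y = u - y - a - algebraMap k Ω c := by
            rw [hw]
            ring
          rw [h3]
          exact h2
        have hwT : TL v P w 0 := TL.congr hy hg
        have hT' : Tow v n (cadj v P w) T := Tow.exch hP hy hT (hLT hwL) hg
        obtain ⟨r, hr0, hr⟩ := exists_roots p w
        refine cstar_step p hc hn ih' hP hP' hL hLT hTL hPL hr 0 (by rwa [hr0]) (by rwa [hr0])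
          (by rwa [hr0]) ?_
        rintro ⟨l, hl, h3⟩
        refine Tow.not_root p (Fact.out : Ctx0 k v) hP hP' hwT hT' (hLT hl) ?_
        have h4 : l ^ p - w = -((r 1 - l) ^ p) := by
          rw [sub_pow_p, show (1 : ℕ) = 0 + 1 from rfl, hr 0, hr0]
          ring
        rw [h4]
        have h5 := ge_pow h3.ge p
        rw [mul_zero] at h5
        exact h5.neg
      · obtain ⟨r, hr0, hr⟩ := exists_roots p y
        have hr1 : r 1 ^ p = r 0 := hr 0
        have hw : TL v P (y ^ p) 0 := by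
          refine ⟨?_, ?_⟩
          · intro ε hε
            have hp0 : (0 : ℝ) < p := by exact_mod_cast (Fact.out : p.Prime).pos
            obtain ⟨b, hb, h1⟩ := hy.lim (ε / p) (div_pos hε hp0)
            refine ⟨b ^ p, pow_mem hb p, ?_⟩
            rw [← sub_pow_p]
            exact (ge_pow h1 p).mono (by rw [mul_sub, mul_div_cancel₀ _ hp0.ne', mul_zero])
          · intro θ hθ
            obtain ⟨θ', rfl⟩ := IsAlgClosed.exists_pow_nat_eq θ (Fact.out : p.Prime).pos
            obtain ⟨h1, h2⟩ := hy.far θ' (IsAlgebraic.of_pow (Fact.out : p.Prime).pos hθ)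
            have h3 : y - θ' ≠ 0 := sub_ne_zero.2 h1
            have hp0 : (0 : ℝ) < p := by exact_mod_cast (Fact.out : p.Prime).pos
            rw [← sub_pow_p, v.map_pow h3]
            refine ⟨?_, mul_neg_of_pos_of_neg hp0 h2⟩
            rw [← sub_ne_zero, ← sub_pow_p]
            exact pow_ne_zero p h3
        refine cstar_step p hc hn ih' (u := fun n => r n ^ p) hP hP' hL hLT hTL hPL
          (fun n => by rw [hr n]) 1 ?_ ?_ ?_ ?_
        · show Tow v n (cadj v P (r 1 ^ p)) T
          rw [hr1, hr0]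
          exact hT
        · show TL v P (r 0 ^ p) 0
          rw [hr0]
          exact hw
        · show r 0 ^ p ∈ L
          rw [hr0]
          exact hTL y hyT
        · show ¬ Nr' v L 0 (r 1 ^ p)
          rw [hr1, hr0]
          rintro ⟨l, hl, h3⟩
          refine hcase ⟨l, hl, 0, zero_mem P, ?_⟩
          rw [sub_zero]
          exact h3.sub_comm'.ge

end Pool.Agent.TWC
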