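import Pool.Agent.Lib.TWC.ClDefs

/-!
# TANK W, class C, row R2c: the action of the operators on the coefficients

`cf φ f`: the operator `φ` of `E` applied to the coefficients of `f`; it commutes with the Hasse
derivatives, `cf φ (f ^ p) = (cf φ' f) ^ p` if `φ Fr = Fr φ'`, it kills the constants of `C`, and it
has norm `≤ 0` for the value at `z`, if `z` is a limit of `C`.
-/

set_option autoImplicit false

open Polynomial TensorProduct

namespace Pool.Agent.TWC

open Pool.Agent.H15JM (RVal)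
open Pool.Agent.LU1 (VPos adj)
open Pool.Agent.D2 (Ctx0)
open Pool.Agent.TWM

universe u

variable {k Ω : Type u} [Field k] [Field Ω] [Algebra k Ω] {v : RVal Ω} [Fact (Ctx0 k v)]
  {C E : IntermediateField k Ω} {z : Ω} (p : ℕ) [Fact p.Prime] [CharP k p] [CharP Ω p]
  [PerfectRing k p] [IsAlgClosed Ω] {T : Submodule k (Opr v E)}

omit [IsAlgClosed Ω] in
theorem smul_mem_PI (a : k) {f : Polynomial Ω} (hf : f ∈ PI E) : algebraMap k Ω a • f ∈ PI E :=
  fun i => by
    rw [coeff_smul, smul_eq_mul]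
    exact mul_mem (E.algebraMap_mem a) (hf i)

omit [IsAlgClosed Ω] in
theorem cf_smul (φ : Opr v E) (a : k) {f : Polynomial Ω} (hf : f ∈ PI E) :
    cf φ (algebraMap k Ω a • f) = algebraMap k Ω a • cf φ f := by
  ext i
  rw [coeff_cf, coeff_smul, coeff_smul, coeff_cf, smul_eq_mul, smul_eq_mul, ← Algebra.smul_def,
    ← Algebra.smul_def, fn_smul φ a (hf i)]

omit [IsAlgClosed Ω] in
theorem fn_natCast_mul (φ : Opr v E) (n : ℕ) {x : Ω} (hx : x ∈ E) :
    fn φ ((n : Ω) * x) = (n : Ω) * fn φ x := by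
  induction n with
  | zero => rw [Nat.cast_zero, zero_mul, zero_mul, fn_zero]
  | succ n ih =>
    rw [Nat.cast_succ, add_mul, add_mul, one_mul, one_mul,
      fn_add φ (mul_mem (natCast_mem E n) hx) hx, ih]

omit [IsAlgClosed Ω] in
theorem fn_sum (φ : Opr v E) {ι : Type*} (S : Finset ι) (x : ι → Ω) (hx : ∀ i ∈ S, x i ∈ E) :
    fn φ (∑ i ∈ S, x i) = ∑ i ∈ S, fn φ (x i) := by
  classical
  induction S using Finset.induction_on with
  | empty => rw [Finset.sum_empty, Finset.sum_empty, fn_zero]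
  | insert a S ha ih =>
    rw [Finset.sum_insert ha, Finset.sum_insert ha,
      fn_add φ (hx a (Finset.mem_insert_self a S))
        (sum_mem fun i hi => hx i (Finset.mem_insert_of_mem hi)),
      ih fun i hi => hx i (Finset.mem_insert_of_mem hi)]

omit [IsAlgClosed Ω] in
theorem cf_hasse (φ : Opr v E) (J : ℕ) {f : Polynomial Ω} (hf : f ∈ PI E) :
    cf φ (hasseDeriv J f) = hasseDeriv J (cf φ f) := by
  ext i
  rw [coeff_cf, hasseDeriv_coeff, hasseDeriv_coeff, coeff_cf, fn_natCast_mul φ _ (hf _)]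

omit [IsAlgClosed Ω] in
theorem cf_pow {φ φ' : Opr v E}
    (h : ∀ x : E, (φ : Module.End k E) (x ^ p) = ((φ' : Module.End k E) x) ^ p)
    {f : Polynomial Ω} (hf : f ∈ PI E) : cf φ (f ^ p) = cf φ' f ^ p := by
  have hp0 : 0 < p := (Fact.out : p.Prime).pos
  ext i
  rw [coeff_cf, ← Polynomial.map_frobenius_expand (p := p) (f := f),
    ← Polynomial.map_frobenius_expand (p := p) (f := cf φ' f), coeff_map, coeff_map,
    coeff_expand hp0, coeff_expand hp0]
  split_ifs with hi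
  · rw [coeff_cf, frobenius_def, frobenius_def, fn_of_mem φ (pow_mem (hf _) p),
      fn_of_mem φ' (hf _)]
    exact congrArg Subtype.val (h ⟨_, hf _⟩)
  · rw [map_zero, fn_zero]

omit [IsAlgClosed Ω] in
theorem cf_mul {φ φ' : Opr v E} {f : Polynomial Ω} (hf : f ∈ PI E) :
    cf (φ * φ') f = cf φ (cf φ' f) := by
  ext i
  rw [coeff_cf, coeff_cf, coeff_cf, fn_of_mem (φ * φ') (hf i), fn_of_mem φ (fn_mem φ' _)]
  exact (congrArg (fun y : E => (((φ : Module.End k E) y : E) : Ω))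
    (Subtype.ext (fn_of_mem φ' (hf i)) :
      (⟨fn φ' (f.coeff i), fn_mem φ' _⟩ : E) = (φ' : Module.End k E) ⟨f.coeff i, hf i⟩)).symm

omit [IsAlgClosed Ω] in
theorem fn_lin (h : Oper p v C E T) {φ : Opr v E} (hφ : φ ∈ T) {c x : Ω} (hc : c ∈ C)
    (hx : x ∈ E) : fn φ (c * x) = c * fn φ x := by
  rw [fn_of_mem φ (mul_mem (h.le hc) hx), fn_of_mem φ hx]
  exact congrArg Subtype.val (h.lin φ hφ ⟨c, h.le hc⟩ hc ⟨x, hx⟩)

omit [IsAlgClosed Ω] in
/-- the constants of `k` (and of `C`) are killed -/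
theorem fn_C (h : Oper p v C E T) {φ : Opr v E} (hφ : φ ∈ T) {c : Ω} (hc : c ∈ C) :
    fn φ c = 0 := by
  have h1 := fn_lin p h hφ hc (one_mem E)
  rw [mul_one] at h1
  rw [h1, fn_of_mem φ (one_mem E)]
  have h2 : (⟨1, one_mem E⟩ : E) = 1 := rfl
  rw [h2, h.one φ hφ]
  exact mul_zero c

omit [IsAlgClosed Ω] in
/-- the constants of `k` (and of `C`) are killed -/
theorem cf_C (h : Oper p v C E T) {φ : Opr v E} (hφ : φ ∈ T) {c : Ω} (hc : c ∈ C) :
    cf φ (Polynomial.C c) = 0 := by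
  ext i
  rw [coeff_cf, coeff_C, coeff_zero]
  split_ifs
  · exact fn_C p h hφ hc
  · exact fn_zero φ

omit [IsAlgClosed Ω] in
/-- `cf` commutes with the translations by elements of `C` -/
theorem cf_taylor (h : Oper p v C E T) {φ : Opr v E} (hφ : φ ∈ T) {c : Ω} (hc : c ∈ C)
    {f : Polynomial Ω} (hf : f ∈ PI E) : cf φ (taylor c f) = taylor c (cf φ f) := by
  ext i
  rw [coeff_cf, taylor_coeff, taylor_coeff, ← cf_hasse φ i hf]
  have hg : hasseDeriv i f ∈ PI E := hasse_mem_PI hf i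
  set g := hasseDeriv i f
  have hd : (cf φ g).natDegree ≤ g.natDegree := by
    refine natDegree_le_iff_coeff_eq_zero.2 fun m hm => ?_
    rw [coeff_cf, coeff_eq_zero_of_natDegree_lt hm, fn_zero]
  rw [eval_eq_sum_range, eval_eq_sum_range' (Nat.lt_succ_of_le hd), fn_sum φ _ _ fun j _ =>
    mul_mem (hg j) (pow_mem (h.le hc) j)]
  refine Finset.sum_congr rfl fun j _ => ?_
  rw [coeff_cf, mul_comm, fn_lin p h hφ (pow_mem hc j) (hg j), mul_comm]

/-- norm `≤ 0` on `E[z]`; proof: Taylor expansion at a point `h ∈ C` near `z` -/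
theorem cf_ge (h : Oper p v C E T) (hz : TL v E z 0) (hzC : Lim v C 0 z) {φ : Opr v E}
    (hφ : φ ∈ T) {f : Polynomial Ω} (hf : f ∈ PI E) {b : ℝ} (hb : v.Ge b (f.eval z)) :
    v.Ge b ((cf φ f).eval z) := by
  by_cases hf0 : f = 0
  · have : cf φ f = 0 := by
      ext i
      rw [coeff_cf, hf0, coeff_zero, fn_zero]
    rw [this, eval_zero]
    exact RVal.Ge.zero
  have hf' : f ∈ PI (TWM.algc E) := PI_mono (le_algc E) hf
  have hfz : f.eval z ≠ 0 := hz.eval_ne hf' hf0
  have hb' := hb hfz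
  intro hne
  refine le_of_forall_pos_le_add fun ε hε => ?_
  -- the coefficients of `f` at `z`
  have h1 : ∀ l : ℕ, v.Ge (b - l * 0) ((taylor z f).coeff l) := fun l =>
    (hz.weak hf' hf0 l).mono (by linarith)
  set d := f.natDegree with hd
  set γ := ε / (2 * (d + 1)) with hγ
  have hγ0 : 0 < γ := by positivity
  obtain ⟨c, hc, hzc⟩ := hzC γ hγ0
  have h2 : ∀ l, v.Ge (b - d * γ) ((taylor c f).coeff l) := by
    intro l
    have hEz : taylor c f = taylor (c - z) (taylor z f) := by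
      rw [taylor_taylor, sub_add_cancel]
    rw [hEz, taylor_coeff, hasseDeriv_apply, eval_sum, Polynomial.sum_def]
    refine RVal.Ge.sum _ _ fun i hi => ?_
    rw [eval_monomial]
    have hi' : i ≤ d := by
      have := le_natDegree_of_mem_supp i hi
      rwa [natDegree_taylor] at this
    have h3 := RVal.Ge.mul (RVal.Ge.mul (ge_natCast v (i.choose l)) (h1 i))
      (ge_pow (ge_sub_comm hzc) (i - l))
    refine h3.mono ?_
    have h4 : (i - l : ℕ) * γ ≤ d * γ := by
      have : ((i - l : ℕ) : ℝ) ≤ d := by exact_mod_cast (by omega : i - l ≤ d)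
      exact mul_le_mul_of_nonneg_right this hγ0.le
    have h5 : ((i - l : ℕ) : ℝ) * (0 - γ) = - (((i - l : ℕ) : ℝ) * γ) := by ring
    rw [h5]
    linarith
  have h3 : ∀ l, v.Ge (b - d * γ) ((taylor c (cf φ f)).coeff l) := by
    intro l
    rw [← cf_taylor p h hφ hc hf, coeff_cf]
    exact fn_ge φ (taylor_mem_PI hf (h.le hc) l) (h2 l)
  have hd' : (cf φ f).natDegree ≤ d := by
    refine natDegree_le_iff_coeff_eq_zero.2 fun m hm => ?_
    rw [coeff_cf, coeff_eq_zero_of_natDegree_lt hm, fn_zero]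
  have h4 : v.Ge (b - d * γ - d * γ) ((cf φ f).eval z) := by
    rw [eval_eq_taylor (cf φ f) c z, eval_eq_sum_range, natDegree_taylor]
    refine RVal.Ge.sum _ _ fun l hl => ?_
    have hl' : (l : ℝ) ≤ d := by
      have := Finset.mem_range.1 hl
      exact_mod_cast (by omega : l ≤ d)
    refine (RVal.Ge.mul (h3 l) (ge_pow hzc l)).mono ?_
    nlinarith
  have h5 := h4 hne
  have h6 : d * γ ≤ ε / 2 := by
    rw [hγ, ← mul_div_assoc, div_le_div_iff₀ (by positivity) (by norm_num)]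
    nlinarith
  linarith

theorem cf_gt (h : Oper p v C E T) (hz : TL v E z 0) (hzC : Lim v C 0 z) {φ : Opr v E}
    (hφ : φ ∈ T) {f : Polynomial Ω} (hf : f ∈ PI E) {b : ℝ} (hb : Gt v b (f.eval z)) :
    Gt v b ((cf φ f).eval z) := by
  by_cases hfz : f.eval z = 0
  · have h1 : ∀ r, v.Ge r ((cf φ f).eval z) := fun r =>
      cf_ge p h hz hzC hφ hf (by rw [hfz]; exact RVal.Ge.zero)
    exact Gt.of_ge (h1 (b + 1)) (by linarith)
  · exact Gt.of_ge (cf_ge p h hz hzC hφ hf (RVal.ge_self _)) (hb hfz)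

end Pool.Agent.TWC
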