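import Pool.Agent.Lib.TWC.ClDefs
import Pool.Agent.Lib.TWC.Vp

/-!
# TANK W, class C, row R10a: the class of a limit of `E[z]`

* `zc_linInd`, `zc_free`: the classes `z_c` of the `z ^ p ^ c` are independent, and independent
  modulo torsion;
* `act_zc`: the operators kill them;
* `exists_dat`: existence of the data of the class;
* `Dat.unique`: the class does not depend on the data.
-/

set_option autoImplicit false

open Polynomial TensorProduct

namespace Pool.Agent.TWC

open Pool.Agent.H15JM (RVal)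
open Pool.Agent.LU1 (VPos adj)
open Pool.Agent.D2 (Ctx0)
open Pool.Agent.TWM

universe u

variable {k Ω : Type u} [Field k] [Field Ω] [Algebra k Ω] {v : RVal Ω} [hc : Fact (Ctx0 k v)]
  {C E : IntermediateField k Ω} {z : Ω} (p : ℕ) [Fact p.Prime] [CharP k p] [CharP Ω p]
  [PerfectRing k p] [IsAlgClosed Ω] {T : Submodule k (Opr v E)}

omit [IsAlgClosed Ω] in
/-- the Hasse derivative of order `p ^ c` of `X ^ p ^ i` -/
theorem hasse_X_pow (c i : ℕ) (w : Ω) :
    (hasseDeriv (p ^ c) ((X : Polynomial Ω) ^ p ^ i)).eval w = if i = c then 1 else 0 := by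
  have hp : p.Prime := Fact.out
  split_ifs with h
  · subst h
    rw [← monomial_one_right_eq_X_pow, hasseDeriv_monomial, Nat.choose_self, Nat.sub_self]
    simp
  · rcases Nat.lt_or_ge c i with h1 | h1
    · refine hasse_pow_char p i X fun h2 => ?_
      exact absurd (Nat.le_of_dvd (pow_pos hp.pos c) h2) (not_le.2 (Nat.pow_lt_pow_right hp.one_lt h1))
    · have h2 : i < c := lt_of_le_of_ne h1 h
      rw [hasseDeriv_eq_zero_of_lt_natDegree, eval_zero]
      rw [natDegree_X_pow]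
      exact Nat.pow_lt_pow_right hp.one_lt h2

omit [IsAlgClosed Ω] in
theorem hasse_sum_X_pow (s : Finset ℕ) (a : ℕ → Ω) (e w : Ω) (c : ℕ) :
    (hasseDeriv (p ^ c) (Polynomial.C e + ∑ i ∈ s, Polynomial.C (a i) * X ^ p ^ i)).eval w =
      if c ∈ s then a c else 0 := by
  have hp : p.Prime := Fact.out
  rw [map_add, hasseDeriv_C _ _ (pow_pos hp.pos c), zero_add, map_sum, eval_finsetSum]
  have h1 : ∀ i, (hasseDeriv (p ^ c) (Polynomial.C (a i) * X ^ p ^ i)).eval w =
      if i = c then a i else 0 := by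
    intro i
    rw [← smul_eq_C_mul, map_smul, eval_smul, hasse_X_pow p c i w]
    split_ifs <;> simp
  simp only [h1]
  rw [Finset.sum_ite_eq' s c]

omit [PerfectRing k p] [IsAlgClosed Ω] in
theorem it_frS (c : ℕ) (x : CauS v E) (n : ℕ) :
    (((MM.frS p v E)^[c] x : CauS v E) : ℕ → Ω) n = (x : ℕ → Ω) n ^ p ^ c := by
  induction c with
  | zero => simp
  | succ c ih =>
    rw [Function.iterate_succ_apply']
    change (((MM.frS p v E)^[c] x : CauS v E) : ℕ → Ω) n ^ p = _
    rw [ih, ← pow_mul, ← pow_succ]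

omit [PerfectRing k p] [IsAlgClosed Ω] in
theorem zc_eq (hz : TL v E z 0) (c : ℕ) :
    zc p hz c = MM.mk v E ((MM.frS p v E)^[c] (zs hz)) := it_mk c _

omit hc [IsAlgClosed Ω] in
theorem const_gt [hc : Fact (Ctx0 k v)] {a : k} (h : Gt v 0 (algebraMap k Ω a)) : a = 0 :=
  hc.out.const_eq_zero h

omit [PerfectRing k p] [IsAlgClosed Ω] in
theorem sum_zc_mk (hz : TL v E z 0) (s : Finset ℕ) (a : ℕ → k) :
    ∑ c ∈ s, a c • zc p hz c = MM.mk v E (∑ c ∈ s, a c • (MM.frS p v E)^[c] (zs hz)) := by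
  rw [map_sum]
  refine Finset.sum_congr rfl fun c _ => ?_
  rw [map_smul, zc_eq]

omit [PerfectRing k p] [IsAlgClosed Ω] in
theorem sum_zc_nul (hz : TL v E z 0) (s : Finset ℕ) (a : ℕ → k) :
    Nul v fun n => (∑ c ∈ s, algebraMap k Ω (a c) * z ^ p ^ c) -
      ((∑ c ∈ s, a c • (MM.frS p v E)^[c] (zs hz) : CauS v E) : ℕ → Ω) n := by
  have h1 : Nul v fun n => ∑ c ∈ s, algebraMap k Ω (a c) * (z - (zs hz : ℕ → Ω) n) ^ p ^ c := by
    refine Nul.sum s _ fun c _ => ?_
    exact Nul.mul_ge ((zs_nul hz).pow (p ^ c)) fun _ => hc.out.ge (a c)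
  refine h1.congr fun n => ?_
  have h2 : ((∑ c ∈ s, a c • (MM.frS p v E)^[c] (zs hz) : CauS v E) : ℕ → Ω) n =
      ∑ c ∈ s, algebraMap k Ω (a c) * (zs hz : ℕ → Ω) n ^ p ^ c := by
    rw [Submodule.coe_sum, Finset.sum_apply]
    refine Finset.sum_congr rfl fun c _ => ?_
    rw [← it_frS p c (zs hz) n, ← Algebra.smul_def]
    rfl
  rw [h2, ← Finset.sum_sub_distrib]
  refine Finset.sum_congr rfl fun c _ => ?_
  rw [sub_pow_char_pow, mul_sub]

omit [PerfectRing k p] in
theorem zc_linInd (_hE : Cld v E) (hz : TL v E z 0) : LinearIndependent k (zc p hz) := by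
  rw [linearIndependent_iff']
  intro s a h c hcs
  have hp : p.Prime := Fact.out
  rw [sum_zc_mk, MM.mk_eq_zero] at h
  obtain ⟨e, he, h1⟩ := h
  have h2 := (sum_zc_nul p hz s a).add h1
  have h3 : v.Ge 0 ((Polynomial.C (-e) + ∑ i ∈ s, Polynomial.C (algebraMap k Ω (a i)) *
      X ^ p ^ i).eval z) := by
    refine Nul.const_iff.1 (h2.congr fun n => ?_)
    rw [eval_add, eval_finsetSum, eval_C]
    simp only [eval_mul, eval_C, eval_pow, eval_X]
    ring
  have h4 : (Polynomial.C (-e) + ∑ i ∈ s, Polynomial.C (algebraMap k Ω (a i)) *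
      X ^ p ^ i) ∈ PI E := by
    refine add_mem (C_mem_PI (neg_mem he)) (sum_mem fun i _ => ?_)
    exact mul_mem (C_mem_PI (E.algebraMap_mem _)) (pow_mem X_mem_PI _)
  have h5 := hasse_gt_of_ge hz h4 h3 (l := p ^ c) (Nat.one_le_pow _ _ hp.pos)
  rw [hasse_sum_X_pow, if_pos hcs] at h5
  exact const_gt h5

omit [PerfectRing k p] [IsAlgClosed Ω] in
/-- the operators kill the class of `z` -/
theorem act_zc (h : Oper p v C E T) (hz : TL v E z 0) (hzC : Lim v C 0 z) {φ : Opr v E}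
    (hφ : φ ∈ T) (c : ℕ) : MM.act φ (zc p hz c) = 0 := by
  induction c generalizing φ with
  | succ c ih =>
    obtain ⟨φ', hφ', h1⟩ := h.tw φ hφ
    have h2 : zc p hz (c + 1) = MM.fr p v E (zc p hz c) := Function.iterate_succ_apply' _ _ _
    rw [h2, MM.act_fr p h1, ih hφ', map_zero]
  | zero =>
    have h2 : zc p hz 0 = MM.mk v E (zs hz) := rfl
    obtain ⟨m, hm, h3⟩ := Lim.exists_cau hzC
    let m' : CauS v E := ⟨m, hm.mono h.le⟩
    have h4 : MM.mk v E (zs hz) = MM.mk v E m' := by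
      rw [← sub_eq_zero, ← map_sub, MM.mk_eq_zero]
      refine ⟨0, zero_mem _, (h3.sub (zs_nul hz)).congr fun n => ?_⟩
      change z - m n - (z - (zs hz : ℕ → Ω) n) = (zs hz : ℕ → Ω) n - m n - 0
      ring
    rw [h2, h4, MM.act_mk, MM.mk_eq_zero]
    refine ⟨0, zero_mem _, Nul.zero.congr fun n => ?_⟩
    have h5 := h.lin φ hφ ⟨m n, h.le (hm.mem n)⟩ (hm.mem n) 1
    rw [mul_one, h.one φ hφ, mul_zero] at h5
    change (0 : Ω) = (((φ : Module.End k E) ⟨m n, _⟩ : E) : Ω) - 0
    rw [h5]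
    simp

/-- the `z_c` are independent modulo torsion -/
theorem zc_free (hE : Cld v E) (hz : TL v E z 0) {s : Finset ℕ} {a : ℕ → k}
    (h : ∑ c ∈ s, a c • zc p hz c ∈ Sat (MM.fr p v E) ⊥) : ∀ c ∈ s, a c = 0 := by
  obtain ⟨W, hW, h1⟩ := h
  have hli := zc_linInd p hE hz
  intro c₀ hc₀
  -- the coordinates of the elements of `W`
  let W' : Submodule k (ℕ →₀ k) := W.comap (Finsupp.linearCombination k (zc p hz))
  have hinj : Function.Injective (Finsupp.linearCombination k (zc p hz)) := hli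
  have hW' : W'.FG := by
    have : Module.Finite k W := Module.Finite.iff_fg.2 hW
    let L : W' →ₗ[k] W := (Finsupp.linearCombination k (zc p hz)).restrict (fun x hx => hx)
    have hL : Function.Injective L := fun x y hxy =>
      Subtype.ext (hinj (congrArg Subtype.val hxy))
    exact Module.Finite.iff_fg.1 (Module.Finite.of_injective L hL)
  obtain ⟨S, hS⟩ := hW'
  -- a bound for the supports
  obtain ⟨N, hN⟩ : ∃ N : ℕ, ∀ l ∈ W', ∀ n, N ≤ n → l n = 0 := by
    refine ⟨(S.biUnion fun l => l.support).sup id + 1, fun l hl n hn => ?_⟩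
    rw [← hS] at hl
    induction hl using Submodule.span_induction with
    | mem l hl =>
      by_contra h2
      have h3 : n ∈ S.biUnion fun l => l.support :=
        Finset.mem_biUnion.2 ⟨l, hl, Finsupp.mem_support_iff.2 h2⟩
      have h4 := Finset.le_sup (f := id) h3
      simp only [id] at h4
      omega
    | zero => rfl
    | add x y _ _ hx hy => rw [Finsupp.add_apply, hx, hy, add_zero]
    | smul b x _ hx => rw [Finsupp.smul_apply, hx, smul_zero]
  -- the coordinates of `F ^ N y`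
  have h2 := h1 N
  rw [bot_sup_eq, it_sum] at h2
  have h3 : (∑ c ∈ s, Finsupp.single (N + c) ((frobenius k p)^[N] (a c))) ∈ W' := by
    change Finsupp.linearCombination k (zc p hz) _ ∈ W
    rw [map_sum]
    convert h2 using 1
    refine Finset.sum_congr rfl fun c _ => ?_
    rw [Finsupp.linearCombination_single, it_smul]
    congr 1
    rw [zc, zc, Function.iterate_add_apply]
  have h4 := hN _ h3 (N + c₀) (Nat.le_add_right _ _)
  rw [Finsupp.finsetSum_apply, Finset.sum_eq_single c₀] at h4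
  · rw [Finsupp.single_eq_same] at h4
    have h5 : Function.Injective ((frobenius k p)^[N]) :=
      (frobenius k p).injective.iterate N
    refine h5 ?_
    rw [h4]
    clear * -
    induction N with
    | zero => rfl
    | succ N ih => rw [Function.iterate_succ_apply', ← ih, map_zero]
  · intro c _ hcc
    rw [Finsupp.single_eq_of_ne]
    omega
  · exact fun h => absurd hc₀ h

/-! ## Existence of the data -/

omit hc in
/-- a null sequence of polynomials over `E` at `z` stays null after a Hasse derivative -/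
theorem nul_hasse (hz : TL v E z 0) {x : ℕ → Polynomial Ω} (hx : ∀ i, x i ∈ PI E)
    (h : Nul v fun i => (x i).eval z) (J : ℕ) : Nul v fun i => (hasseDeriv J (x i)).eval z := by
  intro ε hε
  obtain ⟨N, hN⟩ := h ε hε
  exact ⟨N, fun n hn => hasse_ge hz (hx n) (hN n hn) J⟩

omit hc in
/-- `D_c' D_c x` is near to `D_c' b_c` -/
theorem Spl.hasse (hz : TL v E z 0) {x : ℕ → Polynomial Ω} (hx : ∀ i, x i ∈ PI E)
    {b : Polynomial Ω} {m : ℕ → Ω} (h : Spl v E z x b m) {J : ℕ} (hJ : 1 ≤ J) :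
    Nul v fun i => (hasseDeriv J (x i)).eval z - (hasseDeriv J b).eval z := by
  have h1 := nul_hasse hz (x := fun i => x i - b - Polynomial.C (m i))
    (fun i => sub_mem (sub_mem (hx i) h.mem) (C_mem_PI (h.cau.mem i)))
    (h.nul.congr fun i => by rw [eval_sub, eval_sub, eval_C]) J
  refine h1.congr fun i => ?_
  rw [map_sub, map_sub, hasseDeriv_C _ _ hJ, sub_zero, eval_sub]

omit [CharP k p] [CharP Ω p] [PerfectRing k p] in
/-- the residues of the data -/
theorem exists_res (hz : TL v E z 0) {x : ℕ → Polynomial Ω} (hx : PC v E z x)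
    {b : ℕ → Polynomial Ω} {m : ℕ → CauS v E}
    (hs : ∀ c, Spl v E z (fun i => hasseDeriv (p ^ c) (x i)) (b c) (m c : ℕ → Ω)) (c c' : ℕ) :
    v.Ge 0 ((hasseDeriv (p ^ c') (b c) - hasseDeriv (p ^ c) (b c')).eval z) := by
  have hp : p.Prime := Fact.out
  have hm : ∀ c i, hasseDeriv (p ^ c) (x i) ∈ PI E := fun c i => hasse_mem_PI (hx.mem i) _
  have h1 := (hs c).hasse hz (hm c) (J := p ^ c') (Nat.one_le_pow _ _ hp.pos)
  have h2 := (hs c').hasse hz (hm c') (J := p ^ c) (Nat.one_le_pow _ _ hp.pos)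
  refine Nul.const_iff.1 ((h2.sub h1).congr fun i => ?_)
  have h3 : hasseDeriv (p ^ c') (hasseDeriv (p ^ c) (x i)) =
      hasseDeriv (p ^ c) (hasseDeriv (p ^ c') (x i)) := by
    have h4 := congrArg (fun L => L (x i)) (hasseDeriv_comp (R := Ω) (p ^ c') (p ^ c))
    have h5 := congrArg (fun L => L (x i)) (hasseDeriv_comp (R := Ω) (p ^ c) (p ^ c'))
    simp only [LinearMap.comp_apply, LinearMap.smul_apply] at h4 h5
    rw [h4, h5, Nat.add_comm (p ^ c'), Nat.choose_symm_add]
  rw [h3, eval_sub]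
  ring

omit [CharP k p] [CharP Ω p] [PerfectRing k p] in
/-- existence of the data -/
theorem exists_dat (hz : TL v E z 0) {x : ℕ → Polynomial Ω} (hx : PC v E z x) {D : ℕ}
    (hD : ∀ i, (x i).natDegree ≤ D)
    (hs : ∀ c, ∃ b m, Spl v E z (fun i => hasseDeriv (p ^ c) (x i)) b m) :
    ∃ N b m r, Dat p v E z x N b m r := by
  classical
  have hp : p.Prime := Fact.out
  choose b₀ m₀ h₀ using hs
  -- `D_c x = 0` for `c ≥ N₀`
  obtain ⟨N₀, hN₀⟩ : ∃ N₀ : ℕ, D < p ^ N₀ := ⟨D, Nat.lt_pow_self hp.one_lt⟩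
  have h0 : ∀ c, N₀ ≤ c → ∀ i, hasseDeriv (p ^ c) (x i) = 0 := fun c hc i =>
    hasseDeriv_eq_zero_of_lt_natDegree _ _ ((hD i).trans_lt
      (hN₀.trans_le (Nat.pow_le_pow_right hp.pos hc)))
  let b : ℕ → Polynomial Ω := fun c => if c < N₀ then b₀ c else 0
  let m : ℕ → CauS v E := fun c => if h : c < N₀ then ⟨m₀ c, (h₀ c).cau⟩ else 0
  have hb : ∀ c, N₀ ≤ c → b c = 0 ∧ m c = 0 := fun c hc =>
    ⟨if_neg (not_lt.2 hc), dif_neg (not_lt.2 hc)⟩
  have hs : ∀ c, Spl v E z (fun i => hasseDeriv (p ^ c) (x i)) (b c) (m c : ℕ → Ω) := by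
    intro c
    by_cases hc : c < N₀
    · have h1 : b c = b₀ c := if_pos hc
      have h2 : (m c : ℕ → Ω) = m₀ c := by
        simp only [m, dif_pos hc]
      rw [h1, h2]
      exact h₀ c
    · obtain ⟨h1, h2⟩ := hb c (not_lt.1 hc)
      rw [h1, h2]
      refine ⟨zero_mem _, Cau.const (zero_mem E), Nul.zero.congr fun i => ?_⟩
      change (0 : Ω) = (hasseDeriv (p ^ c) (x i)).eval z - (0 : Polynomial Ω).eval z - 0
      rw [h0 c (not_lt.1 hc) i]
      simp
  -- the bound
  obtain ⟨N, hN0, hN⟩ : ∃ N, N₀ ≤ N ∧ ∀ c, (b c).natDegree < p ^ N := by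
    refine ⟨N₀ + ∑ c ∈ Finset.range N₀, (b c).natDegree, Nat.le_add_right _ _, fun c => ?_⟩
    by_cases hc : c < N₀
    · have h1 : (b c).natDegree ≤ ∑ c ∈ Finset.range N₀, (b c).natDegree :=
        Finset.single_le_sum (f := fun c => (b c).natDegree) (fun _ _ => Nat.zero_le _)
          (Finset.mem_range.2 hc)
      refine lt_of_le_of_lt (h1.trans (Nat.le_add_left _ N₀)) (Nat.lt_pow_self hp.one_lt)
    · rw [(hb c (not_lt.1 hc)).1, natDegree_zero]
      exact pow_pos hp.pos _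
  choose r hr using fun c' c => hc.out.residue (exists_res p hz hx hs c c')
  exact ⟨N, b, m, r, ⟨hx, hs, fun c hc => hb c (hN0.trans hc), hN, fun c c' => hr c' c⟩⟩

/-! ## Uniqueness of the class -/

theorem sq_sum {V : Type*} [AddCommGroup V] (f : ℕ → ℕ → V) (M : ℕ) :
    ∑ c ∈ Finset.range M, ∑ i ∈ Finset.range M, f c i =
      ∑ c ∈ Finset.range M, (f c c + ∑ c' ∈ Finset.range c, (f c c' + f c' c)) := by
  induction M with
  | zero => simp
  | succ M ih =>
    rw [Finset.sum_range_succ, Finset.sum_range_succ _ M]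
    simp only [Finset.sum_range_succ _ M]
    have h1 : ∑ c' ∈ Finset.range M, (f M c' + f c' M) =
        ∑ c' ∈ Finset.range M, f M c' + ∑ c' ∈ Finset.range M, f c' M :=
      Finset.sum_add_distrib
    rw [Finset.sum_add_distrib, ih, h1]
    abel

/-- the algebra of the uniqueness -/
theorem cl_algebra {V : Type*} [AddCommGroup V] [Module k V] (ζ μ μ' : ℕ → V) (r r' Λ : ℕ → ℕ → k)
    (M : ℕ) (h1 : ∀ c, μ' c = μ c + ∑ i ∈ Finset.range M, Λ c i • ζ i)
    (h2 : ∀ c c', r c' c - r' c' c = Λ c c' - Λ c' c) :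
    ∑ c ∈ Finset.range M, (ζ c ⊗ₜ[k] μ c - μ c ⊗ₜ[k] ζ c) -
      ∑ c ∈ Finset.range M, ∑ c' ∈ Finset.range c, r c' c • (ζ c' ⊗ₜ[k] ζ c - ζ c ⊗ₜ[k] ζ c') =
    ∑ c ∈ Finset.range M, (ζ c ⊗ₜ[k] μ' c - μ' c ⊗ₜ[k] ζ c) -
      ∑ c ∈ Finset.range M, ∑ c' ∈ Finset.range c, r' c' c • (ζ c' ⊗ₜ[k] ζ c - ζ c ⊗ₜ[k] ζ c') := by
  have h3 : ∑ c ∈ Finset.range M, (ζ c ⊗ₜ[k] μ' c - μ' c ⊗ₜ[k] ζ c) =
      ∑ c ∈ Finset.range M, (ζ c ⊗ₜ[k] μ c - μ c ⊗ₜ[k] ζ c) +
      ∑ c ∈ Finset.range M, ∑ i ∈ Finset.range M,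
        Λ c i • (ζ c ⊗ₜ[k] ζ i - ζ i ⊗ₜ[k] ζ c) := by
    rw [← Finset.sum_add_distrib]
    refine Finset.sum_congr rfl fun c _ => ?_
    rw [h1, tmul_add, add_tmul, tmul_sum, sum_tmul]
    simp only [tmul_smul, smul_tmul', smul_sub, Finset.sum_sub_distrib]
    abel
  have h4 : ∑ c ∈ Finset.range M, ∑ i ∈ Finset.range M,
        Λ c i • (ζ c ⊗ₜ[k] ζ i - ζ i ⊗ₜ[k] ζ c) =
      ∑ c ∈ Finset.range M, ∑ c' ∈ Finset.range c,
        (r' c' c - r c' c) • (ζ c' ⊗ₜ[k] ζ c - ζ c ⊗ₜ[k] ζ c') := by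
    rw [sq_sum]
    refine Finset.sum_congr rfl fun c _ => ?_
    rw [sub_self, smul_zero, zero_add]
    refine Finset.sum_congr rfl fun c' _ => ?_
    have h5 : r' c' c - r c' c = Λ c' c - Λ c c' := by
      have := h2 c c'
      linear_combination -this
    rw [h5, sub_smul, smul_sub, smul_sub, smul_sub]
    abel
  rw [h3, h4]
  simp only [sub_smul, Finset.sum_sub_distrib]
  abel

omit [PerfectRing k p] [IsAlgClosed Ω] in
/-- a larger bound gives the same class -/
theorem Dat.extend (hz : TL v E z 0) {x : ℕ → Polynomial Ω} {N : ℕ}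
    {b : ℕ → Polynomial Ω} {m : ℕ → CauS v E} {r : ℕ → ℕ → k}
    (h : Dat p v E z x N b m r) {M : ℕ} (hNM : N ≤ M) : cl p hz N m r = cl p hz M m r := by
  have hp : p.Prime := Fact.out
  have h1 : ∀ c, N ≤ c → ∀ c', r c' c = 0 := by
    intro c hc c'
    have h2 := h.res c c'
    rw [(h.zero c hc).1, map_zero, zero_sub,
      hasseDeriv_eq_zero_of_lt_natDegree _ _ ((h.deg c').trans_le
        (Nat.pow_le_pow_right hp.pos hc)), neg_zero, eval_zero, zero_sub] at h2
    exact const_gt (Gt.neg (x := - algebraMap k Ω (r c' c)) h2 |> fun h3 => by rwa [neg_neg] at h3)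
  rw [cl, cl, ← Finset.sum_sub_distrib, ← Finset.sum_sub_distrib]
  refine Finset.sum_subset (Finset.range_subset_range.2 hNM) fun c _ hc => ?_
  have hc' : N ≤ c := not_lt.1 fun h2 => hc (Finset.mem_range.2 h2)
  rw [(h.zero c hc').2, map_zero, tmul_zero, zero_tmul, sub_zero, zero_sub, neg_eq_zero]
  refine Finset.sum_eq_zero fun c' _ => ?_
  rw [h1 c hc', zero_smul]

omit [PerfectRing k p] in
/-- the class does not depend on the data -/
theorem Dat.unique (_hE : Cld v E) (hz : TL v E z 0) {x y : ℕ → Polynomial Ω} {N N' : ℕ}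
    {b b' : ℕ → Polynomial Ω} {m m' : ℕ → CauS v E} {r r' : ℕ → ℕ → k}
    (h : Dat p v E z x N b m r) (h' : Dat p v E z y N' b' m' r')
    (hxy : Nul v fun i => (x i - y i).eval z) : cl p hz N m r = cl p hz N' m' r' := by
  classical
  have hp : p.Prime := Fact.out
  rw [h.extend p hz (le_max_left N N'), h'.extend p hz (le_max_right N N')]
  set M := max N N' with hM
  -- `g c = b c - b' c` is near to `m' c - m c`
  have hg : ∀ c, b c - b' c ∈ PI E := fun c => sub_mem (h.spl c).mem (h'.spl c).mem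
  have h1 : ∀ c, Nul v fun i => (b c - b' c).eval z - ((m' c - m c : CauS v E) : ℕ → Ω) i := by
    intro c
    have h2 := nul_hasse hz (x := fun i => x i - y i)
      (fun i => sub_mem (h.pc.mem i) (h'.pc.mem i)) hxy (p ^ c)
    have h3 := (h2.sub (h.spl c).nul).add (h'.spl c).nul
    refine h3.congr fun i => ?_
    change (hasseDeriv (p ^ c) (x i - y i)).eval z -
      ((hasseDeriv (p ^ c) (x i)).eval z - (b c).eval z - (m c : ℕ → Ω) i) +
      ((hasseDeriv (p ^ c) (y i)).eval z - (b' c).eval z - (m' c : ℕ → Ω) i) =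
      (b c - b' c).eval z - ((m' c : ℕ → Ω) i - (m c : ℕ → Ω) i)
    rw [map_sub, eval_sub, eval_sub]
    ring
  have h2 : ∀ c, ∃ e ∈ E, ∃ (K : ℕ) (l : ℕ → k), Gt v 0 ((b c - b' c).eval z -
      (e + ∑ i ∈ Finset.range K, algebraMap k Ω (l i) * z ^ p ^ i)) := by
    intro c
    exact lemmaR_i hc.out hz p
      (eval_mem (PI_mono (le_cadj v E z) (hg c)) (self_mem_cadj v E z)) (m' c - m c).2 (h1 c)
  choose e he K l hl using h2
  set Λ : ℕ → ℕ → k := fun c c' => if c' ∈ Finset.range (K c) then l c c' else 0 with hΛ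
  -- the derivatives
  have h3 : ∀ c c', Gt v 0 ((hasseDeriv (p ^ c') (b c - b' c)).eval z -
      algebraMap k Ω (Λ c c')) := by
    intro c c'
    have h4 : (b c - b' c) - (Polynomial.C (e c) + ∑ i ∈ Finset.range (K c),
        Polynomial.C (algebraMap k Ω (l c i)) * X ^ p ^ i) ∈ PI E := by
      refine sub_mem (hg c) (add_mem (C_mem_PI (he c)) (sum_mem fun i _ => ?_))
      exact mul_mem (C_mem_PI (E.algebraMap_mem _)) (pow_mem X_mem_PI _)
    have h5 : Gt v 0 (((b c - b' c) - (Polynomial.C (e c) + ∑ i ∈ Finset.range (K c),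
        Polynomial.C (algebraMap k Ω (l c i)) * X ^ p ^ i)).eval z) := by
      have h6 := hl c
      rw [eval_sub, eval_add, eval_finsetSum, eval_C]
      simpa only [eval_mul, eval_C, eval_pow, eval_X] using h6
    have h6 := hasse_gt hz h4 h5 (p ^ c')
    rw [map_sub, eval_sub, hasse_sum_X_pow p (Finset.range (K c))
      (fun i => algebraMap k Ω (l c i)) (e c) z c'] at h6
    have h7 : algebraMap k Ω (Λ c c') =
        if c' ∈ Finset.range (K c) then algebraMap k Ω (l c c') else 0 := by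
      simp only [hΛ]
      split_ifs
      · rfl
      · rw [map_zero]
    rw [h7]
    exact h6
  have hdeg : ∀ c c', M ≤ c' → hasseDeriv (p ^ c') (b c - b' c) = 0 := by
    intro c c' hc'
    refine hasseDeriv_eq_zero_of_lt_natDegree _ _ (lt_of_le_of_lt (natDegree_sub_le _ _) ?_)
    rw [max_lt_iff]
    exact ⟨(h.deg c).trans_le (Nat.pow_le_pow_right hp.pos ((le_max_left _ _).trans hc')),
      (h'.deg c).trans_le (Nat.pow_le_pow_right hp.pos ((le_max_right _ _).trans hc'))⟩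
  have hΛ0 : ∀ c c', M ≤ c' → Λ c c' = 0 := by
    intro c c' hc'
    have h4 := h3 c c'
    rw [hdeg c c' hc', eval_zero, zero_sub] at h4
    have h5 := Gt.neg h4
    rw [neg_neg] at h5
    exact const_gt h5
  -- the limits
  have h4 : ∀ c, MM.mk v E (m' c) = MM.mk v E (m c) + ∑ i ∈ Finset.range M, Λ c i • zc p hz i := by
    intro c
    have h5 : ∑ i ∈ Finset.range M, Λ c i • zc p hz i =
        ∑ i ∈ Finset.range (K c), l c i • zc p hz i := by
      have h6 : ∑ i ∈ Finset.range (K c), l c i • zc p hz i =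
          ∑ i ∈ Finset.range (K c), Λ c i • zc p hz i :=
        Finset.sum_congr rfl fun i hi => by simp only [hΛ, if_pos hi]
      rw [h6]
      have h7 : ∀ n, M ≤ n → ∑ i ∈ Finset.range M, Λ c i • zc p hz i =
          ∑ i ∈ Finset.range n, Λ c i • zc p hz i := fun n hn =>
        Finset.sum_subset (Finset.range_subset_range.2 hn) fun i _ hi => by
          rw [hΛ0 c i (not_lt.1 fun h => hi (Finset.mem_range.2 h)), zero_smul]
      have h8 : ∀ n, K c ≤ n → ∑ i ∈ Finset.range (K c), Λ c i • zc p hz i =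
          ∑ i ∈ Finset.range n, Λ c i • zc p hz i := fun n hn =>
        Finset.sum_subset (Finset.range_subset_range.2 hn) fun i _ hi => by
          simp only [hΛ, if_neg hi, zero_smul]
      rw [h7 (max M (K c)) (le_max_left _ _), h8 (max M (K c)) (le_max_right _ _)]
    rw [h5, ← sub_eq_iff_eq_add', sum_zc_mk, ← map_sub, ← sub_eq_zero, ← map_sub, MM.mk_eq_zero]
    refine ⟨e c, he c, ?_⟩
    have h6 : Nul v fun _ : ℕ => (b c - b' c).eval z -
        (e c + ∑ i ∈ Finset.range (K c), algebraMap k Ω (l c i) * z ^ p ^ i) :=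
      Nul.const_iff.2 (hl c).ge
    refine ((h6.sub (h1 c)).add (sum_zc_nul p hz (Finset.range (K c)) (l c))).congr fun n => ?_
    change _ = (m' c : ℕ → Ω) n - (m c : ℕ → Ω) n -
      ((∑ i ∈ Finset.range (K c), l c i • (MM.frS p v E)^[i] (zs hz) : CauS v E) : ℕ → Ω) n - e c
    have h7 : ((m' c - m c : CauS v E) : ℕ → Ω) n = (m' c : ℕ → Ω) n - (m c : ℕ → Ω) n := rfl
    rw [h7]
    ring
  -- the residues
  have h5 : ∀ c c', r c' c - r' c' c = Λ c c' - Λ c' c := by
    intro c c'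
    have h6 := (((h.res c c').sub (h'.res c c')) : VPos v _)
    have h7 := (Gt.sub (Gt.sub (h3 c c') (h3 c' c)) (h6 : Gt v 0 _))
    have h8 : (hasseDeriv (p ^ c') (b c - b' c)).eval z - algebraMap k Ω (Λ c c') -
        ((hasseDeriv (p ^ c) (b c' - b' c')).eval z - algebraMap k Ω (Λ c' c)) -
        ((hasseDeriv (p ^ c') (b c) - hasseDeriv (p ^ c) (b c')).eval z -
          algebraMap k Ω (r c' c) -
        ((hasseDeriv (p ^ c') (b' c) - hasseDeriv (p ^ c) (b' c')).eval z -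
          algebraMap k Ω (r' c' c))) =
        algebraMap k Ω (r c' c - r' c' c - (Λ c c' - Λ c' c)) := by
      simp only [map_sub, eval_sub]
      ring
    rw [h8] at h7
    exact sub_eq_zero.1 (const_gt h7)
  exact cl_algebra (zc p hz) (fun c => MM.mk v E (m c)) (fun c => MM.mk v E (m' c)) r r' Λ M h4 h5

omit [PerfectRing k p] in
/-- the class of a limit of `E[z]` is unique -/
theorem IsCl.unique (hE : Cld v E) (hz : TL v E z 0) {x y : ℕ → Polynomial Ω}
    {s t : MM v E ⊗[k] MM v E} (hx : IsCl p hz x s) (hy : IsCl p hz y t)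
    (hxy : Nul v fun i => (x i - y i).eval z) : s = t := by
  obtain ⟨N, b, m, r, h, rfl⟩ := hx
  obtain ⟨N', b', m', r', h', rfl⟩ := hy
  exact Dat.unique p hE hz h h' hxy

end Pool.Agent.TWC
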