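import Pool.Agent.Lib.TWC.Base

/-!
# TANK W, class C: the class of a limit of `E[z]`, definitions

* `zs`, `zc`: a Cauchy sequence of `E` near `z`, the class of `z ^ p ^ c` in `MM v E`;
* `Dat p v E z x N b m r`: `D_c x = b_c + m_c`, `r c' c` the residue of `D_c' b_c - D_c b_c'`;
* `cl`: the class in `MM v E ⊗ MM v E`; `IsCl`: `x` has the class `t`;
* `Exa`: `D_c x = b_c`, exact data.
-/

set_option autoImplicit false

open Polynomial TensorProduct

namespace Pool.Agent.TWC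

open Pool.Agent.H15JM (RVal)
open Pool.Agent.LU1 (VPos adj)
open Pool.Agent.D2 (Ctx0)
open Pool.Agent.TWM

universe u

variable {k Ω : Type u} [Field k] [Field Ω] [Algebra k Ω] {v : RVal Ω} [Fact (Ctx0 k v)]
  {C E : IntermediateField k Ω} {z : Ω} (p : ℕ) [Fact p.Prime] [CharP k p] [CharP Ω p]

/-- a Cauchy sequence of `E` near `z` -/
noncomputable def zs (hz : TL v E z 0) : CauS v E :=
  ⟨Classical.choose (Lim.exists_cau hz.lim), (Classical.choose_spec (Lim.exists_cau hz.lim)).1⟩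

theorem zs_nul (hz : TL v E z 0) : Nul v (fun n => z - (zs hz : ℕ → Ω) n) :=
  (Classical.choose_spec (Lim.exists_cau hz.lim)).2

/-- the class of `z ^ p ^ c` -/
noncomputable def zc (hz : TL v E z 0) (c : ℕ) : MM v E :=
  (MM.fr p v E)^[c] (MM.mk v E (zs hz))

/-- The data of the class of `x`: `D_c x = b_c + m_c`, `r c' c` the residue of
`D_c' b_c - D_c b_c'`. -/
structure Dat (p : ℕ) (v : RVal Ω) [Fact (Ctx0 k v)] (E : IntermediateField k Ω) (z : Ω)
    (x : ℕ → Polynomial Ω) (N : ℕ) (b : ℕ → Polynomial Ω) (m : ℕ → CauS v E)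
    (r : ℕ → ℕ → k) : Prop where
  pc : PC v E z x
  spl : ∀ c, Spl v E z (fun i => hasseDeriv (p ^ c) (x i)) (b c) (m c : ℕ → Ω)
  zero : ∀ c, N ≤ c → b c = 0 ∧ m c = 0
  deg : ∀ c, (b c).natDegree < p ^ N
  res : ∀ c c', VPos v ((hasseDeriv (p ^ c') (b c) - hasseDeriv (p ^ c) (b c')).eval z -
    algebraMap k Ω (r c' c))

/-- The class. -/
noncomputable def cl (hz : TL v E z 0) (N : ℕ) (m : ℕ → CauS v E) (r : ℕ → ℕ → k) :
    MM v E ⊗[k] MM v E :=
  ∑ c ∈ Finset.range N, (zc p hz c ⊗ₜ[k] MM.mk v E (m c) - MM.mk v E (m c) ⊗ₜ[k] zc p hz c) -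
  ∑ c ∈ Finset.range N, ∑ c' ∈ Finset.range c,
    r c' c • (zc p hz c' ⊗ₜ[k] zc p hz c - zc p hz c ⊗ₜ[k] zc p hz c')

/-- `x` has the class `t` -/
def IsCl (hz : TL v E z 0) (x : ℕ → Polynomial Ω) (t : MM v E ⊗[k] MM v E) : Prop :=
  ∃ N b m r, Dat p v E z x N b m r ∧ cl p hz N m r = t

/-- `D_c x = b_c`, all `c`, `b_c` polynomials with `D_c' b_c - D_c b_c'` positive -/
structure Exa (p : ℕ) (v : RVal Ω) (E : IntermediateField k Ω) (z : Ω) (x : ℕ → Polynomial Ω)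
    (N : ℕ) (b : ℕ → Polynomial Ω) : Prop where
  mem : ∀ c, b c ∈ PI E
  zero : ∀ c, N ≤ c → b c = 0
  nul : ∀ c, Nul v fun i => (hasseDeriv (p ^ c) (x i) - b c).eval z
  sym : ∀ c c', Gt v 0 ((hasseDeriv (p ^ c') (b c) - hasseDeriv (p ^ c) (b c')).eval z)


end Pool.Agent.TWC
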