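import Pool.Agent.Lib.TWC.Cf

/-!
# TANK W, class C, row R10b: operations on the classes

The class of `x + y`, `a x`, a polynomial, `x ^ p`, `φ x`; it only depends on the class of `x` in
`L(B)`.
-/

set_option autoImplicit false
set_option linter.unusedSectionVars false

open Polynomial TensorProduct

namespace Pool.Agent.TWC

open Pool.Agent.H15JM (RVal)
open Pool.Agent.LU1 (VPos adj)
open Pool.Agent.D2 (Ctx0)
open Pool.Agent.TWM

universe u

variable {k Ω : Type u} [Field k] [Field Ω] [Algebra k Ω] {v : RVal Ω} [Fact (Ctx0 k v)]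
  {C E : IntermediateField k Ω} {z : Ω} (p : ℕ) [Fact p.Prime] [CharP k p] [CharP Ω p]
  [PerfectRing k p] [IsAlgClosed Ω] {T : Submodule k (Opr v E)}

/-! ## Polynomial identities -/

section PolyId

omit [Fact (Ctx0 k v)] in
theorem PC.add {x y : ℕ → Polynomial Ω} (hx : PC v E z x) (hy : PC v E z y) :
    PC v E z (fun i => x i + y i) where
  mem i := add_mem (hx.mem i) (hy.mem i)
  cau ε hε := by
    obtain ⟨N, hN⟩ := hx.cau ε hε
    obtain ⟨M, hM⟩ := hy.cau ε hε
    refine ⟨max N M, fun m n hm hn => ?_⟩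
    rw [add_sub_add_comm, eval_add]
    exact (hN m n ((le_max_left _ _).trans hm) ((le_max_left _ _).trans hn)).add
      (hM m n ((le_max_right _ _).trans hm) ((le_max_right _ _).trans hn))

omit [Fact (Ctx0 k v)] in
theorem PC.congr {x y : ℕ → Polynomial Ω} (hx : PC v E z x) (hy : ∀ i, y i ∈ PI E)
    (h : Nul v fun i => (x i - y i).eval z) : PC v E z y where
  mem := hy
  cau ε hε := by
    obtain ⟨N, hN⟩ := hx.cau ε hε
    obtain ⟨M, hM⟩ := h ε hε
    refine ⟨max N M, fun m n hm hn => ?_⟩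
    have h1 := (hN m n ((le_max_left _ _).trans hm) ((le_max_left _ _).trans hn)).sub
      ((hM m ((le_max_right _ _).trans hm)).sub (hM n ((le_max_right _ _).trans hn)))
    rwa [← eval_sub, ← eval_sub,
      show x m - x n - (x m - y m - (x n - y n)) = y m - y n by ring] at h1

omit [Fact (Ctx0 k v)] in
theorem PC.const {f : Polynomial Ω} (hf : f ∈ PI E) : PC v E z fun _ => f :=
  ⟨fun _ => hf, fun _ _ => ⟨0, fun _ _ _ _ => by
    rw [sub_self, eval_zero]; exact RVal.Ge.zero⟩⟩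

theorem PC.smul {x : ℕ → Polynomial Ω} (hx : PC v E z x) (a : k) :
    PC v E z (fun i => algebraMap k Ω a • x i) where
  mem i := smul_mem_PI a (hx.mem i)
  cau ε hε := by
    obtain ⟨N, hN⟩ := hx.cau ε hε
    refine ⟨N, fun m n hm hn => ?_⟩
    rw [← smul_sub, eval_smul, smul_eq_mul]
    have h1 := ((Fact.out : Ctx0 k v).ge a).mul (hN m n hm hn)
    rwa [zero_add] at h1

omit [Fact (Ctx0 k v)] in
theorem PC.pow {x : ℕ → Polynomial Ω} (hx : PC v E z x) : PC v E z (fun i => x i ^ p) where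
  mem i := pow_mem (hx.mem i) p
  cau ε hε := by
    have hp : (0 : ℝ) < p := by exact_mod_cast (Fact.out : p.Prime).pos
    obtain ⟨N, hN⟩ := hx.cau (ε / p) (by positivity)
    refine ⟨N, fun m n hm hn => ?_⟩
    rw [← sub_pow_char, eval_pow]
    refine (ge_pow (hN m n hm hn) p).mono (le_of_eq ?_)
    field_simp

/-- the Hasse derivatives commute -/
theorem hasse_comm (a b : ℕ) (f : Polynomial Ω) :
    hasseDeriv a (hasseDeriv b f) = hasseDeriv b (hasseDeriv a f) := by
  have h1 := congrArg (fun L => L f) (hasseDeriv_comp (R := Ω) a b)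
  have h2 := congrArg (fun L => L f) (hasseDeriv_comp (R := Ω) b a)
  simp only [LinearMap.comp_apply, LinearMap.smul_apply] at h1 h2
  rw [h1, h2, add_comm b a, Nat.choose_symm_add]

/-- the Hasse derivative of order one of a `p`-th power -/
theorem hasse_zero_pow (f : Polynomial Ω) : hasseDeriv (p ^ 0) (f ^ p) = 0 := by
  rw [pow_zero, hasseDeriv_one]
  have hc : CharP (Polynomial Ω) p := inferInstance
  rw [derivative_pow, CharP.cast_eq_zero, map_zero, zero_mul, zero_mul]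

/-- `D_(c+1) f ^ p = (D_c f) ^ p` -/
theorem hasse_succ_pow (c : ℕ) (f : Polynomial Ω) :
    hasseDeriv (p ^ (c + 1)) (f ^ p) = hasseDeriv (p ^ c) f ^ p := by
  have hp : p.Prime := Fact.out
  ext n
  have hco : ∀ (g : Polynomial Ω) (m : ℕ), (g ^ p).coeff m = if p ∣ m then g.coeff (m / p) ^ p
      else 0 := by
    intro g m
    rw [← map_frobenius_expand, coeff_map, coeff_expand hp.pos]
    split_ifs
    · rw [frobenius_def]
    · rw [map_zero]
  rw [hasseDeriv_coeff, hco, hco]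
  have h1 : p ∣ n + p ^ (c + 1) ↔ p ∣ n :=
    (Nat.dvd_add_iff_left (dvd_pow_self p (Nat.succ_ne_zero c))).symm
  simp only [h1]
  split_ifs with h2
  · obtain ⟨m, rfl⟩ := h2
    have h3 : p * m + p ^ (c + 1) = p * (m + p ^ c) := by rw [pow_succ']; ring
    rw [h3, Nat.mul_div_cancel_left _ hp.pos, Nat.mul_div_cancel_left _ hp.pos, hasseDeriv_coeff,
      mul_pow]
    congr 1
    have h4 : ((m + p ^ c).choose (p ^ c) : Ω) ^ p = ((m + p ^ c).choose (p ^ c) : Ω) := by
      rw [← frobenius_def, map_natCast]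
    rw [h4]
    refine (CharP.natCast_eq_natCast Ω p).2 ((choose_pow_modEq (c + 1) _).trans ?_)
    refine Nat.ModEq.trans ?_ (choose_pow_modEq c _).symm
    rw [pow_succ', Nat.mul_div_mul_left _ _ hp.pos]
  · rw [mul_zero]

end PolyId

/-! ## Extension of the range -/

section Ext

variable {p}

omit [PerfectRing k p] [IsAlgClosed Ω] in
theorem Dat.r_zero {x : ℕ → Polynomial Ω} {N : ℕ} {b : ℕ → Polynomial Ω} {m : ℕ → CauS v E}
    {r : ℕ → ℕ → k} (h : Dat p v E z x N b m r) {c : ℕ} (hc : N ≤ c) (c' : ℕ) : r c' c = 0 := by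
  have h1 := h.res c c'
  have h2 : hasseDeriv (p ^ c) (b c') = 0 :=
    hasseDeriv_eq_zero_of_lt_natDegree _ _ ((h.deg c').trans_le
      (Nat.pow_le_pow_right (Fact.out : p.Prime).pos hc))
  rw [(h.zero c hc).1, h2, map_zero, sub_self, eval_zero, zero_sub] at h1
  have h3 : VPos v (algebraMap k Ω (r c' c)) := by
    have h4 := Gt.neg (v := v) (r := 0) h1
    rwa [neg_neg] at h4
  exact (Fact.out : Ctx0 k v).const_eq_zero h3

omit [PerfectRing k p] [IsAlgClosed Ω] in
theorem Dat.ext {x : ℕ → Polynomial Ω} {N : ℕ} {b : ℕ → Polynomial Ω} {m : ℕ → CauS v E}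
    {r : ℕ → ℕ → k} (h : Dat p v E z x N b m r) {M : ℕ} (hM : N ≤ M) : Dat p v E z x M b m r where
  pc := h.pc
  spl := h.spl
  zero c hc := h.zero c (hM.trans hc)
  deg c := (h.deg c).trans_le (Nat.pow_le_pow_right (Fact.out : p.Prime).pos hM)
  res := h.res

omit [PerfectRing k p] [IsAlgClosed Ω] in
theorem Dat.cl_ext (hz : TL v E z 0) {x : ℕ → Polynomial Ω} {N : ℕ} {b : ℕ → Polynomial Ω}
    {m : ℕ → CauS v E} {r : ℕ → ℕ → k} (h : Dat p v E z x N b m r) {M : ℕ} (hM : N ≤ M) :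
    cl p hz M m r = cl p hz N m r := by
  rw [cl, cl]
  congr 1
  · symm
    refine Finset.sum_subset (Finset.range_mono hM) fun c _ hc => ?_
    rw [(h.zero c (by rw [Finset.mem_range] at hc; omega)).2, map_zero, tmul_zero, zero_tmul,
      sub_zero]
  · symm
    refine Finset.sum_subset (Finset.range_mono hM) fun c _ hc => ?_
    refine Finset.sum_eq_zero fun c' _ => ?_
    rw [h.r_zero (by rw [Finset.mem_range] at hc; omega), zero_smul]

end Ext

/-! ## The operations -/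

theorem IsCl.add (hz : TL v E z 0) {x y : ℕ → Polynomial Ω} {s t : MM v E ⊗[k] MM v E}
    (hx : IsCl p hz x s) (hy : IsCl p hz y t) : IsCl p hz (fun i => x i + y i) (s + t) := by
  obtain ⟨N, b, m, r, h, rfl⟩ := hx
  obtain ⟨N', b', m', r', h', rfl⟩ := hy
  have h1 := h.ext (le_max_left N N')
  have h1' := h'.ext (le_max_right N N')
  rw [← h.cl_ext hz (le_max_left N N'), ← h'.cl_ext hz (le_max_right N N')]
  generalize max N N' = M at h1 h1'
  refine ⟨M, fun c => b c + b' c, fun c => m c + m' c, fun c' c => r c' c + r' c' c,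
    ⟨h1.pc.add h1'.pc, fun c => ?_, fun c hc => ?_, fun c => ?_, fun c c' => ?_⟩, ?_⟩
  · refine ⟨add_mem (h1.spl c).mem (h1'.spl c).mem, (h1.spl c).cau.add (h1'.spl c).cau, ?_⟩
    refine ((h1.spl c).nul.add (h1'.spl c).nul).congr fun i => ?_
    rw [map_add, eval_add, eval_add]
    change _ = _ - ((m c : ℕ → Ω) i + (m' c : ℕ → Ω) i)
    ring
  · rw [(h1.zero c hc).1, (h1'.zero c hc).1, (h1.zero c hc).2, (h1'.zero c hc).2, add_zero,
      add_zero]
    exact ⟨rfl, rfl⟩
  · exact (natDegree_add_le _ _).trans_lt (max_lt (h1.deg c) (h1'.deg c))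
  · have h2 := Gt.add (v := v) (r := 0) (h1.res c c') (h1'.res c c')
    rw [map_add, map_add, map_add, eval_sub, eval_add, eval_add]
    rw [eval_sub, eval_sub] at h2
    change Gt v 0 _
    convert h2 using 1
    ring
  · simp only [cl, map_add, tmul_add, add_tmul, add_smul, Finset.sum_add_distrib]
    have h3 : ∀ c, zc p hz c ⊗ₜ[k] MM.mk v E (m c) + zc p hz c ⊗ₜ[k] MM.mk v E (m' c) -
        (MM.mk v E (m c) ⊗ₜ[k] zc p hz c + MM.mk v E (m' c) ⊗ₜ[k] zc p hz c) =
        (zc p hz c ⊗ₜ[k] MM.mk v E (m c) - MM.mk v E (m c) ⊗ₜ[k] zc p hz c) +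
        (zc p hz c ⊗ₜ[k] MM.mk v E (m' c) - MM.mk v E (m' c) ⊗ₜ[k] zc p hz c) := fun c => by abel
    simp only [h3, Finset.sum_add_distrib]
    abel

theorem IsCl.smul (hz : TL v E z 0) {x : ℕ → Polynomial Ω} {s : MM v E ⊗[k] MM v E}
    (hx : IsCl p hz x s) (a : k) : IsCl p hz (fun i => algebraMap k Ω a • x i) (a • s) := by
  obtain ⟨N, b, m, r, h, rfl⟩ := hx
  refine ⟨N, fun c => algebraMap k Ω a • b c, fun c => a • m c, fun c' c => a * r c' c,
    ⟨h.pc.smul a, fun c => ?_, fun c hc => ?_, fun c => ?_, fun c c' => ?_⟩, ?_⟩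
  · refine ⟨smul_mem_PI a (h.spl c).mem, (a • m c).2, ?_⟩
    refine ((h.spl c).nul.mul_ge (c := fun _ => algebraMap k Ω a) fun _ =>
      (Fact.out : Ctx0 k v).ge a).congr fun i => ?_
    rw [map_smul, eval_smul, eval_smul, smul_eq_mul, smul_eq_mul]
    change _ = _ - a • ((m c : ℕ → Ω) i)
    rw [Algebra.smul_def]
    ring
  · rw [(h.zero c hc).1, (h.zero c hc).2, smul_zero, smul_zero]
    exact ⟨rfl, rfl⟩
  · exact (natDegree_smul_le _ _).trans_lt (h.deg c)
  · have h2 := Gt.mul_ge (v := v) (r := 0) (r' := 0) (h.res c c') ((Fact.out : Ctx0 k v).ge a)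
    rw [add_zero] at h2
    rw [map_smul, map_smul, ← smul_sub, eval_smul, smul_eq_mul, _root_.map_mul]
    change Gt v 0 _
    convert h2 using 1
    ring
  · simp only [cl, map_smul, tmul_smul, ← smul_tmul', mul_smul, smul_sub, Finset.smul_sum]

theorem IsCl.poly (hz : TL v E z 0) {f : Polynomial Ω} (hf : f ∈ PI E) :
    IsCl p hz (fun _ => f) 0 := by
  refine ⟨f.natDegree + 1, fun c => hasseDeriv (p ^ c) f, fun _ => 0, fun _ _ => 0,
    ⟨PC.const hf, fun c => ?_, fun c hc => ⟨?_, rfl⟩, fun c => ?_, fun c c' => ?_⟩, ?_⟩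
  · refine ⟨hasse_mem_PI hf _, Cau.const (zero_mem E), Nul.zero.congr fun i => ?_⟩
    change (0 : Ω) = _ - 0
    ring
  · refine hasseDeriv_eq_zero_of_lt_natDegree _ _ ?_
    have h1 : c < p ^ c := Nat.lt_pow_self (Fact.out : p.Prime).one_lt
    omega
  · have h1 : f.natDegree + 1 < p ^ (f.natDegree + 1) := Nat.lt_pow_self (Fact.out : p.Prime).one_lt
    have h2 := natDegree_hasseDeriv_le f (p ^ c)
    omega
  · rw [hasse_comm, sub_self, eval_zero, map_zero, sub_zero]
    exact Gt.zero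
  · simp [cl]

theorem zc_succ (hz : TL v E z 0) (c : ℕ) : zc p hz (c + 1) = MM.fr p v E (zc p hz c) := by
  rw [zc, Function.iterate_succ_apply']
  rfl

theorem IsCl.fr (hz : TL v E z 0) {x : ℕ → Polynomial Ω} {s : MM v E ⊗[k] MM v E}
    (hx : IsCl p hz x s) : IsCl p hz (fun i => x i ^ p) (FF (MM.fr p v E) s) := by
  have hp : p.Prime := Fact.out
  obtain ⟨N, b, m, r, h, rfl⟩ := hx
  let b' : ℕ → Polynomial Ω := fun c => if c = 0 then 0 else b (c - 1) ^ p
  let m' : ℕ → CauS v E := fun c => if c = 0 then 0 else MM.frS p v E (m (c - 1))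
  let r' : ℕ → ℕ → k := fun c' c => if c = 0 then 0 else if c' = 0 then 0 else
    r (c' - 1) (c - 1) ^ p
  have hb0 : b' 0 = 0 := if_pos rfl
  have hm0 : m' 0 = 0 := if_pos rfl
  have hbs : ∀ c, b' (c + 1) = b c ^ p := fun c => if_neg (Nat.succ_ne_zero c)
  have hms : ∀ c, m' (c + 1) = MM.frS p v E (m c) := fun c => if_neg (Nat.succ_ne_zero c)
  have hr0 : ∀ c', r' c' 0 = 0 := fun c' => if_pos rfl
  have hr1 : ∀ c, r' 0 c = 0 := fun c => by
    by_cases hc : c = 0
    · exact if_pos hc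
    · show (if c = 0 then 0 else if (0 : ℕ) = 0 then 0 else _) = (0 : k)
      rw [if_neg hc, if_pos rfl]
  have hrs : ∀ c' c, r' (c' + 1) (c + 1) = r c' c ^ p := fun c' c => by
    show (if c + 1 = 0 then 0 else if c' + 1 = 0 then 0 else _) = r c' c ^ p
    rw [if_neg (Nat.succ_ne_zero c), if_neg (Nat.succ_ne_zero c')]
    rfl
  refine ⟨N + 1, b', m', r', ⟨h.pc.pow p, fun c => ?_, fun c hc => ?_, fun c => ?_,
    fun c c' => ?_⟩, ?_⟩
  · rcases c with _ | c
    · rw [hb0, hm0]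
      refine ⟨zero_mem _, Cau.const (zero_mem E), Nul.zero.congr fun i => ?_⟩
      rw [hasse_zero_pow p, eval_zero]
      change (0 : Ω) = _ - 0
      ring
    · rw [hbs, hms]
      refine ⟨pow_mem (h.spl c).mem p, (MM.frS p v E (m c)).2, ?_⟩
      refine ((h.spl c).nul.pow p).congr fun i => ?_
      rw [hasse_succ_pow p, eval_pow, eval_pow, sub_pow_char, sub_pow_char]
      rfl
  · obtain ⟨c, rfl⟩ : ∃ d, c = d + 1 := ⟨c - 1, by omega⟩
    rw [hbs, hms, (h.zero c (by omega)).1, (h.zero c (by omega)).2, map_zero,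
      zero_pow hp.ne_zero]
    exact ⟨rfl, rfl⟩
  · rcases c with _ | c
    · rw [hb0, natDegree_zero]
      exact pow_pos hp.pos _
    · rw [hbs, natDegree_pow, pow_succ']
      exact Nat.mul_lt_mul_of_pos_left (h.deg c) hp.pos
  · rcases c with _ | c
    · rcases c' with _ | c'
      · rw [hb0, hr0, map_zero, map_zero, sub_self, eval_zero, sub_zero]
        exact Gt.zero
      · rw [hb0, hr0, hbs, map_zero, map_zero, hasse_zero_pow p, sub_self, eval_zero, sub_zero]
        exact Gt.zero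
    · rcases c' with _ | c'
      · rw [hb0, hr1, hbs, map_zero, map_zero, hasse_zero_pow p, sub_self, eval_zero, sub_zero]
        exact Gt.zero
      · rw [hbs, hbs, hrs, hasse_succ_pow p, hasse_succ_pow p, ← sub_pow_char, eval_pow,
          _root_.map_pow, ← sub_pow_char]
        have h2 := h.res c c'
        intro h0
        have h3 := ne_zero_pow hp.ne_zero h0
        rw [v.map_pow h3]
        exact mul_pos (by exact_mod_cast hp.pos) (h2 h3)
  · simp only [cl]
    rw [map_sub, map_sum, map_sum]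
    congr 1
    · rw [Finset.sum_range_succ', hm0, map_zero, tmul_zero, zero_tmul, sub_zero, add_zero]
      refine Finset.sum_congr rfl fun c _ => ?_
      rw [hms, map_sub, FF_tmul, FF_tmul, zc_succ, MM.fr_mk]
    · rw [Finset.sum_range_succ', Finset.range_zero, Finset.sum_empty, add_zero]
      refine Finset.sum_congr rfl fun c _ => ?_
      rw [Finset.sum_range_succ', hr1, zero_smul, add_zero, map_sum]
      refine Finset.sum_congr rfl fun c' _ => ?_
      rw [hrs, map_smulₛₗ, map_sub, FF_tmul, FF_tmul, zc_succ, zc_succ, frobenius_def]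

theorem cf_sub' (φ : Opr v E) {f g : Polynomial Ω} (hf : f ∈ PI E) (hg : g ∈ PI E) :
    cf φ (f - g) = cf φ f - cf φ g := by
  have h1 := cf_add φ (sub_mem hf hg) hg
  rw [sub_add_cancel] at h1
  exact eq_sub_of_add_eq h1.symm

theorem cf_zero' (φ : Opr v E) : cf φ 0 = 0 := by
  ext i
  rw [coeff_cf, coeff_zero, fn_zero]

theorem cf_C' (φ : Opr v E) (a : Ω) : cf φ (Polynomial.C a) = Polynomial.C (fn φ a) := by
  ext i
  rw [coeff_cf, coeff_C, coeff_C]
  split_ifs
  · rfl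
  · exact fn_zero φ

theorem natDegree_cf_le (φ : Opr v E) (f : Polynomial Ω) : (cf φ f).natDegree ≤ f.natDegree := by
  rw [natDegree_le_iff_coeff_eq_zero]
  intro i hi
  rw [coeff_cf, coeff_eq_zero_of_natDegree_lt hi, fn_zero]

/-- the operators kill the class of `z ^ p ^ c` -/
theorem act_zc' (h : Oper p v C E T) (hz : TL v E z 0) (hzC : Lim v C 0 z) (c : ℕ) :
    ∀ {φ : Opr v E}, φ ∈ T → MM.act φ (zc p hz c) = 0 := by
  induction c with
  | zero =>
    intro φ hφ
    show MM.act φ (MM.mk v E (zs hz)) = 0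
    rw [MM.act_mk, MM.mk_eq_zero]
    obtain ⟨d, hd, hdn⟩ := Lim.exists_cau hzC
    refine ⟨0, zero_mem E, fun ε hε => ?_⟩
    obtain ⟨N, hN⟩ := (hdn.sub (zs_nul hz)) ε hε
    refine ⟨N, fun n hn => ?_⟩
    have h1 : v.Ge (-ε) ((zs hz : ℕ → Ω) n - d n) := by
      have h2 : v.Ge (-ε) (z - d n - (z - (zs hz : ℕ → Ω) n)) := hN n hn
      rwa [show z - d n - (z - (zs hz : ℕ → Ω) n) = (zs hz : ℕ → Ω) n - d n by ring] at h2
    have hzE : (zs hz : ℕ → Ω) n ∈ E := (zs hz).2.mem n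
    have hdE : d n ∈ E := h.le (hd.mem n)
    have h3 := fn_ge φ (sub_mem hzE hdE) h1
    have h4 := fn_add φ (sub_mem hzE hdE) hdE
    rw [sub_add_cancel, fn_C p h hφ (hd.mem n), add_zero] at h4
    rw [← h4, fn_of_mem φ hzE] at h3
    show v.Ge (-ε) (((φ : Module.End k E) ⟨(zs hz : ℕ → Ω) n, hzE⟩ : E) - (0 : Ω))
    rw [sub_zero]
    exact h3
  | succ c ih =>
    intro φ hφ
    obtain ⟨φ', hφ', h1⟩ := h.tw φ hφ
    rw [zc_succ, MM.act_fr p h1, ih hφ', map_zero]

theorem IsCl.opr (h : Oper p v C E T) (hz : TL v E z 0) (hzC : Lim v C 0 z) {φ : Opr v E}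
    (hφ : φ ∈ T) {x : ℕ → Polynomial Ω} {s : MM v E ⊗[k] MM v E} (hx : IsCl p hz x s) :
    IsCl p hz (fun i => cf φ (x i)) (cop (MM.act φ) s) := by
  obtain ⟨N, b, m, r, h', rfl⟩ := hx
  refine ⟨N, fun c => cf φ (b c), fun c => MM.actS φ (m c), fun _ _ => 0,
    ⟨⟨fun i => cf_mem φ _, fun ε hε => ?_⟩, fun c => ⟨cf_mem φ _, (MM.actS φ (m c)).2, ?_⟩,
      fun c hc => ?_, fun c => (natDegree_cf_le φ _).trans_lt (h'.deg c), fun c c' => ?_⟩, ?_⟩
  · obtain ⟨M, hM⟩ := h'.pc.cau ε hε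
    refine ⟨M, fun i j hi hj => ?_⟩
    rw [← cf_sub' φ (h'.pc.mem i) (h'.pc.mem j)]
    exact cf_ge p h hz hzC hφ (sub_mem (h'.pc.mem i) (h'.pc.mem j)) (hM i j hi hj)
  · intro ε hε
    obtain ⟨M, hM⟩ := (h'.spl c).nul ε hε
    refine ⟨M, fun i hi => ?_⟩
    have h1 := hM i hi
    have hmi : (m c : ℕ → Ω) i ∈ E := (m c).2.mem i
    have hDx : hasseDeriv (p ^ c) (x i) ∈ PI E := hasse_mem_PI (h'.pc.mem i) _
    have h2 : (hasseDeriv (p ^ c) (x i) - b c - Polynomial.C ((m c : ℕ → Ω) i)).eval z =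
        (hasseDeriv (p ^ c) (x i)).eval z - (b c).eval z - (m c : ℕ → Ω) i := by
      rw [eval_sub, eval_sub, eval_C]
    have h3 := cf_ge p h hz hzC hφ (sub_mem (sub_mem hDx (h'.spl c).mem) (C_mem_PI hmi))
      (b := -ε) (by rw [h2]; exact h1)
    rw [cf_sub' φ (sub_mem hDx (h'.spl c).mem) (C_mem_PI hmi), cf_sub' φ hDx (h'.spl c).mem,
      cf_C', eval_sub, eval_sub, eval_C, cf_hasse φ _ (h'.pc.mem i), fn_of_mem φ hmi] at h3
    exact h3
  · rw [(h'.zero c hc).1, (h'.zero c hc).2, map_zero, cf_zero']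
    exact ⟨rfl, rfl⟩
  · have hb := (h'.spl c).mem
    have hb' := (h'.spl c').mem
    have hg : hasseDeriv (p ^ c') (b c) - hasseDeriv (p ^ c) (b c') ∈ PI E :=
      sub_mem (hasse_mem_PI hb _) (hasse_mem_PI hb' _)
    have hrC : algebraMap k Ω (r c' c) ∈ C := C.algebraMap_mem _
    have h1 := cf_gt p h hz hzC hφ (sub_mem hg (C_mem_PI (E.algebraMap_mem (r c' c)))) (b := 0)
      (by rw [eval_sub, eval_C]; exact h'.res c c')
    rw [cf_sub' φ hg (C_mem_PI (E.algebraMap_mem (r c' c))), cf_C p h hφ hrC, sub_zero,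
      cf_sub' φ (hasse_mem_PI hb _) (hasse_mem_PI hb' _), cf_hasse φ _ hb, cf_hasse φ _ hb'] at h1
    rw [map_zero, sub_zero]
    exact h1
  · simp only [cl, zero_smul, Finset.sum_const_zero, sub_zero, map_sub, map_sum, map_smul,
      cop_tmul, act_zc' p h hz hzC _ hφ, zero_tmul, tmul_zero, zero_add, add_zero, sub_self,
      smul_zero, MM.act_mk]

theorem IsCl.congr (_hE : Cld v E) (hz : TL v E z 0) {x y : ℕ → Polynomial Ω}
    {s : MM v E ⊗[k] MM v E} (hx : IsCl p hz x s) (hy : PC v E z y)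
    (hxy : Nul v fun i => (x i - y i).eval z) : IsCl p hz y s := by
  obtain ⟨N, b, m, r, h, rfl⟩ := hx
  refine ⟨N, b, m, r, ⟨hy, fun c => ⟨(h.spl c).mem, (h.spl c).cau, ?_⟩, h.zero, h.deg, h.res⟩, rfl⟩
  have h1 : Nul v fun i => (hasseDeriv (p ^ c) (x i - y i)).eval z := fun ε hε => by
    obtain ⟨M, hM⟩ := hxy ε hε
    exact ⟨M, fun i hi => hasse_ge hz (sub_mem (h.pc.mem i) (hy.mem i)) (hM i hi) _⟩
  refine ((h.spl c).nul.sub h1).congr fun i => ?_
  rw [map_sub, eval_sub]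
  ring

end Pool.Agent.TWC
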