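import Pool.Agent.Lib.TWC.Cf

/-!
# TANK W, class C, row R9b: B2 (2), the derivatives `D_c x_j` are in `B + L(E)`

* `InBL.add`, `.sum`, `.pow_pow`: operations on `B + L(E)`;
* `Rel.spl` (B2 (2)): downward induction on `c`, with `lemmaR_ii`;
* `Spl.cf_nul`: the action of an operator on a split sequence.
-/

set_option autoImplicit false

open Polynomial TensorProduct

namespace Pool.Agent.TWC

open Pool.Agent.H15JM (RVal)
open Pool.Agent.LU1 (VPos adj)
open Pool.Agent.D2 (Ctx0)
open Pool.Agent.TWM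

universe u

/-! ## Operations on `B + L(E)` -/

section Ops

variable {k Ω : Type u} [Field k] [Field Ω] [Algebra k Ω] {v : RVal Ω}
  {B E : IntermediateField k Ω} {x y : ℕ → Ω}

theorem InBL.add (hx : InBL v B E x) (hy : InBL v B E y) : InBL v B E (fun n => x n + y n) := by
  obtain ⟨b, hb, m, hm, h1⟩ := hx
  obtain ⟨b', hb', m', hm', h2⟩ := hy
  exact ⟨b + b', add_mem hb hb', fun n => m n + m' n, hm.add hm', (h1.add h2).congr fun n => by
    ring⟩

theorem InBL.of_mem {b : Ω} (hb : b ∈ B) : InBL v B E (fun _ => b) :=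
  ⟨b, hb, fun _ => 0, Cau.const (zero_mem E), Nul.zero.congr fun n => by rw [sub_self, sub_zero]⟩

theorem InBL.sum {ι : Type*} (S : Finset ι) {x : ι → ℕ → Ω}
    (h : ∀ i ∈ S, InBL v B E (x i)) : InBL v B E (fun n => ∑ i ∈ S, x i n) := by
  classical
  induction S using Finset.induction_on with
  | empty => simpa using InBL.of_mem (v := v) (E := E) (zero_mem B)
  | insert a S ha ih =>
    have h1 := (h a (Finset.mem_insert_self _ _)).add
      (ih fun i hi => h i (Finset.mem_insert_of_mem hi))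
    simpa only [Finset.sum_insert ha] using h1

theorem InBL.pow_pow (p : ℕ) [Fact p.Prime] [CharP Ω p] (hx : InBL v B E x) (a : ℕ) :
    InBL v B E (fun n => x n ^ p ^ a) := by
  obtain ⟨b, hb, m, hm, h1⟩ := hx
  refine ⟨b ^ p ^ a, pow_mem hb _, fun n => m n ^ p ^ a, hm.pow_pow p a, ?_⟩
  refine (h1.pow (p ^ a)).congr fun n => ?_
  rw [sub_pow_char_pow, sub_pow_char_pow]

/-- The Hasse derivative of order `l p ^ q` of a `p ^ q`-th power. -/
theorem hasse_pow_mul (p : ℕ) [Fact p.Prime] [CharP Ω p] (q : ℕ) (z : Ω) (g : Polynomial Ω)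
    (l : ℕ) : (hasseDeriv (l * p ^ q) (g ^ p ^ q)).eval z = (hasseDeriv l g).eval z ^ p ^ q := by
  have hpq : 0 < p ^ q := pow_pos (Fact.out : p.Prime).pos q
  rw [← taylor_coeff, ← taylor_coeff, taylor_pow, ← map_iterateFrobenius_expand (p := p) _ q,
    coeff_map, coeff_expand hpq, if_pos (Dvd.intro_left l rfl), Nat.mul_div_cancel _ hpq,
    iterateFrobenius_def]

end Ops

variable {k Ω : Type u} [Field k] [Field Ω] [Algebra k Ω] {v : RVal Ω} [Fact (Ctx0 k v)]
  {C E : IntermediateField k Ω} {z : Ω} (p : ℕ) [Fact p.Prime] [CharP k p] [CharP Ω p]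
  [PerfectRing k p] [IsAlgClosed Ω] {T : Submodule k (Opr v E)}

section Cf

omit [CharP k p] [CharP Ω p] [PerfectRing k p] [IsAlgClosed Ω] [Fact p.Prime]

omit p in
theorem fn_sub' (φ : Opr v E) {x y : Ω} (hx : x ∈ E) (hy : y ∈ E) :
    fn φ (x - y) = fn φ x - fn φ y := by
  have h := fn_add φ (sub_mem hx hy) hy
  rw [sub_add_cancel] at h
  rw [h]
  ring

omit p in
/-- The split of `f` at the action of an operator. -/
theorem cf_split (φ : Opr v E) {f b : Polynomial Ω} (hf : f ∈ PI E) (hb : b ∈ PI E) {e : Ω}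
    (he : e ∈ E) : cf φ (f - b - Polynomial.C e) = cf φ f - cf φ b - Polynomial.C (fn φ e) := by
  ext i
  rw [coeff_cf, coeff_sub, coeff_sub, coeff_sub, coeff_sub, coeff_cf, coeff_cf, coeff_C, coeff_C]
  by_cases hi : i = 0
  · rw [if_pos hi, if_pos hi, fn_sub' φ (sub_mem (hf i) (hb i)) he, fn_sub' φ (hf i) (hb i)]
  · rw [if_neg hi, if_neg hi, fn_sub' φ (sub_mem (hf i) (hb i)) (zero_mem E), fn_zero,
      fn_sub' φ (hf i) (hb i)]

end Cf

omit [IsAlgClosed Ω] in
/-- The action on a Cauchy sequence. -/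
theorem Cau.fn (φ : Opr v E) {m : ℕ → Ω} (hm : Cau v E m) : Cau v E (fun n => fn φ (m n)) where
  mem n := fn_mem φ _
  cau ε hε := by
    obtain ⟨N, hN⟩ := hm.cau ε hε
    refine ⟨N, fun i j hi hj => ?_⟩
    rw [← fn_sub' φ (hm.mem i) (hm.mem j)]
    exact fn_ge φ (sub_mem (hm.mem i) (hm.mem j)) (hN i j hi hj)

/-- The action of an operator on a split sequence. -/
theorem Spl.cf_nul (h : Oper p v C E T) (hz : TL v E z 0) (hzC : Lim v C 0 z)
    {x : ℕ → Polynomial Ω} (hx : ∀ i, x i ∈ PI E) {b : Polynomial Ω} {m : ℕ → Ω}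
    (hs : Spl v E z x b m) {φ : Opr v E} (hφ : φ ∈ T) :
    Nul v (fun i => (cf φ (x i)).eval z - (cf φ b).eval z - fn φ (m i)) := by
  intro ε hε
  obtain ⟨N, hN⟩ := hs.nul ε hε
  refine ⟨N, fun n hn => ?_⟩
  have h1 : v.Ge (-ε) ((x n - b - Polynomial.C (m n)).eval z) := by
    rw [eval_sub, eval_sub, eval_C]
    exact hN n hn
  have h2 := cf_ge p h hz hzC hφ
    (sub_mem (sub_mem (hx n) hs.mem) (C_mem_PI (hs.cau.mem n))) h1
  rw [cf_split φ (hx n) hs.mem (hs.cau.mem n), eval_sub, eval_sub, eval_C] at h2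
  exact h2

/-- B2 (2): the derivatives `D_c x_j` are in `B + L(E)`. -/
theorem Rel.spl (h : Oper p v C E T) (hz : TL v E z 0) (hzC : Lim v C 0 z) {ι : Type} [Fintype ι]
    {x : ι → ℕ → Polynomial Ω} {n : ℕ} {lam : ℕ → ι → ι → k} {ψ : ℕ → ι → ι → Opr v E}
    {kap : ι → Polynomial Ω} (R : Rel p T z x n lam ψ kap) {D : ℕ}
    (hD : ∀ j i, (x j i).natDegree ≤ D) (c : ℕ) (j : ι) :
    ∃ b m, Spl v E z (fun i => hasseDeriv (p ^ c) (x j i)) b m := by
  classical
  have hp : p.Prime := Fact.out
  have hk : Ctx0 k v := Fact.out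
  suffices hmain : ∀ (d c : ℕ), D + 1 ≤ c + d → ∀ j, ∃ b m,
      Spl v E z (fun i => hasseDeriv (p ^ c) (x j i)) b m from
    hmain (D + 1) c (by omega) j
  intro d
  induction d with
  | zero =>
    intro c hc j
    refine ⟨0, fun _ => 0, zero_mem _, Cau.const (zero_mem E), Nul.zero.congr fun i => ?_⟩
    have h1 : c < p ^ c := Nat.lt_pow_self hp.one_lt
    have h2 := hD j i
    change 0 = (hasseDeriv (p ^ c) (x j i)).eval z - eval z 0 - 0
    rw [hasseDeriv_eq_zero_of_lt_natDegree _ _ (by omega), eval_zero, sub_zero, sub_zero]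
  | succ d ih =>
    intro c hc j
    -- the polynomials of the relation
    set w : ℕ → ι → ℕ → Polynomial Ω := fun a l i =>
      Polynomial.C (algebraMap k Ω (lam a j l)) * x l i + cf (ψ a j l) (x l i) with hw
    have hwE : ∀ a l i, w a l i ∈ PI E := fun a l i =>
      add_mem (mul_mem (C_mem_PI (E.algebraMap_mem _)) ((R.pc l).mem i)) (cf_mem _ _)
    set P : ℕ → Polynomial Ω := fun i => x j i ^ p ^ n -
      ∑ a ∈ Finset.range n, ∑ l, w a l i ^ p ^ a - kap j with hP
    have hPE : ∀ i, P i ∈ PI E := fun i => sub_mem (sub_mem (pow_mem ((R.pc j).mem i) _)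
      (sum_mem fun a _ => sum_mem fun l _ => pow_mem (hwE a l i) _)) (R.mem j)
    have hPn : Nul v (fun i => (P i).eval z) := by
      refine (R.rel j).congr fun i => ?_
      rw [hP]
      simp only [eval_sub, eval_pow, eval_finsetSum, hw, eval_add, eval_mul, eval_C,
        Algebra.smul_def]
    have hDP : Nul v (fun i => (hasseDeriv (p ^ (c + n)) (P i)).eval z) := by
      intro ε hε
      obtain ⟨N, hN⟩ := hPn ε hε
      exact ⟨N, fun i hi => hasse_ge hz (hPE i) (hN i hi) _⟩
    -- the derivatives of the terms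
    have hterm : ∀ a ∈ Finset.range n, ∀ l, InBL v (cadj v E z) E
        (fun i => (hasseDeriv (p ^ (c + n)) (w a l i ^ p ^ a)).eval z) := by
      intro a ha l
      have ha' : a < n := Finset.mem_range.1 ha
      obtain ⟨b, m, hs⟩ := ih (c + n - a) (by omega) l
      have hs2 := hs.cf_nul p h hz hzC (fun i => hasse_mem_PI ((R.pc l).mem i) _)
        (R.opr a j l)
      have h1 : InBL v (cadj v E z) E (fun i => (hasseDeriv (p ^ (c + n - a)) (w a l i)).eval z) := by
        refine InBL.of_poly (g := Polynomial.C (algebraMap k Ω (lam a j l)) * b + cf (ψ a j l) b)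
          (add_mem (mul_mem (C_mem_PI (E.algebraMap_mem _)) hs.mem) (cf_mem _ _))
          (m := fun i => algebraMap k Ω (lam a j l) * m i + fn (ψ a j l) (m i)) ?_ ?_
        · refine Cau.add ?_ (hs.cau.fn _)
          have := (CauS v E).smul_mem (lam a j l) (x := m) hs.cau
          refine ⟨fun i => ?_, fun ε hε => ?_⟩
          · have h2 := this.mem i
            rwa [Pi.smul_apply, Algebra.smul_def] at h2
          · obtain ⟨N, hN⟩ := this.cau ε hε
            refine ⟨N, fun i i' hi hi' => ?_⟩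
            have h2 := hN i i' hi hi'
            rwa [Pi.smul_apply, Pi.smul_apply, Algebra.smul_def, Algebra.smul_def] at h2
        · refine ((hs.nul.mul_ge (c := fun _ => algebraMap k Ω (lam a j l)) fun _ =>
            hk.ge _).add hs2).congr fun i => ?_
          have h3 : hasseDeriv (p ^ (c + n - a)) (w a l i) =
              Polynomial.C (algebraMap k Ω (lam a j l)) * hasseDeriv (p ^ (c + n - a)) (x l i) +
                cf (ψ a j l) (hasseDeriv (p ^ (c + n - a)) (x l i)) := by
            rw [hw, cf_hasse _ _ ((R.pc l).mem i), map_add, ← smul_eq_C_mul, map_smul,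
              smul_eq_C_mul]
          rw [h3]
          simp only [eval_add, eval_mul, eval_C]
          ring
      have h4 := h1.pow_pow p a
      have h5 : p ^ (c + n) = p ^ (c + n - a) * p ^ a := by
        rw [← pow_add]
        congr 1
        omega
      have h6 : (fun i => (hasseDeriv (p ^ (c + n)) (w a l i ^ p ^ a)).eval z) =
          fun i => (hasseDeriv (p ^ (c + n - a)) (w a l i)).eval z ^ p ^ a := by
        funext i
        rw [h5, hasse_pow_mul]
      rw [h6]
      exact h4
    -- conclusion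
    have hB : InBL v (cadj v E z) E
        (fun i => (hasseDeriv (p ^ c) (x j i)).eval z ^ p ^ n) := by
      have h1 : InBL v (cadj v E z) E (fun i => (∑ a ∈ Finset.range n, ∑ l,
          (hasseDeriv (p ^ (c + n)) (w a l i ^ p ^ a)).eval z) +
          (hasseDeriv (p ^ (c + n)) (kap j)).eval z) :=
        (InBL.sum _ fun a ha => InBL.sum _ fun l _ => hterm a ha l).add
          (InBL.of_mem (eval_mem (PI_mono (le_cadj v E z) (hasse_mem_PI (R.mem j) _))
            (self_mem_cadj v E z)))
      refine h1.congr (hDP.neg.congr fun i => ?_)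
      have h2 : (hasseDeriv (p ^ (c + n)) (x j i ^ p ^ n)).eval z =
          (hasseDeriv (p ^ c) (x j i)).eval z ^ p ^ n := by
        rw [pow_add p c n, hasse_pow_mul]
      rw [hP]
      simp only [map_sub, map_sum, eval_sub, eval_finsetSum]
      rw [h2]
      ring
    obtain ⟨g, hg, m, hm, h3⟩ := lemmaR_ii hk hz p h.perf (q := n)
      (f := fun i => hasseDeriv (p ^ c) (x j i)) (fun i => hasse_mem_PI ((R.pc j).mem i) _)
      (by
        refine ⟨fun i => eval_mem (PI_mono (le_cadj v E z) (hasse_mem_PI ((R.pc j).mem i) _))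
          (self_mem_cadj v E z), fun ε hε => ?_⟩
        obtain ⟨N, hN⟩ := (R.pc j).cau ε hε
        refine ⟨N, fun i i' hi hi' => ?_⟩
        have h4 := hasse_ge hz (sub_mem ((R.pc j).mem i) ((R.pc j).mem i')) (hN i i' hi hi')
          (p ^ c)
        rwa [map_sub, eval_sub] at h4) hB
    exact ⟨g, m, hg, hm, h3⟩

end Pool.Agent.TWC
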