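import Pool.Agent.Lib.TWC.ClOp
import Pool.Agent.Lib.TWC.Cl
import Pool.Agent.Lib.TWC.Spl

/-!
# TANK W, CLASS C, row R10c: the classes are torsion (B2 (3))

* `IsCl.sum`, `IsCl.it`: the class of a finite sum, of a power `x ^ p ^ a`;
* `Rel.cl_tor`: under the relations of Theorem B and `NSD` the classes of the `x_j` are in
  `Tor ⊗ M`.
-/

set_option autoImplicit false

open Polynomial TensorProduct

namespace Pool.Agent.TWC

open Pool.Agent.H15JM (RVal)
open Pool.Agent.LU1 (VPos adj)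
open Pool.Agent.D2 (Ctx0)
open Pool.Agent.TWM

universe u

variable {k Ω : Type u} [Field k] [Field Ω] [Algebra k Ω] {v : RVal Ω} [Fact (Ctx0 k v)]
  {C E : IntermediateField k Ω} {z : Ω} (p : ℕ) [Fact p.Prime] [CharP k p] [CharP Ω p]
  [PerfectRing k p] [IsAlgClosed Ω] {T : Submodule k (Opr v E)}

theorem IsCl.zero (hz : TL v E z 0) : IsCl p hz (fun _ => 0) (0 : MM v E ⊗[k] MM v E) :=
  IsCl.poly p hz (zero_mem (PI E))

theorem IsCl.sum (hz : TL v E z 0) {κ : Type*} (S : Finset κ) {x : κ → ℕ → Polynomial Ω}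
    {t : κ → MM v E ⊗[k] MM v E} (h : ∀ a ∈ S, IsCl p hz (x a) (t a)) :
    IsCl p hz (fun i => ∑ a ∈ S, x a i) (∑ a ∈ S, t a) := by
  classical
  induction S using Finset.induction_on with
  | empty => simpa using IsCl.zero p hz
  | insert a S ha ih =>
    have h1 := IsCl.add p hz (h a (Finset.mem_insert_self _ _))
      (ih fun i hi => h i (Finset.mem_insert_of_mem hi))
    simpa only [Finset.sum_insert ha] using h1

theorem IsCl.it (hz : TL v E z 0) {x : ℕ → Polynomial Ω} {s : MM v E ⊗[k] MM v E}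
    (hx : IsCl p hz x s) (a : ℕ) :
    IsCl p hz (fun i => x i ^ p ^ a) ((FF (MM.fr p v E))^[a] s) := by
  induction a with
  | zero => simpa using hx
  | succ a ih =>
    have h1 := IsCl.fr p hz ih
    rw [Function.iterate_succ_apply']
    simpa only [← pow_mul, ← pow_succ] using h1

/-- the class is in `Tor ⊗ M` -/
theorem Rel.cl_tor (h : Oper p v C E T) (hV : NSD p h) (hz : TL v E z 0) (hzC : Lim v C 0 z)
    {ι : Type} [Fintype ι]
    {x : ι → ℕ → Polynomial Ω} {n : ℕ} {lam : ℕ → ι → ι → k} {ψ : ℕ → ι → ι → Opr v E}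
    {kap : ι → Polynomial Ω} (R : Rel p T z x n lam ψ kap) {D : ℕ}
    (hD : ∀ j i, (x j i).natDegree ≤ D) (j : ι) :
    ∃ t ∈ tp (Sat (MM.fr p v E) ⊥), IsCl p hz (x j) t := by
  classical
  -- the classes
  have hcl : ∀ j, ∃ t, IsCl p hz (x j) t := fun j => by
    obtain ⟨N, b, m, r, hd⟩ := exists_dat p hz (R.pc j) (hD j) fun c => R.spl p h hz hzC hD c j
    exact ⟨_, N, b, m, r, hd, rfl⟩
  choose t ht using hcl
  set W : Submodule k (MM v E ⊗[k] MM v E) := Submodule.span k (Set.range t) with hW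
  -- the relation of the classes
  have hrel : ∀ j, (FF (MM.fr p v E))^[n] (t j) =
      ∑ a ∈ Finset.range n, ∑ l, (FF (MM.fr p v E))^[a]
        (lam a j l • t l + cop (MM.act (ψ a j l)) (t l)) + 0 := fun j => by
    have h1 := IsCl.it p hz (ht j) n
    have h2 : IsCl p hz (fun i => ∑ a ∈ Finset.range n, ∑ l,
        (algebraMap k Ω (lam a j l) • x l i + cf (ψ a j l) (x l i)) ^ p ^ a + kap j) _ :=
      IsCl.add p hz (IsCl.sum p hz (Finset.range n) fun a _ => IsCl.sum p hz Finset.univ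
        fun l _ => IsCl.it p hz (IsCl.add p hz (IsCl.smul p hz (ht l) (lam a j l))
          (IsCl.opr p h hz hzC (R.opr a j l) (ht l))) a) (IsCl.poly p hz (R.mem j))
    refine IsCl.unique p h.cld hz h1 h2 ((R.rel j).congr fun i => ?_)
    simp only [eval_sub, eval_add, eval_pow, eval_finsetSum, eval_smul, smul_eq_mul]
    simp only [Algebra.smul_def]
    ring
  have hdom : ∀ j, (FF (MM.fr p v E))^[n] (t j) ∈
      V (FF (MM.fr p v E)) (W ⊔ actC (h.ops p) W) n := fun j => by
    rw [hrel j, add_zero]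
    refine Submodule.sum_mem _ fun a ha => Submodule.sum_mem _ fun l _ => ?_
    have hl : t l ∈ W := Submodule.subset_span ⟨l, rfl⟩
    have h3 : lam a j l • t l + cop (MM.act (ψ a j l)) (t l) ∈ W ⊔ actC (h.ops p) W :=
      add_mem (Submodule.mem_sup_left (Submodule.smul_mem _ _ hl))
        (Submodule.mem_sup_right (mem_actC (O := h.ops p) ⟨_, R.opr a j l, rfl⟩ hl))
    have h4 := it_mem_V (F := FF (MM.fr p v E)) (le_V 0 h3) a
    rw [Finset.mem_range] at ha
    exact V_mono (by omega) h4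
  have hsd := sd_of_tensor (O := h.ops p) (MM.fr_injective p h.perf) t hdom
  have hY := hV (⨆ j, LS (t j)) (Submodule.fg_iSup _ fun j => LS_fg (t j)) n R.one hsd
  exact ⟨t j, tp_mono ((le_iSup (fun j => LS (t j)) j).trans hY) (mem_tp_LS (t j)), ht j⟩

end Pool.Agent.TWC
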