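import Pool.Agent.Lib.TWC.ClDefs

/-!
# TANK W, class C: descent of a tower, definitions

* `OpGen v T D`: the space `T` is generated by the commuting nilpotent operators of `D`, almost all of
  which are small at a given element;
* `IsExt L φ Φ`: `Φ` is the `L`-linear extension to `LE` of the operator `φ` of `E`;
* `Desc v C E T L LE`: the field `L` over `C`, `LE` the closure of `L E`: the sums of products are
  dense, the operators extend, the distances of the elements of `L` to `N E` and to `N` are the same, and a limit `x` in `LE` of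
  `N E` whose derivatives are in `N E + O(0)` is near to the sum of an element of `L` and of an
  element of `N E`;
* `Nilp v T L LE`: the operators are nilpotent on the elements of `LE`, with images of finite
  dimension, modulo `O(0)`;
* `Spn p v A y x`: `x` is in the span of the `y ^ p ^ i` over `k`, modulo `A + O(0)`.
-/

set_option autoImplicit false

open Polynomial

namespace Pool.Agent.TWC

open Pool.Agent.H15JM (RVal)
open Pool.Agent.D2 (Ctx0)
open Pool.Agent.D2P (hen clI mem_clI)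
open Pool.Agent.TWM

universe u

variable {k Ω : Type u} [Field k] [Field Ω] [Algebra k Ω] {v : RVal Ω} [Fact (Ctx0 k v)]
  {E LE : IntermediateField k Ω}

/-- `D` generates `T`. -/
structure OpGen (v : RVal Ω) [Fact (Ctx0 k v)] {E : IntermediateField k Ω}
    (T : Submodule k (Opr v E)) (D : Set (Opr v E)) : Prop where
  span : T = Submodule.span k D
  comm : ∀ φ ∈ D, ∀ ψ ∈ D, φ * ψ = ψ * φ
  nil : ∀ φ ∈ D, ∃ n : ℕ, φ ^ n = 0
  fin : ∀ (e : E) (b : ℝ), {φ | φ ∈ D ∧ ¬ v.Ge b (((φ : Module.End k E) e : E) : Ω)}.Finite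

/-- `Φ` is the `L`-linear extension of `φ`. -/
structure IsExt (L : IntermediateField k Ω) (φ : Opr v E) (Φ : Opr v LE) : Prop where
  eq : ∀ e ∈ E, fn Φ e = fn φ e
  lin : ∀ l ∈ L, ∀ x ∈ LE, fn Φ (l * x) = l * fn Φ x

/-- The data for the descent of towers from `LE / E` to `L / C`. -/
structure Desc (v : RVal Ω) [Fact (Ctx0 k v)] (C E : IntermediateField k Ω)
    (T : Submodule k (Opr v E)) (L LE : IntermediateField k Ω) : Prop where
  cld : Cld v L
  le : C ≤ L
  eq : LE = clI v (L ⊔ E)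
  dense : ∀ x ∈ LE, ∀ b : ℝ, ∃ (n : ℕ) (l e : Fin n → Ω), (∀ i, l i ∈ L) ∧ (∀ i, e i ∈ E) ∧
    v.Ge b (x - ∑ i, l i * e i)
  ext : ∀ φ ∈ T, ∃ Φ : Opr v LE, IsExt L φ Φ
  dist : ∀ N : IntermediateField k Ω, Cld v N → C ≤ N → N ≤ L → ∀ l ∈ L, ∀ b : ℝ,
    ∀ a ∈ clI v (N ⊔ E), v.Ge b (l - a) → ∀ ε : ℝ, 0 < ε → ∃ a' ∈ N, v.Ge (b - ε) (l - a')
  desc : ∀ N : IntermediateField k Ω, Cld v N → C ≤ N → N ≤ L → ∀ x ∈ LE,
    Lim v (clI v (N ⊔ E)) 0 x →
    (∀ φ ∈ T, ∀ Φ : Opr v LE, IsExt L φ Φ → Nr v (clI v (N ⊔ E)) 0 (fn Φ x)) →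
    ∃ u ∈ L, Nr' v (clI v (N ⊔ E)) 0 (x - u)

/-- All the products of `m` operators send `x` in `O(0)`. -/
def KilN (T : Submodule k (Opr v E)) (L LE : IntermediateField k Ω) : ℕ → Ω → Prop
  | 0, x => v.Ge 0 x
  | m + 1, x => ∀ φ ∈ T, ∀ Φ : Opr v LE, IsExt L φ Φ → KilN T L LE m (fn Φ x)

/-- The operators are nilpotent on the elements of `LE`, with images of finite dimension, modulo
`O(0)`. -/
structure Nilp (v : RVal Ω) [Fact (Ctx0 k v)] {E : IntermediateField k Ω}
    (T : Submodule k (Opr v E)) (L LE : IntermediateField k Ω) : Prop where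
  nil : ∀ x ∈ LE, ∃ m, KilN T L LE m x
  fd : ∀ x ∈ LE, ∃ (n : ℕ) (s : Fin n → Ω), ∀ φ ∈ T, ∀ Φ : Opr v LE, IsExt L φ Φ →
    ∃ c : Fin n → k, v.Ge 0 (fn Φ x - ∑ i, algebraMap k Ω (c i) * s i)

/-- `x` is in the span of the `y ^ p ^ i` over `k`, modulo `A + O(0)`. -/
def Spn (p : ℕ) (v : RVal Ω) (A : IntermediateField k Ω) (y x : Ω) : Prop :=
  ∃ (n : ℕ) (c : ℕ → k), Nr v A 0 (x - ∑ i ∈ Finset.range n, algebraMap k Ω (c i) * y ^ p ^ i)

end Pool.Agent.TWC
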