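import Pool.Agent.Lib.TWC.ThetaX

/-!
# TANK W, dimension 4, case (I): descent of the stable fields

`ThX p v B E x w D`, bounded weights `w n F ≤ W` (`F < p ^ n`), `x 0 ∈ B`, `x 0 ≠ 0`.

* `pj x D n`: the projection to the coefficient of `x ^ 0` on `B(x n)`;
* `ThX.proj`: its extension to `E`, with values in `B`; it preserves the closed stable subfields
  which contain the `x n`;
* `ThX.desc`: such a subfield `G` is the closure of `(B ⊓ G)(x n, n)`.
-/

set_option autoImplicit false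
set_option linter.unusedSectionVars false

open Polynomial

namespace Pool.Agent.TWC

open Pool.Agent.H15JM (RVal)
open Pool.Agent.LU1 (VPos adj)
open Pool.Agent.D2 (Ctx0)
open Pool.Agent.D2P (clI mem_clI rootF mem_rootF)
open Pool.Agent.TWM

universe u

variable {k Ω : Type u} [Field k] [Field Ω] [Algebra k Ω] {v : RVal Ω}
  {B E G : IntermediateField k Ω} {x : ℕ → Ω} {p : ℕ} [hp : Fact p.Prime] [CharP Ω p]
  {w : ℕ → ℕ → ℝ} {D : ℕ → ℕ → Module.End k E}

omit [CharP Ω p] in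
/-- Representation in degree `< p ^ n`. -/
theorem exists_red (hr : ∀ n, x (n + 1) ^ p = x n) (h0 : x 0 ∈ B) (n : ℕ) {P : Polynomial Ω}
    (hP : P ∈ PI B) : ∃ Q ∈ PI B, Q.natDegree < p ^ n ∧ Q.eval (x n) = P.eval (x n) := by
  have hq : 0 < p ^ n := pow_pos hp.out.pos n
  have hx : x n ^ p ^ n = x 0 := by
    have := root_pow_add hr 0 n
    rwa [zero_add] at this
  refine ⟨∑ i ∈ Finset.range (P.natDegree + 1),
    C (P.coeff i * x 0 ^ (i / p ^ n)) * X ^ (i % p ^ n), ?_, ?_, ?_⟩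
  · exact sum_mem fun i _ => mul_mem (C_mem_PI (mul_mem (hP i) (pow_mem h0 _)))
      (pow_mem X_mem_PI _)
  · refine Nat.lt_of_le_pred hq (natDegree_sum_le_of_forall_le _ _ fun i _ => ?_)
    refine (natDegree_C_mul_X_pow_le _ _).trans ?_
    exact Nat.le_pred_of_lt (Nat.mod_lt i hq)
  · rw [eval_finsetSum, eval_eq_sum_range]
    refine Finset.sum_congr rfl fun i _ => ?_
    rw [eval_mul, eval_C, eval_pow, eval_X, ← hx, ← pow_mul, mul_assoc, ← pow_add,
      Nat.div_add_mod]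

/-- The projection to the coefficient of `x ^ 0`, level `n`. -/
noncomputable def pj (x : ℕ → Ω) (p : ℕ) (D : ℕ → ℕ → Module.End k E) (n : ℕ) (y : E) : Ω :=
  ∑ F ∈ Finset.range (p ^ n), (-x n) ^ F * ((D n F y : E) : Ω)

omit hp [CharP Ω p] in
theorem pj_sub (n : ℕ) (y z : E) : pj x p D n (y - z) = pj x p D n y - pj x p D n z := by
  rw [pj, pj, pj, ← Finset.sum_sub_distrib]
  refine Finset.sum_congr rfl fun F _ => ?_
  rw [map_sub, ← mul_sub]
  rfl

omit [CharP Ω p] in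
theorem root_ne_d (hr : ∀ n, x (n + 1) ^ p = x n) (h0 : x 0 ≠ 0) (n : ℕ) : x n ≠ 0 := by
  intro h1
  have hx : x n ^ p ^ n = x 0 := by
    have := root_pow_add hr 0 n
    rwa [zero_add] at this
  rw [h1, zero_pow (pow_pos hp.out.pos n).ne'] at hx
  exact h0 hx.symm

omit [CharP Ω p] in
theorem val_root_d (hr : ∀ n, x (n + 1) ^ p = x n) (h0 : x 0 ≠ 0) (n : ℕ) :
    x n ≠ 0 ∧ v (x n) = v (x 0) / p ^ n := by
  have hp0 : (0 : ℝ) < (p : ℝ) ^ n := by
    have : (0 : ℝ) < p := by exact_mod_cast hp.out.pos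
    positivity
  have hx : x n ^ p ^ n = x 0 := by
    have := root_pow_add hr 0 n
    rwa [zero_add] at this
  have h1 : x n ≠ 0 := by
    intro h1
    rw [h1, zero_pow (pow_pos hp.out.pos n).ne'] at hx
    exact h0 hx.symm
  refine ⟨h1, ?_⟩
  rw [← hx, v.map_pow h1, Nat.cast_pow, mul_div_cancel_left₀ _ hp0.ne']

namespace ThX

/-- The norm of the projections. -/
theorem pj_ge (h : ThX p v B E x w D) (h0 : x 0 ≠ 0) {W : ℝ}
    (hW : ∀ n, ∀ F < p ^ n, w n F ≤ W) (n : ℕ) (y : E) {b : ℝ} (hb : v.Ge b (y : Ω)) :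
    v.Ge (b - (W + |v (x 0)|)) (pj x p D n y) := by
  refine RVal.Ge.sum _ _ fun F hF => ?_
  have hF' := Finset.mem_range.1 hF
  obtain ⟨h1, h2⟩ := val_root_d (v := v) h.nbx.root h0 n
  have h3 : v.Ge ((F : ℝ) * (v (x 0) / p ^ n)) ((-x n) ^ F) := by
    refine ge_pow ?_ F
    intro _
    rw [v.map_neg _ h1, h2]
  refine (h3.mul (h.ge n F hF' y b hb)).mono ?_
  have h4 := hW n F hF'
  have hq : (0 : ℝ) < (p : ℝ) ^ n := by
    have : (0 : ℝ) < p := by exact_mod_cast hp.out.pos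
    positivity
  have h5 : -|v (x 0)| ≤ (F : ℝ) * (v (x 0) / p ^ n) := by
    have h6 : (F : ℝ) / p ^ n ≤ 1 := by
      rw [div_le_one hq]
      exact_mod_cast hF'.le
    have h7 : (0 : ℝ) ≤ (F : ℝ) / p ^ n := by positivity
    have h8 : (F : ℝ) * (v (x 0) / p ^ n) = F / p ^ n * v (x 0) := by ring
    rw [h8]
    have h9 := neg_abs_le (v (x 0))
    have h10 := abs_nonneg (v (x 0))
    nlinarith
  linarith

/-- The projection on `B(x n)`. -/
theorem pj_eval (h : ThX p v B E x w D) {n : ℕ} {P : Polynomial Ω} (hP : P ∈ PI B)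
    (hd : P.natDegree < p ^ n) {y : E} (hy : (y : Ω) = P.eval (x n)) (j : ℕ) :
    pj x p D (n + j) y = P.coeff 0 := by
  have hpj : 0 < p ^ j := pow_pos hp.out.pos j
  set Q : Polynomial Ω := expand Ω (p ^ j) P with hQ
  have hQB : Q ∈ PI B := expand_mem_PI hpj hP
  have hQd : Q.natDegree < p ^ (n + j) := by
    rw [hQ, natDegree_expand, pow_add]
    exact Nat.mul_lt_mul_of_pos_right hd hpj
  have hQy : (y : Ω) = Q.eval (x (n + j + 0)) := by
    rw [add_zero, hQ, ax_lift h.nbx.root, hy]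
  have h1 : pj x p D (n + j) y =
      ∑ F ∈ Finset.range (p ^ (n + j)), (-x (n + j)) ^ F * (taylor (x (n + j)) Q).coeff F := by
    refine Finset.sum_congr rfl fun F hF => ?_
    rw [h.ev (n + j) F (Finset.mem_range.1 hF) 0 Q hQB y hQy, pow_zero, one_mul, add_zero]
  have h2 : (taylor (x (n + j)) Q).eval (-x (n + j)) = Q.eval 0 := by
    rw [taylor_eval, neg_add_cancel]
  rw [h1]
  have h3 : Q.eval 0 = P.coeff 0 := by
    rw [hQ, expand_eval, zero_pow hpj.ne', ← coeff_zero_eq_eval_zero]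
  rw [← h3, ← h2, eval_eq_sum_range' (n := p ^ (n + j)) (by rwa [natDegree_taylor])]
  exact Finset.sum_congr rfl fun F _ => mul_comm _ _

/-- The projection on `E`. -/
theorem proj (hc : CompleteV v) (hB : Cld v B) (h : ThX p v B E x w D) (hxB : x 0 ∈ B)
    (h0 : x 0 ≠ 0) {W : ℝ} (hW : ∀ n, ∀ F < p ^ n, w n F ≤ W) (u : E) :
    ∃ l ∈ B, (∀ n, ∀ P ∈ PI B, P.natDegree < p ^ n → ∀ b : ℝ, v.Ge b ((u : Ω) - P.eval (x n)) →
      v.Ge (b - (W + |v (x 0)|)) (l - P.coeff 0)) ∧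
      ∀ G : IntermediateField k Ω, Cld v G → (∀ n, x n ∈ G) →
        (∀ n, ∀ F < p ^ n, ∀ y : E, (y : Ω) ∈ G → ((D n F y : E) : Ω) ∈ G) → (u : Ω) ∈ G →
        l ∈ G := by
  classical
  set Λ := W + |v (x 0)| with hΛ
  have hrep : ∀ i : ℕ, ∃ (n : ℕ) (P : Polynomial Ω), P ∈ PI B ∧ P.natDegree < p ^ n ∧
      v.Ge (i : ℝ) ((u : Ω) - P.eval (x n)) := by
    intro i
    obtain ⟨y, ⟨n, P, hP, rfl⟩, -, h1⟩ := h.dense u u.2 i
    obtain ⟨Q, hQ, hd, he⟩ := exists_red h.nbx.root hxB n hP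
    exact ⟨n, Q, hQ, hd, by rwa [he]⟩
  choose n P hP hd hn using hrep
  have hmem : ∀ (n : ℕ) (P : Polynomial Ω), P ∈ PI B → P.eval (x n) ∈ E := fun n P hP =>
    eval_mem (PI_mono h.le hP) (h.mem n)
  -- comparison of two representations
  have key : ∀ (n m : ℕ) (P Q : Polynomial Ω), P ∈ PI B → Q ∈ PI B → P.natDegree < p ^ n →
      Q.natDegree < p ^ m → ∀ b : ℝ, v.Ge b (P.eval (x n) - Q.eval (x m)) →
      v.Ge (b - Λ) (P.coeff 0 - Q.coeff 0) := by
    intro n m P Q hP hQ hPd hQd b hb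
    have h1 := h.pj_eval hP hPd (y := ⟨_, hmem n P hP⟩) rfl m
    have h2 := h.pj_eval hQ hQd (y := ⟨_, hmem m Q hQ⟩) rfl n
    rw [add_comm m n] at h2
    rw [← h1, ← h2, ← pj_sub]
    exact h.pj_ge h0 hW _ _ hb
  have hdif : ∀ i j : ℕ, v.Ge (min (i : ℝ) j - Λ) ((P i).coeff 0 - (P j).coeff 0) := by
    intro i j
    refine key _ _ _ _ (hP i) (hP j) (hd i) (hd j) _ ?_
    have h1 := ((hn j).mono (min_le_right (i : ℝ) j)).sub ((hn i).mono (min_le_left (i : ℝ) j))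
    have h2 : (u : Ω) - (P j).eval (x (n j)) - ((u : Ω) - (P i).eval (x (n i))) =
        (P i).eval (x (n i)) - (P j).eval (x (n j)) := by ring
    rwa [h2] at h1
  obtain ⟨l, hl⟩ := hc (fun i => (P i).coeff 0) fun c => by
    obtain ⟨N, hN⟩ := exists_nat_ge (c + Λ)
    refine ⟨N, fun i j hi hj => (hdif i j).mono ?_⟩
    have h1 : (N : ℝ) ≤ i := by exact_mod_cast hi
    have h2 : (N : ℝ) ≤ j := by exact_mod_cast hj
    have h3 := le_min h1 h2
    linarith
  refine ⟨l, ?_, ?_, ?_⟩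
  · refine hB (mem_clI.2 fun c => ?_)
    obtain ⟨N, hN⟩ := hl c
    exact ⟨_, hP N 0, hN N le_rfl⟩
  · intro m Q hQ hQd b hb
    obtain ⟨N, hN⟩ := hl (b - Λ)
    obtain ⟨M, hM⟩ := exists_nat_ge b
    set i := max N M with hi
    have h1 : l - Q.coeff 0 = (l - (P i).coeff 0) + ((P i).coeff 0 - Q.coeff 0) := by ring
    rw [h1]
    refine (hN i (le_max_left _ _)).add (key _ _ _ _ (hP i) hQ (hd i) hQd b ?_)
    have h2 : (P i).eval (x (n i)) - Q.eval (x m) =
        ((u : Ω) - Q.eval (x m)) - ((u : Ω) - (P i).eval (x (n i))) := by ring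
    rw [h2]
    refine hb.sub ((hn i).mono (hM.trans ?_))
    exact_mod_cast le_max_right N M
  · intro G hG hxG hst hu
    refine hG (mem_clI.2 fun c => ?_)
    obtain ⟨N, hN⟩ := hl c
    obtain ⟨M, hM⟩ := exists_nat_ge (c + Λ)
    set i := max N M with hi
    refine ⟨pj x p D (n i) u, ?_, ?_⟩
    · refine sum_mem fun F hF => mul_mem (pow_mem (neg_mem (hxG _)) _)
        (hst _ F (Finset.mem_range.1 hF) u hu)
    · have h1 := h.pj_eval (hP i) (hd i) (y := ⟨_, hmem (n i) (P i) (hP i)⟩) rfl 0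
      rw [add_zero] at h1
      have h2 : l - pj x p D (n i) u = (l - (P i).coeff 0) -
          pj x p D (n i) (u - ⟨_, hmem (n i) (P i) (hP i)⟩) := by
        rw [pj_sub, h1]
        ring
      rw [h2]
      refine (hN i (le_max_left _ _)).sub ((h.pj_ge h0 hW (n i) _ (b := (i : ℝ)) (hn i)).mono ?_)
      have h3 : (M : ℝ) ≤ i := by exact_mod_cast le_max_right N M
      linarith

/-- the polynomial `x_n ^ (-i) P`, in degree `< p ^ n` -/
noncomputable def shiftP (x : ℕ → Ω) (p n i : ℕ) (P : Polynomial Ω) : Polynomial Ω :=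
  ∑ m ∈ Finset.range (p ^ n), if i ≤ m then C (P.coeff m) * X ^ (m - i) else
    C (P.coeff m * (x 0)⁻¹) * X ^ (p ^ n + m - i)

theorem shiftP_mem (hxB : x 0 ∈ B) {n i : ℕ} {P : Polynomial Ω} (hP : P ∈ PI B) :
    shiftP x p n i P ∈ PI B := by
  refine sum_mem fun m _ => ?_
  split_ifs
  · exact mul_mem (C_mem_PI (hP m)) (pow_mem X_mem_PI _)
  · exact mul_mem (C_mem_PI (mul_mem (hP m) (inv_mem hxB))) (pow_mem X_mem_PI _)

theorem shiftP_deg {n i : ℕ} {P : Polynomial Ω} : (shiftP x p n i P).natDegree < p ^ n := by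
  have hq : 0 < p ^ n := pow_pos hp.out.pos n
  refine Nat.lt_of_le_pred hq (natDegree_sum_le_of_forall_le _ _ fun m hm => ?_)
  have hm' := Finset.mem_range.1 hm
  refine Nat.le_pred_of_lt ?_
  split_ifs with h1
  · exact (natDegree_C_mul_X_pow_le _ _).trans_lt (by omega)
  · exact (natDegree_C_mul_X_pow_le _ _).trans_lt (by omega)

theorem shiftP_coeff {n i : ℕ} (hi : i < p ^ n) {P : Polynomial Ω} :
    (shiftP x p n i P).coeff 0 = P.coeff i := by
  rw [shiftP, finsetSum_coeff, Finset.sum_eq_single i]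
  · rw [if_pos le_rfl, Nat.sub_self, pow_zero, mul_one, coeff_C_zero]
  · intro m hm hmi
    have hm' := Finset.mem_range.1 hm
    split_ifs with h1
    · rw [coeff_C_mul, coeff_X_pow, if_neg (by omega), mul_zero]
    · rw [coeff_C_mul, coeff_X_pow, if_neg (by omega), mul_zero]
  · intro h1
    exact absurd (Finset.mem_range.2 hi) h1

theorem shiftP_eval (hr : ∀ n, x (n + 1) ^ p = x n) (h0 : x 0 ≠ 0) {n i : ℕ} (hi : i < p ^ n)
    {P : Polynomial Ω} (hd : P.natDegree < p ^ n) :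
    (shiftP x p n i P).eval (x n) = (x n ^ i)⁻¹ * P.eval (x n) := by
  have h1 := root_ne_d hr h0 n
  have hx : x n ^ p ^ n = x 0 := by
    have := root_pow_add hr 0 n
    rwa [zero_add] at this
  rw [shiftP, eval_finsetSum, eval_eq_sum_range' hd, Finset.mul_sum]
  refine Finset.sum_congr rfl fun m hm => ?_
  have h2 : x n ^ i ≠ 0 := pow_ne_zero i h1
  split_ifs with h3
  · rw [eval_mul, eval_C, eval_pow, eval_X]
    have h4 : x n ^ m = x n ^ (m - i) * x n ^ i := by rw [← pow_add, Nat.sub_add_cancel h3]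
    rw [h4]
    field_simp
  · rw [eval_mul, eval_C, eval_pow, eval_X]
    have h4 : x n ^ (p ^ n + m - i) * x n ^ i = x 0 * x n ^ m := by
      rw [← pow_add, ← hx, ← pow_add]
      congr 1
      omega
    have h5 : x n ^ (p ^ n + m - i) = x 0 * x n ^ m * (x n ^ i)⁻¹ := by
      rw [← h4, mul_assoc, mul_inv_cancel₀ h2, mul_one]
    rw [h5]
    field_simp

/-- **DESC-FIELD**: a closed stable subfield `G ∋ x n` of `E` is the closure of
`(B ⊓ G)(x n, n)`. -/
theorem desc (hc : CompleteV v) (hB : Cld v B) (h : ThX p v B E x w D) (hxB : x 0 ∈ B)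
    (h0 : x 0 ≠ 0) {W : ℝ} (hW : ∀ n, ∀ F < p ^ n, w n F ≤ W) (hG : Cld v G) (hGE : G ≤ E)
    (hxG : ∀ n, x n ∈ G)
    (hst : ∀ n, ∀ F < p ^ n, ∀ y : E, (y : Ω) ∈ G → ((D n F y : E) : Ω) ∈ G) :
    DnsS v (AX (B ⊓ G) x) G := by
  classical
  intro g hg b
  set Λ := W + |v (x 0)| with hΛ
  obtain ⟨y, ⟨n, P, hP, rfl⟩, -, h1⟩ := h.dense g (hGE hg) (b + Λ)
  obtain ⟨Q, hQ, hd, he⟩ := exists_red h.nbx.root hxB n hP
  rw [← he] at h1
  obtain ⟨hx0, hxv⟩ := val_root_d (v := v) h.nbx.root h0 n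
  -- the coefficients
  have hco : ∀ i < p ^ n, ∃ l ∈ B ⊓ G, v.Ge b ((l - Q.coeff i) * x n ^ i) := by
    intro i hi
    have hu : (x n ^ i)⁻¹ * g ∈ G := mul_mem (inv_mem (pow_mem (hxG n) i)) hg
    obtain ⟨l, hl, h2, h3⟩ := h.proj hc hB hxB h0 hW ⟨_, hGE hu⟩
    refine ⟨l, ⟨hl, h3 G hG hxG hst hu⟩, ?_⟩
    have hxi : x n ^ i ≠ 0 := pow_ne_zero i hx0
    have h4 := h2 n (shiftP x p n i Q) (shiftP_mem hxB hQ) shiftP_deg
      (b + Λ - v (x n ^ i)) (by
        show v.Ge (b + Λ - v (x n ^ i)) ((x n ^ i)⁻¹ * g - (shiftP x p n i Q).eval (x n))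
        rw [shiftP_eval h.nbx.root h0 hi hd, ← mul_sub]
        have h5 : v.Ge (-v (x n ^ i)) (x n ^ i)⁻¹ := by
          intro _
          have h6 := v.map_mul hxi (inv_ne_zero hxi)
          rw [mul_inv_cancel₀ hxi, v.map_one] at h6
          linarith
        refine (h5.mul h1).mono ?_
        linarith)
    rw [shiftP_coeff hi] at h4
    refine (h4.mul (RVal.ge_self (v := v) (x n ^ i))).mono ?_
    linarith
  choose! l hl hlv using hco
  have hR : (∑ i ∈ Finset.range (p ^ n), C (l i) * X ^ i : Polynomial Ω) ∈ PI (B ⊓ G) :=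
    sum_mem fun i hi => mul_mem (C_mem_PI (hl i (Finset.mem_range.1 hi))) (pow_mem X_mem_PI _)
  refine ⟨(∑ i ∈ Finset.range (p ^ n), C (l i) * X ^ i : Polynomial Ω).eval (x n),
    ⟨n, _, hR, rfl⟩, eval_mem (PI_mono inf_le_right hR) (hxG n), ?_⟩
  have h5 : g - (∑ i ∈ Finset.range (p ^ n), C (l i) * X ^ i : Polynomial Ω).eval (x n) =
      (g - Q.eval (x n)) - ∑ i ∈ Finset.range (p ^ n), (l i - Q.coeff i) * x n ^ i := by
    rw [eval_finsetSum, eval_eq_sum_range' hd]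
    simp only [eval_mul, eval_C, eval_pow, eval_X, sub_mul, Finset.sum_sub_distrib]
    ring
  rw [h5]
  have hΛ1 : 0 ≤ Λ := by
    have h6 := hW 0 0 (by rw [pow_zero]; exact one_pos)
    have h7 : 0 ≤ w 0 0 := by
      by_contra h8
      rw [not_le] at h8
      have h9 := h.nbx.nb 0 1 (one_mem _) 0 (by rw [pow_zero]; exact one_pos) 0 (by
        rw [eval_one]
        intro _
        rw [v.map_one])
      rw [taylor_one, coeff_C_zero] at h9
      have h10 := h9 one_ne_zero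
      rw [v.map_one] at h10
      linarith
    have h8 := abs_nonneg (v (x 0))
    linarith
  exact (h1.mono (by linarith)).sub (RVal.Ge.sum _ _ fun i hi => hlv i (Finset.mem_range.1 hi))

/-- The same, `G` as a closure. -/
theorem desc_eq (hc : CompleteV v) (hB : Cld v B) (h : ThX p v B E x w D) (hxB : x 0 ∈ B)
    (h0 : x 0 ≠ 0) {W : ℝ} (hW : ∀ n, ∀ F < p ^ n, w n F ≤ W) (hG : Cld v G) (hGE : G ≤ E)
    (hxG : ∀ n, x n ∈ G)
    (hst : ∀ n, ∀ F < p ^ n, ∀ y : E, (y : Ω) ∈ G → ((D n F y : E) : Ω) ∈ G) :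
    G = clI v ((B ⊓ G) ⊔ IntermediateField.adjoin k (Set.range x)) := by
  refine le_antisymm (fun g hg => mem_clI.2 fun b => ?_) ?_
  · obtain ⟨y, hy, -, h1⟩ := h.desc hc hB hxB h0 hW hG hGE hxG hst g hg b
    refine ⟨y, ?_, h1⟩
    obtain ⟨n, P, hP, rfl⟩ := hy
    exact eval_mem (PI_mono le_sup_left hP) (le_sup_right (a := B ⊓ G)
      (IntermediateField.subset_adjoin k _ ⟨n, rfl⟩))
  · refine (clI_mono (sup_le inf_le_right ?_)).trans hG
    rw [IntermediateField.adjoin_le_iff]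
    rintro _ ⟨n, rfl⟩
    exact hxG n

end ThX

end Pool.Agent.TWC
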