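import Pool.Agent.Lib.TWC.First
import Pool.Agent.Lib.TWC.EW

/-!
# TANK W, dimension 4: the polynomials in the roots of a rectangular family are dense
-/

set_option autoImplicit false

open Polynomial

namespace Pool.Agent.TWC

open Pool.Agent.H15JM (RVal)
open Pool.Agent.D2 (Ctx0)
open Pool.Agent.D2P (clI mem_clI)
open Pool.Agent.TWM
open Pool.Agent.TWC.Key (hd lf dg)

universe u

variable {k Ω : Type u} [Field k] [Field Ω] [Algebra k Ω] {v : RVal Ω}
  {K L E : IntermediateField k Ω} {m : ℕ} {u : ℕ → Fin m → Ω} {p : ℕ}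

/-- The closure of `E(u n l)`. -/
noncomputable def clU (v : RVal Ω) (E : IntermediateField k Ω) {m : ℕ} (u : ℕ → Fin m → Ω) :
    IntermediateField k Ω := clI v (E ⊔ IntermediateField.adjoin k {x | ∃ n l, x = u n l})

theorem cld_clU : Cld v (clU v E u) := cld_clI v _

theorem le_clU : E ≤ clU v E u := le_sup_left.trans (self_le_clI v _)

theorem mem_clU (n : ℕ) (l : Fin m) : u n l ∈ clU v E u :=
  self_le_clI v _ ((le_sup_right : _ ≤ E ⊔ IntermediateField.adjoin k {x | ∃ n l, x = u n l})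
    (IntermediateField.subset_adjoin k _ ⟨n, l, rfl⟩))

theorem clU_le {B : IntermediateField k Ω} (hB : Cld v B) (hE : E ≤ B) (hu : ∀ n l, u n l ∈ B) :
    clU v E u ≤ B := by
  refine clI_le' (sup_le hE (IntermediateField.adjoin_le_iff.2 ?_)) hB
  rintro _ ⟨n, l, rfl⟩
  exact hu n l

section Dns

variable [IsAlgClosed Ω]

variable (hr : ∀ n l, u (n + 1) l ^ p = u n l)

include hr

omit [IsAlgClosed Ω] in
theorem AU.pow {x : Ω} (hx : x ∈ AU E u) (i : ℕ) : x ^ i ∈ AU E u := by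
  induction i with
  | zero =>
    rw [pow_zero]
    exact AU.base E u (one_mem E)
  | succ i ih =>
    rw [pow_succ]
    exact AU.mul hr ih hx

/-- The elements of `E(u 0 l, l ∈ S)` are limits of polynomials. -/
theorem dns_cadS (hE : Cld v E) {c : Fin m → ℝ} (h : Rect v E (u 0) c) (S : Finset (Fin m)) :
    ∀ x ∈ cadS v E (u 0) (S : Set (Fin m)), ∀ b : ℝ, ∃ y ∈ AU E u, v.Ge b (x - y) := by
  classical
  induction S using Finset.induction_on with
  | empty =>
    intro x hx b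
    rw [Finset.coe_empty, cadS_empty] at hx
    exact ⟨x, AU.base E u (hE hx), by rw [sub_self]; exact RVal.Ge.zero⟩
  | insert l S hl ih =>
    intro x hx b
    rw [Finset.coe_insert, ← cadj_cadS] at hx
    obtain ⟨q, hq, h1⟩ := (h S l hl).dense hx b
    choose y hy h2 using fun i : ℕ => ih _ (hq i) (b - v (u 0 l ^ i))
    refine ⟨∑ i ∈ Finset.range (q.natDegree + 1), y i * u 0 l ^ i, ?_, ?_⟩
    · have h3 : ∑ i ∈ Finset.range (q.natDegree + 1), y i * u 0 l ^ i ∈ AUs E hr :=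
        Submodule.sum_mem _ fun i _ => AU.mul hr (hy i) (AU.pow hr (AU.gen E u 0 l) i)
      exact h3
    · rw [← sub_add_sub_cancel x (q.eval (u 0 l))]
      refine h1.add ?_
      rw [eval_eq_sum_range, ← Finset.sum_sub_distrib]
      refine RVal.Ge.sum _ _ fun i _ => ?_
      rw [← sub_mul]
      have h5 := (h2 i).mul (RVal.ge_self (v := v) (u 0 l ^ i))
      rwa [sub_add_cancel] at h5

/-- **The polynomials in the roots are dense.** -/
theorem dns_clU (hp : 0 < p) (hE : Cld v E) {c : Fin m → ℝ} (h : Rect v E (u 0) c) :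
    DnsS v (AU E u) (clU v E u) := by
  classical
  intro x hx b
  obtain ⟨y, hy, h1⟩ := mem_clI.1 hx b
  have hyC : y ∈ cadS v E (u 0) (Finset.univ : Finset (Fin m)) ⊔
      IntermediateField.adjoin k {x | ∃ n l, x = u n l} :=
    (sup_le_sup le_cadS le_rfl : _ ≤ _) hy
  obtain ⟨n, f, hf⟩ := AU.field hr hp (fun l => mem_cadS (by simp)) hyC
  have hev : y = ∑ I ∈ f.support,
      ((f I : cadS v E (u 0) (Finset.univ : Finset (Fin m))) : Ω) * ∏ l, u n l ^ I l := by
    rw [hf, Key.ev, Finsupp.linearCombination_apply, Finsupp.sum]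
    rfl
  choose g hg hgc using fun I : Fin m → ℕ =>
    dns_cadS hr hE h Finset.univ _ (f I).2 (b - v (∏ l, u n l ^ I l))
  have hmon : ∀ I : Fin m → ℕ, ∏ l, u n l ^ I l ∈ AU E u := by
    intro I
    have h3 : ∀ s : Finset (Fin m), ∏ l ∈ s, u n l ^ I l ∈ AU E u := by
      intro s
      induction s using Finset.induction_on with
      | empty =>
        rw [Finset.prod_empty]
        exact AU.base E u (one_mem E)
      | insert a s ha ih =>
        rw [Finset.prod_insert ha]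
        exact AU.mul hr (AU.pow hr (AU.gen E u n a) _) ih
    exact h3 Finset.univ
  have hz : ∑ I ∈ f.support, g I * ∏ l, u n l ^ I l ∈ AU E u := by
    have h3 : ∑ I ∈ f.support, g I * ∏ l, u n l ^ I l ∈ AUs E hr :=
      Submodule.sum_mem _ fun I _ => AU.mul hr (hg I) (hmon I)
    exact h3
  refine ⟨_, hz, AU.mem le_clU mem_clU hz, ?_⟩
  rw [← sub_add_sub_cancel x y]
  refine h1.add ?_
  rw [hev, ← Finset.sum_sub_distrib]
  refine RVal.Ge.sum _ _ fun I _ => ?_
  rw [← sub_mul]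
  have h5 := (hgc I).mul (RVal.ge_self (v := v) (∏ l, u n l ^ I l))
  rwa [sub_add_cancel] at h5

end Dns

variable [hp : Fact p.Prime] [CharP Ω p] [IsAlgClosed Ω]

omit [IsAlgClosed Ω] in
/-- The closure of the perfect closure of `K`. -/
theorem dnsK_clI : DnsK p v K (clI v (pcl p K)) := by
  intro x b
  obtain ⟨y, hy, h1⟩ := mem_clI.1 x.2 b
  exact ⟨⟨y, self_le_clI v _ hy⟩, hy, h1⟩

/-- **The first floor.** -/
theorem exists_FFl {h : K →ₐ[k] PowerSeries Ω} {A : ℕ → ℕ → clI v (pcl p K) →ₗ[k] Ω}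
    {lam : ℝ} {N₀ : ℕ} (hA : HSX p v K (clI v (pcl p K)) h A) (hE : Cld v E)
    (hEL : E ≤ clI v (pcl p K)) (hperf : ∀ a ∈ E, ∃ b ∈ E, b ^ p = a)
    (hstab : ∀ (n j : ℕ) (x : clI v (pcl p K)), (x : Ω) ∈ E → A n j x ∈ E) (hlam : 0 < lam)
    (hgain : ∀ (n j : ℕ) (x : clI v (pcl p K)) (b : ℝ), (x : Ω) ∈ E → v.Ge b (x : Ω) →
      v.Ge (b + (j : ℝ) / (p : ℝ) ^ n * lam) (A n j x))
    (hr : ∀ n l, u (n + 1) l ^ p = u n l) (hu0 : ∀ l, u 0 l ∈ K)
    (hrect : Rect v E (u 0) (fun _ => 0))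
    (hcoef : ∀ (j : ℕ) (l : Fin m) (x : clI v (pcl p K)), (x : Ω) = u 0 l → 0 < j → A 0 j x ∈ E)
    (hfin : ∀ (j : ℕ) (l : Fin m) (x : clI v (pcl p K)), (x : Ω) = u 0 l → N₀ < j →
      A 0 j x = 0) :
    FFl p v K (clI v (pcl p K)) E (clU v E u) h A u lam N₀ where
  hsx := hA
  dnsK := dnsK_clI
  cldE := hE
  cld := cld_clU
  le := le_clU
  leL := clU_le (cld_clI v _) hEL fun n l => self_le_clI v _ (mem_pcl n (by
    have h1 : u n l ^ p ^ n = u 0 l := by
      induction n with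
      | zero => rw [pow_zero, pow_one]
      | succ n ih => rw [pow_succ', pow_mul, hr, ih]
    rw [h1]
    exact hu0 l))
  perf := hperf
  stab := hstab
  pos := hlam
  gain := hgain
  root := hr
  u0 := hu0
  mem := mem_clU
  dns := dns_clU hr hp.out.pos hE hrect
  rect := hrect
  coef := hcoef
  fin := hfin

end Pool.Agent.TWC
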