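import Pool.Agent.Lib.TWM.G3
import Pool.Agent.Lib.TWM.D0
import Pool.Agent.Lib.TWM.Ent1

/-!
# TANK W, class C, row R2r: rectangular families

`w_l`, `l : ι`, is rectangular over `A` of radii `c_l` if every `w_l` is a limit of `A` up to `c_l`,
and is far from the algebraic elements over the closure of `A(w_j : j ≠ l)`.
-/

set_option autoImplicit false

open Polynomial

namespace Pool.Agent.TWC

open Pool.Agent.H15JM (RVal)
open Pool.Agent.LU1 (VPos adj)
open Pool.Agent.LUC (Cl clF)
open Pool.Agent.D2 (Ctx0)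
open Pool.Agent.D2P (clI mem_clI mem_adj_self adj_le rootF mem_rootF)
open Pool.Agent.TWM

universe u

variable {k Ω : Type u} [Field k] [Field Ω] [Algebra k Ω] {v : RVal Ω} {ι : Type}
  {A : IntermediateField k Ω} {w : ι → Ω} {c : ι → ℝ} {S S' : Set ι}

/-- The closure of `A(w_l : l ∈ S)`. -/
noncomputable def cadS (v : RVal Ω) (A : IntermediateField k Ω) {ι : Type} (w : ι → Ω)
    (S : Set ι) : IntermediateField k Ω :=
  clI v (A ⊔ IntermediateField.adjoin k (w '' S))

/-- The family `w` is rectangular. -/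
def Rect (v : RVal Ω) (A : IntermediateField k Ω) {ι : Type} (w : ι → Ω) (c : ι → ℝ) : Prop :=
  ∀ (S : Finset ι) (l : ι), l ∉ S → TL v (cadS v A w S) (w l) (c l)

theorem cld_cadS : Cld v (cadS v A w S) := cld_clI v _

theorem le_cadS : A ≤ cadS v A w S := le_sup_left.trans (le_clI _)

theorem mem_cadS {l : ι} (hl : l ∈ S) : w l ∈ cadS v A w S :=
  le_clI _ ((le_sup_right : _ ≤ A ⊔ IntermediateField.adjoin k (w '' S))
    (IntermediateField.subset_adjoin k _ ⟨l, hl, rfl⟩))

theorem cadS_le {B : IntermediateField k Ω} (hB : Cld v B) (hA : A ≤ B)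
    (hw : ∀ l ∈ S, w l ∈ B) : cadS v A w S ≤ B := by
  refine (clI_mono (sup_le hA ?_)).trans hB
  rw [IntermediateField.adjoin_le_iff]
  rintro _ ⟨l, hl, rfl⟩
  exact hw l hl

theorem cadS_mono (h : S ⊆ S') : cadS v A w S ≤ cadS v A w S' :=
  cadS_le cld_cadS le_cadS fun _ hl => mem_cadS (h hl)

theorem cadS_empty : cadS v A w ∅ = clI v A := by
  rw [cadS, Set.image_empty, IntermediateField.adjoin_empty, sup_bot_eq]

theorem cadj_cadS (l : ι) : cadj v (cadS v A w S) (w l) = cadS v A w (insert l S) := by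
  apply le_antisymm
  · exact cadj_le cld_cadS (cadS_mono (Set.subset_insert l S)) (mem_cadS (Set.mem_insert l S))
  · refine cadS_le (cld_cadj _ _ _) (le_cadS.trans (le_cadj _ _ _)) ?_
    rintro j (rfl | hj)
    · exact self_mem_cadj _ _ _
    · exact le_cadj _ _ _ (mem_cadS hj)

theorem Rect.lim (h : Rect v A w c) (l : ι) : Lim v A (c l) (w l) := by
  have h1 := (h ∅ l (Finset.notMem_empty l)).lim
  rw [Finset.coe_empty, cadS_empty] at h1
  intro ε hε
  obtain ⟨a, ha, h2⟩ := h1 ε hε
  obtain ⟨b, hb, h3⟩ := mem_clI.1 ha (c l - ε)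
  refine ⟨b, hb, ?_⟩
  have h4 := h2.add h3
  rwa [sub_add_sub_cancel] at h4

/-- A set version. -/
theorem Rect.tl [Finite ι] (h : Rect v A w c) {l : ι} (hl : l ∉ S) :
    TL v (cadS v A w S) (w l) (c l) := by
  classical
  have h1 := h (Set.toFinite S).toFinset l (by rwa [Set.Finite.mem_toFinset])
  rwa [Set.Finite.coe_toFinset] at h1

/-- Subfamilies. -/
theorem Rect.comp {κ : Type} (h : Rect v A w c) (f : κ → ι) (hf : Function.Injective f) :
    Rect v A (w ∘ f) (c ∘ f) := by
  classical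
  intro S l hl
  have h1 := h (S.image f) (f l) (by
    intro h2
    obtain ⟨j, hj, h3⟩ := Finset.mem_image.1 h2
    exact hl (hf h3 ▸ hj))
  have h2 : cadS v A w ((S.image f : Finset ι) : Set ι) = cadS v A (w ∘ f) S := by
    rw [cadS, cadS, Finset.coe_image, Set.image_comp]
  rw [h2] at h1
  exact h1

/-- The base may be replaced by the closure of `A(w_l : l ∈ S)`. -/
theorem Rect.base (h : Rect v A w c) (S : Finset ι) {κ : Type} (f : κ → ι)
    (hf : Function.Injective f) (hS : ∀ i, f i ∉ S) :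
    Rect v (cadS v A w S) (w ∘ f) (c ∘ f) := by
  classical
  intro T l hl
  have h1 := h (S ∪ T.image f) (f l) (by
    intro h2
    rcases Finset.mem_union.1 h2 with h2 | h2
    · exact hS l h2
    · obtain ⟨j, hj, h3⟩ := Finset.mem_image.1 h2
      exact hl (hf h3 ▸ hj))
  have h2 : cadS v A w ((S ∪ T.image f : Finset ι) : Set ι) =
      cadS v (cadS v A w S) (w ∘ f) T := by
    apply le_antisymm
    · refine cadS_le cld_cadS (le_cadS.trans le_cadS) fun j hj => ?_
      rw [Finset.coe_union, Finset.coe_image] at hj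
      rcases hj with hj | ⟨i, hi, rfl⟩
      · exact le_cadS (mem_cadS hj)
      · exact mem_cadS (w := w ∘ f) hi
    · refine cadS_le cld_cadS (cadS_mono ?_) fun j hj => mem_cadS (l := f j) ?_
      · rw [Finset.coe_union]
        exact Set.subset_union_left
      · rw [Finset.coe_union, Finset.coe_image]
        exact Or.inr ⟨j, hj, rfl⟩
  rw [h2] at h1
  exact h1

section Chain

variable [IsAlgClosed Ω]

/-- **(1)** A chain of limits of `A` is rectangular. -/
theorem rect_of_chain {m : ℕ} {w : Fin m → Ω} {c : Fin m → ℝ} (hlim : ∀ i, Lim v A (c i) (w i))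
    (h : ∀ i, TL v (cadS v A w {j | j < i}) (w i) (c i)) : Rect v A w c := by
  classical
  have hlim' : ∀ (S : Set (Fin m)) i, Lim v (cadS v A w S) (c i) (w i) := fun S i =>
    (hlim i).mono le_cadS
  have key : ∀ (N : ℕ) (S : Finset (Fin m)) (l : Fin m), (∀ j ∈ S, (j : ℕ) < N) → (l : ℕ) < N →
      l ∉ S → TL v (cadS v A w S) (w l) (c l) := by
    intro N
    induction N with
    | zero => exact fun S l _ hl => absurd hl (Nat.not_lt_zero _)
    | succ N ih =>
      intro S l hS hl hlS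
      by_cases hlN : (l : ℕ) = N
      · refine (h l).of_le (cadS_mono fun j hj => ?_) (hlim' _ l)
        have h1 := hS j (Finset.mem_coe.1 hj)
        have h2 : j ≠ l := by
          rintro rfl
          exact hlS hj
        have h3 : (j : ℕ) ≠ l := fun h3 => h2 (Fin.ext h3)
        change (j : ℕ) < l
        omega
      · have hlN' : (l : ℕ) < N := by omega
        by_cases hq : ∃ q ∈ S, (q : ℕ) = N
        · obtain ⟨q, hqS, hqN⟩ := hq
          have hS' : ∀ j ∈ S.erase q, (j : ℕ) < N := by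
            intro j hj
            obtain ⟨h1, h2⟩ := Finset.mem_erase.1 hj
            have h3 := hS j h2
            have h4 : (j : ℕ) ≠ q := fun h4 => h1 (Fin.ext h4)
            omega
          have hlS' : l ∉ S.erase q := fun h1 => hlS (Finset.mem_of_mem_erase h1)
          have hy := ih (S.erase q) l hS' hlN' hlS'
          have hz : TL v (cadj v (cadS v A w (S.erase q : Finset (Fin m))) (w l)) (w q) (c q) := by
            rw [cadj_cadS]
            refine (h q).of_le (cadS_mono ?_) (hlim' _ q)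
            rintro j (rfl | hj)
            · change (j : ℕ) < q
              omega
            · have h1 := hS' j (Finset.mem_coe.1 hj)
              change (j : ℕ) < q
              omega
          have h1 := (hy.swap hz (hlim' _ q)).2
          rw [cadj_cadS, ← Finset.coe_insert, Finset.insert_erase hqS] at h1
          exact h1
        · refine ih S l (fun j hj => ?_) hlN' hlS
          have h1 := hS j hj
          have h2 : (j : ℕ) ≠ N := fun h2 => hq ⟨j, hj, h2⟩
          omega
  intro S l hl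
  exact key m S l (fun j _ => j.2) l.2 hl

end Chain

section Root

variable (p : ℕ) [Fact p.Prime] [CharP Ω p]

theorem cld_rootFn (n : ℕ) {E : IntermediateField k Ω} (hE : Cld v E) : Cld v (rootF p n E) := by
  intro a ha
  rw [mem_rootF]
  refine hE ?_
  rw [mem_clI] at ha ⊢
  intro c
  obtain ⟨b, hb, h1⟩ := ha (c / (p ^ n : ℕ))
  have hp : (0 : ℝ) < (p ^ n : ℕ) := by exact_mod_cast pow_pos (Fact.out : p.Prime).pos n
  refine ⟨b ^ p ^ n, mem_rootF.1 hb, ?_⟩
  rw [← sub_pow_char_pow]
  exact (ge_pow h1 (p ^ n)).mono (by rw [mul_div_cancel₀ _ hp.ne'])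

omit [Fact p.Prime] [CharP Ω p] in
theorem exists_rootn (hP : ∀ a ∈ A, ∃ b ∈ A, b ^ p = a) (n : ℕ) : ∀ a ∈ A, ∃ b ∈ A, b ^ p ^ n = a := by
  induction n with
  | zero => exact fun a ha => ⟨a, ha, by rw [pow_zero, pow_one]⟩
  | succ n ih =>
    intro a ha
    obtain ⟨b, hb, h1⟩ := ih a ha
    obtain ⟨b', hb', h2⟩ := hP b hb
    exact ⟨b', hb', by rw [pow_succ', pow_mul, h2, h1]⟩

/-- **(2)** The `p^n`-th roots of a rectangular family over a perfect field are rectangular. -/
theorem Rect.root (hP : ∀ a ∈ A, ∃ b ∈ A, b ^ p = a) {u : ι → Ω} {n : ℕ}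
    (hu : ∀ l, u l ^ p ^ n = w l) (h : Rect v A w c) :
    Rect v A u (fun l => c l / (p : ℝ) ^ n) := by
  classical
  have hp : (0 : ℝ) < (p : ℝ) ^ n := pow_pos (by exact_mod_cast (Fact.out : p.Prime).pos) n
  have hpn : (((p ^ n : ℕ) : ℕ) : ℝ) = (p : ℝ) ^ n := by push_cast; rfl
  have hle : ∀ S : Set ι, cadS v A u S ≤ rootF p n (cadS v A w S) := by
    intro S
    refine cadS_le (cld_rootFn p n cld_cadS) (fun a ha => mem_rootF.2 (pow_mem (le_cadS ha) _))
      fun l hl => mem_rootF.2 ?_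
    rw [hu]
    exact mem_cadS hl
  have halg : ∀ S : Set ι, cadS v A u S ≤ algc (cadS v A w S) := by
    intro S a ha
    have h1 := mem_rootF.1 (hle S ha)
    have h2 : IsAlgebraic (cadS v A w S) (a ^ p ^ n) :=
      isAlgebraic_algebraMap (R := cadS v A w S) (⟨a ^ p ^ n, h1⟩ : cadS v A w S)
    exact mem_algc.2 (IsAlgebraic.of_pow (pow_pos (Fact.out : p.Prime).pos n) h2)
  intro S l hl
  refine ⟨fun ε hε => ?_, fun θ hθ => ?_⟩
  · obtain ⟨a, ha, h1⟩ := h.lim l ((p : ℝ) ^ n * ε) (mul_pos hp hε)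
    obtain ⟨b, hb, rfl⟩ := exists_rootn p hP n a ha
    refine ⟨b, le_cadS hb, ?_⟩
    rw [← hu l, ← sub_pow_char_pow] at h1
    intro h0
    have h2 := h1 (pow_ne_zero _ h0)
    rw [v.map_pow h0, hpn] at h2
    have h3 : (p : ℝ) ^ n * (c l / (p : ℝ) ^ n - ε) ≤ (p : ℝ) ^ n * v (u l - b) := by
      rw [mul_sub, mul_div_cancel₀ _ hp.ne']
      exact h2
    exact le_of_mul_le_mul_left h3 hp
  · have h1 : IsAlgebraic (cadS v A w S) θ :=
      isAlgebraic_of_algc (D2P.isAlgebraic_mono (halg S) hθ)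
    obtain ⟨h2, h3⟩ := (h S l hl).far _ (h1.pow (p ^ n))
    have h4 : u l ≠ θ := fun h5 => h2 (by rw [← hu l, h5])
    refine ⟨h4, ?_⟩
    rw [← hu l, ← sub_pow_char_pow, v.map_pow (sub_ne_zero.2 h4), hpn] at h3
    rw [lt_div_iff₀ hp]
    linarith

end Root

/-- **(3)** Every `w_l` is generic over the algebraic closure of the closure of the others. -/
theorem Rect.gen [Finite ι] (h : Rect v A w c) (l : ι) :
    ∃ L : Subfield Ω, (∀ a ∈ A, a ∈ L) ∧ (∀ i, i ≠ l → w i ∈ L) ∧
      (∀ q : Polynomial Ω, q ≠ 0 → (∀ i, q.coeff i ∈ L) → ∀ θ : Ω, q.eval θ = 0 → θ ∈ L) ∧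
      ∀ θ ∈ L, w l ≠ θ ∧ v (w l - θ) < c l := by
  refine ⟨(algc (cadS v A w {i | i ≠ l})).toSubfield, fun a ha => le_algc _ (le_cadS ha),
    fun i hi => le_algc _ (mem_cadS hi), fun q hq hqL θ hθ => ?_, fun θ hθ => ?_⟩
  · exact mem_algc.2 (isAlgebraic_of_algc (isAlgebraic_root (A := algc (cadS v A w {i | i ≠ l}))
      (fun i => hqL i) hq hθ))
  · exact (h.tl (S := {i | i ≠ l}) (fun h1 => h1 rfl)).far θ (mem_algc.1 hθ)

/-- **(5)** -/
theorem Rect.cadj (h : Rect v A w c) (S : Finset ι) {j l : ι} (hl : l ∉ S) (hjl : l ≠ j) :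
    TL v (TWM.cadj v (cadS v A w S) (w j)) (w l) (c l) := by
  classical
  have h1 := h (insert j S) l (by
    rw [Finset.mem_insert]
    rintro (h2 | h2)
    · exact hjl h2
    · exact hl h2)
  rwa [Finset.coe_insert, ← cadj_cadS] at h1

end Pool.Agent.TWC
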