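import Pool.Agent.Lib.TW.Tr
import Pool.Agent.Lib.TWW.FF1
import Pool.Agent.Lib.TWC.Irr6
import Pool.Agent.Lib.TWC.TTx

/-!
# TANK W, dimension 4, case (W1): the entry

`C` is the closure of a finitely generated field `C₀` of transcendence degree two, `X n` are the
`p`-power roots of `X 0 ∈ C₀`, and the elements of `C` which are algebraic over `k(X 0)` are in the
closure of `k(X 0)` (`W` discrete). Then, for some `e`, `C(X e)` is the closure of `k(X e, y)` and
`y` is of transcendental type over the closure of `k(X n, n)`: `T2` for `X (n + e)`, `y`.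
-/

set_option autoImplicit false

open Polynomial

namespace Pool.Agent.TWC

open Pool.Agent.H15JM (RVal)
open Pool.Agent.LU1 (VPos adj)
open Pool.Agent.D2 (Ctx0)
open Pool.Agent.D2P (clI mem_clI rootF mem_rootF hen)
open Pool.Agent.TWM Pool.Agent.TWM.C
open Pool.Agent.TWS (VG)
open Pool.Agent.TW (Ctx Full BD)

universe u

variable {k Ω : Type u} [Field k] [Field Ω] [Algebra k Ω] {v : RVal Ω}
  {C C₀ B : IntermediateField k Ω} {X : ℕ → Ω} {y : Ω} {r s : ℝ}

/-- The values of the closure of `k(t)`, `v t < 0`. -/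
theorem vg_cadj_bot (hk : Ctx0 k v) {t : Ω} (ht0 : t ≠ 0) (ht : v t < 0) {g : Ω}
    (hg : g ∈ cadj v (⊥ : IntermediateField k Ω) t) (hg0 : g ≠ 0) : ∃ m : ℤ, v g = m * v t := by
  obtain ⟨g₀, hg₀, hg₀0, hval, -⟩ := LUC.Cl.exists_val (mem_clI.1 hg) 0 hg0
  have h1 : adj (⊥ : IntermediateField k Ω) t = IntermediateField.adjoin k {t} := bot_sup_eq _
  have h2 : g₀ ∈ adj (⊥ : IntermediateField k Ω) t := hg₀
  rw [h1, IntermediateField.mem_adjoin_simple_iff] at h2
  obtain ⟨P, Q, hPQ⟩ := h2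
  have hQ0 : Q ≠ 0 := by
    rintro rfl
    rw [map_zero, div_zero] at hPQ
    exact hg₀0 hPQ
  have hP0 : P ≠ 0 := by
    rintro rfl
    rw [map_zero, zero_div] at hPQ
    exact hg₀0 hPQ
  obtain ⟨h3, h4⟩ := val_aeval_neg hk ht0 ht hP0
  obtain ⟨h5, h6⟩ := val_aeval_neg hk ht0 ht hQ0
  refine ⟨(P.natDegree : ℤ) - Q.natDegree, ?_⟩
  rw [← hval, hPQ, v.map_div h3 h5, h4, h6]
  push_cast
  ring

section

variable {p : ℕ} [hp : Fact p.Prime]

/-- The root of `X 0` is not in the closure of `k(X 0)`. -/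
theorem one_notMem_bot (hk : Ctx0 k v) (hr : ∀ n, X (n + 1) ^ p = X n) (h0 : X 0 ≠ 0)
    (hv : v (X 0) < 0) : X 1 ∉ cadj v (⊥ : IntermediateField k Ω) (X 0) := by
  intro h1
  obtain ⟨m, hm⟩ := vg_cadj_bot hk h0 hv h1 (root_ne hr h0 1)
  rw [val_root hr h0 1, pow_one, div_eq_iff (by exact_mod_cast hp.out.ne_zero)] at hm
  have h2 : ((1 : ℤ) : ℝ) * v (X 0) = ((m * p : ℤ) : ℝ) * v (X 0) := by
    push_cast
    linarith
  have h3 : (1 : ℤ) = m * p := by exact_mod_cast mul_right_cancel₀ hv.ne h2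
  have h4 : (p : ℤ) ∣ 1 := ⟨m, by rw [h3]; ring⟩
  have h5 := Int.natAbs_dvd_natAbs.2 h4
  rw [Int.natAbs_natCast, Int.natAbs_one] at h5
  exact hp.out.one_lt.ne' (Nat.dvd_one.1 h5)

variable [CharP k p] [CharP Ω p] [IsAlgClosed Ω]

/-- The powers of the elements of `C(X (n + 1))` are in `C(X n)`. -/
theorem cadj_succ_le (hC : Cld v C) (hr : ∀ n, X (n + 1) ^ p = X n) (n : ℕ) :
    cadj v C (X (n + 1)) ≤ rootF p 1 (cadj v C (X n)) := by
  refine cadj_le (cld_rootF p (cld_cadj _ _ _)) (fun a ha => ?_) ?_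
  · rw [mem_rootF1]
    exact pow_mem (le_cadj _ _ _ ha) p
  · rw [mem_rootF1, hr]
    exact self_mem_cadj _ _ _

theorem notMem_succ (hC : Cld v C) (hr : ∀ n, X (n + 1) ^ p = X n) (h0 : X 0 ∈ C)
    (h1 : X 1 ∉ C) (n : ℕ) : X (n + 1) ∉ cadj v C (X n) := by
  induction n with
  | zero =>
    intro h2
    exact h1 (cadj_le hC le_rfl h0 h2)
  | succ n ih =>
    intro h2
    apply ih
    have h3 := cadj_succ_le hC hr n h2
    rwa [mem_rootF1, hr] at h3

/-- The `p ^ n`-th powers of the elements of `C(X n)` are in `C`. -/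
theorem pow_mem_of_cadj (hC : Cld v C) (hr : ∀ n, X (n + 1) ^ p = X n) (h0 : X 0 ∈ C) (n : ℕ)
    {a : Ω} (ha : a ∈ cadj v C (X n)) : a ^ p ^ n ∈ C := by
  induction n generalizing a with
  | zero =>
    rw [pow_zero, pow_one]
    exact cadj_le hC le_rfl h0 ha
  | succ n ih =>
    rw [pow_succ', pow_mul]
    have h1 := cadj_succ_le hC hr n ha
    rw [mem_rootF1] at h1
    exact ih h1

end

section Main

variable {p : ℕ} [hp : Fact p.Prime] [CharP k p] [CharP Ω p] [IsAlgClosed Ω] [IsAlgClosed k]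

theorem bot_perfE (p : ℕ) [hp : Fact p.Prime] : ∀ a ∈ (⊥ : IntermediateField k Ω),
    ∃ b ∈ (⊥ : IntermediateField k Ω), b ^ p = a := by
  intro a ha
  obtain ⟨c, rfl⟩ := IntermediateField.mem_bot.1 ha
  obtain ⟨d, rfl⟩ := IsAlgClosed.exists_pow_nat_eq c hp.out.pos
  exact ⟨algebraMap k Ω d, IntermediateField.algebraMap_mem _ d, by rw [map_pow]⟩

/-- The roots of the elements of the closure of `k(X 0)`. -/
theorem mem_of_pow_bot (hr : ∀ n, X (n + 1) ^ p = X n) (n : ℕ) {a : Ω}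
    (ha : a ^ p ^ n ∈ cadj v (⊥ : IntermediateField k Ω) (X 0)) :
    a ∈ cadj v (⊥ : IntermediateField k Ω) (X n) := by
  induction n generalizing a with
  | zero => rwa [pow_zero, pow_one] at ha
  | succ n ih =>
    rw [pow_succ', pow_mul] at ha
    have h1 := ih ha
    rw [← mem_rootF1 p, rootF_cadj_perf p (bot_perfE p) hr n] at h1
    exact h1

theorem mem_ew_of_bot (X : ℕ → Ω) (n : ℕ) {a : Ω}
    (ha : a ∈ cadj v (⊥ : IntermediateField k Ω) (X n)) :
    a ∈ EW v (⊥ : IntermediateField k Ω) X :=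
  cadj_le EW.cld EW.le (EW.mem n) ha

/-- The perfect closure of the algebraic elements of `C`. -/
theorem ew_eq_pcl (hr : ∀ n, X (n + 1) ^ p = X n) (h0 : X 0 ∈ C)
    (hW : ∀ a ∈ C, IsAlgebraic (adj (⊥ : IntermediateField k Ω) (X 0)) a →
      a ∈ cadj v (⊥ : IntermediateField k Ω) (X 0)) :
    clI v (pcl p (C ⊓ algc (adj (⊥ : IntermediateField k Ω) (X 0)))) =
      EW v (⊥ : IntermediateField k Ω) X := by
  refine le_antisymm (clI_le' ?_ EW.cld) (EW_le (cld_clI v _) bot_le fun n => ?_)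
  · rintro a ⟨m, hm⟩
    exact mem_ew_of_bot X m (mem_of_pow_bot hr m (hW _ hm.1 (mem_algc.1 hm.2)))
  · refine self_le_clI v _ ⟨n, ?_⟩
    have h1 := root_pow_add hr 0 n
    rw [zero_add] at h1
    rw [h1]
    exact ⟨h0, mem_algc.2 (isAlgebraic_algebraMap
      (⟨X 0, (D2P.mem_adj_self _ _).1⟩ : adj (⊥ : IntermediateField k Ω) (X 0)))⟩

/-- `C(X n)` is regular over the closure of `k(X m, m)`, outside of which every element is of
transcendental type. -/
theorem tl_ew (hk : Ctx0 k v) (hc : CompleteV v) (hC : Cld v C) (hr : ∀ n, X (n + 1) ^ p = X n)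
    (h0 : X 0 ∈ C) (hfull : ∀ F : IntermediateField k Ω, X 0 ∈ F → Full v F)
    (hW : ∀ a ∈ C, IsAlgebraic (adj (⊥ : IntermediateField k Ω) (X 0)) a →
      a ∈ cadj v (⊥ : IntermediateField k Ω) (X 0)) (n : ℕ) {z : Ω} (hz : z ∈ cadj v C (X n))
    (hzE : z ∉ EW v (⊥ : IntermediateField k Ω) X) :
    ∃ s : ℝ, TL v (EW v (⊥ : IntermediateField k Ω) X) z s := by
  have hX0 : X 0 ∈ C ⊓ algc (adj (⊥ : IntermediateField k Ω) (X 0)) :=
    ⟨h0, mem_algc.2 (isAlgebraic_algebraMap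
      (⟨X 0, (D2P.mem_adj_self _ _).1⟩ : adj (⊥ : IntermediateField k Ω) (X 0)))⟩
  have h1 := TWW.tl_of_pcl (p := p) (W := C ⊓ algc (adj (⊥ : IntermediateField k Ω) (X 0))) hk hc
    hC inf_le_left (fun a ha hal => ⟨ha, mem_algc.2 (isAlgebraic_of_algc
      (D2P.isAlgebraic_mono inf_le_right hal))⟩) (hfull _ hX0) (y := z)
    (self_le_clI v _ ⟨n, pow_mem_of_cadj hC hr h0 n hz⟩)
  rw [ew_eq_pcl hr h0 hW] at h1
  exact h1 hzE

/-- **THE ENTRY (W1).** -/
theorem entW1 (h : Ctx k v 1) (hc : CompleteV v) (hC₀ : C₀.FG)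
    (htr : Algebra.trdeg k C₀ = (2 : ℕ)) (hr : ∀ n, X (n + 1) ^ p = X n) (h0 : X 0 ∈ C₀)
    (hX0 : X 0 ≠ 0) (hv : v (X 0) < 0)
    (hW : ∀ a ∈ clI v C₀, IsAlgebraic (adj (⊥ : IntermediateField k Ω) (X 0)) a →
      a ∈ cadj v (⊥ : IntermediateField k Ω) (X 0))
    (hdiv : ∀ g ∈ VG v (clI v C₀), g / p ∈ VG v (clI v C₀))
    (hCE : ¬ clI v C₀ ≤ EW v (⊥ : IntermediateField k Ω) X) :
    ∃ (e : ℕ) (y : Ω) (s : ℝ), T2 p k v (fun n => X (n + e)) y s ∧
      cadj v (clI v C₀) (X e) = CP v (X e) y := by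
  have hk : Ctx0 k v := h.toCtx0
  have hC : Cld v (clI v C₀) := cld_clI v C₀
  have h0C : X 0 ∈ clI v C₀ := self_le_clI v C₀ h0
  have hL₀ : adj (⊥ : IntermediateField k Ω) (X 0) ≤ C₀ := D2P.adj_le bot_le h0
  obtain ⟨e, N', hN'fg, hroot, hN'alg, z, hz, hhen⟩ := TW.row_A p (n := 1) h C₀ hC₀
    (by rw [htr]) (adj (⊥ : IntermediateField k Ω) (X 0)) hL₀ (D2P.fg_adj (IntermediateField.fg_bot) _)
    (full_of_mem h (D2P.mem_adj_self _ _).1 hX0 hv.ne)
    (by rw [trdeg_adj_bot hk hX0 hv.ne])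
  have hXe : X e ^ p ^ e = X 0 := by
    have h1 := root_pow_add hr 0 e
    rwa [zero_add] at h1
  -- the closure
  have hcl : clI v (adj N' z) = cadj v (clI v C₀) (X e) := by
    rw [← clI_hen (v := v) (adj N' z), ← hhen, clI_hen]
    refine le_antisymm (clI_le' (sup_le ?_ ?_) (cld_cadj _ _ _)) (clI_le' ?_ (cld_clI v _))
    · exact (self_le_clI v C₀).trans (le_cadj _ _ _)
    · intro a ha
      rw [mem_rootF] at ha
      have h2 : a ∈ cadj v (⊥ : IntermediateField k Ω) (X e) :=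
        mem_of_pow_bot hr e (self_le_clI v _ ha)
      exact cadj_mono bot_le _ h2
    · refine D2P.adj_le (clI_mono' le_sup_left) (self_le_clI v _ ?_)
      refine (le_sup_right : rootF p e _ ≤ _) ?_
      rw [mem_rootF, hXe]
      exact (D2P.mem_adj_self _ _).1
  have hN'le : N' ≤ cadj v (⊥ : IntermediateField k Ω) (X e) := by
    intro a ha
    have h1 : a ∈ cadj v (clI v C₀) (X e) := by
      rw [← hcl]
      exact self_le_clI v _ ((D2P.mem_adj_self _ _).2 ha)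
    refine mem_of_pow_bot hr e (hW _ (pow_mem_of_cadj hC hr h0C e h1) ?_)
    exact (hN'alg a ha).pow _
  have hCP : cadj v (clI v C₀) (X e) = CP v (X e) z := by
    rw [← hcl]
    refine le_antisymm (clI_le' (D2P.adj_le ?_ (self_mem_cadj _ _ _)) (cld_cadj _ _ _))
      (cadj_le (cld_clI v _) (cadj_le (cld_clI v _) bot_le (self_le_clI v _ ?_))
        (self_le_clI v _ (D2P.mem_adj_self _ _).1))
    · exact hN'le.trans (le_cadj _ _ _)
    · refine (D2P.mem_adj_self _ _).2 (hroot ?_)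
      rw [mem_rootF, hXe]
      exact (D2P.mem_adj_self _ _).1
  have hzC : z ∈ cadj v (clI v C₀) (X e) := by
    rw [hCP]
    exact self_mem_cadj _ _ _
  have hzE : z ∉ EW v (⊥ : IntermediateField k Ω) X := by
    intro h1
    refine hCE ?_
    have h2 : CP v (X e) z ≤ EW v (⊥ : IntermediateField k Ω) X :=
      cadj_le EW.cld (cadj_le EW.cld EW.le (EW.mem e)) h1
    rw [← hCP] at h2
    exact (le_cadj _ _ _).trans h2
  obtain ⟨s, hs⟩ := tl_ew hk hc hC hr h0C (fun F hF => full_of_mem h hF hX0 hv.ne) hW e hzC hzE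
  have h1C : X 1 ∉ clI v C₀ := by
    intro h1
    refine one_notMem_bot hk hr hX0 hv (hW _ h1 ?_)
    have h2 : IsAlgebraic (adj (⊥ : IntermediateField k Ω) (X 0)) (X 1 ^ p) := by
      rw [hr 0]
      exact isAlgebraic_algebraMap
        (⟨X 0, (D2P.mem_adj_self _ _).1⟩ : adj (⊥ : IntermediateField k Ω) (X 0))
    exact IsAlgebraic.of_pow hp.out.pos h2
  refine ⟨e, z, s, ⟨fun n => ?_, ?_, ?_, ?_, ?_, ?_⟩, hCP⟩
  · have := hr (n + e)
    rwa [show n + e + 1 = n + 1 + e by ring] at this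
  · exact root_ne hr hX0 _
  · rw [zero_add, val_root hr hX0 e]
    exact div_neg_of_neg_of_pos hv (pow_pos (by exact_mod_cast hp.out.pos) e)
  · rwa [EW_shift hr]
  · show X (1 + e) ∉ CP v (X (0 + e)) z
    rw [zero_add, ← hCP, add_comm 1 e]
    exact notMem_succ hC hr h0C h1C e
  · show ∀ g ∈ VG v (CP v (X (0 + e)) z), g / p ∈ VG v (CP v (X (0 + e)) z)
    rw [zero_add, ← hCP]
    intro g hg
    obtain ⟨a, ha, ha0, rfl⟩ := hg
    have h1 : (p : ℝ) ^ e * v a ∈ VG v (clI v C₀) :=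
      ⟨a ^ p ^ e, pow_mem_of_cadj hC hr h0C e ha, pow_ne_zero _ ha0, by
        rw [v.map_pow ha0]
        push_cast
        ring⟩
    have h2 := vg_div_pow hdiv (e + 1) h1
    have hp0 : (p : ℝ) ≠ 0 := by exact_mod_cast hp.out.ne_zero
    have h3 : (p : ℝ) ^ e * v a / p ^ (e + 1) = v a / p := by
      rw [pow_succ]
      field_simp
    rw [h3] at h2
    obtain ⟨b, hb, hb0, hb1⟩ := h2
    exact ⟨b, le_cadj _ _ _ hb, hb0, hb1⟩

end Main

end Pool.Agent.TWC
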