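import Pool.Agent.Lib.TWC.EntW1
import Pool.Agent.Lib.TWC.HandH

/-!
# TANK W, dimension 4, case (W1): the isogeny class

* **`clc_of_w1`**: if the completion contains a base `C₀` as in `TWC.entW1` and the closure of `K₀`
  is a tower with two floors over the closure of `C₀`, then `ClC (T3m p k) v K₀`.
-/

set_option autoImplicit false

namespace Pool.Agent.TWC

open Pool.Agent.H15JM (RVal)
open Pool.Agent.LU1 (adj)
open Pool.Agent.D2 (Ctx0)
open Pool.Agent.D2P (clI mem_clI)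
open Pool.Agent.TWM Pool.Agent.TWM.C
open Pool.Agent.TWS (VG TowR)
open Pool.Agent.TW (Ctx)

universe u

/-- A tower and a root of an element of the base. -/
theorem towR_root {k Ω : Type u} [Field k] [Field Ω] [Algebra k Ω] [IsAlgClosed Ω] {v : RVal Ω}
    {p : ℕ} [Fact p.Prime] [CharP Ω p] {C K : IntermediateField k Ω} {n : ℕ}
    (h : TowR v n C K) {a : Ω} {e : ℕ} (ha : a ^ p ^ e ∈ C) :
    TowR v n (cadj v C a) (cadj v K a) := by
  have h1 : cadj v C a ≤ clI v (algc C) := by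
    refine cadj_le (cld_clI v _) ((le_algc C).trans (le_clI _)) (le_clI _ (mem_algc.2 ?_))
    exact IsAlgebraic.of_pow (pow_pos (Fact.out : p.Prime).pos e)
      (isAlgebraic_algebraMap (⟨a ^ p ^ e, ha⟩ : C))
  have h2 := h.base (le_cadj v C a) (cld_cadj v C a) h1
  have h3 : clI v (K ⊔ cadj v C a) = cadj v K a := by
    refine le_antisymm (clI_le' (sup_le (le_cadj v K a) (cadj_mono h.le a)) (cld_cadj v K a))
      (cadj_le (cld_clI v _) (le_sup_left.trans (le_clI _)) (le_clI _ ?_))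
    exact (le_sup_right : cadj v C a ≤ K ⊔ cadj v C a) (self_mem_cadj v C a)
  rwa [h3] at h2

/-- **The entry (W1), isogeny class.** -/
theorem clc_of_w1 {p : ℕ} [Fact p.Prime] {k Ω : Type u} [Field k] [IsAlgClosed k] [CharP k p]
    [Field Ω] [Algebra k Ω] {v : RVal Ω} (h : Ctx k v 1) {K₀ : IntermediateField k Ω}
    {Ω' : Type u} [Field Ω'] [Algebra k Ω'] [IsAlgClosed Ω'] {ι : Ω →ₐ[k] Ω'} {v' : RVal Ω'}
    (hc : CompleteV v') (hD : Dense v v' ι) {C₀ : IntermediateField k Ω'} (hC₀ : C₀.FG)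
    (htr : Algebra.trdeg k C₀ = (2 : ℕ)) {X : ℕ → Ω'} (hr : ∀ n, X (n + 1) ^ p = X n)
    (h0 : X 0 ∈ C₀) (hX0 : X 0 ≠ 0) (hv : v' (X 0) < 0)
    (hW : ∀ a ∈ clI v' C₀, IsAlgebraic (adj (⊥ : IntermediateField k Ω') (X 0)) a →
      a ∈ cadj v' (⊥ : IntermediateField k Ω') (X 0))
    (hdiv : ∀ g ∈ VG v' (clI v' C₀), g / p ∈ VG v' (clI v' C₀))
    (hCE : ¬ clI v' C₀ ≤ EW v' (⊥ : IntermediateField k Ω') X)
    (hT : TowR v' 2 (clI v' C₀) (clI v' (K₀.map ι))) : TW.ClC p (TW.T3m p k) v K₀ := by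
  have : CharP Ω' p := charP_of_injective_algebraMap (algebraMap k Ω').injective p
  have h0C : X 0 ∈ clI v' C₀ := le_clI _ h0
  obtain ⟨e, y, s, hT2, hCP⟩ := entW1 (hD.ctx h) hc hC₀ htr hr h0 hX0 hv hW hdiv hCE
  have hXe : X e ^ p ^ e = X 0 := by
    have h1 := root_pow_add hr 0 e
    rwa [zero_add] at h1
  refine ⟨Ω', _, _, ι, v', ‹_›, hc, hD, cadj v' (clI v' (K₀.map ι)) (X e), cld_cadj _ _ _,
    ⟨e, fun a ha => pow_mem (le_cadj _ _ _ ha) _, fun a ha =>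
      pow_mem_of_cadj (cld_clI v' _) hr (hT.le h0C) e ha⟩, fun n => X (n + e), y, s, hT2, ?_⟩
  show TowR v' 2 (CP v' (X (0 + e)) y) _
  rw [zero_add, ← hCP]
  exact towR_root hT (e := e) (by rw [hXe]; exact h0C)

end Pool.Agent.TWC
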