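import Pool.Agent.Lib.TWC.Pair1
import Pool.Agent.Lib.TWM.G3

/-!
# TANK W, class C: the pair of a field of rational radius (row PF), definitions

`X (n + 1) ^ p = X n`, `v (X 0) < 0`.
* `SW k X b j`: the span of the `X n ^ i`, `n ≥ j`, `i ≤ b`;
* `SA k p X b`: the span of the `X n ^ (i p ^ l)`, `i ≤ b`;
* `Lm v S f`: `f` is in `S + O(≥ -ε)` for every `ε > 0`;
* `InS p v C X b n`: `C` contains an element with the leading top letter `X n ^ (b + 1)`;
* `PR p v C X y b`: `C` is the closure of `k(X 0, y)`, `y` of transcendental type and of radius `0`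
  over the closure of `k(X 0, X 1, ..)`, with letters of exponents `≤ b`.
-/

set_option autoImplicit false

open Polynomial

namespace Pool.Agent.TWC.PF

open Pool.Agent.H15JM (RVal)
open Pool.Agent.D2 (Ctx0)
open Pool.Agent.D2P (clI mem_clI)
open Pool.Agent.TWM

universe u

section Defs

variable (k : Type u) {Ω : Type u} [Field k] [Field Ω] [Algebra k Ω]

/-- The span of the `X n ^ i`, `n ≥ j`, `i ≤ b`. -/
def SW (X : ℕ → Ω) (b j : ℕ) : Submodule k Ω :=
  Submodule.span k {m | ∃ n i : ℕ, j ≤ n ∧ i ≤ b ∧ m = X n ^ i}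

/-- The span of the `X n ^ (i p ^ l)`, `i ≤ b`. -/
def SA (p : ℕ) (X : ℕ → Ω) (b : ℕ) : Submodule k Ω :=
  Submodule.span k {m | ∃ n l i : ℕ, i ≤ b ∧ m = X n ^ (i * p ^ l)}

end Defs

variable {k Ω : Type u} [Field k] [Field Ω] [Algebra k Ω]

/-- `f` is in `S + O(≥ -ε)` for every `ε > 0`. -/
def Lm (v : RVal Ω) (S : Submodule k Ω) (f : Ω) : Prop :=
  ∀ ε : ℝ, 0 < ε → ∃ s ∈ S, v.Ge (-ε) (f - s)

/-- `C` contains an element with the leading top letter `X n ^ (b + 1)`. -/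
def InS (p : ℕ) (v : RVal Ω) (C : IntermediateField k Ω) (X : ℕ → Ω) (b n : ℕ) : Prop :=
  ∃ f ∈ C, Lm v (SW k X (b + 1) (n + 1) ⊔ SA k p X b) (f - X n ^ (b + 1))

/-- The data: letters of exponents `≤ b`. -/
structure PR (p : ℕ) (v : RVal Ω) (C : IntermediateField k Ω) (X : ℕ → Ω) (y : Ω) (b : ℕ) :
    Prop where
  root : ∀ n, X (n + 1) ^ p = X n
  ne : X 0 ≠ 0
  neg : v (X 0) < 0
  tl : TL v (EW v (⊥ : IntermediateField k Ω) X) y 0
  eq : C = cadj v (cadj v (⊥ : IntermediateField k Ω) (X 0)) y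
  ltr : Lm v (SW k X b 1) y

end Pool.Agent.TWC.PF
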