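import Pool.Agent.Lib.TWC.Irr2
import Pool.Agent.Lib.TWC.TPx
import Pool.Agent.Lib.TWC.PFdefs

/-!
# TANK W, class C: one step of the continued fraction (row PairRat, part b)

`q` a polynomial over `k` of degree `b` prime to `p`, `V (X) < 0`.

* `root_near_mem`: a root of `q (Z) = a`, `a ∈ A` closed, which is near to `A` is in `A`;
* `exists_root_near`: if `y` is near to `q (X)`, then `q (Z) = y` has a root near to `X`;
* `exists_step`: for `C` closed, `y ∈ C` near to `q (X 1)` there is `t ∈ C` near to `X 1` with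
  `q (t) = y`, and `cl k(X 0, y) = cl k(t, z)`, `z = y ^ p - q' (X 0)`, `q' = q ^ Frob`.
-/

set_option autoImplicit false

open Polynomial

namespace Pool.Agent.TWC

open Pool.Agent.H15JM (RVal)
open Pool.Agent.LU1 (VPos adj)
open Pool.Agent.D2 (Ctx0)
open Pool.Agent.D2P (clI mem_clI)
open Pool.Agent.TWM Pool.Agent.TWM.C
open Pool.Agent.TWS (VG)

universe u

variable {k Ω : Type u} [Field k] [Field Ω] [Algebra k Ω] {v : RVal Ω}
  {A C : IntermediateField k Ω} {p : ℕ} [hp : Fact p.Prime] [CharP k p]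

omit hp in
theorem derivative_ne_zero_of {q : k[X]} (hq : ¬ p ∣ q.natDegree) : derivative q ≠ 0 := by
  have hb0 : q.natDegree ≠ 0 := by
    intro h
    rw [h] at hq
    exact hq (dvd_zero p)
  have hq0 : q ≠ 0 := by
    rintro rfl
    exact hb0 natDegree_zero
  intro h
  have h1 : (derivative q).coeff (q.natDegree - 1) = 0 := by rw [h, coeff_zero]
  rw [coeff_derivative, Nat.sub_add_cancel (Nat.pos_of_ne_zero hb0)] at h1
  rcases mul_eq_zero.1 h1 with h2 | h2
  · exact leadingCoeff_ne_zero.2 hq0 h2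
  · have h3 : ((q.natDegree - 1 : ℕ) : k) + 1 = (q.natDegree : k) := by
      rw [← Nat.cast_succ, Nat.succ_eq_add_one, Nat.sub_add_cancel (Nat.pos_of_ne_zero hb0)]
    rw [h3, CharP.cast_eq_zero_iff k p] at h2
    exact hq h2

omit hp in
theorem natDegree_derivative_of {q : k[X]} (hq : ¬ p ∣ q.natDegree) :
    (derivative q).natDegree = q.natDegree - 1 := by
  refine le_antisymm (natDegree_derivative_le q) (le_natDegree_of_ne_zero ?_)
  have hb0 : q.natDegree ≠ 0 := by
    intro h
    rw [h] at hq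
    exact hq (dvd_zero p)
  have hq0 : q ≠ 0 := by
    rintro rfl
    exact hb0 natDegree_zero
  rw [coeff_derivative, Nat.sub_add_cancel (Nat.pos_of_ne_zero hb0)]
  refine mul_ne_zero (leadingCoeff_ne_zero.2 hq0) ?_
  rw [← Nat.cast_succ, Nat.succ_eq_add_one, Nat.sub_add_cancel (Nat.pos_of_ne_zero hb0), Ne,
    CharP.cast_eq_zero_iff k p]
  exact hq

omit hp in
/-- Two roots of `q (Z) = a`, of a relative distance `> 0`, are the same. -/
theorem root_unique (hk : Ctx0 k v) {q : k[X]} (hq : ¬ p ∣ q.natDegree) {X b : Ω} (hX0 : X ≠ 0)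
    (hX : v X < 0) (hb : Gt v (v X) (b - X)) (h : aeval b q = aeval X q) : b = X := by
  by_contra hne
  have h0 := sub_ne_zero.2 hne
  have h1 := hb h0
  have h2 := Irr.newton (y := b) (g := X) (Q := aeval X q) (V := v X) (τ := v (b - X))
    (c := 2 * v (b - X) - v X + (q.natDegree - 1) * v X) hk hq hX0 rfl hX h1.le
    (RVal.ge_self _) (by rw [h, sub_self]; exact RVal.Ge.zero)
  rw [sub_self, zero_div, add_zero] at h2
  have h3 := h2 h0
  rw [min_eq_left (by linarith)] at h3
  linarith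

omit hp in
/-- A root of `q (Z) = a` which is near to `A` is in `A`. -/
theorem root_near_mem [IsAlgClosed Ω] (hk : Ctx0 k v) (hA : Cld v A) {q : k[X]}
    (hq : ¬ p ∣ q.natDegree) {X u : Ω} (hX0 : X ≠ 0) (hX : v X < 0) (hu : u ∈ A)
    (hXu : Gt v (v X) (X - u)) (ha : aeval X q ∈ A) : X ∈ A := by
  by_cases hXu0 : X = u
  · rw [hXu0]
    exact hu
  set G : Polynomial A := q.map (algebraMap k A) - C ⟨aeval X q, ha⟩ with hG
  have hGe : ∀ b : Ω, aeval b G = aeval b q - aeval X q := by
    intro b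
    rw [hG, map_sub, aeval_C, aeval_map_algebraMap]
    rfl
  refine D2P.mem_of_alone hk (hen_eq hA) G hu (by rw [hGe, sub_self]) ?_ fun b hb hbu hv => ?_
  · rw [hG, derivative_sub, derivative_C, sub_zero, derivative_map, aeval_map_algebraMap]
    exact (val_aeval_neg hk hX0 hX (derivative_ne_zero_of hq)).1
  · rw [hGe, sub_eq_zero] at hb
    refine root_unique hk hq hX0 hX ?_ hb
    have h1 : Gt v (v X) (b - u) := fun _ => by
      rw [hv]
      exact hXu (sub_ne_zero.2 hXu0)
    have e : b - X = (b - u) - (X - u) := by ring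
    rw [e]
    exact h1.sub hXu

omit hp in
/-- A root of `q (Z) = y` near to `X`. -/
theorem exists_root_near [IsAlgClosed Ω] (hk : Ctx0 k v) {q : k[X]} (hq : ¬ p ∣ q.natDegree)
    {X y : Ω} (hX0 : X ≠ 0) (hX : v X < 0) {c : ℝ} (hy : v.Ge c (y - aeval X q))
    (hc : q.natDegree * v X < c) :
    ∃ t : Ω, aeval t q = y ∧ v.Ge (c - (q.natDegree - 1) * v X) (t - X) ∧
      Gt v (v X) (t - X) := by
  classical
  have hb0 : q.natDegree ≠ 0 := by
    intro h
    rw [h] at hq
    exact hq (dvd_zero p)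
  have hq0 : q ≠ 0 := by
    rintro rfl
    exact hb0 natDegree_zero
  set Q : Polynomial Ω := q.map (algebraMap k Ω) - C y with hQ
  have hQe : ∀ b : Ω, Q.eval b = aeval b q - y := by
    intro b
    rw [hQ, eval_sub, eval_C, eval_map_algebraMap]
  have hdm : (q.map (algebraMap k Ω)).natDegree = q.natDegree := natDegree_map _
  have hQd : Q.natDegree = q.natDegree := by
    rw [hQ, natDegree_sub_C, hdm]
  have hQl : Q.leadingCoeff = algebraMap k Ω q.leadingCoeff := by
    rw [leadingCoeff, hQd, hQ, coeff_sub, coeff_C, if_neg hb0, sub_zero, coeff_map]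
    rfl
  have hQ0 : Q ≠ 0 := by
    intro h
    rw [h, natDegree_zero] at hQd
    exact hb0 hQd.symm
  have hc2 : v.Ge c (Q.eval X) := by
    rw [hQe, ← neg_sub]
    exact hy.neg
  -- a near root
  obtain ⟨t, ht, htX⟩ : ∃ t, Q.IsRoot t ∧ Gt v (v X) (t - X) := by
    by_contra hno
    push Not at hno
    have hfar : ∀ t ∈ Q.roots, X ≠ t ∧ v (X - t) ≤ v X := by
      intro t ht
      have h1 := hno t (isRoot_of_mem_roots ht)
      by_contra h2
      refine h1 fun h3 => ?_
      have h4 : X ≠ t := fun h5 => h3 (by rw [h5, sub_self])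
      have h5 : v X < v (X - t) := by
        by_contra h6
        exact h2 ⟨h4, not_lt.1 h6⟩
      rw [← neg_sub, v.map_neg] at h5
      · exact h5
      · exact h3
    have hsp : Q.Splits := IsAlgClosed.splits Q
    have hne : Q.eval X ≠ 0 := by
      intro h1
      exact (hfar X ((mem_roots hQ0).2 h1)).1 rfl
    have hval : v (Q.eval X) ≤ q.natDegree * v X := by
      have h1 := Roots.taylor_ge hQ0 (z := X) (s := v X) (fun θ hθ => hfar θ ((mem_roots hQ0).2 hθ))
        q.natDegree
      have h2 : (taylor X Q).coeff q.natDegree = algebraMap k Ω q.leadingCoeff := by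
        rw [← hQl, ← hQd]
        exact coeff_taylor_natDegree _ _
      rw [h2] at h1
      have h3 := h1 (by rw [Ne, map_eq_zero]; exact leadingCoeff_ne_zero.2 hq0)
      rw [hk.triv _ (leadingCoeff_ne_zero.2 hq0)] at h3
      linarith
    have := hc2 hne
    linarith
  have hty : aeval t q = y := by
    have : Q.eval t = 0 := ht
    rwa [hQe, sub_eq_zero] at this
  refine ⟨t, hty, ?_, htX⟩
  by_contra hno
  have hne : t - X ≠ 0 := fun h => hno (by rw [h]; exact RVal.Ge.zero)
  have h1 : v (t - X) < c - (q.natDegree - 1) * v X := by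
    by_contra h
    exact hno fun _ => not_lt.1 h
  have h2 := htX hne
  have h3 := Irr.newton (y := t) (g := X) (Q := aeval t q) (V := v X) (τ := v (t - X))
    (c := 2 * v (t - X) - v X + (q.natDegree - 1) * v X) hk hq hX0 rfl hX h2.le
    (RVal.ge_self _) (by rw [sub_self]; exact RVal.Ge.zero)
  rw [min_eq_left (by linarith), hty] at h3
  obtain ⟨hd0, hdv⟩ := val_aeval_neg hk hX0 hX (derivative_ne_zero_of hq)
  rw [natDegree_derivative_of hq, Nat.cast_sub (Nat.pos_of_ne_zero hb0), Nat.cast_one] at hdv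
  have h4 : v.Ge (c - (q.natDegree - 1) * v X) ((y - aeval X q) / aeval X (derivative q)) := by
    have h5 : v.Ge (-((q.natDegree - 1) * v X)) (aeval X (derivative q))⁻¹ := fun _ => by
      rw [v.map_inv hd0, hdv]
    rw [div_eq_mul_inv]
    exact (hy.mul h5).mono (by linarith)
  have h5 : v.Ge (min (2 * v (t - X) - v X) (c - (q.natDegree - 1) * v X)) (t - X) := by
    have e : t - X = (t - (X + (y - aeval X q) / aeval X (derivative q))) +
        (y - aeval X q) / aeval X (derivative q) := by ring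
    rw [e]
    exact RVal.Ge.add (h3.mono (by rw [← e]; exact min_le_left _ _))
      (h4.mono (by rw [← e]; exact min_le_right _ _))
  have h6 := h5 hne
  rcases le_total (2 * v (t - X) - v X) (c - (q.natDegree - 1) * v X) with h7 | h7
  · rw [min_eq_left h7] at h6
    linarith
  · rw [min_eq_right h7] at h6
    linarith

omit hp in
/-- A root of `q (Z) = a` which is near to an element of `C ^ (1 / p)`. -/
theorem root_near_mem_p [hp : Fact p.Prime] [CharP Ω p] [IsAlgClosed Ω] (hk : Ctx0 k v)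
    (hc : CompleteV v) (hC : Cld v A) {q : k[X]} (hq : ¬ p ∣ q.natDegree) {X u : Ω} (hX0 : X ≠ 0)
    (hX : v X < 0) (hu : u ^ p ∈ A) (hXu : Gt v (v X) (X - u)) (ha : aeval X q ∈ A) : X ∈ A := by
  have hA' : Cld v (adj A u) := cld_adj' p hc hC hu
  have h1 : X ∈ adj A u := root_near_mem hk hA' hq hX0 hX (D2P.mem_adj_self A u).1 hXu
    ((D2P.mem_adj_self A u).2 ha)
  have h2 : X ^ p ∈ A := TWJ.pow_mem_of_adj1 p hu X h1
  set G : Polynomial A := q.map (algebraMap k A) - C ⟨aeval X q, ha⟩ with hG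
  have hGe : aeval X G = 0 := by
    rw [hG, map_sub, aeval_C, aeval_map_algebraMap]
    exact sub_self _
  have hGd : aeval X (derivative G) ≠ 0 := by
    rw [hG, derivative_sub, derivative_C, sub_zero, derivative_map, aeval_map_algebraMap]
    exact (val_aeval_neg hk hX0 hX (derivative_ne_zero_of hq)).1
  have halg : IsAlgebraic A X := isAlgebraic_of_pow_mem p h2
  obtain ⟨Q, hQ⟩ := minpoly.dvd A X hGe
  have hsep : IsSeparable A X := by
    refine (separable_iff_derivative_ne_zero (minpoly.irreducible halg.isIntegral)).2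
      fun h3 => hGd ?_
    rw [hQ, derivative_mul, map_add, map_mul, map_mul, h3, minpoly.aeval, map_zero, zero_mul,
      zero_mul, add_zero]
  refine D2P.mem_of_conj hsep fun a' ha' => ?_
  have h3 : minpoly A X ∣ (Polynomial.X : Polynomial A) ^ p - C ⟨X ^ p, h2⟩ := by
    refine minpoly.dvd A X ?_
    rw [map_sub, map_pow, aeval_X, aeval_C]
    exact sub_self _
  obtain ⟨R, hR⟩ := h3
  have h4 : a' ^ p - X ^ p = 0 := by
    have h5 : aeval a' ((Polynomial.X : Polynomial A) ^ p - C ⟨X ^ p, h2⟩) = 0 := by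
      rw [hR, map_mul, ha', zero_mul]
    rw [map_sub, map_pow, aeval_X, aeval_C] at h5
    exact h5
  rw [← sub_pow_char] at h4
  exact sub_eq_zero.1 (pow_eq_zero_iff hp.out.ne_zero |>.1 h4)

namespace PF

variable {X T : ℕ → Ω} {y z t f s : Ω} {b j n m : ℕ} [CharP Ω p] [IsAlgClosed Ω]

/-- The root `t`. -/
theorem exists_t (h0 : Ctx0 k v) (hc : CompleteV v) (hC : Cld v C)
    (hr : ∀ n, X (n + 1) ^ p = X n) (hX : X 0 ≠ 0) (hv : v (X 0) < 0) (hXC : X 0 ∈ C) (hyC : y ∈ C)
    {q : Polynomial k} (hq : q.natDegree = b + 1) (hb : ¬ p ∣ b + 1)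
    (hy : v.Ge ((b + 1 : ℕ) * v (X 2)) (y - aeval (X 1) q)) :
    ∃ t ∈ C, aeval t q = y ∧ v.Ge ((b + 1 : ℕ) * v (X 2) - b * v (X 1)) (t - X 1) := by
  have hp1 : (1 : ℝ) < p := by exact_mod_cast hp.out.one_lt
  have hX1 : X 1 ≠ 0 := root_ne_zero hr hX 1
  have hv1 : v (X 1) = v (X 0) / p ^ 1 := val_rt hr hX 1
  have hv2 : v (X 2) = v (X 0) / p ^ 2 := val_rt hr hX 2
  have hb0 : (0 : ℝ) < (b + 1 : ℕ) := by exact_mod_cast Nat.succ_pos b
  have h1 : v (X 1) < v (X 2) := by
    rw [hv1, hv2, pow_one, div_lt_div_iff₀ (by linarith) (by positivity)]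
    have h2 : 0 < -v (X 0) * (p * (p - 1)) :=
      mul_pos (by linarith) (mul_pos (by linarith) (by linarith))
    nlinarith
  have hv1' : v (X 1) < 0 := by
    rw [hv1, pow_one]
    exact div_neg_of_neg_of_pos hv (by linarith)
  obtain ⟨t, ht, h2, h3⟩ := exists_root_near h0 (by rw [hq]; exact hb) hX1 hv1' hy (by
    rw [hq]
    exact mul_lt_mul_of_pos_left h1 hb0)
  have h4 : Gt v (v (X 1)) (X 1 - t) := by
    have := h3.neg
    rwa [neg_sub] at this
  obtain ⟨ht0, hvt⟩ := Gt.val_eq hX1 h4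
  refine ⟨t, ?_, ht, ?_⟩
  · refine root_near_mem_p (u := X 1) h0 hc hC (by rw [hq]; exact hb) ht0 (by rw [hvt]; exact hv1')
      (by rw [hr 0]; exact hXC) ?_ (by rw [ht]; exact hyC)
    rw [hvt]
    exact h3
  · refine h2.mono (le_of_eq ?_)
    rw [hq]
    push_cast
    ring

/-- The same field. -/
theorem gen_tz (h0 : Ctx0 k v) (hc : CompleteV v)
    (hr : ∀ n, X (n + 1) ^ p = X n) (hX : X 0 ≠ 0) (hv : v (X 0) < 0)
    (hC : C = cadj v (cadj v (⊥ : IntermediateField k Ω) (X 0)) y)
    {q : Polynomial k} (hq : q.natDegree = b + 1) (hb : ¬ p ∣ b + 1) (htC : t ∈ C)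
    (ht : aeval t q = y) (ht1 : v.Ge ((b + 1 : ℕ) * v (X 2) - b * v (X 1)) (t - X 1)) :
    C = cadj v (cadj v (⊥ : IntermediateField k Ω) t)
      (y ^ p - aeval (X 0) (q.map (frobenius k p))) := by
  have hp1 : (1 : ℝ) < p := by exact_mod_cast hp.out.one_lt
  have hv1 : v (X 1) = v (X 0) / p ^ 1 := val_rt hr hX 1
  have hv2 : v (X 2) = v (X 0) / p ^ 2 := val_rt hr hX 2
  have hp2 : (2 : ℝ) ≤ p := by exact_mod_cast hp.out.two_le
  have hCc : Cld v C := by
    rw [hC]
    exact cld_cadj v _ _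
  have hXC : X 0 ∈ C := by
    rw [hC]
    exact le_cadj v _ _ (self_mem_cadj v _ _)
  have hyC : y ∈ C := by
    rw [hC]
    exact self_mem_cadj v _ _
  set D := cadj v (cadj v (⊥ : IntermediateField k Ω) t)
      (y ^ p - aeval (X 0) (q.map (frobenius k p))) with hD
  have hDc : Cld v D := cld_cadj v _ _
  have htD : t ∈ D := le_cadj v _ _ (self_mem_cadj v _ _)
  have hzD : y ^ p - aeval (X 0) (q.map (frobenius k p)) ∈ D := self_mem_cadj v _ _
  have hyD : y ∈ D := by
    rw [← ht]
    exact Irr.aeval_mem' htD q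
  have hX0D : X 0 ∈ D := by
    refine root_near_mem (u := t ^ p) h0 hDc (q := q.map (frobenius k p)) ?_ hX hv
      (pow_mem htD p) ?_ ?_
    · rw [natDegree_map, hq]
      exact hb
    · have e : X 0 - t ^ p = -(t - X 1) ^ p := by
        have := hr 0
        rw [zero_add] at this
        rw [sub_pow_char, this]
        ring
      rw [e]
      refine (Gt.of_ge (ge_pow ht1 p) ?_).neg
      rw [hv1, hv2]
      push_cast
      have e2 : (p : ℝ) * ((b + 1) * (v (X 0) / p ^ 2) - b * (v (X 0) / p ^ 1)) =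
          v (X 0) * ((b + 1) / p - b) := by
        field_simp
      rw [e2]
      have h3 : ((b : ℝ) + 1) / p < b + 1 := div_lt_self (by positivity) hp1
      nlinarith
    · have e : aeval (X 0) (q.map (frobenius k p)) =
          y ^ p - (y ^ p - aeval (X 0) (q.map (frobenius k p))) := by ring
      rw [e]
      exact sub_mem (pow_mem hyD p) hzD
  refine le_antisymm ?_ ?_
  · rw [hC]
    exact TWM.cadj_le hDc (TWM.cadj_le hDc bot_le hX0D) hyD
  · exact TWM.cadj_le hCc (TWM.cadj_le hCc bot_le htC)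
      (sub_mem (pow_mem hyC p) (Irr.aeval_mem' hXC _))

end PF

end Pool.Agent.TWC
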