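import Pool.Agent.Lib.TWC.PFd2

/-!
# TANK W, class C: row PF, the expansions (part PFc)

* `exp_pow`: `(a + d) ^ i = a ^ i + G (q(a + d) - q(a)) + O(≥ 0)`, `G = i a ^ (i - 1) / q'(a)`;
* `exists_np`: an element of `cadj v ⊥ z` of value `≥ r v(z)` is a limit of polynomials in `z`
  without terms of order `< r`;
* `mul_SW`: multiplication of the letters by the polynomials in `(U m)⁻¹`.
-/

set_option autoImplicit false
set_option linter.unusedSectionVars false

open Polynomial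

namespace Pool.Agent.TWC.PF

open Pool.Agent.H15JM (RVal)
open Pool.Agent.LU1 (VPos adj)
open Pool.Agent.D2 (Ctx0)
open Pool.Agent.D2P (clI mem_clI)
open Pool.Agent.TWM

universe u

variable {k Ω : Type u} [Field k] [Field Ω] [Algebra k Ω] {v : RVal Ω}

section P

variable {p : ℕ} [hp : Fact p.Prime] [CharP k p] [CharP Ω p]

/-- The expansion of a power. -/
theorem exp_pow0 (h0 : Ctx0 k v) {a d : Ω} (ha : a ≠ 0) {g : ℝ} (hg : 0 < g) (hv : v a = -g) {b : ℕ}
    (hd : v.Ge (b * g - (b + 1) * g / p) d) {i : ℕ} (hi : i ≤ b + 1) :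
    v.Ge 0 ((a + d) ^ i - a ^ i - (i : Ω) * a ^ (i - 1) * d) := by
  have hp2 : (2 : ℝ) ≤ p := by exact_mod_cast hp.out.two_le
  have hp0 : (0 : ℝ) < p := by linarith
  have h1 : (a + d) ^ i - a ^ i - (i : Ω) * a ^ (i - 1) * d =
      ∑ j ∈ Finset.Ico 2 (i + 1), d ^ j * a ^ (i - j) * (i.choose j : ℕ) := by
    rw [add_comm a d, add_pow]
    rcases i with _ | i
    · simp
    · rw [Finset.sum_range_succ', Finset.range_eq_Ico, Finset.sum_eq_sum_Ico_succ_bot (by omega)]
      have h2 : ∑ j ∈ Finset.Ico (0 + 1) (i + 1), d ^ (j + 1) * a ^ (i + 1 - (j + 1)) *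
          ((i + 1).choose (j + 1) : ℕ) = ∑ j ∈ Finset.Ico 2 (i + 1 + 1),
          d ^ j * a ^ (i + 1 - j) * ((i + 1).choose j : ℕ) := by
        rw [Finset.sum_Ico_add' (fun j => d ^ j * a ^ (i + 1 - j) * (((i + 1).choose j : ℕ) : Ω))
          (0 + 1) (i + 1) 1]
      rw [h2]
      simp only [zero_add, pow_one, pow_zero, one_mul, Nat.choose_one_right, Nat.choose_zero_right,
        Nat.cast_one, mul_one, Nat.sub_zero, Nat.add_sub_cancel]
      ring
  rw [h1]
  refine RVal.Ge.sum _ _ fun j hj => ?_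
  obtain ⟨h2, h3⟩ := Finset.mem_Ico.1 hj
  have hc : v.Ge 0 (((i.choose j : ℕ) : Ω)) := by
    have := h0.ge ((i.choose j : ℕ) : k)
    rwa [map_natCast] at this
  refine (((ge_pow hd j).mul (ge_pow (v.ge_self a) (i - j))).mul hc).mono ?_
  rw [hv, add_zero, Nat.cast_sub (by omega)]
  have h4 : (2 : ℝ) ≤ j := by exact_mod_cast h2
  have h5 : (i : ℝ) ≤ b + 1 := by exact_mod_cast hi
  have hb0 : (0 : ℝ) ≤ b := Nat.cast_nonneg b
  have h6 : (1 : ℝ) / p ≤ 1 / 2 := one_div_le_one_div_of_le (by norm_num) hp2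
  have h7 : (b : ℝ) * g - (b + 1) * g / p = g * (b - (b + 1) * (1 / p)) := by ring
  rw [h7]
  have h8 : (0 : ℝ) ≤ j * ((b + 1) * (1 - 1 / p)) - i := by
    have h9 : (1 : ℝ) / 2 ≤ 1 - 1 / p := by linarith
    have h10 : ((b : ℝ) + 1) / 2 ≤ (b + 1) * (1 - 1 / p) := by nlinarith
    have h11 : (2 : ℝ) * ((b + 1) / 2) ≤ j * ((b + 1) * (1 - 1 / p)) := by
      apply mul_le_mul h4 h10 (by positivity) (by linarith)
    linarith
  have h12 := mul_nonneg hg.le h8
  nlinarith

/-- The expansion of a polynomial. -/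
theorem exp_pol (h0 : Ctx0 k v) {a d : Ω} (ha : a ≠ 0) {g : ℝ} (hg : 0 < g) (hv : v a = -g) {b : ℕ}
    (hd : v.Ge (b * g - (b + 1) * g / p) d) {q : Polynomial k} (hq : q.natDegree = b + 1) :
    v.Ge 0 (aeval (a + d) q - aeval a q - (derivative (q.map (algebraMap k Ω))).eval a * d) := by
  have h1 : aeval (a + d) q - aeval a q - (derivative (q.map (algebraMap k Ω))).eval a * d =
      ∑ i ∈ Finset.range (b + 2), algebraMap k Ω (q.coeff i) *
        ((a + d) ^ i - a ^ i - (i : Ω) * a ^ (i - 1) * d) := by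
    have h2 : (derivative (q.map (algebraMap k Ω))).eval a =
        ∑ i ∈ Finset.range (b + 2), algebraMap k Ω (q.coeff i) * ((i : Ω) * a ^ (i - 1)) := by
      rw [derivative_eval, Polynomial.sum_over_range' _ _ (b + 2)]
      · refine Finset.sum_congr rfl fun i _ => ?_
        rw [coeff_map]
        ring
      · have := natDegree_map_le (p := q) (f := algebraMap k Ω)
        omega
      · intro i
        simp
    rw [h2, aeval_eq_sum_range' (by omega : q.natDegree < b + 2),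
      aeval_eq_sum_range' (by omega : q.natDegree < b + 2), Finset.sum_mul,
      ← Finset.sum_sub_distrib, ← Finset.sum_sub_distrib]
    refine Finset.sum_congr rfl fun i _ => ?_
    rw [Algebra.smul_def, Algebra.smul_def]
    ring
  rw [h1]
  refine RVal.Ge.sum _ _ fun i hi => ?_
  have h2 := (h0.ge (q.coeff i)).mul (exp_pow0 h0 ha hg hv hd
    (by have := Finset.mem_range.1 hi; omega : i ≤ b + 1))
  rwa [add_zero] at h2

/-- The factor `i a ^ (i - 1) / q'(a)`. -/
noncomputable def GG (k : Type u) [Field k] [Algebra k Ω] (q : Polynomial k) (i : ℕ) (a : Ω) : Ω :=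
  (i : Ω) * a ^ (i - 1) * ((derivative (q.map (algebraMap k Ω))).eval a)⁻¹

theorem GG_mem (q : Polynomial k) (i : ℕ) (a : Ω) :
    GG k q i a ∈ cadj v (⊥ : IntermediateField k Ω) a⁻¹ := by
  have h1 : a ∈ cadj v (⊥ : IntermediateField k Ω) a⁻¹ := by
    have := inv_mem (self_mem_cadj v (⊥ : IntermediateField k Ω) a⁻¹)
    rwa [inv_inv] at this
  refine mul_mem (mul_mem (natCast_mem _ _) (pow_mem h1 _)) (inv_mem ?_)
  refine eval_mem (fun j => ?_) h1
  rw [coeff_derivative, coeff_map]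
  exact mul_mem (IntermediateField.algebraMap_mem _ _)
    (by exact_mod_cast natCast_mem (cadj v (⊥ : IntermediateField k Ω) a⁻¹) (j + 1))

theorem GG_ge (h0 : Ctx0 k v) {a : Ω} (ha : a ≠ 0) {g : ℝ} (hg : 0 < g) (hv : v a = -g) {b : ℕ}
    {q : Polynomial k} (hq : q.natDegree = b + 1) (hb : ¬ p ∣ b + 1) {i : ℕ} (hi : i ≤ b + 1) :
    v.Ge ((b + 1 - i : ℕ) * g) (GG k q i a) := by
  obtain ⟨h1, h2⟩ := deriv_val (p := p) h0 ha (by rw [hv]; linarith) hq hb
  rcases Nat.eq_zero_or_pos i with rfl | hi0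
  · rw [GG, Nat.cast_zero, zero_mul, zero_mul]
    exact RVal.Ge.zero
  have hc : v.Ge 0 ((i : ℕ) : Ω) := by
    have := h0.ge ((i : ℕ) : k)
    rwa [map_natCast] at this
  have h3 : v.Ge (b * g) ((derivative (q.map (algebraMap k Ω))).eval a)⁻¹ := by
    refine RVal.Ge.of_le ?_
    rw [v.map_inv h1, h2, hv]
    linarith
  refine ((hc.mul (ge_pow (v.ge_self a) (i - 1))).mul h3).mono ?_
  rw [hv, Nat.cast_sub hi, Nat.cast_sub (by omega : 1 ≤ i)]
  push_cast
  linarith

/-- **The expansion.** -/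
theorem exp_pow (h0 : Ctx0 k v) {a d : Ω} (ha : a ≠ 0) {g : ℝ} (hg : 0 < g) (hv : v a = -g) {b : ℕ}
    (hd : v.Ge (b * g - (b + 1) * g / p) d) {q : Polynomial k} (hq : q.natDegree = b + 1)
    (hb : ¬ p ∣ b + 1) {i : ℕ} (hi : i ≤ b + 1) :
    v.Ge 0 ((a + d) ^ i - a ^ i - GG k q i a * (aeval (a + d) q - aeval a q)) := by
  obtain ⟨h1, -⟩ := deriv_val (p := p) h0 ha (by rw [hv]; linarith) hq hb
  have h2 := exp_pow0 h0 ha hg hv hd hi
  have h3 := exp_pol h0 ha hg hv hd hq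
  have h4 := (GG_ge h0 ha hg hv hq hb hi).mul h3
  have h5 : (a + d) ^ i - a ^ i - GG k q i a * (aeval (a + d) q - aeval a q) =
      ((a + d) ^ i - a ^ i - (i : Ω) * a ^ (i - 1) * d) - GG k q i a *
        (aeval (a + d) q - aeval a q - (derivative (q.map (algebraMap k Ω))).eval a * d) := by
    rw [GG]
    field_simp
    ring
  rw [h5]
  refine h2.sub (h4.mono ?_)
  have : (0 : ℝ) ≤ ((b + 1 - i : ℕ) : ℝ) * g := by positivity
  linarith

/-- Approximation by polynomials in `z`. -/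
theorem exists_np (h0 : Ctx0 k v) {z : Ω} (hz : z ≠ 0) (hz0 : 0 < v z) {G : Ω}
    (hG : G ∈ cadj v (⊥ : IntermediateField k Ω) z) {r : ℕ} (h : v.Ge (r * v z) G) (c : ℝ) :
    ∃ P : Polynomial k, (∀ j, P.coeff j ≠ 0 → r ≤ j) ∧ v.Ge c (G - aeval z P) := by
  classical
  obtain ⟨F, a, h1⟩ := exists_lau h0 hz hz0 hG (max c (r * v z))
  obtain ⟨f, hf⟩ := lau_eq_lf z F a
  rw [hf] at h1
  have h2 : v.Ge (r * v z) (lf z f) := by
    have := h.sub (h1.mono (le_max_right _ _))
    rwa [sub_sub_cancel] at this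
  have h3 : ∀ j, f j ≠ 0 → (r : ℤ) ≤ j := by
    intro j hj
    have h4 := le_of_lf_ge h0 hz hz0 h2 hj
    have h5 := le_of_mul_le_mul_right h4 hz0
    exact_mod_cast h5
  refine ⟨∑ j ∈ f.support, Polynomial.monomial j.toNat (f j), fun j hj => ?_, ?_⟩
  · rw [finsetSum_coeff] at hj
    obtain ⟨i, hi, hi'⟩ := Finset.exists_ne_zero_of_sum_ne_zero hj
    rw [coeff_monomial] at hi'
    split_ifs at hi' with h4
    · have := h3 i (Finsupp.mem_support_iff.1 hi)
      omega
    · exact absurd rfl hi'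
  · have h4 : aeval z (∑ j ∈ f.support, Polynomial.monomial j.toNat (f j)) = lf z f := by
      rw [map_sum, lf, Finsupp.sum]
      refine Finset.sum_congr rfl fun j hj => ?_
      have h5 := h3 j (Finsupp.mem_support_iff.1 hj)
      rw [aeval_monomial, ← zpow_natCast, Int.toNat_of_nonneg (by omega)]
    rw [h4]
    exact h1.mono (le_max_left _ _)

/-- Multiplication of the letters. -/
theorem mul_SW (h0 : Ctx0 k v) {U : ℕ → Ω} (hr : ∀ n, U (n + 1) ^ p = U n) (hU : U 0 ≠ 0)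
    (hv : v (U 0) < 0) {B B' r m : ℕ} (hB : B ≤ B' + r) {P : Polynomial k}
    (hP : ∀ j, P.coeff j ≠ 0 → r ≤ j) {w : Ω} (hw : w ∈ SW k U B (m + 1)) :
    ∃ s ∈ SW k U B' (m + 1), v.Ge 0 (aeval (U m)⁻¹ P * w - s) := by
  classical
  have hp0 : (0 : ℝ) < p := by exact_mod_cast hp.out.pos
  have hUn := root_ne_zero hr hU
  have hvU : ∀ n, v (U n) < 0 := fun n => by
    rw [val_rt hr hU]
    exact div_neg_of_neg_of_pos hv (pow_pos hp0 n)
  induction hw using Submodule.span_induction with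
  | mem w hw =>
    obtain ⟨n, i, hn, hi, rfl⟩ := hw
    obtain ⟨e, he⟩ : ∃ e, n = m + (e + 1) := ⟨n - m - 1, by omega⟩
    have hUm : U n ^ p ^ (e + 1) = U m := by
      rw [he]
      exact root_pow_add hr m (e + 1)
    set Q := p ^ (e + 1) with hQ
    have hQ1 : 1 ≤ Q := Nat.one_le_pow _ _ hp.out.pos
    have hmon : ∀ j, r ≤ j → ∃ s ∈ SW k U B' (m + 1), v.Ge 0 ((U m)⁻¹ ^ j * U n ^ i - s) := by
      intro j hj
      rcases le_or_gt (j * Q) i with h1 | h1
      · refine ⟨U n ^ (i - j * Q), Submodule.subset_span ⟨n, _, hn, ?_, rfl⟩, ?_⟩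
        · have : j ≤ j * Q := Nat.le_mul_of_pos_right _ hQ1
          omega
        · have h2 : (U m)⁻¹ ^ j * U n ^ i = U n ^ (i - j * Q) := by
            rw [← hUm, inv_pow, ← pow_mul, mul_comm Q j, pow_sub₀ _ (hUn n) h1]
            ring
          rw [h2, sub_self]
          exact RVal.Ge.zero
      · refine ⟨0, zero_mem _, ?_⟩
        rw [sub_zero]
        refine RVal.Ge.of_le ?_
        rw [v.map_mul (pow_ne_zero _ (inv_ne_zero (hUn m))) (pow_ne_zero _ (hUn n)),
          v.map_pow (inv_ne_zero (hUn m)), v.map_inv (hUn m), v.map_pow (hUn n), ← hUm,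
          v.map_pow (hUn n)]
        have h2 : (i : ℝ) < j * Q := by exact_mod_cast h1
        nlinarith [hvU n]
    choose! s hs hs' using hmon
    refine ⟨∑ j ∈ P.support, P.coeff j • s j, sum_mem fun j hj => Submodule.smul_mem _ _
      (hs j (hP j (mem_support_iff.1 hj))), ?_⟩
    have h1 : aeval (U m)⁻¹ P * U n ^ i - ∑ j ∈ P.support, P.coeff j • s j =
        ∑ j ∈ P.support, algebraMap k Ω (P.coeff j) * ((U m)⁻¹ ^ j * U n ^ i - s j) := by
      rw [aeval_def, eval₂_eq_sum, Polynomial.sum, Finset.sum_mul, ← Finset.sum_sub_distrib]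
      refine Finset.sum_congr rfl fun j _ => ?_
      rw [Algebra.smul_def]
      ring
    rw [h1]
    refine RVal.Ge.sum _ _ fun j hj => ?_
    have h2 := (h0.ge (P.coeff j)).mul (hs' j (hP j (mem_support_iff.1 hj)))
    rwa [add_zero] at h2
  | zero =>
    refine ⟨0, zero_mem _, ?_⟩
    rw [mul_zero, sub_zero]
    exact RVal.Ge.zero
  | add w w' _ _ h1 h2 =>
    obtain ⟨s, hs, hs'⟩ := h1
    obtain ⟨t, ht, ht'⟩ := h2
    refine ⟨s + t, add_mem hs ht, ?_⟩
    rw [mul_add, add_sub_add_comm]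
    exact hs'.add ht'
  | smul a w _ h1 =>
    obtain ⟨s, hs, hs'⟩ := h1
    refine ⟨a • s, Submodule.smul_mem _ _ hs, ?_⟩
    rw [Algebra.smul_def, Algebra.smul_def, mul_left_comm, ← mul_sub]
    have := (h0.ge a).mul hs'
    rwa [add_zero] at this

end P

end Pool.Agent.TWC.PF
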