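import Pool.Agent.Lib.TWC.PFa
import Pool.Agent.Lib.TWC.PFc0

/-!
# TANK W, class C: row PF, the letters (part PFc)

`T` the roots of `t`, `q(t) = y`, `t` near `X 1`.
* `T_pow_lt`, `T_pow_top`: the letters of `T n ^ i`;
* `InS_T`: the positions;
* `z_letters`: the letters of `z = y ^ p - q ^ (p) (X 0)` in `T`.
-/

set_option autoImplicit false
set_option linter.unusedSectionVars false

open Polynomial

namespace Pool.Agent.TWC.PF

open Pool.Agent.H15JM (RVal)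
open Pool.Agent.LU1 (VPos adj)
open Pool.Agent.D2 (Ctx0)
open Pool.Agent.D2P (clI mem_clI)
open Pool.Agent.TWM

universe u

variable {k Ω : Type u} [Field k] [Field Ω] [Algebra k Ω] {v : RVal Ω}
  {p : ℕ} [hp : Fact p.Prime] [CharP k p] [CharP Ω p] [PerfectRing k p] [IsAlgClosed Ω]
  {X T : ℕ → Ω} {y : Ω} {b : ℕ}

/-- Multiplication by an element of `cadj v ⊥ (U m)⁻¹`. -/
theorem mul_Lm (h0 : Ctx0 k v) {U : ℕ → Ω} (hr : ∀ n, U (n + 1) ^ p = U n) (hU : U 0 ≠ 0)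
    (hv : v (U 0) < 0) {B B' r m : ℕ} (hB : B ≤ B' + r) {G w : Ω}
    (hG : G ∈ cadj v (⊥ : IntermediateField k Ω) (U m)⁻¹) (hGr : v.Ge (r * v (U m)⁻¹) G)
    {τ : ℝ} (hτ : 0 ≤ τ) (hw : ∃ s ∈ SW k U B (m + 1), v.Ge (-τ) (w - s)) :
    ∃ s ∈ SW k U B' (m + 1), v.Ge (-τ) (G * w - s) := by
  obtain ⟨s, hs, h1⟩ := hw
  have hUm := root_ne_zero hr hU m
  have hp0 : (0 : ℝ) < p := by exact_mod_cast hp.out.pos
  have hvm : 0 < v (U m)⁻¹ := by
    rw [v.map_inv hUm, val_rt hr hU]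
    have := div_neg_of_neg_of_pos hv (pow_pos hp0 m)
    linarith
  obtain ⟨P, hP, hP'⟩ := exists_np h0 (inv_ne_zero hUm) hvm hG hGr (-v s)
  obtain ⟨s', hs', h2⟩ := mul_SW h0 hr hU hv hB hP hs
  refine ⟨s', hs', ?_⟩
  have h3 : G * w - s' = G * (w - s) + (G - aeval (U m)⁻¹ P) * s +
      (aeval (U m)⁻¹ P * s - s') := by ring
  rw [h3]
  have hG0 : v.Ge 0 G := hGr.mono (by positivity)
  refine ((hG0.mul h1).mono (by linarith)).add ?_ |>.add (h2.mono (by linarith))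
  refine (hP'.mul (v.ge_self s)).mono (by linarith)

/-- The roots of an element of `cadj v ⊥ z`. -/
theorem root_cadj {z w : Ω} (h : w ^ p ∈ cadj v (⊥ : IntermediateField k Ω) (z ^ p)) :
    w ∈ cadj v (⊥ : IntermediateField k Ω) z := by
  have h1 : w ∈ D2P.rootF p 1 (cadj v (⊥ : IntermediateField k Ω) (z ^ p)) := (mem_rootF1 p).2 h
  rw [rootF_cadj] at h1
  have h2 : D2P.rootF p 1 (⊥ : IntermediateField k Ω) ≤ ⊥ := by
    intro a ha
    obtain ⟨c, hc⟩ := IntermediateField.mem_bot.1 ((mem_rootF1 p).1 ha)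
    obtain ⟨c', hc'⟩ := (PerfectRing.bijective_frobenius (R := k) (p := p)).2 c
    have h3 : c' ^ p = c := hc'
    have h4 : a = algebraMap k Ω c' := frobenius_inj Ω p (by
      rw [frobenius_def, frobenius_def, ← map_pow, h3, hc])
    rw [h4]
    exact IntermediateField.algebraMap_mem _ _
  exact TWM.cadj_le (cld_cadj v _ _) (h2.trans bot_le) (self_mem_cadj v _ z) h1

theorem roots_cadj (hT : ∀ n, T (n + 1) ^ p = T n) (m : ℕ) : ∀ G : Ω,
    G ^ p ^ m ∈ cadj v (⊥ : IntermediateField k Ω) (T 0)⁻¹ →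
    G ∈ cadj v (⊥ : IntermediateField k Ω) (T m)⁻¹ := by
  induction m with
  | zero =>
    intro G hG
    rwa [pow_zero, pow_one] at hG
  | succ m ih =>
    intro G hG
    refine root_cadj (p := p) ?_
    rw [inv_pow, hT]
    refine ih _ ?_
    rwa [← pow_mul, ← pow_succ']

/-- The data of the change of coordinates. -/
structure CC (p : ℕ) (v : RVal Ω) (X T : ℕ → Ω) (y : Ω) (b : ℕ) (q : Polynomial k) : Prop where
  rX : ∀ n, X (n + 1) ^ p = X n
  X0 : X 0 ≠ 0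
  vX : v (X 0) < 0
  rT : ∀ n, T (n + 1) ^ p = T n
  hq : q.natDegree = b + 1
  hb : ¬ p ∣ b + 1
  ht : aeval (T 0) q = y
  near : v.Ge ((b + 1 : ℕ) * v (X 2) - b * v (X 1)) (T 0 - X 1)
  hy : Lm v (SW k X (b + 1) 2) (y - aeval (X 1) q)

namespace CC

variable {q : Polynomial k}

theorem X1 (h : CC p v X T y b q) : X 1 ≠ 0 ∧ v (X 1) = -(-v (X 0) / p) ∧
    v (X 2) = -(-v (X 0) / p / p) ∧ 0 < -v (X 0) / p := by
  have hp0 : (0 : ℝ) < p := by exact_mod_cast hp.out.pos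
  refine ⟨root_ne_zero h.rX h.X0 1, ?_, ?_, ?_⟩
  · rw [val_rt h.rX h.X0 1]
    ring
  · rw [val_rt h.rX h.X0 2]
    field_simp
  · exact div_pos (by linarith [h.vX]) hp0

/-- The bound of the distance of `T 0` to `X 1`. -/
theorem near' (h : CC p v X T y b q) :
    v.Ge (b * (-v (X 0) / p) - (b + 1) * (-v (X 0) / p) / p) (T 0 - X 1) := by
  obtain ⟨h1, h2, h3, h4⟩ := h.X1
  refine h.near.mono (le_of_eq ?_)
  rw [h2, h3]
  push_cast
  ring

theorem T0 (h : CC p v X T y b q) : T 0 ≠ 0 ∧ v (T 0) = -(-v (X 0) / p) := by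
  obtain ⟨h1, h2, h3, h4⟩ := h.X1
  have hp1 : (1 : ℝ) < p := by exact_mod_cast hp.out.one_lt
  have hp0 : (0 : ℝ) < p := by linarith
  have h5 : Gt v (v (X 1)) (X 1 - T 0) := by
    refine Gt.sub_comm' (Gt.of_ge h.near' ?_)
    rw [h2]
    have h6 : ((b : ℝ) + 1) * (-v (X 0) / p) / p < (b + 1) * (-v (X 0) / p) := by
      rw [div_lt_iff₀ hp0]
      have : 0 < ((b : ℝ) + 1) * (-v (X 0) / p) := by positivity
      nlinarith
    linarith
  have h6 := Gt.val_eq h1 h5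
  exact ⟨h6.1, by rw [h6.2, h2]⟩

/-- The expansion of `T 0 ^ i`. -/
theorem expT (h0 : Ctx0 k v) (h : CC p v X T y b q) {i : ℕ} (hi : i ≤ b + 1) :
    v.Ge 0 (T 0 ^ i - X 1 ^ i - GG k q i (X 1) * (y - aeval (X 1) q)) := by
  obtain ⟨h1, h2, h3, h4⟩ := h.X1
  have h5 := exp_pow h0 h1 h4 h2 h.near' h.hq h.hb hi
  rwa [add_sub_cancel, h.ht] at h5

/-- The expansion of `X 1 ^ i`. -/
theorem expX (h0 : Ctx0 k v) (h : CC p v X T y b q) {i : ℕ} (hi : i ≤ b + 1) :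
    v.Ge 0 (X 1 ^ i - T 0 ^ i + GG k q i (T 0) * (y - aeval (X 1) q)) := by
  obtain ⟨h1, h2, h3, h4⟩ := h.X1
  obtain ⟨h6, h7⟩ := h.T0
  have h8 : v.Ge (b * (-v (X 0) / p) - (b + 1) * (-v (X 0) / p) / p) (X 1 - T 0) := by
    have := h.near'.neg
    rwa [neg_sub] at this
  have h5 := exp_pow h0 h6 h4 h7 h8 h.hq h.hb hi
  rw [add_sub_cancel, h.ht] at h5
  have e : X 1 ^ i - T 0 ^ i + GG k q i (T 0) * (y - aeval (X 1) q) =
      X 1 ^ i - T 0 ^ i - GG k q i (T 0) * (aeval (X 1) q - y) := by ring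
  rw [e]
  exact h5

/-- The letters of `T 0 ^ i`. -/
theorem T0_letters (h0 : Ctx0 k v) (h : CC p v X T y b q) {i B' r : ℕ} (hi : i ≤ b + 1)
    (hr : i + r ≤ b + 1) (hB : b + 1 ≤ B' + r) :
    Lm v (SW k X B' 2) (T 0 ^ i - X 1 ^ i) := by
  obtain ⟨h1, h2, h3, h4⟩ := h.X1
  have hG : v.Ge (r * v (X 1)⁻¹) (GG k q i (X 1)) := by
    refine (GG_ge (p := p) h0 h1 h4 h2 h.hq h.hb hi).mono ?_
    rw [v.map_inv h1, h2, neg_neg]
    have h7 : (r : ℝ) ≤ ((b + 1 - i : ℕ) : ℝ) := by exact_mod_cast (by omega : r ≤ b + 1 - i)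
    exact mul_le_mul_of_nonneg_right h7 h4.le
  intro ε hε
  obtain ⟨s, hs, h5⟩ := mul_Lm (m := 1) h0 h.rX h.X0 h.vX hB (GG_mem (v := v) q i (X 1))
    hG hε.le (h.hy ε hε)
  refine ⟨s, hs, ?_⟩
  have h6 := ((h.expT h0 hi).mono (by linarith : -ε ≤ 0)).add h5
  have e : T 0 ^ i - X 1 ^ i - s = T 0 ^ i - X 1 ^ i - GG k q i (X 1) * (y - aeval (X 1) q) +
      (GG k q i (X 1) * (y - aeval (X 1) q) - s) := by ring
  rw [e]
  exact h6

theorem T_letters (h0 : Ctx0 k v) (h : CC p v X T y b q) {i B' r : ℕ} (hi : i ≤ b + 1)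
    (hr : i + r ≤ b + 1) (hB : b + 1 ≤ B' + r) (n : ℕ) :
    Lm v (SW k X B' (n + 2)) (T n ^ i - X (n + 1) ^ i) := by
  induction n with
  | zero => exact h.T0_letters h0 hi hr hB
  | succ n ih =>
    refine Lm.root (S := SW k X B' (n + 2)) (p := p) (fun s hs => ?_) ?_
    · obtain ⟨r, hr1, hr2⟩ := SW_root h.rX hs
      exact ⟨r, by rw [show n + 1 + 2 = n + 2 + 1 by omega]; exact hr1, hr2⟩
    · rw [sub_pow_char, ← pow_mul, ← pow_mul, mul_comm i p, pow_mul, pow_mul, h.rT, h.rX]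
      exact ih

/-- The positions. -/
theorem inS (h0 : Ctx0 k v) (h : CC p v X T y b q) {C : IntermediateField k Ω} {n : ℕ}
    (hn : InS p v C T b n) : InS p v C X b (n + 1) := by
  obtain ⟨f, hf, hL⟩ := hn
  refine ⟨f, hf, ?_⟩
  have hlow : ∀ m l i : ℕ, i ≤ b → Lm v (SA k p X b) (T m ^ (i * p ^ l)) := by
    intro m l i hi
    have h1 : Lm v (SA k p X b) (T m ^ i) := by
      have h2 := (h.T_letters h0 (i := i) (B' := b) (r := 1) (by omega) (by omega) (by omega) m).mono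
        (SW_le_SA (p := p))
      have h3 : Lm v (SA k p X b) (X (m + 1) ^ i) :=
        Lm.of_mem (SW_le_SA (p := p) (j := 0) (Submodule.subset_span ⟨m + 1, i, by omega, hi, rfl⟩))
      have := h2.add h3
      rwa [sub_add_cancel] at this
    induction l with
    | zero => rw [pow_zero, mul_one]; exact h1
    | succ l ih =>
      rw [pow_succ, ← mul_assoc, pow_mul]
      exact Lm.pow (fun s hs => SA_pow hs) ih
  have htop : ∀ m, n + 1 ≤ m → ∀ i ≤ b + 1,
      Lm v (SW k X (b + 1) (n + 1 + 1) ⊔ SA k p X b) (T m ^ i) := by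
    intro m hm i hi
    have h2 := (h.T_letters h0 (i := i) (B' := b + 1) (r := 0) hi (by omega) (by omega) m).mono
      ((SW_mono le_rfl (by omega : n + 1 + 1 ≤ m + 2)).trans
        (le_sup_left : SW k X (b + 1) (n + 1 + 1) ≤ _ ⊔ SA k p X b))
    have h3 : Lm v (SW k X (b + 1) (n + 1 + 1) ⊔ SA k p X b) (X (m + 1) ^ i) :=
      Lm.of_mem ((le_sup_left : SW k X (b + 1) (n + 1 + 1) ≤ _ ⊔ SA k p X b)
        (Submodule.subset_span ⟨m + 1, i, by omega, hi, rfl⟩))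
    have := h2.add h3
    rwa [sub_add_cancel] at this
  have h1 : Lm v (SW k X (b + 1) (n + 1 + 1) ⊔ SA k p X b) (f - T n ^ (b + 1)) := by
    refine hL.trans fun s hs => ?_
    obtain ⟨s₁, hs₁, s₂, hs₂, rfl⟩ := Submodule.mem_sup.1 hs
    refine Lm.add (Lm.span h0 ?_ hs₁) (Lm.span h0 ?_ hs₂)
    · rintro _ ⟨m, i, hm, hi, rfl⟩
      exact htop m hm i hi
    · rintro _ ⟨m, l, i, hi, rfl⟩
      exact (hlow m l i hi).mono le_sup_right
  have h2 : Lm v (SW k X (b + 1) (n + 1 + 1) ⊔ SA k p X b) (T n ^ (b + 1) - X (n + 1) ^ (b + 1)) :=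
    (h.T_letters h0 (i := b + 1) (B' := b + 1) (r := 0) le_rfl (by omega) (by omega) n).mono
      (by rw [show n + 1 + 1 = n + 2 by omega]; exact le_sup_left)
  have := h1.add h2
  rwa [sub_add_sub_cancel] at this

/-- Near to the span of the letters of `T`, as a submodule. -/
def NS (v : RVal Ω) (k : Type u) [Field k] [Algebra k Ω] (h0 : Ctx0 k v) (T : ℕ → Ω)
    (B : ℕ) (τ : ℝ) : Submodule k Ω where
  carrier := {f | ∃ s ∈ SW k T B 0, v.Ge (-τ) (f - s)}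
  add_mem' := by
    rintro f g ⟨s, hs, h1⟩ ⟨t, ht, h2⟩
    refine ⟨s + t, add_mem hs ht, ?_⟩
    rw [add_sub_add_comm]
    exact h1.add h2
  zero_mem' := ⟨0, zero_mem _, by rw [sub_zero]; exact RVal.Ge.zero⟩
  smul_mem' := by
    rintro a f ⟨s, hs, h1⟩
    refine ⟨a • s, Submodule.smul_mem _ _ hs, ?_⟩
    rw [← smul_sub, Algebra.smul_def]
    have := (h0.ge a).mul h1
    rwa [zero_add] at this

/-- One step of the contraction. -/
theorem contr (h0 : Ctx0 k v) (h : CC p v X T y b q) {τ ε : ℝ} (hτ : 0 ≤ τ) (hε : 0 < ε)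
    (hz : ∃ s ∈ SW k T (b + 1) 0, v.Ge (-τ) ((y - aeval (X 1) q) ^ p - s)) :
    ∃ s ∈ SW k T (b + 1) 0, v.Ge (-max ε (τ / p)) ((y - aeval (X 1) q) ^ p - s) := by
  have hp0 : (0 : ℝ) < p := by exact_mod_cast hp.out.pos
  have hp1 : (1 : ℝ) ≤ p := by exact_mod_cast hp.out.one_lt.le
  set w := y - aeval (X 1) q with hw
  obtain ⟨Z, hZ0, hZr⟩ := exists_rts p w
  obtain ⟨h6, h7⟩ := h.T0
  obtain ⟨h1, h2, h3, h4⟩ := h.X1
  have hT0 : v (T 0) < 0 := by rw [h7]; linarith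
  -- the roots of `w`
  have hZ : ∀ m, ∃ s ∈ SW k T (b + 1) (m + 1), v.Ge (-(τ / p)) (Z m - s) := by
    intro m
    have h8 : ∀ m, ∃ s ∈ SW k T (b + 1) (m + 1), v.Ge (-(τ / p ^ (m + 1))) (Z m - s) := by
      intro m
      induction m with
      | zero =>
        obtain ⟨s, hs, h9⟩ := hz
        obtain ⟨r, hr1, rfl⟩ := SW_root h.rT hs
        refine ⟨r, hr1, ?_⟩
        rw [← sub_pow_char] at h9
        refine ge_of_pow (p := p) ?_
        rw [hZ0]
        refine h9.mono (le_of_eq ?_)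
        rw [zero_add, pow_one]
        field_simp
      | succ m ih =>
        obtain ⟨s, hs, h9⟩ := ih
        obtain ⟨r, hr1, rfl⟩ := SW_root h.rT hs
        refine ⟨r, hr1, ?_⟩
        rw [← hZr m, ← sub_pow_char] at h9
        refine ge_of_pow (p := p) (h9.mono (le_of_eq ?_))
        rw [pow_succ _ (m + 1)]
        field_simp
    obtain ⟨s, hs, h9⟩ := h8 m
    refine ⟨s, hs, h9.mono (neg_le_neg ?_)⟩
    refine div_le_div_of_nonneg_left hτ hp0 ?_
    rw [pow_succ]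
    have : (1 : ℝ) ≤ (p : ℝ) ^ m := one_le_pow₀ hp1
    nlinarith
  -- the letters
  have hX : ∀ m i : ℕ, i ≤ b + 1 → X (m + 1) ^ i ∈ NS v k h0 T (b + 1) (max ε (τ / p)) := by
    intro m i hi
    have h8 := h.expX h0 hi
    -- the root of the factor
    obtain ⟨G, hG⟩ : ∃ G : Ω, G ^ p ^ m = GG k q i (T 0) :=
      IsAlgClosed.exists_pow_nat_eq _ (pow_pos hp.out.pos m)
    have hGm : G ∈ cadj v (⊥ : IntermediateField k Ω) (T m)⁻¹ :=
      roots_cadj h.rT m G (by rw [hG]; exact GG_mem q i (T 0))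
    have hG0 : v.Ge ((0 : ℕ) * v (T m)⁻¹) G := by
      rw [Nat.cast_zero, zero_mul]
      have h9 : v.Ge 0 (G ^ p ^ m) := by
        rw [hG]
        exact (GG_ge (p := p) h0 h6 h4 h7 h.hq h.hb hi).mono (by positivity)
      intro hne
      have h10 := h9 (pow_ne_zero _ hne)
      rw [v.map_pow hne] at h10
      have h11 : (0 : ℝ) < ((p ^ m : ℕ) : ℝ) := by exact_mod_cast pow_pos hp.out.pos m
      by_contra h12
      have := mul_neg_of_pos_of_neg h11 (not_le.1 h12)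
      linarith
    have h9 : v.Ge 0 (X (m + 1) ^ i - T m ^ i + G * Z m) := by
      have e : (X (m + 1) ^ i - T m ^ i + G * Z m) ^ p ^ m = X 1 ^ i - T 0 ^ i +
          GG k q i (T 0) * w := by
        have e1 : X (m + 1) ^ p ^ m = X 1 := by
          rw [add_comm m 1]
          exact root_pow_add h.rX 1 m
        have e2 : T m ^ p ^ m = T 0 := by
          have := root_pow_add h.rT 0 m
          rwa [zero_add] at this
        have e3 : Z m ^ p ^ m = w := by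
          have := root_pow_add hZr 0 m
          rwa [zero_add, hZ0] at this
        rw [add_pow_char_pow, sub_pow_char_pow, mul_pow, hG, e3, ← pow_mul, ← pow_mul,
          mul_comm i, pow_mul, pow_mul, e1, e2]
      rw [← e] at h8
      intro hne
      have h10 := h8 (pow_ne_zero _ hne)
      rw [v.map_pow hne] at h10
      have h11 : (0 : ℝ) < ((p ^ m : ℕ) : ℝ) := by exact_mod_cast pow_pos hp.out.pos m
      by_contra h12
      have := mul_neg_of_pos_of_neg h11 (not_le.1 h12)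
      linarith
    obtain ⟨s, hs, h10⟩ := mul_Lm (m := m) (B := b + 1) (B' := b + 1) (r := 0) h0 h.rT h6 hT0
      (by omega) hGm hG0 (by positivity : 0 ≤ τ / p) (hZ m)
    refine ⟨T m ^ i - s, sub_mem (Submodule.subset_span ⟨m, i, Nat.zero_le _, hi, rfl⟩)
      (Submodule.span_mono ?_ hs), ?_⟩
    · rintro _ ⟨n, i, -, hi, rfl⟩
      exact ⟨n, i, Nat.zero_le _, hi, rfl⟩
    · have e : X (m + 1) ^ i - (T m ^ i - s) = (X (m + 1) ^ i - T m ^ i + G * Z m) -
          (G * Z m - s) := by ring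
      rw [e]
      have h12 : (0 : ℝ) ≤ max ε (τ / p) := hε.le.trans (le_max_left _ _)
      refine (h9.mono (by linarith)).sub (h10.mono (neg_le_neg (le_max_right _ _)))
  -- the sum
  have hwp : Lm v (SW k X (b + 1) 1) (w ^ p) := Lm.pow (fun s hs => SW_pow h.rX hs) h.hy
  obtain ⟨s, hs, h8⟩ := hwp ε hε
  have h9 : s ∈ NS v k h0 T (b + 1) (max ε (τ / p)) := by
    refine Submodule.span_le.2 ?_ hs
    rintro _ ⟨n, i, hn, hi, rfl⟩
    have := hX (n - 1) i hi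
    rwa [Nat.sub_add_cancel hn] at this
  obtain ⟨s', hs', h10⟩ := h9
  refine ⟨s', hs', ?_⟩
  have := (h8.mono (neg_le_neg (le_max_left ε (τ / p)))).add h10
  rwa [sub_add_sub_cancel] at this

/-- **The letters of `z`.** -/
theorem z_lt (h0 : Ctx0 k v) (h : CC p v X T y b q) :
    Lm v (SW k T (b + 1) 0) ((y - aeval (X 1) q) ^ p) := by
  have hp0 : (0 : ℝ) < p := by exact_mod_cast hp.out.pos
  have hp1 : (1 : ℝ) < p := by exact_mod_cast hp.out.one_lt
  intro ε hε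
  set w := (y - aeval (X 1) q) ^ p with hw
  have h1 : ∀ n : ℕ, ∃ s ∈ SW k T (b + 1) 0, v.Ge (-max ε (|v w| / p ^ n)) (w - s) := by
    intro n
    induction n with
    | zero =>
      refine ⟨0, zero_mem _, ?_⟩
      rw [sub_zero, pow_zero, div_one]
      refine RVal.Ge.of_le ?_
      have h2 := le_max_right ε |v w|
      have h3 := neg_abs_le (v w)
      linarith
    | succ n ih =>
      obtain ⟨s, hs, h2⟩ := h.contr h0 (hε.le.trans (le_max_left _ _)) hε ih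
      refine ⟨s, hs, h2.mono (neg_le_neg ?_)⟩
      refine max_le (le_max_left _ _) ?_
      rw [div_le_iff₀ hp0]
      refine max_le ?_ ?_
      · have h3 := le_max_left ε (|v w| / (p : ℝ) ^ (n + 1))
        nlinarith
      · have h3 := le_max_right ε (|v w| / (p : ℝ) ^ (n + 1))
        have h4 : |v w| / (p : ℝ) ^ n = |v w| / (p : ℝ) ^ (n + 1) * p := by
          rw [pow_succ]
          field_simp
        rw [h4]
        exact mul_le_mul_of_nonneg_right h3 hp0.le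
  obtain ⟨n, hn⟩ := pow_unbounded_of_one_lt (|v w| / ε) hp1
  obtain ⟨s, hs, h2⟩ := h1 n
  refine ⟨s, hs, h2.mono (neg_le_neg (max_le le_rfl ?_))⟩
  rw [div_lt_iff₀ hε] at hn
  rw [div_le_iff₀ (pow_pos hp0 n)]
  linarith

end CC

/-! ### The statements -/

theorem T_pow_lt (h0 : Ctx0 k v) (hr : ∀ n, X (n + 1) ^ p = X n) (hX : X 0 ≠ 0) (hv : v (X 0) < 0)
    (hT : ∀ n, T (n + 1) ^ p = T n) {q : Polynomial k} (hq : q.natDegree = b + 1)
    (hb : ¬ p ∣ b + 1) (ht : aeval (T 0) q = y)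
    (ht1 : v.Ge ((b + 1 : ℕ) * v (X 2) - b * v (X 1)) (T 0 - X 1))
    (hy : Lm v (SW k X (b + 1) 2) (y - aeval (X 1) q)) (n i : ℕ) (hi : i ≤ b) :
    Lm v (SW k X b (n + 2)) (T n ^ i - X (n + 1) ^ i) :=
  (CC.mk hr hX hv hT hq hb ht ht1 hy).T_letters h0 (r := 1) (by omega) (by omega) (by omega) n

theorem T_pow_top (h0 : Ctx0 k v) (hr : ∀ n, X (n + 1) ^ p = X n) (hX : X 0 ≠ 0) (hv : v (X 0) < 0)
    (hT : ∀ n, T (n + 1) ^ p = T n) {q : Polynomial k} (hq : q.natDegree = b + 1)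
    (hb : ¬ p ∣ b + 1) (ht : aeval (T 0) q = y)
    (ht1 : v.Ge ((b + 1 : ℕ) * v (X 2) - b * v (X 1)) (T 0 - X 1))
    (hy : Lm v (SW k X (b + 1) 2) (y - aeval (X 1) q)) (n : ℕ) :
    Lm v (SW k X (b + 1) (n + 2)) (T n ^ (b + 1) - X (n + 1) ^ (b + 1)) :=
  (CC.mk hr hX hv hT hq hb ht ht1 hy).T_letters h0 (r := 0) le_rfl (by omega) (by omega) n

/-- The set of positions. -/
theorem InS_T (h0 : Ctx0 k v) (hr : ∀ n, X (n + 1) ^ p = X n) (hX : X 0 ≠ 0) (hv : v (X 0) < 0)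
    (hT : ∀ n, T (n + 1) ^ p = T n) {q : Polynomial k} (hq : q.natDegree = b + 1)
    (hb : ¬ p ∣ b + 1) (ht : aeval (T 0) q = y)
    (ht1 : v.Ge ((b + 1 : ℕ) * v (X 2) - b * v (X 1)) (T 0 - X 1))
    (hy : Lm v (SW k X (b + 1) 2) (y - aeval (X 1) q)) {C : IntermediateField k Ω} {n : ℕ}
    (h : InS p v C T b n) : InS p v C X b (n + 1) :=
  (CC.mk hr hX hv hT hq hb ht ht1 hy).inS h0 h

/-- `y ^ p - q ^ (p) (X 0)` is the `p`-th power of `y - q(X 1)`. -/
theorem z_eq (hr : ∀ n, X (n + 1) ^ p = X n) (q : Polynomial k) (y : Ω) :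
    y ^ p - aeval (X 0) (q.map (frobenius k p)) = (y - aeval (X 1) q) ^ p := by
  have h1 : aeval (X 0) (q.map (frobenius k p)) = (aeval (X 1) q) ^ p := by
    rw [← hr 0, zero_add]
    induction q using Polynomial.induction_on' with
    | add q q' h1 h2 => rw [Polynomial.map_add, map_add, map_add, h1, h2, add_pow_char]
    | monomial n a =>
      rw [map_monomial, aeval_monomial, aeval_monomial, mul_pow, frobenius_def, map_pow, ← pow_mul,
        ← pow_mul, mul_comm n]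
  rw [h1, sub_pow_char]

/-- **The letters of `z`.** -/
theorem z_letters (h0 : Ctx0 k v) (hr : ∀ n, X (n + 1) ^ p = X n) (hX : X 0 ≠ 0)
    (hv : v (X 0) < 0) (hT : ∀ n, T (n + 1) ^ p = T n) {q : Polynomial k} (hq : q.natDegree = b + 1)
    (hb : ¬ p ∣ b + 1) (ht : aeval (T 0) q = y)
    (ht1 : v.Ge ((b + 1 : ℕ) * v (X 2) - b * v (X 1)) (T 0 - X 1))
    (hy : Lm v (SW k X (b + 1) 2) (y - aeval (X 1) q)) :
    Lm v (SW k T (b + 1) 0) (y ^ p - aeval (X 0) (q.map (frobenius k p))) := by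
  rw [z_eq hr]
  exact (CC.mk hr hX hv hT hq hb ht ht1 hy).z_lt h0

end Pool.Agent.TWC.PF
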