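import Pool.Agent.Lib.TWC.PFd

/-!
# TANK W, class C: row PF, transcendental type over the new field (part PFd)

`TL_z`: `q(T 0) = y`, `z = y ^ p - q ^ (p) (X 0)` is of transcendental type over `EW v ⊥ T`.
-/

set_option autoImplicit false
set_option linter.unusedSectionVars false

open Polynomial

namespace Pool.Agent.TWC.PF

open Pool.Agent.H15JM (RVal)
open Pool.Agent.LU1 (VPos adj)
open Pool.Agent.D2 (Ctx0)
open Pool.Agent.D2P (clI mem_clI)
open Pool.Agent.TWM

universe u

variable {k Ω : Type u} [Field k] [Field Ω] [Algebra k Ω] {v : RVal Ω}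

theorem StrE_const_mul {z : Ω} {s : ℝ} {G : Polynomial Ω} {d : Ω} (hd : d ≠ 0)
    (h : StrE v z s G) : StrE v z s (C d * G) := by
  refine ⟨by rw [eval_mul, eval_C]; exact mul_ne_zero hd h.1, fun l hl hne => ?_⟩
  rw [taylor_mul, taylor_C, coeff_C_mul] at hne ⊢
  have h1 := right_ne_zero_of_mul hne
  rw [eval_mul, eval_C, v.map_mul hd h.1, v.map_mul hd h1]
  linarith [h.2 l hl h1]

theorem EW_inv (A : IntermediateField k Ω) (u : ℕ → Ω) :
    EW v A u ≤ EW v A (fun n => (u n)⁻¹) := by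
  refine clI_mono' (sup_le le_sup_left ?_)
  refine IntermediateField.adjoin_le_iff.2 ?_
  rintro _ ⟨n, rfl⟩
  have h1 : (u n)⁻¹ ∈ A ⊔ IntermediateField.adjoin k (Set.range fun n => (u n)⁻¹) :=
    (le_sup_right : IntermediateField.adjoin k (Set.range fun n => (u n)⁻¹) ≤ _)
      (IntermediateField.subset_adjoin k _ ⟨n, rfl⟩)
  have h2 := inv_mem h1
  rwa [inv_inv] at h2

section P

variable {p : ℕ} [hp : Fact p.Prime] [CharP k p] [CharP Ω p] [PerfectRing k p] [IsAlgClosed Ω]
  {X T : ℕ → Ω} {b : ℕ} {y : Ω} {C : IntermediateField k Ω}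

omit [CharP k p] [PerfectRing k p] in
/-- A finite extension of a perfect field is perfect. -/
theorem perf_adj {M : IntermediateField k Ω} (hM : ∀ a ∈ M, ∃ b ∈ M, b ^ p = a) {t : Ω}
    (ht : IsAlgebraic M t) : ∀ a ∈ adj M t, ∃ b ∈ adj M t, b ^ p = a := by
  haveI : CharP M p := (algebraMap M Ω).charP (algebraMap M Ω).injective p
  haveI : PerfectRing M p := PerfectRing.ofSurjective M p fun a => by
    obtain ⟨b, hb, h1⟩ := hM a a.2
    exact ⟨⟨b, hb⟩, Subtype.ext h1⟩
  haveI : PerfectField M := PerfectRing.toPerfectField M p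
  haveI : Algebra.IsAlgebraic M (IntermediateField.adjoin M {t}) :=
    IntermediateField.isAlgebraic_adjoin_simple ht.isIntegral
  haveI : PerfectField (IntermediateField.adjoin M {t}) :=
    Algebra.IsAlgebraic.perfectField (K := M)
  haveI : CharP (IntermediateField.adjoin M {t}) p :=
    (algebraMap (IntermediateField.adjoin M {t}) Ω).charP
      (algebraMap (IntermediateField.adjoin M {t}) Ω).injective p
  haveI : PerfectRing (IntermediateField.adjoin M {t}) p := PerfectField.toPerfectRing p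
  intro a ha
  rw [D2P.mem_adj_iff] at ha
  obtain ⟨b, hb⟩ := (PerfectRing.bijective_frobenius
    (R := IntermediateField.adjoin M {t}) (p := p)).2 ⟨a, ha⟩
  refine ⟨b, D2P.mem_adj_iff.2 b.2, ?_⟩
  have := congrArg Subtype.val hb
  simpa [frobenius_def] using this

theorem SW_root_d (hr : ∀ n, X (n + 1) ^ p = X n) {j : ℕ} {s : Ω} (h : s ∈ SW k X b j) :
    ∃ r ∈ SW k X b (j + 1), r ^ p = s := by
  induction h using Submodule.span_induction with
  | mem s hs =>
    obtain ⟨n, i, hn, hi, rfl⟩ := hs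
    refine ⟨X (n + 1) ^ i, Submodule.subset_span ⟨n + 1, i, by omega, hi, rfl⟩, ?_⟩
    rw [← pow_mul, mul_comm, pow_mul, hr]
  | zero => exact ⟨0, zero_mem _, zero_pow hp.out.ne_zero⟩
  | add s s' _ _ h1 h2 =>
    obtain ⟨r, hr1, rfl⟩ := h1
    obtain ⟨r', hr2, rfl⟩ := h2
    exact ⟨r + r', add_mem hr1 hr2, add_pow_char r r' p⟩
  | smul a s _ h1 =>
    obtain ⟨r, hr1, rfl⟩ := h1
    obtain ⟨a', ha'⟩ := (PerfectRing.bijective_frobenius (R := k) (p := p)).2 a
    refine ⟨a' • r, Submodule.smul_mem _ _ hr1, ?_⟩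
    have h2 : a' ^ p = a := ha'
    rw [_root_.smul_pow, h2]

theorem Lm_root_d (hr : ∀ n, X (n + 1) ^ p = X n) {y' : Ω} (h : Lm v (SW k X b 0) (y' ^ p)) :
    Lm v (SW k X b 0) y' := by
  have hp0 : (0 : ℝ) < p := by exact_mod_cast hp.out.pos
  intro ε hε
  obtain ⟨s, hs, h1⟩ := h (p * ε) (mul_pos hp0 hε)
  obtain ⟨r, hr1, rfl⟩ := SW_root_d hr hs
  refine ⟨r, Submodule.span_mono ?_ hr1, ?_⟩
  · rintro _ ⟨n, i, -, hi, rfl⟩
    exact ⟨n, i, Nat.zero_le _, hi, rfl⟩
  · rw [← sub_pow_char] at h1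
    refine ge_of_pow (p := p) ?_
    rwa [mul_neg]

omit [CharP k p] [PerfectRing k p] in
theorem TL_root_d {E : IntermediateField k Ω} (hE : ∀ a ∈ E, ∃ b ∈ E, b ^ p = a) {y' : Ω}
    (h : TL v E (y' ^ p) 0) : TL v E y' 0 where
  lim := by
    have hp0 : (0 : ℝ) < p := by exact_mod_cast hp.out.pos
    intro ε hε
    obtain ⟨a, ha, h1⟩ := h.lim (p * ε) (mul_pos hp0 hε)
    obtain ⟨c, hc, rfl⟩ := hE a ha
    refine ⟨c, hc, ?_⟩
    rw [← sub_pow_char] at h1
    refine ge_of_pow (p := p) (h1.mono (by linarith))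
  far := by
    have hp0 : (0 : ℝ) < p := by exact_mod_cast hp.out.pos
    intro θ hθ
    obtain ⟨h1, h2⟩ := h.far (θ ^ p) (hθ.pow p)
    have h3 : y' ≠ θ := fun h3 => h1 (by rw [h3])
    refine ⟨h3, ?_⟩
    rw [← sub_pow_char, v.map_pow (sub_ne_zero.2 h3)] at h2
    by_contra h4
    have := mul_nonneg hp0.le (not_lt.1 h4)
    linarith

/-- **`X 0` is far from the algebraic elements over the closure of `k(y, y ^ (1 / p), ..)`.** -/
theorem far_alg (h0 : Ctx0 k v) (hc : CompleteV v) (hr : ∀ n, X (n + 1) ^ p = X n) (hX : X 0 ≠ 0)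
    (hv : v (X 0) < 0) {Y : ℕ → Ω} (hYr : ∀ n, Y (n + 1) ^ p = Y n)
    (hTL : TL v (EW v (⊥ : IntermediateField k Ω) X) (Y 0) 0)
    (hY : Lm v (SW k X (b + 1) 0) (Y 0)) {θ : Ω}
    (hθ : IsAlgebraic (EW v (⊥ : IntermediateField k Ω) Y) θ) :
    X 0 ≠ θ ∧ v (X 0 - θ) < -(b * v (X 0)) := by
  classical
  have hp0 : (0 : ℝ) < p := by exact_mod_cast hp.out.pos
  have hperf : ∀ a ∈ EW v (⊥ : IntermediateField k Ω) X,
      ∃ b ∈ EW v (⊥ : IntermediateField k Ω) X, b ^ p = a := by
    refine perf_clI p (perf_sup p ?_ ?_)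
    · intro a ha
      obtain ⟨a, rfl⟩ := IntermediateField.mem_bot.1 ha
      obtain ⟨a', ha'⟩ := (PerfectRing.bijective_frobenius (R := k) (p := p)).2 a
      have h2 : a' ^ p = a := ha'
      exact ⟨algebraMap k Ω a', IntermediateField.algebraMap_mem _ _, by rw [← map_pow, h2]⟩
    · rintro _ ⟨n, rfl⟩
      exact ⟨X (n + 1), (le_sup_right : IntermediateField.adjoin k (Set.range X) ≤ _)
        (IntermediateField.subset_adjoin k _ ⟨n + 1, rfl⟩), hr n⟩
  have hYTL : ∀ n, TL v (EW v (⊥ : IntermediateField k Ω) X) (Y n) 0 := by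
    intro n
    induction n with
    | zero => exact hTL
    | succ n ih => exact TL_root_d hperf (by rw [hYr]; exact ih)
  have hYL : ∀ n, Lm v (SW k X (b + 1) 0) (Y n) := by
    intro n
    induction n with
    | zero => exact hY
    | succ n ih => exact Lm_root_d hr (by rw [hYr]; exact ih)
  have hY0 : ∀ n, Y n ≠ 0 ∧ v (Y n) < 0 := fun n => by
    have h1 := (hYTL n).far 0 isAlgebraic_zero
    rw [sub_zero] at h1
    exact h1
  set M := EW v (⊥ : IntermediateField k Ω) Y with hM
  have hint : IsIntegral M θ := hθ.isIntegral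
  set g := (minpoly M θ).map (algebraMap M Ω) with hg
  have hg0 : g ≠ 0 := by
    rw [hg, Ne, Polynomial.map_eq_zero]
    exact minpoly.ne_zero hint
  have hgθ : g.eval θ = 0 := by
    rw [hg, eval_map_algebraMap, minpoly.aeval]
  have hgE : ∀ i, g.coeff i ∈ M := by
    intro i
    rw [hg, coeff_map]
    exact (((minpoly M θ).coeff i)).2
  refine StrE.far (StrE.approx hg0 fun c => ?_) hgθ
  -- approximation of the coefficients
  set x : ℕ → Ω := fun n => (Y n)⁻¹ with hx
  have hxr : ∀ n, x (n + 1) ^ p = x n := fun n => by rw [hx]; simp only; rw [inv_pow, hYr]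
  have hx0 : x 0 ≠ 0 := inv_ne_zero (hY0 0).1
  have hxv : 0 < v (x 0) := by rw [hx]; simp only; rw [v.map_inv (hY0 0).1]; linarith [(hY0 0).2]
  have happ : ∀ i, ∃ (N : ℕ) (f : ℤ →₀ k), v.Ge c (g.coeff i - lf (x N) f) := by
    intro i
    have h1 : Lim v (EW v (⊥ : IntermediateField k Ω) x) (c + 1) (g.coeff i) := by
      intro ε hε
      refine ⟨g.coeff i, EW_inv _ _ (hgE i), ?_⟩
      rw [sub_self]
      exact RVal.Ge.zero
    obtain ⟨N, f, h2⟩ := exists_lf h0 hxr hx0 hxv h1 one_pos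
    exact ⟨N, f, h2.mono (by linarith)⟩
  choose N f hf using happ
  obtain ⟨N₀, hN₀⟩ : ∃ N₀, ∀ i ∈ Finset.range (g.natDegree + 1), N i ≤ N₀ :=
    ⟨(Finset.range (g.natDegree + 1)).sup N, fun i hi => Finset.le_sup hi⟩
  have happ2 : ∀ i ∈ Finset.range (g.natDegree + 1), ∃ f' : ℤ →₀ k,
      v.Ge c (g.coeff i - lf (x N₀) f') := by
    intro i hi
    have h1 := lf_root hxr (N i) (N₀ - N i) (f i)
    rw [Nat.add_sub_cancel' (hN₀ i hi)] at h1
    exact ⟨_, by rw [← h1]; exact hf i⟩
  have happ3 : ∀ i, ∃ f' : ℤ →₀ k, i < g.natDegree + 1 → v.Ge c (g.coeff i - lf (x N₀) f') := by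
    intro i
    by_cases hi : i < g.natDegree + 1
    · obtain ⟨f', hf'⟩ := happ2 i (Finset.mem_range.2 hi)
      exact ⟨f', fun _ => hf'⟩
    · exact ⟨0, fun h => absurd h hi⟩
  choose f' hf' using happ3
  obtain ⟨M₀, hM₀⟩ : ∃ M₀ : ℕ, ∀ i ∈ Finset.range (g.natDegree + 1), ∀ j ∈ (f' i).support,
      j ≤ (M₀ : ℤ) := by
    refine ⟨(Finset.range (g.natDegree + 1)).sup fun i => (f' i).support.sup Int.toNat,
      fun i hi j hj => ?_⟩
    have h1 : Int.toNat j ≤ (f' i).support.sup Int.toNat := Finset.le_sup (f := Int.toNat) hj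
    have h2 : ((f' i).support.sup Int.toNat) ≤
      (Finset.range (g.natDegree + 1)).sup fun i => (f' i).support.sup Int.toNat :=
      Finset.le_sup (f := fun i => (f' i).support.sup Int.toNat) hi
    have := Int.self_le_toNat j
    omega
  set z := Y N₀ with hz
  set Q : ℕ → Polynomial Ω := fun i => (f' i).sum fun j a =>
    C (algebraMap k Ω a) * Polynomial.X ^ (M₀ - j).toNat with hQ
  have hQm : ∀ i, Q i ∈ PI (⊥ : IntermediateField k Ω) := fun i =>
    sum_mem fun j _ => mul_mem (C_mem_PI (IntermediateField.algebraMap_mem _ _))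
      (pow_mem X_mem_PI _)
  have hQe : ∀ i ∈ Finset.range (g.natDegree + 1), x N₀ ^ M₀ * (Q i).eval z = lf (x N₀) (f' i) := by
    intro i hi
    rw [hQ]
    simp only [Finsupp.sum, eval_finsetSum, eval_mul, eval_C, eval_pow, eval_X, lf, Finset.mul_sum]
    refine Finset.sum_congr rfl fun j hj => ?_
    have h1 : x N₀ = z⁻¹ := rfl
    have h2 := hM₀ i hi j hj
    have hz0 : z ≠ 0 := (hY0 N₀).1
    rw [h1, mul_left_comm]
    congr 1
    have h3 : z ^ (M₀ - j).toNat = z ^ ((M₀ : ℤ) - j) := by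
      rw [← zpow_natCast, Int.toNat_of_nonneg (by omega)]
    rw [h3, zpow_sub₀ hz0, inv_pow, inv_zpow, zpow_natCast]
    field_simp
  let P : Polynomial (Polynomial Ω) := ∑ i ∈ Finset.range (g.natDegree + 1), C (Q i) * Polynomial.X ^ i
  have hPc : ∀ i, P.coeff i = if i < g.natDegree + 1 then Q i else 0 := by
    intro i
    simp only [P, finsetSum_coeff, coeff_C_mul_X_pow]
    rw [Finset.sum_ite_eq]
    simp only [Finset.mem_range]
  have hPP : PII (⊥ : IntermediateField k Ω) P := by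
    intro i
    rw [hPc]
    split_ifs
    exacts [hQm i, zero_mem _]
  have hxN : x N₀ ^ M₀ ≠ 0 := pow_ne_zero _ (inv_ne_zero (hY0 N₀).1)
  refine ⟨Polynomial.C (x N₀ ^ M₀) * P.map (evalRingHom z), ?_, ?_, fun hne => ?_⟩
  · refine (natDegree_C_mul_le _ _).trans (natDegree_map_le.trans ?_)
    rw [natDegree_le_iff_coeff_eq_zero]
    intro i hi
    rw [hPc, if_neg (by omega)]
  · intro i
    rw [coeff_sub, coeff_C_mul, coeff_map (evalRingHom z), hPc]
    split_ifs with hi
    · rw [coe_evalRingHom, hQe i (Finset.mem_range.2 hi)]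
      exact hf' i hi
    · rw [coeff_eq_zero_of_natDegree_lt (by omega)]
      simp only [_root_.map_zero, mul_zero, sub_self]
      exact RVal.Ge.zero
  · have h1 : P.map (evalRingHom z) ≠ 0 := by
      intro h1
      rw [h1, mul_zero] at hne
      exact hne rfl
    exact StrE_const_mul hxN (strE_of_jet h0 hr hX hv (hYTL N₀) (hYL N₀) hPP h1)

omit [IsAlgClosed Ω] [PerfectRing k p] in
/-- The derivative of a polynomial of degree `b + 1`. -/
theorem deriv_val (h0 : Ctx0 k v) {z : Ω} (hz : z ≠ 0) (hv : v z < 0) {q : Polynomial k}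
    (hq : q.natDegree = b + 1) (hb : ¬ p ∣ b + 1) :
    (derivative (q.map (algebraMap k Ω))).eval z ≠ 0 ∧
      v ((derivative (q.map (algebraMap k Ω))).eval z) = b * v z := by
  set G := derivative (q.map (algebraMap k Ω)) with hG
  have hGm : G ∈ PI (⊥ : IntermediateField k Ω) := by
    intro i
    rw [hG, coeff_derivative, coeff_map]
    exact mul_mem (IntermediateField.algebraMap_mem _ _)
      (by exact_mod_cast natCast_mem (⊥ : IntermediateField k Ω) (i + 1))
  have hlc : G.coeff b ≠ 0 := by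
    rw [hG, coeff_derivative, coeff_map]
    refine mul_ne_zero ?_ ?_
    · rw [Ne, map_eq_zero, ← hq, coeff_natDegree, leadingCoeff_eq_zero]
      rintro rfl
      rw [natDegree_zero] at hq
      omega
    · have h1 : ((b : Ω) + 1) = ((b + 1 : ℕ) : Ω) := by push_cast; ring
      rw [h1, Ne, CharP.cast_eq_zero_iff Ω p]
      exact hb
  have hdeg : G.natDegree = b := by
    refine natDegree_eq_of_le_of_coeff_ne_zero ?_ hlc
    refine (natDegree_derivative_le _).trans ?_
    have := natDegree_map_le (p := q) (f := algebraMap k Ω)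
    omega
  have h1 := bot_lead h0 hz hv hGm (fun h => by rw [h, coeff_zero] at hlc; exact hlc rfl)
  rwa [hdeg] at h1

/-- **Transcendental type over `E_t`.** -/
theorem TL_z (h0 : Ctx0 k v) (hc : CompleteV v) (hP : PR p v C X y (b + 1))
    (hT : ∀ n, T (n + 1) ^ p = T n) {q : Polynomial k}
    (hq : q.natDegree = b + 1) (hb : ¬ p ∣ b + 1) (ht : aeval (T 0) q = y)
    (hz : Lm v (SW k T (b + 1) 0) (y ^ p - aeval (X 0) (q.map (frobenius k p)))) :
    TL v (EW v (⊥ : IntermediateField k Ω) T)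
      (y ^ p - aeval (X 0) (q.map (frobenius k p))) 0 := by
  obtain ⟨Y, hY0, hYr⟩ := exists_rts p y
  set M := EW v (⊥ : IntermediateField k Ω) Y with hM
  have hyM : y ∈ M := hY0 ▸ EW.mem 0
  have hMperf : ∀ a ∈ M, ∃ b ∈ M, b ^ p = a := by
    refine perf_clI p (perf_sup p ?_ ?_)
    · intro a ha
      obtain ⟨a, rfl⟩ := IntermediateField.mem_bot.1 ha
      obtain ⟨a', ha'⟩ := (PerfectRing.bijective_frobenius (R := k) (p := p)).2 a
      have h2 : a' ^ p = a := ha'
      exact ⟨algebraMap k Ω a', IntermediateField.algebraMap_mem _ _, by rw [← map_pow, h2]⟩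
    · rintro _ ⟨n, rfl⟩
      exact ⟨Y (n + 1), (le_sup_right : IntermediateField.adjoin k (Set.range Y) ≤ _)
        (IntermediateField.subset_adjoin k _ ⟨n + 1, rfl⟩), hYr n⟩
  -- `T 0` is algebraic over `M`
  have hqb : (q.map (algebraMap k Ω)).coeff (b + 1) ≠ 0 := by
    rw [coeff_map, Ne, map_eq_zero, ← hq, coeff_natDegree, leadingCoeff_eq_zero]
    rintro rfl
    rw [natDegree_zero] at hq
    omega
  have hTalg : IsAlgebraic M (T 0) := by
    refine isAlgebraic_root (f := q.map (algebraMap k Ω) - Polynomial.C y) ?_ ?_ ?_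
    · refine sub_mem (fun i => ?_) (C_mem_PI hyM)
      rw [coeff_map]
      exact IntermediateField.algebraMap_mem _ _
    · intro h1
      have h2 := congrArg (fun g => g.coeff (b + 1)) h1
      simp only [coeff_sub, coeff_zero] at h2
      rw [coeff_C_ne_zero (by omega), sub_zero] at h2
      exact hqb h2
    · rw [eval_sub, eval_C, eval_map_algebraMap, ht, sub_self]
  have hTM : EW v (⊥ : IntermediateField k Ω) T ≤ adj M (T 0) := by
    refine clI_le' (sup_le bot_le ?_) (cld_adj hc EW.cld hTalg)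
    refine IntermediateField.adjoin_le_iff.2 ?_
    rintro _ ⟨n, rfl⟩
    induction n with
    | zero => exact (D2P.mem_adj_self M _).1
    | succ n ih =>
      obtain ⟨c, hc1, hc2⟩ := perf_adj hMperf hTalg (T n) ih
      have h1 : c = T (n + 1) := frobenius_inj Ω p (by
        rw [frobenius_def, frobenius_def, hc2, hT])
      rw [← h1]
      exact hc1
  refine ⟨?_, fun θ hθ => ?_⟩
  · intro ε hε
    obtain ⟨s, hs, h1⟩ := hz ε hε
    refine ⟨s, ?_, by rw [zero_sub]; exact h1⟩
    have h2 : SW k T (b + 1) 0 ≤ Subalgebra.toSubmodule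
        (EW v (⊥ : IntermediateField k Ω) T).toSubalgebra := by
      refine Submodule.span_le.2 ?_
      rintro _ ⟨n, i, -, -, rfl⟩
      exact pow_mem (EW.mem (v := v) (P := (⊥ : IntermediateField k Ω)) (u := T) n) i
    exact h2 hs
  · have h1 : IsAlgebraic M θ := by
      refine isAlgebraic_of_algc (D2P.isAlgebraic_mono (hTM.trans ?_) hθ)
      exact D2P.adj_le (le_algc M) (mem_algc.2 hTalg)
    set N := (q.map (frobenius k p)).map (algebraMap k Ω) with hN
    have hNd : (q.map (frobenius k p)).natDegree = b + 1 := by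
      rw [natDegree_map_eq_of_injective (frobenius_inj k p), hq]
    set h := N - Polynomial.C (y ^ p) + Polynomial.C θ with hh
    have hhm : h ∈ PI (TWM.algc M) := by
      refine add_mem (sub_mem (fun i => ?_) (C_mem_PI (pow_mem (le_algc M hyM) p)))
        (C_mem_PI (mem_algc.2 h1))
      rw [hN, coeff_map]
      exact IntermediateField.algebraMap_mem _ _
    have hh0 : h ≠ 0 := by
      intro h2
      have h3 := congrArg (fun g => g.coeff (b + 1)) h2
      simp only [hh, coeff_add, coeff_sub, coeff_zero] at h3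
      rw [coeff_C_ne_zero (by omega), coeff_C_ne_zero (by omega), sub_zero, add_zero, hN,
        coeff_map, map_eq_zero, ← hNd, coeff_natDegree, leadingCoeff_eq_zero] at h3
      rw [h3, natDegree_zero] at hNd
      omega
    have hY' : Lm v (SW k X (b + 1) 0) (Y 0) := by
      intro ε hε
      obtain ⟨s, hs, h1⟩ := hP.ltr ε hε
      refine ⟨s, Submodule.span_mono ?_ hs, by rw [hY0]; exact h1⟩
      rintro _ ⟨n, i, -, hi, rfl⟩
      exact ⟨n, i, Nat.zero_le _, hi, rfl⟩
    have hstr : Str v (-(b * v (X 0))) (taylor (X 0) h) := by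
      have h2 := (IsAlgClosed.splits h).eq_prod_roots
      rw [h2, taylor_mul, taylor_C]
      refine Str.mul (Str.C (leadingCoeff_ne_zero.2 hh0)) (Str.multiset _ fun θ' hθ' => ?_)
      rw [mem_roots hh0] at hθ'
      exact far_alg h0 hc hP.root hP.ne hP.neg hYr (by rw [hY0]; exact hP.tl) hY'
        (isAlgebraic_of_algc (isAlgebraic_root hhm hh0 hθ'))
    have hhe : h.eval (X 0) = -(y ^ p - aeval (X 0) (q.map (frobenius k p)) - θ) := by
      rw [hh, eval_add, eval_sub, eval_C, eval_C, hN, eval_map_algebraMap]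
      ring
    have hne := hstr.ne
    rw [taylor_coeff_zero, hhe] at hne
    have hne' : y ^ p - aeval (X 0) (q.map (frobenius k p)) - θ ≠ 0 := fun h2 => hne (by
      rw [h2, neg_zero])
    refine ⟨sub_ne_zero.1 hne', ?_⟩
    have hd := deriv_val (p := p) h0 hP.ne hP.neg hNd hb
    have h3 : (taylor (X 0) h).coeff 1 = (derivative N).eval (X 0) := by
      rw [taylor_coeff_one, hh, derivative_add, derivative_sub, derivative_C, derivative_C,
        sub_zero, add_zero]
    have h4 := hstr.gt 1 le_rfl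
    rw [taylor_coeff_zero, hhe, h3] at h4
    have h5 := h4 hd.1
    rw [hd.2, v.map_neg _ hne', Nat.cast_one, one_mul] at h5
    linarith

end P

end Pool.Agent.TWC.PF
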