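import Pool.Agent.Lib.TWC.PFdefs

/-!
# TANK W, class C: all the positions are hit (row PairRat, part e)

`lim_of_all`: if `C` contains, for every `n ≥ 1`, an element with the leading top letter
`X n ^ (b + 1)`, then all the `X n` are limits of `C` up to `-(b v (X n))`.
-/

set_option autoImplicit false

open Polynomial

namespace Pool.Agent.TWC.PF

open Pool.Agent.H15JM (RVal)
open Pool.Agent.D2 (Ctx0)
open Pool.Agent.D2P (clI mem_clI)
open Pool.Agent.TWM

universe u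

variable {k Ω : Type u} [Field k] [Field Ω] [Algebra k Ω] {v : RVal Ω}
  {p : ℕ} [hp : Fact p.Prime] {C : IntermediateField k Ω} {X : ℕ → Ω} {b : ℕ}

/-- `S + O(≥ c)`. -/
def nrS (h0 : Ctx0 k v) (S : Submodule k Ω) (c : ℝ) : Submodule k Ω where
  carrier := {g | ∃ s ∈ S, v.Ge c (g - s)}
  add_mem' := by
    rintro a b ⟨s, hs, h1⟩ ⟨t, ht, h2⟩
    refine ⟨s + t, add_mem hs ht, ?_⟩
    have e : a + b - (s + t) = (a - s) + (b - t) := by ring
    rw [e]
    exact h1.add h2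
  zero_mem' := ⟨0, zero_mem _, by rw [sub_zero]; exact RVal.Ge.zero⟩
  smul_mem' := by
    rintro c a ⟨s, hs, h1⟩
    refine ⟨c • s, S.smul_mem c hs, ?_⟩
    rw [← smul_sub, Algebra.smul_def]
    exact ((h0.ge c).mul h1).mono (by linarith)

theorem mem_nrS {h0 : Ctx0 k v} {S : Submodule k Ω} {c : ℝ} {g : Ω} :
    g ∈ nrS h0 S c ↔ ∃ s ∈ S, v.Ge c (g - s) := Iff.rfl

theorem le_nrS (h0 : Ctx0 k v) (S : Submodule k Ω) (c : ℝ) : S ≤ nrS h0 S c :=
  fun s hs => ⟨s, hs, by rw [sub_self]; exact RVal.Ge.zero⟩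

theorem ge_mem_nrS (h0 : Ctx0 k v) (S : Submodule k Ω) {c : ℝ} {g : Ω} (h : v.Ge c g) :
    g ∈ nrS h0 S c := ⟨0, zero_mem _, by rwa [sub_zero]⟩

/-- The subspace of `C`. -/
abbrev sub (C : IntermediateField k Ω) : Submodule k Ω := C.toSubalgebra.toSubmodule

theorem mem_sub {a : Ω} : a ∈ sub C ↔ a ∈ C := Iff.rfl

/-- `X m ^ i`, from an approximation of `X m ^ (b + 1)`. -/
theorem root_approx (hr : ∀ n, X (n + 1) ^ p = X n) (hX : X 0 ≠ 0) (hXC : X 0 ∈ C)
    (hb : ¬ p ∣ b + 1) {m : ℕ} {h : Ω} (hh : h ∈ C) {τ : ℝ}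
    (hτ : v.Ge (-τ) (h - X m ^ (b + 1))) (hlt : τ < -((b + 1) * v (X m))) (i : ℕ) :
    ∃ g ∈ C, v.Ge (i * v (X m) + (-((b + 1) * v (X m)) - τ)) (X m ^ i - g) := by
  have hXm : X m ≠ 0 := root_ne_zero hr hX m
  have hXp : X m ^ p ^ m = X 0 := by
    have := root_pow_add hr 0 m
    rwa [zero_add] at this
  set z := X m ^ (b + 1) with hz
  have hz0 : z ≠ 0 := pow_ne_zero _ hXm
  have hvz : v z = (b + 1) * v (X m) := by
    rw [hz, v.map_pow hXm]
    push_cast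
    ring
  have h1 : Gt v (v z) (z - h) := by
    have h2 : Gt v (v z) (h - z) := Gt.of_ge hτ (by rw [hvz]; linarith)
    have := h2.neg
    rwa [neg_sub] at this
  obtain ⟨hh0, hvh⟩ := Gt.val_eq hz0 h1
  have hcop : IsCoprime ((b + 1 : ℕ) : ℤ) ((p : ℤ) ^ m) := by
    have h4 : Nat.Coprime (b + 1) p :=
      (Nat.Coprime.symm ((Nat.Prime.coprime_iff_not_dvd hp.out).2 hb))
    exact (Nat.isCoprime_iff_coprime.2 h4).pow_right
  obtain ⟨A, B, hAB⟩ := hcop
  have h2 := ge_zpow_sub (v := v) hz0 hh0 hvh hτ (i * A)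
  have hX0 : v.Ge (i * B * (p ^ m * v (X m))) (X 0 ^ ((i : ℤ) * B)) := fun _ => by
    rw [v.map_zpow hX, ← hXp, v.map_pow hXm]
    push_cast
    exact le_rfl
  refine ⟨h ^ ((i : ℤ) * A) * X 0 ^ ((i : ℤ) * B), mul_mem (zpow_mem hh _) (zpow_mem hXC _), ?_⟩
  have e1 : X m ^ i = z ^ ((i : ℤ) * A) * X 0 ^ ((i : ℤ) * B) := by
    have h3 : (X m : Ω) ^ (i : ℤ) = X m ^ ((i : ℤ) * (A * ((b + 1 : ℕ) : ℤ) + B * (p : ℤ) ^ m)) := by
      rw [hAB, mul_one]
    rw [← zpow_natCast, h3, hz, ← hXp, ← zpow_natCast (X m) (b + 1), ← zpow_natCast (X m) (p ^ m),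
      ← zpow_mul, ← zpow_mul, ← zpow_add₀ hXm]
    congr 1
    push_cast
    ring
  have e2 : X m ^ i - h ^ ((i : ℤ) * A) * X 0 ^ ((i : ℤ) * B) =
      -((h ^ ((i : ℤ) * A) - z ^ ((i : ℤ) * A)) * X 0 ^ ((i : ℤ) * B)) := by
    rw [e1]
    ring
  rw [e2]
  refine ((h2.mul hX0).mono (le_of_eq ?_)).neg
  have hABr : (A : ℝ) * (b + 1) + B * p ^ m = 1 := by exact_mod_cast hAB
  rw [hvz]
  push_cast
  linear_combination (-(i : ℝ) * v (X m)) * hABr

/-- Elimination of the top letters. -/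
theorem top_elim (h0 : Ctx0 k v) (hr : ∀ n, X (n + 1) ^ p = X n) (hX : X 0 ≠ 0)
    (_hv : v (X 0) < 0) (h : ∀ n, 1 ≤ n → InS p v C X b n) {ε : ℝ} (hε : 0 < ε) {m : ℕ}
    (hm : 1 ≤ m) : X m ^ (b + 1) ∈ nrS h0 (sub C ⊔ SA k p X b) (-ε) := by
  have hp1 : (1 : ℝ) < p := by exact_mod_cast hp.out.one_lt
  -- large positions
  obtain ⟨N, hN⟩ : ∃ N : ℕ, ∀ m, N ≤ m → v.Ge (-ε) (X m ^ (b + 1)) := by
    obtain ⟨N, hN⟩ := pow_unbounded_of_one_lt ((b + 1) * (-v (X 0)) / ε) hp1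
    refine ⟨N, fun m hm _ => ?_⟩
    rw [v.map_pow (root_ne_zero hr hX m), val_rt hr hX m]
    have h1 : (b + 1) * (-v (X 0)) / ε < p ^ m := hN.trans_le (pow_le_pow_right₀ hp1.le hm)
    rw [div_lt_iff₀ hε] at h1
    have h2 : (0 : ℝ) < (p : ℝ) ^ m := by positivity
    have h3 : ((b + 1 : ℕ) : ℝ) * (v (X 0) / p ^ m) = -((b + 1) * (-v (X 0)) / p ^ m) := by
      push_cast
      ring
    rw [h3, neg_le_neg_iff, div_le_iff₀ h2]
    linarith
  -- induction downwards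
  have key : ∀ d m, 1 ≤ m → N ≤ m + d → X m ^ (b + 1) ∈ nrS h0 (sub C ⊔ SA k p X b) (-ε) := by
    intro d
    induction d using Nat.strong_induction_on with
    | _ d ih =>
      intro m hm hmd
      rcases Nat.lt_or_ge m N with hmN | hmN
      swap
      · exact ge_mem_nrS h0 _ (hN m hmN)
      obtain ⟨f, hf, h1⟩ := h m hm
      obtain ⟨s, hs, h2⟩ := h1 ε hε
      have hle : SW k X (b + 1) (m + 1) ⊔ SA k p X b ≤ nrS h0 (sub C ⊔ SA k p X b) (-ε) := by
        refine sup_le (Submodule.span_le.2 ?_) (le_sup_right.trans (le_nrS h0 _ _))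
        rintro _ ⟨n, i, hn, hi, rfl⟩
        rcases hi.lt_or_eq with hi | rfl
        · refine le_nrS h0 _ _ (Submodule.mem_sup_right (Submodule.subset_span
            ⟨n, 0, i, Nat.lt_succ_iff.1 hi, by rw [pow_zero, mul_one]⟩))
        · exact ih (d - 1) (by omega) n (by omega) (by omega)
      have h3 := hle hs
      have h4 : f ∈ nrS h0 (sub C ⊔ SA k p X b) (-ε) :=
        le_nrS h0 _ _ (Submodule.mem_sup_left hf)
      have h5 : f - X m ^ (b + 1) - s ∈ nrS h0 (sub C ⊔ SA k p X b) (-ε) := ge_mem_nrS h0 _ h2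
      have e : X m ^ (b + 1) = f - (f - X m ^ (b + 1) - s) - s := by ring
      rw [e]
      exact sub_mem (sub_mem h4 h5) h3
  exact key N m hm (by omega)

/-- The lower letters, from approximations of the top letters. -/
theorem SA_near (h0 : Ctx0 k v) (hr : ∀ n, X (n + 1) ^ p = X n) (hX : X 0 ≠ 0) (hv : v (X 0) < 0)
    (hXC : X 0 ∈ C) (hb : ¬ p ∣ b + 1) {τ : ℝ} (_hτ : 0 ≤ τ)
    (h : ∀ m, 1 ≤ m → X m ^ (b + 1) ∈ nrS h0 (sub C) (-τ)) :
    SA k p X b ≤ nrS h0 (sub C) (-(b / (b + 1) * τ)) := by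
  have hb1 : (0 : ℝ) < b + 1 := by positivity
  refine Submodule.span_le.2 ?_
  rintro _ ⟨m, l, i, hi, rfl⟩
  -- the positions `≥ 1`
  have key : ∀ m, X m ^ i ∈ nrS h0 (sub C) (-(b / (b + 1) * τ)) := by
    intro m
    have hib : (i : ℝ) ≤ b := by exact_mod_cast hi
    have hvm : v (X m) < 0 := by
      rw [val_rt hr hX m]
      exact div_neg_of_neg_of_pos hv (pow_pos (by exact_mod_cast hp.out.pos) m)
    rcases Nat.eq_zero_or_pos m with rfl | hm
    · exact le_nrS h0 _ _ (pow_mem hXC i)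
    by_cases h1 : -((b + 1) * v (X m)) ≤ τ
    · refine ge_mem_nrS h0 _ fun _ => ?_
      rw [v.map_pow (root_ne_zero hr hX m)]
      have h2 : -v (X m) ≤ τ / (b + 1) := by
        rw [le_div_iff₀ hb1]
        linarith
      have h3 : (i : ℝ) * (-v (X m)) ≤ b * (τ / (b + 1)) :=
        mul_le_mul hib h2 (by linarith) (by positivity)
      have h4 : (b : ℝ) * (τ / (b + 1)) = b / (b + 1) * τ := by ring
      linarith
    · obtain ⟨f, hf, h2⟩ := h m hm
      have h3 : v.Ge (-τ) (f - X m ^ (b + 1)) := by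
        have := h2.neg
        rwa [neg_sub] at this
      obtain ⟨g, hg, h4⟩ := root_approx hr hX hXC hb hf h3 (not_le.1 h1) i
      refine ⟨g, hg, h4.mono ?_⟩
      have h5 : τ / (b + 1) < -v (X m) := by
        rw [div_lt_iff₀ hb1]
        linarith [not_le.1 h1]
      have h6 : (b : ℝ) / (b + 1) * τ = τ - τ / (b + 1) := by
        field_simp
        ring
      rw [h6]
      have h7 : (i : ℝ) * (-v (X m)) ≤ b * (-v (X m)) := mul_le_mul_of_nonneg_right hib (by linarith)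
      linarith
  rcases Nat.lt_or_ge l m with hlm | hlm
  · obtain ⟨d, rfl⟩ := Nat.exists_eq_add_of_lt hlm
    have h1 : X (l + d + 1) ^ (i * p ^ l) = X (d + 1) ^ i := by
      have h2 := root_pow_add hr (d + 1) l
      rw [mul_comm, pow_mul, show l + d + 1 = d + 1 + l by ring, h2]
    rw [h1]
    exact key (d + 1)
  · obtain ⟨d, rfl⟩ := Nat.exists_eq_add_of_le hlm
    refine le_nrS h0 _ _ ?_
    have h1 : X m ^ (i * p ^ (m + d)) = X 0 ^ (i * p ^ d) := by
      have h2 := root_pow_add hr 0 m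
      rw [zero_add] at h2
      rw [← h2, ← pow_mul, pow_add]
      congr 1
      ring
    rw [h1]
    exact pow_mem hXC _

/-- The top letters are limits of `C` up to `0`. -/
theorem top_lim (h0 : Ctx0 k v) (hr : ∀ n, X (n + 1) ^ p = X n) (hX : X 0 ≠ 0)
    (hv : v (X 0) < 0) (hXC : X 0 ∈ C) (hb : ¬ p ∣ b + 1) (h : ∀ n, 1 ≤ n → InS p v C X b n)
    {ε : ℝ} (hε : 0 < ε) {m : ℕ} (hm : 1 ≤ m) : X m ^ (b + 1) ∈ nrS h0 (sub C) (-ε) := by
  have hp1 : (1 : ℝ) < p := by exact_mod_cast hp.out.one_lt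
  have hb1 : (0 : ℝ) < b + 1 := by positivity
  set T := (b + 1) * (-v (X 0)) with hT
  have hT0 : 0 ≤ T := mul_nonneg hb1.le (by linarith)
  set c : ℝ := b / (b + 1) with hc
  have hc0 : 0 ≤ c := by positivity
  have hc1 : c < 1 := by
    rw [hc, div_lt_one hb1]
    linarith
  have key : ∀ j m, 1 ≤ m → X m ^ (b + 1) ∈ nrS h0 (sub C) (-(max (c ^ j * T) ε)) := by
    intro j
    induction j with
    | zero =>
      intro m hm
      refine ge_mem_nrS h0 _ (RVal.Ge.mono (neg_le_neg (le_max_left _ _)) fun _ => ?_)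
      rw [v.map_pow (root_ne_zero hr hX m), val_rt hr hX m, pow_zero, one_mul, hT]
      have h1 : (1 : ℝ) ≤ (p : ℝ) ^ m := one_le_pow₀ hp1.le
      have h2 : -v (X 0) / p ^ m ≤ -v (X 0) := div_le_self (by linarith) h1
      have h3 : ((b + 1 : ℕ) : ℝ) * (v (X 0) / p ^ m) = -((b + 1) * (-v (X 0) / p ^ m)) := by
        push_cast
        ring
      rw [h3, neg_le_neg_iff]
      exact mul_le_mul_of_nonneg_left h2 hb1.le
    | succ j ih =>
      intro m hm
      set τ := max (c ^ j * T) ε with hτ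
      have hτ0 : 0 ≤ τ := hε.le.trans (le_max_right _ _)
      have h1 := SA_near h0 hr hX hv hXC hb hτ0 ih
      rw [← hc] at h1
      have hle : -(max (c ^ (j + 1) * T) ε) ≤ -(c * τ) := by
        rw [neg_le_neg_iff, hτ, mul_max_of_nonneg _ _ hc0]
        refine max_le_max (le_of_eq (by ring)) ?_
        nlinarith
      obtain ⟨g, hg, h2⟩ := top_elim h0 hr hX hv h hε hm
      obtain ⟨f, hf, s, hs, rfl⟩ := Submodule.mem_sup.1 hg
      obtain ⟨f', hf', h3⟩ := h1 hs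
      refine ⟨f + f', add_mem hf hf', ?_⟩
      have e : X m ^ (b + 1) - (f + f') = (X m ^ (b + 1) - (f + s)) + (s - f') := by ring
      rw [e]
      exact (h2.mono (neg_le_neg (le_max_right _ _))).add (h3.mono hle)
  obtain ⟨j, hj⟩ := exists_pow_lt_of_lt_one (show 0 < ε / (T + 1) by positivity) hc1
  have h1 : c ^ j * T ≤ ε := by
    rw [lt_div_iff₀ (by linarith)] at hj
    have := pow_nonneg hc0 j
    nlinarith
  have h2 := key j m hm
  rwa [max_eq_right h1] at h2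

/-- **All the positions are hit: `X n` is a limit of `C`.** -/
theorem lim_of_all (h0 : Ctx0 k v) (_hC : Cld v C) (hr : ∀ n, X (n + 1) ^ p = X n) (hX : X 0 ≠ 0)
    (hv : v (X 0) < 0) (hXC : X 0 ∈ C) (hb : ¬ p ∣ b + 1) (h : ∀ n, 1 ≤ n → InS p v C X b n)
    (n : ℕ) : Lim v C (-(b * v (X n))) (X n) := by
  intro ε hε
  have hb1 : (0 : ℝ) < b + 1 := by positivity
  have hvn : v (X n) < 0 := by
    rw [val_rt hr hX n]
    exact div_neg_of_neg_of_pos hv (pow_pos (by exact_mod_cast hp.out.pos) n)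
  rcases Nat.eq_zero_or_pos n with rfl | hn
  · exact ⟨X 0, hXC, by rw [sub_self]; exact RVal.Ge.zero⟩
  obtain ⟨δ, hδ, hδε, hδ1⟩ : ∃ δ : ℝ, 0 < δ ∧ δ ≤ ε ∧ δ < -((b + 1) * v (X n)) := by
    have h1 : 0 < -((b + 1) * v (X n)) := by nlinarith
    exact ⟨min ε (-((b + 1) * v (X n)) / 2), lt_min hε (by linarith), min_le_left _ _,
      lt_of_le_of_lt (min_le_right _ _) (by linarith)⟩
  obtain ⟨f, hf, h2⟩ := top_lim h0 hr hX hv hXC hb h hδ hn
  have h3 : v.Ge (-δ) (f - X n ^ (b + 1)) := by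
    have := h2.neg
    rwa [neg_sub] at this
  obtain ⟨g, hg, h4⟩ := root_approx hr hX hXC hb hf h3 hδ1 1
  rw [pow_one] at h4
  refine ⟨g, hg, h4.mono ?_⟩
  push_cast
  linarith

end Pool.Agent.TWC.PF
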