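import Pool.Agent.Lib.TWC.PFa2
import Pool.Agent.Lib.TWC.PFb
import Pool.Agent.Lib.TWC.PFc
import Pool.Agent.Lib.TWC.PFd2
import Pool.Agent.Lib.TWC.PFe
import Pool.Agent.Lib.TWC.Rect

/-!
# TANK W, class C: the pair of a field of rational radius (row PF), the induction

* `InS_isog`: the positions of `C(X e)` are positions of `C`;
* `step_iso`: the field `C(X e)`, where the first top letter is at the position `1`;
* `InS_one`: then `1` is a position;
* `step_tz`: the change of coordinates `(t, z)`;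
* `main`: some field of the isogeny class of `C` has a tight first coordinate.
-/

set_option autoImplicit false
set_option linter.unusedSectionVars false

open Polynomial

namespace Pool.Agent.TWC.PF

open Pool.Agent.H15JM (RVal)
open Pool.Agent.D2 (Ctx0)
open Pool.Agent.D2P (clI mem_clI rootF mem_rootF)
open Pool.Agent.TWM

universe u

variable {k Ω : Type u} [Field k] [Field Ω] [Algebra k Ω] {v : RVal Ω}
  {p : ℕ} [hp : Fact p.Prime] [CharP k p] [CharP Ω p] [PerfectRing k p] [IsAlgClosed Ω]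
  {C C' : IntermediateField k Ω} {X T : ℕ → Ω} {y z t f s : Ω} {b j n m : ℕ}
  {S S' : Submodule k Ω}

/-! ### Powers -/

/-- The powers of the elements of a span. -/
theorem span_pow_pow (e : ℕ) {M : Set Ω} (hM : ∀ m ∈ M, m ^ p ^ e ∈ S)
    (h : s ∈ Submodule.span k M) : s ^ p ^ e ∈ S := by
  induction h using Submodule.span_induction with
  | mem x hx => exact hM x hx
  | zero =>
    rw [zero_pow (pow_ne_zero _ hp.out.ne_zero)]
    exact zero_mem _
  | add x y _ _ h1 h2 =>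
    rw [add_pow_char_pow]
    exact add_mem h1 h2
  | smul a x _ h1 =>
    rw [Algebra.smul_def, mul_pow, ← map_pow, ← Algebra.smul_def]
    exact S.smul_mem _ h1

theorem Lm.pow_pow (e : ℕ) (hS : ∀ s ∈ S, s ^ p ^ e ∈ S') (h : Lm v S f) :
    Lm v S' (f ^ p ^ e) := by
  intro ε hε
  have hp0 : (0 : ℝ) < (p ^ e : ℕ) := by exact_mod_cast pow_pos hp.out.pos e
  obtain ⟨s, hs, h1⟩ := h (ε / (p ^ e : ℕ)) (div_pos hε hp0)
  refine ⟨s ^ p ^ e, hS s hs, ?_⟩
  rw [← sub_pow_char_pow]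
  exact (ge_pow h1 (p ^ e)).mono (by rw [mul_neg, mul_div_cancel₀ _ hp0.ne'])

/-- The positions of an isogenous field. -/
theorem InS_isog {C' : IntermediateField k Ω} {e : ℕ} (_h0 : Ctx0 k v)
    (hr : ∀ n, X (n + 1) ^ p = X n) (hCC : ∀ f ∈ C', f ^ p ^ e ∈ C)
    (h : InS p v C' (fun n => X (e + n)) b n) : InS p v C X b n := by
  obtain ⟨f, hf, h1⟩ := h
  refine ⟨f ^ p ^ e, hCC f hf, ?_⟩
  have hx : ∀ m i : ℕ, (X (e + m) ^ i) ^ p ^ e = X m ^ i := fun m i => by
    rw [← pow_mul, mul_comm, pow_mul, add_comm e m, root_pow_add hr m e]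
  have h2 : f ^ p ^ e - X n ^ (b + 1) = (f - X (e + n) ^ (b + 1)) ^ p ^ e := by
    rw [sub_pow_char_pow, hx]
  rw [h2]
  refine h1.pow_pow e fun s hs => ?_
  obtain ⟨s1, hs1, s2, hs2, rfl⟩ := Submodule.mem_sup.1 hs
  rw [add_pow_char_pow]
  refine Submodule.add_mem_sup (span_pow_pow e ?_ hs1) (span_pow_pow e ?_ hs2)
  · rintro _ ⟨m, i, hm, hi, rfl⟩
    rw [hx]
    exact Submodule.subset_span ⟨m, i, hm, hi, rfl⟩
  · rintro _ ⟨m, l, i, hi, rfl⟩
    rw [hx]
    exact Submodule.subset_span ⟨m, l, i, hi, rfl⟩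

/-! ### Evaluations -/

theorem aeval_mem_SW {q : Polynomial k} (hq : q.natDegree ≤ b) (hj : j ≤ n) :
    aeval (X n) q ∈ SW k X b j := by
  rw [aeval_eq_sum_range]
  refine sum_mem fun i hi => Submodule.smul_mem _ _ (Submodule.subset_span ⟨n, i, hj, ?_, rfl⟩)
  have := Finset.mem_range.1 hi
  omega

theorem aeval_mem_field {q : Polynomial k} {A : IntermediateField k Ω} {a : Ω} (ha : a ∈ A) :
    aeval a q ∈ A := by
  rw [aeval_eq_sum_range]
  exact sum_mem fun i _ => A.smul_mem (pow_mem ha i)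

/-! ### The output -/

/-- The output: a field of the isogeny class with a tight first coordinate. -/
def Out (p : ℕ) (v : RVal Ω) (C : IntermediateField k Ω) : Prop :=
  ∃ (C' : IntermediateField k Ω) (e : ℕ) (X' : ℕ → Ω) (y' : Ω) (b' : ℕ), C ≤ C' ∧
    (∀ f ∈ C', f ^ p ^ e ∈ C) ∧ PR p v C' X' y' (b' + 1) ∧ ¬ p ∣ b' + 1 ∧
    Tgt p v C' X' (-(b' * v (X' 0)))

omit hp [CharP k p] [CharP Ω p] [PerfectRing k p] [IsAlgClosed Ω] in
theorem Out.up {e : ℕ} (h1 : C ≤ C') (h2 : ∀ f ∈ C', f ^ p ^ e ∈ C) (h : Out p v C') :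
    Out p v C := by
  obtain ⟨C'', e', X', y', b', h3, h4, h5⟩ := h
  refine ⟨C'', e' + e, X', y', b', h1.trans h3, fun f hf => ?_, h5⟩
  rw [pow_add, pow_mul]
  exact h2 _ (h4 f hf)

/-! ### The steps -/

omit hp [CharP k p] [CharP Ω p] [PerfectRing k p] [IsAlgClosed Ω] in
theorem PR.cld (hP : PR p v C X y b) : Cld v C := by
  rw [hP.eq]
  exact cld_cadj _ _ _

omit hp [CharP k p] [CharP Ω p] [PerfectRing k p] [IsAlgClosed Ω] in
theorem PR.memX (hP : PR p v C X y b) : X 0 ∈ C := by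
  rw [hP.eq]
  exact le_cadj _ _ _ (self_mem_cadj _ _ _)

omit hp [CharP k p] [CharP Ω p] [PerfectRing k p] [IsAlgClosed Ω] in
theorem PR.memY (hP : PR p v C X y b) : y ∈ C := by
  rw [hP.eq]
  exact self_mem_cadj _ _ _

/-- `y` may be replaced by `y - a`, `a` in the closure of `k(X 0)`. -/
theorem PR.sub {b' : ℕ} (hP : PR p v C X y b) {a : Ω}
    (ha : a ∈ cadj v (⊥ : IntermediateField k Ω) (X 0)) (hl : Lm v (SW k X b' 1) (y - a)) :
    PR p v C X (y - a) b' where
  root := hP.root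
  ne := hP.ne
  neg := hP.neg
  tl := hP.tl.sub_mem (EW.cadj_le 0 ha)
  eq := by
    rw [cadj_sub_mem ha]
    exact hP.eq
  ltr := hl

theorem PR.congr {b' : ℕ} (hP : PR p v C X y b) (hl : Lm v (SW k X b' 1) y) : PR p v C X y b' where
  root := hP.root
  ne := hP.ne
  neg := hP.neg
  tl := hP.tl
  eq := hP.eq
  ltr := hl

/-- **First top letter at `e + 1`**: the field `C(X e)`. -/
theorem step_iso (hP : PR p v C X y (b + 1)) {e : ℕ} {g : Ω} {q : Polynomial k}
    (hg : g ∈ cadj v (⊥ : IntermediateField k Ω) (X e)) (hq : q.natDegree ≤ b + 1)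
    (hy : Lm v (SW k X (b + 1) (e + 2)) (y - g - aeval (X (e + 1)) q))
    (hC' : C' = cadj v (cadj v (⊥ : IntermediateField k Ω) (X e)) (y - g)) :
    C ≤ C' ∧ (∀ f ∈ C', f ^ p ^ e ∈ C) ∧ PR p v C' (fun n => X (e + n)) (y - g) (b + 1) ∧
      Lm v (SW k (fun n => X (e + n)) (b + 1) 2)
        (y - g - aeval ((fun n => X (e + n)) 1) q) := by
  have hr := hP.root
  have hX0 : X e ^ p ^ e = X 0 := by
    have := root_pow_add hr 0 e
    rwa [zero_add] at this
  have hCc' : Cld v C' := by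
    rw [hC']
    exact cld_cadj _ _ _
  have hXe : X e ∈ C' := by
    rw [hC']
    exact le_cadj _ _ _ (self_mem_cadj _ _ _)
  have hgC' : g ∈ C' := by
    rw [hC']
    exact le_cadj _ _ _ hg
  have hyg : y - g ∈ C' := by
    rw [hC']
    exact self_mem_cadj _ _ _
  have hXe0 : X e ≠ 0 := fun h => hP.ne (by
    rw [← hX0, h, zero_pow (pow_ne_zero _ hp.out.ne_zero)])
  have hXev : v (X e) < 0 := by
    have h1 := hP.neg
    rw [← hX0, v.map_pow hXe0] at h1
    by_contra h2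
    exact absurd h1 (not_lt.2 (mul_nonneg (Nat.cast_nonneg _) (not_lt.1 h2)))
  have hSW : ∀ j, SW k X (b + 1) (e + j) ≤ SW k (fun n => X (e + n)) (b + 1) j := by
    intro j
    refine Submodule.span_le.2 ?_
    rintro _ ⟨n, i, hn, hi, rfl⟩
    obtain ⟨d, rfl⟩ := Nat.exists_eq_add_of_le hn
    refine Submodule.subset_span ⟨j + d, i, by omega, hi, ?_⟩
    rw [add_assoc]
  have hl2 : Lm v (SW k (fun n => X (e + n)) (b + 1) 2)
      (y - g - aeval ((fun n => X (e + n)) 1) q) := hy.mono (hSW 2)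
  refine ⟨?_, ?_, ⟨fun n => hr (e + n), hXe0, hXev, ?_, hC', ?_⟩, hl2⟩
  · rw [hP.eq]
    refine cadj_le hCc' (cadj_le hCc' bot_le ?_) ?_
    · rw [← hX0]
      exact pow_mem hXe _
    · have := add_mem hyg hgC'
      rwa [sub_add_cancel] at this
  · have h1 : cadj v (⊥ : IntermediateField k Ω) (X e) ≤ rootF p e C := by
      refine cadj_le (cld_rootFn p e hP.cld) bot_le (mem_rootF.2 ?_)
      rw [hX0]
      exact hP.memX
    have h2 : C' ≤ rootF p e C := by
      rw [hC']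
      refine cadj_le (cld_rootFn p e hP.cld) h1 (sub_mem (mem_rootF.2 (pow_mem hP.memY _))
        (h1 hg))
    exact fun f hf => mem_rootF.1 (h2 hf)
  · have h1 : EW v (⊥ : IntermediateField k Ω) (fun n => X (e + n)) = EW v ⊥ X := by
      have h2 : IntermediateField.adjoin k (Set.range fun n => X (e + n)) =
          IntermediateField.adjoin k (Set.range X) := by
        refine le_antisymm (IntermediateField.adjoin_le_iff.2 ?_)
          (IntermediateField.adjoin_le_iff.2 ?_)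
        · rintro _ ⟨n, rfl⟩
          exact IntermediateField.subset_adjoin k _ ⟨e + n, rfl⟩
        · rintro _ ⟨n, rfl⟩
          rw [← root_pow_add hr n e, add_comm n e]
          have h1 : X (e + n) ∈ IntermediateField.adjoin k (Set.range fun n => X (e + n)) :=
            IntermediateField.subset_adjoin k _ ⟨n, rfl⟩
          exact pow_mem h1 _
      rw [EW, EW, h2]
    rw [h1]
    exact hP.tl.sub_mem (EW.cadj_le e hg)
  · have h1 : y - g = (y - g - aeval ((fun n => X (e + n)) 1) q) +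
        aeval ((fun n => X (e + n)) 1) q := by ring
    rw [h1]
    exact (hl2.mono (SW_mono le_rfl (by norm_num))).add (Lm.of_mem (aeval_mem_SW hq le_rfl))

/-- A top letter at the position `1`. -/
theorem InS_one (h0 : Ctx0 k v) (hyC : y ∈ C) {q : Polynomial k} (hq : q.natDegree = b + 1)
    (hy : Lm v (SW k X (b + 1) 2) (y - aeval (X 1) q)) : InS p v C X b 1 := by
  set a : k := q.leadingCoeff with ha
  have ha0 : a ≠ 0 := by
    rw [ha, Ne, leadingCoeff_eq_zero]
    rintro rfl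
    simp at hq
  refine ⟨algebraMap k Ω a⁻¹ * y, mul_mem (C.algebraMap_mem _) hyC, ?_⟩
  have h1 : aeval (X 1) q = aeval (X 1) q.eraseLead + algebraMap k Ω a * X 1 ^ (b + 1) := by
    conv_lhs => rw [← eraseLead_add_C_mul_X_pow q]
    rw [map_add, map_mul, aeval_C, map_pow, aeval_X, hq]
  have h2 : algebraMap k Ω a⁻¹ * y - X 1 ^ (b + 1) = algebraMap k Ω a⁻¹ * (y - aeval (X 1) q) +
      algebraMap k Ω a⁻¹ * aeval (X 1) q.eraseLead := by
    have h3 : algebraMap k Ω a⁻¹ * algebraMap k Ω a = 1 := by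
      rw [← map_mul, inv_mul_cancel₀ ha0, map_one]
    have h4 : algebraMap k Ω a⁻¹ * (algebraMap k Ω a * X 1 ^ (b + 1)) = X 1 ^ (b + 1) := by
      rw [← mul_assoc, h3, one_mul]
    rw [h1, mul_sub, mul_add, h4]
    ring
  rw [h2]
  refine ((hy.smul h0 a⁻¹).mono le_sup_left).add (Lm.of_mem ((le_sup_right : SA k p X b ≤ _) ?_))
  rw [← Algebra.smul_def]
  refine Submodule.smul_mem _ _ (SW_le_SA (j := 0) (aeval_mem_SW ?_ (Nat.zero_le _)))
  have := eraseLead_natDegree_le q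
  omega

/-- **The change of coordinates.** -/
theorem step_tz (h0 : Ctx0 k v) (hc : CompleteV v) (hP : PR p v C X y (b + 1)) (hb : ¬ p ∣ b + 1)
    {q : Polynomial k} (hq : q.natDegree = b + 1)
    (hy : Lm v (SW k X (b + 1) 2) (y - aeval (X 1) q)) :
    ∃ (T : ℕ → Ω) (q₀ : Polynomial k), (∀ n, T (n + 1) ^ p = T n) ∧ T 0 ∈ C ∧
      aeval (T 0) q = y ∧ v.Ge ((b + 1 : ℕ) * v (X 2) - b * v (X 1)) (T 0 - X 1) ∧
      q₀.natDegree ≤ b + 1 ∧
      Lm v (SW k T (b + 1) 1)
        (y ^ p - aeval (X 0) (q.map (frobenius k p)) - aeval (T 0) q₀) ∧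
      PR p v C T (y ^ p - aeval (X 0) (q.map (frobenius k p)) - aeval (T 0) q₀) (b + 1) ∧
      ∀ n, InS p v C T b n → InS p v C X b (n + 1) := by
  have hr := hP.root
  have hp0 : (0 : ℝ) < p := by exact_mod_cast hp.out.pos
  have hp1 : (1 : ℝ) < p := by exact_mod_cast hp.out.one_lt
  have hgy := Lm_SW_ge h0 hr hP.ne hP.neg hy
  obtain ⟨t, htC, ht, ht1⟩ := exists_t h0 hc hP.cld hr hP.ne hP.neg hP.memX hP.memY hq hb hgy
  obtain ⟨T, hT0, hT⟩ := exists_rts p t
  subst hT0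
  -- the value of `t`
  have hX1 : X 1 ≠ 0 := fun h => hP.ne (by rw [← hr 0, h, zero_pow hp.out.ne_zero])
  have hX2 : X 2 ≠ 0 := fun h => hX1 (by rw [← hr 1, h, zero_pow hp.out.ne_zero])
  have hv1 : v (X 0) = p * v (X 1) := by rw [← hr 0, v.map_pow hX1]
  have hv2 : v (X 1) = p * v (X 2) := by rw [← hr 1, v.map_pow hX2]
  have hneg := hP.neg
  have hn1 : v (X 1) < 0 := by
    by_contra h
    rw [hv1] at hneg
    exact absurd hneg (not_lt.2 (mul_nonneg hp0.le (not_lt.1 h)))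
  have hn2 : v (X 2) < 0 := by
    by_contra h
    rw [hv2] at hn1
    exact absurd hn1 (not_lt.2 (mul_nonneg hp0.le (not_lt.1 h)))
  have hlt : v (X 1) < (b + 1 : ℕ) * v (X 2) - b * v (X 1) := by
    rw [hv2]
    push_cast
    nlinarith [mul_pos (sub_pos.2 hp1) (neg_pos.2 hn2), mul_nonneg (Nat.cast_nonneg (α := ℝ) b)
      (mul_pos (sub_pos.2 hp1) (neg_pos.2 hn2)).le]
  have hgt : Gt v (v (X 1)) (X 1 - T 0) := by
    rw [← neg_sub]
    exact (Gt.of_ge ht1 hlt).neg
  obtain ⟨hT00, hTv⟩ := Gt.val_eq hX1 hgt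
  have hTneg : v (T 0) < 0 := by rw [hTv]; exact hn1
  have hz := z_letters h0 hr hP.ne hP.neg hT hq hb ht ht1 hy
  have htl := TL_z h0 hc hP hT hq hb ht hz
  have hgen := gen_tz h0 hc hr hP.ne hP.neg hP.eq hq hb htC ht ht1
  obtain ⟨q₀, hq0, hl⟩ := Lm_SW_split h0 hT hT00 hTneg hz
  have hmem : aeval (T 0) q₀ ∈ cadj v (⊥ : IntermediateField k Ω) (T 0) :=
    aeval_mem_field (self_mem_cadj _ _ _)
  refine ⟨T, q₀, hT, htC, ht, ht1, hq0, hl, ⟨hT, hT00, hTneg, htl.sub_mem (EW.cadj_le 0 hmem), ?_,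
    hl⟩, fun n h => InS_T h0 hr hP.ne hP.neg hT hq hb ht ht1 hy h⟩
  rw [cadj_sub_mem hmem]
  exact hgen

/-- **All the positions**: `X 0` is tight. -/
theorem tgt_of_all (h0 : Ctx0 k v) (hP : PR p v C X y (b + 1)) (hb : ¬ p ∣ b + 1)
    (h : ∀ n, 1 ≤ n → InS p v C X b n) : Tgt p v C X (-(b * v (X 0))) where
  cld := hP.cld
  mem := hP.memX
  root := hP.root
  dst n := by
    have hX : X (n + 1) ≠ 0 := fun h1 => hP.ne (by
      have h2 := root_pow_add hP.root 0 (n + 1)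
      rw [zero_add, h1, zero_pow (pow_ne_zero _ hp.out.ne_zero)] at h2
      exact h2.symm)
    have h1 : -(b * v (X 0)) / (p : ℝ) ^ (n + 1) = -(b * v (X (n + 1))) := by
      have h2 := root_pow_add hP.root 0 (n + 1)
      rw [zero_add] at h2
      rw [← h2, v.map_pow hX]
      have hp0 : (p : ℝ) ^ (n + 1) ≠ 0 := pow_ne_zero _ (by exact_mod_cast hp.out.ne_zero)
      push_cast
      field_simp
    rw [h1]
    exact ⟨far_X h0 hP n, lim_of_all h0 hP.cld hP.root hP.ne hP.neg hP.memX hb h (n + 1)⟩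

/-- `b = 0` is impossible. -/
theorem not_PR_zero (h0 : Ctx0 k v) (hP : PR p v C X y 0) : False := by
  obtain ⟨h1, h2⟩ := hP.tl.far 0 (isAlgebraic_zero)
  rw [sub_zero] at h2
  obtain ⟨s, hs, h3⟩ := hP.ltr (-(v y) / 2) (by linarith)
  have h4 := SW_ge h0 hP.root hP.ne hP.neg hs
  have h5 := h3.add (h4.mono (show -(-(v y) / 2) ≤ ((0 : ℕ) : ℝ) * v (X 1) by
    rw [Nat.cast_zero, zero_mul]
    linarith))
  rw [sub_add_cancel] at h5
  have := h5 h1
  linarith

/-- **The induction on the number of positions.** -/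
theorem main_aux (h0 : Ctx0 k v) (hc : CompleteV v) (hb : ¬ p ∣ b + 1)
    (ih : ∀ (C : IntermediateField k Ω) (X : ℕ → Ω) (y : Ω), PR p v C X y b → Out p v C) (N : ℕ) :
    ∀ (C : IntermediateField k Ω) (X : ℕ → Ω) (y : Ω), PR p v C X y (b + 1) →
      ¬ InS p v C X b (N + 1) → Out p v C := by
  induction N with
  | zero =>
    intro C X y hP hN
    rcases first_top h0 hP.root hP.ne hP.neg hP.ltr with h1 | ⟨e, g, q, hg, -, hq, hy⟩
    · exact ih C X y (hP.congr h1)
    · obtain ⟨-, h3, h4, h5⟩ := step_iso hP hg hq.le hy rfl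
      exact absurd (InS_isog h0 hP.root h3 (InS_one h0 h4.memY hq h5)) hN
  | succ N ihN =>
    intro C X y hP hN
    rcases first_top h0 hP.root hP.ne hP.neg hP.ltr with h1 | ⟨e, g, q, hg, -, hq, hy⟩
    · exact ih C X y (hP.congr h1)
    · obtain ⟨h2, h3, h4, h5⟩ := step_iso hP hg hq.le hy rfl
      obtain ⟨T, q₀, -, -, -, -, -, -, h6, h7⟩ := step_tz h0 hc h4 hb hq h5
      exact (ihN _ _ _ h6 fun h8 => hN (InS_isog h0 hP.root h3 (h7 _ h8))).up h2 h3

/-- **Main.** -/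
theorem main (h0 : Ctx0 k v) (hc : CompleteV v) (b : ℕ) :
    ∀ (C : IntermediateField k Ω) (X : ℕ → Ω) (y : Ω), PR p v C X y b → Out p v C := by
  induction b with
  | zero => exact fun C X y hP => (not_PR_zero h0 hP).elim
  | succ b ih =>
    intro C X y hP
    by_cases hb : p ∣ b + 1
    · obtain ⟨q, -, hl⟩ := Lm_SW_split h0 hP.root hP.ne hP.neg
        (top_dvd h0 hP.root hP.ne hP.neg hb hP.ltr)
      exact ih C X _ (hP.sub (aeval_mem_field (self_mem_cadj _ _ _)) hl)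
    by_cases hall : ∀ n, 1 ≤ n → InS p v C X b n
    · exact ⟨C, 0, X, y, b, le_rfl, fun f hf => by rwa [pow_zero, pow_one], hP, hb,
        tgt_of_all h0 hP hb hall⟩
    · push Not at hall
      obtain ⟨n, hn, h1⟩ := hall
      obtain ⟨N, rfl⟩ := Nat.exists_eq_add_of_le' hn
      exact main_aux h0 hc hb ih N C X y hP h1

end Pool.Agent.TWC.PF
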