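import Pool.Agent.Lib.TWC.PWa
import Pool.Agent.Lib.TWC.PFb

/-!
# TANK W, class C, row PW: the tame base and generation (PWb)

* `cld_WT`, `RS.mem`, `WT_eq`, `WT_mono`, `pow_mem_WT`: the closed field `WT(x)` of the tame roots;
* `ST_le_EW`, `EWT_perf`: the closure of `WT(X 0)(X 0, X 1, ..)` contains all letters and is perfect;
* `WT_le_of_near`: the tame roots of an element `t ∈ C` near `X 1` are in `C`;
* `gen_tzT`: generation by `(t, z)`.
-/

set_option autoImplicit false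
set_option linter.unusedSectionVars false
set_option linter.unusedVariables false

open Polynomial

namespace Pool.Agent.TWC.PW

open Pool.Agent.H15JM (RVal)
open Pool.Agent.D2 (Ctx0)
open Pool.Agent.D2P (clI mem_clI)
open Pool.Agent.TWM
open Pool.Agent.TWS (VG)
open Pool.Agent.TWC.PF (Lm SW SA)

universe u

variable {k Ω : Type u} [Field k] [Field Ω] [Algebra k Ω] {v : RVal Ω} {Γ : AddSubgroup ℝ}
  {p : ℕ} [hp : Fact p.Prime] [CharP k p] [CharP Ω p] [IsAlgClosed k] [IsAlgClosed Ω]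
  {C C' : IntermediateField k Ω} {X X' T : ℕ → Ω} {y t f s : Ω} {B : ℝ} {b j n m : ℕ}

omit hp [CharP k p] [CharP Ω p] [IsAlgClosed k] [IsAlgClosed Ω] in
theorem cld_WT (x : Ω) : Cld v (WT k p v Γ x) := cld_clI v _

omit hp [CharP k p] [CharP Ω p] [IsAlgClosed k] [IsAlgClosed Ω] in
theorem mem_WT {x f : Ω} (hm : ¬ p ∣ m) (h : f ^ m = x) (hf : v f ∈ Γ) : f ∈ WT k p v Γ x :=
  self_le_clI v _ (IntermediateField.subset_adjoin k _ ⟨m, hm, h, hf⟩)

omit hp [CharP k p] [CharP Ω p] [IsAlgClosed k] [IsAlgClosed Ω] in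
theorem RS.mem (h : RS p v Γ X m X') : X' 0 ∈ WT k p v Γ (X 0) := mem_WT h.nd (h.pow 0) h.val

omit hp [CharP k p] [CharP Ω p] [IsAlgClosed k] [IsAlgClosed Ω] in
/-- A closed field which contains the tame roots of `x` contains `WT(x)`. -/
theorem WT_le {x : Ω} (hC : Cld v C) (h : ∀ (m : ℕ) (f : Ω), ¬ p ∣ m → f ^ m = x → v f ∈ Γ →
    f ∈ C) : WT k p v Γ x ≤ C := by
  refine clI_le' (IntermediateField.adjoin_le_iff.2 ?_) hC
  rintro f ⟨m, hm, h1, h2⟩
  exact h m f hm h1 h2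

omit [CharP k p] in
/-- A tame root is a constant times a member of a system of roots. -/
theorem exists_RS (hr : ∀ n, X (n + 1) ^ p = X n) (hX : X 0 ≠ 0) (hm : ¬ p ∣ m)
    (h : f ^ m = X 0) (hf : v f ∈ Γ) :
    ∃ (X' : ℕ → Ω) (c : k), RS p v Γ X m X' ∧ f = algebraMap k Ω c * X' 0 := by
  have hm0 : m ≠ 0 := by
    rintro rfl
    exact hm (dvd_zero p)
  have hf0 : f ≠ 0 := by
    rintro rfl
    rw [zero_pow hm0] at h
    exact hX h.symm
  obtain ⟨X', hX'⟩ := RS.exists_of_val (v := v) (Γ := Γ) hr hX hm (by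
    rw [← h, v.map_pow hf0, mul_div_cancel_left₀ _ (by exact_mod_cast hm0)]
    exact hf)
  obtain ⟨c, -, hc⟩ := mul_of_pow k hm0 hf0 (hX'.ne hX 0) (by rw [h, hX'.pow])
  exact ⟨X', c, hX', hc⟩

theorem WT_eq (hX : X 0 ≠ 0) (h : RS p v Γ X m X') :
    WT k p v Γ (X 0) = WT k p v Γ (X' 0) := by
  refine le_antisymm (WT_le (cld_WT _) fun l f hl h1 h2 => ?_)
    (WT_le (cld_WT _) fun l f hl h1 h2 => ?_)
  · obtain ⟨X₁, c, hX₁, rfl⟩ := exists_RS (k := k) h.rootX hX hl h1 h2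
    obtain ⟨r, r₁, V, hV, -, -, hc⟩ := RS.common (k := k) hX h hX₁
    obtain ⟨d, -, hd⟩ := hc 0
    rw [hd]
    exact mul_mem (IntermediateField.algebraMap_mem _ _)
      (mul_mem (IntermediateField.algebraMap_mem _ _) (pow_mem hV.mem _))
  · obtain ⟨X₁, c, hX₁, rfl⟩ := exists_RS (k := k) h.root (h.ne hX 0) hl h1 h2
    exact mul_mem (IntermediateField.algebraMap_mem _ _) (h.trans hX₁).mem

omit [CharP k p] in
theorem WT_mono (hr : ∀ n, X (n + 1) ^ p = X n) (hX : X 0 ≠ 0) (hdiv : ∀ g ∈ Γ, g / p ∈ Γ)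
    {e e' : ℕ} (h : e ≤ e') : WT k p v Γ (X e) ≤ WT k p v Γ (X e') := by
  induction e', h using Nat.le_induction with
  | base => exact le_refl _
  | succ e' h ih =>
    refine ih.trans (WT_le (cld_WT _) fun l f hl h1 h2 => ?_)
    obtain ⟨X₁, c, hX₁, rfl⟩ := exists_RS (k := k) (X := fun n => X (e' + n))
      (fun n => hr (e' + n)) (rt_ne hr hX e') hl h1 h2
    have h3 : X₁ 1 ∈ WT k p v Γ (X (e' + 1)) :=
      mem_WT hX₁.nd (hX₁.pow 1) (hX₁.val_mem (rt_ne hr hX e') hdiv 1)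
    rw [← hX₁.root 0]
    exact mul_mem (IntermediateField.algebraMap_mem _ _) (pow_mem h3 p)

omit [CharP k p] [IsAlgClosed k] [IsAlgClosed Ω] in
theorem pow_adjoin_mem {S : Set Ω} {K : IntermediateField k Ω} (hS : ∀ x ∈ S, x ^ p ∈ K) :
    ∀ x ∈ IntermediateField.adjoin k S, x ^ p ∈ K := by
  have hk : ∀ x : k, algebraMap k Ω x ∈ K.toSubfield.comap (frobenius Ω p) := fun x => by
    change frobenius Ω p (algebraMap k Ω x) ∈ K
    rw [frobenius_def, ← map_pow]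
    exact K.algebraMap_mem _
  set K' : IntermediateField k Ω := Subfield.toIntermediateField
    (K.toSubfield.comap (frobenius Ω p)) hk with hK'
  have h1 : ∀ x, x ∈ K' ↔ x ^ p ∈ K := fun x => by
    change frobenius Ω p x ∈ K ↔ x ^ p ∈ K
    rw [frobenius_def]
  have h2 : IntermediateField.adjoin k S ≤ K' :=
    IntermediateField.adjoin_le_iff.2 fun x hx => (h1 x).2 (hS x hx)
  exact fun x hx => (h1 x).1 (h2 hx)

omit [CharP k p] [IsAlgClosed k] [IsAlgClosed Ω] in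
/-- The `p ^ e`-th powers of the elements of `WT(X e)`. -/
theorem pow_mem_WT (hr : ∀ n, X (n + 1) ^ p = X n) (hX : X 0 ≠ 0) (hΓ : v (X 0) ∈ Γ) {e : ℕ}
    {a : Ω} (ha : a ∈ WT k p v Γ (X e)) : a ^ p ^ e ∈ WT k p v Γ (X 0) := by
  induction e generalizing a with
  | zero => rwa [pow_zero, pow_one]
  | succ e ih =>
    rw [pow_succ', pow_mul]
    refine ih (pow_mem_clI p (K := IntermediateField.adjoin k _) (pow_adjoin_mem ?_) a ha)
    rintro f ⟨m, hm, h1, h2⟩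
    have hm0 : m ≠ 0 := by
      rintro rfl
      exact hm (dvd_zero p)
    have hf0 : f ≠ 0 := by
      rintro rfl
      rw [zero_pow hm0] at h1
      exact rt_ne hr hX (e + 1) h1.symm
    refine IntermediateField.subset_adjoin k _ ⟨m, hm, ?_, ?_⟩
    · rw [← pow_mul, mul_comm, pow_mul, h1, hr]
    · rw [v.map_pow hf0, ← nsmul_eq_mul]
      exact Γ.nsmul_mem h2 p

omit [CharP k p] [CharP Ω p] [IsAlgClosed k] [IsAlgClosed Ω] in
/-- The members of a system of tame roots are in `WT(X 0)(X 0, X 1, ..)`. -/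
theorem RS.mem_supX (h : RS p v Γ X m X') (hX : X 0 ≠ 0) (n : ℕ) :
    X' n ∈ WT k p v Γ (X 0) ⊔ IntermediateField.adjoin k (Set.range X) := by
  have h0 : X' n ≠ 0 := h.ne hX n
  have h1 : X' n ^ m ∈ WT k p v Γ (X 0) ⊔ IntermediateField.adjoin k (Set.range X) := by
    rw [h.pow]
    exact (le_sup_right : IntermediateField.adjoin k (Set.range X) ≤ _)
      (IntermediateField.subset_adjoin k _ ⟨n, rfl⟩)
  have h2 : X' n ^ p ^ n ∈ WT k p v Γ (X 0) ⊔ IntermediateField.adjoin k (Set.range X) := by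
    have e : X' n ^ p ^ n = X' 0 := by
      have := EW.pow_pow p h.root 0 n
      rwa [zero_add] at this
    rw [e]
    exact (le_sup_left : WT k p v Γ (X 0) ≤ _) h.mem
  have hcop : IsCoprime (m : ℤ) (p ^ n : ℕ) := by
    rw [Nat.isCoprime_iff_coprime]
    exact (Nat.Coprime.pow_left n ((Nat.Prime.coprime_iff_not_dvd hp.out).2 h.nd)).symm
  obtain ⟨a, b, hab⟩ := hcop
  have e : X' n = (X' n ^ m) ^ a * (X' n ^ p ^ n) ^ b := by
    rw [← zpow_natCast, ← zpow_natCast, ← zpow_mul, ← zpow_mul, ← zpow_add₀ h0,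
      mul_comm (m : ℤ) a, mul_comm ((p ^ n : ℕ) : ℤ) b, hab, zpow_one]
  rw [e]
  exact mul_mem (zpow_mem h1 a) (zpow_mem h2 b)

/-- The letters at the positions `≤ n` (all of them) are in the closure of `WT(X 0)(X 0, X 1, ..)`,
a perfect field. -/
theorem ST_le_EW (hr : ∀ n, X (n + 1) ^ p = X n) (hX : X 0 ≠ 0) (hΓ : v (X 0) ∈ Γ)
    (h : s ∈ ST k p v Γ X B j) : s ∈ EW v (WT k p v Γ (X 0)) X := by
  have h1 : ST k p v Γ X B j ≤ (EW v (WT k p v Γ (X 0)) X).toSubalgebra.toSubmodule := by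
    refine Submodule.span_le.2 ?_
    rintro _ ⟨m, X', n, i, h, -, -, rfl⟩
    exact pow_mem (self_le_clI v _ (h.mem_supX hX n)) i
  exact h1 h

/-- The field generated by all the tame roots of all the `X n`. -/
noncomputable def KT (k : Type u) {Ω : Type u} [Field k] [Field Ω] [Algebra k Ω] (p : ℕ)
    (v : RVal Ω) (Γ : AddSubgroup ℝ) (X : ℕ → Ω) : IntermediateField k Ω :=
  IntermediateField.adjoin k {f | ∃ (m : ℕ) (X' : ℕ → Ω) (n : ℕ), RS p v Γ X m X' ∧ f = X' n}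

theorem EW_eq_KT (hr : ∀ n, X (n + 1) ^ p = X n) (hX : X 0 ≠ 0) (hΓ : v (X 0) ∈ Γ) :
    EW v (WT k p v Γ (X 0)) X = clI v (KT k p v Γ X) := by
  refine le_antisymm (clI_le' (sup_le (WT_le (cld_clI v _) fun l f hl h1 h2 => ?_)
    (IntermediateField.adjoin_le_iff.2 ?_)) (cld_clI v _)) (clI_mono'
      (IntermediateField.adjoin_le_iff.2 ?_))
  · obtain ⟨X₁, c, hX₁, rfl⟩ := exists_RS (k := k) hr hX hl h1 h2
    exact mul_mem (IntermediateField.algebraMap_mem _ _)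
      (self_le_clI v _ (IntermediateField.subset_adjoin k _ ⟨l, X₁, 0, hX₁, rfl⟩))
  · rintro _ ⟨n, rfl⟩
    exact self_le_clI v _ (IntermediateField.subset_adjoin k _ ⟨1, X, n, RS.refl hr hΓ, rfl⟩)
  · rintro _ ⟨m, X', n, h, rfl⟩
    exact h.mem_supX hX n

theorem EWT_perf (hr : ∀ n, X (n + 1) ^ p = X n) (hX : X 0 ≠ 0) (hΓ : v (X 0) ∈ Γ)
    (hdiv : ∀ g ∈ Γ, g / p ∈ Γ) : ∀ a ∈ EW v (WT k p v Γ (X 0)) X,
      ∃ b ∈ EW v (WT k p v Γ (X 0)) X, b ^ p = a := by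
  rw [EW_eq_KT hr hX hΓ]
  refine perf_clI p ?_
  have h1 : ∀ a ∈ (⊥ : IntermediateField k Ω), ∃ b ∈ (⊥ : IntermediateField k Ω), b ^ p = a := by
    intro a ha
    obtain ⟨c, rfl⟩ := IntermediateField.mem_bot.1 ha
    obtain ⟨d, hd⟩ := IsAlgClosed.exists_pow_nat_eq c hp.out.pos
    exact ⟨algebraMap k Ω d, IntermediateField.mem_bot.2 ⟨d, rfl⟩, by rw [← map_pow, hd]⟩
  have h2 := perf_sup p h1 (S := {f | ∃ (m : ℕ) (X' : ℕ → Ω) (n : ℕ), RS p v Γ X m X' ∧ f = X' n})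
    (by
      rintro _ ⟨m, X', n, h, rfl⟩
      exact ⟨X' (n + 1), (le_sup_right : IntermediateField.adjoin k _ ≤ _)
        (IntermediateField.subset_adjoin k _ ⟨m, X', n + 1, h, rfl⟩), h.root n⟩)
  rw [bot_sup_eq] at h2
  exact h2

/-- A tame root of `x`, where `w ^ m` is near to `x`, `w ^ p ∈ C`, `x ∈ C`. -/
theorem root_mem_of_near (h0 : Ctx0 k v) (hc : CompleteV v) (hC : Cld v C) {x w f : Ω}
    (hm : ¬ p ∣ m) (hw0 : w ≠ 0) (hw : v w < 0) (hwC : w ^ p ∈ C) (hxC : x ∈ C)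
    (hx : Gt v (m * v w) (x - w ^ m)) (hf : f ^ m = x) : f ∈ C := by
  have hm0 : m ≠ 0 := by
    rintro rfl
    exact hm (dvd_zero p)
  have hq : (Polynomial.X ^ m : k[X]).natDegree = m := natDegree_X_pow m
  have hqe : ∀ b : Ω, aeval b (Polynomial.X ^ m : k[X]) = b ^ m := fun b => by
    rw [map_pow, aeval_X]
  obtain ⟨c, hc1, hc2⟩ : ∃ c : ℝ, m * v w < c ∧ v.Ge c (x - w ^ m) := by
    by_cases h : x - w ^ m = 0
    · exact ⟨m * v w + 1, by linarith, by rw [h]; exact RVal.Ge.zero⟩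
    · exact ⟨_, hx h, RVal.ge_self _⟩
  obtain ⟨t, ht, -, ht3⟩ := exists_root_near (q := (Polynomial.X ^ m : k[X])) h0
    (by rw [hq]; exact hm) hw0 hw (y := x) (c := c) (by rw [hqe]; exact hc2) (by rw [hq]; exact hc1)
  rw [hqe] at ht
  have h4 : Gt v (v w) (w - t) := by
    have := ht3.neg
    rwa [neg_sub] at this
  obtain ⟨ht0, hvt⟩ := Gt.val_eq hw0 h4
  have h5 : t ∈ C := by
    refine root_near_mem_p (q := (Polynomial.X ^ m : k[X])) (u := w) h0 hc hC
      (by rw [hq]; exact hm) ht0 (by rw [hvt]; exact hw) hwC ?_ (by rw [hqe, ht]; exact hxC)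
    rw [hvt]
    exact ht3
  have hf0 : f ≠ 0 := by
    rintro rfl
    rw [zero_pow hm0] at hf
    rw [← hf] at ht
    exact ht0 (pow_eq_zero_iff hm0 |>.1 ht)
  obtain ⟨d, -, hd⟩ := mul_of_pow k hm0 hf0 ht0 (by rw [hf, ht])
  rw [hd]
  exact mul_mem (IntermediateField.algebraMap_mem _ _) h5

/-- The tame roots of an element `t ∈ C` near `X 1` are in `C`. -/
theorem WT_le_of_near (h0 : Ctx0 k v) (hc : CompleteV v) (hC : Cld v C)
    (hr : ∀ n, X (n + 1) ^ p = X n) (hX : X 0 ≠ 0) (hv : v (X 0) < 0)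
    (hW : WT k p v Γ (X 0) ≤ C) (hdiv : ∀ g ∈ Γ, g / p ∈ Γ) (hΓ : v (X 0) ∈ Γ) (htC : t ∈ C)
    (ht : Gt v (v (X 1)) (t - X 1)) : WT k p v Γ t ≤ C := by
  have hp0 : (0 : ℝ) < p := by exact_mod_cast hp.out.pos
  refine WT_le hC fun l f hl h1 h2 => ?_
  have hl0 : l ≠ 0 := by
    rintro rfl
    exact hl (dvd_zero p)
  have hX1 : X 1 ≠ 0 := rt_ne hr hX 1
  have hv1 : v (X 1) = v (X 0) / p := by
    have := rt_val (v := v) hr hX 1
    rwa [pow_one] at this
  obtain ⟨ht0, hvt⟩ := Gt.val_eq hX1 (by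
    have := ht.neg
    rwa [neg_sub] at this : Gt v (v (X 1)) (X 1 - t))
  have hf0 : f ≠ 0 := by
    rintro rfl
    rw [zero_pow hl0] at h1
    exact ht0 h1.symm
  have hvf : (l : ℝ) * v f = v (X 0) / p := by
    rw [← hv1, ← hvt, ← h1, v.map_pow hf0]
  obtain ⟨X', hX'⟩ := RS.exists_of_val (v := v) (Γ := Γ) hr hX hl (by
    have e : v (X 0) / l = p • v f := by
      rw [nsmul_eq_mul]
      have hl' : (l : ℝ) ≠ 0 := by exact_mod_cast hl0
      field_simp
      field_simp at hvf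
      linarith
    rw [e]
    exact Γ.nsmul_mem h2 p)
  refine root_mem_of_near (w := X' 1) (x := t) h0 hc hC hl (hX'.ne hX 1) ?_ ?_ htC ?_ h1
  · rw [hX'.val_eq hX, hv1]
    exact div_neg_of_neg_of_pos (div_neg_of_neg_of_pos hv hp0)
      (by exact_mod_cast Nat.pos_of_ne_zero hl0)
  · rw [hX'.root]
    exact hW hX'.mem
  · rw [hX'.val_mul hX, hX'.pow]
    exact ht

/-- **Generation by `(t, z)`.** -/
theorem gen_tzT (h0 : Ctx0 k v) (hc : CompleteV v)
    (hr : ∀ n, X (n + 1) ^ p = X n) (hX : X 0 ≠ 0) (hv : v (X 0) < 0) (hΓ : v (X 0) ∈ Γ)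
    (hdiv : ∀ g ∈ Γ, g / p ∈ Γ) (hC : C = cadj v (WT k p v Γ (X 0)) y)
    {q : Polynomial k} (hq : q.natDegree = b + 1) (hb : ¬ p ∣ b + 1) (htC : t ∈ C)
    (ht : aeval t q = y) (ht1 : v.Ge ((b + 1 : ℕ) * v (X 2) - b * v (X 1)) (t - X 1)) :
    C = cadj v (WT k p v Γ t) (y ^ p - aeval (X 0) (q.map (frobenius k p))) := by
  have hp1 : (1 : ℝ) < p := by exact_mod_cast hp.out.one_lt
  have hp0 : (0 : ℝ) < p := by linarith
  have hv1 : v (X 1) = v (X 0) / p ^ 1 := rt_val hr hX 1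
  have hv2 : v (X 2) = v (X 0) / p ^ 2 := rt_val hr hX 2
  have hX1 : X 1 ≠ 0 := rt_ne hr hX 1
  have hCc : Cld v C := by
    rw [hC]
    exact cld_cadj v _ _
  have hWC : WT k p v Γ (X 0) ≤ C := by
    rw [hC]
    exact le_cadj v _ _
  have hXC : X 0 ∈ C := hWC (RS.refl hr hΓ).mem
  have hyC : y ∈ C := by
    rw [hC]
    exact self_mem_cadj v _ _
  -- `t` is near to `X 1`
  have htn : Gt v (v (X 1)) (t - X 1) := by
    refine Gt.of_ge ht1 ?_
    rw [hv1, hv2]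
    push_cast
    have e2 : ((b : ℝ) + 1) * (v (X 0) / p ^ 2) - b * (v (X 0) / p ^ 1) =
        v (X 0) / p * ((b + 1) / p - b) := by
      field_simp
    rw [e2, pow_one]
    have h3 : ((b : ℝ) + 1) / p < b + 1 := div_lt_self (by positivity) hp1
    have h4 : v (X 0) / p < 0 := div_neg_of_neg_of_pos hv hp0
    nlinarith
  obtain ⟨ht0, hvt⟩ := Gt.val_eq hX1 (by
    have := htn.neg
    rwa [neg_sub] at this : Gt v (v (X 1)) (X 1 - t))
  have hvt' : v t = v (X 0) / p := by rw [hvt, hv1, pow_one]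
  have htn' : Gt v (v (X 0)) (X 0 - t ^ p) := by
    have e : X 0 - t ^ p = -(t - X 1) ^ p := by
      have := hr 0
      rw [zero_add] at this
      rw [sub_pow_char, this]
      ring
    rw [e]
    refine (Gt.of_ge (ge_pow ht1 p) ?_).neg
    rw [hv1, hv2]
    push_cast
    have e2 : (p : ℝ) * ((b + 1) * (v (X 0) / p ^ 2) - b * (v (X 0) / p ^ 1)) =
        v (X 0) * ((b + 1) / p - b) := by
      field_simp
    rw [e2]
    have h3 : ((b : ℝ) + 1) / p < b + 1 := div_lt_self (by positivity) hp1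
    nlinarith
  set D := cadj v (WT k p v Γ t) (y ^ p - aeval (X 0) (q.map (frobenius k p))) with hD
  have hDc : Cld v D := cld_cadj v _ _
  have hWD : WT k p v Γ t ≤ D := le_cadj v _ _
  have htD : t ∈ D := hWD (mem_WT (m := 1) (by
    intro h
    exact hp.out.one_lt.ne' (Nat.dvd_one.1 h)) (pow_one t) (by
      rw [hvt']
      exact hdiv _ hΓ))
  have hzD : y ^ p - aeval (X 0) (q.map (frobenius k p)) ∈ D := self_mem_cadj v _ _
  have hyD : y ∈ D := by
    rw [← ht]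
    exact Irr.aeval_mem' htD q
  have hX0D : X 0 ∈ D := by
    refine root_near_mem (u := t ^ p) h0 hDc (q := q.map (frobenius k p)) ?_ hX hv
      (pow_mem htD p) htn' ?_
    · rw [natDegree_map, hq]
      exact hb
    · have e : aeval (X 0) (q.map (frobenius k p)) =
          y ^ p - (y ^ p - aeval (X 0) (q.map (frobenius k p))) := by ring
      rw [e]
      exact sub_mem (pow_mem hyD p) hzD
  have hWXD : WT k p v Γ (X 0) ≤ D := by
    refine WT_le hDc fun l f hl h1 h2 => ?_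
    have hl0 : l ≠ 0 := by
      rintro rfl
      exact hl (dvd_zero p)
    have hl' : (l : ℝ) ≠ 0 := by exact_mod_cast hl0
    have hf0 : f ≠ 0 := by
      rintro rfl
      rw [zero_pow hl0] at h1
      exact hX h1.symm
    have hvf : (l : ℝ) * v f = v (X 0) := by rw [← h1, v.map_pow hf0]
    obtain ⟨g, hg⟩ := IsAlgClosed.exists_pow_nat_eq t (Nat.pos_of_ne_zero hl0)
    have hg0 : g ≠ 0 := by
      rintro rfl
      rw [zero_pow hl0] at hg
      exact ht0 hg.symm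
    have hvg : (l : ℝ) * v g = v (X 0) / p := by rw [← hvt', ← hg, v.map_pow hg0]
    have hvg' : v g = v f / p := by
      have h3 : (l : ℝ) * v g = l * (v f / p) := by
        rw [hvg, ← hvf, mul_div_assoc]
      exact mul_left_cancel₀ hl' h3
    have hgD : g ∈ D := hWD (mem_WT hl hg (by
      rw [hvg']
      exact hdiv _ h2))
    refine root_mem_of_near (w := g ^ p) (x := X 0) h0 hc hDc hl (pow_ne_zero p hg0) ?_
      (pow_mem (pow_mem hgD p) p) hX0D ?_ h1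
    · rw [v.map_pow hg0, hvg', mul_div_cancel₀ _ hp0.ne']
      rw [← hvf] at hv
      exact neg_of_mul_neg_left (by rwa [mul_comm] at hv) (Nat.cast_nonneg l)
    · have e : (g ^ p) ^ l = t ^ p := by rw [← pow_mul, mul_comm, pow_mul, hg]
      rw [e, v.map_pow hg0, hvg', mul_div_cancel₀ _ hp0.ne', hvf]
      exact htn'
  refine le_antisymm ?_ ?_
  · rw [hC]
    exact TWM.cadj_le hDc hWXD hyD
  · exact TWM.cadj_le hCc (WT_le_of_near h0 hc hCc hr hX hv hWC hdiv hΓ htC htn)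
      (sub_mem (pow_mem hyC p) (Irr.aeval_mem' hXC _))

end Pool.Agent.TWC.PW
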