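import Pool.Agent.Lib.TWC.PWa2
import Pool.Agent.Lib.TWC.PWb
import Pool.Agent.Lib.TWC.PFf

/-!
# TANK W, class C: rational letters over a tame base (row PW), the top letters are independent

The monomial `X' n ^ i`, `X'` a system of order `m`, has the degree `i / (m p ^ n)`.
* `Mn δ`: the span of the monomials of a degree `≠ δ`;
* `top_le`: `a X N ^ d + s`, `s` in `Mn (d / p ^ N)`, `a ≠ 0`, has a value `≤ v (X N ^ d)`;
* `topInf`: if the top letters occur at infinitely many positions, then no power of `y` is a twisted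
  polynomial in `X 0 ^ (b + 1)`, modulo the lower letters.
-/

set_option autoImplicit false
set_option linter.unusedSectionVars false

open Polynomial

namespace Pool.Agent.TWC.PW

open Pool.Agent.H15JM (RVal)
open Pool.Agent.D2 (Ctx0)
open Pool.Agent.D2P (clI mem_clI)
open Pool.Agent.TWM
open Pool.Agent.TWC.PF (Lm SW SA)

universe u

/-- The span of the monomials of a degree `≠ δ`. -/
def Mn (k : Type u) {Ω : Type u} [Field k] [Field Ω] [Algebra k Ω] (p : ℕ) (v : RVal Ω)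
    (Γ : AddSubgroup ℝ) (X : ℕ → Ω) (δ : ℝ) : Submodule k Ω :=
  Submodule.span k {g | ∃ (m : ℕ) (X' : ℕ → Ω) (n i : ℕ), RS p v Γ X m X' ∧
    (i : ℝ) ≠ m * (p : ℝ) ^ n * δ ∧ g = X' n ^ i}

/-- The span of the monomials at the positions `≤ e`. -/
def SL (k : Type u) {Ω : Type u} [Field k] [Field Ω] [Algebra k Ω] (p : ℕ) (v : RVal Ω)
    (Γ : AddSubgroup ℝ) (X : ℕ → Ω) (e : ℕ) : Submodule k Ω :=
  Submodule.span k {g | ∃ (m : ℕ) (X' : ℕ → Ω) (n i : ℕ), RS p v Γ X m X' ∧ n ≤ e ∧ g = X' n ^ i}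

variable {k Ω : Type u} [Field k] [Field Ω] [Algebra k Ω] {v : RVal Ω} {Γ : AddSubgroup ℝ}
  {p : ℕ} [hp : Fact p.Prime] [CharP k p] [CharP Ω p] [IsAlgClosed k] [IsAlgClosed Ω]
  {C C' : IntermediateField k Ω} {X X' : ℕ → Ω} {y f s g : Ω} {B δ : ℝ} {b d e j n m N : ℕ}

/-- Refinement of a level. -/
theorem Mn_refine {r L : ℕ} {V : ℕ → Ω} (hr : ∀ n, X' (n + 1) ^ p = X' n) (hr0 : r ≠ 0)
    (hc : ∀ n, ∃ c : k, c ≠ 0 ∧ X' n = algebraMap k Ω c * V n ^ r) (hL : N ≤ L)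
    {P : k[X]} (hP : ∀ i, P.coeff i ≠ 0 → (i : ℝ) ≠ m * (p : ℝ) ^ N * δ) :
    ∃ P' : k[X], aeval (V L) P' = aeval (X' N) P ∧
      ∀ i, P'.coeff i ≠ 0 → (i : ℝ) ≠ (m * r : ℕ) * (p : ℝ) ^ L * δ := by
  obtain ⟨t, rfl⟩ := Nat.exists_eq_add_of_le hL
  obtain ⟨c, -, hcL⟩ := hc (N + t)
  have hp0 : (p : ℝ) ≠ 0 := by exact_mod_cast hp.out.ne_zero
  have hq : 0 < r * p ^ t := Nat.mul_pos (Nat.pos_of_ne_zero hr0) (pow_pos hp.out.pos t)
  refine ⟨expand k (r * p ^ t) (P.comp (C (c ^ p ^ t) * Polynomial.X)), ?_, fun i hi => ?_⟩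
  · rw [expand_aeval, aeval_comp, map_mul, aeval_C, aeval_X, ← root_pow_add hr N t, hcL, mul_pow,
      map_pow, ← pow_mul]
  · rw [coeff_expand hq] at hi
    by_cases hd : r * p ^ t ∣ i
    · obtain ⟨i, rfl⟩ := hd
      rw [if_pos (dvd_mul_right _ _), Nat.mul_div_cancel_left _ hq, comp_C_mul_X_coeff] at hi
      have h1 := hP i (left_ne_zero_of_mul hi)
      intro h2
      refine h1 ?_
      have h3 : ((r : ℝ) * (p : ℝ) ^ t) ≠ 0 :=
        mul_ne_zero (by exact_mod_cast hr0) (pow_ne_zero _ hp0)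
      refine mul_left_cancel₀ h3 ?_
      push_cast at h2
      rw [h2, pow_add]
      ring
    · rw [if_neg hd] at hi
      exact absurd rfl hi

/-- An element of `Mn δ` lives at one level. -/
theorem Mn_level (hr : ∀ n, X (n + 1) ^ p = X n) (hX : X 0 ≠ 0) (hv : v (X 0) ∈ Γ)
    (h : s ∈ Mn k p v Γ X δ) : ∃ (m : ℕ) (X' : ℕ → Ω) (N : ℕ) (P : k[X]), RS p v Γ X m X' ∧
      aeval (X' N) P = s ∧ ∀ i, P.coeff i ≠ 0 → (i : ℝ) ≠ m * (p : ℝ) ^ N * δ := by
  induction h using Submodule.span_induction with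
  | mem x hx =>
    obtain ⟨m, X', n, i, h, hi, rfl⟩ := hx
    refine ⟨m, X', n, Polynomial.X ^ i, h, by rw [map_pow, aeval_X], fun j hj => ?_⟩
    rw [coeff_X_pow] at hj
    by_cases h1 : j = i
    · rwa [h1]
    · rw [if_neg h1] at hj
      exact absurd rfl hj
  | zero => exact ⟨1, X, 0, 0, RS.refl hr hv, map_zero _, fun i hi => absurd (coeff_zero i) hi⟩
  | add x y _ _ hx hy =>
    obtain ⟨m, X', N, P, h, h1, h2⟩ := hx
    obtain ⟨m₁, X₁, N₁, P₁, h₁, h3, h4⟩ := hy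
    obtain ⟨r, r₁, V, hV, hr₁, e, hc⟩ := RS.common (k := k) hX h h₁
    have hr0 : r₁ ≠ 0 := fun h0 => hr₁ (by rw [h0]; exact dvd_zero p)
    obtain ⟨Q, h5, h6⟩ := Mn_refine (L := max N N₁) h.root hV.n_ne (pow_ref hV)
      (le_max_left _ _) h2
    obtain ⟨Q₁, h7, h8⟩ := Mn_refine (L := max N N₁) h₁.root hr0 hc (le_max_right _ _) h4
    refine ⟨m * r, V, max N N₁, Q + Q₁, h.trans hV, by rw [map_add, h5, h7, h1, h3],
      fun i hi => ?_⟩
    by_cases h9 : Q.coeff i = 0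
    · rw [coeff_add, h9, zero_add] at hi
      rw [e]
      exact h8 i hi
    · exact h6 i h9
  | smul a x _ hx =>
    obtain ⟨m, X', N, P, h, h1, h2⟩ := hx
    refine ⟨m, X', N, a • P, h, by rw [map_smul, h1], fun i hi => h2 i fun h0 => hi ?_⟩
    rw [coeff_smul, h0, smul_zero]

/-- **The top letters are independent.** -/
theorem top_le (h0 : Ctx0 k v) (hr : ∀ n, X (n + 1) ^ p = X n) (hX : X 0 ≠ 0) (hv : v (X 0) < 0)
    (hΓ : v (X 0) ∈ Γ) {a : k} (ha : a ≠ 0) (hs : s ∈ Mn k p v Γ X (d / (p : ℝ) ^ N)) {c : ℝ}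
    (h : v.Ge c (algebraMap k Ω a * X N ^ d + s)) : c ≤ d * v (X N) := by
  have hp0 : (p : ℝ) ≠ 0 := by exact_mod_cast hp.out.ne_zero
  obtain ⟨m, X', N', P, hX', h1, h2⟩ := Mn_level hr hX hΓ hs
  obtain ⟨Q, h3, h4⟩ := Mn_refine (L := max N N') hX'.root one_ne_zero
    (fun n => ⟨(1 : k), one_ne_zero, by rw [map_one, one_mul, pow_one]⟩) (le_max_right N N') h2
  rw [mul_one] at h4
  obtain ⟨t, ht⟩ := Nat.exists_eq_add_of_le (le_max_left N N')
  set L := max N N' with hL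
  set E := m * (d * p ^ t) with hE
  have hXN : X N ^ d = X' L ^ E := by
    rw [hE, pow_mul, hX'.pow, ht, mul_comm d, pow_mul, root_pow_add hr N t]
  have hQE : Q.coeff E = 0 := by
    by_contra h5
    refine h4 E h5 ?_
    rw [hE, ht, pow_add]
    push_cast
    field_simp
  have h5 : aeval (X' L) (C a * Polynomial.X ^ E + Q) = algebraMap k Ω a * X N ^ d + s := by
    rw [map_add, map_mul, aeval_C, map_pow, aeval_X, ← hXN, h3, h1]
  rw [← h5] at h
  have h6 := PF.coeff_le h0 hX'.root (hX'.ne hX 0) (hX'.neg hX hv) h (i := E) (by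
    rw [coeff_add, hQE, add_zero, coeff_C_mul, coeff_X_pow_self, mul_one]
    exact ha)
  refine h6.trans (le_of_eq ?_)
  rw [← v.map_pow (hX'.ne hX L), ← hXN, v.map_pow (root_ne_zero hr hX N)]

/-- The exponents: `i p ^ (l + N) = m d p ^ n` is not possible if `p ∤ m d` and `i < m d`. -/
theorem exp_ne {i l D : ℕ} (hD : ¬ p ∣ D) (hi : i < D) (h : i * p ^ (l + N) = D * p ^ n) :
    False := by
  rcases le_or_gt (l + N) n with h1 | h1
  · obtain ⟨t, rfl⟩ := Nat.exists_eq_add_of_le h1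
    have h' : i * p ^ (l + N) = D * p ^ t * p ^ (l + N) := by
      rw [h, pow_add p (l + N) t]
      ring
    have h2 := Nat.eq_of_mul_eq_mul_right (pow_pos hp.out.pos _) h'
    have h3 : D ≤ D * p ^ t := Nat.le_mul_of_pos_right _ (pow_pos hp.out.pos t)
    omega
  · obtain ⟨t, ht⟩ := Nat.exists_eq_add_of_lt h1
    rw [ht, add_assoc, pow_add, mul_comm (p ^ n), ← mul_assoc] at h
    have h2 := Nat.eq_of_mul_eq_mul_right (pow_pos hp.out.pos _) h
    exact hD (h2 ▸ (dvd_pow_self p (Nat.succ_ne_zero t)).mul_left i)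

theorem nd_mul {m d : ℕ} (hm : ¬ p ∣ m) (hd : ¬ p ∣ d) : ¬ p ∣ m * d := fun h =>
  (hp.out.dvd_mul.1 h).elim hm hd

theorem cast_ne {i l : ℕ} (h : i * p ^ (l + N) ≠ m * d * p ^ n) :
    ((i * p ^ l : ℕ) : ℝ) ≠ m * (p : ℝ) ^ n * (d / (p : ℝ) ^ N) := by
  have hp0 : (p : ℝ) ^ N ≠ 0 := pow_ne_zero _ (by exact_mod_cast hp.out.ne_zero)
  intro h1
  refine h ?_
  rw [← mul_div_assoc, eq_div_iff hp0] at h1
  have h2 : ((i * p ^ (l + N) : ℕ) : ℝ) = ((m * d * p ^ n : ℕ) : ℝ) := by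
    push_cast at h1 ⊢
    rw [pow_add, ← mul_assoc, h1]
    ring
  exact_mod_cast h2

theorem SAs_le_Mn (hd : ¬ p ∣ d) : SAs k p v Γ X d ≤ Mn k p v Γ X (d / (p : ℝ) ^ N) := by
  refine Submodule.span_le.2 ?_
  rintro _ ⟨m, X', n, l, i, hX', hi, rfl⟩
  refine Submodule.subset_span ⟨m, X', n, i * p ^ l, hX', cast_ne fun h => ?_, rfl⟩
  exact exp_ne (nd_mul hX'.nd hd) (by exact_mod_cast hi) h

theorem ST_le_Mn (hd0 : 0 < d) :
    ST k p v Γ X d (N + 1) ≤ Mn k p v Γ X (d / (p : ℝ) ^ N) := by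
  refine Submodule.span_le.2 ?_
  rintro _ ⟨m, X', n, i, hX', hn, hi, rfl⟩
  refine Submodule.subset_span ⟨m, X', n, i, hX', ?_, rfl⟩
  have h1 := cast_ne (p := p) (N := N) (m := m) (d := d) (n := n) (i := i) (l := 0) ?_
  · rwa [pow_zero, mul_one] at h1
  · intro h
    rw [zero_add] at h
    obtain ⟨t, rfl⟩ := Nat.exists_eq_add_of_le hn
    have h2 : i ≤ m * d := by exact_mod_cast hi
    have h3 : p ^ (N + 1 + t) = p ^ t * p * p ^ N := by
      rw [pow_add, pow_succ]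
      ring
    rw [h3, ← mul_assoc] at h
    have h4 := Nat.eq_of_mul_eq_mul_right (pow_pos hp.out.pos _) h
    have h5 : 0 < m * d := Nat.mul_pos (Nat.pos_of_ne_zero hX'.n_ne) hd0
    have h6 : 1 < p ^ t * p := (hp.out.one_lt).trans_le
      (Nat.le_mul_of_pos_left _ (pow_pos hp.out.pos t))
    have h7 : m * d < m * d * (p ^ t * p) := (Nat.lt_mul_iff_one_lt_right h5).2 h6
    omega

theorem SL_le_Mn (hd : ¬ p ∣ d) (he : e < N) :
    SL k p v Γ X e ≤ Mn k p v Γ X (d / (p : ℝ) ^ N) := by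
  refine Submodule.span_le.2 ?_
  rintro _ ⟨m, X', n, i, hX', hn, rfl⟩
  refine Submodule.subset_span ⟨m, X', n, i, hX', ?_, rfl⟩
  have h1 := cast_ne (p := p) (N := N) (m := m) (d := d) (n := n) (i := i) (l := 0) ?_
  · rwa [pow_zero, mul_one] at h1
  · intro h
    rw [zero_add] at h
    obtain ⟨t, rfl⟩ := Nat.exists_eq_add_of_lt (hn.trans_lt he)
    rw [add_assoc, pow_add, mul_comm (p ^ n), ← mul_assoc] at h
    have h2 := Nat.eq_of_mul_eq_mul_right (pow_pos hp.out.pos _) h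
    exact nd_mul hX'.nd hd (h2 ▸ (dvd_pow_self p (Nat.succ_ne_zero t)).mul_left i)

theorem aeval_mem_SL (h : RS p v Γ X m X') (hn : n ≤ e) (q : k[X]) :
    aeval (X' n) q ∈ SL k p v Γ X e := by
  rw [aeval_eq_sum_range]
  exact sum_mem fun i _ => Submodule.smul_mem _ _ (Submodule.subset_span ⟨m, X', n, i, h, hn, rfl⟩)

theorem SL_mono {e' : ℕ} (h : e ≤ e') : SL k p v Γ X e ≤ SL k p v Γ X e' := by
  refine Submodule.span_mono ?_
  rintro _ ⟨m, X', n, i, hX', hn, rfl⟩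
  exact ⟨m, X', n, i, hX', hn.trans h, rfl⟩

theorem SL_le_WT (hr : ∀ n, X (n + 1) ^ p = X n) (hX : X 0 ≠ 0) (hdiv : ∀ g ∈ Γ, g / p ∈ Γ)
    (h : s ∈ SL k p v Γ X e) : s ∈ WT k p v Γ (X e) := by
  induction h using Submodule.span_induction with
  | mem x hx =>
    obtain ⟨m, X', n, i, hX', hn, rfl⟩ := hx
    have h1 := RS.mem (k := k) (hX'.shift hX hdiv n)
    simp only [add_zero] at h1
    exact WT_mono hr hX hdiv hn (pow_mem h1 i)
  | zero => exact zero_mem _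
  | add x y _ _ hx hy => exact add_mem hx hy
  | smul a x _ hx => exact IntermediateField.smul_mem _ hx

/-- The letters at the positions `≤ e`. -/
theorem exists_SL (h0 : Ctx0 k v) (hr : ∀ n, X (n + 1) ^ p = X n) (hX : X 0 ≠ 0)
    (hv : v (X 0) < 0) (hΓ : v (X 0) ∈ Γ) (hB : 0 < B) (h : Lm v (ST k p v Γ X B 1) f) (e : ℕ) :
    ∃ g ∈ SL k p v Γ X e, g ∈ ST k p v Γ X B 1 ∧ Lm v (ST k p v Γ X B (e + 1)) (f - g) := by
  induction e with
  | zero => exact ⟨0, zero_mem _, zero_mem _, by rwa [sub_zero]⟩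
  | succ e ih =>
    obtain ⟨g, h1, h2, h3⟩ := ih
    obtain ⟨m, X', q, h4, h5, h6⟩ := Lm_ST_split h0 hr hX hv hΓ hB h3
    refine ⟨g + aeval (X' (e + 1)) q, add_mem (SL_mono (Nat.le_succ e) h1)
      (aeval_mem_SL h4 le_rfl q), add_mem h2 (SW_le_ST h4 h5 (PF.aeval_mem_SW le_rfl
      (Nat.succ_le_succ (Nat.zero_le e)))), ?_⟩
    rwa [← sub_sub]

/-- **The part of exponents in `[B / p, B)` at the position `j`.** -/
theorem Lm_STs_split (h0 : Ctx0 k v) (hr : ∀ n, X (n + 1) ^ p = X n) (hX : X 0 ≠ 0)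
    (hv : v (X 0) < 0) (hΓ : v (X 0) ∈ Γ) (hB : 0 < B) (h : Lm v (STs k p v Γ X B j) f) :
    ∃ (m : ℕ) (X' : ℕ → Ω) (q : Polynomial k), RS p v Γ X m X' ∧ (q.natDegree : ℝ) < m * B ∧
      Lm v (STs k p v Γ X B (j + 1)) (f - aeval (X' j) q) := by
  have hj : v (X j) < 0 := by
    rw [val_rt hr hX j]
    exact div_neg_of_neg_of_pos hv (pow_pos (by exact_mod_cast hp.out.pos) j)
  have hp0 : (0 : ℝ) < p := by exact_mod_cast hp.out.pos
  set δ : ℝ := B / p * -v (X j) / 2 with hδ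
  have hδ0 : 0 < δ := by
    have : 0 < B / p := div_pos hB hp0
    have h2 : 0 < -v (X j) := by linarith
    positivity
  obtain ⟨s₀, hs₀, h1⟩ := h δ hδ0
  obtain ⟨m, b, X', hm, hb, hs₀'⟩ := STs_level hr hX hΓ hB hs₀
  obtain ⟨q₀, hq₀, s₀', hs₀'', rfl⟩ := PF.SW_split hs₀'
  have hq₀' : (q₀.natDegree : ℝ) ≤ b := by exact_mod_cast hq₀
  refine ⟨m, X', q₀, hm, hq₀'.trans_lt hb, fun ε hε => ?_⟩
  obtain ⟨s, hs, h2⟩ := h (min ε δ) (lt_min hε hδ0)
  obtain ⟨m₁, b₁, X₁, hm₁, hb₁, hs'⟩ := STs_level hr hX hΓ hB hs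
  obtain ⟨r, r₁, V, hV, hr₁, e, hc⟩ := RS.common (k := k) hX hm hm₁
  have e' : (m : ℝ) * r = m₁ * r₁ := by exact_mod_cast e
  have hmV := hm.trans hV
  have hmV0 : (0 : ℝ) < (m * r : ℕ) := by exact_mod_cast Nat.pos_of_ne_zero hmV.n_ne
  have hMB : (0 : ℝ) < (m * r : ℕ) * B := mul_pos hmV0 hB
  set c : ℕ := ⌈((m * r : ℕ) : ℝ) * B⌉₊ - 1 with hcdef
  have hc0 : 0 < ⌈((m * r : ℕ) : ℝ) * B⌉₊ := Nat.ceil_pos.2 hMB
  have hle : ∀ i : ℕ, (i : ℝ) < (m * r : ℕ) * B → i ≤ c := fun i hi => by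
    have := Nat.lt_ceil.2 hi
    omega
  have hcB : (c : ℝ) < (m * r : ℕ) * B := Nat.lt_ceil.1 (by omega)
  have hr0 : (0 : ℝ) < r := by exact_mod_cast Nat.pos_of_ne_zero hV.n_ne
  have hr10 : (0 : ℝ) < r₁ := by
    exact_mod_cast Nat.pos_of_ne_zero fun h0 => hr₁ (by rw [h0]; exact dvd_zero p)
  have hrb : r * b ≤ c := by
    refine hle _ ?_
    push_cast
    have := mul_lt_mul_of_pos_left hb hr0
    linarith
  have hrb₁ : r₁ * b₁ ≤ c := by
    refine hle _ ?_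
    push_cast
    rw [e']
    have := mul_lt_mul_of_pos_left hb₁ hr10
    linarith
  have hs2 : s ∈ SW k V c j := PF.SW_mono hrb₁ le_rfl (SW_ref hc hs')
  obtain ⟨q, hq, s', hs'', rfl⟩ := PF.SW_split hs2
  have hs3 : s₀' ∈ SW k V c (j + 1) := PF.SW_mono hrb le_rfl (SW_ref (pow_ref hV) hs₀'')
  have hV0 : V 0 ≠ 0 := hmV.ne hX 0
  have hVv : v (V 0) < 0 := hmV.neg hX hv
  -- the difference
  set Q : Polynomial k := q - expand k r q₀ with hQ
  have hQe : aeval (V j) Q = aeval (V j) q - aeval (X' j) q₀ := by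
    rw [hQ, map_sub, expand_aeval, hV.pow]
  have hQd : Q.natDegree ≤ c := by
    rw [hQ]
    refine (natDegree_sub_le_of_le hq (natDegree_expand r q₀).le).trans (max_le le_rfl ?_)
    calc q₀.natDegree * r = r * q₀.natDegree := mul_comm _ _
      _ ≤ r * b := Nat.mul_le_mul_left r hq₀
      _ ≤ c := hrb
  have hdiff : v.Ge (-δ) (aeval (V j) Q + (s' - s₀')) := by
    have e1 : aeval (V j) Q + (s' - s₀') =
        (f - (aeval (X' j) q₀ + s₀')) - (f - (aeval (V j) q + s')) := by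
      rw [hQe]
      ring
    rw [e1]
    refine h1.sub (h2.mono ?_)
    have := min_le_right ε δ
    linarith
  have hmem : aeval (V j) Q ∈ SW k V c (j + 1) := by
    refine SW_core h0 hV.root hV0 hVv hQd (sub_mem hs'' hs3) (fun i hi => ?_) hdiff
    have h5 : ((m * r : ℕ) : ℝ) * B ≤ i * p := by
      by_contra h6
      have h7 := hle (i * p) (by push_cast at h6 ⊢; exact not_le.1 h6)
      omega
    have h8 : v (V j) = v (X j) / (m * r : ℕ) := hmV.val_eq hX j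
    have h9 : B / p ≤ (i : ℝ) / (m * r : ℕ) := by
      rw [div_le_div_iff₀ hp0 hmV0]
      linarith
    have h10 : (i : ℝ) * v (V j) = (i : ℝ) / (m * r : ℕ) * v (X j) := by
      rw [h8]
      ring
    rw [h10, hδ]
    have h11 : B / p * v (X j) < 0 := mul_neg_of_pos_of_neg (div_pos hB hp0) hj
    have h12 : (i : ℝ) / (m * r : ℕ) * v (X j) ≤ B / p * v (X j) :=
      mul_le_mul_of_nonpos_right h9 hj.le
    linarith
  refine ⟨s' + aeval (V j) Q, SW_le_STs hmV hcB (add_mem hs'' hmem), ?_⟩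
  have e2 : f - aeval (X' j) q₀ - (s' + aeval (V j) Q) = f - (aeval (V j) q + s') := by
    rw [hQe]
    ring
  rw [e2]
  refine h2.mono ?_
  have := min_le_left ε δ
  linarith

/-- **Infinitely many top letters.** -/
theorem topInf (h0 : Ctx0 k v) (hP : PRT p v Γ C X y (b + 1)) (hb : ¬ p ∣ b + 1)
    (hinf : ∀ e, ∀ g ∈ WT k p v Γ (X e), g ∈ ST k p v Γ X (b + 1) 1 →
      ¬ Lm v (STs k p v Γ X (b + 1) (e + 1)) (y - g)) (s n : ℕ) (c : ℕ → k) :
    ¬ Lm v (SAs k p v Γ X (b + 1))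
      (y ^ p ^ s - ∑ j ∈ Finset.range n, algebraMap k Ω (c j) * (X 0 ^ (b + 1)) ^ p ^ j) := by
  intro hcon
  have hr := hP.root
  have hX := hP.ne
  have hB : (0 : ℝ) < (b : ℝ) + 1 := by positivity
  have hroot : ∀ w : k, ∃ z, z ^ p ^ s = w := fun w =>
    IsAlgClosed.exists_pow_nat_eq w (pow_pos hp.out.pos s)
  choose rt hrt using hroot
  set h : Ω := ∑ j ∈ Finset.range n, algebraMap k Ω (rt (c j)) * (X s ^ (b + 1)) ^ p ^ j with hh
  have hhs : h ^ p ^ s =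
      ∑ j ∈ Finset.range n, algebraMap k Ω (c j) * (X 0 ^ (b + 1)) ^ p ^ j := by
    rw [hh, sum_pow_char_pow]
    refine Finset.sum_congr rfl fun j _ => ?_
    have h1 : X s ^ p ^ s = X 0 := by
      have := root_pow_add hr 0 s
      rwa [zero_add] at this
    rw [mul_pow, ← map_pow, hrt, ← h1]
    ring
  -- the letters of `y - h`
  have h1 : Lm v (SAs k p v Γ X (b + 1)) (y - h) := by
    have h2 : ∀ (s : ℕ) (f : Ω), Lm v (SAs k p v Γ X (b + 1)) (f ^ p ^ s) →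
        Lm v (SAs k p v Γ X (b + 1)) f := by
      intro s
      induction s with
      | zero => exact fun f hf => by rwa [pow_zero, pow_one] at hf
      | succ s ih =>
        intro f hf
        rw [pow_succ, pow_mul] at hf
        exact ih f (hf.root fun s hs => SAs_root hs)
    refine h2 s _ ?_
    rw [sub_pow_char_pow, hhs]
    exact hcon
  have hhL : h ∈ SL k p v Γ X s := sum_mem fun j _ => by
    rw [← Algebra.smul_def, ← pow_mul]
    exact Submodule.smul_mem _ _ (Submodule.subset_span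
      ⟨1, X, s, _, RS.refl hr hP.val, le_rfl, rfl⟩)
  -- the letters at the positions `≤ s`
  obtain ⟨g, hg, hg', hl⟩ := exists_SL h0 hr hX hP.neg hP.val hB hP.ltr s
  have hlt := hinf s g (SL_le_WT hr hX hP.div hg) hg'
  have hl' : Lm v (ST k p v Γ (fun n => X (s + n)) (b + 1) 1) (y - g) := by
    rw [ST_shift (k := k) hr hX hP.div s]
    exact hl
  have hXs : v (X s) = v (X 0) / (p : ℝ) ^ s := val_rt hr hX s
  have hp0 : (0 : ℝ) < (p : ℝ) ^ s := pow_pos (by exact_mod_cast hp.out.pos) s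
  have hvs : v (X s) < 0 := by
    rw [hXs]
    exact div_neg_of_neg_of_pos hP.neg hp0
  have hvΓ : v (X s) ∈ Γ := (RS.refl hr hP.val).val_mem hX hP.div s
  rcases first_topT h0 (X := fun n => X (s + n)) (fun n => hr (s + n)) (root_ne_zero hr hX _)
    hvs hvΓ hP.div hl' with h2 | ⟨e, m, V, g', q, hV, -, hg2, hq, hy⟩
  · rw [STs_shift (k := k) hr hX hP.div s] at h2
    exact hlt h2
  obtain ⟨V', hV', hVV⟩ := hV.unshift hr hX s
  set N := s + (e + 1) with hN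
  have hd : ¬ p ∣ b + 1 := hb
  have hq0 : q.leadingCoeff ≠ 0 := by
    rw [Ne, leadingCoeff_eq_zero]
    rintro rfl
    rw [natDegree_zero] at hq
    have : 0 < m * (b + 1) := Nat.mul_pos (Nat.pos_of_ne_zero hV.n_ne) (Nat.succ_pos b)
    omega
  have hcast : ((b + 1 : ℕ) : ℝ) = (b : ℝ) + 1 := by push_cast; rfl
  have hSA : SAs k p v Γ X ((b : ℝ) + 1) ≤ Mn k p v Γ X ((b + 1 : ℕ) / (p : ℝ) ^ N) := by
    rw [← hcast]
    exact SAs_le_Mn hd
  have hVN : V (e + 1) = V' N := by rw [hN, hVV]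
  have h3 : aeval (V (e + 1)) q = aeval (V' N) q.eraseLead +
      algebraMap k Ω q.leadingCoeff * X N ^ (b + 1) := by
    rw [hVN]
    conv_lhs => rw [← eraseLead_add_C_mul_X_pow q]
    rw [map_add, map_mul, aeval_C, map_pow, aeval_X, hq, pow_mul, hV'.pow]
  have hMV : aeval (V' N) q.eraseLead ∈ Mn k p v Γ X ((b + 1 : ℕ) / (p : ℝ) ^ N) := by
    refine hSA (STs_le_SAs (j := 0) (SW_le_STs (b := m * (b + 1) - 1) hV' ?_
      (PF.aeval_mem_SW ?_ (Nat.zero_le _))))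
    · have h4 : m * (b + 1) - 1 < m * (b + 1) := by
        have : 0 < m * (b + 1) := Nat.mul_pos (Nat.pos_of_ne_zero hV.n_ne) (Nat.succ_pos b)
        omega
      exact_mod_cast h4
    · have := eraseLead_natDegree_le q
      omega
  have hMg : g' ∈ Mn k p v Γ X ((b + 1 : ℕ) / (p : ℝ) ^ N) := by
    refine hSA (STs_le_SAs (j := s + 1) ?_)
    rw [← STs_shift (k := k) hr hX hP.div s]
    exact hg2
  have hMs : g - h ∈ Mn k p v Γ X ((b + 1 : ℕ) / (p : ℝ) ^ N) :=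
    SL_le_Mn hd (by omega) (sub_mem hg hhL)
  have key : ∀ ε : ℝ, 0 < ε → -ε ≤ (b + 1 : ℕ) * v (X N) := by
    intro ε hε
    obtain ⟨r₁, hr₁, h5⟩ := h1 ε hε
    obtain ⟨r₂, hr₂, h6⟩ := hy ε hε
    have h7 : r₂ ∈ Mn k p v Γ X ((b + 1 : ℕ) / (p : ℝ) ^ N) := by
      refine ST_le_Mn (Nat.succ_pos b) ?_
      rw [hcast]
      rw [ST_shift (k := k) hr hX hP.div s] at hr₂
      exact hr₂
    refine top_le (d := b + 1) h0 hr hX hP.neg hP.val hq0 (s := aeval (V' N) q.eraseLead + g' +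
      (g - h) + r₂ - r₁) (sub_mem (add_mem (add_mem (add_mem hMV hMg) hMs) h7) (hSA hr₁)) ?_
    have h8 : algebraMap k Ω q.leadingCoeff * X N ^ (b + 1) + (aeval (V' N) q.eraseLead + g' +
        (g - h) + r₂ - r₁) = (y - h - r₁) - (y - g - g' - aeval (V (e + 1)) q - r₂) := by
      rw [h3]
      ring
    rw [h8]
    exact h5.sub h6
  have hN0 : (b + 1 : ℕ) * v (X N) < 0 := by
    rw [val_rt hr hX N]
    exact mul_neg_of_pos_of_neg (by positivity) (div_neg_of_neg_of_pos hP.neg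
      (pow_pos (by exact_mod_cast hp.out.pos) N))
  have := key (-((b + 1 : ℕ) * v (X N)) / 2) (by linarith)
  linarith

end Pool.Agent.TWC.PW
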