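import Pool.Agent.Lib.TWC.PWf
import Pool.Agent.Lib.TWC.PWu

/-!
# TANK W, class C: rational letters over a tame base (row PW), the loop

* `TopLe`, `TopLt`: the letters at the positions `> e` have exponents `≤ β`, `< β`;
* `tri`: the trichotomy for the upper limit `β` of the top exponents;
* `Stg`, `Stgs`: a stage, a chain of stages;
* `loop`: a tight coordinate, or a chain of stages to a field with an upper limit which is exceeded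
  infinitely often, or not attained; or arbitrarily long chains of stages.
-/

set_option autoImplicit false
set_option linter.unusedSectionVars false

open Polynomial

namespace Pool.Agent.TWC.PW

open Pool.Agent.H15JM (RVal)
open Pool.Agent.D2 (Ctx0)
open Pool.Agent.D2P (clI mem_clI rootF mem_rootF)
open Pool.Agent.TWM
open Pool.Agent.TWS (VG)
open Pool.Agent.TWC.PF (Lm SW SA)

universe u

section Defs

variable (k : Type u) {Ω : Type u} [Field k] [Field Ω] [Algebra k Ω]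

/-- The letters at the positions `> e` have exponents `≤ β`. -/
def TopLe (p : ℕ) (v : RVal Ω) (Γ : AddSubgroup ℝ) (X : ℕ → Ω) (y : Ω) (b : ℕ) (β : ℝ) (e : ℕ) :
    Prop :=
  ∃ g ∈ WT k p v Γ (X e), g ∈ STs k p v Γ X (b + 1) 1 ∧ Lm v (ST k p v Γ X β (e + 1)) (y - g)

/-- The letters at the positions `> e` have exponents `< β`. -/
def TopLt (p : ℕ) (v : RVal Ω) (Γ : AddSubgroup ℝ) (X : ℕ → Ω) (y : Ω) (b : ℕ) (β : ℝ) (e : ℕ) :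
    Prop :=
  ∃ g ∈ WT k p v Γ (X e), g ∈ STs k p v Γ X (b + 1) 1 ∧ Lm v (STs k p v Γ X β (e + 1)) (y - g)

/-- The upper limit `β` of the top exponents is exceeded infinitely often. -/
def ExS (p : ℕ) (v : RVal Ω) (Γ : AddSubgroup ℝ) (X : ℕ → Ω) (y : Ω) (b : ℕ) : Prop :=
  ∃ β : ℝ, 0 ≤ β ∧ β ≤ b + 1 ∧ (∀ β', β < β' → ∃ e, TopLe k p v Γ X y b β' e) ∧
    ∀ e, ¬ TopLe k p v Γ X y b β e

/-- The upper limit `β` of the top exponents is not attained. -/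
def ExT (p : ℕ) (v : RVal Ω) (Γ : AddSubgroup ℝ) (X : ℕ → Ω) (y : Ω) (b : ℕ) : Prop :=
  ∃ β : ℝ, 0 < β ∧ β ≤ b + 1 ∧ (∃ e, TopLt k p v Γ X y b β e) ∧
    ∀ β', 0 ≤ β' → β' < β → ∀ e, ¬ TopLe k p v Γ X y b β' e

end Defs

variable {k Ω : Type u} [Field k] [Field Ω] [Algebra k Ω] {v : RVal Ω} {Γ : AddSubgroup ℝ}
  {p : ℕ} [hp : Fact p.Prime] [CharP k p] [CharP Ω p] [IsAlgClosed k] [IsAlgClosed Ω]
  {C C' C₁ C₂ : IntermediateField k Ω} {X X' X₁ X₂ : ℕ → Ω} {y y₁ y₂ f s g : Ω} {B β β' : ℝ}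
  {b b' b₁ b₂ e j n m : ℕ}

theorem TopLe.mono (h : TopLe k p v Γ X y b β e) (hβ : β ≤ β') : TopLe k p v Γ X y b β' e := by
  obtain ⟨g, h1, h2, h3⟩ := h
  exact ⟨g, h1, h2, h3.mono (ST_mono hβ le_rfl)⟩

/-- The next position. -/
theorem TopLe.succ (h0 : Ctx0 k v) (hr : ∀ n, X (n + 1) ^ p = X n) (hX : X 0 ≠ 0)
    (hv : v (X 0) < 0) (hΓ : v (X 0) ∈ Γ) (hdiv : ∀ g ∈ Γ, g / p ∈ Γ) (hβ : 0 < β)
    (hβb : β < b + 1) (h : TopLe k p v Γ X y b β e) : TopLe k p v Γ X y b β (e + 1) := by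
  obtain ⟨g, h1, h2, h3⟩ := h
  obtain ⟨m, X', q, h4, h5, h6⟩ := Lm_ST_split h0 hr hX hv hΓ hβ h3
  have h7 : aeval (X' (e + 1)) q ∈ WT k p v Γ (X (e + 1)) := by
    have h8 := RS.mem (k := k) (h4.shift hX hdiv (e + 1))
    simp only [add_zero] at h8
    exact PF.aeval_mem_field h8
  have h8 : aeval (X' (e + 1)) q ∈ STs k p v Γ X (b + 1) 1 :=
    ST_le_STs hβb (by omega) (SW_le_ST h4 h5 (PF.aeval_mem_SW le_rfl le_rfl) :
      _ ∈ ST k p v Γ X β (e + 1))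
  refine ⟨g + aeval (X' (e + 1)) q, add_mem (WT_mono hr hX hdiv (Nat.le_succ e) h1) h7,
    add_mem h2 h8, ?_⟩
  rwa [← sub_sub]

/-- **The trichotomy.** -/
theorem tri (h0 : Ctx0 k v) (hP : PRT p v Γ C X y (b + 1)) :
    ExS k p v Γ X y b ∨ ExT k p v Γ X y b ∨ ∃ β : ℝ, 0 < β ∧ β ≤ b + 1 ∧
      (∃ e, TopLe k p v Γ X y b β e) ∧ ∀ e, ¬ TopLt k p v Γ X y b β e := by
  set S : Set ℝ := {β | 0 ≤ β ∧ ∃ e, TopLe k p v Γ X y b β e} with hS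
  have hbS : ((b : ℝ) + 1) ∈ S := ⟨by positivity, 0, 0, zero_mem _, zero_mem _, by
    rw [sub_zero]
    exact hP.ltr⟩
  have hbd : BddBelow S := ⟨0, fun β hβ => hβ.1⟩
  have hne : S.Nonempty := ⟨_, hbS⟩
  set β := sInf S with hβ
  have hβ0 : 0 ≤ β := le_csInf hne fun β hβ => hβ.1
  have hβb : β ≤ b + 1 := csInf_le hbd hbS
  by_cases h1 : ∀ e, ¬ TopLe k p v Γ X y b β e
  · refine .inl ⟨β, hβ0, hβb, fun β' hβ' => ?_, h1⟩
    obtain ⟨β₁, ⟨-, e, h2⟩, h3⟩ := exists_lt_of_csInf_lt hne hβ'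
    exact ⟨e, h2.mono h3.le⟩
  push Not at h1
  obtain ⟨e₀, h1⟩ := h1
  have hβ1 : 0 < β := by
    refine hβ0.lt_of_ne fun h2 => ?_
    obtain ⟨g, h3, -, h4⟩ := h1
    rw [← h2] at h4
    have h5 := Lm_ST_ge h0 hP.root hP.ne hP.neg le_rfl h4
    rw [zero_mul] at h5
    have h6 : g ∈ EW v (WT k p v Γ (X 0)) X := by
      rw [← EW_iso hP.root hP.ne hP.val hP.div e₀]
      exact EW.le h3
    obtain ⟨h7, h8⟩ := hP.tl.far g (isAlgebraic_algebraMap (⟨g, h6⟩ : EW v (WT k p v Γ (X 0)) X))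
    exact absurd (h5 (sub_ne_zero.2 h7)) (not_le.2 h8)
  by_cases h2 : ∀ e, ¬ TopLt k p v Γ X y b β e
  · exact .inr (.inr ⟨β, hβ1, hβb, ⟨e₀, h1⟩, h2⟩)
  · push Not at h2
    exact .inr (.inl ⟨β, hβ1, hβb, h2, fun β' h3 h4 e h5 =>
      absurd (csInf_le hbd ⟨h3, e, h5⟩) (not_le.2 h4)⟩)

/-- No letter has the exponent `β`. -/
theorem ST_le_STs_of (h : ∀ (m : ℕ) (X' : ℕ → Ω) (i : ℕ), RS p v Γ X m X' → (i : ℝ) ≠ m * β) :
    ST k p v Γ X β j ≤ STs k p v Γ X β j := by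
  refine Submodule.span_le.2 ?_
  rintro _ ⟨m, X', n, i, hX', hn, hi, rfl⟩
  exact mem_STs hX' hn (hi.lt_of_ne (h m X' i hX'))

/-- The letters of exponent `β = i / m`, `p ∣ i`, move to the previous position. -/
theorem ST_le_STs_dvd (h : RS p v Γ X m X') (hb : ((b₁ : ℝ) + 1) = m * β) (hd : p ∣ b₁ + 1)
    (hβ : 0 < β) : ST k p v Γ X β (j + 1) ≤ STs k p v Γ X β j := by
  refine Submodule.span_le.2 ?_
  rintro _ ⟨m', V, n, i, hV, hn, hi, rfl⟩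
  rcases hi.lt_or_eq with hi | hi
  · exact mem_STs hV (by omega) hi
  · have h1 : m * i = (b₁ + 1) * m' := by
      have : ((m * i : ℕ) : ℝ) = ((b₁ + 1) * m' : ℕ) := by
        push_cast
        rw [hi, hb]
        ring
      exact_mod_cast this
    have h2 : p ∣ i := by
      have h3 : p ∣ m * i := by
        rw [h1]
        exact hd.mul_right m'
      exact (hp.out.dvd_mul.1 h3).resolve_left h.nd
    obtain ⟨c, rfl⟩ := h2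
    obtain ⟨n, rfl⟩ : ∃ n', n = n' + 1 := ⟨n - 1, by omega⟩
    rw [pow_mul, hV.root]
    refine mem_STs hV (by omega) ?_
    rw [← hi]
    have hm' : 0 < (m' : ℝ) * β := mul_pos (by exact_mod_cast Nat.pos_of_ne_zero hV.n_ne) hβ
    rw [← hi] at hm'
    have hc : 0 < c := by
      rcases Nat.eq_zero_or_pos c with rfl | hc
      · simp at hm'
      · exact hc
    exact_mod_cast (lt_mul_iff_one_lt_left hc).2 hp.out.one_lt

/-- **The exponent `β`.** -/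
theorem exists_exp (h0 : Ctx0 k v) (hr : ∀ n, X (n + 1) ^ p = X n) (hX : X 0 ≠ 0)
    (hv : v (X 0) < 0) (hΓ : v (X 0) ∈ Γ) (hdiv : ∀ g ∈ Γ, g / p ∈ Γ) (hβ : 0 < β)
    (hβb : β < b + 1) (h : ∃ e, TopLe k p v Γ X y b β e) (h' : ∀ e, ¬ TopLt k p v Γ X y b β e) :
    ∃ (m : ℕ) (X' : ℕ → Ω) (b₁ : ℕ), RS p v Γ X m X' ∧ ((b₁ : ℝ) + 1) = m * β ∧ ¬ p ∣ b₁ + 1 := by
  obtain ⟨e, h1⟩ := h
  obtain ⟨g, h2, h3, h4⟩ := h1.succ h0 hr hX hv hΓ hdiv hβ hβb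
  by_cases h5 : ∀ (m : ℕ) (X' : ℕ → Ω) (i : ℕ), RS p v Γ X m X' → (i : ℝ) ≠ m * β
  · exact absurd ⟨g, h2, h3, h4.mono (ST_le_STs_of h5)⟩ (h' (e + 1))
  push Not at h5
  obtain ⟨m, X', i, hX', hi⟩ := h5
  have hi0 : 0 < i := by
    have h6 : (0 : ℝ) < i := by
      rw [hi]
      exact mul_pos (by exact_mod_cast Nat.pos_of_ne_zero hX'.n_ne) hβ
    exact_mod_cast h6
  obtain ⟨b₁, rfl⟩ : ∃ b₁, i = b₁ + 1 := ⟨i - 1, by omega⟩
  rw [Nat.cast_add, Nat.cast_one] at hi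
  refine ⟨m, X', b₁, hX', hi, fun hd => ?_⟩
  obtain ⟨m', V, q, h6, h7, h8⟩ := Lm_STs_split h0 hr hX hv hΓ hβ
    (h4.mono (ST_le_STs_dvd (j := e + 1) hX' hi hd hβ))
  refine h' (e + 1) ⟨g + aeval (V (e + 1)) q, add_mem h2 ?_, add_mem h3 ?_, by rwa [← sub_sub]⟩
  · have h9 := RS.mem (k := k) (h6.shift hX hdiv (e + 1))
    simp only [add_zero] at h9
    exact PF.aeval_mem_field h9
  · exact ST_le_STs hβb (by omega) (SW_le_ST h6 h7.le (PF.aeval_mem_SW le_rfl le_rfl) :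
      _ ∈ ST k p v Γ X β (e + 1))

/-! ### Stages -/

/-- The beginning of a stage. -/
structure Ini (p : ℕ) (v : RVal Ω) (Γ : AddSubgroup ℝ) (C : IntermediateField k Ω)
    (X : ℕ → Ω) (y : Ω) (b e : ℕ) (g : Ω) (m : ℕ) (C₁ : IntermediateField k Ω) (X₁ : ℕ → Ω)
    (b₁ : ℕ) : Prop where
  hg : g ∈ WT k p v Γ (X e)
  hg' : g ∈ STs k p v Γ X (b + 1) 1
  le : C ≤ C₁
  isog : ∀ f ∈ C₁, f ^ p ^ e ∈ C
  hP : PRT p v Γ C₁ (fun n => X (e + n)) (y - g) (b + 1)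
  rs : RS p v Γ (fun n => X (e + n)) m X₁
  lt : b₁ + 1 < m * (b + 1)
  nd : ¬ p ∣ b₁ + 1
  hP₁ : PRT p v Γ C₁ X₁ (y - g) (b₁ + 1)
  inf : ∀ e', ∀ g' ∈ WT k p v Γ (X₁ e'), g' ∈ ST k p v Γ X₁ (b₁ + 1) 1 →
    ¬ Lm v (STs k p v Γ X₁ (b₁ + 1) (e' + 1)) (y - g - g')

/-- **The beginning of a stage.** -/
theorem exists_ini (h0 : Ctx0 k v) (hP : PRT p v Γ C X y (b + 1)) (hβ : 0 < β)
    (hβb : β < b + 1) (h : ∃ e, TopLe k p v Γ X y b β e) (h' : ∀ e, ¬ TopLt k p v Γ X y b β e) :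
    ∃ (e : ℕ) (g : Ω) (m : ℕ) (C₁ : IntermediateField k Ω) (X₁ : ℕ → Ω) (b₁ : ℕ),
      Ini p v Γ C X y b e g m C₁ X₁ b₁ := by
  have hr := hP.root
  have hX := hP.ne
  obtain ⟨m, X', b₁, hX', hb₁, hnd⟩ := exists_exp h0 hr hX hP.neg hP.val hP.div hβ hβb h h'
  obtain ⟨e, g, hg, hg', hl⟩ := h
  have hsh : ∀ (B : ℝ) (j : ℕ), ST k p v Γ (fun n => X (e + n)) B j = ST k p v Γ X B (e + j) :=
    fun B j => ST_shift hr hX hP.div e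
  obtain ⟨h1, h2, h3⟩ := hP.iso (B' := β) hg (by rw [hsh]; exact hl) rfl
  have hX₁ := hX'.shift hX hP.div e
  have hX1 : (fun n => X (e + n)) 0 ≠ 0 := root_ne_zero hr hX _
  have hlt : b₁ + 1 < m * (b + 1) := by
    have h4 : ((b₁ : ℝ) + 1) < m * (b + 1) := by
      rw [hb₁]
      exact mul_lt_mul_of_pos_left hβb (by exact_mod_cast Nat.pos_of_ne_zero hX'.n_ne)
    exact_mod_cast h4
  refine ⟨e, g, m, _, fun n => X' (e + n), b₁, hg, hg', h1, h2, h3.congr (h3.ltr.mono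
    (ST_mono hβb.le le_rfl)), hX₁, hlt, hnd, ?_, fun e' g' hg1 hg2 hl' => ?_⟩
  · have h4 := h3.ren hX₁
    rwa [← hb₁] at h4
  · have h5 : WT k p v Γ (X' (e + e')) = WT k p v Γ (X (e + e')) := by
      have h6 := WT_eq (k := k) (X := fun n => X (e + e' + n)) (root_ne_zero hr hX _)
        (hX'.shift hX hP.div (e + e'))
      simpa using h6.symm
    have h6 : g' ∈ ST k p v Γ X β (e + 1) := by
      rw [hb₁] at hg2
      rw [ST_shift (k := k) hX'.root (hX'.ne hX 0) hP.div e, ← ST_eq (k := k) hX hX'] at hg2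
      exact hg2
    refine h' (e + e') ⟨g + g', add_mem (WT_mono hr hX hP.div (Nat.le_add_right e e') hg)
      (h5 ▸ hg1), add_mem hg' (ST_le_STs hβb (by omega) h6), ?_⟩
    rw [← sub_sub]
    rw [hb₁, STs_shift (k := k) hX'.root (hX'.ne hX 0) hP.div e, ← STs_eq (k := k) hX hX'] at hl'
    exact hl'

/-- No power of `y` is a twisted polynomial in the top letter, modulo the lower letters. -/
theorem Ini.topInf {C₁ : IntermediateField k Ω} (h0 : Ctx0 k v)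
    (h : Ini p v Γ C X y b e g m C₁ X₁ b₁) (s n : ℕ) (c : ℕ → k) :
    ¬ Lm v (SAs k p v Γ X₁ (b₁ + 1)) ((y - g) ^ p ^ s -
      ∑ j ∈ Finset.range n, algebraMap k Ω (c j) * (X₁ 0 ^ (b₁ + 1)) ^ p ^ j) :=
  PW.topInf h0 h.hP₁ h.nd h.inf s n c

/-- One stage. -/
structure Stg (p : ℕ) [Fact p.Prime] [CharP k p] (v : RVal Ω) (Γ : AddSubgroup ℝ)
    (C : IntermediateField k Ω) (X : ℕ → Ω) (y : Ω) (b : ℕ) (C' : IntermediateField k Ω)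
    (X' : ℕ → Ω) (y' : Ω) (b' : ℕ) : Prop where
  ex : ∃ (e : ℕ) (g : Ω) (m : ℕ) (C₁ : IntermediateField k Ω) (X₁ : ℕ → Ω) (b₁ : ℕ),
    Ini p v Γ C X y b e g m C₁ X₁ b₁ ∧ Chn p v Γ C₁ X₁ (y - g) b₁ C' X' y' b'
  ltr : Lm v (STs k p v Γ X' (b' + 1) 1) y'

/-- Chains of stages. -/
inductive Stgs (p : ℕ) [Fact p.Prime] [CharP k p] (v : RVal Ω) (Γ : AddSubgroup ℝ) :
    ℕ → IntermediateField k Ω → (ℕ → Ω) → Ω → ℕ → IntermediateField k Ω → (ℕ → Ω) → Ω → ℕ → Prop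
  | refl (C : IntermediateField k Ω) (X : ℕ → Ω) (y : Ω) (b : ℕ) : Stgs p v Γ 0 C X y b C X y b
  | step {n : ℕ} {C C₁ C₂ : IntermediateField k Ω} {X X₁ X₂ : ℕ → Ω} {y y₁ y₂ : Ω}
      {b b₁ b₂ : ℕ} (h : Stg p v Γ C X y b C₁ X₁ y₁ b₁) (h' : Stgs p v Γ n C₁ X₁ y₁ b₁ C₂ X₂ y₂ b₂) :
      Stgs p v Γ (n + 1) C X y b C₂ X₂ y₂ b₂

theorem Stg.inv (h : Stg p v Γ C X y b C₁ X₁ y₁ b₁) :
    C ≤ C₁ ∧ (∃ e : ℕ, ∀ f ∈ C₁, f ^ p ^ e ∈ C) ∧ PRT p v Γ C₁ X₁ y₁ (b₁ + 1) ∧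
      ¬ p ∣ b₁ + 1 ∧ Lm v (STs k p v Γ X₁ (b₁ + 1) 1) y₁ := by
  obtain ⟨⟨e, g, m, C₂, X₂, b₂, h1, h2⟩, h3⟩ := h
  obtain ⟨h4, ⟨e', h5⟩, h6, h7⟩ := h2.inv h1.hP₁ h1.nd
  refine ⟨h1.le.trans h4, ⟨e' + e, fun f hf => ?_⟩, h6, h7, h3⟩
  rw [pow_add, pow_mul]
  exact h1.isog _ (h5 f hf)

theorem Ini.isoR {C₁ : IntermediateField k Ω} (h : Ini p v Γ C X y b e g m C₁ X₁ b₁)
    (hP : PRT p v Γ C X y (b + 1)) : IsoR p v Γ C C₁ :=
  .step hP h.hg h.le h.isog h.hP (.refl _)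

theorem Stg.isoR (h : Stg p v Γ C X y b C₁ X₁ y₁ b₁) (hP : PRT p v Γ C X y (b + 1)) :
    IsoR p v Γ C C₁ := by
  obtain ⟨⟨e, g, m, C₂, X₂, b₂, h1, h2⟩, h3⟩ := h
  exact (h1.isoR hP).trans (h2.isoR h1.hP₁ h1.nd)

theorem Stgs.inv (h : Stgs p v Γ n C X y b C₁ X₁ y₁ b₁) (hP : PRT p v Γ C X y (b + 1))
    (hb : ¬ p ∣ b + 1) (hl : Lm v (STs k p v Γ X (b + 1) 1) y) :
    C ≤ C₁ ∧ (∃ e : ℕ, ∀ f ∈ C₁, f ^ p ^ e ∈ C) ∧ PRT p v Γ C₁ X₁ y₁ (b₁ + 1) ∧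
      ¬ p ∣ b₁ + 1 ∧ Lm v (STs k p v Γ X₁ (b₁ + 1) 1) y₁ := by
  induction h with
  | refl C X y b => exact ⟨le_rfl, ⟨0, fun f hf => by rwa [pow_zero, pow_one]⟩, hP, hb, hl⟩
  | step h h' ih =>
    obtain ⟨h1, ⟨e, h2⟩, h3, h4, h5⟩ := h.inv
    obtain ⟨h6, ⟨e', h7⟩, h8⟩ := ih h3 h4 h5
    refine ⟨h1.trans h6, ⟨e' + e, fun f hf => ?_⟩, h8⟩
    rw [pow_add, pow_mul]
    exact h2 _ (h7 f hf)

theorem Stgs.isoR (h : Stgs p v Γ n C X y b C₁ X₁ y₁ b₁) (hP : PRT p v Γ C X y (b + 1)) :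
    IsoR p v Γ C C₁ := by
  induction h with
  | refl C X y b => exact .refl _
  | step h h' ih =>
    obtain ⟨-, -, h3, -, -⟩ := h.inv
    exact (h.isoR hP).trans (ih h3)

theorem Stgs.trans (h : Stgs p v Γ n C X y b C₁ X₁ y₁ b₁)
    (h' : Stgs p v Γ m C₁ X₁ y₁ b₁ C₂ X₂ y₂ b₂) : Stgs p v Γ (n + m) C X y b C₂ X₂ y₂ b₂ := by
  induction h with
  | refl C X y b =>
    rw [zero_add]
    exact h'
  | step h _ ih =>
    rw [Nat.add_right_comm]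
    exact .step h (ih h')

/-- A field of the isogeny class with a tight coordinate. -/
def OutT (p : ℕ) (v : RVal Ω) (Γ : AddSubgroup ℝ) (C : IntermediateField k Ω) : Prop :=
  ∃ (C' : IntermediateField k Ω) (X' : ℕ → Ω) (y' : Ω) (b' : ℕ), IsoR p v Γ C C' ∧
    PRT p v Γ C' X' y' (b' + 1) ∧ ¬ p ∣ b' + 1 ∧ Tgt p v C' X' (-(b' * v (X' 0)))

theorem OutT.up (h1 : IsoR p v Γ C C') (h : OutT p v Γ C') : OutT p v Γ C := by
  obtain ⟨C'', X', y', b', h3, h4⟩ := h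
  exact ⟨C'', X', y', b', h1.trans h3, h4⟩

/-- **One stage.** -/
theorem one_stage (h0 : Ctx0 k v) (hc : CompleteV v) (hP : PRT p v Γ C X y (b + 1))
    (hl : Lm v (STs k p v Γ X (b + 1) 1) y) :
    OutT p v Γ C ∨ ExS k p v Γ X y b ∨ ExT k p v Γ X y b ∨
      ∃ (C' : IntermediateField k Ω) (X' : ℕ → Ω) (y' : Ω) (b' : ℕ),
        Stg p v Γ C X y b C' X' y' b' := by
  rcases tri h0 hP with h | h | ⟨β, hβ, hβb, h, h'⟩
  · exact .inr (.inl h)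
  · exact .inr (.inr (.inl h))
  have hβb' : β < b + 1 := by
    refine hβb.lt_of_ne fun h1 => h' 0 ⟨0, zero_mem _, zero_mem _, ?_⟩
    rw [h1, sub_zero]
    exact hl
  obtain ⟨e, g, m, C₁, X₁, b₁, h1⟩ := exists_ini h0 hP hβ hβb' h h'
  rcases stage h0 hc h1.hP₁ h1.nd with h2 | ⟨C', X', y', b', h3, h4, h5, h6, h7, h8⟩
  · exact .inl ⟨C₁, X₁, _, b₁, h1.isoR hP, h1.hP₁, h1.nd, h2⟩
  · exact .inr (.inr (.inr ⟨C', X', y', b', ⟨⟨e, g, m, C₁, X₁, b₁, h1, h3⟩, h8⟩⟩))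

/-- **The loop.** -/
theorem loop (h0 : Ctx0 k v) (hc : CompleteV v) (hP : PRT p v Γ C X y (b + 1))
    (hb : ¬ p ∣ b + 1) (hl : Lm v (STs k p v Γ X (b + 1) 1) y) :
    OutT p v Γ C ∨
      (∃ (n : ℕ) (C' : IntermediateField k Ω) (X' : ℕ → Ω) (y' : Ω) (b' : ℕ),
        Stgs p v Γ n C X y b C' X' y' b' ∧ (ExS k p v Γ X' y' b' ∨ ExT k p v Γ X' y' b')) ∨
      ∀ n, ∃ (C' : IntermediateField k Ω) (X' : ℕ → Ω) (y' : Ω) (b' : ℕ),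
        Stgs p v Γ n C X y b C' X' y' b' := by
  by_contra hcon
  push Not at hcon
  obtain ⟨h1, h2, n, h3⟩ := hcon
  refine absurd ?_ (not_exists.2 fun C' => not_exists.2 fun X' => not_exists.2 fun y' =>
    not_exists.2 fun b' => h3 C' X' y' b')
  clear h3
  induction n with
  | zero => exact ⟨C, X, y, b, .refl _ _ _ _⟩
  | succ n ih =>
    obtain ⟨C', X', y', b', h4⟩ := ih
    obtain ⟨-, -, h7, h8, h9⟩ := h4.inv hP hb hl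
    obtain ⟨h10, h11⟩ := h2 n C' X' y' b' h4
    rcases one_stage h0 hc h7 h9 with h | h | h | ⟨C₂, X₂, y₂, b₂, h⟩
    · exact absurd (h.up (h4.isoR hP)) h1
    · exact absurd h h10
    · exact absurd h h11
    · exact ⟨C₂, X₂, y₂, b₂, h4.trans (.step h (.refl _ _ _ _))⟩

end Pool.Agent.TWC.PW
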