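import Pool.Agent.Lib.TWC.PWg1
import Pool.Agent.Lib.TWC.PWt

/-!
# TANK W, class C: rational letters over a tame base (row PW), the exit `ExT`

* `TopLe.nearB`, `topLe_of_nearB`: the letters and the gaps;
* `tgt_of_lt`: if the upper limit `β` of the top exponents is not attained from the position `e` on,
  then `X (e + ·)` is tight of level `-(β - 1) v (X e)` in `C(X e)`;
* `loopB`: the loop without the exit `ExT`.
-/

set_option autoImplicit false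
set_option linter.unusedSectionVars false

open Polynomial

namespace Pool.Agent.TWC.PW

open Pool.Agent.H15JM (RVal)
open Pool.Agent.D2 (Ctx0)
open Pool.Agent.D2P (clI mem_clI rootF mem_rootF)
open Pool.Agent.TWM
open Pool.Agent.TWS (VG)
open Pool.Agent.TWTR (NearB)
open Pool.Agent.TWC.PF (Lm SW SA)

universe u

variable {k Ω : Type u} [Field k] [Field Ω] [Algebra k Ω] {v : RVal Ω} {Γ : AddSubgroup ℝ}
  {p : ℕ} [hp : Fact p.Prime] [CharP k p] [CharP Ω p] [IsAlgClosed k] [IsAlgClosed Ω]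
  {C C' : IntermediateField k Ω} {X X' : ℕ → Ω} {y f s g z : Ω} {B β β' M : ℝ}
  {b b' e i j l n m N : ℕ}

/-- **The letters bound the gaps.** -/
theorem TopLe.nearB (h0 : Ctx0 k v) (hP : PRT p v Γ C X y B) (hβ : 0 < β)
    (h : TopLe k p v Γ X y b β e) (hj : e ≤ j) :
    NearB p v (WT k p v Γ (X 0)) 0 j (β * -v (X 0)) y := by
  obtain ⟨g, h1, -, h2⟩ := h
  obtain ⟨g', h3, h4⟩ := Lm_ST_le h0 hP.root hP.ne hP.neg hP.val hP.div hβ h1 h2 hj
  exact nearB_of_Lm h0 hP.root hP.ne hP.neg hP.val hβ.le h3 h4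

/-- **The gaps bound the letters.** -/
theorem topLe_of_nearB (h0 : Ctx0 k v) (hP : PRT p v Γ C X y B) (hβ : 0 < β)
    (hl : Lm v (STs k p v Γ X (b + 1) 1) y)
    (hn : ∀ j, e ≤ j → NearB p v (WT k p v Γ (X 0)) 0 j (β * -v (X 0)) y) :
    TopLe k p v Γ X y b β e :=
  Lm_of_nearB h0 hP.root hP.ne hP.neg hP.val hP.div hβ hl hn

/-- The gaps over `WT(X e)`. -/
theorem nearB_unshift (hr : ∀ n, X (n + 1) ^ p = X n) (hX : X 0 ≠ 0) (hΓ : v (X 0) ∈ Γ)
    (hdiv : ∀ g ∈ Γ, g / p ∈ Γ) (hg : g ∈ WT k p v Γ (X e))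
    (h : NearB p v (WT k p v Γ (X e)) 0 j (β * -v (X e)) (y - g)) :
    NearB p v (WT k p v Γ (X 0)) 0 (e + j) (β * -v (X 0)) y := fun ε hε => by
  obtain ⟨a, ha, h1⟩ := h ε hε
  have h2 : a ∈ WT k p v Γ (X (e + j)) :=
    root_mem_WT (X := fun n => X (e + n)) (fun n => hr (e + n)) (root_ne_zero hr hX _) hdiv ha
  have h3 : g ∈ WT k p v Γ (X (e + j)) := WT_mono hr hX hdiv (Nat.le_add_right e j) hg
  refine ⟨a + g, pow_mem_WT hr hX hΓ (add_mem h2 h3), ?_⟩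
  have e1 : y - (a + g) = y - g - a := by ring
  rw [e1]
  refine h1.mono (le_of_eq ?_)
  have e2 : (p : ℝ) ^ (e + j + 1) = (p : ℝ) ^ e * (p : ℝ) ^ (j + 1) := by rw [add_assoc, pow_add]
  rw [val_rt hr hX e, e2]
  have := (p_ps p e).ne'
  have := (p_ps p (j + 1)).ne'
  field_simp

/-- The gaps over `WT(X e)`. -/
theorem nearB_shift (hr : ∀ n, X (n + 1) ^ p = X n) (hX : X 0 ≠ 0) (hΓ : v (X 0) ∈ Γ)
    (hdiv : ∀ g ∈ Γ, g / p ∈ Γ) (hg : g ∈ WT k p v Γ (X e))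
    (h : NearB p v (WT k p v Γ (X 0)) 0 (e + j) (β * -v (X 0)) y) :
    NearB p v (WT k p v Γ (X e)) 0 j (β * -v (X e)) (y - g) := fun ε hε => by
  obtain ⟨a, ha, h1⟩ := h ε hε
  have h2 : a ∈ WT k p v Γ (X (e + j)) := root_mem_WT hr hX hdiv ha
  have h3 : g ∈ WT k p v Γ (X (e + j)) := WT_mono hr hX hdiv (Nat.le_add_right e j) hg
  have hΓe : v (X e) ∈ Γ := (RS.refl hr hΓ).val_mem hX hdiv e
  refine ⟨a - g, pow_mem_WT (X := fun n => X (e + n)) (fun n => hr (e + n))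
    (root_ne_zero hr hX _) hΓe (sub_mem h2 h3), ?_⟩
  have e1 : y - g - (a - g) = y - a := by ring
  rw [e1]
  refine h1.mono (le_of_eq ?_)
  have e2 : (p : ℝ) ^ (e + j + 1) = (p : ℝ) ^ e * (p : ℝ) ^ (j + 1) := by rw [add_assoc, pow_add]
  rw [val_rt hr hX e, e2]
  have := (p_ps p e).ne'
  have := (p_ps p (j + 1)).ne'
  field_simp

/-- **The upper limit `β` is not attained**: `X (e + ·)` is tight in `C(X e)`. -/
theorem tgt_of_lt (h0 : Ctx0 k v) (hc : CompleteV v) (hP : PRT p v Γ C X y B) (hβ : 0 < β)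
    (hl : Lm v (STs k p v Γ X (b + 1) 1) y) (hg : g ∈ WT k p v Γ (X e))
    (hlt : Lm v (STs k p v Γ X β (e + 1)) (y - g))
    (hno : ∀ β', 0 ≤ β' → β' < β → ∀ e, ¬ TopLe k p v Γ X y b β' e)
    (hC' : C' = cadj v (WT k p v Γ (X e)) (y - g)) :
    C ≤ C' ∧ (∀ f ∈ C', f ^ p ^ e ∈ C) ∧ PRT p v Γ C' (fun n => X (e + n)) (y - g) β ∧
      Tgt p v C' (fun n => X (e + n)) (-((β - 1) * v (X e))) := by
  have hr := hP.root
  have hX := hP.ne
  set Y : ℕ → Ω := fun n => X (e + n) with hY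
  have hY0 : Y 0 = X e := rfl
  have hlY : Lm v (STs k p v Γ Y β 1) (y - g) := by
    rw [hY, STs_shift (k := k) hr hX hP.div e]
    exact hlt
  obtain ⟨h1, h2, hP'⟩ := hP.iso (B' := β) hg (hlY.mono STs_le_ST) hC'
  have hrY := hP'.root
  have hXY := hP'.ne
  have hvY := hP'.neg
  have hΓY := hP'.val
  have hW : WT k p v Γ (X e) ≤ C' := hP'.WT_le
  have hm : 0 < β * -v (X e) := mul_pos hβ (by
    rw [← hY0]
    linarith)
  have hlt' : ∀ j, ∃ m' < β * -v (X e), NearB p v (WT k p v Γ (X e)) 0 j m' (y - g) := by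
    intro j
    obtain ⟨g', h3, h4⟩ := Lm_STs_le (X := Y) (e := 0) (g := 0) h0 hrY hXY hvY hΓY hP.div hβ
      (zero_mem _) (by rwa [sub_zero]) (Nat.zero_le j)
    obtain ⟨β', h5, -, h6⟩ := nearB_lt_of_Lm h0 hrY hXY hvY hΓY hβ h3 h4
    exact ⟨β' * -v (Y 0), mul_lt_mul_of_pos_right h5 (by linarith), h6⟩
  have hlim : ∀ m' < β * -v (X e), ∀ j₀ : ℕ, ∃ j ≥ j₀,
      ¬ NearB p v (WT k p v Γ (X e)) 0 j m' (y - g) := by
    intro m' hm' j₀
    by_contra hcon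
    push Not at hcon
    have hvn : 0 < -v (X e) := by
      rw [← hY0]
      linarith
    have hβ₁ : max (m' / -v (X e)) (β / 2) < β := by
      refine max_lt ?_ (by linarith)
      rw [div_lt_iff₀ hvn]
      exact hm'
    have hβ₁0 : 0 < max (m' / -v (X e)) (β / 2) := lt_max_of_lt_right (by linarith)
    refine hno _ hβ₁0.le hβ₁ (e + j₀) (topLe_of_nearB h0 hP hβ₁0 hl fun j hj => ?_)
    obtain ⟨t, rfl⟩ := Nat.exists_eq_add_of_le hj
    rw [add_assoc]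
    refine nearB_unshift hr hX hP.val hP.div hg ?_
    refine (hcon (j₀ + t) (Nat.le_add_right _ _)).mono (by exact_mod_cast hp.out.pos) ?_
    have h3 : m' / -v (X e) * -v (X e) = m' := div_mul_cancel₀ _ hvn.ne'
    calc m' = m' / -v (X e) * -v (X e) := h3.symm
      _ ≤ _ := mul_le_mul_of_nonneg_right (le_max_left _ _) hvn.le
  have hBH := TWTR.bh_of_lt (hP'.memY) hlt' hlim
  have hLt := lt_WT (k := k) (X := Y) h0 hc hrY hXY hvY hΓY hP.div
  have hlet := TWTR.lim_letter (X := Y) (q := v (Y 0) + 0) hm hW (hLt.shf h0 hm hW hBH) hLt.mem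
    hXY hrY hLt.dst (by
      have h3 : (1 : ℝ) ≤ p := by exact_mod_cast hp.out.one_lt.le
      have h4 := mul_nonneg (sub_nonneg.2 h3) hm.le
      linarith)
  refine ⟨h1, h2, hP', ⟨hP'.cld, hP'.memX, hrY, fun n => ⟨?_, ?_⟩⟩⟩
  · have h3 := far_XB h0 hβ hP' n
    have e1 : -((β - 1) * v (X e)) / (p : ℝ) ^ (n + 1) = -((β - 1) * v (Y (n + 1))) := by
      rw [val_rt hrY hXY (n + 1), hY0]
      ring
    rw [e1]
    exact h3
  · have h3 := hlet n
    have e1 : -((β - 1) * v (X e)) / (p : ℝ) ^ (n + 1) =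
        (v (Y 0) + 0 + β * -v (X e)) / (p : ℝ) ^ (n + 1) := by
      rw [hY0]
      ring
    rw [e1]
    exact h3

/-- A field of the isogeny class with a tight coordinate, real exponent. -/
def OutB (p : ℕ) (v : RVal Ω) (Γ : AddSubgroup ℝ) (C : IntermediateField k Ω) : Prop :=
  ∃ (C' : IntermediateField k Ω) (X' : ℕ → Ω) (y' : Ω) (B : ℝ), IsoR p v Γ C C' ∧ 0 < B ∧
    PRT p v Γ C' X' y' B ∧ Tgt p v C' X' (-((B - 1) * v (X' 0)))

theorem OutB.up (h1 : IsoR p v Γ C C') (h : OutB p v Γ C') : OutB p v Γ C := by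
  obtain ⟨C'', X', y', b', h3, h4⟩ := h
  exact ⟨C'', X', y', b', h1.trans h3, h4⟩

theorem OutT.outB (h : OutT p v Γ C) : OutB p v Γ C := by
  obtain ⟨C', X', y', b', h1, h2, h3, h4⟩ := h
  refine ⟨C', X', y', b' + 1, h1, by positivity, h2, ?_⟩
  rwa [add_sub_cancel_right]

/-- **The upper limit is not attained.** -/
theorem ExT.outB (h0 : Ctx0 k v) (hc : CompleteV v) (hP : PRT p v Γ C X y (b + 1))
    (hl : Lm v (STs k p v Γ X (b + 1) 1) y) (h : ExT k p v Γ X y b) : OutB p v Γ C := by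
  obtain ⟨β, h1, h2, ⟨e, g, h3, h4, h5⟩, h6⟩ := h
  obtain ⟨h7, h8, h9, h10⟩ := tgt_of_lt h0 hc hP h1 hl h3 h5 h6 rfl
  exact ⟨_, fun n => X (e + n), y - g, β, .step hP h3 h7 h8 h9 (.refl _), h1, h9, h10⟩

/-- **The loop**, with two exits. -/
theorem loopB (h0 : Ctx0 k v) (hc : CompleteV v) (hP : PRT p v Γ C X y (b + 1))
    (hb : ¬ p ∣ b + 1) (hl : Lm v (STs k p v Γ X (b + 1) 1) y) :
    OutB p v Γ C ∨
      (∃ (n : ℕ) (C' : IntermediateField k Ω) (X' : ℕ → Ω) (y' : Ω) (b' : ℕ),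
        Stgs p v Γ n C X y b C' X' y' b' ∧ ExS k p v Γ X' y' b') ∨
      ∀ n, ∃ (C' : IntermediateField k Ω) (X' : ℕ → Ω) (y' : Ω) (b' : ℕ),
        Stgs p v Γ n C X y b C' X' y' b' := by
  rcases loop h0 hc hP hb hl with h | ⟨n, C', X', y', b', h, h' | h'⟩ | h
  · exact .inl h.outB
  · exact .inr (.inl ⟨n, C', X', y', b', h, h'⟩)
  · obtain ⟨-, -, h1, -, h2⟩ := h.inv hP hb hl
    exact .inl (.up (h.isoR hP) (h'.outB h0 hc h1 h2))
  · exact .inr (.inr h)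

end Pool.Agent.TWC.PW
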