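import Pool.Agent.Lib.TWC.PWh
import Pool.Agent.Lib.TWC.PWg
import Pool.Agent.Lib.TWC.TPow

/-!
# TANK W, class C: rational letters over a tame base (row PW), deep remainders

The upper limit `B` of the exponents is not attained (the letters have exponents `< B`, `X` is tight
of level `-(B - 1) v (X 0)` in `C`): `y` has remainders in `C` of values which are not values of
`WT(X L)`, `L` arbitrary.

* `vg_WT`, `not_vg_psn`: the values of `WT(X e)`;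
* `nr_STs`: the letters of exponents `< B` are near to `C`;
* `exT_deep`, `exT_deep_h`: the deep remainders;
* `ExT.data`: the data of the exit `ExT`.
-/

set_option autoImplicit false
set_option linter.unusedSectionVars false

open Polynomial

namespace Pool.Agent.TWC.PW

open Pool.Agent.H15JM (RVal)
open Pool.Agent.D2 (Ctx0)
open Pool.Agent.D2P (clI mem_clI rootF mem_rootF)
open Pool.Agent.TWM
open Pool.Agent.TWS (VG IsoE)
open Pool.Agent.TWC.PF (Lm SW SA)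

universe u

variable {k Ω : Type u} [Field k] [Field Ω] [Algebra k Ω] {v : RVal Ω} {Γ : AddSubgroup ℝ}
  {p : ℕ} [hp : Fact p.Prime] [CharP k p] [CharP Ω p] [IsAlgClosed k] [IsAlgClosed Ω]
  {C : IntermediateField k Ω} {X X' : ℕ → Ω} {y f s g z : Ω} {A : ℝ → Prop} {B ρ : ℝ}
  {e i j n m N L : ℕ} {σ : Ω →ₐ[k] Ω} {κ : k}

/-- **The values of `WT(X 0)`.** -/
theorem vg_WT (h0 : Ctx0 k v) (hr : ∀ n, X (n + 1) ^ p = X n) (hX : X 0 ≠ 0)
    (hv : v (X 0) < 0) (hΓ : v (X 0) ∈ Γ) {g : ℝ} (hg : g ∈ VG v (WT k p v Γ (X 0))) :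
    ∃ (m : ℕ) (a : ℤ), ¬ p ∣ m ∧ g * m = a * v (X 0) := by
  obtain ⟨a, ha, ha0, h1⟩ := hg
  obtain ⟨b, hb, h2⟩ := mem_clI.1 ha (v a + 1)
  obtain ⟨hb0, hbv⟩ := Gt.val_eq ha0 (Gt.of_ge h2 (by linarith))
  obtain ⟨m, X', P, Q, hX', hQ, rfl⟩ := adj_level0 hr hX hΓ hb
  have hx0 : X' 0 ≠ 0 := hX'.ne hX 0
  have hxv : v (X' 0) < 0 := hX'.neg hX hv
  obtain ⟨hQ0, hQv⟩ := kpp_val h0 hx0 hxv hQ
  have hP : P ≠ 0 := by
    rintro rfl
    rw [map_zero, zero_div] at hb0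
    exact hb0 rfl
  obtain ⟨hP0, hPv⟩ := kpp_val h0 hx0 hxv hP
  rw [div_eq_mul_inv, v.map_mul hP0 (inv_ne_zero hQ0), v.map_inv hQ0, hPv, hQv, h1] at hbv
  have h3 := hX'.val_mul hX 0
  refine ⟨m, (P.natDegree : ℤ) - Q.natDegree, hX'.nd, ?_⟩
  rw [← hbv, ← h3]
  push_cast
  ring

/-- The values of `WT(X e)`. -/
theorem not_vg_psn (h0 : Ctx0 k v) (hr : ∀ n, X (n + 1) ^ p = X n) (hX : X 0 ≠ 0)
    (hv : v (X 0) < 0) (hΓ : v (X 0) ∈ Γ) (hdiv : ∀ g ∈ Γ, g / p ∈ Γ) (hρ : 0 ≤ ρ)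
    (h : ¬ Psn p e ρ) : ρ * v (X 0) ∉ VG v (WT k p v Γ (X e)) := by
  intro hg
  have hve : v (X e) = v (X 0) / p ^ e := val_rt hr hX e
  have hpe := p_ps p e
  have hvn : v (X e) < 0 := by
    rw [hve]
    exact div_neg_of_neg_of_pos hv hpe
  obtain ⟨m, a, hm, h1⟩ := vg_WT (X := fun n => X (e + n)) h0 (fun n => hr (e + n))
    (root_ne_zero hr hX _) hvn ((RS.refl hr hΓ).val_mem hX hdiv e) hg
  simp only [add_zero] at h1
  rw [hve] at h1
  have h2 : ρ * (m * (p : ℝ) ^ e) = a := by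
    have h3 : (ρ * (m * (p : ℝ) ^ e) - a) * v (X 0) = 0 := by
      have h4 : a * (v (X 0) / p ^ e) * (p : ℝ) ^ e = a * v (X 0) := by
        field_simp
      linear_combination ((p : ℝ) ^ e) * h1 + h4
    rcases mul_eq_zero.1 h3 with h4 | h4
    · linarith
    · exact absurd h4 hv.ne
  have ha : 0 ≤ a := by
    have : (0 : ℝ) ≤ a := by
      rw [← h2]
      positivity
    exact_mod_cast this
  refine h ⟨m, a.toNat, hm, ?_⟩
  rw [h2]
  have := Int.toNat_of_nonneg ha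
  exact_mod_cast this.symm

omit [IsAlgClosed Ω] [CharP k p] [CharP Ω p] in
theorem LA_sig (hr : ∀ n, X (n + 1) ^ p = X n) (hX : X 0 ≠ 0) (h : Eig σ (X 0)) :
    ∀ s ∈ LA k p v Γ X A, σ s ∈ LA k p v Γ X A := by
  intro s hs
  induction hs using Submodule.span_induction with
  | mem g hg =>
    obtain ⟨m, X', n, i, hX', hi, rfl⟩ := hg
    obtain ⟨ξ, hξ⟩ := h.rs hr hX hX' n
    rw [ev_pow hξ, ← Algebra.smul_def]
    exact Submodule.smul_mem _ _ (Submodule.subset_span ⟨m, X', n, i, hX', hi, rfl⟩)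
  | zero => rw [map_zero]; exact zero_mem _
  | add x z _ _ hx hz => rw [map_add]; exact add_mem hx hz
  | smul c x _ hx => rw [map_smul]; exact Submodule.smul_mem _ _ hx

/-! ### The strict letters are near to `C` -/

theorem nr'_add {r : ℝ} (hf : Nr' v C r f) (hg : Nr' v C r g) : Nr' v C r (f + g) := by
  obtain ⟨a, ha, h1⟩ := hf
  obtain ⟨b, hb, h2⟩ := hg
  refine ⟨a + b, add_mem ha hb, ?_⟩
  rw [add_sub_add_comm]
  exact h1.add h2

/-- A strict letter. -/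
theorem nr_letter (hr : ∀ n, X (n + 1) ^ p = X n) (hX : X 0 ≠ 0) (hv : v (X 0) < 0)
    (hT : Tgt p v C X (-((B - 1) * v (X 0)))) (hX' : RS p v Γ X m X') (h0' : X' 0 ∈ C)
    (hi : (i : ℝ) < m * B) : Nr' v C 0 (X' n ^ i) := by
  have hm := hX'.mc
  have hB : 0 < B := by
    have h1 : (0 : ℝ) ≤ i := Nat.cast_nonneg i
    by_contra h2
    have := mul_nonpos_of_nonneg_of_nonpos hm.le (not_lt.1 h2)
    linarith
  rcases Nat.eq_zero_or_pos n with rfl | hn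
  · refine ⟨_, pow_mem h0' i, ?_⟩
    rw [sub_self]
    exact Gt.zero
  have hpn := p_ps p n
  have hXn : X n ≠ 0 := root_ne_zero hr hX n
  have hX'n : X' n ≠ 0 := hX'.ne hX n
  have hvn : v (X n) = v (X 0) / p ^ n := val_rt hr hX n
  have hvn' : v (X' n) = v (X n) / m := hX'.val_eq hX n
  set δ : ℝ := -(B * v (X 0)) / p ^ n with hδ
  have hδ0 : 0 < δ := by
    refine div_pos ?_ hpn
    have := mul_neg_of_pos_of_neg hB hv
    linarith
  -- `X n`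
  have h1 : Lim v C (v (X n) + δ) (X n) := by
    have h2 := (hT.dst (n - 1)).near
    rw [Nat.sub_add_cancel hn] at h2
    have h3 : v (X n) + δ = -((B - 1) * v (X 0)) / p ^ n := by
      rw [hvn, hδ, ← add_div]
      ring_nf
    rw [h3]
    exact h2
  -- `X' n`
  have hcop : IsCoprime (m : ℤ) ((p : ℤ) ^ n) := by
    refine IsCoprime.pow_right ?_
    rw [Nat.isCoprime_iff_coprime]
    exact ((Nat.Prime.coprime_iff_not_dvd hp.out).2 hX'.nd).symm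
  obtain ⟨a, b, hab⟩ := hcop
  have h2 : X' n = X' 0 ^ b * X n ^ a := by
    have e1 : X' 0 = X' n ^ ((p : ℤ) ^ n) := by
      have := root_pow_add hX'.root 0 n
      rw [zero_add] at this
      rw [← this, ← zpow_natCast]
      push_cast
      rfl
    have e2 : X n = X' n ^ (m : ℤ) := by rw [zpow_natCast, hX'.pow]
    rw [e1, e2, ← zpow_mul, ← zpow_mul, ← zpow_add₀ hX'n,
      show (p : ℤ) ^ n * b + m * a = 1 by rw [← hab]; ring, zpow_one]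
  have hX'0 : X' 0 ≠ 0 := hX'.ne hX 0
  have h3 : Lim v C (v (X' n) + δ) (X' n) :=
    lim_rel hXn (zpow_mem h0' b) (zpow_ne_zero b hX'0) h2 hδ0 h1
  have h4 : Lim v C (v (X' n ^ i) + δ) (X' n ^ i) :=
    lim_rel (c₀ := 1) (m := (i : ℤ)) hX'n (one_mem C) one_ne_zero
      (by rw [one_mul, zpow_natCast]) hδ0 h3
  have h5 : 0 < v (X' n ^ i) + δ := by
    rw [v.map_pow hX'n, hvn', hvn, hδ]
    have e : (i : ℝ) * (v (X 0) / p ^ n / m) + -(B * v (X 0)) / p ^ n =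
        (m * B - i) * (-v (X 0)) / (m * p ^ n) := by
      field_simp
      ring
    rw [e]
    exact div_pos (mul_pos (by linarith) (by linarith)) (mul_pos hm hpn)
  obtain ⟨c, hc, h6⟩ := h4 ((v (X' n ^ i) + δ) / 2) (by linarith)
  exact ⟨c, hc, Gt.of_ge h6 (by linarith)⟩

/-- **The letters of exponents `< B`.** -/
theorem nr_STs (h0 : Ctx0 k v) (hr : ∀ n, X (n + 1) ^ p = X n) (hX : X 0 ≠ 0) (hv : v (X 0) < 0)
    (hT : Tgt p v C X (-((B - 1) * v (X 0)))) (hW : WT k p v Γ (X 0) ≤ C)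
    (hs : s ∈ STs k p v Γ X B j) : Nr' v C 0 s := by
  induction hs using Submodule.span_induction with
  | mem g hg =>
    obtain ⟨m, X', n, i, hX', -, hi, rfl⟩ := hg
    exact nr_letter hr hX hv hT hX' (hW hX'.mem) hi
  | zero => exact ⟨0, zero_mem _, by rw [sub_self]; exact Gt.zero⟩
  | add x z _ _ hx hz => exact nr'_add hx hz
  | smul c x _ hx =>
    obtain ⟨a, ha, h1⟩ := hx
    refine ⟨c • a, IntermediateField.smul_mem _ ha, ?_⟩
    rw [← smul_sub, Algebra.smul_def]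
    have := h1.mul_ge (h0.ge c)
    rwa [add_zero, mul_comm] at this

/-! ### The deep remainders -/

/-- The decomposition of `y`. -/
theorem exT_aux (h0 : Ctx0 k v) (hr : ∀ n, X (n + 1) ^ p = X n) (hX : X 0 ≠ 0)
    (hv : v (X 0) < 0) (hΓ : v (X 0) ∈ Γ) (hdiv : ∀ g ∈ Γ, g / p ∈ Γ)
    {e₀ e₁ w : Ω} {ε : ℝ}
    (h₁ : e₁ ∈ LA k p v Γ X (fun ρ => ¬ Psn p L ρ))
    (hy : v.Ge (-ε) (y - (e₀ + e₁))) (hno : ¬ v.Ge (-ε) (y - e₀)) (hw : Gt v (-ε) (w - (y - e₀))) :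
    w ≠ 0 ∧ v w ∉ VG v (WT k p v Γ (X L)) := by
  obtain ⟨m, X', N, P, hX', rfl, hP⟩ := LA_level hr hX hΓ h₁
  have hP0 : P ≠ 0 := by
    rintro rfl
    rw [map_zero, add_zero] at hy
    exact hno hy
  have hx0 : X' N ≠ 0 := hX'.ne hX N
  have hvX : v (X' N) = v (X 0) / (m * p ^ N) := by
    rw [hX'.val_eq hX, val_rt hr hX, div_div, mul_comm ((p : ℝ) ^ N)]
  have hmN : (0 : ℝ) < m * p ^ N := mul_pos hX'.mc (p_ps p N)
  have hxv : v (X' N) < 0 := by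
    rw [hvX]
    exact div_neg_of_neg_of_pos hv hmN
  obtain ⟨hne, hval⟩ := kpp_val h0 hx0 hxv hP0
  set e₁ := aeval (X' N) P with he₁
  have hlt : v e₁ < -ε := by
    by_contra h2
    refine hno ?_
    have h3 : v.Ge (-ε) e₁ := fun _ => not_lt.1 h2
    have e : y - e₀ = (y - (e₀ + e₁)) + e₁ := by ring
    rw [e]
    exact hy.add h3
  have h3 : Gt v (v e₁) (e₁ - w) := by
    have e : e₁ - w = -(y - (e₀ + e₁)) - (w - (y - e₀)) := by ring
    rw [e]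
    refine Gt.sub (Gt.of_ge hy hlt).neg (fun h4 => hlt.trans (hw h4))
  obtain ⟨h4, h5⟩ := h3.val_eq hne
  refine ⟨h4, ?_⟩
  rw [h5, hval, hvX]
  have hlead : P.coeff P.natDegree ≠ 0 := by
    rw [coeff_natDegree]
    exact leadingCoeff_ne_zero.2 hP0
  have h6 := not_vg_psn h0 hr hX hv hΓ hdiv (by positivity) (hP _ hlead)
  have e : (P.natDegree : ℝ) * (v (X 0) / (m * p ^ N)) =
      (P.natDegree : ℝ) / (m * p ^ N) * v (X 0) := by ring
  rw [e]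
  exact h6

/-- **The deep remainders.** -/
theorem exT_deep (h0 : Ctx0 k v) (hP : PRT p v Γ C X y B)
    (hl : Lm v (STs k p v Γ X B 1) y) (hT : Tgt p v C X (-((B - 1) * v (X 0))))
    (hno : ∀ L, ¬ Lim v (WT k p v Γ (X L)) 0 y) (L : ℕ) :
    ∃ f ∈ C, ∃ e ∈ WT k p v Γ (X L), e ∈ STs k p v Γ X B 1 ∧ Gt v 0 (f - e) ∧ y - f ≠ 0 ∧
      v (y - f) ∉ VG v (WT k p v Γ (X L)) := by
  have hr := hP.root
  have hX := hP.ne
  have h1 := hno L
  rw [Lim] at h1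
  push Not at h1
  obtain ⟨ε, hε, h1⟩ := h1
  obtain ⟨s, hs, h2⟩ := hl ε hε
  obtain ⟨e₀, he₀, e₁, he₁, rfl⟩ := LA_split (Psn p L) (STs_le_LA hs)
  have hW0 : e₀ ∈ WT k p v Γ (X L) :=
    SL_le_WT hr hX hP.div (LA_le_SL (LA_mono (fun ρ h => h.2) he₀))
  have hS0 : e₀ ∈ STs k p v Γ X B 1 := LA_le_STs (LA_mono (fun ρ h => h.1) he₀)
  obtain ⟨f, hf, h3⟩ := nr_STs h0 hr hX hP.neg hT (hP.eq ▸ le_cadj _ _ _) hS0
  have h4 : Gt v 0 (f - e₀) := by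
    rw [← neg_sub]
    exact h3.neg
  have h5 := h1 e₀ hW0
  rw [zero_sub] at h5
  obtain ⟨h6, h7⟩ := exT_aux (w := y - f) h0 hr hX hP.neg hP.val hP.div
    (LA_mono (fun ρ h => h.2) he₁) h2 h5 (by
      have e : y - f - (y - e₀) = -(f - e₀) := by ring
      rw [e]
      exact (fun h8 => by
        have := h4.neg h8
        linarith))
  exact ⟨f, hf, e₀, hW0, hS0, h4, h6, h7⟩

/-- **The deep remainders, homogeneous.** -/
theorem exT_deep_h (h0 : Ctx0 k v) (hσ : IsoE v v σ) (hN : (N : k) ≠ 0)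
    (hP : PRT p v Γ C X y B) (hH : Hg σ N C X y) (hκ : σ y = algebraMap k Ω κ * y)
    (hl : Lm v (STs k p v Γ X B 1) y) (hT : Tgt p v C X (-((B - 1) * v (X 0))))
    (hCσ : ∀ a ∈ C, σ a ∈ C)
    (hno : ∀ L, ¬ Lim v (WT k p v Γ (X L)) 0 y) (L : ℕ) :
    ∃ f ∈ C, ∃ e ∈ WT k p v Γ (X L), e ∈ STs k p v Γ X B 1 ∧ Gt v 0 (f - e) ∧ y - f ≠ 0 ∧
      v (y - f) ∉ VG v (WT k p v Γ (X L)) ∧ σ f = algebraMap k Ω κ * f := by
  have hr := hP.root
  have hX := hP.ne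
  have hWC : WT k p v Γ (X 0) ≤ C := hP.eq ▸ le_cadj _ _ _
  have hyC : y ∈ C := hP.eq ▸ self_mem_cadj _ _ _
  have hy0 : y ≠ 0 := hP.ne_y
  have hκ0 : κ ≠ 0 := eig_ne hy0 hκ
  have hκN : κ ^ N = 1 := ev_one hy0 (hH.fix y hyC) hκ
  have hN0 : N ≠ 0 := by
    rintro rfl
    exact hN Nat.cast_zero
  have h1 := hno L
  rw [Lim] at h1
  push Not at h1
  obtain ⟨ε, hε, h1⟩ := h1
  obtain ⟨s, hs, h2⟩ := hl ε hε
  obtain ⟨a₀, ha₀, a₁, ha₁, rfl⟩ := LA_split (Psn p L) (STs_le_LA hs)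
  set e₀ := prj σ N κ a₀ with he₀
  set e₁ := prj σ N κ a₁ with he₁
  have hL0 : e₀ ∈ LA k p v Γ X (fun ρ => (∃ n, 1 ≤ n ∧ Psn p n ρ ∧ ρ * (p : ℝ) ^ n < B) ∧
      Psn p L ρ) := prj_mem (LA_sig hr hX hH.eX) ha₀
  have hL1 : e₁ ∈ LA k p v Γ X (fun ρ => ¬ Psn p L ρ) :=
    LA_mono (fun ρ h => h.2) (prj_mem (LA_sig hr hX hH.eX) ha₁)
  have hW0 : e₀ ∈ WT k p v Γ (X L) :=
    SL_le_WT hr hX hP.div (LA_le_SL (LA_mono (fun ρ h => h.2) hL0))
  have hS0 : e₀ ∈ STs k p v Γ X B 1 := LA_le_STs (LA_mono (fun ρ h => h.1) hL0)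
  have h2' : v.Ge (-ε) (y - (e₀ + e₁)) := by
    have e : y - (e₀ + e₁) = prj σ N κ (y - (a₀ + a₁)) := by
      rw [map_sub, map_add, prj_self hN hκ0 hκ]
    rw [e]
    exact prj_ge h0 hσ h2
  have hfa : (σ ^ N) a₀ = a₀ := by
    obtain ⟨t, ht⟩ := ST_pow_mem (STs_le_ST (LA_le_STs (LA_mono (fun ρ h => h.1) ha₀)))
    exact fix_up hH.fix (hWC ht)
  have hσe : σ e₀ = algebraMap k Ω κ * e₀ := prj_ev hκN hN0 hfa
  obtain ⟨f₀, hf₀, h3⟩ := nr_STs h0 hr hX hP.neg hT hWC hS0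
  set f := prj σ N κ f₀ with hf
  have hfC : f ∈ C := prj_mem' hCσ hf₀
  have h4 : Gt v 0 (f - e₀) := by
    have e : f - e₀ = prj σ N κ (-(e₀ - f₀)) := by
      rw [neg_sub, map_sub, prj_self hN hκ0 hσe]
    by_cases h5 : e₀ - f₀ = 0
    · rw [e, h5, neg_zero, map_zero]
      exact Gt.zero
    · have h6 := h3 h5
      have h7 : v.Ge (v (e₀ - f₀)) (-(e₀ - f₀)) := (v.ge_self _).neg
      rw [e]
      exact Gt.of_ge (prj_ge h0 hσ h7) h6
  have h5 := h1 e₀ hW0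
  rw [zero_sub] at h5
  obtain ⟨h6, h7⟩ := exT_aux (w := y - f) h0 hr hX hP.neg hP.val hP.div hL1 h2' h5 (by
      have e : y - f - (y - e₀) = -(f - e₀) := by ring
      rw [e]
      exact (fun h8 => by
        have := h4.neg h8
        linarith))
  exact ⟨f, hfC, e₀, hW0, hS0, h4, h6, h7, prj_ev hκN hN0 (hH.fix _ hf₀)⟩

/-! ### The data of the exit -/

/-- `σ` maps `C` into `C`. -/
theorem Hg.map_mem (hc : CompleteV v) (hσ : IsoE v v σ) (hP : PRT p v Γ C X y B)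
    (hH : Hg σ N C X y) : ∀ a ∈ C, σ a ∈ C := by
  obtain ⟨κ, hκ⟩ := hH.ey
  have h1 : C.map σ ≤ C := by
    have h2 : C.map σ = cadj v ((WT k p v Γ (X 0)).map σ) (σ y) := by
      rw [hP.eq, hσ.cadj_map hc]
    rw [h2]
    refine cadj_le hP.cld ?_ ?_
    · rintro _ ⟨a, ha, rfl⟩
      exact hP.WT_le (WT_sig hσ hP.ne hH.eX a ha)
    · rw [hκ]
      exact mul_mem (IntermediateField.algebraMap_mem _ _) hP.memY
  exact fun a ha => h1 ⟨a, ha, rfl⟩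

/-- `y` is not in the closure of `WT(X L)` up to `0`. -/
theorem not_lim_of_no {b : ℕ} {β : ℝ} (h0 : Ctx0 k v) (hP : PRT p v Γ C X y B) (hβ : 0 < β)
    (hl : Lm v (STs k p v Γ X (b + 1) 1) y)
    (hno : ∀ β', 0 ≤ β' → β' < β → ∀ e, ¬ TopLe k p v Γ X y b β' e)
    (L : ℕ) : ¬ Lim v (WT k p v Γ (X L)) 0 y := by
  intro h
  have hr := hP.root
  have hX := hP.ne
  refine hno (β / 2) (by linarith) (by linarith) L
    (topLe_of_nearB h0 hP (by linarith) hl fun j hj ε hε => ?_)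
  obtain ⟨a, ha, h1⟩ := h ε hε
  refine ⟨a, pow_mem_WT hr hX hP.val (WT_mono hr hX hP.div hj ha), h1.mono ?_⟩
  have h2 : 0 ≤ β / 2 * -v (X 0) / (p : ℝ) ^ (j + 1) :=
    div_nonneg (mul_nonneg (by linarith) (by linarith [hP.neg])) (p_ps p _).le
  linarith

/-- **The exit of the unattained upper limit**, all the data. -/
theorem ExT.data {b : ℕ} (h0 : Ctx0 k v) (hc : CompleteV v) (hσ : IsoE v v σ)
    (hN : (N : k) ≠ 0) (hP : PRT p v Γ C X y (b + 1)) (hl : Lm v (STs k p v Γ X (b + 1) 1) y)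
    (hH : Hg σ N C X y) (h : ExT k p v Γ X y b) :
    ∃ (C' : IntermediateField k Ω) (X' : ℕ → Ω) (y' : Ω) (B : ℝ), IsoR p v Γ C C' ∧ 0 < B ∧
      PRT p v Γ C' X' y' B ∧ Lm v (STs k p v Γ X' B 1) y' ∧
      Tgt p v C' X' (-((B - 1) * v (X' 0))) ∧ Hg σ N C' X' y' ∧
      ∀ L, ¬ Lim v (WT k p v Γ (X' L)) 0 y' := by
  have hr := hP.root
  have hX := hP.ne
  obtain ⟨β, h1, h2, ⟨e, h3⟩, h6⟩ := h
  obtain ⟨κ, hκ⟩ := hH.ey
  obtain ⟨g, h3, h4, h5, hgκ⟩ := h3.hg h0 hσ hN hP hH hκ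
  obtain ⟨h7, h8, h9, h10⟩ := tgt_of_lt h0 hc hP h1 hl h3 h5 h6 rfl
  refine ⟨_, fun n => X (e + n), y - g, β, .step hP h3 h7 h8 h9 (.refl _), h1, h9, ?_, h10,
    ⟨fun a ha => fix_up hH.fix (h8 a ha), hH.eX.sys hP.root hP.ne (e + 0), κ, ?_⟩, fun L hL => ?_⟩
  · rw [STs_shift (k := k) hr hX hP.div e]
    exact h5
  · rw [map_sub, hκ, hgκ]
    ring
  · refine not_lim_of_no h0 hP h1 hl h6 (e + L) fun ε hε => ?_
    obtain ⟨a, ha, h11⟩ := hL ε hε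
    refine ⟨a + g, add_mem ha (WT_mono hr hX hP.div (Nat.le_add_right e L) h3), ?_⟩
    have e1 : y - (a + g) = y - g - a := by ring
    rwa [e1]

end Pool.Agent.TWC.PW
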