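import Pool.Agent.Lib.TWC.ExD

/-!
# TANK W, class C: rational letters over a tame base (row PW), deep remainders, with values

`exT_deep_x`: the remainders `y - f` have values `a v (X 0) / (b p ^ l)`, `L ≤ l`, at least `-ε`.
-/

set_option autoImplicit false
set_option linter.unusedSectionVars false

open Polynomial

namespace Pool.Agent.TWC.PW

open Pool.Agent.H15JM (RVal)
open Pool.Agent.D2 (Ctx0)
open Pool.Agent.D2P (clI mem_clI rootF mem_rootF)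
open Pool.Agent.TWM
open Pool.Agent.TWS (VG IsoE)
open Pool.Agent.TWC.PF (Lm SW SA)

universe u

variable {k Ω : Type u} [Field k] [Field Ω] [Algebra k Ω] {v : RVal Ω} {Γ : AddSubgroup ℝ}
  {p : ℕ} [hp : Fact p.Prime] [CharP k p] [CharP Ω p] [IsAlgClosed k] [IsAlgClosed Ω]
  {C : IntermediateField k Ω} {X X' : ℕ → Ω} {y f s g z : Ω} {A : ℝ → Prop} {B ρ : ℝ}
  {e i j n m N L : ℕ} {σ : Ω →ₐ[k] Ω} {κ : k}

/-- The value of the remainder. -/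
theorem exT_aux_x (h0 : Ctx0 k v) (hr : ∀ n, X (n + 1) ^ p = X n) (hX : X 0 ≠ 0)
    (hv : v (X 0) < 0) (hΓ : v (X 0) ∈ Γ) {e₀ e₁ w : Ω} {ε : ℝ}
    (h₁ : e₁ ∈ LA k p v Γ X (fun ρ => ¬ Psn p L ρ))
    (hy : v.Ge (-ε) (y - (e₀ + e₁))) (hno : ¬ v.Ge (-ε) (y - e₀)) (hw : Gt v (-ε) (w - (y - e₀))) :
    w ≠ 0 ∧ v w = v e₁ ∧ ∃ (l : ℕ) (a b : ℤ), L ≤ l ∧ ¬ (p : ℤ) ∣ a ∧ ¬ (p : ℤ) ∣ b ∧
      (b : ℝ) * p ^ l * v w = a * v (X 0) := by
  obtain ⟨m, X', N, P, hX', rfl, hP⟩ := LA_level hr hX hΓ h₁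
  have hP0 : P ≠ 0 := by
    rintro rfl
    rw [map_zero, add_zero] at hy
    exact hno hy
  have hx0 : X' N ≠ 0 := hX'.ne hX N
  have hvX : v (X' N) = v (X 0) / (m * p ^ N) := by
    rw [hX'.val_eq hX, val_rt hr hX, div_div, mul_comm ((p : ℝ) ^ N)]
  have hmN : (0 : ℝ) < m * p ^ N := mul_pos hX'.mc (p_ps p N)
  have hxv : v (X' N) < 0 := by
    rw [hvX]
    exact div_neg_of_neg_of_pos hv hmN
  obtain ⟨hne, hval⟩ := kpp_val h0 hx0 hxv hP0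
  set e₁ := aeval (X' N) P with he₁
  have hlt : v e₁ < -ε := by
    by_contra h2
    refine hno ?_
    have h3 : v.Ge (-ε) e₁ := fun _ => not_lt.1 h2
    have e : y - e₀ = (y - (e₀ + e₁)) + e₁ := by ring
    rw [e]
    exact hy.add h3
  have h3 : Gt v (v e₁) (e₁ - w) := by
    have e : e₁ - w = -(y - (e₀ + e₁)) - (w - (y - e₀)) := by ring
    rw [e]
    refine Gt.sub (Gt.of_ge hy hlt).neg (fun h4 => hlt.trans (hw h4))
  obtain ⟨h4, h5⟩ := h3.val_eq hne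
  refine ⟨h4, h5, ?_⟩
  have hlead : P.coeff P.natDegree ≠ 0 := by
    rw [coeff_natDegree]
    exact leadingCoeff_ne_zero.2 hP0
  have h6 := hP _ hlead
  set i := P.natDegree with hi
  have hi0 : i ≠ 0 := by
    intro h7
    refine h6 ⟨1, 0, fun h8 => hp.out.one_lt.ne' (Nat.dvd_one.1 h8), ?_⟩
    rw [h7]
    simp
  obtain ⟨j, i', hi', hij⟩ := Nat.exists_eq_pow_mul_and_not_dvd hi0 p hp.out.ne_one
  have hm0 : (m : ℝ) ≠ 0 := hX'.mc.ne'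
  have hp0 : (p : ℝ) ≠ 0 := by exact_mod_cast hp.out.ne_zero
  have hjN : j + L ≤ N := by
    by_contra h7
    push Not at h7
    refine h6 ⟨m, i' * p ^ (j + L - N), hX'.nd, ?_⟩
    have e : (p : ℝ) ^ j * p ^ L = p ^ N * p ^ (j + L - N) := by
      rw [← pow_add, ← pow_add]
      congr 1
      omega
    rw [hij]
    push_cast
    have hpN : (p : ℝ) ^ N ≠ 0 := pow_ne_zero _ hp0
    field_simp
    linear_combination (i' : ℝ) * e
  obtain ⟨q, hq⟩ := Nat.exists_eq_add_of_le hjN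
  refine ⟨L + q, i', m, Nat.le_add_right _ _, fun h7 => hi' (by exact_mod_cast h7),
    fun h7 => hX'.nd (by exact_mod_cast h7), ?_⟩
  rw [h5, hval, hvX, hij, hq]
  push_cast
  rw [show (p : ℝ) ^ (j + L + q) = p ^ j * p ^ (L + q) by rw [← pow_add, add_assoc]]
  have hpj : (p : ℝ) ^ j ≠ 0 := pow_ne_zero _ hp0
  have hpl : (p : ℝ) ^ (L + q) ≠ 0 := pow_ne_zero _ hp0
  field_simp

/-- **The deep remainders, homogeneous, with values.** -/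
theorem exT_deep_x (h0 : Ctx0 k v) (hσ : IsoE v v σ) (hN : (N : k) ≠ 0)
    (hP : PRT p v Γ C X y B) (hB : 0 < B) (hH : Hg σ N C X y) (hκ : σ y = algebraMap k Ω κ * y)
    (hl : Lm v (STs k p v Γ X B 1) y) (hT : Tgt p v C X (-((B - 1) * v (X 0))))
    (hCσ : ∀ a ∈ C, σ a ∈ C)
    (hno : ∀ L, ¬ Lim v (WT k p v Γ (X L)) 0 y) {δ : ℝ} (hδ : 0 < δ) (L : ℕ) :
    ∃ f ∈ C, ∃ e ∈ EW v (WT k p v Γ (X 0)) X, Gt v 0 (f - e) ∧ y - f ≠ 0 ∧ v.Ge (-δ) (y - f) ∧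
      (∃ (l : ℕ) (a b : ℤ), L ≤ l ∧ ¬ (p : ℤ) ∣ a ∧ ¬ (p : ℤ) ∣ b ∧
        (b : ℝ) * p ^ l * v (y - f) = a * v (X 0)) ∧ σ (y - f) = algebraMap k Ω κ * (y - f) := by
  have hr := hP.root
  have hX := hP.ne
  have hp0 : (0 : ℝ) < p := by exact_mod_cast hp.out.pos
  have hWC : WT k p v Γ (X 0) ≤ C := hP.eq ▸ le_cadj _ _ _
  have hyC : y ∈ C := hP.eq ▸ self_mem_cadj _ _ _
  have hy0 : y ≠ 0 := hP.ne_y
  have hκ0 : κ ≠ 0 := eig_ne hy0 hκ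
  have hκN : κ ^ N = 1 := ev_one hy0 (hH.fix y hyC) hκ
  have hN0 : N ≠ 0 := by
    rintro rfl
    exact hN Nat.cast_zero
  -- a deep level
  obtain ⟨L', hL', hLδ⟩ : ∃ L', L ≤ L' ∧ -δ ≤ B * v (X (L' + 1)) := by
    have h1 : 0 < B * -v (X 0) := mul_pos hB (by linarith [hP.neg])
    have hp1 : (1 : ℝ) < p := by exact_mod_cast hp.out.one_lt
    obtain ⟨q, hq⟩ := pow_unbounded_of_one_lt (B * -v (X 0) / δ) hp1
    refine ⟨max L q, le_max_left _ _, ?_⟩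
    have h2 : (p : ℝ) ^ q ≤ p ^ (max L q + 1) :=
      pow_le_pow_right₀ hp1.le ((le_max_right L q).trans (Nat.le_succ _))
    have h3 : B * -v (X 0) / p ^ (max L q + 1) ≤ δ := by
      rw [div_le_iff₀ (pow_pos hp0 _)]
      rw [div_lt_iff₀ hδ] at hq
      have := mul_le_mul_of_nonneg_left h2 hδ.le
      linarith
    rw [val_rt hr hX]
    have e : B * (v (X 0) / p ^ (max L q + 1)) = -(B * -v (X 0) / p ^ (max L q + 1)) := by ring
    rw [e]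
    linarith
  have h1 := hno L'
  rw [Lim] at h1
  push Not at h1
  obtain ⟨ε', hε', h1'⟩ := h1
  set ε := min ε' δ with hεdef
  have hε : 0 < ε := lt_min hε' hδ
  have h1 : ∀ a ∈ WT k p v Γ (X L'), ¬ v.Ge (0 - ε) (y - a) := fun a ha h =>
    h1' a ha (h.mono (by linarith [min_le_left ε' δ]))
  obtain ⟨s, hs, h2⟩ := hl ε hε
  obtain ⟨a₀, ha₀, a₁, ha₁, rfl⟩ := LA_split (Psn p L') (STs_le_LA hs)
  set e₀ := prj σ N κ a₀ with he₀
  set e₁ := prj σ N κ a₁ with he₁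
  have hL0 : e₀ ∈ LA k p v Γ X (fun ρ => (∃ n, 1 ≤ n ∧ Psn p n ρ ∧ ρ * (p : ℝ) ^ n < B) ∧
      Psn p L' ρ) := prj_mem (LA_sig hr hX hH.eX) ha₀
  have hL1' : e₁ ∈ LA k p v Γ X (fun ρ => (∃ n, 1 ≤ n ∧ Psn p n ρ ∧ ρ * (p : ℝ) ^ n < B) ∧
      ¬ Psn p L' ρ) := prj_mem (LA_sig hr hX hH.eX) ha₁
  have hL1 : e₁ ∈ LA k p v Γ X (fun ρ => ¬ Psn p L' ρ) := LA_mono (fun ρ h => h.2) hL1'
  have hS1 : e₁ ∈ STs k p v Γ X B (L' + 1) := by
    refine LA_le_STs (LA_mono ?_ hL1')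
    rintro ρ ⟨⟨n, -, h3, h4⟩, h5⟩
    refine ⟨n, ?_, h3, h4⟩
    by_contra h6
    push Not at h6
    refine h5 ?_
    obtain ⟨m, i, hm, h7⟩ := h3
    obtain ⟨q, hq⟩ := Nat.exists_eq_add_of_le (show n ≤ L' by omega)
    refine ⟨m, i * p ^ q, hm, ?_⟩
    rw [hq, pow_add]
    push_cast
    rw [← h7]
    ring
  have hge1 : v.Ge (-δ) e₁ :=
    (ST_ge h0 hr hX hP.neg hB.le (STs_le_ST hS1)).mono hLδ
  have hW0 : e₀ ∈ WT k p v Γ (X L') :=
    SL_le_WT hr hX hP.div (LA_le_SL (LA_mono (fun ρ h => h.2) hL0))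
  have hS0 : e₀ ∈ STs k p v Γ X B 1 := LA_le_STs (LA_mono (fun ρ h => h.1) hL0)
  have h2' : v.Ge (-ε) (y - (e₀ + e₁)) := by
    have e : y - (e₀ + e₁) = prj σ N κ (y - (a₀ + a₁)) := by
      rw [map_sub, map_add, prj_self hN hκ0 hκ]
    rw [e]
    exact prj_ge h0 hσ h2
  have hfa : (σ ^ N) a₀ = a₀ := by
    obtain ⟨t, ht⟩ := ST_pow_mem (STs_le_ST (LA_le_STs (LA_mono (fun ρ h => h.1) ha₀)))
    exact fix_up hH.fix (hWC ht)
  have hσe : σ e₀ = algebraMap k Ω κ * e₀ := prj_ev hκN hN0 hfa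
  obtain ⟨f₀, hf₀, h3⟩ := nr_STs h0 hr hX hP.neg hT hWC hS0
  set f := prj σ N κ f₀ with hf
  have hfC : f ∈ C := prj_mem' hCσ hf₀
  have h4 : Gt v 0 (f - e₀) := by
    have e : f - e₀ = prj σ N κ (-(e₀ - f₀)) := by
      rw [neg_sub, map_sub, prj_self hN hκ0 hσe]
    by_cases h5 : e₀ - f₀ = 0
    · rw [e, h5, neg_zero, map_zero]
      exact Gt.zero
    · have h6 := h3 h5
      have h7 : v.Ge (v (e₀ - f₀)) (-(e₀ - f₀)) := (v.ge_self _).neg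
      rw [e]
      exact Gt.of_ge (prj_ge h0 hσ h7) h6
  have h5 := h1 e₀ hW0
  rw [zero_sub] at h5
  obtain ⟨h6, h7, l, a, b, h8, h9, h10, h11⟩ := exT_aux_x (w := y - f) h0 hr hX hP.neg hP.val hL1
    h2' h5 (by
      have e : y - f - (y - e₀) = -(f - e₀) := by ring
      rw [e]
      exact (fun h8 => by
        have := h4.neg h8
        linarith))
  have hyf : v.Ge (-δ) (y - f) := by
    have e : y - f = (y - (e₀ + e₁)) + e₁ - (f - e₀) := by ring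
    rw [e]
    refine ((h2'.mono ?_).add hge1).sub (h4.ge.mono (by linarith))
    linarith [min_le_right ε' δ]
  refine ⟨f, hfC, e₀, ?_, h4, h6, hyf, ⟨l, a, b, hL'.trans h8, h9, h10, h11⟩, ?_⟩
  · rw [← EW_iso hr hX hP.val hP.div L']
    exact EW.le hW0
  · rw [map_sub, hκ, prj_ev hκN hN0 (hH.fix _ hf₀)]
    ring

end Pool.Agent.TWC.PW
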