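import Pool.Agent.Lib.TWC.ExD

/-!
# TANK W, the unattained upper limit: the deep remainders, with their values

* `psn_eq`: the numbers of large position;
* `exT_aux3`: the value of the remainder;
* **`exT_deep3`**: the remainders `y - f`, of values `≥ -ε`, `b p ^ l v (y - f) = a v (X 0)`, `l ≥ L`,
  homogeneous.
-/

set_option autoImplicit false

open Polynomial

namespace Pool.Agent.TWC.PW

open Pool.Agent.H15JM (RVal)
open Pool.Agent.LU1 (VPos adj)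
open Pool.Agent.D2 (Ctx0)
open Pool.Agent.D2P (clI mem_clI mem_adj_self adj_le)
open Pool.Agent.TWM
open Pool.Agent.TWM.C
open Pool.Agent.TWS
open Pool.Agent.TWC.PF (Lm)

universe u

variable {k Ω : Type u} [Field k] [Field Ω] [Algebra k Ω] {v : RVal Ω} {Γ : AddSubgroup ℝ}
  {p : ℕ} [hp : Fact p.Prime] [CharP k p] [CharP Ω p] [IsAlgClosed k] [IsAlgClosed Ω]
  {C : IntermediateField k Ω} {X X' : ℕ → Ω} {y f s g z : Ω} {A : ℝ → Prop} {B ρ : ℝ}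
  {e i j n m N L : ℕ} {σ : Ω →ₐ[k] Ω} {κ : k}

/-- The numbers of position `> L`. -/
theorem psn_eq (h : ∃ n, Psn p n ρ) (hL : ¬ Psn p L ρ) (V : ℝ) :
    ∃ (l : ℕ) (a b : ℤ), L ≤ l ∧ ¬ (p : ℤ) ∣ a ∧ ¬ (p : ℤ) ∣ b ∧
      (b : ℝ) * (p : ℝ) ^ l * (ρ * V) = a * V := by
  classical
  obtain ⟨m, i, hm, h1⟩ := Nat.find_spec h
  set l := Nat.find h with hl
  have hLl : L < l := by
    by_contra h2
    exact hL (Psn.mono (Nat.find_spec h) (not_lt.1 h2))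
  refine ⟨l, i, m, hLl.le, ?_, by exact_mod_cast hm, ?_⟩
  · intro h2
    obtain ⟨i', hi'⟩ : p ∣ i := by exact_mod_cast h2
    have h3 : ¬ Psn p (l - 1) ρ := Nat.find_min h (by omega)
    refine h3 ⟨m, i', hm, ?_⟩
    have hp0 : (p : ℝ) ≠ 0 := by exact_mod_cast hp.out.ne_zero
    have h4 : (p : ℝ) ^ l = p ^ (l - 1) * p := by
      rw [← pow_succ]
      congr 1
      omega
    rw [h4, hi'] at h1
    push_cast at h1
    refine mul_right_cancel₀ hp0 ?_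
    linear_combination h1
  · push_cast
    linear_combination V * h1

/-- The value of the remainder. -/
theorem exT_aux3 (h0 : Ctx0 k v) (hr : ∀ n, X (n + 1) ^ p = X n) (hX : X 0 ≠ 0)
    (hv : v (X 0) < 0) (hΓ : v (X 0) ∈ Γ) {e₀ e₁ w : Ω} {ε : ℝ} (h₁ : e₁ ∈ LA k p v Γ X A)
    (hy : v.Ge (-ε) (y - (e₀ + e₁))) (hno : ¬ v.Ge (-ε) (y - e₀)) (hw : Gt v (-ε) (w - (y - e₀))) :
    w ≠ 0 ∧ ∃ ρ : ℝ, 0 ≤ ρ ∧ A ρ ∧ v w = ρ * v (X 0) := by
  obtain ⟨m, X', N, P, hX', rfl, hP⟩ := LA_level hr hX hΓ h₁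
  have hP0 : P ≠ 0 := by
    rintro rfl
    rw [map_zero, add_zero] at hy
    exact hno hy
  have hx0 : X' N ≠ 0 := hX'.ne hX N
  have hvX : v (X' N) = v (X 0) / (m * p ^ N) := by
    rw [hX'.val_eq hX, val_rt hr hX, div_div, mul_comm ((p : ℝ) ^ N)]
  have hmN : (0 : ℝ) < m * p ^ N := mul_pos hX'.mc (p_ps p N)
  have hxv : v (X' N) < 0 := by
    rw [hvX]
    exact div_neg_of_neg_of_pos hv hmN
  obtain ⟨hne, hval⟩ := kpp_val h0 hx0 hxv hP0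
  set e₁ := aeval (X' N) P with he₁
  have hlt : v e₁ < -ε := by
    by_contra h2
    refine hno ?_
    have h3 : v.Ge (-ε) e₁ := fun _ => not_lt.1 h2
    have e : y - e₀ = (y - (e₀ + e₁)) + e₁ := by ring
    rw [e]
    exact hy.add h3
  have h3 : Gt v (v e₁) (e₁ - w) := by
    have e : e₁ - w = -(y - (e₀ + e₁)) - (w - (y - e₀)) := by ring
    rw [e]
    refine Gt.sub (Gt.of_ge hy hlt).neg (fun h4 => hlt.trans (hw h4))
  obtain ⟨h4, h5⟩ := h3.val_eq hne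
  have hlead : P.coeff P.natDegree ≠ 0 := by
    rw [coeff_natDegree]
    exact leadingCoeff_ne_zero.2 hP0
  refine ⟨h4, _, by positivity, hP _ hlead, ?_⟩
  rw [h5, hval, hvX]
  ring

/-- **The deep remainders**, homogeneous, with their values. -/
theorem exT_deep3 (h0 : Ctx0 k v) (hσ : IsoE v v σ) (hN : (N : k) ≠ 0)
    (hP : PRT p v Γ C X y B) (hH : Hg σ N C X y) (hκ : σ y = algebraMap k Ω κ * y)
    (hl : Lm v (STs k p v Γ X B 1) y) (hT : Tgt p v C X (-((B - 1) * v (X 0))))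
    (hCσ : ∀ a ∈ C, σ a ∈ C)
    (hno : ∀ L, ¬ Lim v (WT k p v Γ (X L)) 0 y) {δ : ℝ} (hδ : 0 < δ) (L : ℕ) :
    ∃ f ∈ C, ∃ e ∈ EW v (WT k p v Γ (X 0)) X, Gt v 0 (f - e) ∧ y - f ≠ 0 ∧
      v.Ge (-δ) (y - f) ∧ (∃ (l : ℕ) (a b : ℤ), L ≤ l ∧ ¬ (p : ℤ) ∣ a ∧ ¬ (p : ℤ) ∣ b ∧
        (b : ℝ) * (p : ℝ) ^ l * v (y - f) = a * v (X 0)) ∧ σ f = algebraMap k Ω κ * f := by
  have hr := hP.root
  have hX := hP.ne
  have hneg := hP.neg
  have hWC : WT k p v Γ (X 0) ≤ C := hP.eq ▸ le_cadj _ _ _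
  have hyC : y ∈ C := hP.eq ▸ self_mem_cadj _ _ _
  have hy0 : y ≠ 0 := hP.ne_y
  have hκ0 : κ ≠ 0 := eig_ne hy0 hκ
  have hκN : κ ^ N = 1 := ev_one hy0 (hH.fix y hyC) hκ
  have hN0 : N ≠ 0 := by
    rintro rfl
    exact hN Nat.cast_zero
  -- the level
  obtain ⟨M, hM⟩ : ∃ M : ℕ, B * -v (X 0) < δ * (p : ℝ) ^ M := by
    obtain ⟨M, hM⟩ := pow_unbounded_of_one_lt (B * -v (X 0) / δ)
      (by exact_mod_cast hp.out.one_lt : (1 : ℝ) < p)
    refine ⟨M, ?_⟩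
    rw [div_lt_iff₀ hδ] at hM
    linarith
  set L' := max L M with hL'
  have h1 := hno L'
  rw [Lim] at h1
  push Not at h1
  obtain ⟨ε, hε, h1⟩ := h1
  obtain ⟨s, hs, h2⟩ := hl ε hε
  obtain ⟨a₀, ha₀, a₁, ha₁, rfl⟩ := LA_split (Psn p L') (STs_le_LA hs)
  set e₀ := prj σ N κ a₀ with he₀
  set e₁ := prj σ N κ a₁ with he₁
  have hL0 : e₀ ∈ LA k p v Γ X (fun ρ => (∃ n, 1 ≤ n ∧ Psn p n ρ ∧ ρ * (p : ℝ) ^ n < B) ∧
      Psn p L' ρ) := prj_mem (LA_sig hr hX hH.eX) ha₀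
  have hL1 : e₁ ∈ LA k p v Γ X (fun ρ => (∃ n, 1 ≤ n ∧ Psn p n ρ ∧ ρ * (p : ℝ) ^ n < B) ∧
      ¬ Psn p L' ρ) := prj_mem (LA_sig hr hX hH.eX) ha₁
  have hW0 : e₀ ∈ WT k p v Γ (X L') :=
    SL_le_WT hr hX hP.div (LA_le_SL (LA_mono (fun ρ h => h.2) hL0))
  have hS0 : e₀ ∈ STs k p v Γ X B 1 := LA_le_STs (LA_mono (fun ρ h => h.1) hL0)
  have h2' : v.Ge (-ε) (y - (e₀ + e₁)) := by
    have e : y - (e₀ + e₁) = prj σ N κ (y - (a₀ + a₁)) := by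
      rw [map_sub, map_add, prj_self hN hκ0 hκ]
    rw [e]
    exact prj_ge h0 hσ h2
  have hfa : (σ ^ N) a₀ = a₀ := by
    obtain ⟨t, ht⟩ := ST_pow_mem (STs_le_ST (LA_le_STs (LA_mono (fun ρ h => h.1) ha₀)))
    exact fix_up hH.fix (hWC ht)
  have hσe : σ e₀ = algebraMap k Ω κ * e₀ := prj_ev hκN hN0 hfa
  obtain ⟨f₀, hf₀, h3⟩ := nr_STs h0 hr hX hP.neg hT hWC hS0
  set f := prj σ N κ f₀ with hf
  have hfC : f ∈ C := prj_mem' hCσ hf₀
  have h4 : Gt v 0 (f - e₀) := by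
    have e : f - e₀ = prj σ N κ (-(e₀ - f₀)) := by
      rw [neg_sub, map_sub, prj_self hN hκ0 hσe]
    by_cases h5 : e₀ - f₀ = 0
    · rw [e, h5, neg_zero, map_zero]
      exact Gt.zero
    · have h6 := h3 h5
      have h7 : v.Ge (v (e₀ - f₀)) (-(e₀ - f₀)) := (v.ge_self _).neg
      rw [e]
      exact Gt.of_ge (prj_ge h0 hσ h7) h6
  have h5 := h1 e₀ hW0
  rw [zero_sub] at h5
  obtain ⟨h6, ρ, hρ, ⟨⟨n, -, hn, hB⟩, hL1'⟩, h7⟩ := exT_aux3 (w := y - f) h0 hr hX hP.neg hP.val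
    hL1 h2' h5 (by
      have e : y - f - (y - e₀) = -(f - e₀) := by ring
      rw [e]
      exact (fun h8 => by
        have := h4.neg h8
        linarith))
  refine ⟨f, hfC, e₀, ?_, h4, h6, fun _ => ?_, ?_, prj_ev hκN hN0 (hH.fix _ hf₀)⟩
  · rw [← EW_iso hr hX hP.val hP.div L']
    exact EW.le hW0
  · -- the value
    have hnL : L' < n := by
      by_contra h8
      exact hL1' (hn.mono (not_lt.1 h8))
    have hMn : (p : ℝ) ^ M ≤ (p : ℝ) ^ n :=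
      pow_le_pow_right₀ (by exact_mod_cast hp.out.one_lt.le) ((le_max_right L M).trans hnL.le)
    have hpn := p_ps p n
    have h9 : ρ * (p : ℝ) ^ n * -v (X 0) < δ * (p : ℝ) ^ n := by
      have h10 : ρ * (p : ℝ) ^ n * -v (X 0) ≤ B * -v (X 0) :=
        mul_le_mul_of_nonneg_right hB.le (by linarith)
      have h11 : δ * (p : ℝ) ^ M ≤ δ * (p : ℝ) ^ n := mul_le_mul_of_nonneg_left hMn hδ.le
      linarith
    rw [h7]
    have h12 : ρ * -v (X 0) < δ := by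
      by_contra h13
      push Not at h13
      have := mul_le_mul_of_nonneg_right h13 hpn.le
      linarith
    linarith
  · obtain ⟨l, a, b, hl1, ha, hb, h8⟩ := psn_eq ⟨n, hn⟩ hL1' (v (X 0))
    exact ⟨l, a, b, (le_max_left L M).trans hl1, ha, hb, by rw [h7]; exact h8⟩

end Pool.Agent.TWC.PW
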