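import Pool.Agent.Lib.TWC.ExtH
import Pool.Agent.Lib.TWC.Rect

/-!
# TANK W, class C: the natural motion on a floor

* `HSX.eq_ext`: the operators of an extension of `h` agree with those of `h`;
* `NBH`: the series `Y` is a possible value of the motion at `y`;
* `HSX.floor`: extension to the closure of `F(b_l, l)`, `b` rectangular over `E₀`, with prescribed
  values;
* `NBH.nat`: the natural values; `exists_gain`: the natural values are polynomials over `E` if the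
  operators have a gain on `E`;
* `HSX.nat_floor`: **the natural motion on a floor**.
-/

set_option autoImplicit false

open Polynomial

namespace Pool.Agent.TWC

open Pool.Agent.H15JM (RVal)
open Pool.Agent.LU1 (VPos adj)
open Pool.Agent.D2 (Ctx0)
open Pool.Agent.D2P (clI mem_clI rootF mem_rootF)
open Pool.Agent.TWM

universe u

variable {k Ω : Type u} [Field k] [Field Ω] [Algebra k Ω] {v : RVal Ω}
  {F F' L L' B E E₀ : IntermediateField k Ω}

section Main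

variable {p : ℕ} [hp : Fact p.Prime] [CharP Ω p] {h : F →ₐ[k] PowerSeries Ω}
  {h' : F' →ₐ[k] PowerSeries Ω} {A : ℕ → ℕ → L →ₗ[k] Ω} {A' : ℕ → ℕ → L' →ₗ[k] Ω}

/-- The operators of an extension, on the elements of finite level. -/
theorem HSX.eq_lvl (hA : HSX p v F L h A) (hA' : HSX p v F' L' h' A') (hF : F ≤ F')
    (hh : ∀ (c : Ω) (hc : c ∈ F), h' ⟨c, hF hc⟩ = h ⟨c, hc⟩) {n : ℕ} (j : ℕ) {c : Ω} (hc : c ∈ L)
    (hc' : c ∈ L') (hcF : c ^ p ^ n ∈ F) : A' n j ⟨c, hc'⟩ = A n j ⟨c, hc⟩ := by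
  have h1 := hA.base n j ⟨c, hc⟩ hcF
  have h2 := hA'.base n j ⟨c, hc'⟩ (hF hcF)
  refine iterateFrobenius_inj Ω p n ?_
  change A' n j ⟨c, hc'⟩ ^ p ^ n = A n j ⟨c, hc⟩ ^ p ^ n
  rw [h1, h2]
  exact congrArg _ (hh _ hcF)

/-- The operators of an extension. -/
theorem HSX.eq_ext [IsAlgClosed Ω] (hA : HSX p v F L h A) (hA' : HSX p v F' L' h' A')
    (hF : F ≤ F') (hh : ∀ (c : Ω) (hc : c ∈ F), h' ⟨c, hF hc⟩ = h ⟨c, hc⟩) (hE : E ≤ L)
    (hE' : E ≤ L') (hd : DnsS v ((pcl p F : IntermediateField k Ω) : Set Ω) E) (n j : ℕ) (c : E) :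
    A' n j ⟨c, hE' c.2⟩ = A n j ⟨c, hE c.2⟩ := by
  have h1 : UCt v (fun y : E => A' n j ⟨y, hE' y.2⟩) := fun b => ⟨b, fun y a hya => by
    rw [← map_sub]
    exact hA'.norm n j _ b hya⟩
  have h2 : UCt v (fun y : E => A n j ⟨y, hE y.2⟩) := fun b => ⟨b, fun y a hya => by
    rw [← map_sub]
    exact hA.norm n j _ b hya⟩
  refine UCt.eq hd h1 h2 (fun a ha => ?_) c
  obtain ⟨m, hm⟩ := ha
  have h3 := hA.eq_lvl hA' hF hh (n := n + m) (p ^ m * j) (hE a.2) (hE' a.2) (by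
    rw [add_comm]
    exact pow_up hm n)
  rwa [hA.up_pow, hA'.up_pow] at h3

/-- `Y` is a possible value of the motion at `y`: for every `ε` there is an element `ψ` of `E` of
finite level `n`, near to `y`, such that the coefficients of `Y(S ^ (p ^ n))` are near to those of
`ψ`. -/
def NBH (v : RVal Ω) (hA : HSX p v F L h A) (E : IntermediateField k Ω) (Y : PowerSeries Ω) :
    Prop :=
  ∀ ε : ℝ, 0 < ε → ∃ (n : ℕ) (ψ : Lvl p F L n), (ψ : Ω) ∈ E ∧
    v.Ge (-ε) (PowerSeries.constantCoeff Y - ψ) ∧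
    PGe v (-ε) (PowerSeries.expand (p ^ n) (pow_pos hp.out.pos n).ne' Y - hA.ser n ψ)

theorem NBH.ext {hA : HSX p v F L h A} {Y : PowerSeries Ω} (hN : NBH v hA E Y)
    (hA' : HSX p v F' L' h' A') (hF : F ≤ F') (hL : L ≤ L')
    (hh : ∀ (c : Ω) (hc : c ∈ F), h' ⟨c, hF hc⟩ = h ⟨c, hc⟩) : NBH v hA' E Y := by
  intro ε hε
  obtain ⟨n, ψ, hψE, h1, h2⟩ := hN ε hε
  have hψ := mem_Lvl.1 ψ.2
  refine ⟨n, ⟨ψ, mem_Lvl.2 ⟨hF hψ.1, hL hψ.2⟩⟩, hψE, h1, fun j => ?_⟩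
  have h3 := h2 j
  rw [map_sub, hA.coeff_ser] at h3
  rw [map_sub, hA'.coeff_ser]
  rw [← hA.eq_lvl hA' hF hh j hψ.2 (hL hψ.2) hψ.1] at h3
  exact h3

/-- **Extension to a floor**, with prescribed values. -/
theorem HSX.floor [IsAlgClosed Ω] [Fact (Ctx0 k v)] (hΩ : CompleteV v)
    (hh : HSI v F h) (hFc : Cld v F) (hA : HSX p v F L h A) (hL : L ≤ clI v (pcl p F))
    {ι : Type} {b : ι → Ω} {c : ι → ℝ} (hc : ∀ l, c l = 0) (hR : Rect v E b c)
    (hFE : F ≤ E) {Y : ι → PowerSeries Ω} (hYb : ∀ l, PowerSeries.constantCoeff (Y l) = b l)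
    (hY : ∀ l, NBH v hA E (Y l)) (S : Finset ι) :
    ∃ h' : cadS v F b S →ₐ[k] PowerSeries Ω, HSI v (cadS v F b S) h' ∧
      (∀ (y : cadS v F b S) (hy : (y : Ω) ∈ F), h' y = h ⟨y, hy⟩) ∧
      ∀ (y : cadS v F b S), ∀ l ∈ S, (y : Ω) = b l → h' y = Y l := by
  classical
  induction S using Finset.induction_on with
  | empty =>
    have e : cadS v F b ((∅ : Finset ι) : Set ι) ≤ F := by
      rw [Finset.coe_empty, cadS_empty]
      exact hFc
    refine ⟨h.comp (IntermediateField.inclusion e), ⟨fun y => ?_, fun n y b hb => ?_⟩,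
      fun y hy => rfl, fun y l hl => absurd hl (Finset.notMem_empty l)⟩
    · exact hh.zero _
    · exact hh.norm n _ b hb
  | insert l S hl ih =>
    obtain ⟨h₁, h2, h3, h4⟩ := ih
    have hFS : F ≤ cadS v F b S := le_cadS
    obtain ⟨A₁, hA₁⟩ := exists_hsx (p := p) hΩ h2
    have hpc : pcl p F ≤ pcl p (cadS v F b S) := fun y ⟨m, hm⟩ => ⟨m, hFS hm⟩
    have hLL : L ≤ clI v (pcl p (cadS v F b S)) := hL.trans (clI_mono hpc)
    have hN := (hY l).ext hA₁ hFS hLL (fun y hy => h3 ⟨y, hFS hy⟩ hy)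
    have hT : TL v (cadS v E b S) (b l) 0 := by
      have := hR S l hl
      rwa [hc l] at this
    have hSE : cadS v F b S ≤ cadS v E b S :=
      cadS_le cld_cadS (hFE.trans le_cadS) fun j hj => mem_cadS hj
    obtain ⟨h₂, h5, h6, h7⟩ := hA₁.extend hΩ h2
      (fun y hy => LUC.Cl.subset (⟨0, by rw [pow_zero, pow_one]; exact hy⟩ : y ∈ pcl p _))
      (hSE.trans (le_algc _)) hT (hYb l) (fun ε hε => by
        obtain ⟨n, ψ, -, h8, h9⟩ := hN ε hε
        rw [hYb l] at h8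
        exact ⟨n, ψ, h8, h9⟩)
    have e : cadj v (cadS v F b S) (b l) = cadS v F b ((insert l S : Finset ι) : Set ι) := by
      rw [cadj_cadS, Finset.coe_insert]
    have h8 : (∀ (y : cadj v (cadS v F b S) (b l)) (hy : (y : Ω) ∈ F), h₂ y = h ⟨y, hy⟩) ∧
        ∀ (y : cadj v (cadS v F b S) (b l)), ∀ j ∈ insert l S, (y : Ω) = b j → h₂ y = Y j := by
      refine ⟨fun y hy => ?_, fun y j hj hy => ?_⟩
      · rw [h6 y (hFS hy)]
        exact h3 _ hy
      · rcases Finset.mem_insert.1 hj with rfl | hj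
        · exact h7 y hy
        · have hyS : (y : Ω) ∈ cadS v F b S := by
            rw [hy]
            exact mem_cadS (Finset.mem_coe.2 hj)
          rw [h6 y hyS]
          exact h4 _ j hj hy
    generalize cadS v F b ((insert l S : Finset ι) : Set ι) = M at e ⊢
    subst e
    exact ⟨h₂, h5, h8.1, h8.2⟩

/-- **The natural values.** `Y` is near to the integral coefficients of the elements of `E` near to
`y ∈ B`. -/
theorem NBH.nat [IsAlgClosed Ω] [Fact (Ctx0 k v)] (hΩ : CompleteV v) (hA : HSX p v F L h A)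
    {x χ : ℕ → Ω} (hx : XT L A x χ) (h0 : x 0 ∈ F) (hFL : F ≤ L) (hE₀ : E₀ ≤ L)
    {w w₀ : ℕ → ℕ → ℝ} {D : ℕ → ℕ → Module.End k E₀}
    (hD : ThX p v F E₀ x w₀ D) (hFB : F ≤ B) (hE : Cld v E) (hBE : B ≤ E) (hEE : E₀ ≤ E)
    (hd : DnsS v (AX B x) E) (hB : NBX p v B x w)
    (hw : ∀ n, ∀ f < p ^ n, f ≠ 0 → v.Ge (w n f) (χ n ^ f)) {Y : PowerSeries Ω}
    (hyB : PowerSeries.constantCoeff Y ∈ B) (hlim : Lim v E₀ 0 (PowerSeries.constantCoeff Y))
    (hYq : ∀ (q : ℕ) (ε : ℝ), 1 ≤ q → 0 < ε → ∀ ψ : E₀,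
      v.Ge (-ε) (PowerSeries.constantCoeff Y - ψ) →
      v.Ge (-ε) (PowerSeries.coeff q Y - A 0 q ⟨ψ, hE₀ ψ.2⟩)) : NBH v hA E₀ Y := by
  intro ε hε
  obtain ⟨a, ha, h1⟩ := hlim ε hε
  rw [zero_sub] at h1
  obtain ⟨a', ⟨n, P, hP, ha'⟩, ha'E, h2⟩ := hD.dense a ha (-ε)
  set y := PowerSeries.constantCoeff Y with hy
  have hya : v.Ge (-ε) (y - a') := by
    have e : y - a' = (y - a) + (a - a') := by ring
    rw [e]
    exact h1.add h2
  have hl : a' ∈ Lvl p F L n := by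
    rw [ha']
    exact ax_lvl hD.nbx.root h0 hFL hx.mem n hP
  refine ⟨n, ⟨a', hl⟩, ha'E, hya, fun j => ?_⟩
  rw [map_sub, hA.coeff_ser, PowerSeries.coeff_expand]
  split_ifs with hj
  · obtain ⟨q, rfl⟩ := hj
    have h3 := hA.up_pow 0 n q ⟨a', (mem_Lvl.1 hl).2⟩
    rw [zero_add] at h3
    rw [Nat.mul_div_cancel_left _ (pow_pos hp.out.pos n), h3]
    rcases Nat.eq_zero_or_pos q with rfl | hq
    · rw [hA.zero, PowerSeries.coeff_zero_eq_constantCoeff_apply, ← hy]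
      exact hya
    · exact hYq q ε hq hε ⟨a', ha'E⟩ hya
  · rw [zero_sub]
    have e := Nat.div_add_mod j (p ^ n)
    have hf : j % p ^ n < p ^ n := Nat.mod_lt _ (pow_pos hp.out.pos n)
    have hf0 : j % p ^ n ≠ 0 := fun h => hj (Nat.dvd_of_mod_eq_zero h)
    have h4 := HSX.nat_near hΩ hA hx h0 hFL hE₀ hD hFB hE hBE hEE hd hB (q := j / p ^ n) hf hf0
      (hw n _ hf hf0) (y := ⟨a', ha'E⟩) hyB (b := -ε) (by
        have e2 : a' - y = -(y - a') := by ring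
        change v.Ge (-ε) (a' - y)
        rw [e2]
        exact hya.neg)
    rw [e] at h4
    exact h4.neg

omit [CharP Ω p] hp in
/-- **The values with a gain.** If the operators `φ q`, `q ≥ 1`, preserve `E` and have gain `q μ`
on `E`, then the values may be chosen in `E`, and `0` for `q ≥ I`, `v y ≥ - I μ`. -/
theorem exists_gain (hE : E ≤ L) (φ : ℕ → L →ₗ[k] Ω) {μ : ℝ} (hμ : 0 < μ)
    (hst : ∀ (q : ℕ) (y : E), 1 ≤ q → φ q ⟨y, hE y.2⟩ ∈ E)
    (hg : ∀ (q : ℕ) (y : E) (b : ℝ), 1 ≤ q → v.Ge b (y : Ω) →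
      v.Ge (b + q * μ) (φ q ⟨y, hE y.2⟩)) {y : Ω} (hy : Lim v E 0 y) {I : ℕ}
    (hI : v.Ge (-(I * μ)) y) : ∃ Y : PowerSeries Ω, PowerSeries.constantCoeff Y = y ∧
      (∀ q, 1 ≤ q → PowerSeries.coeff q Y ∈ E) ∧
      (∀ q, 1 ≤ q → I ≤ q → PowerSeries.coeff q Y = 0) ∧
      ∀ (q : ℕ) (ε : ℝ), 1 ≤ q → 0 < ε → ∀ ψ : E, v.Ge (-ε) (y - ψ) →
        v.Ge (-ε) (PowerSeries.coeff q Y - φ q ⟨ψ, hE ψ.2⟩) := by
  classical
  have h1 : ∀ q : ℕ, 1 ≤ q → ∃ a : E, v.Ge (-(q * μ)) (y - a) := by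
    intro q hq
    have hq' : (0 : ℝ) < q * μ := mul_pos (by exact_mod_cast hq) hμ
    obtain ⟨a, ha, h1⟩ := hy (q * μ) hq'
    rw [zero_sub] at h1
    exact ⟨⟨a, ha⟩, h1⟩
  choose! a ha using h1
  set Y : PowerSeries Ω := PowerSeries.mk fun q => if q = 0 then y else
    if I ≤ q then 0 else φ q ⟨a q, hE (a q).2⟩ with hY
  have hco : ∀ q, 1 ≤ q → PowerSeries.coeff q Y = if I ≤ q then 0 else φ q ⟨a q, hE (a q).2⟩ := by
    intro q hq
    rw [hY, PowerSeries.coeff_mk, if_neg (by omega)]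
  refine ⟨Y, ?_, fun q hq => ?_, fun q hq hIq => ?_, fun q ε hq hε ψ hψ => ?_⟩
  · rw [← PowerSeries.coeff_zero_eq_constantCoeff_apply, hY, PowerSeries.coeff_mk, if_pos rfl]
  · rw [hco q hq]
    split_ifs
    exacts [E.zero_mem, hst q _ hq]
  · rw [hco q hq, if_pos hIq]
  · have hqμ : (0 : ℝ) < q * μ := mul_pos (by exact_mod_cast hq) hμ
    rw [hco q hq]
    split_ifs with hIq
    · rw [zero_sub]
      have h2 : v.Ge (min (-(I * μ)) (-ε)) (ψ : Ω) := by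
        have e : (ψ : Ω) = y - (y - ψ) := by ring
        rw [e]
        exact (hI.mono (min_le_left _ _)).sub (hψ.mono (min_le_right _ _))
      refine ((hg q ψ _ hq h2).mono ?_).neg
      have h3 : (I : ℝ) * μ ≤ q * μ := mul_le_mul_of_nonneg_right (by exact_mod_cast hIq) hμ.le
      rcases min_choice (-(I * μ)) (-ε) with h4 | h4
      · rw [h4]
        linarith
      · rw [h4]
        linarith
    · rw [← map_sub]
      have h2 : v.Ge (min (-(q * μ)) (-ε)) ((a q - ψ : E) : Ω) := by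
        have e : ((a q - ψ : E) : Ω) = (y - ψ) - (y - a q) := by
          push_cast
          ring
        rw [e]
        exact (hψ.mono (min_le_right _ _)).sub ((ha q hq).mono (min_le_left _ _))
      have h3 := hg q (a q - ψ) _ hq h2
      refine h3.mono ?_
      rcases min_choice (-(q * μ)) (-ε) with h4 | h4
      · rw [h4]
        linarith
      · rw [h4]
        linarith

/-- **The natural motion on a floor.** `F` closed, `h x = x + χ T`, `E₀` the closure of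
`F(x ^ (1 / p ^ ∞))`, the operators of `h` preserve `E₁ ≤ E₀` and have gain `μ` there, the `b l` are in
`B`, rectangular over `E₀` and limits of `E₁`: extension of `h` to the closure of `F(b l, l)`,
the coefficients of `b l` are in `E₁` and vanish for `q ≥ I l`. -/
theorem HSX.nat_floor [IsAlgClosed Ω] [Fact (Ctx0 k v)] (hΩ : CompleteV v) (hh : HSI v F h)
    (hFc : Cld v F) (hA : HSX p v F L h A) (hL : L ≤ clI v (pcl p F)) {x χ : ℕ → Ω}
    (hx : XT L A x χ) (h0 : x 0 ∈ F) (hFL : F ≤ L) (hE₀ : E₀ ≤ L) {w w₀ : ℕ → ℕ → ℝ}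
    {D : ℕ → ℕ → Module.End k E₀} (hD : ThX p v F E₀ x w₀ D) (hFB : F ≤ B) (hE : Cld v E)
    (hBE : B ≤ E) (hEE : E₀ ≤ E) (hd : DnsS v (AX B x) E) (hB : NBX p v B x w)
    (hw : ∀ n, ∀ f < p ^ n, f ≠ 0 → v.Ge (w n f) (χ n ^ f))
    {μ : ℝ} (hμ : 0 < μ) (hst : ∀ (q : ℕ) (y : E₀), 1 ≤ q → A 0 q ⟨y, hE₀ y.2⟩ ∈ E₀)
    (hg : ∀ (q : ℕ) (y : E₀) (b : ℝ), 1 ≤ q → v.Ge b (y : Ω) →
      v.Ge (b + q * μ) (A 0 q ⟨y, hE₀ y.2⟩))
    {ι : Type} [Fintype ι] {b : ι → Ω} (hb : ∀ l, b l ∈ B) (hR : Rect v E₀ b fun _ => 0) :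
    ∃ (h' : cadS v F b Set.univ →ₐ[k] PowerSeries Ω) (I : ℕ), HSI v (cadS v F b Set.univ) h' ∧
      (∀ (y : cadS v F b Set.univ) (hy : (y : Ω) ∈ F), h' y = h ⟨y, hy⟩) ∧
      ∀ (y : cadS v F b Set.univ) (l : ι), (y : Ω) = b l →
        (∀ q, 1 ≤ q → PowerSeries.coeff q (h' y) ∈ E₀) ∧
        (∀ q, I ≤ q → PowerSeries.coeff q (h' y) = 0) ∧
        ∀ (q : ℕ) (ε : ℝ), 0 < ε → ∀ ψ : E₀, v.Ge (-ε) (b l - ψ) →
          v.Ge (-ε) (PowerSeries.coeff q (h' y) - A 0 q ⟨ψ, hE₀ ψ.2⟩) := by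
  classical
  have hlim : ∀ l, Lim v E₀ 0 (b l) := fun l => hR.lim l
  have hI : ∀ l, ∃ I : ℕ, v.Ge (-(I * μ)) (b l) := by
    intro l
    obtain ⟨I, hI⟩ := exists_nat_gt (-(v (b l)) / μ)
    rw [div_lt_iff₀ hμ] at hI
    exact ⟨I, fun _ => by linarith⟩
  choose I hI using hI
  choose Y hY1 hY2 hY3 hY4 using fun l => exists_gain hE₀ (fun q => A 0 q) hμ hst hg (hlim l) (hI l)
  have hN : ∀ l, NBH v hA E₀ (Y l) := fun l =>
    NBH.nat hΩ hA hx h0 hFL hE₀ hD hFB hE hBE hEE hd hB hw (by rw [hY1]; exact hb l)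
      (by rw [hY1]; exact hlim l) (fun q ε hq hε ψ hψ => by
        rw [hY1] at hψ
        exact hY4 l q ε hq hε ψ hψ)
  rw [← Finset.coe_univ]
  obtain ⟨h', h1, h2, h3⟩ := hA.floor hΩ hh hFc hL (fun _ => rfl) hR hD.le hY1 hN Finset.univ
  refine ⟨h', Finset.univ.sup I + 1, h1, h2, fun y l hy => ?_⟩
  rw [h3 y l (Finset.mem_univ l) hy]
  refine ⟨hY2 l, fun q hq => ?_, fun q ε hε ψ hψ => ?_⟩
  · have h4 : I l ≤ Finset.univ.sup I := Finset.le_sup (Finset.mem_univ l)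
    exact hY3 l q (by omega) (by omega)
  · rcases Nat.eq_zero_or_pos q with rfl | hq
    · rw [hA.zero, PowerSeries.coeff_zero_eq_constantCoeff_apply, hY1]
      exact hψ
    · exact hY4 l q ε hq hε ψ hψ

end Main

end Pool.Agent.TWC
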