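import Pool.Agent.Lib.TWC.NatX
import Pool.Agent.Lib.TWC.NotRoot
import Pool.Agent.Lib.TWS.Ac
import Mathlib.RingTheory.PowerSeries.Expand
import Mathlib.FieldTheory.RatFunc.AsPolynomial

/-!
# TANK W, class C: extension of an isometric motion (row R1, EXT)

* `PGe v b f`: all the coefficients of the power series `f` have value `≥ b`;
* `HSI.clI`: extension to the closure;
* `HSI.adj`: extension to `F(y)`, `y` transcendental, from a bound on the polynomials;
* `HSX.ser`: `c ↦ ∑ A n j c S ^ j` on the elements of level `n`, a ring homomorphism;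
* `HSX.bound`, `HSX.extend`: extension to the closure of `F(y)`, `y` of transcendental type over
  a field `E₀` containing `F`, approximated by elements of the perfect closure of `F` whose
  operators are near to the prescribed values.
-/

set_option autoImplicit false

open Polynomial

namespace Pool.Agent.TWC

open Pool.Agent.H15JM (RVal)
open Pool.Agent.LU1 (VPos adj)
open Pool.Agent.D2 (Ctx0)
open Pool.Agent.D2P (clI mem_clI rootF mem_rootF)
open Pool.Agent.TWM

universe u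

variable {k Ω : Type u} [Field k] [Field Ω] [Algebra k Ω] {v : RVal Ω}
  {F L B E E₀ : IntermediateField k Ω}

/-! ### Power series with bounded coefficients -/

/-- All the coefficients have value `≥ b`. -/
def PGe (v : RVal Ω) (b : ℝ) (f : PowerSeries Ω) : Prop :=
  ∀ n, v.Ge b (PowerSeries.coeff n f)

section PGe

variable {b b' : ℝ} {f g : PowerSeries Ω}

theorem PGe.mono (h : PGe v b f) (hb : b' ≤ b) : PGe v b' f := fun n => (h n).mono hb

theorem PGe.zero : PGe v b (0 : PowerSeries Ω) := fun n => by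
  rw [map_zero]
  exact RVal.Ge.zero

theorem PGe.add (h : PGe v b f) (h' : PGe v b g) : PGe v b (f + g) := fun n => by
  rw [map_add]
  exact (h n).add (h' n)

theorem PGe.neg (h : PGe v b f) : PGe v b (-f) := fun n => by
  rw [map_neg]
  exact (h n).neg

theorem PGe.sub (h : PGe v b f) (h' : PGe v b g) : PGe v b (f - g) := fun n => by
  rw [map_sub]
  exact (h n).sub (h' n)

theorem PGe.sum {ι : Type*} (s : Finset ι) {f : ι → PowerSeries Ω}
    (h : ∀ i ∈ s, PGe v b (f i)) : PGe v b (∑ i ∈ s, f i) := fun n => by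
  rw [map_sum]
  exact RVal.Ge.sum _ _ fun i hi => h i hi n

theorem PGe.mul (h : PGe v b f) (h' : PGe v b' g) : PGe v (b + b') (f * g) := fun n => by
  rw [PowerSeries.coeff_mul]
  exact RVal.Ge.sum _ _ fun i _ => (h i.1).mul (h' i.2)

theorem PGe.one : PGe v 0 (1 : PowerSeries Ω) := fun n => by
  rw [PowerSeries.coeff_one]
  split_ifs
  · exact fun _ => (v.map_one).ge
  · exact RVal.Ge.zero

theorem PGe.pow (h : PGe v b f) (l : ℕ) : PGe v (l * b) (f ^ l) := by
  induction l with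
  | zero =>
    rw [pow_zero, Nat.cast_zero, zero_mul]
    exact PGe.one
  | succ l ih =>
    rw [pow_succ]
    refine (ih.mul h).mono (le_of_eq ?_)
    push_cast
    ring

/-- The inverse of a series with dominant constant coefficient. -/
theorem PGe.inv {c : Ω} (hc : c ≠ 0) (h0 : PowerSeries.constantCoeff f = c) (h : PGe v (v c) f)
    (hfg : f * g = 1) : PGe v (-(v c)) g := by
  intro n
  induction n using Nat.strong_induction_on with
  | _ n ih =>
    have h1 : PowerSeries.coeff n (f * g) = PowerSeries.coeff n (1 : PowerSeries Ω) := by rw [hfg]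
    rw [PowerSeries.coeff_mul, ← Finset.Nat.sum_antidiagonal_swap,
      Finset.Nat.sum_antidiagonal_eq_sum_range_succ_mk, Finset.sum_range_succ] at h1
    simp only [Prod.swap_prod_mk, Nat.sub_self, PowerSeries.coeff_zero_eq_constantCoeff] at h1
    have h2 : PowerSeries.coeff n g = c⁻¹ * (PowerSeries.coeff n (1 : PowerSeries Ω) -
        ∑ m ∈ Finset.range n, PowerSeries.coeff (n - m) f * PowerSeries.coeff m g) := by
      rw [← h1, h0, add_sub_cancel_left, inv_mul_cancel_left₀ hc]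
    rw [h2]
    have h3 : v.Ge (-(v c)) c⁻¹ := fun _ => by rw [v.map_inv hc]
    have h4 : v.Ge 0 (PowerSeries.coeff n (1 : PowerSeries Ω) -
        ∑ m ∈ Finset.range n, PowerSeries.coeff (n - m) f * PowerSeries.coeff m g) := by
      refine (PGe.one (v := v) n).sub (RVal.Ge.sum _ _ fun m hm => ?_)
      have h5 := (h (n - m)).mul (ih m (Finset.mem_range.1 hm))
      rwa [add_neg_cancel] at h5
    have h5 := h3.mul h4
    rwa [add_zero] at h5

end PGe

theorem HSI.pge {h : F →ₐ[k] PowerSeries Ω} (hh : HSI v F h) {c : F} {b : ℝ}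
    (hb : v.Ge b (c : Ω)) : PGe v b (h c) := fun n => hh.norm n c b hb

theorem HSI.cc {h : F →ₐ[k] PowerSeries Ω} (hh : HSI v F h) (c : F) :
    PowerSeries.constantCoeff (h c) = (c : Ω) := by
  rw [← PowerSeries.coeff_zero_eq_constantCoeff_apply]
  exact hh.zero c

/-! ### Extension to the closure -/

/-- **Extension to the closure.** -/
theorem HSI.clI [Fact (Ctx0 k v)] (hΩ : CompleteV v) {h : F →ₐ[k] PowerSeries Ω}
    (hh : HSI v F h) : ∃ h' : D2P.clI v F →ₐ[k] PowerSeries Ω, HSI v (D2P.clI v F) h' ∧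
      ∀ (c : D2P.clI v F) (hc : (c : Ω) ∈ F), h' c = h ⟨c, hc⟩ := by
  classical
  have hd : DnsS v ((F.toSubalgebra.toSubmodule : Submodule k Ω) : Set Ω) (D2P.clI v F) := by
    intro y hy b
    obtain ⟨z, hz, h1⟩ := mem_clI.1 hy b
    exact ⟨z, hz, LUC.Cl.subset hz, h1⟩
  let f : ℕ → (F.toSubalgebra.toSubmodule : Submodule k Ω) →ₗ[k] Ω := fun n =>
    { toFun := fun y => PowerSeries.coeff n (h ⟨y, y.2⟩)
      map_add' := fun y z => by
        rw [← map_add, ← map_add]
        rfl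
      map_smul' := fun a y => by
        have e : (⟨((a • y : (F.toSubalgebra.toSubmodule : Submodule k Ω)) : Ω),
            (a • y : (F.toSubalgebra.toSubmodule : Submodule k Ω)).2⟩ : F) =
            a • (⟨y, y.2⟩ : F) := rfl
        rw [e, map_smul, RingHom.id_apply]
        exact PowerSeries.coeff_smul _ _ _ }
  choose φ hφ hφF using fun n => exists_extΩ hΩ (F.toSubalgebra.toSubmodule : Submodule k Ω) hd
    (f n) (fun a b hb => hh.norm n ⟨a, a.2⟩ b hb)
  have hF : ∀ (n : ℕ) (c : D2P.clI v F) (hc : (c : Ω) ∈ F),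
      φ n c = PowerSeries.coeff n (h ⟨c, hc⟩) := fun n c hc => hφF n c hc c.2
  have huct : ∀ n, UCt v (fun y : D2P.clI v F => φ n y) := fun n b =>
    ⟨b, fun y a hya => by
      rw [← map_sub]
      exact hφ n _ b hya⟩
  have hmul : ∀ (n : ℕ) (y z : D2P.clI v F), φ n (y * z) =
      ∑ ij ∈ Finset.HasAntidiagonal.antidiagonal n, φ ij.1 y * φ ij.2 z := by
    intro n y z
    have h1 : ∀ y : D2P.clI v F, (y : Ω) ∈ F → ∀ z : D2P.clI v F, φ n (y * z) =
        ∑ ij ∈ Finset.HasAntidiagonal.antidiagonal n, φ ij.1 y * φ ij.2 z := by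
      intro y hy
      refine UCt.eq hd ?_ (UCt.sum _ fun ij _ => (huct ij.2).const_mul _) fun z hz => ?_
      · exact (huct n).comp (g := fun z => y * z) (UCt.coe.const_mul (y : Ω))
      · have hyz : ((y * z : D2P.clI v F) : Ω) ∈ F := mul_mem hy hz
        rw [hF n _ hyz]
        have e : (⟨((y * z : D2P.clI v F) : Ω), hyz⟩ : F) = ⟨y, hy⟩ * ⟨z, hz⟩ := rfl
        rw [e, map_mul, PowerSeries.coeff_mul]
        refine Finset.sum_congr rfl fun ij _ => ?_
        rw [hF _ y hy, hF _ z hz]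
    have h2 : UCt v (fun y : D2P.clI v F => φ n (y * z)) := by
      refine (huct n).comp (g := fun y => y * z) ?_
      have := (UCt.coe (v := v) (E := D2P.clI v F)).const_mul (z : Ω)
      simpa [mul_comm] using this
    have h3 : UCt v (fun y : D2P.clI v F =>
        ∑ ij ∈ Finset.HasAntidiagonal.antidiagonal n, φ ij.1 y * φ ij.2 z) := by
      refine UCt.sum _ fun ij _ => ?_
      have := (huct ij.1).const_mul (φ ij.2 z)
      simpa [mul_comm] using this
    exact UCt.eq hd h2 h3 (fun a ha => h1 a ha z) y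
  have hone : ∀ n, φ n 1 = PowerSeries.coeff n (1 : PowerSeries Ω) := by
    intro n
    have h1 : ((1 : D2P.clI v F) : Ω) ∈ F := one_mem F
    rw [hF n 1 h1]
    have e : (⟨((1 : D2P.clI v F) : Ω), h1⟩ : F) = 1 := rfl
    rw [e, map_one h]
  let h' : D2P.clI v F →ₐ[k] PowerSeries Ω :=
    { toFun := fun y => PowerSeries.mk fun n => φ n y
      map_one' := by
        ext n
        rw [PowerSeries.coeff_mk, hone]
      map_mul' := fun y z => by
        ext n
        rw [PowerSeries.coeff_mk, hmul, PowerSeries.coeff_mul]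
        simp only [PowerSeries.coeff_mk]
      map_zero' := by
        ext n
        rw [PowerSeries.coeff_mk, map_zero, map_zero]
      map_add' := fun y z => by
        ext n
        rw [PowerSeries.coeff_mk, map_add, map_add, PowerSeries.coeff_mk, PowerSeries.coeff_mk]
      commutes' := fun a => by
        ext n
        have h1 : ((algebraMap k (D2P.clI v F) a : D2P.clI v F) : Ω) ∈ F := F.algebraMap_mem a
        rw [PowerSeries.coeff_mk, hF n _ h1]
        have e : (⟨((algebraMap k (D2P.clI v F) a : D2P.clI v F) : Ω), h1⟩ : F) =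
          algebraMap k F a := rfl
        rw [e, h.commutes] }
  have hco : ∀ n y, PowerSeries.coeff n (h' y) = φ n y := fun n y =>
    PowerSeries.coeff_mk n (fun n => φ n y)
  refine ⟨h', ⟨fun y => ?_, fun n y b hb => ?_⟩, fun c hc => ?_⟩
  · rw [hco]
    refine UCt.eq hd (huct 0) UCt.coe (fun a ha => ?_) y
    rw [hF 0 a ha]
    exact hh.zero ⟨a, ha⟩
  · rw [hco]
    exact hφ n y b hb
  · ext n
    rw [hco, hF n c hc]

/-! ### Extension to the rational functions -/

/-- **Extension to `F(y)`.** -/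
theorem HSI.adj {h : F →ₐ[k] PowerSeries Ω} (hh : HSI v F h) {y : Ω} (htr : Transcendental F y)
    {Y : PowerSeries Ω} (hY : PowerSeries.constantCoeff Y = y)
    (hb : ∀ (P : Polynomial F) (b : ℝ), v.Ge b (aeval y P) →
      PGe v b (eval₂ (h : F →+* PowerSeries Ω) Y P)) :
    ∃ h' : LU1.adj F y →ₐ[k] PowerSeries Ω, HSI v (LU1.adj F y) h' ∧
      (∀ (c : LU1.adj F y) (hc : (c : Ω) ∈ F), h' c = h ⟨c, hc⟩) ∧
      ∀ c : LU1.adj F y, (c : Ω) = y → h' c = Y := by
  classical
  set g : Polynomial F →+* PowerSeries Ω := eval₂RingHom (h : F →+* PowerSeries Ω) Y with hg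
  have hgP : ∀ P, g P = eval₂ (h : F →+* PowerSeries Ω) Y P := fun _ => rfl
  have hcc : ∀ P : Polynomial F, PowerSeries.constantCoeff (g P) = aeval y P := by
    intro P
    rw [hgP, hom_eval₂, hY, aeval_def]
    congr 1
    ext c
    exact hh.cc c
  have hne : ∀ P : Polynomial F, P ≠ 0 → aeval y P ≠ 0 := fun P hP h0 => htr ⟨P, hP, h0⟩
  have hunit : ∀ P : nonZeroDivisors (Polynomial F), IsUnit (g P) := by
    intro P
    rw [PowerSeries.isUnit_iff_constantCoeff, hcc]
    exact (hne P (nonZeroDivisors.ne_zero P.2)).isUnit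
  set ψ₀ : RatFunc F →+* PowerSeries Ω := IsLocalization.lift hunit with hψ₀
  have hψ₀P : ∀ P : Polynomial F, ψ₀ (algebraMap _ _ P) = g P := fun P =>
    IsLocalization.lift_eq hunit P
  set e₁ := RatFunc.algEquivOfTranscendental y htr with he₁
  set ψ : (IntermediateField.adjoin F {y}) →+* PowerSeries Ω :=
    ψ₀.comp (e₁.symm : _ →+* RatFunc F) with hψ
  have hψP : ∀ P : Polynomial F,
      ψ (aeval (IntermediateField.AdjoinSimple.gen F y) P) = g P := by
    intro P
    rw [hψ, RingHom.comp_apply, ← hψ₀P]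
    congr 1
    exact RatFunc.algEquivOfTranscendental_symm_aeval y htr P
  have hval : ∀ P : Polynomial F,
      ((aeval (IntermediateField.AdjoinSimple.gen F y) P : IntermediateField.adjoin F {y}) : Ω) =
        aeval y P := by
    intro P
    have := aeval_algHom_apply (IntermediateField.val (IntermediateField.adjoin F {y}))
      (IntermediateField.AdjoinSimple.gen F y) P
    exact this.symm
  have hC : ∀ c : F, ψ (algebraMap F _ c) = h c := by
    intro c
    have h1 := hψP (C c)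
    rw [aeval_C] at h1
    rw [h1, hgP, eval₂_C]
    rfl
  -- the quotients
  have hquot : ∀ z : IntermediateField.adjoin F {y}, ∃ r s : Polynomial F, s ≠ 0 ∧
      (z : Ω) * aeval y s = aeval y r ∧ ψ z * g s = g r := by
    intro z
    obtain ⟨r, s, hrs⟩ := (IntermediateField.mem_adjoin_simple_iff F (z : Ω)).1 z.2
    have key : ∀ r s : Polynomial F, s ≠ 0 → (z : Ω) * aeval y s = aeval y r →
        ψ z * g s = g r := by
      intro r s _ h1
      rw [← hψP s, ← hψP r, ← map_mul]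
      congr 1
      refine Subtype.ext ?_
      rw [← hval, ← hval] at h1
      exact h1
    by_cases hs : s = 0
    · rw [hs, map_zero, div_zero] at hrs
      have h1 : (z : Ω) * aeval y (1 : Polynomial F) = aeval y (0 : Polynomial F) := by
        rw [hrs, zero_mul, map_zero]
      exact ⟨0, 1, one_ne_zero, h1, key 0 1 one_ne_zero h1⟩
    · have h1 : (z : Ω) * aeval y s = aeval y r := by
        rw [hrs, div_mul_cancel₀ _ (hne s hs)]
      exact ⟨r, s, hs, h1, key r s hs h1⟩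
  have hzero : ∀ z, PowerSeries.coeff 0 (ψ z) = (z : Ω) := by
    intro z
    obtain ⟨r, s, hs, h1, h2⟩ := hquot z
    rw [PowerSeries.coeff_zero_eq_constantCoeff_apply]
    have h3 := congrArg PowerSeries.constantCoeff h2
    rw [map_mul, hcc, hcc, ← h1] at h3
    exact mul_right_cancel₀ (hne s hs) h3
  have hnorm : ∀ (n : ℕ) (z : IntermediateField.adjoin F {y}) (b : ℝ), v.Ge b (z : Ω) →
      v.Ge b (PowerSeries.coeff n (ψ z)) := by
    intro n z b hbz
    obtain ⟨r, s, hs, h1, h2⟩ := hquot z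
    have hsy := hne s hs
    have h3 : PGe v (v (aeval y s)) (g s) := hb s _ fun _ => le_rfl
    obtain ⟨g', hg'⟩ := (hunit ⟨s, mem_nonZeroDivisors_of_ne_zero hs⟩).exists_right_inv
    have h4 : PGe v (-(v (aeval y s))) g' := PGe.inv hsy (hcc s) h3 hg'
    have h5 : ψ z = g r * g' := by
      rw [← h2, mul_assoc, hg', mul_one]
    have h6 : PGe v (b + v (aeval y s)) (g r) := hb r _ (by
      rw [← h1]
      exact hbz.mul (RVal.ge_self _))
    rw [h5]
    exact (h6.mul h4).mono (by linarith) n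
  have hcomm : ∀ a : k, ψ (algebraMap k _ a) = algebraMap k (PowerSeries Ω) a := by
    intro a
    have e : (algebraMap k (IntermediateField.adjoin F {y}) a) =
      algebraMap F _ (algebraMap k F a) := rfl
    rw [e, hC, h.commutes]
  let ψ' : ((IntermediateField.adjoin F {y}).restrictScalars k : IntermediateField k Ω) →ₐ[k]
      PowerSeries Ω := { ψ with commutes' := hcomm }
  have hM : ∃ h' : ((IntermediateField.adjoin F {y}).restrictScalars k : IntermediateField k Ω)
      →ₐ[k] PowerSeries Ω, HSI v ((IntermediateField.adjoin F {y}).restrictScalars k) h' ∧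
      (∀ (c : ((IntermediateField.adjoin F {y}).restrictScalars k : IntermediateField k Ω))
        (hc : (c : Ω) ∈ F), h' c = h ⟨c, hc⟩) ∧
      ∀ c : ((IntermediateField.adjoin F {y}).restrictScalars k : IntermediateField k Ω),
        (c : Ω) = y → h' c = Y := by
    refine ⟨ψ', ⟨hzero, hnorm⟩, fun c hc => ?_, fun c hc => ?_⟩
    · have e : c = algebraMap F (IntermediateField.adjoin F {y}) ⟨c, hc⟩ := Subtype.ext rfl
      have h1 := hC ⟨c, hc⟩
      rw [← e] at h1
      exact h1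
    · have e : c = IntermediateField.AdjoinSimple.gen F y := Subtype.ext hc
      have h1 := hψP X
      rw [aeval_X, hgP, eval₂_X, ← e] at h1
      exact h1
  rw [D2P.adj_eq] at hM
  exact hM

/-! ### The bound for the polynomials -/

section Bound

variable {p : ℕ} [hp : Fact p.Prime] [CharP Ω p] {h : F →ₐ[k] PowerSeries Ω}
  {A : ℕ → ℕ → L →ₗ[k] Ω}

/-- The elements of level `n` of `L`. -/
noncomputable def Lvl (p : ℕ) [Fact p.Prime] [CharP Ω p] (F L : IntermediateField k Ω) (n : ℕ) :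
    IntermediateField k Ω := rootF p n F ⊓ L

theorem mem_Lvl {n : ℕ} {c : Ω} : c ∈ Lvl p F L n ↔ c ^ p ^ n ∈ F ∧ c ∈ L := by
  rw [Lvl, IntermediateField.mem_inf, mem_rootF]

/-- `c ↦ ∑ A n j c S ^ j` -/
noncomputable def HSX.ser (hA : HSX p v F L h A) (n : ℕ) : Lvl p F L n →+* PowerSeries Ω where
  toFun c := PowerSeries.mk fun j => A n j ⟨c, (mem_Lvl.1 c.2).2⟩
  map_one' := by
    ext j
    rw [PowerSeries.coeff_mk, PowerSeries.coeff_one]
    have e : (⟨((1 : Lvl p F L n) : Ω), (mem_Lvl.1 (1 : Lvl p F L n).2).2⟩ : L) = 1 := rfl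
    rw [e]
    split_ifs with hj
    · rw [hj, hA.zero]
      rfl
    · exact hA.one n j hj
  map_mul' c d := by
    ext j
    rw [PowerSeries.coeff_mk, PowerSeries.coeff_mul]
    have e : (⟨((c * d : Lvl p F L n) : Ω), (mem_Lvl.1 (c * d : Lvl p F L n).2).2⟩ : L) =
      ⟨c, (mem_Lvl.1 c.2).2⟩ * ⟨d, (mem_Lvl.1 d.2).2⟩ := rfl
    rw [e, hA.mul n j _ _ (mem_Lvl.1 c.2).1]
    simp only [PowerSeries.coeff_mk]
  map_zero' := by
    ext j
    rw [PowerSeries.coeff_mk, map_zero]
    have e : (⟨((0 : Lvl p F L n) : Ω), (mem_Lvl.1 (0 : Lvl p F L n).2).2⟩ : L) = 0 := rfl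
    rw [e, map_zero]
  map_add' c d := by
    ext j
    rw [PowerSeries.coeff_mk, map_add, PowerSeries.coeff_mk, PowerSeries.coeff_mk, ← map_add]
    rfl

theorem HSX.coeff_ser (hA : HSX p v F L h A) (n j : ℕ) (c : Lvl p F L n) :
    PowerSeries.coeff j (hA.ser n c) = A n j ⟨c, (mem_Lvl.1 c.2).2⟩ :=
  PowerSeries.coeff_mk j (fun j => A n j ⟨c, (mem_Lvl.1 c.2).2⟩)

theorem HSX.ser_pge (hA : HSX p v F L h A) (n : ℕ) {c : Lvl p F L n} {b : ℝ}
    (hb : v.Ge b (c : Ω)) : PGe v b (hA.ser n c) := fun j => by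
  rw [hA.coeff_ser]
  exact hA.norm n j _ b hb

/-- On `F` it is `h (S ^ (p ^ n))`. -/
theorem HSX.ser_base [IsAlgClosed Ω] (hA : HSX p v F L h A) (n : ℕ) {c : Lvl p F L n}
    (hc : (c : Ω) ∈ F) :
    hA.ser n c = PowerSeries.expand (p ^ n) (pow_pos hp.out.pos n).ne' (h ⟨c, hc⟩) := by
  ext j
  rw [hA.coeff_ser, PowerSeries.coeff_expand]
  split_ifs with hj
  · obtain ⟨i, rfl⟩ := hj
    have h1 := hA.up_pow 0 n i ⟨c, (mem_Lvl.1 c.2).2⟩
    rw [zero_add] at h1
    rw [h1, Nat.mul_div_cancel_left _ (pow_pos hp.out.pos n)]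
    exact hA.ext i _ hc
  · have h1 := hA.van 0 n j ⟨c, (mem_Lvl.1 c.2).2⟩ (by rw [pow_zero, pow_one]; exact hc) hj
    rwa [zero_add] at h1

omit [CharP Ω p] hp in
/-- Jets at a near element. -/
theorem jet_near {P : Polynomial Ω} {y ψ : Ω} {V d ε : ℝ} (hε : 0 ≤ ε)
    (h0 : v.Ge V (P.eval y)) (hd : ∀ l, 1 ≤ l → v.Ge (V + d) ((taylor y P).coeff l))
    (hdε : P.natDegree * ε ≤ d) (hψ : v.Ge (-ε) (y - ψ)) :
    v.Ge V (P.eval ψ) ∧ ∀ l, 1 ≤ l → v.Ge (V + d - P.natDegree * ε) ((taylor ψ P).coeff l) := by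
  have key : ∀ l, v.Ge (if l = 0 then V else V + d - P.natDegree * ε) ((taylor ψ P).coeff l) := by
    intro l
    have e : taylor ψ P = taylor (ψ - y) (taylor y P) := by
      rw [taylor_taylor, sub_add_cancel]
    rw [e, taylor_coeff, hasseDeriv_apply, Polynomial.sum, eval_finsetSum]
    refine RVal.Ge.sum _ _ fun n hn => ?_
    rw [eval_monomial]
    rcases lt_or_ge n l with h7 | h7
    · rw [Nat.choose_eq_zero_of_lt h7, Nat.cast_zero, zero_mul, zero_mul]
      exact RVal.Ge.zero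
    · have h8 : n ≤ P.natDegree := by
        have h9 := le_natDegree_of_mem_supp n hn
        rwa [natDegree_taylor] at h9
      have hψ' : v.Ge (-ε) (ψ - y) := by
        rw [← neg_sub]
        exact hψ.neg
      have h10 := ge_pow hψ' (n - l)
      have h11 : ((n - l : ℕ) : ℝ) ≤ P.natDegree := by
        have : n - l ≤ P.natDegree := by omega
        exact_mod_cast this
      rw [mul_assoc]
      rcases Nat.eq_zero_or_pos n with h12 | h12
      · have hl : l = 0 := by omega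
        subst h12
        subst hl
        rw [if_pos rfl, taylor_coeff_zero]
        have h13 := (ge_natCast v (Nat.choose 0 0)).mul (h0.mul h10)
        refine h13.mono (le_of_eq ?_)
        simp
      · have h13 := (ge_natCast v (n.choose l)).mul ((hd n h12).mul h10)
        refine h13.mono ?_
        have h14 : ((n - l : ℕ) : ℝ) * ε ≤ P.natDegree * ε := mul_le_mul_of_nonneg_right h11 hε
        split_ifs
        · nlinarith
        · nlinarith
  refine ⟨?_, fun l hl => ?_⟩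
  · have := key 0
    rwa [if_pos rfl, taylor_coeff_zero] at this
  · have := key l
    rwa [if_neg (by omega)] at this

/-- **The bound.** -/
theorem HSX.bound [IsAlgClosed Ω] (hA : HSX p v F L h A) (hFL : F ≤ L) (hFE : F ≤ algc E₀) {y : Ω}
    (hT : TL v E₀ y 0) {Y : PowerSeries Ω}
    (hyp : ∀ ε : ℝ, 0 < ε → ∃ (n : ℕ) (ψ : Lvl p F L n), v.Ge (-ε) (y - ψ) ∧
      PGe v (-ε) (PowerSeries.expand (p ^ n) (pow_pos hp.out.pos n).ne' Y - hA.ser n ψ))
    (P : Polynomial F) {b : ℝ} (hb : v.Ge b (aeval y P)) :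
    PGe v b (eval₂ (h : F →+* PowerSeries Ω) Y P) := by
  classical
  by_cases hP : P = 0
  · rw [hP, eval₂_zero]
    exact PGe.zero
  set P' : Polynomial Ω := P.map (algebraMap F Ω) with hP'
  have hP'0 : P' ≠ 0 := (Polynomial.map_ne_zero_iff (algebraMap F Ω).injective).2 hP
  have hP'E : P' ∈ PI (algc E₀) := fun i => by
    rw [hP', coeff_map]
    exact hFE (SetLike.coe_mem _)
  have hev : aeval y P = P'.eval y := by rw [hP', eval_map_algebraMap]
  have hne : P'.eval y ≠ 0 := hT.eval_ne hP'E hP'0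
  set V := v (P'.eval y) with hV
  have hbV : b ≤ V := by
    rw [hev] at hb
    exact hb hne
  obtain ⟨d, hd, h1⟩ := NotRoot.exists_gap (f := fun l => v ((taylor y P').coeff l))
    (P := fun l => 1 ≤ l ∧ (taylor y P').coeff l ≠ 0) (κ := fun _ => V)
    (P'.natDegree + 1) (fun l _ hl => by
      have := hT.strict hP'E hP'0 hl.1 hl.2
      rw [mul_zero, sub_zero] at this
      exact this)
  have hd' : ∀ l, 1 ≤ l → v.Ge (V + d) ((taylor y P').coeff l) := by
    intro l hl h0
    refine h1 l ?_ ⟨hl, h0⟩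
    by_contra hno
    refine h0 (coeff_eq_zero_of_natDegree_lt ?_)
    rw [natDegree_taylor]
    omega
  set D := P'.natDegree with hD
  have hD0 : (0 : ℝ) < 2 * D + 1 := by positivity
  set ε := d / (2 * D + 1) with hε
  have hε0 : 0 < ε := div_pos hd hD0
  have hDε : (2 * D + 1) * ε = d := by
    rw [hε]
    field_simp
  obtain ⟨n, ψ, h2, h3⟩ := hyp ε hε0
  obtain ⟨h4, h5⟩ := jet_near (d := d) hε0.le (fun _ => le_rfl : v.Ge V (P'.eval y)) hd'
    (by nlinarith) h2
  -- pass to the series in `S`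
  set ι := PowerSeries.expand (R := Ω) (p ^ n) (pow_pos hp.out.pos n).ne' with hι
  suffices h6 : PGe v b (ι (eval₂ (h : F →+* PowerSeries Ω) Y P)) by
    intro i
    have := h6 (p ^ n * i)
    rwa [hι, PowerSeries.coeff_expand_mul] at this
  have hincl : ∀ c : F, (c : Ω) ∈ Lvl p F L n := fun c =>
    mem_Lvl.2 ⟨pow_mem c.2 _, hFL c.2⟩
  set j : F →+* Lvl p F L n :=
    (IntermediateField.inclusion (fun c hc => mem_Lvl.2 ⟨pow_mem hc _, hFL hc⟩ :
      F ≤ Lvl p F L n) : F →+* Lvl p F L n) with hj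
  set Q : Polynomial (Lvl p F L n) := P.map j with hQ
  have e1 : ι (eval₂ (h : F →+* PowerSeries Ω) Y P) = eval (ι Y) (Q.map (hA.ser n)) := by
    rw [hQ, Polynomial.map_map, eval_map, ← AlgHom.coe_toRingHom ι, hom_eval₂]
    congr 1
    ext1 c
    rw [RingHom.comp_apply, RingHom.comp_apply]
    exact (hA.ser_base n (c := j c) c.2).symm
  have hQc : ∀ l, (((taylor ψ Q).coeff l : Lvl p F L n) : Ω) = (taylor (ψ : Ω) P').coeff l := by
    intro l
    have h7 : (taylor ψ Q).map (algebraMap (Lvl p F L n) Ω) = taylor (ψ : Ω) P' := by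
      rw [map_taylor, hQ, Polynomial.map_map, hP']
      rfl
    rw [← h7, coeff_map]
    rfl
  have e2 : eval (ι Y) (Q.map (hA.ser n)) = ∑ l ∈ Finset.range (D + 1),
      hA.ser n ((taylor ψ Q).coeff l) * (ι Y - hA.ser n ψ) ^ l := by
    have h7 : eval (ι Y) (Q.map (hA.ser n)) =
        eval (ι Y - hA.ser n ψ) (taylor (hA.ser n ψ) (Q.map (hA.ser n))) := by
      rw [taylor_eval_sub]
    rw [h7, ← map_taylor, eval_eq_sum_range' (n := D + 1)]
    · refine Finset.sum_congr rfl fun l _ => ?_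
      rw [coeff_map]
    · refine Nat.lt_succ_of_le ((natDegree_map_le).trans ?_)
      rw [natDegree_taylor, hQ]
      refine (natDegree_map_le).trans (le_of_eq ?_)
      rw [hD, hP', natDegree_map]
  rw [e1, e2]
  refine PGe.sum _ fun l hl => ?_
  rcases Nat.eq_zero_or_pos l with rfl | hl0
  · rw [pow_zero, mul_one]
    refine (hA.ser_pge n (b := V) ?_).mono hbV
    rw [hQc, taylor_coeff_zero]
    exact h4
  · have h7 : PGe v (V + d - D * ε) (hA.ser n ((taylor ψ Q).coeff l)) := by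
      refine hA.ser_pge n ?_
      rw [hQc]
      exact h5 l hl0
    refine (h7.mul (h3.pow l)).mono ?_
    have h8 : (l : ℝ) ≤ D := by exact_mod_cast Nat.lt_succ_iff.1 (Finset.mem_range.1 hl)
    nlinarith

/-- **EXT.** Extension of `h` to the closure of `F(y)`. -/
theorem HSX.extend [IsAlgClosed Ω] [Fact (Ctx0 k v)] (hΩ : CompleteV v) (hh : HSI v F h)
    (hA : HSX p v F L h A) (hFL : F ≤ L) (hFE : F ≤ algc E₀) {y : Ω} (hT : TL v E₀ y 0)
    {Y : PowerSeries Ω} (hY : PowerSeries.constantCoeff Y = y)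
    (hyp : ∀ ε : ℝ, 0 < ε → ∃ (n : ℕ) (ψ : Lvl p F L n), v.Ge (-ε) (y - ψ) ∧
      PGe v (-ε) (PowerSeries.expand (p ^ n) (pow_pos hp.out.pos n).ne' Y - hA.ser n ψ)) :
    ∃ h' : cadj v F y →ₐ[k] PowerSeries Ω, HSI v (cadj v F y) h' ∧
      (∀ (c : cadj v F y) (hc : (c : Ω) ∈ F), h' c = h ⟨c, hc⟩) ∧
      ∀ c : cadj v F y, (c : Ω) = y → h' c = Y := by
  have htr : Transcendental F y := by
    intro hal
    have h1 : IsAlgebraic E₀ y := by
      have h2 : IsAlgebraic (algc E₀) y := D2P.isAlgebraic_mono hFE hal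
      exact isAlgebraic_of_algc h2
    exact (hT.far y h1).1 rfl
  obtain ⟨h₁, h2, h3, h4⟩ := hh.adj htr hY fun P b hb => hA.bound hFL hFE hT hyp P hb
  obtain ⟨h', h5, h6⟩ := h2.clI hΩ
  refine ⟨h', h5, fun c hc => ?_, fun c hc => ?_⟩
  · have h7 : (c : Ω) ∈ LU1.adj F y := (D2P.mem_adj_self F y).2 hc
    exact (h6 c h7).trans (h3 ⟨c, h7⟩ hc)
  · have h7 : (c : Ω) ∈ LU1.adj F y := by
      rw [hc]
      exact (D2P.mem_adj_self F y).1
    exact (h6 c h7).trans (h4 ⟨c, h7⟩ hc)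

/-! ### The natural extension -/

/-- Limits of the operators along the elements near to `y`. -/
theorem exists_zeta (hS : TWS.SphC v) (hE₀ : E₀ ≤ L) (φ : ℕ → L →ₗ[k] Ω)
    (hφ : ∀ (n : ℕ) (y : L) (b : ℝ), v.Ge b (y : Ω) → v.Ge b (φ n y)) {y : Ω}
    (hy : Lim v E₀ 0 y) : ∃ ζ : ℕ → Ω, ∀ (q : ℕ) (ε : ℝ), 0 < ε → ∀ ψ : E₀,
      v.Ge (-ε) (y - ψ) → v.Ge (-ε) (ζ q - φ q ⟨ψ, hE₀ ψ.2⟩) := by
  have h1 : ∀ n : ℕ, ∃ a : E₀, v.Ge (-(1 / ((n : ℝ) + 1))) (y - a) := by
    intro n
    obtain ⟨a, ha, h1⟩ := hy (1 / ((n : ℝ) + 1)) (by positivity)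
    rw [zero_sub] at h1
    exact ⟨⟨a, ha⟩, h1⟩
  choose a ha using h1
  have hmono : ∀ n m : ℕ, n ≤ m → -(1 / ((n : ℝ) + 1)) ≤ -(1 / ((m : ℝ) + 1)) := by
    intro n m hnm
    have : (n : ℝ) ≤ m := by exact_mod_cast hnm
    rw [neg_le_neg_iff]
    exact one_div_le_one_div_of_le (by positivity) (by linarith)
  have h2 : ∀ q : ℕ, ∃ z : Ω, ∀ n : ℕ,
      v.Ge (-(1 / ((n : ℝ) + 1))) (z - φ q ⟨a n, hE₀ (a n).2⟩) := by
    intro q
    refine hS (fun n => φ q ⟨a n, hE₀ (a n).2⟩) (fun n => -(1 / ((n : ℝ) + 1))) ?_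
    intro n m hnm
    rw [← map_sub]
    refine hφ q _ _ ?_
    change v.Ge _ ((a m : Ω) - a n)
    have e : (a m : Ω) - a n = (y - a n) - (y - a m) := by ring
    rw [e]
    exact (ha n).sub ((ha m).mono (hmono n m hnm))
  choose ζ hζ using h2
  refine ⟨ζ, fun q ε hε ψ hψ => ?_⟩
  obtain ⟨n, hn⟩ := exists_nat_one_div_lt hε
  have e : ζ q - φ q ⟨ψ, hE₀ ψ.2⟩ = (ζ q - φ q ⟨a n, hE₀ (a n).2⟩) +
      φ q (⟨a n, hE₀ (a n).2⟩ - ⟨ψ, hE₀ ψ.2⟩) := by
    rw [map_sub]
    ring
  rw [e]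
  refine ((hζ q n).mono (by linarith)).add (hφ q _ _ ?_)
  change v.Ge _ ((a n : Ω) - ψ)
  have e2 : (a n : Ω) - ψ = (y - ψ) - (y - a n) := by ring
  rw [e2]
  exact hψ.sub ((ha n).mono (by linarith))

/-- The elements `P (x n)` are of level `n`. -/
theorem ax_lvl {x : ℕ → Ω} (hr : ∀ n, x (n + 1) ^ p = x n) (h0 : x 0 ∈ F) (hFL : F ≤ L)
    (hx : ∀ n, x n ∈ L) (n : ℕ) {P : Polynomial Ω} (hP : P ∈ PI F) :
    P.eval (x n) ∈ Lvl p F L n := by
  refine eval_mem (PI_mono (fun c hc => mem_Lvl.2 ⟨pow_mem hc _, hFL hc⟩) hP)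
    (mem_Lvl.2 ⟨?_, hx n⟩)
  have := root_pow_add hr 0 n
  rw [zero_add] at this
  rw [this]
  exact h0

/-- **The natural extension.** `y ∈ B` of transcendental type over the closure `E₀` of
`F(x ^ (1 / p ^ ∞))`, the `B`-linear operators of `x` of norm `≤ w n f ≤ v (χ n ^ f)`. -/
theorem HSX.nat_extend [IsAlgClosed Ω] [Fact (Ctx0 k v)] (hΩ : CompleteV v) (hS : TWS.SphC v)
    (hh : HSI v F h) (hA : HSX p v F L h A) {x χ : ℕ → Ω} (hx : XT L A x χ) (h0 : x 0 ∈ F)
    (hFL : F ≤ L) (hE₀ : E₀ ≤ L) {w w₀ : ℕ → ℕ → ℝ} {D : ℕ → ℕ → Module.End k E₀}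
    (hD : ThX p v F E₀ x w₀ D) (hFB : F ≤ B) (hE : Cld v E) (hBE : B ≤ E) (hEE : E₀ ≤ E)
    (hd : DnsS v (AX B x) E) (hB : NBX p v B x w)
    (hw : ∀ n, ∀ f < p ^ n, f ≠ 0 → v.Ge (w n f) (χ n ^ f)) {y : Ω} (hyB : y ∈ B)
    (hT : TL v E₀ y 0) :
    ∃ h' : cadj v F y →ₐ[k] PowerSeries Ω, HSI v (cadj v F y) h' ∧
      (∀ (c : cadj v F y) (hc : (c : Ω) ∈ F), h' c = h ⟨c, hc⟩) ∧
      ∀ c : cadj v F y, (c : Ω) = y → ∀ (q : ℕ) (ε : ℝ), 0 < ε → ∀ ψ : E₀,
        v.Ge (-ε) (y - ψ) → v.Ge (-ε) (PowerSeries.coeff q (h' c) - A 0 q ⟨ψ, hE₀ ψ.2⟩) := by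
  classical
  obtain ⟨ζ, hζ⟩ := exists_zeta hS hE₀ (fun q => A 0 q) (fun n y b => hA.norm 0 n y b) hT.lim
  set Y : PowerSeries Ω := PowerSeries.mk fun q => if q = 0 then y else ζ q with hYdef
  have hY0 : PowerSeries.constantCoeff Y = y := by
    rw [← PowerSeries.coeff_zero_eq_constantCoeff_apply, hYdef, PowerSeries.coeff_mk, if_pos rfl]
  have hYq : ∀ (q : ℕ) (ε : ℝ), 0 < ε → ∀ ψ : E₀, v.Ge (-ε) (y - ψ) →
      v.Ge (-ε) (PowerSeries.coeff q Y - A 0 q ⟨ψ, hE₀ ψ.2⟩) := by
    intro q ε hε ψ hψ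
    rw [hYdef, PowerSeries.coeff_mk]
    split_ifs with hq
    · rw [hq, hA.zero]
      exact hψ
    · exact hζ q ε hε ψ hψ
  obtain ⟨h', h1, h2, h3⟩ := hA.extend hΩ hh hFL (hD.le.trans (le_algc E₀)) hT hY0 (fun ε hε => by
    obtain ⟨a, ha, h1⟩ := hT.lim ε hε
    rw [zero_sub] at h1
    obtain ⟨a', ⟨n, P, hP, ha'⟩, ha'E, h2⟩ := hD.dense a ha (-ε)
    have hya : v.Ge (-ε) (y - a') := by
      have e : y - a' = (y - a) + (a - a') := by ring
      rw [e]
      exact h1.add h2
    have hl : a' ∈ Lvl p F L n := by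
      rw [ha']
      exact ax_lvl hD.nbx.root h0 hFL hx.mem n hP
    refine ⟨n, ⟨a', hl⟩, hya, fun j => ?_⟩
    rw [map_sub, hA.coeff_ser, PowerSeries.coeff_expand]
    split_ifs with hj
    · obtain ⟨q, rfl⟩ := hj
      have h3 := hA.up_pow 0 n q ⟨a', (mem_Lvl.1 hl).2⟩
      rw [zero_add] at h3
      rw [Nat.mul_div_cancel_left _ (pow_pos hp.out.pos n), h3]
      exact hYq q ε hε ⟨a', ha'E⟩ hya
    · rw [zero_sub]
      have e := Nat.div_add_mod j (p ^ n)
      have hf : j % p ^ n < p ^ n := Nat.mod_lt _ (pow_pos hp.out.pos n)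
      have hf0 : j % p ^ n ≠ 0 := fun h => hj (Nat.dvd_of_mod_eq_zero h)
      have h4 := HSX.nat_near hΩ hA hx h0 hFL hE₀ hD hFB hE hBE hEE hd hB (q := j / p ^ n) hf hf0
        (hw n _ hf hf0) (y := ⟨a', ha'E⟩) hyB (b := -ε) (by
          have e2 : a' - y = -(y - a') := by ring
          change v.Ge (-ε) (a' - y)
          rw [e2]
          exact hya.neg)
      rw [e] at h4
      exact h4.neg)
  refine ⟨h', h1, h2, fun c hc q ε hε ψ hψ => ?_⟩
  rw [h3 c hc]
  exact hYq q ε hε ψ hψ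

end Bound

end Pool.Agent.TWC
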