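import Pool.Agent.Lib.TWC.BdTowA
import Pool.Agent.Lib.TWM.S8b
import Pool.Agent.Lib.TW.P4b

/-!
# TANK W: closed fields of finite type as unions of closed fields

`K₀` finitely generated with bounded distortion, `K` its closure, `Ω` complete.

* `near_kr`, `near_clI_kr`: the closure of `k(t')` is near to the one of `k(t)`, `t'` near `t`;
* `exists_bas_kr`: `K` is finite over the closure of `k(t)`, `t` a `p`-basis of `K₀`;
* `le_of_near`: successive approximation;
* `fg_le`: there are finitely many elements `a_i` of `K` and `R` such that every closed subfield of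
  `K` with elements at distance `≥ R` of the `a_i` is `K`;
* `fg_lim`: if `K` is the closure of an increasing union of closed subfields, it is one of them.
-/

set_option autoImplicit false

open Polynomial

namespace Pool.Agent.TWC

open Pool.Agent.H15JM (RVal)
open Pool.Agent.LUC (Cl clF)
open Pool.Agent.D2 (Ctx0)
open Pool.Agent.D2P (clI mem_clI)
open Pool.Agent.TWM
open Pool.Agent.TW (BD PBasis Orthq Ind Bas kr Near exists_bas)

universe u

variable {k Ω : Type u} [Field k] [Field Ω] [Algebra k Ω] {v : RVal Ω}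
  {K₀ K L F : IntermediateField k Ω} {n : ℕ} {t : Fin n → Ω} {C : ℝ}

/-- Successive approximation. -/
theorem le_of_near (hL : Cld v L) (hLK : L ≤ K)
    (h : ∀ x ∈ K, x ≠ 0 → ∃ x' ∈ L, v.Ge (v x + 1) (x - x')) : K ≤ L := by
  intro x hx
  by_cases hx0 : x = 0
  · rw [hx0]
    exact zero_mem L
  refine hL (mem_clI.2 fun r => ?_)
  have key : ∀ m : ℕ, ∃ y ∈ L, v.Ge (v x + m) (x - y) := by
    intro m
    induction m with
    | zero => exact ⟨0, zero_mem L, by
        rw [sub_zero, Nat.cast_zero, add_zero]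
        exact RVal.ge_self _⟩
    | succ m ih =>
      obtain ⟨y, hy, h1⟩ := ih
      by_cases h0 : x - y = 0
      · exact ⟨y, hy, by rw [h0]; exact RVal.Ge.zero⟩
      · obtain ⟨z, hz, h2⟩ := h (x - y) (sub_mem hx (hLK hy)) h0
        refine ⟨y + z, add_mem hy hz, ?_⟩
        have h3 := h1 h0
        have e : x - (y + z) = x - y - z := by ring
        rw [e]
        refine h2.mono ?_
        push_cast
        linarith
  obtain ⟨m, hm⟩ := exists_nat_ge (r - v x)
  obtain ⟨y, hy, h1⟩ := key m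
  exact ⟨y, hy, h1.mono (by linarith)⟩

variable {p : ℕ} [hp : Fact p.Prime] [CharP Ω p]

/-- The field `k(t')` is near to `k(t)`. -/
theorem near_kr [CharP k p] [IsAlgClosed k] (h0 : Ctx0 k v) (ho : OI p v (kr k t) t C)
    (ht0 : ∀ i, t i ≠ 0) (D : ℝ) :
    ∃ R : ℝ, ∀ t' : Fin n → Ω, (∀ i, v.Ge R (t i - t' i)) →
      ∀ x ∈ kr k t, x ≠ 0 → ∃ x' ∈ kr k t', v.Ge (v x + D) (x - x') := by
  obtain ⟨C', hC', hN⟩ := near_of_oi h0 ho ht0
  have hai : AlgebraicIndependent k t := ho.algInd ht0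
  refine ⟨(∑ i, |v (t i)|) + (C' + (|D| + 1)), fun t' ht' x hx hx0 => ?_⟩
  have hD := abs_nonneg D
  have hN' := hN (C' + (|D| + 1)) t' (by linarith) fun i => (ht' i).mono (by
    have h1 : |v (t i)| ≤ ∑ i, |v (t i)| :=
      Finset.single_le_sum (f := fun i => |v (t i)|) (fun i _ => abs_nonneg _)
        (Finset.mem_univ i)
    have h2 := le_abs_self (v (t i))
    linarith)
  obtain ⟨P, Q, hQ, hPQ⟩ := TW.P4bAux.exists_frac hai hx
  have hP : MvPolynomial.aeval t P ≠ 0 := fun h => hx0 (by rw [hPQ, h, zero_div])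
  have h1 := hN'.near P hP
  have h2 := hN'.near Q hQ
  set P₀ := MvPolynomial.aeval t P
  set Q₀ := MvPolynomial.aeval t Q
  set P₁ := MvPolynomial.aeval t' P with hP₁
  set Q₁ := MvPolynomial.aeval t' Q with hQ₁
  obtain ⟨h3, h4⟩ := Gt.val_eq hQ (y := Q₁) (Gt.of_ge (r' := v Q₀ + (C' + (|D| + 1) - C'))
    (ge_sub_comm h2) (by linarith))
  have hmem : ∀ S : MvPolynomial (Fin n) k, MvPolynomial.aeval t' S ∈ kr k t' := by
    intro S
    have h5 : MvPolynomial.aeval t' S ∈ Algebra.adjoin k (Set.range t') := by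
      rw [Algebra.adjoin_range_eq_range_aeval]
      exact ⟨S, rfl⟩
    exact IntermediateField.algebra_adjoin_le_adjoin k _ h5
  refine ⟨P₁ / Q₁, div_mem (hmem P) (hmem Q), ?_⟩
  have e : x - P₁ / Q₁ = (P₀ * (Q₁ - Q₀) - Q₀ * (P₁ - P₀)) / (Q₀ * Q₁) := by
    rw [hPQ]
    field_simp
    ring
  rw [e]
  have h5 : v.Ge (v P₀ + v Q₀ + (|D| + 1)) (P₀ * (Q₁ - Q₀) - Q₀ * (P₁ - P₀)) := by
    refine RVal.Ge.sub ?_ ?_
    · exact ((RVal.ge_self (v := v) P₀).mul h2).mono (by linarith)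
    · exact ((RVal.ge_self (v := v) Q₀).mul h1).mono (by linarith)
  intro h6
  have h7 : P₀ * (Q₁ - Q₀) - Q₀ * (P₁ - P₀) ≠ 0 := fun h => h6 (by rw [h, zero_div])
  have h8 := h5 h7
  rw [v.map_div h7 (mul_ne_zero hQ h3), v.map_mul hQ h3, h4, hPQ, v.map_div hP hQ]
  have h9 := le_abs_self D
  linarith

/-- The closure of `k(t')` is near to the one of `k(t)`. -/
theorem near_clI_kr [CharP k p] [IsAlgClosed k] (h0 : Ctx0 k v) (ho : OI p v (kr k t) t C)
    (ht0 : ∀ i, t i ≠ 0) (D : ℝ) :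
    ∃ R : ℝ, ∀ t' : Fin n → Ω, (∀ i, v.Ge R (t i - t' i)) →
      ∀ x ∈ clI v (kr k t), x ≠ 0 → ∃ x' ∈ kr k t', v.Ge (v x + D) (x - x') := by
  obtain ⟨R, hR⟩ := near_kr h0 ho ht0 D
  refine ⟨R, fun t' ht' x hx hx0 => ?_⟩
  obtain ⟨y, hy, h1⟩ := mem_clI.1 hx (v x + (|D| + 1))
  have hD := abs_nonneg D
  obtain ⟨h2, h3⟩ := Gt.val_eq hx0 (y := y) (Gt.of_ge h1 (by linarith))
  obtain ⟨z, hz, h4⟩ := hR t' ht' y hy h2
  refine ⟨z, hz, ?_⟩
  have e : x - z = (x - y) + (y - z) := by ring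
  rw [e]
  rw [h3] at h4
  exact (h1.mono (by linarith [le_abs_self D])).add h4

/-- The closure of `K₀` is finite over the closure of `k(t)`, `t` a `p`-basis of `K₀`. -/
theorem exists_bas_kr [CharP k p] [IsAlgClosed k] [IsAlgClosed Ω] (hc : CompleteV v)
    (hK₀ : K₀.FG) (ht : PBasis p K₀ t) : ∃ (m : ℕ) (e : Fin m → Ω),
      Bas (clI v (kr k t)).toSubfield (clI v K₀).toSubfield e := by
  have hle : kr k t ≤ K₀ := by
    rw [IntermediateField.adjoin_le_iff]
    rintro _ ⟨i, rfl⟩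
    exact ht.mem i
  obtain ⟨-, -, hsep⟩ := ht.trdeg p hK₀
  obtain ⟨S, hS⟩ := hK₀
  have hSK : ∀ x ∈ S, x ∈ K₀ := fun x hx => by
    rw [← hS]
    exact IntermediateField.subset_adjoin k _ hx
  have hint : ∀ x ∈ (S : Set Ω), IsIntegral (kr k t) x := fun x hx =>
    (hsep x (hSK x hx)).isIntegral
  have h1 : FiniteDimensional (kr k t) (IntermediateField.adjoin (kr k t) (S : Set Ω)) :=
    IntermediateField.finiteDimensional_adjoin hint
  have h2 : ∀ x ∈ K₀, x ∈ IntermediateField.adjoin (kr k t) (S : Set Ω) := by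
    intro x hx
    rw [← hS] at hx
    induction hx using IntermediateField.adjoin_induction with
    | mem x hx => exact IntermediateField.subset_adjoin _ _ hx
    | algebraMap x =>
      exact (IntermediateField.adjoin (kr k t) (S : Set Ω)).algebraMap_mem
        (⟨algebraMap k Ω x, (kr k t).algebraMap_mem x⟩ : kr k t)
    | add x y _ _ hx hy => exact add_mem hx hy
    | inv x _ hx => exact inv_mem hx
    | mul x y _ _ hx hy => exact mul_mem hx hy
  set W := IntermediateField.adjoin (kr k t) (S : Set Ω) with hW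
  have hfree : Module.Free (kr k t) W := Module.Free.of_divisionRing _ _
  set B := Module.finBasis (kr k t) W with hB
  have h3 : ∀ x ∈ K₀, TW.Spn (kr k t).toSubfield (fun i => ((B i : W) : Ω)) x := by
    intro x hx
    refine ⟨fun i => (B.repr ⟨x, h2 x hx⟩ i : Ω), fun i => (B.repr ⟨x, h2 x hx⟩ i).2, ?_⟩
    have h4 := congrArg (fun y : W => (y : Ω)) (B.sum_repr ⟨x, h2 x hx⟩)
    simp only [AddSubmonoidClass.coe_finsetSum] at h4
    exact h4.symm
  have h4 : ∀ u ∈ (clI v K₀).toSubfield,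
      TW.Spn (clI v (kr k t)).toSubfield (fun i => ((B i : W) : Ω)) u := by
    intro u hu
    refine spn_of_lim hc (fun x hx => cld_clI v (kr k t) hx) fun c => ?_
    obtain ⟨a, ha, h5⟩ := mem_clI.1 (show u ∈ clI v K₀ from hu) c
    exact ⟨a, (h3 a ha).mono fun x hx => self_le_clI v (kr k t) hx, h5⟩
  exact exists_bas (fun x hx => clI_mono' hle hx) h4

/-- **The neighbourhood of a closed field of finite type.** -/
theorem fg_le [CharP k p] [IsAlgClosed k] [IsAlgClosed Ω] (h0 : Ctx0 k v) (hc : CompleteV v)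
    (hK₀ : K₀.FG) (hBD : BD p v K₀) : ∃ (N : ℕ) (a : Fin N → Ω) (R : ℝ),
      (∀ i, a i ∈ clI v K₀) ∧ ∀ L : IntermediateField k Ω, Cld v L → L ≤ clI v K₀ →
        (∀ i, ∃ b ∈ L, v.Ge R (a i - b)) → L = clI v K₀ := by
  obtain ⟨n, t, ht, C, hC⟩ := hBD
  have hle : kr k t ≤ K₀ := by
    rw [IntermediateField.adjoin_le_iff]
    rintro _ ⟨i, rfl⟩
    exact ht.mem i
  have ho : OI p v (kr k t) t C := (OI.of_orth_pb hC ht).mono hle le_rfl
  have hai : AlgebraicIndependent k t := (ht.trdeg p hK₀).2.1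
  have ht0 : ∀ i, t i ≠ 0 := fun i => hai.ne_zero i
  obtain ⟨m, e, he⟩ := exists_bas_kr hc hK₀ ht
  obtain ⟨C₂, hC₂⟩ := orthq_of_ind hc (fun x hx => cld_clI v (kr k t) hx) he.ind
  set D : ℝ := |C₂| + 1 with hD
  have hD0 : 0 < D := by
    have := abs_nonneg C₂
    rw [hD]
    linarith
  obtain ⟨R, hR⟩ := near_clI_kr h0 ho ht0 D
  refine ⟨n + m, Fin.append t e, max R (D + ∑ l, |v (e l)|), fun i => ?_, fun L hL hLK hb => ?_⟩
  · refine Fin.addCases (fun i => ?_) (fun i => ?_) i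
    · rw [Fin.append_left]
      exact self_le_clI v K₀ (ht.mem i)
    · rw [Fin.append_right]
      exact he.mem i
  have h1 : ∀ i, ∃ b ∈ L, v.Ge R (t i - b) := fun i => by
    obtain ⟨b, hb, h1⟩ := hb (Fin.castAdd m i)
    rw [Fin.append_left] at h1
    exact ⟨b, hb, h1.mono (le_max_left _ _)⟩
  have h2 : ∀ l, ∃ c ∈ L, v.Ge (v (e l) + D) (e l - c) := fun l => by
    obtain ⟨b, hb, h1⟩ := hb (Fin.natAdd n l)
    rw [Fin.append_right] at h1
    refine ⟨b, hb, h1.mono ?_⟩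
    have h3 : |v (e l)| ≤ ∑ l, |v (e l)| :=
      Finset.single_le_sum (f := fun l => |v (e l)|) (fun i _ => abs_nonneg _)
        (Finset.mem_univ l)
    have h4 := le_abs_self (v (e l))
    have h5 := le_max_right R (D + ∑ l, |v (e l)|)
    linarith
  choose b hbL hbt using h1
  choose c hcL hce using h2
  have hkb : kr k b ≤ L := by
    rw [IntermediateField.adjoin_le_iff]
    rintro _ ⟨i, rfl⟩
    exact hbL i
  refine le_antisymm hLK (le_of_near hL hLK fun x hx hx0 => ?_)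
  obtain ⟨q, hq, h3⟩ := he.span x hx
  have h4 : ∀ l, ∃ q' ∈ L, v.Ge (v (q l) + D) (q l - q') ∧ v.Ge (v (q l)) q' ∧
      (q l = 0 → q' = 0) := by
    intro l
    by_cases h0 : q l = 0
    · exact ⟨0, zero_mem L, by rw [h0, sub_zero]; exact RVal.Ge.zero, RVal.Ge.zero, fun _ => rfl⟩
    · obtain ⟨q', hq', h5⟩ := hR b hbt (q l) (hq l) h0
      refine ⟨q', hkb hq', h5, ?_, fun h => absurd h h0⟩
      have e1 : q' = q l - (q l - q') := by ring
      rw [e1]
      exact (RVal.ge_self (v := v) (q l)).sub (h5.mono (by linarith))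
  choose q' hq'L hqq hqv hq0 using h4
  refine ⟨∑ l, q' l * c l, sum_mem fun l _ => mul_mem (hq'L l) (hcL l), ?_⟩
  have e1 : x - ∑ l, q' l * c l = ∑ l, ((q l - q' l) * e l + q' l * (e l - c l)) := by
    rw [h3, ← Finset.sum_sub_distrib]
    exact Finset.sum_congr rfl fun l _ => by ring
  rw [e1]
  refine RVal.Ge.sum _ _ fun l _ => ?_
  by_cases hl : q l = 0
  · rw [hq0 l hl, hl, sub_self, zero_mul, zero_mul, add_zero]
    exact RVal.Ge.zero
  have hel : e l ≠ 0 := he.ind.ne_zero l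
  have h5 := hC₂ q hq (by rw [← h3]; exact hx0) l (mul_ne_zero hl hel)
  rw [← h3, v.map_mul hl hel] at h5
  have h6 := le_abs_self C₂
  refine RVal.Ge.add ?_ ?_
  · exact ((hqq l).mul (RVal.ge_self (v := v) (e l))).mono (by linarith)
  · exact ((hqv l).mul (hce l)).mono (by linarith)

/-- **Lemma FG.** If the closure `K` of `K₀` is the closure of an increasing union of closed
fields, then `K` is one of them. -/
theorem fg_lim [CharP k p] [IsAlgClosed k] [IsAlgClosed Ω] (h0 : Ctx0 k v) (hc : CompleteV v)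
    (hK₀ : K₀.FG) (hBD : BD p v K₀) {L : ℕ → IntermediateField k Ω} (hL : Monotone L)
    (hLc : ∀ J, Cld v (L J)) (hLK : ∀ J, L J ≤ clI v K₀)
    (hd : ∀ a ∈ clI v K₀, ∀ r : ℝ, ∃ J, ∃ b ∈ L J, v.Ge r (a - b)) :
    ∃ J₀, ∀ J, J₀ ≤ J → L J = clI v K₀ := by
  obtain ⟨N, a, R, ha, h1⟩ := fg_le h0 hc hK₀ hBD
  choose J hJ using fun i => hd (a i) (ha i) R
  refine ⟨∑ i, J i, fun J' hJ' => h1 (L J') (hLc J') (hLK J') fun i => ?_⟩
  obtain ⟨b, hb, h2⟩ := hJ i
  have h3 : J i ≤ ∑ i, J i := Finset.single_le_sum (f := J) (fun i _ => Nat.zero_le _)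
    (Finset.mem_univ i)
  exact ⟨b, hL (h3.trans hJ') hb, h2⟩

end Pool.Agent.TWC
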