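import Pool.Agent.Lib.TWC.IsoC

/-!
# TANK W, class C: the descent data of an isometric extension

`P ≤ C ≤ L`, `E` the closure of `P[u n l]`, `w l = u 0 l ∈ C`, the roots `u n l` far from `L`
(`Iso p v L u`), near `P` up to `0`.

* `opT`: the space of the operators of positive order;
* `dns_sup`: `AU N u` is dense in `clI v (N ⊔ E)`;
* `Iso.nbd`, `NBd.of_le`: the operators have norm `≤ 0` over `L`, and over `P`;
* `Iso.desc`: `Desc v C E T L (clI v (L ⊔ E))`.
-/

set_option autoImplicit false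

open Polynomial

namespace Pool.Agent.TWC

open Pool.Agent.H15JM (RVal)
open Pool.Agent.LU1 (VPos adj)
open Pool.Agent.D2 (Ctx0)
open Pool.Agent.D2P (clI mem_clI)
open Pool.Agent.TWM
open Pool.Agent.TWC.Key (hd ev sp lf)

universe u

variable {k Ω : Type u} [Field k] [Field Ω] [Algebra k Ω] {v : RVal Ω}
  {B L P N C E : IntermediateField k Ω} {m : ℕ} {u : ℕ → Fin m → Ω} {p : ℕ}

/-! ## Density -/

/-- `AU N u` is dense in the closure of `N E`. -/
theorem dns_sup (hr : ∀ n l, u (n + 1) l ^ p = u n l) (hp : 0 < p) (h0 : ∀ l, u 0 l ∈ N)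
    (hPN : P ≤ N) (hu : ∀ n l, u n l ∈ E) (hdE : DnsS v (AU P u) E) :
    DnsS v (AU N u) (clI v (N ⊔ E)) := by
  intro x hx b
  set W : IntermediateField k Ω := IntermediateField.adjoin k {x | ∃ n l, x = u n l} with hW
  have hNW : ∀ n l, u n l ∈ N ⊔ W := fun n l =>
    (le_sup_right : W ≤ N ⊔ W) (IntermediateField.subset_adjoin _ _ ⟨n, l, rfl⟩)
  have h1 : N ⊔ E ≤ clI v (N ⊔ W) := by
    refine sup_le (le_sup_left.trans fun _ ha => LUC.Cl.subset ha) fun e he => mem_clI.2 fun c => ?_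
    obtain ⟨a, ha, -, h2⟩ := hdE e he c
    exact ⟨a, AU.mem (hPN.trans le_sup_left) hNW ha, h2⟩
  obtain ⟨y, hy, h2⟩ := mem_clI.1 hx b
  obtain ⟨z, hz, h3⟩ := mem_clI.1 (h1 hy) b
  have h4 : z ∈ AU N u := AU.field hr hp h0 hz
  refine ⟨z, h4, ?_, ?_⟩
  · exact LUC.Cl.subset (AU.mem le_sup_left (fun n l => (le_sup_right : E ≤ N ⊔ E) (hu n l)) h4)
  · have e : x - z = (x - y) + (y - z) := by ring
    rw [e]
    exact h2.add h3

/-! ## The norms -/

theorem Iso.nbd [hp : Fact p.Prime] [CharP k p] [CharP Ω p] [IsAlgClosed Ω] (h0 : Ctx0 k v)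
    (hc : CompleteV v) (h : Iso p v L u) : NBd p v L u :=
  fun n F hF f _ hb => h.norm_le h0 hc n F hF f hb

theorem NBd.of_le (hPL : P ≤ L) (h : NBd p v L u) : NBd p v P u := fun n F hF f b hb => by
  have h1 := h n F hF (f.mapRange (IntermediateField.inclusion hPL) (map_zero _)) b (by
    rw [ev_base]; exact hb)
  rwa [hd_base, ev_base] at h1

/-! ## The specialisation -/

theorem sp_base (hPL : P ≤ L) (a : ℕ) (η : Fin m → P) (f : (Fin m → ℕ) →₀ P) :
    sp a (fun l => IntermediateField.inclusion hPL (η l))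
        (f.mapRange (IntermediateField.inclusion hPL) (map_zero _)) =
      (sp a η f).mapRange (IntermediateField.inclusion hPL) (map_zero _) := by
  induction f using Finsupp.induction_linear with
  | zero => simp
  | add f g hf hg =>
    rw [Finsupp.mapRange_add (map_add _), map_add, hf, hg, map_add,
      Finsupp.mapRange_add (map_add _)]
  | single I c =>
    rw [Finsupp.mapRange_single, Key.sp_single, Key.sp_single, Finsupp.mapRange_single]
    congr 1
    rw [map_mul, map_prod]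
    simp only [map_pow]

/-- A product of `t l ^ F l`, `F l ≤ q`, `t l` of value `≥ -γ`. -/
theorem ge_prod_pow {t : Fin m → Ω} {γ : ℝ} (hγ : 0 ≤ γ) (ht : ∀ l, v.Ge (-γ) (t l)) {q : ℕ}
    {F : Fin m → ℕ} (hF : ∀ l, F l < q) : v.Ge (-(m * q * γ)) (∏ l, t l ^ F l) := by
  have h1 := RVal.Ge.prod (v := v) (fun _ : Fin m => -(q * γ)) Finset.univ (fun l => t l ^ F l)
    fun l _ => by
      refine (Key.ge_pow (ht l) (m := F l)).mono ?_
      have h2 : (F l : ℝ) ≤ q := by exact_mod_cast (hF l).le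
      nlinarith
  refine h1.mono (le_of_eq ?_)
  rw [Finset.sum_const, Finset.card_univ, Fintype.card_fin, nsmul_eq_mul]
  ring

/-- The choice of the near point. -/
theorem exists_eta (hlim : ∀ n l (ε : ℝ), 0 < ε → ∃ h ∈ P, v.Ge (-ε) (u n l - h)) (n q : ℕ)
    {ε : ℝ} (hε : 0 < ε) : ∃ η : Fin m → P, ∀ F : Fin m → ℕ, (∀ l, F l < q) →
      v.Ge (-ε) (∏ l, (algebraMap P Ω (η l) - u n l) ^ F l) := by
  obtain ⟨γ, hγ, hγε⟩ : ∃ γ : ℝ, 0 < γ ∧ m * q * γ ≤ ε := by
    have h1 : (0 : ℝ) ≤ m * q := by positivity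
    refine ⟨ε / (m * q + 1), by positivity, ?_⟩
    rw [← mul_div_assoc, div_le_iff₀ (by positivity)]
    nlinarith
  choose η hη hηu using fun l => hlim n l γ hγ
  refine ⟨fun l => ⟨η l, hη l⟩, fun F hF => ?_⟩
  refine (ge_prod_pow hγ.le (t := fun l => algebraMap P Ω ⟨η l, hη l⟩ - u n l) (fun l => ?_)
    hF).mono (by linarith)
  change v.Ge (-γ) (η l - u n l)
  have e : η l - u n l = -(u n l - η l) := by ring
  rw [e]
  exact (hηu l).neg

/-! ## Operators: sums and multiples -/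

section Op

variable [Fact (Ctx0 k v)]

theorem fn_opZero (x : Ω) : fn (0 : Opr v E) x = 0 := by
  by_cases hx : x ∈ E
  · rw [fn_of_mem _ hx]
    rfl
  · rw [fn, dif_neg hx]

theorem fn_opAdd (φ ψ : Opr v E) (x : Ω) : fn (φ + ψ) x = fn φ x + fn ψ x := by
  by_cases hx : x ∈ E
  · rw [fn_of_mem _ hx, fn_of_mem _ hx, fn_of_mem _ hx]
    rfl
  · rw [fn, dif_neg hx, fn, dif_neg hx, fn, dif_neg hx, add_zero]

theorem fn_opSmul (a : k) (φ : Opr v E) (x : Ω) : fn (a • φ) x = a • fn φ x := by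
  by_cases hx : x ∈ E
  · rw [fn_of_mem _ hx, fn_of_mem _ hx]
    rfl
  · rw [fn, dif_neg hx, fn, dif_neg hx, smul_zero]

/-- The space of the operators of positive order. -/
noncomputable def opT (p : ℕ) (v : RVal Ω) [Fact (Ctx0 k v)] (P E : IntermediateField k Ω) {m : ℕ}
    (u : ℕ → Fin m → Ω) : Submodule k (Opr v E) :=
  Submodule.span k {φ : Opr v E | ∃ (n : ℕ) (F : Fin m → ℕ),
    (∃ l, F l ≠ 0) ∧ (∀ l, F l < p ^ n) ∧ IsD p P u φ n F}

end Op

/-! ## The descent data -/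

section Dsc

variable [hp : Fact p.Prime] [CharP k p] [CharP Ω p] [IsAlgClosed Ω] [hcx : Fact (Ctx0 k v)]

omit [CharP k p] [IsAlgClosed Ω] in
theorem ext_opT (hc : CompleteV v) (hr : ∀ n l, u (n + 1) l ^ p = u n l) (hn : NBd p v L u)
    (hPL : P ≤ L) (hu : ∀ n l, u n l ∈ E) (hdE : DnsS v (AU P u) E)
    (hdL : DnsS v (AU L u) (clI v (L ⊔ E))) {φ : Opr v E} (hφ : φ ∈ opT p v P E u) :
    ∃ Φ : Opr v (clI v (L ⊔ E)), IsExt L φ Φ := by
  have hL : L ≤ clI v (L ⊔ E) := le_sup_left.trans fun _ ha => LUC.Cl.subset ha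
  have hE : E ≤ clI v (L ⊔ E) := le_sup_right.trans fun _ ha => LUC.Cl.subset ha
  induction hφ using Submodule.span_induction with
  | mem φ hφ =>
    obtain ⟨n, F, -, hF, h1⟩ := hφ
    obtain ⟨Φ, hΦ⟩ := exists_D hc hr hn (cld_clI v _) hL (fun n l => hE (hu n l)) hdL n F hF
    exact ⟨Φ, IsD.isExt hr hPL hE hL hdE hdL h1 hΦ⟩
  | zero =>
    exact ⟨0, fun e _ => by rw [fn_opZero, fn_opZero], fun l _ x _ => by
      rw [fn_opZero, fn_opZero, mul_zero]⟩
  | add φ ψ _ _ h1 h2 =>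
    obtain ⟨Φ, hΦ⟩ := h1
    obtain ⟨Ψ, hΨ⟩ := h2
    exact ⟨Φ + Ψ, fun e he => by rw [fn_opAdd, fn_opAdd, hΦ.eq e he, hΨ.eq e he],
      fun l hl x hx => by rw [fn_opAdd, fn_opAdd, hΦ.lin l hl x hx, hΨ.lin l hl x hx, mul_add]⟩
  | smul a φ _ h1 =>
    obtain ⟨Φ, hΦ⟩ := h1
    exact ⟨a • Φ, fun e he => by rw [fn_opSmul, fn_opSmul, hΦ.eq e he],
      fun l hl x hx => by rw [fn_opSmul, fn_opSmul, hΦ.lin l hl x hx, mul_smul_comm]⟩

/-- **The descent data of an isometric extension.** -/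
theorem Iso.desc (hc : CompleteV v) (h : Iso p v L u) (hE : Cld v E) (hPE : P ≤ E)
    (hu : ∀ n l, u n l ∈ E) (hdE : DnsS v (AU P u) E) (hPC : P ≤ C) (hwC : ∀ l, u 0 l ∈ C)
    (hCL : C ≤ L) (hlim : ∀ n l (ε : ℝ), 0 < ε → ∃ h ∈ P, v.Ge (-ε) (u n l - h)) :
    Desc v C E (opT p v P E u) L (clI v (L ⊔ E)) := by
  classical
  have hr := h.root
  have hnL : NBd p v L u := h.nbd hcx.out hc
  have hPL : P ≤ L := hPC.trans hCL
  have hnP : NBd p v P u := hnL.of_le hPL
  have hdN : ∀ N : IntermediateField k Ω, C ≤ N → DnsS v (AU N u) (clI v (N ⊔ E)) := fun N hCN =>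
    dns_sup hr hp.out.pos (fun l => hCN (hwC l)) (hPC.trans hCN) hu hdE
  have hdL := hdN L hCL
  have _ : CharP L p := charP_sub (Ω := Ω) p L
  refine ⟨h.cld, hCL, rfl, ?_, fun φ hφ => ext_opT hc hr hnL hPL hu hdE hdL hφ, ?_, ?_⟩
  · -- density
    intro x hx b
    obtain ⟨_, ⟨n, f, rfl⟩, -, h1⟩ := hdL x hx b
    have h2 : ev (u n) f = ∑ i : Fin f.support.card,
        ((f (f.support.equivFin.symm i) : L) : Ω) *
          ∏ l, u n l ^ (f.support.equivFin.symm i : Fin m → ℕ) l := by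
      rw [ev, Finsupp.linearCombination_apply, Finsupp.sum,
        ← Finset.sum_coe_sort f.support (fun I => f I • ∏ l, u n l ^ I l),
        ← Equiv.sum_comp f.support.equivFin.symm]
      exact Finset.sum_congr rfl fun i _ => by rw [Algebra.smul_def]; rfl
    refine ⟨f.support.card, fun i => (f (f.support.equivFin.symm i) : L),
      fun i => ∏ l, u n l ^ (f.support.equivFin.symm i : Fin m → ℕ) l,
      fun i => SetLike.coe_mem _, fun i => prod_mem fun l _ => pow_mem (hu n l) _, ?_⟩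
    rw [← h2]
    exact h1
  · -- distance
    intro N _ hCN hNL l hl b a ha hla ε hε
    obtain ⟨_, ⟨n, f, rfl⟩, -, h1⟩ := hdN N hCN a ha b
    obtain ⟨η, hη⟩ := exists_eta hlim n (p ^ n) hε
    have hPN : P ≤ N := hPC.trans hCN
    set η' : Fin m → N := fun i => IntermediateField.inclusion hPN (η i) with hη'
    set f' : (Fin m → ℕ) →₀ L := f.mapRange (IntermediateField.inclusion hNL) (map_zero _) with hf'
    set g : (Fin m → ℕ) →₀ L := Finsupp.single (fun _ => 0) ⟨l, hl⟩ - f' with hg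
    have h2 : ev (u n) g = l - ev (u n) f := by
      rw [hg, map_sub, hf', ev_base, Key.ev_single]
      simp
    have h3 : v.Ge b (ev (u n) g) := by
      rw [h2]
      have e : l - ev (u n) f = (l - a) + (a - ev (u n) f) := by ring
      rw [e]
      exact hla.add h1
    have h4 := Key.ev_sp p n (u := u 0) (u' := u n) (fun i => h.root_pow' n i)
      (fun i => IntermediateField.inclusion hNL (η' i)) g
    have h5 : ev (u 0) (sp (p ^ n) (fun i => IntermediateField.inclusion hNL (η' i)) g) =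
        l - ev (u 0) (sp (p ^ n) η' f) := by
      rw [hg, map_sub, hf', sp_base, map_sub, ev_base, Key.sp_single, Key.ev_single]
      simp
    refine ⟨ev (u 0) (sp (p ^ n) η' f), ev_mem le_rfl (fun i => hCN (hwC i)) _, ?_⟩
    rw [← h5, h4]
    refine RVal.Ge.sum _ _ fun F hF => ?_
    have hF' : ∀ l, F l < p ^ n := fun l => Finset.mem_range.1 ((Fintype.mem_piFinset.1 hF) l)
    exact (hnL n F hF' g b h3).mul (hη F hF')
  · -- descent
    intro N _ hCN hNL x hx _ hder
    have hPN : P ≤ N := hPC.trans hCN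
    have hNB : N ≤ clI v (N ⊔ E) := le_sup_left.trans fun _ ha => LUC.Cl.subset ha
    have hEB : E ≤ clI v (N ⊔ E) := le_sup_right.trans fun _ ha => LUC.Cl.subset ha
    have hL : L ≤ clI v (L ⊔ E) := le_sup_left.trans fun _ ha => LUC.Cl.subset ha
    have hEL : E ≤ clI v (L ⊔ E) := le_sup_right.trans fun _ ha => LUC.Cl.subset ha
    obtain ⟨_, ⟨n, f, rfl⟩, hfL, h1⟩ := hdL x hx 1
    -- the derivatives
    have h2 : ∀ F : Fin m → ℕ, (∃ l, F l ≠ 0) → (∀ l, F l < p ^ n) →
        ∃ b ∈ clI v (N ⊔ E), Gt v 0 (ev (u n) (hd F f) - b) := by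
      intro F hF0 hF
      obtain ⟨φ, hφ⟩ := exists_D hc hr hnP hE hPE hu hdE n F hF
      obtain ⟨Φ, hΦ⟩ := exists_D hc hr hnL (cld_clI v _) hL (fun n l => hEL (hu n l)) hdL n F hF
      obtain ⟨b, hb, h3⟩ := hder φ (Submodule.subset_span ⟨n, F, hF0, hF, hφ⟩) Φ
        (IsD.isExt hr hPL hEL hL hdE hdL hφ hΦ)
      have h4 : fn Φ (ev (u n) f) = ev (u n) (hd F f) := by
        have := hΦ 0 f
        simpa using this
      have h5 := fn_near Φ hx hfL h1
      rw [h4] at h5
      have h6 : v.Ge 0 (ev (u n) (hd F f) - b) := by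
        have e : ev (u n) (hd F f) - b = (fn Φ x - b) - (fn Φ x - ev (u n) (hd F f)) := by ring
        rw [e]
        exact h3.sub (h5.mono zero_le_one)
      obtain ⟨c, hc'⟩ := hcx.out.residue h6
      refine ⟨b + algebraMap k Ω c, add_mem hb (IntermediateField.algebraMap_mem _ c), ?_⟩
      rw [← sub_sub]
      exact hc'
    set S : Finset (Fin m → ℕ) := (Fintype.piFinset fun _ : Fin m => Finset.range (p ^ n)).erase
      (fun _ => 0) with hS
    have hSF : ∀ F ∈ S, (∃ l, F l ≠ 0) ∧ ∀ l, F l < p ^ n := by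
      intro F hF
      rw [hS, Finset.mem_erase, Fintype.mem_piFinset] at hF
      refine ⟨?_, fun l => Finset.mem_range.1 (hF.2 l)⟩
      by_contra hno
      push Not at hno
      exact hF.1 (funext hno)
    have h3 : ∀ F : Fin m → ℕ, ∃ b ∈ clI v (N ⊔ E), F ∈ S → Gt v 0 (ev (u n) (hd F f) - b) := by
      intro F
      by_cases hF : F ∈ S
      · obtain ⟨b, hb, h4⟩ := h2 F (hSF F hF).1 (hSF F hF).2
        exact ⟨b, hb, fun _ => h4⟩
      · exact ⟨0, zero_mem _, fun h => absurd h hF⟩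
    choose b hb hbF using h3
    obtain ⟨δ, hδ, hδF⟩ := Key.exists_delta S
      (fun F δ => v.Ge δ (ev (u n) (hd F f) - b F))
      (fun F δ δ' hle hQ => hQ.mono hle) fun F hF => by
        by_cases h0 : ev (u n) (hd F f) - b F = 0
        · exact ⟨1, one_pos, by rw [h0]; exact RVal.Ge.zero⟩
        · exact ⟨v (ev (u n) (hd F f) - b F), hbF F hF h0, RVal.ge_self _⟩
    obtain ⟨η, hη⟩ := exists_eta hlim n (p ^ n) (half_pos hδ)
    set η' : Fin m → L := fun i => IntermediateField.inclusion hPL (η i) with hη'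
    have h4 := Key.ev_sp p n (u := u 0) (u' := u n) (fun i => h.root_pow' n i) η' f
    have h0S : (fun _ => 0) ∈ Fintype.piFinset fun _ : Fin m => Finset.range (p ^ n) := by
      rw [Fintype.mem_piFinset]
      exact fun l => Finset.mem_range.2 (pow_pos hp.out.pos n)
    rw [← Finset.add_sum_erase _ _ h0S, Key.hd_zero] at h4
    simp only [pow_zero, Finset.prod_const_one, mul_one] at h4
    refine ⟨ev (u 0) (sp (p ^ n) η' f), ev_mem le_rfl (fun i => hCL (hwC i)) _,
      -∑ F ∈ S, b F * ∏ l, (algebraMap L Ω (η' l) - u n l) ^ F l, neg_mem (sum_mem fun F _ =>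
        mul_mem (hb F) (prod_mem fun l _ => pow_mem (sub_mem ?_ (hEB (hu n l))) _)), ?_⟩
    · exact hNB (hPN (SetLike.coe_mem (η l)))
    · have e : x - ev (u 0) (sp (p ^ n) η' f) -
          -∑ F ∈ S, b F * ∏ l, (algebraMap L Ω (η' l) - u n l) ^ F l =
          (x - ev (u n) f) - ∑ F ∈ S, (ev (u n) (hd F f) - b F) *
            ∏ l, (algebraMap L Ω (η' l) - u n l) ^ F l := by
        rw [h4]
        simp only [sub_mul, Finset.sum_sub_distrib]
        ring
      rw [e]
      refine Gt.sub (Gt.of_ge h1 one_pos) (Gt.sum _ _ fun F hF => ?_)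
      refine Gt.of_ge ((hδF F hF).mul (hη F (hSF F hF).2)) ?_
      linarith

end Dsc

end Pool.Agent.TWC
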