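import Pool.Agent.Lib.TWC.Vp

/-!
# TANK W, dimension 4: the property `V'` for operators with a gain on the elements of small degree

* `OpM p v E T`: `T` is a space of operators of norm `≤ 0` of the perfect closed field `E`, closed
  under composition and with `φ Fr = Fr φ'` (no field of constants);
* `NSDM`: the strictly dominated subspaces of `MM v E` are torsion over `k{Fr}`;
* `GainOn S φ μ`: `φ` has the gain `μ` on `S`;
* `vprime_gain`, `nsd_gain`: the property `V'` if every operator preserves a filtration of `E` and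
  has a gain on one of its steps;
* `nsd_gain_all`: the case of operators with a gain on `E`.
-/

set_option autoImplicit false

open Module Submodule

namespace Pool.Agent.TWC

open Pool.Agent.H15JM (RVal)
open Pool.Agent.D2 (Ctx0)
open Pool.Agent.TWM

universe u

variable {k Ω : Type u} [Field k] [Field Ω] [Algebra k Ω] {v : RVal Ω}

/-- The operators of a perfect closed field. -/
structure OpM (p : ℕ) (v : RVal Ω) [Fact (Ctx0 k v)] (E : IntermediateField k Ω)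
    (T : Submodule k (Opr v E)) : Prop where
  cld : Cld v E
  perf : ∀ a ∈ E, ∃ b ∈ E, b ^ p = a
  mul : ∀ φ ∈ T, ∀ ψ ∈ T, φ * ψ ∈ T
  tw : ∀ φ ∈ T, ∃ φ' ∈ T, ∀ x : E,
    (φ : Module.End k E) (x ^ p) = ((φ' : Module.End k E) x) ^ p
  one : ∀ φ ∈ T, (φ : Module.End k E) 1 = 0

/-- The operators with a field of constants. -/
theorem Oper.toM [Fact (Ctx0 k v)] {p : ℕ} {C E : IntermediateField k Ω}
    {T : Submodule k (Opr v E)} (h : Oper p v C E T) : OpM p v E T :=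
  ⟨h.cld, h.perf, h.mul, h.tw, h.one⟩

section Mod

variable [Fact (Ctx0 k v)] {E : IntermediateField k Ω} (p : ℕ) [Fact p.Prime] [CharP k p]
  [CharP Ω p] {T : Submodule k (Opr v E)} [PerfectRing k p]

/-- The operators, acting on `MM v E`. -/
noncomputable def OpM.ops (h : OpM p v E T) : Ops (MM.fr p v E) where
  A := T.map (MM.actHom v E).toLinearMap
  comp_mem := by
    rintro _ ⟨φ, hφ, rfl⟩ _ ⟨ψ, hψ, rfl⟩
    exact ⟨φ * ψ, h.mul φ hφ ψ hψ, (MM.actHom v E).map_mul φ ψ⟩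
  tw := by
    rintro _ ⟨φ, hφ, rfl⟩
    obtain ⟨φ', hφ', h1⟩ := h.tw φ hφ
    exact ⟨_, ⟨φ', hφ', rfl⟩, fun x => MM.act_fr p h1 x⟩

theorem OpM.mem_ops (h : OpM p v E T) {φ : Opr v E} (hφ : φ ∈ T) : MM.act φ ∈ (h.ops p).A :=
  ⟨φ, hφ, rfl⟩

/-- The strictly dominated subspaces of `MM v E` are torsion over `k{Fr}`. -/
def NSDM (h : OpM p v E T) : Prop :=
  ∀ Y : Submodule k (MM v E), Y.FG → ∀ b : ℕ, 1 ≤ b →
    (∀ y ∈ Y, (MM.fr p v E)^[b] y ∈ V (MM.fr p v E) (Y ⊔ act (h.ops p) Y) b) →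
    Y ≤ Sat (MM.fr p v E) ⊥

end Mod

section Gain

variable [hc : Fact (Ctx0 k v)] {E : IntermediateField k Ω} {A : ℝ → Submodule k E}
  {p : ℕ} [Fact p.Prime] [CharP k p] [CharP Ω p]

/-- `φ` has the gain `μ` on `S`. -/
def GainOn (S : Submodule k E) (φ : Opr v E) (μ : ℝ) : Prop :=
  ∀ f ∈ S, ∀ b : ℝ, v.Ge b (f : Ω) → v.Ge (b + μ) (((φ : Module.End k E) f : E) : Ω)

theorem act_MD_gain {φ : Opr v E} {D μ : ℝ} (hμ : 0 < μ) (hφ : GainOn (A D) φ μ) {m : MM v E}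
    (hm : m ∈ MD v A D) : MM.act φ m = 0 := by
  obtain ⟨x, hx, rfl⟩ := hm
  rw [SetLike.mem_coe, Submodule.mem_iInf] at hx
  obtain ⟨f₀, hf₀, N₀, hN₀⟩ := hx ⟨μ / 2, by positivity⟩
  rw [MM.act_mk, MM.mk_eq_zero]
  refine ⟨(((φ : Module.End k E) f₀ : E) : Ω), SetLike.coe_mem _, fun ε hε => ?_⟩
  obtain ⟨f, hf, N, hN⟩ := hx ⟨min ε (μ / 2), lt_min hε (by positivity)⟩
  refine ⟨max N₀ N, fun n hn => ?_⟩
  have h0 := hN₀ n ((le_max_left _ _).trans hn)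
  have h1 := hN n ((le_max_right _ _).trans hn)
  simp only at h0 h1
  have h2 := φ.2 (⟨(x : ℕ → Ω) n, x.2.mem n⟩ - f) (-ε)
    (h1.mono (neg_le_neg (min_le_left _ _)))
  have h3 : v.Ge (-(μ / 2)) ((f - f₀ : E) : Ω) := by
    have h4 := h0.sub (h1.mono (neg_le_neg (min_le_right ε (μ / 2))))
    have h5 : (x : ℕ → Ω) n - (f₀ : Ω) - ((x : ℕ → Ω) n - (f : Ω)) = ((f - f₀ : E) : Ω) := by
      change _ = (f : Ω) - (f₀ : Ω)
      ring
    rwa [h5] at h4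
  have h4 : v.Ge (-ε) (((φ : Module.End k E) (f - f₀) : E) : Ω) :=
    (hφ _ (sub_mem hf hf₀) _ h3).mono (by linarith)
  have h5 := RVal.Ge.add h2 h4
  have h6 : (((φ : Module.End k E) (⟨(x : ℕ → Ω) n, x.2.mem n⟩ - f) : E) : Ω) +
      (((φ : Module.End k E) (f - f₀) : E) : Ω) =
      ((MM.actS φ x : CauS v E) : ℕ → Ω) n - (((φ : Module.End k E) f₀ : E) : Ω) := by
    rw [map_sub, map_sub]
    change (((φ : Module.End k E) ⟨(x : ℕ → Ω) n, x.2.mem n⟩ : E) : Ω) -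
      (((φ : Module.End k E) f : E) : Ω) + ((((φ : Module.End k E) f : E) : Ω) -
      (((φ : Module.End k E) f₀ : E) : Ω)) = _
    rw [sub_add_sub_cancel]
    rfl
  rwa [h6] at h5

variable [RingHomSurjective (frobenius k p)]

/-- **`V'`**, operators with a gain on one of the steps of the filtration. -/
theorem vprime_gain (h : DegF v E p A) (hE : ∀ a ∈ E, ∃ b ∈ E, b ^ p = a)
    {O : Ops (MM.fr p v E)}
    (hO : ∀ ψ ∈ O.A, ∃ φ : Opr v E, (∀ m, ψ m = MM.act φ m) ∧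
      (∀ D, 0 < D → ∀ f ∈ A D, (φ : Module.End k E) f ∈ A D) ∧
      ∃ δ, 0 < δ ∧ ∃ μ, 0 < μ ∧ GainOn (A δ) φ μ)
    {Y : Submodule k (MM v E)} (hY : Y.FG) {b : ℕ} (hb : 1 ≤ b)
    (hsd : ∀ y ∈ Y, (MM.fr p v E)^[b] y ∈ V (MM.fr p v E) (Y ⊔ act O Y) b) :
    act O Y = ⊥ ∧ Y ≤ Sat (MM.fr p v E) ⊥ := by
  have hp1 : (1 : ℝ) < p := by exact_mod_cast (Fact.out : p.Prime).one_lt
  obtain ⟨K, hK, hYK⟩ := exists_MD h (fun ψ hψ => by
    obtain ⟨φ, h1, h2, -⟩ := hO ψ hψ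
    exact ⟨φ, h1, h2⟩) hY hb hsd
  have h1 := torsion_of_filtration (F := MM.fr p v E) (O := O) (M := MD v A) hp1
    (fun D D' hD hDD => MD_mono h hD hDD)
    (fun D hD x hx => fr_MD h hD hx)
    (fun D hD x hx => root_MD h hE hD hx)
    (fun ψ hψ D hD x hx => by
      obtain ⟨φ, h1, h2, -⟩ := hO ψ hψ
      rw [h1]
      exact act_MD (h2 D hD) hx)
    (fun ψ hψ => by
      obtain ⟨φ, h1, -, δ, hδ, μ, hμ, h2⟩ := hO ψ hψ
      refine ⟨δ, hδ, fun x hx => ?_⟩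
      rw [h1]
      exact act_MD_gain hμ h2 hx)
    hK hYK hb hsd
  refine ⟨h1.2, le_Sat_bot hY (b := b) ?_⟩
  intro y hy
  have h2 := hsd y hy
  rwa [h1.2, sup_bot_eq] at h2

end Gain

section NSD

variable [Fact (Ctx0 k v)] {E : IntermediateField k Ω} (p : ℕ) [Fact p.Prime] [CharP k p]
  [CharP Ω p] [PerfectRing k p] {T : Submodule k (Opr v E)}

/-- **`V'`** (killed by the operators and torsion). -/
theorem sd_gain (h : OpM p v E T) {A : ℝ → Submodule k E} (hA : DegF v E p A)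
    (hT : ∀ φ ∈ T, (∀ D, 0 < D → ∀ f ∈ A D, (φ : Module.End k E) f ∈ A D) ∧
      ∃ δ, 0 < δ ∧ ∃ μ, 0 < μ ∧ GainOn (A δ) φ μ)
    {Y : Submodule k (MM v E)} (hY : Y.FG) {b : ℕ} (hb : 1 ≤ b)
    (hsd : ∀ y ∈ Y, (MM.fr p v E)^[b] y ∈ V (MM.fr p v E) (Y ⊔ act (h.ops p) Y) b) :
    act (h.ops p) Y = ⊥ ∧ Y ≤ Sat (MM.fr p v E) ⊥ := by
  refine vprime_gain hA h.perf (O := h.ops p) ?_ hY hb hsd
  rintro _ ⟨φ, hφ, rfl⟩
  obtain ⟨h1, h2⟩ := hT φ hφ
  exact ⟨φ, fun m => rfl, h1, h2⟩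

/-- **`V'`.** The operators preserve the filtration and have a gain on the elements of small
degree. -/
theorem nsd_gain (h : OpM p v E T) {A : ℝ → Submodule k E} (hA : DegF v E p A)
    (hT : ∀ φ ∈ T, (∀ D, 0 < D → ∀ f ∈ A D, (φ : Module.End k E) f ∈ A D) ∧
      ∃ δ, 0 < δ ∧ ∃ μ, 0 < μ ∧ GainOn (A δ) φ μ) : NSDM p h :=
  fun _ hY _ hb hsd => (sd_gain p h hA hT hY hb hsd).2

/-- The operators with a gain kill `MM v E`. -/
theorem act_gain {φ : Opr v E} {μ : ℝ} (hμ : 0 < μ) (hφ : GainOn ⊤ φ μ) (m : MM v E) :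
    MM.act φ m = 0 := by
  refine act_MD_gain (A := fun _ => ⊤) (D := 1) hμ hφ ?_
  obtain ⟨x, rfl⟩ := MM.ind m
  refine ⟨x, ?_, rfl⟩
  rw [SetLike.mem_coe, Submodule.mem_iInf]
  rintro ⟨ε, hε⟩
  obtain ⟨N, hN⟩ := x.2.cau ε hε
  exact ⟨⟨(x : ℕ → Ω) N, x.2.mem N⟩, trivial, N, fun n hn => hN n N hn le_rfl⟩

/-- **`V'`**, operators with a gain on `E`. -/
theorem nsd_gain_all (h : OpM p v E T) (hT : ∀ φ ∈ T, ∃ μ, 0 < μ ∧ GainOn ⊤ φ μ) :
    NSDM p h := by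
  intro Y hY b _ hsd
  have h1 : act (h.ops p) Y = ⊥ := by
    rw [eq_bot_iff, act_le]
    rintro _ ⟨φ, hφ, rfl⟩ x _
    obtain ⟨μ, hμ, h2⟩ := hT φ hφ
    exact (Submodule.mem_bot _).2 (act_gain hμ h2 x)
  refine le_Sat_bot hY (b := b) fun y hy => ?_
  have h2 := hsd y hy
  rwa [h1, sup_bot_eq] at h2

end NSD

end Pool.Agent.TWC
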