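import Pool.Agent.Lib.TWC.HSx
import Pool.Agent.Lib.TWC.VpG
import Pool.Agent.Lib.TWC.OpDeg
import Pool.Agent.Lib.TWC.Rect
import Pool.Agent.Lib.TWC.IsoD

/-!
# TANK W, dimension 4, row R2: the operators of the first floor

* `GnF p v A lam α x`: the operators `A n j` have on `x` the gain `(j / p ^ n) lam`, from `α`;
  `GnF.mul`: this is multiplicative;
* `FFl`: the data of the first floor (`E` perfect and closed, stable under the operators, with a
  gain; `u n` the roots of a rectangular family of elements of `K`; `E₁` the closure of `E[u]`);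
* `FFl.op`: the operators of `E₁`; `FFl.op_dgA`: they preserve the degree;
* `FFl.gain_small`: they have a gain on the elements of small degree;
* `FFl.opM`, `FFl.nsdm`: the algebra generated by the operators of index `> 0`, and the property `V'`.
-/

set_option autoImplicit false

open Polynomial

namespace Pool.Agent.TWC

open Pool.Agent.H15JM (RVal)
open Pool.Agent.D2 (Ctx0)
open Pool.Agent.D2P (clI mem_clI)
open Pool.Agent.TWM
open Pool.Agent.TWC.Key (hd ev lf dg)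

universe u

variable {k Ω : Type u} [Field k] [Field Ω] [Algebra k Ω] {v : RVal Ω}
  {K L E E₁ : IntermediateField k Ω} {h : K →ₐ[k] PowerSeries Ω} {A : ℕ → ℕ → L →ₗ[k] Ω}
  {m : ℕ} {u : ℕ → Fin m → Ω} {p : ℕ}

/-! ### The gain -/

/-- The operators have on `x` the gain `(j / p ^ n) lam`, from the value `α`. -/
def GnF (p : ℕ) (v : RVal Ω) (A : ℕ → ℕ → L →ₗ[k] Ω) (lam α : ℝ) (x : L) : Prop :=
  ∀ n j : ℕ, v.Ge (α + (j : ℝ) / (p : ℝ) ^ n * lam) (A n j x)

variable {lam α β : ℝ} {x y : L}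

theorem GnF.mono (hx : GnF p v A lam α x) (h : β ≤ α) : GnF p v A lam β x := fun n j =>
  (hx n j).mono (by linarith)

theorem GnF.add (hx : GnF p v A lam α x) (hy : GnF p v A lam α y) : GnF p v A lam α (x + y) :=
  fun n j => by
    rw [map_add]
    exact (hx n j).add (hy n j)

theorem GnF.zero : GnF p v A lam α 0 := fun n j => by
  rw [map_zero]
  exact RVal.Ge.zero

theorem GnF.sum {κ : Type*} (s : Finset κ) {f : κ → L} (hf : ∀ i ∈ s, GnF p v A lam α (f i)) :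
    GnF p v A lam α (∑ i ∈ s, f i) := by
  classical
  induction s using Finset.induction_on with
  | empty =>
    rw [Finset.sum_empty]
    exact GnF.zero
  | insert a s ha ih =>
    rw [Finset.sum_insert ha]
    exact (hf a (Finset.mem_insert_self a s)).add
      (ih fun i hi => hf i (Finset.mem_insert_of_mem hi))

section Mul

variable [hp : Fact p.Prime] [CharP Ω p]

/-- The elements of `L` are near to elements of the perfect closure of `K`. -/
def DnsK (p : ℕ) (v : RVal Ω) (K L : IntermediateField k Ω) : Prop :=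
  ∀ (x : L) (b : ℝ), ∃ c : L, (∃ n : ℕ, (c : Ω) ^ p ^ n ∈ K) ∧ v.Ge b ((x : Ω) - c)

/-- The gain is multiplicative. -/
theorem GnF.mul (hA : HSX p v K L h A) (hL : DnsK p v K L) (hlam : 0 ≤ lam)
    (hx : GnF p v A lam α x) (hy : GnF p v A lam β y) : GnF p v A lam (α + β) (x * y) := by
  intro n j
  have hp0 : (0 : ℝ) < p := by exact_mod_cast hp.out.pos
  set b : ℝ := α + (j : ℝ) / (p : ℝ) ^ n * lam with hb
  obtain ⟨c, ⟨n₀, hc⟩, h1⟩ := hL x b
  have hy0 : v.Ge β (y : Ω) := by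
    have h2 := hy 0 0
    rw [hA.zero] at h2
    refine h2.mono (le_of_eq ?_)
    simp
  have e : x * y = (x - c) * y + c * y := by ring
  rw [e, map_add]
  refine RVal.Ge.add ?_ ?_
  · refine hA.norm n j _ _ ?_
    refine ((RVal.Ge.mul (v := v) h1 hy0)).mono (le_of_eq ?_)
    rw [hb]
    ring
  · have hcN : (c : Ω) ^ p ^ (n + n₀) ∈ K := by
      rw [pow_add, mul_comm, pow_mul]
      exact pow_mem hc _
    rw [← hA.up_pow n n₀ j, hA.mul _ _ _ _ hcN]
    refine RVal.Ge.sum _ _ fun i hi => ?_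
    have hi' := Finset.HasAntidiagonal.mem_antidiagonal.1 hi
    have hi2 : (i.1 : ℝ) + i.2 = (p : ℝ) ^ n₀ * j := by exact_mod_cast hi'
    have hi3 : (i.1 : ℝ) / (p : ℝ) ^ (n + n₀) + (i.2 : ℝ) / (p : ℝ) ^ (n + n₀) =
        (j : ℝ) / (p : ℝ) ^ n := by
      rw [← add_div, hi2, pow_add]
      field_simp
    have h3 : v.Ge (α + (i.1 : ℝ) / (p : ℝ) ^ (n + n₀) * lam) (A (n + n₀) i.1 c) := by
      have e2 : c = x - (x - c) := by ring
      rw [e2, map_sub]
      refine (hx _ _).sub ((hA.norm _ _ (x - c) b h1).mono ?_)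
      rw [hb, ← hi3]
      have h4 : (0 : ℝ) ≤ (i.2 : ℝ) / (p : ℝ) ^ (n + n₀) * lam := by positivity
      nlinarith
    refine (h3.mul (hy (n + n₀) i.2)).mono (le_of_eq ?_)
    rw [← hi3]
    ring

/-- The gain of a power. -/
theorem GnF.pow (hA : HSX p v K L h A) (hL : DnsK p v K L) (hlam : 0 ≤ lam)
    (h1 : GnF p v A lam 0 (1 : L)) (hx : GnF p v A lam α x) (n : ℕ) :
    GnF p v A lam (n * α) (x ^ n) := by
  induction n with
  | zero =>
    rw [pow_zero, Nat.cast_zero, zero_mul]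
    exact h1
  | succ n ih =>
    rw [pow_succ]
    refine (ih.mul hA hL hlam hx).mono (le_of_eq ?_)
    push_cast
    ring

/-- The gain of a product. -/
theorem GnF.prod (hA : HSX p v K L h A) (hL : DnsK p v K L) (hlam : 0 ≤ lam)
    (h1 : GnF p v A lam 0 (1 : L)) {κ : Type*} (s : Finset κ) {f : κ → L} {a : κ → ℝ}
    (hf : ∀ i ∈ s, GnF p v A lam (a i) (f i)) : GnF p v A lam (∑ i ∈ s, a i) (∏ i ∈ s, f i) := by
  classical
  induction s using Finset.induction_on with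
  | empty =>
    rw [Finset.prod_empty, Finset.sum_empty]
    exact h1
  | insert a s ha ih =>
    rw [Finset.prod_insert ha, Finset.sum_insert ha]
    exact (hf a (Finset.mem_insert_self a s)).mul hA hL hlam
      (ih fun i hi => hf i (Finset.mem_insert_of_mem hi))

end Mul

/-! ### The first floor -/

/-- The data of the first floor. -/
structure FFl (p : ℕ) (v : RVal Ω) (K L E E₁ : IntermediateField k Ω)
    (h : K →ₐ[k] PowerSeries Ω) (A : ℕ → ℕ → L →ₗ[k] Ω) {m : ℕ} (u : ℕ → Fin m → Ω) (lam : ℝ)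
    (N₀ : ℕ) : Prop where
  hsx : HSX p v K L h A
  dnsK : DnsK p v K L
  cldE : Cld v E
  cld : Cld v E₁
  le : E ≤ E₁
  leL : E₁ ≤ L
  perf : ∀ a ∈ E, ∃ b ∈ E, b ^ p = a
  stab : ∀ (n j : ℕ) (x : L), (x : Ω) ∈ E → A n j x ∈ E
  pos : 0 < lam
  gain : ∀ (n j : ℕ) (x : L) (b : ℝ), (x : Ω) ∈ E → v.Ge b (x : Ω) →
    v.Ge (b + (j : ℝ) / (p : ℝ) ^ n * lam) (A n j x)
  root : ∀ n l, u (n + 1) l ^ p = u n l
  u0 : ∀ l, u 0 l ∈ K
  mem : ∀ n l, u n l ∈ E₁
  dns : DnsS v (AU E u) E₁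
  rect : Rect v E (u 0) (fun _ => 0)
  coef : ∀ (j : ℕ) (l : Fin m) (x : L), (x : Ω) = u 0 l → 0 < j → A 0 j x ∈ E
  fin : ∀ (j : ℕ) (l : Fin m) (x : L), (x : Ω) = u 0 l → N₀ < j → A 0 j x = 0

namespace FFl

variable {N₀ : ℕ}

theorem root_pow (hF : FFl p v K L E E₁ h A u lam N₀) (n j : ℕ) (l : Fin m) :
    u (n + j) l ^ p ^ j = u n l := by
  induction j with
  | zero => rw [pow_zero, pow_one, add_zero]
  | succ j ih => rw [pow_succ', pow_mul, ← add_assoc, hF.root, ih]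

theorem root_pow' (hF : FFl p v K L E E₁ h A u lam N₀) (n : ℕ) (l : Fin m) :
    u n l ^ p ^ n = u 0 l := by
  have h1 := hF.root_pow 0 n l
  rwa [zero_add] at h1

theorem gn (hF : FFl p v K L E E₁ h A u lam N₀) {x : L} (hx : (x : Ω) ∈ E) {b : ℝ}
    (hb : v.Ge b (x : Ω)) : GnF p v A lam b x := fun n j => hF.gain n j x b hx hb

theorem gn_one (hF : FFl p v K L E E₁ h A u lam N₀) : GnF p v A lam 0 (1 : L) :=
  hF.gn (one_mem E) (by
    change v.Ge 0 (1 : Ω)
    exact fun _ => by rw [RVal.map_one])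

variable [hp : Fact p.Prime] [CharP Ω p]

/-- The value at the root of the operator of index `j / p ^ n`, to the power `p ^ n`. -/
theorem pow_coef (hF : FFl p v K L E E₁ h A u lam N₀) (n j : ℕ) (l : Fin m) (x : L)
    (hx : (x : Ω) = u n l) (y : L) (hy : (y : Ω) = u 0 l) : A n j x ^ p ^ n = A 0 j y := by
  have hxK : (x : Ω) ^ p ^ n ∈ K := by
    rw [hx, hF.root_pow']
    exact hF.u0 l
  have hyK : (y : Ω) ∈ K := by
    rw [hy]
    exact hF.u0 l
  rw [hF.hsx.base n j x hxK, hF.hsx.ext j y hyK]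
  congr 2
  refine Subtype.ext ?_
  change (x : Ω) ^ p ^ n = y
  rw [hx, hF.root_pow', hy]

theorem coefN (hF : FFl p v K L E E₁ h A u lam N₀) (n j : ℕ) (l : Fin m) (x : L)
    (hx : (x : Ω) = u n l) (hj : 0 < j) : A n j x ∈ E := by
  have h1 := hF.pow_coef n j l x hx ⟨u 0 l, hF.leL (hF.mem 0 l)⟩ rfl
  have h2 := hF.coef j l ⟨u 0 l, hF.leL (hF.mem 0 l)⟩ rfl hj
  rw [← h1] at h2
  obtain ⟨b, hb, h3⟩ := exists_rootn p hF.perf n _ h2
  have h4 : A n j x = b := by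
    have h5 : (A n j x - b) ^ p ^ n = 0 := by
      rw [sub_pow_char_pow, h3, sub_self]
    exact sub_eq_zero.1 (pow_eq_zero_iff (pow_pos hp.out.pos n).ne' |>.1 h5)
  rw [h4]
  exact hb

theorem finN (hF : FFl p v K L E E₁ h A u lam N₀) (n j : ℕ) (l : Fin m) (x : L)
    (hx : (x : Ω) = u n l) (hj : N₀ < j) : A n j x = 0 := by
  have h1 := hF.pow_coef n j l x hx ⟨u 0 l, hF.leL (hF.mem 0 l)⟩ rfl
  rw [hF.fin j l _ rfl hj] at h1
  exact pow_eq_zero_iff (pow_pos hp.out.pos n).ne' |>.1 h1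

/-- The operators of index `> N₀ / p ^ N` vanish at the root `u N`. -/
theorem van_root (hF : FFl p v K L E E₁ h A u lam N₀) (N n j : ℕ) (l : Fin m) (x : L)
    (hx : (x : Ω) = u N l) (hj : (N₀ : ℝ) / (p : ℝ) ^ N < (j : ℝ) / (p : ℝ) ^ n) :
    A n j x = 0 := by
  have hp0 : (0 : ℝ) < p := by exact_mod_cast hp.out.pos
  rw [← hF.hsx.up_pow n N j, add_comm n N]
  by_cases hd : p ^ n ∣ p ^ N * j
  · obtain ⟨j', hj'⟩ := hd
    rw [hj', hF.hsx.up_pow N n j']
    refine hF.finN N j' l x hx ?_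
    have h1 : (p : ℝ) ^ N * j = (p : ℝ) ^ n * j' := by exact_mod_cast hj'
    rw [div_lt_div_iff₀ (by positivity) (by positivity)] at hj
    have h2 : (N₀ : ℝ) * (p : ℝ) ^ n < j' * (p : ℝ) ^ n := by nlinarith
    exact_mod_cast lt_of_mul_lt_mul_right h2 (by positivity)
  · exact hF.hsx.van N n _ x (by rw [hx, hF.root_pow']; exact hF.u0 l) hd

/-- The gain at `u N l - η`. -/
theorem gn_sub (hF : FFl p v K L E E₁ h A u lam N₀) (N : ℕ) (l : Fin m) {x η : L}
    (hx : (x : Ω) = u N l) (hη : (η : Ω) ∈ E) {γ B : ℝ} (hγ : 0 ≤ γ) (hB : 0 ≤ B)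
    (ht : v.Ge (-γ) ((x : Ω) - η)) (hv : v.Ge (-B) (u 0 l)) :
    GnF p v A lam (-(γ + (N₀ * lam + B) / (p : ℝ) ^ N)) (x - η) := by
  have hp0 : (0 : ℝ) < p := by exact_mod_cast hp.out.pos
  intro n j
  have hpN : (0 : ℝ) < (p : ℝ) ^ N := by positivity
  by_cases hj : (N₀ : ℝ) / (p : ℝ) ^ N < (j : ℝ) / (p : ℝ) ^ n
  · have h1 : A n j (x - η) = -A n j η := by
      rw [map_sub, hF.van_root N n j l x hx hj, zero_sub]
    rw [h1]
    have h2 : v.Ge (-(B / (p : ℝ) ^ N)) (x : Ω) := by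
      rw [hx]
      refine Key.ge_of_pow (m := p ^ N) (pow_pos hp.out.pos N).ne' ?_
      rw [hF.root_pow']
      refine hv.mono (le_of_eq ?_)
      push_cast
      field_simp
    have h3 : v.Ge (-(γ + B / (p : ℝ) ^ N)) (η : Ω) := by
      have e : (η : Ω) = x - (x - η) := by ring
      rw [e]
      refine (h2.mono ?_).sub (ht.mono ?_)
      · linarith
      · have : 0 ≤ B / (p : ℝ) ^ N := by positivity
        linarith
    refine ((hF.gain n j η _ hη h3).neg).mono ?_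
    rw [add_div]
    have : 0 ≤ N₀ * lam / (p : ℝ) ^ N := by
      have := hF.pos
      positivity
    linarith
  · rw [not_lt] at hj
    refine (hF.hsx.norm n j (x - η) _ ht).mono ?_
    have h1 : (j : ℝ) / (p : ℝ) ^ n * lam ≤ (N₀ : ℝ) / (p : ℝ) ^ N * lam :=
      mul_le_mul_of_nonneg_right hj hF.pos.le
    have h2 : 0 ≤ B / (p : ℝ) ^ N := by positivity
    have h3 : (N₀ * lam + B) / (p : ℝ) ^ N = (N₀ : ℝ) / (p : ℝ) ^ N * lam + B / (p : ℝ) ^ N := by
      field_simp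
    rw [h3]
    linarith


/-! ### The gain on the elements of small degree -/

theorem gen (hF : FFl p v K L E E₁ h A u lam N₀) (n : ℕ) : Key.Gen v E (u n) (fun _ => 0) := by
  have h1 := hF.rect.root (p := p) hF.perf (n := n) (u := u n) (fun l => hF.root_pow' n l)
  intro l
  obtain ⟨M, h2, h3, h4, h5⟩ := h1.gen l
  refine ⟨M, fun c => h2 _ c.2, h3, h4, fun θ hθ => ?_⟩
  have h6 := h5 θ hθ
  rwa [zero_div] at h6

theorem hlim (hF : FFl p v K L E E₁ h A u lam N₀) (n : ℕ) (l : Fin m) (ε : ℝ) (hε : 0 < ε) :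
    ∃ η ∈ E, v.Ge (-ε) (u n l - η) := by
  have h1 := hF.rect.root (p := p) hF.perf (n := n) (u := u n) (fun l => hF.root_pow' n l)
  obtain ⟨η, hη, h2⟩ := h1.lim l ε hε
  refine ⟨η, hη, h2.mono (le_of_eq ?_)⟩
  rw [zero_div, zero_sub]

theorem exists_B (u : ℕ → Fin m → Ω) : ∃ B : ℝ, 0 ≤ B ∧ ∀ l, v.Ge (-B) (u 0 l) := by
  refine ⟨∑ l, |v (u 0 l)|, Finset.sum_nonneg fun _ _ => abs_nonneg _, fun l _ => ?_⟩
  have h1 := Finset.single_le_sum (f := fun l => |v (u 0 l)|) (fun _ _ => abs_nonneg _)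
    (Finset.mem_univ l)
  have h2 := neg_abs_le (v (u 0 l))
  linarith

variable [IsAlgClosed Ω]

/-- The gain, for a polynomial in the roots of level `N`. -/
theorem gn_ev (hF : FFl p v K L E E₁ h A u lam N₀) {B : ℝ} (hB : 0 ≤ B)
    (hv : ∀ l, v.Ge (-B) (u 0 l)) (N : ℕ) {d : ℝ} (hd0 : 0 ≤ d) {F : (Fin m → ℕ) →₀ E}
    (hFd : F ∈ dg E (Fin m) (d * (p : ℝ) ^ N)) {x : L} (hx : (x : Ω) = ev (u N) F) {b : ℝ}
    (hb : v.Ge b (x : Ω)) {ε : ℝ} (hε : 0 < ε) :
    GnF p v A lam (b - ε - d * (N₀ * lam + B)) x := by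
  classical
  have hp0 : (0 : ℝ) < p := by exact_mod_cast hp.out.pos
  have hpN : (0 : ℝ) < (p : ℝ) ^ N := by positivity
  -- the bound of the exponents
  obtain ⟨q, hq2, hq⟩ : ∃ q : ℕ, 2 ≤ q ∧ ∀ I ∈ F.support, ∀ l, I l < q := by
    refine ⟨2 + ∑ I ∈ F.support, ∑ l, I l, Nat.le_add_right _ _, fun I hI l => ?_⟩
    have h1 := Finset.single_le_sum (f := fun I : Fin m → ℕ => ∑ l, I l)
      (fun _ _ => Nat.zero_le _) hI
    have h2 := Finset.single_le_sum (f := fun l => I l) (fun _ _ => Nat.zero_le _)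
      (Finset.mem_univ l)
    omega
  -- the near point
  obtain ⟨γ, hγ, hγε, hγd⟩ : ∃ γ : ℝ, 0 < γ ∧ γ ≤ ε / 2 ∧ d * (p : ℝ) ^ N * γ ≤ ε / 2 := by
    have h1 : 0 ≤ d * (p : ℝ) ^ N := by positivity
    refine ⟨ε / 2 / (d * (p : ℝ) ^ N + 1), by positivity, ?_, ?_⟩
    · exact div_le_self (by positivity) (by linarith)
    · rw [← mul_div_assoc, div_le_iff₀ (by positivity)]
      nlinarith
  obtain ⟨η, hη⟩ := exists_eta (P := E) (fun n l ε hε => hF.hlim n l ε hε) N q hγ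
  have hη1 : ∀ l, v.Ge (-γ) (u N l - algebraMap E Ω (η l)) := by
    intro l
    have h1 := hη (Pi.single l 1) (fun i => by
      by_cases hi : i = l
      · subst hi
        rw [Pi.single_eq_same]
        omega
      · rw [Pi.single_eq_of_ne hi]
        omega)
    rw [Finset.prod_eq_single l (fun i _ hi => by rw [Pi.single_eq_of_ne hi, pow_zero])
      (fun h => absurd (Finset.mem_univ l) h), Pi.single_eq_same, pow_one] at h1
    have e : u N l - algebraMap E Ω (η l) = -(algebraMap E Ω (η l) - u N l) := by ring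
    rw [e]
    exact h1.neg
  -- the coefficients
  have hco : ∀ G : Fin m → ℕ,
      v.Ge (b - ε / 2) (ev (fun l => algebraMap E Ω (η l)) (hd G F)) := by
    intro G
    have hq' : ∀ I ∈ (hd G F).support, ∀ l, I l < q := by
      intro I hI l
      by_contra hcon
      have h1 : hd G F ∈ dg E (Fin m) (d * (p : ℝ) ^ N) := hd_mem_dg hFd G
      have h2 : hd G F ∈ Finsupp.supported E E {I : Fin m → ℕ | ∀ l, I l < q} := by
        rw [hd, Finsupp.linearCombination_apply]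
        refine Submodule.sum_mem _ fun J hJ => Submodule.smul_mem _ _ ?_
        rw [Finsupp.mem_supported]
        intro J' hJ'
        have h3 : J' = _ := Finset.mem_singleton.1 (Finsupp.support_single_subset hJ')
        rw [h3]
        intro l
        exact lt_of_le_of_lt (Nat.sub_le _ _) (hq J hJ l)
      exact hcon ((Finsupp.mem_supported _ _).1 h2 hI l)
    rw [Key.ev_taylor (u N) η (hd G F) q hq']
    refine RVal.Ge.sum _ _ fun G' hG' => ?_
    have h1 : v.Ge b (ev (u N) (hd G' (hd G F))) := by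
      have h2 := Key.norm_le (hF.gen N) F (b := b) (by rw [← hx]; exact hb) G
      have h3 := Key.norm_le (hF.gen N) (hd G F) h2 G'
      refine h3.mono (le_of_eq ?_)
      simp
    have h4 := hη G' (fun l => Finset.mem_range.1 (Fintype.mem_piFinset.1 hG' l))
    refine (h1.mul h4).mono ?_
    linarith
  -- the expansion
  have hEL : ∀ a : E, (a : Ω) ∈ L := fun a => hF.leL (hF.le a.2)
  set c : (Fin m → ℕ) → L := fun G => ⟨ev (fun l => algebraMap E Ω (η l)) (hd G F),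
    hF.leL (hF.le (by
      have h1 := ev_mem (B := E) le_rfl (a := fun l => algebraMap E Ω (η l))
        (fun l => (η l).2) (hd G F)
      exact h1))⟩ with hc
  set t : Fin m → L := fun l => (⟨u N l, hF.leL (hF.mem N l)⟩ : L) - ⟨η l, hEL _⟩ with ht
  have hxe : x = ∑ G ∈ Fintype.piFinset fun _ : Fin m => Finset.range q, c G * ∏ l, t l ^ G l := by
    refine Subtype.ext ?_
    rw [hx, ev_taylor' (fun l => algebraMap E Ω (η l)) (u N) F q hq]
    push_cast
    rfl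
  rw [hxe]
  refine GnF.sum _ fun G _ => ?_
  by_cases hG : ∑ l, (G l : ℝ) ≤ d * (p : ℝ) ^ N
  · have h1 : GnF p v A lam (b - ε / 2) (c G) := by
      refine hF.gn ?_ (hco G)
      exact ev_mem (B := E) le_rfl (a := fun l => algebraMap E Ω (η l)) (fun l => (η l).2) (hd G F)
    have h2 : GnF p v A lam (∑ l, ((G l : ℝ) * -(γ + (N₀ * lam + B) / (p : ℝ) ^ N)))
        (∏ l, t l ^ G l) := by
      refine GnF.prod hF.hsx hF.dnsK hF.pos.le hF.gn_one _ fun l _ => ?_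
      refine GnF.pow hF.hsx hF.dnsK hF.pos.le hF.gn_one ?_ _
      exact hF.gn_sub N l rfl (η l).2 hγ.le hB (hη1 l) (hv l)
    refine (h1.mul hF.hsx hF.dnsK hF.pos.le h2).mono ?_
    rw [← Finset.sum_mul]
    have h3 : (N₀ * lam + B) / (p : ℝ) ^ N * (d * (p : ℝ) ^ N) = d * (N₀ * lam + B) := by
      field_simp
    have h4 : 0 ≤ γ + (N₀ * lam + B) / (p : ℝ) ^ N := by
      have := hF.pos
      positivity
    nlinarith
  · have h1 : c G = 0 := by
      refine Subtype.ext ?_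
      change Key.ev _ (hd G F) = 0
      rw [Key.hd_dg_eq_zero hFd (not_le.1 hG), map_zero]
    rw [h1, zero_mul]
    exact GnF.zero


/-- **The gain on the elements of small degree.** -/
theorem gain_small (hF : FFl p v K L E E₁ h A u lam N₀) (n j : ℕ) (hj : 0 < j) :
    ∃ δ, 0 < δ ∧ ∃ μ, 0 < μ ∧ ∀ (x : L) (e : E₁), (e : Ω) = x → e ∈ dgA E E₁ hF.root δ →
      ∀ b : ℝ, v.Ge b (x : Ω) → v.Ge (b + μ) (A n j x) := by
  have hp0 : (0 : ℝ) < p := by exact_mod_cast hp.out.pos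
  have hj0 : (0 : ℝ) < j := by exact_mod_cast hj
  obtain ⟨B, hB, hv⟩ := exists_B (v := v) u
  set w : ℝ := (j : ℝ) / (p : ℝ) ^ n * lam with hw
  have hw0 : 0 < w := by
    have := hF.pos
    positivity
  have hR : 0 ≤ N₀ * lam + B := by
    have := hF.pos
    positivity
  refine ⟨w / (4 * (N₀ * lam + B + 1)), by positivity, w / 2, by positivity,
    fun x e hex he b hb => ?_⟩
  obtain ⟨i, F, hFd, h1⟩ := dgA_level he 0
  have h2 := hF.gn_ev hB hv (0 + i) (d := w / (4 * (N₀ * lam + B + 1))) (by positivity) hFd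
    (x := x) (by rw [← hex, h1]) hb (ε := w / 4) (by positivity) n j
  refine h2.mono ?_
  have h3 : w / (4 * (N₀ * lam + B + 1)) * (N₀ * lam + B) ≤ w / 4 := by
    rw [div_mul_eq_mul_div, div_le_div_iff₀ (by positivity) (by positivity)]
    nlinarith
  rw [← hw]
  linarith

end FFl

/-! ### The degree -/

section Deg

variable {Q : Type*} [Field Q] [Algebra Q Ω] {ι : Type*} [Fintype ι]

/-- The values of the polynomials of degree `≤ D`. -/
noncomputable def vdg (Q : Type*) [Field Q] [Algebra Q Ω] {ι : Type*} [Fintype ι] (a : ι → Ω)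
    (D : ℝ) : Submodule Q Ω := (dg Q ι D).map (Key.ev a)

theorem vdg_mono {a : ι → Ω} {D D' : ℝ} (h : D ≤ D') : vdg Q a D ≤ vdg Q a D' :=
  Submodule.map_mono (dg_mono h)

theorem mem_vdg {a : ι → Ω} {D : ℝ} {x : Ω} :
    x ∈ vdg Q a D ↔ ∃ f ∈ dg Q ι D, Key.ev a f = x := Iff.rfl

theorem mon_vdg {a : ι → Ω} {D : ℝ} {I : ι → ℕ} (h : ∑ l, (I l : ℝ) ≤ D) (c : Q) :
    algebraMap Q Ω c * ∏ l, a l ^ I l ∈ vdg Q a D :=
  ⟨_, single_mem_dg h c, by rw [Key.ev_single]⟩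

theorem mul_vdg [DecidableEq ι] {a : ι → Ω} {D : ℝ} {x : Ω} (hx : x ∈ vdg Q a D) (i : ι) :
    a i * x ∈ vdg Q a (D + 1) := by
  obtain ⟨f, hf, rfl⟩ := hx
  rw [ev_eq_sum, Finset.mul_sum]
  refine sum_mem fun I hI => ?_
  have h1 : a i * (algebraMap Q Ω (f I) * ∏ l, a l ^ I l) =
      algebraMap Q Ω (f I) * ∏ l, a l ^ (I + Pi.single i 1 : ι → ℕ) l := by
    simp only [Pi.add_apply, pow_add, Finset.prod_mul_distrib]
    rw [Finset.prod_eq_single (a := i) (f := fun l => a l ^ (Pi.single i 1 : ι → ℕ) l)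
      (fun l _ hl => by rw [Pi.single_eq_of_ne hl, pow_zero])
      (fun h => absurd (Finset.mem_univ i) h), Pi.single_eq_same, pow_one]
    ring
  rw [h1]
  refine mon_vdg ?_ _
  have h2 : ∑ l, (((I + Pi.single i 1 : ι → ℕ) l : ℕ) : ℝ) = ∑ l, (I l : ℝ) + 1 := by
    simp only [Pi.add_apply, Nat.cast_add, Finset.sum_add_distrib]
    congr 1
    rw [Finset.sum_eq_single i (fun l _ hl => by rw [Pi.single_eq_of_ne hl, Nat.cast_zero])
      (fun h => absurd (Finset.mem_univ i) h), Pi.single_eq_same, Nat.cast_one]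
  rw [h2]
  linarith [Key.mem_dg.1 hf I hI]

end Deg

namespace FFl

variable {N₀ : ℕ} [hp : Fact p.Prime] [CharP Ω p]

/-- The operators of level `N` preserve the degree, on the monomials. -/
theorem mon_vdg (hF : FFl p v K L E E₁ h A u lam N₀) (N s : ℕ) :
    ∀ (I : Fin m → ℕ), ∑ l, I l = s → ∀ (c x : L), (c : Ω) ∈ E →
      (x : Ω) = (c : Ω) * ∏ l, u N l ^ I l → ∀ j, A N j x ∈ vdg E (u N) (s : ℝ) := by
  induction s with
  | zero =>
    intro I hI c x hc hx j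
    have h1 : ∀ l, I l = 0 := fun l => Finset.sum_eq_zero_iff.1 hI l (Finset.mem_univ l)
    have h2 : x = c := Subtype.ext (by
      rw [hx]
      simp [h1])
    rw [h2]
    have h3 := TWC.mon_vdg (Q := E) (a := u N) (D := ((0 : ℕ) : ℝ)) (I := fun _ => 0) (by simp)
      (⟨A N j c, hF.stab N j c hc⟩ : E)
    simpa using h3
  | succ s ih =>
    intro I hI c x hc hx j
    obtain ⟨i, hi⟩ : ∃ i, 0 < I i := by
      by_contra hcon
      push Not at hcon
      have : ∑ l, I l = 0 := Finset.sum_eq_zero fun l _ => Nat.le_zero.1 (hcon l)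
      omega
    set J : Fin m → ℕ := I - Pi.single i 1 with hJ
    have hIJ : I = J + Pi.single i 1 := by
      funext l
      by_cases hl : l = i
      · subst hl
        simp only [hJ, Pi.add_apply, Pi.sub_apply, Pi.single_eq_same]
        omega
      · simp only [hJ, Pi.add_apply, Pi.sub_apply, Pi.single_eq_of_ne hl]
        omega
    have hJs : ∑ l, J l = s := by
      have h1 : ∑ l, I l = ∑ l, J l + 1 := by
        rw [hIJ]
        simp only [Pi.add_apply, Finset.sum_add_distrib]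
        congr 1
        rw [Finset.sum_eq_single i (fun l _ hl => by rw [Pi.single_eq_of_ne hl])
          (fun h => absurd (Finset.mem_univ i) h), Pi.single_eq_same]
      omega
    have hul : u N i ∈ L := hF.leL (hF.mem N i)
    set y : L := c * ∏ l, (⟨u N l, hF.leL (hF.mem N l)⟩ : L) ^ J l with hy
    have hyv : (y : Ω) = (c : Ω) * ∏ l, u N l ^ J l := by
      rw [hy]
      push_cast
      rfl
    have hxy : x = ⟨u N i, hul⟩ * y := by
      refine Subtype.ext ?_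
      rw [hx]
      change _ = u N i * (y : Ω)
      rw [hyv, hIJ]
      simp only [Pi.add_apply, pow_add, Finset.prod_mul_distrib]
      rw [Finset.prod_eq_single (a := i) (f := fun l => u N l ^ (Pi.single i 1 : Fin m → ℕ) l)
        (fun l _ hl => by rw [Pi.single_eq_of_ne hl, pow_zero])
        (fun h => absurd (Finset.mem_univ i) h), Pi.single_eq_same, pow_one]
      ring
    have hK : ((⟨u N i, hul⟩ : L) : Ω) ^ p ^ N ∈ K := by
      change u N i ^ p ^ N ∈ K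
      rw [hF.root_pow']
      exact hF.u0 i
    rw [hxy, hF.hsx.mul N j _ y hK]
    refine sum_mem fun ab _ => ?_
    have h1 := ih J hJs c y hc hyv ab.2
    by_cases ha : ab.1 = 0
    · rw [ha, hF.hsx.zero]
      have h2 := mul_vdg h1 i
      push_cast
      exact h2
    · have h2 := hF.coefN N ab.1 i ⟨u N i, hul⟩ rfl (Nat.pos_of_ne_zero ha)
      have h3 := (vdg E (u N) ((s + 1 : ℕ) : ℝ)).smul_mem (⟨_, h2⟩ : E)
        (vdg_mono (by push_cast; linarith) h1)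
      exact h3

/-- The operators of level `N` preserve the degree. -/
theorem vdg_mem (hF : FFl p v K L E E₁ h A u lam N₀) (N j : ℕ) {D : ℝ} {x : L}
    (hx : (x : Ω) ∈ vdg E (u N) D) : A N j x ∈ vdg E (u N) D := by
  classical
  obtain ⟨f, hf, h1⟩ := hx
  rw [ev_eq_sum] at h1
  set y : (Fin m → ℕ) → L := fun I => (⟨f I, hF.leL (hF.le (f I).2)⟩ : L) *
    ∏ l, (⟨u N l, hF.leL (hF.mem N l)⟩ : L) ^ I l with hy
  have hyv : ∀ I, (y I : Ω) = (f I : Ω) * ∏ l, u N l ^ I l := by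
    intro I
    rw [hy]
    push_cast
    rfl
  have h2 : x = ∑ I ∈ f.support, y I := by
    refine Subtype.ext ?_
    rw [← h1]
    push_cast
    exact Finset.sum_congr rfl fun I _ => (hyv I).symm
  rw [h2, map_sum]
  refine sum_mem fun I hI => ?_
  refine vdg_mono ?_ (hF.mon_vdg N (∑ l, I l) I rfl ⟨f I, hF.leL (hF.le (f I).2)⟩ (y I)
    (f I).2 (hyv I) j)
  have h3 := Key.mem_dg.1 hf I hI
  push_cast
  exact h3

/-- The field `E₁` is stable. -/
theorem stab₁ (hF : FFl p v K L E E₁ h A u lam N₀) (n j : ℕ) {x : L} (hx : (x : Ω) ∈ E₁) :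
    A n j x ∈ E₁ := by
  refine hF.cld (mem_clI.2 fun b => ?_)
  obtain ⟨_, ⟨N, f, rfl⟩, hfE, h1⟩ := hF.dns x hx b
  obtain ⟨D, -, hf⟩ := exists_dg f
  have h2 : (⟨Key.ev (u N) f, hF.leL hfE⟩ : L).1 ∈ vdg E (u (n + N)) (D * p ^ n) := by
    refine ⟨lf (p ^ n) f, ?_, ?_⟩
    · have h3 := Key.lf_mem_dg hf (p ^ n)
      rwa [show ((p ^ n : ℕ) : ℝ) * D = D * p ^ n by push_cast; ring] at h3
    · rw [add_comm n N, ev_lift hF.root]
  have h3 := hF.vdg_mem (n + N) (p ^ N * j) h2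
  rw [hF.hsx.up_pow] at h3
  refine ⟨A n j ⟨Key.ev (u N) f, hF.leL hfE⟩, ?_, ?_⟩
  · obtain ⟨g, -, h4⟩ := h3
    rw [← h4]
    exact ev_mem hF.le (hF.mem _) g
  · rw [← map_sub]
    exact hF.hsx.norm n j _ b h1

end FFl

/-! ### The algebra generated by a set of operators -/

section Adj

variable [hcx : Fact (Ctx0 k v)] {E : IntermediateField k Ω}

/-- The algebra (without unit) generated by a set of operators. -/
noncomputable def adjT (G : Set (Opr v E)) : Submodule k (Opr v E) :=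
  (NonUnitalAlgebra.adjoin k G).toSubmodule

theorem subset_adjT {G : Set (Opr v E)} {φ : Opr v E} (hφ : φ ∈ G) : φ ∈ adjT G :=
  NonUnitalAlgebra.subset_adjoin k hφ

theorem adjT_mul {G : Set (Opr v E)} {φ ψ : Opr v E} (hφ : φ ∈ adjT G) (hψ : ψ ∈ adjT G) :
    φ * ψ ∈ adjT G :=
  mul_mem (S := NonUnitalSubalgebra k (Opr v E)) (s := NonUnitalAlgebra.adjoin k G) hφ hψ

/-- Induction on the elements of the algebra. -/
theorem adjT_induction {G : Set (Opr v E)} {P : Opr v E → Prop} (hG : ∀ φ ∈ G, P φ)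
    (h0 : P 0) (hadd : ∀ φ ψ, P φ → P ψ → P (φ + ψ)) (hsm : ∀ (a : k) φ, P φ → P (a • φ))
    (hmul : ∀ φ ψ, P φ → P ψ → P (φ * ψ)) {φ : Opr v E} (hφ : φ ∈ adjT G) : P φ := by
  have h1 : φ ∈ NonUnitalAlgebra.adjoin k G := hφ
  induction h1 using NonUnitalAlgebra.adjoin_induction with
  | mem x hx => exact hG x hx
  | add x y _ _ hx hy => exact hadd _ _ (hx ‹_›) (hy ‹_›)
  | zero => exact h0
  | mul x y _ _ hx hy => exact hmul _ _ (hx ‹_›) (hy ‹_›)
  | smul a x _ hx => exact hsm _ _ (hx ‹_›)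

/-- The algebra generated by a set of operators stable under `tw`. -/
theorem opM_adjT (p : ℕ) [Fact p.Prime] [CharP k p] [CharP Ω p] [PerfectRing k p]
    (hE : Cld v E) (hE' : ∀ a ∈ E, ∃ b ∈ E, b ^ p = a) {G : Set (Opr v E)}
    (htw : ∀ φ ∈ G, ∃ φ' ∈ G, ∀ x : E,
      (φ : Module.End k E) (x ^ p) = ((φ' : Module.End k E) x) ^ p)
    (hone : ∀ φ ∈ G, (φ : Module.End k E) 1 = 0) : OpM p v E (adjT G) where
  cld := hE
  perf := hE'
  mul φ hφ ψ hψ := adjT_mul hφ hψ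
  tw φ hφ := by
    refine adjT_induction (P := fun φ => ∃ φ' ∈ adjT G, ∀ x : E,
      (φ : Module.End k E) (x ^ p) = ((φ' : Module.End k E) x) ^ p)
      (fun φ hφ => ?_) ?_ (fun φ ψ h1 h2 => ?_) (fun a φ h1 => ?_) (fun φ ψ h1 h2 => ?_) hφ
    · obtain ⟨φ', h1, h2⟩ := htw φ hφ
      exact ⟨φ', subset_adjT h1, h2⟩
    · exact ⟨0, zero_mem _, fun x => by
        change (0 : E) = 0 ^ p
        rw [zero_pow (Fact.out : p.Prime).ne_zero]⟩
    · obtain ⟨φ', h1, h3⟩ := h1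
      obtain ⟨ψ', h2, h4⟩ := h2
      refine ⟨φ' + ψ', add_mem h1 h2, fun x => ?_⟩
      change (φ : Module.End k E) (x ^ p) + (ψ : Module.End k E) (x ^ p) =
        ((φ' : Module.End k E) x + (ψ' : Module.End k E) x) ^ p
      rw [h3, h4]
      have : CharP E p := charP_sub p E
      rw [add_pow_char]
    · obtain ⟨φ', h1, h3⟩ := h1
      obtain ⟨a', rfl⟩ := (frobeniusEquiv k p).surjective a
      refine ⟨a' • φ', Submodule.smul_mem _ _ h1, fun x => ?_⟩
      change (frobeniusEquiv k p a') • (φ : Module.End k E) (x ^ p) =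
        (a' • (φ' : Module.End k E) x) ^ p
      rw [h3, _root_.smul_pow]
      rfl
    · obtain ⟨φ', h1, h3⟩ := h1
      obtain ⟨ψ', h2, h4⟩ := h2
      refine ⟨φ' * ψ', adjT_mul h1 h2, fun x => ?_⟩
      change (φ : Module.End k E) ((ψ : Module.End k E) (x ^ p)) =
        ((φ' : Module.End k E) ((ψ' : Module.End k E) x)) ^ p
      rw [h4, h3]
  one φ hφ := by
    refine adjT_induction (P := fun φ => (φ : Module.End k E) 1 = 0)
      hone rfl (fun φ ψ h1 h2 => ?_) (fun a φ h1 => ?_) (fun φ ψ h1 h2 => ?_) hφ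
    · change (φ : Module.End k E) 1 + (ψ : Module.End k E) 1 = 0
      rw [h1, h2, add_zero]
    · change a • (φ : Module.End k E) 1 = 0
      rw [h1, smul_zero]
    · change (φ : Module.End k E) ((ψ : Module.End k E) 1) = 0
      rw [h2, map_zero]

/-- The gain on a step of a filtration, for the elements of the algebra. -/
theorem gain_adjT {B : ℝ → Submodule k E} (hB : ∀ D D', 0 < D → D ≤ D' → B D ≤ B D')
    {G : Set (Opr v E)}
    (hG : ∀ φ ∈ G, (∀ D, 0 < D → ∀ f ∈ B D, (φ : Module.End k E) f ∈ B D) ∧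
      ∃ δ, 0 < δ ∧ ∃ μ, 0 < μ ∧ GainOn (B δ) φ μ) :
    ∀ φ ∈ adjT G, (∀ D, 0 < D → ∀ f ∈ B D, (φ : Module.End k E) f ∈ B D) ∧
      ∃ δ, 0 < δ ∧ ∃ μ, 0 < μ ∧ GainOn (B δ) φ μ := by
  intro φ hφ
  refine adjT_induction (P := fun φ : Opr v E =>
    (∀ D, 0 < D → ∀ f ∈ B D, (φ : Module.End k E) f ∈ B D) ∧
      ∃ δ, 0 < δ ∧ ∃ μ, 0 < μ ∧ GainOn (B δ) φ μ) hG ?_ ?_ ?_ ?_ hφ
  · exact ⟨fun D _ f _ => zero_mem _, 1, one_pos, 1, one_pos, fun f _ b _ => RVal.Ge.zero⟩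
  · rintro φ ψ ⟨h1, δ, hδ, μ, hμ, h2⟩ ⟨h3, δ', hδ', μ', hμ', h4⟩
    refine ⟨fun D hD f hf => add_mem (h1 D hD f hf) (h3 D hD f hf), min δ δ', lt_min hδ hδ',
      min μ μ', lt_min hμ hμ', fun f hf b hb => ?_⟩
    have h5 := h2 f (hB _ _ (lt_min hδ hδ') (min_le_left _ _) hf) b hb
    have h6 := h4 f (hB _ _ (lt_min hδ hδ') (min_le_right _ _) hf) b hb
    exact (h5.mono (by linarith [min_le_left μ μ'])).add
      (h6.mono (by linarith [min_le_right μ μ']))
  · rintro a φ ⟨h1, δ, hδ, μ, hμ, h2⟩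
    refine ⟨fun D hD f hf => Submodule.smul_mem _ a (h1 D hD f hf), δ, hδ, μ, hμ,
      fun f hf b hb => ?_⟩
    have h3 := (hcx.out.ge a).mul (h2 f hf b hb)
    rw [zero_add] at h3
    change v.Ge (b + μ) (a • (((φ : Module.End k E) f : E) : Ω))
    rwa [Algebra.smul_def]
  · rintro φ ψ ⟨h1, -⟩ ⟨h3, δ', hδ', μ', hμ', h4⟩
    refine ⟨fun D hD f hf => h1 D hD _ (h3 D hD f hf), δ', hδ', μ', hμ', fun f hf b hb => ?_⟩
    exact φ.2 _ _ (h4 f hf b hb)

end Adj

/-! ### The operators of the first floor -/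

namespace FFl

variable {N₀ : ℕ} [hp : Fact p.Prime] [CharP Ω p] [hcx : Fact (Ctx0 k v)]

/-- The operator of index `j / p ^ n`. -/
noncomputable def op (hF : FFl p v K L E E₁ h A u lam N₀) (n j : ℕ) : Opr v E₁ :=
  ⟨{ toFun := fun x => ⟨A n j ⟨x, hF.leL x.2⟩, hF.stab₁ n j (x := ⟨x, hF.leL x.2⟩) x.2⟩
     map_add' := fun x y => Subtype.ext
       (map_add (A n j) (⟨x, hF.leL x.2⟩ : L) (⟨y, hF.leL y.2⟩ : L))
     map_smul' := fun a x => Subtype.ext
       (map_smul (A n j) a (⟨x, hF.leL x.2⟩ : L)) },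
    fun x b hb => hF.hsx.norm n j ⟨x, hF.leL x.2⟩ b hb⟩

theorem op_coe (hF : FFl p v K L E E₁ h A u lam N₀) (n j : ℕ) (x : E₁) :
    (((hF.op n j : Module.End k E₁) x : E₁) : Ω) = A n j ⟨x, hF.leL x.2⟩ := rfl

theorem op_fn (hF : FFl p v K L E E₁ h A u lam N₀) (n j : ℕ) {x : Ω} (hx : x ∈ E₁) :
    fn (hF.op n j) x = A n j ⟨x, hF.leL hx⟩ := fn_of_mem _ hx

theorem op_tw (hF : FFl p v K L E E₁ h A u lam N₀) (n j : ℕ) (x : E₁) :
    (hF.op n j : Module.End k E₁) (x ^ p) = ((hF.op (n + 1) j : Module.End k E₁) x) ^ p :=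
  Subtype.ext (hF.hsx.frob n j ⟨x, hF.leL x.2⟩)

theorem op_one (hF : FFl p v K L E E₁ h A u lam N₀) (n j : ℕ) (hj : 0 < j) :
    (hF.op n j : Module.End k E₁) 1 = 0 := by
  refine Subtype.ext ?_
  change A n j 1 = 0
  have h1 : ((1 : L) : Ω) ^ p ^ n ∈ K := by
    rw [OneMemClass.coe_one, one_pow]
    exact one_mem K
  have h2 := hF.hsx.base n j 1 h1
  have h3 : (⟨_, h1⟩ : K) = 1 := Subtype.ext (by
    change ((1 : L) : Ω) ^ p ^ n = 1
    rw [OneMemClass.coe_one, one_pow])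
  rw [h3, _root_.map_one h, PowerSeries.coeff_one, if_neg hj.ne'] at h2
  exact pow_eq_zero_iff (pow_pos hp.out.pos n).ne' |>.1 h2

/-- **The operators preserve the degree.** -/
theorem op_dgA (hF : FFl p v K L E E₁ h A u lam N₀) (n j : ℕ) {D : ℝ} {f : E₁}
    (hf : f ∈ dgA E E₁ hF.root D) :
    (hF.op n j : Module.End k E₁) f ∈ dgA E E₁ hF.root D := by
  obtain ⟨i, F, hFd, h1⟩ := dgA_level hf n
  have h2 : ((⟨f, hF.leL f.2⟩ : L) : Ω) ∈ vdg E (u (n + i)) (D * p ^ (n + i)) :=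
    ⟨F, hFd, h1.symm⟩
  have h3 := hF.vdg_mem (n + i) (p ^ i * j) h2
  rw [hF.hsx.up_pow] at h3
  obtain ⟨g, hg, h4⟩ := h3
  exact ⟨n + i, g, hg, h4.symm⟩

/-- The algebra generated by the operators of index in `Q`. -/
noncomputable def T (hF : FFl p v K L E E₁ h A u lam N₀) (Q : ℕ → ℕ → Prop) :
    Submodule k (Opr v E₁) := adjT {φ | ∃ n j, Q n j ∧ φ = hF.op n j}

theorem op_mem (hF : FFl p v K L E E₁ h A u lam N₀) {Q : ℕ → ℕ → Prop} {n j : ℕ} (hQ : Q n j) :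
    hF.op n j ∈ hF.T Q := subset_adjT ⟨n, j, hQ, rfl⟩

omit hcx in
/-- The field `E₁` is perfect. -/
theorem perf₁ [IsAlgClosed Ω] (hF : FFl p v K L E E₁ h A u lam N₀) : ∀ a ∈ E₁, ∃ b ∈ E₁, b ^ p = a := by
  intro a ha
  obtain ⟨y, hy⟩ := IsAlgClosed.exists_pow_nat_eq a hp.out.pos
  refine ⟨y, hF.cld (mem_clI.2 fun b => ?_), hy⟩
  obtain ⟨_, ⟨N, f, rfl⟩, hfE, h1⟩ := hF.dns a ha (p * b)
  obtain ⟨D, -, hf⟩ := exists_dg f
  have hP' : ∀ x : E, ∃ y : E, y ^ p = x := by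
    rintro ⟨a, ha⟩
    obtain ⟨b, hb, h1⟩ := hF.perf a ha
    exact ⟨⟨b, hb⟩, Subtype.ext h1⟩
  obtain ⟨g, -, h2⟩ := ev_root p hP' (hF.root N) hf
  refine ⟨Key.ev (u (N + 1)) g, ev_mem hF.le (hF.mem _) g, ?_⟩
  refine Key.ge_of_pow (m := p) hp.out.ne_zero ?_
  rw [sub_pow_char, hy, h2]
  exact h1

omit hcx in
theorem degF (hF : FFl p v K L E E₁ h A u lam N₀) : DegF v E₁ p (dgA E E₁ hF.root) :=
  degF_dgA hF.perf hF.le hF.mem hF.dns

variable [IsAlgClosed Ω] [CharP k p] [PerfectRing k p]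

theorem opM (hF : FFl p v K L E E₁ h A u lam N₀) {Q : ℕ → ℕ → Prop}
    (hQ0 : ∀ n j, Q n j → 0 < j) (hQ : ∀ n j, Q n j → Q (n + 1) j) :
    OpM p v E₁ (hF.T Q) := by
  refine opM_adjT p hF.cld hF.perf₁ ?_ ?_
  · rintro _ ⟨n, j, h1, rfl⟩
    exact ⟨_, ⟨n + 1, j, hQ n j h1, rfl⟩, hF.op_tw n j⟩
  · rintro _ ⟨n, j, h1, rfl⟩
    exact hF.op_one n j (hQ0 n j h1)

omit [CharP k p] [PerfectRing k p] in
/-- The elements of the algebra preserve the degree and have a gain on the elements of small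
degree. -/
theorem gainT (hF : FFl p v K L E E₁ h A u lam N₀) {Q : ℕ → ℕ → Prop}
    (hQ0 : ∀ n j, Q n j → 0 < j) : ∀ φ ∈ hF.T Q,
      (∀ D, 0 < D → ∀ f ∈ dgA E E₁ hF.root D, (φ : Module.End k E₁) f ∈ dgA E E₁ hF.root D) ∧
      ∃ δ, 0 < δ ∧ ∃ μ, 0 < μ ∧ GainOn (dgA E E₁ hF.root δ) φ μ := by
  refine gain_adjT (fun D D' hD hDD => hF.degF.mono D D' hD hDD) ?_
  rintro _ ⟨n, j, h1, rfl⟩
  refine ⟨fun D _ f hf => hF.op_dgA n j hf, ?_⟩
  obtain ⟨δ, hδ, μ, hμ, h2⟩ := hF.gain_small n j (hQ0 n j h1)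
  exact ⟨δ, hδ, μ, hμ, fun f hf b hb => h2 ⟨f, hF.leL f.2⟩ f rfl hf b hb⟩

/-- **`V'` on the first floor.** -/
theorem nsdm (hF : FFl p v K L E E₁ h A u lam N₀) {Q : ℕ → ℕ → Prop}
    (hQ0 : ∀ n j, Q n j → 0 < j) (hQ : ∀ n j, Q n j → Q (n + 1) j) :
    NSDM p (hF.opM hQ0 hQ) := nsd_gain p (hF.opM hQ0 hQ) hF.degF (hF.gainT hQ0)

end FFl

end Pool.Agent.TWC
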