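import Pool.Agent.Lib.TWC.DescDefs

/-!
# TANK W, class C: the class in `MM v E` of a limit of `E`

* `cls v E x`: the class of the limit `x` of `E`;
* `cls_add`, `cls_smul`, `cls_pow`, `cls_opr`: compatibility with the operations;
* `cls_eq_zero`: it is zero if and only if `x ∈ E + O(0)`.
-/

set_option autoImplicit false

open Polynomial

namespace Pool.Agent.TWC

open Pool.Agent.H15JM (RVal)
open Pool.Agent.D2 (Ctx0)
open Pool.Agent.TWM

universe u

variable {k Ω : Type u} [Field k] [Field Ω] [Algebra k Ω] {v : RVal Ω} [Fact (Ctx0 k v)]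
  {E L LE : IntermediateField k Ω} {x y : Ω}

theorem MM.mk_eq_of_nul {m m' : CauS v E}
    (h : Nul v (fun n => (m : ℕ → Ω) n - (m' : ℕ → Ω) n)) : MM.mk v E m = MM.mk v E m' := by
  rw [← sub_eq_zero, ← map_sub, MM.mk_eq_zero]
  exact ⟨0, zero_mem E, h.congr fun n => by rw [sub_zero]; rfl⟩

open Classical in
/-- The class of a limit of `E`. -/
noncomputable def cls (v : RVal Ω) [Fact (Ctx0 k v)] (E : IntermediateField k Ω) (x : Ω) :
    MM v E :=
  if h : Lim v E 0 x then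
    MM.mk v E ⟨Classical.choose (Lim.exists_cau h), (Classical.choose_spec (Lim.exists_cau h)).1⟩
  else 0

theorem cls_eq {m : CauS v E} (h : Nul v (fun n => x - (m : ℕ → Ω) n)) :
    cls v E x = MM.mk v E m := by
  have hl : Lim v E 0 x := Lim.of_nul m.2.mem h
  rw [cls, dif_pos hl]
  refine MM.mk_eq_of_nul ?_
  refine (h.sub (Classical.choose_spec (Lim.exists_cau hl)).2).congr fun n => ?_
  ring

/-- A Cauchy sequence near a limit. -/
theorem exists_cls (hl : Lim v E 0 x) :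
    ∃ m : CauS v E, Nul v (fun n => x - (m : ℕ → Ω) n) ∧ cls v E x = MM.mk v E m := by
  obtain ⟨m, hm, h⟩ := Lim.exists_cau hl
  exact ⟨⟨m, hm⟩, h, cls_eq (m := ⟨m, hm⟩) h⟩

theorem cls_eq_zero (hl : Lim v E 0 x) : cls v E x = 0 ↔ Nr v E 0 x := by
  obtain ⟨m, hm, h⟩ := exists_cls hl
  rw [h, MM.mk_eq_zero]
  constructor
  · rintro ⟨e, he, h1⟩
    refine ⟨e, he, Nul.const_iff.1 ((hm.add h1).congr fun n => ?_)⟩
    ring
  · rintro ⟨e, he, h1⟩
    refine ⟨e, he, ((Nul.const_iff.2 h1).sub hm).congr fun n => ?_⟩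
    ring

theorem Lim.add (hx : Lim v E 0 x) (hy : Lim v E 0 y) : Lim v E 0 (x + y) := by
  intro ε hε
  obtain ⟨a, ha, h1⟩ := hx ε hε
  obtain ⟨b, hb, h2⟩ := hy ε hε
  exact ⟨a + b, add_mem ha hb, by rw [add_sub_add_comm]; exact h1.add h2⟩

theorem Lim.neg (hx : Lim v E 0 x) : Lim v E 0 (-x) := by
  intro ε hε
  obtain ⟨a, ha, h1⟩ := hx ε hε
  exact ⟨-a, neg_mem ha, by rw [show -x - -a = -(x - a) by ring]; exact h1.neg⟩

theorem Lim.sub (hx : Lim v E 0 x) (hy : Lim v E 0 y) : Lim v E 0 (x - y) := by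
  rw [sub_eq_add_neg]
  exact Lim.add hx (Lim.neg hy)

theorem Lim.smul (hx : Lim v E 0 x) (a : k) :
    Lim v E 0 (algebraMap k Ω a * x) := by
  intro ε hε
  obtain ⟨b, hb, h1⟩ := hx ε hε
  refine ⟨algebraMap k Ω a * b, mul_mem (E.algebraMap_mem a) hb, ?_⟩
  rw [← mul_sub]
  have := ((Fact.out : Ctx0 k v).ge a).mul h1
  rwa [zero_add] at this

theorem Lim.pow (p : ℕ) [Fact p.Prime] [CharP Ω p] (hx : Lim v E 0 x) : Lim v E 0 (x ^ p) := by
  obtain ⟨m, hm, h⟩ := Lim.exists_cau hx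
  exact Lim.of_nul (hm.pow p).mem ((h.pow p).congr fun n => sub_pow_char _ _)

theorem Lim.of_mem (hx : x ∈ E) : Lim v E 0 x := fun ε _ =>
  ⟨x, hx, by rw [sub_self]; exact RVal.Ge.zero⟩

theorem Nr.lim (h : Nr v E 0 x) : Lim v E 0 x := by
  obtain ⟨a, ha, h1⟩ := h
  exact fun ε hε => ⟨a, ha, h1.mono (by linarith)⟩

theorem cls_add (hx : Lim v E 0 x) (hy : Lim v E 0 y) :
    cls v E (x + y) = cls v E x + cls v E y := by
  obtain ⟨m, hm, h⟩ := exists_cls hx
  obtain ⟨m', hm', h'⟩ := exists_cls hy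
  rw [h, h', ← map_add]
  refine cls_eq ((hm.add hm').congr fun n => ?_)
  change _ = x + y - ((m : ℕ → Ω) n + (m' : ℕ → Ω) n)
  ring

theorem cls_smul (hx : Lim v E 0 x) (a : k) :
    cls v E (algebraMap k Ω a * x) = a • cls v E x := by
  obtain ⟨m, hm, h⟩ := exists_cls hx
  rw [h, ← map_smul]
  refine cls_eq ((hm.mul_ge (c := fun _ => algebraMap k Ω a) fun _ => (Fact.out : Ctx0 k v).ge a).congr
    fun n => ?_)
  change _ = algebraMap k Ω a * x - a • (m : ℕ → Ω) n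
  rw [Algebra.smul_def]
  ring

theorem cls_sub (hx : Lim v E 0 x) (hy : Lim v E 0 y) :
    cls v E (x - y) = cls v E x - cls v E y := by
  obtain ⟨m, hm, h⟩ := exists_cls hx
  obtain ⟨m', hm', h'⟩ := exists_cls hy
  rw [h, h', ← map_sub]
  refine cls_eq ((hm.sub hm').congr fun n => ?_)
  change _ = x - y - ((m : ℕ → Ω) n - (m' : ℕ → Ω) n)
  ring

theorem cls_of_nr (h : Nr v E 0 x) : cls v E x = 0 := (cls_eq_zero (Nr.lim h)).2 h

theorem cls_congr (hx : Lim v E 0 x) (hy : Lim v E 0 y) (h : Nr v E 0 (x - y)) :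
    cls v E x = cls v E y := by
  rw [← sub_eq_zero, ← cls_sub hx hy]
  exact cls_of_nr h

theorem nr_of_cls_eq (hx : Lim v E 0 x) (hy : Lim v E 0 y) (h : cls v E x = cls v E y) :
    Nr v E 0 (x - y) := by
  rw [← sub_eq_zero, ← cls_sub hx hy] at h
  exact (cls_eq_zero (Lim.sub hx hy)).1 h

section Fr

variable (p : ℕ) [Fact p.Prime] [CharP k p] [CharP Ω p]

theorem cls_pow (hx : Lim v E 0 x) : cls v E (x ^ p) = MM.fr p v E (cls v E x) := by
  obtain ⟨m, hm, h⟩ := exists_cls hx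
  rw [h, MM.fr_mk]
  exact cls_eq ((hm.pow p).congr fun n => sub_pow_char _ _)

theorem Lim.pow_pow (hx : Lim v E 0 x) (j : ℕ) : Lim v E 0 (x ^ p ^ j) := by
  induction j with
  | zero => simpa using hx
  | succ j ih =>
    have := Lim.pow p ih
    rwa [← pow_mul, ← pow_succ] at this

theorem cls_pow_pow (hx : Lim v E 0 x) (j : ℕ) :
    cls v E (x ^ p ^ j) = (MM.fr p v E)^[j] (cls v E x) := by
  induction j with
  | zero => simp
  | succ j ih =>
    rw [Function.iterate_succ_apply', ← ih, ← cls_pow p (Lim.pow_pow p hx j), ← pow_mul,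
      ← pow_succ]

/-- The class of a polynomial in the Frobenius. -/
theorem cls_poly (hx : Lim v E 0 x) (n : ℕ) (c : ℕ → k) :
    Lim v E 0 (∑ i ∈ Finset.range n, algebraMap k Ω (c i) * x ^ p ^ i) ∧
    cls v E (∑ i ∈ Finset.range n, algebraMap k Ω (c i) * x ^ p ^ i) =
      ∑ i ∈ Finset.range n, c i • (MM.fr p v E)^[i] (cls v E x) := by
  induction n with
  | zero =>
    rw [Finset.sum_range_zero, Finset.sum_range_zero]
    exact ⟨Lim.of_mem (zero_mem E), cls_of_nr ⟨0, zero_mem E, by rw [sub_self]; exact RVal.Ge.zero⟩⟩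
  | succ n ih =>
    rw [Finset.sum_range_succ, Finset.sum_range_succ]
    have h1 := Lim.smul (Lim.pow_pow p hx n) (c n)
    refine ⟨Lim.add ih.1 h1, ?_⟩
    rw [cls_add ih.1 h1, ih.2, cls_smul (Lim.pow_pow p hx n), cls_pow_pow p hx]

end Fr

/-- The action of an operator. -/
theorem cls_opr {φ : Opr v E} {Φ : Opr v LE} (hEL : E ≤ LE) (hΦ : ∀ e ∈ E, fn Φ e = fn φ e)
    (hx : x ∈ LE) (hl : Lim v E 0 x) :
    Lim v E 0 (fn Φ x) ∧ cls v E (fn Φ x) = MM.act φ (cls v E x) := by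
  obtain ⟨m, hm, h⟩ := exists_cls hl
  have h1 : Nul v (fun n => fn Φ x - fn φ ((m : ℕ → Ω) n)) := by
    intro ε hε
    obtain ⟨N, hN⟩ := hm ε hε
    refine ⟨N, fun n hn => ?_⟩
    have h2 := hEL (m.2.mem n)
    have h3 := fn_ge Φ (sub_mem hx h2) (hN n hn)
    have h4 : fn Φ (x - (m : ℕ → Ω) n) = fn Φ x - fn φ ((m : ℕ → Ω) n) := by
      have h5 := fn_add Φ (sub_mem hx h2) h2
      rw [sub_add_cancel] at h5
      rw [h5, hΦ _ (m.2.mem n), add_sub_cancel_right]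
    rwa [h4] at h3
  have h2 : ∀ n, fn φ ((m : ℕ → Ω) n) = (MM.actS φ m : ℕ → Ω) n := fun n =>
    fn_of_mem φ (m.2.mem n)
  have h3 : Nul v (fun n => fn Φ x - (MM.actS φ m : ℕ → Ω) n) := h1.congr fun n => by rw [h2]
  refine ⟨Lim.of_nul (MM.actS φ m).2.mem h3, ?_⟩
  rw [h, MM.act_mk]
  exact cls_eq h3

end Pool.Agent.TWC
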