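import Pool.Agent.Lib.TWC.Ext

/-!
# TANK W, class C: operators with a gain; the formal limits of a subfield

* `MM.incl`: the formal limits of `E ≤ E₁`, as formal limits of `E₁`; it commutes with the
  Frobenius and with the operators;
* `act_gain`: an operator of `E` of norm `< 0` kills the formal limits of `E` modulo `E`;
* `act_incl_gain`: an operator of `E₁` which maps `E` to `E₁` with a gain kills the classes from
  `E`.
-/

set_option autoImplicit false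

open Polynomial

namespace Pool.Agent.TWC

open Pool.Agent.H15JM (RVal)
open Pool.Agent.D2 (Ctx0)
open Pool.Agent.TWM

universe u

variable {k Ω : Type u} [Field k] [Field Ω] [Algebra k Ω] {v : RVal Ω} [Fact (Ctx0 k v)]
  {E E₁ E₂ : IntermediateField k Ω}

/-- `φ` has the gain `μ` on `E`. -/
def GainE (v : RVal Ω) [Fact (Ctx0 k v)] (E : IntermediateField k Ω) {E₁ : IntermediateField k Ω}
    (φ : Opr v E₁) (μ : ℝ) : Prop :=
  ∀ x ∈ E, ∀ b : ℝ, v.Ge b x → v.Ge (b + μ) (fn φ x)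

namespace MM

/-- The inclusion on the sequences. -/
noncomputable def inclS (v : RVal Ω) [Fact (Ctx0 k v)] (h : E ≤ E₁) :
    CauS v E →ₗ[k] CauS v E₁ where
  toFun x := ⟨x, ⟨fun n => h (x.2.mem n), x.2.cau⟩⟩
  map_add' _ _ := rfl
  map_smul' _ _ := rfl

/-- The formal limits of `E`, as formal limits of `E₁`. -/
noncomputable def incl (v : RVal Ω) [Fact (Ctx0 k v)] (h : E ≤ E₁) : MM v E →ₗ[k] MM v E₁ :=
  Submodule.mapQ _ _ (inclS v h) (by
    rintro x ⟨e, he, hx⟩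
    exact ⟨e, h he, hx⟩)

theorem incl_mk (h : E ≤ E₁) (x : CauS v E) : incl v h (mk v E x) = mk v E₁ (inclS v h x) := rfl

theorem incl_incl (h : E ≤ E₁) (h' : E₁ ≤ E₂) (m : MM v E) :
    incl v h' (incl v h m) = incl v (h.trans h') m := by
  obtain ⟨x, rfl⟩ := ind m
  rfl

theorem incl_fr (p : ℕ) [Fact p.Prime] [CharP k p] [CharP Ω p] (h : E ≤ E₁) (m : MM v E) :
    incl v h (fr p v E m) = fr p v E₁ (incl v h m) := by
  obtain ⟨x, rfl⟩ := ind m
  rfl

/-- The classes of `E` in `E₁` which vanish come from an element of `E₁`. -/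
theorem incl_eq_zero (h : E ≤ E₁) (x : CauS v E) :
    incl v h (mk v E x) = 0 ↔ ∃ e ∈ E₁, Nul v (fun n => (x : ℕ → Ω) n - e) :=
  (mk_eq_zero (E := E₁) (inclS v h x))

/-- The operators. -/
theorem act_incl (h : E ≤ E₁) {φ : Opr v E} {φ₁ : Opr v E₁} (hφ : ∀ x ∈ E, fn φ₁ x = fn φ x)
    (m : MM v E) : act φ₁ (incl v h m) = incl v h (act φ m) := by
  obtain ⟨x, rfl⟩ := ind m
  rw [incl_mk, act_mk, act_mk, incl_mk]
  congr 1
  refine Subtype.ext (funext fun n => ?_)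
  have h1 := hφ _ (x.2.mem n)
  rwa [fn_of_mem φ₁ (h (x.2.mem n)), fn_of_mem φ (x.2.mem n)] at h1

/-- **An operator with a gain on `E` kills the classes from `E`.** -/
theorem act_incl_gain (h : E ≤ E₁) {φ : Opr v E₁} {μ : ℝ} (hμ : 0 < μ) (hφ : GainE v E φ μ)
    (m : MM v E) : act φ (incl v h m) = 0 := by
  obtain ⟨x, rfl⟩ := ind m
  rw [incl_mk, act_mk, mk_eq_zero]
  obtain ⟨N, hN⟩ := x.2.cau μ hμ
  refine ⟨fn φ ((x : ℕ → Ω) N), fn_mem φ _, fun ε hε => ⟨N, fun n hn => ?_⟩⟩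
  have h1 : ((actS φ (inclS v h x) : CauS v E₁) : ℕ → Ω) n = fn φ ((x : ℕ → Ω) n) :=
    (fn_of_mem φ (h (x.2.mem n))).symm
  change v.Ge (-ε) (((actS φ (inclS v h x) : CauS v E₁) : ℕ → Ω) n - fn φ ((x : ℕ → Ω) N))
  rw [h1, ← fn_sub φ (h (x.2.mem n)) (h (x.2.mem N))]
  refine (hφ _ (sub_mem (x.2.mem n) (x.2.mem N)) _ (hN n N hn le_rfl)).mono ?_
  linarith

/-- An operator of norm `< 0` kills the formal limits. -/
theorem act_gain {φ : Opr v E} {μ : ℝ} (hμ : 0 < μ) (hφ : GainE v E φ μ) (m : MM v E) :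
    act φ m = 0 := by
  have h1 := act_incl_gain le_rfl hμ hφ m
  have h2 : incl v (le_refl E) m = m := by
    obtain ⟨x, rfl⟩ := ind m
    rfl
  rwa [h2] at h1

end MM

/-! ## Gains of sums, multiples and products -/

theorem GainE.mono {φ : Opr v E₁} {μ μ' : ℝ} (h : GainE v E φ μ) (hμ : μ' ≤ μ) :
    GainE v E φ μ' := fun x hx b hb => (h x hx b hb).mono (by linarith)

theorem GainE.add {φ ψ : Opr v E₁} {μ : ℝ} (hE : E ≤ E₁) (h : GainE v E φ μ)
    (h' : GainE v E ψ μ) : GainE v E (φ + ψ) μ := fun x hx b hb => by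
  have h1 : fn (φ + ψ) x = fn φ x + fn ψ x := by
    rw [fn_of_mem _ (hE hx), fn_of_mem _ (hE hx), fn_of_mem _ (hE hx)]
    rfl
  rw [h1]
  exact (h x hx b hb).add (h' x hx b hb)

theorem GainE.smul {φ : Opr v E₁} {μ : ℝ} (hE : E ≤ E₁) (h : GainE v E φ μ) (a : k) :
    GainE v E (a • φ) μ := fun x hx b hb => by
  have h1 : fn (a • φ) x = algebraMap k Ω a * fn φ x := by
    rw [fn_of_mem _ (hE hx), fn_of_mem _ (hE hx), ← Algebra.smul_def]
    rfl
  rw [h1]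
  have := ((Fact.out : Ctx0 k v).ge a).mul (h x hx b hb)
  rwa [zero_add] at this

/-- `φ ψ` has the gain of `ψ`. -/
theorem GainE.mul_left {φ ψ : Opr v E₁} {μ : ℝ} (hE : E ≤ E₁) (h : GainE v E ψ μ) :
    GainE v E (φ * ψ) μ := fun x hx b hb => by
  have h1 : fn (φ * ψ) x = fn φ (fn ψ x) := by
    rw [fn_of_mem _ (hE hx), fn_of_mem ψ (hE hx), fn_of_mem φ (SetLike.coe_mem _)]
    rfl
  rw [h1]
  exact fn_ge φ (fn_mem ψ x) (h x hx b hb)

/-- `φ ψ` has the gain of `φ` if `ψ` preserves `E`. -/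
theorem GainE.mul_right {φ ψ : Opr v E₁} {μ : ℝ} (hE : E ≤ E₁) (h : GainE v E φ μ)
    (hψ : ∀ x ∈ E, fn ψ x ∈ E) : GainE v E (φ * ψ) μ := fun x hx b hb => by
  have h1 : fn (φ * ψ) x = fn φ (fn ψ x) := by
    rw [fn_of_mem _ (hE hx), fn_of_mem ψ (hE hx), fn_of_mem φ (SetLike.coe_mem _)]
    rfl
  rw [h1]
  exact h _ (hψ x hx) _ (fn_ge ψ (hE hx) hb)

end Pool.Agent.TWC
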