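import Pool.Agent.Lib.TWC.SlackN

/-!
# TANK W, class C: the generator descends to a field with a tight element, any base `W`

`x` tight in `C`, of level `r`; `W ≤ C` closed, with the same values as `C` (divisible by `p`),
`x 0 ∈ W`; the distance of `x 1` to `W` is at most `q / p`, that of `x n` is at least `δ / p ^ n` (in
the sense of the values), `3 (q - δ) < r - q`; the `p`-th roots of the elements of `W` are polynomials
in `x 1`. If the closure of `C(x n, n ≥ 0)` is `E<t>`, `t` of transcendental type over `E = EW v W x`,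
then it is `E<t'>` for some `t' ∈ C`.

* `GenW`: `t` is a generator;
* `GenW.desc1`: from `C(x (j + 1))` to `C(x j)`;
* **`GenW.exists_mem`**: some generator is in `C`.
-/

set_option autoImplicit false
set_option linter.unusedSectionVars false

open Polynomial

namespace Pool.Agent.TWC

open Pool.Agent.H15JM (RVal)
open Pool.Agent.LU1 (VPos adj)
open Pool.Agent.D2 (Ctx0)
open Pool.Agent.D2P (clI mem_clI)
open Pool.Agent.TWM Pool.Agent.TWM.C
open Pool.Agent.TWS (VG)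

universe u

variable {k Ω : Type u} [Field k] [Field Ω] [Algebra k Ω] {v : RVal Ω}
  {C W : IntermediateField k Ω}

/-- `t` generates the closure of `C(x n, n ≥ 0)` over the closure of `W(x n, n ≥ 0)`. -/
structure GenW (v : RVal Ω) (C W : IntermediateField k Ω) (x : ℕ → Ω) (t : Ω) (s : ℝ) : Prop where
  tl : TL v (EW v W x) t s
  eq : EW v C x = cadj v (EW v W x) t

variable {x : ℕ → Ω} {r s q δ : ℝ} {t t' : Ω}

theorem GenW.near [IsAlgClosed Ω] (h : GenW v C W x t s) {u : Ω} (hu : u ∈ EW v C x) (hut : Gt v s (u - t)) :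
    GenW v C W x u s where
  tl := h.tl.congr hut
  eq := by
    rw [h.eq] at hu ⊢
    exact (h.tl.cadj_congr hu hut).symm

theorem GenW.sub (h : GenW v C W x t s) {e : Ω} (he : e ∈ EW v W x) :
    GenW v C W x (t - e) s where
  tl := h.tl.sub_mem he
  eq := by rw [h.eq, cadj_sub_mem he]

variable {p : ℕ} [hp : Fact p.Prime] [CharP k p] [CharP Ω p]

/-- The roots of the elements of `W(x J)`. -/
theorem roots_adj (hr : ∀ n, x (n + 1) ^ p = x n) (hx0 : x 0 ∈ W)
    (hW : ∀ a ∈ W, ∃ Q ∈ PI W, (Q.eval (x 1)) ^ p = a) (J : ℕ) :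
    ∀ a ∈ adj W (x J), ∃ Q ∈ PI (adj W (x J)), (Q.eval (x (J + 1))) ^ p = a := by
  intro a ha
  obtain ⟨S, hS, rfl⟩ := exists_poly_adj hr hx0 J ha
  obtain ⟨S', hS', h1⟩ := poly_rts hr hW J 1 hS
  exact ⟨S', PI_mono (D2P.mem_adj_self W (x J)).2 hS', by rwa [pow_one] at h1⟩

/-- The value of an element of `C(x J)` is a value of `C`. -/
theorem vg_adj (hr : ∀ n, x (n + 1) ^ p = x n) (hx0 : x 0 ∈ C)
    (hV : ∀ g ∈ VG v C, g / p ∈ VG v C) (J : ℕ) {a : Ω} (ha : a ∈ adj C (x J)) (ha0 : a ≠ 0) :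
    v a ∈ VG v C := vg_of_pow hV ha0 (pow_mem_of_adj hr hx0 J ha)

/-- An element of the same value and the same residue. -/
theorem exists_same (h0 : Ctx0 k v) {c : Ω} (hc0 : c ≠ 0) (hg : v c ∈ VG v W) :
    ∃ a ∈ W, Gt v (v c) (c - a) := by
  obtain ⟨b, hb, hb0, hvb⟩ := hg
  obtain ⟨κ, -, h6⟩ := h0.res (c / b) (div_ne_zero hc0 hb0) (by
    rw [v.map_div hc0 hb0, hvb, sub_self])
  have h7 : Gt v 0 (c / b - algebraMap k Ω κ) := h6
  refine ⟨b * algebraMap k Ω κ, mul_mem hb (W.algebraMap_mem κ), ?_⟩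
  have e : c - b * algebraMap k Ω κ = (c / b - algebraMap k Ω κ) * b := by
    field_simp
  rw [e]
  have h8 := h7.mul_ge (RVal.ge_self (v := v) b)
  rwa [zero_add, hvb] at h8

variable [IsAlgClosed k] [IsAlgClosed Ω]

/-- **One step of the descent.** -/
theorem GenW.desc1 (h0 : Ctx0 k v) (hc : CompleteV v)
    (hT : Tgt p v C x r) (hx : x 0 ≠ 0) (hvr : v (x 0) < r) (hWC : W ≤ C) (hWcl : Cld v W)
    (hx0 : x 0 ∈ W) (hq : ¬ Nr' v W (q / p) (x 1))
    (hδ : ∀ n (ε : ℝ), 0 < ε → ∃ c ∈ W, v.Ge (δ / p ^ (n + 1) - ε) (x (n + 1) - c))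
    (hs : 3 * (q - δ) < r - q)
    (hW : ∀ a ∈ W, ∃ Q ∈ PI W, (Q.eval (x 1)) ^ p = a)
    (hV : ∀ g ∈ VG v C, g / p ∈ VG v C) (hVW : ∀ g ∈ VG v C, g ∈ VG v W) {j : ℕ}
    (h : GenW v C W x t s) (ht : t ∈ adj C (x (j + 1))) :
    ∃ t' ∈ adj C (x j), GenW v C W x t' s := by
  have hp0 : (0 : ℝ) < p := by exact_mod_cast hp.out.pos
  have hpj : (0 : ℝ) < (p : ℝ) ^ (j + 1) := pow_pos hp0 _
  have hr := hT.root
  set X := x (j + 1) with hX
  set C' := adj C (x j) with hC'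
  set M := adj C X with hM
  have hXp : X ^ p = x j := hr j
  have hxj : x j ∈ C' := (D2P.mem_adj_self _ _).1
  have hCC' : C ≤ C' := (D2P.mem_adj_self C (x j)).2
  have hMC' : M ≤ adj C' X := D2P.adj_le (hCC'.trans (D2P.mem_adj_self C' X).2)
    (D2P.mem_adj_self C' X).1
  have hC'c : Cld v C' := cld_adj hc hT.cld (alg_root hr hT.mem j)
  have hXn : X ≠ 0 := root_ne_zero hr hx (j + 1)
  have hvX : v X = v (x 0) / p ^ (j + 1) := val_rt hr hx (j + 1)
  -- the pair over `M`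
  have hEM : EW v (adj C (x (j + 1))) (fun n => x (n + (j + 1))) = EW v C x :=
    EW_adj hr C (j + 1)
  have hEW : EW v (adj W (x (j + 1))) (fun n => x (n + (j + 1))) = EW v W x :=
    EW_adj hr W (j + 1)
  obtain ⟨w, A, hyw, hTP, hw1, hw2, -, -, -⟩ := exists_pairQ (C := adj C (x (j + 1)))
    (W := adj W (x (j + 1))) (x := fun n => x (n + (j + 1))) (r := r / p ^ (j + 1))
    (q := q / p ^ (j + 1)) (δ := δ / p ^ (j + 1)) (s := s) h0 hc (hT.shift hc (j + 1))
    (by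
      show x (0 + (j + 1)) ≠ 0
      rw [zero_add]
      exact hXn)
    (by
      show v (x (0 + (j + 1))) < _
      rw [zero_add, ← hX, hvX]
      exact div_lt_div_of_pos_right hvr hpj)
    (D2P.adj_le (hWC.trans (D2P.mem_adj_self C _).2) (D2P.mem_adj_self C _).1)
    (cld_adj hc hWcl (alg_root hr hx0 (j + 1)))
    (by
      show x (0 + (j + 1)) ∈ _
      rw [zero_add]
      exact (D2P.mem_adj_self _ _).1)
    (by
      rintro ⟨a, ha, h1⟩
      refine hq ⟨a ^ p ^ (j + 1), pow_mem_of_adj hr hx0 (j + 1) ha, ?_⟩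
      have e : x 1 - a ^ p ^ (j + 1) = (x (1 + (j + 1)) - a) ^ p ^ (j + 1) := by
        rw [sub_pow_char_pow, root_pow_add hr 1 (j + 1)]
      rw [e]
      have h2 := (gt_pow_iff (v := v) (N := p ^ (j + 1)) (pow_pos hp.out.pos _)).2 h1
      push_cast at h2
      have e2 : (p : ℝ) ^ (j + 1) * (q / p ^ (j + 1) / p) = q / p := by
        field_simp
      rwa [e2] at h2)
    (by
      intro n ε hε
      obtain ⟨c, hcW, h1⟩ := hδ (n + (j + 1)) ε hε
      refine ⟨c, (D2P.mem_adj_self W _).2 hcW, ?_⟩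
      have e : δ / (p : ℝ) ^ (j + 1) / p ^ (n + 1) = δ / p ^ (n + (j + 1) + 1) := by
        rw [div_div, ← pow_add]
        congr 2
        omega
      rw [e]
      show v.Ge _ (x (n + 1 + (j + 1)) - c)
      rwa [show n + 1 + (j + 1) = n + (j + 1) + 1 by omega])
    (by
      have e : r / (p : ℝ) ^ (j + 1) - q / p ^ (j + 1) - 3 * (q / p ^ (j + 1) - δ / p ^ (j + 1)) =
          (r - q - 3 * (q - δ)) / p ^ (j + 1) := by ring
      have h1 : 0 < (r - q - 3 * (q - δ)) / (p : ℝ) ^ (j + 1) := div_pos (by linarith) hpj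
      linarith)
    (by
      have h1 := roots_adj hr hx0 hW (j + 1)
      show ∀ a ∈ adj W (x (j + 1)), ∃ Q ∈ PI (adj W (x (j + 1))),
        (Q.eval (x (1 + (j + 1)))) ^ p = a
      rwa [show 1 + (j + 1) = j + 1 + 1 by omega])
    (y := t) ht (by rw [hEW]; exact h.tl) (by rw [hEM, hEW]; exact h.eq)
  rw [hEW] at hw1 hw2
  rw [hEM] at hw2
  have hG : GenW v C W x (w 0) s := ⟨hw1, hw2⟩
  have hwM : w 0 ∈ M := hTP.mem
  have hpow : ∀ g ∈ adj C' X, g ^ p ∈ C' := TWJ.pow_mem_of_adj1 p (by rw [hXp]; exact hxj)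
  -- `w 0` is near to `C'`
  have hlim : Lim v C' s (w 0) := by
    intro ε hε
    obtain ⟨g, hg, h1⟩ := hTP.lim 1 (ε / p) (by positivity)
    refine ⟨g ^ p, hpow g (hMC' hg), ?_⟩
    have e : w 0 - g ^ p = (w 1 - g) ^ p := by
      rw [sub_pow_char, hTP.root 0]
    rw [e]
    refine (ge_pow h1 p).mono (le_of_eq ?_)
    rw [pow_one]
    field_simp
  -- the linear part
  set ρ := r / p ^ (j + 1) with hρ
  have hfar : ¬ Nr' v C' ρ X := hT.snd.far j
  have hXlim : Lim v C ρ X := hT.lim_all (j + 1)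
  have hVC' : ∀ g ∈ VG v C', g ∈ VG v C := by
    rintro _ ⟨a, ha, ha0, rfl⟩
    exact vg_adj hr hT.mem hV j ha ha0
  have hVC : ∀ g ∈ VG v C', g / p ∈ VG v C' := fun g hg => VG.mono hCC' (hV g (hVC' g hg))
  have hC'E : C' ≤ EW v C x := D2P.adj_le EW.le (EW.mem j)
  have hps : PStep p v C' X ρ := ⟨hC'c, by rw [hXp]; exact hxj, hfar⟩
  have hna : ¬ Nr v C' ρ X := na_of_far h0 hVC (by rw [hXp]; exact hxj) hfar
  rcases lin_dom p h0 hps (hXlim.mono hCC') hna (hMC' hwM) with h1 | ⟨g, hg, c, hcm, hc0, h1⟩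
  · exact ⟨w 0, h1, hG⟩
  rcases lt_or_ge (v c + ρ) s with h2 | h2
  · -- too far
    exfalso
    obtain ⟨h3, -⟩ := lin_dst p hps (hXlim.mono hCC') hna hg hcm hc0 h1
    obtain ⟨a, ha, h4⟩ := hlim ((s - (v c + ρ)) / 2) (by linarith)
    exact h3.far ⟨a, ha, Gt.of_ge h4 (by linarith)⟩
  -- the leading coefficient is near to `W`
  obtain ⟨a, ha, h3⟩ := exists_same (W := W) h0 hc0 (hVW _ (hVC' _ (VG.self hcm hc0)))
  have haC : a ∈ C' := hCC' (hWC ha)
  obtain ⟨η, hη, h4⟩ := near_mul (hXlim.mono hCC') h3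
  have haX : a * X ∈ EW v W x := mul_mem (EW.le ha) (EW.mem (j + 1))
  have htm : g + (c - a) * η ∈ C' := add_mem hg (mul_mem (sub_mem hcm haC) hη)
  refine ⟨g + (c - a) * η, htm, (hG.sub haX).near (hC'E htm) ?_⟩
  have e : g + (c - a) * η - (w 0 - a * X) = -(w 0 - g - c * X) - (c - a) * (X - η) := by ring
  rw [e]
  exact ((h1.mono h2).neg).sub (h4.mono h2)

/-- **The generator descends into `C`.** -/
theorem GenW.exists_mem (h0 : Ctx0 k v) (hc : CompleteV v)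
    (hT : Tgt p v C x r) (hx : x 0 ≠ 0) (hvr : v (x 0) < r) (hWC : W ≤ C) (hWcl : Cld v W)
    (hx0 : x 0 ∈ W) (hq : ¬ Nr' v W (q / p) (x 1))
    (hδ : ∀ n (ε : ℝ), 0 < ε → ∃ c ∈ W, v.Ge (δ / p ^ (n + 1) - ε) (x (n + 1) - c))
    (hs : 3 * (q - δ) < r - q)
    (hW : ∀ a ∈ W, ∃ Q ∈ PI W, (Q.eval (x 1)) ^ p = a)
    (hV : ∀ g ∈ VG v C, g / p ∈ VG v C) (hVW : ∀ g ∈ VG v C, g ∈ VG v W)
    (h : GenW v C W x t s) : ∃ t' ∈ C, GenW v C W x t' s := by
  have key : ∀ j t, t ∈ adj C (x j) → GenW v C W x t s → ∃ t' ∈ C, GenW v C W x t' s := by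
    intro j
    induction j with
    | zero =>
      intro t ht h
      exact ⟨t, D2P.adj_le le_rfl hT.mem ht, h⟩
    | succ j ih =>
      intro t ht h
      obtain ⟨t', ht', h'⟩ := h.desc1 h0 hc hT hx hvr hWC hWcl hx0 hq hδ hs hW hV hVW ht
      exact ih t' ht' h'
  have h1 : t ∈ EW v C x := by
    rw [h.eq]
    exact self_mem_cadj v _ t
  obtain ⟨n, g, hg, h2⟩ := EW.near_adj p hT.root h1 (s + 1)
  refine key n g hg (h.near (D2P.adj_le EW.le (EW.mem n) hg) ?_)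
  have e : g - t = -(t - g) := by ring
  rw [e]
  exact (Gt.of_ge h2 (by linarith)).neg

end Pool.Agent.TWC
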