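import Pool.Agent.Lib.TWW.WM15

/-!
# TANK W, dimension 4: classes of valuations

* `hrone_of_corank_iso`: the climb, with fields isogenous to `E`;
* `Crit4 p k Q`: the critical step for the fields with the property `Q`, in dimension 4, rank one;
* `Her p v Q E`: the subfields isogenous to `E` have the property `Q`;
* `hrone_of_her`, `lus_of_her`: `HRone` and `LUs` for `E`;
* `CritM p k Q`: `MobQ0` for the fields with the property `Q`, in dimension 4, rank one;
  `Crit4.toM`, `CritM.or`;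
* `hrone_of_herM`, `lus_of_herM`: `HRone` and `LUs` for the fields whose isogeny class has `Q`.
-/

set_option autoImplicit false

open Polynomial

namespace Pool.Agent.TW

open Pool.Agent.H15JM (RVal)
open Pool.Agent.LU1 (VPos adj)
open Pool.Agent.LUC (Cl clF LUs)
open Pool.Agent.D2 (Ctx0)
open Pool.Agent.D2P

universe u

variable {k Ω : Type u} [Field k] [Field Ω] [Algebra k Ω] {v : RVal Ω}

/-- The climb over a given field of corank one; the fields of the climb are isogenous to `E`. -/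
theorem hrone_of_corank_iso [IsAlgClosed Ω] [IsAlgClosed k] (p : ℕ) [Fact p.Prime] [CharP k p]
    [CharP Ω p] {r m : ℕ} (h : Ctx k v r)
    (E : IntermediateField k Ω) (hE : E.FG) (hF : Full v E)
    (htr : Algebra.trdeg k E = ((m + 1 : ℕ) : Cardinal)) (hBD : BD p v E)
    (L₀ : IntermediateField k Ω) (hL₀E : L₀ ≤ E) (hL₀fg : L₀.FG) (hL₀F : Full v L₀)
    (hL₀n : Algebra.trdeg k L₀ = m)
    (hPI : ∀ K₀ : IntermediateField k Ω, L₀ ≤ K₀ → K₀ ≤ E → K₀.FG → Full v K₀ →
      Algebra.trdeg k K₀ = ((m + 1 : ℕ) : Cardinal) →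
      BD p v K₀ → HRone v K₀ → (∃ e : ℕ, ∀ a ∈ E, a ^ p ^ e ∈ K₀) → ∀ g ∈ E, g ^ p ∈ K₀ → BD p v (adj K₀ g) →
      HRone v (adj K₀ g)) : HRone v E := by
  classical
  have hp : 0 < p := (Fact.out : p.Prime).pos
  obtain ⟨e, N', hN'fg, hrN', hN'alg, z, hz, hlev⟩ := row_A p h E hE htr L₀ hL₀E hL₀fg hL₀F hL₀n
  have hN'F : Full v N' := Full.mono ((le_rootF L₀ e).trans hrN') hL₀F
  have hpe : 0 < p ^ e := pow_pos hp e
  set N := E ⊔ rootF p e L₀ with hNdef
  have hNE : N ≤ rootF p e E := by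
    refine sup_le (le_rootF E e) ?_
    intro a ha
    rw [mem_rootF] at ha ⊢
    exact hL₀E ha
  set E' : IntermediateField k Ω := powF p e N with hE'def
  have hE'r : HRone v E' := hrone_powF p e hN'fg hN'F hz hlev
  have hE'E : E' ≤ E := by
    intro a ha
    obtain ⟨b, hb, rfl⟩ := (mem_powF p e).1 ha
    exact mem_rootF.1 (hNE hb)
  have hEp : ∀ a ∈ E, a ^ p ^ e ∈ E' := fun a ha =>
    (mem_powF p e).2 ⟨a, (le_sup_left : E ≤ N) ha, rfl⟩
  have hE'fg : E'.FG := powF_fg p e (IntermediateField.fg_sup hE (rootF_fg p hL₀fg e))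
  have hE'F : Full v E' := powF_full p e (Full.mono le_sup_left hF)
  have hL₀E' : L₀ ≤ E' := by
    intro a ha
    obtain ⟨b, hb⟩ := IsAlgClosed.exists_pow_nat_eq a hpe
    refine (mem_powF p e).2 ⟨b, (le_sup_right : rootF p e L₀ ≤ N) ?_, hb⟩
    rw [mem_rootF, hb]
    exact ha
  -- the fields between `E'` and `E`
  have hmid : ∀ B : IntermediateField k Ω, E' ≤ B → B ≤ E → B.FG →
      Full v B ∧ Algebra.trdeg k B = ((m + 1 : ℕ) : Cardinal) ∧ BD p v B := by
    intro B h1 h2 h3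
    refine ⟨hE'F.mono h1, ?_, hBD.of_pow h2 (e := e) fun a ha => h1 (hEp a ha)⟩
    rw [← htr]
    exact (trdeg_eq_of_alg h2 fun a ha =>
      isAlgebraic_of_pow hpe (isAlgebraic_of_mem (h1 (hEp a ha)))).symm
  have hroot : ∀ (j : ℕ) (B : IntermediateField k Ω), E' ≤ B → B ≤ E → B.FG → HRone v B →
      ∀ s ∈ E, s ^ p ^ j ∈ B → HRone v (adj B s) := by
    intro j
    induction j with
    | zero =>
      intro B _ _ _ hB s _ hs
      rw [pow_zero, pow_one] at hs
      have h1 : adj B s = B := le_antisymm (adj_le le_rfl hs) (mem_adj_self B s).2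
      rw [h1]
      exact hB
    | succ j ih =>
      intro B h1 h2 h3 hB s hsE hs
      have h4 : (s ^ p) ^ p ^ j ∈ B := by
        rw [← pow_mul, ← pow_succ']
        exact hs
      have h5 := ih B h1 h2 h3 hB (s ^ p) (pow_mem hsE p) h4
      have hle : B ≤ adj B (s ^ p) := (mem_adj_self B (s ^ p)).2
      have hle' : adj B (s ^ p) ≤ E := adj_le h2 (pow_mem hsE p)
      have hfg := fg_adj h3 (s ^ p)
      obtain ⟨h6, h7, h8⟩ := hmid _ (h1.trans hle) hle' hfg
      have h9 := hPI (adj B (s ^ p)) (hL₀E'.trans (h1.trans hle)) hle' hfg h6 h7 h8 h5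
        ⟨e, fun a ha => h1.trans hle (hEp a ha)⟩ s hsE
        (mem_adj_self B (s ^ p)).1
        (hmid (adj (adj B (s ^ p)) s) ((h1.trans hle).trans (mem_adj_self _ s).2)
          (adj_le hle' hsE) (fg_adj hfg s)).2.2
      have h10 : adj (adj B (s ^ p)) s = adj B s := by
        apply le_antisymm
        · refine adj_le (adj_le (mem_adj_self B s).2 ?_) (mem_adj_self B s).1
          exact pow_mem (mem_adj_self B s).1 p
        · exact adj_le ((mem_adj_self B (s ^ p)).2.trans (mem_adj_self _ s).2)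
            (mem_adj_self _ s).1
      rwa [h10] at h9
  obtain ⟨S, hS⟩ := hE
  have hSE : ∀ s ∈ S, s ∈ E := fun s hs => by
    rw [← hS]
    exact IntermediateField.subset_adjoin _ _ hs
  have hall : ∀ T : Finset Ω, T ⊆ S →
      HRone v (E' ⊔ IntermediateField.adjoin k (T : Set Ω)) := by
    intro T
    induction T using Finset.induction_on with
    | empty =>
      intro _
      rw [Finset.coe_empty, IntermediateField.adjoin_empty, sup_bot_eq]
      exact hE'r
    | insert a T ha ih =>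
      intro hT
      have h1 := ih ((Finset.subset_insert a T).trans hT)
      have haS : a ∈ S := hT (Finset.mem_insert_self a T)
      have hTE : IntermediateField.adjoin k (T : Set Ω) ≤ E := by
        rw [IntermediateField.adjoin_le_iff]
        exact fun b hb => hSE b (hT (Finset.mem_insert_of_mem hb))
      have h2 := hroot e (E' ⊔ IntermediateField.adjoin k (T : Set Ω)) le_sup_left
        (sup_le hE'E hTE) (IntermediateField.fg_sup hE'fg (IntermediateField.fg_adjoin_finset T))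
        h1 a (hSE a haS) ((le_sup_left : E' ≤ _) (hEp a (hSE a haS)))
      have h3 : adj (E' ⊔ IntermediateField.adjoin k (T : Set Ω)) a =
          E' ⊔ IntermediateField.adjoin k ((insert a T : Finset Ω) : Set Ω) := by
        rw [adj, sup_assoc, ← IntermediateField.adjoin_union, Finset.coe_insert,
          Set.union_singleton]
      rwa [h3] at h2
  have h3 := hall S (Finset.Subset.refl S)
  have h4 : E' ⊔ IntermediateField.adjoin k (S : Set Ω) = E := by
    rw [hS]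
    exact sup_eq_right.2 hE'E
  rwa [h4] at h3



/-- A property of the subfields of the valued fields. -/
abbrev VProp (k : Type u) [Field k] : Type (u + 1) :=
  ∀ (Ω : Type u) [Field Ω] [Algebra k Ω] [IsAlgClosed Ω], RVal Ω → IntermediateField k Ω → Prop

/-- The critical step for the fields with the property `Q`, in dimension 4, rational rank one. -/
def Crit4 (p : ℕ) (k : Type u) [Field k] (Q : VProp k) : Prop :=
  ∀ (Ω : Type u) [Field Ω] [Algebra k Ω] [IsAlgClosed Ω] [CharP Ω p] (v : RVal Ω), Ctx k v 1 →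
    ∀ K₀ : IntermediateField k Ω, K₀.FG → Full v K₀ → Algebra.trdeg k K₀ = (4 : ℕ) →
      BD p v K₀ → HRone v K₀ → Q Ω v K₀ → ∀ g : Ω, g ^ p ∈ K₀ → BD p v (adj K₀ g) →
        HRone v (adj K₀ g)

/-- The subfields isogenous to `E` have the property `Q`. -/
def Her (p : ℕ) (v : RVal Ω) [IsAlgClosed Ω] (Q : VProp k) (E : IntermediateField k Ω) : Prop :=
  ∀ K₀ : IntermediateField k Ω, K₀ ≤ E → K₀.FG → (∃ e : ℕ, ∀ a ∈ E, a ^ p ^ e ∈ K₀) → Q Ω v K₀

section

variable [IsAlgClosed Ω] [IsAlgClosed k] (p : ℕ) [Fact p.Prime] [CharP k p] [CharP Ω p]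
  {Q : VProp k}

theorem hrone_of_her (hQ : Crit4 p k Q) (h : Ctx k v 1) {E : IntermediateField k Ω} (hE : E.FG)
    (hF : Full v E) (htr : Algebra.trdeg k E = (4 : ℕ)) (hBD : BD p v E) (hH : Her p v Q E) :
    HRone v E := by
  obtain ⟨L₀, hL₀E, hL₀fg, hL₀F, hL₀n⟩ :=
    exists_corank_one (n := 3) h (by omega) E hF htr
  exact hrone_of_corank_iso p h E hE hF htr hBD L₀ hL₀E hL₀fg hL₀F hL₀n
    fun K₀ _ hKE hK hKf hKt hKB hKH he g _ hg hBDg =>
      hQ Ω v h K₀ hK hKf hKt hKB hKH (hH K₀ hKE hK he) g hg hBDg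

/-- `LU` in dimension three. -/
theorem lub_three (h : Ctx k v 1) : LUB p v k 1 3 := fun _ hE hEf htr hBD =>
  TWJ.lu_bd_two p h (TWJ.stepAll p k 1) (n := 3) (by omega) hE hEf htr hBD

theorem lus_of_her (hQ : Crit4 p k Q) (h : Ctx k v 1) {E : IntermediateField k Ω} (hE : E.FG)
    (hΩ : ∀ g : Ω, IsAlgebraic E g) (htr : Algebra.trdeg k E = (4 : ℕ)) (hBD : BD p v E)
    (hH : Her p v Q E) : LUs v (algebraMap k Ω).range E.toSubfield := by
  have hF : Full v E := full_of_alg hΩ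
  exact lus_of_hr p h (D := 2) (lub_three p h) hE hF htr hBD
    (hrone_of_her p hQ h hE hF htr hBD hH) hΩ

end

/-! ### Critical steps with motions -/

/-- `MobQ0` for the fields with the property `Q`, in dimension 4, rational rank one: the critical
step is henselian rational, or it has motions. -/
def CritM (p : ℕ) (k : Type u) [Field k] (Q : VProp k) : Prop :=
  ∀ (Ω : Type u) [Field Ω] [Algebra k Ω] [IsAlgClosed Ω] [CharP Ω p] (v : RVal Ω), Ctx k v 1 →
    ∀ K₀ : IntermediateField k Ω, K₀.FG → (∀ g : Ω, IsAlgebraic K₀ g) →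
      Algebra.trdeg k K₀ = (4 : ℕ) → BD p v K₀ → HRone v K₀ →
      LUs v (algebraMap k Ω).range K₀.toSubfield → (∀ m, m < 4 → LUB p v k 1 m) → Q Ω v K₀ →
      ∀ g : Ω, g ∉ K₀ → g ^ p ∈ K₀ → BD p v (adj K₀ g) → HRone v (adj K₀ g) ∨
        ∃ (φ : ℕ → (Ω ≃ₐ[k] Ω)) (δ : ℕ → Ω) (ρ : ℝ), Mot v K₀ φ δ ρ ∧
          ∀ i, ∃ c ∈ hen v K₀, ∃ b ∈ hen v K₀, c ≠ 0 ∧ φ i (g ^ p) = c ^ p * g ^ p + b ^ p

variable {p : ℕ} {k : Type u} [Field k] {Q Q' : VProp k}

theorem Crit4.toM (h : Crit4 p k Q) : CritM p k Q := by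
  intro Ω _ _ _ _ v hc K₀ hK hΩ htr hBDK hH _ _ hQ g _ hg hBD
  exact Or.inl (h Ω v hc K₀ hK (full_of_alg hΩ) htr hBDK hH hQ g hg hBD)

theorem CritM.or (h : CritM p k Q) (h' : CritM p k Q') :
    CritM p k fun Ω _ _ _ v E => Q Ω v E ∨ Q' Ω v E := by
  intro Ω _ _ _ _ v hc K₀ hK hΩ htr hBDK hH hL hlow hQ g hgK hg hBD
  rcases hQ with hQ | hQ
  · exact h Ω v hc K₀ hK hΩ htr hBDK hH hL hlow hQ g hgK hg hBD
  · exact h' Ω v hc K₀ hK hΩ htr hBDK hH hL hlow hQ g hgK hg hBD

section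

variable (p) {Ω : Type u} [Field Ω] [Algebra k Ω] {v : RVal Ω} [IsAlgClosed Ω] [IsAlgClosed k]
  [Fact p.Prime] [CharP k p] [CharP Ω p]

/-- `LU` in the dimensions below four. -/
theorem lub_lt_four (h : Ctx k v 1) (m : ℕ) (hm : m < 4) : LUB p v k 1 m :=
  fun _ hE hEf htr hBD => TWJ.lu_bd_two p h (TWJ.stepAll p k 1) (n := m) (by omega) hE hEf htr hBD

include p in
/-- `LUs` in dimension four, rational rank two. -/
theorem lus_four_two (W : RVal Ω) (h : Ctx k W 2) (E : IntermediateField k Ω) (hE : E.FG)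
    (hΩ : ∀ g : Ω, IsAlgebraic E g) (htr : Algebra.trdeg k E = (4 : ℕ)) :
    LUs W (algebraMap k Ω).range E.toSubfield :=
  lus_rank_dim p 4 2 le_rfl (fun _ r h' _ _ _ hE hEf htr hBD =>
    TWJ.lu_bd_two p h' (TWJ.stepAll p k r) (n := 4) (by omega) hE hEf htr hBD)
    2 W 2 h le_rfl rfl E hE hΩ htr

theorem hrone_of_herM (hQ : CritM p k Q) (h : Ctx k v 1) {E : IntermediateField k Ω} (hE : E.FG)
    (hΩ : ∀ g : Ω, IsAlgebraic E g) (htr : Algebra.trdeg k E = (4 : ℕ)) (hBD : BD p v E)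
    (hH : Her p v Q E) : HRone v E := by
  have hp : 0 < p := (Fact.out : p.Prime).pos
  have hF : Full v E := full_of_alg hΩ
  obtain ⟨L₀, hL₀E, hL₀fg, hL₀F, hL₀n⟩ :=
    exists_corank_one (n := 3) h (by omega) E hF htr
  refine hrone_of_corank_iso p h E hE hF htr hBD L₀ hL₀E hL₀fg hL₀F hL₀n ?_
  intro K₀ _ hKE hK hfK htK hBDK hHRK he g hgE hg hBDg
  by_cases hgK : g ∈ K₀
  · have h1 : adj K₀ g = K₀ := le_antisymm
      (D2P.adj_le le_rfl hgK) (mem_adj_self K₀ g).2
    rwa [h1]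
  have hΩK : ∀ f : Ω, IsAlgebraic K₀ f := isAlgebraic_of_trdeg_eq htK htr hΩ
  rcases hQ Ω v h K₀ hK hΩK htK hBDK hHRK
    (lus_of_hr p h (D := 2) (lub_three p h) hK hfK htK hBDK hHRK hΩK) (lub_lt_four p h)
    (hH K₀ hKE hK he) g hgK hg hBDg with h1 | h1
  · exact h1
  · obtain ⟨φ, δ, ρ, hM, hroot⟩ := h1
    choose δ' hδ' using fun i => IsAlgClosed.exists_pow_nat_eq (δ i) hp
    have hM' := Mot.root p h.toCtx0 hM hδ' hg hroot
    have htg : Algebra.trdeg k (adj K₀ g) = (1 + (2 + 1) : ℕ) := by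
      refine (trdeg_eq_of_alg (mem_adj_self K₀ g).2 (D2P.isAlgebraic_sup {g} ?_)).trans htK
      rintro s rfl
      exact D2P.isAlgebraic_of_pow hp (D2P.isAlgebraic_of_mem hg)
    have hΩg : ∀ f : Ω, IsAlgebraic (adj K₀ g) f := isAlgebraic_of_trdeg_eq htg htr hΩ
    exact hrone_of_mot p h (D2P.fg_adj hK g) hΩg htg hM' fun W hcW =>
      lus_four_two p W hcW (adj K₀ g) (D2P.fg_adj hK g) hΩg htg

theorem lus_of_herM (hQ : CritM p k Q) (h : Ctx k v 1) {E : IntermediateField k Ω} (hE : E.FG)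
    (hΩ : ∀ g : Ω, IsAlgebraic E g) (htr : Algebra.trdeg k E = (4 : ℕ)) (hBD : BD p v E)
    (hH : Her p v Q E) : LUs v (algebraMap k Ω).range E.toSubfield :=
  lus_of_hr p h (D := 2) (lub_three p h) hE (full_of_alg hΩ) htr hBD
    (hrone_of_herM p hQ h hE hΩ htr hBD hH) hΩ

end

end Pool.Agent.TW
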