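import Pool.Agent.Lib.TWC.HandA
import Pool.Agent.Lib.TW.TwoAll
import Pool.Agent.Lib.TWI.IXe

/-!
# TANK W, dimension 4: classes of valuations, the geometric statement

* `RealProp p k Q V`: the valuation ring `V` has rank one and residue field `k`, the field has
  transcendence degree 4, and the property `Q` for its subfields isogenous to it, in its algebraic
  closure; bounded distortion;
* `lur_of_prop`: log uniformization; `allGood_of_prop`;
* `exists_smooth_centres_prop`, `logUniformizable_prop`: the geometric statements.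
-/

set_option autoImplicit false

open AlgebraicGeometry CategoryTheory

namespace Pool.Agent.TW

open Pool.Agent.LU2 Pool.Agent.LU2G Pool.Agent.LU2H
open Pool.Agent.H15JM (RVal)
open Pool.Agent.LUC (LUs)
open Pool.Agent.TA (CtxR)

universe u

variable {k K : Type u} [Field k] [Field K] [Algebra k K]

/-- Rank one, residue field `k`, transcendence degree four, bounded distortion, and the property
`Q`. -/
structure RealProp (p : ℕ) (Q : VProp k) (V : ValuationSubring K) : Prop where
  rank : IsR1 V
  res : ∀ f ∈ V, ∃ c : k, V.valuation (f - algebraMap k K c) < 1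
  trdeg : Algebra.trdeg k K = (4 : ℕ)
  prop : ∀ (Ω : Type u) [Field Ω] [Algebra k Ω] [IsAlgClosed Ω] (v : RVal Ω)
    (L : IntermediateField k Ω) (e : K ≃ₐ[k] L), Ctx k v 1 →
      (∀ g : K, g ≠ 0 → (g ∈ V ↔ 0 ≤ v (e g : Ω))) → (∀ g : Ω, IsAlgebraic L g) →
        BD p v L ∧ Her p v Q L

/-- Log uniformization. -/
theorem lur_of_prop (p : ℕ) [Fact p.Prime] [IsAlgClosed k] [CharP k p] {Q : VProp k}
    (hQ : CritM p k Q) (hK : (⊤ : IntermediateField k K).FG) {V : ValuationSubring K}
    (hk : ∀ c : k, algebraMap k K c ∈ V) (h : RealProp p Q V) : LUr k V := by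
  refine D2.lur_of_lurV (lurV_at (m := 4) V (fun Ω _ _ _ v r L e hctx hr he hL halg => ?_) hK hk
    h.rank h.res h.trdeg)
  have hch : CharP Ω p := charP_of_injective_algebraMap (algebraMap k Ω).injective p
  by_cases h2 : 2 ≤ r
  · exact lus_twoR p hctx hr (by omega) hL halg
  · obtain rfl : r = 1 := by omega
    have hc := ctx_of_ctxR hctx hr
    obtain ⟨h3, h4⟩ := h.prop Ω v L e hc he halg
    exact lus_of_herM p hQ hc hL halg (e.trdeg_eq.symm.trans h.trdeg) h3 h4

/-- Change of the field. -/
theorem RealProp.congr {K' : Type u} [Field K'] [Algebra k K'] {p : ℕ} {Q : VProp k}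
    {V : ValuationSubring K} (h : RealProp p Q V) (e : K ≃ₐ[k] K') {V' : ValuationSubring K'}
    (hV : ∀ g : K, e g ∈ V' ↔ g ∈ V) (hR : IsR1 V') : RealProp p Q V' where
  rank := hR
  res f hf := by
    obtain ⟨g, rfl⟩ := e.surjective f
    obtain ⟨c, hc⟩ := h.res g ((hV g).1 hf)
    refine ⟨c, ?_⟩
    have h1 : e g - algebraMap k K' c = e (g - algebraMap k K c) := by
      rw [map_sub, e.commutes]
    rw [h1]
    have h2 : ∀ x : K, V.valuation x < 1 → V'.valuation (e x) < 1 := by
      intro x hx
      by_cases hx0 : x = 0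
      · rw [hx0, map_zero, map_zero]
        exact zero_lt_one
      · have h3 : x⁻¹ ∉ V := by
          intro h4
          rw [← V.valuation_le_one_iff, map_inv₀] at h4
          have h5 := inv_le_one₀ (zero_lt_iff.2 ((V.valuation.ne_zero_iff).2 hx0))
          exact absurd (h5.1 h4) (not_le.2 hx)
        have h4 : (e x)⁻¹ ∉ V' := by
          rw [← map_inv₀, hV]
          exact h3
        rw [← V'.valuation_le_one_iff, map_inv₀, not_le] at h4
        have h5 : V'.valuation (e x) ≠ 0 := (V'.valuation.ne_zero_iff).2 (by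
          rw [Ne, map_eq_zero]
          exact hx0)
        exact (one_lt_inv₀ (zero_lt_iff.2 h5)).1 h4
    exact h2 _ hc
  trdeg := e.trdeg_eq.symm.trans h.trdeg
  prop Ω _ _ _ v L e' hc he halg := h.prop Ω v L (e.trans e') hc (fun g hg => by
    rw [← hV g]
    exact he (e g) (by
      rw [Ne, map_eq_zero]
      exact hg)) halg

/-- The components of a valuation ring with `RealProp` are good. -/
theorem allGood_of_prop (p : ℕ) [Fact p.Prime] [IsAlgClosed k] [CharP k p] {Q : VProp k}
    (hQ : CritM p k Q) (hK : (⊤ : IntermediateField k K).FG) {V : ValuationSubring K}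
    (hk : ∀ c : k, algebraMap k K c ∈ V) (h : RealProp p Q V) : AllGood k V := by
  intro V₂ V₁ hle hc
  have hV₂ : V₂ = V := by
    rcases h.rank.2 V₂ hle with h1 | h1
    · exact h1
    · exact absurd (h1 ▸ hc.1) not_top_lt
  subst hV₂
  have hV₁ : V₁ = ⊤ := (h.rank.2 V₁ hc.1.le).resolve_left hc.1.ne'
  subst hV₁
  refine ⟨K, inferInstance, inferInstance, (⊤ : ValuationSubring K).subtype, V₂,
    ⟨le_top, hk, fun x => ⟨⟨x, ValuationSubring.mem_top x⟩, rfl⟩, fun _ _ => rfl,
      fun _ => Iff.rfl⟩, fun A hfg hA hfrac hcc => ?_⟩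
  obtain ⟨L, hL⟩ : ∃ L : IntermediateField k K, L = IntermediateField.adjoin k
    {c : K | ∃ a : (⊤ : ValuationSubring K), (a : K) ∈ A ∧
      (⊤ : ValuationSubring K).subtype a = c} := ⟨_, rfl⟩
  rw [← hL]
  have hLtop : L = ⊤ := by
    rw [eq_top_iff]
    intro f _
    obtain ⟨a, ha, b, hb, -, rfl⟩ := hfrac f
    rw [hL]
    exact div_mem (IntermediateField.subset_adjoin _ _ ⟨⟨a, ValuationSubring.mem_top a⟩, ha, rfl⟩)
      (IntermediateField.subset_adjoin _ _ ⟨⟨b, ValuationSubring.mem_top b⟩, hb, rfl⟩)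
  let e : K ≃ₐ[k] L := (IntermediateField.topEquiv.symm).trans (IntermediateField.equivOfEq hLtop.symm)
  have he : ∀ g : K, ((e g : L) : K) = g := fun g => rfl
  have hV : ∀ g : K, e g ∈ V₂.comap (algebraMap L K) ↔ g ∈ V₂ := fun g => by
    rw [ValuationSubring.mem_comap]
    exact Iff.rfl
  have hne : V₂.comap (algebraMap L K) ≠ ⊤ := by
    intro h1
    apply h.rank.1
    rw [eq_top_iff]
    intro g _
    rw [← hV g, h1]
    exact ValuationSubring.mem_top _
  have hLfg : (⊤ : IntermediateField k L).FG := by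
    have h1 : L.FG := by
      rw [hLtop]
      exact hK
    rw [← IntermediateField.essFiniteType_iff] at h1
    rw [IntermediateField.fg_top_iff]
    exact h1
  refine lur_of_prop p hQ hLfg (fun c => ?_) (h.congr e hV (isR1_comap h.rank L hne))
  rw [ValuationSubring.mem_comap, ← IsScalarTower.algebraMap_apply k L K]
  exact hk c

/-- **The geometric statement.** -/
theorem exists_smooth_centres_prop (p : ℕ) [Fact p.Prime] (k : Type) [Field k] [IsAlgClosed k]
    [CharP k p] {Q : VProp k} (hQ : CritM p k Q) (X : Scheme.{0}) [IsIntegral X]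
    (f : X ⟶ Spec (CommRingCat.of k)) [LocallyOfFiniteType f] (m : ℕ)
    (V : Fin m → ValuationSubring X.functionField)
    (hV : ∀ i, FGOver f → @RealProp k X.functionField _ _ (consts f).toAlgebra p Q (V i))
    (c : ∀ i, Spec (CommRingCat.of (V i)) ⟶ X)
    (hc : ∀ i, Spec.map (CommRingCat.ofHom (algebraMap (V i) X.functionField)) ≫
      c i = X.fromSpecStalk (genericPoint X)) :
    ∃ (Y : Scheme.{0}) (π : Y ⟶ X), IsIntegral Y ∧ IsProper π ∧
      (∀ W : X.Opens, (∀ (i : Fin m) (V' : ValuationSubring X.functionField) (h : V i ≤ V'),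
        V' ≠ ⊤ → (coarser h ≫ c i) (IsLocalRing.closedPoint V') ∈ W →
          IsSmoothAt f ((coarser h ≫ c i) (IsLocalRing.closedPoint V'))) → IsIso (π ∣_ W)) ∧
      ∀ i, ∃ c' : Spec (CommRingCat.of (V i)) ⟶ Y, c' ≫ π = c i ∧
        IsSmoothAt (π ≫ f) (c' (IsLocalRing.closedPoint (V i))) := by
  refine exists_smooth_centres_good k X f m V (fun i hK hk => ?_) c hc
  let _ : Algebra k X.functionField := (consts f).toAlgebra
  exact allGood_of_prop p hQ hK hk (hV i hK)

/-- **The statement for affine models.** -/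
theorem logUniformizable_prop (p : ℕ) [Fact p.Prime] (k : Type) [Field k] [IsAlgClosed k]
    [CharP k p] {Q : VProp k} (hQ : CritM p k Q) (A : Type) [CommRing A] [IsDomain A]
    [Algebra k A] [Algebra.EssFiniteType k A] (V : ValuationSubring (FractionRing A))
    (hV : ∀ a : A, algebraMap A (FractionRing A) a ∈ V)
    (h : (⊤ : IntermediateField k (FractionRing A)).FG → RealProp p Q V) :
    LU2G.LogUniformizable V := by
  have h1 : Algebra.EssFiniteType A (FractionRing A) :=
    Algebra.EssFiniteType.of_isLocalization _ (nonZeroDivisors A)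
  have h2 : Algebra.EssFiniteType k (FractionRing A) :=
    Algebra.EssFiniteType.comp k A (FractionRing A)
  have h3 := IntermediateField.fg_top_iff.2 h2
  have hkV : ∀ c : k, algebraMap k (FractionRing A) c ∈ V := by
    intro c
    rw [IsScalarTower.algebraMap_apply k A (FractionRing A)]
    exact hV _
  exact Pool.Agent.LU2G.logUniformizable_of_LU_ess k A V hV (lur_of_prop p hQ h3 hkV (h h3)).lu

end Pool.Agent.TW
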