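import Pool.Agent.Lib.TWC.CStar

/-!
# TANK W, class C: the purely inseparable step for towers over a perfect field

* `Tow.rootF`: `B^(1/p)` is a tower over `A^(1/p)`;
* `Tow.pi`: `P` perfect, `K` a tower of length `≤ 3` over `P`, `K ≤ L ≤ K^(1/p)`: `L` is a tower of
  the same length over `P`;
* `Tow.pi_pow`: the same for `K ≤ L`, `L^(p^e) ≤ K`;
* `Tow.pi_adj`: the closure of `K(g)`, `g ^ p ∈ K`.
-/

set_option autoImplicit false

open Polynomial

namespace Pool.Agent.TWC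

open Pool.Agent.H15JM (RVal)
open Pool.Agent.LU1 (VPos adj)
open Pool.Agent.D2 (Ctx0)
open Pool.Agent.D2P (hen clI mem_clI rootF mem_rootF)
open Pool.Agent.TWM

universe u

variable {k Ω : Type u} [Field k] [Field Ω] [Algebra k Ω] {v : RVal Ω}
  {A B P K L : IntermediateField k Ω}

theorem cld_inf (hA : Cld v A) (hB : Cld v B) : Cld v (A ⊓ B) := fun _ hx =>
  ⟨hA (clI_mono inf_le_left hx), hB (clI_mono inf_le_right hx)⟩

variable (p : ℕ) [hp : Fact p.Prime] [CharP k p] [CharP Ω p] [IsAlgClosed Ω]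

omit [CharP k p] in
/-- The roots of a tower. -/
theorem Tow.rootF {n : ℕ} (h : Tow v n A B) :
    Tow v n (D2P.rootF p 1 A) (D2P.rootF p 1 B) := by
  induction h with
  | zero h => exact Tow.zero (cld_rootF p h)
  | @succ n A B z hz _ ih =>
    obtain ⟨t, rfl⟩ := IsAlgClosed.exists_pow_nat_eq z hp.out.pos
    have h1 := TL.root p hz
    rw [zero_div] at h1
    rw [rootF_cadj] at ih
    exact Tow.succ h1 ih

omit [CharP k p] [IsAlgClosed Ω] in
theorem rootF_perf (hP' : ∀ a ∈ P, ∃ b ∈ P, b ^ p = a) : D2P.rootF p 1 P = P := by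
  refine le_antisymm (fun x hx => ?_) (le_rootF p P)
  obtain ⟨b, hb, h1⟩ := hP' _ ((mem_rootF1 p).1 hx)
  have h2 : b = x := frobenius_inj Ω p h1
  rwa [← h2]

variable [PerfectRing k p] [Fact (Ctx0 k v)]

/-- **The purely inseparable step for towers.** -/
theorem Tow.pi (hc : CompleteV v) {s : ℕ} (hs : s ≤ 3) (hP : Cld v P)
    (hP' : ∀ a ∈ P, ∃ b ∈ P, b ^ p = a) (hT : Tow v s P K) (hL : Cld v L) (hKL : K ≤ L)
    (hLK : ∀ x ∈ L, x ^ p ∈ K) : Tow v s P L := by
  have h1 := Tow.rootF p hT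
  rw [rootF_perf p hP'] at h1
  exact cstar p hc s hs P _ L hP hP' h1 hL (fun x hx => (mem_rootF1 p).2 (hLK x hx))
    (fun t ht => hKL ((mem_rootF1 p).1 ht))

/-- The same, any exponent. -/
theorem Tow.pi_pow (hc : CompleteV v) {s : ℕ} (hs : s ≤ 3) (hP : Cld v P)
    (hP' : ∀ a ∈ P, ∃ b ∈ P, b ^ p = a) (e : ℕ) : ∀ {K : IntermediateField k Ω}, Tow v s P K →
    Cld v L → K ≤ L → (∀ x ∈ L, x ^ p ^ e ∈ K) → Tow v s P L := by
  induction e with
  | zero =>
    intro K hT hL hKL hLK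
    have h1 : L = K := le_antisymm (fun x hx => by
      have h2 := hLK x hx
      rwa [pow_zero, pow_one] at h2) hKL
    rw [h1]
    exact hT
  | succ e ih =>
    intro K hT hL hKL hLK
    have hK : Cld v K := Tow.cld hT
    have h1 : Tow v s P (L ⊓ D2P.rootF p 1 K) :=
      Tow.pi p hc hs hP hP' hT (cld_inf hL (cld_rootF p hK)) (le_inf hKL (le_rootF p K))
        fun x hx => (mem_rootF1 p).1 hx.2
    refine ih h1 hL inf_le_left fun x hx => ⟨pow_mem hx _, (mem_rootF1 p).2 ?_⟩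
    rw [← pow_mul, ← pow_succ]
    exact hLK x hx

/-- The closure of `K(g)`, `g ^ p ∈ K`. -/
theorem Tow.pi_adj (hc : CompleteV v) {s : ℕ} (hs : s ≤ 3) (hP : Cld v P)
    (hP' : ∀ a ∈ P, ∃ b ∈ P, b ^ p = a) (hT : Tow v s P K) {g : Ω} (hg : g ^ p ∈ K) :
    Tow v s P (cadj v K g) := by
  have hK : Cld v K := Tow.cld hT
  refine Tow.pi p hc hs hP hP' hT (cld_cadj v K g) (le_cadj v K g) fun x hx => ?_
  have h1 : cadj v K g ≤ D2P.rootF p 1 K :=
    cadj_le (cld_rootF p hK) (le_rootF p K) ((mem_rootF1 p).2 hg)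
  exact (mem_rootF1 p).1 (h1 hx)

end Pool.Agent.TWC
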