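import Pool.Agent.Lib.TWC.SND
import Pool.Agent.Lib.TWC.PI

/-!
# TANK W, class C: tight elements, perfect closures and towers

* `EW.down`: `x` and `x ^ p` have the same perfect closure over `P`;
* `tow_isog`: over a perfect field `E`, `L E` is a tower if and only if `K E` is one
  (`K ≤ L`, `L ^ (p ^ e) ≤ K`);
* `Tgt.both_tow`: `x` tight in `L`, `L E` a tower over the perfect closure `E` of `P(x)`: if `x` is
  not near to an element of `K`, then `x ^ p` is tight in `K` and `K E` is a tower over the same `E`.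
-/

set_option autoImplicit false

open Polynomial

namespace Pool.Agent.TWC

open Pool.Agent.H15JM (RVal)
open Pool.Agent.LU1 (VPos adj)
open Pool.Agent.D2 (Ctx0)
open Pool.Agent.D2P (clI mem_clI rootF mem_rootF)
open Pool.Agent.TWM

universe u

variable {k Ω : Type u} [Field k] [Field Ω] [Algebra k Ω] {v : RVal Ω}
  {B K L M P E : IntermediateField k Ω}

/-- `x` and `x ^ p` have the same perfect closure over `P`. -/
theorem EW.down (p : ℕ) (x : ℕ → Ω) : EW v P (dwn p x) = EW v P x := by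
  have h1 : IntermediateField.adjoin k (Set.range (dwn p x)) =
      IntermediateField.adjoin k (Set.range x) := by
    refine le_antisymm (IntermediateField.adjoin_le_iff.2 ?_) (IntermediateField.adjoin_le_iff.2 ?_)
    · rintro _ ⟨n, rfl⟩
      cases n with
      | zero => exact pow_mem (IntermediateField.subset_adjoin k (Set.range x) ⟨0, rfl⟩) p
      | succ n => exact IntermediateField.subset_adjoin k (Set.range x) ⟨n, rfl⟩
    · rintro _ ⟨n, rfl⟩
      exact IntermediateField.subset_adjoin k (Set.range (dwn p x)) ⟨n + 1, rfl⟩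
  rw [EW, EW, h1]

section T

variable (p : ℕ) [hp : Fact p.Prime] [CharP k p] [CharP Ω p] [IsAlgClosed Ω] [PerfectRing k p]
  [Fact (Ctx0 k v)]

/-- **Towers over a perfect field and purely inseparable extensions.** `K ≤ L`, `L ^ p ≤ K`. -/
theorem tow_isog1 (hc : CompleteV v) {s : ℕ} (hs : s ≤ 3) (hE : Cld v E)
    (hE' : ∀ a ∈ E, ∃ b ∈ E, b ^ p = a) (hKL : K ≤ L) (hLK : ∀ a ∈ L, a ^ p ∈ K) :
    Tow v s E (clI v (K ⊔ E)) ↔ Tow v s E (clI v (L ⊔ E)) := by
  have h1 : clI v (K ⊔ E) ≤ clI v (L ⊔ E) := clI_mono' (sup_le_sup_right hKL _)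
  have h2 : ∀ t ∈ clI v (L ⊔ E), t ^ p ∈ clI v (K ⊔ E) := pow_mem_sup p hE' hLK
  constructor
  · intro h
    exact Tow.pi p hc hs hE hE' h (cld_clI v _) h1 h2
  · intro h
    exact cstar p hc s hs E _ _ hE hE' h (cld_clI v _) h1 h2

/-- The same, any exponent. -/
theorem tow_isog (hc : CompleteV v) {s : ℕ} (hs : s ≤ 3) (hE : Cld v E)
    (hE' : ∀ a ∈ E, ∃ b ∈ E, b ^ p = a) (e : ℕ) : ∀ {K : IntermediateField k Ω}, K ≤ L →
    (∀ a ∈ L, a ^ p ^ e ∈ K) → (Tow v s E (clI v (K ⊔ E)) ↔ Tow v s E (clI v (L ⊔ E))) := by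
  induction e with
  | zero =>
    intro K hKL hLK
    have h1 : L = K := le_antisymm (fun a ha => by
      have h2 := hLK a ha
      rwa [pow_zero, pow_one] at h2) hKL
    rw [h1]
  | succ e ih =>
    intro K hKL hLK
    rw [tow_isog1 p hc hs hE hE' (K := K) (L := L ⊓ D2P.rootF p 1 K)
      (le_inf hKL (le_rootF p K)) fun x hx => (mem_rootF1 p).1 hx.2]
    refine ih inf_le_left fun a ha => ⟨pow_mem ha _, (mem_rootF1 p).2 ?_⟩
    rw [← pow_mul, ← pow_succ]
    exact hLK a ha

/-- **The common base.** `K ≤ L`, `L ^ p ≤ K`, `x` tight in `L`, `L E` a tower over the perfect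
closure `E` of `P(x)`: if `x` is not near to an element of `K`, then `x ^ p` is tight in `K` and
`K E` is a tower over the same `E`. -/
theorem Tgt.both_tow (hc : CompleteV v) {s : ℕ} (hs : s ≤ 3) {x : ℕ → Ω} {r : ℝ}
    (h : Tgt p v L x r) (hP : Cld v P) (hP' : ∀ a ∈ P, ∃ b ∈ P, b ^ p = a) (hK : Cld v K)
    (hKL : K ≤ L) (hLK : ∀ a ∈ L, a ^ p ∈ K) (hn : ¬ Nr' v K r (x 0))
    (hT : Tow v s (EW v P x) (clI v (L ⊔ EW v P x))) :
    Tgt p v K (dwn p x) (p * r) ∧
      Tow v s (EW v P (dwn p x)) (clI v (K ⊔ EW v P (dwn p x))) := by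
  rw [EW.down p x]
  refine ⟨?_, (tow_isog1 p hc hs EW.cld (EW.perf p hc hP hP' h.root) hKL hLK).2 hT⟩
  rcases h.down hK hKL hLK with ⟨u, h1, _, h3⟩ | h1
  · refine absurd ⟨u 0, h1.mem, ?_⟩ hn
    have e : x 0 - u 0 = -(u 0 - x 0) := by ring
    rw [e]
    exact h3.neg
  · exact h1

end T

end Pool.Agent.TWC
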