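import Pool.Agent.Lib.TWC.Lv0E
import Pool.Agent.Lib.TWC.SNDT
import Pool.Agent.Lib.TWX.Exch

/-!
# TANK W, class I: a tight element of level `0`, the main row

* `exists_ms`: monomials of all the real values, if all the real values are attained;
* `TT.up`: `TT` for a purely inseparable extension `L₁` of degree `p` of `L`, for `x` or for an
  element of `L₁` near to `x ^ (1 / p)` (exchange of tight bases);
* `mainLv1`: the main row `MainLv1 p k m`, `m ≤ 2`;
* `hrone_of_tt0`: `HRone` from `TTc`.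
-/

set_option autoImplicit false

open Polynomial

namespace Pool.Agent.TWC

open Pool.Agent.H15JM (RVal)
open Pool.Agent.LU1 (VPos adj)
open Pool.Agent.D2 (Ctx0)
open Pool.Agent.D2P (hen clI mem_clI mem_adj_self)
open Pool.Agent.TWM
open Pool.Agent.TWS (TowR PM MonG RatV GK SphC U0)
open Pool.Agent.TW (Ctx Full BD HRone LU)

universe u

section Mono

variable {Ω : Type u} [Field Ω] {v : RVal Ω}

/-- Monomials of all the real values. -/
theorem exists_ms [IsAlgClosed Ω] (hval : ∀ ρ : ℝ, ∃ c : Ω, c ≠ 0 ∧ v c = ρ) :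
    ∃ M : ℝ → Ω, MS v ⊤ M := by
  classical
  let _ : DivisibleBy (Additive (U0 v)) ℤ :=
    divisibleByOfSMulRightSurj _ _ fun {n} hn => U0.surj v hn
  have hB : Module.Baer ℤ (Additive (U0 v)) := Module.Baer.of_divisible _
  let f : Additive (U0 v) →+ Additive Ωˣ := (U0 v).subtype.toAdditive
  have hf : Function.Injective f := Subtype.val_injective
  obtain ⟨ρ, hρ⟩ := Module.Baer.extension_property_addMonoidHom hB f hf
    (AddMonoidHom.id (Additive (U0 v)))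
  obtain ⟨R, hR⟩ : ∃ R : Ωˣ → Ωˣ, R = fun a => (((ρ (Additive.ofMul a)).toMul : U0 v) : Ωˣ) :=
    ⟨_, rfl⟩
  have hRm : ∀ a b, R (a * b) = R a * R b := by
    intro a b
    rw [hR]
    simp only
    rw [ofMul_mul, map_add, toMul_add, Subgroup.coe_mul]
  have hRu : ∀ a ∈ U0 v, R a = a := by
    intro a ha
    have h1 := DFunLike.congr_fun hρ (Additive.ofMul (⟨a, ha⟩ : U0 v))
    have h2 : ρ (Additive.ofMul a) = Additive.ofMul (⟨a, ha⟩ : U0 v) := h1
    rw [hR]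
    simp only
    rw [h2]
    rfl
  have hRv : ∀ a, R a ∈ U0 v := by
    intro a
    rw [hR]
    exact SetLike.coe_mem _
  choose c hc0 hcv using hval
  obtain ⟨cu, hcu⟩ : ∃ cu : ℝ → Ωˣ, ∀ γ, ((cu γ : Ωˣ) : Ω) = c γ :=
    ⟨fun γ => Units.mk0 (c γ) (hc0 γ), fun γ => rfl⟩
  have hval' : ∀ γ, v ((cu γ : Ωˣ) : Ω) = γ := fun γ => by rw [hcu, hcv]
  refine ⟨fun γ => ((cu γ * (R (cu γ))⁻¹ : Ωˣ) : Ω), fun γ _ => Units.ne_zero _, fun γ _ => ?_,
    fun γ _ δ _ => ?_⟩
  · rw [Units.val_mul, v.map_mul (Units.ne_zero _) (Units.ne_zero _), hval',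
      show v (((R (cu γ))⁻¹ : Ωˣ) : Ω) = 0 from (U0 v).inv_mem (hRv _), add_zero]
  · have h1 : cu (γ + δ) * (cu γ * cu δ)⁻¹ ∈ U0 v := by
      change v ((cu (γ + δ) * (cu γ * cu δ)⁻¹ : Ωˣ) : Ω) = 0
      rw [Units.val_mul, v.map_mul (Units.ne_zero _) (Units.ne_zero _), Units.val_inv_eq_inv_val,
        v.map_inv (Units.ne_zero _), Units.val_mul, v.map_mul (Units.ne_zero _)
          (Units.ne_zero _), hval', hval', hval']
      ring
    have h2 : R (cu (γ + δ)) = cu (γ + δ) * (cu γ * cu δ)⁻¹ * (R (cu γ) * R (cu δ)) := by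
      rw [← hRm (cu γ) (cu δ), ← hRu _ h1, ← hRm, inv_mul_cancel_right]
    have h3 : cu (γ + δ) * (R (cu (γ + δ)))⁻¹ = cu γ * (R (cu γ))⁻¹ * (cu δ * (R (cu δ))⁻¹) := by
      have h4 := (cu γ).ne_zero
      have h5 := (cu δ).ne_zero
      have h6 := (cu (γ + δ)).ne_zero
      have h7 := (R (cu γ)).ne_zero
      have h8 := (R (cu δ)).ne_zero
      rw [h2]
      apply Units.ext
      simp only [Units.val_mul, Units.val_inv_eq_inv_val]
      field_simp
    rw [h3, Units.val_mul]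

end Mono

section Up

variable {k Ω : Type u} [Field k] [Field Ω] [Algebra k Ω] {v : RVal Ω}
  {L L₁ : IntermediateField k Ω} {p m : ℕ} [hp : Fact p.Prime] {x : ℕ → Ω} {y : Ω}
  [CharP k p] [CharP Ω p] [PerfectRing k p] [IsAlgClosed Ω] [hcx : Fact (Ctx0 k v)]

/-- **`TT` for the purely inseparable extensions of degree `p`.** -/
theorem TT.up [IsAlgClosed k] (hc : CompleteV v) (hM : ∃ M : ℝ → Ω, MS v ⊤ M) (hm : m ≤ 2)
    (ht : TT p v m L x y) (hL₁ : Cld v L₁) (hLL : L ≤ L₁) (hLp : ∀ a ∈ L₁, a ^ p ∈ L) :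
    ∃ x' y', TT p v m L₁ x' y' := by
  rcases ht.tgt.up hL₁ hLL hLp with ⟨u, h1, -, h2⟩ | h1
  · -- `u` near to `x 1`
    rw [zero_div] at h1 h2
    have hu : ∀ n, dwn p u (n + 1) ^ p = dwn p u n := dwn_root h1.root
    have hu0 : dwn p u 0 ∈ L := hLp _ h1.mem
    have hux : Gt v 0 (dwn p u 0 - x 0) := by
      have h3 : dwn p u 0 - x 0 = (u 0 - x 1) ^ p := by
        rw [sub_pow_char, show x 1 ^ p = x 0 from ht.tgt.root 0]
        rfl
      rw [h3]
      have h4 := (gt_pow_iff (v := v) (N := p) hp.out.pos).2 h2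
      rwa [mul_zero] at h4
    obtain ⟨y', h3, h4⟩ := TWX.exch_first hcx.out hc ht.tgt hu hu0 hux bot_le
      (TWX.far_bot hcx.out ht.tgt ht.neg.ne) ht.first ht.tow
    have h5 : Gt v (v (x 0)) (x 0 - dwn p u 0) := fun h0 => by
      have := hux.neg (v := v)
      rw [show -(dwn p u 0 - x 0) = x 0 - dwn p u 0 by ring] at this
      exact ht.neg.trans (this h0)
    obtain ⟨h6, h7⟩ := Gt.val_eq ht.ne h5
    have ht' : TT p v m L (dwn p u) y' :=
      ⟨ht.tgt.congr hu hu0 hux, by rw [h7]; exact ht.neg, h3, h4⟩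
    have hu00 : u 0 ≠ 0 := fun h0 => h6 (by
      change u 0 ^ p = 0
      rw [h0, zero_pow hp.out.ne_zero])
    obtain ⟨M₀, hM₀⟩ := hM
    obtain ⟨M, hM, hMx⟩ := TWS.exists_MS hM₀ ht'.ne ht'.neg.ne
    have hperf := perf_EW0 (v := v) (k := k) (p := p) ht'.tgt.root
    have hMG : MonG v (EW v (⊥ : IntermediateField k Ω) (dwn p u)) ⊤ M :=
      TWS.monG_top p hcx.out hM hMx EW.cld hperf (EW.mem 0)
        (ratV_EW hcx.out ht'.tgt.root ht'.ne ht'.neg)
    obtain ⟨y'', h8, h9⟩ := tow_step hc hm hMG EW.cld hperf ht'.first ht'.tow hLL hLp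
    rw [EW.down] at h8 h9
    refine ⟨u, y'', h1, ?_, h8, h9⟩
    have h10 : p * v (u 0) = v (x 0) := by
      rw [← h7, ← v.map_pow hu00]
      rfl
    have hp0 : (0 : ℝ) < p := by exact_mod_cast hp.out.pos
    have := ht.neg
    nlinarith
  · obtain ⟨y', h2⟩ := ht.step hc hM hm h1 hLL hLp
    exact ⟨x, y', h2⟩

end Up

/-- **THE MAIN ROW.** -/
theorem mainLv1 (p : ℕ) [hp : Fact p.Prime] (k : Type u) [Field k] [IsAlgClosed k] [CharP k p]
    {m : ℕ} (hm : m ≤ 2) : MainLv1 p k m := by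
  intro H _ _ _ _ v h0 hc _ hval L x y ht g hg
  have : Fact (Ctx0 k v) := ⟨h0⟩
  have : PerfectRing k p := PerfectField.toPerfectRing p
  have hM := exists_ms hval
  have hLL : L ≤ clI v (adj L g) := fun a ha => self_le_clI v _ ((mem_adj_self L g).2 ha)
  have hLp : ∀ a ∈ clI v (adj L g), a ^ p ∈ L := by
    have h1 : clI v (adj L g) ≤ D2P.rootF p 1 L := by
      refine clI_le' (D2P.adj_le (TWM.le_rootF p L) ((TWM.mem_rootF1 p).2 hg))
        (TWM.cld_rootF p ht.tgt.cld)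
    exact fun a ha => (TWM.mem_rootF1 p).1 (h1 ha)
  obtain ⟨x', y', ht'⟩ := ht.up hc hM hm (cld_clI v _) hLL hLp
  exact ht'.gen hc hM hm

/-- **`HRone` from a tight element of level `0`.** -/
theorem hrone_of_tt0 {k Ω : Type u} [Field k] [Field Ω] [Algebra k Ω] {v : RVal Ω}
    [IsAlgClosed k] [IsAlgClosed Ω] (p : ℕ) [Fact p.Prime] [CharP k p]
    [CharP Ω p] (h : Ctx k v 1) {m : ℕ} (hm : m ≤ 2)
    {K₀ : IntermediateField k Ω} (hK : K₀.FG) (hfull : Full v K₀)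
    (htr : Algebra.trdeg k K₀ = (m + 2 : ℕ)) {g : Ω} (hg : g ^ p ∈ K₀) (hBD : BD p v (adj K₀ g))
    (ht : TTc p v m K₀) : HRone v (adj K₀ g) :=
  hrone_of_tt p h hm (mainLv1 p k hm) hK hfull htr hg hBD ht

end Pool.Agent.TWC
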