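import Pool.Agent.Lib.TWC.HandB
import Pool.Agent.Lib.TWX.IsogC
import Pool.Agent.Lib.TWC.Lv0M
import Pool.Agent.Lib.TWC.BdTow

/-!
# TANK W, dimension 4: the valuations of a tower over a tight element of level zero

* `TightTower`: the class;
* `exists_smooth_centres_tight`: the geometric statement.
-/

set_option autoImplicit false

open AlgebraicGeometry CategoryTheory

namespace Pool.Agent.TW

open Pool.Agent.LU2 Pool.Agent.LU2G Pool.Agent.LU2H
open Pool.Agent.H15JM (RVal)
open Pool.Agent.LUC (LUs)
open Pool.Agent.TWC (TTc hrone_of_tt0)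

universe u

/-- The property: the closure of the field is a tower over a tight element of level zero. -/
def QTT (p : ℕ) (k : Type u) [Field k] : VProp k := fun _ _ _ _ v E => TTc p v 2 E

theorem crit4_tt (p : ℕ) [Fact p.Prime] (k : Type u) [Field k] [IsAlgClosed k] [CharP k p] :
    Crit4 p k (QTT p k) := fun _ _ _ _ _ _ h _ hK hf htr _ _ hQ _ hg hBD =>
  hrone_of_tt0 p h le_rfl hK hf htr hg hBD hQ

theorem her_tt (p : ℕ) [Fact p.Prime] {k Ω : Type u} [Field k] [IsAlgClosed k] [CharP k p]
    [Field Ω] [Algebra k Ω] [IsAlgClosed Ω] {v : RVal Ω} (h : Ctx k v 1)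
    {E : IntermediateField k Ω} (hE : TTc p v 2 E) : Her p v (QTT p k) E := by
  intro K₀ hKE _ ⟨e, he⟩
  have : CharP Ω p := charP_of_injective_algebraMap (algebraMap k Ω).injective p
  exact (TTc.isog h.toCtx0 le_rfl hKE e he).1 hE

/-- The valuation ring `V` of `K` has rank one and residue field `k`, `K` has transcendence degree
four over `k`, and, for the algebraic closure `Ω` of `K` with any real valuation `v`, of rational
rank one, that induces `V`: the closure of `K` in the completion of `Ω` contains an element which is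
tight of level zero, and generates with its `p ^ n`-th roots a tower with three floors over the
closure of the perfect closure of `k(x)` (`TTc`). -/
structure TightTower (p : ℕ) {k K : Type u} [Field k] [Field K] [Algebra k K]
    (V : ValuationSubring K) : Prop where
  rank : IsR1 V
  res : ∀ f ∈ V, ∃ c : k, V.valuation (f - algebraMap k K c) < 1
  trdeg : Algebra.trdeg k K = (4 : ℕ)
  tower : ∀ (Ω : Type u) [Field Ω] [Algebra k Ω] [IsAlgClosed Ω] (v : RVal Ω)
    (L : IntermediateField k Ω) (e : K ≃ₐ[k] L), Ctx k v 1 →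
      (∀ g : K, g ≠ 0 → (g ∈ V ↔ 0 ≤ v (e g : Ω))) → (∀ g : Ω, IsAlgebraic L g) →
        TTc p v 2 L

/-- `L` is finitely generated. -/
theorem fg_of_equiv {k K Ω : Type u} [Field k] [Field K] [Algebra k K] [Field Ω] [Algebra k Ω]
    (hK : (⊤ : IntermediateField k K).FG) {L : IntermediateField k Ω} (e : K ≃ₐ[k] L) : L.FG := by
  have h1 : Algebra.EssFiniteType k K := IntermediateField.fg_top_iff.1 hK
  have h2 : Algebra.EssFiniteType k L := (Algebra.EssFiniteType.iff_of_algEquiv e).1 h1
  rwa [IntermediateField.essFiniteType_iff] at h2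

theorem TightTower.realProp {p : ℕ} [Fact p.Prime] {k K : Type u} [Field k] [IsAlgClosed k]
    [CharP k p] [Field K] [Algebra k K] {V : ValuationSubring K} (h : TightTower (k := k) p V)
    (hK : (⊤ : IntermediateField k K).FG) : RealProp p (QTT p k) V where
  rank := h.rank
  res := h.res
  trdeg := h.trdeg
  prop Ω _ _ _ v L e hc he halg := by
    have : CharP Ω p := charP_of_injective_algebraMap (algebraMap k Ω).injective p
    have h1 := h.tower Ω v L e hc he halg
    exact ⟨TWC.bd_of_tt (m := 2) (fg_of_equiv hK e) (e.trdeg_eq.symm.trans h.trdeg) h1,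
      her_tt p hc h1⟩

/-- The geometric statement. -/
theorem exists_smooth_centres_tight (p : ℕ) [Fact p.Prime] (k : Type) [Field k] [IsAlgClosed k]
    [CharP k p] (X : Scheme.{0}) [IsIntegral X] (f : X ⟶ Spec (CommRingCat.of k))
    [LocallyOfFiniteType f] (m : ℕ) (V : Fin m → ValuationSubring X.functionField)
    (hV : ∀ i, @TightTower p k X.functionField _ _ (consts f).toAlgebra (V i))
    (c : ∀ i, Spec (CommRingCat.of (V i)) ⟶ X)
    (hc : ∀ i, Spec.map (CommRingCat.ofHom (algebraMap (V i) X.functionField)) ≫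
      c i = X.fromSpecStalk (genericPoint X)) :
    ∃ (Y : Scheme.{0}) (π : Y ⟶ X), IsIntegral Y ∧ IsProper π ∧
      (∀ W : X.Opens, (∀ (i : Fin m) (V' : ValuationSubring X.functionField) (h : V i ≤ V'),
        V' ≠ ⊤ → (coarser h ≫ c i) (IsLocalRing.closedPoint V') ∈ W →
          IsSmoothAt f ((coarser h ≫ c i) (IsLocalRing.closedPoint V'))) → IsIso (π ∣_ W)) ∧
      ∀ i, ∃ c' : Spec (CommRingCat.of (V i)) ⟶ Y, c' ≫ π = c i ∧
        IsSmoothAt (π ≫ f) (c' (IsLocalRing.closedPoint (V i))) :=
  exists_smooth_centres_prop p k (crit4_tt p k).toM X f m V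
    (fun i hK => (let _ : Algebra k X.functionField := (consts f).toAlgebra
      (hV i).realProp hK)) c hc

/-- The statement for affine models. -/
theorem logUniformizable_tight (p : ℕ) [Fact p.Prime] (k : Type) [Field k] [IsAlgClosed k]
    [CharP k p] (A : Type) [CommRing A] [IsDomain A] [Algebra k A] [Algebra.EssFiniteType k A]
    (V : ValuationSubring (FractionRing A)) (hV : ∀ a : A, algebraMap A (FractionRing A) a ∈ V)
    (h : TightTower (k := k) p V) : LU2G.LogUniformizable V :=
  logUniformizable_prop p k (crit4_tt p k).toM A V hV h.realProp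

end Pool.Agent.TW
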