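import Pool.Agent.Lib.TWC.TopD
import Pool.Agent.Lib.TWX.PtE

/-!
# TANK W, class I: towers over `cl k(x)`, `x` arbitrary, the isogeny class

`HasTPn p v C` (`TWX/PtE`): for every `N`, `C` is the closure of `k(x, w)`, `(x, w)` a tight pair of
`C` whose resonances are good up to `N`.
* `PairRatN p k` and `PairIrrN p k`: the two open rows;
* `pairN_or_str`: a base `T2` has `HasTPn`, or it is strict;
* `tpn_or_strc`: `T3c` gives `TPn`, or the base is strict.
-/

set_option autoImplicit false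

open Polynomial

namespace Pool.Agent.TWC

open Pool.Agent.H15JM (RVal)
open Pool.Agent.LU1 (VPos adj)
open Pool.Agent.D2 (Ctx0)
open Pool.Agent.D2P (clI mem_clI mem_adj_self)
open Pool.Agent.TWM
open Pool.Agent.TWS (TowR VG RatV SphC IsoE HF hv)
open Pool.Agent.TW (Ctx)

universe u

variable {k Ω : Type u} [Field k] [Field Ω] [Algebra k Ω] {v : RVal Ω}

theorem HasTPn.hasTP {p : ℕ} {C : IntermediateField k Ω} (h : HasTPn p v C) : HasTP p v C := by
  obtain ⟨x, w, r, s, h1, h2, h3, h4, -⟩ := h 0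
  exact ⟨x, w, r, s, h1, h2, h3, h4⟩

/-- **The open row, rational first radius.** -/
def PairRatN (p : ℕ) (k : Type u) [Field k] : Prop :=
  ∀ (H : Type u) [Field H] [Algebra k H] [IsAlgClosed H] [CharP H p] (v : RVal H),
    Ctx0 k v → CompleteV v → SphC v → (∀ ρ : ℝ, ∃ c : H, c ≠ 0 ∧ v c = ρ) →
    ∀ (X : ℕ → H) (y : H) (s : ℝ), T2 p k v X y s → RatR (v (X 0)) s →
      HasTPn p v (CP (k := k) v (X 0) y)

/-- **The open row, irrational first radius.** -/
def PairIrrN (p : ℕ) (k : Type u) [Field k] : Prop :=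
  ∀ (H : Type u) [Field H] [Algebra k H] [IsAlgClosed H] [CharP H p] (v : RVal H),
    Ctx0 k v → CompleteV v → SphC v → (∀ ρ : ℝ, ∃ c : H, c ≠ 0 ∧ v c = ρ) →
    ∀ (X : ℕ → H) (y : H) (s : ℝ), T2 p k v X y s → ¬ RatR (v (X 0)) s →
      HasTPn p v (CP (k := k) v (X 0) y) ∨ StrF k v X y s

theorem PairRatN.pair {p : ℕ} (h : PairRatN p k) : PairRat p k :=
  fun H _ _ _ _ v h0 h1 h2 h3 X y s h4 h5 => (h H v h0 h1 h2 h3 X y s h4 h5).hasTP

theorem PairIrrN.pair {p : ℕ} (h : PairIrrN p k) : PairIrr p k :=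
  fun H _ _ _ _ v h0 h1 h2 h3 X y s h4 h5 =>
    (h H v h0 h1 h2 h3 X y s h4 h5).imp HasTPn.hasTP id

/-! ### Transfer -/

section Unmap

variable {Ω' : Type u} [Field Ω'] [Algebra k Ω'] {v' : RVal Ω'} {ι : Ω →ₐ[k] Ω'}
  {A : IntermediateField k Ω} {p : ℕ}

theorem HasTPn.of_map [hp : Fact p.Prime] [IsAlgClosed Ω] [IsAlgClosed Ω'] [CharP k p]
    [CharP Ω' p] (h : IsoE v v' ι) (hc : CompleteV v) (hA : HasTPn p v' (A.map ι)) :
    HasTPn p v A := by
  intro N
  obtain ⟨X, W, r, s, h1, h2, h3, h4, hN⟩ := hA N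
  obtain ⟨a, ha, ha'⟩ := h3.tgt.mem
  obtain ⟨b, hb, hb'⟩ := h3.mem
  obtain ⟨x, hx0, rfl⟩ := exists_unroot (ι := ι) h3.tgt.root ha'
  obtain ⟨w, hw0, rfl⟩ := exists_unroot (ι := ι) h3.root hb'
  have hx0' : x 0 ≠ 0 := by
    intro h5
    have h6 := (h3.tgt.dst 0).far
    refine ne_zero_of_far (w := fun n => ι (x n)) h3.tgt.root h6 ?_
    simp only [h5, map_zero]
  simp only [h.val _ hx0', vg_map h] at h1 h2 hN
  refine ⟨x, w, r, s, h1, h2, tp_unmap h hc h3, ?_, hN⟩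
  simp only [← cp_map h hc] at h4
  exact IntermediateField.map_injective ι h4

end Unmap

/-! ### The alternative -/

section Alt

variable {p : ℕ} [hp : Fact p.Prime] [IsAlgClosed k] [CharP k p]

/-- **The alternative for the base.** -/
theorem pairN_or_str [IsAlgClosed Ω] [CharP Ω p] (h0 : Ctx0 k v) (hc : CompleteV v)
    (hPF : PairRatN p k) (hPI : PairIrrN p k) {X : ℕ → Ω} {y : Ω} {s : ℝ}
    (hT : T2 p k v X y s) : HasTPn p v (CP (k := k) v (X 0) y) ∨ StrF k v X y s := by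
  obtain ⟨φ, hφ⟩ := TWS.exists_emb (k := k) h0
  have hI : IsoE v (hv k) φ := ⟨hφ⟩
  have : CharP (HF k) p := charP_of_injective_algebraMap (algebraMap k (HF k)).injective p
  have hT' := hT.map hI hc
  by_cases hr : RatR (v (X 0)) s
  · left
    have h1 := hPF (HF k) (hv k) (TWS.ctx0_hv k) (TWS.completeV_hv k) (TWS.sphC_hv k)
      (TWS.exists_val k) (fun n => φ (X n)) (φ y) s hT' (by rwa [hφ _ hT.ne])
    simp only [← cp_map hI hc] at h1
    exact h1.of_map hI hc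
  · have h1 := hPI (HF k) (hv k) (TWS.ctx0_hv k) (TWS.completeV_hv k) (TWS.sphC_hv k)
      (TWS.exists_val k) (fun n => φ (X n)) (φ y) s hT' (by rwa [hφ _ hT.ne])
    rcases h1 with h1 | h1
    · left
      simp only [← cp_map hI hc] at h1
      exact h1.of_map hI hc
    · exact Or.inr (h1.of_map hI hc)

/-- **The alternative for the tower.** -/
theorem tpn_or_str [IsAlgClosed Ω] [CharP Ω p] (h : Ctx k v 1) (hc : CompleteV v)
    (hPF : PairRatN p k) (hPI : PairIrrN p k) {E : IntermediateField k Ω} {X : ℕ → Ω} {y : Ω}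
    {s : ℝ} (hT : T3 p v E X y s) : (∀ N, PTn p v 2 (clI v E) N) ∨ StrF k v X y s :=
  (pairN_or_str h.toCtx0 hc hPF hPI hT.base).imp (fun h1 N => h1.ptn h hT.tow N) id

/-- **`TPn`, or the base is strict.** -/
theorem tpn_or_strc (h : Ctx k v 1) (hPF : PairRatN p k) (hPI : PairIrrN p k)
    {E : IntermediateField k Ω} (ht : T3c p v E fun _ _ _ _ _ _ _ => True) :
    TPn p v 2 E ∨ T3c p v E fun _ _ _ v' X y s => StrF k v' X y s := by
  obtain ⟨Ω', iF, iA, ι, v', iC, h2, h3, X, y, s, h4, -⟩ := ht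
  have : CharP Ω' p := charP_of_injective_algebraMap (algebraMap k Ω').injective p
  rcases tpn_or_str (h3.ctx h) h2 hPF hPI h4 with h5 | h5
  · exact Or.inl ⟨Ω', iF, iA, ι, v', iC, h2, h3, h5⟩
  · exact Or.inr ⟨Ω', iF, iA, ι, v', iC, h2, h3, X, y, s, h4, h5⟩

end Alt

end Pool.Agent.TWC
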