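import Pool.Agent.Lib.TWC.HandC
import Pool.Agent.Lib.TWC.TopN

/-!
# TANK W, dimension 4: the valuations of a tower over a tight pair

* `Crit4.or`, `Her.inl`, `Her.inr`: unions of classes;
* `QPN`: the closure of the field is a tower over a tight pair; `crit4_pn`, `her_pn`;
* `her_of_t3`: towers over `cl k(x)` whose first floor is not strict.
-/

set_option autoImplicit false

open AlgebraicGeometry CategoryTheory

namespace Pool.Agent.TW

open Pool.Agent.H15JM (RVal)
open Pool.Agent.TWC (TTc TPn T3c StrF PairRatN PairIrrN hrone_of_tpc0 tpn_or_strc)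

universe u

variable {p : ℕ} {k : Type u} [Field k] {Q Q' : VProp k}

theorem Crit4.or (h : Crit4 p k Q) (h' : Crit4 p k Q') :
    Crit4 p k fun Ω _ _ _ v E => Q Ω v E ∨ Q' Ω v E := by
  intro Ω _ _ _ _ v hc K₀ hK hf htr hBDK hH hQ g hg hBD
  rcases hQ with hQ | hQ
  · exact h Ω v hc K₀ hK hf htr hBDK hH hQ g hg hBD
  · exact h' Ω v hc K₀ hK hf htr hBDK hH hQ g hg hBD

section

variable {Ω : Type u} [Field Ω] [Algebra k Ω] [IsAlgClosed Ω] {v : RVal Ω}
  {E : IntermediateField k Ω}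

theorem Her.inl (h : Her p v Q E) : Her p v (fun Ω _ _ _ v E => Q Ω v E ∨ Q' Ω v E) E :=
  fun K₀ h1 h2 h3 => Or.inl (h K₀ h1 h2 h3)

theorem Her.inr (h : Her p v Q' E) : Her p v (fun Ω _ _ _ v E => Q Ω v E ∨ Q' Ω v E) E :=
  fun K₀ h1 h2 h3 => Or.inr (h K₀ h1 h2 h3)

end

/-- The property: the closure of the field is a tower over a tight pair. -/
def QPN (p : ℕ) (k : Type u) [Field k] : VProp k := fun _ _ _ _ v E => TPn p v 2 E

theorem crit4_pn (p : ℕ) [Fact p.Prime] (k : Type u) [Field k] [IsAlgClosed k] [CharP k p] :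
    Crit4 p k (QPN p k) := fun _ _ _ _ _ _ h _ hK hf htr hBDK _ hQ _ hg hBD =>
  hrone_of_tpc0 p h one_le_two le_rfl hK hf htr hBDK hg hBD hQ.tpc

section

variable {Ω : Type u} [Field Ω] [Algebra k Ω] [IsAlgClosed Ω] {v : RVal Ω}
  {E : IntermediateField k Ω}

theorem her_pn [Fact p.Prime] [IsAlgClosed k] [CharP k p] (h : Ctx k v 1)
    (hE : TPn p v 2 E) : Her p v (QPN p k) E := by
  intro K₀ hKE _ ⟨e, he⟩
  have : CharP Ω p := charP_of_injective_algebraMap (algebraMap k Ω).injective p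
  exact (TPn.isog h.toCtx0 le_rfl hKE e he).1 hE

/-- Towers over `cl k(x)`: the first floor is strict, or the isogeny class is good. -/
theorem her_or_str [Fact p.Prime] [IsAlgClosed k] [CharP k p] (h : Ctx k v 1)
    (hPF : PairRatN p k) (hPI : PairIrrN p k) (hE : T3c p v E fun _ _ _ _ _ _ _ => True) :
    Her p v (QPN p k) E ∨ T3c p v E fun _ _ _ v' X y s => StrF k v' X y s :=
  (tpn_or_strc h hPF hPI hE).imp (her_pn h) id

end

end Pool.Agent.TW
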