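import Pool.Agent.Lib.TWC.HandD

/-!
# TANK W, dimension 4: the isogeny class of a tower

* `Isg p E K`: `E ^ (p ^ e) ≤ K`, `K ^ (p ^ e) ≤ E`;
* `QIso p Q`: an isogenous field has the property `Q`; `her_iso`;
* `QT3`: the closure of the field is a tower over `cl k(x, y)`, `y` of transcendental type over the
  perfect closure of `cl k(x)`;
* `StrLeaf p k`: the critical step for the isogeny class of a tower whose first floor is strict;
* `crit4_t3`: the critical step for the isogeny class of `QT3`.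
-/

set_option autoImplicit false

namespace Pool.Agent.TW

open Pool.Agent.H15JM (RVal)
open Pool.Agent.LU1 (adj)
open Pool.Agent.D2P (rootF mem_rootF)
open Pool.Agent.TWC (TPn T3c StrF PairRatN PairIrrN tpn_or_strc)

universe u

section Isg

variable {p : ℕ} {k Ω : Type u} [Field k] [Field Ω] [Algebra k Ω]

/-- `E` and `K` are isogenous. -/
def Isg (p : ℕ) (E K : IntermediateField k Ω) : Prop :=
  ∃ e : ℕ, (∀ a ∈ E, a ^ p ^ e ∈ K) ∧ ∀ a ∈ K, a ^ p ^ e ∈ E

theorem Isg.symm {E K : IntermediateField k Ω} (h : Isg p E K) : Isg p K E := by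
  obtain ⟨e, h1, h2⟩ := h
  exact ⟨e, h2, h1⟩

theorem Isg.trans {E K L : IntermediateField k Ω} (h : Isg p E K) (h' : Isg p K L) :
    Isg p E L := by
  obtain ⟨e, h1, h2⟩ := h
  obtain ⟨f, h3, h4⟩ := h'
  refine ⟨e + f, fun a ha => ?_, fun a ha => ?_⟩
  · rw [pow_add, pow_mul]
    exact h3 _ (h1 a ha)
  · rw [add_comm, pow_add, pow_mul]
    exact h2 _ (h4 a ha)

theorem Isg.of_le {E K : IntermediateField k Ω} (hle : K ≤ E) {e : ℕ}
    (h : ∀ a ∈ E, a ^ p ^ e ∈ K) : Isg p E K :=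
  ⟨e, h, fun a ha => pow_mem (hle ha) _⟩

theorem Isg.refl (E : IntermediateField k Ω) : Isg p E E :=
  ⟨0, fun _ h => pow_mem h _, fun _ h => pow_mem h _⟩

/-- Isogenous fields have a common isogenous extension. -/
theorem Isg.exists_sup [Fact p.Prime] [CharP Ω p] {E K : IntermediateField k Ω}
    (h : Isg p E K) :
    ∃ L : IntermediateField k Ω, E ≤ L ∧ K ≤ L ∧ ∃ e : ℕ, (∀ a ∈ L, a ^ p ^ e ∈ E) ∧
      ∀ a ∈ L, a ^ p ^ e ∈ K := by
  obtain ⟨e, h1, h2⟩ := h
  refine ⟨E ⊔ K, le_sup_left, le_sup_right, e, ?_, ?_⟩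
  · have h3 : E ⊔ K ≤ rootF p e E :=
      sup_le (fun a ha => mem_rootF.2 (pow_mem ha _)) fun a ha => mem_rootF.2 (h2 a ha)
    exact fun a ha => mem_rootF.1 (h3 ha)
  · have h3 : E ⊔ K ≤ rootF p e K :=
      sup_le (fun a ha => mem_rootF.2 (h1 a ha)) fun a ha => mem_rootF.2 (pow_mem ha _)
    exact fun a ha => mem_rootF.1 (h3 ha)

end Isg

/-- An isogenous field has the property `Q`. -/
def QIso (p : ℕ) {k : Type u} [Field k] (Q : VProp k) : VProp k := fun Ω _ _ _ v E =>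
  ∃ K₁ : IntermediateField k Ω, K₁.FG ∧ Isg p E K₁ ∧ Q Ω v K₁

theorem her_iso {p : ℕ} {k : Type u} [Field k] {Q : VProp k} {Ω : Type u} [Field Ω]
    [Algebra k Ω] [IsAlgClosed Ω] {v : RVal Ω} {E : IntermediateField k Ω}
    (h : QIso p Q Ω v E) : Her p v (QIso p Q) E := by
  obtain ⟨K₁, h1, h2, h3⟩ := h
  intro K₀ hKE _ ⟨e, he⟩
  exact ⟨K₁, h1, (Isg.of_le hKE he).symm.trans h2, h3⟩

/-- `TPn` for isogenous fields. -/
theorem tpn_isg {p : ℕ} [Fact p.Prime] {k Ω : Type u} [Field k] [IsAlgClosed k] [CharP k p]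
    [Field Ω] [Algebra k Ω] {v : RVal Ω} (h : Ctx k v 1) {E K : IntermediateField k Ω}
    (hi : Isg p E K) (hK : TPn p v 2 K) : TPn p v 2 E := by
  have : CharP Ω p := charP_of_injective_algebraMap (algebraMap k Ω).injective p
  obtain ⟨L, h1, h2, e, h3, h4⟩ := hi.exists_sup
  exact (TPn.isog h.toCtx0 le_rfl h1 e h3).1 ((TPn.isog h.toCtx0 le_rfl h2 e h4).2 hK)

/-- The property: the closure of the field is a tower over `cl k(x, y)`. -/
def QT3 (p : ℕ) (k : Type u) [Field k] : VProp k := fun _ _ _ _ v E =>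
  T3c p v E fun _ _ _ _ _ _ _ => True

/-- **The strict leaf**: the critical step for the isogeny class of a tower whose first floor is
strict. -/
def StrLeaf (p : ℕ) (k : Type u) [Field k] : Prop :=
  Crit4 p k (QIso p fun _ _ _ _ v E => T3c p v E fun _ _ _ v' X y s => StrF k v' X y s)

/-- **The critical step for the isogeny class of the towers over `cl k(x, y)`.** -/
theorem crit4_t3 (p : ℕ) [Fact p.Prime] (k : Type u) [Field k] [IsAlgClosed k] [CharP k p]
    (hPF : PairRatN p k) (hPI : PairIrrN p k) (hS : StrLeaf p k) :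
    Crit4 p k (QIso p (QT3 p k)) := by
  intro Ω _ _ _ _ v hc K₀ hK hf htr hBDK hH hQ g hg hBD
  obtain ⟨K₁, h1, h2, h3⟩ := hQ
  rcases tpn_or_strc hc hPF hPI h3 with h4 | h4
  · exact crit4_pn p k Ω v hc K₀ hK hf htr hBDK hH (tpn_isg hc h2 h4) g hg hBD
  · exact hS Ω v hc K₀ hK hf htr hBDK hH ⟨K₁, h1, h2, h4⟩ g hg hBD

/-- **Log uniformization of the fields isogenous to a tower over `cl k(x, y)`.** -/
theorem lus_of_t3 (p : ℕ) [Fact p.Prime] {k Ω : Type u} [Field k] [IsAlgClosed k] [CharP k p]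
    [Field Ω] [Algebra k Ω] [IsAlgClosed Ω] {v : RVal Ω} (hPF : PairRatN p k)
    (hPI : PairIrrN p k) (hS : StrLeaf p k) (h : Ctx k v 1) {E : IntermediateField k Ω}
    (hE : E.FG) (hΩ : ∀ g : Ω, IsAlgebraic E g) (htr : Algebra.trdeg k E = (4 : ℕ))
    (hBD : BD p v E) (hQ : QIso p (QT3 p k) Ω v E) :
    LUC.LUs v (algebraMap k Ω).range E.toSubfield := by
  have : CharP Ω p := charP_of_injective_algebraMap (algebraMap k Ω).injective p
  exact lus_of_her p (crit4_t3 p k hPF hPI hS) h hE hΩ htr hBD (her_iso hQ)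

end Pool.Agent.TW
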