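import Pool.Agent.Lib.TWC.HandE

/-!
# TANK W, dimension 4: classes of valuations

The definitions and theorems on `CritM` are in `HandA`.
-/
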