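import Pool.Agent.Lib.TWC.HandF
import Pool.Agent.Lib.TWC.TopI
import Pool.Agent.Lib.TWS7.Str

/-!
# TANK W, dimension 4: the isogeny class of a tower over `cl k(x, y)`, with motions

* `tpn_or_stc`: `T3c` gives `TPn` or `STc` (a strict tower in the completion);
* `pdiv_isg`, `pdiv_t3c`: the value group is divisible by `p`;
* `StrLeafM p k`: `MobQ0` on the isogeny class of the strict towers: the open leaf (II);
* `critM_t3`: `MobQ0` on the isogeny class of the towers over `cl k(x, y)`;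
* `lus_of_t3M`: log uniformization of the fields isogenous to such a tower.
-/

set_option autoImplicit false

namespace Pool.Agent.TW

open Pool.Agent.H15JM (RVal)
open Pool.Agent.LU1 (adj)
open Pool.Agent.LUC (LUs)
open Pool.Agent.TWM
open Pool.Agent.TWS (TowR)
open Pool.Agent.TWC (T2 T3 T3c RatR StrF HasTPn PTn TPn PairRatC)
open Pool.Agent.TWS7 (STc STow PDiv)

universe u

/-- **`TPn`, or a strict tower.** -/
theorem tpn_or_stc {p : ℕ} [Fact p.Prime] {k Ω : Type u} [Field k] [IsAlgClosed k] [CharP k p]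
    [Field Ω] [Algebra k Ω] {v : RVal Ω} (h : Ctx k v 1) (hPF : PairRatC p k)
    {E : IntermediateField k Ω} (ht : T3c p v E fun _ _ _ _ _ _ _ => True) :
    TPn p v 2 E ∨ STc p v E := by
  obtain ⟨Ω', iF, iA, ι, v', iC, h2, h3, X, y, s, h4, -⟩ := ht
  have : CharP Ω' p := charP_of_injective_algebraMap (algebraMap k Ω').injective p
  have hx' : Ctx k v' 1 := h3.ctx h
  have key : HasTPn p v' (TWC.CP (k := k) v' (X 0) y) → TPn p v 2 E := fun h5 =>
    ⟨Ω', iF, iA, ι, v', iC, h2, h3, fun N => h5.ptn hx' h4.tow N⟩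
  by_cases hr : RatR (v' (X 0)) s
  · exact Or.inl (key (hPF Ω' v' hx' h2 X y s h4.base hr))
  · rcases h4.base.hasTPn hx'.toCtx0 h2 hr with h5 | h5
    · exact Or.inl (key h5)
    · obtain ⟨D, u, ρ, w, t, h6⟩ := TWS7.T3.stow p hx' h2 h4 h5 hr
      exact Or.inr ⟨Ω', iF, iA, ι, v', iC, h2, h3, _, _, _, _, _, _, _, _, h4.base.ne,
        h4.base.neg.ne, h6⟩

/-! ### The value group -/

section Div

variable {p : ℕ} {k Ω : Type u} [Field k] [Field Ω] [Algebra k Ω] {v : RVal Ω}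
  {E K : IntermediateField k Ω}

theorem pdiv_iff_vg [hp : Fact p.Prime] : PDiv p v E ↔ ∀ g ∈ TWS.VG v E, g / p ∈ TWS.VG v E := by
  have hp0 : (p : ℝ) ≠ 0 := by exact_mod_cast hp.out.ne_zero
  constructor
  · rintro h _ ⟨f, hf, hf0, rfl⟩
    obtain ⟨g, hg, hg0, h1⟩ := h f hf hf0
    rw [h1, mul_div_cancel_left₀ _ hp0]
    exact ⟨g, hg, hg0, rfl⟩
  · intro h f hf hf0
    obtain ⟨g, hg, hg0, h1⟩ := h _ (TWS.VG.self hf hf0)
    exact ⟨g, hg, hg0, by rw [h1, mul_div_cancel₀ _ hp0]⟩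

theorem pdiv_isg [hp : Fact p.Prime] (h : Isg p E K) (hK : PDiv p v K) : PDiv p v E := by
  have hp0 : (p : ℝ) ≠ 0 := by exact_mod_cast hp.out.ne_zero
  obtain ⟨e, h1, h2⟩ := h
  have key : ∀ (n : ℕ) (f : Ω), f ∈ K → f ≠ 0 → ∃ g ∈ K, g ≠ 0 ∧ v f = (p : ℝ) ^ n * v g := by
    intro n
    induction n with
    | zero => exact fun f hf hf0 => ⟨f, hf, hf0, by rw [pow_zero, one_mul]⟩
    | succ n ih =>
      intro f hf hf0
      obtain ⟨g, hg, hg0, h3⟩ := ih f hf hf0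
      obtain ⟨g', hg', hg0', h4⟩ := hK g hg hg0
      exact ⟨g', hg', hg0', by rw [h3, h4, pow_succ, mul_assoc]⟩
  intro f hf hf0
  obtain ⟨g, hg, hg0, h3⟩ := key (e + e + 1) _ (h1 f hf) (pow_ne_zero _ hf0)
  refine ⟨g ^ p ^ e, h2 g hg, pow_ne_zero _ hg0, ?_⟩
  rw [v.map_pow hf0] at h3
  rw [v.map_pow hg0]
  push_cast at h3 ⊢
  have h4 : (p : ℝ) ^ e ≠ 0 := pow_ne_zero _ hp0
  refine mul_left_cancel₀ h4 ?_
  rw [h3]
  ring

theorem pdiv_t3c [hp : Fact p.Prime] (ht : T3c p v E fun _ _ _ _ _ _ _ => True) :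
    PDiv p v E := by
  obtain ⟨Ω', iF, iA, ι, v', iC, h2, h3, X, y, s, h4, -⟩ := ht
  have hI : TWS.IsoE v v' ι := ⟨h3.val⟩
  rw [pdiv_iff_vg]
  have e1 : TWS.VG v E = TWS.VG v' (TWC.CP (k := k) v' (X 0) y) := by
    rw [← TWS.VG.imm h4.tow.imm, TWS.VG.clI, TWC.vg_map hI]
  rw [e1]
  exact h4.base.div

end Div

/-- **The strict leaf**: `MobQ0` on the isogeny class of the strict towers, for the fields whose
value group is divisible by `p`. -/
def StrLeafM (p : ℕ) (k : Type u) [Field k] : Prop :=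
  CritM p k fun Ω _ _ _ v E => PDiv p v E ∧ QIso p (fun _ _ _ _ v E => STc p v E) Ω v E

/-- **`MobQ0` on the isogeny class of the towers over `cl k(x, y)`.** -/
theorem critM_t3 (p : ℕ) [Fact p.Prime] (k : Type u) [Field k] [IsAlgClosed k] [CharP k p]
    (hPF : PairRatC p k) (hS : StrLeafM p k) : CritM p k (QIso p (QT3 p k)) := by
  intro Ω _ _ _ _ v hc K₀ hK hΩ htr hBDK hH hL hlow hQ g hgK hg hBD
  obtain ⟨K₁, h1, h2, h3⟩ := hQ
  rcases tpn_or_stc hc hPF h3 with h4 | h4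
  · exact (crit4_pn p k).toM Ω v hc K₀ hK hΩ htr hBDK hH hL hlow (tpn_isg hc h2 h4) g hgK hg hBD
  · exact hS Ω v hc K₀ hK hΩ htr hBDK hH hL hlow
      ⟨pdiv_isg h2 (pdiv_t3c h3), K₁, h1, h2, h4⟩ g hgK hg hBD

/-- **Log uniformization of the fields isogenous to a tower over `cl k(x, y)`.** -/
theorem lus_of_t3M (p : ℕ) [Fact p.Prime] {k Ω : Type u} [Field k] [IsAlgClosed k] [CharP k p]
    [Field Ω] [Algebra k Ω] [IsAlgClosed Ω] {v : RVal Ω} (hPF : PairRatC p k)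
    (hS : StrLeafM p k) (h : Ctx k v 1) {E : IntermediateField k Ω}
    (hE : E.FG) (hΩ : ∀ g : Ω, IsAlgebraic E g) (htr : Algebra.trdeg k E = (4 : ℕ))
    (hBD : BD p v E) (hQ : QIso p (QT3 p k) Ω v E) :
    LUs v (algebraMap k Ω).range E.toSubfield := by
  have : CharP Ω p := charP_of_injective_algebraMap (algebraMap k Ω).injective p
  exact lus_of_herM p (critM_t3 p k hPF hS) h hE hΩ htr hBD (her_iso hQ)

end Pool.Agent.TW
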