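import Pool.Agent.Lib.TWC.HandH
import Pool.Agent.Lib.TWC.PFi

/-!
# TANK W, dimension 4: the valuations whose completion is isogenous to a tower, first floor not
strict

* `T3ns`: the towers over `cl k(x, y)` whose first floor has a rational radius or is not strict;
* `tpn_of_t3ns`: they give `TPn`, no open hypothesis;
* `IsoTower`: the class of valuation rings;
* `exists_smooth_centres_iso`, `logUniformizable_iso`: the geometric statements.
-/

set_option autoImplicit false

open AlgebraicGeometry CategoryTheory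

namespace Pool.Agent.TW

open Pool.Agent.LU2 Pool.Agent.LU2G Pool.Agent.LU2H
open Pool.Agent.H15JM (RVal)
open Pool.Agent.D2P (clI)
open Pool.Agent.TWM
open Pool.Agent.TWS (TowR)
open Pool.Agent.TWC (T2 RatR StrF HasTPn TPn PairRatC)

universe u

/-- `M` is a tower with two floors over `cl k(x, y)`; the floor of `y` has a rational radius, or it
is not strict. -/
def T3ns (p : ℕ) (k : Type u) [Field k] : CProp k := fun Ω _ _ v M =>
  ∃ (X : ℕ → Ω) (y : Ω) (s : ℝ), T2 p k v X y s ∧ TowR v 2 (TWC.CP (k := k) v (X 0) y) M ∧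
    (RatR (v (X 0)) s ∨ ¬ StrF k v X y s)

/-- **`TPn`, no open hypothesis.** -/
theorem tpn_of_t3ns {p : ℕ} [Fact p.Prime] {k Ω : Type u} [Field k] [IsAlgClosed k] [CharP k p]
    [Field Ω] [Algebra k Ω] {v : RVal Ω} {E : IntermediateField k Ω} (h : Ctx k v 1)
    (ht : ClC p (T3ns p k) v E) : TPn p v 2 E := by
  obtain ⟨Ω', iF, iA, ι, v', iC, h2, h3, M, h4, h5, X, y, s, h6, h7, h8⟩ := ht
  have : CharP Ω' p := charP_of_injective_algebraMap (algebraMap k Ω').injective p
  have hx' : Ctx k v' 1 := h3.ctx h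
  have key : HasTPn p v' (TWC.CP (k := k) v' (X 0) y) → TPn p v 2 E := fun h8 =>
    ⟨Ω', iF, iA, ι, v', iC, h2, h3,
      fun N => ptn_isg hx' h2 (cld_clI _ _) h4 h5 (fun N => h8.ptn hx' h7 N) N⟩
  by_cases hr : RatR (v' (X 0)) s
  · exact key (TWC.PF.pairRatC p k Ω' v' hx' h2 X y s h6 hr)
  · rcases h6.hasTPn hx'.toCtx0 h2 hr with h9 | h9
    · exact key h9
    · rcases h8 with h8 | h8
      · exact absurd h8 hr
      · exact absurd h9 h8

/-- The valuation ring `V` of `K` has rank one and residue field `k`, `K` has transcendence degree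
four over `k`, and, for the algebraic closure `Ω` of `K` with any real valuation `v`, of rational
rank one, that induces `V`: the closure of `K` in the completion of `Ω` is isogenous to a closed
field which is a tower with two floors over `cl k(x, y)`, and the floor of `y` has a rational radius
or is not strict (`T3ns`). -/
structure IsoTower (p : ℕ) {k K : Type u} [Field k] [Field K] [Algebra k K]
    (V : ValuationSubring K) : Prop where
  rank : IsR1 V
  res : ∀ f ∈ V, ∃ c : k, V.valuation (f - algebraMap k K c) < 1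
  trdeg : Algebra.trdeg k K = (4 : ℕ)
  tower : ∀ (Ω : Type u) [Field Ω] [Algebra k Ω] [IsAlgClosed Ω] (v : RVal Ω)
    (L : IntermediateField k Ω) (e : K ≃ₐ[k] L), Ctx k v 1 →
      (∀ g : K, g ≠ 0 → (g ∈ V ↔ 0 ≤ v (e g : Ω))) → (∀ g : Ω, IsAlgebraic L g) →
        ClC p (T3ns p k) v L

theorem IsoTower.realProp {p : ℕ} [Fact p.Prime] {k K : Type u} [Field k] [IsAlgClosed k]
    [CharP k p] [Field K] [Algebra k K] {V : ValuationSubring K} (h : IsoTower (k := k) p V)
    (hK : (⊤ : IntermediateField k K).FG) : RealProp p (QPN p k) V where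
  rank := h.rank
  res := h.res
  trdeg := h.trdeg
  prop Ω _ _ _ v L e hc he halg := by
    have : CharP Ω p := charP_of_injective_algebraMap (algebraMap k Ω).injective p
    have h1 := tpn_of_t3ns hc (h.tower Ω v L e hc he halg)
    exact ⟨TWC.bd_of_tp (m := 2) (fg_of_equiv hK e) (e.trdeg_eq.symm.trans h.trdeg) h1.tpc,
      her_pn hc h1⟩

/-- The geometric statement. -/
theorem exists_smooth_centres_iso (p : ℕ) [Fact p.Prime] (k : Type) [Field k] [IsAlgClosed k]
    [CharP k p] (X : Scheme.{0}) [IsIntegral X] (f : X ⟶ Spec (CommRingCat.of k))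
    [LocallyOfFiniteType f] (m : ℕ) (V : Fin m → ValuationSubring X.functionField)
    (hV : ∀ i, @IsoTower p k X.functionField _ _ (consts f).toAlgebra (V i))
    (c : ∀ i, Spec (CommRingCat.of (V i)) ⟶ X)
    (hc : ∀ i, Spec.map (CommRingCat.ofHom (algebraMap (V i) X.functionField)) ≫
      c i = X.fromSpecStalk (genericPoint X)) :
    ∃ (Y : Scheme.{0}) (π : Y ⟶ X), IsIntegral Y ∧ IsProper π ∧
      (∀ W : X.Opens, (∀ (i : Fin m) (V' : ValuationSubring X.functionField) (h : V i ≤ V'),
        V' ≠ ⊤ → (coarser h ≫ c i) (IsLocalRing.closedPoint V') ∈ W →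
          IsSmoothAt f ((coarser h ≫ c i) (IsLocalRing.closedPoint V'))) → IsIso (π ∣_ W)) ∧
      ∀ i, ∃ c' : Spec (CommRingCat.of (V i)) ⟶ Y, c' ≫ π = c i ∧
        IsSmoothAt (π ≫ f) (c' (IsLocalRing.closedPoint (V i))) :=
  exists_smooth_centres_prop p k (crit4_pn p k).toM X f m V
    (fun i hK => (let _ : Algebra k X.functionField := (consts f).toAlgebra
      (hV i).realProp hK)) c hc

/-- The statement for affine models. -/
theorem logUniformizable_iso (p : ℕ) [Fact p.Prime] (k : Type) [Field k] [IsAlgClosed k]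
    [CharP k p] (A : Type) [CommRing A] [IsDomain A] [Algebra k A] [Algebra.EssFiniteType k A]
    (V : ValuationSubring (FractionRing A)) (hV : ∀ a : A, algebraMap A (FractionRing A) a ∈ V)
    (h : IsoTower (k := k) p V) : LU2G.LogUniformizable V :=
  logUniformizable_prop p k (crit4_pn p k).toM A V hV h.realProp

end Pool.Agent.TW
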