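import Pool.Agent.Lib.TWM.A2

/-!
# TANK W, R2 (henselian rationality over a perfect base, in one variable), part A: polynomials

`Lam p N f = ∑_{i ≤ N} (D^[p^i] f)^(p^(N-i))`, an additive function of the polynomial `f`.
* `lam_wp`: it kills `g ^ p - g`, `deg g < p ^ N`;
* `taylor_lam`: it commutes with the translations;
* `coeff_lam`: if the exponents divisible by `p` do not occur in `F` (except the exponent `0`), the
  coefficient of index `(j - 1) p ^ N` of `Lam F` is `(j F_j) ^ (p ^ N)`;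
* `exists_redP`: every polynomial over a perfect field is `F + (g ^ p - g)` with such an `F`.
-/

set_option autoImplicit false

open Polynomial

namespace Pool.Agent.TWC

universe u

section Alg

variable {Ω : Type u} [Field Ω] (p : ℕ) [hp : Fact p.Prime] [CharP Ω p]

/-- coefficients of a `p`-th power -/
theorem coeff_pow_p (f : (Polynomial Ω)) (n : ℕ) :
    (f ^ p).coeff n = if p ∣ n then f.coeff (n / p) ^ p else 0 := by
  rw [← map_frobenius_expand, coeff_map, coeff_expand hp.out.pos]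
  split_ifs with h
  · rfl
  · rw [map_zero]

theorem coeff_pow_p_mul (f : (Polynomial Ω)) (n : ℕ) : (f ^ p).coeff (p * n) = f.coeff n ^ p := by
  rw [coeff_pow_p, if_pos (dvd_mul_right p n), Nat.mul_div_cancel_left _ hp.out.pos]

theorem coeff_pow_pp (f : (Polynomial Ω)) (m n : ℕ) :
    (f ^ p ^ m).coeff (n * p ^ m) = f.coeff n ^ p ^ m := by
  induction m with
  | zero => rw [pow_zero, pow_one, mul_one, pow_one]
  | succ m ih =>
    rw [pow_succ, pow_mul, show n * (p ^ m * p) = p * (n * p ^ m) by ring, coeff_pow_p_mul, ih,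
      ← pow_mul]

theorem cast_choose_mul (n m : ℕ) : (((p * n).choose (p * m) : ℕ) : Ω) = (n.choose m : Ω) := by
  have h1 := Choose.choose_modEq_choose_mod_mul_choose_div_nat (n := p * n) (k := p * m) (p := p)
  rw [Nat.mul_mod_right, Nat.mul_mod_right, Nat.mul_div_cancel_left _ hp.out.pos,
    Nat.mul_div_cancel_left _ hp.out.pos, Nat.choose_self, one_mul] at h1
  exact (CharP.cast_eq_iff_mod_eq Ω p).2 h1

theorem cast_choose_zero {n m : ℕ} (hm : ¬ p ∣ m) : (((p * n).choose m : ℕ) : Ω) = 0 := by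
  have h1 := Choose.choose_modEq_choose_mod_mul_choose_div_nat (n := p * n) (k := m) (p := p)
  have h2 : 0 < m % p := Nat.pos_of_ne_zero fun h => hm (Nat.dvd_of_mod_eq_zero h)
  rw [Nat.mul_mod_right, Nat.choose_eq_zero_of_lt h2, zero_mul] at h1
  rw [CharP.cast_eq_zero_iff Ω p]
  exact (Nat.modEq_zero_iff_dvd).1 h1

theorem cast_pow_p (n : ℕ) : (n : Ω) ^ p = n := by
  have h := map_natCast (frobenius Ω p) n
  rwa [frobenius_def] at h

theorem cast_pow_pp (n m : ℕ) : (n : Ω) ^ p ^ m = n := by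
  induction m with
  | zero => rw [pow_zero, pow_one]
  | succ m ih => rw [pow_succ, pow_mul, ih, cast_pow_p]

/-- Hasse derivatives of a `p`-th power -/
theorem hasse_pow_p (g : (Polynomial Ω)) (m : ℕ) : hasseDeriv (p * m) (g ^ p) = (hasseDeriv m g) ^ p := by
  ext n
  rw [hasseDeriv_coeff, coeff_pow_p, coeff_pow_p]
  by_cases hn : p ∣ n
  · obtain ⟨n, rfl⟩ := hn
    rw [if_pos (dvd_mul_right p n), ← mul_add, if_pos (dvd_mul_right p _),
      Nat.mul_div_cancel_left _ hp.out.pos, Nat.mul_div_cancel_left _ hp.out.pos, hasseDeriv_coeff,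
      cast_choose_mul, mul_pow, cast_pow_p]
  · rw [if_neg hn, if_neg, mul_zero]
    intro h
    exact hn ((Nat.dvd_add_left (dvd_mul_right p m)).1 h)

theorem hasse_pow_zero (g : (Polynomial Ω)) {m : ℕ} (hm : ¬ p ∣ m) : hasseDeriv m (g ^ p) = 0 := by
  ext n
  rw [hasseDeriv_coeff, coeff_pow_p, coeff_zero]
  split_ifs with h
  · obtain ⟨l, hl⟩ := h
    rw [hl, cast_choose_zero p hm, zero_mul]
  · rw [mul_zero]

theorem hasse_big (g : (Polynomial Ω)) {m : ℕ} (hm : g.natDegree < m) : hasseDeriv m g = 0 := by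
  ext n
  rw [hasseDeriv_coeff, coeff_eq_zero_of_natDegree_lt (by omega), mul_zero, coeff_zero]

theorem taylor_hasseP (r : Ω) (n : ℕ) (f : (Polynomial Ω)) :
    taylor r (hasseDeriv n f) = hasseDeriv n (taylor r f) := by
  ext m
  rw [hasseDeriv_coeff, taylor_coeff, taylor_coeff]
  have h1 := congrArg (fun L => L f) (hasseDeriv_comp (R := Ω) m n)
  simp only [LinearMap.comp_apply, LinearMap.smul_apply] at h1
  rw [h1, eval_smul, nsmul_eq_mul]
  congr 2
  rw [← Nat.choose_symm (by omega : m ≤ m + n), Nat.add_sub_cancel_left]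

/-- the operator `Λ` -/
noncomputable def Lam (N : ℕ) (f : (Polynomial Ω)) : Polynomial Ω :=
  ∑ i ∈ Finset.range (N + 1), (hasseDeriv (p ^ i) f) ^ p ^ (N - i)

theorem lam_add (N : ℕ) (f g : (Polynomial Ω)) : Lam p N (f + g) = Lam p N f + Lam p N g := by
  rw [Lam, Lam, Lam, ← Finset.sum_add_distrib]
  exact Finset.sum_congr rfl fun i _ => by rw [map_add, add_pow_char_pow]

theorem lam_sub (N : ℕ) (f g : (Polynomial Ω)) : Lam p N (f - g) = Lam p N f - Lam p N g := by
  rw [Lam, Lam, Lam, ← Finset.sum_sub_distrib]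
  exact Finset.sum_congr rfl fun i _ => by rw [map_sub, sub_pow_char_pow]

theorem lam_pow (N : ℕ) {g : (Polynomial Ω)} (hg : g.natDegree < p ^ N) : Lam p N (g ^ p) = Lam p N g := by
  rw [Lam, Lam, Finset.sum_range_succ', Finset.sum_range_succ]
  have h1 : hasseDeriv (p ^ 0) (g ^ p) = 0 := by
    rw [pow_zero]
    exact hasse_pow_zero p g fun h => hp.out.one_lt.ne' (Nat.dvd_one.1 h)
  have h2 : hasseDeriv (p ^ N) g = 0 := hasse_big g hg
  rw [h1, h2, zero_pow (pow_ne_zero _ hp.out.ne_zero), add_zero,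
    zero_pow (pow_ne_zero _ hp.out.ne_zero), add_zero]
  refine Finset.sum_congr rfl fun i hi => ?_
  rw [pow_succ' p i, hasse_pow_p, ← pow_mul, ← pow_succ' p]
  congr 2
  have := Finset.mem_range.1 hi
  omega

theorem lam_wp (N : ℕ) {g : (Polynomial Ω)} (hg : g.natDegree < p ^ N) : Lam p N (g ^ p - g) = 0 := by
  rw [lam_sub, lam_pow p N hg, sub_self]

omit hp [CharP Ω p] in
theorem taylor_lam (N : ℕ) (r : Ω) (f : (Polynomial Ω)) : taylor r (Lam p N f) = Lam p N (taylor r f) := by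
  rw [Lam, Lam, map_sum]
  exact Finset.sum_congr rfl fun i _ => by rw [taylor_pow, taylor_hasseP]

/-- the coefficients of `Λ F`, if the exponents divisible by `p` do not occur in `F` -/
theorem coeff_lam (N : ℕ) {F : (Polynomial Ω)} (hF : ∀ l, 1 ≤ l → F.coeff (p * l) = 0) {j : ℕ}
    (hj : 1 ≤ j) : (Lam p N F).coeff ((j - 1) * p ^ N) = (j * F.coeff j) ^ p ^ N := by
  rw [Lam, finsetSum_coeff, Finset.sum_eq_single 0]
  · rw [pow_zero, Nat.sub_zero, coeff_pow_pp, hasseDeriv_coeff, Nat.sub_add_cancel hj,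
      Nat.choose_one_right]
  · intro i hi hi0
    have h1 : i ≤ N := Nat.lt_succ_iff.1 (Finset.mem_range.1 hi)
    have h2 : (j - 1) * p ^ N = (j - 1) * p ^ i * p ^ (N - i) := by
      rw [mul_assoc, ← pow_add, Nat.add_sub_cancel' h1]
    rw [h2, coeff_pow_pp, hasseDeriv_coeff]
    have h3 : (j - 1) * p ^ i + p ^ i = j * p ^ i := by
      rw [← Nat.succ_mul, Nat.succ_eq_add_one, Nat.sub_add_cancel hj]
    obtain ⟨i, rfl⟩ := Nat.exists_eq_succ_of_ne_zero hi0
    have h4 : j * p ^ i.succ = p * (j * p ^ i) := by rw [pow_succ]; ring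
    rw [h3, h4, hF _ (Nat.mul_pos hj (pow_pos hp.out.pos _)), mul_zero,
      zero_pow (pow_ne_zero _ hp.out.ne_zero)]
  · intro h
    exact absurd (Finset.mem_range.2 (Nat.succ_pos N)) h

end Alg

section Red

open Pool.Agent.TWM

variable {k Ω : Type u} [Field k] [Field Ω] [Algebra k Ω] (p : ℕ) [hp : Fact p.Prime] [CharP Ω p]
  {P : IntermediateField k Ω}

omit hp [CharP Ω p] in
theorem lam_mem (N : ℕ) {f : (Polynomial Ω)} (hf : f ∈ PI P) : Lam p N f ∈ PI P :=
  sum_mem fun _ _ => pow_mem (hasse_mem_PI hf _) _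

/-- **Reduction**: the exponents divisible by `p` are removed. -/
theorem exists_redP (hP : ∀ a ∈ P, ∃ b ∈ P, b ^ p = a) :
    ∀ (d : ℕ) (G : (Polynomial Ω)), G.natDegree ≤ d → G ∈ PI P → ∃ F ∈ PI P, ∃ g ∈ PI P,
      G = F + (g ^ p - g) ∧ (∀ l, 1 ≤ l → F.coeff (p * l) = 0) ∧ F.natDegree ≤ d ∧
      g.natDegree ≤ d := by
  classical
  choose! ρ hρ1 hρ2 using hP
  intro d
  induction d using Nat.strong_induction_on with
  | _ d ih =>
  intro G hG hGP
  rcases Nat.eq_zero_or_pos d with rfl | hd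
  · refine ⟨G, hGP, 0, zero_mem _, ?_, fun l hl => ?_, hG, by simp⟩
    · rw [zero_pow hp.out.ne_zero, sub_zero, add_zero]
    · exact coeff_eq_zero_of_natDegree_lt (by
        have := Nat.mul_pos hp.out.pos hl
        omega)
  -- the two parts
  let F₀ : Polynomial Ω := ∑ m ∈ Finset.range (d + 1), monomial m (if p ∣ m ∧ m ≠ 0 then 0 else G.coeff m)
  let G₁ : Polynomial Ω := ∑ l ∈ Finset.Icc 1 (d / p), monomial l (ρ (G.coeff (p * l)))
  have hF₀ : ∀ m, F₀.coeff m = if p ∣ m ∧ m ≠ 0 then 0 else G.coeff m := by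
    intro m
    simp only [F₀, finsetSum_coeff, coeff_monomial, Finset.sum_ite_eq', Finset.mem_range]
    split_ifs with h1 h2 h2
    · rfl
    · rfl
    · rfl
    · exact (coeff_eq_zero_of_natDegree_lt (by omega)).symm
  have hG₁ : ∀ l, G₁.coeff l = if 1 ≤ l ∧ l ≤ d / p then ρ (G.coeff (p * l)) else 0 := by
    intro l
    simp only [G₁, finsetSum_coeff, coeff_monomial, Finset.sum_ite_eq', Finset.mem_Icc]
  have hF₀P : F₀ ∈ PI P := fun m => by
    rw [hF₀]
    split_ifs
    exacts [zero_mem _, hGP _]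
  have hG₁P : G₁ ∈ PI P := fun l => by
    rw [hG₁]
    split_ifs
    exacts [hρ1 _ (hGP _), zero_mem _]
  have hsum : G = F₀ + G₁ ^ p := by
    ext m
    rw [coeff_add, hF₀, coeff_pow_p, hG₁]
    by_cases hm : p ∣ m
    · obtain ⟨l, rfl⟩ := hm
      rw [if_pos (dvd_mul_right p l), Nat.mul_div_cancel_left _ hp.out.pos]
      rcases Nat.eq_zero_or_pos l with rfl | hl
      · simp [hp.out.ne_zero]
      · have h1 : p * l ≠ 0 := (Nat.mul_pos hp.out.pos hl).ne'
        rw [if_pos ⟨dvd_mul_right p l, h1⟩, zero_add]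
        by_cases hl2 : l ≤ d / p
        · rw [if_pos ⟨hl, hl2⟩, hρ2 _ (hGP _)]
        · rw [if_neg fun h => hl2 h.2, zero_pow hp.out.ne_zero]
          refine coeff_eq_zero_of_natDegree_lt (lt_of_le_of_lt hG ?_)
          rw [not_le, Nat.div_lt_iff_lt_mul hp.out.pos] at hl2
          rwa [mul_comm]
    · rw [if_neg hm, if_neg fun h => hm h.1, add_zero]
  have hdp : d / p < d := Nat.div_lt_self hd hp.out.one_lt
  have hG₁d : G₁.natDegree ≤ d / p := by
    refine natDegree_sum_le_of_forall_le _ _ fun l hl => ?_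
    exact (natDegree_monomial_le _).trans (Finset.mem_Icc.1 hl).2
  obtain ⟨F₁, hF₁, g₁, hg₁, h1, h2, h3, h4⟩ := ih _ hdp G₁ hG₁d hG₁P
  refine ⟨F₀ + F₁, add_mem hF₀P hF₁, g₁ + G₁, add_mem hg₁ hG₁P, ?_, fun l hl => ?_, ?_, ?_⟩
  · rw [add_pow_char]
    calc G = F₀ + G₁ ^ p := hsum
      _ = F₀ + (G₁ ^ p - G₁) + G₁ := by ring
      _ = F₀ + (G₁ ^ p - G₁) + (F₁ + (g₁ ^ p - g₁)) := by rw [← h1]
      _ = _ := by ring
  · have h5 : p * l ≠ 0 := (Nat.mul_pos hp.out.pos hl).ne'
    rw [coeff_add, hF₀, if_pos ⟨dvd_mul_right p l, h5⟩, h2 l hl, add_zero]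
  · refine (natDegree_add_le _ _).trans (max_le ?_ (h3.trans hdp.le))
    exact natDegree_sum_le_of_forall_le _ _ fun m hm =>
      (natDegree_monomial_le _).trans (Nat.lt_succ_iff.1 (Finset.mem_range.1 hm))
  · exact (natDegree_add_le _ _).trans (max_le (h4.trans hdp.le) (hG₁d.trans hdp.le))

end Red

end Pool.Agent.TWC
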