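import Pool.Agent.Lib.TWC.HratA
import Pool.Agent.Lib.TWM.C1
import Pool.Agent.Lib.D2P.R0

/-!
# TANK W, R2, part B: the normal form of an Artin-Schreier class of `P<w>`

`P` perfect, `w` of transcendental type over `P`, of radius `s`: every `a ∈ P<w>` is
`(g ^ p - g) + b₀ + b₁ w + e`, `g ∈ P<w>`, `b₀, b₁ ∈ P`, `v e > v b₁ + s`, or `(g ^ p - g) + b₀`.
-/

set_option autoImplicit false

open Polynomial

namespace Pool.Agent.TWC

open Pool.Agent.H15JM (RVal)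
open Pool.Agent.LU1 (VPos adj)
open Pool.Agent.D2 (Ctx0)
open Pool.Agent.D2P (hen clI mem_clI)
open Pool.Agent.TWM

universe u

section Str

variable {Ω : Type u} [Field Ω] {v : RVal Ω} {s : ℝ} {G : Polynomial Ω}

/-- A strict polynomial: the bounds for the Hasse derivatives hold near the centre. -/
theorem Str_near (h : Str v s G) :
    ∃ δ : ℝ, 0 < δ ∧ ∀ t, v.Ge (s - δ) t → v.Ge (v (G.coeff 0) + δ) (G.eval t - G.coeff 0) ∧
      ∀ l : ℕ, 1 ≤ l → v.Ge (v (G.coeff 0) + δ - l * (s - δ)) ((taylor t G).coeff l) := by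
  obtain ⟨δ, hδ, h1⟩ := h.exists_delta (Finset.Icc 1 G.natDegree)
    fun l hl => (Finset.mem_Icc.1 hl).1
  obtain ⟨δ', hδ', h2⟩ := h.near
  refine ⟨min δ δ', lt_min hδ hδ', fun t ht => ⟨?_, fun l hl => ?_⟩⟩
  · refine (h2 t (ht.mono ?_)).mono ?_
    · have := min_le_right δ δ'
      linarith
    · have := min_le_right δ δ'
      linarith
  · rw [taylor_coeff, hasseDeriv_apply, Polynomial.sum_def, eval_finsetSum]
    refine RVal.Ge.sum _ _ fun m hm => ?_
    rw [eval_monomial]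
    by_cases hlm : m < l
    · rw [Nat.choose_eq_zero_of_lt hlm, Nat.cast_zero, zero_mul, zero_mul]
      exact RVal.Ge.zero
    rw [not_lt] at hlm
    have hm1 : m ∈ Finset.Icc 1 G.natDegree :=
      Finset.mem_Icc.2 ⟨hl.trans hlm, le_natDegree_of_mem_supp m hm⟩
    have h3 := RVal.Ge.mul (RVal.Ge.mul (ge_natCast v (m.choose l)) (h1 m hm1)) (ge_pow ht (m - l))
    refine h3.mono ?_
    have h4 : ((m - l : ℕ) : ℝ) = m - l := by rw [Nat.cast_sub hlm]
    rw [h4]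
    have h5 := min_le_left δ δ'
    have h6 : (l : ℝ) ≤ m := by exact_mod_cast hlm
    have h7 : (0 : ℝ) ≤ l := by positivity
    nlinarith

end Str

section NF

variable {k Ω : Type u} [Field k] [Field Ω] [Algebra k Ω] {v : RVal Ω} (p : ℕ) [hp : Fact p.Prime]
  [CharP Ω p] {P : IntermediateField k Ω} {w : Ω} {s : ℝ}

/-- The normal form, for a polynomial. -/
theorem poly_nf [IsAlgClosed Ω] (hw : TL v P w s) (hP : ∀ a ∈ P, ∃ b ∈ P, b ^ p = a)
    {f : Polynomial Ω} (hf : f ∈ PI P) :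
    ∃ g ∈ PI P, ∃ b₀ ∈ P, (f.eval w - (g.eval w ^ p - g.eval w) = b₀) ∨
      ∃ b₁ ∈ P, b₁ ≠ 0 ∧ Gt v (v b₁ + s) (f.eval w - (g.eval w ^ p - g.eval w) - (b₀ + b₁ * w)) := by
  set N := f.natDegree with hN
  have hdeg : ∀ g : Polynomial Ω, g.natDegree ≤ N → g.natDegree < p ^ N := fun g hg =>
    lt_of_le_of_lt hg (Nat.lt_pow_self hp.out.one_lt)
  have hpN : (0 : ℝ) < (p ^ N : ℕ) := by exact_mod_cast pow_pos hp.out.pos N
  set h := Lam p N f with hh
  have hhP : h ∈ PI P := lam_mem p N hf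
  have hpp : p ^ N ≠ 0 := pow_ne_zero _ hp.out.ne_zero
  by_cases h0 : h = 0
  · -- all the coefficients vanish
    obtain ⟨F, hF, g, hg, h1, h2, h3, h4⟩ := exists_redP p hP N f le_rfl hf
    have h5 : Lam p N F = 0 := by
      have h6 : Lam p N f = Lam p N F := by
        rw [h1, lam_add, lam_wp p N (hdeg g h4), add_zero]
      rw [← h6, ← hh, h0]
    have hFj : ∀ j, 1 ≤ j → F.coeff j = 0 := by
      intro j hj
      by_cases hpj : p ∣ j
      · obtain ⟨l, rfl⟩ := hpj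
        exact h2 l (Nat.pos_of_ne_zero fun h => by rw [h, mul_zero] at hj; omega)
      · have h6 := coeff_lam p N h2 hj
        rw [h5, coeff_zero] at h6
        have h7 := pow_eq_zero_iff hpp |>.1 h6.symm
        exact (mul_eq_zero.1 h7).resolve_left (val_natCast (Ω := Ω) (v := v) p hpj).1
    have hFC : F = C (F.coeff 0) := by
      refine eq_C_of_natDegree_eq_zero ?_
      by_contra hne
      have h6 := hFj _ (Nat.one_le_iff_ne_zero.2 hne)
      rw [← leadingCoeff, leadingCoeff_eq_zero] at h6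
      rw [h6, natDegree_zero] at hne
      exact hne rfl
    refine ⟨g, hg, F.coeff 0, hF 0, Or.inl ?_⟩
    have h6 : f.eval w = F.eval w + (g.eval w ^ p - g.eval w) := by
      conv_lhs => rw [h1]
      rw [eval_add, eval_sub, eval_pow]
    rw [h6, add_sub_cancel_right]
    conv_lhs => rw [hFC]
    rw [eval_C]
  -- a centre near `w`
  obtain ⟨δ, hδ, hnear⟩ := Str_near (hw.str' hhP h0)
  have hN1 : (0 : ℝ) < (N + 1 : ℕ) := by positivity
  set δ' := δ / ((N + 1 : ℕ) * (p ^ N : ℕ)) with hδ'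
  have hδ'0 : 0 < δ' := by positivity
  have hδ'1 : δ' * ((N + 1 : ℕ) * (p ^ N : ℕ)) = δ := div_mul_cancel₀ _ (by positivity)
  have hpN1 : (1 : ℝ) ≤ (p ^ N : ℕ) := by exact_mod_cast Nat.one_le_pow _ _ hp.out.pos
  have hN2 : (1 : ℝ) ≤ (N + 1 : ℕ) := by exact_mod_cast Nat.succ_le_succ (Nat.zero_le N)
  have hδδ : δ' ≤ δ := by
    rw [← hδ'1]
    nlinarith [mul_le_mul hN2 hpN1 zero_le_one (by linarith : (0 : ℝ) ≤ (N + 1 : ℕ))]
  obtain ⟨θ, hθP, hθ⟩ := hw.lim δ' hδ'0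
  have ht : v.Ge (s - δ) (θ - w) := (ge_sub_comm hθ).mono (by linarith)
  obtain ⟨hn1, hn2⟩ := hnear _ ht
  rw [taylor_coeff_zero, ← eval_eq_taylor] at hn1
  rw [taylor_coeff_zero] at hn2
  have hhw : h.eval w ≠ 0 := by
    have := (hw.str' hhP h0).ne
    rwa [taylor_coeff_zero] at this
  have htay : taylor (θ - w) (taylor w h) = taylor θ h := by
    rw [taylor_taylor, sub_add_cancel]
  rw [htay] at hn2
  obtain ⟨hhθ, hhv⟩ := Gt.val_eq hhw (Gt.of_ge (ge_sub_comm hn1) (by linarith))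
  -- the reduction at `θ`
  have hGP : taylor θ f ∈ PI P := taylor_mem_PI hf hθP
  have hGd : (taylor θ f).natDegree ≤ N := (natDegree_taylor f θ).le
  obtain ⟨F, hF, g, hg, h1, h2, h3, h4⟩ := exists_redP p hP N _ hGd hGP
  have hLF : taylor θ h = Lam p N F := by
    rw [hh, taylor_lam, h1, lam_add, lam_wp p N (hdeg g h4), add_zero]
  have hF1 : F.coeff 1 ^ p ^ N = h.eval θ := by
    have h6 := coeff_lam p N h2 (le_refl 1)
    rw [Nat.sub_self, zero_mul, ← hLF, taylor_coeff_zero, Nat.cast_one, one_mul] at h6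
    exact h6.symm
  have hF10 : F.coeff 1 ≠ 0 := fun h6 => hhθ (by rw [← hF1, h6, zero_pow hpp])
  have hvF1 : (p ^ N : ℕ) * v (F.coeff 1) = v (h.eval w) := by
    rw [← hhv, ← hF1, v.map_pow hF10]
  set w' := w - θ with hw'
  have hw'v : v.Ge (s - δ') w' := hθ
  -- the evaluation
  have hfw : f.eval w = F.eval w' + (g.eval w' ^ p - g.eval w') := by
    rw [← eval_pow, ← eval_sub, ← eval_add, ← h1, taylor_eval, hw', sub_add_cancel]
  have hFw : F.eval w' - (F.coeff 0 + F.coeff 1 * w') =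
      ∑ j ∈ Finset.Icc 2 N, F.coeff j * w' ^ j := by
    rw [eval_eq_sum_range' (Nat.lt_succ_of_le (h3.trans (Nat.le_succ N)) :
      F.natDegree < N + 2), Finset.sum_range_succ', Finset.sum_range_succ']
    have h6 : ∑ j ∈ Finset.Icc 2 N, F.coeff j * w' ^ j =
        ∑ j ∈ Finset.range N, F.coeff (j + 1 + 1) * w' ^ (j + 1 + 1) := by
      have h7 : Finset.Icc 2 N ⊆ Finset.Icc 2 (N + 1) := Finset.Icc_subset_Icc_right (Nat.le_succ N)
      rw [Finset.sum_subset h7 fun j hj hj' => by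
        have h8 : F.coeff j = 0 := coeff_eq_zero_of_natDegree_lt (by
          rw [Finset.mem_Icc] at hj hj'
          omega)
        rw [h8, zero_mul]]
      rw [show Finset.Icc 2 (N + 1) = Finset.Ico 2 (N + 2) from rfl, Finset.sum_Ico_eq_sum_range]
      refine Finset.sum_congr rfl fun j _ => ?_
      rw [show 2 + j = j + 1 + 1 by omega]
    rw [h6]
    ring
  refine ⟨taylor (-θ) g, taylor_mem_PI hg (neg_mem hθP), F.coeff 0 - F.coeff 1 * θ,
    sub_mem (hF 0) (mul_mem (hF 1) hθP), Or.inr ⟨F.coeff 1, hF 1, hF10, ?_⟩⟩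
  have h6 : f.eval w - ((taylor (-θ) g).eval w ^ p - (taylor (-θ) g).eval w) -
      (F.coeff 0 - F.coeff 1 * θ + F.coeff 1 * w) = ∑ j ∈ Finset.Icc 2 N, F.coeff j * w' ^ j := by
    rw [taylor_eval, ← sub_eq_add_neg, ← hw', hfw, ← hFw, hw']
    ring
  rw [h6]
  refine Gt.sum _ _ fun j hj => ?_
  obtain ⟨hj2, hjN⟩ := Finset.mem_Icc.1 hj
  intro hne
  have hFj : F.coeff j ≠ 0 := left_ne_zero_of_mul hne
  have hw0 : w' ^ j ≠ 0 := right_ne_zero_of_mul hne
  have hpj : ¬ p ∣ j := by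
    rintro ⟨l, rfl⟩
    exact hFj (h2 l (Nat.pos_of_ne_zero fun h => by rw [h, mul_zero] at hj2; omega))
  obtain ⟨hj0, hjv⟩ := val_natCast (Ω := Ω) (v := v) p hpj
  -- the bound for the coefficient
  have hjj : 1 ≤ (j - 1) * p ^ N := Nat.mul_pos (by omega) (pow_pos hp.out.pos N)
  have h7 := hn2 _ hjj
  rw [hLF, coeff_lam p N h2 (by omega : 1 ≤ j)] at h7
  have h8 := h7 (pow_ne_zero _ (mul_ne_zero hj0 hFj))
  rw [v.map_pow (mul_ne_zero hj0 hFj), v.map_mul hj0 hFj, hjv, zero_add] at h8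
  have h9 : v (w' ^ j) ≥ j * (s - δ') := ge_pow hw'v j hw0
  rw [v.map_mul hFj hw0]
  have h10 : (((j - 1) * p ^ N : ℕ) : ℝ) = (j - 1) * (p ^ N : ℕ) := by
    rw [Nat.cast_mul, Nat.cast_sub (by omega : 1 ≤ j), Nat.cast_one]
  rw [h10, ← hvF1] at h8
  have h11 : (j : ℝ) ≤ N := by exact_mod_cast hjN
  have h12 : (2 : ℝ) ≤ j := by exact_mod_cast hj2
  have h13 : ((N + 1 : ℕ) : ℝ) = N + 1 := by push_cast; ring
  rw [h13] at hδ'1
  -- `p ^ N (v F_j - v F_1 + (j - 1) s) ≥ δ + (j - 1) p ^ N δ`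
  have h14 : (p ^ N : ℕ) * (v (F.coeff j) - v (F.coeff 1) + (j - 1) * s - (j - 1) * δ) ≥ δ := by
    nlinarith [h8]
  have h15 : (p ^ N : ℕ) * (j * δ') < δ := by
    rw [← hδ'1]
    have : (p ^ N : ℕ) * δ' > 0 := mul_pos hpN hδ'0
    nlinarith
  have h16 : (p ^ N : ℕ) * (j * δ') < (p ^ N : ℕ) *
      (v (F.coeff j) - v (F.coeff 1) + (j - 1) * s - (j - 1) * δ) := h15.trans_le h14
  have h17 := lt_of_mul_lt_mul_left h16 hpN.le
  have h18 : (0 : ℝ) ≤ (j - 1) * δ := mul_nonneg (by linarith) hδ.le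
  nlinarith

/-- **The normal form** of an Artin-Schreier class of `P<w>`. -/
theorem as_nf [IsAlgClosed Ω] [CharP k p] (h : Ctx0 k v) (hw : TL v P w s)
    (hP : ∀ a ∈ P, ∃ b ∈ P, b ^ p = a) {a : Ω} (ha : a ∈ cadj v P w) :
    ∃ g ∈ cadj v P w, ∃ b₀ ∈ P, (a - (g ^ p - g) = b₀) ∨
      ∃ b₁ ∈ P, b₁ ≠ 0 ∧ Gt v (v b₁ + s) (a - (g ^ p - g) - (b₀ + b₁ * w)) := by
  obtain ⟨f, hf, h1⟩ := hw.dense ha 1
  have hfm : ∀ g ∈ PI P, g.eval w ∈ cadj v P w := fun g hg =>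
    eval_mem (fun i => le_cadj v P w (hg i)) (self_mem_cadj v P w)
  obtain ⟨m, hm, h2⟩ := D2P.exists_as p hp.out h (TWM.C.hen_eq (cld_cadj v P w))
    (sub_mem ha (hfm f hf)) (fun h0 => lt_of_lt_of_le one_pos (h1 h0))
  obtain ⟨g, hg, b₀, hb₀, h3⟩ := poly_nf p hw hP hf
  have key : a - ((g.eval w + m) ^ p - (g.eval w + m)) =
      f.eval w - (g.eval w ^ p - g.eval w) := by
    rw [add_pow_char]
    linear_combination -h2
  refine ⟨g.eval w + m, add_mem (hfm g hg) hm, b₀, hb₀, ?_⟩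
  rw [key]
  exact h3

end NF

end Pool.Agent.TWC
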