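import Pool.Agent.Lib.TWC.HratB
import Pool.Agent.Lib.TWC.AxP
import Pool.Agent.Lib.TWC.PI
import Pool.Agent.Lib.D2P.R1
import Pool.Agent.Lib.TWM.X2

/-!
# TANK W, R2, part C: henselian rationality over a perfect field, in one variable

`P` perfect, closed, with all the values of `Ω`, `L` closed, `P` algebraically closed in `L`, `L`
finite over `P<w>`, `w ∈ L`, `w ∉ P`. Then `L = P<t>` (`hrat`).
* `as_adj`: the Artin-Schreier step;
* `pi_adj1`: the purely inseparable part.
-/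

set_option autoImplicit false

open Polynomial

namespace Pool.Agent.TWC

open Pool.Agent.H15JM (RVal)
open Pool.Agent.LU1 (VPos adj)
open Pool.Agent.D2 (Ctx0)
open Pool.Agent.D2P (hen clI mem_clI rootF mem_rootF)
open Pool.Agent.TW (Full)
open Pool.Agent.TWM

universe u

variable {k Ω : Type u} [Field k] [Field Ω] [Algebra k Ω] {v : RVal Ω} (p : ℕ) [hp : Fact p.Prime]
  [CharP Ω p] [IsAlgClosed Ω] {P L : IntermediateField k Ω} {w : Ω} {s : ℝ}

/-- **The Artin-Schreier step.** -/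
theorem as_adj [CharP k p] (h : Ctx0 k v) (hc : CompleteV v) (hPc : Cld v P)
    (hP : ∀ a ∈ P, ∃ b ∈ P, b ^ p = a) (hfull : Full v P) (hw : TL v P w s) {η : Ω}
    (hη : η ^ p - η ∈ cadj v P w) (hη' : η ∉ cadj v P w)
    (hreg : ∀ x ∈ adj (cadj v P w) η, IsAlgebraic P x → x ∈ P) :
    ∃ (t : Ω) (s' : ℝ), TL v P t s' ∧ adj (cadj v P w) η = cadj v P t := by
  obtain ⟨g, hg, b₀, hb₀, h1⟩ := as_nf p h hw hP hη
  set M := cadj v P w with hM
  have hPM : P ≤ M := le_cadj v P w
  have hMη : M ≤ adj M η := (D2P.mem_adj_self M η).2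
  have hηm : η ∈ adj M η := (D2P.mem_adj_self M η).1
  have halg : IsAlgebraic M η := by
    have h2 : (X ^ p - X - C (⟨η ^ p - η, hη⟩ : M)) ≠ 0 := by
      intro h3
      have h4 := congrArg (fun f => f.coeff p) h3
      simp only [coeff_sub, coeff_X_pow_self, coeff_X, coeff_C, coeff_zero] at h4
      rw [if_neg hp.out.one_lt.ne, if_neg hp.out.ne_zero, sub_zero, sub_zero] at h4
      exact one_ne_zero h4
    refine ⟨_, h2, ?_⟩
    rw [map_sub, map_sub, map_pow, aeval_X, aeval_C]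
    exact sub_self _
  have hcl : Cld v (adj M η) := cld_adj hc (cld_cadj v P w) halg
  set t := η - g with ht
  have htm : t ∈ adj M η := sub_mem hηm (hMη hg)
  have htp : t ^ p - t = η ^ p - η - (g ^ p - g) := by
    rw [ht, sub_pow_char]
    ring
  have htP : t ∉ P := by
    intro h2
    apply hη'
    have h3 : η = t + g := by rw [ht]; ring
    rw [h3]
    exact add_mem (hPM h2) hg
  rcases h1 with h1 | ⟨b₁, hb₁, hb10, h1⟩
  · -- `t` is algebraic over `P`
    exfalso
    refine htP (hreg t htm ?_)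
    have h2 : t ^ p - t - b₀ = 0 := by rw [htp, h1, sub_self]
    have h3 : (X ^ p - X - C (⟨b₀, hb₀⟩ : P)) ≠ 0 := by
      intro h3
      have h4 := congrArg (fun f => f.coeff p) h3
      simp only [coeff_sub, coeff_X_pow_self, coeff_X, coeff_C, coeff_zero] at h4
      rw [if_neg hp.out.one_lt.ne, if_neg hp.out.ne_zero, sub_zero, sub_zero] at h4
      exact one_ne_zero h4
    refine ⟨_, h3, ?_⟩
    rw [map_sub, map_sub, map_pow, aeval_X, aeval_C]
    exact h2
  obtain ⟨s', hs'⟩ := tl_of_perfect p h hPc hP hfull hcl (hPM.trans hMη) hreg htm htP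
  refine ⟨t, s', hs', le_antisymm ?_ (cadj_le hcl (hPM.trans hMη) htm)⟩
  -- `u` near `w`
  set u := (t ^ p - t - b₀) * b₁⁻¹ with hu
  have hPt : P ≤ cadj v P t := le_cadj v P t
  have htt : t ∈ cadj v P t := self_mem_cadj v P t
  have hut : u ∈ cadj v P t := mul_mem (sub_mem (sub_mem (pow_mem htt p) htt) (hPt hb₀))
    (hPt (inv_mem hb₁))
  have huM : u ∈ M := by
    rw [hu, htp]
    exact mul_mem (sub_mem (sub_mem hη (sub_mem (pow_mem hg p) hg)) (hPM hb₀)) (hPM (inv_mem hb₁))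
  have huw : Gt v s (u - w) := by
    have h2 : u - w = (η ^ p - η - (g ^ p - g) - (b₀ + b₁ * w)) * b₁⁻¹ := by
      rw [hu, htp]
      field_simp
      ring
    rw [h2]
    have h3 := h1.mul_ge (RVal.ge_self (v := v) b₁⁻¹)
    rw [v.map_inv hb10] at h3
    exact h3.mono (by linarith)
  have h2 : cadj v P u = M := hw.cadj_congr huM huw
  have hMt : M ≤ cadj v P t := by
    rw [← h2]
    exact cadj_le (cld_cadj v P t) hPt hut
  refine D2P.adj_le hMt ?_
  have h3 : η = t + g := by rw [ht]; ring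
  rw [h3]
  exact add_mem htt (hMt hg)

omit [IsAlgClosed Ω] in
theorem pow_mem_cld {F : IntermediateField k Ω} {S : Set Ω} {n : ℕ}
    (hS : ∀ x ∈ S, x ^ p ^ n ∈ F) : ∀ x ∈ F ⊔ IntermediateField.adjoin k S, x ^ p ^ n ∈ F := by
  have h1 : F ⊔ IntermediateField.adjoin k S ≤ rootF p n F := by
    refine sup_le (fun a ha => (mem_rootF).2 (pow_mem ha _)) ?_
    rw [IntermediateField.adjoin_le_iff]
    exact fun x hx => (mem_rootF).2 (hS x hx)
  exact fun x hx => (mem_rootF).1 (h1 hx)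

/-- **The purely inseparable part.** -/
theorem pi_adj1 (hc : CompleteV v) (hPc : Cld v P) (hP : ∀ a ∈ P, ∃ b ∈ P, b ^ p = a)
    (hL : Cld v L) (hPL : P ≤ L) (n : ℕ) :
    ∀ t ∈ L, (∀ x ∈ L, x ^ p ^ n ∈ cadj v P t) → ∃ t' ∈ L, L = cadj v P t' := by
  induction n with
  | zero =>
    intro t ht h1
    refine ⟨t, ht, le_antisymm (fun x hx => ?_) (cadj_le hL hPL ht)⟩
    have := h1 x hx
    rwa [pow_zero, pow_one] at this
  | succ n ih =>
    intro t ht h1
    by_cases h2 : ∀ x ∈ L, x ^ p ^ n ∈ cadj v P t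
    · exact ih t ht h2
    push Not at h2
    obtain ⟨x, hx, h3⟩ := h2
    obtain ⟨t₁, rfl⟩ := IsAlgClosed.exists_pow_nat_eq t hp.out.pos
    set F := cadj v P (t₁ ^ p) with hF
    have hroot : rootF p 1 F = cadj v P t₁ := by
      rw [hF, rootF_cadj, rootF_perf p hP]
    have hyp : (x ^ p ^ n) ^ p ∈ F := by
      rw [← pow_mul, ← pow_succ]
      exact h1 x hx
    have htF : t₁ ^ p ∈ F := self_mem_cadj v P _
    have hcl : Cld v (adj F t₁) := cld_adj hc (cld_cadj v P _) (isAlgebraic_of_pow_mem p htF)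
    have h4 : cadj v P t₁ ≤ adj F t₁ := cadj_le hcl
      ((le_cadj v P _).trans (D2P.mem_adj_self F t₁).2) (D2P.mem_adj_self F t₁).1
    have h5 : x ^ p ^ n ∈ adj F t₁ := h4 (by
      rw [← hroot]
      exact (mem_rootF1 p).2 hyp)
    have h6 : t₁ ∈ adj F (x ^ p ^ n) := exchange p hyp htF h3 h5
    have hFL : F ≤ L := cadj_le hL hPL ht
    have h7 : t₁ ∈ L := D2P.adj_le hFL (pow_mem hx _) h6
    refine ih t₁ h7 fun y hy => ?_
    rw [← hroot]
    refine (mem_rootF1 p).2 ?_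
    rw [← pow_mul, ← pow_succ]
    exact h1 y hy

/-- **Henselian rationality in one variable over a perfect field.** -/
theorem hrat [CharP k p] [IsAlgClosed k] (h : Ctx0 k v) (hc : CompleteV v) (hPc : Cld v P)
    (hP : ∀ a ∈ P, ∃ b ∈ P, b ^ p = a) (hval : ∀ g : Ω, g ≠ 0 → ∃ c ∈ P, c ≠ 0 ∧ v c = v g)
    (hL : Cld v L) (hPL : P ≤ L) (hreg : ∀ x ∈ L, IsAlgebraic P x → x ∈ P) (hwL : w ∈ L)
    (hwP : w ∉ P) (S : Finset Ω) (hS : ∀ x ∈ S, IsAlgebraic (cadj v P w) x)
    (hLS : L = cadj v P w ⊔ IntermediateField.adjoin k (S : Set Ω)) :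
    ∃ (t : Ω) (s' : ℝ), t ∈ L ∧ TL v P t s' ∧ L = cadj v P t := by
  classical
  have hfull : Full v P := fun g hg => by
    obtain ⟨c, hc1, hc2, hc3⟩ := hval g hg
    exact ⟨1, one_pos, c, hc1, hc2, by rw [hc3, Nat.cast_one, one_mul]⟩
  set M := cadj v P w with hM
  have hPM : P ≤ M := le_cadj v P w
  have hML : M ≤ L := cadj_le hL hPL hwL
  -- separable powers
  choose! m hm using fun x hx => exists_sep_pow (p := p) (hS x hx)
  set n := S.sup m with hn
  have hmn : ∀ x ∈ S, IsSeparable M (x ^ p ^ n) := by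
    intro x hx
    have h1 : m x ≤ n := Finset.le_sup hx
    have h2 : x ^ p ^ n = (x ^ p ^ m x) ^ p ^ (n - m x) := by
      rw [← pow_mul, ← pow_add, Nat.add_sub_cancel' h1]
    rw [h2]
    have h3 := hm x hx
    have h4 : x ^ p ^ m x ∈ separableClosure M Ω := mem_separableClosure_iff.2 h3
    exact mem_separableClosure_iff.1 (pow_mem h4 _)
  let S' : Finset Ω := S.image fun x => x ^ p ^ n
  have hS'L : ∀ x ∈ S', x ∈ L := by
    intro x hx
    obtain ⟨y, hy, rfl⟩ := Finset.mem_image.1 hx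
    refine pow_mem ?_ _
    rw [hLS]
    exact (le_sup_right : _ ≤ M ⊔ IntermediateField.adjoin k (S : Set Ω))
      (IntermediateField.subset_adjoin k _ hy)
  have key : M ⊔ IntermediateField.adjoin k (S' : Set Ω) ≤ L →
      ∃ (t : Ω) (s' : ℝ), TL v P t s' ∧ M ⊔ IntermediateField.adjoin k (S' : Set Ω) = cadj v P t := by
    refine D2P.as_induction p hp.out h M (TWM.C.hen_eq (cld_cadj v P w)) ?_
      (fun M' => M' ≤ L → ∃ (t : Ω) (s' : ℝ), TL v P t s' ∧ M' = cadj v P t) ?_ ?_ S' ?_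
    · intro g hg
      obtain ⟨c, hc1, hc2, hc3⟩ := hval g hg
      exact ⟨c, hPM hc1, hc2, hc3⟩
    · intro _
      obtain ⟨s', hs'⟩ := tl_of_perfect p h hPc hP hfull hL hPL hreg hwL hwP
      exact ⟨w, s', hs', rfl⟩
    · intro M' η _ _ hQ hη hη' hle
      have hle' : M' ≤ L := (D2P.mem_adj_self M' η).2.trans hle
      obtain ⟨t, s', hs', rfl⟩ := hQ hle'
      exact as_adj p h hc hPc hP hfull hs' hη hη' fun x hx => hreg x (hle hx)
    · intro x hx
      obtain ⟨y, hy, rfl⟩ := Finset.mem_image.1 hx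
      exact hmn y hy
  obtain ⟨t, s', hs', h1⟩ := key (sup_le hML (IntermediateField.adjoin_le_iff.2 fun x hx =>
    hS'L x hx))
  have htL : t ∈ L := by
    have h2 : t ∈ M ⊔ IntermediateField.adjoin k (S' : Set Ω) := by
      rw [h1]
      exact self_mem_cadj v P t
    exact sup_le hML (IntermediateField.adjoin_le_iff.2 fun x hx => hS'L x hx) h2
  obtain ⟨t', ht', h3⟩ := pi_adj1 p hc hPc hP hL hPL n t htL (by
    intro x hx
    rw [hLS] at hx
    have h4 : M ≤ cadj v P t := by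
      rw [← h1]
      exact le_sup_left
    refine pow_mem_cld p (F := cadj v P t) (S := (S : Set Ω)) (fun y hy => ?_) x
      (sup_le_sup_right h4 _ hx)
    rw [← h1]
    exact (le_sup_right : _ ≤ M ⊔ IntermediateField.adjoin k (S' : Set Ω))
      (IntermediateField.subset_adjoin k _ (Finset.mem_image_of_mem _ hy)))
  have ht'P : t' ∉ P := by
    intro h4
    apply hwP
    have h5 : cadj v P t' ≤ P := cadj_le hPc le_rfl h4
    exact h5 (h3 ▸ hwL)
  obtain ⟨s'', hs''⟩ := tl_of_perfect p h hPc hP hfull hL hPL hreg ht' ht'P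
  exact ⟨t', s'', ht', hs'', h3⟩

end Pool.Agent.TWC
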