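import Pool.Agent.Lib.TWC.TowR1
import Pool.Agent.Lib.TWC.DichA

/-!
# TANK W, class C: the purely inseparable step for towers with any radii

`P` perfect and closed, `M g` monomials of all the real values `g`, in `P` if `g` is a value of `P`.
* `pm_pow`, `down1`: the fields with the monomials;
* `lift_w`: operators, `V'` and descent data for `P<w>`, any radius, with the monomials;
* `cstarR`: `T` a tower of length `≤ 2` over `P`, `T ^ p ≤ L ≤ T`: `L` is a tower over `P`, of the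
  same length.
-/

set_option autoImplicit false

open Polynomial

namespace Pool.Agent.TWS

open Pool.Agent.H15JM (RVal)
open Pool.Agent.LU1 (VPos adj)
open Pool.Agent.D2 (Ctx0)
open Pool.Agent.D2P (hen clI mem_clI rootF)
open Pool.Agent.TWM (CompleteV Cld TL Imm Lim Gt Nr' MS algc PI cld_cadj cadj_le le_cadj
  self_mem_cadj le_clI clI_mono cld_clI mem_algc le_algc ge_sub_comm mem_rootF1 le_rootF
  cld_rootF cadj_affine)
open Pool.Agent.TWC (Tow EW Oper OpGen NSD Desc Nilp)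

universe u

variable {k Ω : Type u} [Field k] [Field Ω] [Algebra k Ω] {v : RVal Ω}
  {P A B C L K T : IntermediateField k Ω} {M : ℝ → Ω}

section Basic

variable (p : ℕ) [hp : Fact p.Prime] [CharP Ω p]

/-- The `p`-th powers, with the monomials. -/
theorem pm_pow (hM : MS v ⊤ M) (h : ∀ x ∈ A, x ^ p ∈ B) :
    ∀ x ∈ PM v A ⊤ M, x ^ p ∈ PM v B ⊤ M := by
  have h1 : PM v A ⊤ M ≤ rootF p 1 (PM v B ⊤ M) := by
    refine PM.le_of (cld_rootF p PM.cld) (fun a ha => (mem_rootF1 p).2 (PM.le (h a ha)))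
      fun g hg => (mem_rootF1 p).2 ?_
    rw [← hM.pow hg p]
    exact PM.mon trivial
  exact fun x hx => (mem_rootF1 p).1 (h1 hx)

omit [CharP Ω p] in
theorem vg_perf (hP' : ∀ a ∈ P, ∃ b ∈ P, b ^ p = a) {g : ℝ} (hg : (p : ℝ) * g ∈ VG v P) :
    g ∈ VG v P := by
  obtain ⟨a, ha, h0, h1⟩ := hg
  obtain ⟨b, hb, rfl⟩ := hP' a ha
  have hb0 : b ≠ 0 := fun h => h0 (by rw [h, zero_pow hp.out.ne_zero])
  have hp0 : (0 : ℝ) < p := by exact_mod_cast hp.out.pos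
  refine ⟨b, hb, hb0, ?_⟩
  rw [v.map_pow hb0] at h1
  exact mul_left_cancel₀ hp0.ne' h1

theorem pm_perf [IsAlgClosed Ω] (hM : MS v ⊤ M) (hP' : ∀ a ∈ P, ∃ b ∈ P, b ^ p = a) :
    ∀ a ∈ PM v P ⊤ M, ∃ b ∈ PM v P ⊤ M, b ^ p = a :=
  PM.perf p hM (fun _ _ => trivial) hP'

end Basic

section Down

variable (p : ℕ) [hp : Fact p.Prime] [CharP k p] [CharP Ω p] [PerfectRing k p] [IsAlgClosed Ω]
  [hcx : Fact (Ctx0 k v)]

omit [CharP k p] [PerfectRing k p] in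
/-- A floor comes down. -/
theorem down1 (hM : MonG v P ⊤ M) (hP' : ∀ a ∈ P, ∃ b ∈ P, b ^ p = a) (hΩ : CompleteV v)
    (hi : Imm v P L) (hL : Cld v L) (hA : Imm v P A) (hAL : A ≤ L) (hAc : Cld v A)
    (hT : Tow v 1 (PM v A ⊤ M) (PM v L ⊤ M)) : TowR v 1 A L := by
  obtain ⟨u, hu, hLu⟩ := TWC.tow_one.1 hT
  have huL : u ∈ PM v L ⊤ M := by
    rw [hLu]
    exact self_mem_cadj v _ u
  obtain ⟨f, hf, s, h1, h2⟩ := homog_tow p hcx.out hM hΩ hi hL hA hAL hAc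
    (fun g _ hg => vg_perf p hP' hg) (hM.imm hi) le_rfl hL (fun g _ hg => VG.mono hi.le hg)
    huL hu (fun x hx hl => TWC.spn_of_mem p hu (by rwa [← hLu]) hl) (n := 0) le_rfl
    (TWC.tow_zero.2 ⟨cld_cadj v _ u, hLu.symm⟩)
  refine towR_iff_one.2 ⟨f, s, h1, ?_⟩
  have h3 := (TWC.tow_zero.1 h2).2
  refine le_antisymm ?_ (cadj_le hL hAL hf)
  exact PM.inj hΩ hM hi hL (hA.trans h1.imm) (cadj_le hL hAL hf) (cld_cadj v _ _) h3.ge

omit hcx [IsAlgClosed Ω] in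
/-- The scaled roots generate the same field. -/
theorem ew_scale {u : ℕ → Ω} (hM : MS v ⊤ M) (s : ℕ → ℝ) :
    EW v (PM v P ⊤ M) (fun n => u n * M (s n)) = EW v (PM v P ⊤ M) u := by
  have hm : ∀ g, M g ∈ EW v (PM v P ⊤ M) u := fun g => EW.le (PM.mon trivial)
  have hm' : ∀ g, M g ∈ EW v (PM v P ⊤ M) (fun n => u n * M (s n)) := fun g =>
    EW.le (PM.mon trivial)
  apply le_antisymm
  · refine TWC.clI_le' (sup_le EW.le ?_) EW.cld
    rw [IntermediateField.adjoin_le_iff]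
    rintro _ ⟨n, rfl⟩
    exact mul_mem (EW.mem n) (hm _)
  · refine TWC.clI_le' (sup_le EW.le ?_) EW.cld
    rw [IntermediateField.adjoin_le_iff]
    rintro _ ⟨n, rfl⟩
    have h1 : u n = u n * M (s n) / M (s n) :=
      (mul_div_cancel_right₀ _ (hM.ne _ trivial)).symm
    have h2 : u n * M (s n) ∈ EW v (PM v P ⊤ M) (fun n => u n * M (s n)) :=
      EW.mem (u := fun n => u n * M (s n)) n
    rw [SetLike.mem_coe, h1]
    exact div_mem h2 (hm' _)

/-- **The operators of `P<w>`**, any radius, with the monomials. -/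
theorem lift_w (hc : CompleteV v) (hM : MonG v P ⊤ M)
    (hP' : ∀ a ∈ P, ∃ b ∈ P, b ^ p = a) {u : ℕ → Ω} (hu : ∀ n, u (n + 1) ^ p = u n) {s : ℝ}
    (hw : TL v P (u 0) s) (hPL : P ≤ L) (hwL : u 0 ∈ L)
    (hi : Imm v P (clI v (L ⊔ EW v P u))) (hfar : ∀ l ∈ L, ¬ v.Ge s (l ^ p - u 0)) :
    ∃ (T : Submodule k (TWC.Opr v (PM v (EW v P u) ⊤ M)))
      (D : Set (TWC.Opr v (PM v (EW v P u) ⊤ M)))
      (h : Oper p v (PM v (TWM.cadj v P (u 0)) ⊤ M) (PM v (EW v P u) ⊤ M) T),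
      OpGen v T D ∧ NSD p h ∧ Desc v (PM v (TWM.cadj v P (u 0)) ⊤ M) (PM v (EW v P u) ⊤ M) T
        (PM v L ⊤ M) (PM v (clI v (L ⊔ EW v P u)) ⊤ M) := by
  have hp0 : (p : ℝ) ≠ 0 := by exact_mod_cast hp.out.ne_zero
  have hms := hM.ms
  -- the scaled roots
  set r : ℕ → Ω := fun n => u n * M (-s / p ^ n) with hr
  have hrr : ∀ n, r (n + 1) ^ p = r n := by
    intro n
    rw [hr]
    simp only
    rw [mul_pow, hu n, ← hms.pow trivial p]
    congr 2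
    rw [pow_succ]
    field_simp
  have hr0 : r 0 = M (-s) * u 0 + 0 := by
    rw [hr]
    simp only
    rw [pow_zero, div_one, add_zero, mul_comm]
  have hMs : M (-s) ∈ PM v P ⊤ M := PM.mon trivial
  have hMs0 : M (-s) ≠ 0 := hms.ne _ trivial
  have hC : TWM.cadj v (PM v P ⊤ M) (r 0) = PM v (TWM.cadj v P (u 0)) ⊤ M := by
    rw [hr0, cadj_affine hMs hMs0 (zero_mem _), PM.cadj]
  have hE : EW v (PM v P ⊤ M) r = PM v (EW v P u) ⊤ M := by
    rw [PM.EW]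
    exact ew_scale hms _
  have hTL : TL v (PM v P ⊤ M) (r 0) 0 := by
    have h1 := TWM.TL.affine (TL.pm hM (Imm.refl _) hw) hMs hMs0 (zero_mem _)
    rw [hms.val _ trivial, neg_add_cancel] at h1
    rw [hr0]
    exact h1
  have hkey := TWC.base_w p hc (P := PM v P ⊤ M) PM.cld (pm_perf p hms hP') hTL (u := r) rfl hrr
  rw [hC, hE] at hkey
  obtain ⟨T, D, h, hG, hV, hdesc⟩ := hkey
  refine ⟨T, D, h, hG, hV, ?_⟩
  have h2 := hdesc (PM v L ⊤ M) PM.cld (PM.mono hPL) (by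
    rw [hr0, add_zero]
    exact mul_mem (PM.mon trivial) (PM.le hwL)) ?_
  · rwa [← PM.sup] at h2
  · -- far
    rintro ⟨l, hl, h3⟩
    have hLE : L ≤ clI v (L ⊔ EW v P u) := le_sup_left.trans (TWC.self_le_clI v _)
    have hEE : EW v P u ≤ clI v (L ⊔ EW v P u) := le_sup_right.trans (TWC.self_le_clI v _)
    have h4 : Nr' v (PM v L ⊤ M) (s / p) (u 1) := by
      refine ⟨l * M (s / p), mul_mem hl (PM.mon trivial), ?_⟩
      have e : u 1 - l * M (s / p) = (r 1 - l) * M (s / p) := by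
        rw [hr]
        simp only
        rw [pow_one, sub_mul, mul_assoc, ← hms.mul _ trivial _ trivial, neg_div,
          neg_add_cancel, hms.zero, mul_one]
      rw [e]
      intro h5
      have h6 : r 1 - l ≠ 0 := fun h7 => h5 (by rw [h7, zero_mul])
      rw [v.map_mul h6 (hms.ne _ trivial), hms.val _ trivial]
      have := h3 h6
      linarith
    rw [nr'_pm (B := clI v (L ⊔ EW v P u)) hM ⟨hPL, fun b hb => hi.imm b (hLE hb)⟩ hi hLE
      (hEE (EW.mem 1))] at h4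
    obtain ⟨l', hl', h5⟩ := h4
    refine hfar l' hl' ?_
    have h6 : l' ^ p - u 0 = -((u 1 - l') ^ p) := by
      rw [sub_pow_char, show (1 : ℕ) = 0 + 1 from rfl, hu 0]
      ring
    rw [h6]
    have h7 := TWM.ge_pow h5.ge p
    rw [mul_div_cancel₀ _ hp0] at h7
    exact h7.neg

/-- One floor comes down from the descent data. -/
theorem desc1 {T : Submodule k (TWC.Opr v (PM v A ⊤ M))} {D : Set (TWC.Opr v (PM v A ⊤ M))}
    {LE : IntermediateField k Ω} (hM : MonG v P ⊤ M) (hP' : ∀ a ∈ P, ∃ b ∈ P, b ^ p = a)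
    (hΩ : CompleteV v) (hi : Imm v P LE) (hLE : L ≤ LE) (hL : Cld v L) (hPC : P ≤ C)
    (hCL : C ≤ L) (hC : Cld v C) (hPA : P ≤ A) (hAL : A ≤ LE)
    (h : Oper p v (PM v C ⊤ M) (PM v A ⊤ M) T) (hG : OpGen v T D) (hV : NSD p h)
    (hD : Desc v (PM v C ⊤ M) (PM v A ⊤ M) T (PM v L ⊤ M) (PM v LE ⊤ M))
    (hT : TowR v 1 A LE) : TowR v 1 C L := by
  have hs : ∀ s : ℝ, ∃ c ∈ PM v P ⊤ M, c ≠ 0 ∧ v c = s := fun s =>
    ⟨M s, PM.mon trivial, hM.ms.ne s trivial, hM.ms.val s trivial⟩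
  have h1 : Tow v 1 (PM v A ⊤ M) (PM v LE ⊤ M) :=
    TowR.pm hM hs ⟨hPA, fun b hb => hi.imm b (hAL hb)⟩ hT
  have h2 := TWC.descend_tow p h (TWC.nilp_of_gen p h hG hD) hV hD (by norm_num) h1
  exact down1 p hM hP' hΩ ⟨hPC.trans hCL, fun b hb => hi.imm b (hLE hb)⟩ hL
    ⟨hPC, fun b hb => hi.imm b (hLE (hCL hb))⟩ hCL hC h2

omit [CharP k p] [PerfectRing k p] hcx in
/-- **The first generator.** -/
theorem first_gen {y : Ω} {s : ℝ} {n : ℕ}
    (hy : TL v P y s) (hT : TowR v n (TWM.cadj v P y) T) (hLT : L ≤ T)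
    (hTL : ∀ t ∈ T, t ^ p ∈ L) (hPL : P ≤ L) :
    ∃ (r : ℕ → Ω) (i : ℕ) (s' : ℝ), (s' = s ∨ s' = p * s) ∧ (∀ n, r (n + 1) ^ p = r n) ∧
      TL v P (r 0) s' ∧ r 0 ∈ L ∧ TowR v n (TWM.cadj v P (r i)) T ∧
      ∀ l ∈ L, ¬ v.Ge s' (l ^ p - r 0) := by
  have hp0 : (0 : ℝ) < p := by exact_mod_cast hp.out.pos
  have hyT : y ∈ T := hT.le (self_mem_cadj v P y)
  have hi : Imm v P T := hy.imm.trans hT.imm
  by_cases hcase : ∃ u ∈ L, TWM.Nr v P s (u - y)
  · obtain ⟨u, huL, a, ha, h1⟩ := hcase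
    obtain ⟨b, hb, h2⟩ : ∃ b ∈ P, Gt v s (u - y - a - b) := by
      by_cases h0 : u - y - a = 0
      · exact ⟨0, zero_mem P, by rw [h0, sub_zero]; exact TWM.Gt.zero⟩
      · obtain ⟨b, hb, h3⟩ := hi.imm _ (sub_mem (sub_mem (hLT huL) hyT) (hi.le ha)) h0
        exact ⟨b, hb, fun h4 => (h1 h0).trans_lt (h3 h4)⟩
    obtain ⟨w, hw⟩ : ∃ w, w = u - a - b := ⟨_, rfl⟩
    have hwL : w ∈ L := by
      rw [hw]
      exact sub_mem (sub_mem huL (hPL ha)) (hPL hb)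
    have hg : Gt v s (w - y) := by
      have h3 : w - y = u - y - a - b := by
        rw [hw]
        ring
      rw [h3]
      exact h2
    have hwT : TL v P w s := TWM.TL.congr hy hg
    have hT' : TowR v n (TWM.cadj v P w) T := TowR.exch hy hT (hLT hwL) hg
    obtain ⟨r, hr0, hr⟩ := TWC.exists_roots p w
    refine ⟨r, 0, s, Or.inl rfl, hr, by rwa [hr0], by rwa [hr0], by rwa [hr0], ?_⟩
    intro l hl h3
    rw [hr0] at h3
    exact TowR.not_root p hwT hT' (hLT hl) h3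
  · obtain ⟨r, hr0, hr⟩ := TWC.exists_roots p y
    have hr1 : r 1 ^ p = r 0 := hr 0
    have hw : TL v P (y ^ p) (p * s) := by
      refine ⟨?_, ?_⟩
      · intro ε hε
        obtain ⟨b, hb, h1⟩ := hy.lim (ε / p) (div_pos hε hp0)
        refine ⟨b ^ p, pow_mem hb p, ?_⟩
        rw [← sub_pow_char]
        exact (TWM.ge_pow h1 p).mono (by rw [mul_sub, mul_div_cancel₀ _ hp0.ne'])
      · intro θ hθ
        obtain ⟨θ', rfl⟩ := IsAlgClosed.exists_pow_nat_eq θ hp.out.pos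
        obtain ⟨h1, h2⟩ := hy.far θ' (IsAlgebraic.of_pow hp.out.pos hθ)
        have h3 : y - θ' ≠ 0 := sub_ne_zero.2 h1
        rw [← sub_pow_char, v.map_pow h3]
        refine ⟨?_, mul_lt_mul_of_pos_left h2 hp0⟩
        rw [← sub_ne_zero, ← sub_pow_char]
        exact pow_ne_zero p h3
    refine ⟨fun n => r n ^ p, 1, p * s, Or.inr rfl, fun n => ?_, ?_, ?_, ?_, ?_⟩
    · show (r (n + 1) ^ p) ^ p = r n ^ p
      rw [hr n]
    · show TL v P (r 0 ^ p) _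
      rw [hr0]
      exact hw
    · show r 0 ^ p ∈ L
      rw [hr0]
      exact hTL y hyT
    · show TowR v n (TWM.cadj v P (r 1 ^ p)) T
      rw [hr1, hr0]
      exact hT
    · intro l hl h3
      have h3' : v.Ge (p * s) (l ^ p - r 0 ^ p) := h3
      refine hcase ⟨l, hl, 0, zero_mem P, ?_⟩
      rw [sub_zero, ← hr0]
      rw [← sub_pow_char] at h3'
      exact TWM.ge_of_pow (p := p) h3'

omit [CharP k p] [CharP Ω p] [PerfectRing k p] hcx in
/-- The base of the roots of the first generator. -/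
theorem first_base {r : ℕ → Ω}
    (hr : ∀ n, r (n + 1) ^ p = r n) {n i : ℕ} (hT : TowR v n (TWM.cadj v P (r i)) T) :
    TowR v n (EW v P r) (clI v (T ⊔ EW v P r)) :=
  TowR.base hT (EW.cadj_le i) EW.cld (EW.alg p rfl hr i)

/-- **THEOREM C*, one floor, any radius.** -/
theorem cstarR1 (hc : CompleteV v) (hM : MonG v P ⊤ M)
    (hP' : ∀ a ∈ P, ∃ b ∈ P, b ^ p = a) (hT : TowR v 1 P T) (hL : Cld v L) (hLT : L ≤ T)
    (hTL : ∀ t ∈ T, t ^ p ∈ L) (hP : Cld v P) : TowR v 1 P L := by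
  have hs : ∀ s : ℝ, ∃ c ∈ PM v P ⊤ M, c ≠ 0 ∧ v c = s := fun s =>
    ⟨M s, PM.mon trivial, hM.ms.ne s trivial, hM.ms.val s trivial⟩
  have hPL : P ≤ L := fun a ha => by
    obtain ⟨b, hb, rfl⟩ := hP' a ha
    exact hTL b (hT.le hb)
  have h1 : Tow v 1 (PM v P ⊤ M) (PM v T ⊤ M) := TowR.pm hM hs (Imm.refl _) hT
  have h2 := TWC.cstar p hc 1 (by norm_num) _ _ (PM v L ⊤ M) PM.cld (pm_perf p hM.ms hP') h1
    PM.cld (PM.mono hLT) (pm_pow p hM.ms hTL)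
  exact down1 p hM hP' hc ⟨hPL, fun b hb => hT.imm.imm b (hLT hb)⟩ hL (Imm.refl _) hPL hP h2

omit [CharP k p] [PerfectRing k p] in
/-- The roots of `w` over a perfect field. -/
theorem imm_EW (hP' : ∀ a ∈ P, ∃ b ∈ P, b ^ p = a) {r : ℕ → Ω} {s : ℝ}
    (hr : ∀ n, r (n + 1) ^ p = r n) (hw : TL v P (r 0) s) : Imm v P (EW v P r) := by
  have h1 : Imm v P (TWM.cadj v P (r 0)) := hw.imm
  have h2 : ∀ g ∈ VG v (TWM.cadj v P (r 0)), g / p ∈ VG v (TWM.cadj v P (r 0)) := by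
    intro g hg
    rw [VG.imm h1] at hg ⊢
    refine vg_perf p hP' ?_
    rwa [mul_div_cancel₀ _ (by exact_mod_cast hp.out.ne_zero : (p : ℝ) ≠ 0)]
  have h3 := h1.trans (imm_pcl p hcx.out h2)
  refine ⟨EW.le, fun b hb => h3.imm b ?_⟩
  have h4 : EW v P r ≤ clI v (TWC.pcl p (TWM.cadj v P (r 0))) := by
    refine TWC.clI_le' (sup_le ?_ ?_) (cld_clI v _)
    · exact h3.le
    · rw [IntermediateField.adjoin_le_iff]
      rintro _ ⟨n, rfl⟩
      refine TWC.self_le_clI v _ ⟨n, ?_⟩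
      have h5 := EW.pow_pow (p := p) hr 0 n
      rw [zero_add] at h5
      rw [h5]
      exact self_mem_cadj v P (r 0)
  exact h4 hb

/-- **THEOREM C*, two floors, any radii.** -/
theorem cstarR2 (hc : CompleteV v) (hM : MonG v P ⊤ M)
    (hP' : ∀ a ∈ P, ∃ b ∈ P, b ^ p = a) (hT : TowR v 2 P T) (hL : Cld v L) (hLT : L ≤ T)
    (hTL : ∀ t ∈ T, t ^ p ∈ L) (hP : Cld v P) : TowR v 2 P L := by
  have hPL : P ≤ L := fun a ha => by
    obtain ⟨b, hb, rfl⟩ := hP' a ha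
    exact hTL b (hT.le hb)
  obtain ⟨y, s, hy, hT1⟩ := towR_iff_succ.1 hT
  obtain ⟨r, i, s', -, hr, hw, hwL, hTi, hfar⟩ := first_gen p hy hT1 hLT hTL hPL
  have hE' : ∀ a ∈ EW v P r, ∃ b ∈ EW v P r, b ^ p = a := EW.perf p hc hP hP' hr
  have hPE : Imm v P (EW v P r) := imm_EW p hP' hr hw
  have h1 : TowR v 1 (EW v P r) (clI v (T ⊔ EW v P r)) := first_base p hr hTi
  have hLT' : clI v (L ⊔ EW v P r) ≤ clI v (T ⊔ EW v P r) :=
    TWC.clI_mono' (sup_le_sup_right hLT _)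
  have h2 : TowR v 1 (EW v P r) (clI v (L ⊔ EW v P r)) :=
    cstarR1 p hc (hM.imm hPE) hE' h1 (cld_clI v _) hLT' (TWC.pow_mem_sup p hE' hTL) EW.cld
  have hi : Imm v P (clI v (L ⊔ EW v P r)) := hPE.trans h2.imm
  obtain ⟨T', D, h, hG, hV, hD⟩ := lift_w p hc hM hP' hr hw hPL hwL hi hfar
  exact TowR.succ hw (desc1 p hM hP' hc hi (le_sup_left.trans (TWC.self_le_clI v _)) hL
    (le_cadj v P _) (cadj_le hL hPL hwL) (cld_cadj v P _) EW.le
    (le_sup_right.trans (TWC.self_le_clI v _)) h hG hV hD h2)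

/-! ### The purely inseparable step -/

/-- **The purely inseparable step, any radii**, at most two floors. -/
theorem TowR.pi2 (hc : CompleteV v) {n : ℕ} (hn : n ≤ 2) (hM : MonG v P ⊤ M)
    (hP' : ∀ a ∈ P, ∃ b ∈ P, b ^ p = a) (hT : TowR v n P K) (hL : Cld v L) (hKL : K ≤ L)
    (hLK : ∀ x ∈ L, x ^ p ∈ K) (hP : Cld v P) : TowR v n P L := by
  have h1 := TowR.rootF p hT
  rw [TWC.rootF_perf p hP'] at h1
  have h2 : L ≤ D2P.rootF p 1 K := fun x hx => (mem_rootF1 p).2 (hLK x hx)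
  have h3 : ∀ t ∈ D2P.rootF p 1 K, t ^ p ∈ L := fun t ht => hKL ((mem_rootF1 p).1 ht)
  interval_cases n
  · obtain ⟨-, h4⟩ := towR_iff_zero.1 h1
    refine towR_iff_zero.2 ⟨hP, le_antisymm (hT.le.trans hKL) ?_⟩
    rwa [← h4] at h2
  · exact cstarR1 p hc hM hP' h1 hL h2 h3 hP
  · exact cstarR2 p hc hM hP' h1 hL h2 h3 hP

end Down

end Pool.Agent.TWS
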