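import Pool.Agent.Lib.TWC.HratC
import Pool.Agent.Lib.TWC.TowRpi
import Pool.Agent.Lib.TWCT.Tame

/-!
# TANK W, R2, part D: henselian rationality over a perfect field, in one variable, relative values

* `RV v P K`: every value of an algebraic element over `K` is, up to an integer, a value of `P`;
* `tl_of_perfect'`, `as_adj'`, `hrat'`: the results of part C with this hypothesis only.
-/

set_option autoImplicit false

open Polynomial

namespace Pool.Agent.TWC

open Pool.Agent.H15JM (RVal)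
open Pool.Agent.LU1 (VPos adj)
open Pool.Agent.D2 (Ctx0)
open Pool.Agent.D2P (hen clI mem_clI rootF mem_rootF)
open Pool.Agent.TWM

universe u

variable {k Ω : Type u} [Field k] [Field Ω] [Algebra k Ω] {v : RVal Ω}
  {P K K' L : IntermediateField k Ω} {w : Ω} {s : ℝ}

/-- Every value of an algebraic element over `K` is, up to an integer, a value of `P`. -/
def RV (v : RVal Ω) (P K : IntermediateField k Ω) : Prop :=
  ∀ g : Ω, IsAlgebraic K g → g ≠ 0 → ∃ m : ℕ, 0 < m ∧ ∃ e ∈ P, e ≠ 0 ∧ v e = m * v g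

theorem RV.up (h : RV v P K) (hK : K ≤ K') (ha : ∀ g ∈ K', IsAlgebraic K g) : RV v P K' :=
  fun g hg hg0 => h g (D2P.H0aux.alg_trans hK ha hg) hg0

theorem RV.down (h : RV v P K') (hK : K ≤ K') : RV v P K :=
  fun g hg hg0 => h g (D2P.isAlgebraic_mono hK hg) hg0

/-- The elements of `K(η)` are algebraic over `K`, if `η` is. -/
theorem alg_adj {η : Ω} (hη : IsAlgebraic K η) : ∀ g ∈ adj K η, IsAlgebraic K g := by
  intro g hg
  have h1 : adj K η ≤ algc K := by
    have h2 : K ≤ algc K := le_algc K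
    exact D2P.adj_le h2 (mem_algc.2 hη)
  exact mem_algc.1 (h1 hg)

variable (p : ℕ) [hp : Fact p.Prime] [CharP Ω p] [IsAlgClosed Ω]

/-- An element outside of a closed field has a finite distance to it. -/
private theorem exists_dist_ax' {F : IntermediateField k Ω} {z : Ω} (hz : z ∉ clI v F) :
    ∃ ρ : ℝ, (∀ θ ∈ F, v (z - θ) ≤ ρ) ∧ ∀ ε : ℝ, 0 < ε → ∃ θ ∈ F, ρ - ε < v (z - θ) := by
  have h1 : ∃ b : ℝ, ∀ θ ∈ F, ¬ v.Ge b (z - θ) := by
    by_contra hno
    push Not at hno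
    exact hz (mem_clI.2 hno)
  obtain ⟨b, hb⟩ := h1
  have hne : {x : ℝ | ∃ θ ∈ F, x = v (z - θ)}.Nonempty := ⟨_, 0, zero_mem F, rfl⟩
  have hbd : BddAbove {x : ℝ | ∃ θ ∈ F, x = v (z - θ)} := by
    refine ⟨b, ?_⟩
    rintro _ ⟨θ, hθ, rfl⟩
    by_contra hlt
    push Not at hlt
    exact hb θ hθ (RVal.Ge.of_le hlt.le)
  refine ⟨sSup {x : ℝ | ∃ θ ∈ F, x = v (z - θ)}, fun θ hθ => le_csSup hbd ⟨θ, hθ, rfl⟩,
    fun ε hε => ?_⟩
  obtain ⟨_, ⟨θ, hθ, rfl⟩, h⟩ := exists_lt_of_lt_csSup hne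
    (show sSup {x : ℝ | ∃ θ ∈ F, x = v (z - θ)} - ε < sSup {x : ℝ | ∃ θ ∈ F, x = v (z - θ)} by
      linarith)
  exact ⟨θ, hθ, h⟩

/-- **Over a perfect field there are no jumps**, relative form. -/
theorem tl_of_perfect' (h : Ctx0 k v) (hE : Cld v P) (hP : ∀ a ∈ P, ∃ b ∈ P, b ^ p = a)
    (hV : RV v P K) (hK : Cld v K) (hEK : P ≤ K) (hreg : ∀ a ∈ K, IsAlgebraic P a → a ∈ P) {y : Ω}
    (hyK : y ∈ K) (hyE : y ∉ P) : ∃ s : ℝ, TL v P y s := by
  classical
  have hEh : hen v P = P := TWM.C.hen_eq hE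
  have hKh : hen v K = K := TWM.C.hen_eq hK
  obtain ⟨s, hs, hs'⟩ := exists_dist_ax' (v := v) (F := P) (z := y) fun h0 => hyE (hE h0)
  have hne : ∀ θ : Ω, IsAlgebraic P θ → y ≠ θ := by
    rintro θ hθ rfl
    exact hyE (hreg _ hyK hθ)
  have hle : ∀ θ : Ω, IsAlgebraic P θ → v (y - θ) ≤ s := by
    intro θ hθ
    by_contra hlt
    push Not at hlt
    obtain ⟨a, ha, h1⟩ := lim_of_alg p h hEh hP hKh hEK hreg hyK hθ (RVal.ge_self (y - θ))
      (ε := (v (y - θ) - s) / 2) (by linarith)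
    have h2 := h1 (sub_ne_zero.2 fun h0 => hyE (h0 ▸ ha))
    have h3 := hs a ha
    linarith
  refine ⟨s, ⟨fun ε hε => ?_, fun θ hθ => ⟨hne θ hθ, lt_of_le_of_ne (hle θ hθ) fun heq => ?_⟩⟩⟩
  · obtain ⟨a, ha, h1⟩ := hs' ε hε
    exact ⟨a, ha, RVal.Ge.of_le h1.le⟩
  · -- a better algebraic element
    have h0 : y - θ ≠ 0 := sub_ne_zero.2 (hne θ hθ)
    have hyθ : IsAlgebraic K (y - θ) :=
      (isAlgebraic_algebraMap (⟨y, hyK⟩ : K)).sub (D2P.isAlgebraic_mono hEK hθ)
    obtain ⟨m, hm, e, he, he0, hve⟩ := hV (y - θ) hyθ h0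
    obtain ⟨η, hη⟩ := IsAlgClosed.exists_pow_nat_eq e hm
    have hη0 : η ≠ 0 := by
      rintro rfl
      rw [zero_pow hm.ne'] at hη
      exact he0 hη.symm
    have hvη : v η = v (y - θ) := by
      have h1 : (m : ℝ) * v η = m * v (y - θ) := by
        rw [← hve, ← hη, v.map_pow hη0]
      exact mul_left_cancel₀ (by exact_mod_cast hm.ne') h1
    have hηE : IsAlgebraic P η :=
      IsAlgebraic.of_pow hm (hη ▸ isAlgebraic_algebraMap (⟨e, he⟩ : P))
    have h1 : (y - θ) / η ≠ 0 := div_ne_zero h0 hη0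
    have h2 : v ((y - θ) / η) = 0 := by rw [v.map_div h0 hη0, hvη, sub_self]
    obtain ⟨c, hc0, hc⟩ := h.res _ h1 h2
    have hcE : IsAlgebraic P (algebraMap k Ω c) :=
      isAlgebraic_algebraMap (⟨_, P.algebraMap_mem c⟩ : P)
    have hθ' : IsAlgebraic P (θ + algebraMap k Ω c * η) := hθ.add (hcE.mul hηE)
    have h3 := hle _ hθ'
    have h4 : y - (θ + algebraMap k Ω c * η) = ((y - θ) / η - algebraMap k Ω c) * η := by
      rw [sub_mul, div_mul_cancel₀ _ hη0]
      ring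
    have h5 : (y - θ) / η - algebraMap k Ω c ≠ 0 := by
      intro h6
      rw [h6, zero_mul] at h4
      exact hne _ hθ' (sub_eq_zero.1 h4)
    rw [h4, v.map_mul h5 hη0, hvη, heq] at h3
    have h6 := hc h5
    linarith

/-- The roots of `X ^ p - X - a`. -/
theorem isAlgebraic_as {M : IntermediateField k Ω} {η : Ω} (hη : η ^ p - η ∈ M) :
    IsAlgebraic M η := by
  have h2 : (X ^ p - X - C (⟨η ^ p - η, hη⟩ : M)) ≠ 0 := by
    intro h3
    have h4 := congrArg (fun f => f.coeff p) h3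
    simp only [coeff_sub, coeff_X_pow_self, coeff_X, coeff_C, coeff_zero] at h4
    rw [if_neg hp.out.one_lt.ne, if_neg hp.out.ne_zero, sub_zero, sub_zero] at h4
    exact one_ne_zero h4
  refine ⟨_, h2, ?_⟩
  rw [map_sub, map_sub, map_pow, aeval_X, aeval_C]
  exact sub_self _

/-- **The Artin-Schreier step**, relative form. -/
theorem as_adj' [CharP k p] (h : Ctx0 k v) (hc : CompleteV v) (hPc : Cld v P)
    (hP : ∀ a ∈ P, ∃ b ∈ P, b ^ p = a) (hV : RV v P (cadj v P w)) (hw : TL v P w s) {η : Ω}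
    (hη : η ^ p - η ∈ cadj v P w) (hη' : η ∉ cadj v P w)
    (hreg : ∀ x ∈ adj (cadj v P w) η, IsAlgebraic P x → x ∈ P) :
    ∃ (t : Ω) (s' : ℝ), TL v P t s' ∧ adj (cadj v P w) η = cadj v P t := by
  obtain ⟨g, hg, b₀, hb₀, h1⟩ := as_nf p h hw hP hη
  set M := cadj v P w with hM
  have hPM : P ≤ M := le_cadj v P w
  have hMη : M ≤ adj M η := (D2P.mem_adj_self M η).2
  have hηm : η ∈ adj M η := (D2P.mem_adj_self M η).1
  have halg : IsAlgebraic M η := isAlgebraic_as p hη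
  have hcl : Cld v (adj M η) := cld_adj hc (cld_cadj v P w) halg
  have hV' : RV v P (adj M η) := hV.up hMη (alg_adj halg)
  set t := η - g with ht
  have htm : t ∈ adj M η := sub_mem hηm (hMη hg)
  have htp : t ^ p - t = η ^ p - η - (g ^ p - g) := by
    rw [ht, sub_pow_char]
    ring
  have htP : t ∉ P := by
    intro h2
    apply hη'
    have h3 : η = t + g := by rw [ht]; ring
    rw [h3]
    exact add_mem (hPM h2) hg
  rcases h1 with h1 | ⟨b₁, hb₁, hb10, h1⟩
  · -- `t` is algebraic over `P`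
    exfalso
    refine htP (hreg t htm (isAlgebraic_as p ?_))
    rw [htp, h1]
    exact hb₀
  obtain ⟨s', hs'⟩ := tl_of_perfect' p h hPc hP hV' hcl (hPM.trans hMη) hreg htm htP
  refine ⟨t, s', hs', le_antisymm ?_ (cadj_le hcl (hPM.trans hMη) htm)⟩
  -- `u` near `w`
  set u := (t ^ p - t - b₀) * b₁⁻¹ with hu
  have hPt : P ≤ cadj v P t := le_cadj v P t
  have htt : t ∈ cadj v P t := self_mem_cadj v P t
  have hut : u ∈ cadj v P t := mul_mem (sub_mem (sub_mem (pow_mem htt p) htt) (hPt hb₀))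
    (hPt (inv_mem hb₁))
  have huM : u ∈ M := by
    rw [hu, htp]
    exact mul_mem (sub_mem (sub_mem hη (sub_mem (pow_mem hg p) hg)) (hPM hb₀)) (hPM (inv_mem hb₁))
  have huw : Gt v s (u - w) := by
    have h2 : u - w = (η ^ p - η - (g ^ p - g) - (b₀ + b₁ * w)) * b₁⁻¹ := by
      rw [hu, htp]
      field_simp
      ring
    rw [h2]
    have h3 := h1.mul_ge (RVal.ge_self (v := v) b₁⁻¹)
    rw [v.map_inv hb10] at h3
    exact h3.mono (by linarith)
  have h2 : cadj v P u = M := hw.cadj_congr huM huw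
  have hMt : M ≤ cadj v P t := by
    rw [← h2]
    exact cadj_le (cld_cadj v P t) hPt hut
  refine D2P.adj_le hMt ?_
  have h3 : η = t + g := by rw [ht]; ring
  rw [h3]
  exact add_mem htt (hMt hg)

/-- **Henselian rationality in one variable over a perfect field**, relative values. -/
theorem hrat' [CharP k p] [IsAlgClosed k] (h : Ctx0 k v) (hc : CompleteV v) (hPc : Cld v P)
    (hP : ∀ a ∈ P, ∃ b ∈ P, b ^ p = a)
    (hval : ∀ g : Ω, IsAlgebraic (cadj v P w) g → g ≠ 0 → ∃ c ∈ P, c ≠ 0 ∧ v c = v g)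
    (hL : Cld v L) (hPL : P ≤ L) (hreg : ∀ x ∈ L, IsAlgebraic P x → x ∈ P) (hwL : w ∈ L)
    (hwP : w ∉ P) (S : Finset Ω) (hS : ∀ x ∈ S, IsAlgebraic (cadj v P w) x)
    (hLS : L = cadj v P w ⊔ IntermediateField.adjoin k (S : Set Ω)) :
    ∃ (t : Ω) (s' : ℝ), t ∈ L ∧ TL v P t s' ∧ L = cadj v P t := by
  classical
  set M := cadj v P w with hM
  have hPM : P ≤ M := le_cadj v P w
  have hML : M ≤ L := cadj_le hL hPL hwL
  have hVM : RV v P M := fun g hg hg0 => by
    obtain ⟨c, hc1, hc2, hc3⟩ := hval g hg hg0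
    exact ⟨1, one_pos, c, hc1, hc2, by rw [hc3, Nat.cast_one, one_mul]⟩
  have hLalg : ∀ x ∈ L, IsAlgebraic M x := by
    intro x hx
    have h1 : L ≤ algc M := by
      rw [hLS]
      refine sup_le (le_algc M) (IntermediateField.adjoin_le_iff.2 fun y hy => ?_)
      exact mem_algc.2 (hS y hy)
    exact mem_algc.1 (h1 hx)
  have hVL : RV v P L := hVM.up hML hLalg
  -- separable powers
  choose! m hm using fun x hx => exists_sep_pow (p := p) (hS x hx)
  set n := S.sup m with hn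
  have hmn : ∀ x ∈ S, IsSeparable M (x ^ p ^ n) := by
    intro x hx
    have h1 : m x ≤ n := Finset.le_sup hx
    have h2 : x ^ p ^ n = (x ^ p ^ m x) ^ p ^ (n - m x) := by
      rw [← pow_mul, ← pow_add, Nat.add_sub_cancel' h1]
    rw [h2]
    have h3 := hm x hx
    have h4 : x ^ p ^ m x ∈ separableClosure M Ω := mem_separableClosure_iff.2 h3
    exact mem_separableClosure_iff.1 (pow_mem h4 _)
  let S' : Finset Ω := S.image fun x => x ^ p ^ n
  have hS'L : ∀ x ∈ S', x ∈ L := by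
    intro x hx
    obtain ⟨y, hy, rfl⟩ := Finset.mem_image.1 hx
    refine pow_mem ?_ _
    rw [hLS]
    exact (le_sup_right : _ ≤ M ⊔ IntermediateField.adjoin k (S : Set Ω))
      (IntermediateField.subset_adjoin k _ hy)
  have key : M ⊔ IntermediateField.adjoin k (S' : Set Ω) ≤ L →
      ∃ (t : Ω) (s' : ℝ), TL v P t s' ∧ M ⊔ IntermediateField.adjoin k (S' : Set Ω) = cadj v P t := by
    refine TWCT.as_induction_pv p hp.out h M (TWM.C.hen_eq (cld_cadj v P w)) ?_
      (fun M' => M' ≤ L → ∃ (t : Ω) (s' : ℝ), TL v P t s' ∧ M' = cadj v P t) ?_ ?_ S' ?_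
    · intro g hg hg0
      obtain ⟨c, hc1, hc2, hc3⟩ := hval g hg hg0
      exact ⟨0, c, hPM hc1, hc2, by rw [hc3, pow_zero, one_mul]⟩
    · intro _
      obtain ⟨s', hs'⟩ := tl_of_perfect' p h hPc hP hVL hL hPL hreg hwL hwP
      exact ⟨w, s', hs', rfl⟩
    · intro M' η hMM' _ hsep hQ hη hη' hle
      have hle' : M' ≤ L := (D2P.mem_adj_self M' η).2.trans hle
      obtain ⟨t, s', hs', rfl⟩ := hQ hle'
      exact as_adj' p h hc hPc hP (hVM.up hMM' fun g hg => (hsep g hg).isIntegral.isAlgebraic)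
        hs' hη hη' fun x hx => hreg x (hle hx)
    · intro x hx
      obtain ⟨y, hy, rfl⟩ := Finset.mem_image.1 hx
      exact hmn y hy
  obtain ⟨t, s', hs', h1⟩ := key (sup_le hML (IntermediateField.adjoin_le_iff.2 fun x hx =>
    hS'L x hx))
  have htL : t ∈ L := by
    have h2 : t ∈ M ⊔ IntermediateField.adjoin k (S' : Set Ω) := by
      rw [h1]
      exact self_mem_cadj v P t
    exact sup_le hML (IntermediateField.adjoin_le_iff.2 fun x hx => hS'L x hx) h2
  obtain ⟨t', ht', h3⟩ := pi_adj1 p hc hPc hP hL hPL n t htL (by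
    intro x hx
    rw [hLS] at hx
    have h4 : M ≤ cadj v P t := by
      rw [← h1]
      exact le_sup_left
    refine pow_mem_cld p (F := cadj v P t) (S := (S : Set Ω)) (fun y hy => ?_) x
      (sup_le_sup_right h4 _ hx)
    rw [← h1]
    exact (le_sup_right : _ ≤ M ⊔ IntermediateField.adjoin k (S' : Set Ω))
      (IntermediateField.subset_adjoin k _ (Finset.mem_image_of_mem _ hy)))
  have ht'P : t' ∉ P := by
    intro h4
    apply hwP
    have h5 : cadj v P t' ≤ P := cadj_le hPc le_rfl h4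
    exact h5 (h3 ▸ hwL)
  obtain ⟨s'', hs''⟩ := tl_of_perfect' p h hPc hP hVL hL hPL hreg ht' ht'P
  exact ⟨t', s'', ht', hs'', h3⟩

end Pool.Agent.TWC
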