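import Pool.Agent.Lib.TWC.HratD
import Pool.Agent.Lib.TWCT.Red
import Pool.Agent.Lib.D2P.A2h

/-!
# TANK W, R2, part E: henselian rationality in one variable over a perfect field

`P` perfect and closed, `L` closed and immediate over `P`, `P` algebraically closed in `L`, `L`
finite over `P<w>`, `w ∈ L`, `w ∉ P`. Then `L = P<t>` with an honest `t` (`hratG`); monomials of all
the real values are assumed in `Ω`.
* `reg_adj`: `L(β)` is regular over `P(β)`;
* `dG`: the divisible hull of the values of `P`; `alg_dG`: the values of algebraic elements;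
* `reg_pm`: the field with the monomials of `dG` is regular over the base with the monomials.
-/

set_option autoImplicit false

open Polynomial

namespace Pool.Agent.TWC

open Pool.Agent.H15JM (RVal)
open Pool.Agent.LU1 (VPos adj)
open Pool.Agent.D2 (Ctx0)
open Pool.Agent.D2P (hen clI mem_clI rootF mem_rootF)
open Pool.Agent.TWM
open Pool.Agent.TWS (VG MonG PM TowR)

universe u

variable {k Ω : Type u} [Field k] [Field Ω] [Algebra k Ω] {v : RVal Ω}
  {P Q K L : IntermediateField k Ω} {w : Ω} {M : ℝ → Ω}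

/-! ### Regular extensions -/

/-- The minimal polynomial stays the same over a regular extension. -/
theorem natDegree_minpoly_reg (hPK : P ≤ K) (hreg : ∀ x ∈ K, IsAlgebraic P x → x ∈ P) {θ : Ω}
    (hθ : IsAlgebraic P θ) : (minpoly K θ).natDegree = (minpoly P θ).natDegree := by
  have hint : IsIntegral P θ := hθ.isIntegral
  have hθK : IsAlgebraic K θ := D2P.isAlgebraic_mono hPK hθ
  have hintK : IsIntegral K θ := hθK.isIntegral
  let _ : Algebra P K := (IntermediateField.inclusion hPK).toRingHom.toAlgebra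
  have _ : IsScalarTower P K Ω := IsScalarTower.of_algebraMap_eq fun _ => rfl
  have hdvd : minpoly K θ ∣ (minpoly P θ).map (algebraMap P K) :=
    minpoly.dvd_map_of_isScalarTower P K θ
  refine le_antisymm ?_ ?_
  · have h1 := natDegree_le_of_dvd hdvd
      ((Polynomial.map_ne_zero_iff (algebraMap P K).injective).2 (minpoly.ne_zero hint))
    rwa [natDegree_map] at h1
  have hcoef : ∀ i, ((minpoly K θ).coeff i : Ω) ∈ P := by
    intro i
    refine hreg _ ((minpoly K θ).coeff i).2 ?_
    have h1 := Polynomial.isIntegral_coeff_of_dvd (minpoly P θ) (minpoly K θ)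
      (minpoly.monic hint) (minpoly.monic hintK) hdvd i
    have h2 : IsIntegral P (algebraMap K Ω ((minpoly K θ).coeff i)) := h1.algebraMap
    exact h2.isAlgebraic
  have hl : (minpoly K θ).map (algebraMap K Ω) ∈ Polynomial.lifts (algebraMap P Ω) := by
    rw [Polynomial.lifts_iff_coeff_lifts]
    intro i
    rw [coeff_map]
    exact ⟨⟨_, hcoef i⟩, rfl⟩
  obtain ⟨g, hg⟩ := (Polynomial.mem_lifts _).1 hl
  have hg0 : g ≠ 0 := by
    rintro rfl
    rw [Polynomial.map_zero] at hg
    exact (Polynomial.map_ne_zero_iff (algebraMap K Ω).injective).2 (minpoly.ne_zero hintK) hg.symm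
  have h1 : aeval θ g = 0 := by
    have h2 : aeval θ g = aeval θ (minpoly K θ) := by
      rw [aeval_def, aeval_def, eval₂_eq_eval_map, eval₂_eq_eval_map, hg]
    rw [h2, minpoly.aeval]
  have h2 := natDegree_le_of_dvd (minpoly.dvd P θ h1) hg0
  have h3 := congrArg natDegree hg
  rw [natDegree_map, natDegree_map] at h3
  rwa [h3] at h2

/-- **Finite extensions of the base** keep regular extensions regular. -/
theorem reg_adj (hPK : P ≤ K) (hsep : ∀ x : Ω, IsAlgebraic P x → IsSeparable P x)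
    (hreg : ∀ x ∈ K, IsAlgebraic P x → x ∈ P) {β : Ω} (hβ : IsAlgebraic P β) :
    ∀ x ∈ adj K β, IsAlgebraic P x → x ∈ adj P β := by
  classical
  intro x hx hxP
  obtain ⟨α, hα, hPα⟩ := D2P.H0aux.exists_prim (T := P) {β, x} (by
    intro s hs
    rcases Finset.mem_insert.1 hs with rfl | hs
    · exact hsep _ hβ
    · rw [Finset.mem_singleton] at hs
      rw [hs]
      exact hsep _ hxP)
  have hαP : IsAlgebraic P α := hα.isIntegral.isAlgebraic
  have hsub : ∀ y ∈ (({β, x} : Finset Ω) : Set Ω), y ∈ adj P α := fun y hy => by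
    rw [hPα]
    exact (le_sup_right : IntermediateField.adjoin k _ ≤ _)
      (IntermediateField.subset_adjoin k _ hy)
  have hβα : β ∈ adj P α := hsub β (by simp)
  have hxα : x ∈ adj P α := hsub x (by simp)
  have hKP : adj P α ≤ adj K α := D2P.adj_le (hPK.trans (D2P.mem_adj_self K α).2)
    (D2P.mem_adj_self K α).1
  have h1 : adj K α = adj K β := by
    refine le_antisymm (D2P.adj_le (D2P.mem_adj_self K β).2 ?_)
      (D2P.adj_le (D2P.mem_adj_self K α).2 (hKP hβα))
    have h2 : adj P α ≤ adj K β := by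
      rw [hPα]
      refine sup_le (hPK.trans (D2P.mem_adj_self K β).2) ?_
      rw [IntermediateField.adjoin_le_iff]
      intro y hy
      have hy' : y = β ∨ y = x := by simpa using hy
      rcases hy' with rfl | rfl
      · exact (D2P.mem_adj_self K _).1
      · exact hx
    exact h2 (D2P.mem_adj_self P α).1
  -- degrees
  have h2 : IntermediateField.adjoin K {α} = IntermediateField.adjoin K {β} := by
    apply IntermediateField.restrictScalars_injective k
    rw [← adj_eq_restrict, ← adj_eq_restrict, h1]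
  have hαK : IsIntegral K α := (D2P.isAlgebraic_mono hPK hαP).isIntegral
  have hβK : IsIntegral K β := (D2P.isAlgebraic_mono hPK hβ).isIntegral
  have h3 : (minpoly K α).natDegree = (minpoly K β).natDegree := by
    rw [← IntermediateField.adjoin.finrank hαK, ← IntermediateField.adjoin.finrank hβK, h2]
  rw [natDegree_minpoly_reg hPK hreg hαP, natDegree_minpoly_reg hPK hreg hβ,
    ← IntermediateField.adjoin.finrank hαP.isIntegral,
    ← IntermediateField.adjoin.finrank hβ.isIntegral] at h3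
  have hle : IntermediateField.adjoin P {β} ≤ IntermediateField.adjoin P {α} := by
    rw [IntermediateField.adjoin_le_iff, Set.singleton_subset_iff]
    have h4 := hβα
    rw [adj_eq_restrict] at h4
    exact h4
  have _ : FiniteDimensional P (IntermediateField.adjoin P {α}) :=
    IntermediateField.adjoin.finiteDimensional hαP.isIntegral
  have h4 := IntermediateField.eq_of_le_of_finrank_eq hle h3.symm
  rw [adj_eq_restrict, h4, ← adj_eq_restrict]
  exact hxα

/-- Algebraic extensions of perfect fields are perfect. -/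
theorem perf_alg (p : ℕ) [hp : Fact p.Prime] [CharP Ω p] (hPQ : P ≤ Q)
    (hQ : ∀ x ∈ Q, IsAlgebraic P x) (hP : ∀ a ∈ P, ∃ b ∈ P, b ^ p = a) :
    ∀ a ∈ Q, ∃ b ∈ Q, b ^ p = a := by
  obtain ⟨hexp, hperf⟩ := perfectRing_of p hP
  have hPF : PerfectField P := PerfectRing.toPerfectField P p
  let _ : Algebra P Q := (IntermediateField.inclusion hPQ).toRingHom.toAlgebra
  have _ : IsScalarTower P Q Ω := IsScalarTower.of_algebraMap_eq fun _ => rfl
  have hal : Algebra.IsAlgebraic P Q := ⟨fun e => by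
    have h1 := hQ e e.2
    exact (isAlgebraic_algebraMap_iff (Subtype.val_injective : Function.Injective
      (algebraMap Q Ω))).1 h1⟩
  have hQch : CharP Q p := RingHom.charP (algebraMap Q Ω) (algebraMap Q Ω).injective p
  have hQexp : ExpChar Q p := ExpChar.prime hp.out
  have hQPF : PerfectField Q := Algebra.IsAlgebraic.perfectField P
  have hQp : PerfectRing Q p := inferInstance
  intro a ha
  obtain ⟨b, hb⟩ := (frobeniusEquiv Q p).surjective ⟨a, ha⟩
  refine ⟨b, b.2, ?_⟩
  have h1 := congrArg (fun x : Q => (x : Ω)) hb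
  rw [frobeniusEquiv_apply, frobenius_def] at h1
  exact h1

/-- Finite extensions of closed fields are closed. -/
theorem cld_sup_fin (hc : CompleteV v) (hK : Cld v K) (S : Finset Ω)
    (hS : ∀ x ∈ S, IsAlgebraic K x) : Cld v (K ⊔ IntermediateField.adjoin k (S : Set Ω)) := by
  classical
  induction S using Finset.induction_on with
  | empty =>
    rw [Finset.coe_empty, IntermediateField.adjoin_empty, sup_bot_eq]
    exact hK
  | insert a S _ ih =>
    have h1 : K ⊔ IntermediateField.adjoin k ((insert a S : Finset Ω) : Set Ω) =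
        adj (K ⊔ IntermediateField.adjoin k (S : Set Ω)) a := by
      rw [adj, sup_assoc, ← IntermediateField.adjoin_union, Finset.coe_insert,
        Set.union_singleton]
    rw [h1]
    exact cld_adj hc (ih fun x hx => hS x (Finset.mem_insert_of_mem hx))
      (D2P.isAlgebraic_mono le_sup_left (hS a (Finset.mem_insert_self a S)))

/-! ### The divisible hull of the values -/

/-- The divisible hull of the values of `P`. -/
noncomputable def dG (v : RVal Ω) (P : IntermediateField k Ω) : AddSubgroup ℝ :=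
  (D2P.ratSpan (VG v P)).toAddSubgroup

theorem mem_dG {g : ℝ} : g ∈ dG v P ↔ ∃ m : ℕ, 0 < m ∧ (m : ℝ) * g ∈ VG v P := Iff.rfl

theorem VG_le_dG : VG v P ≤ dG v P := fun g hg =>
  mem_dG.2 ⟨1, one_pos, by rwa [Nat.cast_one, one_mul]⟩

theorem dG_of_mul {g : ℝ} {m : ℕ} (hm : 0 < m) (hg : (m : ℝ) * g ∈ dG v P) : g ∈ dG v P := by
  obtain ⟨l, hl, h1⟩ := mem_dG.1 hg
  refine mem_dG.2 ⟨l * m, Nat.mul_pos hl hm, ?_⟩
  rw [Nat.cast_mul, mul_assoc]
  exact h1

/-- The values of algebraic elements. -/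
theorem alg_dG (hK : VG v K ≤ dG v P) {g : Ω} (hg : IsAlgebraic K g) (h0 : g ≠ 0) :
    v g ∈ dG v P := by
  obtain ⟨f, hf, hfg⟩ := hg
  obtain ⟨c, hc, hc0, m, hm, -, h1⟩ := TWCT.comm_value_le K h0 hf hfg
  refine dG_of_mul hm ?_
  rw [← h1]
  exact hK (VG.self hc hc0)

section Mon

variable [IsAlgClosed Ω]

omit [IsAlgClosed Ω] in
/-- The monomials of the divisible hull are algebraic. -/
theorem mon_alg (hM : MonG v P ⊤ M) {g : ℝ} (hg : g ∈ dG v P) : IsAlgebraic P (M g) := by
  obtain ⟨m, hm, h1⟩ := mem_dG.1 hg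
  refine IsAlgebraic.of_pow hm ?_
  rw [← hM.ms.pow trivial m]
  exact isAlgebraic_algebraMap (⟨_, hM.mem _ trivial h1⟩ : P)

omit [IsAlgClosed Ω] in
theorem sup_mon_alg (hM : MonG v P ⊤ M) :
    ∀ x ∈ P ⊔ IntermediateField.adjoin k (M '' (dG v P : Set ℝ)), IsAlgebraic P x := by
  intro x hx
  have h1 : P ⊔ IntermediateField.adjoin k (M '' (dG v P : Set ℝ)) ≤ algc P := by
    refine sup_le (le_algc P) (IntermediateField.adjoin_le_iff.2 ?_)
    rintro _ ⟨g, hg, rfl⟩
    exact mem_algc.2 (mon_alg hM hg)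
  exact mem_algc.1 (h1 hx)

omit [IsAlgClosed Ω] in
theorem VG_pm (hM : MonG v P ⊤ M) : VG v (PM v P (dG v P) M) ≤ dG v P := by
  rw [PM, TWS.VG.clI]
  rintro _ ⟨a, ha, h0, rfl⟩
  exact alg_dG VG_le_dG (sup_mon_alg hM a ha) h0

variable (p : ℕ) [hp : Fact p.Prime] [CharP Ω p]

/-- **Regularity of the field with the monomials of the divisible hull.** -/
theorem reg_pm [CharP k p] (h : Ctx0 k v) (hc : CompleteV v) (hM : MonG v P ⊤ M)
    (hPc : Cld v P) (hP : ∀ a ∈ P, ∃ b ∈ P, b ^ p = a) (hPL : P ≤ L) (hL : Cld v L)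
    (hreg : ∀ x ∈ L, IsAlgebraic P x → x ∈ P) :
    ∀ x ∈ PM v L (dG v P) M, IsAlgebraic (PM v P (dG v P) M) x → x ∈ PM v P (dG v P) M := by
  classical
  intro x hx hxa
  refine PM.cld (mem_clI.2 fun b => ?_)
  obtain ⟨y, hy, h1⟩ := mem_clI.1 hx (b + 1)
  obtain ⟨θ, hθ, h2⟩ := TWM.exists_near_alg hxa (b + 1)
  have hθP : IsAlgebraic P θ := D2P.H0aux.alg_trans le_sup_left (sup_mon_alg hM) hθ
  have h3 : v.Ge (b + 1) (y - θ) := by
    have h4 := h2.sub h1
    rwa [sub_sub_sub_cancel_left] at h4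
  -- a finite set of monomials
  obtain ⟨T, hTM, hyT⟩ : ∃ T : Finset Ω, (T : Set Ω) ⊆ M '' (dG v P : Set ℝ) ∧
      y ∈ L ⊔ IntermediateField.adjoin k (T : Set Ω) := by
    have h4 : y ∈ IntermediateField.adjoin L (M '' (dG v P : Set ℝ)) := by
      rw [← IntermediateField.restrictScalars_adjoin_eq_sup] at hy
      exact hy
    obtain ⟨T, hT, h5⟩ := IntermediateField.exists_finset_of_mem_adjoin h4
    refine ⟨T, hT, ?_⟩
    rw [← IntermediateField.restrictScalars_adjoin_eq_sup]
    exact h5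
  have hTa : ∀ x ∈ T, IsAlgebraic P x := by
    intro x hx
    obtain ⟨g, hg, rfl⟩ := hTM hx
    exact mon_alg hM hg
  have hsep : ∀ x : Ω, IsAlgebraic P x → IsSeparable P x := fun x hx =>
    D2P.H0aux.sep_of_perf p hp.out P hP hx
  obtain ⟨β, hβ, hPβ⟩ := D2P.H0aux.exists_prim (T := P) T fun x hx => hsep x (hTa x hx)
  have hβP : IsAlgebraic P β := hβ.isIntegral.isAlgebraic
  have hLβ : L ⊔ IntermediateField.adjoin k (T : Set Ω) ≤ adj L β := by
    refine sup_le (D2P.mem_adj_self L β).2 ?_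
    have h4 : adj P β ≤ adj L β := D2P.adj_le (hPL.trans (D2P.mem_adj_self L β).2)
      (D2P.mem_adj_self L β).1
    refine le_trans ?_ h4
    rw [hPβ]
    exact le_sup_right
  have hPF : ∀ a ∈ adj P β, ∃ b ∈ adj P β, b ^ p = a :=
    perf_alg p (D2P.mem_adj_self P β).2 (alg_adj hβP) hP
  have hregβ : ∀ a ∈ adj L β, IsAlgebraic (adj P β) a → a ∈ adj P β := fun a ha haa =>
    reg_adj hPL hsep hreg hβP a ha
      (D2P.H0aux.alg_trans (D2P.mem_adj_self P β).2 (alg_adj hβP) haa)
  obtain ⟨a, ha, h4⟩ := lim_of_alg p h (TWM.C.hen_eq (cld_adj hc hPc hβP)) hPF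
    (TWM.C.hen_eq (cld_adj hc hL (D2P.isAlgebraic_mono hPL hβP)))
    (D2P.adj_le (hPL.trans (D2P.mem_adj_self L β).2) (D2P.mem_adj_self L β).1) hregβ (hLβ hyT)
    (D2P.isAlgebraic_mono (D2P.mem_adj_self P β).2 hθP) h3 (ε := 1) one_pos
  refine ⟨a, ?_, ?_⟩
  · have h5 : adj P β ≤ PM v P (dG v P) M := by
      rw [hPβ]
      refine sup_le PM.le ?_
      rw [IntermediateField.adjoin_le_iff]
      intro x hx
      obtain ⟨g, hg, rfl⟩ := hTM hx
      exact PM.mon hg
    exact h5 ha
  · have h5 := (h1.mono (show b ≤ b + 1 by linarith)).add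
      (h4.mono (show b ≤ b + 1 - 1 by linarith))
    rwa [sub_add_sub_cancel] at h5

omit hp [CharP Ω p] [IsAlgClosed Ω] in
/-- All the monomials. -/
theorem pm_pm (A : IntermediateField k Ω) (G : AddSubgroup ℝ) :
    PM v (PM v A G M) ⊤ M = PM v A ⊤ M := by
  refine le_antisymm (PM.le_of PM.cld (PM.le_of PM.cld PM.le fun g _ => PM.mon trivial)
    fun g _ => PM.mon trivial) ?_
  exact PM.mono PM.le

/-- **Henselian rationality in one variable over a perfect field.** -/
theorem hratG [CharP k p] [IsAlgClosed k] (h : Ctx0 k v) (hc : CompleteV v)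
    (hM : MonG v P ⊤ M) (hPc : Cld v P) (hP : ∀ a ∈ P, ∃ b ∈ P, b ^ p = a) (hi : Imm v P L)
    (hL : Cld v L) (hreg : ∀ x ∈ L, IsAlgebraic P x → x ∈ P) (hwL : w ∈ L) (hwP : w ∉ P)
    (S : Finset Ω) (hS : ∀ x ∈ S, IsAlgebraic (cadj v P w) x)
    (hLS : L = cadj v P w ⊔ IntermediateField.adjoin k (S : Set Ω)) :
    ∃ (t : Ω) (s : ℝ), t ∈ L ∧ TL v P t s ∧ L = cadj v P t := by
  classical
  have hms := hM.ms
  have hMd : MonG v P (dG v P) M := ⟨TWS.MS.mono hms le_top, fun g _ hg => hM.mem g trivial hg⟩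
  set P' := PM v P (dG v P) M with hP'
  set L' := PM v L (dG v P) M with hL'
  have hPL' : P' ≤ L' := PM.mono hi.le
  have hi' : Imm v P' L' := TWS.Imm.pm hMd hi
  have hVP' : VG v P' ≤ dG v P := VG_pm hM
  have hM' : MonG v P' ⊤ M := ⟨hms, fun g _ hg => PM.mon (hVP' hg)⟩
  have hwL' : cadj v P' w ≤ L' := cadj_le PM.cld hPL' (PM.le hwL)
  have hwc : cadj v P w ≤ cadj v P' w := cadj_mono PM.le w
  have hS' : ∀ x ∈ S, IsAlgebraic (cadj v P' w) x := fun x hx => D2P.isAlgebraic_mono hwc (hS x hx)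
  have hp0 : (p : ℝ) ≠ 0 := by exact_mod_cast hp.out.ne_zero
  obtain ⟨t, s, -, hts, hLt⟩ : ∃ (t : Ω) (s : ℝ), t ∈ L' ∧ TL v P' t s ∧ L' = cadj v P' t := by
    refine hrat' p h hc (w := w) PM.cld ?_ ?_ PM.cld hPL' ?_ (PM.le hwL) ?_ S hS' ?_
    · refine PM.perf p hMd.ms (fun g hg => ?_) hP
      refine dG_of_mul hp.out.pos ?_
      rwa [mul_div_cancel₀ _ hp0]
    · intro g hg hg0
      have h1 : VG v (cadj v P' w) ≤ dG v P := by
        refine (VG.mono hwL').trans ?_
        rw [TWS.VG.imm hi']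
        exact hVP'
      have h2 := alg_dG h1 hg hg0
      exact ⟨M (v g), PM.mon h2, hms.ne _ trivial, hms.val _ trivial⟩
    · exact reg_pm p h hc hM hPc hP hi.le hL hreg
    · intro h1
      apply hwP
      refine hPc (mem_clI.2 fun b => ?_)
      exact TWS.dist_PM hMd (Imm.refl _) hi hi.le hwL h1 (b := b) (by
        rw [sub_self]
        exact RVal.Ge.zero)
    · refine le_antisymm ?_ ?_
      · refine PM.le_of (cld_sup_fin hc (cld_cadj v _ _) S hS') ?_ fun g hg => ?_
        · rw [hLS]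
          exact sup_le_sup_right hwc _
        · exact (le_sup_left : _ ≤ cadj v P' w ⊔ IntermediateField.adjoin k (S : Set Ω))
            (le_cadj v P' w (PM.mon hg))
      · refine sup_le hwL' ?_
        rw [IntermediateField.adjoin_le_iff]
        intro x hx
        refine PM.le ?_
        rw [hLS]
        exact (le_sup_right : _ ≤ cadj v P w ⊔ IntermediateField.adjoin k (S : Set Ω))
          (IntermediateField.subset_adjoin k _ hx)
  -- to all the monomials, and down
  have h1 : TowR v 1 P' L' := TWS.towR_iff_one.2 ⟨t, s, hts, hLt⟩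
  have h2 := TWS.TowR.pm hM' (fun r => ⟨M r, PM.mon trivial, hms.ne r trivial,
    hms.val r trivial⟩) (Imm.refl _) h1
  rw [hP', hL', pm_pm, pm_pm] at h2
  have hcx : Fact (Ctx0 k v) := ⟨h⟩
  obtain ⟨t', s', h3, h4⟩ := TWS.towR_iff_one.1
    (TWS.down1 p hM hP hc hi hL (Imm.refl _) hi.le hPc h2)
  refine ⟨t', s', ?_, h3, h4⟩
  rw [h4]
  exact self_mem_cadj v P t'

end Mon

end Pool.Agent.TWC
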