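import Pool.Agent.Lib.TWM.A1

/-!
# TANK W, class C, row R4: the truncated Poincare lemma with margin (Lemma INT of W_V_h43)

`z` is of transcendental type over `E`, of radius `s`; `D_c` is the Hasse derivative of order `p^c`.
Let `b_c` be polynomials over `E` such that `D_c' b_c - D_c b_c'` and `D_c^(p-1) b_c` are small at
`z`.  Then there is a polynomial `F` over `E` with `D_c F - b_c` small at `z` for all `c`.
-/

set_option autoImplicit false

open Polynomial

namespace Pool.Agent.TWC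

open Pool.Agent.H15JM (RVal)
open Pool.Agent.TWM

universe u

/-! ### Binomial coefficients -/

section Abs

variable {R : Type u} [Field R] {p : ℕ} [hp : Fact p.Prime] [CharP R p]

omit hp in
theorem cast_eq_of_modEq {a b : ℕ} (h : a ≡ b [MOD p]) : (a : R) = (b : R) :=
  (CharP.natCast_eq_natCast (R := R) p).2 h

/-- `binom(J, p^c)` is the quotient `J / p^c` in characteristic `p`. -/
theorem choose_pow_cast (c : ℕ) : ∀ J : ℕ, ((J.choose (p ^ c) : ℕ) : R) = ((J / p ^ c : ℕ) : R) := by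
  have hp1 : 1 < p := hp.out.one_lt
  induction c with
  | zero =>
    intro J
    rw [pow_zero, Nat.choose_one_right, Nat.div_one]
  | succ c ih =>
    intro J
    have h1 := Choose.choose_modEq_choose_mod_mul_choose_div_nat (n := J) (k := p ^ (c + 1)) (p := p)
    have h2 : p ^ (c + 1) % p = 0 := by
      rw [pow_succ]; exact Nat.mul_mod_left _ _
    have h3 : p ^ (c + 1) / p = p ^ c := by
      rw [pow_succ]; exact Nat.mul_div_cancel _ (by omega)
    rw [h2, h3, Nat.choose_zero_right, one_mul] at h1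
    rw [cast_eq_of_modEq (R := R) h1, ih (J / p), Nat.div_div_eq_div_mul, pow_succ, mul_comm]

theorem mem_of_natCast_mul {M : AddSubgroup R} {u : ℕ} (hu : ¬ p ∣ u) {x : R}
    (hx : (u : R) * x ∈ M) : x ∈ M := by
  have h1 : Nat.Coprime u p := ((Nat.Prime.coprime_iff_not_dvd hp.out).2 hu).symm
  obtain ⟨w, -, hw⟩ := Nat.exists_mul_mod_eq_one_of_coprime h1 hp.out.one_lt
  have h2 : ((u * w : ℕ) : R) = 1 := by
    have h3 : u * w ≡ 1 [MOD p] := by
      unfold Nat.ModEq
      rw [hw, Nat.mod_eq_of_lt hp.out.one_lt]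
    rw [cast_eq_of_modEq (R := R) h3, Nat.cast_one]
  have h3 : w • ((u : R) * x) = x := by
    rw [nsmul_eq_mul, ← mul_assoc, mul_comm (w : R), ← Nat.cast_mul, h2, one_mul]
  rw [← h3]
  exact M.nsmul_mem hx w

variable (p) in
/-- The coefficients of the primitive. -/
noncomputable def epsJ (β : ℕ → ℕ → R) (J : ℕ) : R :=
  if J = 0 then 0
  else β (padicValNat p J) (J - p ^ padicValNat p J) / ((J / p ^ padicValNat p J : ℕ) : R)

theorem epsJ_spec (M : ℕ → AddSubgroup R) (β : ℕ → ℕ → R)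
    (h1 : ∀ c c' n, c < c' → ((((n + p ^ c').choose (p ^ c') : ℕ) : R) * β c (n + p ^ c') -
      (((n + p ^ c).choose (p ^ c) : ℕ) : R) * β c' (n + p ^ c)) ∈ M (n + p ^ c + p ^ c'))
    (h2 : ∀ c n, p ^ (c + 1) ∣ n → β c (n + (p - 1) * p ^ c) ∈ M (n + p ^ (c + 1)))
    (c' n : ℕ) :
    (((n + p ^ c').choose (p ^ c') : ℕ) : R) * epsJ p β (n + p ^ c') - β c' n ∈ M (n + p ^ c') := by
  have hp1 : 1 < p := hp.out.one_lt
  have hpp : ∀ c, 0 < p ^ c := fun c => Nat.pow_pos (by omega)
  set J := n + p ^ c' with hJ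
  have hJ0 : J ≠ 0 := by have := hpp c'; omega
  set c := padicValNat p J with hc
  obtain ⟨u, hu⟩ : p ^ c ∣ J := pow_padicValNat_dvd
  have hu' : ¬ p ∣ u := by
    intro h
    obtain ⟨w, rfl⟩ := h
    refine pow_succ_padicValNat_not_dvd (p := p) hJ0 ⟨w, ?_⟩
    rw [← hc, hu, pow_succ]; ring
  have hdiv : J / p ^ c = u := by rw [hu]; exact Nat.mul_div_cancel_left _ (hpp c)
  have hu0 : (u : R) ≠ 0 := by
    intro h
    exact hu' ((CharP.cast_eq_zero_iff R p u).1 h)
  have heps : epsJ p β J = β c (J - p ^ c) / (u : R) := by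
    rw [epsJ, if_neg hJ0, ← hc, hdiv]
  rw [heps, choose_pow_cast]
  rcases lt_trichotomy c c' with hcc | hcc | hcc
  · -- c < c'
    have hd : p ^ c' = p ^ c * p ^ (c' - c) := by rw [← pow_add]; congr 1; omega
    have hd1 : p ∣ p ^ (c' - c) := dvd_pow_self p (by omega)
    have hnd : p ^ c * u = n + p ^ c * p ^ (c' - c) := by rw [← hu, hJ, ← hd]
    have hle : p ^ (c' - c) ≤ u := by
      have h3 : p ^ c * p ^ (c' - c) ≤ p ^ c * u := by omega
      exact Nat.le_of_mul_le_mul_left h3 (hpp c)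
    have hlt : p ^ (c' - c) < u := by
      rcases hle.lt_or_eq with h3 | h3
      · exact h3
      · exact absurd (h3 ▸ hd1) hu'
    have hn : n = p ^ c * (u - p ^ (c' - c)) := by
      rw [Nat.mul_sub]; omega
    have hge : p ^ c ≤ n := by
      rw [hn]; exact Nat.le_mul_of_pos_right _ (by omega)
    have h3 := h1 c c' (n - p ^ c) hcc
    have e1 : n - p ^ c + p ^ c' = J - p ^ c := by omega
    have e2 : n - p ^ c + p ^ c = n := by omega
    have e3 : n - p ^ c + p ^ c + p ^ c' = J := by omega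
    rw [e3, e2, e1, choose_pow_cast, choose_pow_cast] at h3
    have e4 : n / p ^ c = u - p ^ (c' - c) := by
      rw [hn]; exact Nat.mul_div_cancel_left _ (hpp c)
    have e5 : ((n / p ^ c : ℕ) : R) = (u : R) := by
      rw [e4, Nat.cast_sub hle, (CharP.cast_eq_zero_iff R p _).2 hd1, sub_zero]
    have e6 : (J - p ^ c) / p ^ c' = J / p ^ c' := by
      have e7 : J - p ^ c = p ^ c * (u - 1) := by rw [hu, Nat.mul_sub, mul_one]
      rw [e7, hu, hd, Nat.mul_div_mul_left _ _ (hpp c), Nat.mul_div_mul_left _ _ (hpp c)]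
      have hd2 : ¬ p ^ (c' - c) ∣ u := fun h => hu' (hd1.trans h)
      obtain ⟨w, hw⟩ : ∃ w, u = w + 1 := ⟨u - 1, by omega⟩
      rw [hw, Nat.add_sub_cancel]
      rw [hw] at hd2
      rw [Nat.succ_div_of_not_dvd hd2]
    rw [e5, e6] at h3
    refine mem_of_natCast_mul (p := p) hu' ?_
    have e8 : (u : R) * (((J / p ^ c' : ℕ) : R) * (β c (J - p ^ c) / (u : R)) - β c' n) =
        ((J / p ^ c' : ℕ) : R) * β c (J - p ^ c) - (u : R) * β c' n := by
      field_simp
    rw [e8]
    exact h3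
  · -- c = c'
    have e1 : n = J - p ^ c := by rw [hcc]; omega
    rw [← hcc, hdiv, e1, mul_div_cancel₀ _ hu0, sub_self]
    exact (M J).zero_mem
  · -- c' < c
    have hd : p ^ (c' + 1) ∣ J := (pow_dvd_pow p hcc).trans ⟨u, hu⟩
    have hle : p ^ (c' + 1) ≤ J := Nat.le_of_dvd (by omega) hd
    have h3 := h2 c' (J - p ^ (c' + 1)) (Nat.dvd_sub hd dvd_rfl)
    have e0 : (p - 1) * p ^ c' + p ^ c' = p ^ (c' + 1) := by
      rw [pow_succ, ← Nat.succ_mul, Nat.succ_eq_add_one, Nat.sub_add_cancel hp1.le, mul_comm]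
    have e1 : J - p ^ (c' + 1) + (p - 1) * p ^ c' = n := by omega
    have e2 : J - p ^ (c' + 1) + p ^ (c' + 1) = J := Nat.sub_add_cancel hle
    rw [e1, e2] at h3
    have e3 : ((J / p ^ c' : ℕ) : R) = 0 := by
      rw [CharP.cast_eq_zero_iff R p]
      obtain ⟨w, hw⟩ := hd
      rw [hw, pow_succ, mul_assoc, Nat.mul_div_cancel_left _ (hpp c')]
      exact Dvd.intro _ rfl
    rw [e3, zero_mul, zero_sub]
    exact (M J).neg_mem h3

end Abs

/-! ### Polynomials -/

section Pol

variable {Ω : Type u} [Field Ω]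

theorem coeff_hasse_iter (a i : ℕ) (f : Polynomial Ω) (n : ℕ) :
    ((hasseDeriv a)^[i] f).coeff n =
      (∏ j ∈ Finset.range i, (((n + (j + 1) * a).choose a : ℕ) : Ω)) * f.coeff (n + i * a) := by
  induction i generalizing n with
  | zero => simp
  | succ i ih =>
    rw [Function.iterate_succ_apply', hasseDeriv_coeff, ih (n + a), Finset.prod_range_succ']
    have e1 : n + a + i * a = n + (i + 1) * a := by ring
    have e2 : ∀ j, n + a + (j + 1) * a = n + (j + 1 + 1) * a := fun j => by ring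
    rw [e1]
    simp only [e2, zero_add, one_mul]
    ring

theorem taylor_hasse (h : Ω) (a : ℕ) (f : Polynomial Ω) :
    taylor h (hasseDeriv a f) = hasseDeriv a (taylor h f) := by
  ext n
  rw [taylor_coeff, hasseDeriv_coeff, taylor_coeff, ← LinearMap.comp_apply, hasseDeriv_comp,
    LinearMap.smul_apply, eval_smul, nsmul_eq_mul]
  congr 2
  exact Nat.choose_symm_add.symm ▸ rfl

end Pol

/-! ### Coefficients at a near centre -/

section Near

variable {k Ω : Type u} [Field k] [Field Ω] [Algebra k Ω] {v : RVal Ω}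
  {A E : IntermediateField k Ω} {z w : Ω} {s r : ℝ} {f : Polynomial Ω}

open Pool.Agent.LU1 (VPos adj)

/-- If the Taylor coefficients of `f` at `z` are bounded, so are those at a near centre `h`. -/
theorem taylor_near (f : Polynomial Ω) (z h : Ω) (s r γ : ℝ) (hγ : 0 ≤ γ)
    (hr : ∀ l : ℕ, v.Ge (r - l * s) ((taylor z f).coeff l)) (hh : v.Ge (s - γ) (z - h)) (l : ℕ) :
    v.Ge (r - l * s - f.natDegree * γ) ((taylor h f).coeff l) := by
  have h1 : taylor h f = taylor (h - z) (taylor z f) := by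
    rw [taylor_taylor, sub_add_cancel]
  rw [h1, taylor_coeff, hasseDeriv_apply, eval_sum, Polynomial.sum_def]
  refine RVal.Ge.sum _ _ fun i hi => ?_
  rw [eval_monomial]
  have hi' : i ≤ f.natDegree := by
    have := le_natDegree_of_mem_supp i hi
    rwa [natDegree_taylor] at this
  have h2 := RVal.Ge.mul (RVal.Ge.mul (ge_natCast v (i.choose l)) (hr i))
    (ge_pow (ge_sub_comm hh) (i - l))
  by_cases hil : l ≤ i
  · refine h2.mono ?_
    have h3 : ((i - l : ℕ) : ℝ) = (i : ℝ) - l := by push_cast [hil]; ring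
    have h4 : (i : ℝ) ≤ f.natDegree := by exact_mod_cast hi'
    have h5 : (0 : ℝ) ≤ l := by positivity
    rw [h3]
    nlinarith
  · rw [Nat.choose_eq_zero_of_lt (by omega), Nat.cast_zero, zero_mul, zero_mul]
    exact RVal.Ge.zero

variable [IsAlgClosed Ω]

/-- `f` small at `z` has small coefficients at all near centres. -/
theorem small_near (hz : TL v E z s) (hf : f ∈ PI E) (h0 : Gt v r (f.eval z)) :
    ∃ m : ℝ, 0 < m ∧ ∃ δ : ℝ, 0 < δ ∧ ∀ γ, 0 ≤ γ → γ ≤ δ → ∀ h, v.Ge (s - γ) (z - h) →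
      ∀ l : ℕ, v.Ge (r + m - l * s) ((taylor h f).coeff l) := by
  by_cases hf0 : f = 0
  · refine ⟨1, one_pos, 1, one_pos, fun γ _ _ h _ l => ?_⟩
    rw [hf0, map_zero, coeff_zero]
    exact RVal.Ge.zero
  have hf' : f ∈ PI (TWM.algc E) := PI_mono (le_algc E) hf
  have h1 := hz.eval_ne hf' hf0
  have h2 := h0 h1
  refine ⟨(v (f.eval z) - r) / 2, by linarith, (v (f.eval z) - r) / 2 / (f.natDegree + 1),
    by have : 0 < (v (f.eval z) - r) / 2 := by linarith
       positivity, fun γ hγ hγ' h hh l => ?_⟩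
  refine (taylor_near f z h s (v (f.eval z)) γ hγ (fun l => hz.weak hf' hf0 l) hh l).mono ?_
  rw [le_div_iff₀ (by positivity)] at hγ'
  nlinarith

omit [IsAlgClosed Ω] in
theorem ge_of_coeff_r (f : Polynomial Ω) (z h : Ω) (s r γ : ℝ) (hγ : 0 ≤ γ)
    (hh : v.Ge (s - γ) (z - h)) (hc : ∀ l : ℕ, v.Ge (r - l * s) ((taylor h f).coeff l)) :
    v.Ge (r - f.natDegree * γ) (f.eval z) := by
  rw [eval_eq_taylor f h z, eval_eq_sum_range, natDegree_taylor]
  refine RVal.Ge.sum _ _ fun l hl => ?_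
  have hl' : l ≤ f.natDegree := by have := Finset.mem_range.1 hl; omega
  refine (RVal.Ge.mul (hc l) (ge_pow hh l)).mono ?_
  have h4 : (l : ℝ) ≤ f.natDegree := by exact_mod_cast hl'
  nlinarith

/-- The elements of value `≥ r`, as a subgroup. -/
def geSub (v : RVal Ω) (r : ℝ) : AddSubgroup Ω where
  carrier := {x | v.Ge r x}
  zero_mem' := RVal.Ge.zero
  add_mem' := fun hx hy => RVal.Ge.add hx hy
  neg_mem' := fun {x} hx => by
    have := ge_sub_comm (v := v) (r := r) (x := x) (y := 0) (by rw [sub_zero]; exact hx)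
    rwa [zero_sub] at this

omit [IsAlgClosed Ω] in
theorem mem_geSub {r : ℝ} {x : Ω} : x ∈ geSub v r ↔ v.Ge r x := Iff.rfl

theorem small_near_fin {ι : Type*} (hz : TL v E z s) (S : Finset ι) (g : ι → Polynomial Ω)
    (ρ : ι → ℝ) (hg : ∀ i ∈ S, g i ∈ PI E) (h0 : ∀ i ∈ S, Gt v (ρ i) ((g i).eval z)) :
    ∃ m : ℝ, 0 < m ∧ ∃ δ : ℝ, 0 < δ ∧ ∀ γ, 0 ≤ γ → γ ≤ δ → ∀ h, v.Ge (s - γ) (z - h) →
      ∀ i ∈ S, ∀ l : ℕ, v.Ge (ρ i + m - l * s) ((taylor h (g i)).coeff l) := by
  classical
  induction S using Finset.induction_on with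
  | empty => exact ⟨1, one_pos, 1, one_pos, fun _ _ _ _ _ i hi => absurd hi (by simp)⟩
  | insert i S hi ih =>
    obtain ⟨m, hm, δ, hδ, H⟩ := ih (fun j hj => hg j (Finset.mem_insert_of_mem hj))
      (fun j hj => h0 j (Finset.mem_insert_of_mem hj))
    obtain ⟨m', hm', δ', hδ', H'⟩ := small_near hz (hg i (Finset.mem_insert_self i S))
      (h0 i (Finset.mem_insert_self i S))
    refine ⟨min m m', lt_min hm hm', min δ δ', lt_min hδ hδ', fun γ hγ hγ' h hh j hj l => ?_⟩
    rcases Finset.mem_insert.1 hj with rfl | hj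
    · refine (H' γ hγ (hγ'.trans (min_le_right _ _)) h hh l).mono ?_
      have := min_le_right m m'
      linarith
    · refine (H γ hγ (hγ'.trans (min_le_left _ _)) h hh j hj l).mono ?_
      have := min_le_left m m'
      linarith

omit [IsAlgClosed Ω] in
theorem taylor_hasse_iter (h : Ω) (a i : ℕ) (f : Polynomial Ω) :
    taylor h ((hasseDeriv a)^[i] f) = (hasseDeriv a)^[i] (taylor h f) := by
  induction i with
  | zero => rfl
  | succ i ih =>
    rw [Function.iterate_succ_apply', Function.iterate_succ_apply', taylor_hasse, ih]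

omit [IsAlgClosed Ω] in
theorem hasse_iter_mem (a i : ℕ) (hf : f ∈ PI E) : (hasseDeriv a)^[i] f ∈ PI E := by
  induction i with
  | zero => exact hf
  | succ i ih =>
    rw [Function.iterate_succ_apply']
    exact hasse_mem_PI ih a

omit [IsAlgClosed Ω] in
theorem prod_choose_cast {p : ℕ} [hp : Fact p.Prime] [CharP Ω p] (c n : ℕ)
    (hn : p ^ (c + 1) ∣ n) :
    (∏ j ∈ Finset.range (p - 1), (((n + (j + 1) * p ^ c).choose (p ^ c) : ℕ) : Ω)) =
      (((p - 1).factorial : ℕ) : Ω) := by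
  have hpp : 0 < p ^ c := Nat.pow_pos hp.out.pos
  rw [← Finset.prod_range_add_one_eq_factorial, Nat.cast_prod]
  refine Finset.prod_congr rfl fun j _ => ?_
  rw [choose_pow_cast (p := p)]
  obtain ⟨w, hw⟩ := hn
  have h1 : n + (j + 1) * p ^ c = (p * w + (j + 1)) * p ^ c := by rw [hw, pow_succ]; ring
  rw [h1, Nat.mul_div_cancel _ hpp, Nat.cast_add, Nat.cast_mul, CharP.cast_eq_zero Ω p,
    zero_mul, zero_add]

/-- Lemma INT: the truncated Poincare lemma with margin. -/
theorem exists_int_r {p : ℕ} [hp : Fact p.Prime] [CharP Ω p] (hz : TL v E z s) (N : ℕ) (r : ℝ)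
    (b : ℕ → Polynomial Ω) (hb : ∀ c, b c ∈ PI E) (h0 : ∀ c, N ≤ c → b c = 0)
    (h1 : ∀ c c', c < c' → Gt v (r - (p ^ c + p ^ c' : ℕ) * s)
      ((hasseDeriv (p ^ c') (b c)).eval z - (hasseDeriv (p ^ c) (b c')).eval z))
    (h2 : ∀ c, Gt v (r - (p ^ (c + 1) : ℕ) * s) (((hasseDeriv (p ^ c))^[p - 1] (b c)).eval z)) :
    ∃ F ∈ PI E, ∀ c, Gt v (r - (p ^ c : ℕ) * s) ((hasseDeriv (p ^ c) F).eval z - (b c).eval z) := by
  classical
  have hp1 : 1 < p := hp.out.one_lt
  obtain ⟨d, hd⟩ : ∃ d : ℕ, ∀ c, (b c).natDegree ≤ d := by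
    refine ⟨(Finset.range N).sup fun c => (b c).natDegree, fun c => ?_⟩
    by_cases hc : c < N
    · exact Finset.le_sup (f := fun c => (b c).natDegree) (Finset.mem_range.2 hc)
    · rw [h0 c (by omega), natDegree_zero]; exact Nat.zero_le _
  -- the finitely many defects
  set K := N + d + 1 with hK
  let S₁ : Finset (ℕ × ℕ) := ((Finset.range K) ×ˢ (Finset.range K)).filter fun x => x.1 < x.2
  obtain ⟨m₁, hm₁, δ₁, hδ₁, H₁⟩ := small_near_fin hz S₁
    (fun x => hasseDeriv (p ^ x.2) (b x.1) - hasseDeriv (p ^ x.1) (b x.2))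
    (fun x => r - (p ^ x.1 + p ^ x.2 : ℕ) * s)
    (fun x _ => sub_mem (hasse_mem_PI (hb _) _) (hasse_mem_PI (hb _) _))
    (fun x hx => by
      rw [eval_sub]
      exact h1 x.1 x.2 (Finset.mem_filter.1 hx).2)
  obtain ⟨m₂, hm₂, δ₂, hδ₂, H₂⟩ := small_near_fin hz (Finset.range N)
    (fun c => (hasseDeriv (p ^ c))^[p - 1] (b c)) (fun c => r - (p ^ (c + 1) : ℕ) * s)
    (fun c _ => hasse_iter_mem _ _ (hb c)) (fun c _ => h2 c)
  set m := min m₁ m₂ with hm
  have hm0 : 0 < m := lt_min hm₁ hm₂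
  set D := d + p ^ N + 1 with hD
  set γ := min (min δ₁ δ₂) (m / 2 / (D + 1)) with hγ
  have hγ0 : 0 < γ := lt_min (lt_min hδ₁ hδ₂) (by positivity)
  obtain ⟨h, hh, hzh⟩ := hz.lim γ hγ0
  have hγ1 : γ ≤ δ₁ := (min_le_left _ _).trans (min_le_left _ _)
  have hγ2 : γ ≤ δ₂ := (min_le_left _ _).trans (min_le_right _ _)
  have hγ3 : γ * (D + 1) ≤ m / 2 := by
    have : γ ≤ m / 2 / (D + 1) := min_le_right _ _
    rwa [le_div_iff₀ (by positivity)] at this
  set β : ℕ → ℕ → Ω := fun c J => (taylor h (b c)).coeff J with hβ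
  let M : ℕ → AddSubgroup Ω := fun l => geSub v (r + m - l * s)
  have hM1 : ∀ c c' n, c < c' → ((((n + p ^ c').choose (p ^ c') : ℕ) : Ω) * β c (n + p ^ c') -
      (((n + p ^ c).choose (p ^ c) : ℕ) : Ω) * β c' (n + p ^ c)) ∈ M (n + p ^ c + p ^ c') := by
    intro c c' n hcc
    by_cases hc' : c' < K
    · have h3 := H₁ γ hγ0.le hγ1 h hzh (c, c') (by
        simp only [S₁, Finset.mem_filter, Finset.mem_product, Finset.mem_range]
        omega) n
      simp only [map_sub, taylor_hasse, coeff_sub, hasseDeriv_coeff] at h3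
      refine mem_geSub.2 (h3.mono ?_)
      have := min_le_left m₁ m₂
      push_cast
      linarith
    · have hd1 : d < p ^ c' := by
        have h3 : c' < p ^ c' := Nat.lt_pow_self hp1
        omega
      have e1 : β c (n + p ^ c') = 0 := by
        rw [hβ]
        refine coeff_eq_zero_of_natDegree_lt ?_
        rw [natDegree_taylor]
        have := hd c
        omega
      have e2 : β c' (n + p ^ c) = 0 := by
        rw [hβ]
        simp only
        rw [h0 c' (by omega), map_zero, coeff_zero]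
      rw [e1, e2, mul_zero, mul_zero, sub_zero]
      exact (M _).zero_mem
  have hM2 : ∀ c n, p ^ (c + 1) ∣ n → β c (n + (p - 1) * p ^ c) ∈ M (n + p ^ (c + 1)) := by
    intro c n hn
    by_cases hc : c < N
    · have h3 := H₂ γ hγ0.le hγ2 h hzh c (Finset.mem_range.2 hc) n
      rw [taylor_hasse_iter, coeff_hasse_iter, prod_choose_cast c n hn] at h3
      have hnd : ¬ p ∣ (p - 1).factorial := fun h4 => by
        have := (Nat.Prime.dvd_factorial hp.out).1 h4
        omega
      refine mem_of_natCast_mul (p := p) hnd (mem_geSub.2 (h3.mono ?_))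
      have := min_le_right m₁ m₂
      push_cast
      linarith
    · have e2 : β c (n + (p - 1) * p ^ c) = 0 := by
        rw [hβ]
        simp only
        rw [h0 c (by omega), map_zero, coeff_zero]
      rw [e2]
      exact (M _).zero_mem
  have hε := epsJ_spec M β hM1 hM2
  have hβE : ∀ c J, β c J ∈ E := fun c J => taylor_mem_PI (hb c) hh J
  have hεE : ∀ J, epsJ p β J ∈ E := by
    intro J
    rw [epsJ]
    split_ifs
    · exact zero_mem _
    · exact div_mem (hβE _ _) (natCast_mem E _)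
  have hε0 : ∀ J, D ≤ J → epsJ p β J = 0 := by
    intro J hJ
    have hJ0 : J ≠ 0 := by omega
    rw [epsJ, if_neg hJ0]
    set c := padicValNat p J with hc
    have e1 : β c (J - p ^ c) = 0 := by
      rw [hβ]
      simp only
      by_cases hc' : c < N
      · refine coeff_eq_zero_of_natDegree_lt ?_
        rw [natDegree_taylor]
        have h3 := hd c
        have h4 : p ^ c ≤ p ^ N := Nat.pow_le_pow_right (by omega) hc'.le
        omega
      · rw [h0 c (by omega), map_zero, coeff_zero]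
    rw [e1, zero_div]
  set G : Polynomial Ω := ∑ J ∈ Finset.range D, monomial J (epsJ p β J) with hG
  have hGc : ∀ J, G.coeff J = epsJ p β J := by
    intro J
    rw [hG, finsetSum_coeff]
    simp only [coeff_monomial]
    rw [Finset.sum_ite_eq' (Finset.range D) J]
    split_ifs with h3
    · rfl
    · exact (hε0 J (by simpa using h3)).symm
  have hGE : G ∈ PI E := fun J => by rw [hGc]; exact hεE J
  refine ⟨taylor (-h) G, taylor_mem_PI hGE (neg_mem hh), fun c => ?_⟩
  have hFG : taylor h (taylor (-h) G) = G := by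
    rw [taylor_taylor, add_neg_cancel, taylor_zero]
  set F := taylor (-h) G with hF
  set Δ := hasseDeriv (p ^ c) F - b c with hΔ
  have hΔd : Δ.natDegree ≤ D := by
    refine (natDegree_sub_le _ _).trans (max_le ?_ ((hd c).trans (by omega)))
    refine (natDegree_hasseDeriv_le _ _).trans ?_
    have h3 : F.natDegree ≤ D := by
      rw [hF, natDegree_taylor, hG]
      refine natDegree_sum_le_of_forall_le _ _ fun J hJ => ?_
      exact (natDegree_monomial_le _).trans (Finset.mem_range.1 hJ).le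
    omega
  have hΔc : ∀ l : ℕ, v.Ge (r - (p ^ c : ℕ) * s + m - l * s) ((taylor h Δ).coeff l) := by
    intro l
    have h3 := hε c l
    rw [hΔ, map_sub, taylor_hasse, hFG, coeff_sub, hasseDeriv_coeff, hGc]
    refine (mem_geSub.1 h3).mono ?_
    push_cast
    linarith
  have h4 := ge_of_coeff_r Δ z h s (r - (p ^ c : ℕ) * s + m) γ hγ0.le hzh hΔc
  rw [← eval_sub]
  refine Gt.of_ge h4 ?_
  have h5 : (Δ.natDegree : ℝ) ≤ D := by exact_mod_cast hΔd
  nlinarith

end Near

end Pool.Agent.TWC
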