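import Mathlib.Analysis.SpecificLimits.Basic
import Mathlib.Topology.Algebra.Order.LiminfLimsup

/-!
# TANK W, dimension 4: the letters of a floor of irrational radius, real sequences

Row IRR. `Pr J b`: the letter `x_J ^ b` occurs; `bt p S lam J b = b S - lam p ^ J` its deviation;
`Δ m`: the relative distance of `x_m` to the field. The hypothesis `tie` (no letter can be isolated)
implies:

* `Dat.width`: the deviations are bounded;
* **`Dat.limsup_le`**: if `lam / S` is irrational, the deviations are finally `≤ Δ m + ε`.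
-/

set_option autoImplicit false

namespace Pool.Agent.TWC.Irr

/-- The deviation of the letter `(J, b)`. -/
def bt (p : ℕ) (S lam : ℝ) (J b : ℕ) : ℝ := b * S - lam * (p : ℝ) ^ J

/-- The data. -/
structure Dat (p : ℕ) (S lam : ℝ) (Pr : ℕ → ℕ → Prop) (Δ : ℕ → ℝ) : Prop where
  one_lt : 1 < p
  S_pos : 0 < S
  lvl : ∀ J b, Pr J b → 1 ≤ J
  nonneg : ∀ l, 1 ≤ l → 0 ≤ Δ l
  fin : ∀ ε : ℝ, 0 < ε → ∃ J₀, ∀ J, J₀ ≤ J → ∀ b, Pr J b → bt p S lam J b < ε * (p : ℝ) ^ J
  tie : ∀ a m b, 1 ≤ m → Pr (a + m) b → Δ m < bt p S lam (a + m) b →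
    ∃ l b', 1 ≤ l ∧ l ≠ m ∧ Pr (a + l) b' ∧
      (bt p S lam (a + m) b - Δ m) / (p : ℝ) ^ m ≤ (bt p S lam (a + l) b' - Δ l) / (p : ℝ) ^ l

variable {p : ℕ} {S lam : ℝ} {Pr : ℕ → ℕ → Prop} {Δ : ℕ → ℝ}

section Aux

/-- A function tending to `0` with a positive value has a last maximum. -/
theorem exists_last_max {f : ℕ → ℝ} (hf : ∀ ε : ℝ, 0 < ε → ∃ L, ∀ l, L ≤ l → f l < ε) {m : ℕ}
    (hm : 1 ≤ m) (hpos : 0 < f m) : ∃ z, 1 ≤ z ∧ (∀ l, 1 ≤ l → f l ≤ f z) ∧ f m ≤ f z ∧
      ∃ g : ℝ, 0 < g ∧ ∀ l, z < l → f l ≤ f z - g := by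
  classical
  obtain ⟨L, hL⟩ := hf (f m / 2) (by linarith)
  have hmL : m < L := by
    by_contra h
    have := hL m (not_lt.1 h)
    linarith
  have hne : (Finset.Icc 1 L).Nonempty := ⟨m, Finset.mem_Icc.2 ⟨hm, hmL.le⟩⟩
  obtain ⟨y, hy, hy'⟩ := Finset.exists_max_image (Finset.Icc 1 L) f hne
  have hne' : ((Finset.Icc 1 L).filter fun l => f l = f y).Nonempty :=
    ⟨y, Finset.mem_filter.2 ⟨hy, rfl⟩⟩
  set z := ((Finset.Icc 1 L).filter fun l => f l = f y).max' hne' with hz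
  have hzm := Finset.max'_mem _ hne'
  rw [← hz, Finset.mem_filter, Finset.mem_Icc] at hzm
  have hmz : f m ≤ f z := by
    rw [hzm.2]
    exact hy' m (Finset.mem_Icc.2 ⟨hm, hmL.le⟩)
  have hlast : ∀ l, z < l → f l < f z := by
    intro l hl
    by_cases hlL : l ≤ L
    · have h1 : 1 ≤ l := by omega
      have h2 := hy' l (Finset.mem_Icc.2 ⟨h1, hlL⟩)
      rw [← hzm.2] at h2
      rcases h2.lt_or_eq with h3 | h3
      · exact h3
      · exfalso
        have h4 := Finset.le_max' ((Finset.Icc 1 L).filter fun l => f l = f y) l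
          (Finset.mem_filter.2 ⟨Finset.mem_Icc.2 ⟨h1, hlL⟩, h3.trans hzm.2⟩)
        rw [← hz] at h4
        omega
    · have := hL l (by omega)
      linarith
  have hall : ∀ l, 1 ≤ l → f l ≤ f z := by
    intro l hl
    by_cases hlL : l ≤ L
    · rw [hzm.2]
      exact hy' l (Finset.mem_Icc.2 ⟨hl, hlL⟩)
    · have := hL l (by omega)
      linarith
  refine ⟨z, hzm.1.1, hall, hmz, ?_⟩
  -- the gap on a finite set
  have hgap : ∀ s : Finset ℕ, (∀ l ∈ s, z < l) → ∃ g : ℝ, 0 < g ∧ ∀ l ∈ s, f l ≤ f z - g := by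
    intro s
    induction s using Finset.induction_on with
    | empty => intro _; exact ⟨1, one_pos, fun l hl => absurd hl (Finset.notMem_empty _)⟩
    | insert a s _ ih =>
      intro h
      obtain ⟨g, hg, h1⟩ := ih fun l hl => h l (Finset.mem_insert_of_mem hl)
      have h2 := hlast a (h a (Finset.mem_insert_self _ _))
      refine ⟨min g (f z - f a), lt_min hg (by linarith), fun l hl => ?_⟩
      rcases Finset.mem_insert.1 hl with rfl | hl
      · linarith [min_le_right g (f z - f l)]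
      · linarith [h1 l hl, min_le_left g (f z - f a)]
  obtain ⟨g, hg, h1⟩ := hgap (Finset.Ioc z L) fun l hl => (Finset.mem_Ioc.1 hl).1
  refine ⟨min g (f z / 2), lt_min hg (by linarith), fun l hl => ?_⟩
  by_cases hlL : l ≤ L
  · linarith [h1 l (Finset.mem_Ioc.2 ⟨hl, hlL⟩), min_le_left g (f z / 2)]
  · have := hL l (by omega)
    linarith [min_le_right g (f z / 2)]

/-- The set `ℤ S + c` is discrete. -/
theorem exists_discrete (hS : 0 < S) (c : ℝ) :
    ∃ κ : ℝ, 0 < κ ∧ ∀ D : ℤ, |(D : ℝ) * S + c| < κ → (D : ℝ) * S + c = 0 := by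
  set r := Int.fract (c / S) with hr
  have hc : c = (⌊c / S⌋ : ℝ) * S + r * S := by
    have h1 : c / S = ⌊c / S⌋ + r := (Int.floor_add_fract _).symm
    rw [div_eq_iff hS.ne', add_mul] at h1
    exact h1
  have hr0 : 0 ≤ r := Int.fract_nonneg _
  have hr1 : r < 1 := Int.fract_lt_one _
  have key : ∀ D : ℤ, (D : ℝ) * S + c = ((D + ⌊c / S⌋ : ℤ) : ℝ) * S + r * S := by
    intro D
    rw [Int.cast_add]
    conv_lhs => rw [hc]
    ring
  rcases hr0.eq_or_lt with h0 | h0
  · refine ⟨S, hS, fun D hD => ?_⟩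
    rw [key, ← h0, zero_mul, add_zero] at hD ⊢
    rw [abs_mul, abs_of_pos hS] at hD
    have h1 : |((D + ⌊c / S⌋ : ℤ) : ℝ)| < 1 := by
      by_contra h
      rw [not_lt] at h
      nlinarith
    have h2 : |D + ⌊c / S⌋| < 1 := by exact_mod_cast h1
    have h3 : D + ⌊c / S⌋ = 0 := Int.abs_lt_one_iff.1 h2
    rw [h3, Int.cast_zero, zero_mul]
  · refine ⟨min (r * S) ((1 - r) * S), lt_min (by positivity) (by nlinarith), fun D hD => ?_⟩
    exfalso
    rw [key] at hD
    set n : ℤ := D + ⌊c / S⌋ with hn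
    rcases le_or_gt 0 n with h1 | h1
    · have h2 : (0 : ℝ) ≤ n := by exact_mod_cast h1
      rw [abs_of_nonneg (by positivity)] at hD
      have := hD.trans_le (min_le_left _ _)
      nlinarith
    · have h2 : (n : ℝ) ≤ -1 := by exact_mod_cast (by omega : n ≤ -1)
      have h3 : (n : ℝ) * S + r * S ≤ -((1 - r) * S) := by nlinarith
      have h4 : (1 - r) * S ≤ |(n : ℝ) * S + r * S| := by
        rw [abs_of_nonpos (by nlinarith)]
        linarith
      have := hD.trans_le (min_le_right _ _)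
      linarith

/-- The same for a finite family. -/
theorem exists_discrete_fin (hS : 0 < S) (c : ℕ → ℝ) (n : ℕ) :
    ∃ κ : ℝ, 0 < κ ∧ ∀ i < n, ∀ D : ℤ, |(D : ℝ) * S + c i| < κ → (D : ℝ) * S + c i = 0 := by
  induction n with
  | zero => exact ⟨1, one_pos, fun i hi => absurd hi (Nat.not_lt_zero i)⟩
  | succ n ih =>
    obtain ⟨κ, hκ, h1⟩ := ih
    obtain ⟨κ', hκ', h2⟩ := exists_discrete hS (c n)
    refine ⟨min κ κ', lt_min hκ hκ', fun i hi D hD => ?_⟩
    rcases Nat.lt_succ_iff_lt_or_eq.1 hi with h3 | rfl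
    · exact h1 i h3 D (hD.trans_le (min_le_left _ _))
    · exact h2 D (hD.trans_le (min_le_right _ _))

end Aux

/-- **The deviations are bounded.** -/
theorem Dat.width (h : Dat p S lam Pr Δ) {J b : ℕ} (hJ : Pr J b) :
    bt p S lam J b ≤ p * Δ 1 / (p - 1) := by
  have hp1 : (1 : ℝ) < p := by exact_mod_cast h.one_lt
  have hp0 : (0 : ℝ) < p := by linarith
  have hΔ := h.nonneg 1 le_rfl
  set A : ℝ := p * Δ 1 / (p - 1) with hA
  have hne : (p : ℝ) - 1 ≠ 0 := by linarith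
  have hpA : (p - 1) * A = p * Δ 1 := by
    rw [hA]
    field_simp
  have hA0 : 0 ≤ A := by
    rw [hA]
    exact div_nonneg (by positivity) (by linarith)
  have hA1 : Δ 1 ≤ A := by nlinarith
  by_contra hno
  rw [not_le] at hno
  set ψ : ℝ := (bt p S lam J b - A) / p ^ J with hψ
  have hψ0 : 0 < ψ := div_pos (by linarith) (pow_pos hp0 _)
  have key : ∀ n, ∃ J', J + n ≤ J' ∧ ∃ b', Pr J' b' ∧ ψ * p ^ J' ≤ bt p S lam J' b' - A := by
    intro n
    induction n with
    | zero =>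
      refine ⟨J, le_rfl, b, hJ, ?_⟩
      rw [hψ, div_mul_cancel₀ _ (pow_pos hp0 _).ne']
    | succ n ih =>
      obtain ⟨J', hJ', b', hb', h1⟩ := ih
      have hl := h.lvl J' b' hb'
      have hψp : 0 < ψ * p ^ J' := mul_pos hψ0 (pow_pos hp0 _)
      obtain ⟨l, b'', hl1, hl2, h2, h3⟩ := h.tie (J' - 1) 1 b' le_rfl
        (by rw [Nat.sub_add_cancel hl]; exact hb')
        (by rw [Nat.sub_add_cancel hl]; linarith)
      rw [Nat.sub_add_cancel hl, pow_one] at h3
      obtain ⟨e, rfl⟩ : ∃ e, l = e + 2 := ⟨l - 2, by omega⟩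
      refine ⟨J' - 1 + (e + 2), by omega, b'', h2, ?_⟩
      have hΔl := h.nonneg (e + 2) (by omega)
      rw [div_le_div_iff₀ hp0 (pow_pos hp0 _)] at h3
      have h4 : (p : ℝ) ^ (e + 2) = p * (p * p ^ e) := by ring
      have h5 : (p : ℝ) ^ (J' - 1 + (e + 2)) = p ^ J' * (p * p ^ e) := by
        rw [← pow_succ', ← pow_add]
        congr 1
        omega
      have hpe : (1 : ℝ) ≤ p ^ e := one_le_pow₀ hp1.le
      set q : ℝ := p * p ^ e with hq
      have hqp : (p : ℝ) ≤ q := by nlinarith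
      rw [h4] at h3
      have h6 : (bt p S lam J' b' - Δ 1) * q ≤ bt p S lam (J' - 1 + (e + 2)) b'' - Δ (e + 2) := by
        have : ((bt p S lam J' b' - Δ 1) * q) * p ≤
            (bt p S lam (J' - 1 + (e + 2)) b'' - Δ (e + 2)) * p := by
          linarith
        exact le_of_mul_le_mul_right this hp0
      rw [h5]
      have h7 : A ≤ (A - Δ 1) * q := by
        have h8 : A ≤ (A - Δ 1) * p := by nlinarith
        exact h8.trans (mul_le_mul_of_nonneg_left hqp (by linarith))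
      have h8 : ψ * p ^ J' * q ≤ (bt p S lam J' b' - A) * q :=
        mul_le_mul_of_nonneg_right h1 (by linarith)
      have h9 : (bt p S lam J' b' - Δ 1) * q = (bt p S lam J' b' - A) * q + (A - Δ 1) * q := by
        ring
      rw [← mul_assoc]
      linarith
  obtain ⟨J₀, hJ₀⟩ := h.fin ψ hψ0
  obtain ⟨J', hJ', b', hb', h1⟩ := key J₀
  have := hJ₀ J' (by omega) b' hb'
  linarith

/-- **If `lam / S` is irrational, the deviations are finally `≤ Δ m + ε`.** -/
theorem Dat.limsup_le (h : Dat p S lam Pr Δ) (hirr : ∀ q : ℚ, lam ≠ q * S) {m : ℕ} (hm : 1 ≤ m)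
    {ε : ℝ} (hε : 0 < ε) : ∃ J₀, ∀ J, J₀ ≤ J → ∀ b, Pr J b → bt p S lam J b ≤ Δ m + ε := by
  classical
  have hp1 : (1 : ℝ) < p := by exact_mod_cast h.one_lt
  have hp0 : (0 : ℝ) < p := by linarith
  by_contra hno
  push Not at hno
  set T : Set ℝ := {t | ∀ J₀, ∃ J, J₀ ≤ J ∧ ∃ b, Pr J b ∧ t < bt p S lam J b} with hT
  have hT1 : Δ m + ε ∈ T := hno
  have hT2 : BddAbove T := by
    refine ⟨p * Δ 1 / (p - 1), fun t ht => ?_⟩
    obtain ⟨J, _, b, hJb, h1⟩ := ht 0
    exact h1.le.trans (h.width hJb)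
  set bs := sSup T with hbs
  have hbm : Δ m + ε ≤ bs := le_csSup hT2 hT1
  have hΔm := h.nonneg m hm
  have hbs0 : 0 < bs := by linarith
  have L2 : ∀ κ : ℝ, 0 < κ → ∀ J₀, ∃ J, J₀ ≤ J ∧ ∃ b, Pr J b ∧ bs - κ < bt p S lam J b := by
    intro κ hκ J₀
    obtain ⟨t, ht, h1⟩ := exists_lt_of_lt_csSup ⟨_, hT1⟩ (show bs - κ < sSup T by linarith)
    obtain ⟨J, hJ, b, hJb, h2⟩ := ht J₀
    exact ⟨J, hJ, b, hJb, h1.trans h2⟩
  have L1 : ∀ κ : ℝ, 0 < κ → ∃ J₀, ∀ J, J₀ ≤ J → ∀ b, Pr J b → bt p S lam J b ≤ bs + κ := by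
    intro κ hκ
    by_contra h1
    push Not at h1
    have h2 : bs + κ ∈ T := h1
    have := le_csSup hT2 h2
    linarith
  -- the function `E`
  set E : ℕ → ℝ := fun l => (bs - Δ l) / p ^ l with hE
  have hEf : ∀ δ : ℝ, 0 < δ → ∃ L, ∀ l, L ≤ l → E l < δ := by
    intro δ hδ
    obtain ⟨n, hn⟩ := pow_unbounded_of_one_lt (bs / δ) hp1
    refine ⟨n + 1, fun l hl => ?_⟩
    have h1 := h.nonneg l (by omega)
    have h2 : bs / δ < (p : ℝ) ^ l := hn.trans_le (pow_le_pow_right₀ hp1.le (by omega))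
    rw [div_lt_iff₀ hδ] at h2
    simp only [hE]
    rw [div_lt_iff₀ (pow_pos hp0 _)]
    linarith
  have hEm : 0 < E m := div_pos (by linarith) (pow_pos hp0 _)
  obtain ⟨z, hz1, hall, hmz, g, hg, hgap⟩ := exists_last_max hEf hm hEm
  have hEz : 0 < E z := hEm.trans_le hmz
  obtain ⟨κ₁, hκ₁, hdisc⟩ := exists_discrete_fin h.S_pos (fun s => ((p : ℝ) ^ s - 1) * bs) (z + 1)
  set P : ℝ := (p : ℝ) ^ z with hP
  have hP1 : 1 ≤ P := one_le_pow₀ hp1.le
  set κ : ℝ := min (min (g / 3) (E z / 2)) (κ₁ / (2 * (1 + P))) with hκ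
  have hκ0 : 0 < κ := lt_min (lt_min (by linarith) (by linarith)) (by positivity)
  have hκg : 2 * κ < g := by
    have : κ ≤ g / 3 := (min_le_left _ _).trans (min_le_left _ _)
    linarith
  have hκE : κ < E z := by
    have : κ ≤ E z / 2 := (min_le_left _ _).trans (min_le_right _ _)
    linarith
  have hκ1 : κ * (1 + P) < κ₁ := by
    have h1 : κ ≤ κ₁ / (2 * (1 + P)) := min_le_right _ _
    rw [le_div_iff₀ (by positivity)] at h1
    nlinarith
  obtain ⟨J₀, hJ₀⟩ := L1 κ hκ0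
  -- one step down
  have step : ∀ J b, Pr J b → J₀ + z ≤ J → |bt p S lam J b - bs| ≤ κ →
      ∃ J' b', Pr J' b' ∧ J' < J ∧
        bt p S lam J b - bs = (p : ℝ) ^ (J - J') * (bt p S lam J' b' - bs) ∧
        ∃ (D : ℤ) (s : ℕ), 1 ≤ s ∧ (D : ℝ) * S + ((p : ℝ) ^ s - 1) * bs = 0 := by
    intro J b hJb hJ hη
    rw [abs_le] at hη
    have hJa : J - z + z = J := by omega
    have hEzz : bs - Δ z = E z * P := by
      simp only [hE]
      rw [div_mul_cancel₀ _ (pow_pos hp0 _).ne']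
    have hPE : E z ≤ E z * P := le_mul_of_one_le_right hEz.le hP1
    obtain ⟨l, b', hl1, hlz, hb', h1⟩ := h.tie (J - z) z b hz1 (by rw [hJa]; exact hJb)
      (by rw [hJa]; linarith)
    rw [hJa] at h1
    have h2 := hJ₀ (J - z + l) (by omega) b' hb'
    have hpl : (1 : ℝ) ≤ p ^ l := one_le_pow₀ hp1.le
    -- the value of `E l`
    have h3 : E z - κ ≤ (bt p S lam J b - Δ z) / p ^ z := by
      rw [le_div_iff₀ (pow_pos hp0 _), ← hP]
      have : κ ≤ κ * P := le_mul_of_one_le_right hκ0.le hP1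
      nlinarith
    have h4 : (bt p S lam (J - z + l) b' - Δ l) / (p : ℝ) ^ l ≤ E l + κ := by
      simp only [hE]
      rw [div_le_iff₀ (pow_pos hp0 _), add_mul, div_mul_cancel₀ _ (pow_pos hp0 _).ne']
      have : κ ≤ κ * p ^ l := le_mul_of_one_le_right hκ0.le hpl
      linarith
    have hlt : l < z := by
      rcases lt_trichotomy l z with h5 | h5 | h5
      · exact h5
      · exact absurd h5 hlz
      · have := hgap l h5
        linarith
    have h5 := hall l hl1
    have h6 : bs - Δ l = E l * p ^ l := by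
      simp only [hE]
      rw [div_mul_cancel₀ _ (pow_pos hp0 _).ne']
    have h7 : (E z - κ) * p ^ l ≤ bt p S lam (J - z + l) b' - Δ l := by
      have := h3.trans h1
      rwa [le_div_iff₀ (pow_pos hp0 _)] at this
    have h8 : E l * p ^ l ≤ E z * p ^ l := mul_le_mul_of_nonneg_right h5 (by linarith)
    have h9 : |bt p S lam (J - z + l) b' - bs| ≤ κ * p ^ l := by
      rw [abs_le]
      have : κ ≤ κ * p ^ l := le_mul_of_one_le_right hκ0.le hpl
      constructor <;> nlinarith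
    -- exactness
    have hs : (p : ℝ) ^ (z - l) * p ^ l = P := by
      rw [hP, ← pow_add]
      congr 1
      omega
    have h10 : bt p S lam J b - bs - (p : ℝ) ^ (z - l) * (bt p S lam (J - z + l) b' - bs) =
        (((b : ℤ) - (p : ℤ) ^ (z - l) * b' : ℤ) : ℝ) * S + ((p : ℝ) ^ (z - l) - 1) * bs := by
      unfold bt
      have h11 : (p : ℝ) ^ J = p ^ (z - l) * p ^ (J - z + l) := by
        rw [← pow_add]
        congr 1
        omega
      rw [h11]
      push_cast
      ring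
    have h11 : |bt p S lam J b - bs -
        (p : ℝ) ^ (z - l) * (bt p S lam (J - z + l) b' - bs)| < κ₁ := by
      refine lt_of_le_of_lt ((abs_sub _ _).trans ?_) hκ1
      rw [abs_mul, abs_of_pos (pow_pos hp0 _)]
      have h12 : (p : ℝ) ^ (z - l) * |bt p S lam (J - z + l) b' - bs| ≤
          (p : ℝ) ^ (z - l) * (κ * p ^ l) :=
        mul_le_mul_of_nonneg_left h9 (pow_pos hp0 _).le
      have h13 : (p : ℝ) ^ (z - l) * (κ * p ^ l) = κ * P := by rw [← hs]; ring
      have h14 : |bt p S lam J b - bs| ≤ κ := abs_le.2 hη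
      linarith
    rw [h10] at h11
    have h12 := hdisc (z - l) (by omega) _ h11
    refine ⟨J - z + l, b', hb', by omega, ?_, _, z - l, by omega, h12⟩
    rw [show J - (J - z + l) = z - l by omega]
    rw [h12] at h10
    linarith
  -- going down to bounded levels
  have descent : ∀ n J b, J ≤ n → Pr J b → |bt p S lam J b - bs| ≤ κ →
      ∃ J' b', Pr J' b' ∧ J' < J₀ + z ∧ J' ≤ J ∧
        bt p S lam J b - bs = (p : ℝ) ^ (J - J') * (bt p S lam J' b' - bs) := by
    intro n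
    induction n with
    | zero =>
      intro J b hJ hJb _
      exact ⟨J, b, hJb, by omega, le_rfl, by rw [Nat.sub_self, pow_zero, one_mul]⟩
    | succ n ih =>
      intro J b hJ hJb hη
      by_cases hlt : J < J₀ + z
      · exact ⟨J, b, hJb, hlt, le_rfl, by rw [Nat.sub_self, pow_zero, one_mul]⟩
      · obtain ⟨J', b', hb', hJ', h1, -⟩ := step J b hJb (not_lt.1 hlt) hη
        have h2 : |bt p S lam J' b' - bs| ≤ κ := by
          rw [h1, abs_mul, abs_of_pos (pow_pos hp0 _)] at hη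
          exact (le_mul_of_one_le_left (abs_nonneg _) (one_le_pow₀ hp1.le)).trans hη
        obtain ⟨J'', b'', hb'', h3, h4, h5⟩ := ih J' b' (by omega) hb' h2
        refine ⟨J'', b'', hb'', h3, by omega, ?_⟩
        rw [h1, h5, ← mul_assoc, ← pow_add]
        congr 2
        omega
  obtain ⟨κ₂, hκ₂, hdisc2⟩ := exists_discrete_fin h.S_pos (fun i => -(lam * (p : ℝ) ^ i + bs))
    (J₀ + z)
  obtain ⟨N, hN⟩ := pow_unbounded_of_one_lt (κ / κ₂) hp1
  rw [div_lt_iff₀ hκ₂] at hN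
  obtain ⟨J, hJ, b, hJb, h1⟩ := L2 κ hκ0 (J₀ + z + N)
  have hη : |bt p S lam J b - bs| ≤ κ := by
    rw [abs_le]
    have := hJ₀ J (by omega) b hJb
    constructor <;> linarith
  obtain ⟨J', b', hb', hJ', hJJ, h2⟩ := descent J J b le_rfl hJb hη
  by_cases hsm : |bt p S lam J' b' - bs| < κ₂
  · -- `bs` would be rational
    have h3 : bt p S lam J' b' - bs = ((b' : ℤ) : ℝ) * S + -(lam * (p : ℝ) ^ J' + bs) := by
      unfold bt
      push_cast
      ring
    rw [h3] at hsm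
    have h4 := hdisc2 J' hJ' _ hsm
    obtain ⟨-, -, -, -, -, D, s, hs1, h5⟩ := step J b hJb (by omega) hη
    have hps : (0 : ℝ) < (p : ℝ) ^ s - 1 := by
      have := one_lt_pow₀ hp1 (show s ≠ 0 by omega)
      linarith
    refine hirr ((b' + D / ((p : ℚ) ^ s - 1)) / (p : ℚ) ^ J') ?_
    have h6 : bs = -((D : ℝ) / ((p : ℝ) ^ s - 1) * S) := by
      field_simp
      linarith
    have h7 : lam * (p : ℝ) ^ J' = (b' + (D : ℝ) / ((p : ℝ) ^ s - 1)) * S := by
      push_cast at h4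
      rw [add_mul]
      linarith
    push_cast
    rw [div_mul_eq_mul_div, eq_div_iff (pow_pos hp0 _).ne']
    exact h7
  · rw [not_lt] at hsm
    rw [h2, abs_mul, abs_of_pos (pow_pos hp0 _)] at hη
    have h3 : (p : ℝ) ^ N ≤ p ^ (J - J') := pow_le_pow_right₀ hp1.le (by omega)
    have h4 : (p : ℝ) ^ N * κ₂ ≤ (p : ℝ) ^ (J - J') * |bt p S lam J' b' - bs| :=
      mul_le_mul h3 hsm hκ₂.le (pow_pos hp0 _).le
    linarith

end Pool.Agent.TWC.Irr
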