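import Pool.Agent.Lib.TWC.Lv0A
import Pool.Agent.Lib.TWC.Irr1

/-!
# TANK W, dimension 4: the letters of a floor of irrational radius

Row IRR. `x n` roots, `v (x 0) = -S < 0`, `w` a limit of `EW v ⊥ x` up to `-lam < 0`.

* `Apr`: the polynomial `P (x n)` approaches `w` up to `- lam - ε`;
* `Pres`: the letter `x_J ^ b` occurs in `w`;
* `newton`: one Newton step;
* **`tie`**: the condition `tie` of `Irr.Dat`.
-/

set_option autoImplicit false

open Polynomial

namespace Pool.Agent.TWC.Irr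

open Pool.Agent.H15JM (RVal)
open Pool.Agent.LU1 (VPos adj)
open Pool.Agent.D2 (Ctx0)
open Pool.Agent.D2P (clI mem_clI)
open Pool.Agent.TWM

universe u

variable {k Ω : Type u} [Field k] [Field Ω] [Algebra k Ω] {v : RVal Ω} {p : ℕ} {x : ℕ → Ω}
  {w : Ω} {S lam : ℝ}

/-- `P (x n)` approaches `w` up to `- lam - ε`. -/
def Apr (v : RVal Ω) (x : ℕ → Ω) (w : Ω) (lam : ℝ) (n : ℕ) (P : k[X]) (ε : ℝ) : Prop :=
  v.Ge (-(lam + ε)) (w - aeval (x n) P)

section Basic

variable [hp : Fact p.Prime]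

theorem ps_pos (p : ℕ) [hp : Fact p.Prime] (n : ℕ) : (0 : ℝ) < (p : ℝ) ^ n :=
  pow_pos (by exact_mod_cast hp.out.pos) n

theorem val_x (hr : ∀ n, x (n + 1) ^ p = x n) (h0 : x 0 ≠ 0) (hv : v (x 0) = -S) (n : ℕ) :
    v (x n) = -(S / p ^ n) := by
  rw [val_root hr h0 n, hv, neg_div]

theorem val_x_neg (hr : ∀ n, x (n + 1) ^ p = x n) (h0 : x 0 ≠ 0) (hS : 0 < S)
    (hv : v (x 0) = -S) (n : ℕ) : v (x n) < 0 := by
  rw [val_x hr h0 hv n]
  have := div_pos hS (ps_pos p n)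
  linarith

/-- The same polynomial at a higher level. -/
theorem Apr.lift {ε : ℝ} {n : ℕ} {P : k[X]} (h : Apr v x w lam n P ε)
    (hr : ∀ n, x (n + 1) ^ p = x n) (j : ℕ) : Apr v x w lam (n + j) (expand k (p ^ j) P) ε := by
  unfold Apr at *
  rwa [expand_aeval, root_pow_add hr n j]

/-- The small monomials are removed. -/
theorem Apr.clean {ε : ℝ} {n : ℕ} {P : k[X]} (hk : Ctx0 k v) (h : Apr v x w lam n P ε)
    (hr : ∀ n, x (n + 1) ^ p = x n) (h0 : x 0 ≠ 0) (hv : v (x 0) = -S) :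
    ∃ Q : k[X], Apr v x w lam n Q ε ∧ ∀ i, Q.coeff i ≠ 0 → lam + ε < i * (S / p ^ n) := by
  classical
  obtain ⟨Q, hQ⟩ : ∃ Q : k[X], Q = ∑ i ∈ P.support.filter
      (fun i : ℕ => lam + ε < (i : ℝ) * (S / p ^ n)), monomial i (P.coeff i) := ⟨_, rfl⟩
  have hc : ∀ j, Q.coeff j = if lam + ε < (j : ℝ) * (S / p ^ n) then P.coeff j else 0 := by
    intro j
    rw [hQ, finsetSum_coeff]
    simp only [coeff_monomial]
    rw [Finset.sum_ite_eq' (P.support.filter _) j]
    simp only [Finset.mem_filter]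
    by_cases h1 : P.coeff j = 0
    · rw [h1]
      simp
    · rw [← Ne, ← mem_support_iff] at h1
      simp only [h1, true_and]
  refine ⟨Q, ?_, fun i hi => ?_⟩
  · have h1 : v.Ge (-(lam + ε)) (aeval (x n) (P - Q)) := by
      refine ge_of_coeff hk fun i hi => ?_
      rw [coeff_sub, hc] at hi
      rw [val_x hr h0 hv n, neg_neg]
      by_contra h2
      rw [if_pos (not_le.1 h2), sub_self] at hi
      exact hi rfl
    have h2 := RVal.Ge.add h h1
    rw [map_sub, sub_add_sub_cancel] at h2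
    exact h2
  · rw [hc] at hi
    by_contra h1
    rw [if_neg h1] at hi
    exact hi rfl

/-- The coefficients of the letters are unique. -/
theorem Apr.unique {ε ε' : ℝ} {n : ℕ} {P P' : k[X]} (hk : Ctx0 k v) (h : Apr v x w lam n P ε)
    (h' : Apr v x w lam n P' ε') (hr : ∀ n, x (n + 1) ^ p = x n) (h0 : x 0 ≠ 0) (hS : 0 < S)
    (hv : v (x 0) = -S) {i : ℕ} (hi : lam + ε < i * (S / p ^ n)) (hi' : lam + ε' < i * (S / p ^ n)) :
    P.coeff i = P'.coeff i := by
  by_contra hne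
  have h1 : v.Ge (-(max (lam + ε) (lam + ε'))) (aeval (x n) (P' - P)) := by
    have h2 := RVal.Ge.sub (RVal.Ge.mono (neg_le_neg (le_max_left (lam + ε) (lam + ε'))) h)
      (RVal.Ge.mono (neg_le_neg (le_max_right (lam + ε) (lam + ε'))) h')
    have h3 : w - aeval (x n) P - (w - aeval (x n) P') = aeval (x n) (P' - P) := by
      rw [map_sub]
      ring
    rwa [h3] at h2
  have h2 := coeff_le_of_ge hk (root_ne hr h0 n) (val_x_neg hr h0 hS hv n) h1 (i := i)
    (by rw [coeff_sub]; exact sub_ne_zero.2 (Ne.symm hne))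
  rw [val_x hr h0 hv n, neg_neg] at h2
  exact absurd (h2.trans_lt (max_lt hi hi')) (lt_irrefl _)

/-- The approximations of a limit of `E`. -/
theorem exists_apr (hk : Ctx0 k v) (hr : ∀ n, x (n + 1) ^ p = x n) (h0 : x 0 ≠ 0) (hS : 0 < S)
    (hv : v (x 0) = -S) (hlam : 0 ≤ lam) (hl : Lim v (EW v (⊥ : IntermediateField k Ω) x) (-lam) w)
    {ε : ℝ} (hε : 0 < ε) (M : ℕ) : ∃ n, M ≤ n ∧ ∃ P : k[X], Apr v x w lam n P ε ∧
      ∀ i, P.coeff i ≠ 0 → lam + ε < i * (S / p ^ n) := by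
  obtain ⟨a, ha, h1⟩ := hl ε hε
  obtain ⟨n, hn, P, h2⟩ := exists_aeval_near hk hr h0 (by linarith) ha M
  have h3 : v.Ge (-(lam + ε)) (a - aeval (x n) P) := fun h0 => by
    have := h2 h0
    linarith
  have h4 := RVal.Ge.add (RVal.Ge.mono (show -(lam + ε) ≤ -lam - ε by linarith) h1) h3
  rw [sub_add_sub_cancel] at h4
  exact ⟨n, hn, Apr.clean hk (P := P) h4 hr h0 hv⟩

/-- The letter `x_J ^ b` occurs in `w`. -/
def Pres (k : Type u) {Ω : Type u} [Field k] [Field Ω] [Algebra k Ω] (p : ℕ) (v : RVal Ω)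
    (x : ℕ → Ω) (w : Ω) (S lam : ℝ) (J b : ℕ) : Prop :=
  1 ≤ J ∧ ¬ p ∣ b ∧ ∃ (n : ℕ) (P : k[X]) (ε : ℝ), J ≤ n ∧ 0 < ε ∧ Apr v x w lam n P ε ∧
    lam + ε < b * (S / p ^ J) ∧ P.coeff (b * p ^ (n - J)) ≠ 0

theorem mul_div_pow {J n b : ℕ} (hJ : J ≤ n) :
    ((b * p ^ (n - J) : ℕ) : ℝ) * (S / p ^ n) = b * (S / p ^ J) := by
  have h1 : (p : ℝ) ^ n = p ^ (n - J) * p ^ J := by
    rw [← pow_add]
    congr 1
    omega
  have h2 := (ps_pos p (n - J)).ne'
  have h3 := (ps_pos p J).ne'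
  rw [h1]
  push_cast
  field_simp

theorem Pres.coeff_ne (hk : Ctx0 k v) (hr : ∀ n, x (n + 1) ^ p = x n) (h0 : x 0 ≠ 0) (hS : 0 < S)
    (hv : v (x 0) = -S) {J b : ℕ} (h : Pres k p v x w S lam J b) {ε : ℝ} {n : ℕ} {P : k[X]}
    (hP : Apr v x w lam n P ε) (hn : J ≤ n) (hε : lam + ε < b * (S / p ^ J)) :
    P.coeff (b * p ^ (n - J)) ≠ 0 := by
  obtain ⟨-, -, n', P', ε', hn', -, hP', hε', h1⟩ := h
  have h3 : Apr v x w lam (n + n') (expand k (p ^ n) P') ε' := by
    have := hP'.lift hr n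
    rwa [add_comm n' n] at this
  have h4 := Apr.unique hk (hP.lift hr n') h3 hr h0 hS hv (i := b * p ^ (n + n' - J))
    (by rw [mul_div_pow (by omega)]; exact hε) (by rw [mul_div_pow (by omega)]; exact hε')
  have h5 : b * p ^ (n + n' - J) = b * p ^ (n - J) * p ^ n' := by
    rw [mul_assoc, ← pow_add]
    congr 2
    omega
  have h6 : b * p ^ (n + n' - J) = b * p ^ (n' - J) * p ^ n := by
    rw [mul_assoc, ← pow_add]
    congr 2
    omega
  have h7 : (expand k (p ^ n') P).coeff (b * p ^ (n + n' - J)) = P.coeff (b * p ^ (n - J)) := by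
    rw [h5, coeff_expand_mul (pow_pos hp.out.pos _)]
  have h8 : (expand k (p ^ n) P').coeff (b * p ^ (n + n' - J)) = P'.coeff (b * p ^ (n' - J)) := by
    rw [h6, coeff_expand_mul (pow_pos hp.out.pos _)]
  rw [h7, h8] at h4
  rwa [h4]

theorem Pres.pos {J b : ℕ} (h : Pres k p v x w S lam J b) : 0 < bt p S lam J b := by
  obtain ⟨-, -, n, P, ε, -, hε, -, h1, -⟩ := h
  have h2 := ps_pos p J
  have h3 : lam < b * (S / p ^ J) := by linarith
  unfold bt
  rw [← mul_div_assoc, lt_div_iff₀ h2] at h3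
  linarith

/-- The letters of level `J → ∞`. -/
theorem Pres.fin (hk : Ctx0 k v) (hr : ∀ n, x (n + 1) ^ p = x n) (h0 : x 0 ≠ 0) (hS : 0 < S)
    (hv : v (x 0) = -S) (hlam : 0 ≤ lam)
    (hl : Lim v (EW v (⊥ : IntermediateField k Ω) x) (-lam) w) {ε : ℝ} (hε : 0 < ε) :
    ∃ J₀, ∀ J, J₀ ≤ J → ∀ b, Pres k p v x w S lam J b → bt p S lam J b < ε * (p : ℝ) ^ J := by
  obtain ⟨n, -, P, hP, -⟩ := exists_apr hk hr h0 hS hv hlam hl (half_pos hε) 0
  refine ⟨n + 1, fun J hJ b hb => ?_⟩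
  by_contra hno
  rw [not_lt] at hno
  have h2 := ps_pos p J
  have h3 : lam + ε / 2 < b * (S / p ^ J) := by
    unfold bt at hno
    rw [← mul_div_assoc, lt_div_iff₀ h2]
    nlinarith
  obtain ⟨j, rfl⟩ : ∃ j, J = n + (j + 1) := ⟨J - n - 1, by omega⟩
  have h4 := hb.coeff_ne hk hr h0 hS hv (hP.lift hr (j + 1)) le_rfl h3
  rw [Nat.sub_self, pow_zero, mul_one, coeff_expand (pow_pos hp.out.pos _)] at h4
  apply h4
  rw [if_neg]
  intro h5
  exact hb.2.1 ((dvd_pow_self p (Nat.succ_ne_zero j)).trans h5)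

end Basic

section Newton

variable {y g Q : Ω} {V τ c : ℝ}

/-- **One Newton step.** -/
theorem newton (hk : Ctx0 k v) [CharP k p] {R : k[X]} (hR : ¬ p ∣ R.natDegree) (hg0 : g ≠ 0)
    (hg : v g = V) (hV : V < 0) (hτ : V ≤ τ) (hδ : v.Ge τ (y - g))
    (hQ : v.Ge c (Q - aeval y R)) :
    v.Ge (min (2 * τ - V) (c - (R.natDegree - 1) * V))
      (y - (g + (Q - aeval g R) / aeval g (derivative R))) := by
  set b := R.natDegree with hb
  have hb0 : b ≠ 0 := by
    intro h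
    rw [h] at hR
    exact hR (dvd_zero p)
  have hR0 : R ≠ 0 := by
    rintro rfl
    exact hb0 natDegree_zero
  -- the derivative
  have hdc : (derivative R).coeff (b - 1) ≠ 0 := by
    rw [coeff_derivative, Nat.sub_add_cancel (Nat.pos_of_ne_zero hb0)]
    refine mul_ne_zero (by rw [hb]; exact leadingCoeff_ne_zero.2 hR0) ?_
    have h1 : ((b : ℕ) : k) ≠ 0 := by rwa [Ne, CharP.cast_eq_zero_iff k p]
    have h2 : ((b - 1 : ℕ) : k) + 1 = (b : k) := by
      rw [← Nat.cast_succ, Nat.succ_eq_add_one, Nat.sub_add_cancel (Nat.pos_of_ne_zero hb0)]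
    rwa [h2]
  have hd0 : derivative R ≠ 0 := by
    intro h
    rw [h, coeff_zero] at hdc
    exact hdc rfl
  have hdd : (derivative R).natDegree = b - 1 :=
    le_antisymm (natDegree_derivative_le R) (le_natDegree_of_ne_zero hdc)
  obtain ⟨hD0, hDv⟩ := val_aeval_neg hk hg0 (by rw [hg]; exact hV) hd0
  rw [hdd, hg, Nat.cast_sub (Nat.pos_of_ne_zero hb0), Nat.cast_one] at hDv
  -- the Taylor expansion
  set δ := y - g with hδd
  set Ro := R.map (algebraMap k Ω) with hRo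
  have htay : aeval y R = ∑ i ∈ Finset.range (b + 1), aeval g (hasseDeriv i R) * δ ^ i := by
    have h1 : aeval y R = (taylor g Ro).eval δ := by
      rw [taylor_eval, hδd, sub_add_cancel, hRo, eval_map_algebraMap]
    have h2 : (taylor g Ro).natDegree ≤ b := by
      rw [natDegree_taylor, hRo]
      exact natDegree_map_le
    rw [h1, eval_eq_sum_range' (Nat.lt_succ_of_le h2)]
    refine Finset.sum_congr rfl fun i _ => ?_
    rw [taylor_coeff]
    congr 1
    have h3 : hasseDeriv i Ro = (hasseDeriv i R).map (algebraMap k Ω) := by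
      ext j
      rw [hRo, hasseDeriv_coeff, coeff_map, coeff_map, hasseDeriv_coeff, map_mul, map_natCast]
    rw [h3, eval_map_algebraMap]
  have hterm : ∀ i, 2 ≤ i → i < b + 1 →
      v.Ge (2 * τ - V + (b - 1) * V) (aeval g (hasseDeriv i R) * δ ^ i) := by
    intro i hi hib
    have h1 : v.Ge (-((b - i : ℕ) * (-V))) (aeval g (hasseDeriv i R)) := by
      refine ge_of_coeff hk fun j hj => ?_
      have h2 := (le_natDegree_of_ne_zero hj).trans (natDegree_hasseDeriv_le R i)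
      rw [hg]
      have h3 : (j : ℝ) ≤ (b - i : ℕ) := by exact_mod_cast h2
      exact mul_le_mul_of_nonneg_right h3 (by linarith)
    have h2 := h1.mul (TWM.ge_pow hδ i)
    refine h2.mono ?_
    rw [Nat.cast_sub (by omega)]
    have h3 : (2 : ℝ) ≤ i := by exact_mod_cast hi
    nlinarith
  have hsum : aeval y R - aeval g R - aeval g (derivative R) * δ =
      ∑ i ∈ Finset.Ico 2 (b + 1), aeval g (hasseDeriv i R) * δ ^ i := by
    rw [htay, ← Finset.sum_range_add_sum_Ico _ (show 2 ≤ b + 1 by omega), Finset.sum_range_succ,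
      Finset.sum_range_one, hasseDeriv_zero', pow_zero, mul_one, hasseDeriv_one', pow_one]
    ring
  have h1 : v.Ge (2 * τ - V + (b - 1) * V)
      (aeval y R - aeval g R - aeval g (derivative R) * δ) := by
    rw [hsum]
    refine RVal.Ge.sum _ _ fun i hi => ?_
    rw [Finset.mem_Ico] at hi
    exact hterm i hi.1 hi.2
  have h2 : y - (g + (Q - aeval g R) / aeval g (derivative R)) =
      -((aeval y R - aeval g R - aeval g (derivative R) * δ) + (Q - aeval y R)) /
        aeval g (derivative R) := by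
    rw [hδd]
    field_simp
    ring
  rw [h2]
  have h3 : v.Ge (min (2 * τ - V + (b - 1) * V) c)
      (-((aeval y R - aeval g R - aeval g (derivative R) * δ) + (Q - aeval y R))) :=
    (RVal.Ge.add (h1.mono (min_le_left _ _)) (hQ.mono (min_le_right _ _))).neg
  intro h4
  have h5 : -((aeval y R - aeval g R - aeval g (derivative R) * δ) + (Q - aeval y R)) ≠ 0 := by
    intro h
    rw [h, zero_div] at h4
    exact h4 rfl
  rw [v.map_div h5 hD0, hDv]
  have h6 := h3 h5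
  rcases le_total (2 * τ - V) (c - (b - 1) * V) with h7 | h7
  · rw [min_eq_left h7]
    rw [min_eq_left (by linarith)] at h6
    linarith
  · rw [min_eq_right h7]
    rw [min_eq_right (by linarith)] at h6
    linarith

end Newton

section Tie

variable [hp : Fact p.Prime] [CharP k p] [CharP Ω p]

omit [Algebra k Ω] [Field k] hp [CharP k p] [CharP Ω p] in
/-- Powers of near elements. -/
theorem ge_pow_sub {y g : Ω} {V t : ℝ} (hy : v.Ge V y) (hg : v.Ge V g) (h : v.Ge t (y - g))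
    {b : ℕ} (hb : 1 ≤ b) : v.Ge ((b - 1) * V + t) (y ^ b - g ^ b) := by
  rw [← (Commute.all y g).geom_sum₂_mul]
  refine RVal.Ge.mul (RVal.Ge.sum _ _ fun i hi => ?_) h
  rw [Finset.mem_range] at hi
  refine ((TWM.ge_pow hy i).mul (TWM.ge_pow hg (b - 1 - i))).mono ?_
  have h1 : ((b - 1 - i : ℕ) : ℝ) = b - 1 - i := by
    rw [Nat.cast_sub (by omega), Nat.cast_sub hb, Nat.cast_one]
  rw [h1]
  apply le_of_eq
  ring

omit hp [CharP k p] [CharP Ω p] in
theorem exists_gt_sum {C : IntermediateField k Ω} {ι : Type*} (s : Finset ι) (u : ι → Ω) {c : ℝ}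
    (h : ∀ i ∈ s, ∃ q ∈ C, Gt v c (u i - q)) : ∃ q ∈ C, Gt v c ((∑ i ∈ s, u i) - q) := by
  classical
  choose! q hq h1 using h
  refine ⟨∑ i ∈ s, q i, sum_mem hq, ?_⟩
  rw [← Finset.sum_sub_distrib]
  exact Gt.sum _ _ h1

omit hp [CharP k p] [CharP Ω p] in
theorem aeval_mem' {C : IntermediateField k Ω} {g : Ω} (hg : g ∈ C) (R : k[X]) :
    aeval g R ∈ C := by
  have h1 := IntermediateField.aeval_coe (S := C) (⟨g, hg⟩ : C) R
  rw [show ((⟨g, hg⟩ : C) : Ω) = g from rfl] at h1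
  rw [h1]
  exact SetLike.coe_mem _

/-- **No letter can be isolated.** -/
theorem tie (hk : Ctx0 k v) (hr : ∀ n, x (n + 1) ^ p = x n) (h0 : x 0 ≠ 0) (hS : 0 < S)
    (hv : v (x 0) = -S) (hlam : 0 ≤ lam)
    (hl : Lim v (EW v (⊥ : IntermediateField k Ω) x) (-lam) w) {C : IntermediateField k Ω}
    (hx : x 0 ∈ C) (hw : w ∈ C) {Δ : ℕ → ℝ} (hΔ : ∀ m, 1 ≤ m → 0 < Δ m)
    (hD : ∀ m, 1 ≤ m → Dst v C (x m) ((Δ m - S) / p ^ m)) {a m b : ℕ} (hm : 1 ≤ m)
    (hb : Pres k p v x w S lam (a + m) b) (hlt : Δ m < bt p S lam (a + m) b) :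
    ∃ l b', 1 ≤ l ∧ l ≠ m ∧ Pres k p v x w S lam (a + l) b' ∧
      (bt p S lam (a + m) b - Δ m) / (p : ℝ) ^ m ≤
        (bt p S lam (a + l) b' - Δ l) / (p : ℝ) ^ l := by
  classical
  by_contra hno
  push Not at hno
  obtain ⟨G, hG⟩ : ∃ G : ℝ, G = (bt p S lam (a + m) b - Δ m) / (p : ℝ) ^ m := ⟨_, rfl⟩
  rw [← hG] at hno
  have hpa := ps_pos p a
  have hpm := ps_pos p m
  have hG0 : 0 < G := by
    rw [hG]
    exact div_pos (by linarith) hpm
  -- the precision
  obtain ⟨ε, hε, hε1, hε2⟩ : ∃ ε : ℝ, 0 < ε ∧ ε * (p : ℝ) ^ a < G ∧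
      lam + ε < b * (S / p ^ (a + m)) := by
    have h1 := hb.pos
    have h2 : lam < b * (S / p ^ (a + m)) := by
      unfold bt at h1
      rw [← mul_div_assoc, lt_div_iff₀ (ps_pos p (a + m))]
      linarith
    refine ⟨min (G / (2 * p ^ a)) ((b * (S / p ^ (a + m)) - lam) / 2),
      lt_min (by positivity) (by linarith), ?_, ?_⟩
    · refine lt_of_le_of_lt (mul_le_mul_of_nonneg_right (min_le_left _ _) hpa.le) ?_
      have : G / (2 * p ^ a) * (p : ℝ) ^ a = G / 2 := by field_simp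
      rw [this]
      linarith
    · have := min_le_right (G / (2 * (p : ℝ) ^ a)) ((b * (S / p ^ (a + m)) - lam) / 2)
      linarith
  obtain ⟨n, hn, P, hP, hPc⟩ := exists_apr hk hr h0 hS hv hlam hl hε (a + m)
  obtain ⟨N, rfl⟩ : ∃ N, n = N + a := ⟨n - a, by omega⟩
  have hmN : m ≤ N := by omega
  -- the terms
  obtain ⟨u, hu⟩ : ∃ u : ℕ → Ω, ∀ i, u i = algebraMap k Ω (P.coeff i) ^ p ^ a * x N ^ i :=
    ⟨fun i => algebraMap k Ω (P.coeff i) ^ p ^ a * x N ^ i, fun i => rfl⟩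
  have hsum : aeval (x (N + a)) P ^ p ^ a = ∑ i ∈ P.support, u i := by
    rw [aeval_eq_sum_range, sum_pow_char_pow, ← Finset.sum_subset (s₁ := P.support)]
    · refine Finset.sum_congr rfl fun i _ => ?_
      rw [hu, Algebra.smul_def, mul_pow, ← pow_mul, mul_comm i, pow_mul, root_pow_add hr N a]
    · intro i hi
      rw [Finset.mem_range]
      exact Nat.lt_succ_of_le (le_natDegree_of_mem_supp i hi)
    · intro i _ hi
      rw [notMem_support_iff] at hi
      rw [hi, zero_smul, zero_pow (pow_pos hp.out.pos a).ne']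
  have hwp : v.Ge (-((lam + ε) * p ^ a)) (w ^ p ^ a - ∑ i ∈ P.support, u i) := by
    rw [← hsum, ← sub_pow_char_pow]
    refine (TWM.ge_pow (show v.Ge (-(lam + ε)) _ from hP) (p ^ a)).mono ?_
    push_cast
    apply le_of_eq
    ring
  obtain ⟨c₀, hc₀⟩ : ∃ c₀ : ℝ, c₀ = -(lam * p ^ a) - G := ⟨_, rfl⟩
  have hwp' : Gt v c₀ (w ^ p ^ a - ∑ i ∈ P.support, u i) := by
    refine Gt.of_ge hwp ?_
    rw [hc₀]
    linarith
  -- the constants
  have hcst : ∀ i, v.Ge 0 (algebraMap k Ω (P.coeff i) ^ p ^ a) := by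
    intro i
    rw [← map_pow]
    exact hk.ge _
  have hcstC : ∀ i, algebraMap k Ω (P.coeff i) ^ p ^ a ∈ C := fun i =>
    pow_mem (C.algebraMap_mem _) _
  -- the terms of the level `m`
  obtain ⟨s₁, hs₁⟩ : ∃ s₁ : Finset ℕ, s₁ = P.support.filter
      (fun i : ℕ => ∃ b', i = b' * p ^ (N - m) ∧ ¬ p ∣ b') := ⟨_, rfl⟩
  have hs₁m : ∀ i, i ∈ s₁ ↔ P.coeff i ≠ 0 ∧ ∃ b', i = b' * p ^ (N - m) ∧ ¬ p ∣ b' := by
    intro i
    rw [hs₁, Finset.mem_filter, mem_support_iff]
  have hpe : 0 < p ^ (N - m) := pow_pos hp.out.pos _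
  obtain ⟨R, hR⟩ : ∃ R : k[X], R = ∑ i ∈ s₁, monomial (i / p ^ (N - m)) (P.coeff i ^ p ^ a) :=
    ⟨_, rfl⟩
  have hRx : aeval (x m) R = ∑ i ∈ s₁, u i := by
    rw [hR, map_sum]
    refine Finset.sum_congr rfl fun i hi => ?_
    obtain ⟨-, b', rfl, -⟩ := (hs₁m i).1 hi
    rw [Nat.mul_div_cancel _ hpe, aeval_monomial, hu, map_pow]
    congr 1
    have h1 := root_pow_add hr m (N - m)
    rw [Nat.add_sub_cancel' hmN] at h1
    rw [mul_comm b', pow_mul, h1]
  have hRc : ∀ j, R.coeff j ≠ 0 → ¬ p ∣ j := by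
    intro j hj
    rw [hR, finsetSum_coeff] at hj
    obtain ⟨i, hi, h1⟩ := Finset.exists_ne_zero_of_sum_ne_zero hj
    obtain ⟨-, b', rfl, h2⟩ := (hs₁m i).1 hi
    rw [Nat.mul_div_cancel _ hpe, coeff_monomial] at h1
    by_cases h3 : b' = j
    · rwa [← h3]
    · rw [if_neg h3] at h1
      exact absurd rfl h1
  have hcb := hb.coeff_ne hk hr h0 hS hv hP (by omega) hε2
  have hNe : N + a - (a + m) = N - m := by omega
  rw [hNe] at hcb
  have hRb : R.coeff b ≠ 0 := by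
    rw [hR, finsetSum_coeff, Finset.sum_eq_single (b * p ^ (N - m))]
    · rw [Nat.mul_div_cancel _ hpe, coeff_monomial, if_pos rfl]
      exact pow_ne_zero _ hcb
    · intro i hi hne
      obtain ⟨-, b', rfl, -⟩ := (hs₁m i).1 hi
      rw [Nat.mul_div_cancel _ hpe, coeff_monomial, if_neg]
      rintro rfl
      exact hne rfl
    · intro hi
      exact absurd ((hs₁m _).2 ⟨hcb, b, rfl, hb.2.1⟩) hi
  have hR0 : R ≠ 0 := by
    rintro h
    rw [h, coeff_zero] at hRb
    exact hRb rfl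
  have hRd : ¬ p ∣ R.natDegree := hRc _ (by
    rw [coeff_natDegree]
    exact leadingCoeff_ne_zero.2 hR0)
  have hbd : (b : ℝ) ≤ R.natDegree := by exact_mod_cast le_natDegree_of_ne_zero hRb
  -- the other terms
  have hoth : ∀ i ∈ P.support \ s₁, ∃ q ∈ C, Gt v c₀ (u i - q) := by
    intro i hi
    rw [Finset.mem_sdiff, mem_support_iff] at hi
    obtain ⟨hi1, hi2⟩ := hi
    have hi0 : i ≠ 0 := by
      rintro rfl
      have := hPc 0 hi1
      rw [Nat.cast_zero, zero_mul] at this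
      linarith
    obtain ⟨e, b', hb', hie⟩ := Nat.exists_eq_pow_mul_and_not_dvd hi0 p hp.out.ne_one
    rcases le_or_gt N e with hNe' | hNe'
    · refine ⟨u i, ?_, by rw [sub_self]; exact Gt.zero⟩
      rw [hu]
      refine mul_mem (hcstC i) ?_
      obtain ⟨e', rfl⟩ : ∃ e', e = N + e' := ⟨e - N, by omega⟩
      have h1 := root_pow_add hr 0 N
      rw [zero_add] at h1
      rw [hie, pow_add, mul_assoc, pow_mul, h1]
      exact pow_mem hx _
    · obtain ⟨l, rfl⟩ : ∃ l, N = l + e := ⟨N - e, by omega⟩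
      have hl1 : 1 ≤ l := by omega
      have hlm : l ≠ m := by
        rintro rfl
        refine hi2 ((hs₁m i).2 ⟨hi1, b', ?_, hb'⟩)
        rw [hie, Nat.add_sub_cancel_left, mul_comm]
      have hpl := ps_pos p l
      have hPr : Pres k p v x w S lam (a + l) b' := by
        have he : l + e + a - (a + l) = e := by omega
        have h2 : b' * p ^ (l + e + a - (a + l)) = i := by rw [he, hie, mul_comm]
        refine ⟨by omega, hb', l + e + a, P, ε, by omega, hε, hP, ?_, ?_⟩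
        · rw [← mul_div_pow (n := l + e + a) (by omega), h2]
          exact hPc i hi1
        · rw [h2]
          exact hi1
      have h3 := hno l b' hl1 hlm hPr
      have hΔl := hΔ l hl1
      obtain ⟨ε', hε', hε'1, hε'2⟩ : ∃ ε' : ℝ, 0 < ε' ∧ ε' < Δ l / p ^ l ∧
          ε' < G - (bt p S lam (a + l) b' - Δ l) / p ^ l := by
        refine ⟨min (Δ l / p ^ l) (G - (bt p S lam (a + l) b' - Δ l) / p ^ l) / 2, ?_, ?_, ?_⟩
        · exact half_pos (lt_min (div_pos hΔl hpl) (by linarith))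
        · have h5 := min_le_left (Δ l / (p : ℝ) ^ l)
            (G - (bt p S lam (a + l) b' - Δ l) / p ^ l)
          have h6 : 0 < min (Δ l / (p : ℝ) ^ l) (G - (bt p S lam (a + l) b' - Δ l) / p ^ l) :=
            lt_min (div_pos hΔl hpl) (by linarith)
          linarith
        · have h5 := min_le_right (Δ l / (p : ℝ) ^ l)
            (G - (bt p S lam (a + l) b' - Δ l) / p ^ l)
          have h6 : 0 < min (Δ l / (p : ℝ) ^ l) (G - (bt p S lam (a + l) b' - Δ l) / p ^ l) :=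
            lt_min (div_pos hΔl hpl) (by linarith)
          linarith
      obtain ⟨g, hg, h4⟩ := (hD l hl1).near ε' hε'
      have hvx := val_x hr h0 hv l
      have hge1 : v.Ge (-(S / p ^ l)) (x l) := fun _ => hvx.ge
      have hτ : -(S / (p : ℝ) ^ l) ≤ (Δ l - S) / p ^ l - ε' := by
        rw [sub_div]
        linarith
      have hge2 : v.Ge (-(S / p ^ l)) g := by
        have h5 := RVal.Ge.sub hge1 (h4.mono hτ)
        rwa [sub_sub_cancel] at h5
      have hb1 : 1 ≤ b' := by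
        rcases Nat.eq_zero_or_pos b' with h5 | h5
        · exact absurd (h5 ▸ dvd_zero p) hb'
        · exact h5
      refine ⟨algebraMap k Ω (P.coeff i) ^ p ^ a * g ^ b', mul_mem (hcstC i) (pow_mem hg _), ?_⟩
      have h5 : u i - algebraMap k Ω (P.coeff i) ^ p ^ a * g ^ b' =
          algebraMap k Ω (P.coeff i) ^ p ^ a * (x l ^ b' - g ^ b') := by
        rw [hu, mul_sub]
        congr 2
        rw [hie, pow_mul, root_pow_add hr l e]
      rw [h5]
      refine Gt.of_ge ((hcst i).mul (ge_pow_sub hge1 hge2 h4 hb1)) ?_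
      have h6 : (bt p S lam (a + l) b' - Δ l) / p ^ l =
          b' * (S / p ^ l) - lam * p ^ a - Δ l / p ^ l := by
        unfold bt
        rw [pow_add]
        field_simp
      rw [h6] at hε'2
      rw [hc₀, sub_div, zero_add]
      linarith
  obtain ⟨q, hq, hq'⟩ := exists_gt_sum _ _ hoth
  -- one Newton step
  have hQC : w ^ p ^ a - q ∈ C := sub_mem (pow_mem hw _) hq
  have hQ : Gt v c₀ (w ^ p ^ a - q - aeval (x m) R) := by
    have h1 := Gt.add hwp' hq'
    have h2 : ∑ i ∈ P.support, u i = (∑ i ∈ P.support \ s₁, u i) + ∑ i ∈ s₁, u i := by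
      rw [Finset.sum_sdiff]
      rw [hs₁]
      exact Finset.filter_subset _ _
    rw [h2] at h1
    rw [hRx]
    convert h1 using 1
    ring
  obtain ⟨c, hc, hQc⟩ : ∃ c : ℝ, c₀ < c ∧ v.Ge c (w ^ p ^ a - q - aeval (x m) R) := by
    by_cases h1 : w ^ p ^ a - q - aeval (x m) R = 0
    · exact ⟨c₀ + 1, by linarith, fun h2 => absurd h1 h2⟩
    · exact ⟨_, hQ h1, fun _ => le_rfl⟩
  have hΔm := hΔ m hm
  obtain ⟨g, hg, h4⟩ := (hD m hm).near (Δ m / (4 * p ^ m)) (by positivity)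
  have hvx := val_x hr h0 hv m
  have hd : Δ m / (p : ℝ) ^ m = 4 * (Δ m / (4 * p ^ m)) := by field_simp
  have hd0 : 0 < Δ m / (4 * (p : ℝ) ^ m) := by positivity
  have hxm : x m ≠ 0 := root_ne hr h0 m
  have hg1 : g ≠ 0 ∧ v g = v (x m) := by
    refine Gt.val_eq hxm (Gt.of_ge h4 ?_)
    rw [hvx, sub_div, hd]
    linarith
  have hV : -(S / (p : ℝ) ^ m) < 0 := neg_neg_of_pos (div_pos hS hpm)
  have h5 := newton hk hRd hg1.1 (hg1.2.trans hvx) hV (τ := (Δ m - S) / p ^ m - Δ m / (4 * p ^ m))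
    (by rw [sub_div, hd]; linarith) h4 hQc
  have h6 := (hD m hm).le_of_ge (add_mem hg (div_mem (sub_mem hQC (aeval_mem' hg R))
    (aeval_mem' hg (derivative R)))) h5
  rcases min_le_iff.1 h6 with h7 | h7
  · rw [sub_div, hd] at h7
    linarith
  · have h8 : G ≤ R.natDegree * (S / p ^ m) - lam * p ^ a - Δ m / p ^ m := by
      have h9 : G = b * (S / p ^ m) - lam * p ^ a - Δ m / p ^ m := by
        rw [hG]
        unfold bt
        rw [pow_add]
        field_simp
      rw [h9]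
      have := mul_le_mul_of_nonneg_right hbd (div_pos hS hpm).le
      linarith
    rw [sub_div] at h7
    rw [hc₀] at hc
    linarith

/-- The letters of `w` are a set of data. -/
theorem dat (hk : Ctx0 k v) (hr : ∀ n, x (n + 1) ^ p = x n) (h0 : x 0 ≠ 0) (hS : 0 < S)
    (hv : v (x 0) = -S) (hlam : 0 ≤ lam)
    (hl : Lim v (EW v (⊥ : IntermediateField k Ω) x) (-lam) w) {C : IntermediateField k Ω}
    (hx : x 0 ∈ C) (hw : w ∈ C) {Δ : ℕ → ℝ} (hΔ : ∀ m, 1 ≤ m → 0 < Δ m)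
    (hD : ∀ m, 1 ≤ m → Dst v C (x m) ((Δ m - S) / p ^ m)) :
    Irr.Dat p S lam (Pres k p v x w S lam) Δ where
  one_lt := hp.out.one_lt
  S_pos := hS
  lvl _ _ h := h.1
  nonneg l hl := (hΔ l hl).le
  fin _ hε := Pres.fin hk hr h0 hS hv hlam hl hε
  tie _ _ _ hm hb hlt := tie hk hr h0 hS hv hlam hl hx hw hΔ hD hm hb hlt

end Tie

end Pool.Agent.TWC.Irr
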