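import Pool.Agent.Lib.JM_H15.Basic

/-!
# TANK W, class C: the first floor

`P` a perfect field, `u n : ι → Ω` compatible `p^n`-th roots of `w = u 0`, `w` generic of radius `c` over
`P`. Elements of `P[w^(1/p^n)]` are given by their coefficients, `(ι → ℕ) →₀ P`, and evaluated at
`u n`; `hd F` is the Hasse derivative of multi-order `F` (it has order `F / p^n` at level `n`).

* `hd_hd`, `hd_comm`: composition of the operators; `hd_lf`, `hd_lf_eq_zero`: change of the level;
* `ev_taylor`, `ev_sp`: Taylor formula, specialisation of all the variables, of the fine digits;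
* `norm_le`, `norm_lt`: `v (D_F f) ≥ v f - F . γ`, with a strict inequality for `F ≠ 0`;
* `Floor`: the data of the first floor; `Floor.jets`, `Floor.jets_fine`, `Floor.jets_strict`: the jets
  of a limit of `P[w^(1/p^n)]` which is approximated by elements of small degree.
-/

set_option autoImplicit false

open Finset

namespace Pool.Agent.TWC.Key

open Pool.Agent.H15JM (RVal)

/-! ## Binomial coefficients modulo p -/

theorem choose_pow_mul (p : ℕ) [Fact p.Prime] (k : ℕ) :
    ∀ Q r j : ℕ, r < p ^ k → (p ^ k * Q + r).choose (p ^ k * j) ≡ Q.choose j [ZMOD p] := by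
  have hp : 0 < p := (Fact.out : p.Prime).pos
  induction k with
  | zero =>
    intro Q r j hr
    have : r = 0 := by simpa using hr
    subst this
    simp [Int.ModEq.refl]
  | succ k ih =>
    intro Q r j hr
    have h1 := Choose.choose_modEq_choose_mod_mul_choose_div
      (n := p ^ (k + 1) * Q + r) (k := p ^ (k + 1) * j) (p := p)
    have e1 : (p ^ (k + 1) * j) % p = 0 := by
      rw [pow_succ]
      have : p ^ k * p * j = p * (p ^ k * j) := by ring
      rw [this, Nat.mul_mod_right]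
    have e2 : (p ^ (k + 1) * j) / p = p ^ k * j := by
      have : p ^ (k + 1) * j = p * (p ^ k * j) := by ring
      rw [this, Nat.mul_div_cancel_left _ hp]
    have e3 : (p ^ (k + 1) * Q + r) / p = p ^ k * Q + r / p := by
      have : p ^ (k + 1) * Q + r = r + p * (p ^ k * Q) := by ring
      rw [this, Nat.add_mul_div_left _ _ hp, Nat.add_comm]
    rw [e1, e2, e3] at h1
    have h2 : r / p < p ^ k := by
      rw [Nat.div_lt_iff_lt_mul hp]
      rwa [pow_succ] at hr
    have h3 := ih Q (r / p) j h2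
    rw [Nat.choose_zero_right] at h1
    simp only [Nat.cast_one, one_mul] at h1
    exact h1.trans h3

theorem choose_add_lt (p : ℕ) [Fact p.Prime] (k : ℕ) :
    ∀ Q r F : ℕ, r < p ^ k → F < p ^ k →
      (p ^ k * Q + r).choose F ≡ r.choose F [ZMOD p] := by
  have hp : 0 < p := (Fact.out : p.Prime).pos
  induction k with
  | zero =>
    intro Q r F hr hF
    have e1 : r = 0 := by simpa using hr
    have e2 : F = 0 := by simpa using hF
    subst e1 e2
    simp [Int.ModEq.refl]
  | succ k ih =>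
    intro Q r F hr hF
    have h1 := Choose.choose_modEq_choose_mod_mul_choose_div
      (n := p ^ (k + 1) * Q + r) (k := F) (p := p)
    have h1' := Choose.choose_modEq_choose_mod_mul_choose_div (n := r) (k := F) (p := p)
    have e3 : (p ^ (k + 1) * Q + r) / p = p ^ k * Q + r / p := by
      have : p ^ (k + 1) * Q + r = r + p * (p ^ k * Q) := by ring
      rw [this, Nat.add_mul_div_left _ _ hp, Nat.add_comm]
    have e4 : (p ^ (k + 1) * Q + r) % p = r % p := by
      have : p ^ (k + 1) * Q + r = r + p * (p ^ k * Q) := by ring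
      rw [this, Nat.add_mul_mod_self_left]
    rw [e3, e4] at h1
    have h2 : r / p < p ^ k := by
      rw [Nat.div_lt_iff_lt_mul hp]
      rwa [pow_succ] at hr
    have h2' : F / p < p ^ k := by
      rw [Nat.div_lt_iff_lt_mul hp]
      rwa [pow_succ] at hF
    have h3 := ih Q (r / p) (F / p) h2 h2'
    exact h1.trans ((h3.mul_left _).trans h1'.symm)

theorem choose_not_dvd (p : ℕ) [Fact p.Prime] (k : ℕ) :
    ∀ Q F : ℕ, ¬ p ^ k ∣ F → (p ^ k * Q).choose F ≡ 0 [ZMOD p] := by
  have hp : 0 < p := (Fact.out : p.Prime).pos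
  induction k with
  | zero => intro Q F h; simp at h
  | succ k ih =>
    intro Q F h
    have h1 := Choose.choose_modEq_choose_mod_mul_choose_div
      (n := p ^ (k + 1) * Q) (k := F) (p := p)
    have e3 : (p ^ (k + 1) * Q) / p = p ^ k * Q := by
      have : p ^ (k + 1) * Q = p * (p ^ k * Q) := by ring
      rw [this, Nat.mul_div_cancel_left _ hp]
    have e4 : (p ^ (k + 1) * Q) % p = 0 := by
      have : p ^ (k + 1) * Q = p * (p ^ k * Q) := by ring
      rw [this, Nat.mul_mod_right]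
    rw [e3, e4] at h1
    refine h1.trans ?_
    by_cases hF : p ∣ F
    · obtain ⟨F', rfl⟩ := hF
      have h2 : ¬ p ^ k ∣ F' := fun hd => h (by rw [pow_succ, Nat.mul_comm]; exact Nat.mul_dvd_mul_left p hd)
      rw [Nat.mul_div_cancel_left _ hp]
      have h3 := (ih Q F' h2).mul_left (((0 : ℕ).choose ((p * F') % p) : ℕ) : ℤ)
      rwa [mul_zero] at h3
    · have h2 : 0 < F % p := Nat.pos_of_ne_zero fun h0 => hF (Nat.dvd_of_mod_eq_zero h0)
      rw [Nat.choose_eq_zero_of_lt h2]
      simp [Int.ModEq.refl]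

section Ops

variable {ι : Type*} [Fintype ι] {P : Type*} [Field P]

/-- The Hasse derivative of multi-order `F` (on the coefficients). -/
noncomputable def hd (F : ι → ℕ) : ((ι → ℕ) →₀ P) →ₗ[P] ((ι → ℕ) →₀ P) :=
  Finsupp.linearCombination P fun I =>
    Finsupp.single (fun l => I l - F l) (∏ l, ((I l).choose (F l) : P))

theorem hd_single (F I : ι → ℕ) (c : P) :
    hd F (Finsupp.single I c) =
      Finsupp.single (fun l => I l - F l) (c * ∏ l, ((I l).choose (F l) : P)) := by
  rw [hd, Finsupp.linearCombination_single, Finsupp.smul_single, smul_eq_mul]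

theorem choose_mul_choose_sub (n a b : ℕ) :
    n.choose a * (n - a).choose b = n.choose (a + b) * (a + b).choose a := by
  by_cases h : a + b ≤ n
  · have h1 := Nat.choose_mul (n := n) (k := a + b) (s := a) (Nat.le_add_right a b)
    rw [h1, Nat.add_sub_cancel_left]
  · rw [Nat.choose_eq_zero_of_lt (by omega : n < a + b)]
    by_cases h' : a ≤ n
    · rw [Nat.choose_eq_zero_of_lt (by omega : n - a < b)]
      ring
    · rw [Nat.choose_eq_zero_of_lt (by omega : n < a)]
      ring

theorem hd_hd (F G : ι → ℕ) (f : (ι → ℕ) →₀ P) :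
    hd F (hd G f) = (∏ l, (((G l + F l).choose (G l) : ℕ) : P)) • hd (fun l => G l + F l) f := by
  induction f using Finsupp.induction_linear with
  | zero => simp
  | add f g hf hg => rw [map_add, map_add, hf, hg, map_add, smul_add]
  | single I c =>
    rw [hd_single, hd_single, hd_single, Finsupp.smul_single, smul_eq_mul]
    congr 1
    · funext l
      exact Nat.sub_sub _ _ _
    · rw [mul_assoc, ← Finset.prod_mul_distrib, ← mul_assoc, mul_comm (∏ l, _) c, mul_assoc,
        ← Finset.prod_mul_distrib]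
      congr 1
      refine Finset.prod_congr rfl fun l _ => ?_
      rw [← Nat.cast_mul, ← Nat.cast_mul, choose_mul_choose_sub, Nat.mul_comm]

theorem hd_comm (F G : ι → ℕ) (f : (ι → ℕ) →₀ P) : hd F (hd G f) = hd G (hd F f) := by
  rw [hd_hd, hd_hd]
  congr 1
  · refine Finset.prod_congr rfl fun l _ => ?_
    congr 1
    have h1 := Nat.choose_symm_add (a := G l) (b := F l)
    rw [h1, Nat.add_comm]
  · have h2 : (fun l => G l + F l) = fun l => F l + G l := funext fun l => Nat.add_comm _ _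
    rw [h2]

theorem hd_zero (f : (ι → ℕ) →₀ P) : hd (fun _ => 0) f = f := by
  induction f using Finsupp.induction_linear with
  | zero => simp
  | add f g hf hg => rw [map_add, hf, hg]
  | single I c =>
    rw [hd_single]
    simp

/-- `X ↦ X^a`. -/
noncomputable def lf (a : ℕ) : ((ι → ℕ) →₀ P) →ₗ[P] ((ι → ℕ) →₀ P) :=
  Finsupp.linearCombination P fun I => Finsupp.single (fun l => a * I l) 1

theorem lf_single (a : ℕ) (I : ι → ℕ) (c : P) :
    lf a (Finsupp.single I c) = Finsupp.single (fun l => a * I l) c := by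
  rw [lf, Finsupp.linearCombination_single, Finsupp.smul_single, smul_eq_mul, mul_one]

theorem cast_of_modEq {p : ℕ} [CharP P p] {a b : ℕ} (h : (a : ℤ) ≡ b [ZMOD p]) :
    (a : P) = (b : P) := by
  have h1 := (CharP.intCast_eq_intCast P p).2 h
  simpa using h1

/-! ## Compatibility with the roots -/

section Roots

variable (p : ℕ) [Fact p.Prime] [CharP P p]

theorem lf_lf (a b : ℕ) (f : (ι → ℕ) →₀ P) : lf a (lf b f) = lf (a * b) f := by
  induction f using Finsupp.induction_linear with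
  | zero => simp
  | add f g hf hg => simp only [map_add, hf, hg]
  | single I c =>
    rw [lf_single, lf_single, lf_single]
    congr 1
    funext l
    exact (Nat.mul_assoc _ _ _).symm

theorem hd_lf (k : ℕ) (J : ι → ℕ) (f : (ι → ℕ) →₀ P) :
    hd (fun l => p ^ k * J l) (lf (p ^ k) f) = lf (p ^ k) (hd J f) := by
  induction f using Finsupp.induction_linear with
  | zero => simp
  | add f g hf hg => simp only [map_add, hf, hg]
  | single I c =>
    rw [lf_single, hd_single, hd_single, lf_single]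
    congr 1
    · funext l
      exact (Nat.mul_sub _ _ _).symm
    · congr 1
      refine Finset.prod_congr rfl fun l _ => ?_
      have h1 := choose_pow_mul p k (I l) 0 (J l) (pow_pos (Fact.out : p.Prime).pos k)
      rw [Nat.add_zero] at h1
      exact cast_of_modEq h1

theorem hd_lf_eq_zero (k : ℕ) (F : ι → ℕ) (h : ∃ l, ¬ p ^ k ∣ F l) (f : (ι → ℕ) →₀ P) :
    hd F (lf (p ^ k) f) = 0 := by
  obtain ⟨l, hl⟩ := h
  induction f using Finsupp.induction_linear with
  | zero => simp
  | add f g hf hg => simp only [map_add, hf, hg, add_zero]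
  | single I c =>
    rw [lf_single, hd_single]
    have h1 : (((p ^ k * I l).choose (F l) : ℕ) : P) = 0 := by
      have h2 := choose_not_dvd p k (I l) (F l) hl
      have h3 := cast_of_modEq (P := P) (p := p) (a := (p ^ k * I l).choose (F l)) (b := 0)
        (by simpa using h2)
      simpa using h3
    rw [Finset.prod_eq_zero (Finset.mem_univ l) h1, mul_zero, Finsupp.single_zero]

/-- The specialisation of the fine digits. -/
noncomputable def sp (a : ℕ) (η : ι → P) : ((ι → ℕ) →₀ P) →ₗ[P] ((ι → ℕ) →₀ P) :=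
  Finsupp.linearCombination P fun I =>
    Finsupp.single (fun l => I l / a) (∏ l, η l ^ (I l % a))

theorem sp_single (a : ℕ) (η : ι → P) (I : ι → ℕ) (c : P) :
    sp a η (Finsupp.single I c) = Finsupp.single (fun l => I l / a) (c * ∏ l, η l ^ (I l % a)) := by
  rw [sp, Finsupp.linearCombination_single, Finsupp.smul_single, smul_eq_mul]

theorem hd_sp (k : ℕ) (η : ι → P) (J : ι → ℕ) (f : (ι → ℕ) →₀ P) :
    hd J (sp (p ^ k) η f) = sp (p ^ k) η (hd (fun l => p ^ k * J l) f) := by
  have hpk : 0 < p ^ k := pow_pos (Fact.out : p.Prime).pos k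
  induction f using Finsupp.induction_linear with
  | zero => simp
  | add f g hf hg => simp only [map_add, hf, hg]
  | single I c =>
    rw [sp_single, hd_single, hd_single, sp_single]
    by_cases hle : ∀ l, p ^ k * J l ≤ I l
    · congr 1
      · funext l
        rw [Nat.sub_mul_div]
      · have h1 : ∀ l, (I l - p ^ k * J l) % p ^ k = I l % p ^ k := by
          intro l
          conv_rhs => rw [← Nat.sub_add_cancel (hle l)]
          rw [Nat.add_mul_mod_self_left]
        have h2 : ∀ l, (((I l / p ^ k).choose (J l) : ℕ) : P) =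
            (((I l).choose (p ^ k * J l) : ℕ) : P) := by
          intro l
          have h3 := choose_pow_mul p k (I l / p ^ k) (I l % p ^ k) (J l) (Nat.mod_lt _ hpk)
          rw [Nat.div_add_mod] at h3
          exact (cast_of_modEq h3).symm
        simp only [h1, h2]
        ring
    · push Not at hle
      obtain ⟨l, hl⟩ := hle
      have h1 : (((I l).choose (p ^ k * J l) : ℕ) : P) = 0 := by
        rw [Nat.choose_eq_zero_of_lt hl, Nat.cast_zero]
      have h2 : (((I l / p ^ k).choose (J l) : ℕ) : P) = 0 := by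
        rw [Nat.choose_eq_zero_of_lt (by rw [Nat.div_lt_iff_lt_mul hpk, Nat.mul_comm]; exact hl),
          Nat.cast_zero]
      have h3 : (∏ l, (((I l).choose (p ^ k * J l) : ℕ) : P)) = 0 :=
        Finset.prod_eq_zero (Finset.mem_univ l) h1
      have h4 : (∏ l, (((I l / p ^ k).choose (J l) : ℕ) : P)) = 0 :=
        Finset.prod_eq_zero (Finset.mem_univ l) h2
      rw [h3, h4]
      simp

end Roots

/-! ## Evaluation -/

section Ev

variable {Ω : Type*} [Field Ω] [Algebra P Ω] [DecidableEq ι]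

omit [DecidableEq ι] in
/-- Evaluation at `u`. -/
noncomputable def ev (u : ι → Ω) : ((ι → ℕ) →₀ P) →ₗ[P] Ω :=
  Finsupp.linearCombination P fun I => ∏ l, u l ^ I l

omit [DecidableEq ι] in
theorem ev_single (u : ι → Ω) (I : ι → ℕ) (c : P) :
    ev u (Finsupp.single I c) = algebraMap P Ω c * ∏ l, u l ^ I l := by
  rw [ev, Finsupp.linearCombination_single, Algebra.smul_def]

omit [DecidableEq ι] in
theorem ev_lf {u u' : ι → Ω} {a : ℕ} (h : ∀ l, u' l ^ a = u l) (f : (ι → ℕ) →₀ P) :
    ev u' (lf a f) = ev u f := by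
  induction f using Finsupp.induction_linear with
  | zero => simp
  | add f g hf hg => simp only [map_add, hf, hg]
  | single I c =>
    rw [lf_single, ev_single, ev_single]
    congr 1
    refine Finset.prod_congr rfl fun l _ => ?_
    rw [pow_mul, h]

/-- One variable Taylor formula. -/
theorem taylor_one {R : Type*} [CommRing R] (u η : R) (n N : ℕ) (h : n < N) :
    ∑ F ∈ range N, ((n.choose F : ℕ) : R) * u ^ (n - F) * (η - u) ^ F = η ^ n := by
  have h1 : ∑ F ∈ range (n + 1), ((n.choose F : ℕ) : R) * u ^ (n - F) * (η - u) ^ F = η ^ n := by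
    have h2 := add_pow (η - u) u n
    rw [sub_add_cancel] at h2
    rw [h2]
    refine Finset.sum_congr rfl fun F _ => ?_
    ring
  rw [← h1]
  refine (Finset.sum_subset (Finset.range_mono h) fun F _ hF => ?_).symm
  rw [Finset.mem_range, not_lt] at hF
  rw [Nat.choose_eq_zero_of_lt hF, Nat.cast_zero, zero_mul, zero_mul]

omit [DecidableEq ι] in
theorem ev_hd_single (u : ι → Ω) (F I : ι → ℕ) (c : P) :
    ev u (hd F (Finsupp.single I c)) =
      algebraMap P Ω c * ∏ l, (((I l).choose (F l) : ℕ) : Ω) * u l ^ (I l - F l) := by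
  rw [hd_single, ev_single, Finset.prod_mul_distrib, map_mul, map_prod]
  simp only [map_natCast]
  ring

/-- Taylor formula: specialisation of all the variables. -/
theorem ev_taylor (u : ι → Ω) (η : ι → P) (f : (ι → ℕ) →₀ P) (N : ℕ)
    (hN : ∀ I ∈ f.support, ∀ l, I l < N) :
    ev (fun l => algebraMap P Ω (η l)) f =
      ∑ F ∈ Fintype.piFinset fun _ : ι => range N,
        ev u (hd F f) * ∏ l, (algebraMap P Ω (η l) - u l) ^ F l := by
  classical
  have key : ∀ I : ι → ℕ, (∀ l, I l < N) → ∀ c : P,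
      ev (fun l => algebraMap P Ω (η l)) (Finsupp.single I c) =
      ∑ F ∈ Fintype.piFinset fun _ : ι => range N,
        ev u (hd F (Finsupp.single I c)) * ∏ l, (algebraMap P Ω (η l) - u l) ^ F l := by
    intro I hI c
    simp only [ev_hd_single]
    rw [ev_single]
    have h1 : ∀ l, algebraMap P Ω (η l) ^ I l = ∑ F ∈ range N,
        ((((I l).choose F : ℕ) : Ω) * u l ^ (I l - F)) * (algebraMap P Ω (η l) - u l) ^ F :=
      fun l => (taylor_one _ _ _ _ (hI l)).symm
    rw [Finset.prod_congr rfl fun l _ => h1 l, Finset.prod_univ_sum, Finset.mul_sum]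
    refine Finset.sum_congr rfl fun F _ => ?_
    rw [Finset.prod_mul_distrib, mul_assoc]
  have h2 : ∀ g : (ι → ℕ) →₀ P, g.support ⊆ f.support →
      ev (fun l => algebraMap P Ω (η l)) g =
      ∑ F ∈ Fintype.piFinset fun _ : ι => range N,
        ev u (hd F g) * ∏ l, (algebraMap P Ω (η l) - u l) ^ F l := by
    intro g
    induction g using Finsupp.induction with
    | zero => intro _; simp
    | single_add I c g hI hc ih =>
      intro hsub
      have hs : (Finsupp.single I c + g).support = insert I g.support := by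
        rw [Finsupp.support_add_eq, Finsupp.support_single _ hc]
        · rfl
        · rw [Finsupp.support_single _ hc]
          exact Finset.disjoint_singleton_left.2 hI
      rw [hs] at hsub
      rw [map_add, ih (fun J hJ => hsub (Finset.mem_insert_of_mem hJ)),
        key I (hN I (hsub (Finset.mem_insert_self _ _))) c, ← Finset.sum_add_distrib]
      refine Finset.sum_congr rfl fun F _ => ?_
      rw [map_add, map_add, add_mul]
  exact h2 f (Finset.Subset.refl _)

/-- Taylor formula: specialisation of the fine digits. -/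
theorem ev_sp (p : ℕ) [Fact p.Prime] [CharP P p] [CharP Ω p] (k : ℕ) {u u' : ι → Ω}
    (h : ∀ l, u' l ^ (p ^ k) = u l) (η : ι → P) (f : (ι → ℕ) →₀ P) :
    ev u (sp (p ^ k) η f) =
      ∑ F ∈ Fintype.piFinset fun _ : ι => range (p ^ k),
        ev u' (hd F f) * ∏ l, (algebraMap P Ω (η l) - u' l) ^ F l := by
  classical
  have hpk : 0 < p ^ k := pow_pos (Fact.out : p.Prime).pos k
  induction f using Finsupp.induction_linear with
  | zero => simp
  | add f g hf hg =>
    rw [map_add, map_add, hf, hg, ← Finset.sum_add_distrib]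
    refine Finset.sum_congr rfl fun F _ => ?_
    rw [map_add, map_add, add_mul]
  | single I c =>
    simp only [ev_hd_single]
    rw [sp_single, ev_single]
    have h1 : ∀ l, u l ^ (I l / p ^ k) * algebraMap P Ω (η l) ^ (I l % p ^ k) =
        ∑ F ∈ range (p ^ k),
        ((((I l).choose F : ℕ) : Ω) * u' l ^ (I l - F)) * (algebraMap P Ω (η l) - u' l) ^ F := by
      intro l
      rw [← taylor_one (u' l) (algebraMap P Ω (η l)) (I l % p ^ k) (p ^ k) (Nat.mod_lt _ hpk),
        Finset.mul_sum]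
      refine Finset.sum_congr rfl fun F hF => ?_
      rw [Finset.mem_range] at hF
      have h3 := choose_add_lt p k (I l / p ^ k) (I l % p ^ k) F (Nat.mod_lt _ hpk) hF
      rw [Nat.div_add_mod] at h3
      have h4 : (((I l).choose F : ℕ) : Ω) = (((I l % p ^ k).choose F : ℕ) : Ω) :=
        cast_of_modEq (p := p) h3
      rw [h4]
      by_cases hF' : F ≤ I l % p ^ k
      · have h5 : I l - F = p ^ k * (I l / p ^ k) + (I l % p ^ k - F) := by
          have := Nat.div_add_mod (I l) (p ^ k)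
          omega
        rw [h5, pow_add, pow_mul, h]
        ring
      · rw [Nat.choose_eq_zero_of_lt (not_le.1 hF')]
        simp
    rw [map_mul, map_prod, mul_assoc]
    have h2 : (∏ l, algebraMap P Ω (η l ^ (I l % p ^ k))) * ∏ l, u l ^ (I l / p ^ k) =
        ∏ l, (u l ^ (I l / p ^ k) * algebraMap P Ω (η l) ^ (I l % p ^ k)) := by
      rw [Finset.prod_mul_distrib, mul_comm]
      simp only [map_pow]
    rw [h2, Finset.prod_congr rfl fun l _ => h1 l, Finset.prod_univ_sum, Finset.mul_sum]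
    refine Finset.sum_congr rfl fun F _ => ?_
    rw [Finset.prod_mul_distrib, mul_assoc]

end Ev

/-! ## Norms -/

section Norm

variable {Ω : Type*} [Field Ω]

/-- `v (coefficient of T^j) ≥ b - j γ`. -/
def GB (v : RVal Ω) (b γ : ℝ) (g : Polynomial Ω) : Prop := ∀ j : ℕ, v.Ge (b - j * γ) (g.coeff j)

theorem GB.mul {v : RVal Ω} {b b' γ : ℝ} {g h : Polynomial Ω} (hg : GB v b γ g)
    (hh : GB v b' γ h) : GB v (b + b') γ (g * h) := by
  intro j
  rw [Polynomial.coeff_mul]
  refine RVal.Ge.sum _ _ fun x hx => ?_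
  have h1 := (hg x.1).mul (hh x.2)
  have h2 : ((x.1 : ℕ) : ℝ) + ((x.2 : ℕ) : ℝ) = (j : ℝ) := by
    rw [← Nat.cast_add, Finset.HasAntidiagonal.mem_antidiagonal.1 hx]
  refine h1.mono (le_of_eq ?_)
  rw [← h2]
  ring

theorem gb_roots (v : RVal Ω) {u : Ω} {γ : ℝ} (s : Multiset Ω)
    (hs : ∀ θ ∈ s, u ≠ θ ∧ v (u - θ) ≤ γ) :
    ((s.map fun θ => Polynomial.X - Polynomial.C θ).prod).eval u ≠ 0 ∧
      GB v (v (((s.map fun θ => Polynomial.X - Polynomial.C θ).prod).eval u)) γ
        (Polynomial.taylor u (s.map fun θ => Polynomial.X - Polynomial.C θ).prod) := by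
  induction s using Multiset.induction_on with
  | empty =>
    rw [Multiset.map_zero, Multiset.prod_zero]
    refine ⟨by simp, fun j => ?_⟩
    rw [Polynomial.taylor_one]
    by_cases hj : j = 0
    · subst hj
      simp only [Polynomial.eval_one, Nat.cast_zero, zero_mul, sub_zero]
      rw [map_one, Polynomial.coeff_one_zero]
      exact RVal.ge_self _
    · rw [map_one, Polynomial.coeff_one, if_neg hj]
      exact RVal.Ge.zero
  | cons θ s ih =>
    obtain ⟨h1, h2⟩ := ih fun θ' h' => hs θ' (Multiset.mem_cons_of_mem h')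
    obtain ⟨h3, h4⟩ := hs θ (Multiset.mem_cons_self θ s)
    have h3' : u - θ ≠ 0 := sub_ne_zero.2 h3
    rw [Multiset.map_cons, Multiset.prod_cons]
    have h5 : (Polynomial.X - Polynomial.C θ).eval u = u - θ := by simp
    refine ⟨by rw [Polynomial.eval_mul, h5]; exact mul_ne_zero h3' h1, ?_⟩
    rw [Polynomial.eval_mul, h5, v.map_mul h3' h1, Polynomial.taylor_mul]
    refine GB.mul ?_ h2
    intro j
    rw [map_sub, Polynomial.taylor_X, Polynomial.taylor_C, add_sub_assoc, ← Polynomial.C_sub,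
      Polynomial.coeff_add, Polynomial.coeff_C, Polynomial.coeff_X]
    rcases j with _ | _ | j
    · simp only [Nat.cast_zero, zero_mul, sub_zero]
      simpa using RVal.ge_self (v := v) (u - θ)
    · intro _
      simp only [zero_add, if_true, Nat.cast_one, one_mul]
      have : (if (1 : ℕ) = 0 then u - θ else 0) = 0 := by simp
      rw [this, add_zero, v.map_one]
      linarith
    · have h6 : (if 1 = j + 1 + 1 then (1 : Ω) else 0) + (if j + 1 + 1 = 0 then u - θ else 0) = 0 := by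
        simp
      rw [h6]
      exact RVal.Ge.zero

theorem gb_of_roots (v : RVal Ω) [IsAlgClosed Ω] {q : Polynomial Ω} {u : Ω} {γ : ℝ}
    (hq : q ≠ 0) (hroot : ∀ θ, q.eval θ = 0 → u ≠ θ ∧ v (u - θ) < γ) :
    q.eval u ≠ 0 ∧ ∃ δ > 0, ∀ j : ℕ,
      v.Ge (v (q.eval u) - j * (γ - δ)) ((Polynomial.hasseDeriv j q).eval u) := by
  classical
  have h1 : ∃ γ' : ℝ, γ' < γ ∧ ∀ θ ∈ q.roots.toFinset, v (u - θ) ≤ γ' := by
    have h2 : ∀ s : Finset Ω, (∀ θ ∈ s, v (u - θ) < γ) →
        ∃ γ' : ℝ, γ' < γ ∧ ∀ θ ∈ s, v (u - θ) ≤ γ' := by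
      intro s
      induction s using Finset.induction_on with
      | empty => exact fun _ => ⟨γ - 1, by linarith, by simp⟩
      | insert a s ha ih =>
        intro h
        obtain ⟨γ', h3, h4⟩ := ih fun θ hθ => h θ (Finset.mem_insert_of_mem hθ)
        refine ⟨max γ' (v (u - a)), max_lt h3 (h a (Finset.mem_insert_self _ _)), ?_⟩
        intro θ hθ
        rcases Finset.mem_insert.1 hθ with rfl | hθ
        · exact le_max_right _ _
        · exact (h4 θ hθ).trans (le_max_left _ _)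
    refine h2 _ fun θ hθ => (hroot θ ?_).2
    exact (Polynomial.mem_roots'.1 (Multiset.mem_toFinset.1 hθ)).2
  obtain ⟨γ', h2, h3⟩ := h1
  have h4 : q = Polynomial.C q.leadingCoeff * (q.roots.map fun θ => Polynomial.X - Polynomial.C θ).prod :=
    (IsAlgClosed.splits q).eq_prod_roots
  obtain ⟨h5, h6⟩ := gb_roots v (u := u) (γ := γ') q.roots fun θ hθ =>
    ⟨(hroot θ (Polynomial.mem_roots'.1 hθ).2).1, h3 θ (Multiset.mem_toFinset.2 hθ)⟩
  have h7 : q.leadingCoeff ≠ 0 := Polynomial.leadingCoeff_ne_zero.2 hq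
  have h8 : q.eval u = q.leadingCoeff *
      ((q.roots.map fun θ => Polynomial.X - Polynomial.C θ).prod).eval u := by
    conv_lhs => rw [h4]
    rw [Polynomial.eval_mul, Polynomial.eval_C]
  refine ⟨by rw [h8]; exact mul_ne_zero h7 h5, γ - γ', by linarith, fun j => ?_⟩
  have h9 : (Polynomial.hasseDeriv j q).eval u = q.leadingCoeff *
      (Polynomial.taylor u (q.roots.map fun θ => Polynomial.X - Polynomial.C θ).prod).coeff j := by
    rw [← Polynomial.taylor_coeff]
    conv_lhs => rw [h4]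
    rw [Polynomial.taylor_mul, Polynomial.taylor_C, Polynomial.coeff_C_mul]
  rw [h9, h8, v.map_mul h7 h5]
  have h10 := (RVal.ge_self (v := v) q.leadingCoeff).mul (h6 j)
  refine h10.mono (le_of_eq ?_)
  ring

variable [Algebra P Ω]

/-- `u` is generic of radius `γ` over `P`: for every `l` there is a subfield `L` of `Ω`, closed under
the roots of polynomials, which contains `P` and the `u i`, `i ≠ l`, and `v (u l - θ) < γ l` for
`θ ∈ L`. -/
def Gen (v : RVal Ω) (P : Type*) [Field P] [Algebra P Ω] (u : ι → Ω) (γ : ι → ℝ) : Prop :=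
  ∀ l, ∃ L : Subfield Ω, (∀ c : P, algebraMap P Ω c ∈ L) ∧ (∀ i, i ≠ l → u i ∈ L) ∧
    (∀ q : Polynomial Ω, q ≠ 0 → (∀ i, q.coeff i ∈ L) → ∀ θ, q.eval θ = 0 → θ ∈ L) ∧
    ∀ θ ∈ L, u l ≠ θ ∧ v (u l - θ) < γ l

variable [DecidableEq ι]

/-- The polynomial in the `l`-th variable. -/
noncomputable def pl (u : ι → Ω) (l : ι) : ((ι → ℕ) →₀ P) →ₗ[P] Polynomial Ω :=
  Finsupp.linearCombination P fun I =>
    Polynomial.monomial (I l) (∏ i ∈ univ.erase l, u i ^ I i)

theorem pl_single (u : ι → Ω) (l : ι) (I : ι → ℕ) (c : P) :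
    pl u l (Finsupp.single I c) =
      Polynomial.monomial (I l) (algebraMap P Ω c * ∏ i ∈ univ.erase l, u i ^ I i) := by
  rw [pl, Finsupp.linearCombination_single, Polynomial.smul_monomial, Algebra.smul_def]

theorem pl_eval (u : ι → Ω) (l : ι) (j : ℕ) (f : (ι → ℕ) →₀ P) :
    (Polynomial.hasseDeriv j (pl u l f)).eval (u l) = ev u (hd (Pi.single l j) f) := by
  induction f using Finsupp.induction_linear with
  | zero => simp
  | add f g hf hg => simp only [map_add, Polynomial.eval_add, hf, hg]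
  | single I c =>
    rw [pl_single, Polynomial.hasseDeriv_monomial, Polynomial.eval_monomial, ev_hd_single,
      ← Finset.mul_prod_erase univ _ (Finset.mem_univ l), Pi.single_eq_same]
    have h1 : ∏ i ∈ univ.erase l, (((I i).choose ((Pi.single l j : ι → ℕ) i) : ℕ) : Ω) *
        u i ^ (I i - (Pi.single l j : ι → ℕ) i) = ∏ i ∈ univ.erase l, u i ^ I i := by
      refine Finset.prod_congr rfl fun i hi => ?_
      rw [Pi.single_eq_of_ne (Finset.ne_of_mem_erase hi), Nat.choose_zero_right, Nat.cast_one,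
        one_mul, Nat.sub_zero]
    rw [h1]
    ring

theorem pl_coeff_mem (u : ι → Ω) (l : ι) {L : Subfield Ω} (hP : ∀ c : P, algebraMap P Ω c ∈ L)
    (hu : ∀ i, i ≠ l → u i ∈ L) (f : (ι → ℕ) →₀ P) (n : ℕ) : (pl u l f).coeff n ∈ L := by
  induction f using Finsupp.induction_linear with
  | zero => rw [map_zero, Polynomial.coeff_zero]; exact zero_mem _
  | add f g hf hg => rw [map_add, Polynomial.coeff_add]; exact add_mem hf hg
  | single I c =>
    rw [pl_single, Polynomial.coeff_monomial]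
    split_ifs
    · exact mul_mem (hP c) (prod_mem fun i hi => pow_mem (hu i (Finset.ne_of_mem_erase hi)) _)
    · exact zero_mem _

variable {v : RVal Ω} [IsAlgClosed Ω] {u : ι → Ω} {γ : ι → ℝ}

theorem norm_single (hG : Gen v P u γ) (l : ι) (f : (ι → ℕ) →₀ P) :
    ∃ δ > 0, ∀ b, v.Ge b (ev u f) → ∀ j : ℕ,
      v.Ge (b - j * (γ l - δ)) (ev u (hd (Pi.single l j) f)) := by
  obtain ⟨L, hP, hu, hroot, hlt⟩ := hG l
  by_cases h0 : pl u l f = 0
  · refine ⟨1, one_pos, fun b _ j => ?_⟩
    rw [← pl_eval, h0, map_zero, Polynomial.eval_zero]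
    exact RVal.Ge.zero
  · obtain ⟨h1, δ, hδ, h2⟩ := gb_of_roots v (u := u l) (γ := γ l) h0 fun θ hθ =>
      hlt θ (hroot _ h0 (pl_coeff_mem u l hP hu f) θ hθ)
    refine ⟨δ, hδ, fun b hb j => ?_⟩
    have h3 : (pl u l f).eval (u l) = ev u f := by
      have h4 := pl_eval u l 0 f
      rw [Polynomial.hasseDeriv_zero'] at h4
      rw [h4]
      congr 1
      have h5 : (Pi.single l 0 : ι → ℕ) = fun _ => 0 := by
        rw [Pi.single_zero]
        rfl
      rw [h5, hd_zero]
    rw [← pl_eval]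
    refine (h2 j).mono ?_
    rw [h3]
    have h6 := hb (by rw [← h3]; exact h1)
    linarith

theorem hd_split (F : ι → ℕ) (l : ι) (f : (ι → ℕ) →₀ P) :
    hd F f = hd (Pi.single l (F l)) (hd (Function.update F l 0) f) := by
  rw [hd_hd]
  have h1 : (fun i => Function.update F l 0 i + (Pi.single l (F l) : ι → ℕ) i) = F := by
    funext i
    by_cases hi : i = l
    · subst hi
      simp
    · rw [Function.update_of_ne hi, Pi.single_eq_of_ne hi, Nat.add_zero]
  have h2 : ∀ i, Function.update F l 0 i + (Pi.single l (F l) : ι → ℕ) i = F i := fun i =>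
    congrFun h1 i
  have h3 : ∏ i, (((Function.update F l 0 i + (Pi.single l (F l) : ι → ℕ) i).choose
      (Function.update F l 0 i) : ℕ) : P) = 1 := by
    refine Finset.prod_eq_one fun i _ => ?_
    rw [h2]
    by_cases hi : i = l
    · subst hi
      simp
    · rw [Function.update_of_ne hi, Nat.choose_self, Nat.cast_one]
  rw [h1, h3, one_smul]

theorem norm_le (hG : Gen v P u γ) (f : (ι → ℕ) →₀ P) {b : ℝ} (hb : v.Ge b (ev u f)) (F : ι → ℕ) :
    v.Ge (b - ∑ l, F l * γ l) (ev u (hd F f)) := by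
  have key : ∀ s : Finset ι, v.Ge (b - ∑ l ∈ s, F l * γ l)
      (ev u (hd (fun l => if l ∈ s then F l else 0) f)) := by
    intro s
    induction s using Finset.induction_on with
    | empty =>
      simp only [Finset.notMem_empty, if_false, Finset.sum_empty, sub_zero]
      rw [hd_zero]
      exact hb
    | insert a s ha ih =>
      rw [hd_split _ a]
      have h1 : Function.update (fun l => if l ∈ insert a s then F l else 0) a 0 =
          fun l => if l ∈ s then F l else 0 := by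
        funext l
        by_cases hl : l = a
        · subst hl
          rw [Function.update_self, if_neg ha]
        · rw [Function.update_of_ne hl]
          simp [Finset.mem_insert, hl]
      rw [h1, if_pos (Finset.mem_insert_self a s), Finset.sum_insert ha]
      obtain ⟨δ, hδ, h2⟩ := norm_single hG a (hd (fun l => if l ∈ s then F l else 0) f)
      refine (h2 _ ih (F a)).mono ?_
      have h3 : (0 : ℝ) ≤ (F a : ℝ) * δ := mul_nonneg (Nat.cast_nonneg _) hδ.le
      nlinarith
  have h1 := key univ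
  simpa using h1

theorem norm_lt (hG : Gen v P u γ) (f : (ι → ℕ) →₀ P) (F : ι → ℕ) (hF : ∃ l, F l ≠ 0) :
    ∃ δ > 0, ∀ b, v.Ge b (ev u f) → v.Ge (b - ∑ l, F l * γ l + δ) (ev u (hd F f)) := by
  obtain ⟨l, hl⟩ := hF
  obtain ⟨δ, hδ, h2⟩ := norm_single hG l (hd (Function.update F l 0) f)
  refine ⟨δ, hδ, fun b hb => ?_⟩
  rw [hd_split F l]
  have h1 := norm_le hG f hb (Function.update F l 0)
  refine (h2 _ h1 (F l)).mono ?_
  have h3 : ∑ i, (Function.update F l 0 i : ℝ) * γ i = ∑ i, (F i : ℝ) * γ i - F l * γ l := by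
    rw [← Finset.add_sum_erase univ (fun i => (F i : ℝ) * γ i) (Finset.mem_univ l),
      ← Finset.add_sum_erase univ (fun i => ((Function.update F l 0 i : ℕ) : ℝ) * γ i)
        (Finset.mem_univ l)]
    have h4 : ∑ i ∈ univ.erase l, ((Function.update F l 0 i : ℕ) : ℝ) * γ i =
        ∑ i ∈ univ.erase l, (F i : ℝ) * γ i := by
      refine Finset.sum_congr rfl fun i hi => ?_
      rw [Function.update_of_ne (Finset.ne_of_mem_erase hi)]
    rw [h4, Function.update_self, Nat.cast_zero]
    ring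
  rw [h3]
  have h4 : δ ≤ (F l : ℝ) * δ := by
    have : (1 : ℝ) ≤ (F l : ℝ) := by exact_mod_cast Nat.one_le_iff_ne_zero.2 hl
    nlinarith
  nlinarith

end Norm

/-! ## The key lemma -/

section Floors

variable {Ω : Type*} [Field Ω] [Algebra P Ω]

/-- The data of the first floor: `u n` are compatible roots of `w = u 0`, generic of radius `c` over the
perfect field `P`, and limits of `P`. -/
structure Floor (p : ℕ) (v : RVal Ω) (P : Type*) [Field P] [Algebra P Ω] (u : ℕ → ι → Ω)
    (c : ι → ℝ) : Prop where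
  root : ∀ n l, u (n + 1) l ^ p = u n l
  perf : ∀ x : P, ∃ y : P, y ^ p = x
  gen : ∀ n, Gen v P (u n) fun l => c l / p ^ n
  lim : ∀ l, ∀ ε : ℝ, 0 < ε → ∃ h : P, v.Ge (c l - ε) (u 0 l - algebraMap P Ω h)

/-- The weight of the multi-order `F` at level `n`. -/
noncomputable def wt (p : ℕ) (c : ι → ℝ) (n : ℕ) (F : ι → ℕ) : ℝ := ∑ l, (F l : ℝ) * (c l / p ^ n)

/-- The exponents have degree at most `D`. -/
def dg (P : Type*) [Field P] (ι : Type*) [Fintype ι] (D : ℝ) : Submodule P ((ι → ℕ) →₀ P) :=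
  Finsupp.supported P P {I : ι → ℕ | ∑ l, (I l : ℝ) ≤ D}

variable {v : RVal Ω} {u : ℕ → ι → Ω} {c : ι → ℝ} (p : ℕ) [Fact p.Prime]

theorem wt_mul (n k : ℕ) (J : ι → ℕ) : wt p c (n + k) (fun l => p ^ k * J l) = wt p c n J := by
  have hp : (p : ℝ) ≠ 0 := by exact_mod_cast (Fact.out : p.Prime).ne_zero
  refine Finset.sum_congr rfl fun l _ => ?_
  rw [pow_add]
  push_cast
  field_simp

theorem ge_of_forall {a : ℝ} {x : Ω} (h : ∀ ε : ℝ, 0 < ε → v.Ge (a - ε) x) : v.Ge a x := by
  intro hx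
  refine le_of_forall_pos_lt_add fun ε hε => ?_
  have := h (ε / 2) (by linarith) hx
  linarith

theorem mem_dg {D : ℝ} {f : (ι → ℕ) →₀ P} :
    f ∈ dg P ι D ↔ ∀ I ∈ f.support, ∑ l, (I l : ℝ) ≤ D := by
  rw [dg, Finsupp.mem_supported]
  exact Iff.rfl

theorem hd_eq_zero {G : ι → ℕ} {f : (ι → ℕ) →₀ P} (h : ∀ I ∈ f.support, ∃ l, I l < G l) :
    hd G f = 0 := by
  rw [hd, Finsupp.linearCombination_apply]
  refine Finset.sum_eq_zero fun I hI => ?_
  obtain ⟨l, hl⟩ := h I hI
  have h1 : (((I l).choose (G l) : ℕ) : P) = 0 := by rw [Nat.choose_eq_zero_of_lt hl, Nat.cast_zero]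
  beta_reduce
  rw [Finset.prod_eq_zero (Finset.mem_univ l) h1, Finsupp.single_zero, smul_zero]

theorem hd_dg_eq_zero {D : ℝ} {G : ι → ℕ} {f : (ι → ℕ) →₀ P} (hf : f ∈ dg P ι D)
    (hG : D < ∑ l, (G l : ℝ)) : hd G f = 0 := by
  refine hd_eq_zero fun I hI => ?_
  by_contra hcon
  push Not at hcon
  have h1 : ∑ l, (G l : ℝ) ≤ ∑ l, (I l : ℝ) :=
    Finset.sum_le_sum fun l _ => by exact_mod_cast hcon l
  have h2 := mem_dg.1 hf I hI
  linarith

theorem lf_mem_dg {D : ℝ} {f : (ι → ℕ) →₀ P} (hf : f ∈ dg P ι D) (a : ℕ) :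
    lf a f ∈ dg P ι (a * D) := by
  rw [lf, Finsupp.linearCombination_apply]
  refine sum_mem fun I hI => Submodule.smul_mem _ _ ?_
  rw [mem_dg]
  intro J hJ
  have h1 : J = fun l => a * I l := by
    have := Finsupp.support_single_subset hJ
    exact Finset.mem_singleton.1 this
  subst h1
  have h2 := mem_dg.1 hf I hI
  push_cast
  rw [← Finset.mul_sum]
  exact mul_le_mul_of_nonneg_left h2 (Nat.cast_nonneg _)

theorem exists_delta {α : Type*} (s : Finset α) (Q : α → ℝ → Prop)
    (hmono : ∀ a δ δ', δ' ≤ δ → Q a δ → Q a δ') (h : ∀ a ∈ s, ∃ δ > 0, Q a δ) :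
    ∃ δ > 0, ∀ a ∈ s, Q a δ := by
  classical
  induction s using Finset.induction_on with
  | empty => exact ⟨1, one_pos, by simp⟩
  | insert a s ha ih =>
    obtain ⟨δ, hδ, h1⟩ := ih fun b hb => h b (Finset.mem_insert_of_mem hb)
    obtain ⟨δ', hδ', h2⟩ := h a (Finset.mem_insert_self _ _)
    refine ⟨min δ δ', lt_min hδ hδ', fun b hb => ?_⟩
    rcases Finset.mem_insert.1 hb with rfl | hb
    · exact hmono _ _ _ (min_le_right _ _) h2
    · exact hmono _ _ _ (min_le_left _ _) (h1 b hb)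

theorem ge_pow {x : Ω} {b : ℝ} {m : ℕ} (h : v.Ge b x) : v.Ge (m * b) (x ^ m) := by
  intro hx
  by_cases hm : m = 0
  · subst hm
    simp [v.map_one]
  · have h1 : x ≠ 0 := fun h0 => hx (by rw [h0, zero_pow hm])
    rw [v.map_pow h1]
    exact mul_le_mul_of_nonneg_left (h h1) (Nat.cast_nonneg _)

theorem ge_of_pow {x : Ω} {b : ℝ} {m : ℕ} (hm : m ≠ 0) (h : v.Ge (m * b) (x ^ m)) : v.Ge b x := by
  intro hx
  have h1 := h (pow_ne_zero m hx)
  rw [v.map_pow hx] at h1
  have h2 : (0 : ℝ) < m := by exact_mod_cast Nat.pos_of_ne_zero hm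
  exact le_of_mul_le_mul_left h1 h2

theorem ev_alg (η : ι → P) (f : (ι → ℕ) →₀ P) :
    ∃ h : P, algebraMap P Ω h = ev (fun l => algebraMap P Ω (η l)) f := by
  induction f using Finsupp.induction_linear with
  | zero => exact ⟨0, by simp⟩
  | add f g hf hg =>
    obtain ⟨a, ha⟩ := hf
    obtain ⟨b, hb⟩ := hg
    exact ⟨a + b, by rw [map_add, map_add, ha, hb]⟩
  | single I c =>
    refine ⟨c * ∏ l, η l ^ I l, ?_⟩
    rw [ev_single, map_mul, map_prod]
    simp only [map_pow]

variable {p} (hF : Floor p v P u c)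

include hF

theorem Floor.root_pow (n k : ℕ) (l : ι) : u (n + k) l ^ (p ^ k) = u n l := by
  induction k with
  | zero => simp
  | succ k ih =>
    have h1 := hF.root (n + k) l
    rw [← Nat.add_assoc, pow_succ, Nat.mul_comm, pow_mul, h1, ih]

theorem Floor.ev_level (n k : ℕ) (f : (ι → ℕ) →₀ P) : ev (u (n + k)) (lf (p ^ k) f) = ev (u n) f :=
  ev_lf (fun l => hF.root_pow n k l) f

theorem Floor.perf_pow (k : ℕ) (x : P) : ∃ y : P, y ^ (p ^ k) = x := by
  induction k with
  | zero => exact ⟨x, by simp⟩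
  | succ k ih =>
    obtain ⟨y, hy⟩ := ih
    obtain ⟨z, hz⟩ := hF.perf y
    exact ⟨z, by rw [pow_succ, Nat.mul_comm, pow_mul, hz, hy]⟩

theorem Floor.lim_level [CharP Ω p] (n : ℕ) {ε : ℝ} (hε : 0 < ε) :
    ∃ η : ι → P, ∀ l, v.Ge (c l / p ^ n - ε) (algebraMap P Ω (η l) - u n l) := by
  have hp : (0 : ℝ) < (p : ℝ) ^ n := by
    exact_mod_cast pow_pos (Fact.out : p.Prime).pos n
  have h1 : ∀ l, ∃ y : P, v.Ge (c l / p ^ n - ε) (algebraMap P Ω y - u n l) := by
    intro l
    obtain ⟨h, hh⟩ := hF.lim l (p ^ n * ε) (mul_pos hp hε)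
    obtain ⟨y, rfl⟩ := hF.perf_pow n h
    refine ⟨y, ge_of_pow (m := p ^ n) (pow_ne_zero n (Fact.out : p.Prime).ne_zero) ?_⟩
    have h2 := hF.root_pow 0 n l
    rw [Nat.zero_add] at h2
    have h3 : (algebraMap P Ω y - u n l) ^ (p ^ n) = -(u 0 l - algebraMap P Ω (y ^ (p ^ n))) := by
      rw [sub_pow_char_pow, h2, map_pow]
      ring
    rw [h3]
    refine (hh.mono (le_of_eq ?_)).neg
    push_cast
    field_simp
  choose η hη using h1
  exact ⟨η, hη⟩

omit hF in
/-- `e` at level `M` is an approximation of `x` up to polynomials of degree `≤ d`. -/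
def App (p : ℕ) (v : RVal Ω) (P : Type*) [Field P] [Algebra P Ω] (u : ℕ → ι → Ω) (s : ℝ) (x : Ω)
    (d : ℝ) (M : ℕ) (e : (ι → ℕ) →₀ P) : Prop :=
  ∀ ε : ℝ, 0 < ε → ∃ (k : ℕ) (f : (ι → ℕ) →₀ P), f ∈ dg P ι (d * p ^ (M + k)) ∧
    v.Ge (s - ε) (x - ev (u M) e - ev (u (M + k)) f)

theorem App.lift {s : ℝ} {x : Ω} {d : ℝ} {M : ℕ} {e : (ι → ℕ) →₀ P}
    (h : App p v P u s x d M e) (j : ℕ) : App p v P u s x d (M + j) (lf (p ^ j) e) := by
  intro ε hε
  obtain ⟨k, f, hf, h1⟩ := h ε hε
  refine ⟨k, lf (p ^ j) f, ?_, ?_⟩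
  · have h2 := lf_mem_dg hf (p ^ j)
    have h3 : (((p ^ j : ℕ) : ℝ)) * (d * p ^ (M + k)) = d * p ^ (M + j + k) := by
      push_cast
      ring
    rwa [h3] at h2
  · rw [hF.ev_level]
    have h2 := hF.ev_level (M + k) j f
    have h3 : M + j + k = M + k + j := by omega
    rw [h3, h2]
    exact h1

variable [CharP P p] [CharP Ω p] [IsAlgClosed Ω] [DecidableEq ι]

/-- Step 1: coarse jets. -/
theorem Floor.jets {s : ℝ} {x : Ω} {d : ℝ} {n m : ℕ} {e : (ι → ℕ) →₀ P}
    (he : App p v P u s x d (n + m) e) (hdn : d * p ^ n < 1) {ψ : (ι → ℕ) →₀ P} {ε : ℝ}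
    (hε : 0 < ε) (hψ : v.Ge (s - ε) (x - ev (u n) ψ)) {J : ι → ℕ} (hJ : ∃ l, J l ≠ 0) :
    v.Ge (s - ε - wt p c n J)
      (ev (u n) (hd J ψ) - ev (u (n + m)) (hd (fun l => p ^ m * J l) e)) := by
  obtain ⟨k, f, hf, h1⟩ := he ε hε
  have hp : (0 : ℝ) < (p : ℝ) := by exact_mod_cast (Fact.out : p.Prime).pos
  set g : (ι → ℕ) →₀ P := lf (p ^ (m + k)) ψ - lf (p ^ k) e - f with hg
  have h2 : ev (u (n + m + k)) g = (x - ev (u (n + m)) e - ev (u (n + m + k)) f) -
      (x - ev (u n) ψ) := by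
    have e1 := hF.ev_level n (m + k) ψ
    have e2 := hF.ev_level (n + m) k e
    rw [← Nat.add_assoc] at e1
    rw [hg, map_sub, map_sub, e1, e2]
    ring
  have h3 : v.Ge (s - ε) (ev (u (n + m + k)) g) := by
    rw [h2]
    exact h1.sub hψ
  have h4 := norm_le (hF.gen (n + m + k)) g h3 (fun l => p ^ (m + k) * J l)
  have h5 : hd (fun l => p ^ (m + k) * J l) f = 0 := by
    refine hd_dg_eq_zero hf ?_
    have e1 : (1 : ℝ) ≤ ∑ l, (J l : ℝ) := by
      obtain ⟨l, hl⟩ := hJ
      have e2 : ((J l : ℕ) : ℝ) ≤ ∑ l, (J l : ℝ) :=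
        Finset.single_le_sum (f := fun l => ((J l : ℕ) : ℝ)) (fun i _ => Nat.cast_nonneg _)
          (Finset.mem_univ l)
      have e3 : (1 : ℝ) ≤ ((J l : ℕ) : ℝ) := by exact_mod_cast Nat.one_le_iff_ne_zero.2 hl
      linarith
    have e4 : ∑ l, (((p ^ (m + k) * J l : ℕ)) : ℝ) = (p : ℝ) ^ (m + k) * ∑ l, (J l : ℝ) := by
      push_cast
      rw [Finset.mul_sum]
    rw [e4]
    have e5 : (0 : ℝ) < (p : ℝ) ^ (m + k) := pow_pos hp _
    have e6 : d * (p : ℝ) ^ (n + m + k) = (p : ℝ) ^ (m + k) * (d * p ^ n) := by ring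
    rw [e6]
    have e7 : (p : ℝ) ^ (m + k) * (d * p ^ n) < (p : ℝ) ^ (m + k) * 1 :=
      mul_lt_mul_of_pos_left hdn e5
    nlinarith
  have h6 : hd (fun l => p ^ (m + k) * J l) g =
      lf (p ^ (m + k)) (hd J ψ) - lf (p ^ k) (hd (fun l => p ^ m * J l) e) := by
    have e1 : (fun l => p ^ (m + k) * J l) = fun l => p ^ k * (p ^ m * J l) := by
      funext l
      rw [pow_add]
      ring
    rw [hg, map_sub, map_sub, h5, sub_zero, hd_lf]
    congr 1
    rw [e1, hd_lf p k (fun l => p ^ m * J l) e]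
  rw [h6, map_sub] at h4
  have e1 := hF.ev_level n (m + k) (hd J ψ)
  have e2 := hF.ev_level (n + m) k (hd (fun l => p ^ m * J l) e)
  rw [← Nat.add_assoc] at e1
  rw [e1, e2] at h4
  have e3 := wt_mul (c := c) p n (m + k) J
  rw [← Nat.add_assoc] at e3
  change v.Ge (s - ε - wt p c (n + m + k) (fun l => p ^ (m + k) * J l)) _ at h4
  rwa [e3] at h4

/-- Step 2: fine jets. -/
theorem Floor.jets_fine {s : ℝ} {x : Ω} {d : ℝ} {n m j : ℕ} {e : (ι → ℕ) →₀ P}
    (hx : ∀ ε : ℝ, 0 < ε → ∃ ψ : (ι → ℕ) →₀ P, v.Ge (s - ε) (x - ev (u n) ψ))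
    (he : App p v P u s x d (n + m + j) e) (hdn : d * p ^ (n + m) < 1) {F : ι → ℕ}
    (hFn : ∃ l, ¬ p ^ m ∣ F l) :
    v.Ge (s - wt p c (n + m) F) (ev (u (n + m + j)) (hd (fun l => p ^ j * F l) e)) := by
  have hp : (0 : ℝ) < (p : ℝ) := by exact_mod_cast (Fact.out : p.Prime).pos
  refine ge_of_forall fun ε hε => ?_
  obtain ⟨k, f, hf, h1⟩ := he ε hε
  obtain ⟨ψ, hψ⟩ := hx ε hε
  set g : (ι → ℕ) →₀ P := lf (p ^ (m + j + k)) ψ - lf (p ^ k) e - f with hg
  have h2 : ev (u (n + m + j + k)) g = (x - ev (u (n + m + j)) e - ev (u (n + m + j + k)) f) -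
      (x - ev (u n) ψ) := by
    have e1 := hF.ev_level n (m + j + k) ψ
    have e2 := hF.ev_level (n + m + j) k e
    have e0 : n + (m + j + k) = n + m + j + k := by omega
    rw [e0] at e1
    rw [hg, map_sub, map_sub, e1, e2]
    ring
  have h3 : v.Ge (s - ε) (ev (u (n + m + j + k)) g) := by
    rw [h2]
    exact h1.sub hψ
  have h4 := norm_le (hF.gen (n + m + j + k)) g h3 (fun l => p ^ k * (p ^ j * F l))
  obtain ⟨l₀, hl₀⟩ := hFn
  have h5 : hd (fun l => p ^ k * (p ^ j * F l)) f = 0 := by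
    refine hd_dg_eq_zero hf ?_
    have hne : F l₀ ≠ 0 := fun h => hl₀ (by rw [h]; exact dvd_zero _)
    have e1 : (1 : ℝ) ≤ ∑ l, (F l : ℝ) := by
      have e2 : ((F l₀ : ℕ) : ℝ) ≤ ∑ l, (F l : ℝ) :=
        Finset.single_le_sum (f := fun l => ((F l : ℕ) : ℝ)) (fun i _ => Nat.cast_nonneg _)
          (Finset.mem_univ l₀)
      have e3 : (1 : ℝ) ≤ ((F l₀ : ℕ) : ℝ) := by exact_mod_cast Nat.one_le_iff_ne_zero.2 hne
      linarith
    have e4 : ∑ l, (((p ^ k * (p ^ j * F l) : ℕ)) : ℝ) = (p : ℝ) ^ (j + k) * ∑ l, (F l : ℝ) := by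
      push_cast
      rw [Finset.mul_sum]
      refine Finset.sum_congr rfl fun l _ => ?_
      ring
    rw [e4]
    have e5 : (0 : ℝ) < (p : ℝ) ^ (j + k) := pow_pos hp _
    have e6 : d * (p : ℝ) ^ (n + m + j + k) = (p : ℝ) ^ (j + k) * (d * p ^ (n + m)) := by ring
    rw [e6]
    have e7 : (p : ℝ) ^ (j + k) * (d * p ^ (n + m)) < (p : ℝ) ^ (j + k) * 1 :=
      mul_lt_mul_of_pos_left hdn e5
    nlinarith
  have h7 : hd (fun l => p ^ k * (p ^ j * F l)) (lf (p ^ (m + j + k)) ψ) = 0 := by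
    refine hd_lf_eq_zero p _ _ ⟨l₀, fun hdvd => hl₀ ?_⟩ ψ
    have e1 : p ^ (m + j + k) = p ^ (j + k) * p ^ m := by ring
    have e2 : p ^ k * (p ^ j * F l₀) = p ^ (j + k) * F l₀ := by ring
    rw [e1, e2] at hdvd
    exact Nat.dvd_of_mul_dvd_mul_left (pow_pos (Fact.out : p.Prime).pos _) hdvd
  have h6 : hd (fun l => p ^ k * (p ^ j * F l)) g = - lf (p ^ k) (hd (fun l => p ^ j * F l) e) := by
    rw [hg, map_sub, map_sub, h5, h7, sub_zero, zero_sub, hd_lf p k (fun l => p ^ j * F l) e]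
  rw [h6, map_neg, hF.ev_level (n + m + j) k] at h4
  have e4 : (fun l => p ^ k * (p ^ j * F l)) = fun l => p ^ (j + k) * F l := by
    funext l
    ring
  have e3 : wt p c (n + m + j + k) (fun l => p ^ k * (p ^ j * F l)) = wt p c (n + m) F := by
    have := wt_mul (c := c) p (n + m) (j + k) F
    rw [← e4] at this
    rwa [← Nat.add_assoc] at this
  change v.Ge (s - ε - wt p c (n + m + j + k) (fun l => p ^ k * (p ^ j * F l))) _ at h4
  rw [e3] at h4
  have h8 := h4.neg
  rw [neg_neg] at h8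
  refine h8.mono (le_of_eq ?_)
  ring

/-- Step 2': the fine derivatives of the coarse jets are strict. -/
theorem Floor.jets_strict {s : ℝ} {x : Ω} {d : ℝ} {n m : ℕ} {e : (ι → ℕ) →₀ P}
    (hx : ∀ ε : ℝ, 0 < ε → ∃ ψ : (ι → ℕ) →₀ P, v.Ge (s - ε) (x - ev (u n) ψ))
    (he : App p v P u s x d (n + m) e) (hdn : d * p ^ n < 1)
    (hall : ∀ d : ℝ, 0 < d → ∃ j e, App p v P u s x d (n + m + j) e) {J F : ι → ℕ}
    (hJ : ∃ l, J l ≠ 0) (hFn : ∃ l, ¬ p ^ m ∣ F l) :
    ∃ δ > 0, v.Ge (s - wt p c n J - wt p c (n + m) F + δ)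
      (ev (u (n + m)) (hd F (hd (fun l => p ^ m * J l) e))) := by
  have hp : (0 : ℝ) < (p : ℝ) := by exact_mod_cast (Fact.out : p.Prime).pos
  obtain ⟨j, e', he'⟩ := hall (1 / (2 * p ^ (n + m))) (by positivity)
  have hdn' : 1 / (2 * (p : ℝ) ^ (n + m)) * p ^ (n + m) < 1 := by
    have : (0 : ℝ) < (p : ℝ) ^ (n + m) := pow_pos hp _
    field_simp
    norm_num
  have hdn'' : 1 / (2 * (p : ℝ) ^ (n + m)) * p ^ n < 1 := by
    have h1 : (0 : ℝ) < (p : ℝ) ^ (n + m) := pow_pos hp _
    have h2 : (p : ℝ) ^ n ≤ (p : ℝ) ^ (n + m) :=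
      pow_le_pow_right₀ (by exact_mod_cast (Fact.out : p.Prime).one_le) (Nat.le_add_right _ _)
    refine lt_of_le_of_lt (mul_le_mul_of_nonneg_left h2 (by positivity)) hdn'
  -- the comparison of `e` and `e'`
  set o : (ι → ℕ) →₀ P := hd (fun l => p ^ (m + j) * J l) (lf (p ^ j) e - e') with ho
  have h1 : v.Ge (s - wt p c n J) (ev (u (n + m + j)) o) := by
    refine ge_of_forall fun ε hε => ?_
    obtain ⟨ψ, hψ⟩ := hx ε hε
    have h2 := hF.jets he hdn hε hψ hJ
    have he'' : App p v P u s x (1 / (2 * (p : ℝ) ^ (n + m))) (n + (m + j)) e' := by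
      rw [← Nat.add_assoc]
      exact he'
    have h3 := hF.jets he'' hdn'' hε hψ hJ
    have h4 := h3.sub h2
    have h5 : ev (u (n + m + j)) o = ev (u n) (hd J ψ) - ev (u (n + (m + j)))
          (hd (fun l => p ^ (m + j) * J l) e') - (ev (u n) (hd J ψ) -
          ev (u (n + m)) (hd (fun l => p ^ m * J l) e)) := by
      have e1 : (fun l => p ^ (m + j) * J l) = fun l => p ^ j * (p ^ m * J l) := by
        funext l
        ring
      rw [ho, map_sub, map_sub]
      have e2 : hd (fun l => p ^ (m + j) * J l) (lf (p ^ j) e) =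
          lf (p ^ j) (hd (fun l => p ^ m * J l) e) := by
        rw [e1]
        exact hd_lf p j (fun l => p ^ m * J l) e
      rw [e2, hF.ev_level (n + m) j, ← Nat.add_assoc]
      ring
    rw [h5]
    refine h4.mono (le_of_eq ?_)
    ring
  have hFne : ∃ l, p ^ j * F l ≠ 0 := by
    obtain ⟨l, hl⟩ := hFn
    refine ⟨l, Nat.mul_ne_zero (pow_ne_zero _ (Fact.out : p.Prime).ne_zero) fun h => hl ?_⟩
    rw [h]
    exact dvd_zero _
  have hJne : ∃ l, p ^ (m + j) * J l ≠ 0 := by
    obtain ⟨l, hl⟩ := hJ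
    exact ⟨l, Nat.mul_ne_zero (pow_ne_zero _ (Fact.out : p.Prime).ne_zero) hl⟩
  obtain ⟨δ₁, hδ₁, h2⟩ := norm_lt (hF.gen (n + m + j)) o (fun l => p ^ j * F l) hFne
  have h3 := h2 _ h1
  have h4 := hF.jets_fine hx he' hdn' hFn
  obtain ⟨δ₂, hδ₂, h5⟩ := norm_lt (hF.gen (n + m + j)) (hd (fun l => p ^ j * F l) e')
    (fun l => p ^ (m + j) * J l) hJne
  have h6 := h5 _ h4
  have w1 : ∑ l, ((p ^ j * F l : ℕ) : ℝ) * (c l / p ^ (n + m + j)) = wt p c (n + m) F :=
    wt_mul (c := c) p (n + m) j F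
  have w2 : ∑ l, ((p ^ (m + j) * J l : ℕ) : ℝ) * (c l / p ^ (n + m + j)) = wt p c n J := by
    have := wt_mul (c := c) p n (m + j) J
    rw [← Nat.add_assoc] at this
    exact this
  rw [w1] at h3
  rw [w2] at h6
  refine ⟨min δ₁ δ₂, lt_min hδ₁ hδ₂, ?_⟩
  have h7 : ev (u (n + m)) (hd F (hd (fun l => p ^ m * J l) e)) =
      ev (u (n + m + j)) (hd (fun l => p ^ j * F l) o) +
      ev (u (n + m + j)) (hd (fun l => p ^ (m + j) * J l) (hd (fun l => p ^ j * F l) e')) := by
    rw [← hF.ev_level (n + m) j, ← map_add]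
    congr 1
    rw [hd_comm (fun l => p ^ (m + j) * J l), ho, ← map_add, ← map_add, sub_add_cancel]
    have e1 : (fun l => p ^ (m + j) * J l) = fun l => p ^ j * (p ^ m * J l) := by
      funext l
      ring
    rw [e1, hd_lf p j (fun l => p ^ m * J l) e, hd_lf p j F]
  rw [h7]
  refine RVal.Ge.add (h3.mono ?_) (h6.mono ?_)
  · have := min_le_left δ₁ δ₂
    linarith
  · have := min_le_right δ₁ δ₂
    linarith

end Floors

end Ops

end Pool.Agent.TWC.Key
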