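import Pool.Agent.Lib.TWC.SND
import Pool.Agent.Lib.TWC.ThetaX
import Pool.Agent.Lib.TWC.EW
import Pool.Agent.Lib.TWC.Key

/-!
# TANK W, dimension 4: the letters over a tight element of level `0`

Row L0A of notes 3193 / 3188. `x` tight of level `0` in the closed field `L`, `v (x 0) < 0`.

* `val_aeval_neg`: the value of a polynomial over `k` at an element of negative value;
* `exists_aeval_near`: the elements of `EW v ⊥ x` are polynomials in `x n` modulo `O(>0)`;
* `Tgt.coeff_small`: the monomials of an approximation of an element of `L`;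
* **`Tgt.letters`**: a limit `w ∈ L` of `EW v ⊥ x` is `N(x 0) + ∑ c m • x (m + 1)`;
* `letters_root`: the letters of the roots.
-/

set_option autoImplicit false

open Polynomial

namespace Pool.Agent.TWC

open Pool.Agent.H15JM (RVal)
open Pool.Agent.LU1 (VPos adj)
open Pool.Agent.D2 (Ctx0)
open Pool.Agent.D2P (clI mem_clI)
open Pool.Agent.TWM

universe u

variable {k Ω : Type u} [Field k] [Field Ω] [Algebra k Ω] {v : RVal Ω}

section Val

variable {t : Ω}

theorem ge_monomial (hk : Ctx0 k v) (t : Ω) (a : k) (i : ℕ) :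
    v.Ge (i * v t) (algebraMap k Ω a * t ^ i) := by
  have := (hk.ge a).mul (TWM.ge_pow (RVal.ge_self (v := v) t) i)
  rwa [zero_add] at this

/-- The value of a polynomial over `k` at an element of negative value. -/
theorem val_aeval_neg (hk : Ctx0 k v) (ht0 : t ≠ 0) (ht : v t < 0) {P : k[X]} (hP : P ≠ 0) :
    aeval t P ≠ 0 ∧ v (aeval t P) = P.natDegree * v t := by
  have hl : P.leadingCoeff ≠ 0 := leadingCoeff_ne_zero.2 hP
  have hl' : algebraMap k Ω P.leadingCoeff ≠ 0 := by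
    rwa [Ne, map_eq_zero]
  have h3 : algebraMap k Ω P.leadingCoeff * t ^ P.natDegree ≠ 0 :=
    mul_ne_zero hl' (pow_ne_zero _ ht0)
  have h4 : v (algebraMap k Ω P.leadingCoeff * t ^ P.natDegree) = P.natDegree * v t := by
    rw [v.map_mul hl' (pow_ne_zero _ ht0), hk.triv _ hl, v.map_pow ht0, zero_add]
  have h5 : Gt v (P.natDegree * v t)
      (algebraMap k Ω P.leadingCoeff * t ^ P.natDegree - aeval t P) := by
    rw [aeval_eq_sum_range, Finset.sum_range_succ, ← sub_sub, sub_right_comm]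
    have h6 : P.coeff P.natDegree • t ^ P.natDegree =
        algebraMap k Ω P.leadingCoeff * t ^ P.natDegree := by
      rw [Algebra.smul_def]
      rfl
    rw [h6, sub_self, zero_sub]
    refine (Gt.sum _ _ fun i hi => ?_).neg
    rw [Finset.mem_range] at hi
    rw [Algebra.smul_def]
    refine Gt.of_ge (ge_monomial hk t _ i) ?_
    have : (i : ℝ) < P.natDegree := by exact_mod_cast hi
    nlinarith
  have h6 := Gt.val_eq h3 (by rw [h4]; exact h5)
  exact ⟨h6.1, h6.2.trans h4⟩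

/-- The monomials of a polynomial whose value is `≥ -β`. -/
theorem coeff_le_of_ge (hk : Ctx0 k v) (ht0 : t ≠ 0) (ht : v t < 0) {P : k[X]} {β : ℝ}
    (h : v.Ge (-β) (aeval t P)) {i : ℕ} (hi : P.coeff i ≠ 0) : i * (-(v t)) ≤ β := by
  have hP : P ≠ 0 := by rintro rfl; exact hi (coeff_zero i)
  obtain ⟨h1, h2⟩ := val_aeval_neg hk ht0 ht hP
  have h3 := h h1
  rw [h2] at h3
  have h4 : (i : ℝ) ≤ P.natDegree := by exact_mod_cast le_natDegree_of_ne_zero hi
  nlinarith

theorem ge_of_coeff (hk : Ctx0 k v) {P : k[X]} {β : ℝ}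
    (h : ∀ i, P.coeff i ≠ 0 → i * (-(v t)) ≤ β) : v.Ge (-β) (aeval t P) := by
  rw [aeval_eq_sum_range]
  refine RVal.Ge.sum _ _ fun i _ => ?_
  rw [Algebra.smul_def]
  by_cases hi : P.coeff i = 0
  · rw [hi, map_zero, zero_mul]
    exact RVal.Ge.zero
  · refine (ge_monomial hk t _ i).mono ?_
    have := h i hi
    linarith

end Val

section Dense

variable {p : ℕ} [hp : Fact p.Prime] {x : ℕ → Ω}

omit [Algebra k Ω] [Field k] hp in
theorem root_pow_add' (hr : ∀ n, x (n + 1) ^ p = x n) (n j : ℕ) : x (n + j) ^ p ^ j = x n :=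
  root_pow_add hr n j

omit [Algebra k Ω] [Field k] in
theorem root_ne (hr : ∀ n, x (n + 1) ^ p = x n) (h0 : x 0 ≠ 0) (n : ℕ) : x n ≠ 0 := by
  intro h
  have h1 := root_pow_add hr 0 n
  rw [zero_add, h, zero_pow (pow_pos hp.out.pos n).ne'] at h1
  exact h0 h1.symm

omit [Algebra k Ω] [Field k] in
theorem val_root (hr : ∀ n, x (n + 1) ^ p = x n) (h0 : x 0 ≠ 0) (n : ℕ) :
    v (x n) = v (x 0) / p ^ n := by
  have h1 := root_pow_add hr 0 n
  rw [zero_add] at h1
  have h2 : v (x n ^ p ^ n) = v (x 0) := by rw [h1]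
  rw [v.map_pow (root_ne hr h0 n), Nat.cast_pow] at h2
  have hp0 : (0 : ℝ) < p ^ n := pow_pos (by exact_mod_cast hp.out.pos) n
  rw [eq_div_iff hp0.ne', mul_comm]
  exact h2

omit hp in
theorem adjoin_range_mem (hr : ∀ n, x (n + 1) ^ p = x n) {e : Ω}
    (he : e ∈ IntermediateField.adjoin k (Set.range x)) (M : ℕ) :
    ∃ n, M ≤ n ∧ e ∈ IntermediateField.adjoin k {x n} := by
  have hmono : ∀ n j, IntermediateField.adjoin k {x n} ≤ IntermediateField.adjoin k {x (n + j)} := by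
    intro n j
    rw [IntermediateField.adjoin_simple_le_iff, ← root_pow_add hr n j]
    exact pow_mem (IntermediateField.mem_adjoin_simple_self k _) _
  have hm : Monotone fun n => IntermediateField.adjoin k {x n} := by
    intro n m hnm
    obtain ⟨j, rfl⟩ := Nat.exists_eq_add_of_le hnm
    exact hmono n j
  have h1 : IntermediateField.adjoin k (Set.range x) ≤
      ⨆ n, IntermediateField.adjoin k {x n} := by
    rw [IntermediateField.adjoin_le_iff]
    rintro _ ⟨n, rfl⟩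
    exact (le_iSup (fun n => IntermediateField.adjoin k {x n}) n)
      (IntermediateField.mem_adjoin_simple_self k _)
  have h2 : e ∈ ((⨆ n, IntermediateField.adjoin k {x n} : IntermediateField k Ω) : Set Ω) := h1 he
  rw [IntermediateField.coe_iSup_of_directed hm.directed_le] at h2
  obtain ⟨n, hn⟩ := Set.mem_iUnion.1 h2
  exact ⟨n + M, by omega, hmono n M hn⟩

/-- The elements of `EW v ⊥ x` are polynomials in `x n` modulo `O(>0)`. -/
theorem exists_aeval_near (hk : Ctx0 k v) (hr : ∀ n, x (n + 1) ^ p = x n) (h0 : x 0 ≠ 0)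
    (hv : v (x 0) < 0) {e : Ω} (he : e ∈ EW v (⊥ : IntermediateField k Ω) x) (M : ℕ) :
    ∃ n, M ≤ n ∧ ∃ P : k[X], Gt v 0 (e - aeval (x n) P) := by
  obtain ⟨e', he', h1⟩ := (mem_clI.1 he) 1
  rw [bot_sup_eq] at he'
  obtain ⟨n, hn, h2⟩ := adjoin_range_mem hr he' M
  obtain ⟨A, B, h3⟩ := IntermediateField.mem_adjoin_simple_iff k _ |>.1 h2
  refine ⟨n, hn, ?_⟩
  have hxn := root_ne hr h0 n
  have hvn : v (x n) < 0 := by
    rw [val_root hr h0 n]
    exact div_neg_of_neg_of_pos hv (pow_pos (by exact_mod_cast hp.out.pos) n)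
  by_cases hB : B = 0
  · refine ⟨0, ?_⟩
    have : e' = 0 := by rw [h3, hB, map_zero, div_zero]
    rw [map_zero]
    rw [this] at h1
    exact Gt.of_ge h1 one_pos
  obtain ⟨hB1, hB2⟩ := val_aeval_neg hk hxn hvn hB
  refine ⟨A / B, ?_⟩
  have h4 : aeval (x n) A = aeval (x n) B * aeval (x n) (A / B) + aeval (x n) (A % B) := by
    rw [← map_mul, ← map_add, EuclideanDomain.div_add_mod]
  have h5 : e' - aeval (x n) (A / B) = aeval (x n) (A % B) / aeval (x n) B := by
    rw [h3, h4, add_div, mul_div_cancel_left₀ _ hB1]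
    ring
  have h6 : Gt v 0 (e' - aeval (x n) (A / B)) := by
    rw [h5]
    by_cases hR : A % B = 0
    · rw [hR, map_zero, zero_div]
      exact Gt.zero
    · obtain ⟨hR1, hR2⟩ := val_aeval_neg hk hxn hvn hR
      intro _
      rw [v.map_div hR1 hB1, hR2, hB2]
      have h7 : (A % B).natDegree < B.natDegree :=
        natDegree_lt_natDegree hR (EuclideanDomain.mod_lt A hB)
      have h8 : ((A % B).natDegree : ℝ) < B.natDegree := by exact_mod_cast h7
      nlinarith
  have h7 := (Gt.of_ge h1 one_pos).add h6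
  rwa [sub_add_sub_cancel] at h7

end Dense

section Letters

variable {p : ℕ} [hp : Fact p.Prime] [CharP k p] [CharP Ω p] {x : ℕ → Ω} {L : IntermediateField k Ω}

/-- An exponent which is not a power of `p`. -/
theorem two_mul_le_of_dvd {i q : ℕ} (hq : q ∣ i) (hi : i ≠ 0) (hiq : i ≠ q) : 2 * q ≤ i := by
  obtain ⟨c, rfl⟩ := hq
  have hc0 : c ≠ 0 := by rintro rfl; exact hi (mul_zero _)
  have hc1 : c ≠ 1 := by rintro rfl; exact hiq (mul_one _)
  have : 2 ≤ c := by omega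
  nlinarith

/-- **The monomials of an approximation `P(x n)` of an element `w` of `L`**: the exponent is a
multiple of `p ^ n`, a power of `p`, or the monomial is small. -/
theorem Tgt.coeff_small [IsAlgClosed Ω] (hk : Ctx0 k v) (hc : CompleteV v) (h : Tgt p v L x 0)
    (h0 : x 0 ≠ 0) (hv : v (x 0) < 0) {w : Ω} (hw : w ∈ L) {n : ℕ} {P : k[X]} {ε : ℝ}
    (hP : v.Ge (-ε) (w - aeval (x n) P)) {i : ℕ} (hi : P.coeff i ≠ 0) (hin : ¬ p ^ n ∣ i) :
    (∃ s < n, i = p ^ s) ∨ i * (-(v (x n))) ≤ 2 * ε := by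
  have hxn := root_ne h.root h0 n
  have hvn : v (x n) < 0 := by
    rw [val_root h.root h0 n]
    exact div_neg_of_neg_of_pos hv (pow_pos (by exact_mod_cast hp.out.pos) n)
  have hi0 : i ≠ 0 := by rintro rfl; exact hin (dvd_zero _)
  obtain ⟨s, m, hm, him⟩ := Nat.exists_eq_pow_mul_and_not_dvd hi0 p hp.out.one_lt.ne'
  have hs : s < n := by
    by_contra hs
    exact hin ((pow_dvd_pow p (not_lt.1 hs)).trans (him ▸ dvd_mul_right _ _))
  by_cases hip : i = p ^ s
  · exact Or.inl ⟨s, hs, hip⟩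
  right
  have h2 : 2 * p ^ s ≤ i := two_mul_le_of_dvd (him ▸ dvd_mul_right _ _) hi0 hip
  -- the operator of index `p ^ s`
  have hlt : p ^ s < p ^ n := Nat.pow_lt_pow_right hp.out.one_lt hs
  have hPm : Polynomial.C w - P.map (algebraMap k Ω) ∈ PI L := by
    refine sub_mem (C_mem_PI hw) fun j => ?_
    rw [coeff_map]
    exact L.algebraMap_mem _
  have h3 := (h.snd.nbx' p hk hc (r := 0) (by simp)).nb n _ hPm (p ^ s) hlt (-ε) (by
    rw [eval_sub, eval_C, eval_map_algebraMap]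
    exact hP)
  rw [mul_zero, zero_div, sub_zero, taylor_coeff, map_sub] at h3
  have h4 : hasseDeriv (p ^ s) (Polynomial.C w) = 0 :=
    hasseDeriv_C _ _ (pow_pos hp.out.pos s)
  have h5 : hasseDeriv (p ^ s) (P.map (algebraMap k Ω)) =
      (hasseDeriv (p ^ s) P).map (algebraMap k Ω) := by
    ext j
    rw [hasseDeriv_coeff, coeff_map, coeff_map, hasseDeriv_coeff, map_mul, map_natCast]
  rw [h4, h5, zero_sub, eval_neg, eval_map_algebraMap] at h3
  have h6 : v.Ge (-ε) (aeval (x n) (hasseDeriv (p ^ s) P)) := by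
    have := h3.neg
    rwa [neg_neg] at this
  have h7 : (hasseDeriv (p ^ s) P).coeff (i - p ^ s) ≠ 0 := by
    rw [hasseDeriv_coeff, Nat.sub_add_cancel (by omega)]
    refine mul_ne_zero ?_ hi
    rw [Ne, CharP.cast_eq_zero_iff k p, him]
    exact not_dvd_choose_self hm
  have h8 := coeff_le_of_ge hk hxn hvn h6 h7
  rw [Nat.cast_sub (by omega)] at h8
  have h9 : (2 : ℝ) * ((p ^ s : ℕ) : ℝ) ≤ i := by exact_mod_cast h2
  nlinarith

/-- The polynomial in `x n` with `N(x 0) + ∑ d m • x (m + 1)` as value. -/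
noncomputable def lq (p n M : ℕ) (N : k[X]) (d : ℕ → k) : k[X] :=
  expand k (p ^ n) N + ∑ m ∈ Finset.range M, C (d m) * X ^ p ^ (n - m - 1)

omit hp [CharP k p] [CharP Ω p] in
theorem aeval_lq (hr : ∀ n, x (n + 1) ^ p = x n) {n M : ℕ} (hM : M < n) (N : k[X]) (d : ℕ → k) :
    aeval (x n) (lq p n M N d) =
      aeval (x 0) N + ∑ m ∈ Finset.range M, algebraMap k Ω (d m) * x (m + 1) := by
  have h1 := root_pow_add hr 0 n
  rw [zero_add] at h1
  rw [lq, map_add, expand_aeval, h1, map_sum]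
  congr 1
  refine Finset.sum_congr rfl fun m hm => ?_
  rw [Finset.mem_range] at hm
  have h2 := root_pow_add hr (m + 1) (n - m - 1)
  rw [show m + 1 + (n - m - 1) = n by omega] at h2
  rw [map_mul, aeval_C, map_pow, aeval_X, h2]

omit [CharP k p] in
theorem lq_coeff (n M : ℕ) (N : k[X]) (d : ℕ → k) (i : ℕ) :
    (lq p n M N d).coeff i = (if p ^ n ∣ i then N.coeff (i / p ^ n) else 0) +
      ∑ m ∈ Finset.range M, if i = p ^ (n - m - 1) then d m else 0 := by
  rw [lq, coeff_add, coeff_expand (pow_pos hp.out.pos n), finsetSum_coeff]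
  congr 1
  refine Finset.sum_congr rfl fun m _ => ?_
  rw [coeff_C_mul_X_pow]

omit [CharP k p] in
theorem lq_dvd {n M : ℕ} (hM : M < n) (N : k[X]) (d : ℕ → k) (j : ℕ) :
    (lq p n M N d).coeff (p ^ n * j) = N.coeff j := by
  have hpos := pow_pos hp.out.pos n
  rw [lq_coeff, if_pos (dvd_mul_right _ _), Nat.mul_div_cancel_left _ hpos,
    Finset.sum_eq_zero, add_zero]
  intro m hm
  rw [if_neg]
  intro h
  have h1 : p ^ (n - m - 1) < p ^ n := Nat.pow_lt_pow_right hp.out.one_lt (by omega)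
  have h2 : 0 < p ^ (n - m - 1) := pow_pos hp.out.pos _
  rcases Nat.eq_zero_or_pos j with rfl | hj
  · rw [mul_zero] at h; omega
  · have h3 : p ^ n * 1 ≤ p ^ n * j := Nat.mul_le_mul_left _ hj
    rw [mul_one] at h3
    omega

omit [CharP k p] in
theorem lq_pow {n M : ℕ} (hM : M < n) (N : k[X]) (d : ℕ → k) {m : ℕ} (hm : m < M) :
    (lq p n M N d).coeff (p ^ (n - m - 1)) = d m := by
  have h1 : p ^ (n - m - 1) < p ^ n := Nat.pow_lt_pow_right hp.out.one_lt (by omega)
  have h2 : 0 < p ^ (n - m - 1) := pow_pos hp.out.pos _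
  rw [lq_coeff, if_neg, zero_add, Finset.sum_eq_single m]
  · rw [if_pos rfl]
  · intro m' hm' hne
    rw [Finset.mem_range] at hm'
    rw [if_neg]
    intro h3
    have h4 := Nat.pow_right_injective hp.out.two_le h3
    omega
  · intro h3
    exact absurd (Finset.mem_range.2 hm) h3
  · intro h3
    exact absurd (Nat.le_of_dvd h2 h3) (by omega)

/-- `w` is `N(x 0) + ∑ c m • x (m + 1)` up to `- S / p ^ (M + 1)`. -/
def Apx (p : ℕ) (v : RVal Ω) (x : ℕ → Ω) (S : ℝ) (w : Ω) (N : k[X]) (c : ℕ → k) (M : ℕ) : Prop :=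
  v.Ge (-(S / p ^ (M + 1)))
    (w - aeval (x 0) N - ∑ m ∈ Finset.range M, algebraMap k Ω (c m) * x (m + 1))

/-- The `M`-th approximation. -/
theorem Tgt.exists_apx [IsAlgClosed Ω] (hk : Ctx0 k v) (hc : CompleteV v) (h : Tgt p v L x 0)
    (h0 : x 0 ≠ 0) {S : ℝ} (hS : 0 < S) (hv : v (x 0) = -S) {w : Ω} (hw : w ∈ L)
    (hl : Lim v (EW v (⊥ : IntermediateField k Ω) x) 0 w) (M : ℕ) :
    ∃ (N : k[X]) (c : ℕ → k), Apx p v x S w N c M := by
  have hp0 : (0 : ℝ) < p := by exact_mod_cast hp.out.pos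
  have hp1 : (1 : ℝ) < p := by exact_mod_cast hp.out.one_lt
  have hq : (0 : ℝ) < p ^ (M + 1) := pow_pos hp0 _
  set ε : ℝ := S / p ^ (M + 1) / 2 with hε
  have hε0 : 0 < ε := by positivity
  obtain ⟨a, ha, h1⟩ := hl ε hε0
  obtain ⟨n, hn, P, h2⟩ := exists_aeval_near hk h.root h0 (by linarith) ha (M + 1)
  have hP : v.Ge (-ε) (w - aeval (x n) P) := by
    have h3 : v.Ge (-ε) (a - aeval (x n) P) := fun h0 => by
      have := h2 h0
      linarith
    have h4 := (h1.mono (by linarith : -ε ≤ 0 - ε)).add h3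
    rwa [sub_add_sub_cancel] at h4
  have hvn : v (x n) = -(S / p ^ n) := by
    rw [val_root h.root h0 n, hv, neg_div]
  refine ⟨contract (p ^ n) P, fun m => P.coeff (p ^ (n - m - 1)), ?_⟩
  have hMn : M < n := by omega
  set Q := lq p n M (contract (p ^ n) P) (fun m => P.coeff (p ^ (n - m - 1))) with hQ
  have h3 : v.Ge (-(S / p ^ (M + 1))) (aeval (x n) (P - Q)) := by
    refine ge_of_coeff hk fun i hi => ?_
    rw [coeff_sub] at hi
    by_cases hdvd : p ^ n ∣ i
    · obtain ⟨j, rfl⟩ := hdvd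
      rw [hQ, lq_dvd hMn, coeff_contract (pow_pos hp.out.pos n).ne', mul_comm j, sub_self] at hi
      exact absurd rfl hi
    by_cases hpow : ∃ m < M, i = p ^ (n - m - 1)
    · obtain ⟨m, hm, rfl⟩ := hpow
      rw [hQ, lq_pow hMn _ _ hm, sub_self] at hi
      exact absurd rfl hi
    have hQi : Q.coeff i = 0 := by
      rw [hQ, lq_coeff, if_neg hdvd, zero_add]
      refine Finset.sum_eq_zero fun m hm => if_neg fun h4 => hpow ⟨m, Finset.mem_range.1 hm, h4⟩
    rw [hQi, sub_zero] at hi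
    rcases h.coeff_small hk hc h0 (by linarith) hw hP hi hdvd with ⟨s, hs, rfl⟩ | h4
    · have h5 : M ≤ n - s - 1 := by
        by_contra h5
        exact hpow ⟨n - s - 1, by omega, by congr 1; omega⟩
      rw [hvn, neg_neg, Nat.cast_pow]
      have h6 : (p : ℝ) ^ s * (S / p ^ n) = S / p ^ (n - s) := by
        have h7 : (p : ℝ) ^ n = p ^ s * p ^ (n - s) := by
          rw [← pow_add]
          congr 1
          omega
        rw [h7]
        have : (p : ℝ) ^ s ≠ 0 := (pow_pos hp0 s).ne'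
        have : (p : ℝ) ^ (n - s) ≠ 0 := (pow_pos hp0 _).ne'
        field_simp
      rw [h6]
      exact div_le_div_of_nonneg_left hS.le hq (pow_le_pow_right₀ hp1.le (by omega))
    · refine h4.trans (le_of_eq ?_)
      rw [hε]
      ring
  rw [map_sub, hQ, aeval_lq h.root hMn] at h3
  have h4 := (hP.mono (show -(S / p ^ (M + 1)) ≤ -ε by rw [hε]; linarith [hε0])).add h3
  rw [sub_add_sub_cancel, ← sub_sub] at h4
  exact h4

omit [CharP k p] [CharP Ω p] in
theorem Apx.trunc (hk : Ctx0 k v) (hr : ∀ n, x (n + 1) ^ p = x n) (h0 : x 0 ≠ 0) {S : ℝ}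
    (hS : 0 < S) (hv : v (x 0) = -S) {w : Ω} {N : k[X]} {c : ℕ → k} {M M' : ℕ}
    (h : Apx p v x S w N c M') (hM : M ≤ M') : Apx p v x S w N c M := by
  have hp0 : (0 : ℝ) < p := by exact_mod_cast hp.out.pos
  have hp1 : (1 : ℝ) < p := by exact_mod_cast hp.out.one_lt
  have hle : ∀ a, M ≤ a → -(S / (p : ℝ) ^ (M + 1)) ≤ -(S / p ^ (a + 1)) := fun a ha =>
    neg_le_neg (div_le_div_of_nonneg_left hS.le (pow_pos hp0 _)
      (pow_le_pow_right₀ hp1.le (by omega)))
  have h1 : v.Ge (-(S / p ^ (M + 1)))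
      (∑ m ∈ Finset.Ico M M', algebraMap k Ω (c m) * x (m + 1)) := by
    refine RVal.Ge.sum _ _ fun m hm => ?_
    rw [Finset.mem_Ico] at hm
    have h2 := (hk.ge (c m)).mul (RVal.ge_self (v := v) (x (m + 1)))
    rw [zero_add, val_root hr h0, hv, neg_div] at h2
    exact h2.mono (hle m hm.1)
  have h2 := (RVal.Ge.mono (hle M' hM) h).add h1
  rw [Apx]
  rw [← Finset.sum_range_add_sum_Ico _ hM, ← sub_sub, sub_add_cancel] at h2
  exact h2

omit [CharP k p] [CharP Ω p] in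
/-- The letters are unique. -/
theorem Apx.unique (hk : Ctx0 k v) (hr : ∀ n, x (n + 1) ^ p = x n) (h0 : x 0 ≠ 0) {S : ℝ}
    (hS : 0 < S) (hv : v (x 0) = -S) {w : Ω} {N N' : k[X]} {c c' : ℕ → k} {M : ℕ}
    (h : Apx p v x S w N c M) (h' : Apx p v x S w N' c' M) :
    (∀ m < M, c m = c' m) ∧ ∀ i, i ≠ 0 → N.coeff i = N'.coeff i := by
  have hp0 : (0 : ℝ) < p := by exact_mod_cast hp.out.pos
  have hp1 : (1 : ℝ) < p := by exact_mod_cast hp.out.one_lt
  have h1 : v.Ge (-(S / p ^ (M + 1)))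
      (aeval (x (M + 1)) (lq p (M + 1) M (N' - N) (fun m => c' m - c m))) := by
    rw [aeval_lq hr (Nat.lt_succ_self M)]
    have h2 := RVal.Ge.sub h h'
    have h3 : w - aeval (x 0) N - ∑ m ∈ Finset.range M, algebraMap k Ω (c m) * x (m + 1) -
        (w - aeval (x 0) N' - ∑ m ∈ Finset.range M, algebraMap k Ω (c' m) * x (m + 1)) =
        aeval (x 0) (N' - N) +
          ∑ m ∈ Finset.range M, algebraMap k Ω (c' m - c m) * x (m + 1) := by
      simp only [map_sub, sub_mul, Finset.sum_sub_distrib]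
      ring
    rw [h3] at h2
    exact h2
  have hvn : v (x (M + 1)) = -(S / p ^ (M + 1)) := by
    rw [val_root hr h0 _, hv, neg_div]
  have hneg : v (x (M + 1)) < 0 := by
    rw [hvn]
    have : 0 < S / (p : ℝ) ^ (M + 1) := div_pos hS (pow_pos hp0 _)
    linarith
  have h2 : ∀ i, (lq p (M + 1) M (N' - N) (fun m => c' m - c m)).coeff i ≠ 0 → i ≤ 1 := by
    intro i hi
    have h3 := coeff_le_of_ge hk (root_ne hr h0 _) hneg h1 hi
    rw [hvn, neg_neg] at h3
    have h4 : 0 < S / (p : ℝ) ^ (M + 1) := div_pos hS (pow_pos hp0 _)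
    have h5 : (i : ℝ) ≤ 1 := by
      by_contra h5
      rw [not_le] at h5
      nlinarith
    exact_mod_cast h5
  refine ⟨fun m hm => ?_, fun i hi => ?_⟩
  · by_contra hne
    have h3 := h2 (p ^ (M + 1 - m - 1)) (by
      rw [lq_pow (Nat.lt_succ_self M) _ _ hm]
      exact sub_ne_zero.2 (Ne.symm hne))
    have h4 : 1 < p ^ (M + 1 - m - 1) := Nat.one_lt_pow (by omega) hp.out.one_lt
    omega
  · by_contra hne
    have h3 := h2 (p ^ (M + 1) * i) (by
      rw [lq_dvd (Nat.lt_succ_self M), coeff_sub]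
      exact sub_ne_zero.2 (Ne.symm hne))
    have h4 : 1 < p ^ (M + 1) := Nat.one_lt_pow (by omega) hp.out.one_lt
    have h5 : p ^ (M + 1) * 1 ≤ p ^ (M + 1) * i := Nat.mul_le_mul_left _ (Nat.pos_of_ne_zero hi)
    omega

/-- **The letters of a limit `w ∈ L` of `E`.** -/
theorem Tgt.letters [IsAlgClosed Ω] (hk : Ctx0 k v) (hc : CompleteV v) (h : Tgt p v L x 0)
    (h0 : x 0 ≠ 0) {S : ℝ} (hS : 0 < S) (hv : v (x 0) = -S) {w : Ω} (hw : w ∈ L)
    (hl : Lim v (EW v (⊥ : IntermediateField k Ω) x) 0 w) :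
    ∃ (N : k[X]) (c : ℕ → k), ∀ M, v.Ge (-(S / p ^ (M + 1)))
      (w - aeval (x 0) N - ∑ m ∈ Finset.range M, algebraMap k Ω (c m) * x (m + 1)) := by
  have hp0 : (0 : ℝ) < p := by exact_mod_cast hp.out.pos
  choose Nm cm hm using h.exists_apx hk hc h0 hS hv hw hl
  refine ⟨Nm 0, fun m => cm (m + 1) m, fun M => ?_⟩
  have h1 : ∀ m < M, cm M m = cm (m + 1) m := fun m hmM =>
    (((hm M).trunc hk h.root h0 hS hv (show m + 1 ≤ M from hmM)).unique hk h.root h0 hS hv
      (hm (m + 1))).1 m (Nat.lt_succ_self m)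
  have h2 : ∀ i, i ≠ 0 → (Nm M).coeff i = (Nm 0).coeff i :=
    (((hm M).trunc hk h.root h0 hS hv (Nat.zero_le M)).unique hk h.root h0 hS hv (hm 0)).2
  have h3 : Nm M - Nm 0 = C ((Nm M - Nm 0).coeff 0) := by
    ext i
    rw [coeff_C]
    by_cases hi : i = 0
    · rw [if_pos hi, hi]
    · rw [if_neg hi, coeff_sub, h2 i hi, sub_self]
  have h4 : v.Ge (-(S / p ^ (M + 1))) (aeval (x 0) (Nm M) - aeval (x 0) (Nm 0)) := by
    rw [← map_sub, h3, aeval_C]
    refine (hk.ge _).mono ?_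
    have : 0 < S / (p : ℝ) ^ (M + 1) := div_pos hS (pow_pos hp0 _)
    linarith
  have h5 : ∑ m ∈ Finset.range M, algebraMap k Ω (cm M m) * x (m + 1) =
      ∑ m ∈ Finset.range M, algebraMap k Ω (cm (m + 1) m) * x (m + 1) :=
    Finset.sum_congr rfl fun m hmM => by rw [h1 m (Finset.mem_range.1 hmM)]
  have h6 := RVal.Ge.add (hm M) h4
  rw [h5] at h6
  have h7 : w - aeval (x 0) (Nm M) -
      ∑ m ∈ Finset.range M, algebraMap k Ω (cm (m + 1) m) * x (m + 1) +
      (aeval (x 0) (Nm M) - aeval (x 0) (Nm 0)) = w - aeval (x 0) (Nm 0) -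
      ∑ m ∈ Finset.range M, algebraMap k Ω (cm (m + 1) m) * x (m + 1) := by ring
  rwa [h7] at h6

/-- The same with `•`. -/
theorem Tgt.letters_smul [IsAlgClosed Ω] (hk : Ctx0 k v) (hc : CompleteV v) (h : Tgt p v L x 0)
    (h0 : x 0 ≠ 0) {S : ℝ} (hS : 0 < S) (hv : v (x 0) = -S) {w : Ω} (hw : w ∈ L)
    (hl : Lim v (EW v (⊥ : IntermediateField k Ω) x) 0 w) :
    ∃ (N : k[X]) (c : ℕ → k), ∀ M, v.Ge (-(S / p ^ (M + 1)))
      (w - aeval (x 0) N - ∑ m ∈ Finset.range M, c m • x (m + 1)) := by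
  simp only [Algebra.smul_def]
  exact h.letters hk hc h0 hS hv hw hl

omit [CharP k p] in
/-- **The letters of the roots.** -/
theorem letters_root [IsAlgClosed k] (hr : ∀ n, x (n + 1) ^ p = x n) {S : ℝ} {b : ℕ → Ω}
    (hb : ∀ n, b (n + 1) ^ p = b n) {c : ℕ → k}
    (h : ∀ M, v.Ge (-(S / p ^ (M + 1)))
      (b 0 - ∑ m ∈ Finset.range M, algebraMap k Ω (c m) * x (m + 1))) :
    ∃ d : ℕ → ℕ → k, (∀ n m, d n m ^ p ^ n = c m) ∧ ∀ n M, v.Ge (-(S / p ^ (n + M + 1)))
      (b n - ∑ m ∈ Finset.range M, algebraMap k Ω (d n m) * x (n + m + 1)) := by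
  have hp0 : (0 : ℝ) < p := by exact_mod_cast hp.out.pos
  choose d hd using fun (n m : ℕ) => IsAlgClosed.exists_pow_nat_eq (c m) (pow_pos hp.out.pos n)
  refine ⟨d, hd, fun n M => ?_⟩
  refine Key.ge_of_pow (m := p ^ n) (pow_pos hp.out.pos n).ne' ?_
  have h1 : (b n - ∑ m ∈ Finset.range M, algebraMap k Ω (d n m) * x (n + m + 1)) ^ p ^ n =
      b 0 - ∑ m ∈ Finset.range M, algebraMap k Ω (c m) * x (m + 1) := by
    have h2 := root_pow_add hb 0 n
    rw [zero_add] at h2
    rw [sub_pow_char_pow, h2, sum_pow_char_pow]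
    congr 1
    refine Finset.sum_congr rfl fun m _ => ?_
    have h3 := root_pow_add hr (m + 1) n
    rw [show m + 1 + n = n + m + 1 by ring] at h3
    rw [mul_pow, h3, ← map_pow, hd]
  rw [h1]
  refine (h M).mono (le_of_eq ?_)
  rw [show n + M + 1 = n + (M + 1) by ring, pow_add, Nat.cast_pow]
  have : (p : ℝ) ^ n ≠ 0 := (pow_pos hp0 _).ne'
  have : (p : ℝ) ^ (M + 1) ≠ 0 := (pow_pos hp0 _).ne'
  field_simp

end Letters

end Pool.Agent.TWC
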