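import Pool.Agent.Lib.TWC.JDC
import Pool.Agent.Lib.TWC.SND
import Pool.Agent.Lib.TWC.Lv0A

/-!
# TANK W: the distance of `x ^ (1 / p)` and the letters (helper54's IRR, (4))

* `jets_near`: the jets at a point near to `w`;
* `TN.comp`: composition of truncated polynomials;
* `dist_letters`: `B` closed, the motions of `x n` over `B` of value `R / p ^ n` are isometric, `w` is
  near to polynomials `P(x n)` the jets of which are `≥ s`: then the distance of `x 1` to the closure
  of `B(w)` is `≤ R / p`;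
* `tgt_bot`: `x j, x (j + 1), ..` is tight in the closure of `k(x j)`, of level `v (x j)`;
* `dist_letters_bot`: the case of the letters.
-/

set_option autoImplicit false

open Polynomial

namespace Pool.Agent.TWC

open Pool.Agent.H15JM (RVal)
open Pool.Agent.LU1 (VPos adj)
open Pool.Agent.D2 (Ctx0)
open Pool.Agent.D2P (hen clI mem_clI rootF mem_rootF)
open Pool.Agent.TWM Pool.Agent.TWM.C

universe u

variable {k Ω : Type u} [Field k] [Field Ω] [Algebra k Ω] {v : RVal Ω}
  {A B : IntermediateField k Ω} {w : Ω} {s D R : ℝ}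

/-! ### Jets and composition -/

/-- The jets at a point near to `w`. -/
theorem jets_near {f : Polynomial Ω} {y : Ω} {δ : ℝ} (hδ : 0 ≤ δ)
    (h : ∀ l : ℕ, v.Ge (D - l * s) ((taylor w f).coeff l)) (hy : v.Ge (s - δ) (w - y)) (m : ℕ) :
    v.Ge (D - m * s - f.natDegree * δ) ((taylor y f).coeff m) := by
  have h1 : taylor y f = taylor (y - w) (taylor w f) := by rw [taylor_taylor, sub_add_cancel]
  rw [h1, taylor_coeff, hasseDeriv_apply, Polynomial.sum, eval_finsetSum]
  refine RVal.Ge.sum _ _ fun n hn => ?_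
  rw [eval_monomial]
  rcases lt_or_ge n m with h7 | h7
  · rw [Nat.choose_eq_zero_of_lt h7, Nat.cast_zero, zero_mul, zero_mul]
    exact RVal.Ge.zero
  · have h8 : n ≤ f.natDegree := by
      have h9 := le_natDegree_of_mem_supp n hn
      rwa [natDegree_taylor] at h9
    rw [mul_assoc]
    have h9 := (ge_natCast v (n.choose m)).mul ((h n).mul (ge_pow (ge_sub_comm hy) (n - m)))
    refine h9.mono ?_
    rw [Nat.cast_sub h7]
    have h10 : (n : ℝ) ≤ f.natDegree := by exact_mod_cast h8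
    have h11 : (0 : ℝ) ≤ m := Nat.cast_nonneg m
    nlinarith

section TN

variable {q : ℕ} {om : ℕ → ℝ} {b b' : ℝ} {P P' : Polynomial Ω}

/-- The coefficients of order `F < q` are `≥ b - om F` (the same as `NG` of `TWC.ThetaB`). -/
def TN (v : RVal Ω) (q : ℕ) (om : ℕ → ℝ) (b : ℝ) (P : Polynomial Ω) : Prop :=
  ∀ F < q, v.Ge (b - om F) (P.coeff F)

theorem TN.mul (ho : ∀ i j, om i + om j ≤ om (i + j)) (h : TN v q om b P)
    (h' : TN v q om b' P') : TN v q om (b + b') (P * P') := by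
  intro F hF
  rw [coeff_mul]
  refine RVal.Ge.sum _ _ fun ij hij => ?_
  have h1 := Finset.HasAntidiagonal.mem_antidiagonal.1 hij
  refine ((h ij.1 (by omega)).mul (h' ij.2 (by omega))).mono ?_
  have h2 := ho ij.1 ij.2
  rw [h1] at h2
  linarith

theorem TN.pow (ho : ∀ i j, om i + om j ≤ om (i + j)) (h0 : om 0 = 0) (h : TN v q om b P)
    (a : ℕ) : TN v q om (a * b) (P ^ a) := by
  induction a with
  | zero =>
    intro F _
    rw [pow_zero, coeff_one, Nat.cast_zero, zero_mul, zero_sub]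
    split_ifs with h1
    · subst h1
      rw [h0, neg_zero]
      intro _
      rw [v.map_one]
    · exact RVal.Ge.zero
  | succ a ih =>
    rw [pow_succ]
    have h1 := TN.mul ho ih h
    have h2 : (a : ℝ) * b + b = ((a + 1 : ℕ) : ℝ) * b := by
      push_cast
      ring
    rwa [h2] at h1

theorem TN.sum {ι : Type*} (S : Finset ι) {f : ι → Polynomial Ω}
    (h : ∀ i ∈ S, TN v q om b (f i)) : TN v q om b (∑ i ∈ S, f i) := by
  intro F hF
  rw [finsetSum_coeff]
  exact RVal.Ge.sum _ _ fun i hi => h i hi F hF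

end TN

/-- Composition of truncated polynomials. -/
theorem TN.comp {q : ℕ} {om : ℕ → ℝ} (ho : ∀ i j, om i + om j ≤ om (i + j)) (h0 : om 0 = 0)
    {f Q : Polynomial Ω} (hf : ∀ m : ℕ, v.Ge (D - m * s) (f.coeff m)) (hQ : TN v q om s Q) :
    TN v q om D (f.comp Q) := by
  rw [Polynomial.comp, eval₂_eq_sum_range]
  refine TN.sum _ fun m _ => ?_
  intro i hi
  rw [coeff_C_mul]
  exact ((hf m).mul (TN.pow ho h0 hQ m i hi)).mono (by linarith)

theorem taylor_comp_eq (f P : Polynomial Ω) (x : Ω) : taylor x (f.comp P) =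
    (taylor (P.eval x) f).comp (taylor x P - C (P.eval x)) := by
  rw [taylor_apply, taylor_apply, taylor_apply, comp_assoc, comp_assoc, add_comp, X_comp, C_comp,
    sub_add_cancel]

section

variable {p : ℕ} [hp : Fact p.Prime] [CharP Ω p] [IsAlgClosed Ω] {x : ℕ → Ω}

/-- **The distance of `x 1` to `B<w>`.** -/
theorem dist_letters (hnb : NBX p v B x fun n F => F * R / p ^ n) (hx0 : x 0 ∈ B)
    (hw : TL v A w s) (hBA : B ≤ A)
    (H : ∀ ε : ℝ, 0 < ε → ∃ n, 1 ≤ n ∧ ∃ P ∈ PI B, v.Ge (s - ε) (w - P.eval (x n)) ∧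
      ∀ i, 0 < i → i < p ^ n → v.Ge (s - i * R / p ^ n) ((taylor (x n) P).coeff i))
    {g : Ω} (hg : g ∈ cadj v B w) (hD : v.Ge D (x 1 - g)) : D ≤ R / p := by
  have hp0 : (0 : ℝ) < p := by exact_mod_cast hp.out.pos
  obtain ⟨g', hg', h1⟩ := mem_clI.1 hg D
  have h2 : v.Ge D (x 1 - g') := by
    rw [show x 1 - g' = (x 1 - g) + (g - g') by ring]
    exact hD.add h1
  obtain ⟨G, hG, H', hH, hHw, h3⟩ := exists_frac hg'
  set f : Polynomial Ω := C (x 1) * H' - G with hf
  have hBc : PI B ≤ PI (TWM.algc A) := PI_mono (hBA.trans (le_algc A))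
  have hx1 : x 1 ∈ TWM.algc A := by
    refine mem_algc.2 (D2P.isAlgebraic_mono hBA (isAlgebraic_of_pow_mem p ?_))
    rw [hnb.root]
    exact hx0
  have hfA : f ∈ PI (TWM.algc A) := sub_mem (mul_mem (C_mem_PI hx1) (hBc hH)) (hBc hG)
  have hH0 : H' ≠ 0 := by
    rintro rfl
    exact hHw eval_zero
  have hfw : f.eval w = (x 1 - g') * H'.eval w := by
    rw [hf, eval_sub, eval_mul, eval_C, sub_mul, h3]
  have hfw2 : v.Ge (D + v (H'.eval w)) (f.eval w) := by
    rw [hfw]
    exact h2.mul (RVal.ge_self _)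
  have hjet : ∀ l : ℕ, v.Ge (D + v (H'.eval w) - l * s) ((taylor w f).coeff l) := by
    intro l
    by_cases hf0 : f = 0
    · rw [hf0, map_zero, coeff_zero]
      exact RVal.Ge.zero
    · refine (hw.weak hfA hf0 l).mono ?_
      linarith [hfw2 (hw.eval_ne hfA hf0)]
  obtain ⟨δ₀, hδ₀, hval⟩ := hw.near_val (hBc hH) hH0
  refine le_of_forall_pos_le_add fun ε hε => ?_
  have hd : (0 : ℝ) < f.natDegree + 1 := by positivity
  set δ := min δ₀ (ε / (f.natDegree + 1)) with hδ
  have hδ1 : 0 < δ := lt_min hδ₀ (by positivity)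
  have hδ2 : f.natDegree * δ ≤ ε := by
    have h4 : δ ≤ ε / (f.natDegree + 1) := min_le_right _ _
    rw [le_div_iff₀ hd] at h4
    nlinarith
  obtain ⟨n, hn, P, hP, hwP, hPj⟩ := H δ hδ1
  set y := P.eval (x n) with hy
  obtain ⟨hHy, hHv⟩ := hval y (hwP.mono (by linarith [min_le_left δ₀ (ε / (f.natDegree + 1))]))
  have hjy := fun m => jets_near hδ1.le hjet hwP m
  -- the polynomial in `x n`
  set q := p ^ (n - 1) with hq
  have hqn : q * p = p ^ n := by
    rw [hq, ← pow_succ]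
    congr 1
    omega
  have hxq : x n ^ q = x 1 := by
    have h5 := root_pow_add hnb.root 1 (n - 1)
    rwa [show 1 + (n - 1) = n by omega] at h5
  have hq0 : 0 < q := pow_pos hp.out.pos _
  have hqlt : q < p ^ n := by
    rw [← hqn]
    exact (Nat.lt_mul_iff_one_lt_right hq0).2 hp.out.one_lt
  have hcomp : ∀ f ∈ PI B, f.comp P ∈ PI B := fun f hf => by
    rw [Polynomial.comp, eval₂_eq_sum_range]
    exact sum_mem fun i _ => mul_mem (C_mem_PI (hf i)) (pow_mem hP i)
  set F : Polynomial Ω := X ^ q * H'.comp P - G.comp P with hF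
  have hFB : F ∈ PI B := sub_mem (mul_mem (pow_mem X_mem_PI _) (hcomp _ hH)) (hcomp _ hG)
  have hFe : F.eval (x n) = f.eval y := by
    rw [hF, hf, eval_sub, eval_mul, eval_pow, eval_X, eval_comp, eval_comp, hxq, eval_sub, eval_mul,
      eval_C]
  have hFv : v.Ge (D + v (H'.eval w) - f.natDegree * δ) (F.eval (x n)) := by
    rw [hFe]
    have h5 := hjy 0
    rwa [Nat.cast_zero, zero_mul, sub_zero, taylor_coeff_zero] at h5
  have h6 := hnb.nb n F hFB q hqlt _ hFv
  -- its jet of order `q`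
  have hTF : taylor (x n) F = X ^ q * taylor (x n) (H'.comp P) + taylor (x n) (f.comp P) := by
    rw [hF, hf, sub_comp, mul_comp, C_comp, map_sub, map_sub, taylor_mul, taylor_mul, taylor_pow,
      taylor_X, taylor_C, hq, add_pow_char_pow, ← C_pow, ← hq, hxq]
    ring
  have hcoeff : (taylor (x n) F).coeff q = H'.eval y + (taylor (x n) (f.comp P)).coeff q := by
    have h7 := coeff_X_pow_mul (taylor (x n) (H'.comp P)) q 0
    rw [zero_add] at h7
    rw [hTF, coeff_add, h7, taylor_coeff_zero, eval_comp]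
  have hw' : ((q : ℕ) : ℝ) * R / p ^ n = R / p := by
    have h8 : ((q : ℕ) : ℝ) * p = p ^ n := by exact_mod_cast hqn
    have hq0' : ((q : ℕ) : ℝ) ≠ 0 := by exact_mod_cast hq0.ne'
    rw [← h8]
    field_simp
  have hTN : TN v (p ^ n) (fun i => i * R / p ^ n) s (taylor (x n) P - C y) := by
    intro i hi
    rcases Nat.eq_zero_or_pos i with h8 | h8
    · subst h8
      rw [coeff_sub, taylor_coeff_zero, coeff_C_zero, hy, sub_self]
      exact RVal.Ge.zero
    · rw [coeff_sub, coeff_C_of_ne_zero h8.ne', sub_zero]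
      exact hPj i h8 hi
  have h9 : TN v (p ^ n) (fun i => i * R / p ^ n) (D + v (H'.eval w) - f.natDegree * δ)
      (taylor (x n) (f.comp P)) := by
    rw [taylor_comp_eq]
    refine TN.comp (s := s) (fun i j => le_of_eq ?_) ?_ (fun m => ?_) hTN
    · push_cast
      ring
    · simp
    · exact (hjy m).mono (by linarith)
  have h10 := h9 q hqlt
  have h11 : v.Ge (D + v (H'.eval w) - f.natDegree * δ - R / p) (H'.eval y) := by
    have h12 : H'.eval y = (taylor (x n) F).coeff q - (taylor (x n) (f.comp P)).coeff q := by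
      rw [hcoeff, add_sub_cancel_right]
    rw [h12]
    simp only [hw'] at h6 h10
    exact h6.sub h10
  have h12 := h11 hHy
  rw [hHv] at h12
  linarith

end

/-! ### The fields `k<x j>` -/

section Bot

variable {t : Ω}

theorem exists_kpoly {f : Polynomial Ω} (hf : f ∈ PI (⊥ : IntermediateField k Ω)) :
    ∃ P : k[X], P.map (algebraMap k Ω) = f := by
  have hl : f ∈ Polynomial.lifts (algebraMap k Ω) := by
    rw [Polynomial.lifts_iff_coeff_lifts]
    exact fun i => IntermediateField.mem_bot.1 (hf i)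
  exact hl

theorem map_mem_PI (P : k[X]) : P.map (algebraMap k Ω) ∈ PI B := fun i => by
  rw [coeff_map]
  exact B.algebraMap_mem _

/-- The values of the elements of `k<t>`. -/
theorem val_bot (hk : Ctx0 k v) (ht0 : t ≠ 0) (ht : v t < 0) {a : Ω}
    (ha : a ∈ cadj v (⊥ : IntermediateField k Ω) t) (h0 : a ≠ 0) : ∃ m : ℤ, v a = m * v t := by
  obtain ⟨a', ha', h1⟩ := mem_clI.1 ha (v a + 1)
  obtain ⟨h2, h3⟩ := Gt.val_eq h0 (Gt.of_ge h1 (by linarith))
  obtain ⟨G, hG, H, hH, hH0, h4⟩ := exists_frac ha'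
  obtain ⟨P, rfl⟩ := exists_kpoly hG
  obtain ⟨Q, rfl⟩ := exists_kpoly hH
  rw [eval_map_algebraMap] at hH0 h4
  rw [eval_map_algebraMap] at h4
  have hQ0 : Q ≠ 0 := by
    rintro rfl
    exact hH0 (map_zero _)
  have hP0 : P ≠ 0 := by
    rintro rfl
    rw [map_zero] at h4
    exact mul_ne_zero h2 hH0 h4
  obtain ⟨h5, h6⟩ := val_aeval_neg hk ht0 ht hP0
  obtain ⟨h7, h8⟩ := val_aeval_neg hk ht0 ht hQ0
  have h9 := congrArg v h4
  rw [v.map_mul h2 h7, h6, h8] at h9
  refine ⟨(P.natDegree : ℤ) - Q.natDegree, ?_⟩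
  push_cast
  rw [← h3]
  linarith

end Bot

section

variable {p : ℕ} [hp : Fact p.Prime] {x : ℕ → Ω}

/-- `x j, x (j + 1), ..` is tight in the closure of `k(x j)`, of level `v (x j)`. -/
theorem tgt_bot (hk : Ctx0 k v) (hr : ∀ n, x (n + 1) ^ p = x n) (h0 : x 0 ≠ 0) (hv : v (x 0) < 0)
    (j : ℕ) : Tgt p v (cadj v (⊥ : IntermediateField k Ω) (x j)) (fun n => x (j + n)) (v (x j)) := by
  have hp0 : (0 : ℝ) < p := by exact_mod_cast hp.out.pos
  have hxj := root_ne hr h0 j
  have hr' : ∀ n, x (j + (n + 1)) ^ p = x (j + n) := fun n => hr (j + n)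
  have hvj : v (x j) < 0 := by
    have h1 := root_pow_add hr 0 j
    rw [zero_add] at h1
    have h2 := congrArg v h1
    rw [v.map_pow hxj] at h2
    have h3 : (0 : ℝ) < ((p ^ j : ℕ) : ℝ) := by exact_mod_cast pow_pos hp.out.pos j
    by_contra h4
    push Not at h4
    have := mul_nonneg h3.le h4
    linarith
  refine ⟨cld_cadj _ _ _, self_mem_cadj _ _ _, hr', fun n => ?_⟩
  have hx1 := root_ne hr h0 (j + (n + 1))
  have h1 : v (x (j + (n + 1))) = v (x j) / p ^ (n + 1) := by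
    have h2 := congrArg v (root_pow_add hr j (n + 1))
    rw [v.map_pow hx1] at h2
    rw [eq_div_iff (pow_pos hp0 _).ne', mul_comm]
    exact_mod_cast h2
  refine ⟨?_, fun ε hε => ⟨0, zero_mem _, ?_⟩⟩
  · rintro ⟨a, ha, h2⟩
    change Gt v _ (x (j + (n + 1)) - a) at h2
    rw [← h1] at h2
    obtain ⟨h3, h4⟩ := Gt.val_eq hx1 h2
    obtain ⟨m, hm⟩ := val_bot hk hxj hvj ha h3
    rw [h4, h1, div_eq_iff (pow_pos hp0 _).ne'] at hm
    have h5 : (1 : ℝ) = m * p ^ (n + 1) := by
      have h6 : v (x j) * 1 = v (x j) * (m * p ^ (n + 1)) := by linarith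
      exact mul_left_cancel₀ hvj.ne h6
    have h6 : (1 : ℤ) = m * (p : ℤ) ^ (n + 1) := by exact_mod_cast h5
    have h7 : (p : ℤ) ∣ 1 := by
      rw [h6]
      exact Dvd.dvd.mul_left (dvd_pow_self _ (Nat.succ_ne_zero n)) _
    have h8 : p ∣ 1 := by exact_mod_cast h7
    exact hp.out.one_lt.ne' (Nat.dvd_one.1 h8)
  · change v.Ge _ (x (j + (n + 1)) - 0)
    rw [sub_zero, ← h1]
    exact (RVal.ge_self _).mono (by linarith)

omit [Algebra k Ω] [Field k] in
variable (Ω) in
theorem choose_cast_eq_zero [CharP Ω p] {a b i : ℕ} (h : ¬ p ^ a ∣ i) :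
    ((p ^ a * b).choose i : Ω) = 0 := by
  have h1 : ((X : Polynomial Ω) + 1) ^ (p ^ a * b) = expand Ω (p ^ a) ((X + 1) ^ b) := by
    rw [pow_mul, add_pow_char_pow, one_pow, map_pow, map_add, expand_X, map_one]
  have h2 := coeff_X_add_one_pow Ω (p ^ a * b) i
  rw [h1, coeff_expand (pow_pos hp.out.pos a), if_neg h] at h2
  exact h2.symm

variable [CharP k p] [CharP Ω p] [IsAlgClosed Ω]

/-- **The distance of `x (j + 1)` to `k<x j><w>`**, from the letters `c x_J ^ b` of `w`, `p` prime to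
`b`, of level `J > j`. -/
theorem dist_letters_bot (hk : Ctx0 k v) (hc : CompleteV v) (hr : ∀ n, x (n + 1) ^ p = x n)
    (h0 : x 0 ≠ 0) {S lam : ℝ} (hS : 0 < S) (hv : v (x 0) = -S)
    (hw : TL v (EW v (⊥ : IntermediateField k Ω) x) w (-lam)) (j : ℕ) (hR : 0 ≤ S + R)
    (H : ∀ ε : ℝ, 0 < ε → ∃ n, j < n ∧ ∃ P : k[X], v.Ge (-(lam + ε)) (w - aeval (x n) P) ∧
      ∀ J b : ℕ, j < J → J ≤ n → ¬ p ∣ b → P.coeff (p ^ (n - J) * b) ≠ 0 →
        b * S - lam * p ^ J ≤ S + R)
    {g : Ω} (hg : g ∈ cadj v (cadj v (⊥ : IntermediateField k Ω) (x j)) w)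
    (hD : v.Ge D (x (j + 1) - g)) : D ≤ R / p ^ (j + 1) := by
  have hp0 : (0 : ℝ) < p := by exact_mod_cast hp.out.pos
  have ht := tgt_bot hk hr h0 (by rw [hv]; linarith) j
  have hvn : ∀ n, x n ≠ 0 ∧ v (x n) = -S / p ^ n := fun n =>
    ⟨root_ne hr h0 n, by rw [val_root (v := v) hr h0 n, hv]⟩
  have hpj : (0 : ℝ) < (p : ℝ) ^ j := pow_pos hp0 j
  have hnb := ht.snd.nbx' p hk hc (r := R / p ^ j) (by
    rw [(hvn j).2, pow_one, mul_div_cancel₀ _ hp0.ne']
    exact (div_le_div_iff_of_pos_right hpj).2 (by linarith))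
  have h1 := dist_letters (s := -lam) hnb ht.mem hw (EW.cadj_le j) (fun ε hε => ?_) hg hD
  · rw [div_div, ← pow_succ] at h1
    exact h1
  obtain ⟨n, hn, P, h2, h3⟩ := H ε hε
  obtain ⟨m, rfl⟩ : ∃ m, n = j + m := ⟨n - j, by omega⟩
  refine ⟨m, by omega, P.map (algebraMap k Ω), map_mem_PI P, ?_, fun i hi0 him => ?_⟩
  · change v.Ge _ (w - (P.map (algebraMap k Ω)).eval (x (j + m)))
    rw [eval_map_algebraMap]
    exact h2.mono (by linarith)
  change v.Ge _ ((taylor (x (j + m)) (P.map (algebraMap k Ω))).coeff i)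
  rw [taylor_coeff, hasseDeriv_apply, Polynomial.sum, eval_finsetSum]
  refine RVal.Ge.sum _ _ fun b' _ => ?_
  rw [eval_monomial, coeff_map]
  by_cases hcf : P.coeff b' = 0
  · rw [hcf, map_zero, mul_zero, zero_mul]
    exact RVal.Ge.zero
  by_cases hch : ((b'.choose i : ℕ) : Ω) = 0
  · rw [hch, zero_mul, zero_mul]
    exact RVal.Ge.zero
  have hib : i ≤ b' := by
    by_contra h4
    apply hch
    rw [Nat.choose_eq_zero_of_lt (by omega), Nat.cast_zero]
  obtain ⟨a, b, hb, rfl⟩ := Nat.exists_eq_pow_mul_and_not_dvd (n := b') (by omega) p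
    hp.out.one_lt.ne'
  have hai : p ^ a ∣ i := by
    by_contra h4
    exact hch (choose_cast_eq_zero Ω h4)
  have ham : a < m := by
    by_contra h4
    push Not at h4
    exact absurd (Nat.le_of_dvd hi0 ((pow_dvd_pow p h4).trans hai)) (by omega)
  have h5 := h3 (j + m - a) b (by omega) (by omega) hb (by
    rwa [show j + m - (j + m - a) = a by omega])
  obtain ⟨hx1, hx2⟩ := hvn (j + m)
  have h6 : v.Ge (((p ^ a * b : ℕ) : ℝ) * (-S / p ^ (j + m)) - i * (-S / p ^ (j + m)))
      (((p ^ a * b).choose i : Ω) * algebraMap k Ω (P.coeff (p ^ a * b)) *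
        x (j + m) ^ (p ^ a * b - i)) := by
    have h7 := ((ge_natCast v ((p ^ a * b).choose i)).mul (hk.ge (P.coeff (p ^ a * b)))).mul
      (ge_pow (RVal.ge_self (v := v) (x (j + m))) (p ^ a * b - i))
    refine h7.mono ?_
    rw [hx2, Nat.cast_sub hib]
    linarith
  refine h6.mono ?_
  have hpn : (0 : ℝ) < (p : ℝ) ^ (j + m) := pow_pos hp0 _
  have hpa : (0 : ℝ) < (p : ℝ) ^ a := pow_pos hp0 _
  have h8 : ((p : ℝ) ^ a) * (b * S - lam * p ^ (j + m - a)) ≤ i * (S + R) := by
    calc ((p : ℝ) ^ a) * (b * S - lam * p ^ (j + m - a)) ≤ p ^ a * (S + R) :=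
          mul_le_mul_of_nonneg_left h5 hpa.le
      _ ≤ i * (S + R) := by
          refine mul_le_mul_of_nonneg_right ?_ hR
          exact_mod_cast Nat.le_of_dvd hi0 hai
  have h9 : ((p : ℝ) ^ a) * (b * S - lam * p ^ (j + m - a)) =
      p ^ a * b * S - lam * p ^ (j + m) := by
    have h10 : (p : ℝ) ^ (j + m) = p ^ a * p ^ (j + m - a) := by
      rw [← pow_add]
      congr 1
      omega
    rw [h10]
    ring
  rw [h9] at h8
  have h10 : -lam - i * (R / p ^ j) / p ^ m = (-lam * p ^ (j + m) - i * R) / p ^ (j + m) := by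
    rw [pow_add]
    field_simp
  have h11 : (((p ^ a * b : ℕ) : ℝ) * (-S / p ^ (j + m)) - i * (-S / p ^ (j + m))) =
      (-(p ^ a * b * S) + i * S) / p ^ (j + m) := by
    push_cast
    field_simp
    ring
  rw [h10, h11]
  refine (div_le_div_iff_of_pos_right hpn).2 ?_
  nlinarith

end

end Pool.Agent.TWC
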