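import Pool.Agent.Lib.TWC.JDC

/-!
# TANK W: volumes of two purely inseparable steps

* `near_of_der`: the elements of `M(a)` with a small derivative are near to `M`;
* `vol_swap`: `M(a, b)`, `a ^ p`, `b ^ p` in `M`:
  `dist(a, M) + dist(b, M(a)) = dist(b, M) + dist(a, M(b))`;
* `vol_next`: `F' = F ^ (1 / p) = F(x')`, `x'' = x' ^ (1 / p)`:
  `dist(z, F(z ^ p)) + dist(x', F(z)) = dist(z, F'(z ^ p)) + p dist(x'', F'(z))`.
-/

set_option autoImplicit false

open Polynomial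

namespace Pool.Agent.TWC

open Pool.Agent.H15JM (RVal)
open Pool.Agent.LU1 (VPos adj)
open Pool.Agent.D2 (Ctx0)
open Pool.Agent.D2P (hen clI mem_clI rootF mem_rootF)
open Pool.Agent.TWM Pool.Agent.TWM.C

universe u

variable {k Ω : Type u} [Field k] [Field Ω] [Algebra k Ω] {v : RVal Ω}
  {F M N R : IntermediateField k Ω} {z a b : Ω} {s c : ℝ}

section

theorem Dst.mono {c' : ℝ} (h : Dst v M a c) (h' : Dst v R a c') (hMR : M ≤ R) : c ≤ c' := by
  refine le_of_forall_pos_le_add fun ε hε => ?_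
  obtain ⟨g, hg, h1⟩ := h.near ε hε
  have := h'.le_of_ge (hMR hg) h1
  linarith

variable (p : ℕ) [hp : Fact p.Prime] [CharP k p] [CharP Ω p] [IsAlgClosed Ω]

/-- The elements with a small derivative. -/
theorem near_of_der (h0 : Ctx0 k v) {α : ℝ} (hs : PStep p v M a α) (hl : Lim v M α a) {f : Ω}
    (hf : f ∈ adj M a) {r : ℝ} (hr : v.Ge r (der p M a f)) {ε : ℝ} (hε : 0 < ε) :
    ∃ g ∈ M, v.Ge (r + α - ε) (f - g) := by
  have hp0 : (0 : ℝ) < p := by exact_mod_cast hp.out.pos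
  obtain ⟨e, he, h1⟩ := hl (ε / p) (by positivity)
  refine ⟨prj p M a e f, prj_mem p hs.pw he hf, ?_⟩
  obtain ⟨q, hq⟩ : ∃ q, p = q + 1 := ⟨p - 1, by have := hp.out.pos; omega⟩
  have h2 : f - prj p M a e f = -∑ j ∈ Finset.range q,
      (e - a) ^ (j + 1) * (((j + 1).factorial : Ω)⁻¹ * (der p M a)^[j + 1] f) := by
    rw [prj_eq p h0 hs e hf]
    conv_lhs => rw [hq]
    rw [Finset.sum_range_succ', pow_zero, one_mul, Nat.factorial_zero, Nat.cast_one, inv_one,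
      one_mul, Function.iterate_zero, id_eq, ← hq]
    ring
  rw [h2]
  refine (RVal.Ge.sum _ _ fun j hj => ?_).neg
  have hj' : j + 1 < p := by
    rw [Finset.mem_range] at hj
    omega
  obtain ⟨h3, h4⟩ := nat_val h0 (fact_ne (k := k) p hj')
  have h5 : v.Ge 0 (((j + 1).factorial : Ω)⁻¹) := fun _ => by rw [v.map_inv h3, h4, neg_zero]
  have h6 := der_iter_ge p h0 hs j (der_mem p hs.pw hf) hr
  rw [← Function.iterate_succ_apply] at h6
  refine ((ge_pow (ge_sub_comm h1) (j + 1)).mul (h5.mul h6)).mono ?_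
  have h7 : ((j + 1 : ℕ) : ℝ) ≤ p := by exact_mod_cast hj'.le
  have h8 : ((j + 1 : ℕ) : ℝ) * (ε / p) ≤ ε := by
    calc ((j + 1 : ℕ) : ℝ) * (ε / p) ≤ p * (ε / p) := mul_le_mul_of_nonneg_right h7 (by positivity)
      _ = ε := mul_div_cancel₀ _ hp0.ne'
  push_cast at h8 ⊢
  nlinarith

/-- One inequality. -/
theorem swap_le (h0 : Ctx0 k v) {α β α' β' : ℝ} (hM : Cld v M) (hMb : Cld v (adj M b))
    (ha : a ^ p ∈ M) (hα : Dst v M a α) (hβ' : Dst v (adj M a) b β') (hβ : Dst v M b β)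
    (hα' : Dst v (adj M b) a α') : α + β' ≤ β + α' := by
  have hαα' : α ≤ α' := hα.mono hα' (D2P.mem_adj_self M b).2
  rcases le_or_gt β' β with hc | hc
  · linarith
  have hs : PStep p v M a α := ⟨hM, ha, hα.far⟩
  have hs' : PStep p v (adj M b) a α' := ⟨hMb, (D2P.mem_adj_self M b).2 ha, hα'.far⟩
  refine le_of_forall_pos_le_add fun ε hε => ?_
  obtain ⟨h, hh, h1⟩ := hβ'.near (min (ε / 2) ((β' - β) / 2))
    (lt_min (by linarith) (by linarith))
  obtain ⟨H, hH, hdeg, rfl⟩ := exists_rep p ha hh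
  set m := min (ε / 2) ((β' - β) / 2) with hm
  have hm1 : m ≤ ε / 2 := min_le_left _ _
  have hm2 : m ≤ (β' - β) / 2 := min_le_right _ _
  -- the derivative
  have h2 : v.Ge (β' - m - α') ((derivative H).eval a) := by
    have h3 : H - C b ∈ PI (adj M b) := sub_mem (PI_mono (D2P.mem_adj_self M b).2 hH)
      (C_mem_PI (D2P.mem_adj_self M b).1)
    have h4 := der_ge p h0 hs' (eval_mem_adj h3) (c := β' - m) (by
      rw [eval_sub, eval_C]
      exact ge_sub_comm h1)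
    rw [der_poly p h0 hs' h3, derivative_sub, derivative_C, sub_zero] at h4
    exact h4
  rw [← der_poly p h0 hs hH] at h2
  obtain ⟨g, hg, h5⟩ := near_of_der p h0 hs hα.near (eval_mem_adj hH) h2 (ε := ε / 2) (by linarith)
  by_contra hcon
  push Not at hcon
  have h6 : v.Ge (min (β' - m) (β' - m - α' + α - ε / 2)) (b - g) := by
    rw [show b - g = (b - H.eval a) + (H.eval a - g) by ring]
    exact (h1.mono (min_le_left _ _)).add (h5.mono (min_le_right _ _))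
  have h7 := hβ.le_of_ge hg h6
  rcases min_le_iff.1 h7 with h8 | h8
  · linarith
  · linarith

/-- **Volumes.** -/
theorem vol_swap (h0 : Ctx0 k v) {α β α' β' : ℝ} (hM : Cld v M) (hMa : Cld v (adj M a))
    (hMb : Cld v (adj M b)) (ha : a ^ p ∈ M) (hb : b ^ p ∈ M) (hα : Dst v M a α)
    (hβ' : Dst v (adj M a) b β') (hβ : Dst v M b β) (hα' : Dst v (adj M b) a α') :
    α + β' = β + α' :=
  le_antisymm (swap_le p h0 hM hMb ha hα hβ' hβ hα') (by
    have := swap_le p h0 hM hMa hb hβ hα' hα hβ'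
    linarith)

omit [CharP k p] [IsAlgClosed Ω] in
/-- `F(x')(z ^ p) = F(z ^ p)(x')` -/
theorem adj_cadj_swap (hc : CompleteV v) {x' : Ω} (hx : x' ^ p ∈ F) (hN1 : F ≤ N) (hN2 : x' ∈ N)
    (hN3 : N ≤ cadj v F x') : adj (cadj v F (z ^ p)) x' = cadj v N (z ^ p) := by
  have hcl : Cld v (adj (cadj v F (z ^ p)) x') := cld_adj hc (cld_cadj _ _ _)
    (isAlgebraic_of_pow_mem p (le_cadj _ _ _ hx))
  refine le_antisymm (D2P.adj_le (cadj_mono hN1 _) (le_cadj _ _ _ hN2)) (cadj_le hcl ?_ ?_)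
  · refine hN3.trans (cadj_le hcl ?_ (D2P.mem_adj_self _ _).1)
    exact (le_cadj _ _ _).trans (D2P.mem_adj_self _ _).2
  · exact (D2P.mem_adj_self _ _).2 (self_mem_cadj _ _ _)

/-- **The volume identity.** -/
theorem vol_next (h0 : Ctx0 k v) (hc : CompleteV v) {x' x'' : Ω} (hx : x' ^ p ∈ F)
    (hx' : x'' ^ p = x') (hR : ∀ a ∈ F, ∃ b ∈ N, b ^ p = a) (hP : ∀ a ∈ N, a ^ p ∈ F)
    (hN2 : x' ∈ N) (hN3 : N ≤ cadj v F x') {s₀ s₁ d₀ d₁ : ℝ}
    (hs₀ : Dst v (cadj v F (z ^ p)) z s₀) (hs₁ : Dst v (cadj v N (z ^ p)) z s₁)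
    (hd₀ : Dst v (cadj v F z) x' d₀) (hd₁ : Dst v (cadj v N z) x'' d₁) :
    s₀ + d₀ = s₁ + p * d₁ := by
  have hp0 : (0 : ℝ) < p := by exact_mod_cast hp.out.pos
  have hN1 : F ≤ N := fun a ha => by
    obtain ⟨b, hb, rfl⟩ := hR a ha
    exact pow_mem hb p
  have hpF : x' ^ p ∈ cadj v F (z ^ p) := le_cadj _ _ _ hx
  have hMx : Cld v (adj (cadj v F (z ^ p)) x') := cld_adj hc (cld_cadj _ _ _)
    (isAlgebraic_of_pow_mem p hpF)
  have hMz : Cld v (adj (cadj v F (z ^ p)) z) := cld_adj hc (cld_cadj _ _ _)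
    (isAlgebraic_of_pow_mem p (self_mem_cadj _ _ _))
  have e1 := adj_cadj_swap (z := z) p hc hx hN1 hN2 hN3
  have e2 := cadj_eq_adj p hc F z
  have e3 : cadj v N z = D2P.rootF p 1 (cadj v F (z ^ p)) := by
    rw [eq_rootF1 p hR hP, rootF_cadj]
  have hx'M : x' ∉ cadj v F (z ^ p) := fun h => hd₀.far ⟨x', by
    rw [e2]
    exact (D2P.mem_adj_self _ _).2 h, by rw [sub_self]; exact Gt.zero⟩
  obtain ⟨e, he⟩ := Dst.exists (cld_cadj v F (z ^ p)) hx'M
  have h1 := he.rootF p hx'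
  rw [← e3] at h1
  have h2 : d₁ = e / p := hd₁.uniq h1
  rw [e2] at hd₀
  rw [← e1] at hs₁
  have h3 := vol_swap p h0 (cld_cadj _ _ _) hMz hMx (self_mem_cadj _ _ _) hpF hs₀ hd₀ he hs₁
  rw [h2, mul_div_cancel₀ _ hp0.ne']
  linarith

end

end Pool.Agent.TWC
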