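import Pool.Agent.Lib.TWC.Irr2
import Pool.Agent.Lib.TWC.Irr3
import Pool.Agent.Lib.TWC.Vol2
import Pool.Agent.Lib.TWC.CStar
import Pool.Agent.Lib.TWS.MonA

/-!
# TANK W, dimension 4: a floor of irrational radius, the tight element

Row IRR, assembly. `x n` roots, `v (x 0) = -S < 0`, `w` of transcendental type over `EW v ⊥ x` of
radius `-lam ≤ 0`, `lam / S` irrational, `C` the closure of `k(x 0, w)`, `x 1 ∉ C`, the values of `C`
divisible by `p`.

* `notMem_next`: `x (n + 1) ∉ C(x n)`;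
* **`exists_tgt_of_const`**: no drops from `i` on: an element near to some `x m` is tight in `C`;
* **`strict_or_tgt`**: `C` is strict over all the fields `cl k(x i)`, or has such a tight element.
-/

set_option autoImplicit false

open Polynomial

namespace Pool.Agent.TWC

open Pool.Agent.H15JM (RVal)
open Pool.Agent.LU1 (VPos adj)
open Pool.Agent.D2 (Ctx0)
open Pool.Agent.D2P (clI mem_clI rootF)
open Pool.Agent.TWM Pool.Agent.TWM.C
open Pool.Agent.TWS (VG)
open Irr (bt)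

universe u

variable {k Ω : Type u} [Field k] [Field Ω] [Algebra k Ω] {v : RVal Ω}
  {P C : IntermediateField k Ω} {x : ℕ → Ω} {w : Ω} {S lam : ℝ}

section

variable (p : ℕ) [hp : Fact p.Prime] [CharP k p] [CharP Ω p] [IsAlgClosed Ω]

/-- The powers of the elements of `P(x (n + 1), w)` are in `P(x n, w)`. -/
theorem pow_mem_prev (hP : ∀ a ∈ P, ∃ b ∈ P, b ^ p = a) (hr : ∀ n, x (n + 1) ^ p = x n) (n : ℕ)
    {a : Ω} (ha : a ∈ cadj v (cadj v P (x (n + 1))) w) : a ^ p ∈ cadj v (cadj v P (x n)) w := by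
  have h1 : cadj v (cadj v P (x (n + 1))) w ≤ rootF p 1 (cadj v (cadj v P (x n)) w) := by
    refine cadj_le (cld_rootF p (cld_cadj _ _ _)) ?_ ?_
    · rw [← rootF_cadj_perf p hP hr n]
      intro b hb
      rw [mem_rootF1] at hb ⊢
      exact le_cadj _ _ _ hb
    · rw [mem_rootF1]
      exact pow_mem (self_mem_cadj _ _ _) p
  exact (mem_rootF1 p).1 (h1 ha)

theorem notMem_next (hP : ∀ a ∈ P, ∃ b ∈ P, b ^ p = a) (hr : ∀ n, x (n + 1) ^ p = x n)
    (h1 : x 1 ∉ cadj v (cadj v P (x 0)) w) : ∀ n, x (n + 1) ∉ cadj v (cadj v P (x n)) w := by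
  intro n
  induction n with
  | zero => exact h1
  | succ n ih =>
    intro h2
    apply ih
    rw [← hr (n + 1)]
    exact pow_mem_prev p hP hr n h2

end

section

variable (p : ℕ) [hp : Fact p.Prime] [CharP k p] [CharP Ω p] [IsAlgClosed Ω]

/-- If the value of `y` is a value of `C`, the distance of `y` to `C` is larger. -/
theorem Dst.val_lt (hk : Ctx0 k v) {y : Ω} {d : ℝ} (h : Dst v C y d) (hy0 : y ≠ 0)
    (hval : v y ∈ VG v C) : v y < d := by
  obtain ⟨c, hc, hc0, hcv⟩ := hval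
  obtain ⟨a, ha0, ha⟩ := hk.res (y / c) (div_ne_zero hy0 hc0) (by
    rw [v.map_div hy0 hc0, hcv, sub_self])
  have h1 : y - c * algebraMap k Ω a ≠ 0 := by
    intro h1
    have := h.le (mul_mem hc (C.algebraMap_mem a))
    exact this.1 h1
  have h2 : y - c * algebraMap k Ω a = c * (y / c - algebraMap k Ω a) := by
    rw [mul_sub, mul_div_cancel₀ _ hc0]
  have h3 : y / c - algebraMap k Ω a ≠ 0 := by
    intro h3
    rw [h2, h3, mul_zero] at h1
    exact h1 rfl
  have h4 : v (y - c * algebraMap k Ω a) = v y + v (y / c - algebraMap k Ω a) := by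
    rw [h2, v.map_mul hc0 h3, hcv]
  have h5 := ha h3
  have h6 := (h.le (mul_mem hc (C.algebraMap_mem a))).2
  linarith

/-- **No drops from `i` on: there is a tight element of `C` near to some `x m`.** -/
theorem exists_tgt_of_const (hk : Ctx0 k v) (hc : CompleteV v) (hr : ∀ n, x (n + 1) ^ p = x n)
    (h0 : x 0 ≠ 0) (hS : 0 < S) (hv : v (x 0) = -S) (hlam : 0 ≤ lam)
    (hw : TL v (EW v (⊥ : IntermediateField k Ω) x) w (-lam)) (hirr : ∀ q : ℚ, lam ≠ q * S)
    (hx1 : x 1 ∉ cadj v (cadj v (⊥ : IntermediateField k Ω) (x 0)) w)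
    (hval : ∀ n, v (x n) ∈ VG v (cadj v (cadj v (⊥ : IntermediateField k Ω) (x 0)) w))
    {i : ℕ} {r : ℝ} (hD : ∀ j, i ≤ j →
      Dst v (cadj v (cadj v (⊥ : IntermediateField k Ω) (x j)) w) (x (j + 1)) (r / p ^ (j + 1))) :
    v (x 0) < r ∧ (∃ (m : ℕ) (g : ℕ → Ω),
      Tgt p v (cadj v (cadj v (⊥ : IntermediateField k Ω) (x 0)) w) g (r / p ^ m) ∧
      Gt v (r / p ^ m) (x m - g 0)) ∧
      ∀ j, i ≤ j → Tgt p v (cadj v (cadj v (⊥ : IntermediateField k Ω) (x j)) w)
        (fun n => x (j + n)) (r / p ^ j) := by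
  classical
  obtain ⟨C, hCe⟩ : ∃ C, C = cadj v (cadj v (⊥ : IntermediateField k Ω) (x 0)) w := ⟨_, rfl⟩
  rw [← hCe] at hx1 hval ⊢
  have hC : Cld v C := by
    rw [hCe]
    exact cld_cadj _ _ _
  have hxC : x 0 ∈ C := by
    rw [hCe]
    exact le_cadj _ _ _ (self_mem_cadj _ _ _)
  have hwC : w ∈ C := by
    rw [hCe]
    exact self_mem_cadj _ _ _
  have hCN : ∀ j, C ≤ cadj v (cadj v (⊥ : IntermediateField k Ω) (x j)) w := by
    intro j
    rw [hCe]
    refine cadj_mono (cadj_le (cld_cadj _ _ _) bot_le ?_) w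
    have h1 := root_pow_add hr 0 j
    rw [zero_add] at h1
    rw [← h1]
    exact pow_mem (self_mem_cadj _ _ _) _
  have hxm : ∀ m, 1 ≤ m → x m ∉ C := by
    intro m hm h1
    obtain ⟨j, rfl⟩ : ∃ j, m = 1 + j := ⟨m - 1, by omega⟩
    apply hx1
    rw [← root_pow_add hr 1 j]
    exact pow_mem h1 _
  have hps := Irr.ps_pos p
  -- the distances
  have hex : ∀ m, ∃ d : ℝ, 1 ≤ m → Dst v C (x m) d := by
    intro m
    by_cases hm : 1 ≤ m
    · obtain ⟨d, hd⟩ := Dst.exists hC (hxm m hm)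
      exact ⟨d, fun _ => hd⟩
    · exact ⟨0, fun h => absurd h hm⟩
  choose D hDst using hex
  obtain ⟨Δ, hΔ⟩ : ∃ Δ : ℕ → ℝ, ∀ m, Δ m = p ^ m * D m + S := ⟨_, fun _ => rfl⟩
  have hΔD : ∀ m, (Δ m - S) / p ^ m = D m := by
    intro m
    rw [hΔ, add_sub_cancel_right, mul_div_cancel_left₀ _ (hps m).ne']
  have hΔp : ∀ m, 1 ≤ m → 0 < Δ m := by
    intro m hm
    have h1 := (hDst m hm).val_lt hk (root_ne hr h0 m) (hval m)
    rw [Irr.val_x hr h0 hv m, ← hΔD m, sub_div] at h1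
    have h2 : 0 < Δ m / p ^ m := by linarith
    exact (div_pos_iff_of_pos_right (hps m)).1 h2
  have hdat := Irr.dat hk hr h0 hS hv hlam hw.lim hxC hwC hΔp fun m hm => by
    rw [hΔD]
    exact hDst m hm
  -- the lower bound
  have hle1 : ∀ m, 1 ≤ m → r / p ^ m ≤ D m := by
    intro m hm
    have h1 : r + S ≤ Δ m := by
      refine le_of_forall_pos_le_add fun ε hε => ?_
      obtain ⟨J₀, hJ₀⟩ := hdat.limsup_le hirr hm hε
      obtain ⟨j, hj⟩ : ∃ j, j = max i J₀ := ⟨_, rfl⟩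
      have hR : (0 : ℝ) ≤ S + (Δ m + ε - S) := by
        have := hΔp m hm
        linarith
      have h2 : r / p ^ (j + 1) ≤ (Δ m + ε - S) / p ^ (j + 1) := by
        refine le_of_forall_pos_le_add fun ε' hε' => ?_
        obtain ⟨g, hg, h3⟩ := (hD j (by rw [hj]; exact le_max_left _ _)).near ε' hε'
        have h4 := dist_letters_bot hk hc hr h0 hS hv hw j hR (fun ε₁ hε₁ => ?_) hg h3
        · linarith
        · obtain ⟨n, hn, P, hP, hPc⟩ := Irr.exists_apr hk hr h0 hS hv hlam hw.lim hε₁ (j + 1)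
          refine ⟨n, by omega, P, hP, fun J b hJ hJn hb hne => ?_⟩
          rw [mul_comm (p ^ (n - J))] at hne
          have h5 : Irr.Pres k p v x w S lam J b := by
            refine ⟨by omega, hb, n, P, ε₁, hJn, hε₁, hP, ?_, hne⟩
            rw [← Irr.mul_div_pow hJn]
            exact hPc _ hne
          have h6 := hJ₀ J ((by rw [hj]; exact le_max_right _ _ : J₀ ≤ j).trans hJ.le) b h5
          unfold Irr.bt at h6
          linarith
      rw [div_le_div_iff_of_pos_right (hps _)] at h2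
      linarith
    rw [← hΔD m, div_le_div_iff_of_pos_right (hps m)]
    linarith
  have heq : ∀ m, i < m → D m = r / p ^ m := by
    intro m hm
    refine le_antisymm ?_ (hle1 m (by omega))
    obtain ⟨j, rfl⟩ : ∃ j, m = j + 1 := ⟨m - 1, by omega⟩
    exact (hDst (j + 1) (by omega)).mono (hD j (by omega)) (hCN j)
  have hSr : v (x 0) < r := by
    have h1 := hΔp (i + 1) (by omega)
    rw [hΔ, heq (i + 1) (by omega), mul_div_cancel₀ _ (hps _).ne'] at h1
    rw [hv]
    linarith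
  have hti : ∀ j, i ≤ j → Tgt p v (cadj v (cadj v (⊥ : IntermediateField k Ω) (x j)) w)
      (fun n => x (j + n)) (r / p ^ j) := by
    intro j hij
    refine ⟨cld_cadj _ _ _, le_cadj _ _ _ (self_mem_cadj _ _ _), fun n => hr (j + n),
      fun n => ?_⟩
    have hxi : x (j + (n + 1)) ∉ cadj v (cadj v (⊥ : IntermediateField k Ω) (x j)) w := by
      intro h1
      have h2 := (hD j hij).far
      refine h2 ⟨x (j + 1), ?_, by rw [sub_self]; exact Gt.zero⟩
      rw [← root_pow_add hr (j + 1) n, show j + 1 + n = j + (n + 1) by omega]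
      exact pow_mem h1 _
    obtain ⟨d, hd⟩ := Dst.exists (cld_cadj v _ _) hxi
    have h1 := (hDst (j + (n + 1)) (by omega)).mono hd (hCN j)
    have h2 : d ≤ r / p ^ (j + n + 1) := by
      refine hd.mono (hD (j + n) (by omega)) (cadj_mono (cadj_le (cld_cadj _ _ _) bot_le ?_) w)
      rw [← root_pow_add hr j n]
      exact pow_mem (self_mem_cadj _ _ _) _
    rw [heq _ (by omega)] at h1
    have h3 : d = r / p ^ j / p ^ (n + 1) := by
      rw [div_div, ← pow_add]
      exact le_antisymm h2 h1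
    rw [← h3]
    exact hd
  refine ⟨hSr, ?_, hti⟩
  have hfind : ∃ m, ∀ j, m < j → D j = r / p ^ j := ⟨i, heq⟩
  obtain ⟨m, hm, hmin⟩ : ∃ m, (∀ j, m < j → D j = r / p ^ j) ∧
      ∀ m' < m, ¬ ∀ j, m' < j → D j = r / p ^ j :=
    ⟨Nat.find hfind, Nat.find_spec hfind, fun m' h => Nat.find_min hfind h⟩
  have hpp : ∀ j : ℕ, r / p ^ m / p ^ (j + 1) = r / p ^ (m + (j + 1)) := by
    intro j
    rw [div_div, ← pow_add]
  rcases Nat.eq_zero_or_pos m with h1 | h1
  · subst h1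
    refine ⟨0, x, ⟨hC, hxC, hr, fun n => ?_⟩, by rw [sub_self]; exact Gt.zero⟩
    rw [hpp, zero_add, ← hm (n + 1) (by omega)]
    exact hDst (n + 1) (by omega)
  · have hne : D m ≠ r / p ^ m := by
      intro h2
      refine hmin (m - 1) (by omega) fun j hj => ?_
      rcases eq_or_ne j m with rfl | h3
      · exact h2
      · exact hm j (by omega)
    have hlt : r / p ^ m < D m := lt_of_le_of_ne (hle1 m h1) (Ne.symm hne)
    obtain ⟨g0, hg0, h2⟩ := (hDst m h1).near ((D m - r / p ^ m) / 2) (by linarith)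
    obtain ⟨g, rfl, hg⟩ := exists_roots (p := p) g0
    have h3 : Gt v (r / p ^ m) (x m - g 0) := Gt.of_ge h2 (by linarith)
    refine ⟨m, g, ⟨hC, hg0, hg, fun n => ?_⟩, h3⟩
    have h4 := gt_root (u := fun n => x (m + n)) hg (fun n => hr (m + n)) h3 (n + 1)
    refine Dst.congr ?_ h4
    rw [hpp, ← hm (m + (n + 1)) (by omega)]
    exact hDst _ (by omega)

/-- **`C` is strict over all the fields `cl k(x i)`, or has a tight element near to some `x m`.** -/
theorem strict_or_tgt [IsAlgClosed k] (hk : Ctx0 k v) (hc : CompleteV v)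
    (hr : ∀ n, x (n + 1) ^ p = x n)
    (h0 : x 0 ≠ 0) (hS : 0 < S) (hv : v (x 0) = -S) (hlam : 0 ≤ lam)
    (hw : TL v (EW v (⊥ : IntermediateField k Ω) x) w (-lam)) (hirr : ∀ q : ℚ, lam ≠ q * S)
    (hx1 : x 1 ∉ cadj v (cadj v (⊥ : IntermediateField k Ω) (x 0)) w)
    (hval : ∀ n, v (x n) ∈ VG v (cadj v (cadj v (⊥ : IntermediateField k Ω) (x 0)) w)) :
    (∀ i l, 1 ≤ l → Sd v (cadj v (⊥ : IntermediateField k Ω) (x i)) w l (l * -lam)) ∨
    ∃ r, v (x 0) < r ∧ (∃ (m : ℕ) (g : ℕ → Ω),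
      Tgt p v (cadj v (cadj v (⊥ : IntermediateField k Ω) (x 0)) w) g (r / p ^ m) ∧
      Gt v (r / p ^ m) (x m - g 0)) ∧ ∃ i, ∀ j, i ≤ j →
      Tgt p v (cadj v (cadj v (⊥ : IntermediateField k Ω) (x j)) w) (fun n => x (j + n))
        (r / p ^ j) := by
  have hP : ∀ a ∈ (⊥ : IntermediateField k Ω), ∃ b ∈ (⊥ : IntermediateField k Ω), b ^ p = a := by
    intro a ha
    obtain ⟨c, rfl⟩ := IntermediateField.mem_bot.1 ha
    obtain ⟨d, rfl⟩ := IsAlgClosed.exists_pow_nat_eq c hp.out.pos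
    exact ⟨algebraMap k Ω d, IntermediateField.algebraMap_mem _ d, by rw [map_pow]⟩
  rcases jd_or_const_ew p hk hc hP hr hw (notMem_next p hP hr hx1) with h1 | ⟨i, r, -, hD⟩
  · exact Or.inl h1
  · obtain ⟨h1, h2, h3⟩ := exists_tgt_of_const p hk hc hr h0 hS hv hlam hw hirr hx1 hval hD
    exact Or.inr ⟨r, h1, h2, i, h3⟩

end

end Pool.Agent.TWC
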