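import Pool.Agent.Lib.TWC.Irr4
import Pool.Agent.Lib.TWC.TopD

/-!
# TANK W, leaf (B1d): irrational first radius

* `Sd.scale`: strictness and multiplication by an element of the base;
* **`T2.strF_or_tgt`**: a base of irrational radius is strict, or a tight element exists in
  `cl k(X 0, y)` (near to some `X m`), and `X j` is tight in `cl k(X j, y)` for all large `j`.
-/

set_option autoImplicit false

open Polynomial

namespace Pool.Agent.TWC

open Pool.Agent.H15JM (RVal)
open Pool.Agent.LU1 (VPos adj)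
open Pool.Agent.D2 (Ctx0)
open Pool.Agent.D2P (clI mem_clI)
open Pool.Agent.TWM
open Pool.Agent.TWS (VG)

universe u

variable {k Ω : Type u} [Field k] [Field Ω] [Algebra k Ω] {v : RVal Ω}
  {F : IntermediateField k Ω} {z : Ω} {s : ℝ}

theorem Sd.scale {c : Ω} (hc : c ∈ F) (hc0 : c ≠ 0) {l : ℕ} {b : ℝ}
    (h : Sd v F (c * z) l (b + l * v c)) : Sd v F z l b := by
  obtain ⟨η, hη, h1⟩ := h
  refine ⟨η, hη, fun f hf r hr => ?_⟩
  have h2 : f.comp (C c⁻¹ * X) ∈ PI F := by
    intro n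
    rw [comp_C_mul_X_coeff]
    exact mul_mem (hf n) (pow_mem (inv_mem hc) n)
  have h3 : (f.comp (C c⁻¹ * X)).eval (c * z) = f.eval z := by
    rw [eval_comp, eval_mul, eval_C, eval_X, inv_mul_cancel_left₀ hc0]
  have h4 := h1 _ h2 r (by rwa [h3])
  have h5 : taylor (c * z) (f.comp (C c⁻¹ * X)) = (taylor z f).comp (C c⁻¹ * X) := by
    rw [taylor_apply, taylor_apply, comp_assoc, comp_assoc]
    congr 1
    rw [mul_comp, C_comp, X_comp, add_comp, X_comp, C_comp, mul_add, ← C_mul,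
      inv_mul_cancel_left₀ hc0]
  rw [h5, comp_C_mul_X_coeff] at h4
  have h6 : (taylor z f).coeff l = (taylor z f).coeff l * c⁻¹ ^ l * c ^ l := by
    rw [mul_assoc, ← mul_pow, inv_mul_cancel₀ hc0, one_pow, mul_one]
  rw [h6]
  refine (h4.mul (TWM.ge_pow (RVal.ge_self c) l)).mono ?_
  apply le_of_eq
  ring

section

variable {p : ℕ} [hp : Fact p.Prime] [CharP k p] [CharP Ω p] [IsAlgClosed k] [IsAlgClosed Ω]
  {X : ℕ → Ω} {y : Ω}

omit [CharP k p] [CharP Ω p] [IsAlgClosed k] [IsAlgClosed Ω] in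
theorem T2.val_mem (h : T2 p k v X y s) (n : ℕ) : v (X n) ∈ VG v (CP (k := k) v (X 0) y) := by
  induction n with
  | zero =>
    exact VG.self (le_cadj _ _ _ (self_mem_cadj _ _ _)) h.ne
  | succ n ih =>
    have h1 : v (X (n + 1)) = v (X n) / p := by
      have hne := root_ne h.root h.ne (n + 1)
      have hp0 : (p : ℝ) ≠ 0 := by exact_mod_cast hp.out.ne_zero
      rw [eq_div_iff hp0, ← h.root n, v.map_pow hne, mul_comm]
    rw [h1]
    exact h.div _ ih

/-- **Irrational first radius**: strict, or tight elements. -/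
theorem T2.strF_or_tgt (hk : Ctx0 k v) (hc : CompleteV v) (h : T2 p k v X y s)
    (hirr : ¬ RatR (v (X 0)) s) :
    StrF k v X y s ∨
    ∃ r, v (X 0) < r ∧
      (∃ (m : ℕ) (g : ℕ → Ω), Tgt p v (CP (k := k) v (X 0) y) g (r / p ^ m) ∧
        Gt v (r / p ^ m) (X m - g 0)) ∧
      ∃ i, ∀ j, i ≤ j →
        Tgt p v (CP (k := k) v (X j) y) (fun n => X (j + n)) (r / p ^ j) := by
  obtain ⟨S, hS⟩ : ∃ S : ℝ, S = -v (X 0) := ⟨_, rfl⟩
  have hS0 : 0 < S := by
    rw [hS]
    exact neg_pos.2 h.neg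
  have hv : v (X 0) = -S := by rw [hS, neg_neg]
  obtain ⟨N, hN⟩ := exists_nat_ge (s / S)
  rw [div_le_iff₀ hS0] at hN
  have hXi : ∀ i, X 0 ∈ cadj v (⊥ : IntermediateField k Ω) (X i) := by
    intro i
    have h1 := root_pow_add h.root 0 i
    rw [zero_add] at h1
    rw [← h1]
    exact pow_mem (self_mem_cadj _ _ _) _
  have hXE : X 0 ∈ EW v (⊥ : IntermediateField k Ω) X := EW.cadj_le 0 (hXi 0)
  have hc0 : X 0 ^ N ≠ 0 := pow_ne_zero _ h.ne
  have hvc : v (X 0 ^ N) = -(N * S) := by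
    rw [v.map_pow h.ne, hv]
    ring
  have hcad : ∀ i, cadj v (cadj v (⊥ : IntermediateField k Ω) (X i)) (X 0 ^ N * y) =
      cadj v (cadj v (⊥ : IntermediateField k Ω) (X i)) y := by
    intro i
    have h1 := cadj_affine (v := v) (z := y) (pow_mem (hXi i) N) hc0 (zero_mem _)
    rwa [add_zero] at h1
  have hTL : TL v (EW v (⊥ : IntermediateField k Ω) X) (X 0 ^ N * y) (-(N * S - s)) := by
    have h1 := h.tl.affine (pow_mem hXE N) hc0 (zero_mem _)
    rw [add_zero, hvc] at h1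
    convert h1 using 1
    ring
  have hirr' : ∀ q : ℚ, N * S - s ≠ q * S := by
    intro q hq
    refine hirr ⟨q.den, q.den_nz, q.num - N * q.den, ?_⟩
    have h1 : (q.den : ℝ) * q = q.num := by
      exact_mod_cast Rat.den_mul_eq_num q
    push_cast
    rw [hv]
    have h2 : s = N * S - q * S := by linarith
    rw [h2]
    linear_combination (-S) * h1
  have h1 := strict_or_tgt p hk hc h.root h.ne hS0 hv (by linarith) hTL hirr'
    (by rw [hcad 0]; exact h.nr) (fun n => by rw [hcad 0]; exact h.val_mem n)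
  rcases h1 with h1 | ⟨r, h1, h2, i, h3⟩
  · left
    intro i l hl
    refine Sd.scale (pow_mem (hXi i) N) hc0 ?_
    have h2 := h1 i l hl
    convert h2 using 1
    rw [hvc]
    ring
  · refine Or.inr ⟨r, h1, ?_, i, fun j hj => ?_⟩
    · rw [hcad 0] at h2
      exact h2
    · have h4 := h3 j hj
      rw [hcad j] at h4
      exact h4

end

end Pool.Agent.TWC
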