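import Pool.Agent.Lib.TWC.Irr5

/-!
# TANK W: strict, or gaps bounded below (any radius)

`X n` roots, `v (X 0) < 0`, `y` of transcendental type over `EW v ⊥ X` of radius `s` (rational or
not), `C = cl k(X 0, y)`, `X 1 ∉ C`, the values of `C` divisible by `p`.

* `exists_aeval_near1`: the elements of `cl k(t)` are polynomials in `t` modulo `O(>0)`;
* `Irr.Pres.le_of_apr`: the letters of level `J` and the approximations of level `< J`;
* **`T2.strF_or_gap`**: `y` is strict over all the fields `N_j = cl k(X j)`, or there is `δ > 0` with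
  `dist(y, N_j) ≤ s - δ / p ^ j` for infinitely many `j`.
-/

set_option autoImplicit false

open Polynomial

namespace Pool.Agent.TWC

open Pool.Agent.H15JM (RVal)
open Pool.Agent.LU1 (VPos adj)
open Pool.Agent.D2 (Ctx0)
open Pool.Agent.D2P (clI mem_clI)
open Pool.Agent.TWM
open Pool.Agent.TWS (VG)

universe u

variable {k Ω : Type u} [Field k] [Field Ω] [Algebra k Ω] {v : RVal Ω}
  {F : IntermediateField k Ω} {x : ℕ → Ω} {w z : Ω} {S lam s : ℝ}

/-- The elements of the closure of `k(t)` are polynomials in `t` modulo `O(>0)`. -/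
theorem exists_aeval_near1 (hk : Ctx0 k v) {t : Ω} (ht0 : t ≠ 0) (ht : v t < 0) {e : Ω}
    (he : e ∈ cadj v (⊥ : IntermediateField k Ω) t) : ∃ P : k[X], Gt v 0 (e - aeval t P) := by
  obtain ⟨e', he', h1⟩ := (mem_clI.1 he) 1
  obtain ⟨G, hG, H, hH, hH0, h3⟩ := exists_frac he'
  obtain ⟨A, rfl⟩ := exists_kpoly hG
  obtain ⟨B, rfl⟩ := exists_kpoly hH
  rw [eval_map_algebraMap] at hH0 h3
  rw [eval_map_algebraMap] at h3
  have hB : B ≠ 0 := by
    rintro rfl
    exact hH0 (map_zero _)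
  have h3 : e' = aeval t A / aeval t B := by
    rw [eq_div_iff hH0]
    exact h3
  obtain ⟨hB1, hB2⟩ := val_aeval_neg hk ht0 ht hB
  refine ⟨A / B, ?_⟩
  have h4 : aeval t A = aeval t B * aeval t (A / B) + aeval t (A % B) := by
    rw [← map_mul, ← map_add, EuclideanDomain.div_add_mod]
  have h5 : e' - aeval t (A / B) = aeval t (A % B) / aeval t B := by
    rw [h3, h4, add_div, mul_div_cancel_left₀ _ hB1]
    ring
  have h6 : Gt v 0 (e' - aeval t (A / B)) := by
    rw [h5]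
    by_cases hR : A % B = 0
    · rw [hR, map_zero, zero_div]
      exact Gt.zero
    · obtain ⟨hR1, hR2⟩ := val_aeval_neg hk ht0 ht hR
      intro _
      rw [v.map_div hR1 hB1, hR2, hB2]
      have h7 : (A % B).natDegree < B.natDegree :=
        natDegree_lt_natDegree hR (EuclideanDomain.mod_lt A hB)
      have h8 : ((A % B).natDegree : ℝ) < B.natDegree := by exact_mod_cast h7
      nlinarith
  have h7 := (Gt.of_ge h1 one_pos).add h6
  rwa [sub_add_sub_cancel] at h7

/-- The letters of level `J` and the approximations of level `< J`. -/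
theorem Irr.Pres.le_of_apr {p : ℕ} [hp : Fact p.Prime] (hk : Ctx0 k v)
    (hr : ∀ n, x (n + 1) ^ p = x n) (h0 : x 0 ≠ 0) (hS : 0 < S) (hv : v (x 0) = -S) {J b n : ℕ}
    (hb : Irr.Pres k p v x w S lam J b) {P : k[X]} {ε : ℝ} (hP : Irr.Apr v x w lam n P ε)
    (hn : n < J) : b * (S / p ^ J) ≤ lam + ε := by
  by_contra hno
  rw [not_le] at hno
  obtain ⟨j, rfl⟩ : ∃ j, J = n + (j + 1) := ⟨J - n - 1, by omega⟩
  have h4 := hb.coeff_ne hk hr h0 hS hv (hP.lift hr (j + 1)) le_rfl hno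
  rw [Nat.sub_self, pow_zero, mul_one, coeff_expand (pow_pos hp.out.pos _)] at h4
  apply h4
  rw [if_neg]
  intro h5
  exact hb.2.1 ((dvd_pow_self p (Nat.succ_ne_zero j)).trans h5)

section

variable (p : ℕ) [hp : Fact p.Prime] [CharP k p] [CharP Ω p] [IsAlgClosed k] [IsAlgClosed Ω]

/-- Strict, or gaps bounded below. -/
theorem strict_or_gap (hk : Ctx0 k v) (hc : CompleteV v) (hr : ∀ n, x (n + 1) ^ p = x n)
    (h0 : x 0 ≠ 0) (hS : 0 < S) (hv : v (x 0) = -S) (hlam : 0 ≤ lam)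
    (hw : TL v (EW v (⊥ : IntermediateField k Ω) x) w (-lam))
    (hx1 : x 1 ∉ cadj v (cadj v (⊥ : IntermediateField k Ω) (x 0)) w)
    (hval : ∀ n, v (x n) ∈ VG v (cadj v (cadj v (⊥ : IntermediateField k Ω) (x 0)) w)) :
    (∀ i l, 1 ≤ l → Sd v (cadj v (⊥ : IntermediateField k Ω) (x i)) w l (l * -lam)) ∨
    ∃ δ : ℝ, 0 < δ ∧ ∀ K, ∃ j, K ≤ j ∧ ∀ a ∈ cadj v (⊥ : IntermediateField k Ω) (x j), ∀ b : ℝ,
      v.Ge b (w - a) → b ≤ -lam - δ / p ^ j := by
  have hP : ∀ a ∈ (⊥ : IntermediateField k Ω), ∃ b ∈ (⊥ : IntermediateField k Ω), b ^ p = a := by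
    intro a ha
    obtain ⟨c, rfl⟩ := IntermediateField.mem_bot.1 ha
    obtain ⟨d, rfl⟩ := IsAlgClosed.exists_pow_nat_eq c hp.out.pos
    exact ⟨algebraMap k Ω d, IntermediateField.algebraMap_mem _ d, by rw [map_pow]⟩
  have hps := Irr.ps_pos p
  have hp0 : (0 : ℝ) < p := by exact_mod_cast hp.out.pos
  rcases jd_or_const_ew p hk hc hP hr hw (notMem_next p hP hr hx1) with h1 | ⟨i, r, -, hD⟩
  · exact Or.inl h1
  right
  have hx0i : x 0 ∈ cadj v (⊥ : IntermediateField k Ω) (x i) := by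
    have h1 := root_pow_add hr 0 i
    rw [zero_add] at h1
    rw [← h1]
    exact pow_mem (self_mem_cadj _ _ _) _
  have hrS : 0 < r + S := by
    have h1 := (hD i le_rfl).val_lt hk (root_ne hr h0 (i + 1)) (VG.mono (cadj_mono
      (cadj_le (cld_cadj _ _ _) bot_le hx0i) w) (hval (i + 1)))
    rw [Irr.val_x hr h0 hv, ← neg_div, div_lt_div_iff_of_pos_right (hps _)] at h1
    linarith
  refine ⟨(r + S) / (2 * p), by positivity, ?_⟩
  by_contra hno
  push Not at hno
  obtain ⟨K, hK⟩ := hno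
  obtain ⟨j, hj⟩ : ∃ j, j = max i K := ⟨_, rfl⟩
  have hR : (0 : ℝ) ≤ S + ((r + S) / 2 - S) := by linarith
  have h2 : r / p ^ (j + 1) ≤ ((r + S) / 2 - S) / p ^ (j + 1) := by
    refine le_of_forall_pos_le_add fun ε' hε' => ?_
    obtain ⟨g, hg, h3⟩ := (hD j (by rw [hj]; exact le_max_left _ _)).near ε' hε'
    have h4 := dist_letters_bot hk hc hr h0 hS hv hw j hR (fun ε₁ hε₁ => ?_) hg h3
    · linarith
    · obtain ⟨n, hn, P, hP, hPc⟩ := Irr.exists_apr hk hr h0 hS hv hlam hw.lim hε₁ (j + 1)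
      refine ⟨n, by omega, P, hP, fun J b hJ hJn hb hne => ?_⟩
      rw [mul_comm (p ^ (n - J))] at hne
      have h5 : Irr.Pres k p v x w S lam J b := by
        refine ⟨by omega, hb, n, P, ε₁, hJn, hε₁, hP, ?_, hne⟩
        rw [← Irr.mul_div_pow hJn]
        exact hPc _ hne
      obtain ⟨a, ha, b', h6, h7⟩ := hK (J - 1) (by omega)
      have hε2 : 0 < (r + S) / (2 * p) / (p : ℝ) ^ (J - 1) := by
        have := hps (J - 1)
        positivity
      obtain ⟨Q, hQ⟩ := exists_aeval_near1 hk (root_ne hr h0 (J - 1))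
        (Irr.val_x_neg hr h0 hS hv (J - 1)) ha
      have h8 : Irr.Apr v x w lam (J - 1) Q ((r + S) / (2 * p) / (p : ℝ) ^ (J - 1)) := by
        have h9 : v.Ge (-(lam + (r + S) / (2 * p) / (p : ℝ) ^ (J - 1))) (w - a) :=
          h6.mono (by linarith)
        have h10 : v.Ge (-(lam + (r + S) / (2 * p) / (p : ℝ) ^ (J - 1)))
            (a - aeval (x (J - 1)) Q) := hQ.ge.mono (by linarith)
        have h11 := h9.add h10
        rwa [sub_add_sub_cancel] at h11
      have h9 := h5.le_of_apr hk hr h0 hS hv h8 (by omega)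
      have h10 : (p : ℝ) ^ J = p ^ (J - 1) * p := by
        rw [← pow_succ]
        congr 1
        omega
      have h11 : b * S ≤ (lam + (r + S) / (2 * p) / (p : ℝ) ^ (J - 1)) * p ^ J := by
        rw [← mul_div_assoc, div_le_iff₀ (hps J)] at h9
        exact h9
      have h12 : (lam + (r + S) / (2 * p) / (p : ℝ) ^ (J - 1)) * p ^ J =
          lam * p ^ J + (r + S) / 2 := by
        rw [h10]
        have := (hps (J - 1)).ne'
        field_simp
      rw [h12] at h11
      linarith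
  rw [div_le_div_iff_of_pos_right (hps _)] at h2
  linarith

variable {p} {X : ℕ → Ω} {y : Ω}

/-- **Strict, or gaps bounded below**: any radius. -/
theorem T2.strF_or_gap (hk : Ctx0 k v) (hc : CompleteV v) (h : T2 p k v X y s) :
    StrF k v X y s ∨ ∃ δ : ℝ, 0 < δ ∧ ∀ K, ∃ j, K ≤ j ∧
      ∀ a ∈ cadj v (⊥ : IntermediateField k Ω) (X j), ∀ b : ℝ, v.Ge b (y - a) →
        b ≤ s - δ / p ^ j := by
  obtain ⟨S, hS⟩ : ∃ S : ℝ, S = -v (X 0) := ⟨_, rfl⟩
  have hS0 : 0 < S := by
    rw [hS]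
    exact neg_pos.2 h.neg
  have hv : v (X 0) = -S := by rw [hS, neg_neg]
  obtain ⟨N, hN⟩ := exists_nat_ge (s / S)
  rw [div_le_iff₀ hS0] at hN
  have hXi : ∀ i, X 0 ∈ cadj v (⊥ : IntermediateField k Ω) (X i) := by
    intro i
    have h1 := root_pow_add h.root 0 i
    rw [zero_add] at h1
    rw [← h1]
    exact pow_mem (self_mem_cadj _ _ _) _
  have hXE : X 0 ∈ EW v (⊥ : IntermediateField k Ω) X := EW.cadj_le 0 (hXi 0)
  have hc0 : X 0 ^ N ≠ 0 := pow_ne_zero _ h.ne
  have hvc : v (X 0 ^ N) = -(N * S) := by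
    rw [v.map_pow h.ne, hv]
    ring
  have hcad : ∀ i, cadj v (cadj v (⊥ : IntermediateField k Ω) (X i)) (X 0 ^ N * y) =
      cadj v (cadj v (⊥ : IntermediateField k Ω) (X i)) y := by
    intro i
    have h1 := cadj_affine (v := v) (z := y) (pow_mem (hXi i) N) hc0 (zero_mem _)
    rwa [add_zero] at h1
  have hTL : TL v (EW v (⊥ : IntermediateField k Ω) X) (X 0 ^ N * y) (-(N * S - s)) := by
    have h1 := h.tl.affine (pow_mem hXE N) hc0 (zero_mem _)
    rw [add_zero, hvc] at h1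
    convert h1 using 1
    ring
  have h1 := strict_or_gap p hk hc h.root h.ne hS0 hv (by linarith) hTL
    (by rw [hcad 0]; exact h.nr) (fun n => by rw [hcad 0]; exact h.val_mem n)
  rcases h1 with h1 | ⟨δ, hδ, h1⟩
  · left
    intro i l hl
    refine Sd.scale (pow_mem (hXi i) N) hc0 ?_
    have h2 := h1 i l hl
    convert h2 using 1
    rw [hvc]
    ring
  · refine Or.inr ⟨δ, hδ, fun K => ?_⟩
    obtain ⟨j, hj, h2⟩ := h1 K
    refine ⟨j, hj, fun a ha b hb => ?_⟩
    have h3 : v.Ge (-(N * S) + b) (X 0 ^ N * y - X 0 ^ N * a) := by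
      rw [← mul_sub]
      refine RVal.Ge.mul ?_ hb
      exact fun _ => hvc.ge
    have h4 := h2 _ (mul_mem (pow_mem (hXi j) N) ha) _ h3
    linarith

end

end Pool.Agent.TWC
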