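import Pool.Agent.Lib.TWM.C2
import Pool.Agent.Lib.TWM.D0

/-!
# TANK W, class C: almost orthogonal families, one variable

* `AO v M b ε`: the family `b` is orthogonal over `M`, up to `ε`;
* `AO.prod`, `AO.reindex`: towers;
* `AO.step`: the powers of `u - h`, for a step `u ^ p ∈ M` with `u` far from `M`;
* `pstep_all`: the steps of `M(s)`, `s ^ (p ^ n) ∈ M`, `s ^ (p ^ (n - 1))` far from `M`;
* `AO.tower`: the powers of `s - h`.
-/

set_option autoImplicit false

open Polynomial

namespace Pool.Agent.TWC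

open Pool.Agent.H15JM (RVal)
open Pool.Agent.LU1 (VPos adj)
open Pool.Agent.D2 (Ctx0)
open Pool.Agent.TWM Pool.Agent.TWM.C

universe u

variable {k Ω : Type u} [Field k] [Field Ω] [Algebra k Ω] {v : RVal Ω}
  {M M' : IntermediateField k Ω}

/-- The family `b` is orthogonal over `M`, up to `ε`. -/
def AO (v : RVal Ω) (M : IntermediateField k Ω) {κ : Type*} [Fintype κ] (b : κ → Ω) (ε : ℝ) :
    Prop :=
  ∀ c : κ → Ω, (∀ i, c i ∈ M) → ∀ r : ℝ, v.Ge r (∑ i, c i * b i) → ∀ i, v.Ge (r - ε) (c i * b i)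

theorem AO.mono {κ : Type*} [Fintype κ] {b : κ → Ω} {ε ε' : ℝ} (h : AO v M b ε) (hε : ε ≤ ε') :
    AO v M b ε' := fun c hc r hr i => (h c hc r hr i).mono (by linarith)

theorem AO.reindex {κ κ' : Type*} [Fintype κ] [Fintype κ'] {b : κ → Ω} {ε : ℝ} (h : AO v M b ε)
    (e : κ' ≃ κ) {b' : κ' → Ω} (hb : ∀ i, b' i = b (e i)) : AO v M b' ε := by
  intro c hc r hr i
  have h1 : ∑ j, c (e.symm j) * b j = ∑ i, c i * b' i := by
    rw [← e.sum_comp]
    refine Finset.sum_congr rfl fun i _ => ?_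
    rw [e.symm_apply_apply, hb]
  have h2 := h (fun j => c (e.symm j)) (fun j => hc _) r (by rw [h1]; exact hr) (e i)
  simp only [e.symm_apply_apply] at h2
  rwa [hb]

/-- Towers. -/
theorem AO.prod {κ κ' : Type*} [Fintype κ] [Fintype κ'] {b : κ → Ω} {b' : κ' → Ω} {ε ε' : ℝ}
    (h : AO v M b ε) (h' : AO v M' b' ε') (hM : M ≤ M') (hb : ∀ i, b i ∈ M') :
    AO v M (fun x : κ' × κ => b' x.1 * b x.2) (ε + ε') := by
  intro c hc r hr x
  obtain ⟨j, i⟩ := x
  have h1 : ∑ x : κ' × κ, c x * (b' x.1 * b x.2) = ∑ j, (∑ i, c (j, i) * b i) * b' j := by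
    rw [Fintype.sum_prod_type]
    refine Finset.sum_congr rfl fun j _ => ?_
    rw [Finset.sum_mul]
    exact Finset.sum_congr rfl fun i _ => by ring
  rw [h1] at hr
  have h2 := h' (fun j => ∑ i, c (j, i) * b i)
    (fun j => sum_mem fun i _ => mul_mem (hM (hc _)) (hb i)) r hr j
  by_cases hj : b' j = 0
  · change v.Ge _ (c (j, i) * (b' j * b i))
    rw [hj, zero_mul, mul_zero]
    exact RVal.Ge.zero
  · have h3 : v.Ge (r - ε' - v (b' j)) (∑ i, c (j, i) * b i) := by
      intro h0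
      have h4 := h2 (mul_ne_zero h0 hj)
      rw [v.map_mul h0 hj] at h4
      linarith
    have h5 := (h (fun i => c (j, i)) (fun i => hc _) _ h3 i).mul (RVal.ge_self (v := v) (b' j))
    change v.Ge _ (c (j, i) * (b' j * b i))
    rw [show c (j, i) * (b' j * b i) = c (j, i) * b i * b' j by ring]
    refine h5.mono (by linarith)

section

variable (p : ℕ) [hp : Fact p.Prime] [CharP k p] [CharP Ω p] [IsAlgClosed Ω]

/-- One step. -/
theorem AO.step (h0 : Ctx0 k v) {u h : Ω} (hs : PStep p v M u 0) (hh : h ∈ M) {γ : ℝ}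
    (hγ : 0 ≤ γ) (hu : v.Ge (-γ) (u - h)) : AO v M (fun a : Fin p => (u - h) ^ (a : ℕ)) (p * γ) := by
  classical
  intro c hc r hr i
  set P : Polynomial Ω := ∑ a : Fin p, C (c a) * (X - C h) ^ (a : ℕ) with hP
  have hPM : P ∈ PI M := by
    refine sum_mem fun a _ => mul_mem ?_ (pow_mem (sub_mem ?_ ?_) _)
    · intro j
      rw [coeff_C]
      split_ifs
      exacts [hc a, zero_mem M]
    · intro j
      rw [coeff_X]
      split_ifs
      exacts [one_mem M, zero_mem M]
    · intro j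
      rw [coeff_C]
      split_ifs
      exacts [hh, zero_mem M]
  have hPu : P.eval u = ∑ a : Fin p, c a * (u - h) ^ (a : ℕ) := by
    rw [hP, eval_finsetSum]
    refine Finset.sum_congr rfl fun a _ => ?_
    rw [eval_mul, eval_C, eval_pow, eval_sub, eval_X, eval_C]
  have hPh : ∀ a : Fin p, (taylor h P).coeff a = c a := by
    intro a
    have h1 : taylor h P = ∑ a : Fin p, C (c a) * X ^ (a : ℕ) := by
      rw [hP, map_sum]
      refine Finset.sum_congr rfl fun a _ => ?_
      rw [taylor_mul, taylor_C, taylor_pow, map_sub, taylor_X, taylor_C, add_sub_cancel_right]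
    rw [h1, finsetSum_coeff, Finset.sum_eq_single a]
    · rw [coeff_C_mul, coeff_X_pow, if_pos rfl, mul_one]
    · intro b _ hb
      rw [coeff_C_mul, coeff_X_pow, if_neg (fun h => hb (Fin.ext h.symm)), mul_zero]
    · exact fun h => absurd (Finset.mem_univ a) h
  have hdeg : P.natDegree < p := by
    refine lt_of_le_of_lt (natDegree_sum_le_of_forall_le (n := p - 1) _ _ fun a _ => ?_)
      (Nat.sub_lt hp.out.pos one_pos)
    refine (natDegree_C_mul_le _ _).trans ((natDegree_pow_le).trans ?_)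
    rw [natDegree_X_sub_C, mul_one]
    have := a.2
    omega
  by_cases hP0 : P = 0
  · have h1 := hPh i
    rw [hP0, map_zero, coeff_zero] at h1
    change v.Ge _ (c i * _)
    rw [← h1, zero_mul]
    exact RVal.Ge.zero
  · have h4 := fun l => Roots.taylor_ge hP0 (fun θ hθ => hs.root p h0 hPM hP0 hdeg hθ) l
    have hPr : r ≤ v (P.eval u) := by
      have : P.eval u ≠ 0 := fun h => hP0 (hs.eq_zero p h0 hPM hdeg h)
      rw [hPu] at this ⊢
      exact hr this
    have h5 : v.Ge (r - (p - i : ℝ) * γ) (c i) := by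
      rw [← hPh i]
      have h6 : taylor h P = taylor (h - u) (taylor u P) := by
        rw [taylor_taylor, sub_add_cancel]
      rw [h6, taylor_coeff, hasseDeriv_apply, Polynomial.sum, eval_finsetSum]
      refine RVal.Ge.sum _ _ fun n hn => ?_
      rw [eval_monomial]
      rcases lt_or_ge n i with h7 | h7
      · rw [Nat.choose_eq_zero_of_lt h7, Nat.cast_zero, zero_mul, zero_mul]
        exact RVal.Ge.zero
      · have h8 : n < p := by
          have h9 := le_natDegree_of_mem_supp n hn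
          rw [natDegree_taylor] at h9
          omega
        rw [mul_assoc]
        have h9 := (ge_natCast v (n.choose i)).mul ((h4 n).mul
          (ge_pow (ge_sub_comm hu) (n - i)))
        refine h9.mono ?_
        rw [Nat.cast_sub h7]
        have h10 : (n : ℝ) ≤ p := by exact_mod_cast h8.le
        nlinarith
    have h6 := h5.mul (ge_pow hu i)
    change v.Ge _ (c i * _)
    refine h6.mono ?_
    nlinarith

omit [CharP k p] [IsAlgClosed Ω] in
/-- The steps of a purely inseparable extension. -/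
theorem pstep_all (hc : CompleteV v) (hM : Cld v M) {s : Ω} {n : ℕ} (hs : s ^ p ^ (n + 1) ∈ M)
    (hfar : ¬ Nr' v M 0 (s ^ p ^ n)) {i : ℕ} (hi : i ≤ n) :
    PStep p v (adj M (s ^ p ^ (i + 1))) (s ^ p ^ i) 0 := by
  have hs' : (s ^ p ^ (i + 1)) ^ p ^ (n - i) ∈ M := by
    rw [← pow_mul, ← pow_add, show i + 1 + (n - i) = n + 1 by omega]
    exact hs
  have halg : IsAlgebraic M (s ^ p ^ (i + 1)) := by
    have h1 : IsAlgebraic M ((s ^ p ^ (i + 1)) ^ p ^ (n - i)) :=
      isAlgebraic_algebraMap (R := M) (⟨_, hs'⟩ : M)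
    exact IsAlgebraic.of_pow (pow_pos hp.out.pos _) h1
  refine ⟨cld_adj hc hM halg, ?_, ?_⟩
  · rw [← pow_mul, ← pow_succ]
    exact (D2P.mem_adj_self M _).1
  · rintro ⟨a, ha, h1⟩
    apply hfar
    -- `a ^ (p ^ (n - i)) ∈ M`
    have h2 : a ^ p ^ (n - i) ∈ M := by
      have _ : ExpChar Ω p := ExpChar.prime hp.out
      rw [D2P.mem_adj_iff] at ha
      have h4 : a ∈ Algebra.adjoin M {s ^ p ^ (i + 1)} := by
        rw [← IntermediateField.adjoin_simple_toSubalgebra_of_isAlgebraic halg]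
        exact ha
      rw [Algebra.adjoin_singleton_eq_range_aeval] at h4
      obtain ⟨P, hP⟩ := h4
      have hP' : aeval (s ^ p ^ (i + 1)) P = a := hP
      rw [← hP', aeval_eq_sum_range, sum_pow_char_pow]
      refine sum_mem fun j _ => ?_
      rw [Algebra.smul_def, mul_pow, ← pow_mul, mul_comm j, pow_mul]
      exact mul_mem (pow_mem (SetLike.coe_mem _) _) (pow_mem hs' _)
    refine ⟨_, h2, ?_⟩
    have h3 : s ^ p ^ n - a ^ p ^ (n - i) = (s ^ p ^ i - a) ^ p ^ (n - i) := by
      rw [sub_pow_char_pow, ← pow_mul, ← pow_add, show i + (n - i) = n by omega]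
    rw [h3]
    intro h5
    have h6 : s ^ p ^ i - a ≠ 0 := by
      intro h7
      rw [h7, zero_pow (pow_pos hp.out.pos _).ne'] at h5
      exact h5 rfl
    rw [v.map_pow h6]
    have h7 := h1 h6
    have h8 : (0 : ℝ) < (p ^ (n - i) : ℕ) := by exact_mod_cast pow_pos hp.out.pos _
    positivity

/-- The powers of `s - h`. -/
theorem AO.tower (h0 : Ctx0 k v) (n : ℕ) : ∀ {s h : Ω} {γ : ℝ}, 0 ≤ γ →
    (∀ i < n, PStep p v (adj M (s ^ p ^ (i + 1))) (s ^ p ^ i) 0) → h ∈ M → v.Ge (-γ) (s - h) →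
    AO v M (fun J : Fin (p ^ n) => (s - h) ^ (J : ℕ)) (n * p ^ n * γ) := by
  induction n with
  | zero =>
    intro s h γ hγ _ _ _ c hc r hr i
    have h1 : ∑ i : Fin (p ^ 0), c i * (s - h) ^ (i : ℕ) = c i * (s - h) ^ (i : ℕ) := by
      have : ∀ j : Fin (p ^ 0), j = i := fun j => by
        have h2 : ((j : ℕ)) < 1 := lt_of_lt_of_eq j.2 (pow_zero p)
        have h3 : ((i : ℕ)) < 1 := lt_of_lt_of_eq i.2 (pow_zero p)
        exact Fin.ext (by omega)
      rw [Finset.sum_eq_single i (fun b _ hb => absurd (this b) hb)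
        (fun h => absurd (Finset.mem_univ i) h)]
    rw [h1] at hr
    refine hr.mono (by simp)
  | succ n ih =>
    intro s h γ hγ hst hh hsh
    have hp1 : (1 : ℝ) ≤ p := by exact_mod_cast hp.out.one_lt.le
    -- the steps of `s ^ p`
    have h1 : AO v M (fun J : Fin (p ^ n) => (s ^ p - h ^ p) ^ (J : ℕ)) (n * p ^ n * (p * γ)) := by
      refine ih (by positivity) (fun i hi => ?_) (pow_mem hh p) ?_
      · have h2 := hst (i + 1) (by omega)
        rwa [show (s ^ p) ^ p ^ (i + 1) = s ^ p ^ (i + 1 + 1) by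
          rw [← pow_mul, ← pow_succ' p (i + 1)], show (s ^ p) ^ p ^ i = s ^ p ^ (i + 1) by
          rw [← pow_mul, ← pow_succ' p i]]
      · rw [← sub_pow_char]
        have h2 := ge_pow hsh p
        refine h2.mono (by linarith)
    have h2 : AO v (adj M (s ^ p)) (fun a : Fin p => (s - h) ^ (a : ℕ)) (p * γ) := by
      have h3 := hst 0 (by omega)
      rw [zero_add, pow_one, pow_zero, pow_one] at h3
      exact AO.step p h0 h3 ((D2P.mem_adj_self M _).2 hh) hγ hsh
    have h3 := h1.prod h2 (D2P.mem_adj_self M _).2 (fun i => pow_mem (sub_mem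
      (D2P.mem_adj_self M _).1 ((D2P.mem_adj_self M _).2 (pow_mem hh p))) _)
    refine (AO.reindex h3 ((finCongr (pow_succ p n)).trans
      (finProdFinEquiv.symm.trans (Equiv.prodComm _ _))) fun J => ?_).mono ?_
    · change (s - h) ^ (J : ℕ) = (s - h) ^ ((J : ℕ) % p) * (s ^ p - h ^ p) ^ ((J : ℕ) / p)
      rw [← sub_pow_char, ← pow_mul, ← pow_add, Nat.mod_add_div]
    · push_cast
      have h4 : (1 : ℝ) ≤ (p : ℝ) ^ n := one_le_pow₀ hp1
      have h5 : (p : ℝ) * γ ≤ (p : ℝ) ^ n * (p * γ) :=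
        le_mul_of_one_le_left (by positivity) h4
      have h6 : (p : ℝ) ^ (n + 1) = p ^ n * p := pow_succ _ _
      rw [h6]
      nlinarith

end

end Pool.Agent.TWC
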