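import Pool.Agent.Lib.TWC.IsoA
import Pool.Agent.Lib.TWC.Key

/-!
# TANK W, class C: operators over an isometric extension

`L` closed, `w l = u 0 l ∈ L`, `u n l` compatible `p^n`-th roots, `u 1 l` far from the closed field
generated by `L` and all the roots of the `w j`, `j < l`.

* `Iso p v L u`: these data; `Iso.ao`: almost orthogonality of the monomials in `u n - η`;
* `red`: reduction to the exponents `< p^n`;
* `Iso.norm_le`: the operators `hd F`, `F < p^n`, have norm `≤ 0` on `L[u n]`.
-/

set_option autoImplicit false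

open Polynomial

namespace Pool.Agent.TWC

open Pool.Agent.H15JM (RVal)
open Pool.Agent.LU1 (VPos adj)
open Pool.Agent.D2 (Ctx0)
open Pool.Agent.D2P (clI mem_clI)
open Pool.Agent.TWM Pool.Agent.TWM.C
open Pool.Agent.TWC.Key (hd ev sp)

universe u

variable {k Ω : Type u} [Field k] [Field Ω] [Algebra k Ω] {v : RVal Ω}

/-- The closed field generated by `L` and the `u n j`, `j < l`. -/
noncomputable def Lx (v : RVal Ω) (L : IntermediateField k Ω) {m : ℕ} (u : ℕ → Fin m → Ω) (l : ℕ) :
    IntermediateField k Ω :=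
  clI v (L ⊔ IntermediateField.adjoin k {x | ∃ (n : ℕ) (j : Fin m), (j : ℕ) < l ∧ x = u n j})

/-- Compatible roots `u n l` of elements `u 0 l` of the closed field `L`, isometric. -/
structure Iso (p : ℕ) (v : RVal Ω) (L : IntermediateField k Ω) {m : ℕ} (u : ℕ → Fin m → Ω) :
    Prop where
  cld : Cld v L
  mem : ∀ l, u 0 l ∈ L
  root : ∀ n l, u (n + 1) l ^ p = u n l
  far : ∀ l : Fin m, ¬ Nr' v (Lx v L u l) 0 (u 1 l)
  lim : ∀ n l, ∀ ε : ℝ, 0 < ε → ∃ h ∈ L, v.Ge (-ε) (u n l - h)

section Lxs

variable {L : IntermediateField k Ω} {m : ℕ} {u : ℕ → Fin m → Ω}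

theorem le_Lx (v : RVal Ω) (L : IntermediateField k Ω) (u : ℕ → Fin m → Ω) (l : ℕ) :
    L ≤ Lx v L u l := le_sup_left.trans fun _ ha => LUC.Cl.subset ha

theorem mem_Lx (v : RVal Ω) (L : IntermediateField k Ω) (u : ℕ → Fin m → Ω) {l : ℕ} (n : ℕ)
    {j : Fin m} (hj : (j : ℕ) < l) : u n j ∈ Lx v L u l :=
  LUC.Cl.subset ((le_sup_right : _ ≤ L ⊔ _) (IntermediateField.subset_adjoin _ _ ⟨n, j, hj, rfl⟩))

end Lxs

section AOs

variable {p : ℕ} [hp : Fact p.Prime] [CharP Ω p] {L : IntermediateField k Ω} {m : ℕ}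
  {u : ℕ → Fin m → Ω}

omit hp [CharP Ω p] in
theorem Iso.root_pow (h : Iso p v L u) (n j : ℕ) (l : Fin m) : u (n + j) l ^ p ^ j = u n l := by
  induction j with
  | zero => simp
  | succ j ih =>
    rw [← add_assoc, pow_succ', pow_mul, h.root, ih]

omit hp [CharP Ω p] in
theorem Iso.root_pow' (h : Iso p v L u) (n : ℕ) (l : Fin m) : u n l ^ p ^ n = u 0 l := by
  have := h.root_pow 0 n l
  rwa [zero_add] at this

/-- The differences `u n l - η`, `η ∈ L`, have value `≤ 0`. -/
theorem Iso.le_zero (h : Iso p v L u) {n : ℕ} (hn : n ≠ 0) (l : Fin m) {η : Ω} (hη : η ∈ L) :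
    u n l - η ≠ 0 ∧ v (u n l - η) ≤ 0 := by
  obtain ⟨n, rfl⟩ := Nat.exists_eq_succ_of_ne_zero hn
  by_contra hno
  apply h.far l
  refine ⟨η ^ p ^ n, le_Lx v L u l (pow_mem hη _), ?_⟩
  have h1 : u 1 l = u (n + 1) l ^ p ^ n := by
    have := h.root_pow 1 n l
    rw [← this, add_comm]
  rw [h1, ← sub_pow_char_pow]
  intro h2
  have h3 : u (n + 1) l - η ≠ 0 := by
    intro h4
    rw [h4, zero_pow (pow_pos hp.out.pos _).ne'] at h2
    exact h2 rfl
  rw [v.map_pow h3]
  have h4 : 0 < v (u (n + 1) l - η) := by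
    by_contra h5
    exact hno ⟨h3, not_lt.1 h5⟩
  have h8 : (0 : ℝ) < (p ^ n : ℕ) := by exact_mod_cast pow_pos hp.out.pos _
  positivity

variable [CharP k p] [IsAlgClosed Ω]

/-- Almost orthogonality of the monomials in `u n - η`. -/
theorem Iso.ao (h0 : Ctx0 k v) (hc : CompleteV v) (h : Iso p v L u) (n : ℕ) {η : Fin m → Ω}
    (hη : ∀ l, η l ∈ L) {γ : ℝ} (hγ : 0 ≤ γ) (hu : ∀ l, v.Ge (-γ) (u n l - η l)) :
    AO v L (fun J : Fin m → Fin (p ^ n) => ∏ l, (u n l - η l) ^ (J l : ℕ))
      (m * (n * p ^ n * γ)) := by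
  have key : ∀ (l : ℕ) (hl : l ≤ m), AO v L (fun J : Fin l → Fin (p ^ n) =>
      ∏ i, (u n (Fin.castLE hl i) - η (Fin.castLE hl i)) ^ (J i : ℕ)) (l * (n * p ^ n * γ)) := by
    intro l
    induction l with
    | zero =>
      intro hl c hc' r hr i
      have h1 : ∀ J : Fin 0 → Fin (p ^ n), J = i := fun J => Subsingleton.elim _ _
      rw [Finset.sum_eq_single i (fun b _ hb => absurd (h1 b) hb)
        (fun h => absurd (Finset.mem_univ i) h)] at hr
      exact hr.mono (by simp)
    | succ l ih =>
      intro hl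
      have h1 := ih (by omega)
      set t : Fin m := Fin.castLE hl (Fin.last l) with ht
      have htl : (t : ℕ) = l := rfl
      have hst : ∀ i < n, PStep p v (adj (Lx v L u l) (u n t ^ p ^ (i + 1))) (u n t ^ p ^ i) 0 := by
        intro i hi
        obtain ⟨n', rfl⟩ := Nat.exists_eq_add_of_lt (lt_of_le_of_lt (Nat.zero_le i) hi)
        rw [zero_add] at hi ⊢
        refine pstep_all p hc (cld_clI v _) (n := n') ?_ ?_ (by omega)
        · rw [h.root_pow']
          exact le_Lx v L u l (h.mem t)
        · have h2 : u (n' + 1) t ^ p ^ n' = u 1 t := by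
            have := h.root_pow 1 n' t
            rw [← this, add_comm]
          rw [h2]
          have h3 := h.far t
          rwa [htl] at h3
      have h2 := AO.tower p h0 n hγ hst (le_Lx v L u l (hη t)) (hu t)
      have h3 := h1.prod h2 (le_Lx v L u l) (fun J => prod_mem fun i _ => pow_mem (sub_mem
        (mem_Lx v L u n (by
          change (i : ℕ) < l
          exact i.2)) (le_Lx v L u l (hη _))) _)
      refine (AO.reindex h3 (Fin.snocEquiv fun _ => Fin (p ^ n)).symm fun J => ?_).mono ?_
      · rw [Fin.prod_univ_castSucc, mul_comm]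
        rfl
      · push_cast
        linarith
  have h1 := key m le_rfl
  exact h1

end AOs

/-! ## Reduction to the exponents `< q` -/

section Red

variable {P : Type*} [Field P] [Algebra P Ω] {ι : Type*} [Fintype ι] [DecidableEq ι]

/-- Reduction modulo `X_l ^ q = w_l`. -/
noncomputable def red (q : ℕ) (w : ι → P) : ((ι → ℕ) →₀ P) →ₗ[P] ((ι → ℕ) →₀ P) :=
  Finsupp.linearCombination P fun I =>
    Finsupp.single (fun l => I l % q) (∏ l, w l ^ (I l / q))

theorem red_single (q : ℕ) (w : ι → P) (I : ι → ℕ) (c : P) :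
    red q w (Finsupp.single I c) =
      Finsupp.single (fun l => I l % q) (c * ∏ l, w l ^ (I l / q)) := by
  rw [red, Finsupp.linearCombination_single, Finsupp.smul_single, smul_eq_mul]

theorem red_supp {q : ℕ} (hq : 0 < q) (w : ι → P) (f : (ι → ℕ) →₀ P) :
    ∀ I ∈ (red q w f).support, ∀ l, I l < q := by
  classical
  induction f using Finsupp.induction_linear with
  | zero => simp
  | add f g hf hg =>
    intro I hI
    rw [map_add] at hI
    rcases Finset.mem_union.1 (Finsupp.support_add hI) with h | h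
    · exact hf I h
    · exact hg I h
  | single I c =>
    intro J hJ l
    rw [red_single] at hJ
    have := Finsupp.support_single_subset hJ
    rw [Finset.mem_singleton] at this
    rw [this]
    exact Nat.mod_lt _ hq

/-- The operators of order `< q` commute with the reduction. -/
theorem ev_hd_red (p : ℕ) [Fact p.Prime] [CharP P p] [CharP Ω p] (n : ℕ) {u : ι → Ω} {w : ι → P}
    (hu : ∀ l, u l ^ p ^ n = algebraMap P Ω (w l)) (F : ι → ℕ) (hF : ∀ l, F l < p ^ n)
    (f : (ι → ℕ) →₀ P) : ev u (hd F (red (p ^ n) w f)) = ev u (hd F f) := by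
  have hpk : 0 < p ^ n := pow_pos (Fact.out : p.Prime).pos n
  induction f using Finsupp.induction_linear with
  | zero => simp
  | add f g hf hg => simp only [map_add, hf, hg]
  | single I c =>
    rw [red_single, Key.ev_hd_single, Key.ev_hd_single, map_mul, map_prod, mul_assoc,
      ← Finset.prod_mul_distrib]
    congr 1
    refine Finset.prod_congr rfl fun l _ => ?_
    have h3 := Key.choose_add_lt p n (I l / p ^ n) (I l % p ^ n) (F l) (Nat.mod_lt _ hpk) (hF l)
    rw [Nat.div_add_mod] at h3
    have h4 : (((I l).choose (F l) : ℕ) : Ω) = (((I l % p ^ n).choose (F l) : ℕ) : Ω) :=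
      Key.cast_of_modEq (p := p) h3
    rw [h4]
    by_cases hF' : F l ≤ I l % p ^ n
    · have h5 : I l - F l = p ^ n * (I l / p ^ n) + (I l % p ^ n - F l) := by
        have := Nat.div_add_mod (I l) (p ^ n)
        omega
      rw [h5, pow_add, pow_mul, hu, map_pow]
      ring
    · rw [Nat.choose_eq_zero_of_lt (not_le.1 hF')]
      simp

/-- Taylor formula between two points of `Ω`. -/
theorem ev_taylor' (a b : ι → Ω) (f : (ι → ℕ) →₀ P) (N : ℕ)
    (hN : ∀ I ∈ f.support, ∀ l, I l < N) :
    ev b f = ∑ F ∈ Fintype.piFinset fun _ : ι => Finset.range N,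
      ev a (hd F f) * ∏ l, (b l - a l) ^ F l := by
  classical
  have key : ∀ I : ι → ℕ, (∀ l, I l < N) → ∀ c : P,
      ev b (Finsupp.single I c) =
      ∑ F ∈ Fintype.piFinset fun _ : ι => Finset.range N,
        ev a (hd F (Finsupp.single I c)) * ∏ l, (b l - a l) ^ F l := by
    intro I hI c
    simp only [Key.ev_hd_single]
    rw [Key.ev_single]
    have h1 : ∀ l, b l ^ I l = ∑ F ∈ Finset.range N,
        ((((I l).choose F : ℕ) : Ω) * a l ^ (I l - F)) * (b l - a l) ^ F :=
      fun l => (Key.taylor_one _ _ _ _ (hI l)).symm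
    rw [Finset.prod_congr rfl fun l _ => h1 l, Finset.prod_univ_sum, Finset.mul_sum]
    refine Finset.sum_congr rfl fun F _ => ?_
    rw [Finset.prod_mul_distrib, mul_assoc]
  have h2 : ∀ g : (ι → ℕ) →₀ P, g.support ⊆ f.support →
      ev b g =
      ∑ F ∈ Fintype.piFinset fun _ : ι => Finset.range N,
        ev a (hd F g) * ∏ l, (b l - a l) ^ F l := by
    intro g
    induction g using Finsupp.induction with
    | zero => intro _; simp
    | single_add I c g hI hc ih =>
      intro hsub
      have hs : (Finsupp.single I c + g).support = insert I g.support := by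
        rw [Finsupp.support_add_eq, Finsupp.support_single _ hc]
        · rfl
        · rw [Finsupp.support_single _ hc]
          exact Finset.disjoint_singleton_left.2 hI
      rw [hs] at hsub
      rw [map_add, ih (fun J hJ => hsub (Finset.mem_insert_of_mem hJ)),
        key I (hN I (hsub (Finset.mem_insert_self _ _))) c, ← Finset.sum_add_distrib]
      refine Finset.sum_congr rfl fun F _ => ?_
      rw [map_add, map_add, add_mul]
  exact h2 f (Finset.Subset.refl _)

/-- Sums over `piFinset (range q)` and over `ι → Fin q`. -/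
theorem sum_pi_range {m q : ℕ} {R : Type*} [AddCommMonoid R] (g : (Fin m → ℕ) → R) :
    ∑ F ∈ Fintype.piFinset fun _ : Fin m => Finset.range q, g F =
      ∑ J : Fin m → Fin q, g fun l => (J l : ℕ) := by
  classical
  symm
  refine Finset.sum_bij (fun J _ => fun l => (J l : ℕ)) (fun J _ => ?_) (fun J _ J' _ h => ?_)
    (fun F hF => ?_) fun J _ => rfl
  · rw [Fintype.mem_piFinset]
    exact fun l => Finset.mem_range.2 (J l).2
  · funext l
    exact Fin.ext (congrFun h l)
  · rw [Fintype.mem_piFinset] at hF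
    exact ⟨fun l => ⟨F l, Finset.mem_range.1 (hF l)⟩, Finset.mem_univ _, rfl⟩

end Red

/-! ## The norm of the operators -/

section Nrm

variable {p : ℕ} [hp : Fact p.Prime] [CharP k p] [CharP Ω p] [IsAlgClosed Ω]
  {L : IntermediateField k Ω} {m : ℕ} {u : ℕ → Fin m → Ω}

omit [CharP k p] [IsAlgClosed Ω] hp [CharP Ω p] in
theorem ev_mem {B : IntermediateField k Ω} (hLB : L ≤ B) {a : Fin m → Ω} (ha : ∀ l, a l ∈ B)
    (f : (Fin m → ℕ) →₀ L) : ev a f ∈ B := by
  induction f using Finsupp.induction_linear with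
  | zero => rw [map_zero]; exact zero_mem B
  | add f g hf hg => rw [map_add]; exact add_mem hf hg
  | single I c =>
    rw [Key.ev_single]
    exact mul_mem (hLB (SetLike.coe_mem c)) (prod_mem fun l _ => pow_mem (ha l) _)

/-- **The operators `hd F`, `F < p^n`, have norm `≤ 0` on `L[u n]`.** -/
theorem Iso.norm_le (h0 : Ctx0 k v) (hc : CompleteV v) (h : Iso p v L u) (n : ℕ)
    (F : Fin m → ℕ) (hF : ∀ l, F l < p ^ n) (f : (Fin m → ℕ) →₀ L) {b : ℝ}
    (hb : v.Ge b (ev (u n) f)) : v.Ge b (ev (u n) (hd F f)) := by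
  classical
  have _ : CharP L p := charP_of_injective_algebraMap (algebraMap L Ω).injective p |> fun _ =>
    (RingHom.charP_iff (algebraMap L Ω) (algebraMap L Ω).injective p).2 inferInstance
  rcases Nat.eq_zero_or_pos n with rfl | hn
  · have h1 : F = fun _ => 0 := by
      funext l
      have := hF l
      rw [pow_zero] at this
      omega
    rw [h1, Key.hd_zero]
    exact hb
  have hq : 0 < p ^ n := pow_pos hp.out.pos n
  set w : Fin m → L := fun l => ⟨u 0 l, h.mem l⟩ with hw
  have hu : ∀ l, u n l ^ p ^ n = algebraMap L Ω (w l) := fun l => h.root_pow' n l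
  rw [← ev_hd_red p n hu F hF f]
  have hb' : v.Ge b (ev (u n) (red (p ^ n) w f)) := by
    have h1 := ev_hd_red p n hu (fun _ => 0) (fun _ => hq) f
    rw [Key.hd_zero, Key.hd_zero] at h1
    rw [h1]
    exact hb
  set g := red (p ^ n) w f with hg
  have hgs : ∀ I ∈ g.support, ∀ l, I l < p ^ n := red_supp hq w f
  refine Key.ge_of_forall fun ε hε => ?_
  -- the near point
  obtain ⟨γ, hγ, hγε⟩ : ∃ γ : ℝ, 0 < γ ∧ m * (n * p ^ n * γ) ≤ ε := by
    have h1 : (0 : ℝ) ≤ m * (n * p ^ n) := by positivity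
    refine ⟨ε / (m * (n * p ^ n) + 1), by positivity, ?_⟩
    rw [show (m : ℝ) * (n * p ^ n * (ε / (m * (n * p ^ n) + 1))) =
      (m * (n * p ^ n)) * ε / (m * (n * p ^ n) + 1) by ring, div_le_iff₀ (by positivity)]
    nlinarith
  choose η hη hηu using fun l => h.lim n l γ hγ
  have hao := (h.ao h0 hc n hη hγ.le hηu).mono hγε
  -- the expansion of `g` at `η`
  have h1 := ev_taylor' η (u n) g (p ^ n) hgs
  rw [sum_pi_range] at h1
  rw [h1] at hb'
  have h2 := hao (fun J => ev η (hd (fun l => (J l : ℕ)) g)) (fun J => ev_mem le_rfl hη _) b hb'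
  -- the expansion of `hd F g`
  have hgs' : ∀ I ∈ (hd F g).support, ∀ l, I l < p ^ n := by
    have key : ∀ g' : (Fin m → ℕ) →₀ L, (∀ I ∈ g'.support, ∀ l, I l < p ^ n) →
        ∀ I ∈ (hd F g').support, ∀ l, I l < p ^ n := by
      intro g'
      induction g' using Finsupp.induction with
      | zero => intro _; simp
      | single_add I c g' hI hc' ih =>
        intro hs J hJ
        have hs' : (Finsupp.single I c + g').support = insert I g'.support := by
          rw [Finsupp.support_add_eq, Finsupp.support_single _ hc']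
          · rfl
          · rw [Finsupp.support_single _ hc']
            exact Finset.disjoint_singleton_left.2 hI
        rw [hs'] at hs
        rw [map_add] at hJ
        rcases Finset.mem_union.1 (Finsupp.support_add hJ) with h4 | h4
        · rw [Key.hd_single] at h4
          have h5 := Finsupp.support_single_subset h4
          rw [Finset.mem_singleton] at h5
          intro l
          rw [h5]
          exact lt_of_le_of_lt (Nat.sub_le _ _) (hs I (Finset.mem_insert_self _ _) l)
        · exact ih (fun K hK => hs K (Finset.mem_insert_of_mem hK)) J h4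
    exact key g hgs
  rw [ev_taylor' η (u n) (hd F g) (p ^ n) hgs', sum_pi_range]
  refine RVal.Ge.sum _ _ fun K _ => ?_
  rw [Key.hd_hd, map_smul, Algebra.smul_def, map_prod]
  by_cases hbig : ∃ l, p ^ n ≤ F l + K l
  · obtain ⟨l, hl⟩ := hbig
    have h3 : hd (fun l => F l + (K l : ℕ)) g = 0 :=
      Key.hd_eq_zero fun I hI => ⟨l, lt_of_lt_of_le (hgs I hI l) hl⟩
    rw [h3, map_zero, mul_zero, zero_mul]
    exact RVal.Ge.zero
  · push Not at hbig
    have h3 := h2 fun l => ⟨F l + K l, hbig l⟩
    change v.Ge (b - ε) (ev η (hd (fun l => F l + (K l : ℕ)) g) *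
      ∏ l, (u n l - η l) ^ (F l + (K l : ℕ))) at h3
    -- the value of `∏ (u - η) ^ F` is `≤ 0`
    have h4 : ∏ l, (u n l - η l) ^ F l ≠ 0 ∧ v (∏ l, (u n l - η l) ^ F l) ≤ 0 := by
      have h5 : ∀ l, u n l - η l ≠ 0 ∧ v (u n l - η l) ≤ 0 := fun l => h.le_zero hn.ne' l (hη l)
      have key : ∀ s : Finset (Fin m), ∏ l ∈ s, (u n l - η l) ^ F l ≠ 0 ∧
          v (∏ l ∈ s, (u n l - η l) ^ F l) ≤ 0 := by
        intro s
        induction s using Finset.induction_on with
        | empty =>
          rw [Finset.prod_empty]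
          exact ⟨one_ne_zero, by rw [v.map_one]⟩
        | insert a s ha ih =>
          rw [Finset.prod_insert ha]
          refine ⟨mul_ne_zero (pow_ne_zero _ (h5 a).1) ih.1, ?_⟩
          rw [v.map_mul (pow_ne_zero _ (h5 a).1) ih.1, v.map_pow (h5 a).1]
          have h6 : (F a : ℝ) * v (u n a - η a) ≤ 0 :=
            mul_nonpos_of_nonneg_of_nonpos (Nat.cast_nonneg _) (h5 a).2
          linarith [ih.2]
      exact key Finset.univ
    have h5 : v.Ge (b - ε) (ev η (hd (fun l => F l + (K l : ℕ)) g) *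
        ∏ l, (u n l - η l) ^ (K l : ℕ)) := by
      intro h6
      have h7 : ev η (hd (fun l => F l + (K l : ℕ)) g) *
          ∏ l, (u n l - η l) ^ (F l + (K l : ℕ)) = (ev η (hd (fun l => F l + (K l : ℕ)) g) *
          ∏ l, (u n l - η l) ^ (K l : ℕ)) * ∏ l, (u n l - η l) ^ F l := by
        rw [mul_assoc, ← Finset.prod_mul_distrib]
        congr 1
        refine Finset.prod_congr rfl fun l _ => ?_
        rw [← pow_add, add_comm]
      rw [h7] at h3
      have h8 := h3 (mul_ne_zero h6 h4.1)
      rw [v.map_mul h6 h4.1] at h8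
      linarith [h4.2]
    have h6 : v.Ge 0 (∏ l, algebraMap L Ω (((F l + (K l : ℕ)).choose (F l) : ℕ) : L)) := by
      have h7 : ∏ l, algebraMap L Ω (((F l + (K l : ℕ)).choose (F l) : ℕ) : L) =
          ((∏ l, (F l + (K l : ℕ)).choose (F l) : ℕ) : Ω) := by
        rw [Nat.cast_prod]
        exact Finset.prod_congr rfl fun l _ => map_natCast _ _
      rw [h7]
      exact ge_natCast v _
    have h7 := h6.mul h5
    rw [zero_add, ← mul_assoc] at h7
    exact h7

end Nrm

end Pool.Agent.TWC
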