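import Pool.Agent.Lib.TWC.IsoB
import Pool.Agent.Lib.TWC.Ext
import Pool.Agent.Lib.TWC.DescDefs

/-!
# TANK W, class C: the operators on the closure of `B[w^(1/p^∞)]`

* `AU B u`: the elements `ev (u n) f`, `f` over `B`;
* `NBd`: the operators `hd F`, `F < p^n`, have norm `≤ 0` on `B[u n]`;
* `IsD p B u φ n F`: `φ` is the operator of order `F / p^n`; `exists_D`: existence;
* `IsD.lin`: it is `B`-linear; `IsD.isExt`: the operator over `L` extends the one over `P`.
-/

set_option autoImplicit false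

open Polynomial

namespace Pool.Agent.TWC

open Pool.Agent.H15JM (RVal)
open Pool.Agent.LU1 (VPos adj)
open Pool.Agent.D2 (Ctx0)
open Pool.Agent.D2P (clI mem_clI)
open Pool.Agent.TWM
open Pool.Agent.TWC.Key (hd ev sp lf)

universe u

variable {k Ω : Type u} [Field k] [Field Ω] [Algebra k Ω] {v : RVal Ω}
  {B L P : IntermediateField k Ω} {m : ℕ} {u : ℕ → Fin m → Ω}

/-- The elements `ev (u n) f`, `f` over `B`. -/
def AU (B : IntermediateField k Ω) {m : ℕ} (u : ℕ → Fin m → Ω) : Set Ω :=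
  {x | ∃ (n : ℕ) (f : (Fin m → ℕ) →₀ B), x = ev (u n) f}

/-- The operators `hd F`, `F < p^n`, have norm `≤ 0` on `B[u n]`. -/
def NBd (p : ℕ) (v : RVal Ω) (B : IntermediateField k Ω) {m : ℕ} (u : ℕ → Fin m → Ω) : Prop :=
  ∀ (n : ℕ) (F : Fin m → ℕ), (∀ l, F l < p ^ n) → ∀ (f : (Fin m → ℕ) →₀ B) (b : ℝ),
    v.Ge b (ev (u n) f) → v.Ge b (ev (u n) (hd F f))

section Lev

variable {p : ℕ}

theorem ev_lift (hr : ∀ n l, u (n + 1) l ^ p = u n l) (n j : ℕ) (f : (Fin m → ℕ) →₀ B) :
    ev (u (n + j)) (lf (p ^ j) f) = ev (u n) f := by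
  refine Key.ev_lf (fun l => ?_) f
  induction j with
  | zero => simp
  | succ j ih => rw [← add_assoc, pow_succ', pow_mul, hr, ih]

/-- The elements `ev (u n) f` as a subspace. -/
def AUs (B : IntermediateField k Ω) (hr : ∀ n l, u (n + 1) l ^ p = u n l) : Submodule k Ω where
  carrier := AU B u
  add_mem' := by
    rintro _ _ ⟨n, f, rfl⟩ ⟨n', f', rfl⟩
    refine ⟨n + n', lf (p ^ n') f + lf (p ^ n) f', ?_⟩
    rw [map_add, ev_lift hr, add_comm n n', ev_lift hr]
  zero_mem' := ⟨0, 0, by rw [map_zero]⟩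
  smul_mem' := by
    rintro a _ ⟨n, f, rfl⟩
    refine ⟨n, (⟨algebraMap k Ω a, B.algebraMap_mem a⟩ : B) • f, ?_⟩
    rw [map_smul, Algebra.smul_def, Algebra.smul_def]
    rfl

theorem AU.mul (hr : ∀ n l, u (n + 1) l ^ p = u n l) {x y : Ω} (hx : x ∈ AU B u)
    (hy : y ∈ AU B u) : x * y ∈ AU B u := by
  obtain ⟨n, f, rfl⟩ := hx
  obtain ⟨n', f', rfl⟩ := hy
  rw [← ev_lift hr n n' f, ← ev_lift hr n' n f', add_comm n' n]
  generalize lf (p ^ n') f = g
  generalize lf (p ^ n) f' = g'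
  generalize n + n' = N
  change ev (u N) g * ev (u N) g' ∈ AUs B hr
  induction g using Finsupp.induction_linear with
  | zero => rw [map_zero, zero_mul]; exact zero_mem _
  | add f g hf hg => rw [map_add, add_mul]; exact add_mem hf hg
  | single I c =>
    induction g' using Finsupp.induction_linear with
    | zero => rw [map_zero, mul_zero]; exact zero_mem _
    | add f g hf hg => rw [map_add, mul_add]; exact add_mem hf hg
    | single J d =>
      refine ⟨N, Finsupp.single (fun l => I l + J l) (c * d), ?_⟩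
      rw [Key.ev_single, Key.ev_single, Key.ev_single, map_mul]
      have h1 : ∏ l, u N l ^ (I l + J l) = (∏ l, u N l ^ I l) * ∏ l, u N l ^ J l := by
        rw [← Finset.prod_mul_distrib]
        exact Finset.prod_congr rfl fun l _ => pow_add _ _ _
      rw [h1]
      ring

theorem AU.base (B : IntermediateField k Ω) (u : ℕ → Fin m → Ω) {x : Ω} (hx : x ∈ B) :
    x ∈ AU B u := by
  refine ⟨0, Finsupp.single (fun _ => 0) ⟨x, hx⟩, ?_⟩
  rw [Key.ev_single]
  simp

theorem AU.gen (B : IntermediateField k Ω) (u : ℕ → Fin m → Ω) (n : ℕ) (l : Fin m) :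
    u n l ∈ AU B u := by
  classical
  refine ⟨n, Finsupp.single (Pi.single l 1) 1, ?_⟩
  rw [Key.ev_single, map_one, one_mul, Finset.prod_eq_single l]
  · rw [Pi.single_eq_same, pow_one]
  · intro j _ hj
    rw [Pi.single_eq_of_ne hj, pow_zero]
  · exact fun h => absurd (Finset.mem_univ l) h

theorem AU.mem {D : IntermediateField k Ω} (hB : B ≤ D) (hu : ∀ n l, u n l ∈ D) {x : Ω}
    (hx : x ∈ AU B u) : x ∈ D := by
  obtain ⟨n, f, rfl⟩ := hx
  exact ev_mem hB (hu n) f

/-- If the `u 0 l` are in `B`, then `AU B u` is a field. -/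
theorem AU.field (hr : ∀ n l, u (n + 1) l ^ p = u n l) (hp : 0 < p) (h0 : ∀ l, u 0 l ∈ B) {x : Ω}
    (hx : x ∈ B ⊔ IntermediateField.adjoin k {x | ∃ n l, x = u n l}) : x ∈ AU B u := by
  have h1 : ∀ y ∈ {x | ∃ n l, x = u n l}, IsAlgebraic B y := by
    rintro _ ⟨n, l, rfl⟩
    have h2 : u n l ^ p ^ n = u 0 l := by
      induction n with
      | zero => simp
      | succ n ih => rw [pow_succ', pow_mul, hr, ih]
    have h3 : IsAlgebraic B (u n l ^ p ^ n) := by
      rw [h2]
      exact isAlgebraic_algebraMap (R := B) (⟨_, h0 l⟩ : B)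
    exact IsAlgebraic.of_pow (pow_pos hp n) h3
  have h2 : B ⊔ IntermediateField.adjoin k {x | ∃ n l, x = u n l} ≤
      (IntermediateField.adjoin B {x | ∃ n l, x = u n l}).restrictScalars k := by
    refine sup_le (fun y hy => ?_) ?_
    · exact (IntermediateField.adjoin B _).algebraMap_mem (⟨y, hy⟩ : B)
    · rw [IntermediateField.adjoin_le_iff]
      exact fun y hy => IntermediateField.subset_adjoin B _ hy
  have h3 : x ∈ IntermediateField.adjoin B {x | ∃ n l, x = u n l} := h2 hx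
  have h4 : x ∈ Algebra.adjoin B {x | ∃ n l, x = u n l} := by
    rw [← IntermediateField.adjoin_toSubalgebra_of_isAlgebraic h1]
    exact h3
  clear hx h3
  induction h4 using Algebra.adjoin_induction with
  | mem y hy =>
    obtain ⟨n, l, rfl⟩ := hy
    exact AU.gen B u n l
  | algebraMap c => exact AU.base B u (SetLike.coe_mem c)
  | add y z _ _ hy hz => exact (AUs B hr).add_mem hy hz
  | mul y z _ _ hy hz => exact AU.mul hr hy hz

/-- The operator of order `F / p^n`. -/
def IsD (p : ℕ) (B : IntermediateField k Ω) {m : ℕ} (u : ℕ → Fin m → Ω) [Fact (Ctx0 k v)]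
    {E : IntermediateField k Ω} (φ : Opr v E) (n : ℕ) (F : Fin m → ℕ) : Prop :=
  ∀ (j : ℕ) (f : (Fin m → ℕ) →₀ B),
    fn φ (ev (u (n + j)) f) = ev (u (n + j)) (hd (fun l => p ^ j * F l) f)

end Lev

section Ex

variable {p : ℕ} [hp : Fact p.Prime] [CharP Ω p] [hcx : Fact (Ctx0 k v)]
  {E LE : IntermediateField k Ω}

theorem charP_sub (p : ℕ) [CharP Ω p] (B : IntermediateField k Ω) : CharP B p :=
  (RingHom.charP_iff (algebraMap B Ω) (algebraMap B Ω).injective p).2 inferInstance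

/-- the order at a finer level -/
theorem lt_level {n j : ℕ} {F : Fin m → ℕ} (hF : ∀ l, F l < p ^ n) (l : Fin m) :
    p ^ j * F l < p ^ (n + j) := by
  rw [pow_add, mul_comm]
  exact Nat.mul_lt_mul_of_pos_right (hF l) (pow_pos hp.out.pos j)

/-- the operator is well defined -/
theorem ev_hd_congr (hr : ∀ n l, u (n + 1) l ^ p = u n l) (hn : NBd p v B u) {n : ℕ}
    {F : Fin m → ℕ} (hF : ∀ l, F l < p ^ n) {j j' : ℕ} {f f' : (Fin m → ℕ) →₀ B}
    (h : ev (u (n + j)) f = ev (u (n + j')) f') :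
    ev (u (n + j)) (hd (fun l => p ^ j * F l) f) =
      ev (u (n + j')) (hd (fun l => p ^ j' * F l) f') := by
  have _ := charP_sub (Ω := Ω) p B
  have h1 : ∀ (j j' : ℕ) (f : (Fin m → ℕ) →₀ B),
      ev (u (n + j)) (hd (fun l => p ^ j * F l) f) =
        ev (u (n + j + j')) (hd (fun l => p ^ (j + j') * F l) (lf (p ^ j') f)) := by
    intro j j' f
    have h2 : (fun l => p ^ (j + j') * F l) = fun l => p ^ j' * (p ^ j * F l) := by
      funext l
      rw [← mul_assoc, ← pow_add, add_comm j' j]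
    rw [h2, Key.hd_lf p j' (fun l => p ^ j * F l) f, ev_lift hr]
  have h2 : ev (u (n + j + j')) (lf (p ^ j') f - lf (p ^ j) f') = 0 := by
    rw [map_sub, ev_lift hr, add_assoc, add_comm j j', ← add_assoc, ev_lift hr, h, sub_self]
  have h3 : ev (u (n + j + j')) (hd (fun l => p ^ (j + j') * F l)
      (lf (p ^ j') f - lf (p ^ j) f')) = 0 := by
    refine eq_zero_of_ge (v := v) fun b => hn _ _ (fun l => ?_) _ b ?_
    · rw [add_assoc]
      exact lt_level hF l
    · rw [h2]
      exact RVal.Ge.zero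
  rw [map_sub, map_sub, sub_eq_zero] at h3
  rw [h1 j j' f, h3, h1 j' j f', add_comm j' j, add_assoc n j' j, add_comm j' j, ← add_assoc]

/-- **Existence of the operators.** -/
theorem exists_D (hc : CompleteV v) (hr : ∀ n l, u (n + 1) l ^ p = u n l) (hn : NBd p v B u)
    (hE : Cld v E) (hBE : B ≤ E) (hu : ∀ n l, u n l ∈ E) (hd' : DnsS v (AU B u) E) (n : ℕ)
    (F : Fin m → ℕ) (hF : ∀ l, F l < p ^ n) : ∃ φ : Opr v E, IsD p B u φ n F := by
  classical
  -- representations
  have hrep : ∀ x : AUs B hr, ∃ (j : ℕ) (f : (Fin m → ℕ) →₀ B), (x : Ω) = ev (u (n + j)) f := by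
    rintro ⟨_, N, f, rfl⟩
    exact ⟨N, lf (p ^ n) f, by rw [add_comm n N, ev_lift hr]⟩
  choose J R hR using hrep
  have hval : ∀ (x : AUs B hr) (j : ℕ) (f : (Fin m → ℕ) →₀ B), (x : Ω) = ev (u (n + j)) f →
      ev (u (n + J x)) (hd (fun l => p ^ J x * F l) (R x)) =
        ev (u (n + j)) (hd (fun l => p ^ j * F l) f) := fun x j f h =>
    ev_hd_congr hr hn hF ((hR x).symm.trans h)
  -- a common level
  have hcom : ∀ x y : AUs B hr, ∃ (j : ℕ) (f g : (Fin m → ℕ) →₀ B),
      (x : Ω) = ev (u (n + j)) f ∧ (y : Ω) = ev (u (n + j)) g := by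
    intro x y
    refine ⟨J x + J y, lf (p ^ J y) (R x), lf (p ^ J x) (R y), ?_, ?_⟩
    · rw [← add_assoc, ev_lift hr, ← hR]
    · rw [add_comm (J x), ← add_assoc, ev_lift hr, ← hR]
  let f : AUs B hr →ₗ[k] Ω :=
    { toFun := fun x => ev (u (n + J x)) (hd (fun l => p ^ J x * F l) (R x))
      map_add' := by
        intro x y
        obtain ⟨j, f, g, hx, hy⟩ := hcom x y
        rw [hval x j f hx, hval y j g hy, hval (x + y) j (f + g) (by
          rw [map_add, ← hx, ← hy]; rfl), map_add, map_add]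
      map_smul' := by
        intro a x
        have h1 := hval (a • x) (J x) ((⟨algebraMap k Ω a, B.algebraMap_mem a⟩ : B) • R x) (by
          rw [map_smul, ← hR, Algebra.smul_def]
          change a • (x : Ω) = _
          rw [Algebra.smul_def]
          rfl)
        rw [h1, map_smul, map_smul, Algebra.smul_def, RingHom.id_apply, Algebra.smul_def]
        rfl }
  obtain ⟨φ, hφ⟩ := exists_ext hE hc (AUs B hr) (fun a ha => AU.mem hBE hu ha) hd' f
    (fun a => ev_mem hBE (hu _) _) (fun a b hb => by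
      refine hn _ _ (fun l => lt_level hF l) _ b ?_
      rw [← hR]
      exact hb)
  refine ⟨φ, fun j g => ?_⟩
  have hmem : ev (u (n + j)) g ∈ AUs B hr := ⟨n + j, g, rfl⟩
  rw [hφ _ hmem]
  exact hval ⟨_, hmem⟩ j g rfl

/-- The operators are `B`-linear. -/
theorem IsD.lin (hr : ∀ n l, u (n + 1) l ^ p = u n l) (hBE : B ≤ E)
    (hd' : DnsS v (AU B u) E) {n : ℕ} {F : Fin m → ℕ} {φ : Opr v E} (h : IsD p B u φ n F) :
    ∀ c ∈ B, ∀ x ∈ E, fn φ (c * x) = c * fn φ x := by
  refine lin_of_dense (S' := (B : Set Ω)) hBE hd' (fun x hx b => ⟨x, hx, hx, by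
    rw [sub_self]; exact RVal.Ge.zero⟩) ?_
  rintro c - hc _ ⟨N, f, rfl⟩ -
  have h1 : ev (u N) f = ev (u (n + N)) (lf (p ^ n) f) := by
    rw [add_comm n N, ev_lift hr]
  rw [h1, h N]
  have h2 : c * ev (u (n + N)) (lf (p ^ n) f) = ev (u (n + N)) ((⟨c, hc⟩ : B) • lf (p ^ n) f) := by
    rw [map_smul, Algebra.smul_def]
    rfl
  rw [h2, h N, map_smul, map_smul, Algebra.smul_def]
  rfl

/-- Change of the base. -/
theorem ev_base (hPL : P ≤ L) (a : Fin m → Ω) (f : (Fin m → ℕ) →₀ P) :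
    ev a (f.mapRange (IntermediateField.inclusion hPL) (map_zero _)) = ev a f := by
  induction f using Finsupp.induction_linear with
  | zero => simp
  | add f g hf hg =>
    rw [Finsupp.mapRange_add (map_add _), map_add, hf, hg, map_add]
  | single I c =>
    rw [Finsupp.mapRange_single, Key.ev_single, Key.ev_single]
    rfl

theorem hd_base (hPL : P ≤ L) (F : Fin m → ℕ) (f : (Fin m → ℕ) →₀ P) :
    hd F (f.mapRange (IntermediateField.inclusion hPL) (map_zero _)) =
      (hd F f).mapRange (IntermediateField.inclusion hPL) (map_zero _) := by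
  induction f using Finsupp.induction_linear with
  | zero => simp
  | add f g hf hg =>
    rw [Finsupp.mapRange_add (map_add _), map_add, hf, hg, map_add,
      Finsupp.mapRange_add (map_add _)]
  | single I c =>
    rw [Finsupp.mapRange_single, Key.hd_single, Key.hd_single, Finsupp.mapRange_single]
    congr 1
    rw [map_mul, map_prod]
    simp only [map_natCast]

/-- The operator over `L` extends the operator over `P`. -/
theorem IsD.isExt (hr : ∀ n l, u (n + 1) l ^ p = u n l) (hPL : P ≤ L) (hELE : E ≤ LE)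
    (hLLE : L ≤ LE) (hdE : DnsS v (AU P u) E) (hdL : DnsS v (AU L u) LE) {n : ℕ}
    {F : Fin m → ℕ} {φ : Opr v E} {Φ : Opr v LE} (hφ : IsD p P u φ n F)
    (hΦ : IsD p L u Φ n F) : IsExt L φ Φ := by
  refine ⟨fun e he => ?_, hΦ.lin hr hLLE hdL⟩
  refine eq_of_ge (v := v) fun b => ?_
  obtain ⟨_, ⟨N, f, rfl⟩, hfE, h1⟩ := hdE e he b
  have h2 : ev (u N) f = ev (u (n + N)) (lf (p ^ n) f) := by
    rw [add_comm n N, ev_lift hr]
  have h3 : fn Φ (ev (u N) f) = fn φ (ev (u N) f) := by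
    rw [h2, hφ N, ← ev_base hPL, hΦ N, hd_base, ev_base]
  have e1 : fn Φ e - fn φ e = (fn Φ e - fn Φ (ev (u N) f)) - (fn φ e - fn φ (ev (u N) f)) := by
    rw [h3]; ring
  rw [e1]
  exact (fn_near Φ (hELE he) (hELE hfE) h1).sub (fn_near φ he hfE h1)

end Ex

end Pool.Agent.TWC
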