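import Pool.Agent.Lib.TWC.IsoB

/-!
# TANK W, class C: tight pairs of any level

`L` closed, `w l = u 0 l ∈ L`, `u n l` compatible `p^n`-th roots. The levels `ρ l` are arbitrary.

* `AO.stepL`, `AO.towerL`: almost orthogonality of the powers of `s - h`, any level;
* `IsoL p v L u ρ`: `u 1 l` is far (level `ρ l / p`) from the closed field generated by `L` and all
  the roots of the `w j`, `j < l`; `u n l` is a limit of `L` up to `ρ l / p ^ n`;
* `IsoL.ao`: almost orthogonality of the monomials in `u n - η`;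
* `IsoL.norm_le`: the norm of the operators `hd F`, `F < p^n`, on `L[u n]`.
-/

set_option autoImplicit false

open Polynomial

namespace Pool.Agent.TWC

open Pool.Agent.H15JM (RVal)
open Pool.Agent.LU1 (VPos adj)
open Pool.Agent.D2 (Ctx0)
open Pool.Agent.D2P (clI mem_clI)
open Pool.Agent.TWM Pool.Agent.TWM.C
open Pool.Agent.TWC.Key (hd ev sp)

universe u

variable {k Ω : Type u} [Field k] [Field Ω] [Algebra k Ω] {v : RVal Ω}
  {M M' : IntermediateField k Ω}

section

variable (p : ℕ) [hp : Fact p.Prime] [CharP k p] [CharP Ω p] [IsAlgClosed Ω]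

/-- One step. -/
theorem AO.stepL (h0 : Ctx0 k v) {u h : Ω} {ρ : ℝ} (hs : PStep p v M u ρ) (hh : h ∈ M) {γ : ℝ}
    (hγ : 0 ≤ γ) (hu : v.Ge (ρ - γ) (u - h)) :
    AO v M (fun a : Fin p => (u - h) ^ (a : ℕ)) (p * γ) := by
  classical
  intro c hc r hr i
  set P : Polynomial Ω := ∑ a : Fin p, C (c a) * (X - C h) ^ (a : ℕ) with hP
  have hPM : P ∈ PI M := by
    refine sum_mem fun a _ => mul_mem ?_ (pow_mem (sub_mem ?_ ?_) _)
    · intro j
      rw [coeff_C]
      split_ifs
      exacts [hc a, zero_mem M]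
    · intro j
      rw [coeff_X]
      split_ifs
      exacts [one_mem M, zero_mem M]
    · intro j
      rw [coeff_C]
      split_ifs
      exacts [hh, zero_mem M]
  have hPu : P.eval u = ∑ a : Fin p, c a * (u - h) ^ (a : ℕ) := by
    rw [hP, eval_finsetSum]
    refine Finset.sum_congr rfl fun a _ => ?_
    rw [eval_mul, eval_C, eval_pow, eval_sub, eval_X, eval_C]
  have hPh : ∀ a : Fin p, (taylor h P).coeff a = c a := by
    intro a
    have h1 : taylor h P = ∑ a : Fin p, C (c a) * X ^ (a : ℕ) := by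
      rw [hP, map_sum]
      refine Finset.sum_congr rfl fun a _ => ?_
      rw [taylor_mul, taylor_C, taylor_pow, map_sub, taylor_X, taylor_C, add_sub_cancel_right]
    rw [h1, finsetSum_coeff, Finset.sum_eq_single a]
    · rw [coeff_C_mul, coeff_X_pow, if_pos rfl, mul_one]
    · intro b _ hb
      rw [coeff_C_mul, coeff_X_pow, if_neg (fun h => hb (Fin.ext h.symm)), mul_zero]
    · exact fun h => absurd (Finset.mem_univ a) h
  have hdeg : P.natDegree < p := by
    refine lt_of_le_of_lt (natDegree_sum_le_of_forall_le (n := p - 1) _ _ fun a _ => ?_)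
      (Nat.sub_lt hp.out.pos one_pos)
    refine (natDegree_C_mul_le _ _).trans ((natDegree_pow_le).trans ?_)
    rw [natDegree_X_sub_C, mul_one]
    have := a.2
    omega
  by_cases hP0 : P = 0
  · have h1 := hPh i
    rw [hP0, map_zero, coeff_zero] at h1
    change v.Ge _ (c i * _)
    rw [← h1, zero_mul]
    exact RVal.Ge.zero
  · have h4 := fun l => Roots.taylor_ge hP0 (fun θ hθ => hs.root p h0 hPM hP0 hdeg hθ) l
    have hPr : r ≤ v (P.eval u) := by
      have : P.eval u ≠ 0 := fun h => hP0 (hs.eq_zero p h0 hPM hdeg h)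
      rw [hPu] at this ⊢
      exact hr this
    have h5 : v.Ge (r - i * ρ - (p - i : ℝ) * γ) (c i) := by
      rw [← hPh i]
      have h6 : taylor h P = taylor (h - u) (taylor u P) := by
        rw [taylor_taylor, sub_add_cancel]
      rw [h6, taylor_coeff, hasseDeriv_apply, Polynomial.sum, eval_finsetSum]
      refine RVal.Ge.sum _ _ fun n hn => ?_
      rw [eval_monomial]
      rcases lt_or_ge n i with h7 | h7
      · rw [Nat.choose_eq_zero_of_lt h7, Nat.cast_zero, zero_mul, zero_mul]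
        exact RVal.Ge.zero
      · have h8 : n < p := by
          have h9 := le_natDegree_of_mem_supp n hn
          rw [natDegree_taylor] at h9
          omega
        rw [mul_assoc]
        have h9 := (ge_natCast v (n.choose i)).mul ((h4 n).mul
          (ge_pow (ge_sub_comm hu) (n - i)))
        refine h9.mono ?_
        rw [Nat.cast_sub h7]
        have h10 : (n : ℝ) ≤ p := by exact_mod_cast h8.le
        nlinarith
    have h6 := h5.mul (ge_pow hu i)
    change v.Ge _ (c i * _)
    refine h6.mono ?_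
    nlinarith

omit [CharP k p] [IsAlgClosed Ω] in
/-- The steps of a purely inseparable extension. -/
theorem pstep_allL (hc : CompleteV v) (hM : Cld v M) {s : Ω} {ρ : ℝ} {n : ℕ}
    (hs : s ^ p ^ (n + 1) ∈ M) (hfar : ¬ Nr' v M (p ^ n * ρ) (s ^ p ^ n)) {i : ℕ} (hi : i ≤ n) :
    PStep p v (adj M (s ^ p ^ (i + 1))) (s ^ p ^ i) (p ^ i * ρ) := by
  have hs' : (s ^ p ^ (i + 1)) ^ p ^ (n - i) ∈ M := by
    rw [← pow_mul, ← pow_add, show i + 1 + (n - i) = n + 1 by omega]
    exact hs
  have halg : IsAlgebraic M (s ^ p ^ (i + 1)) := by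
    have h1 : IsAlgebraic M ((s ^ p ^ (i + 1)) ^ p ^ (n - i)) :=
      isAlgebraic_algebraMap (R := M) (⟨_, hs'⟩ : M)
    exact IsAlgebraic.of_pow (pow_pos hp.out.pos _) h1
  refine ⟨cld_adj hc hM halg, ?_, ?_⟩
  · rw [← pow_mul, ← pow_succ]
    exact (D2P.mem_adj_self M _).1
  · rintro ⟨a, ha, h1⟩
    apply hfar
    -- `a ^ (p ^ (n - i)) ∈ M`
    have h2 : a ^ p ^ (n - i) ∈ M := by
      have _ : ExpChar Ω p := ExpChar.prime hp.out
      rw [D2P.mem_adj_iff] at ha
      have h4 : a ∈ Algebra.adjoin M {s ^ p ^ (i + 1)} := by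
        rw [← IntermediateField.adjoin_simple_toSubalgebra_of_isAlgebraic halg]
        exact ha
      rw [Algebra.adjoin_singleton_eq_range_aeval] at h4
      obtain ⟨P, hP⟩ := h4
      have hP' : aeval (s ^ p ^ (i + 1)) P = a := hP
      rw [← hP', aeval_eq_sum_range, sum_pow_char_pow]
      refine sum_mem fun j _ => ?_
      rw [Algebra.smul_def, mul_pow, ← pow_mul, mul_comm j, pow_mul]
      exact mul_mem (pow_mem (SetLike.coe_mem _) _) (pow_mem hs' _)
    refine ⟨_, h2, ?_⟩
    have h3 : s ^ p ^ n - a ^ p ^ (n - i) = (s ^ p ^ i - a) ^ p ^ (n - i) := by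
      rw [sub_pow_char_pow, ← pow_mul, ← pow_add, show i + (n - i) = n by omega]
    rw [h3]
    intro h5
    have h6 : s ^ p ^ i - a ≠ 0 := by
      intro h7
      rw [h7, zero_pow (pow_pos hp.out.pos _).ne'] at h5
      exact h5 rfl
    rw [v.map_pow h6]
    have h7 := h1 h6
    have h8 : (0 : ℝ) < (p ^ (n - i) : ℕ) := by exact_mod_cast pow_pos hp.out.pos _
    have h9 : (p : ℝ) ^ n * ρ = (p ^ (n - i) : ℕ) * (p ^ i * ρ) := by
      push_cast
      rw [← mul_assoc, ← pow_add, show n - i + i = n by omega]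
    rw [h9]
    exact mul_lt_mul_of_pos_left h7 h8

/-- The powers of `s - h`. -/
theorem AO.towerL (h0 : Ctx0 k v) (n : ℕ) : ∀ {s h : Ω} {ρ γ : ℝ}, 0 ≤ γ →
    (∀ i < n, PStep p v (adj M (s ^ p ^ (i + 1))) (s ^ p ^ i) (p ^ i * ρ)) → h ∈ M →
    v.Ge (ρ - γ) (s - h) →
    AO v M (fun J : Fin (p ^ n) => (s - h) ^ (J : ℕ)) (n * p ^ n * γ) := by
  induction n with
  | zero =>
    intro s h ρ γ hγ _ _ _ c hc r hr i
    have h1 : ∑ i : Fin (p ^ 0), c i * (s - h) ^ (i : ℕ) = c i * (s - h) ^ (i : ℕ) := by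
      have : ∀ j : Fin (p ^ 0), j = i := fun j => by
        have h2 : ((j : ℕ)) < 1 := lt_of_lt_of_eq j.2 (pow_zero p)
        have h3 : ((i : ℕ)) < 1 := lt_of_lt_of_eq i.2 (pow_zero p)
        exact Fin.ext (by omega)
      rw [Finset.sum_eq_single i (fun b _ hb => absurd (this b) hb)
        (fun h => absurd (Finset.mem_univ i) h)]
    rw [h1] at hr
    refine hr.mono (by simp)
  | succ n ih =>
    intro s h ρ γ hγ hst hh hsh
    have hp1 : (1 : ℝ) ≤ p := by exact_mod_cast hp.out.one_lt.le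
    -- the steps of `s ^ p`
    have h1 : AO v M (fun J : Fin (p ^ n) => (s ^ p - h ^ p) ^ (J : ℕ)) (n * p ^ n * (p * γ)) := by
      refine ih (ρ := p * ρ) (by positivity) (fun i hi => ?_) (pow_mem hh p) ?_
      · have h2 := hst (i + 1) (by omega)
        rw [show (s ^ p) ^ p ^ (i + 1) = s ^ p ^ (i + 1 + 1) by
          rw [← pow_mul, ← pow_succ' p (i + 1)], show (s ^ p) ^ p ^ i = s ^ p ^ (i + 1) by
          rw [← pow_mul, ← pow_succ' p i]]
        rwa [show (p : ℝ) ^ i * (p * ρ) = p ^ (i + 1) * ρ by ring]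
      · rw [← sub_pow_char]
        have h2 := ge_pow hsh p
        refine h2.mono (by linarith)
    have h2 : AO v (adj M (s ^ p)) (fun a : Fin p => (s - h) ^ (a : ℕ)) (p * γ) := by
      have h3 := hst 0 (by omega)
      rw [zero_add, pow_one, pow_zero, pow_one, pow_zero, one_mul] at h3
      exact AO.stepL p h0 h3 ((D2P.mem_adj_self M _).2 hh) hγ hsh
    have h3 := h1.prod h2 (D2P.mem_adj_self M _).2 (fun i => pow_mem (sub_mem
      (D2P.mem_adj_self M _).1 ((D2P.mem_adj_self M _).2 (pow_mem hh p))) _)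
    refine (AO.reindex h3 ((finCongr (pow_succ p n)).trans
      (finProdFinEquiv.symm.trans (Equiv.prodComm _ _))) fun J => ?_).mono ?_
    · change (s - h) ^ (J : ℕ) = (s - h) ^ ((J : ℕ) % p) * (s ^ p - h ^ p) ^ ((J : ℕ) / p)
      rw [← sub_pow_char, ← pow_mul, ← pow_add, Nat.mod_add_div]
    · push_cast
      have h4 : (1 : ℝ) ≤ (p : ℝ) ^ n := one_le_pow₀ hp1
      have h5 : (p : ℝ) * γ ≤ (p : ℝ) ^ n * (p * γ) :=
        le_mul_of_one_le_left (by positivity) h4
      have h6 : (p : ℝ) ^ (n + 1) = p ^ n * p := pow_succ _ _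
      rw [h6]
      nlinarith

end

/-- Compatible roots `u n l` of elements `u 0 l` of the closed field `L`, of levels `ρ l`. -/
structure IsoL (p : ℕ) (v : RVal Ω) (L : IntermediateField k Ω) {m : ℕ} (u : ℕ → Fin m → Ω)
    (ρ : Fin m → ℝ) : Prop where
  cld : Cld v L
  mem : ∀ l, u 0 l ∈ L
  root : ∀ n l, u (n + 1) l ^ p = u n l
  far : ∀ l : Fin m, ¬ Nr' v (Lx v L u l) (ρ l / p) (u 1 l)
  lim : ∀ n l, ∀ ε : ℝ, 0 < ε → ∃ h ∈ L, v.Ge (ρ l / p ^ n - ε) (u n l - h)

theorem Iso.toL {p : ℕ} {L : IntermediateField k Ω} {m : ℕ} {u : ℕ → Fin m → Ω}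
    (h : Iso p v L u) : IsoL p v L u fun _ => 0 where
  cld := h.cld
  mem := h.mem
  root := h.root
  far l := by rw [zero_div]; exact h.far l
  lim n l ε hε := by
    obtain ⟨a, ha, h1⟩ := h.lim n l ε hε
    exact ⟨a, ha, by rwa [zero_div, zero_sub]⟩

theorem IsoL.toIso {p : ℕ} {L : IntermediateField k Ω} {m : ℕ} {u : ℕ → Fin m → Ω}
    (h : IsoL p v L u fun _ => 0) : Iso p v L u where
  cld := h.cld
  mem := h.mem
  root := h.root
  far l := by
    have := h.far l
    rwa [zero_div] at this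
  lim n l ε hε := by
    obtain ⟨a, ha, h1⟩ := h.lim n l ε hε
    exact ⟨a, ha, by rwa [zero_div, zero_sub] at h1⟩

section AOs

variable {p : ℕ} [hp : Fact p.Prime] [CharP Ω p] {L : IntermediateField k Ω} {m : ℕ}
  {u : ℕ → Fin m → Ω} {ρ : Fin m → ℝ}

omit hp [CharP Ω p] in
theorem IsoL.root_pow (h : IsoL p v L u ρ) (n j : ℕ) (l : Fin m) :
    u (n + j) l ^ p ^ j = u n l := by
  induction j with
  | zero => simp
  | succ j ih =>
    rw [← add_assoc, pow_succ', pow_mul, h.root, ih]

omit hp [CharP Ω p] in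
theorem IsoL.root_pow' (h : IsoL p v L u ρ) (n : ℕ) (l : Fin m) : u n l ^ p ^ n = u 0 l := by
  have := h.root_pow 0 n l
  rwa [zero_add] at this

/-- The distances to the field generated by the roots of the `w j`, `j < l`. -/
theorem IsoL.far' (h : IsoL p v L u ρ) {n : ℕ} (hn : n ≠ 0) (l : Fin m) :
    ¬ Nr' v (Lx v L u l) (ρ l / p ^ n) (u n l) := by
  obtain ⟨n, rfl⟩ := Nat.exists_eq_succ_of_ne_zero hn
  rintro ⟨η, hη, h2⟩
  apply h.far l
  refine ⟨η ^ p ^ n, pow_mem hη _, ?_⟩
  have h1 : u 1 l = u (n + 1) l ^ p ^ n := by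
    have := h.root_pow 1 n l
    rw [← this, add_comm]
  rw [h1, ← sub_pow_char_pow]
  have hp0 : (0 : ℝ) < p := by exact_mod_cast hp.out.pos
  intro h3
  have h4 : u (n + 1) l - η ≠ 0 := by
    intro h4
    rw [h4, zero_pow (pow_pos hp.out.pos _).ne'] at h3
    exact h3 rfl
  have h5 := h2 h4
  rw [v.map_pow h4]
  have h6 : (0 : ℝ) < (p ^ n : ℕ) := by exact_mod_cast pow_pos hp.out.pos _
  have h7 := mul_lt_mul_of_pos_left h5 h6
  refine lt_of_le_of_lt (le_of_eq ?_) h7
  push_cast
  rw [Nat.succ_eq_add_one, pow_succ]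
  field_simp

/-- The differences `u n l - η`, `η ∈ L`, have value `≤ ρ l / p ^ n`. -/
theorem IsoL.le_lev (h : IsoL p v L u ρ) {n : ℕ} (hn : n ≠ 0) (l : Fin m) {η : Ω} (hη : η ∈ L) :
    u n l - η ≠ 0 ∧ v (u n l - η) ≤ ρ l / p ^ n := by
  by_contra hno
  refine h.far' hn l ⟨η, le_Lx v L u l hη, fun h1 => ?_⟩
  by_contra h2
  exact hno ⟨h1, not_lt.1 h2⟩

variable [CharP k p] [IsAlgClosed Ω]

/-- Almost orthogonality of the monomials in `u n - η`. -/
theorem IsoL.ao (h0 : Ctx0 k v) (hc : CompleteV v) (h : IsoL p v L u ρ) (n : ℕ) {η : Fin m → Ω}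
    (hη : ∀ l, η l ∈ L) {γ : ℝ} (hγ : 0 ≤ γ) (hu : ∀ l, v.Ge (ρ l / p ^ n - γ) (u n l - η l)) :
    AO v L (fun J : Fin m → Fin (p ^ n) => ∏ l, (u n l - η l) ^ (J l : ℕ))
      (m * (n * p ^ n * γ)) := by
  have hp0 : (0 : ℝ) < p := by exact_mod_cast hp.out.pos
  have key : ∀ (l : ℕ) (hl : l ≤ m), AO v L (fun J : Fin l → Fin (p ^ n) =>
      ∏ i, (u n (Fin.castLE hl i) - η (Fin.castLE hl i)) ^ (J i : ℕ)) (l * (n * p ^ n * γ)) := by
    intro l
    induction l with
    | zero =>
      intro hl c hc' r hr i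
      have h1 : ∀ J : Fin 0 → Fin (p ^ n), J = i := fun J => Subsingleton.elim _ _
      rw [Finset.sum_eq_single i (fun b _ hb => absurd (h1 b) hb)
        (fun h => absurd (Finset.mem_univ i) h)] at hr
      exact hr.mono (by simp)
    | succ l ih =>
      intro hl
      have h1 := ih (by omega)
      set t : Fin m := Fin.castLE hl (Fin.last l) with ht
      have htl : (t : ℕ) = l := rfl
      have hst : ∀ i < n, PStep p v (adj (Lx v L u l) (u n t ^ p ^ (i + 1))) (u n t ^ p ^ i)
          (p ^ i * (ρ t / p ^ n)) := by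
        intro i hi
        obtain ⟨n', rfl⟩ := Nat.exists_eq_add_of_lt (lt_of_le_of_lt (Nat.zero_le i) hi)
        rw [zero_add] at hi ⊢
        refine pstep_allL p hc (cld_clI v _) (n := n') ?_ ?_ (by omega)
        · rw [h.root_pow']
          exact le_Lx v L u l (h.mem t)
        · have h2 : u (n' + 1) t ^ p ^ n' = u 1 t := by
            have := h.root_pow 1 n' t
            rw [← this, add_comm]
          rw [h2]
          have h3 := h.far t
          rw [htl] at h3
          have h4 : (p : ℝ) ^ n' * (ρ t / p ^ (n' + 1)) = ρ t / p := by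
            rw [pow_succ]
            field_simp
          rwa [h4]
      have h2 := AO.towerL p h0 n hγ hst (le_Lx v L u l (hη t)) (hu t)
      have h3 := h1.prod h2 (le_Lx v L u l) (fun J => prod_mem fun i _ => pow_mem (sub_mem
        (mem_Lx v L u n (by
          change (i : ℕ) < l
          exact i.2)) (le_Lx v L u l (hη _))) _)
      refine (AO.reindex h3 (Fin.snocEquiv fun _ => Fin (p ^ n)).symm fun J => ?_).mono ?_
      · rw [Fin.prod_univ_castSucc, mul_comm]
        rfl
      · push_cast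
        linarith
  have h1 := key m le_rfl
  exact h1

end AOs

/-! ## The norm of the operators -/

section Nrm

variable {p : ℕ} [hp : Fact p.Prime] [CharP k p] [CharP Ω p] [IsAlgClosed Ω]
  {L : IntermediateField k Ω} {m : ℕ} {u : ℕ → Fin m → Ω} {ρ : Fin m → ℝ}

/-- **The norm of the operators `hd F`, `F < p^n`, on `L[u n]`.** -/
theorem IsoL.norm_le (h0 : Ctx0 k v) (hc : CompleteV v) (h : IsoL p v L u ρ) (n : ℕ)
    (F : Fin m → ℕ) (hF : ∀ l, F l < p ^ n) (f : (Fin m → ℕ) →₀ L) {b : ℝ}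
    (hb : v.Ge b (ev (u n) f)) :
    v.Ge (b - ∑ l, F l * (ρ l / p ^ n)) (ev (u n) (hd F f)) := by
  classical
  have _ : CharP L p := charP_of_injective_algebraMap (algebraMap L Ω).injective p |> fun _ =>
    (RingHom.charP_iff (algebraMap L Ω) (algebraMap L Ω).injective p).2 inferInstance
  rcases Nat.eq_zero_or_pos n with rfl | hn
  · have h1 : F = fun _ => 0 := by
      funext l
      have := hF l
      rw [pow_zero] at this
      omega
    rw [h1, Key.hd_zero]
    simpa using hb
  have hq : 0 < p ^ n := pow_pos hp.out.pos n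
  set w : Fin m → L := fun l => ⟨u 0 l, h.mem l⟩ with hw
  have hu : ∀ l, u n l ^ p ^ n = algebraMap L Ω (w l) := fun l => h.root_pow' n l
  rw [← ev_hd_red p n hu F hF f]
  have hb' : v.Ge b (ev (u n) (red (p ^ n) w f)) := by
    have h1 := ev_hd_red p n hu (fun _ => 0) (fun _ => hq) f
    rw [Key.hd_zero, Key.hd_zero] at h1
    rw [h1]
    exact hb
  set g := red (p ^ n) w f with hg
  have hgs : ∀ I ∈ g.support, ∀ l, I l < p ^ n := red_supp hq w f
  refine Key.ge_of_forall fun ε hε => ?_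
  -- the near point
  obtain ⟨γ, hγ, hγε⟩ : ∃ γ : ℝ, 0 < γ ∧ m * (n * p ^ n * γ) ≤ ε := by
    have h1 : (0 : ℝ) ≤ m * (n * p ^ n) := by positivity
    refine ⟨ε / (m * (n * p ^ n) + 1), by positivity, ?_⟩
    rw [show (m : ℝ) * (n * p ^ n * (ε / (m * (n * p ^ n) + 1))) =
      (m * (n * p ^ n)) * ε / (m * (n * p ^ n) + 1) by ring, div_le_iff₀ (by positivity)]
    nlinarith
  choose η hη hηu using fun l => h.lim n l γ hγ
  have hao := (h.ao h0 hc n hη hγ.le hηu).mono hγε
  -- the expansion of `g` at `η`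
  have h1 := ev_taylor' η (u n) g (p ^ n) hgs
  rw [sum_pi_range] at h1
  rw [h1] at hb'
  have h2 := hao (fun J => ev η (hd (fun l => (J l : ℕ)) g)) (fun J => ev_mem le_rfl hη _) b hb'
  -- the expansion of `hd F g`
  have hgs' : ∀ I ∈ (hd F g).support, ∀ l, I l < p ^ n := by
    have key : ∀ g' : (Fin m → ℕ) →₀ L, (∀ I ∈ g'.support, ∀ l, I l < p ^ n) →
        ∀ I ∈ (hd F g').support, ∀ l, I l < p ^ n := by
      intro g'
      induction g' using Finsupp.induction with
      | zero => intro _; simp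
      | single_add I c g' hI hc' ih =>
        intro hs J hJ
        have hs' : (Finsupp.single I c + g').support = insert I g'.support := by
          rw [Finsupp.support_add_eq, Finsupp.support_single _ hc']
          · rfl
          · rw [Finsupp.support_single _ hc']
            exact Finset.disjoint_singleton_left.2 hI
        rw [hs'] at hs
        rw [map_add] at hJ
        rcases Finset.mem_union.1 (Finsupp.support_add hJ) with h4 | h4
        · rw [Key.hd_single] at h4
          have h5 := Finsupp.support_single_subset h4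
          rw [Finset.mem_singleton] at h5
          intro l
          rw [h5]
          exact lt_of_le_of_lt (Nat.sub_le _ _) (hs I (Finset.mem_insert_self _ _) l)
        · exact ih (fun K hK => hs K (Finset.mem_insert_of_mem hK)) J h4
    exact key g hgs
  rw [ev_taylor' η (u n) (hd F g) (p ^ n) hgs', sum_pi_range]
  refine RVal.Ge.sum _ _ fun K _ => ?_
  rw [Key.hd_hd, map_smul, Algebra.smul_def, map_prod]
  by_cases hbig : ∃ l, p ^ n ≤ F l + K l
  · obtain ⟨l, hl⟩ := hbig
    have h3 : hd (fun l => F l + (K l : ℕ)) g = 0 :=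
      Key.hd_eq_zero fun I hI => ⟨l, lt_of_lt_of_le (hgs I hI l) hl⟩
    rw [h3, map_zero, mul_zero, zero_mul]
    exact RVal.Ge.zero
  · push Not at hbig
    have h3 := h2 fun l => ⟨F l + K l, hbig l⟩
    change v.Ge (b - ε) (ev η (hd (fun l => F l + (K l : ℕ)) g) *
      ∏ l, (u n l - η l) ^ (F l + (K l : ℕ))) at h3
    -- the value of `∏ (u - η) ^ F`
    have h4 : ∏ l, (u n l - η l) ^ F l ≠ 0 ∧
        v (∏ l, (u n l - η l) ^ F l) ≤ ∑ l, F l * (ρ l / p ^ n) := by
      have h5 : ∀ l, u n l - η l ≠ 0 ∧ v (u n l - η l) ≤ ρ l / p ^ n :=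
        fun l => h.le_lev hn.ne' l (hη l)
      have key : ∀ s : Finset (Fin m), ∏ l ∈ s, (u n l - η l) ^ F l ≠ 0 ∧
          v (∏ l ∈ s, (u n l - η l) ^ F l) ≤ ∑ l ∈ s, F l * (ρ l / p ^ n) := by
        intro s
        induction s using Finset.induction_on with
        | empty =>
          rw [Finset.prod_empty, Finset.sum_empty]
          exact ⟨one_ne_zero, by rw [v.map_one]⟩
        | insert a s ha ih =>
          rw [Finset.prod_insert ha, Finset.sum_insert ha]
          refine ⟨mul_ne_zero (pow_ne_zero _ (h5 a).1) ih.1, ?_⟩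
          rw [v.map_mul (pow_ne_zero _ (h5 a).1) ih.1, v.map_pow (h5 a).1]
          have h6 : (F a : ℝ) * v (u n a - η a) ≤ F a * (ρ a / p ^ n) :=
            mul_le_mul_of_nonneg_left (h5 a).2 (Nat.cast_nonneg _)
          linarith [ih.2]
      exact key Finset.univ
    have h5 : v.Ge (b - ε - ∑ l, F l * (ρ l / p ^ n))
        (ev η (hd (fun l => F l + (K l : ℕ)) g) * ∏ l, (u n l - η l) ^ (K l : ℕ)) := by
      intro h6
      have h7 : ev η (hd (fun l => F l + (K l : ℕ)) g) *
          ∏ l, (u n l - η l) ^ (F l + (K l : ℕ)) = (ev η (hd (fun l => F l + (K l : ℕ)) g) *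
          ∏ l, (u n l - η l) ^ (K l : ℕ)) * ∏ l, (u n l - η l) ^ F l := by
        rw [mul_assoc, ← Finset.prod_mul_distrib]
        congr 1
        refine Finset.prod_congr rfl fun l _ => ?_
        rw [← pow_add, add_comm]
      rw [h7] at h3
      have h8 := h3 (mul_ne_zero h6 h4.1)
      rw [v.map_mul h6 h4.1] at h8
      linarith [h4.2]
    have h6 : v.Ge 0 (∏ l, algebraMap L Ω (((F l + (K l : ℕ)).choose (F l) : ℕ) : L)) := by
      have h7 : ∏ l, algebraMap L Ω (((F l + (K l : ℕ)).choose (F l) : ℕ) : L) =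
          ((∏ l, (F l + (K l : ℕ)).choose (F l) : ℕ) : Ω) := by
        rw [Nat.cast_prod]
        exact Finset.prod_congr rfl fun l _ => map_natCast _ _
      rw [h7]
      exact ge_natCast v _
    have h7 := h6.mul h5
    rw [zero_add, ← mul_assoc] at h7
    refine h7.mono (le_of_eq ?_)
    ring

end Nrm

end Pool.Agent.TWC
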