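import Mathlib.LinearAlgebra.Dual.Lemmas
import Mathlib.LinearAlgebra.FiniteDimensional.Lemmas
import Mathlib.FieldTheory.Perfect
import Mathlib.Algebra.CharP.Lemmas

/-!
# TANK W, dimension 4, level zero: the letters (row L0B, linear algebra)

`ρ : ℕ → k`, the letters of a limit; the letters of its `p ^ i`-th power are `ρ (l + i) ^ p ^ i`.

* `letters_span`: the vectors of the first `J` letters span `k ^ J` for all `J`, or there is a
  relation `∑ c_i ρ (l + i) ^ p ^ i = 0` for all `l`.
-/

set_option autoImplicit false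

namespace Pool.Agent.TWC

variable {k : Type*} [Field k] (p : ℕ) [hp : Fact p.Prime] [CharP k p]

/-- The first `J` letters of the `p ^ i`-th power. -/
def ltr (ρ : ℕ → k) (J i : ℕ) : Fin J → k := fun l => ρ (l + i) ^ p ^ i

/-- The sequences killed by `ℓ` and all its twisted shifts. -/
def LSeq {J : ℕ} (ℓ : Fin J → k) : Submodule k (ℕ → k) where
  carrier := {s | ∀ j : ℕ, ∑ l : Fin J, ℓ l * s (l + j) ^ p ^ j = 0}
  add_mem' := by
    intro s t hs ht j
    simp only [Pi.add_apply, add_pow_char_pow, mul_add, Finset.sum_add_distrib]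
    rw [hs j, ht j, add_zero]
  zero_mem' := by
    intro j
    refine Finset.sum_eq_zero fun l _ => ?_
    rw [Pi.zero_apply, zero_pow (pow_pos hp.out.pos j).ne', mul_zero]
  smul_mem' := by
    intro c s hs j
    have h1 : ∑ l : Fin J, ℓ l * (c • s) (l + j) ^ p ^ j =
        c ^ p ^ j * ∑ l : Fin J, ℓ l * s (l + j) ^ p ^ j := by
      rw [Finset.mul_sum]
      refine Finset.sum_congr rfl fun l _ => ?_
      rw [Pi.smul_apply, smul_eq_mul, mul_pow]
      ring
    rw [h1, hs j, mul_zero]

/-- A sequence of `LSeq` with vanishing first letters vanishes. -/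
theorem lseq_eq_zero {J : ℕ} {ℓ : Fin (J + 1) → k} (hℓ : ℓ (Fin.last J) ≠ 0) {s : ℕ → k}
    (hs : s ∈ LSeq p ℓ) (h0 : ∀ l < J, s l = 0) : s = 0 := by
  have key : ∀ n, ∀ l < J + n, s l = 0 := by
    intro n
    induction n with
    | zero => exact h0
    | succ n ih =>
      intro l hl
      rcases Nat.lt_or_ge l (J + n) with h1 | h1
      · exact ih l h1
      · have h2 : l = J + n := by omega
        subst h2
        have h3 := hs n
        rw [Fin.sum_univ_castSucc, Finset.sum_eq_zero, zero_add, Fin.val_last] at h3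
        · exact (pow_eq_zero_iff (pow_pos hp.out.pos n).ne').1
            ((mul_eq_zero.1 h3).resolve_left hℓ)
        · intro i _
          have h4 : s ((i.castSucc : Fin (J + 1)) + n) = 0 := by
            refine ih _ ?_
            have := i.2
            simp only [Fin.val_castSucc]
            omega
          rw [h4, zero_pow (pow_pos hp.out.pos n).ne', mul_zero]
  funext l
  exact key (l + 1) l (by omega)

/-- The shifts of `ρ` are in `LSeq`. -/
theorem shift_mem_lseq {J : ℕ} {ℓ : Fin J → k} {ρ : ℕ → k}
    (h : ∀ i, ∑ l : Fin J, ℓ l * ρ (l + i) ^ p ^ i = 0) (i : ℕ) :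
    (fun l => ρ (l + i) ^ p ^ i) ∈ LSeq p ℓ := by
  intro j
  rw [← h (i + j)]
  refine Finset.sum_congr rfl fun l _ => ?_
  rw [← pow_mul, ← pow_add]
  congr 2
  congr 1
  omega

/-- **The letters.** -/
theorem letters_span (ρ : ℕ → k) :
    (∀ J, Submodule.span k (Set.range (ltr p ρ J)) = ⊤) ∨
      ∃ (I : ℕ) (c : Fin I → k), c ≠ 0 ∧ ∀ l : ℕ, ∑ i : Fin I, c i * ρ (l + i) ^ p ^ (i : ℕ) = 0 := by
  classical
  by_cases hall : ∀ J, Submodule.span k (Set.range (ltr p ρ J)) = ⊤
  · exact Or.inl hall
  right
  push Not at hall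
  -- the first `J` where they do not span
  obtain ⟨J, hJ, hmin⟩ : ∃ J, Submodule.span k (Set.range (ltr p ρ J)) ≠ ⊤ ∧
      ∀ J' < J, Submodule.span k (Set.range (ltr p ρ J')) = ⊤ :=
    ⟨Nat.find hall, Nat.find_spec hall, fun J' hJ' => not_not.1 (Nat.find_min hall hJ')⟩
  cases J with
  | zero => exact absurd (Subsingleton.elim _ _) hJ
  | succ J =>
    obtain ⟨f, hf0, hf⟩ := Submodule.exists_le_ker_of_lt_top _ (lt_top_iff_ne_top.2 hJ)
    set ℓ : Fin (J + 1) → k := fun l => f (Pi.single l 1) with hℓ
    have hfe : ∀ w : Fin (J + 1) → k, f w = ∑ l, ℓ l * w l := by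
      intro w
      conv_lhs => rw [← Finset.univ_sum_single w]
      rw [map_sum]
      refine Finset.sum_congr rfl fun l _ => ?_
      have h1 : (Pi.single l (w l) : Fin (J + 1) → k) = w l • Pi.single l 1 := by
        rw [← Pi.single_smul, smul_eq_mul, mul_one]
      rw [h1, map_smul, smul_eq_mul, mul_comm]
    have hrel : ∀ i, ∑ l : Fin (J + 1), ℓ l * ρ (l + i) ^ p ^ i = 0 := by
      intro i
      have h1 : f (ltr p ρ (J + 1) i) = 0 := hf (Submodule.subset_span ⟨i, rfl⟩)
      rw [hfe] at h1
      exact h1
    have hlast : ℓ (Fin.last J) ≠ 0 := by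
      intro h0
      -- the other coefficients vanish
      have h1 : ∀ w : Fin J → k, ∑ l : Fin J, ℓ l.castSucc * w l = 0 := by
        intro w
        have hw : w ∈ Submodule.span k (Set.range (ltr p ρ J)) := by
          rw [hmin J (Nat.lt_succ_self J)]
          exact Submodule.mem_top
        induction hw using Submodule.span_induction with
        | mem w hw =>
          obtain ⟨i, rfl⟩ := hw
          have h2 := hrel i
          rw [Fin.sum_univ_castSucc, h0, zero_mul, add_zero] at h2
          exact h2
        | zero => simp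
        | add w w' _ _ h2 h3 =>
          simp only [Pi.add_apply, mul_add, Finset.sum_add_distrib]
          rw [h2, h3, add_zero]
        | smul a w _ h2 =>
          have h3 : ∑ l : Fin J, ℓ l.castSucc * (a • w) l =
              a * ∑ l : Fin J, ℓ l.castSucc * w l := by
            rw [Finset.mul_sum]
            refine Finset.sum_congr rfl fun l _ => ?_
            rw [Pi.smul_apply, smul_eq_mul]
            ring
          rw [h3, h2, mul_zero]
      refine hf0 (LinearMap.ext fun w => ?_)
      rw [hfe, Fin.sum_univ_castSucc, h0, zero_mul, add_zero]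
      exact h1 fun l => w l.castSucc
    -- a dependence of the first letters of the shifts
    have hdep : ¬ LinearIndependent k (fun i : Fin (J + 1) => ltr p ρ J i) := by
      intro hli
      have h1 := hli.fintype_card_le_finrank
      rw [Fintype.card_fin, Module.finrank_fin_fun] at h1
      omega
    rw [Fintype.not_linearIndependent_iff] at hdep
    obtain ⟨c, hc, i₀, hi₀⟩ := hdep
    refine ⟨J + 1, c, fun h0 => hi₀ (by rw [h0]; rfl), fun l => ?_⟩
    have hmem : (∑ i : Fin (J + 1), c i • (fun l => ρ (l + i) ^ p ^ (i : ℕ))) ∈ LSeq p ℓ :=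
      sum_mem fun i _ => Submodule.smul_mem _ _ (shift_mem_lseq p hrel i)
    have h1 := lseq_eq_zero p hlast hmem (by
      intro l hl
      have h2 := congrFun hc ⟨l, hl⟩
      rw [Finset.sum_apply] at h2 ⊢
      exact h2)
    have h2 := congrFun h1 l
    rw [Finset.sum_apply] at h2
    exact h2

end Pool.Agent.TWC
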