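import Pool.Agent.Lib.TWC.Int

/-!
# TANK W, class C, row R3: Lemma R of W_V_h43, on elements

`z` is of transcendental type over `E`, of radius `0`.  If the Hasse derivatives of order `J` of
`f`, `J` not divisible by `p^n`, are integral at `z`, then `f(z)` is, up to an element of positive
value, the sum of a combination of the `z^(p^c)`, `c < n`, with coefficients in `k`, and of a
polynomial in `(X - h)^(p^n)` (a `p^n`-th power if `E` is perfect).
-/

set_option autoImplicit false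

open Polynomial

namespace Pool.Agent.TWC

open Pool.Agent.H15JM (RVal)
open Pool.Agent.TWM

universe u

section

variable {k Ω : Type u} [Field k] [Field Ω] [Algebra k Ω] [IsAlgClosed Ω] {v : RVal Ω}
  {E : IntermediateField k Ω} {z : Ω} {f : Polynomial Ω} {p : ℕ} [hp : Fact p.Prime] [CharP Ω p]

/-- The residue field of `B` is `k`. -/
def ResR (v : RVal Ω) (B : IntermediateField k Ω) : Prop :=
  ∀ x ∈ B, v.Ge 0 x → ∃ a : k, Gt v 0 (x - algebraMap k Ω a)

omit [IsAlgClosed Ω] hp [CharP Ω p] in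
theorem algMap_mem (E : IntermediateField k Ω) (a : k) : algebraMap k Ω a ∈ E := E.algebraMap_mem a

omit [IsAlgClosed Ω] in
theorem taylor_X_pow (z : Ω) (c : ℕ) :
    taylor z ((X : Polynomial Ω) ^ (p ^ c)) = X ^ (p ^ c) + C (z ^ (p ^ c)) := by
  rw [taylor_pow, taylor_X, add_pow_char_pow, ← C_pow]

omit [IsAlgClosed Ω] hp [CharP Ω p] in
theorem eval_mem_cadj (hf : f ∈ PI E) : f.eval z ∈ cadj v E z :=
  eval_mem (fun i => le_cadj v E z (hf i)) (self_mem_cadj v E z)

omit [IsAlgClosed Ω] in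
/-- The integers prime to `p` are units. -/
theorem val_natCast (v : RVal Ω) {w : ℕ} (hw : ¬ p ∣ w) : v (w : Ω) = 0 := by
  have hp1 : 1 < p := hp.out.one_lt
  have hw0 : (w : Ω) ≠ 0 := fun h => hw ((CharP.cast_eq_zero_iff Ω p w).1 h)
  have hcop : Nat.Coprime w p := ((Nat.Prime.coprime_iff_not_dvd hp.out).2 hw).symm
  obtain ⟨w', -, hww⟩ := Nat.exists_mul_mod_eq_one_of_coprime hcop hp1
  have h10 : ((w * w' : ℕ) : Ω) = 1 := by
    have h11 : w * w' ≡ 1 [MOD p] := by
      unfold Nat.ModEq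
      rw [hww, Nat.mod_eq_of_lt hp1]
    rw [cast_eq_of_modEq (R := Ω) h11, Nat.cast_one]
  rw [Nat.cast_mul] at h10
  have hw'0 : (w' : Ω) ≠ 0 := right_ne_zero_of_mul (h10 ▸ one_ne_zero)
  have h12 := v.map_mul hw0 hw'0
  rw [h10, v.map_one] at h12
  have h13 : 0 ≤ v (w' : Ω) := ge_natCast v w' hw'0
  have h14 : 0 ≤ v (w : Ω) := ge_natCast v w hw0
  linarith

omit [IsAlgClosed Ω] in
theorem val_natCast_mul {w : ℕ} (hw : ¬ p ∣ w) {x : Ω} (hx : x ≠ 0) : v ((w : Ω) * x) = v x := by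
  have hw0 : (w : Ω) ≠ 0 := fun h => hw ((CharP.cast_eq_zero_iff Ω p w).1 h)
  rw [v.map_mul hw0 hx, val_natCast v hw, zero_add]

/-- The core of Lemma R. -/
theorem lemR (hz : TL v E z 0) (hres : ResR v (cadj v E z)) (hf : f ∈ PI E) (n : ℕ)
    (h1 : ∀ J, ¬ p ^ n ∣ J → v.Ge 0 ((taylor z f).coeff J)) :
    ∃ (lam : ℕ → k) (h : Ω) (S : Finset ℕ) (g : ℕ → Ω), h ∈ E ∧ (∀ i, g i ∈ E) ∧
      (∀ i, 1 ≤ i → f.natDegree < i * p ^ n → g i = 0) ∧
      Gt v 0 (f.eval z - (∑ c ∈ Finset.range n, algebraMap k Ω (lam c) * z ^ (p ^ c)) -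
        ∑ i ∈ S, g i * ((z - h) ^ i) ^ (p ^ n)) := by
  classical
  have hp1 : 1 < p := hp.out.one_lt
  have hpp : ∀ c, 0 < p ^ c := fun c => Nat.pow_pos (by omega)
  have hnd : ∀ c, c < n → ¬ p ^ n ∣ p ^ c := fun c hc h => by
    have := (Nat.pow_dvd_pow_iff_le_right hp1).1 h
    omega
  -- the residues
  have h2 : ∀ c, ∃ a : k, c < n → Gt v 0 ((taylor z f).coeff (p ^ c) - algebraMap k Ω a) := by
    intro c
    by_cases hc : c < n
    · obtain ⟨a, ha⟩ := hres _ (by
        rw [taylor_coeff]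
        exact eval_mem_cadj (hasse_mem_PI hf (p ^ c))) (h1 _ (hnd c hc))
      exact ⟨a, fun _ => ha⟩
    · exact ⟨0, fun h => absurd h hc⟩
  choose lam hlam using h2
  set P : Polynomial Ω := ∑ c ∈ Finset.range n, C (algebraMap k Ω (lam c)) * X ^ (p ^ c) with hP
  have hPE : P ∈ PI E := sum_mem fun c _ =>
    mul_mem (C_mem_PI (algMap_mem E _)) (pow_mem X_mem_PI _)
  set f' := f - P with hf'
  have hf'E : f' ∈ PI E := sub_mem hf hPE
  have hPc : ∀ J, J ≠ 0 → (taylor z P).coeff J =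
      ∑ c ∈ Finset.range n, if J = p ^ c then algebraMap k Ω (lam c) else 0 := by
    intro J hJ
    rw [hP, map_sum, finsetSum_coeff]
    refine Finset.sum_congr rfl fun c _ => ?_
    rw [taylor_mul, taylor_C, coeff_C_mul, taylor_X_pow, coeff_add, coeff_X_pow,
      coeff_C_of_ne_zero hJ, add_zero]
    split_ifs <;> simp
  have hPc0 : ∀ J, J ≠ 0 → (∀ c, c < n → J ≠ p ^ c) → (taylor z P).coeff J = 0 := by
    intro J hJ h
    rw [hPc J hJ]
    exact Finset.sum_eq_zero fun c hc => if_neg (h c (Finset.mem_range.1 hc))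
  have hPc1 : ∀ c, c < n → (taylor z P).coeff (p ^ c) = algebraMap k Ω (lam c) := by
    intro c hc
    rw [hPc _ (hpp c).ne', Finset.sum_eq_single_of_mem c (Finset.mem_range.2 hc), if_pos rfl]
    intro c' _ hcc
    exact if_neg fun h => hcc (Nat.pow_right_injective hp1 h).symm
  -- all the jets of `f'` which are not divisible by `p ^ n` are strict
  have h3 : ∀ J, ¬ p ^ n ∣ J → Gt v 0 ((hasseDeriv J f').eval z) := by
    intro J hJ
    have hJ0 : J ≠ 0 := fun h => hJ (h ▸ dvd_zero _)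
    rw [← taylor_coeff, hf', map_sub, coeff_sub]
    by_cases hpow : ∃ c, c < n ∧ J = p ^ c
    · obtain ⟨c, hc, rfl⟩ := hpow
      rw [hPc1 c hc]
      exact hlam c hc
    · push Not at hpow
      rw [hPc0 J hJ0 hpow, sub_zero]
      set c := padicValNat p J with hc
      obtain ⟨w, hw⟩ : p ^ c ∣ J := pow_padicValNat_dvd
      have hw' : ¬ p ∣ w := by
        intro h
        obtain ⟨w, rfl⟩ := h
        refine pow_succ_padicValNat_not_dvd (p := p) hJ0 ⟨w, ?_⟩
        rw [← hc, hw, pow_succ]; ring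
      have hcn : c < n := by
        by_contra h
        exact hJ ((pow_dvd_pow p (by omega)).trans ⟨w, hw⟩)
      have hle : p ^ c ≤ J := Nat.le_of_dvd (by omega) ⟨w, hw⟩
      have hlt : 1 ≤ J - p ^ c := by
        rcases hle.lt_or_eq with h | h
        · omega
        · exact absurd h.symm (hpow c hcn)
      have hu : ((J.choose (p ^ c) : ℕ) : Ω) = (w : Ω) := by
        rw [choose_pow_cast (p := p), hw, Nat.mul_div_cancel_left _ (hpp c)]
      have hw0 : (w : Ω) ≠ 0 := fun h => hw' ((CharP.cast_eq_zero_iff Ω p w).1 h)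
      -- D^[J] = D^[J - p^c] D^[p^c] up to a unit
      have hcomp : (taylor z (hasseDeriv (p ^ c) f)).coeff (J - p ^ c) =
          (w : Ω) * (taylor z f).coeff J := by
        rw [taylor_hasse, hasseDeriv_coeff, Nat.sub_add_cancel hle, hu]
      have hst : Gt v 0 ((taylor z (hasseDeriv (p ^ c) f)).coeff (J - p ^ c)) := by
        by_cases hg0 : hasseDeriv (p ^ c) f = 0
        · rw [hg0, map_zero, coeff_zero]
          exact Gt.zero
        · have h5 : hasseDeriv (p ^ c) f ∈ PI (TWM.algc E) :=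
            PI_mono (le_algc E) (hasse_mem_PI hf _)
          have h4 := hz.strict h5 hg0 hlt
          refine h4.mono ?_
          rw [mul_zero, sub_zero]
          have h6 := h1 (p ^ c) (hnd c hcn)
          rw [taylor_coeff] at h6
          exact h6 (hz.eval_ne h5 hg0)
      rw [hcomp] at hst
      intro hne
      have h7 := hst (mul_ne_zero hw0 hne)
      rw [v.map_mul hw0 hne, val_natCast v hw', zero_add] at h7
      exact h7
  -- a near centre
  set d := f'.natDegree with hd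
  obtain ⟨m, hm, δ, hδ, H⟩ := small_near_fin hz
    ((Finset.range (d + 1)).filter fun J => ¬ p ^ n ∣ J) (fun J => hasseDeriv J f') (fun _ => 0)
    (fun J _ => hasse_mem_PI hf'E J) (fun J hJ => h3 J (Finset.mem_filter.1 hJ).2)
  set γ := min δ (m / 2 / (d + 1)) with hγ
  have hγ0 : 0 < γ := lt_min hδ (by positivity)
  have hγ3 : γ * (d + 1) ≤ m / 2 := by
    have : γ ≤ m / 2 / (d + 1) := min_le_right _ _
    rwa [le_div_iff₀ (by positivity)] at this
  obtain ⟨h, hh, hzh⟩ := hz.lim γ hγ0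
  refine ⟨lam, h, (Finset.range (d + 1)), fun i => (taylor h f').coeff (i * p ^ n), hh,
    fun i => taylor_mem_PI hf'E hh _, fun i hi hi' => ?_, ?_⟩
  · refine coeff_eq_zero_of_natDegree_lt ?_
    rw [natDegree_taylor]
    refine (natDegree_sub_le _ _).trans_lt (max_lt hi' ?_)
    refine (natDegree_sum_le_of_forall_le (n := p ^ n - 1) _ _ fun c hc => ?_).trans_lt ?_
    · refine (natDegree_C_mul_X_pow_le _ _).trans ?_
      have h4 : p ^ c < p ^ n := Nat.pow_lt_pow_right hp1 (Finset.mem_range.1 hc)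
      omega
    · have h4 : p ^ n ≤ i * p ^ n := Nat.le_mul_of_pos_left _ (by omega)
      have := hpp n
      omega
  have e1 : f.eval z - (∑ c ∈ Finset.range n, algebraMap k Ω (lam c) * z ^ (p ^ c)) = f'.eval z := by
    rw [hf', eval_sub, hP, eval_finsetSum]
    congr 1
    refine Finset.sum_congr rfl fun c _ => ?_
    rw [eval_mul, eval_C, eval_pow, eval_X]
  have e2 : f'.eval z = ∑ J ∈ Finset.range (d + 1), (taylor h f').coeff J * (z - h) ^ J := by
    rw [eval_eq_taylor f' h z, eval_eq_sum_range, natDegree_taylor]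
  have e3 : (∑ i ∈ Finset.range (d + 1), (taylor h f').coeff (i * p ^ n) * ((z - h) ^ i) ^ (p ^ n)) =
      ∑ J ∈ (Finset.range (d + 1)).filter (fun J => p ^ n ∣ J),
        (taylor h f').coeff J * (z - h) ^ J := by
    have hzero : ∀ J, d < J → (taylor h f').coeff J = 0 := fun J hJ =>
      coeff_eq_zero_of_natDegree_lt (by rwa [natDegree_taylor])
    have h4 : (∑ i ∈ Finset.range (d + 1), (taylor h f').coeff (i * p ^ n) *
        ((z - h) ^ i) ^ (p ^ n)) = ∑ i ∈ (Finset.range (d + 1)).filter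
          (fun i => i * p ^ n < d + 1), (taylor h f').coeff (i * p ^ n) *
        ((z - h) ^ i) ^ (p ^ n) := by
      rw [Finset.sum_filter]
      refine Finset.sum_congr rfl fun i _ => ?_
      split_ifs with h5
      · rfl
      · rw [hzero _ (by omega), zero_mul]
    rw [h4]
    refine Finset.sum_bij (fun i _ => i * p ^ n) ?_ ?_ ?_ ?_
    · intro i hi
      simp only [Finset.mem_filter, Finset.mem_range] at hi ⊢
      exact ⟨hi.2, Dvd.intro_left _ rfl⟩
    · intro i _ j _ hij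
      exact Nat.eq_of_mul_eq_mul_right (hpp n) hij
    · intro J hJ
      simp only [Finset.mem_filter, Finset.mem_range] at hJ
      obtain ⟨i, hi⟩ := hJ.2
      refine ⟨i, ?_, by rw [hi, mul_comm]⟩
      simp only [Finset.mem_filter, Finset.mem_range]
      rw [mul_comm i, ← hi]
      refine ⟨?_, hJ.1⟩
      have : i ≤ J := by rw [hi]; exact Nat.le_mul_of_pos_left _ (hpp n)
      omega
    · intro i _
      rw [← pow_mul]
  rw [e1, e2, e3, ← Finset.sum_filter_add_sum_filter_not (Finset.range (d + 1))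
    (fun J => p ^ n ∣ J), add_sub_cancel_left]
  refine Gt.of_ge (r' := m / 2) (RVal.Ge.sum _ _ fun J hJ => ?_) (by linarith)
  have h5 := H γ hγ0.le (min_le_left _ _) h hzh J hJ 0
  rw [taylor_coeff_zero, ← taylor_coeff] at h5
  refine (RVal.Ge.mul h5 (ge_pow hzh J)).mono ?_
  have h6 : (J : ℝ) ≤ d := by
    have := (Finset.mem_range.1 (Finset.mem_filter.1 hJ).1)
    exact_mod_cast (by omega : J ≤ d)
  have h7 : (0 : ℝ) ≤ J := by positivity
  simp only [Nat.cast_zero, zero_mul, sub_zero, zero_add, zero_sub]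
  nlinarith

/-- The jets of order `J ≥ 1` are bounded by the jets of order `p^c`. -/
theorem jets_ge (hz : TL v E z 0) (hf : f ∈ PI E) (r : ℝ)
    (h : ∀ c, v.Ge r ((taylor z f).coeff (p ^ c))) {J : ℕ} (hJ : 1 ≤ J) :
    v.Ge r ((taylor z f).coeff J) := by
  have hp1 : 1 < p := hp.out.one_lt
  have hpp : ∀ c, 0 < p ^ c := fun c => Nat.pow_pos (by omega)
  have hJ0 : J ≠ 0 := by omega
  set c := padicValNat p J with hc
  obtain ⟨w, hw⟩ : p ^ c ∣ J := pow_padicValNat_dvd
  have hw' : ¬ p ∣ w := by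
    intro h
    obtain ⟨w, rfl⟩ := h
    refine pow_succ_padicValNat_not_dvd (p := p) hJ0 ⟨w, ?_⟩
    rw [← hc, hw, pow_succ]; ring
  have hle : p ^ c ≤ J := Nat.le_of_dvd (by omega) ⟨w, hw⟩
  have hu : ((J.choose (p ^ c) : ℕ) : Ω) = (w : Ω) := by
    rw [choose_pow_cast (p := p), hw, Nat.mul_div_cancel_left _ (hpp c)]
  have hcomp : (taylor z (hasseDeriv (p ^ c) f)).coeff (J - p ^ c) =
      (w : Ω) * (taylor z f).coeff J := by
    rw [taylor_hasse, hasseDeriv_coeff, Nat.sub_add_cancel hle, hu]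
  intro hne
  have hw0 : (w : Ω) ≠ 0 := fun h => hw' ((CharP.cast_eq_zero_iff Ω p w).1 h)
  have hne' : (taylor z (hasseDeriv (p ^ c) f)).coeff (J - p ^ c) ≠ 0 := by
    rw [hcomp]; exact mul_ne_zero hw0 hne
  have hg0 : hasseDeriv (p ^ c) f ≠ 0 := by
    rintro h0
    rw [h0, map_zero, coeff_zero] at hne'
    exact hne' rfl
  have h5 : hasseDeriv (p ^ c) f ∈ PI (TWM.algc E) := PI_mono (le_algc E) (hasse_mem_PI hf _)
  have h4 := hz.weak h5 hg0 (J - p ^ c) hne'
  have h6 := h c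
  rw [taylor_coeff] at h6
  have h7 := h6 (hz.eval_ne h5 hg0)
  rw [hcomp, val_natCast_mul hw' hne, mul_zero, sub_zero] at h4
  linarith

/-- Lemma CONST (R5), on elements: if the jets of order `p^c` of `f` are `≥ r` at `z`, then `f(z)` is
a limit of `E` up to `r`.  No bound of the degree is needed. -/
theorem lim_of_jets (hz : TL v E z 0) (hf : f ∈ PI E) (r : ℝ)
    (h : ∀ c, v.Ge r ((taylor z f).coeff (p ^ c))) : Lim v E r (f.eval z) :=
  hz.poly_lim hf fun l hl => by
    rw [mul_zero, sub_zero]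
    exact jets_ge hz hf r h hl

/-- The jets of a limit of `E` are integral. -/
theorem jets_of_lim (hz : TL v E z 0) (hf : f ∈ PI E) {r : ℝ} (h : Lim v E r (f.eval z)) {J : ℕ}
    (hJ : 1 ≤ J) : v.Ge r ((taylor z f).coeff J) := by
  intro hne
  refine le_of_forall_pos_lt_add fun ε hε => ?_
  obtain ⟨a, ha, h1⟩ := h ε hε
  have hga : f - C a ∈ PI E := sub_mem hf (C_mem_PI ha)
  have hcoe : (taylor z (f - C a)).coeff J = (taylor z f).coeff J := by
    rw [map_sub, taylor_C, coeff_sub, coeff_C_of_ne_zero (by omega), sub_zero]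
  have hg0 : f - C a ≠ 0 := by
    intro h0
    rw [h0, map_zero, coeff_zero] at hcoe
    exact hne hcoe.symm
  have h5 : f - C a ∈ PI (TWM.algc E) := PI_mono (le_algc E) hga
  have h2 := hz.strict h5 hg0 hJ (by rw [hcoe]; exact hne)
  rw [hcoe, mul_zero, sub_zero] at h2
  have h3 := h1 (by have := hz.eval_ne h5 hg0; rwa [eval_sub, eval_C] at this)
  rw [eval_sub, eval_C] at h2
  linarith

/-- Lemma R (i): the elements of `E[z]` which are limits of `E`. -/
theorem lemR_one (hz : TL v E z 0) (hres : ResR v (cadj v E z)) (hf : f ∈ PI E)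
    (h : Lim v E 0 (f.eval z)) :
    ∃ (n : ℕ) (lam : ℕ → k), ∃ e ∈ E,
      Gt v 0 (f.eval z - (∑ c ∈ Finset.range n, algebraMap k Ω (lam c) * z ^ (p ^ c)) - e) := by
  have hp1 : 1 < p := hp.out.one_lt
  set n := f.natDegree + 1 with hn
  have hn1 : f.natDegree < p ^ n := lt_of_lt_of_le (Nat.lt_succ_self _) (Nat.lt_pow_self hp1).le
  obtain ⟨lam, h0, S, g, hh, hg, hg0, H⟩ := lemR hz hres hf n fun J hJ =>
    jets_of_lim hz hf h (Nat.one_le_iff_ne_zero.2 fun h => hJ (h ▸ dvd_zero _))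
  refine ⟨n, lam, ∑ i ∈ S, g i * ((z - h0) ^ i) ^ (p ^ n), ?_, H⟩
  refine sum_mem fun i _ => ?_
  rcases Nat.eq_zero_or_pos i with rfl | hi
  · rw [pow_zero, one_pow, mul_one]
    exact hg 0
  · rw [hg0 i hi (hn1.trans_le (Nat.le_mul_of_pos_left _ hi)), zero_mul]
    exact zero_mem _

/-- `E` is perfect. -/
def Perf (p : ℕ) (E : IntermediateField k Ω) : Prop := ∀ x ∈ E, ∃ y ∈ E, y ^ p = x

omit [IsAlgClosed Ω] hp [CharP Ω p] in
theorem Perf.root (h : Perf p E) (n : ℕ) : ∀ x ∈ E, ∃ y ∈ E, y ^ (p ^ n) = x := by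
  induction n with
  | zero => exact fun x hx => ⟨x, hx, by rw [pow_zero, pow_one]⟩
  | succ n ih =>
    intro x hx
    obtain ⟨y, hy, hyx⟩ := h x hx
    obtain ⟨w, hw, hwy⟩ := ih y hy
    exact ⟨w, hw, by rw [pow_succ, pow_mul, hwy, hyx]⟩

/-- Lemma R (ii), on elements: `E` perfect, `f` an element of `E[z]` whose jets of order not
divisible by `p^n` are integral. -/
theorem lemR_two (hz : TL v E z 0) (hres : ResR v (cadj v E z)) (hE : Perf p E) (hf : f ∈ PI E)
    (n : ℕ) (h1 : ∀ J, ¬ p ^ n ∣ J → v.Ge 0 ((taylor z f).coeff J)) :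
    ∃ (lam : ℕ → k) (g : Polynomial Ω), g ∈ PI E ∧
      Gt v 0 (f.eval z - (∑ c ∈ Finset.range n, algebraMap k Ω (lam c) * z ^ (p ^ c)) -
        (g.eval z) ^ (p ^ n)) := by
  obtain ⟨lam, h, S, g, hh, hg, -, H⟩ := lemR hz hres hf n h1
  choose y hy hyg using fun i => hE.root n (g i) (hg i)
  refine ⟨lam, ∑ i ∈ S, C (y i) * (X - C h) ^ i,
    sum_mem fun i _ => mul_mem (C_mem_PI (hy i)) (pow_mem (sub_mem X_mem_PI (C_mem_PI hh)) _), ?_⟩
  have e1 : (∑ i ∈ S, C (y i) * (X - C h) ^ i : Polynomial Ω).eval z ^ (p ^ n) =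
      ∑ i ∈ S, g i * ((z - h) ^ i) ^ (p ^ n) := by
    rw [eval_finsetSum, sum_pow_char_pow]
    refine Finset.sum_congr rfl fun i _ => ?_
    rw [eval_mul, eval_C, eval_pow, eval_sub, eval_X, eval_C, mul_pow, hyg]
  rw [e1]
  exact H

omit [IsAlgClosed Ω] in
/-- The coefficients of a `p^n`-th power. -/
theorem coeff_pow_char (g : Polynomial Ω) (n : ℕ) {J : ℕ} (hJ : ¬ p ^ n ∣ J) :
    (g ^ (p ^ n)).coeff J = 0 := by
  rw [← Polynomial.map_iterateFrobenius_expand (p := p) (f := g) (n := n), coeff_map, coeff_expand (Nat.pow_pos hp.out.pos),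
    if_neg hJ, map_zero]

/-- The jets, of order not divisible by `p^n`, of a limit of `p^n`-th powers are integral. -/
theorem jets_of_pow (hz : TL v E z 0) (hf : f ∈ PI E) {r : ℝ} {n J : ℕ} (hJ : ¬ p ^ n ∣ J)
    (h : ∀ ε : ℝ, 0 < ε → ∃ g ∈ PI E, v.Ge (r - ε) (f.eval z - (g.eval z) ^ (p ^ n))) :
    v.Ge r ((taylor z f).coeff J) := by
  intro hne
  refine le_of_forall_pos_lt_add fun ε hε => ?_
  obtain ⟨g, hg, h1⟩ := h ε hε
  have hga : f - g ^ (p ^ n) ∈ PI E := sub_mem hf (pow_mem hg _)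
  have hJ0 : J ≠ 0 := fun h => hJ (h ▸ dvd_zero _)
  have hcoe : (taylor z (f - g ^ (p ^ n))).coeff J = (taylor z f).coeff J := by
    rw [map_sub, taylor_pow, coeff_sub, coeff_pow_char _ _ hJ, sub_zero]
  have hg0 : f - g ^ (p ^ n) ≠ 0 := by
    intro h0
    rw [h0, map_zero, coeff_zero] at hcoe
    exact hne hcoe.symm
  have h5 : f - g ^ (p ^ n) ∈ PI (TWM.algc E) := PI_mono (le_algc E) hga
  have h2 := hz.strict h5 hg0 (by omega : 1 ≤ J) (by rw [hcoe]; exact hne)
  rw [hcoe, mul_zero, sub_zero] at h2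
  have h3 := h1 (by have := hz.eval_ne h5 hg0; rwa [eval_sub, eval_pow] at this)
  rw [eval_sub, eval_pow] at h2
  linarith

end

end Pool.Agent.TWC
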