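import Pool.Agent.Lib.TWC.HSx
import Pool.Agent.Lib.TWC.BaseX
import Pool.Agent.Lib.TWS.Ac
import Pool.Agent.Lib.TW.Defs

/-!
# TANK W, class C: lifting of isometric Hasse-Schmidt derivations (3172, sections 2 and 3)

* `HSa K D n`, `HSn v K D n`: `D` is a Hasse-Schmidt derivation of order `n` of `K`, values in `Ω`;
  isometric;
* `HSn.step`: the extension to `L(u)` of a lift over `L`; `HSn.lift`: from `L ⊇ K ^ p` to `K`;
* `HSn.lift_at`: the lifting lemma, the new component may be prescribed at one `x ∉ K ^ p`;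
* `hsiHom`: derivations of all orders give an `HSI`;
* `exists_hsi_tight`, `SND.exists_hsi`: the tight parameter lemma, `h x = x + χ T` exactly.
-/

set_option autoImplicit false

open Polynomial

namespace Pool.Agent.TWC

open Pool.Agent.H15JM (RVal)
open Pool.Agent.D2 (Ctx0)
open Pool.Agent.D2P (clI mem_clI mem_adj_self adj_le)
open Pool.Agent.LU1 (adj)
open Pool.Agent.TWM Pool.Agent.TWM.C
open Pool.Agent.TWS (SphC)

universe u

variable {k Ω : Type u} [Field k] [Field Ω] [Algebra k Ω] {v : RVal Ω}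
  {K L : IntermediateField k Ω} {D : ℕ → Ω → Ω} {n : ℕ}

/-- `D` is a Hasse-Schmidt derivation of order `n` of `K`, with values in `Ω`. -/
structure HSa (K : IntermediateField k Ω) (D : ℕ → Ω → Ω) (n : ℕ) : Prop where
  zero : ∀ x ∈ K, D 0 x = x
  const : ∀ j, 1 ≤ j → j ≤ n → ∀ c : k, D j (algebraMap k Ω c) = 0
  add : ∀ j ≤ n, ∀ x ∈ K, ∀ y ∈ K, D j (x + y) = D j x + D j y
  mul : ∀ j ≤ n, ∀ x ∈ K, ∀ y ∈ K,
    D j (x * y) = ∑ a ∈ Finset.HasAntidiagonal.antidiagonal j, D a.1 x * D a.2 y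

/-- `D` is an isometric Hasse-Schmidt derivation of order `n` of `K`, with values in `Ω`. -/
structure HSn (v : RVal Ω) (K : IntermediateField k Ω) (D : ℕ → Ω → Ω) (n : ℕ) : Prop
    extends HSa K D n where
  norm : ∀ j ≤ n, ∀ x ∈ K, ∀ b : ℝ, v.Ge b x → v.Ge b (D j x)

/-! ### Power series modulo `T ^ (n + 1)` -/

section Quot

/-- The series `∑ D j x T ^ j`. -/
noncomputable def hs (D : ℕ → Ω → Ω) (x : Ω) : PowerSeries Ω := PowerSeries.mk fun j => D j x

theorem coeff_hs (D : ℕ → Ω → Ω) (x : Ω) (j : ℕ) : PowerSeries.coeff j (hs D x) = D j x :=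
  PowerSeries.coeff_mk _ _

/-- The quotient map. -/
noncomputable def qn (Ω : Type u) [Field Ω] (n : ℕ) : PowerSeries Ω →+*
    PowerSeries Ω ⧸ Ideal.span {(PowerSeries.X : PowerSeries Ω) ^ (n + 1)} :=
  Ideal.Quotient.mk _

theorem qn_eq {n : ℕ} {f g : PowerSeries Ω} :
    qn Ω n f = qn Ω n g ↔ ∀ j ≤ n, PowerSeries.coeff j f = PowerSeries.coeff j g := by
  rw [qn, Ideal.Quotient.eq, Ideal.mem_span_singleton, PowerSeries.X_pow_dvd_iff]
  constructor
  · intro h j hj
    have := h j (Nat.lt_succ_of_le hj)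
    rwa [map_sub, sub_eq_zero] at this
  · intro h j hj
    rw [map_sub, sub_eq_zero]
    exact h j (Nat.le_of_lt_succ hj)

/-- The coefficients of order `≤ n` have value `≥ b`. -/
def PGn (v : RVal Ω) (n : ℕ) (b : ℝ) (f : PowerSeries Ω) : Prop :=
  ∀ j ≤ n, v.Ge b (PowerSeries.coeff j f)

theorem PGn.mul {b c : ℝ} {f g : PowerSeries Ω} (hf : PGn v n b f) (hg : PGn v n c g) :
    PGn v n (b + c) (f * g) := by
  intro j hj
  rw [PowerSeries.coeff_mul]
  refine RVal.Ge.sum _ _ fun a ha => ?_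
  have h1 := Finset.HasAntidiagonal.mem_antidiagonal.1 ha
  exact (hf _ (by omega)).mul (hg _ (by omega))

theorem PGn.one : PGn v n 0 (1 : PowerSeries Ω) := by
  intro j _
  rw [PowerSeries.coeff_one]
  split_ifs
  · exact fun _ => by rw [v.map_one]
  · exact RVal.Ge.zero

theorem PGn.pow {b : ℝ} {f : PowerSeries Ω} (hf : PGn v n b f) (m : ℕ) :
    PGn v n (m * b) (f ^ m) := by
  induction m with
  | zero =>
    rw [pow_zero, Nat.cast_zero, zero_mul]
    exact PGn.one
  | succ m ih =>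
    rw [pow_succ]
    have h1 := ih.mul hf
    have e : (m : ℝ) * b + b = ((m + 1 : ℕ) : ℝ) * b := by
      push_cast
      ring
    rwa [e] at h1

end Quot

/-! ### The homomorphism -/

namespace HSa

theorem map_zero (h : HSa K D n) {j : ℕ} (hj : j ≤ n) : D j 0 = 0 := by
  have h1 := h.add j hj 0 (zero_mem K) 0 (zero_mem K)
  rw [add_zero] at h1
  exact left_eq_add.1 h1

/-- The homomorphism to the truncated power series. -/
noncomputable def hom (h : HSa K D n) : K →+*
    PowerSeries Ω ⧸ Ideal.span {(PowerSeries.X : PowerSeries Ω) ^ (n + 1)} where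
  toFun x := qn Ω n (hs D x)
  map_one' := by
    rw [← map_one (qn Ω n), qn_eq]
    intro j hj
    rw [coeff_hs, PowerSeries.coeff_one]
    rcases Nat.eq_zero_or_pos j with rfl | h1
    · rw [if_pos rfl]
      exact h.zero 1 (one_mem K)
    · rw [if_neg h1.ne']
      have h2 := h.const j h1 hj 1
      rwa [_root_.map_one] at h2
  map_zero' := by
    rw [← _root_.map_zero (qn Ω n), qn_eq]
    intro j hj
    rw [coeff_hs, _root_.map_zero]
    exact h.map_zero hj
  map_add' x y := by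
    rw [← map_add, qn_eq]
    intro j hj
    rw [coeff_hs, map_add, coeff_hs, coeff_hs]
    exact h.add j hj x x.2 y y.2
  map_mul' x y := by
    rw [← map_mul, qn_eq]
    intro j hj
    rw [coeff_hs, PowerSeries.coeff_mul]
    simp only [coeff_hs]
    exact h.mul j hj x x.2 y y.2

theorem hom_apply (h : HSa K D n) (x : K) : h.hom x = qn Ω n (hs D x) := rfl

theorem map_neg (h : HSa K D n) {j : ℕ} (hj : j ≤ n) {x : Ω} (hx : x ∈ K) :
    D j (-x) = - D j x := by
  have h1 := h.add j hj x hx (-x) (neg_mem hx)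
  rw [add_neg_cancel, h.map_zero hj] at h1
  exact (neg_eq_of_add_eq_zero_right h1.symm).symm

theorem map_sub (h : HSa K D n) {j : ℕ} (hj : j ≤ n) {x y : Ω} (hx : x ∈ K) (hy : y ∈ K) :
    D j (x - y) = D j x - D j y := by
  rw [sub_eq_add_neg, h.add j hj x hx _ (neg_mem hy), h.map_neg hj hy, ← sub_eq_add_neg]

/-- The coefficients of a `p`-th power. -/
theorem pow_p (p : ℕ) [Fact p.Prime] [CharP Ω p] (h : HSa K D n) {x : Ω} (hx : x ∈ K) {j : ℕ}
    (hj : j ≤ n) : D j (x ^ p) = if p ∣ j then (D (j / p) x) ^ p else 0 := by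
  have h1 : h.hom ((⟨x, hx⟩ : K) ^ p) = (h.hom ⟨x, hx⟩) ^ p := map_pow _ _ _
  rw [hom_apply, hom_apply, ← map_pow, qn_eq] at h1
  have h2 := h1 j hj
  rw [coeff_hs, coeff_ps_pow p, coeff_hs] at h2
  exact h2

end HSa

namespace HSn

theorem mono_ord (h : HSn v K D n) {m : ℕ} (hm : m ≤ n) : HSn v K D m where
  zero := h.zero
  const := fun j h1 hj => h.const j h1 (hj.trans hm)
  add := fun j hj => h.add j (hj.trans hm)
  mul := fun j hj => h.mul j (hj.trans hm)
  norm := fun j hj => h.norm j (hj.trans hm)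

theorem mono (h : HSn v K D n) (hL : L ≤ K) : HSn v L D n where
  zero := fun x hx => h.zero x (hL hx)
  const := h.const
  add := fun j hj x hx y hy => h.add j hj x (hL hx) y (hL hy)
  mul := fun j hj x hx y hy => h.mul j hj x (hL hx) y (hL hy)
  norm := fun j hj x hx => h.norm j hj x (hL hx)

theorem pge (h : HSn v K D n) {x : Ω} (hx : x ∈ K) {b : ℝ} (hb : v.Ge b x) :
    PGn v n b (hs D x) := fun j hj => by
  rw [coeff_hs]
  exact h.norm j hj x hx b hb

end HSn

/-- Roots. -/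
theorem ge_root_l {q : ℕ} (hq : 0 < q) {c : ℝ} {x : Ω} (h : v.Ge (q * c) (x ^ q)) : v.Ge c x := by
  intro h0
  have h1 := h (pow_ne_zero q h0)
  rw [v.map_pow h0] at h1
  exact le_of_mul_le_mul_left h1 (by exact_mod_cast hq)

/-! ### The step -/

section Step

variable (p : ℕ) [hp : Fact p.Prime] [CharP k p] [CharP Ω p] [IsAlgClosed Ω]

omit hp [CharP k p] [CharP Ω p] [IsAlgClosed Ω] in
theorem exists_lift_poly {P : Polynomial Ω} (hP : P ∈ PI L) :
    ∃ P₀ : Polynomial L, P₀.map (algebraMap L Ω) = P := by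
  have hl : P ∈ Polynomial.lifts (algebraMap L Ω) := by
    rw [Polynomial.lifts_iff_coeff_lifts]
    exact fun i => ⟨⟨P.coeff i, hP i⟩, rfl⟩
  exact (Polynomial.mem_lifts _).1 hl

/-- The extension to `L(u)`. -/
theorem HSn.step (h0 : Ctx0 k v) (hL : Cld v L) (hLK : L ≤ K) (hK : HSn v K D n)
    (hD : HSn v L D (n + 1))
    (hF : ∀ x ∈ K, D (n + 1) (x ^ p) = if p ∣ n + 1 then (D ((n + 1) / p) x) ^ p else 0)
    {u : Ω} (hu : u ∈ K) (hup : u ^ p ∈ L) (hnu : u ∉ L) {c : Ω}
    (hc : ∀ g ∈ L, v.Ge (v (u - g)) (c - D (n + 1) g)) :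
    ∃ D' : ℕ → Ω → Ω, (∀ j, j ≠ n + 1 → D' j = D j) ∧ (∀ x ∈ L, D' (n + 1) x = D (n + 1) x) ∧
      D' (n + 1) u = c ∧ HSn v (adj L u) D' (n + 1) := by
  classical
  have hp1 : 1 < p := hp.out.one_lt
  set U : PowerSeries Ω := PowerSeries.mk fun j => if j = n + 1 then c else D j u with hU
  have hUn : PowerSeries.coeff (n + 1) U = c := by rw [hU, PowerSeries.coeff_mk, if_pos rfl]
  have hUj : ∀ j, j ≠ n + 1 → PowerSeries.coeff j U = D j u := fun j hj => by
    rw [hU, PowerSeries.coeff_mk, if_neg hj]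
  set Ψ := eval₂RingHom hD.toHSa.hom (qn Ω (n + 1) U) with hΨ
  set F : Polynomial L → PowerSeries Ω := fun P => P.sum fun m a => hs D a * U ^ m with hFdef
  have hΨF : ∀ P, qn Ω (n + 1) (F P) = Ψ P := by
    intro P
    rw [hΨ, coe_eval₂RingHom, eval₂_eq_sum]
    simp only [hFdef, Polynomial.sum]
    rw [map_sum]
    refine Finset.sum_congr rfl fun m _ => ?_
    rw [map_mul, map_pow, HSa.hom_apply]
  have hadjK : adj L u ≤ K := adj_le hLK hu
  -- the relation
  have hrel : Ψ (X ^ p - C (⟨u ^ p, hup⟩ : L)) = 0 := by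
    rw [hΨ, coe_eval₂RingHom, eval₂_sub, eval₂_X_pow, eval₂_C, HSa.hom_apply, ← map_pow,
      sub_eq_zero, qn_eq]
    intro j hj
    rw [coeff_ps_pow p, coeff_hs]
    have hjp : p ∣ j → j / p ≠ n + 1 := by
      intro _ h1
      have h2 : j / p ≤ j := Nat.div_le_self j p
      have h3 : j = n + 1 := by omega
      rw [h3] at h1
      have h4 : (n + 1) / p < n + 1 := Nat.div_lt_self (Nat.succ_pos n) hp1
      omega
    rcases Nat.lt_or_ge n j with h1 | h1
    · have h2 : j = n + 1 := by omega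
      subst h2
      rw [hF u hu]
      split_ifs with h3
      · rw [hUj _ (hjp h3)]
      · rfl
    · rw [hK.toHSa.pow_p p hu h1]
      split_ifs with h3
      · rw [hUj _ (hjp h3)]
      · rfl
  have hirr : Irreducible (X ^ p - C (⟨u ^ p, hup⟩ : L)) := by
    rw [X_pow_sub_C_irreducible_iff_of_prime hp.out]
    intro b hb
    have h1 : (b : Ω) ^ p = u ^ p := congrArg Subtype.val hb
    have h2 : (b : Ω) = u := by
      have h3 : ((b : Ω) - u) ^ p = 0 := by rw [sub_pow_char, h1, sub_self]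
      exact sub_eq_zero.1 (eq_zero_of_pow_eq_zero h3)
    exact hnu (h2 ▸ b.2)
  have hmin : minpoly L u = X ^ p - C (⟨u ^ p, hup⟩ : L) := by
    refine (minpoly.eq_of_irreducible_of_monic hirr ?_
      (monic_X_pow_sub_C _ hp.out.ne_zero)).symm
    rw [_root_.map_sub, map_pow, aeval_X, aeval_C]
    exact sub_self _
  have hdvd : ∀ P : Polynomial L, aeval u P = 0 → Ψ P = 0 := by
    intro P hP
    obtain ⟨Q, rfl⟩ := minpoly.dvd L u hP
    rw [map_mul, hmin, hrel, zero_mul]
  have hwd : ∀ P Q : Polynomial L, aeval u P = aeval u Q → Ψ P = Ψ Q := by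
    intro P Q h1
    rw [← sub_eq_zero, ← _root_.map_sub]
    refine hdvd _ ?_
    rw [_root_.map_sub, h1, sub_self]
  have hex : ∀ x ∈ adj L u, ∃ P : Polynomial L, aeval u P = x := by
    intro x hx
    obtain ⟨P, hP, -, hPx⟩ := exists_rep p hup hx
    obtain ⟨P₀, rfl⟩ := exists_lift_poly hP
    exact ⟨P₀, by rw [← hPx, eval_map_algebraMap]⟩
  have hmemK : ∀ P : Polynomial L, aeval u P ∈ K := by
    intro P
    rw [aeval_eq_sum_range]
    refine sum_mem fun m _ => ?_
    rw [Algebra.smul_def]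
    exact mul_mem (hLK (P.coeff m).2) (pow_mem hu m)
  -- the low orders
  have hlow : ∀ (P : Polynomial L) (j : ℕ), j ≤ n → D j (aeval u P) = PowerSeries.coeff j (F P) := by
    intro P j hj
    have h1 : hK.toHSa.hom ⟨aeval u P, hmemK P⟩ = qn Ω n (F P) := by
      have h2 : (⟨aeval u P, hmemK P⟩ : K) = ∑ m ∈ P.support,
          (⟨(P.coeff m : Ω), hLK (P.coeff m).2⟩ : K) * (⟨u, hu⟩ : K) ^ m := by
        apply Subtype.ext
        change aeval u P = ((∑ m ∈ P.support, (⟨(P.coeff m : Ω), hLK (P.coeff m).2⟩ : K) *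
          (⟨u, hu⟩ : K) ^ m : K) : Ω)
        rw [AddSubmonoidClass.coe_finsetSum, aeval_def, eval₂_eq_sum]
        rfl
      rw [h2, map_sum]
      simp only [hFdef, Polynomial.sum]
      rw [map_sum]
      refine Finset.sum_congr rfl fun m _ => ?_
      rw [map_mul, map_pow, map_mul, map_pow, HSa.hom_apply, HSa.hom_apply]
      congr 2
      rw [qn_eq]
      intro i hi
      rw [coeff_hs, hUj i (by omega)]
    rw [HSa.hom_apply, qn_eq] at h1
    have h2 := h1 j hj
    rwa [coeff_hs] at h2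
  -- the new function
  set D' : ℕ → Ω → Ω := fun j x => if j = n + 1 then
    (if h : ∃ P : Polynomial L, aeval u P = x then PowerSeries.coeff (n + 1) (F h.choose) else 0)
    else D j x with hD'
  have hD'j : ∀ j, j ≠ n + 1 → D' j = D j := fun j hj => by
    funext x
    rw [hD']
    simp only [if_neg hj]
  have hD'n : ∀ P : Polynomial L, D' (n + 1) (aeval u P) = PowerSeries.coeff (n + 1) (F P) := by
    intro P
    have h1 : ∃ Q : Polynomial L, aeval u Q = aeval u P := ⟨P, rfl⟩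
    rw [hD']
    simp only [if_true]
    rw [dif_pos h1]
    have h2 := hwd _ _ h1.choose_spec
    rw [← hΨF, ← hΨF, qn_eq] at h2
    exact h2 (n + 1) le_rfl
  have hcoef : ∀ P : Polynomial L, qn Ω (n + 1) (hs D' (aeval u P)) = Ψ P := by
    intro P
    rw [← hΨF, qn_eq]
    intro j hj
    rw [coeff_hs]
    rcases eq_or_ne j (n + 1) with rfl | h1
    · exact hD'n P
    · rw [hD'j j h1]
      exact hlow P j (by omega)
  have hD'L : ∀ x ∈ L, D' (n + 1) x = D (n + 1) x := by
    intro x hx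
    have h1 := hcoef (C ⟨x, hx⟩)
    rw [aeval_C, hΨ, coe_eval₂RingHom, eval₂_C, HSa.hom_apply, qn_eq] at h1
    have h2 := h1 (n + 1) le_rfl
    rw [coeff_hs, coeff_hs] at h2
    exact h2
  have hD'u : D' (n + 1) u = c := by
    have h1 := hcoef X
    rw [aeval_X, hΨ, coe_eval₂RingHom, eval₂_X, qn_eq] at h1
    have h2 := h1 (n + 1) le_rfl
    rwa [coeff_hs, hUn] at h2
  have halg : HSa (adj L u) D' (n + 1) := by
    refine ⟨fun x hx => ?_, fun j h1 hj a => ?_, fun j hj x hx y hy => ?_,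
      fun j hj x hx y hy => ?_⟩
    · rw [hD'j 0 (by omega)]
      exact hK.zero x (hadjK hx)
    · rcases eq_or_ne j (n + 1) with rfl | h2
      · rw [hD'L _ (L.algebraMap_mem a)]
        exact hD.const _ h1 hj a
      · rw [hD'j j h2]
        exact hK.const j h1 (by omega) a
    · obtain ⟨P, rfl⟩ := hex x hx
      obtain ⟨Q, rfl⟩ := hex y hy
      have h1 : qn Ω (n + 1) (hs D' (aeval u P + aeval u Q)) =
          qn Ω (n + 1) (hs D' (aeval u P) + hs D' (aeval u Q)) := by
        rw [map_add, hcoef, hcoef, ← map_add, ← map_add, hcoef]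
      rw [qn_eq] at h1
      have h2 := h1 j hj
      rwa [map_add, coeff_hs, coeff_hs, coeff_hs] at h2
    · obtain ⟨P, rfl⟩ := hex x hx
      obtain ⟨Q, rfl⟩ := hex y hy
      have h1 : qn Ω (n + 1) (hs D' (aeval u P * aeval u Q)) =
          qn Ω (n + 1) (hs D' (aeval u P) * hs D' (aeval u Q)) := by
        rw [map_mul, hcoef, hcoef, ← map_mul, ← map_mul, hcoef]
      rw [qn_eq] at h1
      have h2 := h1 j hj
      rw [coeff_hs, PowerSeries.coeff_mul] at h2
      simp only [coeff_hs] at h2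
      exact h2
  refine ⟨D', hD'j, hD'L, hD'u, { toHSa := halg, norm := fun j hj x hx b hb => ?_ }⟩
  rcases eq_or_ne j (n + 1) with rfl | hjn
  swap
  · rw [hD'j j hjn]
    exact hK.norm j (by omega) x (hadjK hx) b hb
  -- the norm
  obtain ⟨ρ, hρ⟩ := Dst.exists hL hnu
  have hst : PStep p v L u ρ := ⟨hL, hup, hρ.far⟩
  have hD'Ln : HSn v L D' (n + 1) := by
    refine { toHSa := ?_, norm := fun i hi y hy b' hb' => ?_ }
    · exact ⟨fun y hy => halg.zero y ((mem_adj_self L u).2 hy), halg.const,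
        fun i hi y hy z hz => halg.add i hi y ((mem_adj_self L u).2 hy) z
          ((mem_adj_self L u).2 hz),
        fun i hi y hy z hz => halg.mul i hi y ((mem_adj_self L u).2 hy) z
          ((mem_adj_self L u).2 hz)⟩
    · rcases eq_or_ne i (n + 1) with rfl | h1
      · rw [hD'L y hy]
        exact hD.norm _ hi y hy b' hb'
      · rw [hD'j i h1]
        exact hK.norm i (by omega) y (hLK hy) b' hb'
  refine ge_of_eps fun ε hε => ?_
  have hp0 : (0 : ℝ) < p := by exact_mod_cast hp.out.pos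
  obtain ⟨g, hg, hgu⟩ := hρ.near (ε / p) (by positivity)
  have hAO := AO.stepW p h0 hst hg (γ := ε / p) (by positivity) hgu
  have hug0 : u - g ≠ 0 := fun h1 => hnu (by rw [sub_eq_zero.1 h1]; exact hg)
  -- the expansion of `x`
  obtain ⟨P, hP, hPd, hPx⟩ := exists_rep p hup hx
  set a : ℕ → Ω := fun m => (taylor g P).coeff m with ha
  have haL : ∀ m, a m ∈ L := fun m => TWM.taylor_mem_PI hP hg m
  have hxa : x = ∑ m : Fin p, a m * (u - g) ^ (m : ℕ) := by
    rw [Fin.sum_univ_eq_sum_range (fun m => a m * (u - g) ^ m) p, ← hPx]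
    have h1 : P.eval u = (taylor g P).eval (u - g) := by rw [taylor_eval, sub_add_cancel]
    rw [h1, eval_eq_sum_range' (by rw [natDegree_taylor]; exact hPd)]
  have hAO' := hAO (fun m => a m) (fun m => haL m) b (by rw [← hxa]; exact hb)
  -- the series
  have hugM : u - g ∈ adj L u := sub_mem (mem_adj_self L u).1 ((mem_adj_self L u).2 hg)
  have hug : PGn v (n + 1) (v (u - g)) (hs D' (u - g)) := by
    intro i hi
    rw [coeff_hs]
    rcases eq_or_ne i (n + 1) with rfl | h1
    · rw [halg.map_sub hi (mem_adj_self L u).1 ((mem_adj_self L u).2 hg), hD'u, hD'L g hg]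
      exact hc g hg
    · rw [hD'j i h1]
      exact hK.norm i (by omega) _ (hadjK hugM) _ (v.ge_self _)
  have hser : qn Ω (n + 1) (hs D' x) =
      qn Ω (n + 1) (∑ m : Fin p, hs D' (a m) * hs D' (u - g) ^ (m : ℕ)) := by
    have h1 : (⟨x, hx⟩ : adj L u) = ∑ m : Fin p,
        (⟨a m, (mem_adj_self L u).2 (haL m)⟩ : adj L u) * (⟨u - g, hugM⟩ : adj L u) ^ (m : ℕ) := by
      apply Subtype.ext
      rw [AddSubmonoidClass.coe_finsetSum]
      exact hxa
    have h2 := congrArg halg.hom h1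
    rw [map_sum] at h2
    rw [map_sum]
    refine h2.trans (Finset.sum_congr rfl fun m _ => ?_)
    rw [map_mul, map_pow, map_mul, map_pow]
    rfl
  rw [qn_eq] at hser
  have h2 := hser (n + 1) le_rfl
  rw [coeff_hs] at h2
  rw [h2, map_sum]
  refine RVal.Ge.sum _ _ fun m _ => ?_
  by_cases ham : a m = 0
  · have h3 : PGn v (n + 1) (b - ε - (m : ℕ) * v (u - g)) (hs D' (a m)) := by
      intro i hi
      rw [coeff_hs, ham, hD'Ln.toHSa.map_zero hi]
      exact RVal.Ge.zero
    have h4 := h3.mul (hug.pow m) (n + 1) le_rfl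
    rwa [sub_add_cancel] at h4
  · have h3 := hD'Ln.pge (haL m) (v.ge_self (a m))
    have h4 := h3.mul (hug.pow m) (n + 1) le_rfl
    refine h4.mono ?_
    have h5 := hAO' m (mul_ne_zero ham (pow_ne_zero _ hug0))
    rw [v.map_mul ham (pow_ne_zero _ hug0), v.map_pow hug0, mul_div_cancel₀ _ hp0.ne'] at h5
    exact h5

omit [CharP k p] [IsAlgClosed Ω] [CharP Ω p] hp in
/-- A common point of the balls. -/
theorem exists_ball (hsc : SphC v) (hL : Cld v L) {u : Ω} (hnu : u ∉ L) (f : Ω → Ω)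
    (hf : ∀ g ∈ L, ∀ g' ∈ L, ∀ b : ℝ, v.Ge b (g - g') → v.Ge b (f g - f g')) :
    ∃ c : Ω, ∀ g ∈ L, v.Ge (v (u - g)) (c - f g) := by
  obtain ⟨ρ, hρ⟩ := Dst.exists hL hnu
  by_cases hat : ∃ g₀ ∈ L, ρ ≤ v (u - g₀)
  · obtain ⟨g₀, hg₀, h1⟩ := hat
    refine ⟨f g₀, fun g hg => hf g₀ hg₀ g hg _ ?_⟩
    have h2 := (v.ge_self (u - g)).sub ((v.ge_self (u - g₀)).mono
      ((hρ.le hg).2.trans h1))
    rwa [sub_sub_sub_cancel_left] at h2
  · push Not at hat
    have h1 : ∀ m : ℕ, ∃ g ∈ L, v.Ge (ρ - 1 / (m + 1)) (u - g) := fun m =>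
      hρ.near (1 / (m + 1)) (by positivity)
    choose g hgL hg using h1
    have hmono : ∀ m m' : ℕ, m ≤ m' → ρ - 1 / ((m : ℝ) + 1) ≤ ρ - 1 / ((m' : ℝ) + 1) := by
      intro m m' hm
      have h2 : (m : ℝ) ≤ m' := by exact_mod_cast hm
      have h3 : 1 / ((m' : ℝ) + 1) ≤ 1 / ((m : ℝ) + 1) :=
        one_div_le_one_div_of_le (by positivity) (by linarith)
      linarith
    obtain ⟨y, hy⟩ := hsc (fun m => f (g m)) (fun m => ρ - 1 / (m + 1)) fun m m' hm => by
      refine hf _ (hgL m') _ (hgL m) _ ?_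
      have h2 := (hg m).sub ((hg m').mono (hmono m m' hm))
      rwa [sub_sub_sub_cancel_left] at h2
    refine ⟨y, fun g' hg' => ?_⟩
    have h2 := hat g' hg'
    obtain ⟨m, hm⟩ := exists_nat_one_div_lt (show 0 < ρ - v (u - g') by linarith)
    have h3 : v (u - g') ≤ ρ - 1 / (m + 1) := by linarith
    have h4 : v.Ge (v (u - g')) (g m - g') := by
      have h5 := (v.ge_self (u - g')).sub ((hg m).mono h3)
      rwa [sub_sub_sub_cancel_left] at h5
    have h5 := ((hy m).mono h3).add (hf _ (hgL m) _ hg' _ h4)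
    rwa [sub_add_sub_cancel] at h5

omit [CharP k p] [IsAlgClosed Ω] in
theorem HSa.of_le (h : HSa K D n) (hL : L ≤ K) : HSa L D n where
  zero := fun x hx => h.zero x (hL hx)
  const := h.const
  add := fun j hj x hx y hy => h.add j hj x (hL hx) y (hL hy)
  mul := fun j hj x hx y hy => h.mul j hj x (hL hx) y (hL hy)

/-- **The lifting lemma, relative form.** -/
theorem HSn.lift (h0 : Ctx0 k v) (hcv : CompleteV v) (hsc : SphC v) (S : Finset Ω) : ∀ (L : IntermediateField k Ω) (D : ℕ → Ω → Ω), HSn v K D n → Cld v L →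
      L ≤ K → (∀ x ∈ K, x ^ p ∈ L) → (∀ x ∈ S, x ∈ K) →
      K ≤ L ⊔ IntermediateField.adjoin k (S : Set Ω) → HSn v L D (n + 1) →
      (∀ x ∈ K, D (n + 1) (x ^ p) = if p ∣ n + 1 then (D ((n + 1) / p) x) ^ p else 0) →
      ∃ D' : ℕ → Ω → Ω, (∀ j, j ≠ n + 1 → D' j = D j) ∧ (∀ x ∈ L, D' (n + 1) x = D (n + 1) x) ∧
        HSn v K D' (n + 1) := by
  classical
  have hp1 : (n + 1) / p ≠ n + 1 := (Nat.div_lt_self (Nat.succ_pos n) hp.out.one_lt).ne
  induction S using Finset.induction_on with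
  | empty =>
    intro L D hD hL hLK _ _ hKL hDL _
    have h1 : K = L := by
      refine le_antisymm ?_ hLK
      rwa [Finset.coe_empty, IntermediateField.adjoin_empty, sup_bot_eq] at hKL
    exact ⟨D, fun _ _ => rfl, fun _ _ => rfl, by rw [h1]; exact hDL⟩
  | insert u S hu ih =>
    intro L D hD hL hLK hpow hS hKL hDL hF
    have huK := hS u (Finset.mem_insert_self u S)
    have hS' : ∀ x ∈ S, x ∈ K := fun x hx => hS x (Finset.mem_insert_of_mem hx)
    by_cases huL : u ∈ L
    · refine ih L D hD hL hLK hpow hS' (hKL.trans ?_) hDL hF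
      rw [Finset.coe_insert, sup_le_iff]
      refine ⟨le_sup_left, ?_⟩
      rw [IntermediateField.adjoin_le_iff]
      rintro x (rfl | hx)
      · exact (le_sup_left : L ≤ _) huL
      · exact (le_sup_right : _ ≤ L ⊔ _) (IntermediateField.subset_adjoin _ _ hx)
    · obtain ⟨c, hc⟩ := exists_ball hsc hL huL (D (n + 1)) fun g hg g' hg' b hb => by
        rw [← hDL.toHSa.map_sub le_rfl hg hg']
        exact hDL.norm _ le_rfl _ (sub_mem hg hg') b hb
      obtain ⟨D₁, h1, h2, -, h4⟩ := HSn.step p h0 hL hLK hD hDL hF huK (hpow u huK) huL hc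
      have halg : IsAlgebraic L u := by
        refine ⟨X ^ p - C (⟨u ^ p, hpow u huK⟩ : L), X_pow_sub_C_ne_zero hp.out.pos _, ?_⟩
        rw [_root_.map_sub, map_pow, aeval_X, aeval_C]
        exact sub_self _
      have hD₁ : HSn v K D₁ n := by
        refine { toHSa := ⟨?_, ?_, ?_, ?_⟩, norm := ?_ }
        · intro x hx
          rw [h1 0 (by omega)]
          exact hD.zero x hx
        · intro j h5 hj a
          rw [h1 j (by omega)]
          exact hD.const j h5 hj a
        · intro j hj x hx y hy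
          rw [h1 j (by omega)]
          exact hD.add j hj x hx y hy
        · intro j hj x hx y hy
          rw [h1 j (by omega), hD.mul j hj x hx y hy]
          refine Finset.sum_congr rfl fun a ha => ?_
          have := Finset.HasAntidiagonal.mem_antidiagonal.1 ha
          rw [h1 a.1 (by omega), h1 a.2 (by omega)]
        · intro j hj x hx b hb
          rw [h1 j (by omega)]
          exact hD.norm j hj x hx b hb
      obtain ⟨D₂, h5, h6, h7⟩ := ih (adj L u) D₁ hD₁ (cld_adj hcv hL halg) (adj_le hLK huK)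
        (fun x hx => (mem_adj_self L u).2 (hpow x hx)) hS' (hKL.trans (by
          rw [Finset.coe_insert, sup_le_iff]
          refine ⟨(show L ≤ adj L u from fun x hx => (mem_adj_self L u).2 hx).trans
            le_sup_left, ?_⟩
          rw [IntermediateField.adjoin_le_iff]
          rintro x (rfl | hx)
          · exact (le_sup_left : adj L x ≤ _) (mem_adj_self L x).1
          · exact (le_sup_right : _ ≤ adj L u ⊔ _) (IntermediateField.subset_adjoin _ _ hx))) h4
        (fun x hx => by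
          rw [h2 _ (hpow x hx), hF x hx, h1 _ hp1])
      exact ⟨D₂, fun j hj => (h5 j hj).trans (h1 j hj),
        fun x hx => (h6 x ((mem_adj_self L u).2 hx)).trans (h2 x hx), h7⟩

/-! ### The base: `p`-th powers -/

omit [IsAlgClosed Ω] in
/-- The field `K ^ p`. -/
def kp [PerfectRing k p] (K : IntermediateField k Ω) : IntermediateField k Ω where
  carrier := {y | ∃ x ∈ K, x ^ p = y}
  mul_mem' := by
    rintro _ _ ⟨x, hx, rfl⟩ ⟨y, hy, rfl⟩
    exact ⟨x * y, mul_mem hx hy, mul_pow _ _ _⟩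
  add_mem' := by
    rintro _ _ ⟨x, hx, rfl⟩ ⟨y, hy, rfl⟩
    exact ⟨x + y, add_mem hx hy, add_pow_char _ _ _⟩
  algebraMap_mem' a := by
    obtain ⟨b, hb⟩ := surjective_frobenius k p a
    refine ⟨algebraMap k Ω b, K.algebraMap_mem b, ?_⟩
    rw [← map_pow]
    exact congrArg _ hb
  inv_mem' := by
    rintro _ ⟨x, hx, rfl⟩
    exact ⟨x⁻¹, inv_mem hx, inv_pow _ _⟩

variable [PerfectRing k p]

omit [IsAlgClosed Ω] in
theorem mem_kp {y : Ω} : y ∈ kp p K ↔ ∃ x ∈ K, x ^ p = y := Iff.rfl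

omit [IsAlgClosed Ω] in
theorem kp_le : kp p K ≤ K := by
  rintro _ ⟨x, hx, rfl⟩
  exact pow_mem hx p

theorem cld_kp (hK : Cld v K) : Cld v (kp p K) := by
  intro y hy
  obtain ⟨x, rfl⟩ := IsAlgClosed.exists_pow_nat_eq y hp.out.pos
  refine ⟨x, hK (mem_clI.2 fun b => ?_), rfl⟩
  obtain ⟨g, hg, h1⟩ := mem_clI.1 hy (p * b)
  obtain ⟨g', hg', rfl⟩ := hg
  rw [← sub_pow_char] at h1
  exact ⟨g', hg', ge_root_l hp.out.pos h1⟩

/-- The lift over `K ^ p`. -/
theorem HSn.base (h : HSn v K D n) : ∃ D' : ℕ → Ω → Ω, (∀ j, j ≠ n + 1 → D' j = D j) ∧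
    (∀ x ∈ K, D' (n + 1) (x ^ p) = if p ∣ n + 1 then (D' ((n + 1) / p) x) ^ p else 0) ∧
    HSn v (kp p K) D' (n + 1) := by
  classical
  have hp1 : (n + 1) / p ≠ n + 1 := (Nat.div_lt_self (Nat.succ_pos n) hp.out.one_lt).ne
  set D' : ℕ → Ω → Ω := fun j x => if j = n + 1 then
    (if p ∣ n + 1 then (D ((n + 1) / p) (rt p 1 x)) ^ p else 0) else D j x with hD'
  have hD'j : ∀ j, j ≠ n + 1 → D' j = D j := fun j hj => by
    funext x
    rw [hD']
    simp only [if_neg hj]
  have hrt : ∀ x : Ω, rt p 1 (x ^ p) = x := fun x => rt_eq p (by rw [pow_one])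
  have hdiv : ∀ j ≤ n + 1, j / p ≤ n := by
    intro j hj
    rcases Nat.eq_zero_or_pos j with rfl | h1
    · rw [Nat.zero_div]
      exact Nat.zero_le n
    · have := Nat.div_lt_self h1 hp.out.one_lt
      omega
  have hpw : ∀ j ≤ n + 1, ∀ y ∈ K, D' j (y ^ p) = if p ∣ j then (D (j / p) y) ^ p else 0 := by
    intro j hj y hy
    rcases eq_or_ne j (n + 1) with rfl | h1
    · rw [hD']
      simp only [if_true]
      rw [hrt]
    · rw [hD'j j h1]
      exact h.toHSa.pow_p p hy (by omega)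
  have hser : ∀ j ≤ n + 1, ∀ y ∈ K, D' j (y ^ p) = PowerSeries.coeff j ((hs D y) ^ p) := by
    intro j hj y hy
    rw [hpw j hj y hy, coeff_ps_pow p, coeff_hs]
  refine ⟨D', hD'j, fun x hx => ?_, { toHSa := ⟨?_, ?_, ?_, ?_⟩, norm := ?_ }⟩
  · rw [hpw _ le_rfl x hx, hD'j _ hp1]
  · intro x hx
    rw [hD'j 0 (by omega)]
    exact h.zero x (kp_le p hx)
  · intro j h1 hj a
    rcases eq_or_ne j (n + 1) with rfl | h2
    · obtain ⟨b, hb⟩ := surjective_frobenius k p a
      have h3 : algebraMap k Ω a = (algebraMap k Ω b) ^ p := by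
        rw [← hb, ← map_pow]
        rfl
      rw [h3, hpw _ hj _ (K.algebraMap_mem b)]
      split_ifs with h4
      · have h5 : 1 ≤ (n + 1) / p := Nat.div_pos (Nat.le_of_dvd (Nat.succ_pos n) h4) hp.out.pos
        rw [h.const _ h5 (hdiv _ le_rfl), zero_pow hp.out.ne_zero]
      · rfl
    · rw [hD'j j h2]
      exact h.const j h1 (by omega) a
  · rintro j hj _ ⟨x, hx, rfl⟩ _ ⟨y, hy, rfl⟩
    rw [← add_pow_char, hpw j hj _ (add_mem hx hy), hpw j hj _ hx, hpw j hj _ hy]
    split_ifs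
    · rw [h.add _ (hdiv j hj) x hx y hy, add_pow_char]
    · rw [add_zero]
  · rintro j hj _ ⟨x, hx, rfl⟩ _ ⟨y, hy, rfl⟩
    have h1 : ∑ a ∈ Finset.HasAntidiagonal.antidiagonal j, D' a.1 (x ^ p) * D' a.2 (y ^ p) =
        PowerSeries.coeff j ((hs D x * hs D y) ^ p) := by
      rw [mul_pow, PowerSeries.coeff_mul]
      refine Finset.sum_congr rfl fun a ha => ?_
      have := Finset.HasAntidiagonal.mem_antidiagonal.1 ha
      rw [hser _ (by omega) x hx, hser _ (by omega) y hy]
    rw [h1, ← mul_pow, hpw j hj _ (mul_mem hx hy), coeff_ps_pow p]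
    split_ifs
    · rw [h.mul _ (hdiv j hj) x hx y hy, PowerSeries.coeff_mul]
      simp only [coeff_hs]
    · rfl
  · rintro j hj _ ⟨x, hx, rfl⟩ b hb
    rw [hpw j hj _ hx]
    split_ifs
    · have hp0 : (0 : ℝ) < p := by exact_mod_cast hp.out.pos
      have h1 : v.Ge (b / p) x := ge_root_l hp.out.pos (by
        rw [mul_div_cancel₀ _ hp0.ne']
        exact hb)
      have h2 := h.norm _ (hdiv j hj) x hx _ h1
      intro h0
      have h3 : D (j / p) x ≠ 0 := fun h4 => h0 (by rw [h4, zero_pow hp.out.ne_zero])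
      rw [v.map_pow h3]
      have h5 := h2 h3
      rw [div_le_iff₀ hp0] at h5
      linarith
    · exact RVal.Ge.zero

/-! ### Assembly -/

/-- **The lifting lemma**: `K` closed, finitely generated over `K ^ p`; the value at `x ∉ K ^ p` of the
new component may be prescribed. -/
theorem HSn.lift_at (h0 : Ctx0 k v) (hcv : CompleteV v) (hsc : SphC v) (hKc : Cld v K)
    {S : Finset Ω} (hS : ∀ x ∈ S, x ∈ K)
    (hgen : K ≤ kp p K ⊔ IntermediateField.adjoin k (S : Set Ω)) (h : HSn v K D n) {x : Ω}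
    (hx : x ∈ K) (hxp : x ∉ kp p K) {c : Ω}
    (hc : ∀ g ∈ K, v.Ge (v (x - g ^ p)) (c - if p ∣ n + 1 then (D ((n + 1) / p) g) ^ p else 0)) :
    ∃ D' : ℕ → Ω → Ω, (∀ j, j ≠ n + 1 → D' j = D j) ∧ D' (n + 1) x = c ∧
      HSn v K D' (n + 1) := by
  have hp1 : (n + 1) / p ≠ n + 1 := (Nat.div_lt_self (Nat.succ_pos n) hp.out.one_lt).ne
  obtain ⟨D₀, h1, h2, h3⟩ := HSn.base p h
  have hsame : ∀ D₁ : ℕ → Ω → Ω, (∀ j, j ≠ n + 1 → D₁ j = D j) → HSn v K D₁ n := by
    intro D₁ h1
    refine { toHSa := ⟨?_, ?_, ?_, ?_⟩, norm := ?_ }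
    · intro x hx
      rw [h1 0 (by omega)]
      exact h.zero x hx
    · intro j h5 hj a
      rw [h1 j (by omega)]
      exact h.const j h5 hj a
    · intro j hj x hx y hy
      rw [h1 j (by omega)]
      exact h.add j hj x hx y hy
    · intro j hj x hx y hy
      rw [h1 j (by omega), h.mul j hj x hx y hy]
      refine Finset.sum_congr rfl fun a ha => ?_
      have := Finset.HasAntidiagonal.mem_antidiagonal.1 ha
      rw [h1 a.1 (by omega), h1 a.2 (by omega)]
    · intro j hj x hx b hb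
      rw [h1 j (by omega)]
      exact h.norm j hj x hx b hb
  have hxpk : x ^ p ∈ kp p K := ⟨x, hx, rfl⟩
  obtain ⟨D₁, h4, h5, h6, h7⟩ := HSn.step p h0 (cld_kp p hKc) (kp_le p) (hsame D₀ h1) h3 h2 hx
    hxpk hxp (c := c) (by
      rintro _ ⟨g, hg, rfl⟩
      have := hc g hg
      rwa [h2 g hg, h1 _ hp1])
  have halg : IsAlgebraic (kp p K) x := by
    refine ⟨X ^ p - C (⟨x ^ p, hxpk⟩ : kp p K), X_pow_sub_C_ne_zero hp.out.pos _, ?_⟩
    rw [_root_.map_sub, map_pow, aeval_X, aeval_C]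
    exact sub_self _
  obtain ⟨D₂, h8, h9, h10⟩ := HSn.lift p h0 hcv hsc S (adj (kp p K) x) D₁
    (hsame D₁ fun j hj => (h4 j hj).trans (h1 j hj)) (cld_adj hcv (cld_kp p hKc) halg)
    (adj_le (kp_le p) hx) (fun y hy => (mem_adj_self _ x).2 ⟨y, hy, rfl⟩) hS
    (hgen.trans (sup_le_sup_right (fun y hy => (mem_adj_self _ x).2 hy) _)) h7
    (fun y hy => by rw [h5 _ ⟨y, hy, rfl⟩, h2 y hy, h4 _ hp1])
  refine ⟨D₂, fun j hj => ((h8 j hj).trans (h4 j hj)).trans (h1 j hj), ?_, h10⟩
  rw [h9 x (mem_adj_self _ x).1, h6]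

omit [Field Ω] [CharP k p] [CharP Ω p] [IsAlgClosed Ω] hp [PerfectRing k p] in
/-- A sequence of lifts. -/
theorem exists_seq_lift (P : (ℕ → Ω → Ω) → ℕ → Prop) {D₀ : ℕ → Ω → Ω} (h : P D₀ 0)
    (hstep : ∀ n D, P D n → ∃ D' : ℕ → Ω → Ω, (∀ j ≤ n, D' j = D j) ∧ P D' (n + 1)) :
    ∃ D : ℕ → Ω → Ω, ∀ n, ∃ D' : ℕ → Ω → Ω, P D' n ∧ ∀ j ≤ n, D j = D' j := by
  classical
  choose! G hG1 hG2 using hstep
  let s : ℕ → (ℕ → Ω → Ω) := fun n => Nat.rec D₀ (fun n D => G n D) n
  have hs : ∀ n, P (s n) n := by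
    intro n
    induction n with
    | zero => exact h
    | succ n ih => exact hG2 n (s n) ih
  have hst : ∀ n m j, j ≤ n → n ≤ m → s m j = s n j := by
    intro n m j hj hm
    induction m, hm using Nat.le_induction with
    | base => rfl
    | succ m hm ih =>
      rw [← ih]
      exact hG1 m (s m) (hs m) j (hj.trans hm)
  refine ⟨fun j => s j j, fun n => ⟨s n, hs n, fun j hj => (hst j n j le_rfl hj).symm⟩⟩

end Step

section All

/-- The homomorphism to the power series. -/
noncomputable def hsiHom (h : ∀ n, HSn v K D n) : K →ₐ[k] PowerSeries Ω where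
  toFun x := hs D x
  map_one' := by
    ext j
    rw [coeff_hs, PowerSeries.coeff_one]
    rcases Nat.eq_zero_or_pos j with rfl | h1
    · rw [if_pos rfl]
      exact (h 0).zero 1 (one_mem K)
    · rw [if_neg h1.ne']
      have h2 := (h j).const j h1 le_rfl 1
      rwa [_root_.map_one] at h2
  map_mul' x y := by
    ext j
    rw [coeff_hs, PowerSeries.coeff_mul]
    simp only [coeff_hs]
    exact (h j).mul j le_rfl x x.2 y y.2
  map_zero' := by
    ext j
    rw [coeff_hs, _root_.map_zero]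
    exact (h j).toHSa.map_zero le_rfl
  map_add' x y := by
    ext j
    rw [coeff_hs, map_add, coeff_hs, coeff_hs]
    exact (h j).add j le_rfl x x.2 y y.2
  commutes' c := by
    ext j
    rw [coeff_hs, PowerSeries.algebraMap_apply, PowerSeries.coeff_C]
    rcases Nat.eq_zero_or_pos j with rfl | h1
    · rw [if_pos rfl]
      exact (h 0).zero _ (K.algebraMap_mem c)
    · rw [if_neg h1.ne']
      exact (h j).const j h1 le_rfl c

theorem hsiHom_apply (h : ∀ n, HSn v K D n) (x : K) : hsiHom h x = hs D x := rfl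

theorem hsi_hsiHom (h : ∀ n, HSn v K D n) : HSI v K (hsiHom h) where
  zero x := by
    rw [hsiHom_apply, coeff_hs]
    exact (h 0).zero x x.2
  norm n x b hb := by
    rw [hsiHom_apply, coeff_hs]
    exact (h n).norm n le_rfl x x.2 b hb

theorem HSn.congr {D' : ℕ → Ω → Ω} (h : HSn v K D' n) (he : ∀ j ≤ n, D j = D' j) :
    HSn v K D n where
  zero x hx := by
    rw [he 0 (Nat.zero_le n)]
    exact h.zero x hx
  const j h5 hj a := by
    rw [he j hj]
    exact h.const j h5 hj a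
  add j hj x hx y hy := by
    rw [he j hj]
    exact h.add j hj x hx y hy
  mul j hj x hx y hy := by
    rw [he j hj, h.mul j hj x hx y hy]
    refine Finset.sum_congr rfl fun a ha => ?_
    have := Finset.HasAntidiagonal.mem_antidiagonal.1 ha
    rw [he a.1 (by omega), he a.2 (by omega)]
  norm j hj x hx b hb := by
    rw [he j hj]
    exact h.norm j hj x hx b hb

theorem HSn.id_zero : HSn v K (fun _ x => x) 0 where
  zero _ _ := rfl
  const j h1 h2 _ := absurd h1 (by omega)
  add _ _ _ _ _ _ := rfl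
  mul j hj x _ y _ := by
    obtain rfl : j = 0 := by omega
    simp
  norm _ _ _ _ _ hb := hb

end All

section Tight

variable (p : ℕ) [hp : Fact p.Prime] [CharP k p] [CharP Ω p] [IsAlgClosed Ω]

omit [CharP k p] [IsAlgClosed Ω] in
/-- The components of a `p ^ m`-th power. -/
theorem HSa.pow_pm (h : HSa K D n) {x : Ω} (hx : x ∈ K) {j m : ℕ} (hj : j ≤ n)
    (hm : ¬ p ^ m ∣ j) : D j (x ^ p ^ m) = 0 := by
  have h1 : h.hom ((⟨x, hx⟩ : K) ^ p ^ m) = (h.hom ⟨x, hx⟩) ^ p ^ m := map_pow _ _ _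
  rw [HSa.hom_apply, HSa.hom_apply, ← map_pow, qn_eq] at h1
  have h2 := h1 j hj
  rw [coeff_hs, coeff_ps_pow_zero p _ m j hm] at h2
  exact h2

variable [PerfectRing k p]

omit [IsAlgClosed Ω] in
/-- Generation by a `p`-basis. -/
theorem gen_of_pbasis {m : ℕ} {t : Fin m → Ω} (ht : TW.PBasis p K t) :
    ∃ S : Finset Ω, (∀ x ∈ S, x ∈ K) ∧
      K ≤ kp p K ⊔ IntermediateField.adjoin k (S : Set Ω) := by
  classical
  refine ⟨Finset.univ.image t, fun x hx => ?_, fun x hx => ?_⟩
  · obtain ⟨i, -, rfl⟩ := Finset.mem_image.1 hx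
    exact ht.mem i
  · obtain ⟨c, hc, rfl⟩ := ht.span x hx
    rw [TW.pcomb]
    refine sum_mem fun α _ => mul_mem ?_ ?_
    · exact (le_sup_left : kp p K ≤ _) ⟨c α, hc α, rfl⟩
    · refine prod_mem fun i _ => pow_mem ?_ _
      refine (le_sup_right : _ ≤ kp p K ⊔ _) (IntermediateField.subset_adjoin _ _ ?_)
      exact Finset.mem_coe.2 (Finset.mem_image.2 ⟨i, Finset.mem_univ i, rfl⟩)

/-- **The tight parameter lemma** (3172, section 3). -/
theorem exists_hsi_tight (h0 : Ctx0 k v) (hcv : CompleteV v) (hsc : SphC v) (hKc : Cld v K)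
    {S : Finset Ω} (hS : ∀ x ∈ S, x ∈ K)
    (hgen : K ≤ kp p K ⊔ IntermediateField.adjoin k (S : Set Ω)) {x χ : Ω} (hx : x ∈ K)
    (hfar : ∀ g ∈ K, ¬ Gt v (v χ) (x - g ^ p))
    (hnear : ∀ (m : ℕ) (ε : ℝ), 0 < ε → ∃ g ∈ K, v.Ge (v χ - ε) (x - g ^ p ^ (m + 1))) :
    ∃ h : K →ₐ[k] PowerSeries Ω, HSI v K h ∧
      h ⟨x, hx⟩ = PowerSeries.C x + PowerSeries.C χ * PowerSeries.X := by
  classical
  have hfar' : ∀ g ∈ K, x - g ^ p ≠ 0 ∧ v (x - g ^ p) ≤ v χ := by
    intro g hg
    have h1 := hfar g hg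
    rw [Gt] at h1
    push Not at h1
    exact h1
  have hxp : x ∉ kp p K := by
    rintro ⟨g, hg, h1⟩
    exact (hfar' g hg).1 (by rw [h1, sub_self])
  have hp0 : (0 : ℝ) < p := by exact_mod_cast hp.out.pos
  obtain ⟨D, hD⟩ := exists_seq_lift (fun D n => HSn v K D n ∧
    ∀ j, 1 ≤ j → j ≤ n → D j x = if j = 1 then χ else 0) (D₀ := fun _ x => x)
    ⟨HSn.id_zero, fun j h1 h2 => absurd h1 (by omega)⟩ (by
      rintro n D ⟨h1, h2⟩
      obtain ⟨D', h3, h4, h5⟩ := HSn.lift_at p h0 hcv hsc hKc hS hgen h1 hx hxp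
        (c := if n + 1 = 1 then χ else 0) (by
          intro g hg
          rcases Nat.eq_zero_or_pos n with rfl | hn
          · rw [if_pos rfl, if_neg (fun h5 => hp.out.one_lt.not_ge
              (Nat.le_of_dvd one_pos h5)), sub_zero]
            exact fun _ => (hfar' g hg).2
          · rw [if_neg (by omega), zero_sub]
            split_ifs with hd
            · set i : ℕ := (n + 1) / p with hi
              have hin : i ≤ n := by
                have : (n + 1) / p < n + 1 := Nat.div_lt_self (Nat.succ_pos n) hp.out.one_lt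
                omega
              have hi1 : 1 ≤ i := Nat.div_pos (Nat.le_of_dvd (Nat.succ_pos n) hd) hp.out.pos
              have hpi : ¬ p ^ i ∣ i := fun h6 =>
                (Nat.lt_pow_self hp.out.one_lt : i < p ^ i).not_ge (Nat.le_of_dvd hi1 h6)
              have h6 : v.Ge (v (x - g ^ p) / p) (D i g) := by
                refine ge_of_eps fun ε hε => ?_
                obtain ⟨g', hg', h7⟩ := hnear i (p * ε) (by positivity)
                have h8 : v.Ge (v (x - g ^ p) - p * ε) (g ^ p - g' ^ p ^ (i + 1)) := by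
                  have h9 := (h7.mono (show v (x - g ^ p) - p * ε ≤ v χ - p * ε by
                    linarith [(hfar' g hg).2])).sub ((v.ge_self (x - g ^ p)).mono
                      (show v (x - g ^ p) - p * ε ≤ _ by
                        have : 0 < p * ε := by positivity
                        linarith))
                  rwa [sub_sub_sub_cancel_left] at h9
                rw [pow_succ, pow_mul, ← sub_pow_char] at h8
                have h9 : v.Ge (v (x - g ^ p) / p - ε) (g - g' ^ p ^ i) := by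
                  refine ge_root_l hp.out.pos ?_
                  rwa [mul_sub, mul_div_cancel₀ _ hp0.ne']
                have hgi : g' ^ p ^ i ∈ K := pow_mem hg' _
                have h10 := h1.norm i hin _ (sub_mem hg hgi) _ h9
                rwa [h1.toHSa.map_sub hin hg hgi, h1.toHSa.pow_pm p hg' hin hpi,
                  sub_zero] at h10
              refine RVal.Ge.neg ?_
              intro h7
              have h8 : D i g ≠ 0 := fun h9 => h7 (by rw [h9, zero_pow hp.out.ne_zero])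
              rw [v.map_pow h8]
              have h9 := h6 h8
              rw [div_le_iff₀ hp0] at h9
              linarith
            · rw [neg_zero]
              exact RVal.Ge.zero)
      refine ⟨D', fun j hj => h3 j (by omega), h5, fun j hj1 hj2 => ?_⟩
      rcases eq_or_ne j (n + 1) with rfl | h6
      · exact h4
      · rw [h3 j h6]
        exact h2 j hj1 (by omega))
  have hDn : ∀ n, HSn v K D n := by
    intro n
    obtain ⟨D', h1, h2⟩ := hD n
    exact h1.1.congr h2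
  refine ⟨hsiHom hDn, hsi_hsiHom hDn, ?_⟩
  rw [hsiHom_apply]
  ext j
  rw [coeff_hs, map_add, PowerSeries.coeff_C, PowerSeries.coeff_C_mul, PowerSeries.coeff_X]
  rcases Nat.eq_zero_or_pos j with rfl | h1
  · rw [if_pos rfl, if_neg (by omega), mul_zero, add_zero]
    exact (hDn 0).zero x hx
  · rw [if_neg h1.ne', zero_add]
    obtain ⟨D', h2, h3⟩ := hD j
    rw [h3 j le_rfl, h2.2 j h1 le_rfl]
    split_ifs
    · rw [mul_one]
    · rw [mul_zero]

/-- The tight parameter lemma for an element without drops. -/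
theorem SND.exists_hsi (h0 : Ctx0 k v) (hcv : CompleteV v) (hsc : SphC v) {m : ℕ}
    {t : Fin m → Ω} (ht : TW.PBasis p K t) {x : ℕ → Ω} {r : ℝ}
    (h : SND p v K x fun n => r / (p : ℝ) ^ n) {χ : Ω} (hχ : v χ = r) :
    ∃ H : K →ₐ[k] PowerSeries Ω, HSI v K H ∧
      H ⟨x 0, h.mem⟩ = PowerSeries.C (x 0) + PowerSeries.C χ * PowerSeries.X := by
  have hp0 : (0 : ℝ) < p := by exact_mod_cast hp.out.pos
  obtain ⟨S, hS, hgen⟩ := gen_of_pbasis p ht
  refine exists_hsi_tight p h0 hcv hsc h.cld hS hgen h.mem (fun g hg h1 => ?_)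
    fun n ε hε => ?_
  · refine h.far 0 ⟨g, (mem_adj_self K (x 0)).2 hg, fun h2 => ?_⟩
    have h3 : (x (0 + 1) - g) ^ p = x 0 - g ^ p := by rw [sub_pow_char, h.root]
    have h4 := h1 (by rw [← h3]; exact pow_ne_zero _ h2)
    rw [← h3, v.map_pow h2, hχ] at h4
    rw [zero_add, pow_one, div_lt_iff₀ hp0]
    linarith
  · have hpn : (0 : ℝ) < (p : ℝ) ^ (n + 1) := by positivity
    obtain ⟨g, hg, h1⟩ := h.near n (ε / (p : ℝ) ^ (n + 1)) (by positivity)
    refine ⟨g, hg, ?_⟩
    have h2 : (x (n + 1) - g) ^ p ^ (n + 1) = x 0 - g ^ p ^ (n + 1) := by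
      rw [sub_pow_char_pow]
      have := h.root_pow 0 (n + 1)
      rw [zero_add] at this
      rw [this]
    rw [← h2, hχ]
    intro h3
    have h4 : x (n + 1) - g ≠ 0 := fun h5 => h3 (by
      rw [h5, zero_pow (pow_ne_zero _ hp.out.ne_zero)])
    have h5 := h1 h4
    rw [v.map_pow h4]
    push_cast
    have h6 : r / (p : ℝ) ^ (n + 1) - ε / (p : ℝ) ^ (n + 1) = (r - ε) / (p : ℝ) ^ (n + 1) := by
      rw [sub_div]
    rw [h6, div_le_iff₀ hpn] at h5
    linarith

end Tight

end Pool.Agent.TWC
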