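import Pool.Agent.Lib.TWC.Poly

/-!
# TANK W, class C: formal limits (radius `0`)

* `Nul v x`: the sequence `x` is in `O(-ε)` for large `n`, for every `ε > 0`;
* `Cau v B x`: a sequence of `B`, Cauchy up to `0`;
* `CauS v E`, `TrivS v E`: these sequences as `k`-subspaces of `ℕ → Ω`; the sequences near to an
  element of `E`;
* `MM v E = CauS / TrivS`: the `k`-space of the formal limits of `E` up to `0`, modulo `E`;
  `MM.fr` its Frobenius, injective if `E` is perfect (and surjective), `MM.act` the action of an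
  operator of `E` of norm `≤ 0`.
-/

set_option autoImplicit false

open Polynomial

namespace Pool.Agent.TWC

open Pool.Agent.H15JM (RVal)
open Pool.Agent.D2 (Ctx0)
open Pool.Agent.TWM

universe u

/-! ## Sequences -/

section Seq

variable {Ω : Type u} [Field Ω] {v : RVal Ω}

theorem Nul.sum {ι : Type*} (S : Finset ι) (x : ι → ℕ → Ω) (h : ∀ i ∈ S, Nul v (x i)) :
    Nul v (fun n => ∑ i ∈ S, x i n) := by
  classical
  induction S using Finset.induction_on with
  | empty => simpa using Nul.zero (v := v)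
  | insert a S ha ih =>
    have h1 := (h a (Finset.mem_insert_self _ _)).add
      (ih fun i hi => h i (Finset.mem_insert_of_mem hi))
    exact h1.congr fun n => by rw [Finset.sum_insert ha]

theorem Nul.mul_ge {x : ℕ → Ω} (hx : Nul v x) {c : ℕ → Ω} (hc : ∀ n, v.Ge 0 (c n)) :
    Nul v (fun n => c n * x n) := by
  intro ε hε
  obtain ⟨N, hN⟩ := hx ε hε
  refine ⟨N, fun n hn => ?_⟩
  have := (hc n).mul (hN n hn)
  rwa [zero_add] at this

/-- A constant sequence. -/
theorem Nul.const_iff {c : Ω} : Nul v (fun _ => c) ↔ v.Ge 0 c := by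
  constructor
  · intro h h0
    refine le_of_forall_pos_le_add fun ε hε => ?_
    obtain ⟨N, hN⟩ := h ε hε
    have := hN N le_rfl h0
    linarith
  · intro h ε hε
    exact ⟨0, fun _ _ => h.mono (by linarith)⟩

theorem Nul.pow {x : ℕ → Ω} (hx : Nul v x) (m : ℕ) : Nul v (fun n => x n ^ m) := by
  intro ε hε
  obtain ⟨N, hN⟩ := hx (ε / (m + 1)) (by positivity)
  refine ⟨N, fun n hn => (ge_pow (hN n hn) m).mono ?_⟩
  have h1 : (m : ℝ) * (ε / (m + 1)) ≤ ε := by
    rw [← mul_div_assoc, div_le_iff₀ (by positivity)]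
    nlinarith
  linarith

/-- A nul sequence stays so on a subsequence. -/
theorem Nul.comp {x : ℕ → Ω} (hx : Nul v x) {φ : ℕ → ℕ} (hφ : ∀ n, n ≤ φ n) :
    Nul v (fun n => x (φ n)) := fun ε hε => by
  obtain ⟨N, hN⟩ := hx ε hε
  exact ⟨N, fun n hn => hN _ (hn.trans (hφ n))⟩

end Seq

section Cau

variable {k Ω : Type u} [Field k] [Field Ω] [Algebra k Ω] {v : RVal Ω}
  {B E : IntermediateField k Ω}

theorem Cau.pow {x : ℕ → Ω} (p : ℕ) [Fact p.Prime] [CharP Ω p] (hx : Cau v B x) :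
    Cau v B (fun n => x n ^ p) where
  mem n := pow_mem (hx.mem n) p
  cau ε hε := by
    have hp : (0 : ℝ) < p := by exact_mod_cast (Fact.out : p.Prime).pos
    obtain ⟨N, hN⟩ := hx.cau (ε / p) (by positivity)
    refine ⟨N, fun m n hm hn => ?_⟩
    rw [← sub_pow_char]
    refine (ge_pow (hN m n hm hn) p).mono (le_of_eq ?_)
    field_simp

theorem Cau.pow_pow {x : ℕ → Ω} (p : ℕ) [Fact p.Prime] [CharP Ω p] (hx : Cau v B x) (j : ℕ) :
    Cau v B (fun n => x n ^ p ^ j) := by
  induction j with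
  | zero => simpa using hx
  | succ j ih =>
    have h1 := ih.pow p
    have h2 : (fun n => (x n ^ p ^ j) ^ p) = fun n => x n ^ p ^ (j + 1) := by
      funext n
      rw [← pow_mul, ← pow_succ]
    rwa [h2] at h1

/-- The `p`-th root of a Cauchy sequence of a perfect field. -/
theorem Cau.exists_root {x : ℕ → Ω} (p : ℕ) [Fact p.Prime] [CharP Ω p]
    (hE : ∀ a ∈ E, ∃ b ∈ E, b ^ p = a) (hx : Cau v E x) :
    ∃ y, Cau v E y ∧ ∀ n, y n ^ p = x n := by
  choose y hy hyp using fun n => hE (x n) (hx.mem n)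
  refine ⟨y, ⟨hy, fun ε hε => ?_⟩, hyp⟩
  have hp : (0 : ℝ) < p := by exact_mod_cast (Fact.out : p.Prime).pos
  obtain ⟨N, hN⟩ := hx.cau (p * ε) (by positivity)
  refine ⟨N, fun m n hm hn h0 => ?_⟩
  have h1 := hN m n hm hn
  rw [← hyp, ← hyp, ← sub_pow_char] at h1
  have h2 := h1 (pow_ne_zero p h0)
  rw [v.map_pow h0] at h2
  have h3 : (p : ℝ) * (-ε) ≤ p * v (y m - y n) := by linarith
  exact le_of_mul_le_mul_left h3 hp

end Cau

/-! ## The space of the formal limits modulo the field -/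

section MMs

variable {k Ω : Type u} [Field k] [Field Ω] [Algebra k Ω]

/-- The sequences of `E` which are Cauchy up to `0`. -/
def CauS (v : RVal Ω) [hc : Fact (Ctx0 k v)] (E : IntermediateField k Ω) :
    Submodule k (ℕ → Ω) where
  carrier := {x | Cau v E x}
  add_mem' hx hy := hx.add hy
  zero_mem' := Cau.const (zero_mem E)
  smul_mem' := by
    intro a x hx
    refine ⟨fun n => ?_, fun ε hε => ?_⟩
    · rw [Pi.smul_apply]
      exact E.smul_mem (hx.mem n)
    · obtain ⟨N, hN⟩ := hx.cau ε hε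
      refine ⟨N, fun m n hm hn => ?_⟩
      rw [Pi.smul_apply, Pi.smul_apply, ← smul_sub, Algebra.smul_def]
      have := (hc.out.ge a).mul (hN m n hm hn)
      rwa [zero_add] at this

/-- The sequences near to an element of `E`. -/
def TrivS (v : RVal Ω) [hc : Fact (Ctx0 k v)] (E : IntermediateField k Ω) :
    Submodule k (ℕ → Ω) where
  carrier := {x | ∃ e ∈ E, Nul v (fun n => x n - e)}
  add_mem' := by
    rintro x y ⟨e, he, hx⟩ ⟨f, hf, hy⟩
    refine ⟨e + f, add_mem he hf, (hx.add hy).congr fun n => ?_⟩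
    rw [Pi.add_apply]
    ring
  zero_mem' := ⟨0, zero_mem E, Nul.zero.congr fun n => by rw [Pi.zero_apply, sub_zero]⟩
  smul_mem' := by
    rintro a x ⟨e, he, hx⟩
    refine ⟨a • e, E.smul_mem he, ?_⟩
    refine (hx.mul_ge (c := fun _ => algebraMap k Ω a) fun _ => hc.out.ge a).congr fun n => ?_
    rw [Pi.smul_apply, ← smul_sub, Algebra.smul_def]

/-- The formal limits of `E` up to `0`, modulo `E`. -/
def MM (v : RVal Ω) [Fact (Ctx0 k v)] (E : IntermediateField k Ω) : Type u :=
  CauS v E ⧸ (TrivS v E).submoduleOf (CauS v E)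

noncomputable instance (v : RVal Ω) [Fact (Ctx0 k v)] (E : IntermediateField k Ω) :
    AddCommGroup (MM v E) := inferInstanceAs (AddCommGroup (_ ⧸ _))

noncomputable instance (v : RVal Ω) [Fact (Ctx0 k v)] (E : IntermediateField k Ω) :
    Module k (MM v E) := inferInstanceAs (Module k (_ ⧸ _))

variable {v : RVal Ω} [Fact (Ctx0 k v)] {E : IntermediateField k Ω}

namespace MM

/-- The class of a Cauchy sequence. -/
noncomputable def mk (v : RVal Ω) [Fact (Ctx0 k v)] (E : IntermediateField k Ω) :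
    CauS v E →ₗ[k] MM v E := Submodule.mkQ _

theorem ind (m : MM v E) : ∃ x : CauS v E, mk v E x = m :=
  Submodule.mkQ_surjective _ m

theorem mk_eq_zero (x : CauS v E) :
    mk v E x = 0 ↔ ∃ e ∈ E, Nul v (fun n => (x : ℕ → Ω) n - e) := by
  exact (Submodule.Quotient.mk_eq_zero _).trans Iff.rfl

variable (p : ℕ) [Fact p.Prime] [CharP k p] [CharP Ω p]

/-- The Frobenius on the sequences. -/
noncomputable def frS (v : RVal Ω) [Fact (Ctx0 k v)] (E : IntermediateField k Ω) :
    CauS v E →ₛₗ[frobenius k p] CauS v E where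
  toFun x := ⟨fun n => (x : ℕ → Ω) n ^ p, x.2.pow p⟩
  map_add' x y := by
    refine Subtype.ext (funext fun n => ?_)
    exact add_pow_char _ _ _
  map_smul' a x := by
    refine Subtype.ext (funext fun n => ?_)
    change (a • (x : ℕ → Ω) n) ^ p = frobenius k p a • (x : ℕ → Ω) n ^ p
    rw [_root_.smul_pow, frobenius_def]

/-- The Frobenius. -/
noncomputable def fr (v : RVal Ω) [Fact (Ctx0 k v)] (E : IntermediateField k Ω) :
    MM v E →ₛₗ[frobenius k p] MM v E :=
  Submodule.mapQ _ _ (frS p v E) (by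
    rintro x ⟨e, he, hx⟩
    refine ⟨e ^ p, pow_mem he p, (hx.pow p).congr fun n => ?_⟩
    exact sub_pow_char _ _)

theorem fr_mk (x : CauS v E) : fr p v E (mk v E x) = mk v E (frS p v E x) := rfl

theorem fr_injective (hE : ∀ a ∈ E, ∃ b ∈ E, b ^ p = a) : Function.Injective (fr p v E) := by
  refine (injective_iff_map_eq_zero _).2 fun m hm => ?_
  obtain ⟨x, rfl⟩ := ind m
  rw [fr_mk, mk_eq_zero] at hm
  obtain ⟨e, he, h⟩ := hm
  obtain ⟨f, hf, rfl⟩ := hE e he
  refine (mk_eq_zero x).2 ⟨f, hf, Nul.of_pow (Fact.out : p.Prime).ne_zero (q := p) ?_⟩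
  refine h.congr fun n => ?_
  exact (sub_pow_char _ _).symm

theorem fr_surjective (hE : ∀ a ∈ E, ∃ b ∈ E, b ^ p = a) : Function.Surjective (fr p v E) := by
  intro m
  obtain ⟨x, rfl⟩ := ind m
  obtain ⟨y, hy, h⟩ := x.2.exists_root p hE
  refine ⟨mk v E ⟨y, hy⟩, ?_⟩
  rw [fr_mk]
  congr 1
  exact Subtype.ext (funext fun n => h n)

end MM

/-- `φ` is an operator of `E` of norm `≤ 0`. -/
def Nrm0 (v : RVal Ω) {E : IntermediateField k Ω} (φ : E →ₗ[k] E) : Prop :=
  ∀ (x : E) (b : ℝ), v.Ge b (x : Ω) → v.Ge b (φ x : Ω)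

/-- The operators of norm `≤ 0` of `E`. -/
def Opr (v : RVal Ω) [hc : Fact (Ctx0 k v)] (E : IntermediateField k Ω) :
    Subalgebra k (Module.End k E) where
  carrier := {φ | Nrm0 v φ}
  mul_mem' hφ hψ x b hb := hφ _ _ (hψ x b hb)
  one_mem' _ _ hb := hb
  add_mem' hφ hψ x b hb := (hφ x b hb).add (hψ x b hb)
  zero_mem' _ _ _ := RVal.Ge.zero
  algebraMap_mem' a x b hb := by
    rw [Module.algebraMap_end_apply]
    change v.Ge b (a • (x : Ω))
    rw [Algebra.smul_def]
    have := (hc.out.ge a).mul hb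
    rwa [zero_add] at this

namespace MM

/-- The action on the sequences. -/
noncomputable def actS (φ : Opr v E) : CauS v E →ₗ[k] CauS v E where
  toFun x := ⟨fun n => ((φ : Module.End k E) ⟨(x : ℕ → Ω) n, x.2.mem n⟩ : E), by
    refine ⟨fun n => ((φ : Module.End k E) ⟨(x : ℕ → Ω) n, x.2.mem n⟩).2, fun ε hε => ?_⟩
    obtain ⟨N, hN⟩ := x.2.cau ε hε
    refine ⟨N, fun m n hm hn => ?_⟩
    have := φ.2 (⟨(x : ℕ → Ω) m, x.2.mem m⟩ - ⟨(x : ℕ → Ω) n, x.2.mem n⟩) (-ε) (hN m n hm hn)
    rw [map_sub] at this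
    exact this⟩
  map_add' x y := by
    refine Subtype.ext (funext fun n => ?_)
    have := (φ : Module.End k E).map_add ⟨(x : ℕ → Ω) n, x.2.mem n⟩ ⟨(y : ℕ → Ω) n, y.2.mem n⟩
    exact congrArg Subtype.val this
  map_smul' a x := by
    refine Subtype.ext (funext fun n => ?_)
    have := (φ : Module.End k E).map_smul a ⟨(x : ℕ → Ω) n, x.2.mem n⟩
    exact congrArg Subtype.val this

/-- The action of an operator. -/
noncomputable def act (φ : Opr v E) : MM v E →ₗ[k] MM v E :=
  Submodule.mapQ _ _ (actS φ) (by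
    rintro x ⟨e, he, hx⟩
    refine ⟨((φ : Module.End k E) ⟨e, he⟩ : E), ((φ : Module.End k E) ⟨e, he⟩).2, fun ε hε => ?_⟩
    obtain ⟨N, hN⟩ := hx ε hε
    refine ⟨N, fun n hn => ?_⟩
    have := φ.2 (⟨(x : ℕ → Ω) n, x.2.mem n⟩ - ⟨e, he⟩) (-ε) (hN n hn)
    rw [map_sub] at this
    exact this)

theorem act_mk (φ : Opr v E) (x : CauS v E) : act φ (mk v E x) = mk v E (actS φ x) := rfl

theorem act_add (φ ψ : Opr v E) (m : MM v E) : act (φ + ψ) m = act φ m + act ψ m := by
  obtain ⟨x, rfl⟩ := ind m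
  rw [act_mk, act_mk, act_mk, ← map_add]
  rfl

theorem act_mul (φ ψ : Opr v E) (m : MM v E) : act (φ * ψ) m = act φ (act ψ m) := by
  obtain ⟨x, rfl⟩ := ind m
  rfl

theorem act_smul (a : k) (φ : Opr v E) (m : MM v E) : act (a • φ) m = a • act φ m := by
  obtain ⟨x, rfl⟩ := ind m
  rw [act_mk, act_mk, ← map_smul]
  rfl

theorem act_one (m : MM v E) : act (1 : Opr v E) m = m := by
  obtain ⟨x, rfl⟩ := ind m
  rfl

/-- The action as a homomorphism of algebras. -/
noncomputable def actHom (v : RVal Ω) [Fact (Ctx0 k v)] (E : IntermediateField k Ω) :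
    Opr v E →ₐ[k] Module.End k (MM v E) where
  toFun := act
  map_one' := LinearMap.ext act_one
  map_mul' φ ψ := LinearMap.ext (act_mul φ ψ)
  map_zero' := LinearMap.ext fun m => by
    have := act_smul (0 : k) (0 : Opr v E) m
    rw [zero_smul, zero_smul] at this
    exact this
  map_add' φ ψ := LinearMap.ext (act_add φ ψ)
  commutes' a := LinearMap.ext fun m => by
    rw [Algebra.algebraMap_eq_smul_one, act_smul, act_one]
    rfl

variable (p : ℕ) [Fact p.Prime] [CharP k p] [CharP Ω p]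

/-- `φ Fr = Fr φ'` on `E` gives the same relation on `MM v E`. -/
theorem act_fr {φ φ' : Opr v E}
    (h : ∀ x : E, (φ : Module.End k E) (x ^ p) = ((φ' : Module.End k E) x) ^ p) (m : MM v E) :
    act φ (fr p v E m) = fr p v E (act φ' m) := by
  obtain ⟨x, rfl⟩ := ind m
  rw [fr_mk, act_mk, act_mk, fr_mk]
  congr 1
  refine Subtype.ext (funext fun n => ?_)
  exact congrArg Subtype.val (h ⟨(x : ℕ → Ω) n, x.2.mem n⟩)

end MM

end MMs

end Pool.Agent.TWC
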