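import Pool.Agent.Lib.TWC.Surj
import Pool.Agent.Lib.TWM.Roots

/-!
# TANK W, class C, level 0: the first floor is tight

`x n` compatible `p ^ n`-th roots of `x 0`, of value `-S / p ^ n`, `S > 0` (`Lv0`).
* `Ltr`: `f = n + ∑ m, c m • x (m + 1)`, `n ∈ N`, the `c m` in `k` (the letters of `f`);
* `tight_of_letters`: if `b` has letters and is far from the algebraic elements, the closed field
  generated by `x 0`, `b` comes near every `x l`, up to `0`.
-/

set_option autoImplicit false

open Finset Polynomial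

namespace Pool.Agent.TWC

open Pool.Agent.H15JM (RVal)
open Pool.Agent.LU1 (VPos)
open Pool.Agent.D2 (Ctx0)
open Pool.Agent.TWM

universe u

variable {k Ω : Type u} [Field k] [Field Ω] [Algebra k Ω] {v : RVal Ω}

/-- Compatible roots of an element of value `-S`. -/
structure Lv0 (p : ℕ) (v : RVal Ω) (x : ℕ → Ω) (S : ℝ) : Prop where
  root : ∀ n, x (n + 1) ^ p = x n
  pos : 0 < S
  ne : x 0 ≠ 0
  val : v (x 0) = -S

section Basic

variable {p : ℕ} [hp : Fact p.Prime] {x : ℕ → Ω} {S : ℝ}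

omit [Field k] [Algebra k Ω] in
theorem Lv0.ne' (h : Lv0 p v x S) (n : ℕ) : x n ≠ 0 := by
  induction n with
  | zero => exact h.ne
  | succ n ih =>
    intro h0
    rw [← h.root n, h0, zero_pow hp.out.ne_zero] at ih
    exact ih rfl

omit [Field k] [Algebra k Ω] in
theorem Lv0.val' (h : Lv0 p v x S) (n : ℕ) : v (x n) = -(S / (p : ℝ) ^ n) := by
  have hp0 : (0 : ℝ) < p := by exact_mod_cast hp.out.pos
  induction n with
  | zero => rw [pow_zero, div_one]; exact h.val
  | succ n ih =>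
    rw [← h.root n, v.map_pow (h.ne' (n + 1))] at ih
    rw [pow_succ]
    field_simp
    field_simp at ih
    linarith

omit [Field k] [Algebra k Ω] hp in
theorem Lv0.pow (h : Lv0 p v x S) (n j : ℕ) : x (n + j) ^ p ^ j = x n := by
  induction j with
  | zero => rw [pow_zero, pow_one, Nat.add_zero]
  | succ j ih => rw [pow_succ', pow_mul, ← Nat.add_assoc, h.root, ih]

/-- `f = n + ∑ m, c m • x (m + 1)`. -/
def Ltr (p : ℕ) (v : RVal Ω) (x : ℕ → Ω) (S : ℝ) (N : IntermediateField k Ω) (f : Ω)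
    (c : ℕ → k) : Prop :=
  ∃ n ∈ N, ∀ M : ℕ, v.Ge (-(S / (p : ℝ) ^ (M + 1))) (f - n - ∑ m ∈ range M, c m • x (m + 1))

variable {N : IntermediateField k Ω} {f g : Ω} {c d : ℕ → k}

omit hp in
theorem Ltr.zero : Ltr p v x S N 0 (0 : ℕ → k) :=
  ⟨0, zero_mem N, fun M => by
    simp only [Pi.zero_apply, zero_smul, sum_const_zero, sub_zero]
    exact RVal.Ge.zero⟩

omit hp in
theorem Ltr.add (hf : Ltr p v x S N f c) (hg : Ltr p v x S N g d) :
    Ltr p v x S N (f + g) (c + d) := by
  obtain ⟨n, hn, h1⟩ := hf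
  obtain ⟨m, hm, h2⟩ := hg
  refine ⟨n + m, add_mem hn hm, fun M => ?_⟩
  have e : f + g - (n + m) - ∑ i ∈ range M, (c + d) i • x (i + 1) =
      (f - n - ∑ i ∈ range M, c i • x (i + 1)) + (g - m - ∑ i ∈ range M, d i • x (i + 1)) := by
    simp only [Pi.add_apply, add_smul, sum_add_distrib]
    ring
  rw [e]
  exact (h1 M).add (h2 M)

omit hp in
theorem Ltr.smul (h0 : Ctx0 k v) (a : k) (hf : Ltr p v x S N f c) :
    Ltr p v x S N (a • f) (a • c) := by
  obtain ⟨n, hn, h1⟩ := hf
  refine ⟨a • n, N.smul_mem hn, fun M => ?_⟩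
  have e : a • f - a • n - ∑ i ∈ range M, (a • c) i • x (i + 1) =
      a • (f - n - ∑ i ∈ range M, c i • x (i + 1)) := by
    simp only [Pi.smul_apply, smul_eq_mul, mul_smul, ← smul_sum, smul_sub]
  rw [e]
  exact Surj.smul_ge h0 a (h1 M)

/-- The Frobenius moves the letters. -/
theorem Ltr.frob [CharP k p] [CharP Ω p] (hx : Lv0 p v x S) (hN : x 0 ∈ N)
    (hf : Ltr p v x S N f c) : Ltr p v x S N (f ^ p) (fun m => c (m + 1) ^ p) := by
  obtain ⟨n, hn, h1⟩ := hf
  refine ⟨n ^ p + c 0 ^ p • x 0, add_mem (pow_mem hn p) (N.smul_mem hN), fun M => ?_⟩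
  have hp0 : (0 : ℝ) < p := by exact_mod_cast hp.out.pos
  have e : f ^ p - (n ^ p + c 0 ^ p • x 0) - ∑ i ∈ range M, c (i + 1) ^ p • x (i + 1) =
      (f - n - ∑ i ∈ range (M + 1), c i • x (i + 1)) ^ p := by
    rw [sub_pow_char, sub_pow_char, sum_pow_char, sum_range_succ']
    simp only [_root_.smul_pow, hx.root]
    ring
  rw [e]
  have h2 := ge_pow (h1 (M + 1)) p
  refine h2.mono (le_of_eq ?_)
  rw [pow_succ (p : ℝ) (M + 1)]
  field_simp

end Basic

/-! ### The linear algebra of the letters -/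

namespace LvAlg

variable {p : ℕ} [hp : Fact p.Prime] [CharP k p] (κ : ℕ → k)

omit hp [CharP k p] in
/-- The letters of the `p ^ i`-th power. -/
def gen (p : ℕ) (κ : ℕ → k) (i : ℕ) : ℕ → k := fun m => κ (m + i) ^ p ^ i

omit hp [CharP k p] in
/-- The letters of the `k`-combinations of the powers. -/
def spn (p : ℕ) (κ : ℕ → k) : Submodule k (ℕ → k) := Submodule.span k (Set.range (gen p κ))

theorem frob_mem {u : ℕ → k} (hu : u ∈ spn p κ) : (fun m => u (m + 1) ^ p) ∈ spn p κ := by
  induction hu using Submodule.span_induction with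
  | mem u hu =>
    obtain ⟨i, rfl⟩ := hu
    refine Submodule.subset_span ⟨i + 1, funext fun m => ?_⟩
    change κ (m + (i + 1)) ^ p ^ (i + 1) = (κ (m + 1 + i) ^ p ^ i) ^ p
    rw [← pow_mul, ← pow_succ, Nat.add_assoc m 1 i, Nat.add_comm 1 i]
  | zero =>
    have : (fun m => (0 : ℕ → k) (m + 1) ^ p) = (0 : ℕ → k) :=
      funext fun m => zero_pow hp.out.ne_zero
    rw [this]
    exact zero_mem _
  | add u w _ _ h1 h2 =>
    have : (fun m => (u + w) (m + 1) ^ p) = (fun m => u (m + 1) ^ p) + fun m => w (m + 1) ^ p :=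
      funext fun m => add_pow_char _ _ _
    rw [this]
    exact add_mem h1 h2
  | smul a u _ h1 =>
    have : (fun m => (a • u) (m + 1) ^ p) = a ^ p • fun m => u (m + 1) ^ p :=
      funext fun m => mul_pow _ _ _
    rw [this]
    exact Submodule.smul_mem _ _ h1

theorem frob_iter_mem {u : ℕ → k} (hu : u ∈ spn p κ) (s : ℕ) :
    (fun m => u (m + s) ^ p ^ s) ∈ spn p κ := by
  induction s with
  | zero => simpa using hu
  | succ s ih =>
    have h1 := frob_mem κ ih
    have h2 : (fun m => (fun m => u (m + s) ^ p ^ s) (m + 1) ^ p) =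
        fun m => u (m + (s + 1)) ^ p ^ (s + 1) := by
      funext m
      change (u (m + 1 + s) ^ p ^ s) ^ p = _
      rw [← pow_mul, ← pow_succ, Nat.add_assoc m 1 s, Nat.add_comm 1 s]
    rwa [h2] at h1

/-- Either the truncations span, or there is a relation. -/
theorem dich (p : ℕ) [hp : Fact p.Prime] [CharP k p] (κ : ℕ → k) :
    (∃ a : ℕ →₀ k, a ≠ 0 ∧ Finsupp.linearCombination k (gen p κ) a = 0) ∨
    (∀ n : ℕ, ∀ l < n, ∃ a : ℕ →₀ k, ∀ m < n,
      Finsupp.linearCombination k (gen p κ) a m = if m = l then 1 else 0) := by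
  classical
  set tr : ∀ n : ℕ, (ℕ → k) →ₗ[k] (Fin n → k) := fun n =>
    LinearMap.funLeft k k (fun i : Fin n => (i : ℕ)) with htr
  by_cases h : ∀ n, (spn p κ).map (tr n) = ⊤
  · right
    intro n l hl
    have h1 : (fun i : Fin n => if (i : ℕ) = l then (1 : k) else 0) ∈ (spn p κ).map (tr n) := by
      rw [h n]
      exact Submodule.mem_top
    obtain ⟨u, hu, h2⟩ := h1
    obtain ⟨a, rfl⟩ := (Finsupp.mem_span_range_iff_exists_finsupp).1 hu
    refine ⟨a, fun m hm => ?_⟩
    have h3 := congrFun h2 ⟨m, hm⟩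
    exact h3
  · left
    push Not at h
    obtain ⟨n, hn⟩ := h
    obtain ⟨φ, hφ, hφ'⟩ := Submodule.exists_le_ker_of_lt_top _ (lt_top_iff_ne_top.2 hn)
    set c : Fin n → k := fun l => φ (Pi.single l 1) with hc
    have hφc : ∀ w : Fin n → k, φ w = ∑ l, w l * c l := by
      intro w
      conv_lhs => rw [← Finset.univ_sum_single w]
      rw [map_sum]
      refine Finset.sum_congr rfl fun l _ => ?_
      have : (Pi.single l (w l) : Fin n → k) = w l • Pi.single l 1 := by
        rw [← Pi.single_smul, smul_eq_mul, mul_one]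
      rw [this, map_smul, smul_eq_mul]
    have hne : (univ.filter fun l => c l ≠ 0).Nonempty := by
      by_contra hne
      rw [Finset.not_nonempty_iff_eq_empty, Finset.filter_eq_empty_iff] at hne
      refine hφ (LinearMap.ext fun w => ?_)
      rw [hφc, LinearMap.zero_apply]
      refine Finset.sum_eq_zero fun l hl => ?_
      have := hne hl
      push Not at this
      rw [this, mul_zero]
    set l₁ := (univ.filter fun l => c l ≠ 0).max' hne with hl₁
    have h1 : c l₁ ≠ 0 := (Finset.mem_filter.1 (Finset.max'_mem _ hne)).2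
    have h2 : ∀ l, l₁ < l → c l = 0 := by
      intro l hl
      by_contra h3
      exact absurd (Finset.le_max' _ l (Finset.mem_filter.2 ⟨mem_univ l, h3⟩)) (not_le.2 hl)
    have h3 : ∀ u ∈ spn p κ, (∀ m < (l₁ : ℕ), u m = 0) → ∀ m, u m = 0 := by
      intro u hu hu0 m
      induction m using Nat.strong_induction_on with
      | _ m ih =>
        by_cases hm : m < l₁
        · exact hu0 m hm
        · have h4 : φ (tr n fun m' => u (m' + (m - l₁)) ^ p ^ (m - l₁)) = 0 :=
            hφ' (Submodule.mem_map_of_mem (frob_iter_mem κ hu (m - l₁)))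
          rw [hφc, Finset.sum_eq_single l₁] at h4
          · have h5 := (mul_eq_zero.1 h4).resolve_right h1
            change u ((l₁ : ℕ) + (m - l₁)) ^ p ^ (m - (l₁ : ℕ)) = 0 at h5
            rw [Nat.add_sub_cancel' (not_lt.1 hm)] at h5
            exact pow_eq_zero_iff (pow_ne_zero _ hp.out.ne_zero) |>.1 h5
          · intro l _ hl
            rcases lt_or_gt_of_ne hl with h6 | h6
            · have h7 : u ((l : ℕ) + (m - l₁)) = 0 := ih _ (by
                have : (l : ℕ) < l₁ := h6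
                omega)
              change u ((l : ℕ) + (m - l₁)) ^ p ^ (m - (l₁ : ℕ)) * c l = 0
              rw [h7, zero_pow (pow_ne_zero _ hp.out.ne_zero), zero_mul]
            · rw [h2 l h6, mul_zero]
          · exact fun h => absurd (mem_univ _) h
    have hfin : Module.Finite k (spn p κ) := by
      refine Module.Finite.of_injective ((tr (l₁ : ℕ)).comp (spn p κ).subtype) ?_
      rw [injective_iff_map_eq_zero]
      intro u hu
      refine Subtype.ext (funext fun m => h3 u u.2 (fun m hm => ?_) m)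
      exact congrFun hu ⟨m, hm⟩
    have hdep : ¬ LinearIndependent k
        (fun i : ℕ => (⟨gen p κ i, Submodule.subset_span ⟨i, rfl⟩⟩ : spn p κ)) := fun hli =>
      absurd hli.finite (not_finite_iff_infinite.2 inferInstance)
    rw [linearIndependent_iff] at hdep
    push Not at hdep
    obtain ⟨a, ha, ha'⟩ := hdep
    refine ⟨a, ha', ?_⟩
    have h4 := congrArg (spn p κ).subtype ha
    rw [map_zero, Finsupp.linearCombination_apply, Finsupp.sum, map_sum] at h4
    rw [Finsupp.linearCombination_apply, Finsupp.sum]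
    exact h4

end LvAlg

section Tight

variable {p : ℕ} [hp : Fact p.Prime] [CharP k p] [CharP Ω p] {x : ℕ → Ω} {S : ℝ}
  {N A F : IntermediateField k Ω} {b : Ω} {κ : ℕ → k}

theorem Ltr.pow (hx : Lv0 p v x S) (hN : x 0 ∈ N) (hb : Ltr p v x S N b κ) (i : ℕ) :
    Ltr p v x S N (b ^ p ^ i) (LvAlg.gen p κ i) := by
  induction i with
  | zero =>
    have : LvAlg.gen p κ 0 = κ := funext fun m => by simp [LvAlg.gen]
    rw [this, pow_zero, pow_one]
    exact hb
  | succ i ih =>
    have h1 := ih.frob hx hN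
    have h2 : (fun m => LvAlg.gen p κ i (m + 1) ^ p) = LvAlg.gen p κ (i + 1) := by
      funext m
      change (κ (m + 1 + i) ^ p ^ i) ^ p = κ (m + (i + 1)) ^ p ^ (i + 1)
      rw [← pow_mul, ← pow_succ, Nat.add_assoc m 1 i, Nat.add_comm 1 i]
    rw [h2, ← pow_mul, ← pow_succ] at h1
    exact h1

theorem Ltr.comb (h0 : Ctx0 k v) (hx : Lv0 p v x S) (hN : x 0 ∈ N) (hb : Ltr p v x S N b κ)
    (a : ℕ →₀ k) : Ltr p v x S N (Finsupp.linearCombination k (fun i => b ^ p ^ i) a)
      (Finsupp.linearCombination k (LvAlg.gen p κ) a) := by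
  induction a using Finsupp.induction_linear with
  | zero =>
    rw [map_zero, map_zero]
    exact Ltr.zero
  | add a a' h1 h2 =>
    rw [map_add, map_add]
    exact h1.add h2
  | single i c =>
    rw [Finsupp.linearCombination_single, Finsupp.linearCombination_single]
    exact (hb.pow hx hN i).smul h0 c

omit hp [CharP k p] [CharP Ω p] [Field k] [Algebra k Ω] in
theorem ge_zero_of_forall {p : ℕ} (hp : 1 < p) {y : Ω}
    (h : ∀ M : ℕ, v.Ge (-(S / (p : ℝ) ^ (M + 1))) y) : v.Ge 0 y := by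
  intro h0
  refine le_of_forall_pos_le_add fun ε hε => ?_
  obtain ⟨M, hM⟩ := exists_nat_gt (S / ε)
  have h1 := h M h0
  have hp1 : (1 : ℝ) < p := by exact_mod_cast hp
  have h2 : (M : ℝ) < (p : ℝ) ^ (M + 1) := by
    have h3 : M + 1 < p ^ (M + 1) := Nat.lt_pow_self hp
    have h4 : ((M + 1 : ℕ) : ℝ) < ((p ^ (M + 1) : ℕ) : ℝ) := by exact_mod_cast h3
    push_cast at h4
    linarith
  have h5 : S / (p : ℝ) ^ (M + 1) ≤ ε := by
    rw [div_le_iff₀ (by positivity)]
    rw [div_lt_iff₀ hε] at hM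
    nlinarith
  linarith

/-- A relation between the letters contradicts `far`. -/
theorem no_rel [IsAlgClosed Ω] (h0 : Ctx0 k v) (hx : Lv0 p v x S) (hN : x 0 ∈ N)
    (hb : Ltr p v x S N b κ) (hNA : N ≤ A) (hTL : TL v A b 0) {a : ℕ →₀ k} (ha : a ≠ 0) :
    Finsupp.linearCombination k (LvAlg.gen p κ) a ≠ 0 := by
  classical
  intro h1
  obtain ⟨n, hn, h2⟩ := hb.comb h0 hx hN a
  rw [h1] at h2
  simp only [Pi.zero_apply, zero_smul, sum_const_zero, sub_zero] at h2
  have h3 : v.Ge 0 (Finsupp.linearCombination k (fun i => b ^ p ^ i) a - n) :=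
    ge_zero_of_forall hp.out.one_lt h2
  have hsupp : a.support.Nonempty := Finsupp.support_nonempty_iff.2 ha
  obtain ⟨i₁, hi₁, himax⟩ : ∃ i ∈ a.support, ∀ j ∈ a.support, j ≤ i :=
    ⟨_, a.support.max'_mem hsupp, fun j hj => a.support.le_max' j hj⟩
  have hai : a i₁ ≠ 0 := Finsupp.mem_support_iff.1 hi₁
  set Q : Polynomial Ω := ∑ i ∈ a.support, Polynomial.C (algebraMap k Ω (a i)) * X ^ p ^ i -
    Polynomial.C n with hQ
  have hQev : Q.eval b = Finsupp.linearCombination k (fun i => b ^ p ^ i) a - n := by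
    rw [hQ, eval_sub, eval_finsetSum, eval_C, Finsupp.linearCombination_apply, Finsupp.sum]
    congr 1
    refine Finset.sum_congr rfl fun i _ => ?_
    rw [eval_mul, eval_C, eval_pow, eval_X, Algebra.smul_def]
  have hinj : ∀ i j : ℕ, p ^ i = p ^ j ↔ i = j := fun i j =>
    (Nat.pow_right_injective hp.out.two_le).eq_iff
  have hco : Q.coeff (p ^ i₁) = algebraMap k Ω (a i₁) := by
    rw [hQ, coeff_sub, finsetSum_coeff, Finset.sum_eq_single i₁]
    · rw [coeff_C_mul, coeff_X_pow, if_pos rfl, mul_one, coeff_C,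
        if_neg (pow_ne_zero _ hp.out.ne_zero), sub_zero]
    · intro j _ hj
      rw [coeff_C_mul, coeff_X_pow, if_neg (fun h => hj ((hinj _ _).1 h).symm), mul_zero]
    · exact fun h => absurd hi₁ h
  have hne : algebraMap k Ω (a i₁) ≠ 0 := by
    rwa [Ne, map_eq_zero]
  have hdeg : Q.natDegree = p ^ i₁ := by
    refine natDegree_eq_of_le_of_coeff_ne_zero ?_ (by rwa [hco])
    refine (natDegree_sub_le _ _).trans (max_le ?_ ?_)
    · refine natDegree_sum_le_of_forall_le _ _ fun i hi => ?_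
      refine (natDegree_C_mul_X_pow_le _ _).trans ?_
      exact Nat.pow_le_pow_right hp.out.pos (himax i hi)
    · rw [natDegree_C]
      exact Nat.zero_le _
  have hlc : v Q.leadingCoeff = 0 := by
    rw [leadingCoeff, hdeg, hco]
    exact h0.triv _ hai
  have hQ0 : Q ≠ 0 := fun h => hne (by rw [← hco, h, coeff_zero])
  have hQA : Q ∈ PI A := by
    refine sub_mem (sum_mem fun i _ => mul_mem (C_mem_PI (A.algebraMap_mem _))
      (pow_mem X_mem_PI _)) (C_mem_PI (hNA hn))
  obtain ⟨θ, hθ, h4⟩ := Roots.near_root (P := Q) (z := b) (c := 0)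
    (by rw [hdeg]; exact pow_ne_zero _ hp.out.ne_zero) (by
      rw [hlc, mul_zero, add_zero, hQev]
      exact h3)
  obtain ⟨h5, h6⟩ := hTL.far θ (isAlgebraic_root hQA hQ0 hθ)
  exact absurd (h4 (sub_ne_zero.2 h5)) (not_le.2 h6)

/-- **The first floor is tight.** -/
theorem tight_of_letters [IsAlgClosed Ω] (h0 : Ctx0 k v) (hx : Lv0 p v x S) (hN : x 0 ∈ N)
    (hb : Ltr p v x S N b κ) (hNA : N ≤ A) (hTL : TL v A b 0) (hNF : N ≤ F) (hbF : b ∈ F)
    (l : ℕ) {ε : ℝ} (hε : 0 < ε) : ∃ h ∈ F, v.Ge (-ε) (x l - h) := by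
  classical
  cases l with
  | zero => exact ⟨x 0, hNF hN, by rw [sub_self]; exact RVal.Ge.zero⟩
  | succ l =>
    rcases LvAlg.dich p κ with ⟨a, ha, h1⟩ | h1
    · exact absurd h1 (no_rel h0 hx hN hb hNA hTL ha)
    · obtain ⟨M, hM⟩ := exists_nat_gt (S / ε)
      obtain ⟨n, hn⟩ : ∃ n, n = max M (l + 1) := ⟨_, rfl⟩
      have hln : l < n := by
        rw [hn]
        exact lt_of_lt_of_le (Nat.lt_succ_self l) (le_max_right _ _)
      obtain ⟨a, ha⟩ := h1 n l hln
      obtain ⟨m, hm, h2⟩ := hb.comb h0 hx hN a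
      have h3 := h2 n
      have h4 : ∑ i ∈ range n, Finsupp.linearCombination k (LvAlg.gen p κ) a i • x (i + 1) =
          x (l + 1) := by
        rw [Finset.sum_eq_single l]
        · rw [ha l hln, if_pos rfl, one_smul]
        · intro i hi hil
          rw [ha i (Finset.mem_range.1 hi), if_neg hil, zero_smul]
        · exact fun h => absurd (Finset.mem_range.2 hln) h
      rw [h4] at h3
      refine ⟨Finsupp.linearCombination k (fun i => b ^ p ^ i) a - m, sub_mem ?_ (hNF hm), ?_⟩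
      · rw [Finsupp.linearCombination_apply, Finsupp.sum]
        exact sum_mem fun i _ => F.smul_mem (pow_mem hbF _)
      · refine (ge_sub_comm h3).mono ?_
        have hp1 : (1 : ℝ) < p := by exact_mod_cast hp.out.one_lt
        have h5 : (M : ℝ) < (p : ℝ) ^ (n + 1) := by
          have h6 : n + 1 < p ^ (n + 1) := Nat.lt_pow_self hp.out.one_lt
          have h7 : ((n + 1 : ℕ) : ℝ) < ((p ^ (n + 1) : ℕ) : ℝ) := by exact_mod_cast h6
          have h8 : (M : ℝ) ≤ (n : ℝ) := by
            rw [hn]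
            exact_mod_cast le_max_left M (l + 1)
          push_cast at h7
          linarith
        have h9 : S / (p : ℝ) ^ (n + 1) ≤ ε := by
          rw [div_le_iff₀ (by positivity)]
          rw [div_lt_iff₀ hε] at hM
          nlinarith
        linarith

/-- The roots of an element with linear letters. -/
theorem near_roots [PerfectRing k p] (h0 : Ctx0 k v) (hx : Lv0 p v x S)
    (hb : ∀ M : ℕ, v.Ge (-(S / (p : ℝ) ^ (M + 1))) (b - ∑ m ∈ range M, κ m • x (m + 1)))
    (hF : ∀ l (ε : ℝ), 0 < ε → ∃ h ∈ F, v.Ge (-ε) (x l - h)) {r : ℕ → Ω}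
    (hr0 : r 0 = b) (hr : ∀ n, r (n + 1) ^ p = r n) (n : ℕ) {ε : ℝ} (hε : 0 < ε) :
    ∃ h ∈ F, v.Ge (-ε) (r n - h) := by
  classical
  have hrn : r n ^ p ^ n = b := by
    rw [← hr0]
    clear hr0
    induction n with
    | zero => rw [pow_zero, pow_one]
    | succ n ih => rw [pow_succ', pow_mul, hr, ih]
  set rt : k → k := fun a => (iterateFrobeniusEquiv k p n).symm a with hrt
  have hrt' : ∀ a, rt a ^ p ^ n = a := fun a => by
    have := (iterateFrobeniusEquiv k p n).apply_symm_apply a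
    rwa [iterateFrobeniusEquiv_def] at this
  have h1 : ∀ M : ℕ, v.Ge (-(S / (p : ℝ) ^ (M + 1)))
      (r n - ∑ m ∈ range M, rt (κ m) • x (m + 1 + n)) := by
    intro M
    have hp1 : (1 : ℝ) ≤ p := by exact_mod_cast hp.out.one_le
    refine Surj.ge_of_pow' (p := p) (a := n) ?_
    rw [sub_pow_char_pow, sum_pow_char_pow, hrn]
    simp only [_root_.smul_pow, hrt', hx.pow]
    refine (hb M).mono ?_
    have h2 : 0 ≤ S / (p : ℝ) ^ (M + 1) := div_nonneg hx.pos.le (by positivity)
    have h3 : (1 : ℝ) ≤ (p : ℝ) ^ n := one_le_pow₀ hp1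
    nlinarith
  obtain ⟨M, hM⟩ := exists_nat_gt (S / ε)
  have hp1 : (1 : ℝ) < p := by exact_mod_cast hp.out.one_lt
  have h5 : S / (p : ℝ) ^ (M + 1) ≤ ε := by
    have h6 : M + 1 < p ^ (M + 1) := Nat.lt_pow_self hp.out.one_lt
    have h7 : ((M + 1 : ℕ) : ℝ) < ((p ^ (M + 1) : ℕ) : ℝ) := by exact_mod_cast h6
    push_cast at h7
    rw [div_le_iff₀ (by positivity)]
    rw [div_lt_iff₀ hε] at hM
    nlinarith
  choose h hhF hh using fun m => hF (m + 1 + n) ε hε
  refine ⟨∑ m ∈ range M, rt (κ m) • h m, sum_mem fun m _ => F.smul_mem (hhF m), ?_⟩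
  have e : r n - ∑ m ∈ range M, rt (κ m) • h m =
      (r n - ∑ m ∈ range M, rt (κ m) • x (m + 1 + n)) +
      ∑ m ∈ range M, rt (κ m) • (x (m + 1 + n) - h m) := by
    simp only [smul_sub, sum_sub_distrib]
    ring
  rw [e]
  exact ((h1 M).mono (by linarith)).add (RVal.Ge.sum _ _ fun m _ => Surj.smul_ge h0 _ (hh m))

end Tight

end Pool.Agent.TWC
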