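import Pool.Agent.Lib.TWC.Vp
import Pool.Agent.Lib.TWC.Lim

/-!
# TANK W, dimension 4: the property `V'` from a monomial filtration

`mon g`, `g ∈ G`, elements of `E` with dense span over `k`, stable under the Frobenius and the `p`-th
roots, `β g ≤ v (mon g)` a weight, multiplied by `p` by the Frobenius. The operators `φ` which send
`mon g` to the span of the `mon g'`, `β g' ≥ β g + δ`, `δ > 0`.

* `degF_mon`: the filtration; `nsd_mon`: the property `V'`.
-/

set_option autoImplicit false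

open Polynomial

namespace Pool.Agent.TWC

open Pool.Agent.H15JM (RVal)
open Pool.Agent.LU1 (VPos adj)
open Pool.Agent.D2 (Ctx0)
open Pool.Agent.TWM

universe u w

variable {k Ω : Type u} [Field k] [Field Ω] [Algebra k Ω] {v : RVal Ω}
  {C E : IntermediateField k Ω} {p : ℕ} {G : Type w}

/-- The span of the monomials of weight `≥ b`. -/
def monS (k : Type u) {Ω : Type u} [Field k] [Field Ω] [Algebra k Ω] {G : Type w} (mon : G → Ω)
    (β : G → ℝ) (b : ℝ) : Submodule k Ω :=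
  Submodule.span k {x | ∃ g, b ≤ β g ∧ mon g = x}

theorem mon_mem {mon : G → Ω} {β : G → ℝ} {b : ℝ} {g : G} (h : b ≤ β g) : mon g ∈ monS k mon β b :=
  Submodule.subset_span ⟨g, h, rfl⟩

theorem monS_mono {mon : G → Ω} {β : G → ℝ} {b c : ℝ} (h : c ≤ b) :
    monS k mon β b ≤ monS k mon β c :=
  Submodule.span_mono fun _ ⟨g, hg, h1⟩ => ⟨g, h.trans hg, h1⟩

/-- The elements of the span of the monomials are in one of the steps. -/
theorem exists_monS {mon : G → Ω} {β : G → ℝ} {x : Ω}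
    (hx : x ∈ Submodule.span k (Set.range mon)) : ∃ D : ℝ, 0 < D ∧ x ∈ monS k mon β (-D) := by
  induction hx using Submodule.span_induction with
  | mem x h =>
    obtain ⟨g, rfl⟩ := h
    refine ⟨1 + |β g|, by positivity, mon_mem ?_⟩
    have := neg_abs_le (β g)
    linarith
  | zero => exact ⟨1, one_pos, zero_mem _⟩
  | add x y _ _ h1 h2 =>
    obtain ⟨D, hD, h1⟩ := h1
    obtain ⟨D', hD', h2⟩ := h2
    refine ⟨max D D', lt_max_of_lt_left hD, add_mem (monS_mono ?_ h1) (monS_mono ?_ h2)⟩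
    · exact neg_le_neg (le_max_left _ _)
    · exact neg_le_neg (le_max_right _ _)
  | smul a x _ h1 =>
    obtain ⟨D, hD, h1⟩ := h1
    exact ⟨D, hD, Submodule.smul_mem _ a h1⟩

/-- The filtration of `E`. -/
def monE (E : IntermediateField k Ω) (mon : G → Ω) (β : G → ℝ) (D : ℝ) : Submodule k E :=
  (monS k mon β (-D)).comap E.val.toLinearMap

theorem mem_monE {mon : G → Ω} {β : G → ℝ} {D : ℝ} {e : E} :
    e ∈ monE E mon β D ↔ (e : Ω) ∈ monS k mon β (-D) := Iff.rfl

theorem monS_ge (hk : Ctx0 k v) {mon : G → Ω} {β : G → ℝ} (hv : ∀ g, v.Ge (β g) (mon g)) {b : ℝ}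
    {x : Ω} (hx : x ∈ monS k mon β b) : v.Ge b x := by
  induction hx using Submodule.span_induction with
  | mem x h =>
    obtain ⟨g, hg, rfl⟩ := h
    exact (hv g).mono hg
  | zero => exact RVal.Ge.zero
  | add x y _ _ h1 h2 => exact h1.add h2
  | smul a x _ h1 =>
    rw [Algebra.smul_def]
    have h2 := (hk.ge a).mul h1
    rwa [zero_add] at h2

variable [hp : Fact p.Prime] [CharP Ω p]

theorem monS_pow {mon : G → Ω} {β : G → ℝ}
    (hpow : ∀ g, ∃ g', mon g' = mon g ^ p ∧ β g' = p * β g) {b : ℝ} {x : Ω}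
    (hx : x ∈ monS k mon β b) : x ^ p ∈ monS k mon β (p * b) := by
  have hp0 : (0 : ℝ) ≤ p := Nat.cast_nonneg _
  induction hx using Submodule.span_induction with
  | mem x h =>
    obtain ⟨g, hg, rfl⟩ := h
    obtain ⟨g', h1, h2⟩ := hpow g
    rw [← h1]
    exact mon_mem (by rw [h2]; exact mul_le_mul_of_nonneg_left hg hp0)
  | zero =>
    rw [zero_pow hp.out.ne_zero]
    exact zero_mem _
  | add x y _ _ h1 h2 =>
    rw [add_pow_char]
    exact add_mem h1 h2
  | smul a x _ h1 =>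
    rw [_root_.smul_pow]
    exact Submodule.smul_mem _ _ h1

theorem monS_root [CharP k p] [PerfectRing k p] {mon : G → Ω} {β : G → ℝ}
    (hroot : ∀ g, ∃ g', mon g' ^ p = mon g ∧ p * β g' = β g) {b : ℝ} {x : Ω}
    (hx : x ∈ monS k mon β (p * b)) : ∃ y ∈ monS k mon β b, y ^ p = x := by
  have hp0 : (0 : ℝ) < p := by exact_mod_cast hp.out.pos
  induction hx using Submodule.span_induction with
  | mem x h =>
    obtain ⟨g, hg, rfl⟩ := h
    obtain ⟨g', h1, h2⟩ := hroot g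
    exact ⟨mon g', mon_mem (by rw [← h2] at hg; exact le_of_mul_le_mul_left hg hp0), h1⟩
  | zero => exact ⟨0, zero_mem _, zero_pow hp.out.ne_zero⟩
  | add x y _ _ h1 h2 =>
    obtain ⟨x', h1, rfl⟩ := h1
    obtain ⟨y', h2, rfl⟩ := h2
    exact ⟨x' + y', add_mem h1 h2, add_pow_char _ _ _⟩
  | smul a x _ h1 =>
    obtain ⟨x', h1, rfl⟩ := h1
    obtain ⟨c, rfl⟩ := (PerfectRing.bijective_frobenius (R := k) (p := p)).2 a
    refine ⟨c • x', Submodule.smul_mem _ _ h1, ?_⟩
    rw [_root_.smul_pow]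

/-- **The monomial filtration.** -/
theorem degF_mon [CharP k p] [PerfectRing k p] {mon : G → Ω} {β : G → ℝ} (hE : ∀ g, mon g ∈ E)
    (hpow : ∀ g, ∃ g', mon g' = mon g ^ p ∧ β g' = p * β g)
    (hroot : ∀ g, ∃ g', mon g' ^ p = mon g ∧ p * β g' = β g)
    (hd : ∀ e ∈ E, ∃ f ∈ Submodule.span k (Set.range mon), v.Ge 0 (e - f)) :
    DegF v E p (monE E mon β) := by
  have hS : ∀ b : ℝ, monS k mon β b ≤ Subalgebra.toSubmodule E.toSubalgebra := fun b => by
    rw [monS, Submodule.span_le]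
    rintro _ ⟨g, -, rfl⟩
    exact hE g
  refine ⟨fun D D' _ h e he => monS_mono (neg_le_neg h) he, fun e => ?_, fun D hD f hf => ?_,
    fun D hD f hf => ?_⟩
  · obtain ⟨f, hf, h1⟩ := hd e e.2
    obtain ⟨D, hD, h2⟩ := exists_monS (β := β) hf
    exact ⟨D, hD, ⟨f, hS _ h2⟩, h2, h1⟩
  · have h1 := monS_pow hpow (mem_monE.1 hf)
    rw [mem_monE, ← mul_neg]
    exact h1
  · rw [mem_monE, ← mul_neg] at hf
    obtain ⟨y, hy, h1⟩ := monS_root hroot hf
    exact ⟨⟨y, hS _ hy⟩, hy, Subtype.ext h1⟩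

/-- **`V'` from a monomial filtration.** -/
theorem nsd_mon [Fact (Ctx0 k v)] [CharP k p] [PerfectRing k p] {T : Submodule k (Opr v E)}
    (h : Oper p v C E T) {mon : G → Ω} {β : G → ℝ} (hE : ∀ g, mon g ∈ E)
    (hv : ∀ g, v.Ge (β g) (mon g))
    (hpow : ∀ g, ∃ g', mon g' = mon g ^ p ∧ β g' = p * β g)
    (hroot : ∀ g, ∃ g', mon g' ^ p = mon g ∧ p * β g' = β g)
    (hd : ∀ e ∈ E, ∃ f ∈ Submodule.span k (Set.range mon), v.Ge 0 (e - f))
    (hT : ∀ φ ∈ T, ∃ δ : ℝ, 0 < δ ∧ ∀ g, fn φ (mon g) ∈ monS k mon β (β g + δ)) : NSD p h := by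
  refine nsd_of_deg' p h (degF_mon hE hpow hroot hd) fun φ hφ => ?_
  obtain ⟨δ, hδ, h1⟩ := hT φ hφ
  have hS : ∀ b : ℝ, monS k mon β b ≤ Subalgebra.toSubmodule E.toSubalgebra := fun b => by
    rw [monS, Submodule.span_le]
    rintro _ ⟨g, -, rfl⟩
    exact hE g
  have key : ∀ {b : ℝ} {x : Ω}, x ∈ monS k mon β b → fn φ x ∈ monS k mon β (b + δ) := by
    intro b x hx
    induction hx using Submodule.span_induction with
    | mem x h =>
      obtain ⟨g, hg, rfl⟩ := h
      exact monS_mono (by linarith) (h1 g)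
    | zero =>
      rw [fn_zero]
      exact zero_mem _
    | add x y hx hy h1 h2 =>
      rw [fn_add φ (hS _ hx) (hS _ hy)]
      exact add_mem h1 h2
    | smul a x hx h1 =>
      rw [fn_smul φ a (hS _ hx)]
      exact Submodule.smul_mem _ _ h1
  refine ⟨fun D hD f hf => ?_, δ, hδ, fun f hf => ?_⟩
  · have h2 := key (mem_monE.1 hf)
    rw [fn_of_mem φ f.2] at h2
    exact monS_mono (by linarith) h2
  · have h2 := key (mem_monE.1 hf)
    rw [fn_of_mem φ f.2] at h2
    exact monS_ge Fact.out hv (monS_mono (by linarith) h2)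

end Pool.Agent.TWC
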