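import Pool.Agent.Lib.TWC.NMBase
import Pool.Agent.Lib.TWC.OpW2
import Pool.Agent.Lib.TWC.NsdM
import Pool.Agent.Lib.TWC.Lv0A

/-!
# TANK W, class C: the property `V'` for the operators in two variables, from monomials

`E` a base with a dense span of monomials `mon g` of weight `β g`, `E'` the closure of
`E[b 0, b 1, ..]`, `u n = ![x n, b n]`.

* `nsd_base2`: the property `V'` for `opT p v C E' u`, if the `mon g` are products `c * x n ^ i`,
  `c ∈ C`, and the weight grows by `(i - i') S / p ^ n` from `c * x n ^ i` to `c * x n ^ i'`;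
* `nsd_lv0`: the case of `E` the closure of `k(x 0, x 1, ..)`;
* `nsd_pm`: the case of the closure `E` of `k[monomials]`.
-/

set_option autoImplicit false

open Polynomial

namespace Pool.Agent.TWC

open Pool.Agent.H15JM (RVal)
open Pool.Agent.LU1 (VPos adj)
open Pool.Agent.D2 (Ctx0)
open Pool.Agent.D2P (clI mem_clI)
open Pool.Agent.TWM
open Pool.Agent.TWC.Key (hd ev lf dg)

universe u

variable {k Ω : Type u} [Field k] [Field Ω] [Algebra k Ω] {v : RVal Ω}
  {B C E E' : IntermediateField k Ω} {x b : ℕ → Ω} {p : ℕ} {I : Type} {mon : I → Ω} {β : I → ℝ}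
  {S μ : ℝ}

/-! ### The monomials of `E'` -/

/-- The monomials of `E'`. -/
def mon2 (mon : I → Ω) (b : ℕ → Ω) (g : I × ℕ × ℕ) : Ω := mon g.1 * b g.2.1 ^ g.2.2

/-- The weights. -/
noncomputable def wt2 (p : ℕ) (β : I → ℝ) (μ : ℝ) (g : I × ℕ × ℕ) : ℝ :=
  β g.1 - g.2.2 * μ / p ^ g.2.1

theorem ge_root (hp : 0 < p) (hr : ∀ n, b (n + 1) ^ p = b n) (h0 : v.Ge (-μ) (b 0)) (n : ℕ) :
    v.Ge (-(μ / p ^ n)) (b n) := by
  have hp0 : (0 : ℝ) < (p : ℝ) ^ n := by
    have : (0 : ℝ) < p := by exact_mod_cast hp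
    positivity
  have h1 : b n ^ p ^ n = b 0 := by
    have := root_pow_add hr 0 n
    rwa [zero_add] at this
  intro hn
  have h2 := h0 (by rw [← h1]; exact pow_ne_zero _ hn)
  rw [← h1, v.map_pow hn] at h2
  push_cast at h2
  rw [← neg_div, div_le_iff₀ hp0]
  linarith

section Two

variable [hp : Fact p.Prime]

theorem mon2_ge (hr : ∀ n, b (n + 1) ^ p = b n) (h0 : v.Ge (-μ) (b 0))
    (hv : ∀ g, v.Ge (β g) (mon g)) (g : I × ℕ × ℕ) : v.Ge (wt2 p β μ g) (mon2 mon b g) := by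
  refine ((hv g.1).mul (Key.ge_pow (ge_root hp.out.pos hr h0 g.2.1) (m := g.2.2))).mono ?_
  rw [wt2]
  exact le_of_eq (by ring)

omit hp in
theorem mon2_pow (hpow : ∀ g, ∃ g', mon g' = mon g ^ p ∧ β g' = p * β g) (g : I × ℕ × ℕ) :
    ∃ g', mon2 mon b g' = mon2 mon b g ^ p ∧ wt2 p β μ g' = p * wt2 p β μ g := by
  obtain ⟨g', h1, h2⟩ := hpow g.1
  refine ⟨(g', g.2.1, p * g.2.2), ?_, ?_⟩
  · change mon g' * b g.2.1 ^ (p * g.2.2) = (mon g.1 * b g.2.1 ^ g.2.2) ^ p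
    rw [h1, mul_pow, ← pow_mul, mul_comm p]
  · change β g' - ((p * g.2.2 : ℕ) : ℝ) * μ / p ^ g.2.1 = p * (β g.1 - g.2.2 * μ / p ^ g.2.1)
    rw [h2]
    push_cast
    ring

theorem mon2_root (hr : ∀ n, b (n + 1) ^ p = b n)
    (hroot : ∀ g, ∃ g', mon g' ^ p = mon g ∧ p * β g' = β g) (g : I × ℕ × ℕ) :
    ∃ g', mon2 mon b g' ^ p = mon2 mon b g ∧ p * wt2 p β μ g' = wt2 p β μ g := by
  have hp0 : (0 : ℝ) < p := by exact_mod_cast hp.out.pos
  obtain ⟨g', h1, h2⟩ := hroot g.1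
  refine ⟨(g', g.2.1 + 1, g.2.2), ?_, ?_⟩
  · change (mon g' * b (g.2.1 + 1) ^ g.2.2) ^ p = mon g.1 * b g.2.1 ^ g.2.2
    rw [mul_pow, h1, ← pow_mul, mul_comm g.2.2, pow_mul, hr]
  · change p * (β g' - g.2.2 * μ / p ^ (g.2.1 + 1)) = β g.1 - g.2.2 * μ / p ^ g.2.1
    rw [mul_sub, h2, pow_succ]
    field_simp

/-- Near to the span of the monomials. -/
def NrM (v : RVal Ω) (k : Type u) [Field k] [Algebra k Ω] (mon : I → Ω) (b : ℕ → Ω) (z : Ω) : Prop :=
  ∀ c : ℝ, ∃ s ∈ Submodule.span k (Set.range (mon2 mon b)), v.Ge c (z - s)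

omit hp in
theorem NrM.add {z w : Ω} (hz : NrM v k mon b z) (hw : NrM v k mon b w) :
    NrM v k mon b (z + w) := fun c => by
  obtain ⟨s, hs, h1⟩ := hz c
  obtain ⟨t, ht, h2⟩ := hw c
  refine ⟨s + t, add_mem hs ht, ?_⟩
  have e : z + w - (s + t) = (z - s) + (w - t) := by ring
  rw [e]
  exact h1.add h2

omit hp in
theorem NrM.zero : NrM v k mon b 0 := fun c => ⟨0, zero_mem _, by
  rw [sub_zero]
  exact RVal.Ge.zero⟩

omit hp in
theorem NrM.tens {e : Ω} (he : ∀ c : ℝ, ∃ s ∈ Submodule.span k (Set.range mon), v.Ge c (e - s))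
    (n j : ℕ) : NrM v k mon b (e * b n ^ j) := fun c => by
  obtain ⟨c', hc'⟩ := exists_mul_ge v (b n ^ j) c
  obtain ⟨s, hs, h1⟩ := he c'
  refine ⟨s * b n ^ j, ?_, ?_⟩
  · clear h1
    induction hs using Submodule.span_induction with
    | mem s hs =>
      obtain ⟨g, rfl⟩ := hs
      exact Submodule.subset_span ⟨(g, n, j), rfl⟩
    | zero =>
      rw [zero_mul]
      exact zero_mem _
    | add s t _ _ h1 h2 =>
      rw [add_mul]
      exact add_mem h1 h2
    | smul a s _ h1 =>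
      rw [smul_mul_assoc]
      exact Submodule.smul_mem _ a h1
  · rw [← sub_mul, mul_comm]
    exact hc' _ h1

omit hp in
/-- The monomials are dense in `E'`. -/
theorem nrM_of_mem (hE' : DnsS v (AU E (fun n => (fun _ : Fin 1 => b n))) E')
    (hd : ∀ e ∈ E, ∀ c : ℝ, ∃ s ∈ Submodule.span k (Set.range mon), v.Ge c (e - s)) {z : Ω}
    (hz : z ∈ E') : NrM v k mon b z := by
  intro c
  obtain ⟨_, ⟨n, f, rfl⟩, -, h1⟩ := hE' z hz c
  have h2 : ∀ f : (Fin 1 → ℕ) →₀ E, NrM v k mon b (ev (fun _ : Fin 1 => b n) f) := by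
    intro f
    induction f using Finsupp.induction_linear with
    | zero =>
      rw [map_zero]
      exact NrM.zero
    | add f g hf hg =>
      rw [map_add]
      exact hf.add hg
    | single J a =>
      rw [Key.ev_single, Fin.prod_univ_one]
      exact NrM.tens (hd _ a.2) n (J 0)
  obtain ⟨s, hs, h3⟩ := h2 f c
  refine ⟨s, hs, ?_⟩
  have e : z - s = (z - ev (fun _ : Fin 1 => b n) f) + (ev (fun _ : Fin 1 => b n) f - s) := by ring
  rw [e]
  exact h1.add h3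

/-! ### The operators -/

variable [CharP Ω p] [hcx : Fact (Ctx0 k v)]

omit [CharP Ω p] in
theorem natCast_mem_monS {J : Type} {m : J → Ω} {w : J → ℝ} {c : ℝ} {y : Ω} (a : ℕ)
    (hy : y ∈ monS k m w c) : (a : Ω) * y ∈ monS k m w c := by
  have h1 := Submodule.smul_mem _ (a : k) hy
  rwa [Algebra.smul_def, map_natCast] at h1

omit [CharP Ω p] in
/-- The operators of order `F / p ^ n` raise the weight. -/
theorem gen_mon2 {u : ℕ → Fin 2 → Ω} (hu : ∀ n, u n = ![x n, b n])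
    (hb : ∀ n, b (n + 1) ^ p = b n) {φ : Opr v E'} {n : ℕ} {F : Fin 2 → ℕ}
    (hφ : IsD p C u φ n F)
    (hmot : ∀ g N, ∃ N', N ≤ N' ∧ ∃ c ∈ C, ∃ i : ℕ, mon g = c * x N' ^ i ∧ ∀ i' ≤ i, ∃ g',
      mon g' = c * x N' ^ i' ∧ β g' = β g + ((i : ℝ) - i') * S / p ^ N') (g : I × ℕ × ℕ) :
    fn φ (mon2 mon b g) ∈ monS k (mon2 mon b) (wt2 p β μ)
      (wt2 p β μ g + (F 0 * S + F 1 * μ) / p ^ n) := by
  have hp0 : (0 : ℝ) < p := by exact_mod_cast hp.out.pos
  obtain ⟨g, m, j⟩ := g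
  obtain ⟨N', hN, c, hc, i, h1, h2⟩ := hmot g (n + m)
  obtain ⟨d, rfl⟩ := Nat.exists_eq_add_of_le hN
  -- the level `n + (m + d)`
  have e0 : n + m + d = n + (m + d) := by ring
  have e1 : b m ^ j = b (n + (m + d)) ^ (p ^ (n + d) * j) := by
    rw [pow_mul, show n + (m + d) = m + (n + d) by ring, root_pow_add hb]
  have e2 : mon2 mon b (g, m, j) = ev (u (n + (m + d)))
      (Finsupp.single ![i, p ^ (n + d) * j] (⟨c, hc⟩ : C)) := by
    rw [Key.ev_single, Fin.prod_univ_two, hu]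
    change mon g * b m ^ j = c * (x (n + (m + d)) ^ i * b (n + (m + d)) ^ (p ^ (n + d) * j))
    rw [h1, e1, e0]
    ring
  rw [e2, hφ (m + d), Key.hd_single, Key.ev_single, Fin.prod_univ_two, hu, Fin.prod_univ_two]
  simp only [Matrix.cons_val_zero, Matrix.cons_val_one, map_mul, map_natCast]
  change (c * _) * _ ∈ _
  by_cases hi : p ^ (m + d) * F 0 ≤ i
  swap
  · rw [Nat.choose_eq_zero_of_lt (not_le.1 hi)]
    simp only [Nat.cast_zero, zero_mul, mul_zero]
    exact zero_mem _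
  by_cases hj : p ^ (m + d) * F 1 ≤ p ^ (n + d) * j
  swap
  · rw [Nat.choose_eq_zero_of_lt (not_le.1 hj)]
    simp only [Nat.cast_zero, zero_mul, mul_zero]
    exact zero_mem _
  obtain ⟨g', h3, h4⟩ := h2 (i - p ^ (m + d) * F 0) (Nat.sub_le _ _)
  have e3 : c * (((i.choose (p ^ (m + d) * F 0) : ℕ) : Ω) *
      (((p ^ (n + d) * j).choose (p ^ (m + d) * F 1) : ℕ) : Ω)) *
      (x (n + (m + d)) ^ (i - p ^ (m + d) * F 0) *
        b (n + (m + d)) ^ (p ^ (n + d) * j - p ^ (m + d) * F 1)) =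
      ((i.choose (p ^ (m + d) * F 0) * (p ^ (n + d) * j).choose (p ^ (m + d) * F 1) : ℕ) : Ω) *
        mon2 mon b (g', n + (m + d), p ^ (n + d) * j - p ^ (m + d) * F 1) := by
    change _ = _ * (mon g' * b (n + (m + d)) ^ (p ^ (n + d) * j - p ^ (m + d) * F 1))
    rw [h3, e0]
    push_cast
    ring
  rw [e3]
  refine natCast_mem_monS _ (mon_mem ?_)
  rw [wt2, wt2]
  simp only
  rw [h4, Nat.cast_sub hi, Nat.cast_sub hj, e0]
  push_cast
  refine le_of_eq ?_
  rw [pow_add, pow_add, pow_add]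
  field_simp
  ring

/-- **`V'` in two variables.** -/
theorem nsd_base2 [CharP k p] [PerfectRing k p] {u : ℕ → Fin 2 → Ω}
    (h : Oper p v C E' (opT p v C E' u)) (hu : ∀ n, u n = ![x n, b n])
    (hb : ∀ n, b (n + 1) ^ p = b n) (hbE : ∀ n, b n ∈ E') (hE : E ≤ E')
    (hE' : DnsS v (AU E (fun n => (fun _ : Fin 1 => b n))) E') (hS : 0 < S)
    (hmon : ∀ g, mon g ∈ E) (hv : ∀ g, v.Ge (β g) (mon g))
    (hpow : ∀ g, ∃ g', mon g' = mon g ^ p ∧ β g' = p * β g)
    (hroot : ∀ g, ∃ g', mon g' ^ p = mon g ∧ p * β g' = β g)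
    (hd : ∀ e ∈ E, ∀ c : ℝ, ∃ s ∈ Submodule.span k (Set.range mon), v.Ge c (e - s))
    (hmot : ∀ g N, ∃ N', N ≤ N' ∧ ∃ c ∈ C, ∃ i : ℕ, mon g = c * x N' ^ i ∧ ∀ i' ≤ i, ∃ g',
      mon g' = c * x N' ^ i' ∧ β g' = β g + ((i : ℝ) - i') * S / p ^ N') : NSD p h := by
  have hp0 : (0 : ℝ) < p := by exact_mod_cast hp.out.pos
  set μ : ℝ := |v (b 0)| + 1 with hμ
  have hμ0 : 0 < μ := by positivity
  have hb0 : v.Ge (-μ) (b 0) := fun _ => by
    have := neg_abs_le (v (b 0))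
    linarith
  refine nsd_mon h (mon := mon2 mon b) (β := wt2 p β μ) ?_ (mon2_ge hb hb0 hv) (mon2_pow hpow)
    (mon2_root hb hroot) (fun e he => nrM_of_mem hE' hd he 0) fun φ hφ => ?_
  · exact fun g => mul_mem (hE (hmon _)) (pow_mem (hbE _) _)
  · induction hφ using Submodule.span_induction with
    | mem φ hφ =>
      obtain ⟨n, F, ⟨l, hl⟩, -, hφ⟩ := hφ
      refine ⟨(F 0 * S + F 1 * μ) / p ^ n, ?_, gen_mon2 hu hb hφ hmot⟩
      refine div_pos ?_ (by positivity)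
      have h0 : (0 : ℝ) ≤ F 0 * S := by positivity
      have h1 : (0 : ℝ) ≤ F 1 * μ := by positivity
      have hl' : (0 : ℝ) < F l := by exact_mod_cast Nat.pos_of_ne_zero hl
      fin_cases l
      · have : (0 : ℝ) < F 0 * S := mul_pos hl' hS
        linarith
      · have : (0 : ℝ) < F 1 * μ := mul_pos hl' hμ0
        linarith
    | zero =>
      refine ⟨1, one_pos, fun g => ?_⟩
      rw [fn_opZero]
      exact zero_mem _
    | add φ ψ _ _ h1 h2 =>
      obtain ⟨δ, hδ, h1⟩ := h1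
      obtain ⟨δ', hδ', h2⟩ := h2
      refine ⟨min δ δ', lt_min hδ hδ', fun g => ?_⟩
      rw [fn_opAdd]
      refine add_mem (monS_mono ?_ (h1 g)) (monS_mono ?_ (h2 g))
      · have := min_le_left δ δ'
        linarith
      · have := min_le_right δ δ'
        linarith
    | smul a φ _ h1 =>
      obtain ⟨δ, hδ, h1⟩ := h1
      refine ⟨δ, hδ, fun g => ?_⟩
      rw [fn_opSmul]
      exact Submodule.smul_mem _ a (h1 g)

end Two

/-! ### The closure of `k(x 0, x 1, ..)` -/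

section A

variable [hp : Fact p.Prime]

omit hp in
/-- The integer `i`, at a finer level, with a nonnegative exponent. -/
theorem shift_nonneg (i : ℤ) (N N' : ℕ) (hN : N ≤ N') (hp1 : 0 < p) :
    ((((p : ℤ) ^ N * i + i.natAbs * (p : ℤ) ^ N').toNat : ℕ) : ℤ) =
      (p : ℤ) ^ N * i + i.natAbs * (p : ℤ) ^ N' := by
  refine Int.toNat_of_nonneg ?_
  have h1 : (p : ℤ) ^ N ≤ (p : ℤ) ^ N' := by
    exact_mod_cast Nat.pow_le_pow_right hp1 hN
  have h2 : -(i.natAbs : ℤ) ≤ i := by omega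
  have h3 : (0 : ℤ) ≤ i.natAbs := Int.natCast_nonneg _
  have h4 : (0 : ℤ) ≤ (p : ℤ) ^ N := by positivity
  nlinarith

/-- The Laurent monomials in the roots of `x`. -/
def monX (x : ℕ → Ω) (g : ℕ × ℤ) : Ω := x g.1 ^ g.2

/-- Their values. -/
noncomputable def wtX (p : ℕ) (γ : ℝ) (g : ℕ × ℤ) : ℝ := g.2 * γ / p ^ g.1

theorem monX_dense (hk : Ctx0 k v) (hr : ∀ n, x (n + 1) ^ p = x n) (h0 : x 0 ≠ 0)
    (hS : v (x 0) < 0) {e : Ω} (he : e ∈ EW v (⊥ : IntermediateField k Ω) x) (c : ℝ) :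
    ∃ s ∈ Submodule.span k (Set.range (monX x)), v.Ge c (e - s) := by
  obtain ⟨m, hm⟩ := exists_nat_ge (c / (-v (x 0)))
  have hm' : c ≤ m * (-v (x 0)) := (div_le_iff₀ (by linarith)).1 hm
  have hxE : x 0 ∈ EW v (⊥ : IntermediateField k Ω) x := EW.mem 0
  obtain ⟨n, -, P, h1⟩ := exists_aeval_near hk hr h0 hS (mul_mem he (pow_mem hxE m)) 0
  have hxm : x 0 ^ m ≠ 0 := pow_ne_zero _ h0
  refine ⟨(x 0 ^ m)⁻¹ * aeval (x n) P, ?_, ?_⟩
  · rw [aeval_eq_sum_range, Finset.mul_sum]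
    refine sum_mem fun i _ => ?_
    rw [mul_smul_comm]
    refine Submodule.smul_mem _ _ (Submodule.subset_span ⟨(n, (i : ℤ) - m * p ^ n), ?_⟩)
    have h2 : x 0 = x n ^ p ^ n := by
      have := root_pow_add hr 0 n
      rw [zero_add] at this
      exact this.symm
    change x n ^ ((i : ℤ) - m * (p : ℤ) ^ n) = _
    have hn := root_ne hr h0 n
    rw [zpow_sub₀ hn, zpow_natCast, h2, ← pow_mul, div_eq_mul_inv, mul_comm]
    congr 2
    rw [← zpow_natCast (x n) (p ^ n * m)]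
    congr 1
    push_cast
    ring
  · have e1 : e - (x 0 ^ m)⁻¹ * aeval (x n) P = (x 0 ^ m)⁻¹ * (e * x 0 ^ m - aeval (x n) P) := by
      field_simp
    rw [e1]
    have h2 : v.Ge (m * (-v (x 0))) (x 0 ^ m)⁻¹ := fun _ => by
      rw [v.map_inv hxm, v.map_pow h0]
      linarith
    refine (h2.mul h1.ge).mono ?_
    linarith

variable [CharP k p] [CharP Ω p] [PerfectRing k p] [hcx : Fact (Ctx0 k v)]

/-- **`V'` for the operators in two variables, over the closure of `k(x 0, x 1, ..)`.** -/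
theorem nsd_lv0 {u : ℕ → Fin 2 → Ω} (h : Oper p v C E' (opT p v C E' u))
    (hu : ∀ n, u n = ![x n, b n]) (hx : ∀ n, x (n + 1) ^ p = x n)
    (hb : ∀ n, b (n + 1) ^ p = b n) (h0 : x 0 ≠ 0) (hS : v (x 0) < 0) (hxC : x 0 ∈ C)
    (hbE : ∀ n, b n ∈ E') (hE : EW v (⊥ : IntermediateField k Ω) x ≤ E')
    (hE' : DnsS v (AU (EW v (⊥ : IntermediateField k Ω) x) (fun n => (fun _ : Fin 1 => b n))) E') :
    NSD p h := by
  have hp0 : (0 : ℝ) < p := by exact_mod_cast hp.out.pos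
  have hval := val_root (v := v) hx h0
  have hne := root_ne hx h0
  refine nsd_base2 (S := -v (x 0)) h (mon := monX x) (β := wtX p (v (x 0))) hu hb hbE hE hE'
    (by linarith) (fun g => zpow_mem (EW.mem _) _) (fun g => ?_) (fun g => ?_) (fun g => ?_)
    (fun e he => monX_dense hcx.out hx h0 hS he) (fun g N => ?_)
  · intro _
    rw [monX, v.map_zpow (hne _), hval g.1, wtX]
    exact le_of_eq (by ring)
  · refine ⟨(g.1, g.2 * p), ?_, ?_⟩
    · rw [monX, monX, zpow_mul, zpow_natCast]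
    · rw [wtX, wtX]
      push_cast
      ring
  · refine ⟨(g.1 + 1, g.2), ?_, ?_⟩
    · change (x (g.1 + 1) ^ g.2) ^ p = x g.1 ^ g.2
      rw [← zpow_natCast, zpow_comm, zpow_natCast, hx]
    · rw [wtX, wtX]
      simp only
      rw [pow_succ]
      field_simp
  · obtain ⟨n, i⟩ := g
    set N' := N + n with hN'
    set m := i.natAbs with hm
    have hsh := shift_nonneg (p := p) i N N' (by omega) hp.out.pos
    set i₀ := ((p : ℤ) ^ N * i + i.natAbs * (p : ℤ) ^ N').toNat with hi₀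
    have h00 : x 0 = x N' ^ ((p : ℤ) ^ N') := by
      have := root_pow_add hx 0 N'
      rw [zero_add] at this
      have h2 : ((p : ℤ) ^ N') = ((p ^ N' : ℕ) : ℤ) := by push_cast; rfl
      rw [h2, zpow_natCast, this]
    have h0n : x n = x N' ^ ((p : ℤ) ^ N) := by
      have := root_pow_add hx n N
      have h2 : ((p : ℤ) ^ N) = ((p ^ N : ℕ) : ℤ) := by push_cast; rfl
      rw [h2, zpow_natCast, hN', add_comm N n, this]
    have key : ∀ i' : ℕ, x 0 ^ (-(m : ℤ)) * x N' ^ i' = x N' ^ ((i' : ℤ) - m * (p : ℤ) ^ N') := by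
      intro i'
      rw [h00, ← zpow_mul, ← zpow_natCast (x N') i', ← zpow_add₀ (hne N')]
      congr 1
      ring
    refine ⟨N', by omega, x 0 ^ (-(m : ℤ)), zpow_mem hxC _, i₀, ?_, fun i' hi' =>
      ⟨(N', (i' : ℤ) - m * (p : ℤ) ^ N'), (key i').symm, ?_⟩⟩
    · rw [key, hsh]
      change x n ^ i = _
      rw [h0n, ← zpow_mul]
      congr 1
      ring
    · rw [wtX, wtX]
      have h3 : (i₀ : ℝ) = (p : ℝ) ^ N * i + m * (p : ℝ) ^ N' := by
        have h4 := congrArg (fun z : ℤ => (z : ℝ)) hsh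
        have h5 : (m : ℝ) = |(i : ℝ)| := by
          rw [hm, Nat.cast_natAbs, Int.cast_abs]
        push_cast at h4
        rw [h4, h5]
      simp only
      push_cast
      rw [h3, hN', pow_add]
      field_simp
      ring

end A

/-! ### The closure of `k[monomials]` -/

section PMon

variable [hp : Fact p.Prime] [CharP k p] [CharP Ω p] [PerfectRing k p] [hcx : Fact (Ctx0 k v)]
  {M : ℝ → Ω} {Λ : Submodule ℚ ℝ}

omit hp [CharP k p] [CharP Ω p] [PerfectRing k p] hcx in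
theorem evG_mem_span (hM : MS v ⊤ M) {z : Ω} (hz : z ∈ (TWS.evG k hM).range) :
    z ∈ Submodule.span k (Set.range M) := by
  obtain ⟨f, rfl⟩ := hz
  change TWS.evG k hM f ∈ _
  rw [TWS.evG_eq hM, evL, Finsupp.sum]
  refine sum_mem fun g _ => ?_
  rw [← Algebra.smul_def]
  exact Submodule.smul_mem _ _ (Submodule.subset_span ⟨g, rfl⟩)

/-- **`V'` for the operators in two variables, over the closure of `k[monomials]`.** -/
theorem nsd_pm {u : ℕ → Fin 2 → Ω} (h : Oper p v C E' (opT p v C E' u))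
    (hu : ∀ n, u n = ![x n, b n]) (hM : MS v ⊤ M) {γ : ℝ} (hγ : γ < 0)
    (hΛ : IsCompl (Submodule.span ℚ {γ}) Λ) (hx : ∀ n, x n = M (γ / p ^ n))
    (hb : ∀ n, b (n + 1) ^ p = b n) (hMC : ∀ g ∈ TWS.GK p γ Λ, M g ∈ C)
    (hbE : ∀ n, b n ∈ E') (hE : TWS.PM v (⊥ : IntermediateField k Ω) ⊤ M ≤ E')
    (hE' : DnsS v (AU (TWS.PM v (⊥ : IntermediateField k Ω) ⊤ M)
      (fun n => (fun _ : Fin 1 => b n))) E') :
    NSD p h := by
  have hp0 : (0 : ℝ) < p := by exact_mod_cast hp.out.pos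
  have htop : ∀ g : ℝ, g ∈ (⊤ : AddSubgroup ℝ) := AddSubgroup.mem_top
  refine nsd_base2 (S := -γ) h (mon := M) (β := fun g => g) hu hb hbE hE hE'
    (by linarith) (fun g => TWS.PM.mon (htop g)) (fun g _ => (hM.val g (htop g)).ge)
    (fun g => ⟨p * g, ?_, rfl⟩) (fun g => ⟨g / p, ?_, ?_⟩) (fun e he c => ?_) (fun g N => ?_)
  · exact hM.pow (htop g) p
  · rw [← hM.pow (htop _) p, mul_div_cancel₀ _ hp0.ne']
  · rw [mul_div_cancel₀ _ hp0.ne']
  · obtain ⟨s, hs, -, h1⟩ := dns_evG hM e he c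
    exact ⟨s, evG_mem_span hM hs, h1⟩
  · obtain ⟨m, i, hc⟩ := exists_split p hΛ g
    set N' := N + m with hN'
    have hsh := shift_nonneg (p := p) i N N' (by omega) hp.out.pos
    set i₀ := ((p : ℤ) ^ N * i + i.natAbs * (p : ℤ) ^ N').toNat with hi₀
    have h3 : (i₀ : ℝ) = (p : ℝ) ^ N * i + |(i : ℝ)| * (p : ℝ) ^ N' := by
      have h4 := congrArg (fun z : ℤ => (z : ℝ)) hsh
      push_cast at h4
      exact h4
    have h4 : g - i₀ * (γ / p ^ N') ∈ TWS.GK p γ Λ := by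
      have h5 : g - i₀ * (γ / p ^ N') = (g - i * (γ / p ^ m)) - i.natAbs • γ := by
        rw [h3, nsmul_eq_mul, Nat.cast_natAbs, Int.cast_abs, hN', pow_add]
        field_simp
        ring
      rw [h5]
      exact sub_mem hc (nsmul_mem (TWS.self_mem_GK p γ Λ) _)
    have key : ∀ i' : ℕ, M (g - i₀ * (γ / p ^ N')) * x N' ^ i' =
        M (g - i₀ * (γ / p ^ N') + i' * (γ / p ^ N')) := by
      intro i'
      rw [hM.mul _ (htop _) _ (htop _), hx, hM.pow (htop _)]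
    refine ⟨N', by omega, _, hMC _ h4, i₀, ?_, fun i' _ =>
      ⟨g - i₀ * (γ / p ^ N') + i' * (γ / p ^ N'), (key i').symm, ?_⟩⟩
    · rw [key, sub_add_cancel]
    · ring

end PMon

end Pool.Agent.TWC
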