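import Pool.Agent.Lib.TWC.Lv0B
import Pool.Agent.Lib.TWC.BaseW
import Pool.Agent.Lib.TWC.NilpGen

/-!
# TANK W, class C, level 0: descent of the second floor

`x n` compatible roots of `x 0 ∈ L` and `r n` compatible roots of `r 0 ∈ L`, `x 1` far from `L`,
`r 1` far from the closure of `L(x 0, x 1, ..)`, all of them near `F ≤ L`, `x 0, r 0 ∈ F`.
* `lv0_iso`: `Iso p v L u` for `u n = ![x n, r n]`;
* `E' = EW v (EW v A x) r`, `A ≤ F`: `lv0_dns`, `lv0_oper`, `lv0_gen`, `lv0_desc`, `lv0_nilp`: the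
  operators of `E'` over `F`, the descent data from `L E'` to `L`;
* `lv0_lim`: the roots are near `F` if `r 0` has letters.
-/

set_option autoImplicit false

open Polynomial Finset

namespace Pool.Agent.TWC

open Pool.Agent.H15JM (RVal)
open Pool.Agent.LU1 (VPos adj)
open Pool.Agent.D2 (Ctx0)
open Pool.Agent.D2P (hen clI mem_clI)
open Pool.Agent.TWM
open Pool.Agent.TWC.Key (hd ev)

universe u

variable {k Ω : Type u} [Field k] [Field Ω] [Algebra k Ω] {v : RVal Ω}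

/-- The field `k` is closed. -/
theorem cld_bot (h0 : Ctx0 k v) : Cld v (⊥ : IntermediateField k Ω) := by
  intro x hx
  have key : ∀ b : ℝ, ∃ c : k, v.Ge b (x - algebraMap k Ω c) := by
    intro b
    obtain ⟨a, ha, h1⟩ := mem_clI.1 hx b
    obtain ⟨c, rfl⟩ := IntermediateField.mem_bot.1 ha
    exact ⟨c, h1⟩
  obtain ⟨c, hc⟩ := key 1
  have h1 : x = algebraMap k Ω c := by
    refine eq_of_ge (v := v) fun b => ?_
    obtain ⟨d, hd⟩ := key (max b 1)
    have h2 : v.Ge 1 (algebraMap k Ω (d - c)) := by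
      have e : algebraMap k Ω (d - c) = (x - algebraMap k Ω c) - (x - algebraMap k Ω d) := by
        rw [map_sub]
        ring
      rw [e]
      exact hc.sub (hd.mono (le_max_right _ _))
    have h3 : d - c = 0 := by
      by_contra h3
      have h4 := h2 (by rwa [Ne, map_eq_zero])
      rw [h0.triv _ h3] at h4
      linarith
    rw [← sub_eq_zero.1 h3]
    exact hd.mono (le_max_left _ _)
  rw [h1]
  exact IntermediateField.algebraMap_mem _ c

section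

variable {L F A : IntermediateField k Ω} {x r : ℕ → Ω} {p : ℕ}

theorem root_two (hx : ∀ n, x (n + 1) ^ p = x n) (hr : ∀ n, r (n + 1) ^ p = r n) (n : ℕ)
    (l : Fin 2) : (![x (n + 1), r (n + 1)] : Fin 2 → Ω) l ^ p = (![x n, r n] : Fin 2 → Ω) l := by
  fin_cases l
  · exact hx n
  · exact hr n

/-- **The isometric data over `L`.** -/
theorem lv0_iso (hL : Cld v L) (hxL : x 0 ∈ L) (hrL : r 0 ∈ L)
    (hx : ∀ n, x (n + 1) ^ p = x n) (hr : ∀ n, r (n + 1) ^ p = r n)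
    (hfx : ¬ Nr' v L 0 (x 1))
    (hfr : ¬ Nr' v (clI v (L ⊔ IntermediateField.adjoin k (Set.range x))) 0 (r 1))
    (hlx : ∀ n (ε : ℝ), 0 < ε → ∃ h ∈ L, v.Ge (-ε) (x n - h))
    (hlr : ∀ n (ε : ℝ), 0 < ε → ∃ h ∈ L, v.Ge (-ε) (r n - h)) :
    Iso p v L (fun n => (![x n, r n] : Fin 2 → Ω)) where
  cld := hL
  mem := fun l => by
    fin_cases l
    · exact hxL
    · exact hrL
  root := root_two hx hr
  far := fun l => by
    have h2 : Lx v L (fun n => (![x n, r n] : Fin 2 → Ω)) 0 ≤ L := by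
      refine (clI_mono' (sup_le le_rfl ?_)).trans hL
      rw [IntermediateField.adjoin_le_iff]
      rintro _ ⟨n, j, hj, -⟩
      omega
    have h3 : Lx v L (fun n => (![x n, r n] : Fin 2 → Ω)) 1 ≤
        clI v (L ⊔ IntermediateField.adjoin k (Set.range x)) := by
      refine clI_mono' (sup_le_sup_left ?_ L)
      rw [IntermediateField.adjoin_le_iff]
      rintro _ ⟨n, j, hj, rfl⟩
      have h4 : j = 0 := Fin.ext (by
        change (j : ℕ) = 0
        omega)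
      subst h4
      exact IntermediateField.subset_adjoin _ _ ⟨n, rfl⟩
    fin_cases l
    · rintro ⟨a, ha, h1⟩
      exact hfx ⟨a, h2 ha, h1⟩
    · rintro ⟨a, ha, h1⟩
      exact hfr ⟨a, h3 ha, h1⟩
  lim := fun n l ε hε => by
    fin_cases l
    · exact hlx n ε hε
    · exact hlr n ε hε

/-- `r 1` is far from a field in which `r 0` has no approximate root. -/
theorem far_root [hp : Fact p.Prime] [CharP Ω p] (hr : ∀ n, r (n + 1) ^ p = r n)
    {B : IntermediateField k Ω} (h : ∀ u ∈ B, ¬ v.Ge 0 (u ^ p - r 0)) : ¬ Nr' v B 0 (r 1) := by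
  rintro ⟨l, hl, h3⟩
  refine h l hl ?_
  have h4 : l ^ p - r 0 = -((r 1 - l) ^ p) := by
    rw [sub_pow_p, show (1 : ℕ) = 0 + 1 from rfl, hr 0]
    ring
  rw [h4]
  have h5 := ge_pow h3.ge p
  rw [mul_zero] at h5
  exact h5.neg

/-- The members of `E'`. -/
theorem lv0_mem (A : IntermediateField k Ω) (x r : ℕ → Ω) (n : ℕ) (l : Fin 2) :
    (![x n, r n] : Fin 2 → Ω) l ∈ EW v (EW v A x) r := by
  fin_cases l
  · exact EW.le (EW.mem n)
  · exact EW.mem n

/-- The polynomials in the roots over `F` are dense in `E'`. -/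
theorem lv0_dns [hp : Fact p.Prime] (hx : ∀ n, x (n + 1) ^ p = x n)
    (hr : ∀ n, r (n + 1) ^ p = r n) (hxF : x 0 ∈ F) (hrF : r 0 ∈ F) (hAF : A ≤ F)
    (hFE : F ≤ EW v (EW v A x) r) :
    DnsS v (AU F (fun n => (![x n, r n] : Fin 2 → Ω))) (EW v (EW v A x) r) := by
  intro y hy b
  set W : IntermediateField k Ω := IntermediateField.adjoin k
    {y | ∃ n l, y = (![x n, r n] : Fin 2 → Ω) l} with hW
  have hxW : ∀ n, x n ∈ F ⊔ W := fun n => (le_sup_right : W ≤ F ⊔ W)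
    (IntermediateField.subset_adjoin _ _ ⟨n, 0, rfl⟩)
  have hrW : ∀ n, r n ∈ F ⊔ W := fun n => (le_sup_right : W ≤ F ⊔ W)
    (IntermediateField.subset_adjoin _ _ ⟨n, 1, rfl⟩)
  have h1 : EW v A x ≤ clI v (F ⊔ W) := by
    refine clI_mono' (sup_le (hAF.trans le_sup_left) ?_)
    rw [IntermediateField.adjoin_le_iff]
    rintro _ ⟨n, rfl⟩
    exact hxW n
  have h2 : EW v (EW v A x) r ≤ clI v (F ⊔ W) := by
    refine clI_le' (sup_le h1 ?_) (cld_clI v _)
    rw [IntermediateField.adjoin_le_iff]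
    rintro _ ⟨n, rfl⟩
    exact self_le_clI v _ (hrW n)
  obtain ⟨z, hz, h3⟩ := mem_clI.1 (h2 hy) b
  have h4 : z ∈ AU F (fun n => (![x n, r n] : Fin 2 → Ω)) :=
    AU.field (root_two hx hr) hp.out.pos (fun l => by
      fin_cases l
      · exact hxF
      · exact hrF) hz
  exact ⟨z, h4, AU.mem hFE (lv0_mem A x r) h4, h3⟩

end

section

variable {p : ℕ} [Fact p.Prime] [CharP k p] [CharP Ω p] [PerfectRing k p] [IsAlgClosed Ω]
  [hcx : Fact (Ctx0 k v)] {L F A : IntermediateField k Ω} {x r : ℕ → Ω}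

/-- **The operators of `E'` over `F`.** -/
theorem lv0_oper (hc : CompleteV v) (hx : ∀ n, x (n + 1) ^ p = x n)
    (hr : ∀ n, r (n + 1) ^ p = r n) (hxF : x 0 ∈ F) (hrF : r 0 ∈ F) (hAF : A ≤ F)
    (hF : Cld v F) (hFE : F ≤ EW v (EW v A x) r)
    (hE' : ∀ a ∈ EW v A x, ∃ b ∈ EW v A x, b ^ p = a)
    (hn : NBd p v F (fun n => (![x n, r n] : Fin 2 → Ω))) :
    Oper p v F (EW v (EW v A x) r)
      (opT p v F (EW v (EW v A x) r) (fun n => (![x n, r n] : Fin 2 → Ω))) :=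
  opT_oper hc (root_two hx hr) hn EW.cld (EW.perf p hc EW.cld hE' hr) hFE (lv0_mem A x r)
    (lv0_dns hx hr hxF hrF hAF hFE) hF (le_sup_left.trans (self_le_clI v _))

omit [CharP k p] [PerfectRing k p] [IsAlgClosed Ω] in
/-- The generators. -/
theorem lv0_gen (hx : ∀ n, x (n + 1) ^ p = x n)
    (hr : ∀ n, r (n + 1) ^ p = r n) (hxF : x 0 ∈ F) (hrF : r 0 ∈ F) (hAF : A ≤ F)
    (hFE : F ≤ EW v (EW v A x) r) :
    OpGen v (opT p v F (EW v (EW v A x) r) (fun n => (![x n, r n] : Fin 2 → Ω)))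
      {φ : Opr v (EW v (EW v A x) r) | ∃ (n : ℕ) (G : Fin 2 → ℕ), (∃ l, G l ≠ 0) ∧
        (∀ l, G l < p ^ n) ∧ IsD p F (fun n => (![x n, r n] : Fin 2 → Ω)) φ n G} :=
  op_gen (root_two hx hr) hFE (lv0_mem A x r) (lv0_dns hx hr hxF hrF hAF hFE)

omit [PerfectRing k p] in
/-- **The descent data.** -/
theorem lv0_desc (hc : CompleteV v) (hiso : Iso p v L (fun n => (![x n, r n] : Fin 2 → Ω)))
    (hx : ∀ n, x (n + 1) ^ p = x n)
    (hr : ∀ n, r (n + 1) ^ p = r n) (hxF : x 0 ∈ F) (hrF : r 0 ∈ F) (hAF : A ≤ F)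
    (hFL : F ≤ L) (hFE : F ≤ EW v (EW v A x) r)
    (hlx : ∀ n (ε : ℝ), 0 < ε → ∃ h ∈ F, v.Ge (-ε) (x n - h))
    (hlr : ∀ n (ε : ℝ), 0 < ε → ∃ h ∈ F, v.Ge (-ε) (r n - h)) :
    Desc v F (EW v (EW v A x) r)
      (opT p v F (EW v (EW v A x) r) (fun n => (![x n, r n] : Fin 2 → Ω))) L
      (clI v (L ⊔ EW v (EW v A x) r)) :=
  hiso.desc hc EW.cld hFE (lv0_mem A x r) (lv0_dns hx hr hxF hrF hAF hFE) le_rfl
    (fun l => by
      fin_cases l
      · exact hxF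
      · exact hrF) hFL (fun n l ε hε => by
      fin_cases l
      · exact hlx n ε hε
      · exact hlr n ε hε)

/-- The operators of `E'` are nilpotent. -/
theorem lv0_nilp (hc : CompleteV v) (hiso : Iso p v L (fun n => (![x n, r n] : Fin 2 → Ω)))
    (hx : ∀ n, x (n + 1) ^ p = x n)
    (hr : ∀ n, r (n + 1) ^ p = r n) (hxF : x 0 ∈ F) (hrF : r 0 ∈ F) (hAF : A ≤ F)
    (hF : Cld v F) (hFL : F ≤ L) (hFE : F ≤ EW v (EW v A x) r)
    (hE' : ∀ a ∈ EW v A x, ∃ b ∈ EW v A x, b ^ p = a)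
    (hlx : ∀ n (ε : ℝ), 0 < ε → ∃ h ∈ F, v.Ge (-ε) (x n - h))
    (hlr : ∀ n (ε : ℝ), 0 < ε → ∃ h ∈ F, v.Ge (-ε) (r n - h)) :
    Nilp v (opT p v F (EW v (EW v A x) r) (fun n => (![x n, r n] : Fin 2 → Ω))) L
      (clI v (L ⊔ EW v (EW v A x) r)) :=
  nilp_of_gen p (lv0_oper hc hx hr hxF hrF hAF hF hFE hE' ((hiso.nbd hcx.out hc).of_le hFL))
    (lv0_gen hx hr hxF hrF hAF hFE) (lv0_desc hc hiso hx hr hxF hrF hAF hFL hFE hlx hlr)

/-- The roots are near `F` if `r 0` has letters. -/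
theorem lv0_lim {S : ℝ} {κ : ℕ → k} (hx : Lv0 p v x S) (hr : ∀ n, r (n + 1) ^ p = r n)
    (hxF : x 0 ∈ F) (hrF : r 0 ∈ F) (hTL : TL v (EW v A x) (r 0) 0)
    (hb : ∀ M : ℕ, v.Ge (-(S / (p : ℝ) ^ (M + 1))) (r 0 - ∑ m ∈ range M, κ m • x (m + 1))) :
    (∀ n (ε : ℝ), 0 < ε → ∃ h ∈ F, v.Ge (-ε) (x n - h)) ∧
    (∀ n (ε : ℝ), 0 < ε → ∃ h ∈ F, v.Ge (-ε) (r n - h)) := by
  have h1 : ∀ n (ε : ℝ), 0 < ε → ∃ h ∈ F, v.Ge (-ε) (x n - h) := by
    intro n ε hε
    have hN : x 0 ∈ IntermediateField.adjoin k {x 0} := IntermediateField.mem_adjoin_simple_self k _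
    have hl : Ltr p v x S (IntermediateField.adjoin k {x 0}) (r 0) κ :=
      ⟨0, zero_mem _, fun M => by rw [sub_zero]; exact hb M⟩
    refine tight_of_letters hcx.out hx hN hl (A := EW v A x) ?_ hTL ?_ hrF n hε
    · rw [IntermediateField.adjoin_simple_le_iff]
      exact EW.mem 0
    · rw [IntermediateField.adjoin_simple_le_iff]
      exact hxF
  exact ⟨h1, fun n ε hε => near_roots hcx.out hx hb h1 rfl hr n hε⟩

end

end Pool.Agent.TWC
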