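import Pool.Agent.Lib.TWC.Lv0P
import Pool.Agent.Lib.TWC.Lv0B
import Pool.Agent.Lib.TWC.C4
import Pool.Agent.Lib.TWC.TTx
import Pool.Agent.Lib.TWS.MonK

/-!
# TANK W, class I: a tight element of level `0`, main theorem

* `TT.gen`: if `L` is a tower over the perfect closure of `k(x)`, `x ∈ L` tight of level `0`, then
  `L` is a tower over the closure of `k(x, w)`, `w ∈ L`;
* `TT.step`: the hypothesis `TT` for a purely inseparable extension of degree `p`, in which `x`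
  remains tight.
-/

set_option autoImplicit false

open Polynomial

namespace Pool.Agent.TWC

open Pool.Agent.H15JM (RVal)
open Pool.Agent.LU1 (VPos adj)
open Pool.Agent.D2 (Ctx0)
open Pool.Agent.D2P (hen clI mem_clI mem_adj_self)
open Pool.Agent.TWM
open Pool.Agent.TWS (TowR PM MonG RatV GK)

universe u

variable {k Ω : Type u} [Field k] [Field Ω] [Algebra k Ω] {v : RVal Ω}
  {L L₁ : IntermediateField k Ω} {p m : ℕ} [hp : Fact p.Prime] {x : ℕ → Ω} {y : Ω}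

omit hp in
theorem TT.ne [Fact p.Prime] (ht : TT p v m L x y) : x 0 ≠ 0 := by
  intro h1
  have h2 : ∀ n, x n = 0 := by
    intro n
    induction n with
    | zero => exact h1
    | succ n ih =>
      refine eq_zero_of_pow_eq_zero (n := p) ?_
      rw [ht.tgt.root, ih]
  refine (ht.tgt.dst 0).far ⟨0, zero_mem _, ?_⟩
  rw [h2, sub_zero]
  exact fun h3 => absurd rfl h3

theorem ew_eq : clI v (L ⊔ EW v (⊥ : IntermediateField k Ω) x) = EW v L x := by
  refine le_antisymm (clI_le' (sup_le EW.le (EW_le EW.cld bot_le fun n => EW.mem n)) EW.cld) ?_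
  exact EW_le (cld_clI v _) (le_sup_left.trans (self_le_clI v _)) fun n =>
    self_le_clI v _ ((le_sup_right : _ ≤ L ⊔ EW v (⊥ : IntermediateField k Ω) x) (EW.mem n))

theorem aeval_mem_if {F : IntermediateField k Ω} {z : Ω} (hz : z ∈ F) (N : Polynomial k) :
    aeval z N ∈ F := by
  rw [aeval_eq_sum_range]
  exact sum_mem fun i _ => F.smul_mem (pow_mem hz i)

variable [CharP k p] [CharP Ω p] [PerfectRing k p] [IsAlgClosed Ω] [hcx : Fact (Ctx0 k v)]

/-- **The first floor**: the data of the descent. -/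
theorem TT.exists_dat (hc : CompleteV v) (ht : TT p v m L x y) :
    ∃ r : ℕ → Ω, LDat p v m L x r := by
  have h0 := ht.ne
  have hyL : y ∈ EW v L x := by
    rw [← ew_eq]
    exact ht.tow.le (self_mem_cadj v _ y)
  obtain ⟨w', hw', e, he, h1, h2⟩ := c4_tl hcx.out hc ht.tgt h0 ht.neg hyL ht.first
  have hS : 0 < -v (x 0) := neg_pos.2 ht.neg
  obtain ⟨N, c, hN⟩ := ht.tgt.letters_smul hcx.out hc h0 hS (neg_neg _).symm hw' h2.lim
  have hNL : aeval (x 0) N ∈ L := aeval_mem_if ht.tgt.mem N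
  have hNE : aeval (x 0) N ∈ EW v (⊥ : IntermediateField k Ω) x := aeval_mem_if (EW.mem 0) N
  obtain ⟨w, hw⟩ : ∃ w, w = w' - aeval (x 0) N := ⟨_, rfl⟩
  obtain ⟨r, hr0, hr⟩ := exists_roots p w
  have hwL : r 0 ∈ L := by
    rw [hr0, hw]
    exact sub_mem hw' hNL
  have htl : TL v (EW v (⊥ : IntermediateField k Ω) x) (r 0) 0 := by
    rw [hr0, hw]
    exact h2.sub_mem hNE
  have hlet : ∀ M : ℕ, v.Ge (-(-v (x 0) / (p : ℝ) ^ (M + 1)))
      (r 0 - ∑ m ∈ Finset.range M, c m • x (m + 1)) := by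
    intro M
    rw [hr0, hw]
    exact hN M
  have hlv : Lv0 p v x (-v (x 0)) := ⟨ht.tgt.root, hS, h0, (neg_neg _).symm⟩
  have hlimx : ∀ n (ε : ℝ), 0 < ε →
      ∃ h ∈ cadj v (cadj v (⊥ : IntermediateField k Ω) (x 0)) (r 0), v.Ge (-ε) (x n - h) := by
    intro n ε hε
    exact tight_of_letters (N := cadj v (⊥ : IntermediateField k Ω) (x 0))
      (A := EW v (⊥ : IntermediateField k Ω) x) hcx.out hlv (self_mem_cadj v _ _)
      ⟨0, zero_mem _, fun M => by rw [sub_zero]; exact hlet M⟩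
      (cadj_le EW.cld bot_le (EW.mem 0)) htl (le_cadj v _ _) (self_mem_cadj v _ _) n hε
  refine ⟨r, ht.tgt, h0, ht.neg, hr, hwL, htl, ?_, hlimx, fun n ε hε => ?_⟩
  · have h3 : TowR v m (cadj v (EW v (⊥ : IntermediateField k Ω) x)
        (y - (e + aeval (x 0) N))) (clI v (L ⊔ EW v ⊥ x)) := by
      rw [cadj_sub_mem (add_mem he hNE)]
      exact ht.tow
    refine TWS.TowR.exch (ht.first.sub_mem (add_mem he hNE)) h3 ?_ ?_
    · exact self_le_clI v _ ((le_sup_left : L ≤ _) hwL)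
    · rw [hr0, hw]
      have h4 := h1.neg
      rwa [show -(y - w' - e) = w' - aeval (x 0) N - (y - (e + aeval (x 0) N)) by ring] at h4
  · exact near_roots hcx.out hlv hlet hlimx rfl hr n hε

/-- **THE MAIN THEOREM ON LEVEL `0`.** -/
theorem TT.gen [IsAlgClosed k] (hc : CompleteV v) (hM : ∃ M : ℝ → Ω, MS v ⊤ M) (hm : m ≤ 2)
    (ht : TT p v m L x y) : Gen v m L := by
  obtain ⟨r, hd⟩ := ht.exists_dat hc
  obtain ⟨M₀, hM₀⟩ := hM
  obtain ⟨M, hM, hMx⟩ := TWS.exists_MS hM₀ hd.ne hd.neg.ne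
  obtain ⟨Λ, hΛ⟩ := Submodule.exists_isCompl (Submodule.span ℚ {v (x 0)})
  refine ⟨x 0, hd.tgt.mem, r 0, hd.mem, hd.ne, hd.neg.ne, ?_, hd.descend hc ⟨hM, hMx, hΛ⟩ hm⟩
  refine TL.transcendental hd.tl ?_
  exact D2P.adj_le bot_le (EW.mem 0)

/-- **THEOREM C*, at most two floors, any radii.** -/
theorem cstarR_le {P T : IntermediateField k Ω} {M : ℝ → Ω} {n : ℕ} (hn : n ≤ 2)
    (hc : CompleteV v) (hM : MonG v P ⊤ M) (hP' : ∀ a ∈ P, ∃ b ∈ P, b ^ p = a)
    (hT : TowR v n P T) (hL : Cld v L) (hLT : L ≤ T) (hTL : ∀ t ∈ T, t ^ p ∈ L)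
    (hP : Cld v P) : TowR v n P L := by
  interval_cases n
  · obtain ⟨-, h4⟩ := TWS.towR_iff_zero.1 hT
    refine TWS.towR_iff_zero.2 ⟨hP, le_antisymm (fun a ha => ?_) ?_⟩
    · obtain ⟨b, hb, rfl⟩ := hP' a ha
      exact hTL b (hT.le hb)
    · rwa [← h4] at hLT
  · exact TWS.cstarR1 p hc hM hP' hT hL hLT hTL hP
  · exact TWS.cstarR2 p hc hM hP' hT hL hLT hTL hP

/-- **The purely inseparable step for towers whose first radius is `0`**, any perfect base. -/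
theorem tow_step {E : IntermediateField k Ω} {M : ℝ → Ω} (hc : CompleteV v) (hm : m ≤ 2)
    (hMG : MonG v E ⊤ M) (hEc : Cld v E) (hperf : ∀ a ∈ E, ∃ b ∈ E, b ^ p = a)
    (hfst : TL v E y 0) (htw : TowR v m (cadj v E y) (clI v (L ⊔ E))) (hLL : L ≤ L₁)
    (hLp : ∀ a ∈ L₁, a ^ p ∈ L) :
    ∃ y', TL v E y' 0 ∧ TowR v m (cadj v E y') (clI v (L₁ ⊔ E)) := by
  -- the tower over the roots
  obtain ⟨t, ht0⟩ := IsAlgClosed.exists_pow_nat_eq y hp.out.pos
  rw [← ht0] at hfst htw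
  have h1 : TL v E t 0 := by
    have := TWM.TL.root p hfst
    rwa [rootF_perf p hperf, zero_div] at this
  have h2 : TowR v m (cadj v E t) (D2P.rootF p 1 (clI v (L ⊔ E))) := by
    have := TWS.TowR.rootF p htw
    rwa [TWM.rootF_cadj, rootF_perf p hperf] at this
  have hLT : clI v (L₁ ⊔ E) ≤ D2P.rootF p 1 (clI v (L ⊔ E)) := by
    refine clI_le' (sup_le (fun a ha => ?_) (fun a ha => ?_)) (TWM.cld_rootF p (cld_clI v _))
    · exact (TWM.mem_rootF1 p).2 (self_le_clI v _ ((le_sup_left : L ≤ _) (hLp a ha)))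
    · exact (TWM.mem_rootF1 p).2 (self_le_clI v _ ((le_sup_right : E ≤ _) (pow_mem ha p)))
  have hTL : ∀ a ∈ D2P.rootF p 1 (clI v (L ⊔ E)), a ^ p ∈ clI v (L₁ ⊔ E) := fun a ha =>
    clI_mono' (sup_le_sup_right hLL E) ((TWM.mem_rootF1 p).1 ha)
  have hEL : E ≤ clI v (L₁ ⊔ E) := le_sup_right.trans (self_le_clI v _)
  obtain ⟨r, i, s', hs', hr, hw, hwL, hTi, hfar⟩ := TWS.first_gen p h1 h2 hLT hTL hEL
  have hs0 : s' = 0 := by
    rcases hs' with h | h
    · exact h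
    · rw [h, mul_zero]
  subst hs0
  have h3 : TowR v m (EW v E r) (clI v (D2P.rootF p 1 (clI v (L ⊔ E)) ⊔ EW v E r)) :=
    TWS.first_base p hr hTi
  have hE' : ∀ a ∈ EW v E r, ∃ b ∈ EW v E r, b ^ p = a := EW.perf p hc hEc hperf hr
  have hiE : Imm v E (EW v E r) := TWS.imm_EW p hperf hr hw
  have h4 : TowR v m (EW v E r) (clI v (clI v (L₁ ⊔ E) ⊔ EW v E r)) :=
    cstarR_le hm hc (hMG.imm hiE) hE' h3 (cld_clI v _) (clI_mono' (sup_le_sup_right hLT _))
      (pow_mem_sup p hE' hTL) EW.cld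
  exact ⟨r 0, hw, TWS.last_descent p hc hEc hMG hperf hr hw (cld_clI v _) hEL hwL hfar hm h4⟩

/-- **The purely inseparable step.** -/
theorem TT.step (hc : CompleteV v) (hM : ∃ M : ℝ → Ω, MS v ⊤ M) (hm : m ≤ 2)
    (ht : TT p v m L x y) (hx : Tgt p v L₁ x 0) (hLL : L ≤ L₁) (hLp : ∀ a ∈ L₁, a ^ p ∈ L) :
    ∃ y', TT p v m L₁ x y' := by
  obtain ⟨M₀, hM₀⟩ := hM
  obtain ⟨M, hM, hMx⟩ := TWS.exists_MS hM₀ ht.ne ht.neg.ne
  have hperf := perf_EW0 (v := v) (k := k) (p := p) ht.tgt.root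
  have hMG : MonG v (EW v (⊥ : IntermediateField k Ω) x) ⊤ M :=
    TWS.monG_top p hcx.out hM hMx EW.cld hperf (EW.mem 0)
      (ratV_EW hcx.out ht.tgt.root ht.ne ht.neg)
  obtain ⟨y', h1, h2⟩ := tow_step hc hm hMG EW.cld hperf ht.first ht.tow hLL hLp
  exact ⟨y', hx, ht.neg, h1, h2⟩

end Pool.Agent.TWC
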