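import Pool.Agent.Lib.TWC.Lv0C

/-!
# TANK W, class C, level 0: the property `V'` for a letter which is a power

`s n` the roots of `s 0`, `v (s 0) < 0`, `x n = s n ^ d`, `d` prime to `p`. The closure `E` of
`k(s 0, s 1, ..)` is the closure of `k(s 0)(x 0, x 1, ..)`.

* `EW_pow`: this equality;
* `nsd_lv0b`: the property `V'` for `opT p v C E' u`, `u n = ![x n, b n]`, `s 0 ∈ C`.
-/

set_option autoImplicit false

open Polynomial

namespace Pool.Agent.TWC

open Pool.Agent.H15JM (RVal)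
open Pool.Agent.LU1 (VPos adj)
open Pool.Agent.D2 (Ctx0)
open Pool.Agent.D2P (clI mem_clI)
open Pool.Agent.TWM
open Pool.Agent.TWC.Key (hd ev lf dg)

universe u

variable {k Ω : Type u} [Field k] [Field Ω] [Algebra k Ω] {v : RVal Ω}
  {C E' : IntermediateField k Ω} {s x b : ℕ → Ω} {p d : ℕ}

variable [hp : Fact p.Prime]

/-- Bezout. -/
theorem exists_bez (hd : ¬ p ∣ d) (n : ℕ) : ∃ a c : ℤ, a * d + c * (p : ℤ) ^ n = 1 := by
  have h1 : Nat.Coprime d (p ^ n) :=
    ((Nat.Prime.coprime_iff_not_dvd hp.out).2 hd).symm.pow_right n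
  have h2 : IsCoprime (d : ℤ) ((p : ℤ) ^ n) := by
    have := Nat.isCoprime_iff_coprime.2 h1
    push_cast at this
    exact this
  exact h2

theorem EW_pow (hs : ∀ n, s (n + 1) ^ p = s n) (h0 : s 0 ≠ 0) (hd : ¬ p ∣ d)
    (hx : ∀ n, x n = s n ^ d) :
    EW v (cadj v (⊥ : IntermediateField k Ω) (s 0)) x = EW v (⊥ : IntermediateField k Ω) s := by
  refine le_antisymm ?_ ?_
  · refine EW_le EW.cld (EW.cadj_le 0) fun n => ?_
    rw [hx]
    exact pow_mem (EW.mem n) d
  · refine EW_le EW.cld bot_le fun n => ?_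
    obtain ⟨a, c, hac⟩ := exists_bez (p := p) hd n
    have h1 : s 0 = s n ^ ((p : ℤ) ^ n) := by
      have := root_pow_add hs 0 n
      rw [zero_add] at this
      have h2 : ((p : ℤ) ^ n) = ((p ^ n : ℕ) : ℤ) := by push_cast; rfl
      rw [h2, zpow_natCast, this]
    have hn := root_ne hs h0 n
    have h2 : s n = x n ^ a * s 0 ^ c := by
      rw [hx, h1, ← zpow_natCast (s n) d, ← zpow_mul, ← zpow_mul, ← zpow_add₀ hn]
      have h3 : (d : ℤ) * a + (p : ℤ) ^ n * c = 1 := by rw [← hac]; ring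
      rw [h3, zpow_one]
    rw [h2]
    exact mul_mem (zpow_mem (EW.mem n) a) (zpow_mem (EW.le (self_mem_cadj v _ _)) c)

variable [CharP k p] [CharP Ω p] [PerfectRing k p] [hcx : Fact (Ctx0 k v)]

/-- **`V'` for the operators in two variables**, the first one a power of the letter. -/
theorem nsd_lv0b {u : ℕ → Fin 2 → Ω} (h : Oper p v C E' (opT p v C E' u))
    (hu : ∀ n, u n = ![x n, b n]) (hs : ∀ n, s (n + 1) ^ p = s n) (h0 : s 0 ≠ 0)
    (hS : v (s 0) < 0) (hd0 : ¬ p ∣ d) (hx : ∀ n, x n = s n ^ d)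
    (hb : ∀ n, b (n + 1) ^ p = b n) (hsC : s 0 ∈ C) (hbE : ∀ n, b n ∈ E')
    (hE : EW v (⊥ : IntermediateField k Ω) s ≤ E')
    (hE' : DnsS v (AU (EW v (⊥ : IntermediateField k Ω) s) (fun n => (fun _ : Fin 1 => b n))) E') :
    NSD p h := by
  have hp0 : (0 : ℝ) < p := by exact_mod_cast hp.out.pos
  have hdpos : 0 < d := Nat.pos_of_ne_zero fun h => hd0 (by rw [h]; exact dvd_zero p)
  have hval := val_root (v := v) hs h0
  have hne := root_ne hs h0
  have hS' : 0 < -(d * v (s 0)) := by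
    have h1 : (0 : ℝ) < d := by exact_mod_cast hdpos
    nlinarith
  refine nsd_base2 (S := -(d * v (s 0))) h (mon := monX s) (β := wtX p (v (s 0))) hu hb hbE hE hE'
    hS' (fun g => zpow_mem (EW.mem _) _) (fun g => ?_) (fun g => ?_) (fun g => ?_)
    (fun e he => monX_dense hcx.out hs h0 hS he) (fun g N => ?_)
  · intro _
    rw [monX, v.map_zpow (hne _), hval g.1, wtX]
    exact le_of_eq (by ring)
  · refine ⟨(g.1, g.2 * p), ?_, ?_⟩
    · rw [monX, monX, zpow_mul, zpow_natCast]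
    · rw [wtX, wtX]
      push_cast
      ring
  · refine ⟨(g.1 + 1, g.2), ?_, ?_⟩
    · change (s (g.1 + 1) ^ g.2) ^ p = s g.1 ^ g.2
      rw [← zpow_natCast, zpow_comm, zpow_natCast, hs]
    · rw [wtX, wtX]
      simp only
      rw [pow_succ]
      field_simp
  · obtain ⟨n, i⟩ := g
    set N' := N + n with hN'
    obtain ⟨a, c, hac⟩ := exists_bez (p := p) hd0 N'
    set Q : ℤ := (p : ℤ) ^ N' with hQ
    have hQ0 : 0 < Q := by
      rw [hQ]
      exact pow_pos (by exact_mod_cast hp.out.pos) _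
    set A : ℤ := (p : ℤ) ^ N * i with hA
    set i₀ : ℕ := ((A * a) % Q).toNat with hi₀
    have hi₀' : (i₀ : ℤ) = (A * a) % Q := Int.toNat_of_nonneg (Int.emod_nonneg _ hQ0.ne')
    -- `A = d i₀ + e Q`
    obtain ⟨e, he⟩ : ∃ e : ℤ, A = d * i₀ + e * Q := by
      refine ⟨A * c + d * ((A * a) / Q), ?_⟩
      have h1 := Int.emod_add_mul_ediv (A * a) Q
      rw [hi₀']
      have h2 : A = A * (a * d + c * Q) := by rw [hac, mul_one]
      linear_combination h2 - d * h1
    have h00 : s 0 = s N' ^ Q := by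
      have := root_pow_add hs 0 N'
      rw [zero_add] at this
      have h2 : Q = ((p ^ N' : ℕ) : ℤ) := by rw [hQ]; push_cast; rfl
      rw [h2, zpow_natCast, this]
    have h0n : s n = s N' ^ ((p : ℤ) ^ N) := by
      have := root_pow_add hs n N
      have h2 : ((p : ℤ) ^ N) = ((p ^ N : ℕ) : ℤ) := by push_cast; rfl
      rw [h2, zpow_natCast, hN', add_comm N n, this]
    have key : ∀ i' : ℕ, s 0 ^ e * x N' ^ i' = s N' ^ (d * (i' : ℤ) + e * Q) := by
      intro i'
      rw [hx, h00, ← zpow_mul, ← pow_mul, ← zpow_natCast (s N') (d * i'), ← zpow_add₀ (hne N')]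
      congr 1
      push_cast
      ring
    refine ⟨N', by omega, s 0 ^ e, zpow_mem hsC _, i₀, ?_, fun i' hi' =>
      ⟨(N', d * (i' : ℤ) + e * Q), (key i').symm, ?_⟩⟩
    · rw [key, ← he]
      change s n ^ i = _
      rw [h0n, ← zpow_mul]
    · have h3 : (p : ℝ) ^ N * i = d * i₀ + e * (p : ℝ) ^ N' := by
        have h4 := congrArg (fun z : ℤ => (z : ℝ)) he
        rw [hA, hQ] at h4
        push_cast at h4
        exact h4
      rw [wtX, wtX, hQ]
      simp only
      push_cast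
      have h5 : (i : ℝ) * v (s 0) / p ^ n = (d * i₀ + e * (p : ℝ) ^ N') * v (s 0) / p ^ N' := by
        rw [← h3, hN', pow_add]
        field_simp
      rw [h5]
      ring

end Pool.Agent.TWC
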