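import Pool.Agent.Lib.TWC.Lv0F
import Pool.Agent.Lib.TWC.OpGenW
import Pool.Agent.Lib.TWC.NilpGen
import Pool.Agent.Lib.TWC.Tower
import Pool.Agent.Lib.TWC.BaseW

/-!
# TANK W, class C: the descent of the towers along an isometric extension, the base given

`C ≤ L` closed, `u n l` compatible roots of `u 0 l ∈ C`, isometric over `L`, limits of `C`;
`C ≤ E`, `E` perfect, generated by `C` and the `u n l`.

* `Iso.down`: `Tow v n E (clI v (L ⊔ E))` gives `Tow v n C L`, `n ≤ 2`, if `V'` holds;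
* `core_lv0`: the case of `E` the closure of `k(s 0, s 1, ..)(b 0, b 1, ..)`, `u n = ![s n ^ d, b n]`;
* `core_pm`: the case of `E` the closure of `k[monomials](b 0, b 1, ..)`, `u n = ![M (γ / p ^ n), b n]`.
-/

set_option autoImplicit false

open Polynomial

namespace Pool.Agent.TWC

open Pool.Agent.H15JM (RVal)
open Pool.Agent.LU1 (VPos adj)
open Pool.Agent.D2 (Ctx0)
open Pool.Agent.D2P (clI mem_clI)
open Pool.Agent.TWM

universe u

variable {k Ω : Type u} [Field k] [Field Ω] [Algebra k Ω] {v : RVal Ω}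
  {P C E L : IntermediateField k Ω} {s b : ℕ → Ω} {p m : ℕ} {u : ℕ → Fin m → Ω}

section Down

variable [hp : Fact p.Prime] [CharP k p] [CharP Ω p] [PerfectRing k p] [IsAlgClosed Ω]
  [hcx : Fact (Ctx0 k v)]

/-- **Descent of towers along an isometric extension**, the operators over `P`. -/
theorem Iso.downP (hc : CompleteV v) (h : Iso p v L u) (hE : Cld v E)
    (hE' : ∀ a ∈ E, ∃ b ∈ E, b ^ p = a) (hPE : P ≤ E) (hu : ∀ n l, u n l ∈ E)
    (hdE : DnsS v (AU P u) E) (hPC : P ≤ C) (hwC : ∀ l, u 0 l ∈ C) (hC' : Cld v C)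
    (hC : C ≤ clI v (P ⊔ IntermediateField.adjoin k (Set.range (u 0)))) (hCL : C ≤ L)
    (hlim : ∀ n l (ε : ℝ), 0 < ε → ∃ h ∈ P, v.Ge (-ε) (u n l - h))
    (hV : ∀ h : Oper p v C E (opT p v P E u), NSD p h) {n : ℕ} (hn : n ≤ 2)
    (hT : Tow v n E (clI v (L ⊔ E))) : Tow v n C L := by
  have hnP : NBd p v P u := (h.nbd hcx.out hc).of_le (hPC.trans hCL)
  have hop := opT_oper hc h.root hnP hE hE' hPE hu hdE hC' hC
  have hD := h.desc hc hE hPE hu hdE hPC hwC hCL hlim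
  exact descend_tow p hop (nilp_of_gen p hop (op_gen h.root hPE hu hdE) hD) (hV hop) hD hn hT

omit [CharP k p] [CharP Ω p] [PerfectRing k p] [IsAlgClosed Ω] hcx in
theorem dns_self (hr : ∀ n l, u (n + 1) l ^ p = u n l) (hCE : C ≤ E) (hwC : ∀ l, u 0 l ∈ C)
    (hu : ∀ n l, u n l ∈ E)
    (hEC : E ≤ clI v (C ⊔ IntermediateField.adjoin k {x | ∃ n l, x = u n l})) :
    DnsS v (AU C u) E := by
  intro x hx c
  obtain ⟨y, hy, h1⟩ := mem_clI.1 (hEC hx) c
  have h2 := AU.field hr hp.out.pos hwC hy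
  exact ⟨y, h2, AU.mem hCE hu h2, h1⟩

/-- **Descent of towers along an isometric extension**, the operators over `C`. -/
theorem Iso.down (hc : CompleteV v) (h : Iso p v L u) (hE : Cld v E)
    (hE' : ∀ a ∈ E, ∃ b ∈ E, b ^ p = a) (hCE : C ≤ E) (hu : ∀ n l, u n l ∈ E)
    (hEC : E ≤ clI v (C ⊔ IntermediateField.adjoin k {x | ∃ n l, x = u n l}))
    (hwC : ∀ l, u 0 l ∈ C) (hC : Cld v C) (hCL : C ≤ L)
    (hlim : ∀ n l (ε : ℝ), 0 < ε → ∃ h ∈ C, v.Ge (-ε) (u n l - h))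
    (hV : ∀ h : Oper p v C E (opT p v C E u), NSD p h) {n : ℕ} (hn : n ≤ 2)
    (hT : Tow v n E (clI v (L ⊔ E))) : Tow v n C L :=
  h.downP hc hE hE' hCE hu (dns_self h.root hCE hwC hu hEC) le_rfl hwC hC
    (le_sup_left.trans (self_le_clI v _)) hCL hlim hV hn hT

/-! ### The base, a letter -/

omit [CharP k p] [PerfectRing k p] hcx in
/-- `EW` is perfect. -/
theorem EW.perf' (hP : ∀ a ∈ P, ∃ b ∈ P, b ^ p = a) (hs : ∀ n, s (n + 1) ^ p = s n) :
    ∀ a ∈ EW v P s, ∃ b ∈ EW v P s, b ^ p = a := by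
  refine perf_clI p (perf_sup p hP ?_)
  rintro _ ⟨n, rfl⟩
  exact ⟨s (n + 1), (le_sup_right : IntermediateField.adjoin k (Set.range s) ≤ _)
    (IntermediateField.subset_adjoin k _ ⟨n + 1, rfl⟩), hs n⟩

omit hp [CharP k p] [CharP Ω p] [IsAlgClosed Ω] hcx in
theorem bot_perf_lv0G [Fact p.Prime] [CharP k p] :
    ∀ a ∈ (⊥ : IntermediateField k Ω), ∃ b ∈ (⊥ : IntermediateField k Ω), b ^ p = a := by
  intro a ha
  obtain ⟨c, rfl⟩ := IntermediateField.mem_bot.1 ha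
  obtain ⟨d, rfl⟩ := (PerfectRing.bijective_frobenius (R := k) (p := p)).2 c
  exact ⟨algebraMap k Ω d, IntermediateField.algebraMap_mem _ _, (map_pow _ _ _).symm⟩

/-- **Descent of towers along an isometric extension, in two variables**, over `k(s 0, b 0)`. -/
theorem core_lv0 (hc : CompleteV v) {d : ℕ} (hs : ∀ n, s (n + 1) ^ p = s n) (hS : v (s 0) < 0)
    (h0 : s 0 ≠ 0) (hd0 : ¬ p ∣ d) (hb : ∀ n, b (n + 1) ^ p = b n)
    (hbT : TL v (EW v (⊥ : IntermediateField k Ω) s) (b 0) 0) (hsC : s 0 ∈ C)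
    (hCE : C ≤ EW v (EW v ⊥ s) b) (hIC : Iso p v C (fun n => ![s n ^ d, b n]))
    (hIL : Iso p v L (fun n => ![s n ^ d, b n])) (hCL : C ≤ L) {n : ℕ} (hn : n ≤ 2)
    (hT : Tow v n (EW v (EW v ⊥ s) b) (clI v (L ⊔ EW v (EW v ⊥ s) b))) : Tow v n C L := by
  have hsE : EW v (⊥ : IntermediateField k Ω) s ≤ EW v (EW v ⊥ s) b := EW.le
  have hu : ∀ (n : ℕ) (l : Fin 2), (![s n ^ d, b n] : Fin 2 → Ω) l ∈
      EW v (EW v (⊥ : IntermediateField k Ω) s) b := by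
    intro n l
    fin_cases l
    · exact pow_mem (hsE (EW.mem n)) d
    · exact EW.mem n
  refine hIL.down hc EW.cld (EW.perf' (EW.perf' bot_perf_lv0G hs) hb) hCE hu ?_ hIC.mem hIC.cld hCL
    hIC.lim (fun h => ?_) hn hT
  · have h1 : ∀ (n : ℕ) (l : Fin 2), (![s n ^ d, b n] : Fin 2 → Ω) l ∈
        clI v (C ⊔ IntermediateField.adjoin k {x | ∃ n l, x = (![s n ^ d, b n] : Fin 2 → Ω) l}) :=
      fun n l => (le_sup_right.trans (self_le_clI v _) : IntermediateField.adjoin k _ ≤ _)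
        (IntermediateField.subset_adjoin k _ ⟨n, l, rfl⟩)
    have h2 : EW v (⊥ : IntermediateField k Ω) s ≤
        clI v (C ⊔ IntermediateField.adjoin k {x | ∃ n l, x = (![s n ^ d, b n] : Fin 2 → Ω) l}) := by
      rw [← EW_pow (x := fun n => s n ^ d) hs h0 hd0 fun _ => rfl]
      exact EW_le (cld_clI v _) (cadj_le (cld_clI v _) bot_le
        ((le_sup_left.trans (self_le_clI v _)) hsC)) fun n => h1 n 0
    exact EW_le (cld_clI v _) h2 fun n => h1 n 1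
  · exact nsd_lv0b h (fun _ => rfl) hs h0 hS hd0 (fun _ => rfl) hb hsC (fun n => EW.mem n) EW.le
      (dns_EW p hbT rfl hb)

omit hp [CharP k p] [CharP Ω p] [PerfectRing k p] [IsAlgClosed Ω] hcx [Field k] [Algebra k Ω] in
theorem ms_zpow {M : ℝ → Ω} (hM : MS v ⊤ M) (g : ℝ) (i : ℤ) : M (i * g) = M g ^ i := by
  have h1 : ∀ n : ℕ, M ((n : ℝ) * g) = M g ^ n := fun n => hM.pow trivial n
  obtain ⟨n, rfl | rfl⟩ := i.eq_nat_or_neg
  · rw [zpow_natCast, ← h1]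
    norm_cast
  · rw [zpow_neg, zpow_natCast, ← h1]
    refine eq_inv_of_mul_eq_one_left ?_
    rw [← hM.mul _ trivial _ trivial]
    push_cast
    rw [neg_mul, neg_add_cancel, hM.zero]

/-- **The same with monomials**: the base is the closure of `k[monomials]`. -/
theorem core_pm (hc : CompleteV v) {M : ℝ → Ω} {Λ : Submodule ℚ ℝ} (hM : MS v ⊤ M) {γ : ℝ}
    (hγ : γ < 0) (hΛ : IsCompl (Submodule.span ℚ {γ}) Λ) (hMC : ∀ g ∈ TWS.GK p γ Λ, M g ∈ C)
    (hb : ∀ n, b (n + 1) ^ p = b n)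
    (hbT : TL v (TWS.PM v (⊥ : IntermediateField k Ω) ⊤ M) (b 0) 0)
    (hCE : C ≤ EW v (TWS.PM v ⊥ ⊤ M) b) (hIC : Iso p v C (fun n => ![M (γ / p ^ n), b n]))
    (hIL : Iso p v L (fun n => ![M (γ / p ^ n), b n])) (hCL : C ≤ L) {n : ℕ} (hn : n ≤ 2)
    (hT : Tow v n (EW v (TWS.PM v ⊥ ⊤ M) b) (clI v (L ⊔ EW v (TWS.PM v ⊥ ⊤ M) b))) :
    Tow v n C L := by
  have hp0 : (0 : ℝ) < p := by exact_mod_cast hp.out.pos
  have hsE : TWS.PM v (⊥ : IntermediateField k Ω) ⊤ M ≤ EW v (TWS.PM v ⊥ ⊤ M) b := EW.le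
  have hu : ∀ (n : ℕ) (l : Fin 2), (![M (γ / p ^ n), b n] : Fin 2 → Ω) l ∈
      EW v (TWS.PM v (⊥ : IntermediateField k Ω) ⊤ M) b := by
    intro n l
    fin_cases l
    · exact hsE (TWS.PM.mon trivial)
    · exact EW.mem n
  refine hIL.down hc EW.cld (EW.perf' (TWS.PM.perf p hM (fun _ _ => trivial) bot_perf_lv0G) hb) hCE hu
    ?_ hIC.mem hIC.cld hCL hIC.lim (fun h => ?_) hn hT
  · set F := clI v (C ⊔ IntermediateField.adjoin k
      {x | ∃ n l, x = (![M (γ / p ^ n), b n] : Fin 2 → Ω) l}) with hF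
    have h1 : ∀ (n : ℕ) (l : Fin 2), (![M (γ / p ^ n), b n] : Fin 2 → Ω) l ∈ F :=
      fun n l => (le_sup_right.trans (self_le_clI v _) : IntermediateField.adjoin k _ ≤ _)
        (IntermediateField.subset_adjoin k _ ⟨n, l, rfl⟩)
    have hCF : C ≤ F := le_sup_left.trans (self_le_clI v _)
    refine EW_le (cld_clI v _) (TWS.PM.le_of (cld_clI v _) bot_le fun g _ => ?_) fun n => h1 n 1
    obtain ⟨m, i, hc⟩ := exists_split p hΛ g
    have h2 : M g = M (g - i * (γ / p ^ m)) * M (γ / p ^ m) ^ i := by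
      rw [← ms_zpow hM, ← hM.mul _ trivial _ trivial, sub_add_cancel]
    rw [h2]
    exact mul_mem (hCF (hMC _ hc)) (zpow_mem (h1 m 0) i)
  · exact nsd_pm h (fun _ => rfl) hM hγ hΛ (fun _ => rfl) hb hMC (fun n => EW.mem n) EW.le
      (dns_EW p hbT rfl hb)

end Down

end Pool.Agent.TWC
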