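import Pool.Agent.Lib.TWS.MonG
import Pool.Agent.Lib.TWC.BaseCh
import Pool.Agent.Lib.TWC.Tow
import Pool.Agent.Lib.TWC.NotRoot
import Pool.Agent.Lib.TWC.PI

/-!
# TANK W, class C: towers with any radii, first properties

The lemmas on `Tow` (radii `0`) which do not use the value of the radii, for the towers `TowR` of
helper52: `le`, `cld`, `imm`, `trans`, `last`, `near`, `exch`, `base`, `not_root`, `rootF`.
-/

set_option autoImplicit false

open Polynomial

namespace Pool.Agent.TWS

open Pool.Agent.H15JM (RVal)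
open Pool.Agent.LU1 (VPos adj)
open Pool.Agent.D2 (Ctx0)
open Pool.Agent.D2P (hen clI mem_clI)
open Pool.Agent.TWM (CompleteV Cld TL Imm Lim Gt algc PI cld_cadj cadj_le le_cadj self_mem_cadj
  le_clI clI_mono cld_clI mem_algc le_algc ge_sub_comm ge_of_pow eval_mem PI_mono mem_cadj engineF)
open Pool.Agent.TWC (Tow Gn Nea Pts exists_pts tl_exch_far tl_exch_gn tl_gn_of_ge)

universe u

variable {k Ω : Type u} [Field k] [Field Ω] [Algebra k Ω] {v : RVal Ω}
  {A B C L : IntermediateField k Ω}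

theorem TowR.of_tow {n : ℕ} (h : Tow v n A B) : TowR v n A B := by
  induction h with
  | zero h => exact TowR.zero h
  | succ hz _ ih => exact TowR.succ hz ih

theorem TowR.le {n : ℕ} (h : TowR v n A B) : A ≤ B := by
  induction h with
  | zero _ => exact le_refl _
  | succ _ _ ih => exact (le_cadj v _ _).trans ih

theorem TowR.cld {n : ℕ} (h : TowR v n A B) : Cld v B := by
  induction h with
  | zero hA => exact hA
  | succ _ _ ih => exact ih

theorem TowR.imm [IsAlgClosed Ω] {n : ℕ} (h : TowR v n A B) : Imm v A B := by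
  induction h with
  | zero _ => exact Imm.refl _
  | succ hz _ ih => exact hz.imm.trans ih

theorem TowR.trans {n m : ℕ} (h : TowR v n A B) (h' : TowR v m B C) : TowR v (n + m) A C := by
  induction h with
  | zero _ => simpa using h'
  | @succ n A B z s hz _ ih =>
    have h1 : n + 1 + m = (n + m) + 1 := by omega
    rw [h1]
    exact TowR.succ hz (ih h')

theorem towR_iff_zero : TowR v 0 A B ↔ Cld v A ∧ A = B := by
  constructor
  · intro h
    cases h with
    | zero hA => exact ⟨hA, rfl⟩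
  · rintro ⟨hA, rfl⟩
    exact TowR.zero hA

theorem towR_iff_succ {n : ℕ} :
    TowR v (n + 1) A B ↔ ∃ z s, TL v A z s ∧ TowR v n (TWM.cadj v A z) B := by
  constructor
  · intro h
    cases h with
    | succ hz h' => exact ⟨_, _, hz, h'⟩
  · rintro ⟨z, s, hz, h'⟩
    exact TowR.succ hz h'

theorem towR_iff_one : TowR v 1 A B ↔ ∃ y s, TL v A y s ∧ B = TWM.cadj v A y := by
  rw [towR_iff_succ]
  constructor
  · rintro ⟨z, s, hz, h'⟩
    exact ⟨z, s, hz, (towR_iff_zero.1 h').2.symm⟩
  · rintro ⟨z, s, hz, h'⟩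
    exact ⟨z, s, hz, towR_iff_zero.2 ⟨cld_cadj v _ _, h'.symm⟩⟩

/-- the last step -/
theorem TowR.last {n : ℕ} (h : TowR v (n + 1) A B) (hA : Cld v A) :
    ∃ N y s, TowR v n A N ∧ TL v N y s ∧ B = TWM.cadj v N y := by
  induction n generalizing A with
  | zero =>
    obtain ⟨y, s, hy, hB⟩ := towR_iff_one.1 h
    exact ⟨A, y, s, TowR.zero hA, hy, hB⟩
  | succ n ih =>
    obtain ⟨z, s, hz, h'⟩ := towR_iff_succ.1 h
    obtain ⟨N, y, t, h1, h2, h3⟩ := ih h' (cld_cadj v _ _)
    exact ⟨N, y, t, TowR.succ hz h1, h2, h3⟩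

/-! ### Exchange -/

section Near

variable [IsAlgClosed Ω]

/-- **Exchange.** A tower over `A` is a tower over `A'` if `A` and `A'` are near. -/
theorem TowR.near {n : ℕ} (hT : TowR v n A B) : ∀ {A' : IntermediateField k Ω} {e : ℝ},
    Cld v A' → A' ≤ B → 0 < e → Gn v e A A' → Gn v e A' A → TowR v n A' B := by
  induction hT with
  | @zero B hB =>
    intro A' e hA' hle he hG hG'
    exact TowR.of_tow (Tow.near (Tow.zero hB) hA' hle he hG hG')
  | @succ n A B z s hz hT ih =>
    intro A' e hA' hle he hG hG'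
    have hB : Cld v B := hT.cld
    have hzB : TWM.cadj v A z ≤ B := hT.le
    obtain ⟨χ, hχ, h1⟩ := hz.lim (e / 2) (by linarith)
    obtain ⟨χ', hχ', -⟩ := hG χ hχ
    have hP := exists_pts hG he hz.lim hχ hχ' h1
    have hz' := tl_exch_far hz he hG' hP
    have h2 : z - χ + χ' ∈ B := add_mem (sub_mem (hzB (self_mem_cadj v A z))
      (hzB (le_cadj v A z hχ))) (hle hχ')
    exact TowR.succ hz' (ih (cld_cadj v A' _) (cadj_le hB hle h2) (by linarith)
      (tl_exch_gn hz he hG hP) (tl_exch_gn hz' he hG' hP.symm))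

/-- **T2, exchange.** -/
theorem TowR.exch {n : ℕ} {y u : Ω} {s : ℝ} (hy : TL v A y s)
    (hT : TowR v n (TWM.cadj v A y) B) (hu : u ∈ B) (hg : Gt v s (u - y)) :
    TowR v n (TWM.cadj v A u) B := by
  have hB : Cld v B := hT.cld
  have hyB : TWM.cadj v A y ≤ B := hT.le
  have huT : TL v A u s := hy.congr hg
  obtain ⟨e, he, hge⟩ : ∃ e : ℝ, 0 < e ∧ v.Ge (s + e) (u - y) := by
    by_cases h0 : u - y = 0
    · exact ⟨1, one_pos, by rw [h0]; exact RVal.Ge.zero⟩
    · exact ⟨v (u - y) - s, sub_pos.2 (hg h0), fun _ => by linarith⟩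
  exact hT.near (cld_cadj v A u) (cadj_le hB ((le_cadj v A y).trans hyB) hu) he
    (tl_gn_of_ge hy he hge) (tl_gn_of_ge huT he (ge_sub_comm hge))

/-- Algebraic extensions of the base. -/
theorem TowR.base {n : ℕ} (h : TowR v n A B) (hA : A ≤ C) (hc : Cld v C)
    (hC : C ≤ clI v (algc A)) : TowR v n C (clI v (B ⊔ C)) := by
  induction h generalizing C with
  | @zero A hA' => exact TowR.of_tow (TWC.Tow.base (Tow.zero hA') hA hc hC)
  | @succ n A B z s hz hT ih =>
    have hzB' : z ∈ B := hT.le (self_mem_cadj v A z)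
    have h2 : TWM.cadj v A z ≤ TWM.cadj v C z := TWM.cadj_mono hA z
    have h3 : TWM.cadj v C z ≤ clI v (algc (TWM.cadj v A z)) := by
      refine cadj_le (cld_clI v _) (hC.trans (clI_mono ?_)) ?_
      · intro a ha
        exact mem_algc.2 (D2P.isAlgebraic_mono (le_cadj v A z) (mem_algc.1 ha))
      · exact le_clI _ (le_algc _ (self_mem_cadj v A z))
    have h4 := ih h2 (cld_cadj v C z) h3
    have h5 : clI v (B ⊔ TWM.cadj v C z) = clI v (B ⊔ C) := by
      apply le_antisymm
      · refine (clI_mono (sup_le (le_sup_left.trans (le_clI _)) ?_)).trans (cld_clI v _)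
        exact cadj_le (cld_clI v _) (le_sup_right.trans (le_clI _))
          (le_clI _ ((le_sup_left : B ≤ B ⊔ C) hzB'))
      · exact clI_mono (sup_le_sup_left (le_cadj v C z) B)
    rw [h5] at h4
    exact TowR.succ (TWC.TL.base hz hA hC) h4

end Near

/-! ### Roots -/

section Root

variable [IsAlgClosed Ω] (p : ℕ) [Fact p.Prime] [CharP k p] [CharP Ω p]

omit [CharP k p] in
/-- One step down, any radius. -/
theorem notRoot_down {N : IntermediateField k Ω} {y w u : Ω} {s b : ℝ} (hT : TL v N y s)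
    (hw : w ∈ N) (hu : u ∈ TWM.cadj v N y) (h : v.Ge ((p : ℝ) * b) (u ^ p - w)) :
    ∃ u' ∈ N, v.Ge ((p : ℝ) * b) (u' ^ p - w) := by
  obtain ⟨f, hf, h1⟩ := hT.dense hu b
  have h2 : v.Ge ((p : ℝ) * b) ((f ^ p - Polynomial.C w).eval y) := by
    rw [eval_sub, eval_pow, eval_C]
    have h3 : f.eval y ^ p - w = (u ^ p - w) - (u - f.eval y) ^ p := by
      rw [sub_pow_char]
      ring
    rw [h3]
    exact h.sub (TWM.ge_pow h1 p)
  obtain ⟨a, ha, h3⟩ := TWC.NotRoot.eval_near hT
    (_root_.sub_mem (pow_mem hf p) (TWM.C_mem_PI hw) : f ^ p - Polynomial.C w ∈ PI N) h2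
  refine ⟨f.eval a, eval_mem hf ha, ?_⟩
  rwa [eval_sub, eval_pow, eval_C] at h3

omit [CharP k p] in
/-- The bottom, any radius. -/
theorem notRoot_base {w u : Ω} {s : ℝ} (hT : TL v A w s) (hu : u ∈ TWM.cadj v A w) :
    ¬ v.Ge s (u ^ p - w) := by
  intro h
  have hp0 : (0 : ℝ) < p := by exact_mod_cast (Fact.out : p.Prime).pos
  obtain ⟨f, hf, h1⟩ := hT.dense hu (s / p)
  have hF : f ^ p - X ∈ PI A := _root_.sub_mem (pow_mem hf p) TWM.X_mem_PI
  have hd : derivative (f ^ p - X : Polynomial Ω) = -1 := by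
    rw [derivative_sub, derivative_pow, derivative_X, CharP.cast_eq_zero Ω p, C_0, zero_mul,
      zero_mul, zero_sub]
  have hF0 : f ^ p - X ≠ 0 := by
    intro h0
    rw [h0, derivative_zero] at hd
    exact one_ne_zero (neg_eq_zero.1 hd.symm)
  have h2 : v.Ge s ((f ^ p - X).eval w) := by
    rw [eval_sub, eval_pow, eval_X]
    have h3 : f.eval w ^ p - w = (u ^ p - w) - (u - f.eval w) ^ p := by
      rw [sub_pow_char]
      ring
    rw [h3]
    refine h.sub ?_
    have := TWM.ge_pow h1 p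
    rwa [mul_div_cancel₀ _ hp0.ne'] at this
  have hne := hT.eval_ne (PI_mono (le_algc A) hF) hF0
  have h4 : (taylor w (f ^ p - X)).coeff 1 = -1 := by
    rw [taylor_coeff_one, hd, eval_neg, eval_one]
  have h5 := hT.strict (PI_mono (le_algc A) hF) hF0 (l := 1) le_rfl
    (by rw [h4]; exact neg_ne_zero.2 one_ne_zero)
  rw [h4, v.map_neg _ one_ne_zero, v.map_one] at h5
  have h6 := h2 hne
  push_cast at h5
  linarith

omit [CharP k p] in
/-- `w` is not near to a `p`-th power of the tower. -/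
theorem TowR.not_root {n : ℕ} {w u : Ω} {s : ℝ} (hw : TL v A w s)
    (hT : TowR v n (TWM.cadj v A w) B) (hu : u ∈ B) : ¬ v.Ge s (u ^ p - w) := by
  induction n generalizing B u with
  | zero =>
    obtain ⟨-, h1⟩ := towR_iff_zero.1 hT
    rw [← h1] at hu
    exact notRoot_base p hw hu
  | succ n ih =>
    obtain ⟨N, y, t, h1, h2, h3⟩ := hT.last (cld_cadj v A w)
    rw [h3] at hu
    intro h
    have hp0 : (0 : ℝ) < p := by exact_mod_cast (Fact.out : p.Prime).pos
    obtain ⟨u', hu', h4⟩ := notRoot_down p (b := s / p) h2 (h1.le (self_mem_cadj v A w)) hu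
      (by rwa [mul_div_cancel₀ _ hp0.ne'])
    rw [mul_div_cancel₀ _ hp0.ne'] at h4
    exact ih h1 hu' h4

omit [CharP k p] in
/-- The roots of a tower. -/
theorem TowR.rootF {n : ℕ} (h : TowR v n A B) :
    TowR v n (D2P.rootF p 1 A) (D2P.rootF p 1 B) := by
  induction h with
  | zero h => exact TowR.zero (TWM.cld_rootF p h)
  | @succ n A B z s hz _ ih =>
    obtain ⟨t, rfl⟩ := IsAlgClosed.exists_pow_nat_eq z (Fact.out : p.Prime).pos
    have h1 := TWM.TL.root p hz
    rw [TWM.rootF_cadj] at ih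
    exact TowR.succ h1 ih

end Root

end Pool.Agent.TWS
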