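import Pool.Agent.Lib.TWC.TowRpi
import Pool.Agent.Lib.TWC.Lv0C
import Pool.Agent.Lib.TWS.MonJ

/-!
# TANK W, class C, level 0: the operators in two variables, with the monomials

`x` tight of level `0` in `L`, `E` the closure of `k(x 0, x 1, ..)`, `r` the roots of an element
`r 0` of `L` of type `TL` over `E`, of radius `0`, `C` the closure of `k(x 0, r 0)`.

* `ratV_EW`, `ratV_pcl`: the values are rational multiples of the value of `x 0`;
* `Mns`: monomials;
* `LDat.iso`: isometric data over `L` with the monomials;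
* `LDat.descend`: operators, `V'`, descent data for `C`, `P = E(r 0, r 1, ..)`, `L`, with the
  monomials; hence `L` is a tower over `C`, with any radii.
-/

set_option autoImplicit false

open Polynomial

namespace Pool.Agent.TWC

open Pool.Agent.H15JM (RVal)
open Pool.Agent.LU1 (VPos adj)
open Pool.Agent.D2 (Ctx0)
open Pool.Agent.D2P (hen clI mem_clI)
open Pool.Agent.TWM
open Pool.Agent.TWS (TowR PM MonG RatV GK)
open Pool.Agent.TWC.Key (hd ev lf)

universe u

variable {k Ω : Type u} [Field k] [Field Ω] [Algebra k Ω] {v : RVal Ω}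
  {A B C E L P : IntermediateField k Ω} {M : ℝ → Ω} {Λ : Submodule ℚ ℝ}

section Rat

variable {p : ℕ} [hp : Fact p.Prime] {x : ℕ → Ω}

theorem ratV_EW (hk : Ctx0 k v) (hr : ∀ n, x (n + 1) ^ p = x n) (h0 : x 0 ≠ 0)
    (hv : v (x 0) < 0) : RatV v (EW v (⊥ : IntermediateField k Ω) x) (v (x 0)) := by
  rintro _ ⟨e, he, he0, rfl⟩
  have hp0 : (0 : ℝ) < p := by exact_mod_cast hp.out.pos
  obtain ⟨m, hm⟩ := exists_nat_gt (v e / -(v (x 0)))
  rw [div_lt_iff₀ (by linarith)] at hm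
  have hx0m : x 0 ^ m ≠ 0 := pow_ne_zero m h0
  have hv' : v (e * x 0 ^ m) = v e + m * v (x 0) := by
    rw [v.map_mul he0 hx0m, v.map_pow h0]
  have hneg : v (e * x 0 ^ m) < 0 := by
    rw [hv']
    linarith
  obtain ⟨n, -, Q, h1⟩ := exists_aeval_near hk hr h0 hv (e := e * x 0 ^ m)
    (mul_mem he (pow_mem (EW.mem 0) m)) 0
  have h2 : Gt v (v (e * x 0 ^ m)) (e * x 0 ^ m - aeval (x n) Q) := fun h => hneg.trans (h1 h)
  obtain ⟨h3, h4⟩ := Gt.val_eq (mul_ne_zero he0 hx0m) h2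
  have hQ : Q ≠ 0 := by
    rintro rfl
    exact h3 (map_zero _)
  have hxn := root_ne hr h0 n
  have hvn : v (x n) < 0 := by
    rw [val_root hr h0 n]
    exact div_neg_of_neg_of_pos hv (pow_pos hp0 n)
  obtain ⟨-, h5⟩ := val_aeval_neg hk hxn hvn hQ
  rw [h4, hv', val_root hr h0 n] at h5
  have hpn : (p : ℝ) ^ n ≠ 0 := pow_ne_zero _ hp0.ne'
  refine ⟨p ^ n, pow_ne_zero _ hp.out.ne_zero, (Q.natDegree : ℤ) - m * p ^ n, ?_⟩
  push_cast
  field_simp at h5
  linear_combination h5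

theorem ratV_of_mul {γ : ℝ} (h : RatV v B γ)
    (hA : ∀ g ∈ TWS.VG v A, ∃ j : ℕ, (p : ℝ) ^ j * g ∈ TWS.VG v B) : RatV v A γ := by
  intro g hg
  obtain ⟨j, hj⟩ := hA g hg
  obtain ⟨n, hn, m, h1⟩ := h _ hj
  refine ⟨n * p ^ j, mul_ne_zero hn (pow_ne_zero _ hp.out.ne_zero), m, ?_⟩
  push_cast
  rw [mul_assoc]
  exact h1

theorem ratV_pcl [CharP Ω p] {γ : ℝ} (h : RatV v B γ) : RatV v (clI v (pcl p B)) γ := by
  refine ratV_of_mul (p := p) h fun g hg => ?_
  rw [TWS.VG.clI] at hg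
  obtain ⟨j, hj⟩ := TWS.VG.pcl p B hg
  exact ⟨j, hj⟩

end Rat

/-! ### Monomials -/

/-- Monomials of all the real values, `M (v (x 0)) = x 0`. -/
structure Mns (v : RVal Ω) (x : ℕ → Ω) (M : ℝ → Ω) (Λ : Submodule ℚ ℝ) : Prop where
  ms : MS v ⊤ M
  x0 : M (v (x 0)) = x 0
  compl : IsCompl (Submodule.span ℚ {v (x 0)}) Λ

section Mn

variable {p : ℕ} [hp : Fact p.Prime] [CharP Ω p] {x : ℕ → Ω}

omit [Algebra k Ω] [Field k] in
theorem Mns.root (h : Mns v x M Λ) (hr : ∀ n, x (n + 1) ^ p = x n) (n : ℕ) :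
    x n = M (v (x 0) / p ^ n) := by
  have hp0 : (p : ℝ) ^ n ≠ 0 := pow_ne_zero _ (by exact_mod_cast hp.out.ne_zero)
  have h1 : M (v (x 0) / p ^ n) ^ p ^ n = x 0 := by
    rw [← h.ms.pow trivial (p ^ n)]
    push_cast
    rw [mul_div_cancel₀ _ hp0, h.x0]
  have h2 : x n ^ p ^ n = x 0 := by
    have := root_pow_add hr 0 n
    rwa [zero_add] at this
  exact iterateFrobenius_inj Ω p n (by rw [iterateFrobenius_def, iterateFrobenius_def, h1, h2])

end Mn

/-! ### Density -/

section Dns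

variable {p : ℕ} [hp : Fact p.Prime] {u : ℕ → Fin 2 → Ω} {x r : ℕ → Ω}

/-- The polynomials in the roots are dense. -/
theorem dns_two (hu : ∀ n, u n = ![x n, r n]) (hx : ∀ n, x (n + 1) ^ p = x n)
    (hr : ∀ n, r (n + 1) ^ p = r n) (hx0 : x 0 ∈ C) (hr0 : r 0 ∈ C) (hA : A ≤ C)
    (hE : C ≤ EW v (EW v A x) r) : DnsS v (AU C u) (EW v (EW v A x) r) := by
  have hroot : ∀ n l, u (n + 1) l ^ p = u n l := by
    intro n l
    rw [hu, hu]
    fin_cases l
    · exact hx n
    · exact hr n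
  have hmem : ∀ n l, u n l ∈ EW v (EW v A x) r := by
    intro n l
    rw [hu]
    fin_cases l
    · exact EW.le (EW.mem n)
    · exact EW.mem n
  have hle : EW v (EW v A x) r ≤
      clI v (C ⊔ IntermediateField.adjoin k {y | ∃ n l, y = u n l}) := by
    refine EW_le (cld_clI v _) (EW_le (cld_clI v _) ?_ fun n => ?_) fun n => ?_
    · exact hA.trans (le_sup_left.trans (self_le_clI v _))
    · refine self_le_clI v _ ((le_sup_right : _ ≤ C ⊔ _)
        (IntermediateField.subset_adjoin _ _ ⟨n, 0, ?_⟩))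
      rw [hu]
      rfl
    · refine self_le_clI v _ ((le_sup_right : _ ≤ C ⊔ _)
        (IntermediateField.subset_adjoin _ _ ⟨n, 1, ?_⟩))
      rw [hu]
      rfl
  intro y hy b
  obtain ⟨y', hy', h1⟩ := mem_clI.1 (hle hy) b
  obtain ⟨n, f, rfl⟩ := AU.field hroot hp.out.pos (fun l => by
    rw [hu]
    fin_cases l
    · exact hx0
    · exact hr0) hy'
  exact ⟨_, ⟨n, f, rfl⟩, AU.mem hE hmem ⟨n, f, rfl⟩, h1⟩

end Dns

/-! ### The operators preserve the small field -/

section Pre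

variable {p : ℕ} [hp : Fact p.Prime] [CharP k p] [CharP Ω p] [hcx : Fact (Ctx0 k v)]
  {m : ℕ} {u : ℕ → Fin m → Ω} {C' P' : IntermediateField k Ω}

omit hp [CharP k p] [CharP Ω p] in
/-- The operators over `C'`, on `P'`, map `P` in `P`, if the polynomials over `C ≤ C'` are
dense in `P`. -/
theorem opT_pres (hroot : ∀ n l, u (n + 1) l ^ p = u n l) (hCC : C ≤ C') (hP : Cld v P)
    (hPP : P ≤ P') (hCP : C ≤ P) (hu : ∀ n l, u n l ∈ P) (hd : DnsS v (AU C u) P)
    {φ : Opr v P'} (hφ : φ ∈ opT p v C' P' u) : ∀ e ∈ P, fn φ e ∈ P := by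
  induction hφ using Submodule.span_induction with
  | mem φ hφ =>
    obtain ⟨n, F, -, hF, h1⟩ := hφ
    intro e he
    refine hP (mem_clI.2 fun b => ?_)
    obtain ⟨_, ⟨N, f, rfl⟩, hfE, h2⟩ := hd e he b
    have h3 : ev (u N) f = ev (u (n + N)) (lf (p ^ n) f) := by
      rw [add_comm n N, ev_lift hroot]
    refine ⟨fn φ (ev (u N) f), ?_, fn_near φ (hPP he) (hPP hfE) h2⟩
    rw [h3, ← ev_base hCC, h1 N, hd_base, ev_base]
    exact AU.mem hCP hu ⟨_, _, rfl⟩
  | zero =>
    intro e _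
    rw [fn_opZero]
    exact zero_mem P
  | add φ ψ _ _ h1 h2 =>
    intro e he
    rw [fn_opAdd]
    exact add_mem (h1 e he) (h2 e he)
  | smul a φ _ h1 =>
    intro e he
    rw [fn_opSmul]
    exact P.smul_mem (h1 e he)

end Pre

/-! ### The operators in two variables -/

section Main

variable (p : ℕ) [hp : Fact p.Prime] [CharP k p] [CharP Ω p] [PerfectRing k p] [IsAlgClosed Ω]
  [hcx : Fact (Ctx0 k v)] {x r : ℕ → Ω}

/-- `L`, `x`, `r`: the data on level `0`. -/
structure LDat (p : ℕ) (v : RVal Ω) (m : ℕ) (L : IntermediateField k Ω) (x r : ℕ → Ω) : Prop where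
  tgt : Tgt p v L x 0
  ne : x 0 ≠ 0
  neg : v (x 0) < 0
  root : ∀ n, r (n + 1) ^ p = r n
  mem : r 0 ∈ L
  tl : TL v (EW v (⊥ : IntermediateField k Ω) x) (r 0) 0
  tow : TowR v m (cadj v (EW v (⊥ : IntermediateField k Ω) x) (r 0)) (clI v (L ⊔ EW v ⊥ x))
  limx : ∀ n (ε : ℝ), 0 < ε → ∃ h ∈ cadj v (cadj v (⊥ : IntermediateField k Ω) (x 0)) (r 0),
    v.Ge (-ε) (x n - h)
  limr : ∀ n (ε : ℝ), 0 < ε → ∃ h ∈ cadj v (cadj v (⊥ : IntermediateField k Ω) (x 0)) (r 0),
    v.Ge (-ε) (r n - h)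

omit [CharP k p] hp [CharP Ω p] [IsAlgClosed Ω] hcx in
theorem perf_bot : ∀ a ∈ (⊥ : IntermediateField k Ω),
    ∃ b ∈ (⊥ : IntermediateField k Ω), b ^ p = a := by
  intro a ha
  obtain ⟨c, rfl⟩ := IntermediateField.mem_bot.1 ha
  obtain ⟨d, hd⟩ := (PerfectRing.bijective_frobenius (R := k) (p := p)).2 c
  refine ⟨algebraMap k Ω d, IntermediateField.algebraMap_mem _ d, ?_⟩
  rw [← map_pow, ← hd]

variable {p}

omit [CharP k p] [CharP Ω p] [PerfectRing k p] [IsAlgClosed Ω] hcx hp in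
/-- The closure of `L P`. -/
theorem LDat.sup_eq : clI v (clI v (L ⊔ EW v (⊥ : IntermediateField k Ω) x) ⊔
    EW v (EW v (⊥ : IntermediateField k Ω) x) r) =
    clI v (L ⊔ EW v (EW v (⊥ : IntermediateField k Ω) x) r) := by
  apply le_antisymm
  · refine clI_le' (sup_le (clI_mono' (sup_le_sup_left EW.le L)) ?_) (cld_clI v _)
    exact le_sup_right.trans (self_le_clI v _)
  · exact clI_mono' (sup_le_sup_right (le_sup_left.trans (self_le_clI v _)) _)

omit [CharP k p] hcx in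
theorem perf_EW0 (hx : ∀ n, x (n + 1) ^ p = x n) : ∀ a ∈ EW v (⊥ : IntermediateField k Ω) x,
    ∃ b ∈ EW v (⊥ : IntermediateField k Ω) x, b ^ p = a := by
  refine perf_clI p (perf_sup p (perf_bot p) ?_)
  rintro _ ⟨n, rfl⟩
  exact ⟨x (n + 1), (le_sup_right : IntermediateField.adjoin k (Set.range x) ≤ _)
    (IntermediateField.subset_adjoin k _ ⟨n + 1, rfl⟩), hx n⟩

variable {m : ℕ} (h : LDat p v m L x r) (hc : CompleteV v) (hMn : Mns v x M Λ)

include h

omit hp [CharP k p] [CharP Ω p] [PerfectRing k p] [IsAlgClosed Ω] hcx in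
theorem LDat.C_le_L : cadj v (cadj v (⊥ : IntermediateField k Ω) (x 0)) (r 0) ≤ L :=
  cadj_le h.tgt.cld (cadj_le h.tgt.cld bot_le h.tgt.mem) h.mem

omit hp [CharP k p] [CharP Ω p] [PerfectRing k p] [IsAlgClosed Ω] hcx h in
theorem LDat.C_le_P : cadj v (cadj v (⊥ : IntermediateField k Ω) (x 0)) (r 0) ≤
    EW v (EW v (⊥ : IntermediateField k Ω) x) r :=
  cadj_le EW.cld (cadj_le EW.cld bot_le (EW.le (EW.mem 0))) (EW.mem 0)

omit [CharP k p] in
theorem LDat.immE : Imm v (EW v (⊥ : IntermediateField k Ω) x)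
    (EW v (EW v (⊥ : IntermediateField k Ω) x) r) :=
  TWS.imm_EW p (perf_EW0 h.tgt.root) h.root h.tl

omit [CharP k p] [CharP Ω p] [PerfectRing k p] hcx in
theorem LDat.towP : TowR v m (EW v (EW v (⊥ : IntermediateField k Ω) x) r)
    (clI v (L ⊔ EW v (EW v (⊥ : IntermediateField k Ω) x) r)) := by
  rw [← LDat.sup_eq]
  exact TWS.first_base p h.root (i := 0) h.tow

omit [CharP k p] in
theorem LDat.immLP : Imm v (EW v (⊥ : IntermediateField k Ω) x)
    (clI v (L ⊔ EW v (EW v (⊥ : IntermediateField k Ω) x) r)) :=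
  h.immE.trans h.towP.imm

omit [CharP k p] in
theorem LDat.rat : RatV v (clI v (L ⊔ EW v (EW v (⊥ : IntermediateField k Ω) x) r))
    (v (x 0)) := by
  have h1 := ratV_EW (v := v) hcx.out h.tgt.root h.ne h.neg
  intro g hg
  rw [TWS.VG.imm h.immLP] at hg
  exact h1 g hg

omit [CharP k p] in
theorem LDat.monG (hMn : Mns v x M Λ) {F : IntermediateField k Ω} (hF : Cld v F)
    (hx : x 0 ∈ F) (hle : F ≤ clI v (L ⊔ EW v (EW v (⊥ : IntermediateField k Ω) x) r)) :
    MonG v F (GK p (v (x 0)) Λ) M :=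
  TWS.monG_GK p hcx.out hMn.ms hMn.x0 hMn.compl.disjoint hF hx (h.rat.mono hle)

omit [CharP k p] in
/-- The isometric data over `L`, with the monomials. -/
theorem LDat.iso (hc : CompleteV v) (hMn : Mns v x M Λ) :
    Iso p v (PM v L (GK p (v (x 0)) Λ) M) (fun n => ![x n, r n]) := by
  set G := GK p (v (x 0)) Λ with hG
  set E := EW v (⊥ : IntermediateField k Ω) x with hE
  set P := EW v E r with hP
  set LP := clI v (L ⊔ P) with hLP
  have hLLP : L ≤ LP := le_sup_left.trans (self_le_clI v _)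
  have hPLP : P ≤ LP := le_sup_right.trans (self_le_clI v _)
  have hEP : E ≤ P := EW.le
  have hLE : clI v (L ⊔ E) ≤ LP := clI_mono' (sup_le_sup_left hEP L)
  have hLcl : clI v (L ⊔ E) = EW v L x := by
    refine le_antisymm (clI_le' (sup_le EW.le (EW_le EW.cld bot_le fun n => EW.mem n)) EW.cld) ?_
    exact EW_le (cld_clI v _) (le_sup_left.trans (self_le_clI v _)) fun n =>
      self_le_clI v _ ((le_sup_right : E ≤ L ⊔ E) (EW.mem n))
  refine ⟨PM.cld, fun l => ?_, fun n l => ?_, fun l => ?_, fun n l ε hε => ?_⟩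
  · fin_cases l
    · exact PM.le h.tgt.mem
    · exact PM.le h.mem
  · fin_cases l
    · exact h.tgt.root n
    · exact h.root n
  · fin_cases l
    · -- `x 1`
      rintro ⟨a, ha, h1⟩
      have hLpcl : L ≤ clI v (pcl p L) := fun a ha =>
        self_le_clI v _ ⟨0, by rwa [pow_zero, pow_one]⟩
      have h2 : Lx v (PM v L G M) (fun n => ![x n, r n]) ((0 : Fin 2) : ℕ) ≤ PM v L G M := by
        refine clI_le' (sup_le le_rfl ?_) PM.cld
        rw [IntermediateField.adjoin_le_iff]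
        rintro _ ⟨n, j, hj, -⟩
        exact absurd hj (Nat.not_lt_zero _)
      have hMpcl : MonG v (clI v (pcl p L)) G M :=
        TWS.monG_GK p hcx.out hMn.ms hMn.x0 hMn.compl.disjoint (cld_clI v _)
          (hLpcl h.tgt.mem) (ratV_pcl (h.rat.mono hLLP))
      have h3 := (TWS.SND.pm hc hMpcl (h.monG hMn h.tgt.cld h.tgt.mem hLLP)
        (TWS.GK_pcl p hMn.compl.disjoint h.tgt.mem h.ne (h.rat.mono hLLP)) h.tgt.snd).far 0
      refine h3 ⟨a, (D2P.mem_adj_self _ _).2 (h2 ha), ?_⟩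
      rw [zero_div]
      exact h1
    · -- `r 1`
      intro h1
      have h2 : Lx v (PM v L G M) (fun n => ![x n, r n]) ((1 : Fin 2) : ℕ) ≤
          PM v (clI v (L ⊔ E)) G M := by
        refine clI_le' (sup_le (PM.mono (le_sup_left.trans (self_le_clI v _))) ?_) PM.cld
        rw [IntermediateField.adjoin_le_iff]
        rintro _ ⟨n, j, hj, rfl⟩
        have hj0 : j = 0 := by
          apply Fin.ext
          have : (j : ℕ) < 1 := hj
          simpa using this
        subst hj0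
        exact PM.le (self_le_clI v _ ((le_sup_right : E ≤ L ⊔ E) (EW.mem n)))
      have h3 : Nr' v (PM v (clI v (L ⊔ E)) G M) 0 (r 1) := by
        obtain ⟨a, ha, h4⟩ := h1
        exact ⟨a, h2 ha, h4⟩
      have hiE : Imm v E (clI v (L ⊔ E)) := ⟨le_sup_right.trans (self_le_clI v _),
        fun b hb => h.immLP.imm b (hLE hb)⟩
      rw [TWS.nr'_pm (B := LP) (h.monG hMn EW.cld (EW.mem 0) (hEP.trans hPLP)) hiE
        h.immLP hLE (hPLP (EW.mem 1))] at h3
      obtain ⟨l, hl, h4⟩ := h3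
      refine TWS.TowR.not_root p h.tl h.tow hl ?_
      have h6 : l ^ p - r 0 = -((r 1 - l) ^ p) := by
        rw [sub_pow_char, show (1 : ℕ) = 0 + 1 from rfl, h.root 0]
        ring
      rw [h6]
      have h7 := ge_pow h4.ge p
      rw [mul_zero] at h7
      exact h7.neg
  · fin_cases l
    · obtain ⟨a, ha, h1⟩ := h.limx n ε hε
      exact ⟨a, PM.le (h.C_le_L ha), h1⟩
    · obtain ⟨a, ha, h1⟩ := h.limr n ε hε
      exact ⟨a, PM.le (h.C_le_L ha), h1⟩

/-- **The descent on level `0`.** -/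
theorem LDat.descend (hc : CompleteV v) (hMn : Mns v x M Λ) (hm : m ≤ 2) :
    TowR v m (cadj v (cadj v (⊥ : IntermediateField k Ω) (x 0)) (r 0)) L := by
  have hp0 : (0 : ℝ) < p := by exact_mod_cast hp.out.pos
  have hiso := h.iso hc hMn
  have hCL := h.C_le_L
  have hCP : cadj v (cadj v (⊥ : IntermediateField k Ω) (x 0)) (r 0) ≤
    EW v (EW v (⊥ : IntermediateField k Ω) x) r := LDat.C_le_P
  have hperfE := perf_EW0 (v := v) (k := k) (p := p) h.tgt.root
  have htow := h.towP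
  have hrat := h.rat
  have himmE := h.immE
  have himmLP := h.immLP
  have hEW : EW v (PM v (⊥ : IntermediateField k Ω) (GK p (v (x 0)) Λ) M) x =
      PM v (⊥ : IntermediateField k Ω) ⊤ M :=
    EW_base p (x := x 0) hMn.ms hMn.compl fun n => hMn.root h.tgt.root n
  set G := GK p (v (x 0)) Λ with hG
  set E := EW v (⊥ : IntermediateField k Ω) x with hE
  set P := EW v E r with hP
  set C := cadj v (cadj v (⊥ : IntermediateField k Ω) (x 0)) (r 0) with hC
  set LP := clI v (L ⊔ P) with hLP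
  set u : ℕ → Fin 2 → Ω := fun n => ![x n, r n] with hu
  have hLLP : L ≤ LP := le_sup_left.trans (self_le_clI v _)
  have hPLP : P ≤ LP := le_sup_right.trans (self_le_clI v _)
  have hEP : E ≤ P := EW.le
  have hx0C : x 0 ∈ C := le_cadj v _ _ (self_mem_cadj v _ _)
  have hr0C : r 0 ∈ C := self_mem_cadj v _ _
  have hroot : ∀ n l, u (n + 1) l ^ p = u n l := hiso.root
  have hperfP : ∀ a ∈ P, ∃ b ∈ P, b ^ p = a := EW.perf p hc EW.cld hperfE h.root
  have hmemP : ∀ n l, u n l ∈ P := by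
    intro n l
    fin_cases l
    · exact EW.le (EW.mem n)
    · exact EW.mem n
  -- the closed field `P` with the monomials
  have hPE : PM v P G M = EW v (EW v (PM v (⊥ : IntermediateField k Ω) G M) x) r := by
    rw [hP, TWS.PM.EW, hE, TWS.PM.EW]
  have hEtop : PM v E G M = PM v (⊥ : IntermediateField k Ω) ⊤ M := by
    rw [hE, TWS.PM.EW, hEW]
  have hCP' : PM v C G M ≤ PM v P G M := PM.mono hCP
  have hmemP' : ∀ n l, u n l ∈ PM v P G M := fun n l => PM.le (hmemP n l)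
  have hdE : DnsS v (AU (PM v C G M) u) (PM v P G M) := by
    rw [hPE] at hCP' ⊢
    exact dns_two (fun n => rfl) h.tgt.root h.root (PM.le hx0C) (PM.le hr0C)
      (PM.mono bot_le) hCP'
  have hmonP : MonG v P G M := h.monG hMn EW.cld (hEP (EW.mem 0)) hPLP
  have hGdiv : ∀ s : ℝ, ∃ e ∈ E, e ≠ 0 ∧ ∃ g ∈ G, v e + g = s := by
    intro s
    obtain ⟨n, c, h1⟩ := exists_split p hMn.compl s
    refine ⟨x n ^ c, zpow_mem (EW.mem n) c, zpow_ne_zero c (root_ne h.tgt.root h.ne n), _, h1, ?_⟩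
    rw [v.map_zpow (root_ne h.tgt.root h.ne n), val_root h.tgt.root h.ne n]
    ring
  have hperfP' : ∀ a ∈ PM v P G M, ∃ b ∈ PM v P G M, b ^ p = a := by
    have h1 : PM v P G M = PM v P ⊤ M := by
      refine le_antisymm (PM.le_of PM.cld PM.le fun g _ => PM.mon trivial)
        (PM.le_of PM.cld PM.le fun g _ => ?_)
      have h2 : M g ∈ PM v E G M := by
        rw [hEtop]
        exact PM.mon trivial
      exact PM.mono hEP h2
    rw [h1]
    exact TWS.pm_perf p hMn.ms hperfP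
  have hn : NBd p v (PM v C G M) u := (hiso.nbd hcx.out hc).of_le (PM.mono hCL)
  have hop : Oper p v (PM v C G M) (PM v P G M) (opT p v (PM v C G M) (PM v P G M) u) :=
    opT_oper hc hroot hn PM.cld hperfP' hCP' hmemP' hdE PM.cld
      (le_sup_left.trans (self_le_clI v _))
  have hgen := op_gen hroot hCP' hmemP' hdE
  have hnsd : NSD p hop := by
    refine nsd_pm hop (fun n => rfl) hMn.ms h.neg hMn.compl (fun n => hMn.root h.tgt.root n)
      h.root (fun g hg => PM.mon hg) (fun n => PM.le (EW.mem n)) ?_ ?_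
    · rw [← hEtop]
      exact PM.mono hEP
    · have h1 : TL v (PM v E G M) (r 0) 0 :=
        TWS.TL.pm (h.monG hMn EW.cld (EW.mem 0) (hEP.trans hPLP)) (Imm.refl _) h.tl
      have h2 := dns_EW p h1 (u := r) rfl h.root
      rw [← TWS.PM.EW, hEtop] at h2
      exact h2
  have hdesc : Desc v (PM v C G M) (PM v P G M) (opT p v (PM v C G M) (PM v P G M) u)
      (PM v L G M) (PM v LP G M) := by
    have h1 := hiso.desc (C := PM v C G M) (P := PM v C G M) hc PM.cld hCP' hmemP' hdE le_rfl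
      (fun l => by
        fin_cases l
        · exact PM.le hx0C
        · exact PM.le hr0C) (PM.mono hCL) (fun n l ε hε => by
        fin_cases l
        · obtain ⟨a, ha, h1⟩ := h.limx n ε hε
          exact ⟨a, PM.le ha, h1⟩
        · obtain ⟨a, ha, h1⟩ := h.limr n ε hε
          exact ⟨a, PM.le ha, h1⟩)
    rwa [← TWS.PM.sup] at h1
  have hD : TWS.DescM p v C P L LP G M (opT p v (PM v C G M) (PM v P G M) u) := by
    refine ⟨hc, h.monG hMn (cld_cadj v _ _) hx0C (hCL.trans hLLP), fun g hg hgP => ?_,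
      cld_cadj v _ _, EW.cld, hperfP, hCP, h.tgt.cld, hCL, rfl, htow.imm, hdesc⟩
    refine TWS.GK_pcl p hMn.compl.disjoint hx0C h.ne (hrat.mono (hCL.trans hLLP)) g hg ?_
    refine TWS.VG.mono ?_ hgP
    refine EW_le (cld_clI v _) (EW_le (cld_clI v _) bot_le fun n => ?_) fun n => ?_
    · refine self_le_clI v _ ⟨n, ?_⟩
      have h1 := root_pow_add h.tgt.root 0 n
      rw [zero_add] at h1
      rw [h1]
      exact hx0C
    · refine self_le_clI v _ ⟨n, ?_⟩
      have h1 := root_pow_add h.root 0 n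
      rw [zero_add] at h1
      rw [h1]
      exact hr0C
  refine TWS.descend_pm hD hop (nilp_of_gen p hop hgen hdesc) hnsd (fun φ hφ => ?_)
    (fun s => ?_) hm htow
  · refine opT_pres hroot PM.le EW.cld PM.le hCP hmemP ?_ hφ
    exact dns_two (fun n => rfl) h.tgt.root h.root hx0C hr0C bot_le hCP
  · obtain ⟨e, he, h1⟩ := hGdiv s
    exact ⟨e, hEP he, h1⟩

end Main

end Pool.Agent.TWC
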