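import Pool.Agent.Lib.TWC.PrG
import Pool.Agent.Lib.TWC.Lv0M

/-!
# TANK W, class I: tight pairs of any levels, the main row

* `dns_all`: the polynomials in the roots of `b` over a field which has all the real values are
  dense;
* `imm_pair`: the perfect closure of the base of a tight pair is immediate;
* `TP.core`: the descent from the perfect closure of `k(x, w)`, `(x, w)` a tight pair, of any
  levels, of `k(x, w)` and of `L`;
* `TP.main`: the tower over the closure of `k(x, w)` for the purely inseparable extensions of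
  exponent one, `(x, w)` a tight pair, of any levels, of `k(x, w)` and of the extension.
-/

set_option autoImplicit false

open Polynomial

namespace Pool.Agent.TWC

open Pool.Agent.H15JM (RVal)
open Pool.Agent.LU1 (VPos adj)
open Pool.Agent.D2 (Ctx0)
open Pool.Agent.D2P (hen clI mem_clI mem_adj_self)
open Pool.Agent.TWM
open Pool.Agent.TWS (TowR PM MonG RatV GK VG LimS limF mem_limF limF_cld)

universe u

variable {k Ω : Type u} [Field k] [Field Ω] [Algebra k Ω] {v : RVal Ω}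

/-! ### Density -/

section Dns

variable [hcx : Fact (Ctx0 k v)] {A E : IntermediateField k Ω}

/-- The inverses of the elements of `S` are limits of `S`, if `S` contains a field which has all
the real values. -/
theorem lim_inv {S : Subalgebra k Ω} (hAS : ∀ a ∈ A, a ∈ S)
    (hA : ∀ ρ : ℝ, ∃ a ∈ A, a ≠ 0 ∧ v a = ρ) :
    ∀ y ∈ S, y ≠ 0 → LimS v (S : Set Ω) y⁻¹ := by
  intro y hy hy0 b
  obtain ⟨a, ha, ha0, hav⟩ := hA (v y)
  obtain ⟨c, hc0, hc⟩ := hcx.out.res (y * a⁻¹) (mul_ne_zero hy0 (inv_ne_zero ha0)) (by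
    rw [v.map_mul hy0 (inv_ne_zero ha0), v.map_inv ha0, hav, add_neg_cancel])
  have hcΩ : algebraMap k Ω c ≠ 0 := (_root_.map_ne_zero _).2 hc0
  set t := algebraMap k Ω c * a with ht
  have htA : t ∈ A := mul_mem (A.algebraMap_mem c) ha
  have ht0 : t ≠ 0 := mul_ne_zero hcΩ ha0
  have htm : t⁻¹ ∈ S := hAS _ (inv_mem htA)
  set e := (t - y) * t⁻¹ with he
  have hem : e ∈ S := S.mul_mem (S.sub_mem (hAS _ htA) hy) htm
  have hev : y = t * (1 - e) := by
    rw [he]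
    field_simp
    ring
  have hy1 : v (algebraMap k Ω c) = 0 := hcx.out.triv c hc0
  have heg : Gt v 0 e := by
    have e1 : e = -((y * a⁻¹ - algebraMap k Ω c) * (algebraMap k Ω c)⁻¹) := by
      rw [he, ht]
      field_simp
      ring
    rw [e1]
    have h5 : Gt v 0 (y * a⁻¹ - algebraMap k Ω c) := hc
    have h6 := (h5.mul_ge (RVal.ge_self (v := v) (algebraMap k Ω c)⁻¹)).neg
    rwa [v.map_inv hcΩ, hy1, neg_zero, add_zero] at h6
  obtain ⟨δ, hδ, h6⟩ : ∃ δ : ℝ, 0 < δ ∧ v.Ge δ e := by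
    by_cases he0 : e = 0
    · exact ⟨1, one_pos, by rw [he0]; exact RVal.Ge.zero⟩
    · exact ⟨v e, heg he0, RVal.ge_self e⟩
  obtain ⟨n, hn⟩ := exists_nat_ge ((b + v y) / δ)
  refine ⟨t⁻¹ * ∑ i ∈ Finset.range n, e ^ i,
    S.mul_mem htm (S.sum_mem fun i _ => S.pow_mem hem i), ?_⟩
  have h8 : (1 - e) ≠ 0 := by
    intro h9
    rw [h9, mul_zero] at hev
    exact hy0 hev
  have h7 : y⁻¹ - t⁻¹ * ∑ i ∈ Finset.range n, e ^ i = y⁻¹ * e ^ n := by
    have h9 : (∑ i ∈ Finset.range n, e ^ i) * (1 - e) = 1 - e ^ n := by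
      have := geom_sum_mul e n
      linear_combination -this
    have h10 : ∑ i ∈ Finset.range n, e ^ i = (1 - e ^ n) / (1 - e) := by
      rw [eq_div_iff h8, h9]
    have h11 : y⁻¹ = t⁻¹ * (1 - e)⁻¹ := by
      rw [← mul_inv, ← hev]
    rw [h10, h11]
    field_simp
    ring
  rw [h7]
  have h12 : v.Ge (-v y) y⁻¹ := by
    intro _
    rw [v.map_inv hy0]
  refine (h12.mul (ge_pow h6 n)).mono ?_
  have h9 : b + v y ≤ n * δ := by
    rwa [div_le_iff₀ hδ] at hn
  linarith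

/-- The polynomials in the roots of `b` over a field which has all the real values are dense. -/
theorem dns_all {p : ℕ} {b : ℕ → Ω} (hb : ∀ n, b (n + 1) ^ p = b n)
    (hA : ∀ ρ : ℝ, ∃ a ∈ A, a ≠ 0 ∧ v a = ρ) (hAE : A ≤ E) (hbE : ∀ n, b n ∈ E)
    (hE : E ≤ EW v A b) : DnsS v (AU A (fun n => (fun _ : Fin 1 => b n))) E := by
  have hr : ∀ (n : ℕ) (l : Fin 1), (fun _ : Fin 1 => b (n + 1)) l ^ p = (fun _ : Fin 1 => b n) l :=
    fun n _ => hb n
  set U : ℕ → Fin 1 → Ω := fun n => (fun _ : Fin 1 => b n) with hU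
  obtain ⟨S, hS⟩ : ∃ S : Subalgebra k Ω, (S : Set Ω) = AU A U :=
    ⟨{ carrier := AU A U
       mul_mem' := AU.mul hr
       add_mem' := (AUs A hr).add_mem
       algebraMap_mem' := fun c => AU.base A U (A.algebraMap_mem c) }, rfl⟩
  have hmem : ∀ a, a ∈ S ↔ a ∈ AU A U := fun a => by rw [← hS]; rfl
  have hAS : ∀ a ∈ A, a ∈ S := fun a ha => (hmem a).2 (AU.base A U ha)
  have hI := lim_inv hAS hA
  have h1 : E ≤ limF v S hI := by
    refine hE.trans (EW_le (limF_cld hI) (fun a ha => ?_) fun n => ?_)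
    · exact LimS.of_mem (S := (S : Set Ω)) (hAS a ha)
    · exact LimS.of_mem (S := (S : Set Ω)) ((hmem _).2 (AU.gen A U n 0))
  intro x hx c
  obtain ⟨y, hy, h2⟩ := mem_limF.1 (h1 hx) c
  rw [hS] at hy
  exact ⟨y, hy, AU.mem hAE (fun n _ => hbE n) hy, h2⟩

end Dns

/-! ### The base of a pair -/

section Base

variable {p : ℕ} {x w : ℕ → Ω} {C : IntermediateField k Ω}

/-- The perfect closure of `k(x, w)`. -/
theorem ewew_eq
    (hC : C = cadj v (cadj v (⊥ : IntermediateField k Ω) (x 0)) (w 0)) :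
    EW v (EW v C x) w = EW v (EW v (⊥ : IntermediateField k Ω) x) w := by
  refine le_antisymm ?_ ?_
  · refine EW_le EW.cld (EW_le EW.cld ?_ fun n => EW.le (EW.mem n)) fun n => EW.mem n
    rw [hC]
    exact cadj_le EW.cld (cadj_le EW.cld bot_le (EW.le (EW.mem 0))) (EW.mem 0)
  · exact EW_le EW.cld (EW_le EW.cld bot_le fun n => EW.le (EW.mem n)) fun n => EW.mem n

theorem ewew_adj {u : ℕ → Fin 2 → Ω} (hu : ∀ n, u n = ![x n, w n]) :
    EW v (EW v C x) w = clI v (C ⊔ IntermediateField.adjoin k {y | ∃ n l, y = u n l}) := by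
  refine le_antisymm (EW_le (cld_clI v _) (EW_le (cld_clI v _) ?_ fun n => ?_) fun n => ?_)
    (clI_le' (sup_le (EW.le.trans EW.le) ?_) EW.cld)
  · exact le_sup_left.trans (self_le_clI v _)
  · refine self_le_clI v _ ((le_sup_right : _ ≤ C ⊔ _)
      (IntermediateField.subset_adjoin _ _ ⟨n, 0, ?_⟩))
    rw [hu]
    rfl
  · refine self_le_clI v _ ((le_sup_right : _ ≤ C ⊔ _)
      (IntermediateField.subset_adjoin _ _ ⟨n, 1, ?_⟩))
    rw [hu]
    rfl
  · rw [IntermediateField.adjoin_le_iff]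
    rintro _ ⟨n, l, rfl⟩
    rw [hu]
    fin_cases l
    · exact EW.le (EW.mem n)
    · exact EW.mem n

/-- The perfect closure is immediate if the values are divisible by `p`. -/
theorem imm_pair [hp : Fact p.Prime] [CharP Ω p] [hcx : Fact (Ctx0 k v)]
    (hx : ∀ n, x (n + 1) ^ p = x n) (hw : ∀ n, w (n + 1) ^ p = w n) (hx0 : x 0 ∈ C)
    (hw0 : w 0 ∈ C) (hdiv : ∀ g ∈ VG v C, g / p ∈ VG v C) : Imm v C (EW v (EW v C x) w) := by
  have hp0 : (0 : ℝ) < p := by exact_mod_cast hp.out.pos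
  have hroot : ∀ {z : ℕ → Ω}, (∀ n, z (n + 1) ^ p = z n) → z 0 ∈ C →
      ∀ n, z n ∈ clI v (pcl p C) := by
    intro z hz hz0 n
    have h1 := root_pow_add hz 0 n
    rw [zero_add] at h1
    have h2 : z n ∈ pcl p C := ⟨n, by rwa [h1]⟩
    exact self_le_clI v _ h2
  have hle : C ≤ pcl p C := fun a ha => ⟨0, by rwa [pow_zero, pow_one]⟩
  have h1 : EW v (EW v C x) w ≤ clI v (pcl p C) :=
    EW_le (cld_clI v _) (EW_le (cld_clI v _) (hle.trans (self_le_clI v _))
      (hroot hx hx0)) (hroot hw hw0)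
  have hj : ∀ (j : ℕ) (g : ℝ), (p : ℝ) ^ j * g ∈ VG v C → g ∈ VG v C := by
    intro j
    induction j with
    | zero =>
      intro g hg
      rwa [pow_zero, one_mul] at hg
    | succ j ih =>
      intro g hg
      have h2 := hdiv _ hg
      refine ih g ?_
      rwa [pow_succ, mul_assoc, mul_comm (p : ℝ) g, ← mul_assoc,
        mul_div_assoc, div_self hp0.ne', mul_one] at h2
  refine ⟨EW.le.trans EW.le, fun b hb hb0 => ?_⟩
  have h2 : v b ∈ VG v (clI v (pcl p C)) := VG.self (h1 hb) hb0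
  rw [TWS.VG.clI] at h2
  obtain ⟨j, h3⟩ := TWS.VG.pcl p C h2
  obtain ⟨a, ha, ha0, hav⟩ := hj j _ h3
  obtain ⟨c, hc0, hc⟩ := hcx.out.res (b * a⁻¹) (mul_ne_zero hb0 (inv_ne_zero ha0)) (by
    rw [v.map_mul hb0 (inv_ne_zero ha0), v.map_inv ha0, hav, add_neg_cancel])
  refine ⟨algebraMap k Ω c * a, mul_mem (C.algebraMap_mem c) ha, ?_⟩
  have h5 : Gt v 0 (b * a⁻¹ - algebraMap k Ω c) := hc
  have h6 := h5.mul_ge (RVal.ge_self (v := v) a)
  rw [zero_add, hav] at h6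
  rwa [show (b * a⁻¹ - algebraMap k Ω c) * a = b - algebraMap k Ω c * a by
    field_simp] at h6

end Base

section Main

variable {p m : ℕ} [hp : Fact p.Prime] [CharP k p] [CharP Ω p] [PerfectRing k p] [IsAlgClosed Ω]
  [hcx : Fact (Ctx0 k v)] {x w : ℕ → Ω} {r s : ℝ} {C P L L₀ : IntermediateField k Ω}

/-- **The purely inseparable step for towers over a perfect field**, any radii. -/
theorem tow_step' {M : ℝ → Ω} (hc : CompleteV v) (hm : m ≤ 2) (hM : MonG v P ⊤ M)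
    (hP : Cld v P) (hperf : ∀ a ∈ P, ∃ b ∈ P, b ^ p = a) (hT : TowR v m P (clI v (L₀ ⊔ P)))
    (hle : L₀ ≤ L) (hpow : ∀ a ∈ L, a ^ p ∈ L₀) : TowR v m P (clI v (L ⊔ P)) := by
  have h1 : TowR v m P (D2P.rootF p 1 (clI v (L₀ ⊔ P))) := by
    have := TWS.TowR.rootF p hT
    rwa [rootF_perf p hperf] at this
  have h2 : clI v (L ⊔ P) ≤ D2P.rootF p 1 (clI v (L₀ ⊔ P)) := by
    refine clI_le' (sup_le (fun a ha => ?_) (fun a ha => ?_)) (TWM.cld_rootF p (cld_clI v _))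
    · exact (TWM.mem_rootF1 p).2 (self_le_clI v _ ((le_sup_left : L₀ ≤ _) (hpow a ha)))
    · exact (TWM.mem_rootF1 p).2 (self_le_clI v _ ((le_sup_right : P ≤ _) (pow_mem ha p)))
  have h3 : ∀ a ∈ D2P.rootF p 1 (clI v (L₀ ⊔ P)), a ^ p ∈ clI v (L ⊔ P) := fun a ha =>
    clI_mono' (sup_le_sup_right hle P) ((TWM.mem_rootF1 p).1 ha)
  exact cstarR_le hm hc hM hperf h1 (cld_clI v _) h2 h3 hP

/-- **THE DESCENT FOR TIGHT PAIRS**, any levels. -/
theorem TP.core (hc : CompleteV v) (hM : ∃ M : ℝ → Ω, MS v ⊤ M) (hm : m ≤ 2)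
    (hv : v (x 0) ≠ 0) (hvr : v (x 0) < r)
    (hCe : C = cadj v (cadj v (⊥ : IntermediateField k Ω) (x 0)) (w 0))
    (hRat : RatV v C (v (x 0))) (hdiv : ∀ g ∈ VG v C, g / p ∈ VG v C)
    (hC : TP p v C x w r s) (hL : TP p v L x w r s) (hle : C ≤ L)
    (hT : TowR v m (EW v (EW v C x) w) (clI v (L ⊔ EW v (EW v C x) w))) : TowR v m C L := by
  have hx := hC.tgt.root
  have hw := hC.root
  have hx0C := hC.tgt.mem
  have hw0C := hC.mem
  have hx0 : x 0 ≠ 0 := by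
    intro h1
    have h2 : x 1 = 0 := by
      refine eq_zero_of_pow_eq_zero (n := p) ?_
      rw [hx 0, h1]
    refine (hC.tgt.dst 0).far ⟨0, zero_mem _, ?_⟩
    rw [zero_add, h2, sub_zero]
    exact fun h3 => absurd rfl h3
  obtain ⟨M₀, hM₀⟩ := hM
  obtain ⟨M, hMs, hMx⟩ := TWS.exists_MS hM₀ hx0 hv
  obtain ⟨Λ, hΛ⟩ := Submodule.exists_isCompl (Submodule.span ℚ {v (x 0)})
  have hMn : Mns v x M Λ := ⟨hMs, hMx, hΛ⟩
  set P : IntermediateField k Ω := EW v (EW v C x) w with hPd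
  have hPeq : P = EW v (EW v (⊥ : IntermediateField k Ω) x) w := ewew_eq hCe
  have hperf : ∀ a ∈ P, ∃ b ∈ P, b ^ p = a := by
    rw [hPeq]
    exact EW.perf p hc EW.cld (perf_EW0 hx) hw
  have hcldP : Cld v P := EW.cld
  have hcldC : Cld v C := hC.tgt.cld
  have hCP : C ≤ P := EW.le.trans EW.le
  have hiP : Imm v C P := imm_pair hx hw hx0C hw0C hdiv
  have hMC : MonG v C (GK p (v (x 0)) Λ) M :=
    TWS.monG_GK p hcx.out hMs hMx hΛ.disjoint hcldC hx0C hRat
  have hMP : MonG v P ⊤ M :=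
    TWS.monG_top p hcx.out hMs hMx hcldP hperf (hCP hx0C) (hRat.imm hiP)
  have hxM : ∀ n, x n = M (v (x 0) / p ^ n) := fun n => hMn.root hx n
  have hlim := hC.isoL.lim
  have H : PBase p v C P L (GK p (v (x 0)) Λ) M (fun n => ![x n, w n]) ![r, s] :=
    { mc := hMC
      cldC := hcldC
      le := hle
      isoL := hL.isoL
      base := fun l => by
        fin_cases l
        · exact hx0C
        · exact hw0C
      lim := hlim
      eq := ewew_adj fun n => rfl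
      perf := hperf
      imm := hiP.trans hT.imm
      vals := fun t => by
        obtain ⟨n, c, h1⟩ := exists_split p hΛ t
        refine ⟨x n ^ c, zpow_mem (EW.le (EW.mem n)) c, zpow_ne_zero c (root_ne hx hx0 n), _, h1,
          ?_⟩
        rw [v.map_zpow (root_ne hx hx0 n), val_root hx hx0 n]
        ring }
  refine H.core_pm hc hMs hΛ (b := w) (fun n => by rw [hxM n]) (fun g hg => hMP.mem g trivial hg)
    hvr ?_ hm hT
  refine dns_all hw (fun ρ => ⟨M ρ, PM.mon trivial, hMs.ne ρ trivial, hMs.val ρ trivial⟩) ?_ ?_ ?_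
  · exact bot_le_pm hMs (fun g hg => hMP.mem g trivial hg) H.vals
  · exact fun n => PM.le (EW.mem n)
  · refine PM.le_of EW.cld ?_ fun g _ => EW.le (PM.mon trivial)
    rw [hPeq]
    refine EW_le EW.cld (EW_le EW.cld bot_le fun n => EW.le ?_) fun n => EW.mem n
    rw [hxM n]
    exact PM.mon trivial

omit [CharP k p] [PerfectRing k p] hcx in
/-- The perfect closure of the base is algebraic. -/
theorem ewew_le_algc (hx : ∀ n, x (n + 1) ^ p = x n) (hw : ∀ n, w (n + 1) ^ p = w n)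
    (hx0 : x 0 ∈ C) (hw0 : w 0 ∈ C) : EW v (EW v C x) w ≤ clI v (algc C) :=
  EW_le (cld_clI v _) (EW.le_algc hx hx0) fun n => EW.le_algc hw hw0 (EW.mem n)

omit [CharP k p] in
/-- `MonG` for the perfect closure of the base. -/
theorem exists_monG_pair (hc : CompleteV v) (hM : ∃ M : ℝ → Ω, MS v ⊤ M)
    (hv : v (x 0) ≠ 0) (hx0 : x 0 ≠ 0)
    (hCe : C = cadj v (cadj v (⊥ : IntermediateField k Ω) (x 0)) (w 0))
    (hRat : RatV v C (v (x 0))) (hdiv : ∀ g ∈ VG v C, g / p ∈ VG v C)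
    (hx : ∀ n, x (n + 1) ^ p = x n) (hw : ∀ n, w (n + 1) ^ p = w n) (hx0C : x 0 ∈ C)
    (hw0C : w 0 ∈ C) : (∀ a ∈ EW v (EW v C x) w, ∃ b ∈ EW v (EW v C x) w, b ^ p = a) ∧
      ∃ M : ℝ → Ω, MonG v (EW v (EW v C x) w) ⊤ M := by
  have hperf : ∀ a ∈ EW v (EW v C x) w, ∃ b ∈ EW v (EW v C x) w, b ^ p = a := by
    rw [ewew_eq hCe]
    exact EW.perf p hc EW.cld (perf_EW0 hx) hw
  obtain ⟨M₀, hM₀⟩ := hM
  obtain ⟨M, hMs, hMx⟩ := TWS.exists_MS hM₀ hx0 hv
  exact ⟨hperf, M, TWS.monG_top p hcx.out hMs hMx EW.cld hperf (EW.le (EW.le hx0C))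
    (hRat.imm (imm_pair hx hw hx0C hw0C hdiv))⟩

/-- **THE MAIN ROW FOR TIGHT PAIRS**, any levels. -/
theorem TP.main (hc : CompleteV v) (hM : ∃ M : ℝ → Ω, MS v ⊤ M) (hm : m ≤ 2)
    (hv : v (x 0) ≠ 0) (hvr : v (x 0) < r)
    (hCe : C = cadj v (cadj v (⊥ : IntermediateField k Ω) (x 0)) (w 0))
    (hRat : RatV v C (v (x 0))) (hdiv : ∀ g ∈ VG v C, g / p ∈ VG v C)
    (hC : TP p v C x w r s) (hT : TowR v m C L₀) (hL : TP p v L x w r s) (hle : L₀ ≤ L)
    (hpow : ∀ a ∈ L, a ^ p ∈ L₀) : TowR v m C L := by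
  have hx := hC.tgt.root
  have hw := hC.root
  have hx0C := hC.tgt.mem
  have hw0C := hC.mem
  have hx0 : x 0 ≠ 0 := by
    intro h1
    have h2 : x 1 = 0 := by
      refine eq_zero_of_pow_eq_zero (n := p) ?_
      rw [hx 0, h1]
    refine (hC.tgt.dst 0).far ⟨0, zero_mem _, ?_⟩
    rw [zero_add, h2, sub_zero]
    exact fun h3 => absurd rfl h3
  obtain ⟨hperf, M, hMP⟩ := exists_monG_pair hc hM hv hx0 hCe hRat hdiv hx hw hx0C hw0C
  have hT1 := hT.base (EW.le.trans EW.le) EW.cld (ewew_le_algc (v := v) hx hw hx0C hw0C)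
  have hT2 := tow_step' hc hm hMP EW.cld hperf hT1 hle hpow
  exact TP.core hc hM hm hv hvr hCe hRat hdiv hC hL (hT.le.trans hle) hT2

end Main

end Pool.Agent.TWC
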