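import Pool.Agent.Lib.TWC.TPx
import Pool.Agent.Lib.TWC.MainP

/-!
# TANK W, class I: tight pairs of any levels, the exit

* `mainP`: the main row `MainP p k m`, `m ≤ 2`;
* `hrone_of_tp0`, `hrone_of_tpc0`: `HRone` from a tight pair of the base of a tower.
-/

set_option autoImplicit false

open Polynomial

namespace Pool.Agent.TWC

open Pool.Agent.H15JM (RVal)
open Pool.Agent.LU1 (VPos adj)
open Pool.Agent.D2 (Ctx0)
open Pool.Agent.D2P (hen clI mem_clI mem_adj_self)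
open Pool.Agent.TWM
open Pool.Agent.TWS (TowR)
open Pool.Agent.TW (Ctx Full BD HRone LU)

universe u

/-- **THE MAIN ROW FOR TIGHT PAIRS.** -/
theorem mainP (p : ℕ) [hp : Fact p.Prime] (k : Type u) [Field k] [IsAlgClosed k] [CharP k p]
    {m : ℕ} (hm : m ≤ 2) : MainP p k m := by
  intro H _ _ _ _ v h0 hc _ hval L₀ L x w r s hv hvr _ hRat hdiv hC hT hL hle hpow
  have : Fact (Ctx0 k v) := ⟨h0⟩
  have : PerfectRing k p := PerfectField.toPerfectRing p
  exact TP.main hc (exists_ms hval) hm hv hvr rfl hRat hdiv hC hT hL hle hpow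

variable {k Ω : Type u} [Field k] [Field Ω] [Algebra k Ω] {v : RVal Ω} [IsAlgClosed k]
  [IsAlgClosed Ω] (p : ℕ) [hp : Fact p.Prime] [CharP k p] [CharP Ω p]

/-- **`HRone` from a tight pair of the base of a tower**, `Ω` complete. -/
theorem hrone_of_tp0 (h : Ctx k v 1) (hcv : CompleteV v) {m : ℕ} (hm1 : 1 ≤ m)
    (hm : m ≤ 2) {K₀ : IntermediateField k Ω} (hK : K₀.FG)
    (hfull : Full v K₀) (htr : Algebra.trdeg k K₀ = (m + 2 : ℕ)) (hBDK : BD p v K₀) {al : Ω}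
    (hal : al ^ p ∈ K₀) (hBD : BD p v (adj K₀ al)) {x w : ℕ → Ω} {r s : ℝ} (hv : v (x 0) ≠ 0)
    (hvr : v (x 0) < r) (hC : TP p v (CP (k := k) v (x 0) (w 0)) x w r s)
    (hT : TowR v m (CP (k := k) v (x 0) (w 0)) (clI v K₀))
    (htrC : Transcendental (adj (⊥ : IntermediateField k Ω) (x 0)) (w 0)) :
    HRone v (adj K₀ al) :=
  hrone_of_tp h hcv hm1 hm (mainP p k hm) hK hfull htr hBDK hal hBD hv hvr hC hT htrC

/-- **`HRone` from a tight pair of the base of a tower.** -/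
theorem hrone_of_tpc0 (h : Ctx k v 1) {m : ℕ} (hm1 : 1 ≤ m)
    (hm : m ≤ 2) {K₀ : IntermediateField k Ω} (hK : K₀.FG)
    (hfull : Full v K₀) (htr : Algebra.trdeg k K₀ = (m + 2 : ℕ)) (hBDK : BD p v K₀) {al : Ω}
    (hal : al ^ p ∈ K₀) (hBD : BD p v (adj K₀ al)) (ht : TPc p v m K₀) :
    HRone v (adj K₀ al) :=
  hrone_of_tpc h hm1 hm (mainP p k hm) hK hfull htr hBDK hal hBD ht

end Pool.Agent.TWC
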