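import Pool.Agent.Lib.TWC.TPx
import Pool.Agent.Lib.TWC.MainP

/-!
# TANK W, class I: tight pairs over any base, the main row and the exit

`C` closed, `(x, w)` a tight pair of `C`, `P = EW v (EW v C x) w` perfect. No condition on the
field of the elements of `C` algebraic over `k(x)`.
* `NsdAt`: the property `V'` for the operators of the pair;
* `TP.coreW`: the descent of towers from `P` to `C`;
* `TP.mainW`: the tower over `C` for the purely inseparable extensions of exponent one;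
* `nsdAt_of_pm`: `V'` if `C` is contained in the closed field generated by `w` and by the pure
  monomials; `nsdAt_tame`: the case of `C = W<w>`, `W` generated by roots of `x`;
* `hrone_of_tpW`: `HRone` for `K₀(al)`, `clI v K₀` a tower over `C`, from the main row.
-/

set_option autoImplicit false

open Polynomial

namespace Pool.Agent.TWC

open Pool.Agent.H15JM (RVal)
open Pool.Agent.LU1 (VPos adj)
open Pool.Agent.D2 (Ctx0)
open Pool.Agent.D2P (hen clI mem_clI mem_adj_self)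
open Pool.Agent.TWM
open Pool.Agent.TWS (TowR PM MonG RatV GK VG IsoE HF hv)
open Pool.Agent.TW (Ctx Full BD HRone LU)

universe u

variable {k Ω : Type u} [Field k] [Field Ω] [Algebra k Ω] {v : RVal Ω}

section Main

variable {p m : ℕ} [hp : Fact p.Prime] [CharP k p] [CharP Ω p] [PerfectRing k p] [IsAlgClosed Ω]
  [hcx : Fact (Ctx0 k v)] {x w : ℕ → Ω} {r s : ℝ} {C P L L₀ : IntermediateField k Ω}

omit [PerfectRing k p] hcx in
/-- The first letter is `≠ 0`. -/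
theorem TP.x_ne (hC : TP p v C x w r s) : x 0 ≠ 0 := ne_zero_of_far hC.tgt.root (hC.tgt.dst 0).far

/-- **The property `V'`** for the operators of the pair `(x, w)`, with pure monomials. -/
def NsdAt (p : ℕ) [Fact p.Prime] [CharP k p] [CharP Ω p] [PerfectRing k p] (v : RVal Ω)
    [Fact (Ctx0 k v)] (hc : CompleteV v) (C L : IntermediateField k Ω) (x w : ℕ → Ω) (r s : ℝ) :
    Prop :=
  ∀ (M : ℝ → Ω) (Λ : Submodule ℚ ℝ), Mns v x M Λ →
    (∀ g ∈ VG v (EW v (EW v C x) w), M g ∈ EW v (EW v C x) w) →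
    ∀ D : PDat p v (PM v C (GK p (v (x 0)) Λ) M) (PM v L (GK p (v (x 0)) Λ) M)
      (PM v (EW v (EW v C x) w) (GK p (v (x 0)) Λ) M) (fun n => ![x n, w n])
      (fun n l => M ((![r, s] : Fin 2 → ℝ) l / p ^ n)) ![r, s], NSD p (D.oper hc)

/-- **THE DESCENT FOR TIGHT PAIRS**, any levels, any base. -/
theorem TP.coreW (hc : CompleteV v) (hM : ∃ M : ℝ → Ω, MS v ⊤ M) (hm : m ≤ 2)
    (hv : v (x 0) ≠ 0)
    (hperf : ∀ a ∈ EW v (EW v C x) w, ∃ b ∈ EW v (EW v C x) w, b ^ p = a)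
    (hRat : RatV v C (v (x 0))) (hdiv : ∀ g ∈ VG v C, g / p ∈ VG v C)
    (hC : TP p v C x w r s) (hL : TP p v L x w r s) (hle : C ≤ L)
    (hN : NsdAt p v hc C L x w r s)
    (hT : TowR v m (EW v (EW v C x) w) (clI v (L ⊔ EW v (EW v C x) w))) : TowR v m C L := by
  have hx := hC.tgt.root
  have hw := hC.root
  have hx0C := hC.tgt.mem
  have hw0C := hC.mem
  have hx0 : x 0 ≠ 0 := hC.x_ne
  obtain ⟨M₀, hM₀⟩ := hM
  obtain ⟨M, hMs, hMx⟩ := TWS.exists_MS hM₀ hx0 hv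
  obtain ⟨Λ, hΛ⟩ := Submodule.exists_isCompl (Submodule.span ℚ {v (x 0)})
  have hMn : Mns v x M Λ := ⟨hMs, hMx, hΛ⟩
  set P : IntermediateField k Ω := EW v (EW v C x) w with hPd
  have hcldP : Cld v P := EW.cld
  have hcldC : Cld v C := hC.tgt.cld
  have hCP : C ≤ P := EW.le.trans EW.le
  have hiP : Imm v C P := imm_pair hx hw hx0C hw0C hdiv
  have hMC : MonG v C (GK p (v (x 0)) Λ) M :=
    TWS.monG_GK p hcx.out hMs hMx hΛ.disjoint hcldC hx0C hRat
  have hMP : MonG v P ⊤ M :=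
    TWS.monG_top p hcx.out hMs hMx hcldP hperf (hCP hx0C) (hRat.imm hiP)
  have hMP' : ∀ g ∈ VG v P, M g ∈ P := fun g hg => hMP.mem g trivial hg
  have H : PBase p v C P L (GK p (v (x 0)) Λ) M (fun n => ![x n, w n]) ![r, s] :=
    { mc := hMC
      cldC := hcldC
      le := hle
      isoL := hL.isoL
      base := fun l => by
        fin_cases l
        · exact hx0C
        · exact hw0C
      lim := hC.isoL.lim
      eq := ewew_adj fun n => rfl
      perf := hperf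
      imm := hiP.trans hT.imm
      vals := fun t => by
        obtain ⟨n, c, h1⟩ := exists_split p hΛ t
        refine ⟨x n ^ c, zpow_mem (EW.le (EW.mem n)) c, zpow_ne_zero c (root_ne hx hx0 n), _, h1,
          ?_⟩
        rw [v.map_zpow (root_ne hx hx0 n), val_root hx hx0 n]
        ring }
  have hp0 : (p : ℝ) ≠ 0 := by exact_mod_cast hp.out.ne_zero
  have htop : ∀ g : ℝ, g ∈ (⊤ : AddSubgroup ℝ) := AddSubgroup.mem_top
  have hcH : ∀ (n : ℕ) (l : Fin 2), Hg P (GK p (v (x 0)) Λ) M (M ((![r, s] : Fin 2 → ℝ) l / p ^ n)) :=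
    fun n l => Hg.of_top hMs hMP' H.vals _
  have D : PDat p v (PM v C (GK p (v (x 0)) Λ) M) (PM v L (GK p (v (x 0)) Λ) M)
      (PM v P (GK p (v (x 0)) Λ) M) (fun n => ![x n, w n])
      (fun n l => M ((![r, s] : Fin 2 → ℝ) l / p ^ n)) ![r, s] := by
    refine H.pdat hcx.out hc hcH (fun n l => ?_) fun n l => hMs.val _ (htop _)
    rw [← hMs.pow (htop _) p, pow_succ]
    congr 1
    field_simp
  exact H.core hc hcH D (hN M Λ hMn hMP' D) hm hT

omit [CharP k p] [PerfectRing k p] in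
/-- `MonG` for the perfect closure of the base. -/
theorem exists_monG_pairW (hM : ∃ M : ℝ → Ω, MS v ⊤ M) (hv : v (x 0) ≠ 0)
    (hx0 : x 0 ≠ 0) (hperf : ∀ a ∈ EW v (EW v C x) w, ∃ b ∈ EW v (EW v C x) w, b ^ p = a)
    (hRat : RatV v C (v (x 0))) (hdiv : ∀ g ∈ VG v C, g / p ∈ VG v C)
    (hx : ∀ n, x (n + 1) ^ p = x n) (hw : ∀ n, w (n + 1) ^ p = w n) (hx0C : x 0 ∈ C)
    (hw0C : w 0 ∈ C) : ∃ M : ℝ → Ω, MonG v (EW v (EW v C x) w) ⊤ M := by
  obtain ⟨M₀, hM₀⟩ := hM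
  obtain ⟨M, hMs, hMx⟩ := TWS.exists_MS hM₀ hx0 hv
  exact ⟨M, TWS.monG_top p hcx.out hMs hMx EW.cld hperf (EW.le (EW.le hx0C))
    (hRat.imm (imm_pair hx hw hx0C hw0C hdiv))⟩

/-- **THE MAIN ROW FOR TIGHT PAIRS**, any levels, any base. -/
theorem TP.mainW (hc : CompleteV v) (hM : ∃ M : ℝ → Ω, MS v ⊤ M) (hm : m ≤ 2)
    (hv : v (x 0) ≠ 0)
    (hperf : ∀ a ∈ EW v (EW v C x) w, ∃ b ∈ EW v (EW v C x) w, b ^ p = a)
    (hRat : RatV v C (v (x 0))) (hdiv : ∀ g ∈ VG v C, g / p ∈ VG v C)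
    (hC : TP p v C x w r s) (hN : NsdAt p v hc C L x w r s) (hT : TowR v m C L₀)
    (hL : TP p v L x w r s) (hle : L₀ ≤ L) (hpow : ∀ a ∈ L, a ^ p ∈ L₀) : TowR v m C L := by
  have hx := hC.tgt.root
  have hw := hC.root
  have hx0C := hC.tgt.mem
  have hw0C := hC.mem
  obtain ⟨M, hMP⟩ := exists_monG_pairW hM hv hC.x_ne hperf hRat hdiv hx hw hx0C hw0C
  have hT1 := hT.base (EW.le.trans EW.le) EW.cld (ewew_le_algc (v := v) hx hw hx0C hw0C)
  have hT2 := tow_step' hc hm hMP EW.cld hperf hT1 hle hpow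
  exact TP.coreW hc hM hm hv hperf hRat hdiv hC hL (hT.le.trans hle) hN hT2

/-! ### `V'` with pure monomials -/

/-- `V'` if `C` is contained in the closed field generated by `w` and by the pure monomials. -/
theorem nsdAt_of_pm (hc : CompleteV v) (hC : TP p v C x w r s) (hvr : v (x 0) < r)
    (hCM : ∀ M : ℝ → Ω, MS v ⊤ M → M (v (x 0)) = x 0 →
      C ≤ EW v (PM v (⊥ : IntermediateField k Ω) ⊤ M) w) : NsdAt p v hc C L x w r s := by
  intro M Λ hMn hMP D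
  have hx := hC.tgt.root
  have hw := hC.root
  have hx0 : x 0 ≠ 0 := hC.x_ne
  have hxM : ∀ n, x n = M (v (x 0) / p ^ n) := fun n => hMn.root hx n
  have hvals : ∀ t : ℝ, ∃ e ∈ EW v (EW v C x) w, e ≠ 0 ∧
      ∃ g ∈ GK p (v (x 0)) Λ, v e + g = t := by
    intro t
    obtain ⟨n, c, h1⟩ := exists_split p hMn.compl t
    refine ⟨x n ^ c, zpow_mem (EW.le (EW.mem n)) c, zpow_ne_zero c (root_ne hx hx0 n), _, h1, ?_⟩
    rw [v.map_zpow (root_ne hx hx0 n), val_root hx hx0 n]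
    ring
  refine D.nsd_pm hc hMn.ms hMn.compl (b := w) (fun n => by rw [hxM n]) (fun _ _ => rfl)
    (fun g hg => PM.mon hg) hvr (bot_le_pm hMn.ms hMP hvals) ?_
  refine dns_all hw (fun ρ => ⟨M ρ, PM.mon trivial, hMn.ms.ne ρ trivial, hMn.ms.val ρ trivial⟩)
    (bot_le_pm hMn.ms hMP hvals) (fun n => PM.le (EW.mem n)) ?_
  refine PM.le_of EW.cld ?_ fun g _ => EW.le (PM.mon trivial)
  refine EW_le EW.cld (EW_le EW.cld (hCM M hMn.ms hMn.x0) fun n => EW.le ?_) fun n => EW.mem n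
  rw [hxM n]
  exact PM.mon trivial

omit hp [CharP k p] [CharP Ω p] [PerfectRing k p] [IsAlgClosed Ω] hcx in
/-- The roots of `x` are constant multiples of monomials. -/
theorem root_mem_pm [IsAlgClosed k] {a f : Ω} (ha : a ≠ 0) {M : ℝ → Ω} (hM : MS v ⊤ M)
    (hMa : M (v a) = a) {n : ℕ} (hn : n ≠ 0) (hf : f ^ n = a) :
    f ∈ PM v (⊥ : IntermediateField k Ω) ⊤ M := by
  have htop : ∀ g : ℝ, g ∈ (⊤ : AddSubgroup ℝ) := AddSubgroup.mem_top
  have hn' : (n : ℝ) ≠ 0 := by exact_mod_cast hn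
  have h1 : M (v a / n) ^ n = a := by
    rw [← hM.pow (htop _) n, mul_div_cancel₀ _ hn', hMa]
  have hM0 : M (v a / n) ≠ 0 := hM.ne _ (htop _)
  have h2 : (f / M (v a / n)) ^ n = 1 := by
    rw [div_pow, hf, h1, div_self ha]
  have h3 : f / M (v a / n) ∈ (⊥ : IntermediateField k Ω) := by
    have hal : IsAlgebraic k (f / M (v a / n)) := by
      refine ⟨X ^ n - 1, ?_, ?_⟩
      · exact (monic_X_pow_sub_C (1 : k) hn).ne_zero
      · rw [map_sub, map_pow, aeval_X, map_one, h2, sub_self]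
    have h4 : Algebra.IsAlgebraic k (IntermediateField.adjoin k {f / M (v a / n)}) :=
      IntermediateField.isAlgebraic_adjoin_simple hal.isIntegral
    rw [← IntermediateField.eq_bot_of_isAlgClosed_of_isAlgebraic
      (IntermediateField.adjoin k {f / M (v a / n)})]
    exact IntermediateField.mem_adjoin_simple_self k _
  have h4 : f = (f / M (v a / n)) * M (v a / n) := by
    rw [div_mul_cancel₀ _ hM0]
  rw [h4]
  exact mul_mem (PM.le h3) (PM.mon trivial)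

/-- **`V'` for a tame base**: `C = W<w>`, `W` generated by roots of `x`. -/
theorem nsdAt_tame [IsAlgClosed k] (hc : CompleteV v) (hC : TP p v C x w r s)
    (hvr : v (x 0) < r) {W : IntermediateField k Ω} (hCe : C = cadj v W (w 0))
    (hW : W ≤ clI v (IntermediateField.adjoin k {f : Ω | ∃ n : ℕ, n ≠ 0 ∧ f ^ n = x 0})) :
    NsdAt p v hc C L x w r s := by
  refine nsdAt_of_pm (L := L) hc hC hvr fun M hM hMx => ?_
  rw [hCe]
  refine cadj_le EW.cld (hW.trans (clI_le' (IntermediateField.adjoin_le_iff.2 ?_) EW.cld))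
    (EW.mem 0)
  rintro f ⟨n, hn, hf⟩
  exact EW.le (root_mem_pm hC.x_ne hM hMx hn hf)

/-! ### The perfect closure of the base -/

omit [CharP k p] [PerfectRing k p] [IsAlgClosed Ω] hcx in
/-- A field generated by `p`-th powers of its elements is perfect. -/
theorem perf_sup' {A : IntermediateField k Ω} {S : Set Ω}
    (hA : ∀ a ∈ A, ∃ b ∈ A ⊔ IntermediateField.adjoin k S, b ^ p = a)
    (hS : ∀ s ∈ S, ∃ b ∈ A ⊔ IntermediateField.adjoin k S, b ^ p = s) :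
    ∀ a ∈ A ⊔ IntermediateField.adjoin k S, ∃ b ∈ A ⊔ IntermediateField.adjoin k S,
      b ^ p = a := by
  set K := A ⊔ IntermediateField.adjoin k S with hK
  have hk : ∀ x : k, algebraMap k Ω x ∈ K.toSubfield.map (frobenius Ω p) := fun x =>
    hA _ (A.algebraMap_mem x)
  set K' : IntermediateField k Ω := Subfield.toIntermediateField
    (K.toSubfield.map (frobenius Ω p)) hk with hK'
  have h1 : ∀ x, x ∈ K' ↔ ∃ b ∈ K, b ^ p = x := fun x => by
    change (∃ b ∈ K, frobenius Ω p b = x) ↔ ∃ b ∈ K, b ^ p = x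
    exact Iff.rfl
  have h2 : K ≤ K' := by
    rw [hK]
    exact sup_le (fun x hx => (h1 x).2 (hA x hx)) (IntermediateField.adjoin_le_iff.2 fun x hx =>
      (h1 x).2 (hS x hx))
  exact fun a ha => (h1 a).1 (h2 ha)

omit [CharP k p] [PerfectRing k p] hcx in
/-- `P = EW v (EW v C x) w` is perfect if `C = W<w>` and `W ^ (1 / p) ≤ W(x 1)`. -/
theorem perf_pairW (hc : CompleteV v) {W : IntermediateField k Ω}
    (hx : ∀ n, x (n + 1) ^ p = x n) (hw : ∀ n, w (n + 1) ^ p = w n)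
    (hCe : C = cadj v W (w 0)) (hW : ∀ a ∈ W, ∃ Q ∈ PI W, (Q.eval (x 1)) ^ p = a) :
    ∀ a ∈ EW v (EW v C x) w, ∃ b ∈ EW v (EW v C x) w, b ^ p = a := by
  have e1 : EW v (EW v C x) w = EW v (EW v W x) w := by
    refine le_antisymm ?_ ?_
    · refine EW_le EW.cld (EW_le EW.cld ?_ fun n => EW.le (EW.mem n)) fun n => EW.mem n
      rw [hCe]
      exact cadj_le EW.cld (EW.le.trans EW.le) (EW.mem 0)
    · refine EW_le EW.cld (EW_le EW.cld ?_ fun n => EW.le (EW.mem n)) fun n => EW.mem n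
      refine le_trans ?_ (EW.le.trans EW.le)
      rw [hCe]
      exact le_cadj v W (w 0)
  rw [e1]
  have h1 : ∀ a ∈ EW v W x, ∃ b ∈ EW v W x, b ^ p = a := by
    refine perf_clI p (perf_sup' (fun a ha => ?_) ?_)
    · obtain ⟨Q, hQ, h2⟩ := hW a ha
      refine ⟨_, ?_, h2⟩
      rw [eval_eq_sum_range]
      refine sum_mem fun i _ => mul_mem ((le_sup_left : W ≤ _) (hQ i)) (pow_mem ?_ i)
      exact (le_sup_right : IntermediateField.adjoin k (Set.range x) ≤ _)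
        (IntermediateField.subset_adjoin k _ ⟨1, rfl⟩)
    · rintro _ ⟨n, rfl⟩
      exact ⟨x (n + 1), (le_sup_right : IntermediateField.adjoin k (Set.range x) ≤ _)
        (IntermediateField.subset_adjoin k _ ⟨n + 1, rfl⟩), hx n⟩
  exact EW.perf p hc EW.cld h1 hw

end Main

/-! ### The exit -/

section Exit

variable {p : ℕ} [hp : Fact p.Prime] [CharP k p] [CharP Ω p] [IsAlgClosed Ω]
  {x w : ℕ → Ω} {r s : ℝ} {C : IntermediateField k Ω}

/-- The main row at `(C; x, w)`. -/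
def MainAt (p : ℕ) (v : RVal Ω) (m : ℕ) (C : IntermediateField k Ω) (x w : ℕ → Ω) (r s : ℝ) :
    Prop :=
  ∀ L₀ L : IntermediateField k Ω, TowR v m C L₀ → TP p v L x w r s → L₀ ≤ L →
    (∀ a ∈ L, a ^ p ∈ L₀) → TowR v m C L

/-- The main row at the isometric images in the Hahn field. -/
def MainAtH (p : ℕ) (v : RVal Ω) (m : ℕ) (C : IntermediateField k Ω) (x w : ℕ → Ω) (r s : ℝ) :
    Prop :=
  ∀ φ : Ω →ₐ[k] HF k, IsoE v (hv k) φ →
    MainAt p (hv k) m (C.map φ) (fun n => φ (x n)) (fun n => φ (w n)) r s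

omit hp [CharP k p] [CharP Ω p] in
theorem MainAtH.main [IsAlgClosed k] (h0 : Ctx0 k v) (hcv : CompleteV v) {m : ℕ} (h : MainAtH p v m C x w r s) :
    MainAt p v m C x w r s := by
  intro L₀ L hT hL hle hpow
  obtain ⟨φ, hφ⟩ := TWS.exists_emb h0
  have hI : IsoE v (hv k) φ := ⟨hφ⟩
  have h1 := h φ hI (L₀.map φ) (L.map φ) (towR_map hI hcv hT) (tp_map hI hcv hL)
    (IntermediateField.map_mono φ hle) (by
      rintro _ ⟨a, ha, rfl⟩
      exact ⟨a ^ p, hpow a ha, map_pow φ a p⟩)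
  exact towR_of_map hI hcv h1

/-- **`HRone` from a tight pair of the base**, any base, `Ω` complete. -/
theorem hrone_of_tpW [IsAlgClosed k] (h : Ctx k v 1) (hcv : CompleteV v) {m : ℕ} (hm1 : 1 ≤ m)
    {K₀ : IntermediateField k Ω} (hK : K₀.FG)
    (hfull : Full v K₀) (htr : Algebra.trdeg k K₀ = (m + 2 : ℕ)) (hBDK : BD p v K₀) {al : Ω}
    (hal : al ^ p ∈ K₀) (hBD : BD p v (adj K₀ al)) {C₁ : IntermediateField k Ω} (hC₁ : C₁.FG)
    (htr₁ : Algebra.trdeg k C₁ = (2 : ℕ)) (hCe : C = clI v C₁) (hm : m ≤ 2)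
    (hv : v (x 0) ≠ 0) (hvr : v (x 0) < r) (hC : TP p v C x w r s) (hT : TowR v m C (clI v K₀))
    (hMain : MainAt p v m C x w r s) : HRone v (adj K₀ al) := by
  have hp0 : 0 < p := hp.out.pos
  have h0 : Ctx0 k v := h.toCtx0
  have hx0 : x 0 ≠ 0 := hC.x_ne
  obtain ⟨n, rfl⟩ : ∃ n, m = n + 1 := ⟨m - 1, by omega⟩
  have hx := hC.towR hT
  have hVK := pdiv_of_lim h hx.tgt.root hx0 hv hvr hx.lim_x
  have hLU : ∀ E : IntermediateField k Ω, E.FG → Full v E →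
      Algebra.trdeg k E = (1 + (n + 1) : ℕ) → BD p v E → LU p v 1 E := by
    intro K hK hKf htK hBDK
    exact TWJ.lu_bd_two p h (TWJ.stepAll p k 1) (by omega) hK hKf htK hBDK
  -- the last floor
  obtain ⟨N, y, t, hTN, hy, hcl⟩ := hT.last hC.tgt.cld
  rw [hCe] at hTN
  obtain ⟨F, hF, hAF, hFt, rfl⟩ := tower_fg hC₁ htr₁ hTN
  have hxF : x 0 ∈ clI v F := hTN.le (hCe ▸ hC.tgt.mem)
  have hwF : w 0 ∈ clI v F := hTN.le (hCe ▸ hC.mem)
  have hFf : Full v F := by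
    obtain ⟨a, ha, h1⟩ := mem_clI.1 hxF (v (x 0) + 1)
    have h2 : Gt v (v (x 0)) (x 0 - a) := fun h3 => lt_of_lt_of_le (by linarith) (h1 h3)
    obtain ⟨h3, h4⟩ := Gt.val_eq hx0 h2
    exact full_of_mem h ha h3 (by rw [h4]; exact hv)
  rcases tp_step h hcv hLU hK hfull (by rw [htr]; congr 1; omega) hBDK hal hBD hF hFf
    (by rw [hFt]; congr 1; omega) hy hcl hVK hx hxF hwF with h1 | h1
  · exact h1
  · have hle : clI v K₀ ≤ clI v (adj K₀ al) := clI_mono' fun a ha => (mem_adj_self K₀ al).2 ha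
    have h2 := hMain _ _ hT h1 hle (pow_mem_clI p (TWJ.pow_mem_of_adj1 p hal))
    have htg : Algebra.trdeg k (adj K₀ al) = (1 + (n + 1) + 1 : ℕ) := by
      refine (TW.trdeg_eq_of_alg (mem_adj_self K₀ al).2 (D2P.isAlgebraic_sup {al} ?_)).trans
        (htr.trans ?_)
      · rintro s rfl
        exact D2P.isAlgebraic_of_pow hp0 (D2P.isAlgebraic_of_mem hal)
      · congr 1
        omega
    obtain ⟨N', y', t', hTN', hy', hcl'⟩ := h2.last hC.tgt.cld
    rw [hCe] at hTN'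
    obtain ⟨F', hF', hAF', hFt', rfl⟩ := tower_fg hC₁ htr₁ hTN'
    have hFf' : Full v F' := by
      obtain ⟨a, ha, h3⟩ := mem_clI.1 (hTN'.le (hCe ▸ hC.tgt.mem)) (v (x 0) + 1)
      have h4 : Gt v (v (x 0)) (x 0 - a) := fun h5 => lt_of_lt_of_le (by linarith) (h3 h5)
      obtain ⟨h5, h6⟩ := Gt.val_eq hx0 h4
      exact full_of_mem h ha h5 (by rw [h6]; exact hv)
    refine TWJ.exitg p h hcv (D := n + 1) hLU (D2P.fg_adj hK al) (hfull.mono (mem_adj_self K₀ al).2)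
      htg hBD hF' hFf' (by rw [hFt']; congr 1; omega) (X₂ := y') ?_
    rw [hcl']
    exact clI_adj_clI

end Exit

/-! ### Tame bases -/

section Tame

variable {p : ℕ} [hp : Fact p.Prime] [CharP k p] [CharP Ω p] [IsAlgClosed Ω] [IsAlgClosed k]
  {x w : ℕ → Ω} {r s : ℝ} {C W : IntermediateField k Ω}

omit [IsAlgClosed k] [IsAlgClosed Ω] [CharP k p] [CharP Ω p] hp in
/-- The `p`-th roots of the elements of `W`, transported. -/
theorem root_map {Ω' : Type u} [Field Ω'] [Algebra k Ω'] {φ : Ω →ₐ[k] Ω'}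
    (hW : ∀ a ∈ W, ∃ Q ∈ PI W, (Q.eval (x 1)) ^ p = a) :
    ∀ a ∈ W.map φ, ∃ Q ∈ PI (W.map φ), (Q.eval (φ (x 1))) ^ p = a := by
  rintro _ ⟨a, ha, rfl⟩
  obtain ⟨Q, hQ, h1⟩ := hW a ha
  refine ⟨Q.map (φ : Ω →+* Ω'), fun i => ?_, ?_⟩
  · rw [coeff_map]
    exact ⟨_, hQ i, rfl⟩
  · have h2 : (Q.map (φ : Ω →+* Ω')).eval (φ (x 1)) = φ (Q.eval (x 1)) :=
      Polynomial.eval_map_apply (φ : Ω →+* Ω') (x 1)
    rw [h2, ← map_pow, h1]
    rfl

/-- **The main row for a tame base**, all real values. -/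
theorem mainAt_tame (h0 : Ctx0 k v) (hc : CompleteV v)
    (hval : ∀ ρ : ℝ, ∃ c : Ω, c ≠ 0 ∧ v c = ρ) {m : ℕ} (hm : m ≤ 2)
    (hv : v (x 0) ≠ 0) (hvr : v (x 0) < r) (hRat : RatV v C (v (x 0)))
    (hdiv : ∀ g ∈ VG v C, g / p ∈ VG v C) (hC : TP p v C x w r s)
    (hCe : C = cadj v W (w 0)) (hWp : ∀ a ∈ W, ∃ Q ∈ PI W, (Q.eval (x 1)) ^ p = a)
    (hW : W ≤ clI v (IntermediateField.adjoin k {f : Ω | ∃ n : ℕ, n ≠ 0 ∧ f ^ n = x 0})) :
    MainAt p v m C x w r s := by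
  intro L₀ L hT hL hle hpow
  have : Fact (Ctx0 k v) := ⟨h0⟩
  have : PerfectRing k p := PerfectField.toPerfectRing p
  exact TP.mainW hc (exists_ms hval) hm hv (perf_pairW hc hC.tgt.root hC.root hCe hWp) hRat hdiv hC
    (nsdAt_tame hc hC hvr hCe hW) hT hL hle hpow

omit [IsAlgClosed k] [IsAlgClosed Ω] [CharP k p] [CharP Ω p] hp in
/-- Roots of `x`, transported. -/
theorem tame_map {Ω' : Type u} [Field Ω'] [Algebra k Ω'] {v' : RVal Ω'} {φ : Ω →ₐ[k] Ω'}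
    (hI : IsoE v v' φ) (hcv : CompleteV v)
    (hW : W ≤ clI v (IntermediateField.adjoin k {f : Ω | ∃ n : ℕ, n ≠ 0 ∧ f ^ n = x 0})) :
    W.map φ ≤ clI v' (IntermediateField.adjoin k {f : Ω' | ∃ n : ℕ, n ≠ 0 ∧ f ^ n = φ (x 0)}) := by
  refine (IntermediateField.map_mono φ hW).trans ?_
  rw [← hI.clI_map hcv, IntermediateField.adjoin_map]
  refine clI_mono' (IntermediateField.adjoin.mono k _ _ ?_)
  rintro _ ⟨f, ⟨n, hn, hf⟩, rfl⟩
  exact ⟨n, hn, by rw [← hf]; exact (map_pow φ f n).symm⟩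

/-- The data of a tame base, transported. -/
theorem mainAt_tame_map {H : Type u} [Field H] [Algebra k H] [IsAlgClosed H] [CharP H p]
    {v' : RVal H} (h0' : Ctx0 k v') (hc' : CompleteV v')
    (hval : ∀ ρ : ℝ, ∃ c : H, c ≠ 0 ∧ v' c = ρ) (hcv : CompleteV v) {φ : Ω →ₐ[k] H}
    (hI : IsoE v v' φ) {m : ℕ} (hm : m ≤ 2)
    (hv : v (x 0) ≠ 0) (hvr : v (x 0) < r) (hRat : RatV v C (v (x 0)))
    (hdiv : ∀ g ∈ VG v C, g / p ∈ VG v C) (hC : TP p v C x w r s)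
    (hCe : C = cadj v W (w 0)) (hWp : ∀ a ∈ W, ∃ Q ∈ PI W, (Q.eval (x 1)) ^ p = a)
    (hW : W ≤ clI v (IntermediateField.adjoin k {f : Ω | ∃ n : ℕ, n ≠ 0 ∧ f ^ n = x 0})) :
    MainAt p v' m (C.map φ) (fun n => φ (x n)) (fun n => φ (w n)) r s := by
  have hx0 : x 0 ≠ 0 := hC.x_ne
  have hvx : v' (φ (x 0)) = v (x 0) := hI.val _ hx0
  refine mainAt_tame (W := W.map φ) h0' hc' hval hm (by rw [hvx]; exact hv)
    (by rw [hvx]; exact hvr) ?_ ?_ (tp_map hI hcv hC) ?_ (root_map hWp) (tame_map hI hcv hW)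
  · rw [hvx]
    exact ratv_map hI hRat
  · rw [vg_map hI]
    exact hdiv
  · rw [hCe, hI.cadj_map hcv]

/-- **The main row for a tame base.** -/
theorem mainAtH_tame (hcv : CompleteV v) {m : ℕ} (hm : m ≤ 2)
    (hv : v (x 0) ≠ 0) (hvr : v (x 0) < r) (hRat : RatV v C (v (x 0)))
    (hdiv : ∀ g ∈ VG v C, g / p ∈ VG v C) (hC : TP p v C x w r s)
    (hCe : C = cadj v W (w 0)) (hWp : ∀ a ∈ W, ∃ Q ∈ PI W, (Q.eval (x 1)) ^ p = a)
    (hW : W ≤ clI v (IntermediateField.adjoin k {f : Ω | ∃ n : ℕ, n ≠ 0 ∧ f ^ n = x 0})) :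
    MainAtH p v m C x w r s := by
  intro φ hI
  have : CharP (HF k) p := charP_of_injective_algebraMap (algebraMap k (HF k)).injective p
  exact mainAt_tame_map (TWS.ctx0_hv k) (TWS.completeV_hv k) (TWS.exists_val k) hcv hI hm hv hvr
    hRat hdiv hC hCe hWp hW

/-- **`HRone` from a tight pair over a tame base**, `Ω` complete. -/
theorem hrone_of_tame (h : Ctx k v 1) (hcv : CompleteV v) {m : ℕ} (hm1 : 1 ≤ m) (hm : m ≤ 2)
    {K₀ : IntermediateField k Ω} (hK : K₀.FG)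
    (hfull : Full v K₀) (htr : Algebra.trdeg k K₀ = (m + 2 : ℕ)) (hBDK : BD p v K₀) {al : Ω}
    (hal : al ^ p ∈ K₀) (hBD : BD p v (adj K₀ al)) {C₁ : IntermediateField k Ω} (hC₁ : C₁.FG)
    (htr₁ : Algebra.trdeg k C₁ = (2 : ℕ)) (hCcl : C = clI v C₁)
    (hv : v (x 0) ≠ 0) (hvr : v (x 0) < r) (hC : TP p v C x w r s) (hT : TowR v m C (clI v K₀))
    (hCe : C = cadj v W (w 0)) (hWp : ∀ a ∈ W, ∃ Q ∈ PI W, (Q.eval (x 1)) ^ p = a)
    (hW : W ≤ clI v (IntermediateField.adjoin k {f : Ω | ∃ n : ℕ, n ≠ 0 ∧ f ^ n = x 0})) :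
    HRone v (adj K₀ al) := by
  have hx0 : x 0 ≠ 0 := hC.x_ne
  refine hrone_of_tpW h hcv hm1 hK hfull htr hBDK hal hBD hC₁ htr₁ hCcl hm hv hvr hC hT ?_
  exact (mainAtH_tame hcv hm hv hvr (ratv_of_ctx h hx0 hv _)
    (pdiv_of_lim h hC.tgt.root hx0 hv hvr hC.lim_x) hC hCe hWp hW).main h.toCtx0 hcv

end Tame

end Pool.Agent.TWC
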