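import Pool.Agent.Lib.TWC.FGLim
import Pool.Agent.Lib.TWC.TPx

/-!
# TANK W, class (IV), rows A7.k and A7.l: generators of a tower over a field of monomials, the exit

`K₀` finitely generated with bounded distortion, `Ω` complete, `G` a group of values of rational
rank one, `M` monomials.

* `exists_gen_mon`: if the closure of `K₀` is the closure of `k(M g, S)`, `g ∈ G`, then it is the
  closure of `k(M g, S)` for one `g`;
* `towR_gens`: generators of towers;
* `exists_gen_tow`: `K = F₂(y)`, `F₂ = k(M g, ..)` of transcendence degree `m + 1`, if the closure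
  of `K₀` is a tower of length `m + 1` over the closure of `k(M g : g ∈ G)`;
* `hrone_of_mon`: then `HRone v K₀`, if `m ≤ 2`.
-/

set_option autoImplicit false

open Polynomial

namespace Pool.Agent.TWC

open Pool.Agent.H15JM (RVal)
open Pool.Agent.LU1 (VPos adj)
open Pool.Agent.D2 (Ctx0)
open Pool.Agent.D2P (clI mem_clI mem_adj_self)
open Pool.Agent.TWM
open Pool.Agent.TWS (VG TowR PM MonG)
open Pool.Agent.TW (Ctx Full BD HRone LU)

universe u

/-! ### Groups of rational rank one -/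

theorem exists_common {G : AddSubgroup ℝ} (hG : ∀ a ∈ G, ∀ b ∈ G, b ≠ 0 → ∃ q : ℚ, a = q * b)
    {a b : ℝ} (ha : a ∈ G) (hb : b ∈ G) (hb0 : b ≠ 0) :
    ∃ g ∈ G, g ≠ 0 ∧ (∃ m : ℤ, a = m * g) ∧ ∃ m : ℤ, b = m * g := by
  obtain ⟨q, hq⟩ := hG a ha b hb hb0
  have hcop : IsCoprime q.num (q.den : ℤ) := by
    rw [Int.isCoprime_iff_gcd_eq_one]
    exact q.reduced
  obtain ⟨x, y, hxy⟩ := hcop
  have hd : (q.den : ℝ) ≠ 0 := by exact_mod_cast q.den_nz
  have hqd : (q : ℝ) = q.num / q.den := by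
    have := Rat.num_div_den q
    exact_mod_cast this.symm
  have hxy' : (x : ℝ) * q.num + y * q.den = 1 := by exact_mod_cast hxy
  have e : (x : ℝ) * a + y * b = b / q.den := by
    rw [hq, hqd]
    field_simp
    linear_combination hxy'
  refine ⟨b / q.den, ?_, div_ne_zero hb0 hd, ⟨q.num, ?_⟩, ⟨(q.den : ℤ), ?_⟩⟩
  · rw [← e]
    have h1 := G.zsmul_mem ha x
    have h2 := G.zsmul_mem hb y
    rw [zsmul_eq_mul] at h1 h2
    exact add_mem h1 h2
  · rw [hq, hqd]
    field_simp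
  · push_cast
    field_simp

/-- Finitely many elements are multiples of one. -/
theorem exists_common_fin {G : AddSubgroup ℝ}
    (hG : ∀ a ∈ G, ∀ b ∈ G, b ≠ 0 → ∃ q : ℚ, a = q * b) {g₀ : ℝ} (hg₀ : g₀ ∈ G) (h0 : g₀ ≠ 0)
    (S : Finset ℝ) : (∀ g ∈ S, g ∈ G) →
      ∃ g ∈ G, g ≠ 0 ∧ ∀ a ∈ S, ∃ m : ℤ, a = m * g := by
  classical
  induction S using Finset.induction_on with
  | empty => exact fun _ => ⟨g₀, hg₀, h0, fun a ha => absurd ha (Finset.notMem_empty a)⟩
  | insert a S _ ih =>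
    intro hS
    obtain ⟨g, hg, hg0, h1⟩ := ih fun g hg => hS g (Finset.mem_insert_of_mem hg)
    obtain ⟨g', hg', hg'0, ⟨m, hm⟩, ⟨n, hn⟩⟩ :=
      exists_common hG (hS a (Finset.mem_insert_self a S)) hg hg0
    refine ⟨g', hg', hg'0, fun b hb => ?_⟩
    rcases Finset.mem_insert.1 hb with rfl | hb
    · exact ⟨m, hm⟩
    · obtain ⟨l, hl⟩ := h1 b hb
      refine ⟨l * n, ?_⟩
      rw [hl, hn]
      push_cast
      ring

section Gen

variable {k Ω : Type u} [Field k] [Field Ω] [Algebra k Ω] {v : RVal Ω}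
  {K₀ A F L : IntermediateField k Ω} {G : AddSubgroup ℝ} {M : ℝ → Ω} {S : Set Ω}

/-- **One monomial.** -/
theorem exists_gen_mon {p : ℕ} [Fact p.Prime] [CharP k p] [CharP Ω p] [IsAlgClosed k]
    [IsAlgClosed Ω] (h0 : Ctx0 k v) (hc : CompleteV v) (hK₀ : K₀.FG) (hBD : BD p v K₀)
    (hM : MS v G M) (hG : ∀ a ∈ G, ∀ b ∈ G, b ≠ 0 → ∃ q : ℚ, a = q * b) {g₀ : ℝ}
    (hg₀ : g₀ ∈ G) (hg0 : g₀ ≠ 0)
    (hcl : clI v (IntermediateField.adjoin k (M '' (G : Set ℝ)) ⊔
      IntermediateField.adjoin k S) = clI v K₀) :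
    ∃ g ∈ G, g ≠ 0 ∧ clI v (IntermediateField.adjoin k {M g} ⊔
      IntermediateField.adjoin k S) = clI v K₀ := by
  classical
  obtain ⟨N, a, R, ha, h1⟩ := fg_le h0 hc hK₀ hBD
  rw [← IntermediateField.adjoin_union] at hcl
  have h2 : ∀ i, ∃ b ∈ IntermediateField.adjoin k (M '' (G : Set ℝ) ∪ S), v.Ge R (a i - b) :=
    fun i => by
      have h3 := ha i
      rw [← hcl] at h3
      exact mem_clI.1 h3 R
  choose b hb hab using h2
  choose T hT hbT using fun i => IntermediateField.exists_finset_of_mem_adjoin (hb i)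
  -- the monomials which occur
  have h3 : ∀ x : Ω, ∃ g : ℝ, g ∈ G ∧ (x ∈ M '' (G : Set ℝ) → x = M g) := by
    intro x
    by_cases hx : x ∈ M '' (G : Set ℝ)
    · obtain ⟨g, hg, rfl⟩ := hx
      exact ⟨g, hg, fun _ => rfl⟩
    · exact ⟨g₀, hg₀, fun h => absurd h hx⟩
  choose γ hγ hγx using h3
  obtain ⟨g, hg, hgn, h4⟩ := exists_common_fin hG hg₀ hg0
    ((Finset.univ.biUnion T).image γ) (fun g hg => by
      obtain ⟨x, -, rfl⟩ := Finset.mem_image.1 hg
      exact hγ x)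
  refine ⟨g, hg, hgn, ?_⟩
  have hle : IntermediateField.adjoin k {M g} ⊔ IntermediateField.adjoin k S ≤ clI v K₀ := by
    rw [← hcl, ← IntermediateField.adjoin_union]
    refine (IntermediateField.adjoin.mono k _ _ ?_).trans (self_le_clI v _)
    refine Set.union_subset_union_left _ ?_
    rw [Set.singleton_subset_iff]
    exact ⟨g, hg, rfl⟩
  refine h1 _ (cld_clI v _) (clI_le' hle (cld_clI v K₀)) fun i => ⟨b i, ?_, hab i⟩
  refine self_le_clI v _ ?_
  have h5 : IntermediateField.adjoin k (T i : Set Ω) ≤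
      IntermediateField.adjoin k {M g} ⊔ IntermediateField.adjoin k S := by
    rw [IntermediateField.adjoin_le_iff]
    intro x hx
    rcases hT i hx with h6 | h6
    · rw [hγx x h6]
      obtain ⟨m, hm⟩ := h4 (γ x) (Finset.mem_image.2 ⟨x, Finset.mem_biUnion.2
        ⟨i, Finset.mem_univ i, hx⟩, rfl⟩)
      rw [hm, TWS.MS.zpow hM hg m]
      exact zpow_mem ((le_sup_left : IntermediateField.adjoin k {M g} ≤ _)
        (IntermediateField.mem_adjoin_simple_self k _)) m
    · exact (le_sup_right : IntermediateField.adjoin k S ≤ _)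
        (IntermediateField.subset_adjoin k _ h6)
  exact h5 (hbT i)

/-- Generators of towers. -/
theorem towR_gens {m : ℕ} (hT : TowR v m A L) : ∃ S : Set Ω, S.Finite ∧
    L = clI v (A ⊔ IntermediateField.adjoin k S) ∧
    ∀ F : IntermediateField k Ω, F ≤ A → F.FG → ∀ d : ℕ, Algebra.trdeg k F = d →
      (F ⊔ IntermediateField.adjoin k S).FG ∧
      Algebra.trdeg k (F ⊔ IntermediateField.adjoin k S : IntermediateField k Ω) =
        (d + m : ℕ) := by
  induction hT with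
  | @zero A h1 =>
    refine ⟨∅, Set.finite_empty, ?_, fun F hF hFG d hd => ?_⟩
    · rw [IntermediateField.adjoin_empty, sup_bot_eq]
      exact le_antisymm (self_le_clI v A) h1
    · rw [IntermediateField.adjoin_empty, sup_bot_eq, Nat.add_zero]
      exact ⟨hFG, hd⟩
  | @succ n A L z s hz hT ih =>
    obtain ⟨S, hS, h1, h2⟩ := ih
    have e : ∀ F : IntermediateField k Ω, F ⊔ IntermediateField.adjoin k (insert z S) =
        adj F z ⊔ IntermediateField.adjoin k S := fun F => by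
      rw [Set.insert_eq, IntermediateField.adjoin_union, ← sup_assoc]
      rfl
    refine ⟨insert z S, hS.insert z, ?_, fun F hF hFG d hd => ?_⟩
    · rw [h1, e]
      apply le_antisymm
      · refine clI_le' (sup_le ?_ ?_) (cld_clI v _)
        · exact clI_mono' le_sup_left
        · exact le_sup_right.trans (self_le_clI v _)
      · exact clI_mono' (sup_le_sup_right (self_le_clI v _) _)
    · rw [e F]
      have h3 := h2 (adj F z) ((D2P.adj_mono hF z).trans (self_le_clI v _))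
        (D2P.fg_adj hFG z) (d + 1) (by
          rw [TW.HRLU.trdeg_adj (TL.transcendental hz hF), hd]
          push_cast
          rfl)
      refine ⟨h3.1, ?_⟩
      rw [h3.2]
      congr 1
      omega

/-- **Row A7.k.** Generators of the closure of `K₀`, a tower over the monomials. -/
theorem exists_gen_tow {p : ℕ} [Fact p.Prime] [CharP k p] [CharP Ω p] [IsAlgClosed k]
    [IsAlgClosed Ω] (h0 : Ctx0 k v) (hc : CompleteV v) (hK₀ : K₀.FG) (hBD : BD p v K₀)
    (hM : MS v G M) (hG : ∀ a ∈ G, ∀ b ∈ G, b ≠ 0 → ∃ q : ℚ, a = q * b) {g₀ : ℝ}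
    (hg₀ : g₀ ∈ G) (hg0 : g₀ ≠ 0) {m : ℕ}
    (hT : TowR v (m + 1) (PM v (⊥ : IntermediateField k Ω) G M) (clI v K₀)) :
    ∃ (g : ℝ) (F₂ : IntermediateField k Ω) (y : Ω), g ∈ G ∧ g ≠ 0 ∧ M g ∈ F₂ ∧ F₂.FG ∧
      Algebra.trdeg k F₂ = (1 + m : ℕ) ∧ clI v K₀ = clI v (adj F₂ y) := by
  obtain ⟨N', y, s, hTN, hy, hcl⟩ := TowR.last hT TWS.PM.cld
  obtain ⟨S, hS, h1, h2⟩ := towR_gens hTN
  have h3 : clI v (IntermediateField.adjoin k (M '' (G : Set ℝ)) ⊔
      IntermediateField.adjoin k (insert y S)) = clI v K₀ := by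
    rw [hcl, h1, clI_adj_clI, PM, bot_sup_eq]
    have e : adj (clI v (IntermediateField.adjoin k (M '' (G : Set ℝ))) ⊔
        IntermediateField.adjoin k S) y = clI v (IntermediateField.adjoin k (M '' (G : Set ℝ))) ⊔
        IntermediateField.adjoin k (insert y S) := by
      rw [Set.insert_eq, Set.union_comm, IntermediateField.adjoin_union, ← sup_assoc]
      rfl
    rw [e]
    apply le_antisymm
    · exact clI_mono' (sup_le_sup_right (self_le_clI v _) _)
    · refine clI_le' (sup_le ?_ ?_) (cld_clI v _)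
      · exact clI_mono' le_sup_left
      · exact le_sup_right.trans (self_le_clI v _)
  obtain ⟨g, hg, hgn, h4⟩ := exists_gen_mon h0 hc hK₀ hBD hM hG hg₀ hg0 h3
  have e1 : adj (⊥ : IntermediateField k Ω) (M g) = IntermediateField.adjoin k {M g} :=
    bot_sup_eq _
  have hle : adj (⊥ : IntermediateField k Ω) (M g) ≤ PM v (⊥ : IntermediateField k Ω) G M :=
    D2P.adj_le bot_le (TWS.PM.mon hg)
  obtain ⟨h5, h6⟩ := h2 (adj ⊥ (M g)) hle (D2P.fg_adj IntermediateField.fg_bot (M g)) 1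
    (trdeg_adj_bot h0 (hM.ne g hg) (by rw [hM.val g hg]; exact hgn))
  refine ⟨g, _, y, hg, hgn, (le_sup_left : adj ⊥ (M g) ≤ _) (mem_adj_self _ (M g)).1, h5, h6, ?_⟩
  rw [← h4, e1]
  congr 1
  rw [Set.insert_eq, Set.union_comm, IntermediateField.adjoin_union, ← sup_assoc]
  rfl

/-- **Rows A7.k, A7.l: the exit.** -/
theorem hrone_of_mon (p : ℕ) [Fact p.Prime] [CharP k p] [CharP Ω p] [IsAlgClosed k]
    [IsAlgClosed Ω] (h : Ctx k v 1) (hc : CompleteV v) {m : ℕ} (hm : m ≤ 2) (hK₀ : K₀.FG)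
    (hfull : Full v K₀) (htr : Algebra.trdeg k K₀ = (m + 2 : ℕ)) (hBD : BD p v K₀)
    (hM : MS v G M) {g₀ : ℝ} (hg₀ : g₀ ∈ G) (hg0 : g₀ ≠ 0)
    (hT : TowR v (m + 1) (PM v (⊥ : IntermediateField k Ω) G M) (clI v K₀)) : HRone v K₀ := by
  have hG : ∀ a ∈ G, ∀ b ∈ G, b ≠ 0 → ∃ q : ℚ, a = q * b := by
    intro a ha b hb hb0
    obtain ⟨q, hq⟩ := rat_mul_of_ctx h (hM.ne b hb) (by rw [hM.val b hb]; exact hb0)
      (hM.ne a ha)
    rw [hM.val a ha, hM.val b hb] at hq
    exact ⟨q, hq⟩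
  obtain ⟨g, F₂, y, hg, hgn, hgF, hF, hFt, hcl⟩ :=
    exists_gen_tow h.toCtx0 hc hK₀ hBD hM hG hg₀ hg0 hT
  have hFf : Full v F₂ := full_of_mem h hgF (hM.ne g hg) (by rw [hM.val g hg]; exact hgn)
  refine TWJ.exitg p h hc (D := m) ?_ hK₀ hfull (by rw [htr]; congr 1; omega) hBD hF hFf hFt hcl
  intro K hK hKf htK hBDK
  exact TWJ.lu_bd_two p h (TWJ.stepAll p k 1) (by omega) hK hKf htK hBDK

end Gen

end Pool.Agent.TWC
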