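import Pool.Agent.Lib.TWC.ExtG
import Pool.Agent.Lib.TWC.EW

/-!
# TANK W, class C: natural motions

`B` closed, `x` without drops over `B` (`SND`), of weight `r`, `χ n` the roots of `χ 0`,
`v (χ 0) ≥ r`.
* `NM p v B F x χ h`: `F ≤ B` is closed and `h : F → Ω⟦T⟧` is isometric with `h (x 0) = x 0 + χ 0 T`;
* `EW_cadS`: the closure of `F(b)(x ^ (1 / p ^ ∞))`;
* `NM.floor`: extension to the closure of `F(b_l, l)`, `b_l ∈ B` rectangular over
  `F(x ^ (1 / p ^ ∞))`, `Ω` spherically complete;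
* `NM.floor_gain`: the same with values in `EW v F x` if the operators have a gain there.
-/

set_option autoImplicit false

open Polynomial

namespace Pool.Agent.TWC

open Pool.Agent.H15JM (RVal)
open Pool.Agent.LU1 (VPos adj)
open Pool.Agent.D2 (Ctx0)
open Pool.Agent.D2P (clI mem_clI rootF mem_rootF)
open Pool.Agent.TWM

universe u

variable {k Ω : Type u} [Field k] [Field Ω] [Algebra k Ω] {v : RVal Ω}
  {F L B E : IntermediateField k Ω} {x χ : ℕ → Ω}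

/-- A natural motion on `F ≤ B`. -/
structure NM (p : ℕ) (v : RVal Ω) (B F : IntermediateField k Ω) (x χ : ℕ → Ω)
    (h : F →ₐ[k] PowerSeries Ω) : Prop where
  cld : Cld v F
  le : F ≤ B
  mem : x 0 ∈ F
  hsi : HSI v F h
  chi : ∀ n, χ n ^ p ^ n = χ 0
  val : h ⟨x 0, mem⟩ = PowerSeries.C (x 0) + PowerSeries.C (χ 0) * PowerSeries.X

section EW

variable {p : ℕ}

theorem EW_le (hE : Cld v E) (hF : F ≤ E) (hx : ∀ n, x n ∈ E) : EW v F x ≤ E := by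
  refine (clI_mono (sup_le hF ?_)).trans hE
  rw [IntermediateField.adjoin_le_iff]
  rintro _ ⟨n, rfl⟩
  exact hx n

/-- The closure of `F(b_l, l ∈ S)(x ^ (1 / p ^ ∞))`. -/
theorem EW_cadS {ι : Type} (b : ι → Ω) (S : Set ι) :
    cadS v (EW v F x) b S = EW v (cadS v F b S) x := by
  refine le_antisymm ?_ ?_
  · refine cadS_le EW.cld (EW_le EW.cld (le_cadS.trans EW.le) fun n => EW.mem n) ?_
    exact fun l hl => EW.le (mem_cadS hl)
  · refine EW_le cld_cadS (cadS_le cld_cadS (EW.le.trans le_cadS) fun l hl => mem_cadS hl) ?_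
    exact fun n => le_cadS (EW.mem n)

end EW

section Main

variable {p : ℕ} [hp : Fact p.Prime] [CharP Ω p] {h : F →ₐ[k] PowerSeries Ω}

theorem EW_le_pcl (hr : ∀ n, x (n + 1) ^ p = x n) (h0 : x 0 ∈ F) :
    EW v F x ≤ clI v (pcl p F) := by
  refine EW_le (cld_clI v _) (fun y hy => LUC.Cl.subset
    (⟨0, by rw [pow_zero, pow_one]; exact hy⟩ : y ∈ pcl p F)) fun n => LUC.Cl.subset
      (⟨n, ?_⟩ : x n ∈ pcl p F)
  have := root_pow_add hr 0 n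
  rw [zero_add] at this
  rw [this]
  exact h0

omit [CharP Ω p] in
theorem dense_EW (hr : ∀ n, x (n + 1) ^ p = x n) (h0 : x 0 ∈ F) :
    DnsS v (AX F x) (EW v F x) := AX.dense hr hp.out.pos h0

theorem NM.xt (hN : NM p v B F x χ h) {A : ℕ → ℕ → L →ₗ[k] Ω} (hA : HSX p v F L h A)
    (hr : ∀ n, x (n + 1) ^ p = x n) (hx : ∀ n, x n ∈ L) : XT L A x χ := by
  refine hA.xt hr hN.mem hx (fun n => ?_) fun j hj => ?_
  · rw [hN.chi, hN.val, map_add, PowerSeries.coeff_C, if_neg one_ne_zero, zero_add,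
      PowerSeries.coeff_C_mul, PowerSeries.coeff_one_X, mul_one]
  · rw [hN.val, map_add, PowerSeries.coeff_C, if_neg (by omega), zero_add,
      PowerSeries.coeff_C_mul, PowerSeries.coeff_X, if_neg (by omega), mul_zero]

variable [CharP k p] [IsAlgClosed Ω] [hcx : Fact (Ctx0 k v)]

/-- The operators of `x` over `F`. -/
theorem exists_thX_sub (hΩ : CompleteV v) {ρ : ℕ → ℝ} (hx : SND p v B x ρ) (hF : F ≤ B)
    (h0 : x 0 ∈ F) : ∃ D : ℕ → ℕ → Module.End k (EW v F x),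
      ThX p v F (EW v F x) x (fun n f => f * (p * ρ 1) / p ^ n) D :=
  exists_thX p hΩ ((hx.nbx' p hcx.out hΩ le_rfl).le hF) EW.cld EW.le (fun n => EW.mem n)
    (dense_EW hx.root h0)

theorem weight_chi {r : ℝ} (hχ : v.Ge r (χ 0)) (hc : ∀ n, χ n ^ p ^ n = χ 0) (n f : ℕ) :
    v.Ge (f * r / p ^ n) (χ n ^ f) := by
  have h1 := ge_pow (ge_pow_of_root (p := p) (hc n) hχ) f
  rwa [← mul_div_assoc] at h1

/-- The natural values, for a natural motion. -/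
theorem NM.nbh (hΩ : CompleteV v) {ρ : ℕ → ℝ} (hx : SND p v B x ρ) (hχ : v.Ge (p * ρ 1) (χ 0))
    (hN : NM p v B F x χ h) {A : ℕ → ℕ → clI v (pcl p F) →ₗ[k] Ω}
    (hA : HSX p v F (clI v (pcl p F)) h A) {Y : PowerSeries Ω}
    (hyB : PowerSeries.constantCoeff Y ∈ B)
    (hlim : Lim v (EW v F x) 0 (PowerSeries.constantCoeff Y))
    (hYq : ∀ (q : ℕ) (ε : ℝ), 1 ≤ q → 0 < ε → ∀ ψ : EW v F x,
      v.Ge (-ε) (PowerSeries.constantCoeff Y - ψ) →
      v.Ge (-ε) (PowerSeries.coeff q Y - A 0 q ⟨ψ, EW_le_pcl hx.root hN.mem ψ.2⟩)) :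
    NBH v hA (EW v F x) Y := by
  have hE₀ : EW v F x ≤ clI v (pcl p F) := EW_le_pcl hx.root hN.mem
  have hFL : F ≤ clI v (pcl p F) := EW.le.trans hE₀
  obtain ⟨D, hD⟩ := exists_thX_sub hΩ hx hN.le hN.mem
  have hxt := hN.xt hA hx.root (fun n => hE₀ (EW.mem n))
  exact NBH.nat hΩ hA hxt hN.mem hFL hE₀ hD hN.le EW.cld EW.le
    (EW_le EW.cld (hN.le.trans EW.le) fun n => EW.mem n) (dense_EW hx.root (hN.le hN.mem))
    (hx.nbx' p hcx.out hΩ le_rfl) (fun n f _ _ => weight_chi hχ hN.chi n f) hyB hlim hYq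

/-- **The natural motion on a floor**, `Ω` spherically complete. -/
theorem NM.floor (hΩ : CompleteV v) (hS : TWS.SphC v) {ρ : ℕ → ℝ} (hB : Cld v B)
    (hx : SND p v B x ρ) (hχ : v.Ge (p * ρ 1) (χ 0)) (hN : NM p v B F x χ h)
    {A : ℕ → ℕ → clI v (pcl p F) →ₗ[k] Ω} (hA : HSX p v F (clI v (pcl p F)) h A)
    {ι : Type} [Fintype ι] {b : ι → Ω} (hb : ∀ l, b l ∈ B)
    (hR : Rect v (EW v F x) b fun _ => 0) :
    ∃ h' : cadS v F b Set.univ →ₐ[k] PowerSeries Ω, NM p v B (cadS v F b Set.univ) x χ h' ∧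
      (∀ (y : cadS v F b Set.univ) (hy : (y : Ω) ∈ F), h' y = h ⟨y, hy⟩) ∧
      ∀ (y : cadS v F b Set.univ) (l : ι), (y : Ω) = b l →
        ∀ (q : ℕ) (ε : ℝ), 0 < ε → ∀ ψ : EW v F x, v.Ge (-ε) (b l - ψ) →
          v.Ge (-ε) (PowerSeries.coeff q (h' y) -
            A 0 q ⟨ψ, EW_le_pcl hx.root hN.mem ψ.2⟩) := by
  classical
  have hE₀ : EW v F x ≤ clI v (pcl p F) := EW_le_pcl hx.root hN.mem
  have hlim : ∀ l, Lim v (EW v F x) 0 (b l) := fun l => hR.lim l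
  choose ζ hζ using fun l => exists_zeta hS hE₀ (fun q => A 0 q) (fun n y b => hA.norm 0 n y b)
    (hlim l)
  set Y : ι → PowerSeries Ω := fun l => PowerSeries.mk fun q => if q = 0 then b l else ζ l q
    with hYdef
  have hY1 : ∀ l, PowerSeries.constantCoeff (Y l) = b l := fun l => by
    rw [← PowerSeries.coeff_zero_eq_constantCoeff_apply, hYdef, PowerSeries.coeff_mk, if_pos rfl]
  have hYq : ∀ l (q : ℕ) (ε : ℝ), 0 < ε → ∀ ψ : EW v F x, v.Ge (-ε) (b l - ψ) →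
      v.Ge (-ε) (PowerSeries.coeff q (Y l) - A 0 q ⟨ψ, hE₀ ψ.2⟩) := by
    intro l q ε hε ψ hψ
    rw [hYdef, PowerSeries.coeff_mk]
    split_ifs with hq
    · rw [hq, hA.zero]
      exact hψ
    · exact hζ l q ε hε ψ hψ
  have hNB : ∀ l, NBH v hA (EW v F x) (Y l) := fun l =>
    hN.nbh hΩ hx hχ hA (by rw [hY1]; exact hb l) (by rw [hY1]; exact hlim l)
      (fun q ε _ hε ψ hψ => by
        rw [hY1] at hψ
        exact hYq l q ε hε ψ hψ)
  rw [← Finset.coe_univ]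
  obtain ⟨h', h1, h2, h3⟩ := hA.floor hΩ hN.hsi hN.cld le_rfl (fun _ => rfl) hR EW.le hY1 hNB
    Finset.univ
  refine ⟨h', ⟨cld_cadS, cadS_le hB hN.le fun l _ => hb l, le_cadS hN.mem, h1, hN.chi, ?_⟩, h2,
    fun y l hy q ε hε ψ hψ => ?_⟩
  · rw [h2 ⟨x 0, _⟩ hN.mem]
    exact hN.val
  · rw [h3 y l (Finset.mem_univ l) hy]
    exact hYq l q ε hε ψ hψ

/-- **The natural motion on the first floor**, with values in `EW v F x`. -/
theorem NM.floor_gain (hΩ : CompleteV v) {ρ : ℕ → ℝ} (hB : Cld v B)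
    (hx : SND p v B x ρ) (hχ : v.Ge (p * ρ 1) (χ 0)) (hN : NM p v B F x χ h)
    {A : ℕ → ℕ → clI v (pcl p F) →ₗ[k] Ω} (hA : HSX p v F (clI v (pcl p F)) h A)
    {μ : ℝ} (hμ : 0 < μ)
    (hst : ∀ (q : ℕ) (y : EW v F x), 1 ≤ q →
      A 0 q ⟨y, EW_le_pcl hx.root hN.mem y.2⟩ ∈ EW v F x)
    (hg : ∀ (q : ℕ) (y : EW v F x) (b : ℝ), 1 ≤ q → v.Ge b (y : Ω) →
      v.Ge (b + q * μ) (A 0 q ⟨y, EW_le_pcl hx.root hN.mem y.2⟩))
    {ι : Type} [Fintype ι] {b : ι → Ω} (hb : ∀ l, b l ∈ B)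
    (hR : Rect v (EW v F x) b fun _ => 0) :
    ∃ (h' : cadS v F b Set.univ →ₐ[k] PowerSeries Ω) (I : ℕ),
      NM p v B (cadS v F b Set.univ) x χ h' ∧
      (∀ (y : cadS v F b Set.univ) (hy : (y : Ω) ∈ F), h' y = h ⟨y, hy⟩) ∧
      ∀ (y : cadS v F b Set.univ) (l : ι), (y : Ω) = b l →
        (∀ q, 1 ≤ q → PowerSeries.coeff q (h' y) ∈ EW v F x) ∧
        (∀ q, I ≤ q → PowerSeries.coeff q (h' y) = 0) ∧
        ∀ (q : ℕ) (ε : ℝ), 0 < ε → ∀ ψ : EW v F x, v.Ge (-ε) (b l - ψ) →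
          v.Ge (-ε) (PowerSeries.coeff q (h' y) -
            A 0 q ⟨ψ, EW_le_pcl hx.root hN.mem ψ.2⟩) := by
  classical
  have hE₀ : EW v F x ≤ clI v (pcl p F) := EW_le_pcl hx.root hN.mem
  have hFL : F ≤ clI v (pcl p F) := EW.le.trans hE₀
  obtain ⟨D, hD⟩ := exists_thX_sub hΩ hx hN.le hN.mem
  have hxt := hN.xt hA hx.root (fun n => hE₀ (EW.mem n))
  obtain ⟨h', I, h1, h2, h3⟩ := hA.nat_floor hΩ hN.hsi hN.cld le_rfl hxt hN.mem hFL hE₀ hD hN.le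
    EW.cld EW.le (EW_le EW.cld (hN.le.trans EW.le) fun n => EW.mem n)
    (dense_EW hx.root (hN.le hN.mem)) (hx.nbx' p hcx.out hΩ le_rfl)
    (fun n f _ _ => weight_chi hχ hN.chi n f) hμ hst hg hb hR
  refine ⟨h', I, ⟨cld_cadS, cadS_le hB hN.le fun l _ => hb l, le_cadS hN.mem, h1, hN.chi, ?_⟩, h2,
    h3⟩
  rw [h2 ⟨x 0, _⟩ hN.mem]
  exact hN.val

end Main

end Pool.Agent.TWC
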