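import Pool.Agent.Lib.TWC.NM
import Pool.Agent.Lib.TWS.MonD

/-!
# TANK W, class C: the natural motion of the base

`M` the monomials, `M (v x) = x`, `F = PM v ⊥ (GK p (v x) Λ) M`, `P = PM v ⊥ ⊤ M`.
* `clI_pcl_base`: `P` is the closure of the perfect closure of `F`; `EW_base`: it is the closure of
  `F(x ^ (1 / p ^ ∞))`;
* `exists_nm_base`: the motion `x ↦ x + M r T` of `F`, `r ≥ v x`, is natural for every closed
  `B ≥ F`; its operators of index `j / p ^ n` preserve `P` and have gain `j (r - v x) / p ^ n`.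
-/

set_option autoImplicit false

open Polynomial

namespace Pool.Agent.TWC

open Pool.Agent.H15JM (RVal)
open Pool.Agent.LU1 (VPos adj)
open Pool.Agent.D2 (Ctx0)
open Pool.Agent.D2P (clI mem_clI rootF mem_rootF)
open Pool.Agent.TWM
open Pool.Agent.TWS (PM GK rG)

universe u

variable {k Ω : Type u} [Field k] [Field Ω] [Algebra k Ω] {v : RVal Ω} {M : ℝ → Ω}

section Base

variable (p : ℕ) [hp : Fact p.Prime] [CharP Ω p]

omit [Field k] [Algebra k Ω] [CharP Ω p] in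
/-- The roots of the monomials. -/
theorem mon_root (hM : MS v ⊤ M) (γ : ℝ) (n : ℕ) : M (γ / p ^ n) ^ p ^ n = M γ := by
  have hp0 : (p : ℝ) ≠ 0 := by exact_mod_cast hp.out.ne_zero
  rw [← hM.pow (AddSubgroup.mem_top _) (p ^ n)]
  congr 1
  push_cast
  field_simp

omit [Field k] [Algebra k Ω] [CharP Ω p] in
theorem mon_root_succ (hM : MS v ⊤ M) (γ : ℝ) (n : ℕ) :
    M (γ / p ^ (n + 1)) ^ p = M (γ / p ^ n) := by
  have hp0 : (p : ℝ) ≠ 0 := by exact_mod_cast hp.out.ne_zero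
  rw [← hM.pow (AddSubgroup.mem_top _) p]
  congr 1
  rw [pow_succ]
  field_simp

variable [CharP k p] [PerfectRing k p]

omit hp in
theorem pcl_bot [Fact p.Prime] : pcl p (⊥ : IntermediateField k Ω) = ⊥ := by
  refine le_antisymm ?_ bot_le
  rintro y ⟨m, hm⟩
  obtain ⟨c, hc⟩ := IntermediateField.mem_bot.1 hm
  obtain ⟨d, rfl⟩ := (bijective_iterateFrobenius (R := k) (p := p) (n := m)).2 c
  refine IntermediateField.mem_bot.2 ⟨d, ?_⟩
  refine iterateFrobenius_inj Ω p m ?_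
  rw [iterateFrobenius_def, iterateFrobenius_def, ← hc, iterateFrobenius_def, map_pow]

variable [IsAlgClosed Ω] {x : Ω} {Λ : Submodule ℚ ℝ}

/-- The closure of the perfect closure of the base. -/
theorem clI_pcl_base (hM : MS v ⊤ M) (hΛ : IsCompl (Submodule.span ℚ {v x}) Λ) :
    clI v (pcl p (PM v (⊥ : IntermediateField k Ω) (GK p (v x) Λ) M)) =
      PM v (⊥ : IntermediateField k Ω) ⊤ M := by
  rw [TWS.clI_pcl_pm p _ (by rw [TWS.rG_GK p hΛ]; exact hM), TWS.rG_GK p hΛ, pcl_bot]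
  refine le_antisymm ?_ (TWS.PM.mono (self_le_clI v _))
  exact TWS.PM.le_of TWS.PM.cld (clI_le' TWS.PM.le TWS.PM.cld) fun g hg => TWS.PM.mon hg

omit [IsAlgClosed Ω] [CharP k p] [PerfectRing k p] [CharP Ω p] in
/-- `γ = c γ₀ / p ^ m + g` -/
theorem exists_split {γ₀ : ℝ} (hΛ : IsCompl (Submodule.span ℚ {γ₀}) Λ) (γ : ℝ) :
    ∃ (m : ℕ) (c : ℤ), γ - c * (γ₀ / p ^ m) ∈ GK p γ₀ Λ := by
  have hp0 : (p : ℝ) ≠ 0 := by exact_mod_cast hp.out.ne_zero
  have h1 : γ ∈ rG p (GK p γ₀ Λ) := by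
    rw [TWS.rG_GK p hΛ]
    exact AddSubgroup.mem_top _
  obtain ⟨m, n, hn, a, l, hl, h2⟩ := h1
  have hcop : IsCoprime (n : ℤ) ((p : ℤ) ^ m) := by
    have : Nat.Coprime n (p ^ m) := ((Nat.Prime.coprime_iff_not_dvd hp.out).2 hn).symm.pow_right m
    exact_mod_cast Nat.isCoprime_iff_coprime.2 this
  obtain ⟨s, t, hst⟩ := hcop
  -- a - n (a s) = a t p^m
  refine ⟨m, a * s, n, hn, a * t, (1 / (p : ℚ) ^ m) • l, Λ.smul_mem _ hl, ?_⟩
  rw [Rat.smul_def]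
  have hst' : (s : ℝ) * n + t * (p : ℝ) ^ m = 1 := by exact_mod_cast hst
  have hpm : (p : ℝ) ^ m ≠ 0 := pow_ne_zero _ hp0
  push_cast
  field_simp
  linear_combination h2 - (a : ℝ) * γ₀ * hst'

omit [CharP k p] [PerfectRing k p] [IsAlgClosed Ω] [CharP Ω p] in
/-- The closure of `F(x ^ (1 / p ^ ∞))`. -/
theorem EW_base (hM : MS v ⊤ M) (hΛ : IsCompl (Submodule.span ℚ {v x}) Λ)
    {u : ℕ → Ω} (hu : ∀ n, u n = M (v x / p ^ n)) :
    EW v (PM v (⊥ : IntermediateField k Ω) (GK p (v x) Λ) M) u =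
      PM v (⊥ : IntermediateField k Ω) ⊤ M := by
  refine le_antisymm ?_ ?_
  · refine EW_le TWS.PM.cld (TWS.PM.le_of TWS.PM.cld bot_le fun g _ =>
      TWS.PM.mon (AddSubgroup.mem_top g)) fun n => ?_
    rw [hu]
    exact TWS.PM.mon (AddSubgroup.mem_top _)
  · refine TWS.PM.le_of EW.cld bot_le fun γ _ => ?_
    obtain ⟨m, c, hc⟩ := exists_split p hΛ γ
    have e : M γ = u m ^ c * M (γ - c * (v x / p ^ m)) := by
      rw [hu, ← TWS.MS.zpow hM (AddSubgroup.mem_top _) c,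
        ← hM.mul _ (AddSubgroup.mem_top _) _ (AddSubgroup.mem_top _)]
      congr 1
      ring
    rw [e]
    exact mul_mem (zpow_mem (EW.mem m) c) (EW.le (TWS.PM.mon hc))

end Base

/-! ### The operators of the base -/

section Ops

variable (p : ℕ) [hp : Fact p.Prime] [CharP Ω p] {G : AddSubgroup ℝ} {L : IntermediateField k Ω}

omit [Field k] [Algebra k Ω] in
theorem zpΩ_pow (a : ℤ_[p]) (n : ℕ) : TWS.zpΩ p Ω a ^ p ^ n = TWS.zpΩ p Ω a := by
  induction n with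
  | zero => rw [pow_zero, pow_one]
  | succ n ih =>
    rw [pow_succ, pow_mul, ih]
    change (ZMod.castHom (dvd_refl p) Ω (PadicInt.toZMod a)) ^ p = _
    rw [← map_pow, ZMod.pow_card]
    rfl

/-- The operators at the monomials. -/
theorem hsx_mon {h : PM v (⊥ : IntermediateField k Ω) G M →ₐ[k] PowerSeries Ω} (hM : MS v ⊤ M)
    {A : ℕ → ℕ → L →ₗ[k] Ω} (hA : HSX p v (PM v (⊥ : IntermediateField k Ω) G M) L h A)
    {y : Ω} {α : G →+ ℤ_[p]} (hh : ∀ (g : ℝ) (hg : g ∈ G), h ⟨M g, TWS.PM.mon hg⟩ =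
      PowerSeries.C (M g) * TWS.binS p y (α ⟨g, hg⟩)) {Y : ℕ → Ω}
    (hY : ∀ n, Y n ^ p ^ n = y) {γ : ℝ} (hγ : γ ∈ rG p G) (n j : ℕ) (z : L)
    (hz : (z : Ω) = M γ) : ∃ b : Ω, v.Ge 0 b ∧ (∃ c : k, b = algebraMap k Ω c) ∧
      A n j z = b * M γ * Y n ^ j := by
  obtain ⟨m, hm⟩ := hγ
  have hN : (p : ℝ) ^ (n + m) * γ ∈ G := by
    rw [pow_add, mul_assoc]
    have := G.nsmul_mem hm (p ^ n)
    rw [nsmul_eq_mul] at this
    push_cast at this
    exact this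
  have e1 : M γ ^ p ^ (n + m) = M ((p : ℝ) ^ (n + m) * γ) := by
    rw [← hM.pow (AddSubgroup.mem_top _) (p ^ (n + m))]
    push_cast
    rfl
  have hc : (z : Ω) ^ p ^ (n + m) ∈ PM v (⊥ : IntermediateField k Ω) G M := by
    rw [hz, e1]
    exact TWS.PM.mon hN
  have h1 := hA.base (n + m) (p ^ m * j) z hc
  have e2 : (⟨(z : Ω) ^ p ^ (n + m), hc⟩ : PM v (⊥ : IntermediateField k Ω) G M) =
      ⟨M ((p : ℝ) ^ (n + m) * γ), TWS.PM.mon hN⟩ :=
    Subtype.ext ((congrArg (fun t : Ω => t ^ p ^ (n + m)) hz).trans e1)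
  rw [e2, hh _ hN, PowerSeries.coeff_C_mul, TWS.binS_coeff] at h1
  set a : ℤ_[p] := Ring.choose (α ⟨(p : ℝ) ^ (n + m) * γ, hN⟩) (p ^ m * j) with ha
  have hYj : (Y n ^ j) ^ p ^ (n + m) = y ^ (p ^ m * j) := by
    have e3 : j * p ^ (n + m) = p ^ n * (p ^ m * j) := by
      rw [pow_add]
      ring
    rw [← pow_mul, e3, pow_mul, hY]
  refine ⟨TWS.zpΩ p Ω a, TWS.zpΩ_ge p a, ⟨((PadicInt.toZMod a : ZMod p).val : ℕ), ?_⟩, ?_⟩
  · rw [map_natCast]
    change ZMod.castHom (dvd_refl p) Ω (PadicInt.toZMod a) = _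
    rw [ZMod.castHom_apply, ZMod.cast_eq_val]
  · have h2 := hA.up_pow n m j z
    rw [← h2]
    refine iterateFrobenius_inj Ω p (n + m) ?_
    change (A (n + m) (p ^ m * j) z) ^ p ^ (n + m) =
      (TWS.zpΩ p Ω a * M γ * Y n ^ j) ^ p ^ (n + m)
    rw [h1, mul_pow, mul_pow, zpΩ_pow, e1, hYj]
    ring

/-- The sums of monomials are dense. -/
theorem dns_evG [hcx : Fact (Ctx0 k v)] (hM : MS v ⊤ M) :
    DnsS v ((TWS.evG k hM).range : Set Ω) (PM v (⊥ : IntermediateField k Ω) ⊤ M) := by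
  have h0 : Ctx0 k v := hcx.out
  have hG : TWS.MonG v (⊥ : IntermediateField k Ω) ⊤ M := by
    refine ⟨hM, fun g hg hgV => ?_⟩
    obtain ⟨a, ha, ha0, hav⟩ := hgV
    obtain ⟨c, rfl⟩ := IntermediateField.mem_bot.1 ha
    have hc0 : c ≠ 0 := by
      rintro rfl
      exact ha0 (map_zero _)
    rw [h0.triv c hc0] at hav
    rw [← hav, hM.zero]
    exact one_mem _
  have hAS : ∀ x ∈ TWS.AM (⊥ : IntermediateField k Ω) hM, x ∈ (TWS.evG k hM).range := by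
    intro x hx
    rw [TWS.mem_AM] at hx
    induction hx using Submodule.span_induction with
    | mem x hx =>
      obtain ⟨g, hg, rfl⟩ := hx
      exact ⟨_, TWS.evG_mon hM hg⟩
    | zero => exact zero_mem _
    | add x y _ _ hx hy => exact add_mem hx hy
    | smul a x _ hx =>
      obtain ⟨c, hc⟩ := IntermediateField.mem_bot.1 a.2
      have e : a • x = c • x := by
        rw [Algebra.smul_def, Algebra.smul_def, hc]
        rfl
      rw [e]
      exact Subalgebra.smul_mem _ hx c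
  intro x hx b
  obtain ⟨z, hz, h1⟩ := TWS.dense_AM hG (Imm.refl _) hx b
  have hzP : z ∈ PM v (⊥ : IntermediateField k Ω) ⊤ M := by
    obtain ⟨L, hL, rfl⟩ := TWS.exists_nf hG le_rfl hz
    exact TWS.evM_mem_PM hL
  exact ⟨z, hAS z hz, hzP, h1⟩

/-- The operators at the sums of monomials. -/
theorem hsx_evG [hcx : Fact (Ctx0 k v)] {h : PM v (⊥ : IntermediateField k Ω) G M →ₐ[k] PowerSeries Ω}
    (hM : MS v ⊤ M) {A : ℕ → ℕ → L →ₗ[k] Ω}
    (hA : HSX p v (PM v (⊥ : IntermediateField k Ω) G M) L h A)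
    (hPL : PM v (⊥ : IntermediateField k Ω) ⊤ M ≤ L)
    {y : Ω} {α : G →+ ℤ_[p]} (hh : ∀ (g : ℝ) (hg : g ∈ G), h ⟨M g, TWS.PM.mon hg⟩ =
      PowerSeries.C (M g) * TWS.binS p y (α ⟨g, hg⟩)) {Y : ℕ → Ω}
    (hY : ∀ n, Y n ^ p ^ n = y) (hG : rG p G = ⊤) (n j : ℕ) {s : ℝ} (hs : v.Ge s (Y n ^ j))
    (z : L) (hz : (z : Ω) ∈ (TWS.evG k hM).range) {b : ℝ} (hb : v.Ge b (z : Ω)) :
    v.Ge (b + s) (A n j z) ∧
      (Y n ∈ PM v (⊥ : IntermediateField k Ω) ⊤ M → A n j z ∈ PM v (⊥ : IntermediateField k Ω) ⊤ M) := by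
  classical
  obtain ⟨f, hf⟩ := hz
  have hMP : ∀ γ : ℝ, M γ ∈ PM v (⊥ : IntermediateField k Ω) ⊤ M := fun γ =>
    TWS.PM.mon (AddSubgroup.mem_top γ)
  have e1 : z = ∑ g ∈ f.coeff.support, f.coeff g •
      (⟨M (g.toAdd : ℝ), hPL (hMP _)⟩ : L) := by
    refine Subtype.ext ?_
    push_cast
    rw [← hf]
    change TWS.evG k hM f = _
    rw [TWS.evG, MonoidAlgebra.lift_apply]
    rfl
  have h2 : ∀ g ∈ f.coeff.support, b ≤ (g.toAdd : ℝ) := fun g hg =>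
    TWS.ge_of_evG hcx.out hM (by
      rw [show TWS.evG k hM f = (z : Ω) from hf]
      exact hb) g (Finsupp.mem_support_iff.1 hg)
  have h3 : A n j z = ∑ g ∈ f.coeff.support, algebraMap k Ω (f.coeff g) *
      A n j ⟨M (g.toAdd : ℝ), hPL (hMP _)⟩ := by
    conv_lhs => rw [e1]
    rw [map_sum]
    refine Finset.sum_congr rfl fun g _ => ?_
    rw [map_smul, Algebra.smul_def]
  rw [h3]
  constructor
  · refine RVal.Ge.sum _ _ fun g hg => ?_
    obtain ⟨c, hc, -, h4⟩ := hsx_mon p hM hA hh hY (γ := (g.toAdd : ℝ)) (by rw [hG]; trivial) n j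
      ⟨M (g.toAdd : ℝ), hPL (hMP _)⟩ rfl
    rw [h4]
    have h5 : v.Ge b (M (g.toAdd : ℝ)) := fun _ => by
      rw [hM.val _ (AddSubgroup.mem_top _)]
      exact h2 g hg
    have h6 := (hcx.out.ge (f.coeff g)).mul ((hc.mul h5).mul hs)
    rwa [zero_add, zero_add] at h6
  · intro hYP
    refine sum_mem fun g _ => mul_mem ((PM v (⊥ : IntermediateField k Ω) ⊤ M).algebraMap_mem _) ?_
    obtain ⟨c, -, ⟨c', rfl⟩, h4⟩ := hsx_mon p hM hA hh hY (γ := (g.toAdd : ℝ))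
      (by rw [hG]; trivial) n j ⟨M (g.toAdd : ℝ), hPL (hMP _)⟩ rfl
    rw [h4]
    exact mul_mem (mul_mem ((PM v (⊥ : IntermediateField k Ω) ⊤ M).algebraMap_mem _) (hMP _))
      (pow_mem hYP j)

/-- The operators on the closure of the sums of monomials: gain and stability. -/
theorem hsx_gain [hcx : Fact (Ctx0 k v)] {h : PM v (⊥ : IntermediateField k Ω) G M →ₐ[k] PowerSeries Ω}
    (hM : MS v ⊤ M) {A : ℕ → ℕ → L →ₗ[k] Ω}
    (hA : HSX p v (PM v (⊥ : IntermediateField k Ω) G M) L h A)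
    (hPL : PM v (⊥ : IntermediateField k Ω) ⊤ M ≤ L)
    {y : Ω} {α : G →+ ℤ_[p]} (hh : ∀ (g : ℝ) (hg : g ∈ G), h ⟨M g, TWS.PM.mon hg⟩ =
      PowerSeries.C (M g) * TWS.binS p y (α ⟨g, hg⟩)) {Y : ℕ → Ω}
    (hY : ∀ n, Y n ^ p ^ n = y) (hG : rG p G = ⊤) (n j : ℕ) {s : ℝ} (hs : v.Ge s (Y n ^ j))
    (z : L) (hz : (z : Ω) ∈ PM v (⊥ : IntermediateField k Ω) ⊤ M) {b : ℝ}
    (hb : v.Ge b (z : Ω)) :
    v.Ge (b + s) (A n j z) ∧
      (Y n ∈ PM v (⊥ : IntermediateField k Ω) ⊤ M → A n j z ∈ PM v (⊥ : IntermediateField k Ω) ⊤ M) := by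
  have key : ∀ B : ℝ, ∃ z' : L, (z' : Ω) ∈ (TWS.evG k hM).range ∧ v.Ge B ((z : Ω) - z') := by
    intro B
    obtain ⟨a, ha, haP, h1⟩ := dns_evG hM (z : Ω) hz B
    exact ⟨⟨a, hPL haP⟩, ha, h1⟩
  constructor
  · obtain ⟨z', h1, h2⟩ := key (max b (b + s))
    have e : A n j z = A n j z' + A n j (z - z') := by
      rw [map_sub]
      ring
    rw [e]
    have h3 : v.Ge b (z' : Ω) := by
      have e2 : (z' : Ω) = z - (z - z') := by ring
      rw [e2]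
      exact hb.sub (h2.mono (le_max_left _ _))
    refine ((hsx_evG p hM hA hPL hh hY hG n j hs z' h1 h3).1).add ?_
    exact (hA.norm n j (z - z') _ h2).mono (le_max_right _ _)
  · intro hYP
    refine TWS.PM.cld (mem_clI.2 fun B => ?_)
    obtain ⟨z', h1, h2⟩ := key B
    refine ⟨A n j z', (hsx_evG p hM hA hPL hh hY hG n j hs z' h1 (RVal.ge_self _)).2 hYP, ?_⟩
    rw [← map_sub]
    exact hA.norm n j _ B h2

end Ops

/-! ### The base -/

section Main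

variable (p : ℕ) [hp : Fact p.Prime] [CharP k p] [CharP Ω p] [PerfectRing k p] [IsAlgClosed Ω]
  [hcx : Fact (Ctx0 k v)] {Λ : Submodule ℚ ℝ} {B : IntermediateField k Ω}

/-- **The natural motion of the base.** `x 0 = M γ`, `γ = v (x 0) ≠ 0`, `r ≥ γ`: the motion
`x 0 ↦ x 0 + M r T` of `F = PM v ⊥ (GK p γ Λ) M` is natural for every closed `B ≥ F`. Its operators
of index `j / p ^ n` preserve the closure `P` of `F(x ^ (1 / p ^ ∞))` and have gain
`j (r - γ) / p ^ n` there; the monomials of value in `Λ` are constant. -/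
theorem exists_nm_base (hΩ : CompleteV v) (hM : MS v ⊤ M) {γ : ℝ} (hγ : γ ≠ 0)
    (hΛ : IsCompl (Submodule.span ℚ {γ}) Λ) {r : ℝ} (hr : γ ≤ r)
    (hB : PM v (⊥ : IntermediateField k Ω) (GK p γ Λ) M ≤ B) :
    ∃ h : PM v (⊥ : IntermediateField k Ω) (GK p γ Λ) M →ₐ[k] PowerSeries Ω,
      NM p v B (PM v (⊥ : IntermediateField k Ω) (GK p γ Λ) M) (fun n => M (γ / p ^ n))
        (fun n => M (r / p ^ n)) h ∧
      (∀ (l : ℝ) (_ : l ∈ Λ) (hl : l ∈ GK p γ Λ),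
        h ⟨M l, TWS.PM.mon hl⟩ = PowerSeries.C (M l)) ∧
      ∀ (L : IntermediateField k Ω) (A : ℕ → ℕ → L →ₗ[k] Ω),
        HSX p v (PM v (⊥ : IntermediateField k Ω) (GK p γ Λ) M) L h A →
        PM v (⊥ : IntermediateField k Ω) ⊤ M ≤ L → ∀ (n j : ℕ) (z : L),
        (z : Ω) ∈ PM v (⊥ : IntermediateField k Ω) ⊤ M →
        A n j z ∈ PM v (⊥ : IntermediateField k Ω) ⊤ M ∧ ∀ b : ℝ, v.Ge b (z : Ω) →
          v.Ge (b + j * (r - γ) / p ^ n) (A n j z) := by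
  have hMγ : M γ ≠ 0 := hM.ne _ (AddSubgroup.mem_top _)
  have hvγ : v (M γ) = γ := hM.val _ (AddSubgroup.mem_top _)
  obtain ⟨α, h1, h2, -⟩ := TWS.exists_exp p hγ hΛ
  have hMG : MS v (GK p γ Λ) M := TWS.MS.mono hM le_top
  have hy : v.Ge 0 (M (r - γ)) := fun _ => by
    rw [hM.val _ (AddSubgroup.mem_top _)]
    linarith
  obtain ⟨h, hh, hval⟩ := TWS.exists_arc p hΩ hMG hy α (k := k)
  have hx0 : M (γ / (p : ℝ) ^ 0) = M γ := by rw [pow_zero, div_one]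
  have hχ0 : M (r / (p : ℝ) ^ 0) = M r := by rw [pow_zero, div_one]
  have hmem : M (γ / (p : ℝ) ^ 0) ∈ PM v (⊥ : IntermediateField k Ω) (GK p γ Λ) M := by
    rw [hx0]
    exact TWS.PM.mon (TWS.self_mem_GK p γ Λ)
  refine ⟨h, ⟨TWS.PM.cld, hB, hmem, hh, fun n => ?_, ?_⟩, fun l hl hlG => ?_, ?_⟩
  · rw [mon_root p hM, hχ0]
  · have e : (⟨M (γ / (p : ℝ) ^ 0), hmem⟩ :
        PM v (⊥ : IntermediateField k Ω) (GK p γ Λ) M) =
        ⟨M γ, TWS.PM.mon (TWS.self_mem_GK p γ Λ)⟩ := Subtype.ext hx0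
    have h3 := hval γ (TWS.self_mem_GK p γ Λ)
    rw [h1, TWS.binS_one, mul_add, mul_one, ← mul_assoc, ← map_mul,
      ← hM.mul _ (AddSubgroup.mem_top _) _ (AddSubgroup.mem_top _), add_sub_cancel] at h3
    rw [e, h3]
    change _ = PowerSeries.C (M (γ / (p : ℝ) ^ 0)) + PowerSeries.C (M (r / (p : ℝ) ^ 0)) * _
    rw [hx0, hχ0]
  · rw [hval l hlG, h2 l hl hlG, TWS.binS_zero, mul_one]
  · intro L A hA hPL n j z hz
    have hs : v.Ge (j * (r - γ) / p ^ n) (M ((r - γ) / p ^ n) ^ j) := by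
      have h3 := ge_pow (RVal.ge_self (v := v) (M ((r - γ) / p ^ n))) j
      rw [hM.val _ (AddSubgroup.mem_top _), ← mul_div_assoc] at h3
      exact h3
    have key : ∀ {b : ℝ}, v.Ge b (z : Ω) → _ := fun {b} hb =>
      hsx_gain p hM hA hPL hval (Y := fun n => M ((r - γ) / p ^ n)) (fun n => mon_root p hM _ n)
        (TWS.rG_GK p hΛ) n j hs z hz (b := b) hb
    exact ⟨(key (RVal.ge_self _)).2 (TWS.PM.mon (AddSubgroup.mem_top _)), fun b hb => (key hb).1⟩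

end Main

end Pool.Agent.TWC
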