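import Pool.Agent.Lib.TWC.Poly

/-!
# TANK W, dimension 4, row R4: polynomials in `z` with a small derivative

`z` of transcendental type and of radius `0` over `A`. A polynomial in `z` with a small derivative
is near to a polynomial in `z ^ p`.
-/

set_option autoImplicit false

open Polynomial

namespace Pool.Agent.TWC

open Pool.Agent.H15JM (RVal)
open Pool.Agent.D2 (Ctx0)
open Pool.Agent.TWM

universe u

variable {k Ω : Type u} [Field k] [Field Ω] [Algebra k Ω] {v : RVal Ω}
  {A : IntermediateField k Ω} {z : Ω} [IsAlgClosed Ω] (p : ℕ) [Fact p.Prime] [CharP Ω p]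

/-- The Hasse derivatives at the points near `z`. -/
theorem hasse_near (h : TL v A z 0) {f : Polynomial Ω} (hf : f ∈ PI A) {r : ℝ}
    (hz : v.Ge r (f.eval z)) :
    ∃ δ : ℝ, 0 < δ ∧ ∀ ψ, v.Ge (-δ) (z - ψ) → ∀ l, v.Ge r ((hasseDeriv l f).eval ψ) := by
  classical
  have key : ∀ n : ℕ, ∃ δ : ℝ, 0 < δ ∧ ∀ ψ, v.Ge (-δ) (z - ψ) → ∀ l < n,
      v.Ge r ((hasseDeriv l f).eval ψ) := by
    intro n
    induction n with
    | zero => exact ⟨1, one_pos, fun _ _ l hl => absurd hl (Nat.not_lt_zero l)⟩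
    | succ n ih =>
      obtain ⟨δ, hδ, h1⟩ := ih
      by_cases h0 : hasseDeriv n f = 0
      · refine ⟨δ, hδ, fun ψ hψ l hl => ?_⟩
        rcases Nat.lt_succ_iff_lt_or_eq.1 hl with h2 | rfl
        · exact h1 ψ hψ l h2
        · rw [h0, eval_zero]
          exact RVal.Ge.zero
      obtain ⟨δ', hδ', h2⟩ := h.near_val (PI_mono (le_algc A) (hasse_mem_PI hf n)) h0
      refine ⟨min δ δ', lt_min hδ hδ', fun ψ hψ l hl => ?_⟩
      rcases Nat.lt_succ_iff_lt_or_eq.1 hl with h3 | rfl
      · exact h1 ψ (hψ.mono (neg_le_neg (min_le_left _ _))) l h3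
      · obtain ⟨h4, h5⟩ := h2 ψ (hψ.mono (by
          have := min_le_right δ δ'
          linarith))
        intro _
        rw [h5]
        refine hasse_ge h hf hz l ?_
        exact h.eval_ne (PI_mono (le_algc A) (hasse_mem_PI hf l)) h0
  obtain ⟨δ, hδ, h1⟩ := key (f.natDegree + 1)
  refine ⟨δ, hδ, fun ψ hψ l => ?_⟩
  by_cases hl : l < f.natDegree + 1
  · exact h1 ψ hψ l hl
  · rw [hasseDeriv_eq_zero_of_lt_natDegree _ _ (by omega), eval_zero]
    exact RVal.Ge.zero

/-- The part of exponents divisible by `p` of the expansion at `θ`, as a polynomial in `X ^ p`. -/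
noncomputable def ppart (f : Polynomial Ω) (θ : Ω) : Polynomial Ω :=
  ∑ j ∈ Finset.range (f.natDegree + 1), C ((taylor θ f).coeff (p * j)) * (X - C (θ ^ p)) ^ j

omit [IsAlgClosed Ω] [CharP Ω p] [Fact p.Prime] in
theorem ppart_mem {f : Polynomial Ω} (hf : f ∈ PI A) {θ : Ω} (hθ : θ ∈ A) :
    ppart p f θ ∈ PI A := by
  refine sum_mem fun j _ => mul_mem ?_ (pow_mem (sub_mem ?_ ?_) j)
  · intro i
    rw [coeff_C]
    split_ifs
    · rw [taylor_coeff]
      exact eval_mem (hasse_mem_PI hf _) hθ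
    · exact zero_mem _
  · intro i
    rw [coeff_X]
    split_ifs
    exacts [one_mem _, zero_mem _]
  · intro i
    rw [coeff_C]
    split_ifs
    exacts [pow_mem hθ p, zero_mem _]

omit [IsAlgClosed Ω] in
theorem ppart_eval (f : Polynomial Ω) (θ z : Ω) :
    f.eval z - (ppart p f θ).eval (z ^ p) =
      ∑ l ∈ (Finset.range (f.natDegree + 1)).filter (fun l => ¬ p ∣ l),
        (taylor θ f).coeff l * (z - θ) ^ l := by
  classical
  have hp : p.Prime := Fact.out
  have h1 : f.eval z = ∑ l ∈ Finset.range (f.natDegree + 1),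
      (taylor θ f).coeff l * (z - θ) ^ l := by
    rw [eval_eq_taylor f θ z, eval_eq_sum_range' (n := f.natDegree + 1)
      (by rw [natDegree_taylor]; omega)]
  have h2 : (ppart p f θ).eval (z ^ p) = ∑ j ∈ Finset.range (f.natDegree + 1),
      (taylor θ f).coeff (p * j) * (z - θ) ^ (p * j) := by
    have hz : (z - θ) ^ p = z ^ p - θ ^ p := sub_pow_char z θ
    rw [ppart, eval_finsetSum]
    refine Finset.sum_congr rfl fun j _ => ?_
    rw [eval_mul, eval_C, eval_pow, eval_sub, eval_X, eval_C, pow_mul, hz]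
  have h3 : ∑ j ∈ Finset.range (f.natDegree + 1),
      (taylor θ f).coeff (p * j) * (z - θ) ^ (p * j) =
      ∑ l ∈ (Finset.range (f.natDegree + 1)).filter (fun l => p ∣ l),
        (taylor θ f).coeff l * (z - θ) ^ l := by
    rw [← Finset.sum_filter_add_sum_filter_not (Finset.range (f.natDegree + 1))
      (fun j => p * j < f.natDegree + 1)]
    have h4 : ∑ j ∈ (Finset.range (f.natDegree + 1)).filter
        (fun j => ¬ p * j < f.natDegree + 1),
        (taylor θ f).coeff (p * j) * (z - θ) ^ (p * j) = 0 := by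
      refine Finset.sum_eq_zero fun j hj => ?_
      have h5 := (Finset.mem_filter.1 hj).2
      rw [coeff_eq_zero_of_natDegree_lt (by rw [natDegree_taylor]; omega), zero_mul]
    rw [h4, add_zero]
    refine Finset.sum_bij (fun j _ => p * j) ?_ ?_ ?_ ?_
    · intro j hj
      have h5 := (Finset.mem_filter.1 hj).2
      exact Finset.mem_filter.2 ⟨Finset.mem_range.2 h5, dvd_mul_right p j⟩
    · intro i _ j _ hij
      exact Nat.eq_of_mul_eq_mul_left hp.pos hij
    · intro l hl
      obtain ⟨h5, j, rfl⟩ := Finset.mem_filter.1 hl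
      have h6 := Finset.mem_range.1 h5
      refine ⟨j, Finset.mem_filter.2 ⟨Finset.mem_range.2 ?_, h6⟩, rfl⟩
      have := Nat.le_mul_of_pos_left j hp.pos
      omega
    · intro j _
      rfl
  rw [h1, h2, h3, ← Finset.sum_filter_add_sum_filter_not (Finset.range (f.natDegree + 1))
    (fun l => p ∣ l), add_sub_cancel_left]

omit [IsAlgClosed Ω] in
/-- The coefficients of exponents not divisible by `p`, from the derivative. -/
theorem coeff_of_deriv {f : Polynomial Ω} {θ : Ω} {r : ℝ}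
    (h : ∀ l, v.Ge r ((hasseDeriv l (hasseDeriv 1 f)).eval θ)) {l : ℕ} (hl : ¬ p ∣ l) :
    v.Ge r ((taylor θ f).coeff l) := by
  have hl1 : 1 ≤ l := by
    rcases Nat.eq_zero_or_pos l with rfl | h1
    · exact absurd (dvd_zero p) hl
    · exact h1
  have h2 := h (l - 1)
  have h3 := congrArg (fun L => L f) (hasseDeriv_comp (R := Ω) (l - 1) 1)
  simp only [LinearMap.comp_apply, LinearMap.smul_apply] at h3
  rw [h3, show l - 1 + 1 = l by omega, eval_smul, nsmul_eq_mul,
    ← Nat.choose_symm (by omega), show l - (l - 1) = 1 by omega, Nat.choose_one_right] at h2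
  rw [taylor_coeff]
  exact ge_of_natCast_mul p hl h2

/-- A polynomial in `z` with a small derivative is near to a polynomial in `z ^ p`. -/
theorem pth_part (h : TL v A z 0) {f : Polynomial Ω} (hf : f ∈ PI A) {r : ℝ}
    (hD : v.Ge r ((hasseDeriv 1 f).eval z)) {ε : ℝ} (hε : 0 < ε) :
    ∃ g ∈ PI A, v.Ge (r - ε) (f.eval z - g.eval (z ^ p)) := by
  classical
  obtain ⟨δ, hδ, h1⟩ := hasse_near h (hasse_mem_PI hf 1) hD
  have hd : (0 : ℝ) < f.natDegree + 1 := by positivity
  obtain ⟨θ, hθ, h2⟩ := h.lim (min δ (ε / (f.natDegree + 1))) (lt_min hδ (by positivity))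
  rw [zero_sub] at h2
  have h3 := h1 θ (h2.mono (neg_le_neg (min_le_left _ _)))
  refine ⟨ppart p f θ, ppart_mem p hf hθ, ?_⟩
  rw [ppart_eval]
  refine RVal.Ge.sum _ _ fun l hl => ?_
  obtain ⟨h4, h5⟩ := Finset.mem_filter.1 hl
  have h6 : (l : ℝ) ≤ f.natDegree + 1 := by
    have := Finset.mem_range.1 h4
    exact_mod_cast this.le
  refine (RVal.Ge.mul (coeff_of_deriv p h3 h5)
    (ge_pow (h2.mono (neg_le_neg (min_le_right _ _))) l)).mono ?_
  have h7 : (l : ℝ) * (ε / (f.natDegree + 1)) ≤ ε := by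
    rw [mul_div_assoc', div_le_iff₀ hd]
    nlinarith
  linarith

/-- A polynomial in `z` with a derivative of positive value. -/
theorem pth_part_gt (h : TL v A z 0) {f : Polynomial Ω} (hf : f ∈ PI A)
    (hD : Gt v 0 ((hasseDeriv 1 f).eval z)) :
    ∃ g ∈ PI A, Gt v 0 (f.eval z - g.eval (z ^ p)) := by
  classical
  obtain ⟨m, hm, hDm⟩ : ∃ m : ℝ, 0 < m ∧ v.Ge m ((hasseDeriv 1 f).eval z) := by
    by_cases h0 : (hasseDeriv 1 f).eval z = 0
    · exact ⟨1, one_pos, fun h => absurd h0 h⟩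
    · exact ⟨_, hD h0, fun _ => le_rfl⟩
  obtain ⟨g, hg, h1⟩ := pth_part p h hf hDm (ε := m / 2) (by positivity)
  exact ⟨g, hg, Gt.of_ge h1 (by linarith)⟩

/-- A polynomial in `z` with an integral derivative. -/
theorem pth_part_res (hk : Ctx0 k v) (h : TL v A z 0) {f : Polynomial Ω} (hf : f ∈ PI A)
    (hD : v.Ge 0 ((hasseDeriv 1 f).eval z)) :
    ∃ g ∈ PI A, ∃ c : k, Gt v 0 (f.eval z - g.eval (z ^ p) - algebraMap k Ω c * z) := by
  obtain ⟨c, hc⟩ := hk.residue hD
  have hX : (C (algebraMap k Ω c) * X : Polynomial Ω) ∈ PI A := by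
    intro i
    rw [coeff_C_mul, coeff_X]
    split_ifs
    · rw [mul_one]
      exact A.algebraMap_mem c
    · rw [mul_zero]
      exact zero_mem _
  obtain ⟨g, hg, h1⟩ := pth_part_gt p h (sub_mem hf hX) (by
    rw [map_sub, eval_sub]
    have h2 : (hasseDeriv 1 (C (algebraMap k Ω c) * X : Polynomial Ω)).eval z =
        algebraMap k Ω c := by
      rw [hasseDeriv_one, derivative_C_mul_X, eval_C]
    rw [h2]
    exact hc)
  refine ⟨g, hg, c, ?_⟩
  have h3 : f.eval z - g.eval (z ^ p) - algebraMap k Ω c * z =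
      (f - C (algebraMap k Ω c) * X).eval z - g.eval (z ^ p) := by
    rw [eval_sub, eval_mul, eval_C, eval_X]
    ring
  rw [h3]
  exact h1

end Pool.Agent.TWC
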