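import Pool.Agent.Lib.TWC.DescDefs
import Pool.Agent.Lib.TWM.A2
import Pool.Agent.Lib.TWM.B1
import Pool.Agent.Lib.TWM.G3
import Pool.Agent.Lib.TWM.Ent1

/-!
# TANK W, class C, row B3f, first half: one step of the descent of a tower
-/

set_option autoImplicit false

open Polynomial

namespace Pool.Agent.TWC

open Pool.Agent.H15JM (RVal)
open Pool.Agent.LU1 (VPos adj)
open Pool.Agent.D2 (Ctx0)
open Pool.Agent.D2P (hen clI mem_clI)
open Pool.Agent.TWM

universe u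

variable {k Ω : Type u} [Field k] [Field Ω] [Algebra k Ω] {v : RVal Ω} [Fact (Ctx0 k v)]
  {C E L LE N : IntermediateField k Ω}

omit [Fact (Ctx0 k v)] in
/-- The closure of `N<y> E` is `(N E)<y>`. -/
theorem clI_cadj_sup (N E : IntermediateField k Ω) (y : Ω) :
    clI v (cadj v N y ⊔ E) = cadj v (clI v (N ⊔ E)) y := by
  apply le_antisymm
  · refine (clI_mono (sup_le ?_ ?_)).trans (cld_cadj v _ _)
    · exact cadj_le (cld_cadj _ _ _)
        ((le_sup_left.trans (le_clI _)).trans (le_cadj _ _ _)) (self_mem_cadj _ _ _)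
    · exact (le_sup_right.trans (le_clI _)).trans (le_cadj _ _ _)
  · refine cadj_le (cld_clI v _) (clI_mono (sup_le_sup_right (le_cadj v N y) E)) ?_
    exact le_clI _ ((le_sup_left : cadj v N y ≤ cadj v N y ⊔ E) (self_mem_cadj v N y))

omit [Fact (Ctx0 k v)] in
theorem clI_cadj (h : C ≤ E) (hE : Cld v E) (y : Ω) :
    clI v (cadj v C y ⊔ E) = cadj v E y := by
  have h1 : clI v E = E := le_antisymm hE (le_clI _)
  rw [clI_cadj_sup, sup_eq_right.2 h, h1]

variable {T : Submodule k (Opr v E)}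

theorem Desc.inf (hD : Desc v C E T L LE) {N : IntermediateField k Ω} (hN : Cld v N) (hC : C ≤ N)
    (hL : N ≤ L) {l : Ω} (hl : l ∈ L) (h : l ∈ clI v (N ⊔ E)) : l ∈ N := by
  refine hN (mem_clI.2 fun b => ?_)
  obtain ⟨a', ha', h1⟩ := hD.dist N hN hC hL l hl (b + 1) l h
    (by rw [sub_self]; exact RVal.Ge.zero) 1 one_pos
  exact ⟨a', ha', h1.mono (by linarith)⟩

theorem Desc.le_LE (hD : Desc v C E T L LE) : L ≤ LE := by
  rw [hD.eq]
  exact le_sup_left.trans (le_clI _)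

theorem Desc.E_le (hD : Desc v C E T L LE) : E ≤ LE := by
  rw [hD.eq]
  exact le_sup_right.trans (le_clI _)

theorem Desc.cld_LE (hD : Desc v C E T L LE) : Cld v LE := by
  rw [hD.eq]
  exact cld_clI v _

theorem Desc.base_le (hD : Desc v C E T L LE) (hL : N ≤ L) : clI v (N ⊔ E) ≤ LE := by
  rw [hD.eq]
  exact clI_mono (sup_le_sup_right hL E)

/-- limits descend -/
theorem Desc.lim (hD : Desc v C E T L LE) (hN : Cld v N) (hC : C ≤ N) (hL : N ≤ L) {l : Ω}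
    (hl : l ∈ L) {r : ℝ} (h : Lim v (clI v (N ⊔ E)) r l) : Lim v N r l := by
  intro ε hε
  obtain ⟨a, ha, h1⟩ := h (ε / 2) (half_pos hε)
  obtain ⟨a', ha', h2⟩ := hD.dist N hN hC hL l hl _ a ha h1 (ε / 2) (half_pos hε)
  exact ⟨a', ha', h2.mono (by linarith)⟩

/-- If `u` in `L` generates `LE` over `N E` then it generates `L` over `N`. -/
theorem Desc.eq_cadj (hD : Desc v C E T L LE) (hC : C ≤ N) (hL : N ≤ L) {u : Ω}
    (hu : u ∈ L) (h : LE = cadj v (clI v (N ⊔ E)) u) : L = cadj v N u := by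
  apply le_antisymm
  · intro l hl
    refine hD.inf (cld_cadj v N u) (hC.trans (le_cadj v N u)) (cadj_le hD.cld hL hu) hl ?_
    rw [clI_cadj_sup, ← h]
    exact hD.le_LE hl
  · exact cadj_le hD.cld hL hu

/-- **One step of the descent.** -/
theorem Desc.step [IsAlgClosed Ω] (hD : Desc v C E T L LE) (hN : Cld v N) (hC : C ≤ N)
    (hL : N ≤ L) {x : Ω} (hx : x ∈ LE) (hT : TL v (clI v (N ⊔ E)) x 0)
    (hop : ∀ φ ∈ T, ∀ Φ : Opr v LE, IsExt L φ Φ → Nr v (clI v (N ⊔ E)) 0 (fn Φ x)) :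
    ∃ u ∈ L, Nr' v (clI v (N ⊔ E)) 0 (x - u) ∧ TL v (clI v (N ⊔ E)) u 0 ∧ TL v N u 0 ∧
      (LE = cadj v (clI v (N ⊔ E)) x → LE = cadj v (clI v (N ⊔ E)) u ∧ L = cadj v N u) := by
  obtain ⟨u, hu, a, ha, h1⟩ := hD.desc N hN hC hL x hx hT.lim hop
  have h2 : Gt v 0 (u - (x - a)) := by
    have h3 := h1.neg
    rwa [show -(x - u - a) = u - (x - a) by ring] at h3
  have h3 : TL v (clI v (N ⊔ E)) u 0 := (hT.sub_mem ha).congr h2
  refine ⟨u, hu, ⟨a, ha, h1⟩, h3, h3.of_le (le_sup_left.trans (le_clI _))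
    (hD.lim hN hC hL hu h3.lim), fun h4 => ?_⟩
  have h5 : cadj v (clI v (N ⊔ E)) (x - a) = LE := by rw [cadj_sub_mem ha, h4]
  have h6 : LE = cadj v (clI v (N ⊔ E)) u := by
    rw [← h5]
    exact ((hT.sub_mem ha).cadj_congr (by rw [h5]; exact hD.le_LE hu) h2).symm
  exact ⟨h6, hD.eq_cadj hC hL hu h6⟩

omit [Fact (Ctx0 k v)] in
theorem clI_sup_base (h : C ≤ E) (hE : Cld v E) : clI v (C ⊔ E) = E := by
  rw [sup_eq_right.2 h]
  exact le_antisymm hE (le_clI _)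

/-- Length one, the operators act trivially on the generator. -/
theorem tower_one_of [IsAlgClosed Ω] (hD : Desc v C E T L LE) (hC : Cld v C) (hE : Cld v E)
    (hCE : C ≤ E) {y : Ω} (hy : TL v E y 0) (hLE : LE = cadj v E y)
    (hop : ∀ φ ∈ T, ∀ Φ : Opr v LE, IsExt L φ Φ → Nr v E 0 (fn Φ y)) :
    ∃ u ∈ L, TL v C u 0 ∧ L = cadj v C u := by
  have h1 := clI_sup_base hCE hE
  obtain ⟨u, hu, -, -, h2, h3⟩ := hD.step (N := C) (x := y) hC le_rfl hD.le
    (by rw [hLE]; exact self_mem_cadj v E y) (by rw [h1]; exact hy) (by rw [h1]; exact hop)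
  exact ⟨u, hu, h2, (h3 (by rw [h1]; exact hLE)).2⟩

section Two

variable {A B : IntermediateField k Ω} {y z u x : Ω}

/-- The generator of the span may be changed. -/
theorem Spn.move {p : ℕ} [Fact p.Prime] [CharP Ω p] (h : Spn p v A y x)
    (hu : Nr' v A 0 (y - u)) : Spn p v A u x := by
  obtain ⟨n, c, b, hb, h1⟩ := h
  obtain ⟨a, ha, h2⟩ := hu
  refine ⟨n, c, b + ∑ i ∈ Finset.range n, algebraMap k Ω (c i) * a ^ p ^ i,
    add_mem hb (sum_mem fun i _ => mul_mem (A.algebraMap_mem _) (pow_mem ha _)), ?_⟩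
  have h3 : v.Ge 0 (∑ i ∈ Finset.range n, algebraMap k Ω (c i) * (y - u - a) ^ p ^ i) := by
    refine RVal.Ge.sum _ _ fun i _ => ?_
    have h4 := ge_pow h2.ge (p ^ i)
    rw [mul_zero] at h4
    have h5 := ((Fact.out : Ctx0 k v).ge (c i)).mul h4
    rwa [add_zero] at h5
  have h4 := h1.add h3
  convert h4 using 1
  have h5 : ∑ i ∈ Finset.range n, algebraMap k Ω (c i) * (y - u - a) ^ p ^ i =
      ∑ i ∈ Finset.range n, algebraMap k Ω (c i) * y ^ p ^ i -
      ∑ i ∈ Finset.range n, algebraMap k Ω (c i) * u ^ p ^ i -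
      ∑ i ∈ Finset.range n, algebraMap k Ω (c i) * a ^ p ^ i := by
    rw [← Finset.sum_sub_distrib, ← Finset.sum_sub_distrib]
    refine Finset.sum_congr rfl fun i _ => ?_
    rw [sub_pow_char_pow, sub_pow_char_pow]
    ring
  rw [h5]
  ring

omit [Fact (Ctx0 k v)] in
theorem Spn.nr {p : ℕ} (h : Spn p v A u x) : Nr v (cadj v A u) 0 x := by
  obtain ⟨n, c, b, hb, h1⟩ := h
  refine ⟨b + ∑ i ∈ Finset.range n, algebraMap k Ω (c i) * u ^ p ^ i,
    add_mem (le_cadj v A u hb) (sum_mem fun i _ => mul_mem (algebraMap_mem _ _)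
      (pow_mem (self_mem_cadj v A u) _)), ?_⟩
  rwa [show x - (b + ∑ i ∈ Finset.range n, algebraMap k Ω (c i) * u ^ p ^ i) =
    x - ∑ i ∈ Finset.range n, algebraMap k Ω (c i) * u ^ p ^ i - b by ring]

omit [Fact (Ctx0 k v)] in
/-- The first generator may be translated. -/
theorem fib_sub (hF : Fib v A B y z 0 0) {a : Ω} (ha : a ∈ A) : Fib v A B (y - a) z 0 0 where
  ty := hF.ty.sub_mem ha
  tz := by
    rw [cadj_sub_mem ha]
    exact hF.tz
  eq := by
    rw [cadj_sub_mem ha]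
    exact hF.eq

omit [Fact (Ctx0 k v)] in
theorem fib_move_aux (hu : Nr' v A 0 (y - u)) : ∃ a ∈ A, Gt v 0 (y - a - u) := by
  obtain ⟨a, ha, h1⟩ := hu
  exact ⟨a, ha, by rwa [show y - a - u = y - u - a by ring]⟩

variable [IsAlgClosed Ω]

omit [Fact (Ctx0 k v)] in
/-- The first generator may be changed. -/
theorem fib_move (hF : Fib v A B y z 0 0) (hu : u ∈ B) (h : Nr' v A 0 (y - u)) :
    ∃ z', Fib v A B u z' 0 0 := by
  obtain ⟨a, ha, h1⟩ := fib_move_aux h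
  exact (fib_sub hF ha).exists_stab hu h1

omit [Fact (Ctx0 k v)] in
/-- The same, the second generator is a limit of the base. -/
theorem fib_move_lim (hF : Fib v A B y z 0 0) (hz : Lim v A 0 z) (hu : u ∈ B)
    (h : Nr' v A 0 (y - u)) : Fib v A B u z 0 0 := by
  obtain ⟨a, ha, h1⟩ := fib_move_aux h
  obtain ⟨T, hT, h2⟩ := (fib_sub hF ha).stab hu h1
  obtain ⟨e, he, h3⟩ := hz T hT
  have h4 := h2 (C e) (C_mem_PI he) (by rw [eval_C]; exact h3)
  rwa [eval_C, eval_C, sub_add_cancel] at h4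

/-- Length two, from the actions on the two generators. -/
theorem tower_two_of (hD : Desc v C E T L LE) (hC : Cld v C) (hE : Cld v E) (hCE : C ≤ E)
    (hF : Fib v E LE y z 0 0)
    (hop₁ : ∀ φ ∈ T, ∀ Φ : Opr v LE, IsExt L φ Φ → Nr v E 0 (fn Φ y))
    (hop₂ : ∀ u ∈ L, Nr' v E 0 (y - u) → TL v C u 0 → ∃ z', Fib v E LE u z' 0 0 ∧
      ∀ φ ∈ T, ∀ Φ : Opr v LE, IsExt L φ Φ → Nr v (cadj v E u) 0 (fn Φ z')) :
    ∃ u₁ ∈ L, ∃ u₂ ∈ L, Fib v C L u₁ u₂ 0 0 := by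
  have h1 := clI_sup_base hCE hE
  have hyLE : y ∈ LE := by
    rw [hF.eq]
    exact le_cadj _ _ _ (self_mem_cadj v E y)
  obtain ⟨u, hu, h2, -, h3, -⟩ := hD.step (N := C) (x := y) hC le_rfl hD.le hyLE
    (by rw [h1]; exact hF.ty) (by rw [h1]; exact hop₁)
  rw [h1] at h2
  obtain ⟨z', hF', hop⟩ := hop₂ u hu h2 h3
  have h4 : clI v (cadj v C u ⊔ E) = cadj v E u := clI_cadj hCE hE u
  have hz'LE : z' ∈ LE := by
    rw [hF'.eq]
    exact self_mem_cadj v _ z'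
  obtain ⟨u', hu', -, -, h5, h6⟩ := hD.step (N := cadj v C u) (x := z') (cld_cadj v C u)
    (le_cadj v C u) (cadj_le hD.cld hD.le hu) hz'LE (by rw [h4]; exact hF'.tz)
    (by rw [h4]; exact hop)
  exact ⟨u, hu, u', hu', h3, h5, (h6 (by rw [h4]; exact hF'.eq)).2⟩

end Two

end Pool.Agent.TWC
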