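import Pool.Agent.Lib.TWC.DichA
import Pool.Agent.Lib.TWC.GCls
import Pool.Agent.Lib.TWC.B2
import Pool.Agent.Lib.TWC.Tower1
import Pool.Agent.Lib.TWC.NilpGen

/-!
# TANK W, class C, row B3d: the operators act trivially (rank one)

* `triv_one`: if the limits of `E` in `LE` are in the span of `y`, the operators act trivially on
  the class of `y`;
* `triv_two`: the same on the second floor, by `B2`.
-/

set_option autoImplicit false

open Polynomial TensorProduct

namespace Pool.Agent.TWC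

open Pool.Agent.H15JM (RVal)
open Pool.Agent.LU1 (VPos adj)
open Pool.Agent.D2 (Ctx0)
open Pool.Agent.D2P (hen clI mem_clI)
open Pool.Agent.TWM

universe u

variable {k Ω : Type u} [Field k] [Field Ω] [Algebra k Ω] {v : RVal Ω} [Fact (Ctx0 k v)]
  {C E L LE : IntermediateField k Ω} {z : Ω} (p : ℕ) [Fact p.Prime] [CharP k p] [CharP Ω p]
  [PerfectRing k p] [IsAlgClosed Ω] {T : Submodule k (Opr v E)}

/-! ### The scalars -/

omit [Fact (Ctx0 k v)] [IsAlgClosed Ω] in
theorem TL.not_nr {B : IntermediateField k Ω} (hz : TL v B z 0) : ¬ Nr v B 0 z := by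
  rintro ⟨a, ha, h⟩
  obtain ⟨h1, h2⟩ := hz.far a (isAlgebraic_algebraMap (⟨a, ha⟩ : B))
  have := h (sub_ne_zero.2 h1)
  linarith

omit [Fact (Ctx0 k v)] [IsAlgClosed Ω] in
theorem Nr.add {B : IntermediateField k Ω} {r : ℝ} {x y : Ω} (hx : Nr v B r x)
    (hy : Nr v B r y) : Nr v B r (x + y) := by
  obtain ⟨a, ha, h1⟩ := hx
  obtain ⟨b, hb, h2⟩ := hy
  exact ⟨a + b, add_mem ha hb, by rw [add_sub_add_comm]; exact h1.add h2⟩

omit [IsAlgClosed Ω] in
theorem Nr.smul {B : IntermediateField k Ω} {x : Ω} (a : k) (hx : Nr v B 0 x) :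
    Nr v B 0 (algebraMap k Ω a * x) := by
  obtain ⟨b, hb, h1⟩ := hx
  refine ⟨algebraMap k Ω a * b, mul_mem (B.algebraMap_mem a) hb, ?_⟩
  rw [← mul_sub]
  have := ((Fact.out : Ctx0 k v).ge a).mul h1
  rwa [zero_add] at this

omit [IsAlgClosed Ω] in
/-- The operator respects `B + O(0)` if it respects `B`. -/
theorem Nr.fn {B : IntermediateField k Ω} (hB : B ≤ LE) {Φ : Opr v LE}
    (hΦB : ∀ e ∈ B, fn Φ e ∈ B) {x : Ω} (hxL : x ∈ LE) (hx : Nr v B 0 x) :
    Nr v B 0 (fn Φ x) := by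
  obtain ⟨b, hb, h1⟩ := hx
  refine ⟨TWC.fn Φ b, hΦB b hb, ?_⟩
  have h2 := fn_ge Φ (sub_mem hxL (hB hb)) h1
  have h3 := fn_add Φ (sub_mem hxL (hB hb)) (hB hb)
  rw [sub_add_cancel] at h3
  rwa [h3, add_sub_cancel_right]

omit [IsAlgClosed Ω] in
theorem KilN.iter (B : IntermediateField k Ω) {Φ : Opr v LE} {φ : Opr v E} (hφ : φ ∈ T)
    (hΦ : IsExt L φ Φ) :
    ∀ (m : ℕ) (x : Ω), KilN T L LE m x → Nr v B 0 ((fn Φ)^[m] x)
  | 0, _, h => ⟨0, zero_mem B, by rw [sub_zero]; exact h⟩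
  | m + 1, x, h => by
    rw [Function.iterate_succ_apply]
    exact KilN.iter B hφ hΦ m _ (h φ hφ Φ hΦ)

omit [IsAlgClosed Ω] in
/-- A nilpotent scalar is zero. -/
theorem scalar_zero {B : IntermediateField k Ω} (hB : B ≤ LE) (hz : TL v B z 0) (hzL : z ∈ LE)
    {Φ : Opr v LE} (hΦB : ∀ e ∈ B, fn Φ e ∈ B) {a : k}
    (ha : Nr v B 0 (fn Φ z - algebraMap k Ω a * z)) {m : ℕ} (h1 : Nr v B 0 ((fn Φ)^[m] z)) :
    a = 0 := by
  have hmem : ∀ n, (fn Φ)^[n] z ∈ LE := fun n => by
    cases n with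
    | zero => exact hzL
    | succ n =>
      rw [Function.iterate_succ_apply']
      exact fn_mem Φ _
  have hsm : ∀ (c : k) (x : Ω), x ∈ LE → fn Φ (algebraMap k Ω c * x) =
      algebraMap k Ω c * fn Φ x := fun c x hx => by
    have := fn_smul Φ c hx
    rwa [Algebra.smul_def, Algebra.smul_def] at this
  have key : ∀ n, Nr v B 0 ((fn Φ)^[n] z - algebraMap k Ω (a ^ n) * z) := by
    intro n
    induction n with
    | zero =>
      refine ⟨0, zero_mem B, ?_⟩
      rw [Function.iterate_zero_apply, pow_zero, map_one, one_mul, sub_self, sub_zero]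
      exact RVal.Ge.zero
    | succ n ih =>
      have h0 : algebraMap k Ω (a ^ n) * z ∈ LE := mul_mem (LE.algebraMap_mem _) hzL
      have h1 := Nr.fn hB hΦB (sub_mem (hmem n) h0) ih
      have h2 := fn_add Φ (sub_mem (hmem n) h0) h0
      rw [sub_add_cancel, hsm _ _ hzL] at h2
      have h3 := Nr.add h1 (Nr.smul (a ^ n) ha)
      rw [Function.iterate_succ_apply', h2]
      convert h3 using 1
      rw [pow_succ, map_mul]
      ring
  by_contra h0
  have h2 := Nr.smul (-(a ^ m)⁻¹) (Nr.add (key m) (Nr.smul (-1) h1))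
  refine TL.not_nr hz ?_
  convert h2 using 1
  have h3 : algebraMap k Ω (a ^ m) ≠ 0 := by
    rw [Ne, map_eq_zero]
    exact pow_ne_zero m h0
  rw [map_neg, map_inv₀, map_neg, map_one]
  field_simp
  ring

/-! ### Rank one, first floor -/

omit [PerfectRing k p] [IsAlgClosed Ω] in
theorem cls_eq_zc {y : Ω} (hy : TL v E y 0) : cls v E y = zc p hy 0 :=
  cls_eq (m := zs hy) (zs_nul hy)

/-- An operator which sends the class of `y` to its span acts by a scalar. -/
theorem act_cls (h : Oper p v C E T) (hV : NSD p h) {y : Ω} (hy : TL v E y 0) {φ : Opr v E}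
    (hφ : φ ∈ T) : ∀ (n : ℕ) (c : ℕ → k),
    MM.act φ (cls v E y) = ∑ i ∈ Finset.range n, c i • (MM.fr p v E)^[i] (cls v E y) →
    ∃ a : k, MM.act φ (cls v E y) = a • cls v E y
  | 0, c, hn => ⟨0, by rw [hn, Finset.sum_range_zero, zero_smul]⟩
  | 1, c, hn => ⟨c 0, by rw [hn, Finset.sum_range_one, Function.iterate_zero_apply]⟩
  | n + 2, c, hn => by
    by_cases hc : c (n + 1) = 0
    · exact act_cls h hV hy hφ (n + 1) c (by
        rw [hn, Finset.sum_range_succ, hc, zero_smul, add_zero])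
    · exfalso
      set g := cls v E y with hg
      set F := MM.fr p v E
      set Y : Submodule k (MM v E) := Submodule.span k {g} with hY
      have hgY : g ∈ Y := Submodule.mem_span_singleton_self g
      have h1 : F^[n + 1] g ∈ V F (Y ⊔ act (h.ops p) Y) (n + 1) := by
        have h2 : F^[n + 1] g = (c (n + 1))⁻¹ • (MM.act φ g -
            ∑ i ∈ Finset.range (n + 1), c i • F^[i] g) := by
          rw [hn, Finset.sum_range_succ _ (n + 1), add_sub_cancel_left, smul_smul,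
            inv_mul_cancel₀ hc, one_smul]
        rw [h2]
        refine Submodule.smul_mem _ _ (sub_mem ?_ (sum_mem fun i hi => ?_))
        · refine le_V n (Submodule.mem_sup_right ?_)
          exact mem_act (O := h.ops p) (φ := MM.actHom v E φ) ⟨φ, hφ, rfl⟩ hgY
        · refine Submodule.smul_mem _ _ ?_
          have h3 : F^[i] g ∈ V F (Y ⊔ act (h.ops p) Y) (1 + i) :=
            it_mem_V (le_V 0 (Submodule.mem_sup_left hgY)) i
          exact V_mono (by have := Finset.mem_range.1 hi; omega) h3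
      have h4 := hV Y (Submodule.fg_span_singleton g) (n + 1) (by omega) (fun y' hy' => by
        obtain ⟨a, rfl⟩ := Submodule.mem_span_singleton.1 hy'
        rw [it_smul]
        exact Submodule.smul_mem _ _ h1)
      have h5 := zc_free p h.cld hy (s := {0}) (a := fun _ => (1 : k)) (by
        rw [Finset.sum_singleton, one_smul, ← cls_eq_zc p hy]
        exact h4 hgY) 0 (Finset.mem_singleton_self 0)
      exact one_ne_zero h5

/-- the scalar by which the operators act is zero -/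
theorem triv_one (h : Oper p v C E T) (hN : Nilp v T L LE) (hV : NSD p h) (hD : Desc v C E T L LE)
    {y : Ω} (hy : TL v E y 0) (hyL : y ∈ LE) (hX : ∀ x ∈ LE, Lim v E 0 x → Spn p v E y x)
    {φ : Opr v E} (hφ : φ ∈ T) {Φ : Opr v LE} (hΦ : IsExt L φ Φ) : Nr v E 0 (fn Φ y) := by
  have hE : E ≤ LE := hD.E_le
  obtain ⟨hl, hc⟩ := cls_opr hE hΦ.eq hyL hy.lim
  obtain ⟨n, c, hn⟩ := hX _ (fn_mem Φ y) hl
  obtain ⟨hpl, hpc⟩ := cls_poly p hy.lim n c
  have h1 : MM.act φ (cls v E y) = ∑ i ∈ Finset.range n, c i • (MM.fr p v E)^[i] (cls v E y) := by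
    rw [← hc, ← hpc]
    exact cls_congr hl hpl hn
  obtain ⟨a, ha⟩ := act_cls p h hV hy hφ n c h1
  have h2 : Nr v E 0 (fn Φ y - algebraMap k Ω a * y) :=
    nr_of_cls_eq hl (Lim.smul hy.lim a) (by rw [hc, ha, cls_smul hy.lim])
  obtain ⟨m, hm⟩ := hN.nil y hyL
  have h3 : a = 0 := scalar_zero hE hy hyL (fun e he => by rw [hΦ.eq e he]; exact fn_mem φ e) h2
    (KilN.iter E hφ hΦ m y hm)
  rwa [h3, map_zero, zero_mul, sub_zero] at h2

/-! ### Rank one, second floor -/

omit [IsAlgClosed Ω] [Fact p.Prime] [CharP k p] [CharP Ω p] [PerfectRing k p] in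
/-- The operator on the polynomials in an element of `L`. -/
theorem fn_eval {φ : Opr v E} {Φ : Opr v LE} (hE : E ≤ LE) (hL : L ≤ LE) (hΦ : IsExt L φ Φ)
    {y : Ω} (hyL : y ∈ L) {f : Polynomial Ω} (hf : f ∈ PI E) :
    fn Φ (f.eval y) = (cf φ f).eval y := by
  have hd : (cf φ f).natDegree ≤ f.natDegree := by
    refine natDegree_le_iff_coeff_eq_zero.2 fun m hm => ?_
    rw [coeff_cf, coeff_eq_zero_of_natDegree_lt hm, fn_zero]
  rw [eval_eq_sum_range, eval_eq_sum_range' (Nat.lt_succ_of_le hd), fn_sum Φ _ _ fun j _ =>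
    mul_mem (hE (hf j)) (pow_mem (hL hyL) j)]
  refine Finset.sum_congr rfl fun j _ => ?_
  rw [coeff_cf, mul_comm, hΦ.lin _ (pow_mem hyL j) _ (hE (hf j)), hΦ.eq _ (hf j), mul_comm]

/-- The operator maps `E<y>` to itself. -/
theorem fn_cadj {φ : Opr v E} {Φ : Opr v LE} (hE : E ≤ LE) (hL : L ≤ LE) (hLE : Cld v LE)
    (hΦ : IsExt L φ Φ) {y : Ω} (hyL : y ∈ L) (hy : TL v E y 0) {b : Ω} (hb : b ∈ cadj v E y) :
    fn Φ b ∈ cadj v E y := by
  have hBL : cadj v E y ≤ LE := cadj_le hLE hE (hL hyL)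
  refine cld_cadj v E y (mem_clI.2 fun c => ?_)
  obtain ⟨f, hf, h1⟩ := hy.dense hb c
  refine ⟨fn Φ (f.eval y), ?_, ?_⟩
  · rw [fn_eval hE hL hΦ hyL hf]
    exact eval_mem (PI_mono (le_cadj v E y) (cf_mem φ f)) (self_mem_cadj v E y)
  · have h2 : f.eval y ∈ LE :=
      hBL (eval_mem (PI_mono (le_cadj v E y) hf) (self_mem_cadj v E y))
    rw [← fn_sub' Φ (hBL hb) h2]
    exact fn_ge Φ (sub_mem (hBL hb) h2) h1

/-- The image of the second generator has degree one in it, by `B2`. -/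
theorem deg_two (h : Oper p v C E T) (hV : NSD p h) (hD : Desc v C E T L LE)
    {y : Ω} (hyL : y ∈ L) (hyC : Lim v C 0 y) (hF : Fib v E LE y z 0 0)
    (hX : ∀ x ∈ LE, Lim v E 0 x → Spn p v E y x)
    {φ : Opr v E} (hφ : φ ∈ T) {Φ : Opr v LE} (hΦ : IsExt L φ Φ) {n : ℕ} {c : ℕ → k}
    (hc : c (n + 1) ≠ 0) (hn : Nr v (cadj v E y) 0
      (fn Φ z - ∑ i ∈ Finset.range (n + 2), algebraMap k Ω (c i) * z ^ p ^ i)) : False := by
  classical
  have hk : Ctx0 k v := Fact.out
  have hE : E ≤ LE := hD.E_le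
  have hL : L ≤ LE := hD.le_LE
  have hBL : cadj v E y ≤ LE := cadj_le hD.cld_LE hE (hL hyL)
  have hzL : z ∈ LE := by
    rw [hF.eq]
    exact self_mem_cadj v _ z
  have hev : ∀ f ∈ PI E, f.eval y ∈ cadj v E y := fun f hf =>
    eval_mem (PI_mono (le_cadj v E y) hf) (self_mem_cadj v E y)
  -- polynomials near `z`
  have hf0 : ∀ i : ℕ, ∃ f ∈ PI E, v.Ge (-(1 / ((i : ℝ) + 1))) (z - f.eval y) := by
    intro i
    obtain ⟨a, ha, h1⟩ := hF.tz.lim (1 / ((i : ℝ) + 1)) (by positivity)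
    obtain ⟨f, hf, h2⟩ := hF.ty.dense ha 0
    refine ⟨f, hf, ?_⟩
    have h3 : z - f.eval y = (z - a) + (a - f.eval y) := by ring
    rw [h3]
    have h4 : (0 : ℝ) ≤ 1 / ((i : ℝ) + 1) := by positivity
    exact (h1.mono (by linarith)).add (h2.mono (by linarith))
  choose f hf hfz using hf0
  have hnul : Nul v (fun i => z - (f i).eval y) := by
    intro ε hε
    obtain ⟨N, hN⟩ := exists_nat_one_div_lt hε
    refine ⟨N, fun i hi => (hfz i).mono ?_⟩
    have h1 : 1 / ((i : ℝ) + 1) ≤ 1 / ((N : ℝ) + 1) := by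
      refine one_div_le_one_div_of_le (by positivity) ?_
      have : (N : ℝ) ≤ i := by exact_mod_cast hi
      linarith
    linarith
  obtain ⟨b, hb, hb1⟩ := hn
  obtain ⟨g, hg, hg1⟩ := hF.ty.dense hb 0
  have hb2 : v.Ge 0 (fn Φ z - ∑ i ∈ Finset.range (n + 2), algebraMap k Ω (c i) * z ^ p ^ i -
      g.eval y) := by
    have h1 := hb1.add hg1
    rwa [sub_add_sub_cancel] at h1
  set A := algebraMap k Ω with hA
  have hroot : ∀ a : ℕ, ∃ l : k, l ^ p ^ a = -(c a * (c (n + 1))⁻¹) := fun a =>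
    (bijective_iterateFrobenius k p a).2 _
  choose lam hlam using hroot
  let ψ : ℕ → Unit → Unit → Opr v E := fun a _ _ => if a = 0 then (c (n + 1))⁻¹ • φ else 0
  have hψ : ∀ a j l, ψ a j l ∈ T := fun a j l => by
    simp only [ψ]
    split_ifs
    · exact T.smul_mem _ hφ
    · exact T.zero_mem
  have hψ0 : ∀ i, (cf (ψ 0 () ()) (f i)).eval y = A (c (n + 1))⁻¹ * fn Φ ((f i).eval y) := by
    intro i
    rw [fn_eval hE hL hΦ hyL (hf i)]
    have h1 : cf (ψ 0 () ()) (f i) = Polynomial.C (A (c (n + 1))⁻¹) * cf φ (f i) := by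
      ext j
      rw [coeff_cf, coeff_C_mul, coeff_cf]
      simp only [ψ, if_true]
      rw [fn_opr_smul _ _ (hf i j), Algebra.smul_def]
    rw [h1, eval_mul, eval_C]
  have hψ1 : ∀ a i, a ≠ 0 → (cf (ψ a () ()) (f i)).eval y = 0 := by
    intro a i ha
    simp only [ψ, if_neg ha]
    rw [cf_zero_opr, eval_zero]
  have R : Rel p T y (fun _ : Unit => f) (n + 1) (fun a _ _ => lam a) ψ
      (fun _ => A (-(c (n + 1))⁻¹) • g) := by
    refine ⟨fun _ => ⟨hf, fun ε hε => ?_⟩, by omega, hψ, fun _ => smul_mem_PI _ hg,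
      fun _ => ?_⟩
    · obtain ⟨N, hN⟩ := hnul ε hε
      refine ⟨N, fun i j hi hj => ?_⟩
      rw [eval_sub]
      have h1 := (hN j hj).sub (hN i hi)
      rwa [sub_sub_sub_cancel_left] at h1
    · have h1 : Nul v (fun i => -(fn Φ z - ∑ i ∈ Finset.range (n + 2), A (c i) * z ^ p ^ i -
          g.eval y) + fn Φ (z - (f i).eval y) -
          ∑ a ∈ Finset.range (n + 2), A (c a) * (z - (f i).eval y) ^ p ^ a) := by
        refine ((Nul.const_iff.2 hb2).neg.add ?_).sub (Nul.sum_aux p (n + 2) hk c hnul)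
        intro ε hε
        obtain ⟨N, hN⟩ := hnul ε hε
        exact ⟨N, fun i hi => fn_ge Φ (sub_mem hzL (hBL (hev _ (hf i)))) (hN i hi)⟩
      refine (h1.mul_ge (c := fun _ => A (c (n + 1))⁻¹) fun _ => hk.ge _).congr fun i => ?_
      rw [fn_sub' Φ hzL (hBL (hev _ (hf i)))]
      set u := (f i).eval y with hu
      have hcA : A (c (n + 1)) ≠ 0 := by
        rw [Ne, map_eq_zero]
        exact hc
      have h2 : ∑ a ∈ Finset.range (n + 2), A (c a) * (z - u) ^ p ^ a =
          ∑ a ∈ Finset.range (n + 2), A (c a) * z ^ p ^ a -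
          (∑ a ∈ Finset.range (n + 1), A (c a) * u ^ p ^ a + A (c (n + 1)) * u ^ p ^ (n + 1)) := by
        rw [← Finset.sum_range_succ (fun a => A (c a) * u ^ p ^ a), ← Finset.sum_sub_distrib]
        refine Finset.sum_congr rfl fun a _ => ?_
        rw [sub_pow_char_pow, mul_sub]
      have h3 : ∑ a ∈ Finset.range (n + 1), ∑ l : Unit,
          (lam a • u + (cf (ψ a () l) (f i)).eval y) ^ p ^ a =
          A (c (n + 1))⁻¹ * fn Φ u - A (c (n + 1))⁻¹ *
            ∑ a ∈ Finset.range (n + 1), A (c a) * u ^ p ^ a := by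
        have h4 : ∀ a, ∑ l : Unit, (lam a • u + (cf (ψ a () l) (f i)).eval y) ^ p ^ a =
            -(A (c (n + 1))⁻¹ * (A (c a) * u ^ p ^ a)) +
              (if a = 0 then A (c (n + 1))⁻¹ * fn Φ u else 0) := by
          intro a
          rw [Fintype.sum_unique, add_pow_char_pow, Algebra.smul_def, mul_pow, ← map_pow, hlam]
          by_cases ha : a = 0
          · subst ha
            rw [if_pos rfl]
            have h5 := hψ0 i
            rw [← hu] at h5
            rw [show (default : Unit) = () from rfl, h5, map_neg, map_mul, pow_zero, pow_one]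
            ring
          · rw [if_neg ha, show (default : Unit) = () from rfl, hψ1 a i ha, zero_pow
              (pow_ne_zero _ (Fact.out : p.Prime).ne_zero), map_neg, map_mul]
            ring
        rw [Finset.sum_congr rfl fun a _ => h4 a, Finset.sum_add_distrib, Finset.sum_ite_eq'
          (Finset.range (n + 1)) 0, if_pos (Finset.mem_range.2 (by omega)), Finset.mul_sum,
          Finset.sum_neg_distrib]
        ring
      rw [h2]
      rw [h3, eval_smul, smul_eq_mul, map_neg, map_inv₀]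
      field_simp
      ring
  obtain ⟨b', m, hs⟩ := B2 p h hV hF.ty hyC R ()
  have h1 : Nul v (fun i => z - b'.eval y - m i) := (hnul.add hs.nul).congr fun i => by ring
  have h2 : Lim v E 0 (z - b'.eval y) := Lim.of_nul hs.cau.mem h1
  have h3 := (hX _ (sub_mem hzL (hBL (hev _ hs.mem))) h2).nr
  refine TL.not_nr hF.tz ?_
  have h4 : Nr v (cadj v E y) 0 (b'.eval y) :=
    ⟨_, hev _ hs.mem, by rw [sub_self]; exact RVal.Ge.zero⟩
  have h5 := Nr.add h3 h4
  rwa [sub_add_cancel] at h5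

/-- the same on the second floor, by `B2` -/
theorem triv_two (h : Oper p v C E T) (hN : Nilp v T L LE) (hV : NSD p h) (hD : Desc v C E T L LE)
    {y : Ω} (hyL : y ∈ L) (hyC : Lim v C 0 y) (hF : Fib v E LE y z 0 0)
    (hX : ∀ x ∈ LE, Lim v E 0 x → Spn p v E y x)
    {φ : Opr v E} (hφ : φ ∈ T) {Φ : Opr v LE} (hΦ : IsExt L φ Φ) :
    Nr v (cadj v E y) 0 (fn Φ z) := by
  have hE : E ≤ LE := hD.E_le
  have hL : L ≤ LE := hD.le_LE
  have hBL : cadj v E y ≤ LE := cadj_le hD.cld_LE hE (hL hyL)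
  have hzL : z ∈ LE := by
    rw [hF.eq]
    exact self_mem_cadj v _ z
  have hΦB : ∀ b ∈ cadj v E y, fn Φ b ∈ cadj v E y := fun b hb =>
    fn_cadj hE hL hD.cld_LE hΦ hyL hF.ty hb
  -- `Φ z` is a limit of `B`
  have hl : Lim v (cadj v E y) 0 (fn Φ z) := by
    intro ε hε
    obtain ⟨a, ha, h1⟩ := hF.tz.lim ε hε
    refine ⟨fn Φ a, hΦB a ha, ?_⟩
    rw [← fn_sub' Φ hzL (hBL ha)]
    exact fn_ge Φ (sub_mem hzL (hBL ha)) h1
  obtain ⟨n, c, hn⟩ := spn_of_mem p hF.tz (by rw [← hF.eq]; exact fn_mem Φ z) hl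
  have key : ∀ (n : ℕ) (c : ℕ → k), Nr v (cadj v E y) 0
      (fn Φ z - ∑ i ∈ Finset.range n, algebraMap k Ω (c i) * z ^ p ^ i) →
      ∃ a : k, Nr v (cadj v E y) 0 (fn Φ z - algebraMap k Ω a * z) := by
    intro n
    induction n with
    | zero =>
      intro c hn
      exact ⟨0, by rwa [map_zero, zero_mul, ← Finset.sum_range_zero
        (fun i => algebraMap k Ω (c i) * z ^ p ^ i)]⟩
    | succ n ih =>
      intro c hn
      by_cases hc : c n = 0
      · refine ih c ?_
        rwa [Finset.sum_range_succ, hc, map_zero, zero_mul, add_zero] at hn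
      · cases n with
        | zero =>
          refine ⟨c 0, ?_⟩
          rwa [zero_add, Finset.sum_range_one, pow_zero, pow_one] at hn
        | succ n => exact (deg_two p h hV hD hyL hyC hF hX hφ hΦ hc hn).elim
  obtain ⟨a, ha⟩ := key n c hn
  obtain ⟨m, hm⟩ := hN.nil z hzL
  have h3 : a = 0 := scalar_zero hBL hF.tz hzL hΦB ha (KilN.iter _ hφ hΦ m z hm)
  rwa [h3, map_zero, zero_mul, sub_zero] at ha

end Pool.Agent.TWC
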