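import Pool.Agent.Lib.TWC.B3
import Pool.Agent.Lib.TWC.Triv
import Pool.Agent.Lib.TWC.PthPart
import Pool.Agent.Lib.TWM.D2

/-!
# TANK W, dimension 4, row R4: no tie on the third floor

`B` a closed perfect field with operators `T` (property `V'`), `c` a limit of `B` of transcendental
type, `z` a limit of `B⟨c⟩` of transcendental type. `φ ∈ T` extends to an operator `a` of norm
`≤ 0` of `L ∋ c, z`, which is the operator `φ` and `κ` times the derivative on `B[c]`.

* `OpAt`: this operator; `OpAt.popA`, `OpAt.popB`: the operators on the polynomials in `c` if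
  `κ ∈ B`, and on the polynomials in `c ^ p`;
* `KGen`: the operators of `T` on the class of `c`; `KGen.of_adjoin`: from generators;
* `no_eigen`: a locally nilpotent operator has no eigenvalue `≠ 0` on `MM v B`;
* `OpAt.gamma`: `κ ∈ L + O(0)` gives `κ ∈ B`;
* `notie`: there is no relation `a z = ∑_{1 ≤ i ≤ s} P_i z ^ p ^ i + β`, `P_s ≠ 0`, `β ∈ B⟨c⟩`.
-/

set_option autoImplicit false
set_option linter.unusedSectionVars false

open Polynomial TensorProduct

namespace Pool.Agent.TWC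

open Pool.Agent.H15JM (RVal)
open Pool.Agent.LU1 (VPos adj)
open Pool.Agent.D2 (Ctx0)
open Pool.Agent.TWM

universe u

variable {k Ω : Type u} [Field k] [Field Ω] [Algebra k Ω] {v : RVal Ω} [Fact (Ctx0 k v)]
  {B L : IntermediateField k Ω} {c z : Ω}

/-- The operator `a` of `L`, of norm `≤ 0`: `φ` on the coefficients and `κ` times the derivative on
the polynomials in `c` over `B`. -/
structure OpAt (v : RVal Ω) [Fact (Ctx0 k v)] (B L : IntermediateField k Ω) (c : Ω)
    (φ : Opr v B) (a : Ω → Ω) (κ : Ω) : Prop where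
  add : ∀ x ∈ L, ∀ y ∈ L, a (x + y) = a x + a y
  nrm : ∀ x ∈ L, ∀ b : ℝ, v.Ge b x → v.Ge b (a x)
  ev : ∀ f ∈ PI B, a (f.eval c) = (cf φ f).eval c + κ * (hasseDeriv 1 f).eval c

theorem cf_one {φ : Opr v B} (h1 : (φ : Module.End k B) 1 = 0) {d : ℕ} :
    cf φ ((X : Polynomial Ω) ^ d) = 0 := by
  ext i
  rw [coeff_cf, coeff_X_pow, coeff_zero]
  split_ifs
  · rw [fn_of_mem φ (one_mem B)]
    have h2 : (⟨1, one_mem B⟩ : B) = 1 := rfl
    rw [h2, h1]
    rfl
  · exact fn_zero φ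

namespace OpAt

variable {φ : Opr v B} {a : Ω → Ω} {κ : Ω}

theorem sub (h : OpAt v B L c φ a κ) {x y : Ω} (hx : x ∈ L) (hy : y ∈ L) :
    a (x - y) = a x - a y := by
  have h1 := h.add (x - y) (sub_mem hx hy) y hy
  rw [sub_add_cancel] at h1
  rw [h1, add_sub_cancel_right]

theorem of_mem (h : OpAt v B L c φ a κ) {x : Ω} (hx : x ∈ B) : a x = fn φ x := by
  have h1 := h.ev (Polynomial.C x) (C_mem_PI hx)
  rw [eval_C, hasseDeriv_C 1 x one_pos, eval_zero, mul_zero, add_zero] at h1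
  rw [h1, eval_eq_sum_range' (n := 1) (by
    refine lt_of_le_of_lt (bdd_natDegree_cf φ _) ?_
    rw [natDegree_C]
    exact one_pos), Finset.sum_range_one, coeff_cf, coeff_C_zero, pow_zero, mul_one]

theorem self (h : OpAt v B L c φ a κ) (h1 : (φ : Module.End k B) 1 = 0) : a c = κ := by
  have h2 := h.ev X X_mem_PI
  have h3 : cf φ (X : Polynomial Ω) = 0 := by
    have := cf_one (v := v) h1 (d := 1)
    rwa [pow_one] at this
  rw [eval_X, h3, eval_zero, zero_add, hasseDeriv_one, derivative_X, eval_one, mul_one] at h2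
  exact h2

/-- The values of the operator on the limits of `B`. -/
theorem lim (h : OpAt v B L c φ a κ) (hBL : B ≤ L) {x : Ω} (hx : x ∈ L) (hl : Lim v B 0 x) :
    Lim v B 0 (a x) ∧ cls v B (a x) = MM.act φ (cls v B x) := by
  obtain ⟨m, hm, h0⟩ := exists_cls hl
  have h1 : Nul v (fun n => a x - (MM.actS φ m : ℕ → Ω) n) := by
    intro ε hε
    obtain ⟨N, hN⟩ := hm ε hε
    refine ⟨N, fun n hn => ?_⟩
    have h2 := m.2.mem n
    have h3 := h.nrm _ (sub_mem hx (hBL h2)) _ (hN n hn)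
    rw [h.sub hx (hBL h2), h.of_mem h2, fn_of_mem φ h2] at h3
    exact h3
  refine ⟨Lim.of_nul (MM.actS φ m).2.mem h1, ?_⟩
  rw [h0, MM.act_mk]
  exact cls_eq h1

end OpAt

section Alg

variable (p : ℕ) [Fact p.Prime] [CharP k p] [CharP Ω p] [PerfectRing k p] [IsAlgClosed Ω]
  {T : Submodule k (Opr v B)} {φ : Opr v B} {a : Ω → Ω} {κ : Ω}

theorem hasse_C_mul (n : ℕ) (e : Ω) (f : Polynomial Ω) :
    hasseDeriv n (Polynomial.C e * f) = Polynomial.C e * hasseDeriv n f := by
  rw [← smul_eq_C_mul, map_smul, smul_eq_C_mul]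

theorem hasse_comm_one (n : ℕ) (f : Polynomial Ω) :
    hasseDeriv 1 (hasseDeriv n f) = hasseDeriv n (hasseDeriv 1 f) := by
  have h1 := congrArg (fun L => L f) (hasseDeriv_comp (R := Ω) 1 n)
  have h2 := congrArg (fun L => L f) (hasseDeriv_comp (R := Ω) n 1)
  simp only [LinearMap.comp_apply, LinearMap.smul_apply] at h1 h2
  rw [h1, h2, Nat.choose_symm_add, add_comm 1 n]

/-- The operator on the polynomials in `c`, if `κ ∈ B`. -/
noncomputable def OpAt.popA (h : OpAt v B L c φ a κ) (hB : cadj v B c ≤ L) (hκ : κ ∈ B) :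
    POp p v B c where
  op := φ
  f g := cf φ g + Polynomial.C κ * hasseDeriv 1 g
  mem g hg := add_mem (cf_mem φ g) (mul_mem (C_mem_PI hκ) (hasse_mem_PI hg 1))
  add g hg g' hg' := by
    rw [cf_add φ hg hg', map_add]
    ring
  deg g _ := natDegree_add_le_of_degree_le (bdd_natDegree_cf φ g)
    ((natDegree_C_mul_le _ _).trans ((natDegree_hasseDeriv_le g 1).trans (Nat.sub_le _ _)))
  con b _ := by
    rw [hasseDeriv_C 1 b one_pos, mul_zero, add_zero]
    ext i
    rw [coeff_cf, coeff_C, coeff_C]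
    split_ifs
    · rfl
    · exact fn_zero φ
  hasse g hg n := by
    rw [map_add, cf_hasse φ (p ^ n) hg, hasse_C_mul, hasse_comm_one]
  ge g hg b hb := by
    have h1 := h.nrm _ (hB (eval_mem (PI_mono (le_cadj v B c) hg) (self_mem_cadj v B c))) b hb
    rw [h.ev g hg] at h1
    rwa [eval_add, eval_mul, eval_C]

/-- The operator on the polynomials in `c ^ p`. -/
theorem OpAt.ev_p (h : OpAt v B L c φ a κ) {g : Polynomial Ω} (hg : g ∈ PI B) :
    a (g.eval (c ^ p)) = (cf φ g).eval (c ^ p) := by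
  have hp : p.Prime := Fact.out
  have h0 : expand Ω p g ∈ PI B := by
    intro i
    rw [coeff_expand hp.pos]
    split_ifs
    exacts [hg _, zero_mem _]
  have h1 := h.ev _ h0
  have h2 : cf φ (expand Ω p g) = expand Ω p (cf φ g) := by
    ext i
    rw [coeff_cf, coeff_expand hp.pos, coeff_expand hp.pos]
    split_ifs
    · rw [coeff_cf]
    · exact fn_zero φ
  have h3 : hasseDeriv 1 (expand Ω p g) = 0 := by
    rw [hasseDeriv_one, derivative_expand, CharP.cast_eq_zero]
    simp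
  rwa [h2, h3, eval_zero, mul_zero, add_zero, expand_eval, expand_eval] at h1

/-- The operator on the polynomials in `c ^ p`. -/
noncomputable def OpAt.popB (h : OpAt v B L c φ a κ) (hB : cadj v B c ≤ L) :
    POp p v B (c ^ p) :=
  POp.ofCf p φ fun g hg b hb => by
    have h1 := h.nrm _ (hB (eval_mem (PI_mono (le_cadj v B c) hg)
      (pow_mem (self_mem_cadj v B c) p))) b hb
    rwa [h.ev_p p hg] at h1

end Alg

/-! ## The operators on the class of `c` -/

section Gen

variable (p : ℕ) [Fact p.Prime] [CharP k p] [CharP Ω p] {T : Submodule k (Opr v B)}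
  {φ : Opr v B}

/-- The operators of `T` on the class of `c`: they factor through `φ`, and they kill the class
of `c ^ p`. -/
structure KGen (p : ℕ) [Fact p.Prime] [CharP k p] [CharP Ω p] (v : RVal Ω) [Fact (Ctx0 k v)]
    (B : IntermediateField k Ω) (T : Submodule k (Opr v B)) (φ : Opr v B) (c : Ω) : Prop where
  one : ∀ ψ ∈ T, ∃ χ : Opr v B,
    MM.act ψ (cls v B c) = MM.act χ (MM.act φ (cls v B c))
  two : ∀ ψ ∈ T, MM.act ψ (MM.fr p v B (cls v B c)) = 0

/-- `KGen` from generators: every generator is `φ` or kills the class of `c`, and all of them kill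
the class of `c ^ p`. -/
theorem KGen.of_adjoin {S : Set (Opr v B)}
    (h1 : ∀ ψ ∈ S, ψ = φ ∨ MM.act ψ (cls v B c) = 0)
    (h2 : ∀ ψ ∈ S, MM.act ψ (MM.fr p v B (cls v B c)) = 0)
    (hT : ∀ ψ ∈ T, ψ ∈ NonUnitalAlgebra.adjoin k S) : KGen p v B T φ c where
  one ψ hψ := by
    refine NonUnitalAlgebra.adjoin_induction (p := fun ψ _ => ∃ χ : Opr v B,
      MM.act ψ (cls v B c) = MM.act χ (MM.act φ (cls v B c))) ?_ ?_ ?_ ?_ ?_ (hT ψ hψ)
    · intro ψ hψ
      rcases h1 ψ hψ with rfl | h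
      · exact ⟨1, by rw [MM.act_one]⟩
      · refine ⟨0, ?_⟩
        have h0 := MM.act_smul (v := v) (E := B) (0 : k) (0 : Opr v B)
          (MM.act φ (cls v B c))
        rw [zero_smul, zero_smul] at h0
        rw [h, h0]
    · rintro ψ ψ' - - ⟨χ, h⟩ ⟨χ', h'⟩
      exact ⟨χ + χ', by rw [MM.act_add, MM.act_add, h, h']⟩
    · refine ⟨0, ?_⟩
      have h0 : ∀ m : MM v B, MM.act (0 : Opr v B) m = 0 := fun m => by
        have h0 := MM.act_smul (v := v) (E := B) (0 : k) (0 : Opr v B) m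
        rwa [zero_smul, zero_smul] at h0
      rw [h0, h0]
    · rintro ψ ψ' - - - ⟨χ', h'⟩
      exact ⟨ψ * χ', by rw [MM.act_mul, MM.act_mul, h']⟩
    · rintro r ψ - ⟨χ, h⟩
      exact ⟨r • χ, by rw [MM.act_smul, MM.act_smul, h]⟩
  two ψ hψ := by
    refine NonUnitalAlgebra.adjoin_induction (p := fun ψ _ =>
      MM.act ψ (MM.fr p v B (cls v B c)) = 0) ?_ ?_ ?_ ?_ ?_ (hT ψ hψ)
    · exact h2
    · intro ψ ψ' _ _ h h'
      rw [MM.act_add, h, h', add_zero]
    · have h0 := MM.act_smul (v := v) (E := B) (0 : k) (0 : Opr v B)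
        (MM.fr p v B (cls v B c))
      rwa [zero_smul, zero_smul] at h0
    · intro ψ ψ' _ _ _ h'
      rw [MM.act_mul, h', map_zero]
    · intro r ψ _ h
      rw [MM.act_smul, h, smul_zero]

end Gen

/-! ## No eigenvalue -/

section Eigen

variable {φ : Opr v B}

/-- `(φ - lam) y ≥ b` and `φ ^ n y ≥ b` give `y ≥ b`. -/
theorem ge_of_eigen {lam : k} (hl : lam ≠ 0) {b : ℝ} : ∀ (n : ℕ) (y : B),
    v.Ge b (((φ : Module.End k B) y - lam • y : B) : Ω) →
    v.Ge b (((((φ : Module.End k B) ^ n) y : B)) : Ω) → v.Ge b (y : Ω)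
  | 0, y, _, h => by simpa using h
  | n + 1, y, h1, h2 => by
    have h3 : v.Ge b (((φ : Module.End k B) y : B) : Ω) := by
      refine ge_of_eigen hl n _ ?_ ?_
      · have h4 := φ.2 _ b h1
        rwa [map_sub, map_smul] at h4
      · rwa [pow_succ] at h2
    have h4 := ((Fact.out : Ctx0 k v).ge lam⁻¹).mul (h3.sub h1)
    have h5 : algebraMap k Ω lam⁻¹ * ((((φ : Module.End k B) y : B) : Ω) -
        (((φ : Module.End k B) y - lam • y : B) : Ω)) = (y : Ω) := by
      have h6 : (((φ : Module.End k B) y - lam • y : B) : Ω) =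
          (((φ : Module.End k B) y : B) : Ω) - algebraMap k Ω lam * (y : Ω) := by
        rw [← Algebra.smul_def]
        rfl
      have h7 : algebraMap k Ω lam ≠ 0 := by rwa [Ne, map_eq_zero]
      rw [h6, map_inv₀]
      field_simp
      ring
    rwa [h5, zero_add] at h4

/-- The equation `(φ - lam) g ≡ e`. -/
theorem exists_eigen_sol {lam : k} (hl : lam ≠ 0) : ∀ (n : ℕ) (e : B),
    v.Ge 0 (((((φ : Module.End k B) ^ n) e : B)) : Ω) →
    ∃ g : B, v.Ge 0 (((φ : Module.End k B) g - lam • g - e : B) : Ω)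
  | 0, e, h => ⟨0, by
    rw [map_zero, smul_zero, sub_zero, zero_sub]
    have h1 : v.Ge 0 (e : Ω) := by simpa using h
    exact h1.neg⟩
  | n + 1, e, h => by
    obtain ⟨g, hg⟩ := exists_eigen_sol hl n ((φ : Module.End k B) e) (by rwa [pow_succ] at h)
    refine ⟨lam⁻¹ • (g - e), ?_⟩
    have h1 : (φ : Module.End k B) (lam⁻¹ • (g - e)) - lam • lam⁻¹ • (g - e) - e =
        lam⁻¹ • ((φ : Module.End k B) g - lam • g - (φ : Module.End k B) e) := by
      rw [map_smul, map_sub, smul_smul, mul_inv_cancel₀ hl, one_smul, smul_sub, smul_sub,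
        smul_sub, smul_smul, inv_mul_cancel₀ hl, one_smul]
      abel
    rw [h1]
    change v.Ge 0 (lam⁻¹ • (((φ : Module.End k B) g - lam • g - (φ : Module.End k B) e : B) : Ω))
    rw [Algebra.smul_def]
    have h2 := ((Fact.out : Ctx0 k v).ge lam⁻¹).mul hg
    rwa [zero_add] at h2

/-- A locally nilpotent operator has no eigenvalue `≠ 0` on `MM v B`. -/
theorem no_eigen (hnil : ∀ x : B, ∃ n, v.Ge 0 (((((φ : Module.End k B) ^ n) x : B)) : Ω))
    {lam : k} (hl : lam ≠ 0) {m : MM v B} (hm : MM.act φ m = lam • m) : m = 0 := by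
  obtain ⟨x, rfl⟩ := MM.ind m
  rw [← sub_eq_zero, MM.act_mk, ← map_smul, ← map_sub, MM.mk_eq_zero] at hm
  obtain ⟨e, he, h1⟩ := hm
  obtain ⟨n, hn⟩ := hnil ⟨e, he⟩
  obtain ⟨g, hg⟩ := exists_eigen_sol hl n _ hn
  rw [MM.mk_eq_zero]
  refine ⟨g, g.2, ?_⟩
  -- the sequence `x - g`
  set y : ℕ → B := fun i => ⟨(x : ℕ → Ω) i, x.2.mem i⟩ - g with hy
  have h2 : Nul v fun i => (((φ : Module.End k B) (y i) - lam • y i : B) : Ω) := by
    refine (h1.sub (Nul.const_iff.2 hg)).congr fun i => ?_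
    have h3 : (φ : Module.End k B) (y i) - lam • y i =
        ((φ : Module.End k B) ⟨(x : ℕ → Ω) i, x.2.mem i⟩ -
          lam • (⟨(x : ℕ → Ω) i, x.2.mem i⟩ : B) - ⟨e, he⟩) -
          ((φ : Module.End k B) g - lam • g - ⟨e, he⟩) := by
      rw [hy]
      simp only [map_sub, smul_sub]
      abel
    rw [h3]
    rfl
  have h4 : Nul v fun i => (y i : Ω) := by
    intro ε hε
    obtain ⟨N, hN⟩ := h2 ε hε
    obtain ⟨M, hM⟩ := x.2.cau ε hε
    refine ⟨max N M, fun i hi => ?_⟩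
    obtain ⟨n, hn⟩ := hnil (y (max N M))
    have h5 := ge_of_eigen hl n (y (max N M)) (hN _ (le_max_left _ _)) (hn.mono (by linarith))
    have h6 := hM i (max N M) ((le_max_right _ _).trans hi) (le_max_right _ _)
    have h7 : (y i : Ω) = ((x : ℕ → Ω) i - (x : ℕ → Ω) (max N M)) + (y (max N M) : Ω) := by
      change (x : ℕ → Ω) i - (g : Ω) = _ + ((x : ℕ → Ω) (max N M) - (g : Ω))
      ring
    show v.Ge (-ε) (y i : Ω)
    rw [h7]
    exact h6.add h5
  exact h4.congr fun i => rfl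

end Eigen

/-! ## The scalar `κ` near `L` -/

section Main

variable (p : ℕ) [Fact p.Prime] [CharP k p] [CharP Ω p] [PerfectRing k p] [IsAlgClosed Ω]
  {T : Submodule k (Opr v B)} {φ : Opr v B} {a : Ω → Ω} {κ : Ω}

/-- An operator which sends the class of `y` to its span acts by a scalar. -/
theorem act_clsM (h : OpM p v B T) (hV : NSDM p h) {y : Ω} (hy : TL v B y 0)
    (hφ : φ ∈ T) : ∀ (n : ℕ) (c : ℕ → k),
    MM.act φ (cls v B y) = ∑ i ∈ Finset.range n, c i • (MM.fr p v B)^[i] (cls v B y) →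
    ∃ a : k, MM.act φ (cls v B y) = a • cls v B y
  | 0, c, hn => ⟨0, by rw [hn, Finset.sum_range_zero, zero_smul]⟩
  | 1, c, hn => ⟨c 0, by rw [hn, Finset.sum_range_one, Function.iterate_zero_apply]⟩
  | n + 2, c, hn => by
    by_cases hc : c (n + 1) = 0
    · exact act_clsM h hV hy hφ (n + 1) c (by
        rw [hn, Finset.sum_range_succ, hc, zero_smul, add_zero])
    · exfalso
      set g := cls v B y with hg
      set F := MM.fr p v B
      set Y : Submodule k (MM v B) := Submodule.span k {g} with hY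
      have hgY : g ∈ Y := Submodule.mem_span_singleton_self g
      have h1 : F^[n + 1] g ∈ V F (Y ⊔ act (h.ops p) Y) (n + 1) := by
        have h2 : F^[n + 1] g = (c (n + 1))⁻¹ • (MM.act φ g -
            ∑ i ∈ Finset.range (n + 1), c i • F^[i] g) := by
          rw [hn, Finset.sum_range_succ _ (n + 1), add_sub_cancel_left, smul_smul,
            inv_mul_cancel₀ hc, one_smul]
        rw [h2]
        refine Submodule.smul_mem _ _ (sub_mem ?_ (sum_mem fun i hi => ?_))
        · refine le_V n (Submodule.mem_sup_right ?_)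
          exact mem_act (O := h.ops p) (φ := MM.actHom v B φ) ⟨φ, hφ, rfl⟩ hgY
        · refine Submodule.smul_mem _ _ ?_
          have h3 : F^[i] g ∈ V F (Y ⊔ act (h.ops p) Y) (1 + i) :=
            it_mem_V (le_V 0 (Submodule.mem_sup_left hgY)) i
          exact V_mono (by have := Finset.mem_range.1 hi; omega) h3
      have h4 := hV Y (Submodule.fg_span_singleton g) (n + 1) (by omega) (fun y' hy' => by
        obtain ⟨a, rfl⟩ := Submodule.mem_span_singleton.1 hy'
        rw [it_smul]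
        exact Submodule.smul_mem _ _ h1)
      have h5 := zc_free p h.cld hy (s := {0}) (a := fun _ => (1 : k)) (by
        rw [Finset.sum_singleton, one_smul, ← cls_eq_zc p hy]
        exact h4 hgY) 0 (Finset.mem_singleton_self 0)
      exact one_ne_zero h5

/-- **(gamma)** -/
theorem OpAt.gamma (hk : Ctx0 k v) (h : OpM p v B T) (hV : NSDM p h) (hφ : φ ∈ T)
    (hnil : ∀ x : B, ∃ n, v.Ge 0 (((((φ : Module.End k B) ^ n) x : B)) : Ω))
    (hc : TL v B c 0) (hBL : B ≤ L) (hcL : c ∈ L) (hX : OpAt v B L c φ a κ)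
    (hκ : κ ∈ B ∨ ¬ Nr v B 0 κ) (hcan : ∀ y ∈ L, Lim v B 0 y → Nr v (cadj v B c) 0 y)
    (hn : Nr v L 0 κ) : κ ∈ B := by
  have h1 : (φ : Module.End k B) 1 = 0 := h.one φ hφ
  obtain ⟨hl, hcl⟩ := hX.lim hBL hcL hc.lim
  rw [hX.self h1] at hl hcl
  -- `κ` is near `B⟨c⟩`
  obtain ⟨f, hfL, hf⟩ := hn
  have hfl : Lim v B 0 f := by
    intro ε hε
    obtain ⟨b, hb, h2⟩ := hl ε hε
    refine ⟨b, hb, ?_⟩
    have h3 := h2.sub (hf.mono (by linarith : 0 - ε ≤ 0))
    have h4 : κ - b - (κ - f) = f - b := by ring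
    rwa [h4] at h3
  obtain ⟨w, hw, hfw⟩ := hcan f hfL hfl
  have hκw : v.Ge 0 (κ - w) := by
    have := hf.add hfw
    rwa [sub_add_sub_cancel] at this
  have hwl : Lim v B 0 w := by
    intro ε hε
    obtain ⟨b, hb, h2⟩ := hl ε hε
    refine ⟨b, hb, ?_⟩
    have h3 := h2.sub (hκw.mono (by linarith : 0 - ε ≤ 0))
    have h4 : κ - b - (κ - w) = w - b := by ring
    rwa [h4] at h3
  obtain ⟨e, he, N, q, h2⟩ := germ_res hk hc p hw hwl
  -- the class
  obtain ⟨hpl, hpc⟩ := cls_poly p hc.lim N q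
  have h3 : cls v B κ = ∑ i ∈ Finset.range N, q i • (MM.fr p v B)^[i] (cls v B c) := by
    rw [← hpc]
    refine cls_congr hl hpl ⟨e, he, ?_⟩
    have h4 : κ - ∑ i ∈ Finset.range N, algebraMap k Ω (q i) * c ^ p ^ i - e =
        (κ - w) + (w - (e + ∑ i ∈ Finset.range N, algebraMap k Ω (q i) * c ^ p ^ i)) := by ring
    rw [h4]
    exact hκw.add h2.ge
  obtain ⟨lam, hlam⟩ := act_clsM p h hV hc hφ N q (by rw [← hcl, h3])
  have hc0 : cls v B c ≠ 0 := fun h0 => TL.not_nr hc ((cls_eq_zero hc.lim).1 h0)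
  have hlam0 : lam = 0 := by
    by_contra h0
    exact hc0 (no_eigen hnil h0 hlam)
  rcases hκ with h5 | h5
  · exact h5
  · exfalso
    refine h5 ((cls_eq_zero hl).1 ?_)
    rw [hcl, hlam, hlam0, zero_smul]

omit [Fact p.Prime] [CharP k p] [CharP Ω p] [PerfectRing k p] [IsAlgClosed Ω] in
omit p in
/-- A limit of polynomials in `c'`. -/
theorem exists_pc {c' : Ω} (H : ∀ ε : ℝ, 0 < ε → ∃ g ∈ PI B, v.Ge (-ε) (z - g.eval c')) :
    ∃ x, PC v B c' x ∧ Nul v fun i => z - (x i).eval c' := by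
  choose x hx h1 using fun n : ℕ => H (1 / ((n : ℝ) + 1)) (by positivity)
  have h2 : Nul v fun i => z - (x i).eval c' := by
    intro ε hε
    obtain ⟨N, hN⟩ := exists_nat_gt (1 / ε)
    refine ⟨N, fun n hn => (h1 n).mono ?_⟩
    have h3 : (N : ℝ) ≤ n := by exact_mod_cast hn
    have h4 : 1 / ((n : ℝ) + 1) ≤ ε := by
      rw [div_le_iff₀ (by positivity)]
      rw [div_lt_iff₀ hε] at hN
      nlinarith
    linarith
  refine ⟨x, ⟨hx, fun ε hε => ?_⟩, h2⟩
  obtain ⟨N, hN⟩ := h2 ε hε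
  refine ⟨N, fun m n hm hn => ?_⟩
  have h3 := (hN n hn).sub (hN m hm)
  rw [eval_sub]
  have h4 : z - (x n).eval c' - (z - (x m).eval c') = (x m).eval c' - (x n).eval c' := by ring
  rwa [h4] at h3

omit [Fact p.Prime] [CharP k p] [CharP Ω p] [PerfectRing k p] [IsAlgClosed Ω] in
omit p in
/-- The end of the proof. -/
theorem spl_contra (hz : TL v (cadj v B c) z 0) (hzL : z ∈ L) (hBL : cadj v B c ≤ L)
    (hcan : ∀ y ∈ L, Lim v B 0 y → Nr v (cadj v B c) 0 y) {c' : Ω} (hc' : c' ∈ cadj v B c)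
    {x : ℕ → Polynomial Ω} (hx : Nul v fun i => z - (x i).eval c') {b : Polynomial Ω}
    {m : ℕ → Ω} (hs : Spl v B c' x b m) : False := by
  have hb : b.eval c' ∈ cadj v B c := eval_mem (PI_mono (le_cadj v B c) hs.mem) hc'
  have h1 : Nul v fun i => z - b.eval c' - m i := (hx.add hs.nul).congr fun i => by ring
  obtain ⟨w, hw, h2⟩ := hcan _ (sub_mem hzL (hBL hb)) (Lim.of_nul hs.cau.mem h1)
  refine TL.not_nr hz ⟨b.eval c' + w, add_mem hb hw, ?_⟩
  rwa [← sub_sub]

/-- The tie `a x = ∑_{j ≤ s} P_j x ^ p ^ j + β`, `1 ≤ s`, `P_s ≠ 0`, for a limit `x` of the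
polynomials at `c'`: `x` is in `B[c'] + L(B)`. -/
theorem B3_tie {c' : Ω} (h : OpM p v B T) (hV : NSDM p h) (hz : TL v B c' 0) (hK : Kil p hz T)
    {Φ : POp p v B c'} (hΦ : Φ.op ∈ T) {x : ℕ → Polynomial Ω} (hx : PC v B c' x)
    {s : ℕ} {P : ℕ → k} (hs : 1 ≤ s) (hP : P s ≠ 0) {β : Polynomial Ω} (hβ : β ∈ PI B)
    (ht : Nul v fun i => (Φ.f (x i)).eval c' -
      ∑ j ∈ Finset.range (s + 1), algebraMap k Ω (P j) * (x i).eval c' ^ p ^ j - β.eval c') :
    ∃ b m, Spl v B c' x b m := by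
  classical
  have hp : p.Prime := Fact.out
  choose r hr using fun a => exists_root_k p a (-(P a / P s))
  let ψ : ℕ → Unit → Unit → POp p v B c' := fun a _ _ =>
    POp.smul p (if a = 0 then (P s)⁻¹ else 0) Φ
  have R : RelP p T c' (fun _ : Unit => x) s (fun a _ _ => r a) ψ
      (fun _ => algebraMap k Ω (-(P s)⁻¹) • β) := by
    refine ⟨fun _ => hx, hs, fun a _ _ => T.smul_mem _ hΦ, fun _ => smul_mem_PI _ hβ, fun _ => ?_⟩
    have h1 : Nul v fun i => algebraMap k Ω (-(P s)⁻¹) * ((Φ.f (x i)).eval c' -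
        ∑ j ∈ Finset.range (s + 1), algebraMap k Ω (P j) * (x i).eval c' ^ p ^ j -
          β.eval c') :=
      ht.mul_ge (c := fun _ => algebraMap k Ω (-(P s)⁻¹)) fun _ => (Fact.out : Ctx0 k v).ge _
    refine h1.congr fun i => ?_
    have h2 : ∀ a ∈ Finset.range s, ∑ l : Unit, (r a • (x i).eval c' +
        ((ψ a () l).f (x i)).eval c') ^ p ^ a =
        algebraMap k Ω (-(P s)⁻¹) * (algebraMap k Ω (P a) * (x i).eval c' ^ p ^ a) +
        (if a = 0 then algebraMap k Ω (P s)⁻¹ * (Φ.f (x i)).eval c' else 0) := by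
      intro a _
      rw [Fintype.sum_unique, add_pow_char_pow, Algebra.smul_def, mul_pow, ← map_pow, hr,
        ← mul_assoc, ← map_mul, show -(P a / P s) = -(P s)⁻¹ * P a by
          rw [div_eq_mul_inv]; ring]
      congr 1
      by_cases h0 : a = 0
      · subst h0
        simp only [ψ, POp.smul, ↓reduceIte, pow_zero, pow_one, eval_smul, smul_eq_mul]
      · simp only [ψ, POp.smul, if_neg h0, map_zero, zero_smul, eval_zero]
        exact zero_pow (pow_pos hp.pos a).ne'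
    rw [Finset.sum_congr rfl h2, Finset.sum_add_distrib, Finset.sum_ite_eq' (Finset.range s) 0,
      if_pos (Finset.mem_range.2 hs), ← Finset.mul_sum, Finset.sum_range_succ]
    have h5 : algebraMap k Ω (-(P s)⁻¹) * (algebraMap k Ω (P s) * (x i).eval c' ^ p ^ s) =
        -(x i).eval c' ^ p ^ s := by
      rw [← mul_assoc, ← map_mul, neg_mul, inv_mul_cancel₀ hP, map_neg, map_one]
      ring
    rw [mul_sub, mul_sub, mul_add, h5, eval_smul, smul_eq_mul, map_neg]
    ring
  exact B3 p h hV hz hK R ()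

/-- The tie, at the approximants of `z`. -/
theorem OpAt.tie (hzL : z ∈ L) (hX : OpAt v B L c φ a κ) {s : ℕ} {P : ℕ → k} {β u : Ω}
    (hu : u ∈ L) {ε : ℝ} (hε : 0 < ε) (hzu : v.Ge (-ε) (z - u))
    (htie : v.Ge 0 (a z - ∑ i ∈ Finset.range (s + 1), algebraMap k Ω (P i) * z ^ p ^ i - β)) :
    v.Ge (-((p ^ s : ℕ) * ε))
      (a u - ∑ i ∈ Finset.range (s + 1), algebraMap k Ω (P i) * u ^ p ^ i - β) := by
  have hp : p.Prime := Fact.out
  have hps : (1 : ℝ) ≤ (p ^ s : ℕ) := by exact_mod_cast Nat.one_le_pow s p hp.pos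
  have h1 := hX.nrm _ (sub_mem hzL hu) _ hzu
  rw [hX.sub hzL hu] at h1
  have h2 : v.Ge (-((p ^ s : ℕ) * ε))
      (∑ i ∈ Finset.range (s + 1), algebraMap k Ω (P i) * (z - u) ^ p ^ i) := by
    refine RVal.Ge.sum _ _ fun i hi => ?_
    have h3 := ((Fact.out : Ctx0 k v).ge (P i)).mul (ge_pow hzu (p ^ i))
    rw [zero_add] at h3
    refine h3.mono ?_
    have h4 : ((p ^ i : ℕ) : ℝ) ≤ (p ^ s : ℕ) := by
      exact_mod_cast Nat.pow_le_pow_right hp.pos (Nat.lt_succ_iff.1 (Finset.mem_range.1 hi))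
    nlinarith
  have h3 : a u - ∑ i ∈ Finset.range (s + 1), algebraMap k Ω (P i) * u ^ p ^ i - β =
      (a z - ∑ i ∈ Finset.range (s + 1), algebraMap k Ω (P i) * z ^ p ^ i - β) - (a z - a u) +
        ∑ i ∈ Finset.range (s + 1), algebraMap k Ω (P i) * (z - u) ^ p ^ i := by
    have h4 : ∀ i, algebraMap k Ω (P i) * (z - u) ^ p ^ i =
        algebraMap k Ω (P i) * z ^ p ^ i - algebraMap k Ω (P i) * u ^ p ^ i := fun i => by
      rw [sub_pow_char_pow, mul_sub]
    rw [Finset.sum_congr rfl fun i _ => h4 i, Finset.sum_sub_distrib]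
    ring
  rw [h3]
  refine RVal.Ge.add (RVal.Ge.sub (htie.mono ?_) (h1.mono ?_)) h2
  · nlinarith
  · nlinarith

/-- **(alpha)**, the operators kill the class of `c`. -/
theorem OpAt.alpha' (h : OpM p v B T) (hV : NSDM p h) (hφ : φ ∈ T)
    (hc : TL v B c 0) (hKil : Kil p hc T) (hz : TL v (cadj v B c) z 0) (hzL : z ∈ L)
    (hBL : cadj v B c ≤ L)
    (hX : OpAt v B L c φ a κ) (hcan : ∀ y ∈ L, Lim v B 0 y → Nr v (cadj v B c) 0 y)
    {s : ℕ} (hs : 1 ≤ s) {P : ℕ → k} (hP : P s ≠ 0) {β : Ω} (hβ : β ∈ cadj v B c)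
    (htie : v.Ge 0 (a z - ∑ i ∈ Finset.range (s + 1), algebraMap k Ω (P i) * z ^ p ^ i - β))
    (hκ : κ ∈ B) : False := by
  have hp : p.Prime := Fact.out
  have hps : (0 : ℝ) < (p ^ s : ℕ) := by exact_mod_cast pow_pos hp.pos s
  have hcc : c ∈ cadj v B c := self_mem_cadj v B c
  obtain ⟨x, hx, hxz⟩ := exists_pc (B := B) (z := z) (c' := c) (fun ε hε => by
    obtain ⟨w, hw, h2⟩ := hz.lim ε hε
    obtain ⟨g, hg, h3⟩ := hc.dense hw 0
    refine ⟨g, hg, ?_⟩
    have h4 := h2.add (h3.mono (by linarith : 0 - ε ≤ 0))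
    rwa [sub_add_sub_cancel, zero_sub] at h4)
  have hxL : ∀ i, (x i).eval c ∈ L := fun i =>
    hBL (eval_mem (PI_mono (le_cadj v B c) (hx.mem i)) hcc)
  obtain ⟨b₀, hb₀, hβ₀⟩ := hc.dense hβ 0
  obtain ⟨b, m, hspl⟩ := B3_tie p h hV hc hKil (Φ := hX.popA p hBL hκ) hφ hx hs hP hb₀ (by
    intro ε hε
    obtain ⟨N, hN⟩ := hxz (ε / (p ^ s : ℕ)) (by positivity)
    refine ⟨N, fun i hi => ?_⟩
    have h2 := hX.tie p hzL (hxL i) (by positivity) (hN i hi) htie
    rw [mul_div_cancel₀ _ hps.ne'] at h2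
    have h3 := h2.add (hβ₀.mono (by linarith : -ε ≤ 0))
    have h4 : ((hX.popA p hBL hκ).f (x i)).eval c = a ((x i).eval c) := by
      rw [hX.ev _ (hx.mem i)]
      change (cf φ (x i) + Polynomial.C κ * hasseDeriv 1 (x i)).eval c = _
      rw [eval_add, eval_mul, eval_C]
    show v.Ge (-ε) (((hX.popA p hBL hκ).f (x i)).eval c -
      ∑ j ∈ Finset.range (s + 1), algebraMap k Ω (P j) * (x i).eval c ^ p ^ j - b₀.eval c)
    rw [h4]
    have h6 : a ((x i).eval c) - ∑ j ∈ Finset.range (s + 1), algebraMap k Ω (P j) *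
        (x i).eval c ^ p ^ j - b₀.eval c = a ((x i).eval c) - ∑ j ∈ Finset.range (s + 1),
        algebraMap k Ω (P j) * (x i).eval c ^ p ^ j - β + (β - b₀.eval c) := by ring
    rw [h6]
    exact h3)
  exact spl_contra hz hzL hBL hcan hcc hxz hspl

/-- **(alpha)** -/
theorem OpAt.alpha (h : OpM p v B T) (hV : NSDM p h) (hφ : φ ∈ T) (hK : KGen p v B T φ c)
    (hc : TL v B c 0) (hz : TL v (cadj v B c) z 0) (hzL : z ∈ L) (hBL : cadj v B c ≤ L)
    (hX : OpAt v B L c φ a κ) (hcan : ∀ y ∈ L, Lim v B 0 y → Nr v (cadj v B c) 0 y)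
    {s : ℕ} (hs : 1 ≤ s) {P : ℕ → k} (hP : P s ≠ 0) {β : Ω} (hβ : β ∈ cadj v B c)
    (htie : v.Ge 0 (a z - ∑ i ∈ Finset.range (s + 1), algebraMap k Ω (P i) * z ^ p ^ i - β))
    (hκ : κ ∈ B) : False := by
  have h1 : (φ : Module.End k B) 1 = 0 := h.one φ hφ
  obtain ⟨hl, hcl⟩ := hX.lim ((le_cadj v B c).trans hBL) (hBL (self_mem_cadj v B c)) hc.lim
  rw [hX.self h1] at hl hcl
  have hκ0 : cls v B κ = 0 := cls_of_nr ⟨κ, hκ, by rw [sub_self]; exact RVal.Ge.zero⟩
  have hKil : Kil p hc T := Kil.of_zero p h hc fun ψ hψ => by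
    obtain ⟨χ, hχ⟩ := hK.one ψ hψ
    have h2 : cls v B c = MM.mk v B (zs hc) := cls_eq (zs_nul hc)
    rw [← h2, hχ, ← hcl, hκ0, map_zero]
  exact hX.alpha' p h hV hφ hc hKil hz hzL hBL hcan hs hP hβ htie hκ

/-- **(beta)** -/
theorem OpAt.beta (hk : Ctx0 k v) (h : OpM p v B T) (hV : NSDM p h) (hφ : φ ∈ T)
    (hK : KGen p v B T φ c)
    (hc : TL v B c 0) (hz : TL v (cadj v B c) z 0) (hzL : z ∈ L) (hBL : cadj v B c ≤ L)
    (hX : OpAt v B L c φ a κ) (hcan : ∀ y ∈ L, Lim v B 0 y → Nr v (cadj v B c) 0 y)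
    {s : ℕ} (hs : 1 ≤ s) {P : ℕ → k} (hP : P s ≠ 0) {β : Ω} (hβ : β ∈ cadj v B c)
    (htie : v.Ge 0 (a z - ∑ i ∈ Finset.range (s + 1), algebraMap k Ω (P i) * z ^ p ^ i - β))
    (hκ : ¬ Nr v L 0 κ) : False := by
  classical
  have hp : p.Prime := Fact.out
  have hps : (0 : ℝ) < (p ^ s : ℕ) := by exact_mod_cast pow_pos hp.pos s
  have hcc : c ∈ cadj v B c := self_mem_cadj v B c
  have hcp : c ^ p ∈ cadj v B c := pow_mem hcc p
  have h1 : (φ : Module.End k B) 1 = 0 := h.one φ hφ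
  have hc' : TL v B (c ^ p) 0 := by
    have := hc.pow p
    rwa [mul_zero] at this
  have hKil : Kil p hc' T := Kil.of_zero p h hc' fun ψ hψ => by
    have h2 : cls v B (c ^ p) = MM.mk v B (zs hc') := cls_eq (zs_nul hc')
    rw [← h2, cls_pow p hc.lim, hK.two ψ hψ]
  -- the limit `z` of polynomials in `c ^ p`
  have H : ∀ ε : ℝ, 0 < ε → ∃ g ∈ PI B, v.Ge (-ε) (z - g.eval (c ^ p)) := by
    intro ε hε
    obtain ⟨w, hw, h2⟩ := hz.lim (ε / 3) (by positivity)
    obtain ⟨f, hf, h3⟩ := hc.dense hw 0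
    have h4 : v.Ge (-(ε / 3)) (z - f.eval c) := by
      have := h2.add (h3.mono (by linarith : 0 - ε / 3 ≤ 0))
      rwa [sub_add_sub_cancel, zero_sub] at this
    have hfL : f.eval c ∈ L := hBL (eval_mem (PI_mono (le_cadj v B c) hf) hcc)
    set δ : Ω := (hasseDeriv 1 f).eval c with hδ
    have hδL : δ ∈ L := hBL (eval_mem (PI_mono (le_cadj v B c) (hasse_mem_PI hf 1)) hcc)
    have h5 : v.Ge (-(ε / 3)) δ := by
      intro hδ0
      by_contra hlt
      rw [not_le] at hlt
      set y : Ω := ∑ i ∈ Finset.range (s + 1), algebraMap k Ω (P i) * z ^ p ^ i + β with hy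
      have hyL : y ∈ L := add_mem (sum_mem fun i _ => mul_mem (L.algebraMap_mem _)
        (pow_mem hzL _)) (hBL hβ)
      have hAL : (cf φ f).eval c ∈ L :=
        hBL (eval_mem (PI_mono (le_cadj v B c) (cf_mem φ f)) hcc)
      refine hκ ⟨(y - (cf φ f).eval c) / δ, div_mem (sub_mem hyL hAL) hδL, ?_⟩
      have h6 := hX.nrm _ (sub_mem hzL hfL) _ h4
      rw [hX.sub hzL hfL, hX.ev f hf, ← hδ] at h6
      have h7 : v.Ge (-(ε / 3)) (κ * δ - (y - (cf φ f).eval c)) := by
        have h8 : κ * δ - (y - (cf φ f).eval c) =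
            (a z - ∑ i ∈ Finset.range (s + 1), algebraMap k Ω (P i) * z ^ p ^ i - β) -
              (a z - ((cf φ f).eval c + κ * δ)) := by
          rw [hy]
          ring
        rw [h8]
        exact (htie.mono (by linarith)).sub h6
      have h8 : κ - (y - (cf φ f).eval c) / δ =
          (κ * δ - (y - (cf φ f).eval c)) * δ⁻¹ := by
        field_simp
      rw [h8]
      have h9 := h7.mul (RVal.ge_self (v := v) δ⁻¹)
      refine h9.mono ?_
      have h10 : v δ⁻¹ = - v δ := by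
        have h11 := v.map_mul hδ0 (inv_ne_zero hδ0)
        rw [mul_inv_cancel₀ hδ0, v.map_one] at h11
        linarith
      rw [h10]
      linarith
    obtain ⟨g, hg, h6⟩ := pth_part p hc hf h5 (ε := ε / 3) (by positivity)
    refine ⟨g, hg, ?_⟩
    have h7 := (h4.mono (by linarith : -ε ≤ -(ε / 3))).add
      (h6.mono (by linarith : -ε ≤ -(ε / 3) - ε / 3))
    rwa [sub_add_sub_cancel] at h7
  obtain ⟨b₀, hb₀, hβ₀⟩ := hc.dense hβ 0
  -- the relation
  have htie' : ∀ g ∈ PI B, ∀ ε : ℝ, 0 < ε → v.Ge (-ε) (z - g.eval (c ^ p)) →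
      v.Ge (-((p ^ s : ℕ) * ε)) ((cf φ g).eval (c ^ p) - ∑ i ∈ Finset.range (s + 1),
        algebraMap k Ω (P i) * g.eval (c ^ p) ^ p ^ i - b₀.eval c) := by
    intro g hg ε hε hgz
    have hgL : g.eval (c ^ p) ∈ L := hBL (eval_mem (PI_mono (le_cadj v B c) hg) hcp)
    have h2 := hX.tie p hzL hgL hε hgz htie
    rw [hX.ev_p p hg] at h2
    have h3 := h2.add (hβ₀.mono (by nlinarith : -((p ^ s : ℕ) * ε) ≤ 0))
    have h4 : (cf φ g).eval (c ^ p) - ∑ i ∈ Finset.range (s + 1),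
        algebraMap k Ω (P i) * g.eval (c ^ p) ^ p ^ i - b₀.eval c =
        (cf φ g).eval (c ^ p) - ∑ i ∈ Finset.range (s + 1),
        algebraMap k Ω (P i) * g.eval (c ^ p) ^ p ^ i - β + (β - b₀.eval c) := by ring
    rw [h4]
    exact h3
  -- the derivative of `b₀`
  have hD : v.Ge 0 ((hasseDeriv 1 b₀).eval c) := by
    refine Nul.const_iff.1 fun ε hε => ⟨0, fun _ _ => ?_⟩
    obtain ⟨g, hg, hgz⟩ := H (ε / (p ^ s : ℕ)) (by positivity)
    have h2 := htie' g hg _ (by positivity) hgz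
    rw [mul_div_cancel₀ _ hps.ne'] at h2
    set G : Polynomial Ω := cf φ g - ∑ i ∈ Finset.range (s + 1),
      Polynomial.C (algebraMap k Ω (P i)) * g ^ p ^ i with hG
    have hGB : G ∈ PI B := sub_mem (cf_mem φ g) (sum_mem fun i _ =>
      mul_mem (C_mem_PI (B.algebraMap_mem _)) (pow_mem hg _))
    have hGe : expand Ω p G ∈ PI B := by
      intro i
      rw [coeff_expand hp.pos]
      split_ifs
      exacts [hGB _, zero_mem _]
    have h3 : (expand Ω p G - b₀).eval c = (cf φ g).eval (c ^ p) - ∑ i ∈ Finset.range (s + 1),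
        algebraMap k Ω (P i) * g.eval (c ^ p) ^ p ^ i - b₀.eval c := by
      rw [eval_sub, expand_eval, hG, eval_sub, eval_finsetSum]
      simp only [eval_mul, eval_C, eval_pow]
    rw [← h3] at h2
    have h4 := hasse_ge hc (sub_mem hGe hb₀) h2 1
    have h5 : hasseDeriv 1 (expand Ω p G) = 0 := by
      rw [hasseDeriv_one, derivative_expand, CharP.cast_eq_zero]
      simp
    rw [map_sub, h5, zero_sub, eval_neg] at h4
    have h6 := h4.neg
    rwa [neg_neg] at h6
  obtain ⟨g₀, hg₀, r, hr⟩ := pth_part_res p hk hc hb₀ hD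
  obtain ⟨x, hx, hxz⟩ := exists_pc H
  -- the relations
  set Φ : POp p v B (c ^ p) := hX.popB p hBL with hΦ
  have hΦf : ∀ g, Φ.f g = cf φ g := fun g => rfl
  choose ro hro using fun a => exists_root_k p a (-(P a / P s))
  let X' : Bool → ℕ → Polynomial Ω := fun l i => bif l then x i else
    Polynomial.C ((zs hc : ℕ → Ω) i)
  let lam : ℕ → Bool → Bool → k := fun a j l =>
    bif j then (bif l then ro a else (if a = 0 then -(r / P s) else 0)) else 0
  let ψ : ℕ → Bool → Bool → POp p v B (c ^ p) := fun a j l =>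
    POp.smul p (if a = 0 then (bif j then (bif l then (P s)⁻¹ else 0) else 0) else 0) Φ
  let kap : Bool → Polynomial Ω := fun j => bif j then
    algebraMap k Ω (-(P s)⁻¹) • g₀ else X ^ p ^ (s - 1)
  have hXm : ∀ l i, X' l i ∈ PI B := fun l i => by
    cases l
    · exact C_mem_PI ((zs hc).2.mem i)
    · exact hx.mem i
  have R : RelP p T (c ^ p) X' s lam ψ kap := by
    refine ⟨fun l => ?_, hs, fun a j l => T.smul_mem _ hφ, fun l => ?_, fun j => ?_⟩
    · cases l
      · refine ⟨hXm false, fun ε hε => ?_⟩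
        obtain ⟨N, hN⟩ := (zs hc).2.cau ε hε
        refine ⟨N, fun m n hm hn => ?_⟩
        have := hN m n hm hn
        change v.Ge (-ε) ((Polynomial.C ((zs hc : ℕ → Ω) m) -
          Polynomial.C ((zs hc : ℕ → Ω) n)).eval (c ^ p))
        rwa [eval_sub, eval_C, eval_C]
      · exact hx
    · cases l
      · exact pow_mem X_mem_PI _
      · exact smul_mem_PI _ hg₀
    · cases j
      · -- `c ^ p ^ s`
        have h2 : Nul v fun i => -(c - (zs hc : ℕ → Ω) i) ^ p ^ s :=
          ((zs_nul hc).pow (p ^ s)).neg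
        refine h2.congr fun i => ?_
        have h3 : ∑ a ∈ Finset.range s, ∑ l : Bool, (lam a false l • (X' l i).eval (c ^ p) +
            ((ψ a false l).f (X' l i)).eval (c ^ p)) ^ p ^ a = 0 := by
          refine Finset.sum_eq_zero fun a _ => Finset.sum_eq_zero fun l _ => ?_
          simp only [lam, ψ, POp.smul, cond_false, zero_smul, ite_self, map_zero, eval_zero,
            add_zero]
          exact zero_pow (pow_pos hp.pos a).ne'
        rw [h3]
        simp only [X', kap, cond_false, eval_C, eval_pow, eval_X]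
        have h4 : (c ^ p) ^ p ^ (s - 1) = c ^ p ^ s := by
          rw [← pow_mul, ← pow_succ', Nat.sub_add_cancel hs]
        rw [h4, sub_pow_char_pow]
        ring
      · -- `z ^ p ^ s`
        have h2 : Nul v fun i => algebraMap k Ω (-(P s)⁻¹) * ((cf φ (x i)).eval (c ^ p) -
            ∑ j ∈ Finset.range (s + 1), algebraMap k Ω (P j) * (x i).eval (c ^ p) ^ p ^ j -
            b₀.eval c) := by
          refine Nul.mul_ge (c := fun _ => algebraMap k Ω (-(P s)⁻¹)) ?_
            fun _ => (Fact.out : Ctx0 k v).ge _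
          intro ε hε
          obtain ⟨N, hN⟩ := hxz (ε / (p ^ s : ℕ)) (by positivity)
          refine ⟨N, fun i hi => ?_⟩
          have h3 := htie' (x i) (hx.mem i) _ (by positivity) (hN i hi)
          rwa [mul_div_cancel₀ _ hps.ne'] at h3
        have h3 : Nul v fun _ : ℕ => algebraMap k Ω (-(P s)⁻¹) *
            (b₀.eval c - g₀.eval (c ^ p) - algebraMap k Ω r * c) := by
          refine Nul.const_iff.2 ?_
          have := ((Fact.out : Ctx0 k v).ge (-(P s)⁻¹)).mul hr.ge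
          rwa [zero_add] at this
        have h4 : Nul v fun i => algebraMap k Ω (-(r / P s)) * (c - (zs hc : ℕ → Ω) i) :=
          (zs_nul hc).mul_ge (c := fun _ => algebraMap k Ω (-(r / P s))) fun _ =>
            (Fact.out : Ctx0 k v).ge _
        refine ((h2.add h3).add h4).congr fun i => ?_
        have h5 : ∀ a ∈ Finset.range s, ∑ l : Bool, (lam a true l • (X' l i).eval (c ^ p) +
            ((ψ a true l).f (X' l i)).eval (c ^ p)) ^ p ^ a =
            algebraMap k Ω (-(P s)⁻¹) * (algebraMap k Ω (P a) *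
              (x i).eval (c ^ p) ^ p ^ a) +
            (if a = 0 then algebraMap k Ω (P s)⁻¹ * (cf φ (x i)).eval (c ^ p) +
              algebraMap k Ω (-(r / P s)) * (zs hc : ℕ → Ω) i else 0) := by
          intro a _
          have h6 : (ro a • (x i).eval (c ^ p)) ^ p ^ a =
              algebraMap k Ω (-(P s)⁻¹) * (algebraMap k Ω (P a) *
                (x i).eval (c ^ p) ^ p ^ a) := by
            rw [Algebra.smul_def, mul_pow, ← map_pow, hro, ← mul_assoc, ← map_mul,
              show -(P a / P s) = -(P s)⁻¹ * P a by rw [div_eq_mul_inv]; ring]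
          rw [Fintype.sum_bool]
          by_cases h0 : a = 0
          · subst h0
            simp only [lam, ψ, POp.smul, X', cond_true, cond_false, ↓reduceIte, zero_smul,
              pow_zero, pow_one, map_zero, eval_zero, add_zero, eval_smul, smul_eq_mul,
              eval_C, hΦf] at h6 ⊢
            rw [h6, Algebra.smul_def]
            ring
          · simp only [lam, ψ, POp.smul, X', cond_true, cond_false, if_neg h0, zero_smul, map_zero,
              eval_zero, add_zero]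
            rw [zero_pow (pow_pos hp.pos a).ne', add_zero, h6]
        rw [Finset.sum_congr rfl h5, Finset.sum_add_distrib,
          Finset.sum_ite_eq' (Finset.range s) 0, if_pos (Finset.mem_range.2 hs),
          ← Finset.mul_sum, Finset.sum_range_succ]
        simp only [X', kap, cond_true]
        have h8 : algebraMap k Ω (-(P s)⁻¹) * (algebraMap k Ω (P s) *
            (x i).eval (c ^ p) ^ p ^ s) = -(x i).eval (c ^ p) ^ p ^ s := by
          rw [← mul_assoc, ← map_mul, neg_mul, inv_mul_cancel₀ hP, map_neg, map_one]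
          ring
        have h9 : algebraMap k Ω (-(r / P s)) =
            algebraMap k Ω (-(P s)⁻¹) * algebraMap k Ω r := by
          rw [← map_mul]
          congr 1
          rw [div_eq_mul_inv]
          ring
        rw [eval_smul, smul_eq_mul, h9]
        rw [mul_sub, mul_sub, mul_add, h8, map_neg]
        ring
  obtain ⟨b, m, hspl⟩ := B3 p h hV hc' hKil R true
  exact spl_contra hz hzL hBL hcan hcp hxz hspl

/-- **No tie on the third floor.** -/
theorem notie₀ (hk : Ctx0 k v) (h : OpM p v B T) (hV : NSDM p h) (hφ : φ ∈ T)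
    (hnil : ∀ x : B, ∃ n, v.Ge 0 (((((φ : Module.End k B) ^ n) x : B)) : Ω))
    (hK : KGen p v B T φ c) (hc : TL v B c 0) (hz : TL v (cadj v B c) z 0) (hL : Cld v L)
    (hBL : B ≤ L) (hcL : c ∈ L) (hzL : z ∈ L) (hX : OpAt v B L c φ a κ)
    (hκ : κ ∈ B ∨ ¬ Nr v B 0 κ) (hcan : ∀ y ∈ L, Lim v B 0 y → Nr v (cadj v B c) 0 y)
    {s : ℕ} (hs : 1 ≤ s) {P : ℕ → k} (hP : P s ≠ 0) {β : Ω} (hβ : β ∈ cadj v B c)
    (htie : v.Ge 0 (a z - ∑ i ∈ Finset.range (s + 1), algebraMap k Ω (P i) * z ^ p ^ i - β)) :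
    False := by
  have hBcL : cadj v B c ≤ L := cadj_le hL hBL hcL
  by_cases hn : Nr v L 0 κ
  · exact hX.alpha p h hV hφ hK hc hz hzL hBcL hcan hs hP hβ htie
      (hX.gamma p hk h hV hφ hnil hc hBL hcL hκ hcan hn)
  · exact hX.beta p hk h hV hφ hK hc hz hzL hBcL hcan hs hP hβ htie hn

/-- **No tie on the third floor**, for the terms of positive degree. -/
theorem notie (hk : Ctx0 k v) (h : OpM p v B T) (hV : NSDM p h) (hφ : φ ∈ T)
    (hnil : ∀ x : B, ∃ n, v.Ge 0 (((((φ : Module.End k B) ^ n) x : B)) : Ω))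
    (hK : KGen p v B T φ c) (hc : TL v B c 0) (hz : TL v (cadj v B c) z 0) (hL : Cld v L)
    (hBL : B ≤ L) (hcL : c ∈ L) (hzL : z ∈ L) (hX : OpAt v B L c φ a κ)
    (hκ : κ ∈ B ∨ ¬ Nr v B 0 κ) (hcan : ∀ y ∈ L, Lim v B 0 y → Nr v (cadj v B c) 0 y)
    {s : ℕ} (hs : 1 ≤ s) {P : ℕ → k} (hP : P s ≠ 0) {β : Ω} (hβ : β ∈ cadj v B c)
    (htie : v.Ge 0 (a z - ∑ i ∈ Finset.Icc 1 s, algebraMap k Ω (P i) * z ^ p ^ i - β)) :
    False := by
  refine notie₀ p hk h hV hφ hnil hK hc hz hL hBL hcL hzL hX hκ hcan hs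
    (P := fun i => if i = 0 then 0 else P i) (by rwa [if_neg (by omega)]) hβ ?_
  have h1 : ∑ i ∈ Finset.range (s + 1), algebraMap k Ω (if i = 0 then 0 else P i) *
      z ^ p ^ i = ∑ i ∈ Finset.Icc 1 s, algebraMap k Ω (P i) * z ^ p ^ i := by
    rw [Finset.sum_range_succ', if_pos rfl, map_zero, zero_mul, add_zero, Finset.range_eq_Ico]
    have h2 := Finset.sum_Ico_add' (fun j => algebraMap k Ω (if j = 0 then 0 else P j) *
      z ^ p ^ j) 0 s 1
    rw [h2, zero_add]
    refine Finset.sum_congr (by rfl) fun j hj => ?_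
    rw [if_neg (by have := (Finset.mem_Ico.1 hj).1; omega)]
  rwa [h1]

end Main

end Pool.Agent.TWC
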