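import Pool.Agent.Lib.TWC.ThetaX
import Pool.Agent.Lib.TWC.HSx

/-!
# TANK W, class C: the natural motion `x ↦ x + χ T` (helper74's 3165 (2))

`h : F → Ω⟦T⟧` with `h (x 0) = x 0 + χ T`, `A n j` its operators of index `j / p ^ n` (`HSX`), `D` the
`F`-linear operators of the roots of `x` (`ThX`).
* `XT`: `A n 1 (x n) = χ n`, `A n j (x n) = 0` for `j ≥ 2`; `HSX.xt`;
* `HSX.nat`: `A n (p ^ n q + f) y = χ n ^ f A 0 q (D n f y)`, `f < p ^ n`, `y` in the closure of
  `F(x ^ (1 / p ^ ∞))`;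
* `HSX.nat_near`: if `y` is near to an element of `B`, and if the `B`-linear operators have norm
  `≤ w n f ≤ f v (χ n)`, then the fractional coefficients of `y` are as small.
-/

set_option autoImplicit false

open Polynomial

namespace Pool.Agent.TWC

open Pool.Agent.H15JM (RVal)
open Pool.Agent.LU1 (VPos adj)
open Pool.Agent.D2 (Ctx0)
open Pool.Agent.D2P (clI mem_clI rootF mem_rootF)
open Pool.Agent.TWM

universe u

variable {k Ω : Type u} [Field k] [Field Ω] [Algebra k Ω] {v : RVal Ω}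
  {F L B E E₀ : IntermediateField k Ω} {x χ : ℕ → Ω} {h : F →ₐ[k] PowerSeries Ω}
  {A : ℕ → ℕ → L →ₗ[k] Ω}

/-- The values of the operators at the roots of `x`. -/
structure XT (L : IntermediateField k Ω) (A : ℕ → ℕ → L →ₗ[k] Ω) (x χ : ℕ → Ω) : Prop where
  mem : ∀ n, x n ∈ L
  one : ∀ (n : ℕ) (y : L), (y : Ω) = x n → A n 1 y = χ n
  two : ∀ (n j : ℕ) (y : L), (y : Ω) = x n → 2 ≤ j → A n j y = 0

section Bin

variable (p : ℕ) [hp : Fact p.Prime] [CharP Ω p]

/-- `binom (p ^ m b + f) f = 1` for `f < p ^ m`. -/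
theorem choose_add_one (m : ℕ) : ∀ (b f : ℕ), f < p ^ m →
    (((p ^ m * b + f).choose f : ℕ) : Ω) = 1 := by
  induction m with
  | zero =>
    intro b f hf
    rw [pow_zero, Nat.lt_one_iff] at hf
    subst hf
    rw [Nat.choose_zero_right, Nat.cast_one]
  | succ m ih =>
    intro b f hf
    have h1 : (((p ^ (m + 1) * b + f).choose f : ℕ) : Ω) =
        ((((p ^ (m + 1) * b + f) % p).choose (f % p) *
          ((p ^ (m + 1) * b + f) / p).choose (f / p) : ℕ) : Ω) := by
      rw [CharP.natCast_eq_natCast Ω p]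
      exact Choose.choose_modEq_choose_mod_mul_choose_div_nat
    have h2 : (p ^ (m + 1) * b + f) % p = f % p := by
      rw [pow_succ', mul_assoc, Nat.mul_add_mod]
    have h3 : (p ^ (m + 1) * b + f) / p = p ^ m * b + f / p := by
      rw [pow_succ', mul_assoc, Nat.mul_add_div hp.out.pos]
    rw [h1, h2, h3, Nat.choose_self, one_mul, ih]
    rw [Nat.div_lt_iff_lt_mul hp.out.pos, ← pow_succ]
    exact hf

/-- the product of binomial coefficients -/
theorem choose_nat {m J b f : ℕ} (hb : p ^ m ∣ b) (hf : f < p ^ m) :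
    ((J.choose (b + f) : ℕ) : Ω) = ((J.choose f : ℕ) : Ω) * (((J - f).choose b : ℕ) : Ω) := by
  obtain ⟨c, rfl⟩ := hb
  have h1 : J.choose (p ^ m * c + f) * (p ^ m * c + f).choose f =
      J.choose f * (J - f).choose (p ^ m * c) := by
    have h3 := Nat.choose_mul (n := J) (Nat.le_add_left f (p ^ m * c))
    rwa [Nat.add_sub_cancel] at h3
  rw [← Nat.cast_mul, ← h1, Nat.cast_mul, choose_add_one p m c f hf, mul_one]

end Bin

section Nat

variable {p : ℕ} [hp : Fact p.Prime] [CharP Ω p]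

/-- `h (x 0) = x 0 + χ T` -/
theorem HSX.xt (hA : HSX p v F L h A) (hr : ∀ n, x (n + 1) ^ p = x n) (h0 : x 0 ∈ F)
    (hx : ∀ n, x n ∈ L) (h1 : ∀ n, χ n ^ p ^ n = PowerSeries.coeff 1 (h ⟨x 0, h0⟩))
    (h2 : ∀ j, 2 ≤ j → PowerSeries.coeff j (h ⟨x 0, h0⟩) = 0) : XT L A x χ where
  mem := hx
  one := by
    intro n y hy
    have e : (y : Ω) ^ p ^ n = x 0 := by
      have := root_pow_add hr 0 n
      rw [zero_add] at this
      rw [hy, this]
    have hc : (y : Ω) ^ p ^ n ∈ F := by rw [e]; exact h0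
    have h3 := hA.base n 1 y hc
    have e2 : (⟨(y : Ω) ^ p ^ n, hc⟩ : F) = ⟨x 0, h0⟩ := Subtype.ext e
    rw [e2, ← h1 n] at h3
    exact iterateFrobenius_inj Ω p n h3
  two := by
    intro n j y hy hj
    have e : (y : Ω) ^ p ^ n = x 0 := by
      have := root_pow_add hr 0 n
      rw [zero_add] at this
      rw [hy, this]
    have hc : (y : Ω) ^ p ^ n ∈ F := by rw [e]; exact h0
    have h3 := hA.base n j y hc
    have e2 : (⟨(y : Ω) ^ p ^ n, hc⟩ : F) = ⟨x 0, h0⟩ := Subtype.ext e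
    rw [e2, h2 j hj] at h3
    exact pow_eq_zero_iff (pow_pos hp.out.pos n).ne' |>.1 h3

omit hp [CharP Ω p] in
theorem HSX.one (hA : HSX p v F L h A) [Fact p.Prime] (n j : ℕ) (hj : j ≠ 0) : A n j 1 = 0 := by
  have hc : ((1 : L) : Ω) ^ p ^ n ∈ F := by
    change (1 : Ω) ^ p ^ n ∈ F
    rw [one_pow]
    exact one_mem F
  have h1 := hA.base n j 1 hc
  have e : (⟨((1 : L) : Ω) ^ p ^ n, hc⟩ : F) = 1 := Subtype.ext (by
    change (1 : Ω) ^ p ^ n = 1
    rw [one_pow])
  rw [e, map_one h, PowerSeries.coeff_one, if_neg hj] at h1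
  exact pow_eq_zero_iff (pow_pos (Fact.out : p.Prime).pos n).ne' |>.1 h1

omit hp [CharP Ω p] in
theorem HSX.frob_pow (hA : HSX p v F L h A) (i : ℕ) : ∀ (n j : ℕ) (y : L),
    A n j (y ^ p ^ i) = (A (n + i) j y) ^ p ^ i := by
  induction i with
  | zero => intro n j y; rw [pow_zero, pow_one, pow_one, add_zero]
  | succ i ih =>
    intro n j y
    rw [pow_succ, pow_mul, hA.frob, ih, ← pow_mul, show n + 1 + i = n + (i + 1) by omega]

omit [CharP Ω p] in
/-- the coefficients of the powers of `x m` -/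
theorem HSX.pow_x (hA : HSX p v F L h A) (hx : XT L A x χ) (hr : ∀ n, x (n + 1) ^ p = x n)
    (h0 : x 0 ∈ F) (m : ℕ) {y : L} (hy : (y : Ω) = x m) (J : ℕ) : ∀ b : ℕ,
    A m b (y ^ J) = ((J.choose b : ℕ) : Ω) * x m ^ (J - b) * χ m ^ b := by
  have hyF : (y : Ω) ^ p ^ m ∈ F := by
    have := root_pow_add hr 0 m
    rw [zero_add] at this
    rw [hy, this]
    exact h0
  induction J with
  | zero =>
    intro b
    rcases Nat.eq_zero_or_pos b with rfl | hb
    · rw [pow_zero, hA.zero]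
      simp
    · rw [pow_zero, hA.one m b hb.ne', Nat.choose_eq_zero_of_lt hb, Nat.cast_zero, zero_mul,
        zero_mul]
  | succ J ih =>
    intro b
    rcases Nat.eq_zero_or_pos b with rfl | hb
    · rw [hA.zero]
      simp [hy]
    · obtain ⟨b', rfl⟩ : ∃ b', b = b' + 1 := ⟨b - 1, by omega⟩
      rw [pow_succ', hA.mul m _ y (y ^ J) hyF, Finset.Nat.sum_antidiagonal_succ,
        Finset.sum_eq_single (0, b')]
      · rw [hA.zero, zero_add, hx.one m y hy, ih, ih, hy, Nat.choose_succ_succ, Nat.cast_add]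
        rcases lt_or_ge b' J with h1 | h1
        · have e1 : J - b' = J - (b' + 1) + 1 := by omega
          have e2 : J + 1 - (b' + 1) = J - (b' + 1) + 1 := by omega
          rw [e1, e2]
          ring
        · rw [Nat.choose_eq_zero_of_lt (by omega : J < b' + 1), Nat.cast_zero]
          have e2 : J + 1 - (b' + 1) = J - b' := by omega
          rw [e2]
          ring
      · rintro ⟨a, b⟩ hab hne
        simp only
        rcases Nat.eq_zero_or_pos a with rfl | ha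
        · rw [Finset.HasAntidiagonal.mem_antidiagonal, zero_add] at hab
          simp only at hab
          exact absurd (by rw [hab]) hne
        · rw [hx.two m (a + 1) y hy (by omega), zero_mul]
      · intro hno
        exact absurd (by simp) hno

/-- one monomial -/
theorem HSX.nat_mon (hA : HSX p v F L h A) (hx : XT L A x χ) (hr : ∀ n, x (n + 1) ^ p = x n)
    (h0 : x 0 ∈ F) (m : ℕ) {y c : L} (hy : (y : Ω) = x m) (hc : (c : Ω) ∈ F) (J q : ℕ) {f : ℕ}
    (hf : f < p ^ m) : A m (p ^ m * q + f) (c * y ^ J) =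
      χ m ^ f * (((J.choose f : ℕ) : Ω) * A m (p ^ m * q) (c * y ^ (J - f))) := by
  classical
  have hcF : (c : Ω) ^ p ^ m ∈ F := pow_mem hc _
  have hc0 : (c : Ω) ^ p ^ 0 ∈ F := by rwa [pow_zero, pow_one]
  have hvan : ∀ a, ¬ p ^ m ∣ a → A m a c = 0 := fun a ha => by
    have := hA.van 0 m a c hc0 ha
    rwa [zero_add] at this
  rw [hA.mul m _ c (y ^ J) hcF, hA.mul m _ c (y ^ (J - f)) hcF]
  have hinj : Set.InjOn (fun i : ℕ × ℕ => (i.1, i.2 + f))
      (Finset.HasAntidiagonal.antidiagonal (p ^ m * q) : Finset (ℕ × ℕ)) := by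
    rintro ⟨a, b⟩ _ ⟨a', b'⟩ _ hh
    simp only [Prod.mk.injEq] at hh
    exact Prod.ext hh.1 (by simp only; omega)
  have h1 : ∑ i ∈ Finset.HasAntidiagonal.antidiagonal (p ^ m * q + f),
      A m i.1 c * A m i.2 (y ^ J) =
      ∑ i ∈ (Finset.HasAntidiagonal.antidiagonal (p ^ m * q)).image
        (fun i : ℕ × ℕ => (i.1, i.2 + f)), A m i.1 c * A m i.2 (y ^ J) := by
    symm
    refine Finset.sum_subset ?_ ?_
    · intro i hi
      obtain ⟨⟨a, b⟩, hab, rfl⟩ := Finset.mem_image.1 hi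
      rw [Finset.HasAntidiagonal.mem_antidiagonal] at hab ⊢
      simp only at hab ⊢
      omega
    · rintro ⟨a, b⟩ hab hno
      rw [Finset.HasAntidiagonal.mem_antidiagonal] at hab
      simp only at hab ⊢
      rcases lt_or_ge b f with hb | hb
      · rw [hvan a, zero_mul]
        rintro ⟨a', rfl⟩
        have h2 : p ^ m * a' = p ^ m * q + (f - b) := by omega
        have h3 : p ^ m ∣ f - b := by
          rw [← Nat.dvd_add_right (dvd_mul_right (p ^ m) q), ← h2]
          exact dvd_mul_right _ _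
        have h4 := Nat.le_of_dvd (by omega) h3
        omega
      · exfalso
        refine hno (Finset.mem_image.2 ⟨(a, b - f), ?_, ?_⟩)
        · rw [Finset.HasAntidiagonal.mem_antidiagonal]
          simp only
          omega
        · exact Prod.ext rfl (by simp only; omega)
  rw [h1, Finset.sum_image hinj, Finset.mul_sum, Finset.mul_sum]
  refine Finset.sum_congr rfl fun i hi => ?_
  simp only
  by_cases hd : p ^ m ∣ i.1
  · have hb : p ^ m ∣ i.2 := by
      rw [Finset.HasAntidiagonal.mem_antidiagonal] at hi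
      rw [← Nat.dvd_add_right hd, hi]
      exact dvd_mul_right _ _
    rw [hA.pow_x hx hr h0 m hy, hA.pow_x hx hr h0 m hy, choose_nat p hb hf]
    have e : J - (i.2 + f) = J - f - i.2 := by omega
    rw [e, pow_add]
    ring
  · rw [hvan _ hd]
    ring

/-- polynomials -/
theorem HSX.nat_pol (hA : HSX p v F L h A) (hx : XT L A x χ) (hr : ∀ n, x (n + 1) ^ p = x n)
    (h0 : x 0 ∈ F) (hFL : F ≤ L) (m : ℕ) {P : Polynomial Ω} (hP : P ∈ PI F) {y z : L}
    (hy : (y : Ω) = P.eval (x m)) (q : ℕ) {f : ℕ} (hf : f < p ^ m)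
    (hz : (z : Ω) = (taylor (x m) P).coeff f) :
    A m (p ^ m * q + f) y = χ m ^ f * A m (p ^ m * q) z := by
  classical
  set X' : L := ⟨x m, hx.mem m⟩ with hX'
  set c : ℕ → L := fun J => ⟨P.coeff J, hFL (hP J)⟩ with hc
  have e1 : y = ∑ J ∈ Finset.range (P.natDegree + 1), c J * X' ^ J := by
    refine Subtype.ext ?_
    rw [hy, eval_eq_sum_range]
    push_cast
    rfl
  have e2 : z = ∑ J ∈ Finset.range (P.natDegree + 1), ((J.choose f : ℕ) : k) •
      (c J * X' ^ (J - f)) := by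
    refine Subtype.ext ?_
    rw [hz, taylor_coeff, hasseDeriv_apply,
      Polynomial.sum_over_range' _ (fun n => by rw [mul_zero, monomial_zero_right])
        (P.natDegree + 1) (Nat.lt_succ_self _), eval_finsetSum]
    push_cast
    refine Finset.sum_congr rfl fun J _ => ?_
    rw [eval_monomial, Algebra.smul_def, map_natCast, mul_assoc]
  rw [e1, e2, map_sum, map_sum, Finset.mul_sum]
  refine Finset.sum_congr rfl fun J _ => ?_
  rw [hA.nat_mon hx hr h0 m (y := X') (c := c J) rfl (hP J) J q hf, map_smul, Algebra.smul_def,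
    map_natCast]

/-- **The fractional coefficients.** `A n (p ^ n q + f) y = χ n ^ f A 0 q (D n f y)` -/
theorem HSX.nat (hA : HSX p v F L h A) (hx : XT L A x χ) (h0 : x 0 ∈ F) (hFL : F ≤ L)
    (hE₀ : E₀ ≤ L) {w : ℕ → ℕ → ℝ} {D : ℕ → ℕ → Module.End k E₀} (hD : ThX p v F E₀ x w D)
    (n q : ℕ) {f : ℕ} (hf : f < p ^ n) (y : E₀) :
    A n (p ^ n * q + f) ⟨y, hE₀ y.2⟩ =
      χ n ^ f * A n (p ^ n * q) ⟨((D n f y : E₀) : Ω), hE₀ (D n f y).2⟩ := by
  have hr := hD.nbx.root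
  have h1 : ∀ i j, UCt v (fun y : E₀ => A i j ⟨y, hE₀ y.2⟩) := by
    intro i j b
    refine ⟨b, fun y a hya => ?_⟩
    rw [← map_sub]
    exact hA.norm i j _ b hya
  refine UCt.eq hD.dense (h1 _ _) (((h1 n (p ^ n * q)).comp (g := fun y => D n f y)
    (hD.uct hf)).const_mul _) (fun a ha => ?_) y
  obtain ⟨j, P, hP, h2, h3⟩ := hD.rep n ha
  have h4 := hA.nat_pol hx hr h0 hFL (n + j) hP (y := ⟨a, hE₀ a.2⟩)
    (z := ⟨((D n f a : E₀) : Ω), hE₀ (D n f a).2⟩) h2 q (lt_lev hf) (h3 f hf)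
  have hup : ∀ (i : ℕ) (y : L), A (n + j) (p ^ j * i) y = A n i y := fun i y => hA.up_pow n j i y
  have e1 : p ^ (n + j) * q + p ^ j * f = p ^ j * (p ^ n * q + f) := by rw [pow_add]; ring
  have e2 : p ^ (n + j) * q = p ^ j * (p ^ n * q) := by rw [pow_add]; ring
  rw [e1, e2, hup, hup] at h4
  rw [h4]
  congr 1
  rw [← hx.one (n + j) ⟨x (n + j), hx.mem _⟩ rfl, ← hx.one n ⟨x n, hx.mem n⟩ rfl, pow_mul]
  congr 1
  have h5 : (⟨x n, hx.mem n⟩ : L) = (⟨x (n + j), hx.mem (n + j)⟩ : L) ^ p ^ j :=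
    Subtype.ext (root_pow_add hr n j).symm
  rw [h5, hA.frob_pow]

/-- the elements of value `r / p ^ n` -/
theorem ge_pow_of_root {n : ℕ} {a b : Ω} (h : a ^ p ^ n = b) {r : ℝ} (hb : v.Ge r b) :
    v.Ge (r / p ^ n) a := by
  intro ha
  have hp0 : (0 : ℝ) < (p : ℝ) ^ n := pow_pos (by exact_mod_cast hp.out.pos) n
  have h1 := hb (by rw [← h]; exact pow_ne_zero _ ha)
  rw [← h, v.map_pow ha] at h1
  push_cast at h1
  rw [div_le_iff₀ hp0, mul_comm]
  exact h1

/-- **The fractional coefficients are small** on the elements of `E₀` near to `B`. -/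
theorem HSX.nat_near [Fact (Ctx0 k v)] (hc : CompleteV v) (hA : HSX p v F L h A)
    (hx : XT L A x χ) (h0 : x 0 ∈ F) (hFL : F ≤ L) (hE₀ : E₀ ≤ L) {w w₀ : ℕ → ℕ → ℝ}
    {D : ℕ → ℕ → Module.End k E₀} (hD : ThX p v F E₀ x w₀ D) (hFB : F ≤ B) (hE : Cld v E)
    (hBE : B ≤ E) (hEE : E₀ ≤ E) (hd : DnsS v (AX B x) E) (hB : NBX p v B x w)
    {n q f : ℕ} (hf : f < p ^ n) (hf0 : f ≠ 0) (hw : v.Ge (w n f) (χ n ^ f)) {y : E₀} {c : Ω}
    (hcB : c ∈ B) {b : ℝ} (hb : v.Ge b ((y : Ω) - c)) :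
    v.Ge b (A n (p ^ n * q + f) ⟨y, hE₀ y.2⟩) := by
  obtain ⟨D', hD'⟩ := exists_thX p hc hB hE hBE (fun n => hEE (hD.mem n)) hd
  have h1 := hD'.near_base hf hf0 (y := ⟨y, hEE y.2⟩) hcB hb
  rw [hD.ext hD' hFB hEE hf y] at h1
  rw [hA.nat hx h0 hFL hE₀ hD n q hf y]
  refine (hw.mul (hA.norm n (p ^ n * q) ⟨_, hE₀ (D n f y).2⟩ _ h1)).mono ?_
  linarith

end Nat

end Pool.Agent.TWC
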