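import Pool.Agent.Lib.TWC.Tower
import Pool.Agent.Lib.TWC.Flag2

/-!
# TANK W, class C: descent of a tower, nilpotency of the classes only

* `KilB T L LE B m x`: all the products of `m` operators send `x` in `B + O(0)`;
* `NilpC v T L LE`: the operators are nilpotent on the elements of `LE` which are limits of a stable
  field `B`, modulo `B + O(0)`, with images of finite dimension for `B = E`;
* `Nilp.toC`; `triv_oneC`, `triv_twoC`, `flag_twoC`, `tower_oneC`, `tower_twoC`, `descend_towC`: the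
  descent with `NilpC` instead of `Nilp`.
-/

set_option autoImplicit false

open Polynomial Submodule Function

namespace Pool.Agent.TWC

open Pool.Agent.H15JM (RVal)
open Pool.Agent.LU1 (VPos adj)
open Pool.Agent.D2 (Ctx0)
open Pool.Agent.D2P (hen clI mem_clI)
open Pool.Agent.TWM

universe u

variable {k Ω : Type u} [Field k] [Field Ω] [Algebra k Ω] {v : RVal Ω}
  {C E L LE : IntermediateField k Ω} {z : Ω}

/-- All the products of `m` operators send `x` in `B + O(0)`. -/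
def KilB [Fact (Ctx0 k v)] (T : Submodule k (Opr v E)) (L LE B : IntermediateField k Ω) :
    ℕ → Ω → Prop
  | 0, x => Nr v B 0 x
  | m + 1, x => ∀ φ ∈ T, ∀ Φ : Opr v LE, IsExt L φ Φ → KilB T L LE B m (fn Φ x)

/-- The operators are nilpotent on the limits of a stable field, modulo this field and `O(0)`. -/
structure NilpC (v : RVal Ω) [Fact (Ctx0 k v)] {E : IntermediateField k Ω}
    (T : Submodule k (Opr v E)) (L LE : IntermediateField k Ω) : Prop where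
  nil : ∀ B : IntermediateField k Ω, Cld v B → E ≤ B → B ≤ LE →
    (∀ φ ∈ T, ∀ Φ : Opr v LE, IsExt L φ Φ → ∀ b ∈ B, fn Φ b ∈ B) →
    ∀ x ∈ LE, Lim v B 0 x → ∃ m, KilB T L LE B m x
  fd : ∀ x ∈ LE, Lim v E 0 x → ∃ (n : ℕ) (s : Fin n → Ω), ∀ φ ∈ T, ∀ Φ : Opr v LE,
    IsExt L φ Φ → ∃ c : Fin n → k, Nr v E 0 (fn Φ x - ∑ i, algebraMap k Ω (c i) * s i)

section Kil

variable [Fact (Ctx0 k v)] {T : Submodule k (Opr v E)}

theorem KilN.toB {B : IntermediateField k Ω} :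
    ∀ (m : ℕ) (x : Ω), KilN T L LE m x → KilB T L LE B m x
  | 0, _, h => ⟨0, zero_mem B, by rw [sub_zero]; exact h⟩
  | m + 1, _, h => fun φ hφ Φ hΦ => KilN.toB m _ (h φ hφ Φ hΦ)

theorem Nilp.toC (h : Nilp v T L LE) : NilpC v T L LE where
  nil _ _ _ _ _ x hx _ := by
    obtain ⟨m, hm⟩ := h.nil x hx
    exact ⟨m, KilN.toB m x hm⟩
  fd x hx _ := by
    obtain ⟨n, s, hs⟩ := h.fd x hx
    refine ⟨n, s, fun φ hφ Φ hΦ => ?_⟩
    obtain ⟨c, hc⟩ := hs φ hφ Φ hΦ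
    exact ⟨c, 0, zero_mem E, by rw [sub_zero]; exact hc⟩

theorem KilB.iter {B : IntermediateField k Ω} {Φ : Opr v LE} {φ : Opr v E} (hφ : φ ∈ T)
    (hΦ : IsExt L φ Φ) :
    ∀ (m : ℕ) (x : Ω), KilB T L LE B m x → Nr v B 0 ((fn Φ)^[m] x)
  | 0, _, h => h
  | m + 1, x, h => by
    rw [Function.iterate_succ_apply]
    exact KilB.iter hφ hΦ m _ (h φ hφ Φ hΦ)

/-- `E` is stable. -/
theorem stab_base (_hE : E ≤ LE) : ∀ φ ∈ T, ∀ Φ : Opr v LE, IsExt L φ Φ → ∀ b ∈ E, fn Φ b ∈ E :=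
  fun φ _ Φ hΦ b hb => by
    rw [hΦ.eq b hb]
    exact fn_mem φ b

end Kil

section Mod

variable [Fact (Ctx0 k v)] (p : ℕ) [Fact p.Prime] [CharP k p] [CharP Ω p] [PerfectRing k p]
  {T : Submodule k (Opr v E)} [IsAlgClosed Ω]

/-- the scalar by which the operators act is zero -/
theorem triv_oneC (h : Oper p v C E T) (hN : NilpC v T L LE) (hV : NSD p h) (hD : Desc v C E T L LE)
    {y : Ω} (hy : TL v E y 0) (hyL : y ∈ LE) (hX : ∀ x ∈ LE, Lim v E 0 x → Spn p v E y x)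
    {φ : Opr v E} (hφ : φ ∈ T) {Φ : Opr v LE} (hΦ : IsExt L φ Φ) : Nr v E 0 (fn Φ y) := by
  have hE : E ≤ LE := hD.E_le
  obtain ⟨hl, hc⟩ := cls_opr hE hΦ.eq hyL hy.lim
  obtain ⟨n, c, hn⟩ := hX _ (fn_mem Φ y) hl
  obtain ⟨hpl, hpc⟩ := cls_poly p hy.lim n c
  have h1 : MM.act φ (cls v E y) = ∑ i ∈ Finset.range n, c i • (MM.fr p v E)^[i] (cls v E y) := by
    rw [← hc, ← hpc]
    exact cls_congr hl hpl hn
  obtain ⟨a, ha⟩ := act_cls p h hV hy hφ n c h1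
  have h2 : Nr v E 0 (fn Φ y - algebraMap k Ω a * y) :=
    nr_of_cls_eq hl (Lim.smul hy.lim a) (by rw [hc, ha, cls_smul hy.lim])
  obtain ⟨m, hm⟩ := hN.nil E h.cld le_rfl hE (stab_base hE) y hyL hy.lim
  have h3 : a = 0 := scalar_zero hE hy hyL (fun e he => by rw [hΦ.eq e he]; exact fn_mem φ e) h2
    (KilB.iter hφ hΦ m y hm)
  rwa [h3, map_zero, zero_mul, sub_zero] at h2

/-- the same on the second floor, by `B2` -/
theorem triv_twoC (h : Oper p v C E T) (hN : NilpC v T L LE) (hV : NSD p h) (hD : Desc v C E T L LE)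
    {y : Ω} (hyL : y ∈ L) (hyC : Lim v C 0 y) (hF : Fib v E LE y z 0 0)
    (hX : ∀ x ∈ LE, Lim v E 0 x → Spn p v E y x)
    {φ : Opr v E} (hφ : φ ∈ T) {Φ : Opr v LE} (hΦ : IsExt L φ Φ) :
    Nr v (cadj v E y) 0 (fn Φ z) := by
  have hE : E ≤ LE := hD.E_le
  have hL : L ≤ LE := hD.le_LE
  have hBL : cadj v E y ≤ LE := cadj_le hD.cld_LE hE (hL hyL)
  have hzL : z ∈ LE := by
    rw [hF.eq]
    exact self_mem_cadj v _ z
  have hΦB : ∀ b ∈ cadj v E y, fn Φ b ∈ cadj v E y := fun b hb =>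
    fn_cadj hE hL hD.cld_LE hΦ hyL hF.ty hb
  -- `Φ z` is a limit of `B`
  have hl : Lim v (cadj v E y) 0 (fn Φ z) := by
    intro ε hε
    obtain ⟨a, ha, h1⟩ := hF.tz.lim ε hε
    refine ⟨fn Φ a, hΦB a ha, ?_⟩
    rw [← fn_sub' Φ hzL (hBL ha)]
    exact fn_ge Φ (sub_mem hzL (hBL ha)) h1
  obtain ⟨n, c, hn⟩ := spn_of_mem p hF.tz (by rw [← hF.eq]; exact fn_mem Φ z) hl
  have key : ∀ (n : ℕ) (c : ℕ → k), Nr v (cadj v E y) 0
      (fn Φ z - ∑ i ∈ Finset.range n, algebraMap k Ω (c i) * z ^ p ^ i) →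
      ∃ a : k, Nr v (cadj v E y) 0 (fn Φ z - algebraMap k Ω a * z) := by
    intro n
    induction n with
    | zero =>
      intro c hn
      exact ⟨0, by rwa [map_zero, zero_mul, ← Finset.sum_range_zero
        (fun i => algebraMap k Ω (c i) * z ^ p ^ i)]⟩
    | succ n ih =>
      intro c hn
      by_cases hc : c n = 0
      · refine ih c ?_
        rwa [Finset.sum_range_succ, hc, map_zero, zero_mul, add_zero] at hn
      · cases n with
        | zero =>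
          refine ⟨c 0, ?_⟩
          rwa [zero_add, Finset.sum_range_one, pow_zero, pow_one] at hn
        | succ n => exact (deg_two p h hV hD hyL hyC hF hX hφ hΦ hc hn).elim
  obtain ⟨a, ha⟩ := key n c hn
  obtain ⟨m, hm⟩ := hN.nil (cadj v E y) (cld_cadj v E y) (le_cadj v E y) hBL
    (fun φ' _ Φ' hΦ' b hb => fn_cadj hE hL hD.cld_LE hΦ' hyL hF.ty hb) z hzL hF.tz.lim
  have h3 : a = 0 := scalar_zero hBL hF.tz hzL hΦB ha (KilB.iter hφ hΦ m z hm)
  rwa [h3, map_zero, zero_mul, sub_zero] at ha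

omit [IsAlgClosed Ω] in
/-- The operators send the class of an element in a space of finite dimension. -/
theorem act_fgC (h : Oper p v C E T) (hN : NilpC v T L LE) (hD : Desc v C E T L LE)
    {x : Ω} (hx : x ∈ LE) (hl : Lim v E 0 x) :
    (act (opsG p h (act_mem_Xl hD)) (Submodule.span k {⟨cls v E x, mem_Xl hx hl⟩})).FG := by
  classical
  have hEL : E ≤ LE := by
    rw [hD.eq]
    exact le_sup_right.trans (TWM.le_clI _)
  obtain ⟨n, s, hs⟩ := hN.fd x hx hl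
  -- the elements of `E + O(0)`
  let O₀ : Submodule k Ω :=
    { carrier := {w | Nr v E 0 w}
      add_mem' := fun ha hb => Nr.add ha hb
      zero_mem' := ⟨0, zero_mem E, by rw [sub_self]; exact RVal.Ge.zero⟩
      smul_mem' := fun a w hw => by
        rw [Algebra.smul_def]
        exact Nr.smul a hw }
  let W : Submodule k Ω :=
    { carrier := {w | ∃ φ ∈ T, ∃ Φ : Opr v LE, IsExt L φ Φ ∧ fn Φ x = w}
      add_mem' := by
        rintro _ _ ⟨φ, hφ, Φ, hΦ, rfl⟩ ⟨φ', hφ', Φ', hΦ', rfl⟩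
        refine ⟨φ + φ', add_mem hφ hφ', Φ + Φ', ⟨fun e he => ?_, fun l hl' t ht => ?_⟩,
          fn_opr_add _ _ hx⟩
        · rw [fn_opr_add _ _ (hEL he), fn_opr_add _ _ he, hΦ.eq e he, hΦ'.eq e he]
        · have hlt : l * t ∈ LE := mul_mem (hD.eq ▸ TWM.le_clI _ (le_sup_left (a := L) hl')) ht
          rw [fn_opr_add _ _ hlt, fn_opr_add _ _ ht, hΦ.lin l hl' t ht, hΦ'.lin l hl' t ht]
          ring
      zero_mem' := by
        refine ⟨0, zero_mem T, 0, ⟨fun e _ => ?_, fun l _ t _ => ?_⟩, fn_opr_zero x⟩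
        · rw [fn_opr_zero, fn_opr_zero]
        · rw [fn_opr_zero, fn_opr_zero, mul_zero]
      smul_mem' := by
        rintro a _ ⟨φ, hφ, Φ, hΦ, rfl⟩
        refine ⟨a • φ, T.smul_mem a hφ, a • Φ, ⟨fun e he => ?_, fun l hl' t ht => ?_⟩,
          fn_opr_smul _ _ hx⟩
        · rw [fn_opr_smul _ _ (hEL he), fn_opr_smul _ _ he, hΦ.eq e he]
        · have hlt : l * t ∈ LE := mul_mem (hD.eq ▸ TWM.le_clI _ (le_sup_left (a := L) hl')) ht
          rw [fn_opr_smul _ _ hlt, fn_opr_smul _ _ ht, hΦ.lin l hl' t ht, mul_smul_comm] }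
  have hfin : (W.map O₀.mkQ).FG := by
    have h1 : W.map O₀.mkQ ≤ (Submodule.span k (Set.range s)).map O₀.mkQ := by
      rintro _ ⟨_, ⟨φ, hφ, Φ, hΦ, rfl⟩, rfl⟩
      obtain ⟨c, hc⟩ := hs φ hφ Φ hΦ
      refine ⟨∑ i, algebraMap k Ω (c i) * s i, sum_mem fun i _ => ?_, ?_⟩
      · rw [← Algebra.smul_def]
        exact Submodule.smul_mem _ _ (Submodule.subset_span ⟨i, rfl⟩)
      · rw [← sub_eq_zero, ← map_sub, Submodule.mkQ_apply, Submodule.Quotient.mk_eq_zero]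
        have := Nr.smul (-1) hc
        rw [map_neg, map_one, neg_one_mul, neg_sub] at this
        exact this
    have h2 : ((Submodule.span k (Set.range s)).map O₀.mkQ).FG :=
      (Submodule.fg_span (Set.finite_range s)).map _
    have h3 : FiniteDimensional k ((Submodule.span k (Set.range s)).map O₀.mkQ) :=
      Module.Finite.iff_fg.2 h2
    have h4 : FiniteDimensional k (W.map O₀.mkQ) := Submodule.finiteDimensional_of_le h1
    exact Module.Finite.iff_fg.1 h4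
  obtain ⟨t, ht⟩ := hfin
  have hlift : ∀ q ∈ t, ∃ w ∈ W, O₀.mkQ w = q := fun q hq => by
    have h1 : q ∈ W.map O₀.mkQ := ht ▸ Submodule.subset_span hq
    exact h1
  choose! lf hlf hlf' using hlift
  -- the classes of the lifts
  have hcl : ∀ w ∈ W, w ∈ LE ∧ Lim v E 0 w := by
    rintro _ ⟨φ, hφ, Φ, hΦ, rfl⟩
    exact ⟨fn_mem Φ x, (cls_opr hEL hΦ.eq hx hl).1⟩
  let gg : Ω → Xl v E LE := fun w =>
    if hw : w ∈ LE ∧ Lim v E 0 w then ⟨cls v E w, mem_Xl hw.1 hw.2⟩ else 0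
  have hgg : ∀ w, w ∈ LE → Lim v E 0 w → ((gg w : Xl v E LE) : MM v E) = cls v E w := by
    intro w h1 h2
    change (((if hw : w ∈ LE ∧ Lim v E 0 w then _ else _) : Xl v E LE) : MM v E) = _
    rw [dif_pos ⟨h1, h2⟩]
  have h1 : act (opsG p h (act_mem_Xl hD)) (Submodule.span k {⟨cls v E x, mem_Xl hx hl⟩}) ≤
      Submodule.span k (t.image fun q => gg (lf q) : Finset (Xl v E LE)) := by
    rw [act_le]
    rintro ψ ⟨φ, hφ, hψ⟩ g hg
    obtain ⟨a, rfl⟩ := Submodule.mem_span_singleton.1 hg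
    rw [map_smul]
    refine Submodule.smul_mem _ _ ?_
    obtain ⟨Φ, hΦ⟩ := hD.ext φ hφ
    obtain ⟨h2, h3⟩ := cls_opr hEL hΦ.eq hx hl
    -- `Φ x` is in the span of the lifts modulo `O(0)`
    have h4 : O₀.mkQ (fn Φ x) ∈ Submodule.span k (t : Set (Ω ⧸ O₀)) := by
      rw [ht]
      exact Submodule.mem_map_of_mem ⟨φ, hφ, Φ, hΦ, rfl⟩
    have h5 : ∃ w ∈ W, O₀.mkQ w = O₀.mkQ (fn Φ x) ∧
        (gg w) ∈ Submodule.span k (t.image fun q => gg (lf q) : Finset (Xl v E LE)) := by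
      generalize O₀.mkQ (fn Φ x) = q at h4
      induction h4 using Submodule.span_induction with
      | mem q hq =>
        exact ⟨lf q, hlf q hq, hlf' q hq,
          Submodule.subset_span (Finset.mem_coe.2 (Finset.mem_image_of_mem _ hq))⟩
      | zero =>
        refine ⟨0, zero_mem W, map_zero _, ?_⟩
        have h6 : gg 0 = 0 := Subtype.ext (by
          rw [hgg 0 (zero_mem LE) (Lim.of_mem (zero_mem E))]
          exact cls_of_nr ⟨0, zero_mem E, by rw [sub_self]; exact RVal.Ge.zero⟩)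
        rw [h6]
        exact zero_mem _
      | add q q' _ _ ih ih' =>
        obtain ⟨w, hw, h6, h7⟩ := ih
        obtain ⟨w', hw', h6', h7'⟩ := ih'
        refine ⟨w + w', add_mem hw hw', by rw [map_add, h6, h6'], ?_⟩
        have h8 : gg (w + w') = gg w + gg w' := Subtype.ext (by
          rw [hgg _ (add_mem (hcl w hw).1 (hcl w' hw').1) (Lim.add (hcl w hw).2 (hcl w' hw').2),
            cls_add (hcl w hw).2 (hcl w' hw').2]
          rw [Submodule.coe_add, hgg w (hcl w hw).1 (hcl w hw).2, hgg w' (hcl w' hw').1 (hcl w' hw').2])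
        rw [h8]
        exact add_mem h7 h7'
      | smul a q _ ih =>
        obtain ⟨w, hw, h6, h7⟩ := ih
        refine ⟨a • w, W.smul_mem a hw, by rw [map_smul, h6], ?_⟩
        have h8 : gg (a • w) = a • gg w := Subtype.ext (by
          rw [Submodule.coe_smul, hgg w (hcl w hw).1 (hcl w hw).2, ← cls_smul (hcl w hw).2,
            Algebra.smul_def]
          exact hgg _ (mul_mem (LE.algebraMap_mem a) (hcl w hw).1) (Lim.smul (hcl w hw).2 a))
        rw [h8]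
        exact Submodule.smul_mem _ _ h7
    obtain ⟨w, hw, h6, h7⟩ := h5
    have h8 : ψ ⟨cls v E x, mem_Xl hx hl⟩ = gg w := Subtype.ext (by
      rw [hψ, hgg w (hcl w hw).1 (hcl w hw).2]
      change MM.act φ (cls v E x) = _
      rw [← h3]
      refine cls_congr h2 (hcl w hw).2 ?_
      rw [← sub_eq_zero, ← map_sub, Submodule.mkQ_apply, Submodule.Quotient.mk_eq_zero] at h6
      have h9 : Nr v E 0 (w - fn Φ x) := h6
      have := Nr.smul (-1) h9
      rw [map_neg, map_one, neg_one_mul, neg_sub] at this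
      exact this)
    rw [h8]
    exact h7
  exact fg_of_le_fg h1 (Submodule.fg_span (Finset.finite_toSet _))

omit [IsAlgClosed Ω] in
theorem kil_ZkC (h : Oper p v C E T) (hD : Desc v C E T L LE) (m : ℕ) {x : Ω} (hx : x ∈ LE)
    (hl : Lim v E 0 x) (hK : KilB T L LE E m x) :
    (⟨cls v E x, mem_Xl hx hl⟩ : Xl v E LE) ∈ Zk (opsG p h (act_mem_Xl hD)) m := by
  have hEL : E ≤ LE := by
    rw [hD.eq]
    exact le_sup_right.trans (TWM.le_clI _)
  induction m generalizing x with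
  | zero =>
    exact (Submodule.mem_bot k).2 (Subtype.ext (cls_of_nr hK))
  | succ m ih =>
    rintro ψ ⟨φ, hφ, hψ⟩
    obtain ⟨Φ, hΦ⟩ := hD.ext φ hφ
    obtain ⟨h1, h2⟩ := cls_opr hEL hΦ.eq hx hl
    have h3 := ih (fn_mem Φ x) h1 (hK φ hφ Φ hΦ)
    have h4 : ψ ⟨cls v E x, mem_Xl hx hl⟩ = ⟨cls v E (fn Φ x), mem_Xl (fn_mem Φ x) h1⟩ :=
      Subtype.ext (by rw [hψ]; exact h2.symm)
    rw [h4]
    exact h3

/-- **Adapted basis of the limits, rank two.** -/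
theorem flag_twoC (h : Oper p v C E T) (hN : NilpC v T L LE) (hV : NSD p h) (hD : Desc v C E T L LE)
    {y : Ω} (hF : Fib v E LE y z 0 0) (hz : Lim v E 0 z) :
    ∃ g₁ g₂, Fib v E LE g₁ g₂ 0 0 ∧ Lim v E 0 g₂ ∧
      (∀ φ ∈ T, ∀ Φ : Opr v LE, IsExt L φ Φ → Nr v E 0 (fn Φ g₁)) ∧
      ∀ φ ∈ T, ∀ Φ : Opr v LE, IsExt L φ Φ → Spn p v E g₁ (fn Φ g₂) := by
  have hEL : E ≤ LE := by
    rw [hD.eq]
    exact le_sup_right.trans (TWM.le_clI _)
  have hmem : ∀ {y z : Ω}, Fib v E LE y z 0 0 → y ∈ LE ∧ z ∈ LE := fun {y z} hF => by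
    rw [hF.eq]
    exact ⟨le_cadj v _ z (self_mem_cadj v E y), self_mem_cadj v _ z⟩
  obtain ⟨hyL, hzL⟩ := hmem hF
  have hy : Lim v E 0 y := hF.ty.lim
  have hk : Ctx0 k v := Fact.out
  obtain ⟨O, hO⟩ : ∃ O, O = opsG p h (act_mem_Xl hD) := ⟨_, rfl⟩
  obtain ⟨e₁, he₁⟩ : ∃ e₁ : Xl v E LE, e₁ = ⟨cls v E y, mem_Xl hyL hy⟩ := ⟨_, rfl⟩
  obtain ⟨e₂, he₂⟩ : ∃ e₂ : Xl v E LE, e₂ = ⟨cls v E z, mem_Xl hzL hz⟩ := ⟨_, rfl⟩
  obtain ⟨U, hU⟩ : ∃ U, U = Submodule.span k {e₁, e₂} := ⟨_, rfl⟩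
  have hact : (act O U).FG := by
    rw [hU, span_pair]
    refine fg_of_le_fg act_sup_le ?_
    rw [hO, he₁, he₂]
    exact (act_fgC p h hN hD hyL hy).sup (act_fgC p h hN hD hzL hz)
  have hU₀ : (U ⊔ act O U).FG := by
    refine Submodule.FG.sup ?_ hact
    rw [hU]
    exact Submodule.fg_span (Set.toFinite _)
  have hst : act O (U ⊔ act O U) ≤ U ⊔ act O U :=
    act_sup_le.trans (sup_le le_sup_right (act_act_le.trans le_sup_right))
  obtain ⟨m₁, hm₁⟩ := hN.nil E h.cld le_rfl hEL (stab_base hEL) y hyL hy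
  obtain ⟨m₂, hm₂⟩ := hN.nil E h.cld le_rfl hEL (stab_base hEL) z hzL hz
  have hUZ : U ≤ Zk O (max m₁ m₂) := by
    rw [hU, Submodule.span_le]
    rintro x (rfl | rfl)
    · rw [he₁, hO]
      exact Zk_mono _ (le_max_left _ _) (kil_ZkC p h hD m₁ hyL hy hm₁)
    · rw [he₂, hO]
      exact Zk_mono _ (le_max_right _ _) (kil_ZkC p h hD m₂ hzL hz hm₂)
  have hU₀Z : U ⊔ act O U ≤ Zk O (max m₁ m₂ + 1) :=
    sup_le (hUZ.trans (Zk_le_succ O _)) ((act_mono (hUZ.trans (Zk_le_succ O _))).trans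
      ((act_Zk_le O _).trans (Zk_le_succ O _)))
  have hr : (act O)^[max m₁ m₂ + 1] (U ⊔ act O U) = ⊥ :=
    le_bot_iff.1 ((act_it_mono _ hU₀Z).trans (act_it_Zk O _).le)
  have htop : RS (frG p v E LE) (U ⊔ act O U) = ⊤ := by
    rw [← top_le_iff, ← gen_top p h.cld hF hz (g₁ := e₁) (g₂ := e₂) (by rw [he₁]) (by rw [he₂]), ← hU]
    exact RS_mono le_sup_left
  have hsat : Sat (frG p v E LE) (RS (frG p v E LE) (U ⊔ act O U)) =
      RS (frG p v E LE) (U ⊔ act O U) := by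
    rw [htop]
    exact top_le_iff.1 (le_Sat le_top)
  have hTF := sat_frG p hF
  have hflag := flag (O := O) hTF hU₀ hst hr hsat (fun Y _ hY b hb hs => by
    rw [hO] at hs
    exact nsd_coe p h hV _ hTF hY hb hs)
  rw [htop] at hflag
  obtain ⟨g₁, g₂, ⟨y', z', hF', hz', h1, h2⟩, h3, h4⟩ := flag_basis (O := O) (e₁ := e₁) (e₂ := e₂)
    (Bas := fun g₁ g₂ => ∃ y z, Fib v E LE y z 0 0 ∧ Lim v E 0 z ∧ cls v E y = (g₁ : MM v E) ∧
      cls v E z = (g₂ : MM v E))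
    (by
      rintro g₁ g₂ ⟨y, z, hF, hz, h1, h2⟩
      exact ⟨z, y, hF.swap hz, hF.ty.lim, h2, h1⟩)
    (by
      rintro g₁ g₂ ⟨y, z, hF, hz, h1, h2⟩ a d
      have hyA : y ∈ cadj v E y := self_mem_cadj v E y
      have hfA : algebraMap k Ω a * y ^ p ^ d ∈ cadj v E y :=
        mul_mem ((cadj v E y).algebraMap_mem a) (pow_mem hyA _)
      have hl1 := Lim.pow_pow p hF.ty.lim d
      refine ⟨y, z + algebraMap k Ω a * y ^ p ^ d, hF.gen₂ (one_mem _) one_ne_zero hfA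
        (add_mem (hmem hF).2 ?_) (by rw [v.map_one, zero_add]) ?_, Lim.add hz (Lim.smul hl1 a), h1, ?_⟩
      · exact mul_mem (LE.algebraMap_mem a) (pow_mem (hmem hF).1 _)
      · rw [one_mul, sub_self]
        exact Gt.zero
      · rw [cls_add hz (Lim.smul hl1 a), cls_smul hl1, cls_pow_pow p hF.ty.lim, Submodule.coe_add,
          Submodule.coe_smul, frG_it, h1, h2])
    (by
      rintro g₁ g₂ ⟨y, z, hF, hz, h1, h2⟩
      exact gen_top p h.cld hF hz h1 h2)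
    ⟨y, z, hF, hz, by rw [he₁], by rw [he₂]⟩ hflag
  obtain ⟨hy'L, hz'L⟩ := hmem hF'
  have hy' := hF'.ty.lim
  have hop : ∀ φ ∈ T, ∃ ψ ∈ O.A, ∀ g : Xl v E LE, ((ψ g : Xl v E LE) : MM v E) = MM.act φ g := by
    intro φ hφ
    rw [hO]
    exact ⟨(MM.act φ).restrict (act_mem_Xl hD φ hφ), ⟨φ, hφ, fun g => rfl⟩, fun g => rfl⟩
  refine ⟨y', z', hF', hz', fun φ hφ Φ hΦ => ?_, fun φ hφ Φ hΦ => ?_⟩
  · obtain ⟨ψ, hψ, h5⟩ := hop φ hφ
    obtain ⟨h6, h7⟩ := cls_opr hEL hΦ.eq hy'L hy'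
    have h8 : ψ g₁ = 0 := (Submodule.mem_bot k).1
      (h4 ▸ mem_act hψ (Submodule.mem_span_singleton_self g₁))
    refine (cls_eq_zero h6).1 ?_
    rw [h7, h1, ← h5, h8]
    rfl
  · obtain ⟨ψ, hψ, h5⟩ := hop φ hφ
    obtain ⟨h6, h7⟩ := cls_opr hEL hΦ.eq hz'L hz'
    obtain ⟨n, h8⟩ := mem_RS.1 (h3 (mem_act hψ (Submodule.mem_top (x := g₂))))
    obtain ⟨c, h9⟩ := V_coef n h8
    obtain ⟨h10, h11⟩ := cls_poly p hy' n c
    refine ⟨n, c, nr_of_cls_eq h6 h10 ?_⟩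
    rw [h7, h2, ← h5, h9, coe_sum_frG, h11, h1]

/-- **length one** -/
theorem tower_oneC (h : Oper p v C E T) (hN : NilpC v T L LE) (hV : NSD p h)
    (hD : Desc v C E T L LE) {y : Ω} (hy : TL v E y 0) (hLE : LE = cadj v E y) :
    ∃ u ∈ L, TL v C u 0 ∧ L = cadj v C u := by
  have hyL : y ∈ LE := by
    rw [hLE]
    exact self_mem_cadj v E y
  refine tower_one_of hD h.cldC h.cld h.le hy hLE fun φ hφ Φ hΦ => ?_
  exact triv_oneC p h hN hV hD hy hyL (fun x hx hl => spn_of_mem p hy (hLE ▸ hx) hl) hφ hΦ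

/-- **length two** -/
theorem tower_twoC (h : Oper p v C E T) (hN : NilpC v T L LE) (hV : NSD p h)
    (hD : Desc v C E T L LE) {y : Ω} (hF : Fib v E LE y z 0 0) :
    ∃ u₁ ∈ L, ∃ u₂ ∈ L, Fib v C L u₁ u₂ 0 0 := by
  classical
  have hL : L ≤ LE := hD.le_LE
  by_cases hX : ∀ x ∈ LE, Lim v E 0 x → Spn p v E y x
  · -- rank one
    have hyLE : y ∈ LE := by
      rw [hF.eq]
      exact le_cadj _ _ _ (self_mem_cadj v E y)
    refine tower_two_of hD h.cldC h.cld h.le hF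
      (fun φ hφ Φ hΦ => triv_oneC p h hN hV hD hF.ty hyLE hX hφ hΦ) fun u hu hn hu' => ?_
    obtain ⟨z', hF'⟩ := fib_move hF (hL hu) hn
    exact ⟨z', hF', fun φ hφ Φ hΦ => triv_twoC p h hN hV hD hu hu'.lim hF'
      (fun x hx hl => (hX x hx hl).move hn) hφ hΦ⟩
  · -- rank two
    push Not at hX
    obtain ⟨x, hx, hl, hn⟩ := hX
    obtain ⟨b, hb, hb'⟩ := dich p h.cld h.perf hF hx hl hn
    have hF₁ : Fib v E LE y (z - b) 0 0 := by
      refine ⟨hF.ty, hF.tz.sub_mem hb, ?_⟩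
      rw [cadj_sub_mem hb]
      exact hF.eq
    obtain ⟨g₁, g₂, hF₂, hg, h1, h2⟩ := flag_twoC p h hN hV hD hF₁ hb'
    refine tower_two_of hD h.cldC h.cld h.le hF₂ h1 fun u hu hn _ => ?_
    exact ⟨g₂, fib_move_lim hF₂ hg (hL hu) hn, fun φ hφ Φ hΦ => ((h2 φ hφ Φ hΦ).move hn).nr⟩

/-- **The descent.** -/
theorem descend_towC (h : Oper p v C E T) (hN : NilpC v T L LE) (hV : NSD p h)
    (hD : Desc v C E T L LE) {n : ℕ} (hn : n ≤ 2) (hT : Tow v n E LE) : Tow v n C L := by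
  interval_cases n
  · rw [tow_zero] at hT ⊢
    refine ⟨h.cldC, le_antisymm hD.le fun l hl => ?_⟩
    refine hD.inf h.cldC le_rfl hD.le hl ?_
    rw [clI_sup_base h.le h.cld, hT.2]
    exact hD.le_LE hl
  · rw [tow_one] at hT ⊢
    obtain ⟨y, hy, hLE⟩ := hT
    obtain ⟨u, -, hu, h1⟩ := tower_oneC p h hN hV hD hy hLE
    exact ⟨u, hu, h1⟩
  · rw [tow_two] at hT ⊢
    obtain ⟨y, z, hF⟩ := hT
    obtain ⟨u₁, -, u₂, -, h1⟩ := tower_twoC p h hN hV hD hF
    exact ⟨u₁, u₂, h1⟩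

end Mod

end Pool.Agent.TWC
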