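import Pool.Agent.Lib.TWC.NilC
import Pool.Agent.Lib.TWC.NilpGen
import Pool.Agent.Lib.TWC.First

/-!
# TANK W, class C: nilpotency of the classes, from commuting operators of `LE`

`nilpC_of_gen`: `T` is the algebra generated by `G`; the extension of every generator is `e⁻¹ Ψ`,
`v (e - 1) > 0`, `e ∈ E`, `Ψ` in a set `D` of commuting nilpotent operators of `LE`, almost all of
which are small at a given element. Then `NilpC v T L LE`.
-/

set_option autoImplicit false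

open Polynomial

namespace Pool.Agent.TWC

open Pool.Agent.H15JM (RVal)
open Pool.Agent.D2 (Ctx0)
open Pool.Agent.D2P (hen clI mem_clI)
open Pool.Agent.TWM

universe u

variable {k Ω : Type u} [Field k] [Field Ω] [Algebra k Ω] {v : RVal Ω} [hcx : Fact (Ctx0 k v)]
  {C E L LE B : IntermediateField k Ω} {T : Submodule k (Opr v E)} {G : Set (Opr v E)}
  {D : Set (Opr v LE)}

/-- The operators extend, the sums of products are dense. -/
structure DExt (v : RVal Ω) [Fact (Ctx0 k v)] {E : IntermediateField k Ω}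
    (T : Submodule k (Opr v E)) (L LE : IntermediateField k Ω) : Prop where
  leL : L ≤ LE
  leE : E ≤ LE
  dense : ∀ x ∈ LE, ∀ b : ℝ, ∃ (n : ℕ) (l e : Fin n → Ω), (∀ i, l i ∈ L) ∧ (∀ i, e i ∈ E) ∧
    v.Ge b (x - ∑ i, l i * e i)
  ext : ∀ φ ∈ T, ∃ Φ : Opr v LE, IsExt L φ Φ

theorem DExt.of_desc (hD : Desc v C E T L LE) : DExt v T L LE where
  leL := hD.le_LE
  leE := hD.E_le
  dense := hD.dense
  ext := hD.ext

/-- The set `D` is adapted to the generators. -/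
structure MatchG (v : RVal Ω) [Fact (Ctx0 k v)] {E : IntermediateField k Ω} (L : IntermediateField k Ω)
    {LE : IntermediateField k Ω} (G : Set (Opr v E)) (D : Set (Opr v LE)) : Prop where
  comm : ∀ Φ ∈ D, ∀ Ψ ∈ D, Φ * Ψ = Ψ * Φ
  nil : ∀ Φ ∈ D, ∃ n : ℕ, Φ ^ n = 0
  fin : ∀ x ∈ LE, {Φ | Φ ∈ D ∧ ¬ v.Ge 0 (fn Φ x)}.Finite
  mat : ∀ φ ∈ G, ∀ Φ : Opr v LE, IsExt L φ Φ → ∃ Ψ ∈ D, ∃ e ∈ E, Gt v 0 (e - 1) ∧
    ∀ y ∈ LE, fn Ψ y = e * fn Φ y
  sur : ∀ Ψ ∈ D, ∃ φ ∈ G, ∃ Φ : Opr v LE, IsExt L φ Φ ∧ ∃ e ∈ E, Gt v 0 (e - 1) ∧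
    ∀ y ∈ LE, fn Ψ y = e * fn Φ y

/-- The matched part of `D`. -/
theorem MatchG.of_mat (comm : ∀ Φ ∈ D, ∀ Ψ ∈ D, Φ * Ψ = Ψ * Φ) (nil : ∀ Φ ∈ D, ∃ n : ℕ, Φ ^ n = 0)
    (fin : ∀ x ∈ LE, {Φ | Φ ∈ D ∧ ¬ v.Ge 0 (fn Φ x)}.Finite)
    (mat : ∀ φ ∈ G, ∀ Φ : Opr v LE, IsExt L φ Φ → ∃ Ψ ∈ D, ∃ e ∈ E, Gt v 0 (e - 1) ∧
      ∀ y ∈ LE, fn Ψ y = e * fn Φ y) :
    MatchG v L G {Ψ | Ψ ∈ D ∧ ∃ φ ∈ G, ∃ Φ : Opr v LE, IsExt L φ Φ ∧ ∃ e ∈ E, Gt v 0 (e - 1) ∧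
      ∀ y ∈ LE, fn Ψ y = e * fn Φ y} where
  comm Φ hΦ Ψ hΨ := comm Φ hΦ.1 Ψ hΨ.1
  nil Φ hΦ := nil Φ hΦ.1
  fin x hx := (fin x hx).subset fun Φ hΦ => ⟨hΦ.1.1, hΦ.2⟩
  mat φ hφ Φ hΦ := by
    obtain ⟨Ψ, hΨ, e, he, h1, h2⟩ := mat φ hφ Φ hΦ
    exact ⟨Ψ, ⟨hΨ, φ, hφ, Φ, hΦ, e, he, h1, h2⟩, e, he, h1, h2⟩
  sur Ψ hΨ := hΨ.2

/-- the words of length `≥ j` at `x`. -/
def Wd (D : Set (Opr v LE)) (x : Ω) (j : ℕ) : Submodule k Ω :=
  Submodule.span k {y | ∃ w : List (Opr v LE), (∀ Φ ∈ w, Φ ∈ D) ∧ j ≤ w.length ∧ y = fn w.prod x}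

/-- `Wd + B + O(0)`, in `LE`. -/
def Zd (v : RVal Ω) (LE B : IntermediateField k Ω) [Fact (Ctx0 k v)] (D : Set (Opr v LE)) (x : Ω)
    (j : ℕ) : Set Ω :=
  {z | z ∈ LE ∧ ∃ y ∈ Wd D x j, Nr v B 0 (z - y)}

theorem wd_mem {x : Ω} {j : ℕ} {y : Ω} (hy : y ∈ Wd D x j) : y ∈ LE := by
  induction hy using Submodule.span_induction with
  | mem y hy =>
    obtain ⟨w, -, -, rfl⟩ := hy
    exact fn_mem _ _
  | zero => exact zero_mem _
  | add y z _ _ h1 h2 => exact add_mem h1 h2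
  | smul a y _ h => exact LE.smul_mem h

theorem wd_anti {x : Ω} {i j : ℕ} (h : i ≤ j) : Wd D x j ≤ Wd D x i := by
  refine Submodule.span_mono ?_
  rintro y ⟨w, h1, h2, h3⟩
  exact ⟨w, h1, h.trans h2, h3⟩

theorem zd_anti {x : Ω} {i j : ℕ} (h : i ≤ j) {z : Ω} (hz : z ∈ Zd v LE B D x j) :
    z ∈ Zd v LE B D x i := by
  obtain ⟨h1, y, hy, h2⟩ := hz
  exact ⟨h1, y, wd_anti h hy, h2⟩

omit hcx in
theorem nr_zero' : Nr v B 0 0 := ⟨0, zero_mem B, by rw [sub_self]; exact RVal.Ge.zero⟩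

theorem zd_add {x : Ω} {j : ℕ} {z z' : Ω} (hz : z ∈ Zd v LE B D x j) (hz' : z' ∈ Zd v LE B D x j) :
    z + z' ∈ Zd v LE B D x j := by
  obtain ⟨h1, y, hy, h2⟩ := hz
  obtain ⟨h1', y', hy', h2'⟩ := hz'
  refine ⟨add_mem h1 h1', y + y', add_mem hy hy', ?_⟩
  rw [add_sub_add_comm]
  exact Nr.add h2 h2'

theorem zd_zero (x : Ω) (j : ℕ) : (0 : Ω) ∈ Zd v LE B D x j :=
  ⟨zero_mem _, 0, zero_mem _, by rw [sub_self]; exact nr_zero'⟩

theorem zd_smul {x : Ω} {j : ℕ} {z : Ω} (a : k) (hz : z ∈ Zd v LE B D x j) :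
    a • z ∈ Zd v LE B D x j := by
  obtain ⟨h1, y, hy, h2⟩ := hz
  refine ⟨LE.smul_mem h1, a • y, Submodule.smul_mem _ a hy, ?_⟩
  rw [← smul_sub, Algebra.smul_def]
  exact Nr.smul a h2

/-- an operator preserving `B` preserves `B + O(0)` -/
theorem nr_fn (hBL : B ≤ LE) {Φ : Opr v LE} (hB : ∀ b ∈ B, fn Φ b ∈ B) {z : Ω} (hz : z ∈ LE)
    (h : Nr v B 0 z) : Nr v B 0 (fn Φ z) := by
  obtain ⟨b, hb, h1⟩ := h
  exact ⟨fn Φ b, hB b hb, fn_near Φ hz (hBL hb) h1⟩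

theorem lim_fn (hBL : B ≤ LE) {Φ : Opr v LE} (hB : ∀ b ∈ B, fn Φ b ∈ B) {z : Ω} (hz : z ∈ LE)
    (h : Lim v B 0 z) : Lim v B 0 (fn Φ z) := by
  intro ε hε
  obtain ⟨b, hb, h1⟩ := h ε hε
  exact ⟨fn Φ b, hB b hb, fn_near Φ hz (hBL hb) h1⟩

/-- a one unit `e ∈ B` -/
theorem ge_one_unit {e : Ω} (he : Gt v 0 (e - 1)) : v.Ge 0 e := by
  have e1 : e = (e - 1) + 1 := by ring
  rw [e1]
  exact (RVal.Ge.add he.ge (by
    have := RVal.ge_self (v := v) (1 : Ω)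
    rwa [v.map_one] at this))

omit hcx in
/-- multiplication by `e` -/
theorem lim_unit {e : Ω} (heB : e ∈ B) (he : Gt v 0 (e - 1)) {z : Ω}
    (h : Lim v B 0 z) : Lim v B 0 (e * z) := by
  intro ε hε
  obtain ⟨b, hb, h1⟩ := h ε hε
  refine ⟨e * b, mul_mem heB hb, ?_⟩
  rw [← mul_sub]
  have := (ge_one_unit he).mul h1
  rwa [zero_add] at this

/-- **the class of `Φ z` is the class of `e Φ z`** -/
theorem nr_unit (hBL : B ≤ LE) {Φ : Opr v LE} (hB : ∀ b ∈ B, fn Φ b ∈ B) {e : Ω} (heB : e ∈ B)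
    (he : Gt v 0 (e - 1)) {z : Ω} (hz : z ∈ LE) (h : Lim v B 0 z) :
    Nr v B 0 (fn Φ z - e * fn Φ z) := by
  by_cases h0 : e - 1 = 0
  · rw [sub_eq_zero.1 h0, one_mul, sub_self]
    exact nr_zero'
  obtain ⟨b, hb, h1⟩ := h (v (e - 1)) (he h0)
  refine ⟨-((e - 1) * fn Φ b), neg_mem (mul_mem (sub_mem heB (one_mem B)) (hB b hb)), ?_⟩
  have e1 : fn Φ z - e * fn Φ z - -((e - 1) * fn Φ b) = -((e - 1) * (fn Φ z - fn Φ b)) := by ring
  rw [e1]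
  refine RVal.Ge.neg ?_
  have h2 := (RVal.ge_self (v := v) (e - 1)).mul (fn_near Φ hz (hBL hb) h1)
  rwa [zero_sub, add_neg_cancel] at h2

section Main

variable (hM : MatchG v L G D) (hT : T = adjT G) (hD : DExt v T L LE)
  (hEB : E ≤ B) (hBL : B ≤ LE)
  (hst : ∀ φ ∈ T, ∀ Φ : Opr v LE, IsExt L φ Φ → ∀ b ∈ B, fn Φ b ∈ B)

include hM hT hEB hBL hst in
/-- the elements of `D` preserve `B` -/
theorem D_stab {Ψ : Opr v LE} (hΨ : Ψ ∈ D) {b : Ω} (hb : b ∈ B) : fn Ψ b ∈ B := by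
  obtain ⟨φ, hφ, Φ, hΦ, e, he, -, h1⟩ := hM.sur Ψ hΨ
  rw [h1 b (hBL hb)]
  exact mul_mem (hEB he) (hst φ (hT ▸ subset_adjT hφ) Φ hΦ b hb)

include hM hT hEB hBL hst in
theorem wd_lim {x : Ω} (hx : x ∈ LE) (hl : Lim v B 0 x) {j : ℕ} {y : Ω} (hy : y ∈ Wd D x j) :
    Lim v B 0 y := by
  have h1 : ∀ w : List (Opr v LE), (∀ Φ ∈ w, Φ ∈ D) → Lim v B 0 (fn w.prod x) := by
    intro w
    induction w with
    | nil => intro _; rw [List.prod_nil, fn_opr_one hx]; exact hl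
    | cons Ψ w ih =>
      intro hw
      rw [List.prod_cons, fn_opr_mul _ _ hx]
      exact lim_fn hBL (fun b hb => D_stab hM hT hEB hBL hst (hw Ψ (List.mem_cons_self ..)) hb)
        (fn_mem _ _) (ih fun Φ hΦ => hw Φ (List.mem_cons_of_mem _ hΦ))
  induction hy using Submodule.span_induction with
  | mem y hy =>
    obtain ⟨w, hw, -, rfl⟩ := hy
    exact h1 w hw
  | zero => exact Lim.of_mem (zero_mem _)
  | add y z _ _ h1 h2 => exact Lim.add h1 h2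
  | smul a y _ h =>
    rw [Algebra.smul_def]
    exact Lim.smul h a

/-- `Ψ ∈ D` maps the words of length `≥ j` to words of length `≥ j + 1` -/
theorem D_wd {x : Ω} (hx : x ∈ LE) {Ψ : Opr v LE} (hΨ : Ψ ∈ D) {j : ℕ} {y : Ω}
    (hy : y ∈ Wd D x j) : fn Ψ y ∈ Wd D x (j + 1) := by
  induction hy using Submodule.span_induction with
  | mem y hy =>
    obtain ⟨w, hw, hj, rfl⟩ := hy
    refine Submodule.subset_span ⟨Ψ :: w, ?_, by rw [List.length_cons]; omega, ?_⟩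
    · intro Φ hΦ
      rcases List.mem_cons.1 hΦ with rfl | h
      exacts [hΨ, hw Φ h]
    · rw [List.prod_cons, fn_opr_mul _ _ hx]
  | zero => rw [fn_zero]; exact zero_mem _
  | add y z hy hz h1 h2 =>
    rw [fn_add Ψ (wd_mem hy) (wd_mem hz)]
    exact add_mem h1 h2
  | smul a y hy h =>
    rw [fn_smul Ψ a (wd_mem hy)]
    exact Submodule.smul_mem _ a h

include hM hT hEB hBL hst in
/-- the generators map `Zd j` in `Zd (j + 1)` -/
theorem gen_zd {x : Ω} (hx : x ∈ LE) (hl : Lim v B 0 x) {φ : Opr v E} (hφ : φ ∈ G) {Φ : Opr v LE}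
    (hΦ : IsExt L φ Φ) {j : ℕ} {z : Ω} (hz : z ∈ Zd v LE B D x j) :
    fn Φ z ∈ Zd v LE B D x (j + 1) := by
  obtain ⟨hzL, y, hy, h1⟩ := hz
  obtain ⟨Ψ, hΨ, e, he, h2, h3⟩ := hM.mat φ hφ Φ hΦ
  have hyL := wd_mem hy
  have hBΦ := hst φ (hT ▸ subset_adjT hφ) Φ hΦ
  refine ⟨fn_mem _ _, fn Ψ y, D_wd hx hΨ hy, ?_⟩
  have e1 : fn Φ z - fn Ψ y = fn Φ (z - y) + (fn Φ y - e * fn Φ y) := by
    rw [fn_sub' Φ hzL hyL, h3 y hyL]
    ring
  rw [e1]
  exact Nr.add (nr_fn hBL hBΦ (sub_mem hzL hyL) h1)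
    (nr_unit hBL hBΦ (hEB he) h2 hyL (wd_lim hM hT hEB hBL hst hx hl hy))

omit hcx in
/-- the sum of a family in `LE` -/
theorem fn_sum' [Fact (Ctx0 k v)] (Φ : Opr v LE) {ι : Type*} (S : Finset ι) {y : ι → Ω}
    (hy : ∀ i ∈ S, y i ∈ LE) : fn Φ (∑ i ∈ S, y i) = ∑ i ∈ S, fn Φ (y i) := by
  classical
  induction S using Finset.induction_on with
  | empty => rw [Finset.sum_empty, Finset.sum_empty, fn_zero]
  | insert a S ha ih =>
    rw [Finset.sum_insert ha, Finset.sum_insert ha, fn_add Φ (hy a (Finset.mem_insert_self a S))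
      (sum_mem fun i hi => hy i (Finset.mem_insert_of_mem hi)),
      ih fun i hi => hy i (Finset.mem_insert_of_mem hi)]

include hD in
/-- the extension is unique -/
theorem IsExt.uniq {φ : Opr v E} {Φ Φ' : Opr v LE} (h1 : IsExt L φ Φ) (h2 : IsExt L φ Φ') {x : Ω}
    (hx : x ∈ LE) : fn Φ x = fn Φ' x := by
  have hL : L ≤ LE := hD.leL
  have hE : E ≤ LE := hD.leE
  refine eq_of_ge (v := v) fun b => ?_
  obtain ⟨n, l, e, hl, he, h3⟩ := hD.dense x hx b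
  have hmem : ∀ i ∈ (Finset.univ : Finset (Fin n)), l i * e i ∈ LE := fun i _ =>
    mul_mem (hL (hl i)) (hE (he i))
  have h4 : ∀ {Ψ : Opr v LE}, IsExt L φ Ψ → fn Ψ (∑ i, l i * e i) = ∑ i, l i * fn φ (e i) := by
    intro Ψ hΨ
    rw [fn_sum' Ψ _ hmem]
    exact Finset.sum_congr rfl fun i _ => by rw [hΨ.lin _ (hl i) _ (hE (he i)), hΨ.eq _ (he i)]
  have e1 : fn Φ x - fn Φ' x = (fn Φ x - fn Φ (∑ i, l i * e i)) -
      (fn Φ' x - fn Φ' (∑ i, l i * e i)) := by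
    rw [h4 h1, h4 h2]
    ring
  rw [e1]
  exact (fn_near Φ hx (sum_mem hmem) h3).sub (fn_near Φ' hx (sum_mem hmem) h3)

include hM hT hD hEB hBL hst in
/-- the operators map `Zd j` in `Zd (j + 1)` -/
theorem opr_zd {x : Ω} (hx : x ∈ LE) (hl : Lim v B 0 x) {φ : Opr v E} (hφ : φ ∈ T) {Φ : Opr v LE}
    (hΦ : IsExt L φ Φ) {j : ℕ} {z : Ω} (hz : z ∈ Zd v LE B D x j) :
    fn Φ z ∈ Zd v LE B D x (j + 1) := by
  have hL : L ≤ LE := hD.leL
  have hE : E ≤ LE := hD.leE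
  have key : φ ∈ T ∧ ∀ Φ : Opr v LE, IsExt L φ Φ → ∀ j, ∀ z ∈ Zd v LE B D x j,
      fn Φ z ∈ Zd v LE B D x (j + 1) := by
    rw [hT] at hφ
    refine adjT_induction (P := fun φ => φ ∈ T ∧ ∀ Φ : Opr v LE, IsExt L φ Φ → ∀ j,
      ∀ z ∈ Zd v LE B D x j, fn Φ z ∈ Zd v LE B D x (j + 1)) ?_ ?_ ?_ ?_ ?_ hφ
    · exact fun φ hφ => ⟨hT ▸ subset_adjT hφ, fun Φ hΦ j z hz =>
        gen_zd hM hT hEB hBL hst hx hl hφ hΦ hz⟩
    · refine ⟨zero_mem T, fun Φ hΦ j z hz => ?_⟩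
      have h0 : IsExt L (0 : Opr v E) (0 : Opr v LE) := ⟨fun e _ => by
        rw [fn_opr_zero, fn_opr_zero], fun l _ y _ => by rw [fn_opr_zero, fn_opr_zero, mul_zero]⟩
      rw [hΦ.uniq hD h0 hz.1, fn_opr_zero]
      exact zd_zero x _
    · rintro φ ψ ⟨hφT, h1⟩ ⟨hψT, h2⟩
      refine ⟨add_mem hφT hψT, fun Φ hΦ j z hz => ?_⟩
      obtain ⟨Φ₁, h3⟩ := hD.ext φ hφT
      obtain ⟨Φ₂, h4⟩ := hD.ext ψ hψT
      have h0 : IsExt L (φ + ψ) (Φ₁ + Φ₂) := ⟨fun e he => by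
        rw [fn_opr_add _ _ (hE he), fn_opr_add _ _ he, h3.eq e he, h4.eq e he], fun l hl' y hy => by
        rw [fn_opr_add _ _ (mul_mem (hL hl') hy), fn_opr_add _ _ hy, h3.lin l hl' y hy,
          h4.lin l hl' y hy, mul_add]⟩
      rw [hΦ.uniq hD h0 hz.1, fn_opr_add _ _ hz.1]
      exact zd_add (h1 _ h3 j z hz) (h2 _ h4 j z hz)
    · rintro a φ ⟨hφT, h1⟩
      refine ⟨T.smul_mem a hφT, fun Φ hΦ j z hz => ?_⟩
      obtain ⟨Φ₁, h3⟩ := hD.ext φ hφT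
      have h0 : IsExt L (a • φ) (a • Φ₁) := ⟨fun e he => by
        rw [fn_opr_smul _ _ (hE he), fn_opr_smul _ _ he, h3.eq e he], fun l hl' y hy => by
        rw [fn_opr_smul _ _ (mul_mem (hL hl') hy), fn_opr_smul _ _ hy, h3.lin l hl' y hy,
          mul_smul_comm]⟩
      rw [hΦ.uniq hD h0 hz.1, fn_opr_smul _ _ hz.1]
      exact zd_smul a (h1 _ h3 j z hz)
    · rintro φ ψ ⟨hφT, h1⟩ ⟨hψT, h2⟩
      have hmT : φ * ψ ∈ T := by
        rw [hT] at hφT hψT ⊢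
        exact adjT_mul hφT hψT
      refine ⟨hmT, fun Φ hΦ j z hz => ?_⟩
      obtain ⟨Φ₁, h3⟩ := hD.ext φ hφT
      obtain ⟨Φ₂, h4⟩ := hD.ext ψ hψT
      have h0 : IsExt L (φ * ψ) (Φ₁ * Φ₂) := ⟨fun e he => by
        rw [fn_opr_mul _ _ (hE he), fn_opr_mul _ _ he, h4.eq e he, h3.eq _ (fn_mem _ _)],
        fun l hl' y hy => by
        rw [fn_opr_mul _ _ (mul_mem (hL hl') hy), fn_opr_mul _ _ hy, h4.lin l hl' y hy,
          h3.lin l hl' _ (fn_mem _ _)]⟩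
      rw [hΦ.uniq hD h0 hz.1, fn_opr_mul _ _ hz.1]
      exact zd_anti (Nat.le_succ _) (h1 _ h3 _ _ (h2 _ h4 j z hz))
  exact key.2 Φ hΦ j z hz

include hM in
/-- long words are small at `x` -/
theorem long_word {x : Ω} (hx : x ∈ LE) : ∃ m : ℕ, ∀ w : List (Opr v LE), (∀ Φ ∈ w, Φ ∈ D) →
    m ≤ w.length → v.Ge 0 (fn w.prod x) := by
  classical
  set F : Finset (Opr v LE) := (hM.fin x hx).toFinset with hF
  have hFD : ∀ Φ ∈ F, Φ ∈ D := fun Φ hΦ => ((hM.fin x hx).mem_toFinset.1 hΦ).1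
  obtain ⟨m, hm⟩ := exists_len hM.comm hM.nil F hFD
  refine ⟨m, fun w hw hwm => ?_⟩
  by_cases h1 : ∀ Φ ∈ w, Φ ∈ F
  · rw [hm w h1 hwm, fn_opr_zero]
    exact RVal.Ge.zero
  · push Not at h1
    have h2 : ∀ w : List (Opr v LE), (∀ Φ ∈ w, Φ ∈ D) → (∃ Φ ∈ w, Φ ∉ F) →
        v.Ge 0 (fn w.prod x) := by
      intro w
      induction w with
      | nil => intro _ h; simp at h
      | cons Ψ w ih =>
        intro hw h
        have hw' : ∀ Φ ∈ w, Φ ∈ D := fun Φ hΦ => hw Φ (List.mem_cons_of_mem _ hΦ)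
        have hΨ : Ψ ∈ D := hw Ψ (List.mem_cons_self ..)
        rw [List.prod_cons]
        by_cases h3 : Ψ ∈ F
        · have h4 : ∃ Φ ∈ w, Φ ∉ F := by
            obtain ⟨Φ, hΦ, hΦF⟩ := h
            rcases List.mem_cons.1 hΦ with rfl | h5
            · exact absurd h3 hΦF
            · exact ⟨Φ, h5, hΦF⟩
          rw [fn_opr_mul _ _ hx]
          exact fn_ge Ψ (fn_mem _ _) (ih hw' h4)
        · have hc : Commute Ψ w.prod := Commute.list_prod_right w Ψ fun Φ hΦ =>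
            hM.comm Ψ hΨ Φ (hw' Φ hΦ)
          rw [hc.eq, fn_opr_mul _ _ hx]
          refine fn_ge _ (fn_mem _ _) ?_
          by_contra h4
          exact h3 ((hM.fin x hx).mem_toFinset.2 ⟨hΨ, h4⟩)
    exact h2 w hw h1

end Main

theorem ge_span {S : Set Ω} (h : ∀ y ∈ S, v.Ge 0 y) {y : Ω} (hy : y ∈ Submodule.span k S) :
    v.Ge 0 y := by
  induction hy using Submodule.span_induction with
  | mem y hy => exact h y hy
  | zero => exact RVal.Ge.zero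
  | add y z _ _ h1 h2 => exact RVal.Ge.add h1 h2
  | smul a y _ h =>
    have h1 := (hcx.out.ge a).mul h
    rw [zero_add] at h1
    rwa [Algebra.smul_def]

/-- the words at `x` are in a space of finite dimension, modulo `O(0)` -/
theorem wd_fin (hM : MatchG v L G D) {x : Ω} (hx : x ∈ LE) :
    ∃ S : Set Ω, S.Finite ∧ ∀ y ∈ Wd D x 0, ∃ s ∈ Submodule.span k S, v.Ge 0 (y - s) := by
  classical
  set F : Finset (Opr v LE) := (hM.fin x hx).toFinset with hF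
  have hFD : ∀ Φ ∈ F, Φ ∈ D := fun Φ hΦ => ((hM.fin x hx).mem_toFinset.1 hΦ).1
  obtain ⟨m, hm⟩ := exists_len hM.comm hM.nil F hFD
  have hword : ∀ w : List (Opr v LE), (∀ Φ ∈ w, Φ ∈ D) → (∃ Φ ∈ w, Φ ∉ F) →
      v.Ge 0 (fn w.prod x) := by
    intro w
    induction w with
    | nil => intro _ h; simp at h
    | cons Ψ w ih =>
      intro hw h
      have hw' : ∀ Φ ∈ w, Φ ∈ D := fun Φ hΦ => hw Φ (List.mem_cons_of_mem _ hΦ)
      have hΨ : Ψ ∈ D := hw Ψ (List.mem_cons_self ..)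
      rw [List.prod_cons]
      by_cases h3 : Ψ ∈ F
      · have h4 : ∃ Φ ∈ w, Φ ∉ F := by
          obtain ⟨Φ, hΦ, hΦF⟩ := h
          rcases List.mem_cons.1 hΦ with rfl | h5
          · exact absurd h3 hΦF
          · exact ⟨Φ, h5, hΦF⟩
        rw [fn_opr_mul _ _ hx]
        exact fn_ge Ψ (fn_mem _ _) (ih hw' h4)
      · have hc : Commute Ψ w.prod := Commute.list_prod_right w Ψ fun Φ hΦ =>
          hM.comm Ψ hΨ Φ (hw' Φ hΦ)
        rw [hc.eq, fn_opr_mul _ _ hx]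
        refine fn_ge _ (fn_mem _ _) ?_
        by_contra h4
        exact h3 ((hM.fin x hx).mem_toFinset.2 ⟨hΨ, h4⟩)
  refine ⟨(fun w : List F => fn (w.map Subtype.val).prod x) '' {w | w.length < m},
    (List.finite_length_lt F m).image _, fun y hy => ?_⟩
  induction hy using Submodule.span_induction with
  | mem y hy =>
    obtain ⟨w, hw, -, rfl⟩ := hy
    by_cases h1 : ∀ Φ ∈ w, Φ ∈ F
    · by_cases h2 : w.length < m
      · refine ⟨_, Submodule.subset_span ⟨w.attach.map fun Φ => ⟨Φ.1, h1 Φ.1 Φ.2⟩, ?_, rfl⟩, ?_⟩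
        · simpa using h2
        · have e1 : (w.attach.map fun Φ => (⟨Φ.1, h1 Φ.1 Φ.2⟩ : F)).map Subtype.val = w := by
            rw [List.map_map]
            change w.attach.map (fun Φ => Φ.1) = w
            exact List.attach_map_subtype_val w
          dsimp only
          rw [e1, sub_self]
          exact RVal.Ge.zero
      · refine ⟨0, zero_mem _, ?_⟩
        rw [hm w h1 (by omega), fn_opr_zero, sub_self]
        exact RVal.Ge.zero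
    · push Not at h1
      exact ⟨0, zero_mem _, by rw [sub_zero]; exact hword w hw h1⟩
  | zero => exact ⟨0, zero_mem _, by rw [sub_self]; exact RVal.Ge.zero⟩
  | add y z _ _ h1 h2 =>
    obtain ⟨s, hs, h3⟩ := h1
    obtain ⟨s', hs', h3'⟩ := h2
    refine ⟨s + s', add_mem hs hs', ?_⟩
    rw [add_sub_add_comm]
    exact h3.add h3'
  | smul a y _ h =>
    obtain ⟨s, hs, h3⟩ := h
    refine ⟨a • s, Submodule.smul_mem _ a hs, ?_⟩
    rw [← smul_sub, Algebra.smul_def]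
    have h4 := (hcx.out.ge a).mul h3
    rwa [zero_add] at h4

/-- **Nilpotency of the classes.** -/
theorem nilpC_of_match (hM : MatchG v L G D) (hT : T = adjT G) (hD : DExt v T L LE) :
    NilpC v T L LE := by
  classical
  have hE : E ≤ LE := hD.leE
  refine ⟨fun B _ hEB hBL hst x hx hl => ?_, fun x hx hl => ?_⟩
  · obtain ⟨m, hm⟩ := long_word hM hx
    have hsm : ∀ z ∈ Zd v LE B D x m, Nr v B 0 z := by
      rintro z ⟨-, y, hy, h1⟩
      have h2 : v.Ge 0 y := by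
        refine ge_span ?_ hy
        rintro _ ⟨w, hw, hj, rfl⟩
        exact hm w hw hj
      have e1 : z = (z - y) + y := by ring
      rw [e1]
      exact Nr.add h1 ⟨0, zero_mem B, by rwa [sub_zero]⟩
    have main : ∀ (n j : ℕ), m ≤ j + n → ∀ z ∈ Zd v LE B D x j, KilB T L LE B n z := by
      intro n
      induction n with
      | zero =>
        intro j hj z hz
        exact hsm z (zd_anti (by omega) hz)
      | succ n ih =>
        intro j hj z hz φ hφ Φ hΦ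
        exact ih (j + 1) (by omega) _ (opr_zd hM hT hD hEB hBL hst hx hl hφ hΦ hz)
    refine ⟨m, main m 0 (by omega) x ⟨hx, x, Submodule.subset_span ⟨[], by simp, by simp, ?_⟩, ?_⟩⟩
    · rw [List.prod_nil, fn_opr_one hx]
    · rw [sub_self]; exact nr_zero'
  · obtain ⟨S, hS, h1⟩ := wd_fin hM hx
    have hxZ : x ∈ Zd v LE E D x 0 := by
      refine ⟨hx, x, Submodule.subset_span ⟨[], by simp, by simp, ?_⟩, ?_⟩
      · rw [List.prod_nil, fn_opr_one hx]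
      · rw [sub_self]; exact nr_zero'
    obtain ⟨n, s, rfl⟩ : ∃ (n : ℕ) (s : Fin n → Ω), S = Set.range s := by
      refine ⟨hS.toFinset.card, fun i => (hS.toFinset.equivFin.symm i : Ω), ?_⟩
      ext y
      constructor
      · intro hy
        exact ⟨hS.toFinset.equivFin ⟨y, hS.mem_toFinset.2 hy⟩, by simp⟩
      · rintro ⟨i, rfl⟩
        exact hS.mem_toFinset.1 (hS.toFinset.equivFin.symm i).2
    refine ⟨n, s, fun φ hφ Φ hΦ => ?_⟩
    obtain ⟨-, y, hy, h2⟩ := opr_zd hM hT hD le_rfl hE (stab_base hE) hx hl hφ hΦ hxZ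
    obtain ⟨t, ht, h3⟩ := h1 y (wd_anti (Nat.zero_le _) hy)
    obtain ⟨c, rfl⟩ := (Submodule.mem_span_range_iff_exists_fun k).1 ht
    refine ⟨c, ?_⟩
    have e1 : fn Φ x - ∑ i, algebraMap k Ω (c i) * s i =
        (fn Φ x - y) + (y - ∑ i, c i • s i) := by
      simp only [Algebra.smul_def]
      ring
    rw [e1]
    exact Nr.add h2 ⟨0, zero_mem E, by rwa [sub_zero]⟩

end Pool.Agent.TWC
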