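import Pool.Agent.Lib.TWC.NsdM

/-!
# TANK W, leaf (I.N): the property `V'` over a union of perfect fields

`E` is the closure (up to `0`) of the union of closed perfect subfields `El l`, stable under the
operators, on which every operator has a gain (which may depend on `l`).  Then `NSD` holds:
* `Ds v E F D`: the Cauchy sequences of `E` at distance `≤ D` from `F`;
* `nsd_union`: a strictly dominated space is at distance `≤ D` for all `D > 0` from one `El l`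
  (`p`-th roots), so it is killed by the operators, and it is torsion.
-/

set_option autoImplicit false

open Module Submodule

namespace Pool.Agent.TWC

open Pool.Agent.H15JM (RVal)
open Pool.Agent.LU1 (VPos adj)
open Pool.Agent.D2 (Ctx0)
open Pool.Agent.D2P (clI mem_clI)
open Pool.Agent.TWM

universe u w

/-! ## Lifting -/

section Lift

variable {k : Type u} {G G' : Type w} [Field k] [AddCommGroup G] [Module k G] [AddCommGroup G']
  [Module k G'] {σ : k →+* k} [RingHomSurjective σ] {F : G →ₛₗ[σ] G} {F' : G' →ₛₗ[σ] G'}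

theorem V_le_map {g : G' →ₗ[k] G} (hg : ∀ x, g (F' x) = F (g x)) {W : Submodule k G}
    {W' : Submodule k G'} (hW : W ≤ W'.map g) (b : ℕ) : V F W b ≤ (V F' W' b).map g := by
  induction b with
  | zero =>
    rw [V_zero, V_zero, Submodule.map_bot]
  | succ b ih =>
    rw [V_succ, V_succ]
    refine sup_le (hW.trans (Submodule.map_mono le_sup_left)) ?_
    rintro _ ⟨x, hx, rfl⟩
    obtain ⟨z, hz, rfl⟩ := ih hx
    exact ⟨F' z, Submodule.mem_sup_right ⟨z, hz, rfl⟩, hg z⟩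

omit [RingHomSurjective σ] in
theorem it_map {g : G' →ₗ[k] G} (hg : ∀ x, g (F' x) = F (g x)) (b : ℕ) (x : G') :
    g (F'^[b] x) = F^[b] (g x) := by
  induction b generalizing x with
  | zero => rfl
  | succ b ih => rw [Function.iterate_succ_apply, Function.iterate_succ_apply, ih, hg]

end Lift

variable {k Ω : Type u} [Field k] [Field Ω] [Algebra k Ω] {v : RVal Ω}
  {C E F F' : IntermediateField k Ω} {p : ℕ} [hcx : Fact (Ctx0 k v)]

/-! ## Distances of sequences to a subfield -/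

/-- The Cauchy sequences of `E` at distance `≤ D` from `F`. -/
def Ds (v : RVal Ω) [hcx : Fact (Ctx0 k v)] (E F : IntermediateField k Ω) (D : ℝ) :
    Submodule k (CauS v E) where
  carrier := {x | ∃ f ∈ F, ∃ N : ℕ, ∀ n, N ≤ n → v.Ge (-D) ((x : ℕ → Ω) n - f)}
  add_mem' := by
    rintro x y ⟨f, hf, N, hx⟩ ⟨g, hg, M, hy⟩
    refine ⟨f + g, add_mem hf hg, max N M, fun n hn => ?_⟩
    have h1 := (hx n ((le_max_left _ _).trans hn)).add (hy n ((le_max_right _ _).trans hn))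
    have h2 : ((x + y : CauS v E) : ℕ → Ω) n - (f + g) =
        ((x : ℕ → Ω) n - f) + ((y : ℕ → Ω) n - g) := by
      change (x : ℕ → Ω) n + (y : ℕ → Ω) n - (f + g) = _
      ring
    rw [h2]
    exact h1
  zero_mem' := ⟨0, zero_mem F, 0, fun n _ => by
    change v.Ge (-D) ((0 : Ω) - 0)
    rw [sub_zero]
    exact RVal.Ge.zero⟩
  smul_mem' := by
    rintro a x ⟨f, hf, N, hx⟩
    refine ⟨a • f, F.smul_mem hf, N, fun n hn => ?_⟩
    have h2 : ((a • x : CauS v E) : ℕ → Ω) n - a • f = algebraMap k Ω a * ((x : ℕ → Ω) n - f) := by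
      change a • (x : ℕ → Ω) n - a • f = _
      rw [← smul_sub, Algebra.smul_def]
    rw [h2]
    have h1 := (hcx.out.ge a).mul (hx n hn)
    rwa [zero_add] at h1

theorem mem_Ds {D : ℝ} {x : CauS v E} :
    x ∈ Ds v E F D ↔ ∃ f ∈ F, ∃ N : ℕ, ∀ n, N ≤ n → v.Ge (-D) ((x : ℕ → Ω) n - f) := Iff.rfl

theorem Ds_mono {D D' : ℝ} (h : D ≤ D') : Ds v E F D ≤ Ds v E F D' := by
  rintro x ⟨f, hf, N, hx⟩
  exact ⟨f, hf, N, fun n hn => (hx n hn).mono (by linarith)⟩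

theorem Ds_le (h : F ≤ F') (D : ℝ) : Ds v E F D ≤ Ds v E F' D := by
  rintro x ⟨f, hf, N, hx⟩
  exact ⟨f, h hf, N, hx⟩

/-- The sequences near to an element of `F`. -/
def Zs (v : RVal Ω) [hcx : Fact (Ctx0 k v)] (E F : IntermediateField k Ω) :
    Submodule k (CauS v E) := (TrivS v F).submoduleOf (CauS v E)

theorem mem_Zs {x : CauS v E} :
    x ∈ Zs v E F ↔ ∃ f ∈ F, Nul v (fun n => (x : ℕ → Ω) n - f) := Iff.rfl

theorem Zs_le_Ds {D : ℝ} (hD : 0 < D) : Zs v E F ≤ Ds v E F D := by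
  rintro x ⟨f, hf, hx⟩
  obtain ⟨N, hN⟩ := hx D hD
  exact ⟨f, hf, N, hN⟩

theorem Zs_le (h : F ≤ F') : Zs v E F ≤ Zs v E F' := by
  rintro x ⟨f, hf, hx⟩
  exact ⟨f, h hf, hx⟩

/-- A Cauchy sequence is bounded. -/
theorem exists_Ds (x : CauS v E) : ∃ K : ℝ, 0 < K ∧ x ∈ Ds v E F K := by
  obtain ⟨N, hN⟩ := x.2.cau 1 one_pos
  refine ⟨max 1 |v ((x : ℕ → Ω) N)|, lt_max_of_lt_left one_pos, 0, zero_mem F, N, fun n hn => ?_⟩
  rw [sub_zero]
  have h1 : (x : ℕ → Ω) n = ((x : ℕ → Ω) n - (x : ℕ → Ω) N) + (x : ℕ → Ω) N := by ring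
  rw [h1]
  refine ((hN n N hn le_rfl).mono ?_).add ((RVal.ge_self ((x : ℕ → Ω) N)).mono ?_)
  · exact neg_le_neg (le_max_left _ _)
  · have h2 := neg_abs_le (v ((x : ℕ → Ω) N))
    have h3 := le_max_right 1 |v ((x : ℕ → Ω) N)|
    linarith

section Frob

variable [hp : Fact p.Prime] [CharP k p] [CharP Ω p]

theorem Ds_fr {D : ℝ} {x : CauS v E} (h : x ∈ Ds v E F D) :
    MM.frS p v E x ∈ Ds v E F (p * D) := by
  obtain ⟨f, hf, N, hx⟩ := h
  refine ⟨f ^ p, pow_mem hf p, N, fun n hn => ?_⟩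
  change v.Ge (-(p * D)) ((x : ℕ → Ω) n ^ p - f ^ p)
  rw [← sub_pow_char]
  exact (ge_pow (hx n hn) p).mono (le_of_eq (by ring))

theorem Ds_root (hF : ∀ a ∈ F, ∃ b ∈ F, b ^ p = a) {D : ℝ} {x : CauS v E}
    (h : MM.frS p v E x ∈ Ds v E F (p * D)) : x ∈ Ds v E F D := by
  have hp0 : (0 : ℝ) < p := by exact_mod_cast hp.out.pos
  obtain ⟨f, hf, N, hx⟩ := h
  obtain ⟨g, hg, rfl⟩ := hF f hf
  refine ⟨g, hg, N, fun n hn h0 => ?_⟩
  have h1 : v.Ge (-(p * D)) ((x : ℕ → Ω) n ^ p - g ^ p) := hx n hn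
  rw [← sub_pow_char] at h1
  have h2 := h1 (pow_ne_zero p h0)
  rw [v.map_pow h0] at h2
  have h3 : (p : ℝ) * (-D) ≤ p * v ((x : ℕ → Ω) n - g) := by linarith
  exact le_of_mul_le_mul_left h3 hp0

end Frob

theorem coe_actS (φ : Opr v E) (x : CauS v E) (n : ℕ) :
    (MM.actS φ x : ℕ → Ω) n = fn φ ((x : ℕ → Ω) n) := by
  rw [fn_of_mem φ (x.2.mem n)]
  rfl

theorem fn_subw (φ : Opr v E) {x y : Ω} (hx : x ∈ E) (hy : y ∈ E) :
    fn φ (x - y) = fn φ x - fn φ y := by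
  rw [fn_of_mem φ hx, fn_of_mem φ hy, fn_of_mem φ (sub_mem hx hy)]
  have h1 : (⟨x - y, sub_mem hx hy⟩ : E) = ⟨x, hx⟩ - ⟨y, hy⟩ := rfl
  rw [h1, map_sub]
  rfl

theorem Ds_act {D : ℝ} {x : CauS v E} (h : x ∈ Ds v E F D) (hFE : F ≤ E) {φ : Opr v E}
    (hφ : ∀ f ∈ F, fn φ f ∈ F) : MM.actS φ x ∈ Ds v E F D := by
  obtain ⟨f, hf, N, hx⟩ := h
  refine ⟨fn φ f, hφ f hf, N, fun n hn => ?_⟩
  rw [coe_actS, ← fn_subw φ (x.2.mem n) (hFE hf)]
  exact fn_ge φ (sub_mem (x.2.mem n) (hFE hf)) (hx n hn)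

/-- If `φ` has a gain on `F`, the limits of `F` are killed by `φ`. -/
theorem mk_actS_eq_zero {x : CauS v E} (h : ∀ D : ℝ, 0 < D → x ∈ Ds v E F D) (hFE : F ≤ E)
    {φ : Opr v E} {δ : ℝ} (hδ : 0 < δ)
    (hφ : ∀ f ∈ F, ∀ c : ℝ, v.Ge c f → v.Ge (c + δ) (fn φ f)) :
    MM.mk v E (MM.actS φ x) = 0 := by
  obtain ⟨f₀, hf₀, N₀, h₀⟩ := h δ hδ
  refine (MM.mk_eq_zero _).2 ⟨fn φ f₀, fn_mem φ _, fun ε hε => ?_⟩
  obtain ⟨f, hf, N, h1⟩ := h (min ε δ) (lt_min hε hδ)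
  refine ⟨max N₀ N, fun n hn => ?_⟩
  have hn0 := (le_max_left _ _).trans hn
  have hn1 := (le_max_right _ _).trans hn
  have h2 : v.Ge (-δ) (f - f₀) := by
    have h3 : f - f₀ = ((x : ℕ → Ω) n - f₀) - ((x : ℕ → Ω) n - f) := by ring
    rw [h3]
    exact (h₀ n hn0).sub ((h1 n hn1).mono (neg_le_neg (min_le_right _ _)))
  have h4 : v.Ge 0 (fn φ (f - f₀)) := by
    have h5 := hφ (f - f₀) (sub_mem hf hf₀) _ h2
    rwa [neg_add_cancel] at h5
  change v.Ge (-ε) ((MM.actS φ x : ℕ → Ω) n - fn φ f₀)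
  rw [coe_actS]
  have h6 : fn φ ((x : ℕ → Ω) n) - fn φ f₀ = fn φ ((x : ℕ → Ω) n - f) + fn φ (f - f₀) := by
    rw [fn_subw φ (x.2.mem n) (hFE hf), fn_subw φ (hFE hf) (hFE hf₀)]
    ring
  rw [h6]
  refine RVal.Ge.add ?_ (h4.mono (by linarith))
  exact (fn_ge φ (sub_mem (x.2.mem n) (hFE hf)) (h1 n hn1)).mono (neg_le_neg (min_le_left _ _))

/-! ## The theorem -/

section Main

variable [hp : Fact p.Prime] [CharP k p] [CharP Ω p] [PerfectRing k p]
  {T : Submodule k (Opr v E)}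

/-- **`V'` over a union of perfect fields.** -/
theorem nsd_union (h : Oper p v C E T) {El : ℕ → IntermediateField k Ω} (hmono : Monotone El)
    (hperf : ∀ l, ∀ a ∈ El l, ∃ b ∈ El l, b ^ p = a) (hle : ∀ l, El l ≤ E)
    (hd : ∀ e ∈ E, ∃ l, ∃ f ∈ El l, v.Ge 0 (e - f))
    (hst : ∀ φ ∈ T, ∀ l, ∀ e ∈ El l, fn φ e ∈ El l)
    (hg : ∀ φ ∈ T, ∀ l, ∃ δ : ℝ, 0 < δ ∧ ∀ e ∈ El l, ∀ c : ℝ, v.Ge c e →
      v.Ge (c + δ) (fn φ e)) : NSD p h := by
  classical
  have hp1 : (1 : ℝ) ≤ p := by exact_mod_cast hp.out.one_lt.le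
  have hp1' : (1 : ℝ) < p := by exact_mod_cast hp.out.one_lt
  have hp0 : (0 : ℝ) < p := by linarith
  intro Y hY b hb hrel
  obtain ⟨b, rfl⟩ := Nat.exists_eq_add_of_le' hb
  -- the lift
  obtain ⟨S, hS⟩ := hY
  choose s hs using fun m : MM v E => MM.ind m
  set S' : Finset (CauS v E) := S.image s with hS'
  set Y' : Submodule k (CauS v E) := Submodule.span k (S' : Set (CauS v E)) with hY'
  have hmap : Y'.map (MM.mk v E) = Y := by
    rw [hY', Submodule.map_span, hS', Finset.coe_image, ← Set.image_comp, ← hS]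
    congr 1
    refine Set.Subset.antisymm ?_ fun m hm => ⟨m, hm, hs m⟩
    rintro _ ⟨m, hm, rfl⟩
    change MM.mk v E (s m) ∈ _
    rw [hs m]
    exact hm
  set A' : Submodule k (CauS v E) :=
    Submodule.span k {z | ∃ φ ∈ T, ∃ x ∈ Y', MM.actS φ x = z} with hA'
  have hW : Y ⊔ act (h.ops p) Y ≤ (Y' ⊔ A').map (MM.mk v E) := by
    refine sup_le ?_ (act_le.2 ?_)
    · rw [← hmap]
      exact Submodule.map_mono le_sup_left
    · rintro _ ⟨φ, hφ, rfl⟩ y hy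
      rw [← hmap] at hy
      obtain ⟨x, hx, rfl⟩ := hy
      exact ⟨MM.actS φ x, Submodule.mem_sup_right (Submodule.subset_span ⟨φ, hφ, x, hx, rfl⟩), rfl⟩
  have hcomm : ∀ x, MM.mk v E (MM.frS p v E x) = MM.fr p v E (MM.mk v E x) := fun _ => rfl
  -- the relation on the sequences
  have hrel' : ∀ y ∈ Y', ∃ l, (MM.frS p v E)^[b + 1] y ∈
      V (MM.frS p v E) (Y' ⊔ A') (b + 1) ⊔ Zs v E (El l) := by
    intro y hy
    have h1 := hrel (MM.mk v E y) (by rw [← hmap]; exact ⟨y, hy, rfl⟩)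
    obtain ⟨z, hz, h2⟩ := V_le_map hcomm hW (b + 1) h1
    rw [← it_map hcomm] at h2
    have h3 : MM.mk v E ((MM.frS p v E)^[b + 1] y - z) = 0 := by
      rw [map_sub, h2, sub_self]
    obtain ⟨e, he, h4⟩ := (MM.mk_eq_zero _).1 h3
    obtain ⟨l, f, hf, h5⟩ := hd e he
    refine ⟨l, ?_⟩
    rw [← add_sub_cancel z ((MM.frS p v E)^[b + 1] y)]
    refine add_mem (Submodule.mem_sup_left hz) (Submodule.mem_sup_right ⟨f, hf, fun ε hε => ?_⟩)
    obtain ⟨N, hN⟩ := h4 ε hε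
    refine ⟨N, fun n hn => ?_⟩
    have h6 := (hN n hn).add (h5.mono (show -ε ≤ 0 by linarith))
    rwa [sub_add_sub_cancel] at h6
  -- one field for all
  choose! ly hly using hrel'
  obtain ⟨l, hl⟩ : ∃ l, ∀ y ∈ S', ly y ≤ l := ⟨S'.sup ly, fun y hy => Finset.le_sup hy⟩
  have hrel2 : ∀ y ∈ Y', (MM.frS p v E)^[b + 1] y ∈
      V (MM.frS p v E) (Y' ⊔ A') (b + 1) ⊔ Zs v E (El l) := by
    intro y hy
    induction hy using Submodule.span_induction with
    | mem x hx =>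
      refine (sup_le_sup le_rfl (Zs_le (hmono (hl x hx)))) ?_
      exact hly x (Submodule.subset_span hx)
    | zero =>
      rw [it_zero]
      exact zero_mem _
    | add x y _ _ hx hy =>
      rw [it_add]
      exact add_mem hx hy
    | smul a x _ hx =>
      rw [it_smul]
      exact Submodule.smul_mem _ _ hx
  -- one step
  have hstep : ∀ D, 0 < D → Y' ≤ Ds v E (El l) D → Y' ≤ Ds v E (El l) (D / p) := by
    intro D hD hYD y hy
    have h1 : Y' ⊔ A' ≤ Ds v E (El l) D := by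
      refine sup_le hYD (Submodule.span_le.2 ?_)
      rintro _ ⟨φ, hφ, x, hx, rfl⟩
      exact Ds_act (hYD hx) (hle l) (hst φ hφ l)
    have h2 := V_filt (F := MM.frS p v E) (M := fun D => Ds v E (El l) D) (q := (p : ℝ)) hp1
      (fun D D' _ hDD => Ds_mono hDD) (fun D _ x hx => Ds_fr hx) hD h1 b
    have h3 : Zs v E (El l) ≤ Ds v E (El l) ((p : ℝ) ^ b * D) := Zs_le_Ds (by positivity)
    have h4 := sup_le h2 h3 (hrel2 y hy)
    have h5 : (p : ℝ) ^ b * D = (p : ℝ) ^ (b + 1) * (D / p) := by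
      rw [pow_succ]
      field_simp
    rw [h5] at h4
    exact it_root (F := MM.frS p v E) (M := fun D => Ds v E (El l) D) (q := (p : ℝ)) hp1
      (fun D _ x hx => Ds_root (hperf l) hx) (b + 1) (by positivity) h4
  -- the start
  obtain ⟨K, hK, hYK⟩ : ∃ K : ℝ, 0 < K ∧ Y' ≤ Ds v E (El l) K := by
    choose Kx hKx hKx' using fun x : CauS v E => exists_Ds (F := El l) x
    refine ⟨1 + ∑ x ∈ S', Kx x, ?_, Submodule.span_le.2 fun x hx => ?_⟩
    · have := Finset.sum_nonneg fun x (_ : x ∈ S') => (hKx x).le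
      linarith
    · refine Ds_mono ?_ (hKx' x)
      have := Finset.single_le_sum (f := Kx) (fun x _ => (hKx x).le) hx
      linarith
  have hlim : ∀ D, 0 < D → Y' ≤ Ds v E (El l) D := by
    have h2 : ∀ i : ℕ, Y' ≤ Ds v E (El l) (K / (p : ℝ) ^ i) := by
      intro i
      induction i with
      | zero => simpa using hYK
      | succ i ih =>
        have h3 := hstep _ (by positivity) ih
        rwa [div_div, ← pow_succ] at h3
    intro D hD
    obtain ⟨i, hi⟩ := pow_unbounded_of_one_lt (K / D) hp1'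
    refine (h2 i).trans (Ds_mono ?_)
    rw [div_le_iff₀ (by positivity)]
    rw [div_lt_iff₀ hD] at hi
    nlinarith
  -- the operators vanish
  have hact : act (h.ops p) Y = ⊥ := by
    rw [eq_bot_iff]
    refine act_le.2 ?_
    rintro _ ⟨φ, hφ, rfl⟩ y hy
    rw [← hmap] at hy
    obtain ⟨x, hx, rfl⟩ := hy
    obtain ⟨δ, hδ, h1⟩ := hg φ hφ l
    exact mk_actS_eq_zero (fun D hD => hlim D hD hx) (hle l) hδ h1
  refine le_Sat_bot ⟨S, hS⟩ (b := b + 1) fun y hy => ?_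
  have h1 := hrel y hy
  rwa [hact, sup_bot_eq] at h1

end Main

end Pool.Agent.TWC
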