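import Pool.Agent.Lib.TWC.OpW2
import Pool.Agent.Lib.TWC.First

/-!
# TANK W, dimension 4: the operators with weights

`u n l` roots, `M n l` constants of value `ρ l / p^n`, `M (n+1) l ^ p = M n l`.

* `NBR p v B u ρ`: the operators `hd F`, `F < p^n`, have norm `≥ -∑ F l ρ l / p^n` on `B[u n]`;
* `IsW p B u M φ n F`: `φ` is the operator `M^(F/p^n) D^[F/p^n]`; `exists_W`: existence;
* `IsW.lin`, `IsW.isExt`, `IsW.tw`, `IsW.one`;
* `genW`, `adjT (genW ..)`: the algebra of operators; `ext_W`: the extensions.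
-/

set_option autoImplicit false

open Polynomial

namespace Pool.Agent.TWC

open Pool.Agent.H15JM (RVal)
open Pool.Agent.LU1 (VPos adj)
open Pool.Agent.D2 (Ctx0)
open Pool.Agent.D2P (clI mem_clI)
open Pool.Agent.TWM
open Pool.Agent.TWC.Key (hd ev sp lf)

universe u

variable {k Ω : Type u} [Field k] [Field Ω] [Algebra k Ω] {v : RVal Ω}
  {B L P N C E LE : IntermediateField k Ω} {m : ℕ} {u : ℕ → Fin m → Ω} {p : ℕ}
  {M : ℕ → Fin m → Ω} {rho : Fin m → ℝ}

/-! ### Weights -/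

/-- The operators `hd F`, `F < p^n`, have norm `≥ -∑ F l ρ l / p^n` on `B[u n]`. -/
def NBR (p : ℕ) (v : RVal Ω) (B : IntermediateField k Ω) {m : ℕ} (u : ℕ → Fin m → Ω)
    (rho : Fin m → ℝ) : Prop :=
  ∀ (n : ℕ) (F : Fin m → ℕ), (∀ l, F l < p ^ n) → ∀ (f : (Fin m → ℕ) →₀ B) (b : ℝ),
    v.Ge b (ev (u n) f) → v.Ge (b - Key.wt p rho n F) (ev (u n) (hd F f))

theorem NBR.of_le (hPL : P ≤ L) (h : NBR p v L u rho) : NBR p v P u rho := fun n F hF f b hb => by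
  have h1 := h n F hF (f.mapRange (IntermediateField.inclusion hPL) (map_zero _)) b (by
    rw [ev_base]; exact hb)
  rwa [hd_base, ev_base] at h1

/-- The monomial in the constants. -/
def mW {m : ℕ} (M : ℕ → Fin m → Ω) (n : ℕ) (F : Fin m → ℕ) : Ω := ∏ l, M n l ^ F l

theorem root_powM (hM : ∀ n l, M (n + 1) l ^ p = M n l) (n j : ℕ) (l : Fin m) :
    M (n + j) l ^ p ^ j = M n l := by
  induction j with
  | zero => rw [pow_zero, pow_one, add_zero]
  | succ j ih => rw [← add_assoc, pow_succ', pow_mul, hM, ih]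

/-- The monomial at a finer level. -/
theorem mW_level (hM : ∀ n l, M (n + 1) l ^ p = M n l) (n j : ℕ) (F : Fin m → ℕ) :
    mW M (n + j) (fun l => p ^ j * F l) = mW M n F :=
  Finset.prod_congr rfl fun l _ => by rw [pow_mul, root_powM hM]

theorem mW_pow (hM : ∀ n l, M (n + 1) l ^ p = M n l) (n : ℕ) (F : Fin m → ℕ) :
    mW M (n + 1) F ^ p = mW M n F := by
  rw [mW, mW, ← Finset.prod_pow]
  exact Finset.prod_congr rfl fun l _ => by rw [← pow_mul, mul_comm, pow_mul, hM]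

theorem mW_ne (h0 : ∀ n l, M n l ≠ 0) (n : ℕ) (F : Fin m → ℕ) : mW M n F ≠ 0 :=
  Finset.prod_ne_zero_iff.2 fun l _ => pow_ne_zero _ (h0 n l)

theorem mW_mem (hE : ∀ n l, M n l ∈ E) (n : ℕ) (F : Fin m → ℕ) : mW M n F ∈ E :=
  prod_mem fun l _ => pow_mem (hE n l) _

theorem mW_add (n : ℕ) (F G : Fin m → ℕ) :
    mW M n (fun l => F l + G l) = mW M n F * mW M n G := by
  rw [mW, mW, mW, ← Finset.prod_mul_distrib]
  exact Finset.prod_congr rfl fun l _ => pow_add _ _ _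

theorem mW_ge (hv : ∀ n l, v (M n l) = rho l / p ^ n) (n : ℕ) (F : Fin m → ℕ) :
    v.Ge (Key.wt p rho n F) (mW M n F) := by
  refine RVal.Ge.prod (v := v) (fun l => (F l : ℝ) * (rho l / p ^ n)) Finset.univ _ fun l _ => ?_
  exact Key.ge_pow (RVal.ge_self (v := v) (M n l) |>.mono (by rw [hv]))

theorem mW_val (h0 : ∀ n l, M n l ≠ 0) (hv : ∀ n l, v (M n l) = rho l / p ^ n) (n : ℕ)
    (F : Fin m → ℕ) : v (mW M n F) = Key.wt p rho n F := by
  refine le_antisymm ?_ (mW_ge hv n F (mW_ne h0 n F))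
  have h1 : v.Ge (Key.wt p (fun l => -rho l) n F) (mW M n F)⁻¹ := by
    have h2 : (mW M n F)⁻¹ = mW (fun n l => (M n l)⁻¹) n F := by
      rw [mW, mW, ← Finset.prod_inv_distrib]
      exact Finset.prod_congr rfl fun l _ => (inv_pow _ _).symm
    rw [h2]
    refine mW_ge (fun n l => ?_) n F
    rw [v.map_inv (h0 n l), hv, neg_div]
  have h2 := h1 (inv_ne_zero (mW_ne h0 n F))
  rw [v.map_inv (mW_ne h0 n F)] at h2
  have h3 : Key.wt p (fun l => -rho l) n F = -Key.wt p rho n F := by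
    rw [Key.wt, Key.wt, ← Finset.sum_neg_distrib]
    exact Finset.sum_congr rfl fun l _ => by ring
  linarith

/-! ### The operators -/

/-- The operator of order `F / p^n`, with its constant. -/
def IsW (p : ℕ) (B : IntermediateField k Ω) {m : ℕ} (u M : ℕ → Fin m → Ω) [Fact (Ctx0 k v)]
    {E : IntermediateField k Ω} (φ : Opr v E) (n : ℕ) (F : Fin m → ℕ) : Prop :=
  ∀ (j : ℕ) (f : (Fin m → ℕ) →₀ B),
    fn φ (ev (u (n + j)) f) = mW M n F * ev (u (n + j)) (hd (fun l => p ^ j * F l) f)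

section Ex

variable [hp : Fact p.Prime] [CharP Ω p] [hcx : Fact (Ctx0 k v)]

omit hcx in
/-- the operator is well defined -/
theorem ev_hd_congrW (hr : ∀ n l, u (n + 1) l ^ p = u n l) (hn : NBR p v B u rho) {n : ℕ}
    {F : Fin m → ℕ} (hF : ∀ l, F l < p ^ n) {j j' : ℕ} {f f' : (Fin m → ℕ) →₀ B}
    (h : ev (u (n + j)) f = ev (u (n + j')) f') :
    ev (u (n + j)) (hd (fun l => p ^ j * F l) f) =
      ev (u (n + j')) (hd (fun l => p ^ j' * F l) f') := by
  have _ := charP_sub (Ω := Ω) p B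
  have h1 : ∀ (j j' : ℕ) (f : (Fin m → ℕ) →₀ B),
      ev (u (n + j)) (hd (fun l => p ^ j * F l) f) =
        ev (u (n + j + j')) (hd (fun l => p ^ (j + j') * F l) (lf (p ^ j') f)) := by
    intro j j' f
    have h2 : (fun l => p ^ (j + j') * F l) = fun l => p ^ j' * (p ^ j * F l) := by
      funext l
      rw [← mul_assoc, ← pow_add, add_comm j' j]
    rw [h2, Key.hd_lf p j' (fun l => p ^ j * F l) f, ev_lift hr]
  have h2 : ev (u (n + j + j')) (lf (p ^ j') f - lf (p ^ j) f') = 0 := by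
    rw [map_sub, ev_lift hr, add_assoc, add_comm j j', ← add_assoc, ev_lift hr, h, sub_self]
  have h3 : ev (u (n + j + j')) (hd (fun l => p ^ (j + j') * F l)
      (lf (p ^ j') f - lf (p ^ j) f')) = 0 := by
    refine eq_zero_of_ge (v := v) fun b => ?_
    have h4 := hn (n + j + j') (fun l => p ^ (j + j') * F l) (fun l => by
      rw [add_assoc]
      exact lt_level hF l) (lf (p ^ j') f - lf (p ^ j) f')
      (b + Key.wt p rho (n + j + j') fun l => p ^ (j + j') * F l) (by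
      rw [h2]
      exact RVal.Ge.zero)
    exact h4.mono (by linarith)
  rw [map_sub, map_sub, sub_eq_zero] at h3
  rw [h1 j j' f, h3, h1 j' j f', add_comm j' j, add_assoc n j' j, add_comm j' j, ← add_assoc]

/-- **Existence of the operators.** -/
theorem exists_W (hc : CompleteV v) (hr : ∀ n l, u (n + 1) l ^ p = u n l)
    (hv : ∀ n l, v (M n l) = rho l / p ^ n) (hME : ∀ n l, M n l ∈ E) (hn : NBR p v B u rho)
    (hE : Cld v E) (hBE : B ≤ E) (hu : ∀ n l, u n l ∈ E) (hd' : DnsS v (AU B u) E) (n : ℕ)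
    (F : Fin m → ℕ) (hF : ∀ l, F l < p ^ n) : ∃ φ : Opr v E, IsW p B u M φ n F := by
  classical
  -- representations
  have hrep : ∀ x : AUs B hr, ∃ (j : ℕ) (f : (Fin m → ℕ) →₀ B), (x : Ω) = ev (u (n + j)) f := by
    rintro ⟨_, N, f, rfl⟩
    exact ⟨N, lf (p ^ n) f, by rw [add_comm n N, ev_lift hr]⟩
  choose J R hR using hrep
  have hval : ∀ (x : AUs B hr) (j : ℕ) (f : (Fin m → ℕ) →₀ B), (x : Ω) = ev (u (n + j)) f →
      ev (u (n + J x)) (hd (fun l => p ^ J x * F l) (R x)) =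
        ev (u (n + j)) (hd (fun l => p ^ j * F l) f) := fun x j f h =>
    ev_hd_congrW hr hn hF ((hR x).symm.trans h)
  -- a common level
  have hcom : ∀ x y : AUs B hr, ∃ (j : ℕ) (f g : (Fin m → ℕ) →₀ B),
      (x : Ω) = ev (u (n + j)) f ∧ (y : Ω) = ev (u (n + j)) g := by
    intro x y
    refine ⟨J x + J y, lf (p ^ J y) (R x), lf (p ^ J x) (R y), ?_, ?_⟩
    · rw [← add_assoc, ev_lift hr, ← hR]
    · rw [add_comm (J x), ← add_assoc, ev_lift hr, ← hR]
  let f : AUs B hr →ₗ[k] Ω :=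
    { toFun := fun x => mW M n F * ev (u (n + J x)) (hd (fun l => p ^ J x * F l) (R x))
      map_add' := by
        intro x y
        obtain ⟨j, f, g, hx, hy⟩ := hcom x y
        rw [hval x j f hx, hval y j g hy, hval (x + y) j (f + g) (by
          rw [map_add, ← hx, ← hy]; rfl), map_add, map_add, mul_add]
      map_smul' := by
        intro a x
        have h1 := hval (a • x) (J x) ((⟨algebraMap k Ω a, B.algebraMap_mem a⟩ : B) • R x) (by
          rw [map_smul, ← hR, Algebra.smul_def]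
          change a • (x : Ω) = _
          rw [Algebra.smul_def]
          rfl)
        rw [h1, map_smul, map_smul, Algebra.smul_def, RingHom.id_apply, Algebra.smul_def,
          mul_left_comm]
        rfl }
  obtain ⟨φ, hφ⟩ := exists_ext hE hc (AUs B hr) (fun a ha => AU.mem hBE hu ha) hd' f
    (fun a => mul_mem (mW_mem hME n F) (ev_mem hBE (hu _) _)) (fun a b hb => by
      have h1 := hn (n + J a) (fun l => p ^ J a * F l) (fun l => lt_level hF l) (R a) b (by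
        rw [← hR]
        exact hb)
      rw [Key.wt_mul] at h1
      have h2 := (mW_ge hv n F).mul h1
      exact h2.mono (by linarith))
  refine ⟨φ, fun j g => ?_⟩
  have hmem : ev (u (n + j)) g ∈ AUs B hr := ⟨n + j, g, rfl⟩
  rw [hφ _ hmem]
  exact congrArg (mW M n F * ·) (hval ⟨_, hmem⟩ j g rfl)

omit hp [CharP Ω p] in
/-- The operator at an element of any level. -/
theorem IsW.apply (hr : ∀ n l, u (n + 1) l ^ p = u n l) {φ : Opr v E} {n : ℕ} {F : Fin m → ℕ}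
    (h : IsW p B u M φ n F) (N : ℕ) (f : (Fin m → ℕ) →₀ B) :
    fn φ (ev (u N) f) = mW M n F * ev (u (n + N)) (hd (fun l => p ^ N * F l) (lf (p ^ n) f)) := by
  rw [← h N, add_comm n N, ev_lift hr]

omit hp [CharP Ω p] in
/-- The operators are `B`-linear. -/
theorem IsW.lin (hr : ∀ n l, u (n + 1) l ^ p = u n l) (hBE : B ≤ E)
    (hd' : DnsS v (AU B u) E) {n : ℕ} {F : Fin m → ℕ} {φ : Opr v E} (h : IsW p B u M φ n F) :
    ∀ c ∈ B, ∀ x ∈ E, fn φ (c * x) = c * fn φ x := by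
  refine lin_of_dense (S' := (B : Set Ω)) hBE hd' (fun x hx b => ⟨x, hx, hx, by
    rw [sub_self]; exact RVal.Ge.zero⟩) ?_
  rintro c - hc _ ⟨N, f, rfl⟩ -
  have h1 : ev (u N) f = ev (u (n + N)) (lf (p ^ n) f) := by
    rw [add_comm n N, ev_lift hr]
  rw [h1, h N]
  have h2 : c * ev (u (n + N)) (lf (p ^ n) f) = ev (u (n + N)) ((⟨c, hc⟩ : B) • lf (p ^ n) f) := by
    rw [map_smul, Algebra.smul_def]
    rfl
  rw [h2, h N, map_smul, map_smul, Algebra.smul_def, mul_left_comm]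
  rfl

omit hp [CharP Ω p] in
/-- The operator over `L` extends the operator over `P`. -/
theorem IsW.isExt (hr : ∀ n l, u (n + 1) l ^ p = u n l) (hPL : P ≤ L) (hELE : E ≤ LE)
    (hLLE : L ≤ LE) (hdE : DnsS v (AU P u) E) (hdL : DnsS v (AU L u) LE) {n : ℕ}
    {F : Fin m → ℕ} {φ : Opr v E} {Φ : Opr v LE} (hφ : IsW p P u M φ n F)
    (hΦ : IsW p L u M Φ n F) : IsExt L φ Φ := by
  refine ⟨fun e he => ?_, hΦ.lin hr hLLE hdL⟩
  refine eq_of_ge (v := v) fun b => ?_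
  obtain ⟨_, ⟨N, f, rfl⟩, hfE, h1⟩ := hdE e he b
  have h2 : ev (u N) f = ev (u (n + N)) (lf (p ^ n) f) := by
    rw [add_comm n N, ev_lift hr]
  have h3 : fn Φ (ev (u N) f) = fn φ (ev (u N) f) := by
    rw [h2, hφ N, ← ev_base hPL, hΦ N, hd_base, ev_base]
  have e1 : fn Φ e - fn φ e = (fn Φ e - fn Φ (ev (u N) f)) - (fn φ e - fn φ (ev (u N) f)) := by
    rw [h3]; ring
  rw [e1]
  exact (fn_near Φ (hELE he) (hELE hfE) h1).sub (fn_near φ he hfE h1)

/-- The Frobenius twist of a generator. -/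
theorem IsW.tw (hr : ∀ n l, u (n + 1) l ^ p = u n l) (hM : ∀ n l, M (n + 1) l ^ p = M n l)
    (hdE : DnsS v (AU P u) E) {φ φ' : Opr v E}
    {n : ℕ} {F : Fin m → ℕ} (hφ : IsW p P u M φ n F) (hφ' : IsW p P u M φ' (n + 1) F) :
    ∀ x : E, (φ : Module.End k E) (x ^ p) = ((φ' : Module.End k E) x) ^ p := by
  have _ := charP_sub (Ω := Ω) p P
  refine pow_of_dense p hdE ?_
  rintro _ ⟨N, f, rfl⟩ -
  have e1 : ev (u N) f = ev (u (n + 1 + N)) (lf (p ^ (n + 1)) f) := by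
    rw [add_comm (n + 1) N, ev_lift hr]
  rw [e1, hφ' N]
  generalize lf (p ^ (n + 1)) f = g
  have h1 : ∀ g : (Fin m → ℕ) →₀ P, ev (u (n + N)) (frF p g) = ev (u (n + 1 + N)) g ^ p :=
    fun g => ev_frF p (fun l => by rw [show n + 1 + N = n + N + 1 by ring]; exact hr _ l) g
  rw [← h1, hφ N, mul_pow, mW_pow hM, ← h1, hd_frF]

omit hp [CharP Ω p] in
/-- The operators of positive order kill `1`. -/
theorem IsW.one {φ : Opr v E} {n : ℕ} {F : Fin m → ℕ} (hF : ∃ l, F l ≠ 0)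
    (hφ : IsW p B u M φ n F) : (φ : Module.End k E) 1 = 0 := by
  obtain ⟨l, hl⟩ := hF
  have h1 := hφ 0 (Finsupp.single (fun _ => 0) 1)
  have h2 : hd (fun l => p ^ 0 * F l) (Finsupp.single (fun _ : Fin m => 0) (1 : B)) = 0 := by
    refine Key.hd_eq_zero fun I hI => ⟨l, ?_⟩
    have h3 : I = fun _ => 0 := Finset.mem_singleton.1 (Finsupp.support_single_subset hI)
    rw [h3, pow_zero, one_mul]
    exact Nat.pos_of_ne_zero hl
  rw [h2, map_zero, Key.ev_single, map_one, one_mul, mul_zero] at h1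
  have h4 : (∏ l, u (n + 0) l ^ 0) = (1 : Ω) := by simp
  rw [h4, fn_of_mem φ (one_mem E)] at h1
  exact Subtype.ext h1

end Ex

/-! ### The algebra of the operators -/

/-- The generators. -/
def genW (p : ℕ) (v : RVal Ω) [Fact (Ctx0 k v)] (P E : IntermediateField k Ω) {m : ℕ}
    (u M : ℕ → Fin m → Ω) : Set (Opr v E) :=
  {φ : Opr v E | ∃ (n : ℕ) (F : Fin m → ℕ),
    (∃ l, F l ≠ 0) ∧ (∀ l, F l < p ^ n) ∧ IsW p P u M φ n F}

/-- The data: `C ≤ L`, the perfect closed field `E`, the closure of `C[u n l]`, the roots `u n l`,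
`u 0 l ∈ C`, near `C` and far from `L` at the levels `ρ l / p^n`, the constants `M n l`. -/
structure PDat (p : ℕ) (v : RVal Ω) (C L E : IntermediateField k Ω) {m : ℕ}
    (u M : ℕ → Fin m → Ω) (rho : Fin m → ℝ) : Prop where
  root : ∀ n l, u (n + 1) l ^ p = u n l
  rootM : ∀ n l, M (n + 1) l ^ p = M n l
  ne : ∀ n l, M n l ≠ 0
  val : ∀ n l, v (M n l) = rho l / p ^ n
  cldC : Cld v C
  cldL : Cld v L
  le : C ≤ L
  cldE : Cld v E
  CE : C ≤ E
  perf : ∀ a ∈ E, ∃ b ∈ E, b ^ p = a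
  mem : ∀ n l, u n l ∈ E
  memM : ∀ n l, M n l ∈ E
  dns : DnsS v (AU C u) E
  base : ∀ l, u 0 l ∈ C
  norm : NBR p v L u rho
  lim : ∀ n l (ε : ℝ), 0 < ε → ∃ h ∈ C, v.Ge (rho l / p ^ n - ε) (u n l - h)
  con : ∀ n l, ∃ c ∈ C, Gt v (rho l / p ^ n) (c - M n l)

namespace PDat

variable [hp : Fact p.Prime] [CharP Ω p] [hcx : Fact (Ctx0 k v)]

omit hp [CharP Ω p] hcx in
theorem leL (_h : PDat p v C L E u M rho) : L ≤ clI v (L ⊔ E) :=
  le_sup_left.trans fun _ ha => LUC.Cl.subset ha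

omit hp [CharP Ω p] hcx in
theorem leE (_h : PDat p v C L E u M rho) : E ≤ clI v (L ⊔ E) :=
  le_sup_right.trans fun _ ha => LUC.Cl.subset ha

omit [CharP Ω p] hcx in
theorem dnsN (h : PDat p v C L E u M rho) (hCN : C ≤ N) :
    DnsS v (AU N u) (clI v (N ⊔ E)) :=
  dns_sup h.root hp.out.pos (fun l => hCN (h.base l)) hCN h.mem h.dns

/-- The operator over `C`. -/
theorem exW (hc : CompleteV v) (h : PDat p v C L E u M rho) (n : ℕ)
    (F : Fin m → ℕ) (hF : ∀ l, F l < p ^ n) : ∃ φ : Opr v E, IsW p C u M φ n F :=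
  exists_W hc h.root h.val h.memM (h.norm.of_le h.le) h.cldE h.CE h.mem h.dns n F hF

/-- The operator over `L`. -/
theorem exL (hc : CompleteV v) (h : PDat p v C L E u M rho) (n : ℕ)
    (F : Fin m → ℕ) (hF : ∀ l, F l < p ^ n) :
    ∃ φ : Opr v (clI v (L ⊔ E)), IsW p L u M φ n F :=
  exists_W hc h.root h.val (fun n l => h.leE (h.memM n l)) h.norm (cld_clI v _) h.leL
    (fun n l => h.leE (h.mem n l)) (h.dnsN h.le) n F hF

omit [CharP Ω p] in
theorem isExt (h : PDat p v C L E u M rho) {n : ℕ} {F : Fin m → ℕ} {φ : Opr v E}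
    {Φ : Opr v (clI v (L ⊔ E))} (hφ : IsW p C u M φ n F) (hΦ : IsW p L u M Φ n F) :
    IsExt L φ Φ :=
  hφ.isExt h.root h.le h.leE h.leL h.dns (h.dnsN h.le) hΦ

/-- The operators extend. -/
theorem ext (hc : CompleteV v) (h : PDat p v C L E u M rho) {φ : Opr v E}
    (hφ : φ ∈ adjT (genW p v C E u M)) : ∃ Φ : Opr v (clI v (L ⊔ E)), IsExt L φ Φ := by
  refine adjT_induction (P := fun φ => ∃ Φ : Opr v (clI v (L ⊔ E)), IsExt L φ Φ)
    ?_ ?_ ?_ ?_ ?_ hφ
  · rintro φ ⟨n, F, -, hF, h1⟩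
    obtain ⟨Φ, hΦ⟩ := h.exL hc n F hF
    exact ⟨Φ, h.isExt h1 hΦ⟩
  · exact ⟨0, fun e _ => by rw [fn_opZero, fn_opZero], fun l _ x _ => by
      rw [fn_opZero, fn_opZero, mul_zero]⟩
  · rintro φ ψ ⟨Φ, hΦ⟩ ⟨Ψ, hΨ⟩
    exact ⟨Φ + Ψ, fun e he => by rw [fn_opAdd, fn_opAdd, hΦ.eq e he, hΨ.eq e he],
      fun l hl x hx => by rw [fn_opAdd, fn_opAdd, hΦ.lin l hl x hx, hΨ.lin l hl x hx, mul_add]⟩
  · rintro a φ ⟨Φ, hΦ⟩
    exact ⟨a • Φ, fun e he => by rw [fn_opSmul, fn_opSmul, hΦ.eq e he],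
      fun l hl x hx => by rw [fn_opSmul, fn_opSmul, hΦ.lin l hl x hx, mul_smul_comm]⟩
  · rintro φ ψ ⟨Φ, hΦ⟩ ⟨Ψ, hΨ⟩
    refine ⟨Φ * Ψ, fun e he => ?_, fun l hl x hx => ?_⟩
    · rw [fn_opMul _ _ (h.leE he), fn_opMul _ _ he, hΨ.eq e he, hΦ.eq _ (fn_mem ψ e)]
    · rw [fn_opMul _ _ (mul_mem (h.leL hl) hx), fn_opMul _ _ hx, hΨ.lin l hl x hx,
        hΦ.lin l hl _ (fn_mem Ψ x)]

/-- **The axioms of the operators.** -/
theorem oper [CharP k p] [PerfectRing k p] (hc : CompleteV v) (h : PDat p v C L E u M rho) :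
    Oper p v C E (adjT (genW p v C E u M)) := by
  have h1 : OpM p v E (adjT (genW p v C E u M)) := by
    refine opM_adjT p h.cldE h.perf ?_ ?_
    · rintro φ ⟨n, F, hF0, hF, hφ⟩
      have hF' : ∀ l, F l < p ^ (n + 1) := fun l =>
        (hF l).trans_le (Nat.pow_le_pow_right hp.out.pos (Nat.le_succ n))
      obtain ⟨φ', hφ'⟩ := h.exW hc (n + 1) F hF'
      exact ⟨φ', ⟨n + 1, F, hF0, hF', hφ'⟩, hφ.tw h.root h.rootM h.dns hφ'⟩
    · rintro φ ⟨n, F, hF0, -, hφ⟩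
      exact hφ.one hF0
  refine ⟨h.CE, h.cldC, h.cldE, h.perf, h1.mul, h1.tw, fun φ hφ c hcC x => ?_, h1.one⟩
  have h2 : ∀ c ∈ C, ∀ x ∈ E, fn φ (c * x) = c * fn φ x := by
    refine adjT_induction (P := fun φ => ∀ c ∈ C, ∀ x ∈ E, fn φ (c * x) = c * fn φ x)
      ?_ ?_ ?_ ?_ ?_ hφ
    · rintro φ ⟨n, F, -, -, hφ⟩
      exact hφ.lin h.root h.CE h.dns
    · intro c _ x _
      rw [fn_opZero, fn_opZero, mul_zero]
    · intro φ ψ h2 h3 c hc x hx
      rw [fn_opAdd, fn_opAdd, h2 c hc x hx, h3 c hc x hx, mul_add]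
    · intro a φ h2 c hc x hx
      rw [fn_opSmul, fn_opSmul, h2 c hc x hx, mul_smul_comm]
    · intro φ ψ h2 h3 c hc x hx
      rw [fn_opMul _ _ (mul_mem (h.CE hc) hx), fn_opMul _ _ hx, h3 c hc x hx,
        h2 c hc _ (fn_mem ψ x)]
  have h3 := h2 c hcC x x.2
  rw [fn_of_mem φ (mul_mem c.2 x.2), fn_of_mem φ x.2] at h3
  exact Subtype.ext h3

end PDat

end Pool.Agent.TWC
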