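import Pool.Agent.Lib.TWC.NsdW
import Pool.Agent.Lib.TWC.PrA

/-!
# TANK W, leaf (I.N): `NSD` for the operators with weights over a union

* `IsW.gain`: `B ≤ C`, polynomials in the `u n l` over `B` dense in the closed field `F'`, the
  operators `hd F` of norm `≥ - wt rho'` on `B[u n]`: the operator `M^(F/p^n) D^[F/p^n]` maps `F'`
  to `F'` and has the gain `wt rho - wt rho'` there;
* `PDat.nsd_union`: `NSD` for `D.oper`, from an increasing sequence of fields `Bl l ≤ C` with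
  radii `rl l i < rho i`.
-/

set_option autoImplicit false

open Polynomial

namespace Pool.Agent.TWC

open Pool.Agent.H15JM (RVal)
open Pool.Agent.LU1 (VPos adj)
open Pool.Agent.D2 (Ctx0)
open Pool.Agent.D2P (clI mem_clI)
open Pool.Agent.TWM
open Pool.Agent.TWC.Key (hd ev sp lf)

universe u

variable {k Ω : Type u} [Field k] [Field Ω] [Algebra k Ω] {v : RVal Ω}
  {B L C E F' : IntermediateField k Ω} {m : ℕ} {u : ℕ → Fin m → Ω} {p : ℕ}
  {M : ℕ → Fin m → Ω} {rho rho' : Fin m → ℝ} [hp : Fact p.Prime] [hcx : Fact (Ctx0 k v)]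

/-- The operator on the polynomials over `B`. -/
theorem IsW.gain_au (hr : ∀ n l, u (n + 1) l ^ p = u n l)
    (hvM : ∀ n l, v (M n l) = rho l / p ^ n) (hBC : B ≤ C) (hBF : B ≤ F')
    (hu : ∀ n l, u n l ∈ F') (hM : ∀ n l, M n l ∈ F') (hnb : NBR p v B u rho') {φ : Opr v E}
    {n : ℕ} {F : Fin m → ℕ} (hφ : IsW p C u M φ n F) (hF : ∀ l, F l < p ^ n) {a : Ω}
    (ha : a ∈ AU B u) : fn φ a ∈ F' ∧
      ∀ c : ℝ, v.Ge c a → v.Ge (c + (Key.wt p rho n F - Key.wt p rho' n F)) (fn φ a) := by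
  obtain ⟨N, f, rfl⟩ := ha
  obtain ⟨f', hf'⟩ : ∃ f', f' = lf (p ^ n) f := ⟨_, rfl⟩
  have e1 : ev (u N) f = ev (u (n + N)) f' := by rw [hf', add_comm n N, ev_lift hr]
  obtain ⟨f'', hf''⟩ : ∃ f'' : (Fin m → ℕ) →₀ C,
    f'' = f'.mapRange (IntermediateField.inclusion hBC) (map_zero _) := ⟨_, rfl⟩
  have e2 : ev (u (n + N)) f'' = ev (u (n + N)) f' := by rw [hf'', ev_base]
  have e3 : fn φ (ev (u N) f) =
      mW M n F * ev (u (n + N)) (hd (fun l => p ^ N * F l) f') := by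
    rw [e1, ← e2, hφ N f'', hf'', hd_base, ev_base]
  rw [e3]
  refine ⟨mul_mem (mW_mem hM n F) (ev_mem hBF (hu _) _), fun c hc => ?_⟩
  rw [e1] at hc
  have h1 := hnb (n + N) (fun l => p ^ N * F l) (fun l => by
    rw [pow_add, mul_comm]
    exact Nat.mul_lt_mul_of_pos_right (hF l) (pow_pos hp.out.pos N)) f' c hc
  rw [Key.wt_mul] at h1
  exact ((mW_ge hvM n F).mul h1).mono (by linarith)

/-- The operator on the closure. -/
theorem IsW.gain (hr : ∀ n l, u (n + 1) l ^ p = u n l)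
    (hvM : ∀ n l, v (M n l) = rho l / p ^ n) (hBC : B ≤ C) (hBF : B ≤ F') (hFE : F' ≤ E)
    (hFc : Cld v F') (hu : ∀ n l, u n l ∈ F') (hM : ∀ n l, M n l ∈ F')
    (hdn : DnsS v (AU B u) F') (hnb : NBR p v B u rho') {φ : Opr v E}
    {n : ℕ} {F : Fin m → ℕ} (hφ : IsW p C u M φ n F) (hF : ∀ l, F l < p ^ n) {e : Ω}
    (he : e ∈ F') : fn φ e ∈ F' ∧
      ∀ c : ℝ, v.Ge c e → v.Ge (c + (Key.wt p rho n F - Key.wt p rho' n F)) (fn φ e) := by
  have key := fun {a : Ω} (ha : a ∈ AU B u) => hφ.gain_au hr hvM hBC hBF hu hM hnb hF ha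
  refine ⟨hFc (mem_clI.2 fun b => ?_), fun c hc => ?_⟩
  · obtain ⟨a, haA, haF, h1⟩ := hdn e he b
    refine ⟨fn φ a, (key haA).1, ?_⟩
    rw [← fn_subw φ (hFE he) (hFE haF)]
    exact fn_ge φ (sub_mem (hFE he) (hFE haF)) h1
  · set δ := Key.wt p rho n F - Key.wt p rho' n F with hδ
    obtain ⟨a, haA, haF, h1⟩ := hdn e he (max c (c + δ))
    have h2 : v.Ge c a := by
      have h3 : a = e - (e - a) := by ring
      rw [h3]
      exact hc.sub (h1.mono (le_max_left _ _))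
    have h4 : fn φ e = fn φ a + fn φ (e - a) := by
      rw [fn_subw φ (hFE he) (hFE haF)]
      ring
    rw [h4]
    refine ((key haA).2 c h2).add ?_
    exact fn_ge φ (sub_mem (hFE he) (hFE haF)) (h1.mono (le_max_right _ _))

section Pr

variable [CharP Ω p] [CharP k p] [PerfectRing k p]

/-- **`NSD` for the operators with weights, over a union.** -/
theorem PDat.nsd_union (hc : CompleteV v) (D : PDat p v C L E u M rho)
    {Bl El : ℕ → IntermediateField k Ω} (hmono : Monotone El) (hcl : ∀ l, Cld v (El l))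
    (hperf : ∀ l, ∀ a ∈ El l, ∃ b ∈ El l, b ^ p = a) (hle : ∀ l, El l ≤ E)
    (hd : ∀ e ∈ E, ∃ l, ∃ f ∈ El l, v.Ge 0 (e - f))
    (hBC : ∀ l, Bl l ≤ C) (hBE : ∀ l, Bl l ≤ El l) (hu : ∀ l n i, u n i ∈ El l)
    (hM : ∀ l n i, M n i ∈ El l) (hdn : ∀ l, DnsS v (AU (Bl l) u) (El l))
    {rl : ℕ → Fin m → ℝ} (hrl : ∀ l i, rl l i < rho i) (hnb : ∀ l, NBR p v (Bl l) u (rl l)) :
    NSD p (D.oper hc) := by
  have hp0 : (0 : ℝ) < p := by exact_mod_cast hp.out.pos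
  -- the weights
  have hw : ∀ (l n : ℕ) (F : Fin m → ℕ), (∃ i, F i ≠ 0) →
      0 < Key.wt p rho n F - Key.wt p (rl l) n F := by
    rintro l n F ⟨i, hi⟩
    rw [Key.wt, Key.wt, ← Finset.sum_sub_distrib]
    refine Finset.sum_pos' (fun j _ => ?_) ⟨i, Finset.mem_univ _, ?_⟩
    · rw [← mul_sub, ← sub_div]
      have h1 := (hrl l j).le
      have h2 : 0 ≤ rho j - rl l j := by linarith
      positivity
    · rw [← mul_sub, ← sub_div]
      have h1 : 0 < rho i - rl l i := by linarith [hrl l i]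
      have h2 : (0 : ℝ) < F i := by exact_mod_cast Nat.pos_of_ne_zero hi
      positivity
  have key : ∀ φ ∈ adjT (genW p v C E u M), (∀ l, ∀ e ∈ El l, fn φ e ∈ El l) ∧
      ∀ l, ∃ δ : ℝ, 0 < δ ∧ ∀ e ∈ El l, ∀ c : ℝ, v.Ge c e → v.Ge (c + δ) (fn φ e) := by
    intro φ hφ
    refine adjT_induction (P := fun φ : Opr v E => (∀ l, ∀ e ∈ El l, fn φ e ∈ El l) ∧
      ∀ l, ∃ δ : ℝ, 0 < δ ∧ ∀ e ∈ El l, ∀ c : ℝ, v.Ge c e → v.Ge (c + δ) (fn φ e))
      ?_ ?_ ?_ ?_ ?_ hφ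
    · rintro φ ⟨n, F, hF0, hF, h1⟩
      have h2 := fun l {e : Ω} (he : e ∈ El l) => h1.gain D.root D.val (hBC l) (hBE l) (hle l)
        (hcl l) (hu l) (hM l) (hdn l) (hnb l) hF he
      exact ⟨fun l e he => (h2 l he).1, fun l => ⟨_, hw l n F hF0, fun e he c hc =>
        (h2 l he).2 c hc⟩⟩
    · refine ⟨fun l e _ => ?_, fun l => ⟨1, one_pos, fun e _ c _ => ?_⟩⟩
      · rw [fn_opZero]
        exact zero_mem _
      · rw [fn_opZero]
        exact RVal.Ge.zero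
    · rintro φ ψ ⟨h1, h2⟩ ⟨h3, h4⟩
      refine ⟨fun l e he => ?_, fun l => ?_⟩
      · rw [fn_opAdd]
        exact add_mem (h1 l e he) (h3 l e he)
      · obtain ⟨δ, hδ, h5⟩ := h2 l
        obtain ⟨δ', hδ', h6⟩ := h4 l
        refine ⟨min δ δ', lt_min hδ hδ', fun e he c hc => ?_⟩
        rw [fn_opAdd]
        have h7 := min_le_left δ δ'
        have h8 := min_le_right δ δ'
        exact ((h5 e he c hc).mono (by linarith)).add ((h6 e he c hc).mono (by linarith))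
    · rintro a φ ⟨h1, h2⟩
      refine ⟨fun l e he => ?_, fun l => ?_⟩
      · rw [fn_opSmul]
        exact (El l).smul_mem (h1 l e he)
      · obtain ⟨δ, hδ, h5⟩ := h2 l
        refine ⟨δ, hδ, fun e he c hc => ?_⟩
        rw [fn_opSmul, Algebra.smul_def]
        have h6 := (hcx.out.ge a).mul (h5 e he c hc)
        rwa [zero_add] at h6
    · rintro φ ψ ⟨h1, h2⟩ ⟨h3, h4⟩
      refine ⟨fun l e he => ?_, fun l => ?_⟩
      · rw [fn_opMul _ _ (hle l he)]
        exact h1 l _ (h3 l e he)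
      · obtain ⟨δ, hδ, h5⟩ := h2 l
        obtain ⟨δ', hδ', h6⟩ := h4 l
        refine ⟨δ, hδ, fun e he c hc => ?_⟩
        rw [fn_opMul _ _ (hle l he)]
        exact h5 _ (h3 l e he) c ((h6 e he c hc).mono (by linarith))
  exact Pool.Agent.TWC.nsd_union (D.oper hc) hmono hperf hle hd (fun φ hφ => (key φ hφ).1)
    fun φ hφ => (key φ hφ).2

end Pr

end Pool.Agent.TWC
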