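import Pool.Agent.Lib.TWC.OpDeg
import Pool.Agent.Lib.TWC.Lim

/-!
# TANK W, class C and dimension 4: the property `V'` for a base with slack

`E` is the closure of `P[u n l]`, `P` perfect, `u n l` integral, and the operators are
`φ = ∑ Φ_h D^[h / p^n]`, `h < p^n`, with `Φ_h : P → P` additive.

* `CGe v b f`: all the coefficients of `f` are of value `≥ b`;
* `dgV hr D`: the elements `ev (u n) f`, `f` of degree `≤ D p^n` over `P` with coefficients of value
  `≥ -D`; `degF_dgV`: it is a filtration of `E`, for `P` perfect;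
* `OpC p P u φ n Φ`: `φ = ∑ Φ_h D^[h / p^n]`; `OpC.norm`: `Φ_h` is of norm `≤ 0`;
* `OpC.deg`: `φ` preserves the filtration, and, if `Φ_0` has a gain, `φ` is small on the elements of
  small degree;
* `nsd_y`: the property `V'`.
-/

set_option autoImplicit false

open Polynomial

namespace Pool.Agent.TWC

open Pool.Agent.H15JM (RVal)
open Pool.Agent.LU1 (VPos adj)
open Pool.Agent.D2 (Ctx0)
open Pool.Agent.D2P (clI mem_clI)
open Pool.Agent.TWM
open Pool.Agent.TWC.Key (hd ev lf dg)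

universe u

variable {k Ω : Type u} [Field k] [Field Ω] [Algebra k Ω] {v : RVal Ω}
  {P C E : IntermediateField k Ω} {m : ℕ} {u : ℕ → Fin m → Ω} {p : ℕ}

/-! ## The coefficients -/

/-- All the coefficients of `f` are of value `≥ b`. -/
def CGe (v : RVal Ω) (b : ℝ) (f : (Fin m → ℕ) →₀ P) : Prop := ∀ I, v.Ge b (f I : Ω)

theorem CGe.zero {b : ℝ} : CGe v b (0 : (Fin m → ℕ) →₀ P) := fun _ => RVal.Ge.zero

theorem CGe.add {b : ℝ} {f g : (Fin m → ℕ) →₀ P} (hf : CGe v b f) (hg : CGe v b g) :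
    CGe v b (f + g) := fun I => (hf I).add (hg I)

theorem CGe.sum {b : ℝ} {κ : Type*} (s : Finset κ) {f : κ → (Fin m → ℕ) →₀ P}
    (h : ∀ i ∈ s, CGe v b (f i)) : CGe v b (∑ i ∈ s, f i) := by
  classical
  induction s using Finset.induction with
  | empty => rw [Finset.sum_empty]; exact CGe.zero
  | insert a s ha ih =>
    rw [Finset.sum_insert ha]
    exact (h a (Finset.mem_insert_self _ _)).add (ih fun i hi => h i (Finset.mem_insert_of_mem hi))

theorem CGe.mono {b c : ℝ} (h : c ≤ b) {f : (Fin m → ℕ) →₀ P} (hf : CGe v b f) : CGe v c f :=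
  fun I => (hf I).mono h

theorem CGe.single {b : ℝ} {c : P} (h : v.Ge b (c : Ω)) (I : Fin m → ℕ) :
    CGe v b (Finsupp.single I c) := fun J => by
  classical
  rw [Finsupp.single_apply]
  split_ifs
  · exact h
  · exact RVal.Ge.zero

theorem CGe.map {b : ℝ} (F : ((Fin m → ℕ) →₀ P) →+ ((Fin m → ℕ) →₀ P))
    (hF : ∀ I (c : P), v.Ge b (c : Ω) → CGe v b (F (Finsupp.single I c)))
    {f : (Fin m → ℕ) →₀ P} (hf : CGe v b f) : CGe v b (F f) := by
  have h1 : f = ∑ I ∈ f.support, Finsupp.single I (f I) := (Finsupp.sum_single f).symm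
  rw [h1, map_sum]
  exact CGe.sum _ fun I _ => hF I _ (hf I)

variable [hp : Fact p.Prime]

theorem CGe.lfm {b : ℝ} {f : (Fin m → ℕ) →₀ P} (hf : CGe v b f) (a : ℕ) : CGe v b (lf a f) :=
  CGe.map (lf a).toAddMonoidHom (fun I c hc => by
    change CGe v b (lf a (Finsupp.single I c))
    rw [Key.lf_single]
    exact CGe.single hc _) hf

theorem CGe.ev {b : ℝ} {f : (Fin m → ℕ) →₀ P} (hf : CGe v b f) {a : Fin m → Ω}
    (ha : ∀ l, v.Ge 0 (a l)) : v.Ge b (ev a f) := by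
  rw [ev_eq_sum]
  refine RVal.Ge.sum _ _ fun I _ => ?_
  have h1 : v.Ge 0 (∏ l, a l ^ I l) := by
    have h2 := RVal.Ge.prod (v := v) (fun _ : Fin m => (0 : ℝ)) Finset.univ (fun l => a l ^ I l)
      fun l _ => by
        have := Key.ge_pow (ha l) (m := I l)
        rwa [mul_zero] at this
    rwa [Finset.sum_const_zero] at h2
  have h3 := (hf I).mul h1
  rwa [add_zero] at h3

theorem CGe.hdm [CharP Ω p] {b : ℝ} {f : (Fin m → ℕ) →₀ P} (hf : CGe v b f) (F : Fin m → ℕ) :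
    CGe v b (hd F f) :=
  CGe.map (hd F).toAddMonoidHom (fun I c hc => by
    change CGe v b (hd F (Finsupp.single I c))
    rw [Key.hd_single]
    refine CGe.single ?_ _
    have h1 : v.Ge 0 (∏ l, ((((I l).choose (F l) : ℕ)) : Ω)) := by
      have h2 := RVal.Ge.prod (v := v) (fun _ : Fin m => (0 : ℝ)) Finset.univ
        (fun l => ((((I l).choose (F l) : ℕ)) : Ω)) fun l _ => ge_natCast v _
      rwa [Finset.sum_const_zero] at h2
    have h3 := hc.mul h1
    rw [add_zero] at h3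
    refine Eq.subst (motive := fun x => v.Ge b x) ?_ h3
    push_cast
    rfl) hf

theorem CGe.mapRange {b c : ℝ} {f : (Fin m → ℕ) →₀ P} (hf : CGe v b f) (Φ : P →+ P)
    (hΦ : ∀ x : P, v.Ge b (x : Ω) → v.Ge c (Φ x : Ω)) :
    CGe v c (f.mapRange Φ (map_zero _)) := fun I => by
  rw [Finsupp.mapRange_apply]
  exact hΦ _ (hf I)

theorem exists_CGe (v : RVal Ω) (f : (Fin m → ℕ) →₀ P) : ∃ D : ℝ, 0 < D ∧ CGe v (-D) f := by
  classical
  refine ⟨1 + ∑ I ∈ f.support, |v (f I : Ω)|, by positivity, fun I => ?_⟩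
  by_cases hI : I ∈ f.support
  · refine (RVal.ge_self (v := v) (f I : Ω)).mono ?_
    have h1 := Finset.single_le_sum (f := fun I : Fin m → ℕ => |v (f I : Ω)|)
      (fun I _ => abs_nonneg _) hI
    have h2 := neg_abs_le (v (f I : Ω))
    linarith
  · rw [Finsupp.notMem_support_iff.1 hI]
    exact RVal.Ge.zero

/-! ## The filtration -/

section Filt

/-- The elements `ev (u n) f`, `f` of degree `≤ D p^n` over `P`, with coefficients of value
`≥ -D`. -/
def dgV (v : RVal Ω) [hc : Fact (Ctx0 k v)] (P E : IntermediateField k Ω)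
    (hr : ∀ n l, u (n + 1) l ^ p = u n l) (D : ℝ) : Submodule k E where
  carrier := {e | ∃ n, ∃ f ∈ dg P (Fin m) (D * p ^ n), CGe v (-D) f ∧ (e : Ω) = ev (u n) f}
  add_mem' := by
    rintro x y ⟨n, f, hf, hf', hx⟩ ⟨n', g, hg, hg', hy⟩
    refine ⟨n + n', lf (p ^ n') f + lf (p ^ n) g, add_mem ?_ ?_, (hf'.lfm _).add (hg'.lfm _), ?_⟩
    · have h1 := Key.lf_mem_dg hf (p ^ n')
      rwa [show ((p ^ n' : ℕ) : ℝ) * (D * p ^ n) = D * p ^ (n + n') by push_cast; ring] at h1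
    · have h1 := Key.lf_mem_dg hg (p ^ n)
      rwa [show ((p ^ n : ℕ) : ℝ) * (D * p ^ n') = D * p ^ (n + n') by push_cast; ring] at h1
    · rw [map_add, ev_lift hr, add_comm n n', ev_lift hr, ← hx, ← hy]
      rfl
  zero_mem' := ⟨0, 0, zero_mem _, CGe.zero, by rw [map_zero]; rfl⟩
  smul_mem' := by
    rintro a x ⟨n, f, hf, hf', hx⟩
    refine ⟨n, (⟨algebraMap k Ω a, P.algebraMap_mem a⟩ : P) • f, Submodule.smul_mem _ _ hf,
      fun I => ?_, ?_⟩
    · rw [Finsupp.smul_apply, smul_eq_mul]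
      have h1 := (hc.out.ge a).mul (hf' I)
      rwa [zero_add] at h1
    rw [map_smul, ← hx]
    change a • (x : Ω) = _
    rw [Algebra.smul_def, Algebra.smul_def]
    rfl

variable [hc : Fact (Ctx0 k v)] {hr : ∀ n l, u (n + 1) l ^ p = u n l}

omit hp in
/-- The representation at a fine level. -/
theorem dgV_level {D : ℝ} {e : E} (he : e ∈ dgV v P E hr D) (n : ℕ) :
    ∃ j, ∃ f ∈ dg P (Fin m) (D * p ^ (n + j)), CGe v (-D) f ∧ (e : Ω) = ev (u (n + j)) f := by
  obtain ⟨j, f, hf, hf', h1⟩ := he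
  refine ⟨j, lf (p ^ n) f, ?_, hf'.lfm _, ?_⟩
  · have h2 := Key.lf_mem_dg hf (p ^ n)
    rwa [show ((p ^ n : ℕ) : ℝ) * (D * p ^ j) = D * p ^ (n + j) by push_cast; ring] at h2
  · rw [h1, add_comm n j, ev_lift hr]

omit hp in
theorem dgV_mono {D D' : ℝ} (h : D ≤ D') : dgV v P E hr D ≤ dgV v P E hr D' := by
  rintro e ⟨n, f, hf, hf', h1⟩
  exact ⟨n, f, dg_mono (mul_le_mul_of_nonneg_right h (by positivity)) hf, hf'.mono (by linarith),
    h1⟩

/-- The `p`-th power. -/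
theorem ev_powV [CharP Ω p] (a : Fin m → Ω) {D b : ℝ} {f : (Fin m → ℕ) →₀ P}
    (hf : f ∈ dg P (Fin m) D) (hf' : CGe v b f) :
    ∃ g ∈ dg P (Fin m) (p * D), CGe v (p * b) g ∧ ev a g = ev a f ^ p := by
  refine ⟨∑ I ∈ f.support, Finsupp.single (fun l => p * I l) (f I ^ p), sum_mem fun I hI =>
    single_mem_dg ?_ _, CGe.sum _ fun I _ => CGe.single (Key.ge_pow (hf' I)) _, ?_⟩
  · push_cast
    rw [← Finset.mul_sum]
    exact mul_le_mul_of_nonneg_left (Key.mem_dg.1 hf I hI) (Nat.cast_nonneg _)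
  · rw [map_sum, ev_eq_sum, sum_pow_char]
    refine Finset.sum_congr rfl fun I _ => ?_
    rw [Key.ev_single, mul_pow, map_pow, ← Finset.prod_pow]
    congr 1
    refine Finset.prod_congr rfl fun l _ => ?_
    rw [← pow_mul, mul_comm]

/-- The `p`-th root. -/
theorem ev_rootV [CharP Ω p] (hQ : ∀ x : P, ∃ y : P, y ^ p = x) {a b : Fin m → Ω}
    (hab : ∀ l, b l ^ p = a l) {D c : ℝ} {f : (Fin m → ℕ) →₀ P} (hf : f ∈ dg P (Fin m) D)
    (hf' : CGe v (p * c) f) :
    ∃ g ∈ dg P (Fin m) D, CGe v c g ∧ ev b g ^ p = ev a f := by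
  choose r hr using hQ
  refine ⟨∑ I ∈ f.support, Finsupp.single I (r (f I)), sum_mem fun I hI =>
    single_mem_dg (Key.mem_dg.1 hf I hI) _, CGe.sum _ fun I _ => CGe.single ?_ _, ?_⟩
  · have h1 := hf' I
    rw [← hr (f I)] at h1
    intro h0
    have h2 := h1 (by
      change ((r (f I) : Ω)) ^ p ≠ 0
      exact pow_ne_zero _ h0)
    change (p : ℝ) * c ≤ v ((r (f I) : Ω) ^ p) at h2
    rw [v.map_pow h0] at h2
    exact le_of_mul_le_mul_left h2 (by exact_mod_cast hp.out.pos)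
  rw [map_sum, ev_eq_sum, sum_pow_char]
  refine Finset.sum_congr rfl fun I _ => ?_
  rw [Key.ev_single, mul_pow, ← map_pow, hr, ← Finset.prod_pow]
  congr 1
  refine Finset.prod_congr rfl fun l _ => ?_
  rw [← pow_mul, mul_comm, pow_mul, hab]

/-- **The filtration by the degree and the value of the coefficients.** -/
theorem degF_dgV [CharP Ω p] (hP : ∀ a ∈ P, ∃ b ∈ P, b ^ p = a) (hPE : P ≤ E)
    (hu : ∀ n l, u n l ∈ E) (hd' : DnsS v (AU P u) E) : DegF v E p (dgV v P E hr) := by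
  have hP' : ∀ x : P, ∃ y : P, y ^ p = x := by
    rintro ⟨a, ha⟩
    obtain ⟨b, hb, h1⟩ := hP a ha
    exact ⟨⟨b, hb⟩, Subtype.ext h1⟩
  refine ⟨fun D D' _ h => dgV_mono h, fun e => ?_, fun D hD f hf => ?_, fun D hD f hf => ?_⟩
  · obtain ⟨_, ⟨n, f, rfl⟩, hfE, h1⟩ := hd' e e.2 0
    obtain ⟨D, hD, hf⟩ := exists_dg f
    obtain ⟨D', hD', hf'⟩ := exists_CGe v f
    refine ⟨max D D', lt_max_of_lt_left hD, ⟨_, hfE⟩, ⟨n, f, dg_mono ?_ hf, hf'.mono ?_, rfl⟩, h1⟩
    · refine (le_max_left D D').trans ?_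
      exact le_mul_of_one_le_right (hD.le.trans (le_max_left _ _))
        (one_le_pow₀ (by exact_mod_cast hp.out.one_lt.le))
    · exact neg_le_neg (le_max_right _ _)
  · obtain ⟨n, g, hg, hgv, h1⟩ := hf
    obtain ⟨g', hg', hgv', h2⟩ := ev_powV (u n) hg hgv
    refine ⟨n, g', ?_, ?_, ?_⟩
    · rwa [mul_assoc]
    · rwa [← mul_neg]
    · rw [h2, ← h1]
      rfl
  · obtain ⟨n, g, hg, hgv, h1⟩ := hf
    rw [← mul_neg] at hgv
    obtain ⟨g', hg', hgv', h2⟩ := ev_rootV hP' (hr n) hg hgv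
    refine ⟨⟨ev (u (n + 1)) g', ev_mem hPE (hu _) _⟩, ⟨n + 1, g', ?_, hgv', rfl⟩, Subtype.ext ?_⟩
    · rwa [show D * (p : ℝ) ^ (n + 1) = p * D * p ^ n by rw [pow_succ]; ring]
    · change ev (u (n + 1)) g' ^ p = (f : Ω)
      rw [h2, h1]

end Filt

/-! ## The operators -/

section Op

variable [hc : Fact (Ctx0 k v)]

/-- `∑ Φ_h D^[p^N h]` on the coefficients, `h < p^n`. -/
noncomputable def opc (p n N : ℕ) (Φ : (Fin m → ℕ) → P →+ P) (f : (Fin m → ℕ) →₀ P) :
    (Fin m → ℕ) →₀ P :=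
  ∑ h ∈ Fintype.piFinset fun _ : Fin m => Finset.range (p ^ n),
    hd (fun l => p ^ N * h l) (f.mapRange (Φ h) (map_zero _))

/-- `φ = ∑ Φ_h D^[h / p^n]`, `h < p^n`. -/
def OpC (p : ℕ) (P : IntermediateField k Ω) (u : ℕ → Fin m → Ω) (φ : Opr v E) (n : ℕ)
    (Φ : (Fin m → ℕ) → P →+ P) : Prop :=
  ∀ (N : ℕ) (f : (Fin m → ℕ) →₀ P), fn φ (ev (u (n + N)) f) = ev (u (n + N)) (opc p n N Φ f)

/-- The coefficients of an operator of norm `≤ 0` are of norm `≤ 0`. -/
theorem OpC.norm [CharP Ω p] (hPE : P ≤ E) (hu : ∀ n l, u n l ∈ E) (hv : ∀ n l, v.Ge 0 (u n l))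
    {φ : Opr v E} {n : ℕ} {Φ : (Fin m → ℕ) → P →+ P} (h : OpC p P u φ n Φ) {b : ℝ} {c : P}
    (hb : v.Ge b (c : Ω)) : ∀ (s : ℕ) (I : Fin m → ℕ), ∑ l, I l = s → (∀ l, I l < p ^ n) →
      v.Ge b (Φ I c : Ω) := by
  classical
  intro s
  induction s using Nat.strong_induction_on with
  | _ s ih =>
  intro I hs hI
  have hI' : I ∈ Fintype.piFinset fun _ : Fin m => Finset.range (p ^ n) :=
    Fintype.mem_piFinset.2 fun l => Finset.mem_range.2 (hI l)
  have hprod : ∀ F : Fin m → ℕ, v.Ge 0 (∏ l, u n l ^ F l) := fun F => by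
    have h2 := RVal.Ge.prod (v := v) (fun _ : Fin m => (0 : ℝ)) Finset.univ (fun l => u n l ^ F l)
      fun l _ => by
        have := Key.ge_pow (hv n l) (m := F l)
        rwa [mul_zero] at this
    rwa [Finset.sum_const_zero] at h2
  have h1 := h 0 (Finsupp.single I c)
  rw [add_zero, opc, map_sum, ← Finset.sum_erase_add _ _ hI'] at h1
  simp only [Finsupp.mapRange_single, pow_zero, one_mul, Key.ev_hd_single] at h1
  have h2 : (∏ l, (((I l).choose (I l) : ℕ) : Ω) * u n l ^ (I l - I l)) = 1 := by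
    refine Finset.prod_eq_one fun l _ => ?_
    rw [Nat.choose_self, Nat.sub_self, pow_zero, Nat.cast_one, one_mul]
  rw [h2, mul_one] at h1
  have h3 : (Φ I c : Ω) = fn φ (ev (u n) (Finsupp.single I c)) -
      ∑ x ∈ (Fintype.piFinset fun _ : Fin m => Finset.range (p ^ n)).erase I,
        algebraMap P Ω (Φ x c) * ∏ l, (((I l).choose (x l) : ℕ) : Ω) * u n l ^ (I l - x l) := by
    rw [h1, add_sub_cancel_left]
    rfl
  rw [h3]
  refine RVal.Ge.sub (fn_ge φ (ev_mem hPE (hu n) _) ?_) (RVal.Ge.sum _ _ fun x hx => ?_)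
  · rw [Key.ev_single]
    have h4 := hb.mul (hprod I)
    rwa [add_zero] at h4
  · obtain ⟨hxI, hx⟩ := Finset.mem_erase.1 hx
    have hx' : ∀ l, x l < p ^ n := fun l => Finset.mem_range.1 (Fintype.mem_piFinset.1 hx l)
    by_cases hle : ∀ l, x l ≤ I l
    · have hlt : ∑ l, x l < s := by
        rw [← hs]
        refine Finset.sum_lt_sum (fun l _ => hle l) ?_
        by_contra hcon
        push Not at hcon
        exact hxI (funext fun l => le_antisymm (hle l) (hcon l (Finset.mem_univ l)))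
      have h4 := ih _ hlt x rfl hx'
      have h5 : v.Ge 0 (∏ l, (((I l).choose (x l) : ℕ) : Ω) * u n l ^ (I l - x l)) := by
        have h6 := RVal.Ge.prod (v := v) (fun _ : Fin m => (0 : ℝ)) Finset.univ
          (fun l => (((I l).choose (x l) : ℕ) : Ω) * u n l ^ (I l - x l)) fun l _ => by
            have h7 := (ge_natCast v ((I l).choose (x l))).mul
              (Key.ge_pow (hv n l) (m := I l - x l))
            rwa [mul_zero, add_zero] at h7
        rwa [Finset.sum_const_zero] at h6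
      have h6 := h4.mul h5
      rwa [add_zero] at h6
    · push Not at hle
      obtain ⟨l, hl⟩ := hle
      rw [Finset.prod_eq_zero (Finset.mem_univ l) (by
        rw [Nat.choose_eq_zero_of_lt hl, Nat.cast_zero, zero_mul]), mul_zero]
      exact RVal.Ge.zero

/-- The operators preserve the filtration, and are small on the elements of small degree, if `Φ_0`
has a gain. -/
theorem OpC.deg [CharP Ω p] (hPE : P ≤ E) (hu : ∀ n l, u n l ∈ E) (hv : ∀ n l, v.Ge 0 (u n l))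
    {hr : ∀ n l, u (n + 1) l ^ p = u n l} {φ : Opr v E} {n : ℕ} {Φ : (Fin m → ℕ) → P →+ P}
    (h : OpC p P u φ n Φ) {δ : ℝ} (hδ : 0 < δ)
    (hg : ∀ (b : ℝ) (c : P), v.Ge b (c : Ω) → v.Ge (b + δ) (Φ 0 c : Ω)) :
    (∀ D, 0 < D → ∀ f ∈ dgV v P E hr D, (φ : Module.End k E) f ∈ dgV v P E hr D) ∧
      ∃ δ, 0 < δ ∧ ∀ f ∈ dgV v P E hr δ, v.Ge 0 (((φ : Module.End k E) f : E) : Ω) := by
  classical
  have hp0 : (0 : ℝ) < p := by exact_mod_cast hp.out.pos
  have key : ∀ {f : E} {j : ℕ} {g : (Fin m → ℕ) →₀ P}, (f : Ω) = ev (u (n + j)) g →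
      (((φ : Module.End k E) f : E) : Ω) = ev (u (n + j)) (opc p n j Φ g) := fun {f j g} hf => by
    have h1 := h j g
    rwa [← hf, fn_of_mem φ f.2] at h1
  refine ⟨fun D hD f hf => ?_, min δ (1 / (2 * p ^ n)), lt_min hδ (by positivity),
    fun f hf => ?_⟩
  · obtain ⟨j, g, hg1, hg2, h1⟩ := dgV_level hf n
    refine ⟨n + j, _, sum_mem fun x hx => hd_mem_dg ?_ _, CGe.sum _ fun x hx => CGe.hdm (p := p) ?_ _,
      key h1⟩
    · rw [Key.mem_dg] at hg1 ⊢
      exact fun I hI => hg1 I (Finsupp.support_mapRange hI)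
    · have hx' : ∀ l, x l < p ^ n := fun l => Finset.mem_range.1 (Fintype.mem_piFinset.1 hx l)
      exact hg2.mapRange (Φ x) fun c hc' => h.norm hPE hu hv hc' _ x rfl hx'
  · obtain ⟨j, g, hg1, hg2, h1⟩ := dgV_level hf n
    rw [key h1]
    have h2 : opc p n j Φ g = g.mapRange (Φ 0) (map_zero _) := by
      rw [opc, Finset.sum_eq_single (0 : Fin m → ℕ)]
      · have h3 := Key.hd_zero (g.mapRange (Φ 0) (map_zero _))
        refine Eq.trans ?_ h3
        rfl
      · intro x hx hx0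
        have h3 : g.mapRange (Φ x) (map_zero _) ∈ dg P (Fin m)
            (min δ (1 / (2 * p ^ n)) * p ^ (n + j)) := by
          rw [Key.mem_dg] at hg1 ⊢
          exact fun I hI => hg1 I (Finsupp.support_mapRange hI)
        refine Key.hd_dg_eq_zero h3 ?_
        obtain ⟨l, hl⟩ : ∃ l, x l ≠ 0 := by
          by_contra hcon
          push Not at hcon
          exact hx0 (funext hcon)
        have h4 : ((p ^ j * x l : ℕ) : ℝ) ≤ ∑ l, ((p ^ j * x l : ℕ) : ℝ) :=
          Finset.single_le_sum (f := fun l => ((p ^ j * x l : ℕ) : ℝ))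
            (fun _ _ => Nat.cast_nonneg _) (Finset.mem_univ l)
        refine lt_of_lt_of_le ?_ h4
        have h5 : (1 : ℝ) ≤ x l := by exact_mod_cast Nat.one_le_iff_ne_zero.2 hl
        have h6 : (1 : ℝ) / (2 * p ^ n) * p ^ (n + j) = p ^ j / 2 := by
          rw [pow_add]
          field_simp
        have h7 : min δ (1 / (2 * (p : ℝ) ^ n)) * p ^ (n + j) ≤ p ^ j / 2 := by
          rw [← h6]
          exact mul_le_mul_of_nonneg_right (min_le_right _ _) (by positivity)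
        refine lt_of_le_of_lt h7 ?_
        push_cast
        have h8 : (0 : ℝ) < p ^ j := by positivity
        nlinarith
      · intro h0
        exact absurd (Fintype.mem_piFinset.2 fun l => Finset.mem_range.2
          (pow_pos hp.out.pos n)) h0
    rw [h2]
    refine CGe.ev (hg2.mapRange (c := 0) (Φ 0) fun c hc' => (hg _ c hc').mono ?_) (hv _)
    have := min_le_left δ (1 / (2 * (p : ℝ) ^ n))
    linarith

variable {T : Submodule k (Opr v E)}

/-- **`V'` for a base with slack.** -/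
theorem nsd_y [CharP k p] [CharP Ω p] [PerfectRing k p] (h : Oper p v C E T)
    (hr : ∀ n l, u (n + 1) l ^ p = u n l)
    (hP : ∀ a ∈ P, ∃ b ∈ P, b ^ p = a) (hPE : P ≤ E) (hu : ∀ n l, u n l ∈ E)
    (hv : ∀ n l, v.Ge 0 (u n l)) (hd' : DnsS v (AU P u) E)
    (hT : ∀ φ ∈ T, ∃ n Φ, OpC p P u φ n Φ ∧ ∃ δ : ℝ, 0 < δ ∧
      ∀ (b : ℝ) (c : P), v.Ge b (c : Ω) → v.Ge (b + δ) (Φ 0 c : Ω)) : NSD p h :=
  nsd_of_deg' p h (degF_dgV (hr := hr) hP hPE hu hd') fun φ hφ => by
    obtain ⟨n, Φ, h1, δ, hδ, h2⟩ := hT φ hφ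
    exact h1.deg hPE hu hv hδ h2

end Op

end Pool.Agent.TWC
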