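import Pool.Agent.Lib.TWC.OpGenW

/-!
# TANK W, class C: the operators of `P[w^(1/p^∞)]` form a base

* `CLin φ`: the field of the elements `c` of `E` with `φ (c x) = c φ x`; it is closed;
* `IsD.mul_mem`, `IsD.tw`: composition of two operators of positive order, and the Frobenius;
* `op_oper`: `Oper p v C E (opT p v P E u)` for `P ≤ C ≤ E` closed, in the closure of `P(w)`.
-/

set_option autoImplicit false

open Polynomial

namespace Pool.Agent.TWC

open Pool.Agent.H15JM (RVal)
open Pool.Agent.LU1 (VPos adj)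
open Pool.Agent.D2 (Ctx0)
open Pool.Agent.D2P (clI mem_clI)
open Pool.Agent.TWM
open Pool.Agent.TWC.Key (hd ev sp lf)

universe u

variable {k Ω : Type u} [Field k] [Field Ω] [Algebra k Ω] {v : RVal Ω}
  {B C D E P : IntermediateField k Ω} {m : ℕ} {u : ℕ → Fin m → Ω} {p : ℕ}

/-! ## Carries -/

/-- A carry: `p ∣ C(a + b, a)`. -/
theorem choose_carry (p : ℕ) [Fact p.Prime] {N a b : ℕ} (ha : a < p ^ N) (hb : b < p ^ N)
    (h : p ^ N ≤ a + b) : (a + b).choose a ≡ 0 [ZMOD p] := by
  obtain ⟨r, hr⟩ := Nat.exists_eq_add_of_le h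
  have h1 := Key.choose_add_lt p N 1 r a (by omega) ha
  rw [mul_one, ← hr, Nat.choose_eq_zero_of_lt (by omega : r < a)] at h1
  simpa using h1

/-- Translation by `p^n`. -/
theorem choose_shift (p : ℕ) [hp : Fact p.Prime] {N F : ℕ} (I : ℕ) (hF : F < p ^ N) :
    (p ^ N + I).choose F ≡ I.choose F [ZMOD p] := by
  have h0 : 0 < p ^ N := pow_pos hp.out.pos N
  have h1 := Key.choose_add_lt p N (I / p ^ N) (I % p ^ N) F (Nat.mod_lt _ h0) hF
  have h2 := Key.choose_add_lt p N (1 + I / p ^ N) (I % p ^ N) F (Nat.mod_lt _ h0) hF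
  rw [Nat.div_add_mod] at h1
  rw [mul_add, mul_one, add_assoc, Nat.div_add_mod] at h2
  exact h2.trans h1.symm

/-! ## The field of the constants of an operator -/

section CLin

variable [hcx : Fact (Ctx0 k v)]

/-- The elements `c` of `E` with `φ (c x) = c φ x`. -/
def CLin (φ : Opr v E) : IntermediateField k Ω where
  carrier := {c | c ∈ E ∧ ∀ x ∈ E, fn φ (c * x) = c * fn φ x}
  mul_mem' := by
    rintro a b ⟨ha, ha'⟩ ⟨hb, hb'⟩
    refine ⟨mul_mem ha hb, fun x hx => ?_⟩
    rw [mul_assoc, ha' _ (mul_mem hb hx), hb' x hx, mul_assoc]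
  one_mem' := ⟨one_mem E, fun x _ => by rw [one_mul, one_mul]⟩
  add_mem' := by
    rintro a b ⟨ha, ha'⟩ ⟨hb, hb'⟩
    refine ⟨add_mem ha hb, fun x hx => ?_⟩
    rw [add_mul, fn_add φ (mul_mem ha hx) (mul_mem hb hx), ha' x hx, hb' x hx, add_mul]
  zero_mem' := ⟨zero_mem E, fun x _ => by rw [zero_mul, zero_mul, fn_zero]⟩
  algebraMap_mem' := by
    intro c
    refine ⟨E.algebraMap_mem c, fun x hx => ?_⟩
    rw [← Algebra.smul_def, ← Algebra.smul_def, fn_smul φ c hx]
  inv_mem' := by
    rintro a ⟨ha, ha'⟩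
    refine ⟨inv_mem ha, fun x hx => ?_⟩
    by_cases h0 : a = 0
    · rw [h0, inv_zero, zero_mul, zero_mul, fn_zero]
    · have h1 := ha' _ (mul_mem (inv_mem ha) hx)
      rw [mul_inv_cancel_left₀ h0] at h1
      rw [h1, inv_mul_cancel_left₀ h0]

theorem mem_CLin {φ : Opr v E} {c : Ω} :
    c ∈ CLin φ ↔ c ∈ E ∧ ∀ x ∈ E, fn φ (c * x) = c * fn φ x := Iff.rfl

theorem cld_CLin (hE : Cld v E) (φ : Opr v E) : Cld v (CLin φ) := by
  intro c hc
  have hcE : c ∈ E := hE (mem_clI.2 fun b => by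
    obtain ⟨y, hy, h1⟩ := mem_clI.1 hc b
    exact ⟨y, (mem_CLin.1 hy).1, h1⟩)
  refine mem_CLin.2 ⟨hcE, fun x hx => eq_of_ge (v := v) fun b => ?_⟩
  obtain ⟨B₁, hB₁⟩ := exists_mul_ge v x b
  obtain ⟨B₂, hB₂⟩ := exists_mul_ge v (fn φ x) b
  obtain ⟨y, hy, h1⟩ := mem_clI.1 hc (max B₁ B₂)
  obtain ⟨hyE, hy'⟩ := mem_CLin.1 hy
  have e : fn φ (c * x) - c * fn φ x =
      (fn φ (c * x) - fn φ (y * x)) - fn φ x * (c - y) := by
    rw [hy' x hx]; ring
  rw [e]
  refine RVal.Ge.sub (fn_near φ (mul_mem hcE hx) (mul_mem hyE hx) ?_)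
    (hB₂ _ (h1.mono (le_max_right _ _)))
  have e2 : c * x - y * x = x * (c - y) := by ring
  rw [e2]
  exact hB₁ _ (h1.mono (le_max_left _ _))

end CLin

section Op

variable [hp : Fact p.Prime] [CharP Ω p] [hcx : Fact (Ctx0 k v)]

/-! ## Linearity -/

/-- Multiplication by `u 0 l`. -/
theorem IsD.lin_w (hr : ∀ n l, u (n + 1) l ^ p = u n l) (hu : ∀ n l, u n l ∈ E)
    (hdE : DnsS v (AU B u) E) {n : ℕ} {F : Fin m → ℕ} (hF : ∀ l, F l < p ^ n) {φ : Opr v E}
    (h : IsD p B u φ n F) (i : Fin m) : u 0 i ∈ CLin φ := by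
  classical
  have _ := charP_sub (Ω := Ω) p B
  refine mem_CLin.2 ⟨hu 0 i, ?_⟩
  have hroot : ∀ N, u N i ^ p ^ N = u 0 i := by
    intro N
    induction N with
    | zero => simp
    | succ N ih => rw [pow_succ', pow_mul, hr, ih]
  -- the shift of the exponents
  have key : ∀ (N : ℕ) (f : (Fin m → ℕ) →₀ B), ∃ g : (Fin m → ℕ) →₀ B,
      ev (u (n + N)) g = u 0 i * ev (u (n + N)) f ∧
      ev (u (n + N)) (hd (fun l => p ^ N * F l) g) =
        u 0 i * ev (u (n + N)) (hd (fun l => p ^ N * F l) f) := by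
    intro N f
    induction f using Finsupp.induction_linear with
    | zero => exact ⟨0, by simp, by simp⟩
    | add f g hf hg =>
      obtain ⟨f', hf1, hf2⟩ := hf
      obtain ⟨g', hg1, hg2⟩ := hg
      refine ⟨f' + g', ?_, ?_⟩
      · rw [map_add, hf1, hg1, map_add, mul_add]
      · rw [map_add, map_add, hf2, hg2, map_add, map_add, mul_add]
    | single I c =>
      refine ⟨Finsupp.single (fun l => if l = i then p ^ (n + N) + I l else I l) c, ?_, ?_⟩
      · rw [Key.ev_single, Key.ev_single, ← Finset.mul_prod_erase Finset.univ _ (Finset.mem_univ i),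
          ← Finset.mul_prod_erase Finset.univ (fun l => u (n + N) l ^ I l) (Finset.mem_univ i),
          if_pos rfl, pow_add, hroot]
        have h1 : ∏ x ∈ Finset.univ.erase i,
            u (n + N) x ^ (if x = i then p ^ (n + N) + I x else I x) =
            ∏ x ∈ Finset.univ.erase i, u (n + N) x ^ I x :=
          Finset.prod_congr rfl fun l hl => by rw [if_neg (Finset.ne_of_mem_erase hl)]
        rw [h1]
        ring
      · rw [Key.hd_single, Key.hd_single]
        by_cases hz : ∀ l, p ^ N * F l ≤ I l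
        · rw [Key.ev_single, Key.ev_single, map_mul, map_mul, map_prod, map_prod,
            ← Finset.mul_prod_erase Finset.univ
              (fun l => u (n + N) l ^ ((if l = i then p ^ (n + N) + I l else I l) - p ^ N * F l))
              (Finset.mem_univ i),
            ← Finset.mul_prod_erase Finset.univ (fun l => u (n + N) l ^ (I l - p ^ N * F l))
              (Finset.mem_univ i)]
          simp only [if_pos]
          have h1 : ∏ x ∈ Finset.univ.erase i,
              u (n + N) x ^ ((if x = i then p ^ (n + N) + I x else I x) - p ^ N * F x) =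
              ∏ x ∈ Finset.univ.erase i, u (n + N) x ^ (I x - p ^ N * F x) :=
            Finset.prod_congr rfl fun l hl => by rw [if_neg (Finset.ne_of_mem_erase hl)]
          have h2 : ∀ l, (((if l = i then p ^ (n + N) + I l else I l).choose (p ^ N * F l) : ℕ) : B)
              = ((I l).choose (p ^ N * F l) : ℕ) := by
            intro l
            split_ifs
            · refine Key.cast_of_modEq (choose_shift p (I l) ?_)
              exact lt_level hF l
            · rfl
          have h3 : u (n + N) i ^ (p ^ (n + N) + I i - p ^ N * F i) =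
              u 0 i * u (n + N) i ^ (I i - p ^ N * F i) := by
            rw [Nat.add_sub_assoc (hz i), pow_add (u (n + N) i), hroot]
          rw [h1, h3]
          simp only [h2]
          ring
        · push Not at hz
          obtain ⟨l, hl⟩ := hz
          have h2 : ∀ l, (((if l = i then p ^ (n + N) + I l else I l).choose (p ^ N * F l) : ℕ) : B)
              = ((I l).choose (p ^ N * F l) : ℕ) := by
            intro l
            split_ifs
            · refine Key.cast_of_modEq (choose_shift p (I l) ?_)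
              exact lt_level hF l
            · rfl
          have h3 : (∏ l, (((I l).choose (p ^ N * F l) : ℕ) : B)) = 0 :=
            Finset.prod_eq_zero (Finset.mem_univ l) (by
              rw [Nat.choose_eq_zero_of_lt hl, Nat.cast_zero])
          simp only [h2, h3, mul_zero, Finsupp.single_zero, map_zero]
  intro x hx
  refine eq_of_ge (v := v) fun b => ?_
  obtain ⟨B₁, hB₁⟩ := exists_mul_ge v (u 0 i) b
  obtain ⟨_, ⟨N, f, rfl⟩, hfE, h1⟩ := hdE x hx B₁
  have e1 : ev (u N) f = ev (u (n + N)) (lf (p ^ n) f) := by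
    rw [add_comm n N, ev_lift hr]
  obtain ⟨g, hg1, hg2⟩ := key N (lf (p ^ n) f)
  have h2 : fn φ (u 0 i * ev (u N) f) = u 0 i * fn φ (ev (u N) f) := by
    rw [e1, ← hg1, h N, hg2, h N]
  have e : fn φ (u 0 i * x) - u 0 i * fn φ x =
      (fn φ (u 0 i * x) - fn φ (u 0 i * ev (u N) f)) - u 0 i * (fn φ x - fn φ (ev (u N) f)) := by
    rw [h2]; ring
  rw [e]
  refine RVal.Ge.sub (fn_near φ (mul_mem (hu 0 i) hx) (mul_mem (hu 0 i) hfE) ?_)
    (hB₁ _ (fn_near φ hx hfE h1))
  rw [← mul_sub]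
  exact hB₁ _ h1

/-- The operators are linear over the closed field generated by `B` and the `u 0 l`. -/
theorem IsD.le_CLin (hr : ∀ n l, u (n + 1) l ^ p = u n l) (hE : Cld v E) (hBE : B ≤ E)
    (hu : ∀ n l, u n l ∈ E) (hdE : DnsS v (AU B u) E)
    (hC : ∀ D : IntermediateField k Ω, Cld v D → B ≤ D → (∀ l, u 0 l ∈ D) → C ≤ D) {n : ℕ}
    {F : Fin m → ℕ} (hF : ∀ l, F l < p ^ n) {φ : Opr v E} (h : IsD p B u φ n F) : C ≤ CLin φ :=
  hC _ (cld_CLin hE φ) (fun c hc => mem_CLin.2 ⟨hBE hc, h.lin hr hBE hdE c hc⟩)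
    (h.lin_w hr hu hdE hF)

/-! ## Composition -/

theorem IsD.mul_mem (hc : CompleteV v) (hr : ∀ n l, u (n + 1) l ^ p = u n l) (hn : NBd p v B u)
    (hE : Cld v E) (hBE : B ≤ E) (hu : ∀ n l, u n l ∈ E) (hdE : DnsS v (AU B u) E) {n n' : ℕ}
    {F G : Fin m → ℕ} (hF0 : ∃ l, F l ≠ 0) (hF : ∀ l, F l < p ^ n) (hG : ∀ l, G l < p ^ n')
    {φ ψ : Opr v E} (h : IsD p B u φ n F) (h' : IsD p B u ψ n' G) :
    φ * ψ ∈ opT p v B E u := by
  have _ := charP_sub (Ω := Ω) p B
  -- the common level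
  have h1 : IsD p B u φ (n + n') (fun l => p ^ n' * F l) := h.finer n'
  have h2 : IsD p B u ψ (n + n') (fun l => p ^ n * G l) := by
    rw [add_comm n n']
    exact h'.finer n
  have hF1 : ∀ l, p ^ n' * F l < p ^ (n + n') := fun l => lt_level hF l
  have hG1 : ∀ l, p ^ n * G l < p ^ (n + n') := fun l => by
    rw [add_comm n n']
    exact lt_level hG l
  have hF0' : ∃ l, p ^ n' * F l ≠ 0 := by
    obtain ⟨l, hl⟩ := hF0
    exact ⟨l, mul_ne_zero (pow_ne_zero _ hp.out.ne_zero) hl⟩
  generalize n + n' = M at h1 h2 hF1 hG1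
  have e1 : IsD p B u φ M (fun l => (fun l => p ^ n' * F l) l) := h1
  clear h1
  generalize hF' : (fun l => p ^ n' * F l) = F' at e1
  generalize hG' : (fun l => p ^ n * G l) = G' at h2
  have f1 : ∀ l, p ^ n' * F l = F' l := fun l => congrFun hF' l
  have g1 : ∀ l, p ^ n * G l = G' l := fun l => congrFun hG' l
  simp only [f1, g1] at hF1 hG1 hF0'
  change IsD p B u φ M F' at e1
  -- the composition on the dense subset
  have key : ∀ (N : ℕ) (f : (Fin m → ℕ) →₀ B), fn (φ * ψ) (ev (u (M + N)) f) =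
      ev (u (M + N)) ((∏ l, (((G' l + F' l).choose (G' l) : ℕ) : B)) •
        hd (fun l => p ^ N * (G' l + F' l)) f) := by
    intro N f
    rw [fn_opMul _ _ (ev_mem hBE (hu _) f), h2 N, e1 N, Key.hd_hd]
    congr 2
    · refine Finset.prod_congr rfl fun l _ => ?_
      refine Key.cast_of_modEq ?_
      have := Key.choose_pow_mul p N (G' l + F' l) 0 (G' l) (pow_pos hp.out.pos N)
      rw [add_zero] at this
      rwa [← mul_add]
    · congr 2
      funext l
      exact (mul_add _ _ _).symm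
  by_cases hlt : ∀ l, G' l + F' l < p ^ M
  · -- no carry at the top
    obtain ⟨χ, hχ⟩ := exists_D hc hr hn hE hBE hu hdE M (fun l => G' l + F' l) hlt
    have h3 : φ * ψ = (∏ l, (((G' l + F' l).choose (G' l) : ℕ) : k)) • χ := by
      refine Opr.ext_dense hdE ?_
      rintro _ ⟨N, f, rfl⟩ -
      have e2 : ev (u N) f = ev (u (M + N)) (lf (p ^ M) f) := by
        rw [add_comm M N, ev_lift hr]
      rw [e2, key N, fn_opSmul, hχ N, map_smul]
      rw [Algebra.smul_def, Algebra.smul_def, map_prod, map_prod]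
      simp only [map_natCast]
    rw [h3]
    refine Submodule.smul_mem _ _ (Submodule.subset_span ⟨M, _, ?_, hlt, hχ⟩)
    obtain ⟨l, hl⟩ := hF0'
    exact ⟨l, by omega⟩
  · -- a carry
    push Not at hlt
    obtain ⟨l, hl⟩ := hlt
    have h3 : φ * ψ = 0 := by
      refine Opr.ext_dense hdE ?_
      rintro _ ⟨N, f, rfl⟩ -
      have e2 : ev (u N) f = ev (u (M + N)) (lf (p ^ M) f) := by
        rw [add_comm M N, ev_lift hr]
      have h4 : (∏ l, (((G' l + F' l).choose (G' l) : ℕ) : B)) = 0 := by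
        refine Finset.prod_eq_zero (Finset.mem_univ l) ?_
        have h5 := Key.cast_of_modEq (P := B) (p := p) (a := (G' l + F' l).choose (G' l)) (b := 0)
          (by simpa using choose_carry p (hG1 l) (hF1 l) hl)
        rw [h5, Nat.cast_zero]
      rw [e2, key N, h4, zero_smul, map_zero, fn_opZero]
    rw [h3]
    exact zero_mem _

/-! ## Frobenius -/

/-- The `p`-th powers of the coefficients. -/
noncomputable def pf (p : ℕ) [Fact p.Prime] {B : IntermediateField k Ω} [CharP B p]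
    (f : (Fin m → ℕ) →₀ B) : (Fin m → ℕ) →₀ B :=
  f.mapRange (frobenius B p) (map_zero _)

omit [CharP Ω p] hcx in
theorem pf_add [CharP B p] (f g : (Fin m → ℕ) →₀ B) : pf p (f + g) = pf p f + pf p g := by
  rw [pf, Finsupp.mapRange_add (map_add _)]
  rfl

omit [CharP Ω p] hcx in
theorem pf_single [CharP B p] (I : Fin m → ℕ) (c : B) :
    pf p (Finsupp.single I c) = Finsupp.single I (c ^ p) := by
  rw [pf, Finsupp.mapRange_single, frobenius_def]

omit hcx in
theorem ev_pf [CharP B p] (a : Fin m → Ω) (f : (Fin m → ℕ) →₀ B) :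
    ev a (lf p (pf p f)) = ev a f ^ p := by
  induction f using Finsupp.induction_linear with
  | zero =>
    rw [show pf p (0 : (Fin m → ℕ) →₀ B) = 0 from Finsupp.mapRange_zero, map_zero, map_zero,
      zero_pow hp.out.ne_zero]
  | add f g hf hg => rw [pf_add, map_add, map_add, hf, hg, map_add, add_pow_char]
  | single I c =>
    rw [pf_single, Key.lf_single, Key.ev_single, Key.ev_single, mul_pow, map_pow,
      ← Finset.prod_pow]
    congr 1
    refine Finset.prod_congr rfl fun l _ => ?_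
    rw [← pow_mul, mul_comm]

omit [CharP Ω p] hcx in
theorem hd_pf [CharP B p] (F : Fin m → ℕ) (f : (Fin m → ℕ) →₀ B) :
    hd F (pf p f) = pf p (hd F f) := by
  induction f using Finsupp.induction_linear with
  | zero =>
    rw [show pf p (0 : (Fin m → ℕ) →₀ B) = 0 from Finsupp.mapRange_zero, map_zero]
    exact Finsupp.mapRange_zero.symm
  | add f g hf hg => rw [pf_add, map_add, map_add, hf, hg, pf_add]
  | single I c =>
    rw [pf_single, Key.hd_single, Key.hd_single, pf_single]
    congr 1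
    rw [mul_pow, ← Finset.prod_pow]
    congr 1
    refine Finset.prod_congr rfl fun l _ => ?_
    rw [← frobenius_def, map_natCast]

/-- `φ Fr = Fr φ'`. -/
theorem IsD.tw (hr : ∀ n l, u (n + 1) l ^ p = u n l) (hdE : DnsS v (AU B u) E) {n : ℕ}
    {F : Fin m → ℕ} {φ φ' : Opr v E} (h : IsD p B u φ n F) (h' : IsD p B u φ' (n + 1) F) :
    ∀ x : E, (φ : Module.End k E) (x ^ p) = ((φ' : Module.End k E) x) ^ p := by
  have _ := charP_sub (Ω := Ω) p B
  refine pow_of_dense p hdE ?_
  rintro _ ⟨N, f, rfl⟩ -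
  have e1 : ev (u N) f = ev (u (n + 1 + N)) (lf (p ^ (n + 1)) f) := by
    rw [add_comm (n + 1) N, ev_lift hr]
  rw [e1]
  generalize lf (p ^ (n + 1)) f = g
  rw [h' N, ← ev_pf, ← ev_pf, add_assoc n 1 N, h (1 + N)]
  have e2 : (fun l => p ^ (1 + N) * F l) = fun l => p ^ 1 * (p ^ N * F l) := by
    funext l
    rw [pow_add, mul_assoc]
  have e3 := Key.hd_lf p 1 (fun l => p ^ N * F l) (pf p g)
  rw [pow_one] at e3
  rw [e2, pow_one, e3, hd_pf]

/-! ## The base -/

omit hp [CharP Ω p] in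
theorem IsD.apply_one {n : ℕ} {F : Fin m → ℕ} (hF : ∃ l, F l ≠ 0) {φ : Opr v E}
    (h : IsD p B u φ n F) : fn φ 1 = 0 := by
  have h1 := h 0 (Finsupp.single (fun _ => 0) 1)
  rw [Key.ev_single, map_one, one_mul] at h1
  simp only [pow_zero, Finset.prod_const_one] at h1
  rw [h1, Key.hd_single]
  obtain ⟨l, hl⟩ := hF
  rw [Finset.prod_eq_zero (Finset.mem_univ l), mul_zero, Finsupp.single_zero, map_zero]
  rw [one_mul, Nat.choose_eq_zero_of_lt (Nat.pos_of_ne_zero hl), Nat.cast_zero]

/-- **The operators of `P[w^(1/p^∞)]` form a base.** -/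
theorem op_oper [CharP k p] [PerfectRing k p] (hc : CompleteV v)
    (hr : ∀ n l, u (n + 1) l ^ p = u n l) (hn : NBd p v P u) (hE : Cld v E)
    (hEp : ∀ a ∈ E, ∃ b ∈ E, b ^ p = a) (hPE : P ≤ E) (hu : ∀ n l, u n l ∈ E)
    (hdE : DnsS v (AU P u) E) (hCc : Cld v C) (hCE : C ≤ E)
    (hC : ∀ D : IntermediateField k Ω, Cld v D → P ≤ D → (∀ l, u 0 l ∈ D) → C ≤ D) :
    Oper p v C E (opT p v P E u) where
  le := hCE
  cldC := hCc
  cld := hE
  perf := hEp
  mul := by
    intro φ hφ ψ hψ
    induction hφ using Submodule.span_induction with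
    | mem φ hφ =>
      obtain ⟨n, F, hF0, hF, h⟩ := hφ
      induction hψ using Submodule.span_induction with
      | mem ψ hψ =>
        obtain ⟨n', G, -, hG, h'⟩ := hψ
        exact h.mul_mem hc hr hn hE hPE hu hdE hF0 hF hG h'
      | zero => rw [mul_zero]; exact zero_mem _
      | add ψ ψ' _ _ h1 h2 => rw [mul_add]; exact add_mem h1 h2
      | smul a ψ _ h1 => rw [mul_smul_comm]; exact Submodule.smul_mem _ _ h1
    | zero => rw [zero_mul]; exact zero_mem _
    | add φ φ' _ _ h1 h2 => rw [add_mul]; exact add_mem h1 h2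
    | smul a φ _ h1 => rw [smul_mul_assoc]; exact Submodule.smul_mem _ _ h1
  tw := by
    intro φ hφ
    induction hφ using Submodule.span_induction with
    | mem φ hφ =>
      obtain ⟨n, F, hF0, hF, h⟩ := hφ
      have hF' : ∀ l, F l < p ^ (n + 1) := fun l =>
        (hF l).trans_le (Nat.pow_le_pow_right hp.out.pos (Nat.le_succ n))
      obtain ⟨φ', h'⟩ := exists_D hc hr hn hE hPE hu hdE (n + 1) F hF'
      exact ⟨φ', Submodule.subset_span ⟨n + 1, F, hF0, hF', h'⟩, h.tw hr hdE h'⟩
    | zero =>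
      refine ⟨0, zero_mem _, fun x => ?_⟩
      change (0 : E) = (0 : E) ^ p
      rw [zero_pow hp.out.ne_zero]
    | add φ ψ _ _ h1 h2 =>
      obtain ⟨φ', hφ', h1⟩ := h1
      obtain ⟨ψ', hψ', h2⟩ := h2
      have _ := charP_sub (Ω := Ω) p E
      refine ⟨φ' + ψ', add_mem hφ' hψ', fun x => ?_⟩
      change (φ : Module.End k E) (x ^ p) + (ψ : Module.End k E) (x ^ p) =
        ((φ' : Module.End k E) x + (ψ' : Module.End k E) x) ^ p
      rw [h1, h2, add_pow_char]
    | smul a φ _ h1 =>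
      obtain ⟨φ', hφ', h1⟩ := h1
      obtain ⟨b, hb⟩ := (PerfectRing.bijective_frobenius (R := k) (p := p)).2 a
      refine ⟨b • φ', Submodule.smul_mem _ _ hφ', fun x => ?_⟩
      change a • (φ : Module.End k E) (x ^ p) = (b • (φ' : Module.End k E) x) ^ p
      rw [h1, _root_.smul_pow, ← hb]
  lin := by
    intro φ hφ c hcC x
    have h0 : (c : Ω) ∈ CLin φ := by
      induction hφ using Submodule.span_induction with
      | mem φ hφ =>
        obtain ⟨n, F, -, hF, h⟩ := hφ
        exact h.le_CLin hr hE hPE hu hdE hC hF hcC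
      | zero =>
        exact mem_CLin.2 ⟨c.2, fun x _ => by rw [fn_opZero, fn_opZero, mul_zero]⟩
      | add φ ψ _ _ h1 h2 =>
        refine mem_CLin.2 ⟨c.2, fun x hx => ?_⟩
        rw [fn_opAdd, fn_opAdd, (mem_CLin.1 h1).2 x hx, (mem_CLin.1 h2).2 x hx, mul_add]
      | smul a φ _ h1 =>
        refine mem_CLin.2 ⟨c.2, fun x hx => ?_⟩
        rw [fn_opSmul, fn_opSmul, (mem_CLin.1 h1).2 x hx, mul_smul_comm]
    have h1 := (mem_CLin.1 h0).2 x x.2
    rw [fn_of_mem φ (mul_mem c.2 x.2), fn_of_mem φ x.2] at h1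
    exact Subtype.ext h1
  one := by
    intro φ hφ
    have h0 : fn φ 1 = 0 := by
      induction hφ using Submodule.span_induction with
      | mem φ hφ =>
        obtain ⟨n, F, hF0, -, h⟩ := hφ
        exact h.apply_one hF0
      | zero => exact fn_opZero 1
      | add φ ψ _ _ h1 h2 => rw [fn_opAdd, h1, h2, add_zero]
      | smul a φ _ h1 => rw [fn_opSmul, h1, smul_zero]
    rw [fn_of_mem φ (one_mem E)] at h0
    exact Subtype.ext h0

end Op

end Pool.Agent.TWC
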