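import Pool.Agent.Lib.TWC.PFdefs

/-!
# TANK W, class C: the pair of a field of rational radius (row PF), the spans

* `SW_mono`, `SA_mono`, `SW_le_SA`: inclusions;
* `SW_pow`, `SA_pow`, `SW_root`, `SA_root`: powers and roots;
* `Lm.of_mem`, .., `Lm.trans`, `Lm.span`, `Lm.pow`, `Lm.root`: the limits of a span up to `0`.
-/

set_option autoImplicit false
set_option linter.unusedSectionVars false

open Polynomial

namespace Pool.Agent.TWC.PF

open Pool.Agent.H15JM (RVal)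
open Pool.Agent.D2 (Ctx0)
open Pool.Agent.D2P (clI mem_clI)
open Pool.Agent.TWM

universe u

variable {k Ω : Type u} [Field k] [Field Ω] [Algebra k Ω] {v : RVal Ω}
  {p : ℕ} [hp : Fact p.Prime] [CharP k p] [CharP Ω p] [PerfectRing k p] [IsAlgClosed Ω]
  {C : IntermediateField k Ω} {X T : ℕ → Ω} {y z t f s : Ω} {b j n m : ℕ} {S S' : Submodule k Ω}

/-! ### The spans -/

omit hp [CharP k p] [CharP Ω p] [PerfectRing k p] [IsAlgClosed Ω] in
theorem mem_SW {n i : ℕ} (hn : j ≤ n) (hi : i ≤ b) : X n ^ i ∈ SW k X b j :=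
  Submodule.subset_span ⟨n, i, hn, hi, rfl⟩

omit hp [CharP k p] [CharP Ω p] [PerfectRing k p] [IsAlgClosed Ω] in
theorem mem_SA (n l : ℕ) {i : ℕ} (hi : i ≤ b) : X n ^ (i * p ^ l) ∈ SA k p X b :=
  Submodule.subset_span ⟨n, l, i, hi, rfl⟩

omit hp [CharP k p] [CharP Ω p] [PerfectRing k p] [IsAlgClosed Ω] in
theorem SW_mono {b' j' : ℕ} (hb : b ≤ b') (hj : j' ≤ j) : SW k X b j ≤ SW k X b' j' := by
  refine Submodule.span_mono ?_
  rintro _ ⟨n, i, hn, hi, rfl⟩
  exact ⟨n, i, hj.trans hn, hi.trans hb, rfl⟩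

omit hp [CharP k p] [CharP Ω p] [PerfectRing k p] [IsAlgClosed Ω] in
theorem SA_mono {b' : ℕ} (hb : b ≤ b') : SA k p X b ≤ SA k p X b' := by
  refine Submodule.span_mono ?_
  rintro _ ⟨n, l, i, hi, rfl⟩
  exact ⟨n, l, i, hi.trans hb, rfl⟩

omit hp [CharP k p] [CharP Ω p] [PerfectRing k p] [IsAlgClosed Ω] in
theorem SW_le_SA : SW k X b j ≤ SA k p X b := by
  refine Submodule.span_mono ?_
  rintro _ ⟨n, i, -, hi, rfl⟩
  exact ⟨n, 0, i, hi, by rw [pow_zero, mul_one]⟩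

omit [IsAlgClosed Ω] [CharP k p] [PerfectRing k p] in
/-- `p`-th powers of the elements of a span. -/
theorem span_pow {M : Set Ω} (hM : ∀ m ∈ M, m ^ p ∈ S') (h : s ∈ Submodule.span k M) :
    s ^ p ∈ S' := by
  induction h using Submodule.span_induction with
  | mem x hx => exact hM x hx
  | zero =>
    rw [zero_pow hp.out.ne_zero]
    exact zero_mem _
  | add x y _ _ hx hy =>
    rw [add_pow_char]
    exact add_mem hx hy
  | smul a x _ hx =>
    rw [_root_.smul_pow]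
    exact Submodule.smul_mem _ _ hx

omit [IsAlgClosed Ω] in
/-- `p`-th roots of the elements of a span. -/
theorem span_root {M : Set Ω} (hM : ∀ m ∈ M, ∃ r ∈ S', r ^ p = m) (h : s ∈ Submodule.span k M) :
    ∃ r ∈ S', r ^ p = s := by
  induction h using Submodule.span_induction with
  | mem x hx => exact hM x hx
  | zero => exact ⟨0, zero_mem _, zero_pow hp.out.ne_zero⟩
  | add x y _ _ hx hy =>
    obtain ⟨r, hr, h1⟩ := hx
    obtain ⟨r', hr', h2⟩ := hy
    exact ⟨r + r', add_mem hr hr', by rw [add_pow_char, h1, h2]⟩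
  | smul a x _ hx =>
    obtain ⟨r, hr, h1⟩ := hx
    obtain ⟨c, hc⟩ : ∃ c : k, c ^ p = a := (frobeniusEquiv k p).surjective a
    exact ⟨c • r, Submodule.smul_mem _ _ hr, by rw [_root_.smul_pow, h1, hc]⟩

omit [IsAlgClosed Ω] [CharP k p] [PerfectRing k p] in
/-- `p`-th powers -/
theorem SW_pow (hr : ∀ n, X (n + 1) ^ p = X n) (h : s ∈ SW k X b (j + 1)) :
    s ^ p ∈ SW k X b j := by
  refine span_pow ?_ h
  rintro _ ⟨n, i, hn, hi, rfl⟩
  obtain ⟨m, rfl⟩ : ∃ m, n = m + 1 := ⟨n - 1, by omega⟩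
  rw [← pow_mul, mul_comm, pow_mul, hr]
  exact mem_SW (by omega) hi

omit [IsAlgClosed Ω] [CharP k p] [PerfectRing k p] in
theorem SA_pow (h : s ∈ SA k p X b) : s ^ p ∈ SA k p X b := by
  refine span_pow ?_ h
  rintro _ ⟨n, l, i, hi, rfl⟩
  rw [← pow_mul, mul_assoc, ← pow_succ]
  exact mem_SA n (l + 1) hi

omit [IsAlgClosed Ω] in
/-- `p`-th roots -/
theorem SW_root (hr : ∀ n, X (n + 1) ^ p = X n) (h : s ∈ SW k X b j) :
    ∃ r ∈ SW k X b (j + 1), r ^ p = s := by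
  refine span_root ?_ h
  rintro _ ⟨n, i, hn, hi, rfl⟩
  refine ⟨X (n + 1) ^ i, mem_SW (by omega) hi, ?_⟩
  rw [← pow_mul, mul_comm, pow_mul, hr]

omit [IsAlgClosed Ω] in
theorem SA_root (hr : ∀ n, X (n + 1) ^ p = X n) (h : s ∈ SA k p X b) :
    ∃ r ∈ SA k p X b, r ^ p = s := by
  refine span_root ?_ h
  rintro _ ⟨n, l, i, hi, rfl⟩
  refine ⟨X (n + 1) ^ (i * p ^ l), mem_SA (n + 1) l hi, ?_⟩
  rw [← pow_mul, mul_comm, pow_mul, hr]

/-! ### The limits -/

section Lm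

omit hp [CharP k p] [CharP Ω p] [PerfectRing k p] [IsAlgClosed Ω]

theorem Lm.of_mem (h : f ∈ S) : Lm v S f := fun _ _ =>
  ⟨f, h, by rw [sub_self]; exact RVal.Ge.zero⟩

theorem Lm.of_ge (h : v.Ge 0 f) : Lm v S f := fun ε hε =>
  ⟨0, zero_mem _, by rw [sub_zero]; exact h.mono (by linarith)⟩

theorem Lm.mono (h : Lm v S f) (hS : S ≤ S') : Lm v S' f := fun ε hε => by
  obtain ⟨s, hs, h1⟩ := h ε hε
  exact ⟨s, hS hs, h1⟩

theorem Lm.add {g : Ω} (h : Lm v S f) (h' : Lm v S g) : Lm v S (f + g) := fun ε hε => by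
  obtain ⟨s, hs, h1⟩ := h ε hε
  obtain ⟨s', hs', h1'⟩ := h' ε hε
  refine ⟨s + s', add_mem hs hs', ?_⟩
  have e : f + g - (s + s') = (f - s) + (g - s') := by ring
  rw [e]
  exact h1.add h1'

theorem Lm.neg (h : Lm v S f) : Lm v S (-f) := fun ε hε => by
  obtain ⟨s, hs, h1⟩ := h ε hε
  refine ⟨-s, neg_mem hs, ?_⟩
  have e : -f - -s = -(f - s) := by ring
  rw [e]
  exact h1.neg

theorem Lm.sub {g : Ω} (h : Lm v S f) (h' : Lm v S g) : Lm v S (f - g) := by
  rw [sub_eq_add_neg]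
  exact h.add h'.neg

theorem Lm.smul (h0 : Ctx0 k v) (a : k) (h : Lm v S f) : Lm v S (algebraMap k Ω a * f) :=
  fun ε hε => by
    obtain ⟨s, hs, h1⟩ := h ε hε
    refine ⟨a • s, S.smul_mem a hs, ?_⟩
    rw [Algebra.smul_def, ← mul_sub]
    have h2 := (h0.ge a).mul h1
    rwa [zero_add] at h2

/-- closure is idempotent -/
theorem Lm.trans (h : Lm v S f) (hS : ∀ s ∈ S, Lm v S' s) : Lm v S' f := fun ε hε => by
  obtain ⟨s, hs, h1⟩ := h ε hε
  obtain ⟨s', hs', h2⟩ := hS s hs ε hε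
  refine ⟨s', hs', ?_⟩
  have e : f - s' = (f - s) + (s - s') := by ring
  rw [e]
  exact h1.add h2

theorem Lm.span (h0 : Ctx0 k v) {M : Set Ω} (hM : ∀ m ∈ M, Lm v S m)
    (h : f ∈ Submodule.span k M) : Lm v S f := by
  induction h using Submodule.span_induction with
  | mem x hx => exact hM x hx
  | zero => exact Lm.of_mem (zero_mem _)
  | add x y _ _ hx hy => exact hx.add hy
  | smul a x _ hx =>
    rw [Algebra.smul_def]
    exact hx.smul h0 a

/-- finite sums -/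
theorem Lm.sum {ι : Type*} {s : Finset ι} {F : ι → Ω} (h : ∀ i ∈ s, Lm v S (F i)) :
    Lm v S (∑ i ∈ s, F i) := by
  classical
  induction s using Finset.induction_on with
  | empty =>
    rw [Finset.sum_empty]
    exact Lm.of_mem (zero_mem _)
  | insert a s ha ih =>
    rw [Finset.sum_insert ha]
    exact (h a (Finset.mem_insert_self _ _)).add (ih fun i hi => h i (Finset.mem_insert_of_mem hi))

end Lm

omit [IsAlgClosed Ω] [CharP k p] [PerfectRing k p] in
theorem Lm.pow (hS : ∀ s ∈ S, s ^ p ∈ S') (h : Lm v S f) : Lm v S' (f ^ p) := fun ε hε => by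
  have hp0 : (0 : ℝ) < p := by exact_mod_cast hp.out.pos
  obtain ⟨s, hs, h1⟩ := h (ε / p) (by positivity)
  refine ⟨s ^ p, hS s hs, ?_⟩
  rw [← sub_pow_char]
  have h2 := (ge_pow_iff (v := v) (y := f - s) (b := -(ε / p)) hp.out.pos).2 h1
  have e : (p : ℝ) * -(ε / p) = -ε := by field_simp
  rwa [e] at h2

omit [IsAlgClosed Ω] [CharP k p] [PerfectRing k p] in
theorem Lm.root (hS : ∀ s ∈ S, ∃ r ∈ S', r ^ p = s) (h : Lm v S (f ^ p)) : Lm v S' f :=
  fun ε hε => by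
    have hp0 : (0 : ℝ) < p := by exact_mod_cast hp.out.pos
    obtain ⟨s, hs, h1⟩ := h (p * ε) (by positivity)
    obtain ⟨r, hr, rfl⟩ := hS s hs
    refine ⟨r, hr, ?_⟩
    rw [← sub_pow_char] at h1
    refine (ge_pow_iff (v := v) (y := f - r) (b := -ε) hp.out.pos).1 ?_
    have e : (p : ℝ) * -ε = -(p * ε) := by ring
    rwa [e]

end Pool.Agent.TWC.PF
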