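import Pool.Agent.Lib.TWC.PFa
import Pool.Agent.Lib.TWC.C4

/-!
# TANK W, class C: the pair of a field of rational radius (row PF), the letters

* `coeff_le`: the monomials of `k[X n]` are orthogonal;
* `SW_ge`, `Lm_SW_ge`: values;
* `Lm_SW_split`: the letters at the position `j`;
* `first_top`: the first top letter; `top_dvd`: a top exponent divisible by `p`.
-/

set_option autoImplicit false
set_option linter.unusedSectionVars false
set_option linter.unusedVariables false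

open Polynomial

namespace Pool.Agent.TWC.PF

open Pool.Agent.H15JM (RVal)
open Pool.Agent.D2 (Ctx0)
open Pool.Agent.D2P (clI mem_clI)
open Pool.Agent.TWM

universe u

variable {k Ω : Type u} [Field k] [Field Ω] [Algebra k Ω] {v : RVal Ω}
  {p : ℕ} [hp : Fact p.Prime] [CharP k p] [CharP Ω p] [PerfectRing k p] [IsAlgClosed Ω]
  {C : IntermediateField k Ω} {X T : ℕ → Ω} {y z t f s : Ω} {b j n m : ℕ} {S S' : Submodule k Ω}

omit [CharP k p] [CharP Ω p] [PerfectRing k p] [IsAlgClosed Ω] in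
/-- orthogonality of the monomials -/
theorem coeff_le (h0 : Ctx0 k v) (hr : ∀ n, X (n + 1) ^ p = X n) (hX : X 0 ≠ 0) (hv : v (X 0) < 0)
    {P : Polynomial k} {c : ℝ} (h : v.Ge c (aeval (X n) P)) {i : ℕ} (hi : P.coeff i ≠ 0) :
    c ≤ i * v (X n) :=
  kpp_le h0 (rt_ne hr hX n) (rt_neg hr hX hv n) h hi

omit [CharP k p] [CharP Ω p] [PerfectRing k p] [IsAlgClosed Ω] in
theorem val_le (hr : ∀ n, X (n + 1) ^ p = X n) (hX : X 0 ≠ 0) (hv : v (X 0) < 0) {n m : ℕ}
    (h : n ≤ m) : v (X n) ≤ v (X m) := by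
  rw [rt_val hr hX n, rt_val hr hX m]
  have hp1 : (1 : ℝ) ≤ p := by exact_mod_cast hp.out.one_lt.le
  have h2 : (p : ℝ) ^ n ≤ (p : ℝ) ^ m := pow_le_pow_right₀ hp1 h
  have h3 : (0 : ℝ) < (p : ℝ) ^ n := pow_pos (by linarith) _
  rw [div_le_div_iff₀ h3 (h3.trans_le h2)]
  nlinarith

omit [CharP k p] [CharP Ω p] [PerfectRing k p] [IsAlgClosed Ω] in
theorem SW_ge (h0 : Ctx0 k v) (hr : ∀ n, X (n + 1) ^ p = X n) (hX : X 0 ≠ 0) (hv : v (X 0) < 0)
    (h : s ∈ SW k X b j) : v.Ge (b * v (X j)) s := by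
  induction h using Submodule.span_induction with
  | mem x hx =>
    obtain ⟨n, i, hn, hi, rfl⟩ := hx
    refine (ge_pow (v.ge_self (X n)) i).mono ?_
    have h1 := val_le hr hX hv hn
    have h2 := rt_neg hr hX hv j
    have h3 := rt_neg hr hX hv n
    have h4 : (i : ℝ) ≤ b := by exact_mod_cast hi
    have h5 : (0 : ℝ) ≤ i := Nat.cast_nonneg i
    nlinarith
  | zero => exact RVal.Ge.zero
  | add x y _ _ hx hy => exact hx.add hy
  | smul a x _ hx =>
    rw [Algebra.smul_def]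
    have h2 := (h0.ge a).mul hx
    rwa [zero_add] at h2

omit [Field k] [Algebra k Ω] hp [CharP k p] [CharP Ω p] [PerfectRing k p] [IsAlgClosed Ω] in
theorem ge_of_forall_pos {c : ℝ} (h : ∀ ε : ℝ, 0 < ε → v.Ge (c - ε) f) : v.Ge c f := by
  intro hf
  refine le_of_forall_pos_le_add fun ε hε => ?_
  have := h ε hε hf
  linarith

omit [CharP k p] [CharP Ω p] [PerfectRing k p] [IsAlgClosed Ω] in
theorem Lm_SW_ge (h0 : Ctx0 k v) (hr : ∀ n, X (n + 1) ^ p = X n) (hX : X 0 ≠ 0) (hv : v (X 0) < 0)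
    (h : Lm v (SW k X b j) f) : v.Ge (b * v (X j)) f := by
  refine ge_of_forall_pos fun ε hε => ?_
  obtain ⟨s, hs, h1⟩ := h ε hε
  have h2 := SW_ge h0 hr hX hv hs
  have h3 := rt_neg hr hX hv j
  have h4 : (0 : ℝ) ≤ b := Nat.cast_nonneg b
  have e : f = (f - s) + s := by ring
  rw [e]
  exact (h1.mono (by nlinarith)).add (h2.mono (by linarith))

/-! ### Polynomials at a high level -/

omit [CharP k p] [CharP Ω p] [PerfectRing k p] [IsAlgClosed Ω] in
/-- The elements of `SW k X b j` are polynomials in `X L`. -/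
theorem SW_poly (hr : ∀ n, X (n + 1) ^ p = X n) (h : s ∈ SW k X b j) :
    ∃ L₀, ∀ L, L₀ ≤ L → ∃ P : Polynomial k, aeval (X L) P = s ∧
      ∀ e, P.coeff e ≠ 0 → ∃ m a, j ≤ m ∧ m ≤ L ∧ a ≤ b ∧ e = a * p ^ (L - m) := by
  induction h using Submodule.span_induction with
  | mem x hx =>
    obtain ⟨n, i, hn, hi, rfl⟩ := hx
    refine ⟨n, fun L hL => ⟨Polynomial.X ^ (i * p ^ (L - n)), ?_, fun e he => ?_⟩⟩
    · rw [map_pow, aeval_X, mul_comm, pow_mul]
      have h1 := root_pow_add hr n (L - n)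
      rw [show n + (L - n) = L by omega] at h1
      rw [h1]
    · rw [coeff_X_pow] at he
      refine ⟨n, i, hn, hL, hi, ?_⟩
      by_contra h1
      rw [if_neg h1] at he
      exact he rfl
  | zero =>
    exact ⟨0, fun L _ => ⟨0, map_zero _, fun e he => absurd (coeff_zero e) he⟩⟩
  | add x y _ _ hx hy =>
    obtain ⟨L₁, h1⟩ := hx
    obtain ⟨L₂, h2⟩ := hy
    refine ⟨max L₁ L₂, fun L hL => ?_⟩
    obtain ⟨P, hP, hP'⟩ := h1 L ((le_max_left _ _).trans hL)
    obtain ⟨Q, hQ, hQ'⟩ := h2 L ((le_max_right _ _).trans hL)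
    refine ⟨P + Q, by rw [map_add, hP, hQ], fun e he => ?_⟩
    by_cases h3 : P.coeff e = 0
    · refine hQ' e fun h4 => he ?_
      rw [coeff_add, h3, h4, add_zero]
    · exact hP' e h3
  | smul a x _ hx =>
    obtain ⟨L₁, h1⟩ := hx
    refine ⟨L₁, fun L hL => ?_⟩
    obtain ⟨P, hP, hP'⟩ := h1 L hL
    refine ⟨a • P, by rw [map_smul, hP], fun e he => hP' e fun h3 => he ?_⟩
    rw [coeff_smul, h3, smul_zero]

omit hp [CharP k p] [CharP Ω p] [PerfectRing k p] [IsAlgClosed Ω] in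
/-- The part at the position `j`. -/
theorem SW_split (h : s ∈ SW k X b j) : ∃ q : Polynomial k, q.natDegree ≤ b ∧
    ∃ s' ∈ SW k X b (j + 1), s = aeval (X j) q + s' := by
  induction h using Submodule.span_induction with
  | mem x hx =>
    obtain ⟨n, i, hn, hi, rfl⟩ := hx
    rcases hn.eq_or_lt with rfl | h1
    · refine ⟨Polynomial.X ^ i, (natDegree_X_pow_le i).trans hi, 0, zero_mem _, ?_⟩
      rw [map_pow, aeval_X, add_zero]
    · exact ⟨0, by simp, X n ^ i, mem_SW h1 hi, by rw [map_zero, zero_add]⟩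
  | zero => exact ⟨0, by simp, 0, zero_mem _, by rw [map_zero, zero_add]⟩
  | add x y _ _ hx hy =>
    obtain ⟨q, hq, s, hs, rfl⟩ := hx
    obtain ⟨q', hq', s', hs', rfl⟩ := hy
    refine ⟨q + q', natDegree_add_le_of_degree_le hq hq', s + s', add_mem hs hs', ?_⟩
    rw [map_add]
    ring
  | smul a x _ hx =>
    obtain ⟨q, hq, s, hs, rfl⟩ := hx
    refine ⟨a • q, (natDegree_smul_le a q).trans hq, a • s, Submodule.smul_mem _ _ hs, ?_⟩
    rw [map_smul, smul_add]

omit [CharP k p] [CharP Ω p] [PerfectRing k p] [IsAlgClosed Ω] in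
/-- the letters at the position `j` -/
theorem Lm_SW_split (h0 : Ctx0 k v) (hr : ∀ n, X (n + 1) ^ p = X n) (hX : X 0 ≠ 0)
    (hv : v (X 0) < 0) (h : Lm v (SW k X b j) f) :
    ∃ q : Polynomial k, q.natDegree ≤ b ∧ Lm v (SW k X b (j + 1)) (f - aeval (X j) q) := by
  have hj := rt_neg hr hX hv j
  obtain ⟨s₀, hs₀, h1⟩ := h (-v (X j) / 2) (by linarith)
  obtain ⟨q₀, hq₀, s₀', hs₀', rfl⟩ := SW_split hs₀
  refine ⟨q₀, hq₀, fun ε hε => ?_⟩
  obtain ⟨s, hs, h2⟩ := h (min ε (-v (X j) / 2)) (lt_min hε (by linarith))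
  obtain ⟨q, hq, s', hs', rfl⟩ := SW_split hs
  have hdiff : v.Ge (v (X j) / 2) (aeval (X j) (q - q₀) + (s' - s₀')) := by
    have e : aeval (X j) (q - q₀) + (s' - s₀') =
        (f - (aeval (X j) q₀ + s₀')) - (f - (aeval (X j) q + s')) := by
      rw [map_sub]
      ring
    rw [e]
    refine (h1.mono (by linarith)).sub (h2.mono ?_)
    have := min_le_right ε (-v (X j) / 2)
    linarith
  obtain ⟨L₀, hL₀⟩ := SW_poly hr (sub_mem hs' hs₀')
  obtain ⟨P, hP, hP'⟩ := hL₀ (max L₀ j) (le_max_left _ _)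
  set L := max L₀ j with hL
  have hjL : j ≤ L := le_max_right _ _
  have hroot : X L ^ p ^ (L - j) = X j := by
    have h1 := root_pow_add hr j (L - j)
    rwa [show j + (L - j) = L by omega] at h1
  have hpj : 0 < p ^ (L - j) := pow_pos hp.out.pos _
  have hmem : aeval (X j) (q - q₀) ∈ SW k X b (j + 1) := by
    rw [aeval_eq_sum_range' (n := b + 1) (Nat.lt_succ_of_le
      ((natDegree_sub_le_of_le hq hq₀).trans (le_of_eq (max_self b))))]
    refine sum_mem fun i hi => ?_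
    by_cases hd : (q - q₀).coeff i = 0
    · rw [hd, zero_smul]
      exact zero_mem _
    refine Submodule.smul_mem _ _ ?_
    rcases Nat.eq_zero_or_pos i with rfl | hi0
    · rw [pow_zero, ← pow_zero (X (j + 1))]
      exact mem_SW le_rfl (Nat.zero_le _)
    by_cases hip : i * p ≤ b
    · have e : X j ^ i = X (j + 1) ^ (i * p) := by
        rw [mul_comm, pow_mul, hr]
      rw [e]
      exact mem_SW le_rfl hip
    exfalso
    -- the coefficient of `X L ^ (i * p ^ (L - j))`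
    set Q : Polynomial k := expand k (p ^ (L - j)) (q - q₀) + P with hQ
    have hQ1 : v.Ge (v (X j) / 2) (aeval (X L) Q) := by
      rw [hQ, map_add, expand_aeval, hroot, hP]
      exact hdiff
    have hPc : P.coeff (i * p ^ (L - j)) = 0 := by
      by_contra h3
      obtain ⟨m, a, hm, hmL, ha, he⟩ := hP' _ h3
      have h4 : p ^ (L - j) = p ^ (m - j) * p ^ (L - m) := by
        rw [← pow_add]
        congr 1
        omega
      rw [h4, ← mul_assoc] at he
      have h5 : i * p ^ (m - j) = a := Nat.eq_of_mul_eq_mul_right (pow_pos hp.out.pos _) he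
      have h6 : p ≤ p ^ (m - j) := Nat.le_self_pow (by omega) p
      have h7 : i * p ≤ i * p ^ (m - j) := Nat.mul_le_mul_left i h6
      omega
    have hQ2 : Q.coeff (i * p ^ (L - j)) ≠ 0 := by
      rw [hQ, coeff_add, hPc, add_zero, coeff_expand_mul hpj]
      exact hd
    have h3 := coeff_le h0 hr hX hv hQ1 hQ2
    have h4 : ((i * p ^ (L - j) : ℕ) : ℝ) * v (X L) = i * v (X j) := by
      rw [← hroot, v.map_pow (rt_ne hr hX L)]
      push_cast
      ring
    rw [h4] at h3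
    have h5 : (1 : ℝ) ≤ i := by exact_mod_cast hi0
    nlinarith
  refine ⟨s' + aeval (X j) (q - q₀), add_mem hs' hmem, ?_⟩
  have e : f - aeval (X j) q₀ - (s' + aeval (X j) (q - q₀)) = f - (aeval (X j) q + s') := by
    rw [map_sub]
    ring
  rw [e]
  refine h2.mono ?_
  have := min_le_left ε (-v (X j) / 2)
  linarith

/-! ### The first top letter -/

omit [CharP k p] [CharP Ω p] [PerfectRing k p] [IsAlgClosed Ω] in
/-- the first top letter -/
theorem first_top (h0 : Ctx0 k v) (hr : ∀ n, X (n + 1) ^ p = X n) (hX : X 0 ≠ 0)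
    (hv : v (X 0) < 0) (h : Lm v (SW k X (b + 1) 1) y) : Lm v (SW k X b 1) y ∨
      ∃ (e : ℕ) (g : Ω) (q : Polynomial k), g ∈ cadj v (⊥ : IntermediateField k Ω) (X e) ∧
        g ∈ SW k X b 1 ∧ q.natDegree = b + 1 ∧
        Lm v (SW k X (b + 1) (e + 2)) (y - g - aeval (X (e + 1)) q) := by
  by_cases hstop : ∃ (e : ℕ) (g : Ω) (q : Polynomial k),
      g ∈ cadj v (⊥ : IntermediateField k Ω) (X e) ∧ g ∈ SW k X b 1 ∧ q.natDegree = b + 1 ∧
        Lm v (SW k X (b + 1) (e + 2)) (y - g - aeval (X (e + 1)) q)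
  · exact Or.inr hstop
  left
  have key : ∀ e : ℕ, ∃ g : Ω, g ∈ cadj v (⊥ : IntermediateField k Ω) (X e) ∧ g ∈ SW k X b 1 ∧
      Lm v (SW k X (b + 1) (e + 1)) (y - g) := by
    intro e
    induction e with
    | zero => exact ⟨0, zero_mem _, zero_mem _, by rwa [sub_zero, zero_add]⟩
    | succ e ih =>
      obtain ⟨g, hg, hg', h1⟩ := ih
      obtain ⟨q, hq, h2⟩ := Lm_SW_split h0 hr hX hv h1
      have hq' : q.natDegree ≤ b := by
        by_contra h3
        exact hstop ⟨e, g, q, hg, hg', by omega, h2⟩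
      refine ⟨g + aeval (X (e + 1)) q, add_mem ?_ ?_, add_mem hg' ?_, ?_⟩
      · have h3 : cadj v (⊥ : IntermediateField k Ω) (X e) ≤ cadj v ⊥ (X (e + 1)) :=
          cadj_le (cld_cadj v _ _) bot_le (by
            rw [← hr e]
            exact pow_mem (self_mem_cadj v _ _) p)
        exact h3 hg
      · rw [aeval_eq_sum_range]
        refine sum_mem fun i _ => ?_
        rw [Algebra.smul_def]
        exact mul_mem ((cadj v (⊥ : IntermediateField k Ω) (X (e + 1))).algebraMap_mem _)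
          (pow_mem (self_mem_cadj v _ _) i)
      · rw [aeval_eq_sum_range]
        refine sum_mem fun i hi => Submodule.smul_mem _ _ (mem_SW (by omega) ?_)
        have := Finset.mem_range_succ_iff.1 hi
        omega
      · rw [← sub_sub]
        exact h2
  intro ε hε
  -- a level of small values
  obtain ⟨e, he⟩ : ∃ e : ℕ, -ε ≤ ((b + 1 : ℕ) : ℝ) * v (X (e + 1)) := by
    have hp1 : (1 : ℝ) < p := by exact_mod_cast hp.out.one_lt
    obtain ⟨n, hn⟩ := pow_unbounded_of_one_lt (((b + 1 : ℕ) : ℝ) * -v (X 0) / ε) hp1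
    refine ⟨n, ?_⟩
    rw [rt_val hr hX]
    have h3 : (0 : ℝ) < (p : ℝ) ^ n := pow_pos (by linarith) _
    have h4 : (0 : ℝ) < (p : ℝ) ^ (n + 1) := pow_pos (by linarith) _
    rw [div_lt_iff₀ hε] at hn
    have h5 : (p : ℝ) ^ n ≤ (p : ℝ) ^ (n + 1) := pow_le_pow_right₀ hp1.le (by omega)
    rw [mul_div_assoc', le_div_iff₀ h4]
    nlinarith
  obtain ⟨g, -, hg, h1⟩ := key e
  exact ⟨g, hg, (Lm_SW_ge h0 hr hX hv h1).mono he⟩

omit [CharP k p] [CharP Ω p] [PerfectRing k p] [IsAlgClosed Ω] in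
/-- a top exponent divisible by `p` -/
theorem top_dvd (h0 : Ctx0 k v) (hr : ∀ n, X (n + 1) ^ p = X n) (hX : X 0 ≠ 0)
    (hv : v (X 0) < 0) (hb : p ∣ b + 1) (h : Lm v (SW k X (b + 1) 1) y) :
    Lm v (SW k X b 0) y := by
  refine h.mono ?_
  refine Submodule.span_le.2 ?_
  rintro _ ⟨n, i, hn, hi, rfl⟩
  obtain ⟨c, hc⟩ := hb
  have hp2 := hp.out.two_le
  rcases hi.eq_or_lt with rfl | h1
  · obtain ⟨m, rfl⟩ : ∃ m, n = m + 1 := ⟨n - 1, by omega⟩
    have hcb : c ≤ b := by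
      rcases Nat.eq_zero_or_pos c with rfl | hc0
      · omega
      · have : 2 * c ≤ p * c := Nat.mul_le_mul_right c hp2
        omega
    have e : X (m + 1) ^ (b + 1) = X m ^ c := by
      rw [hc, pow_mul, hr]
    rw [e]
    exact mem_SW (Nat.zero_le _) hcb
  · exact mem_SW (Nat.zero_le _) (by omega)

end Pool.Agent.TWC.PF
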