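import Pool.Agent.Lib.TWC.PFdefs
import Pool.Agent.Lib.TWC.ThetaX
import Pool.Agent.Lib.TWM.S3c

/-!
# TANK W, class C: row PF, the jets (part PFd)

`jetO`: if `Y` is of transcendental type and of radius `0` over `EW v ⊥ X`, with letters `X n ^ i`,
`i ≤ b + 1`, then the jets in the direction of `X n` of the polynomials in `Y` over `k[X n]` have
norm `< b g / p ^ n`, `g = - v (X 0)`.
-/

set_option autoImplicit false
set_option linter.unusedSectionVars false

open Polynomial

namespace Pool.Agent.TWC.PF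

open Pool.Agent.H15JM (RVal)
open Pool.Agent.LU1 (VPos adj)
open Pool.Agent.D2 (Ctx0)
open Pool.Agent.D2P (clI mem_clI)
open Pool.Agent.TWM

universe u

variable {k Ω : Type u} [Field k] [Field Ω] [Algebra k Ω] {v : RVal Ω}

/-- The value of a polynomial over `k` at an element of negative value. -/
theorem bot_lead (h0 : Ctx0 k v) {z : Ω} (hz : z ≠ 0) (hv : v z < 0) {G : Polynomial Ω}
    (hG : G ∈ PI (⊥ : IntermediateField k Ω)) (hG0 : G ≠ 0) :
    G.eval z ≠ 0 ∧ v (G.eval z) = G.natDegree * v z := by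
  set n := G.natDegree with hn
  have hlead : G.coeff n ≠ 0 := by
    rw [hn, coeff_natDegree]
    exact leadingCoeff_ne_zero.2 hG0
  have hcv : ∀ i, v.Ge 0 (G.coeff i) := fun i => by
    obtain ⟨a, ha⟩ := IntermediateField.mem_bot.1 (hG i)
    rw [← ha]
    exact h0.ge a
  have hlv : v (G.coeff n) = 0 := by
    obtain ⟨a, ha⟩ := IntermediateField.mem_bot.1 (hG n)
    rw [← ha]
    refine h0.triv a ?_
    rintro rfl
    rw [map_zero] at ha
    exact hlead ha.symm
  have hne : G.coeff n * z ^ n ≠ 0 := mul_ne_zero hlead (pow_ne_zero _ hz)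
  have hval : v (G.coeff n * z ^ n) = n * v z := by
    rw [v.map_mul hlead (pow_ne_zero _ hz), v.map_pow hz, hlv, zero_add]
  have h1 : G.eval z - G.coeff n * z ^ n = ∑ i ∈ Finset.range n, G.coeff i * z ^ i := by
    rw [eval_eq_sum_range, ← hn, Finset.sum_range_succ, add_sub_cancel_right]
  have h2 : Gt v (n * v z) (G.coeff n * z ^ n - G.eval z) := by
    refine Gt.sub_comm' ?_
    rw [h1]
    refine Gt.sum _ _ fun i hi => ?_
    have h3 := (hcv i).mul (ge_pow (v.ge_self z) i)
    refine Gt.of_ge h3 ?_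
    have h4 : (i : ℝ) + 1 ≤ n := by exact_mod_cast Finset.mem_range.1 hi
    nlinarith
  have h3 := Gt.val_eq hne (y := G.eval z) (by rw [hval]; exact h2)
  exact ⟨h3.1, by rw [h3.2, hval]⟩

/-- The jets of a polynomial over `k` at an element of negative value. -/
theorem bot_jet (h0 : Ctx0 k v) {z : Ω} (hz : z ≠ 0) (hv : v z < 0) {G : Polynomial Ω}
    (hG : G ∈ PI (⊥ : IntermediateField k Ω)) (s : ℕ) :
    v.Ge (v (G.eval z) - s * v z) ((taylor z G).coeff s) := by
  by_cases hG0 : G = 0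
  · rw [hG0, map_zero, coeff_zero]
    exact RVal.Ge.zero
  obtain ⟨-, h1⟩ := bot_lead h0 hz hv hG hG0
  rw [h1, taylor_coeff, hasseDeriv_apply, Polynomial.sum, eval_finsetSum]
  refine RVal.Ge.sum _ _ fun i hi => ?_
  rw [eval_monomial]
  have hcv : v.Ge 0 (((i.choose s : ℕ) : Ω) * G.coeff i) := by
    obtain ⟨a, ha⟩ := IntermediateField.mem_bot.1 (mul_mem (natCast_mem
      (⊥ : IntermediateField k Ω) (i.choose s)) (hG i))
    rw [← ha]
    exact h0.ge a
  by_cases his : i < s
  · rw [Nat.choose_eq_zero_of_lt his, Nat.cast_zero, zero_mul, zero_mul]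
    exact RVal.Ge.zero
  · refine (hcv.mul (ge_pow (v.ge_self z) (i - s))).mono ?_
    rw [zero_add, Nat.cast_sub (not_lt.1 his)]
    have h2 : (i : ℝ) ≤ G.natDegree := by exact_mod_cast le_natDegree_of_mem_supp i hi
    nlinarith

section P

variable {p : ℕ} [hp : Fact p.Prime] [CharP Ω p] {X : ℕ → Ω} {b : ℕ}

/-- `e` is a polynomial in `X L`, the jets of which are not negative. -/
def JB (p : ℕ) (v : RVal Ω) (k : Type u) [Field k] [Algebra k Ω] (X : ℕ → Ω) (b L : ℕ) (e : Ω) :
    Prop :=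
  ∃ E ∈ PI (⊥ : IntermediateField k Ω), E.eval (X L) = e ∧
    ∀ s : ℕ, 1 ≤ s → v.Ge (s * (b * v (X L))) ((taylor (X L) E).coeff s)

theorem JB.lift (hr : ∀ n, X (n + 1) ^ p = X n) (hX : X 0 ≠ 0) {L : ℕ} {e : Ω}
    (h : JB p v k X b L e) (d : ℕ) : JB p v k X b (L + d) e := by
  obtain ⟨E, hE, h1, h2⟩ := h
  have hpd : 0 < p ^ d := pow_pos hp.out.pos d
  refine ⟨expand Ω (p ^ d) E, expand_mem_PI hpd hE, by rw [ax_lift hr, h1], fun s hs => ?_⟩
  by_cases hd : p ^ d ∣ s
  · obtain ⟨s', rfl⟩ := hd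
    have hs' : 1 ≤ s' := by
      rcases Nat.eq_zero_or_pos s' with h3 | h3
      · rw [h3, mul_zero] at hs; omega
      · exact h3
    rw [coeff_lift hr]
    refine (h2 s' hs').mono (le_of_eq ?_)
    have h4 : v (X L) = p ^ d * v (X (L + d)) := by
      rw [← root_pow_add hr L d, v.map_pow (root_ne_zero hr hX _)]
      push_cast
      ring
    rw [h4]
    push_cast
    ring
  · rw [coeff_lift_zero hr _ _ hd]
    exact RVal.Ge.zero

/-- The elements of the span of the letters. -/
theorem exists_JB (h0 : Ctx0 k v) (hr : ∀ n, X (n + 1) ^ p = X n) (hX : X 0 ≠ 0)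
    (hv : v (X 0) < 0) {e : Ω} (he : e ∈ SW k X (b + 1) 0) :
    ∃ L₀, ∀ L, L₀ ≤ L → JB p v k X b L e := by
  have hp0 : (0 : ℝ) < p := by exact_mod_cast hp.out.pos
  have key : ∀ {L₀ : ℕ} {e : Ω}, JB p v k X b L₀ e → ∀ L, L₀ ≤ L → JB p v k X b L e := by
    intro L₀ e h L hL
    have := h.lift hr hX (L - L₀)
    rwa [Nat.add_sub_cancel' hL] at this
  induction he using Submodule.span_induction with
  | mem e he =>
    obtain ⟨n, i, -, hi, rfl⟩ := he
    have hvn : v (X n) < 0 := by
      rw [val_rt hr hX]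
      exact div_neg_of_neg_of_pos hv (pow_pos hp0 n)
    refine ⟨n, key ⟨Polynomial.X ^ i, pow_mem X_mem_PI i, by rw [eval_pow, eval_X], fun s hs => ?_⟩⟩
    have h1 := bot_jet h0 (root_ne_zero hr hX n) hvn (G := Polynomial.X ^ i)
      (pow_mem X_mem_PI i) s
    refine h1.mono ?_
    rw [eval_pow, eval_X, v.map_pow (root_ne_zero hr hX n)]
    have h2 : (i : ℝ) ≤ b + 1 := by exact_mod_cast hi
    have h3 : (1 : ℝ) ≤ s := by exact_mod_cast hs
    have hb0 : (0 : ℝ) ≤ b := Nat.cast_nonneg b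
    have h4 : (i : ℝ) - s ≤ s * b := by nlinarith
    nlinarith
  | zero =>
    refine ⟨0, fun L _ => ⟨0, zero_mem _, eval_zero, fun s _ => ?_⟩⟩
    rw [map_zero, coeff_zero]
    exact RVal.Ge.zero
  | add e e' _ _ h1 h2 =>
    obtain ⟨L₁, h1⟩ := h1
    obtain ⟨L₂, h2⟩ := h2
    refine ⟨max L₁ L₂, fun L hL => ?_⟩
    obtain ⟨E, hE, rfl, h3⟩ := h1 L ((le_max_left _ _).trans hL)
    obtain ⟨E', hE', rfl, h4⟩ := h2 L ((le_max_right _ _).trans hL)
    refine ⟨E + E', add_mem hE hE', eval_add, fun s hs => ?_⟩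
    rw [map_add, coeff_add]
    exact (h3 s hs).add (h4 s hs)
  | smul a e _ h1 =>
    obtain ⟨L₁, h1⟩ := h1
    refine ⟨L₁, fun L hL => ?_⟩
    obtain ⟨E, hE, rfl, h3⟩ := h1 L hL
    refine ⟨C (algebraMap k Ω a) * E, mul_mem (C_mem_PI (IntermediateField.algebraMap_mem _ a)) hE,
      by rw [eval_mul, eval_C, Algebra.smul_def], fun s hs => ?_⟩
    rw [taylor_mul, taylor_C, coeff_C_mul]
    have := (h0.ge a).mul (h3 s hs)
    rwa [zero_add] at this

/-- The powers of the increment. -/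
theorem eta_pow {η : Polynomial Ω} {c : ℝ} (h : ∀ s : ℕ, v.Ge (s * c) (η.coeff s)) (j : ℕ) :
    ∀ s : ℕ, v.Ge (s * c) ((η ^ j).coeff s) := by
  induction j with
  | zero =>
    intro s
    rw [pow_zero, coeff_one]
    split_ifs with h1
    · rw [h1, Nat.cast_zero, zero_mul]
      intro _
      rw [v.map_one]
    · exact RVal.Ge.zero
  | succ j ih =>
    intro s
    rw [pow_succ, coeff_mul]
    refine RVal.Ge.sum _ _ fun x hx => ?_
    have h1 := Finset.HasAntidiagonal.mem_antidiagonal.1 hx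
    refine ((ih x.1).mul (h x.2)).mono (le_of_eq ?_)
    rw [← h1]
    push_cast
    ring

theorem near_fin0 [IsAlgClosed Ω] {A : IntermediateField k Ω} {z : Ω} {s : ℝ} (hz : TL v A z s)
    {ι : Type*} (S : Finset ι) (f : ι → Polynomial Ω) (hf : ∀ i ∈ S, f i ∈ PI A) :
    ∃ δ : ℝ, 0 < δ ∧ ∀ ψ, v.Ge (s - δ) (z - ψ) → ∀ i ∈ S,
      ((f i).eval z ≠ 0 → (f i).eval ψ ≠ 0) ∧ v ((f i).eval ψ) = v ((f i).eval z) := by
  classical
  induction S using Finset.induction_on with
  | empty => exact ⟨1, one_pos, fun _ _ i hi => absurd hi (Finset.notMem_empty i)⟩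
  | insert a S ha ih =>
    obtain ⟨δ, hδ, h1⟩ := ih fun i hi => hf i (Finset.mem_insert_of_mem hi)
    obtain ⟨δ', hδ', h2⟩ := hz.near0 (hf a (Finset.mem_insert_self a S))
    refine ⟨min δ δ', lt_min hδ hδ', fun ψ hψ i hi => ?_⟩
    rcases Finset.mem_insert.mp hi with rfl | hi
    · exact h2 ψ (hψ.mono (by linarith [min_le_right δ δ']))
    · exact h1 ψ (hψ.mono (by linarith [min_le_left δ δ'])) i hi

/-- The jet of order `i` at `X n` of the family `f`, a polynomial in the second variable. -/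
noncomputable def evj (X : ℕ → Ω) (n D : ℕ) (f : ℕ → Polynomial Ω) (i : ℕ) : Polynomial Ω :=
  ∑ l ∈ Finset.range D, C ((taylor (X n) (f l)).coeff i) * Polynomial.X ^ l

theorem evj_eval (n D : ℕ) (f : ℕ → Polynomial Ω) (i : ℕ) (Y : Ω) :
    (evj X n D f i).eval Y = ∑ l ∈ Finset.range D, (taylor (X n) (f l)).coeff i * Y ^ l := by
  simp only [evj, eval_finsetSum, eval_mul, eval_C, eval_pow, eval_X]

theorem evj_taylor (n D : ℕ) (f : ℕ → Polynomial Ω) (i j : ℕ) (e : Ω) :
    (taylor e (evj X n D f i)).coeff j = ∑ l ∈ Finset.range D, (taylor (X n) (f l)).coeff i *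
      ((l.choose j : ℕ) * e ^ (l - j)) := by
  simp only [evj, map_sum, finsetSum_coeff, taylor_mul, taylor_C, coeff_C_mul]
  refine Finset.sum_congr rfl fun l _ => ?_
  congr 1
  rw [taylor_coeff, hasseDeriv_apply, X_pow_eq_monomial, Polynomial.sum_monomial_index _ _ (by simp),
    eval_monomial, mul_one]

/-- **The jets.** -/
theorem jetO [IsAlgClosed Ω] (h0 : Ctx0 k v) (hr : ∀ n, X (n + 1) ^ p = X n) (hX : X 0 ≠ 0)
    (hv : v (X 0) < 0) {Y : Ω} (hTL : TL v (EW v (⊥ : IntermediateField k Ω) X) Y 0)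
    (hY : Lm v (SW k X (b + 1) 0) Y) (n D : ℕ) (f : ℕ → Polynomial Ω)
    (hf : ∀ l, f l ∈ PI (⊥ : IntermediateField k Ω))
    (h1 : (evj X n D f 0).eval Y ≠ 0) : ∀ i : ℕ, 1 ≤ i →
      Gt v (v ((evj X n D f 0).eval Y) + i * (b * v (X n))) ((evj X n D f i).eval Y) := by
  classical
  have hp0 : (0 : ℝ) < p := by exact_mod_cast hp.out.pos
  set E := EW v (⊥ : IntermediateField k Ω) X with hE
  have hXn : ∀ n, X n ≠ 0 := root_ne_zero hr hX
  have hvX : ∀ n, v (X n) < 0 := fun n => by
    rw [val_rt hr hX]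
    exact div_neg_of_neg_of_pos hv (pow_pos hp0 n)
  have hD : 0 < D := by
    rcases Nat.eq_zero_or_pos D with h2 | h2
    · exact absurd (by rw [h2, evj, Finset.range_zero, Finset.sum_empty, eval_zero]) h1
    · exact h2
  have hevE : ∀ i, evj X n D f i ∈ PI E := by
    intro i
    refine sum_mem fun l _ => mul_mem (C_mem_PI ?_) (pow_mem X_mem_PI l)
    exact coeff_taylor_mem (PI_mono bot_le (hf l)) (EW.mem n) i
  intro i
  induction i using Nat.strong_induction_on with
  | _ i ih =>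
  intro hi
  -- a good approximation
  obtain ⟨δ, hδ, hδ'⟩ := near_fin0 hTL (Finset.range (i + 1) ×ˢ Finset.range (D + 1))
    (fun x => hasseDeriv x.2 (evj X n D f x.1)) fun x _ => hasse_mem_PI (hevE x.1) x.2
  obtain ⟨e, he, heY⟩ := hY δ hδ
  have hnear := hδ' e (by rw [zero_sub]; exact heY)
  obtain ⟨L₀, hL₀⟩ := exists_JB h0 hr hX hv he
  set L := n + L₀ with hL
  obtain ⟨F, hF, hFe, hFj⟩ := hL₀ L (by omega)
  set P := p ^ L₀ with hP
  have hPpos : 0 < P := pow_pos hp.out.pos _
  have hvL : v (X n) = P * v (X L) := by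
    rw [← root_pow_add hr n L₀, v.map_pow (hXn _)]
  -- the values near `Y`
  have hval : ∀ i' ≤ i, ∀ j ≤ D, ((taylor Y (evj X n D f i')).coeff j ≠ 0 →
      (taylor e (evj X n D f i')).coeff j ≠ 0) ∧
      v ((taylor e (evj X n D f i')).coeff j) = v ((taylor Y (evj X n D f i')).coeff j) := by
    intro i' hi' j hj
    have := hnear (i', j) (Finset.mem_product.2 ⟨Finset.mem_range.2 (by omega),
      Finset.mem_range.2 (by omega)⟩)
    simp only [taylor_coeff]
    exact this
  have hval0 : ∀ i' ≤ i, ((evj X n D f i').eval Y ≠ 0 → (evj X n D f i').eval e ≠ 0) ∧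
      v ((evj X n D f i').eval e) = v ((evj X n D f i').eval Y) := by
    intro i' hi'
    have := hval i' hi' 0 (Nat.zero_le _)
    simpa only [taylor_coeff_zero] using this
  -- the polynomial in one variable
  set G : Polynomial Ω := ∑ l ∈ Finset.range D, expand Ω P (f l) * F ^ l with hG
  have hGm : G ∈ PI (⊥ : IntermediateField k Ω) :=
    sum_mem fun l _ => mul_mem (expand_mem_PI hPpos (hf l)) (pow_mem hF l)
  have hGe : G.eval (X L) = (evj X n D f 0).eval e := by
    rw [evj_eval, hG, eval_finsetSum]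
    refine Finset.sum_congr rfl fun l _ => ?_
    rw [eval_mul, eval_pow, hFe, hP, ax_lift hr, taylor_coeff_zero]
  have hGv : v (G.eval (X L)) = v ((evj X n D f 0).eval Y) := by
    rw [hGe]
    exact (hval0 0 (Nat.zero_le _)).2
  -- the increment
  set η : Polynomial Ω := taylor (X L) F - C e with hη
  have hη0 : η.coeff 0 = 0 := by
    rw [hη, coeff_sub, taylor_coeff_zero, hFe, coeff_C_zero, sub_self]
  have hηs : ∀ s : ℕ, v.Ge (s * (b * v (X L))) (η.coeff s) := by
    intro s
    rcases Nat.eq_zero_or_pos s with rfl | hs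
    · rw [hη0]
      exact RVal.Ge.zero
    · rw [hη, coeff_sub, coeff_C_ne_zero (by omega), sub_zero]
      exact hFj s hs
  have hηj : ∀ j, 1 ≤ j → (η ^ j).coeff 0 = 0 := by
    intro j hj
    rw [coeff_zero_eq_eval_zero, eval_pow, ← coeff_zero_eq_eval_zero, hη0, zero_pow (by omega)]
  -- the expansion
  set Hp : Polynomial (Polynomial Ω) := ∑ l ∈ Finset.range D,
    C (expand Ω P (taylor (X n) (f l))) * Polynomial.X ^ l with hHp
  have hHd : (taylor (C e) Hp).natDegree < D := by
    rw [natDegree_taylor]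
    refine lt_of_le_of_lt (natDegree_sum_le_of_forall_le _ _ (n := D - 1) fun l hl => ?_)
      (by omega)
    refine (natDegree_C_mul_X_pow_le _ _).trans ?_
    have := Finset.mem_range.1 hl
    omega
  have hGt : taylor (X L) G = ∑ j ∈ Finset.range D, (taylor (C e) Hp).coeff j * η ^ j := by
    rw [← eval_eq_sum_range' hHd, taylor_eval, hη, sub_add_cancel, hHp, eval_finsetSum, hG,
      map_sum]
    refine Finset.sum_congr rfl fun l _ => ?_
    rw [taylor_mul, eval_mul, eval_C, eval_pow, eval_X, hP, taylor_expand_pow, hL,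
      root_pow_add hr]
    congr 1
    exact map_pow (taylorAlgHom _) _ _
  have hco : ∀ j i', ((taylor (C e) Hp).coeff j).coeff (P * i') =
      (taylor e (evj X n D f i')).coeff j := by
    intro j i'
    rw [evj_taylor, hHp]
    simp only [map_sum, finsetSum_coeff, taylor_mul, taylor_C, coeff_C_mul]
    refine Finset.sum_congr rfl fun l _ => ?_
    rw [taylor_coeff, hasseDeriv_apply, X_pow_eq_monomial,
      Polynomial.sum_monomial_index _ _ (by simp), eval_monomial, mul_one, ← C_pow,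
      ← Polynomial.C_eq_natCast, ← C_mul, coeff_mul_C, coeff_expand_mul' hPpos]
  have hco0 : ∀ j i', ¬ P ∣ i' → ((taylor (C e) Hp).coeff j).coeff i' = 0 := by
    intro j i' hi'
    rw [hHp]
    simp only [map_sum, finsetSum_coeff, taylor_mul, taylor_C, coeff_C_mul]
    refine Finset.sum_eq_zero fun l _ => ?_
    rw [taylor_coeff, hasseDeriv_apply, X_pow_eq_monomial,
      Polynomial.sum_monomial_index _ _ (by simp), eval_monomial, mul_one, ← C_pow,
      ← Polynomial.C_eq_natCast, ← C_mul, coeff_mul_C, coeff_expand hPpos, if_neg hi', zero_mul]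
  -- the lower terms
  have hlow : ∀ i' < i, v.Ge (v ((evj X n D f 0).eval Y) + i' * (b * v (X n)))
      ((evj X n D f i').eval Y) := by
    intro i' hi'
    rcases Nat.eq_zero_or_pos i' with rfl | h2
    · rw [Nat.cast_zero, zero_mul, add_zero]
      exact v.ge_self _
    · exact (ih i' hi' h2).ge
  have hlowj : ∀ i' < i, ∀ j, 1 ≤ j → j ≤ D →
      Gt v (v ((evj X n D f 0).eval Y) + i' * (b * v (X n)))
        ((taylor e (evj X n D f i')).coeff j) := by
    intro i' hi' j hj hjD hne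
    have h2 := hval i' hi'.le j hjD
    have h3 : evj X n D f i' ≠ 0 := by
      intro h3
      rw [h3, map_zero, coeff_zero] at hne
      exact hne rfl
    have h4 : (taylor Y (evj X n D f i')).coeff j ≠ 0 := by
      intro h4
      rw [taylor_coeff] at h4 hne
      have h5 : hasseDeriv j (evj X n D f i') = 0 := by
        by_contra h5
        exact hTL.eval_ne (PI_mono (le_algc E) (hasse_mem_PI (hevE i') j)) h5 h4
      rw [h5, eval_zero] at hne
      exact hne rfl
    rw [h2.2]
    have h5 := hTL.strict (PI_mono (le_algc E) (hevE i')) h3 hj h4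
    rw [mul_zero, sub_zero] at h5
    refine lt_of_le_of_lt ?_ h5
    exact hlow i' hi' (hTL.eval_ne (PI_mono (le_algc E) (hevE i')) h3)
  -- the target
  set T : ℝ := v ((evj X n D f 0).eval Y) + i * (b * v (X n)) with hT
  have htot : Gt v T ((taylor (X L) G).coeff (P * i)) := by
    refine Gt.of_ge (bot_jet h0 (hXn L) (hvX L) hGm (P * i)) ?_
    rw [hGv, hT]
    have h2 : ((P * i : ℕ) : ℝ) * v (X L) = i * v (X n) := by
      rw [hvL]
      push_cast
      ring
    rw [h2]
    have h3 : (1 : ℝ) ≤ i := by exact_mod_cast hi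
    have h4 : (0 : ℝ) ≤ b := Nat.cast_nonneg b
    have h5 := hvX n
    have h6 : (i : ℝ) * v (X n) < 0 := by nlinarith
    have h7 : (i : ℝ) * (b * v (X n)) ≤ 0 := by nlinarith
    linarith
  have hsum : Gt v T ((taylor (X L) G).coeff (P * i) - (evj X n D f i).eval e) := by
    rw [hGt, finsetSum_coeff]
    have h2 : ∀ j, ((taylor (C e) Hp).coeff j * η ^ j).coeff (P * i) =
        ∑ x ∈ Finset.HasAntidiagonal.antidiagonal (P * i), ((taylor (C e) Hp).coeff j).coeff x.1 *
          (η ^ j).coeff x.2 := fun j => coeff_mul _ _ _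
    obtain ⟨D', rfl⟩ : ∃ D', D = D' + 1 := ⟨D - 1, by omega⟩
    rw [Finset.sum_range_succ']
    have h3 : ((taylor (C e) Hp).coeff 0 * η ^ 0).coeff (P * i) =
        (evj X n (D' + 1) f i).eval e := by
      rw [pow_zero, mul_one, hco, taylor_coeff_zero]
    rw [h3, add_sub_cancel_right]
    refine Gt.sum _ _ fun j hj => ?_
    have hj' := Finset.mem_range.1 hj
    rw [h2]
    refine Gt.sum _ _ fun x hx => ?_
    have h4 := Finset.HasAntidiagonal.mem_antidiagonal.1 hx
    by_cases hx1 : P ∣ x.1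
    · obtain ⟨i', hi'⟩ := hx1
      rcases lt_or_ge i' i with h5 | h5
      · rw [hi', hco]
        have h6 := (hlowj i' h5 (j + 1) (by omega) (by omega)).mul_ge
          (eta_pow hηs (j + 1) x.2)
        refine h6.mono (le_of_eq ?_)
        rw [hT]
        have h7 : (x.2 : ℝ) = P * i - P * i' := by
          have h8 : P * i' + x.2 = P * i := by rw [← hi']; exact h4
          have : (P : ℝ) * i' + x.2 = P * i := by exact_mod_cast h8
          linarith
        rw [h7, hvL]
        ring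
      · have h6 : P * i ≤ P * i' := Nat.mul_le_mul_left _ h5
        have h7 : x.2 = 0 := by omega
        rw [h7, hηj _ (by omega), mul_zero]
        exact Gt.zero
    · rw [hco0 _ _ hx1, zero_mul]
      exact Gt.zero
  have hfin : Gt v T ((evj X n D f i).eval e) := by
    have := htot.sub hsum
    rwa [sub_sub_cancel] at this
  intro hne
  have h2 := hval0 i le_rfl
  rw [← h2.2]
  exact hfin (h2.1 hne)

end P

/-! ### Fractions -/

theorem exists_frac {x y a : Ω} (ha : a ∈ IntermediateField.adjoin k ({x, y} : Set Ω)) :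
    ∃ P Q : Polynomial (Polynomial Ω), PII (⊥ : IntermediateField k Ω) P ∧
      PII (⊥ : IntermediateField k Ω) Q ∧ Q.evalEval x y ≠ 0 ∧
      a * Q.evalEval x y = P.evalEval x y := by
  have hring : ∀ r ∈ Algebra.adjoin k ({x, y} : Set Ω), ∃ P ∈ PIIs (⊥ : IntermediateField k Ω),
      P.evalEval x y = r := by
    intro r hr
    induction hr using Algebra.adjoin_induction with
    | mem r hr =>
      rcases hr with rfl | hr
      · exact ⟨C Polynomial.X, C_mem_PIIs X_mem_PI, by rw [evalEval_C, eval_X]⟩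
      · rw [Set.mem_singleton_iff] at hr
        subst hr
        refine ⟨Polynomial.X, fun j => ?_, by rw [evalEval_X]⟩
        rw [coeff_X]
        split_ifs
        exacts [one_mem _, zero_mem _]
    | algebraMap r =>
      exact ⟨C (C (algebraMap k Ω r)), C_mem_PIIs (C_mem_PI (IntermediateField.algebraMap_mem _ r)),
        by rw [evalEval_C, eval_C]⟩
    | add r s _ _ h1 h2 =>
      obtain ⟨P, hP, rfl⟩ := h1
      obtain ⟨Q, hQ, rfl⟩ := h2
      exact ⟨P + Q, add_mem hP hQ, by rw [evalEval_add]⟩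
    | mul r s _ _ h1 h2 =>
      obtain ⟨P, hP, rfl⟩ := h1
      obtain ⟨Q, hQ, rfl⟩ := h2
      exact ⟨P * Q, mul_mem hP hQ, by rw [evalEval_mul]⟩
  obtain ⟨r, hr, s, hs, rfl⟩ := IntermediateField.mem_adjoin_iff_div.1 ha
  by_cases hs0 : s = 0
  · exact ⟨0, 1, (PIIs _).zero_mem, (PIIs _).one_mem, by simp, by simp [hs0]⟩
  obtain ⟨P, hP, rfl⟩ := hring r hr
  obtain ⟨Q, hQ, rfl⟩ := hring s hs
  exact ⟨P, Q, hP, hQ, hs0, by field_simp⟩

/-- The elements of `cadj v (cadj v ⊥ x) y`. -/
theorem CP_le (x y : Ω) : cadj v (cadj v (⊥ : IntermediateField k Ω) x) y ≤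
    clI v (IntermediateField.adjoin k ({x, y} : Set Ω)) := by
  refine cadj_le (cld_clI v _) (cadj_le (cld_clI v _) bot_le ?_) ?_
  · exact self_le_clI v _ (IntermediateField.subset_adjoin k _ (Or.inl rfl))
  · exact self_le_clI v _ (IntermediateField.subset_adjoin k _ (Or.inr rfl))

section P

variable {p : ℕ} [hp : Fact p.Prime] [CharP k p] [CharP Ω p] {X : ℕ → Ω} {b : ℕ} {y : Ω}
  {C : IntermediateField k Ω}

theorem map_eval_eq_swap (P : Polynomial (Polynomial Ω)) (Y : Ω) :
    P.map (evalRingHom Y) = (Bivariate.swap P).eval (Polynomial.C Y) := by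
  ext i
  rw [coeff_map, coe_evalRingHom, eval_eq_sum_range (p := Bivariate.swap P), finsetSum_coeff,
    eval_eq_sum_range' (p := P.coeff i) (n := max ((P.coeff i).natDegree + 1)
      ((Bivariate.swap P).natDegree + 1)) (by omega)]
  have h1 : ∑ l ∈ Finset.range ((Bivariate.swap P).natDegree + 1),
      ((Bivariate.swap P).coeff l * Polynomial.C Y ^ l).coeff i =
      ∑ l ∈ Finset.range (max ((P.coeff i).natDegree + 1) ((Bivariate.swap P).natDegree + 1)),
      ((Bivariate.swap P).coeff l * Polynomial.C Y ^ l).coeff i := by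
    refine Finset.sum_subset (Finset.range_subset_range.2 (le_max_right _ _)) fun l _ hl => ?_
    rw [coeff_eq_zero_of_natDegree_lt (p := Bivariate.swap P) (by
      rw [Finset.mem_range] at hl; omega), zero_mul, coeff_zero]
  rw [h1]
  refine Finset.sum_congr rfl fun l _ => ?_
  rw [← C_pow, coeff_mul_C, coeff_swap]

/-- The jets of a bivariate polynomial. -/
theorem evj_swap (P : Polynomial (Polynomial Ω)) (Y : Ω) {D : ℕ}
    (hD : (Bivariate.swap P).natDegree < D) (i : ℕ) :
    (evj X 0 D (Bivariate.swap P).coeff i).eval Y =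
      (taylor (X 0) (P.map (evalRingHom Y))).coeff i := by
  rw [map_eval_eq_swap, eval_eq_sum_range' hD, map_sum, finsetSum_coeff, evj_eval]
  refine Finset.sum_congr rfl fun l _ => ?_
  rw [taylor_mul, ← C_pow, taylor_C, coeff_mul_C]

theorem strE_of_jet [IsAlgClosed Ω] (h0 : Ctx0 k v) (hr : ∀ n, X (n + 1) ^ p = X n)
    (hX : X 0 ≠ 0) (hv : v (X 0) < 0) {Y : Ω}
    (hTL : TL v (EW v (⊥ : IntermediateField k Ω) X) Y 0) (hY : Lm v (SW k X (b + 1) 0) Y)
    {P : Polynomial (Polynomial Ω)} (hP : PII (⊥ : IntermediateField k Ω) P)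
    (hP0 : P.map (evalRingHom Y) ≠ 0) :
    StrE v (X 0) (-(b * v (X 0))) (P.map (evalRingHom Y)) := by
  set S := Bivariate.swap P with hS
  set D := S.natDegree + 1 with hD
  have hS0 : S ≠ 0 := by
    intro h
    apply hP0
    rw [map_eval_eq_swap, ← hS, h, eval_zero]
  have hcoe : ∀ l, S.coeff l ∈ PI (⊥ : IntermediateField k Ω) := fun l => hP.swap l
  have h1 : ∀ i, (evj X 0 D S.coeff i).eval Y = (taylor (X 0) (P.map (evalRingHom Y))).coeff i :=
    fun i => evj_swap P Y (Nat.lt_succ_self _) i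
  have h2 : (evj X 0 D S.coeff 0) ∈ PI (EW v (⊥ : IntermediateField k Ω) X) := by
    refine sum_mem fun l _ => mul_mem (C_mem_PI ?_) (pow_mem X_mem_PI l)
    exact coeff_taylor_mem (PI_mono bot_le (hcoe l)) (EW.mem 0) 0
  have h3 : (evj X 0 D S.coeff 0) ≠ 0 := by
    intro h3
    have h4 := congrArg (fun g => g.coeff S.natDegree) h3
    simp only [evj, finsetSum_coeff, coeff_C_mul_X_pow, coeff_zero] at h4
    rw [Finset.sum_eq_single S.natDegree] at h4
    · rw [if_pos rfl, taylor_coeff_zero] at h4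
      exact (bot_lead h0 hX hv (hcoe _) (by
        rw [coeff_natDegree]
        exact leadingCoeff_ne_zero.2 hS0)).1 h4
    · intro l _ hl
      rw [if_neg (Ne.symm hl)]
    · intro h5
      exact absurd (Finset.mem_range.2 (by omega)) h5
  have h4 : (evj X 0 D S.coeff 0).eval Y ≠ 0 := hTL.eval_ne (PI_mono (le_algc _) h2) h3
  have h5 : (P.map (evalRingHom Y)).eval (X 0) = (evj X 0 D S.coeff 0).eval Y := by
    rw [h1, taylor_coeff_zero]
  refine ⟨by rw [h5]; exact h4, fun i hi hne => ?_⟩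
  rw [← h1] at hne ⊢
  have h6 := jetO h0 hr hX hv hTL hY 0 D S.coeff hcoe h4 i hi hne
  rw [h5]
  linarith

/-- **Far.** -/
theorem far_X [IsAlgClosed Ω] (h0 : Ctx0 k v) (hP : PR p v C X y (b + 1)) (n : ℕ) :
    ¬ Nr' v C (-(b * v (X (n + 1)))) (X (n + 1)) := by
  rintro ⟨c, hc, hgt⟩
  have hp0 : (0 : ℝ) < p := by exact_mod_cast hp.out.pos
  have hr := hP.root
  have hXn : ∀ n, X n ≠ 0 := root_ne_zero hr hP.ne
  set q := p ^ (n + 1) with hq
  have hq2 : 1 < q := Nat.one_lt_pow (by omega) hp.out.one_lt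
  have hXq : X (n + 1) ^ q = X 0 := by
    have := root_pow_add hr 0 (n + 1)
    rwa [zero_add] at this
  set r : ℝ := -(b * v (X (n + 1))) with hrr
  have hc' : c ∈ clI v (IntermediateField.adjoin k ({X 0, y} : Set Ω)) :=
    CP_le _ _ (hP.eq ▸ hc)
  obtain ⟨a, ha, ha'⟩ := mem_clI.1 hc' (r + 1)
  -- a near element of `k(X 0, y)`, different from `X (n + 1)`
  obtain ⟨a, ha, hne, hav⟩ : ∃ a ∈ IntermediateField.adjoin k ({X 0, y} : Set Ω),
      X (n + 1) - a ≠ 0 ∧ r < v (X (n + 1) - a) := by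
    have h1 : Gt v r (X (n + 1) - a) := by
      have h2 := hgt.add (Gt.of_ge ha' (by linarith : r < r + 1))
      rwa [sub_add_sub_cancel] at h2
    by_cases h2 : X (n + 1) - a = 0
    · obtain ⟨N, hN⟩ := exists_nat_gt (r / -v (X 0))
      have hneg : 0 < -v (X 0) := by linarith [hP.neg]
      rw [div_lt_iff₀ hneg] at hN
      have h3 : (X 0 ^ N)⁻¹ ≠ 0 := inv_ne_zero (pow_ne_zero _ hP.ne)
      have hX0 : X 0 ∈ IntermediateField.adjoin k ({X 0, y} : Set Ω) :=
        IntermediateField.subset_adjoin k _ (Or.inl rfl)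
      refine ⟨a - (X 0 ^ N)⁻¹, sub_mem ha (inv_mem (pow_mem hX0 N)), ?_, ?_⟩
      · rw [← sub_add, h2, zero_add]
        exact h3
      · rw [← sub_add, h2, zero_add, v.map_inv (pow_ne_zero _ hP.ne), v.map_pow hP.ne]
        linarith
    · exact ⟨a, ha, h2, h1 h2⟩
  obtain ⟨P, Q, hPP, hQQ, hQ0, hPQ⟩ := exists_frac ha
  set D := max P.natDegree Q.natDegree + 1 with hD
  set f : ℕ → Polynomial Ω := fun l => expand Ω q (Q.coeff l) * Polynomial.X -
    expand Ω q (P.coeff l) with hf
  have hfm : ∀ l, f l ∈ PI (⊥ : IntermediateField k Ω) := fun l =>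
    sub_mem (mul_mem (expand_mem_PI (by omega) (hQQ l)) X_mem_PI)
      (expand_mem_PI (by omega) (hPP l))
  have hev : ∀ R : Polynomial (Polynomial Ω), R.natDegree < D →
      R.evalEval (X 0) y = ∑ l ∈ Finset.range D, (R.coeff l).eval (X 0) * y ^ l := by
    intro R hR
    rw [evalEval, eval_eq_sum_range' hR, eval_finsetSum]
    refine Finset.sum_congr rfl fun l _ => ?_
    rw [eval_mul, eval_pow, eval_C]
  have h00 : (evj X (n + 1) D f 0).eval y = Q.evalEval (X 0) y * (X (n + 1) - a) := by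
    rw [mul_sub, mul_comm _ a, hPQ, hev P (by omega), hev Q (by omega), evj_eval, Finset.sum_mul,
      ← Finset.sum_sub_distrib]
    refine Finset.sum_congr rfl fun l _ => ?_
    rw [taylor_coeff_zero, hf]
    simp only [eval_sub, eval_mul, eval_X, expand_eval, hXq]
    ring
  have h11 : (evj X (n + 1) D f 1).eval y = Q.evalEval (X 0) y := by
    rw [hev Q (by omega), evj_eval]
    refine Finset.sum_congr rfl fun l _ => ?_
    congr 1
    have h1 : ∀ R : Polynomial Ω, (taylor (X (n + 1)) (expand Ω q R)).coeff 1 = 0 := by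
      intro R
      rw [hq, taylor_expand_pow, coeff_expand (by omega), if_neg]
      intro h2
      have := Nat.le_of_dvd one_pos h2
      omega
    rw [hf]
    simp only [map_sub, taylor_mul, coeff_sub, h1, sub_zero, taylor_X]
    rw [mul_add, coeff_add, coeff_mul_X, coeff_mul_C, h1, zero_mul, add_zero, taylor_coeff_zero,
      expand_eval, hXq]
  have hne0 : (evj X (n + 1) D f 0).eval y ≠ 0 := by
    rw [h00]
    exact mul_ne_zero hQ0 hne
  have hY : Lm v (SW k X (b + 1) 0) y := by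
    intro ε hε
    obtain ⟨s, hs, h1⟩ := hP.ltr ε hε
    refine ⟨s, Submodule.span_mono ?_ hs, h1⟩
    rintro _ ⟨n, i, -, hi, rfl⟩
    exact ⟨n, i, Nat.zero_le _, hi, rfl⟩
  have h1 := jetO h0 hr hP.ne hP.neg hP.tl hY (n + 1) D f hfm hne0 1 le_rfl
    (by rw [h11]; exact hQ0)
  rw [h11, h00, v.map_mul hQ0 hne, Nat.cast_one, one_mul] at h1
  rw [hrr] at hav
  linarith

end P

end Pool.Agent.TWC.PF
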