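import Mathlib

/-!
# TANK W, class C: tight elements of level 0, the linear algebra (3188, (2)-(4))

`k` is a perfect field of characteristic `p`, `ι` is finite (the alphabet). `S` is the shift with the
Frobenius of the sequences `ℕ → ι → k`; `U` a `k`-subspace stable under `S`.

* `LA.exists_stab`: some `J` such that every `e ∈ U` with `e m = 0` for `m < J` has all its twisted
  shifts to the right in `U`, up to any order;
* `LA.exists_rel`: a nontrivial combination of the `S ^ i c` with `J` zeros in front;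
* `LA.main`: the two together.
-/

set_option autoImplicit false

namespace Pool.Agent.TWC.LA

variable {k : Type*} [Field k] {ι : Type*}

/-- The shift, with the Frobenius. -/
def S (p : ℕ) (c : ℕ → ι → k) : ℕ → ι → k := fun m b => c (m + 1) b ^ p

theorem S_iter (p : ℕ) (i : ℕ) (c : ℕ → ι → k) (m : ℕ) (b : ι) :
    (S p)^[i] c m b = c (m + i) b ^ p ^ i := by
  induction i generalizing m with
  | zero => simp
  | succ i ih =>
    rw [Function.iterate_succ_apply']
    change ((S p)^[i] c (m + 1) b) ^ p = _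
    rw [ih, ← pow_mul, ← pow_succ, add_right_comm, add_assoc]

variable (p : ℕ) [hp : Fact p.Prime] [CharP k p] [PerfectRing k p]

omit [PerfectRing k p] in
theorem S_add (c d : ℕ → ι → k) : S p (c + d) = S p c + S p d := by
  funext m b
  exact add_pow_char _ _ _

omit hp [CharP k p] [PerfectRing k p] in
theorem S_smul (a : k) (c : ℕ → ι → k) : S p (a • c) = (a ^ p) • S p c := by
  funext m b
  exact mul_pow _ _ _

/-- The letters of order `m` of the elements of `U` with zeros before, after `m` Frobenius. -/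
def M (U : Submodule k (ℕ → ι → k)) (m : ℕ) : Submodule k (ι → k) where
  carrier := {w | ∃ u ∈ U, (∀ i < m, u i = 0) ∧ ∀ b, u m b ^ p ^ m = w b}
  add_mem' := by
    rintro _ _ ⟨u, hu, h1, h2⟩ ⟨u', hu', h1', h2'⟩
    refine ⟨u + u', add_mem hu hu', fun i hi => ?_, fun b => ?_⟩
    · rw [Pi.add_apply, h1 i hi, h1' i hi, add_zero]
    · rw [Pi.add_apply, Pi.add_apply, add_pow_char_pow, h2, h2']
      rfl
  zero_mem' := ⟨0, zero_mem U, fun _ _ => rfl, fun b => by
    change (0 : k) ^ p ^ m = 0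
    exact zero_pow (pow_ne_zero _ hp.out.ne_zero)⟩
  smul_mem' := by
    rintro a w ⟨u, hu, h1, h2⟩
    obtain ⟨a', ha'⟩ := (iterateFrobeniusEquiv k p m).surjective a
    rw [iterateFrobeniusEquiv_def] at ha'
    refine ⟨a' • u, U.smul_mem a' hu, fun i hi => ?_, fun b => ?_⟩
    · rw [Pi.smul_apply, h1 i hi, smul_zero]
    · rw [Pi.smul_apply, Pi.smul_apply, smul_eq_mul, mul_pow, h2, ha']
      rfl

variable {p}

theorem mem_M {U : Submodule k (ℕ → ι → k)} {m : ℕ} {w : ι → k} :
    w ∈ M p U m ↔ ∃ u ∈ U, (∀ i < m, u i = 0) ∧ ∀ b, u m b ^ p ^ m = w b := Iff.rfl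

theorem M_succ {U : Submodule k (ℕ → ι → k)} (hS : ∀ u ∈ U, S p u ∈ U) (m : ℕ) :
    M p U (m + 1) ≤ M p U m := by
  rintro w ⟨u, hu, h1, h2⟩
  refine ⟨S p u, hS u hu, fun i hi => ?_, fun b => ?_⟩
  · funext b
    change u (i + 1) b ^ p = 0
    rw [h1 (i + 1) (by omega)]
    exact zero_pow hp.out.ne_zero
  · change (u (m + 1) b ^ p) ^ p ^ m = w b
    rw [← pow_mul, ← pow_succ', h2]

omit hp [CharP k p] [PerfectRing k p] in
theorem iter_mem {U : Submodule k (ℕ → ι → k)} (hS : ∀ u ∈ U, S p u ∈ U) {u : ℕ → ι → k}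
    (hu : u ∈ U) (i : ℕ) : (S p)^[i] u ∈ U := by
  induction i with
  | zero => exact hu
  | succ i ih =>
    rw [Function.iterate_succ_apply']
    exact hS _ ih

/-- **The stable range.** -/
theorem exists_stab [Finite ι] {U : Submodule k (ℕ → ι → k)} (hS : ∀ u ∈ U, S p u ∈ U) :
    ∃ J : ℕ, ∀ e ∈ U, (∀ m < J, e m = 0) → ∀ j n : ℕ, ∃ w ∈ U, (∀ i < j, w i = 0) ∧
      ∀ m < n, ∀ b, w (j + m) b ^ p ^ j = e m b := by
  have hanti : Antitone (M p U) := antitone_nat_of_succ_le (M_succ hS)
  obtain ⟨J, hJ⟩ := IsArtinian.monotone_stabilizes (R := k) (M := ι → k)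
    ⟨fun m => OrderDual.toDual (M p U m), fun a b hab => hanti hab⟩
  have hJ' : ∀ m, J ≤ m → M p U J = M p U m := fun m hm => hJ m hm
  refine ⟨J, fun e he he0 j n => ?_⟩
  have hinj : ∀ (N : ℕ) (a b : k), a ^ p ^ N = b ^ p ^ N → a = b := fun N a b hab =>
    iterateFrobenius_inj k p N (by rw [iterateFrobenius_def, iterateFrobenius_def, hab])
  induction n with
  | zero => exact ⟨0, zero_mem U, fun _ _ => rfl, fun m hm => absurd hm (by omega)⟩
  | succ n ih =>
    rcases le_or_gt (n + 1) J with hn | hn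
    · refine ⟨0, zero_mem U, fun _ _ => rfl, fun m hm b => ?_⟩
      rw [he0 m (by omega)]
      exact zero_pow (pow_ne_zero _ hp.out.ne_zero)
    obtain ⟨w, hw, h1, h2⟩ := ih
    -- the defect
    set d : ℕ → ι → k := (S p)^[j] w - e with hd
    have hdU : d ∈ U := sub_mem (iter_mem hS hw j) he
    have hd0 : ∀ i < n, d i = 0 := by
      intro i hi
      funext b
      rw [hd, Pi.sub_apply, Pi.sub_apply, S_iter, Pi.zero_apply, add_comm i j, h2 i hi, sub_self]
    have hdM : (fun b => d n b ^ p ^ n) ∈ M p U (j + n) := by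
      rw [← hJ' (j + n) (by omega), hJ' n (by omega)]
      exact ⟨d, hdU, hd0, fun b => rfl⟩
    obtain ⟨u, hu, h3, h4⟩ := mem_M.1 hdM
    have h5 : ∀ b, u (j + n) b ^ p ^ j = d n b := fun b => by
      refine hinj n _ _ ?_
      rw [← pow_mul, ← pow_add, h4]
    refine ⟨w - u, sub_mem hw hu, fun i hi => ?_, fun m hm b => ?_⟩
    · rw [Pi.sub_apply, h1 i hi, h3 i (by omega), sub_zero]
    · rw [Pi.sub_apply, Pi.sub_apply]
      rcases Nat.lt_succ_iff_lt_or_eq.1 hm with hm | rfl
      · rw [h3 (j + m) (by omega), Pi.zero_apply, sub_zero, h2 m hm]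
      · rw [sub_pow_char_pow, h5, hd, Pi.sub_apply, Pi.sub_apply, S_iter, add_comm m j]
        ring

/-- A combination of the `S ^ i c` with zeros in front. -/
theorem exists_rel (p : ℕ) [Finite ι] (c : ℕ → ι → k) (J : ℕ) :
    ∃ (N : ℕ) (α : ℕ → k), (∃ i < N, α i ≠ 0) ∧
      ∀ m < J, (∑ i ∈ Finset.range N, α i • (S p)^[i] c) m = 0 := by
  have := Fintype.ofFinite ι
  set N : ℕ := J * Fintype.card ι + 1 with hN
  set f : Fin N → (Fin J → ι → k) := fun i m => (S p)^[(i : ℕ)] c m with hf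
  have h1 : ¬ LinearIndependent k f := by
    intro h2
    have h3 := h2.fintype_card_le_finrank
    rw [Module.finrank_pi_fintype] at h3
    simp only [Module.finrank_fintype_fun_eq_card, Finset.sum_const, Finset.card_univ,
      Fintype.card_fin, smul_eq_mul] at h3
    omega
  rw [Fintype.not_linearIndependent_iff] at h1
  obtain ⟨g, h2, i, hi⟩ := h1
  refine ⟨N, fun i => if h : i < N then g ⟨i, h⟩ else 0, ⟨i, i.2, by simpa using hi⟩,
    fun m hm => ?_⟩
  have h3 := congrFun h2 ⟨m, hm⟩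
  rw [Finset.sum_apply] at h3 ⊢
  rw [Finset.sum_range]
  simpa [hf] using h3

/-- **The linear algebra of 3188.** -/
theorem main [Finite ι] (c : ℕ → ι → k) : ∃ (N : ℕ) (α : ℕ → k), (∃ i < N, α i ≠ 0) ∧
    ∀ j n : ℕ, ∃ w ∈ Submodule.span k (Set.range fun i => (S p)^[i] c), (∀ i < j, w i = 0) ∧
      ∀ m < n, ∀ b, w (j + m) b ^ p ^ j = (∑ i ∈ Finset.range N, α i • (S p)^[i] c) m b := by
  set U := Submodule.span k (Set.range fun i => (S p)^[i] c) with hU
  have hS : ∀ u ∈ U, S p u ∈ U := by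
    intro u hu
    induction hu using Submodule.span_induction with
    | mem u hu =>
      obtain ⟨i, rfl⟩ := hu
      refine Submodule.subset_span ⟨i + 1, ?_⟩
      exact Function.iterate_succ_apply' _ _ _
    | zero =>
      have : S p (0 : ℕ → ι → k) = 0 := by
        funext m b
        exact zero_pow hp.out.ne_zero
      rw [this]
      exact zero_mem _
    | add x y _ _ hx hy =>
      rw [S_add]
      exact add_mem hx hy
    | smul a x _ hx =>
      rw [S_smul]
      exact Submodule.smul_mem _ _ hx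
  obtain ⟨J, hJ⟩ := exists_stab hS
  obtain ⟨N, α, hα, h0⟩ := exists_rel p c J
  exact ⟨N, α, hα, fun j n => hJ _ (sum_mem fun i _ => Submodule.smul_mem _ _
    (Submodule.subset_span ⟨i, rfl⟩)) h0 j n⟩

end Pool.Agent.TWC.LA
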