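import Pool.Agent.Lib.TWM.NNx
import Pool.Agent.Lib.TWC.TightLA
import Pool.Agent.Lib.TWC.EW

/-!
# TANK W, class C: tight elements of level 0, the letters (part (X) of row R3 of note 3188)

`u 0` has a positive value, `u (n + 1) ^ p = u n`; `y` is at distance `≥ -(B / p ^ i)` of
`cadj v ⊥ (u i)` for every `i`. Then some `P(y) - n`, `P` an additive polynomial over `k` and
`n ∈ cadj v ⊥ (u 0)`, has all its roots of order `p ^ m` at distance `0` of `cadj v N y`.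
-/

set_option autoImplicit false
set_option linter.unusedSectionVars false

open Polynomial

namespace Pool.Agent.TWC

open Pool.Agent.H15JM (RVal)
open Pool.Agent.LU1 (VPos adj)
open Pool.Agent.D2 (Ctx0)
open Pool.Agent.D2P (hen clI mem_clI)
open Pool.Agent.TWM
open Pool.Agent.TW (mx)

universe u

variable {k Ω : Type u} [Field k] [Field Ω] [Algebra k Ω] {v : RVal Ω}

theorem cadj_bot_le_NN (z : Ω) :
    cadj v (⊥ : IntermediateField k Ω) z ≤ NN k v (fun _ : Fin 1 => z) := by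
  refine clI_mono' ?_
  refine sup_le bot_le ?_
  refine IntermediateField.adjoin_le_iff.2 ?_
  rintro _ rfl
  exact IntermediateField.subset_adjoin k _ ⟨0, rfl⟩

/-- **The polar part** of an element of the closure of `k(z)`. -/
theorem exists_polar (h0 : Ctx0 k v) {z f : Ω} (hz0 : z ≠ 0) (hz : 0 < v z) (A : ℕ)
    (hf : f ∈ cadj v (⊥ : IntermediateField k Ω) z) (hA : v.Ge (-(A * v z)) f) :
    ∃ s : Fin (A + 1) → k, v.Ge 0 (f - ∑ b, algebraMap k Ω (s b) * z⁻¹ ^ (b : ℕ)) := by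
  classical
  set x : Fin 1 → Ω := fun _ => z with hx
  have hx0 : ∀ i, x i ≠ 0 := fun _ => hz0
  have hind : LinearIndependent ℚ fun i => v (x i) := by
    rw [linearIndependent_unique_iff]
    exact hz.ne'
  have hM := MS_MM hx0 hind
  have hMz : ∀ b : ℕ, TWM.MM v x (-(b * v z)) = z⁻¹ ^ b := by
    intro b
    have h1 : vl v x (fun _ => -(b : ℤ)) = -(b * v z) := by
      rw [vl_apply]
      simp [hx]
    rw [← h1, MM_vl hind, mx]
    simp [hx]
  have hG : ∀ b : ℕ, -(b * v z) ∈ GG v x := by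
    intro b
    refine ⟨fun _ => -(b : ℤ), ?_⟩
    rw [vl_apply]
    simp [hx]
  obtain ⟨L, hL, h1⟩ := NN_dense h0 hx0 hind f (cadj_bot_le_NN z hf) 0
  set s : Fin (A + 1) → k := fun b => L (-((b : ℕ) * v z)) with hs
  set L₁ : ℝ →₀ k := ∑ b : Fin (A + 1), Finsupp.single (-(((b : ℕ) : ℝ) * v z)) (s b) with hL₁
  have h2 : evL (TWM.MM v x) L₁ = ∑ b, algebraMap k Ω (s b) * z⁻¹ ^ (b : ℕ) := by
    have h3 : ∀ t : Finset (Fin (A + 1)), evL (TWM.MM v x) (∑ b ∈ t,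
        Finsupp.single (-(((b : ℕ) : ℝ) * v z)) (s b)) =
        ∑ b ∈ t, algebraMap k Ω (s b) * z⁻¹ ^ (b : ℕ) := by
      intro t
      induction t using Finset.induction_on with
      | empty => simp [evL_zero]
      | insert a t ha ih => rw [Finset.sum_insert ha, Finset.sum_insert ha, evL_add, ih,
          evL_single, hMz]
    exact h3 _
  have hL₁G : InG (GG v x) L₁ := by
    intro g hg
    rw [hL₁, Finsupp.finset_sum_apply] at hg
    obtain ⟨b, -, hb⟩ := Finset.exists_ne_zero_of_sum_ne_zero hg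
    rw [Finsupp.single_apply] at hb
    split_ifs at hb with h3
    · rw [← h3]; exact hG b
    · exact absurd rfl hb
  have hL₁v : ∀ b : Fin (A + 1), L₁ (-(((b : ℕ) : ℝ) * v z)) = s b := by
    intro b
    rw [hL₁, Finsupp.finset_sum_apply, Finset.sum_eq_single b]
    · rw [Finsupp.single_eq_same]
    · intro b' _ hb'
      rw [Finsupp.single_apply, if_neg]
      intro h3
      have h4 : (((b' : ℕ) : ℝ) - (b : ℕ)) * v z = 0 := by linarith
      rcases mul_eq_zero.1 h4 with h5 | h5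
      · refine hb' (Fin.ext ?_)
        exact_mod_cast sub_eq_zero.1 h5
      · exact hz.ne' h5
    · intro h3; exact absurd (Finset.mem_univ b) h3
  have h3 : v.Ge (-(A * v z)) (evL (TWM.MM v x) (L - L₁)) := by
    rw [evL_sub]
    have h4 : evL (TWM.MM v x) L - evL (TWM.MM v x) L₁ = (f - evL (TWM.MM v x) L₁) - (f - evL (TWM.MM v x) L) := by
      ring
    rw [h4]
    have hneg : -((A : ℝ) * v z) ≤ 0 := by
      have : (0 : ℝ) ≤ A * v z := by positivity
      linarith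
    refine RVal.Ge.sub (RVal.Ge.sub hA ?_) (h1.mono hneg)
    refine evL_ge h0 hM hL₁G fun g hg => ?_
    rw [hL₁, Finsupp.finset_sum_apply] at hg
    obtain ⟨b, -, hb⟩ := Finset.exists_ne_zero_of_sum_ne_zero hg
    rw [Finsupp.single_apply] at hb
    split_ifs at hb with h5
    · rw [← h5]
      have h6 : ((b : ℕ) : ℝ) ≤ A := by exact_mod_cast Nat.lt_succ_iff.1 b.2
      have := mul_le_mul_of_nonneg_right h6 hz.le
      linarith
    · exact absurd rfl hb
  refine ⟨s, ?_⟩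
  have h4 : f - ∑ b, algebraMap k Ω (s b) * z⁻¹ ^ (b : ℕ) =
      (f - evL (TWM.MM v x) L) + evL (TWM.MM v x) (L - L₁) := by
    rw [evL_sub, ← h2]; ring
  rw [h4]
  refine h1.add (evL_ge h0 hM (hL.sub hL₁G) fun g hg => ?_)
  by_contra hg0
  rw [not_le] at hg0
  have hgG := (hL.sub hL₁G) g hg
  have hgA : -(A * v z) ≤ g := by
    by_contra h5
    exact hg (eq_zero_of_ge h0 hM (hL.sub hL₁G) h3 (not_le.1 h5))
  obtain ⟨l, rfl⟩ := hgG
  have h5 : vl v x l = (l 0 : ℝ) * v z := by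
    rw [vl_apply]
    simp [hx]
  rw [h5] at hg0 hgA hg
  have h6 : l 0 < 0 := by
    by_contra h7
    have : (0 : ℝ) ≤ (l 0 : ℝ) := by exact_mod_cast not_lt.1 h7
    have := mul_nonneg this hz.le
    linarith
  have h7 : -(A : ℤ) ≤ l 0 := by
    have h8 : (-(A : ℝ)) * v z ≤ (l 0 : ℝ) * v z := by linarith
    have h9 := le_of_mul_le_mul_right h8 hz
    exact_mod_cast h9
  obtain ⟨b, hb⟩ : ∃ b : Fin (A + 1), l 0 = -((b : ℕ) : ℤ) :=
    ⟨⟨(-(l 0)).toNat, by omega⟩, by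
      change l 0 = -(((-(l 0)).toNat : ℕ) : ℤ)
      omega⟩
  refine hg ?_
  have h8 : (l 0 : ℝ) * v z = -(((b : ℕ) : ℝ) * v z) := by
    rw [hb]; push_cast; ring
  rw [h8, Finsupp.sub_apply, hL₁v, sub_self]

/-! ### The letters -/

section L

variable (p : ℕ)

/-- `w` is a sequence of letters for `z`. -/
def Ltt (p : ℕ) (v : RVal Ω) (u : ℕ → Ω) (A : ℕ) (B : ℝ) (N : IntermediateField k Ω) (z : Ω)
    (w : ℕ → Fin (A + 1) → k) : Prop :=
  ∃ n ∈ N, ∀ m : ℕ, v.Ge (-(B / (p : ℝ) ^ m)) (z - n - ∑ i ∈ Finset.range m,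
    ∑ b, algebraMap k Ω (w i b) * (u (i + 1))⁻¹ ^ (b : ℕ))

variable {p} {u : ℕ → Ω} {A : ℕ} {B : ℝ} {N : IntermediateField k Ω} {z z' : Ω}
  {w w' : ℕ → Fin (A + 1) → k}

theorem Ltt.zero (hB : 0 ≤ B) : Ltt p v u A B N (0 : Ω) 0 := by
  refine ⟨0, zero_mem _, fun m => ?_⟩
  simp only [Pi.zero_apply, map_zero, zero_mul, Finset.sum_const_zero, sub_zero]
  exact RVal.Ge.zero

theorem Ltt.add (h : Ltt p v u A B N z w) (h' : Ltt p v u A B N z' w') :
    Ltt p v u A B N (z + z') (w + w') := by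
  obtain ⟨n, hn, h1⟩ := h
  obtain ⟨n', hn', h1'⟩ := h'
  refine ⟨n + n', add_mem hn hn', fun m => ?_⟩
  have h2 := (h1 m).add (h1' m)
  have h3 : z + z' - (n + n') - ∑ i ∈ Finset.range m, ∑ b, algebraMap k Ω ((w + w') i b) *
      (u (i + 1))⁻¹ ^ (b : ℕ) = (z - n - ∑ i ∈ Finset.range m, ∑ b, algebraMap k Ω (w i b) *
      (u (i + 1))⁻¹ ^ (b : ℕ)) + (z' - n' - ∑ i ∈ Finset.range m, ∑ b, algebraMap k Ω (w' i b) *
      (u (i + 1))⁻¹ ^ (b : ℕ)) := by
    simp only [Pi.add_apply, map_add, add_mul, Finset.sum_add_distrib]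
    ring
  rw [h3]
  exact h2

theorem Ltt.smul (h0 : Ctx0 k v) (a : k) (h : Ltt p v u A B N z w) :
    Ltt p v u A B N (algebraMap k Ω a * z) (a • w) := by
  obtain ⟨n, hn, h1⟩ := h
  refine ⟨algebraMap k Ω a * n, mul_mem (N.algebraMap_mem a) hn, fun m => ?_⟩
  have h2 := (h0.ge a).mul (h1 m)
  rw [zero_add] at h2
  have h3 : algebraMap k Ω a * z - algebraMap k Ω a * n - ∑ i ∈ Finset.range m, ∑ b,
      algebraMap k Ω ((a • w) i b) * (u (i + 1))⁻¹ ^ (b : ℕ) = algebraMap k Ω a * (z - n -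
      ∑ i ∈ Finset.range m, ∑ b, algebraMap k Ω (w i b) * (u (i + 1))⁻¹ ^ (b : ℕ)) := by
    simp only [Pi.smul_apply, smul_eq_mul, map_mul, mul_assoc, ← Finset.mul_sum]
    ring
  rw [h3]
  exact h2

theorem root_iter (hup : ∀ n, u (n + 1) ^ p = u n) (i j : ℕ) : u (i + j) ^ p ^ j = u i := by
  induction j with
  | zero => simp
  | succ j ih => rw [← add_assoc, pow_succ', pow_mul, hup, ih]

variable (hp : p.Prime) [CharP k p] [CharP Ω p]

include hp in
theorem Ltt.pow (hup : ∀ n, u (n + 1) ^ p = u n) (hu : u 0 ∈ N) (h : Ltt p v u A B N z w) :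
    Ltt p v u A B N (z ^ p) (LA.S p w) := by
  haveI := Fact.mk hp
  obtain ⟨n, hn, h1⟩ := h
  have hp0 : (0 : ℝ) < p := by exact_mod_cast hp.pos
  have hterm : ∀ i, (∑ b, algebraMap k Ω (w i b) * (u (i + 1))⁻¹ ^ (b : ℕ)) ^ p =
      ∑ b, algebraMap k Ω (w i b ^ p) * (u i)⁻¹ ^ (b : ℕ) := by
    intro i
    rw [sum_pow_char]
    refine Finset.sum_congr rfl fun b _ => ?_
    rw [mul_pow, map_pow, ← pow_mul, mul_comm (b : ℕ) p, pow_mul, inv_pow, hup]
  refine ⟨n ^ p + ∑ b, algebraMap k Ω (w 0 b ^ p) * (u 0)⁻¹ ^ (b : ℕ), add_mem (pow_mem hn _)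
    (sum_mem fun b _ => mul_mem (N.algebraMap_mem _) (pow_mem (inv_mem hu) _)), fun m => ?_⟩
  have h2 := ge_pow (h1 (m + 1)) p
  rw [sub_pow_char, sub_pow_char, sum_pow_char, Finset.sum_congr rfl fun i _ => hterm i,
    Finset.sum_range_succ'] at h2
  have h3 : (p : ℝ) * -(B / (p : ℝ) ^ (m + 1)) = -(B / (p : ℝ) ^ m) := by
    rw [pow_succ']
    field_simp
  rw [h3] at h2
  have h4 : z ^ p - (n ^ p + ∑ b, algebraMap k Ω (w 0 b ^ p) * (u 0)⁻¹ ^ (b : ℕ)) -
      ∑ i ∈ Finset.range m, ∑ b, algebraMap k Ω (LA.S p w i b) * (u (i + 1))⁻¹ ^ (b : ℕ) =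
      z ^ p - n ^ p - (∑ i ∈ Finset.range m, ∑ b, algebraMap k Ω (w (i + 1) b ^ p) *
      (u (i + 1))⁻¹ ^ (b : ℕ) + ∑ b, algebraMap k Ω (w 0 b ^ p) * (u 0)⁻¹ ^ (b : ℕ)) := by
    simp only [LA.S]
    ring
  rw [h4]
  exact h2

/-- Elements with the same letters, up to a root. -/
theorem Ltt.root (hp : p.Prime) (hup : ∀ n, u (n + 1) ^ p = u n) {e : ℕ → Fin (A + 1) → k}
    {n n' r : Ω} {j m : ℕ}
    (h1 : v.Ge (-(B / (p : ℝ) ^ m)) (z - n - ∑ i ∈ Finset.range m,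
      ∑ b, algebraMap k Ω (e i b) * (u (i + 1))⁻¹ ^ (b : ℕ)))
    (h2 : v.Ge (-(B / (p : ℝ) ^ (j + m))) (z' - n' - ∑ i ∈ Finset.range (j + m),
      ∑ b, algebraMap k Ω (w i b) * (u (i + 1))⁻¹ ^ (b : ℕ)))
    (hw0 : ∀ i < j, w i = 0) (hw : ∀ i < m, ∀ b, w (j + i) b ^ p ^ j = e i b)
    (hr : r ^ p ^ j = z - n) : v.Ge (-(B / (p : ℝ) ^ (j + m))) (r - (z' - n')) := by
  haveI := Fact.mk hp
  have hp0 : (0 : ℝ) < p := by exact_mod_cast hp.pos
  have hpj : (0 : ℝ) < (p ^ j : ℕ) := by exact_mod_cast pow_pos hp.pos j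
  have h3 : ∑ i ∈ Finset.range (j + m), ∑ b, algebraMap k Ω (w i b) * (u (i + 1))⁻¹ ^ (b : ℕ) =
      ∑ i ∈ Finset.range m, ∑ b, algebraMap k Ω (w (j + i) b) *
        (u (j + i + 1))⁻¹ ^ (b : ℕ) := by
    rw [Finset.sum_range_add, Finset.sum_eq_zero, zero_add]
    intro i hi
    rw [hw0 i (Finset.mem_range.1 hi)]
    simp
  have h4 : (∑ i ∈ Finset.range m, ∑ b, algebraMap k Ω (w (j + i) b) *
      (u (j + i + 1))⁻¹ ^ (b : ℕ)) ^ p ^ j = ∑ i ∈ Finset.range m,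
      ∑ b, algebraMap k Ω (e i b) * (u (i + 1))⁻¹ ^ (b : ℕ) := by
    rw [sum_pow_char_pow]
    refine Finset.sum_congr rfl fun i hi => ?_
    rw [sum_pow_char_pow]
    refine Finset.sum_congr rfl fun b _ => ?_
    rw [mul_pow, ← map_pow, hw i (Finset.mem_range.1 hi), ← pow_mul, mul_comm (b : ℕ), pow_mul,
      inv_pow, show j + i + 1 = (i + 1) + j by ring, root_iter hup]
  rw [h3] at h2
  have h5 := ge_pow h2 (p ^ j)
  rw [sub_pow_char_pow, h4] at h5
  have h6 : ((p ^ j : ℕ) : ℝ) * -(B / (p : ℝ) ^ (j + m)) = -(B / (p : ℝ) ^ m) := by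
    push_cast
    rw [pow_add]
    field_simp
  rw [h6] at h5
  have h7 := h1.sub h5
  have h8 : (z - n - ∑ i ∈ Finset.range m, ∑ b, algebraMap k Ω (e i b) *
      (u (i + 1))⁻¹ ^ (b : ℕ)) - ((z' - n') ^ p ^ j - ∑ i ∈ Finset.range m,
      ∑ b, algebraMap k Ω (e i b) * (u (i + 1))⁻¹ ^ (b : ℕ)) = (r - (z' - n')) ^ p ^ j := by
    rw [sub_pow_char_pow r, hr]
    ring
  rw [h8, ← h6] at h7
  intro h9
  have h10 := h7 (pow_ne_zero _ h9)
  rw [v.map_pow h9] at h10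
  exact le_of_mul_le_mul_left h10 hpj

end L

section X

variable (p : ℕ) [hp : Fact p.Prime] [CharP k p] [CharP Ω p] [PerfectRing k p]

/-- **The letters of `y`, and the polynomial** (part (X) of row R3). -/
theorem exists_poly (h0 : Ctx0 k v) {u : ℕ → Ω} (hu0 : u 0 ≠ 0) (hu1 : 0 < v (u 0))
    (hup : ∀ n, u (n + 1) ^ p = u n) {y : Ω} {B : ℝ} (hB : 0 ≤ B)
    (hg : ∀ i : ℕ, ∃ g ∈ cadj v (⊥ : IntermediateField k Ω) (u i),
      v.Ge (-(B / (p : ℝ) ^ i)) (y - g)) :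
    ∃ (M i₀ : ℕ) (P : ℕ → k) (n : Ω), i₀ < M ∧ (∀ i < i₀, P i = 0) ∧ P i₀ ≠ 0 ∧
      n ∈ cadj v (⊥ : IntermediateField k Ω) (u 0) ∧ ∀ r : ℕ → Ω, (∀ m, r (m + 1) ^ p = r m) →
        r 0 = ∑ i ∈ Finset.range M, algebraMap k Ω (P i) * y ^ p ^ i - n →
        ∀ m, Lim v (cadj v (cadj v (⊥ : IntermediateField k Ω) (u 0)) y) 0 (r m) := by
  classical
  have hp0 : (0 : ℝ) < p := by exact_mod_cast hp.out.pos
  set N := cadj v (⊥ : IntermediateField k Ω) (u 0) with hN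
  -- the roots
  have hun : ∀ i, u i ≠ 0 ∧ (p : ℝ) ^ i * v (u i) = v (u 0) := by
    intro i
    have h1 := root_iter hup 0 i
    rw [zero_add] at h1
    have h2 : u i ≠ 0 := by
      intro h3
      rw [h3, zero_pow (pow_pos hp.out.pos _).ne'] at h1
      exact hu0 h1.symm
    refine ⟨h2, ?_⟩
    rw [← h1, v.map_pow h2]
    push_cast
    ring
  have huv : ∀ i, 0 < v (u i) := fun i => by
    have h1 := (hun i).2
    have h2 : (0 : ℝ) < (p : ℝ) ^ i := pow_pos hp0 i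
    by_contra h3
    have := mul_nonpos_of_nonneg_of_nonpos h2.le (not_lt.1 h3)
    linarith
  choose g hgm hgv using hg
  have hmono : ∀ i, cadj v (⊥ : IntermediateField k Ω) (u i) ≤
      cadj v (⊥ : IntermediateField k Ω) (u (i + 1)) := by
    intro i
    refine cadj_le (cld_clI v _) bot_le ?_
    rw [← hup i]
    exact pow_mem (self_mem_cadj v _ _) p
  obtain ⟨A, hA⟩ := exists_nat_ge (p * B / v (u 0))
  rw [div_le_iff₀ hu1] at hA
  -- the letters of `y`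
  have hc : ∀ i, ∃ s : Fin (A + 1) → k, v.Ge 0 (g (i + 1) - g i -
      ∑ b, algebraMap k Ω (s b) * (u (i + 1))⁻¹ ^ (b : ℕ)) := by
    intro i
    refine exists_polar h0 (hun (i + 1)).1 (huv (i + 1)) A (sub_mem (hgm (i + 1))
      (hmono i (hgm i))) ?_
    have h1 : -(B / (p : ℝ) ^ i) ≤ -(B / (p : ℝ) ^ (i + 1)) := by
      refine neg_le_neg (div_le_div_of_nonneg_left hB (pow_pos hp0 i) ?_)
      exact pow_le_pow_right₀ (by exact_mod_cast hp.out.one_lt.le) (Nat.le_succ i)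
    have h2 := (hgv i).sub ((hgv (i + 1)).mono h1)
    rw [sub_sub_sub_cancel_left] at h2
    refine h2.mono ?_
    have h3 := (hun (i + 1)).2
    have h4 : (0 : ℝ) < (p : ℝ) ^ (i + 1) := pow_pos hp0 (i + 1)
    have h5 : (0 : ℝ) < (p : ℝ) ^ i := pow_pos hp0 i
    have h6 : B / (p : ℝ) ^ i = p * B / (p : ℝ) ^ (i + 1) := by
      rw [pow_succ']
      field_simp
    have h7 : (A : ℝ) * v (u (i + 1)) = A * v (u 0) / (p : ℝ) ^ (i + 1) := by
      rw [← h3]
      field_simp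
    rw [h6, h7]
    exact neg_le_neg (div_le_div_of_nonneg_right hA h4.le)
  choose c hc using hc
  have hy : Ltt p v u A B N y c := by
    refine ⟨g 0, hgm 0, fun m => ?_⟩
    have h1 : y - g 0 - ∑ i ∈ Finset.range m, ∑ b, algebraMap k Ω (c i b) *
        (u (i + 1))⁻¹ ^ (b : ℕ) = (y - g m) + ∑ i ∈ Finset.range m, (g (i + 1) - g i -
        ∑ b, algebraMap k Ω (c i b) * (u (i + 1))⁻¹ ^ (b : ℕ)) := by
      rw [Finset.sum_sub_distrib, Finset.sum_range_sub]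
      ring
    rw [h1]
    refine (hgv m).add ((RVal.Ge.sum (v := v) _ _ fun i _ => hc i).mono ?_)
    have : 0 ≤ B / (p : ℝ) ^ m := by positivity
    linarith
  have hyi : ∀ i, Ltt p v u A B N (y ^ p ^ i) ((LA.S p)^[i] c) := by
    intro i
    induction i with
    | zero => simpa using hy
    | succ i ih =>
      rw [Function.iterate_succ_apply', pow_succ, pow_mul]
      exact Ltt.pow hp.out hup (self_mem_cadj v _ _) ih
  obtain ⟨M, al, hal, hmain⟩ := LA.main (p := p) c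
  set e := ∑ i ∈ Finset.range M, al i • (LA.S p)^[i] c with he
  have hz : Ltt p v u A B N (∑ i ∈ Finset.range M, algebraMap k Ω (al i) * y ^ p ^ i) e := by
    have : ∀ t : Finset ℕ, Ltt p v u A B N (∑ i ∈ t, algebraMap k Ω (al i) * y ^ p ^ i)
        (∑ i ∈ t, al i • (LA.S p)^[i] c) := by
      intro t
      induction t using Finset.induction_on with
      | empty => exact Ltt.zero hB
      | insert a t ha ih =>
        rw [Finset.sum_insert ha, Finset.sum_insert ha]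
        exact Ltt.add (Ltt.smul h0 _ (hyi a)) ih
    exact this _
  have hspan : ∀ w ∈ Submodule.span k (Set.range fun i => (LA.S p)^[i] c),
      ∃ z ∈ cadj v N y, Ltt p v u A B N z w := by
    intro w hw
    induction hw using Submodule.span_induction with
    | mem w hw =>
      obtain ⟨i, rfl⟩ := hw
      exact ⟨y ^ p ^ i, pow_mem (self_mem_cadj v N y) _, hyi i⟩
    | zero => exact ⟨0, zero_mem _, Ltt.zero hB⟩
    | add w w' _ _ h1 h2 =>
      obtain ⟨z, hz, h3⟩ := h1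
      obtain ⟨z', hz', h4⟩ := h2
      exact ⟨z + z', add_mem hz hz', h3.add h4⟩
    | smul a w _ h1 =>
      obtain ⟨z, hz, h3⟩ := h1
      exact ⟨algebraMap k Ω a * z, mul_mem ((cadj v N y).algebraMap_mem a) hz, h3.smul h0 a⟩
  obtain ⟨n, hn, h1⟩ := hz
  have hex : ∃ i, al i ≠ 0 := ⟨hal.choose, hal.choose_spec.2⟩
  refine ⟨M, Nat.find hex, al, n, ?_, fun i hi => not_not.1 (Nat.find_min hex hi),
    Nat.find_spec hex, hn, fun r hr hr0 j ε hε => ?_⟩
  · exact (Nat.find_min' hex hal.choose_spec.2).trans_lt hal.choose_spec.1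
  · obtain ⟨m, hm⟩ : ∃ m : ℕ, B / (p : ℝ) ^ (j + m) ≤ ε := by
      obtain ⟨m, hm⟩ := pow_unbounded_of_one_lt (B / ε)
        (show (1 : ℝ) < p by exact_mod_cast hp.out.one_lt)
      refine ⟨m, ?_⟩
      rw [div_le_iff₀ (pow_pos hp0 _)]
      rw [div_lt_iff₀ hε] at hm
      have h2 : (p : ℝ) ^ m ≤ (p : ℝ) ^ (j + m) :=
        pow_le_pow_right₀ (by exact_mod_cast hp.out.one_lt.le) (Nat.le_add_left m j)
      have := mul_le_mul_of_nonneg_left h2 hε.le
      linarith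
    obtain ⟨w, hw, hw0, hwe⟩ := hmain j m
    obtain ⟨z, hz, n', hn', h2⟩ := hspan w hw
    refine ⟨z - n', sub_mem hz (le_cadj v N y hn'), ?_⟩
    have h3 := root_iter hr 0 j
    rw [zero_add, hr0] at h3
    exact (Ltt.root hp.out hup (h1 m) (h2 (j + m)) hw0 hwe h3).mono (by linarith)

end X

end Pool.Agent.TWC
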