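import Pool.Agent.Lib.TWC.Irr6
import Pool.Agent.Lib.TWC.TightX
import Pool.Agent.Lib.TWC.PFa

/-!
# TANK W, class C: row PF, the entry at level 0

* `letters_of_width`: bounded letters from the widths;
* `entry`: the base `cl k(X 0, y)` with `y` of level 0 has bounded letters.
-/

set_option autoImplicit false
set_option linter.unusedSectionVars false

open Polynomial

namespace Pool.Agent.TWC.PF

open Pool.Agent.H15JM (RVal)
open Pool.Agent.LU1 (VPos adj)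
open Pool.Agent.D2 (Ctx0)
open Pool.Agent.D2P (clI mem_clI)
open Pool.Agent.TWM
open Pool.Agent.TWS (TowR VG RatV SphC towR_iff_zero)

universe u

variable {k Ω : Type u} [Field k] [Field Ω] [Algebra k Ω] {v : RVal Ω}

section P

variable {p : ℕ} [hp : Fact p.Prime] [CharP k p] [CharP Ω p] [IsAlgClosed Ω]

/-- **Bounded letters from the widths.** -/
theorem letters_of_width (h0 : Ctx0 k v) {u : ℕ → Ω} (hu0 : u 0 ≠ 0) (hu1 : 0 < v (u 0))
    (hup : ∀ n, u (n + 1) ^ p = u n) {y : Ω} {B : ℝ} (hB : 0 ≤ B)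
    (hg : ∀ i : ℕ, ∃ g ∈ cadj v (⊥ : IntermediateField k Ω) (u i),
      v.Ge (-(B / (p : ℝ) ^ i)) (y - g)) :
    ∃ (A : ℕ) (n : Ω), n ∈ cadj v (⊥ : IntermediateField k Ω) (u 0) ∧
      Lm v (SW k (fun n => (u n)⁻¹) A 1) (y - n) := by
  classical
  have hp1 : (1 : ℝ) < p := by exact_mod_cast hp.out.one_lt
  have hp0 : (0 : ℝ) < p := by exact_mod_cast hp.out.pos
  have hun : ∀ i, u i ≠ 0 ∧ (p : ℝ) ^ i * v (u i) = v (u 0) := by
    intro i
    have h1 := root_iter hup 0 i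
    rw [zero_add] at h1
    have h2 : u i ≠ 0 := by
      intro h3
      rw [h3, zero_pow (pow_pos hp.out.pos _).ne'] at h1
      exact hu0 h1.symm
    refine ⟨h2, ?_⟩
    rw [← h1, v.map_pow h2]
    push_cast
    ring
  have huv : ∀ i, 0 < v (u i) := fun i => by
    have h1 := (hun i).2
    have h2 : (0 : ℝ) < (p : ℝ) ^ i := pow_pos hp0 i
    by_contra h3
    have := mul_nonpos_of_nonneg_of_nonpos h2.le (not_lt.1 h3)
    linarith
  choose g hgm hgv using hg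
  have hmono : ∀ i, cadj v (⊥ : IntermediateField k Ω) (u i) ≤
      cadj v (⊥ : IntermediateField k Ω) (u (i + 1)) := by
    intro i
    refine cadj_le (cld_clI v _) bot_le ?_
    rw [← hup i]
    exact pow_mem (self_mem_cadj v _ _) p
  obtain ⟨A, hA⟩ := exists_nat_ge (p * B / v (u 0))
  rw [div_le_iff₀ hu1] at hA
  have hc : ∀ i, ∃ s : Fin (A + 1) → k, v.Ge 0 (g (i + 1) - g i -
      ∑ b, algebraMap k Ω (s b) * (u (i + 1))⁻¹ ^ (b : ℕ)) := by
    intro i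
    refine exists_polar h0 (hun (i + 1)).1 (huv (i + 1)) A (sub_mem (hgm (i + 1))
      (hmono i (hgm i))) ?_
    have h1 : -(B / (p : ℝ) ^ i) ≤ -(B / (p : ℝ) ^ (i + 1)) := by
      refine neg_le_neg (div_le_div_of_nonneg_left hB (pow_pos hp0 i) ?_)
      exact pow_le_pow_right₀ hp1.le (Nat.le_succ i)
    have h2 := (hgv i).sub ((hgv (i + 1)).mono h1)
    rw [sub_sub_sub_cancel_left] at h2
    refine h2.mono ?_
    have h3 := (hun (i + 1)).2
    have h4 : (0 : ℝ) < (p : ℝ) ^ (i + 1) := pow_pos hp0 (i + 1)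
    have h5 : (0 : ℝ) < (p : ℝ) ^ i := pow_pos hp0 i
    have h6 : B / (p : ℝ) ^ i = p * B / (p : ℝ) ^ (i + 1) := by
      rw [pow_succ']
      field_simp
    have h7 : (A : ℝ) * v (u (i + 1)) = A * v (u 0) / (p : ℝ) ^ (i + 1) := by
      rw [← h3]
      field_simp
    rw [h6, h7]
    exact neg_le_neg (div_le_div_of_nonneg_right hA h4.le)
  choose c hc using hc
  refine ⟨A, g 0, hgm 0, fun ε hε => ?_⟩
  obtain ⟨m, hm⟩ := pow_unbounded_of_one_lt (B / ε) hp1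
  have hm' : B / (p : ℝ) ^ m ≤ ε := by
    rw [div_lt_iff₀ hε] at hm
    rw [div_le_iff₀ (pow_pos hp0 m)]
    linarith
  refine ⟨∑ i ∈ Finset.range m, ∑ b, algebraMap k Ω (c i b) * (u (i + 1))⁻¹ ^ (b : ℕ),
    sum_mem fun i _ => sum_mem fun b _ => ?_, ?_⟩
  · rw [← Algebra.smul_def]
    exact Submodule.smul_mem _ _ (Submodule.subset_span
      ⟨i + 1, b, by omega, Nat.lt_succ_iff.1 b.2, rfl⟩)
  · have h1 : y - g 0 - ∑ i ∈ Finset.range m, ∑ b, algebraMap k Ω (c i b) *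
        (u (i + 1))⁻¹ ^ (b : ℕ) = (y - g m) + ∑ i ∈ Finset.range m, (g (i + 1) - g i -
        ∑ b, algebraMap k Ω (c i b) * (u (i + 1))⁻¹ ^ (b : ℕ)) := by
      rw [Finset.sum_sub_distrib, Finset.sum_range_sub]
      ring
    rw [h1]
    refine ((hgv m).mono (neg_le_neg hm')).add
      ((RVal.Ge.sum (v := v) _ _ fun i _ => hc i).mono (by linarith))

/-- **The entry at level 0.** -/
theorem entry [IsAlgClosed k] (hk : Ctx0 k v) (hc : CompleteV v) (hs : SphC v)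
    (_hρ : ∀ ρ : ℝ, ∃ c : Ω, c ≠ 0 ∧ v c = ρ) {X : ℕ → Ω} {y : Ω} (h : T2 p k v X y 0) :
    ∃ (j b : ℕ) (a : Ω), a ∈ cadj v (⊥ : IntermediateField k Ω) (X j) ∧
      Lm v (SW k (fun n => X (j + n)) b 1) (y - a) := by
  haveI : PerfectRing k p := PerfectField.toPerfectRing p
  have hu0 : X 0 ^ (-1 : ℤ) ≠ 0 := zpow_ne_zero _ h.ne
  have hu1 : 0 < v (X 0 ^ (-1 : ℤ)) := by
    rw [zpow_neg, zpow_one, v.map_inv h.ne]
    linarith [h.neg]
  have hup : ∀ n, (X (n + 1) ^ (-1 : ℤ)) ^ p = X n ^ (-1 : ℤ) := by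
    intro n
    rw [← h.root n]
    simp only [zpow_neg, zpow_one, inv_pow]
  have hy : Lim v (EW v (⊥ : IntermediateField k Ω) fun n => X n ^ (-1 : ℤ)) 0 y := by
    rw [EW_inv]
    exact h.tl.lim
  have hx : X 0 ^ (-1 : ℤ) ∉
      kp p (cadj v (cadj v (⊥ : IntermediateField k Ω) (X 0 ^ (-1 : ℤ))) y) := by
    rw [cadj_bot_inv]
    rintro ⟨g, hg, hgp⟩
    apply h.nr
    have h1 : g = X 1 ^ (-1 : ℤ) := by
      refine frobenius_inj Ω p ?_
      change g ^ p = (X 1 ^ (-1 : ℤ)) ^ p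
      rw [hup 0]
      exact hgp
    have h2 := zpow_mem hg (-1 : ℤ)
    rw [h1, ← zpow_mul, show (-1 : ℤ) * -1 = 1 from rfl, zpow_one] at h2
    exact h2
  obtain ⟨B, hB, hg⟩ := exists_width p hk hc hs (u := fun n => X n ^ (-1 : ℤ)) hu0 hu1 hup hy hx
  obtain ⟨A, a, ha, hL⟩ := letters_of_width (p := p) hk (u := fun n => X n ^ (-1 : ℤ)) hu0 hu1 hup
    hB hg
  refine ⟨0, A, a, by rw [← cadj_bot_inv]; exact ha, ?_⟩
  have h3 : (fun n => X (0 + n)) = fun n => (X n ^ (-1 : ℤ))⁻¹ := by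
    funext n
    rw [zero_add, zpow_neg, zpow_one, inv_inv]
  rw [h3]
  exact hL

end P

end Pool.Agent.TWC.PF
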