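import Pool.Agent.Lib.TWC.Bdd2
import Pool.Agent.Lib.TWC.VpG

/-!
# TANK W, dimension 4: operators on the polynomials at `z`, bounded degree

* `POp p v E z`: an additive operator on the polynomials over `E` which commutes with the Hasse
  derivatives, of norm `≤ 0` at `z`; on the constants it is an operator of `E`;
* `RelP`: the relations of Theorem B for such operators;
* `RelP.bdd'`: the relations hold for sequences of bounded degree.
-/

set_option autoImplicit false
set_option linter.unusedSectionVars false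

open Polynomial TensorProduct

namespace Pool.Agent.TWC

open Pool.Agent.H15JM (RVal)
open Pool.Agent.LU1 (VPos adj)
open Pool.Agent.D2 (Ctx0)
open Pool.Agent.TWM

universe u

variable {k Ω : Type u} [Field k] [Field Ω] [Algebra k Ω] {v : RVal Ω} [Fact (Ctx0 k v)]
  {E : IntermediateField k Ω} {z : Ω}

/-- An operator on the polynomials over `E`. -/
structure POp (p : ℕ) (v : RVal Ω) [Fact (Ctx0 k v)] (E : IntermediateField k Ω) (z : Ω) where
  /-- the action on the constants -/
  op : Opr v E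
  /-- the action on the polynomials -/
  f : Polynomial Ω → Polynomial Ω
  mem : ∀ g ∈ PI E, f g ∈ PI E
  add : ∀ g ∈ PI E, ∀ h ∈ PI E, f (g + h) = f g + f h
  deg : ∀ g ∈ PI E, (f g).natDegree ≤ g.natDegree
  con : ∀ a ∈ E, f (Polynomial.C a) = Polynomial.C (fn op a)
  hasse : ∀ g ∈ PI E, ∀ c : ℕ, f (hasseDeriv (p ^ c) g) = hasseDeriv (p ^ c) (f g)
  ge : ∀ g ∈ PI E, ∀ b : ℝ, v.Ge b (g.eval z) → v.Ge b ((f g).eval z)

namespace POp

variable {p : ℕ} (Φ : POp p v E z)

theorem sub {g h : Polynomial Ω} (hg : g ∈ PI E) (hh : h ∈ PI E) :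
    Φ.f (g - h) = Φ.f g - Φ.f h := by
  have h1 := Φ.add (g - h) (sub_mem hg hh) h hh
  rw [sub_add_cancel] at h1
  rw [h1, add_sub_cancel_right]

theorem zero : Φ.f 0 = 0 := by
  have h1 := Φ.sub (zero_mem (PI E)) (zero_mem (PI E))
  rwa [sub_self, sub_self] at h1

theorem gt {g : Polynomial Ω} (hg : g ∈ PI E) {b : ℝ} (hb : Gt v b (g.eval z)) :
    Gt v b ((Φ.f g).eval z) := by
  by_cases hfz : g.eval z = 0
  · have h1 : ∀ r, v.Ge r ((Φ.f g).eval z) := fun r =>
      Φ.ge g hg r (by rw [hfz]; exact RVal.Ge.zero)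
    exact Gt.of_ge (h1 (b + 1)) (by linarith)
  · exact Gt.of_ge (Φ.ge g hg _ (RVal.ge_self _)) (hb hfz)

/-- The operators preserve the null sequences. -/
theorem nul {g : ℕ → Polynomial Ω} (hg : ∀ i, g i ∈ PI E)
    (hn : Nul v fun i => (g i).eval z) : Nul v fun i => (Φ.f (g i)).eval z := by
  intro ε hε
  obtain ⟨N, hN⟩ := hn ε hε
  exact ⟨N, fun i hi => Φ.ge _ (hg i) _ (hN i hi)⟩

end POp

/-- A coefficientwise operator of norm `≤ 0` at `z`. -/
noncomputable def POp.ofCf (p : ℕ) (φ : Opr v E)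
    (h : ∀ g ∈ PI E, ∀ b : ℝ, v.Ge b (g.eval z) → v.Ge b ((cf φ g).eval z)) : POp p v E z where
  op := φ
  f := cf φ
  mem g _ := cf_mem φ g
  add _ hg _ hh := cf_add φ hg hh
  deg g _ := bdd_natDegree_cf φ g
  con a _ := by
    ext i
    rw [coeff_cf, coeff_C, coeff_C]
    split_ifs
    · rfl
    · exact fn_zero φ
  hasse _ hg c := cf_hasse φ (p ^ c) hg
  ge := h

/-- The relations of Theorem B. -/
structure RelP (p : ℕ) (T : Submodule k (Opr v E)) (z : Ω) {ι : Type} [Fintype ι]
    (x : ι → ℕ → Polynomial Ω) (n : ℕ) (lam : ℕ → ι → ι → k) (ψ : ℕ → ι → ι → POp p v E z)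
    (kap : ι → Polynomial Ω) : Prop where
  pc : ∀ j, PC v E z (x j)
  one : 1 ≤ n
  opr : ∀ a j l, (ψ a j l).op ∈ T
  mem : ∀ j, kap j ∈ PI E
  rel : ∀ j, Nul v (fun i => (x j i).eval z ^ p ^ n -
    ∑ a ∈ Finset.range n, ∑ l,
      (lam a j l • (x l i).eval z + ((ψ a j l).f (x l i)).eval z) ^ p ^ a - (kap j).eval z)

variable (p : ℕ) [Fact p.Prime] [CharP k p] [CharP Ω p] [PerfectRing k p] [IsAlgClosed Ω]
  {T : Submodule k (Opr v E)}

theorem RelP.db_step (h : OpM p v E T) (hz : TL v E z 0) {ι : Type}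
    [Fintype ι] {x : ι → ℕ → Polynomial Ω} {n : ℕ} {lam : ℕ → ι → ι → k}
    {ψ : ℕ → ι → ι → POp p v E z} {kap : ι → Polynomial Ω} (R : RelP p T z x n lam ψ kap) {D : ℕ}
    (hK : ∀ j, (kap j).natDegree ≤ D) {ε δ : ℝ} (hε : 0 < ε) (hδ : 0 < δ)
    (hD : DB v E z x (p * ε) D) : DB v E z x (ε + δ) D := by
  classical
  have hp : p.Prime := Fact.out
  have hp1 : (1 : ℝ) ≤ p := by exact_mod_cast hp.one_lt.le
  intro j
  choose f hfE hfD Nf hf using hD
  set F : Polynomial Ω := ∑ a ∈ Finset.range n, ∑ l,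
    (Polynomial.C (algebraMap k Ω (lam a j l)) * f l + (ψ a j l).f (f l)) ^ p ^ a + kap j with hF
  have hFE : F ∈ PI E := add_mem (sum_mem fun a _ => sum_mem fun l _ => pow_mem (add_mem
    (mul_mem (C_mem_PI (E.algebraMap_mem _)) (hfE l)) ((ψ a j l).mem _ (hfE l))) _) (R.mem j)
  have hFD : F.natDegree ≤ p ^ (n - 1) * D := by
    refine natDegree_add_le_of_degree_le ?_ ?_
    · refine natDegree_sum_le_of_forall_le _ _ fun a ha => ?_
      refine natDegree_sum_le_of_forall_le _ _ fun l _ => ?_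
      refine natDegree_pow_le.trans ?_
      have ha' := Finset.mem_range.1 ha
      refine Nat.mul_le_mul (Nat.pow_le_pow_right hp.pos (by omega)) ?_
      refine natDegree_add_le_of_degree_le ?_ (((ψ a j l).deg _ (hfE l)).trans (hfD l))
      exact (natDegree_C_mul_le _ _).trans (hfD l)
    · refine (hK j).trans (Nat.le_mul_of_pos_left _ (pow_pos hp.pos _))
  -- a large index
  obtain ⟨N1, hN1⟩ := R.rel j ((p ^ n : ℕ) * ε) (by have := pow_pos hp.pos n; positivity)
  obtain ⟨N2, hN2⟩ := (R.pc j).cau ε hε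
  set N := max (max N1 N2) (Finset.univ.sup Nf) with hN
  have hNf : ∀ l, Nf l ≤ N := fun l => (Finset.le_sup (Finset.mem_univ l)).trans (le_max_right _ _)
  have h1 : v.Ge ((p ^ n : ℕ) * (-ε)) ((x j N).eval z ^ p ^ n - F.eval z) := by
    have h2 := hN1 N ((le_max_left _ _).trans (le_max_left _ _))
    have h3 : (x j N).eval z ^ p ^ n - F.eval z =
        ((x j N).eval z ^ p ^ n - ∑ a ∈ Finset.range n, ∑ l,
          (lam a j l • (x l N).eval z + ((ψ a j l).f (x l N)).eval z) ^ p ^ a -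
            (kap j).eval z) +
        ∑ a ∈ Finset.range n, ∑ l,
          (lam a j l • (x l N - f l).eval z + ((ψ a j l).f (x l N - f l)).eval z) ^ p ^ a := by
      rw [hF, eval_add, eval_finsetSum]
      have h4 : ∀ a ∈ Finset.range n, ((∑ l, (Polynomial.C (algebraMap k Ω (lam a j l)) * f l +
          (ψ a j l).f (f l)) ^ p ^ a : Polynomial Ω)).eval z =
          ∑ l, (lam a j l • (x l N).eval z + ((ψ a j l).f (x l N)).eval z) ^ p ^ a -
          ∑ l, (lam a j l • (x l N - f l).eval z +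
            ((ψ a j l).f (x l N - f l)).eval z) ^ p ^ a := by
        intro a _
        rw [eval_finsetSum, ← Finset.sum_sub_distrib]
        refine Finset.sum_congr rfl fun l _ => ?_
        rw [← sub_pow_char_pow, eval_pow, eval_add, eval_mul, eval_C,
          (ψ a j l).sub ((R.pc l).mem N) (hfE l), eval_sub, eval_sub, Algebra.smul_def,
          Algebra.smul_def]
        congr 1
        ring
      rw [Finset.sum_congr rfl h4, Finset.sum_sub_distrib]
      ring
    rw [h3]
    refine (h2.mono (by linarith)).add (RVal.Ge.sum _ _ fun a ha => RVal.Ge.sum _ _ fun l _ => ?_)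
    have h5 : v.Ge (-(p * ε)) ((x l N - f l).eval z) := hf l N (hNf l)
    have h6 : v.Ge (-(p * ε)) (lam a j l • (x l N - f l).eval z +
        ((ψ a j l).f (x l N - f l)).eval z) := by
      refine RVal.Ge.add ?_ ((ψ a j l).ge _ (sub_mem ((R.pc l).mem N) (hfE l)) _ h5)
      rw [Algebra.smul_def]
      have := ((Fact.out : Ctx0 k v).ge (lam a j l)).mul h5
      rwa [zero_add] at this
    refine (ge_pow h6 (p ^ a)).mono ?_
    have ha' := Finset.mem_range.1 ha
    have h7 : (p : ℝ) ^ (a + 1) ≤ (p : ℝ) ^ n := pow_le_pow_right₀ hp1 (by omega)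
    have h8 : (p : ℝ) ^ (a + 1) * ε ≤ (p : ℝ) ^ n * ε := mul_le_mul_of_nonneg_right h7 hε.le
    push_cast
    rw [pow_succ] at h8
    linarith
  obtain ⟨g', hg'E, hg'D, hg'⟩ := deg_root hz p h.perf n hFE ((R.pc j).mem N) h1 hδ
  refine ⟨g', hg'E, ?_, N, fun i hi => ?_⟩
  · have h9 : p ^ n * g'.natDegree ≤ p ^ n * D := by
      refine hg'D.trans (hFD.trans (Nat.mul_le_mul_right _ (Nat.pow_le_pow_right hp.pos ?_)))
      omega
    exact Nat.le_of_mul_le_mul_left h9 (pow_pos hp.pos n)
  · have h10 := hN2 i N (((le_max_right _ _).trans (le_max_left _ _)).trans hi)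
      ((le_max_right _ _).trans (le_max_left _ _))
    have h11 : (x j i - g').eval z = (x j i - x j N).eval z + ((x j N).eval z - g'.eval z) := by
      rw [eval_sub, eval_sub]
      ring
    rw [h11]
    exact (h10.mono (by linarith)).add (hg'.mono (by linarith))

/-- B2 (1) -/
theorem RelP.bdd (h : OpM p v E T) (hz : TL v E z 0) {ι : Type} [Fintype ι]
    {x : ι → ℕ → Polynomial Ω} {n : ℕ} {lam : ℕ → ι → ι → k} {ψ : ℕ → ι → ι → POp p v E z}
    {kap : ι → Polynomial Ω} (R : RelP p T z x n lam ψ kap) :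
    ∃ D : ℕ, ∀ j, ∀ ε : ℝ, 0 < ε → ∃ f ∈ PI E, f.natDegree ≤ D ∧
      ∃ N : ℕ, ∀ i, N ≤ i → v.Ge (-ε) ((x j i - f).eval z) := by
  classical
  have hp : p.Prime := Fact.out
  have hp2 : (2 : ℝ) ≤ p := by exact_mod_cast hp.two_le
  -- the start
  choose M hM using fun j => (R.pc j).cau 1 one_pos
  set D : ℕ := Finset.univ.sup (fun j => (x j (M j)).natDegree) ⊔
    Finset.univ.sup (fun j => (kap j).natDegree) with hD
  have hK : ∀ j, (kap j).natDegree ≤ D := fun j =>
    (Finset.le_sup (f := fun j => (kap j).natDegree) (Finset.mem_univ j)).trans le_sup_right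
  have h0 : DB v E z x 1 D := fun j => ⟨x j (M j), (R.pc j).mem _,
    (Finset.le_sup (f := fun j => (x j (M j)).natDegree) (Finset.mem_univ j)).trans le_sup_left,
    M j, fun i hi => hM j i (M j) hi le_rfl⟩
  -- all precisions
  have h1 : ∀ m : ℕ, DB v E z x ((3 / 4 : ℝ) ^ m) D := by
    intro m
    induction m with
    | zero => simpa using h0
    | succ m ih =>
      have h2 : (0 : ℝ) < (3 / 4 : ℝ) ^ m := by positivity
      have h3 : DB v E z x (p * ((3 / 4 : ℝ) ^ m / p)) D := by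
        rwa [mul_div_cancel₀ _ (by positivity : (p : ℝ) ≠ 0)]
      have h4 := RelP.db_step p h hz R hK (ε := (3 / 4 : ℝ) ^ m / p)
        (δ := (3 / 4 : ℝ) ^ m / 4) (by positivity) (by positivity) h3
      intro j
      obtain ⟨f, hfE, hfD, N, hN⟩ := h4 j
      refine ⟨f, hfE, hfD, N, fun i hi => (hN i hi).mono ?_⟩
      have h5 : (3 / 4 : ℝ) ^ m / p ≤ (3 / 4 : ℝ) ^ m / 2 :=
        div_le_div_of_nonneg_left h2.le (by norm_num) hp2
      rw [pow_succ]
      linarith
  refine ⟨D, fun j ε hε => ?_⟩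
  obtain ⟨m, hm⟩ := exists_pow_lt_of_lt_one hε (by norm_num : (3 / 4 : ℝ) < 1)
  obtain ⟨f, hfE, hfD, N, hN⟩ := h1 m j
  exact ⟨f, hfE, hfD, N, fun i hi => (hN i hi).mono (by linarith)⟩

/-- The relations depend only on the limits. -/
theorem RelP.congr_nul {ι : Type}
    [Fintype ι] {x y : ι → ℕ → Polynomial Ω} {n : ℕ} {lam : ℕ → ι → ι → k}
    {ψ : ℕ → ι → ι → POp p v E z} {kap : ι → Polynomial Ω} (R : RelP p T z x n lam ψ kap)
    (hy : ∀ j i, y j i ∈ PI E) (hxy : ∀ j, Nul v fun i => (x j i - y j i).eval z) :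
    RelP p T z y n lam ψ kap where
  pc j := (R.pc j).of_nul (hy j) (hxy j)
  one := R.one
  opr := R.opr
  mem := R.mem
  rel j := by
    have h1 := R.rel j
    have h2 : Nul v fun i => ((x j i - y j i).eval z) ^ p ^ n := (hxy j).pow _
    have h3 : Nul v fun i => ∑ a ∈ Finset.range n, ∑ l,
        (lam a j l • (x l i - y l i).eval z + ((ψ a j l).f (x l i - y l i)).eval z) ^ p ^ a := by
      refine Nul.sum _ (fun a i => ∑ l, (lam a j l • (x l i - y l i).eval z +
        ((ψ a j l).f (x l i - y l i)).eval z) ^ p ^ a) fun a _ => ?_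
      refine Nul.sum _ (fun l i => (lam a j l • (x l i - y l i).eval z +
        ((ψ a j l).f (x l i - y l i)).eval z) ^ p ^ a) fun l _ => ?_
      refine Nul.pow (x := fun i => lam a j l • (x l i - y l i).eval z +
        ((ψ a j l).f (x l i - y l i)).eval z) (Nul.add ?_ ?_) _
      · refine ((hxy l).mul_ge (c := fun _ => algebraMap k Ω (lam a j l)) fun _ =>
          (Fact.out : Ctx0 k v).ge _).congr fun i => ?_
        exact (Algebra.smul_def _ _).symm
      · exact (ψ a j l).nul (fun i => sub_mem ((R.pc l).mem i) (hy l i)) (hxy l)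
    refine ((h1.sub h2).add h3).congr fun i => ?_
    rw [eval_sub, sub_pow_char_pow]
    have h4 : ∀ a ∈ Finset.range n, ∑ l, (lam a j l • (x l i - y l i).eval z +
        ((ψ a j l).f (x l i - y l i)).eval z) ^ p ^ a =
        ∑ l, (lam a j l • (x l i).eval z + ((ψ a j l).f (x l i)).eval z) ^ p ^ a -
        ∑ l, (lam a j l • (y l i).eval z + ((ψ a j l).f (y l i)).eval z) ^ p ^ a := by
      intro a _
      rw [← Finset.sum_sub_distrib]
      refine Finset.sum_congr rfl fun l _ => ?_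
      rw [← sub_pow_char_pow, (ψ a j l).sub ((R.pc l).mem i) (hy l i), eval_sub, eval_sub,
        Algebra.smul_def, Algebra.smul_def, Algebra.smul_def]
      congr 1
      ring
    rw [Finset.sum_congr rfl h4, Finset.sum_sub_distrib]
    ring

/-- The relations hold for sequences of bounded degree. -/
theorem RelP.bdd' (h : OpM p v E T) (hz : TL v E z 0) {ι : Type} [Fintype ι]
    {x : ι → ℕ → Polynomial Ω} {n : ℕ} {lam : ℕ → ι → ι → k} {ψ : ℕ → ι → ι → POp p v E z}
    {kap : ι → Polynomial Ω} (R : RelP p T z x n lam ψ kap) :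
    ∃ (D : ℕ) (y : ι → ℕ → Polynomial Ω), RelP p T z y n lam ψ kap ∧
      (∀ j i, (y j i).natDegree ≤ D) ∧ ∀ j, Nul v fun i => (x j i - y j i).eval z := by
  obtain ⟨D, hD⟩ := RelP.bdd p h hz R
  choose f hfE hfD N hN using fun (j : ι) (i : ℕ) => hD j (1 / ((i : ℝ) + 1)) (by positivity)
  have hnul : ∀ j, Nul v fun i => (x j i - f j i).eval z := by
    intro j ε hε
    obtain ⟨m, hm⟩ := exists_nat_gt (1 / ε)
    obtain ⟨M, hM⟩ := (R.pc j).cau ε hε
    refine ⟨max M m, fun i hi => ?_⟩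
    have h1 := hM i (max i (N j i)) ((le_max_left _ _).trans hi)
      (((le_max_left _ _).trans hi).trans (le_max_left _ _))
    have h2 := hN j i (max i (N j i)) (le_max_right _ _)
    have h3 : v.Ge (-ε) ((x j (max i (N j i)) - f j i).eval z) := by
      refine h2.mono ?_
      have h4 : (m : ℝ) ≤ i := by exact_mod_cast (le_max_right _ _).trans hi
      have h5 : 1 / ((i : ℝ) + 1) ≤ ε := by
        rw [div_le_iff₀ (by positivity)]
        rw [div_lt_iff₀ hε] at hm
        nlinarith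
      linarith
    have h6 := h1.add h3
    rw [← eval_add, sub_add_sub_cancel] at h6
    exact h6
  exact ⟨D, f, RelP.congr_nul p R hfE hnul, hfD, hnul⟩

end Pool.Agent.TWC
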