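import Pool.Agent.Lib.TWC.POp
import Pool.Agent.Lib.TWC.Spl
import Pool.Agent.Lib.TWC.ClZero

/-!
# TANK W, dimension 4: the classes of the solutions of the relations, general operators

* `RelP.spl`: the derivatives `D_c x_j` are in `B + L(E)`;
* `IsCl.popr`: the class of `Φ x`;
* `RelP.cl_tor`: the classes are torsion.
-/

set_option autoImplicit false
set_option linter.unusedSectionVars false

open Polynomial TensorProduct

namespace Pool.Agent.TWC

open Pool.Agent.H15JM (RVal)
open Pool.Agent.LU1 (VPos adj)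
open Pool.Agent.D2 (Ctx0)
open Pool.Agent.TWM

universe u

variable {k Ω : Type u} [Field k] [Field Ω] [Algebra k Ω] {v : RVal Ω} [Fact (Ctx0 k v)]
  {E : IntermediateField k Ω} {z : Ω} (p : ℕ) [Fact p.Prime] [CharP k p] [CharP Ω p]
  [PerfectRing k p] [IsAlgClosed Ω] {T : Submodule k (Opr v E)}

omit [Fact p.Prime] [CharP k p] [CharP Ω p] [PerfectRing k p] [IsAlgClosed Ω] in
/-- The action of an operator on a split sequence. -/
theorem Spl.popr_nul {x : ℕ → Polynomial Ω} (hx : ∀ i, x i ∈ PI E) {b : Polynomial Ω} {m : ℕ → Ω}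
    (hs : Spl v E z x b m) (Φ : POp p v E z) :
    Nul v (fun i => (Φ.f (x i)).eval z - (Φ.f b).eval z - fn Φ.op (m i)) := by
  intro ε hε
  obtain ⟨N, hN⟩ := hs.nul ε hε
  refine ⟨N, fun n hn => ?_⟩
  have h1 : v.Ge (-ε) ((x n - b - Polynomial.C (m n)).eval z) := by
    rw [eval_sub, eval_sub, eval_C]
    exact hN n hn
  have hC : Polynomial.C (m n) ∈ PI E := C_mem_PI (hs.cau.mem n)
  have h2 := Φ.ge _ (sub_mem (sub_mem (hx n) hs.mem) hC) _ h1
  rw [Φ.sub (sub_mem (hx n) hs.mem) hC, Φ.sub (hx n) hs.mem, Φ.con _ (hs.cau.mem n), eval_sub,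
    eval_sub, eval_C] at h2
  exact h2

/-- B2 (2): the derivatives `D_c x_j` are in `B + L(E)`. -/
theorem RelP.spl (h : OpM p v E T) (hz : TL v E z 0) {ι : Type} [Fintype ι]
    {x : ι → ℕ → Polynomial Ω} {n : ℕ} {lam : ℕ → ι → ι → k} {ψ : ℕ → ι → ι → POp p v E z}
    {kap : ι → Polynomial Ω} (R : RelP p T z x n lam ψ kap) {D : ℕ}
    (hD : ∀ j i, (x j i).natDegree ≤ D) (c : ℕ) (j : ι) :
    ∃ b m, Spl v E z (fun i => hasseDeriv (p ^ c) (x j i)) b m := by
  classical
  have hp : p.Prime := Fact.out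
  have hk : Ctx0 k v := Fact.out
  suffices hmain : ∀ (d c : ℕ), D + 1 ≤ c + d → ∀ j, ∃ b m,
      Spl v E z (fun i => hasseDeriv (p ^ c) (x j i)) b m from
    hmain (D + 1) c (by omega) j
  intro d
  induction d with
  | zero =>
    intro c hc j
    refine ⟨0, fun _ => 0, zero_mem _, Cau.const (zero_mem E), Nul.zero.congr fun i => ?_⟩
    have h1 : c < p ^ c := Nat.lt_pow_self hp.one_lt
    have h2 := hD j i
    change 0 = (hasseDeriv (p ^ c) (x j i)).eval z - eval z 0 - 0
    rw [hasseDeriv_eq_zero_of_lt_natDegree _ _ (by omega), eval_zero, sub_zero, sub_zero]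
  | succ d ih =>
    intro c hc j
    -- the polynomials of the relation
    set w : ℕ → ι → ℕ → Polynomial Ω := fun a l i =>
      Polynomial.C (algebraMap k Ω (lam a j l)) * x l i + (ψ a j l).f (x l i) with hw
    have hwE : ∀ a l i, w a l i ∈ PI E := fun a l i =>
      add_mem (mul_mem (C_mem_PI (E.algebraMap_mem _)) ((R.pc l).mem i))
        ((ψ a j l).mem _ ((R.pc l).mem i))
    set P : ℕ → Polynomial Ω := fun i => x j i ^ p ^ n -
      ∑ a ∈ Finset.range n, ∑ l, w a l i ^ p ^ a - kap j with hP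
    have hPE : ∀ i, P i ∈ PI E := fun i => sub_mem (sub_mem (pow_mem ((R.pc j).mem i) _)
      (sum_mem fun a _ => sum_mem fun l _ => pow_mem (hwE a l i) _)) (R.mem j)
    have hPn : Nul v (fun i => (P i).eval z) := by
      refine (R.rel j).congr fun i => ?_
      rw [hP]
      simp only [eval_sub, eval_pow, eval_finsetSum, hw, eval_add, eval_mul, eval_C,
        Algebra.smul_def]
    have hDP : Nul v (fun i => (hasseDeriv (p ^ (c + n)) (P i)).eval z) := by
      intro ε hε
      obtain ⟨N, hN⟩ := hPn ε hε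
      exact ⟨N, fun i hi => hasse_ge hz (hPE i) (hN i hi) _⟩
    -- the derivatives of the terms
    have hterm : ∀ a ∈ Finset.range n, ∀ l, InBL v (cadj v E z) E
        (fun i => (hasseDeriv (p ^ (c + n)) (w a l i ^ p ^ a)).eval z) := by
      intro a ha l
      have ha' : a < n := Finset.mem_range.1 ha
      obtain ⟨b, m, hs⟩ := ih (c + n - a) (by omega) l
      have hs2 := Spl.popr_nul p (fun i => hasse_mem_PI ((R.pc l).mem i) _) hs (ψ a j l)
      have h1 : InBL v (cadj v E z) E (fun i => (hasseDeriv (p ^ (c + n - a)) (w a l i)).eval z) := by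
        refine InBL.of_poly (g := Polynomial.C (algebraMap k Ω (lam a j l)) * b + (ψ a j l).f b)
          (add_mem (mul_mem (C_mem_PI (E.algebraMap_mem _)) hs.mem) ((ψ a j l).mem _ hs.mem))
          (m := fun i => algebraMap k Ω (lam a j l) * m i + fn (ψ a j l).op (m i)) ?_ ?_
        · refine Cau.add ?_ (hs.cau.fn _)
          have := (CauS v E).smul_mem (lam a j l) (x := m) hs.cau
          refine ⟨fun i => ?_, fun ε hε => ?_⟩
          · have h2 := this.mem i
            rwa [Pi.smul_apply, Algebra.smul_def] at h2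
          · obtain ⟨N, hN⟩ := this.cau ε hε
            refine ⟨N, fun i i' hi hi' => ?_⟩
            have h2 := hN i i' hi hi'
            rwa [Pi.smul_apply, Pi.smul_apply, Algebra.smul_def, Algebra.smul_def] at h2
        · refine ((hs.nul.mul_ge (c := fun _ => algebraMap k Ω (lam a j l)) fun _ =>
            hk.ge _).add hs2).congr fun i => ?_
          have h3 : hasseDeriv (p ^ (c + n - a)) (w a l i) =
              Polynomial.C (algebraMap k Ω (lam a j l)) * hasseDeriv (p ^ (c + n - a)) (x l i) +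
                (ψ a j l).f (hasseDeriv (p ^ (c + n - a)) (x l i)) := by
            rw [hw, (ψ a j l).hasse _ ((R.pc l).mem i), map_add, ← smul_eq_C_mul, map_smul,
              smul_eq_C_mul]
          rw [h3]
          simp only [eval_add, eval_mul, eval_C]
          ring
      have h4 := h1.pow_pow p a
      have h5 : p ^ (c + n) = p ^ (c + n - a) * p ^ a := by
        rw [← pow_add]
        congr 1
        omega
      have h6 : (fun i => (hasseDeriv (p ^ (c + n)) (w a l i ^ p ^ a)).eval z) =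
          fun i => (hasseDeriv (p ^ (c + n - a)) (w a l i)).eval z ^ p ^ a := by
        funext i
        rw [h5, hasse_pow_mul]
      rw [h6]
      exact h4
    -- conclusion
    have hB : InBL v (cadj v E z) E
        (fun i => (hasseDeriv (p ^ c) (x j i)).eval z ^ p ^ n) := by
      have h1 : InBL v (cadj v E z) E (fun i => (∑ a ∈ Finset.range n, ∑ l,
          (hasseDeriv (p ^ (c + n)) (w a l i ^ p ^ a)).eval z) +
          (hasseDeriv (p ^ (c + n)) (kap j)).eval z) :=
        (InBL.sum _ fun a ha => InBL.sum _ fun l _ => hterm a ha l).add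
          (InBL.of_mem (eval_mem (PI_mono (le_cadj v E z) (hasse_mem_PI (R.mem j) _))
            (self_mem_cadj v E z)))
      refine h1.congr (hDP.neg.congr fun i => ?_)
      have h2 : (hasseDeriv (p ^ (c + n)) (x j i ^ p ^ n)).eval z =
          (hasseDeriv (p ^ c) (x j i)).eval z ^ p ^ n := by
        rw [pow_add p c n, hasse_pow_mul]
      rw [hP]
      simp only [map_sub, map_sum, eval_sub, eval_finsetSum]
      rw [h2]
      ring
    obtain ⟨g, hg, m, hm, h3⟩ := lemmaR_ii hk hz p h.perf (q := n)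
      (f := fun i => hasseDeriv (p ^ c) (x j i)) (fun i => hasse_mem_PI ((R.pc j).mem i) _)
      (by
        refine ⟨fun i => eval_mem (PI_mono (le_cadj v E z) (hasse_mem_PI ((R.pc j).mem i) _))
          (self_mem_cadj v E z), fun ε hε => ?_⟩
        obtain ⟨N, hN⟩ := (R.pc j).cau ε hε
        refine ⟨N, fun i i' hi hi' => ?_⟩
        have h4 := hasse_ge hz (sub_mem ((R.pc j).mem i) ((R.pc j).mem i')) (hN i i' hi hi')
          (p ^ c)
        rwa [map_sub, eval_sub] at h4) hB
    exact ⟨g, m, hg, hm, h3⟩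

/-- The operators kill the class of `z`. -/
def Kil (p : ℕ) [Fact p.Prime] [CharP k p] [CharP Ω p] (hz : TL v E z 0)
    (T : Submodule k (Opr v E)) : Prop :=
  ∀ φ ∈ T, ∀ c, MM.act φ (zc p hz c) = 0

theorem Kil.of_zero (h : OpM p v E T) (hz : TL v E z 0)
    (h0 : ∀ φ ∈ T, MM.act φ (MM.mk v E (zs hz)) = 0) : Kil p hz T := by
  intro φ hφ c
  induction c generalizing φ with
  | zero => exact h0 φ hφ
  | succ c ih =>
    obtain ⟨φ', hφ', h1⟩ := h.tw φ hφ
    rw [zc_succ, MM.act_fr p h1, ih φ' hφ', map_zero]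

theorem IsCl.popr (h : OpM p v E T) (hz : TL v E z 0) (hK : Kil p hz T) {Φ : POp p v E z}
    (hΦ : Φ.op ∈ T) {x : ℕ → Polynomial Ω} {s : MM v E ⊗[k] MM v E} (hx : IsCl p hz x s) :
    IsCl p hz (fun i => Φ.f (x i)) (cop (MM.act Φ.op) s) := by
  obtain ⟨N, b, m, r, h', rfl⟩ := hx
  refine ⟨N, fun c => Φ.f (b c), fun c => MM.actS Φ.op (m c), fun _ _ => 0,
    ⟨⟨fun i => Φ.mem _ (h'.pc.mem i), fun ε hε => ?_⟩,
      fun c => ⟨Φ.mem _ (h'.spl c).mem, (MM.actS Φ.op (m c)).2, ?_⟩,
      fun c hc => ?_, fun c => (Φ.deg _ (h'.spl c).mem).trans_lt (h'.deg c), fun c c' => ?_⟩, ?_⟩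
  · obtain ⟨M, hM⟩ := h'.pc.cau ε hε
    refine ⟨M, fun i j hi hj => ?_⟩
    rw [← Φ.sub (h'.pc.mem i) (h'.pc.mem j)]
    exact Φ.ge _ (sub_mem (h'.pc.mem i) (h'.pc.mem j)) _ (hM i j hi hj)
  · intro ε hε
    obtain ⟨M, hM⟩ := (h'.spl c).nul ε hε
    refine ⟨M, fun i hi => ?_⟩
    have h1 := hM i hi
    have hmi : (m c : ℕ → Ω) i ∈ E := (m c).2.mem i
    have hDx : hasseDeriv (p ^ c) (x i) ∈ PI E := hasse_mem_PI (h'.pc.mem i) _
    have h2 : (hasseDeriv (p ^ c) (x i) - b c - Polynomial.C ((m c : ℕ → Ω) i)).eval z =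
        (hasseDeriv (p ^ c) (x i)).eval z - (b c).eval z - (m c : ℕ → Ω) i := by
      rw [eval_sub, eval_sub, eval_C]
    have h3 := Φ.ge _ (sub_mem (sub_mem hDx (h'.spl c).mem) (C_mem_PI hmi))
      (-ε) (by rw [h2]; exact h1)
    rw [Φ.sub (sub_mem hDx (h'.spl c).mem) (C_mem_PI hmi), Φ.sub hDx (h'.spl c).mem,
      Φ.con _ hmi, eval_sub, eval_sub, eval_C, Φ.hasse _ (h'.pc.mem i), fn_of_mem Φ.op hmi] at h3
    exact h3
  · rw [(h'.zero c hc).1, (h'.zero c hc).2, map_zero, Φ.zero]
    exact ⟨rfl, rfl⟩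
  · have hb := (h'.spl c).mem
    have hb' := (h'.spl c').mem
    have hg : hasseDeriv (p ^ c') (b c) - hasseDeriv (p ^ c) (b c') ∈ PI E :=
      sub_mem (hasse_mem_PI hb _) (hasse_mem_PI hb' _)
    have hrE : algebraMap k Ω (r c' c) ∈ E := E.algebraMap_mem _
    have hr0 : fn Φ.op (algebraMap k Ω (r c' c)) = 0 := by
      rw [show algebraMap k Ω (r c' c) = r c' c • (1 : Ω) from Algebra.algebraMap_eq_smul_one _,
        fn_smul Φ.op _ (one_mem E), fn_of_mem Φ.op (one_mem E)]
      have h2 : (⟨1, one_mem E⟩ : E) = 1 := rfl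
      rw [h2, h.one Φ.op hΦ]
      exact smul_zero _
    have h1 := Φ.gt (sub_mem hg (C_mem_PI hrE)) (b := 0)
      (by rw [eval_sub, eval_C]; exact h'.res c c')
    rw [Φ.sub hg (C_mem_PI hrE), Φ.con _ hrE, hr0, map_zero, sub_zero,
      Φ.sub (hasse_mem_PI hb _) (hasse_mem_PI hb' _), Φ.hasse _ hb, Φ.hasse _ hb'] at h1
    rw [map_zero, sub_zero]
    exact h1
  · simp only [cl, zero_smul, Finset.sum_const_zero, sub_zero, map_sub, map_sum, map_smul,
      cop_tmul, hK _ hΦ, zero_tmul, tmul_zero, zero_add, add_zero, sub_self,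
      smul_zero, MM.act_mk]

/-- the class is in `Tor ⊗ M` -/
theorem RelP.cl_tor (h : OpM p v E T) (hV : NSDM p h) (hz : TL v E z 0) (hK : Kil p hz T)
    {ι : Type} [Fintype ι]
    {x : ι → ℕ → Polynomial Ω} {n : ℕ} {lam : ℕ → ι → ι → k} {ψ : ℕ → ι → ι → POp p v E z}
    {kap : ι → Polynomial Ω} (R : RelP p T z x n lam ψ kap) {D : ℕ}
    (hD : ∀ j i, (x j i).natDegree ≤ D) (j : ι) :
    ∃ t ∈ tp (Sat (MM.fr p v E) ⊥), IsCl p hz (x j) t := by
  classical
  -- the classes
  have hcl : ∀ j, ∃ t, IsCl p hz (x j) t := fun j => by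
    obtain ⟨N, b, m, r, hd⟩ := exists_dat p hz (R.pc j) (hD j) fun c => R.spl p h hz hD c j
    exact ⟨_, N, b, m, r, hd, rfl⟩
  choose t ht using hcl
  set W : Submodule k (MM v E ⊗[k] MM v E) := Submodule.span k (Set.range t) with hW
  -- the relation of the classes
  have hrel : ∀ j, (FF (MM.fr p v E))^[n] (t j) =
      ∑ a ∈ Finset.range n, ∑ l, (FF (MM.fr p v E))^[a]
        (lam a j l • t l + cop (MM.act (ψ a j l).op) (t l)) + 0 := fun j => by
    have h1 := IsCl.it p hz (ht j) n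
    have h2 : IsCl p hz (fun i => ∑ a ∈ Finset.range n, ∑ l,
        (algebraMap k Ω (lam a j l) • x l i + (ψ a j l).f (x l i)) ^ p ^ a + kap j) _ :=
      IsCl.add p hz (IsCl.sum p hz (Finset.range n) fun a _ => IsCl.sum p hz Finset.univ
        fun l _ => IsCl.it p hz (IsCl.add p hz (IsCl.smul p hz (ht l) (lam a j l))
          (IsCl.popr p h hz hK (R.opr a j l) (ht l))) a) (IsCl.poly p hz (R.mem j))
    refine IsCl.unique p h.cld hz h1 h2 ((R.rel j).congr fun i => ?_)
    simp only [eval_sub, eval_add, eval_pow, eval_finsetSum, eval_smul, smul_eq_mul]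
    simp only [Algebra.smul_def]
    ring
  have hdom : ∀ j, (FF (MM.fr p v E))^[n] (t j) ∈
      V (FF (MM.fr p v E)) (W ⊔ actC (h.ops p) W) n := fun j => by
    rw [hrel j, add_zero]
    refine Submodule.sum_mem _ fun a ha => Submodule.sum_mem _ fun l _ => ?_
    have hl : t l ∈ W := Submodule.subset_span ⟨l, rfl⟩
    have h3 : lam a j l • t l + cop (MM.act (ψ a j l).op) (t l) ∈ W ⊔ actC (h.ops p) W :=
      add_mem (Submodule.mem_sup_left (Submodule.smul_mem _ _ hl))
        (Submodule.mem_sup_right (mem_actC (O := h.ops p) (h.mem_ops p (R.opr a j l)) hl))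
    have h4 := it_mem_V (F := FF (MM.fr p v E)) (le_V 0 h3) a
    rw [Finset.mem_range] at ha
    exact V_mono (by omega) h4
  have hsd := sd_of_tensor (O := h.ops p) (MM.fr_injective p h.perf) t hdom
  have hY := hV (⨆ j, LS (t j)) (Submodule.fg_iSup _ fun j => LS_fg (t j)) n R.one hsd
  exact ⟨t j, tp_mono ((le_iSup (fun j => LS (t j)) j).trans hY) (mem_tp_LS (t j)), ht j⟩

end Pool.Agent.TWC
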