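import Pool.Agent.Lib.TWC.PWdefs
import Pool.Agent.Lib.TWC.PFa2

/-!
# TANK W, class C: rational letters over a tame base (row PW), the letters

* `RS.refl`, `RS.trans`, `RS.common`: the systems of tame roots;
* `ST_eq`, `STs_eq`, `SAs_eq`: renaming; `ST_level`, ..: a finite sum of letters lives at one level;
* `ST_pow`, `ST_root`, ..: powers and roots; `ST_shift`: the system `X (e + ·)`;
* `Lm_ST_ge`: values.
-/

set_option autoImplicit false
set_option linter.unusedSectionVars false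
set_option linter.unusedVariables false

open Polynomial

namespace Pool.Agent.TWC.PW

open Pool.Agent.H15JM (RVal)
open Pool.Agent.D2 (Ctx0)
open Pool.Agent.D2P (clI mem_clI)
open Pool.Agent.TWM
open Pool.Agent.TWC.PF (Lm SW SA)

universe u

variable {k Ω : Type u} [Field k] [Field Ω] [Algebra k Ω] {v : RVal Ω} {Γ : AddSubgroup ℝ}
  {p : ℕ} [hp : Fact p.Prime] [CharP k p] [CharP Ω p] [IsAlgClosed k] [IsAlgClosed Ω]
  {X X' : ℕ → Ω} {f s : Ω} {B : ℝ} {b j n m : ℕ}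

/-! ### Roots of unity -/

section Unit

omit [CharP k p] [CharP Ω p] hp [IsAlgClosed Ω]

/-- The roots of unity are in `k`. -/
theorem unit_of_pow (hn : n ≠ 0) {ζ : Ω} (h : ζ ^ n = 1) : ∃ c : k, algebraMap k Ω c = ζ := by
  have h1 : IsIntegral k ζ := ⟨Polynomial.X ^ n - 1, by
    have := monic_X_pow_sub_C (1 : k) hn
    rwa [C_1] at this, by simp [h]⟩
  have : Algebra.IsAlgebraic k (IntermediateField.adjoin k {ζ}) :=
    IntermediateField.isAlgebraic_adjoin (by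
      rintro _ rfl
      exact h1)
  have h2 := IntermediateField.eq_bot_of_isAlgClosed_of_isAlgebraic
    (IntermediateField.adjoin k {ζ})
  have h3 : ζ ∈ IntermediateField.adjoin k {ζ} :=
    IntermediateField.subset_adjoin k _ (Set.mem_singleton ζ)
  rw [h2] at h3
  exact IntermediateField.mem_bot.1 h3

/-- Two roots of the same element. -/
theorem mul_of_pow (k : Type u) [Field k] [Algebra k Ω] [IsAlgClosed k] (hn : n ≠ 0) {a b : Ω}
    (ha : a ≠ 0) (hb : b ≠ 0) (h : a ^ n = b ^ n) :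
    ∃ c : k, c ≠ 0 ∧ a = algebraMap k Ω c * b := by
  obtain ⟨c, hc⟩ := unit_of_pow (k := k) hn (ζ := a / b)
    (by rw [div_pow, h, div_self (pow_ne_zero n hb)])
  refine ⟨c, ?_, by rw [hc, div_mul_cancel₀ _ hb]⟩
  rintro rfl
  rw [map_zero] at hc
  exact div_ne_zero ha hb hc.symm

end Unit

/-! ### The systems -/

namespace RS

section Basic

omit [IsAlgClosed k] [CharP k p] [Algebra k Ω] [Field k] [IsAlgClosed Ω] [CharP Ω p]

theorem n_ne (h : RS p v Γ X m X') : m ≠ 0 := by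
  rintro rfl
  exact h.nd (dvd_zero p)

theorem ne (h : RS p v Γ X m X') (hX : X 0 ≠ 0) (j : ℕ) : X' j ≠ 0 := by
  refine rt_ne h.root (fun h1 => hX ?_) j
  rw [← h.pow 0, h1, zero_pow h.n_ne]

/-- the values of the levels -/
theorem val_mul (h : RS p v Γ X m X') (hX : X 0 ≠ 0) (j : ℕ) : m * v (X' j) = v (X j) := by
  rw [← h.pow j, v.map_pow (h.ne hX j)]

theorem val_eq (h : RS p v Γ X m X') (hX : X 0 ≠ 0) (j : ℕ) : v (X' j) = v (X j) / m := by
  have h1 : (m : ℝ) ≠ 0 := by exact_mod_cast h.n_ne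
  rw [← h.val_mul hX j, mul_div_cancel_left₀ _ h1]

theorem neg (h : RS p v Γ X m X') (hX : X 0 ≠ 0) (hv : v (X 0) < 0) : v (X' 0) < 0 := by
  rw [h.val_eq hX]
  exact div_neg_of_neg_of_pos hv (by exact_mod_cast Nat.pos_of_ne_zero h.n_ne)

theorem rootX (h : RS p v Γ X m X') (j : ℕ) : X (j + 1) ^ p = X j := by
  rw [← h.pow, ← h.pow, ← pow_mul, mul_comm, pow_mul, h.root]

theorem refl (hr : ∀ n, X (n + 1) ^ p = X n) (hv : v (X 0) ∈ Γ) : RS p v Γ X 1 X where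
  root := hr
  pow := fun j => pow_one _
  val := hv
  nd := hp.out.one_lt.not_ge ∘ Nat.le_of_dvd one_pos

theorem trans {r : ℕ} {X'' : ℕ → Ω} (h : RS p v Γ X m X') (h' : RS p v Γ X' r X'') :
    RS p v Γ X (m * r) X'' where
  root := h'.root
  pow := fun j => by rw [mul_comm, pow_mul, h'.pow, h.pow]
  val := h'.val
  nd := fun h1 => (hp.out.dvd_mul.1 h1).elim h.nd h'.nd

theorem val_mem (h : RS p v Γ X m X') (hX : X 0 ≠ 0) (hdiv : ∀ g ∈ Γ, g / p ∈ Γ) (j : ℕ) :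
    v (X' j) ∈ Γ := by
  rw [rt_val h.root (h.ne hX 0)]
  induction j with
  | zero =>
    rw [pow_zero, div_one]
    exact h.val
  | succ j ih =>
    rw [pow_succ, ← div_div]
    exact hdiv _ ih

end Basic

omit [IsAlgClosed k] [CharP k p] [Algebra k Ω] [Field k] in
/-- The systems of order `m`. -/
theorem exists_of_val (hr : ∀ j, X (j + 1) ^ p = X j) (hX : X 0 ≠ 0) (hn : ¬ p ∣ m)
    (hΓ : v (X 0) / m ∈ Γ) : ∃ X', RS p v Γ X m X' := by
  have hn0 : m ≠ 0 := by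
    rintro rfl
    exact hn (dvd_zero p)
  obtain ⟨a, ha⟩ := IsAlgClosed.exists_pow_nat_eq (X 0) (Nat.pos_of_ne_zero hn0)
  have hroot : ∀ w : Ω, ∃ z, z ^ p = w := fun w => IsAlgClosed.exists_pow_nat_eq w hp.out.pos
  choose rt hrt using hroot
  set U : ℕ → Ω := fun j => Nat.rec a (fun _ w => rt w) j with hU
  have hU1 : ∀ j, U (j + 1) ^ p = U j := fun j => hrt _
  have ha0 : a ≠ 0 := by
    rintro rfl
    rw [zero_pow hn0] at ha
    exact hX ha.symm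
  refine ⟨U, hn, hU1, fun j => ?_, ?_⟩
  · induction j with
    | zero => exact ha
    | succ j ih =>
      refine frobenius_inj Ω p ?_
      rw [frobenius_def, frobenius_def, ← pow_mul, mul_comm, pow_mul, hU1, ih, hr]
  · have h1 : v (X 0) = m * v a := by rw [← ha, v.map_pow ha0]
    have h2 : (m : ℝ) ≠ 0 := by exact_mod_cast hn0
    rw [h1, mul_div_cancel_left₀ _ h2] at hΓ
    exact hΓ

omit [IsAlgClosed k] [CharP k p] [Algebra k Ω] [Field k] in
theorem common0 {m₁ : ℕ} {X₁ : ℕ → Ω} (hX : X 0 ≠ 0) (h : RS p v Γ X m X')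
    (h₁ : RS p v Γ X m₁ X₁) : ∃ (r r₁ : ℕ) (X'' : ℕ → Ω), RS p v Γ X' r X'' ∧ ¬ p ∣ r₁ ∧
      m * r = m₁ * r₁ := by
  have hn := h.n_ne
  have hn' := h₁.n_ne
  obtain ⟨g, a, b, hg, rfl, rfl⟩ : ∃ g a b : ℕ, g = m.gcd m₁ ∧ m = g * a ∧ m₁ = g * b := by
    obtain ⟨a, ha⟩ := m.gcd_dvd_left m₁
    obtain ⟨b, hb⟩ := m.gcd_dvd_right m₁
    exact ⟨_, a, b, rfl, ha, hb⟩
  have hg0 : g ≠ 0 := by
    rintro rfl
    exact hn (zero_mul a)
  have ha0 : a ≠ 0 := by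
    rintro rfl
    exact hn (mul_zero g)
  have hb0 : b ≠ 0 := by
    rintro rfl
    exact hn' (mul_zero g)
  have hb1 : ¬ p ∣ b := fun h2 => h₁.nd (dvd_mul_of_dvd_right h2 g)
  have ha1 : ¬ p ∣ a := fun h2 => h.nd (dvd_mul_of_dvd_right h2 g)
  have hbez : (g : ℤ) = (g * a : ℕ) * (g * a).gcdA (g * b) +
      (g * b : ℕ) * (g * a).gcdB (g * b) := by
    rw [← Nat.gcd_eq_gcd_ab, ← hg]
  set u := (g * a).gcdA (g * b)
  set w := (g * a).gcdB (g * b)
  have e1 : v (X' 0) / (b : ℝ) = u * v (X₁ 0) + w * v (X' 0) := by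
    have h3 : (g : ℝ) = (g * a : ℕ) * u + (g * b : ℕ) * w := by exact_mod_cast hbez
    have h4 := h.val_eq hX 0
    have h5 := h₁.val_eq hX 0
    have h6 : (g : ℝ) ≠ 0 := by exact_mod_cast hg0
    have h7 : (a : ℝ) ≠ 0 := by exact_mod_cast ha0
    have h8 : (b : ℝ) ≠ 0 := by exact_mod_cast hb0
    have h9 : (1 : ℝ) = a * u + b * w := by
      refine mul_left_cancel₀ h6 ?_
      push_cast at h3
      linarith
    rw [h4, h5]
    push_cast
    field_simp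
    linear_combination (v (X 0)) * h9
  obtain ⟨V, hV⟩ := exists_of_val (Γ := Γ) (m := b) h.root (h.ne hX 0) hb1 (by
    rw [e1]
    refine Γ.add_mem ?_ ?_
    · rw [← zsmul_eq_mul]
      exact Γ.zsmul_mem h₁.val u
    · rw [← zsmul_eq_mul]
      exact Γ.zsmul_mem h.val w)
  exact ⟨b, a, V, hV, ha1, by ring⟩

omit [CharP k p] in
/-- Common refinement. -/
theorem common {m₁ : ℕ} {X₁ : ℕ → Ω} (hX : X 0 ≠ 0) (h : RS p v Γ X m X')
    (h₁ : RS p v Γ X m₁ X₁) : ∃ (r r₁ : ℕ) (X'' : ℕ → Ω), RS p v Γ X' r X'' ∧ ¬ p ∣ r₁ ∧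
      m * r = m₁ * r₁ ∧ ∀ n, ∃ c : k, c ≠ 0 ∧ X₁ n = algebraMap k Ω c * X'' n ^ r₁ := by
  obtain ⟨r, r₁, V, hV, hr₁, e⟩ := common0 hX h h₁
  refine ⟨r, r₁, V, hV, hr₁, e, fun n => ?_⟩
  refine mul_of_pow k h₁.n_ne (h₁.ne hX n) (pow_ne_zero r₁ (hV.ne (h.ne hX 0) n)) ?_
  rw [h₁.pow, ← pow_mul, mul_comm r₁ m₁, ← e, (h.trans hV).pow]

end RS

/-! ### The spans -/

section Span

omit [CharP k p] [CharP Ω p] [IsAlgClosed k] [IsAlgClosed Ω]

theorem mem_ST {i : ℕ} (h : RS p v Γ X m X') (hn : j ≤ n) (hi : (i : ℝ) ≤ m * B) :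
    X' n ^ i ∈ ST k p v Γ X B j :=
  Submodule.subset_span ⟨m, X', n, i, h, hn, hi, rfl⟩

theorem mem_STs {i : ℕ} (h : RS p v Γ X m X') (hn : j ≤ n) (hi : (i : ℝ) < m * B) :
    X' n ^ i ∈ STs k p v Γ X B j :=
  Submodule.subset_span ⟨m, X', n, i, h, hn, hi, rfl⟩

theorem mem_SAs {i : ℕ} (h : RS p v Γ X m X') (n l : ℕ) (hi : (i : ℝ) < m * B) :
    X' n ^ (i * p ^ l) ∈ SAs k p v Γ X B :=
  Submodule.subset_span ⟨m, X', n, l, i, h, hi, rfl⟩

theorem SW_le_ST (h : RS p v Γ X m X') (hb : (b : ℝ) ≤ m * B) :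
    SW k X' b j ≤ ST k p v Γ X B j := by
  refine Submodule.span_le.2 ?_
  rintro _ ⟨n, i, hn, hi, rfl⟩
  have h1 : (i : ℝ) ≤ b := by exact_mod_cast hi
  exact mem_ST h hn (h1.trans hb)

theorem SW_le_STs (h : RS p v Γ X m X') (hb : (b : ℝ) < m * B) :
    SW k X' b j ≤ STs k p v Γ X B j := by
  refine Submodule.span_le.2 ?_
  rintro _ ⟨n, i, hn, hi, rfl⟩
  have h1 : (i : ℝ) ≤ b := by exact_mod_cast hi
  exact mem_STs h hn (h1.trans_lt hb)

theorem SA_le_SAs (h : RS p v Γ X m X') (hb : (b : ℝ) < m * B) :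
    SA k p X' b ≤ SAs k p v Γ X B := by
  refine Submodule.span_le.2 ?_
  rintro _ ⟨n, l, i, hi, rfl⟩
  have h1 : (i : ℝ) ≤ b := by exact_mod_cast hi
  exact mem_SAs h n l (h1.trans_lt hb)

theorem ST_mono {B' : ℝ} {j' : ℕ} (hB : B ≤ B') (hj : j' ≤ j) :
    ST k p v Γ X B j ≤ ST k p v Γ X B' j' := by
  refine Submodule.span_mono ?_
  rintro _ ⟨m, X', n, i, h, hn, hi, rfl⟩
  exact ⟨m, X', n, i, h, hj.trans hn,
    hi.trans (mul_le_mul_of_nonneg_left hB (Nat.cast_nonneg m)), rfl⟩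

theorem STs_mono {B' : ℝ} {j' : ℕ} (hB : B ≤ B') (hj : j' ≤ j) :
    STs k p v Γ X B j ≤ STs k p v Γ X B' j' := by
  refine Submodule.span_mono ?_
  rintro _ ⟨m, X', n, i, h, hn, hi, rfl⟩
  exact ⟨m, X', n, i, h, hj.trans hn,
    hi.trans_le (mul_le_mul_of_nonneg_left hB (Nat.cast_nonneg m)), rfl⟩

theorem SAs_mono {B' : ℝ} (hB : B ≤ B') : SAs k p v Γ X B ≤ SAs k p v Γ X B' := by
  refine Submodule.span_mono ?_
  rintro _ ⟨m, X', n, l, i, h, hi, rfl⟩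
  exact ⟨m, X', n, l, i, h,
    hi.trans_le (mul_le_mul_of_nonneg_left hB (Nat.cast_nonneg m)), rfl⟩

theorem STs_le_ST : STs k p v Γ X B j ≤ ST k p v Γ X B j := by
  refine Submodule.span_mono ?_
  rintro _ ⟨m, X', n, i, h, hn, hi, rfl⟩
  exact ⟨m, X', n, i, h, hn, hi.le, rfl⟩

/-- the letters of exponents `≤ B < B'` -/
theorem ST_le_STs {B' : ℝ} {j' : ℕ} (hB : B < B') (hj : j' ≤ j) :
    ST k p v Γ X B j ≤ STs k p v Γ X B' j' := by
  refine Submodule.span_mono ?_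
  rintro _ ⟨m, X', n, i, h, hn, hi, rfl⟩
  have h1 : (0 : ℝ) < m := by exact_mod_cast Nat.pos_of_ne_zero h.n_ne
  exact ⟨m, X', n, i, h, hj.trans hn, hi.trans_lt (mul_lt_mul_of_pos_left hB h1), rfl⟩

theorem STs_le_SAs : STs k p v Γ X B j ≤ SAs k p v Γ X B := by
  refine Submodule.span_mono ?_
  rintro _ ⟨m, X', n, i, h, hn, hi, rfl⟩
  exact ⟨m, X', n, 0, i, h, hi, by rw [pow_zero, mul_one]⟩

/-- the constants -/
theorem C_mem_ST (hr : ∀ n, X (n + 1) ^ p = X n) (hv : v (X 0) ∈ Γ) (hB : 0 ≤ B) (c : k) :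
    algebraMap k Ω c ∈ ST k p v Γ X B j := by
  have h1 := mem_ST (k := k) (RS.refl hr hv) (n := j) (i := 0) (B := B) le_rfl (by simpa using hB)
  have h2 := Submodule.smul_mem (ST k p v Γ X B j) c h1
  rwa [pow_zero, Algebra.smul_def, mul_one] at h2

theorem C_mem_STs (hr : ∀ n, X (n + 1) ^ p = X n) (hv : v (X 0) ∈ Γ) (hB : 0 < B) (c : k) :
    algebraMap k Ω c ∈ STs k p v Γ X B j := by
  have h1 := mem_STs (k := k) (RS.refl hr hv) (n := j) (i := 0) (B := B) le_rfl (by simpa using hB)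
  have h2 := Submodule.smul_mem (STs k p v Γ X B j) c h1
  rwa [pow_zero, Algebra.smul_def, mul_one] at h2

end Span

/-! ### Renaming -/

section Ren

omit [CharP k p]

/-- Renaming of the system. -/
theorem ST_eq (hX : X 0 ≠ 0) (h : RS p v Γ X m X') :
    ST k p v Γ X B j = ST k p v Γ X' (m * B) j := by
  refine le_antisymm (Submodule.span_le.2 ?_) (Submodule.span_le.2 ?_)
  · rintro _ ⟨m₁, X₁, n, i, h₁, hn, hi, rfl⟩
    obtain ⟨r, r₁, V, hV, -, e, hc⟩ := RS.common (k := k) hX h h₁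
    obtain ⟨c, -, hc⟩ := hc n
    have e' : (m : ℝ) * r = m₁ * r₁ := by exact_mod_cast e
    rw [hc, mul_pow, ← map_pow, ← Algebra.smul_def, ← pow_mul]
    refine Submodule.smul_mem _ _ (mem_ST hV hn ?_)
    push_cast
    have h1 : (0 : ℝ) ≤ r₁ := Nat.cast_nonneg r₁
    have h2 : (r : ℝ) * (m * B) = r₁ * (m₁ * B) := by linear_combination B * e'
    rw [h2]
    exact mul_le_mul_of_nonneg_left hi h1
  · rintro _ ⟨r, V, n, i, hV, hn, hi, rfl⟩
    refine mem_ST (h.trans hV) hn (hi.trans (le_of_eq ?_))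
    push_cast
    ring

theorem STs_eq (hX : X 0 ≠ 0) (h : RS p v Γ X m X') :
    STs k p v Γ X B j = STs k p v Γ X' (m * B) j := by
  refine le_antisymm (Submodule.span_le.2 ?_) (Submodule.span_le.2 ?_)
  · rintro _ ⟨m₁, X₁, n, i, h₁, hn, hi, rfl⟩
    obtain ⟨r, r₁, V, hV, hr₁, e, hc⟩ := RS.common (k := k) hX h h₁
    obtain ⟨c, -, hc⟩ := hc n
    have e' : (m : ℝ) * r = m₁ * r₁ := by exact_mod_cast e
    rw [hc, mul_pow, ← map_pow, ← Algebra.smul_def, ← pow_mul]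
    refine Submodule.smul_mem _ _ (mem_STs hV hn ?_)
    push_cast
    have h1 : (0 : ℝ) < r₁ := by
      exact_mod_cast Nat.pos_of_ne_zero fun h0 => hr₁ (by rw [h0]; exact dvd_zero p)
    have h2 : (r : ℝ) * (m * B) = r₁ * (m₁ * B) := by linear_combination B * e'
    rw [h2]
    exact mul_lt_mul_of_pos_left hi h1
  · rintro _ ⟨r, V, n, i, hV, hn, hi, rfl⟩
    refine mem_STs (h.trans hV) hn (hi.trans_le (le_of_eq ?_))
    push_cast
    ring

theorem SAs_eq (hX : X 0 ≠ 0) (h : RS p v Γ X m X') :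
    SAs k p v Γ X B = SAs k p v Γ X' (m * B) := by
  refine le_antisymm (Submodule.span_le.2 ?_) (Submodule.span_le.2 ?_)
  · rintro _ ⟨m₁, X₁, n, l, i, h₁, hi, rfl⟩
    obtain ⟨r, r₁, V, hV, hr₁, e, hc⟩ := RS.common (k := k) hX h h₁
    obtain ⟨c, -, hc⟩ := hc n
    have e' : (m : ℝ) * r = m₁ * r₁ := by exact_mod_cast e
    rw [hc, mul_pow, ← map_pow, ← Algebra.smul_def, ← pow_mul, ← mul_assoc]
    refine Submodule.smul_mem _ _ (mem_SAs hV n l ?_)
    push_cast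
    have h1 : (0 : ℝ) < r₁ := by
      exact_mod_cast Nat.pos_of_ne_zero fun h0 => hr₁ (by rw [h0]; exact dvd_zero p)
    have h2 : (r : ℝ) * (m * B) = r₁ * (m₁ * B) := by linear_combination B * e'
    rw [h2]
    exact mul_lt_mul_of_pos_left hi h1
  · rintro _ ⟨r, V, n, l, i, hV, hi, rfl⟩
    refine mem_SAs (h.trans hV) n l (hi.trans_le (le_of_eq ?_))
    push_cast
    ring

end Ren

/-! ### One level -/

section Level

omit [CharP k p]

/-- The spans of two systems. -/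
theorem SW_ref {r₁ : ℕ} {X₁ V : ℕ → Ω}
    (hc : ∀ n, ∃ c : k, c ≠ 0 ∧ X₁ n = algebraMap k Ω c * V n ^ r₁) :
    SW k X₁ b j ≤ SW k V (r₁ * b) j := by
  refine Submodule.span_le.2 ?_
  rintro _ ⟨n, i, hn, hi, rfl⟩
  obtain ⟨c, -, hc⟩ := hc n
  rw [hc, mul_pow, ← map_pow, ← Algebra.smul_def, ← pow_mul]
  exact Submodule.smul_mem _ _ (PF.mem_SW hn (Nat.mul_le_mul_left r₁ hi))

theorem SA_ref {r₁ : ℕ} {X₁ V : ℕ → Ω}
    (hc : ∀ n, ∃ c : k, c ≠ 0 ∧ X₁ n = algebraMap k Ω c * V n ^ r₁) :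
    SA k p X₁ b ≤ SA k p V (r₁ * b) := by
  refine Submodule.span_le.2 ?_
  rintro _ ⟨n, l, i, hi, rfl⟩
  obtain ⟨c, -, hc⟩ := hc n
  rw [hc, mul_pow, ← map_pow, ← Algebra.smul_def, ← pow_mul, ← mul_assoc]
  exact Submodule.smul_mem _ _ (PF.mem_SA n l (Nat.mul_le_mul_left r₁ hi))

theorem pow_ref {r : ℕ} {V : ℕ → Ω} (hV : RS p v Γ X' r V) :
    ∀ n, ∃ c : k, c ≠ 0 ∧ X' n = algebraMap k Ω c * V n ^ r := fun n =>
  ⟨1, one_ne_zero, by rw [map_one, one_mul, hV.pow]⟩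

/-- A finite sum of letters lives at a finite level. -/
theorem ST_level (hr : ∀ n, X (n + 1) ^ p = X n) (hX : X 0 ≠ 0) (hv : v (X 0) ∈ Γ) (hB : 0 ≤ B)
    (h : s ∈ ST k p v Γ X B j) : ∃ (m b : ℕ) (X' : ℕ → Ω), RS p v Γ X m X' ∧ (b : ℝ) ≤ m * B ∧
      s ∈ SW k X' b j := by
  induction h using Submodule.span_induction with
  | mem x hx =>
    obtain ⟨m, X', n, i, h, hn, hi, rfl⟩ := hx
    exact ⟨m, i, X', h, hi, PF.mem_SW hn le_rfl⟩
  | zero => exact ⟨1, 0, X, RS.refl hr hv, by simpa using hB, zero_mem _⟩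
  | add x y _ _ hx hy =>
    obtain ⟨m, b, X', h, hb, h1⟩ := hx
    obtain ⟨m₁, b₁, X₁, h₁, hb₁, h2⟩ := hy
    obtain ⟨r, r₁, V, hV, hr₁, e, hc⟩ := RS.common (k := k) hX h h₁
    have e' : (m : ℝ) * r = m₁ * r₁ := by exact_mod_cast e
    refine ⟨m * r, max (r * b) (r₁ * b₁), V, h.trans hV, ?_, add_mem ?_ ?_⟩
    · have h3 : (0 : ℝ) ≤ r := Nat.cast_nonneg r
      have h4 : (0 : ℝ) ≤ r₁ := Nat.cast_nonneg r₁
      push_cast
      refine max_le ?_ ?_
      · have := mul_le_mul_of_nonneg_left hb h3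
        linarith
      · rw [e']
        have := mul_le_mul_of_nonneg_left hb₁ h4
        linarith
    · exact PF.SW_mono (le_max_left _ _) le_rfl (SW_ref (pow_ref hV) h1)
    · exact PF.SW_mono (le_max_right _ _) le_rfl (SW_ref hc h2)
  | smul a x _ hx =>
    obtain ⟨m, b, X', h, hb, h1⟩ := hx
    exact ⟨m, b, X', h, hb, Submodule.smul_mem _ _ h1⟩

theorem STs_level (hr : ∀ n, X (n + 1) ^ p = X n) (hX : X 0 ≠ 0) (hv : v (X 0) ∈ Γ) (hB : 0 < B)
    (h : s ∈ STs k p v Γ X B j) : ∃ (m b : ℕ) (X' : ℕ → Ω), RS p v Γ X m X' ∧ (b : ℝ) < m * B ∧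
      s ∈ SW k X' b j := by
  induction h using Submodule.span_induction with
  | mem x hx =>
    obtain ⟨m, X', n, i, h, hn, hi, rfl⟩ := hx
    exact ⟨m, i, X', h, hi, PF.mem_SW hn le_rfl⟩
  | zero => exact ⟨1, 0, X, RS.refl hr hv, by simpa using hB, zero_mem _⟩
  | add x y _ _ hx hy =>
    obtain ⟨m, b, X', h, hb, h1⟩ := hx
    obtain ⟨m₁, b₁, X₁, h₁, hb₁, h2⟩ := hy
    obtain ⟨r, r₁, V, hV, hr₁, e, hc⟩ := RS.common (k := k) hX h h₁
    have e' : (m : ℝ) * r = m₁ * r₁ := by exact_mod_cast e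
    refine ⟨m * r, max (r * b) (r₁ * b₁), V, h.trans hV, ?_, add_mem ?_ ?_⟩
    · have h3 : (0 : ℝ) < r := by exact_mod_cast Nat.pos_of_ne_zero hV.n_ne
      have h4 : (0 : ℝ) < r₁ := by
        exact_mod_cast Nat.pos_of_ne_zero fun h0 => hr₁ (by rw [h0]; exact dvd_zero p)
      push_cast
      refine max_lt ?_ ?_
      · have := mul_lt_mul_of_pos_left hb h3
        linarith
      · rw [e']
        have := mul_lt_mul_of_pos_left hb₁ h4
        linarith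
    · exact PF.SW_mono (le_max_left _ _) le_rfl (SW_ref (pow_ref hV) h1)
    · exact PF.SW_mono (le_max_right _ _) le_rfl (SW_ref hc h2)
  | smul a x _ hx =>
    obtain ⟨m, b, X', h, hb, h1⟩ := hx
    exact ⟨m, b, X', h, hb, Submodule.smul_mem _ _ h1⟩

theorem SAs_level (hr : ∀ n, X (n + 1) ^ p = X n) (hX : X 0 ≠ 0) (hv : v (X 0) ∈ Γ) (hB : 0 < B)
    (h : s ∈ SAs k p v Γ X B) : ∃ (m b : ℕ) (X' : ℕ → Ω), RS p v Γ X m X' ∧ (b : ℝ) < m * B ∧
      s ∈ SA k p X' b := by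
  induction h using Submodule.span_induction with
  | mem x hx =>
    obtain ⟨m, X', n, l, i, h, hi, rfl⟩ := hx
    exact ⟨m, i, X', h, hi, PF.mem_SA n l le_rfl⟩
  | zero => exact ⟨1, 0, X, RS.refl hr hv, by simpa using hB, zero_mem _⟩
  | add x y _ _ hx hy =>
    obtain ⟨m, b, X', h, hb, h1⟩ := hx
    obtain ⟨m₁, b₁, X₁, h₁, hb₁, h2⟩ := hy
    obtain ⟨r, r₁, V, hV, hr₁, e, hc⟩ := RS.common (k := k) hX h h₁
    have e' : (m : ℝ) * r = m₁ * r₁ := by exact_mod_cast e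
    refine ⟨m * r, max (r * b) (r₁ * b₁), V, h.trans hV, ?_, add_mem ?_ ?_⟩
    · have h3 : (0 : ℝ) < r := by exact_mod_cast Nat.pos_of_ne_zero hV.n_ne
      have h4 : (0 : ℝ) < r₁ := by
        exact_mod_cast Nat.pos_of_ne_zero fun h0 => hr₁ (by rw [h0]; exact dvd_zero p)
      push_cast
      refine max_lt ?_ ?_
      · have := mul_lt_mul_of_pos_left hb h3
        linarith
      · rw [e']
        have := mul_lt_mul_of_pos_left hb₁ h4
        linarith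
    · exact PF.SA_mono (le_max_left _ _) (SA_ref (pow_ref hV) h1)
    · exact PF.SA_mono (le_max_right _ _) (SA_ref hc h2)
  | smul a x _ hx =>
    obtain ⟨m, b, X', h, hb, h1⟩ := hx
    exact ⟨m, b, X', h, hb, Submodule.smul_mem _ _ h1⟩

end Level

/-! ### Powers and roots -/

section Pow

omit [IsAlgClosed Ω]

theorem ST_pow (h : s ∈ ST k p v Γ X B (j + 1)) : s ^ p ∈ ST k p v Γ X B j := by
  refine PF.span_pow ?_ h
  rintro _ ⟨m, X', n, i, h, hn, hi, rfl⟩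
  obtain ⟨l, rfl⟩ : ∃ l, n = l + 1 := ⟨n - 1, by omega⟩
  rw [← pow_mul, mul_comm, pow_mul, h.root]
  exact mem_ST h (by omega) hi

theorem STs_pow (h : s ∈ STs k p v Γ X B (j + 1)) : s ^ p ∈ STs k p v Γ X B j := by
  refine PF.span_pow ?_ h
  rintro _ ⟨m, X', n, i, h, hn, hi, rfl⟩
  obtain ⟨l, rfl⟩ : ∃ l, n = l + 1 := ⟨n - 1, by omega⟩
  rw [← pow_mul, mul_comm, pow_mul, h.root]
  exact mem_STs h (by omega) hi

theorem SAs_pow (h : s ∈ SAs k p v Γ X B) : s ^ p ∈ SAs k p v Γ X B := by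
  refine PF.span_pow ?_ h
  rintro _ ⟨m, X', n, l, i, h, hi, rfl⟩
  rw [← pow_mul, mul_assoc, ← pow_succ]
  exact mem_SAs h n (l + 1) hi

theorem ST_root (h : s ∈ ST k p v Γ X B j) : ∃ r ∈ ST k p v Γ X B (j + 1), r ^ p = s := by
  refine PF.span_root ?_ h
  rintro _ ⟨m, X', n, i, h, hn, hi, rfl⟩
  exact ⟨X' (n + 1) ^ i, mem_ST h (by omega) hi, by rw [← pow_mul, mul_comm, pow_mul, h.root]⟩

theorem STs_root (h : s ∈ STs k p v Γ X B j) : ∃ r ∈ STs k p v Γ X B (j + 1), r ^ p = s := by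
  refine PF.span_root ?_ h
  rintro _ ⟨m, X', n, i, h, hn, hi, rfl⟩
  exact ⟨X' (n + 1) ^ i, mem_STs h (by omega) hi, by rw [← pow_mul, mul_comm, pow_mul, h.root]⟩

theorem SAs_root (h : s ∈ SAs k p v Γ X B) : ∃ r ∈ SAs k p v Γ X B, r ^ p = s := by
  refine PF.span_root ?_ h
  rintro _ ⟨m, X', n, l, i, h, hi, rfl⟩
  exact ⟨X' (n + 1) ^ (i * p ^ l), mem_SAs h (n + 1) l hi,
    by rw [← pow_mul, mul_comm, pow_mul, h.root]⟩

end Pow

/-! ### The shift -/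

omit [CharP k p] [CharP Ω p] [IsAlgClosed k] [IsAlgClosed Ω] [Algebra k Ω] [Field k] in
theorem RS.shift (h : RS p v Γ X m X') (hX : X 0 ≠ 0) (hdiv : ∀ g ∈ Γ, g / p ∈ Γ) (e : ℕ) :
    RS p v Γ (fun n => X (e + n)) m fun n => X' (e + n) where
  nd := h.nd
  root := fun n => h.root (e + n)
  pow := fun n => h.pow (e + n)
  val := h.val_mem hX hdiv e

omit [CharP k p] [CharP Ω p] [IsAlgClosed k] [IsAlgClosed Ω] [Algebra k Ω] [Field k] in
theorem RS.unshift (hr : ∀ n, X (n + 1) ^ p = X n) (hX : X 0 ≠ 0) (e : ℕ)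
    (h : RS p v Γ (fun n => X (e + n)) m X') :
    ∃ V, RS p v Γ X m V ∧ ∀ n, V (e + n) = X' n := by
  have hX' : X' 0 ≠ 0 := by
    intro h1
    have h2 := h.pow 0
    rw [h1, zero_pow h.n_ne] at h2
    exact rt_ne hr hX _ h2.symm
  refine ⟨fun n => X' (n - e) ^ p ^ (e - n), ⟨h.nd, fun n => ?_, fun n => ?_, ?_⟩, fun n => ?_⟩
  · rcases le_or_gt e n with h1 | h1
    · simp only [Nat.sub_eq_zero_of_le h1, Nat.sub_eq_zero_of_le (h1.trans (Nat.le_succ n)),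
        pow_zero, pow_one, Nat.succ_sub h1]
      exact h.root _
    · simp only [Nat.sub_eq_zero_of_le h1.le, Nat.sub_eq_zero_of_le (Nat.succ_le_of_lt h1)]
      rw [← pow_mul, ← pow_succ, show e - (n + 1) + 1 = e - n by omega]
  · rcases le_or_gt e n with h1 | h1
    · simp only [Nat.sub_eq_zero_of_le h1, pow_zero, pow_one]
      have := h.pow (n - e)
      rwa [show e + (n - e) = n by omega] at this
    · simp only [Nat.sub_eq_zero_of_le h1.le]
      have h2 := h.pow 0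
      simp only [Nat.add_zero] at h2
      rw [← pow_mul, mul_comm, pow_mul, h2]
      have := root_pow_add hr n (e - n)
      rwa [show n + (e - n) = e by omega] at this
  · simp only [Nat.zero_sub, Nat.sub_zero]
    rw [v.map_pow hX', ← nsmul_eq_mul]
    exact Γ.nsmul_mem h.val _
  · simp only [Nat.add_sub_cancel_left, Nat.sub_eq_zero_of_le (Nat.le_add_right e n), pow_zero,
      pow_one]

omit [CharP k p] [CharP Ω p] [IsAlgClosed k] [IsAlgClosed Ω] in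
/-- The system `X (e + ·)`: the letters at the positions `≥ j` of `X (e + ·)`. -/
theorem ST_shift (hr : ∀ n, X (n + 1) ^ p = X n) (hX : X 0 ≠ 0) (hdiv : ∀ g ∈ Γ, g / p ∈ Γ)
    (e : ℕ) : ST k p v Γ (fun n => X (e + n)) B j = ST k p v Γ X B (e + j) := by
  refine le_antisymm (Submodule.span_mono ?_) (Submodule.span_mono ?_)
  · rintro _ ⟨m, X', n, i, h, hn, hi, rfl⟩
    obtain ⟨V, hV, hV'⟩ := RS.unshift hr hX e h
    exact ⟨m, V, e + n, i, hV, by omega, hi, by rw [hV']⟩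
  · rintro _ ⟨m, X', n, i, h, hn, hi, rfl⟩
    refine ⟨m, fun n => X' (e + n), n - e, i, h.shift hX hdiv e, by omega, hi, ?_⟩
    simp only [show e + (n - e) = n by omega]

omit [CharP k p] [CharP Ω p] [IsAlgClosed k] [IsAlgClosed Ω] in
theorem STs_shift (hr : ∀ n, X (n + 1) ^ p = X n) (hX : X 0 ≠ 0) (hdiv : ∀ g ∈ Γ, g / p ∈ Γ)
    (e : ℕ) : STs k p v Γ (fun n => X (e + n)) B j = STs k p v Γ X B (e + j) := by
  refine le_antisymm (Submodule.span_mono ?_) (Submodule.span_mono ?_)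
  · rintro _ ⟨m, X', n, i, h, hn, hi, rfl⟩
    obtain ⟨V, hV, hV'⟩ := RS.unshift hr hX e h
    exact ⟨m, V, e + n, i, hV, by omega, hi, by rw [hV']⟩
  · rintro _ ⟨m, X', n, i, h, hn, hi, rfl⟩
    refine ⟨m, fun n => X' (e + n), n - e, i, h.shift hX hdiv e, by omega, hi, ?_⟩
    simp only [show e + (n - e) = n by omega]

/-! ### Values -/

section Val

omit [CharP k p] [CharP Ω p] [IsAlgClosed k] [IsAlgClosed Ω]

theorem ST_ge (h0 : Ctx0 k v) (hr : ∀ n, X (n + 1) ^ p = X n) (hX : X 0 ≠ 0)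
    (hv : v (X 0) < 0) (hB : 0 ≤ B) (h : s ∈ ST k p v Γ X B j) : v.Ge (B * v (X j)) s := by
  induction h using Submodule.span_induction with
  | mem x hx =>
    obtain ⟨m, X', n, i, h, hn, hi, rfl⟩ := hx
    refine (ge_pow (v.ge_self (X' n)) i).mono ?_
    rw [h.val_eq hX n]
    have h1 := PF.val_le hr hX hv hn
    have h2 := rt_neg hr hX hv n
    have h3 : (0 : ℝ) < m := by exact_mod_cast Nat.pos_of_ne_zero h.n_ne
    have h4 : (i : ℝ) / m ≤ B := by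
      rw [div_le_iff₀ h3]
      linarith
    have h5 : (i : ℝ) * (v (X n) / m) = (i / m) * v (X n) := by ring
    rw [h5]
    nlinarith
  | zero => exact RVal.Ge.zero
  | add x y _ _ hx hy => exact hx.add hy
  | smul a x _ hx =>
    rw [Algebra.smul_def]
    have h2 := (h0.ge a).mul hx
    rwa [zero_add] at h2

theorem Lm_ST_ge (h0 : Ctx0 k v) (hr : ∀ n, X (n + 1) ^ p = X n) (hX : X 0 ≠ 0)
    (hv : v (X 0) < 0) (hB : 0 ≤ B) (h : Lm v (ST k p v Γ X B j) f) : v.Ge (B * v (X j)) f := by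
  refine PF.ge_of_forall_pos fun ε hε => ?_
  obtain ⟨s, hs, h1⟩ := h ε hε
  have h2 := ST_ge h0 hr hX hv hB hs
  have h3 := rt_neg hr hX hv j
  have e : f = (f - s) + s := by ring
  rw [e]
  exact (h1.mono (by nlinarith)).add (h2.mono (by linarith))

end Val

end Pool.Agent.TWC.PW
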