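import Pool.Agent.Lib.TWC.PWa

/-!
# TANK W, class C: rational letters over a tame base (row PW), the first top letter

* `Lm_ST_split`: the part of exponents in `(B / p, B]` at the position `j`;
* `first_topT`: the first top letter.
-/

set_option autoImplicit false
set_option linter.unusedSectionVars false
set_option linter.unusedVariables false

open Polynomial

namespace Pool.Agent.TWC.PW

open Pool.Agent.H15JM (RVal)
open Pool.Agent.D2 (Ctx0)
open Pool.Agent.D2P (clI mem_clI)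
open Pool.Agent.TWM
open Pool.Agent.TWC.PF (Lm SW SA)

universe u

variable {k Ω : Type u} [Field k] [Field Ω] [Algebra k Ω] {v : RVal Ω} {Γ : AddSubgroup ℝ}
  {p : ℕ} [hp : Fact p.Prime] [CharP k p] [CharP Ω p] [IsAlgClosed k] [IsAlgClosed Ω]
  {X X' : ℕ → Ω} {y f s : Ω} {B : ℝ} {b j n m : ℕ}

omit [CharP k p] [CharP Ω p] [IsAlgClosed k] [IsAlgClosed Ω] in
/-- The letters at the position `j` of small values are letters at the position `j + 1`. -/
theorem SW_core (h0 : Ctx0 k v) (hr : ∀ n, X (n + 1) ^ p = X n) (hX : X 0 ≠ 0)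
    (hv : v (X 0) < 0) {c : ℝ} {q : Polynomial k} (hq : q.natDegree ≤ b)
    (hs : s ∈ SW k X b (j + 1)) (hc : ∀ i : ℕ, b < i * p → i * v (X j) < c)
    (h : v.Ge c (aeval (X j) q + s)) : aeval (X j) q ∈ SW k X b (j + 1) := by
  obtain ⟨L₀, hL₀⟩ := PF.SW_poly hr hs
  obtain ⟨P, hP, hP'⟩ := hL₀ (max L₀ j) (le_max_left _ _)
  set L := max L₀ j with hL
  have hjL : j ≤ L := le_max_right _ _
  have hroot : X L ^ p ^ (L - j) = X j := by
    have h1 := root_pow_add hr j (L - j)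
    rwa [show j + (L - j) = L by omega] at h1
  have hpj : 0 < p ^ (L - j) := pow_pos hp.out.pos _
  rw [aeval_eq_sum_range' (n := b + 1) (Nat.lt_succ_of_le hq)]
  refine sum_mem fun i hi => ?_
  by_cases hd : q.coeff i = 0
  · rw [hd, zero_smul]
    exact zero_mem _
  refine Submodule.smul_mem _ _ ?_
  by_cases hip : i * p ≤ b
  · have e : X j ^ i = X (j + 1) ^ (i * p) := by
      rw [mul_comm, pow_mul, hr]
    rw [e]
    exact PF.mem_SW le_rfl hip
  exfalso
  -- the coefficient of `X L ^ (i * p ^ (L - j))`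
  set Q : Polynomial k := expand k (p ^ (L - j)) q + P with hQ
  have hQ1 : v.Ge c (aeval (X L) Q) := by
    rw [hQ, map_add, expand_aeval, hroot, hP]
    exact h
  have hPc : P.coeff (i * p ^ (L - j)) = 0 := by
    by_contra h3
    obtain ⟨m, a, hm, hmL, ha, he⟩ := hP' _ h3
    have h4 : p ^ (L - j) = p ^ (m - j) * p ^ (L - m) := by
      rw [← pow_add]
      congr 1
      omega
    rw [h4, ← mul_assoc] at he
    have h5 : i * p ^ (m - j) = a := Nat.eq_of_mul_eq_mul_right (pow_pos hp.out.pos _) he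
    have h6 : p ≤ p ^ (m - j) := Nat.le_self_pow (by omega) p
    have h7 : i * p ≤ i * p ^ (m - j) := Nat.mul_le_mul_left i h6
    omega
  have hQ2 : Q.coeff (i * p ^ (L - j)) ≠ 0 := by
    rw [hQ, coeff_add, hPc, add_zero, coeff_expand_mul hpj]
    exact hd
  have h3 := PF.coeff_le h0 hr hX hv hQ1 hQ2
  have h4 : ((i * p ^ (L - j) : ℕ) : ℝ) * v (X L) = i * v (X j) := by
    rw [← hroot, v.map_pow (rt_ne hr hX L)]
    push_cast
    ring
  rw [h4] at h3
  exact absurd (hc i (not_le.1 hip)) (not_lt.2 h3)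

omit [CharP k p] in
/-- **The part of exponents in `(B / p, B]` at the position `j`.** -/
theorem Lm_ST_split (h0 : Ctx0 k v) (hr : ∀ n, X (n + 1) ^ p = X n) (hX : X 0 ≠ 0)
    (hv : v (X 0) < 0) (hΓ : v (X 0) ∈ Γ) (hB : 0 < B) (h : Lm v (ST k p v Γ X B j) f) :
    ∃ (m : ℕ) (X' : ℕ → Ω) (q : Polynomial k), RS p v Γ X m X' ∧ (q.natDegree : ℝ) ≤ m * B ∧
      Lm v (ST k p v Γ X B (j + 1)) (f - aeval (X' j) q) := by
  have hj := rt_neg hr hX hv j
  have hp0 : (0 : ℝ) < p := by exact_mod_cast hp.out.pos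
  set δ : ℝ := B / p * -v (X j) / 2 with hδ
  have hδ0 : 0 < δ := by
    have : 0 < B / p := div_pos hB hp0
    have h2 : 0 < -v (X j) := by linarith
    positivity
  obtain ⟨s₀, hs₀, h1⟩ := h δ hδ0
  obtain ⟨m, b, X', hm, hb, hs₀'⟩ := ST_level hr hX hΓ hB.le hs₀
  obtain ⟨q₀, hq₀, s₀', hs₀'', rfl⟩ := PF.SW_split hs₀'
  have hq₀' : (q₀.natDegree : ℝ) ≤ b := by exact_mod_cast hq₀
  refine ⟨m, X', q₀, hm, hq₀'.trans hb, fun ε hε => ?_⟩
  obtain ⟨s, hs, h2⟩ := h (min ε δ) (lt_min hε hδ0)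
  obtain ⟨m₁, b₁, X₁, hm₁, hb₁, hs'⟩ := ST_level hr hX hΓ hB.le hs
  obtain ⟨r, r₁, V, hV, hr₁, e, hc⟩ := RS.common (k := k) hX hm hm₁
  have e' : (m : ℝ) * r = m₁ * r₁ := by exact_mod_cast e
  have hmV := hm.trans hV
  have hmV0 : (0 : ℝ) < (m * r : ℕ) := by exact_mod_cast Nat.pos_of_ne_zero hmV.n_ne
  have hMB : (0 : ℝ) ≤ (m * r : ℕ) * B := mul_nonneg hmV0.le hB.le
  set c : ℕ := ⌊((m * r : ℕ) : ℝ) * B⌋₊ with hcdef
  have hcB : (c : ℝ) ≤ (m * r : ℕ) * B := Nat.floor_le hMB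
  have hrb : r * b ≤ c := by
    refine Nat.le_floor ?_
    push_cast
    have := mul_le_mul_of_nonneg_left hb (Nat.cast_nonneg r : (0 : ℝ) ≤ r)
    linarith
  have hrb₁ : r₁ * b₁ ≤ c := by
    refine Nat.le_floor ?_
    push_cast
    rw [e']
    have := mul_le_mul_of_nonneg_left hb₁ (Nat.cast_nonneg r₁ : (0 : ℝ) ≤ r₁)
    linarith
  have hs2 : s ∈ SW k V c j := PF.SW_mono hrb₁ le_rfl (SW_ref hc hs')
  obtain ⟨q, hq, s', hs'', rfl⟩ := PF.SW_split hs2
  have hs3 : s₀' ∈ SW k V c (j + 1) := PF.SW_mono hrb le_rfl (SW_ref (pow_ref hV) hs₀'')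
  have hV0 : V 0 ≠ 0 := hmV.ne hX 0
  have hVv : v (V 0) < 0 := hmV.neg hX hv
  -- the difference
  set Q : Polynomial k := q - expand k r q₀ with hQ
  have hQe : aeval (V j) Q = aeval (V j) q - aeval (X' j) q₀ := by
    rw [hQ, map_sub, expand_aeval, hV.pow]
  have hQd : Q.natDegree ≤ c := by
    rw [hQ]
    refine (natDegree_sub_le_of_le hq (natDegree_expand r q₀).le).trans (max_le le_rfl ?_)
    calc q₀.natDegree * r = r * q₀.natDegree := mul_comm _ _
      _ ≤ r * b := Nat.mul_le_mul_left r hq₀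
      _ ≤ c := hrb
  have hdiff : v.Ge (-δ) (aeval (V j) Q + (s' - s₀')) := by
    have e1 : aeval (V j) Q + (s' - s₀') =
        (f - (aeval (X' j) q₀ + s₀')) - (f - (aeval (V j) q + s')) := by
      rw [hQe]
      ring
    rw [e1]
    refine h1.sub (h2.mono ?_)
    have := min_le_right ε δ
    linarith
  have hmem : aeval (V j) Q ∈ SW k V c (j + 1) := by
    refine SW_core h0 hV.root hV0 hVv hQd (sub_mem hs'' hs3) (fun i hi => ?_) hdiff
    have h5 : ((m * r : ℕ) : ℝ) * B < i * p := by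
      have h6 := Nat.lt_of_floor_lt (hcdef ▸ hi)
      push_cast at h6
      push_cast
      exact h6
    have h7 := hmV.val_mul hX j
    have h8 : v (V j) = v (X j) / (m * r : ℕ) := hmV.val_eq hX j
    have h9 : B / p < (i : ℝ) / (m * r : ℕ) := by
      rw [div_lt_div_iff₀ hp0 hmV0]
      linarith
    have h10 : (i : ℝ) * v (V j) = (i : ℝ) / (m * r : ℕ) * v (X j) := by
      rw [h8]
      ring
    rw [h10, hδ]
    have h11 : B / p * v (X j) < 0 := mul_neg_of_pos_of_neg (div_pos hB hp0) hj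
    have h12 : (i : ℝ) / (m * r : ℕ) * v (X j) < B / p * v (X j) :=
      mul_lt_mul_of_neg_right h9 hj
    linarith
  refine ⟨s' + aeval (V j) Q, SW_le_ST hmV hcB (add_mem hs'' hmem), ?_⟩
  have e2 : f - aeval (X' j) q₀ - (s' + aeval (V j) Q) = f - (aeval (V j) q + s') := by
    rw [hQe]
    ring
  rw [e2]
  refine h2.mono ?_
  have := min_le_left ε δ
  linarith

omit [CharP k p] [IsAlgClosed k] in
private theorem WT_step (hr : ∀ n, X (n + 1) ^ p = X n) (hX : X 0 ≠ 0)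
    (hdiv : ∀ g ∈ Γ, g / p ∈ Γ) (e : ℕ) : WT k p v Γ (X e) ≤ WT k p v Γ (X (e + 1)) := by
  refine clI_mono' ?_
  rw [IntermediateField.adjoin_le_iff]
  rintro f ⟨m, hm, hf, hv⟩
  have hf0 : f ≠ 0 := by
    rintro rfl
    have h3 : m ≠ 0 := by
      rintro rfl
      exact hm (dvd_zero p)
    rw [zero_pow h3] at hf
    exact rt_ne hr hX e hf.symm
  obtain ⟨g, hg⟩ := IsAlgClosed.exists_pow_nat_eq f hp.out.pos
  have hg0 : g ≠ 0 := by
    rintro rfl
    rw [zero_pow hp.out.ne_zero] at hg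
    exact hf0 hg.symm
  have h1 : g ^ m = X (e + 1) := by
    refine frobenius_inj Ω p ?_
    rw [frobenius_def, frobenius_def, hr, ← pow_mul, mul_comm, pow_mul, hg, hf]
  have h2 : v g = v f / p := by
    rw [← hg, v.map_pow hg0, mul_div_cancel_left₀]
    exact_mod_cast hp.out.ne_zero
  have h4 : v g ∈ Γ := by
    rw [h2]
    exact hdiv _ hv
  have h5 : g ∈ IntermediateField.adjoin k {f : Ω | ∃ m : ℕ, ¬ p ∣ m ∧ f ^ m = X (e + 1) ∧
      v f ∈ Γ} := IntermediateField.subset_adjoin k _ ⟨m, hm, h1, h4⟩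
  rw [← hg]
  exact pow_mem h5 p

omit [CharP k p] in
/-- **The first top letter** (`B = b + 1`, a natural number for the system `X`). -/
theorem first_topT (h0 : Ctx0 k v) (hr : ∀ n, X (n + 1) ^ p = X n) (hX : X 0 ≠ 0)
    (hv : v (X 0) < 0) (hΓ : v (X 0) ∈ Γ) (hdiv : ∀ g ∈ Γ, g / p ∈ Γ)
    (h : Lm v (ST k p v Γ X (b + 1) 1) y) : Lm v (STs k p v Γ X (b + 1) 1) y ∨
      ∃ (e m : ℕ) (X' : ℕ → Ω) (g : Ω) (q : Polynomial k), RS p v Γ X m X' ∧
        g ∈ WT k p v Γ (X e) ∧ g ∈ STs k p v Γ X (b + 1) 1 ∧ q.natDegree = m * (b + 1) ∧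
        Lm v (ST k p v Γ X (b + 1) (e + 2)) (y - g - aeval (X' (e + 1)) q) := by
  by_cases hstop : ∃ (e m : ℕ) (X' : ℕ → Ω) (g : Ω) (q : Polynomial k), RS p v Γ X m X' ∧
        g ∈ WT k p v Γ (X e) ∧ g ∈ STs k p v Γ X (b + 1) 1 ∧ q.natDegree = m * (b + 1) ∧
        Lm v (ST k p v Γ X (b + 1) (e + 2)) (y - g - aeval (X' (e + 1)) q)
  · exact Or.inr hstop
  left
  have hB : (0 : ℝ) < (b : ℝ) + 1 := by positivity
  have key : ∀ e : ℕ, ∃ g : Ω, g ∈ WT k p v Γ (X e) ∧ g ∈ STs k p v Γ X (b + 1) 1 ∧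
      Lm v (ST k p v Γ X (b + 1) (e + 1)) (y - g) := by
    intro e
    induction e with
    | zero => exact ⟨0, zero_mem _, zero_mem _, by rwa [sub_zero, zero_add]⟩
    | succ e ih =>
      obtain ⟨g, hg, hg', h1⟩ := ih
      obtain ⟨m, X', q, hm, hq, h2⟩ := Lm_ST_split h0 hr hX hv hΓ hB h1
      have hq2 : q.natDegree ≤ m * (b + 1) := by exact_mod_cast hq
      have hq' : q.natDegree < m * (b + 1) := by
        by_contra h3
        exact hstop ⟨e, m, X', g, q, hm, hg, hg', by omega, h2⟩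
      have hX' : X' (e + 1) ∈ WT k p v Γ (X (e + 1)) :=
        le_clI _ (IntermediateField.subset_adjoin k _
          ⟨m, hm.nd, hm.pow (e + 1), hm.val_mem hX hdiv (e + 1)⟩)
      refine ⟨g + aeval (X' (e + 1)) q, add_mem (WT_step hr hX hdiv e hg) ?_,
        add_mem hg' ?_, ?_⟩
      · rw [aeval_eq_sum_range]
        refine sum_mem fun i _ => ?_
        rw [Algebra.smul_def]
        exact mul_mem ((WT k p v Γ (X (e + 1))).algebraMap_mem _) (pow_mem hX' i)
      · rw [aeval_eq_sum_range]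
        refine sum_mem fun i hi => Submodule.smul_mem _ _ (mem_STs hm (by omega) ?_)
        have h3 := Finset.mem_range_succ_iff.1 hi
        exact_mod_cast h3.trans_lt hq'
      · rw [← sub_sub]
        exact h2
  intro ε hε
  -- a level of small values
  obtain ⟨e, he⟩ : ∃ e : ℕ, -ε ≤ ((b : ℝ) + 1) * v (X (e + 1)) := by
    have hp1 : (1 : ℝ) < p := by exact_mod_cast hp.out.one_lt
    obtain ⟨n, hn⟩ := pow_unbounded_of_one_lt (((b : ℝ) + 1) * -v (X 0) / ε) hp1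
    refine ⟨n, ?_⟩
    rw [rt_val hr hX]
    have h3 : (0 : ℝ) < (p : ℝ) ^ n := pow_pos (by linarith) _
    have h4 : (0 : ℝ) < (p : ℝ) ^ (n + 1) := pow_pos (by linarith) _
    rw [div_lt_iff₀ hε] at hn
    have h5 : (p : ℝ) ^ n ≤ (p : ℝ) ^ (n + 1) := pow_le_pow_right₀ hp1.le (by omega)
    rw [mul_div_assoc', le_div_iff₀ h4]
    nlinarith
  obtain ⟨g, -, hg, h1⟩ := key e
  exact ⟨g, hg, (Lm_ST_ge h0 hr hX hv hB.le h1).mono he⟩

end Pool.Agent.TWC.PW
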