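import Pool.Agent.Lib.TWC.PWa
import Pool.Agent.Lib.TWC.PFc
import Pool.Agent.Lib.TWC.PFb

/-!
# TANK W, class C: row PW, the letters in the new coordinate (part PWc)

`T` the roots of `t`, `q(t) = y`, `t` near `X 1`; the letters of `y - q(X 1)` have real exponents.
At a precision `δ` the element `y` is replaced by `y'' = q(X 1) + s`, `s` a finite sum of letters: the
results of `PFc` apply to `y''` and to a system of roots of `X` (`levelT`).

* `T_letterT`, `ST_T`, `STs_T`, `SAs_T`, `T_topT`: the letters of `T`;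
* `InST_T`: the positions;
* `z_lettersT`: the letters of `z = y ^ p - q ^ (p) (X 0)` in `T`.
-/

set_option autoImplicit false
set_option linter.unusedSectionVars false

open Polynomial

namespace Pool.Agent.TWC.PW

open Pool.Agent.H15JM (RVal)
open Pool.Agent.D2 (Ctx0)
open Pool.Agent.D2P (clI mem_clI)
open Pool.Agent.TWM
open Pool.Agent.TWC.PF (Lm SW SA)

universe u

variable {k Ω : Type u} [Field k] [Field Ω] [Algebra k Ω] {v : RVal Ω} {Γ : AddSubgroup ℝ}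
  {p : ℕ} [hp : Fact p.Prime] [CharP k p] [CharP Ω p] [IsAlgClosed k] [IsAlgClosed Ω]
  {X X' T T' : ℕ → Ω} {y f s : Ω} {B : ℝ} {b j n m : ℕ}

/-! ### Powers of near elements -/

omit [Algebra k Ω] [Field k] [CharP k p] [IsAlgClosed k] hp [CharP Ω p] [IsAlgClosed Ω] in
/-- Powers of near elements. -/
theorem pow_close {α β : Ω} {δ N : ℝ} (hβ : v β < 0)
    (h : v.Ge (-δ - (N - 1) * v β) (α - β)) (hαβ : Gt v (v β) (α - β)) {i : ℕ}
    (hi : (i : ℝ) ≤ N) : v.Ge (-δ) (α ^ i - β ^ i) := by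
  rcases i with _ | i
  · rw [pow_zero, pow_zero, sub_self]
    exact RVal.Ge.zero
  have hα : v.Ge (v β) α := by
    have := (hαβ.ge).add (v.ge_self β)
    rwa [sub_add_cancel] at this
  rw [← geom_sum₂_mul]
  have h1 : v.Ge (i * v β) (∑ j ∈ Finset.range (i + 1), α ^ j * β ^ (i + 1 - 1 - j)) := by
    refine RVal.Ge.sum _ _ fun j hj => ?_
    have hj' := Finset.mem_range.1 hj
    refine ((ge_pow hα j).mul (ge_pow (v.ge_self β) (i + 1 - 1 - j))).mono (le_of_eq ?_)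
    rw [← add_mul, ← Nat.cast_add]
    congr 2
    omega
  refine (h1.mul h).mono ?_
  push_cast at hi
  nlinarith

omit [Algebra k Ω] [Field k] [CharP k p] [IsAlgClosed k] [IsAlgClosed Ω] in
/-- The roots. -/
theorem roots_close {α β : ℕ → Ω} (hα : ∀ n, α (n + 1) ^ p = α n) (hβ : ∀ n, β (n + 1) ^ p = β n)
    {δ : ℝ} (hδ : 0 ≤ δ) {i i' : ℕ} (h : v.Ge (-δ) (α 0 ^ i - β 0 ^ i')) (n : ℕ) :
    v.Ge (-δ) (α n ^ i - β n ^ i') := by
  have hp1 : (1 : ℝ) ≤ p := by exact_mod_cast hp.out.one_lt.le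
  induction n with
  | zero => exact h
  | succ n ih =>
    refine Pool.Agent.TWM.ge_of_pow (p := p) ?_
    rw [sub_pow_char, ← pow_mul, ← pow_mul, mul_comm i, mul_comm i', pow_mul, pow_mul, hα, hβ]
    exact ih.mono (by nlinarith)

/-! ### Systems of roots -/

omit [Algebra k Ω] [Field k] [CharP k p] [IsAlgClosed k] in
/-- The system with a given first term. -/
theorem rs_of_zero (hT : ∀ n, T (n + 1) ^ p = T n) {x : Ω} (hx : x ^ m = T 0) (hm : ¬ p ∣ m)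
    (hval : v x ∈ Γ) : ∃ T' : ℕ → Ω, RS p v Γ T m T' ∧ T' 0 = x := by
  obtain ⟨R, hR0, hR⟩ := exists_rts p x
  refine ⟨R, ⟨hm, hR, fun n => ?_, by rw [hR0]; exact hval⟩, hR0⟩
  induction n with
  | zero => rw [hR0, hx]
  | succ n ih =>
    refine frobenius_inj Ω p ?_
    rw [frobenius_def, frobenius_def, ← pow_mul, mul_comm, pow_mul, hR, hT, ih]

omit [Algebra k Ω] [Field k] [CharP k p] [IsAlgClosed k] in
/-- The system with a given second term. -/
theorem rs_of_one (hr : ∀ n, X (n + 1) ^ p = X n) {x : Ω} (hx0 : x ≠ 0) (hx : x ^ m = X 1)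
    (hm : ¬ p ∣ m) (hval : v x ∈ Γ) : ∃ X' : ℕ → Ω, RS p v Γ X m X' ∧ X' 1 = x := by
  obtain ⟨R, hR0, hR⟩ := exists_rts p x
  have hRX : ∀ n, R n ^ m = X (n + 1) := by
    intro n
    induction n with
    | zero => rw [hR0, hx]
    | succ n ih =>
      refine frobenius_inj Ω p ?_
      rw [frobenius_def, frobenius_def, ← pow_mul, mul_comm, pow_mul, hR, hr (n + 1), ih]
  refine ⟨fun n => n.casesOn (x ^ p) R, ⟨hm, fun n => ?_, fun n => ?_, ?_⟩, hR0⟩
  · cases n with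
    | zero => exact congrArg (· ^ p) hR0
    | succ n => exact hR n
  · cases n with
    | zero =>
      show (x ^ p) ^ m = X 0
      rw [← pow_mul, mul_comm, pow_mul, hx]
      exact hr 0
    | succ n => exact hRX n
  · show v (x ^ p) ∈ Γ
    rw [v.map_pow hx0]
    have := Γ.nsmul_mem hval p
    rwa [nsmul_eq_mul] at this

section

variable (h0 : Ctx0 k v) (hr : ∀ n, X (n + 1) ^ p = X n) (hX : X 0 ≠ 0) (hv : v (X 0) < 0)

omit [Algebra k Ω] [Field k] [CharP k p] [IsAlgClosed k] [CharP Ω p] [IsAlgClosed Ω] in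
include hX in
theorem RS.ne_c (h : RS p v Γ X m X') (n : ℕ) : X' n ≠ 0 := by
  refine root_ne_zero h.root ?_ n
  intro h1
  have h2 := h.pow 0
  rw [h1] at h2
  rcases Nat.eq_zero_or_pos m with rfl | hm
  · exact h.nd (dvd_zero p)
  · rw [zero_pow hm.ne'] at h2
    exact hX h2.symm

omit [Algebra k Ω] [Field k] [CharP k p] [IsAlgClosed k] [CharP Ω p] [IsAlgClosed Ω] in
include hX in
theorem RS.mul_val_c (h : RS p v Γ X m X') (n : ℕ) : (m : ℝ) * v (X' n) = v (X n) := by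
  rw [← h.pow n, v.map_pow (h.ne_c hX n)]

omit [Algebra k Ω] [Field k] [CharP k p] [IsAlgClosed k] [CharP Ω p] [IsAlgClosed Ω] in
include hX hr hv in
theorem RS.neg_c (h : RS p v Γ X m X') (n : ℕ) : v (X' n) < 0 := by
  have hp0 : (0 : ℝ) < p := by exact_mod_cast hp.out.pos
  have h1 := h.mul_val_c hX n
  have h2 : v (X n) < 0 := by
    rw [val_rt hr hX]
    exact div_neg_of_neg_of_pos hv (pow_pos hp0 n)
  have h3 : (0 : ℝ) ≤ m := Nat.cast_nonneg m
  by_contra h4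
  have := mul_nonneg h3 (not_lt.1 h4)
  linarith

omit [Algebra k Ω] [Field k] [CharP k p] [IsAlgClosed k] [CharP Ω p] [IsAlgClosed Ω] hp in
theorem RS.pos_c (h : RS p v Γ X m X') : 0 < m :=
  Nat.pos_of_ne_zero fun h1 => h.nd (by rw [h1]; exact dvd_zero p)

omit [Algebra k Ω] [Field k] [CharP k p] [IsAlgClosed k] [CharP Ω p] [IsAlgClosed Ω] in
include hX in
theorem RS.val_mem_c (h : RS p v Γ X m X') (hdiv : ∀ g ∈ Γ, g / p ∈ Γ) (n : ℕ) : v (X' n) ∈ Γ := by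
  induction n with
  | zero => exact h.val
  | succ n ih =>
    have h1 : v (X' (n + 1)) = v (X' n) / p := by
      rw [← h.root n, v.map_pow (h.ne_c hX (n + 1))]
      have hp0 : (p : ℝ) ≠ 0 := by exact_mod_cast hp.out.ne_zero
      field_simp
    rw [h1]
    exact hdiv _ ih

/-- The letters of a system of roots at a finer level. -/
theorem SW_rename {m₁ r r₁ b₁ : ℕ} {X₁ X'' : ℕ → Ω} (hmr : m * r = m₁ * r₁)
    (hb₁ : (b₁ : ℝ) ≤ m₁ * (b + 1))
    (hc : ∀ n, ∃ c : k, c ≠ 0 ∧ X₁ n = algebraMap k Ω c * X'' n ^ r₁) (hs : s ∈ SW k X₁ b₁ j) :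
    s ∈ SW k X'' (m * r * (b + 1)) j := by
  have hb : b₁ ≤ m₁ * (b + 1) := by exact_mod_cast hb₁
  refine Submodule.span_le.2 ?_ hs
  rintro _ ⟨n, i, hn, hi, rfl⟩
  obtain ⟨c, -, hc⟩ := hc n
  have e : X₁ n ^ i = c ^ i • X'' n ^ (r₁ * i) := by
    rw [hc, mul_pow, ← pow_mul, Algebra.smul_def, map_pow]
  rw [SetLike.mem_coe, e]
  refine Submodule.smul_mem _ _ (Submodule.subset_span ⟨n, r₁ * i, hn, ?_, rfl⟩)
  rw [hmr, mul_comm m₁ r₁, mul_assoc]
  exact Nat.mul_le_mul_left _ (hi.trans hb)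

end

section PWc

variable (h0 : Ctx0 k v) (hr : ∀ n, X (n + 1) ^ p = X n) (hX : X 0 ≠ 0) (hv : v (X 0) < 0)
  (hΓ : v (X 0) ∈ Γ) (hdiv : ∀ g ∈ Γ, g / p ∈ Γ) (hT : ∀ n, T (n + 1) ^ p = T n)
  {q : Polynomial k} (hq : q.natDegree = b + 1) (hb : ¬ p ∣ b + 1) (ht : aeval (T 0) q = y)
  (ht1 : v.Ge ((b + 1 : ℕ) * v (X 2) - b * v (X 1)) (T 0 - X 1))
  (hy : Lm v (ST k p v Γ X (b + 1) 2) (y - aeval (X 1) q))

omit [Algebra k Ω] [Field k] [CharP k p] [IsAlgClosed k] [CharP Ω p] [IsAlgClosed Ω] in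
include hr hX hv in
theorem val_12 : v (X 1) < 0 ∧ v (X 1) < v (X 2) ∧ v (X 2) < 0 := by
  have hp1 : (1 : ℝ) < p := by exact_mod_cast hp.out.one_lt
  have hp0 : (0 : ℝ) < p := by linarith
  have h1 : v (X 1) < 0 := by
    rw [val_rt hr hX]
    exact div_neg_of_neg_of_pos hv (pow_pos hp0 1)
  have h2 : v (X 2) = v (X 1) / p := by
    rw [val_rt hr hX 1, val_rt hr hX 2]
    field_simp
  refine ⟨h1, ?_, ?_⟩
  · rw [h2, lt_div_iff₀ hp0]
    nlinarith
  · rw [h2]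
    exact div_neg_of_neg_of_pos h1 hp0

omit [Algebra k Ω] [Field k] [CharP k p] [IsAlgClosed k] [CharP Ω p] [IsAlgClosed Ω] in
include hr hX hv ht1 in
theorem val_T0 : T 0 ≠ 0 ∧ v (T 0) = v (X 1) := by
  obtain ⟨h1, h2, h3⟩ := val_12 hr hX hv
  have h4 : Gt v (v (X 1)) (X 1 - T 0) := by
    refine Gt.sub_comm' (Gt.of_ge ht1 ?_)
    have h5 : (0 : ℝ) < (b + 1 : ℕ) := by exact_mod_cast Nat.succ_pos b
    have h6 := mul_lt_mul_of_pos_left h2 h5
    push_cast at h6 ⊢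
    linarith
  exact Gt.val_eq (root_ne_zero hr hX 1) h4

include h0 hr hX hv ht1 in
/-- The system of roots of `X` near to a system of roots of `T`. -/
theorem exists_nearT (hT' : RS p v Γ T m T') : ∃ X' : ℕ → Ω, RS p v Γ X m X' ∧
    v.Ge ((b + 1 : ℕ) * v (X 2) - b * v (X 1) - (m - 1) * v (X' 1)) (T' 0 - X' 1) ∧
    v (X' 1) = v (T' 0) := by
  obtain ⟨h1, h2, h3⟩ := val_12 hr hX hv
  obtain ⟨h4, h5⟩ := val_T0 hr hX hv ht1
  have h6 := hT'.ne_c h4 0
  have h7 := hT'.mul_val_c h4 0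
  have hm := hT'.pos_c
  have hm0 : (0 : ℝ) < m := by exact_mod_cast hm
  have h8 : v (T' 0) < 0 := by
    by_contra h9
    have := mul_nonneg hm0.le (not_lt.1 h9)
    linarith
  have hb0 : (0 : ℝ) < (b + 1 : ℕ) := by exact_mod_cast Nat.succ_pos b
  have h10 := mul_lt_mul_of_pos_left h2 hb0
  obtain ⟨x, hx, h9, h11⟩ := exists_root_near (y := X 1) (X := T' 0) h0
    (q := (Polynomial.X : Polynomial k) ^ m) (p := p) (by rw [natDegree_X_pow]; exact hT'.nd) h6 h8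
    (c := (b + 1 : ℕ) * v (X 2) - b * v (X 1)) (by
      rw [map_pow, aeval_X, hT'.pow 0]
      exact ge_sub_comm ht1) (by
      rw [natDegree_X_pow, h7, h5]
      push_cast at h10 ⊢
      linarith)
  rw [map_pow, aeval_X] at hx
  rw [natDegree_X_pow] at h9
  obtain ⟨h12, h13⟩ := Gt.val_eq h6 h11.sub_comm'
  obtain ⟨X', hX', hX1⟩ := rs_of_one (Γ := Γ) hr h12 hx hT'.nd (by rw [h13]; exact hT'.val)
  refine ⟨X', hX', ?_, by rw [hX1, h13]⟩
  rw [hX1, h13]
  exact ge_sub_comm h9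

include h0 hr hX hv hΓ hq hb ht ht1 hy

/-- **The finite level.** -/
theorem levelT (hX' : RS p v Γ X m X') (hT' : RS p v Γ T m T') (hvX : v (X' 1) = v (T' 0))
    (hnear : v.Ge ((b + 1 : ℕ) * v (X 2) - b * v (X 1) - (m - 1) * v (X' 1)) (T' 0 - X' 1))
    {δ : ℝ} (hδ : 0 < δ) (hδ' : δ ≤ -((b + 1 : ℕ) * v (X 2))) :
    ∃ (r b' : ℕ) (X'' τ : ℕ → Ω) (y'' : Ω) (q' : Polynomial k), RS p v Γ X' r X'' ∧
      b' + 1 = m * r * (b + 1) ∧ PF.CC p v X'' τ y'' b' q' ∧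
      aeval (X'' 1) q' = aeval (X 1) q ∧ v.Ge (-δ) (y - y'') ∧
      v.Ge (-δ - (m * (b + 1) - 1) * v (T' 0)) (τ 0 ^ r - T' 0) ∧
      Gt v (v (T' 0)) (τ 0 ^ r - T' 0) := by
  obtain ⟨h1, h2, h3⟩ := val_12 hr hX hv
  obtain ⟨h4, h5⟩ := val_T0 hr hX hv ht1
  have h6 := hT'.ne_c h4 0
  have h7 := hT'.mul_val_c h4 0
  have hm := hT'.pos_c
  have hm0 : (0 : ℝ) < m := by exact_mod_cast hm
  have h8 : v (T' 0) < 0 := by
    by_contra h9
    have := mul_nonneg hm0.le (not_lt.1 h9)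
    linarith
  have hb0 : (0 : ℝ) < (b + 1 : ℕ) := by exact_mod_cast Nat.succ_pos b
  have h10 := mul_lt_mul_of_pos_left h2 hb0
  -- the element at the precision `δ`
  obtain ⟨s, hs, hys⟩ := hy δ hδ
  obtain ⟨m₁, b₁, X₁, h₁, hb₁, hs₁⟩ := ST_level hr hX hΓ (by positivity) hs
  obtain ⟨r, r₁, X'', hX'', hr₁, hmr, hc⟩ := RS.common (k := k) hX hX' h₁
  have hs₂ : s ∈ SW k X'' (m * r * (b + 1)) 2 := SW_rename hmr hb₁ hc hs₁
  have hXX := hX'.trans hX''
  have hr0 := hX''.pos_c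
  -- the root
  obtain ⟨t₁, ht₁, h11, h12⟩ := exists_root_near (y := aeval (X 1) q + s) (X := T 0) h0
    (q := q) (p := p) (by rw [hq]; exact hb) h4 (by rw [h5]; exact h1) (c := -δ) (by
      rw [ht]
      refine ge_sub_comm ?_
      rw [← sub_sub]
      exact hys) (by
      rw [hq, h5]
      linarith)
  rw [hq] at h11
  -- its root of order `m`
  obtain ⟨τ', hτ', h13, h14⟩ := exists_root_near (y := t₁) (X := T' 0) h0
    (q := (Polynomial.X : Polynomial k) ^ m) (p := p) (by rw [natDegree_X_pow]; exact hT'.nd) h6 h8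
    (c := -δ - b * v (X 1)) (by
      rw [map_pow, aeval_X, hT'.pow 0]
      refine h11.mono (le_of_eq ?_)
      rw [h5]
      push_cast
      ring) (by
      rw [natDegree_X_pow, h7, h5]
      push_cast at h10 hδ' ⊢
      linarith)
  rw [map_pow, aeval_X] at hτ'
  rw [natDegree_X_pow] at h13
  -- its root of order `r`
  have hX1 : X' 1 ≠ 0 := hX'.ne_c hX 1
  have hX1' := hX'.mul_val_c hX 1
  have hX'1 := hX''.mul_val_c (hX'.ne_c hX 0) 1
  have hX''1 := hX''.ne_c (hX'.ne_c hX 0) 1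
  have hX''1v := hX''.neg_c hX'.root (hX'.ne_c hX 0) (hX'.neg_c hr hX hv 0) 1
  obtain ⟨τ₀, hτ₀, h15, h16⟩ := exists_root_near (y := τ') (X := X'' 1) h0
    (q := (Polynomial.X : Polynomial k) ^ r) (p := p) (by rw [natDegree_X_pow]; exact hX''.nd)
    hX''1 hX''1v (c := (b + 1 : ℕ) * v (X 2) - b * v (X 1) - (m - 1) * v (X' 1)) (by
      rw [map_pow, aeval_X, hX''.pow 1]
      have e : τ' - X' 1 = (τ' - T' 0) + (T' 0 - X' 1) := by ring
      rw [e]
      refine (h13.mono ?_).add hnear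
      rw [hvX]
      linarith) (by
      rw [natDegree_X_pow, hX'1]
      push_cast at h10 ⊢
      nlinarith)
  rw [map_pow, aeval_X] at hτ₀
  rw [natDegree_X_pow] at h15
  obtain ⟨τ, hτ0, hτ⟩ := exists_rts p τ₀
  have hMpos : 0 < m * r * (b + 1) := Nat.mul_pos (Nat.mul_pos hm hr0) (Nat.succ_pos b)
  obtain ⟨b', hb'⟩ : ∃ b', b' + 1 = m * r * (b + 1) := ⟨m * r * (b + 1) - 1, by omega⟩
  have hX''X : X'' 1 ^ (m * r) = X 1 := hXX.pow 1
  have hτM : τ 0 ^ (m * r) = t₁ := by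
    rw [hτ0, mul_comm, pow_mul, hτ₀, hτ']
  have hvX2 := hXX.mul_val_c hX 2
  have hvX1 := hXX.mul_val_c hX 1
  have hb'R : (b' : ℝ) = m * r * (b + 1) - 1 := by
    have : ((b' + 1 : ℕ) : ℝ) = ((m * r * (b + 1) : ℕ) : ℝ) := by rw [hb']
    push_cast at this
    linarith
  refine ⟨r, b', X'', τ, aeval (X 1) q + s, expand k (m * r) q, hX'', hb', ?_, ?_, ?_, ?_, ?_⟩
  · refine ⟨hX''.root, hX''.ne_c (hX'.ne_c hX 0) 0,
      hX''.neg_c hX'.root (hX'.ne_c hX 0) (hX'.neg_c hr hX hv 0) 0, hτ, ?_, ?_, ?_, ?_, ?_⟩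
    · rw [natDegree_expand, hq, hb']
      ring
    · rw [hb']
      intro h
      rcases hp.out.dvd_mul.1 h with h | h
      · exact hXX.nd h
      · exact hb h
    · rw [expand_aeval, hτM, ht₁]
    · rw [hτ0]
      refine h15.mono (le_of_eq ?_)
      push_cast at hvX1 hvX2 hb'R ⊢
      rw [hb'R, ← hvX2, ← hvX1, ← hX'1]
      ring
    · rw [expand_aeval, hX''X, add_sub_cancel_left]
      rw [← hb'] at hs₂
      exact Lm.of_mem hs₂
  · rw [expand_aeval, hX''X]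
  · rw [← sub_sub]
    exact hys
  · rw [hτ0, hτ₀]
    refine h13.mono (le_of_eq ?_)
    rw [← h5, ← h7]
    ring
  · rw [hτ0, hτ₀]
    exact h14

include hdiv hT

/-- One letter of `T`, exponent `i / m ≤ b + 1`, against the letter of `X`. -/
theorem T_letterT (hT' : RS p v Γ T m T') {i : ℕ}
    (hi : (i : ℝ) ≤ m * (b + 1)) (n : ℕ) : ∃ X' : ℕ → Ω, RS p v Γ X m X' ∧
      Lm v (ST k p v Γ X (b + 1) (n + 2)) (T' n ^ i - X' (n + 1) ^ i) ∧
      ((i : ℝ) < m * (b + 1) → Lm v (STs k p v Γ X (b + 1) (n + 2)) (T' n ^ i - X' (n + 1) ^ i)) := by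
  obtain ⟨X', hX', hnear, hvX⟩ := exists_nearT h0 hr hX hv ht1 hT'
  obtain ⟨h1, h2, h3⟩ := val_12 hr hX hv
  obtain ⟨h4, h5⟩ := val_T0 hr hX hv ht1
  have hb0 : (0 : ℝ) < (b + 1 : ℕ) := by exact_mod_cast Nat.succ_pos b
  have hX2 : 0 < -((b + 1 : ℕ) * v (X 2)) := by nlinarith
  have h8 : v (T' 0) < 0 := by
    rw [← hvX]
    exact hX'.neg_c hr hX hv 1
  have key : ∀ ε : ℝ, 0 < ε → ∃ (r b' : ℕ) (X'' : ℕ → Ω), RS p v Γ X (m * r) X'' ∧
      b' + 1 = m * r * (b + 1) ∧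
      (∃ s ∈ SW k X'' (b' + 1) (n + 2), v.Ge (-ε) (T' n ^ i - X' (n + 1) ^ i - s)) ∧
      ((i : ℝ) < m * (b + 1) →
        ∃ s ∈ SW k X'' b' (n + 2), v.Ge (-ε) (T' n ^ i - X' (n + 1) ^ i - s)) := by
    intro ε hε
    obtain ⟨r, b', X'', τ, y'', q', hX'', hb', hCC, -, -, h9, h10⟩ := levelT h0 hr hX hv hΓ hq hb
      ht ht1 hy hX' hT' hvX hnear (lt_min hε hX2) (min_le_right _ _)
    have h11 : v.Ge (-(min ε (-((b + 1 : ℕ) * v (X 2))))) (τ 0 ^ (r * i) - T' 0 ^ i) := by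
      rw [pow_mul]
      exact pow_close h8 h9 h10 hi
    have h12 := (roots_close hCC.rT hT'.root (lt_min hε hX2).le h11 n).mono
      (neg_le_neg (min_le_left _ _))
    have hiN : i ≤ m * (b + 1) := by exact_mod_cast hi
    have h13 : r * i ≤ b' + 1 := by
      rw [hb', mul_comm m r, mul_assoc]
      exact Nat.mul_le_mul_left r hiN
    have hXn : X' (n + 1) ^ i = X'' (n + 1) ^ (r * i) := by
      rw [pow_mul, hX''.pow]
    have e : ∀ s, T' n ^ i - X' (n + 1) ^ i - s = -(τ n ^ (r * i) - T' n ^ i) +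
        (τ n ^ (r * i) - X'' (n + 1) ^ (r * i) - s) := by
      intro s
      rw [hXn]
      ring
    refine ⟨r, b', X'', hX'.trans hX'', hb', ?_, fun hi' => ?_⟩
    · obtain ⟨s, hs, h14⟩ := hCC.T_letters h0 (i := r * i) (B' := b' + 1) (r := 0) h13
        (by omega) (by omega) n ε hε
      exact ⟨s, hs, by rw [e]; exact h12.neg.add h14⟩
    · have hiN' : i < m * (b + 1) := by exact_mod_cast hi'
      have h15 : r * i < b' + 1 := by
        rw [hb', mul_comm m r, mul_assoc]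
        exact Nat.mul_lt_mul_of_pos_left hiN' hX''.pos_c
      obtain ⟨s, hs, h14⟩ := hCC.T_letters h0 (i := r * i) (B' := b') (r := 1) h13
        (by omega) (by omega) n ε hε
      exact ⟨s, hs, by rw [e]; exact h12.neg.add h14⟩
  refine ⟨X', hX', fun ε hε => ?_, fun hi' ε hε => ?_⟩
  · obtain ⟨r, b', X'', hX'', hb', ⟨s, hs, h6⟩, -⟩ := key ε hε
    refine ⟨s, SW_le_ST hX'' ?_ hs, h6⟩
    rw [hb']
    push_cast
    exact le_rfl
  · obtain ⟨r, b', X'', hX'', hb', -, h6⟩ := key ε hε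
    obtain ⟨s, hs, h6⟩ := h6 hi'
    refine ⟨s, SW_le_STs hX'' ?_ hs, h6⟩
    have h7 : ((b' + 1 : ℕ) : ℝ) = ((m * r * (b + 1) : ℕ) : ℝ) := by rw [hb']
    push_cast at h7 ⊢
    linarith

theorem ST_T {n : ℕ} (hs : s ∈ ST k p v Γ T (b + 1) n) :
    Lm v (ST k p v Γ X (b + 1) (n + 1)) s := by
  refine Lm.span h0 ?_ hs
  rintro _ ⟨m, T', l, i, hT', hl, hi, rfl⟩
  obtain ⟨X', hX', h1, -⟩ := T_letterT h0 hr hX hv hΓ hdiv hT hq hb ht ht1 hy hT' hi l
  have h2 : Lm v (ST k p v Γ X (b + 1) (n + 1)) (X' (l + 1) ^ i) :=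
    Lm.of_mem (Submodule.subset_span ⟨m, X', l + 1, i, hX', by omega, hi, rfl⟩)
  have := (h1.mono (ST_mono le_rfl (by omega))).add h2
  rwa [sub_add_cancel] at this

theorem STs_T {n : ℕ} (hs : s ∈ STs k p v Γ T (b + 1) n) :
    Lm v (STs k p v Γ X (b + 1) (n + 1)) s := by
  refine Lm.span h0 ?_ hs
  rintro _ ⟨m, T', l, i, hT', hl, hi, rfl⟩
  obtain ⟨X', hX', -, h1⟩ := T_letterT h0 hr hX hv hΓ hdiv hT hq hb ht ht1 hy hT' hi.le l
  have h2 : Lm v (STs k p v Γ X (b + 1) (n + 1)) (X' (l + 1) ^ i) :=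
    Lm.of_mem (Submodule.subset_span ⟨m, X', l + 1, i, hX', by omega, hi, rfl⟩)
  have := ((h1 hi).mono (STs_mono le_rfl (by omega))).add h2
  rwa [sub_add_cancel] at this

theorem SAs_T (hs : s ∈ SAs k p v Γ T (b + 1)) : Lm v (SAs k p v Γ X (b + 1)) s := by
  refine Lm.span h0 ?_ hs
  rintro _ ⟨m, T', l, e, i, hT', hi, rfl⟩
  have h1 : Lm v (SAs k p v Γ X (b + 1)) (T' l ^ i) :=
    (STs_T h0 hr hX hv hΓ hdiv hT hq hb ht ht1 hy (n := 0)
      (Submodule.subset_span ⟨m, T', l, i, hT', Nat.zero_le _, hi, rfl⟩)).mono STs_le_SAs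
  induction e with
  | zero => rw [pow_zero, mul_one]; exact h1
  | succ e ih =>
    rw [pow_succ, ← mul_assoc, pow_mul]
    exact Lm.pow (fun s hs => SAs_pow hs) ih

theorem T_topT (n : ℕ) :
    Lm v (ST k p v Γ X (b + 1) (n + 2)) (T n ^ (b + 1) - X (n + 1) ^ (b + 1)) := by
  obtain ⟨h4, h5⟩ := val_T0 hr hX hv ht1
  have h6 : v (T 0) ∈ Γ := by
    rw [h5, val_rt hr hX 1, pow_one]
    exact hdiv _ hΓ
  obtain ⟨X', hX', h1, -⟩ := T_letterT h0 hr hX hv hΓ hdiv hT hq hb ht ht1 hy (RS.refl hT h6)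
    (i := b + 1) (by push_cast; linarith) n
  have h2 : X' (n + 1) = X (n + 1) := by
    have := hX'.pow (n + 1)
    rwa [pow_one] at this
  rwa [h2] at h1

theorem InST_T {C : IntermediateField k Ω} {n : ℕ} (h : InST p v Γ C T b n) :
    InST p v Γ C X b (n + 1) := by
  obtain ⟨f, hf, h1⟩ := h
  refine ⟨f, hf, ?_⟩
  have h2 : Lm v (ST k p v Γ X (b + 1) (n + 2) ⊔ SAs k p v Γ X (b + 1)) (f - T n ^ (b + 1)) := by
    refine h1.trans fun s hs => ?_
    obtain ⟨s₁, hs₁, s₂, hs₂, rfl⟩ := Submodule.mem_sup.1 hs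
    exact ((ST_T h0 hr hX hv hΓ hdiv hT hq hb ht ht1 hy hs₁).mono le_sup_left).add
      ((SAs_T h0 hr hX hv hΓ hdiv hT hq hb ht ht1 hy hs₂).mono le_sup_right)
  have := h2.add ((T_topT h0 hr hX hv hΓ hdiv hT hq hb ht ht1 hy n).mono le_sup_left)
  rwa [sub_add_sub_cancel] at this

/-- **The letters of `z`.** -/
theorem z_lettersT :
    Lm v (ST k p v Γ T (b + 1) 0) (y ^ p - aeval (X 0) (q.map (frobenius k p))) := by
  obtain ⟨h1, h2, h3⟩ := val_12 hr hX hv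
  obtain ⟨h4, h5⟩ := val_T0 hr hX hv ht1
  have hp1 : (1 : ℝ) < p := by exact_mod_cast hp.out.one_lt
  have hp0 : (0 : ℝ) < p := by linarith
  have h6 : v (T 0) ∈ Γ := by
    rw [h5, val_rt hr hX 1, pow_one]
    exact hdiv _ hΓ
  have hb0 : (0 : ℝ) < (b + 1 : ℕ) := by exact_mod_cast Nat.succ_pos b
  have hX2 : 0 < -((b + 1 : ℕ) * v (X 2)) := by nlinarith
  rw [PF.z_eq hr]
  intro ε hε
  have hδ0 : 0 < min (ε / p) (-((b + 1 : ℕ) * v (X 2))) := lt_min (by positivity) hX2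
  obtain ⟨r, b', X'', τ, y'', q', hX'', hb', hCC, hq', h9, h10, h11⟩ := levelT h0 hr hX hv hΓ hq hb
    ht ht1 hy (m := 1) (X' := X) (T' := T) (RS.refl hr hΓ) (RS.refl hT h6) h5.symm
    (by push_cast; rw [sub_self, zero_mul, sub_zero]; exact_mod_cast ht1) hδ0 (min_le_right _ _)
  set δ := min (ε / p) (-((b + 1 : ℕ) * v (X 2))) with hδ
  rw [one_mul] at hb'
  obtain ⟨h12, h13⟩ := hCC.T0
  obtain ⟨h14, h15, -, h17⟩ := hCC.X1
  have hr0 := hX''.pos_c
  -- the system of roots of `T` near to `τ`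
  obtain ⟨x, hx, h18, h19⟩ := exists_root_near (y := T 0) (X := τ 0) h0
    (q := (Polynomial.X : Polynomial k) ^ r) (p := p) (by rw [natDegree_X_pow]; exact hX''.nd)
    h12 (by rw [h13]; linarith) (c := -δ - (1 * (b + 1) - 1) * v (T 0)) (by
      rw [map_pow, aeval_X]
      have := ge_sub_comm h10
      exact_mod_cast this) (by
      have h20 : v (τ 0) = v (X'' 1) := by rw [h13, h15]
      rw [natDegree_X_pow, h20, hX''.mul_val_c hX 1, h5]
      have h21 := mul_lt_mul_of_pos_left h2 hb0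
      have h22 : δ ≤ -((b + 1 : ℕ) * v (X 2)) := min_le_right _ _
      push_cast at h21 h22 ⊢
      linarith)
  rw [map_pow, aeval_X] at hx
  rw [natDegree_X_pow] at h18
  have hvx : v x = v (X'' 1) := by
    rw [(Gt.val_eq h12 h19.sub_comm').2, h13, h15]
  obtain ⟨T'', hT'', hT0⟩ := rs_of_zero (Γ := Γ) hT hx hX''.nd (by
    rw [hvx]
    exact hX''.val_mem_c hX hdiv 1)
  -- the letters of `z` in `τ`
  have h20 : Lm v (SW k τ (b' + 1) 0) ((y'' - aeval (X 1) q) ^ p) := by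
    have := hCC.z_lt h0
    rwa [hq'] at this
  obtain ⟨s, hs, h21⟩ := h20 ε hε
  -- the letters in `T''`
  have h22 : ∀ n i : ℕ, i ≤ b' + 1 → v.Ge (-ε) (τ n ^ i - T'' n ^ i) := by
    intro n i hi
    have h23 : v.Ge (-δ) (T'' 0 ^ i - τ 0 ^ i) := by
      rw [hT0]
      refine pow_close (N := r * (b + 1)) (by rw [h13]; linarith) (h18.mono (le_of_eq ?_)) h19 ?_
      · have h24 : v (T 0) = r * v (τ 0) := by
          rw [h5, ← hX''.mul_val_c hX 1, h13, h15]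
        rw [h24]
        ring
      · have : ((b' + 1 : ℕ) : ℝ) = ((r * (b + 1) : ℕ) : ℝ) := by rw [hb']
        push_cast at this
        have h25 : (i : ℝ) ≤ b' + 1 := by exact_mod_cast hi
        linarith
    have h24 := ge_sub_comm (roots_close hT''.root hCC.rT hδ0.le h23 n)
    refine h24.mono (neg_le_neg ?_)
    refine (min_le_left _ _).trans ?_
    rw [div_le_iff₀ hp0]
    nlinarith
  have h23 : ∃ s' ∈ ST k p v Γ T (b + 1) 0, v.Ge (-ε) (s - s') := by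
    clear h21
    induction hs using Submodule.span_induction with
    | mem x hx =>
      obtain ⟨n, i, -, hi, rfl⟩ := hx
      refine ⟨T'' n ^ i, Submodule.subset_span ⟨r, T'', n, i, hT'', Nat.zero_le _, ?_, rfl⟩,
        h22 n i hi⟩
      rw [hb'] at hi
      exact_mod_cast hi
    | zero => exact ⟨0, zero_mem _, by rw [sub_zero]; exact RVal.Ge.zero⟩
    | add x y _ _ hx hy =>
      obtain ⟨x', hx', h24⟩ := hx
      obtain ⟨y', hy', h25⟩ := hy
      refine ⟨x' + y', add_mem hx' hy', ?_⟩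
      rw [add_sub_add_comm]
      exact h24.add h25
    | smul a x _ hx =>
      obtain ⟨x', hx', h24⟩ := hx
      refine ⟨a • x', Submodule.smul_mem _ _ hx', ?_⟩
      rw [← smul_sub, Algebra.smul_def]
      have := (h0.ge a).mul h24
      rwa [zero_add] at this
  obtain ⟨s', hs', h24⟩ := h23
  refine ⟨s', hs', ?_⟩
  have e : (y - aeval (X 1) q) ^ p - s' = (y - y'') ^ p +
      ((y'' - aeval (X 1) q) ^ p - s) + (s - s') := by
    rw [sub_pow_char, sub_pow_char, sub_pow_char]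
    ring
  rw [e]
  refine (RVal.Ge.add ?_ h21).add h24
  refine (ge_pow h9 p).mono ?_
  have h25 : δ ≤ ε / p := min_le_left _ _
  rw [le_div_iff₀ hp0] at h25
  linarith

end PWc

end Pool.Agent.TWC.PW
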