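import Pool.Agent.Lib.TWC.PWdefs
import Pool.Agent.Lib.TWC.PFd2

/-!
# TANK W, class C: row PW, the jets (part PWd)

`jetT`: `Y` of transcendental type and of radius `0` over `A`, `X n ∈ A`, near to letters
`X' n ^ i`, `i ≤ m B`, of systems of roots `X'` of order `m` of `X`: then the jets in the
direction of `X n` of the polynomials in `Y` over `k[X n]` have norm `< (B - 1) g / p ^ n`,
`g = - v (X 0)`.
-/

set_option autoImplicit false
set_option linter.unusedSectionVars false

open Polynomial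

namespace Pool.Agent.TWC.PW

open Pool.Agent.H15JM (RVal)
open Pool.Agent.LU1 (VPos adj)
open Pool.Agent.D2 (Ctx0)
open Pool.Agent.D2P (clI mem_clI)
open Pool.Agent.TWM
open Pool.Agent.TWC.PF (Lm SW SA bot_jet bot_lead near_fin0 evj evj_eval evj_taylor)

universe u

variable {k Ω : Type u} [Field k] [Field Ω] [Algebra k Ω] {v : RVal Ω}

/-- The powers of a polynomial with bounded coefficients. -/
theorem pow_cf {σ : Polynomial Ω} {a c : ℝ} (h : ∀ s : ℕ, v.Ge (a + s * c) (σ.coeff s)) (i : ℕ) :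
    ∀ s : ℕ, v.Ge (i * a + s * c) ((σ ^ i).coeff s) := by
  induction i with
  | zero =>
    intro s
    rw [pow_zero, coeff_one]
    split_ifs with h1
    · rw [h1, Nat.cast_zero, zero_mul, zero_mul, zero_add]
      intro _
      rw [v.map_one]
    · exact RVal.Ge.zero
  | succ j ih =>
    intro s
    rw [pow_succ, coeff_mul]
    refine RVal.Ge.sum _ _ fun x hx => ?_
    have h1 := Finset.HasAntidiagonal.mem_antidiagonal.1 hx
    refine ((ih x.1).mul (h x.2)).mono (le_of_eq ?_)
    rw [← h1]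
    push_cast
    ring

/-- Composition and Taylor expansion. -/
theorem taylor_comp' (f P : Polynomial Ω) (x : Ω) : taylor x (f.comp P) =
    (taylor (P.eval x) f).comp (taylor x P - C (P.eval x)) := by
  rw [taylor_apply, taylor_apply, taylor_apply, comp_assoc, comp_assoc, add_comp, X_comp, C_comp,
    sub_add_cancel]

section P

variable {p : ℕ} [hp : Fact p.Prime] [CharP Ω p] {X : ℕ → Ω} {B c : ℝ}

/-- `e` is a polynomial in `X L`, with bounded jets. -/
def JR (p : ℕ) (v : RVal Ω) (k : Type u) [Field k] [Algebra k Ω] (X : ℕ → Ω) (c : ℝ) (L : ℕ)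
    (e : Ω) : Prop :=
  ∃ E ∈ PI (⊥ : IntermediateField k Ω), E.eval (X L) = e ∧
    ∀ s : ℕ, 1 ≤ s → v.Ge (s * (c * v (X L))) ((taylor (X L) E).coeff s)

theorem JR.lift (hr : ∀ n, X (n + 1) ^ p = X n) (hX : X 0 ≠ 0) {L : ℕ} {e : Ω}
    (h : JR p v k X c L e) (d : ℕ) : JR p v k X c (L + d) e := by
  obtain ⟨E, hE, h1, h2⟩ := h
  have hpd : 0 < p ^ d := pow_pos hp.out.pos d
  refine ⟨expand Ω (p ^ d) E, expand_mem_PI hpd hE, by rw [ax_lift hr, h1], fun s hs => ?_⟩
  by_cases hd : p ^ d ∣ s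
  · obtain ⟨s', rfl⟩ := hd
    have hs' : 1 ≤ s' := by
      rcases Nat.eq_zero_or_pos s' with h3 | h3
      · rw [h3, mul_zero] at hs; omega
      · exact h3
    rw [coeff_lift hr]
    refine (h2 s' hs').mono (le_of_eq ?_)
    have h4 : v (X L) = p ^ d * v (X (L + d)) := by
      rw [← root_pow_add hr L d, v.map_pow (root_ne_zero hr hX _)]
      push_cast
      ring
    rw [h4]
    push_cast
    ring
  · rw [coeff_lift_zero hr _ _ hd]
    exact RVal.Ge.zero

/-- The elements of the span of the letters. -/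
theorem exists_JR (h0 : Ctx0 k v) (hr : ∀ n, X (n + 1) ^ p = X n) (hX : X 0 ≠ 0)
    (hv : v (X 0) < 0) {b : ℕ} (hc : -1 ≤ c) (hb : (b : ℝ) ≤ c + 1) {e : Ω}
    (he : e ∈ SW k X b 0) : ∃ L₀, ∀ L, L₀ ≤ L → JR p v k X c L e := by
  have hp0 : (0 : ℝ) < p := by exact_mod_cast hp.out.pos
  have key : ∀ {L₀ : ℕ} {e : Ω}, JR p v k X c L₀ e → ∀ L, L₀ ≤ L → JR p v k X c L e := by
    intro L₀ e h L hL
    have := h.lift hr hX (L - L₀)
    rwa [Nat.add_sub_cancel' hL] at this
  induction he using Submodule.span_induction with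
  | mem e he =>
    obtain ⟨n, i, -, hi, rfl⟩ := he
    have hvn : v (X n) < 0 := by
      rw [val_rt hr hX]
      exact div_neg_of_neg_of_pos hv (pow_pos hp0 n)
    refine ⟨n, key ⟨Polynomial.X ^ i, pow_mem X_mem_PI i, by rw [eval_pow, eval_X], fun s hs => ?_⟩⟩
    have h1 := bot_jet h0 (root_ne_zero hr hX n) hvn (G := Polynomial.X ^ i)
      (pow_mem X_mem_PI i) s
    refine h1.mono ?_
    rw [eval_pow, eval_X, v.map_pow (root_ne_zero hr hX n)]
    have h2 : (i : ℝ) ≤ c + 1 := le_trans (by exact_mod_cast hi) hb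
    have h3 : (1 : ℝ) ≤ s := by exact_mod_cast hs
    have h4 : (i : ℝ) - s ≤ s * c := by nlinarith
    nlinarith
  | zero =>
    refine ⟨0, fun L _ => ⟨0, zero_mem _, eval_zero, fun s _ => ?_⟩⟩
    rw [map_zero, coeff_zero]
    exact RVal.Ge.zero
  | add e e' _ _ h1 h2 =>
    obtain ⟨L₁, h1⟩ := h1
    obtain ⟨L₂, h2⟩ := h2
    refine ⟨max L₁ L₂, fun L hL => ?_⟩
    obtain ⟨E, hE, rfl, h3⟩ := h1 L ((le_max_left _ _).trans hL)
    obtain ⟨E', hE', rfl, h4⟩ := h2 L ((le_max_right _ _).trans hL)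
    refine ⟨E + E', add_mem hE hE', eval_add, fun s hs => ?_⟩
    rw [map_add, coeff_add]
    exact (h3 s hs).add (h4 s hs)
  | smul a e _ h1 =>
    obtain ⟨L₁, h1⟩ := h1
    refine ⟨L₁, fun L hL => ?_⟩
    obtain ⟨E, hE, rfl, h3⟩ := h1 L hL
    refine ⟨C (algebraMap k Ω a) * E, mul_mem (C_mem_PI (IntermediateField.algebraMap_mem _ a)) hE,
      by rw [eval_mul, eval_C, Algebra.smul_def], fun s hs => ?_⟩
    rw [taylor_mul, taylor_C, coeff_C_mul]
    have := (h0.ge a).mul (h3 s hs)
    rwa [zero_add] at this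

/-- Near to the letters of exponents `≤ B`. -/
def NL (p : ℕ) (v : RVal Ω) (k : Type u) [Field k] [Algebra k Ω] (X : ℕ → Ω) (B : ℝ) (Y : Ω) :
    Prop :=
  ∀ δ : ℝ, 0 < δ → ∃ (m : ℕ) (X' : ℕ → Ω) (e : Ω) (b : ℕ), ¬ p ∣ m ∧
    (∀ n, X' (n + 1) ^ p = X' n) ∧ (∀ n, X' n ^ m = X n) ∧ (b : ℝ) ≤ m * B ∧
    e ∈ SW k X' b 0 ∧ v.Ge (-δ) (Y - e)

/-- **The jets.** -/
theorem jetT [IsAlgClosed Ω] (h0 : Ctx0 k v) (hr : ∀ n, X (n + 1) ^ p = X n) (hX : X 0 ≠ 0)
    (hv : v (X 0) < 0) (hB : 0 < B) {A : IntermediateField k Ω} (hA : ∀ n, X n ∈ A) {Y : Ω}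
    (hTL : TL v A Y 0) (hY : NL p v k X B Y) (n D : ℕ) (f : ℕ → Polynomial Ω)
    (hf : ∀ l, f l ∈ PI (⊥ : IntermediateField k Ω))
    (h1 : (evj X n D f 0).eval Y ≠ 0) : ∀ i : ℕ, 1 ≤ i →
      Gt v (v ((evj X n D f 0).eval Y) + i * ((B - 1) * v (X n))) ((evj X n D f i).eval Y) := by
  classical
  have hp0 : (0 : ℝ) < p := by exact_mod_cast hp.out.pos
  have hXn : ∀ n, X n ≠ 0 := root_ne_zero hr hX
  have hvX : ∀ n, v (X n) < 0 := fun n => by
    rw [val_rt hr hX]
    exact div_neg_of_neg_of_pos hv (pow_pos hp0 n)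
  have hD : 0 < D := by
    rcases Nat.eq_zero_or_pos D with h2 | h2
    · exact absurd (by rw [h2, evj, Finset.range_zero, Finset.sum_empty, eval_zero]) h1
    · exact h2
  have hevE : ∀ i, evj X n D f i ∈ PI A := by
    intro i
    refine sum_mem fun l _ => mul_mem (C_mem_PI ?_) (pow_mem X_mem_PI l)
    exact coeff_taylor_mem (PI_mono bot_le (hf l)) (hA n) i
  intro i
  induction i using Nat.strong_induction_on with
  | _ i ih =>
  intro hi
  -- a good approximation
  obtain ⟨δ, hδ, hδ'⟩ := near_fin0 hTL (Finset.range (i + 1) ×ˢ Finset.range (D + 1))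
    (fun x => hasseDeriv x.2 (evj X n D f x.1)) fun x _ => hasse_mem_PI (hevE x.1) x.2
  obtain ⟨m, X', e, b₁, hm, hr', hpow, hb₁, he, heY⟩ := hY δ hδ
  have hm0 : 0 < m := Nat.pos_of_ne_zero fun h => hm (h ▸ dvd_zero p)
  have hX'n : ∀ n, X' n ≠ 0 := fun n h => hXn n (by rw [← hpow n, h, zero_pow (by omega)])
  have hvm : ∀ n, v (X n) = m * v (X' n) := fun n => by rw [← hpow n, v.map_pow (hX'n n)]
  have hmR : (0 : ℝ) < m := by exact_mod_cast hm0
  have hv' : ∀ n, v (X' n) < 0 := fun n => by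
    have h2 := hvX n
    rw [hvm] at h2
    by_contra h3
    have := mul_nonneg hmR.le (not_lt.1 h3)
    linarith
  have hnear := hδ' e (by rw [zero_sub]; exact heY)
  obtain ⟨b', hb'R⟩ : ∃ b' : ℝ, (m : ℝ) * B = b' + 1 := ⟨m * B - 1, by ring⟩
  have hb'0 : 0 < b' + 1 := by rw [← hb'R]; positivity
  obtain ⟨L₀, hL₀⟩ := exists_JR h0 hr' (hX'n 0) (hv' 0) (c := b') (by linarith)
    (by rw [← hb'R]; exact hb₁) he
  set L := n + L₀ with hL
  obtain ⟨F, hF, hFe, hFj⟩ := hL₀ L (by omega)
  set P := p ^ L₀ with hP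
  have hPpos : 0 < P := pow_pos hp.out.pos _
  set ν := v (X' L) with hν
  have hν0 : ν < 0 := hv' L
  have hX'L : X' L ^ P = X' n := root_pow_add hr' n L₀
  have hvL : v (X' n) = P * ν := by rw [← hX'L, v.map_pow (hX'n _)]
  have hvXn : v (X n) = m * (P * ν) := by rw [hvm, hvL]
  -- the values near `Y`
  have hval : ∀ i' ≤ i, ∀ j ≤ D, ((taylor Y (evj X n D f i')).coeff j ≠ 0 →
      (taylor e (evj X n D f i')).coeff j ≠ 0) ∧
      v ((taylor e (evj X n D f i')).coeff j) = v ((taylor Y (evj X n D f i')).coeff j) := by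
    intro i' hi' j hj
    have := hnear (i', j) (Finset.mem_product.2 ⟨Finset.mem_range.2 (by omega),
      Finset.mem_range.2 (by omega)⟩)
    simp only [taylor_coeff]
    exact this
  have hval0 : ∀ i' ≤ i, ((evj X n D f i').eval Y ≠ 0 → (evj X n D f i').eval e ≠ 0) ∧
      v ((evj X n D f i').eval e) = v ((evj X n D f i').eval Y) := by
    intro i' hi'
    have := hval i' hi' 0 (Nat.zero_le _)
    simpa only [taylor_coeff_zero] using this
  -- the polynomial in one variable
  have hPm : 0 < P * m := Nat.mul_pos hPpos hm0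
  set G : Polynomial Ω := ∑ l ∈ Finset.range D, expand Ω (P * m) (f l) * F ^ l with hG
  have hGm : G ∈ PI (⊥ : IntermediateField k Ω) :=
    sum_mem fun l _ => mul_mem (expand_mem_PI hPm (hf l)) (pow_mem hF l)
  have hXL : X' L ^ (P * m) = X n := by rw [pow_mul, hX'L, hpow]
  have hGe : G.eval (X' L) = (evj X n D f 0).eval e := by
    rw [evj_eval, hG, eval_finsetSum]
    refine Finset.sum_congr rfl fun l _ => ?_
    rw [eval_mul, eval_pow, hFe, expand_eval, hXL, taylor_coeff_zero]
  have hGv : v (G.eval (X' L)) = v ((evj X n D f 0).eval Y) := by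
    rw [hGe]
    exact (hval0 0 (Nat.zero_le _)).2
  -- the increment
  set η : Polynomial Ω := taylor (X' L) F - C e with hη
  have hη0 : η.coeff 0 = 0 := by
    rw [hη, coeff_sub, taylor_coeff_zero, hFe, coeff_C_zero, sub_self]
  have hηs : ∀ s : ℕ, v.Ge (0 + s * (b' * ν)) (η.coeff s) := by
    intro s
    rcases Nat.eq_zero_or_pos s with rfl | hs
    · rw [hη0]
      exact RVal.Ge.zero
    · rw [hη, coeff_sub, coeff_C_ne_zero (by omega), sub_zero, zero_add]
      exact hFj s hs
  -- the increment of `X n`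
  set σ : Polynomial Ω := taylor (X' L) (Polynomial.X ^ (P * m)) - C (X n) with hσ
  have hσe : σ = expand Ω P (taylor (X' n) (Polynomial.X ^ m)) - C (X n) := by
    rw [hσ, ← hX'L, hP, ← taylor_expand_pow, map_pow (expand Ω (p ^ L₀)), expand_X, ← pow_mul]
  have hcoX : ∀ s, (taylor (X' n) (Polynomial.X ^ m : Polynomial Ω)).coeff s =
      (m.choose s : ℕ) * X' n ^ (m - s) := by
    intro s
    rw [taylor_coeff, hasseDeriv_apply, X_pow_eq_monomial,
      Polynomial.sum_monomial_index _ _ (by simp), eval_monomial, mul_one]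
  have hσ0 : ∀ s < P, σ.coeff s = 0 := by
    intro s hs
    rw [hσe, coeff_sub, coeff_expand hPpos]
    rcases Nat.eq_zero_or_pos s with rfl | h2
    · rw [if_pos (dvd_zero _), Nat.zero_div, hcoX, coeff_C_zero, Nat.choose_zero_right,
        Nat.cast_one, one_mul, Nat.sub_zero, hpow, sub_self]
    · rw [if_neg fun h3 => by have := Nat.le_of_dvd h2 h3; omega, coeff_C_ne_zero (by omega),
        sub_self]
  have hσP : σ.coeff P = m * X' n ^ (m - 1) := by
    rw [hσe, coeff_sub, coeff_expand hPpos, if_pos (dvd_refl _), Nat.div_self hPpos, hcoX,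
      Nat.choose_one_right, coeff_C_ne_zero (by omega), sub_zero]
  have hσs : ∀ s : ℕ, v.Ge (m * (P * ν) + s * (-ν)) (σ.coeff s) := by
    intro s
    by_cases hs : s < P
    · rw [hσ0 s hs]
      exact RVal.Ge.zero
    · rw [hσe, coeff_sub, coeff_C_ne_zero (by omega), sub_zero, coeff_expand hPpos]
      split_ifs with h2
      · obtain ⟨s', rfl⟩ := h2
        rw [Nat.mul_div_cancel_left _ hPpos, hcoX]
        by_cases h3 : m < s'
        · rw [Nat.choose_eq_zero_of_lt h3, Nat.cast_zero, zero_mul]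
          exact RVal.Ge.zero
        · refine ((ge_natCast v (m.choose s')).mul (ge_pow (v.ge_self (X' n)) (m - s'))).mono
            (le_of_eq ?_)
          rw [hvL, Nat.cast_sub (not_lt.1 h3)]
          push_cast
          ring
      · exact RVal.Ge.zero
  obtain ⟨σ', hσ'⟩ : (Polynomial.X ^ P : Polynomial Ω) ∣ σ := X_pow_dvd_iff.2 hσ0
  have hσ'0 : σ'.coeff 0 = m * X' n ^ (m - 1) := by
    rw [← hσP, hσ', coeff_X_pow_mul', if_pos le_rfl, Nat.sub_self]
  have hσpow : ∀ i', σ ^ i' = Polynomial.X ^ (P * i') * σ' ^ i' := by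
    intro i'
    rw [hσ', mul_pow, ← pow_mul]
  have hσlow : ∀ i' s, s < P * i' → (σ ^ i').coeff s = 0 := by
    intro i' s hs
    rw [hσpow, coeff_X_pow_mul', if_neg (by omega)]
  -- the expansion
  obtain ⟨N, hN⟩ : ∃ N, ∀ l ∈ Finset.range D, (f l).natDegree < N :=
    ⟨(Finset.range D).sup (fun l => (f l).natDegree) + 1, fun l hl =>
      Nat.lt_succ_of_le (Finset.le_sup (f := fun l => (f l).natDegree) hl)⟩
  have hGt : taylor (X' L) G = ∑ i' ∈ Finset.range N,
      σ ^ i' * (evj X n D f i').comp (taylor (X' L) F) := by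
    have h2 : ∀ l ∈ Finset.range D, taylor (X' L) (expand Ω (P * m) (f l)) =
        ∑ i' ∈ Finset.range N, C ((taylor (X n) (f l)).coeff i') * σ ^ i' := by
      intro l hl
      rw [expand_eq_comp_X_pow, taylor_comp', eval_pow, eval_X, hXL, ← hσ, Polynomial.comp,
        eval₂_eq_sum_range' _ (n := N)]
      rw [natDegree_taylor]
      exact hN l hl
    rw [hG, map_sum]
    have h3 : ∀ l ∈ Finset.range D, taylor (X' L) (expand Ω (P * m) (f l) * F ^ l) =
        ∑ i' ∈ Finset.range N, C ((taylor (X n) (f l)).coeff i') * σ ^ i' *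
          (taylor (X' L) F) ^ l := by
      intro l hl
      rw [taylor_mul, h2 l hl, Finset.sum_mul]
      refine Finset.sum_congr rfl fun i' _ => ?_
      congr 1
      exact map_pow (taylorAlgHom _) _ _
    rw [Finset.sum_congr rfl h3, Finset.sum_comm]
    refine Finset.sum_congr rfl fun i' _ => ?_
    rw [evj, Polynomial.sum_comp, Finset.mul_sum]
    refine Finset.sum_congr rfl fun l _ => ?_
    rw [mul_comp, C_comp, X_pow_comp]
    ring
  have hcomp : ∀ i', (evj X n D f i').comp (taylor (X' L) F) =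
      ∑ j ∈ Finset.range D, C ((taylor e (evj X n D f i')).coeff j) * η ^ j := by
    intro i'
    have h2 : (evj X n D f i').comp (taylor (X' L) F) = (taylor e (evj X n D f i')).comp η := by
      rw [taylor_apply e, comp_assoc, add_comp, X_comp, C_comp, hη, sub_add_cancel]
    rw [h2, Polynomial.comp, eval₂_eq_sum_range' _ (n := D)]
    rw [natDegree_taylor]
    refine lt_of_le_of_lt (natDegree_sum_le_of_forall_le _ _ (n := D - 1) fun l hl => ?_)
      (by omega)
    refine (natDegree_C_mul_X_pow_le _ _).trans ?_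
    have := Finset.mem_range.1 hl
    omega
  -- the lower terms
  have hlow : ∀ i' < i, v.Ge (v ((evj X n D f 0).eval Y) + i' * ((B - 1) * v (X n)))
      ((evj X n D f i').eval Y) := by
    intro i' hi'
    rcases Nat.eq_zero_or_pos i' with rfl | h2
    · rw [Nat.cast_zero, zero_mul, add_zero]
      exact v.ge_self _
    · exact (ih i' hi' h2).ge
  have hlowj : ∀ i' < i, ∀ j ≤ D,
      v.Ge (v ((evj X n D f 0).eval Y) + i' * ((B - 1) * v (X n)))
        ((taylor e (evj X n D f i')).coeff j) := by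
    intro i' hi' j hjD hne
    rcases Nat.eq_zero_or_pos j with rfl | hj
    · rw [taylor_coeff_zero] at hne ⊢
      have h2 := hval0 i' hi'.le
      rw [h2.2]
      refine hlow i' hi' ?_
      have h3 : evj X n D f i' ≠ 0 := by
        intro h3
        rw [h3, eval_zero] at hne
        exact hne rfl
      exact hTL.eval_ne (PI_mono (le_algc A) (hevE i')) h3
    have h2 := hval i' hi'.le j hjD
    have h3 : evj X n D f i' ≠ 0 := by
      intro h3
      rw [h3, map_zero, coeff_zero] at hne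
      exact hne rfl
    have h4 : (taylor Y (evj X n D f i')).coeff j ≠ 0 := by
      intro h4
      rw [taylor_coeff] at h4 hne
      have h5 : hasseDeriv j (evj X n D f i') = 0 := by
        by_contra h5
        exact hTL.eval_ne (PI_mono (le_algc A) (hasse_mem_PI (hevE i') j)) h5 h4
      rw [h5, eval_zero] at hne
      exact hne rfl
    rw [h2.2]
    have h5 := hTL.strict (PI_mono (le_algc A) (hevE i')) h3 hj h4
    rw [mul_zero, sub_zero] at h5
    refine le_trans ?_ h5.le
    exact hlow i' hi' (hTL.eval_ne (PI_mono (le_algc A) (hevE i')) h3)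
  have hlowjs : ∀ i' < i, ∀ j, 1 ≤ j → j ≤ D →
      Gt v (v ((evj X n D f 0).eval Y) + i' * ((B - 1) * v (X n)))
        ((taylor e (evj X n D f i')).coeff j) := by
    intro i' hi' j hj hjD hne
    have h2 := hval i' hi'.le j hjD
    have h3 : evj X n D f i' ≠ 0 := by
      intro h3
      rw [h3, map_zero, coeff_zero] at hne
      exact hne rfl
    have h4 : (taylor Y (evj X n D f i')).coeff j ≠ 0 := by
      intro h4
      rw [taylor_coeff] at h4 hne
      have h5 : hasseDeriv j (evj X n D f i') = 0 := by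
        by_contra h5
        exact hTL.eval_ne (PI_mono (le_algc A) (hasse_mem_PI (hevE i') j)) h5 h4
      rw [h5, eval_zero] at hne
      exact hne rfl
    rw [h2.2]
    have h5 := hTL.strict (PI_mono (le_algc A) (hevE i')) h3 hj h4
    rw [mul_zero, sub_zero] at h5
    refine lt_of_le_of_lt ?_ h5
    exact hlow i' hi' (hTL.eval_ne (PI_mono (le_algc A) (hevE i')) h3)
  -- the target
  set V := v ((evj X n D f 0).eval Y) with hV
  set T : ℝ := V + i * (P * (b' * ν)) with hT
  have hi1 : (1 : ℝ) ≤ i := by exact_mod_cast hi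
  have hPR : (0 : ℝ) < P := by exact_mod_cast hPpos
  have htot : Gt v T ((taylor (X' L) G).coeff (P * i)) := by
    refine Gt.of_ge (bot_jet h0 (hX'n L) hν0 hGm (P * i)) ?_
    rw [hGv, hT]
    push_cast
    have h6 : (P : ℝ) * i * ν < 0 := by
      have : (0 : ℝ) < P * i := by positivity
      nlinarith
    have h7 : (i : ℝ) * (P * (b' * ν)) + P * i * ν = P * i * ν * (b' + 1) := by ring
    have h8 : P * i * ν * (b' + 1) < 0 := mul_neg_of_neg_of_pos h6 hb'0
    linarith
  -- the terms
  have hterm : ∀ i' < i, Gt v T ((σ ^ i' * (evj X n D f i').comp (taylor (X' L) F)).coeff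
      (P * i)) := by
    intro i' hi'
    rw [hcomp, Finset.mul_sum, finsetSum_coeff]
    refine Gt.sum _ _ fun j hj => ?_
    have hjD := (Finset.mem_range.1 hj).le
    rw [mul_left_comm, coeff_C_mul, coeff_mul, Finset.mul_sum]
    refine Gt.sum _ _ fun x hx => ?_
    have h4 := Finset.HasAntidiagonal.mem_antidiagonal.1 hx
    have hx4 : (x.1 : ℝ) + x.2 = P * i := by exact_mod_cast h4
    rcases lt_or_ge x.1 (P * i') with h5 | h5
    · rw [hσlow i' x.1 h5, zero_mul, mul_zero]
      exact Gt.zero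
    have h5R : (P : ℝ) * i' ≤ x.1 := by exact_mod_cast h5
    have h6 := pow_cf hσs i' x.1
    have h7 := pow_cf hηs j x.2
    have hb1 : (0 : ℝ) < b' + 1 := hb'0
    rcases Nat.eq_zero_or_pos j with rfl | hj0
    · rw [pow_zero, coeff_one]
      split_ifs with h8
      · rw [mul_one]
        refine Gt.of_ge ((hlowj i' hi' 0 (Nat.zero_le _)).mul h6) ?_
        rw [h8, Nat.cast_zero, add_zero] at hx4
        rw [hx4, hT, hvXn]
        have h9 : (i' : ℝ) < i := by exact_mod_cast hi'
        have h10 : (i : ℝ) * (P * (b' * ν)) - (i' * ((B - 1) * (m * (P * ν))) +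
            (i' * (m * (P * ν)) + P * i * -ν)) = (b' + 1) * P * ν * (i - i') +
            i' * P * ν * ((b' + 1) - m * B) := by ring
        rw [hb'R, sub_self, mul_zero, add_zero] at h10
        have h11 : ((b' : ℝ) + 1) * P * ν * (i - i') < 0 := by
          have h12 : (0 : ℝ) < (b' + 1) * P * (i - i') := by
            have : (0 : ℝ) < i - i' := by linarith
            positivity
          nlinarith
        linarith
      · rw [mul_zero, mul_zero]
        exact Gt.zero
    · refine ((hlowjs i' hi' j hj0 hjD).mul_ge (h6.mul h7)).mono ?_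
      rw [hT, hvXn, mul_zero, zero_add]
      have hx2 : (x.2 : ℝ) = P * i - x.1 := by linarith
      rw [hx2]
      have h10 : (i : ℝ) * (P * (b' * ν)) - (i' * ((B - 1) * (m * (P * ν))) +
          (i' * (m * (P * ν)) + x.1 * -ν + (P * i - x.1) * (b' * ν))) =
          (b' + 1) * ν * (x.1 - P * i') + i' * P * ν * ((b' + 1) - m * B) := by ring
      rw [hb'R, sub_self, mul_zero, add_zero] at h10
      have h11 : ((b' : ℝ) + 1) * ν * (x.1 - P * i') ≤ 0 := by
        have h12 : (0 : ℝ) ≤ (b' + 1) * (x.1 - P * i') := mul_nonneg hb1.le (by linarith)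
        nlinarith
      linarith
  have hmain : Gt v T ((m * X' n ^ (m - 1)) ^ i * (evj X n D f i).eval e) := by
    have h2 : (σ ^ i * (evj X n D f i).comp (taylor (X' L) F)).coeff (P * i) =
        (m * X' n ^ (m - 1)) ^ i * (evj X n D f i).eval e := by
      rw [hσpow, mul_assoc, coeff_X_pow_mul', if_pos le_rfl, Nat.sub_self, mul_coeff_zero,
        coeff_zero_eq_eval_zero (σ' ^ i), eval_pow, ← coeff_zero_eq_eval_zero, hσ'0,
        coeff_zero_eq_eval_zero, eval_comp, ← coeff_zero_eq_eval_zero, taylor_coeff_zero, hFe]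
    have h3 : ∀ i' ∈ Finset.range N, i' ≠ i →
        Gt v T ((σ ^ i' * (evj X n D f i').comp (taylor (X' L) F)).coeff (P * i)) := by
      intro i' _ hne
      rcases lt_or_ge i' i with h4 | h4
      · exact hterm i' h4
      · rw [hσpow, mul_assoc, coeff_X_pow_mul', if_neg]
        · exact Gt.zero
        · have : i < i' := lt_of_le_of_ne h4 (Ne.symm hne)
          exact not_le.2 (Nat.mul_lt_mul_of_pos_left this hPpos)
    by_cases hiN : i < N
    · rw [hGt, finsetSum_coeff, ← Finset.add_sum_erase _ _ (Finset.mem_range.2 hiN), h2] at htot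
      have h4 : Gt v T (∑ i' ∈ (Finset.range N).erase i,
          (σ ^ i' * (evj X n D f i').comp (taylor (X' L) F)).coeff (P * i)) :=
        Gt.sum _ _ fun i' hi' => h3 i' (Finset.mem_of_mem_erase hi') (Finset.ne_of_mem_erase hi')
      have := htot.sub h4
      rwa [add_sub_cancel_right] at this
    · have h4 : evj X n D f i = 0 := by
        rw [evj]
        refine Finset.sum_eq_zero fun l hl => ?_
        rw [coeff_eq_zero_of_natDegree_lt, C_0, zero_mul]
        rw [natDegree_taylor]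
        have := hN l hl
        omega
      rw [h4, eval_zero, mul_zero]
      exact Gt.zero
  intro hne
  have h2 := hval0 i le_rfl
  have h3 := h2.1 hne
  have hmc : ((m : ℕ) : Ω) ≠ 0 := by
    rw [Ne, CharP.cast_eq_zero_iff Ω p]
    exact hm
  have hvmc : v ((m : ℕ) : Ω) = 0 := by
    have h4 : ((m : ℕ) : Ω) = algebraMap k Ω (m : k) := by rw [map_natCast]
    rw [h4]
    refine h0.triv _ fun h5 => hmc ?_
    rw [h4, h5, map_zero]
  have hu : ((m : Ω) * X' n ^ (m - 1)) ^ i ≠ 0 :=
    pow_ne_zero _ (mul_ne_zero hmc (pow_ne_zero _ (hX'n n)))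
  have h4 := hmain (mul_ne_zero hu h3)
  rw [v.map_mul hu h3, v.map_pow (mul_ne_zero hmc (pow_ne_zero _ (hX'n n))),
    v.map_mul hmc (pow_ne_zero _ (hX'n n)), hvmc, v.map_pow (hX'n n), hvL, zero_add, h2.2,
    Nat.cast_sub (by omega : 1 ≤ m), Nat.cast_one] at h4
  rw [hvXn]
  rw [hT] at h4
  have h5 : (i : ℝ) * (P * (b' * ν)) - i * ((m - 1) * (P * ν)) - i * ((B - 1) * (m * (P * ν))) =
      i * P * ν * ((b' + 1) - m * B) := by ring
  rw [hb'R, sub_self, mul_zero] at h5
  linarith

end P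

end Pool.Agent.TWC.PW
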