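import Pool.Agent.Lib.TWC.PWd
import Pool.Agent.Lib.TWC.PWb
import Pool.Agent.Lib.TWM.StabA

/-!
# TANK W, class C: row PW, the new field (part PWd)

* `far_XT`: `X (n + 1)` is at distance `≤ - b v (X (n + 1))` of `C`;
* `TL_zT`: `q(T 0) = y`, `z = y ^ p - q ^ (p) (X 0)` is of transcendental type over `EW v (WT (T 0)) T`.
-/

set_option autoImplicit false
set_option linter.unusedSectionVars false

open Polynomial

namespace Pool.Agent.TWC.PW

open Pool.Agent.H15JM (RVal)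
open Pool.Agent.LU1 (VPos adj)
open Pool.Agent.D2 (Ctx0)
open Pool.Agent.D2P (clI mem_clI)
open Pool.Agent.TWM
open Pool.Agent.TWC.PF (Lm SW SA bot_jet bot_lead evj evj_eval evj_swap map_eval_eq_swap
  exists_frac StrE_const_mul EW_inv perf_adj deriv_val)

universe u

variable {k Ω : Type u} [Field k] [Field Ω] [Algebra k Ω] {v : RVal Ω} {Γ : AddSubgroup ℝ}

section P

variable {p : ℕ} [hp : Fact p.Prime] [CharP k p] [CharP Ω p] [IsAlgClosed k] [IsAlgClosed Ω]
  {C : IntermediateField k Ω} {X X' T : ℕ → Ω} {y s : Ω} {B : ℝ} {b m : ℕ}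

omit [CharP k p] [IsAlgClosed k] in
theorem strE_of_jetT (h0 : Ctx0 k v) (hr : ∀ n, X (n + 1) ^ p = X n) (hX : X 0 ≠ 0)
    (hv : v (X 0) < 0) (hB : 0 < B) {A : IntermediateField k Ω} (hA : ∀ n, X n ∈ A) {Y : Ω}
    (hTL : TL v A Y 0) (hY : NL p v k X B Y)
    {P : Polynomial (Polynomial Ω)} (hP : PII (⊥ : IntermediateField k Ω) P)
    (hP0 : P.map (evalRingHom Y) ≠ 0) :
    StrE v (X 0) (-((B - 1) * v (X 0))) (P.map (evalRingHom Y)) := by
  set S := Bivariate.swap P with hS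
  set D := S.natDegree + 1 with hD
  have hS0 : S ≠ 0 := by
    intro h
    apply hP0
    rw [map_eval_eq_swap, ← hS, h, eval_zero]
  have hcoe : ∀ l, S.coeff l ∈ PI (⊥ : IntermediateField k Ω) := fun l => hP.swap l
  have h1 : ∀ i, (evj X 0 D S.coeff i).eval Y = (taylor (X 0) (P.map (evalRingHom Y))).coeff i :=
    fun i => evj_swap P Y (Nat.lt_succ_self _) i
  have h2 : (evj X 0 D S.coeff 0) ∈ PI A := by
    refine sum_mem fun l _ => mul_mem (C_mem_PI ?_) (pow_mem X_mem_PI l)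
    exact coeff_taylor_mem (PI_mono bot_le (hcoe l)) (hA 0) 0
  have h3 : (evj X 0 D S.coeff 0) ≠ 0 := by
    intro h3
    have h4 := congrArg (fun g => g.coeff S.natDegree) h3
    simp only [evj, finsetSum_coeff, coeff_C_mul_X_pow, coeff_zero] at h4
    rw [Finset.sum_eq_single S.natDegree] at h4
    · rw [if_pos rfl, taylor_coeff_zero] at h4
      exact (bot_lead h0 hX hv (hcoe _) (by
        rw [coeff_natDegree]
        exact leadingCoeff_ne_zero.2 hS0)).1 h4
    · intro l _ hl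
      rw [if_neg (Ne.symm hl)]
    · intro h5
      exact absurd (Finset.mem_range.2 (by omega)) h5
  have h4 : (evj X 0 D S.coeff 0).eval Y ≠ 0 := hTL.eval_ne (PI_mono (le_algc _) h2) h3
  have h5 : (P.map (evalRingHom Y)).eval (X 0) = (evj X 0 D S.coeff 0).eval Y := by
    rw [h1, taylor_coeff_zero]
  refine ⟨by rw [h5]; exact h4, fun i hi hne => ?_⟩
  rw [← h1] at hne ⊢
  have h6 := jetT h0 hr hX hv hB hA hTL hY 0 D S.coeff hcoe h4 i hi hne
  rw [h5]
  linarith

/-- The letters near to `Y`. -/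
theorem NL_of_Lm (hr : ∀ n, X (n + 1) ^ p = X n) (hX : X 0 ≠ 0) (hv : v (X 0) ∈ Γ) (hB : 0 ≤ B)
    {j : ℕ} {Y : Ω} (h : Lm v (ST k p v Γ X B j) Y) : NL p v k X B Y := by
  intro δ hδ
  obtain ⟨s, hs, h1⟩ := h δ hδ
  obtain ⟨m, b, X', hX', hb, h2⟩ := ST_level hr hX hv hB (ST_mono le_rfl (Nat.zero_le j) hs)
  exact ⟨m, X', s, b, hX'.nd, hX'.root, hX'.pow, hb, h2, h1⟩

/-- The elements of `k(tame roots, y)`. -/
theorem adj_level (hr : ∀ n, X (n + 1) ^ p = X n) (hX : X 0 ≠ 0) (hv : v (X 0) ∈ Γ) {a : Ω}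
    (ha : a ∈ IntermediateField.adjoin k
      ({f | ∃ m : ℕ, ¬ p ∣ m ∧ f ^ m = X 0 ∧ v f ∈ Γ} ∪ {y})) :
    ∃ (m : ℕ) (X' : ℕ → Ω), RS p v Γ X m X' ∧
      a ∈ IntermediateField.adjoin k ({X' 0, y} : Set Ω) := by
  have mono : ∀ {m₁ m₂ : ℕ} {X₁ X₂ : ℕ → Ω}, RS p v Γ X m₁ X₁ → RS p v Γ X m₂ X₂ →
      ∃ (m : ℕ) (X' : ℕ → Ω), RS p v Γ X m X' ∧
        IntermediateField.adjoin k ({X₁ 0, y} : Set Ω) ≤
          IntermediateField.adjoin k ({X' 0, y} : Set Ω) ∧
        IntermediateField.adjoin k ({X₂ 0, y} : Set Ω) ≤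
          IntermediateField.adjoin k ({X' 0, y} : Set Ω) := by
    intro m₁ m₂ X₁ X₂ h1 h2
    obtain ⟨r, r₁, X'', h3, -, -, h4⟩ := RS.common (k := k) hX h1 h2
    have hx : X'' 0 ∈ IntermediateField.adjoin k ({X'' 0, y} : Set Ω) :=
      IntermediateField.subset_adjoin k _ (Or.inl rfl)
    have hy : y ∈ IntermediateField.adjoin k ({X'' 0, y} : Set Ω) :=
      IntermediateField.subset_adjoin k _ (Or.inr rfl)
    refine ⟨m₁ * r, X'', h1.trans h3, ?_, ?_⟩
    · refine IntermediateField.adjoin_le_iff.2 ?_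
      rintro f (rfl | hf)
      · rw [← h3.pow 0]
        exact pow_mem hx r
      · rw [Set.mem_singleton_iff] at hf
        exact hf ▸ hy
    · refine IntermediateField.adjoin_le_iff.2 ?_
      rintro f (rfl | hf)
      · obtain ⟨c, -, h5⟩ := h4 0
        rw [h5]
        exact mul_mem (IntermediateField.algebraMap_mem _ c) (pow_mem hx r₁)
      · rw [Set.mem_singleton_iff] at hf
        exact hf ▸ hy
  induction ha using IntermediateField.adjoin_induction with
  | mem a ha =>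
    rcases ha with ⟨m, hm, h1, h2⟩ | ha
    · obtain ⟨X', h3, h4⟩ := exists_rts p a
      have hm0 : m ≠ 0 := fun h => hm (h ▸ dvd_zero p)
      refine ⟨m, X', ⟨hm, h4, fun n => ?_, by rw [h3]; exact h2⟩, ?_⟩
      · induction n with
        | zero => rw [h3, h1]
        | succ n ih =>
          refine frobenius_inj Ω p ?_
          rw [frobenius_def, frobenius_def, hr, ← pow_mul, mul_comm, pow_mul, h4, ih]
      · rw [← h3]
        exact IntermediateField.subset_adjoin k _ (Or.inl rfl)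
    · rw [Set.mem_singleton_iff] at ha
      exact ⟨1, X, RS.refl hr hv, IntermediateField.subset_adjoin k _ (Or.inr ha)⟩
  | algebraMap c => exact ⟨1, X, RS.refl hr hv, IntermediateField.algebraMap_mem _ c⟩
  | add a a' _ _ h1 h2 =>
    obtain ⟨m₁, X₁, h1, h1'⟩ := h1
    obtain ⟨m₂, X₂, h2, h2'⟩ := h2
    obtain ⟨m, X', h3, h4, h5⟩ := mono h1 h2
    exact ⟨m, X', h3, add_mem (h4 h1') (h5 h2')⟩
  | inv a _ h1 =>
    obtain ⟨m₁, X₁, h1, h1'⟩ := h1
    exact ⟨m₁, X₁, h1, inv_mem h1'⟩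
  | mul a a' _ _ h1 h2 =>
    obtain ⟨m₁, X₁, h1, h1'⟩ := h1
    obtain ⟨m₂, X₂, h2, h2'⟩ := h2
    obtain ⟨m, X', h3, h4, h5⟩ := mono h1 h2
    exact ⟨m, X', h3, mul_mem (h4 h1') (h5 h2')⟩

theorem cadj_WT_le : cadj v (WT k p v Γ (X 0)) y ≤ clI v (IntermediateField.adjoin k
    ({f | ∃ m : ℕ, ¬ p ∣ m ∧ f ^ m = X 0 ∧ v f ∈ Γ} ∪ {y})) := by
  refine cadj_le (cld_clI v _) (clI_mono' (IntermediateField.adjoin.mono k _ _
    Set.subset_union_left)) ?_
  exact self_le_clI v _ (IntermediateField.subset_adjoin k _ (Or.inr rfl))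

theorem RS.mem_cEW (hr : ∀ n, X (n + 1) ^ p = X n) (hX : X 0 ≠ 0) (hv : v (X 0) ∈ Γ)
    (h : RS p v Γ X m X') (n : ℕ) : X' n ∈ EW v (WT k p v Γ (X 0)) X := by
  have h1 := mem_ST (k := k) (B := 1) (i := 1) (j := 0) h (Nat.zero_le n) (by
    rw [mul_one, Nat.cast_one]
    exact_mod_cast Nat.one_le_iff_ne_zero.2 h.n_ne)
  have h2 := ST_le_EW hr hX hv h1
  rwa [pow_one] at h2

/-- **Far.** -/
theorem far_XT (h0 : Ctx0 k v) (hP : PRT p v Γ C X y (b + 1)) (n : ℕ) :
    ¬ Nr' v C (-(b * v (X (n + 1)))) (X (n + 1)) := by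
  rintro ⟨c, hc, hgt⟩
  have hp0 : (0 : ℝ) < p := by exact_mod_cast hp.out.pos
  have hr := hP.root
  set q := p ^ (n + 1) with hq
  have hq2 : 1 < q := Nat.one_lt_pow (by omega) hp.out.one_lt
  set r : ℝ := -(b * v (X (n + 1))) with hrr
  have hc' := cadj_WT_le (hP.eq ▸ hc)
  obtain ⟨a, ha, ha'⟩ := mem_clI.1 hc' (r + 1)
  -- a near element of `k(tame roots, y)`, different from `X (n + 1)`
  obtain ⟨a, ha, hne, hav⟩ : ∃ a ∈ IntermediateField.adjoin k
      ({f | ∃ m : ℕ, ¬ p ∣ m ∧ f ^ m = X 0 ∧ v f ∈ Γ} ∪ {y}),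
      X (n + 1) - a ≠ 0 ∧ r < v (X (n + 1) - a) := by
    have h1 : Gt v r (X (n + 1) - a) := by
      have h2 := hgt.add (Gt.of_ge ha' (by linarith : r < r + 1))
      rwa [sub_add_sub_cancel] at h2
    by_cases h2 : X (n + 1) - a = 0
    · obtain ⟨N, hN⟩ := exists_nat_gt (r / -v (X 0))
      have hneg : 0 < -v (X 0) := by linarith [hP.neg]
      rw [div_lt_iff₀ hneg] at hN
      have h3 : (X 0 ^ N)⁻¹ ≠ 0 := inv_ne_zero (pow_ne_zero _ hP.ne)
      have hX0 : X 0 ∈ IntermediateField.adjoin k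
          ({f | ∃ m : ℕ, ¬ p ∣ m ∧ f ^ m = X 0 ∧ v f ∈ Γ} ∪ {y} : Set Ω) :=
        IntermediateField.subset_adjoin k _ (Or.inl ⟨1, fun h => by
          have := Nat.le_of_dvd one_pos h
          have := hp.out.one_lt
          omega, pow_one _, hP.val⟩)
      refine ⟨a - (X 0 ^ N)⁻¹, sub_mem ha (inv_mem (pow_mem hX0 N)), ?_, ?_⟩
      · rw [← sub_add, h2, zero_add]
        exact h3
      · rw [← sub_add, h2, zero_add, v.map_inv (pow_ne_zero _ hP.ne), v.map_pow hP.ne]
        linarith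
    · exact ⟨a, ha, h2, h1 h2⟩
  obtain ⟨m, X', hX', ha⟩ := adj_level hr hP.ne hP.val ha
  have hm0 : m ≠ 0 := hX'.n_ne
  have hX'n : ∀ n, X' n ≠ 0 := hX'.ne hP.ne
  have hv' : v (X' 0) < 0 := hX'.neg hP.ne hP.neg
  have hvm : m * v (X' (n + 1)) = v (X (n + 1)) := hX'.val_mul hP.ne _
  have hXq : X' (n + 1) ^ q = X' 0 := by
    have := root_pow_add hX'.root 0 (n + 1)
    rwa [zero_add] at this
  obtain ⟨P, Q, hPP, hQQ, hQ0, hPQ⟩ := exists_frac ha
  set D := max P.natDegree Q.natDegree + 1 with hD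
  set f : ℕ → Polynomial Ω := fun l => expand Ω q (Q.coeff l) * Polynomial.X ^ m -
    expand Ω q (P.coeff l) with hf
  have hfm : ∀ l, f l ∈ PI (⊥ : IntermediateField k Ω) := fun l =>
    sub_mem (mul_mem (expand_mem_PI (by omega) (hQQ l)) (pow_mem X_mem_PI m))
      (expand_mem_PI (by omega) (hPP l))
  have hev : ∀ R : Polynomial (Polynomial Ω), R.natDegree < D →
      R.evalEval (X' 0) y = ∑ l ∈ Finset.range D, (R.coeff l).eval (X' 0) * y ^ l := by
    intro R hR
    rw [evalEval, eval_eq_sum_range' hR, eval_finsetSum]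
    refine Finset.sum_congr rfl fun l _ => ?_
    rw [eval_mul, eval_pow, eval_C]
  have h00 : (evj X' (n + 1) D f 0).eval y = Q.evalEval (X' 0) y * (X (n + 1) - a) := by
    rw [mul_sub, mul_comm _ a, hPQ, hev P (by omega), hev Q (by omega), evj_eval, Finset.sum_mul,
      ← Finset.sum_sub_distrib]
    refine Finset.sum_congr rfl fun l _ => ?_
    rw [taylor_coeff_zero, hf]
    simp only [eval_sub, eval_mul, eval_pow, eval_X, expand_eval, hXq, hX'.pow]
    ring
  have h11 : (evj X' (n + 1) D f 1).eval y =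
      Q.evalEval (X' 0) y * (m * X' (n + 1) ^ (m - 1)) := by
    rw [hev Q (by omega), evj_eval, Finset.sum_mul]
    refine Finset.sum_congr rfl fun l _ => ?_
    have h1 : ∀ R : Polynomial Ω, (taylor (X' (n + 1)) (expand Ω q R)).coeff 1 = 0 := by
      intro R
      rw [hq, taylor_expand_pow, coeff_expand (by omega), if_neg]
      intro h2
      have := Nat.le_of_dvd one_pos h2
      omega
    have h2 : (taylor (X' (n + 1)) (f l)).coeff 1 =
        (Q.coeff l).eval (X' 0) * (m * X' (n + 1) ^ (m - 1)) := by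
      rw [hf]
      simp only [map_sub, taylor_mul, coeff_sub, h1, sub_zero]
      rw [mul_coeff_one, h1, zero_mul, add_zero, taylor_coeff_zero, expand_eval, hXq,
        taylor_coeff_one, derivative_X_pow, eval_mul, eval_C, eval_pow, eval_X]
    rw [h2]
    ring
  have hne0 : (evj X' (n + 1) D f 0).eval y ≠ 0 := by
    rw [h00]
    exact mul_ne_zero hQ0 hne
  have hmR : (0 : ℝ) < m := by exact_mod_cast Nat.pos_of_ne_zero hm0
  have hY : NL p v k X' (m * (b + 1)) y := by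
    have h1 := hP.ltr
    rw [ST_eq hP.ne hX'] at h1
    exact NL_of_Lm hX'.root (hX'n 0) hX'.val (by positivity) h1
  have hmc : ((m : ℕ) : Ω) ≠ 0 := by
    rw [Ne, CharP.cast_eq_zero_iff Ω p]
    exact hX'.nd
  have hvmc : v ((m : ℕ) : Ω) = 0 := by
    have h4 : ((m : ℕ) : Ω) = algebraMap k Ω (m : k) := by rw [map_natCast]
    rw [h4]
    refine h0.triv _ fun h5 => hmc ?_
    rw [h4, h5, map_zero]
  have hu : (m : Ω) * X' (n + 1) ^ (m - 1) ≠ 0 := mul_ne_zero hmc (pow_ne_zero _ (hX'n _))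
  have h1 := jetT h0 hX'.root (hX'n 0) hv' (by positivity)
    (RS.mem_cEW hr hP.ne hP.val hX') hP.tl hY (n + 1) D f hfm hne0 1 le_rfl
    (by rw [h11]; exact mul_ne_zero hQ0 hu)
  rw [h11, h00, v.map_mul hQ0 hne, Nat.cast_one, one_mul, v.map_mul hQ0 hu,
    v.map_mul hmc (pow_ne_zero _ (hX'n _)), hvmc, zero_add, v.map_pow (hX'n _),
    Nat.cast_sub (Nat.one_le_iff_ne_zero.2 hm0), Nat.cast_one] at h1
  rw [hrr, ← hvm] at hav
  have h2 : ((m : ℝ) - 1) * v (X' (n + 1)) - (m * (b + 1) - 1) * v (X' (n + 1)) =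
      -(b * (m * v (X' (n + 1)))) := by ring
  linarith

/-- **`X 0` is far from the algebraic elements over the closure of `k(y, y ^ (1 / p), ..)`.** -/
theorem far_algT (h0 : Ctx0 k v) (hr : ∀ n, X (n + 1) ^ p = X n) (hX : X 0 ≠ 0)
    (hv : v (X 0) < 0) (hB : 0 < B) {A : IntermediateField k Ω} (hA : ∀ n, X n ∈ A) {Y : ℕ → Ω}
    (hYr : ∀ n, Y (n + 1) ^ p = Y n) (hYTL : ∀ n, TL v A (Y n) 0)
    (hYL : ∀ n, NL p v k X B (Y n)) {θ : Ω}
    (hθ : IsAlgebraic (EW v (⊥ : IntermediateField k Ω) Y) θ) :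
    X 0 ≠ θ ∧ v (X 0 - θ) < -((B - 1) * v (X 0)) := by
  classical
  have hp0 : (0 : ℝ) < p := by exact_mod_cast hp.out.pos
  have hY0 : ∀ n, Y n ≠ 0 ∧ v (Y n) < 0 := fun n => by
    have h1 := (hYTL n).far 0 isAlgebraic_zero
    rw [sub_zero] at h1
    exact h1
  set M := EW v (⊥ : IntermediateField k Ω) Y with hM
  have hint : IsIntegral M θ := hθ.isIntegral
  set g := (minpoly M θ).map (algebraMap M Ω) with hg
  have hg0 : g ≠ 0 := by
    rw [hg, Ne, Polynomial.map_eq_zero]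
    exact minpoly.ne_zero hint
  have hgθ : g.eval θ = 0 := by
    rw [hg, eval_map_algebraMap, minpoly.aeval]
  have hgE : ∀ i, g.coeff i ∈ M := by
    intro i
    rw [hg, coeff_map]
    exact (((minpoly M θ).coeff i)).2
  refine StrE.far (StrE.approx hg0 fun c => ?_) hgθ
  -- approximation of the coefficients
  set x : ℕ → Ω := fun n => (Y n)⁻¹ with hx
  have hxr : ∀ n, x (n + 1) ^ p = x n := fun n => by rw [hx]; simp only; rw [inv_pow, hYr]
  have hx0 : x 0 ≠ 0 := inv_ne_zero (hY0 0).1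
  have hxv : 0 < v (x 0) := by rw [hx]; simp only; rw [v.map_inv (hY0 0).1]; linarith [(hY0 0).2]
  have happ : ∀ i, ∃ (N : ℕ) (f : ℤ →₀ k), v.Ge c (g.coeff i - lf (x N) f) := by
    intro i
    have h1 : Lim v (EW v (⊥ : IntermediateField k Ω) x) (c + 1) (g.coeff i) := by
      intro ε hε
      refine ⟨g.coeff i, EW_inv _ _ (hgE i), ?_⟩
      rw [sub_self]
      exact RVal.Ge.zero
    obtain ⟨N, f, h2⟩ := exists_lf h0 hxr hx0 hxv h1 one_pos
    exact ⟨N, f, h2.mono (by linarith)⟩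
  choose N f hf using happ
  obtain ⟨N₀, hN₀⟩ : ∃ N₀, ∀ i ∈ Finset.range (g.natDegree + 1), N i ≤ N₀ :=
    ⟨(Finset.range (g.natDegree + 1)).sup N, fun i hi => Finset.le_sup hi⟩
  have happ2 : ∀ i ∈ Finset.range (g.natDegree + 1), ∃ f' : ℤ →₀ k,
      v.Ge c (g.coeff i - lf (x N₀) f') := by
    intro i hi
    have h1 := lf_root hxr (N i) (N₀ - N i) (f i)
    rw [Nat.add_sub_cancel' (hN₀ i hi)] at h1
    exact ⟨_, by rw [← h1]; exact hf i⟩
  have happ3 : ∀ i, ∃ f' : ℤ →₀ k, i < g.natDegree + 1 → v.Ge c (g.coeff i - lf (x N₀) f') := by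
    intro i
    by_cases hi : i < g.natDegree + 1
    · obtain ⟨f', hf'⟩ := happ2 i (Finset.mem_range.2 hi)
      exact ⟨f', fun _ => hf'⟩
    · exact ⟨0, fun h => absurd h hi⟩
  choose f' hf' using happ3
  obtain ⟨M₀, hM₀⟩ : ∃ M₀ : ℕ, ∀ i ∈ Finset.range (g.natDegree + 1), ∀ j ∈ (f' i).support,
      j ≤ (M₀ : ℤ) := by
    refine ⟨(Finset.range (g.natDegree + 1)).sup fun i => (f' i).support.sup Int.toNat,
      fun i hi j hj => ?_⟩
    have h1 : Int.toNat j ≤ (f' i).support.sup Int.toNat := Finset.le_sup (f := Int.toNat) hj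
    have h2 : ((f' i).support.sup Int.toNat) ≤
      (Finset.range (g.natDegree + 1)).sup fun i => (f' i).support.sup Int.toNat :=
      Finset.le_sup (f := fun i => (f' i).support.sup Int.toNat) hi
    have := Int.self_le_toNat j
    omega
  set z := Y N₀ with hz
  set Q : ℕ → Polynomial Ω := fun i => (f' i).sum fun j a =>
    Polynomial.C (algebraMap k Ω a) * Polynomial.X ^ (M₀ - j).toNat with hQ
  have hQm : ∀ i, Q i ∈ PI (⊥ : IntermediateField k Ω) := fun i =>
    sum_mem fun j _ => mul_mem (C_mem_PI (IntermediateField.algebraMap_mem _ _))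
      (pow_mem X_mem_PI _)
  have hQe : ∀ i ∈ Finset.range (g.natDegree + 1), x N₀ ^ M₀ * (Q i).eval z = lf (x N₀) (f' i) := by
    intro i hi
    rw [hQ]
    simp only [Finsupp.sum, eval_finsetSum, eval_mul, eval_C, eval_pow, eval_X, lf, Finset.mul_sum]
    refine Finset.sum_congr rfl fun j hj => ?_
    have h1 : x N₀ = z⁻¹ := rfl
    have h2 := hM₀ i hi j hj
    have hz0 : z ≠ 0 := (hY0 N₀).1
    rw [h1, mul_left_comm]
    congr 1
    have h3 : z ^ (M₀ - j).toNat = z ^ ((M₀ : ℤ) - j) := by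
      rw [← zpow_natCast, Int.toNat_of_nonneg (by omega)]
    rw [h3, zpow_sub₀ hz0, inv_pow, inv_zpow, zpow_natCast]
    field_simp
  let P : Polynomial (Polynomial Ω) := ∑ i ∈ Finset.range (g.natDegree + 1),
    Polynomial.C (Q i) * Polynomial.X ^ i
  have hPc : ∀ i, P.coeff i = if i < g.natDegree + 1 then Q i else 0 := by
    intro i
    simp only [P, finsetSum_coeff, coeff_C_mul_X_pow]
    rw [Finset.sum_ite_eq]
    simp only [Finset.mem_range]
  have hPP : PII (⊥ : IntermediateField k Ω) P := by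
    intro i
    rw [hPc]
    split_ifs
    exacts [hQm i, zero_mem _]
  have hxN : x N₀ ^ M₀ ≠ 0 := pow_ne_zero _ (inv_ne_zero (hY0 N₀).1)
  refine ⟨Polynomial.C (x N₀ ^ M₀) * P.map (evalRingHom z), ?_, ?_, fun hne => ?_⟩
  · refine (natDegree_C_mul_le _ _).trans (natDegree_map_le.trans ?_)
    rw [natDegree_le_iff_coeff_eq_zero]
    intro i hi
    rw [hPc, if_neg (by omega)]
  · intro i
    rw [coeff_sub, coeff_C_mul, coeff_map (evalRingHom z), hPc]
    split_ifs with hi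
    · rw [coe_evalRingHom, hQe i (Finset.mem_range.2 hi)]
      exact hf' i hi
    · rw [coeff_eq_zero_of_natDegree_lt (by omega)]
      simp only [_root_.map_zero, mul_zero, sub_self]
      exact RVal.Ge.zero
  · have h1 : P.map (evalRingHom z) ≠ 0 := by
      intro h1
      rw [h1, mul_zero] at hne
      exact hne rfl
    exact StrE_const_mul hxN (strE_of_jetT h0 hr hX hv hB hA (hYTL N₀) (hYL N₀) hPP h1)

omit [CharP k p] [IsAlgClosed k] in
/-- The root of an element of transcendental type. -/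
theorem TL_rootT {E : IntermediateField k Ω} (hE : ∀ a ∈ E, ∃ b ∈ E, b ^ p = a) {y' : Ω}
    (h : TL v E (y' ^ p) 0) : TL v E y' 0 := PF.TL_root_d hE h

theorem Lm_root_T {j : ℕ} {y' : Ω} (h : Lm v (ST k p v Γ X B j) (y' ^ p)) :
    Lm v (ST k p v Γ X B j) y' := by
  have hp0 : (0 : ℝ) < p := by exact_mod_cast hp.out.pos
  intro ε hε
  obtain ⟨s, hs, h1⟩ := h (p * ε) (mul_pos hp0 hε)
  obtain ⟨r, hr1, rfl⟩ := ST_root hs
  refine ⟨r, ST_mono le_rfl (Nat.le_succ j) hr1, ?_⟩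
  rw [← sub_pow_char] at h1
  refine TWM.ge_of_pow (p := p) ?_
  rwa [mul_neg]

/-- **Transcendental type over `E_t`.** -/
theorem TL_zT (h0 : Ctx0 k v) (hc : CompleteV v) (hP : PRT p v Γ C X y (b + 1))
    (hT : ∀ n, T (n + 1) ^ p = T n) {q : Polynomial k}
    (hq : q.natDegree = b + 1) (hb : ¬ p ∣ b + 1) (ht : aeval (T 0) q = y)
    (ht1 : v.Ge ((b + 1 : ℕ) * v (X 2) - b * v (X 1)) (T 0 - X 1))
    (hz : Lm v (ST k p v Γ T (b + 1) 0) (y ^ p - aeval (X 0) (q.map (frobenius k p)))) :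
    TL v (EW v (WT k p v Γ (T 0)) T) (y ^ p - aeval (X 0) (q.map (frobenius k p))) 0 := by
  have hp0 : (0 : ℝ) < p := by exact_mod_cast hp.out.pos
  have hp1 : (1 : ℝ) < p := by exact_mod_cast hp.out.one_lt
  obtain ⟨Y, hY0, hYr⟩ := exists_rts p y
  set M := EW v (⊥ : IntermediateField k Ω) Y with hM
  have hyM : y ∈ M := hY0 ▸ EW.mem 0
  haveI : PerfectRing k p := PerfectField.toPerfectRing p
  have hMperf : ∀ a ∈ M, ∃ b ∈ M, b ^ p = a := by
    refine perf_clI p (perf_sup p ?_ ?_)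
    · intro a ha
      obtain ⟨a, rfl⟩ := IntermediateField.mem_bot.1 ha
      obtain ⟨a', ha'⟩ := (PerfectRing.bijective_frobenius (R := k) (p := p)).2 a
      have h2 : a' ^ p = a := ha'
      exact ⟨algebraMap k Ω a', IntermediateField.algebraMap_mem _ _, by rw [← map_pow, h2]⟩
    · rintro _ ⟨n, rfl⟩
      exact ⟨Y (n + 1), (le_sup_right : IntermediateField.adjoin k (Set.range Y) ≤ _)
        (IntermediateField.subset_adjoin k _ ⟨n + 1, rfl⟩), hYr n⟩
  -- the value of `T 0`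
  have hX1 : X 1 ≠ 0 := root_ne_zero hP.root hP.ne 1
  have hv1 : v (X 1) = v (X 0) / p := by
    rw [val_rt hP.root hP.ne, pow_one]
  have hv2 : v (X 2) = v (X 1) / p := by
    rw [val_rt hP.root hP.ne, hv1, pow_two, div_div]
  have hv1n : v (X 1) < 0 := by
    rw [hv1]
    exact div_neg_of_neg_of_pos hP.neg hp0
  have hTX : Gt v (v (X 1)) (T 0 - X 1) := by
    refine Gt.of_ge ht1 ?_
    rw [hv2]
    push_cast
    have h2 : v (X 1) < v (X 1) / p := by
      rw [lt_div_iff₀ hp0]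
      nlinarith
    have h3 : (0 : ℝ) ≤ b := Nat.cast_nonneg b
    nlinarith
  have hT0 : T 0 ≠ 0 ∧ v (T 0) = v (X 1) := Gt.val_eq hX1 hTX.sub_comm'
  have hTΓ : v (T 0) ∈ Γ := by
    rw [hT0.2, hv1]
    exact hP.div _ hP.val
  -- `T 0` is algebraic over `M`
  have hqb : (q.map (algebraMap k Ω)).coeff (b + 1) ≠ 0 := by
    rw [coeff_map, Ne, map_eq_zero, ← hq, coeff_natDegree, leadingCoeff_eq_zero]
    rintro rfl
    rw [natDegree_zero] at hq
    omega
  have hTalg : IsAlgebraic M (T 0) := by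
    refine isAlgebraic_root (f := q.map (algebraMap k Ω) - Polynomial.C y) ?_ ?_ ?_
    · refine sub_mem (fun i => ?_) (C_mem_PI hyM)
      rw [coeff_map]
      exact IntermediateField.algebraMap_mem _ _
    · intro h1
      have h2 := congrArg (fun g => g.coeff (b + 1)) h1
      simp only [coeff_sub, coeff_zero] at h2
      rw [coeff_C_ne_zero (by omega), sub_zero] at h2
      exact hqb h2
    · rw [eval_sub, eval_C, eval_map_algebraMap, ht, sub_self]
  -- the base is in the closure of the algebraic elements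
  have hTM : EW v (WT k p v Γ (T 0)) T ≤ clI v (TWM.algc M) := by
    refine clI_le' (sup_le (clI_mono' ?_) ?_) (cld_clI v _)
    · refine IntermediateField.adjoin_le_iff.2 ?_
      rintro f ⟨m, hm, hf, -⟩
      have hm0 : 0 < m := Nat.pos_of_ne_zero fun h => hm (h ▸ dvd_zero p)
      refine mem_algc.2 ?_
      refine IsAlgebraic.of_pow hm0 ?_
      rw [hf]
      exact hTalg
    · refine IntermediateField.adjoin_le_iff.2 ?_
      rintro _ ⟨n, rfl⟩
      refine self_le_clI v _ (mem_algc.2 ?_)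
      refine IsAlgebraic.of_pow (pow_pos hp.out.pos n) ?_
      have h1 := root_pow_add hT 0 n
      rw [zero_add] at h1
      rw [h1]
      exact hTalg
  refine ⟨?_, fun θ hθ => ?_⟩
  · intro ε hε
    obtain ⟨s, hs, h1⟩ := hz ε hε
    exact ⟨s, ST_le_EW hT hT0.1 hTΓ hs, by rw [zero_sub]; exact h1⟩
  -- reduction to algebraic elements over `M`
  suffices H : ∀ θ : Ω, IsAlgebraic M θ →
      y ^ p - aeval (X 0) (q.map (frobenius k p)) ≠ θ ∧
        v (y ^ p - aeval (X 0) (q.map (frobenius k p)) - θ) < 0 by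
    obtain ⟨θ', h1, h2⟩ := exists_near_alg (D2P.isAlgebraic_mono hTM hθ) 0
    obtain ⟨h3, h4⟩ := H θ' (isAlgebraic_of_algc h1)
    have h5 : y ^ p - aeval (X 0) (q.map (frobenius k p)) - θ' ≠ 0 := sub_ne_zero.2 h3
    have h6 := Gt.val_eq h5 (y := y ^ p - aeval (X 0) (q.map (frobenius k p)) - θ) (by
      rw [sub_sub_sub_cancel_left]
      exact Gt.of_ge h2 h4)
    exact ⟨sub_ne_zero.1 h6.1, by rw [h6.2]; exact h4⟩
  intro θ h1
  set N := (q.map (frobenius k p)).map (algebraMap k Ω) with hN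
  have hNd : (q.map (frobenius k p)).natDegree = b + 1 := by
    rw [natDegree_map_eq_of_injective (frobenius_inj k p), hq]
  set h := N - Polynomial.C (y ^ p) + Polynomial.C θ with hh
  have hhm : h ∈ PI (TWM.algc M) := by
    refine add_mem (sub_mem (fun i => ?_) (C_mem_PI (pow_mem (le_algc M hyM) p)))
      (C_mem_PI (mem_algc.2 h1))
    rw [hN, coeff_map]
    exact IntermediateField.algebraMap_mem _ _
  have hh0 : h ≠ 0 := by
    intro h2
    have h3 := congrArg (fun g => g.coeff (b + 1)) h2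
    simp only [hh, coeff_add, coeff_sub, coeff_zero] at h3
    rw [coeff_C_ne_zero (by omega), coeff_C_ne_zero (by omega), sub_zero, add_zero, hN,
      coeff_map, map_eq_zero, ← hNd, coeff_natDegree, leadingCoeff_eq_zero] at h3
    rw [h3, natDegree_zero] at hNd
    omega
  -- the roots of `y`
  set A := EW v (WT k p v Γ (X 0)) X with hA
  have hYTL : ∀ n, TL v A (Y n) 0 := by
    intro n
    induction n with
    | zero => rw [hY0]; exact hP.tl
    | succ n ih =>
      exact TL_rootT (EWT_perf hP.root hP.ne hP.val hP.div) (by rw [hYr]; exact ih)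
  have hYL : ∀ n, Lm v (ST k p v Γ X (b + 1) 1) (Y n) := by
    intro n
    induction n with
    | zero => rw [hY0]; exact hP.ltr
    | succ n ih => exact Lm_root_T (by rw [hYr]; exact ih)
  have hBpos : (0 : ℝ) < b + 1 := by positivity
  have hstr : Str v (-(b * v (X 0))) (taylor (X 0) h) := by
    have h2 := (IsAlgClosed.splits h).eq_prod_roots
    rw [h2, taylor_mul, taylor_C]
    refine Str.mul (Str.C (leadingCoeff_ne_zero.2 hh0)) (Str.multiset _ fun θ' hθ' => ?_)
    rw [mem_roots hh0] at hθ'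
    have h3 := far_algT h0 hP.root hP.ne hP.neg hBpos
      (fun n => EW.mem (v := v) (P := WT k p v Γ (X 0)) n) hYr hYTL
      (fun n => NL_of_Lm hP.root hP.ne hP.val hBpos.le (hYL n))
      (isAlgebraic_of_algc (isAlgebraic_root hhm hh0 hθ'))
    refine ⟨h3.1, h3.2.trans_le (le_of_eq ?_)⟩
    ring
  have hhe : h.eval (X 0) = -(y ^ p - aeval (X 0) (q.map (frobenius k p)) - θ) := by
    rw [hh, eval_add, eval_sub, eval_C, eval_C, hN, eval_map_algebraMap]
    ring
  have hne := hstr.ne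
  rw [taylor_coeff_zero, hhe] at hne
  have hne' : y ^ p - aeval (X 0) (q.map (frobenius k p)) - θ ≠ 0 := fun h2 => hne (by
    rw [h2, neg_zero])
  refine ⟨sub_ne_zero.1 hne', ?_⟩
  have hd := deriv_val (p := p) h0 hP.ne hP.neg hNd hb
  have h3 : (taylor (X 0) h).coeff 1 = (derivative N).eval (X 0) := by
    rw [taylor_coeff_one, hh, derivative_add, derivative_sub, derivative_C, derivative_C,
      sub_zero, add_zero]
  have h4 := hstr.gt 1 le_rfl
  rw [taylor_coeff_zero, hhe, h3] at h4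
  have h5 := h4 hd.1
  rw [hd.2, v.map_neg _ hne', Nat.cast_one, one_mul] at h5
  linarith

end P

end Pool.Agent.TWC.PW
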