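import Pool.Agent.Lib.TWC.PFdefs
import Pool.Agent.Lib.TWC.EW

/-!
# TANK W, class C: rational letters over a tame base (row PW), definitions

`Γ` a group of values with `Γ = Γ / p`; the tame roots are the roots of order prime to `p` with value
in `Γ`.

* `RS p v Γ X m X'`: `X'` is a system of roots of order `m` of the system `X`;
* `WT p v Γ x`: the closure of the field generated by the tame roots of `x`;
* `ST`, `STs`, `SAs`: the letters of exponents `≤ B`, `< B`, and `< B` up to powers of `p`;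
* `InST`: `C` contains an element with the leading top letter `X n ^ (b + 1)`;
* `PRT`: the data.
-/

set_option autoImplicit false

open Polynomial

namespace Pool.Agent.TWC.PW

open Pool.Agent.H15JM (RVal)
open Pool.Agent.D2 (Ctx0)
open Pool.Agent.D2P (clI mem_clI)
open Pool.Agent.TWM
open Pool.Agent.TWC.PF (Lm SW SA)

universe u

variable {k Ω : Type u} [Field k] [Field Ω] [Algebra k Ω]

/-- `X'` is a system of roots of order `m` of the system `X`, with values in `Γ`. -/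
structure RS (p : ℕ) (v : RVal Ω) (Γ : AddSubgroup ℝ) (X : ℕ → Ω) (m : ℕ) (X' : ℕ → Ω) :
    Prop where
  nd : ¬ p ∣ m
  root : ∀ n, X' (n + 1) ^ p = X' n
  pow : ∀ n, X' n ^ m = X n
  val : v (X' 0) ∈ Γ

/-- The closure of the field generated by the tame roots of `x`. -/
noncomputable def WT (k : Type u) {Ω : Type u} [Field k] [Field Ω] [Algebra k Ω] (p : ℕ)
    (v : RVal Ω) (Γ : AddSubgroup ℝ) (x : Ω) : IntermediateField k Ω :=
  clI v (IntermediateField.adjoin k {f | ∃ m : ℕ, ¬ p ∣ m ∧ f ^ m = x ∧ v f ∈ Γ})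

section

variable (k)

/-- The letters of exponents `≤ B` at the positions `≥ j`. -/
def ST (p : ℕ) (v : RVal Ω) (Γ : AddSubgroup ℝ) (X : ℕ → Ω) (B : ℝ) (j : ℕ) : Submodule k Ω :=
  Submodule.span k {g | ∃ (m : ℕ) (X' : ℕ → Ω) (n i : ℕ), RS p v Γ X m X' ∧ j ≤ n ∧
    (i : ℝ) ≤ m * B ∧ g = X' n ^ i}

/-- The letters of exponents `< B` at the positions `≥ j`. -/
def STs (p : ℕ) (v : RVal Ω) (Γ : AddSubgroup ℝ) (X : ℕ → Ω) (B : ℝ) (j : ℕ) : Submodule k Ω :=
  Submodule.span k {g | ∃ (m : ℕ) (X' : ℕ → Ω) (n i : ℕ), RS p v Γ X m X' ∧ j ≤ n ∧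
    (i : ℝ) < m * B ∧ g = X' n ^ i}

/-- The letters of exponents `< B` up to powers of `p`. -/
def SAs (p : ℕ) (v : RVal Ω) (Γ : AddSubgroup ℝ) (X : ℕ → Ω) (B : ℝ) : Submodule k Ω :=
  Submodule.span k {g | ∃ (m : ℕ) (X' : ℕ → Ω) (n l i : ℕ), RS p v Γ X m X' ∧
    (i : ℝ) < m * B ∧ g = X' n ^ (i * p ^ l)}

end

/-- `C` contains an element with the leading top letter `X n ^ (b + 1)`. -/
def InST (p : ℕ) (v : RVal Ω) (Γ : AddSubgroup ℝ) (C : IntermediateField k Ω) (X : ℕ → Ω)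
    (b n : ℕ) : Prop :=
  ∃ f ∈ C, Lm v (ST k p v Γ X (b + 1) (n + 1) ⊔ SAs k p v Γ X (b + 1)) (f - X n ^ (b + 1))

/-- The data: letters of exponents `≤ B`. -/
structure PRT (p : ℕ) (v : RVal Ω) (Γ : AddSubgroup ℝ) (C : IntermediateField k Ω) (X : ℕ → Ω)
    (y : Ω) (B : ℝ) : Prop where
  root : ∀ n, X (n + 1) ^ p = X n
  ne : X 0 ≠ 0
  neg : v (X 0) < 0
  val : v (X 0) ∈ Γ
  div : ∀ g ∈ Γ, g / p ∈ Γ
  tl : TL v (EW v (WT k p v Γ (X 0)) X) y 0
  eq : C = cadj v (WT k p v Γ (X 0)) y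
  ltr : Lm v (ST k p v Γ X B 1) y

end Pool.Agent.TWC.PW
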