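import Pool.Agent.Lib.TWC.PWdefs
import Pool.Agent.Lib.TWC.PFe

/-!
# TANK W, class C: rational letters over a tame base (row PW), part e

`lim_of_allT`: if `C` contains, for every `n ≥ 1`, an element with the leading top letter
`X n ^ (b + 1)`, then all the `X n` are limits of `C` up to `-(b v (X n))`.

The letters of exponents `< b + 1` have no fixed gap below `b + 1`; at a given precision only
finitely many of them occur (`SAl_cut`, `top_cut`).
-/

set_option autoImplicit false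

open Polynomial

namespace Pool.Agent.TWC.PW

open Pool.Agent.H15JM (RVal)
open Pool.Agent.D2 (Ctx0)
open Pool.Agent.D2P (clI mem_clI)
open Pool.Agent.TWM
open Pool.Agent.TWC.PF (Lm SW SA nrS mem_nrS le_nrS ge_mem_nrS sub mem_sub root_approx)

universe u

variable {k Ω : Type u} [Field k] [Field Ω] [Algebra k Ω] {v : RVal Ω} {Γ : AddSubgroup ℝ}
  {p : ℕ} {C : IntermediateField k Ω} {X X' : ℕ → Ω} {b m : ℕ} {B : ℝ}

theorem RS.pos_e (h : RS p v Γ X m X') : 0 < m :=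
  Nat.pos_of_ne_zero fun e => h.nd (e ▸ dvd_zero p)

theorem RS.ne_e (hX : X 0 ≠ 0) (h : RS p v Γ X m X') : X' 0 ≠ 0 := fun e => by
  have h1 := h.pow 0
  rw [e, zero_pow h.pos_e.ne'] at h1
  exact hX h1.symm

theorem RS.val_e (h : RS p v Γ X m X') {n : ℕ} (hX : X n ≠ 0) : v (X n) = m * v (X' n) := by
  have h1 : X' n ≠ 0 := fun e => by
    have h2 := h.pow n
    rw [e, zero_pow h.pos_e.ne'] at h2
    exact hX h2.symm
  rw [← h.pow n, v.map_pow h1]

theorem RS.mem_e (hW : WT k p v Γ (X 0) ≤ C) (h : RS p v Γ X m X') : X' 0 ∈ C :=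
  hW (le_clI _ (IntermediateField.subset_adjoin _ _ ⟨m, h.nd, h.pow 0, h.val⟩))

variable (k) in
/-- The letters of exponents `≤ B` up to powers of `p`. -/
def SAl (p : ℕ) (v : RVal Ω) (Γ : AddSubgroup ℝ) (X : ℕ → Ω) (B : ℝ) : Submodule k Ω :=
  Submodule.span k {g | ∃ (m : ℕ) (X' : ℕ → Ω) (n l i : ℕ), RS p v Γ X m X' ∧
    (i : ℝ) ≤ m * B ∧ g = X' n ^ (i * p ^ l)}

variable (k) in
/-- The top letters at the positions `≥ j`. -/
def Tp (X : ℕ → Ω) (b j : ℕ) : Submodule k Ω :=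
  Submodule.span k {g | ∃ n : ℕ, j ≤ n ∧ g = X n ^ (b + 1)}

theorem SAl_mono {B' : ℝ} (h : B ≤ B') : SAl k p v Γ X B ≤ SAl k p v Γ X B' := by
  refine Submodule.span_mono ?_
  rintro _ ⟨m, X', n, l, i, hR, hi, rfl⟩
  exact ⟨m, X', n, l, i, hR, hi.trans (mul_le_mul_of_nonneg_left h (Nat.cast_nonneg m)), rfl⟩

/-- A cut below `b + 1` for one element. -/
theorem SAl_cut {j : ℕ} {s : Ω} (hs : s ∈ ST k p v Γ X (b + 1) j ⊔ SAs k p v Γ X (b + 1)) :
    ∃ B : ℝ, 0 ≤ B ∧ B < b + 1 ∧ s ∈ Tp k X b j ⊔ SAl k p v Γ X B := by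
  have hb1 : (0 : ℝ) < b + 1 := by positivity
  have hlow : ∀ {m : ℕ} {X' : ℕ → Ω} {n l i : ℕ}, RS p v Γ X m X' → (i : ℝ) < m * (b + 1) →
      ∃ B : ℝ, 0 ≤ B ∧ B < b + 1 ∧ X' n ^ (i * p ^ l) ∈ Tp k X b j ⊔ SAl k p v Γ X B := by
    intro m X' n l i hR hi
    have hm : (0 : ℝ) < m := by exact_mod_cast hR.pos_e
    refine ⟨i / m, by positivity, by rwa [div_lt_iff₀ hm, mul_comm],
      Submodule.mem_sup_right (Submodule.subset_span ⟨m, X', n, l, i, hR, ?_, rfl⟩)⟩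
    rw [mul_div_cancel₀ _ hm.ne']
  have hadd : ∀ {x y : Ω},
      (∃ B : ℝ, 0 ≤ B ∧ B < b + 1 ∧ x ∈ Tp k X b j ⊔ SAl k p v Γ X B) →
      (∃ B : ℝ, 0 ≤ B ∧ B < b + 1 ∧ y ∈ Tp k X b j ⊔ SAl k p v Γ X B) →
      ∃ B : ℝ, 0 ≤ B ∧ B < b + 1 ∧ x + y ∈ Tp k X b j ⊔ SAl k p v Γ X B := by
    rintro x y ⟨B₁, h1, h2, h3⟩ ⟨B₂, h4, h5, h6⟩
    exact ⟨max B₁ B₂, h1.trans (le_max_left _ _), max_lt h2 h5,
      add_mem (sup_le_sup_left (SAl_mono (le_max_left _ _)) _ h3)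
        (sup_le_sup_left (SAl_mono (le_max_right _ _)) _ h6)⟩
  obtain ⟨s₁, h1, s₂, h2, rfl⟩ := Submodule.mem_sup.1 hs
  refine hadd ?_ ?_
  · clear hs
    rw [ST] at h1
    induction h1 using Submodule.span_induction with
    | mem x hx =>
      obtain ⟨m, X', n, i, hR, hn, hi, rfl⟩ := hx
      rcases hi.lt_or_eq with hi | hi
      · have := hlow (n := n) (l := 0) hR hi
        rwa [pow_zero, mul_one] at this
      · refine ⟨0, le_rfl, hb1, Submodule.mem_sup_left (Submodule.subset_span ⟨n, hn, ?_⟩)⟩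
        have h3 : i = m * (b + 1) := by exact_mod_cast hi
        rw [h3, pow_mul, hR.pow]
    | zero => exact ⟨0, le_rfl, hb1, zero_mem _⟩
    | add x y _ _ hx hy => exact hadd hx hy
    | smul a x _ hx =>
      obtain ⟨B, h1, h2, h3⟩ := hx
      exact ⟨B, h1, h2, Submodule.smul_mem _ _ h3⟩
  · clear hs
    rw [SAs] at h2
    induction h2 using Submodule.span_induction with
    | mem x hx =>
      obtain ⟨m, X', n, l, i, hR, hi, rfl⟩ := hx
      exact hlow hR hi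
    | zero => exact ⟨0, le_rfl, hb1, zero_mem _⟩
    | add x y _ _ hx hy => exact hadd hx hy
    | smul a x _ hx =>
      obtain ⟨B, h1, h2, h3⟩ := hx
      exact ⟨B, h1, h2, Submodule.smul_mem _ _ h3⟩

variable [hp : Fact p.Prime]

/-- Elimination of the top letters. -/
theorem top_cut (h0 : Ctx0 k v) (hr : ∀ n, X (n + 1) ^ p = X n) (hX : X 0 ≠ 0)
    (h : ∀ n, 1 ≤ n → InST p v Γ C X b n) {ε : ℝ} (hε : 0 < ε) :
    ∃ B : ℝ, 0 ≤ B ∧ B < b + 1 ∧ ∀ m, 1 ≤ m →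
      X m ^ (b + 1) ∈ nrS h0 (sub C ⊔ SAl k p v Γ X B) (-ε) := by
  have hp1 : (1 : ℝ) < p := by exact_mod_cast hp.out.one_lt
  have hb1 : (0 : ℝ) < b + 1 := by positivity
  -- large positions
  obtain ⟨N, hN⟩ : ∃ N : ℕ, ∀ m, N ≤ m → v.Ge (-ε) (X m ^ (b + 1)) := by
    obtain ⟨N, hN⟩ := pow_unbounded_of_one_lt ((b + 1) * |v (X 0)| / ε) hp1
    refine ⟨N, fun m hm _ => ?_⟩
    rw [v.map_pow (root_ne_zero hr hX m), val_rt hr hX m]
    have h1 : (b + 1) * |v (X 0)| / ε < p ^ m := hN.trans_le (pow_le_pow_right₀ hp1.le hm)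
    rw [div_lt_iff₀ hε] at h1
    have h2 : (0 : ℝ) < (p : ℝ) ^ m := by positivity
    have h3 : -(((b : ℝ) + 1) * |v (X 0)| / p ^ m) ≤ ((b + 1 : ℕ) : ℝ) * (v (X 0) / p ^ m) := by
      push_cast
      rw [← mul_div_assoc, ← neg_div, div_le_div_iff_of_pos_right h2]
      nlinarith [neg_abs_le (v (X 0))]
    refine le_trans ?_ h3
    rw [neg_le_neg_iff, div_le_iff₀ h2]
    linarith
  -- the cut
  obtain ⟨B, hB0, hB1, hcut⟩ : ∃ B : ℝ, 0 ≤ B ∧ B < b + 1 ∧ ∀ n, 1 ≤ n → n < N →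
      ∃ f ∈ C, ∃ s ∈ Tp k X b (n + 1) ⊔ SAl k p v Γ X B, v.Ge (-ε) (f - X n ^ (b + 1) - s) := by
    clear hN
    induction N with
    | zero => exact ⟨0, le_rfl, hb1, fun n _ hn => absurd hn (Nat.not_lt_zero n)⟩
    | succ N ih =>
      obtain ⟨B₁, h1, h2, h3⟩ := ih
      rcases Nat.eq_zero_or_pos N with rfl | hN
      · exact ⟨0, le_rfl, hb1, fun n hn hn' => absurd hn (by omega)⟩
      obtain ⟨f, hf, h4⟩ := h N hN
      obtain ⟨s, hs, h5⟩ := h4 ε hε
      obtain ⟨B₂, h6, h7, h8⟩ := SAl_cut hs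
      refine ⟨max B₁ B₂, h1.trans (le_max_left _ _), max_lt h2 h7, fun n hn hn' => ?_⟩
      rcases Nat.lt_succ_iff_lt_or_eq.1 hn' with hn' | rfl
      · obtain ⟨f, hf, s, hs, h9⟩ := h3 n hn hn'
        exact ⟨f, hf, s, sup_le_sup_left (SAl_mono (le_max_left _ _)) _ hs, h9⟩
      · exact ⟨f, hf, s, sup_le_sup_left (SAl_mono (le_max_right _ _)) _ h8, h5⟩
  refine ⟨B, hB0, hB1, ?_⟩
  -- induction downwards
  have key : ∀ d m, 1 ≤ m → N ≤ m + d →
      X m ^ (b + 1) ∈ nrS h0 (sub C ⊔ SAl k p v Γ X B) (-ε) := by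
    intro d
    induction d using Nat.strong_induction_on with
    | _ d ih =>
      intro m hm hmd
      rcases Nat.lt_or_ge m N with hmN | hmN
      swap
      · exact ge_mem_nrS h0 _ (hN m hmN)
      obtain ⟨f, hf, s, hs, h2⟩ := hcut m hm hmN
      have hle : Tp k X b (m + 1) ⊔ SAl k p v Γ X B ≤
          nrS h0 (sub C ⊔ SAl k p v Γ X B) (-ε) := by
        refine sup_le (Submodule.span_le.2 ?_) (le_sup_right.trans (le_nrS h0 _ _))
        rintro _ ⟨n, hn, rfl⟩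
        exact ih (d - 1) (by omega) n (by omega) (by omega)
      have h3 := hle hs
      have h4 : f ∈ nrS h0 (sub C ⊔ SAl k p v Γ X B) (-ε) :=
        le_nrS h0 _ _ (Submodule.mem_sup_left hf)
      have h5 : f - X m ^ (b + 1) - s ∈ nrS h0 (sub C ⊔ SAl k p v Γ X B) (-ε) :=
        ge_mem_nrS h0 _ h2
      have e : X m ^ (b + 1) = f - (f - X m ^ (b + 1) - s) - s := by ring
      rw [e]
      exact sub_mem (sub_mem h4 h5) h3
  exact fun m hm => key N m hm (by omega)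

/-- The lower letters, from approximations of the top letters. -/
theorem SAl_near (h0 : Ctx0 k v) (hr : ∀ n, X (n + 1) ^ p = X n) (hX : X 0 ≠ 0) (hv : v (X 0) < 0)
    (hW : WT k p v Γ (X 0) ≤ C) (hb : ¬ p ∣ b + 1) (hB0 : 0 ≤ B) (hB : B < b + 1) {τ : ℝ}
    (_hτ : 0 ≤ τ) (h : ∀ m, 1 ≤ m → X m ^ (b + 1) ∈ nrS h0 (sub C) (-τ)) :
    SAl k p v Γ X B ≤ nrS h0 (sub C) (-(B / (b + 1) * τ)) := by
  have hb1 : (0 : ℝ) < b + 1 := by positivity
  refine Submodule.span_le.2 ?_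
  rintro _ ⟨m, X', n, l, i, hR, hi, rfl⟩
  have hm : (0 : ℝ) < m := by exact_mod_cast hR.pos_e
  have hX' : X' 0 ≠ 0 := hR.ne_e hX
  have hXC : X' 0 ∈ C := hR.mem_e hW
  have hb' : ¬ p ∣ (m * (b + 1) - 1) + 1 := by
    have h1 : 0 < m * (b + 1) := Nat.mul_pos hR.pos_e (Nat.succ_pos b)
    rw [Nat.sub_add_cancel h1]
    intro h2
    rcases hp.out.dvd_mul.1 h2 with h2 | h2
    · exact hR.nd h2
    · exact hb h2
  have hb'' : (((m * (b + 1) - 1 : ℕ) : ℝ) + 1) = m * (b + 1) := by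
    have h1 : 0 < m * (b + 1) := Nat.mul_pos hR.pos_e (Nat.succ_pos b)
    have h2 : (m * (b + 1) - 1 : ℕ) + 1 = m * (b + 1) := Nat.sub_add_cancel h1
    exact_mod_cast h2
  -- the positions
  have key : ∀ n, X' n ^ i ∈ nrS h0 (sub C) (-(B / (b + 1) * τ)) := by
    intro n
    have hXn : X n ≠ 0 := root_ne_zero hr hX n
    have hXn' : X' n ≠ 0 := root_ne_zero hR.root hX' n
    have hvm : v (X n) < 0 := by
      rw [val_rt hr hX n]
      exact div_neg_of_neg_of_pos hv (pow_pos (by exact_mod_cast hp.out.pos) n)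
    have hvv : v (X n) = m * v (X' n) := hR.val_e hXn
    have hvn' : v (X' n) < 0 := by
      by_contra h1
      have : 0 ≤ (m : ℝ) * v (X' n) := mul_nonneg hm.le (not_lt.1 h1)
      linarith
    -- the size of the letter
    have hsz : (i : ℝ) * (-v (X' n)) ≤ B * (-v (X n)) := by
      rw [hvv]
      have := mul_le_mul_of_nonneg_right hi (show 0 ≤ -v (X' n) by linarith)
      linarith
    rcases Nat.eq_zero_or_pos n with rfl | hn
    · exact le_nrS h0 _ _ (pow_mem hXC i)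
    by_cases h1 : -((b + 1) * v (X n)) ≤ τ
    · refine ge_mem_nrS h0 _ fun _ => ?_
      rw [v.map_pow hXn']
      have h2 : -v (X n) ≤ τ / (b + 1) := by
        rw [le_div_iff₀ hb1]
        linarith
      have h3 : B * (-v (X n)) ≤ B * (τ / (b + 1)) := mul_le_mul_of_nonneg_left h2 hB0
      have h4 : B * (τ / (b + 1)) = B / (b + 1) * τ := by ring
      linarith
    · obtain ⟨f, hf, h2⟩ := h n hn
      have h3 : v.Ge (-τ) (f - X' n ^ ((m * (b + 1) - 1) + 1)) := by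
        have h4 := h2.neg
        have h5 : 0 < m * (b + 1) := Nat.mul_pos hR.pos_e (Nat.succ_pos b)
        rwa [neg_sub, ← hR.pow n, ← pow_mul, ← Nat.sub_add_cancel h5] at h4
      have h4 : τ < -((((m * (b + 1) - 1 : ℕ) : ℝ) + 1) * v (X' n)) := by
        rw [hb'']
        rw [hvv] at h1
        have := not_le.1 h1
        linarith
      obtain ⟨g, hg, h5⟩ := root_approx hR.root hX' hXC hb' hf h3 h4 i
      refine ⟨g, hg, h5.mono ?_⟩
      rw [hb'']
      have h6 : τ / (b + 1) < -v (X n) := by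
        rw [div_lt_iff₀ hb1]
        linarith [not_le.1 h1]
      have h7 : (m : ℝ) * (b + 1) * v (X' n) = (b + 1) * v (X n) := by
        rw [hvv]
        ring
      rw [h7]
      have h8 : B / (b + 1) * τ = τ - (b + 1 - B) * (τ / (b + 1)) := by
        field_simp
        ring
      have h9 : (b + 1 - B) * (τ / (b + 1)) ≤ (b + 1 - B) * (-v (X n)) :=
        mul_le_mul_of_nonneg_left h6.le (by linarith)
      rw [h8]
      linarith
  rcases Nat.lt_or_ge l n with hln | hln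
  · obtain ⟨d, rfl⟩ := Nat.exists_eq_add_of_lt hln
    have h1 : X' (l + d + 1) ^ (i * p ^ l) = X' (d + 1) ^ i := by
      have h2 := root_pow_add hR.root (d + 1) l
      rw [mul_comm, pow_mul, show l + d + 1 = d + 1 + l by ring, h2]
    rw [h1]
    exact key (d + 1)
  · obtain ⟨d, rfl⟩ := Nat.exists_eq_add_of_le hln
    refine le_nrS h0 _ _ ?_
    have h1 : X' n ^ (i * p ^ (n + d)) = X' 0 ^ (i * p ^ d) := by
      have h2 := root_pow_add hR.root 0 n
      rw [zero_add] at h2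
      rw [← h2, ← pow_mul, pow_add]
      congr 1
      ring
    rw [h1]
    exact pow_mem hXC _

/-- The top letters are limits of `C` up to `0`. -/
theorem top_limT (h0 : Ctx0 k v) (hr : ∀ n, X (n + 1) ^ p = X n) (hX : X 0 ≠ 0)
    (hv : v (X 0) < 0) (hW : WT k p v Γ (X 0) ≤ C) (hb : ¬ p ∣ b + 1)
    (h : ∀ n, 1 ≤ n → InST p v Γ C X b n)
    {ε : ℝ} (hε : 0 < ε) {m : ℕ} (hm : 1 ≤ m) : X m ^ (b + 1) ∈ nrS h0 (sub C) (-ε) := by
  have hp1 : (1 : ℝ) < p := by exact_mod_cast hp.out.one_lt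
  have hb1 : (0 : ℝ) < b + 1 := by positivity
  obtain ⟨B, hB0, hB1, hcut⟩ := top_cut h0 hr hX h hε
  set T := (b + 1) * (-v (X 0)) with hT
  have hT0 : 0 ≤ T := mul_nonneg hb1.le (by linarith)
  set c : ℝ := B / (b + 1) with hc
  have hc0 : 0 ≤ c := by positivity
  have hc1 : c < 1 := by
    rw [hc, div_lt_one hb1]
    exact hB1
  have key : ∀ j m, 1 ≤ m → X m ^ (b + 1) ∈ nrS h0 (sub C) (-(max (c ^ j * T) ε)) := by
    intro j
    induction j with
    | zero =>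
      intro m hm
      refine ge_mem_nrS h0 _ (RVal.Ge.mono (neg_le_neg (le_max_left _ _)) fun _ => ?_)
      rw [v.map_pow (root_ne_zero hr hX m), val_rt hr hX m, pow_zero, one_mul, hT]
      have h1 : (1 : ℝ) ≤ (p : ℝ) ^ m := one_le_pow₀ hp1.le
      have h2 : -v (X 0) / p ^ m ≤ -v (X 0) := div_le_self (by linarith) h1
      have h3 : ((b + 1 : ℕ) : ℝ) * (v (X 0) / p ^ m) = -((b + 1) * (-v (X 0) / p ^ m)) := by
        push_cast
        ring
      rw [h3, neg_le_neg_iff]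
      exact mul_le_mul_of_nonneg_left h2 hb1.le
    | succ j ih =>
      intro m hm
      set τ := max (c ^ j * T) ε with hτ
      have hτ0 : 0 ≤ τ := hε.le.trans (le_max_right _ _)
      have h1 := SAl_near h0 hr hX hv hW hb hB0 hB1 hτ0 ih
      rw [← hc] at h1
      have hle : -(max (c ^ (j + 1) * T) ε) ≤ -(c * τ) := by
        rw [neg_le_neg_iff, hτ, mul_max_of_nonneg _ _ hc0]
        refine max_le_max (le_of_eq (by ring)) ?_
        nlinarith
      obtain ⟨g, hg, h2⟩ := hcut m hm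
      obtain ⟨f, hf, s, hs, rfl⟩ := Submodule.mem_sup.1 hg
      obtain ⟨f', hf', h3⟩ := h1 hs
      refine ⟨f + f', add_mem hf hf', ?_⟩
      have e : X m ^ (b + 1) - (f + f') = (X m ^ (b + 1) - (f + s)) + (s - f') := by ring
      rw [e]
      exact (h2.mono (neg_le_neg (le_max_right _ _))).add (h3.mono hle)
  obtain ⟨j, hj⟩ := exists_pow_lt_of_lt_one (show 0 < ε / (T + 1) by positivity) hc1
  have h1 : c ^ j * T ≤ ε := by
    rw [lt_div_iff₀ (by linarith)] at hj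
    have := pow_nonneg hc0 j
    nlinarith
  have h2 := key j m hm
  rwa [max_eq_right h1] at h2

/-- **All the positions are hit: `X n` is a limit of `C`.** -/
theorem lim_of_allT (h0 : Ctx0 k v) (_hC : Cld v C) (hr : ∀ n, X (n + 1) ^ p = X n) (hX : X 0 ≠ 0)
    (hv : v (X 0) < 0) (hΓ : v (X 0) ∈ Γ) (_hdiv : ∀ g ∈ Γ, g / p ∈ Γ)
    (hW : WT k p v Γ (X 0) ≤ C) (hb : ¬ p ∣ b + 1)
    (h : ∀ n, 1 ≤ n → InST p v Γ C X b n) (n : ℕ) : Lim v C (-(b * v (X n))) (X n) := by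
  intro ε hε
  have hb1 : (0 : ℝ) < b + 1 := by positivity
  have hXC : X 0 ∈ C := hW (le_clI _ (IntermediateField.subset_adjoin _ _
    ⟨1, fun h1 => hp.out.one_lt.ne' (Nat.dvd_one.1 h1), pow_one _, hΓ⟩))
  have hvn : v (X n) < 0 := by
    rw [val_rt hr hX n]
    exact div_neg_of_neg_of_pos hv (pow_pos (by exact_mod_cast hp.out.pos) n)
  rcases Nat.eq_zero_or_pos n with rfl | hn
  · exact ⟨X 0, hXC, by rw [sub_self]; exact RVal.Ge.zero⟩
  obtain ⟨δ, hδ, hδε, hδ1⟩ : ∃ δ : ℝ, 0 < δ ∧ δ ≤ ε ∧ δ < -((b + 1) * v (X n)) := by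
    have h1 : 0 < -((b + 1) * v (X n)) := by nlinarith
    exact ⟨min ε (-((b + 1) * v (X n)) / 2), lt_min hε (by linarith), min_le_left _ _,
      lt_of_le_of_lt (min_le_right _ _) (by linarith)⟩
  obtain ⟨f, hf, h2⟩ := top_limT h0 hr hX hv hW hb h hδ hn
  have h3 : v.Ge (-δ) (f - X n ^ (b + 1)) := by
    have := h2.neg
    rwa [neg_sub] at this
  obtain ⟨g, hg, h4⟩ := root_approx hr hX hXC hb hf h3 hδ1 1
  rw [pow_one] at h4
  refine ⟨g, hg, h4.mono ?_⟩
  push_cast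
  linarith

end Pool.Agent.TWC.PW
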