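import Pool.Agent.Lib.TWC.PWdefs

/-!
# TANK W, class C: rational letters over a tame base (row PW), the steps of the algorithm

* `Stp`: one step (renaming of the system, the field `C(X e)`, the coordinates `(t, z)`);
* `Chn`: the finite chains of steps;
* `IsoR`: the chains of fields `C(X e)`;
* `Stp.inv`, `Chn.inv`: the invariants.
-/

set_option autoImplicit false

open Polynomial

namespace Pool.Agent.TWC.PW

open Pool.Agent.H15JM (RVal)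
open Pool.Agent.TWM
open Pool.Agent.TWC.PF (Lm SW SA)

universe u

variable {k Ω : Type u} [Field k] [Field Ω] [Algebra k Ω] {v : RVal Ω} {Γ : AddSubgroup ℝ}
  {p : ℕ} [hp : Fact p.Prime] [CharP k p] {C C₁ C₂ : IntermediateField k Ω}
  {X X₁ X₂ : ℕ → Ω} {y y₁ y₂ : Ω} {b b₁ b₂ : ℕ}

/-- One step of the algorithm; the top exponents are `b + 1`. -/
inductive Stp (p : ℕ) [Fact p.Prime] [CharP k p] (v : RVal Ω) (Γ : AddSubgroup ℝ) :
    IntermediateField k Ω → (ℕ → Ω) → Ω → ℕ → IntermediateField k Ω → (ℕ → Ω) → Ω → ℕ → Prop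
  /-- renaming -/
  | ren {C : IntermediateField k Ω} {X X' : ℕ → Ω} {y : Ω} {b b' m : ℕ} (h : RS p v Γ X m X')
      (hb : b' + 1 = m * (b + 1)) (hP : PRT p v Γ C X' y (b' + 1)) : Stp p v Γ C X y b C X' y b'
  /-- the field `C(X e)` -/
  | iso {C C' : IntermediateField k Ω} {X : ℕ → Ω} {y : Ω} {b : ℕ} (e : ℕ) (g : Ω)
      (hg : g ∈ WT k p v Γ (X e)) (hg' : g ∈ STs k p v Γ X (b + 1) 1) (h1 : C ≤ C')
      (h2 : ∀ f ∈ C', f ^ p ^ e ∈ C) (hP : PRT p v Γ C' (fun n => X (e + n)) (y - g) (b + 1)) :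
      Stp p v Γ C X y b C' (fun n => X (e + n)) (y - g) b
  /-- the coordinates `(t, z)` -/
  | tz {C : IntermediateField k Ω} {X T T' : ℕ → Ω} {y : Ω} {b m : ℕ} (q q₀ : Polynomial k)
      (hq : q.natDegree = b + 1) (hTC : T 0 ∈ C) (hT : ∀ n, T (n + 1) ^ p = T n)
      (ht : aeval (T 0) q = y)
      (ht1 : v.Ge ((b + 1 : ℕ) * v (X 2) - b * v (X 1)) (T 0 - X 1))
      (hy : Lm v (ST k p v Γ X (b + 1) 2) (y - aeval (X 1) q)) (hT' : RS p v Γ T m T')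
      (hq₀ : q₀.natDegree ≤ m * (b + 1))
      (hP : PRT p v Γ C T (y ^ p - aeval (X 0) (q.map (frobenius k p)) - aeval (T' 0) q₀)
        (b + 1)) :
      Stp p v Γ C X y b C T (y ^ p - aeval (X 0) (q.map (frobenius k p)) - aeval (T' 0) q₀) b

/-- Finite chains of steps. -/
inductive Chn (p : ℕ) [Fact p.Prime] [CharP k p] (v : RVal Ω) (Γ : AddSubgroup ℝ) :
    IntermediateField k Ω → (ℕ → Ω) → Ω → ℕ → IntermediateField k Ω → (ℕ → Ω) → Ω → ℕ → Prop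
  | refl (C : IntermediateField k Ω) (X : ℕ → Ω) (y : Ω) (b : ℕ) : Chn p v Γ C X y b C X y b
  | step {C C₁ C₂ : IntermediateField k Ω} {X X₁ X₂ : ℕ → Ω} {y y₁ y₂ : Ω} {b b₁ b₂ : ℕ}
      (h : Stp p v Γ C X y b C₁ X₁ y₁ b₁) (h' : Chn p v Γ C₁ X₁ y₁ b₁ C₂ X₂ y₂ b₂) :
      Chn p v Γ C X y b C₂ X₂ y₂ b₂

/-- `C'` is obtained from `C` by passing to fields `C(X e)`, finitely many times. -/
inductive IsoR (p : ℕ) (v : RVal Ω) (Γ : AddSubgroup ℝ) :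
    IntermediateField k Ω → IntermediateField k Ω → Prop
  | refl (C : IntermediateField k Ω) : IsoR p v Γ C C
  | step {C C₁ C₂ : IntermediateField k Ω} {X : ℕ → Ω} {y : Ω} {B B₁ : ℝ} {e : ℕ} {g : Ω}
      (hP : PRT p v Γ C X y B) (hg : g ∈ WT k p v Γ (X e)) (h1 : C ≤ C₁)
      (h2 : ∀ f ∈ C₁, f ^ p ^ e ∈ C) (hP₁ : PRT p v Γ C₁ (fun n => X (e + n)) (y - g) B₁)
      (h' : IsoR p v Γ C₁ C₂) : IsoR p v Γ C C₂

omit hp [CharP k p] in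
theorem IsoR.trans (h : IsoR p v Γ C C₁) (h' : IsoR p v Γ C₁ C₂) : IsoR p v Γ C C₂ := by
  induction h with
  | refl C => exact h'
  | step hP hg h1 h2 hP₁ _ ih => exact .step hP hg h1 h2 hP₁ (ih h')

omit hp [CharP k p] in
theorem IsoR.le (h : IsoR p v Γ C C₁) : C ≤ C₁ := by
  induction h with
  | refl C => exact le_rfl
  | step hP hg h1 h2 hP₁ _ ih => exact h1.trans ih

omit hp [CharP k p] in
theorem IsoR.isog (h : IsoR p v Γ C C₁) : ∃ e : ℕ, ∀ f ∈ C₁, f ^ p ^ e ∈ C := by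
  induction h with
  | refl C => exact ⟨0, fun f hf => by rwa [pow_zero, pow_one]⟩
  | @step C C₁ C₂ X y B B₁ e g hP hg h1 h2 hP₁ _ ih =>
    obtain ⟨e', h3⟩ := ih
    refine ⟨e' + e, fun f hf => ?_⟩
    rw [pow_add, pow_mul]
    exact h2 _ (h3 f hf)

/-- The invariants of a step. -/
theorem Stp.inv (h : Stp p v Γ C X y b C₁ X₁ y₁ b₁) (hb : ¬ p ∣ b + 1) :
    C ≤ C₁ ∧ (∃ e : ℕ, ∀ f ∈ C₁, f ^ p ^ e ∈ C) ∧ PRT p v Γ C₁ X₁ y₁ (b₁ + 1) ∧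
      ¬ p ∣ b₁ + 1 := by
  cases h with
  | ren h hb' hP =>
    refine ⟨le_rfl, ⟨0, fun f hf => by rwa [pow_zero, pow_one]⟩, hP, ?_⟩
    rw [hb', hp.out.dvd_mul]
    exact not_or.2 ⟨h.nd, hb⟩
  | iso e g hg hg' h1 h2 hP => exact ⟨h1, ⟨e, h2⟩, hP, hb⟩
  | tz q q₀ hq hTC hT ht ht1 hy hT' hq₀ hP =>
    exact ⟨le_rfl, ⟨0, fun f hf => by rwa [pow_zero, pow_one]⟩, hP, hb⟩

theorem Stp.isoR (h : Stp p v Γ C X y b C₁ X₁ y₁ b₁) (hP : PRT p v Γ C X y (b + 1)) :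
    IsoR p v Γ C C₁ := by
  cases h with
  | ren h hb' hP' => exact .refl _
  | iso e g hg hg' h1 h2 hP₁ => exact .step hP hg h1 h2 hP₁ (.refl _)
  | tz q q₀ hq hTC hT ht ht1 hy hT' hq₀ hP' => exact .refl _

/-- The invariants of a chain. -/
theorem Chn.inv (h : Chn p v Γ C X y b C₁ X₁ y₁ b₁) (hP : PRT p v Γ C X y (b + 1))
    (hb : ¬ p ∣ b + 1) :
    C ≤ C₁ ∧ (∃ e : ℕ, ∀ f ∈ C₁, f ^ p ^ e ∈ C) ∧ PRT p v Γ C₁ X₁ y₁ (b₁ + 1) ∧
      ¬ p ∣ b₁ + 1 := by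
  induction h with
  | refl C X y b => exact ⟨le_rfl, ⟨0, fun f hf => by rwa [pow_zero, pow_one]⟩, hP, hb⟩
  | step h h' ih =>
    obtain ⟨h1, ⟨e, h2⟩, h3, h4⟩ := h.inv hb
    obtain ⟨h5, ⟨e', h6⟩, h7⟩ := ih h3 h4
    refine ⟨h1.trans h5, ⟨e' + e, fun f hf => ?_⟩, h7⟩
    rw [pow_add, pow_mul]
    exact h2 _ (h6 f hf)

theorem Chn.isoR (h : Chn p v Γ C X y b C₁ X₁ y₁ b₁) (hP : PRT p v Γ C X y (b + 1))
    (hb : ¬ p ∣ b + 1) : IsoR p v Γ C C₁ := by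
  induction h with
  | refl C X y b => exact .refl _
  | step h h' ih =>
    obtain ⟨-, -, h3, h4⟩ := h.inv hb
    exact (h.isoR hP).trans (ih h3 h4)

theorem Chn.trans (h : Chn p v Γ C X y b C₁ X₁ y₁ b₁) (h' : Chn p v Γ C₁ X₁ y₁ b₁ C₂ X₂ y₂ b₂) :
    Chn p v Γ C X y b C₂ X₂ y₂ b₂ := by
  induction h with
  | refl C X y b => exact h'
  | step h _ ih => exact .step h (ih h')

end Pool.Agent.TWC.PW
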