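import Pool.Agent.Lib.TWC.PWa2
import Pool.Agent.Lib.TWC.PWb
import Pool.Agent.Lib.TWC.PWc
import Pool.Agent.Lib.TWC.PWd2
import Pool.Agent.Lib.TWC.PWe
import Pool.Agent.Lib.TWC.PWstp
import Pool.Agent.Lib.TWC.PFf
import Pool.Agent.Lib.TWC.NM

/-!
# TANK W, class C: rational letters over a tame base (row PW), the stage

* `PRT.ren`, `PRT.iso`, `PRT.tz`: the steps;
* `Stp`, `Chn`: the steps of the algorithm, and the finite chains;
* `stage`: either `X 0` is tight, or a finite chain of steps leads to coordinates without top letters.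
-/

set_option autoImplicit false
set_option linter.unusedSectionVars false

open Polynomial

namespace Pool.Agent.TWC.PW

open Pool.Agent.H15JM (RVal)
open Pool.Agent.D2 (Ctx0)
open Pool.Agent.D2P (clI mem_clI rootF mem_rootF)
open Pool.Agent.TWM
open Pool.Agent.TWS (VG)
open Pool.Agent.TWC.PF (Lm SW SA span_pow_pow)

universe u

variable {k Ω : Type u} [Field k] [Field Ω] [Algebra k Ω] {v : RVal Ω} {Γ : AddSubgroup ℝ}
  {p : ℕ} [hp : Fact p.Prime] [CharP k p] [CharP Ω p] [IsAlgClosed k] [IsAlgClosed Ω]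
  {C C' : IntermediateField k Ω} {X X' T : ℕ → Ω} {y z t f s g : Ω} {B : ℝ} {b b' e j n m : ℕ}

/-! ### Systems of roots -/

omit [CharP k p] [CharP Ω p] [IsAlgClosed k] [IsAlgClosed Ω] in
/-- The system of roots of `X` from a system of roots of `X (e + ·)`. -/
theorem RS.down (hr : ∀ n, X (n + 1) ^ p = X n) (hX : X 0 ≠ 0)
    (h : RS p v Γ (fun n => X (e + n)) m X') : RS p v Γ X m (fun n => X' n ^ p ^ e) where
  nd := h.nd
  root n := by
    rw [← pow_mul, mul_comm, pow_mul, h.root]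
  pow n := by
    rw [← pow_mul, mul_comm, pow_mul, h.pow, add_comm e n, root_pow_add hr n e]
  val := by
    have h1 : X' 0 ≠ 0 := RS.ne h (X := fun n => X (e + n)) (root_ne_zero hr hX _) 0
    have h2 := Γ.nsmul_mem h.val (p ^ e)
    rwa [nsmul_eq_mul, ← v.map_pow h1] at h2

omit [CharP k p] [CharP Ω p] [IsAlgClosed k] [IsAlgClosed Ω] in
theorem div_pow_mem (hdiv : ∀ g ∈ Γ, g / p ∈ Γ) {g : ℝ} (hg : g ∈ Γ) (e : ℕ) :
    g / (p : ℝ) ^ e ∈ Γ := by
  induction e with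
  | zero => rwa [pow_zero, div_one]
  | succ e ih =>
    rw [pow_succ, ← div_div]
    exact hdiv _ ih

/-! ### Isogenies -/

/-- The positions of an isogenous field. -/
theorem InST_isog (hr : ∀ n, X (n + 1) ^ p = X n) (hX : X 0 ≠ 0) (hCC : ∀ f ∈ C', f ^ p ^ e ∈ C)
    (h : InST p v Γ C' (fun n => X (e + n)) b n) : InST p v Γ C X b n := by
  obtain ⟨f, hf, h1⟩ := h
  refine ⟨f ^ p ^ e, hCC f hf, ?_⟩
  have h2 : f ^ p ^ e - X n ^ (b + 1) = (f - X (e + n) ^ (b + 1)) ^ p ^ e := by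
    rw [sub_pow_char_pow, ← pow_mul, mul_comm (b + 1), pow_mul, add_comm e n, root_pow_add hr n e]
  rw [h2]
  refine h1.pow_pow e fun s hs => ?_
  obtain ⟨s1, hs1, s2, hs2, rfl⟩ := Submodule.mem_sup.1 hs
  rw [add_pow_char_pow]
  refine Submodule.add_mem_sup (span_pow_pow e ?_ hs1) (span_pow_pow e ?_ hs2)
  · rintro _ ⟨m, X', n', i, hX', hn, hi, rfl⟩
    refine Submodule.subset_span ⟨m, _, n', i, hX'.down hr hX, hn, hi, ?_⟩
    rw [← pow_mul, ← pow_mul, mul_comm]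
  · rintro _ ⟨m, X', n', l, i, hX', hi, rfl⟩
    refine Submodule.subset_span ⟨m, _, n', l, i, hX'.down hr hX, hi, ?_⟩
    rw [← pow_mul, ← pow_mul, mul_comm]

/-- The renaming of the system. -/
theorem InST_ren (hX : X 0 ≠ 0) (h : RS p v Γ X m X') (hb : b' + 1 = m * (b + 1)) :
    InST p v Γ C X' b' n ↔ InST p v Γ C X b n := by
  have h1 : X' n ^ (b' + 1) = X n ^ (b + 1) := by rw [hb, pow_mul, h.pow]
  have h2 : ((b' : ℝ) + 1) = m * ((b : ℝ) + 1) := by exact_mod_cast hb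
  rw [InST, InST, h1, h2, ST_eq hX h, SAs_eq hX h]

/-- A top letter at the position `1`. -/
theorem InST_one (h0 : Ctx0 k v) (hr : ∀ n, X (n + 1) ^ p = X n) (hv : v (X 0) ∈ Γ) (hyC : y ∈ C)
    {q : Polynomial k} (hq : q.natDegree = b + 1)
    (hy : Lm v (ST k p v Γ X (b + 1) 2) (y - aeval (X 1) q)) : InST p v Γ C X b 1 := by
  set a : k := q.leadingCoeff with ha
  have ha0 : a ≠ 0 := by
    rw [ha, Ne, leadingCoeff_eq_zero]
    rintro rfl
    simp at hq
  refine ⟨algebraMap k Ω a⁻¹ * y, mul_mem (C.algebraMap_mem _) hyC, ?_⟩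
  have h1 : aeval (X 1) q = aeval (X 1) q.eraseLead + algebraMap k Ω a * X 1 ^ (b + 1) := by
    conv_lhs => rw [← eraseLead_add_C_mul_X_pow q]
    rw [map_add, map_mul, aeval_C, map_pow, aeval_X, hq]
  have h2 : algebraMap k Ω a⁻¹ * y - X 1 ^ (b + 1) = algebraMap k Ω a⁻¹ * (y - aeval (X 1) q) +
      algebraMap k Ω a⁻¹ * aeval (X 1) q.eraseLead := by
    have h3 : algebraMap k Ω a⁻¹ * algebraMap k Ω a = 1 := by
      rw [← map_mul, inv_mul_cancel₀ ha0, map_one]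
    have h4 : algebraMap k Ω a⁻¹ * (algebraMap k Ω a * X 1 ^ (b + 1)) = X 1 ^ (b + 1) := by
      rw [← mul_assoc, h3, one_mul]
    rw [h1, mul_sub, mul_add, h4]
    ring
  rw [h2]
  refine ((hy.smul h0 a⁻¹).mono le_sup_left).add (Lm.of_mem ((le_sup_right :
    SAs k p v Γ X (b + 1) ≤ _) ?_))
  rw [← Algebra.smul_def]
  refine Submodule.smul_mem _ _ (SA_le_SAs (b := b) (RS.refl hr hv) ?_ (PF.SW_le_SA (j := 0)
    (PF.aeval_mem_SW ?_ (Nat.zero_le _))))
  · rw [Nat.cast_one, one_mul]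
    exact lt_add_one _
  · have := eraseLead_natDegree_le q
    omega

/-! ### The data -/

theorem PRT.cld (hP : PRT p v Γ C X y B) : Cld v C := by
  rw [hP.eq]
  exact cld_cadj _ _ _

theorem PRT.WT_le (hP : PRT p v Γ C X y B) : WT k p v Γ (X 0) ≤ C := by
  rw [hP.eq]
  exact le_cadj _ _ _

theorem PRT.rs (hP : PRT p v Γ C X y B) : RS p v Γ X 1 X := RS.refl hP.root hP.val

theorem PRT.memX (hP : PRT p v Γ C X y B) : X 0 ∈ C := hP.WT_le hP.rs.mem

theorem PRT.memY (hP : PRT p v Γ C X y B) : y ∈ C := by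
  rw [hP.eq]
  exact self_mem_cadj _ _ _

/-- `y` may be replaced by `y - a`, `a` in the tame base. -/
theorem PRT.sub {B' : ℝ} (hP : PRT p v Γ C X y B) (hg : g ∈ WT k p v Γ (X 0))
    (hl : Lm v (ST k p v Γ X B' 1) (y - g)) : PRT p v Γ C X (y - g) B' where
  root := hP.root
  ne := hP.ne
  neg := hP.neg
  val := hP.val
  div := hP.div
  tl := hP.tl.sub_mem (EW.le hg)
  eq := by
    rw [cadj_sub_mem hg]
    exact hP.eq
  ltr := hl

theorem PRT.congr {B' : ℝ} (hP : PRT p v Γ C X y B) (hl : Lm v (ST k p v Γ X B' 1) y) :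
    PRT p v Γ C X y B' where
  root := hP.root
  ne := hP.ne
  neg := hP.neg
  val := hP.val
  div := hP.div
  tl := hP.tl
  eq := hP.eq
  ltr := hl

/-- A tame system of roots gives the same perfect closure. -/
theorem EW_ren (hr : ∀ n, X (n + 1) ^ p = X n) (hX : X 0 ≠ 0) (hv : v (X 0) ∈ Γ)
    (h : RS p v Γ X m X') :
    EW v (WT k p v Γ (X' 0)) X' = EW v (WT k p v Γ (X 0)) X := by
  rw [← WT_eq (k := k) hX h]
  refine le_antisymm (EW_le EW.cld EW.le fun n => ?_) (EW_le EW.cld EW.le fun n => ?_)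
  · refine ST_le_EW (j := n) (B := 1) hr hX hv (Submodule.subset_span
      ⟨m, X', n, 1, h, le_rfl, ?_, (pow_one _).symm⟩)
    rw [mul_one, Nat.cast_one]
    exact_mod_cast Nat.one_le_iff_ne_zero.2 h.n_ne
  · rw [← h.pow n]
    exact pow_mem (EW.mem n) m

/-- **Renaming.** -/
theorem PRT.ren (hP : PRT p v Γ C X y B) (h : RS p v Γ X m X') : PRT p v Γ C X' y (m * B) where
  root := h.root
  ne := h.ne hP.ne 0
  neg := by
    have h1 := (h.val_mul hP.ne 0).symm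
    have h2 := hP.neg
    rw [h1] at h2
    by_contra h3
    exact absurd h2 (not_lt.2 (mul_nonneg (Nat.cast_nonneg m) (not_lt.1 h3)))
  val := h.val
  div := hP.div
  tl := by
    rw [EW_ren hP.root hP.ne hP.val h]
    exact hP.tl
  eq := by
    rw [← WT_eq (k := k) hP.ne h]
    exact hP.eq
  ltr := by
    rw [← ST_eq (k := k) hP.ne h]
    exact hP.ltr

/-- The perfect closure for `X (e + ·)`. -/
theorem EW_iso (hr : ∀ n, X (n + 1) ^ p = X n) (hX : X 0 ≠ 0) (hv : v (X 0) ∈ Γ)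
    (hdiv : ∀ g ∈ Γ, g / p ∈ Γ) (e : ℕ) :
    EW v (WT k p v Γ (X e)) (fun n => X (e + n)) = EW v (WT k p v Γ (X 0)) X := by
  have hroot : ∀ (e : ℕ) (a : Ω), a ^ p ^ e ∈ EW v (WT k p v Γ (X 0)) X →
      a ∈ EW v (WT k p v Γ (X 0)) X := by
    intro e
    induction e with
    | zero => exact fun a ha => by rwa [pow_zero, pow_one] at ha
    | succ e ih =>
      intro a ha
      rw [pow_succ, pow_mul] at ha
      obtain ⟨c, hc, h1⟩ := EWT_perf (k := k) hr hX hv hdiv _ ha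
      have h2 : c = a ^ p ^ e := frobenius_inj Ω p h1
      exact ih a (h2 ▸ hc)
  refine le_antisymm (EW_le EW.cld (fun a ha => ?_) fun n => EW.mem (e + n))
    (EW_le EW.cld ((WT_mono hr hX hdiv (Nat.zero_le e)).trans EW.le) fun n => ?_)
  · exact hroot e a (EW.le (pow_mem_WT hr hX hv ha))
  · rw [← root_pow_add hr n e, add_comm n e]
    exact pow_mem (EW.mem (u := fun n => X (e + n)) n) _

/-- **The field `C(X e)`.** -/
theorem PRT.iso {B' : ℝ} (hP : PRT p v Γ C X y B) (hg : g ∈ WT k p v Γ (X e))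
    (hl : Lm v (ST k p v Γ (fun n => X (e + n)) B' 1) (y - g))
    (hC' : C' = cadj v (WT k p v Γ (X e)) (y - g)) :
    C ≤ C' ∧ (∀ f ∈ C', f ^ p ^ e ∈ C) ∧ PRT p v Γ C' (fun n => X (e + n)) (y - g) B' := by
  have hr := hP.root
  have hCc' : Cld v C' := by
    rw [hC']
    exact cld_cadj _ _ _
  have hW' : WT k p v Γ (X e) ≤ C' := by
    rw [hC']
    exact le_cadj _ _ _
  have hyg : y - g ∈ C' := by
    rw [hC']
    exact self_mem_cadj _ _ _
  refine ⟨?_, ?_, ⟨fun n => hr (e + n), root_ne_zero hr hP.ne _, ?_, ?_, hP.div, ?_, hC', hl⟩⟩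
  · rw [hP.eq]
    refine cadj_le hCc' ((WT_mono hr hP.ne hP.div (Nat.zero_le e)).trans hW') ?_
    have := add_mem hyg (hW' hg)
    rwa [sub_add_cancel] at this
  · have h1 : WT k p v Γ (X e) ≤ rootF p e C := fun a ha =>
      mem_rootF.2 (hP.WT_le (pow_mem_WT hr hP.ne hP.val ha))
    have h2 : C' ≤ rootF p e C := by
      rw [hC']
      exact cadj_le (cld_rootFn p e hP.cld) h1 (sub_mem (mem_rootF.2 (pow_mem hP.memY _))
        (h1 hg))
    exact fun f hf => mem_rootF.1 (h2 hf)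
  · rw [add_zero, val_rt hr hP.ne]
    exact div_neg_of_neg_of_pos hP.neg (pow_pos (by exact_mod_cast hp.out.pos) _)
  · rw [add_zero, val_rt hr hP.ne]
    exact div_pow_mem hP.div hP.val e
  · rw [add_zero, EW_iso hr hP.ne hP.val hP.div e]
    refine hP.tl.sub_mem ?_
    rw [← EW_iso hr hP.ne hP.val hP.div e]
    exact EW.le hg

/-- **The change of coordinates.** -/
theorem PRT.tz (h0 : Ctx0 k v) (hc : CompleteV v) (hP : PRT p v Γ C X y (b + 1))
    (hb : ¬ p ∣ b + 1) {q : Polynomial k} (hq : q.natDegree = b + 1)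
    (hy : Lm v (ST k p v Γ X (b + 1) 2) (y - aeval (X 1) q)) :
    ∃ (T : ℕ → Ω) (m : ℕ) (T' : ℕ → Ω) (q₀ : Polynomial k), (∀ n, T (n + 1) ^ p = T n) ∧ T 0 ∈ C ∧
      aeval (T 0) q = y ∧ v.Ge ((b + 1 : ℕ) * v (X 2) - b * v (X 1)) (T 0 - X 1) ∧
      RS p v Γ T m T' ∧ q₀.natDegree ≤ m * (b + 1) ∧
      PRT p v Γ C T (y ^ p - aeval (X 0) (q.map (frobenius k p)) - aeval (T' 0) q₀) (b + 1) ∧
      ∀ n, InST p v Γ C T b n → InST p v Γ C X b (n + 1) := by
  have hr := hP.root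
  have hB0 : (0 : ℝ) < (b : ℝ) + 1 := by positivity
  have hp0 : (0 : ℝ) < p := by exact_mod_cast hp.out.pos
  have hp1 : (1 : ℝ) < p := by exact_mod_cast hp.out.one_lt
  have hgy : v.Ge ((b + 1 : ℕ) * v (X 2)) (y - aeval (X 1) q) := by
    have := Lm_ST_ge h0 hr hP.ne hP.neg hB0.le hy
    exact_mod_cast this
  obtain ⟨t, htC, ht, ht1⟩ := PF.exists_t h0 hc hP.cld hr hP.ne hP.neg hP.memX hP.memY hq hb hgy
  obtain ⟨T, hT0, hT⟩ := exists_rts p t
  subst hT0
  -- the value of `t`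
  have hX1 : X 1 ≠ 0 := root_ne_zero hr hP.ne 1
  have hX2 : X 2 ≠ 0 := root_ne_zero hr hP.ne 2
  have hv1 : v (X 0) = p * v (X 1) := by rw [← hr 0, v.map_pow hX1]
  have hv2 : v (X 1) = p * v (X 2) := by rw [← hr 1, v.map_pow hX2]
  have hneg := hP.neg
  have hn1 : v (X 1) < 0 := by
    by_contra h
    rw [hv1] at hneg
    exact absurd hneg (not_lt.2 (mul_nonneg hp0.le (not_lt.1 h)))
  have hn2 : v (X 2) < 0 := by
    by_contra h
    rw [hv2] at hn1
    exact absurd hn1 (not_lt.2 (mul_nonneg hp0.le (not_lt.1 h)))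
  have hlt : v (X 1) < (b + 1 : ℕ) * v (X 2) - b * v (X 1) := by
    rw [hv2]
    push_cast
    nlinarith [mul_pos (sub_pos.2 hp1) (neg_pos.2 hn2), mul_nonneg (Nat.cast_nonneg (α := ℝ) b)
      (mul_pos (sub_pos.2 hp1) (neg_pos.2 hn2)).le]
  have hgt : Gt v (v (X 1)) (X 1 - T 0) := by
    rw [← neg_sub]
    exact (Gt.of_ge ht1 hlt).neg
  obtain ⟨hT00, hTv⟩ := Gt.val_eq hX1 hgt
  have hTneg : v (T 0) < 0 := by rw [hTv]; exact hn1
  have hTΓ : v (T 0) ∈ Γ := by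
    have h1 := hP.div _ hP.val
    rw [hv1, mul_div_cancel_left₀ _ hp0.ne'] at h1
    rwa [hTv]
  have hz := z_lettersT h0 hr hP.ne hP.neg hP.val hP.div hT hq hb ht ht1 hy
  have htl := TL_zT h0 hc hP hT hq hb ht ht1 hz
  have hgen := gen_tzT h0 hc hr hP.ne hP.neg hP.val hP.div hP.eq hq hb htC ht ht1
  obtain ⟨m, T', q₀, hT', hq0, hl⟩ := Lm_ST_split h0 hT hT00 hTneg hTΓ hB0 hz
  have hmem : aeval (T' 0) q₀ ∈ WT k p v Γ (T 0) := PF.aeval_mem_field hT'.mem
  refine ⟨T, m, T', q₀, hT, htC, ht, ht1, hT', by exact_mod_cast hq0, ⟨hT, hT00, hTneg, hTΓ, hP.div,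
    htl.sub_mem (EW.le hmem), ?_, hl⟩, fun n h =>
    InST_T h0 hr hP.ne hP.neg hP.val hP.div hT hq hb ht ht1 hy h⟩
  rw [cadj_sub_mem hmem]
  exact hgen

/-- **All the positions**: `X 0` is tight. -/
theorem tgt_of_allT (h0 : Ctx0 k v) (hP : PRT p v Γ C X y (b + 1)) (hb : ¬ p ∣ b + 1)
    (h : ∀ n, 1 ≤ n → InST p v Γ C X b n) : Tgt p v C X (-(b * v (X 0))) where
  cld := hP.cld
  mem := hP.memX
  root := hP.root
  dst n := by
    have h1 : -(b * v (X 0)) / (p : ℝ) ^ (n + 1) = -(b * v (X (n + 1))) := by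
      rw [val_rt hP.root hP.ne (n + 1)]
      ring
    rw [h1]
    exact ⟨far_XT h0 hP n, lim_of_allT h0 hP.cld hP.root hP.ne hP.neg hP.val hP.div hP.WT_le hb h
      (n + 1)⟩

/-! ### The algorithm -/

/-- **First top letter at `e + 1`**: the field `C(X e)`. -/
theorem step_top (hP : PRT p v Γ C X y (b + 1)) {q : Polynomial k} (hX' : RS p v Γ X m X')
    (hg : g ∈ WT k p v Γ (X e)) (hg' : g ∈ STs k p v Γ X (b + 1) 1)
    (hq : q.natDegree = m * (b + 1))
    (hy : Lm v (ST k p v Γ X (b + 1) (e + 2)) (y - g - aeval (X' (e + 1)) q)) :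
    ∃ (C' : IntermediateField k Ω) (b' : ℕ), b' + 1 = m * (b + 1) ∧
      Chn p v Γ C X y b C' (fun n => X' (e + n)) (y - g) b' ∧
      Lm v (ST k p v Γ (fun n => X' (e + n)) (b' + 1) 2)
        (y - g - aeval ((fun n => X' (e + n)) 1) q) ∧
      ∀ n, InST p v Γ C' (fun n => X' (e + n)) b' n → InST p v Γ C X b n := by
  have hm : 0 < m := Nat.pos_of_ne_zero hX'.n_ne
  obtain ⟨b', hb'⟩ : ∃ b', b' + 1 = m * (b + 1) :=
    ⟨m * (b + 1) - 1, Nat.sub_add_cancel (Nat.mul_pos hm (Nat.succ_pos b))⟩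
  have hb2 : ((b' : ℝ) + 1) = m * ((b : ℝ) + 1) := by exact_mod_cast hb'
  have hP1 : PRT p v Γ C X' y (b' + 1) := by
    rw [hb2]
    exact hP.ren hX'
  have hXe : WT k p v Γ (X e) = WT k p v Γ (X' e) := by
    have h1 := WT_eq (k := k) (X := fun n => X (e + n)) (root_ne_zero hP.root hP.ne _)
      (hX'.shift hP.ne hP.div e)
    simpa using h1
  have hg1 : g ∈ WT k p v Γ (X' e) := hXe ▸ hg
  have hg2 : g ∈ STs k p v Γ X' (b' + 1) 1 := by
    rw [hb2, ← STs_eq (k := k) hP.ne hX']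
    exact hg'
  have hsh : ST k p v Γ (fun n => X' (e + n)) (b' + 1) 2 = ST k p v Γ X (b + 1) (e + 2) := by
    rw [ST_shift (k := k) hP1.root hP1.ne hP.div e, hb2, ← ST_eq (k := k) hP.ne hX']
  have hl2 : Lm v (ST k p v Γ (fun n => X' (e + n)) (b' + 1) 2)
      (y - g - aeval ((fun n => X' (e + n)) 1) q) := by
    rw [hsh]
    exact hy
  have hl1 : Lm v (ST k p v Γ (fun n => X' (e + n)) (b' + 1) 1) (y - g) := by
    have h1 : y - g = (y - g - aeval ((fun n => X' (e + n)) 1) q) +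
        aeval ((fun n => X' (e + n)) 1) q := by ring
    rw [h1]
    refine (hl2.mono (ST_mono le_rfl (by norm_num))).add (Lm.of_mem ?_)
    refine SW_le_ST (b := b' + 1) (RS.refl (fun n => hP1.root (e + n)) ?_) ?_
      (PF.aeval_mem_SW (n := 1) (by rw [hq, hb']) le_rfl)
    · rw [add_zero, val_rt hP1.root hP1.ne e]
      exact div_pow_mem hP.div hP1.val e
    · push_cast
      linarith
  obtain ⟨h1, h2, h3⟩ := hP1.iso hg1 hl1 rfl
  refine ⟨_, b', hb', .step (.ren hX' hb' hP1) (.step (.iso e g hg1 hg2 h1 h2 h3) (.refl _ _ _ _)),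
    hl2, fun n hn => ?_⟩
  exact (InST_ren hP.ne hX' hb').1 (InST_isog hP1.root hP1.ne h2 hn)

/-- **The induction on the number of positions.** -/
theorem stage_aux (h0 : Ctx0 k v) (hc : CompleteV v) (N : ℕ) :
    ∀ (C : IntermediateField k Ω) (X : ℕ → Ω) (y : Ω) (b : ℕ), PRT p v Γ C X y (b + 1) →
      ¬ p ∣ b + 1 → ¬ InST p v Γ C X b (N + 1) →
      ∃ (C' : IntermediateField k Ω) (X' : ℕ → Ω) (y' : Ω) (b' : ℕ),
        Chn p v Γ C X y b C' X' y' b' ∧ Lm v (STs k p v Γ X' (b' + 1) 1) y' := by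
  induction N with
  | zero =>
    intro C X y b hP hb hN
    rcases first_topT h0 hP.root hP.ne hP.neg hP.val hP.div hP.ltr with
      h1 | ⟨e, m, X', g, q, hX', hg, hg', hq, hy⟩
    · exact ⟨C, X, y, b, .refl _ _ _ _, h1⟩
    · obtain ⟨C', b', hb', h1, h2, h3⟩ := step_top hP hX' hg hg' hq hy
      obtain ⟨-, -, h4, -⟩ := h1.inv hP hb
      exact absurd (h3 _ (InST_one h0 h4.root h4.val h4.memY (hq.trans hb'.symm) h2)) hN
  | succ N ihN =>
    intro C X y b hP hb hN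
    rcases first_topT h0 hP.root hP.ne hP.neg hP.val hP.div hP.ltr with
      h1 | ⟨e, m, X', g, q, hX', hg, hg', hq, hy⟩
    · exact ⟨C, X, y, b, .refl _ _ _ _, h1⟩
    · obtain ⟨C', b', hb', h1, h2, h3⟩ := step_top hP hX' hg hg' hq hy
      obtain ⟨-, -, h4, h5⟩ := h1.inv hP hb
      have hq' := hq.trans hb'.symm
      obtain ⟨T, m', T', q₀, hT, hTC, ht, ht1, hT', hq₀, hP', h6⟩ := h4.tz h0 hc h5 hq' h2
      obtain ⟨C₂, X₂, y₂, b₂, h7, h8⟩ := ihN _ _ _ _ hP' h5 fun h9 => hN (h3 _ (h6 _ h9))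
      exact ⟨C₂, X₂, y₂, b₂, h1.trans (.step (.tz q q₀ hq' hTC hT ht ht1 h2 hT' hq₀ hP') h7), h8⟩

/-- **The stage.** Either `X 0` is tight, or a finite chain of steps leads to coordinates without
top letters. -/
theorem stage (h0 : Ctx0 k v) (hc : CompleteV v) (hP : PRT p v Γ C X y (b + 1))
    (hb : ¬ p ∣ b + 1) : Tgt p v C X (-(b * v (X 0))) ∨
      ∃ (C' : IntermediateField k Ω) (X' : ℕ → Ω) (y' : Ω) (b' : ℕ),
        Chn p v Γ C X y b C' X' y' b' ∧ C ≤ C' ∧ (∃ e : ℕ, ∀ f ∈ C', f ^ p ^ e ∈ C) ∧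
        PRT p v Γ C' X' y' (b' + 1) ∧ ¬ p ∣ b' + 1 ∧
        Lm v (STs k p v Γ X' (b' + 1) 1) y' := by
  by_cases hall : ∀ n, 1 ≤ n → InST p v Γ C X b n
  · exact .inl (tgt_of_allT h0 hP hb hall)
  · push Not at hall
    obtain ⟨n, hn, h1⟩ := hall
    obtain ⟨N, rfl⟩ := Nat.exists_eq_add_of_le' hn
    obtain ⟨C', X', y', b', h2, h3⟩ := stage_aux h0 hc N C X y b hP hb h1
    obtain ⟨h4, h5, h6, h7⟩ := h2.inv hP hb
    exact .inr ⟨C', X', y', b', h2, h4, h5, h6, h7, h3⟩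

end Pool.Agent.TWC.PW
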