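import Pool.Agent.Lib.TWC.Pair3g

/-!
# TANK W, class C: tight pairs over a field `W`, positive slack

`W ≤ C` closed, `x 0 ∈ W`, `x` tight in `C`, of level `r`, the roots of order `p` of the elements
of `W` are polynomials in `x 1` over `W`, the jets of order `F / p ^ n` on `W(x n)` have norm at
most `F rW / p ^ n`, `rW < r`.

* `lim_poly`: the elements of `W(x n)` of value `≥ g` are limits of `C` up to `g + (r - rW) / p ^ n`;
* `exists_pairW`: if `y ∈ C` is a limit of `W` up to `s`, of transcendental type over the closure of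
  `W(x 0, x 1, ..)`, then `y - n`, `n ∈ W`, is the second element of a tight pair `(x, w)` of `C`, of
  levels `(r, s)`, and `C = W<w>` if `C E = E<y>`;
* `exists_pairW'`: the case `C = W<y>`, `y` of transcendental type over `W`.
-/

set_option autoImplicit false

open Polynomial

namespace Pool.Agent.TWC

open Pool.Agent.H15JM (RVal)
open Pool.Agent.LU1 (adj)
open Pool.Agent.D2 (Ctx0)
open Pool.Agent.D2P (clI mem_clI)
open Pool.Agent.TWM Pool.Agent.TWM.C

universe u

variable {k Ω : Type u} [Field k] [Field Ω] [Algebra k Ω] {v : RVal Ω}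
  {C₀ W : IntermediateField k Ω} {p : ℕ} [hp : Fact p.Prime] [CharP Ω p]
  {x : ℕ → Ω} {r rW s : ℝ}

/-- The roots of order `p ^ n` of the elements of `W`. -/
theorem rts_poly (hr : ∀ n, x (n + 1) ^ p = x n)
    (hW : ∀ a ∈ W, ∃ Q ∈ PI W, (Q.eval (x 1)) ^ p = a) (n : ℕ) :
    ∀ a ∈ W, ∃ Q ∈ PI W, (Q.eval (x n)) ^ p ^ n = a := by
  induction n with
  | zero =>
    intro a ha
    exact ⟨C a, C_mem_PI ha, by rw [eval_C, pow_zero, pow_one]⟩
  | succ n ih =>
    intro a ha
    obtain ⟨Q, hQ, h1⟩ := hW a ha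
    choose R hR hR' using fun i => ih (Q.coeff i) (hQ i)
    refine ⟨∑ i ∈ Finset.range (Q.natDegree + 1), expand Ω p (R i) * X ^ i, ?_, ?_⟩
    · exact sum_mem fun i _ => mul_mem (expand_mem_PI hp.out.pos (hR i)) (pow_mem X_mem_PI _)
    · have h2 : x (n + 1) ^ p ^ n = x 1 := by
        have := root_pow_add hr 1 n
        rwa [add_comm] at this
      rw [pow_succ, pow_mul, eval_finsetSum, sum_pow_char_pow]
      have h3 : ∑ i ∈ Finset.range (Q.natDegree + 1),
          eval (x (n + 1)) (expand Ω p (R i) * X ^ i) ^ p ^ n = Q.eval (x 1) := by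
        rw [eval_eq_sum_range]
        refine Finset.sum_congr rfl fun i _ => ?_
        rw [eval_mul, expand_eval, hr, eval_pow, eval_X, mul_pow, hR', ← pow_mul, mul_comm i,
          pow_mul, h2]
      rw [h3, h1]

/-- **Elements of `W(x n)` are near `C`.** -/
theorem lim_poly (hT : Tgt p v C₀ x r) (hWC : W ≤ C₀) (hx0 : x 0 ∈ W)
    (hN : NBX p v W x fun n F => F * rW / p ^ n) (hle : rW ≤ r) {Q : Polynomial Ω}
    (hQ : Q ∈ PI W) (n : ℕ) {g : ℝ} (hg : v.Ge g (Q.eval (x n))) :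
    Lim v C₀ (g + (r - rW) / p ^ n) (Q.eval (x n)) := by
  have hp0 : (0 : ℝ) < p := by exact_mod_cast hp.out.pos
  have hpn : (0 : ℝ) < (p : ℝ) ^ n := pow_pos hp0 n
  obtain ⟨Q', hQ', hd, he⟩ := exists_red hT.root hx0 n hQ
  rw [← he] at hg ⊢
  clear he hQ Q
  intro ε hε
  obtain ⟨ξ, hξ, h1⟩ := hT.lim_all n (ε / p ^ n) (by positivity)
  refine ⟨Q'.eval ξ, TWM.eval_mem (PI_mono hWC hQ') hξ, ?_⟩
  obtain ⟨N, hN1⟩ : ∃ N, p ^ n = N + 1 := ⟨p ^ n - 1, by
    have := pow_pos hp.out.pos n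
    omega⟩
  have e1 : Q'.eval ξ = ∑ F ∈ Finset.range (p ^ n),
      (taylor (x n) Q').coeff F * (ξ - x n) ^ F := by
    have e2 : (taylor (x n) Q').eval (ξ - x n) = Q'.eval ξ := by
      rw [taylor_eval, sub_add_cancel]
    rw [← e2, eval_eq_sum_range' (by rwa [natDegree_taylor])]
  rw [e1, hN1, Finset.sum_range_succ', pow_zero, mul_one, taylor_coeff_zero]
  have e3 : Q'.eval (x n) - (∑ F ∈ Finset.range N,
      (taylor (x n) Q').coeff (F + 1) * (ξ - x n) ^ (F + 1) + Q'.eval (x n)) =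
      -∑ F ∈ Finset.range N, (taylor (x n) Q').coeff (F + 1) * (ξ - x n) ^ (F + 1) := by
    ring
  rw [e3]
  refine RVal.Ge.neg (RVal.Ge.sum _ _ fun F hF => ?_)
  have hF' : F + 1 < p ^ n := by
    have := Finset.mem_range.1 hF
    omega
  have h2 := hN.nb n Q' hQ' (F + 1) hF' g hg
  have h3 : v.Ge (r / p ^ n - ε / p ^ n) (ξ - x n) := by
    have := h1.neg
    rwa [neg_sub] at this
  refine (h2.mul (ge_pow h3 (F + 1))).mono ?_
  have h4 : ((F + 1 : ℕ) : ℝ) / p ^ n ≤ 1 := by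
    rw [div_le_one hpn]
    exact_mod_cast hF'.le
  have h5 : (1 : ℝ) ≤ ((F + 1 : ℕ) : ℝ) := by
    push_cast
    linarith [(Nat.cast_nonneg F : (0 : ℝ) ≤ F)]
  have e4 : g - ((F + 1 : ℕ) : ℝ) * rW / p ^ n + ((F + 1 : ℕ) : ℝ) * (r / p ^ n - ε / p ^ n) =
      g + ((F + 1 : ℕ) : ℝ) * ((r - rW) / p ^ n) - ε * (((F + 1 : ℕ) : ℝ) / p ^ n) := by
    ring
  rw [e4]
  have h6 : 0 ≤ (r - rW) / p ^ n := div_nonneg (sub_nonneg.2 hle) hpn.le
  nlinarith [mul_nonneg (sub_nonneg.2 h5) h6, mul_nonneg hε.le (sub_nonneg.2 h4)]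

/-- **The tight pair over `W`, positive slack.** -/
theorem exists_pairW [CharP k p] [IsAlgClosed Ω] (h0 : Ctx0 k v) (hc : CompleteV v)
    (hT : Tgt p v C₀ x r) (hx : x 0 ≠ 0) (hvr : v (x 0) < r) (hWC : W ≤ C₀) (hx0 : x 0 ∈ W)
    (hW : ∀ a ∈ W, ∃ Q ∈ PI W, (Q.eval (x 1)) ^ p = a)
    (hN : NBX p v W x fun n F => F * rW / p ^ n) (hlt : rW < r) {y : Ω} (hy : y ∈ C₀)
    (hlim : Lim v W s y) (hTL : TL v (EW v W x) y s)
    (hE : EW v C₀ x = cadj v (EW v W x) y) :
    ∃ u : ℕ → Ω, y - u 0 ∈ W ∧ TP p v C₀ x u r s ∧ TL v (EW v W x) (u 0) s ∧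
      EW v C₀ x = cadj v (EW v W x) (u 0) ∧ C₀ = cadj v W (u 0) := by
  have hp0 : (0 : ℝ) < p := by exact_mod_cast hp.out.pos
  obtain ⟨n₀, hn₀, h1⟩ := hlim (r - rW) (by linarith)
  obtain ⟨u, hu0, hu⟩ := exists_rts p (y - n₀)
  have hn₀E : n₀ ∈ EW v W x := EW.le hn₀
  have hu0C : u 0 ∈ C₀ := by
    rw [hu0]
    exact sub_mem hy (hWC hn₀)
  have hTL' : TL v (EW v W x) (u 0) s := by
    rw [hu0]
    exact hTL.sub_mem hn₀E
  have hE' : EW v C₀ x = cadj v (EW v W x) (u 0) := by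
    rw [hE, hu0, cadj_sub_mem hn₀E]
  have hTP : TP p v C₀ x u r s :=
    { tgt := hT
      mem := hu0C
      root := hu
      far := by
        rintro ⟨a, ha, h2⟩
        rw [hE'] at ha
        refine not_root_ge hTL' ha ?_
        have e : a ^ p - u 0 = -(u 1 - a) ^ p := by
          have h3 := hu 0
          rw [zero_add] at h3
          rw [sub_pow_char, h3]
          ring
        rw [e]
        refine ((ge_pow h2.ge p).mono (le_of_eq ?_)).neg
        rw [mul_div_cancel₀ _ hp0.ne']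
      lim := fun n ε hε => by
        have hpn : (0 : ℝ) < (p : ℝ) ^ n := pow_pos hp0 n
        obtain ⟨δ, hδ, hδ1, hδ2⟩ : ∃ δ : ℝ, 0 < δ ∧ δ ≤ ε ∧ δ ≤ r - rW :=
          ⟨min ε (r - rW), lt_min hε (by linarith), min_le_left _ _, min_le_right _ _⟩
        obtain ⟨b, hb, h2⟩ := hlim δ hδ
        have hbn : b - n₀ ∈ W := sub_mem hb hn₀
        have h3 : v.Ge (s - δ) (u 0 - (b - n₀)) := by
          rw [hu0]
          have e : y - n₀ - (b - n₀) = y - b := by ring
          rwa [e]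
        have h4 : v.Ge (s - (r - rW)) (b - n₀) := by
          have e : b - n₀ = (y - n₀) - (y - b) := by ring
          rw [e]
          exact h1.sub (h2.mono (by linarith))
        obtain ⟨Q, hQ, h5⟩ := rts_poly hT.root hW n (b - n₀) hbn
        have hun : u n ^ p ^ n = u 0 := by
          have := root_pow_add hu 0 n
          rwa [zero_add] at this
        have h6 : v.Ge ((s - (r - rW)) / p ^ n) (Q.eval (x n)) := by
          refine (ge_pow_iff (v := v) (pow_pos hp.out.pos n)).1 ?_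
          rw [h5]
          push_cast
          rw [mul_div_cancel₀ _ hpn.ne']
          exact h4
        have h7 : v.Ge ((s - δ) / p ^ n) (u n - Q.eval (x n)) := by
          refine (ge_pow_iff (v := v) (pow_pos hp.out.pos n)).1 ?_
          rw [sub_pow_char_pow, hun, h5]
          push_cast
          rw [mul_div_cancel₀ _ hpn.ne']
          exact h3
        obtain ⟨a, ha, h8⟩ := lim_poly hT hWC hx0 hN hlt.le hQ n h6 ε hε
        refine ⟨a, ha, ?_⟩
        have e : u n - a = (u n - Q.eval (x n)) + (Q.eval (x n) - a) := by ring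
        rw [e]
        refine (h7.mono ?_).add (h8.mono (le_of_eq ?_))
        · rw [sub_div]
          have h9 : δ / p ^ n ≤ ε := by
            refine (div_le_self hδ.le ?_).trans hδ1
            exact one_le_pow₀ (by exact_mod_cast hp.out.one_lt.le)
          linarith
        · field_simp
          ring }
  refine ⟨u, ?_, hTP, hTL', hE', ?_⟩
  · rw [hu0, sub_sub_cancel]
    exact hn₀
  · refine hT.eq_of_ew h0 hc hx hvr (cld_cadj v _ _)
      (TWM.cadj_le hT.cld hWC hu0C) (le_cadj v _ _ hx0) ?_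
    refine (EW.le : C₀ ≤ EW v C₀ x).trans ?_
    rw [hE', EW.cadj]

/-- **The tight pair over `W`**, `C = W<y>`, `y` honest over `W`. -/
theorem exists_pairW' [CharP k p] [IsAlgClosed Ω] (h0 : Ctx0 k v) (hc : CompleteV v) {y : Ω}
    (hT : Tgt p v (cadj v W y) x r) (hx : x 0 ≠ 0) (hvr : v (x 0) < r) (hx0 : x 0 ∈ W)
    (hW : ∀ a ∈ W, ∃ Q ∈ PI W, (Q.eval (x 1)) ^ p = a)
    (hN : NBX p v W x fun n F => F * rW / p ^ n) (hlt : rW < r) (hTL : TL v W y s) :
    ∃ u : ℕ → Ω, y - u 0 ∈ W ∧ TP p v (cadj v W y) x u r s ∧ TL v (EW v W x) (u 0) s ∧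
      EW v (cadj v W y) x = cadj v (EW v W x) (u 0) ∧ cadj v W y = cadj v W (u 0) :=
  exists_pairW h0 hc hT hx hvr (le_cadj v W y) hx0 hW hN hlt (self_mem_cadj v W y) hTL.lim
    (TL.base hTL EW.le (EW.le_algc hT.root hx0)) (EW.cadj W x y)

end Pool.Agent.TWC
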