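import Pool.Agent.Lib.TWC.PWu
import Pool.Agent.Lib.TWC.PWd2
import Pool.Agent.Lib.TWC.TPb
import Pool.Agent.Lib.TWTR.Boot3
import Pool.Agent.Lib.TWTR.TameL

/-!
# TANK W, class C: rational letters over a tame base (row PW), the tame base `WT(X 0)`

* `rootF_WT`: the roots of the elements of `WT(X 0)` of order `p ^ e` are `WT(X e)`;
* `WT_near`: the elements of `WT(X 0)` are polynomials in a tame root, modulo elements of
  value `≥ 0`;
* `not_vg_WT`, `gen_WT`, `lt_WT`: `X` is a letter of `WT(X 0)`;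
* `far_XB`: `X (n + 1)` is at distance `≤ - (B - 1) v (X (n + 1))` of `C`, `B` real.
-/

set_option autoImplicit false
set_option linter.unusedSectionVars false

open Polynomial

namespace Pool.Agent.TWC.PW

open Pool.Agent.H15JM (RVal)
open Pool.Agent.LU1 (VPos adj)
open Pool.Agent.D2 (Ctx0)
open Pool.Agent.D2P (clI mem_clI rootF mem_rootF)
open Pool.Agent.TWM
open Pool.Agent.TWS (VG)
open Pool.Agent.TWC.PF (Lm SW SA bot_jet bot_lead evj evj_eval evj_swap map_eval_eq_swap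
  exists_frac StrE_const_mul EW_inv perf_adj deriv_val)

universe u

variable {k Ω : Type u} [Field k] [Field Ω] [Algebra k Ω] {v : RVal Ω} {Γ : AddSubgroup ℝ}
  {p : ℕ} [hp : Fact p.Prime] [CharP k p] [CharP Ω p] [IsAlgClosed k] [IsAlgClosed Ω]
  {C : IntermediateField k Ω} {X X' : ℕ → Ω} {y a : Ω} {B : ℝ} {e j n m : ℕ}

/-- The `p`-th roots of the elements of `WT(X 0)`. -/
theorem root1_mem_WT (hr : ∀ n, X (n + 1) ^ p = X n) (hX : X 0 ≠ 0) (hdiv : ∀ g ∈ Γ, g / p ∈ Γ)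
    (ha : a ^ p ∈ WT k p v Γ (X 0)) : a ∈ WT k p v Γ (X 1) := by
  have hp0 : (0 : ℝ) < p := by exact_mod_cast hp.out.pos
  have h1 : ∀ b ∈ IntermediateField.adjoin k {f | ∃ m : ℕ, ¬ p ∣ m ∧ f ^ m = X 0 ∧ v f ∈ Γ},
      ∃ c ∈ WT k p v Γ (X 1), c ^ p = b := by
    intro b hb
    induction hb using IntermediateField.adjoin_induction with
    | mem f hf =>
      obtain ⟨m, hm, h1, h2⟩ := hf
      obtain ⟨X₁, c, hX₁, rfl⟩ := exists_RS (k := k) hr hX hm h1 h2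
      obtain ⟨d, hd⟩ := IsAlgClosed.exists_pow_nat_eq c hp.out.pos
      refine ⟨algebraMap k Ω d * X₁ 1, mul_mem (IntermediateField.algebraMap_mem _ _)
        (mem_WT hX₁.nd (hX₁.pow 1) (hX₁.val_mem hX hdiv 1)), ?_⟩
      rw [mul_pow, ← map_pow, hd, hX₁.root 0]
    | algebraMap c =>
      obtain ⟨d, hd⟩ := IsAlgClosed.exists_pow_nat_eq c hp.out.pos
      exact ⟨algebraMap k Ω d, IntermediateField.algebraMap_mem _ _, by rw [← map_pow, hd]⟩
    | add x y _ _ hx hy =>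
      obtain ⟨c, hc, rfl⟩ := hx
      obtain ⟨d, hd, rfl⟩ := hy
      exact ⟨c + d, add_mem hc hd, by rw [add_pow_char]⟩
    | inv x _ hx =>
      obtain ⟨c, hc, rfl⟩ := hx
      exact ⟨c⁻¹, inv_mem hc, inv_pow c p⟩
    | mul x y _ _ hx hy =>
      obtain ⟨c, hc, rfl⟩ := hx
      obtain ⟨d, hd, rfl⟩ := hy
      exact ⟨c * d, mul_mem hc hd, mul_pow c d p⟩
  refine cld_WT (k := k) (v := v) (Γ := Γ) (p := p) (X 1) (mem_clI.2 fun c => ?_)
  obtain ⟨b, hb, h2⟩ := mem_clI.1 ha (p * c)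
  obtain ⟨d, hd, rfl⟩ := h1 b hb
  refine ⟨d, hd, fun hne => ?_⟩
  rw [← sub_pow_char] at h2
  have h3 := h2 (pow_ne_zero _ hne)
  rw [v.map_pow hne] at h3
  exact le_of_mul_le_mul_left h3 hp0

/-- The roots of the elements of `WT(X 0)`. -/
theorem root_mem_WT (hr : ∀ n, X (n + 1) ^ p = X n) (hX : X 0 ≠ 0) (hdiv : ∀ g ∈ Γ, g / p ∈ Γ)
    (ha : a ^ p ^ e ∈ WT k p v Γ (X 0)) : a ∈ WT k p v Γ (X e) := by
  induction e generalizing a with
  | zero => rwa [pow_zero, pow_one] at ha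
  | succ e ih =>
    rw [pow_succ', pow_mul] at ha
    exact root1_mem_WT (X := fun n => X (e + n)) (fun n => hr (e + n)) (root_ne_zero hr hX _) hdiv
      (ih ha)

theorem mem_rootF_WT (hr : ∀ n, X (n + 1) ^ p = X n) (hX : X 0 ≠ 0) (hΓ : v (X 0) ∈ Γ)
    (hdiv : ∀ g ∈ Γ, g / p ∈ Γ) : a ^ p ^ e ∈ WT k p v Γ (X 0) ↔ a ∈ WT k p v Γ (X e) :=
  ⟨root_mem_WT hr hX hdiv, pow_mem_WT hr hX hΓ⟩

theorem rootF_WT (hr : ∀ n, X (n + 1) ^ p = X n) (hX : X 0 ≠ 0) (hΓ : v (X 0) ∈ Γ)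
    (hdiv : ∀ g ∈ Γ, g / p ∈ Γ) : rootF p e (WT k p v Γ (X 0)) = WT k p v Γ (X e) := by
  ext a
  rw [mem_rootF, mem_rootF_WT hr hX hΓ hdiv]

/-- The elements of `k(tame roots of X 0)`. -/
theorem adj_level0 (hr : ∀ n, X (n + 1) ^ p = X n) (hX : X 0 ≠ 0) (hv : v (X 0) ∈ Γ)
    (ha : a ∈ IntermediateField.adjoin k {f | ∃ m : ℕ, ¬ p ∣ m ∧ f ^ m = X 0 ∧ v f ∈ Γ}) :
    ∃ (m : ℕ) (X' : ℕ → Ω) (P Q : k[X]), RS p v Γ X m X' ∧ Q ≠ 0 ∧
      a = aeval (X' 0) P / aeval (X' 0) Q := by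
  obtain ⟨m, X', hX', h1⟩ := adj_level (y := (0 : Ω)) hr hX hv
    (IntermediateField.adjoin.mono k _ _ Set.subset_union_left ha)
  have h2 : a ∈ IntermediateField.adjoin k {X' 0} := by
    refine (IntermediateField.adjoin_le_iff.2 ?_ : IntermediateField.adjoin k
      ({X' 0, (0 : Ω)} : Set Ω) ≤ IntermediateField.adjoin k {X' 0}) h1
    rintro f (rfl | hf)
    · exact IntermediateField.mem_adjoin_simple_self k _
    · rw [Set.mem_singleton_iff] at hf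
      rw [hf]
      exact zero_mem _
  obtain ⟨P, Q, h3⟩ := (IntermediateField.mem_adjoin_simple_iff k _).1 h2
  by_cases hQ : Q = 0
  · refine ⟨m, X', 0, 1, hX', one_ne_zero, ?_⟩
    rw [h3, hQ, map_zero, div_zero, zero_div]
  · exact ⟨m, X', P, Q, hX', hQ, h3⟩

/-- **The elements of `WT(X 0)` are polynomials in a tame root, modulo elements of
value `≥ 0`.** -/
theorem WT_near (h0 : Ctx0 k v) (hr : ∀ n, X (n + 1) ^ p = X n) (hX : X 0 ≠ 0)
    (hv : v (X 0) < 0) (hΓ : v (X 0) ∈ Γ) (ha : a ∈ WT k p v Γ (X 0)) :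
    ∃ (m : ℕ) (X' : ℕ → Ω) (q : k[X]), RS p v Γ X m X' ∧ v.Ge 0 (a - aeval (X' 0) q) := by
  obtain ⟨b, hb, h1⟩ := mem_clI.1 ha 0
  obtain ⟨m, X', P, Q, hX', hQ, rfl⟩ := adj_level0 hr hX hΓ hb
  have hx0 : X' 0 ≠ 0 := hX'.ne hX 0
  have hxv : v (X' 0) < 0 := hX'.neg hX hv
  obtain ⟨hQ0, hQv⟩ := kpp_val h0 hx0 hxv hQ
  refine ⟨m, X', P / Q, hX', ?_⟩
  have h2 : aeval (X' 0) P = aeval (X' 0) Q * aeval (X' 0) (P / Q) + aeval (X' 0) (P % Q) := by
    rw [← map_mul, ← map_add, EuclideanDomain.div_add_mod]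
  have h3 : a - aeval (X' 0) (P / Q) = (a - aeval (X' 0) P / aeval (X' 0) Q) +
      aeval (X' 0) (P % Q) / aeval (X' 0) Q := by
    rw [h2]
    field_simp
    ring
  rw [h3]
  refine h1.add ?_
  by_cases hR : P % Q = 0
  · rw [hR, map_zero, zero_div]
    exact RVal.Ge.zero
  obtain ⟨hR0, hRv⟩ := kpp_val h0 hx0 hxv hR
  have hdeg : (P % Q).natDegree ≤ Q.natDegree :=
    natDegree_le_natDegree (EuclideanDomain.mod_lt P hQ).le
  intro hne
  rw [div_eq_mul_inv, v.map_mul hR0 (inv_ne_zero hQ0), v.map_inv hQ0, hRv, hQv]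
  have h4 : ((P % Q).natDegree : ℝ) ≤ Q.natDegree := by exact_mod_cast hdeg
  nlinarith

/-- The elements of `WT(X e)`. -/
theorem WT_near_SL (h0 : Ctx0 k v) (hr : ∀ n, X (n + 1) ^ p = X n) (hX : X 0 ≠ 0)
    (hv : v (X 0) < 0) (hΓ : v (X 0) ∈ Γ) (hdiv : ∀ g ∈ Γ, g / p ∈ Γ)
    (ha : a ∈ WT k p v Γ (X e)) : ∃ s ∈ SL k p v Γ X e, v.Ge 0 (a - s) := by
  have hve : v (X e) < 0 := by
    rw [val_rt hr hX e]
    exact div_neg_of_neg_of_pos hv (pow_pos (by exact_mod_cast hp.out.pos) _)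
  have hΓe : v (X e) ∈ Γ := (RS.refl hr hΓ).val_mem hX hdiv e
  obtain ⟨m, X', q, hX', h1⟩ := WT_near (X := fun n => X (e + n)) h0 (fun n => hr (e + n))
    (root_ne_zero hr hX _) hve hΓe ha
  obtain ⟨V, hV, hVX⟩ := hX'.unshift hr hX e
  have h2 : X' 0 = V e := by
    rw [← hVX 0, add_zero]
  refine ⟨aeval (X' 0) q, ?_, h1⟩
  rw [h2]
  exact aeval_mem_SL hV le_rfl q

/-- **The value of `X 1` is not a value of `WT(X 0)`.** -/
theorem not_vg_WT (h0 : Ctx0 k v) (hr : ∀ n, X (n + 1) ^ p = X n) (hX : X 0 ≠ 0)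
    (hv : v (X 0) < 0) (hΓ : v (X 0) ∈ Γ) : v (X 0) / p ∉ VG v (WT k p v Γ (X 0)) := by
  rintro ⟨a, ha, ha0, h1⟩
  have hp0 : (0 : ℝ) < p := by exact_mod_cast hp.out.pos
  obtain ⟨b, hb, h2⟩ := mem_clI.1 ha (v a + 1)
  obtain ⟨hb0, hbv⟩ := Gt.val_eq ha0 (Gt.of_ge h2 (by linarith))
  obtain ⟨m, X', P, Q, hX', hQ, rfl⟩ := adj_level0 hr hX hΓ hb
  have hx0 : X' 0 ≠ 0 := hX'.ne hX 0
  have hxv : v (X' 0) < 0 := hX'.neg hX hv
  obtain ⟨hQ0, hQv⟩ := kpp_val h0 hx0 hxv hQ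
  have hP : P ≠ 0 := by
    rintro rfl
    rw [map_zero, zero_div] at hb0
    exact hb0 rfl
  obtain ⟨hP0, hPv⟩ := kpp_val h0 hx0 hxv hP
  rw [div_eq_mul_inv, v.map_mul hP0 (inv_ne_zero hQ0), v.map_inv hQ0, hPv, hQv, h1] at hbv
  have h3 := hX'.val_mul hX 0
  rw [← h3] at hbv
  have h4 : ((P.natDegree : ℝ) - Q.natDegree) * p = m := by
    have h5 : v (X' 0) ≠ 0 := hxv.ne
    refine mul_right_cancel₀ h5 ?_
    have h6 : ((P.natDegree : ℝ) * v (X' 0) + -(Q.natDegree * v (X' 0))) * p = m * v (X' 0) := by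
      rw [hbv, div_mul_cancel₀ _ hp0.ne']
    linear_combination h6
  have h5 : ((P.natDegree : ℤ) - Q.natDegree) * p = m := by exact_mod_cast h4
  refine hX'.nd ?_
  have h6 : (p : ℤ) ∣ m := ⟨_, by rw [← h5, mul_comm]⟩
  exact_mod_cast h6

/-- **The generator of the roots of `WT(X 0)`.** -/
theorem gen_WT (hc : CompleteV v) (hr : ∀ n, X (n + 1) ^ p = X n)
    (hX : X 0 ≠ 0) (hΓ : v (X 0) ∈ Γ) (hdiv : ∀ g ∈ Γ, g / p ∈ Γ) (ha : a ∈ WT k p v Γ (X 0)) :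
    ∃ Q ∈ PI (WT k p v Γ (X 0)), (Q.eval (X 1)) ^ p = a := by
  set W := WT k p v Γ (X 0) with hW
  have hX1 : X 1 ^ p ∈ W := by
    rw [hr 0]
    exact (RS.refl hr hΓ).mem
  obtain ⟨b, rfl⟩ := IsAlgClosed.exists_pow_nat_eq a hp.out.pos
  have hb : b ∈ WT k p v Γ (X 1) := root1_mem_WT hr hX hdiv ha
  have h1 : WT k p v Γ (X 1) ≤ adj W (X 1) := by
    refine WT_le (cld_adj_pow hc (cld_WT _) hX1) fun m f hm h1 h2 => ?_
    have hm0 : m ≠ 0 := by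
      rintro rfl
      exact hm (dvd_zero p)
    have hf0 : f ≠ 0 := by
      rintro rfl
      rw [zero_pow hm0] at h1
      exact root_ne_zero hr hX 1 h1.symm
    have h3 : f ^ p ∈ adj W (X 1) := by
      refine (D2P.mem_adj_self W (X 1)).2 (mem_WT hm ?_ ?_)
      · rw [← pow_mul, mul_comm, pow_mul, h1, hr 0]
      · rw [v.map_pow hf0, ← nsmul_eq_mul]
        exact Γ.nsmul_mem h2 p
    have h4 : f ^ m ∈ adj W (X 1) := by
      rw [h1]
      exact (D2P.mem_adj_self W (X 1)).1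
    have hcop : IsCoprime (m : ℤ) (p : ℕ) := by
      rw [Nat.isCoprime_iff_coprime]
      exact ((Nat.Prime.coprime_iff_not_dvd hp.out).2 hm).symm
    obtain ⟨s, t, hst⟩ := hcop
    have e : f = (f ^ m) ^ s * (f ^ p) ^ t := by
      rw [← zpow_natCast, ← zpow_natCast, ← zpow_mul, ← zpow_mul, ← zpow_add₀ hf0,
        mul_comm (m : ℤ) s, mul_comm ((p : ℕ) : ℤ) t, hst, zpow_one]
    rw [e]
    exact mul_mem (zpow_mem h4 s) (zpow_mem h3 t)
  obtain ⟨Q, hQ, -, rfl⟩ := C.exists_rep p hX1 (h1 hb)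
  exact ⟨Q, hQ, rfl⟩

/-- **`X` is a letter of `WT(X 0)`.** -/
theorem lt_WT (h0 : Ctx0 k v) (hc : CompleteV v) (hr : ∀ n, X (n + 1) ^ p = X n)
    (hX : X 0 ≠ 0) (hv : v (X 0) < 0) (hΓ : v (X 0) ∈ Γ) (hdiv : ∀ g ∈ Γ, g / p ∈ Γ) :
    TWTR.Lt p v (WT k p v Γ (X 0)) X 0 :=
  TWTR.lt_tame (cld_WT _) hr (RS.refl hr hΓ).mem hX (fun _ ha => gen_WT hc hr hX hΓ hdiv ha)
    (not_vg_WT h0 hr hX hv hΓ)

theorem hl_WT (h0 : Ctx0 k v) (hc : CompleteV v) (hr : ∀ n, X (n + 1) ^ p = X n)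
    (hX : X 0 ≠ 0) (hv : v (X 0) < 0) (hΓ : v (X 0) ∈ Γ) (hdiv : ∀ g ∈ Γ, g / p ∈ Γ) :
    TWTR.HL p v (WT k p v Γ (X 0)) :=
  TWTR.hl_tame (cld_WT _) hr (RS.refl hr hΓ).mem hX (fun _ ha => gen_WT hc hr hX hΓ hdiv ha)
    (not_vg_WT h0 hr hX hv hΓ)

/-- **Far**, any exponent. -/
theorem far_XB (h0 : Ctx0 k v) (hB : 0 < B) (hP : PRT p v Γ C X y B) (n : ℕ) :
    ¬ Nr' v C (-((B - 1) * v (X (n + 1)))) (X (n + 1)) := by
  rintro ⟨c, hc, hgt⟩
  have hp0 : (0 : ℝ) < p := by exact_mod_cast hp.out.pos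
  have hr := hP.root
  set q := p ^ (n + 1) with hq
  have hq2 : 1 < q := Nat.one_lt_pow (by omega) hp.out.one_lt
  set r : ℝ := -((B - 1) * v (X (n + 1))) with hrr
  have hc' := cadj_WT_le (hP.eq ▸ hc)
  obtain ⟨a, ha, ha'⟩ := mem_clI.1 hc' (r + 1)
  -- a near element of `k(tame roots, y)`, different from `X (n + 1)`
  obtain ⟨a, ha, hne, hav⟩ : ∃ a ∈ IntermediateField.adjoin k
      ({f | ∃ m : ℕ, ¬ p ∣ m ∧ f ^ m = X 0 ∧ v f ∈ Γ} ∪ {y}),
      X (n + 1) - a ≠ 0 ∧ r < v (X (n + 1) - a) := by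
    have h1 : Gt v r (X (n + 1) - a) := by
      have h2 := hgt.add (Gt.of_ge ha' (by linarith : r < r + 1))
      rwa [sub_add_sub_cancel] at h2
    by_cases h2 : X (n + 1) - a = 0
    · obtain ⟨N, hN⟩ := exists_nat_gt (r / -v (X 0))
      have hneg : 0 < -v (X 0) := by linarith [hP.neg]
      rw [div_lt_iff₀ hneg] at hN
      have h3 : (X 0 ^ N)⁻¹ ≠ 0 := inv_ne_zero (pow_ne_zero _ hP.ne)
      have hX0 : X 0 ∈ IntermediateField.adjoin k
          ({f | ∃ m : ℕ, ¬ p ∣ m ∧ f ^ m = X 0 ∧ v f ∈ Γ} ∪ {y} : Set Ω) :=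
        IntermediateField.subset_adjoin k _ (Or.inl ⟨1, fun h => by
          have := Nat.le_of_dvd one_pos h
          have := hp.out.one_lt
          omega, pow_one _, hP.val⟩)
      refine ⟨a - (X 0 ^ N)⁻¹, sub_mem ha (inv_mem (pow_mem hX0 N)), ?_, ?_⟩
      · rw [← sub_add, h2, zero_add]
        exact h3
      · rw [← sub_add, h2, zero_add, v.map_inv (pow_ne_zero _ hP.ne), v.map_pow hP.ne]
        linarith
    · exact ⟨a, ha, h2, h1 h2⟩
  obtain ⟨m, X', hX', ha⟩ := adj_level hr hP.ne hP.val ha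
  have hm0 : m ≠ 0 := hX'.n_ne
  have hX'n : ∀ n, X' n ≠ 0 := hX'.ne hP.ne
  have hv' : v (X' 0) < 0 := hX'.neg hP.ne hP.neg
  have hvm : m * v (X' (n + 1)) = v (X (n + 1)) := hX'.val_mul hP.ne _
  have hXq : X' (n + 1) ^ q = X' 0 := by
    have := root_pow_add hX'.root 0 (n + 1)
    rwa [zero_add] at this
  obtain ⟨P, Q, hPP, hQQ, hQ0, hPQ⟩ := PF.exists_frac ha
  set D := max P.natDegree Q.natDegree + 1 with hD
  set f : ℕ → Polynomial Ω := fun l => expand Ω q (Q.coeff l) * Polynomial.X ^ m -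
    expand Ω q (P.coeff l) with hf
  have hfm : ∀ l, f l ∈ PI (⊥ : IntermediateField k Ω) := fun l =>
    sub_mem (mul_mem (expand_mem_PI (by omega) (hQQ l)) (pow_mem X_mem_PI m))
      (expand_mem_PI (by omega) (hPP l))
  have hev : ∀ R : Polynomial (Polynomial Ω), R.natDegree < D →
      R.evalEval (X' 0) y = ∑ l ∈ Finset.range D, (R.coeff l).eval (X' 0) * y ^ l := by
    intro R hR
    rw [evalEval, eval_eq_sum_range' hR, eval_finsetSum]
    refine Finset.sum_congr rfl fun l _ => ?_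
    rw [eval_mul, eval_pow, eval_C]
  have h00 : (evj X' (n + 1) D f 0).eval y = Q.evalEval (X' 0) y * (X (n + 1) - a) := by
    rw [mul_sub, mul_comm _ a, hPQ, hev P (by omega), hev Q (by omega), evj_eval, Finset.sum_mul,
      ← Finset.sum_sub_distrib]
    refine Finset.sum_congr rfl fun l _ => ?_
    rw [taylor_coeff_zero, hf]
    simp only [eval_sub, eval_mul, eval_pow, eval_X, expand_eval, hXq, hX'.pow]
    ring
  have h11 : (evj X' (n + 1) D f 1).eval y =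
      Q.evalEval (X' 0) y * (m * X' (n + 1) ^ (m - 1)) := by
    rw [hev Q (by omega), evj_eval, Finset.sum_mul]
    refine Finset.sum_congr rfl fun l _ => ?_
    have h1 : ∀ R : Polynomial Ω, (taylor (X' (n + 1)) (expand Ω q R)).coeff 1 = 0 := by
      intro R
      rw [hq, taylor_expand_pow, coeff_expand (by omega), if_neg]
      intro h2
      have := Nat.le_of_dvd one_pos h2
      omega
    have h2 : (taylor (X' (n + 1)) (f l)).coeff 1 =
        (Q.coeff l).eval (X' 0) * (m * X' (n + 1) ^ (m - 1)) := by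
      rw [hf]
      simp only [map_sub, taylor_mul, coeff_sub, h1, sub_zero]
      rw [mul_coeff_one, h1, zero_mul, add_zero, taylor_coeff_zero, expand_eval, hXq,
        taylor_coeff_one, derivative_X_pow, eval_mul, eval_C, eval_pow, eval_X]
    rw [h2]
    ring
  have hne0 : (evj X' (n + 1) D f 0).eval y ≠ 0 := by
    rw [h00]
    exact mul_ne_zero hQ0 hne
  have hmR : (0 : ℝ) < m := by exact_mod_cast Nat.pos_of_ne_zero hm0
  have hmB : (0 : ℝ) < m * B := mul_pos hmR hB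
  have hY : NL p v k X' (m * B) y := by
    have h1 := hP.ltr
    rw [ST_eq hP.ne hX'] at h1
    exact NL_of_Lm hX'.root (hX'n 0) hX'.val hmB.le h1
  have hmc : ((m : ℕ) : Ω) ≠ 0 := by
    rw [Ne, CharP.cast_eq_zero_iff Ω p]
    exact hX'.nd
  have hvmc : v ((m : ℕ) : Ω) = 0 := by
    have h4 : ((m : ℕ) : Ω) = algebraMap k Ω (m : k) := by rw [map_natCast]
    rw [h4]
    refine h0.triv _ fun h5 => hmc ?_
    rw [h4, h5, map_zero]
  have hu : (m : Ω) * X' (n + 1) ^ (m - 1) ≠ 0 := mul_ne_zero hmc (pow_ne_zero _ (hX'n _))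
  have h1 := jetT h0 hX'.root (hX'n 0) hv' hmB
    (RS.mem_cEW hr hP.ne hP.val hX') hP.tl hY (n + 1) D f hfm hne0 1 le_rfl
    (by rw [h11]; exact mul_ne_zero hQ0 hu)
  rw [h11, h00, v.map_mul hQ0 hne, Nat.cast_one, one_mul, v.map_mul hQ0 hu,
    v.map_mul hmc (pow_ne_zero _ (hX'n _)), hvmc, zero_add, v.map_pow (hX'n _),
    Nat.cast_sub (Nat.one_le_iff_ne_zero.2 hm0), Nat.cast_one] at h1
  rw [hrr, ← hvm] at hav
  have h2 : ((m : ℝ) - 1) * v (X' (n + 1)) - (m * B - 1) * v (X' (n + 1)) =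
      -((B - 1) * (m * v (X' (n + 1)))) := by ring
  linarith

end Pool.Agent.TWC.PW
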