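import Pool.Agent.Lib.TWC.PWg0

/-!
# TANK W, class C: rational letters over a tame base (row PW), letters and gaps

The monomial `X' n ^ i`, `X'` a system of order `m`, has the degree `ρ = i / (m p ^ n)`.
* `Psn n ρ`: the position of `ρ` is `≤ n`; `LA A`: the span of the monomials of degrees in `A`;
* `LA_coeff`: a monomial which is not in `A'` is not changed by the elements of `LA A'`;
* `nearB_of_Lm`, `nearB_lt_of_Lm`: the letters bound the gaps;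
* `Lm_of_nearB`: the gaps bound the letters.
-/

set_option autoImplicit false
set_option linter.unusedSectionVars false

open Polynomial

namespace Pool.Agent.TWC.PW

open Pool.Agent.H15JM (RVal)
open Pool.Agent.D2 (Ctx0)
open Pool.Agent.D2P (clI mem_clI rootF mem_rootF)
open Pool.Agent.TWM
open Pool.Agent.TWTR (NearB)
open Pool.Agent.TWC.PF (Lm SW SA)

universe u

/-- The position of the degree `ρ` is `≤ n`. -/
def Psn (p n : ℕ) (ρ : ℝ) : Prop := ∃ m i : ℕ, ¬ p ∣ m ∧ ρ * (m * (p : ℝ) ^ n) = i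

/-- The span of the monomials of degrees in `A`. -/
def LA (k : Type u) {Ω : Type u} [Field k] [Field Ω] [Algebra k Ω] (p : ℕ) (v : RVal Ω)
    (Γ : AddSubgroup ℝ) (X : ℕ → Ω) (A : ℝ → Prop) : Submodule k Ω :=
  Submodule.span k {g | ∃ (m : ℕ) (X' : ℕ → Ω) (n i : ℕ), RS p v Γ X m X' ∧
    A ((i : ℝ) / (m * (p : ℝ) ^ n)) ∧ g = X' n ^ i}

variable {k Ω : Type u} [Field k] [Field Ω] [Algebra k Ω] {v : RVal Ω} {Γ : AddSubgroup ℝ}
  {p : ℕ} [hp : Fact p.Prime] [CharP k p] [CharP Ω p] [IsAlgClosed k] [IsAlgClosed Ω]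
  {C : IntermediateField k Ω} {X X' : ℕ → Ω} {y f s g z : Ω} {A A' : ℝ → Prop} {B β c ρ : ℝ}
  {b d e i j l n m N : ℕ}

omit hp in
theorem p_ps (p : ℕ) [hp : Fact p.Prime] (n : ℕ) : (0 : ℝ) < (p : ℝ) ^ n :=
  pow_pos (by exact_mod_cast hp.out.pos) n

theorem Psn.succ (h : Psn p n ρ) : Psn p (n + 1) ρ := by
  obtain ⟨m, i, hm, h1⟩ := h
  refine ⟨m, i * p, hm, ?_⟩
  push_cast
  rw [← h1, pow_succ]
  ring

theorem Psn.mono (h : Psn p n ρ) (hn : n ≤ l) : Psn p l ρ := by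
  induction l, hn using Nat.le_induction with
  | base => exact h
  | succ l _ ih => exact ih.succ

omit [CharP Ω p] [IsAlgClosed Ω] [CharP k p] [IsAlgClosed k] in
theorem RS.mc (h : RS p v Γ X m X') : (0 : ℝ) < m := by
  exact_mod_cast Nat.pos_of_ne_zero h.n_ne

theorem RS.psn (h : RS p v Γ X m X') (n i : ℕ) : Psn p n ((i : ℝ) / (m * (p : ℝ) ^ n)) :=
  ⟨m, i, h.nd, div_mul_cancel₀ _ (mul_pos h.mc (p_ps p n)).ne'⟩

/-- A monomial of position `≤ l`. -/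
theorem RS.mon (h : RS p v Γ X m X') (hl : Psn p l ((i : ℝ) / (m * (p : ℝ) ^ n))) :
    ∃ i' : ℕ, X' n ^ i = X' l ^ i' ∧
      (i' : ℝ) = (i : ℝ) / (m * (p : ℝ) ^ n) * (m * (p : ℝ) ^ l) := by
  have hm := h.mc
  have hpn := p_ps p n
  rcases le_total n l with h1 | h1
  · obtain ⟨t, rfl⟩ := Nat.exists_eq_add_of_le h1
    refine ⟨i * p ^ t, ?_, ?_⟩
    · rw [mul_comm, pow_mul, root_pow_add h.root n t]
    · push_cast
      rw [pow_add]
      field_simp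
  · obtain ⟨t, rfl⟩ := Nat.exists_eq_add_of_le h1
    obtain ⟨m₂, i₂, hm₂, h2⟩ := hl
    have hpl := p_ps p l
    have h3 : (i : ℝ) * m₂ = i₂ * m * p ^ t := by
      have h4 : (i : ℝ) / (m * (p : ℝ) ^ (l + t)) * (m₂ * (p : ℝ) ^ l) =
          i * m₂ / (m * p ^ t) := by
        rw [pow_add]
        field_simp
      rw [h4, div_eq_iff (mul_pos hm (p_ps p t)).ne'] at h2
      rw [h2]
      ring
    have h4 : i * m₂ = i₂ * m * p ^ t := by exact_mod_cast h3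
    have h5 : p ^ t ∣ i := by
      have h6 : p ^ t ∣ i * m₂ := ⟨i₂ * m, by rw [h4, mul_comm]⟩
      exact (Nat.Coprime.dvd_of_dvd_mul_right
        (Nat.Coprime.pow_left t ((Nat.Prime.coprime_iff_not_dvd hp.out).2 hm₂)) h6)
    obtain ⟨i', rfl⟩ := h5
    refine ⟨i', ?_, ?_⟩
    · rw [pow_mul, root_pow_add h.root l t]
    · push_cast
      rw [pow_add]
      have := p_ps p t
      field_simp

theorem LA_mono (h : ∀ ρ, A ρ → A' ρ) : LA k p v Γ X A ≤ LA k p v Γ X A' := by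
  refine Submodule.span_mono ?_
  rintro _ ⟨m, X', n, i, h1, h2, rfl⟩
  exact ⟨m, X', n, i, h1, h _ h2, rfl⟩

theorem mem_LA (h : RS p v Γ X m X') (hA : A ((i : ℝ) / (m * (p : ℝ) ^ n))) :
    X' n ^ i ∈ LA k p v Γ X A :=
  Submodule.subset_span ⟨m, X', n, i, h, hA, rfl⟩

theorem LA_split (D : ℝ → Prop) (h : s ∈ LA k p v Γ X A) :
    ∃ s₁ ∈ LA k p v Γ X (fun ρ => A ρ ∧ D ρ), ∃ s₂ ∈ LA k p v Γ X (fun ρ => A ρ ∧ ¬ D ρ),
      s₁ + s₂ = s := by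
  classical
  refine Submodule.mem_sup.1 ((Submodule.span_le.2 ?_ : LA k p v Γ X A ≤ _) h)
  rintro _ ⟨m, X', n, i, h1, h2, rfl⟩
  by_cases h3 : D ((i : ℝ) / (m * (p : ℝ) ^ n))
  · exact Submodule.mem_sup_left (mem_LA h1 ⟨h2, h3⟩)
  · exact Submodule.mem_sup_right (mem_LA h1 ⟨h2, h3⟩)

theorem LA_le_ST : LA k p v Γ X (fun ρ => ∃ n, j ≤ n ∧ Psn p n ρ ∧ ρ * (p : ℝ) ^ n ≤ B) ≤
    ST k p v Γ X B j := by
  refine Submodule.span_le.2 ?_
  rintro _ ⟨m, X', n, i, h, ⟨l, hl, h1, h2⟩, rfl⟩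
  obtain ⟨i', h3, h4⟩ := h.mon h1
  rw [h3]
  refine mem_ST h hl ?_
  rw [h4]
  have hm := h.mc
  calc (i : ℝ) / (m * (p : ℝ) ^ n) * (m * (p : ℝ) ^ l) =
      m * ((i : ℝ) / (m * (p : ℝ) ^ n) * (p : ℝ) ^ l) := by ring
    _ ≤ m * B := mul_le_mul_of_nonneg_left h2 hm.le

theorem LA_le_STs : LA k p v Γ X (fun ρ => ∃ n, j ≤ n ∧ Psn p n ρ ∧ ρ * (p : ℝ) ^ n < B) ≤
    STs k p v Γ X B j := by
  refine Submodule.span_le.2 ?_
  rintro _ ⟨m, X', n, i, h, ⟨l, hl, h1, h2⟩, rfl⟩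
  obtain ⟨i', h3, h4⟩ := h.mon h1
  rw [h3]
  refine mem_STs h hl ?_
  rw [h4]
  have hm := h.mc
  calc (i : ℝ) / (m * (p : ℝ) ^ n) * (m * (p : ℝ) ^ l) =
      m * ((i : ℝ) / (m * (p : ℝ) ^ n) * (p : ℝ) ^ l) := by ring
    _ < m * B := mul_lt_mul_of_pos_left h2 hm

theorem STs_le_LA : STs k p v Γ X B j ≤
    LA k p v Γ X (fun ρ => ∃ n, j ≤ n ∧ Psn p n ρ ∧ ρ * (p : ℝ) ^ n < B) := by
  refine Submodule.span_le.2 ?_
  rintro _ ⟨m, X', n, i, h, hn, hi, rfl⟩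
  refine mem_LA h ⟨n, hn, h.psn n i, ?_⟩
  have hm := h.mc
  have hpn := p_ps p n
  rw [div_mul_eq_mul_div, div_lt_iff₀ (mul_pos hm hpn)]
  nlinarith

theorem LA_le_SL : LA k p v Γ X (Psn p e) ≤ SL k p v Γ X e := by
  refine Submodule.span_le.2 ?_
  rintro _ ⟨m, X', n, i, h, h1, rfl⟩
  obtain ⟨i', h3, -⟩ := h.mon h1
  rw [h3]
  exact Submodule.subset_span ⟨m, X', e, i', h, le_rfl, rfl⟩

theorem SL_le_LA : SL k p v Γ X e ≤ LA k p v Γ X (Psn p e) := by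
  refine Submodule.span_le.2 ?_
  rintro _ ⟨m, X', n, i, h, hn, rfl⟩
  exact mem_LA h ((h.psn n i).mono hn)

/-- Refinement of a level. -/
theorem LA_refine {r L : ℕ} {V : ℕ → Ω} (hr : ∀ n, X' (n + 1) ^ p = X' n) (hr0 : r ≠ 0)
    (hc : ∀ n, ∃ c : k, c ≠ 0 ∧ X' n = algebraMap k Ω c * V n ^ r) (hL : N ≤ L) (P : k[X]) :
    ∃ P' : k[X], aeval (V L) P' = aeval (X' N) P ∧
      (∀ i, P'.coeff i ≠ 0 → ∃ l, P.coeff l ≠ 0 ∧ i = r * p ^ (L - N) * l) ∧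
      ∀ l, P.coeff l ≠ 0 → P'.coeff (r * p ^ (L - N) * l) ≠ 0 := by
  obtain ⟨t, rfl⟩ := Nat.exists_eq_add_of_le hL
  rw [Nat.add_sub_cancel_left]
  obtain ⟨c, hc0, hcL⟩ := hc (N + t)
  have hq : 0 < r * p ^ t := Nat.mul_pos (Nat.pos_of_ne_zero hr0) (pow_pos hp.out.pos t)
  refine ⟨expand k (r * p ^ t) (P.comp (C (c ^ p ^ t) * Polynomial.X)), ?_, fun i hi => ?_,
    fun l hl => ?_⟩
  · rw [expand_aeval, aeval_comp, map_mul, aeval_C, aeval_X, ← root_pow_add hr N t, hcL, mul_pow,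
      map_pow, ← pow_mul]
  · rw [coeff_expand hq] at hi
    by_cases hd : r * p ^ t ∣ i
    · obtain ⟨i, rfl⟩ := hd
      rw [if_pos (dvd_mul_right _ _), Nat.mul_div_cancel_left _ hq, comp_C_mul_X_coeff] at hi
      exact ⟨i, left_ne_zero_of_mul hi, rfl⟩
    · rw [if_neg hd] at hi
      exact absurd rfl hi
  · rw [coeff_expand hq, if_pos (dvd_mul_right _ _), Nat.mul_div_cancel_left _ hq,
      comp_C_mul_X_coeff]
    exact mul_ne_zero hl (pow_ne_zero _ (pow_ne_zero _ hc0))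

omit [CharP Ω p] [IsAlgClosed Ω] [CharP k p] [IsAlgClosed k] [Algebra k Ω] [Field k] in
/-- The degree after a refinement. -/
theorem deg_refine {m₁ r r₁ L : ℕ} (hm : m ≠ 0) (hr : r ≠ 0) (hm₁ : m₁ ≠ 0)
    (he : m * r = m₁ * r₁) (hL : N ≤ L) (l : ℕ) :
    ((r₁ * p ^ (L - N) * l : ℕ) : ℝ) / ((m * r : ℕ) * (p : ℝ) ^ L) =
      (l : ℝ) / (m₁ * (p : ℝ) ^ N) := by
  obtain ⟨t, rfl⟩ := Nat.exists_eq_add_of_le hL
  rw [Nat.add_sub_cancel_left, he]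
  have h1 : r₁ ≠ 0 := by
    rintro rfl
    rw [mul_zero] at he
    exact mul_ne_zero hm hr he
  have h2 : (m₁ : ℝ) ≠ 0 := by exact_mod_cast hm₁
  have h3 : (r₁ : ℝ) ≠ 0 := by exact_mod_cast h1
  have h4 := (p_ps p N).ne'
  have h5 := (p_ps p t).ne'
  push_cast
  rw [pow_add]
  field_simp

/-- An element of `LA A` lives at one level. -/
theorem LA_level (hr : ∀ n, X (n + 1) ^ p = X n) (hX : X 0 ≠ 0) (hv : v (X 0) ∈ Γ)
    (h : s ∈ LA k p v Γ X A) : ∃ (m : ℕ) (X' : ℕ → Ω) (N : ℕ) (P : k[X]), RS p v Γ X m X' ∧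
      aeval (X' N) P = s ∧ ∀ i, P.coeff i ≠ 0 → A ((i : ℝ) / (m * (p : ℝ) ^ N)) := by
  induction h using Submodule.span_induction with
  | mem x hx =>
    obtain ⟨m, X', n, i, h, hi, rfl⟩ := hx
    refine ⟨m, X', n, Polynomial.X ^ i, h, by rw [map_pow, aeval_X], fun l hl => ?_⟩
    rw [coeff_X_pow] at hl
    by_cases h1 : l = i
    · rw [h1]
      exact hi
    · rw [if_neg h1] at hl
      exact absurd rfl hl
  | zero => exact ⟨1, X, 0, 0, RS.refl hr hv, map_zero _, fun l hl => absurd (coeff_zero l) hl⟩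
  | add x y _ _ hx hy =>
    obtain ⟨m, X', N, P, h, rfl, h1⟩ := hx
    obtain ⟨m₁, X₁, N₁, P₁, h₁, rfl, h2⟩ := hy
    obtain ⟨r, r₁, V, hV, hr₁, e, hc⟩ := RS.common (k := k) hX h h₁
    obtain ⟨Q, hQ, hQ1, -⟩ := LA_refine (L := max N N₁) h.root hV.n_ne (pow_ref hV)
      (le_max_left N N₁) P
    obtain ⟨Q₁, hQ₁, hQ2, -⟩ := LA_refine (L := max N N₁) h₁.root
      (fun h0 => hr₁ (by rw [h0]; exact dvd_zero p)) hc (le_max_right N N₁) P₁
    refine ⟨m * r, V, max N N₁, Q + Q₁, h.trans hV, by rw [map_add, hQ, hQ₁], fun i hi => ?_⟩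
    rw [coeff_add] at hi
    by_cases h3 : Q.coeff i = 0
    · rw [h3, zero_add] at hi
      obtain ⟨l, hl, rfl⟩ := hQ2 i hi
      rw [deg_refine h.n_ne hV.n_ne h₁.n_ne e (le_max_right N N₁)]
      exact h2 l hl
    · obtain ⟨l, hl, rfl⟩ := hQ1 i h3
      have h4 := deg_refine (p := p) h.n_ne hV.n_ne h.n_ne (rfl : m * r = m * r)
        (le_max_left N N₁) l
      rw [h4]
      exact h1 l hl
  | smul a x _ hx =>
    obtain ⟨m, X', N, P, h, rfl, h1⟩ := hx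
    refine ⟨m, X', N, a • P, h, by rw [map_smul], fun i hi => h1 i fun h0 => hi ?_⟩
    rw [coeff_smul, h0, smul_zero]

/-- **The monomials which are not in `A'`.** -/
theorem LA_coeff (h0 : Ctx0 k v) (hr : ∀ n, X (n + 1) ^ p = X n) (hX : X 0 ≠ 0)
    (hv : v (X 0) < 0) (hΓ : v (X 0) ∈ Γ) (h : RS p v Γ X m X') {P : k[X]}
    (hz : z ∈ LA k p v Γ X A') (hc : v.Ge c (aeval (X' N) P + z)) (hl : P.coeff l ≠ 0)
    (hA : ¬ A' ((l : ℝ) / (m * (p : ℝ) ^ N))) :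
    c ≤ (l : ℝ) / (m * (p : ℝ) ^ N) * v (X 0) := by
  obtain ⟨m₁, X₁, N₁, P₁, h₁, rfl, h2⟩ := LA_level hr hX hΓ hz
  obtain ⟨r, r₁, V, hV, hr₁, e, hcc⟩ := RS.common (k := k) hX h h₁
  obtain ⟨Q, hQ, -, hQ1⟩ := LA_refine (L := max N N₁) h.root hV.n_ne (pow_ref hV)
    (le_max_left N N₁) P
  obtain ⟨Q₁, hQ₁, hQ2, -⟩ := LA_refine (L := max N N₁) h₁.root
    (fun h0 => hr₁ (by rw [h0]; exact dvd_zero p)) hcc (le_max_right N N₁) P₁
  have h3 := hQ1 l hl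
  set i := r * p ^ (max N N₁ - N) * l with hi
  have h4 : ((i : ℕ) : ℝ) / ((m * r : ℕ) * (p : ℝ) ^ max N N₁) = (l : ℝ) / (m * (p : ℝ) ^ N) :=
    deg_refine (p := p) h.n_ne hV.n_ne h.n_ne (rfl : m * r = m * r) (le_max_left N N₁) l
  have h5 : Q₁.coeff i = 0 := by
    by_contra h6
    obtain ⟨l', hl', h7⟩ := hQ2 i h6
    refine hA ?_
    rw [← h4, h7, deg_refine h.n_ne hV.n_ne h₁.n_ne e (le_max_right N N₁)]
    exact h2 l' hl'
  rw [← hQ, ← hQ₁, ← map_add] at hc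
  have hmV := h.trans hV
  have h6 := PF.coeff_le h0 hmV.root (hmV.ne hX 0) (hmV.neg hX hv) hc (i := i) (by
    rw [coeff_add, h5, add_zero]
    exact h3)
  refine h6.trans (le_of_eq ?_)
  rw [← h4, hmV.val_eq hX, val_rt hr hX]
  have h7 : ((m * r : ℕ) : ℝ) ≠ 0 := by exact_mod_cast hmV.n_ne
  have h8 := (p_ps p (max N N₁)).ne'
  field_simp

/-! ### From the letters to the gaps -/

/-- The values of the strict letters. -/
theorem exists_ge_STs (h0 : Ctx0 k v) (hr : ∀ n, X (n + 1) ^ p = X n) (hX : X 0 ≠ 0)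
    (hv : v (X 0) < 0) (hΓ : v (X 0) ∈ Γ) (hB : 0 < B) (h : s ∈ STs k p v Γ X B j) :
    ∃ β' < B, 0 ≤ β' ∧ v.Ge (β' * v (X j)) s := by
  obtain ⟨m, b, X', h1, h2, h3⟩ := STs_level hr hX hΓ hB h
  refine ⟨b / m, ?_, by positivity, ?_⟩
  · rw [div_lt_iff₀ h1.mc, mul_comm]
    exact h2
  · have h4 := PF.SW_ge h0 h1.root (h1.ne hX 0) (h1.neg hX hv) h3
    rw [h1.val_eq hX] at h4
    have e : (b : ℝ) / m * v (X j) = b * (v (X j) / m) := by ring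
    rw [e]
    exact h4

/-- The letters at the positions `≤ j`. -/
theorem Lm_ST_le (h0 : Ctx0 k v) (hr : ∀ n, X (n + 1) ^ p = X n) (hX : X 0 ≠ 0)
    (hv : v (X 0) < 0) (hΓ : v (X 0) ∈ Γ) (hdiv : ∀ g ∈ Γ, g / p ∈ Γ) (hβ : 0 < β)
    (hg : g ∈ WT k p v Γ (X e)) (h : Lm v (ST k p v Γ X β (e + 1)) (y - g)) (hj : e ≤ j) :
    ∃ g' ∈ WT k p v Γ (X j), Lm v (ST k p v Γ X β (j + 1)) (y - g') := by
  induction j, hj using Nat.le_induction with
  | base => exact ⟨g, hg, h⟩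
  | succ j _ ih =>
    obtain ⟨g', h1, h2⟩ := ih
    obtain ⟨m, X', q, h4, -, h6⟩ := Lm_ST_split h0 hr hX hv hΓ hβ h2
    refine ⟨g' + aeval (X' (j + 1)) q, add_mem (WT_mono hr hX hdiv (Nat.le_succ j) h1) ?_, ?_⟩
    · have h8 := RS.mem (k := k) (h4.shift hX hdiv (j + 1))
      simp only [add_zero] at h8
      exact PF.aeval_mem_field h8
    · rwa [← sub_sub]

theorem Lm_STs_le (h0 : Ctx0 k v) (hr : ∀ n, X (n + 1) ^ p = X n) (hX : X 0 ≠ 0)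
    (hv : v (X 0) < 0) (hΓ : v (X 0) ∈ Γ) (hdiv : ∀ g ∈ Γ, g / p ∈ Γ) (hβ : 0 < β)
    (hg : g ∈ WT k p v Γ (X e)) (h : Lm v (STs k p v Γ X β (e + 1)) (y - g)) (hj : e ≤ j) :
    ∃ g' ∈ WT k p v Γ (X j), Lm v (STs k p v Γ X β (j + 1)) (y - g') := by
  induction j, hj using Nat.le_induction with
  | base => exact ⟨g, hg, h⟩
  | succ j _ ih =>
    obtain ⟨g', h1, h2⟩ := ih
    obtain ⟨m, X', q, h4, -, h6⟩ := Lm_STs_split h0 hr hX hv hΓ hβ h2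
    refine ⟨g' + aeval (X' (j + 1)) q, add_mem (WT_mono hr hX hdiv (Nat.le_succ j) h1) ?_, ?_⟩
    · have h8 := RS.mem (k := k) (h4.shift hX hdiv (j + 1))
      simp only [add_zero] at h8
      exact PF.aeval_mem_field h8
    · rwa [← sub_sub]

/-- One near element. -/
theorem nearB_of_ge (hr : ∀ n, X (n + 1) ^ p = X n) (hX : X 0 ≠ 0) (hΓ : v (X 0) ∈ Γ)
    (hg : g ∈ WT k p v Γ (X j)) (h : v.Ge (β * v (X (j + 1))) (y - g)) :
    NearB p v (WT k p v Γ (X 0)) 0 j (β * -v (X 0)) y := fun ε hε => by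
  refine ⟨g, pow_mem_WT hr hX hΓ hg, h.mono ?_⟩
  rw [val_rt hr hX (j + 1)]
  have : 0 - β * -v (X 0) / (p : ℝ) ^ (j + 1) = β * (v (X 0) / (p : ℝ) ^ (j + 1)) := by ring
  linarith

/-- **Letters of exponents `≤ β` at the positions `> j`.** -/
theorem nearB_of_Lm (h0 : Ctx0 k v) (hr : ∀ n, X (n + 1) ^ p = X n) (hX : X 0 ≠ 0)
    (hv : v (X 0) < 0) (hΓ : v (X 0) ∈ Γ) (hβ : 0 ≤ β) (hg : g ∈ WT k p v Γ (X j))
    (h : Lm v (ST k p v Γ X β (j + 1)) (y - g)) :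
    NearB p v (WT k p v Γ (X 0)) 0 j (β * -v (X 0)) y :=
  nearB_of_ge hr hX hΓ hg (Lm_ST_ge h0 hr hX hv hβ h)

/-- **Letters of exponents `< β` at the positions `> j`.** -/
theorem nearB_lt_of_Lm (h0 : Ctx0 k v) (hr : ∀ n, X (n + 1) ^ p = X n) (hX : X 0 ≠ 0)
    (hv : v (X 0) < 0) (hΓ : v (X 0) ∈ Γ) (hβ : 0 < β) (hg : g ∈ WT k p v Γ (X j))
    (h : Lm v (STs k p v Γ X β (j + 1)) (y - g)) :
    ∃ β' < β, 0 < β' ∧ NearB p v (WT k p v Γ (X 0)) 0 j (β' * -v (X 0)) y := by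
  have hvj : v (X (j + 1)) < 0 := by
    rw [val_rt hr hX]
    exact div_neg_of_neg_of_pos hv (p_ps p _)
  obtain ⟨s, hs, h1⟩ := h (β / 2 * -v (X (j + 1))) (mul_pos (by linarith) (by linarith))
  obtain ⟨β', h2, h3, h4⟩ := exists_ge_STs h0 hr hX hv hΓ hβ hs
  refine ⟨max β' (β / 2), max_lt h2 (by linarith), lt_max_of_lt_right (by linarith),
    nearB_of_ge hr hX hΓ hg ?_⟩
  have e : y - g = (y - g - s) + s := by ring
  rw [e]
  refine (h1.mono ?_).add (h4.mono ?_)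
  · have := mul_le_mul_of_nonpos_right (le_max_right β' (β / 2)) hvj.le
    linarith
  · exact mul_le_mul_of_nonpos_right (le_max_left _ _) hvj.le

/-! ### From the gaps to the letters -/

/-- **The gaps bound the letters.** -/
theorem Lm_of_nearB (h0 : Ctx0 k v) (hr : ∀ n, X (n + 1) ^ p = X n) (hX : X 0 ≠ 0)
    (hv : v (X 0) < 0) (hΓ : v (X 0) ∈ Γ) (hdiv : ∀ g ∈ Γ, g / p ∈ Γ) (hβ : 0 < β)
    (hl : Lm v (STs k p v Γ X B 1) y)
    (hn : ∀ j, e ≤ j → NearB p v (WT k p v Γ (X 0)) 0 j (β * -v (X 0)) y) :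
    ∃ g ∈ WT k p v Γ (X e), g ∈ STs k p v Γ X B 1 ∧ Lm v (ST k p v Γ X β (e + 1)) (y - g) := by
  classical
  have hvn : ∀ n, v (X n) < 0 := fun n => by
    rw [val_rt hr hX]
    exact div_neg_of_neg_of_pos hv (p_ps p _)
  set T : ℝ → Prop := fun ρ => ∃ n, 1 ≤ n ∧ Psn p n ρ ∧ ρ * (p : ℝ) ^ n < B with hT
  set A₁ : ℝ → Prop := fun ρ => Psn p e ρ ∧ β < ρ * (p : ℝ) ^ (e + 1) with hA₁
  set A₂ : ℝ → Prop := fun ρ => ∃ n, e + 1 ≤ n ∧ Psn p n ρ ∧ ρ * (p : ℝ) ^ n ≤ β with hA₂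
  set ε₀ : ℝ := -(β * v (X (e + 1))) with hε₀
  have hε₀0 : 0 < ε₀ := by
    have := mul_neg_of_pos_of_neg hβ (hvn (e + 1))
    linarith
  obtain ⟨s₀, hs₀, hy₀⟩ := hl ε₀ hε₀0
  obtain ⟨h, hh, r₀, hr₀, hs₀'⟩ := LA_split A₁ (STs_le_LA hs₀)
  have hhP : h ∈ LA k p v Γ X (Psn p e) := LA_mono (fun ρ h1 => h1.2.1) hh
  have hhe : h ∈ WT k p v Γ (X e) := SL_le_WT hr hX hdiv (LA_le_SL hhP)
  refine ⟨h, hhe, LA_le_STs (LA_mono (fun ρ h1 => h1.1) hh), fun ε hε => ?_⟩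
  set ε' := min ε ε₀ with hε'
  have hε'0 : 0 < ε' := lt_min hε hε₀0
  obtain ⟨s, hs, hy⟩ := hl ε' hε'0
  have hsh : s - h ∈ LA k p v Γ X T :=
    sub_mem (STs_le_LA hs) (LA_mono (fun ρ h1 => h1.1) hh)
  obtain ⟨s₁, hs₁, s₄, hs₄, he₁⟩ := LA_split A₁ hsh
  -- `s₁ = 0`
  have hs₁0 : s₁ = 0 := by
    obtain ⟨m, X', N, P, hX', rfl, hP⟩ := LA_level hr hX hΓ hs₁
    by_contra hne
    have hP0 : P ≠ 0 := by
      rintro rfl
      exact hne (map_zero _)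
    have hlead : P.coeff P.natDegree ≠ 0 := by
      rw [coeff_natDegree]
      exact leadingCoeff_ne_zero.2 hP0
    have hge : v.Ge (-ε₀) (aeval (X' N) P + (s₄ - r₀)) := by
      have e1 : aeval (X' N) P + (s₄ - r₀) = (y - s₀) - (y - s) := by
        linear_combination he₁ - hs₀'
      rw [e1]
      exact hy₀.sub (hy.mono (by linarith [min_le_right ε ε₀]))
    obtain ⟨-, h2, h3⟩ := hP _ hlead
    have h1 := LA_coeff (A' := fun ρ => ¬ A₁ ρ) h0 hr hX hv hΓ hX'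
      (sub_mem (LA_mono (fun ρ h1 => h1.2) hs₄) (LA_mono (fun ρ h1 => h1.2) hr₀)) hge hlead
      (fun h4 => h4 ⟨h2, h3⟩)
    set ρ := (P.natDegree : ℝ) / (m * (p : ℝ) ^ N) with hρ
    have hpe := p_ps p (e + 1)
    rw [hε₀, neg_neg, val_rt hr hX (e + 1)] at h1
    have h4 : ρ * v (X 0) < β * (v (X 0) / (p : ℝ) ^ (e + 1)) := by
      have h5 : β / (p : ℝ) ^ (e + 1) < ρ := by
        rw [div_lt_iff₀ hpe]
        exact h3
      have h6 := mul_lt_mul_of_neg_right h5 hv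
      have e2 : β * (v (X 0) / (p : ℝ) ^ (e + 1)) = β / (p : ℝ) ^ (e + 1) * v (X 0) := by ring
      rw [e2]
      exact h6
    linarith
  rw [hs₁0, zero_add] at he₁
  obtain ⟨s₂, hs₂, s₃, hs₃, he₂⟩ := LA_split A₂ hs₄
  -- `s₃` is small
  have hs₃' : v.Ge (-ε') s₃ := by
    obtain ⟨m, X', N, P, hX', rfl, hP⟩ := LA_level hr hX hΓ hs₃
    rw [aeval_eq_sum_range]
    refine RVal.Ge.sum _ _ fun l _ => ?_
    by_cases hl0 : P.coeff l = 0
    · rw [hl0, zero_smul]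
      exact RVal.Ge.zero
    obtain ⟨⟨⟨n₀, -, hn₀, -⟩, h2⟩, h3⟩ := hP l hl0
    set ρ := (l : ℝ) / (m * (p : ℝ) ^ N) with hρ
    have hnot : ∀ n, e + 1 ≤ n → Psn p n ρ → β < ρ * (p : ℝ) ^ n := fun n h4 h5 => by
      by_contra h6
      exact h3 ⟨n, h4, h5, not_lt.1 h6⟩
    have hPe : ¬ Psn p e ρ := fun h4 => h2 ⟨h4, hnot _ le_rfl h4.succ⟩
    have hex : ∃ n, Psn p n ρ := ⟨n₀, hn₀⟩
    obtain ⟨j, hj⟩ : ∃ j, Nat.find hex = j + 1 := by
      refine ⟨Nat.find hex - 1, ?_⟩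
      have h4 : Nat.find hex ≠ 0 := fun h4 => by
        have h5 := Nat.find_spec hex
        rw [h4] at h5
        exact hPe (h5.mono (Nat.zero_le _))
      omega
    have hj1 : Psn p (j + 1) ρ := by
      have h4 := Nat.find_spec hex
      rwa [hj] at h4
    have hj2 : ¬ Psn p j ρ := Nat.find_min hex (by omega)
    have hej : e ≤ j := by
      by_contra h4
      exact hPe (hj1.mono (by omega))
    have hlt := hnot (j + 1) (by omega) hj1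
    -- the gap at `j`
    have hρv : ρ * v (X 0) < β * v (X (j + 1)) := by
      have hpj := p_ps p (j + 1)
      have h5 : β / (p : ℝ) ^ (j + 1) < ρ := by
        rw [div_lt_iff₀ hpj]
        exact hlt
      have h6 := mul_lt_mul_of_neg_right h5 hv
      rw [val_rt hr hX (j + 1)]
      have e2 : β * (v (X 0) / (p : ℝ) ^ (j + 1)) = β / (p : ℝ) ^ (j + 1) * v (X 0) := by ring
      rw [e2]
      exact h6
    set δ := (β * v (X (j + 1)) - ρ * v (X 0)) / 2 with hδ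
    have hδ0 : 0 < δ := by
      rw [hδ]
      linarith
    obtain ⟨a, ha, h4⟩ := hn j hej δ hδ0
    obtain ⟨t, ht, h5⟩ := WT_near_SL h0 hr hX hv hΓ hdiv (root_mem_WT hr hX hdiv ha)
    have e3 : 0 - β * -v (X 0) / (p : ℝ) ^ (j + 1) - δ = β * v (X (j + 1)) - δ := by
      rw [val_rt hr hX (j + 1)]
      ring
    rw [e3] at h4
    have hvj := mul_neg_of_pos_of_neg hβ (hvn (j + 1))
    have hge : v.Ge (min (-ε') (β * v (X (j + 1)) - δ)) (aeval (X' N) P + (s₂ + (h - t))) := by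
      have e4 : aeval (X' N) P + (s₂ + (h - t)) = (y - a) + (a - t) - (y - s) := by
        linear_combination he₁ + he₂
      rw [e4]
      refine ((h4.mono (min_le_right _ _)).add (h5.mono ?_)).sub (hy.mono (min_le_left _ _))
      exact (min_le_left _ _).trans (by linarith)
    have h6 := LA_coeff (A' := fun ρ => A₂ ρ ∨ Psn p j ρ) h0 hr hX hv hΓ hX'
      (add_mem (LA_mono (fun ρ h1 => Or.inl h1.2) hs₂) (sub_mem
        (LA_mono (fun ρ h1 => Or.inr (h1.mono hej)) hhP)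
        (LA_mono (fun ρ h1 => Or.inr h1) (SL_le_LA ht)))) hge hl0
      (fun h7 => h7.elim h3 hj2)
    have h7 : -ε' ≤ ρ * v (X 0) := by
      rcases le_total (-ε') (β * v (X (j + 1)) - δ) with h8 | h8
      · rwa [min_eq_left h8] at h6
      · rw [min_eq_right h8] at h6
        exfalso
        rw [hδ] at h6
        linarith
    rw [Algebra.smul_def]
    have h8 := (h0.ge (P.coeff l)).mul (ge_pow (v.ge_self (X' N)) l)
    refine h8.mono ?_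
    rw [zero_add, hX'.val_eq hX, val_rt hr hX N]
    have e5 : (l : ℝ) * (v (X 0) / (p : ℝ) ^ N / m) = ρ * v (X 0) := by
      rw [hρ]
      have := hX'.mc.ne'
      have := (p_ps p N).ne'
      field_simp
    rw [e5]
    exact h7
  refine ⟨s₂, LA_le_ST (LA_mono (fun ρ h1 => h1.2) hs₂), ?_⟩
  have e6 : y - h - s₂ = (y - s) + s₃ := by
    linear_combination -he₁ - he₂
  rw [e6]
  exact (hy.add hs₃').mono (by linarith [min_le_left ε ε₀])

end Pool.Agent.TWC.PW
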