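import Pool.Agent.Lib.TWC.PWh0

/-!
# TANK W, class C, letters over a tame base: the homogeneous loop

The loop of `PWt`, all data eigenvectors of an isometric embedding `σ` with `σ ^ N = id` on `C`,
`N` prime to `p`.
-/

set_option autoImplicit false
set_option linter.unusedSectionVars false

open Polynomial

namespace Pool.Agent.TWC.PW

open Pool.Agent.H15JM (RVal)
open Pool.Agent.D2 (Ctx0)
open Pool.Agent.D2P (clI mem_clI)
open Pool.Agent.TWM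
open Pool.Agent.TWS
open Pool.Agent.TWCT
open Pool.Agent.TWC.PF (Lm SW SA)

universe u

variable {k Ω : Type u} [Field k] [Field Ω] [Algebra k Ω] {v : RVal Ω} {Γ : AddSubgroup ℝ}
  {p : ℕ} [hp : Fact p.Prime] [CharP k p] [CharP Ω p] [IsAlgClosed k] [IsAlgClosed Ω]
  {C C' : IntermediateField k Ω} {X X' T : ℕ → Ω} {x y y' f g a : Ω} {b b' m n e j N : ℕ}
  {B β : ℝ} {σ : Ω →ₐ[k] Ω} {κ ξ : k}

/-! ### Eigenvectors -/

/-- The eigenvectors of `σ`. -/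
def Eig (σ : Ω →ₐ[k] Ω) (x : Ω) : Prop := ∃ ξ : k, σ x = algebraMap k Ω ξ * x

omit [IsAlgClosed Ω] [IsAlgClosed k] hp [CharP k p] [CharP Ω p] in
theorem eig_ne (hx : x ≠ 0) (h : σ x = algebraMap k Ω ξ * x) : ξ ≠ 0 := by
  rintro rfl
  rw [map_zero, zero_mul] at h
  exact hx ((map_eq_zero σ).1 h)

omit [IsAlgClosed Ω] hp [CharP k p] [CharP Ω p] in
theorem Eig.root (h : Eig σ x) (hx : x ≠ 0) (hm : m ≠ 0) (hf : f ^ m = x) : Eig σ f := by
  obtain ⟨ξ, hξ⟩ := h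
  have hξ0 := eig_ne hx hξ
  have hf0 : f ≠ 0 := by
    rintro rfl
    rw [zero_pow hm] at hf
    exact hx hf.symm
  obtain ⟨c, hc⟩ := IsAlgClosed.exists_pow_nat_eq ξ (Nat.pos_of_ne_zero hm)
  have hc0 : c ≠ 0 := by
    rintro rfl
    rw [zero_pow hm] at hc
    exact hξ0 hc.symm
  obtain ⟨d, -, hd⟩ := mul_of_pow k hm (a := σ f) (b := algebraMap k Ω c * f)
    (fun h => hf0 ((map_eq_zero σ).1 h))
    (mul_ne_zero (fun h => hc0 ((map_eq_zero (algebraMap k Ω)).1 h)) hf0)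
    (by rw [← map_pow, hf, mul_pow, hf, ← map_pow, hc, hξ])
  exact ⟨d * c, by rw [hd, map_mul]; ring⟩

omit [IsAlgClosed Ω] [CharP k p] [CharP Ω p] in
theorem Eig.sys (hr : ∀ n, X (n + 1) ^ p = X n) (hX : X 0 ≠ 0) (h : Eig σ (X 0)) (n : ℕ) :
    Eig σ (X n) :=
  h.root hX (pow_ne_zero n hp.out.ne_zero) (sys_pow hr n)

omit [IsAlgClosed Ω] [CharP k p] [CharP Ω p] in
theorem Eig.rs (hr : ∀ n, X (n + 1) ^ p = X n) (hX : X 0 ≠ 0) (h : Eig σ (X 0))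
    (hX' : RS p v Γ X m X') (n : ℕ) : Eig σ (X' n) :=
  (h.sys hr hX n).root (rt_ne hr hX n) hX'.n_ne (hX'.pow n)

omit [IsAlgClosed Ω] [CharP k p] [CharP Ω p] in
theorem ST_sig (hr : ∀ n, X (n + 1) ^ p = X n) (hX : X 0 ≠ 0) (h : Eig σ (X 0)) :
    ∀ s ∈ ST k p v Γ X B j, σ s ∈ ST k p v Γ X B j := by
  intro s hs
  induction hs using Submodule.span_induction with
  | mem g hg =>
    obtain ⟨m, X', n, i, hX', hn, hi, rfl⟩ := hg
    obtain ⟨ξ, hξ⟩ := h.rs hr hX hX' n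
    rw [ev_pow hξ, ← Algebra.smul_def]
    exact Submodule.smul_mem _ _ (Submodule.subset_span ⟨m, X', n, i, hX', hn, hi, rfl⟩)
  | zero => rw [map_zero]; exact zero_mem _
  | add x z _ _ hx hz => rw [map_add]; exact add_mem hx hz
  | smul c x _ hx => rw [map_smul]; exact Submodule.smul_mem _ _ hx

omit [IsAlgClosed Ω] [CharP k p] [CharP Ω p] in
theorem STs_sig (hr : ∀ n, X (n + 1) ^ p = X n) (hX : X 0 ≠ 0) (h : Eig σ (X 0)) :
    ∀ s ∈ STs k p v Γ X B j, σ s ∈ STs k p v Γ X B j := by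
  intro s hs
  induction hs using Submodule.span_induction with
  | mem g hg =>
    obtain ⟨m, X', n, i, hX', hn, hi, rfl⟩ := hg
    obtain ⟨ξ, hξ⟩ := h.rs hr hX hX' n
    rw [ev_pow hξ, ← Algebra.smul_def]
    exact Submodule.smul_mem _ _ (Submodule.subset_span ⟨m, X', n, i, hX', hn, hi, rfl⟩)
  | zero => rw [map_zero]; exact zero_mem _
  | add x z _ _ hx hz => rw [map_add]; exact add_mem hx hz
  | smul c x _ hx => rw [map_smul]; exact Submodule.smul_mem _ _ hx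

omit [IsAlgClosed Ω] hp [CharP k p] [CharP Ω p] in
theorem WT_sig (hσ : IsoE v v σ) (hx : x ≠ 0) (h : Eig σ x) :
    ∀ a ∈ WT k p v Γ x, σ a ∈ WT k p v Γ x := by
  refine map_clI_le hσ (cld_clI v _) fun a ha => ?_
  have h1 : σ a ∈ (IntermediateField.adjoin k {f | ∃ m : ℕ, ¬ p ∣ m ∧ f ^ m = x ∧ v f ∈ Γ}).map σ :=
    ⟨a, ha, rfl⟩
  rw [IntermediateField.adjoin_map] at h1
  refine (IntermediateField.adjoin_le_iff.2 ?_) h1
  rintro _ ⟨f, ⟨m, hm, hf, hv⟩, rfl⟩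
  have hm0 : m ≠ 0 := by
    rintro rfl
    exact hm (dvd_zero p)
  obtain ⟨ξ, hξ⟩ := h.root hx hm0 hf
  rw [SetLike.mem_coe, hξ]
  exact mul_mem (IntermediateField.algebraMap_mem _ _) (mem_WT hm hf hv)

/-- The data are eigenvectors of `σ`, and `σ ^ N` is the identity on `C`. -/
structure Hg (σ : Ω →ₐ[k] Ω) (N : ℕ) (C : IntermediateField k Ω) (X : ℕ → Ω) (y : Ω) : Prop where
  fix : ∀ a ∈ C, (σ ^ N) a = a
  eX : Eig σ (X 0)
  ey : Eig σ y

omit [IsAlgClosed Ω] [IsAlgClosed k] [CharP k p] in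
theorem fix_up (h : ∀ a ∈ C, (σ ^ N) a = a) {e : ℕ} (ha : a ^ p ^ e ∈ C) : (σ ^ N) a = a := by
  have h1 : ((σ ^ N) a - a) ^ p ^ e = 0 := by
    rw [sub_pow_char_pow, ← map_pow, h _ ha, sub_self]
  exact sub_eq_zero.1 (pow_eq_zero_iff (pow_ne_zero e hp.out.ne_zero) |>.1 h1)

omit [IsAlgClosed Ω] [IsAlgClosed k] hp [CharP k p] [CharP Ω p] in
theorem ev_one (ha : a ≠ 0) (hf : (σ ^ N) a = a) (h : σ a = algebraMap k Ω ξ * a) :
    ξ ^ N = 1 := by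
  rw [pow_ev h] at hf
  have h1 : algebraMap k Ω (ξ ^ N) = 1 := mul_right_cancel₀ ha (by rw [hf, one_mul])
  exact (algebraMap k Ω).injective (h1.trans (map_one _).symm)

omit [IsAlgClosed Ω] [IsAlgClosed k] [CharP k p] in
/-- The letters are radical over `WT(X 0)`. -/
theorem ST_pow_mem (h : a ∈ ST k p v Γ X B j) : ∃ e : ℕ, a ^ p ^ e ∈ WT k p v Γ (X 0) := by
  induction h using Submodule.span_induction with
  | mem s hs =>
    obtain ⟨m, X', n, i, hX', hn, hi, rfl⟩ := hs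
    refine ⟨n, ?_⟩
    rw [← pow_mul, mul_comm i, pow_mul, sys_pow hX'.root n]
    exact pow_mem hX'.mem i
  | zero => exact ⟨0, by rw [pow_zero, pow_one]; exact zero_mem _⟩
  | add s t _ _ hs ht =>
    obtain ⟨e₁, h8⟩ := hs
    obtain ⟨e₂, h9⟩ := ht
    refine ⟨e₁ + e₂, ?_⟩
    rw [add_pow_char_pow]
    refine add_mem ?_ ?_
    · rw [pow_add, pow_mul]
      exact pow_mem h8 _
    · rw [add_comm, pow_add, pow_mul]
      exact pow_mem h9 _
  | smul c s _ hs =>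
    obtain ⟨e₁, h8⟩ := hs
    refine ⟨e₁, ?_⟩
    rw [Algebra.smul_def, mul_pow]
    exact mul_mem (pow_mem (IntermediateField.algebraMap_mem _ _) _) h8

/-! ### The first top letter -/

/-- **The first top letter**, homogeneous. -/
theorem first_topT_h (h0 : Ctx0 k v) (hσ : IsoE v v σ) (hN : (N : k) ≠ 0)
    (hP : PRT p v Γ C X y (b + 1)) (hb : ¬ p ∣ b + 1) (hy0 : y ≠ 0) (hH : Hg σ N C X y) :
    Lm v (STs k p v Γ X (b + 1) 1) y ∨
      ∃ (e m : ℕ) (X' : ℕ → Ω) (g : Ω) (q : Polynomial k) (ξ κ : k), RS p v Γ X m X' ∧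
        g ∈ WT k p v Γ (X e) ∧ g ∈ STs k p v Γ X (b + 1) 1 ∧ q.natDegree = m * (b + 1) ∧
        Lm v (ST k p v Γ X (b + 1) (e + 2)) (y - g - aeval (X' (e + 1)) q) ∧
        σ y = algebraMap k Ω κ * y ∧ σ g = algebraMap k Ω κ * g ∧
        σ (X' (e + 1)) = algebraMap k Ω ξ * X' (e + 1) ∧ Hq ξ κ q := by
  have hr := hP.root
  have hX := hP.ne
  have hv := hP.neg
  rcases first_topT h0 hr hX hv hP.val hP.div hP.ltr with h | ⟨e, m, X', g, q, h1, h2, h3, h4, h5⟩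
  · exact .inl h
  refine .inr ?_
  have hN' : N ≠ 0 := by
    rintro rfl
    exact hN Nat.cast_zero
  obtain ⟨κ, hκ⟩ := hH.ey
  obtain ⟨ξ, hξ⟩ := hH.eX.rs hr hX h1 (e + 1)
  have hκN : κ ^ N = 1 := ev_one hy0 (hH.fix y hP.memY) hκ
  have hκ0 : κ ≠ 0 := eig_ne hy0 hκ
  have hX'0 : X' (e + 1) ≠ 0 := h1.ne hX (e + 1)
  have hX'C : X' (e + 1) ^ p ^ (e + 1) ∈ C := by
    rw [sys_pow h1.root (e + 1)]
    exact hP.WT_le h1.mem
  have hξN : ξ ^ N = 1 := ev_one hX'0 (fix_up hH.fix hX'C) hξ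
  have hXe : X e ≠ 0 := rt_ne hr hX e
  -- the projections
  have hst : ∀ s ∈ WT k p v Γ (X e), σ s ∈ WT k p v Γ (X e) := WT_sig hσ hXe (hH.eX.sys hr hX e)
  have hgf : (σ ^ N) g = g := by
    obtain ⟨e', h8⟩ := ST_pow_mem (STs_le_ST h3)
    exact fix_up hH.fix (hP.WT_le h8)
  have hyy : prj σ N κ y = y := prj_self hN hκ0 hκ
  have hq' := prj_aeval hκN hN hξN hξ q
  have h6 : Lm v (ST k p v Γ X (b + 1) (e + 2))
      (y - prj σ N κ g - aeval (X' (e + 1)) (flt ξ κ q)) := by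
    have h7 := lm_prj (N := N) (κ := κ) h0 hσ (ST_sig hr hX hH.eX) h5
    rwa [map_sub, map_sub, hyy, hq'] at h7
  refine ⟨e, m, X', prj σ N κ g, flt ξ κ q, ξ, κ, h1, prj_mem' hst h2,
    prj_mem (STs_sig hr hX hH.eX) h3, ?_, h6, hκ, prj_ev hκN hN' hgf, hξ, hq_flt q⟩
  -- the degree
  refine le_antisymm ((flt_natDegree q).trans h4.le) ?_
  by_contra hlt
  push Not at hlt
  have hB0 : (0 : ℝ) ≤ (b : ℝ) + 1 := by positivity
  set d : k[X] := q - flt ξ κ q with hd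
  have hdn : d.natDegree = m * (b + 1) := by
    rw [hd, natDegree_sub_eq_left_of_natDegree_lt (by rw [h4]; exact hlt), h4]
  have hd0 : d ≠ 0 := by
    rintro h7
    rw [h7, natDegree_zero] at hdn
    have := Nat.mul_pos h1.npos (Nat.succ_pos b)
    omega
  have h7 : v.Ge ((b + 1) * v (X (e + 2))) ((g - prj σ N κ g) + aeval (X' (e + 1)) d) := by
    have h8 := Lm_ST_ge h0 hr hX hv hB0 (h6.sub h5)
    have e1 : y - prj σ N κ g - aeval (X' (e + 1)) (flt ξ κ q) - (y - g - aeval (X' (e + 1)) q) =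
        (g - prj σ N κ g) + aeval (X' (e + 1)) d := by
      rw [hd, map_sub]
      ring
    rwa [e1] at h8
  obtain ⟨h8, h9⟩ := kpp_val h0 hX'0 (by
    have h10 := h1.val_mul hX (e + 1)
    have h11 := rt_neg hr hX hv (e + 1)
    rw [← h10] at h11
    by_contra h12
    exact absurd h11 (not_lt.2 (mul_nonneg (Nat.cast_nonneg _) (not_lt.1 h12)))) hd0
  have h10 : v (aeval (X' (e + 1)) d) = (b + 1) * v (X (e + 1)) := by
    rw [h9, hdn, ← h1.val_mul hX (e + 1)]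
    push_cast
    ring
  have h12 : v (X (e + 1)) < v (X (e + 2)) := by
    have h13 := rt_neg hr hX hv (e + 2)
    have h14 : v (X (e + 1)) = p * v (X (e + 2)) := by
      rw [← hr (e + 1), v.map_pow (rt_ne hr hX (e + 2))]
    rw [h14]
    have hp1 : (1 : ℝ) < p := by exact_mod_cast hp.out.one_lt
    nlinarith
  have hB : (0 : ℝ) < (b : ℝ) + 1 := by positivity
  have h13 : Gt v (v (aeval (X' (e + 1)) d)) ((g - prj σ N κ g) + aeval (X' (e + 1)) d) :=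
    Gt.of_ge h7 (by
      rw [h10]
      exact mul_lt_mul_of_pos_left h12 hB)
  obtain ⟨h14, h15⟩ := Gt.val_eq (v := v) (y := -(g - prj σ N κ g)) h8 (by
    have e1 : aeval (X' (e + 1)) d - -(g - prj σ N κ g) =
        (g - prj σ N κ g) + aeval (X' (e + 1)) d := by ring
    rw [e1]
    exact h13)
  have h16 : -(g - prj σ N κ g) ∈ WT k p v Γ (X e) := neg_mem (sub_mem h2 (prj_mem' hst h2))
  obtain ⟨l, hl, z, hz⟩ := WT_val (X := fun n => X (e + n)) h0 (fun n => hr (e + n))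
    (rt_ne hr hX _) (rt_neg hr hX hv _) (by
      rw [add_zero, val_rt hr hX]
      exact div_pow_mem hP.div hP.val e) h16 h14
  rw [h15, h10] at hz
  have h17 : v (X (e + 0)) = p * v (X (e + 1)) := by
    rw [add_zero, ← hr e, v.map_pow (rt_ne hr hX (e + 1))]
  rw [h17] at hz
  have h18 : v (X (e + 1)) ≠ 0 := (rt_neg hr hX hv (e + 1)).ne
  have h19 : ((l : ℝ) * (b + 1)) = z * p := by
    refine mul_right_cancel₀ h18 ?_
    linear_combination hz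
  have h20 : ((l * (b + 1) : ℕ) : ℤ) = z * p := by exact_mod_cast h19
  have h21 : (p : ℤ) ∣ ((l * (b + 1) : ℕ) : ℤ) := ⟨z, by rw [h20]; ring⟩
  have h22 : p ∣ l * (b + 1) := by exact_mod_cast h21
  rcases (Nat.Prime.dvd_mul hp.out).1 h22 with h23 | h23
  exacts [hl h23, hb h23]

/-! ### The change of coordinates -/

/-- `y` may be replaced by its component: `y - a`, `a` in the tame base. -/
theorem PRT.prj (h0 : Ctx0 k v) (hσ : IsoE v v σ) (hN : (N : k) ≠ 0) {B₀ : ℝ}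
    (hP : PRT p v Γ C X (y - a) B₀) (hWC : WT k p v Γ (X 0) ≤ C) (hfix : ∀ a ∈ C, (σ ^ N) a = a)
    (hyC : y ∈ C) (hy0 : y ≠ 0) (ha : a ∈ WT k p v Γ (X 0)) (hX : Eig σ (X 0))
    (hy : σ y = algebraMap k Ω κ * y) :
    PW.prj σ N κ a ∈ WT k p v Γ (X 0) ∧ PRT p v Γ C X (y - PW.prj σ N κ a) B₀ ∧
      Hg σ N C X (y - PW.prj σ N κ a) := by
  have hN' : N ≠ 0 := by
    rintro rfl
    exact hN Nat.cast_zero
  have hκN : κ ^ N = 1 := ev_one hy0 (hfix y hyC) hy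
  have hκ0 : κ ≠ 0 := eig_ne hy0 hy
  have h1 : PW.prj σ N κ a ∈ WT k p v Γ (X 0) := prj_mem' (WT_sig hσ hP.ne hX) ha
  have h2 : PRT p v Γ C X (y - PW.prj σ N κ a) B₀ := by
    have h3 := hP.sub (g := PW.prj σ N κ a - a) (B' := B₀) (sub_mem h1 ha) (by
      have h4 := lm_prj (N := N) (κ := κ) h0 hσ (ST_sig hP.root hP.ne hX) hP.ltr
      rw [map_sub, prj_self hN hκ0 hy] at h4
      have e1 : y - a - (PW.prj σ N κ a - a) = y - PW.prj σ N κ a := by ring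
      rwa [e1])
    have e1 : y - a - (PW.prj σ N κ a - a) = y - PW.prj σ N κ a := by ring
    rwa [e1] at h3
  refine ⟨h1, h2, hfix, hX, κ, ?_⟩
  rw [map_sub, hy, prj_ev hκN hN' (hfix a (hWC ha))]
  ring

/-- **The change of coordinates**, homogeneous. -/
theorem PRT.tz_h (h0 : Ctx0 k v) (hc : CompleteV v) (hσ : IsoE v v σ) (hN : (N : k) ≠ 0)
    (hP : PRT p v Γ C X y (b + 1)) (hb : ¬ p ∣ b + 1) (hy0 : y ≠ 0) (hH : Hg σ N C X y)
    {q : Polynomial k} (hq : q.natDegree = b + 1)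
    (hy : Lm v (ST k p v Γ X (b + 1) 2) (y - aeval (X 1) q))
    (hκ : σ y = algebraMap k Ω κ * y) (hξ : σ (X 1) = algebraMap k Ω ξ * X 1) (hqh : Hq ξ κ q) :
    ∃ (T : ℕ → Ω) (m : ℕ) (T' : ℕ → Ω) (q₀ : Polynomial k), (∀ n, T (n + 1) ^ p = T n) ∧ T 0 ∈ C ∧
      aeval (T 0) q = y ∧ v.Ge ((b + 1 : ℕ) * v (X 2) - b * v (X 1)) (T 0 - X 1) ∧
      RS p v Γ T m T' ∧ q₀.natDegree ≤ m * (b + 1) ∧
      PRT p v Γ C T (y ^ p - aeval (X 0) (q.map (frobenius k p)) - aeval (T' 0) q₀) (b + 1) ∧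
      (∀ n, InST p v Γ C T b n → InST p v Γ C X b (n + 1)) ∧
      Hg σ N C T (y ^ p - aeval (X 0) (q.map (frobenius k p)) - aeval (T' 0) q₀) := by
  obtain ⟨T, m, T', q₀, hT, hTC, ht, ht1, hT', hq₀, hP', hI⟩ := hP.tz h0 hc hb hq hy
  have hr := hP.root
  have hX := hP.ne
  have hv := hP.neg
  have hN' : N ≠ 0 := by
    rintro rfl
    exact hN Nat.cast_zero
  have hκN : κ ^ N = 1 := ev_one hy0 (hH.fix y hP.memY) hκ
  have hκ0 : κ ≠ 0 := eig_ne hy0 hκ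
  have hX1 : X 1 ≠ 0 := rt_ne hr hX 1
  have hξ0 : ξ ≠ 0 := eig_ne hX1 hξ
  have hn1 : v (X 1) < 0 := rt_neg hr hX hv 1
  have hn2 : v (X 2) < 0 := rt_neg hr hX hv 2
  have hv2 : v (X 1) = p * v (X 2) := by rw [← hr 1, v.map_pow (rt_ne hr hX 2)]
  have hp0 : (0 : ℝ) < p := by exact_mod_cast hp.out.pos
  have hp1 : (1 : ℝ) < p := by exact_mod_cast hp.out.one_lt
  have hlt : v (X 1) < (b + 1 : ℕ) * v (X 2) - b * v (X 1) := by
    rw [hv2]
    push_cast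
    nlinarith [mul_pos (sub_pos.2 hp1) (neg_pos.2 hn2), mul_nonneg (Nat.cast_nonneg (α := ℝ) b)
      (mul_pos (sub_pos.2 hp1) (neg_pos.2 hn2)).le]
  have hgt : Gt v (v (X 1)) (T 0 - X 1) := Gt.of_ge ht1 hlt
  obtain ⟨hT0, hTv⟩ := Gt.val_eq (y := T 0) hX1 (by
    have h1 := hgt.neg
    rwa [neg_sub] at h1)
  have hTneg : v (T 0) < 0 := by rw [hTv]; exact hn1
  -- `T 0` is an eigenvector
  have hξk : algebraMap k Ω ξ ≠ 0 := fun h => hξ0 ((map_eq_zero (algebraMap k Ω)).1 h)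
  have hTe : σ (T 0) = algebraMap k Ω ξ * T 0 := by
    set t' : Ω := algebraMap k Ω ξ⁻¹ * σ (T 0) with ht'
    have e1 : algebraMap k Ω ξ * t' = σ (T 0) := by
      rw [ht', ← mul_assoc, ← map_mul, mul_inv_cancel₀ hξ0, map_one, one_mul]
    have h1 : aeval t' q = y := by
      have h2 := hqh.aeval t'
      rw [e1, aeval_algHom_apply, ht, hκ] at h2
      exact (mul_left_cancel₀ (fun h => hκ0 ((map_eq_zero (algebraMap k Ω)).1 h)) h2).symm
    have h2 : Gt v (v (T 0)) (t' - T 0) := by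
      have e2 : t' - T 0 = algebraMap k Ω ξ⁻¹ * σ (T 0 - X 1) - (T 0 - X 1) := by
        have e3 : algebraMap k Ω ξ⁻¹ * algebraMap k Ω ξ = 1 := by
          rw [← map_mul, inv_mul_cancel₀ hξ0, map_one]
        rw [ht', map_sub, hξ]
        linear_combination (X 1) * e3
      rw [e2, hTv]
      refine Gt.sub ?_ hgt
      have h3 : Gt v (v (X 1)) (σ (T 0 - X 1)) := hσ.gt_iff.2 hgt
      intro h4
      have h5 := right_ne_zero_of_mul h4
      have h6 : v (algebraMap k Ω ξ⁻¹) = 0 := h0.triv _ (inv_ne_zero hξ0)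
      rw [v.map_mul (left_ne_zero_of_mul h4) h5, h6, zero_add]
      exact h3 h5
    have hqd : (q.natDegree : k) ≠ 0 := by
      rw [hq]
      intro h3
      exact hb ((CharP.cast_eq_zero_iff k p _).1 h3)
    have h3 : t' - T 0 = 0 := by
      by_contra h4
      have h5 := arg_diff h0 hT0 hTneg h2 hqd
        (c := v (t' - T 0) + ((q.natDegree : ℝ) - 1) * v (T 0) + 1) (by
          rw [h1, ht, sub_self]
          exact RVal.Ge.zero)
      have h6 := h5 h4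
      linarith
    rw [← e1, sub_eq_zero.1 h3]
  -- the position `0`
  have hz : σ (y ^ p - aeval (X 0) (q.map (frobenius k p))) =
      algebraMap k Ω (κ ^ p) * (y ^ p - aeval (X 0) (q.map (frobenius k p))) := by
    have hξ' : σ (X 0) = algebraMap k Ω (ξ ^ p) * X 0 := by
      rw [← hr 0]
      exact ev_pow hξ p
    rw [map_sub, ev_pow hκ p, hqh.map_frob.ev hξ']
    ring
  obtain ⟨ξ', hξ'⟩ := Eig.rs hT hT0 ⟨ξ, hTe⟩ hT' 0
  have hT'C : T' 0 ∈ C := hP'.WT_le hT'.mem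
  have hξ'N : ξ' ^ N = 1 := ev_one (hT'.ne hT0 0) (hH.fix _ hT'C) hξ'
  have hκpN : (κ ^ p) ^ N = 1 := by rw [← pow_mul, mul_comm, pow_mul, hκN, one_pow]
  have hpa := prj_aeval hκpN hN hξ'N hξ' q₀
  have hzC : y ^ p - aeval (X 0) (q.map (frobenius k p)) ∈ C :=
    sub_mem (pow_mem hP.memY p) (PF.aeval_mem_field hP.memX)
  have haT : aeval (T' 0) q₀ ∈ WT k p v Γ (T 0) := PF.aeval_mem_field hT'.mem
  by_cases hz0 : y ^ p - aeval (X 0) (q.map (frobenius k p)) = 0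
  · -- impossible
    exfalso
    have h1 := hP'.tl.far (-(aeval (T' 0) q₀)) (isAlgebraic_algebraMap
      (⟨_, EW.le (neg_mem haT)⟩ : EW v (WT k p v Γ (T 0)) T))
    refine h1.1 ?_
    rw [hz0, zero_sub]
  obtain ⟨h1, h2, h3⟩ := PRT.prj h0 hσ hN hP' hP'.WT_le hH.fix hzC hz0 haT ⟨ξ, hTe⟩ hz
  rw [hpa] at h2 h3
  exact ⟨T, m, T', flt ξ' (κ ^ p) q₀, hT, hTC, ht, ht1, hT', (flt_natDegree q₀).trans hq₀, h2, hI,
    h3⟩

/-! ### The stages -/

omit [CharP k p] in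
theorem PRT.ne_y (hP : PRT p v Γ C X y B) : y ≠ 0 := by
  rintro rfl
  exact (hP.tl.far 0 (isAlgebraic_zero)).1 rfl

/-- **The induction on the number of positions**, homogeneous. -/
theorem stage_aux_h (h0 : Ctx0 k v) (hc : CompleteV v) (hσ : IsoE v v σ) (hN : (N : k) ≠ 0)
    (n : ℕ) :
    ∀ (C : IntermediateField k Ω) (X : ℕ → Ω) (y : Ω) (b : ℕ), PRT p v Γ C X y (b + 1) →
      ¬ p ∣ b + 1 → Hg σ N C X y → ¬ InST p v Γ C X b (n + 1) →
      ∃ (C' : IntermediateField k Ω) (X' : ℕ → Ω) (y' : Ω) (b' : ℕ),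
        Chn p v Γ C X y b C' X' y' b' ∧ Lm v (STs k p v Γ X' (b' + 1) 1) y' ∧
        Hg σ N C' X' y' := by
  induction n with
  | zero =>
    intro C X y b hP hb hH hn
    rcases first_topT_h h0 hσ hN hP hb hP.ne_y hH with
      h1 | ⟨e, m, X', g, q, ξ, κ, hX', hg, hg', hq, hy, -⟩
    · exact ⟨C, X, y, b, .refl _ _ _ _, h1, hH⟩
    · obtain ⟨C', b', hb', h1, h2, h3⟩ := step_top hP hX' hg hg' hq hy
      obtain ⟨-, -, h4, -⟩ := h1.inv hP hb
      exact absurd (h3 _ (InST_one h0 h4.root h4.val h4.memY (hq.trans hb'.symm) h2)) hn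
  | succ n ih =>
    intro C X y b hP hb hH hn
    rcases first_topT_h h0 hσ hN hP hb hP.ne_y hH with
      h1 | ⟨e, m, X', g, q, ξ, κ, hX', hg, hg', hq, hy, hκ, hgκ, hξ, hqh⟩
    · exact ⟨C, X, y, b, .refl _ _ _ _, h1, hH⟩
    · obtain ⟨C', b', hb', h1, h2, h3⟩ := step_top hP hX' hg hg' hq hy
      obtain ⟨-, ⟨e', h10⟩, h4, h5⟩ := h1.inv hP hb
      have hq' := hq.trans hb'.symm
      have hκ' : σ (y - g) = algebraMap k Ω κ * (y - g) := by
        rw [map_sub, hκ, hgκ]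
        ring
      have hH' : Hg σ N C' (fun n => X' (e + n)) (y - g) :=
        ⟨fun a ha => fix_up hH.fix (h10 a ha), hH.eX.rs hP.root hP.ne hX' (e + 0), κ, hκ'⟩
      obtain ⟨T, m', T', q₀, hT, hTC, ht, ht1, hT', hq₀, hP', h6, h11⟩ :=
        h4.tz_h h0 hc hσ hN h5 h4.ne_y hH' hq' h2 hκ' hξ hqh
      obtain ⟨C₂, X₂, y₂, b₂, h7, h8, h9⟩ := ih _ _ _ _ hP' h5 h11 fun h9 => hn (h3 _ (h6 _ h9))
      exact ⟨C₂, X₂, y₂, b₂, h1.trans (.step (.tz q q₀ hq' hTC hT ht ht1 h2 hT' hq₀ hP') h7), h8,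
        h9⟩

/-- **The stage**, homogeneous. -/
theorem stage_h (h0 : Ctx0 k v) (hc : CompleteV v) (hσ : IsoE v v σ) (hN : (N : k) ≠ 0)
    (hP : PRT p v Γ C X y (b + 1)) (hb : ¬ p ∣ b + 1) (hH : Hg σ N C X y) :
    Tgt p v C X (-(b * v (X 0))) ∨
      ∃ (C' : IntermediateField k Ω) (X' : ℕ → Ω) (y' : Ω) (b' : ℕ),
        Chn p v Γ C X y b C' X' y' b' ∧ Lm v (STs k p v Γ X' (b' + 1) 1) y' ∧
        Hg σ N C' X' y' := by
  by_cases hall : ∀ n, 1 ≤ n → InST p v Γ C X b n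
  · exact .inl (tgt_of_allT h0 hP hb hall)
  · push Not at hall
    obtain ⟨n, hn, h1⟩ := hall
    obtain ⟨n, rfl⟩ := Nat.exists_eq_add_of_le' hn
    exact .inr (stage_aux_h h0 hc hσ hN n C X y b hP hb hH h1)

/-- The exponents `≤ β` at the positions `> e`, with an eigenvector `g`. -/
theorem TopLe.hg (h0 : Ctx0 k v) (hσ : IsoE v v σ) (hN : (N : k) ≠ 0)
    (hP : PRT p v Γ C X y B) (hH : Hg σ N C X y) (hκ : σ y = algebraMap k Ω κ * y)
    (h : TopLe k p v Γ X y b β e) :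
    ∃ g ∈ WT k p v Γ (X e), g ∈ STs k p v Γ X (b + 1) 1 ∧
      Lm v (ST k p v Γ X β (e + 1)) (y - g) ∧ σ g = algebraMap k Ω κ * g := by
  obtain ⟨g, h1, h2, h3⟩ := h
  have hN' : N ≠ 0 := by
    rintro rfl
    exact hN Nat.cast_zero
  have hκN : κ ^ N = 1 := ev_one hP.ne_y (hH.fix y hP.memY) hκ
  have hκ0 : κ ≠ 0 := eig_ne hP.ne_y hκ
  have hgf : (σ ^ N) g = g := by
    obtain ⟨e', h8⟩ := ST_pow_mem (STs_le_ST h2)
    exact fix_up hH.fix (hP.WT_le h8)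
  refine ⟨prj σ N κ g, prj_mem' (WT_sig hσ (rt_ne hP.root hP.ne e)
    (hH.eX.sys hP.root hP.ne e)) h1, prj_mem (STs_sig hP.root hP.ne hH.eX) h2, ?_,
    prj_ev hκN hN' hgf⟩
  have h4 := lm_prj (N := N) (κ := κ) h0 hσ (ST_sig hP.root hP.ne hH.eX) h3
  rwa [map_sub, prj_self hN hκ0 hκ] at h4

/-- The exponents `< β` at the positions `> e`, with an eigenvector `g`. -/
theorem TopLt.hg (h0 : Ctx0 k v) (hσ : IsoE v v σ) (hN : (N : k) ≠ 0)
    (hP : PRT p v Γ C X y B) (hH : Hg σ N C X y) (hκ : σ y = algebraMap k Ω κ * y)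
    (h : TopLt k p v Γ X y b β e) :
    ∃ g ∈ WT k p v Γ (X e), g ∈ STs k p v Γ X (b + 1) 1 ∧
      Lm v (STs k p v Γ X β (e + 1)) (y - g) ∧ σ g = algebraMap k Ω κ * g := by
  obtain ⟨g, h1, h2, h3⟩ := h
  have hN' : N ≠ 0 := by
    rintro rfl
    exact hN Nat.cast_zero
  have hκN : κ ^ N = 1 := ev_one hP.ne_y (hH.fix y hP.memY) hκ
  have hκ0 : κ ≠ 0 := eig_ne hP.ne_y hκ
  have hgf : (σ ^ N) g = g := by
    obtain ⟨e', h8⟩ := ST_pow_mem (STs_le_ST h2)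
    exact fix_up hH.fix (hP.WT_le h8)
  refine ⟨prj σ N κ g, prj_mem' (WT_sig hσ (rt_ne hP.root hP.ne e)
    (hH.eX.sys hP.root hP.ne e)) h1, prj_mem (STs_sig hP.root hP.ne hH.eX) h2, ?_,
    prj_ev hκN hN' hgf⟩
  have h4 := lm_prj (N := N) (κ := κ) h0 hσ (STs_sig hP.root hP.ne hH.eX) h3
  rwa [map_sub, prj_self hN hκ0 hκ] at h4

/-- **The beginning of a stage**, homogeneous. -/
theorem exists_ini_h (h0 : Ctx0 k v) (hσ : IsoE v v σ) (hN : (N : k) ≠ 0)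
    (hP : PRT p v Γ C X y (b + 1)) (hH : Hg σ N C X y) (hβ : 0 < β)
    (hβb : β < b + 1) (h : ∃ e, TopLe k p v Γ X y b β e) (h' : ∀ e, ¬ TopLt k p v Γ X y b β e) :
    ∃ (e : ℕ) (g : Ω) (m : ℕ) (C₁ : IntermediateField k Ω) (X₁ : ℕ → Ω) (b₁ : ℕ),
      Ini p v Γ C X y b e g m C₁ X₁ b₁ ∧ Hg σ N C₁ X₁ (y - g) := by
  have hr := hP.root
  have hX := hP.ne
  obtain ⟨m, X', b₁, hX', hb₁, hnd⟩ := exists_exp h0 hr hX hP.neg hP.val hP.div hβ hβb h h'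
  obtain ⟨κ, hκ⟩ := hH.ey
  obtain ⟨e, h⟩ := h
  obtain ⟨g, hg, hg', hl, hgκ⟩ := h.hg h0 hσ hN hP hH hκ
  have hsh : ∀ (B : ℝ) (j : ℕ), ST k p v Γ (fun n => X (e + n)) B j = ST k p v Γ X B (e + j) :=
    fun B j => ST_shift hr hX hP.div e
  obtain ⟨h1, h2, h3⟩ := hP.iso (B' := β) hg (by rw [hsh]; exact hl) rfl
  have hX₁ := hX'.shift hX hP.div e
  have hX1 : (fun n => X (e + n)) 0 ≠ 0 := root_ne_zero hr hX _
  have hlt : b₁ + 1 < m * (b + 1) := by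
    have h4 : ((b₁ : ℝ) + 1) < m * (b + 1) := by
      rw [hb₁]
      exact mul_lt_mul_of_pos_left hβb (by exact_mod_cast Nat.pos_of_ne_zero hX'.n_ne)
    exact_mod_cast h4
  refine ⟨e, g, m, _, fun n => X' (e + n), b₁, ⟨hg, hg', h1, h2, h3.congr (h3.ltr.mono
    (ST_mono hβb.le le_rfl)), hX₁, hlt, hnd, ?_, fun e' g' hg1 hg2 hl' => ?_⟩,
    fun a ha => fix_up hH.fix (h2 a ha), hH.eX.rs hr hX hX' (e + 0), κ, ?_⟩
  · have h4 := h3.ren hX₁
    rwa [← hb₁] at h4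
  · have h5 : WT k p v Γ (X' (e + e')) = WT k p v Γ (X (e + e')) := by
      have h6 := WT_eq (k := k) (X := fun n => X (e + e' + n)) (root_ne_zero hr hX _)
        (hX'.shift hX hP.div (e + e'))
      simpa using h6.symm
    have h6 : g' ∈ ST k p v Γ X β (e + 1) := by
      rw [hb₁] at hg2
      rw [ST_shift (k := k) hX'.root (hX'.ne hX 0) hP.div e, ← ST_eq (k := k) hX hX'] at hg2
      exact hg2
    refine h' (e + e') ⟨g + g', add_mem (WT_mono hr hX hP.div (Nat.le_add_right e e') hg)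
      (h5 ▸ hg1), add_mem hg' (ST_le_STs hβb (by omega) h6), ?_⟩
    rw [← sub_sub]
    rw [hb₁, STs_shift (k := k) hX'.root (hX'.ne hX 0) hP.div e, ← STs_eq (k := k) hX hX'] at hl'
    exact hl'
  · rw [map_sub, hκ, hgκ]
    ring

/-- A field of the isogeny class with a tight coordinate, homogeneous. -/
def OutTh (p : ℕ) (v : RVal Ω) (Γ : AddSubgroup ℝ) (σ : Ω →ₐ[k] Ω) (N : ℕ)
    (C : IntermediateField k Ω) : Prop :=
  ∃ (C' : IntermediateField k Ω) (X' : ℕ → Ω) (y' : Ω) (b' : ℕ), IsoR p v Γ C C' ∧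
    PRT p v Γ C' X' y' (b' + 1) ∧ ¬ p ∣ b' + 1 ∧ Tgt p v C' X' (-(b' * v (X' 0))) ∧
    Hg σ N C' X' y'

theorem OutTh.up (h1 : IsoR p v Γ C C') (h : OutTh p v Γ σ N C') : OutTh p v Γ σ N C := by
  obtain ⟨C'', X', y', b', h3, h4⟩ := h
  exact ⟨C'', X', y', b', h1.trans h3, h4⟩

theorem OutTh.outT (h : OutTh p v Γ σ N C) : OutT p v Γ C := by
  obtain ⟨C'', X', y', b', h1, h2, h3, h4, -⟩ := h
  exact ⟨C'', X', y', b', h1, h2, h3, h4⟩

/-- **One stage**, homogeneous. -/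
theorem one_stage_h (h0 : Ctx0 k v) (hc : CompleteV v) (hσ : IsoE v v σ) (hN : (N : k) ≠ 0)
    (hP : PRT p v Γ C X y (b + 1)) (hl : Lm v (STs k p v Γ X (b + 1) 1) y) (hH : Hg σ N C X y) :
    OutTh p v Γ σ N C ∨ ExS k p v Γ X y b ∨ ExT k p v Γ X y b ∨
      ∃ (C' : IntermediateField k Ω) (X' : ℕ → Ω) (y' : Ω) (b' : ℕ),
        Stg p v Γ C X y b C' X' y' b' ∧ Hg σ N C' X' y' := by
  rcases tri h0 hP with h | h | ⟨β, hβ, hβb, h, h'⟩
  · exact .inr (.inl h)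
  · exact .inr (.inr (.inl h))
  have hβb' : β < b + 1 := by
    refine hβb.lt_of_ne fun h1 => h' 0 ⟨0, zero_mem _, zero_mem _, ?_⟩
    rw [h1, sub_zero]
    exact hl
  obtain ⟨e, g, m, C₁, X₁, b₁, h1, h9⟩ := exists_ini_h h0 hσ hN hP hH hβ hβb' h h'
  rcases stage_h h0 hc hσ hN h1.hP₁ h1.nd h9 with h2 | ⟨C', X', y', b', h3, h8, h10⟩
  · exact .inl ⟨C₁, X₁, _, b₁, h1.isoR hP, h1.hP₁, h1.nd, h2, h9⟩
  · exact .inr (.inr (.inr ⟨C', X', y', b', ⟨⟨e, g, m, C₁, X₁, b₁, h1, h3⟩, h8⟩, h10⟩))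

/-- **The loop**, homogeneous. -/
theorem loop_h (h0 : Ctx0 k v) (hc : CompleteV v) (hσ : IsoE v v σ) (hN : (N : k) ≠ 0)
    (hP : PRT p v Γ C X y (b + 1)) (hb : ¬ p ∣ b + 1) (hl : Lm v (STs k p v Γ X (b + 1) 1) y)
    (hH : Hg σ N C X y) :
    OutTh p v Γ σ N C ∨
      (∃ (n : ℕ) (C' : IntermediateField k Ω) (X' : ℕ → Ω) (y' : Ω) (b' : ℕ),
        Stgs p v Γ n C X y b C' X' y' b' ∧ Hg σ N C' X' y' ∧
          (ExS k p v Γ X' y' b' ∨ ExT k p v Γ X' y' b')) ∨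
      ∀ n, ∃ (C' : IntermediateField k Ω) (X' : ℕ → Ω) (y' : Ω) (b' : ℕ),
        Stgs p v Γ n C X y b C' X' y' b' := by
  by_contra hcon
  push Not at hcon
  obtain ⟨h1, h2, n, h3⟩ := hcon
  have key : ∀ n, ∃ (C' : IntermediateField k Ω) (X' : ℕ → Ω) (y' : Ω) (b' : ℕ),
      Stgs p v Γ n C X y b C' X' y' b' ∧ Hg σ N C' X' y' := by
    intro n
    induction n with
    | zero => exact ⟨C, X, y, b, .refl _ _ _ _, hH⟩
    | succ n ih =>
      obtain ⟨C', X', y', b', h4, h5⟩ := ih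
      obtain ⟨-, -, h7, h8, h9⟩ := h4.inv hP hb hl
      obtain ⟨h10, h11⟩ := h2 n C' X' y' b' h4 h5
      rcases one_stage_h h0 hc hσ hN h7 h9 h5 with h | h | h | ⟨C₂, X₂, y₂, b₂, h, h12⟩
      · exact absurd (h.up (h4.isoR hP)) h1
      · exact absurd h h10
      · exact absurd h h11
      · exact ⟨C₂, X₂, y₂, b₂, h4.trans (.step h (.refl _ _ _ _)), h12⟩
  obtain ⟨C', X', y', b', h4, -⟩ := key n
  exact h3 C' X' y' b' h4

end Pool.Agent.TWC.PW
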