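import Pool.Agent.Lib.TWC.PWs

/-!
# TANK W, class C, letters over a tame base: eigenvectors of an isometric embedding

`σ` an isometric embedding, of order `N` prime to `p` on the field considered.

* `prj σ N κ`: the projector on the eigenspace of `κ`;
* `flt ξ κ q`: the part of `q` of the exponents `i` with `ξ ^ i = κ`;
* `prj_self`, `prj_ev`, `prj_aeval`, `prj_ge`, `prj_mem`, `lm_prj`.
-/

set_option autoImplicit false

open Polynomial

namespace Pool.Agent.TWC.PW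

open Pool.Agent.H15JM (RVal)
open Pool.Agent.D2 (Ctx0)
open Pool.Agent.D2P (clI mem_clI)
open Pool.Agent.TWM
open Pool.Agent.TWS
open Pool.Agent.TWCT
open Pool.Agent.TWC.PF (Lm SW SA)

universe u

variable {k Ω : Type u} [Field k] [Field Ω] [Algebra k Ω] {v : RVal Ω}
  {σ : Ω →ₐ[k] Ω} {N : ℕ} {κ ξ : k} {a b x y : Ω} {S : Submodule k Ω}

/-- The projector on the eigenspace of `κ`. -/
noncomputable def prj (σ : Ω →ₐ[k] Ω) (N : ℕ) (κ : k) : Ω →ₗ[k] Ω :=
  (N : k)⁻¹ • ∑ j ∈ Finset.range N, (κ⁻¹ ^ j) • (σ ^ j).toLinearMap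

theorem prj_apply (a : Ω) : prj σ N κ a =
    (N : k)⁻¹ • ∑ j ∈ Finset.range N, (κ⁻¹ ^ j) • (σ ^ j) a := by
  rw [prj, LinearMap.smul_apply, LinearMap.sum_apply]
  rfl

theorem pow_ev (h : σ x = algebraMap k Ω ξ * x) (j : ℕ) :
    (σ ^ j) x = algebraMap k Ω (ξ ^ j) * x := by
  induction j with
  | zero => rw [pow_zero, pow_zero, map_one, one_mul, AlgHom.one_apply]
  | succ j ih =>
    rw [pow_succ', AlgHom.mul_apply, ih, map_mul, h, AlgHom.commutes, pow_succ, map_mul]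
    ring

theorem ev_pow (h : σ x = algebraMap k Ω ξ * x) (i : ℕ) :
    σ (x ^ i) = algebraMap k Ω (ξ ^ i) * x ^ i := by
  rw [map_pow, h, mul_pow, map_pow]

theorem prj_self (hN : (N : k) ≠ 0) (hκ : κ ≠ 0) (h : σ y = algebraMap k Ω κ * y) :
    prj σ N κ y = y := by
  rw [prj_apply]
  have h1 : ∀ j ∈ Finset.range N, (κ⁻¹ ^ j) • (σ ^ j) y = y := by
    intro j _
    rw [pow_ev h, Algebra.smul_def, ← mul_assoc, ← map_mul, inv_pow,
      inv_mul_cancel₀ (pow_ne_zero j hκ), map_one, one_mul]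
  rw [Finset.sum_congr rfl h1, Finset.sum_const, Finset.card_range, ← Nat.cast_smul_eq_nsmul k,
    smul_smul, inv_mul_cancel₀ hN, one_smul]

theorem prj_ne (hκ : κ ^ N = 1) (hN : N ≠ 0) (hξ : ξ ^ N = 1) (hne : ξ ≠ κ)
    (h : σ x = algebraMap k Ω ξ * x) : prj σ N κ x = 0 := by
  have hκ0 : κ ≠ 0 := by
    rintro rfl
    rw [zero_pow hN] at hκ
    exact zero_ne_one hκ
  rw [prj_apply]
  have h1 : ∀ j ∈ Finset.range N, (κ⁻¹ ^ j) • (σ ^ j) x = (κ⁻¹ * ξ) ^ j • x := by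
    intro j _
    rw [pow_ev h, Algebra.smul_def, ← mul_assoc, ← map_mul, ← mul_pow, Algebra.smul_def]
  have h2 : ∑ j ∈ Finset.range N, (κ⁻¹ * ξ) ^ j = 0 := by
    have h3 := geom_sum_mul (κ⁻¹ * ξ) N
    have h4 : (κ⁻¹ * ξ) ^ N = 1 := by rw [mul_pow, inv_pow, hκ, hξ, inv_one, one_mul]
    rw [h4, sub_self] at h3
    refine (mul_eq_zero.1 h3).resolve_right fun h5 => hne ?_
    rw [sub_eq_zero] at h5
    field_simp at h5
    exact h5
  rw [Finset.sum_congr rfl h1, ← Finset.sum_smul, h2, zero_smul, smul_zero]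

theorem prj_ev (hκ : κ ^ N = 1) (hN : N ≠ 0) (ha : (σ ^ N) a = a) :
    σ (prj σ N κ a) = algebraMap k Ω κ * prj σ N κ a := by
  have hκ0 : κ ≠ 0 := by
    rintro rfl
    rw [zero_pow hN] at hκ
    exact zero_ne_one hκ
  set f : ℕ → Ω := fun j => (κ⁻¹ ^ j) • (σ ^ j) a with hf
  have h1 : ∀ j, σ (f j) = algebraMap k Ω κ * f (j + 1) := by
    intro j
    rw [hf]
    simp only
    rw [map_smul, Algebra.smul_def, Algebra.smul_def, ← mul_assoc, ← map_mul, pow_succ' σ,
      AlgHom.mul_apply]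
    congr 2
    rw [pow_succ, mul_comm (κ⁻¹ ^ j), ← mul_assoc, mul_inv_cancel₀ hκ0, one_mul]
  have h2 : ∑ j ∈ Finset.range N, f (j + 1) = ∑ j ∈ Finset.range N, f j := by
    have h3 := Finset.sum_range_succ f N
    rw [Finset.sum_range_succ' f N] at h3
    have h4 : f N = f 0 := by
      rw [hf]
      simp only
      rw [ha, inv_pow, hκ, inv_one, pow_zero, pow_zero, AlgHom.one_apply]
    rw [h4] at h3
    exact add_right_cancel h3
  rw [prj_apply, map_smul, map_sum, Finset.sum_congr rfl fun j _ => h1 j, ← Finset.mul_sum, h2,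
    Algebra.smul_def, Algebra.smul_def]
  ring

theorem ge_pow_iso (hσ : IsoE v v σ) {r : ℝ} (h : v.Ge r a) (j : ℕ) : v.Ge r ((σ ^ j) a) := by
  induction j with
  | zero => rwa [pow_zero, AlgHom.one_apply]
  | succ j ih =>
    rw [pow_succ', AlgHom.mul_apply]
    exact hσ.ge_iff.2 ih

theorem smul_ge (h0 : Ctx0 k v) {r : ℝ} (h : v.Ge r a) (c : k) : v.Ge r (c • a) := by
  rw [Algebra.smul_def]
  have := (h0.ge c).mul h
  rwa [zero_add] at this

theorem prj_ge (h0 : Ctx0 k v) (hσ : IsoE v v σ) {r : ℝ} (h : v.Ge r a) :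
    v.Ge r (prj σ N κ a) := by
  rw [prj_apply]
  exact smul_ge h0 (RVal.Ge.sum _ _ fun j _ => smul_ge h0 (ge_pow_iso hσ h j) _) _

theorem prj_mem (hS : ∀ s ∈ S, σ s ∈ S) (ha : a ∈ S) : prj σ N κ a ∈ S := by
  rw [prj_apply]
  refine S.smul_mem _ (sum_mem fun j hj => S.smul_mem _ ?_)
  clear hj
  induction j with
  | zero => rwa [pow_zero, AlgHom.one_apply]
  | succ j ih =>
    rw [pow_succ', AlgHom.mul_apply]
    exact hS _ ih

theorem prj_mem' {C : IntermediateField k Ω} (hC : ∀ s ∈ C, σ s ∈ C) (ha : a ∈ C) :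
    prj σ N κ a ∈ C :=
  prj_mem (S := Subalgebra.toSubmodule C.toSubalgebra) hC ha

theorem lm_prj (h0 : Ctx0 k v) (hσ : IsoE v v σ) (hS : ∀ s ∈ S, σ s ∈ S) (h : Lm v S a) :
    Lm v S (prj σ N κ a) := by
  intro ε hε
  obtain ⟨s, hs, h1⟩ := h ε hε
  refine ⟨prj σ N κ s, prj_mem hS hs, ?_⟩
  rw [← map_sub]
  exact prj_ge h0 hσ h1

/-! ### The exponents -/

open Classical in
/-- The part of `q` of the exponents `i` with `ξ ^ i = κ`. -/
noncomputable def flt (ξ κ : k) (q : k[X]) : k[X] :=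
  ∑ i ∈ Finset.range (q.natDegree + 1), if ξ ^ i = κ then monomial i (q.coeff i) else 0

open Classical in
theorem flt_coeff (q : k[X]) (i : ℕ) :
    (flt ξ κ q).coeff i = if ξ ^ i = κ then q.coeff i else 0 := by
  rw [flt, finsetSum_coeff]
  by_cases hi : i ∈ Finset.range (q.natDegree + 1)
  · rw [Finset.sum_eq_single_of_mem i hi]
    · split_ifs
      · rw [coeff_monomial, if_pos rfl]
      · rw [coeff_zero]
    · intro j _ hj
      split_ifs
      · rw [coeff_monomial, if_neg hj]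
      · rw [coeff_zero]
  · have h1 : q.coeff i = 0 := coeff_eq_zero_of_natDegree_lt (by
      rw [Finset.mem_range, not_lt] at hi
      omega)
    rw [h1, ite_self]
    refine Finset.sum_eq_zero fun j hj => ?_
    have hj' : j ≠ i := fun h => hi (h ▸ hj)
    split_ifs
    · rw [coeff_monomial, if_neg hj']
    · rw [coeff_zero]

theorem flt_natDegree (q : k[X]) : (flt ξ κ q).natDegree ≤ q.natDegree := by
  rw [natDegree_le_iff_coeff_eq_zero]
  intro i hi
  rw [flt_coeff, coeff_eq_zero_of_natDegree_lt hi, ite_self]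

/-- The homogeneous polynomials. -/
def Hq (ξ κ : k) (q : k[X]) : Prop := ∀ i, q.coeff i ≠ 0 → ξ ^ i = κ

theorem hq_flt (q : k[X]) : Hq ξ κ (flt ξ κ q) := by
  intro i hi
  rw [flt_coeff] at hi
  by_contra h
  exact hi (if_neg h)

theorem Hq.aeval {q : k[X]} (h : Hq ξ κ q) (t : Ω) :
    aeval (algebraMap k Ω ξ * t) q = algebraMap k Ω κ * aeval t q := by
  rw [aeval_eq_sum_range, aeval_eq_sum_range, Finset.mul_sum]
  refine Finset.sum_congr rfl fun i _ => ?_
  by_cases hi : q.coeff i = 0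
  · rw [hi, zero_smul, zero_smul, mul_zero]
  · rw [mul_pow, ← map_pow, h i hi, Algebra.smul_def, Algebra.smul_def]
    ring

theorem Hq.ev {q : k[X]} (h : Hq ξ κ q) (hx : σ x = algebraMap k Ω ξ * x) :
    σ (Polynomial.aeval x q) = algebraMap k Ω κ * Polynomial.aeval x q := by
  rw [← aeval_algHom_apply, hx, h.aeval]

theorem Hq.map_frob {p : ℕ} [Fact p.Prime] [CharP k p] {q : k[X]} (h : Hq ξ κ q) :
    Hq (ξ ^ p) (κ ^ p) (q.map (frobenius k p)) := by
  intro i hi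
  rw [coeff_map] at hi
  rw [← pow_mul, mul_comm, pow_mul, h i fun h1 => hi (by rw [h1, map_zero])]

theorem prj_aeval (hκ : κ ^ N = 1) (hN : (N : k) ≠ 0) (hξ : ξ ^ N = 1)
    (h : σ x = algebraMap k Ω ξ * x) (q : k[X]) :
    prj σ N κ (Polynomial.aeval x q) = Polynomial.aeval x (flt ξ κ q) := by
  have hN' : N ≠ 0 := by
    rintro rfl
    exact hN Nat.cast_zero
  have hκ0 : κ ≠ 0 := by
    rintro rfl
    rw [zero_pow hN'] at hκ
    exact zero_ne_one hκ
  rw [aeval_eq_sum_range, map_sum, aeval_eq_sum_range' (n := q.natDegree + 1)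
    (Nat.lt_succ_of_le (flt_natDegree q))]
  refine Finset.sum_congr rfl fun i _ => ?_
  rw [map_smul, flt_coeff]
  split_ifs with h1
  · rw [prj_self hN hκ0 (by rw [ev_pow h, h1])]
  · rw [prj_ne hκ hN' (by rw [← pow_mul, mul_comm, pow_mul, hξ, one_pow]) h1 (ev_pow h i),
      smul_zero, zero_smul]

end Pool.Agent.TWC.PW
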