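import Pool.Agent.Lib.TWC.PFa

/-!
# Additive polynomials

`AddP k p`: the span of the `X ^ p ^ i`.

* `AddP.pow`, `AddP.comp`, `AddP.map_frob`: closure properties;
* `AddP.aeval_add`, `AddP.lm`: evaluations;
* `AddP.surj`, `AddP.ker`: the map of an additive polynomial is onto, and it has a kernel unless the
  polynomial is a monomial.
-/

set_option autoImplicit false

open Polynomial

namespace Pool.Agent.TWC.PW

open Pool.Agent.H15JM (RVal)
open Pool.Agent.D2 (Ctx0)
open Pool.Agent.TWM
open Pool.Agent.TWC.PF (Lm)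

universe u

variable {k Ω : Type u} [Field k] [Field Ω] [Algebra k Ω] {v : RVal Ω}
  {p : ℕ} {A B : Polynomial k} {S : Submodule k Ω} {x y : Ω}

/-- The additive polynomials. -/
def AddP (p : ℕ) (A : k[X]) : Prop :=
  A ∈ Submodule.span k {f : k[X] | ∃ i : ℕ, f = Polynomial.X ^ p ^ i}

namespace AddP

theorem mono (i : ℕ) : AddP p ((Polynomial.X : k[X]) ^ p ^ i) := Submodule.subset_span ⟨i, rfl⟩

theorem self : AddP p (Polynomial.X : k[X]) := by
  have := mono (k := k) (p := p) 0
  rwa [pow_zero, pow_one] at this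

theorem zero : AddP p (0 : k[X]) := zero_mem _

theorem add (hA : AddP p A) (hB : AddP p B) : AddP p (A + B) := add_mem hA hB

theorem neg (hA : AddP p A) : AddP p (-A) := neg_mem hA

theorem sub (hA : AddP p A) (hB : AddP p B) : AddP p (A - B) := sub_mem hA hB

theorem smul (a : k) (hA : AddP p A) : AddP p (a • A) := Submodule.smul_mem _ a hA

theorem C_mul (a : k) (hA : AddP p A) : AddP p (C a * A) := by
  rw [← smul_eq_C_mul]
  exact hA.smul a

/-- Induction. -/
theorem ind {motive : (A : k[X]) → AddP p A → Prop}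
    (mono : ∀ i, motive (Polynomial.X ^ p ^ i) (AddP.mono i)) (zero : motive 0 AddP.zero)
    (add : ∀ (f g : k[X]) (hf : AddP p f) (hg : AddP p g), motive f hf → motive g hg →
      motive (f + g) (hf.add hg))
    (smul : ∀ (a : k) (f : k[X]) (hf : AddP p f), motive f hf → motive (a • f) (hf.smul a))
    {A : k[X]} (h : AddP p A) : motive A h := by
  refine Submodule.span_induction (p := fun A h => motive A h) ?_ zero
    (fun f g hf hg h1 h2 => add f g hf hg h1 h2) (fun a f hf h1 => smul a f hf h1) h
  rintro _ ⟨i, rfl⟩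
  exact mono i

section

variable [hp : Fact p.Prime] [CharP k p]

theorem pow_p (h : AddP p A) : AddP p (A ^ p) := by
  induction h using AddP.ind with
  | mono i =>
    rw [← pow_mul, ← pow_succ]
    exact AddP.mono (i + 1)
  | zero =>
    rw [zero_pow hp.out.ne_zero]
    exact AddP.zero
  | add f g _ _ h1 h2 =>
    rw [add_pow_char]
    exact h1.add h2
  | smul a f _ h1 =>
    rw [_root_.smul_pow]
    exact h1.smul _

theorem pow (e : ℕ) (h : AddP p A) : AddP p (A ^ p ^ e) := by
  induction e with
  | zero => rwa [pow_zero, pow_one]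
  | succ e ih =>
    rw [pow_succ, pow_mul]
    exact ih.pow_p

theorem comp (hA : AddP p A) (hB : AddP p B) : AddP p (A.comp B) := by
  induction hA using AddP.ind with
  | mono i =>
    rw [X_pow_comp]
    exact hB.pow i
  | zero =>
    rw [zero_comp]
    exact AddP.zero
  | add f g _ _ h1 h2 =>
    rw [add_comp]
    exact h1.add h2
  | smul a f _ h1 =>
    rw [smul_comp]
    exact h1.smul _

theorem map_frob (e : ℕ) (h : AddP p A) : AddP p (A.map (iterateFrobenius k p e)) := by
  induction h using AddP.ind with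
  | mono i =>
    rw [Polynomial.map_pow, map_X]
    exact AddP.mono i
  | zero =>
    rw [Polynomial.map_zero]
    exact AddP.zero
  | add f g _ _ h1 h2 =>
    rw [Polynomial.map_add]
    exact h1.add h2
  | smul a f _ h1 =>
    rw [Polynomial.map_smul]
    exact h1.smul _

/-- `A(x) ^ p ^ e = A'(x ^ p ^ e)`. -/
theorem _root_.Pool.Agent.TWC.PW.aeval_map_frob [CharP Ω p] (e : ℕ) (A : k[X]) (x : Ω) :
    aeval (x ^ p ^ e) (A.map (iterateFrobenius k p e)) = aeval x A ^ p ^ e := by
  induction A using Polynomial.induction_on' with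
  | add f g h1 h2 => rw [Polynomial.map_add, map_add, map_add, h1, h2, add_pow_char_pow]
  | monomial n a =>
    rw [map_monomial, aeval_monomial, aeval_monomial, mul_pow, iterateFrobenius_def, map_pow,
      ← pow_mul, ← pow_mul, mul_comm n]

/-! ### Evaluations -/

omit [CharP k p] in
theorem aeval_add [CharP Ω p] (h : AddP p A) (x y : Ω) :
    aeval (x + y) A = aeval x A + aeval y A := by
  induction h using AddP.ind with
  | mono i =>
    rw [map_pow, map_pow, map_pow, aeval_X, aeval_X, aeval_X, add_pow_char_pow]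
  | zero => rw [map_zero, map_zero, map_zero, add_zero]
  | add f g _ _ h1 h2 =>
    rw [map_add, map_add, map_add, h1, h2]
    ring
  | smul a f _ h1 => rw [map_smul, map_smul, map_smul, h1, smul_add]

omit [CharP k p] in
theorem aeval_zero [CharP Ω p] (h : AddP p A) : aeval (0 : Ω) A = 0 := by
  have h1 := h.aeval_add (0 : Ω) 0
  rw [add_zero] at h1
  exact left_eq_add.1 h1

omit [CharP k p] in
theorem aeval_sub [CharP Ω p] (h : AddP p A) (x y : Ω) :
    aeval (x - y) A = aeval x A - aeval y A := by
  have h1 := h.aeval_add (x - y) y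
  rw [sub_add_cancel] at h1
  rw [h1, add_sub_cancel_right]

theorem eval_add (h : AddP p A) (x y : k) : A.eval (x + y) = A.eval x + A.eval y := by
  have := h.aeval_add x y
  simpa only [coe_aeval_eq_eval] using this

theorem eval_zero (h : AddP p A) : A.eval 0 = 0 := by
  have := h.aeval_zero (Ω := k)
  simpa only [coe_aeval_eq_eval] using this

theorem eval_sub (h : AddP p A) (x y : k) : A.eval (x - y) = A.eval x - A.eval y := by
  have := h.aeval_sub x y
  simpa only [coe_aeval_eq_eval] using this

omit [CharP k p] in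
/-- Limits. -/
theorem lm [CharP Ω p] (h0 : Ctx0 k v) (hS : ∀ s ∈ S, s ^ p ∈ S) (hA : AddP p A)
    (h : Lm v S x) : Lm v S (aeval x A) := by
  induction hA using AddP.ind with
  | mono i =>
    rw [map_pow, aeval_X]
    induction i with
    | zero => rwa [pow_zero, pow_one]
    | succ i ih =>
      rw [pow_succ, pow_mul]
      exact ih.pow hS
  | zero =>
    rw [map_zero]
    exact Lm.of_mem (zero_mem _)
  | add f g _ _ h1 h2 =>
    rw [map_add]
    exact h1.add h2
  | smul a f _ h1 =>
    rw [map_smul, Algebra.smul_def]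
    exact h1.smul h0 a

end

/-! ### Coefficients -/

/-- The exponents are powers of `p`. -/
theorem coeff (h : AddP p A) {n : ℕ} (hn : A.coeff n ≠ 0) : ∃ i, n = p ^ i := by
  induction h using AddP.ind with
  | mono i =>
    refine ⟨i, ?_⟩
    rw [coeff_X_pow] at hn
    by_contra h1
    rw [if_neg h1] at hn
    exact hn rfl
  | zero => exact absurd (coeff_zero n) hn
  | add f g _ _ h1 h2 =>
    by_cases h3 : f.coeff n = 0
    · refine h2 fun h4 => hn ?_
      rw [coeff_add, h3, h4, add_zero]
    · exact h1 h3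
  | smul a f _ h1 =>
    refine h1 fun h3 => hn ?_
    rw [coeff_smul, h3, smul_zero]

/-- The sum of the terms. -/
theorem exists_sum (h : AddP p A) : ∃ (n : ℕ) (c : ℕ → k), ∀ x : Ω,
    aeval x A = ∑ j ∈ Finset.range n, algebraMap k Ω (c j) * x ^ p ^ j := by
  classical
  obtain ⟨c, hc⟩ : ∃ c : ℕ →₀ k, ∀ x : Ω,
      aeval x A = c.sum fun j a => algebraMap k Ω a * x ^ p ^ j := by
    induction h using AddP.ind with
    | mono i =>
      refine ⟨Finsupp.single i 1, fun x => ?_⟩
      rw [Finsupp.sum_single_index (by rw [map_zero, zero_mul]), map_one, one_mul, map_pow, aeval_X]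
    | zero => exact ⟨0, fun x => by rw [map_zero, Finsupp.sum_zero_index]⟩
    | add f g _ _ h1 h2 =>
      obtain ⟨c, hc⟩ := h1
      obtain ⟨c', hc'⟩ := h2
      refine ⟨c + c', fun x => ?_⟩
      rw [map_add, hc, hc', Finsupp.sum_add_index' (fun j => by rw [map_zero, zero_mul])
        fun j a b => by rw [map_add, add_mul]]
    | smul a f _ h1 =>
      obtain ⟨c, hc⟩ := h1
      refine ⟨a • c, fun x => ?_⟩
      rw [map_smul, hc, Finsupp.sum_smul_index' (fun j => by rw [map_zero, zero_mul]),
        Finsupp.smul_sum]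
      refine Finsupp.sum_congr fun j _ => ?_
      rw [smul_eq_mul, map_mul, Algebra.smul_def, mul_assoc]
  refine ⟨c.support.sup id + 1, c, fun x => ?_⟩
  rw [hc]
  refine Finsupp.sum_of_support_subset c (fun j hj => Finset.mem_range.2 ?_) _
    fun j _ => by rw [map_zero, zero_mul]
  exact Nat.lt_succ_of_le (Finset.le_sup (f := id) hj)

section

variable [hp : Fact p.Prime]

theorem natDegree_pos (h : AddP p A) (hA : A ≠ 0) : 0 < A.natDegree := by
  obtain ⟨i, hi⟩ := h.coeff (n := A.natDegree) (leadingCoeff_ne_zero.2 hA)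
  rw [hi]
  exact pow_pos hp.out.pos i

theorem surj [IsAlgClosed k] (h : AddP p A) (hA : A ≠ 0) (c : k) : ∃ z, A.eval z = c := by
  have h1 := h.natDegree_pos hA
  obtain ⟨z, hz⟩ := IsAlgClosed.exists_root (A - C c) (by
    rw [degree_eq_natDegree, natDegree_sub_C]
    · exact_mod_cast h1.ne'
    · intro h2
      have := congrArg natDegree h2
      rw [natDegree_sub_C, natDegree_zero] at this
      omega)
  refine ⟨z, ?_⟩
  have h2 : (A - C c).eval z = 0 := hz
  rwa [Polynomial.eval_sub, eval_C, sub_eq_zero] at h2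

theorem ker [IsAlgClosed k] (h : AddP p A) (hA : A ≠ 0) (h1 : ∀ κ : k, A.eval κ = 0 → κ = 0) :
    ∃ (a : k) (s : ℕ), a ≠ 0 ∧ A = C a * Polynomial.X ^ p ^ s := by
  obtain ⟨s, hs⟩ := h.coeff (n := A.natDegree) (leadingCoeff_ne_zero.2 hA)
  refine ⟨A.leadingCoeff, s, leadingCoeff_ne_zero.2 hA, ?_⟩
  have h2 : A.Splits := IsAlgClosed.splits A
  have h3 : A.roots = Multiset.replicate (Multiset.card A.roots) 0 :=
    Multiset.eq_replicate_card.2 fun κ hκ => h1 κ ((mem_roots hA).1 hκ)
  have h4 : Multiset.card A.roots = A.natDegree := h2.natDegree_eq_card_roots.symm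
  have h5 := h2.eq_prod_roots
  rw [h3, h4, Multiset.map_replicate, Multiset.prod_replicate, C_0, sub_zero, hs] at h5
  exact h5

end

end AddP

end Pool.Agent.TWC.PW
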