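import Pool.Agent.Lib.TWCT.Null
import Pool.Agent.Lib.TWC.PFd
import Pool.Agent.Lib.TWC.PFb

/-!
# TANK W, class C, letters over a tame base: motions

* `vand_ge`: a polynomial whose values at the non zero constants are large has large coefficients;
* `NatM`: the natural motion `τ ↦ τ (1 + a)` moves `z` by an infinitesimal amount;
* `nat_val`: then the values of the polynomials in `τ`, `z` do not change;
* `jet_ge`: the jets;
* `strM_gen`: strictness of a motion `τ ↦ τ (1 + a)`, `z ↦ z + e`.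
-/

set_option autoImplicit false

open Polynomial

namespace Pool.Agent.TWC.PW

open Pool.Agent.H15JM (RVal)
open Pool.Agent.D2 (Ctx0)
open Pool.Agent.D2P (clI mem_clI)
open Pool.Agent.LU1 (adj)
open Pool.Agent.TWM
open Pool.Agent.TWS
open Pool.Agent.TWCT

universe u

variable {k Ω : Type u} [Field k] [Field Ω] [Algebra k Ω] {v : RVal Ω}

/-! ### The Vandermonde argument -/

/-- A polynomial whose values at the non zero constants are large has large coefficients. -/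
theorem vand_ge [Infinite k] (h0 : Ctx0 k v) {f : Polynomial Ω} {c : ℝ}
    (h : ∀ κ : k, κ ≠ 0 → v.Ge c (f.eval (algebraMap k Ω κ))) (i : ℕ) : v.Ge c (f.coeff i) := by
  set n := max (f.natDegree + 1) (i + 1) with hn
  obtain ⟨s, hs0, hs⟩ : ∃ s : Finset k, s.card = n ∧ ∀ x ∈ s, x ≠ 0 := by
    obtain ⟨s, h1, h2⟩ := (Set.Infinite.sdiff Set.infinite_univ (Set.finite_singleton (0 : k))
      |>.exists_subset_card_eq n)
    refine ⟨s, h2, fun x hx => ?_⟩
    have := h1 hx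
    simpa using this
  let e := s.equivFinOfCardEq hs0
  let c' : Fin n → k := fun j => (e.symm j : k)
  have hinj : Function.Injective c' := fun a b hab => e.symm.injective (Subtype.ext hab)
  have hdet : (Matrix.vandermonde c').det ≠ 0 := Matrix.det_vandermonde_ne_zero_iff.2 hinj
  have hinv : (Matrix.vandermonde c')⁻¹ * Matrix.vandermonde c' = 1 :=
    Matrix.nonsing_inv_mul _ (isUnit_iff_ne_zero.2 hdet)
  have hi : i < n := by omega
  set A : Fin n → k := fun j => (Matrix.vandermonde c')⁻¹ ⟨i, hi⟩ j with hA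
  have h1 : ∀ l : Fin n, ∑ j, A j * c' j ^ (l : ℕ) = if (⟨i, hi⟩ : Fin n) = l then 1 else 0 := by
    intro l
    have h2 := congrFun (congrFun hinv ⟨i, hi⟩) l
    rw [Matrix.mul_apply, Matrix.one_apply] at h2
    rw [← h2]
    rfl
  have h2 : f.coeff i = ∑ j, algebraMap k Ω (A j) * f.eval (algebraMap k Ω (c' j)) := by
    have h3 : ∀ j, f.eval (algebraMap k Ω (c' j)) =
        ∑ l : Fin n, f.coeff l * algebraMap k Ω (c' j ^ (l : ℕ)) := by
      intro j
      rw [eval_eq_sum_range' (n := n) (by omega), ← Fin.sum_univ_eq_sum_range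
        (fun l => f.coeff l * algebraMap k Ω (c' j) ^ l)]
      exact Finset.sum_congr rfl fun l _ => by rw [map_pow]
    simp only [h3, Finset.mul_sum]
    rw [Finset.sum_comm]
    have h4 : ∀ l : Fin n, ∑ j, algebraMap k Ω (A j) *
        (f.coeff l * algebraMap k Ω (c' j ^ (l : ℕ))) =
        if (⟨i, hi⟩ : Fin n) = l then f.coeff l else 0 := by
      intro l
      have h5 : ∑ j, algebraMap k Ω (A j) * (f.coeff l * algebraMap k Ω (c' j ^ (l : ℕ))) =
          f.coeff l * algebraMap k Ω (∑ j, A j * c' j ^ (l : ℕ)) := by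
        rw [map_sum, Finset.mul_sum]
        exact Finset.sum_congr rfl fun j _ => by rw [map_mul]; ring
      rw [h5, h1]
      split_ifs
      · rw [map_one, mul_one]
      · rw [map_zero, mul_zero]
    rw [Finset.sum_congr rfl fun l _ => h4 l, Finset.sum_ite_eq Finset.univ]
    simp
  rw [h2]
  refine RVal.Ge.sum _ _ fun j _ => ?_
  have h3 := (h0.ge (A j)).mul (h (c' j) (hs _ (e.symm j).2))
  rwa [zero_add] at h3

/-! ### The natural motion -/

/-- The natural motion `τ ↦ τ (1 + a)`, `a` of value `≥ ρ`, moves `z` by an infinitesimal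
amount. -/
def NatM (v : RVal Ω) (k : Type u) [Field k] [Algebra k Ω] (τ z : Ω) (ρ : ℝ) : Prop :=
  ∀ a : Ω, v.Ge ρ a → ∀ δ : ℝ, 0 < δ → ∃ (τ' u : Ω) (M : ℕ) (q : k[X]), M ≠ 0 ∧ τ' ^ M = τ ∧
    u ^ M = 1 + a ∧ Gt v 0 (u - 1) ∧ v.Ge (-δ) (z - aeval τ' q) ∧
    v.Ge (-δ) (aeval (τ' * u) q - aeval τ' q)

section Nat

variable [IsAlgClosed k] [IsAlgClosed Ω] {E : IntermediateField k Ω} {τ z a : Ω} {ρ : ℝ}

omit [IsAlgClosed Ω] in
/-- The algebraic elements over the prime subfield `⊥` are constants. -/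
theorem exists_const {x : Ω} (hx : IsAlgebraic (⊥ : IntermediateField k Ω) x) :
    ∃ d : k, algebraMap k Ω d = x := by
  have h2 : Algebra.IsAlgebraic k (⊥ : IntermediateField k Ω) := by
    refine ⟨fun a => ?_⟩
    obtain ⟨c, hc⟩ := IntermediateField.mem_bot.1 a.2
    have h3 : a = algebraMap k (⊥ : IntermediateField k Ω) c := Subtype.ext hc.symm
    rw [h3]
    exact isAlgebraic_algebraMap c
  have h3 : IsAlgebraic k x := hx.restrictScalars k
  have h4 : Algebra.IsAlgebraic k (IntermediateField.adjoin k {x}) :=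
    IntermediateField.isAlgebraic_adjoin_simple h3.isIntegral
  have h5 : x ∈ IntermediateField.adjoin k {x} := IntermediateField.mem_adjoin_simple_self k x
  rw [IntermediateField.eq_bot_of_isAlgClosed_of_isAlgebraic (IntermediateField.adjoin k {x})]
    at h5
  exact IntermediateField.mem_bot.1 h5

/-- An isometric embedding with `τ ↦ τ u`. -/
theorem exists_mul (h0 : Ctx0 k v) (hw : SphC v) (hval : ∀ r : ℝ, ∃ x : Ω, x ≠ 0 ∧ v x = r)
    {u : Ω} (hτ : τ ≠ 0) (hv : v τ < 0) (hu : Gt v 0 (u - 1)) :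
    ∃ Φ : Ω →ₐ[k] Ω, IsoE v v Φ ∧ Φ τ = τ * u := by
  have hu1 : u ≠ 0 ∧ v u = 0 := by
    have h1 := Gt.val_eq (v := v) (x := (1 : Ω)) (y := u) one_ne_zero (by
      rw [v.map_one]
      have h2 := hu.neg
      rwa [neg_sub] at h2)
    exact ⟨h1.1, by rw [h1.2, v.map_one]⟩
  have hfar : ∀ x : Ω, x ≠ 0 → v x = v τ → ∀ d : k, x - algebraMap k Ω d ≠ 0 ∧
      v (x - algebraMap k Ω d) = v τ := by
    intro x hx hxv d
    have h1 : Gt v (v x) (x - (x - algebraMap k Ω d)) := by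
      rw [sub_sub_cancel]
      exact Gt.of_ge (h0.ge d) (by linarith)
    have h2 := Gt.val_eq hx h1
    exact ⟨h2.1, by rw [h2.2, hxv]⟩
  obtain ⟨Φ, h1, -, h3⟩ := (isoE_id (k := k) (v := v)).exists_move h0 hw hval
    (B := (⊥ : IntermediateField k Ω)) (z := τ) (fun h => by
      obtain ⟨d, hd⟩ := exists_const h
      exact (hfar τ hτ rfl d).1 (by rw [hd, sub_self])) (ζ := τ * u) fun c hc => by
      obtain ⟨d, rfl⟩ := exists_const hc
      rw [AlgHom.id_apply]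
      have h4 := hfar (τ * u) (mul_ne_zero hτ hu1.1)
        (by rw [v.map_mul hτ hu1.1, hu1.2, add_zero]) d
      have h5 := hfar τ hτ rfl d
      exact ⟨h4.1, by rw [h4.2, h5.2]⟩
  exact ⟨Φ, h1, h3⟩

omit [IsAlgClosed k] [IsAlgClosed Ω] in
/-- `Str.near` for all isometric images. -/
theorem str_near {s : ℝ} {G : Polynomial Ω} (h : Str v s G) :
    ∃ δ : ℝ, 0 < δ ∧ ∀ Φ : Ω →ₐ[k] Ω, IsoE v v Φ → ∀ t, v.Ge (s - δ) t →
      v.Ge (v (G.coeff 0) + δ) ((G.map (Φ : Ω →+* Ω)).eval t - Φ (G.coeff 0)) := by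
  obtain ⟨δ, hδ, h1⟩ := h.exists_delta (Finset.Icc 1 G.natDegree)
    fun l hl => (Finset.mem_Icc.1 hl).1
  refine ⟨δ, hδ, fun Φ hΦ t ht => ?_⟩
  have h2 : (G.map (Φ : Ω →+* Ω)).eval t - Φ (G.coeff 0) =
      ∑ l ∈ Finset.Icc 1 G.natDegree, Φ (G.coeff l) * t ^ l := by
    rw [eval_eq_sum_range' (n := G.natDegree + 1)
      (Nat.lt_succ_of_le natDegree_map_le),
      Finset.sum_range_eq_add_Ico _ (Nat.succ_pos _), coeff_map]
    rw [pow_zero, mul_one]
    have h3 : ∀ x : Ω, (Φ : Ω →+* Ω) x = Φ x := fun _ => rfl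
    simp only [coeff_map, h3, add_sub_cancel_left]
    exact Finset.sum_congr rfl fun _ _ => rfl
  rw [h2]
  refine RVal.Ge.sum _ _ fun l hl => ?_
  refine (RVal.Ge.mul (hΦ.ge_iff.2 (h1 l hl)) (ge_pow ht l)).mono ?_
  linarith

omit [IsAlgClosed k] [IsAlgClosed Ω] in
/-- Polynomials over the constants are mapped to themselves. -/
theorem map_bot {Φ : Ω →ₐ[k] Ω} {f : Polynomial Ω} (hf : f ∈ PI (⊥ : IntermediateField k Ω)) :
    f.map (Φ : Ω →+* Ω) = f := by
  ext i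
  rw [coeff_map]
  obtain ⟨d, hd⟩ := IntermediateField.mem_bot.1 (hf i)
  rw [← hd]
  exact Φ.commutes d

omit [IsAlgClosed k] [IsAlgClosed Ω] in
theorem map_eval_bot {Φ : Ω →ₐ[k] Ω} {S : Polynomial (Polynomial Ω)}
    (hS : PII (⊥ : IntermediateField k Ω) S) (x : Ω) :
    (S.eval (C x)).map (Φ : Ω →+* Ω) = S.eval (C (Φ x)) := by
  rw [eval_eq_sum_range, eval_eq_sum_range, Polynomial.map_sum]
  refine Finset.sum_congr rfl fun i _ => ?_
  rw [Polynomial.map_mul, map_bot (hS i), Polynomial.map_pow, map_C]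
  rfl

/-- **The natural motion preserves the values.** -/
theorem nat_val (h0 : Ctx0 k v) (hw : SphC v) (hval : ∀ r : ℝ, ∃ x : Ω, x ≠ 0 ∧ v x = r)
    (hz : TL v E z 0) (hτE : τ ∈ E) (hτ : τ ≠ 0) (hv : v τ < 0) (hN : NatM v k τ z ρ)
    (ha : v.Ge ρ a) {S : Polynomial (Polynomial Ω)} (hS : PII (⊥ : IntermediateField k Ω) S)
    (hS0 : S.eval (C τ) ≠ 0) :
    S.evalEval z (τ * (1 + a)) ≠ 0 ∧ v (S.evalEval z (τ * (1 + a))) = v (S.evalEval z τ) := by
  have hg : S.eval (C τ) ∈ PI E := by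
    rw [eval_eq_sum_range]
    exact sum_mem fun i _ => mul_mem (PI_mono bot_le (hS i)) (pow_mem (C_mem_PI hτE) _)
  have hstr := hz.str' hg hS0
  obtain ⟨δ, hδ, h1⟩ := str_near (k := k) hstr
  obtain ⟨τ', u, M, q, hM, hτ', hu, hu1, h2, h3⟩ := hN a ha δ hδ
  have hτ'0 : τ' ≠ 0 := fun h => hτ (by rw [← hτ', h, zero_pow hM])
  have hτ'v : v τ' < 0 := by
    rw [← hτ', v.map_pow hτ'0] at hv
    by_contra h
    exact absurd hv (not_lt.2 (mul_nonneg (Nat.cast_nonneg _) (not_lt.1 h)))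
  obtain ⟨Φ, hΦ, h4⟩ := exists_mul h0 hw hval hτ'0 hτ'v hu1
  have h5 : Φ τ = τ * (1 + a) := by rw [← hτ', map_pow, h4, mul_pow, hu]
  have h6 : Φ (aeval τ' q) = aeval (τ' * u) q := by rw [← h4, aeval_algHom_apply]
  have h7 : v.Ge (0 - δ) (z - Φ z) := by
    have e : z - Φ z = (z - aeval τ' q) - (aeval (τ' * u) q - aeval τ' q) -
        Φ (z - aeval τ' q) := by
      rw [map_sub, h6]
      ring
    rw [e, zero_sub]
    exact (h2.sub h3).sub (hΦ.ge_iff.2 h2)
  have h8 := h1 Φ hΦ _ h7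
  rw [Polynomial.map_taylor, map_eval_bot hS, h5, taylor_eval] at h8
  change v.Ge _ ((S.eval (C (τ * (1 + a)))).eval (z - Φ z + Φ z) - _) at h8
  rw [sub_add_cancel] at h8
  have h9 : (taylor z (S.eval (C τ))).coeff 0 = S.evalEval z τ := by
    rw [taylor_coeff_zero]
  have h10 : S.evalEval z τ ≠ 0 := h9 ▸ hstr.ne
  rw [h9] at h8
  have h11 := Gt.val_eq (v := v) (x := Φ (S.evalEval z τ)) (y := S.evalEval z (τ * (1 + a)))
    (IsoE.ne_zero h10) (by
      rw [hΦ.val _ h10]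
      refine Gt.of_ge (ge_sub_comm h8) (by linarith))
  exact ⟨h11.1, by rw [h11.2, hΦ.val _ h10]⟩

omit [IsAlgClosed Ω] in
/-- The coefficient of `(x - τ) ^ i` in a bivariate polynomial, as a polynomial in `z`. -/
theorem evalEval_add (S : Polynomial (Polynomial Ω)) (x y e : Ω) :
    S.evalEval x (y + e) = ((taylor (C y) S).map (evalRingHom x)).eval e := by
  rw [map_evalRingHom_eval]
  change (S.eval (C (y + e))).eval x = ((taylor (C y) S).eval (C e)).eval x
  rw [taylor_eval, C_add, add_comm]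

/-- **The jets along the natural motion.** -/
theorem jet_ge (h0 : Ctx0 k v) (hw : SphC v) (hval : ∀ r : ℝ, ∃ x : Ω, x ≠ 0 ∧ v x = r)
    (hz : TL v E z 0) (hτE : τ ∈ E) (hτ : τ ≠ 0) (hv : v τ < 0) (hN : NatM v k τ z ρ)
    {S : Polynomial (Polynomial Ω)} (hS : PII (⊥ : IntermediateField k Ω) S)
    (hS0 : S.eval (C τ) ≠ 0) (i : ℕ) :
    v.Ge (v (S.evalEval z τ) - i * (v τ + ρ)) (((taylor (C τ) S).coeff i).eval z) := by
  obtain ⟨a₀, ha0, ha⟩ := hval ρ
  set R : Polynomial Ω := ((taylor (C τ) S).map (evalRingHom z)).comp (C (τ * a₀) * X) with hR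
  have h1 : ∀ κ : k, κ ≠ 0 → v.Ge (v (S.evalEval z τ)) (R.eval (algebraMap k Ω κ)) := by
    intro κ hκ
    have h2 : R.eval (algebraMap k Ω κ) = S.evalEval z (τ * (1 + a₀ * algebraMap k Ω κ)) := by
      rw [hR, eval_comp, eval_mul, eval_C, eval_X, mul_add, mul_one, evalEval_add]
      congr 1
      ring
    have h3 : v.Ge ρ (a₀ * algebraMap k Ω κ) := by
      have := (RVal.ge_self (v := v) a₀).mul (h0.ge κ)
      rwa [ha, add_zero] at this
    obtain ⟨h4, h5⟩ := nat_val h0 hw hval hz hτE hτ hv hN h3 hS hS0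
    rw [h2, ← h5]
    exact RVal.ge_self _
  have h2 := vand_ge h0 h1 i
  rw [hR, comp_C_mul_X_coeff, coeff_map, coe_evalRingHom] at h2
  intro h3
  have h4 := h2 (mul_ne_zero h3 (pow_ne_zero _ (mul_ne_zero hτ ha0)))
  rw [v.map_mul h3 (pow_ne_zero _ (mul_ne_zero hτ ha0)), v.map_pow (mul_ne_zero hτ ha0),
    v.map_mul hτ ha0, ha] at h4
  linarith

/-- **Strictness** on the polynomials in `τ`, `z`. -/
theorem str_poly (h0 : Ctx0 k v) (hw : SphC v) (hval : ∀ r : ℝ, ∃ x : Ω, x ≠ 0 ∧ v x = r)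
    (hz : TL v E z 0) (hτE : τ ∈ E) (hτ : τ ≠ 0) (hv : v τ < 0) (hN : NatM v k τ z ρ)
    {Φ : Ω →ₐ[k] Ω} {μ : ℝ} (hμ : 0 ≤ μ) (h1 : v.Ge (v τ + ρ + μ) (Φ τ - τ))
    (h2 : v.Ge μ (Φ z - z)) {S : Polynomial (Polynomial Ω)}
    (hS : PII (⊥ : IntermediateField k Ω) S) :
    v.Ge (v (S.evalEval z τ) + μ) (Φ (S.evalEval z τ) - S.evalEval z τ) := by
  by_cases hS0 : S.eval (C τ) = 0
  · have h3 : S.evalEval z τ = 0 := by
      change (S.eval (C τ)).eval z = 0
      rw [hS0, eval_zero]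
    rw [h3, map_zero, sub_zero]
    exact RVal.Ge.zero
  set ν := v (S.evalEval z τ) with hν
  set e := Φ z - z with he
  set c := Φ τ - τ with hc
  set T := taylor (C τ) S with hT
  -- the coefficients, as polynomials in `z`
  have hT1 : ∀ i, T.coeff i ∈ PI E := by
    have h4 : PII E T := by
      rw [hT]
      exact PII.taylor (fun j => PI_mono bot_le (hS j)) (C_mem_PI hτE)
    exact h4
  have h5 : Φ (S.evalEval z τ) = S.evalEval (z + e) (τ + c) := by
    have h6 : Φ ((S.eval (C τ)).eval z) = ((S.eval (C τ)).map (Φ : Ω →+* Ω)).eval (Φ z) := by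
      exact (Polynomial.eval_map_apply (Φ : Ω →+* Ω) z).symm
    change Φ ((S.eval (C τ)).eval z) = (S.eval (C (τ + c))).eval (z + e)
    rw [h6, map_eval_bot hS, he, hc, add_sub_cancel, add_sub_cancel]
  -- the `z`-motion at fixed `(x - τ)`-index
  have h7 : ∀ i : ℕ, v.Ge (ν - i * (v τ + ρ)) ((T.coeff i).eval (z + e)) := by
    intro i
    by_cases h8 : T.coeff i = 0
    · rw [h8, eval_zero]
      exact RVal.Ge.zero
    have h9 : (T.coeff i).eval (z + e) = (taylor z (T.coeff i)).eval e := by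
      rw [taylor_eval, add_comm]
    have h10 := jet_ge h0 hw hval hz hτE hτ hv hN hS hS0 i
    have h11 : (T.coeff i).eval z ≠ 0 := hz.eval_ne (PI_mono (le_algc E) (hT1 i)) h8
    rw [h9, eval_eq_sum_range]
    refine RVal.Ge.sum _ _ fun l _ => ?_
    have h12 := hz.weak (PI_mono (le_algc E) (hT1 i)) h8 l
    refine (h12.mul (ge_pow h2 l)).mono ?_
    have := h10 h11
    have h13 : 0 ≤ (l : ℝ) * μ := by positivity
    linarith
  have h8 : v.Ge (ν + μ) (S.evalEval (z + e) (τ + c) - S.evalEval (z + e) τ) := by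
    have h9 : S.evalEval (z + e) (τ + c) - S.evalEval (z + e) τ =
        ∑ i ∈ Finset.Icc 1 T.natDegree, (T.coeff i).eval (z + e) * c ^ i := by
      rw [evalEval_add, ← hT, eval_eq_sum_range' (n := T.natDegree + 1)
        (Nat.lt_succ_of_le natDegree_map_le), Finset.sum_range_eq_add_Ico _ (Nat.succ_pos _)]
      have h10 : (T.coeff 0).eval (z + e) = S.evalEval (z + e) τ := by
        rw [hT, taylor_coeff_zero]
      simp only [coeff_map, coe_evalRingHom, pow_zero, mul_one, h10, add_sub_cancel_left]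
      rfl
    rw [h9]
    refine RVal.Ge.sum _ _ fun i hi => ?_
    have hi1 : (1 : ℝ) ≤ i := by exact_mod_cast (Finset.mem_Icc.1 hi).1
    refine ((h7 i).mul (ge_pow h1 i)).mono ?_
    nlinarith
  have h9 : v.Ge (ν + μ) (S.evalEval (z + e) τ - S.evalEval z τ) := by
    have hg : S.eval (C τ) ∈ PI E := by
      rw [eval_eq_sum_range]
      exact sum_mem fun i _ => mul_mem (PI_mono bot_le (hS i)) (pow_mem (C_mem_PI hτE) _)
    have h10 : S.evalEval (z + e) τ - S.evalEval z τ =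
        ∑ l ∈ Finset.Icc 1 (S.eval (C τ)).natDegree,
          (taylor z (S.eval (C τ))).coeff l * e ^ l := by
      have h11 : S.evalEval (z + e) τ = (taylor z (S.eval (C τ))).eval e := by
        rw [taylor_eval, add_comm]
      rw [h11, eval_eq_sum_range' (n := (S.eval (C τ)).natDegree + 1)
        (by rw [natDegree_taylor]; exact Nat.lt_succ_self _),
        Finset.sum_range_eq_add_Ico _ (Nat.succ_pos _)]
      have h12 : (taylor z (S.eval (C τ))).coeff 0 = S.evalEval z τ := by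
        rw [taylor_coeff_zero]
      simp only [pow_zero, mul_one, h12, add_sub_cancel_left]
      rfl
    rw [h10]
    refine RVal.Ge.sum _ _ fun l hl => ?_
    have hl1 : (1 : ℝ) ≤ l := by exact_mod_cast (Finset.mem_Icc.1 hl).1
    have h11 := hz.weak (PI_mono (le_algc E) hg) hS0 l
    refine (h11.mul (ge_pow h2 l)).mono ?_
    have h12 : v (Polynomial.eval z (S.eval (C τ))) = ν := rfl
    rw [h12]
    nlinarith
  rw [h5]
  have h10 : S.evalEval (z + e) (τ + c) - S.evalEval z τ =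
      (S.evalEval (z + e) (τ + c) - S.evalEval (z + e) τ) +
      (S.evalEval (z + e) τ - S.evalEval z τ) := by ring
  rw [h10]
  exact h8.add h9

/-- **Strictness** on `k(τ, z)`. -/
theorem str_adjoin (h0 : Ctx0 k v) (hw : SphC v) (hval : ∀ r : ℝ, ∃ x : Ω, x ≠ 0 ∧ v x = r)
    (hz : TL v E z 0) (hτE : τ ∈ E) (hτ : τ ≠ 0) (hv : v τ < 0) (hN : NatM v k τ z ρ)
    {Φ : Ω →ₐ[k] Ω} (hΦ : IsoE v v Φ) {μ : ℝ} (hμ : 0 ≤ μ) (h1 : v.Ge (v τ + ρ + μ) (Φ τ - τ))
    (h2 : v.Ge μ (Φ z - z)) :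
    StrM v Φ (IntermediateField.adjoin k ({z, τ} : Set Ω)) μ := by
  refine strM_of_val fun w hw' => ?_
  obtain ⟨P, Q, hP, hQ, hQ0, h3⟩ := PF.exists_frac hw'
  have h4 : w = P.evalEval z τ / Q.evalEval z τ := by
    rw [← h3, mul_div_assoc, div_self hQ0, mul_one]
  rw [h4]
  exact StrM.div_aux hΦ hμ hQ0 (str_poly h0 hw hval hz hτE hτ hv hN hμ h1 h2 hP)
    (str_poly h0 hw hval hz hτE hτ hv hN hμ h1 h2 hQ)

end Nat

/-! ### Letters -/

section Letters

variable {p : ℕ} [hp : Fact p.Prime] [CharP k p] [CharP Ω p] [IsAlgClosed Ω] {τ z a : Ω} {ρ : ℝ}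

omit [CharP k p] in
/-- The roots of `1 + a` near `1`. -/
theorem exists_rt [CharP k p] (h0 : Ctx0 k v) (hτ : τ ≠ 0) (hv : v τ < 0) (hρ : 0 < ρ)
    (ha : v.Ge ρ a) {N : ℕ} (hN : ¬ p ∣ N) (J : ℕ) :
    ∃ u : Ω, u ^ (N * p ^ J) = 1 + a ∧ v.Ge (ρ / p ^ J) (u - 1) := by
  have hpJ : (0 : ℝ) < (p : ℝ) ^ J := pow_pos (by exact_mod_cast hp.out.pos) J
  obtain ⟨a', ha'⟩ := IsAlgClosed.exists_pow_nat_eq a (pow_pos hp.out.pos J)
  have h1 : v.Ge (ρ / p ^ J) a' := by
    intro h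
    have h2 : a ≠ 0 := by rw [← ha']; exact pow_ne_zero _ h
    have h3 := ha h2
    rw [← ha', v.map_pow h] at h3
    rw [div_le_iff₀ hpJ]
    push_cast at h3
    linarith
  have hN0 : N ≠ 0 := fun h => hN (h ▸ dvd_zero p)
  have hq : (X ^ N : k[X]).natDegree = N := natDegree_X_pow N
  have h2 : v.Ge (N * v τ + ρ / p ^ J) (τ ^ N * (1 + a') - aeval τ (X ^ N : k[X])) := by
    rw [map_pow, aeval_X]
    have e : τ ^ N * (1 + a') - τ ^ N = τ ^ N * a' := by ring
    rw [e]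
    exact (ge_pow (RVal.ge_self τ) N).mul h1
  obtain ⟨t, ht, h3, -⟩ := exists_root_near h0 (q := (X ^ N : k[X])) (by rwa [hq]) hτ hv h2
    (by rw [hq]; have := div_pos hρ hpJ; linarith)
  rw [hq] at h3
  rw [map_pow, aeval_X] at ht
  refine ⟨t / τ, ?_, ?_⟩
  · rw [pow_mul, div_pow, ht, mul_div_cancel_left₀ _ (pow_ne_zero N hτ), add_pow_char_pow,
      one_pow, ha']
  · have e : t / τ - 1 = (t - τ) * τ⁻¹ := by
      field_simp
    rw [e]
    have h4 : v.Ge (-(v τ)) τ⁻¹ := by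
      rw [← v.map_inv hτ]
      exact RVal.ge_self _
    refine (h3.mul h4).mono ?_
    ring_nf
    rfl

omit [CharP k p] [IsAlgClosed Ω] in
/-- The motion of a monomial. -/
theorem mono_move {τ' u : Ω} {σ : ℝ} (hσ : 0 ≤ σ) (hu : v.Ge σ (u - 1)) {i e : ℕ}
    (he : p ^ e ∣ i) : v.Ge (i * v τ' + p ^ e * σ) ((τ' * u) ^ i - τ' ^ i) := by
  obtain ⟨m, rfl⟩ := he
  have h1 : v.Ge ((p : ℝ) ^ e * σ) (u ^ p ^ e - 1) := by
    have h2 : u ^ p ^ e - 1 = (u - 1) ^ p ^ e := by rw [sub_pow_char_pow, one_pow]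
    rw [h2]
    have := ge_pow hu (p ^ e)
    rwa [Nat.cast_pow] at this
  have hs : (0 : ℝ) ≤ (p : ℝ) ^ e * σ := mul_nonneg (pow_nonneg (Nat.cast_nonneg _) _) hσ
  have h3 : ∀ n : ℕ, v.Ge ((p : ℝ) ^ e * σ) ((u ^ p ^ e) ^ n - 1) := by
    intro n
    induction n with
    | zero =>
      rw [pow_zero, sub_self]
      exact RVal.Ge.zero
    | succ n ih =>
      have h4 : (u ^ p ^ e) ^ (n + 1) - 1 = (u ^ p ^ e - 1) * ((u ^ p ^ e) ^ n - 1) +
          (u ^ p ^ e - 1) + ((u ^ p ^ e) ^ n - 1) := by ring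
      rw [h4]
      exact (((h1.mul ih).mono (by linarith)).add h1).add ih
  have h5 : (τ' * u) ^ (p ^ e * m) - τ' ^ (p ^ e * m) =
      τ' ^ (p ^ e * m) * ((u ^ p ^ e) ^ m - 1) := by
    rw [mul_pow, pow_mul u]
    ring
  rw [h5]
  exact (ge_pow (RVal.ge_self τ') _).mul (h3 m)

omit [CharP k p] in
/-- **The natural motion and the letters.** -/
theorem natM_of [CharP k p] (h0 : Ctx0 k v) (hτ : τ ≠ 0) (hv : v τ < 0) (hρ : 0 < ρ)
    (hl : ∀ δ : ℝ, 0 < δ → ∃ (τ' : Ω) (N J : ℕ) (q : k[X]), ¬ p ∣ N ∧ τ' ^ (N * p ^ J) = τ ∧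
      v.Ge (-δ) (z - aeval τ' q) ∧
      ∀ i ∈ q.support, ∃ e : ℕ, p ^ e ∣ i ∧ -(i * v τ) ≤ p ^ e * N * ρ) :
    NatM v k τ z ρ := by
  intro a ha δ hδ
  obtain ⟨τ', N, J, q, hN, hτ', h1, h2⟩ := hl δ hδ
  have hN0 : N ≠ 0 := fun h => hN (h ▸ dvd_zero p)
  have hM : N * p ^ J ≠ 0 := mul_ne_zero hN0 (pow_ne_zero _ hp.out.ne_zero)
  have hpJ : (0 : ℝ) < (p : ℝ) ^ J := pow_pos (by exact_mod_cast hp.out.pos) J
  have hτ'0 : τ' ≠ 0 := fun h => hτ (by rw [← hτ', h, zero_pow hM])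
  obtain ⟨u, hu, hu1⟩ := exists_rt (k := k) h0 hτ hv hρ ha hN J
  have hvτ : v τ = (N * p ^ J : ℝ) * v τ' := by
    rw [← hτ', v.map_pow hτ'0]
    push_cast
    ring
  refine ⟨τ', u, N * p ^ J, q, hM, hτ', hu, Gt.of_ge hu1 (div_pos hρ hpJ), h1, ?_⟩
  rw [aeval_eq_sum_range, aeval_eq_sum_range, ← Finset.sum_sub_distrib]
  refine RVal.Ge.sum _ _ fun i _ => ?_
  by_cases hi : i ∈ q.support
  · obtain ⟨e, he, h3⟩ := h2 i hi
    rw [← smul_sub, Algebra.smul_def]
    refine ((h0.ge _).mul (mono_move (τ' := τ') (div_pos hρ hpJ).le hu1 he)).mono ?_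
    have hN1 : (0 : ℝ) < N := by exact_mod_cast Nat.pos_of_ne_zero hN0
    have h4 : (i : ℝ) * v τ' = (i * v τ) / (N * p ^ J) := by
      rw [hvτ]
      field_simp
    have h5 : (p : ℝ) ^ e * (ρ / p ^ J) = (p ^ e * N * ρ) / (N * p ^ J) := by
      field_simp
    rw [h4, h5, ← add_div, zero_add]
    have h6 : 0 ≤ ((i : ℝ) * v τ + p ^ e * N * ρ) / (N * p ^ J) :=
      div_nonneg (by linarith) (by positivity)
    linarith
  · rw [notMem_support_iff.1 hi, zero_smul, zero_smul, sub_zero]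
    exact RVal.Ge.zero

end Letters

end Pool.Agent.TWC.PW
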