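import Pool.Agent.Lib.TWC.PWa
import Pool.Agent.Lib.TWC.PWm

/-!
# TANK W, class C, letters over a tame base: the motions along the algorithm

* `MS p v Γ Φ X y d α β`: the isometric embedding `Φ` moves `y` by `β` and `X 0 ^ d` by `α`, up to
  elements of positive value, and the tame roots of the `X n` by relatively small amounts;
* `MS.ren`, `MS.iso`, `MS.sub`, `MS.drop`, `MS.tz`: the steps of the algorithm.
-/

set_option autoImplicit false

open Polynomial

namespace Pool.Agent.TWC.PW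

open Pool.Agent.H15JM (RVal)
open Pool.Agent.D2 (Ctx0)
open Pool.Agent.D2P (clI mem_clI)
open Pool.Agent.TWM
open Pool.Agent.TWS
open Pool.Agent.TWCT

universe u

variable {k Ω : Type u} [Field k] [Field Ω] [Algebra k Ω] {v : RVal Ω} {Γ : AddSubgroup ℝ}
  {p : ℕ}

/-! ### Differences -/

section Diff

variable {a a' : Ω}

/-- The powers of two elements at a relatively small distance. -/
theorem pow_diff {σ : ℝ} (hσ : v a ≤ σ) (h : v.Ge σ (a' - a)) (i : ℕ) :
    v.Ge ((i - 1 : ℝ) * v a + σ) (a' ^ i - a ^ i) := by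
  have ha' : v.Ge (v a) a' := by
    have e : a' = a + (a' - a) := by ring
    rw [e]
    exact (RVal.ge_self a).add (h.mono hσ)
  induction i with
  | zero =>
    rw [pow_zero, pow_zero, sub_self]
    exact RVal.Ge.zero
  | succ i ih =>
    have e : a' ^ (i + 1) - a ^ (i + 1) = (a' ^ i - a ^ i) * a' + a ^ i * (a' - a) := by ring
    rw [e]
    refine RVal.Ge.add ?_ ?_
    · refine (ih.mul ha').mono ?_
      push_cast
      linarith
    · refine ((ge_pow (RVal.ge_self a) i).mul h).mono ?_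
      push_cast
      linarith

/-- The values of a polynomial over `k` of degree `≤ n`. -/
theorem poly_diff (h0 : Ctx0 k v) (hv : v a < 0) {σ : ℝ} (hσ : v a ≤ σ)
    (h : v.Ge σ (a' - a)) {q : k[X]} {n : ℕ} (hq : q.natDegree ≤ n) :
    v.Ge ((n - 1 : ℝ) * v a + σ) (aeval a' q - aeval a q) := by
  rw [aeval_eq_sum_range, aeval_eq_sum_range, ← Finset.sum_sub_distrib]
  refine RVal.Ge.sum _ _ fun i hi => ?_
  rw [← smul_sub, Algebra.smul_def]
  refine ((h0.ge _).mul (pow_diff hσ h i)).mono ?_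
  have h1 : (i : ℝ) ≤ n := by
    have := Finset.mem_range.1 hi
    exact_mod_cast (by omega : i ≤ n)
  nlinarith

/-- The linear term dominates. -/
theorem pow_diff_val (h0 : Ctx0 k v) (ha : a ≠ 0) (h : Gt v (v a) (a' - a)) (hne : a' ≠ a) {n : ℕ}
    (hn : (n : k) ≠ 0) : a' ^ n - a ^ n ≠ 0 ∧
      v (a' ^ n - a ^ n) = ((n : ℝ) - 1) * v a + v (a' - a) := by
  have hd : a' - a ≠ 0 := sub_ne_zero.2 hne
  have h1 := h hd
  set σ := v (a' - a) with hσ
  have hn0 : n ≠ 0 := fun h => hn (by rw [h, Nat.cast_zero])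
  -- the sum of the products
  have h2 : ∀ i : ℕ, v.Ge (((i : ℝ) - 2) * v a + 2 * σ) (a' ^ i - a ^ i - i * a ^ (i - 1) * (a' - a)) := by
    intro i
    induction i with
    | zero => simp; exact RVal.Ge.zero
    | succ i ih =>
      rcases Nat.eq_zero_or_pos i with rfl | hi
      · simp
        exact RVal.Ge.zero
      have e : a' ^ (i + 1) - a ^ (i + 1) - ((i + 1 : ℕ) : Ω) * a ^ (i + 1 - 1) * (a' - a) =
          (a' ^ i - a ^ i - i * a ^ (i - 1) * (a' - a)) * a' +
          i * a ^ (i - 1) * (a' - a) ^ 2 := by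
        obtain ⟨j, rfl⟩ := Nat.exists_eq_add_of_le' hi
        simp only [Nat.add_sub_cancel]
        push_cast
        ring
      have ha' : v.Ge (v a) a' := by
        have e : a' = a + (a' - a) := by ring
        rw [e]
        exact (RVal.ge_self a).add ((RVal.ge_self _).mono h1.le)
      rw [e]
      refine RVal.Ge.add ?_ ?_
      · refine (ih.mul ha').mono ?_
        push_cast
        linarith
      · have h3 : v.Ge 0 (i : Ω) := by
          have := h0.ge (i : k)
          rwa [map_natCast] at this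
        refine ((h3.mul (ge_pow (RVal.ge_self a) (i - 1))).mul
          (ge_pow (RVal.ge_self (a' - a)) 2)).mono ?_
        rw [Nat.cast_sub hi]
        push_cast
        linarith
  have h3 := h2 n
  have h4 : (n : Ω) ≠ 0 := by
    have := (_root_.map_ne_zero (algebraMap k Ω)).2 hn
    rwa [map_natCast] at this
  have h5 : v (n : Ω) = 0 := by
    have := h0.triv (n : k) hn
    rwa [map_natCast] at this
  have h6 : (n : Ω) * a ^ (n - 1) * (a' - a) ≠ 0 :=
    mul_ne_zero (mul_ne_zero h4 (pow_ne_zero _ ha)) hd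
  have h7 : v ((n : Ω) * a ^ (n - 1) * (a' - a)) = ((n : ℝ) - 1) * v a + σ := by
    rw [v.map_mul (mul_ne_zero h4 (pow_ne_zero _ ha)) hd, v.map_mul h4 (pow_ne_zero _ ha), h5,
      v.map_pow ha, Nat.cast_sub (Nat.one_le_iff_ne_zero.2 hn0)]
    push_cast
    ring
  have h8 := Gt.val_eq h6 (y := a' ^ n - a ^ n) (by
    rw [h7]
    refine Gt.of_ge (ge_sub_comm h3) ?_
    linarith)
  exact ⟨h8.1, by rw [h8.2, h7]⟩

/-- The distance of two arguments, from the distance of the values. -/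
theorem arg_diff (h0 : Ctx0 k v) (ha : a ≠ 0) (hv : v a < 0) (h : Gt v (v a) (a' - a))
    {q : k[X]} (hn : (q.natDegree : k) ≠ 0) {c : ℝ} (hc : v.Ge c (aeval a' q - aeval a q)) :
    v.Ge (c - ((q.natDegree : ℝ) - 1) * v a) (a' - a) := by
  intro hd
  have hne : a' ≠ a := sub_ne_zero.1 hd
  set n := q.natDegree with hqn
  have hn0 : n ≠ 0 := fun h => hn (by rw [h, Nat.cast_zero])
  have hq0 : q ≠ 0 := by
    rintro rfl
    exact hn0 natDegree_zero
  obtain ⟨h1, h2⟩ := pow_diff_val h0 ha h hne hn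
  have hlc : q.leadingCoeff ≠ 0 := leadingCoeff_ne_zero.2 hq0
  have e : aeval a' q - aeval a q = algebraMap k Ω q.leadingCoeff * (a' ^ n - a ^ n) +
      (aeval a' q.eraseLead - aeval a q.eraseLead) := by
    conv_lhs => rw [← eraseLead_add_C_mul_X_pow q]
    simp only [map_add, map_mul, aeval_C, map_pow, aeval_X, ← hqn]
    ring
  have h3 : q.eraseLead.natDegree ≤ n - 1 := eraseLead_natDegree_le q
  have h4 := poly_diff h0 hv (h hd).le (RVal.ge_self (a' - a)) h3
  have hc0 : algebraMap k Ω q.leadingCoeff ≠ 0 := (_root_.map_ne_zero _).2 hlc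
  have h5 : v (algebraMap k Ω q.leadingCoeff * (a' ^ n - a ^ n)) =
      ((n : ℝ) - 1) * v a + v (a' - a) := by
    rw [v.map_mul hc0 h1, h0.triv _ hlc, h2, zero_add]
  have h6 := Gt.val_eq (v := v) (x := algebraMap k Ω q.leadingCoeff * (a' ^ n - a ^ n))
    (y := aeval a' q - aeval a q) (mul_ne_zero hc0 h1) (by
      rw [h5, e]
      have e2 : algebraMap k Ω q.leadingCoeff * (a' ^ n - a ^ n) -
          (algebraMap k Ω q.leadingCoeff * (a' ^ n - a ^ n) +
          (aeval a' q.eraseLead - aeval a q.eraseLead)) =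
          -(aeval a' q.eraseLead - aeval a q.eraseLead) := by ring
      rw [e2]
      refine Gt.of_ge h4.neg ?_
      rw [Nat.cast_sub (Nat.one_le_iff_ne_zero.2 hn0)]
      push_cast
      linarith)
  have h7 := hc h6.1
  rw [h6.2, h5] at h7
  linarith

/-- The distance of two elements, from the distance of their powers. -/
theorem root_diff [CharP k p] (h0 : Ctx0 k v) (ha : a ≠ 0) (hv : v a < 0)
    (h : Gt v (v a) (a' - a)) {m : ℕ} (hm : ¬ p ∣ m) {c : ℝ} (hc : v.Ge c (a' ^ m - a ^ m)) :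
    v.Ge (c - ((m : ℝ) - 1) * v a) (a' - a) := by
  have h1 : ((X ^ m : k[X]).natDegree : k) ≠ 0 := by
    rw [natDegree_X_pow]
    intro h2
    exact hm ((CharP.cast_eq_zero_iff k p m).1 h2)
  have h2 := arg_diff h0 ha hv h h1 (c := c) (by rwa [map_pow, map_pow, aeval_X, aeval_X])
  rwa [natDegree_X_pow] at h2

end Diff

/-! ### Motions -/

section Mot

variable [hp : Fact p.Prime] [CharP Ω p] {X X' T : ℕ → Ω} {y f g : Ω} {d d' m n : ℕ}
  {Φ : Ω →ₐ[k] Ω} {α β : k}

/-- `Φ` moves `y` by `β` and `X 0 ^ d` by `α`, up to elements of positive value, and the tame roots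
of the `X n` by relatively small amounts. -/
structure MS (p : ℕ) (v : RVal Ω) (Γ : AddSubgroup ℝ) (Φ : Ω →ₐ[k] Ω) (X : ℕ → Ω) (y : Ω)
    (d : ℕ) (α β : k) : Prop where
  mvy : Gt v 0 (Φ y - y - algebraMap k Ω β)
  top : Gt v 0 (Φ (X 0) ^ d - X 0 ^ d - algebraMap k Ω α)
  mvx : v.Ge (v (X 0) - d * v (X 0)) (Φ (X 0) - X 0)
  tr : ∀ (m : ℕ) (X' : ℕ → Ω), RS p v Γ X m X' → ∀ n, Gt v (v (X' n)) (Φ (X' n) - X' n)

omit hp [CharP Ω p] in
theorem RS.npos (h : RS p v Γ X m X') : 0 < m := by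
  rcases Nat.eq_zero_or_pos m with rfl | h1
  · exact absurd (dvd_zero p) h.nd
  · exact h1

omit [CharP Ω p] in
theorem RS.nne (hX : X 0 ≠ 0) (hr : ∀ n, X (n + 1) ^ p = X n) (h : RS p v Γ X m X') (n : ℕ) :
    X' n ≠ 0 := by
  intro h1
  have h2 : ∀ j, X j ≠ 0 := by
    intro j
    induction j with
    | zero => exact hX
    | succ j ih => exact fun h3 => ih (by rw [← hr j, h3, zero_pow hp.out.ne_zero])
  exact h2 n (by rw [← h.pow n, h1, zero_pow h.npos.ne'])

omit hp [CharP Ω p] in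
/-- The powers `p ^ n` of a system of roots. -/
theorem sys_pow (hr : ∀ n, X (n + 1) ^ p = X n) (n : ℕ) : X n ^ p ^ n = X 0 := by
  induction n with
  | zero => rw [pow_zero, pow_one]
  | succ n ih => rw [pow_succ', pow_mul, hr, ih]

omit [CharP Ω p] in
theorem sys_val (hX : X 0 ≠ 0) (hr : ∀ n, X (n + 1) ^ p = X n) (n : ℕ) :
    X n ≠ 0 ∧ v (X 0) = (p : ℝ) ^ n * v (X n) := by
  have h1 : X n ≠ 0 := by
    intro h
    have := sys_pow hr n
    rw [h, zero_pow (pow_ne_zero _ hp.out.ne_zero)] at this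
    exact hX this.symm
  refine ⟨h1, ?_⟩
  have h2 := congrArg v (sys_pow hr n)
  rw [v.map_pow h1] at h2
  rw [← h2]
  push_cast
  ring

/-- The motion of the tame roots. -/
theorem MS.root [CharP k p] (h0 : Ctx0 k v) (hX : X 0 ≠ 0) (hv : v (X 0) < 0)
    (hr : ∀ n, X (n + 1) ^ p = X n) (h : MS p v Γ Φ X y d α β) (hX' : RS p v Γ X m X') (n : ℕ) :
    v.Ge (v (X' n) - (d * m : ℕ) * v (X' n)) (Φ (X' n) - X' n) := by
  have hpn : (0 : ℝ) < (p : ℝ) ^ n := pow_pos (by exact_mod_cast hp.out.pos) n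
  obtain ⟨h1, h2⟩ := sys_val hX hr n
  obtain hne := hX'.nne hX hr n
  have hm := hX'.npos
  have h3 : v (X n) = m * v (X' n) := by rw [← hX'.pow n, v.map_pow hne]
  have hneg : v (X n) < 0 := by
    rw [h2] at hv
    by_contra h4
    exact absurd hv (not_lt.2 (mul_nonneg hpn.le (not_lt.1 h4)))
  have hneg' : v (X' n) < 0 := by
    rw [h3] at hneg
    by_contra h4
    exact absurd hneg (not_lt.2 (mul_nonneg (Nat.cast_nonneg _) (not_lt.1 h4)))
  -- the motion of `X n`
  have h4 : v.Ge (v (X n) - d * v (X n)) (Φ (X n) - X n) := by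
    have h5 : (Φ (X n) - X n) ^ p ^ n = Φ (X 0) - X 0 := by
      rw [sub_pow_char_pow, ← map_pow, sys_pow hr]
    intro h6
    have h7 := h.mvx (by rw [← h5]; exact pow_ne_zero _ h6)
    rw [← h5, v.map_pow h6, h2] at h7
    push_cast at h7
    have h8 : (p : ℝ) ^ n * (v (X n) - d * v (X n)) ≤ (p : ℝ) ^ n * v (Φ (X n) - X n) := by
      calc (p : ℝ) ^ n * (v (X n) - d * v (X n)) = (p : ℝ) ^ n * v (X n) -
          d * ((p : ℝ) ^ n * v (X n)) := by ring
        _ ≤ _ := h7
    exact le_of_mul_le_mul_left h8 hpn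
  have h5 := root_diff (k := k) (p := p) (a' := Φ (X' n)) h0 hne hneg' (h.tr m X' hX' n) hX'.nd
    (c := v (X n) - d * v (X n)) (by rwa [← map_pow, hX'.pow n])
  refine h5.mono ?_
  rw [h3]
  push_cast
  linarith

/-- Renaming. -/
theorem MS.ren [CharP k p] (h0 : Ctx0 k v) (hX : X 0 ≠ 0) (hv : v (X 0) < 0)
    (hr : ∀ n, X (n + 1) ^ p = X n) (h : MS p v Γ Φ X y d α β) (hX' : RS p v Γ X m X') :
    MS p v Γ Φ X' y (m * d) α β where
  mvy := h.mvy
  top := by
    have h1 := h.top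
    rw [← hX'.pow 0, map_pow] at h1
    rwa [pow_mul, pow_mul]
  mvx := by
    have h1 := h.root h0 hX hv hr hX' 0
    rwa [mul_comm m d]
  tr r X'' h' n := h.tr (m * r) X'' ⟨fun h1 => by
      rcases (Nat.Prime.dvd_mul hp.out).1 h1 with h2 | h2
      exacts [hX'.nd h2, h'.nd h2], h'.root, fun n => by
      rw [mul_comm, pow_mul, h'.pow, hX'.pow], h'.val⟩ n

omit [hp : Fact p.Prime] [CharP Ω p] in
/-- A lower exponent, `X 0` moved by a small amount. -/
theorem MS.drop (hv : v (X 0) < 0) (h : MS p v Γ Φ X y d α β) (hd : d' < d) :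
    MS p v Γ Φ X y d' 0 β where
  mvy := h.mvy
  top := by
    have h1 : (d' : ℝ) < d := by exact_mod_cast hd
    have h2 := pow_diff (v := v) (σ := v (X 0) - d * v (X 0)) (by nlinarith [(Nat.cast_nonneg d : (0 : ℝ) ≤ d)]) h.mvx d'
    rw [map_zero, sub_zero]
    refine Gt.of_ge h2 ?_
    nlinarith
  mvx := h.mvx.mono (by
    have h1 : (d' : ℝ) < d := by exact_mod_cast hd
    nlinarith)
  tr := h.tr

/-- The elements without top letters move by small amounts. -/
theorem MS.sts [CharP k p] (h0 : Ctx0 k v) (hX : X 0 ≠ 0) (hv : v (X 0) < 0)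
    (hr : ∀ n, X (n + 1) ^ p = X n) (h : MS p v Γ Φ X y d α β)
    (hg : g ∈ STs k p v Γ X d 0) : Gt v 0 (Φ g - g) := by
  induction hg using Submodule.span_induction with
  | mem g hg =>
    obtain ⟨m, X', n, i, hX', -, hi, rfl⟩ := hg
    have hne := hX'.nne hX hr n
    obtain ⟨h1, h2⟩ := sys_val (v := v) hX hr n
    have hpn : (0 : ℝ) < (p : ℝ) ^ n := pow_pos (by exact_mod_cast hp.out.pos) n
    have h3 : v (X n) = m * v (X' n) := by rw [← hX'.pow n, v.map_pow hne]
    have hneg' : v (X' n) < 0 := by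
      rw [h2, h3] at hv
      by_contra h4
      exact absurd hv (not_lt.2 (mul_nonneg hpn.le (mul_nonneg (Nat.cast_nonneg _)
        (not_lt.1 h4))))
    have h4 := h.root h0 hX hv hr hX' n
    have hdm : (0 : ℝ) ≤ ((d * m : ℕ) : ℝ) := Nat.cast_nonneg _
    have h5 := pow_diff (σ := v (X' n) - (d * m : ℕ) * v (X' n)) (by nlinarith) h4 i
    rw [map_pow]
    refine Gt.of_ge h5 ?_
    push_cast
    nlinarith
  | zero =>
    rw [map_zero, sub_zero]
    exact Gt.zero
  | add a b _ _ h1 h2 =>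
    have e : Φ (a + b) - (a + b) = (Φ a - a) + (Φ b - b) := by
      rw [map_add]
      ring
    rw [e]
    exact h1.add h2
  | smul c a _ h1 =>
    have e : Φ (c • a) - c • a = algebraMap k Ω c * (Φ a - a) := by
      rw [map_smul, ← smul_sub, Algebra.smul_def]
    rw [e]
    intro h2
    have h3 := h1 (right_ne_zero_of_mul h2)
    have hc : c ≠ 0 := by
      rintro rfl
      rw [map_zero, zero_mul] at h2
      exact h2 rfl
    rw [v.map_mul (left_ne_zero_of_mul h2) (right_ne_zero_of_mul h2), h0.triv _ hc, zero_add]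
    exact h3

/-- Multiplication by a constant. -/
theorem gt_const (h0 : Ctx0 k v) (c : k) {x : Ω} (hx : Gt v 0 x) :
    Gt v 0 (algebraMap k Ω c * x) := by
  intro h2
  have hc : c ≠ 0 := by
    rintro rfl
    rw [map_zero, zero_mul] at h2
    exact h2 rfl
  rw [v.map_mul (left_ne_zero_of_mul h2) (right_ne_zero_of_mul h2), h0.triv _ hc, zero_add]
  exact hx (right_ne_zero_of_mul h2)

omit hp [CharP Ω p] in
/-- The motion of a polynomial of degree `≤ d` in `X 0`. -/
theorem MS.poly (h0 : Ctx0 k v) (hv : v (X 0) < 0) (h : MS p v Γ Φ X y d α β)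
    {q : k[X]} (hq : q.natDegree ≤ d) (hd : 0 < d) :
    Gt v 0 (aeval (Φ (X 0)) q - aeval (X 0) q - algebraMap k Ω (q.coeff d * α)) := by
  set q' := q - C (q.coeff d) * Polynomial.X ^ d with hq'
  have h1 : q'.natDegree ≤ d - 1 := by
    rw [natDegree_le_iff_coeff_eq_zero]
    intro N hN
    rw [hq', coeff_sub, coeff_C_mul_X_pow]
    split_ifs with h2
    · rw [h2, sub_self]
    · rw [coeff_eq_zero_of_natDegree_lt (by omega), sub_zero]
  have h2 : ∀ x : Ω, aeval x q = algebraMap k Ω (q.coeff d) * x ^ d + aeval x q' := by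
    intro x
    rw [hq', map_sub, map_mul, aeval_C, map_pow, aeval_X]
    ring
  have hd1 : (1 : ℝ) ≤ d := by exact_mod_cast hd
  have h3 := poly_diff (σ := v (X 0) - d * v (X 0)) h0 hv (by nlinarith) h.mvx h1
  have h4 : Gt v 0 (aeval (Φ (X 0)) q' - aeval (X 0) q') := by
    refine Gt.of_ge h3 ?_
    rw [Nat.cast_sub hd]
    push_cast
    nlinarith
  have e : aeval (Φ (X 0)) q - aeval (X 0) q - algebraMap k Ω (q.coeff d * α) =
      algebraMap k Ω (q.coeff d) * (Φ (X 0) ^ d - X 0 ^ d - algebraMap k Ω α) +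
      (aeval (Φ (X 0)) q' - aeval (X 0) q') := by
    rw [h2, h2, map_mul]
    ring
  rw [e]
  exact (gt_const h0 _ h.top).add h4

/-- Isogeny. -/
theorem MS.iso [CharP k p] (h0 : Ctx0 k v) (hX : X 0 ≠ 0) (hv : v (X 0) < 0)
    (hr : ∀ n, X (n + 1) ^ p = X n) (h : MS p v Γ Φ X y d α β)
    (hΓ : v (X 0) ∈ Γ) (e : ℕ) {α' : k}
    (hα : α' ^ p ^ e = α) (hg : g ∈ STs k p v Γ X d 0) :
    MS p v Γ Φ (fun n => X (e + n)) (y - g) d α' β where
  mvy := by
    have h1 := h.sts h0 hX hv hr hg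
    have e1 : Φ (y - g) - (y - g) - algebraMap k Ω β =
        (Φ y - y - algebraMap k Ω β) - (Φ g - g) := by
      rw [map_sub]
      ring
    rw [e1]
    exact h.mvy.sub h1
  top := by
    have h1 : (Φ (X e) ^ d - X e ^ d - algebraMap k Ω α') ^ p ^ e =
        Φ (X 0) ^ d - X 0 ^ d - algebraMap k Ω α := by
      rw [sub_pow_char_pow, sub_pow_char_pow, ← pow_mul, ← pow_mul, mul_comm d, pow_mul, pow_mul,
        ← map_pow, sys_pow hr, ← map_pow (algebraMap k Ω), hα]
    change Gt v 0 (Φ (X e) ^ d - X e ^ d - algebraMap k Ω α')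
    intro h2
    have h3 := h.top (by rw [← h1]; exact pow_ne_zero _ h2)
    rw [← h1, v.map_pow h2] at h3
    by_contra h4
    exact absurd h3 (not_lt.2 (mul_nonpos_of_nonneg_of_nonpos (Nat.cast_nonneg _) (not_lt.1 h4)))
  mvx := by
    have h1 := h.root h0 hX hv hr (m := 1) (X' := X) ⟨by
      rw [Nat.dvd_one]
      exact hp.out.ne_one, hr, fun n => pow_one _, hΓ⟩ e
    rwa [mul_one] at h1
  tr m X' hX' n := by
    obtain ⟨V, hV, hV'⟩ := RS.unshift hr hX e hX'
    rw [← hV']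
    exact h.tr m V hV (e + n)

omit hp [CharP Ω p] in
/-- The part at the position `0`. -/
theorem MS.sub (h0 : Ctx0 k v) (hv : v (X 0) < 0) (h : MS p v Γ Φ X y d α β)
    {q : k[X]} (hq : q.natDegree ≤ d) (hd : 0 < d) :
    MS p v Γ Φ X (y - aeval (X 0) q) d α (β - q.coeff d * α) where
  mvy := by
    have h1 := h.poly h0 hv hq hd
    have e : Φ (y - aeval (X 0) q) - (y - aeval (X 0) q) - algebraMap k Ω (β - q.coeff d * α) =
        (Φ y - y - algebraMap k Ω β) -
        (aeval (Φ (X 0)) q - aeval (X 0) q - algebraMap k Ω (q.coeff d * α)) := by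
      rw [map_sub, map_sub, ← aeval_algHom_apply]
      ring
    rw [e]
    exact h.mvy.sub h1
  top := h.top
  mvx := h.mvx
  tr := h.tr

/-- The part at the position `0`, on a finer system. -/
theorem MS.subT [CharP k p] (h0 : Ctx0 k v) (hX : X 0 ≠ 0) (hv : v (X 0) < 0)
    (hr : ∀ n, X (n + 1) ^ p = X n) (h : MS p v Γ Φ X y d α β) (hX' : RS p v Γ X m X')
    {q : k[X]} (hq : q.natDegree ≤ m * d) (hd : 0 < d) :
    MS p v Γ Φ X (y - aeval (X' 0) q) d α (β - q.coeff (m * d) * α) where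
  mvy := ((h.ren h0 hX hv hr hX').sub h0 (hX'.neg hX hv) hq (Nat.mul_pos hX'.npos hd)).mvy
  top := h.top
  mvx := h.mvx
  tr := h.tr

omit [CharP Ω p] in
/-- Comparison of `p ^ n`-th powers. -/
theorem gt_of_pow {a x : Ω} (ha : a ≠ 0) (n : ℕ) (h : Gt v (v (a ^ p ^ n)) (x ^ p ^ n)) :
    Gt v (v a) x := by
  intro hx
  have h1 := h (pow_ne_zero _ hx)
  rw [v.map_pow ha, v.map_pow hx] at h1
  have h2 : (0 : ℝ) < ((p ^ n : ℕ) : ℝ) := by exact_mod_cast pow_pos hp.out.pos n
  exact lt_of_mul_lt_mul_left h1 h2.le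

/-- The tame roots of the new coordinate are near the tame roots of the old one. -/
theorem exists_near_sys [CharP k p] [IsAlgClosed Ω] (h0 : Ctx0 k v)
    (hX : X 0 ≠ 0) (hv : v (X 0) < 0) (hr : ∀ n, X (n + 1) ^ p = X n)
    (ht : Gt v (v (X 1)) (T 0 - X 1)) {T' : ℕ → Ω}
    (hT' : RS p v Γ T m T') : ∃ X' : ℕ → Ω, RS p v Γ X m X' ∧
      ∀ n, Gt v (v (T' n)) (T' n - X' (n + 1)) := by
  obtain ⟨hX1, hXv⟩ := sys_val (v := v) hX hr 1
  have hp0 : (0 : ℝ) < p := by exact_mod_cast hp.out.pos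
  have hneg1 : v (X 1) < 0 := by
    rw [hXv, pow_one] at hv
    by_contra h
    exact absurd hv (not_lt.2 (mul_nonneg hp0.le (not_lt.1 h)))
  obtain ⟨hT0, hTv⟩ := Gt.val_eq (v := v) (y := T 0) hX1 (by
    have := ht.neg
    rwa [neg_sub] at this)
  have hTneg : v (T 0) < 0 := by rw [hTv]; exact hneg1
  have hne := hT'.ne hT0 0
  have hneg' := hT'.neg hT0 hTneg
  have hm := hT'.npos
  -- the root near `T' 0`
  obtain ⟨ξ, hξ, hξ'⟩ : ∃ ξ : Ω, ξ ^ m = X 1 ∧ Gt v (v (T' 0)) (ξ - T' 0) := by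
    by_cases h1 : X 1 = T 0
    · exact ⟨T' 0, by rw [hT'.pow, h1], by rw [sub_self]; exact Gt.zero⟩
    · have h2 : v.Ge (v (X 1 - T 0)) (X 1 - aeval (T' 0) (Polynomial.X ^ m : k[X])) := by
        rw [map_pow, aeval_X, hT'.pow]
        exact RVal.ge_self _
      obtain ⟨t, h3, -, h5⟩ := exists_root_near (p := p) h0 (q := (Polynomial.X ^ m : k[X]))
        (by rw [natDegree_X_pow]; exact hT'.nd) hne hneg' h2 (by
          rw [natDegree_X_pow]
          have h6 := ht (fun h => h1 (sub_eq_zero.1 h).symm)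
          have h7 : (m : ℝ) * v (T' 0) = v (T 0) := by rw [← hT'.pow 0, v.map_pow hne]
          rw [← neg_sub, v.map_neg _ (sub_ne_zero.2 h1), ← hTv] at h6
          rwa [h7])
      refine ⟨t, ?_, h5⟩
      rwa [map_pow, aeval_X] at h3
  have hξv := Gt.val_eq (v := v) (x := T' 0) (y := ξ) hne (by
    have := hξ'.neg
    rwa [neg_sub] at this)
  obtain ⟨R, hR0, hR⟩ := exists_rts p ξ
  have hRp : ∀ n, R n ^ p ^ n = ξ := fun n => by
    rw [← hR0]
    exact sys_pow hR n
  refine ⟨fun n => Nat.casesOn n (ξ ^ p) R, ⟨hT'.nd, ?_, ?_, ?_⟩, ?_⟩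
  · intro n
    cases n with
    | zero =>
      change R 0 ^ p = ξ ^ p
      rw [hR0]
    | succ n => exact hR n
  · intro n
    cases n with
    | zero =>
      change (ξ ^ p) ^ m = X 0
      rw [← pow_mul, mul_comm, pow_mul, hξ]
      exact hr 0
    | succ n =>
      change R n ^ m = X (n + 1)
      have h1 : (R n ^ m) ^ p ^ n = (X (n + 1)) ^ p ^ n := by
        rw [← pow_mul, mul_comm, pow_mul, hRp, hξ]
        have h2 := sys_pow (X := fun j => X (1 + j)) (fun j => hr (1 + j)) n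
        simp only [Nat.add_zero] at h2
        rw [← h2, Nat.add_comm 1 n]
      exact iterateFrobenius_inj Ω p n h1
  · change v (ξ ^ p) ∈ Γ
    rw [v.map_pow hξv.1, hξv.2, ← nsmul_eq_mul]
    exact Γ.nsmul_mem hT'.val p
  · intro n
    change Gt v (v (T' n)) (T' n - R n)
    refine gt_of_pow (p := p) (hT'.ne hT0 n) n ?_
    rw [sub_pow_char_pow, hRp, sys_pow hT'.root n]
    have := hξ'.neg
    rwa [neg_sub] at this

/-- **The change of coordinates.** -/
theorem MS.tz [CharP k p] [IsAlgClosed Ω] (h0 : Ctx0 k v)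
    (hX : X 0 ≠ 0) (hv : v (X 0) < 0) (hr : ∀ n, X (n + 1) ^ p = X n) (hΓ : v (X 0) ∈ Γ)
    (ht : Gt v (v (X 1)) (T 0 - X 1)) {q : k[X]}
    (hq : q.natDegree = d) (hd : ¬ p ∣ d) (hy : aeval (T 0) q = y) {c : k}
    (hc : c = q.coeff d) (hΦ : IsoE v v Φ) (h : MS p v Γ Φ X y d α β) :
    MS p v Γ Φ T (y ^ p - aeval (X 0) (q.map (frobenius k p))) d (β / c) (β ^ p - c ^ p * α) := by
  obtain ⟨hX1, hXv⟩ := sys_val (v := v) hX hr 1
  have hp0 : (0 : ℝ) < p := by exact_mod_cast hp.out.pos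
  have hneg1 : v (X 1) < 0 := by
    rw [hXv, pow_one] at hv
    by_contra h
    exact absurd hv (not_lt.2 (mul_nonneg hp0.le (not_lt.1 h)))
  obtain ⟨hT0, hTv⟩ := Gt.val_eq (v := v) (y := T 0) hX1 (by
    have := ht.neg
    rwa [neg_sub] at this)
  have hTneg : v (T 0) < 0 := by rw [hTv]; exact hneg1
  have hd0 : d ≠ 0 := fun h => hd (h ▸ dvd_zero p)
  have hd1 : (1 : ℝ) ≤ d := by exact_mod_cast Nat.one_le_iff_ne_zero.2 hd0
  have hdk : (q.natDegree : k) ≠ 0 := by
    rw [hq]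
    intro h1
    exact hd ((CharP.cast_eq_zero_iff k p d).1 h1)
  have hq0 : q ≠ 0 := by
    rintro rfl
    exact hd0 (by rw [← hq, natDegree_zero])
  have hc0 : c ≠ 0 := by
    rw [hc, ← hq]
    exact leadingCoeff_ne_zero.2 hq0
  -- the tame roots
  have htr : ∀ (m : ℕ) (T' : ℕ → Ω), RS p v Γ T m T' →
      ∀ n, Gt v (v (T' n)) (Φ (T' n) - T' n) := by
    intro m T' hT' n
    obtain ⟨X', hX', h1⟩ := exists_near_sys h0 hX hv hr ht hT'
    have h2 := Gt.val_eq (v := v) (hT'.ne hT0 n) (h1 n)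
    have h3 := h.tr m X' hX' (n + 1)
    rw [h2.2] at h3
    have e : Φ (T' n) - T' n = Φ (T' n - X' (n + 1)) + (Φ (X' (n + 1)) - X' (n + 1)) -
        (T' n - X' (n + 1)) := by
      rw [map_sub]
      ring
    rw [e]
    exact ((hΦ.gt_iff.2 (h1 n)).add h3).sub (h1 n)
  -- the motion of `T 0`
  have hT1 : Gt v (v (T 0)) (Φ (T 0) - T 0) := by
    have h3 : Gt v (v (T 0)) (Φ (X 1) - X 1) := by
      rw [hTv]
      exact h.tr 1 X (RS.refl hr hΓ) 1
    have h4 : Gt v (v (T 0)) (T 0 - X 1) := by rwa [hTv]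
    have e : Φ (T 0) - T 0 = Φ (T 0 - X 1) + (Φ (X 1) - X 1) - (T 0 - X 1) := by
      rw [map_sub]
      ring
    rw [e]
    exact ((hΦ.gt_iff.2 h4).add h3).sub h4
  have hΦy : aeval (Φ (T 0)) q - aeval (T 0) q = Φ y - y := by
    rw [← hy, ← aeval_algHom_apply]
  have hy0 : v.Ge 0 (Φ y - y) := by
    have e : Φ y - y = (Φ y - y - algebraMap k Ω β) + algebraMap k Ω β := by ring
    rw [e]
    exact h.mvy.ge.add (h0.ge β)
  have hmT : v.Ge (v (T 0) - d * v (T 0)) (Φ (T 0) - T 0) := by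
    have h3 := arg_diff h0 hT0 hTneg hT1 hdk (c := 0) (by rw [hΦy]; exact hy0)
    rw [hq] at h3
    exact h3.mono (by linarith)
  -- the polynomial without its leading term
  have hr1 : q.eraseLead.natDegree ≤ d - 1 := by
    have := eraseLead_natDegree_le q
    rwa [hq] at this
  have hlead : ∀ x : Ω, aeval x q = algebraMap k Ω c * x ^ d + aeval x q.eraseLead := by
    intro x
    conv_lhs => rw [← eraseLead_add_C_mul_X_pow q]
    rw [map_add, map_mul, aeval_C, map_pow, aeval_X, hq, hc, ← hq]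
    rw [add_comm]
    rfl
  have hrT : Gt v 0 (aeval (Φ (T 0)) q.eraseLead - aeval (T 0) q.eraseLead) := by
    refine Gt.of_ge (poly_diff h0 hTneg (by nlinarith) hmT hr1) ?_
    rw [Nat.cast_sub (Nat.one_le_iff_ne_zero.2 hd0)]
    push_cast
    nlinarith
  refine ⟨?_, ?_, hmT, htr⟩
  · -- the motion of `z`
    have h3 := h.poly h0 hv (q := q.map (frobenius k p)) (natDegree_map_le.trans hq.le)
      (Nat.pos_of_ne_zero hd0)
    have e : Φ (y ^ p - aeval (X 0) (q.map (frobenius k p))) -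
        (y ^ p - aeval (X 0) (q.map (frobenius k p))) - algebraMap k Ω (β ^ p - c ^ p * α) =
        (Φ y - y - algebraMap k Ω β) ^ p -
        (aeval (Φ (X 0)) (q.map (frobenius k p)) - aeval (X 0) (q.map (frobenius k p)) -
          algebraMap k Ω ((q.map (frobenius k p)).coeff d * α)) := by
      rw [sub_pow_char, sub_pow_char, coeff_map, ← hc, frobenius_def, map_sub, ← map_pow Φ,
        ← aeval_algHom_apply, map_sub, map_pow (algebraMap k Ω) β]
      ring
    rw [e]
    refine Gt.sub (fun h4 => ?_) h3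
    have h5 : Φ y - y - algebraMap k Ω β ≠ 0 := fun h6 => h4 (by
      rw [h6, zero_pow hp.out.ne_zero])
    rw [v.map_pow h5]
    exact mul_pos hp0 (h.mvy h5)
  · -- the motion of `T 0 ^ d`
    have e : Φ (T 0) ^ d - T 0 ^ d - algebraMap k Ω (β / c) = algebraMap k Ω c⁻¹ *
        ((Φ y - y - algebraMap k Ω β) -
          (aeval (Φ (T 0)) q.eraseLead - aeval (T 0) q.eraseLead)) := by
      have h3 : algebraMap k Ω c * (Φ (T 0) ^ d - T 0 ^ d) =
          (Φ y - y) - (aeval (Φ (T 0)) q.eraseLead - aeval (T 0) q.eraseLead) := by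
        rw [← hΦy, hlead, hlead]
        ring
      have h4 : algebraMap k Ω c⁻¹ * algebraMap k Ω c = 1 := by
        rw [← map_mul, inv_mul_cancel₀ hc0, map_one]
      have h5 : algebraMap k Ω (β / c) = algebraMap k Ω c⁻¹ * algebraMap k Ω β := by
        rw [div_eq_inv_mul, map_mul]
      calc Φ (T 0) ^ d - T 0 ^ d - algebraMap k Ω (β / c) =
          algebraMap k Ω c⁻¹ * (algebraMap k Ω c * (Φ (T 0) ^ d - T 0 ^ d)) -
            algebraMap k Ω (β / c) := by rw [← mul_assoc, h4, one_mul]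
        _ = _ := by rw [h3, h5]; ring
    rw [e]
    exact gt_const h0 _ (h.mvy.sub hrT)

end Mot

end Pool.Agent.TWC.PW
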