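import Pool.Agent.Lib.TWC.PWc
import Pool.Agent.Lib.TWC.PWn
import Pool.Agent.Lib.TWC.PWstp
import Pool.Agent.Lib.TWC.PWk0

/-!
# TANK W, class C: rational letters over a tame base (row PW), the kernel of a stage

The classes of `(X 0 ^ (b + 1), y)` modulo the lower letters and the motions `(α, β)` of
`(X 0 ^ (b + 1), y)` satisfy the same recursion along the chains of steps.

* `Law`: the additive polynomials `A`, `B` of a chain: `y' ^ p ^ E = A(X 0 ^ (b + 1)) + B(y)` modulo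
  the lower letters, and `β' ^ p ^ E = A(α) + B(β)`;
* `Chn.law`: every chain has a law;
* `Chn.ker`: if `y` has infinitely many top letters and `y'` has none, then the map `β ↦ β'` of the
  motions with `α = 0` is onto and has a kernel;
* `StrN`, `StrN.grow`: the strict motions.
-/

set_option autoImplicit false
set_option linter.unusedSectionVars false

open Polynomial

namespace Pool.Agent.TWC.PW

open Pool.Agent.H15JM (RVal)
open Pool.Agent.D2 (Ctx0)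
open Pool.Agent.D2P (clI mem_clI)
open Pool.Agent.TWM
open Pool.Agent.TWS
open Pool.Agent.TWC.PF (Lm SW SA)

universe u

variable {k Ω : Type u} [Field k] [Field Ω] [Algebra k Ω] {v : RVal Ω} {Γ : AddSubgroup ℝ}
  {p : ℕ} [hp : Fact p.Prime] [CharP k p] [CharP Ω p] [IsAlgClosed k] [IsAlgClosed Ω]
  {C C' : IntermediateField k Ω} {X X₁ X' T T' : ℕ → Ω} {y y' f g s : Ω} {b b₁ b' m : ℕ}

theorem lm_pow_pow {S : Submodule k Ω} (hS : ∀ s ∈ S, s ^ p ∈ S) (h : Lm v S f) (e : ℕ) :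
    Lm v S (f ^ p ^ e) := by
  induction e with
  | zero => rwa [pow_zero, pow_one]
  | succ e ih =>
    rw [pow_succ, pow_mul]
    exact ih.pow hS

/-- A polynomial in `X' 0`, without its top term. -/
theorem low_mem (h : RS p v Γ X m X') {q : k[X]} (hq : q.natDegree ≤ m * (b + 1)) :
    aeval (X' 0) q - algebraMap k Ω (q.coeff (m * (b + 1))) * X 0 ^ (b + 1) ∈
      SAs k p v Γ X (b + 1) := by
  rw [aeval_eq_sum_range' (Nat.lt_succ_of_le hq), Finset.sum_range_succ, Algebra.smul_def,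
    pow_mul, h.pow, add_sub_cancel_right]
  refine sum_mem fun i hi => Submodule.smul_mem _ _ (Submodule.subset_span
    ⟨m, X', 0, 0, i, h, ?_, by rw [pow_zero, mul_one]⟩)
  exact_mod_cast Finset.mem_range.1 hi

/-- The letters of `X (e + ·)`. -/
theorem SAs_shift_le (hr : ∀ n, X (n + 1) ^ p = X n) (hX : X 0 ≠ 0) (e : ℕ) {B : ℝ} :
    SAs k p v Γ (fun n => X (e + n)) B ≤ SAs k p v Γ X B := by
  refine Submodule.span_mono ?_
  rintro _ ⟨m, X', n, l, i, h, hi, rfl⟩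
  obtain ⟨V, hV, hV'⟩ := RS.unshift hr hX e h
  exact ⟨m, V, e + n, l, i, hV, hi, by rw [hV']⟩

/-- The law of a chain of steps from `(X, y, b)` to `(X', y', b')`. -/
def Law (k : Type u) {Ω : Type u} [Field k] [Field Ω] [Algebra k Ω] (p : ℕ) (v : RVal Ω)
    (Γ : AddSubgroup ℝ) (X : ℕ → Ω) (y : Ω) (b : ℕ) (X' : ℕ → Ω) (y' : Ω) (b' : ℕ) : Prop :=
  (∀ f, Lm v (SAs k p v Γ X' (b' + 1)) f → Lm v (SAs k p v Γ X (b + 1)) f) ∧
  ∃ (E : ℕ) (A B : k[X]), AddP p A ∧ AddP p B ∧ B ≠ 0 ∧ A.natDegree ≤ B.natDegree ∧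
    Lm v (SAs k p v Γ X (b + 1)) (y' ^ p ^ E - aeval (X 0 ^ (b + 1)) A - aeval y B) ∧
    ∀ Φ : Ω →ₐ[k] Ω, IsoE v v Φ → ∀ α β : k, MS p v Γ Φ X y (b + 1) α β →
      ∃ α' β' : k, MS p v Γ Φ X' y' (b' + 1) α' β' ∧ β' ^ p ^ E = A.eval α + B.eval β

theorem Law.refl : Law k p v Γ X y b X y b := by
  refine ⟨fun f h => h, 0, 0, Polynomial.X, AddP.zero, AddP.self, X_ne_zero, by simp, ?_,
    fun Φ _ α β h => ⟨α, β, h, ?_⟩⟩
  · rw [pow_zero, pow_one, map_zero, sub_zero, aeval_X, sub_self]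
    exact Lm.of_mem (zero_mem _)
  · rw [pow_zero, pow_one, Polynomial.eval_zero, eval_X, zero_add]

theorem Law.ren (h0 : Ctx0 k v) (hr : ∀ n, X (n + 1) ^ p = X n) (hX : X 0 ≠ 0) (hv : v (X 0) < 0)
    (h : RS p v Γ X m X₁) (hb : b₁ + 1 = m * (b + 1)) (hL : Law k p v Γ X₁ y b₁ X' y' b') :
    Law k p v Γ X y b X' y' b' := by
  have e1 : X₁ 0 ^ (b₁ + 1) = X 0 ^ (b + 1) := by rw [hb, pow_mul, h.pow]
  have e2 : ((b₁ : ℝ) + 1) = m * ((b : ℝ) + 1) := by exact_mod_cast hb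
  have e3 : SAs k p v Γ X₁ (b₁ + 1) = SAs k p v Γ X (b + 1) := by
    rw [e2, ← SAs_eq (k := k) hX h]
  obtain ⟨h1, E, A, B, hA, hB, hB0, hd, h2, h3⟩ := hL
  rw [e3] at h1 h2
  rw [e1] at h2
  refine ⟨h1, E, A, B, hA, hB, hB0, hd, h2, fun Φ hΦ α β hM => h3 Φ hΦ α β ?_⟩
  rw [hb]
  exact hM.ren h0 hX hv hr h

theorem Law.iso (h0 : Ctx0 k v) (hr : ∀ n, X (n + 1) ^ p = X n) (hX : X 0 ≠ 0) (hv : v (X 0) < 0)
    (hΓ : v (X 0) ∈ Γ) {e : ℕ} (hg : g ∈ STs k p v Γ X (b + 1) 1)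
    (hL : Law k p v Γ (fun n => X (e + n)) (y - g) b X' y' b') :
    Law k p v Γ X y b X' y' b' := by
  obtain ⟨h1, E, A, B, hA, hB, hB0, hd, h2, h3⟩ := hL
  have hsh : SAs k p v Γ (fun n => X (e + n)) (b + 1) ≤ SAs k p v Γ X (b + 1) :=
    SAs_shift_le hr hX e
  have hpe : 0 < p ^ e := pow_pos hp.out.pos e
  have hXe : X (e + 0) ^ p ^ e = X 0 := by
    rw [add_comm]
    exact root_pow_add hr 0 e
  have hg' : Lm v (SAs k p v Γ X (b + 1)) (aeval g (B ^ p ^ e)) :=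
    (hB.pow e).lm h0 (fun s hs => SAs_pow hs)
      ((Lm.of_mem hg).mono STs_le_SAs)
  refine ⟨fun f hf => (h1 f hf).mono hsh, E + e, A.map (iterateFrobenius k p e), B ^ p ^ e,
    hA.map_frob e, hB.pow e, pow_ne_zero _ hB0, ?_, ?_, fun Φ hΦ α β hM => ?_⟩
  · rw [natDegree_map_eq_of_injective (iterateFrobenius_inj k p e), natDegree_pow]
    exact hd.trans (Nat.le_mul_of_pos_left _ hpe)
  · have h4 := lm_pow_pow (fun s hs => SAs_pow hs) (h2.mono hsh) e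
    have e1 : (y' ^ p ^ E - aeval (X (e + 0) ^ (b + 1)) A - aeval (y - g) B) ^ p ^ e =
        y' ^ p ^ (E + e) - aeval (X 0 ^ (b + 1)) (A.map (iterateFrobenius k p e)) -
          (aeval y (B ^ p ^ e) - aeval g (B ^ p ^ e)) := by
      rw [sub_pow_char_pow, sub_pow_char_pow, ← (hB.pow e).aeval_sub, ← pow_mul, ← pow_add,
        ← aeval_map_frob, ← pow_mul, mul_comm (b + 1), pow_mul, hXe, map_pow]
    have h5 := h4.sub hg'
    have e2 : y' ^ p ^ (E + e) - aeval (X 0 ^ (b + 1)) (A.map (iterateFrobenius k p e)) -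
        aeval y (B ^ p ^ e) = (y' ^ p ^ E - aeval (X (e + 0) ^ (b + 1)) A -
          aeval (y - g) B) ^ p ^ e - aeval g (B ^ p ^ e) := by
      rw [e1]
      ring
    rw [e2]
    exact h5
  · obtain ⟨α₁, hα₁⟩ := IsAlgClosed.exists_pow_nat_eq α hpe
    have h4 : g ∈ STs k p v Γ X ((b + 1 : ℕ) : ℝ) 0 := by
      push_cast
      exact STs_mono le_rfl (Nat.zero_le 1) hg
    obtain ⟨α', β', h5, h6⟩ := h3 Φ hΦ α₁ β (hM.iso h0 hX hv hr hΓ e hα₁ h4)
    refine ⟨α', β', h5, ?_⟩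
    have e1 : A.eval α₁ ^ p ^ e = (A.map (iterateFrobenius k p e)).eval α := by
      have := aeval_map_frob e A α₁
      rw [hα₁] at this
      simpa only [coe_aeval_eq_eval] using this.symm
    rw [pow_add, pow_mul, h6, add_pow_char_pow, e1, eval_pow]

theorem Law.tz (h0 : Ctx0 k v) (hr : ∀ n, X (n + 1) ^ p = X n) (hX : X 0 ≠ 0) (hv : v (X 0) < 0)
    (hΓ : v (X 0) ∈ Γ) (hdiv : ∀ g ∈ Γ, g / p ∈ Γ) (hb : ¬ p ∣ b + 1) {q q₀ : k[X]}
    (hq : q.natDegree = b + 1) (hT : ∀ n, T (n + 1) ^ p = T n) (ht : aeval (T 0) q = y)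
    (ht1 : v.Ge ((b + 1 : ℕ) * v (X 2) - b * v (X 1)) (T 0 - X 1))
    (hy : Lm v (ST k p v Γ X (b + 1) 2) (y - aeval (X 1) q)) (hT' : RS p v Γ T m T')
    (hq₀ : q₀.natDegree ≤ m * (b + 1))
    (hL : Law k p v Γ T (y ^ p - aeval (X 0) (q.map (frobenius k p)) - aeval (T' 0) q₀) b
      X' y' b') : Law k p v Γ X y b X' y' b' := by
  obtain ⟨h1, E, A, B, hA, hB, hB0, hd, h2, h3⟩ := hL
  obtain ⟨hX1, hX12, hX2⟩ := val_12 hr hX hv
  obtain ⟨hT0, hTv⟩ := val_T0 hr hX hv ht1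
  have hTneg : v (T 0) < 0 := by rw [hTv]; exact hX1
  have hTΓ : v (T 0) ∈ Γ := by
    rw [hTv, val_rt hr hX 1, pow_one]
    exact hdiv _ hΓ
  have hp1 := hp.out.one_lt
  have hb0 : (0 : ℝ) < (b + 1 : ℕ) := by exact_mod_cast Nat.succ_pos b
  have hnear : Gt v (v (X 1)) (T 0 - X 1) := by
    refine Gt.of_ge ht1 ?_
    have h6 := mul_lt_mul_of_pos_left hX12 hb0
    push_cast at h6 ⊢
    linarith
  have hTX : ∀ f, Lm v (SAs k p v Γ T (b + 1)) f → Lm v (SAs k p v Γ X (b + 1)) f := fun f hf =>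
    hf.trans fun s hs => SAs_T h0 hr hX hv hΓ hdiv hT hq hb ht ht1 hy hs
  set c : k := q.coeff (b + 1) with hc
  have hc0 : c ≠ 0 := by
    rw [hc, ← hq]
    refine leadingCoeff_ne_zero.2 ?_
    rintro rfl
    simp at hq
  set c₀ : k := q₀.coeff (m * (b + 1)) with hc₀
  set ξ := X 0 ^ (b + 1) with hξ
  set ξ₁ := T 0 ^ (b + 1) with hξ₁
  set y₁ := y ^ p - aeval (X 0) (q.map (frobenius k p)) - aeval (T' 0) q₀ with hy₁
  -- the classes
  have k1 : Lm v (SAs k p v Γ X (b + 1)) (y - algebraMap k Ω c * ξ₁) := by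
    have h4 := low_mem (b := b) (RS.refl hT hTΓ) (q := q) (by rw [hq, one_mul])
    rw [one_mul, ht] at h4
    exact hTX _ (Lm.of_mem h4)
  have k2 : Lm v (SAs k p v Γ X (b + 1))
      (aeval (X 0) (q.map (frobenius k p)) - algebraMap k Ω (c ^ p) * ξ) := by
    have h4 := low_mem (b := b) (RS.refl hr hΓ) (q := q.map (frobenius k p))
      (by rw [natDegree_map, hq, one_mul])
    rw [one_mul, coeff_map, frobenius_def] at h4
    exact Lm.of_mem h4
  have k3 : Lm v (SAs k p v Γ X (b + 1)) (aeval (T' 0) q₀ - algebraMap k Ω c₀ * ξ₁) :=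
    hTX _ (Lm.of_mem (low_mem hT' hq₀))
  have k4 : Lm v (SAs k p v Γ X (b + 1)) (ξ₁ - algebraMap k Ω c⁻¹ * y) := by
    have h4 := (k1.smul h0 c⁻¹).neg
    have e : ξ₁ - algebraMap k Ω c⁻¹ * y =
        -(algebraMap k Ω c⁻¹ * (y - algebraMap k Ω c * ξ₁)) := by
      have h5 : algebraMap k Ω c⁻¹ * algebraMap k Ω c = 1 := by
        rw [← map_mul, inv_mul_cancel₀ hc0, map_one]
      linear_combination (-ξ₁) * h5
    rw [e]
    exact h4
  have k5 : Lm v (SAs k p v Γ X (b + 1))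
      (y₁ - (y ^ p - algebraMap k Ω (c₀ / c) * y - algebraMap k Ω (c ^ p) * ξ)) := by
    have h4 := ((k1.smul h0 (c₀ / c)).sub k2).sub k3
    have e : y₁ - (y ^ p - algebraMap k Ω (c₀ / c) * y - algebraMap k Ω (c ^ p) * ξ) =
        algebraMap k Ω (c₀ / c) * (y - algebraMap k Ω c * ξ₁) -
        (aeval (X 0) (q.map (frobenius k p)) - algebraMap k Ω (c ^ p) * ξ) -
        (aeval (T' 0) q₀ - algebraMap k Ω c₀ * ξ₁) := by
      have h5 : algebraMap k Ω (c₀ / c) * algebraMap k Ω c = algebraMap k Ω c₀ := by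
        rw [← map_mul, div_mul_cancel₀ _ hc0]
      rw [hy₁]
      linear_combination ξ₁ * h5
    rw [e]
    exact h4
  -- the polynomials
  set P₁ : k[X] := C c⁻¹ * Polynomial.X with hP₁
  set P₂ : k[X] := Polynomial.X ^ p - C (c₀ / c) * Polynomial.X with hP₂
  set P₃ : k[X] := C (c ^ p) * Polynomial.X with hP₃
  have a1 : AddP p P₁ := AddP.self.C_mul _
  have a2 : AddP p P₂ := AddP.self.pow_p.sub (AddP.self.C_mul _)
  have a3 : AddP p P₃ := AddP.self.C_mul _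
  have d1 : P₁.natDegree = 1 := natDegree_C_mul_X _ (inv_ne_zero hc0)
  have d3 : P₃.natDegree = 1 := natDegree_C_mul_X _ (pow_ne_zero _ hc0)
  have d2 : P₂.natDegree = p := by
    rw [hP₂, natDegree_sub_eq_left_of_natDegree_lt, natDegree_X_pow]
    rw [natDegree_X_pow]
    exact (natDegree_C_mul_le _ _).trans_lt (by rwa [natDegree_X])
  have hBpos := hB.natDegree_pos hB0
  have dA : (A.comp P₁).natDegree = A.natDegree := by rw [natDegree_comp, d1, mul_one]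
  have dB : (B.comp P₂).natDegree = B.natDegree * p := by rw [natDegree_comp, d2]
  have dB' : (B.comp P₃).natDegree = B.natDegree := by rw [natDegree_comp, d3, mul_one]
  have hlt : B.natDegree < B.natDegree * p := by nlinarith
  have dS : (A.comp P₁ + B.comp P₂).natDegree = B.natDegree * p := by
    rw [natDegree_add_eq_right_of_natDegree_lt, dB]
    rw [dA, dB]
    omega
  refine ⟨fun f hf => hTX f (h1 f hf), E, -(B.comp P₃), A.comp P₁ + B.comp P₂, (hB.comp a3).neg,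
    (hA.comp a1).add (hB.comp a2), ?_, ?_, ?_, fun Φ hΦ α β hM => ?_⟩
  · intro h4
    rw [h4, natDegree_zero] at dS
    omega
  · rw [natDegree_neg, dB', dS]
    exact hlt.le
  · have h4 := hTX _ h2
    have h5 := hA.lm h0 (fun s hs => SAs_pow hs) k4
    have h6 := hB.lm h0 (fun s hs => SAs_pow hs) k5
    rw [hA.aeval_sub] at h5
    rw [hB.aeval_sub, hB.aeval_sub (y ^ p - algebraMap k Ω (c₀ / c) * y)] at h6
    have e1 : aeval ξ (B.comp P₃) = aeval (algebraMap k Ω (c ^ p) * ξ) B := by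
      rw [aeval_comp, hP₃, map_mul, aeval_C, aeval_X]
    have e2 : aeval y (A.comp P₁) = aeval (algebraMap k Ω c⁻¹ * y) A := by
      rw [aeval_comp, hP₁, map_mul, aeval_C, aeval_X]
    have e3 : aeval y (B.comp P₂) = aeval (y ^ p - algebraMap k Ω (c₀ / c) * y) B := by
      rw [aeval_comp, hP₂, map_sub, map_pow, map_mul, aeval_C, aeval_X]
    have e : y' ^ p ^ E - aeval ξ (-(B.comp P₃)) - aeval y (A.comp P₁ + B.comp P₂) =
        (y' ^ p ^ E - aeval ξ₁ A - aeval y₁ B) +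
        (aeval ξ₁ A - aeval (algebraMap k Ω c⁻¹ * y) A) +
        (aeval y₁ B - (aeval (y ^ p - algebraMap k Ω (c₀ / c) * y) B -
          aeval (algebraMap k Ω (c ^ p) * ξ) B)) := by
      rw [map_neg, map_add, e1, e2, e3]
      ring
    rw [e]
    exact (h4.add h5).add h6
  · have h4 := hM.tz h0 hX hv hr hΓ hnear hq hb ht hc hΦ
    have h5 := h4.subT h0 hT0 hTneg hT hT' hq₀ (Nat.succ_pos b)
    obtain ⟨α', β', h6, h7⟩ := h3 Φ hΦ _ _ h5
    refine ⟨α', β', h6, ?_⟩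
    rw [h7, Polynomial.eval_add, Polynomial.eval_neg, eval_comp, eval_comp, eval_comp, hP₁, hP₂, hP₃]
    simp only [Polynomial.eval_mul, eval_C, eval_X, Polynomial.eval_sub, eval_pow]
    have e1 : β ^ p - c ^ p * α - q₀.coeff (m * (b + 1)) * (β / c) =
        (β ^ p - c₀ / c * β) - c ^ p * α := by
      rw [← hc₀]
      field_simp
      ring
    rw [e1, hB.eval_sub, div_eq_inv_mul]
    ring

/-- **Every chain has a law.** -/
theorem Chn.law (h0 : Ctx0 k v) (h : Chn p v Γ C X y b C' X' y' b')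
    (hP : PRT p v Γ C X y (b + 1)) (hb : ¬ p ∣ b + 1) : Law k p v Γ X y b X' y' b' := by
  induction h with
  | refl C X y b => exact Law.refl
  | step h h' ih =>
    obtain ⟨-, -, h3, h4⟩ := h.inv hb
    have hL := ih h3 h4
    cases h with
    | ren h hb' hP' => exact hL.ren h0 hP.root hP.ne hP.neg h hb'
    | iso e g hg hg' h1 h2 hP' => exact hL.iso h0 hP.root hP.ne hP.neg hP.val hg'
    | tz q q₀ hq hTC hT ht ht1 hy hT' hq₀ hP' =>
      exact hL.tz h0 hP.root hP.ne hP.neg hP.val hP.div hb hq hT ht ht1 hy hT' hq₀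

/-- The top letters of `y` occur at infinitely many positions (no power of `y` is a twisted
polynomial in `X 0 ^ (b + 1)`, modulo the lower letters). -/
def TopInf (k : Type u) {Ω : Type u} [Field k] [Field Ω] [Algebra k Ω] (p : ℕ) (v : RVal Ω)
    (Γ : AddSubgroup ℝ) (X : ℕ → Ω) (y : Ω) (b : ℕ) : Prop :=
  ∀ (s n : ℕ) (c : ℕ → k), ¬ Lm v (SAs k p v Γ X (b + 1))
    (y ^ p ^ s - ∑ j ∈ Finset.range n, algebraMap k Ω (c j) * (X 0 ^ (b + 1)) ^ p ^ j)

/-- **The kernel lemma.** -/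
theorem Law.ker (h0 : Ctx0 k v) (h : Law k p v Γ X y b X' y' b')
    (hy' : Lm v (STs k p v Γ X' (b' + 1) 0) y') (hinf : TopInf k p v Γ X y b) :
    ∃ ψ : k → k, (∀ x z, ψ (x + z) = ψ x + ψ z) ∧ Function.Surjective ψ ∧
      (∃ ζ : k, ζ ≠ 0 ∧ ψ ζ = 0) ∧
      ∀ Φ : Ω →ₐ[k] Ω, IsoE v v Φ → ∀ β : k, MS p v Γ Φ X y (b + 1) 0 β →
        ∃ α, MS p v Γ Φ X' y' (b' + 1) α (ψ β) := by
  obtain ⟨h1, E, A, B, hA, hB, hB0, hd, h2, h3⟩ := h
  have hpE : 0 < p ^ E := pow_pos hp.out.pos E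
  have hroot : ∀ x : k, ∃ z : k, z ^ p ^ E = x := fun x => IsAlgClosed.exists_pow_nat_eq x hpE
  have hinj : ∀ x z : k, x ^ p ^ E = z ^ p ^ E → x = z := fun x z h => iterateFrobenius_inj k p E h
  choose R hR using hroot
  refine ⟨fun β => R (B.eval β), fun x z => hinj _ _ ?_, fun γ => ?_, ?_, fun Φ hΦ β hM => ?_⟩
  · rw [add_pow_char_pow, hR, hR, hR, hB.eval_add]
  · obtain ⟨β, hβ⟩ := hB.surj hB0 (γ ^ p ^ E)
    refine ⟨β, hinj _ _ ?_⟩
    show R (B.eval β) ^ p ^ E = γ ^ p ^ E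
    rw [hR, hβ]
  · by_contra hno
    push Not at hno
    obtain ⟨a, s, ha, hBa⟩ := hB.ker hB0 fun κ hκ => by
      by_contra h4
      refine hno κ h4 (hinj _ _ ?_)
      show R (B.eval κ) ^ p ^ E = 0 ^ p ^ E
      rw [hR, hκ, zero_pow hpE.ne']
    -- the class of `y`
    have h4 : Lm v (SAs k p v Γ X (b + 1)) (y' ^ p ^ E) :=
      lm_pow_pow (fun s hs => SAs_pow hs) (h1 _ (hy'.mono STs_le_SAs)) E
    have h5 := (h4.sub h2).smul h0 a⁻¹
    obtain ⟨n, c, hc⟩ := hA.exists_sum (Ω := Ω)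
    refine hinf s n (fun j => -(a⁻¹ * c j)) ?_
    have h6 : algebraMap k Ω a⁻¹ * algebraMap k Ω a = 1 := by
      rw [← map_mul, inv_mul_cancel₀ ha, map_one]
    have e : y ^ p ^ s - ∑ j ∈ Finset.range n,
        algebraMap k Ω (-(a⁻¹ * c j)) * (X 0 ^ (b + 1)) ^ p ^ j =
        algebraMap k Ω a⁻¹ * (y' ^ p ^ E - (y' ^ p ^ E - aeval (X 0 ^ (b + 1)) A - aeval y B)) := by
      have e1 : aeval y B = algebraMap k Ω a * y ^ p ^ s := by
        rw [hBa, map_mul, aeval_C, map_pow, aeval_X]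
      have e2 : ∑ j ∈ Finset.range n, algebraMap k Ω (-(a⁻¹ * c j)) * (X 0 ^ (b + 1)) ^ p ^ j =
          -(algebraMap k Ω a⁻¹ * aeval (X 0 ^ (b + 1)) A) := by
        rw [hc, Finset.mul_sum, ← Finset.sum_neg_distrib]
        refine Finset.sum_congr rfl fun j _ => ?_
        rw [map_neg, map_mul]
        ring
      rw [e1, e2]
      linear_combination (-(y ^ p ^ s)) * h6
    rw [e]
    exact h5
  · obtain ⟨α', β', h4, h5⟩ := h3 Φ hΦ 0 β hM
    refine ⟨α', ?_⟩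
    have h6 : β' = R (B.eval β) := by
      refine hinj _ _ ?_
      rw [h5, hR, hA.eval_zero, zero_add]
    rw [h6] at h4
    exact h4

/-- **The kernel lemma**, for a chain. -/
theorem Chn.ker (h0 : Ctx0 k v) (h : Chn p v Γ C X y b C' X' y' b')
    (hP : PRT p v Γ C X y (b + 1)) (hb : ¬ p ∣ b + 1)
    (hy' : Lm v (STs k p v Γ X' (b' + 1) 0) y') (hinf : TopInf k p v Γ X y b) :
    ∃ ψ : k → k, (∀ x z, ψ (x + z) = ψ x + ψ z) ∧ Function.Surjective ψ ∧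
      (∃ ζ : k, ζ ≠ 0 ∧ ψ ζ = 0) ∧
      ∀ Φ : Ω →ₐ[k] Ω, IsoE v v Φ → ∀ β : k, MS p v Γ Φ X y (b + 1) 0 β →
        ∃ α, MS p v Γ Φ X' y' (b' + 1) α (ψ β) :=
  (h.law h0 hP hb).ker h0 hy' hinf

/-! ### The strict motions -/

/-- `n` strict motions `y ↦ y + ζ`, `X 0` fixed up to lower terms. -/
def StrN (p : ℕ) (v : RVal Ω) (Γ : AddSubgroup ℝ) (C : IntermediateField k Ω) (X : ℕ → Ω) (y : Ω)
    (d n : ℕ) : Prop :=
  ∃ Θ : Finset k, n ≤ Θ.card ∧ ∀ ζ ∈ Θ, ∀ Φ : Ω →ₐ[k] Ω, IsoE v v Φ → MS p v Γ Φ X y d 0 ζ →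
    ∃ μ : ℝ, 0 < μ ∧ ∀ f ∈ C, v.Ge (v f + μ) (Φ f - f)

/-- The strict motions of a larger field. -/
theorem StrN.grow {C₂ : IntermediateField k Ω} {X₂ : ℕ → Ω} {y₂ : Ω} {d d₂ n : ℕ} {ψ : k → k}
    (hadd : ∀ x z, ψ (x + z) = ψ x + ψ z) (hsurj : Function.Surjective ψ)
    (hker : ∃ ζ : k, ζ ≠ 0 ∧ ψ ζ = 0)
    (hM : ∀ Φ : Ω →ₐ[k] Ω, IsoE v v Φ → ∀ β : k, MS p v Γ Φ X y d 0 β →
      MS p v Γ Φ X₂ y₂ d₂ 0 (ψ β)) (hC : C ≤ C₂) (h : StrN p v Γ C₂ X₂ y₂ d₂ n) :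
    StrN p v Γ C X y d (2 * n) := by
  classical
  obtain ⟨Θ, hn, hΘ⟩ := h
  obtain ⟨κ, hκ0, hκ⟩ := hker
  choose R hR using hsurj
  set Θ' : Finset k := Θ.image R ∪ Θ.image fun θ => R θ + κ with hΘ'
  have hψ : ∀ θ, ψ (R θ + κ) = θ := fun θ => by rw [hadd, hR, hκ, add_zero]
  have hinj : Function.Injective R := fun a b hab => by rw [← hR a, hab, hR]
  have hinj' : Function.Injective fun θ => R θ + κ := fun a b hab => by
    have := hψ a
    rw [← this]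
    show ψ (R a + κ) = b
    have h1 : R a + κ = R b + κ := hab
    rw [h1, hψ]
  refine ⟨Θ', ?_, fun ζ hζ Φ hΦ hMS => ?_⟩
  · rw [hΘ', Finset.card_union_of_disjoint, Finset.card_image_of_injective _ hinj,
      Finset.card_image_of_injective _ hinj']
    · omega
    · rw [Finset.disjoint_left]
      intro ζ h1 h2
      obtain ⟨a, -, rfl⟩ := Finset.mem_image.1 h1
      obtain ⟨b, -, hb⟩ := Finset.mem_image.1 h2
      have h3 : a = b := by
        rw [← hR a, ← hb, hψ]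
      subst h3
      exact hκ0 (add_eq_left.1 hb)
  · have h1 : ψ ζ ∈ Θ := by
      rcases Finset.mem_union.1 hζ with h2 | h2
      · obtain ⟨θ, hθ, rfl⟩ := Finset.mem_image.1 h2
        rwa [hR]
      · obtain ⟨θ, hθ, rfl⟩ := Finset.mem_image.1 h2
        show ψ (R θ + κ) ∈ Θ
        rwa [hψ]
    obtain ⟨μ, hμ, h3⟩ := hΘ _ h1 Φ hΦ (hM Φ hΦ ζ hMS)
    exact ⟨μ, hμ, fun f hf => h3 f (hC hf)⟩

end Pool.Agent.TWC.PW
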