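import Pool.Agent.Lib.TWC.PWn

/-!
# TANK W, class C, letters over a tame base: strictness at the end of the algorithm

* `natM_ST`: the natural motions, for a sum of letters of bounded exponents;
* `MS.strict`: a motion with `β = 0` and exponents `≤ B < d` is strict on the whole field.
-/

set_option autoImplicit false

open Polynomial

namespace Pool.Agent.TWC.PW

open Pool.Agent.H15JM (RVal)
open Pool.Agent.D2 (Ctx0)
open Pool.Agent.D2P (clI mem_clI)
open Pool.Agent.LU1 (adj)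
open Pool.Agent.TWM
open Pool.Agent.TWS
open Pool.Agent.TWCT
open Pool.Agent.TWC.PF (Lm SW SA)

universe u

variable {k Ω : Type u} [Field k] [Field Ω] [Algebra k Ω] {v : RVal Ω} {Γ : AddSubgroup ℝ}
  {p : ℕ} [hp : Fact p.Prime] [CharP k p] [CharP Ω p] [IsAlgClosed k] [IsAlgClosed Ω]
  {C : IntermediateField k Ω} {X X' : ℕ → Ω} {y : Ω} {d m j : ℕ} {B ρ : ℝ}
  {Φ : Ω →ₐ[k] Ω} {α β : k}

/-- The natural motions, for a sum of letters of exponents `≤ B`. -/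
theorem natM_ST (h0 : Ctx0 k v) (hX : X 0 ≠ 0) (hv : v (X 0) < 0) (hB : 0 ≤ B) (hρ : 0 < ρ)
    (hBρ : -(B * v (X 0)) ≤ ρ) (hX' : RS p v Γ X m X') (hy : Lm v (ST k p v Γ X B j) y) :
    NatM v k (X' 0) y ρ := by
  have hne := hX'.ne hX 0
  have hneg := hX'.neg hX hv
  have hm : (0 : ℝ) < m := by exact_mod_cast hX'.npos
  refine natM_of (p := p) h0 hne hneg hρ fun δ hδ => ?_
  obtain ⟨s, hs, h1⟩ := hy δ hδ
  rw [ST_eq hX hX'] at hs
  obtain ⟨m₁, b₁, X₁, h2, h3, h4⟩ := ST_level hX'.root hne hX'.val (by positivity) hs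
  obtain ⟨L, hL⟩ := PF.SW_poly h2.root h4
  obtain ⟨P, hP, h5⟩ := hL L le_rfl
  refine ⟨X₁ L, m₁, L, P, h2.nd, ?_, by rwa [hP], fun i hi => ?_⟩
  · rw [mul_comm, pow_mul, sys_pow h2.root, h2.pow]
  · obtain ⟨n, a, -, -, h7, h8⟩ := h5 i (mem_support_iff.1 hi)
    refine ⟨L - n, h8 ▸ dvd_mul_left _ _, ?_⟩
    have h9 : (a : ℝ) ≤ m₁ * (m * B) := (Nat.cast_le.2 h7).trans h3
    have h10 := hX'.val_mul hX 0
    have hm₁ : (0 : ℝ) < m₁ := by exact_mod_cast h2.npos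
    have hpp : (0 : ℝ) < (p : ℝ) ^ (L - n) := pow_pos (by exact_mod_cast hp.out.pos) _
    rw [h8]
    push_cast
    have h11 : -((a : ℝ) * v (X' 0)) ≤ m₁ * ρ := by
      calc -((a : ℝ) * v (X' 0)) = a * (-v (X' 0)) := by ring
        _ ≤ (m₁ * (m * B)) * (-v (X' 0)) := mul_le_mul_of_nonneg_right h9 (by linarith)
        _ = m₁ * (-(B * (m * v (X' 0)))) := by ring
        _ = m₁ * (-(B * v (X 0))) := by rw [h10]
        _ ≤ m₁ * ρ := mul_le_mul_of_nonneg_left hBρ hm₁.le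
    calc -((a : ℝ) * (p : ℝ) ^ (L - n) * v (X' 0)) =
        (p : ℝ) ^ (L - n) * (-((a : ℝ) * v (X' 0))) := by ring
      _ ≤ (p : ℝ) ^ (L - n) * (m₁ * ρ) := mul_le_mul_of_nonneg_left h11 hpp.le
      _ = (p : ℝ) ^ (L - n) * m₁ * ρ := by ring

/-- The systems of roots through a tame root. -/
theorem exists_sys (hr : ∀ n, X (n + 1) ^ p = X n) {f : Ω} (hm : ¬ p ∣ m)
    (hf : f ^ m = X 0) (hfΓ : v f ∈ Γ) : ∃ X' : ℕ → Ω, RS p v Γ X m X' ∧ X' 0 = f := by
  obtain ⟨R, hR0, hR⟩ := exists_rts p f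
  refine ⟨R, ⟨hm, hR, fun n => ?_, by rwa [hR0]⟩, hR0⟩
  have h1 : (R n ^ m) ^ p ^ n = (X n) ^ p ^ n := by
    rw [← pow_mul, mul_comm, pow_mul, sys_pow hR, hR0, hf, sys_pow hr]
  exact iterateFrobenius_inj Ω p n h1

/-- **A motion with `β = 0` and lower exponents is strict.** -/
theorem MS.strict (h0 : Ctx0 k v) (hw : SphC v) (hval : ∀ r : ℝ, ∃ x : Ω, x ≠ 0 ∧ v x = r)
    (hP : PRT p v Γ C X y B) (hB : 0 ≤ B) (hBd : B < d) (hΦ : IsoE v v Φ)
    (h : MS p v Γ Φ X y d α 0) : ∃ μ : ℝ, 0 < μ ∧ StrM v Φ C μ := by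
  have hX := hP.ne
  have hv := hP.neg
  have hr := hP.root
  set B' := (B + d) / 2 with hB'
  have hB1 : B < B' := by rw [hB']; linarith
  have hB2 : B' < d := by rw [hB']; linarith
  set ρ := -(B' * v (X 0)) with hρ
  have hρ0 : 0 < ρ := by
    rw [hρ]
    nlinarith
  -- the margin
  obtain ⟨μ, hμ0, hμ1, hμ2⟩ : ∃ μ : ℝ, 0 < μ ∧ μ ≤ -((d - B') * v (X 0)) ∧ v.Ge μ (Φ y - y) := by
    have h1 : 0 < -((d - B') * v (X 0)) := by nlinarith
    by_cases h2 : Φ y - y = 0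
    · exact ⟨_, h1, le_rfl, by rw [h2]; exact RVal.Ge.zero⟩
    · have h3 := h.mvy
      rw [map_zero, sub_zero] at h3
      refine ⟨min (v (Φ y - y)) (-((d - B') * v (X 0))), lt_min (h3 h2) h1, min_le_right _ _, ?_⟩
      exact (RVal.ge_self _).mono (min_le_left _ _)
  refine ⟨μ, hμ0, ?_⟩
  set S : Set Ω := {f | ∃ m : ℕ, ¬ p ∣ m ∧ f ^ m = X 0 ∧ v f ∈ Γ} with hS
  -- strictness at one tame root
  have hone : ∀ f : S, StrM v Φ (IntermediateField.adjoin k ({y, (f : Ω)} : Set Ω)) μ := by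
    rintro ⟨f, m, hm, hf, hfΓ⟩
    obtain ⟨X', hX', rfl⟩ := exists_sys hr hm hf hfΓ
    have hfE : X' 0 ∈ EW v (WT k p v Γ (X 0)) X :=
      TWC.EW.le (self_le_clI v _ (IntermediateField.subset_adjoin k _ ⟨m, hm, hf, hfΓ⟩))
    have h1 := h.root h0 hX hv hr hX' 0
    refine str_adjoin h0 hw hval hP.tl hfE (hX'.ne hX 0) (hX'.neg hX hv)
      (natM_ST h0 hX hv hB hρ0 (by rw [hρ]; nlinarith) hX' hP.ltr) hΦ hμ0.le (h1.mono ?_) hμ2
    have h2 := hX'.val_mul hX 0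
    have h3 : ((d * m : ℕ) : ℝ) * v (X' 0) = d * v (X 0) := by
      rw [← h2]
      push_cast
      ring
    rw [h3, hρ]
    linarith
  -- the union
  have hne : Nonempty S := ⟨⟨X 0, 1, by
    rw [Nat.dvd_one]
    exact hp.out.ne_one, pow_one _, hP.val⟩⟩
  have hdir : Directed (· ≤ ·) fun f : S =>
      IntermediateField.adjoin k ({y, (f : Ω)} : Set Ω) := by
    rintro ⟨f₁, m₁, hm₁, hf₁, hΓ₁⟩ ⟨f₂, m₂, hm₂, hf₂, hΓ₂⟩
    obtain ⟨X₁, hX₁, rfl⟩ := exists_sys hr hm₁ hf₁ hΓ₁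
    obtain ⟨X₂, hX₂, rfl⟩ := exists_sys hr hm₂ hf₂ hΓ₂
    obtain ⟨r, r₁, X'', h1, -, -, h2⟩ := RS.common (k := k) hX hX₁ hX₂
    obtain ⟨c, -, hc⟩ := h2 0
    have h3 := hX₁.trans h1
    have hmem : X'' 0 ∈ IntermediateField.adjoin k ({y, X'' 0} : Set Ω) :=
      IntermediateField.subset_adjoin k _ (Or.inr rfl)
    refine ⟨⟨X'' 0, m₁ * r, h3.nd, h3.pow 0, h3.val⟩, ?_, ?_⟩
    · refine IntermediateField.adjoin_le_iff.2 ?_
      rintro w (rfl | hw)
      · exact IntermediateField.subset_adjoin k _ (Or.inl rfl)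
      · rw [Set.mem_singleton_iff] at hw
        rw [hw]
        change X₁ 0 ∈ IntermediateField.adjoin k ({y, X'' 0} : Set Ω)
        rw [← h1.pow 0]
        exact pow_mem hmem _
    · refine IntermediateField.adjoin_le_iff.2 ?_
      rintro w (rfl | hw)
      · exact IntermediateField.subset_adjoin k _ (Or.inl rfl)
      · rw [Set.mem_singleton_iff] at hw
        rw [hw]
        change X₂ 0 ∈ IntermediateField.adjoin k ({y, X'' 0} : Set Ω)
        rw [hc]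
        exact mul_mem (IntermediateField.algebraMap_mem _ _) (pow_mem hmem _)
  set U : IntermediateField k Ω := ⨆ f : S, IntermediateField.adjoin k ({y, (f : Ω)} : Set Ω)
    with hU
  have hUs : StrM v Φ U μ := by
    intro w hw'
    have h1 : w ∈ (U : Set Ω) := hw'
    rw [hU, IntermediateField.coe_iSup_of_directed hdir] at h1
    obtain ⟨f, hf⟩ := Set.mem_iUnion.1 h1
    exact hone f w hf
  have hCU : C ≤ clI v U := by
    rw [hP.eq]
    have hyU : y ∈ U := by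
      obtain ⟨f⟩ := hne
      exact (le_iSup (fun f : S => IntermediateField.adjoin k ({y, (f : Ω)} : Set Ω)) f)
        (IntermediateField.subset_adjoin k _ (Or.inl rfl))
    refine cadj_le (cld_clI v _) (clI_mono' (IntermediateField.adjoin_le_iff.2 ?_))
      (self_le_clI v _ hyU)
    intro f hf
    exact (le_iSup (fun f : S => IntermediateField.adjoin k ({y, (f : Ω)} : Set Ω)) ⟨f, hf⟩)
      (IntermediateField.subset_adjoin k _ (Or.inr rfl))
  exact (hUs.clI hΦ).le hCU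

end Pool.Agent.TWC.PW
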