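import Pool.Agent.Lib.TWC.PWo

/-!
# TANK W, class C, letters over a tame base: infinitely many stages give many strict translations

* `MS.of_fix`: the start;
* `SG`: one stage, as seen by the motions;
* `strN`: an infinite sequence of stages;
* `strZ_of_stages`.
-/

set_option autoImplicit false

open Polynomial

namespace Pool.Agent.TWC.PW

open Pool.Agent.H15JM (RVal)
open Pool.Agent.D2 (Ctx0)
open Pool.Agent.D2P (clI mem_clI)
open Pool.Agent.LU1 (adj)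
open Pool.Agent.TWM
open Pool.Agent.TWS
open Pool.Agent.TWCT
open Pool.Agent.TWC.PF (Lm SW SA)

universe u

variable {k Ω : Type u} [Field k] [Field Ω] [Algebra k Ω] {v : RVal Ω} {Γ : AddSubgroup ℝ}
  {p : ℕ} {C C' : IntermediateField k Ω} {X X' : ℕ → Ω} {y y' : Ω} {d d' m j : ℕ} {B ρ : ℝ}
  {Φ : Ω →ₐ[k] Ω} {α β : k}

/-- The start: `Φ` fixes the letters and moves `y` by `β`. -/
theorem MS.of_fix (hfix : ∀ (m : ℕ) (X' : ℕ → Ω), RS p v Γ X m X' → ∀ n, Φ (X' n) = X' n)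
    (h0 : Φ (X 0) = X 0) (hy : Φ y = y + algebraMap k Ω β) : MS p v Γ Φ X y d 0 β where
  mvy := by
    rw [hy, show y + algebraMap k Ω β - y - algebraMap k Ω β = 0 by ring]
    exact Gt.zero
  top := by
    rw [h0, sub_self, map_zero, sub_zero]
    exact Gt.zero
  mvx := by
    rw [h0, sub_self]
    exact RVal.Ge.zero
  tr m X' h n := by
    rw [hfix m X' h n, sub_self]
    exact Gt.zero

/-- One stage, as seen by the motions. -/
structure SG (p : ℕ) (v : RVal Ω) (Γ : AddSubgroup ℝ) (C : IntermediateField k Ω) (X : ℕ → Ω)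
    (y : Ω) (d : ℕ) (C' : IntermediateField k Ω) (X' : ℕ → Ω) (y' : Ω) (d' : ℕ) : Prop where
  le : C ≤ C'
  mv : ∃ ψ : k → k, Function.Surjective ψ ∧ ψ 0 = 0 ∧ (∃ ζ : k, ζ ≠ 0 ∧ ψ ζ = 0) ∧
    ∀ Φ : Ω →ₐ[k] Ω, IsoE v v Φ → ∀ α β : k, MS p v Γ Φ X y d α β →
      ∃ α', MS p v Γ Φ X' y' d' α' (ψ β)
  st : ∀ Φ : Ω →ₐ[k] Ω, IsoE v v Φ → ∀ α : k, MS p v Γ Φ X y d α 0 →
    ∃ μ : ℝ, 0 < μ ∧ StrM v Φ C μ

/-- `n` stages follow the given data. -/
inductive SGs (p : ℕ) (v : RVal Ω) (Γ : AddSubgroup ℝ) :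
    ℕ → IntermediateField k Ω → (ℕ → Ω) → Ω → ℕ → Prop
  | one {C C' : IntermediateField k Ω} {X X' : ℕ → Ω} {y y' : Ω} {d d' : ℕ}
      (h : SG p v Γ C X y d C' X' y' d') : SGs p v Γ 1 C X y d
  | step {C C' : IntermediateField k Ω} {X X' : ℕ → Ω} {y y' : Ω} {d d' n : ℕ}
      (h : SG p v Γ C X y d C' X' y' d') (h' : SGs p v Γ n C' X' y' d') :
      SGs p v Γ (n + 1) C X y d

/-- **Many stages**: many strict motions. -/
theorem strN {n : ℕ} (h : SGs p v Γ n C X y d) :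
    ∃ Θ : Finset k, n ≤ Θ.card ∧ (0 : k) ∈ Θ ∧ ∀ ζ ∈ Θ, ∀ Φ : Ω →ₐ[k] Ω,
      IsoE v v Φ → ∀ α : k, MS p v Γ Φ X y d α ζ → ∃ μ : ℝ, 0 < μ ∧ StrM v Φ C μ := by
  classical
  induction h with
  | one h =>
    refine ⟨{0}, by simp, by simp, fun ζ hζ Φ hΦ α hM => ?_⟩
    rw [Finset.mem_singleton] at hζ
    subst hζ
    exact h.st Φ hΦ α hM
  | step h _ ih =>
    obtain ⟨Θ, h1, h2, h3⟩ := ih
    obtain ⟨ψ, hψ, hψ0, ⟨κ, hκ, hψκ⟩, hmv⟩ := h.mv
    -- a section of `ψ`, with value `0` at `0`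
    choose s hs using hψ
    set s' : k → k := fun x => if x = 0 then 0 else s x with hs'
    have hs1 : ∀ x, ψ (s' x) = x := by
      intro x
      by_cases hx : x = 0
      · rw [hs']
        simp only [hx, if_true]
        exact hψ0
      · rw [hs']
        simp only [hx, if_false]
        exact hs x
    have hinj : Function.Injective s' := fun a b hab => by rw [← hs1 a, ← hs1 b, hab]
    have hκ' : κ ∉ Θ.image s' := by
      intro h4
      obtain ⟨x, -, hx⟩ := Finset.mem_image.1 h4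
      have h5 : x = 0 := by rw [← hs1 x, hx, hψκ]
      rw [h5] at hx
      apply hκ
      rw [← hx, hs']
      simp
    refine ⟨insert κ (Θ.image s'), ?_, ?_, fun ζ hζ Φ hΦ α hM => ?_⟩
    · rw [Finset.card_insert_of_notMem hκ', Finset.card_image_of_injective _ hinj]
      omega
    · refine Finset.mem_insert_of_mem (Finset.mem_image.2 ⟨0, h2, ?_⟩)
      rw [hs']
      simp
    · have h4 : ψ ζ ∈ Θ := by
        rcases Finset.mem_insert.1 hζ with rfl | h5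
        · rw [hψκ]
          exact h2
        · obtain ⟨x, hx, rfl⟩ := Finset.mem_image.1 h5
          rw [hs1]
          exact hx
      obtain ⟨α', hM'⟩ := hmv Φ hΦ α ζ hM
      obtain ⟨μ, hμ, h5⟩ := h3 _ h4 Φ hΦ α' hM'
      exact ⟨μ, hμ, h5.le h.le⟩

section Z

variable [hp : Fact p.Prime] [CharP k p] [CharP Ω p] [IsAlgClosed k] [IsAlgClosed Ω]

/-- **(Z)**: the strict translations, in elementary form. -/
theorem strZ_of_stages (h0 : Ctx0 k v) (hw : SphC v)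
    (hval : ∀ r : ℝ, ∃ x : Ω, x ≠ 0 ∧ v x = r) (hr : ∀ n, X (n + 1) ^ p = X n)
    (hy : TL v (EW v (WT k p v Γ (X 0)) X) y 0)
    (hC : C = cadj v (WT k p v Γ (X 0)) y) (hfix : ∀ (m : ℕ) (X' : ℕ → Ω), RS p v Γ X m X' →
      ∀ n, X' n ∈ EW v (WT k p v Γ (X 0)) X)
    (h : ∀ n, SGs p v Γ (n + 1) C X y d) (n : ℕ) :
    ∃ Θ : Finset k, n ≤ Θ.card ∧ ∀ ζ ∈ Θ, ∃ μ : ℝ, 0 < μ ∧ ∀ P ∈ PI (WT k p v Γ (X 0)),
      v.Ge (v (P.eval y) + μ) (P.eval (y + algebraMap k Ω ζ) - P.eval y) := by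
  obtain ⟨Θ, h1, -, h2⟩ := strN (h n)
  refine ⟨Θ, by omega, fun ζ hζ => ?_⟩
  obtain ⟨Φ, hΦ, hfixE, hΦy, -⟩ := exists_trans h0 hw hval hy (h0.ge ζ)
  obtain ⟨μ, hμ, h3⟩ := h2 ζ hζ Φ hΦ 0 (MS.of_fix (fun m X' hX' n => hfixE _ (hfix m X' hX' n))
    (hfixE _ (TWC.EW.mem 0)) hΦy)
  refine ⟨μ, hμ, fun P hP => ?_⟩
  have h4 : P.eval y ∈ C := by
    rw [hC]
    exact eval_mem (PI_mono (le_cadj _ _ _) hP) (self_mem_cadj _ _ _)
  have h5 := h3.self h4
  have h6 : Φ (P.eval y) = P.eval (y + algebraMap k Ω ζ) := by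
    rw [← hΦy]
    have h7 : P.map (Φ : Ω →+* Ω) = P := by
      ext i
      rw [coeff_map]
      exact hfixE _ (TWC.EW.le (hP i))
    conv_rhs => rw [← h7]
    exact (Polynomial.eval_map_apply (Φ : Ω →+* Ω) y).symm
  rwa [h6] at h5

end Z

end Pool.Agent.TWC.PW
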