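import Pool.Agent.Lib.TWC.PWp
import Pool.Agent.Lib.TWC.PWk
import Pool.Agent.Lib.TWC.PWt

/-!
# TANK W, class C, letters over a tame base: infinitely many stages, many strict translations

* `Stg.sg`: one stage of the algorithm, as seen by the motions;
* `Stgs.sgs`: the chains of stages;
* `strZ_of_stgs`: arbitrarily long chains of stages give arbitrarily many strict translations.
-/

set_option autoImplicit false

open Polynomial

namespace Pool.Agent.TWC.PW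

open Pool.Agent.H15JM (RVal)
open Pool.Agent.D2 (Ctx0)
open Pool.Agent.D2P (clI mem_clI)
open Pool.Agent.TWM
open Pool.Agent.TWS
open Pool.Agent.TWCT
open Pool.Agent.TWC.PF (Lm SW SA)

universe u

variable {k Ω : Type u} [Field k] [Field Ω] [Algebra k Ω] {v : RVal Ω} {Γ : AddSubgroup ℝ}
  {p : ℕ} [hp : Fact p.Prime] [CharP k p] [CharP Ω p] [IsAlgClosed k] [IsAlgClosed Ω]
  {C C' C₁ : IntermediateField k Ω} {X X' X₁ : ℕ → Ω} {y y' g : Ω} {b b' b₁ e m n : ℕ}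
  {Φ : Ω →ₐ[k] Ω} {α β : k}

omit [IsAlgClosed Ω] in
/-- The motions at the beginning of a stage. -/
theorem Ini.ms (h0 : Ctx0 k v) (hP : PRT p v Γ C X y (b + 1))
    (h : Ini p v Γ C X y b e g m C₁ X₁ b₁) (hM : MS p v Γ Φ X y (b + 1) α β) :
    ∃ α' : k, MS p v Γ Φ X₁ (y - g) (m * (b + 1)) α' β := by
  obtain ⟨α', hα'⟩ := IsAlgClosed.exists_pow_nat_eq α (pow_pos hp.out.pos e : 0 < p ^ e)
  have hg : g ∈ STs k p v Γ X ((b + 1 : ℕ) : ℝ) 0 := by
    rw [Nat.cast_succ]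
    exact STs_mono le_rfl (Nat.zero_le _) h.hg'
  have h1 := hM.iso h0 hP.ne hP.neg hP.root hP.val e hα' hg
  exact ⟨α', h1.ren h0 h.hP.ne h.hP.neg h.hP.root h.rs⟩

/-- **One stage, as seen by the motions.** -/
theorem Stg.sg (h0 : Ctx0 k v) (hw : SphC v) (hval : ∀ r : ℝ, ∃ x : Ω, x ≠ 0 ∧ v x = r)
    (hP : PRT p v Γ C X y (b + 1)) (h : Stg p v Γ C X y b C' X' y' b') :
    SG p v Γ C X y (b + 1) C' X' y' (b' + 1) where
  le := h.inv.1
  mv := by
    obtain ⟨⟨e, g, m, C₁, X₁, b₁, h1, h2⟩, h3⟩ := h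
    obtain ⟨ψ, h4, h5, h6, h7⟩ := h2.ker h0 h1.hP₁ h1.nd
      (h3.mono (STs_mono le_rfl (Nat.zero_le _))) (h1.topInf h0)
    refine ⟨ψ, h5, ?_, h6, fun Φ hΦ α β hM => ?_⟩
    · have h8 := h4 0 0
      rw [add_zero] at h8
      linear_combination -h8
    · obtain ⟨α', hM'⟩ := h1.ms h0 hP hM
      exact h7 Φ hΦ β (hM'.drop h1.hP₁.neg h1.lt)
  st := fun Φ hΦ α hM => by
    obtain ⟨⟨e, g, m, C₁, X₁, b₁, h1, h2⟩, h3⟩ := h
    obtain ⟨α', hM'⟩ := h1.ms h0 hP hM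
    obtain ⟨μ, hμ, h4⟩ := hM'.strict h0 hw hval h1.hP₁ (by positivity)
      (by exact_mod_cast h1.lt) hΦ
    exact ⟨μ, hμ, h4.le h1.le⟩

/-- **The chains of stages, as seen by the motions.** -/
theorem Stgs.sgs (h0 : Ctx0 k v) (hw : SphC v) (hval : ∀ r : ℝ, ∃ x : Ω, x ≠ 0 ∧ v x = r)
    (hP : PRT p v Γ C X y (b + 1)) (h : Stgs p v Γ (n + 1) C X y b C' X' y' b') :
    SGs p v Γ (n + 1) C X y (b + 1) := by
  induction n generalizing C X y b with
  | zero =>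
    cases h with
    | step h h' => exact .one (h.sg h0 hw hval hP)
  | succ n ih =>
    cases h with
    | step h h' => exact .step (h.sg h0 hw hval hP) (ih h.inv.2.2.1 h')

/-- **Arbitrarily long chains of stages give arbitrarily many strict translations.** -/
theorem strZ_of_stgs (h0 : Ctx0 k v) (hw : SphC v) (hval : ∀ r : ℝ, ∃ x : Ω, x ≠ 0 ∧ v x = r)
    (hP : PRT p v Γ C X y (b + 1))
    (h : ∀ n, ∃ (C' : IntermediateField k Ω) (X' : ℕ → Ω) (y' : Ω) (b' : ℕ),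
      Stgs p v Γ n C X y b C' X' y' b') (n : ℕ) :
    ∃ Θ : Finset k, n ≤ Θ.card ∧ ∀ ζ ∈ Θ, ∃ μ : ℝ, 0 < μ ∧ ∀ P ∈ PI (WT k p v Γ (X 0)),
      v.Ge (v (P.eval y) + μ) (P.eval (y + algebraMap k Ω ζ) - P.eval y) := by
  refine strZ_of_stages h0 hw hval hP.root hP.tl hP.eq (fun m X' hX' j => ?_)
    (fun n => ?_) n (d := b + 1)
  · have h1 : X' j ∈ ST k p v Γ X 1 0 := by
      have h2 := mem_ST (k := k) (i := 1) (B := 1) hX' (Nat.zero_le j) (by
        rw [mul_one]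
        exact_mod_cast hX'.npos)
      rwa [pow_one] at h2
    exact ST_le_EW hP.root hP.ne hP.val h1
  · obtain ⟨C', X', y', b', h1⟩ := h (n + 1)
    exact h1.sgs h0 hw hval hP

end Pool.Agent.TWC.PW
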