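import Pool.Agent.Lib.TWC.PWr
import Pool.Agent.Lib.TWC.PWd2
import Pool.Agent.Lib.TWF.FF2

/-!
# TANK W, class C, letters over a tame base: the tame base

* `WT_val`: the values of `WT(x)`;
* `WT_oi`, `WT_pb`: `x` is a `p`-basis of `WT(x)`.
-/

set_option autoImplicit false

open Polynomial

namespace Pool.Agent.TWC.PW

open Pool.Agent.H15JM (RVal)
open Pool.Agent.LU1 (adj)
open Pool.Agent.D2 (Ctx0)
open Pool.Agent.D2P (clI mem_clI)
open Pool.Agent.TW (PBasis mon pcomb)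
open Pool.Agent.TWM
open Pool.Agent.TWC.PF (Lm SW SA)

universe u

variable {k Ω : Type u} [Field k] [Field Ω] [Algebra k Ω] {v : RVal Ω} {Γ : AddSubgroup ℝ}
  {p : ℕ} [hp : Fact p.Prime] [CharP k p] [CharP Ω p] [IsAlgClosed k] [IsAlgClosed Ω]
  {X X' : ℕ → Ω} {a : Ω} {m : ℕ}

/-- The values of `WT(X 0)`. -/
theorem WT_val (h0 : Ctx0 k v) (hr : ∀ n, X (n + 1) ^ p = X n) (hX : X 0 ≠ 0) (hv : v (X 0) < 0)
    (hΓ : v (X 0) ∈ Γ) (ha : a ∈ WT k p v Γ (X 0)) (ha0 : a ≠ 0) :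
    ∃ m : ℕ, ¬ p ∣ m ∧ ∃ z : ℤ, (m : ℝ) * v a = z * v (X 0) := by
  obtain ⟨a', ha', h1⟩ := mem_clI.1 ha (v a + 1)
  obtain ⟨h2, h3⟩ := Gt.val_eq ha0 (Gt.of_ge h1 (by linarith))
  obtain ⟨m, X', hX', h4⟩ := adj_level (y := 1) hr hX hΓ
    (IntermediateField.adjoin.mono k _ _ Set.subset_union_left ha')
  have h5 : a' ∈ IntermediateField.adjoin k ({X' 0} : Set Ω) := by
    refine (IntermediateField.adjoin_le_iff.2 ?_) h4
    rintro f (rfl | hf)
    · exact IntermediateField.subset_adjoin k _ rfl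
    · rw [Set.mem_singleton_iff] at hf
      rw [hf]
      exact one_mem _
  obtain ⟨r, s, h6⟩ := (IntermediateField.mem_adjoin_simple_iff k a').1 h5
  have hr0 : r ≠ 0 := by
    rintro rfl
    rw [map_zero, zero_div] at h6
    exact h2 h6
  have hs0 : s ≠ 0 := by
    rintro rfl
    rw [map_zero, div_zero] at h6
    exact h2 h6
  obtain ⟨h7, h8⟩ := kpp_val h0 (hX'.ne hX 0) (hX'.neg hX hv) hr0
  obtain ⟨h9, h10⟩ := kpp_val h0 (hX'.ne hX 0) (hX'.neg hX hv) hs0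
  refine ⟨m, hX'.nd, (r.natDegree : ℤ) - s.natDegree, ?_⟩
  rw [← h3, h6, div_eq_mul_inv, v.map_mul h7 (inv_ne_zero h9), v.map_inv h9, h8, h10,
    ← hX'.val_mul hX 0]
  push_cast
  ring

/-- The powers of `x` are orthogonal over the `p`-th powers of `WT(x)`. -/
theorem WT_oi (h0 : Ctx0 k v) (hr : ∀ n, X (n + 1) ^ p = X n) (hX : X 0 ≠ 0) (hv : v (X 0) < 0)
    (hΓ : v (X 0) ∈ Γ) : OI p v (WT k p v Γ (X 0)) ![X 0] 0 := by
  classical
  intro c hc b hb α
  by_cases hcα : c α = 0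
  · rw [hcα, zero_pow hp.out.ne_zero, zero_mul]
    exact RVal.Ge.zero
  have hmon : ∀ β : Fin 1 → Fin p, mon (p := p) ![X 0] β = X 0 ^ (β 0 : ℕ) := fun β => by
    rw [mon, Fin.prod_univ_one]
    rfl
  set S := Finset.univ.filter fun β : Fin 1 → Fin p => c β ≠ 0 with hS
  have hsum : pcomb ![X 0] c = ∑ β ∈ S, c β ^ p * mon ![X 0] β := by
    rw [pcomb, hS, Finset.sum_filter]
    refine Finset.sum_congr rfl fun β _ => ?_
    split_ifs with h1
    · rfl
    · push Not at h1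
      rw [h1, zero_pow hp.out.ne_zero, zero_mul]
  have hne : ∀ β ∈ S, c β ^ p * mon ![X 0] β ≠ 0 := fun β hβ => by
    rw [hmon]
    exact mul_ne_zero (pow_ne_zero _ (Finset.mem_filter.1 hβ).2) (pow_ne_zero _ hX)
  have hval : ∀ β, c β ≠ 0 → v (c β ^ p * mon ![X 0] β) = p * v (c β) + (β 0 : ℕ) * v (X 0) := by
    intro β hβ
    rw [hmon, v.map_mul (pow_ne_zero _ hβ) (pow_ne_zero _ hX), v.map_pow hβ, v.map_pow hX]
  obtain ⟨β, hβ, h1, h2, h3⟩ := val_sum_distinct (v := v) S (fun β => c β ^ p * mon ![X 0] β)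
    hne (by
    intro β hβ β' hβ' he
    have hβ0 := (Finset.mem_filter.1 hβ).2
    have hβ0' := (Finset.mem_filter.1 hβ').2
    rw [hval β hβ0, hval β' hβ0'] at he
    obtain ⟨m, hm, z, hz⟩ := WT_val h0 hr hX hv hΓ (hc β) hβ0
    obtain ⟨m', hm', z', hz'⟩ := WT_val h0 hr hX hv hΓ (hc β') hβ0'
    -- `m m' (β 0 - β' 0) = p (..)`
    have h4 : ((m : ℤ) * m' * ((β 0 : ℕ) - (β' 0 : ℕ) : ℤ) - p * (m * z' - m' * z) : ℝ) *
        v (X 0) = 0 := by
      push_cast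
      linear_combination (m : ℝ) * m' * he - (p : ℝ) * m' * hz + (p : ℝ) * m * hz'
    have h5 : (m : ℤ) * m' * ((β 0 : ℕ) - (β' 0 : ℕ) : ℤ) = p * (m * z' - m' * z) := by
      have h6 := (mul_eq_zero.1 h4).resolve_right hv.ne
      have h7 : (((m : ℤ) * m' * ((β 0 : ℕ) - (β' 0 : ℕ) : ℤ) - p * (m * z' - m' * z) : ℤ) : ℝ) =
          0 := by
        push_cast
        push_cast at h6
        exact h6
      exact sub_eq_zero.1 (by exact_mod_cast h7)
    have hpi : Prime (p : ℤ) := Nat.prime_iff_prime_int.1 hp.out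
    have h8 : (p : ℤ) ∣ ((β 0 : ℕ) - (β' 0 : ℕ) : ℤ) := by
      have h9 : (p : ℤ) ∣ (m : ℤ) * m' * ((β 0 : ℕ) - (β' 0 : ℕ) : ℤ) := ⟨_, h5⟩
      rcases hpi.dvd_mul.1 h9 with h10 | h10
      · rcases hpi.dvd_mul.1 h10 with h11 | h11
        · exact absurd (Int.natCast_dvd_natCast.1 h11) hm
        · exact absurd (Int.natCast_dvd_natCast.1 h11) hm'
      · exact h10
    have h9 : ((β 0 : ℕ) : ℤ) = (β' 0 : ℕ) := by
      have h10 : |((β 0 : ℕ) - (β' 0 : ℕ) : ℤ)| < p := by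
        have := (β 0).2
        have := (β' 0).2
        rw [abs_lt]
        constructor <;> omega
      exact sub_eq_zero.1 (Int.eq_zero_of_abs_lt_dvd h8 h10)
    funext i
    have h10 : i = 0 := Subsingleton.elim _ _
    rw [h10]
    exact Fin.ext (by exact_mod_cast h9)) ⟨α, Finset.mem_filter.2 ⟨Finset.mem_univ _, hcα⟩⟩
  intro _
  have h4 := h3 α (Finset.mem_filter.2 ⟨Finset.mem_univ _, hcα⟩)
  rw [hsum] at hb
  have h5 := hb h1
  rw [h2] at h5
  rw [sub_zero]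
  exact h5.trans h4

/-- `x` is a `p`-basis of `WT(x)`. -/
theorem WT_pb (h0 : Ctx0 k v) (hc : CompleteV v) (hr : ∀ n, X (n + 1) ^ p = X n) (hX : X 0 ≠ 0)
    (hv : v (X 0) < 0) (hΓ : v (X 0) ∈ Γ) : PBasis p (WT k p v Γ (X 0)) ![X 0] := by
  set A := IntermediateField.adjoin k {f | ∃ m : ℕ, ¬ p ∣ m ∧ f ^ m = X 0 ∧ v f ∈ Γ} with hA
  have hxA : X 0 ∈ A := IntermediateField.subset_adjoin k _
    ⟨1, by rw [Nat.dvd_one]; exact hp.out.ne_one, pow_one _, hΓ⟩
  have hle : adj (⊥ : IntermediateField k Ω) (X 0) ≤ A := D2P.adj_le bot_le hxA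
  have hsep : ∀ a ∈ A, IsSeparable (adj (⊥ : IntermediateField k Ω) (X 0)) a := by
    set F := adj (⊥ : IntermediateField k Ω) (X 0) with hF
    have hxF : X 0 ∈ F := (D2P.mem_adj_self _ _).1
    intro a ha
    have h1 : A ≤ (separableClosure F Ω).restrictScalars k := by
      rw [hA, IntermediateField.adjoin_le_iff]
      rintro f ⟨m, hm, hf, -⟩
      change f ∈ separableClosure F Ω
      rw [mem_separableClosure_iff]
      have hmF : (m : F) ≠ 0 := by
        intro h2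
        have h3 : (m : Ω) = 0 := by
          have h4 := congrArg (algebraMap F Ω) h2
          rwa [map_natCast, map_zero] at h4
        exact hm ((CharP.cast_eq_zero_iff Ω p m).1 h3)
      have h2 : (Polynomial.X ^ m - Polynomial.C (⟨X 0, hxF⟩ : F)).Separable :=
        Polynomial.separable_X_pow_sub_C _ hmF fun h3 => hX (congrArg Subtype.val h3)
      refine h2.of_dvd (minpoly.dvd F f ?_)
      rw [map_sub, map_pow, aeval_X, aeval_C, hf]
      exact sub_self _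
    exact mem_separableClosure_iff.1 (h1 ha)
  exact pbasis_clI hc ((TWF.pb_adj (k := k) p h0 hX hv.ne).of_sep p hle hsep)
    (WT_oi h0 hr hX hv hΓ)

end Pool.Agent.TWC.PW
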