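import Pool.Agent.Lib.TWF.IrrWA

/-!
# TANK W, class C: rational letters over a tame base (row PW), an upper limit which is not attained

* `DatW.le_of_limsup`: if the deviations are `< M`, and `M` is their upper limit, then `M ≤ Δ m`.
-/

set_option autoImplicit false

namespace Pool.Agent.TWF.Irr

variable {p : ℕ} {B : ℕ → Set ℝ} {Δ : ℕ → ℝ}

/-- **An upper limit of the deviations which is not attained is `≤ Δ m`.** -/
theorem DatW.le_of_limsup (h : DatW p B Δ) {M : ℝ} (hM : 0 < M) (hlt : ∀ J, ∀ t ∈ B J, t < M)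
    (hlim : ∀ M', M' < M → ∀ J₀, ∃ J, J₀ ≤ J ∧ ∃ t ∈ B J, M' < t) {m : ℕ} (hm : 1 ≤ m) :
    M ≤ Δ m := by
  classical
  by_contra hno
  rw [not_le] at hno
  have hp1 : (1 : ℝ) < p := by exact_mod_cast h.one_lt
  have hp0 : (0 : ℝ) < p := by linarith
  have hpp : ∀ n : ℕ, (0 : ℝ) < (p : ℝ) ^ n := fun n => pow_pos hp0 n
  set K : ℕ → ℝ := fun l => (M - Δ l) / (p : ℝ) ^ l with hK
  have hK0 : ∀ ε : ℝ, 0 < ε → ∃ L, ∀ l, L ≤ l → K l < ε := by
    intro ε hε
    obtain ⟨L, hL⟩ := pow_unbounded_of_one_lt (M / ε) hp1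
    refine ⟨L + 1, fun l hl => ?_⟩
    have h1 := h.nonneg l (by omega)
    have h2 : (p : ℝ) ^ L ≤ p ^ l := pow_le_pow_right₀ hp1.le (by omega)
    rw [hK]
    simp only
    rw [div_lt_iff₀ (hpp l)]
    rw [div_lt_iff₀ hε] at hL
    nlinarith
  have hKm : 0 < K m := div_pos (by linarith) (hpp m)
  obtain ⟨z, hz1, hz2, hz3, g, hg, hz4⟩ := TWC.Irr.exists_last_max hK0 hm hKm
  have hKz : 0 < K z := hKm.trans_le hz3
  -- a gap
  obtain ⟨γ, hγ0, hγK, hγ⟩ : ∃ γ : ℝ, 0 < γ ∧ γ ≤ K z ∧ ∀ l, 1 ≤ l → K z - γ < K l → K l = K z ∧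
      l ≤ z := by
    set S : Finset ℕ := (Finset.Icc 1 z).filter fun l => K l < K z with hS
    obtain ⟨δ, hδ0, hδ⟩ : ∃ δ : ℝ, 0 < δ ∧ ∀ l ∈ S, K l ≤ K z - δ := by
      by_cases hne : S.Nonempty
      · obtain ⟨l₀, h1, h2⟩ := Finset.exists_max_image S K hne
        refine ⟨K z - K l₀, ?_, fun l hl => ?_⟩
        · have := (Finset.mem_filter.1 h1).2
          linarith
        · have := h2 l hl
          linarith
      · rw [Finset.not_nonempty_iff_eq_empty] at hne
        exact ⟨1, one_pos, fun l hl => by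
          rw [hne] at hl
          exact absurd hl (Finset.notMem_empty l)⟩
    refine ⟨min (min δ g) (K z), lt_min (lt_min hδ0 hg) hKz, min_le_right _ _,
      fun l hl1 hl2 => ?_⟩
    have h1 := min_le_left (min δ g) (K z)
    have h2 := min_le_left δ g
    have h3 := min_le_right δ g
    rcases le_or_gt l z with h4 | h4
    · refine ⟨?_, h4⟩
      by_contra h5
      have h6 : l ∈ S := Finset.mem_filter.2 ⟨Finset.mem_Icc.2 ⟨hl1, h4⟩,
        (hz2 l hl1).lt_of_ne h5⟩
      have h7 := hδ l h6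
      linarith
    · have h5 := hz4 l h4
      linarith
  -- the letters of a level `< z`
  obtain ⟨κ, hκ0, hκ⟩ : ∃ κ : ℝ, 0 < κ ∧ ∀ J, J < z → ∀ t ∈ B J, κ ≤ M - t := by
    have hε : 0 < M / 2 / (p : ℝ) ^ z := div_pos (by linarith) (hpp z)
    have hfin := h.fin _ hε
    by_cases hne : hfin.toFinset.Nonempty
    · obtain ⟨x₀, h1, h2⟩ := Finset.exists_max_image _ (fun x : ℕ × ℝ => x.2) hne
      rw [Set.Finite.mem_toFinset] at h1
      have h3 := hlt x₀.1 x₀.2 h1.1
      refine ⟨min (M - x₀.2) (M / 2), lt_min (by linarith) (by linarith), fun J hJ t ht => ?_⟩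
      by_cases h4 : M / 2 / (p : ℝ) ^ z * (p : ℝ) ^ J ≤ t
      · have h5 := h2 (J, t) (by rw [Set.Finite.mem_toFinset]; exact ⟨ht, h4⟩)
        have h6 := min_le_left (M - x₀.2) (M / 2)
        simp only at h5
        linarith
      · have h5 : M / 2 / (p : ℝ) ^ z * (p : ℝ) ^ J ≤ M / 2 := by
          have h6 : (p : ℝ) ^ J ≤ p ^ z := pow_le_pow_right₀ hp1.le hJ.le
          rw [div_mul_eq_mul_div, div_le_iff₀ (hpp z)]
          nlinarith
        have h6 := min_le_right (M - x₀.2) (M / 2)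
        rw [not_le] at h4
        linarith
    · refine ⟨M / 2, by linarith, fun J hJ t ht => ?_⟩
      by_contra h4
      apply hne
      refine ⟨(J, t), ?_⟩
      rw [Set.Finite.mem_toFinset]
      refine ⟨ht, ?_⟩
      have h5 : M / 2 / (p : ℝ) ^ z * (p : ℝ) ^ J ≤ M / 2 := by
        have h6 : (p : ℝ) ^ J ≤ p ^ z := pow_le_pow_right₀ hp1.le hJ.le
        rw [div_mul_eq_mul_div, div_le_iff₀ (hpp z)]
        nlinarith
      simp only
      linarith
  -- the descent
  have key : ∀ N, ∀ t ∈ B N, M - t < γ * (p : ℝ) ^ z → κ * (p : ℝ) ^ (N / z) ≤ M - t := by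
    intro N
    induction N using Nat.strong_induction_on with
    | _ N ih =>
      intro t ht hd
      rcases Nat.lt_or_ge N z with hN | hN
      · rw [Nat.div_eq_of_lt hN, pow_zero, mul_one]
        exact hκ N hN t ht
      obtain ⟨a, rfl⟩ : ∃ a, N = a + z := ⟨N - z, by omega⟩
      have hd' : (M - t) / (p : ℝ) ^ z < γ := by rwa [div_lt_iff₀ (hpp z)]
      have e1 : ∀ (s : ℝ) (l : ℕ), (s - Δ l) / (p : ℝ) ^ l = K l - (M - s) / (p : ℝ) ^ l := by
        intro s l
        rw [hK]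
        simp only
        rw [← sub_div]
        congr 1
        ring
      have hzt : Δ z < t := by
        have h1 : 0 < (t - Δ z) / (p : ℝ) ^ z := by
          rw [e1]
          linarith
        have h2 := (div_pos_iff_of_pos_right (hpp z)).1 h1
        linarith
      obtain ⟨F, l₁, l₂, t₁, t₂, h1, h2, h3, h4, h5, h6, h7⟩ := h.exists_two ht hz1 hzt
      have hFz : K z - γ < F := by
        rw [e1] at h7
        linarith
      have ht1 := hlt _ _ h3
      have ht2 := hlt _ _ h4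
      have h8 := hγ l₁ h1 (by
        rw [e1] at h5
        have := div_pos (sub_pos.2 ht1) (hpp l₁)
        linarith)
      have h9 := hγ l₂ (by omega) (by
        rw [e1] at h6
        have := div_pos (sub_pos.2 ht2) (hpp l₂)
        linarith)
      have hl1z : l₁ < z := by omega
      have h10 : (M - t₁) / (p : ℝ) ^ l₁ ≤ (M - t) / (p : ℝ) ^ z := by
        rw [e1, h8.1] at h5
        rw [e1] at h7
        linarith
      obtain ⟨j, rfl⟩ : ∃ j, z = l₁ + (j + 1) := ⟨z - l₁ - 1, by omega⟩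
      have h11 : (p : ℝ) * (M - t₁) ≤ M - t := by
        have h12 : (p : ℝ) ^ (l₁ + (j + 1)) = p ^ l₁ * (p * p ^ j) := by ring
        rw [h12, div_le_div_iff₀ (hpp l₁) (mul_pos (hpp l₁) (mul_pos hp0 (hpp j)))] at h10
        have h13 : (M - t₁) * (p * p ^ j) ≤ M - t := by
          have h14 : ((M - t₁) * (p * p ^ j)) * p ^ l₁ ≤ (M - t) * p ^ l₁ := by
            linarith
          exact le_of_mul_le_mul_right h14 (hpp l₁)
        have h14 : (1 : ℝ) ≤ p ^ j := one_le_pow₀ hp1.le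
        have h15 : 0 < (M - t₁) * p := mul_pos (by linarith) hp0
        nlinarith
      have h12 := ih (a + l₁) (by omega) t₁ h3 (by nlinarith)
      have h13 : (a + (l₁ + (j + 1))) / (l₁ + (j + 1)) ≤ (a + l₁) / (l₁ + (j + 1)) + 1 := by
        rw [Nat.add_div_right _ (by omega)]
        exact Nat.succ_le_succ (Nat.div_le_div_right (Nat.le_add_right a l₁))
      calc κ * (p : ℝ) ^ ((a + (l₁ + (j + 1))) / (l₁ + (j + 1)))
          ≤ κ * (p : ℝ) ^ ((a + l₁) / (l₁ + (j + 1)) + 1) :=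
            mul_le_mul_of_nonneg_left (pow_le_pow_right₀ hp1.le h13) hκ0.le
        _ = p * (κ * (p : ℝ) ^ ((a + l₁) / (l₁ + (j + 1)))) := by
            rw [pow_succ]
            ring
        _ ≤ p * (M - t₁) := mul_le_mul_of_nonneg_left h12 hp0.le
        _ ≤ M - t := h11
  -- the end
  obtain ⟨n, hn⟩ := pow_unbounded_of_one_lt (γ * (p : ℝ) ^ z / κ) hp1
  obtain ⟨J, hJ, t, ht, h1⟩ := hlim (M - γ * (p : ℝ) ^ z) (by
    have := mul_pos hγ0 (hpp z)
    linarith) (n * z)
  have h2 := key J t ht (by linarith)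
  have h3 : n ≤ J / z := (Nat.le_div_iff_mul_le (by omega)).2 hJ
  have h4 : (p : ℝ) ^ n ≤ p ^ (J / z) := pow_le_pow_right₀ hp1.le h3
  rw [div_lt_iff₀ hκ0] at hn
  nlinarith

end Pool.Agent.TWF.Irr
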