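import Pool.Agent.Lib.TWC.PWr

/-!
# TANK W, class C, letters over a tame base: small motions, and strict jets at the end of the stages

* `MT`: `Φ` moves `y` and `X 0 ^ d` by elements of value `≥ ε`;
* `MT.root`, `MT.ren`, `MT.drop`, `MT.sts`, `MT.iso`, `MT.poly`, `MT.subT`, `MT.tz`;
* `Stp.mt`, `Chn.mt`, `Stgs.mt`: the steps and the stages;
* `MT.strict`: with strict jets over the tame base;
* `strW_back`: strict jets at the end of the stages give strict jets at the start.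
-/

set_option autoImplicit false

open Polynomial

namespace Pool.Agent.TWC.PW

open Pool.Agent.H15JM (RVal)
open Pool.Agent.D2 (Ctx0)
open Pool.Agent.D2P (clI mem_clI)
open Pool.Agent.LU1 (adj)
open Pool.Agent.TWM
open Pool.Agent.TWS
open Pool.Agent.TWCT
open Pool.Agent.TWC.PF (Lm SW SA)

universe u

variable {k Ω : Type u} [Field k] [Field Ω] [Algebra k Ω] {v : RVal Ω} {Γ : AddSubgroup ℝ}
  {p : ℕ} [hp : Fact p.Prime] [CharP Ω p] {C C' : IntermediateField k Ω}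
  {X X' T : ℕ → Ω} {y y' f g : Ω} {b b' d d' m n : ℕ} {Φ : Ω →ₐ[k] Ω} {ε ε' B : ℝ}

/-- `Φ` moves `y` and `X 0 ^ d` by elements of value `≥ ε`, and the tame roots of the `X n` by
relatively small amounts. -/
structure MT (p : ℕ) (v : RVal Ω) (Γ : AddSubgroup ℝ) (Φ : Ω →ₐ[k] Ω) (X : ℕ → Ω) (y : Ω)
    (d : ℕ) (ε : ℝ) : Prop where
  mvy : v.Ge ε (Φ y - y)
  mvx : v.Ge (v (X 0) - d * v (X 0) + ε) (Φ (X 0) - X 0)
  tr : ∀ (m : ℕ) (X' : ℕ → Ω), RS p v Γ X m X' → ∀ n, Gt v (v (X' n)) (Φ (X' n) - X' n)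

omit hp [CharP Ω p] in
theorem MT.mono (h : MT p v Γ Φ X y d ε) (hε : ε' ≤ ε) : MT p v Γ Φ X y d ε' :=
  ⟨h.mvy.mono hε, h.mvx.mono (by linarith), h.tr⟩

omit hp [CharP Ω p] in
theorem MT.drop (hv : v (X 0) < 0) (h : MT p v Γ Φ X y d ε) (hd : d' ≤ d) :
    MT p v Γ Φ X y d' ε where
  mvy := h.mvy
  mvx := h.mvx.mono (by
    have h1 : (d' : ℝ) ≤ d := by exact_mod_cast hd
    nlinarith)
  tr := h.tr

omit hp [CharP Ω p] in
/-- The start: `Φ` fixes the letters and moves `y`. -/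
theorem MT.of_fix (hfix : ∀ (m : ℕ) (X' : ℕ → Ω), RS p v Γ X m X' → ∀ n, Φ (X' n) = X' n)
    (h0 : Φ (X 0) = X 0) (hy : v.Ge ε (Φ y - y)) : MT p v Γ Φ X y d ε where
  mvy := hy
  mvx := by
    rw [h0, sub_self]
    exact RVal.Ge.zero
  tr m X' h n := by
    rw [hfix m X' h n, sub_self]
    exact Gt.zero

/-- The motion of the tame roots. -/
theorem MT.root [CharP k p] (h0 : Ctx0 k v) (hX : X 0 ≠ 0) (hv : v (X 0) < 0)
    (hr : ∀ n, X (n + 1) ^ p = X n) (h : MT p v Γ Φ X y d ε) (hX' : RS p v Γ X m X') (n : ℕ) :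
    v.Ge (v (X' n) - (d * m : ℕ) * v (X' n) + ε / p ^ n) (Φ (X' n) - X' n) := by
  have hpn : (0 : ℝ) < (p : ℝ) ^ n := pow_pos (by exact_mod_cast hp.out.pos) n
  obtain ⟨h1, h2⟩ := sys_val hX hr n
  obtain hne := hX'.nne hX hr n
  have hm := hX'.npos
  have h3 : v (X n) = m * v (X' n) := by rw [← hX'.pow n, v.map_pow hne]
  have hneg : v (X n) < 0 := by
    rw [h2] at hv
    by_contra h4
    exact absurd hv (not_lt.2 (mul_nonneg hpn.le (not_lt.1 h4)))
  have hneg' : v (X' n) < 0 := by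
    rw [h3] at hneg
    by_contra h4
    exact absurd hneg (not_lt.2 (mul_nonneg (Nat.cast_nonneg _) (not_lt.1 h4)))
  -- the motion of `X n`
  have h4 : v.Ge (v (X n) - d * v (X n) + ε / p ^ n) (Φ (X n) - X n) := by
    have h5 : (Φ (X n) - X n) ^ p ^ n = Φ (X 0) - X 0 := by
      rw [sub_pow_char_pow, ← map_pow, sys_pow hr]
    intro h6
    have h7 := h.mvx (by rw [← h5]; exact pow_ne_zero _ h6)
    rw [← h5, v.map_pow h6, h2] at h7
    push_cast at h7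
    have h8 : (p : ℝ) ^ n * (v (X n) - d * v (X n) + ε / p ^ n) ≤
        (p : ℝ) ^ n * v (Φ (X n) - X n) := by
      calc (p : ℝ) ^ n * (v (X n) - d * v (X n) + ε / p ^ n) = (p : ℝ) ^ n * v (X n) -
          d * ((p : ℝ) ^ n * v (X n)) + ε := by field_simp
        _ ≤ _ := h7
    exact le_of_mul_le_mul_left h8 hpn
  have h5 := root_diff (k := k) (p := p) (a' := Φ (X' n)) h0 hne hneg' (h.tr m X' hX' n) hX'.nd
    (c := v (X n) - d * v (X n) + ε / p ^ n) (by rwa [← map_pow, hX'.pow n])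
  refine h5.mono ?_
  rw [h3]
  push_cast
  linarith

/-- Renaming. -/
theorem MT.ren [CharP k p] (h0 : Ctx0 k v) (hX : X 0 ≠ 0) (hv : v (X 0) < 0)
    (hr : ∀ n, X (n + 1) ^ p = X n) (h : MT p v Γ Φ X y d ε) (hX' : RS p v Γ X m X') :
    MT p v Γ Φ X' y (m * d) ε where
  mvy := h.mvy
  mvx := by
    have h1 := h.root h0 hX hv hr hX' 0
    rwa [mul_comm m d, pow_zero, div_one] at *
  tr r X'' h' n := h.tr (m * r) X'' ⟨fun h1 => by
      rcases (Nat.Prime.dvd_mul hp.out).1 h1 with h2 | h2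
      exacts [hX'.nd h2, h'.nd h2], h'.root, fun n => by
      rw [mul_comm, pow_mul, h'.pow, hX'.pow], h'.val⟩ n

/-- The elements without top letters move by small amounts. -/
theorem STs_mt [CharP k p] (h0 : Ctx0 k v) (hX : X 0 ≠ 0) (hv : v (X 0) < 0)
    (hr : ∀ n, X (n + 1) ^ p = X n) (hg : g ∈ STs k p v Γ X d 0) : ∃ N : ℕ,
      ∀ (Φ : Ω →ₐ[k] Ω) (y : Ω) (ε : ℝ), 0 ≤ ε → MT p v Γ Φ X y d ε →
        v.Ge (ε / p ^ N) (Φ g - g) := by
  have hp1 : (1 : ℝ) ≤ p := by exact_mod_cast hp.out.one_lt.le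
  have mono : ∀ {N N' : ℕ} {ε : ℝ}, 0 ≤ ε → N ≤ N' → ε / (p : ℝ) ^ N' ≤ ε / p ^ N := by
    intro N N' ε hε hN
    exact div_le_div_of_nonneg_left hε (pow_pos (by linarith) _) (pow_le_pow_right₀ hp1 hN)
  induction hg using Submodule.span_induction with
  | mem g hg =>
    obtain ⟨m, X', n, i, hX', -, hi, rfl⟩ := hg
    refine ⟨n, fun Φ y ε hε h => ?_⟩
    have hne := hX'.nne hX hr n
    obtain ⟨h1, h2⟩ := sys_val (v := v) hX hr n
    have hpn : (0 : ℝ) < (p : ℝ) ^ n := pow_pos (by exact_mod_cast hp.out.pos) n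
    have h3 : v (X n) = m * v (X' n) := by rw [← hX'.pow n, v.map_pow hne]
    have hneg' : v (X' n) < 0 := by
      rw [h2, h3] at hv
      by_contra h4
      exact absurd hv (not_lt.2 (mul_nonneg hpn.le (mul_nonneg (Nat.cast_nonneg _)
        (not_lt.1 h4))))
    have h4 := h.root h0 hX hv hr hX' n
    have hdm : (0 : ℝ) ≤ ((d * m : ℕ) : ℝ) := Nat.cast_nonneg _
    have hε' : 0 ≤ ε / (p : ℝ) ^ n := div_nonneg hε hpn.le
    have h5 := pow_diff (σ := v (X' n) - (d * m : ℕ) * v (X' n) + ε / p ^ n)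
      (by nlinarith) h4 i
    rw [map_pow]
    refine h5.mono ?_
    have h6 : (i : ℝ) ≤ (d * m : ℕ) := by
      push_cast
      linarith
    nlinarith
  | zero => exact ⟨0, fun Φ y ε hε h => by rw [map_zero, sub_zero]; exact RVal.Ge.zero⟩
  | add x z _ _ hx hz =>
    obtain ⟨N, hN⟩ := hx
    obtain ⟨N', hN'⟩ := hz
    refine ⟨max N N', fun Φ y ε hε h => ?_⟩
    rw [map_add, add_sub_add_comm]
    exact ((hN Φ y ε hε h).mono (mono hε (le_max_left _ _))).add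
      ((hN' Φ y ε hε h).mono (mono hε (le_max_right _ _)))
  | smul c x _ hx =>
    obtain ⟨N, hN⟩ := hx
    refine ⟨N, fun Φ y ε hε h => ?_⟩
    rw [map_smul, ← smul_sub, Algebra.smul_def]
    have h1 := (h0.ge c).mul (hN Φ y ε hε h)
    rwa [zero_add] at h1

omit hp [CharP Ω p] in
/-- The motion of a polynomial of degree `≤ d` in `X 0`. -/
theorem MT.poly (h0 : Ctx0 k v) (hv : v (X 0) < 0) (hε : 0 ≤ ε) (h : MT p v Γ Φ X y d ε)
    {q : k[X]} (hq : q.natDegree ≤ d) :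
    v.Ge ε (aeval (Φ (X 0)) q - aeval (X 0) q) := by
  have h1 := poly_diff (σ := v (X 0) - d * v (X 0) + ε) h0 hv
    (by nlinarith [(Nat.cast_nonneg d : (0 : ℝ) ≤ d)]) h.mvx hq
  refine h1.mono ?_
  linarith

/-- The part at the position `0`, on a finer system. -/
theorem MT.subT [CharP k p] (h0 : Ctx0 k v) (hX : X 0 ≠ 0) (hv : v (X 0) < 0)
    (hr : ∀ n, X (n + 1) ^ p = X n) (hε : 0 ≤ ε) (h : MT p v Γ Φ X y d ε)
    (hX' : RS p v Γ X m X') {q : k[X]} (hq : q.natDegree ≤ m * d) :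
    MT p v Γ Φ X (y - aeval (X' 0) q) d ε where
  mvy := by
    have h1 := (h.ren h0 hX hv hr hX').poly h0 (hX'.neg hX hv) hε hq
    have e : Φ (y - aeval (X' 0) q) - (y - aeval (X' 0) q) =
        (Φ y - y) - (aeval (Φ (X' 0)) q - aeval (X' 0) q) := by
      rw [map_sub, ← aeval_algHom_apply]
      ring
    rw [e]
    exact h.mvy.sub h1
  mvx := h.mvx
  tr := h.tr

/-- Isogeny. -/
theorem MT.iso [CharP k p] (h0 : Ctx0 k v) (hX : X 0 ≠ 0) (hv : v (X 0) < 0)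
    (hr : ∀ n, X (n + 1) ^ p = X n) (hΓ : v (X 0) ∈ Γ) (hg : g ∈ STs k p v Γ X d 0) (e : ℕ) :
    ∃ N : ℕ, ∀ (Φ : Ω →ₐ[k] Ω) (y : Ω) (ε : ℝ), 0 ≤ ε → MT p v Γ Φ X y d ε →
      MT p v Γ Φ (fun n => X (e + n)) (y - g) d (ε / p ^ N) := by
  have hp1 : (1 : ℝ) ≤ p := by exact_mod_cast hp.out.one_lt.le
  have mono : ∀ {N N' : ℕ} {ε : ℝ}, 0 ≤ ε → N ≤ N' → ε / (p : ℝ) ^ N' ≤ ε / p ^ N := by
    intro N N' ε hε hN
    exact div_le_div_of_nonneg_left hε (pow_pos (by linarith) _) (pow_le_pow_right₀ hp1 hN)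
  obtain ⟨N, hN⟩ := STs_mt h0 hX hv hr hg
  refine ⟨max N e, fun Φ y ε hε h => ⟨?_, ?_, fun m X' hX' n => ?_⟩⟩
  · rw [map_sub, sub_sub_sub_comm]
    refine RVal.Ge.sub (h.mvy.mono ?_) ((hN Φ y ε hε h).mono (mono hε (le_max_left _ _)))
    have := mono hε (Nat.zero_le (max N e))
    rwa [pow_zero, div_one] at this
  · have h1 := h.root h0 hX hv hr (m := 1) (X' := X) ⟨by
      rw [Nat.dvd_one]
      exact hp.out.ne_one, hr, fun n => pow_one _, hΓ⟩ e
    rw [mul_one] at h1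
    exact h1.mono (by have := mono hε (le_max_right N e); simpa using this)
  · obtain ⟨V, hV, hV'⟩ := RS.unshift hr hX e hX'
    rw [← hV']
    exact h.tr m V hV (e + n)

/-- **The change of coordinates.** -/
theorem MT.tz [CharP k p] [IsAlgClosed Ω] (h0 : Ctx0 k v)
    (hX : X 0 ≠ 0) (hv : v (X 0) < 0) (hr : ∀ n, X (n + 1) ^ p = X n) (hΓ : v (X 0) ∈ Γ)
    (ht : Gt v (v (X 1)) (T 0 - X 1)) {q : k[X]}
    (hq : q.natDegree = d) (hd : ¬ p ∣ d) (hy : aeval (T 0) q = y) (hΦ : IsoE v v Φ)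
    (hε : 0 ≤ ε) (h : MT p v Γ Φ X y d ε) :
    MT p v Γ Φ T (y ^ p - aeval (X 0) (q.map (frobenius k p))) d ε := by
  obtain ⟨hX1, hXv⟩ := sys_val (v := v) hX hr 1
  have hp0 : (0 : ℝ) < p := by exact_mod_cast hp.out.pos
  have hneg1 : v (X 1) < 0 := by
    rw [hXv, pow_one] at hv
    by_contra h
    exact absurd hv (not_lt.2 (mul_nonneg hp0.le (not_lt.1 h)))
  obtain ⟨hT0, hTv⟩ := Gt.val_eq (v := v) (y := T 0) hX1 (by
    have := ht.neg
    rwa [neg_sub] at this)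
  have hTneg : v (T 0) < 0 := by rw [hTv]; exact hneg1
  have hdk : (q.natDegree : k) ≠ 0 := by
    rw [hq]
    intro h1
    exact hd ((CharP.cast_eq_zero_iff k p d).1 h1)
  -- the tame roots
  have htr : ∀ (m : ℕ) (T' : ℕ → Ω), RS p v Γ T m T' →
      ∀ n, Gt v (v (T' n)) (Φ (T' n) - T' n) := by
    intro m T' hT' n
    obtain ⟨X', hX', h1⟩ := exists_near_sys h0 hX hv hr ht hT'
    have h2 := Gt.val_eq (v := v) (hT'.ne hT0 n) (h1 n)
    have h3 := h.tr m X' hX' (n + 1)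
    rw [h2.2] at h3
    have e : Φ (T' n) - T' n = Φ (T' n - X' (n + 1)) + (Φ (X' (n + 1)) - X' (n + 1)) -
        (T' n - X' (n + 1)) := by
      rw [map_sub]
      ring
    rw [e]
    exact ((hΦ.gt_iff.2 (h1 n)).add h3).sub (h1 n)
  -- the motion of `T 0`
  have hT1 : Gt v (v (T 0)) (Φ (T 0) - T 0) := by
    have h3 : Gt v (v (T 0)) (Φ (X 1) - X 1) := by
      rw [hTv]
      exact h.tr 1 X (RS.refl hr hΓ) 1
    have h4 : Gt v (v (T 0)) (T 0 - X 1) := by rwa [hTv]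
    have e : Φ (T 0) - T 0 = Φ (T 0 - X 1) + (Φ (X 1) - X 1) - (T 0 - X 1) := by
      rw [map_sub]
      ring
    rw [e]
    exact ((hΦ.gt_iff.2 h4).add h3).sub h4
  have hΦy : aeval (Φ (T 0)) q - aeval (T 0) q = Φ y - y := by
    rw [← hy, ← aeval_algHom_apply]
  refine ⟨?_, ?_, htr⟩
  · have h3 := h.poly h0 hv hε (q := q.map (frobenius k p)) (natDegree_map_le.trans hq.le)
    have e : Φ (y ^ p - aeval (X 0) (q.map (frobenius k p))) -
        (y ^ p - aeval (X 0) (q.map (frobenius k p))) =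
        (Φ y - y) ^ p - (aeval (Φ (X 0)) (q.map (frobenius k p)) -
          aeval (X 0) (q.map (frobenius k p))) := by
      rw [sub_pow_char, map_sub, ← map_pow Φ, ← aeval_algHom_apply]
      ring
    rw [e]
    refine RVal.Ge.sub ((ge_pow h.mvy p).mono ?_) h3
    have hp1 : (1 : ℝ) ≤ p := by exact_mod_cast hp.out.one_lt.le
    nlinarith
  · have h3 := arg_diff h0 hT0 hTneg hT1 hdk (c := ε) (by rw [hΦy]; exact h.mvy)
    rw [hq] at h3
    exact h3.mono (by linarith)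

section Steps

variable [CharP k p] [IsAlgClosed k] [IsAlgClosed Ω]

omit [IsAlgClosed k] in
/-- The small motions along a step. -/
theorem Stp.mt (h0 : Ctx0 k v) (hP : PRT p v Γ C X y (b + 1)) (hb : ¬ p ∣ b + 1)
    (h : Stp p v Γ C X y b C' X' y' b') : ∃ N : ℕ, ∀ Φ : Ω →ₐ[k] Ω, IsoE v v Φ →
      ∀ ε : ℝ, 0 ≤ ε → MT p v Γ Φ X y (b + 1) ε → MT p v Γ Φ X' y' (b' + 1) (ε / p ^ N) := by
  have hX := hP.ne
  have hv := hP.neg
  have hr := hP.root
  cases h with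
  | ren h hb' hP' =>
    refine ⟨0, fun Φ hΦ ε hε hM => ?_⟩
    rw [pow_zero, div_one, hb']
    exact hM.ren h0 hX hv hr h
  | iso e g hg hg' h1 h2 hP' =>
    have hg'' : g ∈ STs k p v Γ X ((b + 1 : ℕ) : ℝ) 0 := by
      rw [Nat.cast_succ]
      exact STs_mono le_rfl (Nat.zero_le _) hg'
    obtain ⟨N, hN⟩ := MT.iso h0 hX hv hr hP.val hg'' e
    exact ⟨N, fun Φ _ ε hε hM => hN Φ _ ε hε hM⟩
  | tz q q₀ hq hTC hT ht ht1 hy hT' hq₀ hP' =>
    refine ⟨0, fun Φ hΦ ε hε hM => ?_⟩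
    rw [pow_zero, div_one]
    have hp0 : (0 : ℝ) < p := by exact_mod_cast hp.out.pos
    have hp1 : (1 : ℝ) < p := by exact_mod_cast hp.out.one_lt
    have hlt : v (X 1) < (b + 1 : ℕ) * v (X 2) - b * v (X 1) := by
      have h1 : v (X 1) = p * v (X 2) := by
        have h2 : X 2 ≠ 0 := rt_ne hr hX 2
        rw [← hr 1, v.map_pow h2]
      have h3 : v (X 2) < 0 := rt_neg hr hX hv 2
      rw [h1]
      push_cast
      have h4 : (0 : ℝ) ≤ b := Nat.cast_nonneg b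
      nlinarith [mul_pos_of_neg_of_neg h3 (by linarith : (1 : ℝ) - p < 0)]
    have h1 := hM.tz h0 hX hv hr hP.val (Gt.of_ge ht1 hlt) hq hb ht hΦ hε
    exact h1.subT h0 hP'.ne hP'.neg hT hε hT' hq₀

omit [IsAlgClosed k] in
/-- The small motions along a chain. -/
theorem Chn.mt (h0 : Ctx0 k v) (h : Chn p v Γ C X y b C' X' y' b')
    (hP : PRT p v Γ C X y (b + 1)) (hb : ¬ p ∣ b + 1) : ∃ N : ℕ, ∀ Φ : Ω →ₐ[k] Ω, IsoE v v Φ →
      ∀ ε : ℝ, 0 ≤ ε → MT p v Γ Φ X y (b + 1) ε → MT p v Γ Φ X' y' (b' + 1) (ε / p ^ N) := by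
  have hp0 : (0 : ℝ) < p := by exact_mod_cast hp.out.pos
  induction h with
  | refl C X y b => exact ⟨0, fun Φ _ ε _ hM => by rwa [pow_zero, div_one]⟩
  | step h h' ih =>
    obtain ⟨N, hN⟩ := h.mt h0 hP hb
    obtain ⟨-, -, h3, h4⟩ := h.inv hb
    obtain ⟨N', hN'⟩ := ih h3 h4
    refine ⟨N + N', fun Φ hΦ ε hε hM => ?_⟩
    have h5 := hN' Φ hΦ _ (div_nonneg hε (pow_nonneg hp0.le N)) (hN Φ hΦ ε hε hM)
    rwa [div_div, ← pow_add] at h5

omit [IsAlgClosed k] in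
/-- The small motions along a stage. -/
theorem Stg.mt (h0 : Ctx0 k v) (hP : PRT p v Γ C X y (b + 1))
    (h : Stg p v Γ C X y b C' X' y' b') : ∃ N : ℕ, ∀ Φ : Ω →ₐ[k] Ω, IsoE v v Φ →
      ∀ ε : ℝ, 0 ≤ ε → MT p v Γ Φ X y (b + 1) ε → MT p v Γ Φ X' y' (b' + 1) (ε / p ^ N) := by
  have hp0 : (0 : ℝ) < p := by exact_mod_cast hp.out.pos
  obtain ⟨⟨e, g, m, C₁, X₁, b₁, h1, h2⟩, -⟩ := h
  have hg'' : g ∈ STs k p v Γ X ((b + 1 : ℕ) : ℝ) 0 := by
    rw [Nat.cast_succ]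
    exact STs_mono le_rfl (Nat.zero_le _) h1.hg'
  obtain ⟨N, hN⟩ := MT.iso h0 hP.ne hP.neg hP.root hP.val hg'' e
  obtain ⟨N', hN'⟩ := h2.mt h0 h1.hP₁ h1.nd
  refine ⟨N + N', fun Φ hΦ ε hε hM => ?_⟩
  have h3 := ((hN Φ _ ε hε hM).ren h0 h1.hP.ne h1.hP.neg h1.hP.root h1.rs).drop h1.hP₁.neg
    h1.lt.le
  have h5 := hN' Φ hΦ _ (div_nonneg hε (pow_nonneg hp0.le N)) h3
  rwa [div_div, ← pow_add] at h5

/-- The small motions along the stages. -/
theorem Stgs.mt (h0 : Ctx0 k v) (h : Stgs p v Γ n C X y b C' X' y' b')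
    (hP : PRT p v Γ C X y (b + 1)) : ∃ N : ℕ, ∀ Φ : Ω →ₐ[k] Ω, IsoE v v Φ →
      ∀ ε : ℝ, 0 ≤ ε → MT p v Γ Φ X y (b + 1) ε → MT p v Γ Φ X' y' (b' + 1) (ε / p ^ N) := by
  have hp0 : (0 : ℝ) < p := by exact_mod_cast hp.out.pos
  induction h with
  | refl C X y b => exact ⟨0, fun Φ _ ε _ hM => by rwa [pow_zero, div_one]⟩
  | step h h' ih =>
    obtain ⟨N, hN⟩ := h.mt h0 hP
    obtain ⟨-, -, h3, -⟩ := h.inv
    obtain ⟨N', hN'⟩ := ih h3
    refine ⟨N + N', fun Φ hΦ ε hε hM => ?_⟩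
    have h5 := hN' Φ hΦ _ (div_nonneg hε (pow_nonneg hp0.le N)) (hN Φ hΦ ε hε hM)
    rwa [div_div, ← pow_add] at h5

end Steps

/-! ### The end of the stages -/

section Nat

variable [IsAlgClosed k] [IsAlgClosed Ω] {E W : IntermediateField k Ω} {τ z : Ω} {ρ μ : ℝ}
  {J : ℕ}

omit hp [CharP Ω p] in
/-- **Strictness** on the polynomials in `τ`, `z`, with strict jets. -/
theorem str_poly_jets (h0 : Ctx0 k v) (hw : SphC v) (hval : ∀ r : ℝ, ∃ x : Ω, x ≠ 0 ∧ v x = r)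
    (hz : TL v E z 0) (hτE : τ ∈ E) (hτW : τ ∈ W) (hτ : τ ≠ 0) (hv : v τ < 0)
    (hN : NatM v k τ z ρ) (hμ : 0 ≤ μ) (hε : 0 ≤ ε) (h1 : v.Ge (v τ + ρ + μ) (Φ τ - τ))
    (h2 : v.Ge ε (Φ z - z)) (hJ : ∀ l, 1 ≤ l → l ≤ J → ∀ f ∈ PI W,
      v.Ge (v (f.eval z) + μ) ((taylor z f).coeff l)) (hμJ : μ ≤ (J + 1) * ε)
    {S : Polynomial (Polynomial Ω)} (hS : PII (⊥ : IntermediateField k Ω) S) :
    v.Ge (v (S.evalEval z τ) + μ) (Φ (S.evalEval z τ) - S.evalEval z τ) := by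
  by_cases hS0 : S.eval (C τ) = 0
  · have h3 : S.evalEval z τ = 0 := by
      change (S.eval (C τ)).eval z = 0
      rw [hS0, eval_zero]
    rw [h3, map_zero, sub_zero]
    exact RVal.Ge.zero
  set ν := v (S.evalEval z τ) with hν
  set e := Φ z - z with he
  set c := Φ τ - τ with hc
  set T := taylor (C τ) S with hT
  -- the coefficients, as polynomials in `z`
  have hT1 : ∀ i, T.coeff i ∈ PI E := by
    have h4 : PII E T := by
      rw [hT]
      exact PII.taylor (fun j => PI_mono bot_le (hS j)) (C_mem_PI hτE)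
    exact h4
  have h5 : Φ (S.evalEval z τ) = S.evalEval (z + e) (τ + c) := by
    have h6 : Φ ((S.eval (C τ)).eval z) = ((S.eval (C τ)).map (Φ : Ω →+* Ω)).eval (Φ z) := by
      exact (Polynomial.eval_map_apply (Φ : Ω →+* Ω) z).symm
    change Φ ((S.eval (C τ)).eval z) = (S.eval (C (τ + c))).eval (z + e)
    rw [h6, map_eval_bot hS, he, hc, add_sub_cancel, add_sub_cancel]
  -- the `z`-motion at fixed `(x - τ)`-index
  have h7 : ∀ i : ℕ, v.Ge (ν - i * (v τ + ρ)) ((T.coeff i).eval (z + e)) := by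
    intro i
    by_cases h8 : T.coeff i = 0
    · rw [h8, eval_zero]
      exact RVal.Ge.zero
    have h9 : (T.coeff i).eval (z + e) = (taylor z (T.coeff i)).eval e := by
      rw [taylor_eval, add_comm]
    have h10 := jet_ge h0 hw hval hz hτE hτ hv hN hS hS0 i
    have h11 : (T.coeff i).eval z ≠ 0 := hz.eval_ne (PI_mono (le_algc E) (hT1 i)) h8
    rw [h9, eval_eq_sum_range]
    refine RVal.Ge.sum _ _ fun l _ => ?_
    have h12 := hz.weak (PI_mono (le_algc E) (hT1 i)) h8 l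
    refine (h12.mul (ge_pow h2 l)).mono ?_
    have := h10 h11
    have h13 : 0 ≤ (l : ℝ) * ε := by positivity
    linarith
  have h8 : v.Ge (ν + μ) (S.evalEval (z + e) (τ + c) - S.evalEval (z + e) τ) := by
    have h9 : S.evalEval (z + e) (τ + c) - S.evalEval (z + e) τ =
        ∑ i ∈ Finset.Icc 1 T.natDegree, (T.coeff i).eval (z + e) * c ^ i := by
      rw [evalEval_add, ← hT, eval_eq_sum_range' (n := T.natDegree + 1)
        (Nat.lt_succ_of_le natDegree_map_le), Finset.sum_range_eq_add_Ico _ (Nat.succ_pos _)]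
      have h10 : (T.coeff 0).eval (z + e) = S.evalEval (z + e) τ := by
        rw [hT, taylor_coeff_zero]
      simp only [coeff_map, coe_evalRingHom, pow_zero, mul_one, h10, add_sub_cancel_left]
      rfl
    rw [h9]
    refine RVal.Ge.sum _ _ fun i hi => ?_
    have hi1 : (1 : ℝ) ≤ i := by exact_mod_cast (Finset.mem_Icc.1 hi).1
    refine ((h7 i).mul (ge_pow h1 i)).mono ?_
    nlinarith
  have h9 : v.Ge (ν + μ) (S.evalEval (z + e) τ - S.evalEval z τ) := by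
    have hg : S.eval (C τ) ∈ PI E := by
      rw [eval_eq_sum_range]
      exact sum_mem fun i _ => mul_mem (PI_mono bot_le (hS i)) (pow_mem (C_mem_PI hτE) _)
    have hgW : S.eval (C τ) ∈ PI W := by
      rw [eval_eq_sum_range]
      exact sum_mem fun i _ => mul_mem (PI_mono bot_le (hS i)) (pow_mem (C_mem_PI hτW) _)
    have h10 : S.evalEval (z + e) τ - S.evalEval z τ =
        ∑ l ∈ Finset.Icc 1 (S.eval (C τ)).natDegree,
          (taylor z (S.eval (C τ))).coeff l * e ^ l := by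
      have h11 : S.evalEval (z + e) τ = (taylor z (S.eval (C τ))).eval e := by
        rw [taylor_eval, add_comm]
      rw [h11, eval_eq_sum_range' (n := (S.eval (C τ)).natDegree + 1)
        (by rw [natDegree_taylor]; exact Nat.lt_succ_self _),
        Finset.sum_range_eq_add_Ico _ (Nat.succ_pos _)]
      have h12 : (taylor z (S.eval (C τ))).coeff 0 = S.evalEval z τ := by
        rw [taylor_coeff_zero]
      simp only [pow_zero, mul_one, h12, add_sub_cancel_left]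
      rfl
    rw [h10]
    refine RVal.Ge.sum _ _ fun l hl => ?_
    have hl1 : (1 : ℝ) ≤ l := by exact_mod_cast (Finset.mem_Icc.1 hl).1
    have h12 : v (Polynomial.eval z (S.eval (C τ))) = ν := rfl
    rcases le_or_gt l J with h13 | h13
    · have h11 := hJ l (Finset.mem_Icc.1 hl).1 h13 _ hgW
      rw [h12] at h11
      refine (h11.mul (ge_pow h2 l)).mono ?_
      have h14 : 0 ≤ (l : ℝ) * ε := by positivity
      linarith
    · have h11 := hz.weak (PI_mono (le_algc E) hg) hS0 l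
      refine (h11.mul (ge_pow h2 l)).mono ?_
      rw [h12]
      have h14 : (J : ℝ) + 1 ≤ l := by exact_mod_cast h13
      nlinarith
  rw [h5]
  have h10 : S.evalEval (z + e) (τ + c) - S.evalEval z τ =
      (S.evalEval (z + e) (τ + c) - S.evalEval (z + e) τ) +
      (S.evalEval (z + e) τ - S.evalEval z τ) := by ring
  rw [h10]
  exact h8.add h9

omit hp [CharP Ω p] in
/-- **Strictness** on `k(τ, z)`, with strict jets. -/
theorem str_adjoin_jets (h0 : Ctx0 k v) (hw : SphC v)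
    (hval : ∀ r : ℝ, ∃ x : Ω, x ≠ 0 ∧ v x = r)
    (hz : TL v E z 0) (hτE : τ ∈ E) (hτW : τ ∈ W) (hτ : τ ≠ 0) (hv : v τ < 0)
    (hN : NatM v k τ z ρ) (hΦ : IsoE v v Φ) (hμ : 0 ≤ μ) (hε : 0 ≤ ε)
    (h1 : v.Ge (v τ + ρ + μ) (Φ τ - τ))
    (h2 : v.Ge ε (Φ z - z)) (hJ : ∀ l, 1 ≤ l → l ≤ J → ∀ f ∈ PI W,
      v.Ge (v (f.eval z) + μ) ((taylor z f).coeff l)) (hμJ : μ ≤ (J + 1) * ε) :
    StrM v Φ (IntermediateField.adjoin k ({z, τ} : Set Ω)) μ := by
  refine strM_of_val fun w hw' => ?_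
  obtain ⟨P, Q, hP, hQ, hQ0, h3⟩ := PF.exists_frac hw'
  have h4 : w = P.evalEval z τ / Q.evalEval z τ := by
    rw [← h3, mul_div_assoc, div_self hQ0, mul_one]
  rw [h4]
  exact StrM.div_aux hΦ hμ hQ0
    (str_poly_jets h0 hw hval hz hτE hτW hτ hv hN hμ hε h1 h2 hJ hμJ hP)
    (str_poly_jets h0 hw hval hz hτE hτW hτ hv hN hμ hε h1 h2 hJ hμJ hQ)

end Nat

section End

variable [CharP k p] [IsAlgClosed k] [IsAlgClosed Ω]

omit [CharP k p] in
/-- A motion which is strict on the `k(y, f)`, `f` a tame root of `X 0`, is strict. -/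
theorem PRT.strM_of (hP : PRT p v Γ C X y B) (hΦ : IsoE v v Φ) {μ : ℝ}
    (hone : ∀ (m : ℕ) (X' : ℕ → Ω), RS p v Γ X m X' →
      StrM v Φ (IntermediateField.adjoin k ({y, X' 0} : Set Ω)) μ) : StrM v Φ C μ := by
  have hX := hP.ne
  have hr := hP.root
  set S : Set Ω := {f | ∃ m : ℕ, ¬ p ∣ m ∧ f ^ m = X 0 ∧ v f ∈ Γ} with hS
  have hne : Nonempty S := ⟨⟨X 0, 1, by
    rw [Nat.dvd_one]
    exact hp.out.ne_one, pow_one _, hP.val⟩⟩
  have hdir : Directed (· ≤ ·) fun f : S =>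
      IntermediateField.adjoin k ({y, (f : Ω)} : Set Ω) := by
    rintro ⟨f₁, m₁, hm₁, hf₁, hΓ₁⟩ ⟨f₂, m₂, hm₂, hf₂, hΓ₂⟩
    obtain ⟨X₁, hX₁, rfl⟩ := exists_sys hr hm₁ hf₁ hΓ₁
    obtain ⟨X₂, hX₂, rfl⟩ := exists_sys hr hm₂ hf₂ hΓ₂
    obtain ⟨r, r₁, X'', h1, -, -, h2⟩ := RS.common (k := k) hX hX₁ hX₂
    obtain ⟨c, -, hc⟩ := h2 0
    have h3 := hX₁.trans h1
    have hmem : X'' 0 ∈ IntermediateField.adjoin k ({y, X'' 0} : Set Ω) :=
      IntermediateField.subset_adjoin k _ (Or.inr rfl)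
    refine ⟨⟨X'' 0, m₁ * r, h3.nd, h3.pow 0, h3.val⟩, ?_, ?_⟩
    · refine IntermediateField.adjoin_le_iff.2 ?_
      rintro w (rfl | hw)
      · exact IntermediateField.subset_adjoin k _ (Or.inl rfl)
      · rw [Set.mem_singleton_iff] at hw
        rw [hw]
        change X₁ 0 ∈ IntermediateField.adjoin k ({y, X'' 0} : Set Ω)
        rw [← h1.pow 0]
        exact pow_mem hmem _
    · refine IntermediateField.adjoin_le_iff.2 ?_
      rintro w (rfl | hw)
      · exact IntermediateField.subset_adjoin k _ (Or.inl rfl)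
      · rw [Set.mem_singleton_iff] at hw
        rw [hw]
        change X₂ 0 ∈ IntermediateField.adjoin k ({y, X'' 0} : Set Ω)
        rw [hc]
        exact mul_mem (IntermediateField.algebraMap_mem _ _) (pow_mem hmem _)
  set U : IntermediateField k Ω := ⨆ f : S, IntermediateField.adjoin k ({y, (f : Ω)} : Set Ω)
    with hU
  have hUs : StrM v Φ U μ := by
    intro w hw'
    have h1 : w ∈ (U : Set Ω) := hw'
    rw [hU, IntermediateField.coe_iSup_of_directed hdir] at h1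
    obtain ⟨⟨f, m, hm, hf, hfΓ⟩, hfw⟩ := Set.mem_iUnion.1 h1
    obtain ⟨X', hX', rfl⟩ := exists_sys hr hm hf hfΓ
    exact hone m X' hX' w hfw
  have hCU : C ≤ clI v U := by
    rw [hP.eq]
    have hyU : y ∈ U := by
      obtain ⟨f⟩ := hne
      exact (le_iSup (fun f : S => IntermediateField.adjoin k ({y, (f : Ω)} : Set Ω)) f)
        (IntermediateField.subset_adjoin k _ (Or.inl rfl))
    refine cadj_le (cld_clI v _) (clI_mono' (IntermediateField.adjoin_le_iff.2 ?_))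
      (self_le_clI v _ hyU)
    intro f hf
    exact (le_iSup (fun f : S => IntermediateField.adjoin k ({y, (f : Ω)} : Set Ω)) ⟨f, hf⟩)
      (IntermediateField.subset_adjoin k _ (Or.inr rfl))
  exact (hUs.clI hΦ).le hCU

/-- **The small motions at the end of the stages**, strict jets over the tame base. -/
theorem exists_end (h0 : Ctx0 k v) (hw : SphC v) (hval : ∀ r : ℝ, ∃ x : Ω, x ≠ 0 ∧ v x = r)
    (hP : PRT p v Γ C X y B) (hB : 0 ≤ B) (hBd : B < d)
    (hS : ∀ l, 1 ≤ l → Sd v (WT k p v Γ (X 0)) y l (l * 0)) (N L : ℕ) :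
    ∃ ε : ℝ, 0 < ε ∧ ∀ Φ : Ω →ₐ[k] Ω, IsoE v v Φ → MT p v Γ Φ X y d (ε / p ^ N) →
      StrM v Φ C ((L + 1) * ε) := by
  have hX := hP.ne
  have hv := hP.neg
  have hr := hP.root
  have hp0 : (0 : ℝ) < p := by exact_mod_cast hp.out.pos
  set J := (L + 1) * p ^ N with hJ
  obtain ⟨η, hη, hηJ⟩ : ∃ η : ℝ, 0 < η ∧ ∀ l, 1 ≤ l → l ≤ J → ∀ f ∈ PI (WT k p v Γ (X 0)),
      v.Ge (v (f.eval y) + η) ((taylor y f).coeff l) := by
    have h1 : ∀ J : ℕ, ∃ η : ℝ, 0 < η ∧ ∀ l, 1 ≤ l → l ≤ J → ∀ f ∈ PI (WT k p v Γ (X 0)),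
        v.Ge (v (f.eval y) + η) ((taylor y f).coeff l) := by
      intro J
      induction J with
      | zero => exact ⟨1, one_pos, fun l h1 h2 => by omega⟩
      | succ J ih =>
        obtain ⟨η, hη, h1⟩ := ih
        obtain ⟨η', hη', h2⟩ := hS (J + 1) (Nat.succ_pos J)
        refine ⟨min η η', lt_min hη hη', fun l hl hl' f hf => ?_⟩
        rcases Nat.lt_or_ge l (J + 1) with h3 | h3
        · exact (h1 l hl (by omega) f hf).mono (by linarith [min_le_left η η'])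
        · obtain rfl : l = J + 1 := le_antisymm hl' h3
          exact (h2 f hf _ (RVal.ge_self _)).mono (by
            rw [mul_zero, sub_zero]
            linarith [min_le_right η η'])
    exact h1 J
  set B' := (B + d) / 2 with hB'
  have hB1 : B < B' := by rw [hB']; linarith
  have hB2 : B' < d := by rw [hB']; linarith
  set ρ := -(B' * v (X 0)) with hρ
  have hρ0 : 0 < ρ := by
    rw [hρ]
    nlinarith
  have hμ0 : 0 < -((d - B') * v (X 0)) := by nlinarith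
  set κ := min η (-((d - B') * v (X 0))) with hκ
  have hκ0 : 0 < κ := lt_min hη hμ0
  have hκη : κ ≤ η := min_le_left _ _
  have hL : (0 : ℝ) < (L : ℝ) + 1 := by positivity
  refine ⟨κ / (L + 1), div_pos hκ0 hL, fun Φ hΦ h => ?_⟩
  have hε : 0 < κ / ((L : ℝ) + 1) := div_pos hκ0 hL
  have e1 : ((L : ℝ) + 1) * (κ / (L + 1)) = κ := by field_simp
  have hpN : (0 : ℝ) < (p : ℝ) ^ N := pow_pos hp0 N
  have hε' : 0 ≤ κ / ((L : ℝ) + 1) / (p : ℝ) ^ N := (div_pos hε hpN).le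
  rw [e1]
  refine hP.strM_of hΦ fun m X' hX' => ?_
  have hfE : X' 0 ∈ EW v (WT k p v Γ (X 0)) X := TWC.EW.le hX'.mem
  have h1 := h.root h0 hX hv hr hX' 0
  refine str_adjoin_jets h0 hw hval hP.tl hfE hX'.mem (hX'.ne hX 0) (hX'.neg hX hv)
    (natM_ST h0 hX hv hB hρ0 (by rw [hρ]; nlinarith) hX' hP.ltr) hΦ hκ0.le hε' (h1.mono ?_) h.mvy
    (J := J) (fun l hl hl' f hf => (hηJ l hl hl' f hf).mono (by linarith [hκη])) ?_
  · have h2 := hX'.val_mul hX 0
    have h3 : ((d * m : ℕ) : ℝ) * v (X' 0) = d * v (X 0) := by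
      rw [← h2]
      push_cast
      ring
    rw [h3, hρ, pow_zero, div_one]
    have h4 : κ ≤ -((d - B') * v (X 0)) := min_le_right _ _
    linarith
  · rw [hJ]
    push_cast
    have h2 : (((L : ℝ) + 1) * (p : ℝ) ^ N + 1) * (κ / (L + 1) / p ^ N) =
        κ + κ / (L + 1) / p ^ N := by
      field_simp
    rw [h2]
    linarith

/-- **Strict small motions give strict jets.** -/
theorem sd_of_motions {E W : IntermediateField k Ω} {z : Ω} (h0 : Ctx0 k v) (hw : SphC v)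
    (hval : ∀ r : ℝ, ∃ x : Ω, x ≠ 0 ∧ v x = r) (hz : TL v E z 0) (hWE : W ≤ E)
    (hC : C = cadj v W z) (hε : 0 < ε) (L : ℕ) (hL : 1 ≤ L)
    (h : ∀ Φ : Ω →ₐ[k] Ω, IsoE v v Φ → (∀ b ∈ E, Φ b = b) → v.Ge ε (Φ z - z) →
      StrM v Φ C ((L + 1) * ε)) : Sd v W z L (L * 0) := by
  obtain ⟨S, hS, hSv⟩ := hval ε
  have hSε : v.Ge ε S := fun _ => hSv.ge
  refine ⟨ε, hε, fun P hP r hr => ?_⟩
  by_cases hP0 : P = 0
  · rw [hP0, map_zero, coeff_zero]
    exact RVal.Ge.zero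
  have hne : P.eval z ≠ 0 := hz.eval_ne (PI_mono (hWE.trans (le_algc E)) hP) hP0
  set f : Polynomial Ω := (taylor z P - Polynomial.C (P.eval z)).comp (Polynomial.C S * Polynomial.X) with hf
  have h1 : ∀ κ : k, κ ≠ 0 →
      v.Ge (v (P.eval z) + (L + 1) * ε) (f.eval (algebraMap k Ω κ)) := by
    intro κ _
    have hc : v.Ge 0 (S * algebraMap k Ω κ) := (hSε.mul (h0.ge κ)).mono (by linarith)
    obtain ⟨Φ, hΦ, hfixE, hΦz, -⟩ := exists_trans h0 hw hval hz hc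
    have h2 := h Φ hΦ hfixE (by
      rw [hΦz, add_sub_cancel_left]
      have := hSε.mul (h0.ge κ)
      rwa [add_zero] at this)
    have h4 : P.eval z ∈ C := by
      rw [hC]
      exact eval_mem (PI_mono (le_cadj _ _ _) hP) (self_mem_cadj _ _ _)
    have h5 := h2.self h4
    have h6 : Φ (P.eval z) = P.eval (z + S * algebraMap k Ω κ) := by
      rw [← hΦz]
      have h7 : P.map (Φ : Ω →+* Ω) = P := by
        ext i
        rw [coeff_map]
        exact hfixE _ (hWE (hP i))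
      conv_rhs => rw [← h7]
      exact (Polynomial.eval_map_apply (Φ : Ω →+* Ω) z).symm
    rw [h6] at h5
    have h8 : f.eval (algebraMap k Ω κ) = P.eval (z + S * algebraMap k Ω κ) - P.eval z := by
      rw [hf, eval_comp, eval_mul, eval_C, eval_X, eval_sub, eval_C, taylor_eval, add_comm]
    rw [h8]
    exact h5
  have h2 := vand_ge h0 h1 L
  have h3 : f.coeff L = (taylor z P).coeff L * S ^ L := by
    rw [hf, comp_C_mul_X_coeff, coeff_sub, coeff_C, if_neg (by omega), sub_zero]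
  rw [h3] at h2
  have hLε : (0 : ℝ) ≤ L * ε := by positivity
  intro h4
  have h5 := h2 (mul_ne_zero h4 (pow_ne_zero L hS))
  rw [v.map_mul h4 (pow_ne_zero L hS), v.map_pow hS, hSv] at h5
  have h6 := hr hne
  rw [mul_zero, sub_zero]
  linarith

/-- **Strict jets at the end of the stages give strict jets at the start.** -/
theorem strW_back (h0 : Ctx0 k v) (hw : SphC v) (hval : ∀ r : ℝ, ∃ x : Ω, x ≠ 0 ∧ v x = r)
    (hP : PRT p v Γ C X y (b + 1)) (h : Stgs p v Γ n C X y b C' X' y' b')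
    (hP' : PRT p v Γ C' X' y' (b' + 1)) {e : ℕ} (hg : g ∈ STs k p v Γ X' ((b' + 1 : ℕ) : ℝ) 0)
    {C₁ : IntermediateField k Ω} (hCC : C ≤ C₁) (hP₁ : PRT p v Γ C₁ (fun n => X' (e + n)) (y' - g) B)
    (hB : 0 ≤ B) (hBb : B < b' + 1)
    (hS : ∀ l, 1 ≤ l → Sd v (WT k p v Γ (X' e)) (y' - g) l (l * 0)) (L : ℕ) (hL : 1 ≤ L) :
    Sd v (WT k p v Γ (X 0)) y L (L * 0) := by
  have hp0 : (0 : ℝ) < p := by exact_mod_cast hp.out.pos
  obtain ⟨N₁, h1⟩ := h.mt h0 hP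
  obtain ⟨N₂, h2⟩ := MT.iso h0 hP'.ne hP'.neg hP'.root hP'.val hg e
  obtain ⟨ε, hε, h3⟩ := exists_end h0 hw hval hP₁ hB (d := b' + 1) (by push_cast; exact hBb)
    hS (N₁ + N₂) L
  refine sd_of_motions h0 hw hval hP.tl TWC.EW.le hP.eq hε L hL fun Φ hΦ hfix hy => ?_
  have h4 : MT p v Γ Φ X y (b + 1) ε := by
    refine MT.of_fix (fun m X' hX' j => hfix _ ?_) (hfix _ (TWC.EW.mem 0)) hy
    have h5 : X' j ∈ ST k p v Γ X 1 0 := by
      have h6 := mem_ST (k := k) (i := 1) (B := 1) hX' (Nat.zero_le j) (by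
        rw [mul_one]
        exact_mod_cast hX'.npos)
      rwa [pow_one] at h6
    exact ST_le_EW hP.root hP.ne hP.val h5
  have h5 := h2 Φ y' _ (div_nonneg hε.le (pow_nonneg hp0.le _)) (h1 Φ hΦ ε hε.le h4)
  rw [div_div, ← pow_add] at h5
  exact (h3 Φ hΦ h5).le hCC

end End

end Pool.Agent.TWC.PW
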