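import Pool.Agent.Lib.TWC.PWy
import Pool.Agent.Lib.TWC.PWg
import Pool.Agent.Lib.TWC.PWh

/-!
# TANK W, class C, letters over a tame base: the exit `ExS`, and the homogeneous loop with two exits

* `gaps_of_exS`: if the upper limit of the top exponents is exceeded infinitely often, then
  infinitely many gaps are larger than all later gaps;
* `strW_of_exS`: then the start of the loop is strict;
* `OutBh`, `loopB_h`.
-/

set_option autoImplicit false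
set_option linter.unusedSectionVars false

open Polynomial

namespace Pool.Agent.TWC.PW

open Pool.Agent.H15JM (RVal)
open Pool.Agent.D2 (Ctx0)
open Pool.Agent.D2P (clI mem_clI)
open Pool.Agent.TWM
open Pool.Agent.TWS
open Pool.Agent.TWCT
open Pool.Agent.TWTR (NearB strW_of_gaps)
open Pool.Agent.TWC.PF (Lm SW SA)

universe u

variable {k Ω : Type u} [Field k] [Field Ω] [Algebra k Ω] {v : RVal Ω} {Γ : AddSubgroup ℝ}
  {p : ℕ} [hp : Fact p.Prime] [CharP k p] [CharP Ω p] [IsAlgClosed k] [IsAlgClosed Ω]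
  {C C' : IntermediateField k Ω} {X X' : ℕ → Ω} {y y' g : Ω} {B β m : ℝ} {b b' e j n N : ℕ}
  {σ : Ω →ₐ[k] Ω}

/-- A gap `> m` is a gap `> m'` for some `m' > m`. -/
theorem not_nearB_succ {W : IntermediateField k Ω} {s : ℝ} (h : ¬ NearB p v W s j m y) {c : ℝ}
    (hc : 0 < c) : ∃ β' : ℝ, 0 < β' ∧ ¬ NearB p v W s j (m + β' * c) y := by
  unfold NearB at h ⊢
  push Not at h
  obtain ⟨ε, hε, h1⟩ := h
  have hp0 : (0 : ℝ) < (p : ℝ) ^ (j + 1) := p_ps p (j + 1)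
  refine ⟨ε / 2 * (p : ℝ) ^ (j + 1) / c, by positivity, fun h2 => ?_⟩
  obtain ⟨a, ha, h3⟩ := h2 (ε / 2) (by linarith)
  refine h1 a ha (h3.mono (le_of_eq ?_))
  have e1 : ε / 2 * (p : ℝ) ^ (j + 1) / c * c = ε / 2 * (p : ℝ) ^ (j + 1) :=
    div_mul_cancel₀ _ hc.ne'
  rw [e1, add_div, mul_div_assoc, div_self hp0.ne']
  ring

/-- `y` is not in the closure of `WT(X e)` up to `0`. -/
theorem not_nearB_zero (h0 : Ctx0 k v) (hP : PRT p v Γ C X y B) (hG : Γ ≤ VG v C) (e : ℕ) :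
    ¬ NearB p v (WT k p v Γ (X 0)) 0 e 0 y := by
  intro h
  have hr := hP.root
  have hX := hP.ne
  have hW : WT k p v Γ (X 0) ≤ WT k p v Γ (X e) := WT_mono hr hX hP.div (Nat.zero_le e)
  have hWE : WT k p v Γ (X e) ≤ EW v (WT k p v Γ (X 0)) X := by
    rw [← EW_iso hr hX hP.val hP.div e]
    exact TWC.EW.le
  have hTL : TL v (WT k p v Γ (X e)) y 0 := by
    refine hP.tl.of_le hWE ?_
    intro ε hε
    obtain ⟨a, ha, h1⟩ := h ε hε
    refine ⟨a, root_mem_WT hr hX hP.div ha, h1.mono (le_of_eq ?_)⟩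
    rw [zero_div, sub_zero]
  have hΓe : v (X (e + 1)) ∈ Γ := (RS.refl hr hP.val).val_mem hX hP.div (e + 1)
  obtain ⟨f, hf, hf0, hfv⟩ := hG hΓe
  have hf' : f ∈ cadj v (WT k p v Γ (X e)) y := by
    rw [hP.eq] at hf
    exact cadj_mono hW y hf
  obtain ⟨a, ha, h1⟩ := hTL.imm.imm f hf' hf0
  obtain ⟨ha0, hav⟩ := Gt.val_eq hf0 h1
  refine not_vg_WT (X := fun n => X (e + n)) h0 (fun n => hr (e + n)) (rt_ne hr hX _)
    (rt_neg hr hX hP.neg _) ((RS.refl hr hP.val).val_mem hX hP.div (e + 0)) ⟨a, ha, ha0, ?_⟩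
  rw [hav, hfv, add_zero, ← hr e, v.map_pow (rt_ne hr hX (e + 1))]
  have hp0 : (p : ℝ) ≠ 0 := by exact_mod_cast hp.out.ne_zero
  field_simp

/-- **The exit `ExS`**: infinitely many gaps are larger than all later gaps. -/
theorem gaps_of_exS (h0 : Ctx0 k v) (hP : PRT p v Γ C X y B)
    (hl : Lm v (STs k p v Γ X (b + 1) 1) y) (hG : Γ ≤ VG v C) (h : ExS k p v Γ X y b) (j₀ : ℕ) :
    ∃ j, j₀ ≤ j ∧ ∃ β : ℝ,
      (∀ j', j < j' → NearB p v (WT k p v Γ (X 0)) 0 j' (β * -v (X 0)) y) ∧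
      ¬ NearB p v (WT k p v Γ (X 0)) 0 j (β * -v (X 0)) y := by
  obtain ⟨β, hβ, -, h1, h2⟩ := h
  have hg : 0 < -v (X 0) := by linarith [hP.neg]
  obtain ⟨j₁, hj₁, h3⟩ : ∃ j₁, j₀ ≤ j₁ ∧
      ¬ NearB p v (WT k p v Γ (X 0)) 0 j₁ (β * -v (X 0)) y := by
    rcases hβ.eq_or_lt with h4 | h4
    · refine ⟨j₀, le_rfl, ?_⟩
      rw [← h4, zero_mul]
      exact not_nearB_zero h0 hP hG j₀
    · by_contra hcon
      push Not at hcon
      exact h2 j₀ (topLe_of_nearB h0 hP h4 hl hcon)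
  obtain ⟨δ, hδ, h4⟩ := not_nearB_succ h3 hg
  have e1 : β * -v (X 0) + δ * -v (X 0) = (β + δ) * -v (X 0) := by ring
  rw [e1] at h4
  obtain ⟨e, h5⟩ := h1 (β + δ) (by linarith)
  by_contra hcon
  push Not at hcon
  have key : ∀ n, ∃ j, n ≤ j ∧ j₀ ≤ j ∧
      ¬ NearB p v (WT k p v Γ (X 0)) 0 j ((β + δ) * -v (X 0)) y := by
    intro n
    induction n with
    | zero => exact ⟨j₁, Nat.zero_le _, hj₁, h4⟩
    | succ n ih =>
      obtain ⟨j, h6, h7, h8⟩ := ih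
      by_contra h9
      push Not at h9
      exact h8 (hcon j h7 (β + δ) fun j' hj' => h9 j' (by omega) (by omega))
  obtain ⟨j, h6, -, h7⟩ := key e
  exact h7 (h5.nearB h0 hP (by linarith) h6)

/-- **Strictness at the end**. -/
theorem sd_of_exS (h0 : Ctx0 k v) (hc : CompleteV v) (hP : PRT p v Γ C X y B)
    (hl : Lm v (STs k p v Γ X (b + 1) 1) y) (hG : Γ ≤ VG v C) (h : ExS k p v Γ X y b)
    (hg : g ∈ WT k p v Γ (X e)) :
    ∀ l, 1 ≤ l → Sd v (WT k p v Γ (X e)) (y - g) l (l * 0) := by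
  have hr := hP.root
  have hX := hP.ne
  have hWE : WT k p v Γ (X e) ≤ EW v (WT k p v Γ (X 0)) X := by
    rw [← EW_iso hr hX hP.val hP.div e]
    exact TWC.EW.le
  have htl : TL v (EW v (WT k p v Γ (X 0)) X) (y - g) 0 := hP.tl.sub_mem (hWE hg)
  have hΓe : v (X e) ∈ Γ := (RS.refl hr hP.val).val_mem hX hP.div e
  refine strW_of_gaps h0 hc (hl_WT (X := fun n => X (e + n)) h0 hc (fun n => hr (e + n))
    (rt_ne hr hX _) (rt_neg hr hX hP.neg _) hΓe hP.div) (fun θ hθ => ?_) (fun ε hε => ?_)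
    fun j₀ => ?_
  · exact htl.far θ (Pool.Agent.D2P.isAlgebraic_mono hWE hθ)
  · obtain ⟨s, hs, h1⟩ := hP.ltr ε hε
    obtain ⟨i, h2⟩ := ST_pow_mem hs
    refine ⟨i, s - g, ?_, ?_⟩
    · change (s - g) ^ p ^ i ∈ WT k p v Γ (X (e + 0))
      rw [add_zero, sub_pow_char_pow]
      exact sub_mem (WT_mono hr hX hP.div (Nat.zero_le e) h2) (pow_mem hg _)
    · have e1 : y - g - (s - g) = y - s := by ring
      rw [e1, zero_sub]
      exact h1
  · obtain ⟨j, hj, β, h1, h2⟩ := gaps_of_exS h0 hP hl hG h (e + j₀)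
    obtain ⟨t, rfl⟩ := Nat.exists_eq_add_of_le (Nat.le_of_add_right_le hj)
    refine ⟨t, by omega, β * -v (X e), fun j' hj' => ?_, fun h3 => ?_⟩
    · exact nearB_shift hr hX hP.val hP.div hg (h1 (e + j') (by omega))
    · exact h2 (nearB_unshift hr hX hP.val hP.div hg h3)

/-- **The exit `ExS`**: the start of the loop is strict. -/
theorem strW_of_exS (h0 : Ctx0 k v) (hc : CompleteV v) (hw : SphC v)
    (hval : ∀ r : ℝ, ∃ x : Ω, x ≠ 0 ∧ v x = r) (hP : PRT p v Γ C X y (b + 1))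
    (hb : ¬ p ∣ b + 1) (hl : Lm v (STs k p v Γ X (b + 1) 1) y) (hG : Γ ≤ VG v C)
    (h : Stgs p v Γ n C X y b C' X' y' b') (hx : ExS k p v Γ X' y' b') (L : ℕ) (hL : 1 ≤ L) :
    Sd v (WT k p v Γ (X 0)) y L (L * 0) := by
  obtain ⟨h1, -, hP', hb', hl'⟩ := h.inv hP hb hl
  have hG' : Γ ≤ VG v C' := hG.trans (VG.mono h1)
  have hx' := hx
  obtain ⟨β, hβ, hβb, h2, h3⟩ := hx
  have hβ1 : β < b' + 1 := by
    refine hβb.lt_of_ne fun h4 => h3 0 ⟨0, zero_mem _, zero_mem _, ?_⟩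
    rw [h4, sub_zero]
    exact hP'.ltr
  obtain ⟨e, g, hg, hg', hlm⟩ := h2 ((β + (b' + 1)) / 2) (by linarith)
  have hsh : ∀ (B : ℝ) (j : ℕ), ST k p v Γ (fun n => X' (e + n)) B j = ST k p v Γ X' B (e + j) :=
    fun B j => ST_shift hP'.root hP'.ne hP'.div e
  obtain ⟨h4, -, h5⟩ := hP'.iso (B' := (β + (b' + 1)) / 2) hg (by rw [hsh]; exact hlm) rfl
  refine strW_back h0 hw hval hP h hP' (e := e) (g := g) (B := (β + (b' + 1)) / 2) ?_
    (h1.trans h4) h5 (by linarith) (by linarith)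
    (sd_of_exS h0 hc hP' hl' hG' hx' hg) L hL
  rw [Nat.cast_succ]
  exact STs_mono le_rfl (Nat.zero_le _) hg'

/-! ### The homogeneous loop with two exits -/

/-- A field of the isogeny class with a tight coordinate, real exponent, homogeneous. -/
def OutBh (p : ℕ) (v : RVal Ω) (Γ : AddSubgroup ℝ) (σ : Ω →ₐ[k] Ω) (N : ℕ)
    (C : IntermediateField k Ω) : Prop :=
  ∃ (C' : IntermediateField k Ω) (X' : ℕ → Ω) (y' : Ω) (B : ℝ), IsoR p v Γ C C' ∧ 0 < B ∧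
    PRT p v Γ C' X' y' B ∧ Tgt p v C' X' (-((B - 1) * v (X' 0))) ∧ Hg σ N C' X' y'

theorem OutBh.up (h1 : IsoR p v Γ C C') (h : OutBh p v Γ σ N C') : OutBh p v Γ σ N C := by
  obtain ⟨C'', X', y', b', h3, h4⟩ := h
  exact ⟨C'', X', y', b', h1.trans h3, h4⟩

theorem OutTh.outBh (h : OutTh p v Γ σ N C) : OutBh p v Γ σ N C := by
  obtain ⟨C', X', y', b', h1, h2, h3, h4, h5⟩ := h
  refine ⟨C', X', y', b' + 1, h1, by positivity, h2, ?_, h5⟩
  rwa [add_sub_cancel_right]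

/-- **The upper limit is not attained**, homogeneous. -/
theorem ExT.outBh (h0 : Ctx0 k v) (hc : CompleteV v) (hσ : IsoE v v σ) (hN : (N : k) ≠ 0)
    (hP : PRT p v Γ C X y (b + 1)) (hl : Lm v (STs k p v Γ X (b + 1) 1) y) (hH : Hg σ N C X y)
    (h : ExT k p v Γ X y b) : OutBh p v Γ σ N C := by
  obtain ⟨β, h1, h2, ⟨e, h3⟩, h6⟩ := h
  obtain ⟨κ, hκ⟩ := hH.ey
  obtain ⟨g, h3, h4, h5, hgκ⟩ := h3.hg h0 hσ hN hP hH hκ
  obtain ⟨h7, h8, h9, h10⟩ := tgt_of_lt h0 hc hP h1 hl h3 h5 h6 rfl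
  refine ⟨_, fun n => X (e + n), y - g, β, .step hP h3 h7 h8 h9 (.refl _), h1, h9, h10,
    fun a ha => fix_up hH.fix (h8 a ha), hH.eX.sys hP.root hP.ne (e + 0), κ, ?_⟩
  rw [map_sub, hκ, hgκ]
  ring

/-- **The loop**, homogeneous, with two exits. -/
theorem loopB_h (h0 : Ctx0 k v) (hc : CompleteV v) (hσ : IsoE v v σ) (hN : (N : k) ≠ 0)
    (hP : PRT p v Γ C X y (b + 1)) (hb : ¬ p ∣ b + 1) (hl : Lm v (STs k p v Γ X (b + 1) 1) y)
    (hH : Hg σ N C X y) :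
    OutBh p v Γ σ N C ∨
      (∃ (n : ℕ) (C' : IntermediateField k Ω) (X' : ℕ → Ω) (y' : Ω) (b' : ℕ),
        Stgs p v Γ n C X y b C' X' y' b' ∧ ExS k p v Γ X' y' b') ∨
      ∀ n, ∃ (C' : IntermediateField k Ω) (X' : ℕ → Ω) (y' : Ω) (b' : ℕ),
        Stgs p v Γ n C X y b C' X' y' b' := by
  rcases loop_h h0 hc hσ hN hP hb hl hH with h | ⟨n, C', X', y', b', h, hH', h' | h'⟩ | h
  · exact .inl h.outBh
  · exact .inr (.inl ⟨n, C', X', y', b', h, h'⟩)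
  · obtain ⟨-, -, h1, -, h2⟩ := h.inv hP hb hl
    exact .inl (.up (h.isoR hP) (h'.outBh h0 hc hσ hN h1 h2 hH'))
  · exact .inr (.inr h)

end Pool.Agent.TWC.PW
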