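import Pool.Agent.Lib.TWC.TightW
import Pool.Agent.Lib.TWC.ThetaX
import Pool.Agent.Lib.TWC.SND
import Pool.Agent.Lib.TWC.Exch

/-!
# TANK W, class C: a second tight coordinate (row I.r, any level, any radius)

`C` closed, `x 0 ∈ C` tight of level `r` (`Tgt`), `0 < v (x 0)`, `w ∈ C` a limit up to `s` of
`E = EW v ⊥ x`. The letters `x ^ a` of `w`, `a = j / p ^ N`, which are not integral, satisfy
`s ≤ v (x ^ a) + (r - v x) / p ^ J`, `p ^ J` the denominator of `a` (`letter_le`). If one removes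
the integral letters (`exists_int`) one gets `w' = w - n`, `n` a Laurent polynomial of `x 0`, all
the roots of which are near to `C`: `Lim v C (s / p ^ m) (w' ^ (1 / p ^ m))` (`exists_pair`).
-/

set_option autoImplicit false

open Polynomial

namespace Pool.Agent.TWC

open Pool.Agent.H15JM (RVal)
open Pool.Agent.D2 (Ctx0)
open Pool.Agent.D2P (clI mem_clI)
open Pool.Agent.TWM

universe u

variable {k Ω : Type u} [Field k] [Field Ω] [Algebra k Ω] {v : RVal Ω}
  {C : IntermediateField k Ω}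

/-! ### Laurent polynomials with finitely supported coefficients -/

/-- The Laurent polynomial `∑ f j z ^ j`. -/
noncomputable def lf (z : Ω) (f : ℤ →₀ k) : Ω := f.sum fun j a => algebraMap k Ω a * z ^ j

theorem lf_eq_lau (z : Ω) (f : ℤ →₀ k) : lf z f = lau z f.support f := rfl

theorem lf_add (z : Ω) (f g : ℤ →₀ k) : lf z (f + g) = lf z f + lf z g := by
  classical
  refine Finsupp.sum_add_index' (fun j => ?_) fun j a b => ?_
  · rw [map_zero, zero_mul]
  · rw [map_add, add_mul]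

theorem lf_neg (z : Ω) (f : ℤ →₀ k) : lf z (-f) = -lf z f := by
  have h1 := lf_add z f (-f)
  rw [add_neg_cancel] at h1
  have h2 : lf z (0 : ℤ →₀ k) = 0 := Finsupp.sum_zero_index
  rw [h2] at h1
  exact (neg_eq_of_add_eq_zero_right h1.symm).symm

theorem lf_sub (z : Ω) (f g : ℤ →₀ k) : lf z (f - g) = lf z f - lf z g := by
  rw [sub_eq_add_neg, lf_add, lf_neg, sub_eq_add_neg]

theorem lf_mem {B : IntermediateField k Ω} {z : Ω} (hz : z ∈ B) (f : ℤ →₀ k) : lf z f ∈ B :=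
  lau_mem hz _ _

theorem lau_eq_lf (z : Ω) (F : Finset ℤ) (a : ℤ → k) : ∃ f : ℤ →₀ k, lau z F a = lf z f := by
  classical
  refine ⟨∑ j ∈ F, Finsupp.single j (a j), ?_⟩
  have h1 : ∀ G : Finset ℤ, lf z (∑ j ∈ G, Finsupp.single j (a j)) =
      ∑ j ∈ G, algebraMap k Ω (a j) * z ^ j := by
    intro G
    induction G using Finset.induction_on with
    | empty =>
      rw [Finset.sum_empty, Finset.sum_empty]
      exact Finsupp.sum_zero_index
    | insert i G hi ih =>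
      rw [Finset.sum_insert hi, Finset.sum_insert hi, lf_add, ih]
      congr 1
      rw [lf, Finsupp.sum_single_index]
      rw [map_zero, zero_mul]
  exact (h1 F).symm

/-- Passing to a root of `z`. -/
theorem lf_lift {z z' : Ω} {d : ℕ} (hz : z' ^ d = z) (f : ℤ →₀ k) :
    lf z f = lf z' (f.mapDomain fun j => j * d) := by
  classical
  rw [lf, lf, Finsupp.sum_mapDomain_index (fun j => by rw [map_zero, zero_mul])
    (fun j a b => by rw [map_add, add_mul])]
  refine Finsupp.sum_congr fun j _ => ?_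
  rw [← hz, ← zpow_natCast, ← zpow_mul, mul_comm j]

theorem lf_lift_apply {d : ℕ} (hd : 0 < d) (f : ℤ →₀ k) (j : ℤ) :
    (f.mapDomain fun j => j * (d : ℤ)) (j * d) = f j := by
  refine Finsupp.mapDomain_apply (fun a b h => ?_) _ _
  have h1 : (d : ℤ) ≠ 0 := by exact_mod_cast hd.ne'
  exact mul_right_cancel₀ h1 h

theorem le_of_lf_ge (h0 : Ctx0 k v) {z : Ω} (hz : z ≠ 0) (hz0 : 0 < v z) {f : ℤ →₀ k} {b : ℝ}
    (h : v.Ge b (lf z f)) {j : ℤ} (hj : f j ≠ 0) : b ≤ (j : ℝ) * v z :=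
  le_of_lau_ge h0 hz hz0 (F := f.support) (a := f) h (Finsupp.mem_support_iff.2 hj) hj

section P

variable {p : ℕ} [hp : Fact p.Prime] [CharP k p] [CharP Ω p] {x : ℕ → Ω} {r s : ℝ}

omit [CharP k p] [CharP Ω p] in
theorem root_ne_zero (hr : ∀ n, x (n + 1) ^ p = x n) (h0 : x 0 ≠ 0) (n : ℕ) : x n ≠ 0 := by
  intro h
  have h1 := root_pow_add hr 0 n
  rw [zero_add, h, zero_pow (pow_ne_zero n hp.out.ne_zero)] at h1
  exact h0 h1.symm

omit [CharP k p] [CharP Ω p] [Field k] [Algebra k Ω] in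
theorem val_rt (hr : ∀ n, x (n + 1) ^ p = x n) (h0 : x 0 ≠ 0) (n : ℕ) :
    v (x n) = v (x 0) / p ^ n := by
  have hp0 : (0 : ℝ) < (p : ℝ) ^ n := pow_pos (by exact_mod_cast hp.out.pos) n
  have h1 := root_pow_add hr 0 n
  rw [zero_add] at h1
  have h2 : x n ≠ 0 := by
    intro h
    rw [h, zero_pow (pow_ne_zero n hp.out.ne_zero)] at h1
    exact h0 h1.symm
  rw [← h1, v.map_pow h2]
  push_cast
  field_simp

/-- The letters of an element of `C`. -/
theorem letter_le [IsAlgClosed Ω] (h0 : Ctx0 k v) (hc : CompleteV v) (hT : Tgt p v C x r)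
    (hx0 : x 0 ≠ 0) (hv : 0 < v (x 0)) {w : Ω} (hw : w ∈ C) {N : ℕ} {f : ℤ →₀ k} {b : ℝ}
    (h : v.Ge b (w - lf (x N) f)) {i : ℤ} (hi : f i ≠ 0) {l : ℕ} (h1 : (p ^ l : ℤ) ∣ i)
    (h2 : ¬ (p ^ (l + 1) : ℤ) ∣ i) (hl : l < N) :
    b ≤ (i : ℝ) * v (x N) + p ^ l * (r - v (x 0)) / p ^ N := by
  classical
  have hpn : 0 < p := hp.out.pos
  have hp0 : (0 : ℝ) < p := by exact_mod_cast hp.out.pos
  have hpN : (0 : ℝ) < (p : ℝ) ^ N := pow_pos hp0 N
  have hxN : x N ≠ 0 := root_ne_zero hT.root hx0 N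
  have hvN : v (x N) = v (x 0) / p ^ N := val_rt hT.root hx0 N
  have hvN0 : 0 < v (x N) := by rw [hvN]; exact div_pos hv hpN
  have hxpow : x N ^ p ^ N = x 0 := by
    have h3 := root_pow_add hT.root 0 N
    rwa [zero_add] at h3
  -- the shift
  obtain ⟨M, hM⟩ : ∃ M : ℕ, ∀ j ∈ f.support, 0 ≤ j + M * p ^ N := by
    refine ⟨∑ j ∈ f.support, j.natAbs, fun j hj => ?_⟩
    have h3 : j.natAbs ≤ ∑ j ∈ f.support, j.natAbs :=
      Finset.single_le_sum (f := fun j : ℤ => j.natAbs) (fun _ _ => Nat.zero_le _) hj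
    have h4 : (j.natAbs : ℤ) ≤ ((∑ j ∈ f.support, j.natAbs : ℕ) : ℤ) := by exact_mod_cast h3
    have h5 : (1 : ℤ) ≤ (p : ℤ) ^ N := by exact_mod_cast Nat.one_le_pow _ _ hpn
    have h6 : -(j.natAbs : ℤ) ≤ j := by omega
    have h7 : ((∑ j ∈ f.support, j.natAbs : ℕ) : ℤ) ≤
        ((∑ j ∈ f.support, j.natAbs : ℕ) : ℤ) * (p : ℤ) ^ N :=
      le_mul_of_one_le_right (by positivity) h5
    linarith
  set e : ℤ → ℕ := fun j => (j + M * p ^ N).toNat with he
  have heq : ∀ j ∈ f.support, ((e j : ℕ) : ℤ) = j + M * p ^ N := fun j hj =>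
    Int.toNat_of_nonneg (hM j hj)
  have hxe : ∀ j ∈ f.support, x N ^ e j = x 0 ^ M * x N ^ j := by
    intro j hj
    rw [← zpow_natCast, heq j hj, zpow_add₀ hxN, mul_comm, ← hxpow, ← pow_mul, ← zpow_natCast]
    congr 2
    push_cast
    ring
  set P : Polynomial Ω := Polynomial.C (x 0 ^ M * w) -
    ∑ j ∈ f.support, Polynomial.C (algebraMap k Ω (f j)) * X ^ e j with hP
  have hx0C : x 0 ∈ C := hT.mem
  have hPI : P ∈ PI C := by
    refine sub_mem (C_mem_PI (mul_mem (pow_mem hx0C M) hw)) (sum_mem fun j _ => ?_)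
    exact mul_mem (C_mem_PI (C.algebraMap_mem _)) (pow_mem X_mem_PI _)
  have hev : P.eval (x N) = x 0 ^ M * (w - lf (x N) f) := by
    rw [hP, eval_sub, eval_C, eval_finsetSum, mul_sub, lf, Finsupp.sum, Finset.mul_sum]
    congr 1
    refine Finset.sum_congr rfl fun j hj => ?_
    rw [eval_mul, eval_C, eval_pow, eval_X, hxe j hj]
    ring
  have hPge : v.Ge (b + M * v (x 0)) (P.eval (x N)) := by
    rw [hev]
    have h3 := RVal.Ge.mul (v.ge_self (x 0 ^ M)) h
    rw [v.map_pow hx0] at h3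
    exact h3.mono (by linarith)
  have hFN : p ^ l < p ^ N := Nat.pow_lt_pow_right hp.out.one_lt hl
  have hr1 : p * (fun n : ℕ => r / (p : ℝ) ^ n) 1 ≤ r := by
    simp only [pow_one]
    rw [mul_div_cancel₀ _ hp0.ne']
  have hnb := (hT.snd.nbx' p h0 hc hr1).nb N P hPI (p ^ l) hFN _ hPge
  -- the coefficient
  have hco : (taylor (x N) P).coeff (p ^ l) * x N ^ p ^ l =
      -(x 0 ^ M * lau (x N) f.support fun j => f j * ((e j).choose (p ^ l) : ℕ)) := by
    have hne : (p ^ l) ≠ 0 := (pow_pos hpn l).ne'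
    rw [hP, map_sub, coeff_sub, taylor_C, coeff_C_of_ne_zero hne, zero_sub, map_sum, finsetSum_coeff,
      neg_mul, neg_inj, Finset.sum_mul, lau, Finset.mul_sum]
    refine Finset.sum_congr rfl fun j hj => ?_
    rw [taylor_mul, taylor_C, coeff_C_mul, taylor_X_pow, coeff_X_add_C_pow]
    rcases lt_or_ge (e j) (p ^ l) with h3 | h3
    · rw [Nat.choose_eq_zero_of_lt h3]
      simp
    · have h4 : x N ^ (e j - p ^ l) * x N ^ p ^ l = x 0 ^ M * x N ^ j := by
        rw [← pow_add, Nat.sub_add_cancel h3, hxe j hj]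
      calc algebraMap k Ω (f j) * (x N ^ (e j - p ^ l) * ((e j).choose (p ^ l) : Ω)) * x N ^ p ^ l
          = algebraMap k Ω (f j) * ((e j).choose (p ^ l) : Ω) *
            (x N ^ (e j - p ^ l) * x N ^ p ^ l) := by ring
        _ = _ := by
          rw [h4, map_mul, map_natCast]
          ring
  have hlau : v.Ge (b - p ^ l * (r - v (x 0)) / p ^ N)
      (lau (x N) f.support fun j => f j * ((e j).choose (p ^ l) : ℕ)) := by
    have h3 := RVal.Ge.mul hnb (v.ge_self (x N ^ p ^ l))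
    rw [hco, v.map_pow hxN] at h3
    have h4 := RVal.Ge.mul (v.ge_self ((x 0 ^ M)⁻¹)) h3.neg
    rw [neg_neg, v.map_inv (pow_ne_zero _ hx0), v.map_pow hx0,
      inv_mul_cancel_left₀ (pow_ne_zero _ hx0)] at h4
    refine h4.mono (le_of_eq ?_)
    rw [hvN]
    push_cast
    field_simp
    ring
  -- the letter
  have hgi : f i * ((e i).choose (p ^ l) : ℕ) ≠ 0 := by
    refine mul_ne_zero hi ?_
    rw [Ne, CharP.cast_eq_zero_iff k p]
    have hii := heq i (Finsupp.mem_support_iff.2 hi)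
    have hdv : (p ^ l : ℕ) ∣ e i := by
      have h3 : ((p ^ l : ℕ) : ℤ) ∣ (e i : ℤ) := by
        rw [hii]
        push_cast
        exact dvd_add h1 (Dvd.dvd.mul_left (pow_dvd_pow _ hl.le) _)
      exact_mod_cast h3
    have hndv : ¬ (p ^ (l + 1) : ℕ) ∣ e i := by
      intro h3
      have h4 : ((p ^ (l + 1) : ℕ) : ℤ) ∣ (e i : ℤ) := by exact_mod_cast h3
      rw [hii] at h4
      push_cast at h4
      exact h2 ((dvd_add_left (Dvd.dvd.mul_left (pow_dvd_pow _ hl) _)).1 h4)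
    obtain ⟨m, hm⟩ := hdv
    rw [hm]
    refine not_dvd_choose_self fun h3 => hndv ?_
    rw [hm, pow_succ]
    exact mul_dvd_mul_left _ h3
  have h3 := le_of_lau_ge h0 hxN hvN0 hlau (Finsupp.mem_support_iff.2 hi) hgi
  linarith

/-- Approximations of a limit of `EW v ⊥ x`. -/
theorem exists_lf (h0 : Ctx0 k v) (hr : ∀ n, x (n + 1) ^ p = x n) (hx0 : x 0 ≠ 0)
    (hv : 0 < v (x 0)) {w : Ω} (hw : Lim v (EW v (⊥ : IntermediateField k Ω) x) s w) {ε : ℝ}
    (hε : 0 < ε) : ∃ (N : ℕ) (f : ℤ →₀ k), v.Ge (s - ε) (w - lf (x N) f) := by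
  have hp0 : (0 : ℝ) < p := by exact_mod_cast hp.out.pos
  obtain ⟨a, ha, h1⟩ := hw ε hε
  obtain ⟨N, g, hg, h2⟩ := exists_level p hr ha (s - ε)
  have hvN0 : 0 < v (x N) := by
    rw [val_rt hr hx0 N]
    exact div_pos hv (pow_pos hp0 N)
  obtain ⟨F, c, h3⟩ := exists_lau h0 (root_ne_zero hr hx0 N) hvN0 hg (s - ε)
  obtain ⟨f, hf⟩ := lau_eq_lf (x N) F c
  rw [hf] at h3
  refine ⟨N, f, ?_⟩
  have e : w - lf (x N) f = (w - a) + (a - g) + (g - lf (x N) f) := by ring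
  rw [e]
  exact (h1.add h2).add h3

/-- Passing to a deeper root. -/
theorem lf_root (hr : ∀ n, x (n + 1) ^ p = x n) (N d : ℕ) (f : ℤ →₀ k) :
    lf (x N) f = lf (x (N + d)) (f.mapDomain fun j => j * ((p ^ d : ℕ) : ℤ)) :=
  lf_lift (root_pow_add hr N d) f

/-- The integral letters of two approximations are the same. -/
theorem int_letter_eq (h0 : Ctx0 k v) (hr : ∀ n, x (n + 1) ^ p = x n) (hx0 : x 0 ≠ 0)
    (hv : 0 < v (x 0)) {w : Ω} {N N' : ℕ} {f f' : ℤ →₀ k} {b : ℝ}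
    (h : v.Ge b (w - lf (x N) f)) (h' : v.Ge b (w - lf (x N') f')) {j : ℤ}
    (hj : (j : ℝ) * v (x 0) < b) : f (j * (p ^ N : ℕ)) = f' (j * (p ^ N' : ℕ)) := by
  have hp0 : (0 : ℝ) < p := by exact_mod_cast hp.out.pos
  have hpn : 0 < p := hp.out.pos
  by_contra hne
  have hM : x (N + N') ≠ 0 := root_ne_zero hr hx0 _
  have hvM : v (x (N + N')) = v (x 0) / p ^ (N + N') := val_rt hr hx0 _
  have hvM0 : 0 < v (x (N + N')) := by
    rw [hvM]
    exact div_pos hv (pow_pos hp0 _)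
  set g := (f.mapDomain fun j => j * ((p ^ N' : ℕ) : ℤ)) -
    (f'.mapDomain fun j => j * ((p ^ N : ℕ) : ℤ)) with hg
  have h1 : v.Ge b (lf (x (N + N')) g) := by
    rw [hg, lf_sub, ← lf_root hr N N']
    have e : lf (x N') f' = lf (x (N + N')) (f'.mapDomain fun j => j * ((p ^ N : ℕ) : ℤ)) := by
      rw [add_comm N N']
      exact lf_root hr N' N f'
    rw [← e]
    have e2 : lf (x N) f - lf (x N') f' = (w - lf (x N') f') - (w - lf (x N) f) := by ring
    rw [e2]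
    exact h'.sub h
  have h2 : g (j * ((p ^ (N + N') : ℕ) : ℤ)) ≠ 0 := by
    have e1 : j * ((p ^ (N + N') : ℕ) : ℤ) = j * ((p ^ N : ℕ) : ℤ) * ((p ^ N' : ℕ) : ℤ) := by
      push_cast
      ring
    have e2 : j * ((p ^ (N + N') : ℕ) : ℤ) = j * ((p ^ N' : ℕ) : ℤ) * ((p ^ N : ℕ) : ℤ) := by
      push_cast
      ring
    rw [hg, Finsupp.sub_apply]
    nth_rw 1 [e1]
    rw [e2, lf_lift_apply (pow_pos hpn _), lf_lift_apply (pow_pos hpn _)]
    exact sub_ne_zero.2 hne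
  have h3 := le_of_lf_ge h0 hM hvM0 h1 h2
  rw [hvM] at h3
  push_cast at h3
  have h4 : (j : ℝ) * (p : ℝ) ^ (N + N') * (v (x 0) / p ^ (N + N')) = j * v (x 0) := by
    have : (p : ℝ) ^ (N + N') ≠ 0 := (pow_pos hp0 _).ne'
    field_simp
  rw [h4] at h3
  linarith

/-- No integral letters: `t` is a limit up to `s` of Laurent polynomials in the `x N`, the letters of
value `< s` of which are not integral and satisfy `letter_le`. -/
def NoInt (p : ℕ) (v : RVal Ω) (k : Type u) [Field k] [Algebra k Ω] (x : ℕ → Ω) (r s : ℝ)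
    (t : Ω) : Prop :=
  ∀ ε : ℝ, 0 < ε → ∃ (N : ℕ) (f : ℤ →₀ k), v.Ge (s - ε) (t - lf (x N) f) ∧ ∀ i, f i ≠ 0 →
    (i : ℝ) * v (x N) < s → ¬ (p ^ N : ℤ) ∣ i ∧ ∀ l, (p ^ l : ℤ) ∣ i → ¬ (p ^ (l + 1) : ℤ) ∣ i →
      s - ε ≤ (i : ℝ) * v (x N) + p ^ l * (r - v (x 0)) / p ^ N

/-- **The integral letters can be removed.** -/
theorem exists_int [IsAlgClosed Ω] (h0 : Ctx0 k v) (hc : CompleteV v) (hT : Tgt p v C x r)
    (hx0 : x 0 ≠ 0) (hv : 0 < v (x 0)) {w : Ω} (hw : w ∈ C)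
    (hlim : Lim v (EW v (⊥ : IntermediateField k Ω) x) s w) :
    ∃ n ∈ cadj v (⊥ : IntermediateField k Ω) (x 0), NoInt p v k x r s (w - n) := by
  classical
  have hp0 : (0 : ℝ) < p := by exact_mod_cast hp.out.pos
  have hpn : 0 < p := hp.out.pos
  -- the precision
  obtain ⟨ε₀, hε₀, hε₀'⟩ : ∃ ε₀ : ℝ, 0 < ε₀ ∧ ∀ j : ℤ, (j : ℝ) * v (x 0) < s →
      (j : ℝ) * v (x 0) < s - ε₀ := by
    set j₀ : ℤ := ⌈s / v (x 0)⌉ - 1 with hj₀
    have h1 : (j₀ : ℝ) * v (x 0) < s := by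
      rw [← lt_div_iff₀ hv, hj₀]
      push_cast
      have := Int.ceil_lt_add_one (s / v (x 0))
      linarith
    refine ⟨(s - j₀ * v (x 0)) / 2, by linarith, fun j hj => ?_⟩
    have h2 : j ≤ j₀ := by
      rw [← lt_div_iff₀ hv] at hj
      have h3 : j < ⌈s / v (x 0)⌉ := Int.lt_ceil.2 hj
      omega
    have h3 : (j : ℝ) * v (x 0) ≤ j₀ * v (x 0) :=
      mul_le_mul_of_nonneg_right (by exact_mod_cast h2) hv.le
    linarith
  obtain ⟨N₁, f₁, h1⟩ := exists_lf h0 hT.root hx0 hv hlim hε₀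
  -- the integral letters
  set J : Finset ℤ := (f₁.support.image fun i => i / ((p ^ N₁ : ℕ) : ℤ)).filter
    fun j => (j : ℝ) * v (x 0) < s with hJ
  set g : ℤ →₀ k := ∑ j ∈ J, Finsupp.single j (f₁ (j * ((p ^ N₁ : ℕ) : ℤ))) with hg
  have hga : ∀ j : ℤ, (j : ℝ) * v (x 0) < s → g j = f₁ (j * ((p ^ N₁ : ℕ) : ℤ)) := by
    intro j hj
    rw [hg, Finsupp.finsetSum_apply]
    simp only [Finsupp.single_apply]
    rw [Finset.sum_ite_eq' J j]
    split_ifs with h2
    · rfl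
    · by_contra h3
      refine h2 (Finset.mem_filter.2 ⟨Finset.mem_image.2 ⟨_, Finsupp.mem_support_iff.2 (Ne.symm h3),
        ?_⟩, hj⟩)
      exact Int.mul_ediv_cancel _ (by exact_mod_cast (pow_pos hpn N₁).ne')
  have hgb : ∀ j : ℤ, g j ≠ 0 → (j : ℝ) * v (x 0) < s := by
    intro j hj
    by_contra h2
    refine hj ?_
    rw [hg, Finsupp.finsetSum_apply]
    refine Finset.sum_eq_zero fun i hi => ?_
    rw [Finsupp.single_apply, if_neg]
    rintro rfl
    exact h2 (Finset.mem_filter.1 hi).2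
  refine ⟨lf (x 0) g, lf_mem (self_mem_cadj v _ _) g, fun ε hε => ?_⟩
  obtain ⟨N, f, h2⟩ := exists_lf h0 hT.root hx0 hv hlim (ε := min ε ε₀) (lt_min hε hε₀)
  have h2' : v.Ge (s - ε₀) (w - lf (x N) f) :=
    h2.mono (sub_le_sub_left (min_le_right ε ε₀) s)
  have hint : ∀ j : ℤ, (j : ℝ) * v (x 0) < s → f (j * ((p ^ N : ℕ) : ℤ)) = g j := fun j hj => by
    rw [hga j hj]
    exact int_letter_eq h0 hT.root hx0 hv h2' h1 (hε₀' j hj)
  have hlift : lf (x 0) g = lf (x N) (g.mapDomain fun j => j * ((p ^ N : ℕ) : ℤ)) := by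
    have h3 := lf_root hT.root 0 N g
    rwa [zero_add] at h3
  refine ⟨N, f - g.mapDomain fun j => j * ((p ^ N : ℕ) : ℤ), ?_, fun i hi hi2 => ?_⟩
  · rw [lf_sub, ← hlift]
    have e : w - lf (x 0) g - (lf (x N) f - lf (x 0) g) = w - lf (x N) f := by ring
    rw [e]
    exact h2.mono (sub_le_sub_left (min_le_left ε ε₀) s)
  have hndv : ¬ (p ^ N : ℤ) ∣ i := by
    rintro ⟨j, rfl⟩
    have h3 : (p : ℤ) ^ N * j = j * ((p ^ N : ℕ) : ℤ) := by
      push_cast
      ring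
    have h4 : (j : ℝ) * v (x 0) < s := by
      rw [val_rt hT.root hx0 N] at hi2
      push_cast at hi2
      have : (p : ℝ) ^ N ≠ 0 := (pow_pos hp0 _).ne'
      have h5 : (p : ℝ) ^ N * j * (v (x 0) / p ^ N) = j * v (x 0) := by field_simp
      rwa [h5] at hi2
    refine hi ?_
    rw [h3, Finsupp.sub_apply, lf_lift_apply (pow_pos hpn _), hint j h4, sub_self]
  refine ⟨hndv, fun l hl1 hl2 => ?_⟩
  have hfi : f i ≠ 0 := by
    intro h3
    refine hi ?_
    rw [Finsupp.sub_apply, h3, zero_sub, neg_eq_zero, Finsupp.mapDomain_of_notMem_range]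
    rintro ⟨j, rfl⟩
    exact hndv (Dvd.intro_left j (by push_cast; rfl))
  have hlN : l < N := by
    by_contra h3
    exact hndv ((pow_dvd_pow _ (not_lt.1 h3)).trans hl1)
  have h3 := letter_le h0 hc hT hx0 hv hw h2 hfi hl1 hl2 hlN
  exact (sub_le_sub_left (min_le_left ε ε₀) s).trans h3

omit [CharP k p] [CharP Ω p] [Field k] [Algebra k Ω] hp in
/-- Integral powers of near elements. -/
theorem ge_zpow_sub {z h : Ω} (hz : z ≠ 0) (hh : h ≠ 0) (hvh : v h = v z) {t : ℝ}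
    (ht : v.Ge t (h - z)) (A : ℤ) : v.Ge (t - v z + A * v z) (h ^ A - z ^ A) := by
  obtain ⟨n, hn | hn⟩ := A.eq_nat_or_neg
  · rw [hn, zpow_natCast, zpow_natCast]
    exact ge_pow_sub (v.ge_self z) ((v.ge_self h).mono hvh.ge) ht n
  · rw [hn, zpow_neg, zpow_neg, zpow_natCast, zpow_natCast]
    have hhn := pow_ne_zero n hh
    have hzn := pow_ne_zero n hz
    have e : (h ^ n)⁻¹ - (z ^ n)⁻¹ = -((h ^ n - z ^ n) * ((h ^ n)⁻¹ * (z ^ n)⁻¹)) := by
      field_simp
      ring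
    rw [e]
    have h1 := ge_pow_sub (v.ge_self z) ((v.ge_self h).mono hvh.ge) ht n
    have h2 : v ((h ^ n)⁻¹ * (z ^ n)⁻¹) = -(n * v z) + -(n * v z) := by
      rw [v.map_mul (inv_ne_zero hhn) (inv_ne_zero hzn), v.map_inv hhn, v.map_inv hzn,
        v.map_pow hh, v.map_pow hz, hvh]
    have h3 := (h1.mul (v.ge_self ((h ^ n)⁻¹ * (z ^ n)⁻¹))).neg
    rw [h2] at h3
    refine h3.mono (le_of_eq ?_)
    push_cast
    ring

/-- Approximation of Laurent polynomials by elements of `C`. -/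
theorem exists_near_lf (z : Ω) (f : ℤ →₀ k) {b : ℝ}
    (h : ∀ i, f i ≠ 0 → ∃ g ∈ C, v.Ge b (algebraMap k Ω (f i) * z ^ i - g)) :
    ∃ g ∈ C, v.Ge b (lf z f - g) := by
  classical
  have h1 : ∀ i, ∃ g ∈ C, v.Ge b (algebraMap k Ω (f i) * z ^ i - g) := fun i => by
    by_cases hi : f i = 0
    · refine ⟨0, C.zero_mem, ?_⟩
      rw [hi, map_zero, zero_mul, sub_zero]
      exact RVal.Ge.zero
    · exact h i hi
  choose g hg hg' using h1
  refine ⟨∑ i ∈ f.support, g i, sum_mem fun i _ => hg i, ?_⟩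
  rw [lf, Finsupp.sum, ← Finset.sum_sub_distrib]
  exact RVal.Ge.sum _ _ fun i _ => hg' i

theorem lf_pow_root [PerfectRing k p] {z z' : Ω} {m : ℕ} (hz : z' ^ p ^ m = z) (f : ℤ →₀ k) :
    ∃ f' : ℤ →₀ k, f'.support = f.support ∧ lf z' f' ^ p ^ m = lf z f := by
  classical
  set f' : ℤ →₀ k := Finsupp.mapRange (fun a => (iterateFrobeniusEquiv k p m).symm a)
    (map_zero _) f with hf'
  have hap : ∀ i, f' i ^ p ^ m = f i := fun i => by
    rw [hf', Finsupp.mapRange_apply]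
    have h1 := (iterateFrobeniusEquiv k p m).apply_symm_apply (f i)
    rwa [iterateFrobeniusEquiv_def] at h1
  have hsup : f'.support = f.support := by
    ext i
    rw [Finsupp.mem_support_iff, Finsupp.mem_support_iff, Ne, Ne, ← hap i, not_iff_not]
    refine ⟨fun h => by rw [h, zero_pow (pow_ne_zero m hp.out.ne_zero)],
      fun h => pow_eq_zero_iff (pow_ne_zero m hp.out.ne_zero) |>.1 h⟩
  refine ⟨f', hsup, ?_⟩
  rw [lf_eq_lau, lau_pow p, hz, lf_eq_lau, hsup]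
  congr 1
  funext i
  exact hap i

/-- All the roots of an element without integral letters are near to `C`. -/
theorem NoInt.lim [IsAlgClosed Ω] [PerfectRing k p] (h0 : Ctx0 k v) (hT : Tgt p v C x r)
    (hx0 : x 0 ≠ 0) {t : Ω} (h1 : NoInt p v k x r s t) {u : ℕ → Ω} (hu0 : u 0 = t)
    (hu : ∀ m, u (m + 1) ^ p = u m) (m : ℕ) : Lim v C (s / p ^ m) (u m) := by
  classical
  have hp0 : (0 : ℝ) < p := by exact_mod_cast hp.out.pos
  have hpn : 0 < p := hp.out.pos
  intro ε hε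
  have hpm : (0 : ℝ) < (p : ℝ) ^ m := pow_pos hp0 m
  obtain ⟨N, f, h2, h3⟩ := h1 (p ^ m * (ε / 2)) (by positivity)
  -- the root
  have hroot : x (N + m) ^ p ^ m = x N := root_pow_add hT.root N m
  obtain ⟨f', hsup, hf'⟩ := lf_pow_root hroot f
  have h4 : v.Ge (s / p ^ m - ε / 2) (u m - lf (x (N + m)) f') := by
    rw [← ge_pow_iff (N := p ^ m) (pow_pos hpn m), sub_pow_char_pow, hf']
    have h5 := root_pow_add hu 0 m
    rw [zero_add] at h5
    rw [h5, hu0]
    refine h2.mono (le_of_eq ?_)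
    push_cast
    field_simp
  suffices h5 : ∃ g ∈ C, v.Ge (s / p ^ m - ε) (lf (x (N + m)) f' - g) by
    obtain ⟨g, hg, h6⟩ := h5
    refine ⟨g, hg, ?_⟩
    have e : u m - g = (u m - lf (x (N + m)) f') + (lf (x (N + m)) f' - g) := by ring
    rw [e]
    exact (h4.mono (by linarith)).add h6
  refine exists_near_lf _ _ fun i hi => ?_
  have hzm : x (N + m) ≠ 0 := root_ne_zero hT.root hx0 _
  have hvm : v (x (N + m)) = v (x 0) / p ^ (N + m) := val_rt hT.root hx0 _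
  have hvN : v (x N) = v (x 0) / p ^ N := val_rt hT.root hx0 _
  have hpNm : (p : ℝ) ^ (N + m) = p ^ N * p ^ m := pow_add _ _ _
  have hpN : (0 : ℝ) < (p : ℝ) ^ N := pow_pos hp0 N
  have hfi : f i ≠ 0 := by
    rw [← Finsupp.mem_support_iff, ← hsup, Finsupp.mem_support_iff]
    exact hi
  -- letters of large value
  have hbig : s / p ^ m - ε ≤ (i : ℝ) * v (x (N + m)) → ∃ g ∈ C,
      v.Ge (s / p ^ m - ε) (algebraMap k Ω (f' i) * x (N + m) ^ i - g) := fun h => by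
    refine ⟨0, C.zero_mem, ?_⟩
    rw [sub_zero]
    exact (lau_term_ge h0 hzm _ i).mono h
  rcases le_or_gt s ((i : ℝ) * v (x N)) with hs | hs
  · refine hbig ?_
    have h5 : (i : ℝ) * v (x (N + m)) = i * v (x N) / p ^ m := by
      rw [hvm, hvN, hpNm]
      field_simp
    rw [h5]
    have h6 : s / p ^ m ≤ (i : ℝ) * v (x N) / p ^ m := (div_le_div_iff_of_pos_right hpm).2 hs
    linarith
  obtain ⟨hndv, h5⟩ := h3 i hfi hs
  -- the denominator
  obtain ⟨l, hl1, hl2⟩ : ∃ l : ℕ, (p ^ l : ℤ) ∣ i ∧ ¬ (p ^ (l + 1) : ℤ) ∣ i := by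
    by_contra hno
    push Not at hno
    have h6 : ∀ l : ℕ, (p ^ l : ℤ) ∣ i := fun l => by
      induction l with
      | zero => rw [pow_zero]; exact one_dvd i
      | succ l ih => exact hno l ih
    exact hndv (h6 N)
  have hlN : l < N := by
    by_contra h6
    exact hndv ((pow_dvd_pow _ (not_lt.1 h6)).trans hl1)
  have h6 := h5 l hl1 hl2
  obtain ⟨A, hA⟩ := hl1
  obtain ⟨M, hM⟩ := Nat.exists_eq_add_of_lt hlN
  -- `N = l + M + 1`
  set q := M + m with hq
  have hqe : q + 1 + l = N + m := by omega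
  have hxq : x (N + m) ^ i = x (q + 1) ^ A := by
    have h7 := root_pow_add hT.root (q + 1) l
    rw [hqe] at h7
    rw [hA, ← h7, zpow_mul, ← zpow_natCast]
    congr 2
  have hzq : x (q + 1) ≠ 0 := root_ne_zero hT.root hx0 _
  have hvq : v (x (q + 1)) = v (x 0) / p ^ (q + 1) := val_rt hT.root hx0 _
  have hpq : (p : ℝ) ^ N * p ^ m = p ^ (q + 1) * p ^ l := by
    rw [← pow_add, ← pow_add, hqe]
  have hpq0 : (0 : ℝ) < (p : ℝ) ^ (q + 1) := pow_pos hp0 _
  have hpl0 : (0 : ℝ) < (p : ℝ) ^ l := pow_pos hp0 _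
  have hAi : (A : ℝ) * v (x (q + 1)) = i * v (x N) / p ^ m := by
    have h7 : (i : ℝ) = p ^ l * A := by
      rw [hA]
      push_cast
      ring
    have h8 : (p : ℝ) ^ l * A * (v (x 0) / p ^ N) / p ^ m = p ^ l * A * v (x 0) / (p ^ N * p ^ m) := by
      field_simp
    rw [hvq, hvN, h7, h8, hpq]
    field_simp
  have hlow : s / p ^ m - ε / 2 ≤ A * v (x (q + 1)) + (r - v (x 0)) / p ^ (q + 1) := by
    have h7 : s - p ^ m * (ε / 2) ≤
        (A * v (x (q + 1)) + (r - v (x 0)) / p ^ (q + 1)) * p ^ m := by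
      refine h6.trans (le_of_eq ?_)
      rw [hAi]
      have h8 : (p : ℝ) ^ l * (r - v (x 0)) / p ^ N = (r - v (x 0)) / p ^ (q + 1) * p ^ m := by
        rw [div_mul_eq_mul_div, div_eq_div_iff hpN.ne' hpq0.ne']
        linear_combination (r - v (x 0)) * -hpq
      rw [h8, add_mul, div_mul_cancel₀ _ hpm.ne']
    rw [← mul_le_mul_iff_left₀ hpm, sub_mul, div_mul_cancel₀ _ hpm.ne']
    linarith
  rcases le_or_gt r (v (x 0)) with hr | hr
  · refine hbig ?_
    have h7 : (i : ℝ) * v (x (N + m)) = A * v (x (q + 1)) := by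
      rw [hAi, hvm, hvN, hpNm]
      field_simp
    rw [h7]
    have h8 : (r - v (x 0)) / p ^ (q + 1) ≤ 0 := div_nonpos_of_nonpos_of_nonneg (by linarith) hpq0.le
    linarith
  · -- replace the root by an element of `C`
    set δ := min (ε / 2) ((r - v (x 0)) / p ^ (q + 1) / 2) with hδ
    have hrv : 0 < (r - v (x 0)) / p ^ (q + 1) := div_pos (by linarith) hpq0
    have hδ0 : 0 < δ := lt_min (by linarith) (by linarith)
    obtain ⟨h, hh, h7⟩ := (hT.dst q).near δ hδ0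
    have hgt : v (x (q + 1)) < r / p ^ (q + 1) - δ := by
      have h8 : δ ≤ (r - v (x 0)) / p ^ (q + 1) / 2 := min_le_right _ _
      rw [sub_div] at h8 hrv
      rw [hvq]
      linarith
    have hgt' : Gt v (v (x (q + 1))) (x (q + 1) - h) := fun h8 => hgt.trans_le (h7 h8)
    obtain ⟨hne, hvh⟩ := hgt'.val_eq hzq
    have h8 : v.Ge (r / p ^ (q + 1) - δ) (h - x (q + 1)) := by
      have e : h - x (q + 1) = -(x (q + 1) - h) := by ring
      rw [e]
      exact h7.neg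
    have h9 := ge_zpow_sub hzq hne hvh h8 A
    refine ⟨algebraMap k Ω (f' i) * h ^ A, mul_mem (C.algebraMap_mem _) (zpow_mem hh A), ?_⟩
    rw [hxq]
    have e : algebraMap k Ω (f' i) * x (q + 1) ^ A - algebraMap k Ω (f' i) * h ^ A =
        -(algebraMap k Ω (f' i) * (h ^ A - x (q + 1) ^ A)) := by ring
    rw [e]
    have h10 := (RVal.Ge.mul (h0.ge (f' i)) h9).neg
    refine h10.mono ?_
    have h11 : δ ≤ ε / 2 := min_le_left _ _
    rw [sub_div] at hlow
    rw [hvq] at hlow ⊢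
    linarith

/-- **The second coordinate.** All the roots of `w' = w - n` are near to `C`. -/
theorem exists_pair [IsAlgClosed Ω] [PerfectRing k p] (h0 : Ctx0 k v) (hc : CompleteV v)
    (hT : Tgt p v C x r) (hx0 : x 0 ≠ 0) (hv : 0 < v (x 0)) {w : Ω} (hw : w ∈ C)
    (hlim : Lim v (EW v (⊥ : IntermediateField k Ω) x) s w) :
    ∃ n ∈ cadj v (⊥ : IntermediateField k Ω) (x 0), ∀ u : ℕ → Ω, u 0 = w - n →
      (∀ m, u (m + 1) ^ p = u m) → ∀ m, Lim v C (s / p ^ m) (u m) := by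
  obtain ⟨n, hn, h1⟩ := exists_int h0 hc hT hx0 hv hw hlim
  exact ⟨n, hn, fun u hu0 hu m => h1.lim h0 hT hx0 hu0 hu m⟩

omit [CharP k p] in
/-- The root of a transcendental limit is far from the closure of the field generated by it. -/
theorem not_root_ge [IsAlgClosed Ω] {A : IntermediateField k Ω} {w u : Ω} (hT : TL v A w s)
    (hu : u ∈ cadj v A w) : ¬ v.Ge s (u ^ p - w) := by
  intro h
  have hp0 : (0 : ℝ) < p := by exact_mod_cast hp.out.pos
  obtain ⟨f, hf, h1⟩ := hT.dense hu (s / p)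
  have hF : f ^ p - X ∈ PI A := _root_.sub_mem (pow_mem hf p) X_mem_PI
  have hd : derivative (f ^ p - X : Polynomial Ω) = -1 := by
    rw [derivative_sub, derivative_pow, derivative_X, CharP.cast_eq_zero Ω p, Polynomial.C_0,
      zero_mul, zero_mul, zero_sub]
  have hF0 : f ^ p - X ≠ 0 := by
    intro h0
    rw [h0, derivative_zero] at hd
    exact one_ne_zero (neg_eq_zero.1 hd.symm)
  have hco : (taylor w (f ^ p - X : Polynomial Ω)).coeff 1 = -1 := by
    rw [taylor_coeff_one, hd, eval_neg, eval_one]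
  have h2 := hT.strict (PI_mono (le_algc _) hF) hF0 le_rfl (by
    rw [hco]
    exact neg_ne_zero.2 one_ne_zero)
  rw [hco, v.map_neg 1 one_ne_zero, v.map_one, Nat.cast_one, one_mul] at h2
  have h3 : v.Ge s ((f ^ p - X : Polynomial Ω).eval w) := by
    rw [eval_sub, eval_pow, eval_X]
    have h4 : f.eval w ^ p - w = (u ^ p - w) - (u - f.eval w) ^ p := by
      rw [sub_pow_char]
      ring
    rw [h4]
    refine h.sub ((ge_pow h1 p).mono (le_of_eq ?_))
    rw [mul_div_cancel₀ _ hp0.ne']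
  have h5 := h3 (hT.eval_ne (PI_mono (le_algc _) hF) hF0)
  linarith

/-- **The tight pair of a tower of length one**: `C E_x = E_x(w)`, `w ∈ C` a transcendental limit
of `E_x` up to `s`. -/
theorem exists_pairT [IsAlgClosed Ω] [PerfectRing k p] (h0 : Ctx0 k v) (hc : CompleteV v)
    (hT : Tgt p v C x r) (hx0 : x 0 ≠ 0) (hv : 0 < v (x 0)) {w : Ω} (hw : w ∈ C)
    (hTL : TL v (EW v (⊥ : IntermediateField k Ω) x) w s)
    (hE : EW v C x = cadj v (EW v (⊥ : IntermediateField k Ω) x) w) :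
    ∃ u : ℕ → Ω, u 0 ∈ C ∧ (∀ m, u (m + 1) ^ p = u m) ∧
      w - u 0 ∈ cadj v (⊥ : IntermediateField k Ω) (x 0) ∧
      TL v (EW v (⊥ : IntermediateField k Ω) x) (u 0) s ∧
      EW v C x = cadj v (EW v (⊥ : IntermediateField k Ω) x) (u 0) ∧
      (∀ m, Lim v C (s / p ^ m) (u m)) ∧ ¬ Nr' v (EW v C x) (s / p) (u 1) := by
  have hp0 : (0 : ℝ) < p := by exact_mod_cast hp.out.pos
  obtain ⟨n, hn, h1⟩ := exists_pair h0 hc hT hx0 hv hw hTL.lim
  obtain ⟨u, hu0, hu⟩ := exists_rts p (w - n)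
  have hnC : n ∈ C := TWM.cadj_le hT.cld bot_le hT.mem hn
  have hnE : n ∈ EW v (⊥ : IntermediateField k Ω) x := EW.cadj_le 0 hn
  have hTL' : TL v (EW v (⊥ : IntermediateField k Ω) x) (u 0) s := by
    rw [hu0]
    exact hTL.sub_mem hnE
  have hE' : EW v C x = cadj v (EW v (⊥ : IntermediateField k Ω) x) (u 0) := by
    rw [hE, hu0, cadj_sub_mem hnE]
  refine ⟨u, by rw [hu0]; exact sub_mem hw hnC, hu, ?_, hTL', hE', h1 u hu0 hu, ?_⟩
  · rw [hu0, sub_sub_cancel]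
    exact hn
  · rintro ⟨a, ha, h2⟩
    rw [hE'] at ha
    refine not_root_ge hTL' ha ?_
    have e : a ^ p - u 0 = -(u 1 - a) ^ p := by
      have h3 := hu 0
      rw [zero_add] at h3
      rw [sub_pow_char, h3]
      ring
    rw [e]
    refine ((ge_pow h2.ge p).mono (le_of_eq ?_)).neg
    rw [mul_div_cancel₀ _ hp0.ne']

omit [CharP k p] [CharP Ω p] hp in
/-- The new coordinate generates the same field. -/
theorem gen_pairT {w n : Ω} (hn : n ∈ cadj v (⊥ : IntermediateField k Ω) (x 0)) :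
    cadj v (cadj v (⊥ : IntermediateField k Ω) (x 0)) (w - n) =
      cadj v (cadj v (⊥ : IntermediateField k Ω) (x 0)) w := cadj_sub_mem hn

end P

end Pool.Agent.TWC
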