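import Pool.Agent.Lib.TWC.Pair1
import Pool.Agent.Lib.TWC.LinDom

/-!
# TANK W, class C: no early drop (row I.r, any irrational level)

`x` tight of level `r` in `C`, `E = EW v ⊥ x`, `EW v C x = E<t>`, `r / v (x 0)` irrational.

* `NoInt.letter`: the letters of an element without integral letters, exactly;
* `exists_lead`: leading terms;
* `ned_step`: if `t ∈ C(x 1)`, then some `t' ∈ C` generates `EW v C x` over `E`, too;
* `ned`: the same if `t ∈ EW v C x`.
-/

set_option autoImplicit false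

open Polynomial

namespace Pool.Agent.TWC

open Pool.Agent.H15JM (RVal)
open Pool.Agent.LU1 (adj)
open Pool.Agent.D2 (Ctx0)
open Pool.Agent.D2P (clI mem_clI)
open Pool.Agent.TWM Pool.Agent.TWM.C

universe u

variable {k Ω : Type u} [Field k] [Field Ω] [Algebra k Ω] {v : RVal Ω}
  {C : IntermediateField k Ω}

section P

variable {p : ℕ} [hp : Fact p.Prime] [CharP k p] [CharP Ω p] {x : ℕ → Ω} {r s : ℝ}

/-- The letters of two approximations are the same. -/
theorem letter_eq (h0 : Ctx0 k v) (hr : ∀ n, x (n + 1) ^ p = x n) (hx0 : x 0 ≠ 0)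
    (hv : 0 < v (x 0)) {w : Ω} {N N' : ℕ} {f f' : ℤ →₀ k} {b : ℝ}
    (h : v.Ge b (w - lf (x N) f)) (h' : v.Ge b (w - lf (x N') f')) {i : ℤ} (hi : f i ≠ 0)
    (hib : (i : ℝ) * v (x N) < b) :
    ∃ i' : ℤ, i' * ((p ^ N : ℕ) : ℤ) = i * ((p ^ N' : ℕ) : ℤ) ∧ f' i' ≠ 0 := by
  have hp0 : (0 : ℝ) < p := by exact_mod_cast hp.out.pos
  have hpn : 0 < p := hp.out.pos
  have hM : x (N + N') ≠ 0 := root_ne_zero hr hx0 _
  have hvM : v (x (N + N')) = v (x 0) / p ^ (N + N') := val_rt hr hx0 _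
  have hvM0 : 0 < v (x (N + N')) := by
    rw [hvM]
    exact div_pos hv (pow_pos hp0 _)
  set g := (f.mapDomain fun j => j * ((p ^ N' : ℕ) : ℤ)) -
    (f'.mapDomain fun j => j * ((p ^ N : ℕ) : ℤ)) with hg
  have h1 : v.Ge b (lf (x (N + N')) g) := by
    rw [hg, lf_sub, ← lf_root hr N N']
    have e : lf (x N') f' = lf (x (N + N')) (f'.mapDomain fun j => j * ((p ^ N : ℕ) : ℤ)) := by
      rw [add_comm N N']
      exact lf_root hr N' N f'
    rw [← e]
    have e2 : lf (x N) f - lf (x N') f' = (w - lf (x N') f') - (w - lf (x N) f) := by ring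
    rw [e2]
    exact h'.sub h
  have h2 : g (i * ((p ^ N' : ℕ) : ℤ)) = 0 := by
    by_contra hne
    have h3 := le_of_lf_ge h0 hM hvM0 h1 hne
    rw [hvM] at h3
    rw [val_rt hr hx0 N] at hib
    push_cast at h3
    have h4 : (i : ℝ) * (p : ℝ) ^ N' * (v (x 0) / p ^ (N + N')) = i * (v (x 0) / p ^ N) := by
      have e1 : (p : ℝ) ^ N ≠ 0 := (pow_pos hp0 _).ne'
      have e2 : (p : ℝ) ^ N' ≠ 0 := (pow_pos hp0 _).ne'
      rw [pow_add]
      field_simp
    rw [h4] at h3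
    linarith
  rw [hg, Finsupp.sub_apply, lf_lift_apply (pow_pos hpn _), sub_eq_zero] at h2
  by_contra hno
  push Not at hno
  refine hi ?_
  rw [h2]
  by_cases h3 : ∃ i' : ℤ, i' * ((p ^ N : ℕ) : ℤ) = i * ((p ^ N' : ℕ) : ℤ)
  · obtain ⟨i', h4⟩ := h3
    rw [← h4, lf_lift_apply (pow_pos hpn _)]
    exact hno i' h4
  · rw [Finsupp.mapDomain_of_notMem_range]
    rintro ⟨i', h4⟩
    exact h3 ⟨i', h4⟩

omit [CharP k p] [CharP Ω p] [Field k] [Algebra k Ω] in
theorem exists_exact {i : ℤ} {N : ℕ} (h : ¬ (p ^ N : ℤ) ∣ i) :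
    ∃ l < N, ∃ m : ℤ, i = p ^ l * m ∧ ¬ (p : ℤ) ∣ m := by
  induction N generalizing i with
  | zero => exact absurd (by rw [pow_zero]; exact one_dvd i) h
  | succ N ih =>
    by_cases h1 : (p : ℤ) ∣ i
    · obtain ⟨j, rfl⟩ := h1
      have h2 : ¬ (p ^ N : ℤ) ∣ j := fun h3 => h (by
        rw [pow_succ']
        exact mul_dvd_mul_left _ h3)
      obtain ⟨l, hl, m, hm, hpm⟩ := ih h2
      exact ⟨l + 1, Nat.succ_lt_succ hl, m, by rw [hm, pow_succ']; ring, hpm⟩
    · exact ⟨0, Nat.succ_pos N, i, by rw [pow_zero, one_mul], h1⟩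

/-- The letters of an element without integral letters. -/
theorem NoInt.letter (h0 : Ctx0 k v) (hr : ∀ n, x (n + 1) ^ p = x n) (hx0 : x 0 ≠ 0)
    (hv : 0 < v (x 0)) {t : Ω} (h1 : NoInt p v k x r s t) {N : ℕ} {f : ℤ →₀ k} {b : ℝ}
    (h : v.Ge b (t - lf (x N) f)) (hbs : b ≤ s) {i : ℤ} (hi : f i ≠ 0)
    (hib : (i : ℝ) * v (x N) < b) :
    ∃ l < N, ∃ m : ℤ, i = p ^ l * m ∧ ¬ (p : ℤ) ∣ m ∧
      s ≤ (i : ℝ) * v (x N) + (r - v (x 0)) / p ^ (N - l) := by
  have hp0 : (0 : ℝ) < p := by exact_mod_cast hp.out.pos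
  have hpn : 0 < p := hp.out.pos
  have hpz : (p : ℤ) ≠ 0 := by exact_mod_cast hpn.ne'
  have hpp : Prime (p : ℤ) := Nat.prime_iff_prime_int.1 hp.out
  -- comparison with a finer approximation
  have key : ∀ ε : ℝ, 0 < ε → ε < s - (i : ℝ) * v (x N) → ∃ (N' : ℕ) (i' : ℤ),
      i' * ((p ^ N : ℕ) : ℤ) = i * ((p ^ N' : ℕ) : ℤ) ∧ ¬ (p ^ N' : ℤ) ∣ i' ∧
      ∀ l, (p ^ l : ℤ) ∣ i' → ¬ (p ^ (l + 1) : ℤ) ∣ i' →
        s - ε ≤ (i : ℝ) * v (x N) + p ^ l * (r - v (x 0)) / p ^ N' := by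
    intro ε hε hε'
    obtain ⟨N', f', h2, h3⟩ := h1 ε hε
    have hb' : (i : ℝ) * v (x N) < min b (s - ε) := lt_min hib (by linarith)
    obtain ⟨i', h4, h5⟩ := letter_eq h0 hr hx0 hv (h.mono (min_le_left b (s - ε)))
      (h2.mono (min_le_right b (s - ε))) hi hb'
    have h6 : (i' : ℝ) * v (x N') = (i : ℝ) * v (x N) := by
      have h7 : (i' : ℝ) * p ^ N = i * p ^ N' := by exact_mod_cast h4
      have e1 : (p : ℝ) ^ N ≠ 0 := (pow_pos hp0 _).ne'
      have e2 : (p : ℝ) ^ N' ≠ 0 := (pow_pos hp0 _).ne'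
      rw [val_rt hr hx0 N', val_rt hr hx0 N]
      field_simp
      linear_combination h7
    have h8 := h3 i' h5 (by rw [h6]; linarith)
    rw [h6] at h8
    exact ⟨N', i', h4, h8.1, h8.2⟩
  have hpos : 0 < s - (i : ℝ) * v (x N) := by linarith
  -- `i` is not integral
  have hndv : ¬ (p ^ N : ℤ) ∣ i := by
    rintro ⟨j, hj⟩
    obtain ⟨N', i', h4, h5, -⟩ := key ((s - (i : ℝ) * v (x N)) / 2) (by linarith) (by linarith)
    refine h5 ⟨j, ?_⟩
    have e1 : ((p ^ N : ℕ) : ℤ) ≠ 0 := by exact_mod_cast (pow_pos hpn N).ne'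
    refine mul_right_cancel₀ e1 ?_
    rw [h4, hj]
    push_cast
    ring
  obtain ⟨l, hl, m, hm, hpm⟩ := exists_exact hndv
  refine ⟨l, hl, m, hm, hpm, ?_⟩
  refine le_of_forall_pos_le_add fun ε hε => ?_
  set ε' := min ε ((s - (i : ℝ) * v (x N)) / 2) with hε'
  have hε'0 : 0 < ε' := lt_min hε (by linarith)
  obtain ⟨N', i', h4, h5, h6⟩ := key ε' hε'0
    (lt_of_le_of_lt (min_le_right ε _) (by linarith))
  -- `d = N - l`
  obtain ⟨d, hd⟩ := Nat.exists_eq_add_of_le hl.le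
  have hdl : N - l = d := by omega
  have h7 : i' * (p : ℤ) ^ d = m * (p : ℤ) ^ N' := by
    have e1 : (p : ℤ) ^ l ≠ 0 := pow_ne_zero l hpz
    refine mul_left_cancel₀ e1 ?_
    have h8 : i' * (p : ℤ) ^ N = i * (p : ℤ) ^ N' := by exact_mod_cast h4
    rw [hd, pow_add, hm] at h8
    linear_combination h8
  have hdN : d ≤ N' := by
    by_contra hno
    push Not at hno
    obtain ⟨c, hc⟩ := Nat.exists_eq_add_of_lt hno
    -- `d = N' + c + 1`
    have h8 : i' * (p : ℤ) ^ (c + 1) = m := by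
      have e1 : (p : ℤ) ^ N' ≠ 0 := pow_ne_zero N' hpz
      refine mul_right_cancel₀ e1 ?_
      rw [← h7, hc]
      ring
    exact hpm ⟨i' * (p : ℤ) ^ c, by rw [← h8]; ring⟩
  obtain ⟨l', hl'⟩ := Nat.exists_eq_add_of_le hdN
  have h9 : i' = p ^ l' * m := by
    have e1 : (p : ℤ) ^ d ≠ 0 := pow_ne_zero d hpz
    refine mul_right_cancel₀ e1 ?_
    rw [h7, hl', pow_add]
    ring
  have h10 := h6 l' ⟨m, h9⟩ (by
    rintro ⟨c, hc⟩
    rw [h9, pow_succ, mul_assoc] at hc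
    exact hpm ⟨c, mul_left_cancel₀ (pow_ne_zero l' hpz) hc⟩)
  have h11 : (p : ℝ) ^ l' * (r - v (x 0)) / p ^ N' = (r - v (x 0)) / p ^ (N - l) := by
    have e1 : (p : ℝ) ^ l' ≠ 0 := (pow_pos hp0 _).ne'
    have e2 : (p : ℝ) ^ d ≠ 0 := (pow_pos hp0 _).ne'
    rw [hdl, hl', pow_add]
    field_simp
  rw [h11] at h10
  have h12 : ε' ≤ ε := min_le_left _ _
  linarith

omit [CharP k p] in
/-- Leading terms. -/
theorem exists_lead (h0 : Ctx0 k v) (hr : ∀ n, x (n + 1) ^ p = x n) (hx0 : x 0 ≠ 0)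
    (hv : 0 < v (x 0)) {y : Ω} (hy : y ∈ EW v (⊥ : IntermediateField k Ω) x) (hy0 : y ≠ 0) :
    ∃ (N : ℕ) (i : ℤ) (a : k), a ≠ 0 ∧ Gt v (v y) (y - algebraMap k Ω a * x N ^ i) := by
  classical
  have hp0 : (0 : ℝ) < p := by exact_mod_cast hp.out.pos
  obtain ⟨N, g, hg, h2⟩ := exists_level p hr hy (v y + 1)
  have hxN : x N ≠ 0 := root_ne_zero hr hx0 N
  have hvN0 : 0 < v (x N) := by
    rw [val_rt hr hx0 N]
    exact div_pos hv (pow_pos hp0 N)
  obtain ⟨F, c, h3⟩ := exists_lau h0 hxN hvN0 hg (v y + 1)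
  obtain ⟨f, hf⟩ := lau_eq_lf (x N) F c
  rw [hf] at h3
  have h4 : v.Ge (v y + 1) (y - lf (x N) f) := by
    have e : y - lf (x N) f = (y - g) + (g - lf (x N) f) := by ring
    rw [e]
    exact h2.add h3
  have h5 : Gt v (v y) (y - lf (x N) f) := fun h6 => by
    have := h4 h6
    linarith
  obtain ⟨hl0, hlv⟩ := h5.val_eq hy0
  have hS : f.support.Nonempty := by
    by_contra hno
    rw [Finset.not_nonempty_iff_eq_empty, Finsupp.support_eq_empty] at hno
    refine hl0 ?_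
    rw [hno]
    exact Finsupp.sum_zero_index
  have hne : ∀ j ∈ f.support, algebraMap k Ω (f j) * x N ^ j ≠ 0 := fun j hj =>
    mul_ne_zero (by rw [Ne, map_eq_zero]; exact Finsupp.mem_support_iff.1 hj)
      (zpow_ne_zero _ hxN)
  have hval : ∀ j ∈ f.support, v (algebraMap k Ω (f j) * x N ^ j) = (j : ℝ) * v (x N) :=
    fun j hj => by
      have h6 : algebraMap k Ω (f j) ≠ 0 := by
        rw [Ne, map_eq_zero]
        exact Finsupp.mem_support_iff.1 hj
      rw [v.map_mul h6 (zpow_ne_zero _ hxN), h0.triv _ (Finsupp.mem_support_iff.1 hj),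
        v.map_zpow hxN, zero_add]
  have hinj : ∀ i ∈ f.support, ∀ j ∈ f.support, v (algebraMap k Ω (f i) * x N ^ i) =
      v (algebraMap k Ω (f j) * x N ^ j) → i = j := fun i hi j hj he => by
    rw [hval i hi, hval j hj] at he
    have := mul_right_cancel₀ hvN0.ne' he
    exact_mod_cast this
  obtain ⟨i, hi, h6, h7, h8⟩ := val_sum_distinct (v := v) f.support
    (fun j => algebraMap k Ω (f j) * x N ^ j) hne hinj hS
  refine ⟨N, i, f i, Finsupp.mem_support_iff.1 hi, ?_⟩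
  have hvi : v y = v (algebraMap k Ω (f i) * x N ^ i) := by
    rw [← hlv]
    exact h7
  have e : y - algebraMap k Ω (f i) * x N ^ i =
      (y - lf (x N) f) + ∑ j ∈ f.support.erase i, algebraMap k Ω (f j) * x N ^ j := by
    have e1 : lf (x N) f = algebraMap k Ω (f i) * x N ^ i +
        ∑ j ∈ f.support.erase i, algebraMap k Ω (f j) * x N ^ j := by
      rw [Finset.add_sum_erase _ (fun j => algebraMap k Ω (f j) * x N ^ j) hi]
      rfl
    rw [e1]
    ring
  rw [e]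
  refine h5.add (Gt.sum _ _ fun j hj _ => ?_)
  obtain ⟨hji, hj⟩ := Finset.mem_erase.1 hj
  rw [hvi]
  exact lt_of_le_of_ne (h8 j hj) fun h9 => hji (hinj i hi j hj h9).symm

/-! ### The field `EW v C x = E<t>` -/

/-- Leading terms in `E<t>`. -/
theorem exists_leadT [IsAlgClosed Ω] (h0 : Ctx0 k v) (hr : ∀ n, x (n + 1) ^ p = x n) (hx0 : x 0 ≠ 0)
    (hv : 0 < v (x 0)) {t : Ω} (hTL : TL v (EW v (⊥ : IntermediateField k Ω) x) t s) {y : Ω}
    (hy : y ∈ cadj v (EW v (⊥ : IntermediateField k Ω) x) t) (hy0 : y ≠ 0) :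
    ∃ (N : ℕ) (i : ℤ) (a : k), a ≠ 0 ∧ Gt v (v y) (y - algebraMap k Ω a * x N ^ i) := by
  obtain ⟨e, he, h1⟩ := hTL.imm.imm y hy hy0
  obtain ⟨he0, hev⟩ := h1.val_eq hy0
  obtain ⟨N, i, a, ha, h2⟩ := exists_lead h0 hr hx0 hv he he0
  refine ⟨N, i, a, ha, ?_⟩
  rw [hev] at h2
  have e1 : y - algebraMap k Ω a * x N ^ i = (y - e) + (e - algebraMap k Ω a * x N ^ i) := by ring
  rw [e1]
  exact h1.add h2

theorem val_lead (h0 : Ctx0 k v) (hr : ∀ n, x (n + 1) ^ p = x n) (hx0 : x 0 ≠ 0) {y : Ω}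
    (hy0 : y ≠ 0) {N : ℕ} {i : ℤ} {a : k} (ha : a ≠ 0)
    (h : Gt v (v y) (y - algebraMap k Ω a * x N ^ i)) : v y = (i : ℝ) * v (x N) := by
  have h1 := (h.val_eq hy0).2
  have h2 : algebraMap k Ω a ≠ 0 := by rwa [Ne, map_eq_zero]
  rw [← h1, v.map_mul h2 (zpow_ne_zero _ (root_ne_zero hr hx0 N)), h0.triv _ ha,
    v.map_zpow (root_ne_zero hr hx0 N), zero_add]

theorem val_ratT [IsAlgClosed Ω] (h0 : Ctx0 k v) (hr : ∀ n, x (n + 1) ^ p = x n) (hx0 : x 0 ≠ 0)
    (hv : 0 < v (x 0)) {t : Ω} (hTL : TL v (EW v (⊥ : IntermediateField k Ω) x) t s) {y : Ω}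
    (hy : y ∈ cadj v (EW v (⊥ : IntermediateField k Ω) x) t) (hy0 : y ≠ 0) :
    ∃ q : ℚ, v y = q * v (x 0) := by
  obtain ⟨N, i, a, ha, h1⟩ := exists_leadT h0 hr hx0 hv hTL hy hy0
  refine ⟨i / p ^ N, ?_⟩
  rw [val_lead h0 hr hx0 hy0 ha h1, val_rt hr hx0 N]
  push_cast
  ring

/-- Elements of `C` near to a monomial. -/
theorem near_zpow (hT : Tgt p v C x r) (hx0 : x 0 ≠ 0) (hr : v (x 0) < r) (q : ℕ) (A : ℤ) {δ : ℝ}
    (hδ : 0 < δ) : ∃ h ∈ C, h ≠ 0 ∧ v h = v (x q) ∧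
      v.Ge ((A : ℝ) * v (x q) + (r - v (x 0)) / p ^ q - δ) (h ^ A - x q ^ A) := by
  have hp0 : (0 : ℝ) < p := by exact_mod_cast hp.out.pos
  have hzq : x q ≠ 0 := root_ne_zero hT.root hx0 _
  cases q with
  | zero =>
    refine ⟨x 0, hT.mem, hx0, rfl, ?_⟩
    rw [sub_self]
    exact RVal.Ge.zero
  | succ q =>
    have hvq : v (x (q + 1)) = v (x 0) / p ^ (q + 1) := val_rt hT.root hx0 _
    have hpq0 : (0 : ℝ) < (p : ℝ) ^ (q + 1) := pow_pos hp0 _
    set δ' := min δ ((r - v (x 0)) / p ^ (q + 1) / 2) with hδ'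
    have hrv : 0 < (r - v (x 0)) / p ^ (q + 1) := div_pos (by linarith) hpq0
    have hδ0 : 0 < δ' := lt_min hδ (by linarith)
    obtain ⟨h, hh, h7⟩ := (hT.dst q).near δ' hδ0
    have hgt : v (x (q + 1)) < r / p ^ (q + 1) - δ' := by
      have h8 : δ' ≤ (r - v (x 0)) / p ^ (q + 1) / 2 := min_le_right _ _
      rw [sub_div] at h8 hrv
      rw [hvq]
      linarith
    have hgt' : Gt v (v (x (q + 1))) (x (q + 1) - h) := fun h8 => hgt.trans_le (h7 h8)
    obtain ⟨hne, hvh⟩ := hgt'.val_eq hzq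
    have h8 : v.Ge (r / p ^ (q + 1) - δ') (h - x (q + 1)) := by
      have e : h - x (q + 1) = -(x (q + 1) - h) := by ring
      rw [e]
      exact h7.neg
    refine ⟨h, hh, hne, hvh, (ge_zpow_sub hzq hne hvh h8 A).mono ?_⟩
    have h11 : δ' ≤ δ := min_le_left _ _
    rw [sub_div, hvq]
    linarith

theorem exists_gt_lf (z : Ω) (f : ℤ →₀ k) {b : ℝ}
    (h : ∀ i, f i ≠ 0 → ∃ g ∈ C, Gt v b (algebraMap k Ω (f i) * z ^ i - g)) :
    ∃ g ∈ C, Gt v b (lf z f - g) := by
  classical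
  have h1 : ∀ i, ∃ g ∈ C, Gt v b (algebraMap k Ω (f i) * z ^ i - g) := fun i => by
    by_cases hi : f i = 0
    · refine ⟨0, C.zero_mem, ?_⟩
      rw [hi, map_zero, zero_mul, sub_zero]
      exact Gt.zero
    · exact h i hi
  choose g hg hg' using h1
  refine ⟨∑ i ∈ f.support, g i, sum_mem fun i _ => hg i, ?_⟩
  rw [lf, Finsupp.sum, ← Finset.sum_sub_distrib]
  exact Gt.sum _ _ fun i _ => hg' i

/-- `x (n + 1)` over `C(x 1)`. -/
theorem Tgt.next [IsAlgClosed Ω] (hc : CompleteV v) (hT : Tgt p v C x r) :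
    Tgt p v (adj C (x 1)) (fun n => x (n + 1)) (r / p) where
  cld := cld_adj hc hT.cld (hT.snd.isAlg 1)
  mem := (D2P.mem_adj_self C _).1
  root := fun n => hT.root (n + 1)
  dst := fun n => by
    have hp0 : (0 : ℝ) < p := by exact_mod_cast hp.out.pos
    have e : r / (p : ℝ) / p ^ (n + 1) = r / p ^ (n + 1 + 1) := by
      rw [div_div, ← pow_succ']
    rw [e]
    refine ⟨?_, fun ε hε => ?_⟩
    · rintro ⟨a, ha, h1⟩
      refine hT.snd.far (n + 1) ⟨a, ?_, h1⟩
      refine (D2P.adj_le (D2P.mem_adj_self C _).2 ?_ : adj C (x 1) ≤ adj C (x (n + 1))) ha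
      have h2 := root_pow_add hT.root 1 n
      rw [add_comm 1 n] at h2
      rw [← h2]
      exact pow_mem (D2P.mem_adj_self C _).1 _
    · obtain ⟨a, ha, h1⟩ := (hT.dst (n + 1)).near ε hε
      exact ⟨a, (D2P.mem_adj_self C _).2 ha, h1⟩

/-- The first step: no integral letters. -/
theorem ned_prep [IsAlgClosed Ω] [PerfectRing k p] (h0 : Ctx0 k v) (hc : CompleteV v)
    (hT : Tgt p v C x r) (hx0 : x 0 ≠ 0) (hv : 0 < v (x 0))
    {t : Ω} (ht : t ∈ adj C (x 1)) (hTL : TL v (EW v (⊥ : IntermediateField k Ω) x) t s)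
    (hE : EW v C x = cadj v (EW v (⊥ : IntermediateField k Ω) x) t) :
    ∃ t₀ ∈ adj C (x 1), TL v (EW v (⊥ : IntermediateField k Ω) x) t₀ s ∧
      EW v C x = cadj v (EW v (⊥ : IntermediateField k Ω) x) t₀ ∧ Lim v C s t₀ ∧
      NoInt p v k (fun n => x (n + 1)) (r / p) s t₀ := by
  have hp0 : (0 : ℝ) < p := by exact_mod_cast hp.out.pos
  have hT' : Tgt p v (adj C (x 1)) (fun n => x (n + 1)) (r / p) := hT.next hc
  have hy0 : (fun n => x (n + 1)) 0 ≠ 0 := root_ne_zero hT.root hx0 1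
  have hvy : v (x 1) = v (x 0) / p := by
    have h1 := val_rt (v := v) hT.root hx0 1
    rwa [pow_one] at h1
  have hvy0 : 0 < v ((fun n => x (n + 1)) 0) := by
    change 0 < v (x 1)
    rw [hvy]
    exact div_pos hv hp0
  have hEy : EW v (⊥ : IntermediateField k Ω) (fun n => x (n + 1)) =
    EW v (⊥ : IntermediateField k Ω) x := EW.shift p hT.root
  obtain ⟨n, hn, hNI⟩ := exists_int h0 hc hT' hy0 hvy0 ht (s := s) (by rw [hEy]; exact hTL.lim)
  have hnM : n ∈ adj C (x 1) := TWM.cadj_le hT'.cld bot_le hT'.mem hn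
  have hnE : n ∈ EW v (⊥ : IntermediateField k Ω) x := by
    rw [← hEy]
    exact EW.cadj_le 0 hn
  refine ⟨t - n, sub_mem ht hnM, hTL.sub_mem hnE, ?_, ?_, hNI⟩
  · rw [hE, cadj_sub_mem hnE]
  · intro ε hε
    obtain ⟨u, hu0, hu⟩ := exists_rts p (t - n)
    obtain ⟨a, ha, h1⟩ := hNI.lim h0 hT' hy0 hu0 hu 1 (ε / p) (by positivity)
    refine ⟨a ^ p, ?_, ?_⟩
    · have h2 := pow_mem_of_adj (B := C) hT.root hT.mem 1 ha
      rwa [pow_one] at h2
    · have e : t - n - a ^ p = (u 1 - a) ^ p := by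
        have h3 := hu 0
        rw [zero_add] at h3
        rw [sub_pow_char, h3, hu0]
      rw [e]
      refine (ge_pow h1 p).mono (le_of_eq ?_)
      rw [pow_one]
      field_simp

/-- Rational level, irrational radius: the generator is near to `C`. -/
theorem ned_stepB [IsAlgClosed Ω] [PerfectRing k p] (h0 : Ctx0 k v) (hc : CompleteV v)
    (hT : Tgt p v C x r) (hx0 : x 0 ≠ 0) (hv : 0 < v (x 0)) (hrat : ∃ q : ℚ, r = q * v (x 0))
    (hsi : ∀ q : ℚ, s ≠ q * v (x 0))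
    {t : Ω} (ht : t ∈ adj C (x 1)) (hTL : TL v (EW v (⊥ : IntermediateField k Ω) x) t s)
    (hE : EW v C x = cadj v (EW v (⊥ : IntermediateField k Ω) x) t) :
    ∃ t' ∈ C, TL v (EW v (⊥ : IntermediateField k Ω) x) t' s ∧
      EW v C x = cadj v (EW v (⊥ : IntermediateField k Ω) x) t' := by
  classical
  have hp0 : (0 : ℝ) < p := by exact_mod_cast hp.out.pos
  obtain ⟨t₀, ht₀M, hTL₀, hE₀, hlimC, -⟩ := ned_prep h0 hc hT hx0 hv ht hTL hE
  have hCt : C ≤ cadj v (EW v (⊥ : IntermediateField k Ω) x) t₀ := hE₀ ▸ EW.le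
  have hx1t : x 1 ∈ cadj v (EW v (⊥ : IntermediateField k Ω) x) t₀ :=
    le_cadj _ _ _ (EW.mem 1)
  obtain ⟨q, hq⟩ := hrat
  -- it is enough that `t₀` is near to `C`
  suffices h1 : Nr' v C s t₀ by
    obtain ⟨a, ha, h2⟩ := h1
    have h3 : Gt v s (a - t₀) := h2.sub_comm'
    exact ⟨a, ha, hTL₀.congr h3, by rw [hE₀, hTL₀.cadj_congr (hCt ha) h3]⟩
  have hd0 : Dst v C (x 1) (r / p) := by
    have h1 := hT.dst 0
    rwa [zero_add, pow_one] at h1
  have hs : PStep p v C (x 1) (r / p) := ⟨hT.cld, by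
    have h1 := hT.root 0
    rw [zero_add] at h1
    rw [h1]
    exact hT.mem, hd0.far⟩
  by_cases hna : Nr v C (r / p) (x 1)
  · -- the distance of `x 1` is attained
    obtain ⟨a, ha, h1⟩ := hna
    obtain ⟨h2, h3⟩ := hd0.le ha
    have hva : v (x 1 - a) = r / p := le_antisymm h3 (h1 h2)
    have hao := AO.stepW p h0 hs ha (γ := 0) le_rfl (by rw [sub_zero]; exact h1)
    -- the expansion
    obtain ⟨P, hP, hdeg, hPe⟩ := exists_rep p (M := C) (u := x 1) (by
      have h4 := hT.root 0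
      rw [zero_add] at h4
      rw [h4]
      exact hT.mem) ht₀M
    set Q := taylor a P with hQ
    have hQm : Q ∈ PI C := taylor_mem_PI hP ha
    have hQd : Q.natDegree < p := by rw [hQ, natDegree_taylor]; exact hdeg
    have hQe : t₀ = ∑ j : Fin p, Q.coeff j * (x 1 - a) ^ (j : ℕ) := by
      have h4 : Q.eval (x 1 - a) = t₀ := by
        rw [hQ, taylor_eval, sub_add_cancel, hPe]
      rw [← h4, eval_eq_sum_range' hQd, ← Fin.sum_univ_eq_sum_range
        (fun j => Q.coeff j * (x 1 - a) ^ j) p]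
    have hp1 : (0 : ℕ) < p := hp.out.pos
    have hterm : ∀ j : Fin p, j ≠ ⟨0, hp1⟩ → Gt v s (Q.coeff j * (x 1 - a) ^ (j : ℕ)) := by
      intro j hj h4
      have h5 : s ≤ v (Q.coeff j * (x 1 - a) ^ (j : ℕ)) := by
        refine ge_of_eps (fun ε hε => ?_) h4
        obtain ⟨g, hg, h6⟩ := hlimC ε hε
        have h8 : ∑ i : Fin p, (if i = ⟨0, hp1⟩ then Q.coeff i - g else Q.coeff i) *
            (x 1 - a) ^ (i : ℕ) = t₀ - g := by
          have h9 : ∀ i : Fin p, (if i = ⟨0, hp1⟩ then Q.coeff i - g else Q.coeff i) *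
              (x 1 - a) ^ (i : ℕ) = Q.coeff i * (x 1 - a) ^ (i : ℕ) -
              (if i = ⟨0, hp1⟩ then g else 0) := by
            intro i
            split_ifs with h10
            · rw [h10]
              simp
            · rw [sub_zero]
          rw [Finset.sum_congr rfl fun i _ => h9 i, Finset.sum_sub_distrib, ← hQe,
            Finset.sum_ite_eq' Finset.univ, if_pos (Finset.mem_univ _)]
        have h7 := hao (fun i : Fin p => if i = ⟨0, hp1⟩ then Q.coeff i - g else Q.coeff i)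
          (fun i => by
            split_ifs
            · exact sub_mem (hQm _) hg
            · exact hQm _) (s - ε) (by
            rw [h8]
            exact h6) j
        simp only [if_neg hj] at h7
        rwa [mul_zero, sub_zero] at h7
      refine lt_of_le_of_ne h5 fun h6 => ?_
      have hQj : Q.coeff j ≠ 0 := left_ne_zero_of_mul h4
      obtain ⟨q', hq'⟩ := val_ratT h0 hT.root hx0 hv hTL₀ (hCt (hQm j)) hQj
      refine hsi (q' + j * (q / p)) ?_
      rw [h6, v.map_mul hQj (pow_ne_zero _ h2), v.map_pow h2, hva, hq', hq]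
      push_cast
      ring
    refine ⟨Q.coeff 0, hQm 0, ?_⟩
    have e : t₀ - Q.coeff 0 = ∑ j ∈ Finset.univ.erase (⟨0, hp1⟩ : Fin p),
        Q.coeff j * (x 1 - a) ^ (j : ℕ) := by
      rw [hQe, ← Finset.add_sum_erase _ _ (Finset.mem_univ (⟨0, hp1⟩ : Fin p))]
      simp
    rw [e]
    exact Gt.sum _ _ fun j hj => hterm j (Finset.mem_erase.1 hj).1
  · rcases lin_dom p h0 hs hd0.near hna ht₀M with h1 | ⟨g, hg, c, hcC, hc0, h1⟩
    · exact ⟨t₀, h1, by rw [sub_self]; exact Gt.zero⟩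
    have hdt := (lin_dst p hs hd0.near hna hg hcC hc0 h1).1
    rcases lt_trichotomy (v c + r / p) s with hlt | heq | hgt
    · exfalso
      obtain ⟨a, ha, h2⟩ := hlimC ((s - (v c + r / p)) / 2) (by linarith)
      exact hdt.far ⟨a, ha, fun h3 => by
        have := h2 h3
        linarith⟩
    · exfalso
      obtain ⟨q', hq'⟩ := val_ratT h0 hT.root hx0 hv hTL₀ (hCt hcC) hc0
      refine hsi (q' + q / p) ?_
      rw [← heq, hq', hq]
      push_cast
      ring
    · obtain ⟨a, ha, h2⟩ := hdt.near ((v c + r / p - s) / 2) (by linarith)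
      exact ⟨a, ha, fun h3 => by
        have := h2 h3
        linarith⟩

/-- **No early drop, one step.** -/
theorem ned_step [IsAlgClosed Ω] [PerfectRing k p] (h0 : Ctx0 k v) (hc : CompleteV v)
    (hT : Tgt p v C x r) (hx0 : x 0 ≠ 0) (hv : 0 < v (x 0)) (hirr : ∀ q : ℚ, r ≠ q * v (x 0))
    {t : Ω} (ht : t ∈ adj C (x 1)) (hTL : TL v (EW v (⊥ : IntermediateField k Ω) x) t s)
    (hE : EW v C x = cadj v (EW v (⊥ : IntermediateField k Ω) x) t) :
    ∃ t' ∈ C, ∃ s' : ℝ, TL v (EW v (⊥ : IntermediateField k Ω) x) t' s' ∧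
      EW v C x = cadj v (EW v (⊥ : IntermediateField k Ω) x) t' := by
  classical
  have hp0 : (0 : ℝ) < p := by exact_mod_cast hp.out.pos
  have hpn : 0 < p := hp.out.pos
  obtain ⟨t₀, ht₀M, hTL₀, hE₀, hlimC, hNI⟩ := ned_prep h0 hc hT hx0 hv ht hTL hE
  clear hTL hE ht
  rename' hE₀ => hE
  set E := EW v (⊥ : IntermediateField k Ω) x with hEdef
  -- the shifted sequence
  set y : ℕ → Ω := fun n => x (n + 1) with hy
  set M := adj C (x 1) with hM
  have hT' : Tgt p v M y (r / p) := hT.next hc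
  have hy0 : y 0 ≠ 0 := root_ne_zero hT.root hx0 1
  have hvy : v (y 0) = v (x 0) / p := by
    have h1 := val_rt (v := v) hT.root hx0 1
    rwa [pow_one] at h1
  have hvy0 : 0 < v (y 0) := by rw [hvy]; exact div_pos hv hp0
  have hEy : EW v (⊥ : IntermediateField k Ω) y = E := EW.shift p hT.root
  have hCE : C ≤ EW v C x := EW.le
  have hCt : C ≤ cadj v E t₀ := hE ▸ hCE
  have hxE : ∀ n, x n ∈ E := fun n => EW.mem n
  -- linear dominance
  have hd0 : Dst v C (x 1) (r / p) := by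
    have h1 := hT.dst 0
    rwa [zero_add, pow_one] at h1
  have hs : PStep p v C (x 1) (r / p) := ⟨hT.cld, by
    have h1 := hT.root 0
    rw [zero_add] at h1
    rw [h1]
    exact hT.mem, hd0.far⟩
  have hna : ¬ Nr v C (r / p) (x 1) := by
    rintro ⟨a, ha, h1⟩
    obtain ⟨h2, h3⟩ := hd0.le ha
    have h4 : v (x 1 - a) = r / p := le_antisymm h3 (h1 h2)
    obtain ⟨q, hq⟩ := val_ratT h0 hT.root hx0 hv hTL₀
      (sub_mem (le_cadj _ _ _ (hxE 1)) (hCt ha)) h2
    refine hirr (q * p) ?_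
    rw [hq] at h4
    push_cast
    field_simp at h4 ⊢
    linarith
  rcases lin_dom p h0 hs hd0.near hna ht₀M with h1 | ⟨g, hg, c, hcC, hc0, h1⟩
  · exact ⟨t₀, h1, s, hTL₀, hE⟩
  have hdt := (lin_dst p hs hd0.near hna hg hcC hc0 h1).1
  rcases lt_trichotomy (v c + r / p) s with hlt | heq | hgt
  · -- `t₀` is a limit of `C` up to `s`
    exfalso
    obtain ⟨a, ha, h2⟩ := hlimC ((s - (v c + r / p)) / 2) (by linarith)
    exact hdt.far ⟨a, ha, fun h3 => by
      have := h2 h3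
      linarith⟩
  · -- resonance
    set ρ := r / (p : ℝ) with hρ
    have hb : v (x 0) < r := by
      have h2 := hd0.le C.zero_mem
      rw [sub_zero] at h2
      have h3 : v (x 1) = v (x 0) / p := hvy
      have h4 : v (x 0) ≤ r := by
        have h5 := h2.2
        rw [h3, hρ, div_le_div_iff_of_pos_right hp0] at h5
        exact h5
      refine lt_of_le_of_ne h4 fun h5 => hirr 1 ?_
      rw [← h5]
      push_cast
      ring
    set b := ρ - v (y 0) with hbdef
    have hb0 : 0 < b := by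
      rw [hbdef, hρ, hvy, ← sub_div]
      exact div_pos (by linarith) hp0
    have hyroot : ∀ n, y (n + 1) ^ p = y n := fun n => hT.root (n + 1)
    have hyv : ∀ n, v (y n) = v (y 0) / p ^ n := fun n => val_rt hyroot hy0 n
    have hyne : ∀ n, y n ≠ 0 := fun n => root_ne_zero hyroot hy0 n
    have hbn : ∀ n, (r - v (x 0)) / p ^ (n + 1) = b / p ^ n := fun n => by
      rw [hbdef, hρ, hvy, pow_succ]
      field_simp
    -- the value of `c⁻¹`
    have hci0 : c⁻¹ ≠ 0 := inv_ne_zero hc0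
    have hciC : c⁻¹ ∈ C := inv_mem hcC
    obtain ⟨N, i, a₁, ha₁, hlead⟩ := exists_leadT (x := y) h0 hyroot hy0 hvy0
      (by rw [hEy]; exact hTL₀) (by rw [hEy]; exact hCt hciC) hci0
    have hvc : v c⁻¹ = (i : ℝ) * v (y N) := val_lead h0 hyroot hy0 hci0 ha₁ hlead
    have hvc' : v c = -((i : ℝ) * v (y N)) := by
      have h2 := v.map_inv hc0
      linarith
    have hpN : (0 : ℝ) < (p : ℝ) ^ N := pow_pos hp0 N
    have hbN : 0 < b / p ^ N := div_pos hb0 hpN
    -- the letters of `t₀`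
    obtain ⟨N₁, f₁, h2, -⟩ := hNI (b / p ^ N / 2) (by linarith)
    set P : ℤ → Prop := fun j => (j : ℝ) * v (y N₁) ≤ s - b / p ^ N with hP
    set f₂ := f₁.filter P with hf₂
    set f₃ := f₁.filter fun j => ¬ P j with hf₃
    have hf : f₁ = f₂ + f₃ := (Finsupp.filter_add_filter_not f₁ P).symm
    have hlet : ∀ j, f₂ j ≠ 0 → ∃ g ∈ C, Gt v s (algebraMap k Ω (f₂ j) * y N₁ ^ j - g) := by
      intro j hj
      have hPj : P j := by
        by_contra hno
        exact hj (Finsupp.filter_apply_neg P f₁ hno)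
      have hj1 : f₁ j ≠ 0 := by
        rwa [hf₂, Finsupp.filter_apply_pos P f₁ hPj] at hj
      have hPj' : (j : ℝ) * v (y N₁) ≤ s - b / p ^ N := hPj
      obtain ⟨l, hl, m, hm, hpm, h3⟩ := hNI.letter h0 hyroot hy0 hvy0 h2 (by linarith) hj1
        (by linarith)
      obtain ⟨d, hd⟩ := Nat.exists_eq_add_of_lt hl
      -- `N₁ = l + d + 1`
      have hdl : N₁ - l = d + 1 := by omega
      rw [hdl] at h3
      have hpd : (0 : ℝ) < (p : ℝ) ^ (d + 1) := pow_pos hp0 _
      -- the inequality is strict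
      have h4 : s < (j : ℝ) * v (y N₁) + b / p ^ (d + 1) := by
        refine lt_of_le_of_ne h3 fun h5 => ?_
        have hp1 : (1 : ℝ) < p := by exact_mod_cast hp.out.one_lt
        have hpd1 : (1 : ℝ) < (p : ℝ) ^ (d + 1) := one_lt_pow₀ hp1 (Nat.succ_ne_zero d)
        refine hirr (((j : ℚ) / p ^ N₁ + i / p ^ N - 1 / p ^ (d + 1)) * p ^ (d + 1) /
          (p ^ (d + 1) - 1)) ?_
        have h6 : (p : ℝ) ^ (d + 1) - 1 ≠ 0 := by linarith
        have hpN1 : (0 : ℝ) < (p : ℝ) ^ N₁ := pow_pos hp0 _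
        rw [← heq, hvc', hyv N, hyv N₁, hbdef, hρ, hvy] at h5
        push_cast
        field_simp at h5 ⊢
        linarith
      have hyj : y N₁ ^ j = x (d + 1 + 1) ^ m := by
        have h5 := root_pow_add hyroot (d + 1) l
        have h6 : d + 1 + l = N₁ := by omega
        rw [h6] at h5
        have h7 : x (d + 1 + 1) = y (d + 1) := rfl
        rw [h7, hm, ← h5, zpow_mul, ← zpow_natCast]
        congr 2
      obtain ⟨h, hh, hh0, hvh, h5⟩ := near_zpow hT hx0 hb (d + 1 + 1) m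
        (δ := ((j : ℝ) * v (y N₁) + b / p ^ (d + 1) - s) / 2) (by linarith)
      rw [hbn] at h5
      have h6 : (m : ℝ) * v (x (d + 1 + 1)) = (j : ℝ) * v (y N₁) := by
        have h7 : v (y N₁ ^ j) = v (x (d + 1 + 1) ^ m) := by rw [hyj]
        rw [v.map_zpow (hyne N₁), v.map_zpow (root_ne_zero hT.root hx0 _)] at h7
        exact h7.symm
      rw [h6] at h5
      refine ⟨algebraMap k Ω (f₂ j) * h ^ m, mul_mem (C.algebraMap_mem _) (zpow_mem hh m), ?_⟩
      rw [hyj]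
      have e : algebraMap k Ω (f₂ j) * x (d + 1 + 1) ^ m - algebraMap k Ω (f₂ j) * h ^ m =
          -(algebraMap k Ω (f₂ j) * (h ^ m - x (d + 1 + 1) ^ m)) := by ring
      rw [e]
      intro h8
      have h9 := (RVal.Ge.mul (h0.ge (f₂ j)) h5).neg h8
      linarith
    obtain ⟨G, hG, hG'⟩ := exists_gt_lf (y N₁) f₂ hlet
    set e₂ := lf (y N₁) f₂ with he₂
    have hyE : ∀ n, y n ∈ E := fun n => hxE (n + 1)
    have he₂E : e₂ ∈ E := lf_mem (hyE N₁) f₂
    -- the remaining part of `t₀`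
    have hT3 : Gt v (s - b / p ^ N) (t₀ - G) := by
      have e : t₀ - G = (t₀ - lf (y N₁) f₁) + (e₂ - G) + lf (y N₁) f₃ := by
        rw [hf, lf_add]
        ring
      rw [e]
      refine (Gt.add (fun h3 => ?_) (hG'.mono (by linarith))).add ?_
      · have := h2 h3
        linarith
      · refine Gt.sum _ _ fun j hj h3 => ?_
        have hj1 : f₃ j ≠ 0 := Finsupp.mem_support_iff.1 hj
        have hPj : ¬ P j := by
          intro hno
          exact hj1 (Finsupp.filter_apply_neg (fun j => ¬ P j) f₁ (not_not.2 hno))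
        have h4 := lau_term_ge h0 (hyne N₁) (f₃ j) j h3
        exact (not_le.1 hPj).trans_le h4
    obtain ⟨θ, hθ, hθ'⟩ : ∃ θ : ℝ, s - b / p ^ N < θ ∧ v.Ge θ (t₀ - G) := by
      by_cases h3 : t₀ - G = 0
      · exact ⟨s - b / p ^ N + 1, by linarith, by rw [h3]; exact RVal.Ge.zero⟩
      · exact ⟨v (t₀ - G), hT3 h3, v.ge_self _⟩
    -- the multiplier
    obtain ⟨h, hh, hh0, hvh, h3⟩ := near_zpow hT hx0 hb (N + 1) i
      (δ := (θ - (s - b / p ^ N)) / 2) (by linarith)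
    rw [hbn] at h3
    set e := y N ^ i with he
    have hve : v e = (i : ℝ) * v (y N) := v.map_zpow (hyne N) i
    have he0 : e ≠ 0 := zpow_ne_zero _ (hyne N)
    have heE : e ∈ E := zpow_mem (hyE N) i
    set u := h ^ i with hu
    have hu0 : u ≠ 0 := zpow_ne_zero _ hh0
    have huC : u ∈ C := zpow_mem hh i
    have hvu : v u = (i : ℝ) * v (y N) := by
      rw [hu, v.map_zpow hh0, hvh]
    have hxy : (i : ℝ) * v (x (N + 1)) = (i : ℝ) * v (y N) := rfl
    rw [hxy] at h3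
    have hρs : (i : ℝ) * v (y N) + s = ρ := by linarith
    -- the residue of `u c`
    have huc0 : u * c ≠ 0 := mul_ne_zero hu0 hc0
    have hvuc : v (u * c) = 0 := by rw [v.map_mul hu0 hc0, hvu, hvc']; ring
    obtain ⟨N₂, i₂, c₀, hc₀, h4⟩ := exists_leadT (x := y) h0 hyroot hy0 hvy0
      (by rw [hEy]; exact hTL₀) (by rw [hEy]; exact hCt (mul_mem huC hcC)) huc0
    have hi₂ : i₂ = 0 := by
      have h5 := val_lead h0 hyroot hy0 huc0 hc₀ h4
      rw [hvuc] at h5
      have h6 : v (y N₂) ≠ 0 := by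
        rw [hyv]
        exact (div_pos hvy0 (pow_pos hp0 _)).ne'
      rcases mul_eq_zero.1 h5.symm with h7 | h7
      · exact_mod_cast h7
      · exact absurd h7 h6
    rw [hi₂, zpow_zero, mul_one, hvuc] at h4
    set d₀ := algebraMap k Ω c₀ with hd₀
    obtain ⟨η, hη, hη'⟩ : ∃ η : ℝ, 0 < η ∧ v.Ge η (u * c - d₀) := by
      by_cases h5 : u * c - d₀ = 0
      · exact ⟨1, one_pos, by rw [h5]; exact RVal.Ge.zero⟩
      · exact ⟨v (u * c - d₀), h4 h5, v.ge_self _⟩
    obtain ⟨a, ha, h5⟩ := hd0.near (η / 2) (by linarith)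
    -- the new generator
    set t' := u * (g - G) + (u * c - d₀) * a with ht'
    have hd₀C : d₀ ∈ C := C.algebraMap_mem _
    have ht'C : t' ∈ C := add_mem (mul_mem huC (sub_mem hg hG))
      (mul_mem (sub_mem (mul_mem huC hcC) hd₀C) ha)
    have hmain : Gt v (v e + s) (t' - (e * t₀ + (-(e * e₂) - d₀ * x 1))) := by
      have e1 : t' - (e * t₀ + (-(e * e₂) - d₀ * x 1)) =
          -((t₀ - g - c * x 1) * u) + (-((u * c - d₀) * (x 1 - a)) + ((u - e) * (t₀ - G) +
            (e₂ - G) * e)) := by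
        rw [ht']
        ring
      rw [e1, hve, hρs]
      refine Gt.add ?_ (Gt.add ?_ (Gt.add ?_ ?_))
      · refine ((h1.mul_ge (v.ge_self u)).mono (le_of_eq ?_)).neg
        rw [hvu]
        linarith
      · refine Gt.neg fun h6 => ?_
        have h7 := RVal.Ge.mul hη' h5 h6
        linarith
      · intro h6
        have h7 := RVal.Ge.mul h3 hθ' h6
        linarith
      · refine (hG'.mul_ge (v.ge_self e)).mono (le_of_eq ?_)
        rw [hve]
        linarith
    have hfE : -(e * e₂) - d₀ * x 1 ∈ E :=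
      sub_mem (neg_mem (mul_mem heE he₂E)) (mul_mem (E.algebraMap_mem _) (hxE 1))
    obtain ⟨h6, h7⟩ := hTL₀.generator heE he0 hfE (hCt ht'C) hmain
    exact ⟨t', ht'C, _, h6, by rw [hE, h7]⟩
  · -- `t₀` is near to `C`
    obtain ⟨a, ha, h2⟩ := hdt.near ((v c + r / p - s) / 2) (by linarith)
    have h3 : Gt v s (a - t₀) := fun h4 => by
      have h5 : v.Ge (v c + r / p - (v c + r / p - s) / 2) (a - t₀) := by
        have e : a - t₀ = -(t₀ - a) := by ring
        rw [e]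
        exact h2.neg
      have := h5 h4
      linarith
    exact ⟨a, ha, s, hTL₀.congr h3, by rw [hE, hTL₀.cadj_congr (hCt ha) h3]⟩

/-- **No early drop**: `t` in some `C(x j)`. -/
theorem ned_level [IsAlgClosed Ω] [PerfectRing k p] (h0 : Ctx0 k v) (hc : CompleteV v) (j : ℕ) :
    ∀ {C : IntermediateField k Ω} {x : ℕ → Ω} {r : ℝ}, Tgt p v C x r → x 0 ≠ 0 → 0 < v (x 0) →
      (∀ q : ℚ, r ≠ q * v (x 0)) → ∀ {t : Ω} {s : ℝ}, t ∈ adj C (x j) →
      TL v (EW v (⊥ : IntermediateField k Ω) x) t s →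
      EW v C x = cadj v (EW v (⊥ : IntermediateField k Ω) x) t →
      ∃ t' ∈ C, ∃ s' : ℝ, TL v (EW v (⊥ : IntermediateField k Ω) x) t' s' ∧
        EW v C x = cadj v (EW v (⊥ : IntermediateField k Ω) x) t' := by
  have hp0 : (0 : ℝ) < p := by exact_mod_cast hp.out.pos
  induction j with
  | zero =>
    intro C x r hT hx0 hv hirr t s ht hTL hE
    exact ⟨t, D2P.adj_le le_rfl hT.mem ht, s, hTL, hE⟩
  | succ j ih =>
    intro C x r hT hx0 hv hirr t s ht hTL hE
    have hT' := hT.next hc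
    have hv1 : v (x 1) = v (x 0) / p := by
      have h1 := val_rt (v := v) hT.root hx0 1
      rwa [pow_one] at h1
    have hEy : EW v (⊥ : IntermediateField k Ω) (fun n => x (n + 1)) =
        EW v (⊥ : IntermediateField k Ω) x := EW.shift p hT.root
    have hEC : EW v (adj C (x 1)) (fun n => x (n + 1)) = EW v C x := by
      rw [EW.shift p hT.root]
      refine le_antisymm (clI_le' (sup_le (D2P.adj_le EW.le (EW.mem 1))
        (le_sup_right.trans (self_le_clI v _))) EW.cld) ?_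
      exact clI_mono' (sup_le_sup_right (D2P.mem_adj_self C _).2 _)
    have ht' : t ∈ adj (adj C (x 1)) (x (j + 1)) :=
      (D2P.adj_le ((D2P.mem_adj_self C _).2.trans (D2P.mem_adj_self _ _).2)
        (D2P.mem_adj_self _ _).1 : adj C (x (j + 1)) ≤ adj (adj C (x 1)) (x (j + 1))) ht
    obtain ⟨t₁, ht₁, s₁, hTL₁, hE₁⟩ := ih (x := fun n => x (n + 1)) hT'
      (root_ne_zero hT.root hx0 1)
      (by
        change 0 < v (x 1)
        rw [hv1]
        exact div_pos hv hp0)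
      (fun q h1 => hirr q (by
        change r / p = q * v (x 1) at h1
        rw [hv1] at h1
        field_simp at h1
        linarith))
      (t := t) (s := s) ht' (by rw [hEy]; exact hTL) (by rw [hEC, hEy]; exact hE)
    rw [hEy] at hTL₁ hE₁
    rw [hEC] at hE₁
    exact ned_step h0 hc hT hx0 hv hirr ht₁ hTL₁ hE₁

/-- The same, rational level and irrational radius. -/
theorem ned_levelB [IsAlgClosed Ω] [PerfectRing k p] (h0 : Ctx0 k v) (hc : CompleteV v) (j : ℕ) :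
    ∀ {C : IntermediateField k Ω} {x : ℕ → Ω} {r : ℝ}, Tgt p v C x r → x 0 ≠ 0 → 0 < v (x 0) →
      (∃ q : ℚ, r = q * v (x 0)) → ∀ {t : Ω} {s : ℝ}, (∀ q : ℚ, s ≠ q * v (x 0)) →
      t ∈ adj C (x j) → TL v (EW v (⊥ : IntermediateField k Ω) x) t s →
      EW v C x = cadj v (EW v (⊥ : IntermediateField k Ω) x) t →
      ∃ t' ∈ C, TL v (EW v (⊥ : IntermediateField k Ω) x) t' s ∧
        EW v C x = cadj v (EW v (⊥ : IntermediateField k Ω) x) t' := by
  have hp0 : (0 : ℝ) < p := by exact_mod_cast hp.out.pos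
  induction j with
  | zero =>
    intro C x r hT hx0 hv hrat t s hsi ht hTL hE
    exact ⟨t, D2P.adj_le le_rfl hT.mem ht, hTL, hE⟩
  | succ j ih =>
    intro C x r hT hx0 hv hrat t s hsi ht hTL hE
    have hT' := hT.next hc
    have hv1 : v (x 1) = v (x 0) / p := by
      have h1 := val_rt (v := v) hT.root hx0 1
      rwa [pow_one] at h1
    have hEy : EW v (⊥ : IntermediateField k Ω) (fun n => x (n + 1)) =
        EW v (⊥ : IntermediateField k Ω) x := EW.shift p hT.root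
    have hEC : EW v (adj C (x 1)) (fun n => x (n + 1)) = EW v C x := by
      rw [EW.shift p hT.root]
      refine le_antisymm (clI_le' (sup_le (D2P.adj_le EW.le (EW.mem 1))
        (le_sup_right.trans (self_le_clI v _))) EW.cld) ?_
      exact clI_mono' (sup_le_sup_right (D2P.mem_adj_self C _).2 _)
    have ht' : t ∈ adj (adj C (x 1)) (x (j + 1)) :=
      (D2P.adj_le ((D2P.mem_adj_self C _).2.trans (D2P.mem_adj_self _ _).2)
        (D2P.mem_adj_self _ _).1 : adj C (x (j + 1)) ≤ adj (adj C (x 1)) (x (j + 1))) ht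
    obtain ⟨q, hq⟩ := hrat
    obtain ⟨t₁, ht₁, hTL₁, hE₁⟩ := ih (x := fun n => x (n + 1)) hT'
      (root_ne_zero hT.root hx0 1)
      (by
        change 0 < v (x 1)
        rw [hv1]
        exact div_pos hv hp0)
      ⟨q, by
        change r / p = q * v (x 1)
        rw [hv1, hq]
        ring⟩
      (t := t) (s := s) (fun q' h1 => hsi (q' / p) (by
        change s = q' * v (x 1) at h1
        rw [h1, hv1]
        push_cast
        ring)) ht' (by rw [hEy]; exact hTL) (by rw [hEC, hEy]; exact hE)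
    rw [hEy] at hTL₁ hE₁
    rw [hEC] at hE₁
    exact ned_stepB h0 hc hT hx0 hv ⟨q, hq⟩ hsi ht₁ hTL₁ hE₁

/-- The elements of `C(x 0, x 1, ..)`. -/
theorem mem_sup_roots (hr : ∀ n, x (n + 1) ^ p = x n) {g : Ω}
    (hg : g ∈ C ⊔ IntermediateField.adjoin k (Set.range x)) : ∃ j, g ∈ adj C (x j) := by
  have hmono : ∀ n m, n ≤ m → adj C (x n) ≤ adj C (x m) := by
    intro n m hnm
    obtain ⟨d, rfl⟩ := Nat.exists_eq_add_of_le hnm
    refine D2P.adj_le (D2P.mem_adj_self C _).2 ?_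
    rw [← root_pow_add hr n d]
    exact pow_mem (D2P.mem_adj_self C _).1 _
  have h1 : C ⊔ IntermediateField.adjoin k (Set.range x) ≤ ⨆ n, adj C (x n) := by
    refine sup_le ((D2P.mem_adj_self C (x 0)).2.trans (le_iSup (fun n => adj C (x n)) 0)) ?_
    rw [IntermediateField.adjoin_le_iff]
    rintro _ ⟨n, rfl⟩
    exact (le_iSup (fun n => adj C (x n)) n) (D2P.mem_adj_self C _).1
  have h2 := h1 hg
  have hd : Directed (· ≤ ·) fun n => adj C (x n) := by
    intro a b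
    exact ⟨max a b, hmono a _ (le_max_left _ _), hmono b _ (le_max_right _ _)⟩
  rw [← SetLike.mem_coe, IntermediateField.coe_iSup_of_directed hd, Set.mem_iUnion] at h2
  exact h2

/-- **No early drop.** -/
theorem ned [IsAlgClosed Ω] [PerfectRing k p] (h0 : Ctx0 k v) (hc : CompleteV v)
    (hT : Tgt p v C x r) (hx0 : x 0 ≠ 0) (hv : 0 < v (x 0))
    {t : Ω} (hTL : TL v (EW v (⊥ : IntermediateField k Ω) x) t s)
    (hirr : (∀ q : ℚ, r ≠ q * v (x 0)) ∨ ∀ q : ℚ, s ≠ q * v (x 0))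
    (hE : EW v C x = cadj v (EW v (⊥ : IntermediateField k Ω) x) t) :
    ∃ t' ∈ C, ∃ s' : ℝ, TL v (EW v (⊥ : IntermediateField k Ω) x) t' s' ∧
      EW v C x = cadj v (EW v (⊥ : IntermediateField k Ω) x) t' := by
  have htE : t ∈ EW v C x := hE ▸ self_mem_cadj v _ t
  obtain ⟨g, hg, h1⟩ := mem_clI.1 htE (s + 1)
  obtain ⟨j, hj⟩ := mem_sup_roots hT.root hg
  have hgE : g ∈ cadj v (EW v (⊥ : IntermediateField k Ω) x) t := by
    rw [← hE]
    exact self_le_clI v _ hg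
  have h2 : Gt v s (g - t) := fun h3 => by
    have e : g - t = -(t - g) := by ring
    have h4 : v.Ge (s + 1) (g - t) := by
      rw [e]
      exact h1.neg
    have := h4 h3
    linarith
  have hTg := hTL.congr h2
  have hEg : EW v C x = cadj v (EW v (⊥ : IntermediateField k Ω) x) g := by
    rw [hTL.cadj_congr hgE h2]
    exact hE
  by_cases hrat : ∀ q : ℚ, r ≠ q * v (x 0)
  · exact ned_level h0 hc j hT hx0 hv hrat hj hTg hEg
  · have hsi := hirr.resolve_left hrat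
    push Not at hrat
    obtain ⟨t', ht', h3, h4⟩ := ned_levelB h0 hc j hT hx0 hv hrat hsi hj hTg hEg
    exact ⟨t', ht', s, h3, h4⟩

/-- **Tight pairs, irrational level or radius.** -/
theorem exists_pairI [IsAlgClosed Ω] [PerfectRing k p] (h0 : Ctx0 k v) (hc : CompleteV v)
    (hT : Tgt p v C x r) (hx0 : x 0 ≠ 0) (hv : 0 < v (x 0))
    {t : Ω} (hTL : TL v (EW v (⊥ : IntermediateField k Ω) x) t s)
    (hirr : (∀ q : ℚ, r ≠ q * v (x 0)) ∨ ∀ q : ℚ, s ≠ q * v (x 0))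
    (hE : EW v C x = cadj v (EW v (⊥ : IntermediateField k Ω) x) t) :
    ∃ (u : ℕ → Ω) (s' : ℝ), u 0 ∈ C ∧ (∀ m, u (m + 1) ^ p = u m) ∧
      TL v (EW v (⊥ : IntermediateField k Ω) x) (u 0) s' ∧
      EW v C x = cadj v (EW v (⊥ : IntermediateField k Ω) x) (u 0) ∧
      (∀ m, Lim v C (s' / p ^ m) (u m)) ∧ ¬ Nr' v (EW v C x) (s' / p) (u 1) := by
  obtain ⟨w, hw, s', hTL', hE'⟩ := ned h0 hc hT hx0 hv hTL hirr hE
  obtain ⟨u, h1, h2, -, h4, h5, h6, h7⟩ := exists_pairT h0 hc hT hx0 hv hw hTL' hE'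
  exact ⟨u, s', h1, h2, h4, h5, h6, h7⟩

end P

end Pool.Agent.TWC
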