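import Pool.Agent.Lib.TWC.DescF
import Pool.Agent.Lib.TWC.PairR
import Pool.Agent.Lib.TWC.TPx

/-!
# TANK W, class C: a tight pair generates

`x` tight in `C`, `C₁ ≤ C` closed, `x 0 ∈ C₁`.

* `Tgt.eq_of_ew`: if `C` is contained in the closure of `C₁(x 0, x 1, ..)`, then `C = C₁`;
* `GenX.eq_cp`: a generator in `C` of `C E_x` over `E_x` generates `C`: `C = cl k(x 0, w)`.
-/

set_option autoImplicit false

open Polynomial

namespace Pool.Agent.TWC

open Pool.Agent.H15JM (RVal)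
open Pool.Agent.LU1 (adj)
open Pool.Agent.D2 (Ctx0)
open Pool.Agent.D2P (clI mem_clI)
open Pool.Agent.TWM Pool.Agent.TWM.C

universe u

variable {k Ω : Type u} [Field k] [Field Ω] [Algebra k Ω] {v : RVal Ω}
  {C₀ C₁ : IntermediateField k Ω} {p : ℕ} [hp : Fact p.Prime] [CharP k p] [CharP Ω p]
  {x : ℕ → Ω} {r s : ℝ}

/-- **Closed subfields with the same closure of the roots.** -/
theorem Tgt.eq_of_ew [IsAlgClosed Ω] (h0 : Ctx0 k v) (hc : CompleteV v) (h : Tgt p v C₀ x r)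
    (hx0 : x 0 ≠ 0) (hvr : v (x 0) < r) (h1 : Cld v C₁) (h2 : C₁ ≤ C₀) (h3 : x 0 ∈ C₁)
    (h4 : C₀ ≤ EW v C₁ x) : C₀ = C₁ := by
  have hp0 : (0 : ℝ) < p := by exact_mod_cast hp.out.pos
  refine le_antisymm (fun a ha => h1 (mem_clI.2 fun b => ?_)) h2
  obtain ⟨z, ⟨n, P, hP, rfl⟩, h5⟩ := AX.dense h.root hp.out.pos h3 a (h4 ha) (b + (r - v (x 0)))
  obtain ⟨Q, hQ, hQd, hQe⟩ := exists_red h.root h3 n hP
  rw [← hQe] at h5
  have hpn : (0 : ℝ) < (p : ℝ) ^ n := pow_pos hp0 n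
  have hN := h.snd.nbx' p h0 hc (r := r) (by
    rw [pow_one, mul_div_cancel₀ _ hp0.ne'])
  have hR : C a - Q ∈ PI C₀ := sub_mem (C_mem_PI ha) (PI_mono h2 hQ)
  have hRe : v.Ge (b + (r - v (x 0))) ((C a - Q).eval (x n)) := by
    rw [eval_sub, eval_C]
    exact h5.2
  have hRd : (C a - Q).natDegree < p ^ n := by
    refine (natDegree_sub_le _ _).trans_lt (max_lt ?_ hQd)
    rw [natDegree_C]
    exact pow_pos hp.out.pos n
  refine ⟨Q.eval 0, ?_, ?_⟩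
  · rw [← coeff_zero_eq_eval_zero]
    exact hQ 0
  have e1 : a - Q.eval 0 = ∑ F ∈ Finset.range (p ^ n),
      (taylor (x n) (C a - Q)).coeff F * (-x n) ^ F := by
    have e2 : (taylor (x n) (C a - Q)).eval (-x n) = a - Q.eval 0 := by
      rw [taylor_eval, neg_add_cancel, eval_sub, eval_C]
    rw [← e2, eval_eq_sum_range' (by rwa [natDegree_taylor])]
  rw [e1]
  refine RVal.Ge.sum _ _ fun F hF => ?_
  have hF' := Finset.mem_range.1 hF
  have h6 := hN.nb n _ hR F hF' _ hRe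
  have h7 : v.Ge (F * (v (x 0) / p ^ n)) ((-x n) ^ F) := by
    have h8 : v.Ge (v (x 0) / p ^ n) (-x n) := by
      refine RVal.Ge.neg ?_
      rw [← val_rt h.root hx0 n]
      exact v.ge_self _
    exact ge_pow h8 F
  refine (h6.mul h7).mono ?_
  have h8 : (F : ℝ) / p ^ n ≤ 1 := by
    rw [div_le_one hpn]
    exact_mod_cast hF'.le
  have e3 : b + (r - v (x 0)) - F * r / p ^ n + F * (v (x 0) / p ^ n) =
      b + (r - v (x 0)) * (1 - F / p ^ n) := by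
    ring
  rw [e3]
  nlinarith [mul_nonneg (sub_nonneg.2 hvr.le) (sub_nonneg.2 h8)]

/-- **A generator in `C` generates `C`.** -/
theorem GenX.eq_cp [IsAlgClosed Ω] (h0 : Ctx0 k v) (hc : CompleteV v) (h : Tgt p v C₀ x r)
    (hx0 : x 0 ≠ 0) (hvr : v (x 0) < r) {w : Ω} (hw : w ∈ C₀) (hG : GenX v C₀ x w s) :
    C₀ = CP (k := k) v (x 0) w := by
  have h1 : CP (k := k) v (x 0) w ≤ C₀ :=
    TWM.cadj_le h.cld (TWM.cadj_le h.cld bot_le h.mem) hw
  have h2 : x 0 ∈ CP (k := k) v (x 0) w := le_cadj v _ w (self_mem_cadj v _ (x 0))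
  refine h.eq_of_ew h0 hc hx0 hvr (cld_cadj v _ w) h1 h2 ?_
  refine (EW.le : C₀ ≤ EW v C₀ x).trans ?_
  rw [hG.eq]
  refine TWM.cadj_le EW.cld (EW.mono bot_le x) (EW.le (self_mem_cadj v _ w))

end Pool.Agent.TWC
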