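import Pool.Agent.Lib.TWC.DescF

/-!
# TANK W, dimension 4: bounded theta, any number of drops (LEMMA B of note 3177)

`B` closed, `x 0 ∈ B`, `x (n + 1) ^ p = x n`, `e (n + 1)` the distance of `x (n + 1)` to `B(x n)`,
`d (n + 1) ≤` its distance to `B`.

* `RD`: these data; `RD.of_dst`: existence for `x 1 ∉ B`;
* `Wts`: superadditive weights with `e (n + 1) ≤ om (n + 1) 1` and
  `om n j + (e (n + 1) - d (n + 1)) ≤ om (n + 1) (p j)`;
* `RD.norm`: the jets of order `F < p ^ n` at `x n` have norm `≤ om n F`;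
* `RD.nbx`: they have norm `≤ F A / p ^ n`, `A` a constant.
-/

set_option autoImplicit false
set_option linter.unusedSectionVars false

open Polynomial

namespace Pool.Agent.TWC

open Pool.Agent.H15JM (RVal)
open Pool.Agent.LU1 (VPos adj)
open Pool.Agent.D2 (Ctx0)
open Pool.Agent.D2P (clI mem_clI rootF mem_rootF)
open Pool.Agent.TWM Pool.Agent.TWM.C

universe u

variable {k Ω : Type u} [Field k] [Field Ω] [Algebra k Ω] {v : RVal Ω}
  {B : IntermediateField k Ω} {x : ℕ → Ω}

/-! ### The norm on truncated polynomials -/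

section NG

variable {q : ℕ} {om : ℕ → ℝ} {b b' : ℝ} {P P' : Polynomial Ω}

/-- The coefficients of order `F < q` are `≥ b - om F`. -/
def NG (v : RVal Ω) (q : ℕ) (om : ℕ → ℝ) (b : ℝ) (P : Polynomial Ω) : Prop :=
  ∀ F < q, v.Ge (b - om F) (P.coeff F)

theorem NG.mul (ho : ∀ i j, om i + om j ≤ om (i + j)) (h : NG v q om b P)
    (h' : NG v q om b' P') : NG v q om (b + b') (P * P') := by
  intro F hF
  rw [coeff_mul]
  refine RVal.Ge.sum _ _ fun ij hij => ?_
  have h1 := Finset.HasAntidiagonal.mem_antidiagonal.1 hij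
  refine ((h ij.1 (by omega)).mul (h' ij.2 (by omega))).mono ?_
  have h2 := ho ij.1 ij.2
  rw [h1] at h2
  linarith

theorem NG.pow (ho : ∀ i j, om i + om j ≤ om (i + j)) (h0 : om 0 = 0) (h : NG v q om b P)
    (a : ℕ) : NG v q om (a * b) (P ^ a) := by
  induction a with
  | zero =>
    intro F _
    rw [pow_zero, coeff_one, Nat.cast_zero, zero_mul, zero_sub]
    split_ifs with h1
    · subst h1
      rw [h0, neg_zero]
      intro _
      rw [v.map_one]
    · exact RVal.Ge.zero
  | succ a ih =>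
    rw [pow_succ]
    have h1 := NG.mul ho ih h
    have h2 : (a : ℝ) * b + b = ((a + 1 : ℕ) : ℝ) * b := by
      push_cast
      ring
    rwa [h2] at h1

theorem NG.sum {ι : Type*} (S : Finset ι) {f : ι → Polynomial Ω}
    (h : ∀ i ∈ S, NG v q om b (f i)) : NG v q om b (∑ i ∈ S, f i) := by
  intro F hF
  rw [finsetSum_coeff]
  exact RVal.Ge.sum _ _ fun i hi => h i hi F hF

theorem NG.mono (h : NG v q om b P) (hb : b' ≤ b) : NG v q om b' P := fun F hF =>
  (h F hF).mono (by linarith)

end NG

/-! ### Digits relative to a polynomial in `X ^ p` -/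

/-- `P = ∑ Q_a(X ^ p) (X - R(X ^ p)) ^ a`. -/
theorem exists_digitsR (p : ℕ) [hp : Fact p.Prime] {P R : Polynomial Ω} (hP : P ∈ PI B)
    (hR : R ∈ PI B) : ∃ Q : ℕ → Polynomial Ω, (∀ a, Q a ∈ PI B) ∧
      P = ∑ a ∈ Finset.range p, expand Ω p (Q a) * (X - expand Ω p R) ^ a := by
  classical
  obtain ⟨Q, hQ, h1⟩ := exists_digits p hP (zero_mem B)
  refine ⟨fun a => ∑ i ∈ Finset.range p, C ((i.choose a : ℕ) : Ω) * (Q i * R ^ (i - a)),
    fun a => sum_mem fun i _ => mul_mem (C_mem_PI (natCast_mem _ _)) (mul_mem (hQ i)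
      (pow_mem hR _)), ?_⟩
  have h2 : ∀ i ∈ Finset.range p, expand Ω p (Q i) * (X - C 0) ^ i =
      ∑ a ∈ Finset.range p, expand Ω p (C ((i.choose a : ℕ) : Ω) * (Q i * R ^ (i - a))) *
        (X - expand Ω p R) ^ a := by
    intro i hi
    have h3 : (X - C 0 : Polynomial Ω) ^ i = ((X - expand Ω p R) + expand Ω p R) ^ i := by
      rw [C_0, sub_zero, sub_add_cancel]
    have h4 : Finset.range (i + 1) ⊆ Finset.range p :=
      Finset.range_subset_range.2 (Finset.mem_range.1 hi)
    rw [h3, add_pow, Finset.mul_sum, Finset.sum_subset h4 fun a _ ha => ?_]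
    · refine Finset.sum_congr rfl fun a _ => ?_
      rw [map_mul, map_mul, map_pow, expand_C, C_eq_natCast]
      ring
    · rw [Finset.mem_range, not_lt] at ha
      rw [Nat.choose_eq_zero_of_lt (by omega), Nat.cast_zero, mul_zero, mul_zero]
  conv_lhs => rw [h1]
  rw [Finset.sum_congr rfl h2, Finset.sum_comm]
  refine Finset.sum_congr rfl fun a _ => ?_
  rw [map_sum, Finset.sum_mul]

/-! ### The data -/

/-- The roots of `x` and the distances. -/
structure RD (p : ℕ) (v : RVal Ω) (B : IntermediateField k Ω) (x : ℕ → Ω) (e d : ℕ → ℝ) :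
    Prop where
  cld : Cld v B
  mem : x 0 ∈ B
  root : ∀ n, x (n + 1) ^ p = x n
  far : ∀ n, ¬ Nr' v (adj B (x n)) (e (n + 1)) (x (n + 1))
  near : ∀ n (ε : ℝ), 0 < ε → ∃ g ∈ adj B (x n), v.Ge (e (n + 1) - ε) (x (n + 1) - g)
  low : ∀ n (ε : ℝ), 0 < ε → ∃ c ∈ B, v.Ge (d (n + 1) - ε) (x (n + 1) - c)

/-- The weights. -/
structure Wts (p : ℕ) (e d : ℕ → ℝ) (om : ℕ → ℕ → ℝ) : Prop where
  zero : ∀ n, om n 0 = 0
  add : ∀ n i j, om n i + om n j ≤ om n (i + j)
  one : ∀ n, e (n + 1) ≤ om (n + 1) 1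
  up : ∀ n j, 1 ≤ j → om n j ≤ om (n + 1) (p * j)
  drop : ∀ n j, 1 ≤ j → om n j + (e (n + 1) - d (n + 1)) ≤ om (n + 1) (p * j)

namespace RD

variable {p : ℕ} [hp : Fact p.Prime] {e d : ℕ → ℝ} {om : ℕ → ℕ → ℝ}

theorem isAlg (h : RD p v B x e d) (n : ℕ) : IsAlgebraic B (x n) := by
  have h1 : x n ^ p ^ n = x 0 := by
    have := root_pow_add h.root 0 n
    rwa [zero_add] at this
  refine IsAlgebraic.of_pow (pow_pos hp.out.pos n) ?_
  rw [h1]
  exact isAlgebraic_algebraMap (R := B) (⟨_, h.mem⟩ : B)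

theorem pstep (hc : CompleteV v) (h : RD p v B x e d) (n : ℕ) :
    PStep p v (adj B (x n)) (x (n + 1)) (e (n + 1)) :=
  ⟨cld_adj hc h.cld (h.isAlg n), by rw [h.root]; exact (D2P.mem_adj_self B _).1, h.far n⟩

theorem dist_le (h : RD p v B x e d) {n : ℕ} {g : Ω} (hg : g ∈ adj B (x n)) :
    x (n + 1) - g ≠ 0 ∧ v (x (n + 1) - g) ≤ e (n + 1) := by
  by_contra hno
  refine h.far n ⟨g, hg, fun h0 => ?_⟩
  by_contra h1
  exact hno ⟨h0, not_lt.1 h1⟩

variable [CharP k p] [CharP Ω p] [IsAlgClosed Ω]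

/-- **The norm of the jets.** -/
theorem norm (h0 : Ctx0 k v) (hc : CompleteV v) (h : RD p v B x e d) (hw : Wts p e d om)
    (n : ℕ) : ∀ P : Polynomial Ω, P ∈ PI B → ∀ b : ℝ, v.Ge b (P.eval (x n)) →
      NG v (p ^ n) (om n) b (taylor (x n) P) := by
  have hp0 : (0 : ℝ) < p := by exact_mod_cast hp.out.pos
  have hp1 : (1 : ℝ) ≤ p := by exact_mod_cast hp.out.one_lt.le
  induction n with
  | zero =>
    intro P _ b hb F hF
    rw [pow_zero, Nat.lt_one_iff] at hF
    subst hF
    rw [taylor_coeff_zero, hw.zero, sub_zero]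
    exact hb
  | succ n ih =>
    intro P hP b hb F hF
    refine ge_of_eps fun ε hε => ?_
    -- `g` near `x (n + 1)` in `B(x n)`
    set γ : ℝ := ε / (3 * p) with hγ
    have hγ0 : 0 < γ := by positivity
    have hpγ : (p : ℝ) * γ = ε / 3 := by rw [hγ]; field_simp
    obtain ⟨g, hg, h1⟩ := h.near n γ hγ0
    obtain ⟨h2, h3⟩ := h.dist_le hg
    obtain ⟨R, hR, hRg⟩ := exists_poly_adj h.root h.mem n hg
    obtain ⟨c, hcB, hcl⟩ := h.low n γ hγ0
    obtain ⟨Q, hQ, hPQ⟩ := exists_digitsR p hP hR
    have hao := AO.stepW p h0 (h.pstep hc n) hg hγ0.le h1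
    have hQm : ∀ a, (Q a).eval (x n) ∈ adj B (x n) := fun a =>
      eval_mem (PI_mono (D2P.mem_adj_self B (x n)).2 (hQ a)) (D2P.mem_adj_self B (x n)).1
    have hev : P.eval (x (n + 1)) = ∑ a : Fin p, (Q a).eval (x n) *
        (x (n + 1) - g) ^ (a : ℕ) := by
      rw [hPQ, eval_finsetSum, Finset.sum_range]
      refine Finset.sum_congr rfl fun a _ => ?_
      rw [eval_mul, expand_eval, eval_pow, eval_sub, eval_X, expand_eval, h.root, hRg]
    rw [hev] at hb
    have h4 := hao (fun a => (Q a).eval (x n)) (fun a => hQm a) b hb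
    -- the polynomial `X - R(X ^ p)`
    set U : Polynomial Ω := taylor (x (n + 1)) (X - expand Ω p R) with hU
    have hU1 : NG v (p ^ (n + 1)) (om (n + 1)) (v (x (n + 1) - g) - 2 * γ) U := by
      intro F hF
      have e1 : U = X + C (x (n + 1)) - expand Ω p (taylor (x n) R) := by
        rw [hU, map_sub, taylor_X, taylor_expand, h.root]
      rw [e1, coeff_sub, coeff_add, coeff_X, coeff_C, coeff_expand hp.out.pos]
      rcases Nat.eq_zero_or_pos F with rfl | hF0
      · rw [if_neg one_ne_zero, if_pos rfl, if_pos (dvd_zero p), Nat.zero_div, zero_add,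
          taylor_coeff_zero, hRg, hw.zero]
        exact (RVal.ge_self _).mono (by linarith)
      · rw [if_neg hF0.ne', add_zero]
        by_cases hpF : p ∣ F
        · obtain ⟨j, rfl⟩ := hpF
          have hj : 1 ≤ j := by
            rcases Nat.eq_zero_or_pos j with rfl | hj
            · simp at hF0
            · exact hj
          have hpj : ¬ 1 = p * j := by
            intro h5
            have := hp.out.one_lt
            have h6 : p ∣ 1 := ⟨j, h5⟩
            exact absurd (Nat.le_of_dvd one_pos h6) (by omega)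
          rw [if_neg hpj, if_pos (dvd_mul_right _ _), Nat.mul_div_cancel_left _ hp.out.pos,
            zero_sub]
          refine RVal.Ge.neg ?_
          -- the jets of `R - c`
          have hjn : j < p ^ n := by
            rw [pow_succ'] at hF
            exact Nat.lt_of_mul_lt_mul_left hF
          have h5 : v.Ge (min (v (x (n + 1) - g)) (d (n + 1) - γ)) ((R - C c).eval (x n)) := by
            have h6 : (R - C c).eval (x n) = (x (n + 1) - c) - (x (n + 1) - g) := by
              rw [eval_sub, eval_C, hRg]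
              ring
            rw [h6]
            exact (hcl.mono (min_le_right _ _)).sub ((RVal.ge_self _).mono (min_le_left _ _))
          have h6 := ih (R - C c) (sub_mem hR (C_mem_PI hcB)) _ h5 j hjn
          rw [map_sub, taylor_C, coeff_sub, coeff_C, if_neg (by omega), sub_zero] at h6
          refine h6.mono ?_
          have h7 := hw.up n j hj
          have h8 := hw.drop n j hj
          rcases le_total (v (x (n + 1) - g)) (d (n + 1) - γ) with h9 | h9
          · rw [min_eq_left h9]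
            linarith
          · rw [min_eq_right h9]
            linarith
        · rw [if_neg hpF, sub_zero]
          split_ifs with h5
          · subst h5
            intro _
            rw [v.map_one]
            have := hw.one n
            linarith
          · exact RVal.Ge.zero
    -- the terms
    have e2 : taylor (x (n + 1)) P = ∑ a ∈ Finset.range p,
        expand Ω p (taylor (x n) (Q a)) * U ^ a := by
      rw [hPQ, map_sum]
      refine Finset.sum_congr rfl fun a _ => ?_
      rw [taylor_mul, taylor_expand, h.root, taylor_pow]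
    have h5 : NG v (p ^ (n + 1)) (om (n + 1)) (b - ε) (taylor (x (n + 1)) P) := by
      rw [e2]
      refine NG.sum _ fun a ha => ?_
      have ha' := Finset.mem_range.1 ha
      have h6 : v.Ge (b - p * γ - a * v (x (n + 1) - g)) ((Q a).eval (x n)) := by
        intro h7
        have h8 := h4 ⟨a, ha'⟩ (mul_ne_zero h7 (pow_ne_zero _ h2))
        rw [v.map_mul h7 (pow_ne_zero _ h2), v.map_pow h2] at h8
        simp only at h8
        linarith
      have h7 : NG v (p ^ (n + 1)) (om (n + 1)) (b - p * γ - a * v (x (n + 1) - g))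
          (expand Ω p (taylor (x n) (Q a))) := by
        intro F hF
        rw [coeff_expand hp.out.pos]
        split_ifs with hpF
        · obtain ⟨j, rfl⟩ := hpF
          rw [Nat.mul_div_cancel_left _ hp.out.pos]
          have hjn : j < p ^ n := by
            rw [pow_succ'] at hF
            exact Nat.lt_of_mul_lt_mul_left hF
          refine (ih (Q a) (hQ a) _ h6 j hjn).mono ?_
          rcases Nat.eq_zero_or_pos j with rfl | hj
          · rw [mul_zero, hw.zero, hw.zero]
          · have := hw.up n j hj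
            linarith
        · exact RVal.Ge.zero
      refine (NG.mul (hw.add (n + 1)) h7 (NG.pow (hw.add (n + 1)) (hw.zero _) hU1 a)).mono ?_
      have h8 : (a : ℝ) ≤ p := by exact_mod_cast ha'.le
      have h9 : (a : ℝ) * (2 * γ) ≤ p * (2 * γ) := mul_le_mul_of_nonneg_right h8 (by positivity)
      have h10 : (p : ℝ) * (2 * γ) = 2 * (ε / 3) := by rw [← hpγ]; ring
      rw [hpγ]
      linarith
    refine (h5 F hF).mono (by linarith)

/-- **Bounded theta**: if `e n ≤ r / p ^ n` and `d n ≥ δ / p ^ n`, the jets have norm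
`≤ (F / p ^ n) (r + (r - δ) / (p - 1))`. -/
theorem nbx (h0 : Ctx0 k v) (hc : CompleteV v) (h : RD p v B x e d) {r δ : ℝ}
    (he : ∀ n, e (n + 1) ≤ r / p ^ (n + 1)) (hd : ∀ n, δ / p ^ (n + 1) ≤ d (n + 1))
    (hδ : δ ≤ r) : NBX p v B x fun n F => F * (r + (r - δ) / (p - 1)) / p ^ n := by
  have hp0 : (0 : ℝ) < p := by exact_mod_cast hp.out.pos
  have hp1 : (0 : ℝ) < (p : ℝ) - 1 := by
    have : (1 : ℝ) < p := by exact_mod_cast hp.out.one_lt
    linarith
  set s : ℝ := r - δ with hs
  have hs0 : 0 ≤ s := by linarith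
  set A : ℝ := r + s / (p - 1) with hA
  set om : ℕ → ℕ → ℝ := fun n F => if F = 0 then 0 else F * A / p ^ n - s / (p - 1) / p ^ n
    with hom
  have hsp : 0 ≤ s / (p - 1) := div_nonneg hs0 hp1.le
  have hincr : ∀ n : ℕ, s / (p - 1) / p ^ n - s / (p - 1) / p ^ (n + 1) = s / p ^ (n + 1) := by
    intro n
    rw [pow_succ]
    field_simp
  have hlift : ∀ n j : ℕ, ((p * j : ℕ) : ℝ) * A / p ^ (n + 1) = j * A / p ^ n := by
    intro n j
    push_cast
    rw [pow_succ]
    field_simp
  have hw : Wts p e d om := by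
    refine ⟨fun n => by simp [hom], fun n i j => ?_, fun n => ?_, fun n j hj => ?_,
      fun n j hj => ?_⟩
    · simp only [hom]
      by_cases hi : i = 0
      · subst hi
        simp
      · by_cases hj : j = 0
        · subst hj
          simp
        · rw [if_neg hi, if_neg hj, if_neg (by omega)]
          have h1 : 0 ≤ s / (p - 1) / (p : ℝ) ^ n := div_nonneg hsp (by positivity)
          have h2 : (((i + j : ℕ) : ℝ)) * A / p ^ n = i * A / p ^ n + j * A / p ^ n := by
            push_cast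
            ring
          rw [h2]
          linarith
    · simp only [hom, if_neg one_ne_zero, Nat.cast_one, one_mul]
      have h1 : A / (p : ℝ) ^ (n + 1) - s / (p - 1) / p ^ (n + 1) = r / p ^ (n + 1) := by
        rw [hA]
        ring
      rw [h1]
      exact he n
    · simp only [hom]
      rw [if_neg (by omega), if_neg (by
        have := Nat.mul_pos hp.out.pos hj
        omega), hlift]
      have h1 := hincr n
      have h2 : 0 ≤ s / (p : ℝ) ^ (n + 1) := div_nonneg hs0 (by positivity)
      linarith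
    · simp only [hom]
      rw [if_neg (by omega), if_neg (by
        have := Nat.mul_pos hp.out.pos hj
        omega), hlift]
      have h1 := hincr n
      have h2 : e (n + 1) - d (n + 1) ≤ s / p ^ (n + 1) := by
        have h3 := he n
        have h4 := hd n
        rw [hs, sub_div]
        linarith
      linarith
  refine ⟨h.root, fun n F => hlift n F, fun n P hP F hF b hb => ?_⟩
  refine (h.norm h0 hc hw n P hP b hb F hF).mono ?_
  simp only [hom]
  split_ifs with hF0
  · subst hF0
    simp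
  · have h1 : 0 ≤ s / (p - 1) / (p : ℝ) ^ n := div_nonneg hsp (by positivity)
    linarith

/-- The distances exist. -/
theorem exists_rd (hB : Cld v B) (hc : CompleteV v) (h0 : x 0 ∈ B)
    (hr : ∀ n, x (n + 1) ^ p = x n) (h1 : x 1 ∉ B) :
    ∃ e : ℕ → ℝ, RD p v B x e (fun n => v (x 0) / p ^ n) ∧
      (∀ n, Dst v (adj B (x n)) (x (n + 1)) (e (n + 1))) ∧
      (∀ n, e (n + 1) ≤ p * e 1 / p ^ (n + 1)) ∧ v (x 0) ≤ p * e 1 := by
  classical
  have hp0 : (0 : ℝ) < p := by exact_mod_cast hp.out.pos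
  have hx0 : x 0 ≠ 0 := by
    intro h2
    have h3 := hr 0
    rw [h2] at h3
    exact h1 (by rw [zero_add, pow_eq_zero_iff hp.out.ne_zero] at h3; rw [h3]; exact zero_mem B)
  have halg : ∀ n, IsAlgebraic B (x n) := by
    intro n
    have h2 : x n ^ p ^ n = x 0 := by
      have := root_pow_add hr 0 n
      rwa [zero_add] at this
    refine IsAlgebraic.of_pow (pow_pos hp.out.pos n) ?_
    rw [h2]
    exact isAlgebraic_algebraMap (R := B) (⟨_, h0⟩ : B)
  have hnot : ∀ n, x (n + 1) ∉ adj B (x n) := by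
    intro n h2
    have h3 := pow_mem_of_adj hr h0 n h2
    have h4 := root_pow_add hr 1 n
    rw [add_comm 1 n] at h4
    rw [h4] at h3
    exact h1 h3
  choose e' he' using fun n => Dst.exists (cld_adj hc hB (halg n)) (hnot n)
  set e : ℕ → ℝ := fun n => e' (n - 1) with he
  have hdst : ∀ n, Dst v (adj B (x n)) (x (n + 1)) (e (n + 1)) := fun n => he' n
  -- `p e (n + 2) ≤ e (n + 1)`
  have hstep : ∀ n, p * e (n + 2) ≤ e (n + 1) := by
    intro n
    refine le_of_forall_pos_le_add fun ε hε => ?_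
    obtain ⟨g, hg, h2⟩ := (hdst (n + 1)).near (ε / p) (by positivity)
    have hgp : g ^ p ∈ adj B (x n) := by
      have h3 : adj B (x (n + 1)) ≤ rootF p 1 (adj B (x n)) := by
        refine D2P.adj_le (fun a ha => mem_rootF.2 ?_) (mem_rootF.2 ?_)
        · exact pow_mem ((D2P.mem_adj_self B (x n)).2 ha) _
        · rw [pow_one, hr]
          exact (D2P.mem_adj_self B (x n)).1
      have h4 := mem_rootF.1 (h3 hg)
      rwa [pow_one] at h4
    have h3 := (hdst n).le_of_ge hgp (b := p * (e (n + 1 + 1) - ε / p)) (by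
      rw [← hr (n + 1), ← sub_pow_char]
      exact ge_pow h2 p)
    rw [mul_sub, mul_div_cancel₀ _ hp0.ne'] at h3
    have h4 : e (n + 1 + 1) = e (n + 2) := rfl
    rw [h4] at h3
    linarith
  have hle : ∀ n, e (n + 1) ≤ p * e 1 / p ^ (n + 1) := by
    intro n
    induction n with
    | zero => rw [zero_add, pow_one, mul_div_cancel_left₀ _ hp0.ne']
    | succ n ih =>
      have h2 : e (n + 2) ≤ e (n + 1) / p := by
        rw [le_div_iff₀ hp0]
        linarith [hstep n]
      refine h2.trans ?_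
      rw [pow_succ _ (n + 1), ← div_div]
      exact (div_le_div_iff_of_pos_right hp0).2 ih
  refine ⟨e, ⟨hB, h0, hr, fun n => (hdst n).far, fun n => (hdst n).near, fun n ε hε => ?_⟩, hdst,
    hle, ?_⟩
  · refine ⟨0, zero_mem B, ?_⟩
    rw [sub_zero]
    intro _
    rw [(val_root_d hr hx0 (n + 1)).2]
    linarith
  · have h2 := ((hdst 0).le (zero_mem _)).2
    rw [sub_zero, (val_root_d hr hx0 (0 + 1)).2, zero_add, pow_one, div_le_iff₀ hp0] at h2
    linarith

end RD

/-- **Bounded theta, any number of drops.** -/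
theorem exists_nbx {p : ℕ} [hp : Fact p.Prime] [CharP k p] [CharP Ω p] [IsAlgClosed Ω]
    (h0 : Ctx0 k v) (hc : CompleteV v) (hB : Cld v B) (hxB : x 0 ∈ B)
    (hr : ∀ n, x (n + 1) ^ p = x n) (h1 : x 1 ∉ B) :
    ∃ A : ℝ, NBX p v B x (fun n F => F * A / p ^ n) ∧
      ∀ n, ∀ F < p ^ n, (F : ℝ) * A / p ^ n ≤ |A| := by
  obtain ⟨e, hrd, -, he, hx⟩ := RD.exists_rd hB hc hxB hr h1
  refine ⟨_, hrd.nbx h0 hc (r := p * e 1) (δ := v (x 0)) he (fun n => le_rfl) hx,
    fun n F hF => ?_⟩
  set A : ℝ := p * e 1 + (p * e 1 - v (x 0)) / (p - 1)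
  have hq : (0 : ℝ) < (p : ℝ) ^ n := by
    have : (0 : ℝ) < p := by exact_mod_cast hp.out.pos
    positivity
  have h2 : (F : ℝ) / p ^ n ≤ 1 := by
    rw [div_le_one hq]
    exact_mod_cast hF.le
  have h3 : (0 : ℝ) ≤ (F : ℝ) / p ^ n := by positivity
  have h4 : (F : ℝ) * A / p ^ n = F / p ^ n * A := by ring
  rw [h4]
  have h5 := le_abs_self A
  have h6 := abs_nonneg A
  nlinarith

end Pool.Agent.TWC
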