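import Pool.Agent.Lib.TWC.PairWw
import Pool.Agent.Lib.TWC.ThetaB

/-!
# TANK W, class C: tight pairs over any field `W`, positive slack

`RD p v W x e d`: `e n` the distance of `x n` to `W(x (n - 1))`, `d n` its distance to `W`;
`e n ≤ q / p ^ n`, `δ / p ^ n ≤ d n`; the jets over `W` have norm `≤ F A / p ^ n`; `x` is tight in `C`,
`W ≤ C`, of level `r`, `r - δ < p (r - A)`.

* `Lim.mul_g`: products of limits;
* `poly_rts`: the roots of the elements of `W(x N)`;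
* `letter_step`: the letters of the elements of `C` at one height;
* `lim_xi`, `nice_step`: the letters of one height, and their roots, are near to `C`;
* `decomp`: all the heights;
* **`exists_pairN`**: the tight pair.
-/

set_option autoImplicit false
set_option linter.unusedSectionVars false

open Polynomial

namespace Pool.Agent.TWC

open Pool.Agent.H15JM (RVal)
open Pool.Agent.LU1 (adj)
open Pool.Agent.D2 (Ctx0)
open Pool.Agent.D2P (clI mem_clI)
open Pool.Agent.TWM Pool.Agent.TWM.C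
open Pool.Agent.TWS (VG)

universe u

variable {k Ω : Type u} [Field k] [Field Ω] [Algebra k Ω] {v : RVal Ω}
  {C₀ W : IntermediateField k Ω} {p : ℕ} [hp : Fact p.Prime] [CharP Ω p]
  {x : ℕ → Ω} {e d : ℕ → ℝ} {r s q A δ : ℝ}

/-! ### Products of limits -/

omit hp [CharP Ω p] in
theorem Lim.sub_r {M : IntermediateField k Ω} {a b : Ω} {ρ : ℝ} (ha : Lim v M ρ a)
    (hb : Lim v M ρ b) : Lim v M ρ (a - b) := by
  intro ε hε
  obtain ⟨c, hc, h1⟩ := ha ε hε
  obtain ⟨d, hd, h2⟩ := hb ε hε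
  refine ⟨c - d, sub_mem hc hd, ?_⟩
  have e : a - b - (c - d) = (a - c) - (b - d) := by ring
  rw [e]
  exact h1.sub h2

omit hp [CharP Ω p] in
theorem Lim.mul_g {M : IntermediateField k Ω} {z z' : Ω} {a b g : ℝ} (hg : 0 ≤ g)
    (hz : v.Ge a z) (hz' : v.Ge b z') (h : Lim v M (a + g) z) (h' : Lim v M (b + g) z') :
    Lim v M (a + b + g) (z * z') := by
  intro ε hε
  obtain ⟨c, hc, h1⟩ := h (ε / 2) (by linarith)
  obtain ⟨c', hc', h2⟩ := h' (ε / 2) (by linarith)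
  refine ⟨c * c', mul_mem hc hc', ?_⟩
  have e1 : z * z' - c * c' = z * (z' - c') + (z - c) * z' - (z - c) * (z' - c') := by ring
  rw [e1]
  refine (((hz.mul h2).mono (by linarith)).add ((h1.mul hz').mono (by linarith))).sub
    ((h1.mul h2).mono (by linarith))

omit hp [CharP Ω p] in
theorem Lim.pow_g {M : IntermediateField k Ω} {z : Ω} {a g : ℝ} (hg : 0 ≤ g)
    (hz : v.Ge a z) (h : Lim v M (a + g) z) (j : ℕ) : Lim v M (j * a + g) (z ^ j) := by
  induction j with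
  | zero =>
    intro ε _
    refine ⟨1, one_mem _, ?_⟩
    rw [pow_zero, sub_self]
    exact RVal.Ge.zero
  | succ j ih =>
    rw [pow_succ]
    have h1 := Lim.mul_g hg (ge_pow hz j) hz ih h
    have e1 : (((j + 1 : ℕ) : ℝ)) * a + g = j * a + a + g := by
      push_cast
      ring
    rw [e1]
    exact h1

/-! ### Roots -/

/-- The roots of order `p ^ n` of the elements of `W(x N)`. -/
theorem poly_rts (hr : ∀ n, x (n + 1) ^ p = x n)
    (hW : ∀ a ∈ W, ∃ Q ∈ PI W, (Q.eval (x 1)) ^ p = a) (N n : ℕ) {S : Polynomial Ω}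
    (hS : S ∈ PI W) : ∃ S' ∈ PI W, (S'.eval (x (N + n))) ^ p ^ n = S.eval (x N) := by
  choose Q hQ hQ' using fun i => rts_poly hr hW n (S.coeff i) (hS i)
  refine ⟨∑ i ∈ Finset.range (S.natDegree + 1), expand Ω (p ^ N) (Q i) * X ^ i, ?_, ?_⟩
  · exact sum_mem fun i _ => mul_mem (expand_mem_PI (pow_pos hp.out.pos N) (hQ i))
      (pow_mem X_mem_PI _)
  · rw [eval_finsetSum, sum_pow_char_pow, eval_eq_sum_range]
    refine Finset.sum_congr rfl fun i _ => ?_
    rw [eval_mul, eval_pow, eval_X, show N + n = n + N by omega, ax_lift hr, mul_pow, hQ',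
      ← pow_mul, mul_comm i, pow_mul, show n + N = N + n by omega, root_pow_add hr N n]

/-! ### The letters of one height -/

omit [CharP Ω p] in
theorem RD.e_ge (h : RD p v W x e d) {n : ℕ} : d (n + 1) ≤ e (n + 1) := by
  refine le_of_forall_pos_le_add fun ε hε => ?_
  obtain ⟨c, hc, h1⟩ := h.low n ε hε
  obtain ⟨h2, h3⟩ := h.dist_le ((D2P.mem_adj_self W (x n)).2 hc)
  have := h1 h2
  linarith

/-- **The letters of the elements of `C`, of the height `N + 1`.** -/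
theorem letter_step [CharP k p] [IsAlgClosed Ω] (h0 : Ctx0 k v) (hc : CompleteV v)
    (hT : Tgt p v C₀ x r) (hWC : W ≤ C₀) (hR : RD p v W x e d) {N : ℕ} {y : Ω} (hy : y ∈ C₀)
    {P R : Polynomial Ω} (hP : P ∈ PI W) (hR' : R ∈ PI W) {β γ : ℝ}
    (hβ : v.Ge β (y - P.eval (x (N + 1)))) (hγ : 0 ≤ γ)
    (hg : v.Ge (e (N + 1) - γ) (x (N + 1) - R.eval (x N))) {Q : ℕ → Polynomial Ω}
    (hQ : ∀ a, Q a ∈ PI W)
    (hPQ : P = ∑ a ∈ Finset.range p, expand Ω p (Q a) * (X - expand Ω p R) ^ a) {a : ℕ}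
    (ha : 1 ≤ a) (hap : a < p) :
    v.Ge (β - r / p ^ (N + 1) + e (N + 1) - (p + 1) * γ)
      ((Q a).eval (x N) * (x (N + 1) - R.eval (x N)) ^ a) := by
  have hp0 : (0 : ℝ) < p := by exact_mod_cast hp.out.pos
  have hNC := hT.snd.nbx' p h0 hc (r := r) (by rw [pow_one, mul_div_cancel₀ _ hp0.ne'])
  have hPC : C y - P ∈ PI C₀ := sub_mem (C_mem_PI hy) (PI_mono hWC hP)
  have h1p : 1 < p ^ (N + 1) := Nat.one_lt_pow (by omega) hp.out.one_lt
  have h1 := hNC.nb (N + 1) _ hPC 1 h1p β (by rw [eval_sub, eval_C]; exact hβ)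
  rw [taylor_coeff_one, derivative_sub, derivative_C, zero_sub, eval_neg] at h1
  have h2 := h1.neg
  rw [neg_neg] at h2
  set g := R.eval (x N) with hgdef
  set ξ := x (N + 1) - g with hξ
  have hexp : ∀ S : Polynomial Ω, derivative (expand Ω p S) = 0 := by
    intro S
    rw [derivative_expand, CharP.cast_eq_zero, zero_mul, mul_zero]
  have e1 : (derivative P).eval (x (N + 1)) = ∑ a ∈ Finset.range p,
      (Q a).eval (x N) * ((a : Ω) * ξ ^ (a - 1)) := by
    rw [hPQ, derivative_sum, eval_finsetSum]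
    refine Finset.sum_congr rfl fun a _ => ?_
    rw [derivative_mul, hexp, zero_mul, zero_add, derivative_pow, derivative_sub, derivative_X,
      hexp, sub_zero, mul_one, eval_mul, expand_eval, hT.root, eval_mul, eval_pow, eval_sub,
      eval_X, expand_eval, hT.root, eval_C]
  rw [e1] at h2
  obtain ⟨p', hp'⟩ : ∃ p', p = p' + 1 := ⟨p - 1, by omega⟩
  -- the family
  set c : Fin p → Ω := fun i => if (i : ℕ) + 1 < p then
    (Q (i + 1)).eval (x N) * (((i : ℕ) + 1 : ℕ) : Ω) else 0 with hcdef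
  have e2 : ∑ a ∈ Finset.range p, (Q a).eval (x N) * ((a : Ω) * ξ ^ (a - 1)) =
      ∑ i : Fin p, c i * ξ ^ (i : ℕ) := by
    rw [hcdef]
    rw [Fin.sum_univ_eq_sum_range (fun i : ℕ => (if i + 1 < p then
      (Q (i + 1)).eval (x N) * ((i + 1 : ℕ) : Ω) else 0) * ξ ^ i) p]
    have e4 : ∀ f : ℕ → Ω, ∑ i ∈ Finset.range p, f i = ∑ i ∈ Finset.range (p' + 1), f i :=
      fun f => by rw [← hp']
    rw [e4, e4, Finset.sum_range_succ', Finset.sum_range_succ, if_neg (by omega : ¬ p' + 1 < p)]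
    rw [Nat.cast_zero, zero_mul, mul_zero, zero_mul, add_zero, add_zero]
    refine Finset.sum_congr rfl fun i hi => ?_
    have hi' := Finset.mem_range.1 hi
    rw [if_pos (by omega), Nat.add_sub_cancel]
    ring
  rw [e2] at h2
  have hadj : ∀ {S : Polynomial Ω}, S ∈ PI W → S.eval (x N) ∈ adj W (x N) := fun hS =>
    TWM.eval_mem (PI_mono (D2P.mem_adj_self W (x N)).2 hS) (D2P.mem_adj_self W (x N)).1
  have hao := AO.stepW p h0 (hR.pstep hc N) (hadj hR') hγ hg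
  have h3 := hao c (fun i => by
    rw [hcdef]
    simp only
    split_ifs
    · exact mul_mem (hadj (hQ _)) (natCast_mem _ _)
    · exact zero_mem _) _ h2 ⟨a - 1, by omega⟩
  rw [hcdef] at h3
  simp only [show a - 1 + 1 = a by omega, if_pos hap] at h3
  have h4 : ((a : ℕ) : k) ≠ 0 := by
    rw [Ne, CharP.cast_eq_zero_iff k p]
    exact fun h5 => absurd (Nat.le_of_dvd (by omega) h5) (by omega)
  have h5 : v.Ge 0 (((a : ℕ) : Ω)⁻¹) := by
    have := h0.ge (((a : ℕ) : k)⁻¹)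
    rwa [map_inv₀, map_natCast] at this
  have h6 : ((a : ℕ) : Ω) ≠ 0 := by
    have := (_root_.map_ne_zero (algebraMap k Ω)).2 h4
    rwa [map_natCast] at this
  have h7 := (h5.mul h3).mul hg
  have e3 : ((a : Ω))⁻¹ * ((Q a).eval (x N) * (a : Ω) * ξ ^ (a - 1)) * ξ =
      (Q a).eval (x N) * ξ ^ a := by
    have h8 : ξ ^ a = ξ ^ (a - 1) * ξ := by
      rw [← pow_succ, show a - 1 + 1 = a by omega]
    rw [h8]
    field_simp
  rw [e3] at h7
  refine h7.mono (le_of_eq ?_)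
  rw [Nat.cast_one, one_mul]
  ring

/-- **The factor `x (M + 1) - g`, `g ∈ W(x M)`, is near to `C`.** -/
theorem lim_xi (hT : Tgt p v C₀ x r) (hWC : W ≤ C₀) (hR : RD p v W x e d)
    (hd : ∀ n, δ / p ^ (n + 1) ≤ d (n + 1)) (hN : NBX p v W x fun n F => F * A / p ^ n)
    (hA : A ≤ r) (hs : r - δ < p * (r - A)) (M : ℕ) {G : Polynomial Ω} (hG : G ∈ PI W) {μ : ℝ}
    (hμ : v.Ge μ (x (M + 1) - G.eval (x M)))
    (hμ' : r / p ^ (M + 1) - (r - A) / p ^ M ≤ μ) :
    Lim v C₀ (r / p ^ (M + 1)) (x (M + 1) - G.eval (x M)) := by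
  have hp0 : (0 : ℝ) < p := by exact_mod_cast hp.out.pos
  have hpM : (0 : ℝ) < (p : ℝ) ^ (M + 1) := pow_pos hp0 _
  have hpM' : (0 : ℝ) < (p : ℝ) ^ M := pow_pos hp0 _
  set κ := (p * (r - A) - (r - δ)) / p ^ (M + 1) with hκ
  have hκ0 : 0 < κ := div_pos (by linarith) hpM
  have e0 : (r - A) / (p : ℝ) ^ M = p * (r - A) / p ^ (M + 1) := by
    rw [pow_succ]
    field_simp
  have e1 : δ / (p : ℝ) ^ (M + 1) - κ = r / p ^ (M + 1) - (r - A) / p ^ M := by
    rw [hκ, e0, ← sub_div, ← sub_div]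
    congr 1
    ring
  obtain ⟨w, hw, h1⟩ := hR.low M κ hκ0
  have h2 : v.Ge (δ / p ^ (M + 1) - κ) ((G - C w).eval (x M)) := by
    have e2 : (G - C w).eval (x M) = (x (M + 1) - w) - (x (M + 1) - G.eval (x M)) := by
      rw [eval_sub, eval_C]
      ring
    rw [e2]
    refine (h1.mono ?_).sub (hμ.mono ?_)
    · linarith [hd M]
    · rw [e1]
      exact hμ'
  have h3 := lim_poly hT hWC hR.mem hN hA (sub_mem hG (C_mem_PI hw)) M h2
  have h4 : Lim v C₀ (r / p ^ (M + 1)) ((G - C w).eval (x M)) := by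
    refine Lim.weak h3 (le_of_eq ?_)
    rw [e1]
    ring
  have e2 : x (M + 1) - G.eval (x M) = (x (M + 1) - w) - (G - C w).eval (x M) := by
    rw [eval_sub, eval_C]
    ring
  rw [e2]
  refine Lim.sub_r (fun ε hε => ?_) h4
  obtain ⟨c, hc1, h5⟩ := hT.lim_all (M + 1) ε hε
  refine ⟨c - w, sub_mem hc1 (hWC hw), ?_⟩
  have e3 : x (M + 1) - w - (c - w) = x (M + 1) - c := by ring
  rw [e3]
  exact h5

/-- **One height.** -/
theorem nice_step [CharP k p] [IsAlgClosed Ω] (h0 : Ctx0 k v) (hc : CompleteV v)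
    (hT : Tgt p v C₀ x r) (hWC : W ≤ C₀) (hR : RD p v W x e d)
    (he : ∀ n, e (n + 1) ≤ r / p ^ (n + 1)) (hd : ∀ n, δ / p ^ (n + 1) ≤ d (n + 1))
    (hN : NBX p v W x fun n F => F * A / p ^ n) (hA : A ≤ r) (hs : r - δ < p * (r - A))
    (hW : ∀ a ∈ W, ∃ Q ∈ PI W, (Q.eval (x 1)) ^ p = a) {N : ℕ} {y f : Ω} (hy : y ∈ C₀)
    (hf : f ∈ adj W (x (N + 1))) {β ε : ℝ} (hβ : v.Ge β (y - f)) (hε : 0 < ε) :
    ∃ f' ∈ adj W (x N), v.Ge (β - (r - δ) / p - ε) (f - f') ∧
      ∀ n, ∃ z, z ^ p ^ n = f - f' ∧ Lim v C₀ ((β - ε) / p ^ n) z := by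
  have hp0 : (0 : ℝ) < p := by exact_mod_cast hp.out.pos
  have hp1 : (1 : ℝ) ≤ p := by exact_mod_cast hp.out.one_lt.le
  have hpN : (0 : ℝ) < (p : ℝ) ^ (N + 1) := pow_pos hp0 _
  set κ := p * (r - A) - (r - δ) with hκ
  have hκ0 : 0 < κ := by linarith
  obtain ⟨P, hP, rfl⟩ := exists_poly_adj hR.root hR.mem (N + 1) hf
  obtain ⟨γ, hγ0, hγ1, hγ2⟩ : ∃ γ : ℝ, 0 < γ ∧ (p + 1) * γ ≤ ε ∧ γ ≤ κ / p ^ (N + 1) := by
    refine ⟨min (ε / (p + 1)) (κ / p ^ (N + 1)), lt_min (by positivity) (by positivity), ?_,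
      min_le_right _ _⟩
    have h1 := min_le_left (ε / ((p : ℝ) + 1)) (κ / p ^ (N + 1))
    have h2 : ((p : ℝ) + 1) * (ε / (p + 1)) = ε := by field_simp
    calc ((p : ℝ) + 1) * _ ≤ (p + 1) * (ε / (p + 1)) :=
          mul_le_mul_of_nonneg_left h1 (by linarith)
      _ = ε := h2
  obtain ⟨g, hg, h1⟩ := hR.near N γ hγ0
  obtain ⟨h2, h3⟩ := hR.dist_le hg
  obtain ⟨R, hR', rfl⟩ := exists_poly_adj hR.root hR.mem N hg
  obtain ⟨Q, hQ, hPQ⟩ := exists_digitsR p hP hR'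
  obtain ⟨p', hp'⟩ : ∃ p', p = p' + 1 := ⟨p - 1, by have := hp.out.pos; omega⟩
  set ξ := x (N + 1) - R.eval (x N) with hξ
  set ℓ := β - r / p ^ (N + 1) + e (N + 1) - (p + 1) * γ with hℓ
  have hlet : ∀ i ∈ Finset.range p', v.Ge ℓ ((Q (i + 1)).eval (x N) * ξ ^ (i + 1)) := by
    intro i hi
    have hi' := Finset.mem_range.1 hi
    exact letter_step h0 hc hT hWC hR hy hP hR' hβ hγ0.le h1 hQ hPQ (by omega) (by omega)
  have hδe : δ / p ^ (N + 1) ≤ e (N + 1) := (hd N).trans hR.e_ge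
  have hδr : δ ≤ r := by
    have := hδe.trans (he N)
    rwa [div_le_div_iff_of_pos_right hpN] at this
  have hexp : P.eval (x (N + 1)) - (Q 0).eval (x N) =
      ∑ i ∈ Finset.range p', (Q (i + 1)).eval (x N) * ξ ^ (i + 1) := by
    have e4 : ∀ f : ℕ → Ω, ∑ i ∈ Finset.range p, f i = ∑ i ∈ Finset.range (p' + 1), f i :=
      fun f => by rw [← hp']
    have e5 : P.eval (x (N + 1)) = ∑ i ∈ Finset.range p, (Q i).eval (x N) * ξ ^ i := by
      rw [hPQ, eval_finsetSum]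
      refine Finset.sum_congr rfl fun a _ => ?_
      rw [eval_mul, expand_eval, eval_pow, eval_sub, eval_X, expand_eval, hR.root]
    rw [e5, e4, Finset.sum_range_succ', pow_zero, mul_one, add_sub_cancel_right]
  have hadj : (Q 0).eval (x N) ∈ adj W (x N) :=
    TWM.eval_mem (PI_mono (D2P.mem_adj_self W (x N)).2 (hQ 0)) (D2P.mem_adj_self W (x N)).1
  refine ⟨(Q 0).eval (x N), hadj, ?_, fun n => ?_⟩
  · rw [hexp]
    refine RVal.Ge.sum _ _ fun i hi => (hlet i hi).mono ?_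
    have h4 : (r - δ) / (p : ℝ) ^ (N + 1) ≤ (r - δ) / p := by
      refine div_le_div_of_nonneg_left (by linarith) hp0 ?_
      exact le_self_pow₀ hp1 (by omega)
    rw [sub_div] at h4
    rw [hℓ]
    linarith
  · have hpn : (0 : ℝ) < (p : ℝ) ^ n := pow_pos hp0 _
    have hpM : (0 : ℝ) < (p : ℝ) ^ (N + n + 1) := pow_pos hp0 _
    choose S hS hS' using fun a => poly_rts hR.root hW N n (hQ a)
    obtain ⟨G, hG, hG'⟩ := poly_rts hR.root hW N n hR'
    set ζ := x (N + n + 1) - G.eval (x (N + n)) with hζ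
    have hζp : ζ ^ p ^ n = ξ := by
      have := root_pow_add hR.root (N + 1) n
      rw [show N + 1 + n = N + n + 1 by omega] at this
      rw [hζ, sub_pow_char_pow, hG', this]
    have hζ0 : ζ ≠ 0 := by
      intro h4
      rw [h4, zero_pow (pow_ne_zero n hp.out.ne_zero)] at hζp
      exact h2 hζp.symm
    have hvζ : v ζ = v ξ / p ^ n := by
      rw [← hζp, v.map_pow hζ0]
      push_cast
      field_simp
    have hvξ : e (N + 1) - γ ≤ v ξ := h1 h2
    have ep : (p : ℝ) ^ (N + n + 1) = p ^ (N + 1) * p ^ n := by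
      rw [← pow_add]
      congr 1
      omega
    have ep' : (p : ℝ) ^ (N + n + 1) = p * p ^ (N + n) := by rw [pow_succ']
    have h4 : Lim v C₀ (r / p ^ (N + n + 1)) ζ := by
      refine lim_xi hT hWC hR hd hN hA hs (N + n) hG (RVal.ge_self _) ?_
      rw [hvζ]
      have h5 : r / (p : ℝ) ^ (N + n + 1) - (r - A) / p ^ (N + n) =
          (δ / p ^ (N + 1) - κ / p ^ (N + 1)) / p ^ n := by
        have h6 : (r - A) / (p : ℝ) ^ (N + n) = p * (r - A) / p ^ (N + n + 1) := by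
          rw [ep', mul_div_mul_left _ _ hp0.ne']
        rw [h6, ← sub_div, ← sub_div, div_div, ← ep]
        congr 1
        rw [hκ]
        ring
      rw [h5]
      refine div_le_div_of_nonneg_right ?_ hpn.le
      linarith
    set g₀ := (r / p ^ (N + 1) - e (N + 1)) / p ^ n with hg₀
    have hg₀0 : 0 ≤ g₀ := div_nonneg (sub_nonneg.2 (he N)) hpn.le
    have h5 : Lim v C₀ (v ζ + g₀) ζ := by
      refine Lim.weak h4 ?_
      rw [hvζ, hg₀, ← add_div, ep, ← div_div]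
      refine div_le_div_of_nonneg_right ?_ hpn.le
      linarith
    have h6 : ∀ i ∈ Finset.range p', Lim v C₀ ((β - ε) / p ^ n)
        ((S (i + 1)).eval (x (N + n)) * ζ ^ (i + 1)) := by
      intro i hi
      have h7 : v.Ge (ℓ / p ^ n) ((S (i + 1)).eval (x (N + n)) * ζ ^ (i + 1)) := by
        refine (ge_pow_iff (v := v) (pow_pos hp.out.pos n)).1 ?_
        rw [mul_pow, hS', ← pow_mul, mul_comm (i + 1), pow_mul, hζp]
        push_cast
        rw [mul_div_cancel₀ _ hpn.ne']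
        exact hlet i hi
      have h8 : v.Ge (ℓ / p ^ n - ((i + 1 : ℕ) : ℝ) * v ζ) ((S (i + 1)).eval (x (N + n))) := by
        intro h9
        have h10 := h7 (mul_ne_zero h9 (pow_ne_zero _ hζ0))
        rw [v.map_mul h9 (pow_ne_zero _ hζ0), v.map_pow hζ0] at h10
        linarith
      have h9 : Lim v C₀ (ℓ / p ^ n - ((i + 1 : ℕ) : ℝ) * v ζ + g₀)
          ((S (i + 1)).eval (x (N + n))) := by
        refine Lim.weak (lim_poly hT hWC hR.mem hN hA (hS _) (N + n) h8) ?_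
        have h10 : g₀ ≤ (r - A) / p ^ (N + n) := by
          have h11 : (r - A) / (p : ℝ) ^ (N + n) = p * (r - A) / p ^ (N + 1) / p ^ n := by
            rw [div_div, ← ep, ep', mul_div_mul_left _ _ hp0.ne']
          rw [h11, hg₀]
          refine div_le_div_of_nonneg_right ?_ hpn.le
          have h12 : (r - δ) / (p : ℝ) ^ (N + 1) ≤ p * (r - A) / p ^ (N + 1) :=
            div_le_div_of_nonneg_right hs.le hpN.le
          rw [sub_div] at h12
          linarith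
        linarith
      refine Lim.weak (Lim.mul_g hg₀0 h8 (ge_pow (RVal.ge_self ζ) (i + 1)) h9
        (Lim.pow_g hg₀0 (RVal.ge_self ζ) h5 (i + 1))) ?_
      rw [sub_add_cancel, hg₀, hℓ, ← add_div]
      refine div_le_div_of_nonneg_right ?_ hpn.le
      linarith
    refine ⟨∑ i ∈ Finset.range p', (S (i + 1)).eval (x (N + n)) * ζ ^ (i + 1), ?_,
      Lim.sum_r _ _ h6⟩
    rw [sum_pow_char_pow, hexp]
    refine Finset.sum_congr rfl fun i _ => ?_
    rw [mul_pow, hS', ← pow_mul, mul_comm (i + 1), pow_mul, hζp]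

/-- **All the heights.** -/
theorem decomp [CharP k p] [IsAlgClosed Ω] (h0 : Ctx0 k v) (hc : CompleteV v)
    (hT : Tgt p v C₀ x r) (hWC : W ≤ C₀) (hR : RD p v W x e d)
    (he : ∀ n, e (n + 1) ≤ r / p ^ (n + 1)) (hd : ∀ n, δ / p ^ (n + 1) ≤ d (n + 1))
    (hN : NBX p v W x fun n F => F * A / p ^ n) (hA : A ≤ r) (hs : r - δ < p * (r - A))
    (hW : ∀ a ∈ W, ∃ Q ∈ PI W, (Q.eval (x 1)) ^ p = a) (N : ℕ) :
    ∀ (y f : Ω), y ∈ C₀ → f ∈ adj W (x N) → ∀ β ε : ℝ, v.Ge β (y - f) → 0 < ε →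
      ∃ f₀ ∈ W, v.Ge (β - (r - δ) / p - ε) (f - f₀) ∧
        ∀ n, ∃ z, z ^ p ^ n = f - f₀ ∧ Lim v C₀ ((β - ε) / p ^ n) z := by
  induction N with
  | zero =>
    intro y f _ hf β ε _ _
    refine ⟨f, D2P.adj_le le_rfl hR.mem hf, ?_, fun n => ⟨0, ?_, fun η _ => ⟨0, zero_mem _, ?_⟩⟩⟩
    · rw [sub_self]
      exact RVal.Ge.zero
    · rw [sub_self, zero_pow (pow_ne_zero n hp.out.ne_zero)]
    · rw [sub_zero]
      exact RVal.Ge.zero
  | succ N ih =>
    intro y f hy hf β ε hβ hε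
    obtain ⟨f', hf', h1, h2⟩ := nice_step h0 hc hT hWC hR he hd hN hA hs hW hy hf hβ
      (half_pos hε)
    obtain ⟨z₀, hz₀, h3⟩ := h2 0
    rw [pow_zero, pow_one] at hz₀
    rw [pow_zero, div_one] at h3
    subst hz₀
    obtain ⟨c, hcC, h4⟩ := h3 (ε / 4) (by linarith)
    have h5 : v.Ge (β - 3 * ε / 4) (y - c - f') := by
      have e1 : y - c - f' = (y - f) + ((f - f') - c) := by ring
      rw [e1]
      exact (hβ.mono (by linarith)).add (h4.mono (by linarith))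
    obtain ⟨f₀, hf₀, h6, h7⟩ := ih (y - c) f' (sub_mem hy hcC) hf' _ (ε / 4) h5 (by linarith)
    refine ⟨f₀, hf₀, ?_, fun n => ?_⟩
    · have e1 : f - f₀ = (f - f') + (f' - f₀) := by ring
      rw [e1]
      exact (h1.mono (by linarith)).add (h6.mono (by linarith))
    · have hpn : (0 : ℝ) < (p : ℝ) ^ n := pow_pos (by exact_mod_cast hp.out.pos) _
      obtain ⟨z, hz, h8⟩ := h2 n
      obtain ⟨z', hz', h9⟩ := h7 n
      refine ⟨z + z', ?_, Lim.add_r (Lim.weak h8 ?_) (Lim.weak h9 ?_)⟩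
      · rw [add_pow_char_pow, hz, hz']
        ring
      · exact div_le_div_of_nonneg_right (by linarith) hpn.le
      · exact div_le_div_of_nonneg_right (by linarith) hpn.le

/-- **The tight pair over `W`**, `x` tight in `C` of level `r`, the jets over `W` of norm
`≤ F A / p ^ n`, the distance of `x n` to `W` at least `δ / p ^ n`, `r - δ < p (r - A)`. -/
theorem exists_pairN [CharP k p] [IsAlgClosed Ω] (h0 : Ctx0 k v) (hc : CompleteV v)
    (hT : Tgt p v C₀ x r) (hx : x 0 ≠ 0) (hvr : v (x 0) < r) (hWC : W ≤ C₀)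
    (hR : RD p v W x e d) (he : ∀ n, e (n + 1) ≤ r / p ^ (n + 1))
    (hd : ∀ n, δ / p ^ (n + 1) ≤ d (n + 1)) (hN : NBX p v W x fun n F => F * A / p ^ n)
    (hA : A ≤ r) (hs : r - δ < p * (r - A))
    (hW : ∀ a ∈ W, ∃ Q ∈ PI W, (Q.eval (x 1)) ^ p = a) {y : Ω} (hy : y ∈ C₀)
    (hTL : TL v (EW v W x) y s) (hE : EW v C₀ x = cadj v (EW v W x) y) :
    ∃ u : ℕ → Ω, y - u 0 ∈ W ∧ TP p v C₀ x u r s ∧ TL v (EW v W x) (u 0) s ∧
      EW v C₀ x = cadj v (EW v W x) (u 0) ∧ C₀ = cadj v W (u 0) := by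
  classical
  have hp0 : (0 : ℝ) < p := by exact_mod_cast hp.out.pos
  have hx0 : x 0 ∈ W := hR.mem
  set κ := p * (r - A) - (r - δ) with hκ
  have hκ0 : 0 < κ := by linarith
  -- approximations of `y`
  have happ : ∀ η : ℝ, 0 < η → ∃ (N : ℕ) (f : Ω), f ∈ adj W (x N) ∧ v.Ge (s - η) (y - f) := by
    intro η hη
    obtain ⟨z, hz, h1⟩ := hTL.lim η hη
    obtain ⟨z', ⟨N, P, hP, rfl⟩, h2⟩ := AX.dense hT.root hp.out.pos hx0 z hz (s - η)
    refine ⟨N, P.eval (x N), TWM.eval_mem (PI_mono (D2P.mem_adj_self W (x N)).2 hP)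
      (D2P.mem_adj_self W (x N)).1, ?_⟩
    have e1 : y - P.eval (x N) = (y - z) + (z - P.eval (x N)) := by ring
    rw [e1]
    exact h1.add h2.2
  have hdec : ∀ η : ℝ, 0 < η → ∃ f₀ ∈ W, ∃ f, v.Ge (s - η) (y - f) ∧
      v.Ge (s - (r - δ) / p - 2 * η) (f - f₀) ∧
      ∀ n, ∃ z, z ^ p ^ n = f - f₀ ∧ Lim v C₀ ((s - 2 * η) / p ^ n) z := by
    intro η hη
    obtain ⟨N, f, hf, h1⟩ := happ η hη
    obtain ⟨f₀, hf₀, h2, h3⟩ := decomp h0 hc hT hWC hR he hd hN hA hs hW N y f hy hf _ η h1 hη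
    refine ⟨f₀, hf₀, f, h1, h2.mono (by linarith), fun n => ?_⟩
    obtain ⟨z, hz, h4⟩ := h3 n
    refine ⟨z, hz, Lim.weak h4 (div_le_div_of_nonneg_right (by linarith)
      (pow_pos hp0 n).le)⟩
  have hrδ : 0 ≤ r - δ := by
    have h1 := ((hd 0).trans hR.e_ge).trans (he 0)
    rw [zero_add, pow_one, div_le_div_iff_of_pos_right hp0] at h1
    linarith
  set η₀ := κ / (4 * p) with hη₀
  have hη₀0 : 0 < η₀ := by positivity
  have hη₀' : (r - δ) / p + 4 * η₀ = r - A := by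
    rw [hη₀, hκ]
    field_simp
    ring
  obtain ⟨n₀, hn₀, f₁, h1, h1', -⟩ := hdec η₀ hη₀0
  obtain ⟨u, hu0, hu⟩ := exists_rts p (y - n₀)
  have hn₀E : n₀ ∈ EW v W x := EW.le hn₀
  have hu0C : u 0 ∈ C₀ := by
    rw [hu0]
    exact sub_mem hy (hWC hn₀)
  have hTL' : TL v (EW v W x) (u 0) s := by
    rw [hu0]
    exact hTL.sub_mem hn₀E
  have hE' : EW v C₀ x = cadj v (EW v W x) (u 0) := by
    rw [hE, hu0, cadj_sub_mem hn₀E]
  have hy₀ : v.Ge (s - (r - δ) / p - 2 * η₀) (y - n₀) := by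
    have e1 : y - n₀ = (y - f₁) + (f₁ - n₀) := by ring
    rw [e1]
    refine (h1.mono ?_).add h1'
    have := div_nonneg hrδ hp0.le
    linarith
  -- the limits
  have key : ∀ (n : ℕ) (η : ℝ), 0 < η → η ≤ η₀ → Lim v C₀ ((s - 2 * η) / p ^ n) (u n) := by
    intro n η hη hη1
    have hpn : (0 : ℝ) < (p : ℝ) ^ n := pow_pos hp0 n
    obtain ⟨f₀, hf₀, f, h2, h3, h4⟩ := hdec η hη
    obtain ⟨z, hz, h5⟩ := h4 n
    obtain ⟨Q, hQ, hQ'⟩ := rts_poly hT.root hW n _ (sub_mem hf₀ hn₀)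
    have h6 : v.Ge (s - (r - δ) / p - 2 * η₀) (f₀ - n₀) := by
      have e1 : f₀ - n₀ = (y - n₀) - (y - f) - (f - f₀) := by ring
      rw [e1]
      have := div_nonneg hrδ hp0.le
      refine (hy₀.sub (h2.mono ?_)).sub (h3.mono ?_) <;> linarith
    have h7 : v.Ge ((s - (r - δ) / p - 2 * η₀) / p ^ n) (Q.eval (x n)) := by
      refine (ge_pow_iff (v := v) (pow_pos hp.out.pos n)).1 ?_
      rw [hQ']
      push_cast
      rw [mul_div_cancel₀ _ hpn.ne']
      exact h6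
    have h8 : Lim v C₀ ((s - 2 * η) / p ^ n) (Q.eval (x n)) := by
      refine Lim.weak (lim_poly hT hWC hx0 hN hA hQ n h7) ?_
      rw [← add_div]
      exact div_le_div_of_nonneg_right (by linarith) hpn.le
    have hun : u n ^ p ^ n = u 0 := by
      have := root_pow_add hu 0 n
      rwa [zero_add] at this
    have h9 : v.Ge ((s - 2 * η) / p ^ n) (u n - (z + Q.eval (x n))) := by
      refine (ge_pow_iff (v := v) (pow_pos hp.out.pos n)).1 ?_
      rw [sub_pow_char_pow, add_pow_char_pow, hun, hz, hQ', hu0]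
      push_cast
      rw [mul_div_cancel₀ _ hpn.ne']
      have e : y - n₀ - (f - f₀ + (f₀ - n₀)) = y - f := by ring
      rw [e]
      exact h2.mono (by linarith)
    have e : u n = (z + Q.eval (x n)) + (u n - (z + Q.eval (x n))) := by ring
    rw [e]
    refine Lim.add_r (Lim.add_r h5 h8) fun ε hε => ⟨0, zero_mem _, ?_⟩
    rw [sub_zero]
    exact h9.mono (by linarith)
  have hTP : TP p v C₀ x u r s :=
    { tgt := hT
      mem := hu0C
      root := hu
      far := by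
        rintro ⟨a, ha, h2⟩
        rw [hE'] at ha
        refine not_root_ge hTL' ha ?_
        have e : a ^ p - u 0 = -(u 1 - a) ^ p := by
          have h3 := hu 0
          rw [zero_add] at h3
          rw [sub_pow_char, h3]
          ring
        rw [e]
        refine ((ge_pow h2.ge p).mono (le_of_eq ?_)).neg
        rw [mul_div_cancel₀ _ hp0.ne']
      lim := fun n ε hε => by
        have hpn : (0 : ℝ) < (p : ℝ) ^ n := pow_pos hp0 n
        obtain ⟨η, hη, hη1, hη2⟩ : ∃ η : ℝ, 0 < η ∧ 2 * η ≤ ε / 2 ∧ η ≤ η₀ :=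
          ⟨min (ε / 4) η₀, lt_min (by linarith) hη₀0, by
            linarith [min_le_left (ε / 4) η₀], min_le_right _ _⟩
        obtain ⟨a, ha, h2⟩ := key n η hη hη2 (ε / 2) (by linarith)
        refine ⟨a, ha, h2.mono ?_⟩
        rw [sub_div]
        have h9 : 2 * η / p ^ n ≤ ε / 2 := by
          refine (div_le_self (by linarith) ?_).trans hη1
          exact one_le_pow₀ (by exact_mod_cast hp.out.one_lt.le)
        linarith }
  refine ⟨u, ?_, hTP, hTL', hE', ?_⟩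
  · rw [hu0, sub_sub_cancel]
    exact hn₀
  · refine hT.eq_of_ew h0 hc hx hvr (cld_cadj v _ _)
      (TWM.cadj_le hT.cld hWC hu0C) (le_cadj v _ _ hx0) ?_
    refine (EW.le : C₀ ≤ EW v C₀ x).trans ?_
    rw [hE', EW.cadj]

end Pool.Agent.TWC
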