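import Pool.Agent.Lib.TWC.PrG
import Pool.Agent.Lib.TWC.Int
import Pool.Agent.Lib.TWC.MainW

/-!
# TANK W, class I: `V'` for the operators of a tight pair over a field `W` with slack

`u n = (x n, w n)`, `B ≤ C`, `Q` perfect, closed, the closure of `B[x n]`, `E` the closure of
`Q[w n]`.
* `IsW.mul_pow`: the operators on the products `a w_m ^ i`, `a ∈ Q`;
* `WF`: the filtration of `E` by the degree in `w`, coefficients in `Q`;
* `PDat.coeff_ge`: the coefficients of a polynomial of small degree in `w_m`;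
* **`PDat.nsdW`**: the operators of order `(g, 0)` have a gain on `Q`: the property `V'`;
* `IsW.gain₀`, `gain_pm`: the gain from the norm of the jets over `W`;
* **`nsdAt_slack`**: `NsdAt` for a pair over any base `W` with positive slack.
-/

set_option autoImplicit false
set_option linter.unusedSectionVars false

open Polynomial

namespace Pool.Agent.TWC

open Pool.Agent.H15JM (RVal)
open Pool.Agent.D2 (Ctx0)
open Pool.Agent.D2P (clI mem_clI)
open Pool.Agent.TWM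
open Pool.Agent.TWC.Key (hd ev lf)
open Pool.Agent.TWS (PM MonG RatV GK VG)

universe u

variable {k Ω : Type u} [Field k] [Field Ω] [Algebra k Ω] {v : RVal Ω}
  {B Q C L E : IntermediateField k Ω} {p : ℕ} {u Mc : ℕ → Fin 2 → Ω} {rho : Fin 2 → ℝ}

/-! ### The operators on the products -/

section Prod

variable [hp : Fact p.Prime] [CharP Ω p] [hcx : Fact (Ctx0 k v)]

theorem mW_two (n : ℕ) (F : Fin 2 → ℕ) : mW Mc n F = Mc n 0 ^ F 0 * Mc n 1 ^ F 1 := by
  rw [mW, Fin.prod_univ_two]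

theorem cast_choose_pow (N i t : ℕ) :
    (((p ^ N * i).choose (p ^ N * t) : ℕ) : Ω) = ((i.choose t : ℕ) : Ω) := by
  have h1 := Key.choose_pow_mul p N i 0 t (pow_pos hp.out.pos N)
  rw [Nat.add_zero] at h1
  exact Key.cast_of_modEq h1

/-- The value of an operator on the product of an element of `B[x K]` and of a power of `w m`. -/
theorem IsW.mul_powK (hr : ∀ n l, u (n + 1) l ^ p = u n l) (hBC : B ≤ C) (hCE : C ≤ E)
    (hu : ∀ n l, u n l ∈ E) {n : ℕ} {F : Fin 2 → ℕ} {φ ψ : Opr v E} (hφ : IsW p C u Mc φ n F)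
    (hψ : IsW p C u Mc ψ n ![F 0, 0]) (j i N : ℕ) (g : (Fin 1 → ℕ) →₀ B) :
    fn φ (ev (fun _ : Fin 1 => u (n + (j + N)) 0) g * u (n + j) 1 ^ i) =
      ((i.choose (p ^ j * F 1) : ℕ) : Ω) * u (n + j) 1 ^ (i - p ^ j * F 1) * Mc n 1 ^ F 1 *
        fn ψ (ev (fun _ : Fin 1 => u (n + (j + N)) 0) g) := by
  have hw : u (n + j) 1 = u (n + (j + N)) 1 ^ p ^ N := by
    rw [← add_assoc]
    exact (root_pow_add (x := fun m => u m 1) (fun m => hr m 1) (n + j) N).symm
  have hE : ∀ g' : (Fin 1 → ℕ) →₀ B, ev (fun _ : Fin 1 => u (n + (j + N)) 0) g' ∈ E := fun g' =>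
    ev_mem (hBC.trans hCE) (fun _ => hu _ 0) g'
  have hwE : u (n + j) 1 ^ i ∈ E := pow_mem (hu _ 1) i
  induction g using Finsupp.induction_linear with
  | zero =>
    rw [map_zero, zero_mul, fn_zero, fn_zero, mul_zero]
  | add f g hf hg =>
    rw [map_add, add_mul, fn_add φ (mul_mem (hE f) hwE) (mul_mem (hE g) hwE), hf, hg,
      fn_add ψ (hE f) (hE g)]
    ring
  | single I c =>
    have hcΩ : algebraMap B Ω c = algebraMap C Ω (⟨c, hBC c.2⟩ : C) := rfl
    have h1 : ev (fun _ : Fin 1 => u (n + (j + N)) 0) (Finsupp.single I c) * u (n + j) 1 ^ i =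
        ev (u (n + (j + N))) (Finsupp.single ![I 0, p ^ N * i] (⟨c, hBC c.2⟩ : C)) := by
      rw [Key.ev_single, Key.ev_single, Fin.prod_univ_one, Fin.prod_univ_two, hw, ← pow_mul, hcΩ,
        mul_assoc]
      simp only [Matrix.cons_val_zero, Matrix.cons_val_one]
    have h2 : ev (fun _ : Fin 1 => u (n + (j + N)) 0) (Finsupp.single I c) =
        ev (u (n + (j + N))) (Finsupp.single ![I 0, 0] (⟨c, hBC c.2⟩ : C)) := by
      rw [Key.ev_single, Key.ev_single, Fin.prod_univ_one, Fin.prod_univ_two, hcΩ]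
      simp only [Matrix.cons_val_zero, Matrix.cons_val_one, pow_zero, mul_one]
    rw [h1, h2, hφ (j + N), hψ (j + N), Key.ev_hd_single, Key.ev_hd_single, Fin.prod_univ_two,
      Fin.prod_univ_two, mW_two, mW_two]
    simp only [Matrix.cons_val_zero, Matrix.cons_val_one, pow_zero, mul_one, mul_zero,
      Nat.choose_self, Nat.cast_one, Nat.sub_self]
    have h3 : p ^ (j + N) * F 1 = p ^ N * (p ^ j * F 1) := by
      rw [pow_add]
      ring
    rw [h3, cast_choose_pow, ← Nat.mul_sub, hw, ← pow_mul]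
    ring

/-- The value of an operator on the product of an element of `B[x n]` and of a power of `w m`. -/
theorem IsW.mul_pow₀ (hr : ∀ n l, u (n + 1) l ^ p = u n l) (hBC : B ≤ C) (hCE : C ≤ E)
    (hu : ∀ n l, u n l ∈ E) {n : ℕ} {F : Fin 2 → ℕ} {φ ψ : Opr v E} (hφ : IsW p C u Mc φ n F)
    (hψ : IsW p C u Mc ψ n ![F 0, 0]) (j i : ℕ) {a : Ω}
    (ha : a ∈ AU B (fun n (_ : Fin 1) => u n 0)) :
    fn φ (a * u (n + j) 1 ^ i) = ((i.choose (p ^ j * F 1) : ℕ) : Ω) *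
      u (n + j) 1 ^ (i - p ^ j * F 1) * Mc n 1 ^ F 1 * fn ψ a := by
  obtain ⟨N, g, ha⟩ := ha
  have e1 : a = ev (fun _ : Fin 1 => u (n + (j + N)) 0) (lf (p ^ (n + j)) g) := by
    rw [ha, Key.ev_lf (u := fun _ : Fin 1 => u N 0)]
    intro l
    rw [show n + (j + N) = N + (n + j) by ring]
    exact root_pow_add (x := fun m => u m 0) (fun m => hr m 0) N (n + j)
  rw [e1]
  exact IsW.mul_powK hr hBC hCE hu hφ hψ j i N _

/-- The value of an operator on the product of an element of `Q` and of a power of `w m`. -/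
theorem IsW.mul_pow (hr : ∀ n l, u (n + 1) l ^ p = u n l) (hBC : B ≤ C) (hCE : C ≤ E)
    (hu : ∀ n l, u n l ∈ E) (hQE : Q ≤ E) (hQ : DnsS v (AU B (fun n (_ : Fin 1) => u n 0)) Q)
    {n : ℕ} {F : Fin 2 → ℕ} {φ ψ : Opr v E} (hφ : IsW p C u Mc φ n F)
    (hψ : IsW p C u Mc ψ n ![F 0, 0]) (j i : ℕ) {a : Ω} (ha : a ∈ Q) :
    fn φ (a * u (n + j) 1 ^ i) = ((i.choose (p ^ j * F 1) : ℕ) : Ω) *
      u (n + j) 1 ^ (i - p ^ j * F 1) * Mc n 1 ^ F 1 * fn ψ a := by
  have hwE : u (n + j) 1 ^ i ∈ E := pow_mem (hu _ 1) i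
  set c := ((i.choose (p ^ j * F 1) : ℕ) : Ω) * u (n + j) 1 ^ (i - p ^ j * F 1) * Mc n 1 ^ F 1
    with hc
  refine eq_of_ge (v := v) fun b => ?_
  obtain ⟨a', ha', hQ', h1⟩ := hQ a ha (max (b - v (u (n + j) 1 ^ i)) (b - v c))
  have h2 : fn φ (a' * u (n + j) 1 ^ i) = c * fn ψ a' :=
    IsW.mul_pow₀ hr hBC hCE hu hφ hψ j i ha'
  have h3 : v.Ge b (fn φ (a * u (n + j) 1 ^ i) - fn φ (a' * u (n + j) 1 ^ i)) := by
    refine fn_near φ (mul_mem (hQE ha) hwE) (mul_mem (hQE hQ') hwE) ?_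
    rw [← sub_mul]
    have h4 := (h1.mono (le_max_left _ _)).mul (RVal.ge_self (v := v) (u (n + j) 1 ^ i))
    rwa [sub_add_cancel] at h4
  have h4 : v.Ge b (c * fn ψ a' - c * fn ψ a) := by
    rw [← mul_sub]
    have h5 := fn_near ψ (hQE ha) (hQE hQ') (h1.mono (le_max_right _ _))
    have h6 := (RVal.ge_self (v := v) c).mul h5.neg
    rwa [neg_sub, add_sub_cancel] at h6
  have h5 := h3.add h4
  rwa [h2, sub_add_sub_cancel] at h5

/-- The operator of order `0` is the identity. -/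
theorem IsW.zero_order (hr : ∀ n l, u (n + 1) l ^ p = u n l) (hdE : DnsS v (AU C u) E)
    {n : ℕ} {φ : Opr v E} (hφ : IsW p C u Mc φ n ![0, 0]) : ∀ x ∈ E, fn φ x = x := by
  intro x hx
  refine eq_of_ge (v := v) fun b => ?_
  obtain ⟨_, ⟨N, f, rfl⟩, hfE, h1⟩ := hdE x hx b
  have e1 : ev (u N) f = ev (u (n + N)) (lf (p ^ n) f) := by
    rw [add_comm n N, ev_lift hr]
  have h2 : fn φ (ev (u N) f) = ev (u N) f := by
    rw [e1, hφ N, mW_two]
    have e2 : (fun l => p ^ N * (![0, 0] : Fin 2 → ℕ) l) = fun _ => 0 := by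
      funext l
      fin_cases l <;> simp
    rw [e2, Key.hd_zero]
    simp
  have h3 := fn_near φ hx hfE h1
  rw [h2] at h3
  have h4 := h3.add h1.neg
  rwa [neg_sub, sub_add_sub_cancel] at h4

end Prod

/-! ### The filtration -/

/-- The span of the `a w_m ^ i`, `a ∈ Q`, `i ≤ D p^m`. -/
def WS (p : ℕ) (Q : IntermediateField k Ω) (w : ℕ → Ω) (D : ℝ) : Submodule k Ω :=
  Submodule.span k {f | ∃ (m i : ℕ) (a : Ω), a ∈ Q ∧ (i : ℝ) ≤ D * p ^ m ∧ f = a * w m ^ i}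

/-- The filtration of `E`. -/
def WF (p : ℕ) (E Q : IntermediateField k Ω) (w : ℕ → Ω) (D : ℝ) : Submodule k E :=
  (WS p Q w D).comap E.val.toLinearMap

theorem mem_WF {w : ℕ → Ω} {D : ℝ} {e : E} : e ∈ WF p E Q w D ↔ (e : Ω) ∈ WS p Q w D := Iff.rfl

theorem mem_WS {w : ℕ → Ω} {D : ℝ} {m i : ℕ} {a : Ω} (ha : a ∈ Q) (hi : (i : ℝ) ≤ D * p ^ m) :
    a * w m ^ i ∈ WS p Q w D := Submodule.subset_span ⟨m, i, a, ha, hi, rfl⟩

theorem WS_mono {w : ℕ → Ω} {D D' : ℝ} (h : D ≤ D') : WS p Q w D ≤ WS p Q w D' := by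
  refine Submodule.span_mono ?_
  rintro _ ⟨m, i, a, ha, hi, rfl⟩
  exact ⟨m, i, a, ha, hi.trans (mul_le_mul_of_nonneg_right h (by positivity)), rfl⟩

theorem WS_le {w : ℕ → Ω} {D : ℝ} (hQE : Q ≤ E) (hw : ∀ n, w n ∈ E) :
    WS p Q w D ≤ Subalgebra.toSubmodule E.toSubalgebra := by
  rw [WS, Submodule.span_le]
  rintro _ ⟨m, i, a, ha, -, rfl⟩
  exact (mul_mem (hQE ha) (pow_mem (hw m) i) : a * w m ^ i ∈ E)

section Filt

variable [hp : Fact p.Prime] [CharP Ω p] {w : ℕ → Ω} {D : ℝ}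

/-- A common level. -/
theorem WS_poly (hr : ∀ n, w (n + 1) ^ p = w n) (hD : 0 < D) (M : ℕ) {f : Ω}
    (hf : f ∈ WS p Q w D) :
    ∃ m, M ≤ m ∧ ∃ q ∈ PI Q, (q.natDegree : ℝ) ≤ D * p ^ m ∧ f = q.eval (w m) := by
  have hp0 : (0 : ℝ) < p := by exact_mod_cast hp.out.pos
  -- the change of level
  have key : ∀ {m : ℕ} {q : Polynomial Ω} (j : ℕ), q ∈ PI Q → (q.natDegree : ℝ) ≤ D * p ^ m →
      ∃ q' ∈ PI Q, (q'.natDegree : ℝ) ≤ D * p ^ (m + j) ∧ q'.eval (w (m + j)) = q.eval (w m) := by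
    intro m q j hq hd
    refine ⟨expand Ω (p ^ j) q, fun n => ?_, ?_, ?_⟩
    · rw [coeff_expand (pow_pos hp.out.pos j)]
      split_ifs
      · exact hq _
      · exact zero_mem _
    · rw [natDegree_expand]
      push_cast
      rw [pow_add, ← mul_assoc]
      exact mul_le_mul_of_nonneg_right hd (by positivity)
    · rw [expand_eval, root_pow_add hr]
  induction hf using Submodule.span_induction with
  | mem f hf =>
    obtain ⟨m, i, a, ha, hi, rfl⟩ := hf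
    obtain ⟨q, hq, h1, h2⟩ := key (m := m) (q := C a * X ^ i) M (fun n => by
      rw [coeff_C_mul, coeff_X_pow]
      split_ifs
      · rw [mul_one]
        exact ha
      · rw [mul_zero]
        exact zero_mem _) (by
      refine le_trans ?_ hi
      exact_mod_cast natDegree_C_mul_X_pow_le a i)
    refine ⟨m + M, Nat.le_add_left M m, q, hq, h1, ?_⟩
    rw [h2, eval_mul, eval_C, eval_pow, eval_X]
  | zero => exact ⟨M, le_rfl, 0, zero_mem _, by simp; positivity, by simp⟩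
  | add f g _ _ h1 h2 =>
    obtain ⟨m, hm, q, hq, hd, rfl⟩ := h1
    obtain ⟨m', hm', q', hq', hd', rfl⟩ := h2
    obtain ⟨q₁, h1, h2, h3⟩ := key m' hq hd
    obtain ⟨q₂, h4, h5, h6⟩ := key m hq' hd'
    rw [add_comm m' m] at h5 h6
    refine ⟨m + m', hm.trans (Nat.le_add_right m m'), q₁ + q₂, add_mem h1 h4, ?_, ?_⟩
    · have h7 := natDegree_add_le q₁ q₂
      have h8 : ((q₁ + q₂).natDegree : ℝ) ≤ max (q₁.natDegree : ℝ) (q₂.natDegree : ℝ) := by
        exact_mod_cast h7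
      exact h8.trans (max_le h2 h5)
    · rw [eval_add, h3, h6]
  | smul c f _ h1 =>
    obtain ⟨m, hm, q, hq, hd, rfl⟩ := h1
    refine ⟨m, hm, C (algebraMap k Ω c) * q, fun n => ?_, ?_, ?_⟩
    · rw [coeff_C_mul]
      exact mul_mem (Q.algebraMap_mem c) (hq n)
    · refine le_trans ?_ hd
      exact_mod_cast natDegree_C_mul_le _ _
    · rw [eval_mul, eval_C, Algebra.smul_def]

theorem WS_pow {f : Ω} (hf : f ∈ WS p Q w D) : f ^ p ∈ WS p Q w (p * D) := by
  induction hf using Submodule.span_induction with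
  | mem f hf =>
    obtain ⟨m, i, a, ha, hi, rfl⟩ := hf
    rw [mul_pow, ← pow_mul]
    refine mem_WS (pow_mem ha p) ?_
    push_cast
    have h1 : (0 : ℝ) ≤ p := Nat.cast_nonneg p
    nlinarith
  | zero =>
    rw [zero_pow hp.out.ne_zero]
    exact zero_mem _
  | add f g _ _ h1 h2 =>
    rw [add_pow_char]
    exact add_mem h1 h2
  | smul c f _ h1 =>
    rw [_root_.smul_pow]
    exact Submodule.smul_mem _ _ h1

theorem WS_root [CharP k p] [PerfectRing k p] (hr : ∀ n, w (n + 1) ^ p = w n)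
    (hQ : ∀ a ∈ Q, ∃ b ∈ Q, b ^ p = a) {f : Ω} (hf : f ∈ WS p Q w (p * D)) :
    ∃ g ∈ WS p Q w D, g ^ p = f := by
  induction hf using Submodule.span_induction with
  | mem f hf =>
    obtain ⟨m, i, a, ha, hi, rfl⟩ := hf
    obtain ⟨b, hb, rfl⟩ := hQ a ha
    refine ⟨b * w (m + 1) ^ i, mem_WS hb ?_, ?_⟩
    · rw [pow_succ]
      linarith
    · rw [mul_pow, ← pow_mul, mul_comm i p, pow_mul, hr]
  | zero => exact ⟨0, zero_mem _, zero_pow hp.out.ne_zero⟩
  | add f g _ _ h1 h2 =>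
    obtain ⟨f', h1, rfl⟩ := h1
    obtain ⟨g', h2, rfl⟩ := h2
    exact ⟨f' + g', add_mem h1 h2, add_pow_char _ _ _⟩
  | smul c f _ h1 =>
    obtain ⟨f', h1, rfl⟩ := h1
    obtain ⟨c', rfl⟩ := (PerfectRing.bijective_frobenius (R := k) (p := p)).2 c
    refine ⟨c' • f', Submodule.smul_mem _ _ h1, ?_⟩
    rw [_root_.smul_pow]

omit hp [CharP Ω p] in
theorem exists_WS {f : Ω} (hf : f ∈ AU Q (fun n (_ : Fin 1) => w n)) (hp' : 0 < p) :
    ∃ D : ℝ, 0 < D ∧ f ∈ WS p Q w D := by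
  obtain ⟨N, g, rfl⟩ := hf
  have hpN : (1 : ℝ) ≤ (p : ℝ) ^ N := one_le_pow₀ (by exact_mod_cast hp')
  induction g using Finsupp.induction_linear with
  | zero => exact ⟨1, one_pos, by rw [map_zero]; exact zero_mem _⟩
  | add f g h1 h2 =>
    obtain ⟨D, hD, h1⟩ := h1
    obtain ⟨D', hD', h2⟩ := h2
    exact ⟨max D D', lt_max_of_lt_left hD, by
      rw [map_add]
      exact add_mem (WS_mono (le_max_left _ _) h1) (WS_mono (le_max_right _ _) h2)⟩
  | single I c =>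
    refine ⟨I 0 + 1, by positivity, ?_⟩
    rw [Key.ev_single, Fin.prod_univ_one]
    refine mem_WS c.2 ?_
    have h1 : (0 : ℝ) ≤ I 0 := Nat.cast_nonneg _
    nlinarith

/-- The filtration. -/
theorem degF_W [CharP k p] [PerfectRing k p] (hr : ∀ n, w (n + 1) ^ p = w n)
    (hQ : ∀ a ∈ Q, ∃ b ∈ Q, b ^ p = a) (hQE : Q ≤ E) (hw : ∀ n, w n ∈ E)
    (hE : DnsS v (AU Q (fun n (_ : Fin 1) => w n)) E) : DegF v E p (WF p E Q w) := by
  refine ⟨fun D D' _ h e he => WS_mono h he, fun e => ?_, fun D _ f hf => ?_,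
    fun D _ f hf => ?_⟩
  · obtain ⟨f, hf, hfE, h1⟩ := hE e e.2 0
    obtain ⟨D, hD, h2⟩ := exists_WS hf hp.out.pos
    exact ⟨D, hD, ⟨f, hfE⟩, h2, h1⟩
  · rw [mem_WF] at hf ⊢
    exact WS_pow hf
  · obtain ⟨g, hg, h1⟩ := WS_root hr hQ (mem_WF.1 hf)
    exact ⟨⟨g, WS_le hQE hw hg⟩, hg, Subtype.ext h1⟩

end Filt

/-! ### The property `V'` -/

section Nsd

variable [hp : Fact p.Prime] [CharP Ω p] [hcx : Fact (Ctx0 k v)]

/-- The image of `Q`. -/
theorem IsW.mem_Q (hr : ∀ n l, u (n + 1) l ^ p = u n l) (hBC : B ≤ C) (hQ : Cld v Q)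
    (hQE : Q ≤ E) (hBQ : B ≤ Q) (hxQ : ∀ n, u n 0 ∈ Q) (hMQ : ∀ n l, Mc n l ∈ Q)
    (hQd : DnsS v (AU B (fun n (_ : Fin 1) => u n 0)) Q) {n : ℕ} {F : ℕ} {ψ : Opr v E}
    (hψ : IsW p C u Mc ψ n ![F, 0]) {a : Ω} (ha : a ∈ Q) : fn ψ a ∈ Q := by
  refine hQ (mem_clI.2 fun b => ?_)
  obtain ⟨a', ⟨N, g, hg⟩, ha'Q, h1⟩ := hQd a ha b
  refine ⟨fn ψ a', ?_, fn_near ψ (hQE ha) (hQE ha'Q) h1⟩
  have e1 : a' = ev (fun _ : Fin 1 => u (n + N) 0) (lf (p ^ n) g) := by
    rw [hg, Key.ev_lf (u := fun _ : Fin 1 => u N 0)]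
    intro l
    rw [add_comm n N]
    exact root_pow_add (x := fun m => u m 0) (fun m => hr m 0) N n
  have e2 : ∀ g' : (Fin 1 → ℕ) →₀ B, ∃ g'' : (Fin 2 → ℕ) →₀ C,
      ev (fun _ : Fin 1 => u (n + N) 0) g' = ev (u (n + N)) g'' ∧
      ev (u (n + N)) (hd (fun l => p ^ N * (![F, 0] : Fin 2 → ℕ) l) g'') ∈ Q := by
    intro g'
    induction g' using Finsupp.induction_linear with
    | zero => exact ⟨0, by rw [map_zero, map_zero], by rw [map_zero, map_zero]; exact zero_mem _⟩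
    | add f g h1 h2 =>
      obtain ⟨f'', h3, h4⟩ := h1
      obtain ⟨g'', h5, h6⟩ := h2
      exact ⟨f'' + g'', by rw [map_add, map_add, h3, h5], by
        rw [map_add, map_add]
        exact add_mem h4 h6⟩
    | single I c =>
      refine ⟨Finsupp.single ![I 0, 0] (⟨c, hBC c.2⟩ : C), ?_, ?_⟩
      · have hcΩ : algebraMap B Ω c = algebraMap C Ω (⟨c, hBC c.2⟩ : C) := rfl
        rw [Key.ev_single, Key.ev_single, Fin.prod_univ_one, Fin.prod_univ_two, hcΩ]
        simp only [Matrix.cons_val_zero, Matrix.cons_val_one, pow_zero, mul_one]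
      · rw [Key.ev_hd_single, Fin.prod_univ_two]
        simp only [Matrix.cons_val_zero, Matrix.cons_val_one, pow_zero, mul_one, mul_zero,
          Nat.choose_self, Nat.cast_one, Nat.sub_self]
        exact mul_mem (hBQ c.2) (mul_mem (natCast_mem _ _) (pow_mem (hxQ _) _))
  obtain ⟨g'', h2, h3⟩ := e2 (lf (p ^ n) g)
  rw [e1, h2, hψ N]
  refine mul_mem ?_ h3
  rw [mW_two]
  exact mul_mem (pow_mem (hMQ _ _) _) (pow_mem (hMQ _ _) _)

/-- The operators on the polynomials in `w m`. -/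
theorem IsW.eval (hr : ∀ n l, u (n + 1) l ^ p = u n l) (hBC : B ≤ C) (hCE : C ≤ E)
    (hu : ∀ n l, u n l ∈ E) (hQE : Q ≤ E) (hQd : DnsS v (AU B (fun n (_ : Fin 1) => u n 0)) Q)
    {n : ℕ} {F : Fin 2 → ℕ} {φ ψ : Opr v E} (hφ : IsW p C u Mc φ n F)
    (hψ : IsW p C u Mc ψ n ![F 0, 0]) (j : ℕ) {q : Polynomial Ω} (hq : q ∈ PI Q) :
    fn φ (q.eval (u (n + j) 1)) = ∑ i ∈ Finset.range (q.natDegree + 1),
      ((i.choose (p ^ j * F 1) : ℕ) : Ω) * u (n + j) 1 ^ (i - p ^ j * F 1) * Mc n 1 ^ F 1 *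
        fn ψ (q.coeff i) := by
  rw [eval_eq_sum_range, fn_sum φ _ _ fun i _ => mul_mem (hQE (hq i)) (pow_mem (hu _ 1) i)]
  exact Finset.sum_congr rfl fun i _ => IsW.mul_pow hr hBC hCE hu hQE hQd hφ hψ j i (hq i)

namespace PDat

/-- The values of the jets in `w m` of the polynomials over `Q` of small degree. -/
theorem jet_ge (hc : CompleteV v) (h : PDat p v C L E u Mc rho) (hBC : B ≤ C) (hQE : Q ≤ E)
    (hQd : DnsS v (AU B (fun n (_ : Fin 1) => u n 0)) Q) {m : ℕ} {q : Polynomial Ω}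
    (hq : q ∈ PI Q) (hN : q.natDegree < p ^ m) {b : ℝ} (hf : v.Ge b (q.eval (u m 1))) (l : ℕ) :
    v.Ge (b - l * (rho 1 / p ^ m)) ((taylor (u m 1) q).coeff l) := by
  have hpm : 0 < p ^ m := pow_pos hp.out.pos m
  rcases lt_or_ge l (p ^ m) with hl | hl
  swap
  · rw [coeff_eq_zero_of_natDegree_lt (by rw [natDegree_taylor]; omega)]
    exact RVal.Ge.zero
  obtain ⟨φ, hφ⟩ := h.exW hc m ![0, l] (fun i => by fin_cases i <;> simp [hl, hp.out.pos])
  obtain ⟨ψ, hψ⟩ := h.exW hc m ![0, 0] (fun i => by fin_cases i <;> simp [hp.out.pos])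
  have hid : ∀ x ∈ E, fn ψ x = x := hψ.zero_order h.root h.dns
  have h1 := IsW.eval (B := B) (Q := Q) h.root hBC h.CE h.mem hQE hQd hφ
    (ψ := ψ) (by simpa using hψ) 0 hq
  rw [add_zero] at h1
  have h2 : fn φ (q.eval (u m 1)) = Mc m 1 ^ l * (taylor (u m 1) q).coeff l := by
    rw [h1, taylor_coeff, hasseDeriv_apply, Polynomial.sum_over_range' _ _ (q.natDegree + 1)
      (Nat.lt_succ_self _), eval_finsetSum, Finset.mul_sum]
    · refine Finset.sum_congr rfl fun i _ => ?_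
      rw [hid _ (hQE (hq i)), eval_monomial]
      simp only [pow_zero, one_mul, Matrix.cons_val_one, Matrix.cons_val_zero]
      ring
    · intro n
      rw [mul_zero, monomial_zero_right]
  have h3 : v.Ge b (Mc m 1 ^ l * (taylor (u m 1) q).coeff l) := by
    rw [← h2]
    refine fn_ge φ ?_ hf
    rw [eval_eq_sum_range]
    exact sum_mem fun i _ => mul_mem (hQE (hq i)) (pow_mem (h.mem m 1) i)
  have hM0 : Mc m 1 ^ l ≠ 0 := pow_ne_zero _ (h.ne m 1)
  have h4 : v.Ge (-(l * (rho 1 / p ^ m))) (Mc m 1 ^ l)⁻¹ := fun _ => by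
    rw [v.map_inv hM0, v.map_pow (h.ne m 1), h.val]
  have h5 := h4.mul h3
  rw [inv_mul_cancel_left₀ hM0] at h5
  exact h5.mono (by linarith)

/-- The values of the coefficients. -/
theorem coeff_ge (hc : CompleteV v) (h : PDat p v C L E u Mc rho) (hBC : B ≤ C) (hQE : Q ≤ E)
    (hQd : DnsS v (AU B (fun n (_ : Fin 1) => u n 0)) Q) {m : ℕ} {q : Polynomial Ω}
    (hq : q ∈ PI Q) {δ : ℝ} (hδ : δ < 1) (hN : (q.natDegree : ℝ) ≤ δ * p ^ m) {b : ℝ}
    (hf : v.Ge b (q.eval (u m 1))) (i : ℕ) :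
    v.Ge (b - 2 * δ * (|v (u 0 1)| + |rho 1|)) (q.coeff i) := by
  have hp0 : (0 : ℝ) < p := by exact_mod_cast hp.out.pos
  have hpm : (0 : ℝ) < (p : ℝ) ^ m := pow_pos hp0 m
  set K := |v (u 0 1)| + |rho 1| with hK
  have hK0 : 0 ≤ K := by positivity
  have hN' : q.natDegree < p ^ m := by
    have h1 : (q.natDegree : ℝ) < (p : ℝ) ^ m := lt_of_le_of_lt hN (by nlinarith)
    exact_mod_cast h1
  have hδ0 : 0 ≤ δ := by
    by_contra h1
    have h2 : δ * (p : ℝ) ^ m < 0 := mul_neg_of_neg_of_pos (not_le.1 h1) hpm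
    have h3 : (0 : ℝ) ≤ q.natDegree := Nat.cast_nonneg _
    linarith
  by_cases hi : q.natDegree < i
  · rw [coeff_eq_zero_of_natDegree_lt hi]
    exact RVal.Ge.zero
  have h1 := h.jet_ge hc hBC hQE hQd hq hN' hf
  have hw : v.Ge (rho 1 / p ^ m - K / p ^ m) (u m 1 - 0) := by
    rw [sub_zero]
    intro hw0
    have h2 : v (u 0 1) = (p : ℝ) ^ m * v (u m 1) := by
      have h3 := root_pow_add (x := fun m => u m 1) (fun m => h.root m 1) 0 m
      simp only [zero_add] at h3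
      rw [← h3, v.map_pow hw0]
      push_cast
      rfl
    have h3 : v (u m 1) = v (u 0 1) / p ^ m := by
      rw [h2]
      field_simp
    rw [h3, ← sub_div]
    refine div_le_div_of_nonneg_right ?_ hpm.le
    have h4 := neg_abs_le (v (u 0 1))
    have h5 := le_abs_self (rho 1)
    rw [hK]
    linarith
  have h2 := taylor_near q (u m 1) 0 (rho 1 / p ^ m) b (K / p ^ m) (by positivity) h1 hw i
  rw [taylor_zero] at h2
  refine h2.mono ?_
  have h3 : (i : ℝ) ≤ q.natDegree := by exact_mod_cast not_lt.1 hi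
  have h4 : (i : ℝ) * (rho 1 / p ^ m) ≤ δ * K := by
    have h5 : (i : ℝ) * (rho 1 / p ^ m) = (i / p ^ m) * rho 1 := by ring
    rw [h5]
    have h6 : (i : ℝ) / p ^ m ≤ δ := by
      rw [div_le_iff₀ hpm]
      exact h3.trans hN
    have h7 : (0 : ℝ) ≤ (i : ℝ) / p ^ m := by positivity
    have h8 := le_abs_self (rho 1)
    have h9 : |rho 1| ≤ K := by
      rw [hK]
      linarith [abs_nonneg (v (u 0 1))]
    nlinarith [abs_nonneg (rho 1)]
  have h5 : (q.natDegree : ℝ) * (K / p ^ m) ≤ δ * K := by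
    have h6 : (q.natDegree : ℝ) * (K / p ^ m) = (q.natDegree / p ^ m) * K := by ring
    rw [h6]
    refine mul_le_mul_of_nonneg_right ?_ hK0
    rw [div_le_iff₀ hpm]
    exact hN
  linarith

theorem w_ge (h : PDat p v C L E u Mc rho) (m : ℕ) :
    v.Ge (-(|v (u 0 1)| / p ^ m)) (u m 1) := by
  have hp0 : (0 : ℝ) < p := by exact_mod_cast hp.out.pos
  have hpm : (0 : ℝ) < (p : ℝ) ^ m := pow_pos hp0 m
  intro hw0
  have h3 := root_pow_add (x := fun m => u m 1) (fun m => h.root m 1) 0 m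
  simp only [zero_add] at h3
  have h2 : v (u 0 1) = (p : ℝ) ^ m * v (u m 1) := by
    rw [← h3, v.map_pow hw0]
    push_cast
    rfl
  have h4 : v (u m 1) = v (u 0 1) / p ^ m := by
    rw [h2]
    field_simp
  rw [h4, ← neg_div]
  exact div_le_div_of_nonneg_right (neg_abs_le _) hpm.le

/-- The operators preserve the filtration. -/
theorem wf_mem (h : PDat p v C L E u Mc rho) (hBC : B ≤ C) (hQ : Cld v Q)
    (hQE : Q ≤ E) (hBQ : B ≤ Q) (hxQ : ∀ n, u n 0 ∈ Q) (hMQ : ∀ n l, Mc n l ∈ Q)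
    (hQd : DnsS v (AU B (fun n (_ : Fin 1) => u n 0)) Q) {n : ℕ} {F : Fin 2 → ℕ}
    {φ ψ : Opr v E} (hφ : IsW p C u Mc φ n F) (hψ : IsW p C u Mc ψ n ![F 0, 0]) {D : ℝ}
    {f : Ω} (hf : f ∈ WS p Q (fun n => u n 1) D) : fn φ f ∈ WS p Q (fun n => u n 1) D := by
  have hle := WS_le (k := k) (p := p) (D := D) (w := fun n => u n 1) hQE (fun n => h.mem n 1)
  induction hf using Submodule.span_induction with
  | mem f hf =>
    obtain ⟨m, i, a, ha, hi, rfl⟩ := hf
    have e1 : (fun n => u n 1) m = u (n + m) 1 ^ p ^ n := by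
      rw [add_comm n m]
      exact (root_pow_add (x := fun m => u m 1) (fun m => h.root m 1) m n).symm
    rw [e1, ← pow_mul, IsW.mul_pow h.root hBC h.CE h.mem hQE hQd hφ hψ m _ ha]
    have e2 : (((p ^ n * i).choose (p ^ m * F 1) : ℕ) : Ω) *
        u (n + m) 1 ^ (p ^ n * i - p ^ m * F 1) * Mc n 1 ^ F 1 * fn ψ a =
        ((((p ^ n * i).choose (p ^ m * F 1) : ℕ) : Ω) * Mc n 1 ^ F 1 * fn ψ a) *
          (fun n => u n 1) (n + m) ^ (p ^ n * i - p ^ m * F 1) := by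
      ring
    rw [e2]
    refine mem_WS (mul_mem (mul_mem (natCast_mem _ _) (pow_mem (hMQ n 1) _))
      (hψ.mem_Q h.root hBC hQ hQE hBQ hxQ hMQ hQd ha)) ?_
    have h1 : ((p ^ n * i - p ^ m * F 1 : ℕ) : ℝ) ≤ ((p ^ n * i : ℕ) : ℝ) := by
      exact_mod_cast Nat.sub_le _ _
    refine h1.trans ?_
    push_cast
    rw [pow_add]
    have h2 : (0 : ℝ) ≤ (p : ℝ) ^ n := by positivity
    nlinarith
  | zero =>
    rw [fn_zero]
    exact zero_mem _
  | add f g hf hg h1 h2 =>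
    rw [fn_add φ (hle hf) (hle hg)]
    exact add_mem h1 h2
  | smul c f hf h1 =>
    rw [fn_smul φ c (hle hf)]
    exact Submodule.smul_mem _ _ h1

/-- **`V'`**: the operators of order `(g, 0)` have a gain on `Q`, `E` is the closure of `Q[w n]`. -/
theorem nsdW [CharP k p] [PerfectRing k p] (hc : CompleteV v) (h : PDat p v C L E u Mc rho)
    (hBC : B ≤ C) (hQ : Cld v Q) (hQp : ∀ a ∈ Q, ∃ b ∈ Q, b ^ p = a)
    (hQE : Q ≤ E) (hBQ : B ≤ Q) (hxQ : ∀ n, u n 0 ∈ Q) (hMQ : ∀ n l, Mc n l ∈ Q)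
    (hQd : DnsS v (AU B (fun n (_ : Fin 1) => u n 0)) Q)
    (hEd : DnsS v (AU Q (fun n (_ : Fin 1) => u n 1)) E)
    (hg : ∀ (n F : ℕ), F ≠ 0 → F < p ^ n → ∃ μ : ℝ, 0 < μ ∧
      ∀ ψ : Opr v E, IsW p C u Mc ψ n ![F, 0] → ∀ a ∈ Q, ∀ b : ℝ, v.Ge b a →
        v.Ge (b + μ) (fn ψ a)) : NSD p (h.oper hc) := by
  have hp0 : (0 : ℝ) < p := by exact_mod_cast hp.out.pos
  set w : ℕ → Ω := fun n => u n 1 with hw
  have hwr : ∀ n, w (n + 1) ^ p = w n := fun n => h.root n 1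
  have hwE : ∀ n, w n ∈ E := fun n => h.mem n 1
  have hA : DegF v E p (WF p E Q w) := degF_W hwr hQp hQE hwE hEd
  have hT : ∀ φ ∈ adjT (genW p v C E u Mc),
      (∀ D, 0 < D → ∀ f ∈ WF p E Q w D, (φ : Module.End k E) f ∈ WF p E Q w D) ∧
      ∃ δ, 0 < δ ∧ ∃ μ, 0 < μ ∧ GainOn (WF p E Q w δ) φ μ := by
    refine gain_adjT (B := WF p E Q w) (fun D D' hD0 hD => hA.mono D D' hD0 hD) ?_
    rintro φ ⟨n, F, hF0, hF, hφ⟩
    have hpn : (0 : ℝ) < (p : ℝ) ^ n := pow_pos hp0 n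
    obtain ⟨ψ, hψ⟩ := h.exW hc n ![F 0, 0] (fun i => by
      fin_cases i
      · exact hF 0
      · exact pow_pos hp.out.pos n)
    refine ⟨fun D _ f hf => ?_, ?_⟩
    · rw [mem_WF] at hf ⊢
      have h1 := h.wf_mem hBC hQ hQE hBQ hxQ hMQ hQd hφ hψ hf
      rwa [fn_of_mem φ f.2] at h1
    -- the polynomials of small degree
    have key : ∀ {δ : ℝ}, 0 < δ → ∀ f ∈ WF p E Q w δ, ∃ (j : ℕ) (q : Polynomial Ω), q ∈ PI Q ∧
        (q.natDegree : ℝ) ≤ δ * p ^ (n + j) ∧ (f : Ω) = q.eval (u (n + j) 1) ∧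
        (((φ : Module.End k E) f : E) : Ω) = ∑ i ∈ Finset.range (q.natDegree + 1),
          ((i.choose (p ^ j * F 1) : ℕ) : Ω) * u (n + j) 1 ^ (i - p ^ j * F 1) *
            Mc n 1 ^ F 1 * fn ψ (q.coeff i) := by
      intro δ hδ f hf
      obtain ⟨m, hm, q, hq, hd, hfe⟩ := WS_poly hwr hδ n (mem_WF.1 hf)
      obtain ⟨j, rfl⟩ := Nat.exists_eq_add_of_le hm
      refine ⟨j, q, hq, hd, hfe, ?_⟩
      rw [← fn_of_mem φ f.2]
      have h1 := IsW.eval (B := B) (Q := Q) h.root hBC h.CE h.mem hQE hQd hφ hψ j hq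
      rw [← h1]
      exact congrArg (fn φ) hfe
    by_cases hF1 : F 1 = 0
    · -- order `(g, 0)`
      have hF0' : F 0 ≠ 0 := by
        obtain ⟨l, hl⟩ := hF0
        fin_cases l
        · exact hl
        · exact absurd hF1 hl
      obtain ⟨μ, hμ, hgain⟩ := hg n (F 0) hF0' (hF 0)
      set K := |v (u 0 1)| + |rho 1| with hK
      have hK0 : 0 ≤ K := by positivity
      set δ := min (1 / 2) (μ / (2 * (3 * K + 1))) with hδ
      have hδ0 : 0 < δ := by
        rw [hδ]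
        positivity
      have hδ1 : δ < 1 := lt_of_le_of_lt (min_le_left _ _) (by norm_num)
      have hδ2 : 3 * δ * K ≤ μ / 2 := by
        have h1 : δ ≤ μ / (2 * (3 * K + 1)) := min_le_right _ _
        rw [le_div_iff₀ (by positivity)] at h1
        nlinarith
      refine ⟨δ, hδ0, μ / 2, by positivity, fun f hf b hb => ?_⟩
      obtain ⟨j, q, hq, hd, hfe, hφf⟩ := key hδ0 f hf
      have hpj : (0 : ℝ) < (p : ℝ) ^ (n + j) := pow_pos hp0 _
      rw [hφf, hF1]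
      refine RVal.Ge.sum _ _ fun i hi => ?_
      rw [mul_zero, Nat.choose_zero_right, Nat.cast_one, one_mul, Nat.sub_zero, pow_zero, mul_one]
      rw [hfe] at hb
      have h1 := h.coeff_ge hc hBC hQE hQd hq hδ1 hd hb i
      have h2 := hgain ψ hψ _ (hq i) _ h1
      have h3 : v.Ge (-(δ * K)) (u (n + j) 1 ^ i) := by
        refine (ge_pow (h.w_ge (n + j)) i).mono ?_
        have h4 : (i : ℝ) ≤ q.natDegree := by
          exact_mod_cast Nat.lt_succ_iff.1 (Finset.mem_range.1 hi)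
        have h5 : (i : ℝ) * -(|v (u 0 1)| / p ^ (n + j)) =
            -((i / p ^ (n + j)) * |v (u 0 1)|) := by ring
        rw [h5]
        have h6 : (i : ℝ) / p ^ (n + j) ≤ δ := by
          rw [div_le_iff₀ hpj]
          exact h4.trans hd
        have h7 : |v (u 0 1)| ≤ K := by
          rw [hK]
          linarith [abs_nonneg (rho 1)]
        have h8 := mul_le_mul h6 h7 (abs_nonneg _) hδ0.le
        linarith
      have h4 := h3.mul h2
      refine h4.mono ?_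
      nlinarith
    · -- order `(g, h)`, `h > 0`
      refine ⟨F 1 / (2 * p ^ n), by positivity, 1, one_pos, fun f hf b _ => ?_⟩
      obtain ⟨j, q, hq, hd, hfe, hφf⟩ := key (by positivity) f hf
      rw [hφf, Finset.sum_eq_zero]
      · exact RVal.Ge.zero
      intro i hi
      have h1 : i < p ^ j * F 1 := by
        have h2 : (i : ℝ) ≤ q.natDegree := by
          exact_mod_cast Nat.lt_succ_iff.1 (Finset.mem_range.1 hi)
        have h3 : (0 : ℝ) < F 1 := by exact_mod_cast Nat.pos_of_ne_zero hF1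
        have h4 : (0 : ℝ) < (p : ℝ) ^ j := pow_pos hp0 j
        have h5 : (F 1 : ℝ) / (2 * p ^ n) * p ^ (n + j) = F 1 * p ^ j / 2 := by
          rw [pow_add]
          field_simp
        rw [h5] at hd
        have h6 : (i : ℝ) < p ^ j * F 1 := by nlinarith [mul_pos h3 h4]
        exact_mod_cast h6
      rw [Nat.choose_eq_zero_of_lt h1, Nat.cast_zero, zero_mul, zero_mul, zero_mul]
  exact nsd_gain p (h.oper hc).toM hA hT

end PDat

/-! ### The gain -/

omit hp [CharP Ω p] hcx in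
/-- The polynomials in one variable. -/
theorem exists_poly1 (z : Ω) (g : (Fin 1 → ℕ) →₀ B) : ∃ P ∈ PI B,
    P.eval z = ev (fun _ : Fin 1 => z) g ∧
      ∀ F : ℕ, (taylor z P).coeff F = ev (fun _ : Fin 1 => z) (hd (fun _ => F) g) := by
  induction g using Finsupp.induction_linear with
  | zero => exact ⟨0, zero_mem _, by simp, fun F => by simp⟩
  | add f g h1 h2 =>
    obtain ⟨P, hP, h3, h4⟩ := h1
    obtain ⟨P', hP', h5, h6⟩ := h2
    refine ⟨P + P', add_mem hP hP', by rw [eval_add, map_add, h3, h5], fun F => ?_⟩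
    rw [map_add, coeff_add, map_add, map_add, h4, h6]
  | single I c =>
    refine ⟨C (c : Ω) * X ^ I 0, fun n => ?_, ?_, fun F => ?_⟩
    · rw [coeff_C_mul, coeff_X_pow]
      split_ifs
      · rw [mul_one]
        exact c.2
      · rw [mul_zero]
        exact zero_mem _
    · rw [Key.ev_single, Fin.prod_univ_one, eval_mul, eval_C, eval_pow, eval_X]
      rfl
    · rw [Key.ev_hd_single, Fin.prod_univ_one, taylor_coeff, C_mul_X_pow_eq_monomial,
        hasseDeriv_monomial, eval_monomial]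
      change _ = (c : Ω) * _
      ring

omit hp [CharP Ω p] hcx in
/-- The two forms of the bound of the jets. -/
theorem nbr_of_nbx {x : ℕ → Ω} {q : ℝ} (h : NBX p v B x fun n F => F * q / p ^ n) :
    NBR p v B (fun n (_ : Fin 1) => x n) (fun _ => q) := by
  intro n F hF f b hb
  obtain ⟨P, hP, h1, h2⟩ := exists_poly1 (x n) f
  have h3 := h.nb n P hP (F 0) (hF 0) b (by rw [h1]; exact hb)
  rw [h2] at h3
  have e1 : (fun _ : Fin 1 => F 0) = F := funext fun l => by rw [Subsingleton.elim l 0]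
  rw [e1] at h3
  refine h3.mono (le_of_eq ?_)
  rw [Key.wt, Fin.sum_univ_one]
  ring

/-- The gain on the closure of `B[x n]`. -/
theorem IsW.gain₀ (hr : ∀ n l, u (n + 1) l ^ p = u n l) (hBC : B ≤ C)
    (hQE : Q ≤ E) (hQd : DnsS v (AU B (fun n (_ : Fin 1) => u n 0)) Q) {q : ℝ}
    (hn : NBR p v B (fun n (_ : Fin 1) => u n 0) (fun _ => q)) {n F : ℕ} (hF : F < p ^ n)
    {ψ : Opr v E} (hψ : IsW p C u Mc ψ n ![F, 0]) {ρ : ℝ} (hM : v (Mc n 0) = ρ / p ^ n)
    {a : Ω} (ha : a ∈ Q) {b : ℝ} (hb : v.Ge b a) : v.Ge (b + F * (ρ - q) / p ^ n) (fn ψ a) := by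
  have hp0 : (0 : ℝ) < p := by exact_mod_cast hp.out.pos
  set μ := F * (ρ - q) / p ^ n with hμ
  obtain ⟨a', ⟨N, g, hg⟩, ha'Q, h1⟩ := hQd a ha (max b (b + μ))
  have hb' : v.Ge b a' := by
    have h2 := hb.sub (h1.mono (le_max_left _ _))
    rwa [sub_sub_cancel] at h2
  have e1 : a' = ev (fun _ : Fin 1 => u (n + N) 0) (lf (p ^ n) g) := by
    rw [hg, Key.ev_lf (u := fun _ : Fin 1 => u N 0)]
    intro l
    rw [add_comm n N]
    exact root_pow_add (x := fun m => u m 0) (fun m => hr m 0) N n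
  set g' := lf (p ^ n) g with hg'
  have e2 : ∀ g' : (Fin 1 → ℕ) →₀ B, ∃ g'' : (Fin 2 → ℕ) →₀ C,
      ev (fun _ : Fin 1 => u (n + N) 0) g' = ev (u (n + N)) g'' ∧
      ev (u (n + N)) (hd (fun l => p ^ N * (![F, 0] : Fin 2 → ℕ) l) g'') =
        ev (fun _ : Fin 1 => u (n + N) 0) (hd (fun _ => p ^ N * F) g') := by
    intro g'
    induction g' using Finsupp.induction_linear with
    | zero => exact ⟨0, by rw [map_zero, map_zero], by rw [map_zero, map_zero, map_zero, map_zero]⟩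
    | add f g h1 h2 =>
      obtain ⟨f'', h3, h4⟩ := h1
      obtain ⟨g'', h5, h6⟩ := h2
      exact ⟨f'' + g'', by rw [map_add, map_add, h3, h5], by
        rw [map_add, map_add, map_add, map_add, h4, h6]⟩
    | single I c =>
      refine ⟨Finsupp.single ![I 0, 0] (⟨c, hBC c.2⟩ : C), ?_, ?_⟩
      · have hcΩ : algebraMap B Ω c = algebraMap C Ω (⟨c, hBC c.2⟩ : C) := rfl
        rw [Key.ev_single, Key.ev_single, Fin.prod_univ_one, Fin.prod_univ_two, hcΩ]
        simp only [Matrix.cons_val_zero, Matrix.cons_val_one, pow_zero, mul_one]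
      · have hcΩ : algebraMap B Ω c = algebraMap C Ω (⟨c, hBC c.2⟩ : C) := rfl
        rw [Key.ev_hd_single, Key.ev_hd_single, Fin.prod_univ_two, Fin.prod_univ_one, hcΩ]
        simp only [Matrix.cons_val_zero, Matrix.cons_val_one, pow_zero, mul_one, mul_zero,
          Nat.choose_self, Nat.cast_one, Nat.sub_self]
  obtain ⟨g'', h2, h3⟩ := e2 g'
  have h4 : v.Ge (b + μ) (fn ψ a') := by
    rw [e1, h2, hψ N, h3, mW_two]
    simp only [Matrix.cons_val_zero, Matrix.cons_val_one, pow_zero, mul_one]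
    have h5 := hn (n + N) (fun _ => p ^ N * F) (fun _ => by
      rw [pow_add, mul_comm (p ^ n)]
      exact Nat.mul_lt_mul_of_pos_left hF (pow_pos hp.out.pos N)) g' b (by
        rw [← e1]
        exact hb')
    have h6 : v.Ge (F * (ρ / p ^ n)) (Mc n 0 ^ F) := by
      have h7 := ge_pow (RVal.ge_self (v := v) (Mc n 0)) F
      rwa [hM] at h7
    refine (h6.mul h5).mono (le_of_eq ?_)
    rw [Key.wt, Fin.sum_univ_one, hμ]
    push_cast
    rw [pow_add]
    have h8 : (p : ℝ) ^ N ≠ 0 := pow_ne_zero _ hp0.ne'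
    field_simp
    ring
  have h5 := (fn_near ψ (hQE ha) (hQE ha'Q) (h1.mono (le_max_right _ _))).add h4
  rwa [sub_add_cancel] at h5

omit hp [CharP Ω p] hcx in
/-- `EW v W x` is the closure of the polynomials in the roots of `x`. -/
theorem dns_ew {W : IntermediateField k Ω} {x : ℕ → Ω} (hp' : 0 < p)
    (hr : ∀ n, x (n + 1) ^ p = x n) (hx : x 0 ∈ W) :
    DnsS v (AU W (fun n (_ : Fin 1) => x n)) (EW v W x) := by
  intro y hy b
  obtain ⟨z, hz, h1⟩ := mem_clI.1 hy b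
  refine ⟨z, ?_, self_le_clI v _ hz, h1⟩
  refine AU.field (u := fun n (_ : Fin 1) => x n) (fun n _ => hr n) hp' (fun _ => hx) ?_
  refine (sup_le_sup_left ?_ W : _ ≤ _) hz
  rw [IntermediateField.adjoin_le_iff]
  rintro _ ⟨n, rfl⟩
  exact IntermediateField.subset_adjoin _ _ ⟨n, 0, rfl⟩

end Nsd

section At

variable {p : ℕ} [hp : Fact p.Prime] [CharP k p] [CharP Ω p] [PerfectRing k p] [IsAlgClosed Ω]
  [hcx : Fact (Ctx0 k v)] {x w : ℕ → Ω} {r s q : ℝ} {W C L : IntermediateField k Ω}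

omit [CharP k p] [PerfectRing k p] [IsAlgClosed Ω] in
/-- The gain on the field with the monomials. -/
theorem gain_pm {Q₀ C₀ P : IntermediateField k Ω} {G : AddSubgroup ℝ} {M : ℝ → Ω}
    (hM : TWS.MonG v Q₀ G M) (hQP : Q₀ ≤ P) {ψ : Opr v (TWS.PM v P G M)}
    (hlin : ∀ c ∈ TWS.PM v C₀ G M, ∀ y ∈ TWS.PM v P G M, fn ψ (c * y) = c * fn ψ y) {μ : ℝ}
    (h : ∀ a ∈ Q₀, ∀ b : ℝ, v.Ge b a → v.Ge (b + μ) (fn ψ a)) :
    ∀ a ∈ TWS.PM v Q₀ G M, ∀ b : ℝ, v.Ge b a → v.Ge (b + μ) (fn ψ a) := by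
  intro a ha b hb
  have hPM : ∀ y ∈ Q₀, y ∈ TWS.PM v P G M := fun y hy => TWS.PM.le (hQP hy)
  obtain ⟨N, hN, h1⟩ := TWS.dense_PM hM (Imm.refl Q₀) ha (max b (b + μ))
  have haE : a ∈ TWS.PM v P G M := TWS.PM.mono hQP ha
  have hNE : TWS.evM M N ∈ TWS.PM v P G M := by
    rw [TWS.evM]
    exact sum_mem fun g hg => mul_mem (hPM _ (hN.mem g))
      (TWS.PM.mon (hN.rep g (Finsupp.mem_support_iff.1 hg)).1)
  have hb' : v.Ge b (TWS.evM M N) := by
    have h2 := hb.sub (h1.mono (le_max_left _ _))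
    rwa [sub_sub_cancel] at h2
  have h2 : v.Ge (b + μ) (fn ψ (TWS.evM M N)) := by
    have h3 : fn ψ (TWS.evM M N) = ∑ g ∈ N.support, M g * fn ψ (N g) := by
      rw [TWS.evM, Finsupp.sum, fn_sum ψ _ _ fun g hg => mul_mem (hPM _ (hN.mem g))
        (TWS.PM.mon (hN.rep g (Finsupp.mem_support_iff.1 hg)).1)]
      refine Finset.sum_congr rfl fun g hg => ?_
      rw [mul_comm (N g)]
      exact hlin _ (TWS.PM.mon (hN.rep g (Finsupp.mem_support_iff.1 hg)).1) _ (hPM _ (hN.mem g))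
    rw [h3]
    refine RVal.Ge.sum _ _ fun g hg => ?_
    have hg0 := Finsupp.mem_support_iff.1 hg
    have hgG := (hN.rep g hg0).1
    have h4 := TWS.orth hM (Imm.refl Q₀) hN hb' g
    have h5 : v.Ge (b - g) (N g) := fun _ => by
      have h6 := h4 (mul_ne_zero hg0 (hM.ms.ne g hgG))
      rw [v.map_mul hg0 (hM.ms.ne g hgG), hM.ms.val g hgG] at h6
      linarith
    have h6 : v.Ge g (M g) := fun _ => (hM.ms.val g hgG).ge
    exact (h6.mul (h _ (hN.mem g) _ h5)).mono (by linarith)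
  have h3 := (fn_near ψ haE hNE (h1.mono (le_max_right _ _))).add h2
  rwa [sub_add_cancel] at h3

/-- **`V'` for a pair over any base `W`, positive slack**: `C = W<w>`, the jets of the polynomials
over `W` at the roots of `x` have norm `≤ F q / p ^ n`, `q < r`. -/
theorem nsdAt_slack (hc : CompleteV v) (hC : TP p v C x w r s) (hCe : C = cadj v W (w 0))
    (hx0W : x 0 ∈ W) (hRat : RatV v C (v (x 0))) (hdiv : ∀ g ∈ VG v C, g / p ∈ VG v C)
    (hWx : ∀ a ∈ EW v W x, ∃ b ∈ EW v W x, b ^ p = a)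
    (hn : NBX p v W x fun n F => F * q / p ^ n) (hqr : q < r) (L : IntermediateField k Ω) :
    NsdAt p v hc C L x w r s := by
  intro M Λ hMn hMP D
  have hx := hC.tgt.root
  have hw := hC.root
  have hx0C := hC.tgt.mem
  have hx0 : x 0 ≠ 0 := hC.x_ne
  have htop : ∀ g : ℝ, g ∈ (⊤ : AddSubgroup ℝ) := AddSubgroup.mem_top
  have hp0 : (0 : ℝ) < p := by exact_mod_cast hp.out.pos
  set γ := v (x 0) with hγ
  set G := GK p γ Λ with hG
  set Q₀ : IntermediateField k Ω := EW v W x with hQ₀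
  set P : IntermediateField k Ω := EW v (EW v C x) w with hP
  have hWC : W ≤ C := by
    rw [hCe]
    exact le_cadj v W (w 0)
  have hQP : Q₀ ≤ P := by
    refine (EW_le EW.cld (hWC.trans EW.le) fun n => EW.mem n : Q₀ ≤ EW v C x).trans ?_
    exact EW.le
  have hiP : Imm v C P := imm_pair hx hw hx0C hC.mem hdiv
  have hRQ : RatV v Q₀ γ := (hRat.imm hiP).mono hQP
  have hMQ' : MonG v Q₀ ⊤ M :=
    TWS.monG_top p hcx.out hMn.ms hMn.x0 EW.cld hWx (EW.le hx0W) hRQ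
  have hMQ : MonG v Q₀ G M := ⟨TWS.MS.mono hMn.ms le_top, fun g hg hgV => hMQ'.mem g trivial hgV⟩
  have hvalsQ : ∀ t : ℝ, ∃ e ∈ Q₀, e ≠ 0 ∧ ∃ g ∈ G, v e + g = t := by
    intro t
    obtain ⟨n, c, h1⟩ := exists_split p hMn.compl t
    refine ⟨x n ^ c, zpow_mem (EW.mem n) c, zpow_ne_zero c (root_ne hx hx0 n), _, h1, ?_⟩
    rw [v.map_zpow (root_ne hx hx0 n), val_root hx hx0 n]
    ring
  have hMQM : ∀ t : ℝ, M t ∈ PM v Q₀ G M := fun t =>
    bot_le_pm hMn.ms (fun g hg => hMQ'.mem g trivial hg) hvalsQ (PM.mon (htop t))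
  have hQE : PM v Q₀ G M ≤ PM v P G M := PM.mono hQP
  have hxQ : ∀ n, x n ∈ Q₀ := fun n => EW.mem n
  refine D.nsdW hc (B := PM v W G M) (Q := PM v Q₀ G M) (PM.mono hWC) PM.cld
    (pm_perf hMQ hWx hvalsQ) hQE (PM.mono EW.le) (fun n => PM.le (hxQ n))
    (fun n l => hMQM _) ?_ ?_ ?_
  · -- the polynomials in `x n`
    have h1 := dns_pm (G := G) (M := M) (u := fun n (_ : Fin 1) => x n) hp.out.pos
      (fun n _ => hx n) (C := W) (P := Q₀) (fun _ => hx0W) (v := v) (by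
        rw [hQ₀, EW]
        congr 2
        refine le_antisymm ?_ ?_
        · rw [IntermediateField.adjoin_le_iff]
          rintro _ ⟨n, rfl⟩
          exact IntermediateField.subset_adjoin _ _ ⟨n, 0, rfl⟩
        · rw [IntermediateField.adjoin_le_iff]
          rintro _ ⟨n, l, rfl⟩
          exact IntermediateField.subset_adjoin _ _ ⟨n, rfl⟩)
    exact h1
  · -- the polynomials in `w n`
    refine dns_all hw (fun ρ => ⟨M ρ, hMQM ρ, hMn.ms.ne ρ trivial, hMn.ms.val ρ trivial⟩) hQE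
      (fun n => PM.le (EW.mem n)) ?_
    refine PM.le_of EW.cld ?_ fun g _ => EW.le (hMQM g)
    refine EW_le EW.cld (EW_le EW.cld ?_ fun n => EW.le (PM.le (hxQ n))) fun n => EW.mem n
    rw [hCe]
    exact cadj_le EW.cld (EW.le.trans' (EW.le.trans PM.le)) (EW.mem 0)
  · -- the gain
    intro n F hF0 hF
    have hF' : (0 : ℝ) < F := by exact_mod_cast Nat.pos_of_ne_zero hF0
    refine ⟨F * (r - q) / p ^ n, div_pos (mul_pos hF' (by linarith)) (pow_pos hp0 n),
      fun ψ hψ => ?_⟩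
    refine gain_pm (C₀ := C) hMQ hQP (hψ.lin D.root D.CE D.dns) fun a ha b hb => ?_
    have h1 : DnsS v (AU W (fun n (_ : Fin 1) => x n)) Q₀ := dns_ew hp.out.pos hx hx0W
    have h2 : NBR p v W (fun n (_ : Fin 1) => x n) (fun _ => q) := nbr_of_nbx hn
    have h3 : v (M ((![r, s] : Fin 2 → ℝ) 0 / p ^ n)) = r / p ^ n := hMn.ms.val _ (htop _)
    have h4 := IsW.gain₀ (B := W) (Q := Q₀) (u := fun n => ![x n, w n])
      (Mc := fun n l => M ((![r, s] : Fin 2 → ℝ) l / p ^ n)) (q := q) (ρ := r) D.root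
      (hWC.trans PM.le) (hQP.trans PM.le) h1 h2 hF hψ h3 ha hb
    exact h4

end At

end Pool.Agent.TWC
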