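import Pool.Agent.Lib.TWC.PairW
import Pool.Agent.Lib.TWC.Int

/-!
# TANK W, class C: tight pairs over a field `W` of tame type

`W` closed, `x 0 ∈ W`, the values `c v (x 0) / p ^ n`, `p ^ n ∤ c`, are not values of `W` (for example
`W` is the closure of `k(x ^ (1 / n))`, `n` in a set of integers prime to `p`), the roots of order `p`
of the elements of `W` are polynomials in `x 1` over `W`; `x` tight in `C`, `W ≤ C`, of level
`r > v (x 0)`.

* `nbx_of_vg`: the jets of order `F / p ^ n` on `W(x n)` have norm at most `F v (x 0) / p ^ n`;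
* `ort_coeff`: the powers of `x n` are orthogonal over `W`;
* `letter_ge`: the letters of the elements of `C`;
* `exists_pairT'`: if `y ∈ C` is of transcendental type over the closure `E` of `W(x 0, x 1, ..)`,
  and `C E = E<y>`, then `y - n`, `n ∈ W`, is the second element of a tight pair of `C`, and
  `C = W<y - n>`.
-/

set_option autoImplicit false

open Polynomial

namespace Pool.Agent.TWC

open Pool.Agent.H15JM (RVal)
open Pool.Agent.LU1 (adj)
open Pool.Agent.D2 (Ctx0)
open Pool.Agent.D2P (clI mem_clI)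
open Pool.Agent.TWM Pool.Agent.TWM.C
open Pool.Agent.TWS (VG)

universe u

variable {k Ω : Type u} [Field k] [Field Ω] [Algebra k Ω] {v : RVal Ω}
  {C₀ W : IntermediateField k Ω} {p : ℕ} [hp : Fact p.Prime] [CharP Ω p]
  {x : ℕ → Ω} {r s : ℝ}

/-- The norm of the jets. -/
theorem nbx_of_vg [CharP k p] [IsAlgClosed Ω] (h0 : Ctx0 k v) (hc : CompleteV v)
    (hW : Cld v W) (hr : ∀ n, x (n + 1) ^ p = x n) (hx : x 0 ≠ 0) (hx0 : x 0 ∈ W)
    (hV : v (x 0) / p ∉ VG v W) : NBX p v W x fun n F => F * v (x 0) / p ^ n := by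
  have hp0 : (0 : ℝ) < p := by exact_mod_cast hp.out.pos
  have hS : SND p v W x fun n => v (x 0) / p ^ n :=
    { cld := hW
      mem := hx0
      root := hr
      far := by
        rintro n ⟨a, ha, h1⟩
        have hxn : x (n + 1) ≠ 0 := root_ne_zero hr hx (n + 1)
        have hvn : v (x (n + 1)) = v (x 0) / p ^ (n + 1) := val_rt hr hx (n + 1)
        obtain ⟨ha0, hva⟩ := Gt.val_eq hxn (by rw [hvn]; exact h1)
        refine hV ⟨a ^ p ^ n, pow_mem_of_adj hr hx0 n ha, pow_ne_zero _ ha0, ?_⟩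
        rw [v.map_pow ha0, hva, hvn]
        push_cast
        field_simp
        rw [pow_succ]
        ring
      near := fun n ε hε => ⟨0, zero_mem _, by
        rw [sub_zero]
        intro _
        rw [val_rt hr hx (n + 1)]
        change v (x 0) / p ^ (n + 1) - ε ≤ _
        linarith⟩ }
  exact hS.nbx' p h0 hc (r := v (x 0)) (by rw [pow_one, mul_div_cancel₀ _ hp0.ne'])

/-- **The powers of `x n` are orthogonal over `W`.** -/
theorem ort_coeff (h0 : ∀ n : ℕ, v.Ge 0 (n : Ω)) (hr : ∀ n, x (n + 1) ^ p = x n) (hx : x 0 ≠ 0)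
    (hN : NBX p v W x fun n F => F * v (x 0) / p ^ n) {n : ℕ} {P : Polynomial Ω} (hP : P ∈ PI W)
    (hd : P.natDegree < p ^ n) {b : ℝ} (hb : v.Ge b (P.eval (x n))) (c : ℕ) :
    v.Ge (b - c * (v (x 0) / p ^ n)) (P.coeff c) := by
  set T := taylor (x n) P with hT
  have hTd : T.natDegree < p ^ n := by rwa [hT, natDegree_taylor]
  have e1 : P.coeff c = (hasseDeriv c T).eval (-x n) := by
    rw [← taylor_coeff, hT, taylor_taylor, neg_add_cancel, taylor_zero]
  have h1 : (hasseDeriv c T).natDegree < p ^ n :=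
    ((natDegree_hasseDeriv_le T c).trans (Nat.sub_le _ _)).trans_lt hTd
  rw [e1, eval_eq_sum_range' h1]
  refine RVal.Ge.sum _ _ fun F _ => ?_
  rw [hasseDeriv_coeff]
  by_cases hF : F + c < p ^ n
  · have h2 := hN.nb n P hP (F + c) hF b hb
    have h3 : v.Ge (v (x 0) / p ^ n) (-x n) := by
      refine RVal.Ge.neg ?_
      rw [← val_rt hr hx n]
      exact v.ge_self _
    refine (((h0 _).mul h2).mul (ge_pow h3 F)).mono (le_of_eq ?_)
    push_cast
    ring
  · rw [coeff_eq_zero_of_natDegree_lt (hTd.trans_le (not_lt.1 hF)), mul_zero, zero_mul]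
    exact RVal.Ge.zero

/-- **The letters of the elements of `C`.** -/
theorem letter_ge [CharP k p] [IsAlgClosed Ω] (h0 : Ctx0 k v) (hc : CompleteV v)
    (hT : Tgt p v C₀ x r) (hx : x 0 ≠ 0) (hWC : W ≤ C₀)
    (hN : NBX p v W x fun n F => F * v (x 0) / p ^ n) {y : Ω} (hy : y ∈ C₀) {N : ℕ}
    {P : Polynomial Ω} (hP : P ∈ PI W) (hd : P.natDegree < p ^ N) {β : ℝ}
    (hβ : v.Ge β (y - P.eval (x N))) {a c : ℕ} (ha : a < N) (hpc : ¬ p ∣ c) :
    v.Ge (β - (r - v (x 0)) / p ^ (N - a)) (P.coeff (p ^ a * c) * x N ^ (p ^ a * c)) := by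
  have hp0 : (0 : ℝ) < p := by exact_mod_cast hp.out.pos
  have hpN : (0 : ℝ) < (p : ℝ) ^ N := pow_pos hp0 N
  have hc0 : c ≠ 0 := fun h => hpc (h ▸ dvd_zero p)
  have hnat : ∀ n : ℕ, v.Ge 0 (n : Ω) := fun n => by
    have := h0.ge (n : k)
    rwa [map_natCast] at this
  have hNC := hT.snd.nbx' p h0 hc (r := r) (by rw [pow_one, mul_div_cancel₀ _ hp0.ne'])
  have hR : C y - P ∈ PI C₀ := sub_mem (C_mem_PI hy) (PI_mono hWC hP)
  have haN : p ^ a < p ^ N := Nat.pow_lt_pow_right hp.out.one_lt ha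
  have h1 := hNC.nb N _ hR (p ^ a) haN β (by rw [eval_sub, eval_C]; exact hβ)
  have e1 : (taylor (x N) (C y - P)).coeff (p ^ a) = -(hasseDeriv (p ^ a) P).eval (x N) := by
    have h2 : p ^ a ≠ 0 := pow_ne_zero _ hp.out.ne_zero
    rw [taylor_coeff, map_sub, hasseDeriv_C _ _ (Nat.pos_of_ne_zero h2), zero_sub, eval_neg]
  rw [e1] at h1
  have h2 := h1.neg
  rw [neg_neg] at h2
  have h3 : hasseDeriv (p ^ a) P ∈ PI W := fun i => by
    rw [hasseDeriv_coeff]
    exact mul_mem (natCast_mem W _) (hP _)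
  have h4 : (hasseDeriv (p ^ a) P).natDegree < p ^ N :=
    ((natDegree_hasseDeriv_le P _).trans (Nat.sub_le _ _)).trans_lt hd
  have h5 := ort_coeff hnat hT.root hx hN h3 h4 h2 (p ^ a * c - p ^ a)
  have hle : p ^ a ≤ p ^ a * c := Nat.le_mul_of_pos_right _ (Nat.pos_of_ne_zero hc0)
  rw [hasseDeriv_coeff, Nat.sub_add_cancel hle] at h5
  have h6 : ((((p ^ a * c).choose (p ^ a) : ℕ) : k)) ≠ 0 := by
    rw [choose_pow_cast (R := k) (p := p), Nat.mul_div_cancel_left _ (pow_pos hp.out.pos a)]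
    rwa [Ne, CharP.cast_eq_zero_iff k p]
  have h7 : v.Ge 0 ((((p ^ a * c).choose (p ^ a) : ℕ) : Ω)⁻¹) := by
    have := h0.ge (((((p ^ a * c).choose (p ^ a) : ℕ) : k))⁻¹)
    rwa [map_inv₀, map_natCast] at this
  have h8 : ((((p ^ a * c).choose (p ^ a) : ℕ) : Ω)) ≠ 0 := by
    have := (_root_.map_ne_zero (algebraMap k Ω)).2 h6
    rwa [map_natCast] at this
  have h9 := (h7.mul h5).mul (v.ge_self (x N ^ (p ^ a * c)))
  have e2 : (((p ^ a * c).choose (p ^ a) : ℕ) : Ω)⁻¹ *
      ((((p ^ a * c).choose (p ^ a) : ℕ) : Ω) * P.coeff (p ^ a * c)) * x N ^ (p ^ a * c) =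
      P.coeff (p ^ a * c) * x N ^ (p ^ a * c) := by
    rw [inv_mul_cancel_left₀ h8]
  rw [e2, v.map_pow (root_ne_zero hT.root hx N), val_rt hT.root hx N] at h9
  refine h9.mono (le_of_eq ?_)
  have h10 : (p : ℝ) ^ N = p ^ a * p ^ (N - a) := by rw [← pow_add, Nat.add_sub_cancel' ha.le]
  rw [Nat.cast_sub hle]
  push_cast
  rw [h10]
  field_simp
  ring

/-- Sums of limits. -/
theorem Lim.add_r {A : IntermediateField k Ω} {a b : Ω} {ρ : ℝ} (ha : Lim v A ρ a)
    (hb : Lim v A ρ b) : Lim v A ρ (a + b) := by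
  intro ε hε
  obtain ⟨c, hc, h1⟩ := ha ε hε
  obtain ⟨d, hd, h2⟩ := hb ε hε
  refine ⟨c + d, add_mem hc hd, ?_⟩
  have e : a + b - (c + d) = (a - c) + (b - d) := by ring
  rw [e]
  exact h1.add h2

theorem Lim.sum_r {A : IntermediateField k Ω} {ι : Type*} (S : Finset ι) (f : ι → Ω) {ρ : ℝ}
    (h : ∀ i ∈ S, Lim v A ρ (f i)) : Lim v A ρ (∑ i ∈ S, f i) := by
  classical
  induction S using Finset.induction_on with
  | empty =>
    intro ε _
    refine ⟨0, zero_mem _, ?_⟩
    rw [Finset.sum_empty, sub_zero]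
    exact RVal.Ge.zero
  | insert i S hi ih =>
    rw [Finset.sum_insert hi]
    exact Lim.add_r (h i (Finset.mem_insert_self i S))
      (ih fun j hj => h j (Finset.mem_insert_of_mem hj))

theorem Lim.weak {A : IntermediateField k Ω} {a : Ω} {ρ ρ' : ℝ} (ha : Lim v A ρ a)
    (h : ρ' ≤ ρ) : Lim v A ρ' a := fun ε hε => by
  obtain ⟨c, hc, h1⟩ := ha ε hε
  exact ⟨c, hc, h1.mono (by linarith)⟩

/-- **The tight pair over `W`**, letters of all heights. -/
theorem exists_pairWt [CharP k p] [IsAlgClosed Ω] (h0 : Ctx0 k v) (hc : CompleteV v)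
    (hT : Tgt p v C₀ x r) (hx : x 0 ≠ 0) (hvr : v (x 0) < r) (hWC : W ≤ C₀) (hx0 : x 0 ∈ W)
    (hW : ∀ a ∈ W, ∃ Q ∈ PI W, (Q.eval (x 1)) ^ p = a)
    (hN : NBX p v W x fun n F => F * v (x 0) / p ^ n) {y : Ω} (hy : y ∈ C₀)
    (hTL : TL v (EW v W x) y s) (hE : EW v C₀ x = cadj v (EW v W x) y) :
    ∃ u : ℕ → Ω, y - u 0 ∈ W ∧ TP p v C₀ x u r s ∧ TL v (EW v W x) (u 0) s ∧
      EW v C₀ x = cadj v (EW v W x) (u 0) ∧ C₀ = cadj v W (u 0) := by
  classical
  have hp0 : (0 : ℝ) < p := by exact_mod_cast hp.out.pos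
  have hb : 0 < r - v (x 0) := by linarith
  have hnat : ∀ n : ℕ, v.Ge 0 (n : Ω) := fun n => by
    have := h0.ge (n : k)
    rwa [map_natCast] at this
  -- approximations of `y`
  have happ : ∀ δ : ℝ, 0 < δ → ∃ (N : ℕ) (P : Polynomial Ω), P ∈ PI W ∧ P.natDegree < p ^ N ∧
      v.Ge (s - δ) (y - P.eval (x N)) := by
    intro δ hδ
    obtain ⟨e, he, h1⟩ := hTL.lim δ hδ
    obtain ⟨z, ⟨N, P, hP, rfl⟩, h2⟩ := AX.dense hT.root hp.out.pos hx0 e he (s - δ)
    obtain ⟨Q, hQ, hQd, hQe⟩ := exists_red hT.root hx0 N hP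
    refine ⟨N, Q, hQ, hQd, ?_⟩
    have e1 : y - Q.eval (x N) = (y - e) + (e - P.eval (x N)) := by
      rw [hQe]
      ring
    rw [e1]
    exact h1.add h2.2
  obtain ⟨N₀, P₀, hP₀, hd₀, h1⟩ := happ (r - v (x 0)) hb
  set n₀ := P₀.coeff 0 with hn₀def
  have hn₀ : n₀ ∈ W := hP₀ 0
  obtain ⟨u, hu0, hu⟩ := exists_rts p (y - n₀)
  have hn₀E : n₀ ∈ EW v W x := EW.le hn₀
  have hu0C : u 0 ∈ C₀ := by
    rw [hu0]
    exact sub_mem hy (hWC hn₀)
  have hTL' : TL v (EW v W x) (u 0) s := by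
    rw [hu0]
    exact hTL.sub_mem hn₀E
  have hE' : EW v C₀ x = cadj v (EW v W x) (u 0) := by
    rw [hE, hu0, cadj_sub_mem hn₀E]
  -- the limits
  have key : ∀ (n : ℕ) (δ : ℝ), 0 < δ → δ ≤ r - v (x 0) → Lim v C₀ ((s - δ) / p ^ n) (u n) := by
    intro n δ hδ hδ1
    have hpn : (0 : ℝ) < (p : ℝ) ^ n := pow_pos hp0 n
    obtain ⟨N, P, hP, hd, h2⟩ := happ δ hδ
    -- the coefficient of order zero
    have h3 : v.Ge (s - (r - v (x 0))) (P.coeff 0 - n₀) := by
      set R := expand Ω (p ^ N₀) P - expand Ω (p ^ N) P₀ with hR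
      have hRP : R ∈ PI W := sub_mem (expand_mem_PI (pow_pos hp.out.pos _) hP)
        (expand_mem_PI (pow_pos hp.out.pos _) hP₀)
      have hRe : R.eval (x (N + N₀)) = P.eval (x N) - P₀.eval (x N₀) := by
        rw [hR, eval_sub, ax_lift hT.root, show N + N₀ = N₀ + N by omega, ax_lift hT.root]
      have hRd : R.natDegree < p ^ (N + N₀) := by
        refine (natDegree_sub_le _ _).trans_lt (max_lt ?_ ?_)
        · rw [natDegree_expand, pow_add]
          exact Nat.mul_lt_mul_of_pos_right hd (pow_pos hp.out.pos _)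
        · rw [natDegree_expand, show N + N₀ = N₀ + N by omega, pow_add]
          exact Nat.mul_lt_mul_of_pos_right hd₀ (pow_pos hp.out.pos _)
      have h4 : v.Ge (s - (r - v (x 0))) (R.eval (x (N + N₀))) := by
        rw [hRe]
        have e : P.eval (x N) - P₀.eval (x N₀) =
            (y - P₀.eval (x N₀)) - (y - P.eval (x N)) := by ring
        rw [e]
        exact h1.sub (h2.mono (by linarith))
      have h5 := ort_coeff hnat hT.root hx hN hRP hRd h4 0
      rw [Nat.cast_zero, zero_mul, sub_zero] at h5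
      have h6 : R.coeff 0 = P.coeff 0 - n₀ := by
        rw [hR, coeff_sub, coeff_expand (pow_pos hp.out.pos _), coeff_expand (pow_pos hp.out.pos _),
          if_pos (dvd_zero _), if_pos (dvd_zero _), Nat.zero_div, Nat.zero_div]
      rwa [h6] at h5
    -- the roots of the coefficients
    have hq : ∀ c : ℕ, (if c = 0 then P.coeff 0 - n₀ else P.coeff c) ∈ W := fun c => by
      split_ifs
      · exact sub_mem (hP 0) hn₀
      · exact hP c
    choose Q hQ hQe using fun c => rts_poly hT.root hW n _ (hq c)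
    have hxx : x (N + n) ^ p ^ n = x N := root_pow_add hT.root N n
    have hterm : ∀ c, ((Q c).eval (x n) * x (N + n) ^ c) ^ p ^ n =
        (if c = 0 then P.coeff 0 - n₀ else P.coeff c) * x N ^ c := fun c => by
      rw [mul_pow, hQe, ← pow_mul, mul_comm c, pow_mul, hxx]
    set z := ∑ c ∈ Finset.range (p ^ N), (Q c).eval (x n) * x (N + n) ^ c with hz
    have hzp : z ^ p ^ n = P.eval (x N) - n₀ := by
      rw [hz, sum_pow_char_pow, Finset.sum_congr rfl fun c _ => hterm c]
      have h4 : P.eval (x N) = ∑ c ∈ Finset.range (p ^ N), P.coeff c * x N ^ c :=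
        eval_eq_sum_range' hd _
      obtain ⟨q, hq1⟩ : ∃ q, p ^ N = q + 1 := ⟨p ^ N - 1, by
        have := pow_pos hp.out.pos N
        omega⟩
      rw [h4, hq1, Finset.sum_range_succ', Finset.sum_range_succ' (fun c => P.coeff c * x N ^ c)]
      have h5 : ∀ i ∈ Finset.range q, (if i + 1 = 0 then P.coeff 0 - n₀ else P.coeff (i + 1)) *
          x N ^ (i + 1) = P.coeff (i + 1) * x N ^ (i + 1) := fun i _ => by
        rw [if_neg (Nat.succ_ne_zero i)]
      rw [Finset.sum_congr rfl h5, if_pos rfl, pow_zero]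
      ring
    have hun : u n ^ p ^ n = u 0 := by
      have := root_pow_add hu 0 n
      rwa [zero_add] at this
    have h4 : v.Ge ((s - δ) / p ^ n) (u n - z) := by
      refine (ge_pow_iff (v := v) (pow_pos hp.out.pos n)).1 ?_
      rw [sub_pow_char_pow, hun, hzp, hu0]
      push_cast
      rw [mul_div_cancel₀ _ hpn.ne']
      have e : y - n₀ - (P.eval (x N) - n₀) = y - P.eval (x N) := by ring
      rw [e]
      exact h2
    -- every term is near `C`
    have h5 : Lim v C₀ ((s - δ) / p ^ n) z := by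
      refine Lim.sum_r _ _ fun c hcr => ?_
      have hcN := Finset.mem_range.1 hcr
      rcases Nat.eq_zero_or_pos c with rfl | hc0
      · have h6 : v.Ge ((s - (r - v (x 0))) / p ^ n) ((Q 0).eval (x n)) := by
          refine (ge_pow_iff (v := v) (pow_pos hp.out.pos n)).1 ?_
          rw [hQe 0, if_pos rfl]
          push_cast
          rw [mul_div_cancel₀ _ hpn.ne']
          exact h3
        rw [pow_zero, mul_one]
        refine Lim.weak (lim_poly hT hWC hx0 hN hvr.le (hQ 0) n h6) ?_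
        rw [← add_div]
        refine div_le_div_of_nonneg_right ?_ hpn.le
        linarith
      · obtain ⟨a, c', hpc, hcc⟩ := Nat.exists_eq_pow_mul_and_not_dvd hc0.ne' p hp.out.ne_one
        have ha : a < N := by
          by_contra hno
          have h7 : p ^ N ≤ p ^ a := Nat.pow_le_pow_right hp.out.pos (not_lt.1 hno)
          have hc'0 : 0 < c' := Nat.pos_of_ne_zero fun h => hpc (h ▸ dvd_zero p)
          have h8 : p ^ a ≤ c := by
            rw [hcc]
            exact Nat.le_mul_of_pos_right _ hc'0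
          omega
        have hpNa : (0 : ℝ) < (p : ℝ) ^ (N - a) := pow_pos hp0 _
        have h6 := letter_ge h0 hc hT hx hWC hN hy hP hd h2 ha hpc
        rw [← hcc] at h6
        have h7 : v.Ge ((s - δ - (r - v (x 0)) / p ^ (N - a)) / p ^ n)
            ((Q c).eval (x n) * x (N + n) ^ c) := by
          refine (ge_pow_iff (v := v) (pow_pos hp.out.pos n)).1 ?_
          rw [hterm, if_neg hc0.ne']
          push_cast
          rw [mul_div_cancel₀ _ hpn.ne']
          exact h6
        have h8 : (Q c).eval (x n) * x (N + n) ^ c =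
            (expand Ω (p ^ (N - a)) (Q c) * X ^ c').eval (x (n + (N - a))) := by
          have h9 := root_pow_add hT.root (n + (N - a)) a
          rw [show n + (N - a) + a = N + n by omega] at h9
          rw [eval_mul, ax_lift hT.root, eval_pow, eval_X, hcc, pow_mul, h9]
        rw [h8] at h7 ⊢
        have h9 : expand Ω (p ^ (N - a)) (Q c) * X ^ c' ∈ PI W :=
          mul_mem (expand_mem_PI (pow_pos hp.out.pos _) (hQ c)) (pow_mem X_mem_PI _)
        refine Lim.weak (lim_poly hT hWC hx0 hN hvr.le h9 _ h7) (le_of_eq ?_)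
        rw [pow_add]
        field_simp
        ring
    have e : u n = z + (u n - z) := by ring
    rw [e]
    refine Lim.add_r h5 fun ε hε => ⟨0, zero_mem _, ?_⟩
    rw [sub_zero]
    exact h4.mono (by linarith)
  have hTP : TP p v C₀ x u r s :=
    { tgt := hT
      mem := hu0C
      root := hu
      far := by
        rintro ⟨a, ha, h2⟩
        rw [hE'] at ha
        refine not_root_ge hTL' ha ?_
        have e : a ^ p - u 0 = -(u 1 - a) ^ p := by
          have h3 := hu 0
          rw [zero_add] at h3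
          rw [sub_pow_char, h3]
          ring
        rw [e]
        refine ((ge_pow h2.ge p).mono (le_of_eq ?_)).neg
        rw [mul_div_cancel₀ _ hp0.ne']
      lim := fun n ε hε => by
        have hpn : (0 : ℝ) < (p : ℝ) ^ n := pow_pos hp0 n
        obtain ⟨δ, hδ, hδ1, hδ2⟩ : ∃ δ : ℝ, 0 < δ ∧ δ ≤ ε / 2 ∧ δ ≤ r - v (x 0) :=
          ⟨min (ε / 2) (r - v (x 0)), lt_min (by linarith) hb, min_le_left _ _, min_le_right _ _⟩
        obtain ⟨a, ha, h2⟩ := key n δ hδ hδ2 (ε / 2) (by linarith)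
        refine ⟨a, ha, h2.mono ?_⟩
        rw [sub_div]
        have h9 : δ / p ^ n ≤ ε / 2 := by
          refine (div_le_self hδ.le ?_).trans hδ1
          exact one_le_pow₀ (by exact_mod_cast hp.out.one_lt.le)
        linarith }
  refine ⟨u, ?_, hTP, hTL', hE', ?_⟩
  · rw [hu0, sub_sub_cancel]
    exact hn₀
  · refine hT.eq_of_ew h0 hc hx hvr (cld_cadj v _ _)
      (TWM.cadj_le hT.cld hWC hu0C) (le_cadj v _ _ hx0) ?_
    refine (EW.le : C₀ ≤ EW v C₀ x).trans ?_
    rw [hE', EW.cadj]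

end Pool.Agent.TWC
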