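import Pool.Agent.Lib.TWC.PairWt

/-!
# TANK W, class C: tight pairs over a field `W` in which `x` is tight, positive slack

`x` tight in `W`, of level `q`, and in `C`, of level `r > q`, `W ≤ C`, the roots of order `p` of the
elements of `W` are polynomials in `x 1` over `W`. No condition on the values of `W`.

* `ort_near`: the powers of `x n - η`, `η ∈ W` near to `x n`, are almost orthogonal over `W`;
* `letter_near`: the letters of the elements of `C`;
* `center_near`: change of the center;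
* **`exists_pairS`**: if `y ∈ C` is of transcendental type over the closure `E` of `W(x 0, x 1, ..)`,
  and `C E = E<y>`, then `y - n`, `n ∈ W`, is the second element of a tight pair of `C`, and
  `C = W<y - n>`.
-/

set_option autoImplicit false

open Polynomial

namespace Pool.Agent.TWC

open Pool.Agent.H15JM (RVal)
open Pool.Agent.LU1 (adj)
open Pool.Agent.D2 (Ctx0)
open Pool.Agent.D2P (clI mem_clI)
open Pool.Agent.TWM Pool.Agent.TWM.C
open Pool.Agent.TWS (VG)

universe u

variable {k Ω : Type u} [Field k] [Field Ω] [Algebra k Ω] {v : RVal Ω}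
  {C₀ W : IntermediateField k Ω} {p : ℕ} [hp : Fact p.Prime] [CharP Ω p]
  {x : ℕ → Ω} {r s q : ℝ}

/-- **The powers of `x n - η` are almost orthogonal over `W`.** -/
theorem ort_near (h0 : ∀ n : ℕ, v.Ge 0 (n : Ω))
    (hN : NBX p v W x fun n F => F * q / p ^ n) {n : ℕ} {P : Polynomial Ω} (hP : P ∈ PI W)
    (hd : P.natDegree < p ^ n) {b : ℝ} (hb : v.Ge b (P.eval (x n))) {η : Ω} {ε : ℝ} (hε : 0 ≤ ε)
    (hη : v.Ge (q / p ^ n - ε) (x n - η)) (c : ℕ) :
    v.Ge (b - c * q / p ^ n - p ^ n * ε) ((taylor η P).coeff c) := by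
  set T := taylor (x n) P with hT
  have hTd : T.natDegree < p ^ n := by rwa [hT, natDegree_taylor]
  have e1 : (taylor η P).coeff c = (hasseDeriv c T).eval (η - x n) := by
    rw [← taylor_coeff, hT, taylor_taylor, sub_add_cancel]
  have h1 : (hasseDeriv c T).natDegree < p ^ n :=
    ((natDegree_hasseDeriv_le T c).trans (Nat.sub_le _ _)).trans_lt hTd
  rw [e1, eval_eq_sum_range' h1]
  refine RVal.Ge.sum _ _ fun F _ => ?_
  rw [hasseDeriv_coeff]
  by_cases hF : F + c < p ^ n
  · have h2 := hN.nb n P hP (F + c) hF b hb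
    have h3 : v.Ge (q / p ^ n - ε) (η - x n) := by
      have := hη.neg
      rwa [neg_sub] at this
    refine (((h0 _).mul h2).mul (ge_pow h3 F)).mono ?_
    have h4 : (F : ℝ) ≤ (p : ℝ) ^ n := by
      have : F ≤ p ^ n := by omega
      exact_mod_cast this
    have h5 : (F : ℝ) * ε ≤ p ^ n * ε := mul_le_mul_of_nonneg_right h4 hε
    push_cast
    have e2 : 0 + (b - ((F : ℝ) + c) * q / p ^ n) + F * (q / p ^ n - ε) =
        b - c * q / p ^ n - F * ε := by ring
    rw [e2]
    linarith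
  · rw [coeff_eq_zero_of_natDegree_lt (hTd.trans_le (not_lt.1 hF)), mul_zero, zero_mul]
    exact RVal.Ge.zero

/-- **The letters of the elements of `C`.** -/
theorem letter_near [CharP k p] [IsAlgClosed Ω] (h0 : Ctx0 k v) (hc : CompleteV v)
    (hT : Tgt p v C₀ x r) (hWC : W ≤ C₀) (hN : NBX p v W x fun n F => F * q / p ^ n) {y : Ω}
    (hy : y ∈ C₀) {N : ℕ} {P : Polynomial Ω} (hP : P ∈ PI W) (hd : P.natDegree < p ^ N) {β : ℝ}
    (hβ : v.Ge β (y - P.eval (x N))) {η : Ω} {ε : ℝ} (hε : 0 ≤ ε)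
    (hη : v.Ge (q / p ^ N - ε) (x N - η)) {a c : ℕ} (ha : a < N) (hpc : ¬ p ∣ c) :
    v.Ge (β - (r - q) / p ^ (N - a) - ((p ^ a * c : ℕ) : ℝ) * q / p ^ N - p ^ N * ε)
      ((taylor η P).coeff (p ^ a * c)) := by
  have hp0 : (0 : ℝ) < p := by exact_mod_cast hp.out.pos
  have hpN : (0 : ℝ) < (p : ℝ) ^ N := pow_pos hp0 N
  have hc0 : c ≠ 0 := fun h => hpc (h ▸ dvd_zero p)
  have hnat : ∀ n : ℕ, v.Ge 0 (n : Ω) := fun n => by
    have := h0.ge (n : k)
    rwa [map_natCast] at this
  have hNC := hT.snd.nbx' p h0 hc (r := r) (by rw [pow_one, mul_div_cancel₀ _ hp0.ne'])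
  have hR : C y - P ∈ PI C₀ := sub_mem (C_mem_PI hy) (PI_mono hWC hP)
  have haN : p ^ a < p ^ N := Nat.pow_lt_pow_right hp.out.one_lt ha
  have h1 := hNC.nb N _ hR (p ^ a) haN β (by rw [eval_sub, eval_C]; exact hβ)
  have e1 : (taylor (x N) (C y - P)).coeff (p ^ a) = -(hasseDeriv (p ^ a) P).eval (x N) := by
    have h2 : p ^ a ≠ 0 := pow_ne_zero _ hp.out.ne_zero
    rw [taylor_coeff, map_sub, hasseDeriv_C _ _ (Nat.pos_of_ne_zero h2), zero_sub, eval_neg]
  rw [e1] at h1
  have h2 := h1.neg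
  rw [neg_neg] at h2
  have h3 : hasseDeriv (p ^ a) P ∈ PI W := fun i => by
    rw [hasseDeriv_coeff]
    exact mul_mem (natCast_mem W _) (hP _)
  have h4 : (hasseDeriv (p ^ a) P).natDegree < p ^ N :=
    ((natDegree_hasseDeriv_le P _).trans (Nat.sub_le _ _)).trans_lt hd
  have h5 := ort_near hnat hN h3 h4 h2 hε hη (p ^ a * c - p ^ a)
  have hle : p ^ a ≤ p ^ a * c := Nat.le_mul_of_pos_right _ (Nat.pos_of_ne_zero hc0)
  have e2 : (taylor η (hasseDeriv (p ^ a) P)).coeff (p ^ a * c - p ^ a) =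
      (((p ^ a * c).choose (p ^ a) : ℕ) : Ω) * (taylor η P).coeff (p ^ a * c) := by
    rw [taylor_coeff, taylor_coeff]
    have h6 := congrArg (fun f => f P) (hasseDeriv_comp (R := Ω) (p ^ a * c - p ^ a) (p ^ a))
    simp only [LinearMap.comp_apply] at h6
    rw [h6, Nat.sub_add_cancel hle, LinearMap.smul_apply, eval_smul, nsmul_eq_mul,
      Nat.choose_symm_of_eq_add (Nat.sub_add_cancel hle).symm]
  rw [e2] at h5
  have h6 : ((((p ^ a * c).choose (p ^ a) : ℕ) : k)) ≠ 0 := by
    rw [choose_pow_cast (R := k) (p := p), Nat.mul_div_cancel_left _ (pow_pos hp.out.pos a)]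
    rwa [Ne, CharP.cast_eq_zero_iff k p]
  have h7 : v.Ge 0 ((((p ^ a * c).choose (p ^ a) : ℕ) : Ω)⁻¹) := by
    have := h0.ge (((((p ^ a * c).choose (p ^ a) : ℕ) : k))⁻¹)
    rwa [map_inv₀, map_natCast] at this
  have h8 : ((((p ^ a * c).choose (p ^ a) : ℕ) : Ω)) ≠ 0 := by
    have := (_root_.map_ne_zero (algebraMap k Ω)).2 h6
    rwa [map_natCast] at this
  have h9 := h7.mul h5
  rw [inv_mul_cancel_left₀ h8] at h9
  refine h9.mono (le_of_eq ?_)
  have h10 : (p : ℝ) ^ N = p ^ a * p ^ (N - a) := by rw [← pow_add, Nat.add_sub_cancel' ha.le]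
  rw [Nat.cast_sub hle]
  push_cast
  rw [h10]
  field_simp
  ring

/-- **Change of the center.** -/
theorem center_near [CharP k p] [IsAlgClosed Ω] (h0 : Ctx0 k v) (hc : CompleteV v)
    (hT : Tgt p v C₀ x r) (hWC : W ≤ C₀) (hN : NBX p v W x fun n F => F * q / p ^ n)
    (hqr : q ≤ r) {y : Ω} (hy : y ∈ C₀) {N : ℕ} {P : Polynomial Ω} (hP : P ∈ PI W)
    (hd : P.natDegree < p ^ N) {β : ℝ} (hβ : v.Ge β (y - P.eval (x N))) {η η' : Ω} {ε : ℝ}
    (hε : 0 ≤ ε) (hη : v.Ge (q / p ^ N - ε) (x N - η)) (hη' : v.Ge (q / p ^ N - ε) (x N - η')) :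
    v.Ge (β - (r - q) / 2 - 2 * (p ^ N * ε)) (P.eval η' - P.eval η) := by
  have hp0 : (0 : ℝ) < p := by exact_mod_cast hp.out.pos
  have hpN : (0 : ℝ) < (p : ℝ) ^ N := pow_pos hp0 N
  obtain ⟨M, hM⟩ : ∃ M, p ^ N = M + 1 := ⟨p ^ N - 1, by
    have := pow_pos hp.out.pos N
    omega⟩
  have e1 : P.eval η' = ∑ F ∈ Finset.range (p ^ N), (taylor η P).coeff F * (η' - η) ^ F := by
    have e2 : (taylor η P).eval (η' - η) = P.eval η' := by
      rw [taylor_eval, sub_add_cancel]
    rw [← e2, eval_eq_sum_range' (by rwa [natDegree_taylor])]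
  rw [e1, hM, Finset.sum_range_succ', pow_zero, mul_one, taylor_coeff_zero, add_sub_cancel_right]
  refine RVal.Ge.sum _ _ fun F hF => ?_
  have hF' : F + 1 < p ^ N := by
    have := Finset.mem_range.1 hF
    omega
  obtain ⟨a, c, hpc, hcc⟩ := Nat.exists_eq_pow_mul_and_not_dvd (Nat.succ_ne_zero F) p
    hp.out.ne_one
  rw [Nat.succ_eq_add_one] at hcc
  have ha : a < N := by
    by_contra hno
    have h7 : p ^ N ≤ p ^ a := Nat.pow_le_pow_right hp.out.pos (not_lt.1 hno)
    have hc0 : 0 < c := Nat.pos_of_ne_zero fun h => hpc (h ▸ dvd_zero p)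
    have h8 : p ^ a ≤ F + 1 := by
      rw [hcc]
      exact Nat.le_mul_of_pos_right _ hc0
    omega
  have h1 := letter_near h0 hc hT hWC hN hy hP hd hβ hε hη ha hpc
  rw [← hcc] at h1
  have h2 : v.Ge (q / p ^ N - ε) (η' - η) := by
    have e : η' - η = (x N - η) - (x N - η') := by ring
    rw [e]
    exact hη.sub hη'
  refine (h1.mul (ge_pow h2 (F + 1))).mono ?_
  have h3 : ((F + 1 : ℕ) : ℝ) * ε ≤ p ^ N * ε := by
    refine mul_le_mul_of_nonneg_right ?_ hε
    exact_mod_cast hF'.le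
  have h4 : (r - q) / p ^ (N - a) ≤ (r - q) / 2 := by
    refine div_le_div_of_nonneg_left (sub_nonneg.2 hqr) two_pos ?_
    have h5 : (2 : ℝ) ≤ p := by exact_mod_cast hp.out.two_le
    refine h5.trans ?_
    calc (p : ℝ) = p ^ 1 := (pow_one _).symm
      _ ≤ p ^ (N - a) := pow_le_pow_right₀ (by linarith) (by omega)
  have e3 : β - (r - q) / p ^ (N - a) - ((F + 1 : ℕ) : ℝ) * q / p ^ N - p ^ N * ε +
      ((F + 1 : ℕ) : ℝ) * (q / p ^ N - ε) =
      β - (r - q) / p ^ (N - a) - p ^ N * ε - ((F + 1 : ℕ) : ℝ) * ε := by ring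
  rw [e3]
  linarith

/-- **The tight pair over `W`**, `x` tight in `W`, positive slack, letters of all heights. -/
theorem exists_pairS [CharP k p] [IsAlgClosed Ω] (h0 : Ctx0 k v) (hc : CompleteV v)
    (hT : Tgt p v C₀ x r) (hx : x 0 ≠ 0) (hvr : v (x 0) < r) (hWC : W ≤ C₀)
    (hTW : Tgt p v W x q) (hqr : q < r)
    (hW : ∀ a ∈ W, ∃ Q ∈ PI W, (Q.eval (x 1)) ^ p = a) {y : Ω} (hy : y ∈ C₀)
    (hTL : TL v (EW v W x) y s) (hE : EW v C₀ x = cadj v (EW v W x) y) :
    ∃ u : ℕ → Ω, y - u 0 ∈ W ∧ TP p v C₀ x u r s ∧ TL v (EW v W x) (u 0) s ∧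
      EW v C₀ x = cadj v (EW v W x) (u 0) ∧ C₀ = cadj v W (u 0) := by
  classical
  have hp0 : (0 : ℝ) < p := by exact_mod_cast hp.out.pos
  have hx0 : x 0 ∈ W := hTW.mem
  have hN := hTW.snd.nbx' p h0 hc (r := q) (by rw [pow_one, mul_div_cancel₀ _ hp0.ne'])
  have hb : 0 < r - q := by linarith
  have hnat : ∀ n : ℕ, v.Ge 0 (n : Ω) := fun n => by
    have := h0.ge (n : k)
    rwa [map_natCast] at this
  -- approximations of `y`
  have happ : ∀ δ : ℝ, 0 < δ → ∃ (N : ℕ) (P : Polynomial Ω), P ∈ PI W ∧ P.natDegree < p ^ N ∧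
      v.Ge (s - δ) (y - P.eval (x N)) := by
    intro δ hδ
    obtain ⟨e, he, h1⟩ := hTL.lim δ hδ
    obtain ⟨z, ⟨N, P, hP, rfl⟩, h2⟩ := AX.dense hT.root hp.out.pos hx0 e he (s - δ)
    obtain ⟨Q, hQ, hQd, hQe⟩ := exists_red hT.root hx0 N hP
    refine ⟨N, Q, hQ, hQd, ?_⟩
    have e1 : y - Q.eval (x N) = (y - e) + (e - P.eval (x N)) := by
      rw [hQe]
      ring
    rw [e1]
    exact h1.add h2.2
  -- centers
  have hcen : ∀ (N : ℕ) (κ : ℝ), 0 < κ → ∃ η ∈ W, v.Ge (q / p ^ N - κ / p ^ N) (x N - η) :=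
    fun N κ hκ => hTW.lim_all N (κ / p ^ N) (div_pos hκ (pow_pos hp0 N))
  obtain ⟨N₀, P₀, hP₀, hd₀, h1⟩ := happ ((r - q) / 8) (by linarith)
  obtain ⟨η₀, hη₀, hη₀'⟩ := hcen N₀ ((r - q) / 8) (by linarith)
  set n₀ := P₀.eval η₀ with hn₀def
  have hn₀ : n₀ ∈ W := TWM.eval_mem hP₀ hη₀
  obtain ⟨u, hu0, hu⟩ := exists_rts p (y - n₀)
  have hn₀E : n₀ ∈ EW v W x := EW.le hn₀
  have hu0C : u 0 ∈ C₀ := by
    rw [hu0]
    exact sub_mem hy (hWC hn₀)
  have hTL' : TL v (EW v W x) (u 0) s := by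
    rw [hu0]
    exact hTL.sub_mem hn₀E
  have hE' : EW v C₀ x = cadj v (EW v W x) (u 0) := by
    rw [hE, hu0, cadj_sub_mem hn₀E]
  -- the limits
  have key : ∀ (n : ℕ) (δ : ℝ), 0 < δ → δ ≤ (r - q) / 8 →
      Lim v C₀ ((s - 3 * δ) / p ^ n) (u n) := by
    intro n δ hδ hδ1
    have hpn : (0 : ℝ) < (p : ℝ) ^ n := pow_pos hp0 n
    obtain ⟨N, P, hP, hd, h2⟩ := happ δ hδ
    obtain ⟨η, hη, hη'⟩ := hcen N δ hδ
    have hpN : (0 : ℝ) < (p : ℝ) ^ N := pow_pos hp0 N
    have hpN₀ : (0 : ℝ) < (p : ℝ) ^ N₀ := pow_pos hp0 N₀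
    -- the part of order zero
    have h3 : v.Ge (s - (r - q)) (P.eval η - n₀) := by
      set R := expand Ω (p ^ N₀) P - expand Ω (p ^ N) P₀ with hR
      have hRP : R ∈ PI W := sub_mem (expand_mem_PI (pow_pos hp.out.pos _) hP)
        (expand_mem_PI (pow_pos hp.out.pos _) hP₀)
      have hRe : R.eval (x (N + N₀)) = P.eval (x N) - P₀.eval (x N₀) := by
        rw [hR, eval_sub, ax_lift hT.root, show N + N₀ = N₀ + N by omega, ax_lift hT.root]
      have hRd : R.natDegree < p ^ (N + N₀) := by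
        refine (natDegree_sub_le _ _).trans_lt (max_lt ?_ ?_)
        · rw [natDegree_expand, pow_add]
          exact Nat.mul_lt_mul_of_pos_right hd (pow_pos hp.out.pos _)
        · rw [natDegree_expand, show N + N₀ = N₀ + N by omega, pow_add]
          exact Nat.mul_lt_mul_of_pos_right hd₀ (pow_pos hp.out.pos _)
      have h4 : v.Ge (s - (r - q) / 8) (R.eval (x (N + N₀))) := by
        rw [hRe]
        have e : P.eval (x N) - P₀.eval (x N₀) =
            (y - P₀.eval (x N₀)) - (y - P.eval (x N)) := by ring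
        rw [e]
        exact h1.sub (h2.mono (by linarith))
      obtain ⟨ζ, hζ, hζ'⟩ := hcen (N + N₀) ((r - q) / 16) (by linarith)
      have hpM : (0 : ℝ) < (p : ℝ) ^ (N + N₀) := pow_pos hp0 _
      have h5 := ort_near hnat hN hRP hRd h4 (div_nonneg (by linarith) hpM.le) hζ' 0
      rw [taylor_coeff_zero, Nat.cast_zero, zero_mul, zero_div, sub_zero,
        mul_div_cancel₀ _ hpM.ne', hR, eval_sub, expand_eval, expand_eval] at h5
      -- the centers `ζ ^ (p ^ N₀)` and `ζ ^ (p ^ N)`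
      have h6 : v.Ge (q / p ^ N - (r - q) / 16 / p ^ N) (x N - ζ ^ p ^ N₀) := by
        rw [← root_pow_add hT.root N N₀, ← sub_pow_char_pow]
        refine (ge_pow hζ' (p ^ N₀)).mono (le_of_eq ?_)
        push_cast
        rw [pow_add]
        field_simp
      have h7 : v.Ge (q / p ^ N₀ - (r - q) / 16 / p ^ N₀) (x N₀ - ζ ^ p ^ N) := by
        rw [← root_pow_add hT.root N₀ N, ← sub_pow_char_pow, show N₀ + N = N + N₀ by omega]
        refine (ge_pow hζ' (p ^ N)).mono (le_of_eq ?_)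
        push_cast
        rw [pow_add]
        field_simp
      have h8 := center_near h0 hc hT hWC hN hqr.le hy hP hd (h2.mono (by linarith :
        s - (r - q) / 8 ≤ s - δ)) (ε := (r - q) / 8 / p ^ N) (div_nonneg (by linarith) hpN.le)
        (hη'.mono (by
          have : δ / p ^ N ≤ (r - q) / 8 / p ^ N := div_le_div_of_nonneg_right hδ1 hpN.le
          linarith)) (h6.mono (by
          have : (r - q) / 16 / (p : ℝ) ^ N ≤ (r - q) / 8 / p ^ N :=
            div_le_div_of_nonneg_right (by linarith) hpN.le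
          linarith))
      have h9 := center_near h0 hc hT hWC hN hqr.le hy hP₀ hd₀ h1
        (ε := (r - q) / 8 / p ^ N₀) (div_nonneg (by linarith) hpN₀.le) hη₀' (h7.mono (by
          have : (r - q) / 16 / (p : ℝ) ^ N₀ ≤ (r - q) / 8 / p ^ N₀ :=
            div_le_div_of_nonneg_right (by linarith) hpN₀.le
          linarith))
      rw [mul_div_cancel₀ _ hpN.ne'] at h8
      rw [mul_div_cancel₀ _ hpN₀.ne'] at h9
      have e : P.eval η - n₀ = (P.eval (ζ ^ p ^ N₀) - P₀.eval (ζ ^ p ^ N)) -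
          (P.eval (ζ ^ p ^ N₀) - P.eval η) + (P₀.eval (ζ ^ p ^ N) - P₀.eval η₀) := by
        rw [hn₀def]
        ring
      rw [e]
      refine ((h5.mono ?_).sub (h8.mono ?_)).add (h9.mono ?_) <;> linarith
    -- the roots of the coefficients
    have hq : ∀ c : ℕ, (if c = 0 then P.eval η - n₀ else (taylor η P).coeff c) ∈ W := fun c => by
      split_ifs
      · exact sub_mem (TWM.eval_mem hP hη) hn₀
      · rw [taylor_coeff]
        refine TWM.eval_mem (fun i => ?_) hη
        rw [hasseDeriv_coeff]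
        exact mul_mem (natCast_mem W _) (hP _)
    choose Q hQ hQe using fun c => rts_poly hT.root hW n _ (hq c)
    choose H hH hHe using fun a : ℕ => rts_poly hT.root hW n _ (pow_mem hη (p ^ a))
    -- every height
    have hlev : ∀ c : ℕ, c ≠ 0 → c < p ^ N → ∃ t : Ω,
        t ^ p ^ n = (taylor η P).coeff c * (x N - η) ^ c ∧ Lim v C₀ ((s - 3 * δ) / p ^ n) t := by
      intro c hc0 hcN
      obtain ⟨a, c', hpc, hcc⟩ := Nat.exists_eq_pow_mul_and_not_dvd hc0 p hp.out.ne_one
      have ha : a < N := by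
        by_contra hno
        have h7 : p ^ N ≤ p ^ a := Nat.pow_le_pow_right hp.out.pos (not_lt.1 hno)
        have hc'0 : 0 < c' := Nat.pos_of_ne_zero fun h => hpc (h ▸ dvd_zero p)
        have h8 : p ^ a ≤ c := by
          rw [hcc]
          exact Nat.le_mul_of_pos_right _ hc'0
        omega
      have hpNa : (0 : ℝ) < (p : ℝ) ^ (N - a) := pow_pos hp0 _
      have h6 := letter_near h0 hc hT hWC hN hy hP hd h2 (div_nonneg hδ.le hpN.le) hη' ha hpc
      rw [← hcc, mul_div_cancel₀ _ hpN.ne'] at h6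
      have h7 : v.Ge (s - 3 * δ - (r - q) / p ^ (N - a))
          ((taylor η P).coeff c * (x N - η) ^ c) := by
        refine (h6.mul (ge_pow hη' c)).mono ?_
        have h8 : (c : ℝ) / p ^ N ≤ 1 := by
          rw [div_le_one hpN]
          exact_mod_cast hcN.le
        have e : s - δ - (r - q) / p ^ (N - a) - (c : ℝ) * q / p ^ N - δ +
            c * (q / p ^ N - δ / p ^ N) =
            s - 2 * δ - (r - q) / p ^ (N - a) - δ * (c / p ^ N) := by ring
        rw [e]
        nlinarith [mul_nonneg hδ.le (sub_nonneg.2 h8)]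
      set m := n + (N - a) with hm
      set S : Polynomial Ω := expand Ω (p ^ (N - a)) (Q c) *
        (X - expand Ω (p ^ (N - a)) (H a)) ^ c' with hS
      have hSP : S ∈ PI W := mul_mem (expand_mem_PI (pow_pos hp.out.pos _) (hQ c))
        (pow_mem (sub_mem X_mem_PI (expand_mem_PI (pow_pos hp.out.pos _) (hH a))) _)
      have hSe : S.eval (x m) ^ p ^ n = (taylor η P).coeff c * (x N - η) ^ c := by
        have h9 : x m ^ p ^ n = x (N - a) := by
          have := root_pow_add hT.root (N - a) n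
          rwa [show N - a + n = m by omega] at this
        have h10 : x N ^ p ^ a = x (N - a) := by
          have := root_pow_add hT.root (N - a) a
          rwa [Nat.sub_add_cancel ha.le] at this
        rw [hS, eval_mul, hm, ax_lift hT.root, eval_pow, eval_sub, eval_X, ax_lift hT.root,
          mul_pow, hQe, if_neg hc0, ← pow_mul, mul_comm c', pow_mul, sub_pow_char_pow, hHe, ← hm,
          h9, ← h10, ← sub_pow_char_pow, ← pow_mul, ← hcc]
      refine ⟨S.eval (x m), hSe, ?_⟩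
      have h8 : v.Ge ((s - 3 * δ - (r - q) / p ^ (N - a)) / p ^ n) (S.eval (x m)) := by
        refine (ge_pow_iff (v := v) (pow_pos hp.out.pos n)).1 ?_
        rw [hSe]
        push_cast
        rw [mul_div_cancel₀ _ hpn.ne']
        exact h7
      refine Lim.weak (lim_poly hT hWC hx0 hN hqr.le hSP m h8) (le_of_eq ?_)
      rw [hm, pow_add]
      field_simp
      ring
    -- the root of `P (x N) - n₀`
    obtain ⟨M, hM⟩ : ∃ M, p ^ N = M + 1 := ⟨p ^ N - 1, by
      have := pow_pos hp.out.pos N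
      omega⟩
    choose t ht ht' using fun c : ℕ => fun hc : c < M => hlev (c + 1) (Nat.succ_ne_zero c)
      (by omega)
    set t' : ℕ → Ω := fun c => if hc : c < M then t c hc else 0 with ht'def
    set z := (∑ c ∈ Finset.range M, t' c) + (Q 0).eval (x n) with hz
    have hzp : z ^ p ^ n = P.eval (x N) - n₀ := by
      rw [hz, add_pow_char_pow, sum_pow_char_pow, hQe 0, if_pos rfl]
      have h4 : P.eval (x N) = ∑ c ∈ Finset.range (p ^ N),
          (taylor η P).coeff c * (x N - η) ^ c := by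
        have e2 : (taylor η P).eval (x N - η) = P.eval (x N) := by
          rw [taylor_eval, sub_add_cancel]
        rw [← e2, eval_eq_sum_range' (by rwa [natDegree_taylor])]
      rw [h4, hM, Finset.sum_range_succ', pow_zero, mul_one, taylor_coeff_zero]
      have h5 : ∀ c ∈ Finset.range M, t' c ^ p ^ n =
          (taylor η P).coeff (c + 1) * (x N - η) ^ (c + 1) := fun c hcr => by
        have hcM := Finset.mem_range.1 hcr
        rw [ht'def]
        simp only [dif_pos hcM]
        exact ht c hcM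
      rw [Finset.sum_congr rfl h5]
      ring
    have hun : u n ^ p ^ n = u 0 := by
      have := root_pow_add hu 0 n
      rwa [zero_add] at this
    have h4 : v.Ge ((s - 3 * δ) / p ^ n) (u n - z) := by
      refine (ge_pow_iff (v := v) (pow_pos hp.out.pos n)).1 ?_
      rw [sub_pow_char_pow, hun, hzp, hu0]
      push_cast
      rw [mul_div_cancel₀ _ hpn.ne']
      have e : y - n₀ - (P.eval (x N) - n₀) = y - P.eval (x N) := by ring
      rw [e]
      exact h2.mono (by linarith)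
    have h5 : Lim v C₀ ((s - 3 * δ) / p ^ n) z := by
      refine Lim.add_r (Lim.sum_r _ _ fun c hcr => ?_) ?_
      · have hcM := Finset.mem_range.1 hcr
        rw [ht'def]
        simp only [dif_pos hcM]
        exact ht' c hcM
      · have h6 : v.Ge ((s - (r - q)) / p ^ n) ((Q 0).eval (x n)) := by
          refine (ge_pow_iff (v := v) (pow_pos hp.out.pos n)).1 ?_
          rw [hQe 0, if_pos rfl]
          push_cast
          rw [mul_div_cancel₀ _ hpn.ne']
          exact h3
        refine Lim.weak (lim_poly hT hWC hx0 hN hqr.le (hQ 0) n h6) ?_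
        rw [← add_div]
        refine div_le_div_of_nonneg_right ?_ hpn.le
        linarith
    have e : u n = z + (u n - z) := by ring
    rw [e]
    refine Lim.add_r h5 fun ε hε => ⟨0, zero_mem _, ?_⟩
    rw [sub_zero]
    exact h4.mono (by linarith)
  have hTP : TP p v C₀ x u r s :=
    { tgt := hT
      mem := hu0C
      root := hu
      far := by
        rintro ⟨a, ha, h2⟩
        rw [hE'] at ha
        refine not_root_ge hTL' ha ?_
        have e : a ^ p - u 0 = -(u 1 - a) ^ p := by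
          have h3 := hu 0
          rw [zero_add] at h3
          rw [sub_pow_char, h3]
          ring
        rw [e]
        refine ((ge_pow h2.ge p).mono (le_of_eq ?_)).neg
        rw [mul_div_cancel₀ _ hp0.ne']
      lim := fun n ε hε => by
        have hpn : (0 : ℝ) < (p : ℝ) ^ n := pow_pos hp0 n
        obtain ⟨δ, hδ, hδ1, hδ2⟩ : ∃ δ : ℝ, 0 < δ ∧ 3 * δ ≤ ε / 2 ∧ δ ≤ (r - q) / 8 :=
          ⟨min (ε / 6) ((r - q) / 8), lt_min (by linarith) (by linarith), by
            linarith [min_le_left (ε / 6) ((r - q) / 8)], min_le_right _ _⟩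
        obtain ⟨a, ha, h2⟩ := key n δ hδ hδ2 (ε / 2) (by linarith)
        refine ⟨a, ha, h2.mono ?_⟩
        rw [sub_div]
        have h9 : 3 * δ / p ^ n ≤ ε / 2 := by
          refine (div_le_self (by linarith) ?_).trans hδ1
          exact one_le_pow₀ (by exact_mod_cast hp.out.one_lt.le)
        linarith }
  refine ⟨u, ?_, hTP, hTL', hE', ?_⟩
  · rw [hu0, sub_sub_cancel]
    exact hn₀
  · refine hT.eq_of_ew h0 hc hx hvr (cld_cadj v _ _)
      (TWM.cadj_le hT.cld hWC hu0C) (le_cadj v _ _ hx0) ?_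
    refine (EW.le : C₀ ≤ EW v C₀ x).trans ?_
    rw [hE', EW.cadj]

end Pool.Agent.TWC
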