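import Pool.Agent.Lib.TWM.A2
import Pool.Agent.Lib.D2.Ctx0

/-!
# TANK W, class C: polynomial lemmas over an element of transcendental type

`z` is a limit of `A` up to `0`, of transcendental type.
* `margin`: finitely many polynomials with positive value at `z` have Taylor coefficients of value
  `≥ m > 0` at every point near `z`;
* `int_lemma` (INT): the truncated Poincaré lemma for the Hasse derivatives of order `p ^ c`;
* `Cau`, `Nul`: formal limits up to `0`;
* `const_unif`, `const_lemma` (CONST): a formal limit of polynomials all of whose Hasse derivatives are null is a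
  formal limit of `A`;
* `root_core`, `germ_res`, `lemmaR_i`, `lemmaR_ii` (LEMMA R).
-/

set_option autoImplicit false

open Polynomial

namespace Pool.Agent.TWC

open Pool.Agent.H15JM (RVal)
open Pool.Agent.LU1 (VPos adj)
open Pool.Agent.LUC (Cl clF)
open Pool.Agent.D2 (Ctx0)
open Pool.Agent.D2P (hen clI mem_clI)
open Pool.Agent.TWM

universe u

/-! ### Binomial coefficients modulo `p` -/

section Choose

variable {p : ℕ} [Fact p.Prime]

theorem choose_pow_modEq (c : ℕ) : ∀ n : ℕ, n.choose (p ^ c) ≡ n / p ^ c [MOD p] := by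
  induction c with
  | zero =>
    intro n
    rw [pow_zero, Nat.choose_one_right, Nat.div_one]
  | succ c ih =>
    intro n
    have hp : p.Prime := Fact.out
    have h1 := Choose.choose_modEq_choose_mod_mul_choose_div_nat
      (n := n) (k := p ^ (c + 1)) (p := p)
    have h3 : p ^ (c + 1) % p = 0 := by rw [pow_succ']; exact Nat.mul_mod_right _ _
    have h5 : p ^ (c + 1) / p = p ^ c := by
      rw [pow_succ']; exact Nat.mul_div_cancel_left _ hp.pos
    rw [h3, h5, Nat.choose_zero_right, one_mul] at h1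
    refine h1.trans ?_
    rw [show n / p ^ (c + 1) = n / p / p ^ c by rw [Nat.div_div_eq_div_mul, pow_succ']]
    exact ih (n / p)

theorem dvd_choose_pow_iff (c n : ℕ) : p ∣ n.choose (p ^ c) ↔ p ∣ n / p ^ c :=
  (choose_pow_modEq c n).dvd_iff dvd_rfl

/-- the digit at the valuation is not zero -/
theorem not_dvd_choose_self {c m : ℕ} (hm : ¬ p ∣ m) : ¬ p ∣ (p ^ c * m).choose (p ^ c) := by
  rw [dvd_choose_pow_iff, Nat.mul_div_cancel_left _ (pow_pos (Fact.out : p.Prime).pos c)]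
  exact hm

theorem not_dvd_choose_sub {c c' m : ℕ} (hm : ¬ p ∣ m) (hc : c < c') (hle : p ^ c' ≤ p ^ c * m) :
    ¬ p ∣ (p ^ c * m - p ^ c').choose (p ^ c) := by
  have hpos := pow_pos (Fact.out : p.Prime).pos c
  have h1 : p ^ c' = p ^ c * p ^ (c' - c) := by rw [← pow_add]; congr 1; omega
  have h2 : p ^ (c' - c) ≤ m := by
    rw [h1] at hle
    exact Nat.le_of_mul_le_mul_left hle hpos
  rw [dvd_choose_pow_iff, h1, ← Nat.mul_sub, Nat.mul_div_cancel_left _ hpos]
  intro h3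
  have h4 : p ∣ p ^ (c' - c) := dvd_pow_self p (by omega)
  exact hm ((Nat.dvd_sub_iff_left h2 h4).1 h3)

theorem dvd_choose_of_lt {c c' : ℕ} (m : ℕ) (hc : c' < c) : p ∣ (p ^ c * m).choose (p ^ c') := by
  have hpos := pow_pos (Fact.out : p.Prime).pos c'
  have h1 : p ^ c = p ^ c' * p ^ (c - c') := by rw [← pow_add]; congr 1; omega
  rw [dvd_choose_pow_iff, h1, mul_assoc, Nat.mul_div_cancel_left _ hpos]
  exact (dvd_pow_self p (by omega)).mul_right m

theorem not_dvd_choose_sub_mul {c c' m i : ℕ} (hm : m ≠ 0) (hc : c' < c) (hi : 1 ≤ i)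
    (hip : i < p) : ¬ p ∣ (p ^ c * m - i * p ^ c').choose (p ^ c') := by
  have hpos := pow_pos (Fact.out : p.Prime).pos c'
  have h1 : p ^ c = p ^ c' * p ^ (c - c') := by rw [← pow_add]; congr 1; omega
  have h2 : p ∣ p ^ (c - c') * m := (dvd_pow_self p (by omega)).mul_right m
  have h3 : i ≤ p ^ (c - c') * m := by
    have h4 : 0 < p ^ (c - c') * m :=
      Nat.mul_pos (pow_pos (Fact.out : p.Prime).pos _) (Nat.pos_of_ne_zero hm)
    exact hip.le.trans (Nat.le_of_dvd h4 h2)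
  rw [dvd_choose_pow_iff, h1, mul_assoc, mul_comm i, ← Nat.mul_sub,
    Nat.mul_div_cancel_left _ hpos]
  intro h4
  have h5 : p ∣ i := (Nat.dvd_sub_iff_right h3 h2).1 h4
  exact absurd (Nat.le_of_dvd hi h5) (by omega)

end Choose

/-! ### Hasse derivatives and Taylor coefficients -/

section Taylor

variable {Ω : Type u} [Field Ω]

theorem coeff_taylor_hasse (ψ : Ω) (n l : ℕ) (f : Polynomial Ω) :
    (taylor ψ (hasseDeriv n f)).coeff l = ((l + n).choose n : Ω) * (taylor ψ f).coeff (l + n) := by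
  rw [taylor_coeff, taylor_coeff]
  have h1 := congrArg (fun L => L f) (hasseDeriv_comp (R := Ω) l n)
  simp only [LinearMap.comp_apply, LinearMap.smul_apply] at h1
  rw [h1, eval_smul, nsmul_eq_mul, Nat.choose_symm_add]

theorem coeff_taylor_iter (ψ : Ω) (n : ℕ) (i : ℕ) : ∀ (l : ℕ) (f : Polynomial Ω),
    (taylor ψ ((⇑(hasseDeriv (R := Ω) n))^[i] f)).coeff l =
      (∏ j ∈ Finset.range i, ((l + (j + 1) * n).choose n : Ω)) * (taylor ψ f).coeff (l + i * n) := by
  induction i with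
  | zero =>
    intro l f
    simp
  | succ i ih =>
    intro l f
    rw [Function.iterate_succ_apply, ih, coeff_taylor_hasse, Finset.prod_range_succ, mul_assoc,
      show l + i * n + n = l + (i + 1) * n by ring]

end Taylor

section Margin

variable {k Ω : Type u} [Field k] [Field Ω] [Algebra k Ω] {v : RVal Ω}
  {A : IntermediateField k Ω} {z : Ω} [IsAlgClosed Ω]

/-- The Hasse derivatives of a polynomial of positive value have positive value. -/
theorem hasse_gt (h : TL v A z 0) {f : Polynomial Ω} (hf : f ∈ PI A) (hz : Gt v 0 (f.eval z))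
    (l : ℕ) : Gt v 0 ((hasseDeriv l f).eval z) := by
  rcases Nat.eq_zero_or_pos l with rfl | hl
  · rwa [hasseDeriv_zero']
  by_cases h0 : f = 0
  · rw [h0, map_zero, eval_zero]; exact Gt.zero
  have h1 := h.strict (PI_mono (le_algc A) hf) h0 hl
  rw [taylor_coeff, mul_zero, sub_zero] at h1
  exact h1.mono (hz (h.eval_ne (PI_mono (le_algc A) hf) h0)).le

/-- The Hasse derivatives of a polynomial do not decrease the value. -/
theorem hasse_ge (h : TL v A z 0) {f : Polynomial Ω} (hf : f ∈ PI A) {r : ℝ}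
    (hz : v.Ge r (f.eval z)) (l : ℕ) : v.Ge r ((hasseDeriv l f).eval z) := by
  by_cases h0 : f = 0
  · rw [h0, map_zero, eval_zero]; exact RVal.Ge.zero
  have h1 := h.weak (PI_mono (le_algc A) hf) h0 l
  rw [taylor_coeff, mul_zero, sub_zero] at h1
  exact h1.mono (hz (h.eval_ne (PI_mono (le_algc A) hf) h0))

theorem hasse_gt_of_ge (h : TL v A z 0) {f : Polynomial Ω} (hf : f ∈ PI A) {r : ℝ}
    (hz : v.Ge r (f.eval z)) {l : ℕ} (hl : 1 ≤ l) : Gt v r ((hasseDeriv l f).eval z) := by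
  by_cases h0 : f = 0
  · rw [h0, map_zero, eval_zero]; exact Gt.zero
  have h1 := h.strict (PI_mono (le_algc A) hf) h0 hl
  rw [taylor_coeff, mul_zero, sub_zero] at h1
  exact h1.mono (hz (h.eval_ne (PI_mono (le_algc A) hf) h0))

theorem margin_aux (h : TL v A z 0) (T : Finset (Polynomial Ω))
    (hT : ∀ g ∈ T, g ∈ PI A ∧ Gt v 0 (g.eval z)) :
    ∃ m : ℝ, 0 < m ∧ ∃ δ : ℝ, 0 < δ ∧ ∀ ψ, v.Ge (-δ) (z - ψ) → ∀ g ∈ T, v.Ge m (g.eval ψ) := by
  classical
  induction T using Finset.induction_on with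
  | empty => exact ⟨1, one_pos, 1, one_pos, by simp⟩
  | insert g T hg ih =>
    obtain ⟨m, hm, δ, hδ, h1⟩ := ih fun g' h' => hT g' (Finset.mem_insert_of_mem h')
    obtain ⟨h2, h3⟩ := hT g (Finset.mem_insert_self g T)
    by_cases h0 : g = 0
    · refine ⟨m, hm, δ, hδ, fun ψ hψ g' h' => ?_⟩
      rcases Finset.mem_insert.1 h' with rfl | h'
      · rw [h0, eval_zero]; exact RVal.Ge.zero
      · exact h1 ψ hψ g' h'
    have h4 := h3 (h.eval_ne (PI_mono (le_algc A) h2) h0)
    obtain ⟨δ', hδ', h5⟩ := h.near_val (PI_mono (le_algc A) h2) h0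
    refine ⟨min m (v (g.eval z)), lt_min hm h4, min δ δ', lt_min hδ hδ', fun ψ hψ g' h' => ?_⟩
    rcases Finset.mem_insert.1 h' with rfl | h'
    · obtain ⟨-, h6⟩ := h5 ψ (hψ.mono (by have := min_le_right δ δ'; linarith))
      exact RVal.Ge.of_le (by rw [h6]; exact min_le_right _ _)
    · exact (h1 ψ (hψ.mono (by have := min_le_left δ δ'; linarith)) g' h').mono (min_le_left _ _)

/-- Finitely many polynomials with positive value at `z`: their Taylor coefficients at the points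
near `z` have value `≥ m`. -/
theorem margin (h : TL v A z 0) (S : Finset (Polynomial Ω))
    (hS : ∀ g ∈ S, g ∈ PI A ∧ Gt v 0 (g.eval z)) :
    ∃ m : ℝ, 0 < m ∧ ∃ δ : ℝ, 0 < δ ∧ ∀ ψ, v.Ge (-δ) (z - ψ) → ∀ g ∈ S, ∀ l,
      v.Ge m ((taylor ψ g).coeff l) := by
  classical
  obtain ⟨m, hm, δ, hδ, h1⟩ := margin_aux h
    (S.biUnion fun g => (Finset.range (g.natDegree + 1)).image fun l => hasseDeriv l g) (by
      intro g' hg'
      obtain ⟨g, hg, h2⟩ := Finset.mem_biUnion.1 hg'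
      obtain ⟨l, -, rfl⟩ := Finset.mem_image.1 h2
      exact ⟨hasse_mem_PI (hS g hg).1 l, hasse_gt h (hS g hg).1 (hS g hg).2 l⟩)
  refine ⟨m, hm, δ, hδ, fun ψ hψ g hg l => ?_⟩
  by_cases hl : l < g.natDegree + 1
  · rw [taylor_coeff]
    exact h1 ψ hψ _ (Finset.mem_biUnion.2 ⟨g, hg, Finset.mem_image.2 ⟨l, Finset.mem_range.2 hl, rfl⟩⟩)
  · rw [coeff_eq_zero_of_natDegree_lt (by rw [natDegree_taylor]; omega)]
    exact RVal.Ge.zero

omit [IsAlgClosed Ω] in
/-- The value at `z`, from the Taylor coefficients at a near point. -/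
theorem eval_gt_of_coeff {f : Polynomial Ω} {D : ℕ} (hD : f.natDegree ≤ D) {m : ℝ} (ψ : Ω)
    (hc : ∀ l, v.Ge m ((taylor ψ f).coeff l)) {δ : ℝ} (hδ0 : 0 ≤ δ) (hδ : D * δ < m)
    (hψ : v.Ge (-δ) (z - ψ)) : Gt v 0 (f.eval z) := by
  rw [eval_eq_taylor f ψ z, eval_eq_sum_range' (n := D + 1) (by rw [natDegree_taylor]; omega)]
  refine Gt.sum _ _ fun l hl => ?_
  have h1 : l ≤ D := by have := Finset.mem_range.1 hl; omega
  refine Gt.of_ge (RVal.Ge.mul (hc l) (ge_pow hψ l)) ?_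
  have h2 : (l : ℝ) ≤ D := by exact_mod_cast h1
  nlinarith

end Margin

/-! ### INT -/

section Int

variable {k Ω : Type u} [Field k] [Field Ω] [Algebra k Ω] {v : RVal Ω}
  {A : IntermediateField k Ω} {z : Ω}

theorem ge_of_natCast_mul (p : ℕ) [Fact p.Prime] [CharP Ω p] {n : ℕ} (hn : ¬ p ∣ n) {m : ℝ} {x : Ω}
    (h : v.Ge m ((n : Ω) * x)) : v.Ge m x := by
  intro h0
  obtain ⟨h1, h2⟩ := val_natCast (Ω := Ω) (v := v) p hn
  have h3 := h (mul_ne_zero h1 h0)
  rwa [v.map_mul h1 h0, h2, zero_add] at h3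

theorem iter_mem_PI {f : Polynomial Ω} (hf : f ∈ PI A) (n i : ℕ) :
    (⇑(hasseDeriv (R := Ω) n))^[i] f ∈ PI A := by
  induction i with
  | zero => exact hf
  | succ i ih =>
    rw [Function.iterate_succ_apply']
    exact hasse_mem_PI ih n

/-- LEMMA INT: the truncated Poincaré lemma for the Hasse derivatives of order `p ^ c`. -/
theorem int_lemma [IsAlgClosed Ω] (h : TL v A z 0) (p : ℕ) [Fact p.Prime] [CharP Ω p] {N : ℕ}
    {b : ℕ → Polynomial Ω} (hb : ∀ c, b c ∈ PI A) (hN : ∀ c, N ≤ c → b c = 0)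
    (h1 : ∀ c c', Gt v 0 ((hasseDeriv (p ^ c') (b c) - hasseDeriv (p ^ c) (b c')).eval z))
    (h2 : ∀ c, Gt v 0 (((⇑(hasseDeriv (R := Ω) (p ^ c)))^[p - 1] (b c)).eval z)) :
    ∃ F ∈ PI A, ∀ c, Gt v 0 ((hasseDeriv (p ^ c) F - b c).eval z) := by
  classical
  have hp : p.Prime := Fact.out
  -- the degrees
  obtain ⟨d, hbd⟩ : ∃ d : ℕ, ∀ c, (b c).natDegree ≤ d := by
    refine ⟨(Finset.range N).sup fun c => (b c).natDegree, fun c => ?_⟩
    by_cases hc : c < N
    · exact Finset.le_sup (f := fun c => (b c).natDegree) (Finset.mem_range.2 hc)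
    · rw [hN c (not_lt.1 hc), natDegree_zero]; exact Nat.zero_le _
  set D := d + p ^ N with hD
  -- the margin
  obtain ⟨m, hm, δ, hδ, hmar⟩ := margin h
    (((Finset.range (D + 1) ×ˢ Finset.range (D + 1)).image fun q =>
      hasseDeriv (p ^ q.2) (b q.1) - hasseDeriv (p ^ q.1) (b q.2)) ∪
     (Finset.range (D + 1)).image fun c => (⇑(hasseDeriv (R := Ω) (p ^ c)))^[p - 1] (b c)) (by
      intro g hg
      rcases Finset.mem_union.1 hg with hg | hg
      · obtain ⟨q, -, rfl⟩ := Finset.mem_image.1 hg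
        exact ⟨sub_mem (hasse_mem_PI (hb _) _) (hasse_mem_PI (hb _) _), h1 _ _⟩
      · obtain ⟨c, -, rfl⟩ := Finset.mem_image.1 hg
        exact ⟨iter_mem_PI (hb c) _ _, h2 c⟩)
  have hD1 : (0 : ℝ) < D + 1 := by positivity
  obtain ⟨ψ, hψA, hψ⟩ := h.lim (min δ (m / (2 * (D + 1)))) (lt_min hδ (by positivity))
  rw [zero_sub] at hψ
  have hmar' := hmar ψ (hψ.mono (neg_le_neg (min_le_left _ _)))
  set β : ℕ → ℕ → Ω := fun c l => (taylor ψ (b c)).coeff l with hβ
  have hβA : ∀ c l, β c l ∈ A := fun c l => taylor_mem_PI (hb c) hψA l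
  have hβ0 : ∀ c J, D < J → β c (J - p ^ c) = 0 := by
    intro c J hJ
    by_cases hc : c < N
    · have h3 : p ^ c ≤ p ^ N := Nat.pow_le_pow_right hp.pos hc.le
      have h4 := hbd c
      exact coeff_eq_zero_of_natDegree_lt (by rw [natDegree_taylor]; omega)
    · show (taylor ψ (b c)).coeff _ = 0
      rw [hN c (not_lt.1 hc), map_zero, coeff_zero]
  have hdef1 : ∀ c c' l, c ≤ D → c' ≤ D → v.Ge m (((l + p ^ c').choose (p ^ c') : Ω) *
      β c (l + p ^ c') - ((l + p ^ c).choose (p ^ c) : Ω) * β c' (l + p ^ c)) := by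
    intro c c' l hc hc'
    have h3 := hmar' (hasseDeriv (p ^ c') (b c) - hasseDeriv (p ^ c) (b c'))
      (Finset.mem_union_left _ (Finset.mem_image.2 ⟨(c, c'), Finset.mem_product.2
        ⟨Finset.mem_range.2 (by show c < D + 1; omega),
          Finset.mem_range.2 (by show c' < D + 1; omega)⟩, rfl⟩)) l
    rwa [map_sub, coeff_sub, coeff_taylor_hasse, coeff_taylor_hasse] at h3
  have hdef2 : ∀ c l, c ≤ D → v.Ge m ((∏ j ∈ Finset.range (p - 1),
      ((l + (j + 1) * p ^ c).choose (p ^ c) : Ω)) * β c (l + (p - 1) * p ^ c)) := by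
    intro c l hc
    have h3 := hmar' ((⇑(hasseDeriv (R := Ω) (p ^ c)))^[p - 1] (b c))
      (Finset.mem_union_right _ (Finset.mem_image.2 ⟨c, Finset.mem_range.2 (by omega), rfl⟩)) l
    rwa [coeff_taylor_iter] at h3
  -- the primitive
  let e : ℕ → Ω := fun J => if J = 0 then 0 else
    β (padicValNat p J) (J - p ^ padicValNat p J) / (J.choose (p ^ padicValNat p J) : Ω)
  have heA : ∀ J, e J ∈ A := by
    intro J
    by_cases hJ : J = 0
    · rw [show e J = 0 from if_pos hJ]; exact zero_mem _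
    · rw [show e J = _ from if_neg hJ]
      exact div_mem (hβA _ _) (natCast_mem A _)
  have he0 : ∀ J, D < J → e J = 0 := by
    intro J hJ
    rw [show e J = _ from if_neg (by omega), hβ0 _ J hJ, zero_div]
  set G : Polynomial Ω := ∑ J ∈ Finset.range (D + 1), monomial J (e J) with hG
  have hGc : ∀ J, G.coeff J = e J := by
    intro J
    rw [hG, finsetSum_coeff]
    simp only [coeff_monomial]
    rw [Finset.sum_ite_eq']
    split_ifs with h3
    · rfl
    · exact (he0 J (by rw [Finset.mem_range] at h3; omega)).symm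
  set F : Polynomial Ω := taylor (-ψ) G with hF
  have hFA : F ∈ PI A := taylor_mem_PI (fun J => by rw [hGc]; exact heA J) (neg_mem hψA)
  have hFc : ∀ J, (taylor ψ F).coeff J = e J := by
    intro J
    rw [hF, taylor_taylor, add_neg_cancel, taylor_zero, hGc]
  have hkey : ∀ c l, v.Ge m ((taylor ψ (hasseDeriv (p ^ c) F - b c)).coeff l) := by
    intro c' l
    rw [map_sub, coeff_sub, coeff_taylor_hasse, hFc]
    show v.Ge m (((l + p ^ c').choose (p ^ c') : Ω) * e (l + p ^ c') - β c' l)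
    set J := l + p ^ c' with hJ
    have hc'1 : 0 < p ^ c' := pow_pos hp.pos c'
    have hl : l = J - p ^ c' := by omega
    have hJ0 : J ≠ 0 := by omega
    by_cases hJD : D < J
    · rw [he0 J hJD, hl, hβ0 c' J hJD, mul_zero, sub_zero]
      exact RVal.Ge.zero
    have hc'D : c' ≤ D := by
      have : c' < p ^ c' := Nat.lt_pow_self hp.one_lt
      omega
    obtain ⟨q, hq⟩ : p ^ padicValNat p J ∣ J := pow_padicValNat_dvd
    have heJ : e J = β (padicValNat p J) (J - p ^ padicValNat p J) /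
      (J.choose (p ^ padicValNat p J) : Ω) := if_neg hJ0
    have hqp : ¬ p ∣ q := by
      rintro ⟨q', hq'⟩
      refine pow_succ_padicValNat_not_dvd (p := p) hJ0 ⟨q', ?_⟩
      conv_lhs => rw [hq, hq']
      ring
    generalize hcc : padicValNat p J = c at hq heJ
    have hcp : 0 < p ^ c := pow_pos hp.pos c
    have hq0 : q ≠ 0 := by rintro rfl; simp at hqp
    have hcJ : p ^ c ≤ J := by
      rw [hq]; exact Nat.le_mul_of_pos_right _ (Nat.pos_of_ne_zero hq0)
    have hcD : c ≤ D := by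
      have : c < p ^ c := Nat.lt_pow_self hp.one_lt
      omega
    have hun : ¬ p ∣ J.choose (p ^ c) := by rw [hq]; exact not_dvd_choose_self hqp
    obtain ⟨hu0, huv⟩ := val_natCast (Ω := Ω) (v := v) p hun
    have heJ' : (J.choose (p ^ c) : Ω) * e J = β c (J - p ^ c) := by
      rw [heJ]; field_simp
    rcases lt_trichotomy c c' with hcc' | hcc' | hcc'
    · -- `c < c'`
      have hle : p ^ c' ≤ p ^ c * q := by omega
      have hun2 : ¬ p ∣ (J - p ^ c').choose (p ^ c) := by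
        rw [hq]; exact not_dvd_choose_sub hqp hcc' hle
      have hle2 : p ^ c + p ^ c' ≤ J := by
        have h3 : p ^ c' = p ^ c * p ^ (c' - c) := by rw [← pow_add]; congr 1; omega
        rw [h3] at hle
        have h4 := Nat.le_of_mul_le_mul_left hle hcp
        have h5 : q ≠ p ^ (c' - c) := by
          rintro rfl
          exact hqp (dvd_pow_self p (by omega))
        have h6 : p ^ (c' - c) + 1 ≤ q := by omega
        rw [hq, h3]
        calc p ^ c + p ^ c * p ^ (c' - c) = p ^ c * (p ^ (c' - c) + 1) := by ring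
          _ ≤ p ^ c * q := Nat.mul_le_mul_left _ h6
      refine ge_of_natCast_mul p hun2 ?_
      have h3 := hdef1 c c' (J - p ^ c - p ^ c') hcD hc'D
      rw [show J - p ^ c - p ^ c' + p ^ c' = J - p ^ c by omega,
        show J - p ^ c - p ^ c' + p ^ c = J - p ^ c' by omega] at h3
      have h4 : (J.choose (p ^ c) : Ω) * ((J - p ^ c).choose (p ^ c') : Ω) =
          (J.choose (p ^ c') : Ω) * ((J - p ^ c').choose (p ^ c) : Ω) := by
        have h5 := Nat.choose_mul (n := J) (k := p ^ c + p ^ c') (s := p ^ c) (by omega) 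
        have h6 := Nat.choose_mul (n := J) (k := p ^ c + p ^ c') (s := p ^ c') (by omega) 
        rw [show p ^ c + p ^ c' - p ^ c = p ^ c' by omega] at h5
        rw [show p ^ c + p ^ c' - p ^ c' = p ^ c by omega] at h6
        rw [Nat.choose_symm_add] at h5
        rw [← Nat.cast_mul, ← Nat.cast_mul, ← h5, ← h6]
      have h7 : ((J - p ^ c').choose (p ^ c) : Ω) * (((J.choose (p ^ c') : ℕ) : Ω) * e J - β c' l) =
          ((J - p ^ c).choose (p ^ c') : Ω) * β c (J - p ^ c) -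
            ((J - p ^ c').choose (p ^ c) : Ω) * β c' (J - p ^ c') := by
        rw [← heJ', hl, mul_sub, ← mul_assoc, mul_comm (((J - p ^ c').choose (p ^ c) : ℕ) : Ω), ← h4]
        ring
      rw [h7]
      exact h3
    · -- `c = c'`
      subst hcc'
      rw [heJ', hl, sub_self]
      exact RVal.Ge.zero
    · -- `c' < c`
      have h3 : ((J.choose (p ^ c') : ℕ) : Ω) = 0 := by
        rw [CharP.cast_eq_zero_iff Ω p, hq]
        exact dvd_choose_of_lt q hcc'
      rw [h3, zero_mul, zero_sub]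
      refine RVal.Ge.neg ?_
      have h4 : p ^ (c' + 1) ≤ J := (Nat.pow_le_pow_right hp.pos hcc').trans hcJ
      have h5 : p * p ^ c' ≤ J := by rw [← pow_succ']; exact h4
      have h6 : (p - 1) * p ^ c' + p ^ c' = p * p ^ c' := by
        obtain ⟨p', hp'⟩ : ∃ p', p = p' + 1 := ⟨p - 1, by have := hp.pos; omega⟩
        rw [hp']; simp; ring
      have h7 := hdef2 c' (J - p * p ^ c') hc'D
      rw [show J - p * p ^ c' + (p - 1) * p ^ c' = l by omega] at h7
      have h8 : ∀ j ∈ Finset.range (p - 1),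
          ¬ p ∣ (J - p * p ^ c' + (j + 1) * p ^ c').choose (p ^ c') := by
        intro j hj
        have hj' := Finset.mem_range.1 hj
        have h9 : J - p * p ^ c' + (j + 1) * p ^ c' = p ^ c * q - (p - (j + 1)) * p ^ c' := by
          rw [← hq]
          have h10 : (p - (j + 1)) * p ^ c' + (j + 1) * p ^ c' = p * p ^ c' := by
            rw [← add_mul]; congr 1; omega
          omega
        rw [h9]
        exact not_dvd_choose_sub_mul hq0 hcc' (by omega) (by omega)
      have h9 : ¬ p ∣ ∏ j ∈ Finset.range (p - 1),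
          (J - p * p ^ c' + (j + 1) * p ^ c').choose (p ^ c') := by
        intro h10
        obtain ⟨j, hj, h11⟩ := (hp.prime.dvd_finsetProd_iff _).1 h10
        exact h8 j hj h11
      refine ge_of_natCast_mul p h9 ?_
      rw [Nat.cast_prod]
      exact h7
  refine ⟨F, hFA, fun c => ?_⟩
  have hFd : F.natDegree ≤ D := by
    rw [hF, natDegree_taylor]
    refine natDegree_sum_le_of_forall_le _ _ fun J hJ => (natDegree_monomial_le _).trans ?_
    have := Finset.mem_range.1 hJ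
    omega
  have hdeg : (hasseDeriv (p ^ c) F - b c).natDegree ≤ D :=
    (natDegree_sub_le _ _).trans (max_le ((natDegree_hasseDeriv_le _ _).trans (by omega))
      ((hbd c).trans (by omega)))
  refine eval_gt_of_coeff hdeg ψ (hkey c) (δ := min δ (m / (2 * (D + 1))))
    (le_min hδ.le (by positivity)) ?_ hψ
  have h3 := min_le_right δ (m / (2 * (D + 1)))
  have h4 : (D : ℝ) * (m / (2 * (D + 1))) < m := by
    rw [mul_div_assoc', div_lt_iff₀ (by positivity)]
    nlinarith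
  have h5 : (0 : ℝ) ≤ D := Nat.cast_nonneg D
  nlinarith

end Int

/-! ### Formal limits -/

section Cau

variable {k Ω : Type u} [Field k] [Field Ω] [Algebra k Ω]

/-- A formal limit of `B` up to `0`: a sequence of `B` which is Cauchy up to `0`. -/
structure Cau (v : RVal Ω) (B : IntermediateField k Ω) (x : ℕ → Ω) : Prop where
  mem : ∀ n, x n ∈ B
  cau : ∀ ε : ℝ, 0 < ε → ∃ N, ∀ m n, N ≤ m → N ≤ n → v.Ge (-ε) (x m - x n)

/-- The sequence is null up to `0`. -/
def Nul (v : RVal Ω) (x : ℕ → Ω) : Prop := ∀ ε : ℝ, 0 < ε → ∃ N, ∀ n, N ≤ n → v.Ge (-ε) (x n)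

variable {v : RVal Ω} {A B E : IntermediateField k Ω} {x y : ℕ → Ω}

omit k [Field k] [Algebra k Ω] in
theorem Nul.zero : Nul v (fun _ => (0 : Ω)) := fun _ _ => ⟨0, fun _ _ => RVal.Ge.zero⟩

theorem Nul.add (hx : Nul v x) (hy : Nul v y) : Nul v (fun n => x n + y n) := by
  intro ε hε
  obtain ⟨N, h1⟩ := hx ε hε
  obtain ⟨M, h2⟩ := hy ε hε
  exact ⟨max N M, fun n hn => (h1 n ((le_max_left _ _).trans hn)).add
    (h2 n ((le_max_right _ _).trans hn))⟩

theorem Nul.neg (hx : Nul v x) : Nul v (fun n => -x n) := by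
  intro ε hε
  obtain ⟨N, h1⟩ := hx ε hε
  exact ⟨N, fun n hn => (h1 n hn).neg⟩

theorem Nul.sub (hx : Nul v x) (hy : Nul v y) : Nul v (fun n => x n - y n) := by
  intro ε hε
  obtain ⟨N, h1⟩ := hx ε hε
  obtain ⟨M, h2⟩ := hy ε hε
  exact ⟨max N M, fun n hn => (h1 n ((le_max_left _ _).trans hn)).sub
    (h2 n ((le_max_right _ _).trans hn))⟩

theorem Nul.of_ge (hx : ∀ n, v.Ge 0 (x n)) : Nul v x :=
  fun ε hε => ⟨0, fun n _ => (hx n).mono (by linarith)⟩

theorem Nul.congr (hx : Nul v x) (h : ∀ n, x n = y n) : Nul v y := by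
  intro ε hε
  obtain ⟨N, h1⟩ := hx ε hε
  exact ⟨N, fun n hn => by rw [← h n]; exact h1 n hn⟩

theorem Nul.const {a : Ω} (h : Nul v (fun _ => a)) : v.Ge 0 a := by
  intro h0
  by_contra h1
  rw [not_le] at h1
  obtain ⟨N, h2⟩ := h (-v a / 2) (by linarith)
  have := h2 N le_rfl h0
  linarith

theorem Nul.of_pow {q : ℕ} (hq : q ≠ 0) (h : Nul v (fun n => x n ^ q)) : Nul v x := by
  intro ε hε
  have hq' : (0 : ℝ) < q := by exact_mod_cast Nat.pos_of_ne_zero hq
  obtain ⟨N, h1⟩ := h (q * ε) (by positivity)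
  refine ⟨N, fun n hn h0 => ?_⟩
  have h2 := h1 n hn (pow_ne_zero _ h0)
  rw [RVal.map_pow _ h0] at h2
  have h3 : (q : ℝ) * (-ε) ≤ q * v (x n) := by linarith
  exact le_of_mul_le_mul_left h3 hq'

theorem Cau.of_nul (hx : Cau v A x) (hy : ∀ n, y n ∈ E) (h : Nul v (fun n => x n - y n)) :
    Cau v E y where
  mem := hy
  cau := by
    intro ε hε
    obtain ⟨N, h1⟩ := hx.cau ε hε
    obtain ⟨M, h2⟩ := h ε hε
    refine ⟨max N M, fun m n hm hn => ?_⟩
    have h3 := h1 m n ((le_max_left _ _).trans hm) ((le_max_left _ _).trans hn)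
    have h4 := h2 m ((le_max_right _ _).trans hm)
    have h5 := h2 n ((le_max_right _ _).trans hn)
    rw [show y m - y n = ((x m - x n) - (x m - y m)) + (x n - y n) by ring]
    exact (h3.sub h4).add h5

theorem Cau.add (hx : Cau v B x) (hy : Cau v B y) : Cau v B (fun n => x n + y n) where
  mem := fun n => add_mem (hx.mem n) (hy.mem n)
  cau := by
    intro ε hε
    obtain ⟨N, h1⟩ := hx.cau ε hε
    obtain ⟨M, h2⟩ := hy.cau ε hε
    refine ⟨max N M, fun m n hm hn => ?_⟩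
    rw [add_sub_add_comm]
    exact (h1 m n ((le_max_left _ _).trans hm) ((le_max_left _ _).trans hn)).add
      (h2 m n ((le_max_right _ _).trans hm) ((le_max_right _ _).trans hn))

theorem Cau.neg (hx : Cau v B x) : Cau v B (fun n => -x n) where
  mem := fun n => neg_mem (hx.mem n)
  cau := by
    intro ε hε
    obtain ⟨N, h1⟩ := hx.cau ε hε
    refine ⟨N, fun m n hm hn => ?_⟩
    rw [show -x m - -x n = -(x m - x n) by ring]
    exact (h1 m n hm hn).neg

theorem Cau.sub (hx : Cau v B x) (hy : Cau v B y) : Cau v B (fun n => x n - y n) where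
  mem := fun n => sub_mem (hx.mem n) (hy.mem n)
  cau := by
    intro ε hε
    obtain ⟨N, h1⟩ := (hx.add hy.neg).cau ε hε
    refine ⟨N, fun m n hm hn => ?_⟩
    have := h1 m n hm hn
    simpa only [sub_eq_add_neg] using this

theorem Cau.const {a : Ω} (ha : a ∈ B) : Cau v B (fun _ => a) where
  mem := fun _ => ha
  cau := fun ε _ => ⟨0, fun _ _ _ _ => by rw [sub_self]; exact RVal.Ge.zero⟩

theorem Cau.mono (hx : Cau v A x) (h : A ≤ B) : Cau v B x := ⟨fun n => h (hx.mem n), hx.cau⟩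

/-- The `q`-th roots of a formal limit, `q` a power of the characteristic. -/
theorem Cau.of_pow (p : ℕ) [Fact p.Prime] [CharP Ω p] {q : ℕ} (hx : ∀ n, x n ∈ B)
    (h : Cau v A (fun n => x n ^ p ^ q)) : Cau v B x where
  mem := hx
  cau := by
    intro ε hε
    have hq' : (0 : ℝ) < (p ^ q : ℕ) := by
      exact_mod_cast pow_pos (Fact.out : p.Prime).pos q
    obtain ⟨N, h1⟩ := h.cau ((p ^ q : ℕ) * ε) (by positivity)
    refine ⟨N, fun m n hm hn h0 => ?_⟩
    have h2 := h1 m n hm hn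
    have h3 : x m ^ p ^ q - x n ^ p ^ q = (x m - x n) ^ p ^ q := (sub_pow_char_pow _ _ _).symm
    rw [h3] at h2
    have h4 := h2 (pow_ne_zero _ h0)
    rw [RVal.map_pow _ h0] at h4
    have h5 : ((p ^ q : ℕ) : ℝ) * (-ε) ≤ (p ^ q : ℕ) * v (x m - x n) := by linarith
    exact le_of_mul_le_mul_left h5 hq'

/-- The sequence of approximations of a limit. -/
theorem Lim.exists_cau {w : Ω} (h : Lim v A 0 w) :
    ∃ m, Cau v A m ∧ Nul v (fun n => w - m n) := by
  have h1 : ∀ n : ℕ, ∃ a ∈ A, v.Ge (-(1 / ((n : ℝ) + 1))) (w - a) := fun n => by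
    obtain ⟨a, ha, h2⟩ := h (1 / ((n : ℝ) + 1)) (by positivity)
    exact ⟨a, ha, by rwa [zero_sub] at h2⟩
  choose m hm h2 using h1
  have h3 : Nul v (fun n => w - m n) := by
    intro ε hε
    obtain ⟨N, hN⟩ := exists_nat_gt (1 / ε)
    refine ⟨N, fun n hn => (h2 n).mono ?_⟩
    have h4 : (N : ℝ) ≤ n := by exact_mod_cast hn
    have h5 : 1 / ((n : ℝ) + 1) ≤ ε := by
      rw [div_le_iff₀ (by positivity)]
      rw [div_lt_iff₀ hε] at hN
      nlinarith
    linarith
  refine ⟨m, ⟨hm, ?_⟩, h3⟩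
  intro ε hε
  obtain ⟨N, h4⟩ := h3 ε hε
  refine ⟨N, fun i j hi hj => ?_⟩
  rw [show m i - m j = (w - m j) - (w - m i) by ring]
  exact (h4 j hj).sub (h4 i hi)

theorem Lim.of_nul {w : Ω} {m : ℕ → Ω} (hm : ∀ n, m n ∈ A) (h : Nul v (fun n => w - m n)) :
    Lim v A 0 w := by
  intro ε hε
  obtain ⟨N, h1⟩ := h ε hε
  exact ⟨m N, hm N, by rw [zero_sub]; exact h1 N le_rfl⟩

/-- The sequence is in `B + L(E)`. -/
def InBL (v : RVal Ω) (B E : IntermediateField k Ω) (x : ℕ → Ω) : Prop :=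
  ∃ b ∈ B, ∃ m, Cau v E m ∧ Nul v (fun n => x n - b - m n)

end Cau

/-! ### CONST -/

section Const

variable {k Ω : Type u} [Field k] [Field Ω] [Algebra k Ω] {v : RVal Ω}
  {A : IntermediateField k Ω} {z : Ω} [IsAlgClosed Ω]

/-- The Hasse derivatives of all orders, from those of order `p ^ c`. -/
theorem hasse_all (h : TL v A z 0) (p : ℕ) [Fact p.Prime] [CharP Ω p] {f : Polynomial Ω}
    (hf : f ∈ PI A) {r : ℝ} {l : ℕ} (hl : 1 ≤ l)
    (hD : ∀ c, p ^ c ∣ l → v.Ge r ((hasseDeriv (p ^ c) f).eval z)) :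
    v.Ge r ((hasseDeriv l f).eval z) := by
  have hp : p.Prime := Fact.out
  obtain ⟨c, m, hm, hcm⟩ := Nat.exists_eq_pow_mul_and_not_dvd (Nat.one_le_iff_ne_zero.1 hl) p
    hp.ne_one
  have hm0 : m ≠ 0 := by rintro rfl; simp at hm
  have hle : p ^ c ≤ l := by rw [hcm]; exact Nat.le_mul_of_pos_right _ (Nat.pos_of_ne_zero hm0)
  have hun : ¬ p ∣ l.choose (p ^ c) := by rw [hcm]; exact not_dvd_choose_self hm
  have h2 := hasse_ge h (hasse_mem_PI hf (p ^ c)) (hD c ⟨m, hcm⟩) (l - p ^ c)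
  have h3 := congrArg (fun L => L f) (hasseDeriv_comp (R := Ω) (l - p ^ c) (p ^ c))
  simp only [LinearMap.comp_apply, LinearMap.smul_apply] at h3
  rw [h3, show l - p ^ c + p ^ c = l by omega, eval_smul, nsmul_eq_mul,
    ← Nat.choose_symm (by omega), show l - (l - p ^ c) = p ^ c by omega] at h2
  exact ge_of_natCast_mul p hun h2

/-- The Hasse derivatives of the orders which are not powers of `p` are strict. -/
theorem hasse_gt_all (h : TL v A z 0) (p : ℕ) [Fact p.Prime] [CharP Ω p] {f : Polynomial Ω}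
    (hf : f ∈ PI A) {r : ℝ} {l : ℕ} (hl : 1 ≤ l) (hlp : ∀ i, l ≠ p ^ i)
    (hD : ∀ c, p ^ c ∣ l → v.Ge r ((hasseDeriv (p ^ c) f).eval z)) :
    Gt v r ((hasseDeriv l f).eval z) := by
  have hp : p.Prime := Fact.out
  obtain ⟨c, m, hm, hcm⟩ := Nat.exists_eq_pow_mul_and_not_dvd (Nat.one_le_iff_ne_zero.1 hl) p
    hp.ne_one
  have hm0 : m ≠ 0 := by rintro rfl; simp at hm
  have hle : p ^ c ≤ l := by rw [hcm]; exact Nat.le_mul_of_pos_right _ (Nat.pos_of_ne_zero hm0)
  have hlt : p ^ c < l := lt_of_le_of_ne hle (hlp c).symm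
  have hun : ¬ p ∣ l.choose (p ^ c) := by rw [hcm]; exact not_dvd_choose_self hm
  obtain ⟨h4, h5⟩ := val_natCast (Ω := Ω) (v := v) p hun
  have h2 := hasse_gt_of_ge h (hasse_mem_PI hf (p ^ c)) (hD c ⟨m, hcm⟩) (l := l - p ^ c) (by omega)
  have h3 := congrArg (fun L => L f) (hasseDeriv_comp (R := Ω) (l - p ^ c) (p ^ c))
  simp only [LinearMap.comp_apply, LinearMap.smul_apply] at h3
  rw [h3, show l - p ^ c + p ^ c = l by omega, eval_smul, nsmul_eq_mul,
    ← Nat.choose_symm (by omega), show l - (l - p ^ c) = p ^ c by omega] at h2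
  intro h6
  have h7 := h2 (mul_ne_zero h4 h6)
  rwa [v.map_mul h4 h6, h5, zero_add] at h7

omit [IsAlgClosed Ω] in
/-- One polynomial: the distance to `A`. -/
theorem exists_near (h : TL v A z 0) {f : Polynomial Ω} (hf : f ∈ PI A) {r : ℝ}
    (hD : ∀ l, 1 ≤ l → v.Ge r ((hasseDeriv l f).eval z)) {ε : ℝ} (hε : 0 < ε) :
    ∃ a ∈ A, v.Ge (r - ε) (f.eval z - a) := by
  refine h.poly_lim hf (r := r) (fun l hl => ?_) ε hε
  rw [taylor_coeff, mul_zero, sub_zero]
  exact hD l hl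

omit [IsAlgClosed Ω] in
/-- One polynomial, finitely many precisions at the same time. -/
theorem exists_near_fin (h : TL v A z 0) {f : Polynomial Ω} (hf : f ∈ PI A) (K : ℕ) :
    ∃ a ∈ A, ∀ j < K, (∀ l, 1 ≤ l → v.Ge (-(1 / ((j : ℝ) + 1))) ((hasseDeriv l f).eval z)) →
      v.Ge (-(2 / ((j : ℝ) + 1))) (f.eval z - a) := by
  induction K with
  | zero => exact ⟨0, zero_mem _, fun j hj => absurd hj (Nat.not_lt_zero _)⟩
  | succ K ih =>
    obtain ⟨a, ha, h1⟩ := ih
    by_cases hK : ∀ l, 1 ≤ l → v.Ge (-(1 / ((K : ℝ) + 1))) ((hasseDeriv l f).eval z)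
    · obtain ⟨a', ha', h2⟩ := exists_near h hf hK (ε := 1 / ((K : ℝ) + 1)) (by positivity)
      refine ⟨a', ha', fun j hj _ => h2.mono ?_⟩
      have h3 : (j : ℝ) + 1 ≤ K + 1 := by
        have : (j : ℝ) ≤ K := by exact_mod_cast (by omega : j ≤ K)
        linarith
      have h4 : 2 / ((K : ℝ) + 1) ≤ 2 / ((j : ℝ) + 1) :=
        div_le_div_of_nonneg_left (by norm_num) (by positivity) h3
      have h5 : 2 / ((K : ℝ) + 1) = 1 / ((K : ℝ) + 1) + 1 / ((K : ℝ) + 1) := by ring
      linarith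
    · refine ⟨a, ha, fun j hj h2 => ?_⟩
      rcases Nat.lt_succ_iff_lt_or_eq.1 hj with hj | rfl
      · exact h1 j hj h2
      · exact absurd h2 hK

omit [IsAlgClosed Ω] in
/-- LEMMA CONST, with uniform bounds: a formal limit of polynomials in `z` whose Hasse derivatives
are null (uniformly in the order) is a formal limit of `A`. -/
theorem const_unif (h : TL v A z 0) {f : ℕ → Polynomial Ω} (hf : ∀ n, f n ∈ PI A)
    {B : IntermediateField k Ω} (hc : Cau v B fun n => (f n).eval z)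
    (hD : ∀ ε : ℝ, 0 < ε → ∃ N, ∀ n, N ≤ n → ∀ l, 1 ≤ l →
      v.Ge (-ε) ((hasseDeriv l (f n)).eval z)) :
    ∃ m, Cau v A m ∧ Nul v (fun n => (f n).eval z - m n) := by
  choose m hm h1 using fun n => exists_near_fin h (hf n) (n + 1)
  have h2 : Nul v (fun n => (f n).eval z - m n) := by
    intro ε hε
    obtain ⟨j, hj⟩ := exists_nat_gt (2 / ε)
    obtain ⟨N, h3⟩ := hD (1 / ((j : ℝ) + 1)) (by positivity)
    refine ⟨max N j, fun n hn => (h1 n j ?_ (h3 n ((le_max_left _ _).trans hn))).mono ?_⟩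
    · have := (le_max_right N j).trans hn
      omega
    · have h5 : 2 / ((j : ℝ) + 1) ≤ ε := by
        rw [div_le_iff₀ (by positivity)]
        rw [div_lt_iff₀ hε] at hj
        nlinarith
      linarith
  exact ⟨m, hc.of_nul hm h2, h2⟩

/-- LEMMA CONST: bounded degree. -/
theorem const_lemma (h : TL v A z 0) (p : ℕ) [Fact p.Prime] [CharP Ω p] {f : ℕ → Polynomial Ω}
    (hf : ∀ n, f n ∈ PI A) {d : ℕ} (hd : ∀ n, (f n).natDegree ≤ d)
    {B : IntermediateField k Ω} (hc : Cau v B fun n => (f n).eval z)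
    (hD : ∀ c, Nul v fun n => (hasseDeriv (p ^ c) (f n)).eval z) :
    ∃ m, Cau v A m ∧ Nul v (fun n => (f n).eval z - m n) := by
  have hp : p.Prime := Fact.out
  refine const_unif h hf hc fun ε hε => ?_
  choose N hN using fun c => hD c ε hε
  refine ⟨(Finset.range (d + 1)).sup N, fun n hn l hl => ?_⟩
  refine hasse_all h p (hf n) hl fun c _ => ?_
  by_cases hc' : c < d + 1
  · exact hN c n ((Finset.le_sup (Finset.mem_range.2 hc')).trans hn)
  · have h1 : c < p ^ c := Nat.lt_pow_self hp.one_lt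
    have h2 := hd n
    rw [hasseDeriv_eq_zero_of_lt_natDegree _ _ (by omega), eval_zero]
    exact RVal.Ge.zero

end Const

/-! ### Lemma R -/

section LemmaR

variable {k Ω : Type u} [Field k] [Field Ω] [Algebra k Ω] {v : RVal Ω}
  {A E : IntermediateField k Ω} {z : Ω} [IsAlgClosed Ω]

/-- LEMMA R (i), for limits. -/
theorem germ_res (hk : Ctx0 k v) (h : TL v A z 0) (p : ℕ) [Fact p.Prime] [CharP Ω p] {w : Ω}
    (hw : w ∈ cadj v A z) (hl : Lim v A 0 w) :
    ∃ e ∈ A, ∃ (N : ℕ) (c : ℕ → k),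
      Gt v 0 (w - (e + ∑ i ∈ Finset.range N, algebraMap k Ω (c i) * z ^ p ^ i)) := by
  obtain ⟨e, he, N, c, hc, h1⟩ := h.germ p (M := {m | m ≠ 0 → v m ≠ 0 ∨ m ∈ Set.range (algebraMap k Ω)})
    (by
      intro c hc hc0
      by_cases hv : v c = 0
      · obtain ⟨c', hc', h2⟩ := hk.res c hc0 hv
        refine ⟨algebraMap k Ω c', fun _ => Or.inr ⟨c', rfl⟩, A.algebraMap_mem c', ?_⟩
        rw [hv]
        exact h2
      · exact ⟨c, fun _ => Or.inl hv, hc, by rw [sub_self]; exact Gt.zero⟩) hw hl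
  have h2 : ∀ i, ∃ c' : k, algebraMap k Ω c' = c i := by
    intro i
    rcases hc i with h3 | ⟨h3, -, h4, h5⟩
    · exact ⟨0, by rw [map_zero, h3]⟩
    · rw [mul_zero, add_zero] at h5
      rcases h3 h4 with h6 | ⟨c', h6⟩
      · exact absurd h5 h6
      · exact ⟨c', h6⟩
  choose c' hc' using h2
  refine ⟨e, he, N, c', ?_⟩
  simp only [hc']
  exact h1

/-- LEMMA R (i): an element of `A⟨z⟩` which is a formal limit of `A`. -/
theorem lemmaR_i (hk : Ctx0 k v) (h : TL v A z 0) (p : ℕ) [Fact p.Prime] [CharP Ω p] {w : Ω}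
    (hw : w ∈ cadj v A z) {m : ℕ → Ω} (hm : Cau v A m) (hl : Nul v fun n => w - m n) :
    ∃ e ∈ A, ∃ (N : ℕ) (c : ℕ → k),
      Gt v 0 (w - (e + ∑ i ∈ Finset.range N, algebraMap k Ω (c i) * z ^ p ^ i)) :=
  germ_res hk h p hw (Lim.of_nul hm.mem hl)

omit [IsAlgClosed Ω] in
theorem exists_root {p : ℕ} (hE : ∀ a ∈ E, ∃ b ∈ E, b ^ p = a) (q : ℕ) :
    ∀ a ∈ E, ∃ b ∈ E, b ^ p ^ q = a := by
  induction q with
  | zero => exact fun a ha => ⟨a, ha, by rw [pow_zero, pow_one]⟩
  | succ q ih =>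
    intro a ha
    obtain ⟨b, hb, h1⟩ := ih a ha
    obtain ⟨c, hc, h2⟩ := hE b hb
    exact ⟨c, hc, by rw [pow_succ', pow_mul, h2, h1]⟩

omit [IsAlgClosed Ω] in
theorem coeff_pow_char_aux (p : ℕ) [Fact p.Prime] [CharP Ω p] (q : ℕ) (T : Polynomial Ω) {l : ℕ}
    (hl : ¬ p ^ q ∣ l) : (T ^ p ^ q).coeff l = 0 := by
  rw [← map_iterateFrobenius_expand (p := p) T q, coeff_map,
    coeff_expand (pow_pos (Fact.out : p.Prime).pos q), if_neg hl, map_zero]

omit [IsAlgClosed Ω] in
theorem hasse_pow_char (p : ℕ) [Fact p.Prime] [CharP Ω p] (q : ℕ) (g : Polynomial Ω) {l : ℕ}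
    (hl : ¬ p ^ q ∣ l) : (hasseDeriv l (g ^ p ^ q)).eval z = 0 := by
  rw [← taylor_coeff, taylor_pow, coeff_pow_char_aux p q _ hl]

/-- A polynomial all of whose Hasse derivatives of orders not divisible by `p ^ q` are integral:
it is a `p ^ q`-th power plus a combination of the `z ^ p ^ i`, `i < q`. -/
theorem root_core (hk : Ctx0 k v) (h : TL v E z 0) (p : ℕ) [Fact p.Prime] [CharP Ω p]
    (hE : ∀ a ∈ E, ∃ b ∈ E, b ^ p = a) (q : ℕ) {f : Polynomial Ω} (hf : f ∈ PI E)
    (hD : ∀ l, 1 ≤ l → ¬ p ^ q ∣ l → v.Ge 0 ((hasseDeriv l f).eval z)) :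
    ∃ g ∈ PI E, ∃ c : ℕ → k, Gt v 0 (f.eval z - g.eval z ^ p ^ q -
      ∑ i ∈ Finset.range q, algebraMap k Ω (c i) * z ^ p ^ i) := by
  classical
  have hp : p.Prime := Fact.out
  -- the residues
  have hres : ∀ i, ∃ c : k, i < q →
      Gt v 0 ((hasseDeriv (p ^ i) f).eval z - algebraMap k Ω c) := by
    intro i
    by_cases hi : i < q
    · obtain ⟨c, hc⟩ := hk.residue (hD (p ^ i) (Nat.one_le_pow _ _ hp.pos) (fun h1 => by
        have := (Nat.pow_dvd_pow_iff_le_right hp.one_lt).1 h1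
        omega))
      exact ⟨c, fun _ => hc⟩
    · exact ⟨0, fun h1 => absurd h1 hi⟩
  choose c hc using hres
  set f₁ := f - addP p q (fun i => algebraMap k Ω (c i)) with hf₁
  have hf₁E : f₁ ∈ PI E := sub_mem hf (addP_mem fun i => E.algebraMap_mem (c i))
  have hgt : ∀ l, 1 ≤ l → ¬ p ^ q ∣ l → Gt v 0 ((hasseDeriv l f₁).eval z) := by
    intro l hl hlq
    rw [← taylor_coeff, hf₁, map_sub, coeff_sub]
    by_cases hlp : ∀ i, l ≠ p ^ i
    · have h2 : (taylor z (addP p q fun i => algebraMap k Ω (c i))).coeff l = 0 := by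
        rw [coeff_taylor_addP p q _ z hl]
        exact Finset.sum_eq_zero fun i _ => if_neg (hlp i)
      rw [h2, sub_zero, taylor_coeff]
      exact hasse_gt_all h p hf hl hlp fun c' hc' =>
        hD _ (Nat.one_le_pow _ _ hp.pos) fun h3 => hlq (h3.trans hc')
    · rw [not_forall] at hlp
      obtain ⟨i, hi⟩ := hlp
      rw [not_not] at hi
      subst hi
      have hiq : i < q := by
        by_contra h3
        exact hlq (pow_dvd_pow p (not_lt.1 h3))
      rw [coeff_taylor_addP_pow, if_pos hiq, taylor_coeff]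
      exact hc i hiq
  -- the margin
  set D := f₁.natDegree with hDdef
  obtain ⟨m, hm, δ, hδ, hmar⟩ := margin_aux h
    (((Finset.range (D + 1)).filter fun l => 1 ≤ l ∧ ¬ p ^ q ∣ l).image fun l => hasseDeriv l f₁)
    (by
      intro g hg
      obtain ⟨l, hl, rfl⟩ := Finset.mem_image.1 hg
      obtain ⟨-, hl1, hl2⟩ := Finset.mem_filter.1 hl
      exact ⟨hasse_mem_PI hf₁E l, hgt l hl1 hl2⟩)
  obtain ⟨ψ, hψE, hψ⟩ := h.lim (min δ (m / (2 * (D + 1)))) (lt_min hδ (by positivity))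
  rw [zero_sub] at hψ
  have hmar' := hmar ψ (hψ.mono (neg_le_neg (min_le_left _ _)))
  set T := taylor ψ f₁ with hT
  have hpq : 0 < p ^ q := pow_pos hp.pos q
  have hTE : T ∈ PI E := taylor_mem_PI hf₁E hψE
  have hTc : ∀ l, 1 ≤ l → ¬ p ^ q ∣ l → v.Ge m (T.coeff l) := by
    intro l hl hlq
    by_cases hlD : l < D + 1
    · rw [hT, taylor_coeff]
      exact hmar' _ (Finset.mem_image.2 ⟨l, Finset.mem_filter.2 ⟨Finset.mem_range.2 hlD, hl, hlq⟩,
        rfl⟩)
    · rw [coeff_eq_zero_of_natDegree_lt (by rw [hT, natDegree_taylor]; omega)]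
      exact RVal.Ge.zero
  -- the root
  set S := contract (p ^ q) T with hS
  have hSc : ∀ j, S.coeff j = T.coeff (j * p ^ q) := fun j => coeff_contract hpq.ne' T j
  choose ρ hρE hρ using fun j => exists_root hE q (S.coeff j) (by rw [hSc]; exact hTE _)
  set g₁ : Polynomial Ω := ∑ j ∈ Finset.range (S.natDegree + 1), monomial j (ρ j) with hg₁
  have hg₁E : g₁ ∈ PI E := sum_mem fun j _ => by
    intro i
    rw [coeff_monomial]
    split_ifs
    exacts [hρE _, zero_mem _]
  set R := T - expand Ω (p ^ q) S with hR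
  have hRc : ∀ l, v.Ge m (R.coeff l) := by
    intro l
    rw [hR, coeff_sub, coeff_expand hpq]
    split_ifs with h3
    · rw [hSc, Nat.div_mul_cancel h3, sub_self]
      exact RVal.Ge.zero
    · rw [sub_zero]
      refine hTc l ?_ h3
      rcases Nat.eq_zero_or_pos l with rfl | h4
      · exact absurd (dvd_zero _) h3
      · exact h4
  have hRd : R.natDegree ≤ D := by
    rw [natDegree_le_iff_coeff_eq_zero]
    intro l hl
    rw [hR, coeff_sub, coeff_expand hpq]
    have h4 : T.coeff l = 0 :=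
      coeff_eq_zero_of_natDegree_lt (by rw [hT, natDegree_taylor]; omega)
    split_ifs with h3
    · rw [hSc, Nat.div_mul_cancel h3, sub_self]
    · rw [h4, sub_zero]
  have hδ' : (D : ℝ) * min δ (m / (2 * (D + 1))) < m := by
    have h3 := min_le_right δ (m / (2 * (D + 1)))
    have h4 : (D : ℝ) * (m / (2 * (D + 1))) < m := by
      rw [mul_div_assoc', div_lt_iff₀ (by positivity)]
      nlinarith
    have h5 : (0 : ℝ) ≤ D := Nat.cast_nonneg D
    nlinarith
  have hRgt : Gt v 0 (R.eval (z - ψ)) := by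
    rw [eval_eq_sum_range' (n := D + 1) (by omega)]
    refine Gt.sum _ _ fun l hl => ?_
    have h1 : l ≤ D := by have := Finset.mem_range.1 hl; omega
    refine Gt.of_ge (RVal.Ge.mul (hRc l) (ge_pow hψ l)) ?_
    have h2 : (l : ℝ) ≤ D := by exact_mod_cast h1
    have h3 : 0 ≤ min δ (m / (2 * ((D : ℝ) + 1))) := le_min hδ.le (by positivity)
    nlinarith
  refine ⟨taylor (-ψ) g₁, taylor_mem_PI hg₁E (neg_mem hψE), c, ?_⟩
  have h1 : f.eval z = f₁.eval z + ∑ i ∈ Finset.range q, algebraMap k Ω (c i) * z ^ p ^ i := by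
    rw [hf₁, eval_sub, addP_eval]; ring
  have h2 : f₁.eval z = R.eval (z - ψ) + (expand Ω (p ^ q) S).eval (z - ψ) := by
    rw [eval_eq_taylor f₁ ψ z, ← hT, hR, eval_sub]; ring
  have h3 : (taylor (-ψ) g₁).eval z = g₁.eval (z - ψ) := by
    rw [taylor_eval, sub_eq_add_neg, add_comm]
  have h4 : (expand Ω (p ^ q) S).eval (z - ψ) = g₁.eval (z - ψ) ^ p ^ q := by
    rw [expand_eval, eval_eq_sum_range, hg₁, eval_finsetSum, sum_pow_char_pow]
    refine Finset.sum_congr rfl fun j _ => ?_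
    rw [eval_monomial, mul_pow, hρ, ← pow_mul, ← pow_mul, mul_comm j]
  rw [h1, h2, h3, h4]
  convert hRgt using 1
  ring

omit [IsAlgClosed Ω] in
theorem Nul.sum_aux (p q : ℕ) [Fact p.Prime] [CharP Ω p] (hk : Ctx0 k v) (c : ℕ → k)
    {x : ℕ → Ω} (hx : Nul v x) :
    Nul v fun n => ∑ i ∈ Finset.range q, algebraMap k Ω (c i) * x n ^ p ^ i := by
  intro ε hε
  have hp : p.Prime := Fact.out
  have hpq : (0 : ℝ) < (p ^ q : ℕ) := by exact_mod_cast pow_pos hp.pos q
  obtain ⟨N, h1⟩ := hx (ε / (p ^ q : ℕ)) (by positivity)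
  refine ⟨N, fun n hn => RVal.Ge.sum _ _ fun i hi => ?_⟩
  refine (RVal.Ge.mul (hk.ge (c i)) (ge_pow (h1 n hn) (p ^ i))).mono ?_
  have h2 : ((p ^ i : ℕ) : ℝ) ≤ (p ^ q : ℕ) := by
    exact_mod_cast Nat.pow_le_pow_right hp.pos (Finset.mem_range.1 hi).le
  have h3 : ((p ^ i : ℕ) : ℝ) * (ε / (p ^ q : ℕ)) ≤ ε := by
    rw [mul_div_assoc', div_le_iff₀ hpq]
    nlinarith
  linarith

/-- LEMMA R (ii): `y ∈ L(B)`, `y ^ p ^ q ∈ B + L(E)` imply `y ∈ B + L(E)`; `E` perfect,
`B = E⟨z⟩`. -/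
theorem lemmaR_ii (hk : Ctx0 k v) (h : TL v E z 0) (p : ℕ) [Fact p.Prime] [CharP Ω p]
    (hE : ∀ a ∈ E, ∃ b ∈ E, b ^ p = a) {q : ℕ} {f : ℕ → Polynomial Ω} (hf : ∀ n, f n ∈ PI E)
    (hc : Cau v (cadj v E z) fun n => (f n).eval z)
    (hb : InBL v (cadj v E z) E fun n => (f n).eval z ^ p ^ q) :
    ∃ g ∈ PI E, ∃ m, Cau v E m ∧ Nul v (fun n => (f n).eval z - g.eval z - m n) := by
  have hp : p.Prime := Fact.out
  obtain ⟨b, hbB, m, hm, hmn⟩ := hb
  obtain ⟨b₀, hb₀, h1⟩ := h.dense hbB 0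
  choose m' hm'E hm' using fun n => exists_root hE q (m n) (hm.mem n)
  set g : ℕ → Polynomial Ω := fun n => f n - Polynomial.C (m' n) with hg
  have hgE : ∀ n, g n ∈ PI E := fun n => sub_mem (hf n) (C_mem_PI (hm'E n))
  have hge : ∀ n, (g n).eval z = (f n).eval z - m' n := fun n => by rw [hg]; simp
  have hgp : ∀ n, (g n).eval z ^ p ^ q = (f n).eval z ^ p ^ q - m n := fun n => by
    rw [hge, sub_pow_char_pow, hm']
  have hgn : Nul v fun n => (g n).eval z ^ p ^ q - b₀.eval z := by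
    refine (hmn.add (Nul.of_ge (v := v) (x := fun _ => b - b₀.eval z) fun _ => h1)).congr
      fun n => ?_
    rw [hgp]; ring
  have hD : ∀ l, 1 ≤ l → ¬ p ^ q ∣ l → v.Ge 0 ((hasseDeriv l b₀).eval z) := by
    intro l hl hlq
    refine Nul.const (v := v) fun ε hε => ?_
    obtain ⟨N, h2⟩ := hgn ε hε
    refine ⟨N, fun n hn => ?_⟩
    have h3 : v.Ge (-ε) ((g n ^ p ^ q - b₀).eval z) := by
      have h4 : (g n ^ p ^ q - b₀).eval z = (g n).eval z ^ p ^ q - b₀.eval z := by
        rw [eval_sub, eval_pow]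
      rw [h4]
      exact h2 n hn
    have h5 := hasse_ge h (sub_mem (pow_mem (hgE n) _) hb₀) h3 l
    rw [map_sub, eval_sub, hasse_pow_char p q (g n) hlq, zero_sub] at h5
    have h6 := RVal.Ge.neg h5
    rwa [neg_neg] at h6
  obtain ⟨b₂, hb₂, c, h2⟩ := root_core hk h p hE q hb₀ hD
  obtain ⟨ζ, hζ, hζn⟩ := Lim.exists_cau h.lim
  choose u huE hu using fun n => exists_root hE q
    (∑ i ∈ Finset.range q, algebraMap k Ω (c i) * ζ n ^ p ^ i)
    (sum_mem fun i _ => mul_mem (E.algebraMap_mem _) (pow_mem (hζ.mem n) _))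
  have h3 : Nul v fun n => (g n).eval z - b₂.eval z - u n := by
    refine Nul.of_pow (q := p ^ q) (pow_pos hp.pos q).ne' ?_
    have h4 := (hgn.add (Nul.of_ge (v := v) (x := fun _ => b₀.eval z - b₂.eval z ^ p ^ q -
      ∑ i ∈ Finset.range q, algebraMap k Ω (c i) * z ^ p ^ i) fun _ => h2.ge)).add
      (Nul.sum_aux p q hk c hζn)
    refine h4.congr fun n => ?_
    have h5 : ∑ i ∈ Finset.range q, algebraMap k Ω (c i) * (z - ζ n) ^ p ^ i =
        (∑ i ∈ Finset.range q, algebraMap k Ω (c i) * z ^ p ^ i) - u n ^ p ^ q := by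
      rw [hu, ← Finset.sum_sub_distrib]
      refine Finset.sum_congr rfl fun i _ => ?_
      rw [sub_pow_char_pow, mul_sub]
    rw [h5, sub_pow_char_pow, sub_pow_char_pow]
    ring
  have h4 : Nul v fun n => (f n).eval z - b₂.eval z - (m' n + u n) := by
    refine h3.congr fun n => ?_
    rw [hge]; ring
  have h5 : b₂.eval z ∈ cadj v E z :=
    eval_mem (PI_mono (le_cadj v E z) hb₂) (self_mem_cadj v E z)
  exact ⟨b₂, hb₂, fun n => m' n + u n, (hc.sub (Cau.const h5)).of_nul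
    (fun n => add_mem (hm'E n) (huE n)) h4, h4⟩

omit [IsAlgClosed Ω] in
theorem InBL.of_poly {x : ℕ → Ω} {g : Polynomial Ω} (hg : g ∈ PI E) {m : ℕ → Ω}
    (hm : Cau v E m) (h : Nul v fun n => x n - g.eval z - m n) : InBL v (cadj v E z) E x :=
  ⟨g.eval z, eval_mem (PI_mono (le_cadj v E z) hg) (self_mem_cadj v E z), m, hm, h⟩

omit [IsAlgClosed Ω] in
/-- Membership in `B + L(E)` only depends on the class. -/
theorem InBL.congr {B : IntermediateField k Ω} {x y : ℕ → Ω} (hx : InBL v B E x)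
    (h : Nul v fun n => x n - y n) : InBL v B E y := by
  obtain ⟨b, hb, m, hm, h1⟩ := hx
  exact ⟨b, hb, m, hm, (h1.sub h).congr fun n => by ring⟩

/-- LEMMA R (ii), for arbitrary representatives. -/
theorem lemmaR_ii' (hk : Ctx0 k v) (h : TL v E z 0) (p : ℕ) [Fact p.Prime] [CharP Ω p]
    (hE : ∀ a ∈ E, ∃ b ∈ E, b ^ p = a) {q : ℕ} {x : ℕ → Ω} (hx : Cau v (cadj v E z) x)
    (hb : InBL v (cadj v E z) E fun n => x n ^ p ^ q) : InBL v (cadj v E z) E x := by
  have hp : p.Prime := Fact.out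
  choose f hf h1 using fun n => h.dense (hx.mem n) 0
  have h2 : Nul v fun n => x n - (f n).eval z := Nul.of_ge h1
  have h3 : Nul v fun n => x n ^ p ^ q - (f n).eval z ^ p ^ q := by
    refine Nul.of_ge fun n => ?_
    rw [← sub_pow_char_pow]
    have h4 := ge_pow (h1 n) (p ^ q)
    rwa [mul_zero] at h4
  have hfB : ∀ n, (f n).eval z ∈ cadj v E z := fun n =>
    eval_mem (PI_mono (le_cadj v E z) (hf n)) (self_mem_cadj v E z)
  obtain ⟨g, hg, m, hm, h4⟩ := lemmaR_ii hk h p hE (q := q) hf (hx.of_nul hfB h2)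
    (InBL.congr hb h3)
  refine InBL.of_poly hg hm ((h4.add h2).congr fun n => by ring)

end LemmaR

end Pool.Agent.TWC
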