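import Pool.Agent.Lib.TWC.PrA

/-!
# TANK W, dimension 4: the descent data, operators with weights

* `exists_etaR`: the choice of the near point;
* `PDat.desc`: `Desc v C E T L (clI v (L ⊔ E))`.
-/

set_option autoImplicit false

open Polynomial

namespace Pool.Agent.TWC

open Pool.Agent.H15JM (RVal)
open Pool.Agent.LU1 (VPos adj)
open Pool.Agent.D2 (Ctx0)
open Pool.Agent.D2P (clI mem_clI)
open Pool.Agent.TWM
open Pool.Agent.TWC.Key (hd ev sp lf)

universe u

variable {k Ω : Type u} [Field k] [Field Ω] [Algebra k Ω] {v : RVal Ω}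
  {B L P N C E LE : IntermediateField k Ω} {m : ℕ} {u : ℕ → Fin m → Ω} {p : ℕ}
  {M : ℕ → Fin m → Ω} {rho : Fin m → ℝ}

/-- A product of `t l ^ F l`, `F l ≤ q`, `t l` of value `≥ σ l - γ`. -/
theorem ge_prod_powR {t : Fin m → Ω} {σ : Fin m → ℝ} {γ : ℝ} (hγ : 0 ≤ γ)
    (ht : ∀ l, v.Ge (σ l - γ) (t l)) {q : ℕ} {F : Fin m → ℕ} (hF : ∀ l, F l < q) :
    v.Ge (∑ l, (F l : ℝ) * σ l - m * q * γ) (∏ l, t l ^ F l) := by
  have h1 := RVal.Ge.prod (v := v) (fun l : Fin m => (F l : ℝ) * σ l - q * γ) Finset.univ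
    (fun l => t l ^ F l) fun l _ => by
      refine (Key.ge_pow (ht l) (m := F l)).mono ?_
      have h2 : (F l : ℝ) ≤ q := by exact_mod_cast (hF l).le
      nlinarith
  refine h1.mono (le_of_eq ?_)
  rw [Finset.sum_sub_distrib, Finset.sum_const, Finset.card_univ, Fintype.card_fin, nsmul_eq_mul]
  ring

/-- The choice of the near point. -/
theorem exists_etaR {n : ℕ} (hlim : ∀ l (ε : ℝ), 0 < ε →
      ∃ h ∈ P, v.Ge (rho l / p ^ n - ε) (u n l - h)) (q : ℕ)
    {ε : ℝ} (hε : 0 < ε) : ∃ η : Fin m → P, ∀ F : Fin m → ℕ, (∀ l, F l < q) →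
      v.Ge (Key.wt p rho n F - ε) (∏ l, (algebraMap P Ω (η l) - u n l) ^ F l) := by
  obtain ⟨γ, hγ, hγε⟩ : ∃ γ : ℝ, 0 < γ ∧ m * q * γ ≤ ε := by
    have h1 : (0 : ℝ) ≤ m * q := by positivity
    refine ⟨ε / (m * q + 1), by positivity, ?_⟩
    rw [← mul_div_assoc, div_le_iff₀ (by positivity)]
    nlinarith
  choose η hη hηu using fun l => hlim l γ hγ
  refine ⟨fun l => ⟨η l, hη l⟩, fun F hF => ?_⟩
  refine (ge_prod_powR hγ.le (t := fun l => algebraMap P Ω ⟨η l, hη l⟩ - u n l)
    (σ := fun l => rho l / p ^ n) (fun l => ?_) hF).mono ?_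
  · change v.Ge (rho l / p ^ n - γ) (η l - u n l)
    have e : η l - u n l = -(u n l - η l) := by ring
    rw [e]
    exact (hηu l).neg
  · rw [Key.wt]
    linarith

namespace PDat

variable [hp : Fact p.Prime] [CharP Ω p] [hcx : Fact (Ctx0 k v)]

/-- **The descent data.** -/
theorem desc (hc : CompleteV v) (h : PDat p v C L E u M rho) :
    Desc v C E (adjT (genW p v C E u M)) L (clI v (L ⊔ E)) := by
  classical
  have hr := h.root
  have hnL : NBR p v L u rho := h.norm
  have hdL := h.dnsN h.le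
  have _ : CharP L p := charP_sub (Ω := Ω) p L
  refine ⟨h.cldL, h.le, rfl, ?_, fun φ hφ => h.ext hc hφ, ?_, ?_⟩
  · -- density
    intro x hx b
    obtain ⟨_, ⟨n, f, rfl⟩, -, h1⟩ := hdL x hx b
    have h2 : ev (u n) f = ∑ i : Fin f.support.card,
        ((f (f.support.equivFin.symm i) : L) : Ω) *
          ∏ l, u n l ^ (f.support.equivFin.symm i : Fin m → ℕ) l := by
      rw [Key.ev, Finsupp.linearCombination_apply, Finsupp.sum,
        ← Finset.sum_coe_sort f.support (fun I => f I • ∏ l, u n l ^ I l),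
        ← Equiv.sum_comp f.support.equivFin.symm]
      exact Finset.sum_congr rfl fun i _ => by rw [Algebra.smul_def]; rfl
    refine ⟨f.support.card, fun i => (f (f.support.equivFin.symm i) : L),
      fun i => ∏ l, u n l ^ (f.support.equivFin.symm i : Fin m → ℕ) l,
      fun i => SetLike.coe_mem _, fun i => prod_mem fun l _ => pow_mem (h.mem n l) _, ?_⟩
    rw [← h2]
    exact h1
  · -- distance
    intro N _ hCN hNL l hl b a ha hla ε hε
    obtain ⟨_, ⟨n, f, rfl⟩, -, h1⟩ := h.dnsN hCN a ha b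
    obtain ⟨η, hη⟩ := exists_etaR (n := n) (h.lim n) (p ^ n) hε
    set η' : Fin m → N := fun i => IntermediateField.inclusion hCN (η i) with hη'
    set f' : (Fin m → ℕ) →₀ L := f.mapRange (IntermediateField.inclusion hNL) (map_zero _) with hf'
    set g : (Fin m → ℕ) →₀ L := Finsupp.single (fun _ => 0) ⟨l, hl⟩ - f' with hg
    have h2 : ev (u n) g = l - ev (u n) f := by
      rw [hg, map_sub, hf', ev_base, Key.ev_single]
      simp
    have h3 : v.Ge b (ev (u n) g) := by
      rw [h2]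
      have e : l - ev (u n) f = (l - a) + (a - ev (u n) f) := by ring
      rw [e]
      exact hla.add h1
    have h4 := Key.ev_sp p n (u := u 0) (u' := u n) (fun i => by
      simpa using root_powM hr 0 n i)
      (fun i => IntermediateField.inclusion hNL (η' i)) g
    have h5 : ev (u 0) (sp (p ^ n) (fun i => IntermediateField.inclusion hNL (η' i)) g) =
        l - ev (u 0) (sp (p ^ n) η' f) := by
      rw [hg, map_sub, hf', sp_base, map_sub, ev_base, Key.sp_single, Key.ev_single]
      simp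
    refine ⟨ev (u 0) (sp (p ^ n) η' f), ev_mem le_rfl (fun i => hCN (h.base i)) _, ?_⟩
    rw [← h5, h4]
    refine RVal.Ge.sum _ _ fun F hF => ?_
    have hF' : ∀ l, F l < p ^ n := fun l => Finset.mem_range.1 ((Fintype.mem_piFinset.1 hF) l)
    refine ((hnL n F hF' g b h3).mul (hη F hF')).mono ?_
    linarith
  · -- descent
    intro N _ hCN hNL x hx _ hder
    have hNB : N ≤ clI v (N ⊔ E) := le_sup_left.trans fun _ ha => LUC.Cl.subset ha
    have hEB : E ≤ clI v (N ⊔ E) := le_sup_right.trans fun _ ha => LUC.Cl.subset ha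
    obtain ⟨_, ⟨n, f, rfl⟩, hfL, h1⟩ := hdL x hx 1
    -- the derivatives
    have h2 : ∀ F : Fin m → ℕ, (∃ l, F l ≠ 0) → (∀ l, F l < p ^ n) →
        ∃ b ∈ clI v (N ⊔ E), Gt v 0 (mW M n F * ev (u n) (hd F f) - b) := by
      intro F hF0 hF
      obtain ⟨φ, hφ⟩ := h.exW hc n F hF
      obtain ⟨Φ, hΦ⟩ := h.exL hc n F hF
      obtain ⟨b, hb, h3⟩ := hder φ (subset_adjT ⟨n, F, hF0, hF, hφ⟩) Φ (h.isExt hφ hΦ)
      have h4 : fn Φ (ev (u n) f) = mW M n F * ev (u n) (hd F f) := by
        have := hΦ 0 f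
        simpa using this
      have h5 := fn_near Φ hx hfL h1
      rw [h4] at h5
      have h6 : v.Ge 0 (mW M n F * ev (u n) (hd F f) - b) := by
        have e : mW M n F * ev (u n) (hd F f) - b =
            (fn Φ x - b) - (fn Φ x - mW M n F * ev (u n) (hd F f)) := by ring
        rw [e]
        exact h3.sub (h5.mono zero_le_one)
      obtain ⟨c, hc'⟩ := hcx.out.residue h6
      refine ⟨b + algebraMap k Ω c, add_mem hb (IntermediateField.algebraMap_mem _ c), ?_⟩
      rw [← sub_sub]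
      exact hc'
    set S : Finset (Fin m → ℕ) := (Fintype.piFinset fun _ : Fin m => Finset.range (p ^ n)).erase
      (fun _ => 0) with hS
    have hSF : ∀ F ∈ S, (∃ l, F l ≠ 0) ∧ ∀ l, F l < p ^ n := by
      intro F hF
      rw [hS, Finset.mem_erase, Fintype.mem_piFinset] at hF
      refine ⟨?_, fun l => Finset.mem_range.1 (hF.2 l)⟩
      by_contra hno
      push Not at hno
      exact hF.1 (funext hno)
    have h3 : ∀ F : Fin m → ℕ, ∃ b ∈ clI v (N ⊔ E),
        F ∈ S → Gt v 0 (mW M n F * ev (u n) (hd F f) - b) := by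
      intro F
      by_cases hF : F ∈ S
      · obtain ⟨b, hb, h4⟩ := h2 F (hSF F hF).1 (hSF F hF).2
        exact ⟨b, hb, fun _ => h4⟩
      · exact ⟨0, zero_mem _, fun h => absurd h hF⟩
    choose b hb hbF using h3
    obtain ⟨δ, hδ, hδF⟩ := Key.exists_delta S
      (fun F δ => v.Ge δ (mW M n F * ev (u n) (hd F f) - b F))
      (fun F δ δ' hle hQ => hQ.mono hle) fun F hF => by
        by_cases h0 : mW M n F * ev (u n) (hd F f) - b F = 0
        · exact ⟨1, one_pos, by rw [h0]; exact RVal.Ge.zero⟩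
        · exact ⟨v (mW M n F * ev (u n) (hd F f) - b F), hbF F hF h0, RVal.ge_self _⟩
    obtain ⟨η, hη⟩ := exists_etaR (n := n) (h.lim n) (p ^ n) (half_pos hδ)
    set η' : Fin m → L := fun i => IntermediateField.inclusion h.le (η i) with hη'
    have h4 := Key.ev_sp p n (u := u 0) (u' := u n) (fun i => by
      simpa using root_powM hr 0 n i) η' f
    have h0S : (fun _ => 0) ∈ Fintype.piFinset fun _ : Fin m => Finset.range (p ^ n) := by
      rw [Fintype.mem_piFinset]
      exact fun l => Finset.mem_range.2 (pow_pos hp.out.pos n)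
    rw [← Finset.add_sum_erase _ _ h0S, Key.hd_zero] at h4
    simp only [pow_zero, Finset.prod_const_one, mul_one] at h4
    refine ⟨ev (u 0) (sp (p ^ n) η' f), ev_mem le_rfl (fun i => h.le (h.base i)) _,
      -∑ F ∈ S, b F * ((mW M n F)⁻¹ * ∏ l, (algebraMap L Ω (η' l) - u n l) ^ F l),
        neg_mem (sum_mem fun F _ => mul_mem (hb F) (mul_mem
          (inv_mem (hEB (mW_mem h.memM n F)))
          (prod_mem fun l _ => pow_mem (sub_mem ?_ (hEB (h.mem n l))) _))), ?_⟩
    · exact hNB (hCN (SetLike.coe_mem (η l)))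
    · have e : x - ev (u 0) (sp (p ^ n) η' f) -
          -∑ F ∈ S, b F * ((mW M n F)⁻¹ * ∏ l, (algebraMap L Ω (η' l) - u n l) ^ F l) =
          (x - ev (u n) f) - ∑ F ∈ S, (mW M n F * ev (u n) (hd F f) - b F) *
            ((mW M n F)⁻¹ * ∏ l, (algebraMap L Ω (η' l) - u n l) ^ F l) := by
        have e2 : ∀ F ∈ S, (mW M n F * ev (u n) (hd F f) - b F) *
            ((mW M n F)⁻¹ * ∏ l, (algebraMap L Ω (η' l) - u n l) ^ F l) =
            ev (u n) (hd F f) * ∏ l, (algebraMap L Ω (η' l) - u n l) ^ F l -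
            b F * ((mW M n F)⁻¹ * ∏ l, (algebraMap L Ω (η' l) - u n l) ^ F l) := by
          intro F _
          have h5 := mW_ne h.ne n F
          field_simp
        rw [h4, Finset.sum_congr rfl e2, Finset.sum_sub_distrib]
        ring
      rw [e]
      refine Gt.sub (Gt.of_ge h1 one_pos) (Gt.sum _ _ fun F hF => ?_)
      have h6 : v.Ge (-Key.wt p rho n F) (mW M n F)⁻¹ := by
        intro _
        rw [v.map_inv (mW_ne h.ne n F), mW_val h.ne h.val]
      refine Gt.of_ge ((hδF F hF).mul (h6.mul (hη F (hSF F hF).2))) ?_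
      linarith

end PDat

end Pool.Agent.TWC
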