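import Pool.Agent.Lib.TWC.Tow
import Pool.Agent.Lib.TWC.PI

/-!
# TANK W, dimension 4: tight elements, rows R2 and R5 of note 3188

* `TL.dist_alg`: the distance of `θ`, algebraic over `C`, to `C⟨u⟩` is its distance to `C`;
  `Tow.dist_alg`: the same for a tower;
* `Tgt0 p v K f`: `f` is tight of level `0`; `Tgt0.tow`: it stays so in a tower;
* `exists_tgt`: `C = N⟨y⟩`, `y` of transcendental type over `E ≥ N`; if all the roots of
  `P(y) - n` are limits of `C`, there is a tight element near to one of them.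
-/

set_option autoImplicit false
set_option linter.unusedSectionVars false

open Polynomial

namespace Pool.Agent.TWC

open Pool.Agent.H15JM (RVal)
open Pool.Agent.LU1 (VPos adj)
open Pool.Agent.D2 (Ctx0)
open Pool.Agent.D2P (hen clI mem_clI)
open Pool.Agent.TWM

universe u

variable {k Ω : Type u} [Field k] [Field Ω] [Algebra k Ω] {v : RVal Ω}
  {N C E K : IntermediateField k Ω} {u y θ w : Ω} {s : ℝ} [IsAlgClosed Ω]

/-! ### The distance of an algebraic element -/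

/-- The distance of `θ`, algebraic over `C`, to `C⟨u⟩` is its distance to `C`. -/
theorem TL.dist_alg (h : TL v C u s) (hθ : θ ∈ TWM.algc C) (hw : w ∈ cadj v C u) {b : ℝ}
    (hb : v.Ge b (θ - w)) : ∃ c ∈ C, v.Ge b (θ - c) := by
  obtain ⟨f, hf, h1⟩ := h.dense hw b
  set F : Polynomial Ω := Polynomial.C θ - f with hF
  have hFm : F ∈ PI (TWM.algc C) := sub_mem (C_mem_PI hθ) (PI_mono (le_algc C) hf)
  have hFu : v.Ge b (F.eval u) := by
    rw [hF, eval_sub, eval_C]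
    have := hb.add h1
    rwa [sub_add_sub_cancel] at this
  by_cases h0 : F = 0
  · obtain ⟨c, hc, -⟩ := h.lim 1 one_pos
    refine ⟨f.eval c, eval_mem hf hc, ?_⟩
    have h2 : θ - f.eval c = F.eval c := by rw [hF, eval_sub, eval_C]
    rw [h2, h0, eval_zero]
    exact RVal.Ge.zero
  · obtain ⟨δ, hδ, h2⟩ := h.near_val hFm h0
    obtain ⟨c, hc, h3⟩ := h.lim δ hδ
    obtain ⟨-, h4⟩ := h2 c h3
    refine ⟨f.eval c, eval_mem hf hc, ?_⟩
    have h5 : θ - f.eval c = F.eval c := by rw [hF, eval_sub, eval_C]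
    rw [h5]
    intro _
    rw [h4]
    exact hFu (h.eval_ne hFm h0)

/-- The same, strict inequality. -/
theorem TL.dist_alg_gt (h : TL v C u s) (hθ : θ ∈ TWM.algc C) (hw : w ∈ cadj v C u) {b : ℝ}
    (hb : Gt v b (θ - w)) : ∃ c ∈ C, Gt v b (θ - c) := by
  by_cases h0 : θ - w = 0
  · obtain ⟨c, hc, h1⟩ := TL.dist_alg h hθ hw (b := b + 1) (by rw [h0]; exact RVal.Ge.zero)
    exact ⟨c, hc, Gt.of_ge h1 (by linarith)⟩
  · obtain ⟨c, hc, h1⟩ := TL.dist_alg h hθ hw (RVal.ge_self _)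
    exact ⟨c, hc, Gt.of_ge h1 (hb h0)⟩

omit [IsAlgClosed Ω] in
theorem algc_mono {A B : IntermediateField k Ω} (h : A ≤ B) : TWM.algc A ≤ TWM.algc B :=
  fun _ hx => mem_algc.2 (D2P.isAlgebraic_mono h (mem_algc.1 hx))

theorem Tow.dist_alg {n : ℕ} (h : Tow v n C K) (hθ : θ ∈ TWM.algc C) (hw : w ∈ K) {b : ℝ}
    (hb : v.Ge b (θ - w)) : ∃ c ∈ C, v.Ge b (θ - c) := by
  induction h with
  | zero _ => exact ⟨w, hw, hb⟩
  | @succ n A B z hz _ ih =>
    obtain ⟨c, hc, h1⟩ := ih (algc_mono (le_cadj v A z) hθ) hw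
    exact TL.dist_alg hz hθ hc h1

theorem Tow.dist_alg_gt {n : ℕ} (h : Tow v n C K) (hθ : θ ∈ TWM.algc C) (hw : w ∈ K) {b : ℝ}
    (hb : Gt v b (θ - w)) : ∃ c ∈ C, Gt v b (θ - c) := by
  by_cases h0 : θ - w = 0
  · obtain ⟨c, hc, h1⟩ := h.dist_alg hθ hw (b := b + 1) (by rw [h0]; exact RVal.Ge.zero)
    exact ⟨c, hc, Gt.of_ge h1 (by linarith)⟩
  · obtain ⟨c, hc, h1⟩ := h.dist_alg hθ hw (RVal.ge_self _)
    exact ⟨c, hc, Gt.of_ge h1 (hb h0)⟩

/-! ### Tight elements of level `0` -/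

section P

variable (p : ℕ) [hp : Fact p.Prime] [CharP Ω p]

omit [IsAlgClosed Ω] hp [CharP Ω p] in
variable {p} in
/-- `f` is tight of level `0`. -/
structure Tgt0 (p : ℕ) (v : RVal Ω) (K : IntermediateField k Ω) (f : Ω) : Prop where
  mem : f ∈ K
  far : ∀ g ∈ K, ¬ Gt v 0 (f - g ^ p)
  near : ∀ (m : ℕ) (ε : ℝ), 0 < ε → ∃ g ∈ K, v.Ge (0 - ε) (f - g ^ p ^ (m + 1))

/-- A tight element stays so in a tower. -/
theorem Tgt0.tow {n : ℕ} (h : Tow v n C K) {f : Ω} (hf : Tgt0 p v C f) : Tgt0 p v K f where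
  mem := by
    have h1 : ∀ {n : ℕ} {A B : IntermediateField k Ω}, Tow v n A B → A ≤ B := by
      intro n A B h
      induction h with
      | zero _ => exact le_rfl
      | @succ n A B z _ _ ih => exact (le_cadj v A z).trans ih
    exact h1 h hf.mem
  far := by
    intro g hg hgt
    obtain ⟨t, ht⟩ := IsAlgClosed.exists_pow_nat_eq f hp.out.pos
    rw [← ht, ← sub_pow_char] at hgt
    have h1 : Gt v 0 (t - g) := by
      intro h0
      have h2 := hgt (pow_ne_zero _ h0)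
      rw [v.map_pow h0] at h2
      have hp0 : (0 : ℝ) < p := by exact_mod_cast hp.out.pos
      exact (mul_pos_iff_of_pos_left hp0).1 h2
    have h3 : t ∈ TWM.algc C := mem_algc.2 (isAlgebraic_of_pow_mem p (by rw [ht]; exact hf.mem))
    obtain ⟨c, hc, h4⟩ := h.dist_alg_gt h3 hg h1
    refine hf.far c hc ?_
    rw [← ht, ← sub_pow_char]
    have := gt_pow (p := p) h4
    rwa [mul_zero] at this
  near m ε hε := by
    have h1 : ∀ {n : ℕ} {A B : IntermediateField k Ω}, Tow v n A B → A ≤ B := by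
      intro n A B h
      induction h with
      | zero _ => exact le_rfl
      | @succ n A B z _ _ ih => exact (le_cadj v A z).trans ih
    obtain ⟨g, hg, h2⟩ := hf.near m ε hε
    exact ⟨g, h1 h hg, h2⟩

/-- `P(y) - n` has no `p ^ m`-th root near `E⟨y⟩` for large `m`. -/
theorem root_far (hy : TL v E y 0) {i₀ M : ℕ} {P : ℕ → k} (hi₀ : i₀ < M) (hP0 : ∀ i < i₀, P i = 0)
    (hP : P i₀ ≠ 0) {n : Ω} (hn : n ∈ E) (hk : Ctx0 k v) {m : ℕ} (hm : i₀ < m) {g : Ω}
    (hg : g ∈ cadj v E y)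
    (hgt : Gt v 0 (∑ i ∈ Finset.range M, algebraMap k Ω (P i) * y ^ p ^ i - n - g ^ p ^ m)) :
    False := by
  have hq : 0 < p ^ m := pow_pos hp.out.pos m
  obtain ⟨G, hG, h1⟩ := hy.dense hg 1
  set F : Polynomial Ω := ∑ i ∈ Finset.range M, Polynomial.C (algebraMap k Ω (P i)) * X ^ p ^ i -
    Polynomial.C n - G ^ p ^ m with hF
  have hFm : F ∈ PI E := sub_mem (sub_mem (sum_mem fun i _ => mul_mem
    (C_mem_PI (E.algebraMap_mem _)) (pow_mem X_mem_PI _)) (C_mem_PI hn)) (pow_mem hG _)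
  have hFy : Gt v 0 (F.eval y) := by
    have h2 : F.eval y = (∑ i ∈ Finset.range M, algebraMap k Ω (P i) * y ^ p ^ i - n -
        g ^ p ^ m) + (g - G.eval y) ^ p ^ m := by
      rw [hF, sub_pow_char_pow, eval_sub, eval_sub, eval_finsetSum, eval_C, eval_pow]
      simp only [eval_mul, eval_C, eval_pow, eval_X]
      ring
    rw [h2]
    refine hgt.add (Gt.of_ge (ge_pow h1 (p ^ m)) ?_)
    rw [mul_one]
    exact_mod_cast hq
  have h3 := hasse_gt hy hFm hFy (p ^ i₀)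
  have h4 : (hasseDeriv (p ^ i₀) (G ^ p ^ m)).eval y = 0 := by
    refine hasse_pow_char p m G fun hd => ?_
    exact absurd ((Nat.pow_dvd_pow_iff_le_right hp.out.one_lt).1 hd) (by omega)
  have h5 : (hasseDeriv (p ^ i₀) F).eval y = algebraMap k Ω (P i₀) := by
    have h6 : hasseDeriv (p ^ i₀) (Polynomial.C n) = 0 :=
      hasseDeriv_C _ _ (pow_pos hp.out.pos _)
    rw [hF, map_sub, map_sub, eval_sub, eval_sub, h4, h6, eval_zero, sub_zero, sub_zero, map_sum,
      eval_finsetSum, Finset.sum_eq_single i₀]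
    · rw [← smul_eq_C_mul, map_smul, eval_smul, smul_eq_mul, ← monomial_one_right_eq_X_pow,
        hasseDeriv_monomial, Nat.choose_self, Nat.sub_self, eval_monomial, pow_zero]
      simp
    · intro i _ hi
      rcases lt_or_gt_of_ne hi with h7 | h7
      · rw [hP0 i h7, map_zero, C_0, zero_mul, map_zero, eval_zero]
      · rw [← smul_eq_C_mul, map_smul, eval_smul, smul_eq_mul]
        have h8 : (hasseDeriv (p ^ i₀) ((X : Polynomial Ω) ^ p ^ i)).eval y = 0 :=
          hasse_pow_char p i X fun hd =>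
            absurd ((Nat.pow_dvd_pow_iff_le_right hp.out.one_lt).1 hd) (by omega)
        rw [h8, mul_zero]
    · intro h7
      exact absurd (Finset.mem_range.2 hi₀) h7
  rw [h5] at h3
  exact hP (hk.const_eq_zero h3)

/-- **A tight element of level `0`** (row R5). -/
theorem exists_tgt (hk : Ctx0 k v) (hNE : N ≤ E) (hy : TL v E y 0) {i₀ M : ℕ} {P : ℕ → k}
    (hi₀ : i₀ < M) (hP0 : ∀ i < i₀, P i = 0) (hP : P i₀ ≠ 0) {n : Ω} (hn : n ∈ N) {r : ℕ → Ω}
    (hr : ∀ m, r (m + 1) ^ p = r m)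
    (hr0 : r 0 = ∑ i ∈ Finset.range M, algebraMap k Ω (P i) * y ^ p ^ i - n)
    (hlim : ∀ m, Lim v (cadj v N y) 0 (r m)) :
    ∃ (e : ℕ) (f : Ω), Gt v 0 (r e - f) ∧ Tgt0 p v (cadj v N y) f := by
  classical
  set C := cadj v N y with hC
  have hCE : C ≤ cadj v E y := cadj_mono hNE y
  have hrp : ∀ i j, r (i + j) ^ p ^ j = r i := by
    intro i j
    induction j with
    | zero => simp
    | succ j ih => rw [← add_assoc, pow_succ', pow_mul, hr, ih]
  have hr0C : r 0 ∈ C := by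
    rw [hr0]
    exact sub_mem (sum_mem fun i _ => mul_mem (C.algebraMap_mem _)
      (pow_mem (self_mem_cadj v N y) _)) (le_cadj v N y hn)
  -- the maximal `e`
  have hex : ∃ m, ¬ Nr' v C 0 (r m) := by
    refine ⟨i₀ + 1, ?_⟩
    rintro ⟨g, hg, h1⟩
    refine root_far p hy hi₀ hP0 hP (hNE hn) hk (m := i₀ + 1) (by omega) (hCE hg) ?_
    have h2 := hrp 0 (i₀ + 1)
    rw [zero_add] at h2
    rw [← hr0, ← h2, ← sub_pow_char_pow]
    intro h0
    have h3 : r (i₀ + 1) - g ≠ 0 := fun h => h0 (by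
      rw [h, zero_pow (pow_pos hp.out.pos _).ne'])
    rw [v.map_pow h3]
    exact mul_pos (by exact_mod_cast pow_pos hp.out.pos _) (h1 h3)
  obtain ⟨e, he⟩ : ∃ e, Nat.find hex = e + 1 := by
    refine Nat.exists_eq_succ_of_ne_zero fun h0 => ?_
    have h1 := Nat.find_spec hex
    rw [h0] at h1
    exact h1 ⟨r 0, hr0C, by rw [sub_self]; exact Gt.zero⟩
  have hfar : ¬ Nr' v C 0 (r (e + 1)) := by
    have := Nat.find_spec hex
    rwa [he] at this
  have hnear : Nr' v C 0 (r e) := by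
    by_contra h1
    have := Nat.find_min' hex h1
    omega
  obtain ⟨f, hf, h1⟩ := hnear
  refine ⟨e, f, h1, hf, fun g hg h2 => hfar ⟨g, hg, ?_⟩, fun m ε hε => ?_⟩
  · have h3 : Gt v 0 ((r (e + 1) - g) ^ p) := by
      rw [sub_pow_char, hr]
      have h4 := h1.add h2
      rwa [sub_add_sub_cancel] at h4
    intro h0
    have h4 := h3 (pow_ne_zero _ h0)
    rw [v.map_pow h0] at h4
    exact (mul_pos_iff_of_pos_left (by exact_mod_cast hp.out.pos)).1 h4
  · have hq : (0 : ℝ) < (p ^ (m + 1) : ℕ) := by exact_mod_cast pow_pos hp.out.pos _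
    obtain ⟨g, hg, h2⟩ := hlim (e + (m + 1)) (ε / (p ^ (m + 1) : ℕ)) (by positivity)
    refine ⟨g, hg, ?_⟩
    have h3 := ge_pow h2 (p ^ (m + 1))
    rw [sub_pow_char_pow, hrp] at h3
    have h4 : f - g ^ p ^ (m + 1) = (r e - g ^ p ^ (m + 1)) - (r e - f) := by ring
    rw [h4]
    refine (h3.mono (le_of_eq ?_)).sub (h1.ge.mono (by linarith))
    rw [zero_sub, zero_sub, mul_neg, mul_div_cancel₀ _ hq.ne']

end P

end Pool.Agent.TWC
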