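import Pool.Agent.Lib.TWC.IsoL
import Pool.Agent.Lib.TWC.IsoD
import Pool.Agent.Lib.TWC.SND
import Pool.Agent.Lib.TWC.TightA
import Pool.Agent.Lib.TWC.TowR1

/-!
# TANK W, class C: tight pairs of any level

* `TP p v L x w r s`: `x` is tight of level `r` in `L`, `w 0 ∈ L`, `w 1` is far (level `s / p`) from the
  closed field generated by `L` and the roots of `x`, and the `w n` are limits of `L` up to `s / p ^ n`;
* `TP.isoL`, `IsoL.tp`: the same as `IsoL p v L ![x, w] ![r, s]`;
* `TP.snd_x`, `TP.snd_w`: `x` is tight over `L(w ^ (1 / p ^ ∞))`, `w` is tight over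
  `L(x ^ (1 / p ^ ∞))`;
* `TP.tl`, `TP.towR`: a tight pair of `C` is a tight pair of every tower over `C`.
-/

set_option autoImplicit false
set_option linter.unusedSectionVars false

open Polynomial

namespace Pool.Agent.TWC

open Pool.Agent.H15JM (RVal)
open Pool.Agent.LU1 (VPos adj)
open Pool.Agent.D2 (Ctx0)
open Pool.Agent.D2P (clI mem_clI)
open Pool.Agent.TWM
open Pool.Agent.TWC.Key (hd ev sp)

universe u

variable {k Ω : Type u} [Field k] [Field Ω] [Algebra k Ω] {v : RVal Ω}

/-- A tight pair, of levels `r`, `s`. -/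
structure TP (p : ℕ) (v : RVal Ω) (L : IntermediateField k Ω) (x w : ℕ → Ω) (r s : ℝ) :
    Prop where
  tgt : Tgt p v L x r
  mem : w 0 ∈ L
  root : ∀ n, w (n + 1) ^ p = w n
  far : ¬ Nr' v (EW v L x) (s / p) (w 1)
  lim : ∀ n, Lim v L (s / p ^ n) (w n)

section Fields

variable {L : IntermediateField k Ω} {x w : ℕ → Ω}

theorem Lx_zero (hL : Cld v L) {m : ℕ} (u : ℕ → Fin m → Ω) : Lx v L u 0 = L := by
  have h1 : {x : Ω | ∃ (n : ℕ) (j : Fin m), (j : ℕ) < 0 ∧ x = u n j} = ∅ := by
    ext y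
    simp
  rw [Lx, h1, IntermediateField.adjoin_empty, sup_bot_eq]
  exact le_antisymm hL (self_le_clI v L)

theorem Lx_one (L : IntermediateField k Ω) (x w : ℕ → Ω) :
    Lx v L (fun n => ![x n, w n]) 1 = EW v L x := by
  have h1 : {y : Ω | ∃ (n : ℕ) (j : Fin 2), (j : ℕ) < 1 ∧ y = ![x n, w n] j} = Set.range x := by
    ext y
    constructor
    · rintro ⟨n, j, hj, rfl⟩
      have h2 : j = 0 := Fin.ext (by simpa using hj)
      rw [h2]
      exact ⟨n, rfl⟩
    · rintro ⟨n, rfl⟩
      exact ⟨n, 0, by simp, rfl⟩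
  rw [Lx, h1, EW]

end Fields

section Pair

variable {p : ℕ} {L C : IntermediateField k Ω} {x w : ℕ → Ω} {r s : ℝ}

theorem TP.isoL (h : TP p v L x w r s) : IsoL p v L (fun n => ![x n, w n]) ![r, s] where
  cld := h.tgt.cld
  mem := by
    intro l
    fin_cases l
    · exact h.tgt.mem
    · exact h.mem
  root := by
    intro n l
    fin_cases l
    · exact h.tgt.root n
    · exact h.root n
  far := by
    intro l
    fin_cases l
    · change ¬ Nr' v (Lx v L (fun n => ![x n, w n]) 0) (r / p) (x 1)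
      rw [Lx_zero h.tgt.cld]
      have h1 := (h.tgt.dst 0).far
      rwa [zero_add, pow_one] at h1
    · change ¬ Nr' v (Lx v L (fun n => ![x n, w n]) 1) (s / p) (w 1)
      rw [Lx_one]
      exact h.far
  lim := by
    intro n l ε hε
    fin_cases l
    · change ∃ h ∈ L, v.Ge (r / p ^ n - ε) (x n - h)
      cases n with
      | zero => exact ⟨x 0, h.tgt.mem, by rw [sub_self]; exact RVal.Ge.zero⟩
      | succ n => exact (h.tgt.dst n).near ε hε
    · exact h.lim n ε hε

theorem IsoL.tp [hp : Fact p.Prime] [CharP Ω p]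
    (h : IsoL p v L (fun n => ![x n, w n]) ![r, s]) : TP p v L x w r s where
  tgt := {
    cld := h.cld
    mem := h.mem 0
    root := fun n => h.root n 0
    dst := fun n => by
      refine ⟨?_, fun ε hε => h.lim (n + 1) 0 ε hε⟩
      have h1 := h.far' (Nat.succ_ne_zero n) 0
      change ¬ Nr' v (Lx v L (fun n => ![x n, w n]) 0) (r / p ^ (n + 1)) (x (n + 1)) at h1
      rwa [Lx_zero h.cld] at h1 }
  mem := h.mem 1
  root n := h.root n 1
  far := by
    have h1 := h.far 1
    change ¬ Nr' v (Lx v L (fun n => ![x n, w n]) 1) (s / p) (w 1) at h1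
    rwa [Lx_one] at h1
  lim n ε hε := h.lim n 1 ε hε

/-! ### The distances over the roots of the other element -/

/-- The elements of the closure of `L(b ^ (1 / p ^ ∞))` are near to polynomials in the roots. -/
theorem dns_EW0 (hr : ∀ n, x (n + 1) ^ p = x n) (hp : 0 < p) (h0 : x 0 ∈ L) :
    DnsS v (AU L (fun n => (fun _ : Fin 1 => x n))) (EW v L x) := by
  intro y hy b
  obtain ⟨z, hz, h1⟩ := mem_clI.1 hy b
  refine ⟨z, ?_, self_le_clI v _ hz, h1⟩
  refine AU.field (u := fun n => (fun _ : Fin 1 => x n)) (fun n _ => hr n) hp (fun _ => h0) ?_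
  have h2 : {y : Ω | ∃ (n : ℕ) (_ : Fin 1), y = x n} = Set.range x := by
    ext y
    constructor
    · rintro ⟨n, _, rfl⟩
      exact ⟨n, rfl⟩
    · rintro ⟨n, rfl⟩
      exact ⟨n, 0, rfl⟩
  rw [h2]
  exact hz

/-- A limit of elements of value `> c`. -/
theorem gt_near {c : ℝ} {y z : Ω} (h : Gt v c y) (hz : v.Ge (c + 1) (z - y)) : Gt v c z := by
  have h1 := h.add (Gt.of_ge hz (by linarith))
  rwa [add_sub_cancel] at h1

theorem IsoL.far_AU [hp : Fact p.Prime] [CharP k p] [CharP Ω p] [IsAlgClosed Ω] (h0 : Ctx0 k v)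
    (hc : CompleteV v) {m : ℕ} {u : ℕ → Fin m → Ω} {ρ : Fin m → ℝ} (h : IsoL p v L u ρ)
    {l j : Fin m} (hlj : l ≠ j) {a : Ω} (ha : a ∈ AU L (fun n => (fun _ : Fin 1 => u n j))) :
    ¬ Gt v (ρ l / p) (u 1 l - a) := by
  classical
  have hp0 : (0 : ℝ) < p := by exact_mod_cast hp.out.pos
  have _ : CharP L p :=
    (RingHom.charP_iff (algebraMap L Ω) (algebraMap L Ω).injective p).2 inferInstance
  intro hgt
  obtain ⟨b, hb, hbr⟩ : ∃ b : ℝ, v.Ge b (u 1 l - a) ∧ ρ l / p < b := by
    by_cases h1 : u 1 l - a = 0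
    · exact ⟨ρ l / p + 1, by rw [h1]; exact RVal.Ge.zero, by linarith⟩
    · exact ⟨_, RVal.ge_self _, hgt h1⟩
  obtain ⟨n, f, rfl⟩ := ha
  have h2 := ev_lift (p := p) (u := fun n => (fun _ : Fin 1 => u n j)) (fun n _ => h.root n j) n 1 f
  set f₁ := Key.lf (p ^ 1) f with hf₁
  set φ : (Fin 1 → ℕ) → (Fin m → ℕ) := fun I t => if t = j then I 0 else 0 with hφ
  set f' := f₁.mapDomain φ with hf'
  have h3 : ∀ g : (Fin 1 → ℕ) →₀ L, ev (u (n + 1)) (g.mapDomain φ) =
      ev (fun _ : Fin 1 => u (n + 1) j) g := by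
    intro g
    induction g using Finsupp.induction_linear with
    | zero => simp
    | add f g hf hg => rw [Finsupp.mapDomain_add, map_add, map_add, hf, hg]
    | single I c =>
      rw [Finsupp.mapDomain_single, Key.ev_single, Key.ev_single]
      congr 1
      rw [Finset.prod_eq_single j]
      · rw [hφ]
        simp
      · intro t _ ht
        rw [hφ]
        simp [ht]
      · intro h4
        exact absurd (Finset.mem_univ j) h4
  set F : Fin m → ℕ := fun t => if t = l then p ^ n else 0 with hFdef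
  have hF : ∀ t, F t < p ^ (n + 1) := by
    intro t
    rw [hFdef]
    simp only
    split_ifs
    · exact Nat.pow_lt_pow_right hp.out.one_lt (Nat.lt_succ_self n)
    · exact pow_pos hp.out.pos _
  set g : (Fin m → ℕ) →₀ L := Finsupp.single F 1 - f' with hg
  have h4 : ev (u (n + 1)) g = u 1 l - ev (fun _ : Fin 1 => u n j) f := by
    rw [hg, map_sub, hf', h3, h2, Key.ev_single, map_one, one_mul]
    congr 1
    rw [Finset.prod_eq_single l]
    · rw [hFdef]
      simp only [if_true]
      have h5 := h.root_pow 1 n l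
      rwa [add_comm] at h5
    · intro t _ ht
      rw [hFdef]
      simp [ht]
    · intro h5
      exact absurd (Finset.mem_univ l) h5
  have h5 := h.norm_le h0 hc (n + 1) F hF g (b := b) (by rw [h4]; exact hb)
  have h6 : hd F f' = 0 := by
    refine Key.hd_eq_zero fun I hI => ⟨l, ?_⟩
    obtain ⟨I', -, rfl⟩ := Finset.mem_image.1 (Finsupp.mapDomain_support hI)
    rw [hφ, hFdef]
    simp only [if_neg hlj, if_true]
    exact pow_pos hp.out.pos _
  have h7 : ev (u (n + 1)) (hd F g) = 1 := by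
    rw [hg, map_sub, h6, sub_zero, Key.hd_single, Key.ev_single]
    simp
  have h8 : ∑ t, (F t : ℝ) * (ρ t / p ^ (n + 1)) = ρ l / p := by
    rw [Finset.sum_eq_single l]
    · rw [hFdef]
      simp only [if_true]
      push_cast
      rw [pow_succ]
      field_simp
    · intro t _ ht
      rw [hFdef]
      simp [ht]
    · intro h5
      exact absurd (Finset.mem_univ l) h5
  rw [h7, h8] at h5
  have h9 := h5 one_ne_zero
  rw [v.map_one] at h9
  linarith

variable [hp : Fact p.Prime] [CharP k p] [CharP Ω p] [IsAlgClosed Ω]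

/-- `u 1 l` is far from the closed field generated by `L` and the roots of `u 0 j`. -/
theorem IsoL.far_EW (h0 : Ctx0 k v) (hc : CompleteV v) {m : ℕ} {u : ℕ → Fin m → Ω}
    {ρ : Fin m → ℝ} (h : IsoL p v L u ρ) {l j : Fin m} (hlj : l ≠ j) :
    ¬ Nr' v (EW v L fun n => u n j) (ρ l / p) (u 1 l) := by
  rintro ⟨a, ha, h1⟩
  obtain ⟨a', ha', -, h2⟩ := dns_EW0 (fun n => h.root n j) hp.out.pos (h.mem j) a ha (ρ l / p + 1)
  refine h.far_AU h0 hc hlj ha' (gt_near h1 ?_)
  have e : u 1 l - a' - (u 1 l - a) = a - a' := by ring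
  rw [e]
  exact h2

omit [CharP k p] [IsAlgClosed Ω] in
/-- The distances of all the roots from the distance of the first one. -/
theorem dst_of_one {B : IntermediateField k Ω} {r : ℝ} (hr : ∀ n, x (n + 1) ^ p = x n)
    (hfar : ¬ Nr' v B (r / p) (x 1)) (hlim : ∀ n, Lim v B (r / p ^ n) (x n)) (n : ℕ) :
    Dst v B (x (n + 1)) (r / p ^ (n + 1)) := by
  have hp0 : (0 : ℝ) < p := by exact_mod_cast hp.out.pos
  refine ⟨?_, hlim (n + 1)⟩
  rintro ⟨a, ha, h1⟩
  refine hfar ⟨a ^ p ^ n, pow_mem ha _, ?_⟩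
  have h2 : x (1 + n) ^ p ^ n = x 1 := root_pow_add hr 1 n
  rw [add_comm] at h2
  rw [← h2, ← sub_pow_char_pow]
  have h3 := (gt_pow_iff (v := v) (N := p ^ n) (pow_pos hp.out.pos _)).2 h1
  push_cast at h3
  rw [pow_succ] at h3
  have e : (p : ℝ) ^ n * (r / (p ^ n * p)) = r / p := by field_simp
  rwa [e] at h3

omit [CharP Ω p] hp [CharP k p] [IsAlgClosed Ω] in
theorem TP.lim_x (h : TP p v L x w r s) (n : ℕ) : Lim v L (r / p ^ n) (x n) := fun ε hε =>
  h.isoL.lim n 0 ε hε

/-- `x` is tight over the roots of `w`. -/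
theorem TP.snd_x (h0 : Ctx0 k v) (hc : CompleteV v) (h : TP p v L x w r s) :
    SND p v (EW v L w) x fun n => r / p ^ n := by
  refine SND.of_dst EW.cld (EW.le h.tgt.mem) h.tgt.root fun n => ?_
  exact dst_of_one h.tgt.root (h.isoL.far_EW h0 hc (l := 0) (j := 1) (by decide))
    (fun n => (h.lim_x n).mono EW.le) n

/-- `x` is tight over the roots of `w`. -/
theorem TP.tgt_x (h0 : Ctx0 k v) (hc : CompleteV v) (h : TP p v L x w r s) :
    Tgt p v (EW v L w) x r where
  cld := EW.cld
  mem := EW.le h.tgt.mem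
  root := h.tgt.root
  dst := dst_of_one h.tgt.root (h.isoL.far_EW h0 hc (l := 0) (j := 1) (by decide))
    (fun n => (h.lim_x n).mono EW.le)

omit [CharP k p] [IsAlgClosed Ω] in
/-- `w` is tight over the roots of `x`. -/
theorem TP.tgt_w (h : TP p v L x w r s) : Tgt p v (EW v L x) w s where
  cld := EW.cld
  mem := EW.le h.mem
  root := h.root
  dst := dst_of_one h.root h.far (fun n => (h.lim n).mono EW.le)

omit [CharP k p] [IsAlgClosed Ω] in
/-- `w` is tight over the roots of `x`. -/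
theorem TP.snd_w (h : TP p v L x w r s) : SND p v (EW v L x) w fun n => s / p ^ n :=
  h.tgt_w.snd

omit [CharP k p] [IsAlgClosed Ω] in
/-- `w` is tight in `L`. -/
theorem TP.tgt' (h : TP p v L x w r s) : Tgt p v L w s where
  cld := h.tgt.cld
  mem := h.mem
  root := h.root
  dst := dst_of_one h.root (fun ⟨a, ha, h1⟩ => h.far ⟨a, EW.le ha, h1⟩) h.lim

/-- The pair in the other order. -/
theorem TP.swap (h0 : Ctx0 k v) (hc : CompleteV v) (h : TP p v L x w r s) :
    TP p v L w x s r where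
  tgt := h.tgt'
  mem := h.tgt.mem
  root := h.tgt.root
  far := h.isoL.far_EW h0 hc (l := 0) (j := 1) (by decide)
  lim := h.lim_x

/-! ### Towers -/

omit [CharP k p] in
/-- A tight element stays so in `C⟨z⟩`. -/
theorem Tgt.tl {z : Ω} {t : ℝ} (hz : TL v C z t) (h : Tgt p v C x r) :
    Tgt p v (cadj v C z) x r where
  cld := cld_cadj v C z
  mem := le_cadj v C z h.mem
  root := h.root
  dst := fun n => by
    refine ⟨?_, (h.dst n).near.mono (le_cadj v C z)⟩
    rintro ⟨a, ha, h1⟩
    have h2 : x (n + 1) ^ p ^ (n + 1) ∈ C := by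
      have := root_pow_add h.root 0 (n + 1)
      rw [zero_add] at this
      rw [this]
      exact h.mem
    have h3 : x (n + 1) ∈ TWM.algc C := mem_algc.2 (IsAlgebraic.of_pow
      (pow_pos hp.out.pos (n + 1)) (isAlgebraic_algebraMap (⟨_, h2⟩ : C)))
    obtain ⟨c, hc, h4⟩ := TL.dist_alg_gt hz h3 ha h1
    exact (h.dst n).far ⟨c, hc, h4⟩

omit [CharP k p] in
/-- The closure of the roots is in the closure of the algebraic closure. -/
theorem EW.le_algc (hr : ∀ n, x (n + 1) ^ p = x n) (h0 : x 0 ∈ C) :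
    EW v C x ≤ clI v (algc C) := by
  refine clI_mono' (sup_le (TWM.le_algc C) (IntermediateField.adjoin_le_iff.2 ?_))
  rintro _ ⟨n, rfl⟩
  have h2 : x n ^ p ^ n ∈ C := by
    have := root_pow_add hr 0 n
    rw [zero_add] at this
    rw [this]
    exact h0
  exact mem_algc.2 (IsAlgebraic.of_pow (pow_pos hp.out.pos n)
    (isAlgebraic_algebraMap (⟨_, h2⟩ : C)))

omit [Fact p.Prime] [CharP k p] [CharP Ω p] [IsAlgClosed Ω] in
theorem EW.cadj (C : IntermediateField k Ω) (x : ℕ → Ω) (z : Ω) :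
    EW v (cadj v C z) x = cadj v (EW v C x) z := by
  refine le_antisymm (clI_le' (sup_le (cadj_mono EW.le z)
    (IntermediateField.adjoin_le_iff.2 ?_)) (cld_cadj v _ z)) ?_
  · rintro _ ⟨n, rfl⟩
    exact le_cadj v _ z (EW.mem n)
  · refine TWM.cadj_le EW.cld (clI_mono' (sup_le_sup (le_cadj v C z) le_rfl)) ?_
    exact EW.le (self_mem_cadj v C z)

/-- **A tight pair stays so in `C⟨z⟩`.** -/
theorem TP.tl {z : Ω} {t : ℝ} (hz : TL v C z t) (h : TP p v C x w r s) :
    TP p v (TWM.cadj v C z) x w r s where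
  tgt := h.tgt.tl hz
  mem := le_cadj v C z h.mem
  root := h.root
  far := by
    rintro ⟨a, ha, h1⟩
    rw [EW.cadj] at ha
    have hz' : TL v (EW v C x) z t := TL.base hz EW.le (EW.le_algc h.tgt.root h.tgt.mem)
    have h2 : w 1 ^ p ∈ EW v C x := by
      have := h.root 0
      rw [zero_add] at this
      rw [this]
      exact EW.le h.mem
    have h3 : w 1 ∈ TWM.algc (EW v C x) := mem_algc.2 (IsAlgebraic.of_pow
      hp.out.pos (isAlgebraic_algebraMap (⟨_, h2⟩ : EW v C x)))
    obtain ⟨c, hc, h4⟩ := TL.dist_alg_gt hz' h3 ha h1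
    exact h.far ⟨c, hc, h4⟩
  lim := fun n => (h.lim n).mono (le_cadj v C z)

/-- **A tight pair stays so in a tower.** -/
theorem TP.towR {n : ℕ} (hT : TWS.TowR v n C L) (h : TP p v C x w r s) : TP p v L x w r s := by
  induction hT with
  | zero _ => exact h
  | succ hz _ ih => exact ih (h.tl hz)

/-- A tight element stays so in a tower. -/
theorem Tgt.towR {n : ℕ} (hT : TWS.TowR v n C L) (h : Tgt p v C x r) : Tgt p v L x r := by
  induction hT with
  | zero _ => exact h
  | succ hz _ ih => exact ih (h.tl hz)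

end Pair

end Pool.Agent.TWC
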