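import Pool.Agent.Lib.TWC.PrB
import Pool.Agent.Lib.TWC.TPa
import Pool.Agent.Lib.TWS.MonL

/-!
# TANK W, dimension 4: the data with weights over the fields with the monomials

`C ≤ L` closed, `P` the closure of `C(u n l)`, perfect, `clI v (L ⊔ P)` immediate over `C`, `M g`,
`g ∈ G`, monomials, every real number is a value of `P` plus an element of `G`.

* `IsoL.pm`: `IsoL` over `PM v L G M`;
* `Hg v P G M y`: `y = π M g`, `π ∈ P`, `g ∈ G`; `Hg.root`: the `p`-th root; `exists_cst`: the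
  constants; `pm_perf`: `PM v P G M` is perfect;
* `pdat_pm`: the data `PDat`; `span_homog`: the operators are spanned by homogeneous ones.
-/

set_option autoImplicit false

open Polynomial

namespace Pool.Agent.TWC

open Pool.Agent.H15JM (RVal)
open Pool.Agent.LU1 (VPos adj)
open Pool.Agent.D2 (Ctx0)
open Pool.Agent.D2P (clI mem_clI)
open Pool.Agent.TWM
open Pool.Agent.TWS (MonG PM VG evM NF dense_PM evM_mem_PM nr'_pm)
open Pool.Agent.TWC.Key (hd ev sp lf)

universe u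

variable {k Ω : Type u} [Field k] [Field Ω] [Algebra k Ω] {v : RVal Ω}
  {A B L P N C E LE LP : IntermediateField k Ω} {m : ℕ} {u : ℕ → Fin m → Ω} {p : ℕ}
  {M : ℝ → Ω} {G : AddSubgroup ℝ} {rho : Fin m → ℝ}

/-! ### The immediate extensions -/

theorem Imm.mid (hi : Imm v C B) (hCA : C ≤ A) (hAB : A ≤ B) : Imm v C A :=
  ⟨hCA, fun b hb => hi.imm b (hAB hb)⟩

theorem Lx_pm (u : ℕ → Fin m → Ω) (l : Fin m) :
    PM v (Lx v L u l) G M = Lx v (PM v L G M) u l := by
  refine le_antisymm ?_ ?_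
  · refine PM.le_of (cld_clI v _) ?_ fun g hg => ?_
    · exact clI_mono' (sup_le_sup_right PM.le _)
    · exact TWC.self_le_clI v _ ((le_sup_left : PM v L G M ≤ _) (PM.mon hg))
  · refine clI_le' (sup_le (PM.mono (le_sup_left.trans (TWC.self_le_clI v _))) ?_) PM.cld
    exact le_sup_right.trans ((TWC.self_le_clI v _).trans PM.le)

/-- The tightness over the field with the monomials. -/
theorem IsoL.pm (hM : MonG v C G M) (hi : Imm v C B) (hCL : C ≤ L) (hLB : L ≤ B)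
    (hB : Cld v B) (hu : ∀ n l, u n l ∈ B) (h : IsoL p v L u rho) :
    IsoL p v (PM v L G M) u rho where
  cld := PM.cld
  mem l := PM.le (h.mem l)
  root := h.root
  far l hl := by
    rw [← Lx_pm] at hl
    have h1 : Lx v L u l ≤ B := by
      refine clI_le' (sup_le hLB ?_) hB
      rw [IntermediateField.adjoin_le_iff]
      rintro _ ⟨n, j, -, rfl⟩
      exact hu n j
    have h2 : L ≤ Lx v L u l := le_sup_left.trans (TWC.self_le_clI v _)
    exact h.far l ((nr'_pm hM (Imm.mid hi (hCL.trans h2) h1) hi h1 (hu 1 l)).1 hl)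
  lim n l ε hε := by
    obtain ⟨a, ha, h1⟩ := h.lim n l ε hε
    exact ⟨a, PM.le ha, h1⟩

/-! ### The homogeneous elements -/

/-- The element `y` is `π M g`. -/
def Hg (P : IntermediateField k Ω) (G : AddSubgroup ℝ) (M : ℝ → Ω) (y : Ω) : Prop :=
  ∃ π ∈ P, π ≠ 0 ∧ ∃ g ∈ G, y = π * M g

theorem Hg.mul (hM : MS v G M) {y z : Ω} (hy : Hg P G M y) (hz : Hg P G M z) :
    Hg P G M (y * z) := by
  obtain ⟨π, hπ, h0, g, hg, rfl⟩ := hy
  obtain ⟨π', hπ', h0', g', hg', rfl⟩ := hz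
  refine ⟨π * π', mul_mem hπ hπ', mul_ne_zero h0 h0', g + g', G.add_mem hg hg', ?_⟩
  rw [hM.mul g hg g' hg']
  ring

theorem Hg.one (hM : MS v G M) : Hg P G M 1 :=
  ⟨1, one_mem P, one_ne_zero, 0, G.zero_mem, by rw [hM.zero, one_mul]⟩

theorem Hg.pow (hM : MS v G M) {y : Ω} (hy : Hg P G M y) (n : ℕ) : Hg P G M (y ^ n) := by
  induction n with
  | zero => rw [pow_zero]; exact Hg.one hM
  | succ n ih => rw [pow_succ]; exact ih.mul hM hy

theorem Hg.prod (hM : MS v G M) {κ : Type*} (s : Finset κ) {f : κ → Ω}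
    (hf : ∀ i ∈ s, Hg P G M (f i)) : Hg P G M (∏ i ∈ s, f i) := by
  classical
  induction s using Finset.induction_on with
  | empty => rw [Finset.prod_empty]; exact Hg.one hM
  | insert i s hi ih =>
    rw [Finset.prod_insert hi]
    exact (hf i (Finset.mem_insert_self _ _)).mul hM
      (ih fun j hj => hf j (Finset.mem_insert_of_mem hj))

theorem Hg.mem {y : Ω} (hy : Hg P G M y) : y ∈ PM v P G M := by
  obtain ⟨π, hπ, -, g, hg, rfl⟩ := hy
  exact mul_mem (PM.le hπ) (PM.mon hg)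

theorem Hg.ne (hM : MS v G M) {y : Ω} (hy : Hg P G M y) : y ≠ 0 := by
  obtain ⟨π, -, h0, g, hg, rfl⟩ := hy
  exact mul_ne_zero h0 (hM.ne g hg)

/-- The `p`-th root of a homogeneous element. -/
theorem Hg.root [hp : Fact p.Prime] (hM : MonG v P G M) (hP : ∀ a ∈ P, ∃ b ∈ P, b ^ p = a)
    (hs : ∀ s : ℝ, ∃ e ∈ P, e ≠ 0 ∧ ∃ g ∈ G, v e + g = s) {y : Ω} (hy : Hg P G M y) :
    ∃ z, Hg P G M z ∧ z ^ p = y := by
  obtain ⟨π, hπ, h0, g, hg, rfl⟩ := hy
  obtain ⟨e, he, he0, g', hg', h1⟩ := hs (g / p)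
  have hp0 : (p : ℝ) ≠ 0 := by exact_mod_cast hp.out.ne_zero
  have hpg : (p : ℝ) * g' ∈ G := by
    have := G.nsmul_mem hg' p
    rwa [nsmul_eq_mul] at this
  have hd' : g - p * g' ∈ G := G.sub_mem hg hpg
  have h2 : g - p * g' = v (e ^ p) := by
    rw [v.map_pow he0]
    have h3 : (p : ℝ) * (v e + g') = g := by
      rw [h1]
      field_simp
    linarith
  have h3 : M (g - p * g') ∈ P := hM.mem _ hd' (by
    rw [h2]
    exact VG.self (pow_mem he p) (pow_ne_zero _ he0))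
  obtain ⟨b, hb, h4⟩ := hP _ (mul_mem hπ h3)
  have hb0 : b ≠ 0 := by
    rintro rfl
    rw [zero_pow hp.out.ne_zero] at h4
    exact mul_ne_zero h0 (hM.ms.ne _ hd') h4.symm
  refine ⟨b * M g', ⟨b, hb, hb0, g', hg', rfl⟩, ?_⟩
  have h5 : M (p * g') = M g' ^ p := hM.ms.pow hg' p
  rw [mul_pow, h4, ← h5, mul_assoc, ← hM.ms.mul _ hd' _ hpg, sub_add_cancel]

/-- **The constants.** -/
theorem exists_cst [hp : Fact p.Prime] (hM : MonG v P G M) (hP : ∀ a ∈ P, ∃ b ∈ P, b ^ p = a)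
    (hs : ∀ s : ℝ, ∃ e ∈ P, e ≠ 0 ∧ ∃ g ∈ G, v e + g = s) (s : ℝ) :
    ∃ c : ℕ → Ω, (∀ n, Hg P G M (c n)) ∧ (∀ n, c (n + 1) ^ p = c n) ∧
      ∀ n, v (c n) = s / p ^ n := by
  have hp0 : (p : ℝ) ≠ 0 := by exact_mod_cast hp.out.ne_zero
  obtain ⟨e, he, he0, g, hg, h1⟩ := hs s
  have h2 : ∀ y : {y // Hg P G M y}, ∃ z : {y // Hg P G M y}, (z : Ω) ^ p = y := fun y => by
    obtain ⟨z, hz, h3⟩ := y.2.root hM hP hs
    exact ⟨⟨z, hz⟩, h3⟩
  choose f hf using h2
  let c : ℕ → {y // Hg P G M y} := fun n =>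
    Nat.rec ⟨e * M g, ⟨e, he, he0, g, hg, rfl⟩⟩ (fun _ y => f y) n
  have hc : ∀ n, (c (n + 1)).1 ^ p = (c n).1 := fun n => hf (c n)
  refine ⟨fun n => (c n).1, fun n => (c n).2, hc, fun n => ?_⟩
  induction n with
  | zero =>
    change v (e * M g) = s / p ^ 0
    rw [v.map_mul he0 (hM.ms.ne g hg), hM.ms.val g hg, h1, pow_zero, div_one]
  | succ n ih =>
    have h3 := hc n
    have h4 : (c (n + 1)).1 ≠ 0 := (c (n + 1)).2.ne hM.ms
    have h5 : (p : ℝ) * v (c (n + 1)).1 = v (c n).1 := by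
      rw [← v.map_pow h4, h3]
    rw [ih] at h5
    rw [pow_succ]
    field_simp
    field_simp at h5
    linarith

/-- `PM v P G M` is perfect. -/
theorem pm_perf [hp : Fact p.Prime] [CharP Ω p] [IsAlgClosed Ω] (hM : MonG v P G M)
    (hP : ∀ a ∈ P, ∃ b ∈ P, b ^ p = a)
    (hs : ∀ s : ℝ, ∃ e ∈ P, e ≠ 0 ∧ ∃ g ∈ G, v e + g = s) :
    ∀ a ∈ PM v P G M, ∃ b ∈ PM v P G M, b ^ p = a := by
  classical
  intro a ha
  obtain ⟨b, hb⟩ := IsAlgClosed.exists_pow_nat_eq a hp.out.pos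
  refine ⟨b, PM.cld (mem_clI.2 fun c => ?_), hb⟩
  obtain ⟨L, hL, h1⟩ := dense_PM hM (Imm.refl P) ha (p * c)
  have h2 : ∀ g, ∃ z ∈ PM v P G M, z ^ p = L g * M g := by
    intro g
    by_cases h0 : L g = 0
    · exact ⟨0, zero_mem _, by rw [h0, zero_mul, zero_pow hp.out.ne_zero]⟩
    · obtain ⟨z, hz, h3⟩ := Hg.root hM hP hs ⟨L g, hL.mem g, h0, g, (hL.rep g h0).1, rfl⟩
      exact ⟨z, hz.mem, h3⟩
  choose z hz hz' using h2
  refine ⟨∑ g ∈ L.support, z g, sum_mem fun g _ => hz g, ?_⟩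
  refine Key.ge_of_pow hp.out.ne_zero ?_
  rw [sub_pow_char, hb, sum_pow_char]
  have h3 : (∑ g ∈ L.support, z g ^ p) = evM M L := Finset.sum_congr rfl fun g _ => hz' g
  rw [h3]
  exact h1

/-! ### The data -/

/-- `AU C u` is dense. -/
theorem dns_pm (hp : 0 < p) (hr : ∀ n l, u (n + 1) l ^ p = u n l) (h0 : ∀ l, u 0 l ∈ C)
    (hP : P = clI v (C ⊔ IntermediateField.adjoin k {x | ∃ n l, x = u n l})) :
    DnsS v (AU (PM v C G M) u) (PM v P G M) := by
  set W : IntermediateField k Ω := IntermediateField.adjoin k {x | ∃ n l, x = u n l} with hW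
  have h1 : PM v P G M ≤ clI v (PM v C G M ⊔ W) := by
    refine PM.le_of (cld_clI v _) ?_ fun g hg => ?_
    · rw [hP]
      exact clI_mono' (sup_le_sup_right PM.le _)
    · exact TWC.self_le_clI v _ ((le_sup_left : PM v C G M ≤ _) (PM.mon hg))
  have hCP : C ≤ P := by
    rw [hP]
    exact le_sup_left.trans (TWC.self_le_clI v _)
  have hu : ∀ n l, u n l ∈ P := fun n l => by
    rw [hP]
    exact TWC.self_le_clI v _ ((le_sup_right : W ≤ C ⊔ W)
      (IntermediateField.subset_adjoin _ _ ⟨n, l, rfl⟩))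
  intro x hx b
  obtain ⟨y, hy, h2⟩ := mem_clI.1 (h1 hx) b
  have h4 : y ∈ AU (PM v C G M) u := AU.field hr hp (fun l => PM.le (h0 l)) hy
  exact ⟨y, h4, AU.mem (PM.mono hCP) (fun n l => PM.le (hu n l)) h4, h2⟩

/-- The hypotheses. -/
structure PBase (p : ℕ) (v : RVal Ω) (C P L : IntermediateField k Ω) (G : AddSubgroup ℝ)
    (M : ℝ → Ω) {m : ℕ} (u : ℕ → Fin m → Ω) (rho : Fin m → ℝ) : Prop where
  mc : MonG v C G M
  cldC : Cld v C
  le : C ≤ L
  isoL : IsoL p v L u rho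
  base : ∀ l, u 0 l ∈ C
  lim : ∀ n l (ε : ℝ), 0 < ε → ∃ h ∈ C, v.Ge (rho l / p ^ n - ε) (u n l - h)
  eq : P = clI v (C ⊔ IntermediateField.adjoin k {x | ∃ n l, x = u n l})
  perf : ∀ a ∈ P, ∃ b ∈ P, b ^ p = a
  imm : Imm v C (clI v (L ⊔ P))
  vals : ∀ s : ℝ, ∃ e ∈ P, e ≠ 0 ∧ ∃ g ∈ G, v e + g = s

namespace PBase

variable (H : PBase p v C P L G M u rho)

include H

theorem CP : C ≤ P := by
  rw [H.eq]
  exact le_sup_left.trans (TWC.self_le_clI v _)

theorem cldP : Cld v P := by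
  rw [H.eq]
  exact cld_clI v _

theorem memP (n : ℕ) (l : Fin m) : u n l ∈ P := by
  rw [H.eq]
  exact TWC.self_le_clI v _ (le_sup_right (a := C)
      (IntermediateField.subset_adjoin k {x | ∃ n l, x = u n l} ⟨n, l, rfl⟩))

omit H in
theorem LLP : L ≤ clI v (L ⊔ P) := le_sup_left.trans (TWC.self_le_clI v _)

omit H in
theorem PLP : P ≤ clI v (L ⊔ P) := le_sup_right.trans (TWC.self_le_clI v _)

theorem immP : Imm v C P := Imm.mid H.imm H.CP PLP

theorem mP : MonG v P G M := H.mc.imm H.immP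

/-- **The data**, for given constants. -/
theorem pdat [hp : Fact p.Prime] [CharP k p] [CharP Ω p] [IsAlgClosed Ω] (h0 : Ctx0 k v)
    (hc : CompleteV v) {c : ℕ → Fin m → Ω} (hcH : ∀ n l, Hg P G M (c n l))
    (hcr : ∀ n l, c (n + 1) l ^ p = c n l) (hcv : ∀ n l, v (c n l) = rho l / p ^ n) :
    PDat p v (PM v C G M) (PM v L G M) (PM v P G M) u c rho := by
  have hL : IsoL p v (PM v L G M) u rho := H.isoL.pm H.mc H.imm H.le LLP (cld_clI v _)
    fun n l => PLP (H.memP n l)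
  exact
    { root := H.isoL.root
      rootM := hcr
      ne := fun n l => (hcH n l).ne H.mc.ms
      val := hcv
      cldC := PM.cld
      cldL := PM.cld
      le := PM.mono H.le
      cldE := PM.cld
      CE := PM.mono H.CP
      perf := pm_perf H.mP H.perf H.vals
      mem := fun n l => PM.le (H.memP n l)
      memM := fun n l => (hcH n l).mem
      dns := dns_pm hp.out.pos H.isoL.root H.base H.eq
      base := fun l => PM.le (H.base l)
      norm := fun n F hF f b hb => hL.norm_le h0 hc n F hF f hb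
      lim := fun n l ε hε => by
        obtain ⟨a, ha, h1⟩ := H.lim n l ε hε
        exact ⟨a, PM.le ha, h1⟩
      con := fun n l => by
        obtain ⟨π, hπ, hπ0, g, hg, h1⟩ := hcH n l
        obtain ⟨a, ha, h2⟩ := H.immP.imm π hπ hπ0
        refine ⟨a * M g, mul_mem (PM.le ha) (PM.mon hg), ?_⟩
        have h3 : v (c n l) = v π + g := by
          rw [h1, v.map_mul hπ0 (H.mc.ms.ne g hg), H.mc.ms.val g hg]
        rw [← hcv n l, h3, h1, ← sub_mul]
        have h4 : Gt v (v π) (a - π) := by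
          rw [← neg_sub]
          exact h2.neg
        have h5 : v.Ge g (M g) := fun _ => (H.mc.ms.val g hg).ge
        exact h4.mul_ge h5 }

/-- **The data.** -/
theorem exists_pdat [hp : Fact p.Prime] [CharP k p] [CharP Ω p] [IsAlgClosed Ω] (h0 : Ctx0 k v)
    (hc : CompleteV v) : ∃ c : ℕ → Fin m → Ω, (∀ n l, Hg P G M (c n l)) ∧
      PDat p v (PM v C G M) (PM v L G M) (PM v P G M) u c rho := by
  choose c hcH hcr hcv using fun l => exists_cst H.mP H.perf H.vals (rho l)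
  exact ⟨fun n l => c l n, fun n l => hcH l n, H.pdat h0 hc (fun n l => hcH l n)
    (fun n l => hcr l n) fun n l => hcv l n⟩

end PBase

end Pool.Agent.TWC
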