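import Pool.Agent.Lib.TWC.PrE

/-!
# TANK W, dimension 4: the core of (I.r), pairs of any levels

* `IsW.homog`: the operators `M^(F/p^n) D^[F/p^n]` are homogeneous on `P`;
* `span_homog`: the operators are spanned by homogeneous ones;
* `PBase.descM`: the data for the descent with monomials;
* `PBase.core`: the descent of towers.
-/

set_option autoImplicit false

open Polynomial

namespace Pool.Agent.TWC

open Pool.Agent.H15JM (RVal)
open Pool.Agent.LU1 (VPos adj)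
open Pool.Agent.D2 (Ctx0)
open Pool.Agent.D2P (clI mem_clI)
open Pool.Agent.TWM
open Pool.Agent.TWS (MonG PM VG evM NF dense_PM evM_mem_PM nr'_pm TowR DescM descend_pmC)
open Pool.Agent.TWC.Key (hd ev sp lf)

universe u

variable {k Ω : Type u} [Field k] [Field Ω] [Algebra k Ω] {v : RVal Ω}
  {A B L P N C E LE LP : IntermediateField k Ω} {m : ℕ} {u : ℕ → Fin m → Ω} {p : ℕ}
  {M : ℝ → Ω} {G : AddSubgroup ℝ} {rho : Fin m → ℝ} {c : ℕ → Fin m → Ω}

section Hom

variable [hp : Fact p.Prime] [CharP Ω p] [hcx : Fact (Ctx0 k v)]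

omit hp [CharP Ω p] hcx in
theorem Hg.mW (hM : MS v G M) (h : ∀ n l, Hg P G M (c n l)) (n : ℕ) (F : Fin m → ℕ) :
    Hg P G M (mW c n F) :=
  Hg.prod hM _ fun l _ => (h n l).pow hM _

omit [CharP Ω p] in
/-- The generators are homogeneous. -/
theorem IsW.homog (H : PBase p v C P L G M u rho) (hcH : ∀ n l, Hg P G M (c n l))
    {φ : Opr v (PM v P G M)} {n : ℕ} {F : Fin m → ℕ} (hφ : IsW p (PM v C G M) u c φ n F) :
    ∃ δ ∈ G, ∀ e ∈ P, ∃ e' ∈ P, fn φ e = e' * M δ := by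
  obtain ⟨π, hπ, -, δ, hδ, hm⟩ := Hg.mW H.mc.ms hcH n F
  have hδ0 := H.mc.ms.ne δ hδ
  refine ⟨δ, hδ, fun e he => ⟨fn φ e * (M δ)⁻¹, ?_, by
    rw [mul_assoc, inv_mul_cancel₀ hδ0, mul_one]⟩⟩
  refine H.cldP (mem_clI.2 fun b => ?_)
  have he' := he
  rw [H.eq] at he'
  obtain ⟨y, hy, h1⟩ := mem_clI.1 he' (b + δ)
  obtain ⟨N, f, rfl⟩ := AU.field H.isoL.root hp.out.pos H.base hy
  have h2 : ev (u N) f = ev (u (n + N)) (lf (p ^ n) f) := by
    rw [add_comm n N, ev_lift H.isoL.root]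
  rw [h2] at h1
  generalize lf (p ^ n) f = g at h1
  have hCC : C ≤ PM v C G M := PM.le
  have h3 : fn φ (ev (u (n + N)) g) =
      mW c n F * ev (u (n + N)) (hd (fun l => p ^ N * F l) g) := by
    rw [← ev_base hCC, hφ N, hd_base, ev_base]
  have hg : ev (u (n + N)) g ∈ P := ev_mem H.CP (H.memP _) _
  refine ⟨π * ev (u (n + N)) (hd (fun l => p ^ N * F l) g),
    mul_mem hπ (ev_mem H.CP (H.memP _) _), ?_⟩
  have h4 : v.Ge (b + δ) (fn φ e - fn φ (ev (u (n + N)) g)) :=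
    fn_near φ (PM.le he) (PM.le hg) h1
  have h5 : v.Ge (-δ) (M δ)⁻¹ := fun _ => by
    rw [v.map_inv hδ0, H.mc.ms.val δ hδ]
  have e1 : fn φ e * (M δ)⁻¹ - π * ev (u (n + N)) (hd (fun l => p ^ N * F l) g) =
      (fn φ e - fn φ (ev (u (n + N)) g)) * (M δ)⁻¹ := by
    rw [h3, hm]
    field_simp
  rw [e1]
  have h6 := h4.mul h5
  exact h6.mono (by linarith)

/-- The homogeneous operators. -/
def HomS (T : Submodule k (Opr v (PM v P G M))) : Set (Opr v (PM v P G M)) :=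
  {φ | φ ∈ T ∧ ∃ δ ∈ G, ∀ e ∈ P, ∃ e' ∈ P, fn φ e = e' * M δ}

omit [CharP Ω p] in
/-- The operators are spanned by homogeneous ones. -/
theorem span_homog (H : PBase p v C P L G M u rho) (hcH : ∀ n l, Hg P G M (c n l))
    (hlin : ∀ φ ∈ adjT (genW p v (PM v C G M) (PM v P G M) u c), ∀ a ∈ PM v C G M,
      ∀ x ∈ PM v P G M, fn φ (a * x) = a * fn φ x) :
    adjT (genW p v (PM v C G M) (PM v P G M) u c) ≤
      Submodule.span k (HomS (adjT (genW p v (PM v C G M) (PM v P G M) u c))) := by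
  set T := adjT (genW p v (PM v C G M) (PM v P G M) u c) with hT
  have hmul : ∀ φ ∈ HomS T, ∀ ψ ∈ HomS T, φ * ψ ∈ HomS T := by
    rintro φ ⟨hφ, δ, hδ, h1⟩ ψ ⟨hψ, δ', hδ', h2⟩
    refine ⟨adjT_mul hφ hψ, δ + δ', G.add_mem hδ hδ', fun e he => ?_⟩
    obtain ⟨e', he', h3⟩ := h2 e he
    obtain ⟨e'', he'', h4⟩ := h1 e' he'
    refine ⟨e'', he'', ?_⟩
    rw [fn_opMul _ _ (PM.le he), h3, mul_comm e', hlin φ hφ _ (PM.mon hδ') _ (PM.le he'), h4,
      H.mc.ms.mul δ hδ δ' hδ']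
    ring
  intro φ hφ
  rw [hT] at hφ
  refine adjT_induction (P := fun φ => φ ∈ Submodule.span k (HomS T)) ?_ (zero_mem _)
    (fun φ ψ h1 h2 => add_mem h1 h2) (fun a φ h1 => Submodule.smul_mem _ a h1) ?_ hφ
  · rintro φ ⟨n, F, h0, hF, h1⟩
    exact Submodule.subset_span ⟨subset_adjT ⟨n, F, h0, hF, h1⟩, h1.homog H hcH⟩
  · intro φ ψ h1 h2
    induction h1 using Submodule.span_induction with
    | zero => rw [zero_mul]; exact zero_mem _
    | add φ φ' _ _ h3 h4 => rw [add_mul]; exact add_mem h3 h4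
    | smul a φ _ h3 => rw [smul_mul_assoc]; exact Submodule.smul_mem _ a h3
    | mem φ h3 =>
      induction h2 using Submodule.span_induction with
      | zero => rw [mul_zero]; exact zero_mem _
      | add ψ ψ' _ _ h4 h5 => rw [mul_add]; exact add_mem h4 h5
      | smul a ψ _ h4 => rw [mul_smul_comm]; exact Submodule.smul_mem _ a h4
      | mem ψ h4 => exact Submodule.subset_span (hmul φ h3 ψ h4)

end Hom

namespace PBase

variable [hp : Fact p.Prime] [CharP k p] [CharP Ω p] [IsAlgClosed Ω] [hcx : Fact (Ctx0 k v)]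

omit [CharP k p] [IsAlgClosed Ω] in
/-- **The data for the descent with monomials.** -/
theorem descM (hc : CompleteV v) (H : PBase p v C P L G M u rho)
    (D : PDat p v (PM v C G M) (PM v L G M) (PM v P G M) u c rho) :
    DescM p v C P L (clI v (L ⊔ P)) G M (adjT (genW p v (PM v C G M) (PM v P G M) u c)) where
  cpl := hc
  mc := H.mc
  vc g _ h := by rwa [VG.imm H.immP] at h
  cldC := H.cldC
  cldP := H.cldP
  perf := H.perf
  CP := H.CP
  cldL := H.isoL.cld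
  CL := H.le
  eq := rfl
  imm := ⟨PLP, fun b hb hb0 => by
    obtain ⟨a, ha, h1⟩ := H.imm.imm b hb hb0
    exact ⟨a, H.CP ha, h1⟩⟩
  desc := by
    have h1 := D.desc hc
    rwa [← PM.sup] at h1

/-- **DESCENT OF TOWERS.** -/
theorem core₀ [PerfectRing k p] (hc : CompleteV v) (H : PBase p v C P L G M u rho)
    (hcH : ∀ n l, Hg P G M (c n l))
    (D : PDat p v (PM v C G M) (PM v L G M) (PM v P G M) u c rho)
    (hN : NilpC v (adjT (genW p v (PM v C G M) (PM v P G M) u c)) (PM v L G M)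
      (clI v (PM v L G M ⊔ PM v P G M)))
    (hV : NSD p (D.oper hc)) {n : ℕ} (hn : n ≤ 2) (hT : TowR v n P (clI v (L ⊔ P))) :
    TowR v n C L := by
  have h := D.oper hc
  rw [← PM.sup] at hN
  have hlin : ∀ φ ∈ adjT (genW p v (PM v C G M) (PM v P G M) u c), ∀ a ∈ PM v C G M,
      ∀ x ∈ PM v P G M, fn φ (a * x) = a * fn φ x := by
    intro φ hφ a ha x hx
    have h1 := h.lin φ hφ ⟨a, PM.mono H.CP ha⟩ ha ⟨x, hx⟩
    have h2 := congrArg (fun y : PM v P G M => (y : Ω)) h1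
    rw [fn_of_mem φ (mul_mem (PM.mono H.CP ha) hx), fn_of_mem φ hx]
    exact h2
  exact descend_pmC (H.descM hc D) h hN hV (S := HomS _) (fun φ hφ => hφ.1)
    (span_homog H hcH hlin) (fun φ hφ => hφ.2) H.vals hn hT

end PBase

end Pool.Agent.TWC
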