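import Pool.Agent.Lib.TWC.PrA
import Pool.Agent.Lib.TWC.NilG
import Pool.Agent.Lib.TWC.OpGenW

/-!
# TANK W, class C: the operators with weights are nilpotent on the classes

`PDat.nilpC`: `NilpC v (adjT (genW p v C E u M)) L (clI v (L ⊔ E))`.
-/

set_option autoImplicit false

open Polynomial

namespace Pool.Agent.TWC

open Pool.Agent.H15JM (RVal)
open Pool.Agent.LU1 (VPos adj)
open Pool.Agent.D2 (Ctx0)
open Pool.Agent.D2P (clI mem_clI)
open Pool.Agent.TWM
open Pool.Agent.TWC.Key (hd ev sp lf)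

universe u

variable {k Ω : Type u} [Field k] [Field Ω] [Algebra k Ω] {v : RVal Ω}
  {B L P N C E LE : IntermediateField k Ω} {m : ℕ} {u : ℕ → Fin m → Ω} {p : ℕ}
  {M c : ℕ → Fin m → Ω} {rho : Fin m → ℝ}

section Ops

variable [hp : Fact p.Prime] [CharP Ω p] [hcx : Fact (Ctx0 k v)]

omit hp [CharP Ω p] in
theorem IsW.unique (hr : ∀ n l, u (n + 1) l ^ p = u n l) (hdE : DnsS v (AU B u) E)
    {φ ψ : Opr v E} {n : ℕ} {F : Fin m → ℕ} (h : IsW p B u c φ n F) (h' : IsW p B u c ψ n F) :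
    φ = ψ := by
  refine Opr.ext_dense hdE ?_
  rintro _ ⟨N, f, rfl⟩ -
  rw [h.apply hr, h'.apply hr]

/-- Coarser level. -/
theorem IsW.coarser (hr : ∀ n l, u (n + 1) l ^ p = u n l) (hM : ∀ n l, M (n + 1) l ^ p = M n l)
    {φ : Opr v E} {n j : ℕ} {F : Fin m → ℕ} (h : IsW p B u M φ (n + j) (fun l => p ^ j * F l)) :
    IsW p B u M φ n F := by
  have _ := charP_sub (Ω := Ω) p B
  intro i f
  have e1 : ev (u (n + i)) f = ev (u (n + j + i)) (lf (p ^ j) f) := by
    rw [show n + j + i = (n + i) + j by ring, ev_lift hr]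
  rw [e1, h i, mW_level hM]
  have h2 : (fun l => p ^ i * (p ^ j * F l)) = fun l => p ^ j * (p ^ i * F l) := by
    funext l
    ring
  rw [h2, Key.hd_lf p j, show n + j + i = (n + i) + j by ring, ev_lift hr]

omit hp [CharP Ω p] in
/-- The operators commute. -/
theorem IsW.comm (hr : ∀ n l, u (n + 1) l ^ p = u n l) (hBE : B ≤ E) (hu : ∀ n l, u n l ∈ E)
    (hdE : DnsS v (AU B u) E) (hcB : ∀ n l, c n l ∈ B) {φ ψ : Opr v E} {n n' : ℕ}
    {F G : Fin m → ℕ} (h : IsW p B u c φ n F) (h' : IsW p B u c ψ n' G) : φ * ψ = ψ * φ := by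
  refine mul_of_dense hdE ?_
  rintro _ ⟨N, f, rfl⟩ ha
  rw [fn_opMul φ ψ ha]
  have e1 : ev (u N) f = ev (u (n + (n' + N))) (lf (p ^ (n + n')) f) := by
    rw [← add_assoc, add_comm (n + n') N, ev_lift hr]
  have e2 : n + (n' + N) = n' + (n + N) := by ring
  rw [e1]
  generalize lf (p ^ (n + n')) f = g
  have hmem : ∀ g : (Fin m → ℕ) →₀ B, ev (u (n + (n' + N))) g ∈ E := fun g => ev_mem hBE (hu _) g
  have h1 : ∀ g : (Fin m → ℕ) →₀ B, fn φ (ev (u (n + (n' + N))) g) =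
      mW c n F * ev (u (n + (n' + N))) (hd (fun l => p ^ (n' + N) * F l) g) := h (n' + N)
  have h2 : ∀ g : (Fin m → ℕ) →₀ B, fn ψ (ev (u (n + (n' + N))) g) =
      mW c n' G * ev (u (n + (n' + N))) (hd (fun l => p ^ (n + N) * G l) g) := by
    rw [e2]
    exact h' (n + N)
  rw [h1, h2, h.lin hr hBE hdE (mW c n' G) (mW_mem hcB n' G) _ (hmem _),
    h'.lin hr hBE hdE (mW c n F) (mW_mem hcB n F) _ (hmem _), h1, h2, Key.hd_comm, mul_left_comm]

/-- `φ ^ p = 0`. -/
theorem IsW.pow_eq_zero (hr : ∀ n l, u (n + 1) l ^ p = u n l) (hBE : B ≤ E)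
    (hu : ∀ n l, u n l ∈ E) (hdE : DnsS v (AU B u) E) (hcB : ∀ n l, c n l ∈ B)
    {φ : Opr v E} {n : ℕ} {F : Fin m → ℕ}
    (h : IsW p B u c φ n F) (hF : ∃ l, F l ≠ 0) : φ ^ p = 0 := by
  have _ := charP_sub (Ω := Ω) p B
  have hmem : ∀ (N : ℕ) (g : (Fin m → ℕ) →₀ B), ev (u N) g ∈ E := fun N g => ev_mem hBE (hu _) g
  have hlin : ∀ (j : ℕ), ∀ a ∈ B, ∀ x ∈ E, fn (φ ^ j) (a * x) = a * fn (φ ^ j) x := by
    intro j
    induction j with
    | zero =>
      intro a ha x hx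
      rw [pow_zero, fn_of_mem _ (mul_mem (hBE ha) hx), fn_of_mem _ hx]
      rfl
    | succ j ih =>
      intro a ha x hx
      rw [pow_succ, fn_opMul _ _ (mul_mem (hBE ha) hx), fn_opMul _ _ hx, h.lin hr hBE hdE a ha x hx,
        ih a ha _ (fn_mem _ _)]
  have key : ∀ (j N : ℕ) (f : (Fin m → ℕ) →₀ B), ∃ a ∈ B,
      fn (φ ^ j) (ev (u (n + N)) f) = a * ev (u (n + N)) (hd (fun l => j * (p ^ N * F l)) f) := by
    intro j
    induction j with
    | zero =>
      intro N f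
      refine ⟨1, one_mem B, ?_⟩
      have h2 : (fun l => 0 * (p ^ N * F l)) = fun _ : Fin m => 0 := funext fun l => zero_mul _
      rw [pow_zero, one_mul, h2, Key.hd_zero, fn_of_mem _ (hmem _ _)]
      rfl
    | succ j ih =>
      intro N f
      obtain ⟨a, ha, hc⟩ := ih N (hd (fun l => p ^ N * F l) f)
      refine ⟨mW c n F * (a * ((∏ l, (((p ^ N * F l + j * (p ^ N * F l)).choose
        (p ^ N * F l) : ℕ) : B) : B) : Ω)), mul_mem (mW_mem hcB _ _) (mul_mem ha (SetLike.coe_mem _)),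
        ?_⟩
      rw [pow_succ, fn_opMul _ _ (hmem _ _), h N, hlin j _ (mW_mem hcB _ _) _ (hmem _ _), hc,
        Key.hd_hd, map_smul, Algebra.smul_def]
      have e1 : (fun l => p ^ N * F l + j * (p ^ N * F l)) = fun l => (j + 1) * (p ^ N * F l) := by
        funext l
        ring
      rw [e1, ← mul_assoc, ← mul_assoc, ← mul_assoc]
      rfl
  refine Opr.ext_dense hdE ?_
  rintro _ ⟨N, f, rfl⟩ -
  rw [fn_opZero]
  have e1 : ev (u N) f = ev (u (n + N)) (lf (p ^ n) f) := by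
    rw [add_comm n N, ev_lift hr]
  obtain ⟨q, hq⟩ := Nat.exists_eq_succ_of_ne_zero hp.out.ne_zero
  rw [e1]
  generalize lf (p ^ n) f = g
  obtain ⟨a, -, hc⟩ := key q N (hd (fun l => p ^ N * F l) g)
  have h3 : fn (φ ^ p) (ev (u (n + N)) g) = fn (φ ^ q) (fn φ (ev (u (n + N)) g)) := by
    rw [← fn_opMul _ _ (hmem _ g), ← pow_succ]
    congr 2
  rw [h3, h N, hlin q _ (mW_mem hcB _ _) _ (hmem _ _), hc, Key.hd_hd]
  obtain ⟨l, hl⟩ := hF
  have h4 : (∏ l, (((p ^ N * F l + q * (p ^ N * F l)).choose (p ^ N * F l) : ℕ) : B)) = 0 := by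
    refine Finset.prod_eq_zero (Finset.mem_univ l) ?_
    have h5 : p ^ N * F l + q * (p ^ N * F l) = p * (p ^ N * F l) := by
      generalize p ^ N * F l = y
      rw [hq, Nat.succ_mul, add_comm]
    rw [h5]
    have h6 := Key.cast_of_modEq (P := B) (p := p) (a := (p * (p ^ N * F l)).choose (p ^ N * F l))
      (b := 0) (by
        have := choose_mul_self p (G := p ^ N * F l)
          (mul_ne_zero (pow_ne_zero _ hp.out.ne_zero) hl)
        simpa using this)
    rw [h6, Nat.cast_zero]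
  rw [h4, zero_smul, map_zero, mul_zero, mul_zero]

/-- The operators of normalised order. -/
def genN (p : ℕ) (v : RVal Ω) [Fact (Ctx0 k v)] (B E : IntermediateField k Ω) {m : ℕ}
    (u c : ℕ → Fin m → Ω) : Set (Opr v E) :=
  {φ : Opr v E | ∃ (n : ℕ) (F : Fin m → ℕ),
    (∃ l, ¬ p ∣ F l) ∧ (∀ l, F l < p ^ n) ∧ IsW p B u c φ n F}

/-- Almost all the operators are small at a given element. -/
theorem genN_fin (hr : ∀ n l, u (n + 1) l ^ p = u n l) (hdE : DnsS v (AU B u) E) {x : Ω}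
    (hx : x ∈ E) (b : ℝ) :
    {φ : Opr v E | φ ∈ genN p v B E u c ∧ ¬ v.Ge b (fn φ x)}.Finite := by
  classical
  have _ := charP_sub (Ω := Ω) p B
  obtain ⟨_, ⟨N, f, rfl⟩, hfE, h1⟩ := hdE x hx b
  have h2 : (⋃ n ∈ Finset.range (N + 1), ⋃ G ∈ (Fintype.piFinset fun _ : Fin m =>
      Finset.range (p ^ n) : Finset (Fin m → ℕ)), {φ : Opr v E | IsW p B u c φ n G}).Finite :=
    Set.Finite.biUnion (Finset.finite_toSet _) fun n _ =>
      Set.Finite.biUnion (Finset.finite_toSet _) fun G _ =>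
        Set.Subsingleton.finite fun φ hφ ψ hψ => IsW.unique hr hdE hφ hψ
  refine h2.subset ?_
  rintro φ ⟨⟨n, F, ⟨l, hl⟩, hF, hφ⟩, h3⟩
  have h4 : fn φ (ev (u N) f) ≠ 0 := by
    intro h0
    apply h3
    have h5 := fn_near φ hx hfE h1
    rwa [h0, sub_zero] at h5
  have h5 : ∀ l, p ^ n ∣ p ^ N * F l := by
    by_contra hno
    push Not at hno
    apply h4
    rw [hφ.apply hr, Key.hd_lf_eq_zero p n _ hno, map_zero, mul_zero]
  have h6 : n ≤ N := by
    by_contra hlt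
    push Not at hlt
    have h7 := h5 l
    obtain ⟨j, rfl⟩ := Nat.exists_eq_add_of_lt hlt
    rw [show N + j + 1 = N + (j + 1) by ring, pow_add] at h7
    have h8 := Nat.dvd_of_mul_dvd_mul_left (pow_pos hp.out.pos N) h7
    exact hl ((dvd_pow_self p (Nat.succ_ne_zero j)).trans h8)
  rw [Set.mem_iUnion₂]
  refine ⟨n, Finset.mem_range.2 (by omega), ?_⟩
  rw [Set.mem_iUnion₂]
  exact ⟨F, by simpa [Fintype.mem_piFinset] using hF, hφ⟩

omit hp in
/-- normalisation of an order -/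
theorem exists_normal {n : ℕ} {F : Fin m → ℕ} (hF0 : ∃ l, F l ≠ 0) (hF : ∀ l, F l < p ^ n) :
    ∃ (n' j : ℕ) (F' : Fin m → ℕ), n = n' + j ∧ (F = fun l => p ^ j * F' l) ∧ (∃ l, ¬ p ∣ F' l) ∧
      ∀ l, F' l < p ^ n' := by
  induction n generalizing F with
  | zero =>
    obtain ⟨l, hl⟩ := hF0
    have := hF l
    rw [pow_zero] at this
    omega
  | succ n ih =>
    by_cases h : ∃ l, ¬ p ∣ F l
    · exact ⟨n + 1, 0, F, rfl, by funext l; rw [pow_zero, one_mul], h, hF⟩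
    · push Not at h
      choose G hG using h
      obtain ⟨n', j, F', h1, h2, h3, h4⟩ := ih (F := G) (by
        obtain ⟨l, hl⟩ := hF0
        refine ⟨l, fun h0 => hl ?_⟩
        rw [hG l, h0, mul_zero]) (fun l => by
        have h5 := hF l
        rw [hG l, pow_succ'] at h5
        exact lt_of_mul_lt_mul_left h5 (Nat.zero_le _))
      refine ⟨n', j + 1, F', by omega, ?_, h3, h4⟩
      funext l
      rw [hG l, h2, pow_succ']
      ring

/-! ### One units -/

omit hp [CharP Ω p] hcx in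
theorem one_unit_mul {a b : Ω} (ha : Gt v 0 (a - 1)) (hb : Gt v 0 (b - 1)) :
    Gt v 0 (a * b - 1) := by
  have e1 : a * b - 1 = a * (b - 1) + (a - 1) := by ring
  rw [e1]
  refine Gt.add ?_ ha
  intro h0
  have h1 := hb (right_ne_zero_of_mul h0)
  rw [v.map_mul (left_ne_zero_of_mul h0) (right_ne_zero_of_mul h0)]
  have h2 := ge_one_unit ha (left_ne_zero_of_mul h0)
  linarith

omit hp [CharP Ω p] hcx in
theorem one_unit_one : Gt v 0 ((1 : Ω) - 1) := by
  rw [sub_self]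
  exact Gt.zero

omit hp [CharP Ω p] hcx in
theorem one_unit_pow {a : Ω} (ha : Gt v 0 (a - 1)) (n : ℕ) : Gt v 0 (a ^ n - 1) := by
  induction n with
  | zero => rw [pow_zero]; exact one_unit_one
  | succ n ih => rw [pow_succ]; exact one_unit_mul ih ha

omit hp [CharP Ω p] hcx in
theorem one_unit_prod {ι : Type*} (S : Finset ι) {a : ι → Ω} (ha : ∀ i ∈ S, Gt v 0 (a i - 1)) :
    Gt v 0 ((∏ i ∈ S, a i) - 1) := by
  classical
  induction S using Finset.induction_on with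
  | empty => rw [Finset.prod_empty]; exact one_unit_one
  | insert i S hi ih =>
    rw [Finset.prod_insert hi]
    exact one_unit_mul (ha i (Finset.mem_insert_self i S)) (ih fun j hj =>
      ha j (Finset.mem_insert_of_mem hj))

omit hp [CharP Ω p] hcx in
/-- `c / M` is a one unit -/
theorem one_unit_div {a b : Ω} (hb : b ≠ 0) (h : Gt v (v b) (a - b)) : Gt v 0 (a / b - 1) := by
  intro h0
  have e1 : a / b - 1 = (a - b) * b⁻¹ := by field_simp
  rw [e1] at h0 ⊢
  have h1 := left_ne_zero_of_mul h0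
  rw [v.map_mul h1 (inv_ne_zero hb), v.map_inv hb]
  linarith [h h1]

namespace PDat

omit hcx [CharP Ω p] hp in
theorem unit_mW (h : PDat p v C L E u M rho) (hc : ∀ n l, Gt v (rho l / p ^ n) (c n l - M n l))
    (n : ℕ) (F : Fin m → ℕ) : Gt v 0 (mW c n F / mW M n F - 1) := by
  rw [mW, mW, ← Finset.prod_div_distrib]
  refine one_unit_prod _ fun l _ => ?_
  rw [← div_pow]
  refine one_unit_pow (one_unit_div (h.ne n l) ?_) _
  rw [h.val]
  exact hc n l

/-- the sums of products are dense -/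
theorem dext (hc : CompleteV v) (h : PDat p v C L E u M rho) :
    DExt v (adjT (genW p v C E u M)) L (clI v (L ⊔ E)) where
  leL := h.leL
  leE := h.leE
  ext φ hφ := h.ext hc hφ
  dense := by
    classical
    intro x hx b
    obtain ⟨_, ⟨n, f, rfl⟩, -, h1⟩ := h.dnsN h.le x hx b
    have h2 : ev (u n) f = ∑ i : Fin f.support.card,
        ((f (f.support.equivFin.symm i) : L) : Ω) *
          ∏ l, u n l ^ (f.support.equivFin.symm i : Fin m → ℕ) l := by
      rw [Key.ev, Finsupp.linearCombination_apply, Finsupp.sum,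
        ← Finset.sum_coe_sort f.support (fun I => f I • ∏ l, u n l ^ I l),
        ← Equiv.sum_comp f.support.equivFin.symm]
      exact Finset.sum_congr rfl fun i _ => by rw [Algebra.smul_def]; rfl
    refine ⟨f.support.card, fun i => (f (f.support.equivFin.symm i) : L),
      fun i => ∏ l, u n l ^ (f.support.equivFin.symm i : Fin m → ℕ) l,
      fun i => SetLike.coe_mem _, fun i => prod_mem fun l _ => pow_mem (h.mem n l) _, ?_⟩
    rw [← h2]
    exact h1

/-- **The operators are nilpotent on the classes.** -/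
theorem nilpC (hc : CompleteV v) (h : PDat p v C L E u M rho) :
    NilpC v (adjT (genW p v C E u M)) L (clI v (L ⊔ E)) := by
  choose c hcC hcM using h.con
  have hcL : ∀ n l, c n l ∈ L := fun n l => h.le (hcC n l)
  have hval : ∀ n l, v (c n l) = rho l / p ^ n := by
    intro n l
    have h1 : Gt v (v (M n l)) (M n l - c n l) := by
      rw [h.val, ← neg_sub]
      exact (hcM n l).neg
    rw [(h1.val_eq (h.ne n l)).2, h.val]
  have hdL := h.dnsN h.le
  have hdx := h.dext hc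
  have huL : ∀ n l, u n l ∈ clI v (L ⊔ E) := fun n l => h.leE (h.mem n l)
  refine nilpC_of_match (MatchG.of_mat (D := genN p v L (clI v (L ⊔ E)) u c) ?_ ?_ ?_ ?_) rfl hdx
  · rintro φ ⟨n, F, -, -, h1⟩ ψ ⟨n', G, -, -, h2⟩
    exact h1.comm h.root h.leL huL hdL hcL h2
  · rintro φ ⟨n, F, ⟨l, hl⟩, -, h1⟩
    exact ⟨p, h1.pow_eq_zero h.root h.leL huL hdL hcL ⟨l, fun h0 => hl (h0 ▸ dvd_zero p)⟩⟩
  · intro x hx
    exact genN_fin h.root hdL hx 0
  · rintro φ ⟨n, F, hF0, hF, hφ⟩ Φ hΦ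
    obtain ⟨n', j, F', rfl, rfl, h3, h4⟩ := exists_normal hF0 hF
    have hφ' := hφ.coarser h.root h.rootM
    obtain ⟨Ψ, hΨ⟩ := exists_W (M := c) hc h.root hval (fun n l => h.leL (hcL n l)) h.norm
      (cld_clI v _) h.leL huL hdL n' F' h4
    obtain ⟨Φ', hΦ'⟩ := h.exL hc n' F' h4
    have hE : mW c n' F' / mW M n' F' ∈ E := div_mem (mW_mem (fun n l => h.CE (hcC n l)) _ _)
      (mW_mem h.memM _ _)
    have hu := h.unit_mW hcM n' F'
    refine ⟨Ψ, ⟨n', F', h3, h4, hΨ⟩, _, hE, hu, fun y hy => ?_⟩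
    rw [hΦ.uniq hdx (h.isExt hφ' hΦ') hy]
    refine eq_of_ge (v := v) fun b => ?_
    obtain ⟨_, ⟨N, f, rfl⟩, hf, h5⟩ := hdL y hy b
    have h6 : fn Ψ (ev (u N) f) = mW c n' F' / mW M n' F' * fn Φ' (ev (u N) f) := by
      rw [hΨ.apply h.root, hΦ'.apply h.root, ← mul_assoc, div_mul_cancel₀ _ (mW_ne h.ne n' F')]
    have e1 : fn Ψ y - mW c n' F' / mW M n' F' * fn Φ' y = (fn Ψ y - fn Ψ (ev (u N) f)) -
        mW c n' F' / mW M n' F' * (fn Φ' y - fn Φ' (ev (u N) f)) := by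
      rw [h6]
      ring
    rw [e1]
    have h7 := (ge_one_unit hu).mul (fn_near Φ' hy hf h5)
    rw [zero_add] at h7
    exact (fn_near Ψ hy hf h5).sub h7

end PDat

end Ops

end Pool.Agent.TWC
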