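import Pool.Agent.Lib.TWC.PrA
import Pool.Agent.Lib.TWC.Lv0C
import Pool.Agent.Lib.TWC.BaseW

/-!
# TANK W, dimension 4: the property `V'` for the operators with weights

* `PDat.nsd`: `V'` for the algebra generated by the operators `M^(F/p^n) D^[F/p^n]`, from a monomial
  filtration whose weight is raised by every generator;
* `dns_EWs`: the polynomials in the roots of `w` are dense, `w` of any radius;
* `PDat.nsd_pm`: the case of `u n = ![M (γ / p ^ n), b n]`, `C` contains the monomials `M g`,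
  `g ∈ GK p γ Λ`, `E` the closure of `k[monomials][b 0, b 1, ..]`, and `γ < ρ 0`.
-/

set_option autoImplicit false

open Polynomial

namespace Pool.Agent.TWC

open Pool.Agent.H15JM (RVal)
open Pool.Agent.LU1 (VPos adj)
open Pool.Agent.D2 (Ctx0)
open Pool.Agent.D2P (clI mem_clI)
open Pool.Agent.TWM
open Pool.Agent.TWC.Key (hd ev sp lf)

universe u w

variable {k Ω : Type u} [Field k] [Field Ω] [Algebra k Ω] {v : RVal Ω}
  {P L C E : IntermediateField k Ω} {p : ℕ}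

section Gain

variable [hcx : Fact (Ctx0 k v)] {G : Type w} {mon : G → Ω} {β : G → ℝ}

/-- An operator which raises the weight of the monomials by `δ` raises the weight by `δ`. -/
theorem fn_monS {δ : ℝ} {φ : Opr v E} (hE : ∀ g, mon g ∈ E)
    (h : ∀ g, fn φ (mon g) ∈ monS k mon β (β g + δ)) {b : ℝ} {x : Ω}
    (hx : x ∈ monS k mon β b) : fn φ x ∈ monS k mon β (b + δ) := by
  have hS : ∀ b : ℝ, monS k mon β b ≤ Subalgebra.toSubmodule E.toSubalgebra := fun b => by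
    rw [monS, Submodule.span_le]
    rintro _ ⟨g, -, rfl⟩
    exact hE g
  induction hx using Submodule.span_induction with
  | mem x hx =>
    obtain ⟨g, hg, rfl⟩ := hx
    exact monS_mono (by linarith) (h g)
  | zero =>
    rw [fn_zero]
    exact zero_mem _
  | add x y hx hy h1 h2 =>
    rw [fn_add φ (hS _ hx) (hS _ hy)]
    exact add_mem h1 h2
  | smul a x hx h1 =>
    rw [fn_smul φ a (hS _ hx)]
    exact Submodule.smul_mem _ _ h1

/-- The gain on the monomials passes to the algebra. -/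
theorem gain_mon {S : Set (Opr v E)} (hE : ∀ g, mon g ∈ E)
    (hS : ∀ φ ∈ S, ∃ δ : ℝ, 0 < δ ∧ ∀ g, fn φ (mon g) ∈ monS k mon β (β g + δ)) :
    ∀ φ ∈ adjT S, ∃ δ : ℝ, 0 < δ ∧ ∀ g, fn φ (mon g) ∈ monS k mon β (β g + δ) := by
  intro φ hφ
  refine adjT_induction (P := fun φ : Opr v E =>
    ∃ δ : ℝ, 0 < δ ∧ ∀ g, fn φ (mon g) ∈ monS k mon β (β g + δ)) hS ?_ ?_ ?_ ?_ hφ
  · refine ⟨1, one_pos, fun g => ?_⟩
    rw [fn_opZero]
    exact zero_mem _
  · rintro φ ψ ⟨δ, hδ, h1⟩ ⟨δ', hδ', h2⟩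
    refine ⟨min δ δ', lt_min hδ hδ', fun g => ?_⟩
    rw [fn_opAdd]
    refine add_mem (monS_mono ?_ (h1 g)) (monS_mono ?_ (h2 g))
    · have := min_le_left δ δ'
      linarith
    · have := min_le_right δ δ'
      linarith
  · rintro a φ ⟨δ, hδ, h1⟩
    refine ⟨δ, hδ, fun g => ?_⟩
    rw [fn_opSmul]
    exact Submodule.smul_mem _ a (h1 g)
  · rintro φ ψ ⟨δ, hδ, h1⟩ ⟨δ', hδ', h2⟩
    refine ⟨δ' + δ, add_pos hδ' hδ, fun g => ?_⟩
    rw [fn_opMul _ _ (hE g), ← add_assoc]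
    exact fn_monS hE h1 (h2 g)

end Gain

/-- **`V'` for the operators with weights.** -/
theorem PDat.nsd [hp : Fact p.Prime] [CharP Ω p] [hcx : Fact (Ctx0 k v)] [CharP k p]
    [PerfectRing k p] (hc : CompleteV v) {m : ℕ} {u M : ℕ → Fin m → Ω} {rho : Fin m → ℝ}
    (h : PDat p v C L E u M rho) {G : Type w} {mon : G → Ω} {β : G → ℝ} (hE : ∀ g, mon g ∈ E)
    (hv : ∀ g, v.Ge (β g) (mon g))
    (hpow : ∀ g, ∃ g', mon g' = mon g ^ p ∧ β g' = p * β g)
    (hroot : ∀ g, ∃ g', mon g' ^ p = mon g ∧ p * β g' = β g)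
    (hd : ∀ e ∈ E, ∃ f ∈ Submodule.span k (Set.range mon), v.Ge 0 (e - f))
    (hg : ∀ (n : ℕ) (F : Fin m → ℕ), (∃ l, F l ≠ 0) → (∀ l, F l < p ^ n) → ∃ δ : ℝ, 0 < δ ∧
      ∀ φ : Opr v E, IsW p C u M φ n F → ∀ g, fn φ (mon g) ∈ monS k mon β (β g + δ)) :
    NSD p (h.oper hc) := by
  refine nsd_mon (h.oper hc) hE hv hpow hroot hd (gain_mon hE ?_)
  rintro φ ⟨n, F, hF0, hF, hφ⟩
  obtain ⟨δ, hδ, h1⟩ := hg n F hF0 hF
  exact ⟨δ, hδ, h1 φ hφ⟩

/-- The polynomials in the roots of `w` are dense in `E`, any radius. -/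
theorem dns_EWs [hp : Fact p.Prime] [IsAlgClosed Ω] {w : Ω} {s : ℝ} (hw : TL v P w s)
    {u : ℕ → Ω} (hu0 : u 0 = w) (hu : ∀ n, u (n + 1) ^ p = u n) :
    DnsS v (AU P (fun n (_ : Fin 1) => u n)) (EW v P u) := by
  classical
  set U : ℕ → Fin 1 → Ω := fun n _ => u n with hU
  have hr : ∀ n l, U (n + 1) l ^ p = U n l := fun n _ => hu n
  have hUE : ∀ n l, U n l ∈ EW v P u := fun n _ => EW.mem n
  intro x hx b
  obtain ⟨y, hy, h1⟩ := mem_clI.1 hx b
  have hyC : y ∈ cadj v P w ⊔ IntermediateField.adjoin k {x | ∃ n l, x = U n l} := by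
    refine (sup_le_sup (le_cadj v P w) ?_ : _ ≤ _) hy
    rw [IntermediateField.adjoin_le_iff]
    rintro _ ⟨n, rfl⟩
    exact IntermediateField.subset_adjoin _ _ ⟨n, 0, rfl⟩
  obtain ⟨n, f, hf⟩ := AU.field hr hp.out.pos
    (fun _ => by rw [hU]; simp only [hu0]; exact self_mem_cadj v P w) hyC
  have hev : y = ∑ I ∈ f.support, ((f I : cadj v P w) : Ω) * ∏ l, U n l ^ I l := by
    rw [hf, Key.ev, Finsupp.linearCombination_apply, Finsupp.sum]
    rfl
  choose g hg hgc using fun I : Fin 1 → ℕ =>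
    hw.dense (f I).2 (b - v (∏ l, U n l ^ I l))
  have hgA : ∀ q ∈ PI P, q.eval w ∈ AU P U := by
    intro q hq
    have h3 : q.eval w ∈ AUs P hr := by
      rw [eval_eq_sum_range]
      refine Submodule.sum_mem _ fun i _ => ?_
      have h4 : ∀ i : ℕ, w ^ i ∈ AU P U := by
        intro i
        induction i with
        | zero =>
          rw [pow_zero]
          exact AU.base P U (one_mem P)
        | succ i ih =>
          rw [pow_succ]
          refine AU.mul hr ih ?_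
          rw [← hu0]
          exact AU.gen P U 0 0
      exact AU.mul hr (AU.base P U (hq i)) (h4 i)
    exact h3
  have hmon : ∀ I : Fin 1 → ℕ, ∏ l, U n l ^ I l ∈ AU P U := by
    intro I
    rw [Fin.prod_univ_one]
    generalize I 0 = i
    induction i with
    | zero =>
      rw [pow_zero]
      exact AU.base P U (one_mem P)
    | succ i ih =>
      rw [pow_succ]
      exact AU.mul hr ih (AU.gen P U n 0)
  have hz : ∑ I ∈ f.support, (g I).eval w * ∏ l, U n l ^ I l ∈ AU P U := by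
    have h3 : ∑ I ∈ f.support, (g I).eval w * ∏ l, U n l ^ I l ∈ AUs P hr :=
      Submodule.sum_mem _ fun I _ => AU.mul hr (hgA _ (hg I)) (hmon I)
    exact h3
  refine ⟨_, hz, AU.mem EW.le hUE hz, ?_⟩
  rw [← sub_add_sub_cancel x y]
  refine h1.add ?_
  rw [hev, ← Finset.sum_sub_distrib]
  refine RVal.Ge.sum _ _ fun I _ => ?_
  rw [← sub_mul]
  have h5 := (hgc I).mul (RVal.ge_self (v := v) (∏ l, U n l ^ I l))
  rwa [sub_add_cancel] at h5

section PMon

variable [hp : Fact p.Prime] [CharP Ω p] [hcx : Fact (Ctx0 k v)] {M : ℝ → Ω}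
  {Λ : Submodule ℚ ℝ} {b : ℕ → Ω} {γ μ : ℝ} {u Mc : ℕ → Fin 2 → Ω} {rho : Fin 2 → ℝ}

omit [CharP Ω p] in
/-- The generators raise the weight of the monomials. -/
theorem genW_pm (hM : MS v ⊤ M) (hΛ : IsCompl (Submodule.span ℚ {γ}) Λ)
    (hu : ∀ n, u n = ![M (γ / p ^ n), b n]) (hMc : ∀ n l, Mc n l = M (rho l / p ^ n))
    (hMC : ∀ g ∈ TWS.GK p γ Λ, M g ∈ C) (hb : ∀ n, b (n + 1) ^ p = b n) {φ : Opr v E} {n : ℕ}
    {F : Fin 2 → ℕ} (hφ : IsW p C u Mc φ n F) (g : ℝ × ℕ × ℕ) :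
    fn φ (mon2 M b g) ∈ monS k (mon2 M b) (wt2 p (fun g => g) μ)
      (wt2 p (fun g => g) μ g + (F 0 * (rho 0 - γ) + F 1 * (rho 1 + μ)) / p ^ n) := by
  have hp0 : (0 : ℝ) < p := by exact_mod_cast hp.out.pos
  have htop : ∀ g : ℝ, g ∈ (⊤ : AddSubgroup ℝ) := AddSubgroup.mem_top
  obtain ⟨g, m, j⟩ := g
  -- the monomial
  obtain ⟨d, i, hc⟩ := exists_split p hΛ g
  set N' := n + m + d with hN'
  have hsh := shift_nonneg (p := p) i (n + m) N' (by omega) hp.out.pos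
  set i₀ := ((p : ℤ) ^ (n + m) * i + i.natAbs * (p : ℤ) ^ N').toNat with hi₀
  have h3 : (i₀ : ℝ) = (p : ℝ) ^ (n + m) * i + |(i : ℝ)| * (p : ℝ) ^ N' := by
    have h4 := congrArg (fun z : ℤ => (z : ℝ)) hsh
    push_cast at h4
    exact h4
  have h4 : g - i₀ * (γ / p ^ N') ∈ TWS.GK p γ Λ := by
    have h5 : g - i₀ * (γ / p ^ N') = (g - i * (γ / p ^ d)) - i.natAbs • γ := by
      rw [h3, nsmul_eq_mul, Nat.cast_natAbs, Int.cast_abs, hN', pow_add]
      field_simp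
      ring
    rw [h5]
    exact sub_mem hc (nsmul_mem (TWS.self_mem_GK p γ Λ) _)
  set c : Ω := M (g - i₀ * (γ / p ^ N')) with hcd
  have hcC : c ∈ C := hMC _ h4
  have key : ∀ i' : ℕ, c * M (γ / p ^ N') ^ i' = M (g - i₀ * (γ / p ^ N') + i' * (γ / p ^ N')) := by
    intro i'
    rw [hM.mul _ (htop _) _ (htop _), hM.pow (htop _)]
  have h1 : M g = c * M (γ / p ^ N') ^ i₀ := by rw [key, sub_add_cancel]
  -- the constant
  have hmW : mW Mc n F = M (F 0 * (rho 0 / p ^ n) + F 1 * (rho 1 / p ^ n)) := by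
    rw [mW, Fin.prod_univ_two, hMc, hMc, hM.mul _ (htop _) _ (htop _), hM.pow (htop _),
      hM.pow (htop _)]
  have e0 : n + m + d = n + (m + d) := by ring
  have e1 : b m ^ j = b (n + (m + d)) ^ (p ^ (n + d) * j) := by
    rw [pow_mul, show n + (m + d) = m + (n + d) by ring, root_pow_add hb]
  have e2 : mon2 M b (g, m, j) = ev (u (n + (m + d)))
      (Finsupp.single ![i₀, p ^ (n + d) * j] (⟨c, hcC⟩ : C)) := by
    rw [Key.ev_single, Fin.prod_univ_two, hu]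
    change M g * b m ^ j = c * (M (γ / p ^ (n + (m + d))) ^ i₀ *
      b (n + (m + d)) ^ (p ^ (n + d) * j))
    rw [h1, e1, hN', e0]
    ring
  rw [e2, hφ (m + d), Key.hd_single, Key.ev_single, Fin.prod_univ_two, hu, Fin.prod_univ_two]
  simp only [Matrix.cons_val_zero, Matrix.cons_val_one, map_mul, map_natCast]
  change mW Mc n F * ((c * _) * _) ∈ _
  by_cases hi : p ^ (m + d) * F 0 ≤ i₀
  swap
  · rw [Nat.choose_eq_zero_of_lt (not_le.1 hi)]
    simp only [Nat.cast_zero, zero_mul, mul_zero]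
    exact zero_mem _
  by_cases hj : p ^ (m + d) * F 1 ≤ p ^ (n + d) * j
  swap
  · rw [Nat.choose_eq_zero_of_lt (not_le.1 hj)]
    simp only [Nat.cast_zero, zero_mul, mul_zero]
    exact zero_mem _
  have e3 : mW Mc n F * (c * (((i₀.choose (p ^ (m + d) * F 0) : ℕ) : Ω) *
      (((p ^ (n + d) * j).choose (p ^ (m + d) * F 1) : ℕ) : Ω)) *
      (M (γ / p ^ (n + (m + d))) ^ (i₀ - p ^ (m + d) * F 0) *
        b (n + (m + d)) ^ (p ^ (n + d) * j - p ^ (m + d) * F 1))) =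
      ((i₀.choose (p ^ (m + d) * F 0) * (p ^ (n + d) * j).choose (p ^ (m + d) * F 1) : ℕ) : Ω) *
        mon2 M b (F 0 * (rho 0 / p ^ n) + F 1 * (rho 1 / p ^ n) +
          (g - i₀ * (γ / p ^ N') + ((i₀ - p ^ (m + d) * F 0 : ℕ) : ℝ) * (γ / p ^ N')),
          n + (m + d), p ^ (n + d) * j - p ^ (m + d) * F 1) := by
    change _ = _ * (M _ * b (n + (m + d)) ^ (p ^ (n + d) * j - p ^ (m + d) * F 1))
    rw [hM.mul (F 0 * (rho 0 / p ^ n) + F 1 * (rho 1 / p ^ n)) (htop _) _ (htop _), ← hmW, ← key,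
      hN', e0]
    push_cast
    ring
  rw [e3]
  refine natCast_mem_monS _ (mon_mem ?_)
  rw [wt2, wt2]
  simp only
  rw [Nat.cast_sub hi, Nat.cast_sub hj, hN', e0]
  push_cast
  refine le_of_eq ?_
  rw [pow_add, pow_add, pow_add]
  field_simp
  ring

/-- **`V'` for the operators with weights, in two variables, over the closure of
`k[monomials]`.** -/
theorem PDat.nsd_pm [CharP k p] [PerfectRing k p] (hc : CompleteV v)
    (h : PDat p v C L E u Mc rho) (hM : MS v ⊤ M) (hΛ : IsCompl (Submodule.span ℚ {γ}) Λ)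
    (hu : ∀ n, u n = ![M (γ / p ^ n), b n]) (hMc : ∀ n l, Mc n l = M (rho l / p ^ n))
    (hMC : ∀ g ∈ TWS.GK p γ Λ, M g ∈ C) (hγ : γ < rho 0)
    (hE : TWS.PM v (⊥ : IntermediateField k Ω) ⊤ M ≤ E)
    (hE' : DnsS v (AU (TWS.PM v (⊥ : IntermediateField k Ω) ⊤ M)
      (fun n => (fun _ : Fin 1 => b n))) E) : NSD p (h.oper hc) := by
  have hp0 : (0 : ℝ) < p := by exact_mod_cast hp.out.pos
  have htop : ∀ g : ℝ, g ∈ (⊤ : AddSubgroup ℝ) := AddSubgroup.mem_top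
  have hbu : ∀ n, b n = u n 1 := fun n => by rw [hu]; rfl
  have hb : ∀ n, b (n + 1) ^ p = b n := fun n => by rw [hbu, hbu, h.root]
  set μ : ℝ := |v (b 0)| + |rho 1| + 1 with hμ
  have hμ1 : 0 < rho 1 + μ := by
    have h1 := neg_abs_le (rho 1)
    have h2 := abs_nonneg (v (b 0))
    rw [hμ]
    linarith
  have hb0 : v.Ge (-μ) (b 0) := fun _ => by
    have h1 := neg_abs_le (v (b 0))
    have h2 := abs_nonneg (rho 1)
    rw [hμ]
    linarith
  refine h.nsd hc (mon := mon2 M b) (β := wt2 p (fun g => g) μ) (fun g => ?_)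
    (mon2_ge hb hb0 fun g _ => (hM.val g (htop g)).ge)
    (mon2_pow fun g => ⟨p * g, hM.pow (htop g) p, rfl⟩)
    (mon2_root hb fun g => ⟨g / p, ?_, ?_⟩) (fun e he => nrM_of_mem hE' (fun e he c => ?_) he 0)
    fun n F hF0 _ => ⟨(F 0 * (rho 0 - γ) + F 1 * (rho 1 + μ)) / p ^ n, ?_, fun φ hφ g =>
      genW_pm hM hΛ hu hMc hMC hb hφ g⟩
  · refine mul_mem (hE (TWS.PM.mon (htop _))) (pow_mem ?_ _)
    rw [hbu]
    exact h.mem _ _
  · rw [← hM.pow (htop _) p, mul_div_cancel₀ _ hp0.ne']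
  · rw [mul_div_cancel₀ _ hp0.ne']
  · obtain ⟨s, hs, -, h1⟩ := dns_evG hM e he c
    exact ⟨s, evG_mem_span hM hs, h1⟩
  · obtain ⟨l, hl⟩ := hF0
    refine div_pos ?_ (by positivity)
    have h0 : (0 : ℝ) ≤ F 0 * (rho 0 - γ) := mul_nonneg (Nat.cast_nonneg _) (by linarith)
    have h1 : (0 : ℝ) ≤ F 1 * (rho 1 + μ) := mul_nonneg (Nat.cast_nonneg _) hμ1.le
    have hl' : (0 : ℝ) < F l := by exact_mod_cast Nat.pos_of_ne_zero hl
    fin_cases l
    · have : (0 : ℝ) < F 0 * (rho 0 - γ) := mul_pos hl' (by linarith)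
      linarith
    · have : (0 : ℝ) < F 1 * (rho 1 + μ) := mul_pos hl' hμ1
      linarith

end PMon

end Pool.Agent.TWC
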