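import Pool.Agent.Lib.TWC.PrF
import Pool.Agent.Lib.TWC.PrNil
import Pool.Agent.Lib.TWC.PrNsd

/-!
# TANK W, dimension 4: (I.r), pairs of any levels, the core

* `PBase.core`: descent of towers, the property `V'` being given;
* `PBase.core_pm`: descent of towers, `u n = ![M (γ / p ^ n), b n]`, `M` pure monomials.
-/

set_option autoImplicit false

open Polynomial

namespace Pool.Agent.TWC

open Pool.Agent.H15JM (RVal)
open Pool.Agent.LU1 (VPos adj)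
open Pool.Agent.D2 (Ctx0)
open Pool.Agent.D2P (clI mem_clI)
open Pool.Agent.TWM
open Pool.Agent.TWS (MonG PM VG TowR GK)

universe u

variable {k Ω : Type u} [Field k] [Field Ω] [Algebra k Ω] {v : RVal Ω}
  {C P L : IntermediateField k Ω} {p : ℕ} {M : ℝ → Ω} {G : AddSubgroup ℝ}

section Top

/-- The monomials are homogeneous. -/
theorem Hg.of_top (hM : MS v ⊤ M) (hMP : ∀ g ∈ VG v P, M g ∈ P)
    (hs : ∀ s : ℝ, ∃ e ∈ P, e ≠ 0 ∧ ∃ g ∈ G, v e + g = s) (s : ℝ) : Hg P G M (M s) := by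
  obtain ⟨e, he, he0, g, hg, h1⟩ := hs s
  have htop : ∀ g : ℝ, g ∈ (⊤ : AddSubgroup ℝ) := AddSubgroup.mem_top
  exact ⟨M (v e), hMP _ (VG.self he he0), hM.ne _ (htop _), g, hg, by
    rw [← hM.mul _ (htop _) _ (htop _), h1]⟩

theorem bot_le_pm (hM : MS v ⊤ M) (hMP : ∀ g ∈ VG v P, M g ∈ P)
    (hs : ∀ s : ℝ, ∃ e ∈ P, e ≠ 0 ∧ ∃ g ∈ G, v e + g = s) :
    PM v (⊥ : IntermediateField k Ω) ⊤ M ≤ PM v P G M :=
  PM.le_of PM.cld bot_le fun g _ => (Hg.of_top hM hMP hs g).mem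

end Top

namespace PBase

variable [hp : Fact p.Prime] [CharP k p] [CharP Ω p] [IsAlgClosed Ω] [hcx : Fact (Ctx0 k v)]
  [PerfectRing k p]

/-- **DESCENT OF TOWERS, PAIRS OF ANY LEVELS.** -/
theorem core (hc : CompleteV v) {m : ℕ} {u c : ℕ → Fin m → Ω} {rho : Fin m → ℝ}
    (H : PBase p v C P L G M u rho) (hcH : ∀ n l, Hg P G M (c n l))
    (D : PDat p v (PM v C G M) (PM v L G M) (PM v P G M) u c rho)
    (hV : NSD p (D.oper hc)) {n : ℕ} (hn : n ≤ 2) (hT : TowR v n P (clI v (L ⊔ P))) :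
    TowR v n C L :=
  core₀ hc H hcH D (D.nilpC hc) hV hn hT

/-- **DESCENT OF TOWERS, PAIRS OF ANY LEVELS, PURE MONOMIALS.** -/
theorem core_pm (hc : CompleteV v) {γ : ℝ} {Λ : Submodule ℚ ℝ} {b : ℕ → Ω}
    {u : ℕ → Fin 2 → Ω} {rho : Fin 2 → ℝ} (H : PBase p v C P L (GK p γ Λ) M u rho)
    (hM : MS v ⊤ M) (hΛ : IsCompl (Submodule.span ℚ {γ}) Λ)
    (hu : ∀ n, u n = ![M (γ / p ^ n), b n]) (hMP : ∀ g ∈ VG v P, M g ∈ P) (hγ : γ < rho 0)
    (hE : DnsS v (AU (PM v (⊥ : IntermediateField k Ω) ⊤ M)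
      (fun n => (fun _ : Fin 1 => b n))) (PM v P (GK p γ Λ) M)) {n : ℕ} (hn : n ≤ 2)
    (hT : TowR v n P (clI v (L ⊔ P))) : TowR v n C L := by
  have hp0 : (p : ℝ) ≠ 0 := by exact_mod_cast hp.out.ne_zero
  have htop : ∀ g : ℝ, g ∈ (⊤ : AddSubgroup ℝ) := AddSubgroup.mem_top
  have hcH : ∀ (n : ℕ) (l : Fin 2), Hg P (GK p γ Λ) M (M (rho l / p ^ n)) :=
    fun n l => Hg.of_top hM hMP H.vals _
  have D : PDat p v (PM v C (GK p γ Λ) M) (PM v L (GK p γ Λ) M) (PM v P (GK p γ Λ) M) u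
      (fun n l => M (rho l / p ^ n)) rho := by
    refine H.pdat hcx.out hc hcH (fun n l => ?_) fun n l => hM.val _ (htop _)
    rw [← hM.pow (htop _) p, pow_succ]
    congr 1
    field_simp
  exact H.core hc hcH D (D.nsd_pm hc hM hΛ hu (fun _ _ => rfl) (fun g hg => PM.mon hg) hγ
    (bot_le_pm hM hMP H.vals) hE) hn hT

end PBase

end Pool.Agent.TWC
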