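import Pool.Agent.Lib.TWC.Pair2
import Pool.Agent.Lib.TWC.PairR

/-!
# TANK W, class C: the second element of a tight pair can be renormalised (row I.r)

`x` tight of level `r` in `C`, `E = EW v ⊥ x`, `w ∈ C` a generator of `EW v C x = E<w>` of radius `s`.

* `renorm`: if `s` is not of the form `q v (x 0) + r / p ^ J`, `q` rational, `J ≥ 1`, then for
  every element `γ` of `ℤ[1 / p] v (x 0)` there is a generator in `C` of radius `s + γ`;
* `renorm_tp`: the same with tight pairs; `renorm_eq`: level `r` for the second element.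
-/

set_option autoImplicit false

open Polynomial

namespace Pool.Agent.TWC

open Pool.Agent.H15JM (RVal)
open Pool.Agent.LU1 (adj)
open Pool.Agent.D2 (Ctx0)
open Pool.Agent.D2P (clI mem_clI)
open Pool.Agent.TWM Pool.Agent.TWM.C
open Pool.Agent.TWS (VG)

universe u

variable {k Ω : Type u} [Field k] [Field Ω] [Algebra k Ω] {v : RVal Ω}
  {C : IntermediateField k Ω} {p : ℕ} [hp : Fact p.Prime] [CharP k p] [CharP Ω p] {x : ℕ → Ω}
  {r s : ℝ}

/-- **Renormalisation.** -/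
theorem renorm [IsAlgClosed Ω] [PerfectRing k p] (h0 : Ctx0 k v) (hc : CompleteV v)
    (hT : Tgt p v C x r) (hx0 : x 0 ≠ 0) (hv : 0 < v (x 0)) (hvr : v (x 0) < r) {w : Ω}
    (hw : w ∈ C) (hTL : TL v (EW v (⊥ : IntermediateField k Ω) x) w s)
    (hE : EW v C x = cadj v (EW v (⊥ : IntermediateField k Ω) x) w)
    (hres : ∀ (J : ℕ) (q : ℚ), J ≠ 0 → s ≠ q * v (x 0) + r / p ^ J) (m : ℕ) (i : ℤ) :
    ∃ t ∈ C, TL v (EW v (⊥ : IntermediateField k Ω) x) t (s + i * v (x m)) ∧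
      EW v C x = cadj v (EW v (⊥ : IntermediateField k Ω) x) t := by
  classical
  have hp0 : (0 : ℝ) < p := by exact_mod_cast hp.out.pos
  obtain ⟨n, hn, hNI⟩ := exists_int h0 hc hT hx0 hv hw hTL.lim
  have hnC : n ∈ C := TWM.cadj_le hT.cld bot_le hT.mem hn
  have hnE : n ∈ EW v (⊥ : IntermediateField k Ω) x := EW.cadj_le 0 hn
  set E := EW v (⊥ : IntermediateField k Ω) x with hEdef
  set w₀ := w - n with hw₀
  have hw₀C : w₀ ∈ C := sub_mem hw hnC
  have hTL₀ : TL v E w₀ s := hTL.sub_mem hnE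
  have hE₀ : EW v C x = cadj v E w₀ := by rw [hE, hw₀, cadj_sub_mem hnE]
  have hCt : C ≤ cadj v E w₀ := hE₀ ▸ EW.le
  have hxE : ∀ n, x n ∈ E := fun n => EW.mem n
  have hxne : ∀ n, x n ≠ 0 := fun n => root_ne_zero hT.root hx0 n
  have hxv : ∀ n, v (x n) = v (x 0) / p ^ n := fun n => val_rt hT.root hx0 n
  set b := r - v (x 0) with hbdef
  have hb0 : 0 < b := by linarith
  have hpm : (0 : ℝ) < (p : ℝ) ^ m := pow_pos hp0 m
  have hbm : 0 < b / p ^ m := div_pos hb0 hpm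
  -- the letters of `w₀`
  obtain ⟨N₁, f₁, h2, -⟩ := hNI (b / p ^ m / 2) (by linarith)
  set P : ℤ → Prop := fun j => (j : ℝ) * v (x N₁) ≤ s - b / p ^ m with hP
  set f₂ := f₁.filter P with hf₂
  set f₃ := f₁.filter fun j => ¬ P j with hf₃
  have hf : f₁ = f₂ + f₃ := (Finsupp.filter_add_filter_not f₁ P).symm
  have hlet : ∀ j, f₂ j ≠ 0 → ∃ g ∈ C, Gt v s (algebraMap k Ω (f₂ j) * x N₁ ^ j - g) := by
    intro j hj
    have hPj : P j := by
      by_contra hno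
      exact hj (Finsupp.filter_apply_neg P f₁ hno)
    have hj1 : f₁ j ≠ 0 := by
      rwa [hf₂, Finsupp.filter_apply_pos P f₁ hPj] at hj
    have hPj' : (j : ℝ) * v (x N₁) ≤ s - b / p ^ m := hPj
    obtain ⟨l, hl, m', hm, hpm', h3⟩ := hNI.letter h0 hT.root hx0 hv h2 (by linarith) hj1
      (by linarith)
    obtain ⟨d, hd⟩ := Nat.exists_eq_add_of_lt hl
    have hdl : N₁ - l = d + 1 := by omega
    rw [hdl] at h3
    have hpd : (0 : ℝ) < (p : ℝ) ^ (d + 1) := pow_pos hp0 _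
    have h4 : s < (j : ℝ) * v (x N₁) + b / p ^ (d + 1) := by
      refine lt_of_le_of_ne h3 fun h5 => ?_
      refine hres (d + 1) ((j : ℚ) / p ^ N₁ - 1 / p ^ (d + 1)) (Nat.succ_ne_zero d) ?_
      have hpN1 : (0 : ℝ) < (p : ℝ) ^ N₁ := pow_pos hp0 _
      rw [hxv N₁] at h5
      rw [h5, hbdef]
      push_cast
      field_simp
      ring
    have hyj : x N₁ ^ j = x (d + 1) ^ m' := by
      have h5 := root_pow_add hT.root (d + 1) l
      have h6 : d + 1 + l = N₁ := by omega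
      rw [h6] at h5
      rw [hm, ← h5, zpow_mul, ← zpow_natCast]
      congr 2
    obtain ⟨h, hh, hh0, hvh, h5⟩ := near_zpow hT hx0 hvr (d + 1) m'
      (δ := ((j : ℝ) * v (x N₁) + b / p ^ (d + 1) - s) / 2) (by linarith)
    have h6 : (m' : ℝ) * v (x (d + 1)) = (j : ℝ) * v (x N₁) := by
      have h7 : v (x N₁ ^ j) = v (x (d + 1) ^ m') := by rw [hyj]
      rw [v.map_zpow (hxne N₁), v.map_zpow (hxne _)] at h7
      exact h7.symm
    rw [h6] at h5
    refine ⟨algebraMap k Ω (f₂ j) * h ^ m', mul_mem (C.algebraMap_mem _) (zpow_mem hh m'), ?_⟩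
    rw [hyj]
    have e : algebraMap k Ω (f₂ j) * x (d + 1) ^ m' - algebraMap k Ω (f₂ j) * h ^ m' =
        -(algebraMap k Ω (f₂ j) * (h ^ m' - x (d + 1) ^ m')) := by ring
    rw [e]
    intro h8
    have h9 := (RVal.Ge.mul (h0.ge (f₂ j)) h5).neg h8
    linarith
  obtain ⟨G, hG, hG'⟩ := exists_gt_lf (x N₁) f₂ hlet
  set e₂ := lf (x N₁) f₂ with he₂
  have he₂E : e₂ ∈ E := lf_mem (hxE N₁) f₂
  have hT3 : Gt v (s - b / p ^ m) (w₀ - G) := by
    have e : w₀ - G = (w₀ - lf (x N₁) f₁) + (e₂ - G) + lf (x N₁) f₃ := by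
      rw [hf, lf_add]
      ring
    rw [e]
    refine (Gt.add (fun h3 => ?_) (hG'.mono (by linarith))).add ?_
    · have := h2 h3
      linarith
    · refine Gt.sum _ _ fun j hj h3 => ?_
      have hj1 : f₃ j ≠ 0 := Finsupp.mem_support_iff.1 hj
      have hPj : ¬ P j := by
        intro hno
        exact hj1 (Finsupp.filter_apply_neg (fun j => ¬ P j) f₁ (not_not.2 hno))
      have h4 := lau_term_ge h0 (hxne N₁) (f₃ j) j h3
      exact (not_le.1 hPj).trans_le h4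
  obtain ⟨θ, hθ, hθ'⟩ : ∃ θ : ℝ, s - b / p ^ m < θ ∧ v.Ge θ (w₀ - G) := by
    by_cases h3 : w₀ - G = 0
    · exact ⟨s - b / p ^ m + 1, by linarith, by rw [h3]; exact RVal.Ge.zero⟩
    · exact ⟨v (w₀ - G), hT3 h3, v.ge_self _⟩
  -- the multiplier
  obtain ⟨h, hh, hh0, hvh, h3⟩ := near_zpow hT hx0 hvr m i
    (δ := (θ - (s - b / p ^ m)) / 2) (by linarith)
  set e := x m ^ i with he
  have hve : v e = (i : ℝ) * v (x m) := v.map_zpow (hxne m) i
  have he0 : e ≠ 0 := zpow_ne_zero _ (hxne m)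
  have heE : e ∈ E := zpow_mem (hxE m) i
  set u := h ^ i with hu
  have huC : u ∈ C := zpow_mem hh i
  have htC : u * (w₀ - G) ∈ C := mul_mem huC (sub_mem hw₀C hG)
  have hmain : Gt v (v e + s) (u * (w₀ - G) - (e * w₀ + -(e * e₂))) := by
    have e1 : u * (w₀ - G) - (e * w₀ + -(e * e₂)) = (u - e) * (w₀ - G) + (e₂ - G) * e := by ring
    rw [e1, hve]
    refine Gt.add ?_ ?_
    · intro h6
      have h7 := RVal.Ge.mul h3 hθ' h6
      linarith
    · refine (hG'.mul_ge (v.ge_self e)).mono (le_of_eq ?_)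
      rw [hve]
      ring
  obtain ⟨h6, h7⟩ := hTL₀.generator heE he0 (neg_mem (mul_mem heE he₂E)) (hCt htC) hmain
  refine ⟨u * (w₀ - G), htC, ?_, by rw [hE₀, h7]⟩
  rwa [hve, add_comm] at h6

/-- **Renormalised pairs.** -/
theorem renorm_tp [IsAlgClosed Ω] [PerfectRing k p] (h0 : Ctx0 k v) (hc : CompleteV v)
    (hT : Tgt p v C x r) (hx0 : x 0 ≠ 0) (hv : 0 < v (x 0)) (hvr : v (x 0) < r) {w : Ω}
    (hw : w ∈ C) (hG : GenX v C x w s)
    (hres : ∀ (J : ℕ) (q : ℚ), J ≠ 0 → s ≠ q * v (x 0) + r / p ^ J) (m : ℕ) (i : ℤ) :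
    ∃ u : ℕ → Ω, TP p v C x u r (s + i * v (x m)) ∧ GenX v C x (u 0) (s + i * v (x m)) := by
  obtain ⟨t, ht, h1, h2⟩ := renorm h0 hc hT hx0 hv hvr hw hG.tl hG.eq hres m i
  obtain ⟨u, h3, h4, -, h5, h6, h7, h8⟩ := exists_pairT h0 hc hT hx0 hv ht h1 h2
  exact ⟨u, ⟨hT, h3, h4, h8, h7⟩, h5, h6⟩

/-- **Irrational level, resonance: the second element may be of level `r`.** -/
theorem renorm_eq [IsAlgClosed Ω] [PerfectRing k p] (h0 : Ctx0 k v) (hc : CompleteV v)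
    (hT : Tgt p v C x r) (hx0 : x 0 ≠ 0) (hv : 0 < v (x 0)) (hvr : v (x 0) < r)
    (hirr : ∀ q : ℚ, r ≠ q * v (x 0)) {w : Ω} (hw : w ∈ C) (hG : GenX v C x w s)
    (hsr : r - s ∈ VG v C) :
    ∃ u : ℕ → Ω, TP p v C x u r r ∧ GenX v C x (u 0) r := by
  have hp0 : (0 : ℝ) < p := by exact_mod_cast hp.out.pos
  obtain ⟨c, hcC, hc0, hcv⟩ := hsr
  have hcE : c ∈ cadj v (EW v (⊥ : IntermediateField k Ω) x) w := by
    rw [← hG.eq]
    exact EW.le hcC
  obtain ⟨m, i, a, ha, h1⟩ := exists_leadT h0 hT.root hx0 hv hG.tl hcE hc0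
  have h2 := val_lead h0 hT.root hx0 hc0 ha h1
  have h3 : s + i * v (x m) = r := by rw [← h2, hcv]; ring
  have hres : ∀ (J : ℕ) (q : ℚ), J ≠ 0 → s ≠ q * v (x 0) + r / p ^ J := by
    intro J q hJ h4
    have hp1 : (1 : ℝ) < p := by exact_mod_cast hp.out.one_lt
    have hpJ : (1 : ℝ) < (p : ℝ) ^ J := one_lt_pow₀ hp1 hJ
    have hpJ1 : (p : ℝ) ^ J - 1 ≠ 0 := by linarith
    have hpJ0 : (p : ℝ) ^ J ≠ 0 := by linarith
    have hpm : (p : ℝ) ^ m ≠ 0 := (pow_pos hp0 m).ne'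
    refine hirr ((q + i / p ^ m) * p ^ J / (p ^ J - 1)) ?_
    rw [val_rt hT.root hx0 m] at h3
    rw [h4] at h3
    push_cast
    field_simp at h3 ⊢
    linarith
  obtain ⟨u, h4, h5⟩ := renorm_tp h0 hc hT hx0 hv hvr hw hG hres m i
  rw [h3] at h4 h5
  exact ⟨u, h4, h5⟩

end Pool.Agent.TWC
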