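import Mathlib

/-!
# TANK W, class C: modules over `k{F}` with nilpotent operators

`k` a field, `σ` a surjective endomorphism of `k`, `G` a `k`-space with a `σ`-semilinear map `F`
(a left module over the twisted polynomial ring `k{F}`), `A` a set of `k`-linear operators of `G`
which is closed under sums and composition and satisfies `A F ⊆ F A`.

* `V F S b = ∑_{a < b} F^a S`, `RS F S = ∑_a F^a S`;
* `Sat F S`: the elements `z` such that the `F^c z` lie in `S + T`, `T` finite dimensional;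
* `Lt F P j`: the elements `z` such that `F^c z ∈ V F P (c + j) + T` for all `c`, `T` finite
  dimensional (sections of the lattice at infinity generated by `P`);
* `TF F`: there is no nonzero finite dimensional `F`-stable subspace.
-/

set_option autoImplicit false

namespace Pool.Agent.TWC

open Module Submodule

universe u w

variable {k : Type u} {G : Type w} [Field k] [AddCommGroup G] [Module k G]
variable {σ : k →+* k} [RingHomSurjective σ] (F : G →ₛₗ[σ] G)

/-! ## The spaces `∑_{a < b} F^a S` -/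

/-- `∑_{a < b} F^a S`. -/
def V (S : Submodule k G) : ℕ → Submodule k G
  | 0 => ⊥
  | b + 1 => S ⊔ (V S b).map F

variable {F} {S T P U : Submodule k G}

@[simp] theorem V_zero : V F S 0 = ⊥ := rfl

theorem V_succ (b : ℕ) : V F S (b + 1) = S ⊔ (V F S b).map F := rfl

theorem le_V (b : ℕ) : S ≤ V F S (b + 1) := le_sup_left

theorem map_V_le (b : ℕ) : (V F S b).map F ≤ V F S (b + 1) := le_sup_right

theorem V_mono_left (h : S ≤ T) (b : ℕ) : V F S b ≤ V F T b := by
  induction b with
  | zero => exact le_rfl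
  | succ b ih => exact sup_le_sup h (Submodule.map_mono ih)

theorem V_le_succ (b : ℕ) : V F S b ≤ V F S (b + 1) := by
  induction b with
  | zero => exact bot_le
  | succ b ih => exact sup_le_sup_left (Submodule.map_mono ih) _

theorem V_mono {b c : ℕ} (h : b ≤ c) : V F S b ≤ V F S c :=
  monotone_nat_of_le_succ (fun n => V_le_succ n) h

theorem V_sup (b : ℕ) : V F (S ⊔ T) b = V F S b ⊔ V F T b := by
  induction b with
  | zero => simp
  | succ b ih =>
    rw [V_succ, V_succ, V_succ, ih, Submodule.map_sup]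
    exact sup_sup_sup_comm _ _ _ _

theorem V_V (d c : ℕ) : V F (V F S d) (c + 1) ≤ V F S (d + c) := by
  induction c with
  | zero => simp [V_succ]
  | succ c ih =>
    rw [V_succ]
    refine sup_le (V_mono (by omega)) ?_
    exact (Submodule.map_mono ih).trans (map_V_le _)

theorem V_fg (h : S.FG) (b : ℕ) : (V F S b).FG := by
  induction b with
  | zero => exact Submodule.fg_bot
  | succ b ih => exact h.sup (ih.map F)

variable (F) in
/-- The `k{F}`-module generated by `S`. -/
def RS (S : Submodule k G) : Submodule k G := ⨆ b, V F S b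

theorem V_le_RS (b : ℕ) : V F S b ≤ RS F S := le_iSup _ b

theorem le_RS : S ≤ RS F S := (le_V 0).trans (V_le_RS 1)

theorem mem_RS {x : G} : x ∈ RS F S ↔ ∃ b, x ∈ V F S b :=
  Submodule.mem_iSup_of_directed _ (Monotone.directed_le fun _ _ h => V_mono h)

theorem map_RS_le : (RS F S).map F ≤ RS F S := by
  rw [RS, Submodule.map_iSup]
  exact iSup_le fun b => (map_V_le b).trans (V_le_RS _)

theorem RS_le (hS : S ≤ T) (hT : T.map F ≤ T) : RS F S ≤ T := by
  refine iSup_le fun b => ?_
  induction b with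
  | zero => exact bot_le
  | succ b ih => exact sup_le hS ((Submodule.map_mono ih).trans hT)

theorem RS_mono (h : S ≤ T) : RS F S ≤ RS F T :=
  iSup_mono fun b => V_mono_left h b

/-- A finite dimensional subspace of `RS F S` lies in some `V F S b`. -/
theorem exists_le_V (hT : T.FG) (h : T ≤ RS F S) : ∃ b, T ≤ V F S b := by
  obtain ⟨s, hs⟩ := hT
  have h1 : ∀ x ∈ s, ∃ b, x ∈ V F S b := fun x hx =>
    mem_RS.1 (h (hs ▸ Submodule.subset_span hx))
  choose! f hf using h1
  refine ⟨s.sup f, ?_⟩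
  rw [← hs, Submodule.span_le]
  intro x hx
  exact V_mono (Finset.le_sup hx) (hf x hx)

/-! ## Iterates of `F` -/

theorem it_add (c : ℕ) (x y : G) : F^[c] (x + y) = F^[c] x + F^[c] y := by
  induction c with
  | zero => rfl
  | succ c ih => simp only [Function.iterate_succ_apply', ih, map_add]

theorem it_zero (c : ℕ) : F^[c] (0 : G) = 0 := by
  induction c with
  | zero => rfl
  | succ c ih => simp only [Function.iterate_succ_apply', ih, map_zero]

theorem it_smul (c : ℕ) (a : k) (x : G) : F^[c] (a • x) = (σ^[c] a) • F^[c] x := by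
  induction c with
  | zero => rfl
  | succ c ih =>
    simp only [Function.iterate_succ_apply', ih]
    exact F.map_smulₛₗ _ _

theorem it_sum {ι : Type*} (c : ℕ) (s : Finset ι) (f : ι → G) :
    F^[c] (∑ i ∈ s, f i) = ∑ i ∈ s, F^[c] (f i) := by
  classical
  induction s using Finset.induction_on with
  | empty => simp
  | insert a s ha ih => rw [Finset.sum_insert ha, Finset.sum_insert ha, it_add, ih]

theorem it_mem_V {x : G} {b : ℕ} (hx : x ∈ V F S b) (c : ℕ) : F^[c] x ∈ V F S (b + c) := by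
  induction c with
  | zero => exact hx
  | succ c ih =>
    rw [Function.iterate_succ_apply']
    exact map_V_le _ (Submodule.mem_map_of_mem ih)

theorem it_mem {x : G} (hS : S.map F ≤ S) (hx : x ∈ S) (c : ℕ) : F^[c] x ∈ S := by
  induction c with
  | zero => exact hx
  | succ c ih =>
    rw [Function.iterate_succ_apply']
    exact hS (Submodule.mem_map_of_mem ih)

/-! ## Saturation and sections -/

theorem mono_r (h : S ≤ T) {x : G} (hx : x ∈ P ⊔ S) : x ∈ P ⊔ T :=
  (sup_le_sup_left h P : P ⊔ S ≤ P ⊔ T) hx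

theorem mono_l (h : S ≤ T) {x : G} (hx : x ∈ S ⊔ P) : x ∈ T ⊔ P :=
  (sup_le_sup_right h P : S ⊔ P ≤ T ⊔ P) hx

variable (F) in
/-- The elements `z` such that the `F^c z` lie in `S + T` for a finite dimensional `T`. -/
def Sat (S : Submodule k G) : Submodule k G where
  carrier := {z | ∃ T : Submodule k G, T.FG ∧ ∀ c, F^[c] z ∈ S ⊔ T}
  add_mem' := by
    rintro x y ⟨T, hT, hx⟩ ⟨T', hT', hy⟩
    refine ⟨T ⊔ T', hT.sup hT', fun c => ?_⟩
    rw [it_add]
    exact add_mem (mono_r le_sup_left (hx c)) (mono_r le_sup_right (hy c))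
  zero_mem' := ⟨⊥, Submodule.fg_bot, fun c => by rw [it_zero]; exact zero_mem _⟩
  smul_mem' := by
    rintro a x ⟨T, hT, hx⟩
    refine ⟨T, hT, fun c => ?_⟩
    rw [it_smul]
    exact Submodule.smul_mem _ _ (hx c)

theorem mem_Sat {z : G} :
    z ∈ Sat F S ↔ ∃ T : Submodule k G, T.FG ∧ ∀ c, F^[c] z ∈ S ⊔ T := Iff.rfl

variable (F) in
/-- The elements `z` such that `F^c z` lies in `V F P (c + j) + T` for all `c`, for a finite
dimensional `T`. -/
def Lt (P : Submodule k G) (j : ℕ) : Submodule k G where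
  carrier := {z | ∃ T : Submodule k G, T.FG ∧ ∀ c, F^[c] z ∈ V F P (c + j) ⊔ T}
  add_mem' := by
    rintro x y ⟨T, hT, hx⟩ ⟨T', hT', hy⟩
    refine ⟨T ⊔ T', hT.sup hT', fun c => ?_⟩
    rw [it_add]
    exact add_mem (mono_r le_sup_left (hx c)) (mono_r le_sup_right (hy c))
  zero_mem' := ⟨⊥, Submodule.fg_bot, fun c => by rw [it_zero]; exact zero_mem _⟩
  smul_mem' := by
    rintro a x ⟨T, hT, hx⟩
    refine ⟨T, hT, fun c => ?_⟩
    rw [it_smul]
    exact Submodule.smul_mem _ _ (hx c)

theorem mem_Lt {z : G} {j : ℕ} :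
    z ∈ Lt F P j ↔ ∃ T : Submodule k G, T.FG ∧ ∀ c, F^[c] z ∈ V F P (c + j) ⊔ T := Iff.rfl

theorem le_Sat (hS : S.map F ≤ S) : S ≤ Sat F S := fun _ hx =>
  ⟨⊥, Submodule.fg_bot, fun c => Submodule.mem_sup_left (it_mem hS hx c)⟩

theorem Sat_mono (h : S ≤ T) : Sat F S ≤ Sat F T := by
  rintro x ⟨W, hW, hx⟩
  exact ⟨W, hW, fun c => mono_l h (hx c)⟩

theorem map_Sat_le : (Sat F S).map F ≤ Sat F S := by
  rintro _ ⟨x, ⟨T, hT, hx⟩, rfl⟩
  exact ⟨T, hT, fun c => by simpa only [Function.iterate_succ_apply] using hx (c + 1)⟩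

/-- The key property: a finite dimensional space which `F` maps into itself modulo `Sat F S` lies
in `Sat F S`. -/
theorem le_Sat_of_map_le (hT : T.FG) (h : T.map F ≤ T ⊔ Sat F S) :
    T ≤ Sat F S := by
  obtain ⟨s, hs⟩ := hT.map F
  have h1 : ∀ y ∈ s, ∃ t ∈ T, ∃ z ∈ Sat F S, t + z = y := fun y hy =>
    Submodule.mem_sup.1 (h (hs ▸ Submodule.subset_span hy))
  choose! t ht z hz hy using h1
  have h2 : ∀ y ∈ s, ∃ W : Submodule k G, W.FG ∧ ∀ c, F^[c] (z y) ∈ S ⊔ W := fun y hy' =>
    hz y hy'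
  choose! W hW hWc using h2
  let W' : Submodule k G := s.sup W
  have hW' : W'.FG := by
    change (s.sup W).FG
    rw [Finset.sup_eq_iSup]
    exact Submodule.fg_biSup s W hW
  have h3 : ∀ y ∈ s, ∀ c, F^[c] (z y) ∈ S ⊔ W' := fun y hy' c =>
    mono_r (Finset.le_sup hy') (hWc y hy' c)
  -- everything in `T.map F` is `t + z` with `F^c z ∈ S + W'`
  have h4 : ∀ y ∈ T.map F, ∃ t ∈ T, ∃ z, (∀ c, F^[c] z ∈ S ⊔ W') ∧ t + z = y := by
    intro y hy'
    rw [← hs] at hy'
    induction hy' using Submodule.span_induction with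
    | mem y hy' => exact ⟨t y, ht y hy', z y, h3 y hy', hy y hy'⟩
    | zero => exact ⟨0, zero_mem _, 0, fun c => by rw [it_zero]; exact zero_mem _, add_zero _⟩
    | add x y _ _ hx hy' =>
      obtain ⟨t1, ht1, z1, hz1, rfl⟩ := hx
      obtain ⟨t2, ht2, z2, hz2, rfl⟩ := hy'
      exact ⟨t1 + t2, add_mem ht1 ht2, z1 + z2,
        fun c => by rw [it_add]; exact add_mem (hz1 c) (hz2 c), by abel⟩
    | smul a x _ hx =>
      obtain ⟨t1, ht1, z1, hz1, rfl⟩ := hx
      exact ⟨a • t1, Submodule.smul_mem _ _ ht1, a • z1,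
        fun c => by rw [it_smul]; exact Submodule.smul_mem _ _ (hz1 c), by rw [smul_add]⟩
  have key : ∀ c, ∀ x ∈ T, F^[c] x ∈ S ⊔ (T ⊔ W') := by
    intro c
    induction c with
    | zero => exact fun x hx => Submodule.mem_sup_right (Submodule.mem_sup_left hx)
    | succ c ih =>
      intro x hx
      obtain ⟨t1, ht1, z1, hz1, h5⟩ := h4 (F x) (Submodule.mem_map_of_mem hx)
      rw [Function.iterate_succ_apply, ← h5, it_add]
      exact add_mem (ih t1 ht1) (mono_r le_sup_right (hz1 c))
  exact fun x hx => ⟨T ⊔ W', hT.sup hW', fun c => key c x hx⟩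

/-- A space which is finite dimensional modulo `S` is generated modulo `S` by a finite dimensional
subspace of itself. -/
theorem exists_fg_le {W : Submodule k G} (hT : T.FG) (h : W ≤ S ⊔ T) :
    ∃ T' : Submodule k G, T'.FG ∧ T' ≤ W ∧ W ≤ S ⊔ T' := by
  have h1 : (W.map S.mkQ).FG := by
    refine (hT.map S.mkQ).of_le ?_
    rintro _ ⟨x, hx, rfl⟩
    obtain ⟨y, hy, t, ht, rfl⟩ := Submodule.mem_sup.1 (h hx)
    refine ⟨t, ht, ?_⟩
    rw [map_add, (Submodule.Quotient.mk_eq_zero S (x := y)).2 hy |> fun h => (show S.mkQ y = 0 from h),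
      zero_add]
  obtain ⟨s, hs⟩ := h1
  have h2 : ∀ y ∈ s, ∃ x ∈ W, S.mkQ x = y := fun y hy => by
    have : y ∈ W.map S.mkQ := hs ▸ Submodule.subset_span hy
    exact this
  choose! f hf hfy using h2
  classical
  refine ⟨Submodule.span k (s.image f : Set G), ⟨s.image f, rfl⟩, ?_, ?_⟩
  · rw [Submodule.span_le]
    intro x hx
    obtain ⟨y, hy, rfl⟩ := Finset.mem_image.1 (Finset.mem_coe.1 hx)
    exact hf y hy
  · intro x hx
    have h3 : S.mkQ x ∈ (Submodule.span k (s.image f : Set G)).map S.mkQ := by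
      have h4 : S.mkQ x ∈ Submodule.span k (s : Set (G ⧸ S)) := by
        rw [hs]
        exact Submodule.mem_map_of_mem hx
      refine (Submodule.span_le.2 ?_ : Submodule.span k (s : Set (G ⧸ S)) ≤ _) h4
      intro y hy
      exact ⟨f y, Submodule.subset_span (Finset.mem_coe.2 (Finset.mem_image_of_mem f hy)),
        hfy y hy⟩
    obtain ⟨t, ht, hxt⟩ := h3
    have h5 : x - t ∈ S := by
      rw [← Submodule.Quotient.mk_eq_zero S, Submodule.Quotient.mk_sub, sub_eq_zero]
      exact hxt.symm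
    have h6 : x = (x - t) + t := by abel
    rw [h6]
    exact add_mem (Submodule.mem_sup_left h5) (Submodule.mem_sup_right ht)

/-- `Sat` is idempotent. -/
theorem Sat_Sat : Sat F (Sat F S) = Sat F S := by
  refine le_antisymm ?_ (le_Sat map_Sat_le)
  rintro x ⟨T, hT, hx⟩
  let W : Submodule k G := Submodule.span k (Set.range fun c => F^[c] x)
  have hW : W ≤ Sat F S ⊔ T := by
    rw [Submodule.span_le]
    rintro _ ⟨c, rfl⟩
    exact hx c
  have hWF : W.map F ≤ W := by
    rw [Submodule.map_span_le]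
    rintro _ ⟨c, rfl⟩
    exact Submodule.subset_span ⟨c + 1, Function.iterate_succ_apply' F c x⟩
  obtain ⟨T', hT', hT'W, hWT'⟩ := exists_fg_le hT hW
  have h1 : T' ≤ Sat F S := le_Sat_of_map_le hT' (by
    rw [sup_comm]
    exact (Submodule.map_mono hT'W).trans (hWF.trans hWT'))
  have h2 : x ∈ W := Submodule.subset_span ⟨0, rfl⟩
  exact (hWT'.trans (sup_le le_rfl h1)) h2

/-! ## Torsion free modules -/

/-- In a torsion free module there is no nonzero finite dimensional `F`-stable subspace. -/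
theorem eq_bot_of_map_le (hTF : Sat F (⊥ : Submodule k G) = ⊥) (hT : T.FG) (h : T.map F ≤ T) :
    T = ⊥ := by
  have h2 := le_Sat_of_map_le (S := ⊥) hT (h.trans le_sup_left)
  rw [hTF] at h2
  exact le_bot_iff.1 h2

theorem inj_of_tf (hTF : Sat F (⊥ : Submodule k G) = ⊥) : Function.Injective F := by
  rw [injective_iff_map_eq_zero]
  intro x hx
  have h1 := eq_bot_of_map_le hTF (T := Submodule.span k {x}) (Submodule.fg_span_singleton x) (by
    rw [Submodule.map_span_le]
    rintro y rfl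
    rw [hx]
    exact zero_mem _)
  rwa [Submodule.span_singleton_eq_bot] at h1

theorem it_inj (hF : Function.Injective F) (c : ℕ) : Function.Injective (F^[c]) :=
  hF.iterate c

theorem finrank_map (hF : Function.Injective F) (S : Submodule k G) :
    finrank k (S.map F) = finrank k S := by
  let e : S ≃+ S.map F :=
    { toFun := fun x => ⟨F x, Submodule.mem_map_of_mem x.2⟩
      invFun := fun y => ⟨(Classical.choose y.2), (Classical.choose_spec y.2).1⟩
      left_inv := fun x => by
        apply Subtype.ext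
        apply hF
        exact (Classical.choose_spec (Submodule.mem_map_of_mem (f := F) x.2)).2
      right_inv := fun y => by
        apply Subtype.ext
        exact (Classical.choose_spec y.2).2
      map_add' := fun x y => by
        apply Subtype.ext
        exact map_add F _ _ }
  have h1 : Function.Bijective σ := ⟨σ.injective, RingHomSurjective.is_surjective⟩
  have h2 := rank_eq_of_equiv_equiv σ e h1 (fun r m => by
    apply Subtype.ext
    exact F.map_smulₛₗ r (m : G))
  rw [finrank, finrank, h2]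

theorem finrank_map_le (S : Submodule k G) [FiniteDimensional k S] :
    finrank k (S.map F) ≤ finrank k S := by
  let B := Module.finBasis k S
  have h1 : S.map F = Submodule.span k (Set.range fun i => F (B i : G)) := by
    have h2 : S = Submodule.span k (Set.range fun i => (B i : G)) := by
      have h3 := congrArg (Submodule.map S.subtype) B.span_eq
      rw [Submodule.map_span, Submodule.map_top, Submodule.range_subtype] at h3
      rw [← Set.range_comp] at h3
      exact h3.symm
    conv_lhs => rw [h2]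
    rw [Submodule.map_span, ← Set.range_comp]
    rfl
  rw [h1]
  have h2 := finrank_range_le_card (R := k) (fun i => F (B i : G))
  rw [Fintype.card_fin] at h2
  exact h2

theorem finrank_span_singleton_le (z : G) : finrank k (Submodule.span k {z}) ≤ 1 := by
  by_cases h : z = 0
  · rw [h, Submodule.span_zero_singleton, finrank_bot]
    exact Nat.zero_le _
  · rw [finrank_span_singleton h]

/-- The filtration `V F U` is strict from some point on. -/
theorem exists_strict (hTF : Sat F (⊥ : Submodule k G) = ⊥) (hU : U.FG) :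
    ∃ d₀, ∀ d, d₀ ≤ d → ∀ z ∈ RS F U, F z ∈ V F U (d + 1) → z ∈ V F U d := by
  have hF := inj_of_tf hTF
  have hfin : ∀ d, FiniteDimensional k (V F U d) := fun d =>
    Module.Finite.iff_fg.2 (V_fg hU d)
  let f : ℕ → ℕ := fun d => finrank k (V F U d)
  let N : ℕ → Submodule k G := fun e => V F U (e + 1) ⊓ (V F U (e + 1)).comap F
  have hVN : ∀ e, V F U e ≤ N e := fun e =>
    le_inf (V_le_succ e) (Submodule.map_le_iff_le_comap.1 (map_V_le e))
  have hNfin : ∀ e, FiniteDimensional k (N e) := fun e =>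
    Module.Finite.iff_fg.2 ((V_fg hU (e + 1)).of_le inf_le_left)
  have h1 : ∀ e, f (e + 2) + finrank k (N e) = 2 * f (e + 1) := by
    intro e
    have h2 : V F U (e + 2) = V F U (e + 1) ⊔ (V F U (e + 1)).map F :=
      le_antisymm (sup_le_sup_right (le_V e) _) (sup_le (V_le_succ _) (map_V_le _))
    have h3 : V F U (e + 1) ⊓ (V F U (e + 1)).map F = (N e).map F := by
      apply le_antisymm
      · rintro _ ⟨hx, y, hy, rfl⟩
        exact Submodule.mem_map_of_mem ⟨hy, hx⟩
      · rintro _ ⟨y, ⟨hy, hy'⟩, rfl⟩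
        exact ⟨hy', Submodule.mem_map_of_mem hy⟩
    have := hfin (e + 1)
    have h5 : FiniteDimensional k ((V F U (e + 1)).map F) :=
      Module.Finite.iff_fg.2 ((V_fg hU (e + 1)).map F)
    have h4 := Submodule.finrank_sup_add_finrank_inf_eq (V F U (e + 1)) ((V F U (e + 1)).map F)
    rw [h3, finrank_map hF, finrank_map hF, ← h2] at h4
    change finrank k (V F U (e + 2)) + _ = 2 * finrank k (V F U (e + 1))
    omega
  have h2 : ∀ e, f e ≤ finrank k (N e) := fun e => by
    have := hNfin e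
    exact Submodule.finrank_mono (hVN e)
  have h3 : ∀ e, f e ≤ f (e + 1) := fun e => by
    have := hfin (e + 1)
    exact Submodule.finrank_mono (V_le_succ e)
  let D : ℕ → ℕ := fun e => f (e + 1) - f e
  have hD : Antitone D := antitone_nat_of_succ_le fun e => by
    change f (e + 2) - f (e + 1) ≤ f (e + 1) - f e
    have := h1 e
    have := h2 e
    have := h3 e
    have := h3 (e + 1)
    omega
  obtain ⟨d₀, hd₀⟩ : ∃ d₀, ∀ e, d₀ ≤ e → D e = D d₀ := by
    obtain ⟨d₀, hd₀⟩ := WellFounded.has_min (wellFounded_lt (α := ℕ)) (Set.range D) ⟨_, 0, rfl⟩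
    obtain ⟨⟨d₁, rfl⟩, h5⟩ := hd₀
    refine ⟨d₁, fun e he => le_antisymm (hD he) ?_⟩
    exact not_lt.1 (h5 _ ⟨e, rfl⟩)
  have h4 : ∀ e, d₀ ≤ e → N e = V F U e := by
    intro e he
    have := hNfin e
    refine (Submodule.eq_of_le_of_finrank_le (hVN e) ?_).symm
    have h5 : D (e + 1) = D e := by rw [hd₀ e he, hd₀ (e + 1) (by omega)]
    change f (e + 1 + 1) - f (e + 1) = f (e + 1) - f e at h5
    change finrank k (N e) ≤ f e
    have a1 : f (e + 1 + 1) + finrank k (N e) = 2 * f (e + 1) := h1 e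
    have a2 : f e ≤ finrank k (N e) := h2 e
    have a3 : f e ≤ f (e + 1) := h3 e
    have a4 : f (e + 1) ≤ f (e + 1 + 1) := h3 (e + 1)
    omega
  refine ⟨d₀, fun d hd z hz hFz => ?_⟩
  obtain ⟨e, he⟩ := mem_RS.1 hz
  have key : ∀ n, z ∈ V F U (d + n) → z ∈ V F U d := by
    intro n
    induction n with
    | zero => exact fun h => h
    | succ n ih =>
      intro h
      apply ih
      rw [← h4 (d + n) (by omega)]
      exact ⟨h, (V_mono (by omega) : V F U (d + 1) ≤ V F U (d + n + 1)) hFz⟩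
  exact key e (V_mono (by omega) he)

theorem strict_it (hd : ∃ d₀ : ℕ, ∀ d, d₀ ≤ d → ∀ z ∈ RS F U, F z ∈ V F U (d + 1) → z ∈ V F U d) :
    ∃ d₀ : ℕ, ∀ n d, d₀ ≤ d → ∀ z ∈ RS F U, F^[n] z ∈ V F U (d + n) → z ∈ V F U d := by
  obtain ⟨d₀, hd₀⟩ := hd
  refine ⟨d₀, fun n => ?_⟩
  induction n with
  | zero => exact fun d _ z _ h => h
  | succ n ih =>
    intro d hd z hz h
    rw [Function.iterate_succ_apply] at h
    refine hd₀ d hd z hz (ih (d + 1) (by omega) (F z)
      (map_RS_le (Submodule.mem_map_of_mem hz)) ?_)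
    have h1 : d + 1 + n = d + (n + 1) := by omega
    rw [h1]
    exact h

/-- In a finitely generated torsion free module, infinitely divisible elements are zero. -/
theorem eq_zero_of_div (hTF : Sat F (⊥ : Submodule k G) = ⊥) (hU : U.FG) {x : G} (y : ℕ → G)
    (hy : ∀ n, y n ∈ RS F U) (hxy : ∀ n, F^[n] (y n) = x) : x = 0 := by
  have hF := inj_of_tf hTF
  obtain ⟨d₀, hd₀⟩ := strict_it (exists_strict hTF hU)
  have hx0 : y 0 = x := hxy 0
  obtain ⟨e, he⟩ := mem_RS.1 (hy 0)
  rw [hx0] at he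
  have h1 : ∀ n, y n ∈ V F U (max d₀ e) := fun n =>
    hd₀ n _ (le_max_left _ _) _ (hy n) (by
      rw [hxy n]
      exact V_mono (by omega) he)
  have h2 : ∀ n, F (y (n + 1)) = y n := by
    intro n
    apply it_inj hF n
    rw [← Function.iterate_succ_apply, hxy, hxy]
  let W : Submodule k G := Submodule.span k (Set.range y)
  let W₁ : Submodule k G := Submodule.span k (Set.range fun n => y (n + 1))
  have hWV : W ≤ V F U (max d₀ e) := by
    rw [Submodule.span_le]
    rintro _ ⟨n, rfl⟩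
    exact h1 n
  have hW : W.FG := (V_fg hU _).of_le hWV
  have hWfin : FiniteDimensional k W := Module.Finite.iff_fg.2 hW
  have hle : W₁ ≤ W := by
    rw [Submodule.span_le]
    rintro _ ⟨n, rfl⟩
    exact Submodule.subset_span ⟨n + 1, rfl⟩
  have hmap : W₁.map F = W := by
    rw [Submodule.map_span]
    congr 1
    ext z
    constructor
    · rintro ⟨_, ⟨n, rfl⟩, rfl⟩
      exact ⟨n, (h2 n).symm⟩
    · rintro ⟨n, rfl⟩
      exact ⟨_, ⟨n, rfl⟩, h2 n⟩
  have h3 : W₁ = W := by
    refine Submodule.eq_of_le_of_finrank_le hle ?_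
    rw [← finrank_map hF W₁, hmap]
  have h4 : W = ⊥ := by
    refine eq_bot_of_map_le hTF hW ?_
    rw [h3] at hmap
    rw [hmap]
  have h5 : x ∈ W := Submodule.subset_span ⟨0, hx0⟩
  rw [h4] at h5
  exact h5

/-! ## The quotient by a saturated submodule -/

/-- `F` on `G / S`. -/
noncomputable def Fq (hS : S.map F ≤ S) : G ⧸ S →ₛₗ[σ] G ⧸ S :=
  S.mapQ S F (Submodule.map_le_iff_le_comap.1 hS)

theorem Fq_mk (hS : S.map F ≤ S) (x : G) : Fq hS (S.mkQ x) = S.mkQ (F x) := rfl

theorem Fq_it (hS : S.map F ≤ S) (c : ℕ) (x : G) : (Fq hS)^[c] (S.mkQ x) = S.mkQ (F^[c] x) := by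
  induction c with
  | zero => rfl
  | succ c ih => rw [Function.iterate_succ_apply', Function.iterate_succ_apply', ih, Fq_mk]

theorem mkQ_eq_zero {x : G} : S.mkQ x = 0 ↔ x ∈ S := Submodule.Quotient.mk_eq_zero S

theorem mkQ_eq {x y : G} : S.mkQ x = S.mkQ y ↔ x - y ∈ S := by
  rw [← mkQ_eq_zero, map_sub, sub_eq_zero]

theorem V_mk (hS : S.map F ≤ S) (b : ℕ) : V (Fq hS) (U.map S.mkQ) b = (V F U b).map S.mkQ := by
  induction b with
  | zero => simp
  | succ b ih =>
    rw [V_succ, V_succ, ih, Submodule.map_sup]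
    congr 1
    apply le_antisymm
    · rintro _ ⟨_, ⟨x, hx, rfl⟩, rfl⟩
      exact ⟨F x, Submodule.mem_map_of_mem hx, rfl⟩
    · rintro _ ⟨_, ⟨x, hx, rfl⟩, rfl⟩
      exact ⟨S.mkQ x, Submodule.mem_map_of_mem hx, rfl⟩

theorem exists_lift_fg {W : Submodule k (G ⧸ S)} (hW : W.FG) :
    ∃ T : Submodule k G, T.FG ∧ T.map S.mkQ = W := by
  obtain ⟨s, hs⟩ := hW
  have h1 : ∀ y : G ⧸ S, ∃ x, S.mkQ x = y := Submodule.mkQ_surjective S
  choose f hf using h1
  classical
  refine ⟨Submodule.span k (s.image f : Set G), ⟨s.image f, rfl⟩, ?_⟩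
  rw [Submodule.map_span, ← hs]
  congr 1
  ext z
  constructor
  · rintro ⟨x, hx, rfl⟩
    obtain ⟨y, hy, rfl⟩ := Finset.mem_image.1 (Finset.mem_coe.1 hx)
    rw [hf]
    exact hy
  · intro hz
    exact ⟨f z, Finset.mem_coe.2 (Finset.mem_image_of_mem f hz), hf z⟩

theorem tf_quot (hS : S.map F ≤ S) (hsat : Sat F S = S) :
    Sat (Fq hS) (⊥ : Submodule k (G ⧸ S)) = ⊥ := by
  refine le_bot_iff.1 ?_
  rintro z ⟨W, hW, hz⟩
  obtain ⟨x, rfl⟩ := Submodule.mkQ_surjective S z
  obtain ⟨T, hT, rfl⟩ := exists_lift_fg hW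
  have h1 : x ∈ Sat F S := by
    refine ⟨T, hT, fun c => ?_⟩
    have h2 := hz c
    rw [Fq_it, bot_sup_eq] at h2
    obtain ⟨t, ht, h3⟩ := h2
    have h4 : F^[c] x - t ∈ S := mkQ_eq.1 h3.symm
    have h5 : F^[c] x = (F^[c] x - t) + t := by abel
    rw [h5]
    exact add_mem (Submodule.mem_sup_left h4) (Submodule.mem_sup_right ht)
  rw [hsat] at h1
  exact mkQ_eq_zero.2 h1

/-- If `x` lies in `S + F^n X` for all `n`, `S` saturated, then `x ∈ S`. -/
theorem mem_of_div (hS : S.map F ≤ S) (hsat : Sat F S = S) (hU : U.FG) {x : G}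
    (h : ∀ n, ∃ s ∈ S, ∃ y ∈ RS F U, x = s + F^[n] y) : x ∈ S := by
  choose s hs y hy hx using h
  refine mkQ_eq_zero.1 (eq_zero_of_div (tf_quot hS hsat) (hU.map S.mkQ) (fun n => S.mkQ (y n))
    (fun n => ?_) fun n => ?_)
  · obtain ⟨b, hb⟩ := mem_RS.1 (hy n)
    refine mem_RS.2 ⟨b, ?_⟩
    rw [V_mk]
    exact Submodule.mem_map_of_mem hb
  · rw [Fq_it]
    rw [mkQ_eq]
    have h1 := hx n
    have h2 : F^[n] (y n) - x = -s n := by rw [h1]; abel
    rw [h2]
    exact neg_mem (hs n)

/-! ## Operators -/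

variable (F) in
/-- A space of `k`-linear operators, closed under composition, with `A F ⊆ F A`. -/
structure Ops where
  A : Submodule k (G →ₗ[k] G)
  comp_mem : ∀ φ ∈ A, ∀ ψ ∈ A, φ ∘ₗ ψ ∈ A
  tw : ∀ φ ∈ A, ∃ φ' ∈ A, ∀ x, φ (F x) = F (φ' x)

variable (O : Ops F)

/-- The span of the `φ x`, `φ ∈ A`, `x ∈ S`. -/
def act (S : Submodule k G) : Submodule k G :=
  Submodule.span k {z | ∃ φ ∈ O.A, ∃ x ∈ S, φ x = z}

variable {O}

theorem mem_act {φ : G →ₗ[k] G} (hφ : φ ∈ O.A) {x : G} (hx : x ∈ S) : φ x ∈ act O S :=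
  Submodule.subset_span ⟨φ, hφ, x, hx, rfl⟩

theorem act_le : act O S ≤ T ↔ ∀ φ ∈ O.A, ∀ x ∈ S, φ x ∈ T := by
  rw [act, Submodule.span_le]
  constructor
  · exact fun h φ hφ x hx => h ⟨φ, hφ, x, hx, rfl⟩
  · rintro h _ ⟨φ, hφ, x, hx, rfl⟩
    exact h φ hφ x hx

theorem act_mono (h : S ≤ T) : act O S ≤ act O T :=
  act_le.2 fun _ hφ _ hx => mem_act hφ (h hx)

theorem act_sup_le : act O (S ⊔ T) ≤ act O S ⊔ act O T := by
  rw [act_le]
  intro φ hφ x hx
  obtain ⟨y, hy, z, hz, rfl⟩ := Submodule.mem_sup.1 hx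
  rw [map_add]
  exact add_mem (Submodule.mem_sup_left (mem_act hφ hy)) (Submodule.mem_sup_right (mem_act hφ hz))

theorem act_act_le : act O (act O S) ≤ act O S := by
  rw [act_le]
  intro φ hφ x hx
  induction hx using Submodule.span_induction with
  | mem y hy =>
    obtain ⟨ψ, hψ, z, hz, rfl⟩ := hy
    exact mem_act (O.comp_mem φ hφ ψ hψ) hz
  | zero => rw [map_zero]; exact zero_mem _
  | add x y _ _ hx hy => rw [map_add]; exact add_mem hx hy
  | smul a x _ hx => rw [map_smul]; exact Submodule.smul_mem _ _ hx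

theorem act_map_le : act O (S.map F) ≤ (act O S).map F := by
  rw [act_le]
  rintro φ hφ _ ⟨x, hx, rfl⟩
  obtain ⟨φ', hφ', h⟩ := O.tw φ hφ
  rw [h]
  exact Submodule.mem_map_of_mem (mem_act hφ' hx)

theorem act_bot : act O (⊥ : Submodule k G) = ⊥ := by
  refine le_bot_iff.1 (act_le.2 ?_)
  rintro φ _ x rfl
  rw [map_zero]
  exact zero_mem _

theorem act_V_le (b : ℕ) : act O (V F S b) ≤ V F (act O S) b := by
  induction b with
  | zero => rw [V_zero, V_zero, act_bot]
  | succ b ih =>
    refine act_sup_le.trans (sup_le_sup_left ?_ _)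
    exact act_map_le.trans (Submodule.map_mono ih)

theorem act_RS_le : act O (RS F S) ≤ RS F (act O S) := by
  rw [act_le]
  intro φ hφ x hx
  obtain ⟨b, hb⟩ := mem_RS.1 hx
  exact V_le_RS b (act_V_le b (mem_act hφ hb))

theorem act_it_mono (n : ℕ) (h : S ≤ T) : (act O)^[n] S ≤ (act O)^[n] T := by
  induction n with
  | zero => exact h
  | succ n ih => rw [Function.iterate_succ_apply', Function.iterate_succ_apply']; exact act_mono ih

theorem act_it_V_le (n b : ℕ) : (act O)^[n] (V F S b) ≤ V F ((act O)^[n] S) b := by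
  induction n with
  | zero => exact le_rfl
  | succ n ih =>
    rw [Function.iterate_succ_apply', Function.iterate_succ_apply']
    exact (act_mono ih).trans (act_V_le b)

theorem V_bot (b : ℕ) : V F (⊥ : Submodule k G) b = ⊥ := by
  induction b with
  | zero => rfl
  | succ b ih => rw [V_succ, ih]; simp

/-- A space which is generated by `Y` modulo nilpotent operators lies in `Y + A Y`. -/
theorem le_of_nil {Y : Submodule k G} (h : U ≤ Y ⊔ act O U) {r : ℕ} (hr : (act O)^[r] U = ⊥) :
    U ≤ Y ⊔ act O Y := by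
  have key : ∀ n, U ≤ Y ⊔ act O Y ⊔ (act O)^[n + 1] U := by
    intro n
    induction n with
    | zero => exact h.trans (sup_le_sup_right le_sup_left _)
    | succ n ih =>
      refine ih.trans (sup_le le_sup_left ?_)
      have h1 : (act O)^[n + 1] U ≤ (act O)^[n + 1] (Y ⊔ act O U) := act_it_mono _ h
      have h2 : ∀ m, (act O)^[m + 1] (Y ⊔ act O U) ≤ act O Y ⊔ (act O)^[m + 2] U := by
        intro m
        induction m with
        | zero => exact act_sup_le
        | succ m ihm =>
          rw [Function.iterate_succ_apply', Function.iterate_succ_apply' (act O) (m + 2) U]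
          refine (act_mono ihm).trans (act_sup_le.trans (sup_le_sup_right act_act_le _))
      refine h1.trans ((h2 n).trans (sup_le_sup_right le_sup_right _))
  have h1 := key r
  rw [Function.iterate_succ_apply', hr, act_bot, sup_bot_eq] at h1
  exact h1

/-! ## The main theorem -/

theorem Lt_mono (h : P ≤ T) (j : ℕ) : Lt F P j ≤ Lt F T j := by
  rintro x ⟨W, hW, hx⟩
  exact ⟨W, hW, fun c => mono_l (V_mono_left h _) (hx c)⟩

theorem Lt_zero_le : Lt F P 0 ≤ Lt F P 1 := by
  rintro x ⟨W, hW, hx⟩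
  exact ⟨W, hW, fun c => mono_l (V_mono (by omega)) (hx c)⟩

theorem le_Lt : P ≤ Lt F P 1 := fun x hx =>
  ⟨⊥, Submodule.fg_bot, fun c => Submodule.mem_sup_left (by
    have h1 := it_mem_V (le_V 0 hx) c (F := F)
    rwa [show 0 + 1 + c = c + 1 by omega] at h1)⟩

theorem mem_Lt_zero {z : G} (h : F z ∈ Lt F P 1) : z ∈ Lt F P 0 := by
  obtain ⟨T, hT, h1⟩ := h
  refine ⟨T ⊔ Submodule.span k {z}, hT.sup (Submodule.fg_span_singleton z), fun c => ?_⟩
  cases c with
  | zero =>
    exact Submodule.mem_sup_right (Submodule.mem_sup_right (Submodule.mem_span_singleton_self z))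
  | succ c =>
    have h2 := h1 c
    rw [← Function.iterate_succ_apply] at h2
    exact mono_r le_sup_left h2

theorem Lt_le_Sat (j : ℕ) : Lt F P j ≤ Sat F (RS F P) := by
  rintro x ⟨W, hW, hx⟩
  exact ⟨W, hW, fun c => mono_l (V_le_RS _) (hx c)⟩

/-- Step (3): a subspace which generates `X` modulo `F X` generates enough under the operators. -/
theorem full_of_gen {U₀ : Submodule k G} (hU₀ : U₀.FG) (hst : act O U₀ ≤ U₀)
    (hfull : RS F U₀ ≤ Sat F (RS F (act O (RS F U₀))))
    (hU : RS F U₀ ≤ U ⊔ (RS F U₀).map F) :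
    RS F U₀ ≤ Sat F (RS F (act O U)) := by
  set S := Sat F (RS F (act O U)) with hS
  have hSF : S.map F ≤ S := map_Sat_le
  have hSS : Sat F S = S := Sat_Sat
  have hXst : act O (RS F U₀) ≤ RS F U₀ := act_RS_le.trans (RS_mono hst)
  have h0 : RS F (act O U) ≤ S := le_Sat map_RS_le
  have h1 : act O (RS F U₀) ≤ S := by
    rw [act_le]
    intro φ hφ z hz
    refine mem_of_div hSF hSS hU₀ fun n => ?_
    induction n generalizing φ z with
    | zero => exact ⟨0, zero_mem _, φ z, hXst (mem_act hφ hz), (zero_add _).symm⟩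
    | succ n ih =>
      obtain ⟨u, hu, _, ⟨z₁, hz₁, rfl⟩, rfl⟩ := Submodule.mem_sup.1 (hU hz)
      obtain ⟨φ', hφ', h2⟩ := O.tw φ hφ
      obtain ⟨s, hs, y, hy, h3⟩ := ih φ' hφ' z₁ hz₁
      refine ⟨φ u + F s, add_mem (h0 (le_RS (mem_act hφ hu)))
        (hSF (Submodule.mem_map_of_mem hs)), y, hy, ?_⟩
      rw [map_add, h2, h3, map_add, Function.iterate_succ_apply', add_assoc]
  refine hfull.trans ?_
  rw [← hSS]
  exact Sat_mono (RS_le h1 hSF)

/-- A finite dimensional subspace of `Sat F S` has a common `T`. -/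
theorem exists_T (hT : T.FG) (h : T ≤ Sat F S) :
    ∃ W : Submodule k G, W.FG ∧ ∀ z ∈ T, ∀ c, F^[c] z ∈ S ⊔ W := by
  obtain ⟨s, rfl⟩ := hT
  have h2 : ∀ y ∈ s, ∃ W : Submodule k G, W.FG ∧ ∀ c, F^[c] y ∈ S ⊔ W := fun y hy' =>
    h (Submodule.subset_span hy')
  choose! W hW hWc using h2
  refine ⟨s.sup W, ?_, ?_⟩
  · rw [Finset.sup_eq_iSup]
    exact Submodule.fg_biSup s W hW
  · intro z hz
    induction hz using Submodule.span_induction with
    | mem y hy' => exact fun c => mono_r (Finset.le_sup hy') (hWc y hy' c)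
    | zero => exact fun c => by rw [it_zero]; exact zero_mem _
    | add x y _ _ hx hy' => exact fun c => by rw [it_add]; exact add_mem (hx c) (hy' c)
    | smul a x _ hx => exact fun c => by rw [it_smul]; exact Submodule.smul_mem _ _ (hx c)

theorem exists_le_V_sup {W : Submodule k G} (hT : T.FG) (h : T ≤ RS F S ⊔ W) :
    ∃ b, T ≤ V F S b ⊔ W := by
  obtain ⟨s, hs⟩ := hT
  have h1 : ∀ x ∈ s, ∃ b, x ∈ V F S b ⊔ W := fun x hx => by
    obtain ⟨y, hy, z, hz, h2⟩ := Submodule.mem_sup.1 (h (hs ▸ Submodule.subset_span hx))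
    obtain ⟨b, hb⟩ := mem_RS.1 hy
    exact ⟨b, h2 ▸ add_mem (Submodule.mem_sup_left hb) (Submodule.mem_sup_right hz)⟩
  choose! f hf using h1
  refine ⟨s.sup f, ?_⟩
  rw [← hs, Submodule.span_le]
  intro x hx
  exact mono_l (V_mono (Finset.le_sup hx)) (hf x hx)

theorem finrank_V_le (hF : Function.Injective F) {H : Submodule k G} (hH : H.FG) (n : ℕ) :
    finrank k (V F H n) ≤ n * finrank k H := by
  have := Module.Finite.iff_fg.2 hH
  induction n with
  | zero => rw [V_zero, finrank_bot]; exact Nat.zero_le _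
  | succ n ih =>
    have h1 : FiniteDimensional k ((V F H n).map F) :=
      Module.Finite.iff_fg.2 ((V_fg hH n).map F)
    have h2 := Submodule.finrank_sup_add_finrank_inf_eq H ((V F H n).map F)
    rw [finrank_map hF] at h2
    rw [V_succ, Nat.add_mul]
    omega

theorem le_finrank_V (hF : Function.Injective F) {U₀ M : Submodule k G} (hU₀ : U₀.FG)
    (hM : M ≤ U₀) (hMX : M ⊓ (RS F U₀).map F = ⊥) (n : ℕ) :
    n * finrank k M ≤ finrank k (V F U₀ n) := by
  have hMfin : FiniteDimensional k M := Module.Finite.iff_fg.2 (hU₀.of_le hM)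
  induction n with
  | zero => simp
  | succ n ih =>
    have h1 : FiniteDimensional k ((V F U₀ n).map F) :=
      Module.Finite.iff_fg.2 ((V_fg hU₀ n).map F)
    have h2 := Submodule.finrank_sup_add_finrank_inf_eq M ((V F U₀ n).map F)
    have h3 : M ⊓ (V F U₀ n).map F = ⊥ := by
      refine le_bot_iff.1 ?_
      rw [← hMX]
      exact inf_le_inf_left _ (Submodule.map_mono (V_le_RS n))
    rw [h3, finrank_bot, finrank_map hF] at h2
    have h4 : M ⊔ (V F U₀ n).map F ≤ V F U₀ (n + 1) := sup_le_sup_right hM _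
    have h5 : FiniteDimensional k (V F U₀ (n + 1)) := Module.Finite.iff_fg.2 (V_fg hU₀ _)
    have h6 := Submodule.finrank_mono h4
    rw [Nat.add_mul]
    omega

/-- A complement inside `T` modulo `S`. -/
theorem exists_compl (hT : T.FG) (S : Submodule k G) :
    ∃ H : Submodule k G, H.FG ∧ H ≤ T ∧ H ⊓ S = ⊥ ∧ T ≤ S ⊔ H := by
  obtain ⟨Q, hQ⟩ := Submodule.exists_isCompl ((S ⊓ T).comap T.subtype)
  refine ⟨Q.map T.subtype, ?_, ?_, ?_, ?_⟩
  · exact hT.of_le (Submodule.map_subtype_le T Q)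
  · exact Submodule.map_subtype_le T Q
  · refine le_bot_iff.1 ?_
    rintro _ ⟨⟨x, hx, rfl⟩, hxS⟩
    have h1 : x ∈ (S ⊓ T).comap T.subtype := ⟨hxS, x.2⟩
    have h2 : x ∈ (S ⊓ T).comap T.subtype ⊓ Q := ⟨h1, hx⟩
    rw [hQ.inf_eq_bot] at h2
    have h3 : x = 0 := h2
    rw [h3]
    exact zero_mem _
  · intro x hx
    have h1 : (⟨x, hx⟩ : T) ∈ (S ⊓ T).comap T.subtype ⊔ Q := by
      rw [hQ.sup_eq_top]
      exact Submodule.mem_top
    obtain ⟨a, ha, b, hb, h2⟩ := Submodule.mem_sup.1 h1
    have h3 : x = (a : G) + (b : G) := by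
      have := congrArg Subtype.val h2
      exact this.symm
    rw [h3]
    exact add_mem (Submodule.mem_sup_left ha.1) (Submodule.mem_sup_right ⟨b, hb, rfl⟩)

/-- The rank count: if `X` lies in the saturation of the module generated by `H`, and `M` is
independent modulo `F X`, then `dim M ≤ dim H`. -/
theorem finrank_le (hTF : Sat F (⊥ : Submodule k G) = ⊥) {U₀ M H : Submodule k G} (hU₀ : U₀.FG)
    (hM : M ≤ U₀) (hMX : M ⊓ (RS F U₀).map F = ⊥) (hH : H.FG)
    (hX : RS F U₀ ≤ Sat F (RS F H)) : finrank k M ≤ finrank k H := by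
  have hF := inj_of_tf hTF
  obtain ⟨T, hT, h1⟩ := exists_T hU₀ (le_RS.trans hX)
  have h2 : RS F U₀ ≤ RS F H ⊔ T := by
    have key : ∀ b, ∀ x ∈ V F U₀ b, ∀ c, F^[c] x ∈ RS F H ⊔ T := by
      intro b
      induction b with
      | zero =>
        rintro x hx c
        rw [V_zero, Submodule.mem_bot] at hx
        rw [hx, it_zero]
        exact zero_mem _
      | succ b ih =>
        intro x hx c
        obtain ⟨u, hu, _, ⟨y, hy, rfl⟩, rfl⟩ := Submodule.mem_sup.1 hx
        rw [it_add]
        refine add_mem (h1 u hu c) ?_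
        have := ih y hy (c + 1)
        rwa [Function.iterate_succ_apply] at this
    intro x hx
    obtain ⟨b, hb⟩ := mem_RS.1 hx
    exact key b x hb 0
  obtain ⟨T', hT', hT'X, h3⟩ := exists_fg_le hT h2
  obtain ⟨c₁, hc₁⟩ := exists_le_V_sup hU₀ (le_RS.trans h3)
  obtain ⟨c₂, hc₂⟩ := exists_le_V_sup (hT'.map F)
    (((Submodule.map_mono hT'X).trans map_RS_le).trans h3)
  set c₀ := max c₁ c₂ with hc₀
  have h4 : ∀ d, V F U₀ d ≤ V F H (c₀ + d) ⊔ T' := by
    intro d
    induction d with
    | zero => exact bot_le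
    | succ d ih =>
      refine sup_le ?_ ?_
      · exact hc₁.trans (sup_le_sup_right (V_mono (by omega)) _)
      · refine (Submodule.map_mono ih).trans ?_
        rw [Submodule.map_sup]
        refine sup_le ?_ ?_
        · exact le_sup_of_le_left ((map_V_le _).trans (V_mono (by omega)))
        · exact hc₂.trans (sup_le_sup_right (V_mono (by omega)) _)
  have h5 : ∀ d, d * finrank k M ≤ (c₀ + d) * finrank k H + finrank k T' := by
    intro d
    have a1 := le_finrank_V hF hU₀ hM hMX d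
    have a2 := finrank_V_le hF hH (c₀ + d)
    have a3 : FiniteDimensional k (V F H (c₀ + d)) := Module.Finite.iff_fg.2 (V_fg hH _)
    have a4 : FiniteDimensional k T' := Module.Finite.iff_fg.2 hT'
    have a5 := Submodule.finrank_mono (h4 d)
    have a6 := Submodule.finrank_add_le_finrank_add_finrank (V F H (c₀ + d)) T'
    omega
  by_contra hlt
  push Not at hlt
  have h6 := h5 (c₀ * finrank k H + finrank k T' + 1)
  set D := c₀ * finrank k H + finrank k T' + 1 with hD
  have h7 : D * (finrank k H + 1) ≤ D * finrank k M := Nat.mul_le_mul_left _ hlt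
  have h8 : (c₀ + D) * finrank k H = c₀ * finrank k H + D * finrank k H := Nat.add_mul _ _ _
  have h9 : D * (finrank k H + 1) = D * finrank k H + D := Nat.mul_succ _ _
  omega

/-- Step (4), the bundle lemma: if `P` generates `X` up to torsion then the sections of the
lattice at infinity generated by `P` generate `X` modulo `F X`. -/
theorem gen_of_full (hTF : Sat F (⊥ : Submodule k G) = ⊥) {U₀ : Submodule k G} (hU₀ : U₀.FG)
    (hsat : Sat F (RS F U₀) = RS F U₀) (hPX : P ≤ RS F U₀)
    (hP : RS F U₀ ≤ Sat F (RS F P)) : RS F U₀ ≤ Lt F P 1 ⊔ (RS F U₀).map F := by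
  set X := RS F U₀ with hX
  have hXF : X.map F ≤ X := map_RS_le
  have hLX : Lt F P 1 ≤ X := by
    refine (Lt_le_Sat 1).trans ?_
    rw [← hsat]
    exact Sat_mono (RS_le hPX hXF)
  have hXU : X ≤ X.map F ⊔ U₀ := by
    intro x hx
    obtain ⟨b, hb⟩ := mem_RS.1 hx
    cases b with
    | zero =>
      rw [V_zero, Submodule.mem_bot] at hb
      rw [hb]
      exact zero_mem _
    | succ b =>
      have h1 : V F U₀ (b + 1) ≤ X.map F ⊔ U₀ :=
        sup_le le_sup_right (le_sup_of_le_left (Submodule.map_mono (V_le_RS b)))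
      exact h1 hb
  obtain ⟨T', hT', hT'L, h1⟩ := exists_fg_le hU₀ (hLX.trans hXU)
  obtain ⟨H, hH, hHT, hHX, hTH⟩ := exists_compl hT' (X.map F)
  have hHL : H ≤ Lt F P 1 := hHT.trans hT'L
  have h2 : Lt F P 1 ≤ X.map F ⊔ H := h1.trans (sup_le le_sup_left hTH)
  -- every section is a combination of `H` modulo infinitely divisible elements
  have h3 : Lt F P 1 ≤ Sat F (RS F H) := by
    intro z hz
    refine mem_of_div map_Sat_le (Sat_Sat) hU₀ fun n => ?_
    have key : ∀ n, ∀ z ∈ Lt F P 1, ∃ s ∈ RS F H, ∃ y ∈ X, z = s + F^[n] y := by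
      intro n
      induction n with
      | zero => exact fun z hz => ⟨0, zero_mem _, z, hLX hz, (zero_add _).symm⟩
      | succ n ih =>
        intro z hz
        obtain ⟨_, ⟨z₁, hz₁, rfl⟩, h, hh, h4⟩ := Submodule.mem_sup.1 (h2 hz)
        have h5 : F z₁ ∈ Lt F P 1 := by
          have : F z₁ = z - h := by rw [← h4]; abel
          rw [this]
          exact sub_mem hz (hHL hh)
        obtain ⟨s, hs, y, hy, h6⟩ := ih z₁ (Lt_zero_le (mem_Lt_zero h5))
        refine ⟨F s + h, add_mem (map_RS_le (Submodule.mem_map_of_mem hs)) (le_RS hh), y, hy, ?_⟩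
        rw [← h4, h6, map_add, Function.iterate_succ_apply']
        abel
    obtain ⟨s, hs, y, hy, h4⟩ := key n z hz
    exact ⟨s, le_Sat map_RS_le hs, y, hy, h4⟩
  have h4 : X ≤ Sat F (RS F H) := by
    refine hP.trans ?_
    rw [← Sat_Sat (F := F) (S := RS F H)]
    exact Sat_mono (RS_le (le_Lt.trans h3) map_Sat_le)
  -- compare with a complement of `F X` in `U₀`
  obtain ⟨M, hM, hMU, hMX, hUM⟩ := exists_compl hU₀ (X.map F)
  have h5 : finrank k M ≤ finrank k H := finrank_le hTF hU₀ hMU hMX hH h4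
  have h6 : X ≤ X.map F ⊔ M := hXU.trans (sup_le le_sup_left hUM)
  have hr : ∀ N : Submodule k G, N ⊓ X.map F = ⊥ →
      finrank k (N.map (X.map F).mkQ) = finrank k N := by
    intro N hN
    have h7 : Function.Injective ((X.map F).mkQ.domRestrict N) := by
      rw [injective_iff_map_eq_zero]
      intro x hx
      have h8 : (x : G) ∈ X.map F := mkQ_eq_zero.1 hx
      have h9 : (x : G) ∈ N ⊓ X.map F := ⟨x.2, h8⟩
      rw [hN] at h9
      exact Subtype.ext h9
    have h8 := LinearMap.finrank_range_of_inj h7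
    rwa [LinearMap.range_domRestrict] at h8
  have h7 : H.map (X.map F).mkQ = M.map (X.map F).mkQ := by
    have hfin : FiniteDimensional k (M.map (X.map F).mkQ) :=
      Module.Finite.iff_fg.2 (hM.map _)
    refine Submodule.eq_of_le_of_finrank_le ?_ ?_
    · rintro _ ⟨x, hx, rfl⟩
      obtain ⟨a, ha, b, hb, rfl⟩ := Submodule.mem_sup.1 (h6 (hLX (hHL hx)))
      refine ⟨b, hb, ?_⟩
      rw [map_add, mkQ_eq_zero.2 ha, zero_add]
    · rw [hr M hMX, hr H hHX]
      exact h5
  intro x hx
  obtain ⟨a, ha, b, hb, rfl⟩ := Submodule.mem_sup.1 (h6 hx)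
  refine add_mem (Submodule.mem_sup_right ha) ?_
  have h8 : (X.map F).mkQ b ∈ H.map (X.map F).mkQ := by
    rw [h7]
    exact Submodule.mem_map_of_mem hb
  obtain ⟨c, hc, h9⟩ := h8
  have h10 : c - b ∈ X.map F := mkQ_eq.1 h9
  have h11 : b = c - (c - b) := by abel
  rw [h11]
  exact sub_mem (Submodule.mem_sup_left (hHL hc)) (Submodule.mem_sup_right h10)

/-- Step (1): the sections stay in the filtration. -/
theorem Lt_le_V {U₀ : Submodule k G} (hst : act O U₀ ≤ U₀)
    (hsat : Sat F (RS F U₀) = RS F U₀) {d₀ : ℕ}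
    (hd₀ : ∀ n d, d₀ ≤ d → ∀ z ∈ RS F U₀, F^[n] z ∈ V F U₀ (d + n) → z ∈ V F U₀ d)
    {d : ℕ} (hd : d₀ ≤ d) (hU : U ≤ V F U₀ d) : Lt F (act O U) 1 ≤ V F U₀ d := by
  have hP : act O U ≤ V F U₀ d :=
    (act_mono hU).trans ((act_V_le d).trans (V_mono_left hst d))
  rintro z ⟨T, hT, hz⟩
  have hzX : z ∈ RS F U₀ := by
    rw [← hsat]
    exact Sat_mono (RS_le (hP.trans (V_le_RS d)) map_RS_le) (Lt_le_Sat 1 ⟨T, hT, hz⟩)
  obtain ⟨e, he⟩ := exists_le_V (F := F) (S := U₀) (T := T ⊓ RS F U₀) (hT.of_le inf_le_left)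
    inf_le_right
  refine hd₀ e d hd z hzX ?_
  have h1 := hz e
  obtain ⟨a, ha, t, ht, h2⟩ := Submodule.mem_sup.1 h1
  have h3 : a ∈ V F U₀ (d + e) := V_V d e (V_mono_left hP _ ha)
  have h4 : t ∈ RS F U₀ := by
    have : t = F^[e] z - a := by rw [← h2]; abel
    rw [this]
    exact sub_mem (it_mem map_RS_le hzX e) (V_le_RS _ h3)
  rw [← h2]
  exact add_mem h3 (V_mono (by omega) (he ⟨ht, h4⟩))

/-- An element of `Lt F P 1` is the sum of an element of `P` and an element `y` with `F^b y` in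
the lower terms. -/
theorem exists_rel (hPU : P ≤ U) {z : G} (hzU : z ∈ U) (hz : z ∈ Lt F P 1) :
    ∃ a ∈ P, ∃ b : ℕ, ∀ c, b ≤ c → F^[c] (z - a) ∈ V F U c := by
  classical
  obtain ⟨T, hT, h1⟩ := hz
  have hTfin : FiniteDimensional k T := Module.Finite.iff_fg.2 hT
  have h2 : ∀ c, ∃ v ∈ V F P (c + 1), ∃ t ∈ T, v + t = F^[c] z := fun c =>
    Submodule.mem_sup.1 (h1 c)
  choose v hv t ht hvt using h2
  -- a linear relation between the `t c`
  have h3 : ¬ LinearIndependent k (fun i : Fin (finrank k T + 1) => (⟨t i, ht i⟩ : T)) := by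
    intro h
    have := h.fintype_card_le_finrank
    simp at this
  rw [Fintype.not_linearIndependent_iff] at h3
  obtain ⟨g, hg, i₀, hi₀⟩ := h3
  -- the largest index with nonzero coefficient
  obtain ⟨i, hi, himax⟩ := (Finset.univ.filter fun i => g i ≠ 0).exists_max_image
    (fun i : Fin (finrank k T + 1) => (i : ℕ)) ⟨i₀, by simpa using hi₀⟩
  rw [Finset.mem_filter] at hi
  have hgi := hi.2
  have hlarge : ∀ j : Fin (finrank k T + 1), (i : ℕ) < (j : ℕ) → g j = 0 := by
    intro j hj
    by_contra h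
    have := himax j (Finset.mem_filter.2 ⟨Finset.mem_univ _, h⟩)
    omega
  have hsum : ∑ j, g j • t j = 0 := by
    have := congrArg Subtype.val hg
    simpa using this
  -- so `F^i z` is in the lower terms plus `V F P (i + 1)`
  have h4 : F^[(i : ℕ)] z ∈ V F U i ⊔ V F P (i + 1) := by
    have h5 : g i • F^[(i : ℕ)] z =
        ∑ j, g j • v j - ∑ j ∈ Finset.univ.erase i, g j • F^[(j : ℕ)] z := by
      have h6 : ∑ j, g j • F^[(j : ℕ)] z = ∑ j, g j • v j := by
        have h7 : ∀ j : Fin (finrank k T + 1), g j • F^[(j : ℕ)] z = g j • v j + g j • t j :=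
          fun j => by rw [← smul_add, hvt]
        rw [Finset.sum_congr rfl fun j _ => h7 j, Finset.sum_add_distrib, hsum, add_zero]
      rw [← h6, ← Finset.add_sum_erase Finset.univ (fun j => g j • F^[(j : ℕ)] z)
        (Finset.mem_univ i)]
      abel
    have h6 : F^[(i : ℕ)] z = (g i)⁻¹ • (g i • F^[(i : ℕ)] z) := by
      rw [smul_smul, inv_mul_cancel₀ hgi, one_smul]
    rw [h6, h5]
    refine Submodule.smul_mem _ _ (sub_mem (Submodule.mem_sup_right ?_)
      (Submodule.mem_sup_left ?_))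
    · refine sum_mem fun j _ => ?_
      by_cases hj : (i : ℕ) < (j : ℕ)
      · rw [hlarge j hj, zero_smul]
        exact zero_mem _
      · exact Submodule.smul_mem _ _ (V_mono (by omega) (hv j))
    · refine sum_mem fun j hj => ?_
      by_cases hj' : (i : ℕ) < (j : ℕ)
      · rw [hlarge j hj', zero_smul]
        exact zero_mem _
      · have hne : j ≠ i := (Finset.mem_erase.1 hj).1
        have hlt : (j : ℕ) < i := by
          have : (j : ℕ) ≠ i := fun h => hne (Fin.ext h)
          omega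
        refine Submodule.smul_mem _ _ ?_
        have h7 := it_mem_V (le_V 0 hzU) (j : ℕ) (F := F)
        exact V_mono (by omega) h7
  -- split off the top term of `V F P (i + 1)`
  have h5 : ∀ n, ∀ x ∈ V F P (n + 1), ∃ a ∈ P, x - F^[n] a ∈ V F P n := by
    intro n
    induction n with
    | zero =>
      intro x hx
      refine ⟨x, ?_, by simp⟩
      simpa [V_succ] using hx
    | succ n ih =>
      intro x hx
      obtain ⟨y, hy, _, ⟨w, hw, rfl⟩, rfl⟩ := Submodule.mem_sup.1 hx
      obtain ⟨a, ha, h6⟩ := ih w hw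
      refine ⟨a, ha, ?_⟩
      have h7 : y + F w - F^[n + 1] a = y + F (w - F^[n] a) := by
        rw [map_sub, Function.iterate_succ_apply', add_sub_assoc]
      rw [h7]
      exact add_mem (le_V n hy) (map_V_le n (Submodule.mem_map_of_mem h6))
  obtain ⟨x, hx, y, hy, h6⟩ := Submodule.mem_sup.1 h4
  obtain ⟨a, ha, h7⟩ := h5 _ y hy
  refine ⟨a, ha, i, fun c hc => ?_⟩
  have h8 : F^[(i : ℕ)] (z - a) ∈ V F U i := by
    have h9 : F^[(i : ℕ)] (z - a) = x + (y - F^[(i : ℕ)] a) := by
      have : F^[(i : ℕ)] (z - a) + F^[(i : ℕ)] a = F^[(i : ℕ)] z := by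
        rw [← it_add, sub_add_cancel]
      rw [eq_sub_of_add_eq this, ← h6]
      abel
    rw [h9]
    exact add_mem hx (V_mono_left hPU _ h7)
  obtain ⟨n, rfl⟩ := Nat.exists_eq_add_of_le hc
  have h9 := it_mem_V h8 n
  rwa [← Function.iterate_add_apply, Nat.add_comm n] at h9

/-- **Existence of a strictly dominated subspace.** Let `X = k{F} U₀` be finitely generated, torsion
free (inside `G`) and saturated, `A` a space of operators with `A F ⊆ F A` which is nilpotent on
the finite dimensional `A`-stable space `U₀`. If `X / k{F} A X` is torsion and `X ≠ 0`, then there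
are a finite dimensional `Y ≠ 0` in `X` and `b ≥ 1` with `F^b Y ⊆ ∑_{a < b} F^a (Y + A Y)`. -/
theorem exists_sd (hTF : Sat F (⊥ : Submodule k G) = ⊥) {U₀ : Submodule k G} (hU₀ : U₀.FG)
    (hne : U₀ ≠ ⊥) (hst : act O U₀ ≤ U₀) {r : ℕ} (hr : (act O)^[r] U₀ = ⊥)
    (hsat : Sat F (RS F U₀) = RS F U₀)
    (hfull : RS F U₀ ≤ Sat F (RS F (act O (RS F U₀)))) :
    ∃ Y : Submodule k G, Y ≤ RS F U₀ ∧ Y.FG ∧ Y ≠ ⊥ ∧ ∃ b : ℕ, 1 ≤ b ∧
      ∀ y ∈ Y, F^[b] y ∈ V F (Y ⊔ act O Y) b := by
  classical
  obtain ⟨d₀, hd₀⟩ := strict_it (exists_strict hTF hU₀)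
  set X := RS F U₀ with hX
  set E := V F U₀ (d₀ + 1) with hE
  have hEfin : FiniteDimensional k E := Module.Finite.iff_fg.2 (V_fg hU₀ _)
  -- the family of the subspaces `U` of `E` with `X = U + F X` and `Lt F (A U) 1 ≤ U`
  let Fam : Set (Submodule k G) := {U | U ≤ E ∧ X ≤ U ⊔ X.map F ∧ Lt F (act O U) 1 ≤ U}
  have hXE : X ≤ E ⊔ X.map F := by
    intro x hx
    obtain ⟨b, hb⟩ := mem_RS.1 hx
    cases b with
    | zero =>
      rw [V_zero, Submodule.mem_bot] at hb
      rw [hb]
      exact zero_mem _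
    | succ b =>
      have h1 : V F U₀ (b + 1) ≤ E ⊔ X.map F :=
        sup_le (le_sup_of_le_left (le_V d₀)) (le_sup_of_le_right (Submodule.map_mono (V_le_RS b)))
      exact h1 hb
  have hEFam : E ∈ Fam :=
    ⟨le_rfl, hXE, Lt_le_V hst hsat hd₀ (Nat.le_succ d₀) le_rfl⟩
  obtain ⟨U, ⟨hUE, hUX, hUL⟩, hmin⟩ := (measure fun U : Submodule k G => finrank k U).wf.has_min
    Fam ⟨E, hEFam⟩
  have hUfin : FiniteDimensional k U := Module.Finite.iff_fg.2 ((V_fg hU₀ _).of_le hUE)
  have hUX' : U ≤ X := hUE.trans (V_le_RS _)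
  have hXst : act O X ≤ X := act_RS_le.trans (RS_mono hst)
  have hfullU : X ≤ Sat F (RS F (act O U)) := full_of_gen hU₀ hst hfull hUX
  have hgen : X ≤ Lt F (act O U) 1 ⊔ X.map F :=
    gen_of_full hTF hU₀ hsat ((act_mono hUX').trans hXst) hfullU
  have hL : Lt F (act O U) 1 = U := by
    have h1 : Lt F (act O U) 1 ∈ Fam :=
      ⟨hUL.trans hUE, hgen, Lt_mono (act_mono hUL) 1⟩
    have h2 := hmin _ h1
    refine Submodule.eq_of_le_of_finrank_le hUL ?_
    exact not_lt.1 h2
  -- `U` is not zero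
  have hUne : U ≠ ⊥ := by
    rintro rfl
    rw [bot_sup_eq] at hUX
    apply hne
    have h1 : ∀ x ∈ X, ∀ n, ∃ y ∈ X, F^[n] y = x := by
      intro x hx n
      induction n with
      | zero => exact ⟨x, hx, rfl⟩
      | succ n ih =>
        obtain ⟨y, hy, hyx⟩ := ih
        obtain ⟨z, hz, rfl⟩ := hUX hy
        exact ⟨z, hz, by rw [Function.iterate_succ_apply]; exact hyx⟩
    refine (Submodule.eq_bot_iff _).2 fun x hx => ?_
    choose y hy hyx using h1 x (le_RS hx)
    exact eq_zero_of_div hTF hU₀ y hy hyx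
  -- relations for the elements of `U`
  set W := U ⊔ act O U with hW
  have hrel : ∀ z ∈ U, ∃ a ∈ act O U, ∃ b : ℕ, ∀ c, b ≤ c → F^[c] (z - a) ∈ V F W c := by
    intro z hz
    exact exists_rel le_sup_right (Submodule.mem_sup_left hz) (by rw [hL]; exact hz)
  let B := Module.Free.chooseBasis k U
  have hrel' : ∀ i, ∃ a ∈ act O U, ∃ b : ℕ, ∀ c, b ≤ c → F^[c] ((B i : G) - a) ∈ V F W c :=
    fun i => hrel _ (B i).2
  choose a ha b hb using hrel'
  let Y : Submodule k G := Submodule.span k (Set.range fun i => (B i : G) - a i)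
  have hUY : U ≤ Y ⊔ act O U := by
    intro z hz
    have h1 : (⟨z, hz⟩ : U) = ∑ i, B.repr ⟨z, hz⟩ i • B i := (B.sum_repr _).symm
    have h2 : z = ∑ i, B.repr ⟨z, hz⟩ i • (B i : G) := by
      have := congrArg Subtype.val h1
      rw [Submodule.coe_sum] at this
      simpa using this
    rw [h2]
    refine sum_mem fun i _ => Submodule.smul_mem _ _ ?_
    have h3 : (B i : G) = ((B i : G) - a i) + a i := by abel
    rw [h3]
    exact add_mem (Submodule.mem_sup_left (Submodule.subset_span ⟨i, rfl⟩))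
      (Submodule.mem_sup_right (ha i))
  have hnil : (act O)^[r] U = ⊥ := by
    refine le_bot_iff.1 ?_
    refine (act_it_mono r hUE).trans ((act_it_V_le r _).trans ?_)
    rw [hr, V_bot]
  have hUOY : U ≤ Y ⊔ act O Y := le_of_nil hUY hnil
  have hYFG : Y.FG := ⟨Finset.univ.image fun i => (B i : G) - a i, by simp [Y]⟩
  have hYX : Y ≤ X := by
    rw [Submodule.span_le]
    rintro _ ⟨i, rfl⟩
    exact sub_mem (hUX' (B i).2) (hXst (act_mono hUX' (ha i)))
  have hWY : W ≤ Y ⊔ act O Y := by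
    refine sup_le hUOY ((act_mono hUOY).trans (act_sup_le.trans (sup_le le_sup_right ?_)))
    exact act_act_le.trans le_sup_right
  refine ⟨Y, hYX, hYFG, ?_, max 1 (Finset.univ.sup b), le_max_left _ _, ?_⟩
  · rintro h
    apply hUne
    rw [h, act_bot, sup_bot_eq] at hUOY
    exact le_bot_iff.1 hUOY
  · intro y hy
    induction hy using Submodule.span_induction with
    | mem y hy =>
      obtain ⟨i, rfl⟩ := hy
      refine V_mono_left hWY _ (hb i _ ?_)
      exact (Finset.le_sup (Finset.mem_univ i)).trans (le_max_right _ _)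
    | zero => rw [it_zero]; exact zero_mem _
    | add x y _ _ hx hy => rw [it_add]; exact add_mem hx hy
    | smul c x _ hx => rw [it_smul]; exact Submodule.smul_mem _ _ hx

/-! ## Flags -/

theorem it_map_le (hS : S.map F ≤ S) (h : P ≤ S) : RS F P ≤ S := RS_le h hS

/-- A saturated submodule of `X` is generated by a finite dimensional piece of the filtration. -/
theorem exists_gen (hSF : S.map F ≤ S) (hsat : Sat F S = S) (hU : U.FG) (hSU : S ≤ RS F U) :
    ∃ d, S = RS F (S ⊓ V F U d) := by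
  obtain ⟨d₁, hd₁⟩ := exists_strict (tf_quot hSF hsat) (hU.map S.mkQ)
  refine ⟨d₁ + 1, le_antisymm ?_ (RS_le inf_le_left hSF)⟩
  have key : ∀ n, S ⊓ V F U (d₁ + 1 + n) ≤ RS F (S ⊓ V F U (d₁ + 1)) := by
    intro n
    induction n with
    | zero => exact le_RS
    | succ n ih =>
      rintro z ⟨hzS, hz⟩
      have h1 : z ∈ V F U (d₁ + 1 + n) ⊔ (V F U (d₁ + 1 + n)).map F :=
        (sup_le_sup_right ((le_V (d₁ + n)).trans (V_mono (by omega))) _ :
          U ⊔ (V F U (d₁ + 1 + n)).map F ≤ _) hz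
      obtain ⟨x, hx, _, ⟨y, hy, rfl⟩, rfl⟩ := Submodule.mem_sup.1 h1
      -- in the quotient
      have h2 : (Fq hSF) (S.mkQ y) = -S.mkQ x := by
        rw [Fq_mk, eq_neg_iff_add_eq_zero, ← map_add, mkQ_eq_zero, add_comm]
        exact hzS
      have h3 : S.mkQ y ∈ V (Fq hSF) (U.map S.mkQ) (d₁ + n) := by
        refine hd₁ _ (by omega) _ ?_ ?_
        · refine V_le_RS (d₁ + 1 + n) ?_
          rw [V_mk]
          exact Submodule.mem_map_of_mem hy
        · rw [h2, V_mk]
          exact neg_mem (Submodule.mem_map_of_mem (V_mono (by omega) hx))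
      rw [V_mk] at h3
      obtain ⟨y', hy', h4⟩ := h3
      have h5 : y - y' ∈ S := mkQ_eq.1 h4.symm
      have h6 : y - y' ∈ V F U (d₁ + 1 + n) := sub_mem hy (V_mono (by omega) hy')
      have h7 : F (y - y') ∈ S := hSF (Submodule.mem_map_of_mem h5)
      have h8 : x + F y' ∈ S := by
        have : x + F y' = (x + F y) - F (y - y') := by rw [map_sub]; abel
        rw [this]
        exact sub_mem hzS h7
      have h9 : x + F y' ∈ V F U (d₁ + 1 + n) :=
        add_mem hx (V_mono (by omega) (map_V_le (d₁ + n) (Submodule.mem_map_of_mem hy')))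
      have h10 : x + F y = (x + F y') + F (y - y') := by rw [map_sub]; abel
      rw [h10]
      exact add_mem (ih ⟨h8, h9⟩) (map_RS_le (Submodule.mem_map_of_mem (ih ⟨h5, h6⟩)))
  intro z hz
  obtain ⟨b, hb⟩ := mem_RS.1 (hSU hz)
  exact key b ⟨hz, V_mono (by omega) hb⟩

/-- An element outside a saturated `S` generates a free module modulo `S`. -/
theorem free_of_not_mem (hSF : S.map F ≤ S) (hsat : Sat F S = S) {z : G} (hz : z ∉ S) (c : ℕ) :
    V F (Submodule.span k {z}) c ⊓ S = ⊥ ∧ c ≤ finrank k (V F (Submodule.span k {z}) c) := by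
  have hTF := tf_quot hSF hsat
  have hF := inj_of_tf hTF
  set z' : G ⧸ S := S.mkQ z with hz'
  have hz0 : z' ≠ 0 := fun h => hz (mkQ_eq_zero.1 h)
  set L : Submodule k (G ⧸ S) := Submodule.span k {z'} with hL
  have hLfg : L.FG := Submodule.fg_span_singleton _
  have hmap : (Submodule.span k {z}).map S.mkQ = L := by
    rw [Submodule.map_span, Set.image_singleton]
  have hLX : L ⊓ (RS (Fq hSF) L).map (Fq hSF) = ⊥ := by
    by_contra hne
    obtain ⟨x, ⟨hxL, hx⟩, hx0⟩ := Submodule.exists_mem_ne_zero_of_ne_bot hne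
    obtain ⟨a, rfl⟩ := Submodule.mem_span_singleton.1 hxL
    have ha : a ≠ 0 := by
      rintro rfl
      exact hx0 (zero_smul _ _)
    have h1 : z' ∈ (RS (Fq hSF) L).map (Fq hSF) := by
      have := Submodule.smul_mem _ a⁻¹ hx
      rwa [smul_smul, inv_mul_cancel₀ ha, one_smul] at this
    have h2 : RS (Fq hSF) L ≤ (RS (Fq hSF) L).map (Fq hSF) := by
      refine RS_le ?_ (Submodule.map_mono map_RS_le)
      rw [hL, Submodule.span_le]
      rintro _ rfl
      exact h1
    have h3 : ∀ n, ∃ y ∈ RS (Fq hSF) L, (Fq hSF)^[n] y = z' := by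
      intro n
      induction n with
      | zero => exact ⟨z', le_RS (Submodule.mem_span_singleton_self _), rfl⟩
      | succ n ih =>
        obtain ⟨y, hy, hyz⟩ := ih
        obtain ⟨w, hw, rfl⟩ := h2 hy
        exact ⟨w, hw, by rw [Function.iterate_succ_apply]; exact hyz⟩
    choose y hy hyz using h3
    exact hz0 (eq_zero_of_div hTF hLfg y hy hyz)
  have h1 : c ≤ finrank k (V (Fq hSF) L c) := by
    have h2 := le_finrank_V hF hLfg le_rfl hLX c
    rw [hL, finrank_span_singleton hz0, mul_one] at h2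
    exact h2
  have h2 : V (Fq hSF) L c = (V F (Submodule.span k {z}) c).map S.mkQ := by
    rw [← hmap, V_mk]
  set W := V F (Submodule.span k {z}) c with hW
  have hWfg : W.FG := V_fg (Submodule.fg_span_singleton _) c
  have hWfin : FiniteDimensional k W := Module.Finite.iff_fg.2 hWfg
  have h3 := LinearMap.finrank_range_add_finrank_ker (S.mkQ.domRestrict W)
  rw [LinearMap.range_domRestrict, ← h2] at h3
  -- the dimension of `W` is at most `c`
  have h4 : finrank k W ≤ c := by
    have key : ∀ n, finrank k (V F (Submodule.span k {z}) n) ≤ n := by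
      intro n
      induction n with
      | zero => rw [V_zero, finrank_bot]
      | succ n ih =>
        have a1 : FiniteDimensional k ((V F (Submodule.span k {z}) n).map F) :=
          Module.Finite.iff_fg.2 ((V_fg (Submodule.fg_span_singleton _) n).map F)
        have a2 : FiniteDimensional k (V F (Submodule.span k {z}) n) :=
          Module.Finite.iff_fg.2 (V_fg (Submodule.fg_span_singleton _) n)
        have a3 := Submodule.finrank_add_le_finrank_add_finrank (Submodule.span k {z})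
          ((V F (Submodule.span k {z}) n).map F)
        have a4 : finrank k ((V F (Submodule.span k {z}) n).map F) ≤
            finrank k (V F (Submodule.span k {z}) n) := finrank_map_le _
        have a5 : finrank k (Submodule.span k {z}) ≤ 1 := finrank_span_singleton_le z
        rw [V_succ]
        omega
    exact key c
  have h5 : finrank k (LinearMap.ker (S.mkQ.domRestrict W)) = 0 := by omega
  refine ⟨?_, by omega⟩
  refine (Submodule.eq_bot_iff _).2 fun x hx => ?_
  have h6 : LinearMap.ker (S.mkQ.domRestrict W) = ⊥ := Submodule.finrank_eq_zero.1 h5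
  have h7 : (⟨x, hx.1⟩ : W) ∈ LinearMap.ker (S.mkQ.domRestrict W) := mkQ_eq_zero.2 hx.2
  rw [h6] at h7
  exact congrArg Subtype.val h7

variable (O) in
/-- The next term of the flag: the saturation of the module generated by `A S`. -/
def nxt (S : Submodule k G) : Submodule k G := Sat F (RS F (act O S))

theorem map_nxt_le : (nxt O S).map F ≤ nxt O S := map_Sat_le

theorem Sat_nxt : Sat F (nxt O S) = nxt O S := Sat_Sat

theorem act_le_nxt : act O S ≤ nxt O S := le_RS.trans (le_Sat map_RS_le)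

theorem nxt_le (hS : S.map F ≤ S) (hsat : Sat F S = S) (hst : act O S ≤ S) : nxt O S ≤ S := by
  have h1 : nxt O S ≤ Sat F S := Sat_mono (RS_le hst hS)
  rwa [hsat] at h1

theorem nxt_stable (hS : S.map F ≤ S) (hsat : Sat F S = S) (hst : act O S ≤ S) :
    act O (nxt O S) ≤ nxt O S :=
  (act_mono (nxt_le hS hsat hst)).trans act_le_nxt

/-- The terms of the flag are `F`-stable, saturated, `A`-stable and decreasing. -/
theorem nxt_it (hS : S.map F ≤ S) (hsat : Sat F S = S) (hst : act O S ≤ S) (n : ℕ) :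
    ((nxt O)^[n] S).map F ≤ (nxt O)^[n] S ∧ Sat F ((nxt O)^[n] S) = (nxt O)^[n] S ∧
      act O ((nxt O)^[n] S) ≤ (nxt O)^[n] S ∧ (nxt O)^[n] S ≤ S := by
  induction n with
  | zero => exact ⟨hS, hsat, hst, le_rfl⟩
  | succ n ih =>
    obtain ⟨h1, h2, h3, h4⟩ := ih
    rw [Function.iterate_succ_apply']
    exact ⟨map_nxt_le, Sat_nxt, nxt_stable h1 h2 h3, (nxt_le h1 h2 h3).trans h4⟩

/-- A strictly decreasing chain of saturated submodules of `RS F U` has length at most the
dimension of `U`. -/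
theorem chain_le (hTF : Sat F (⊥ : Submodule k G) = ⊥) (hU : U.FG) (X : ℕ → Submodule k G) (n : ℕ)
    (hXF : ∀ i, (X i).map F ≤ X i) (hXsat : ∀ i, Sat F (X i) = X i) (hX0 : X 0 ≤ RS F U)
    (hlt : ∀ i, i < n → X (i + 1) < X i) : n ≤ finrank k U := by
  have hF := inj_of_tf hTF
  have h1 : ∀ i, i < n → ∃ z ∈ X i, z ∉ X (i + 1) := fun i hi =>
    SetLike.exists_of_lt (hlt i hi)
  choose! z hz hz' using h1
  have key : ∀ j, j ≤ n → ∃ Z : Submodule k G, Z.FG ∧ Z ≤ X (n - j) ∧
      ∀ c, j * c ≤ finrank k (V F Z c) := by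
    intro j
    induction j with
    | zero => exact fun _ => ⟨⊥, Submodule.fg_bot, bot_le, fun c => by simp⟩
    | succ j ih =>
      intro hj
      obtain ⟨Z, hZ, hZX, hZc⟩ := ih (by omega)
      have hi : n - (j + 1) < n := by omega
      have hi' : n - (j + 1) + 1 = n - j := by omega
      have a1 := hz _ hi
      have a2 := hz' _ hi
      rw [hi'] at a2
      refine ⟨Z ⊔ Submodule.span k {z (n - (j + 1))}, hZ.sup (Submodule.fg_span_singleton _),
        sup_le ?_ ?_, fun c => ?_⟩
      · refine hZX.trans ?_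
        rw [← hi']
        exact (hlt _ hi).le
      · rw [Submodule.span_le]
        rintro _ rfl
        exact a1
      · obtain ⟨a3, a4⟩ := free_of_not_mem (hXF (n - j)) (hXsat (n - j)) a2 c
        have b1 : FiniteDimensional k (V F Z c) := Module.Finite.iff_fg.2 (V_fg hZ c)
        have b2 : FiniteDimensional k (V F (Submodule.span k {z (n - (j + 1))}) c) :=
          Module.Finite.iff_fg.2 (V_fg (Submodule.fg_span_singleton _) c)
        have b3 := Submodule.finrank_sup_add_finrank_inf_eq (V F Z c)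
          (V F (Submodule.span k {z (n - (j + 1))}) c)
        have b4 : V F Z c ⊓ V F (Submodule.span k {z (n - (j + 1))}) c = ⊥ := by
          refine le_bot_iff.1 ?_
          rw [← a3, inf_comm]
          exact inf_le_inf_left _ ((V_le_RS c).trans (RS_le hZX (hXF _)))
        rw [b4, finrank_bot] at b3
        rw [V_sup, Nat.add_mul]
        have := hZc c
        omega
  obtain ⟨Z, hZ, hZX, hZc⟩ := key n le_rfl
  rw [Nat.sub_self] at hZX
  obtain ⟨e, he⟩ := exists_le_V hZ (hZX.trans hX0)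
  have h2 : ∀ c, n * (c + 1) ≤ (e + c) * finrank k U := by
    intro c
    have b1 : FiniteDimensional k (V F U (e + c)) := Module.Finite.iff_fg.2 (V_fg hU _)
    have b2 := Submodule.finrank_mono ((V_mono_left he (c + 1)).trans (V_V e c))
    exact (hZc _).trans (b2.trans (finrank_V_le hF hU _))
  by_contra hn
  push Not at hn
  have h3 := h2 (e * finrank k U)
  have h4 : (finrank k U + 1) * (e * finrank k U + 1) ≤ n * (e * finrank k U + 1) :=
    Nat.mul_le_mul_right _ hn
  have h5 : (finrank k U + 1) * (e * finrank k U + 1) =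
      (e + e * finrank k U) * finrank k U + finrank k U + 1 := by ring
  omega

/-- If there is no strictly dominated subspace then every step of the flag is strict. -/
theorem nxt_lt (hTF : Sat F (⊥ : Submodule k G) = ⊥) {U₀ : Submodule k G} (hU₀ : U₀.FG)
    (hst : act O U₀ ≤ U₀) {r : ℕ} (hr : (act O)^[r] U₀ = ⊥)
    (hno : ∀ Y : Submodule k G, Y ≤ RS F U₀ → Y.FG → ∀ b : ℕ, 1 ≤ b →
      (∀ y ∈ Y, F^[b] y ∈ V F (Y ⊔ act O Y) b) → Y = ⊥)
    (hSF : S.map F ≤ S) (hSsat : Sat F S = S) (hSst : act O S ≤ S) (hSX : S ≤ RS F U₀)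
    (hne : S ≠ ⊥) : nxt O S < S := by
  refine lt_of_le_of_ne (nxt_le hSF hSsat hSst) fun heq => ?_
  obtain ⟨d, hd⟩ := exists_gen hSF hSsat hU₀ hSX
  set U' := S ⊓ V F U₀ d with hU'
  have h1 : U' ≠ ⊥ := by
    intro h
    apply hne
    rw [hd, h, RS]
    simp [V_bot]
  have h2 : act O U' ≤ U' :=
    le_inf ((act_mono inf_le_left).trans hSst)
      ((act_mono inf_le_right).trans ((act_V_le d).trans (V_mono_left hst d)))
  have h3 : (act O)^[r] U' = ⊥ := by
    refine le_bot_iff.1 ((act_it_mono r inf_le_right).trans ((act_it_V_le r d).trans ?_))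
    rw [hr, V_bot]
  obtain ⟨Y, hY, hYfg, hYne, b, hb, hYb⟩ := exists_sd hTF ((V_fg hU₀ d).of_le inf_le_right) h1 h2 h3
    (by rw [← hd]; exact hSsat) (by
      rw [← hd]
      change S ≤ nxt O S
      rw [heq])
  rw [← hd] at hY
  exact hYne (hno Y (hY.trans hSX) hYfg b hb hYb)

/-- **The flag.** `X = k{F} U₀` finitely generated, torsion free and saturated, `A` nilpotent on the
finite dimensional `A`-stable space `U₀`. If there is no nonzero strictly dominated subspace then
the flag `X, nxt X, nxt (nxt X), …` reaches `0` after at most `dim U₀` steps. -/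
theorem flag (hTF : Sat F (⊥ : Submodule k G) = ⊥) {U₀ : Submodule k G} (hU₀ : U₀.FG)
    (hst : act O U₀ ≤ U₀) {r : ℕ} (hr : (act O)^[r] U₀ = ⊥)
    (hsat : Sat F (RS F U₀) = RS F U₀)
    (hno : ∀ Y : Submodule k G, Y ≤ RS F U₀ → Y.FG → ∀ b : ℕ, 1 ≤ b →
      (∀ y ∈ Y, F^[b] y ∈ V F (Y ⊔ act O Y) b) → Y = ⊥) :
    (nxt O)^[finrank k U₀] (RS F U₀) = ⊥ := by
  have hXst : act O (RS F U₀) ≤ RS F U₀ := act_RS_le.trans (RS_mono hst)
  have hit := nxt_it (S := RS F U₀) map_RS_le hsat hXst
  by_contra hne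
  -- then all the terms up to this one are nonzero
  have h1 : ∀ i, i ≤ finrank k U₀ → (nxt O)^[i] (RS F U₀) ≠ ⊥ := by
    intro i hi h
    apply hne
    obtain ⟨n, hn⟩ := Nat.exists_eq_add_of_le hi
    rw [hn, Nat.add_comm, Function.iterate_add_apply, h]
    clear hn
    induction n with
    | zero => rfl
    | succ n ih =>
      rw [Function.iterate_succ_apply', ih, nxt, act_bot]
      have : RS F (⊥ : Submodule k G) = ⊥ := by rw [RS]; simp [V_bot]
      rw [this, hTF]
  have h2 := chain_le hTF hU₀ (fun i => (nxt O)^[i] (RS F U₀)) (finrank k U₀ + 1)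
    (fun i => (hit i).1) (fun i => (hit i).2.1) le_rfl (fun i hi => by
      change (nxt O)^[i + 1] (RS F U₀) < (nxt O)^[i] (RS F U₀)
      rw [Function.iterate_succ_apply']
      exact nxt_lt hTF hU₀ hst hr hno (hit i).1 (hit i).2.1 (hit i).2.2.1 (hit i).2.2.2
        (h1 i (by omega)))
  omega

/-- **Conversely**, a flag excludes strictly dominated subspaces. -/
theorem eq_bot_of_flag (X : ℕ → Submodule k G) (n : ℕ)
    (hXsat : ∀ i, Sat F (X i) = X i) (hact : ∀ i, act O (X i) ≤ X (i + 1)) (hn : X n = ⊥)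
    {Y : Submodule k G} (hY : Y ≤ X 0) (hYfg : Y.FG) {b : ℕ} (hb : 1 ≤ b)
    (hYb : ∀ y ∈ Y, F^[b] y ∈ V F (Y ⊔ act O Y) b) : Y = ⊥ := by
  have key : ∀ i, Y ≤ X i := by
    intro i
    induction i with
    | zero => exact hY
    | succ i ih =>
      have hXF : (X (i + 1)).map F ≤ X (i + 1) := by
        have := map_Sat_le (F := F) (S := X (i + 1))
        rwa [hXsat] at this
      have h1 : act O Y ≤ X (i + 1) := (act_mono ih).trans (hact i)
      have h2 : ∀ c, ∀ x ∈ V F Y (c + 1), ∃ y ∈ Y, x - F^[c] y ∈ V F Y c := by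
        intro c
        induction c with
        | zero =>
          intro x hx
          refine ⟨x, ?_, by simp⟩
          simpa [V_succ] using hx
        | succ c ihc =>
          intro x hx
          obtain ⟨u, hu, _, ⟨w, hw, rfl⟩, rfl⟩ := Submodule.mem_sup.1 hx
          obtain ⟨a, ha, h6⟩ := ihc w hw
          refine ⟨a, ha, ?_⟩
          have h7 : u + F w - F^[c + 1] a = u + F (w - F^[c] a) := by
            rw [map_sub, Function.iterate_succ_apply', add_sub_assoc]
          rw [h7]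
          exact add_mem (le_V c hu) (map_V_le c (Submodule.mem_map_of_mem h6))
      have h3 : (V F Y b).map F ≤ V F Y b ⊔ Sat F (X (i + 1)) := by
        rw [hXsat]
        intro x hx
        obtain ⟨y, hy, h4⟩ := h2 b x (map_V_le b hx)
        have h5 : x = (x - F^[b] y) + F^[b] y := by abel
        rw [h5]
        refine add_mem (Submodule.mem_sup_left h4) ?_
        have h6 := hYb y hy
        rw [V_sup] at h6
        exact mono_r ((V_le_RS b).trans (RS_le h1 hXF)) h6
      have h4 := le_Sat_of_map_le (V_fg hYfg b) h3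
      rw [hXsat] at h4
      obtain ⟨c, rfl⟩ := Nat.exists_eq_add_of_le' hb
      exact (le_V c).trans h4
  rw [← le_bot_iff, ← hn]
  exact key n

end Pool.Agent.TWC
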