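import Pool.Agent.Lib.TWC.Poly

/-!
# TANK W, dimension 4: the slack lemma (helper40), finite level

`t` of positive value (`t = x ^ (1 / p ^ M)`), `Φ f = ∑ μ_l (D^[l] f)(t)`, `f` a polynomial over `k`,
of norm `≤ 0`, with `Φ (f y) = y Φ f` approximately. If `y` has an exponent with a new denominator,
no `μ_l` has critical value.
-/

set_option autoImplicit false

open Polynomial

namespace Pool.Agent.TWC

open Pool.Agent.H15JM (RVal)
open Pool.Agent.LU1 (VPos adj)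
open Pool.Agent.D2 (Ctx0)
open Pool.Agent.TWM

universe u

section Lucas

variable {p : ℕ} [Fact p.Prime]

/-- `binom(i, p^s + e)`, `p^(s+1) ∣ e`, vanishes if the digit `s` of `i` does. -/
theorem dvd_choose_digit {s i e : ℕ} (he : p ^ (s + 1) ∣ e) (hi : p ∣ i / p ^ s) :
    p ∣ i.choose (p ^ s + e) := by
  have hp : p.Prime := Fact.out
  have hpos := pow_pos hp.pos s
  have h1 := Choose.choose_modEq_choose_mul_prod_range_choose (n := i) (k := p ^ s + e) (p := p)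
    (s + 1)
  obtain ⟨e', rfl⟩ := he
  have h2 : (i / p ^ s % p).choose ((p ^ s + p ^ (s + 1) * e') / p ^ s % p) = 0 := by
    have h3 : (p ^ s + p ^ (s + 1) * e') / p ^ s = 1 + p * e' := by
      rw [pow_succ, mul_assoc, show p ^ s + p ^ s * (p * e') = p ^ s * (1 + p * e') by ring,
        Nat.mul_div_cancel_left _ hpos]
    rw [h3, Nat.add_mul_mod_self_left, Nat.mod_eq_of_lt hp.one_lt, Nat.choose_one_right,
      Nat.mod_eq_zero_of_dvd hi]
  rw [Finset.prod_eq_zero (Finset.mem_range.2 (Nat.lt_succ_self s)) h2, Nat.cast_zero,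
    mul_zero] at h1
  have h4 := (Int.modEq_zero_iff_dvd).1 h1
  exact_mod_cast h4

end Lucas

section Slack

variable {k Ω : Type u} [Field k] [Field Ω] [Algebra k Ω] {v : RVal Ω}

/-- The differential operator `∑ μ_l D^[l]` at `t`. -/
noncomputable def dop (t : Ω) (μ : ℕ → Ω) (L : ℕ) (f : Polynomial Ω) : Ω :=
  ∑ l ∈ Finset.range (L + 1), μ l * (hasseDeriv l f).eval t

theorem hasse_X_pow_eval (t : Ω) (h n : ℕ) :
    (hasseDeriv h (X ^ n : Polynomial Ω)).eval t = (n.choose h : Ω) * t ^ (n - h) := by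
  rw [← monomial_one_right_eq_X_pow, hasseDeriv_monomial, eval_monomial, mul_one]

/-- The double sum of the Leibniz formula. -/
theorem sum_leibniz (L : ℕ) (μ F G : ℕ → Ω) (hL : ∀ l, L < l → μ l = 0) :
    ∑ l ∈ Finset.range (L + 1), μ l * ∑ x ∈ Finset.HasAntidiagonal.antidiagonal l, F x.1 * G x.2 =
      ∑ h ∈ Finset.range (L + 1), F h * ∑ g ∈ Finset.range (L + 1), μ (h + g) * G g := by
  have h1 : ∀ l, μ l * ∑ x ∈ Finset.HasAntidiagonal.antidiagonal l, F x.1 * G x.2 =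
      ∑ h ∈ Finset.range (l + 1), μ l * (F h * G (l - h)) := fun l => by
    rw [Finset.Nat.sum_antidiagonal_eq_sum_range_succ (fun a b => F a * G b), Finset.mul_sum]
  simp only [h1]
  rw [Finset.sum_comm' (t' := Finset.range (L + 1)) (s' := fun h => Finset.Ico h (L + 1)) (by
    intro l h
    simp only [Finset.mem_range, Finset.mem_Ico]
    omega)]
  refine Finset.sum_congr rfl fun h hh => ?_
  rw [Finset.sum_Ico_eq_sum_range, Finset.mul_sum]
  have h2 : Finset.range (L + 1 - h) ⊆ Finset.range (L + 1) := Finset.range_mono (by omega)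
  rw [← Finset.sum_subset h2 (f := fun g => F h * (μ (h + g) * G g)) fun g _ hg => by
    rw [hL (h + g) (by rw [Finset.mem_range] at hg hh; omega), zero_mul, mul_zero]]
  refine Finset.sum_congr rfl fun g _ => ?_
  rw [Nat.add_sub_cancel_left]
  ring

/-- The commutator of the operator with a polynomial. -/
theorem dop_comm (t : Ω) (μ : ℕ → Ω) (L : ℕ) (hL : ∀ l, L < l → μ l = 0) (a f : Polynomial Ω) :
    dop t μ L (f * a) - a.eval t * dop t μ L f =
      ∑ h ∈ Finset.range (L + 1), (hasseDeriv h f).eval t *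
        ∑ g ∈ Finset.range L, μ (h + (g + 1)) * (hasseDeriv (g + 1) a).eval t := by
  have h1 : dop t μ L (f * a) = ∑ h ∈ Finset.range (L + 1), (hasseDeriv h f).eval t *
      ∑ g ∈ Finset.range (L + 1), μ (h + g) * (hasseDeriv g a).eval t := by
    rw [← sum_leibniz L μ (fun h => (hasseDeriv h f).eval t) (fun g => (hasseDeriv g a).eval t) hL]
    refine Finset.sum_congr rfl fun l _ => ?_
    rw [hasseDeriv_mul, eval_finsetSum]
    simp only [eval_mul]
  rw [h1, dop, Finset.mul_sum, ← Finset.sum_sub_distrib]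
  refine Finset.sum_congr rfl fun h _ => ?_
  rw [Finset.sum_range_succ', hasseDeriv_zero', add_zero]
  ring

/-- The norm of an operator on the monomials bounds its coefficients. -/
theorem coeff_ge_of_norm {t : Ω} (L : ℕ) (ν : ℕ → Ω)
    {B : ℝ} (H : ∀ n : ℕ, v.Ge (B + n * v t)
      (∑ h ∈ Finset.range (L + 1), (hasseDeriv h (X ^ n : Polynomial Ω)).eval t * ν h)) :
    ∀ n ≤ L, v.Ge (B + n * v t) (ν n) := by
  intro n
  induction n using Nat.strong_induction_on with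
  | _ n ih =>
    intro hn
    have h1 := H n
    rw [← Finset.sum_erase_add _ _ (Finset.mem_range.2 (Nat.lt_succ_of_le hn)),
      hasse_X_pow_eval, Nat.choose_self, Nat.sub_self, pow_zero, Nat.cast_one, one_mul,
      one_mul] at h1
    have h2 : v.Ge (B + n * v t) (∑ h ∈ (Finset.range (L + 1)).erase n,
        (hasseDeriv h (X ^ n : Polynomial Ω)).eval t * ν h) := by
      refine RVal.Ge.sum _ _ fun h hh => ?_
      obtain ⟨h3, h4⟩ := Finset.mem_erase.1 hh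
      rw [hasse_X_pow_eval]
      rcases lt_or_gt_of_ne h3 with h5 | h5
      · have h6 := ih h h5 (by omega)
        have h7 := ((ge_natCast v (n.choose h)).mul (ge_pow (RVal.ge_self (v := v) t) (n - h))).mul h6
        refine h7.mono ?_
        rw [Nat.cast_sub h5.le]
        linarith
      · rw [Nat.choose_eq_zero_of_lt h5, Nat.cast_zero, zero_mul, zero_mul]
        exact RVal.Ge.zero
    have h3 := h1.sub h2
    rwa [add_sub_cancel_left] at h3

/-- The value of a polynomial over `k` at `t`, Hasse derivative of order `p^s + e`. -/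
theorem hasse_eval_ge (hk : Ctx0 k v) (p : ℕ) [Fact p.Prime] [CharP Ω p] {t : Ω}
    (ht : 0 < v t) {a : Polynomial Ω} (ha : ∀ i, a.coeff i ∈ (algebraMap k Ω).range) {s i₀ : ℕ}
    (hmin : ∀ i < i₀, a.coeff i ≠ 0 → p ^ (s + 1) ∣ i) {e : ℕ} (he : p ^ (s + 1) ∣ e) :
    v.Ge ((i₀ : ℝ) * v t - ((p ^ s + e : ℕ) : ℝ) * v t) ((hasseDeriv (p ^ s + e) a).eval t) := by
  have hp : p.Prime := Fact.out
  rw [hasseDeriv_apply, eval_sum, Polynomial.sum_def]
  refine RVal.Ge.sum _ _ fun i hi => ?_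
  have hi0 : a.coeff i ≠ 0 := mem_support_iff.1 hi
  rw [eval_monomial]
  by_cases hlt : i < i₀
  · have h1 : ((i.choose (p ^ s + e) : ℕ) : Ω) = 0 := by
      rw [CharP.cast_eq_zero_iff Ω p]
      refine dvd_choose_digit he ?_
      obtain ⟨q, rfl⟩ := hmin i hlt hi0
      rw [pow_succ, mul_assoc, Nat.mul_div_cancel_left _ (pow_pos hp.pos s)]
      exact dvd_mul_right _ _
    rw [h1, zero_mul, zero_mul]
    exact RVal.Ge.zero
  · by_cases hle : p ^ s + e ≤ i
    · obtain ⟨c, hc⟩ := ha i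
      have h1 := ((ge_natCast v (i.choose (p ^ s + e))).mul (hk.ge c)).mul
        (ge_pow (RVal.ge_self (v := v) t) (i - (p ^ s + e)))
      rw [hc] at h1
      refine h1.mono ?_
      rw [Nat.cast_sub hle]
      have h2 : (i₀ : ℝ) ≤ i := by exact_mod_cast not_lt.1 hlt
      nlinarith
    · rw [Nat.choose_eq_zero_of_lt (not_le.1 hle), Nat.cast_zero, zero_mul, zero_mul]
      exact RVal.Ge.zero

/-- The exact value at the first new exponent. -/
theorem hasse_eval_val (hk : Ctx0 k v) (p : ℕ) [Fact p.Prime] [CharP Ω p] {t : Ω} (ht0 : t ≠ 0)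
    (ht : 0 < v t) {a : Polynomial Ω} (ha : ∀ i, a.coeff i ∈ (algebraMap k Ω).range) {s i₀ : ℕ}
    (hmin : ∀ i < i₀, a.coeff i ≠ 0 → p ^ (s + 1) ∣ i) (h0 : a.coeff i₀ ≠ 0) (hs : p ^ s ∣ i₀)
    (hs' : ¬ p ^ (s + 1) ∣ i₀) :
    (hasseDeriv (p ^ s) a).eval t ≠ 0 ∧
      v ((hasseDeriv (p ^ s) a).eval t) = (i₀ : ℝ) * v t - ((p ^ s : ℕ) : ℝ) * v t := by
  have hp : p.Prime := Fact.out
  have hpos := pow_pos hp.pos s
  have hi₀ : p ^ s ≤ i₀ := Nat.le_of_dvd (Nat.pos_of_ne_zero (by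
    rintro rfl; exact hs' (dvd_zero _))) hs
  obtain ⟨q, hq⟩ := hs
  have hqp : ¬ p ∣ q := by
    rintro ⟨q', rfl⟩
    exact hs' ⟨q', by rw [hq, pow_succ]; ring⟩
  have hun : ¬ p ∣ i₀.choose (p ^ s) := by rw [hq]; exact not_dvd_choose_self hqp
  obtain ⟨h1, h2⟩ := val_natCast (Ω := Ω) (v := v) p hun
  obtain ⟨c, hc⟩ := ha i₀
  have hc0 : c ≠ 0 := by rintro rfl; rw [map_zero] at hc; exact h0 hc.symm
  have hcv : v (a.coeff i₀) = 0 := by rw [← hc]; exact hk.triv c hc0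
  -- the leading term
  have h3 : ((i₀.choose (p ^ s) : ℕ) : Ω) * a.coeff i₀ * t ^ (i₀ - p ^ s) ≠ 0 :=
    mul_ne_zero (mul_ne_zero h1 h0) (pow_ne_zero _ ht0)
  have h4 : v (((i₀.choose (p ^ s) : ℕ) : Ω) * a.coeff i₀ * t ^ (i₀ - p ^ s)) =
      (i₀ : ℝ) * v t - ((p ^ s : ℕ) : ℝ) * v t := by
    rw [v.map_mul (mul_ne_zero h1 h0) (pow_ne_zero _ ht0), v.map_mul h1 h0, h2, hcv,
      v.map_pow ht0, Nat.cast_sub hi₀]
    ring
  have h5 : Gt v ((i₀ : ℝ) * v t - ((p ^ s : ℕ) : ℝ) * v t)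
      (((i₀.choose (p ^ s) : ℕ) : Ω) * a.coeff i₀ * t ^ (i₀ - p ^ s) -
        (hasseDeriv (p ^ s) a).eval t) := by
    rw [hasseDeriv_apply, eval_sum, Polynomial.sum_def]
    simp only [eval_monomial]
    rw [← Finset.add_sum_erase _ _ (mem_support_iff.2 h0), sub_add_cancel_left]
    refine (Gt.sum _ _ fun i hi => ?_).neg
    obtain ⟨h6, h7⟩ := Finset.mem_erase.1 hi
    have hi0 : a.coeff i ≠ 0 := mem_support_iff.1 h7
    rcases lt_or_gt_of_ne h6 with h8 | h8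
    · have h9 : ((i.choose (p ^ s) : ℕ) : Ω) = 0 := by
        rw [CharP.cast_eq_zero_iff Ω p, dvd_choose_pow_iff]
        obtain ⟨q, rfl⟩ := hmin i h8 hi0
        rw [pow_succ, mul_assoc, Nat.mul_div_cancel_left _ hpos]
        exact dvd_mul_right _ _
      rw [h9, zero_mul, zero_mul]
      exact Gt.zero
    · by_cases hle : p ^ s ≤ i
      · obtain ⟨c, hc⟩ := ha i
        have h9 := ((ge_natCast v (i.choose (p ^ s))).mul (hk.ge c)).mul
          (ge_pow (RVal.ge_self (v := v) t) (i - p ^ s))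
        rw [hc] at h9
        refine Gt.of_ge h9 ?_
        rw [Nat.cast_sub hle]
        have h10 : (i₀ : ℝ) < i := by exact_mod_cast h8
        nlinarith
      · rw [Nat.choose_eq_zero_of_lt (not_le.1 hle), Nat.cast_zero, zero_mul, zero_mul]
        exact Gt.zero
  have h6 := Gt.val_eq h3 (by rw [h4]; exact h5)
  exact ⟨h6.1, h6.2.trans h4⟩

/-- SLACK LEMMA, finite level, quantitative form: no coefficient `μ_l` has value
`l v(t) + e`, `e + i₀ v(t) < B`. -/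
theorem slack_core' (hk : Ctx0 k v) (p : ℕ) [Fact p.Prime] [CharP Ω p] {t y : Ω} (ht0 : t ≠ 0)
    (ht : 0 < v t) {e : ℝ} {μ : ℕ → Ω} {L : ℕ} (hL : ∀ l, L < l → μ l = 0)
    (hn : ∀ n : ℕ, v.Ge (n * v t) (dop t μ L (X ^ n)))
    {a : Polynomial Ω} (ha : ∀ i, a.coeff i ∈ (algebraMap k Ω).range) {B : ℝ}
    (hB : v.Ge B (a.eval t - y))
    (hy : ∀ n : ℕ, v.Ge (n * v t + B) (dop t μ L (X ^ n * a) - y * dop t μ L (X ^ n)))
    {r s l₀ : ℕ} (hsr : s < r) (hdiv : ∀ l, μ l ≠ 0 → p ^ r ∣ l) (hl₀ : μ l₀ ≠ 0)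
    (hl₀p : 0 < l₀) (hv : v (μ l₀) = l₀ * v t + e)
    (hmax : ∀ l, l₀ < l → Gt v (l * v t + e) (μ l))
    {i₀ : ℕ} (h0 : a.coeff i₀ ≠ 0) (hs : p ^ s ∣ i₀) (hs' : ¬ p ^ (s + 1) ∣ i₀)
    (hmin : ∀ i < i₀, a.coeff i ≠ 0 → p ^ (s + 1) ∣ i) (hi₀ : i₀ * v t + e < B) : False := by
  have hp : p.Prime := Fact.out
  have hpos := pow_pos hp.pos s
  have hl₀L : l₀ ≤ L := by
    by_contra h1
    exact hl₀ (hL l₀ (not_le.1 h1))
  have hr : p ^ r ≤ l₀ := Nat.le_of_dvd hl₀p (hdiv l₀ hl₀)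
  have hsr' : p ^ (s + 1) ∣ p ^ r := pow_dvd_pow p hsr
  have hsr2 : p ^ s < p ^ r := Nat.pow_lt_pow_right hp.one_lt hsr
  set ν : ℕ → Ω := fun h =>
    ∑ g ∈ Finset.range L, μ (h + (g + 1)) * (hasseDeriv (g + 1) a).eval t with hν
  -- the coefficients of the commutator
  have h1 := coeff_ge_of_norm (v := v) (t := t) L ν (B := B) (fun n => by
      have h2 := dop_comm t μ L hL a (X ^ n)
      rw [← h2]
      have h3 : dop t μ L (X ^ n * a) - a.eval t * dop t μ L (X ^ n) =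
          (dop t μ L (X ^ n * a) - y * dop t μ L (X ^ n)) -
            (a.eval t - y) * dop t μ L (X ^ n) := by ring
      rw [h3]
      refine RVal.Ge.sub ((hy n).mono (by linarith)) ?_
      exact (hB.mul (hn n)).mono (by linarith))
  set h₀ := l₀ - p ^ s with hh₀
  have hh₀L : h₀ ≤ L := by omega
  have h2 := h1 h₀ hh₀L
  -- the critical term
  have hgs : p ^ s - 1 ∈ Finset.range L := Finset.mem_range.2 (by omega)
  have hgs' : p ^ s - 1 + 1 = p ^ s := by omega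
  obtain ⟨h3, h4⟩ := hasse_eval_val hk p ht0 ht ha hmin h0 hs hs'
  have h5 : v (μ l₀ * (hasseDeriv (p ^ s) a).eval t) = (h₀ + i₀ : ℝ) * v t + e := by
    rw [v.map_mul hl₀ h3, hv, h4, hh₀, Nat.cast_sub (by omega)]
    ring
  have h6 : Gt v ((h₀ + i₀ : ℝ) * v t + e) (μ l₀ * (hasseDeriv (p ^ s) a).eval t) := by
    have h7 : μ l₀ * (hasseDeriv (p ^ s) a).eval t = ν h₀ -
        ∑ g ∈ (Finset.range L).erase (p ^ s - 1),
          μ (h₀ + (g + 1)) * (hasseDeriv (g + 1) a).eval t := by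
      show _ = (∑ g ∈ Finset.range L, μ (h₀ + (g + 1)) * (hasseDeriv (g + 1) a).eval t) - _
      rw [← Finset.add_sum_erase _ _ hgs, hgs', show h₀ + p ^ s = l₀ by omega,
        add_sub_cancel_right]
    rw [h7]
    refine Gt.sub (Gt.of_ge h2 (by linarith)) (Gt.sum _ _ fun g hg => ?_)
    obtain ⟨h8, -⟩ := Finset.mem_erase.1 hg
    by_cases h9 : μ (h₀ + (g + 1)) = 0
    · rw [h9, zero_mul]; exact Gt.zero
    have h10 : p ^ r ∣ h₀ + (g + 1) := hdiv _ h9
    -- `g + 1 = p ^ s + e`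
    obtain ⟨q₁, hq₁⟩ := hdiv l₀ hl₀
    obtain ⟨q₂, hq₂⟩ := h10
    have h11 : q₁ < q₂ := by
      by_contra h12
      have h13 : p ^ r * q₂ ≤ p ^ r * q₁ := Nat.mul_le_mul_left _ (not_lt.1 h12)
      rcases eq_or_lt_of_le (not_lt.1 h12) with h14 | h14
      · rw [h14] at hq₂
        omega
      · have h15 : p ^ r * (q₂ + 1) ≤ p ^ r * q₁ := Nat.mul_le_mul_left _ h14
        rw [mul_add, mul_one] at h15
        omega
    obtain ⟨d, rfl⟩ : ∃ d, q₂ = q₁ + (d + 1) := ⟨q₂ - q₁ - 1, by omega⟩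
    rw [mul_add, ← hq₁] at hq₂
    have h12 : g + 1 = p ^ s + p ^ r * (d + 1) := by omega
    have h13 : h₀ + (g + 1) = l₀ + p ^ r * (d + 1) := by omega
    have h14 : l₀ < h₀ + (g + 1) := by
      rw [h13]
      have := Nat.mul_pos (pow_pos hp.pos r) (Nat.succ_pos d)
      omega
    have h15 := hasse_eval_ge hk p ht ha hmin (e := p ^ r * (d + 1))
      (hsr'.trans (dvd_mul_right _ _))
    rw [← h12] at h15
    refine ((hmax _ h14).mul_ge h15).mono ?_
    have h16 : ((h₀ + (g + 1) : ℕ) : ℝ) = h₀ + ((g + 1 : ℕ) : ℝ) := by push_cast; ring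
    rw [h16]
    linarith
  have h7 := h6 (mul_ne_zero hl₀ h3)
  rw [h5] at h7
  exact lt_irrefl _ h7

/-- SLACK LEMMA, finite level. -/
theorem slack_core (hk : Ctx0 k v) (p : ℕ) [Fact p.Prime] [CharP Ω p] {t y : Ω} (ht0 : t ≠ 0)
    (ht : 0 < v t) {μ : ℕ → Ω} {L : ℕ} (hL : ∀ l, L < l → μ l = 0)
    (hn : ∀ n : ℕ, v.Ge (n * v t) (dop t μ L (X ^ n)))
    {a : Polynomial Ω} (ha : ∀ i, a.coeff i ∈ (algebraMap k Ω).range) {B : ℝ}
    (hB : v.Ge B (a.eval t - y))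
    (hy : ∀ n : ℕ, v.Ge (n * v t + B) (dop t μ L (X ^ n * a) - y * dop t μ L (X ^ n)))
    {r s l₀ : ℕ} (hsr : s < r) (hdiv : ∀ l, μ l ≠ 0 → p ^ r ∣ l) (hl₀ : μ l₀ ≠ 0)
    (hl₀p : 0 < l₀) (hv : v (μ l₀) = l₀ * v t) (hmax : ∀ l, l₀ < l → Gt v (l * v t) (μ l))
    {i₀ : ℕ} (h0 : a.coeff i₀ ≠ 0) (hs : p ^ s ∣ i₀) (hs' : ¬ p ^ (s + 1) ∣ i₀)
    (hmin : ∀ i < i₀, a.coeff i ≠ 0 → p ^ (s + 1) ∣ i) (hi₀ : i₀ * v t < B) : False :=
  slack_core' hk p ht0 ht (e := 0) hL hn ha hB hy hsr hdiv hl₀ hl₀p (by rw [hv, add_zero])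
    (fun l hl => by rw [add_zero]; exact hmax l hl) h0 hs hs' hmin (by rwa [add_zero])

end Slack

end Pool.Agent.TWC
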