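import Pool.Agent.Lib.TWC.PairWc

/-!
# TANK W, class I: tight pairs over any base with positive slack, the exit

`W ≤ C = W<w>`, `x 0 ∈ W`, `(x, w)` a tight pair of `C` of levels `(r, s)`, the jets of the
polynomials over `W` at the roots of `x` have norm `≤ F q / p ^ n`, `q < r`.
* `mainAt_slack`: the main row;
* `nbx_map`: transport of the norm of the jets;
* **`hrone_of_slack`**: `HRone` for `K₀(al)`, `clI v K₀` a tower over `C`.
-/

set_option autoImplicit false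

open Polynomial

namespace Pool.Agent.TWC

open Pool.Agent.H15JM (RVal)
open Pool.Agent.LU1 (VPos adj)
open Pool.Agent.D2 (Ctx0)
open Pool.Agent.D2P (hen clI mem_clI mem_adj_self)
open Pool.Agent.TWM
open Pool.Agent.TWS (TowR PM MonG RatV GK VG IsoE HF hv)
open Pool.Agent.TW (Ctx Full BD HRone LU)

universe u

variable {k Ω : Type u} [Field k] [Field Ω] [Algebra k Ω] {v : RVal Ω}
  {p : ℕ} {x w : ℕ → Ω} {r s q : ℝ} {C W : IntermediateField k Ω}

/-- Polynomials over the image of `W`. -/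
theorem exists_poly_map {Ω' : Type u} [Field Ω'] [Algebra k Ω'] (φ : Ω →ₐ[k] Ω')
    {P : Polynomial Ω'} (hP : P ∈ PI (W.map φ)) :
    ∃ Q ∈ PI W, Q.map (φ : Ω →+* Ω') = P := by
  have h1 : ∀ i, ∃ a ∈ W, φ a = P.coeff i := fun i => hP i
  choose a ha h2 using h1
  refine ⟨∑ i ∈ Finset.range (P.natDegree + 1), C (a i) * X ^ i, ?_, ?_⟩
  · refine sum_mem fun i _ n => ?_
    rw [coeff_C_mul, coeff_X_pow]
    split_ifs
    · rw [mul_one]
      exact ha i
    · rw [mul_zero]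
      exact zero_mem _
  · rw [Polynomial.map_sum]
    conv_rhs => rw [P.as_sum_range_C_mul_X_pow]
    refine Finset.sum_congr rfl fun i _ => ?_
    rw [Polynomial.map_mul, Polynomial.map_pow, map_C, map_X]
    congr 2
    exact h2 i

/-- The norm of the jets, transported. -/
theorem nbx_map {Ω' : Type u} [Field Ω'] [Algebra k Ω'] {v' : RVal Ω'} {φ : Ω →ₐ[k] Ω'}
    (hI : IsoE v v' φ) {wt : ℕ → ℕ → ℝ} (h : NBX p v W x wt) :
    NBX p v' (W.map φ) (fun n => φ (x n)) wt where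
  root := fun n => by rw [← map_pow, h.root]
  lift := h.lift
  nb := by
    intro n P hP F hF b hb
    obtain ⟨Q, hQ, rfl⟩ := exists_poly_map φ hP
    have h2 : (Q.map (φ : Ω →+* Ω')).eval (φ (x n)) = φ (Q.eval (x n)) :=
      Polynomial.eval_map_apply (φ : Ω →+* Ω') (x n)
    have h3 : (taylor (φ (x n)) (Q.map (φ : Ω →+* Ω'))).coeff F =
        φ ((taylor (x n) Q).coeff F) := by
      have h4 : taylor (φ (x n)) (Q.map (φ : Ω →+* Ω')) =
          (taylor (x n) Q).map (φ : Ω →+* Ω') := by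
        rw [taylor_apply, taylor_apply, Polynomial.map_comp, Polynomial.map_add, map_X, map_C]
        rfl
      rw [h4, coeff_map]
      rfl
    rw [h3]
    rw [h2] at hb
    exact hI.ge_iff.2 (h.nb n Q hQ F hF b (hI.ge_iff.1 hb))

section Main

variable [hp : Fact p.Prime] [CharP k p] [CharP Ω p] [IsAlgClosed Ω] [IsAlgClosed k]

omit [IsAlgClosed k] [CharP k p] in
/-- The perfect closure of `W` in the direction of `x`. -/
theorem perf_ew (hx : ∀ n, x (n + 1) ^ p = x n)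
    (hW : ∀ a ∈ W, ∃ Q ∈ PI W, (Q.eval (x 1)) ^ p = a) :
    ∀ a ∈ EW v W x, ∃ b ∈ EW v W x, b ^ p = a := by
  refine perf_clI p (perf_sup' (fun a ha => ?_) ?_)
  · obtain ⟨Q, hQ, h2⟩ := hW a ha
    refine ⟨_, ?_, h2⟩
    rw [eval_eq_sum_range]
    refine sum_mem fun i _ => mul_mem ((le_sup_left : W ≤ _) (hQ i)) (pow_mem ?_ i)
    exact (le_sup_right : IntermediateField.adjoin k (Set.range x) ≤ _)
      (IntermediateField.subset_adjoin k _ ⟨1, rfl⟩)
  · rintro _ ⟨n, rfl⟩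
    exact ⟨x (n + 1), (le_sup_right : IntermediateField.adjoin k (Set.range x) ≤ _)
      (IntermediateField.subset_adjoin k _ ⟨n + 1, rfl⟩), hx n⟩

/-- **The main row over any base with positive slack**, all real values. -/
theorem mainAt_slack (h0 : Ctx0 k v) (hc : CompleteV v)
    (hval : ∀ ρ : ℝ, ∃ c : Ω, c ≠ 0 ∧ v c = ρ) {m : ℕ} (hm : m ≤ 2)
    (hv : v (x 0) ≠ 0) (hRat : RatV v C (v (x 0)))
    (hdiv : ∀ g ∈ VG v C, g / p ∈ VG v C) (hC : TP p v C x w r s)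
    (hCe : C = cadj v W (w 0)) (hx0W : x 0 ∈ W)
    (hWp : ∀ a ∈ W, ∃ Q ∈ PI W, (Q.eval (x 1)) ^ p = a)
    (hn : NBX p v W x fun n F => F * q / p ^ n) (hqr : q < r) :
    MainAt p v m C x w r s := by
  intro L₀ L hT hL hle hpow
  have : Fact (Ctx0 k v) := ⟨h0⟩
  have : PerfectRing k p := PerfectField.toPerfectRing p
  exact TP.mainW hc (exists_ms hval) hm hv (perf_pairW hc hC.tgt.root hC.root hCe hWp) hRat hdiv hC
    (nsdAt_slack hc hC hCe hx0W hRat hdiv (perf_ew hC.tgt.root hWp) hn hqr L) hT hL hle hpow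

/-- The data, transported. -/
theorem mainAt_slack_map {H : Type u} [Field H] [Algebra k H] [IsAlgClosed H] [CharP H p]
    {v' : RVal H} (h0' : Ctx0 k v') (hc' : CompleteV v')
    (hval : ∀ ρ : ℝ, ∃ c : H, c ≠ 0 ∧ v' c = ρ) (hcv : CompleteV v) {φ : Ω →ₐ[k] H}
    (hI : IsoE v v' φ) {m : ℕ} (hm : m ≤ 2)
    (hv : v (x 0) ≠ 0) (hRat : RatV v C (v (x 0)))
    (hdiv : ∀ g ∈ VG v C, g / p ∈ VG v C) (hC : TP p v C x w r s)
    (hCe : C = cadj v W (w 0)) (hx0W : x 0 ∈ W)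
    (hWp : ∀ a ∈ W, ∃ Q ∈ PI W, (Q.eval (x 1)) ^ p = a)
    (hn : NBX p v W x fun n F => F * q / p ^ n) (hqr : q < r) :
    MainAt p v' m (C.map φ) (fun n => φ (x n)) (fun n => φ (w n)) r s := by
  have hx0 : x 0 ≠ 0 := ne_zero_of_far hC.tgt.root (hC.tgt.dst 0).far
  have hvx : v' (φ (x 0)) = v (x 0) := hI.val _ hx0
  refine mainAt_slack (W := W.map φ) (q := q) h0' hc' hval hm (by rw [hvx]; exact hv) ?_ ?_
    (tp_map hI hcv hC) ?_ ⟨_, hx0W, rfl⟩ (root_map hWp) (nbx_map hI hn) hqr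
  · rw [hvx]
    exact ratv_map hI hRat
  · rw [vg_map hI]
    exact hdiv
  · rw [hCe, hI.cadj_map hcv]

/-- **The main row over any base with positive slack.** -/
theorem mainAtH_slack (hcv : CompleteV v) {m : ℕ} (hm : m ≤ 2)
    (hv : v (x 0) ≠ 0) (hRat : RatV v C (v (x 0)))
    (hdiv : ∀ g ∈ VG v C, g / p ∈ VG v C) (hC : TP p v C x w r s)
    (hCe : C = cadj v W (w 0)) (hx0W : x 0 ∈ W)
    (hWp : ∀ a ∈ W, ∃ Q ∈ PI W, (Q.eval (x 1)) ^ p = a)
    (hn : NBX p v W x fun n F => F * q / p ^ n) (hqr : q < r) :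
    MainAtH p v m C x w r s := by
  intro φ hI
  have : CharP (HF k) p := charP_of_injective_algebraMap (algebraMap k (HF k)).injective p
  exact mainAt_slack_map (TWS.ctx0_hv k) (TWS.completeV_hv k) (TWS.exists_val k) hcv hI hm hv
    hRat hdiv hC hCe hx0W hWp hn hqr

/-- **`HRone` from a tight pair over any base with positive slack**, `Ω` complete. -/
theorem hrone_of_slack (h : Ctx k v 1) (hcv : CompleteV v) {m : ℕ} (hm1 : 1 ≤ m) (hm : m ≤ 2)
    {K₀ : IntermediateField k Ω} (hK : K₀.FG)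
    (hfull : Full v K₀) (htr : Algebra.trdeg k K₀ = (m + 2 : ℕ)) (hBDK : BD p v K₀) {al : Ω}
    (hal : al ^ p ∈ K₀) (hBD : BD p v (adj K₀ al)) {C₁ : IntermediateField k Ω} (hC₁ : C₁.FG)
    (htr₁ : Algebra.trdeg k C₁ = (2 : ℕ)) (hCcl : C = clI v C₁)
    (hv : v (x 0) ≠ 0) (hvr : v (x 0) < r) (hC : TP p v C x w r s) (hT : TowR v m C (clI v K₀))
    (hCe : C = cadj v W (w 0)) (hx0W : x 0 ∈ W)
    (hWp : ∀ a ∈ W, ∃ Q ∈ PI W, (Q.eval (x 1)) ^ p = a)
    (hn : NBX p v W x fun n F => F * q / p ^ n) (hqr : q < r) :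
    HRone v (adj K₀ al) := by
  have hx0 : x 0 ≠ 0 := ne_zero_of_far hC.tgt.root (hC.tgt.dst 0).far
  refine hrone_of_tpW h hcv hm1 hK hfull htr hBDK hal hBD hC₁ htr₁ hCcl hm hv hvr hC hT ?_
  exact (mainAtH_slack hcv hm hv (ratv_of_ctx h hx0 hv _)
    (pdiv_of_lim h hC.tgt.root hx0 hv hvr hC.lim_x) hC hCe hx0W hWp hn hqr).main h.toCtx0 hcv

/-- **`HRone` from a tight pair over a base `W` in which `x` is tight of smaller level**, `Ω`
complete. -/
theorem hrone_of_tight_slack (h : Ctx k v 1) (hcv : CompleteV v) {m : ℕ} (hm1 : 1 ≤ m)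
    (hm : m ≤ 2) {K₀ : IntermediateField k Ω} (hK : K₀.FG)
    (hfull : Full v K₀) (htr : Algebra.trdeg k K₀ = (m + 2 : ℕ)) (hBDK : BD p v K₀) {al : Ω}
    (hal : al ^ p ∈ K₀) (hBD : BD p v (adj K₀ al)) {C₁ : IntermediateField k Ω} (hC₁ : C₁.FG)
    (htr₁ : Algebra.trdeg k C₁ = (2 : ℕ)) (hCcl : C = clI v C₁)
    (hv : v (x 0) ≠ 0) (hvr : v (x 0) < r) (hC : TP p v C x w r s) (hT : TowR v m C (clI v K₀))
    (hCe : C = cadj v W (w 0)) (hWp : ∀ a ∈ W, ∃ Q ∈ PI W, (Q.eval (x 1)) ^ p = a)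
    (hTW : Tgt p v W x q) (hqr : q < r) : HRone v (adj K₀ al) := by
  have hp0 : (0 : ℝ) < p := by exact_mod_cast hp.out.pos
  exact hrone_of_slack h hcv hm1 hm hK hfull htr hBDK hal hBD hC₁ htr₁ hCcl hv hvr hC hT hCe
    hTW.mem hWp (hTW.snd.nbx' p h.toCtx0 hcv (r := q) (by
      rw [pow_one, mul_div_cancel₀ _ hp0.ne'])) hqr

end Main

end Pool.Agent.TWC
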