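import Pool.Agent.Lib.TWC.PairN
import Pool.Agent.Lib.TWC.SlackX

/-!
# TANK W, class C: `HRone` from a tight element with slack, any base `W`

`x` tight in `C`, of level `r`; `W ≤ C` closed, `x 0 ∈ W`; the distance of `x 1` to `W` is at most
`q / p`, the distance of `x n` to `W` is at least `δ / p ^ n` (in the sense of the values), and
`3 (q - δ) < r - q`. `x` is not assumed tight in `W`.

* `exists_rd_near`: the distances;
* **`exists_pairQ`**: the tight pair;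
* **`hrone_of_near`**: `HRone`.
-/

set_option autoImplicit false
set_option linter.unusedSectionVars false

open Polynomial

namespace Pool.Agent.TWC

open Pool.Agent.H15JM (RVal)
open Pool.Agent.LU1 (adj)
open Pool.Agent.D2 (Ctx0)
open Pool.Agent.D2P (clI mem_clI)
open Pool.Agent.TW (Ctx Full HRone BD)
open Pool.Agent.TWM
open Pool.Agent.TWS (PM MonG RatV GK VG TowR)

universe u

variable {k Ω : Type u} [Field k] [Field Ω] [Algebra k Ω] {v : RVal Ω}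
  {C W : IntermediateField k Ω} {p : ℕ} [hp : Fact p.Prime] [CharP k p] [CharP Ω p]
  [IsAlgClosed k] [IsAlgClosed Ω] {x : ℕ → Ω} {r s q δ : ℝ}

omit [IsAlgClosed k] in
/-- The distances to `W`. -/
theorem exists_rd_near (hc : CompleteV v) (hW : Cld v W) (h0 : x 0 ∈ W)
    (hr : ∀ n, x (n + 1) ^ p = x n) (hq : ¬ Nr' v W (q / p) (x 1))
    (hδ : ∀ n (ε : ℝ), 0 < ε → ∃ c ∈ W, v.Ge (δ / p ^ (n + 1) - ε) (x (n + 1) - c)) :
    ∃ e : ℕ → ℝ, RD p v W x e (fun n => δ / p ^ n) ∧ ∀ n, e (n + 1) ≤ q / p ^ (n + 1) := by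
  have hp0 : (0 : ℝ) < p := by exact_mod_cast hp.out.pos
  have h1 : x 1 ∉ W := fun h => hq ⟨x 1, h, fun h2 => absurd (sub_self _) h2⟩
  obtain ⟨e, hR, hdst, hle, -⟩ := RD.exists_rd hW hc h0 hr h1
  refine ⟨e, ⟨hR.cld, hR.mem, hR.root, hR.far, hR.near, hδ⟩, fun n => (hle n).trans ?_⟩
  refine div_le_div_of_nonneg_right ?_ (pow_pos hp0 _).le
  by_contra h2
  push Not at h2
  have h3 : q / p < e 1 := by
    rw [div_lt_iff₀ hp0]
    linarith
  obtain ⟨c, hc', h4⟩ := (hdst 0).near ((e 1 - q / p) / 2) (by linarith)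
  refine hq ⟨c, D2P.adj_le le_rfl h0 hc', fun h5 => ?_⟩
  have h6 := h4 h5
  rw [zero_add] at h6
  linarith

omit [IsAlgClosed k] in
/-- **The tight pair**, `x` not assumed tight in `W`. -/
theorem exists_pairQ (h0 : Ctx0 k v) (hc : CompleteV v)
    (hT : Tgt p v C x r) (hx : x 0 ≠ 0) (hvr : v (x 0) < r) (hWC : W ≤ C) (hWcl : Cld v W)
    (hx0 : x 0 ∈ W) (hq : ¬ Nr' v W (q / p) (x 1))
    (hδ : ∀ n (ε : ℝ), 0 < ε → ∃ c ∈ W, v.Ge (δ / p ^ (n + 1) - ε) (x (n + 1) - c))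
    (hs : 3 * (q - δ) < r - q)
    (hW : ∀ a ∈ W, ∃ Q ∈ PI W, (Q.eval (x 1)) ^ p = a) {y : Ω} (hy : y ∈ C)
    (hTL : TL v (EW v W x) y s) (hE : EW v C x = cadj v (EW v W x) y) :
    ∃ (u : ℕ → Ω) (A : ℝ), y - u 0 ∈ W ∧ TP p v C x u r s ∧ TL v (EW v W x) (u 0) s ∧
      EW v C x = cadj v (EW v W x) (u 0) ∧ C = cadj v W (u 0) ∧
      (NBX p v W x fun n F => F * A / p ^ n) ∧ A < r := by
  have hp0 : (0 : ℝ) < p := by exact_mod_cast hp.out.pos
  have hp2 : (2 : ℝ) ≤ p := by exact_mod_cast hp.out.two_le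
  obtain ⟨e, hR, he⟩ := exists_rd_near hc hWcl hx0 hT.root hq hδ
  have hqδ : δ ≤ q := by
    have h1 := (hR.e_ge (n := 0)).trans (he 0)
    simp only [zero_add, pow_one] at h1
    rwa [div_le_div_iff_of_pos_right hp0] at h1
  have hN := hR.nbx h0 hc he (fun n => le_rfl) hqδ
  set A := q + (q - δ) / (p - 1) with hA
  have hA1 : A ≤ 2 * q - δ := by
    have h1 : (q - δ) / ((p : ℝ) - 1) ≤ q - δ := div_le_self (by linarith) (by linarith)
    linarith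
  have hAr : A < r := by linarith
  have hs' : r - δ < p * (r - A) := by
    have h1 : 2 * (r - A) ≤ p * (r - A) := mul_le_mul_of_nonneg_right hp2 (by linarith)
    linarith
  obtain ⟨u, h1, h2, h3, h4, h5⟩ := exists_pairN h0 hc hT hx hvr hWC hR
    (fun n => (he n).trans (div_le_div_of_nonneg_right (by linarith) (pow_pos hp0 _).le))
    (fun n => le_rfl) hN hAr.le hs' hW hy hTL hE
  exact ⟨u, A, h1, h2, h3, h4, h5, hN, hAr⟩

/-- **`HRone` from a tight element with slack over any base `W`.** -/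
theorem hrone_of_near (h : Ctx k v 1) (hcv : CompleteV v) {m : ℕ} (hm1 : 1 ≤ m)
    (hm : m ≤ 2) {K₀ : IntermediateField k Ω} (hK : K₀.FG)
    (hfull : Full v K₀) (htr : Algebra.trdeg k K₀ = (m + 2 : ℕ)) (hBDK : BD p v K₀) {al : Ω}
    (hal : al ^ p ∈ K₀) (hBD : BD p v (adj K₀ al)) {C₁ : IntermediateField k Ω} (hC₁ : C₁.FG)
    (htr₁ : Algebra.trdeg k C₁ = (2 : ℕ)) (hCcl : C = clI v C₁)
    (hv : v (x 0) ≠ 0) (hvr : v (x 0) < r) (hTg : Tgt p v C x r) (hT : TowR v m C (clI v K₀))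
    (hWC : W ≤ C) (hWcl : Cld v W)
    (hx0 : x 0 ∈ W) (hq : ¬ Nr' v W (q / p) (x 1))
    (hδ : ∀ n (ε : ℝ), 0 < ε → ∃ c ∈ W, v.Ge (δ / p ^ (n + 1) - ε) (x (n + 1) - c))
    (hs : 3 * (q - δ) < r - q)
    (hW : ∀ a ∈ W, ∃ Q ∈ PI W, (Q.eval (x 1)) ^ p = a) {y : Ω} (hy : y ∈ C)
    (hTL : TL v (EW v W x) y s) (hE : EW v C x = cadj v (EW v W x) y) :
    HRone v (adj K₀ al) := by
  have hx : x 0 ≠ 0 := ne_zero_of_far hTg.root (hTg.dst 0).far
  obtain ⟨u, A, -, h2, -, -, h5, h6, h7⟩ := exists_pairQ h.toCtx0 hcv hTg hx hvr hWC hWcl hx0 hq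
    hδ hs hW hy hTL hE
  exact hrone_of_slack h hcv hm1 hm hK hfull htr hBDK hal hBD hC₁ htr₁ hCcl hv hvr h2 hT h5
    hx0 hW h6 h7

end Pool.Agent.TWC
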