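import Pool.Agent.Lib.TWC.TPa

/-!
# TANK W, class C: tight pairs of any level, distances

* `IsoL.spec`: the specialisation of the roots at near points of `P`: for `f` over `L`, `ev (u n) f`
  minus its specialisation is a sum of products `ev (u n) (hd F f) * ∏ (η - u n) ^ F`, with values;
* `IsoL.dist`: the distances of the elements of `L` to `N(u n l)` and to `N`, `P ≤ N ≤ L`.
-/

set_option autoImplicit false
set_option linter.unusedSectionVars false

open Polynomial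

namespace Pool.Agent.TWC

open Pool.Agent.H15JM (RVal)
open Pool.Agent.LU1 (VPos adj)
open Pool.Agent.D2 (Ctx0)
open Pool.Agent.D2P (clI mem_clI)
open Pool.Agent.TWM
open Pool.Agent.TWC.Key (hd ev sp)

universe u

variable {k Ω : Type u} [Field k] [Field Ω] [Algebra k Ω] {v : RVal Ω}
  {B L P N C E : IntermediateField k Ω} {m : ℕ} {u : ℕ → Fin m → Ω} {ρ : Fin m → ℝ} {p : ℕ}

/-- A product of `t l ^ F l`, `F l ≤ q`, `t l` of value `≥ c l - γ`. -/
theorem ge_prod_powL {t : Fin m → Ω} {γ : ℝ} (hγ : 0 ≤ γ) {c : Fin m → ℝ}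
    (ht : ∀ l, v.Ge (c l - γ) (t l)) {q : ℕ} {F : Fin m → ℕ} (hF : ∀ l, F l < q) :
    v.Ge (∑ l, F l * c l - m * q * γ) (∏ l, t l ^ F l) := by
  have h1 := RVal.Ge.prod (v := v) (fun l : Fin m => F l * c l - q * γ) Finset.univ
    (fun l => t l ^ F l)
    fun l _ => by
      refine (Key.ge_pow (ht l) (m := F l)).mono ?_
      have h2 : (F l : ℝ) ≤ q := by exact_mod_cast (hF l).le
      nlinarith
  refine h1.mono (le_of_eq ?_)
  rw [Finset.sum_sub_distrib, Finset.sum_const, Finset.card_univ, Fintype.card_fin, nsmul_eq_mul]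
  ring

/-- The choice of the near point. -/
theorem exists_etaL (hlim : ∀ n l (ε : ℝ), 0 < ε → ∃ h ∈ P, v.Ge (ρ l / p ^ n - ε) (u n l - h))
    (n q : ℕ) {ε : ℝ} (hε : 0 < ε) :
    ∃ η : Fin m → P, (∀ l, v.Ge (ρ l / p ^ n - ε) (algebraMap P Ω (η l) - u n l)) ∧
      ∀ F : Fin m → ℕ, (∀ l, F l < q) →
      v.Ge (∑ l, F l * (ρ l / p ^ n) - ε) (∏ l, (algebraMap P Ω (η l) - u n l) ^ F l) := by
  obtain ⟨γ, hγ, hγε, hγε'⟩ : ∃ γ : ℝ, 0 < γ ∧ m * q * γ ≤ ε ∧ γ ≤ ε := by
    have h1 : (0 : ℝ) ≤ m * q := by positivity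
    refine ⟨ε / (m * q + 1), by positivity, ?_, ?_⟩
    · rw [← mul_div_assoc, div_le_iff₀ (by positivity)]
      nlinarith
    · rw [div_le_iff₀ (by positivity)]
      nlinarith
  choose η hη hηu using fun l => hlim n l γ hγ
  have key : ∀ l, v.Ge (ρ l / p ^ n - γ) (algebraMap P Ω ⟨η l, hη l⟩ - u n l) := by
    intro l
    change v.Ge (ρ l / p ^ n - γ) (η l - u n l)
    have e : η l - u n l = -(u n l - η l) := by ring
    rw [e]
    exact (hηu l).neg
  refine ⟨fun l => ⟨η l, hη l⟩, fun l => (key l).mono (by linarith), fun F hF => ?_⟩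
  exact (ge_prod_powL hγ.le (t := fun l => algebraMap P Ω ⟨η l, hη l⟩ - u n l) key
    hF).mono (by linarith)

variable [hp : Fact p.Prime] [CharP k p] [CharP Ω p] [IsAlgClosed Ω]

/-- **Distances**: an element of `L` near to the closure of `N(u n l)` is near to `N`, up to `ε`. -/
theorem IsoL.dist (h0 : Ctx0 k v) (hc : CompleteV v) (h : IsoL p v L u ρ) (hPN : P ≤ N)
    (hNL : N ≤ L) (hwP : ∀ l, u 0 l ∈ P)
    (hlim : ∀ n l (ε : ℝ), 0 < ε → ∃ h ∈ P, v.Ge (ρ l / p ^ n - ε) (u n l - h))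
    {a l : Ω} (hl : l ∈ L)
    (ha : a ∈ clI v (N ⊔ IntermediateField.adjoin k {x | ∃ n l, x = u n l})) {b : ℝ}
    (hla : v.Ge b (l - a)) {ε : ℝ} (hε : 0 < ε) : ∃ a' ∈ N, v.Ge (b - ε) (l - a') := by
  have hr := h.root
  have _ : CharP L p := (RingHom.charP_iff (algebraMap L Ω) (algebraMap L Ω).injective p).2
    inferInstance
  obtain ⟨a₁, ha₁, h1⟩ := mem_clI.1 ha b
  obtain ⟨n, f, rfl⟩ := AU.field hr hp.out.pos (fun l => hPN (hwP l)) ha₁
  obtain ⟨η, -, hη⟩ := exists_etaL hlim n (p ^ n) hε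
  set η' : Fin m → N := fun i => IntermediateField.inclusion hPN (η i) with hη'
  set f' : (Fin m → ℕ) →₀ L := f.mapRange (IntermediateField.inclusion hNL) (map_zero _) with hf'
  set g : (Fin m → ℕ) →₀ L := Finsupp.single (fun _ => 0) ⟨l, hl⟩ - f' with hg
  have h2 : ev (u n) g = l - ev (u n) f := by
    rw [hg, map_sub, hf', ev_base, Key.ev_single]
    simp
  have h3 : v.Ge b (ev (u n) g) := by
    rw [h2]
    have e : l - ev (u n) f = (l - a) + (a - ev (u n) f) := by ring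
    rw [e]
    exact hla.add h1
  have h4 := Key.ev_sp p n (u := u 0) (u' := u n) (fun i => h.root_pow' n i)
    (fun i => IntermediateField.inclusion hNL (η' i)) g
  have h5 : ev (u 0) (sp (p ^ n) (fun i => IntermediateField.inclusion hNL (η' i)) g) =
      l - ev (u 0) (sp (p ^ n) η' f) := by
    rw [hg, map_sub, hf', sp_base, map_sub, ev_base, Key.sp_single, Key.ev_single]
    simp
  refine ⟨ev (u 0) (sp (p ^ n) η' f), ev_mem le_rfl (fun i => hPN (hwP i)) _, ?_⟩
  rw [← h5, h4]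
  refine RVal.Ge.sum _ _ fun F hF => ?_
  have hF' : ∀ l, F l < p ^ n := fun l => Finset.mem_range.1 ((Fintype.mem_piFinset.1 hF) l)
  refine ((h.norm_le h0 hc n F hF' g h3).mul (hη F hF')).mono (le_of_eq ?_)
  ring

end Pool.Agent.TWC
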