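import Pool.Agent.Lib.TWC.HSx

/-!
# TANK W, the third floor: definitions (note 3170)

* `HSF p v F D`: `D n j` is the operator of index `j / p ^ n` of an iterative Hasse-Schmidt family
  on the field `F`, of norm `≤ 0`;
* `XOp`: an operator of norm `≤ 0`, modulo elements of positive value, which commutes with `D`;
* `Ev v u t`: the values of `u i` are eventually `≥ t - ε`, for every `ε > 0`.
-/

set_option autoImplicit false

open Polynomial

namespace Pool.Agent.TWC.Tie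

open Pool.Agent.H15JM (RVal)
open Pool.Agent.LU1 (VPos)

universe u

variable {k Ω : Type u} [Field k] [Field Ω] [Algebra k Ω]

/-- An iterative Hasse-Schmidt family on `F`; `D n j` has the index `j / p ^ n`. -/
structure HSF (p : ℕ) (v : RVal Ω) (F : IntermediateField k Ω) (D : ℕ → ℕ → F →ₗ[k] F) :
    Prop where
  norm : ∀ (n j : ℕ) (x : F) (b : ℝ), v.Ge b (x : Ω) → v.Ge b (D n j x : Ω)
  zero : ∀ (n : ℕ) (x : F), D n 0 x = x
  up : ∀ (n j : ℕ) (x : F), D (n + 1) (p * j) x = D n j x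
  frob : ∀ (n j : ℕ) (x : F), D n j (x ^ p) = (D (n + 1) j x) ^ p
  const : ∀ (n j : ℕ) (c : k), j ≠ 0 → D n j (algebraMap k F c) = 0
  comp : ∀ (n i j : ℕ) (x : F), D n i (D n j x) = ((i + j).choose i : F) * D n (i + j) x
  fin : ∀ x : F, ∃ m, ∀ n j, ¬ p ^ (n - m) ∣ j → D n j x = 0
  ovc : ∀ x : F, ∃ L : ℕ, ∀ n j, p ^ n * L < j → VPos v (D n j x : Ω)

/-- An operator modulo positive values, which commutes with the family `D`. -/
structure XOp (v : RVal Ω) (F : IntermediateField k Ω) (D : ℕ → ℕ → F →ₗ[k] F)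
    (X : F →ₗ[k] F) : Prop where
  norm : ∀ (x : F) (t : ℝ), t ≤ 0 → v.Ge t (x : Ω) → v.Ge t (X x : Ω)
  str : ∀ x : F, VPos v (x : Ω) → VPos v (X x : Ω)
  const : ∀ c : k, VPos v (X (algebraMap k F c) : Ω)
  comm : ∀ (n j : ℕ) (x : F), VPos v ((X (D n j x) : Ω) - D n j (X x))

/-- Eventually of value `≥ t - ε`. -/
def Ev (v : RVal Ω) (u : ℕ → Ω) (t : ℝ) : Prop :=
  ∀ ε : ℝ, 0 < ε → ∃ N : ℕ, ∀ i ≥ N, v.Ge (t - ε) (u i)

variable {v : RVal Ω} {u w : ℕ → Ω} {t s : ℝ}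

theorem Ev.mono (h : Ev v u t) (hs : s ≤ t) : Ev v u s := fun ε hε => by
  obtain ⟨N, hN⟩ := h ε hε
  exact ⟨N, fun i hi => (hN i hi).mono (by linarith)⟩

theorem Ev.add (h : Ev v u t) (h' : Ev v w t) : Ev v (fun i => u i + w i) t := fun ε hε => by
  obtain ⟨N, hN⟩ := h ε hε
  obtain ⟨N', hN'⟩ := h' ε hε
  exact ⟨max N N', fun i hi => (hN i ((le_max_left _ _).trans hi)).add
    (hN' i ((le_max_right _ _).trans hi))⟩

theorem Ev.sub (h : Ev v u t) (h' : Ev v w t) : Ev v (fun i => u i - w i) t := fun ε hε => by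
  obtain ⟨N, hN⟩ := h ε hε
  obtain ⟨N', hN'⟩ := h' ε hε
  exact ⟨max N N', fun i hi => (hN i ((le_max_left _ _).trans hi)).sub
    (hN' i ((le_max_right _ _).trans hi))⟩

theorem Ev.congr (h : Ev v u t) (e : ∀ i, w i = u i) : Ev v w t := by
  have : w = u := funext e
  rwa [this]

theorem Ev.const {x : Ω} (h : v.Ge t x) : Ev v (fun _ => x) t := fun ε hε =>
  ⟨0, fun _ _ => h.mono (by linarith)⟩

/-- A constant sequence. -/
theorem Ev.of_const {x : Ω} (h : Ev v (fun _ => x) t) : v.Ge t x := fun h0 =>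
  le_of_forall_pos_le_add fun ε hε => by
    obtain ⟨N, hN⟩ := h ε hε
    have := hN N le_rfl h0
    linarith

theorem Ev.pow (h : Ev v u 0) (q : ℕ) : Ev v (fun i => u i ^ q) 0 := fun ε hε => by
  obtain ⟨N, hN⟩ := h (ε / (q + 1)) (by positivity)
  refine ⟨N, fun i hi => ?_⟩
  refine (Pool.Agent.TWM.ge_pow (hN i hi) q).mono ?_
  have h1 : (0 : ℝ) < (q : ℝ) + 1 := by positivity
  have h2 : (q : ℝ) * (ε / (q + 1)) ≤ ε := by
    rw [mul_div_assoc', div_le_iff₀ h1]
    nlinarith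
  nlinarith

end Pool.Agent.TWC.Tie
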