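import Pool.Agent.Lib.TWC.Lift
import Pool.Agent.Lib.TWC.EW
import Pool.Agent.Lib.TWM.NNx

/-!
# TANK W, class C: tight elements of level 0, the width of the letters (3188, (1))

* `lau z F a`: the Laurent polynomial `∑ j ∈ F, a j z ^ j`; `lau_ge`, `le_of_lau_ge`;
* `exists_lau`: they are dense in `cadj v ⊥ z`, `0 < v z`;
* `exists_der`: a derivation of `K`, of norm `≥ 0`, with a prescribed value at `x ∉ K ^ p`;
* `exists_width`: `y` a limit of `E = EW v ⊥ u`, of radius 0: the distance of `y` to the closure of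
  `k(u i)` is `≥ - B / p ^ i`.
-/

set_option autoImplicit false

open Polynomial

namespace Pool.Agent.TWC

open Pool.Agent.H15JM (RVal)
open Pool.Agent.D2 (Ctx0)
open Pool.Agent.D2P (clI mem_clI mem_adj_self adj_le)
open Pool.Agent.LU1 (adj)
open Pool.Agent.TWM
open Pool.Agent.TWS (SphC)

universe u

variable {k Ω : Type u} [Field k] [Field Ω] [Algebra k Ω] {v : RVal Ω}

/-! ### Laurent polynomials of one element -/

/-- The Laurent polynomial. -/
def lau (z : Ω) (F : Finset ℤ) (a : ℤ → k) : Ω := ∑ j ∈ F, algebraMap k Ω (a j) * z ^ j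

theorem lau_mem {B : IntermediateField k Ω} {z : Ω} (hz : z ∈ B) (F : Finset ℤ) (a : ℤ → k) :
    lau z F a ∈ B := sum_mem fun j _ => mul_mem (B.algebraMap_mem _) (zpow_mem hz j)

theorem lau_term_ge (h0 : Ctx0 k v) {z : Ω} (hz : z ≠ 0) (a : k) (j : ℤ) :
    v.Ge ((j : ℝ) * v z) (algebraMap k Ω a * z ^ j) := by
  have h1 := RVal.Ge.mul (h0.ge a) (v.ge_self (z ^ j))
  rwa [zero_add, v.map_zpow hz] at h1

theorem lau_ge (h0 : Ctx0 k v) {z : Ω} (hz : z ≠ 0) {F : Finset ℤ} {a : ℤ → k} {b : ℝ}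
    (h : ∀ j ∈ F, a j ≠ 0 → b ≤ (j : ℝ) * v z) : v.Ge b (lau z F a) := by
  refine RVal.Ge.sum _ _ fun j hj => ?_
  by_cases h1 : a j = 0
  · rw [h1, map_zero, zero_mul]
    exact RVal.Ge.zero
  · exact (lau_term_ge h0 hz (a j) j).mono (h j hj h1)

theorem le_of_lau_ge (h0 : Ctx0 k v) {z : Ω} (hz : z ≠ 0) (hz0 : 0 < v z) {F : Finset ℤ}
    {a : ℤ → k} {b : ℝ} (h : v.Ge b (lau z F a)) {j : ℤ} (hj : j ∈ F) (ha : a j ≠ 0) :
    b ≤ (j : ℝ) * v z := by
  classical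
  set S := F.filter fun j => a j ≠ 0 with hS
  have hsum : lau z F a = ∑ j ∈ S, algebraMap k Ω (a j) * z ^ j := by
    rw [lau, hS, Finset.sum_filter]
    refine Finset.sum_congr rfl fun j _ => ?_
    by_cases h1 : a j = 0
    · rw [h1, map_zero, zero_mul, if_neg (by simp)]
    · rw [if_pos h1]
  have hval : ∀ j ∈ S, algebraMap k Ω (a j) * z ^ j ≠ 0 ∧
      v (algebraMap k Ω (a j) * z ^ j) = (j : ℝ) * v z := fun j hj => by
    have h1 : algebraMap k Ω (a j) ≠ 0 := by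
      rw [Ne, map_eq_zero]
      exact (Finset.mem_filter.1 hj).2
    refine ⟨mul_ne_zero h1 (zpow_ne_zero _ hz), ?_⟩
    rw [v.map_mul h1 (zpow_ne_zero _ hz), h0.triv _ (Finset.mem_filter.1 hj).2, v.map_zpow hz,
      zero_add]
  have hjS : j ∈ S := Finset.mem_filter.2 ⟨hj, ha⟩
  obtain ⟨i, hi, h1, h2, h3⟩ := val_sum_distinct (v := v) S
    (fun j => algebraMap k Ω (a j) * z ^ j) (fun j hj => (hval j hj).1) (fun i hi j hj he => by
      rw [(hval i hi).2, (hval j hj).2] at he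
      have := mul_right_cancel₀ hz0.ne' he
      exact_mod_cast this) ⟨j, hjS⟩
  rw [hsum] at h
  have h4 := h h1
  rw [h2] at h4
  exact (h4.trans (h3 j hjS)).trans_eq (hval j hjS).2

/-- The Laurent polynomials are dense. -/
theorem exists_lau (h0 : Ctx0 k v) {z : Ω} (hz : z ≠ 0) (hz0 : 0 < v z) {a : Ω}
    (ha : a ∈ cadj v (⊥ : IntermediateField k Ω) z) (b : ℝ) :
    ∃ (F : Finset ℤ) (c : ℤ → k), v.Ge b (a - lau z F c) := by
  classical
  set x : Fin 1 → Ω := fun _ => z with hx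
  have hx0 : ∀ i, x i ≠ 0 := fun _ => hz
  have hind : LinearIndependent ℚ fun i => v (x i) := by
    rw [Fintype.linearIndependent_iff]
    intro g hg i
    rw [Fin.sum_univ_one] at hg
    have hi : i = 0 := Subsingleton.elim _ _
    rw [hi]
    rcases smul_eq_zero.1 hg with h1 | h1
    · exact h1
    · exact absurd h1 hz0.ne'
  have h1 : cadj v (⊥ : IntermediateField k Ω) z ≤ NN k v x :=
    cadj_le (NN_cld x) bot_le (x_mem_NN x 0)
  obtain ⟨L, hL, h2⟩ := NN_dense h0 hx0 hind a (h1 ha) b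
  -- the exponents
  have h3 : ∀ g : ℝ, L g ≠ 0 → ∃ j : ℤ, g = (j : ℝ) * v z ∧ TWM.MM v x g = z ^ j := by
    intro g hg
    obtain ⟨l, rfl⟩ := hL g hg
    refine ⟨l 0, ?_, ?_⟩
    · rw [vl_apply, Fin.sum_univ_one]
    · rw [MM_vl hind, Pool.Agent.TW.mx, Fin.prod_univ_one]
  choose! e he1 he2 using h3
  refine ⟨L.support.image e, fun j => L ((j : ℝ) * v z), ?_⟩
  have h4 : evL (TWM.MM v x) L = lau z (L.support.image e) fun j => L ((j : ℝ) * v z) := by
    rw [lau, Finset.sum_image, evL, Finsupp.sum]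
    · refine Finset.sum_congr rfl fun g hg => ?_
      have hg' := Finsupp.mem_support_iff.1 hg
      rw [← he1 g hg', he2 g hg']
    · intro g hg g' hg' heq
      rw [he1 g (Finsupp.mem_support_iff.1 hg), he1 g' (Finsupp.mem_support_iff.1 hg'), heq]
  rw [← h4]
  exact h2

section P

variable (p : ℕ) [hp : Fact p.Prime] [CharP Ω p]

theorem lau_pow [CharP k p] (z : Ω) (F : Finset ℤ) (a : ℤ → k) (n : ℕ) :
    lau z F a ^ p ^ n = lau (z ^ p ^ n) F fun j => a j ^ p ^ n := by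
  rw [lau, sum_pow_char_pow, lau]
  refine Finset.sum_congr rfl fun j _ => ?_
  rw [mul_pow, map_pow, ← zpow_natCast, ← zpow_natCast, ← zpow_mul, ← zpow_natCast, ← zpow_mul,
    mul_comm j]

/-- An element of `E = EW v ⊥ u` is a limit of the closures of the `k(u n)`. -/
theorem exists_level {u : ℕ → Ω} (hu : ∀ n, u (n + 1) ^ p = u n) {a : Ω}
    (ha : a ∈ EW v (⊥ : IntermediateField k Ω) u) (b : ℝ) :
    ∃ n, ∃ g ∈ cadj v (⊥ : IntermediateField k Ω) (u n), v.Ge b (a - g) := by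
  obtain ⟨g, hg, h1⟩ := mem_clI.1 ha b
  have hmono : ∀ n m, n ≤ m → cadj v (⊥ : IntermediateField k Ω) (u n) ≤ cadj v ⊥ (u m) := by
    intro n m hnm
    obtain ⟨d, rfl⟩ := Nat.exists_eq_add_of_le hnm
    refine cadj_le (cld_cadj v _ _) bot_le ?_
    rw [← EW.pow_pow p hu n d]
    exact pow_mem (self_mem_cadj v _ _) _
  have hg' : g ∈ IntermediateField.adjoin k (Set.range u) := by
    have h2 : (⊥ : IntermediateField k Ω) ⊔ IntermediateField.adjoin k (Set.range u) =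
      IntermediateField.adjoin k (Set.range u) := bot_sup_eq _
    rw [← h2]
    exact hg
  have h2 : ∃ n, g ∈ cadj v (⊥ : IntermediateField k Ω) (u n) := by
    clear hg h1
    induction hg' using IntermediateField.adjoin_induction with
    | mem x hx =>
      obtain ⟨n, rfl⟩ := hx
      exact ⟨n, self_mem_cadj v _ _⟩
    | algebraMap x => exact ⟨0, IntermediateField.algebraMap_mem _ x⟩
    | add x y _ _ h3 h4 =>
      obtain ⟨n, hn⟩ := h3
      obtain ⟨m, hm⟩ := h4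
      exact ⟨max n m, add_mem (hmono n _ (le_max_left _ _) hn) (hmono m _ (le_max_right _ _) hm)⟩
    | inv x _ h3 =>
      obtain ⟨n, hn⟩ := h3
      exact ⟨n, inv_mem hn⟩
    | mul x y _ _ h3 h4 =>
      obtain ⟨n, hn⟩ := h3
      obtain ⟨m, hm⟩ := h4
      exact ⟨max n m, mul_mem (hmono n _ (le_max_left _ _) hn) (hmono m _ (le_max_right _ _) hm)⟩
  obtain ⟨n, hn⟩ := h2
  exact ⟨n, g, hn, h1⟩

/-! ### The derivation -/

variable [CharP k p] [PerfectRing k p] [IsAlgClosed Ω] {K : IntermediateField k Ω}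

/-- A derivation of norm `≥ 0` with a prescribed value at `x`. -/
theorem exists_der (h0 : Ctx0 k v) (hcv : CompleteV v) (hsc : SphC v) (hKc : Cld v K)
    {S : Finset Ω} (hS : ∀ x ∈ S, x ∈ K)
    (hgen : K ≤ kp p K ⊔ IntermediateField.adjoin k (S : Set Ω)) {x : Ω} (hx : x ∈ K)
    (hxp : x ∉ kp p K) {c : Ω} (hc : ∀ g ∈ K, v.Ge (v (x - g ^ p)) c) :
    ∃ D : Derivation k K Ω, D ⟨x, hx⟩ = c ∧ ∀ (a : K) (b : ℝ), v.Ge b (a : Ω) → v.Ge b (D a) := by
  obtain ⟨D, h1, h2, h3⟩ := HSn.lift_at p h0 hcv hsc hKc hS hgen (HSn.id_zero (v := v) (K := K)) hx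
    hxp (c := c) (by
      intro g hg
      rw [if_neg (fun h4 => hp.out.one_lt.not_ge (Nat.le_of_dvd one_pos h4)), sub_zero]
      exact hc g hg)
  have hD0 : ∀ y ∈ K, D 0 y = y := h3.zero
  have hadd : ∀ a b : K, D 1 ((a + b : K) : Ω) = D 1 a + D 1 b := fun a b =>
    h3.add 1 le_rfl a a.2 b b.2
  have hmul : ∀ a b : K, D 1 ((a * b : K) : Ω) = (a : Ω) * D 1 b + (b : Ω) * D 1 a := fun a b => by
    have h4 := h3.mul 1 le_rfl a a.2 b b.2
    rw [show ((a * b : K) : Ω) = (a : Ω) * b from rfl, h4]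
    rw [Finset.Nat.antidiagonal_succ]
    simp [hD0 a a.2, hD0 b b.2, mul_comm]
  have hconst : ∀ a : k, D 1 (algebraMap k Ω a) = 0 := h3.const 1 le_rfl le_rfl
  refine ⟨Derivation.mk' { toFun := fun a => D 1 a, map_add' := hadd, map_smul' := fun a b => ?_ }
    fun a b => ?_, h2, fun a b hb => h3.norm 1 le_rfl a a.2 b hb⟩
  · have h4 : ((a • b : K) : Ω) = ((algebraMap k K a * b : K) : Ω) := by
      rw [Algebra.smul_def]
    rw [h4, hmul]
    have h5 : ((algebraMap k K a : K) : Ω) = algebraMap k Ω a := rfl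
    rw [h5, hconst, mul_zero, add_zero, RingHom.id_apply, Algebra.smul_def]
  · exact hmul a b

/-- The closure of `k(x, y)` is generated by `x`, `y` over its `p`-th powers. -/
theorem gen_cadj (hcv : CompleteV v) (x y : Ω) : ∃ S : Finset Ω,
    (∀ z ∈ S, z ∈ cadj v (cadj v (⊥ : IntermediateField k Ω) x) y) ∧
    cadj v (cadj v (⊥ : IntermediateField k Ω) x) y ≤
      kp p (cadj v (cadj v (⊥ : IntermediateField k Ω) x) y) ⊔
        IntermediateField.adjoin k (S : Set Ω) := by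
  classical
  set C := cadj v (cadj v (⊥ : IntermediateField k Ω) x) y with hC
  have hCc : Cld v C := cld_cadj v _ _
  have hxC : x ∈ C := le_cadj v _ _ (self_mem_cadj v _ _)
  have hyC : y ∈ C := self_mem_cadj v _ _
  have hx1 : IsAlgebraic (kp p C) x := IsAlgebraic.of_pow hp.out.pos
    (isAlgebraic_algebraMap (⟨x ^ p, x, hxC, rfl⟩ : kp p C))
  have hy1 : IsAlgebraic (adj (kp p C) x) y := IsAlgebraic.of_pow hp.out.pos
    (isAlgebraic_algebraMap (⟨y ^ p, (mem_adj_self (kp p C) x).2 ⟨y, hyC, rfl⟩⟩ :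
      adj (kp p C) x))
  have hR : Cld v (adj (adj (kp p C) x) y) := cld_adj hcv (cld_adj hcv (cld_kp p hCc) hx1) hy1
  have h1 : C ≤ adj (adj (kp p C) x) y :=
    cadj_le hR (cadj_le hR bot_le ((mem_adj_self (adj (kp p C) x) y).2 (mem_adj_self (kp p C) x).1))
      (mem_adj_self (adj (kp p C) x) y).1
  refine ⟨{x, y}, fun z hz => ?_, h1.trans (adj_le (adj_le le_sup_left ?_) ?_)⟩
  · rcases Finset.mem_insert.1 hz with rfl | hz
    · exact hxC
    · rw [Finset.mem_singleton.1 hz]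
      exact hyC
  · exact (le_sup_right : IntermediateField.adjoin k _ ≤ kp p C ⊔ _)
      (IntermediateField.subset_adjoin k _ (by simp))
  · exact (le_sup_right : IntermediateField.adjoin k _ ≤ kp p C ⊔ _)
      (IntermediateField.subset_adjoin k _ (by simp))

omit [PerfectRing k p] [IsAlgClosed Ω] in
/-- One step down. -/
theorem width_step (h0 : Ctx0 k v) {u : ℕ → Ω} (hu0 : u 0 ≠ 0) (hv : 0 < v (u 0))
    (hu : ∀ n, u (n + 1) ^ p = u n) (huK : u 0 ∈ K) {y : Ω} (hy : y ∈ K)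
    (D : Derivation k K Ω) (hD : ∀ (a : K) (b : ℝ), v.Ge b (a : Ω) → v.Ge b (D a))
    {N₀ : ℝ} (hN0 : 0 ≤ N₀) (hD0 : D ⟨u 0, huK⟩ ≠ 0) (hN : v (D ⟨u 0, huK⟩) = N₀ + v (u 0)) {m : ℕ} {τ : ℝ}
    {g : Ω} (hg : g ∈ cadj v (⊥ : IntermediateField k Ω) (u (m + 1))) (h : v.Ge (-τ) (y - g)) :
    ∃ g' ∈ cadj v (⊥ : IntermediateField k Ω) (u m),
      v.Ge (-(τ + N₀ / p ^ (m + 1))) (y - g') := by
  classical
  have hp0 : (0 : ℝ) < p := by exact_mod_cast hp.out.pos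
  have hpm : (0 : ℝ) < (p : ℝ) ^ (m + 1) := pow_pos hp0 _
  have hroot : u (m + 1) ^ p ^ (m + 1) = u 0 := by
    have := EW.pow_pow p hu 0 (m + 1)
    rwa [zero_add] at this
  have hum : u (m + 1) ≠ 0 := fun h1 => hu0 (by
    rw [← hroot, h1, zero_pow (pow_ne_zero _ hp.out.ne_zero)])
  have hvm : v (u 0) = (p : ℝ) ^ (m + 1) * v (u (m + 1)) := by
    rw [← hroot, v.map_pow hum]
    push_cast
    rfl
  have hvm0 : 0 < v (u (m + 1)) := by
    rw [hvm] at hv
    exact pos_of_mul_pos_right hv hpm.le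
  obtain ⟨F, a, h1⟩ := exists_lau h0 hum hvm0 hg (-τ)
  have h2 : v.Ge (-τ) (y - lau (u (m + 1)) F a) := by
    have := h.add h1
    rwa [sub_add_sub_cancel] at this
  have hsplit : lau (u (m + 1)) F a = lau (u (m + 1)) (F.filter fun j => (p : ℤ) ∣ j) a +
      lau (u (m + 1)) (F.filter fun j => ¬ (p : ℤ) ∣ j) a :=
    (Finset.sum_filter_add_sum_filter_not F (fun j => (p : ℤ) ∣ j) _).symm
  -- the powers
  have h3 : v.Ge (-((p : ℝ) ^ (m + 1) * τ))
      (y ^ p ^ (m + 1) - lau (u 0) F fun j => a j ^ p ^ (m + 1)) := by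
    have h4 := ge_pow h2 (p ^ (m + 1))
    rw [sub_pow_char_pow, lau_pow, hroot] at h4
    push_cast at h4
    rwa [mul_neg] at h4
  set a' : ℤ → k := fun j => a j ^ p ^ (m + 1) with ha'
  set b : ℤ → k := fun j => (j : k) * a' j with hb
  have hDY : D (⟨y, hy⟩ ^ p ^ (m + 1)) = 0 := by
    rw [Derivation.leibniz_pow]
    have : ((p ^ (m + 1) : ℕ) : Ω) = 0 := by
      rw [pow_succ]
      push_cast
      rw [CharP.cast_eq_zero, mul_zero]
    rw [nsmul_eq_mul, this, zero_mul]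
  have hDE : D (∑ j ∈ F, algebraMap k K (a' j) * (⟨u 0, huK⟩ : K) ^ j) =
      D ⟨u 0, huK⟩ * (u 0)⁻¹ * lau (u 0) F b := by
    rw [map_sum, lau, Finset.mul_sum]
    refine Finset.sum_congr rfl fun j _ => ?_
    rw [Derivation.leibniz, Derivation.map_algebraMap, smul_zero, add_zero,
      Derivation.leibniz_zpow]
    have e1 : (⟨u 0, huK⟩ : K) ^ (j - 1) • D ⟨u 0, huK⟩ = (u 0) ^ (j - 1) * D ⟨u 0, huK⟩ := by
      change ((((⟨u 0, huK⟩ : K) ^ (j - 1) : K)) : Ω) * D ⟨u 0, huK⟩ = _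
      push_cast
      rfl
    rw [e1]
    change algebraMap k Ω (a' j) * (j • (u 0 ^ (j - 1) * D ⟨u 0, huK⟩)) = _
    rw [hb, zsmul_eq_mul, zpow_sub_one₀ hu0, map_mul, map_intCast]
    ring
  have h4 : v.Ge (-((p : ℝ) ^ (m + 1) * τ)) (D ⟨u 0, huK⟩ * (u 0)⁻¹ * lau (u 0) F b) := by
    have h5 := hD (⟨y, hy⟩ ^ p ^ (m + 1) -
      ∑ j ∈ F, algebraMap k K (a' j) * (⟨u 0, huK⟩ : K) ^ j) (-((p : ℝ) ^ (m + 1) * τ)) (by
        push_cast
        exact h3)
    rw [map_sub, hDY, hDE, zero_sub] at h5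
    have h6 := h5.neg
    rwa [neg_neg] at h6
  have h5 : v.Ge (-((p : ℝ) ^ (m + 1) * τ) - N₀) (lau (u 0) F b) := by
    have h6 : v.Ge (-N₀) ((D ⟨u 0, huK⟩)⁻¹ * u 0) := fun _ => by
      rw [v.map_mul (inv_ne_zero hD0) hu0, v.map_inv hD0, hN]
      linarith
    have h7 := h6.mul h4
    have e2 : (D ⟨u 0, huK⟩)⁻¹ * u 0 * (D ⟨u 0, huK⟩ * (u 0)⁻¹ * lau (u 0) F b) =
        lau (u 0) F b := by
      field_simp
    rw [e2] at h7
    exact h7.mono (by linarith)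
  refine ⟨lau (u (m + 1)) (F.filter fun j => (p : ℤ) ∣ j) a, ?_, ?_⟩
  · refine sum_mem fun j hj => mul_mem (IntermediateField.algebraMap_mem _ _) ?_
    obtain ⟨j', rfl⟩ := (Finset.mem_filter.1 hj).2
    rw [zpow_mul, zpow_natCast, hu]
    exact zpow_mem (self_mem_cadj v _ _) _
  · have e3 : y - lau (u (m + 1)) (F.filter fun j => (p : ℤ) ∣ j) a =
        (y - lau (u (m + 1)) F a) + lau (u (m + 1)) (F.filter fun j => ¬ (p : ℤ) ∣ j) a := by
      rw [hsplit]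
      ring
    rw [e3]
    have h6 : v.Ge (-(τ + N₀ / p ^ (m + 1)))
        (lau (u (m + 1)) (F.filter fun j => ¬ (p : ℤ) ∣ j) a) := by
      refine lau_ge h0 hum fun j hj ha => ?_
      obtain ⟨hjF, hjp⟩ := Finset.mem_filter.1 hj
      have h7 : b j ≠ 0 := by
        rw [hb, ha']
        refine mul_ne_zero ?_ (pow_ne_zero _ ha)
        rwa [Ne, CharP.intCast_eq_zero_iff k p]
      have h8 := le_of_lau_ge h0 hu0 hv h5 hjF h7
      rw [hvm] at h8
      have h9 : (p : ℝ) ^ (m + 1) * (-(τ + N₀ / p ^ (m + 1))) ≤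
          (p : ℝ) ^ (m + 1) * ((j : ℝ) * v (u (m + 1))) := by
        refine le_trans (le_of_eq ?_) (h8.trans (le_of_eq ?_))
        · field_simp
          ring
        · ring
      exact le_of_mul_le_mul_left h9 hpm
    exact (h2.mono (by have := div_nonneg hN0 hpm.le; linarith)).add h6

/-- **The width.** -/
theorem exists_width (h0 : Ctx0 k v) (hcv : CompleteV v) (hsc : SphC v) {u : ℕ → Ω}
    (hu0 : u 0 ≠ 0) (hv : 0 < v (u 0)) (hu : ∀ n, u (n + 1) ^ p = u n) {y : Ω}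
    (hy : Lim v (EW v (⊥ : IntermediateField k Ω) u) 0 y)
    (hx : u 0 ∉ kp p (cadj v (cadj v (⊥ : IntermediateField k Ω) (u 0)) y)) :
    ∃ B : ℝ, 0 ≤ B ∧ ∀ i, ∃ g ∈ cadj v (⊥ : IntermediateField k Ω) (u i),
      v.Ge (-(B / (p : ℝ) ^ i)) (y - g) := by
  classical
  have hp1 : (1 : ℝ) < p := by exact_mod_cast hp.out.one_lt
  have hp0 : (0 : ℝ) < p := by linarith
  set C := cadj v (cadj v (⊥ : IntermediateField k Ω) (u 0)) y with hC
  have hCc : Cld v C := cld_cadj v _ _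
  have huC : u 0 ∈ C := le_cadj v _ _ (self_mem_cadj v _ _)
  have hyC : y ∈ C := self_mem_cadj v _ _
  -- the derivation
  obtain ⟨d, hd⟩ := Dst.exists (cld_kp p hCc) hx
  obtain ⟨n₀, hn₀⟩ := exists_nat_gt (d / v (u 0))
  set n₁ := n₀ + 1 with hn₁
  have hc0 : u 0 ^ n₁ ≠ 0 := pow_ne_zero _ hu0
  have hcv' : v (u 0 ^ n₁) = n₁ * v (u 0) := v.map_pow hu0 _
  have hdc : d ≤ v (u 0 ^ n₁) := by
    rw [hcv']
    rw [div_lt_iff₀ hv] at hn₀
    have h1 : (n₁ : ℝ) = n₀ + 1 := by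
      rw [hn₁]
      push_cast
      ring
    rw [h1]
    nlinarith
  obtain ⟨S, hS, hgen⟩ := gen_cadj (k := k) p hcv (u 0) y
  obtain ⟨D, hD1, hD2⟩ := exists_der p h0 hcv hsc hCc hS hgen huC hx (c := u 0 ^ n₁) (by
    intro g hg _
    exact (hd.le (a := g ^ p) ⟨g, hg, rfl⟩).2.trans hdc)
  set N₀ : ℝ := n₀ * v (u 0) with hN₀
  have hN0 : 0 ≤ N₀ := mul_nonneg (Nat.cast_nonneg _) hv.le
  have hmono : ∀ n m, n ≤ m → cadj v (⊥ : IntermediateField k Ω) (u n) ≤ cadj v ⊥ (u m) := by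
    intro n m hnm
    obtain ⟨d, rfl⟩ := Nat.exists_eq_add_of_le hnm
    refine cadj_le (cld_cadj v _ _) bot_le ?_
    rw [← EW.pow_pow p hu n d]
    exact pow_mem (self_mem_cadj v _ _) _
  have key : ∀ (i d : ℕ) (τ : ℝ) (g : Ω), g ∈ cadj v (⊥ : IntermediateField k Ω) (u (i + d)) →
      v.Ge (-τ) (y - g) → ∃ g' ∈ cadj v (⊥ : IntermediateField k Ω) (u i),
        v.Ge (-(τ + N₀ * (1 / (p : ℝ) ^ i - 1 / (p : ℝ) ^ (i + d)))) (y - g') := by
    intro i d
    induction d with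
    | zero =>
      intro τ g hg h1
      refine ⟨g, hg, h1.mono (le_of_eq ?_)⟩
      rw [add_zero, sub_self, mul_zero, add_zero]
    | succ d ih =>
      intro τ g hg h1
      obtain ⟨g₁, hg₁, h2⟩ := width_step p h0 hu0 hv hu huC hyC D hD2 hN0 (by rw [hD1]; exact hc0)
        (by
          rw [hD1, hcv', hN₀, hn₁]
          push_cast
          ring) (m := i + d) hg h1
      obtain ⟨g₂, hg₂, h3⟩ := ih _ g₁ hg₁ h2
      refine ⟨g₂, hg₂, h3.mono ?_⟩
      have h4 : (0 : ℝ) < (p : ℝ) ^ (i + d) := pow_pos hp0 _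
      have h5 : 2 * (1 / (p : ℝ) ^ (i + d + 1)) ≤ 1 / (p : ℝ) ^ (i + d) := by
        have h2p : (2 : ℝ) ≤ p := by exact_mod_cast hp.out.two_le
        rw [pow_succ, mul_one_div, div_le_div_iff₀ (by positivity) h4]
        nlinarith
      have h6 := mul_le_mul_of_nonneg_left h5 hN0
      have h7 : N₀ / (p : ℝ) ^ (i + d + 1) = N₀ * (1 / (p : ℝ) ^ (i + d + 1)) := by ring
      rw [h7, ← add_assoc i d 1]
      nlinarith
  refine ⟨N₀ + 1, by linarith, fun i => ?_⟩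
  have hpi : (0 : ℝ) < (p : ℝ) ^ i := pow_pos hp0 _
  obtain ⟨a, ha, h1⟩ := hy (1 / (p : ℝ) ^ i) (by positivity)
  obtain ⟨n, g, hg, h2⟩ := exists_level p hu ha (-(1 / (p : ℝ) ^ i))
  have h3 : v.Ge (-(1 / (p : ℝ) ^ i)) (y - g) := by
    rw [zero_sub] at h1
    have := h1.add h2
    rwa [sub_add_sub_cancel] at this
  obtain ⟨g', hg', h4⟩ := key i n (1 / (p : ℝ) ^ i) g (hmono n _ (Nat.le_add_left _ _) hg) h3
  refine ⟨g', hg', h4.mono ?_⟩
  have h5 : (0 : ℝ) < 1 / (p : ℝ) ^ (i + n) := by positivity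
  have h6 : (N₀ + 1) / (p : ℝ) ^ i = N₀ * (1 / (p : ℝ) ^ i) + 1 / (p : ℝ) ^ i := by ring
  rw [h6]
  nlinarith [mul_nonneg hN0 h5.le]

end P

end Pool.Agent.TWC
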