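import Pool.Agent.Lib.TWC.TightA
import Pool.Agent.Lib.TWC.TightX
import Pool.Agent.Lib.TWC.TightW
import Pool.Agent.Lib.TWC.SND

/-!
# TANK W, class C: tight elements of level 0 exist (Theorem F of note 3188)

`E = EW v ⊥ u` is the closure of the perfect closure of `k(u 0)`, `0 < v (u 0)`; `y` is of
transcendental type over `E`, of radius `0`; `C` is the closure of `k(u 0, y)`.
* `Tgt0.tgt`: the roots of a tight element of level `0`; `Tgt0.neg`: its value is negative;
* `exists_tgt0`: if `u 0 ∉ C ^ p`, there is a tight element of level `0` in `C`;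
* `tgt0_or_le`: `E ≤ C`, or there is a tight element of level `0` in `C`;
* `tgt_or_le`: the same over a tower `K` over `C`.
-/

set_option autoImplicit false
set_option linter.unusedSectionVars false

open Polynomial

namespace Pool.Agent.TWC

open Pool.Agent.H15JM (RVal)
open Pool.Agent.LU1 (VPos adj)
open Pool.Agent.D2 (Ctx0)
open Pool.Agent.D2P (hen clI mem_clI)
open Pool.Agent.TWM
open Pool.Agent.TWS (SphC)

universe u

variable {k Ω : Type u} [Field k] [Field Ω] [Algebra k Ω] {v : RVal Ω}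
  {N C E K : IntermediateField k Ω} {y : Ω} [IsAlgClosed Ω]
  (p : ℕ) [hp : Fact p.Prime] [CharP Ω p]

omit [IsAlgClosed Ω] in
theorem EW_le_of {P B : IntermediateField k Ω} {u : ℕ → Ω} (hB : Cld v B) (hP : P ≤ B)
    (hu : ∀ n, u n ∈ B) : EW v P u ≤ B :=
  clI_le' (sup_le hP (IntermediateField.adjoin_le_iff.2 (by rintro _ ⟨n, rfl⟩; exact hu n))) hB

variable {p} in
/-- The roots of a tight element of level `0`. -/
theorem Tgt0.tgt {f : Ω} (h : Tgt0 p v K f) (hK : Cld v K) {x : ℕ → Ω} (hx0 : x 0 = f)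
    (hx : ∀ n, x (n + 1) ^ p = x n) : Tgt p v K x 0 := by
  refine Tgt.of_pow hK (hx0 ▸ h.mem) hx (fun m ε hε => ?_) fun g hg => hx0 ▸ h.far g hg
  obtain ⟨g, hg, h1⟩ := h.near m ε hε
  refine ⟨g ^ p, pow_mem hg p, ?_⟩
  rw [hx0, ← pow_mul, ← pow_succ']
  exact h1

variable {p} in
/-- The value of a tight element of level `0` is negative. -/
theorem Tgt0.neg [CharP k p] [PerfectRing k p] (hk : Ctx0 k v) {f : Ω} (h : Tgt0 p v K f) :
    f ≠ 0 ∧ v f < 0 := by
  have h0 : f ≠ 0 := by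
    rintro rfl
    refine h.far 0 (zero_mem _) ?_
    rw [zero_pow hp.out.ne_zero, sub_zero]
    exact Gt.zero
  refine ⟨h0, ?_⟩
  by_contra h1
  obtain ⟨c, hc⟩ := hk.residue (f := f) fun _ => not_lt.1 h1
  obtain ⟨c', hc'⟩ : ∃ c' : k, c' ^ p = c := (frobeniusEquiv k p).surjective c
  refine h.far (algebraMap k Ω c') (K.algebraMap_mem _) ?_
  rw [← map_pow, hc']
  exact hc

variable [CharP k p] [PerfectRing k p]

/-- **Tight elements of level `0` exist** (Theorem F of note 3188). -/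
theorem exists_tgt0 (h0 : Ctx0 k v) (hcv : CompleteV v) (hsc : SphC v) {u : ℕ → Ω}
    (hu0 : u 0 ≠ 0) (hv : 0 < v (u 0)) (hu : ∀ n, u (n + 1) ^ p = u n)
    (hy : TL v (EW v (⊥ : IntermediateField k Ω) u) y 0)
    (hx : u 0 ∉ kp p (cadj v (cadj v (⊥ : IntermediateField k Ω) (u 0)) y)) :
    ∃ f, Tgt0 p v (cadj v (cadj v (⊥ : IntermediateField k Ω) (u 0)) y) f := by
  obtain ⟨B, hB, h1⟩ := exists_width p h0 hcv hsc hu0 hv hu hy.lim hx
  obtain ⟨M, i₀, P, n, h2, h3, h4, h5, h6⟩ := exists_poly p h0 hu0 hv hu hB h1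
  obtain ⟨r, hr0, hr⟩ := exists_rts p
    (∑ i ∈ Finset.range M, algebraMap k Ω (P i) * y ^ p ^ i - n)
  have hNE : cadj v (⊥ : IntermediateField k Ω) (u 0) ≤ EW v ⊥ u :=
    cadj_le EW.cld bot_le (EW.mem 0)
  obtain ⟨e, f, -, hf⟩ := exists_tgt p h0 hNE hy h2 h3 h4 h5 hr hr0 (h6 r hr hr0)
  exact ⟨f, hf⟩

/-- The dichotomy. -/
theorem tgt0_or_le (h0 : Ctx0 k v) (hcv : CompleteV v) (hsc : SphC v) {u : ℕ → Ω}
    (hu0 : u 0 ≠ 0) (hv : 0 < v (u 0)) (hu : ∀ n, u (n + 1) ^ p = u n)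
    (hy : TL v (EW v (⊥ : IntermediateField k Ω) u) y 0) :
    EW v (⊥ : IntermediateField k Ω) u ≤ cadj v (cadj v (⊥ : IntermediateField k Ω) (u 0)) y ∨
      ∃ f, Tgt0 p v (cadj v (cadj v (⊥ : IntermediateField k Ω) (u 0)) y) f := by
  classical
  set C := cadj v (cadj v (⊥ : IntermediateField k Ω) (u 0)) y with hC
  have hCc : Cld v C := cld_cadj v _ _
  by_cases hex : ∃ e, u e ∉ C
  · right
    obtain ⟨e, he⟩ : ∃ e, Nat.find hex = e + 1 := by
      refine Nat.exists_eq_succ_of_ne_zero fun h1 => ?_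
      have h2 := Nat.find_spec hex
      rw [h1] at h2
      exact h2 (le_cadj v _ _ (self_mem_cadj v _ _))
    have h1 : u (e + 1) ∉ C := by
      have := Nat.find_spec hex
      rwa [he] at this
    have h2 : u e ∈ C := by
      by_contra h3
      have := Nat.find_min' hex h3
      omega
    have hroot : u e ^ p ^ e = u 0 := by
      have := root_iter hu 0 e
      rwa [zero_add] at this
    have hue : u e ≠ 0 := fun h3 => hu0 (by
      rw [← hroot, h3, zero_pow (pow_ne_zero _ hp.out.ne_zero)])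
    have hve : 0 < v (u e) := by
      rw [← hroot, v.map_pow hue] at hv
      exact pos_of_mul_pos_right hv (Nat.cast_nonneg _)
    set u' : ℕ → Ω := fun n => u (e + n) with hu'
    have hu'0 : u' 0 = u e := rfl
    have hEu : EW v (⊥ : IntermediateField k Ω) u' = EW v ⊥ u := by
      refine le_antisymm (EW_le_of EW.cld bot_le fun n => EW.mem _)
        (EW_le_of EW.cld bot_le fun n => ?_)
      rw [← root_iter hu n e, add_comm n e]
      exact pow_mem (EW.mem (u := u') n) _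
    have hCe : cadj v (cadj v (⊥ : IntermediateField k Ω) (u' 0)) y = C := by
      refine le_antisymm (cadj_le hCc (cadj_le hCc bot_le h2) (self_mem_cadj v _ _))
        (cadj_le (cld_cadj v _ _) (cadj_le (cld_cadj v _ _) bot_le ?_) (self_mem_cadj v _ _))
      rw [← hroot]
      exact pow_mem (le_cadj v _ _ (self_mem_cadj v _ _)) _
    have := exists_tgt0 p h0 hcv hsc (u := u') hue hve (fun n => hu (e + n)) (hEu ▸ hy)
      (by
        rw [hCe]
        rintro ⟨z, hz, h3⟩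
        refine h1 ?_
        have h4 : z = u (e + 1) := by
          have h5 : (z - u (e + 1)) ^ p = 0 := by
            rw [sub_pow_char, h3, hu e, hu'0, sub_self]
          exact sub_eq_zero.1 (pow_eq_zero_iff hp.out.ne_zero |>.1 h5)
        rwa [← h4])
    rwa [hCe] at this
  · left
    push Not at hex
    exact EW_le_of hCc bot_le hex

/-- The same over a tower. -/
theorem tgt_or_le (h0 : Ctx0 k v) (hcv : CompleteV v) (hsc : SphC v) {u : ℕ → Ω}
    (hu0 : u 0 ≠ 0) (hv : 0 < v (u 0)) (hu : ∀ n, u (n + 1) ^ p = u n)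
    (hy : TL v (EW v (⊥ : IntermediateField k Ω) u) y 0) {n : ℕ}
    (hK : Tow v n (cadj v (cadj v (⊥ : IntermediateField k Ω) (u 0)) y) K) :
    EW v (⊥ : IntermediateField k Ω) u ≤ cadj v (cadj v (⊥ : IntermediateField k Ω) (u 0)) y ∨
      ∃ x : ℕ → Ω, x 0 ∈ cadj v (cadj v (⊥ : IntermediateField k Ω) (u 0)) y ∧ x 0 ≠ 0 ∧
        v (x 0) < 0 ∧ Tgt p v (cadj v (cadj v (⊥ : IntermediateField k Ω) (u 0)) y) x 0 ∧
        Tgt p v K x 0 := by
  rcases tgt0_or_le p h0 hcv hsc hu0 hv hu hy with h1 | ⟨f, hf⟩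
  · exact Or.inl h1
  · right
    obtain ⟨x, hx0, hx⟩ := exists_rts p f
    refine ⟨x, hx0 ▸ hf.mem, hx0 ▸ (hf.neg h0).1, hx0 ▸ (hf.neg h0).2,
      hf.tgt (cld_cadj v _ _) hx0 hx, ?_⟩
    exact Tgt0.tgt (Tgt0.tow p hK hf) hK.cld hx0 hx

end Pool.Agent.TWC
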