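import Pool.Agent.Lib.TWC.Tower1
import Pool.Agent.Lib.TWC.DichA
import Pool.Agent.Lib.TWC.Triv

/-!
# TANK W, class C, row B3f: descent of a tower of length one
-/

set_option autoImplicit false

open Polynomial

namespace Pool.Agent.TWC

open Pool.Agent.H15JM (RVal)
open Pool.Agent.LU1 (VPos adj)
open Pool.Agent.D2 (Ctx0)
open Pool.Agent.D2P (hen clI mem_clI)
open Pool.Agent.TWM

universe u

variable {k Ω : Type u} [Field k] [Field Ω] [Algebra k Ω] {v : RVal Ω} [Fact (Ctx0 k v)]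
  {C E L LE : IntermediateField k Ω} (p : ℕ) [Fact p.Prime] [CharP k p] [CharP Ω p]
  [PerfectRing k p] [IsAlgClosed Ω] {T : Submodule k (Opr v E)}

/-- **length one** -/
theorem tower_one (h : Oper p v C E T) (hN : Nilp v T L LE) (hV : NSD p h) (hD : Desc v C E T L LE)
    {y : Ω} (hy : TL v E y 0) (hLE : LE = cadj v E y) :
    ∃ u ∈ L, TL v C u 0 ∧ L = cadj v C u := by
  have hyL : y ∈ LE := by
    rw [hLE]
    exact self_mem_cadj v E y
  refine tower_one_of hD h.cldC h.cld h.le hy hLE fun φ hφ Φ hΦ => ?_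
  exact triv_one p h hN hV hD hy hyL (fun x hx hl => spn_of_mem p hy (hLE ▸ hx) hl) hφ hΦ

end Pool.Agent.TWC
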