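import Pool.Agent.Lib.TWC.NT

/-!
# TANK W, dimension 4: the operators act trivially on the top floor (`L`-linear operators)

`B` closed perfect with operators `T` (property `V'`), `LE = B⟨c⟩⟨z⟩`, `c ∈ L`, the operators extend
`L`-linearly to `LE`, of norm `≤ 0`. No field of constants.

* `OpAt.of_ext`: an `L`-linear extension is coefficientwise on `B[c]`;
* `kil_of_ext`: the operators kill the class of `c`;
* `triv_top`: the image of `z` is in `B⟨c⟩ + O(0)`.
-/

set_option autoImplicit false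
set_option linter.unusedSectionVars false

open Polynomial TensorProduct

namespace Pool.Agent.TWC

open Pool.Agent.H15JM (RVal)
open Pool.Agent.LU1 (VPos adj)
open Pool.Agent.D2 (Ctx0)
open Pool.Agent.D2P (hen clI mem_clI)
open Pool.Agent.TWM

universe u

variable {k Ω : Type u} [Field k] [Field Ω] [Algebra k Ω] {v : RVal Ω} [Fact (Ctx0 k v)]
  {B L LE : IntermediateField k Ω} {c z : Ω} (p : ℕ) [Fact p.Prime] [CharP k p] [CharP Ω p]
  [PerfectRing k p] [IsAlgClosed Ω] {T : Submodule k (Opr v B)}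

omit [IsAlgClosed Ω] [Fact p.Prime] [CharP k p] [CharP Ω p] [PerfectRing k p] in
omit p in
/-- An `L`-linear extension is coefficientwise on `B[c]`, `c ∈ L`. -/
theorem OpAt.of_ext {φ : Opr v B} {Φ : Opr v LE} (hB : B ≤ LE) (hL : L ≤ LE)
    (hΦ : IsExt L φ Φ) (hcL : c ∈ L) : OpAt v B LE c φ (fn Φ) 0 where
  add x hx y hy := fn_add Φ hx hy
  nrm x hx b hb := fn_ge Φ hx hb
  ev f hf := by rw [fn_eval hB hL hΦ hcL hf, zero_mul, add_zero]

/-- The operators kill the class of `c`. -/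
theorem kil_of_ext (h : OpM p v B T) (hB : B ≤ LE) (hL : L ≤ LE) (hc : TL v B c 0)
    (hcL : c ∈ L) (hext : ∀ φ ∈ T, ∃ Φ : Opr v LE, IsExt L φ Φ) : Kil p hc T := by
  refine Kil.of_zero p h hc fun φ hφ => ?_
  obtain ⟨Φ, hΦ⟩ := hext φ hφ
  have h1 : cls v B c = MM.mk v B (zs hc) := cls_eq (zs_nul hc)
  obtain ⟨hl, h2⟩ := cls_opr hB hΦ.eq (hL hcL) hc.lim
  rw [← h1, ← h2]
  have h3 : fn Φ c = 0 := by
    have h4 := hΦ.lin c hcL 1 (one_mem LE)
    rw [mul_one, hΦ.eq 1 (one_mem B), fn_of_mem φ (one_mem B)] at h4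
    have h5 : (⟨1, one_mem B⟩ : B) = 1 := rfl
    rw [h4, h5, h.one φ hφ]
    exact mul_zero c
  rw [h3]
  exact cls_of_nr ⟨0, zero_mem B, by rw [sub_zero]; exact RVal.Ge.zero⟩

/-- **The operators act trivially on the top floor.** -/
theorem triv_top (h : OpM p v B T) (hV : NSDM p h) (hB : B ≤ LE) (hL : L ≤ LE)
    (hcL : c ∈ L) (hF : Fib v B LE c z 0 0)
    (hext : ∀ φ ∈ T, ∃ Φ : Opr v LE, IsExt L φ Φ)
    (hcan : ∀ y ∈ LE, Lim v B 0 y → Nr v (cadj v B c) 0 y)
    {φ : Opr v B} (hφ : φ ∈ T) {Φ : Opr v LE} (hΦ : IsExt L φ Φ)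
    {m : ℕ} (hm : Nr v (cadj v B c) 0 ((fn Φ)^[m] z)) :
    Nr v (cadj v B c) 0 (fn Φ z) := by
  have hcl : Cld v LE := by
    rw [hF.eq]
    exact cld_cadj v _ z
  have hBL : cadj v B c ≤ LE := cadj_le hcl hB (hL hcL)
  have hzL : z ∈ LE := by
    rw [hF.eq]
    exact self_mem_cadj v _ z
  have hΦB : ∀ b ∈ cadj v B c, fn Φ b ∈ cadj v B c := fun b hb =>
    fn_cadj hB hL hcl hΦ hcL hF.ty hb
  have hX : OpAt v B LE c φ (fn Φ) 0 := OpAt.of_ext hB hL hΦ hcL
  have hK : Kil p hF.ty T := kil_of_ext p h hB hL hF.ty hcL hext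
  -- `Φ z` is a limit of `B⟨c⟩`
  have hl : Lim v (cadj v B c) 0 (fn Φ z) := by
    intro ε hε
    obtain ⟨a, ha, h1⟩ := hF.tz.lim ε hε
    refine ⟨fn Φ a, hΦB a ha, ?_⟩
    rw [← fn_sub' Φ hzL (hBL ha)]
    exact fn_ge Φ (sub_mem hzL (hBL ha)) h1
  obtain ⟨n, q, hn⟩ := spn_of_mem p hF.tz (by rw [← hF.eq]; exact fn_mem Φ z) hl
  have key : ∀ (n : ℕ) (q : ℕ → k), Nr v (cadj v B c) 0
      (fn Φ z - ∑ i ∈ Finset.range n, algebraMap k Ω (q i) * z ^ p ^ i) →
      ∃ a : k, Nr v (cadj v B c) 0 (fn Φ z - algebraMap k Ω a * z) := by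
    intro n
    induction n with
    | zero =>
      intro q hn
      exact ⟨0, by rwa [map_zero, zero_mul, ← Finset.sum_range_zero
        (fun i => algebraMap k Ω (q i) * z ^ p ^ i)]⟩
    | succ n ih =>
      intro q hn
      by_cases hq : q n = 0
      · refine ih q ?_
        rwa [Finset.sum_range_succ, hq, map_zero, zero_mul, add_zero] at hn
      · cases n with
        | zero =>
          refine ⟨q 0, ?_⟩
          rwa [zero_add, Finset.sum_range_one, pow_zero, pow_one] at hn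
        | succ n =>
          obtain ⟨β, hβ, hn⟩ := hn
          exact (hX.alpha' p h hV hφ hF.ty hK hF.tz hzL hBL hcan (by omega) hq hβ hn
            (zero_mem B)).elim
  obtain ⟨a, ha⟩ := key n q hn
  have h3 : a = 0 := scalar_zero hBL hF.tz hzL hΦB ha hm
  rwa [h3, map_zero, zero_mul, sub_zero] at ha

end Pool.Agent.TWC
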